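import Pool.Agent.MUX.StJX
import Pool.Agent.RI.LAY

/-!
# MUX, block J, module FIN: the main theorem for all fields, from the inputs
-/

set_option autoImplicit false

open NumberField IsDedekindDomain
open scoped nonZeroDivisors Pointwise

namespace Pool.Agent.MUXJ

open _root_.MU3 Pool.Agent.MU3 Pool.Agent.MU3A Pool.Agent.MU3B Pool.Agent.RI Pool.Agent.RID
  Pool.Agent.MUX Pool.Agent.MUXK Pool.Agent.MUXE

noncomputable section

namespace JFin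

/-- the ideal of a nonzero natural number is not zero -/
lemma idl_ne_bot {A B : ℤ} {M : ℕ} (hM : M ≠ 0) : idl (A := A) (B := B) M ≠ ⊥ := by
  rw [Ne, Ideal.span_singleton_eq_bot]
  intro h
  have h1 := congrArg QuadraticAlgebra.re h
  rw [QuadraticAlgebra.re_natCast] at h1
  exact hM (by exact_mod_cast h1)

/-- the case of a field `K₀` of degree prime to `p` over `k` with the `p`-th roots of unity -/
theorem cop (hRES : Sj_RES) (hSET : Sj_SET) (hMAIN : S_MAINKX) (p : ℕ) [Fact p.Prime]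
    (A B : ℤ) (P : Ideal (OO A B)) (V : ValuationSubring ℂ) (hc : CaseP p A B) (hP : IsPN p P)
    (hV : OverI V P) (hpV : (p : ℂ) ∈ V.nonunits) (hU : UnrH A B V) (hT : TorX A B)
    (hN : NLex A B) (hI : InpAll p A B V) (K₀ : IntermediateField ℚ ℂ) [FiniteDimensional ℚ K₀]
    (hk : kk A B ≤ K₀) (hcop : ¬ p ∣ Module.finrank (kk A B) (IntermediateField.extendScalars hk))
    (hTU : TorU A B K₀) (hω : ∃ ω ∈ K₀, IsPrimitiveRoot ω p)
    (Bn : ℕ → IntermediateField ℚ ℂ) (hlay : ∀ n, IsLayer p n (Bn n)) (hmono : Monotone Bn) :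
    ∃ C : ℕ, ∀ n, padicValNat p (classNo (K₀ ⊔ Bn n)) ≤ C * (n + 1) ^ 2 := by
  obtain ⟨K, hKfd, f, hSX, hSP, hKR, hHK⟩ :=
    hSET p A B P V hc hP hV hU hT hN K₀ hk hcop hTU hω Bn hlay hmono
  have hfk : FiniteDimensional ℚ (kk A B) :=
    Module.Finite.of_injective (IntermediateField.inclusion hk).toLinearMap
      (IntermediateField.inclusion hk).injective
  have hfB : ∀ n, FiniteDimensional ℚ ↥(K ⊔ Bn n) := fun n => by
    obtain ⟨h1, -, -⟩ := LAY_thm p n (Bn n) (hlay n)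
    exact IntermediateField.finiteDimensional_sup K (Bn n)
  have hkn : ∀ n, kk A B ≤ K ⊔ Bn n := fun n => (hk.trans hSX.le).trans le_sup_left
  have hk₀n : ∀ n, kk A B ≤ K₀ ⊔ Bn n := fun n => hk.trans le_sup_left
  obtain ⟨S, c, c₀, n₁, hInp⟩ := hI P f hSP K₀ K Bn hSX hKR hHK hkn hk₀n hk
  obtain ⟨hchar, halg⟩ := hRES p V hpV
  exact hMAIN (IsLocalRing.ResidueField V) p (kk A B) K₀ K Bn hSX hkn hk₀n hk S c c₀ n₁ hInp

end JFin

open JFin in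
theorem t_FIN (h1 : Sj_RES) (h2 : Sj_LAY) (h3 : Sj_DIR) (h4 : Sj_GAL) (h5 : Sj_SET) (h6 : Sj_UP)
    (h7 : Sj_SUB) (h8 : Sj_OMG) (h9 : Sj_FLD) (h10 : S_MAINKX) (h11 : P_SYL) (h12 : P_PEX) :
    Sj_FIN := by
  intro p A B P V hc hP hV hpV hU hT hN hI F M K _ hkF hFM a hTU hgal hdeg hKM
  have hpp : p = 2 ∨ p = 3 := by
    rcases hc.split with ⟨h, -⟩ | ⟨h, -⟩
    · exact Or.inr h
    · exact Or.inl h
  have hp : Fact p.Prime := by
    rcases hpp with rfl | rfl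
    · exact ⟨Nat.prime_two⟩
    · exact ⟨Nat.prime_three⟩
  have hfF : FiniteDimensional ℚ F :=
    Module.Finite.of_injective (IntermediateField.inclusion hFM).toLinearMap
      (IntermediateField.inclusion hFM).injective
  obtain ⟨-, hTot⟩ := h9 A B hc.toCQ
  obtain ⟨Bn, hlay, hmono, huniq⟩ := h2 p hpp
  obtain ⟨M₀, hM₀, hFR⟩ := h3 A B hc.toCQ hT F hTU
  obtain ⟨hgF, -, hab⟩ := h4 A B hT (idl M₀) (idl_ne_bot hM₀) F hkF hFR
  obtain ⟨F₀, hk₀, h₂, -, hn1, hg2, b, hb⟩ := h11 p (kk A B) F hkF hgF hab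
  have hfF₀ : FiniteDimensional ℚ F₀ :=
    Module.Finite.of_injective (IntermediateField.inclusion h₂).toLinearMap
      (IntermediateField.inclusion h₂).injective
  have hTU₀ : TorU A B F₀ := fun x hx => hTU x (h₂ hx)
  obtain ⟨F₁, hFF, hf1, hTU₁, hω, hgF₁, hnFF, hnF1⟩ := h8 p A B hc hT hN F₀ hk₀ hTU₀ hn1
  obtain ⟨C, hC⟩ := cop h1 h5 h10 p A B P V hc hP hV hpV hU hT hN hI F₁ (hk₀.trans hFF) hnF1
    hTU₁ hω Bn hlay hmono
  have hC0 : ∀ n, padicValNat p (classNo (F₀ ⊔ Bn n)) ≤ C * (n + 1) ^ 2 := fun n =>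
    (h6 p F₀ F₁ (Bn n) n hFF (hlay n) hgF₁ hnFF).trans (hC n)
  have hE := h12 p b F₀ F Bn h₂ hg2 hb (hTot F₀ hk₀) hlay hmono ⟨C, 2, hC0⟩
  obtain ⟨C', j, hC'⟩ := h12 p a F M Bn hFM hgal hdeg (hTot F hkF) hlay hmono hE
  obtain ⟨C₁, hC₁⟩ := h7 p K M hKM
  refine ⟨C' + C₁ + j, fun n Q hQ => ?_⟩
  have e1 := hC₁ n Q hQ
  rw [huniq n Q hQ] at e1 ⊢
  have e2 := hC' n
  have e3 : (n + 1) ^ j ≤ (n + 1) ^ (C' + C₁ + j) :=
    Nat.pow_le_pow_right (Nat.succ_pos n) (Nat.le_add_left _ _)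
  have e4 : 1 ≤ (n + 1) ^ (C' + C₁ + j) := Nat.one_le_pow _ _ (Nat.succ_pos n)
  calc padicValNat p (classNo (K ⊔ Bn n)) ≤ padicValNat p (classNo (M ⊔ Bn n)) + C₁ := e1
    _ ≤ C' * (n + 1) ^ j + C₁ := by omega
    _ ≤ C' * (n + 1) ^ (C' + C₁ + j) + C₁ * (n + 1) ^ (C' + C₁ + j) :=
        add_le_add (Nat.mul_le_mul_left _ e3) (Nat.le_mul_of_pos_right _ e4)
    _ = (C' + C₁) * (n + 1) ^ (C' + C₁ + j) := by rw [add_mul]
    _ ≤ (C' + C₁ + j) * (n + 1) ^ (C' + C₁ + j) :=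
        Nat.mul_le_mul_right _ (Nat.le_add_right _ _)

end

end Pool.Agent.MUXJ
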