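import Pool.Agent.MUX.StJU

/-!
# MUX, block J, module K0U: fields of odd degree over `k` do not contain the first layer (helper69)
-/

set_option autoImplicit false

open NumberField IsDedekindDomain
open scoped nonZeroDivisors Pointwise

namespace Pool.Agent.MUXJ

open _root_.MU3 Pool.Agent.MU3 Pool.Agent.MU3A Pool.Agent.MU3B Pool.Agent.RI Pool.Agent.RID
  Pool.Agent.MUX Pool.Agent.MUXK

noncomputable section

namespace K0U

/-- the polynomial of `w` -/
lemma poly (A B : ℤ) (h : CQ A B) : ∃ p : Polynomial ℚ, p.Monic ∧ p.natDegree ≤ 2 ∧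
    Polynomial.aeval (wC A B) p = 0 := by
  have h1 : (0 : ℝ) ≤ (absD A B : ℝ) := by
    have := h.neg
    have h0 : 0 ≤ absD A B := by
      unfold absD
      omega
    exact_mod_cast h0
  have h2 : ((Real.sqrt (absD A B) : ℝ) : ℂ) ^ 2 = (absD A B : ℂ) := by
    rw [← Complex.ofReal_pow, Real.sq_sqrt h1]
    norm_num
  have h3 : Complex.I ^ 2 = -1 := Complex.I_sq
  have h4 : (absD A B : ℂ) = -((B : ℂ) ^ 2 + 4 * A) := by simp [absD]
  have h5 : wC A B * wC A B = A + B * wC A B := by
    unfold _root_.MU3.wC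
    linear_combination (Complex.I ^ 2 / 4) * h2 + ((absD A B : ℂ) / 4) * h3 - (1 / 4) * h4
  refine ⟨Polynomial.X ^ 2 - Polynomial.C (B : ℚ) * Polynomial.X - Polynomial.C (A : ℚ), ?_, ?_,
    ?_⟩
  · monicity!
  · compute_degree
  · simp only [map_sub, map_mul, map_pow, Polynomial.aeval_X, Polynomial.aeval_C]
    simp only [eq_ratCast, Rat.cast_intCast]
    linear_combination h5

lemma im_pos (A B : ℤ) (h : CQ A B) : 0 < (wC A B).im := by
  have h2 : (wC A B).im = Real.sqrt (absD A B) / 2 := by
    simp [wC, Complex.add_im, Complex.mul_im]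
  rw [h2]
  have h3 : (0 : ℝ) < (absD A B : ℝ) := by
    have := h.neg
    have h0 : 0 < absD A B := by
      unfold absD
      omega
    exact_mod_cast h0
  positivity

end K0U

open K0U in
/-- K0U. -/
theorem t_K0U : Sj_K0U := by
  intro A B hC K₀ hfd hk hodd B₁ hB hle
  obtain ⟨hdeg, hreal, -⟩ := hB
  obtain ⟨p, hp1, hp2, hp3⟩ := poly A B hC
  have hint : IsIntegral ℚ (wC A B) := ⟨p, hp1, hp3⟩
  have hkf : FiniteDimensional ℚ (kk A B) := IntermediateField.adjoin.finiteDimensional hint
  have hk2 : Module.finrank ℚ (kk A B) ≤ 2 := by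
    have h1 : Module.finrank ℚ (kk A B) = (minpoly ℚ (wC A B)).natDegree :=
      IntermediateField.adjoin.finrank hint
    rw [h1]
    exact (Polynomial.natDegree_le_natDegree (minpoly.min ℚ _ hp1 hp3)).trans hp2
  have hB1 : FiniteDimensional ℚ B₁ :=
    Module.finite_of_finrank_pos (by rw [hdeg]; norm_num)
  -- the layer is not contained in `k`
  have hnot : ¬ B₁ ≤ kk A B := by
    intro h
    have h1 : B₁ = kk A B := IntermediateField.eq_of_le_of_finrank_le h (by
      rw [hdeg]; exact hk2)
    have h2 : wC A B ∈ B₁ := by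
      rw [h1]
      exact IntermediateField.mem_adjoin_simple_self ℚ (wC A B)
    have h3 := congrArg Complex.im (hreal _ h2)
    rw [Complex.conj_im] at h3
    have h4 := im_pos A B hC
    linarith
  obtain ⟨x, hx, hxk⟩ := SetLike.not_le_iff_exists.1 hnot
  -- the degree of `x` over `k`
  set X : IntermediateField.extendScalars hk := ⟨x, hle hx⟩ with hX
  have hKf : FiniteDimensional (kk A B) (IntermediateField.extendScalars hk) := by
    have h1 : FiniteDimensional ℚ (IntermediateField.extendScalars hk) := hfd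
    exact FiniteDimensional.right ℚ (kk A B) (IntermediateField.extendScalars hk)
  set P : Polynomial ℚ := minpoly ℚ (⟨x, hx⟩ : B₁) with hP
  have hP1 : P.Monic := minpoly.monic (Algebra.IsIntegral.isIntegral _)
  have hP2 : P.natDegree ≤ 2 := by
    have h1 := minpoly.natDegree_le (A := ℚ) (⟨x, hx⟩ : B₁)
    rw [hdeg] at h1
    exact h1
  have hP3 : Polynomial.aeval x P = 0 := by
    have h1 : Polynomial.aeval (⟨x, hx⟩ : B₁) P = 0 := minpoly.aeval _ _
    have h2 := congrArg (algebraMap B₁ ℂ) h1
    rw [map_zero, ← Polynomial.aeval_algebraMap_apply] at h2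
    exact h2
  set Q : Polynomial (kk A B) := P.map (algebraMap ℚ (kk A B)) with hQ
  have hQ1 : Q.Monic := hP1.map _
  have hQ2 : Q.natDegree ≤ 2 := by
    rw [hQ, hP1.natDegree_map]
    exact hP2
  have hQ3 : Polynomial.aeval X Q = 0 := by
    apply (algebraMap (IntermediateField.extendScalars hk) ℂ).injective
    rw [map_zero, ← Polynomial.aeval_algebraMap_apply, hQ]
    have h1 : algebraMap (IntermediateField.extendScalars hk) ℂ X = x := rfl
    rw [h1, Polynomial.aeval_map_algebraMap]
    exact hP3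
  have hd1 : (minpoly (kk A B) X).natDegree ≤ 2 :=
    (Polynomial.natDegree_le_natDegree (minpoly.min (kk A B) X hQ1 hQ3)).trans hQ2
  have hXi : IsIntegral (kk A B) X := ⟨Q, hQ1, hQ3⟩
  have hd2 : 0 < (minpoly (kk A B) X).natDegree := minpoly.natDegree_pos hXi
  have hd3 : (minpoly (kk A B) X).natDegree ≠ 1 := by
    intro h
    obtain ⟨y, hy⟩ := minpoly.natDegree_eq_one_iff.1 h
    apply hxk
    have h1 := congrArg (algebraMap (IntermediateField.extendScalars hk) ℂ) hy
    have h2 : algebraMap (IntermediateField.extendScalars hk) ℂ X = x := rfl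
    rw [h2] at h1
    rw [← h1]
    exact y.2
  have hd4 : (minpoly (kk A B) X).natDegree = 2 := by omega
  apply hodd
  rw [← hd4]
  exact minpoly.degree_dvd hXi

end

end Pool.Agent.MUXJ
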