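import Pool.Agent.MUX.StJU
import Pool.Agent.MU3.I_ILAY

/-!
# MUX, block J: LDU, the degree of a composite with a layer (helper50)
-/

set_option autoImplicit false

open NumberField IsDedekindDomain
open scoped nonZeroDivisors Pointwise

namespace Pool.Agent.MUXJ

open _root_.MU3 Pool.Agent.MU3 Pool.Agent.MU3A Pool.Agent.MU3B Pool.Agent.RI Pool.Agent.RID
  Pool.Agent.MUX Pool.Agent.MUXK Pool.Agent.MUXE

noncomputable section

/-- the degree of a composite when one factor is Galois -/
theorem ldu_sup {F E : Type*} [Field F] [Field E] [Algebra F E]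
    (K N D : IntermediateField F E) [FiniteDimensional F K] [FiniteDimensional F N]
    [IsGalois F N] (hD : K ⊓ N = D) :
    Module.finrank F ↥(K ⊔ N) * Module.finrank F D
      = Module.finrank F K * Module.finrank F N := by
  have hDK : D ≤ K := hD ▸ inf_le_left
  have hDN : D ≤ N := hD ▸ inf_le_right
  have hDS : D ≤ K ⊔ N := hDK.trans le_sup_left
  have : IsGalois D (IntermediateField.extendScalars hDN) := by
    letI : Algebra D N := (IntermediateField.inclusion hDN).toAlgebra
    haveI : IsScalarTower F D N := IsScalarTower.of_algebraMap_eq (fun x => rfl)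
    have h1 : IsGalois D N := IsGalois.tower_top_of_isGalois F D N
    exact h1
  have hfK : Module.finrank F D * Module.finrank D (IntermediateField.extendScalars hDK)
      = Module.finrank F K :=
    Module.finrank_mul_finrank F D (IntermediateField.extendScalars hDK)
  have hfN : Module.finrank F D * Module.finrank D (IntermediateField.extendScalars hDN)
      = Module.finrank F N :=
    Module.finrank_mul_finrank F D (IntermediateField.extendScalars hDN)
  have hfS : Module.finrank F D * Module.finrank D (IntermediateField.extendScalars hDS)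
      = Module.finrank F ↥(K ⊔ N) :=
    Module.finrank_mul_finrank F D (IntermediateField.extendScalars hDS)
  have hK0 : 0 < Module.finrank F K := Module.finrank_pos
  have hN0 : 0 < Module.finrank F N := Module.finrank_pos
  have hfdK : FiniteDimensional D (IntermediateField.extendScalars hDK) :=
    Module.finite_of_finrank_pos (Nat.pos_of_ne_zero (fun h => by
      rw [h, mul_zero] at hfK; omega))
  have hfdN : FiniteDimensional D (IntermediateField.extendScalars hDN) :=
    Module.finite_of_finrank_pos (Nat.pos_of_ne_zero (fun h => by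
      rw [h, mul_zero] at hfN; omega))
  have hbot : IntermediateField.extendScalars hDN ⊓ IntermediateField.extendScalars hDK = ⊥ := by
    rw [eq_bot_iff]
    intro x hx
    have hx' : x ∈ D := by
      rw [← hD]
      exact ⟨hx.2, hx.1⟩
    exact IntermediateField.mem_bot.2 ⟨⟨x, hx'⟩, rfl⟩
  have hdis : (IntermediateField.extendScalars hDN).LinearDisjoint
      (IntermediateField.extendScalars hDK) := IntermediateField.LinearDisjoint.of_inf_eq_bot hbot
  have hs := hdis.finrank_sup
  have hsup : IntermediateField.extendScalars hDN ⊔ IntermediateField.extendScalars hDK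
      = IntermediateField.extendScalars hDS := by
    rw [IntermediateField.extendScalars_sup hDN hDK]
    congr 1
    exact sup_comm _ _
  rw [hsup] at hs
  rw [← hfS, hs, ← hfK, ← hfN]
  ring

/-- the statement over an arbitrary base field -/
theorem ldu_gen {F E : Type*} [Field F] [Field E] [Algebra F E] (p : ℕ) (hp : p.Prime)
    (K : IntermediateField F E) (B : ℕ → IntermediateField F E) (hK : FiniteDimensional F K)
    (hd : ∀ n, Module.finrank F (B n) = p ^ n) (hG : ∀ n, IsGalois F (B n))
    (hC : ∀ n, IsCyclic ((B n) ≃ₐ[F] (B n))) (hmono : Monotone B) (s : ℕ) (hs : B s ≤ K)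
    (hnot : ¬ B (s + 1) ≤ K) (n : ℕ) (hn : s ≤ n) :
    Module.finrank F ↥(K ⊔ B n) * p ^ s = Module.finrank F K * p ^ n := by
  have := hG n
  have := hC n
  have hdeg := hd n
  have hfin : FiniteDimensional F (B n) :=
    Module.finite_of_finrank_pos (by rw [hdeg]; exact pow_pos hp.pos n)
  have hdvd : Module.finrank F ↥(K ⊓ B n) ∣ p ^ n := by
    rw [← hdeg]
    exact IntermediateField.finrank_dvd_of_le_right inf_le_right
  obtain ⟨i, hi, hie⟩ := (Nat.dvd_prime_pow hp).1 hdvd
  have heq : K ⊓ B n = B i :=
    MU3I.Ilay.uniq (K ⊓ B n) (B i) (B n) inf_le_right (hmono hi) (hie.trans (hd i).symm)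
  have hi1 : i ≤ s := by
    by_contra h0
    apply hnot
    calc B (s + 1) ≤ B i := hmono (by omega)
      _ = K ⊓ B n := heq.symm
      _ ≤ K := inf_le_left
  have hi2 : s ≤ i := by
    have hfi : FiniteDimensional F (B i) :=
      Module.finite_of_finrank_pos (by rw [hd i]; exact pow_pos hp.pos i)
    have hle : B s ≤ B i := by
      rw [← heq]
      exact le_inf hs (hmono hn)
    have h1 : Module.finrank F (B s) ∣ Module.finrank F (B i) :=
      IntermediateField.finrank_dvd_of_le_right hle
    rw [hd, hd] at h1
    exact (Nat.pow_dvd_pow_iff_le_right hp.one_lt).1 h1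
  have his : i = s := le_antisymm hi1 hi2
  rw [his] at heq
  have h := ldu_sup K (B n) (B s) heq
  rw [hd, hd] at h
  exact h

theorem t_LDU : Sj_LDU := by
  intro p hp K B hK hB hmono s hs hnot n hn
  have key : ∀ (D : IntermediateField ℚ ℂ) (a b : Algebra ℚ D), @IsGalois ℚ _ D _ a →
      @IsGalois ℚ _ D _ b := by
    intro D a b h
    rw [Subsingleton.elim b a]
    exact h
  have key2 : ∀ (D : IntermediateField ℚ ℂ) (a b : Algebra ℚ D),
      IsCyclic (@AlgEquiv ℚ D D _ _ _ a a) → IsCyclic (@AlgEquiv ℚ D D _ _ _ b b) := by
    intro D a b h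
    have e : b = a := Subsingleton.elim b a
    subst e
    exact h
  exact ldu_gen (F := ℚ) (E := ℂ) p hp.out K B hK (fun n => (hB n).1)
    (fun n => key _ _ _ (LAY_thm p n (B n) (hB n)).2.1)
    (fun n => key2 _ _ _ (t_LAYC p n (B n) (hB n))) hmono s hs hnot n hn

end

end Pool.Agent.MUXJ
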