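import Pool.Agent.MUX.StXE

/-!
# MUX, block E, module CTX (helper79): from `SetP` to `CtxE`
-/

set_option autoImplicit false

open WeierstrassCurve Polynomial NumberField IsDedekindDomain

namespace Pool.Agent.MUXE

open _root_.MU3 Pool.Agent.MU3A Pool.Agent.MU3B Pool.Agent.MUX Pool.Agent.MUXU Pool.Agent.RI

noncomputable section

namespace CtxX

variable {A B : ℤ}

theorem decomp (x : OO A B) :
    x = ((x.re : ℤ) : OO A B) + ((x.im : ℤ) : OO A B) * (⟨0, 1⟩ : OO A B) := by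
  apply QuadraticAlgebra.ext
  · simp
  · simp

theorem w_sq (A B : ℤ) : (⟨0, 1⟩ : OO A B) * ⟨0, 1⟩ =
    ((A : ℤ) : OO A B) + ((B : ℤ) : OO A B) * (⟨0, 1⟩ : OO A B) := by
  apply QuadraticAlgebra.ext
  · simp
  · simp

/-- an ideal of prime norm (as module DGI of block R, helper96) -/
theorem dgi (Q : Ideal (OO A B)) (q : ℕ) (hq : q.Prime) (hcard : Nat.card (OO A B ⧸ Q) = q) :
    ∃ r : ℤ, (q : ℤ) ∣ r ^ 2 - B * r - A ∧ ∀ x : OO A B, x ∈ Q ↔ (q : ℤ) ∣ x.re + x.im * r := by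
  have hfact : Fact q.Prime := ⟨hq⟩
  have hfin : Finite (OO A B ⧸ Q) := Nat.finite_of_card_ne_zero (by rw [hcard]; exact hq.ne_zero)
  have hft : Fintype (OO A B ⧸ Q) := Fintype.ofFinite _
  have hcard' : Fintype.card (OO A B ⧸ Q) = q := by
    rw [← Nat.card_eq_fintype_card]; exact hcard
  let φ : ZMod q ≃+* (OO A B ⧸ Q) := ZMod.ringEquivOfPrime (OO A B ⧸ Q) hq hcard'
  let f : OO A B →+* ZMod q := φ.symm.toRingHom.comp (Ideal.Quotient.mk Q)
  obtain ⟨r, hr⟩ : ∃ r : ℤ, (r : ZMod q) = f ⟨0, 1⟩ := ZMod.intCast_surjective _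
  have hfx : ∀ x : OO A B, f x = ((x.re + x.im * r : ℤ) : ZMod q) := by
    intro x
    have h1 := congrArg f (decomp x)
    rw [map_add, map_mul, map_intCast, map_intCast, ← hr] at h1
    rw [h1]
    push_cast
    rfl
  refine ⟨r, ?_, ?_⟩
  · have h1 := congrArg f (w_sq A B)
    rw [map_add, map_mul, map_mul, map_intCast, map_intCast, ← hr] at h1
    rw [← ZMod.intCast_zmod_eq_zero_iff_dvd]
    push_cast
    linear_combination h1
  · intro x
    have h1 : x ∈ Q ↔ f x = 0 := by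
      have h2 : f x = φ.symm (Ideal.Quotient.mk Q x) := rfl
      rw [h2, EmbeddingLike.map_eq_zero_iff, Ideal.Quotient.eq_zero_iff_mem]
    rw [h1, hfx, ZMod.intCast_zmod_eq_zero_iff_dvd]

/-- lift of the root modulo `p²` -/
theorem lift {p r : ℤ} (h : p ∣ r ^ 2 - B * r - A) (hd : p ∣ B ^ 2 + 4 * A - 1) :
    ∃ s : ℤ, p ^ 2 ∣ s ^ 2 - B * s - A ∧ p ∣ s - r := by
  obtain ⟨k, hk⟩ := h
  obtain ⟨l, hl⟩ := hd
  -- `(2 r - B)² - p (l + 4 k) = 1`
  have h1 : (2 * r - B) ^ 2 - p * (l + 4 * k) = 1 := by linear_combination 4 * hk + hl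
  refine ⟨r - p * k * (2 * r - B), ⟨-k * (l + 4 * k) + k ^ 2 * (2 * r - B) ^ 2, ?_⟩,
    ⟨-(k * (2 * r - B)), by ring⟩⟩
  linear_combination hk - p * k * h1

/-- `p` is not in `P²` -/
theorem not_sq {p : ℕ} (hp : p.Prime) (hd : (p : ℤ) ∣ B ^ 2 + 4 * A - 1) {P : Ideal (OO A B)}
    (hcard : Nat.card (OO A B ⧸ P) = p) : ((p : ℕ) : OO A B) ∉ P ^ 2 := by
  intro hmem
  rw [pow_two] at hmem
  obtain ⟨r, hr, hP⟩ := dgi P p hp hcard
  obtain ⟨s, hs, hsr⟩ := lift hr hd
  have hP' : ∀ x ∈ P, (p : ℤ) ∣ x.re + x.im * s := by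
    intro x hx
    have h1 := (hP x).1 hx
    have h2 : x.re + x.im * s = (x.re + x.im * r) + x.im * (s - r) := by ring
    rw [h2]
    exact dvd_add h1 (Dvd.dvd.mul_left hsr _)
  have key : ∀ y ∈ P * P, ((p : ℤ)) ^ 2 ∣ y.re + y.im * s := by
    intro y hy
    refine Submodule.mul_induction_on (C := fun y : OO A B => ((p : ℤ)) ^ 2 ∣ y.re + y.im * s)
      hy ?_ ?_
    · intro x hx y hy
      have h1 : (x * y).re + (x * y).im * s = (x.re + x.im * s) * (y.re + y.im * s) -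
          x.im * y.im * (s ^ 2 - B * s - A) := by
        rw [QuadraticAlgebra.re_mul, QuadraticAlgebra.im_mul]
        ring
      show ((p : ℤ)) ^ 2 ∣ (x * y).re + (x * y).im * s
      rw [h1]
      refine dvd_sub ?_ (Dvd.dvd.mul_left hs _)
      rw [pow_two]
      exact mul_dvd_mul (hP' x hx) (hP' y hy)
    · intro x y hx hy
      have h1 : (x + y).re + (x + y).im * s = (x.re + x.im * s) + (y.re + y.im * s) := by
        rw [QuadraticAlgebra.re_add, QuadraticAlgebra.im_add]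
        ring
      show ((p : ℤ)) ^ 2 ∣ (x + y).re + (x + y).im * s
      rw [h1]
      exact dvd_add hx hy
  have h1 := key _ hmem
  have h2 : ((p : ℕ) : OO A B).re = p := by simp
  have h3 : ((p : ℕ) : OO A B).im = 0 := by simp
  rw [h2, h3, zero_mul, add_zero, pow_two] at h1
  have hp0 : (p : ℤ) ≠ 0 := by exact_mod_cast hp.ne_zero
  have h4 : (p : ℤ) ∣ 1 := by
    obtain ⟨c, hc⟩ := h1
    refine ⟨c, ?_⟩
    have h5 : (p : ℤ) * 1 = p * (p * c) := by linear_combination hc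
    exact mul_left_cancel₀ hp0 h5
  have h5 : p ∣ 1 := by exact_mod_cast h4
  exact hp.one_lt.ne' (Nat.dvd_one.1 h5)

end CtxX

open CtxX in
/-- Module MUXE_CTX. -/
theorem te_CTX : Sxe_CTX := by
  intro p A B P V f hS hR hE
  have htwo : p = 2 ∨ p = 3 := by
    rcases hS.case.split with h | h
    · exact Or.inr h.1
    · exact Or.inl h.1
  have hp : p.Prime := by
    rcases htwo with rfl | rfl
    · exact Nat.prime_two
    · exact Nat.prime_three
  have hd : (p : ℤ) ∣ B ^ 2 + 4 * A - 1 := by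
    rcases hS.case.split with ⟨rfl, h⟩ | ⟨rfl, h⟩
    · exact_mod_cast h
    · exact Dvd.dvd.trans ⟨4, by norm_num⟩ h
  have hvP : ∀ x ∈ P, V.valuation (emb x) < 1 := fun x hx =>
    (ValuationSubring.mem_nonunits_iff V).1 ((hS.hV x).2 hx)
  have hemb : emb ((p : ℕ) : OO A B) = (p : ℂ) := by
    unfold emb
    simp
  refine { hE with
    ring := hR
    two := htwo
    prime := hS.hP.prime
    mem := hS.hP.mem
    norm := hS.hP.norm
    split := not_sq hp hd hS.hP.norm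
    vp := ?_
    vP := hvP }
  rw [← hemb]
  exact hvP _ hS.hP.mem

end

end Pool.Agent.MUXE
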