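import Pool.Agent.MUX.StXE
import Pool.Agent.MU3.E_RAM

/-!
# MUX, block E: module RAM (helper72)
-/

set_option autoImplicit false

open WeierstrassCurve Polynomial NumberField IsDedekindDomain

namespace Pool.Agent.MUXE

open _root_.MU3 Pool.Agent.MU3A Pool.Agent.MU3B Pool.Agent.MUX Pool.Agent.MUXU Pool.Agent.RI

noncomputable section

namespace RamE

open Ideal Pool.Agent.MU3E.RAM

variable {V : ValuationSubring ℂ} {k F : Type} [Field k] [NumberField k] [Field F] [NumberField F]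
  [Algebra k F] [IsGalois k F] (io : F →+* ℂ)

/-- the value of an element of a prime which is not in its square -/
theorem intVal_one {R : Type} [CommRing R] [IsDedekindDomain R] (v : HeightOneSpectrum R) {q : R}
    (h1 : q ∈ v.asIdeal) (h2 : q ∉ v.asIdeal ^ 2) :
    v.intValuation q = WithZero.exp (-1 : ℤ) := by
  have hq0 : q ≠ 0 := by
    rintro rfl
    exact h2 (Ideal.zero_mem _)
  have hv0 : v.intValuation q ≠ 0 := by
    intro h
    apply h2
    rw [← v.intValuation_le_pow_iff_mem, h]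
    exact zero_le
  have i1 : v.intValuation q ≤ WithZero.exp (-((1 : ℕ) : ℤ)) := by
    rw [v.intValuation_le_pow_iff_mem, pow_one]
    exact h1
  have i2 : ¬ v.intValuation q ≤ WithZero.exp (-((2 : ℕ) : ℤ)) := by
    rw [v.intValuation_le_pow_iff_mem]
    exact h2
  rw [← WithZero.exp_log hv0] at i1 i2 ⊢
  rw [WithZero.exp_le_exp] at i1 i2
  have i3 : WithZero.log (v.intValuation q) = -1 := by
    push_cast at i1 i2
    omega
  rw [i3]

/-- if the inertia group at `V` is trivial, an element of the prime below which is not in its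
square is a uniformiser. -/
theorem unramP {w : HeightOneSpectrum (𝓞 F)}
    (hw : ∀ x : 𝓞 F, x ∈ w.asIdeal ↔ V.valuation (io x) < 1)
    {q : 𝓞 k} (hq1 : q ∈ w.asIdeal.under (𝓞 k)) (hq2 : q ∉ (w.asIdeal.under (𝓞 k)) ^ 2)
    (htriv : ∀ σ : F ≃ₐ[k] F, (∀ x : F, V.valuation (io x) ≤ 1 →
      V.valuation (io (σ x) - io x) < 1) → σ = 1) :
    w.valuation F (algebraMap k F q) = WithZero.exp (-1 : ℤ) := by
  set p : Ideal (𝓞 k) := w.asIdeal.under (𝓞 k) with hp
  have hlo : w.asIdeal.LiesOver p := ⟨rfl⟩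
  have hwp : w.asIdeal.IsPrime := w.isPrime
  have hpp : p.IsPrime := Ideal.IsPrime.under (𝓞 k) w.asIdeal
  have hp0 : p ≠ ⊥ := (w.under (𝓞 k)).ne_bot
  have hfin : Finite (𝓞 k ⧸ p) := Ideal.finiteQuotientOfFreeOfNeBot p hp0
  have hmax : p.IsMaximal := hpp.isMaximal hp0
  have hfr : Finite p.ResidueField :=
    Finite.of_surjective (algebraMap (𝓞 k ⧸ p) p.ResidueField)
      (Ideal.bijective_algebraMap_quotient_residueField p).2
  have h1 := Ideal.card_inertia_eq_ramificationIdxIn (G := F ≃ₐ[k] F) p w.asIdeal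
  -- the inertia group is trivial
  have hin : w.asIdeal.inertia (F ≃ₐ[k] F) = ⊥ := by
    rw [Subgroup.eq_bot_iff_forall]
    intro σ hσ
    apply htriv
    intro x hx
    obtain ⟨n, d, hnd⟩ := w.exists_primeCompl_mul_eq_of_integer x (le_ord io hw hx)
    have hσ1 : ∀ y : 𝓞 F, σ • y - y ∈ w.asIdeal := hσ
    have hcoe : ∀ y : 𝓞 F, ((σ • y : 𝓞 F) : F) = σ (y : F) := fun y => rfl
    have hd1 : V.valuation (io ((d : 𝓞 F) : F)) = 1 := val_notMem io hw (x := d) d.2
    have hσd : (σ • (d : 𝓞 F) : 𝓞 F) ∉ w.asIdeal := by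
      intro h
      have h2 := w.asIdeal.sub_mem h (hσ1 (d : 𝓞 F))
      rw [sub_sub_cancel] at h2
      exact d.2 h2
    have hd2 : V.valuation (io (σ ((d : 𝓞 F) : F))) = 1 := val_notMem io hw hσd
    have hd0 : ((d : 𝓞 F) : F) ≠ 0 := by
      intro h
      rw [h, map_zero, map_zero] at hd1
      exact zero_ne_one hd1
    have hσd0 : σ ((d : 𝓞 F) : F) ≠ 0 := (map_ne_zero σ).2 hd0
    have hn := (hw _).1 (hσ1 n)
    have hd3 := (hw _).1 (hσ1 (d : 𝓞 F))
    have hnd' : x * ((d : 𝓞 F) : F) = ((n : 𝓞 F) : F) := hnd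
    have hnd2 : σ x * σ ((d : 𝓞 F) : F) = σ ((n : 𝓞 F) : F) := by rw [← map_mul, hnd']
    have e1 : io (σ x) - io x = ((io (σ ((n : 𝓞 F) : F)) - io ((n : 𝓞 F) : F)) * io ((d : 𝓞 F) : F)
        - io ((n : 𝓞 F) : F) * (io (σ ((d : 𝓞 F) : F)) - io ((d : 𝓞 F) : F)))
          / (io ((d : 𝓞 F) : F) * io (σ ((d : 𝓞 F) : F))) := by
      have i1 : io ((d : 𝓞 F) : F) ≠ 0 := (map_ne_zero io).2 hd0
      have i2 : io (σ ((d : 𝓞 F) : F)) ≠ 0 := (map_ne_zero io).2 hσd0
      rw [← hnd2, ← hnd', map_mul, map_mul]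
      field_simp
      ring
    rw [e1, map_div₀, map_mul V.valuation (io ((d : 𝓞 F) : F)), hd1, hd2, one_mul, div_one]
    refine lt_of_le_of_lt (V.valuation.map_sub _ _) (max_lt ?_ ?_)
    · rw [map_mul, hd1, mul_one]
      have : V.valuation (io (((σ • n - n : 𝓞 F)) : F)) < 1 := hn
      rwa [show (((σ • n - n : 𝓞 F)) : F) = σ ((n : 𝓞 F) : F) - ((n : 𝓞 F) : F) from by
        rw [← hcoe]; exact map_sub (algebraMap (𝓞 F) F) _ _, map_sub] at this
    · rw [map_mul]
      have : V.valuation (io (((σ • (d : 𝓞 F) - (d : 𝓞 F) : 𝓞 F)) : F)) < 1 := hd3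
      rw [show (((σ • (d : 𝓞 F) - (d : 𝓞 F) : 𝓞 F)) : F)
          = σ ((d : 𝓞 F) : F) - ((d : 𝓞 F) : F) from by
        rw [← hcoe]; exact map_sub (algebraMap (𝓞 F) F) _ _, map_sub] at this
      exact mul_lt_one_of_nonneg_of_lt_one_right (int_le io n) zero_le this
  rw [hin, Subgroup.card_bot, Ideal.ramificationIdxIn_eq_ramificationIdx p w.asIdeal (F ≃ₐ[k] F)] at h1
  have h2 : p.ramificationIdx' w.asIdeal = 1 := by
    rw [Ideal.ramificationIdx'_eq_ramificationIdx' p w.asIdeal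
      (Ideal.map_ne_bot_of_ne_bot hp0), ← h1]
  set v : HeightOneSpectrum (𝓞 k) := ⟨p, hpp, hp0⟩ with hv
  have hlo' : w.asIdeal.LiesOver v.asIdeal := ⟨rfl⟩
  have h3 := HeightOneSpectrum.valuation_liesOver (K := k) F v w (algebraMap (𝓞 k) k q)
  rw [h2, pow_one, HeightOneSpectrum.valuation_of_algebraMap,
    intVal_one v (q := q) hq1 hq2] at h3
  exact h3.symm

end RamE

open RamE Pool.Agent.MU3E.RAM in
theorem te_RAM (hPA : Sxe_PA) : Sxe_RAM := by
  intro p A B P V hC F _ _ htriv y hy hy0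
  obtain ⟨hle, hone, hp0, -, -, -, -⟩ := hPA p A B P V hC
  obtain ⟨⟨φ, hφ⟩, hinj, hded, hpos, hint⟩ := hC.ring
  have hw0 : IsIntegral ℤ (wC A B) := by
    rw [hint _ (wC_mem A B)]
    exact ⟨⟨0, 1⟩, by simp [emb]⟩
  have hfd : FiniteDimensional ℚ (kk A B) :=
    IntermediateField.adjoin.finiteDimensional hw0.tower_top
  have hk : NumberField (kk A B) := ⟨⟩
  have hFQ : FiniteDimensional ℚ F := FiniteDimensional.trans ℚ (kk A B) F
  have hF : NumberField F := ⟨⟩
  have hIn : ∀ x : OO A B, IsIntegral ℤ (ek x) := by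
    intro x
    have h2 : IsIntegral ℤ (emb x) := (hint (emb x) (emb_mem x)).mpr ⟨x, rfl⟩
    have h3 : algebraMap (kk A B) ℂ (ek x) = emb x := rfl
    rw [← h3] at h2
    exact (isIntegral_algebraMap_iff (FaithfulSMul.algebraMap_injective (kk A B) ℂ)).mp h2
  -- the ring isomorphism
  let e : OO A B →+* 𝓞 (kk A B) :=
    { toFun := fun x => ⟨ek x, hIn x⟩
      map_one' := by
        apply RingOfIntegers.ext
        apply Subtype.ext
        change emb 1 = 1
        rw [← hφ, map_one]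
      map_mul' := by
        intro a b
        apply RingOfIntegers.ext
        apply Subtype.ext
        change emb (a * b) = emb a * emb b
        rw [← hφ, ← hφ, ← hφ, map_mul]
      map_zero' := by
        apply RingOfIntegers.ext
        apply Subtype.ext
        change emb 0 = 0
        rw [← hφ, map_zero]
      map_add' := by
        intro a b
        apply RingOfIntegers.ext
        apply Subtype.ext
        change emb (a + b) = emb a + emb b
        rw [← hφ, ← hφ, ← hφ, map_add] }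
  have he : ∀ x, (((e x : 𝓞 (kk A B)) : kk A B) : ℂ) = emb x := fun x => rfl
  have hesurj : Function.Surjective e := by
    intro x
    have h2 : IsIntegral ℤ ((x : kk A B) : ℂ) :=
      (RingOfIntegers.isIntegral_coe x).map (Algebra.ofId (kk A B) ℂ |>.restrictScalars ℤ)
    obtain ⟨z, hz⟩ := (hint _ (x : kk A B).2).mp h2
    refine ⟨z, ?_⟩
    apply RingOfIntegers.ext
    apply Subtype.ext
    rw [he, hz]
  have heinj : Function.Injective e := by
    rw [injective_iff_map_eq_zero]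
    intro x hx
    apply hinj
    rw [← he, hx]
    rfl
  have hpC : emb ((p : ℕ) : OO A B) = (p : ℂ) := by rw [← hφ, map_natCast]
  have hpne : (p : ℂ) ≠ 0 := by
    intro h
    exact hp0 (by rw [h, map_zero])
  obtain ⟨w, hw⟩ := exists_prime (V := V) (algebraMap F ℂ)
    (z := ((p : ℕ) : 𝓞 F)) (by
      intro h
      have h1 := congrArg (fun t : 𝓞 F => algebraMap F ℂ (t : F)) h
      have h2 : ((p : ℕ) : ℂ) = 0 := by
        simpa using h1
      exact hpne h2) (by
      have h2 : (algebraMap F ℂ) ((((p : ℕ) : 𝓞 F)) : F) = (p : ℂ) := by simp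
      rw [h2]
      exact hC.vp)
  have hcomap : (w.asIdeal.under (𝓞 (kk A B))).comap e = P := by
    ext z
    have hxw : z ∈ (w.asIdeal.under (𝓞 (kk A B))).comap e ↔ V.valuation (emb z) < 1 := by
      exact hw (algebraMap (𝓞 (kk A B)) (𝓞 F) (e z))
    rw [hxw]
    constructor
    · intro h
      by_contra hz
      rw [(hone z hz).1] at h
      exact lt_irrefl _ h
    · intro h
      exact hC.vP z h
  have hmap : P.map e = w.asIdeal.under (𝓞 (kk A B)) := by
    rw [← hcomap]
    exact Ideal.map_comap_of_surjective e hesurj _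
  have hep : e ((p : ℕ) : OO A B) = ((p : ℕ) : 𝓞 (kk A B)) := map_natCast e p
  have hq1 : ((p : ℕ) : 𝓞 (kk A B)) ∈ w.asIdeal.under (𝓞 (kk A B)) := by
    rw [← hmap, ← hep]
    exact Ideal.mem_map_of_mem e hC.mem
  have hq2 : ((p : ℕ) : 𝓞 (kk A B)) ∉ (w.asIdeal.under (𝓞 (kk A B))) ^ 2 := by
    rw [← hmap, ← Ideal.map_pow, ← hep, Ideal.mem_map_iff_of_surjective e hesurj]
    rintro ⟨z, hz, hz2⟩
    rw [heinj hz2] at hz
    exact hC.split hz
  have hord := unramP (algebraMap F ℂ) hw hq1 hq2 (by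
    intro σ hσ
    apply htriv σ
    intro x hx
    exact hσ x hx)
  obtain ⟨n, hn⟩ := pow_unif (algebraMap F ℂ) hw hord (x := (⟨y, hy⟩ : F))
    (fun h => hy0 (congrArg Subtype.val h))
  refine ⟨n, ?_⟩
  have h5 : (algebraMap F ℂ) (algebraMap (kk A B) F (((p : ℕ) : 𝓞 (kk A B)) : kk A B)) = (p : ℂ) := by
    simp
  rw [h5] at hn
  exact hn

end

end Pool.Agent.MUXE
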