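import Pool.Agent.MUX.StXE
import Pool.Agent.MU3.A_INT

/-!
# MUX, block E, RNG: the facts on the ring `O = OO A B` (helper92)
-/

set_option autoImplicit false

open WeierstrassCurve Polynomial NumberField IsDedekindDomain

namespace Pool.Agent.MUXE

open _root_.MU3 Pool.Agent.MU3A Pool.Agent.MU3B Pool.Agent.MUX Pool.Agent.MUXU Pool.Agent.RI

noncomputable section

namespace RNGaux

variable {A B : ℤ}

lemma absD_pos (h : CQ A B) : 0 < absD A B := by
  have := h.neg
  unfold absD
  omega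

lemma wC_sq' (h : CQ A B) : wC A B * wC A B = A + B * wC A B := by
  have h1 : (0 : ℝ) ≤ (absD A B : ℝ) := by exact_mod_cast (absD_pos h).le
  have h2 : ((Real.sqrt (absD A B) : ℝ) : ℂ) ^ 2 = (absD A B : ℂ) := by
    rw [← Complex.ofReal_pow, Real.sq_sqrt h1]
    norm_num
  have h3 : Complex.I ^ 2 = -1 := Complex.I_sq
  have h4 : (absD A B : ℂ) = -((B : ℂ) ^ 2 + 4 * A) := by simp [absD]
  unfold wC
  linear_combination (Complex.I ^ 2 / 4) * h2 + ((absD A B : ℂ) / 4) * h3 - (1 / 4) * h4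

/-- `emb` as a ring homomorphism -/
def eH (h : CQ A B) : OO A B →+* ℂ :=
  (QuadraticAlgebra.lift (R := ℤ) (a := A) (b := B) (A := ℂ)
    ⟨wC A B, by simpa [zsmul_eq_mul] using wC_sq' h⟩).toRingHom

lemma eH_apply (h : CQ A B) (x : OO A B) : eH h x = emb x := by
  simp [eH, emb, QuadraticAlgebra.lift, zsmul_eq_mul]

lemma wC_im_pos (h : CQ A B) : 0 < (wC A B).im := by
  have h1 : (0 : ℝ) < Real.sqrt (absD A B) := Real.sqrt_pos.2 (by exact_mod_cast absD_pos h)
  have h2 : (wC A B).im = Real.sqrt (absD A B) / 2 := by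
    simp [wC, Complex.add_im, Complex.mul_im]
  rw [h2]; positivity

lemma emb_inj (h : CQ A B) {x y : OO A B} (hxy : emb x = emb y) : x = y := by
  have h1 := congrArg Complex.im hxy
  have h2 := congrArg Complex.re hxy
  simp only [emb, Complex.add_im, Complex.mul_im, Complex.intCast_im, Complex.intCast_re,
    zero_mul, add_zero, zero_add, Complex.add_re, Complex.mul_re, sub_zero] at h1 h2
  have h3 : (x.im : ℝ) = y.im := mul_right_cancel₀ (wC_im_pos h).ne' h1
  rw [h3] at h2
  have h4 : (x.re : ℝ) = y.re := add_right_cancel h2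
  exact QuadraticAlgebra.ext (by exact_mod_cast h4) (by exact_mod_cast h3)

lemma mul_star' (x : OO A B) : x * star x = ((nm x : ℤ) : OO A B) := by
  ext
  · simp only [nm, QuadraticAlgebra.re_mul, QuadraticAlgebra.re_star, QuadraticAlgebra.im_star,
      QuadraticAlgebra.re_intCast, Int.cast_id]
    ring
  · simp only [QuadraticAlgebra.im_mul, QuadraticAlgebra.re_star, QuadraticAlgebra.im_star,
      QuadraticAlgebra.im_intCast]
    ring

lemma four_nm (x : OO A B) :
    4 * nm x = (2 * x.re + B * x.im) ^ 2 + absD A B * x.im ^ 2 := by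
  unfold nm absD
  ring

lemma nm_pos (h : CQ A B) {x : OO A B} (hx : x ≠ 0) : 0 < nm x := by
  have h1 := four_nm x
  have h2 := absD_pos h
  have h3 : 0 ≤ absD A B * x.im ^ 2 := mul_nonneg h2.le (sq_nonneg _)
  have h4 := sq_nonneg (2 * x.re + B * x.im)
  by_contra hcon
  apply hx
  have h5 : absD A B * x.im ^ 2 = 0 := by omega
  have h6 : x.im = 0 := by
    rcases mul_eq_zero.1 h5 with h | h
    · omega
    · simpa using h
  have h7 : (2 * x.re + B * x.im) ^ 2 = 0 := by omega
  have h8 : 2 * x.re + B * x.im = 0 := by simpa using h7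
  rw [h6, mul_zero, add_zero] at h8
  have h9 : x.re = 0 := by omega
  exact QuadraticAlgebra.ext h9 h6

lemma w_int (h : CQ A B) : IsIntegral ℤ (wC A B) := by
  refine ⟨X ^ 2 - C B * X - C A, ?_, ?_⟩
  · monicity!
  · have := wC_sq' h
    rw [eval₂_sub, eval₂_sub, eval₂_mul, eval₂_C, eval₂_C, eval₂_X, eval₂_pow, eval₂_X,
      eq_intCast, eq_intCast]
    linear_combination this

lemma w_intQ (h : CQ A B) : IsIntegral ℚ (wC A B) := (w_int h).tower_top

lemma repr (h : CQ A B) {x : ℂ} (hx : x ∈ kk A B) : ∃ s t : ℚ, x = s + t * wC A B := by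
  have h1 : x ∈ (kk A B).toSubalgebra := hx
  rw [IntermediateField.adjoin_simple_toSubalgebra_of_isAlgebraic (w_intQ h).isAlgebraic] at h1
  clear hx
  induction h1 using Algebra.adjoin_induction with
  | mem y hy =>
    rw [Set.mem_singleton_iff] at hy
    exact ⟨0, 1, by rw [hy]; push_cast; ring⟩
  | algebraMap r => exact ⟨r, 0, by simp⟩
  | add y z _ _ hy hz =>
    obtain ⟨s, t, rfl⟩ := hy
    obtain ⟨s', t', rfl⟩ := hz
    exact ⟨s + s', t + t', by push_cast; ring⟩
  | mul y z _ _ hy hz =>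
    obtain ⟨s, t, rfl⟩ := hy
    obtain ⟨s', t', rfl⟩ := hz
    refine ⟨s * s' + t * t' * A, s * t' + t * s' + t * t' * B, ?_⟩
    push_cast
    linear_combination (t : ℂ) * t' * wC_sq' h

lemma emb_int (h : CQ A B) (y : OO A B) : IsIntegral ℤ (emb y) := by
  unfold emb
  exact (isIntegral_algebraMap (R := ℤ) (x := y.re)).add
    ((isIntegral_algebraMap (R := ℤ) (x := y.im)).mul (w_int h))

lemma int_of_sqfree {D m : ℤ} {r : ℚ} (hD : Squarefree D) (h : (D : ℚ) * r ^ 2 = m) :
    ∃ z : ℤ, r = z := by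
  have hD0 : D ≠ 0 := hD.ne_zero
  have h1 : ((D : ℚ) * r) ^ 2 = ((D * m : ℤ) : ℚ) := by
    push_cast
    rw [← h]
    ring
  obtain ⟨u, hu⟩ := INT.int_of_sq h1
  have h2 : u ^ 2 = D * m := by
    rw [hu] at h1
    exact_mod_cast h1
  have h3 : D ∣ u := (hD.dvd_pow_iff_dvd two_ne_zero).1 ⟨m, h2⟩
  obtain ⟨z, rfl⟩ := h3
  refine ⟨z, ?_⟩
  have hDq : (D : ℚ) ≠ 0 := by exact_mod_cast hD0
  have h4 : (D : ℚ) * r = D * z := by
    rw [hu]
    push_cast
    ring
  exact mul_left_cancel₀ hDq h4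

lemma arith (h : CQ A B) {s t : ℚ} {T N : ℤ} (hT : 2 * s + B * t = T)
    (hN : s ^ 2 + B * s * t - A * t ^ 2 = N) : (∃ z : ℤ, s = z) ∧ ∃ z : ℤ, t = z := by
  rcases h.hB with hB | hB
  · obtain ⟨hA, hA4⟩ := h.fund0 hB
    subst hB
    have h1 : 2 * s = T := by rw [← hT]; push_cast; ring
    have h2 : s ^ 2 - A * t ^ 2 = N := by rw [← hN]; push_cast; ring
    have h3 : (A : ℚ) * (2 * t) ^ 2 = ((T ^ 2 - 4 * N : ℤ) : ℚ) := by
      push_cast
      rw [← h1, ← h2]
      ring
    obtain ⟨u, hu⟩ := int_of_sqfree hA h3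
    have h4 : A * u ^ 2 = T ^ 2 - 4 * N := by
      rw [hu] at h3
      exact_mod_cast h3
    have hu2 : Even u := by
      by_contra hodd
      rw [Int.not_even_iff_odd] at hodd
      obtain ⟨k, hk⟩ := hodd
      have h5 : A + 4 * (A * (k ^ 2 + k)) = T ^ 2 - 4 * N := by
        rw [← h4, hk]
        ring
      rcases Int.even_or_odd' T with ⟨j, hj | hj⟩
      · have h6 : A = 4 * (j ^ 2 - N - A * (k ^ 2 + k)) := by
          rw [hj] at h5
          linarith
        have h7 : (2 : ℤ) * 2 ∣ A := ⟨_, h6⟩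
        have h8 := hA 2 h7
        rw [Int.isUnit_iff] at h8
        omega
      · have h6 : A - 1 = 4 * (j ^ 2 + j - N - A * (k ^ 2 + k)) := by
          rw [hj] at h5
          linarith
        exact hA4 ⟨_, h6⟩
    obtain ⟨t', ht'⟩ := hu2
    have hT2 : Even T := by
      have : Even (T ^ 2) := ⟨2 * (A * t' ^ 2) + 2 * N, by
        rw [ht'] at h4
        linarith⟩
      exact (Int.even_pow.1 this).1
    obtain ⟨T', hT'⟩ := hT2
    refine ⟨⟨T', ?_⟩, ⟨t', ?_⟩⟩
    · rw [hT'] at h1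
      push_cast at h1
      linarith
    · rw [ht'] at hu
      push_cast at hu
      linarith
  · have hD := h.fund1 hB
    subst hB
    have h1 : 2 * s + t = T := by rw [← hT]; push_cast; ring
    have h2 : s ^ 2 + s * t - A * t ^ 2 = N := by rw [← hN]; push_cast; ring
    have h3 : ((1 + 4 * A : ℤ) : ℚ) * t ^ 2 = ((T ^ 2 - 4 * N : ℤ) : ℚ) := by
      push_cast
      rw [← h1, ← h2]
      ring
    obtain ⟨t', ht⟩ := int_of_sqfree hD h3
    have h6 : (1 + 4 * A) * t' ^ 2 = T ^ 2 - 4 * N := by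
      rw [ht] at h3
      exact_mod_cast h3
    have h7 : Even (T - t') := by
      by_contra hodd
      rw [Int.not_even_iff_odd] at hodd
      obtain ⟨k, hk⟩ := hodd
      have hT1 : T = t' + 2 * k + 1 := by linarith
      rw [hT1] at h6
      have h8 : (t' + 2 * k + 1) ^ 2 - 4 * N - (1 + 4 * A) * t' ^ 2 =
          2 * (2 * k ^ 2 + 2 * t' * k + t' + 2 * k - 2 * N - 2 * (A * t' ^ 2)) + 1 := by ring
      omega
    obtain ⟨s', hs'⟩ := h7
    refine ⟨⟨s', ?_⟩, ⟨t', ht⟩⟩
    have hT1 : T = t' + s' + s' := by linarith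
    rw [hT1, ht] at h1
    push_cast at h1
    linarith

lemma int_iff (h : CQ A B) {x : ℂ} (hx : x ∈ kk A B) :
    IsIntegral ℤ x ↔ ∃ y : OO A B, x = emb y := by
  refine ⟨fun hint => ?_, ?_⟩
  · obtain ⟨s, t, rfl⟩ := repr h hx
    have hconj : IsIntegral ℤ ((starRingEnd ℂ) ((s : ℂ) + t * wC A B)) := by
      have := hint.map ((starRingEnd ℂ).toIntAlgHom)
      exact this
    have hc : (starRingEnd ℂ) ((s : ℂ) + t * wC A B) = s + t * (B - wC A B) := by
      rw [map_add, map_mul, INT.conj_w]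
      simp
    rw [hc] at hconj
    obtain ⟨T, hT⟩ := INT.int_of_isIntegral (r := 2 * s + B * t) (by
      have := hint.add hconj
      have e : (s : ℂ) + t * wC A B + (s + t * (B - wC A B)) = ((2 * s + B * t : ℚ) : ℂ) := by
        push_cast
        ring
      rwa [e] at this)
    obtain ⟨N, hN⟩ := INT.int_of_isIntegral (r := s ^ 2 + B * s * t - A * t ^ 2) (by
      have := hint.mul hconj
      have e : ((s : ℂ) + t * wC A B) * (s + t * (B - wC A B)) =
          ((s ^ 2 + B * s * t - A * t ^ 2 : ℚ) : ℂ) := by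
        push_cast
        linear_combination (-(t : ℂ) ^ 2) * wC_sq' h
      rwa [e] at this)
    obtain ⟨⟨s', hs'⟩, ⟨t', ht'⟩⟩ := arith h hT hN
    refine ⟨⟨s', t'⟩, ?_⟩
    rw [hs', ht']
    simp [emb]
  · rintro ⟨y, rfl⟩
    exact emb_int h y

lemma ded (h : CQ A B) : IsDedekindDomain (OO A B) := by
  have hinj : Function.Injective (eH h) := fun x y hxy => by
    rw [eH_apply, eH_apply] at hxy
    exact emb_inj h hxy
  have hdom : IsDomain (OO A B) := hinj.isDomain (eH h)
  have hfd : FiniteDimensional ℚ (kk A B) :=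
    IntermediateField.adjoin.finiteDimensional (w_intQ h)
  let φ : OO A B →+* kk A B := (eH h).codRestrict (kk A B) (fun x => by
    rw [eH_apply]
    exact emb_mem x)
  let _ : Algebra (OO A B) (kk A B) := φ.toAlgebra
  have hφ : ∀ x, ((algebraMap (OO A B) (kk A B) x : kk A B) : ℂ) = emb x := fun x =>
    eH_apply h x
  have : IsIntegralClosure (OO A B) ℤ (kk A B) := by
    refine ⟨fun x y hxy => ?_, fun {x} => ?_⟩
    · apply emb_inj h
      rw [← hφ x, ← hφ y, hxy]
    · have h1 : IsIntegral ℤ x ↔ IsIntegral ℤ ((x : kk A B) : ℂ) :=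
        (isIntegral_algebraMap_iff (algebraMap (kk A B) ℂ).injective).symm
      rw [h1, int_iff h x.2]
      constructor
      · rintro ⟨y, hy⟩
        exact ⟨y, Subtype.ext (by rw [hφ, hy])⟩
      · rintro ⟨y, rfl⟩
        exact ⟨y, hφ y⟩
  exact IsIntegralClosure.isDedekindDomain ℤ ℚ (kk A B) (OO A B)

end RNGaux

open RNGaux

theorem te_RNG : Sxe_RNG := by
  intro A B h
  refine ⟨⟨eH h, eH_apply h⟩, ?_, ded h, ?_, ?_⟩
  · intro x hx
    apply emb_inj h
    rw [hx, ← eH_apply h 0, map_zero]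
  · intro m hm
    obtain ⟨x, hxm, hx0⟩ := Submodule.exists_mem_ne_zero_of_ne_bot hm
    refine ⟨(nm x).toNat, ?_, ?_⟩
    · have := nm_pos h hx0
      omega
    · have h1 : (((nm x).toNat : ℕ) : OO A B) = x * star x := by
        rw [mul_star']
        have := nm_pos h hx0
        have h2 : (((nm x).toNat : ℕ) : ℤ) = nm x := Int.toNat_of_nonneg this.le
        have h3 : ((nm x : ℤ) : OO A B) = (((nm x).toNat : ℤ) : OO A B) := by rw [h2]
        rw [h3, Int.cast_natCast]
      rw [h1]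
      exact m.mul_mem_right _ hxm
  · intro y hy
    exact int_iff h hy

end

end Pool.Agent.MUXE
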