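import Pool.Agent.MUX.StJX
import Pool.Agent.MUX.E_RAM
import Pool.Agent.MUX.E_RNG
import Pool.Agent.MUX.E_CTX

/-!
# MUX, block J, module RAM (helper48): the order of the inertia group of a field with many roots of unity
-/

set_option autoImplicit false

open NumberField IsDedekindDomain
open scoped nonZeroDivisors Pointwise

namespace Pool.Agent.MUXJ

open _root_.MU3 Pool.Agent.MU3 Pool.Agent.MU3A Pool.Agent.MU3B Pool.Agent.RI Pool.Agent.RID
  Pool.Agent.MUX Pool.Agent.MUXK Pool.Agent.MUXE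

noncomputable section

namespace JRAM

open Ideal Pool.Agent.MU3E.RAM Pool.Agent.MUXE.RamE

section galois

variable {V : ValuationSubring ℂ} {k F : Type} [Field k] [NumberField k] [Field F] [NumberField F]
  [Algebra k F] [IsGalois k F] (io : F →+* ℂ)

omit [NumberField k] [IsGalois k F] in
/-- the inertia group of the prime below `V` is the inertia group at `V` -/
theorem mem_inertia {w : HeightOneSpectrum (𝓞 F)}
    (hw : ∀ x : 𝓞 F, x ∈ w.asIdeal ↔ V.valuation (io x) < 1) (σ : F ≃ₐ[k] F) :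
    σ ∈ w.asIdeal.inertia (F ≃ₐ[k] F) ↔ ∀ x : F, V.valuation (io x) ≤ 1 →
      V.valuation (io (σ x) - io x) < 1 := by
  have hcoe : ∀ y : 𝓞 F, ((σ • y : 𝓞 F) : F) = σ (y : F) := fun y => rfl
  constructor
  · intro hσ x hx
    obtain ⟨n, d, hnd⟩ := w.exists_primeCompl_mul_eq_of_integer x (le_ord io hw hx)
    have hσ1 : ∀ y : 𝓞 F, σ • y - y ∈ w.asIdeal := hσ
    have hd1 : V.valuation (io ((d : 𝓞 F) : F)) = 1 := val_notMem io hw (x := d) d.2
    have hσd : (σ • (d : 𝓞 F) : 𝓞 F) ∉ w.asIdeal := by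
      intro h
      have h2 := w.asIdeal.sub_mem h (hσ1 (d : 𝓞 F))
      rw [sub_sub_cancel] at h2
      exact d.2 h2
    have hd2 : V.valuation (io (σ ((d : 𝓞 F) : F))) = 1 := val_notMem io hw hσd
    have hd0 : ((d : 𝓞 F) : F) ≠ 0 := by
      intro h
      rw [h, map_zero, map_zero] at hd1
      exact zero_ne_one hd1
    have hσd0 : σ ((d : 𝓞 F) : F) ≠ 0 := (map_ne_zero σ).2 hd0
    have hn := (hw _).1 (hσ1 n)
    have hd3 := (hw _).1 (hσ1 (d : 𝓞 F))
    have hnd' : x * ((d : 𝓞 F) : F) = ((n : 𝓞 F) : F) := hnd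
    have hnd2 : σ x * σ ((d : 𝓞 F) : F) = σ ((n : 𝓞 F) : F) := by rw [← map_mul, hnd']
    have e1 : io (σ x) - io x = ((io (σ ((n : 𝓞 F) : F)) - io ((n : 𝓞 F) : F)) * io ((d : 𝓞 F) : F)
        - io ((n : 𝓞 F) : F) * (io (σ ((d : 𝓞 F) : F)) - io ((d : 𝓞 F) : F)))
          / (io ((d : 𝓞 F) : F) * io (σ ((d : 𝓞 F) : F))) := by
      have i1 : io ((d : 𝓞 F) : F) ≠ 0 := (map_ne_zero io).2 hd0
      have i2 : io (σ ((d : 𝓞 F) : F)) ≠ 0 := (map_ne_zero io).2 hσd0
      rw [← hnd2, ← hnd', map_mul, map_mul]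
      field_simp
      ring
    rw [e1, map_div₀, map_mul V.valuation (io ((d : 𝓞 F) : F)), hd1, hd2, one_mul, div_one]
    refine lt_of_le_of_lt (V.valuation.map_sub _ _) (max_lt ?_ ?_)
    · rw [map_mul, hd1, mul_one]
      have : V.valuation (io (((σ • n - n : 𝓞 F)) : F)) < 1 := hn
      rwa [show (((σ • n - n : 𝓞 F)) : F) = σ ((n : 𝓞 F) : F) - ((n : 𝓞 F) : F) from by
        rw [← hcoe]; exact map_sub (algebraMap (𝓞 F) F) _ _, map_sub] at this
    · rw [map_mul]
      have : V.valuation (io (((σ • (d : 𝓞 F) - (d : 𝓞 F) : 𝓞 F)) : F)) < 1 := hd3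
      rw [show (((σ • (d : 𝓞 F) - (d : 𝓞 F) : 𝓞 F)) : F)
          = σ ((d : 𝓞 F) : F) - ((d : 𝓞 F) : F) from by
        rw [← hcoe]; exact map_sub (algebraMap (𝓞 F) F) _ _, map_sub] at this
      exact mul_lt_one_of_nonneg_of_lt_one_right (int_le io n) zero_le this
  · intro hσ y
    refine (hw _).2 ?_
    have h1 := hσ (y : F) (int_le io y)
    rw [show (((σ • y - y : 𝓞 F)) : F) = σ (y : F) - (y : F) from by
        rw [← hcoe]; exact map_sub (algebraMap (𝓞 F) F) _ _, map_sub]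
    exact h1

/-- the value of an element of the prime below which is not in its square is given by the order of
the inertia group. -/
theorem val_card {w : HeightOneSpectrum (𝓞 F)}
    (hw : ∀ x : 𝓞 F, x ∈ w.asIdeal ↔ V.valuation (io x) < 1)
    {q : 𝓞 k} (hq1 : q ∈ w.asIdeal.under (𝓞 k)) (hq2 : q ∉ (w.asIdeal.under (𝓞 k)) ^ 2) :
    w.valuation F (algebraMap k F q) = WithZero.exp (-1 : ℤ) ^
      Nat.card {σ : F ≃ₐ[k] F // ∀ x : F, V.valuation (io x) ≤ 1 →
        V.valuation (io (σ x) - io x) < 1} := by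
  set p : Ideal (𝓞 k) := w.asIdeal.under (𝓞 k) with hp
  have hlo : w.asIdeal.LiesOver p := ⟨rfl⟩
  have hwp : w.asIdeal.IsPrime := w.isPrime
  have hpp : p.IsPrime := Ideal.IsPrime.under (𝓞 k) w.asIdeal
  have hp0 : p ≠ ⊥ := (w.under (𝓞 k)).ne_bot
  have hfin : Finite (𝓞 k ⧸ p) := Ideal.finiteQuotientOfFreeOfNeBot p hp0
  have hmax : p.IsMaximal := hpp.isMaximal hp0
  have hfr : Finite p.ResidueField :=
    Finite.of_surjective (algebraMap (𝓞 k ⧸ p) p.ResidueField)
      (Ideal.bijective_algebraMap_quotient_residueField p).2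
  have h1 := Ideal.card_inertia_eq_ramificationIdxIn (G := F ≃ₐ[k] F) p w.asIdeal
  have hcard : Nat.card {σ : F ≃ₐ[k] F // ∀ x : F, V.valuation (io x) ≤ 1 →
        V.valuation (io (σ x) - io x) < 1} = Nat.card (w.asIdeal.inertia (F ≃ₐ[k] F)) :=
    Nat.card_congr (Equiv.subtypeEquivRight fun σ => (mem_inertia io hw σ).symm)
  rw [Ideal.ramificationIdxIn_eq_ramificationIdx p w.asIdeal (F ≃ₐ[k] F)] at h1
  have h2 : p.ramificationIdx' w.asIdeal = Nat.card (w.asIdeal.inertia (F ≃ₐ[k] F)) := by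
    rw [Ideal.ramificationIdx'_eq_ramificationIdx' p w.asIdeal
      (Ideal.map_ne_bot_of_ne_bot hp0), ← h1]
  set v : HeightOneSpectrum (𝓞 k) := ⟨p, hpp, hp0⟩ with hv
  have hlo' : w.asIdeal.LiesOver v.asIdeal := ⟨rfl⟩
  have h3 := HeightOneSpectrum.valuation_liesOver (K := k) F v w (algebraMap (𝓞 k) k q)
  rw [h2, HeightOneSpectrum.valuation_of_algebraMap,
    intVal_one v (q := q) hq1 hq2] at h3
  rw [hcard]
  exact h3.symm

end galois

section cyclo

variable {F : Type} [Field F] [NumberField F] (w : HeightOneSpectrum (𝓞 F))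

omit [NumberField F] in
theorem root_int {x : F} {n : ℕ} (hn : 0 < n) (hx : x ^ n = 1) : IsIntegral ℤ x :=
  IsIntegral.of_pow hn (by rw [hx]; exact isIntegral_one)

theorem root_le {x : F} {n : ℕ} (hn : 0 < n) (hx : x ^ n = 1) : w.valuation F x ≤ 1 :=
  w.valuation_le_one (K := F) (⟨x, root_int hn hx⟩ : 𝓞 F)

theorem one_sub_pow_le {x : F} {n : ℕ} (hn : 0 < n) (hx : x ^ n = 1) (i : ℕ) :
    w.valuation F (1 - x ^ i) ≤ w.valuation F (1 - x) := by
  rw [← mul_neg_geom_sum, map_mul]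
  refine mul_le_of_le_one_right' ?_
  refine Valuation.map_sum_le _ fun j _ => ?_
  rw [map_pow]
  exact pow_le_one' (root_le w hn hx) j

theorem prim_eq {x y : F} {n : ℕ} (hn : 0 < n) (hx : IsPrimitiveRoot x n)
    (hy : IsPrimitiveRoot y n) : w.valuation F (1 - x) = w.valuation F (1 - y) := by
  have : NeZero n := ⟨hn.ne'⟩
  apply le_antisymm
  · obtain ⟨i, -, hi⟩ := hy.eq_pow_of_pow_eq_one hx.pow_eq_one
    rw [← hi]
    exact one_sub_pow_le w hn hy.pow_eq_one i
  · obtain ⟨i, -, hi⟩ := hx.eq_pow_of_pow_eq_one hy.pow_eq_one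
    rw [← hi]
    exact one_sub_pow_le w hn hx.pow_eq_one i

/-- the value of `p` in a field with a root of unity of order `p^(k + 1)` -/
theorem val_p {p k : ℕ} (hp : p.Prime) {ζ : F} (hζ : IsPrimitiveRoot ζ (p ^ (k + 1))) :
    w.valuation F (p : F) = w.valuation F (1 - ζ) ^ (p ^ (k + 1)).totient := by
  have hf : Fact p.Prime := ⟨hp⟩
  have h1 := Polynomial.eval_one_cyclotomic_prime_pow (R := F) (p := p) k
  have hn : 0 < p ^ (k + 1) := pow_pos hp.pos _
  rw [Polynomial.cyclotomic_eq_prod_X_sub_primitiveRoots hζ, Polynomial.eval_prod] at h1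
  simp only [Polynomial.eval_sub, Polynomial.eval_X, Polynomial.eval_C] at h1
  rw [← h1, map_prod, ← hζ.card_primitiveRoots]
  refine Finset.prod_eq_pow_card fun μ hμ => ?_
  rw [mem_primitiveRoots hn] at hμ
  exact prim_eq w hn hμ hζ

end cyclo

theorem tot_eq {p : ℕ} (hp : p = 3 ∨ p = 2) :
    ∃ k, q0 p * p = p ^ (k + 1) ∧ (p ^ (k + 1)).totient = q0 p * (p - 1) := by
  rcases hp with rfl | rfl
  · exact ⟨1, by simp [q0], by simp [q0]; decide⟩
  · exact ⟨2, by simp [q0], by simp [q0]; decide⟩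

end JRAM

open JRAM Pool.Agent.MU3E.RAM in
theorem t_RAM : Sj_RAM := by
  intro p A B P V hC hP hV F _ _ ⟨ζ, hζF, hζ⟩
  have hp23 : p = 3 ∨ p = 2 := by
    rcases hC.split with h | h
    · exact Or.inl h.1
    · exact Or.inr h.1
  have hp : p.Prime := by
    rcases hp23 with rfl | rfl
    · exact Nat.prime_three
    · exact Nat.prime_two
  have hd : (p : ℤ) ∣ B ^ 2 + 4 * A - 1 := by
    rcases hC.split with ⟨rfl, h⟩ | ⟨rfl, h⟩
    · exact_mod_cast h
    · exact Dvd.dvd.trans ⟨4, by norm_num⟩ h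
  have hsplit : ((p : ℕ) : OO A B) ∉ P ^ 2 := CtxX.not_sq hp hd hP.norm
  obtain ⟨⟨φ, hφ⟩, hinj, hded, hpos, hint⟩ := te_RNG A B hC.toCQ
  have hw0 : IsIntegral ℤ (wC A B) := by
    rw [hint _ (wC_mem A B)]
    exact ⟨⟨0, 1⟩, by simp [emb]⟩
  have hfd : FiniteDimensional ℚ (kk A B) :=
    IntermediateField.adjoin.finiteDimensional hw0.tower_top
  have hk : NumberField (kk A B) := ⟨⟩
  have hFQ : FiniteDimensional ℚ F := FiniteDimensional.trans ℚ (kk A B) F
  have hF : NumberField F := ⟨⟩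
  have hIn : ∀ x : OO A B, IsIntegral ℤ (ek x) := by
    intro x
    have h2 : IsIntegral ℤ (emb x) := (hint (emb x) (emb_mem x)).mpr ⟨x, rfl⟩
    have h3 : algebraMap (kk A B) ℂ (ek x) = emb x := rfl
    rw [← h3] at h2
    exact (isIntegral_algebraMap_iff (FaithfulSMul.algebraMap_injective (kk A B) ℂ)).mp h2
  -- the ring isomorphism
  let e : OO A B →+* 𝓞 (kk A B) :=
    { toFun := fun x => ⟨ek x, hIn x⟩
      map_one' := by
        apply RingOfIntegers.ext
        apply Subtype.ext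
        change emb 1 = 1
        rw [← hφ, map_one]
      map_mul' := by
        intro a b
        apply RingOfIntegers.ext
        apply Subtype.ext
        change emb (a * b) = emb a * emb b
        rw [← hφ, ← hφ, ← hφ, map_mul]
      map_zero' := by
        apply RingOfIntegers.ext
        apply Subtype.ext
        change emb 0 = 0
        rw [← hφ, map_zero]
      map_add' := by
        intro a b
        apply RingOfIntegers.ext
        apply Subtype.ext
        change emb (a + b) = emb a + emb b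
        rw [← hφ, ← hφ, ← hφ, map_add] }
  have he : ∀ x, (((e x : 𝓞 (kk A B)) : kk A B) : ℂ) = emb x := fun x => rfl
  have hesurj : Function.Surjective e := by
    intro x
    have h2 : IsIntegral ℤ ((x : kk A B) : ℂ) :=
      (RingOfIntegers.isIntegral_coe x).map (Algebra.ofId (kk A B) ℂ |>.restrictScalars ℤ)
    obtain ⟨z, hz⟩ := (hint _ (x : kk A B).2).mp h2
    refine ⟨z, ?_⟩
    apply RingOfIntegers.ext
    apply Subtype.ext
    rw [he, hz]
  have heinj : Function.Injective e := by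
    rw [injective_iff_map_eq_zero]
    intro x hx
    apply hinj
    rw [← he, hx]
    rfl
  have hpC : emb ((p : ℕ) : OO A B) = (p : ℂ) := by rw [← hφ, map_natCast]
  have hpne : (p : ℂ) ≠ 0 := by exact_mod_cast hp.ne_zero
  have hvP : ∀ x : OO A B, V.valuation (emb x) < 1 ↔ x ∈ P := fun x => by
    rw [← hV x, ValuationSubring.mem_nonunits_iff]
  obtain ⟨w, hw⟩ := exists_prime (V := V) (algebraMap F ℂ)
    (z := ((p : ℕ) : 𝓞 F)) (by
      intro h
      have h1 := congrArg (fun t : 𝓞 F => algebraMap F ℂ (t : F)) h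
      have h2 : ((p : ℕ) : ℂ) = 0 := by
        simpa using h1
      exact hpne h2) (by
      have h2 : (algebraMap F ℂ) ((((p : ℕ) : 𝓞 F)) : F) = (p : ℂ) := by simp
      rw [h2, ← hpC, hvP]
      exact hP.mem)
  have hcomap : (w.asIdeal.under (𝓞 (kk A B))).comap e = P := by
    ext z
    have hxw : z ∈ (w.asIdeal.under (𝓞 (kk A B))).comap e ↔ V.valuation (emb z) < 1 := by
      exact hw (algebraMap (𝓞 (kk A B)) (𝓞 F) (e z))
    rw [hxw, hvP]
  have hmap : P.map e = w.asIdeal.under (𝓞 (kk A B)) := by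
    rw [← hcomap]
    exact Ideal.map_comap_of_surjective e hesurj _
  have hep : e ((p : ℕ) : OO A B) = ((p : ℕ) : 𝓞 (kk A B)) := map_natCast e p
  have hq1 : ((p : ℕ) : 𝓞 (kk A B)) ∈ w.asIdeal.under (𝓞 (kk A B)) := by
    rw [← hmap, ← hep]
    exact Ideal.mem_map_of_mem e hP.mem
  have hq2 : ((p : ℕ) : 𝓞 (kk A B)) ∉ (w.asIdeal.under (𝓞 (kk A B))) ^ 2 := by
    rw [← hmap, ← Ideal.map_pow, ← hep, Ideal.mem_map_iff_of_surjective e hesurj]
    rintro ⟨z, hz, hz2⟩
    rw [heinj hz2] at hz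
    exact hsplit hz
  have hord := val_card (k := kk A B) (algebraMap F ℂ) hw hq1 hq2
  obtain ⟨m, hm1, hm2⟩ := tot_eq hp23
  have hζ' : IsPrimitiveRoot (⟨ζ, hζF⟩ : F) (p ^ (m + 1)) := by
    rw [hm1] at hζ
    exact IsPrimitiveRoot.of_map_of_injective (f := algebraMap F ℂ) hζ
      (FaithfulSMul.algebraMap_injective F ℂ)
  have hcy := val_p w hp hζ'
  have hpF : (algebraMap (kk A B) F (((p : ℕ) : 𝓞 (kk A B)) : kk A B)) = (p : F) := by
    simp
  rw [hpF, hcy, hm2] at hord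
  change q0 p * (p - 1) ∣ Nat.card {σ : F ≃ₐ[kk A B] F // ∀ x : F,
    V.valuation ((algebraMap F ℂ) x) ≤ 1 →
      V.valuation ((algebraMap F ℂ) (σ x) - (algebraMap F ℂ) x) < 1}
  set N := Nat.card {σ : F ≃ₐ[kk A B] F // ∀ x : F,
    V.valuation ((algebraMap F ℂ) x) ≤ 1 →
      V.valuation ((algebraMap F ℂ) (σ x) - (algebraMap F ℂ) x) < 1} with hN
  have h0 : w.valuation F (1 - (⟨ζ, hζF⟩ : F)) ≠ 0 := by
    intro h0
    rw [h0] at hord
    have h5 : (WithZero.exp (-1 : ℤ)) ^ N ≠ (0 : WithZero (Multiplicative ℤ)) :=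
      pow_ne_zero _ WithZero.exp_ne_zero
    apply h5
    rw [← hord]
    apply zero_pow
    rw [← hm2]
    exact (Nat.totient_pos.2 (pow_pos hp.pos _)).ne'
  rw [← WithZero.exp_log h0, ← WithZero.exp_nsmul, ← WithZero.exp_nsmul, WithZero.exp_inj,
    nsmul_eq_mul, nsmul_eq_mul] at hord
  have h6 : ((q0 p * (p - 1) : ℕ) : ℤ) ∣ (N : ℤ) :=
    ⟨-WithZero.log (w.valuation F (1 - (⟨ζ, hζF⟩ : F))), by linear_combination hord⟩
  exact_mod_cast h6

end

end Pool.Agent.MUXJ
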