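import Pool.Agent.MUX.StXF

/-!
# MUX, block XF, module ALG: algebra of `O`
-/

set_option autoImplicit false

namespace Pool.Agent.MUXF

open _root_.MU3 Pool.Agent.MU3A Pool.Agent.MU3B Pool.Agent.MU3F
open scoped ComplexConjugate

namespace AlgX

variable {A B : ℤ}

theorem absD_pos (h : CQ A B) : 0 < absD A B := by
  have := h.neg
  unfold absD
  omega

theorem wC_sq (h : CQ A B) : wC A B * wC A B = A + B * wC A B := by
  have h1 : (0 : ℝ) ≤ (absD A B : ℝ) := by exact_mod_cast (absD_pos h).le
  have h2 : ((Real.sqrt (absD A B) : ℝ) : ℂ) ^ 2 = (absD A B : ℂ) := by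
    rw [← Complex.ofReal_pow, Real.sq_sqrt h1]
    norm_num
  have h3 : Complex.I ^ 2 = -1 := Complex.I_sq
  have h4 : (absD A B : ℂ) = -((B : ℂ) ^ 2 + 4 * A) := by simp [absD]
  unfold wC
  linear_combination (Complex.I ^ 2 / 4) * h2 + ((absD A B : ℂ) / 4) * h3 - (1 / 4) * h4

/-- the embedding as a ring homomorphism -/
noncomputable def eHom (h : CQ A B) : OO A B →+* ℂ :=
  (QuadraticAlgebra.lift (R := ℤ) (a := A) (b := B) (A := ℂ)
    ⟨wC A B, by simpa [zsmul_eq_mul] using wC_sq h⟩).toRingHom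

theorem eHom_apply (h : CQ A B) (x : OO A B) : eHom h x = emb x := by
  simp [eHom, emb, QuadraticAlgebra.lift, zsmul_eq_mul]

theorem emb_mul (h : CQ A B) (x y : OO A B) : emb (x * y) = emb x * emb y := by
  simpa only [eHom_apply] using map_mul (eHom h) x y

theorem emb_add (h : CQ A B) (x y : OO A B) : emb (x + y) = emb x + emb y := by
  simpa only [eHom_apply] using map_add (eHom h) x y

theorem emb_zero (h : CQ A B) : emb (0 : OO A B) = 0 := by
  simpa only [eHom_apply] using map_zero (eHom h)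

theorem emb_intCast (h : CQ A B) (n : ℤ) : emb (n : OO A B) = n := by
  simpa only [eHom_apply] using map_intCast (eHom h) n

theorem wC_im (A B : ℤ) : (wC A B).im = Real.sqrt (absD A B) / 2 := by
  simp [wC, Complex.add_im, Complex.mul_im]

theorem wC_im_pos (h : CQ A B) : 0 < (wC A B).im := by
  have h1 : (0 : ℝ) < Real.sqrt (absD A B) := Real.sqrt_pos.2 (by exact_mod_cast absD_pos h)
  rw [wC_im]; positivity

theorem emb_inj (h : CQ A B) {x y : OO A B} (hxy : emb x = emb y) : x = y := by
  have h1 := congrArg Complex.im hxy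
  have h2 := congrArg Complex.re hxy
  simp only [emb, Complex.add_im, Complex.mul_im, Complex.intCast_im, Complex.intCast_re,
    zero_mul, add_zero, zero_add, Complex.add_re, Complex.mul_re, sub_zero] at h1 h2
  have h3 : (x.im : ℝ) = y.im := mul_right_cancel₀ (wC_im_pos h).ne' h1
  rw [h3] at h2
  have h4 : (x.re : ℝ) = y.re := add_right_cancel h2
  exact QuadraticAlgebra.ext (by exact_mod_cast h4) (by exact_mod_cast h3)

theorem eHom_injective (h : CQ A B) : Function.Injective (eHom h) := fun x y hxy =>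
  emb_inj h (by simpa only [eHom_apply] using hxy)

theorem emb_eq_zero (h : CQ A B) (x : OO A B) : emb x = 0 ↔ x = 0 :=
  ⟨fun h0 => emb_inj h (h0.trans (emb_zero h).symm), fun h0 => by rw [h0, emb_zero h]⟩

theorem isDomain (h : CQ A B) : IsDomain (OO A B) := (eHom_injective h).isDomain (eHom h)

theorem nm_eq (x : OO A B) : nm x = QuadraticAlgebra.norm x := by
  rw [QuadraticAlgebra.norm_def]
  unfold nm
  ring

theorem nm_mul (x y : OO A B) : nm (x * y) = nm x * nm y := by
  rw [nm_eq, nm_eq, nm_eq, map_mul]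

theorem nm_star (x : OO A B) : nm (star x) = nm x := by
  rw [nm_eq, nm_eq, QuadraticAlgebra.norm_star]

theorem nm_intCast (n : ℤ) : nm (n : OO A B) = n ^ 2 := by
  unfold nm
  simp

theorem mul_star' (x : OO A B) : x * star x = ((nm x : ℤ) : OO A B) := by
  ext
  · simp only [nm, QuadraticAlgebra.re_mul, QuadraticAlgebra.re_star, QuadraticAlgebra.im_star,
      QuadraticAlgebra.re_intCast, Int.cast_id]
    ring
  · simp only [QuadraticAlgebra.im_mul, QuadraticAlgebra.re_star, QuadraticAlgebra.im_star,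
      QuadraticAlgebra.im_intCast]
    ring

theorem conj_w (A B : ℤ) : conj (wC A B) = B - wC A B := by
  unfold wC
  simp only [map_div₀, map_add, map_mul, Complex.conj_I, Complex.conj_ofReal, map_intCast,
    map_ofNat]
  ring

theorem emb_star (x : OO A B) : emb (star x) = conj (emb x) := by
  unfold emb
  simp only [map_add, map_mul, conj_w, map_intCast, QuadraticAlgebra.re_star,
    QuadraticAlgebra.im_star]
  push_cast
  ring

theorem norm_sq (h : CQ A B) (x : OO A B) : ((nm x : ℤ) : ℝ) = ‖emb x‖ ^ 2 := by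
  have h1 : emb x * conj (emb x) = ((nm x : ℤ) : ℂ) := by
    rw [← emb_star, ← emb_mul h, mul_star', emb_intCast h]
  rw [Complex.mul_conj, Complex.normSq_eq_norm_sq] at h1
  exact_mod_cast h1.symm

theorem nm_nonneg (h : CQ A B) (x : OO A B) : 0 ≤ nm x := by
  have h1 := norm_sq h x
  have h2 : (0 : ℝ) ≤ ((nm x : ℤ) : ℝ) := by rw [h1]; positivity
  exact_mod_cast h2

theorem nm_eq_zero (h : CQ A B) (x : OO A B) : nm x = 0 ↔ x = 0 := by
  have h1 := norm_sq h x
  constructor
  · intro h0
    rw [h0] at h1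
    have h2 : ‖emb x‖ = 0 := by
      have h3 : ‖emb x‖ ^ 2 = 0 := by rw [← h1]; norm_num
      exact pow_eq_zero_iff (two_ne_zero) |>.1 h3
    exact (emb_eq_zero h x).1 (norm_eq_zero.1 h2)
  · intro h0
    rw [h0]
    simp [nm]

theorem fin_quot (h : CQ A B) (b : Ideal (OO A B)) (hb : b ≠ ⊥) : Finite (OO A B ⧸ b) := by
  have := isDomain h
  exact Ideal.finiteQuotientOfFreeOfNeBot _ hb

end AlgX

open AlgX in
/-- algebra of `O` -/
theorem tx_ALG : Sx_ALG := by
  intro A B h
  exact ⟨fun x y => ⟨emb_mul h x y, emb_add h x y, nm_mul x y⟩,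
    fun x => ⟨emb_eq_zero h x, nm_eq_zero h x, nm_nonneg h x, norm_sq h x, mul_star' x, emb_star x,
      nm_star x⟩,
    fun n => ⟨emb_intCast h n, nm_intCast n⟩, fun b hb => fin_quot h b hb, isDomain h⟩

end Pool.Agent.MUXF
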