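import Pool.Agent.MUX.StXF

/-!
# MUX, block XF: `b * conj b = (N b)` (IDL)
-/

set_option autoImplicit false

namespace Pool.Agent.MUXF

open _root_.MU3 Pool.Agent.MU3A Pool.Agent.MU3B Pool.Agent.MU3F Pool.Agent.MuSym OnePoint

noncomputable section

namespace IDL

variable {A B : ℤ}

theorem gen (I : Ideal ℤ) (n : ℤ) (hn : n ≠ 0) (h : n ∈ I) :
    ∃ d : ℤ, 0 < d ∧ ∀ s, s ∈ I ↔ d ∣ s := by
  obtain ⟨d0, hd0⟩ := (IsPrincipalIdealRing.principal I).principal
  have h1 : ∀ s, s ∈ I ↔ d0 ∣ s := fun s => by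
    rw [hd0]
    exact Ideal.mem_span_singleton
  have h2 : d0 ≠ 0 := by
    rintro rfl
    exact hn (zero_dvd_iff.1 ((h1 n).1 h))
  exact ⟨|d0|, abs_pos.2 h2, fun s => by rw [h1, abs_dvd]⟩

theorem smul_mem (b : Ideal (OO A B)) (n r s : ℤ) (h : (⟨r, s⟩ : OO A B) ∈ b) :
    (⟨n * r, n * s⟩ : OO A B) ∈ b := by
  have h1 := b.mul_mem_left (n : OO A B) h
  have h2 : (n : OO A B) * ⟨r, s⟩ = ⟨n * r, n * s⟩ := by
    ext
    · simp
    · simp
  rwa [h2] at h1

theorem add_mem' (b : Ideal (OO A B)) (r s r' s' : ℤ) (h : (⟨r, s⟩ : OO A B) ∈ b)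
    (h' : (⟨r', s'⟩ : OO A B) ∈ b) : (⟨r + r', s + s'⟩ : OO A B) ∈ b := by
  have h1 := b.add_mem h h'
  have h2 : (⟨r, s⟩ : OO A B) + ⟨r', s'⟩ = ⟨r + r', s + s'⟩ := by
    ext <;> simp
  rwa [h2] at h1

theorem w_mem (b : Ideal (OO A B)) (r s : ℤ) (h : (⟨r, s⟩ : OO A B) ∈ b) :
    (⟨A * s, r + B * s⟩ : OO A B) ∈ b := by
  have h1 := b.mul_mem_left (⟨0, 1⟩ : OO A B) h
  have h2 : (⟨0, 1⟩ : OO A B) * ⟨r, s⟩ = ⟨A * s, r + B * s⟩ := by
    ext <;> simp
  rwa [h2] at h1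

/-- second coordinates -/
def I1 (b : Ideal (OO A B)) : Ideal ℤ where
  carrier := {s | ∃ r, (⟨r, s⟩ : OO A B) ∈ b}
  add_mem' := by
    rintro s s' ⟨r, h⟩ ⟨r', h'⟩
    exact ⟨r + r', add_mem' b _ _ _ _ h h'⟩
  zero_mem' := ⟨0, b.zero_mem⟩
  smul_mem' := by
    rintro n s ⟨r, h⟩
    exact ⟨n * r, smul_mem b n r s h⟩

/-- integers -/
def I0 (b : Ideal (OO A B)) : Ideal ℤ where
  carrier := {r | (⟨r, 0⟩ : OO A B) ∈ b}
  add_mem' := by
    intro r r' h h'
    have := add_mem' b _ _ _ _ h h'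
    simpa using this
  zero_mem' := b.zero_mem
  smul_mem' := by
    intro n r h
    have := smul_mem b n r 0 h
    simpa using this

/-- Hermite form -/
theorem hermite (b : Ideal (OO A B)) (n : ℤ) (hn : n ≠ 0) (hnb : (⟨n, 0⟩ : OO A B) ∈ b) :
    ∃ d a' c' k : ℤ, 0 < d ∧ 0 < a' ∧
      (∀ r s : ℤ, (⟨r, s⟩ : OO A B) ∈ b ↔ ∃ i j : ℤ, r = d * (a' * i + c' * j) ∧ s = d * j) ∧
      (nI b : ℤ) = d * d * a' ∧ c' ^ 2 + B * c' - A = a' * k := by
  have hn1 : n ∈ I1 b := by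
    refine ⟨0, ?_⟩
    have := w_mem b n 0 hnb
    simpa using this
  obtain ⟨d, hd, hd1⟩ := gen (I1 b) n hn hn1
  obtain ⟨a, ha, ha1⟩ := gen (I0 b) n hn hnb
  obtain ⟨c, hc⟩ := (hd1 d).2 dvd_rfl
  have haa : (⟨a, 0⟩ : OO A B) ∈ b := (ha1 a).2 dvd_rfl
  obtain ⟨a', ha'⟩ : d ∣ a := by
    refine (hd1 a).1 ⟨0, ?_⟩
    have := w_mem b a 0 haa
    simpa using this
  obtain ⟨c', hc'⟩ : d ∣ c := by
    have h1 : d ∣ c + B * d := (hd1 _).1 ⟨A * d, w_mem b c d hc⟩
    exact (dvd_add_left (Dvd.intro_left B rfl)).1 h1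
  have ha'0 : 0 < a' := by
    rw [ha'] at ha
    exact (mul_pos_iff_of_pos_left hd).1 ha
  have hmem : ∀ r s : ℤ, (⟨r, s⟩ : OO A B) ∈ b ↔
      ∃ i j : ℤ, r = d * (a' * i + c' * j) ∧ s = d * j := by
    intro r s
    constructor
    · intro h
      obtain ⟨j, hj⟩ := (hd1 s).1 ⟨r, h⟩
      have h1 := add_mem' b _ _ _ _ h (smul_mem b (-j) c d hc)
      have h2 : s + -j * d = 0 := by rw [hj]; ring
      rw [h2] at h1
      obtain ⟨i, hi⟩ := (ha1 _).1 h1
      refine ⟨i, j, ?_, hj⟩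
      rw [ha', hc'] at hi
      linear_combination hi
    · rintro ⟨i, j, hr, hs⟩
      have h1 := add_mem' b _ _ _ _ (smul_mem b i a 0 haa) (smul_mem b j c d hc)
      have h2 : i * a + j * c = r := by rw [hr, ha', hc']; ring
      have h3 : i * 0 + j * d = s := by rw [hs]; ring
      rwa [h2, h3] at h1
  have hcard : (nI b : ℤ) = d * d * a' := by
    have hbij : Function.Bijective (fun p : Fin a.toNat × Fin d.toNat =>
        (Ideal.Quotient.mk b (⟨(p.1 : ℕ), (p.2 : ℕ)⟩ : OO A B))) := by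
      constructor
      · rintro ⟨i, j⟩ ⟨i', j'⟩ h
        have h1 : (⟨((i : ℕ) : ℤ) - (i' : ℕ), ((j : ℕ) : ℤ) - (j' : ℕ)⟩ : OO A B) ∈ b := by
          have h2 := Ideal.Quotient.eq.1 h
          have h3 : (⟨((i : ℕ) : ℤ), ((j : ℕ) : ℤ)⟩ : OO A B) - ⟨((i' : ℕ) : ℤ), ((j' : ℕ) : ℤ)⟩ =
              ⟨((i : ℕ) : ℤ) - (i' : ℕ), ((j : ℕ) : ℤ) - (j' : ℕ)⟩ := by
            ext <;> simp
          rwa [h3] at h2
        have hj : (j : ℕ) = (j' : ℕ) := by
          have h2 : d ∣ ((j : ℕ) : ℤ) - (j' : ℕ) := (hd1 _).1 ⟨_, h1⟩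
          have h3 : ((j : ℕ) : ℤ) < d := by have := j.2; omega
          have h4 : ((j' : ℕ) : ℤ) < d := by have := j'.2; omega
          have h5 := Int.eq_zero_of_abs_lt_dvd h2 (by rw [abs_lt]; constructor <;> omega)
          omega
        have hi : (i : ℕ) = (i' : ℕ) := by
          rw [hj, sub_self] at h1
          have h2 : a ∣ ((i : ℕ) : ℤ) - (i' : ℕ) := (ha1 _).1 h1
          have h3 : ((i : ℕ) : ℤ) < a := by have := i.2; omega
          have h4 : ((i' : ℕ) : ℤ) < a := by have := i'.2; omega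
          have h5 := Int.eq_zero_of_abs_lt_dvd h2 (by rw [abs_lt]; constructor <;> omega)
          omega
        exact Prod.ext (Fin.ext hi) (Fin.ext hj)
      · intro q
        obtain ⟨⟨r, s⟩, rfl⟩ := Ideal.Quotient.mk_surjective q
        set j := s / d with hj
        set r' := r - j * c with hr'
        have e1 := Int.emod_add_mul_ediv s d
        have e2 := Int.emod_nonneg s hd.ne'
        have e3 := Int.emod_lt_of_pos s hd
        have f1 := Int.emod_add_mul_ediv r' a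
        have f2 := Int.emod_nonneg r' ha.ne'
        have f3 := Int.emod_lt_of_pos r' ha
        refine ⟨(⟨(r' % a).toNat, by omega⟩, ⟨(s % d).toNat, by omega⟩), ?_⟩
        apply Ideal.Quotient.eq.2
        have h1 := add_mem' b _ _ _ _ (smul_mem b (-(r' / a)) a 0 haa) (smul_mem b (-j) c d hc)
        have h3 : (⟨(((r' % a).toNat : ℕ) : ℤ), (((s % d).toNat : ℕ) : ℤ)⟩ : OO A B) - ⟨r, s⟩ =
            ⟨-(r' / a) * a + -j * c, -(r' / a) * 0 + -j * d⟩ := by
          ext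
          · simp only [QuadraticAlgebra.re_sub]
            rw [Int.toNat_of_nonneg f2]
            linear_combination f1 - hr'
          · simp only [QuadraticAlgebra.im_sub]
            rw [Int.toNat_of_nonneg e2]
            linear_combination e1
        dsimp only
        rw [h3]
        exact h1
    have h1 := Nat.card_congr (Equiv.ofBijective _ hbij)
    rw [Nat.card_prod, Nat.card_fin, Nat.card_fin] at h1
    unfold nI
    rw [← h1]
    push_cast
    rw [Int.toNat_of_nonneg ha.le, Int.toNat_of_nonneg hd.le, ha']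
    ring
  -- the norm of `c' + w`
  obtain ⟨k, hk⟩ : a' ∣ c' ^ 2 + B * c' - A := by
    have h1 := b.mul_mem_left (⟨c' + B, -1⟩ : OO A B) hc
    have h2 : (⟨c' + B, -1⟩ : OO A B) * ⟨c, d⟩ = ⟨d * (c' ^ 2 + B * c' - A), 0⟩ := by
      ext
      · simp only [QuadraticAlgebra.re_mul]
        rw [hc']
        ring
      · simp only [QuadraticAlgebra.im_mul]
        rw [hc']
        ring
    rw [h2] at h1
    have h3 : a ∣ d * (c' ^ 2 + B * c' - A) := (ha1 _).1 h1
    rw [ha'] at h3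
    exact (mul_dvd_mul_iff_left hd.ne').1 h3
  exact ⟨d, a', c', k, hd, ha'0, hmem, hcard, hk⟩

theorem prim (h : CQ A B) (a' c' k : ℤ) (hk : c' ^ 2 + B * c' - A = a' * k) :
    ∃ u v t : ℤ, u * a' + v * (2 * c' + B) + t * k = 1 := by
  have hD : (2 * c' + B) ^ 2 - 4 * a' * k = B ^ 2 + 4 * A := by linear_combination 4 * hk
  have hg : Int.gcd (Int.gcd a' (2 * c' + B)) k = 1 := by
    by_contra hne
    obtain ⟨l, hl, hlg⟩ := Nat.exists_prime_and_dvd hne
    have hlg' : (l : ℤ) ∣ (Int.gcd (Int.gcd a' (2 * c' + B)) k : ℤ) := by exact_mod_cast hlg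
    have h3 : (l : ℤ) ∣ k := hlg'.trans (Int.gcd_dvd_right ..)
    have h4 : (l : ℤ) ∣ (Int.gcd a' (2 * c' + B) : ℤ) := hlg'.trans (Int.gcd_dvd_left ..)
    have h1 : (l : ℤ) ∣ a' := h4.trans (Int.gcd_dvd_left ..)
    have h2 : (l : ℤ) ∣ 2 * c' + B := h4.trans (Int.gcd_dvd_right ..)
    have hlp : Prime (l : ℤ) := Nat.prime_iff_prime_int.1 hl
    have h5 : (l : ℤ) * l ∣ B ^ 2 + 4 * A := by
      rw [← hD]
      refine dvd_sub ?_ ?_
      · rw [sq]
        exact mul_dvd_mul h2 h2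
      · rw [mul_assoc]
        exact Dvd.dvd.mul_left (mul_dvd_mul h1 h3) 4
    rcases h.hB with hB | hB
    · obtain ⟨hsq, h4A⟩ := h.fund0 hB
      rw [hB] at h5 h2 hk
      by_cases hl2 : l = 2
      · subst hl2
        obtain ⟨x, hx⟩ := h1
        obtain ⟨y, hy⟩ := h3
        rw [hx, hy] at hk
        have h6 : A = c' ^ 2 - 4 * (x * y) := by push_cast at hk; linear_combination -hk
        rcases Int.even_or_odd' c' with ⟨m, hm | hm⟩
        · have h7 : (2 : ℤ) * 2 ∣ A := ⟨m ^ 2 - x * y, by rw [h6, hm]; ring⟩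
          exact Int.prime_two.not_isUnit (hsq 2 h7)
        · exact h4A ⟨m ^ 2 + m - x * y, by rw [h6, hm]; ring⟩
      · have h6 : IsCoprime ((l : ℤ) * l) 4 := by
          have h7 : IsCoprime (l : ℤ) 2 := by
            have h10 := Nat.isCoprime_iff_coprime.2 ((Nat.coprime_primes hl Nat.prime_two).2 hl2)
            exact_mod_cast h10
          have h8 : IsCoprime (l : ℤ) 4 := by
            have := h7.mul_right h7
            norm_num at this
            exact this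
          exact h8.mul_left h8
        have h9 : (l : ℤ) * l ∣ 4 * A := by simpa using h5
        exact hlp.not_isUnit (hsq _ (h6.dvd_of_dvd_mul_left h9))
    · have hsq := h.fund1 hB
      rw [hB] at h5
      exact hlp.not_isUnit (hsq _ (by simpa using h5))
  have e1 := Int.gcd_eq_gcd_ab (Int.gcd a' (2 * c' + B)) k
  have e2 := Int.gcd_eq_gcd_ab a' (2 * c' + B)
  rw [hg] at e1
  set P := Int.gcdA (Int.gcd a' (2 * c' + B)) k
  set Q := Int.gcdB (Int.gcd a' (2 * c' + B)) k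
  refine ⟨Int.gcdA a' (2 * c' + B) * P, Int.gcdB a' (2 * c' + B) * P, Q, ?_⟩
  push_cast at e1
  linear_combination (-1 : ℤ) * e1 - P * e2

end IDL

open IDL in
theorem tx_IDL (h1 : Sx_ALG) : Sx_IDL := by
  intro A B h b hb
  obtain ⟨-, hx, hz, hfin, hdom⟩ := h1 A B h
  have hf := hfin b hb
  refine ⟨Nat.card_pos.ne', ?_⟩
  obtain ⟨x0, hx0, hx00⟩ := Submodule.exists_mem_ne_zero_of_ne_bot hb
  have hn : nm x0 ≠ 0 := fun h0 => hx00 ((hx x0).2.1.1 h0)
  have hnb : (⟨nm x0, 0⟩ : OO A B) ∈ b := by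
    have h2 : (⟨nm x0, 0⟩ : OO A B) = ((nm x0 : ℤ) : OO A B) := by
      ext <;> simp
    rw [h2, ← (hx x0).2.2.2.2.1]
    exact b.mul_mem_right _ hx0
  obtain ⟨d, a', c', k, hd, ha', hmem, hcard, hk⟩ := hermite b (nm x0) hn hnb
  have hN : ((nI b : ℕ) : OO A B) = ⟨d * d * a', 0⟩ := by
    rw [← hcard]
    ext <;> simp
  have hcj : ∀ r s : ℤ, (⟨r, s⟩ : OO A B) ∈ cjI b ↔ (⟨r + B * s, -s⟩ : OO A B) ∈ b := by
    intro r s
    unfold cjI
    rw [Ideal.mem_comap, starRingEnd_apply]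
    have : star (⟨r, s⟩ : OO A B) = ⟨r + B * s, -s⟩ := by ext <;> simp
    rw [this]
  apply le_antisymm
  · rw [Ideal.mul_le]
    rintro ⟨r, s⟩ hrs ⟨r', s'⟩ hrs'
    obtain ⟨i, j, hr, hs⟩ := (hmem r s).1 hrs
    obtain ⟨i', j', hr', hs'⟩ := (hmem _ _).1 ((hcj r' s').1 hrs')
    rw [Ideal.mem_span_singleton, hN]
    have e1 : s' = -(d * j') := by linear_combination -hs'
    have e2 : r' = d * (a' * i' + c' * j') + B * (d * j') := by rw [e1] at hr'; linear_combination hr'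
    refine ⟨⟨a' * i * i' + c' * i * j' + B * i * j' + c' * i' * j + k * j * j', i' * j - i * j'⟩, ?_⟩
    ext
    · simp only [QuadraticAlgebra.re_mul]
      rw [e1, e2, hr, hs]
      linear_combination (d * d * j * j') * hk
    · simp only [QuadraticAlgebra.im_mul]
      rw [e1, e2, hr, hs]
      ring
  · rw [Ideal.span_singleton_le_iff_mem, hN]
    obtain ⟨u, v, t, huvt⟩ := prim h a' c' k hk
    -- elements of `b` and of the conjugate
    have m1 : (⟨d * a', 0⟩ : OO A B) ∈ b := (hmem _ _).2 ⟨1, 0, by ring, by ring⟩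
    have m2 : (⟨d * c', d⟩ : OO A B) ∈ b := (hmem _ _).2 ⟨0, 1, by ring, by ring⟩
    have m3 : (⟨d * a', 0⟩ : OO A B) ∈ cjI b := (hcj _ _).2 (by simpa using m1)
    have m4 : (⟨d * c' + B * d, -d⟩ : OO A B) ∈ cjI b := (hcj _ _).2 (by
      have : (⟨d * c' + B * d + B * -d, - -d⟩ : OO A B) = ⟨d * c', d⟩ := by
        ext
        · simp
        · simp
      rw [this]
      exact m2)
    have p1 := Ideal.mul_mem_mul m1 m3
    have p2 := Ideal.mul_mem_mul m2 m3
    have p3 := Ideal.mul_mem_mul m1 m4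
    have p4 := Ideal.mul_mem_mul m2 m4
    have q1 := (b * cjI b).mul_mem_left (u : OO A B) p1
    have q2 := (b * cjI b).mul_mem_left (v : OO A B) ((b * cjI b).add_mem p2 p3)
    have q4 := (b * cjI b).mul_mem_left (t : OO A B) p4
    have q := (b * cjI b).add_mem ((b * cjI b).add_mem q1 q2) q4
    convert q using 1
    ext
    · simp only [QuadraticAlgebra.re_mul, QuadraticAlgebra.re_add, QuadraticAlgebra.im_add,
        QuadraticAlgebra.im_mul, QuadraticAlgebra.re_intCast, QuadraticAlgebra.im_intCast,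
        Int.cast_id]
      linear_combination (-(d * d * a')) * huvt - (t * d * d) * hk
    · simp only [QuadraticAlgebra.re_mul, QuadraticAlgebra.re_add, QuadraticAlgebra.im_add,
        QuadraticAlgebra.im_mul, QuadraticAlgebra.re_intCast, QuadraticAlgebra.im_intCast,
        Int.cast_id]
      ring

end

end Pool.Agent.MUXF
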