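import Pool.Agent.MUX.StXF

/-!
# MUX, block XF: module LAT1, every ideal gives a lattice
-/

set_option autoImplicit false

namespace Pool.Agent.MUXF

open _root_.MU3 Pool.Agent.MU3A Pool.Agent.MU3B Pool.Agent.MU3F Pool.Agent.MuSym OnePoint

theorem lat1_wC_im {A B : ℤ} (h : CQ A B) : 0 < (wC A B).im := by
  have h0 : 0 < absD A B := by
    have := h.neg
    unfold absD
    linarith
  have h1 : (0 : ℝ) < Real.sqrt (absD A B) := Real.sqrt_pos.2 (by exact_mod_cast h0)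
  have h2 : (wC A B).im = Real.sqrt (absD A B) / 2 := by
    simp [wC]
  rw [h2]
  positivity

/-- a ℤ-basis of an ideal in Hermite form. -/
theorem lat1_basis {A B : ℤ} (b : Ideal (OO A B)) (hb : b ≠ ⊥) (h1 : Sx_ALG) (hc : CQ A B) :
    ∃ (a : ℤ) (v : OO A B), a ≠ 0 ∧ v.im ≠ 0 ∧ ((a : ℤ) : OO A B) ∈ b ∧ v ∈ b ∧
      ∀ x ∈ b, ∃ m n : ℤ, x = m * (a : OO A B) + n * v := by
  obtain ⟨-, hnm, -, -, -⟩ := h1 A B hc
  obtain ⟨x0, hx0, hx00⟩ := Submodule.exists_mem_ne_zero_of_ne_bot hb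
  have hn0 : nm x0 ≠ 0 := fun h => hx00 ((hnm x0).2.1.1 h)
  have hnb : ((nm x0 : ℤ) : OO A B) ∈ b := by
    rw [← (hnm x0).2.2.2.2.1]
    exact b.mul_mem_right _ hx0
  -- the subgroup of integers in `b`
  let K : Ideal ℤ := b.comap (Int.castRingHom (OO A B))
  obtain ⟨a, ha⟩ := (IsPrincipalIdealRing.principal K).principal
  have hmemK : ∀ m : ℤ, ((m : ℤ) : OO A B) ∈ b ↔ a ∣ m := by
    intro m
    have h2 : ((m : ℤ) : OO A B) ∈ b ↔ m ∈ K := by
      simp only [K, Ideal.mem_comap]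
      rfl
    rw [h2, ha]
    exact Ideal.mem_span_singleton
  have ha0 : a ≠ 0 := by
    rintro rfl
    exact hn0 (zero_dvd_iff.1 ((hmemK _).1 hnb))
  -- the ideal of the imaginary parts
  let J : Ideal ℤ :=
    { carrier := {k | ∃ x ∈ b, x.im = k}
      add_mem' := by
        rintro k l ⟨x, hx, rfl⟩ ⟨y, hy, rfl⟩
        exact ⟨x + y, b.add_mem hx hy, by simp⟩
      zero_mem' := ⟨0, b.zero_mem, by simp⟩
      smul_mem' := by
        rintro c k ⟨x, hx, rfl⟩
        exact ⟨(c : OO A B) * x, b.mul_mem_left _ hx, by simp⟩ }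
  obtain ⟨d, hd⟩ := (IsPrincipalIdealRing.principal J).principal
  have hmemJ : ∀ k : ℤ, (∃ x ∈ b, x.im = k) ↔ d ∣ k := by
    intro k
    have h2 : (∃ x ∈ b, x.im = k) ↔ k ∈ J := Iff.rfl
    rw [h2, hd]
    exact Ideal.mem_span_singleton
  obtain ⟨v, hv, hvd⟩ := (hmemJ d).2 dvd_rfl
  have hd0 : d ≠ 0 := by
    rintro rfl
    have h3 : (⟨0, 1⟩ : OO A B) * ((nm x0 : ℤ) : OO A B) ∈ b := b.mul_mem_left _ hnb
    have h4 := (hmemJ _).1 ⟨_, h3, rfl⟩
    rw [zero_dvd_iff] at h4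
    apply hn0
    simpa using h4
  refine ⟨a, v, ha0, by rwa [hvd], (hmemK a).2 dvd_rfl, hv, fun x hx => ?_⟩
  obtain ⟨n, hn⟩ := (hmemJ _).1 ⟨x, hx, rfl⟩
  have h5 : x - (n : OO A B) * v ∈ b := b.sub_mem hx (b.mul_mem_left _ hv)
  have h6 : x - (n : OO A B) * v = (((x - (n : OO A B) * v).re : ℤ) : OO A B) := by
    ext
    · simp
    · simp [hvd, hn, mul_comm]
  rw [h6, hmemK] at h5
  obtain ⟨m, hm⟩ := h5
  refine ⟨m, n, ?_⟩
  have h7 : x = (x - (n : OO A B) * v) + n * v := by ring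
  rw [h6, hm] at h7
  rw [h7]
  push_cast
  ring

theorem tx_LAT1 (h1 : Sx_ALG) : Sx_LAT1 := by
  intro A B hc b Om hb hOm
  obtain ⟨a, v, ha, hv, hab, hvb, hbas⟩ := lat1_basis b hb h1 hc
  have him := lat1_wC_im hc
  have hind : LinearIndependent ℝ ![Om * emb ((a : ℤ) : OO A B), Om * emb v] := by
    rw [LinearIndependent.pair_iff]
    intro s t hst
    rw [Complex.real_smul, Complex.real_smul] at hst
    have h1 : Om * ((s : ℂ) * emb ((a : ℤ) : OO A B) + t * emb v) = 0 := by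
      rw [← hst]
      ring
    have h2 : (s : ℂ) * emb ((a : ℤ) : OO A B) + t * emb v = 0 := (mul_eq_zero.1 h1).resolve_left hOm
    have h3 := congrArg Complex.im h2
    have hea : emb ((a : ℤ) : OO A B) = (a : ℂ) := by simp [emb]
    rw [hea] at h3 h2
    unfold emb at h3
    simp only [Complex.add_im, Complex.mul_im, Complex.ofReal_im, Complex.ofReal_re,
      Complex.intCast_im, Complex.intCast_re, Complex.add_re, Complex.mul_re, zero_mul, mul_zero,
      add_zero, zero_add, Complex.zero_im] at h3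
    have h4 : t = 0 := by
      have h5 : t * ((v.im : ℝ) * (wC A B).im) = 0 := by linarith
      have h6 : (v.im : ℝ) * (wC A B).im ≠ 0 := mul_ne_zero (by exact_mod_cast hv) him.ne'
      exact (mul_eq_zero.1 h5).resolve_right h6
    refine ⟨?_, h4⟩
    rw [h4] at h2
    simp only [Complex.ofReal_zero, zero_mul, add_zero] at h2
    have h5 : (s : ℂ) = 0 := (mul_eq_zero.1 h2).resolve_right (by exact_mod_cast ha)
    exact_mod_cast h5
  refine ⟨⟨Om * emb ((a : ℤ) : OO A B), Om * emb v, hind⟩, hb, hOm, fun z => ?_⟩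
  rw [PeriodPair.mem_lattice]
  have hlin : ∀ m n : ℤ, emb ((m : OO A B) * ((a : ℤ) : OO A B) + (n : OO A B) * v) =
      m * emb ((a : ℤ) : OO A B) + n * emb v := by
    intro m n
    obtain ⟨hmul, -, hint, -, -⟩ := h1 A B hc
    rw [(hmul _ ((n : OO A B) * v)).2.1, (hmul (m : OO A B) _).1, (hmul (n : OO A B) v).1,
      (hint m).1, (hint n).1]
  constructor
  · rintro ⟨m, n, hz⟩
    refine ⟨(m : OO A B) * ((a : ℤ) : OO A B) + (n : OO A B) * v,
      b.add_mem (b.mul_mem_left _ hab) (b.mul_mem_left _ hvb), ?_⟩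
    rw [← hz, hlin]
    ring
  · rintro ⟨x, hx, hz⟩
    obtain ⟨m, n, hmn⟩ := hbas x hx
    refine ⟨m, n, ?_⟩
    rw [hz, hmn, hlin]
    ring

end Pool.Agent.MUXF
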