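import Pool.Agent.MUX.StXF

/-!
# MUX, block XF, module NIM (helper83): norms of ideals
-/

set_option autoImplicit false

namespace Pool.Agent.MUXF

open _root_.MU3 Pool.Agent.MU3A Pool.Agent.MU3B Pool.Agent.MU3F Pool.Agent.MuSym OnePoint
open scoped ComplexConjugate

noncomputable section

namespace NimX

variable {A B : ℤ}

theorem mem_cjI (b : Ideal (OO A B)) (x : OO A B) : x ∈ cjI b ↔ star x ∈ b := by
  unfold cjI
  rw [Ideal.mem_comap, starRingEnd_apply]

theorem cjI_cjI (b : Ideal (OO A B)) : cjI (cjI b) = b := by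
  ext x
  rw [mem_cjI, mem_cjI, star_star]

theorem cjI_eq_map (b : Ideal (OO A B)) : cjI b = b.map (starRingEnd (OO A B)) := by
  ext x
  have hs : Function.Surjective (starRingEnd (OO A B)) := fun y =>
    ⟨star y, by rw [starRingEnd_apply, star_star]⟩
  rw [mem_cjI, Ideal.mem_map_iff_of_surjective _ hs]
  constructor
  · intro h
    exact ⟨star x, h, by rw [starRingEnd_apply, star_star]⟩
  · rintro ⟨y, hy, rfl⟩
    rw [starRingEnd_apply, star_star]
    exact hy

theorem cjI_mul (b c : Ideal (OO A B)) : cjI (b * c) = cjI b * cjI c := by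
  rw [cjI_eq_map, cjI_eq_map, cjI_eq_map, Ideal.map_mul]

theorem cjI_sp (a : OO A B) : cjI (sp a) = sp (star a) := by
  rw [cjI_eq_map, Ideal.map_span, Set.image_singleton, starRingEnd_apply]

theorem cjI_ne (b : Ideal (OO A B)) (hb : b ≠ ⊥) : cjI b ≠ ⊥ := by
  intro h
  apply hb
  rw [← cjI_cjI b, h, eq_bot_iff]
  intro x hx
  rw [mem_cjI, Ideal.mem_bot] at hx
  rw [Ideal.mem_bot]
  exact star_eq_zero.1 hx

/-- `(m) = (n)` for natural numbers gives `m = n` -/
theorem sp_nat (hn : ∀ n : ℤ, nm (n : OO A B) = n ^ 2) (hm : ∀ x y : OO A B, nm (x * y) = nm x * nm y)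
    (m n : ℕ) (h : sp ((m : ℕ) : OO A B) = sp ((n : ℕ) : OO A B)) : m = n := by
  have key : ∀ k l : ℕ, ((k : ℕ) : OO A B) ∣ ((l : ℕ) : OO A B) → k ∣ l := by
    rintro k l ⟨x, hx⟩
    have h1 : nm (((l : ℤ) : OO A B)) = nm (((k : ℤ) : OO A B)) * nm x := by
      rw [← hm, Int.cast_natCast, Int.cast_natCast, hx]
    rw [hn, hn] at h1
    have h2 : ((k : ℤ)) ^ 2 ∣ (l : ℤ) ^ 2 := ⟨nm x, h1⟩
    have h3 : (k : ℤ) ∣ (l : ℤ) := (Int.pow_dvd_pow_iff two_ne_zero).1 h2
    exact_mod_cast h3
  apply Nat.dvd_antisymm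
  · apply key
    exact Ideal.span_singleton_le_span_singleton.1 h.ge
  · apply key
    exact Ideal.span_singleton_le_span_singleton.1 h.le

end NimX

open NimX in
theorem tx_NIM (h1 : Sx_ALG) (h2 : Sx_IDL) : Sx_NIM := by
  intro A B h
  obtain ⟨hmul, hz, hint, -, hdom⟩ := h1 A B h
  have : IsDomain (OO A B) := hdom
  have hI := h2 A B h
  have hN : ∀ m n : ℕ, sp ((m : ℕ) : OO A B) = sp ((n : ℕ) : OO A B) → m = n :=
    sp_nat (fun n => (hint n).2) (fun x y => (hmul x y).2.2)
  refine ⟨fun b c hb hc => ?_, fun a => ?_, fun b hb => ?_, fun b c c' hb => ?_⟩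
  · have hbc : b * c ≠ ⊥ := by
      intro h0
      rcases Ideal.mul_eq_bot.1 h0 with h0 | h0
      · exact hb h0
      · exact hc h0
    refine ⟨hN _ _ ?_, hbc⟩
    rw [← (hI (b * c) hbc).2, cjI_mul, mul_mul_mul_comm, (hI b hb).2, (hI c hc).2,
      Ideal.span_singleton_mul_span_singleton]
    push_cast
    rfl
  · by_cases ha : a = 0
    · exact Or.inr ha
    · left
      have hsa : sp a ≠ ⊥ := by
        intro h0
        exact ha (Ideal.span_singleton_eq_bot.1 h0)
      apply hN
      rw [← (hI (sp a) hsa).2, cjI_sp, Ideal.span_singleton_mul_span_singleton]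
      obtain ⟨-, -, h0, -, hst, -⟩ := hz a
      rw [hst]
      congr 2
      have h9 : ((((nm a).natAbs : ℕ) : ℤ) : OO A B) = ((nm a : ℤ) : OO A B) := by
        rw [Int.natAbs_of_nonneg h0]
      rw [← h9, Int.cast_natCast]
  · refine ⟨?_, cjI_cjI b, cjI_ne b hb, ?_⟩
    · apply hN
      rw [← (hI (cjI b) (cjI_ne b hb)).2, ← (hI b hb).2, cjI_cjI, mul_comm]
    · have h3 : ((nI b : ℕ) : OO A B) ∈ b * cjI b := by
        rw [(hI b hb).2]
        exact Ideal.mem_span_singleton_self _
      exact Ideal.mul_le_left h3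
  · constructor
    · intro h3
      have h4 : cjI b * (b * c) ≤ cjI b * (b * c') := Ideal.mul_mono_right h3
      rw [← mul_assoc, ← mul_assoc, mul_comm (cjI b) b, (hI b hb).2] at h4
      have h5 : ((nI b : ℕ) : OO A B) ≠ 0 := by
        intro h6
        have h7 := (hint (nI b : ℤ)).2
        have h8 : (((nI b : ℤ)) : OO A B) = 0 := by
          push_cast
          exact h6
        rw [h8, (hz 0).2.1.2 rfl] at h7
        have h9 : (nI b : ℤ) = 0 := by
          have := h7.symm
          exact pow_eq_zero_iff two_ne_zero |>.1 this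
        exact (hI b hb).1 (by exact_mod_cast h9)
      exact (Ideal.span_singleton_mul_right_mono h5).1 h4
    · exact fun h3 => Ideal.mul_mono_right h3

end

end Pool.Agent.MUXF
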