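import Pool.Agent.MUX.DefsX2
import Pool.Agent.MUX.F_ALG
import Pool.Agent.MUX.F_IDL
import Pool.Agent.MUX.F_NIM
import Pool.Agent.MUX.F_LAT1

/-!
# MUX: lemma library on `DefsX.lean` (helper51)

The lemmas on `emb`, `nm`, ... of MU3 with `Case A B`, repeated with `CQ A B`; ideals; the calculus of `Tor` and `IsQ`.
-/

set_option autoImplicit false

namespace Pool.Agent.MUX

open _root_.MU3 Pool.Agent.MU3B
open Pool.Agent.MU3A (kk em)

noncomputable section

/-- the lattice `L` has multiplication by `O` -/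
def HasCM (A B : ℤ) (L : PeriodPair) : Prop :=
  ∀ (x : OO A B) (z : ℂ), z ∈ L.lattice → emb x * z ∈ L.lattice

/-! ### Elementary facts (the versions of `Base.lean`, `ADefs.lean` with `CQ`) -/

section
variable {A B : ℤ}

lemma absD_pos (h : CQ A B) : 0 < absD A B := by
  have := h.neg
  unfold absD
  omega

lemma wC_sq (h : CQ A B) : wC A B * wC A B = A + B * wC A B := by
  have h1 : (0 : ℝ) ≤ (absD A B : ℝ) := by exact_mod_cast (absD_pos h).le
  have h2 : ((Real.sqrt (absD A B) : ℝ) : ℂ) ^ 2 = (absD A B : ℂ) := by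
    rw [← Complex.ofReal_pow, Real.sq_sqrt h1]
    norm_num
  have h3 : Complex.I ^ 2 = -1 := Complex.I_sq
  have h4 : (absD A B : ℂ) = -((B : ℂ) ^ 2 + 4 * A) := by simp [absD]
  unfold wC
  linear_combination (Complex.I ^ 2 / 4) * h2 + ((absD A B : ℂ) / 4) * h3 - (1 / 4) * h4

/-- the embedding as a ring homomorphism -/
def embHom (h : CQ A B) : OO A B →+* ℂ :=
  (QuadraticAlgebra.lift (R := ℤ) (a := A) (b := B) (A := ℂ)
    ⟨wC A B, by simpa [zsmul_eq_mul] using wC_sq h⟩).toRingHom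

lemma embHom_apply (h : CQ A B) (x : OO A B) : embHom h x = emb x := by
  simp [embHom, emb, QuadraticAlgebra.lift, zsmul_eq_mul]

lemma emb_mul (h : CQ A B) (x y : OO A B) : emb (x * y) = emb x * emb y := by
  simpa only [embHom_apply] using map_mul (embHom h) x y

lemma emb_add (h : CQ A B) (x y : OO A B) : emb (x + y) = emb x + emb y := by
  simpa only [embHom_apply] using map_add (embHom h) x y

lemma emb_neg (h : CQ A B) (x : OO A B) : emb (-x) = -emb x := by
  simpa only [embHom_apply] using map_neg (embHom h) x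

lemma emb_sub (h : CQ A B) (x y : OO A B) : emb (x - y) = emb x - emb y := by
  simpa only [embHom_apply] using map_sub (embHom h) x y

lemma emb_one (h : CQ A B) : emb (1 : OO A B) = 1 := by
  simpa only [embHom_apply] using map_one (embHom h)

lemma emb_zero (h : CQ A B) : emb (0 : OO A B) = 0 := by
  simpa only [embHom_apply] using map_zero (embHom h)

lemma emb_pow (h : CQ A B) (x : OO A B) (n : ℕ) : emb (x ^ n) = emb x ^ n := by
  simpa only [embHom_apply] using map_pow (embHom h) x n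

lemma emb_natCast (h : CQ A B) (n : ℕ) : emb (n : OO A B) = n := by
  simpa only [embHom_apply] using map_natCast (embHom h) n

lemma emb_intCast (h : CQ A B) (n : ℤ) : emb (n : OO A B) = n := by
  simpa only [embHom_apply] using map_intCast (embHom h) n

lemma emb_w : emb (⟨0, 1⟩ : OO A B) = wC A B := by simp [emb]

lemma wC_im (A B : ℤ) : (wC A B).im = Real.sqrt (absD A B) / 2 := by
  simp [wC, Complex.add_im, Complex.mul_im]

lemma wC_re (A B : ℤ) : (wC A B).re = B / 2 := by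
  simp [wC, Complex.add_re, Complex.mul_re]

lemma wC_im_pos (h : CQ A B) : 0 < (wC A B).im := by
  have h1 : (0 : ℝ) < Real.sqrt (absD A B) := Real.sqrt_pos.2 (by exact_mod_cast absD_pos h)
  rw [wC_im]; positivity

lemma emb_inj (h : CQ A B) {x y : OO A B} (hxy : emb x = emb y) : x = y := by
  have h1 := congrArg Complex.im hxy
  have h2 := congrArg Complex.re hxy
  simp only [emb, Complex.add_im, Complex.mul_im, Complex.intCast_im, Complex.intCast_re,
    zero_mul, add_zero, zero_add, Complex.add_re, Complex.mul_re, sub_zero] at h1 h2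
  have h3 : (x.im : ℝ) = y.im := mul_right_cancel₀ (wC_im_pos h).ne' h1
  rw [h3] at h2
  have h4 : (x.re : ℝ) = y.re := add_right_cancel h2
  exact QuadraticAlgebra.ext (by exact_mod_cast h4) (by exact_mod_cast h3)

lemma embHom_injective (h : CQ A B) : Function.Injective (embHom h) := fun x y hxy =>
  emb_inj h (by simpa only [embHom_apply] using hxy)

lemma emb_ne_zero (h : CQ A B) {x : OO A B} (hx : x ≠ 0) : emb x ≠ 0 := fun h0 =>
  hx (emb_inj h (h0.trans (emb_zero h).symm))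

lemma wC_ne_zero (h : CQ A B) : wC A B ≠ 0 := fun h0 => by
  have := wC_im_pos h
  rw [h0] at this
  simp at this

lemma isDomain (h : CQ A B) : IsDomain (OO A B) :=
  (embHom_injective h).isDomain (embHom h)

/-- the conjugate of `x` in `O` -/
lemma emb_star (x : OO A B) : emb (star x) = (starRingEnd ℂ) (emb x) := by
  apply Complex.ext
  · simp only [emb, QuadraticAlgebra.re_star, QuadraticAlgebra.im_star, Complex.conj_re,
      Complex.add_re, Complex.mul_re, Complex.intCast_re, Complex.intCast_im, wC_re]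
    push_cast
    ring
  · simp only [emb, QuadraticAlgebra.re_star, QuadraticAlgebra.im_star, Complex.conj_im,
      Complex.add_im, Complex.mul_im, Complex.intCast_re, Complex.intCast_im]
    push_cast
    ring

lemma mul_star (x : OO A B) : x * star x = ((nm x : ℤ) : OO A B) := by
  apply QuadraticAlgebra.ext
  · simp only [QuadraticAlgebra.re_mul, QuadraticAlgebra.re_star, QuadraticAlgebra.im_star,
      QuadraticAlgebra.re_intCast, nm, Int.cast_id]
    ring
  · simp only [QuadraticAlgebra.im_mul, QuadraticAlgebra.re_star, QuadraticAlgebra.im_star,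
      QuadraticAlgebra.im_intCast]
    ring

lemma emb_nm (h : CQ A B) (x : OO A B) : ((nm x : ℤ) : ℂ) = emb x * (starRingEnd ℂ) (emb x) := by
  rw [← emb_intCast h, ← mul_star, emb_mul h, emb_star]

lemma nm_mul (h : CQ A B) (x y : OO A B) : nm (x * y) = nm x * nm y := by
  have h1 : ((nm (x * y) : ℤ) : ℂ) = ((nm x * nm y : ℤ) : ℂ) := by
    rw [emb_nm h, emb_mul h, map_mul]
    push_cast
    rw [emb_nm h x, emb_nm h y]
    ring
  exact_mod_cast h1

lemma norm_sq_emb (h : CQ A B) (x : OO A B) : ‖emb x‖ ^ 2 = (nm x : ℝ) := by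
  have h1 := emb_nm h x
  rw [Complex.mul_conj, Complex.normSq_eq_norm_sq] at h1
  exact_mod_cast h1.symm

lemma nm_nonneg (h : CQ A B) (x : OO A B) : 0 ≤ nm x := by
  have := norm_sq_emb h x
  have h2 : (0 : ℝ) ≤ (nm x : ℝ) := by rw [← this]; positivity
  exact_mod_cast h2

lemma nm_eq_zero (h : CQ A B) {x : OO A B} : nm x = 0 ↔ x = 0 := by
  constructor
  · intro h0
    by_contra hx
    have h1 := norm_sq_emb h x
    rw [h0] at h1
    have h2 := emb_ne_zero h hx
    have : ‖emb x‖ ≠ 0 := norm_ne_zero_iff.2 h2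
    simp at h1
    exact h2 h1
  · rintro rfl
    simp [nm]

lemma nm_intCast (n : ℤ) : nm (n : OO A B) = n ^ 2 := by
  simp [nm]

lemma emb_mem (x : OO A B) : emb x ∈ kk A B := Pool.Agent.MU3A.emb_mem x

end

/-! ### Lattices -/

section
variable {A B : ℤ} {L L' L'' : PeriodPair}

lemma Tor.of_mem {I : Ideal (OO A B)} (hL : HasCM A B L) {z : ℂ} (hz : z ∈ L.lattice) :
    Tor I L z := fun x _ => hL x z hz

lemma Tor.add {I : Ideal (OO A B)} {z z' : ℂ} (hz : Tor I L z) (hz' : Tor I L z') :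
    Tor I L (z + z') := fun x hx => by
  rw [mul_add]
  exact add_mem (hz x hx) (hz' x hx)

lemma Tor.neg {I : Ideal (OO A B)} {z : ℂ} (hz : Tor I L z) : Tor I L (-z) := fun x hx => by
  rw [mul_neg]
  exact neg_mem (hz x hx)

lemma Tor.mono {I J : Ideal (OO A B)} (hIJ : I ≤ J) {z : ℂ} (hz : Tor J L z) : Tor I L z :=
  fun x hx => hz x (hIJ hx)

lemma Tor.mul_emb (h : CQ A B) {I : Ideal (OO A B)} {z : ℂ} (hz : Tor I L z) (y : OO A B) :
    Tor I L (emb y * z) := fun x hx => by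
  have := hz (y * x) (I.mul_mem_left y hx)
  rw [emb_mul h] at this
  have e : emb x * (emb y * z) = emb y * emb x * z := by ring
  rw [e]
  exact this

lemma tor_top (h : CQ A B) (hL : HasCM A B L) {z : ℂ} : Tor (⊤ : Ideal (OO A B)) L z ↔
    z ∈ L.lattice := by
  constructor
  · intro hz
    have := hz 1 trivial
    rwa [emb_one h, one_mul] at this
  · exact Tor.of_mem hL

lemma tor_span (h : CQ A B) (hL : HasCM A B L) (m : OO A B) {z : ℂ} :
    Tor (Ideal.span {m}) L z ↔ emb m * z ∈ L.lattice := by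
  constructor
  · intro hz
    exact hz m (Ideal.mem_span_singleton_self m)
  · intro hz x hx
    obtain ⟨y, rfl⟩ := Ideal.mem_span_singleton'.1 hx
    rw [emb_mul h, mul_assoc]
    exact hL y _ hz

/-- a point killed by two coprime ideals is zero -/
lemma tor_coprime (h : CQ A B) {a b : Ideal (OO A B)} (hab : IsCoprime a b) {z : ℂ}
    (ha : Tor a L z) (hb : Tor b L z) : z ∈ L.lattice := by
  obtain ⟨x, hx, y, hy, hxy⟩ := Ideal.isCoprime_iff_exists.1 hab
  have h1 := add_mem (ha x hx) (hb y hy)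
  have h2 : emb x * z + emb y * z = z := by
    have := congrArg emb hxy
    rw [emb_add h, emb_one h] at this
    linear_combination z * this
  rwa [h2] at h1

lemma IsQ.cm (h : CQ A B) {a : Ideal (OO A B)} {mu : ℂ} (hq : IsQ a L L' mu) :
    HasCM A B L' := fun x z hz => by
  have h0 := hq.1
  have h1 : mu * (mu⁻¹ * z) ∈ L'.lattice := by rwa [mul_inv_cancel_left₀ h0]
  have h2 := (hq.2 _).1 h1
  have h3 := (hq.2 _).2 (Tor.mul_emb h (I := a) h2 x)
  have e : mu * (emb x * (mu⁻¹ * z)) = emb x * z := by field_simp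
  rwa [e] at h3

lemma IsQ.mem (hL : HasCM A B L) {a : Ideal (OO A B)} {mu : ℂ} (hq : IsQ a L L' mu) {z : ℂ}
    (hz : z ∈ L.lattice) : mu * z ∈ L'.lattice := (hq.2 z).2 (Tor.of_mem hL hz)

end

/-! ### Ideals -/

section
variable {A B : ℤ}

lemma CQ.toF (h : CQ A B) : MUXF.CQ A B := ⟨h.hB, h.neg, h.fund1, h.fund0⟩

lemma nI_ne_zero (h : CQ A B) {b : Ideal (OO A B)} (hb : b ≠ ⊥) : nI b ≠ 0 :=
  (MUXF.tx_IDL MUXF.tx_ALG A B h.toF b hb).1

/-- `b * cjI b = (N b)` -/
lemma mul_cjI (h : CQ A B) {b : Ideal (OO A B)} (hb : b ≠ ⊥) :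
    b * cjI b = sp ((nI b : ℕ) : OO A B) :=
  (MUXF.tx_IDL MUXF.tx_ALG A B h.toF b hb).2

lemma finite_quot (h : CQ A B) {b : Ideal (OO A B)} (hb : b ≠ ⊥) : Finite (OO A B ⧸ b) :=
  (MUXF.tx_ALG A B h.toF).2.2.2.1 b hb

lemma nI_mul (h : CQ A B) {b c : Ideal (OO A B)} (hb : b ≠ ⊥) (hc : c ≠ ⊥) :
    nI (b * c) = nI b * nI c :=
  ((MUXF.tx_NIM MUXF.tx_ALG (MUXF.tx_IDL MUXF.tx_ALG) A B h.toF).1 b c hb hc).1

lemma mul_ne_bot (h : CQ A B) {b c : Ideal (OO A B)} (hb : b ≠ ⊥) (hc : c ≠ ⊥) : b * c ≠ ⊥ :=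
  ((MUXF.tx_NIM MUXF.tx_ALG (MUXF.tx_IDL MUXF.tx_ALG) A B h.toF).1 b c hb hc).2

lemma nI_sp (h : CQ A B) {a : OO A B} (ha : a ≠ 0) : nI (sp a) = (nm a).natAbs :=
  ((MUXF.tx_NIM MUXF.tx_ALG (MUXF.tx_IDL MUXF.tx_ALG) A B h.toF).2.1 a).resolve_right ha

lemma nI_cjI (h : CQ A B) {b : Ideal (OO A B)} (hb : b ≠ ⊥) : nI (cjI b) = nI b :=
  ((MUXF.tx_NIM MUXF.tx_ALG (MUXF.tx_IDL MUXF.tx_ALG) A B h.toF).2.2.1 b hb).1

lemma cjI_cjI (h : CQ A B) {b : Ideal (OO A B)} (hb : b ≠ ⊥) : cjI (cjI b) = b :=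
  ((MUXF.tx_NIM MUXF.tx_ALG (MUXF.tx_IDL MUXF.tx_ALG) A B h.toF).2.2.1 b hb).2.1

lemma cjI_ne_bot (h : CQ A B) {b : Ideal (OO A B)} (hb : b ≠ ⊥) : cjI b ≠ ⊥ :=
  ((MUXF.tx_NIM MUXF.tx_ALG (MUXF.tx_IDL MUXF.tx_ALG) A B h.toF).2.2.1 b hb).2.2.1

lemma nI_mem (h : CQ A B) {b : Ideal (OO A B)} (hb : b ≠ ⊥) : ((nI b : ℕ) : OO A B) ∈ b :=
  ((MUXF.tx_NIM MUXF.tx_ALG (MUXF.tx_IDL MUXF.tx_ALG) A B h.toF).2.2.1 b hb).2.2.2

lemma natCast_ne_zero' (h : CQ A B) {n : ℕ} (hn : n ≠ 0) : ((n : ℕ) : OO A B) ≠ 0 := by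
  intro h0
  have := congrArg emb h0
  rw [emb_natCast h, emb_zero h] at this
  exact hn (by exact_mod_cast this)

/-- cancellation of a nonzero ideal -/
lemma mul_le_mul_iff (h : CQ A B) {b : Ideal (OO A B)} (hb : b ≠ ⊥) {c c' : Ideal (OO A B)} :
    b * c ≤ b * c' ↔ c ≤ c' :=
  (MUXF.tx_NIM MUXF.tx_ALG (MUXF.tx_IDL MUXF.tx_ALG) A B h.toF).2.2.2 b c c' hb

lemma mul_cancel (h : CQ A B) {b : Ideal (OO A B)} (hb : b ≠ ⊥) {c c' : Ideal (OO A B)}
    (hc : b * c = b * c') : c = c' :=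
  le_antisymm ((mul_le_mul_iff h hb).1 hc.le) ((mul_le_mul_iff h hb).1 hc.ge)

/-- every nonzero ideal times `Om` is the lattice of a `PeriodPair` -/
lemma exists_isLI (h : CQ A B) {b : Ideal (OO A B)} (hb : b ≠ ⊥) {Om : ℂ} (hO : Om ≠ 0) :
    ∃ L : PeriodPair, IsLI b L Om := by
  obtain ⟨L, hL⟩ := MUXF.tx_LAT1 MUXF.tx_ALG A B h.toF b Om hb hO
  exact ⟨L, hL.b_ne, hL.om_ne, hL.mem⟩

lemma IsLI.hasCM (h : CQ A B) {b : Ideal (OO A B)} {L : PeriodPair} {om : ℂ}
    (hL : IsLI b L om) : HasCM A B L := fun x z hz => by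
  obtain ⟨y, hy, rfl⟩ := (hL.mem z).1 hz
  refine (hL.mem _).2 ⟨x * y, b.mul_mem_left x hy, ?_⟩
  rw [emb_mul h]
  ring

end

end

end Pool.Agent.MUX
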