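import Pool.Agent.MUX.StJG
import Pool.Agent.MUX.J_RAM
import Pool.Agent.MUX.XLib

/-!
# MUX, block J, module RAMG (helper95): the order of the inertia group of a field with many roots of unity, any prime
above `p`. After `J_RAM.lean` (helper48).
-/

set_option autoImplicit false

open NumberField IsDedekindDomain
open scoped nonZeroDivisors Pointwise

namespace Pool.Agent.MUXJ

open _root_.MU3 Pool.Agent.MU3 Pool.Agent.MU3A Pool.Agent.MU3B Pool.Agent.RI Pool.Agent.RID
  Pool.Agent.MUX Pool.Agent.MUXK Pool.Agent.MUXE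

noncomputable section

namespace JRAMG

open Ideal Pool.Agent.MU3E.RAM Pool.Agent.MUXE.RamE JRAM

section galois

variable {V : ValuationSubring ℂ} {k F : Type} [Field k] [NumberField k] [Field F] [NumberField F]
  [Algebra k F] [IsGalois k F] (io : F →+* ℂ)

/-- the value above of an element below -/
theorem val_cardG {w : HeightOneSpectrum (𝓞 F)}
    (hw : ∀ x : 𝓞 F, x ∈ w.asIdeal ↔ V.valuation (io x) < 1)
    (v : HeightOneSpectrum (𝓞 k)) (hv : v.asIdeal = w.asIdeal.under (𝓞 k)) (q : 𝓞 k) :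
    w.valuation F (algebraMap k F q) = v.intValuation q ^
      Nat.card {σ : F ≃ₐ[k] F // ∀ x : F, V.valuation (io x) ≤ 1 →
        V.valuation (io (σ x) - io x) < 1} := by
  have hlo' : w.asIdeal.LiesOver v.asIdeal := ⟨hv⟩
  have hwp : w.asIdeal.IsPrime := w.isPrime
  have hpp : v.asIdeal.IsPrime := v.isPrime
  have hp0 : v.asIdeal ≠ ⊥ := v.ne_bot
  have hfin : Finite (𝓞 k ⧸ v.asIdeal) := Ideal.finiteQuotientOfFreeOfNeBot v.asIdeal hp0
  have hmax : v.asIdeal.IsMaximal := hpp.isMaximal hp0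
  have hfr : Finite v.asIdeal.ResidueField :=
    Finite.of_surjective (algebraMap (𝓞 k ⧸ v.asIdeal) v.asIdeal.ResidueField)
      (Ideal.bijective_algebraMap_quotient_residueField v.asIdeal).2
  have h1 := Ideal.card_inertia_eq_ramificationIdxIn (G := F ≃ₐ[k] F) v.asIdeal w.asIdeal
  have hcard : Nat.card {σ : F ≃ₐ[k] F // ∀ x : F, V.valuation (io x) ≤ 1 →
        V.valuation (io (σ x) - io x) < 1} = Nat.card (w.asIdeal.inertia (F ≃ₐ[k] F)) :=
    Nat.card_congr (Equiv.subtypeEquivRight fun σ => (mem_inertia io hw σ).symm)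
  rw [Ideal.ramificationIdxIn_eq_ramificationIdx v.asIdeal w.asIdeal (F ≃ₐ[k] F)] at h1
  have h2 : v.asIdeal.ramificationIdx' w.asIdeal = Nat.card (w.asIdeal.inertia (F ≃ₐ[k] F)) := by
    rw [Ideal.ramificationIdx'_eq_ramificationIdx' v.asIdeal w.asIdeal
      (Ideal.map_ne_bot_of_ne_bot hp0), ← h1]
  have h3 := HeightOneSpectrum.valuation_liesOver (K := k) F v w (algebraMap (𝓞 k) k q)
  rw [h2, HeightOneSpectrum.valuation_of_algebraMap] at h3
  rw [hcard]
  exact h3.symm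

end galois

theorem eq_top_of_card {A B : ℤ} {b : Ideal (OO A B)} (h : nI b = 1) : b = ⊤ := by
  unfold nI at h
  rw [Nat.card_eq_one_iff_unique] at h
  have := h.1
  rwa [← Ideal.Quotient.subsingleton_iff]

/-- `p` is not in the cube of a prime ideal -/
theorem not_cube {A B : ℤ} (hq : CQ A B) (hD : IsDedekindDomain (OO A B)) {p : ℕ} (hp : p.Prime)
    (P : Ideal (OO A B)) (hP : P.IsPrime) (hmem : ((p : ℕ) : OO A B) ∈ P) :
    ((p : ℕ) : OO A B) ∉ P ^ 3 := by
  intro h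
  have hp0 : ((p : ℕ) : OO A B) ≠ 0 := natCast_ne_zero' hq hp.ne_zero
  have hP0 : P ≠ ⊥ := by
    rintro rfl
    exact hp0 (by simpa using hmem)
  obtain ⟨J, hJ⟩ := Ideal.dvd_span_singleton.2 h
  have hsp : (Ideal.span {((p : ℕ) : OO A B)} : Ideal (OO A B)) ≠ ⊥ := by
    rw [Ne, Ideal.span_singleton_eq_bot]
    exact hp0
  have hJ0 : J ≠ ⊥ := by
    rintro rfl
    rw [Ideal.mul_bot] at hJ
    exact hsp hJ
  have h2 := mul_ne_bot hq hP0 hP0
  have h3 := mul_ne_bot hq h2 hP0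
  have e3 : P ^ 3 = P * P * P := by rw [pow_succ, pow_two]
  have hn : nI (sp ((p : ℕ) : OO A B)) = nI P * nI P * nI P * nI J := by
    show nI (Ideal.span {((p : ℕ) : OO A B)}) = _
    rw [hJ, e3, nI_mul hq h3 hJ0, nI_mul hq h2 hP0, nI_mul hq hP0 hP0]
  have hnm : nI (sp ((p : ℕ) : OO A B)) = p ^ 2 := by
    rw [nI_sp hq hp0]
    have e4 : nm ((p : ℕ) : OO A B) = ((p ^ 2 : ℕ) : ℤ) := by
      have := nm_intCast (A := A) (B := B) (p : ℤ)
      push_cast at this ⊢
      exact this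
    rw [e4]
    exact Int.natAbs_natCast _
  rw [hnm] at hn
  have hdvd : nI P ∣ p ^ 2 := ⟨nI P * nI P * nI J, by rw [hn]; ring⟩
  obtain ⟨i, hi, hie⟩ := (Nat.dvd_prime_pow hp).1 hdvd
  have hi0 : i ≠ 0 := by
    rintro rfl
    rw [pow_zero] at hie
    exact hP.ne_top (eq_top_of_card hie)
  have hdvd3 : p ^ 3 ∣ p ^ 2 := by
    rw [hn, hie]
    refine Dvd.dvd.mul_right ?_ _
    rw [← pow_add, ← pow_add]
    exact pow_dvd_pow p (by omega)
  have := (Nat.pow_dvd_pow_iff_le_right hp.one_lt).1 hdvd3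
  omega

end JRAMG

open JRAM JRAMG Pool.Agent.MU3E.RAM in
theorem t_RAMG : Sj_RAMG := by
  intro p ee A B P V hC F _ _ ⟨ζ, hζF, hζ⟩
  have hp23 : p = 3 ∨ p = 2 := hC.pp.symm
  have hp : p.Prime := by
    rcases hp23 with rfl | rfl
    · exact Nat.prime_three
    · exact Nat.prime_two
  obtain ⟨⟨φ, hφ⟩, hinj, hded, hpos, hint⟩ := te_RNG A B hC.cq
  have hcube : ((p : ℕ) : OO A B) ∉ P ^ 3 := not_cube hC.cq hded hp P hC.prime hC.mem
  have hw0 : IsIntegral ℤ (wC A B) := by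
    rw [hint _ (wC_mem A B)]
    exact ⟨⟨0, 1⟩, by simp [emb]⟩
  have hfd : FiniteDimensional ℚ (kk A B) :=
    IntermediateField.adjoin.finiteDimensional hw0.tower_top
  have hk : NumberField (kk A B) := ⟨⟩
  have hFQ : FiniteDimensional ℚ F := FiniteDimensional.trans ℚ (kk A B) F
  have hF : NumberField F := ⟨⟩
  have hIn : ∀ x : OO A B, IsIntegral ℤ (ek x) := by
    intro x
    have h2 : IsIntegral ℤ (emb x) := (hint (emb x) (MU3A.emb_mem x)).mpr ⟨x, rfl⟩
    have h3 : algebraMap (kk A B) ℂ (ek x) = emb x := rfl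
    rw [← h3] at h2
    exact (isIntegral_algebraMap_iff (FaithfulSMul.algebraMap_injective (kk A B) ℂ)).mp h2
  -- the ring isomorphism
  let e : OO A B →+* 𝓞 (kk A B) :=
    { toFun := fun x => ⟨ek x, hIn x⟩
      map_one' := by
        apply RingOfIntegers.ext
        apply Subtype.ext
        change emb 1 = 1
        rw [← hφ, map_one]
      map_mul' := by
        intro a b
        apply RingOfIntegers.ext
        apply Subtype.ext
        change emb (a * b) = emb a * emb b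
        rw [← hφ, ← hφ, ← hφ, map_mul]
      map_zero' := by
        apply RingOfIntegers.ext
        apply Subtype.ext
        change emb 0 = 0
        rw [← hφ, map_zero]
      map_add' := by
        intro a b
        apply RingOfIntegers.ext
        apply Subtype.ext
        change emb (a + b) = emb a + emb b
        rw [← hφ, ← hφ, ← hφ, map_add] }
  have he : ∀ x, (((e x : 𝓞 (kk A B)) : kk A B) : ℂ) = emb x := fun x => rfl
  have hesurj : Function.Surjective e := by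
    intro x
    have h2 : IsIntegral ℤ ((x : kk A B) : ℂ) :=
      (RingOfIntegers.isIntegral_coe x).map (Algebra.ofId (kk A B) ℂ |>.restrictScalars ℤ)
    obtain ⟨z, hz⟩ := (hint _ (x : kk A B).2).mp h2
    refine ⟨z, ?_⟩
    apply RingOfIntegers.ext
    apply Subtype.ext
    rw [he, hz]
  have heinj : Function.Injective e := by
    rw [injective_iff_map_eq_zero]
    intro x hx
    apply hinj
    rw [← he, hx]
    rfl
  have hpC : emb ((p : ℕ) : OO A B) = (p : ℂ) := by rw [← hφ, map_natCast]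
  have hpne : (p : ℂ) ≠ 0 := by exact_mod_cast hp.ne_zero
  have hvP : ∀ x : OO A B, V.valuation (emb x) < 1 ↔ x ∈ P := fun x => by
    rw [← hC.hV x, ValuationSubring.mem_nonunits_iff]
  obtain ⟨w, hw⟩ := exists_prime (V := V) (algebraMap F ℂ)
    (z := ((p : ℕ) : 𝓞 F)) (by
      intro h
      have h1 := congrArg (fun t : 𝓞 F => algebraMap F ℂ (t : F)) h
      have h2 : ((p : ℕ) : ℂ) = 0 := by
        simpa using h1
      exact hpne h2) (by
      have h2 : (algebraMap F ℂ) ((((p : ℕ) : 𝓞 F)) : F) = (p : ℂ) := by simp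
      rw [h2, ← hpC, hvP]
      exact hC.mem)
  have hcomap : (w.asIdeal.under (𝓞 (kk A B))).comap e = P := by
    ext z
    have hxw : z ∈ (w.asIdeal.under (𝓞 (kk A B))).comap e ↔ V.valuation (emb z) < 1 := by
      exact hw (algebraMap (𝓞 (kk A B)) (𝓞 F) (e z))
    rw [hxw, hvP]
  have hmap : P.map e = w.asIdeal.under (𝓞 (kk A B)) := by
    rw [← hcomap]
    exact Ideal.map_comap_of_surjective e hesurj _
  have hep : e ((p : ℕ) : OO A B) = ((p : ℕ) : 𝓞 (kk A B)) := map_natCast e p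
  have hq1 : ((p : ℕ) : 𝓞 (kk A B)) ∈ w.asIdeal.under (𝓞 (kk A B)) := by
    rw [← hmap, ← hep]
    exact Ideal.mem_map_of_mem e hC.mem
  have hqn : ∀ n : ℕ, ((p : ℕ) : OO A B) ∉ P ^ n →
      ((p : ℕ) : 𝓞 (kk A B)) ∉ (w.asIdeal.under (𝓞 (kk A B))) ^ n := by
    intro n hn
    rw [← hmap, ← Ideal.map_pow, ← hep, Ideal.mem_map_iff_of_surjective e hesurj]
    rintro ⟨z, hz, hz2⟩
    rw [heinj hz2] at hz
    exact hn hz
  have hord := val_cardG (k := kk A B) (algebraMap F ℂ) hw (w.under (𝓞 (kk A B))) rfl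
    ((p : ℕ) : 𝓞 (kk A B))
  -- the value of `p` at the prime of `k`
  set v := w.under (𝓞 (kk A B)) with hv
  have hvas : v.asIdeal = w.asIdeal.under (𝓞 (kk A B)) := rfl
  have hv1 : v.intValuation ((p : ℕ) : 𝓞 (kk A B)) ≤ WithZero.exp (-((1 : ℕ) : ℤ)) := by
    rw [HeightOneSpectrum.intValuation_le_pow_iff_mem, pow_one, hvas]
    exact hq1
  have hvn : ∀ n : ℕ, ((p : ℕ) : OO A B) ∉ P ^ n →
      WithZero.exp (-((n : ℕ) : ℤ)) < v.intValuation ((p : ℕ) : 𝓞 (kk A B)) := by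
    intro n hn
    rw [← not_le, HeightOneSpectrum.intValuation_le_pow_iff_mem, hvas]
    exact hqn n hn
  have hv0 : v.intValuation ((p : ℕ) : 𝓞 (kk A B)) ≠ 0 :=
    (lt_of_le_of_lt (zero_le) (hvn 3 hcube)).ne'
  obtain ⟨l, hl⟩ : ∃ l : ℤ, v.intValuation ((p : ℕ) : 𝓞 (kk A B)) = WithZero.exp l :=
    ⟨_, (WithZero.exp_log hv0).symm⟩
  rw [hl] at hv1 hord
  rw [hl] at hvn
  rw [WithZero.exp_le_exp] at hv1
  have hvn3 := hvn 3 hcube
  rw [WithZero.exp_lt_exp] at hvn3
  have hl1 : ee = 1 → l = -1 := by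
    intro he1
    have h := hvn 2 (hC.unr he1)
    rw [WithZero.exp_lt_exp] at h
    push_cast at h hv1
    omega
  obtain ⟨m, hm1, hm2⟩ := tot_eq hp23
  have hζ' : IsPrimitiveRoot (⟨ζ, hζF⟩ : F) (p ^ (m + 1)) := by
    rw [hm1] at hζ
    exact IsPrimitiveRoot.of_map_of_injective (f := algebraMap F ℂ) hζ
      (FaithfulSMul.algebraMap_injective F ℂ)
  have hcy := val_p w hp hζ'
  have hpF : (algebraMap (kk A B) F (((p : ℕ) : 𝓞 (kk A B)) : kk A B)) = (p : F) := by
    simp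
  rw [hpF, hcy, hm2] at hord
  change q0 p * (p - 1) ∣ ee * Nat.card {σ : F ≃ₐ[kk A B] F // ∀ x : F,
    V.valuation ((algebraMap F ℂ) x) ≤ 1 →
      V.valuation ((algebraMap F ℂ) (σ x) - (algebraMap F ℂ) x) < 1}
  set N := Nat.card {σ : F ≃ₐ[kk A B] F // ∀ x : F,
    V.valuation ((algebraMap F ℂ) x) ≤ 1 →
      V.valuation ((algebraMap F ℂ) (σ x) - (algebraMap F ℂ) x) < 1} with hN
  have h0 : w.valuation F (1 - (⟨ζ, hζF⟩ : F)) ≠ 0 := by
    intro h0
    rw [h0] at hord
    have h5 : (WithZero.exp l) ^ N ≠ (0 : WithZero (Multiplicative ℤ)) :=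
      pow_ne_zero _ WithZero.exp_ne_zero
    apply h5
    rw [← hord]
    apply zero_pow
    rw [← hm2]
    exact (Nat.totient_pos.2 (pow_pos hp.pos _)).ne'
  rw [← WithZero.exp_log h0, ← WithZero.exp_nsmul, ← WithZero.exp_nsmul, WithZero.exp_inj,
    nsmul_eq_mul, nsmul_eq_mul] at hord
  have h6 : ((q0 p * (p - 1) : ℕ) : ℤ) ∣ (N : ℤ) * l :=
    ⟨WithZero.log (w.valuation F (1 - (⟨ζ, hζF⟩ : F))), by linear_combination -hord⟩
  have h7 : ((q0 p * (p - 1) : ℕ) : ℤ) ∣ ((ee * N : ℕ) : ℤ) := by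
    push_cast at hv1 hvn3
    rcases hC.ee with h | h
    · rw [hl1 h] at h6
      rw [h, one_mul]
      rwa [mul_neg_one, dvd_neg] at h6
    · have h8 : l = -1 ∨ l = -2 := by omega
      have h9 : ((ee * N : ℕ) : ℤ) = 2 * (N : ℤ) := by
        rw [h]
        push_cast
        ring
      rw [h9]
      rcases h8 with h8 | h8
      · rw [h8, mul_neg_one, dvd_neg] at h6
        exact h6.mul_left 2
      · rw [h8, mul_neg, dvd_neg, mul_comm (N : ℤ) 2] at h6
        exact h6
  exact_mod_cast h7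

end

end Pool.Agent.MUXJ
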