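import Pool.Agent.MUX.DefsX
import Pool.Agent.RI.Stmts

/-!
# MUX: common definitions, part 2 (helper3): levels, elliptic units, logarithmic derivatives

`p` = 3 or 2 (`CaseP p A B`), `P` a prime ideal of norm `p`, `V` a valuation ring of `ℂ` with `V ∩ O = P`. Levels
`m = lvX p f n = f q0 p^n`, `q0 = p` for `p` odd, `4` for `p = 2`; `a = aX p f = 1 + 2 q0 f`; the generator of the
Galois group of the layers corresponds to `1 + q0` (4 or 5). `R : Reps A B (p * f) ι`. See `PAPER_X.md`, sections 4, 6, 7.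

* `ExtC h τ σ` : the automorphism `σ` of `ℂ` extends the automorphism `τ` of `D / k`.
* `XX R m h τ` : the pairs `(i, x)`, `x` a class of `O / m` prime to `m`, such that some `σ ∈ Aut(ℂ / k)` extending `τ`
  maps the base point `om_(i0) / m` of `L_(i0)` to `±` the point `pt R m i x` of `L_i`. Stable under `x ↦ -x`.
* `cX R m H h τ = ∏ Θ_a(pt R m i x; L_i)`, `(i, x) ∈ XX R m h τ`; `cX .. 1 = N_(RF m / D)(Θ_a(om/m))²`.
* `muX R i = om_i N(b_i) / om_(i0)`, the multiplier of `L_(i0) → L_i`.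
* `TTX R P m a h τ = Σ w_P(x) mu_i (Θ_a'/Θ_a)(pt R m i x; L_i)`, `(i, x) ∈ XX R m h τ`.
* `SnX R m M e i c = mu_i Σ_(x mod m, N x N b_i ≡ c mod M) e(x) ee(pt R m i x; L_i)`,
  `STX R m M a e kk c = Σ_i kk_i (a SnX i (a² c) - a² SnX i c)`.
* `HfX p V x` : `v(x)^(p-1) ≤ v(p)`.
-/

set_option autoImplicit false

namespace Pool.Agent.MUX

open _root_.MU3 Pool.Agent.MU3A Pool.Agent.MU3B Pool.Agent.RI OnePoint

noncomputable section

/-! ## Levels -/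

/-- `q0 = p`, but `4` for `p = 2` -/
def q0 (p : ℕ) : ℕ := if p = 2 then 4 else p

/-- the level `f q0 p^n` -/
def lvX (p f n : ℕ) : ℕ := f * q0 p * p ^ n

/-- the auxiliary number `a = 1 + 2 q0 f` -/
def aX (p f : ℕ) : ℕ := 1 + 2 * q0 p * f

/-- the level as an ideal -/
abbrev idl {A B : ℤ} (m : ℕ) : Ideal (OO A B) := Ideal.span {((m : ℕ) : OO A B)}

/-- `V ∩ O = P` -/
def OverI {A B : ℤ} (V : ValuationSubring ℂ) (P : Ideal (OO A B)) : Prop :=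
  ∀ x : OO A B, emb x ∈ V.nonunits ↔ x ∈ P

/-- the standing hypotheses for `p`: `P` a prime ideal of norm `p`, `V` above `P`, the level `f` -/
structure SetP (p : ℕ) (A B : ℤ) (P : Ideal (OO A B)) (V : ValuationSubring ℂ) (f : ℕ) : Prop where
  case : CaseP p A B
  hP : IsPN p P
  hV : OverI V P
  f0 : f ≠ 0
  fp : ¬ p ∣ f
  fD : absD A B ∣ (f : ℤ)
  f2 : p ≠ 2 → 2 * absD A B ∣ (f : ℤ)

/-! ## The pairs `(i, x)` -/

section
variable {A B : ℤ} {n : ℕ} {ι : Type}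

/-- the automorphism `σ` of `ℂ` extends the automorphism `τ` of `D / k` -/
def ExtC {D : IntermediateField ℚ ℂ} (h : kk A B ≤ D)
    (τ : letI := algC h; D ≃ₐ[kk A B] D) (σ : ℂ ≃+* ℂ) : Prop :=
  letI := algC h
  ∀ y : D, σ (y : ℂ) = (τ y : ℂ)

/-- the pairs `(i, x)` of level `m`, `x` prime to `m`, which are hit by an extension of `τ` -/
def XX (R : Reps A B n ι) (m : ℕ) {D : IntermediateField ℚ ℂ} (h : kk A B ≤ D)
    (τ : letI := algC h; D ≃ₐ[kk A B] D) : Set (ι × (OO A B ⧸ idl (A := A) (B := B) m)) :=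
  {q | IsCoprime (Quotient.out q.2 : OO A B) ((m : ℕ) : OO A B) ∧
    ∃ σ : ℂ ≃+* ℂ, FixK A B σ ∧ ExtC h τ σ ∧ Hits R m σ q.1 (Quotient.out q.2)}

/-- `∏ Θ_a(pt R m i x; L_i)`, `(i, x) ∈ XX R m h τ`; `H i` a half system for `a` on `L_i` -/
def cX (R : Reps A B n ι) (m : ℕ) (H : ι → Finset ℂ) {D : IntermediateField ℚ ℂ}
    (h : kk A B ≤ D) (τ : letI := algC h; D ≃ₐ[kk A B] D) : ℂ :=
  ∏ᶠ q ∈ XX R m h τ, ThetaH (R.L q.1) (H q.1) (pt R m q.1 (Quotient.out q.2))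

/-- the multiplier `mu_i` of `L_(i0) → L_i = mu_i (cjI b_i)⁻¹ L_(i0)` -/
def muX (R : Reps A B n ι) (i : ι) : ℂ := R.om i * nI (R.b i) / R.om R.i0

/-- the residue of `x` modulo `P` (norm 2 or 3) as `0, 1, -1` -/
def wP (P : Ideal (OO A B)) (x : OO A B) : ℤ :=
  open Classical in if x ∈ P then 0 else if x - 1 ∈ P then 1 else -1

/-- `Θ_a'/Θ_a = a e(a z) - a² e(z)` -/
def dlX (L : PeriodPair) (a : ℕ) (z : ℂ) : ℂ := a * ee L (a * z) - (a : ℂ) ^ 2 * ee L z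

/-- `T(τ)` -/
def TTX (R : Reps A B n ι) (P : Ideal (OO A B)) (m a : ℕ) {D : IntermediateField ℚ ℂ}
    (h : kk A B ≤ D) (τ : letI := algC h; D ≃ₐ[kk A B] D) : ℂ :=
  ∑ᶠ q ∈ XX R m h τ, (wP P (Quotient.out q.2) : ℂ) * muX R q.1 *
    dlX (R.L q.1) a (pt R m q.1 (Quotient.out q.2))

/-- `mu_i Σ e(x) ee(pt R m i x; L_i)`, over the `x` modulo `m` with `N x N b_i ≡ c` modulo `M` -/
def SnX (R : Reps A B n ι) (m M : ℕ) (e : OO A B → ℂ) (i : ι) (c : ℤ) : ℂ :=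
  muX R i * sumMod ((m : ℕ) : OO A B) fun x =>
    if (M : ℤ) ∣ nm x * nI (R.b i) - c then e x * ee (R.L i) (pt R m i x) else 0

/-- `Σ_i kk_i (a SnX i (a² c) - a² SnX i c)` -/
def STX [Fintype ι] (R : Reps A B n ι) (m M a : ℕ) (e : OO A B → ℂ) (kk : ι → ℂ) (c : ℤ) : ℂ :=
  ∑ i, kk i * ((a : ℂ) * SnX R m M e i ((a : ℤ) ^ 2 * c) - (a : ℂ) ^ 2 * SnX R m M e i c)

end

/-- `v(x)^(p-1) ≤ v(p)` -/
def HfX (p : ℕ) (V : ValuationSubring ℂ) (x : ℂ) : Prop := x ^ (p - 1) / p ∈ V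

/-- the combination `Σ_i kk_i Phi_i` of symbols -/
def PhiK {A B : ℤ} {n : ℕ} {ι : Type} [Fintype ι] (R : Reps A B n ι) (e : OO A B → ℂ)
    (kk : ι → ℂ) (x y : OnePoint ℚ) : ℂ :=
  ∑ i, kk i * PhiI (R.b i) e x y

/-! ## Facts on the automorphisms of `ℂ` (contract with block XC, helper51) -/

/-- the main theorem of complex multiplication, `PAPER_X.md` section 1 -/
structure TorX (A B : ℤ) : Prop where
  fin : ∀ m : Ideal (OO A B), m ≠ ⊥ → FiniteDimensional (kk A B) (RF m)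
  gal : ∀ m : Ideal (OO A B), m ≠ ⊥ → IsGalois (kk A B) (RF m)
  comm : ∀ m : Ideal (OO A B), m ≠ ⊥ → ∀ σ τ : RF m ≃ₐ[kk A B] RF m, σ * τ = τ * σ
  mono : ∀ m m' : Ideal (OO A B), m' ≤ m → RF m ≤ RF m'
  /-- automorphisms of subfields of `RF m` extend to `ℂ` -/
  ext : ∀ (m : Ideal (OO A B)), m ≠ ⊥ → ∀ (D : IntermediateField ℚ ℂ) (h : kk A B ≤ D),
    (∀ y ∈ D, y ∈ RF m) → letI := algC h
    ∀ τ : D ≃ₐ[kk A B] D, ∃ σ : ℂ ≃+* ℂ, FixK A B σ ∧ ExtC h τ σ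
  /-- existence of the ideal, and independence of the lattice: one ideal for all lattices -/
  act : ∀ m : Ideal (OO A B), m ≠ ⊥ → ∀ σ : ℂ ≃+* ℂ, FixK A B σ → ∃ a : Ideal (OO A B),
    IsCoprime a m ∧ ∀ (b : Ideal (OO A B)) (L : PeriodPair) (om : ℂ), IsNL b L om →
      ∃ (b' : Ideal (OO A B)) (L' : PeriodPair) (om' mu : ℂ), IsNL b' L' om' ∧ ActI σ m a L L' mu
  /-- every nonzero ideal prime to `m` is the ideal of an automorphism (`a ≠ ⊥` matters for `m = ⊤`) -/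
  surj : ∀ m : Ideal (OO A B), m ≠ ⊥ → ∀ a : Ideal (OO A B), a ≠ ⊥ → IsCoprime a m →
    ∃ σ : ℂ ≃+* ℂ, FixK A B σ ∧ ∀ (b : Ideal (OO A B)) (L : PeriodPair) (om : ℂ), IsNL b L om →
      ∃ (b' : Ideal (OO A B)) (L' : PeriodPair) (om' mu : ℂ), IsNL b' L' om' ∧ ActI σ m a L L' mu
  /-- composition -/
  comp : ∀ (m a b : Ideal (OO A B)) (σ τ : ℂ ≃+* ℂ) (L L' L'' : PeriodPair) (mu nu : ℂ),
    ActI σ m a L L' mu → ActI τ m b L' L'' nu → ActI (σ.trans τ) m (a * b) L L'' (nu * mu)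
  /-- change of the ideal in its class -/
  chg : ∀ (m a a' : Ideal (OO A B)) (σ : ℂ ≃+* ℂ) (L L' : PeriodPair) (mu : ℂ) (x y : OO A B),
    m ≠ ⊥ → IsCoprime a' m → IsCoprime (sp x) m → x ≠ 0 → y ≠ 0 → x - y ∈ m →
    sp x * a = sp y * a' → (∃ (b : Ideal (OO A B)) (om : ℂ), IsNL b L om) → ActI σ m a L L' mu →
    ActI σ m a' L L' (mu * emb x / emb y)
  /-- uniqueness of the class -/
  uniq : ∀ (m a a' : Ideal (OO A B)) (σ : ℂ ≃+* ℂ) (L L' : PeriodPair) (mu mu' : ℂ),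
    m ≠ ⊥ → (∃ (b : Ideal (OO A B)) (om : ℂ), IsNL b L om) → ActI σ m a L L' mu → ActI σ m a' L L' mu' →
    ∃ x y : OO A B, IsCoprime (sp x) m ∧ x ≠ 0 ∧ y ≠ 0 ∧ x - y ∈ m ∧ sp x * a = sp y * a' ∧
      mu' = mu * emb x / emb y
  /-- the automorphisms which are trivial on `RF m` (`L'` must be normalised: this matters for `m = ⊤`) -/
  triv : ∀ (m a : Ideal (OO A B)) (σ : ℂ ≃+* ℂ) (b : Ideal (OO A B)) (L L' : PeriodPair)
    (om mu : ℂ), m ≠ ⊥ → FixK A B σ → IsNL b L om → ActI σ m a L L' mu →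
    L'.g₂ = -18 * L'.g₃ →
    ((∀ y ∈ RF m, σ y = y) ↔ ∃ c : OO A B, c - 1 ∈ m ∧ a = sp c)
  /-- roots of unity -/
  zeta : ∀ (M : ℕ) (m a : Ideal (OO A B)) (σ : ℂ ≃+* ℂ) (b : Ideal (OO A B))
    (L L' : PeriodPair) (om mu : ℂ), m ≠ ⊥ → FixK A B σ → M ≠ 0 → m ≤ idl M →
    IsNL b L om → ActI σ m a L L' mu → ∀ z : ℂ, z ^ M = 1 → z ∈ RF m ∧ σ z = z ^ nI a

end

end Pool.Agent.MUX
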