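import Mathlib
import Pool.Agent.MU3.VCong

/-!
# MUX, block V: the valuation lemmas for the points `ξ(z)`, `z ∈ ℂ`, of any elliptic curve with good
reduction (helper59)

`V` is a valuation ring of `ℂ`, `L` a lattice, `W : y² = x³ + a₂x² + a₄x + a₆` a curve with coefficients in
`V` and discriminant a unit of `V`, `2` a unit of `V`, `ξ : ℂ → W(ℂ)` a homomorphism with kernel `L`,
`ξ(z) = (X z, Y z)`. All this is `GR V W L X Y ξ`. `InK V L X z`: `z` is zero or in the kernel of reduction.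
-/

set_option autoImplicit false

open WeierstrassCurve

namespace Pool.Agent.MUXV

open Pool.Agent.MU3.Val

noncomputable section

/-- good reduction at `V`, with uniformisation -/
structure GR (V : ValuationSubring ℂ) (W : WeierstrassCurve.Affine ℂ) (L : PeriodPair)
    (X Y : ℂ → ℂ) (ξ : ℂ →+ W.Point) : Prop where
  int : IntW V.valuation W
  two : V.valuation 2 = 1
  disc : V.valuation W.Δ = 1
  some : ∀ z ∉ L.lattice, ∃ h, ξ z = Affine.Point.some (X z) (Y z) h
  zero : ∀ z ∈ L.lattice, ξ z = 0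

/-- `z` is zero or in the kernel of reduction -/
def InK (V : ValuationSubring ℂ) (L : PeriodPair) (X : ℂ → ℂ) (z : ℂ) : Prop :=
  z ∈ L.lattice ∨ X z ∉ V

/-- the local parameter `-x/y` -/
def tX (X Y : ℂ → ℂ) (z : ℂ) : ℂ := -(X z / Y z)

section
variable {V : ValuationSubring ℂ} {W : WeierstrassCurve.Affine ℂ} {L : PeriodPair}
  {X Y : ℂ → ℂ} {ξ : ℂ →+ W.Point}

lemma inE_iff (G : GR V W L X Y ξ) (z : ℂ) : InE V.valuation (ξ z) ↔ InK V L X z := by
  by_cases hz : z ∈ L.lattice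
  · rw [G.zero z hz]
    exact ⟨fun _ => Or.inl hz, fun _ => inE_zero⟩
  · obtain ⟨h1, e⟩ := G.some z hz
    rw [e]
    show 1 < V.valuation (X z) ↔ _
    unfold InK
    rw [← not_le, ValuationSubring.valuation_le_one_iff]
    tauto

lemma zc_xi (G : GR V W L X Y ξ) {z : ℂ} (hz : z ∉ L.lattice) : zc (ξ z) = tX X Y z := by
  obtain ⟨h1, e⟩ := G.some z hz
  rw [e]; rfl

lemma int_X {z : ℂ} (h : ¬ InK V L X z) : z ∉ L.lattice ∧ V.valuation (X z) ≤ 1 := by
  unfold InK at h
  push Not at h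
  exact ⟨h.1, (ValuationSubring.valuation_le_one_iff _ _).2 h.2⟩

lemma int_Y (G : GR V W L X Y ξ) {z : ℂ}
    (hz : ¬ InK V L X z) : V.valuation (Y z) ≤ 1 := by
  obtain ⟨h1, h3⟩ := int_X hz
  obtain ⟨h4, e⟩ := G.some z h1
  exact int_y G.int h4 h3

lemma inK_add (G : GR V W L X Y ξ) {z w : ℂ}
    (hz : InK V L X z) (hw : InK V L X w) : InK V L X (z + w) := by
  rw [← inE_iff G] at hz hw ⊢
  rw [map_add]
  exact (add_inE G.int (two_ne G.two) hz hw).1

lemma inK_neg (G : GR V W L X Y ξ) {z : ℂ}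
    (hz : InK V L X z) : InK V L X (-z) := by
  rw [← inE_iff G] at hz ⊢
  rw [map_neg]
  exact inE_neg hz

lemma inK_sub (G : GR V W L X Y ξ) {z w : ℂ}
    (hz : InK V L X z) (hw : InK V L X w) : InK V L X (z - w) := by
  rw [sub_eq_add_neg]
  exact inK_add G hz (inK_neg G hw)

lemma inK_zero : InK V L X 0 := Or.inl (zero_mem _)

lemma inK_of_mem {z : ℂ} (hz : z ∈ L.lattice) : InK V L X z := Or.inl hz

lemma inK_nat (G : GR V W L X Y ξ) {z : ℂ}
    (hz : InK V L X z) (n : ℕ) : InK V L X (n * z) := by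
  induction n with
  | zero => simpa using inK_zero
  | succ n ih =>
    have : ((n + 1 : ℕ) : ℂ) * z = n * z + z := by push_cast; ring
    rw [this]
    exact inK_add G ih hz

lemma inK_int (G : GR V W L X Y ξ) {z : ℂ}
    (hz : InK V L X z) (n : ℤ) : InK V L X (n * z) := by
  obtain ⟨m, rfl | rfl⟩ := n.eq_nat_or_neg
  · simpa using inK_nat G hz m
  · have : ((-(m : ℤ) : ℤ) : ℂ) * z = -(m * z) := by push_cast; ring
    rw [this]
    exact inK_neg G (inK_nat G hz m)

/-- congruence modulo the kernel of reduction -/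
lemma inK_congr (G : GR V W L X Y ξ) {z w : ℂ}
    (hzw : InK V L X (z - w)) : InK V L X z ↔ InK V L X w := by
  constructor
  · intro hz
    have := inK_sub G hz hzw
    rwa [sub_sub_cancel] at this
  · intro hw
    have := inK_add G hzw hw
    rwa [sub_add_cancel] at this

lemma v_tX_lt (G : GR V W L X Y ξ) {z : ℂ}
    (hz : InK V L X z) (hL : z ∉ L.lattice) :
    V.valuation (tX X Y z) < 1 ∧ V.valuation (tX X Y z) ≠ 0 ∧
      V.valuation (X z) * V.valuation (tX X Y z) ^ 2 = 1 := by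
  obtain ⟨h1, e⟩ := G.some z hL
  have h3 := (inE_iff G z).2 hz
  rw [e] at h3
  obtain ⟨-, h4, h5, -, h6⟩ := inE_some G.int h3
  exact ⟨h4, h5, h6⟩

/-- additivity of the parameter to third order -/
lemma v_tX_add (G : GR V W L X Y ξ) {z w : ℂ}
    (hz : InK V L X z) (hw : InK V L X w) (hzL : z ∉ L.lattice) (hwL : w ∉ L.lattice)
    (hzw : z + w ∉ L.lattice) :
    V.valuation (tX X Y (z + w) - tX X Y z - tX X Y w) ≤
      (max (V.valuation (tX X Y z)) (V.valuation (tX X Y w))) ^ 3 := by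
  rw [← inE_iff G] at hz hw
  have h3 := (add_inE G.int (two_ne G.two) hz hw).2
  rwa [← map_add, zc_xi G hzL, zc_xi G hwL, zc_xi G hzw] at h3

/-- the parameter of a multiple -/
lemma v_tX_nat (G : GR V W L X Y ξ) {z : ℂ}
    (hz : InK V L X z) {n : ℕ} (hn : V.valuation (n : ℂ) = 1) (hzL : z ∉ L.lattice)
    (hnL : n * z ∉ L.lattice) :
    V.valuation (tX X Y (n * z)) = V.valuation (tX X Y z) := by
  rw [← inE_iff G] at hz
  have h3 := v_zc_nsmul G.int (two_ne G.two) hz hn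
  rw [← map_nsmul, nsmul_eq_mul] at h3
  rwa [zc_xi G hzL, zc_xi G hnL] at h3

/-- no torsion prime to the residue characteristic in the kernel of reduction -/
lemma mem_of_nat_mul (G : GR V W L X Y ξ) {z : ℂ}
    (hz : InK V L X z) {n : ℕ} (hn : V.valuation (n : ℂ) = 1)
    (hnL : n * z ∈ L.lattice) : z ∈ L.lattice := by
  rw [← inE_iff G] at hz
  by_contra hzL
  have h3 := eq_zero_of_nsmul G.int (two_ne G.two) hz hn (by
    rw [← map_nsmul, nsmul_eq_mul]; exact G.zero _ hnL)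
  obtain ⟨h4, e⟩ := G.some z hzL
  rw [e] at h3
  exact absurd h3 (by simp)

/-- the difference of the `x`-coordinates is a unit -/
lemma v_X_sub (G : GR V W L X Y ξ) {z w : ℂ}
    (hz : ¬ InK V L X z) (hw : ¬ InK V L X w) (hp : ¬ InK V L X (z + w))
    (hm : ¬ InK V L X (z - w)) : V.valuation (X z - X w) = 1 := by
  obtain ⟨h3, e3⟩ := G.some z (int_X hz).1
  obtain ⟨h4, e4⟩ := G.some w (int_X hw).1
  rw [← inE_iff G] at hz hw hp hm
  rw [map_add] at hp
  rw [map_sub] at hm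
  rw [e3] at hz hp hm
  rw [e4] at hw hp hm
  exact v_x_sub G.int G.two G.disc h3 h4 hz hw hp hm

/-- addition of a point in the kernel of reduction -/
lemma near (G : GR V W L X Y ξ) {z w : ℂ}
    (hz : ¬ InK V L X z) (hw : InK V L X w) (hwL : w ∉ L.lattice) :
    ¬ InK V L X (z + w) ∧
    V.valuation (X (z + w) - X z - 2 * Y z * tX X Y w) ≤
      V.valuation (tX X Y w) ^ 2 ∧
    V.valuation (X (z + w) - X z) ≤ V.valuation (tX X Y w) ∧
    V.valuation (Y (z + w) - Y z) ≤ V.valuation (tX X Y w) := by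
  have hzw : ¬ InK V L X (z + w) := by
    rw [inK_congr G (w := z) (by rwa [add_sub_cancel_left])]
    exact hz
  refine ⟨hzw, ?_⟩
  obtain ⟨h3, e3⟩ := G.some z (int_X hz).1
  obtain ⟨h4, e4⟩ := G.some w hwL
  obtain ⟨h5, e5⟩ := G.some (z + w) (int_X hzw).1
  rw [← inE_iff G] at hz hw
  rw [e3] at hz
  rw [e4] at hw
  obtain ⟨x₃, y₃, h₃, e, -, i1, i2, i3⟩ := add_near G.int h3 h4 hz hw
  rw [← e3, ← e4, ← map_add, e5] at e
  obtain ⟨rfl, rfl⟩ : X (z + w) = x₃ ∧ Y (z + w) = y₃ := by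
    simpa using e
  exact ⟨i1, i2, i3⟩

/-- `x` modulo the maximal ideal depends only on the reduction -/
lemma near_lt (G : GR V W L X Y ξ) {z w : ℂ}
    (hz : ¬ InK V L X z) (hw : InK V L X w) :
    V.valuation (X (z + w) - X z) < 1 ∧ V.valuation (Y (z + w) - Y z) < 1 := by
  by_cases hwL : w ∈ L.lattice
  · have h3 := G.zero w hwL
    obtain ⟨h4, e4⟩ := G.some z (int_X hz).1
    have hzw : z + w ∉ L.lattice := fun h5 => (int_X hz).1 (by
      have := sub_mem h5 hwL; rwa [add_sub_cancel_right] at this)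
    obtain ⟨h5, e5⟩ := G.some (z + w) hzw
    rw [map_add, h3, add_zero, e4] at e5
    obtain ⟨e6, e7⟩ : X z = X (z + w) ∧ Y z = Y (z + w) := by simpa using e5
    rw [← e6, ← e7, sub_self, sub_self, map_zero]
    exact ⟨zero_lt_one, zero_lt_one⟩
  · obtain ⟨-, -, h3, h4⟩ := near G hz hw hwL
    have h5 := (v_tX_lt G hw hwL).1
    exact ⟨h3.trans_lt h5, h4.trans_lt h5⟩

end

end

end Pool.Agent.MUXV
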