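import Pool.Agent.MUX.DefsX2
import Pool.Agent.MUX.StU
import Pool.Agent.MUX.VX
import Pool.Agent.MU3.BAll
import Pool.Agent.MU3.StE

/-!
# MUX, block E: a `p`-th power has a small logarithmic derivative (helper66), `p = 2` and `p = 3`

`k` imaginary quadratic, `p = P P̄` split, `V` a valuation ring of `ℂ` above `P`; `v = V.valuation`; `v x ≤ 1` iff `x ∈ V`
(`ValuationSubring.valuation_le_one_iff`), `v x < 1` iff `x ∈ V.nonunits`. `E₁ = {InEn V L _}` (kernel of reduction), `t = tE L`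
the local parameter, `E[m] = {Tor m L _}`. `GX`, `CtxE`, `GalE` collect the facts of the other blocks which are used here; they are proved
there. Every statement is a `def Sxe_X : Prop`; the module proves `theorem te_X (h : ...) : Sxe_X` in
`Pool/Agent/MUX/E_X.lean`, namespace `Pool.Agent.MUXE`. The corresponding files of MU3 are `Pool/Agent/MU3/E_X.lean` (statements
in `Pool/Agent/MU3/StE.lean`).
-/

set_option autoImplicit false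

open WeierstrassCurve Polynomial NumberField IsDedekindDomain

namespace Pool.Agent.MUXE

open _root_.MU3 Pool.Agent.MU3A Pool.Agent.MU3B Pool.Agent.MUX Pool.Agent.MUXU Pool.Agent.RI

noncomputable section

/-! ## Definitions -/

/-- the local parameter `-x/Y`, `Y = (℘' - x)/2` -/
def tE (L : PeriodPair) (z : ℂ) : ℂ := -(xn L z / ((L.derivWeierstrassP z - xn L z) / 2))

/-- good reduction at `V`, in the form used here (from helper77's `VG.lean`; periodicity of `xn L`, `tE L`, `℘'` is clear) -/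
structure GX (V : ValuationSubring ℂ) (L : PeriodPair) : Prop where
  add : ∀ z w, InEn V L z → InEn V L w → InEn V L (z + w)
  neg : ∀ z, InEn V L z → InEn V L (-z)
  par : ∀ z, InEn V L z → z ∉ L.lattice → V.valuation (tE L z) < 1 ∧ V.valuation (tE L z) ≠ 0 ∧
    V.valuation (xn L z) * V.valuation (tE L z) ^ 2 = 1
  tadd : ∀ z w, InEn V L z → InEn V L w → z ∉ L.lattice → w ∉ L.lattice → z + w ∉ L.lattice →
    V.valuation (tE L (z + w) - tE L z - tE L w) ≤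
      (max (V.valuation (tE L z)) (V.valuation (tE L w))) ^ 2
  tneg : ∀ z, InEn V L z → z ∉ L.lattice →
    V.valuation (tE L (-z) + tE L z) ≤ V.valuation (tE L z) ^ 2
  xt : ∀ z, InEn V L z → z ∉ L.lattice →
    V.valuation (xn L z * tE L z ^ 2 - 1) ≤ V.valuation (tE L z)
  tor : ∀ (z : ℂ) (n : ℕ), InEn V L z → V.valuation (n : ℂ) = 1 → n * z ∈ L.lattice →
    z ∈ L.lattice
  sub : ∀ z w, ¬ InEn V L z → ¬ InEn V L w → ¬ InEn V L (z + w) → ¬ InEn V L (z - w) →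
    V.valuation (xn L z - xn L w) = 1
  intD : ∀ z, ¬ InEn V L z → V.valuation (L.derivWeierstrassP z) ≤ 1
  unitD : ∀ z, ¬ InEn V L z → ¬ InEn V L (z + z) → V.valuation (L.derivWeierstrassP z) = 1
  near : ∀ z w, ¬ InEn V L z → InEn V L w → w ∉ L.lattice →
    V.valuation (xn L (z + w) - xn L z - L.derivWeierstrassP z * tE L w) ≤
      V.valuation (tE L w) ^ 2

/-- The ring `O = OO A B` and its embedding in `ℂ`. -/
structure RingE (A B : ℤ) : Prop where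
  hom : ∃ φ : OO A B →+* ℂ, ∀ x, φ x = emb x
  inj0 : ∀ x : OO A B, emb x = 0 → x = 0
  ded : IsDedekindDomain (OO A B)
  pos : ∀ m : Ideal (OO A B), m ≠ ⊥ → ∃ N : ℕ, 0 < N ∧ (N : OO A B) ∈ m
  int : ∀ y : ℂ, y ∈ kk A B → (IsIntegral ℤ y ↔ ∃ x : OO A B, y = emb x)

/-- `L` is a normalised lattice with complex multiplication by `O` -/
def NL (A B : ℤ) (L : PeriodPair) : Prop := ∃ (b : Ideal (OO A B)) (om : ℂ), IsNL b L om

/-- The reduction at `V` of the normalised lattices (blocks XR: helper51; VG, p = 2: helper77). -/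
structure RedE (p : ℕ) {A B : ℤ} (P : Ideal (OO A B)) (V : ValuationSubring ℂ) : Prop where
  gx : ∀ L, NL A B L → GX V L
  vkap : ∀ L, NL A B L → V.valuation (kap L) ≤ 1
  inj : ∀ L L', NL A B L → NL A B L' → V.valuation (kap L - kap L') < 1 → kap L = kap L'
  mul : ∀ L L' mu, NL A B L → NL A B L' → IsQ P L L' mu → V.valuation mu = V.valuation (p : ℂ)
  exq : ∀ L, NL A B L → ∃ L' mu, NL A B L' ∧ IsQ P L L' mu
  x3 : p = 3 → ∀ L L' u u', NL A B L → NL A B L' → Tor P L u → u ∉ L.lattice → Tor P L' u' →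
    u' ∉ L'.lattice → V.valuation (3 * (xn L u - xn L' u')) ≤ V.valuation (tE L u)

/-- The prime `p`, the place `V` and the reduction at `V` of the normalised lattices. -/
structure CtxE (p : ℕ) {A B : ℤ} (P : Ideal (OO A B)) (V : ValuationSubring ℂ) : Prop
    extends RedE p P V where
  ring : RingE A B
  two : p = 2 ∨ p = 3
  prime : P.IsPrime
  mem : (p : OO A B) ∈ P
  norm : nI P = p
  split : (p : OO A B) ∉ P ^ 2
  vp : V.valuation (p : ℂ) < 1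
  vP : ∀ x ∈ P, V.valuation (emb x) < 1

/-- the embedding `σ` of `F ⊇ RF m` acts on `RF m` as the principal ideal `(α)` -/
def ActE {A B : ℤ} {F : IntermediateField (kk A B) ℂ} (σ : F →ₐ[kk A B] ℂ)
    (m : Ideal (OO A B)) (α : OO A B) : Prop :=
  IsCoprime (sp α) m ∧ ∀ L, NL A B L → (∀ h : kap L ∈ F, σ ⟨kap L, h⟩ = kap L) ∧
    ∀ z, Tor m L z → z ∉ L.lattice → emb α * z ∉ L.lattice ∧
      ∀ hx : xn L z ∈ F, σ ⟨xn L z, hx⟩ = xn L (emb α * z)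

/-- The facts on the ray class fields `RF m` (block C). -/
structure GalE (A B : ℤ) : Prop where
  fin : ∀ m : Ideal (OO A B), m ≠ ⊥ → FiniteDimensional (kk A B) (RF m)
  gal : ∀ m : Ideal (OO A B), m ≠ ⊥ → IsGalois (kk A B) (RF m)
  conj : ∀ (m : Ideal (OO A B)), m ≠ ⊥ → ∀ (σ : RF m →ₐ[kk A B] ℂ) (L), NL A B L →
    ∀ h : kap L ∈ RF m, ∃ L', NL A B L' ∧ σ ⟨kap L, h⟩ = kap L'
  ker : ∀ (m m' : Ideal (OO A B)), m ≠ ⊥ → m ≤ m' → ∀ σ : RF m →ₐ[kk A B] ℂ,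
    (∀ (y : ℂ) (hy : y ∈ RF m), y ∈ RF m' → σ ⟨y, hy⟩ = y) →
    ∃ α : OO A B, α - 1 ∈ m' ∧ ActE σ m α
  sur : ∀ (m : Ideal (OO A B)), m ≠ ⊥ → ∀ α : OO A B, IsCoprime (sp α) m →
    ∃ σ : RF m ≃ₐ[kk A B] RF m, ActE (em σ) m α

/-- the weights `c` of the lattices `L_i`: `t_i(μ_i u) = c_i t(u)` up to `t(u)²`, for `u ∈ E[P]` -/
def WtE {A B : ℤ} {n : ℕ} {ι : Type} (V : ValuationSubring ℂ) (P : Ideal (OO A B))
    (R : Reps A B n ι) (c : ι → ℂ) : Prop :=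
  ∀ i, ∀ u, Tor P (R.L R.i0) u → u ∉ (R.L R.i0).lattice →
    V.valuation (tE (R.L i) (muX R i * u) - c i * tE (R.L R.i0) u) ≤
      V.valuation (tE (R.L R.i0) u) ^ 2

/-- `T(τ)` with weights `c` (`TTX` for `c = muX R`) -/
def TTc {A B : ℤ} {n : ℕ} {ι : Type} (R : Reps A B n ι) (c : ι → ℂ) (P : Ideal (OO A B))
    (m a : ℕ) {D : IntermediateField ℚ ℂ} (h : kk A B ≤ D)
    (τ : letI := algC h; D ≃ₐ[kk A B] D) : ℂ :=
  ∑ᶠ q ∈ XX R m h τ, (wP P (Quotient.out q.2) : ℂ) * c q.1 *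
    dlX (R.L q.1) a (pt R m q.1 (Quotient.out q.2))

/-! ## Elementary facts -/

/-- (RNG) the facts on the ring `O` (block C, helper51; for instance from `Pool/Agent/MUX/XRing.lean`).

PROOF. `emb` is an injective ring homomorphism (`XDefs.lean`). `O` is the maximal order: Dedekind. `pos`: `x star(x) = N x`. `int`: integral elements of `k = ℚ(w)`. -/
def Sxe_RNG : Prop := ∀ A B : ℤ, CQ A B → RingE A B

/-- (CTX) from the standing hypotheses `SetP` to `CtxE`.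

PROOF. `P ≠ ⊤` prime, `(p : O) ∈ P` (`IsPN`), `OverI`: `emb x ∈ V.nonunits` iff `x ∈ P` (`V.valuation_lt_one_iff`-type lemma: `x ∈ V.nonunits ↔ V.valuation x < 1`). `two` from `CaseP.split`. `split`: suppose `p ∈ P²`. `O/P` has `p` elements, `O/(p)` has `p²`, so
`P² = (p)` (`Submodule.cardQuot_mul` or `Ideal.absNorm`; or: `P² ⊇ (p)`, `P ⊋ (p)`, take `x ∈ P`, `x ∉ (p)`; then `x² ∈ P²`). Direct: Dedekind, `P ∣ (p)`, `(p) = P J`, `p ∈ P²` means `(p) = P² K`; the norms (`nI` multiplicative, `Ideal.absNorm`) give `nI K = 1`, `(p) = P²`. Let `x = u + v w ∈ P`, `x ∉ (p)`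
(exists as the norms differ). `x² ∈ P² = (p)`: `x² = u² + A v² + (2 u v + B v²) w`, so `p ∣ u² + A v²`, `p ∣ v (2 u + B v)`. If `p ∤ v` then `p ∣ 2 u + B v`, `4 (u² + A v²) ≡ (B² + 4 A) v² ≡ v²` modulo `p` (`p = 3`), contradiction; for `p = 2`, `B = 1` and `v (2 u + v)` is odd, contradiction.
So `p ∣ v`, `p ∣ u`, contradiction. -/
def Sxe_CTX : Prop :=
  ∀ (p : ℕ) (A B : ℤ) (P : Ideal (OO A B)) (V : ValuationSubring ℂ) (f : ℕ),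
    SetP p A B P V f → RingE A B → RedE p P V → CtxE p P V

/-- (GAL) from the main theorem of complex multiplication (`TorX`, block XC) to `GalE`.

PROOF. `RF m / k` is finite and Galois. An embedding `σ : RF m → ℂ` over `k` is an automorphism (`normal`), so it extends to an automorphism `σ'` of `ℂ` (`ext` with `D = RF m` as a field over `ℚ`: `IntermediateField.restrictScalars ℚ`). `act m`: an ideal `a` prime to `m` with `ActI σ' m a L L' μ` for every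
normalised `L`. (conj) `kap L' = σ' (kap L)`. (ker) `m ≤ m'`: `ActI σ' m' a L L' μ` (`Tor m' L z` implies `Tor m L z`), and `triv m'`: `a = sp c`, `c - 1 ∈ m'`. For every normalised `L`: `L' = μ c⁻¹ L` as sets (`IsQ`), so with `λ = μ/c`: `g₂ L' = λ⁻⁴ g₂ L`, `g₃ L' = λ⁻⁶ g₃ L`, both with `g₂ = -18 g₃`, and
`g₂ L ≠ 0` (otherwise `g₃ = 0` too, but the discriminant is not zero): `λ² = 1`, `L'.lattice = L.lattice`, `kap L' = kap L`, `xn L' (μ z) = xn L (emb c z)` (`μ = ± c`, `℘` even). With `ActI.act`: `ActE σ m c` (`PM`; `c z ∈ L` iff `z ∈ L` for `z ∈ E[m]`, `c` prime to `m`).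
(sur) `surj m (sp α)` gives `σ'` with `ActI σ' m (sp α) L L' μ`; it is trivial on `k` and maps `RF m` to itself (`normal`); `ActE` as before. See `Pool/Agent/MUX/XDefs.lean`, `StU.lean` (`Su_DET`, homothetic lattices). -/
def Sxe_GAL : Prop := ∀ A B : ℤ, RingE A B → TorX A B → GalE A B

/-- (PA) the prime `P`, first part.

PROOF. `V.valuation (emb x) ≤ 1`: `emb x` is integral over `ℤ` (`hom`; `x` is integral: `x² - (tr x) x + N x = 0`) and `V` is integrally closed. `O/P` is a field with `p` elements (`norm`), so `x^(p-1) - 1 ∈ P` for `x ∉ P`: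
`v(emb x)^(p-1) = 1` (`vP`), so `v(emb x) = 1`. `p = 2, 3`: the classes modulo `P` are `0`, `1`, `-1` (`O/P` has `p` elements and these are different for `p = 3`). `v p ≠ 0`: `(p : ℂ) ≠ 0`. If a natural number `n` is prime to `p` then
`1 = x n + y p` with integers, so `n ∉ P` and `v n = 1`. Coprime: `P` is maximal (`O/P` finite, `P` prime). -/
def Sxe_PA : Prop :=
  ∀ (p : ℕ) (A B : ℤ) (P : Ideal (OO A B)) (V : ValuationSubring ℂ), CtxE p P V →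
    (∀ x : OO A B, V.valuation (emb x) ≤ 1) ∧
    (∀ x : OO A B, x ∉ P → V.valuation (emb x) = 1 ∧ (x - 1 ∈ P ∨ x + 1 ∈ P)) ∧
    V.valuation (p : ℂ) ≠ 0 ∧ (∀ n : ℕ, ¬ p ∣ n → V.valuation (n : ℂ) = 1 ∧ (n : OO A B) ∉ P) ∧
    P.IsMaximal ∧ (∀ (m : Ideal (OO A B)) (j : ℕ), ¬ m ≤ P → IsCoprime m (P ^ j)) ∧
    ∃ Q : Ideal (OO A B), sp (p : OO A B) = P * Q ∧ Q.IsMaximal ∧ nI Q = p ∧ ¬ Q ≤ P ∧ ¬ P ≤ Q

/-- (PB) integers represent the classes modulo powers of a prime ideal of norm `p`, `p ∉ P²`.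

PROOF. `P` is maximal, `O/P` has `p` elements. Every `x` is congruent to an integer modulo `P` (the `p` integers `0, …, p-1` are incongruent: `P ∩ ℤ = p ℤ`, as `1 ∉ P`). Induction: `x - r ∈ P^j`.
`p^j ∈ P^j`, `p^j ∉ P^(j+1)`: `(p) = P I` with `I` not contained in `P` (`p ∉ P²`), `(p^j) = P^j I^j`; if it were contained in `P^(j+1)` then `I^j ≤ P` (cancel `P^j`), `I ≤ P`. There is no ideal strictly between `P^(j+1)` and `P^j` (Dedekind domain: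
`P^(j+1) < J ≤ P^j`, `J = P^j J'`, `P < J'`, `J' = O`), so `P^j = O p^j + P^(j+1)`; `x - r = y p^j + z`, `z ∈ P^(j+1)`, `y ≡ s ∈ ℤ` modulo `P`, `y p^j ≡ s p^j` modulo `P^(j+1)`. -/
def Sxe_PB : Prop :=
  ∀ (p : ℕ) (A B : ℤ) (P : Ideal (OO A B)), RingE A B → p.Prime → P.IsPrime →
    (p : OO A B) ∈ P → nI P = p → (p : OO A B) ∉ P ^ 2 →
    ∀ (j : ℕ) (x : OO A B), (∃ r : ℤ, x - r ∈ P ^ j) ∧ (p : OO A B) ^ j ∉ P ^ (j + 1)

/-- (PC) the values on `O` and on `k`.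

Uses Sxe_PA. PROOF. Let `x ≠ 0`, `x ∈ P^j`, `x ∉ P^(j+1)` (the intersection of the `P^j` is zero in a Dedekind domain: `Ideal.iInf_pow_eq_bot_of_isDomain` or multiplicity). `(p)^j = P^j Q^j`, `Q^j` is not contained in `P`; take `u ∈ Q^j`, `u ∉ P`:
`x u ∈ P^j Q^j = (p^j)`, `x u = p^j y`. `y ∉ P`: otherwise `x u ∈ P^(j+1)`, and `P^(j+1)` is primary (`x ∉ P^(j+1)`, `u ∉ P`; `Ideal.IsPrime.mem_pow_mul` or `Ideal.Prime` facts in Dedekind domains). So `v(emb x) = v(p)^j` (PA). Every `y ∈ k` is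
`emb x/n` with a positive integer `n`: `k = ℚ(w)`, every element is `s + t w` with rational `s`, `t` (the set of these is a field; or: `y` is algebraic over `ℚ`, so `n y` is integral for some `n > 0`, and use `int`). -/
def Sxe_PC : Prop :=
  ∀ (p : ℕ) (A B : ℤ) (P : Ideal (OO A B)) (V : ValuationSubring ℂ), CtxE p P V →
    (∀ x : OO A B, x ≠ 0 → ∃ j : ℕ, V.valuation (emb x) = V.valuation (p : ℂ) ^ j) ∧
    ∀ y ∈ kk A B, y ≠ 0 → ∃ k : ℤ, V.valuation y = V.valuation (p : ℂ) ^ k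

/-- (TRA) torsion points: formal facts.

PROOF. `L = om emb b` (`IsNL`). Directly from the definition of `Tor` and `hom`; for coprime ideals `1 = x + y`; `sp x = {y x}`; `℘`, `℘'` are periodic, `℘` is even
(`PeriodPair.weierstrassP_add_coe` and so on; see `Pool/Agent/MUX/XDefs.lean` for the first lemmas). -/
def Sxe_TRA : Prop :=
  ∀ (A B : ℤ), RingE A B → ∀ L, NL A B L →
    (∀ (x : OO A B) (z : ℂ), z ∈ L.lattice → emb x * z ∈ L.lattice) ∧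
    (∀ (m : Ideal (OO A B)) (z w : ℂ), Tor m L z → Tor m L w → Tor m L (z + w)) ∧
    (∀ (m : Ideal (OO A B)) (x : OO A B) (z : ℂ), Tor m L z → Tor m L (emb x * z)) ∧
    (∀ (m m' : Ideal (OO A B)) (z : ℂ), IsCoprime m m' → Tor m L z → Tor m' L z →
      z ∈ L.lattice) ∧
    (∀ (x : OO A B) (z : ℂ), Tor (sp x) L z ↔ emb x * z ∈ L.lattice) ∧
    (∀ (m m' : Ideal (OO A B)) (x : OO A B) (z : ℂ), x ∈ m → Tor (m * m') L z →
      Tor m' L (emb x * z)) ∧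
    (∀ (m m' : Ideal (OO A B)) (z : ℂ), (∀ x ∈ m, Tor m' L (emb x * z)) → Tor (m * m') L z) ∧
    (∀ (m : Ideal (OO A B)) (z w : ℂ), z - w ∈ L.lattice → (Tor m L z ↔ Tor m L w)) ∧
    ∀ (z w : ℂ), z - w ∈ L.lattice → (z ∈ L.lattice ↔ w ∈ L.lattice) ∧
      (z ∉ L.lattice → xn L z = xn L w ∧ tE L z = tE L w ∧ xn L (-z) = xn L z)

/-- (TRB) existence of torsion points, and points killed by a maximal ideal.

PROOF. `L = om emb b`. (1) `m' < m` (strictly smaller, not zero). `N ∈ m'` a positive integer (`pos`), `(N) = m' c`. `m c b` is not contained in `m' c b = N b` (cancel), so there are `y ∈ c b`, `x ∈ m` with `x y ∉ N b`. `z = om emb y/N`: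
`m' y ⊆ N b`, so `Tor m' L z`; `emb x z ∉ L`. (2) `Q` maximal, `z, w ∈ E[Q]`, `z ∉ L`. `N ∈ Q` a positive integer; `N z = om emb c₁`, `N w = om emb c₂`, `c₁, c₂ ∈ b`, `c₁ ∉ N b`, `Q c_i ⊆ N b`. `N b = Q K` (`Q` divides `(N)`), `K ≠ 0`.
`J = O c₁ + N b`: `Q J ⊆ Q K`, so `J ≤ K` (cancel), `J = K J'`, `Q K < J` (as `c₁ ∉ N b`), so `Q < J'`, `J' = O`, `J = K`. In the same way `c₂ ∈ K`. So `c₂ = x c₁ + N d`, `d ∈ b`: `w - emb x z = om emb d ∈ L`. -/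
def Sxe_TRB : Prop :=
  ∀ (A B : ℤ), RingE A B → ∀ L, NL A B L →
    (∀ (m m' : Ideal (OO A B)), m' ≠ ⊥ → m' < m → ∃ z, Tor m' L z ∧ ¬ Tor m L z) ∧
    ∀ Q : Ideal (OO A B), Q ≠ ⊥ → Q.IsMaximal → ∀ z w, Tor Q L z → Tor Q L w → z ∉ L.lattice →
      ∃ x : OO A B, w - emb x * z ∈ L.lattice

/-! ## The kernel of reduction -/

/-- (KER) the points of `E[P]`.

Uses Sxe_PA, Sxe_TRA, Sxe_TRB, Su_BAC, Su_PFI. PROOF. `L'`, `μ` from `exq` (`v μ = v p`), `μ L ⊆ L'`, and `μ z ∈ L'` iff `z ∈ E[P]`. `R` representatives of the nonzero classes of `E[P]/L` (BAC). Let `w₁ = ω₁/5`,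
`w₂ = ω₂/5` (`ω_i` the periods of `L`): `w₁`, `w₂`, `w₁ ± w₂ ∉ L`, `5 w_i ∈ L`, `v 5 = 1`; no nonzero point of order 5 is in `E₁` (`tor`), and `μ w ∉ L'`, not in `E₁(L')` for `w = w₁, w₂, w₁ ± w₂`
(`5` and `P` are coprime; `5 μ w ∈ L'`). (PFI) for `w = w₁`, `z = w₂`:
(*) `μ² (x'(μ w₂) - x'(μ w₁)) ∏_(q ∈ R) (x(w₂) - x(q)) = (x(w₂) - x(w₁)) ∏_(q ∈ R) (x(w₂) - x(w₁ + q))`, `x'(μ w₂) - x'(μ w₁)` and `x(w₂) - x(w₁)` are units (`sub`).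
(1) every `q ∈ E[P]` is in `E₁`. Suppose `q₀ ∈ E[P]`, `q₀ ∉ E₁`. By (TRB)(2) for every `q ∈ E[P] ∖ L` there is `x ∈ O` with `q₀ - x q ∈ L`, and `x` may be replaced by an integer `n` (`x - n ∈ P`), so `q ∉ E₁`: no `q ∈ R` is in `E₁`. Then
`w₂ ± (w₁ + q) ∉ E₁` (`5` times it is `≡ ± 5 q`, and `5 q ∈ E₁` would give `q ∈ E₁`, as `p q ∈ L`), so in (*) all factors of the right side are units, and the left side has valuation `≤ v(p)² < 1`. Contradiction.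
(2) So `x(w₁ + q) ≡ x(w₁)` modulo the maximal ideal (`near`), the right side of (*) is a unit, `v(x(w₂) - x(q)) = v(x(q))` (`> 1`). So `v(p)² ∏_(q ∈ R) v(x(q)) = 1`. By (TRB)(2) `E[P]/L` has `p` elements (`0, q, .., (p-1) q`). `p = 2`: one `q`. `p = 3`: `R = {q, q'}`,
`q' ≡ -q`, `v(x(q')) = v(x(q))`. So `v(x(q))^(p-1) = v(p)^(-2)` and with `par`: `v(t(q))^(2(p-1)) = v(p)²`, `v(t(q))^(p-1) = v(p)`. For `z ∈ E[P] ∖ L`: `z ≡ q` for some `q ∈ R`. (`tor`, `near` need `q ∉ L`.) -/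
def Sxe_KER : Prop :=
  ∀ (p : ℕ) (A B : ℤ) (P : Ideal (OO A B)) (V : ValuationSubring ℂ), CtxE p P V →
    ∀ L, NL A B L → ∀ z, Tor P L z → z ∉ L.lattice →
      InEn V L z ∧ V.valuation (tE L z) ^ (p - 1) = V.valuation (p : ℂ)

/-- (COP) torsion of order prime to `P` is not in the kernel of reduction.

Uses Sxe_PA, Sxe_PB, Sxe_TRA, Sxe_TRB, Sxe_KER, Su_BAC, Su_PFI. PROOF. (1) The case `m = Q`, where `(p) = P Q` (`Q` is prime to `P`: `split`; `Q` is a prime ideal of norm `p`). Suppose `y ∈ E[Q] ∖ L`, `y ∈ E₁`. By (TRB)(2) every element of `E[Q]` is `≡ n y`, `n ∈ ℤ` (`O/Q` has `p` elements), so all of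
`E[Q]` is in `E₁`, and `E[p] = E[P] + E[Q]` (`1 = x + y`) is in `E₁` (KER). (PFI) for `L`, `L`, `μ = p`, `R` representatives of the nonzero classes of `E[p]`, `w = w₁`, `z = w₂` as in (KER) (`w_i` of order 5): all factors
`x(w₂) - x(w₁ + q) ≡ x(w₂) - x(w₁)` are units, `x(p w₂) - x(p w₁)` is a unit: `v(p)² ∏_(q ∈ R) v(x(q)) = 1`. But the `p - 1` elements of `R` in `E[P]` contribute `∏ v(x(q)) = v(p)^(-2)` (KER), and there are others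
(`y ≡ q`, `q ∉ E[P]`), for which `v(x(q)) > 1`. Contradiction. (2) General `m`: let `z ∈ E[m] ∩ E₁`, `z ∉ L`. Let `N ∈ m` be a positive integer (`pos`), `N = p^s N₁`, `p ∤ N₁`. `z₁ = N₁ z ∈ E₁`, `z₁ ∉ L` (`tor`: `v N₁ = 1`), `p^s z₁ ∈ L`, `z₁ ∈ E[m]`. Let `i` be the largest number with `y = p^i z₁ ∉ L`:
`p y ∈ L`, `y ∈ E[m] ∩ E₁`. `y ∈ E[Q]`: let `g ∈ Q`, `1 = u + v`, `u ∈ m`, `v ∈ P` (coprime, PA): `g y = g u y + g v y`, `u y ∈ L`, `g v ∈ P Q = (p)`, so `g y ∈ L`. This is against (1). -/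
def Sxe_COP : Prop :=
  ∀ (p : ℕ) (A B : ℤ) (P : Ideal (OO A B)) (V : ValuationSubring ℂ), CtxE p P V →
    ∀ L, NL A B L → ∀ m : Ideal (OO A B), m ≠ ⊥ → ¬ m ≤ P → ∀ z, Tor m L z → InEn V L z →
      z ∈ L.lattice

/-- (TP) the parameter of a point of exact order `P^(j+1)`.

Uses Sxe_PA, Sxe_TRA, Sxe_TRB, Sxe_KER, Su_BAC, Su_PFI. PROOF. Induction on `j`, for all `L`; `j = 0` is (KER). Step: `z ∈ E[P^(j+2)]`, `z ∉ E[P^(j+1)]`. `L'`, `μ` from `exq`, `R` as in (KER), `w₁ = ω₁/5` (`w₁ ∉ E₁`, `μ w₁ ∉ E₁(L')`, see (KER)). `z' = μ z`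
satisfies `Tor (P^(j+1)) L' z'`, not `Tor (P^j) L' z'` (`IsQ`). (PFI) with `w = w₁`:
(*) `μ² (x'(z') - x'(μ w₁)) ∏_(q ∈ R) (x(z) - x(q)) = (x(z) - x(w₁)) ∏_(q ∈ R) (x(z) - x(w₁ + q))`; by induction `z' ∈ E₁(L')`, `v(t'(z'))^((p-1) p^j) = v p`. `w₁ + q ∉ E₁` (`q ∈ E₁`). Let `T = v(x(q))` (`q ∈ R`, `T^(p-1) = v(p)^(-2)`),
`Y = v(x'(z')) > 1`, `Y^((p-1) p^j) = v(p)^(-2)`, so `Y ≤ T`. If `z ∉ E₁`: the left side has valuation `v(p)² Y T^(p-1) = Y > 1`, the right side `≤ 1`. So `z ∈ E₁`; let `X = v(x(z)) > 1`; the right side has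
valuation `X^p`. If `X > T`: `v(p)² Y X^(p-1) = X^p`, `X = v(p)² Y < Y ≤ T`. If `X = T`: `X^p ≤ v(p)² Y T^(p-1) = Y ≤ T`, but `T^p > T`. So `X < T`, `X^p = v(p)² Y T^(p-1) = Y`, so `v(t(z))^p = v(t'(z'))` (squares), and
`v(t(z))^((p-1) p^(j+1)) = v p`. -/
def Sxe_TP : Prop :=
  ∀ (p : ℕ) (A B : ℤ) (P : Ideal (OO A B)) (V : ValuationSubring ℂ), CtxE p P V →
    ∀ (j : ℕ) (L : PeriodPair), NL A B L → ∀ z, Tor (P ^ (j + 1)) L z → ¬ Tor (P ^ j) L z →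
      InEn V L z ∧ z ∉ L.lattice ∧
        V.valuation (tE L z) ^ ((p - 1) * p ^ j) = V.valuation (p : ℂ)

/-! ## The fields -/

/-- (FAC) formal properties of the fields.

Uses Sxe_TRA. PROOF. (1) `m ≤ m'`: `E[m'] ⊆ E[m]` and adjoin is monotone. (2) the generators. (3) two embeddings with the same `α` agree on the generators. (4) `σ` fixes the generators of `RF m'`:
`α z - z ∈ L` for `z ∈ E[m']`. (5) `α - β ∈ m` or `α + β ∈ m`: `xn L (emb α z) = xn L (emb β z)`. -/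
def Sxe_FAC : Prop :=
  ∀ (A B : ℤ), RingE A B →
    (∀ m m' : Ideal (OO A B), m ≤ m' → RF m' ≤ RF m) ∧
    (∀ (m : Ideal (OO A B)) (L), NL A B L → kap L ∈ RF m ∧
      ∀ z, Tor m L z → z ∉ L.lattice → xn L z ∈ RF m) ∧
    (∀ (m : Ideal (OO A B)) (σ τ : RF m →ₐ[kk A B] ℂ) (α : OO A B), ActE σ m α → ActE τ m α →
      σ = τ) ∧
    (∀ (m m' : Ideal (OO A B)) (_ : m ≤ m') (σ : RF m →ₐ[kk A B] ℂ) (α : OO A B), ActE σ m α →
      α - 1 ∈ m' → ∀ (y : ℂ) (hy : y ∈ RF m), y ∈ RF m' → σ ⟨y, hy⟩ = y) ∧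
    ∀ (m : Ideal (OO A B)) (F : IntermediateField (kk A B) ℂ) (σ : F →ₐ[kk A B] ℂ)
      (α β : OO A B), (α - β ∈ m ∨ α + β ∈ m) → ActE σ m α → ActE σ m β

/-- (DEG) the degree of `F_(P^j m')` over `F_(m')`.

Uses Sxe_PA, Sxe_PB, Sxe_FAC, GalE. PROOF. `m = P^j m'`, `F = RF m`. The restriction homomorphism `Gal(F/k) → Gal(RF m'/k)` (`AlgEquiv.restrictNormalHom`, or embeddings into `ℂ` as in `Pool/Agent/MU3/E_DEG.lean`) has a kernel with at most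
`(p - 1) p^(j-1)` elements: `σ` in the kernel acts as some `α` with `α - 1 ∈ m'` (`ker`), `α ∉ P` (coprime to `m`, `j ≥ 1`); by (PB) `α ≡ r` modulo `P^j` with an integer `r` prime to `p`, and if two of them have `r ≡ r'` modulo `p^j` then
`α - α' ∈ P^j ∩ m' = m` (coprime), so the automorphisms agree (FAC). So there are at most `φ(p^j)`. -/
def Sxe_DEG : Prop :=
  ∀ (p : ℕ) (A B : ℤ) (P : Ideal (OO A B)) (V : ValuationSubring ℂ), CtxE p P V → GalE A B →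
    ∀ (j : ℕ) (m' : Ideal (OO A B)), 1 ≤ j → m' ≠ ⊥ → ¬ m' ≤ P →
      Module.finrank (kk A B) (RF (P ^ j * m')) ≤
        ((p - 1) * p ^ (j - 1)) * Module.finrank (kk A B) (RF m')

/-- (RAM) a finite Galois extension `F / k` with trivial inertia group at `V` is unramified.

Uses Sxe_PA, Sxe_PC. PROOF. `Pool/Agent/MU3/E_RAM.lean`; there `P` is principal. Here: `w = {x ∈ 𝓞 F : v x < 1}`, `w ∩ 𝓞 k = {emb x : x ∈ P}` (`int`, PA). In `RAM.unram` replace the hypothesis `hspan` by: `p ∈ w ∩ 𝓞 k` and `p ∉ (w ∩ 𝓞 k)²`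
(`split`), i.e. `v.intValuation p = exp (-1)` for the height one prime `w ∩ 𝓞 k`; the conclusion is `w.valuation F p = exp (-1)`. The rest (`pow_unif`) is the same. -/
def Sxe_RAM : Prop :=
  ∀ (p : ℕ) (A B : ℤ) (P : Ideal (OO A B)) (V : ValuationSubring ℂ), CtxE p P V →
    ∀ (F : IntermediateField (kk A B) ℂ) [FiniteDimensional (kk A B) F] [IsGalois (kk A B) F],
      (∀ σ : F ≃ₐ[kk A B] F, (∀ x : F, V.valuation (x : ℂ) ≤ 1 →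
        V.valuation ((σ x : ℂ) - x) < 1) → σ = 1) →
      ∀ y ∈ F, y ≠ 0 → ∃ k : ℤ, V.valuation y = V.valuation (p : ℂ) ^ k

/-- (UNR) `F_(m') / k` is unramified at `V` if `m'` is prime to `P`.

Uses Sxe_RAM, Sxe_COP, Sxe_TRA, Sxe_FAC, GalE. PROOF. Let `σ` satisfy `v(σ x - x) < 1` for all `x ∈ F_(m') ∩ V` (RAM). `v(kap L) ≤ 1` (`vkap`), `σ(kap L) = kap L'` (`conj`),
`v(kap L' - kap L) < 1`, so `kap L' = kap L` (`inj`): `σ` fixes all `kap L`, so it fixes `RF ⊤` (`Tor ⊤ L z` means `z ∈ L`). `ker` with `m' := ⊤`: `ActE (em σ) m' α`. Let `L` be given and `z ∈ E[m'] ∖ L`; `α z ∈ E[m'] ∖ L`; both are not in `E₁` (COP), so `x z`, `x(α z) ∈ V` and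
`v(x(α z) - x z) < 1`; by `sub` `α z - z` or `α z + z` is in `E₁`, so in `L` (COP). The group `E[m']` is the union of the subgroups `{(α - 1) z ∈ L}` and `{(α + 1) z ∈ L}`, so it is one of them. Hence `x(α z) = x z` for all `z ∈ E[m'] ∖ L`, and `σ` fixes the generators: `σ = 1`. -/
def Sxe_UNR : Prop :=
  ∀ (p : ℕ) (A B : ℤ) (P : Ideal (OO A B)) (V : ValuationSubring ℂ), CtxE p P V → GalE A B →
    ∀ m' : Ideal (OO A B), m' ≠ ⊥ → ¬ m' ≤ P →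
      ∀ y ∈ RF m', y ≠ 0 → ∃ k : ℤ, V.valuation y = V.valuation (p : ℂ) ^ k

/-- (SIG) an automorphism which is close to the identity.

Uses Se_BAS (`Pool.Agent.MU3X.e_BAS`, `Pool/Agent/MU3/StE.lean`), Sxe_DEG, Sxe_TP, Sxe_COP, Sxe_UNR, Sxe_PA, Sxe_TRA, Sxe_TRB, Sxe_KER, Sxe_FAC, GalE. PROOF. `m = P^(n+1) m'`, `γ ∈ P^n m'`, `c = 1 + γ`. `c` is prime to `m` (`n ≥ 1`): `σ` with `ActE (em σ) m c` (`sur`). Let `L` be a normalised lattice (it exists: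
hypothesis). `P₀ = ω₁/a` (`a ≥ 3`, `m' ≤ (a)`): `P₀ ∈ E[m']`, `2 P₀ ∉ L`, so `P₀`, `2 P₀ ∉ E₁` (COP). `P₁ ∈ E[P^(n+1)]`, `P₁ ∉ E[P^n]` (TRB), `v(t P₁)^((p-1) p^n) = v p` (TP). `π := x(P₀ + P₁) - x(P₀) ∈ RF m` (`P₀ + P₁ ∉ E₁`, so not in `L`),
`v(π - ℘'(P₀) t(P₁)) ≤ v(t P₁)²` (`near`), `v(℘'(P₀)) = 1` (`unitD`): `v π = v(t P₁)`. `σ` fixes `RF m'` (FAC; `γ ∈ m'`). `σ(x(P₀)) = x(P₀)`, `σ(x(P₀ + P₁)) = x(P₀ + P₁ + γ P₀ + γ P₁)`, `γ P₀ ∈ L`, `R = γ P₁ ∈ E[P]` (TRA). If `R ∈ L` then `σ π = π`; otherwise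
`v(σ π - π) ≤ v(t R)` (`near`, `intD`) and `v(t R)^(p-1) = v p` (KER). Let `r = v(t R₀)` for some `R₀ ∈ E[P] ∖ L`: `r^(p-1) = v p`, `v(σ π - π) ≤ r ≤ 1` (`v(t R) = r`: same power). (BAS) with `K = kk A B`, `E = ℂ`, `M₀ = RF m'`, `M = RF m`,
`N = (p - 1) p^n` (DEG with `j = n + 1`), `p`, (UNR): `v(σ w - w) ≤ r`. -/
def Sxe_SIG : Prop :=
  ∀ (p : ℕ) (A B : ℤ) (P : Ideal (OO A B)) (V : ValuationSubring ℂ), CtxE p P V → GalE A B →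
    (∃ L, NL A B L) →
    ∀ (n : ℕ) (m' : Ideal (OO A B)) (a : ℕ), 1 ≤ n → m' ≠ ⊥ → ¬ m' ≤ P → 3 ≤ a →
      m' ≤ sp (a : OO A B) → ∀ γ ∈ P ^ n * m',
    ∃ σ : RF (P ^ (n + 1) * m') ≃ₐ[kk A B] RF (P ^ (n + 1) * m'),
      ActE (em σ) (P ^ (n + 1) * m') (1 + γ) ∧
      ∀ w : RF (P ^ (n + 1) * m'), V.valuation (w : ℂ) ≤ 1 →
        V.valuation ((σ w : ℂ) - w) ^ (p - 1) ≤ V.valuation (p : ℂ)

/-! ## The functions `Θ_a` -/

/-- (NE1) the points that occur are not in the kernel of reduction.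

Uses Sxe_PA, Sxe_TRA. PROOF. `m = p^e m₁` is the exact order of `z`. For `q` with `a q ∈ L` suppose `z + q ∈ E₁`. `z' = p^e (z + q) ∈ E₁` and `m₁ a z' ∈ L`,
`v(m₁ a) = 1`, so `z' ∈ L` (`tor`) and `a p^e z ∈ L`, `m ∣ a p^e`, `m₁ ∣ a`, `m₁ = 1` (coprime), contradiction. Apply it to `q`, `-q`, `0`. If `q ∈ E₁`, `a q ∈ L` then `q ∈ L`. `a z ∈ L` gives `m ∣ a`, `m₁ ∣ a` again. -/
def Sxe_NE1 : Prop :=
  ∀ (p : ℕ) (A B : ℤ) (P : Ideal (OO A B)) (V : ValuationSubring ℂ), CtxE p P V →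
    ∀ L, NL A B L → ∀ (e m₁ a : ℕ), 2 ≤ m₁ → ¬ p ∣ m₁ → ¬ p ∣ a → a.Coprime m₁ →
      ∀ z : ℂ, ((p ^ e * m₁ : ℕ) : ℂ) * z ∈ L.lattice →
        (∀ c : ℕ, (c : ℂ) * z ∈ L.lattice → p ^ e * m₁ ∣ c) →
        ¬ InEn V L z ∧ (a : ℂ) * z ∉ L.lattice ∧
        ∀ q : ℂ, (a : ℂ) * q ∈ L.lattice → q ∉ L.lattice →
          ¬ InEn V L q ∧ ¬ InEn V L (z + q) ∧ ¬ InEn V L (z - q)

/-- (THE) expansion of `Θ_a` near `z`.

Uses St_TDL (`Pool.Agent.MU3B.b_TDL`), Se_PRD (`Pool.Agent.MU3X.e_PRD`). PROOF. `Pool/Agent/MU3/E_THE.lean`: `℘ z - ℘ q = x z - x q` is a unit (`sub`), so `v(Θ z) = 1`. `d_q = x(z + R) - x q`, `c_q = x z - x q`, `l_q = ℘' z/c_q`, `v(l_q) ≤ 1` (`intD`):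
`v(d_q - c_q (1 + t l_q)) ≤ v(t)²` (`near`). Product over `q ∈ H` (PRD with `g = 1`); `Σ l_q = dlX L a z` (TDL). -/
def Sxe_THE : Prop :=
  ∀ (A B : ℤ) (V : ValuationSubring ℂ) (L : PeriodPair), GX V L →
    ∀ (a : ℕ) (H : Finset ℂ), a ≠ 0 → IsHalf L (a : ℂ) H → ∀ z : ℂ, ¬ InEn V L z →
      (a : ℂ) * z ∉ L.lattice →
      (∀ q ∈ H, ¬ InEn V L q ∧ ¬ InEn V L (z + q) ∧ ¬ InEn V L (z - q)) →
      V.valuation (ThetaH L H z) = 1 ∧ V.valuation (dlX L a z) ≤ 1 ∧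
      ∀ R, InEn V L R → R ∉ L.lattice →
        V.valuation (ThetaH L H (z + R) - ThetaH L H z * (1 + tE L R * dlX L a z)) ≤
          V.valuation (tE L R) ^ 2

/-- (GTH) the Galois action on `Θ_a(z)`.

Uses Sxe_TRA, Sxe_FAC. PROOF. `F = RF m`; every `q ∈ E[a]` is in `E[m]` (`m ≤ (a)`). `ThetaH L H z = ∏ (x z - x q)`, `x z, x q ∈ F`; `σ(x q) = x(c q) = x(q)` since `c - 1 ∈ (a)`; `σ(x z) = x(c z)`. -/
def Sxe_GTH : Prop :=
  ∀ (A B : ℤ), RingE A B → ∀ L, NL A B L → ∀ (a : ℕ) (H : Finset ℂ), IsHalf L (a : ℂ) H → ∀ m : Ideal (OO A B),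
      m ≤ sp (a : OO A B) → ∀ (σ : RF m ≃ₐ[kk A B] RF m) (c : OO A B), ActE (em σ) m c →
        c - 1 ∈ sp (a : OO A B) → ∀ z, Tor m L z → z ∉ L.lattice →
        ∃ hz : ThetaH L H z ∈ RF m, (σ ⟨ThetaH L H z, hz⟩ : ℂ) = ThetaH L H (emb c * z)

/-! ## The points of level `m` -/

/-- (PT) the points `pt R m i x` and the factors `μ_i = om_i N(b_i)/om_0`.

Uses Sxe_TRA. PROOF. `pt R m i x = om_i N(b_i) emb x/m = μ_i emb x (om_0/m)`. `N(b_i) ∈ b_i` and `(N(b_i)) = b_i cjI(b_i)`; `cjI (b_i)` is prime to every ideal which contains a power of `n` (`cop`: its norm is prime to `n`). `L_0 = om_0 emb O` (`b0`).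
(1) `μ_i L_0 ⊆ L_i`. (2) `m z = om_i N(b_i) emb x ∈ L_i`. (3) `c z ∈ L_i` iff `c N(b_i) x ∈ m b_i` iff `c x cjI(b_i) ⊆ (m)` (cancel `b_i`) iff `m ∣ c x` (`cjI b_i + (m) = O`: `m ∣ n^∞`, precisely every prime dividing `m` divides `n`) iff
`m ∣ c` (`x` is prime to `m`). (4) `u ∈ E[I](L_0)`, `I` an ideal containing a natural number `r` all of whose prime factors divide `n`: `μ_i u ∈ E[I](L_i)` by (1), and `μ_i u ∈ L_i` implies `u ∈ L_0`: `u = om_0 y`, `N(b_i) y ∈ emb b_i`, so `y cjI(b_i) ⊆ O`, and `r y ∈ O`; `cjI(b_i) + (r) = O`. -/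
def Sxe_PT : Prop :=
  ∀ (A B : ℤ), RingE A B → ∀ (n : ℕ) (ι : Type) (R : Reps A B n ι), n ≠ 0 → ∀ i : ι,
    muX R i ≠ 0 ∧
    (∀ u ∈ (R.L R.i0).lattice, muX R i * u ∈ (R.L i).lattice) ∧
    (∀ (r : ℕ), r ≠ 0 → r.primeFactors ⊆ n.primeFactors → ∀ u, (r : ℂ) * u ∈ (R.L R.i0).lattice →
      muX R i * u ∈ (R.L i).lattice → u ∈ (R.L R.i0).lattice) ∧
    ∀ (m : ℕ), m ≠ 0 → m.primeFactors ⊆ n.primeFactors → ∀ x : OO A B,
      pt R m i x = muX R i * (emb x * (R.om R.i0 / m)) ∧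
      (m : ℂ) * pt R m i x ∈ (R.L i).lattice ∧
      (IsCoprime x (m : OO A B) → ∀ c : ℕ, (c : ℂ) * pt R m i x ∈ (R.L i).lattice → m ∣ c) ∧
      ∀ x' : OO A B, emb x' * (R.om R.i0 / m) ∈ (R.L R.i0).lattice ↔ (m : OO A B) ∣ x'

/-- (GAM) the ideal `M'` and the element `γ`.

Uses Sxe_PA. PROOF. `(p) = P Q` (PA). `M' = Q^(n+1) (m₁ a)`: `(p^(n+1) m₁ a) = P^(n+1) M'`; `M'` is not contained in `P` (`Q`, `m₁`, `a` are not). `P^n M'` is not contained in `P^(n+1)` (cancel `P^n`): `γ ∈ P^n M'`, `γ ∉ P^(n+1)`, so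
`γ ∉ (p^(n+1) m₁) ≤ P^(n+1)`. `P γ ⊆ P^(n+1) M'`. `γ ∈ M' ≤ (a)`. -/
def Sxe_GAM : Prop :=
  ∀ (p : ℕ) (A B : ℤ) (P : Ideal (OO A B)) (V : ValuationSubring ℂ), CtxE p P V →
    ∀ (n m₁ a : ℕ), m₁ ≠ 0 → a ≠ 0 → ¬ p ∣ m₁ → ¬ p ∣ a →
      ∃ (M' : Ideal (OO A B)) (γ : OO A B),
        sp ((p ^ (n + 1) * m₁ * a : ℕ) : OO A B) = P ^ (n + 1) * M' ∧ M' ≠ ⊥ ∧ ¬ M' ≤ P ∧
        M' ≤ sp (a : OO A B) ∧ γ ∈ P ^ n * M' ∧ γ ∈ M' ∧
        γ ∉ sp ((p ^ (n + 1) * m₁ : ℕ) : OO A B) ∧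
        ∀ x ∈ P, x * γ ∈ sp ((p ^ (n + 1) * m₁ * a : ℕ) : OO A B)

/-- (WI) the parameters of the points of `E[P]` on the lattices `L_i` agree up to a sign.

Uses Sxe_PA, Sxe_KER, Sxe_PT, Sxe_TRA, Sxe_TRB. PROOF. `u' = μ_i u ∈ E[P](L_i) ∖ L_i` (PT with `r = p`). `p = 2`: `2 u ∈ L_0` (`2 ∈ P`), so `℘'(u) = 0` (`℘'` is odd and periodic) and `tE L_0 u = 2` (`xn L_0 u ≠ 0` as `u ∈ E₁`, KER), and the same for `u'`: `w_i = 1`. `p = 3`: let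
`t = tE L_0 u`, `t' = tE L_i u'`, `v t = v t' = τ`, `τ² = v 3` (KER). `x t² = 1 + O(τ)`, `x' t'² = 1 + O(τ)` (`xt`), `3 (x - x') = O(τ)` (`x3`) and `v(3 x) = 1`: `(t'/t)² = 1 + O(τ)`. `v 2 = 1`: `(r - 1)(r + 1) = O(τ)`, and `r - 1`, `r + 1` are not both in the maximal
ideal, so `r = ± 1 + O(τ)`: `v(t' ∓ t) ≤ τ²`. The sign does not depend on `u`: the other elements of `E[P] ∖ L_0` are `≡ ± u` (TRB (2), PA), and `t(-u) = -t(u) + O(τ²)`. -/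
def Sxe_WI : Prop :=
  ∀ (p : ℕ) (A B : ℤ) (P : Ideal (OO A B)) (V : ValuationSubring ℂ), CtxE p P V →
    ∀ (n : ℕ) (ι : Type) (R : Reps A B n ι), n ≠ 0 → p ∣ n →
      ∃ w : ι → ℤ, (∀ i, w i = 1 ∨ w i = -1) ∧ WtE V P R (fun i => (w i : ℂ))

/-- (MUV) the multipliers `μ_i` are units.

Uses Sxe_PA, Sxe_KER, Sxe_PT, Sxe_TRA, Sxe_TRB, Su_BAC, Su_PFI. PROOF. Let `u ∈ E[P](L_0) ∖ L_0` (TRB). `u' = μ_i u ∈ E[P](L_i) ∖ L_i` (PT with `r = p`). `N = nI (b_i)` is prime to `p`; `μ_i z ∈ L_i` implies `N z ∈ L_0` (`L_i = om_i emb b_i`). Choose a prime number `ℓ` not dividing `2 p N`, `w = ω₁/ℓ`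
(`ω₁` the period of `L_0`). `w ∉ E₁` (`tor`), `μ_i w ∉ L_i` (`N w ∉ L_0`) and `ℓ μ_i w ∈ L_i`, so `μ_i w ∉ E₁(L_i)`. Kernel points `q` (`N q ∈ L_0`), `q ∉ L_0`: `q ∉ E₁`, `w + q ∉ E₁` (`N (w + q) ∈ E₁` is `≡ N w`, killed by `ℓ`). (PFI) with `z = u`:
`μ_i² (x_i(u') - x_i(μ_i w)) ∏_(q ∈ R) (x(u) - x(q)) = (x(u) - x(w)) ∏_(q ∈ R) (x(u) - x(w + q))`. `v(x(u)) = T > 1`, `T = v(t(u))^(-2)`, and `v(x_i(u')) = T` (KER: `v(t)^(p-1) = v p` for both). So `v(μ_i)² T^(r+1) = T^(r+1)`. -/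
def Sxe_MUV : Prop :=
  ∀ (p : ℕ) (A B : ℤ) (P : Ideal (OO A B)) (V : ValuationSubring ℂ), CtxE p P V →
    ∀ (n : ℕ) (ι : Type) (R : Reps A B n ι), n ≠ 0 → p ∣ n → ∀ i, V.valuation (muX R i) = 1

/-! ## The result -/

/-- (ONE) Lemma E, for products over arbitrary finite families of points `(i, x)`.

Uses Sxe_PA, Sxe_TRA, Sxe_KER, Sxe_FAC, Sxe_SIG, Sxe_NE1, Sxe_THE, Sxe_GTH, Sxe_PT, Sxe_GAM, Se_PRD (`Pool.Agent.MU3X.e_PRD`). PROOF. As in `Pool/Agent/MU3/E_ONE.lean`. `m = p^e m₁`, `e = n + 1`, `μ_i = om_i N(b_i)/om_0`. `M'`, `γ` from (GAM); `M = (m a) = P^e M'`. `R₀ := γ om_0/m`: `Tor P L_0 R₀`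
(`x γ ∈ (m a)` for `x ∈ P`), `R₀ ∉ L_0` (`m ∤ γ`), so `v(t_0 R₀)^(p-1) = v p` (KER). Let `t₀ = t_0(R₀)`, `τ = v(t₀)`. For `x` prime to `m`, `z = pt R m i x` (PT): `m z ∈ L_i`, exact order `m`, so (NE1) applies. `γ z = μ_i emb x R₀ ≡ μ_i w R₀` modulo `L_i`, `w = wP P x = ± 1`
(`(x - w) R₀ ∈ L_0`). `μ_i R₀ ∈ E[P](L_i) ∖ L_i` (PT): `v(t_i(μ_i R₀)) = τ` (KER). `t_i(γ z) = w t_i(μ_i R₀) + O(τ²)` (`tneg`) `= w c_i t₀ + O(τ²)` (`hc`), and `v(c_i) ≤ 1`. `σ` from (SIG): (GTH) `σ(Θ z) = Θ(z + γ z)` (`z ∈ E[M]`, `c = 1 + γ`, `γ ∈ (a)`), (THE): `= Θ(z)(1 + t_i(γ z) dl(z)) + O(τ²) = Θ(z)(1 + t₀ w c_i dl(z)) + O(τ²)`.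
(PRD) with `g = 1`, then with `g`: `C = ∏ ..`: `σ C = C (1 + t₀ S) + O(τ²)`, `v C = 1`, `v S ≤ 1`. `C = w^p`, `w ∈ RF (m) ≤ RF M` (FAC); `v w = 1`, `δ = σ w - w`, `v(δ)^(p-1) ≤ v p`, so `v δ ≤ τ`. `(w + δ)^p - w^p = δ^p + p(..) δ`: valuation `≤ max(τ^p, τ^(p-1) τ) = τ^p ≤ τ²`. So `v(C t₀ S) ≤ τ²`, `v S ≤ τ`, `v(S)^(p-1) ≤ v p`. -/
def Sxe_ONE : Prop :=
  ∀ (p : ℕ) (A B : ℤ) (P : Ideal (OO A B)) (V : ValuationSubring ℂ), CtxE p P V → GalE A B →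
    ∀ (n₀ : ℕ) (ι : Type) (R : Reps A B n₀ ι) (e m₁ a : ℕ), 2 ≤ e → 2 ≤ m₁ → ¬ p ∣ m₁ → 3 ≤ a →
      ¬ p ∣ a → a.Coprime m₁ → n₀ ≠ 0 → p * m₁ ∣ n₀ →
    ∀ (H : ι → Finset ℂ), (∀ i, IsHalf (R.L i) (a : ℂ) (H i)) →
    ∀ (c : ι → ℂ), WtE V P R c →
    ∀ (J : Type) [Fintype J] (X : J → Finset (ι × OO A B)) (g : J → ℤ),
      (∀ j, ∀ y ∈ X j, IsCoprime y.2 ((p ^ e * m₁ : ℕ) : OO A B)) →
      (∃ w ∈ RF (sp ((p ^ e * m₁ : ℕ) : OO A B)), w ^ p =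
        ∏ j, (∏ y ∈ X j, ThetaH (R.L y.1) (H y.1) (pt R (p ^ e * m₁) y.1 y.2)) ^ g j) →
      V.valuation (∑ j, (g j : ℂ) * ∑ y ∈ X j, (wP P y.2 : ℂ) * c y.1 *
        dlX (R.L y.1) a (pt R (p ^ e * m₁) y.1 y.2)) ^ (p - 1) ≤ V.valuation (p : ℂ)

/-- (MAIN) Lemma E. Hypotheses on `cX` (block W): `c = cX .. 1 ∈ D` and `τ c = cX .. τ`.

Uses Sxe_ONE, Sxe_CTX, Sxe_GAL. PROOF. As `Pool/Agent/MU3/E_MAIN.lean`, `E_FIN.lean`. -/
def Sxe_MAIN : Prop :=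
  ∀ (p : ℕ) (A B : ℤ) (P : Ideal (OO A B)) (V : ValuationSubring ℂ) (f : ℕ),
    SetP p A B P V f → RingE A B → RedE p P V → TorX A B →
    ∀ (ι : Type) [Fintype ι] (R : Reps A B (p * f) ι) (n : ℕ), 1 ≤ n →
    ∀ (H : ι → Finset ℂ), (∀ i, IsHalf (R.L i) (aX p f : ℂ) (H i)) →
    ∀ c : ι → ℂ, WtE V P R c →
    ∀ (D : IntermediateField ℚ ℂ) (h : kk A B ≤ D),
      (∀ y ∈ D, y ∈ RF (idl (A := A) (B := B) (lvX p f n))) →
    letI := algC h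
    (∀ τ : D ≃ₐ[kk A B] D, ∃ y : D, (y : ℂ) = cX R (lvX p f n) H h 1 ∧
      ((τ y : D) : ℂ) = cX R (lvX p f n) H h τ) →
    ∀ g : (D ≃ₐ[kk A B] D) → ℤ,
      (∃ w ∈ D, w ^ p = ∏ᶠ τ : D ≃ₐ[kk A B] D, cX R (lvX p f n) H h τ ^ g τ) →
      ∀ τ' : D ≃ₐ[kk A B] D,
        HfX p V (∑ᶠ τ : D ≃ₐ[kk A B] D, (g τ : ℂ) * TTc R c P (lvX p f n) (aX p f) h (τ * τ'))

/-- (EFIN) the final form: the weights are `± 1` and the multipliers are units.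

Uses Sxe_MAIN, Sxe_CTX, Sxe_WI, Sxe_MUV. -/
def Sxe_EFIN : Prop :=
  ∀ (p : ℕ) (A B : ℤ) (P : Ideal (OO A B)) (V : ValuationSubring ℂ) (f : ℕ),
    SetP p A B P V f → RingE A B → RedE p P V → TorX A B →
    ∀ (ι : Type) [Fintype ι] (R : Reps A B (p * f) ι),
    (∀ i, V.valuation (muX R i) = 1) ∧
    ∃ c : ι → ℤ, (∀ i, c i = 1 ∨ c i = -1) ∧
    ∀ n : ℕ, 1 ≤ n →
    ∀ (H : ι → Finset ℂ), (∀ i, IsHalf (R.L i) (aX p f : ℂ) (H i)) →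
    ∀ (D : IntermediateField ℚ ℂ) (h : kk A B ≤ D),
      (∀ y ∈ D, y ∈ RF (idl (A := A) (B := B) (lvX p f n))) →
    letI := algC h
    (∀ τ : D ≃ₐ[kk A B] D, ∃ y : D, (y : ℂ) = cX R (lvX p f n) H h 1 ∧
      ((τ y : D) : ℂ) = cX R (lvX p f n) H h τ) →
    ∀ g : (D ≃ₐ[kk A B] D) → ℤ,
      (∃ w ∈ D, w ^ p = ∏ᶠ τ : D ≃ₐ[kk A B] D, cX R (lvX p f n) H h τ ^ g τ) →
      ∀ τ' : D ≃ₐ[kk A B] D,
        HfX p V (∑ᶠ τ : D ≃ₐ[kk A B] D, (g τ : ℂ) *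
          TTc R (fun i => (c i : ℂ)) P (lvX p f n) (aX p f) h (τ * τ'))

end

end Pool.Agent.MUXE
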