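import Pool.Agent.MUX.StJU
import Pool.Agent.MUX.StJX
import Pool.Agent.MU3.I_ILAY

/-!
# MUX, block J (2 ramified): module ROTU, the second layer and the roots of unity of order 4
-/

set_option autoImplicit false

open NumberField IsDedekindDomain

namespace Pool.Agent.MUXJ

open _root_.MU3 Pool.Agent.MU3 Pool.Agent.MU3A Pool.Agent.MU3B Pool.Agent.RI Pool.Agent.RID
  Pool.Agent.MUX Pool.Agent.MUXK

noncomputable section

namespace Rotu

open Pool.Agent.MU3I

/-- the field of `ζ + ζ⁻¹`, `ζ` of order `16`, is a second layer -/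
lemma lay4 : IsLayer 2 2 (IntermediateField.adjoin ℚ {zt 16 + (zt 16)⁻¹}) := by
  have hM : (16 : ℕ) ≠ 0 := by norm_num
  set ζ := zt 16 with hζ
  have hζp : IsPrimitiveRoot ζ 16 := Ilay.zt_prim _ hM
  have hζ0 : ζ ≠ 0 := hζp.ne_zero hM
  have hζc : (starRingEnd ℂ) ζ = ζ⁻¹ := Ilay.conj_root hM hζp.pow_eq_one
  set R := IntermediateField.adjoin ℚ {ζ + ζ⁻¹} with hR
  set c : ℂ →ₐ[ℚ] ℂ := (Complex.conjAe.toAlgHom).restrictScalars ℚ with hc
  have hcz : ∀ z : ℂ, c z = (starRingEnd ℂ) z := fun z => rfl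
  have hRr : ∀ x ∈ R, c x = x := by
    have hRR : R ≤ (AlgHom.equalizer c (AlgHom.id ℚ ℂ)).toIntermediateField (fun x hx => by
        have hx' : c x = x := hx
        show c x⁻¹ = x⁻¹
        rw [map_inv₀, hx']) := by
      rw [hR, IntermediateField.adjoin_simple_le_iff]
      show c (ζ + ζ⁻¹) = ζ + ζ⁻¹
      rw [map_add, map_inv₀, hcz, hζc, inv_inv, add_comm]
    exact fun x hx => hRR hx
  refine ⟨?_, fun z hz => hRr z hz, 4, ?_⟩
  · apply Ilay.deg ζ (2 ^ 2) hζ0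
    · have hint : IsIntegral ℚ ζ := (hζp.isIntegral (Nat.pos_of_ne_zero hM)).tower_top
      rw [IntermediateField.adjoin.finrank hint,
        ← Polynomial.cyclotomic_eq_minpoly_rat hζp (Nat.pos_of_ne_zero hM),
        Polynomial.natDegree_cyclotomic]
      decide
    · intro h1
      have h2 := hRr _ h1
      rw [hcz, hζc] at h2
      have h3 : ζ ^ 2 = 1 := by
        rw [pow_two]
        nth_rewrite 1 [← h2]
        exact inv_mul_cancel₀ hζ0
      have h4 := hζp.dvd_of_pow_eq_one 2 h3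
      omega
  · have hζj : ζ ∈ IntermediateField.adjoin ℚ {z : ℂ | z ^ (2 ^ 4) = 1} := by
      apply IntermediateField.subset_adjoin
      show ζ ^ 2 ^ 4 = 1
      norm_num
      exact hζp.pow_eq_one
    rw [hR, IntermediateField.adjoin_simple_le_iff]
    exact add_mem hζj (inv_mem hζj)

end Rotu

open Rotu Pool.Agent.MU3I in
theorem t_ROTU (h1 : Sj_LAY) : Sj_ROTU := by
  intro B K hB hBK hζ
  obtain ⟨η, hηK, hη⟩ := hζ
  obtain ⟨Bn, -, -, hu⟩ := h1 2 (Or.inl rfl)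
  have hBR : B = IntermediateField.adjoin ℚ {zt 16 + (zt 16)⁻¹} :=
    (hu 2 B hB).trans (hu 2 _ lay4).symm
  have hM : (16 : ℕ) ≠ 0 := by norm_num
  have hζp : IsPrimitiveRoot (zt 16) 16 := Ilay.zt_prim _ hM
  have hζ0 : zt 16 ≠ 0 := hζp.ne_zero hM
  refine ⟨zt 16, ?_, hζp⟩
  have ht : zt 16 + (zt 16)⁻¹ ∈ K := by
    apply hBK
    rw [hBR]
    exact IntermediateField.mem_adjoin_simple_self ℚ _
  have h8 : zt 16 ^ 8 = -1 := by
    have h : (zt 16 ^ 8) ^ 2 = 1 := by rw [← pow_mul]; exact hζp.pow_eq_one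
    rcases sq_eq_one_iff.1 h with h | h
    · exact absurd (hζp.dvd_of_pow_eq_one 8 h) (by norm_num)
    · exact h
  have hi2 : η ^ 2 = -1 := by
    have h : (η ^ 2) ^ 2 = 1 := by rw [← pow_mul]; exact hη.pow_eq_one
    rcases sq_eq_one_iff.1 h with h | h
    · exact absurd (hη.dvd_of_pow_eq_one 2 h) (by norm_num)
    · exact h
  set z := zt 16 with hz
  set w := z⁻¹ with hw
  have hzw : z * w = 1 := mul_inv_cancel₀ hζ0
  -- `t² - 2 = z² + w²` and `(t² - 2)² = 2`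
  have hw8 : w ^ 8 = -1 := by rw [hw, inv_pow, h8]; norm_num
  have h44 : z ^ 4 + w ^ 4 = 0 := by
    have h : z ^ 4 * (z ^ 4 + w ^ 4) = 0 := by
      have h1 : z ^ 4 * w ^ 4 = 1 := by rw [← mul_pow, hzw, one_pow]
      have h2 : z ^ 4 * z ^ 4 = -1 := by rw [← pow_add]; exact h8
      rw [mul_add, h1, h2]; norm_num
    rcases mul_eq_zero.1 h with h | h
    · exact absurd h (pow_ne_zero _ hζ0)
    · exact h
  set t := z + w with htd
  have ht2 : (t ^ 2 - 2) ^ 2 = 2 := by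
    have h : (t ^ 2 - 2) ^ 2 = z ^ 4 + w ^ 4 + 2 * (z * w) ^ 2 + 4 * (z * w - 1) * (z ^ 2 + w ^ 2)
        + 4 * (z * w - 1) ^ 2 := by
      rw [htd]; ring
    rw [h, h44, hzw]; norm_num
  have ht0 : t ≠ 0 := by
    intro h
    rw [h] at ht2
    norm_num at ht2
  have hs : ((t ^ 2 - 2) / t) ^ 2 = 4 - t ^ 2 := by
    rw [div_pow, ht2, div_eq_iff (pow_ne_zero 2 ht0)]
    linear_combination ht2
  have hd : (z - w) ^ 2 = (η * ((t ^ 2 - 2) / t)) ^ 2 := by
    rw [mul_pow, hi2, hs, htd]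
    linear_combination (-4 : ℂ) * hzw
  have hsK : η * ((t ^ 2 - 2) / t) ∈ K := by
    refine mul_mem hηK (div_mem (sub_mem (pow_mem ht 2) ?_) ht)
    exact ofNat_mem K 2
  have hdK : z - w ∈ K := by
    rcases sq_eq_sq_iff_eq_or_eq_neg.1 hd with h | h
    · rw [h]; exact hsK
    · rw [h]; exact neg_mem hsK
  have hzz : z = (t + (z - w)) * (2 : ℂ)⁻¹ := by
    rw [htd]; ring
  rw [hzz]
  exact mul_mem (add_mem ht hdK) (inv_mem (ofNat_mem K 2))

end

end Pool.Agent.MUXJ
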