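import Pool.Agent.MUX.StJX

/-!
# MUX, block J, module SET: the large field `K`
-/

set_option autoImplicit false

open NumberField IsDedekindDomain
open scoped nonZeroDivisors Pointwise

namespace Pool.Agent.MUXJ

open _root_.MU3 Pool.Agent.MU3 Pool.Agent.MU3A Pool.Agent.MU3B Pool.Agent.RI Pool.Agent.RID
  Pool.Agent.MUX Pool.Agent.MUXK Pool.Agent.MUXE

namespace JSET

lemma natCast_ne {A B : ℤ} (n : ℕ) (hn : n ≠ 0) : (n : OO A B) ≠ 0 := by
  intro h
  have h1 := congrArg QuadraticAlgebra.re h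
  have h2 : ((n : OO A B)).re = (n : ℤ) := by simp
  rw [h2] at h1
  have h3 : (n : ℤ) = 0 := h1
  exact hn (by exact_mod_cast h3)

lemma idl_ne {A B : ℤ} (n : ℕ) (hn : n ≠ 0) : (idl n : Ideal (OO A B)) ≠ ⊥ := by
  rw [Ne, Ideal.span_singleton_eq_bot]
  exact natCast_ne n hn

lemma idl_le {A B : ℤ} {n m : ℕ} (h : m ∣ n) : (idl n : Ideal (OO A B)) ≤ idl m := by
  rw [Ideal.span_singleton_le_span_singleton]
  obtain ⟨c, rfl⟩ := h
  exact ⟨(c : OO A B), by push_cast; ring⟩

end JSET

open JSET in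
/-- JSET. -/
theorem t_SET (h1 : Sj_DIR) (h2 : Sj_RAM) (h3 : Sj_INJ) (h4 : Sj_ROT) (h5 : Sj_LDX) (h6 : Sj_GAL)
    (h7 : Sj_LEV) : Sj_SET := by
  intro p A B P V hC hP hV hU T hNL K₀ _ hk hcop hTor hom Bn hlay hmono
  have hp : p.Prime := by
    rcases hC.split with h | h
    · rw [h.1]; exact Nat.prime_three
    · rw [h.1]; exact Nat.prime_two
  have hp23 : p = 2 ∨ p = 3 := by
    rcases hC.split with h | h
    · exact Or.inr h.1
    · exact Or.inl h.1
  have : Fact p.Prime := ⟨hp⟩
  obtain ⟨M, hM, hKM⟩ := h1 A B hC.toCQ T K₀ hTor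
  obtain ⟨f, hf0, hfp, hfD, hf2, hKf⟩ := h7 p A B hC T hNL K₀ hk hcop M hM hKM
  have hlv0 : lvX p f 0 ≠ 0 := by
    unfold lvX q0
    refine mul_ne_zero (mul_ne_zero hf0 ?_) (pow_ne_zero _ hp.ne_zero)
    split_ifs
    · norm_num
    · exact hp.ne_zero
  set m₀ : Ideal (OO A B) := idl (lvX p f 0) with hm₀
  have hm₀b : m₀ ≠ ⊥ := idl_ne _ hlv0
  have h2p : 2 * p ∣ lvX p f 0 := by
    unfold lvX q0
    rcases hp23 with h | h
    · subst h
      simp
    · subst h
      have h8 : (2 : ℤ) ∣ (f : ℤ) := (Dvd.intro _ rfl).trans (hf2 (by norm_num))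
      have h9 : 2 ∣ f := by exact_mod_cast h8
      obtain ⟨c, rfl⟩ := h9
      exact ⟨c, by simp; ring⟩
  have h2p0 : 2 * p ≠ 0 := mul_ne_zero two_ne_zero hp.ne_zero
  -- the root of unity
  obtain ⟨ζ, hζ⟩ : ∃ ζ : ℂ, IsPrimitiveRoot ζ (2 * p) := ⟨_, Complex.isPrimitiveRoot_exp _ h2p0⟩
  have hζm : ζ ∈ RF m₀ := by
    obtain ⟨b, L, om, hL⟩ := hNL
    have hfix : FixK A B (RingEquiv.refl ℂ) := rfl
    obtain ⟨a, -, ha⟩ := T.act m₀ hm₀b (RingEquiv.refl ℂ) hfix
    obtain ⟨b', L', om', mu, -, hact⟩ := ha b L om hL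
    exact (T.zeta (2 * p) m₀ a (RingEquiv.refl ℂ) b L L' om mu hm₀b hfix h2p0 (idl_le h2p) hL hact
      ζ hζ.pow_eq_one).1
  -- the fields
  have hkfd : FiniteDimensional ℚ (kk A B) :=
    FiniteDimensional.of_injective (IntermediateField.inclusion hk).toLinearMap
      (IntermediateField.inclusion hk).injective
  set E₀ : IntermediateField (kk A B) ℂ := IntermediateField.extendScalars hk with hE₀
  have hE₀m : E₀ ≤ RF m₀ := fun x hx => hKf x hx
  set Z : IntermediateField (kk A B) ℂ := IntermediateField.adjoin (kk A B) {ζ} with hZ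
  have hZm : Z ≤ RF m₀ := by
    rw [hZ, IntermediateField.adjoin_le_iff]
    intro x hx
    rw [Set.mem_singleton_iff] at hx
    rw [hx]
    exact hζm
  set K₁ : IntermediateField (kk A B) ℂ := E₀ ⊔ Z with hK₁
  have hK₁m : K₁ ≤ RF m₀ := sup_le hE₀m hZm
  set KK : IntermediateField (kk A B) ℂ := K₁ ⊔ RF (⊤ : Ideal (OO A B)) with hKK
  have hHm : RF (⊤ : Ideal (OO A B)) ≤ RF m₀ := T.mono ⊤ m₀ le_top
  have hKKm : KK ≤ RF m₀ := sup_le hK₁m hHm
  have hζK₁ : ζ ∈ K₁ := (le_sup_right : Z ≤ K₁) (IntermediateField.mem_adjoin_simple_self _ ζ)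
  have hmfd := T.fin m₀ hm₀b
  have hfdK₁ : FiniteDimensional (kk A B) K₁ :=
    FiniteDimensional.of_injective (IntermediateField.inclusion hK₁m).toLinearMap
      (IntermediateField.inclusion hK₁m).injective
  have hfdKK : FiniteDimensional (kk A B) KK :=
    FiniteDimensional.of_injective (IntermediateField.inclusion hKKm).toLinearMap
      (IntermediateField.inclusion hKKm).injective
  set K : IntermediateField ℚ ℂ := KK.restrictScalars ℚ with hK
  have hkK : kk A B ≤ K := fun x hx => KK.algebraMap_mem ⟨x, hx⟩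
  have hKK' : IntermediateField.extendScalars hkK = KK := SetLike.ext fun x => Iff.rfl
  have hk1 : kk A B ≤ K₁.restrictScalars ℚ := fun x hx => K₁.algebraMap_mem ⟨x, hx⟩
  have hK₁' : IntermediateField.extendScalars hk1 = K₁ := SetLike.ext fun x => Iff.rfl
  have hfdK : FiniteDimensional ℚ K := by
    have : FiniteDimensional ℚ KK := FiniteDimensional.trans ℚ (kk A B) KK
    exact this
  have hK0K : K₀ ≤ K := fun x hx =>
    (le_sup_left : K₁ ≤ KK) ((le_sup_left : E₀ ≤ K₁) (show x ∈ E₀ from hx))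
  obtain ⟨hgal0, -, hab0⟩ := h6 A B T m₀ hm₀b K₀ hk hKf
  obtain ⟨hgal, -, hab⟩ := h6 A B T m₀ hm₀b K hkK (fun x hx => hKKm hx)
  obtain ⟨hgal1, -, -⟩ := h6 A B T m₀ hm₀b (K₁.restrictScalars ℚ) hk1 (fun x hx => hK₁m hx)
  have hgalKK : IsGalois (kk A B) KK := by rw [← hKK']; exact hgal
  have hgalK₁ : IsGalois (kk A B) K₁ := by rw [← hK₁']; exact hgal1
  have hζK : ζ ∈ K := (le_sup_left : K₁ ≤ KK) hζK₁
  -- the degree of `K₁`
  have hB1 : ¬ Bn 1 ≤ K := by
    intro hB
    have h8 := h4 p hp23 (Bn 1) K (hlay 1) hB ⟨ζ, hζK, hζ⟩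
    have h9 := h2 p A B P V hC hP hV KK h8
    have h10 := h3 A B V hU T K₁ KK rfl
    have h11 := h9.trans h10
    have hEfd : FiniteDimensional (kk A B) E₀ :=
      FiniteDimensional.of_injective (IntermediateField.inclusion hE₀m).toLinearMap
        (IntermediateField.inclusion hE₀m).injective
    rcases hp23 with h | h
    · subst h
      -- `p = 2`
      have hd : Module.finrank (kk A B) E₀ ∣ Module.finrank (kk A B) K₁ :=
        IntermediateField.finrank_dvd_of_le_right (le_sup_left : E₀ ≤ K₁)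
      have hle : Module.finrank (kk A B) K₁ ≤
          Module.finrank (kk A B) E₀ * Module.finrank (kk A B) Z :=
        IntermediateField.finrank_sup_le E₀ Z
      have hZ2 : Module.finrank (kk A B) Z ≤ 2 := by
        have hζ2 : ζ ^ 2 = -1 := by
          have h12 : (ζ ^ 2) ^ 2 = 1 := by rw [← pow_mul]; exact hζ.pow_eq_one
          rcases sq_eq_one_iff.mp h12 with h13 | h13
          · exact absurd h13 (hζ.pow_ne_one_of_pos_of_lt (by norm_num) (by norm_num))
          · exact h13
        have hint : IsIntegral (kk A B) ζ := by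
          refine ⟨Polynomial.X ^ 2 + 1, ?_, ?_⟩
          · have : (Polynomial.X ^ 2 + 1 : Polynomial (kk A B)) =
                Polynomial.X ^ 2 + Polynomial.C 1 := by simp
            rw [this]
            exact Polynomial.monic_X_pow_add_C _ two_ne_zero
          · simp [hζ2]
        rw [hZ, IntermediateField.adjoin.finrank hint]
        have h13 : Polynomial.aeval ζ (Polynomial.X ^ 2 + 1 : Polynomial (kk A B)) = 0 := by
          simp [hζ2]
        have h14 : (Polynomial.X ^ 2 + 1 : Polynomial (kk A B)) =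
            Polynomial.X ^ 2 + Polynomial.C 1 := by simp
        have h15 : (Polynomial.X ^ 2 + 1 : Polynomial (kk A B)) ≠ 0 := by
          rw [h14]
          exact (Polynomial.monic_X_pow_add_C _ two_ne_zero).ne_zero
        refine (Polynomial.natDegree_le_of_dvd (minpoly.dvd _ _ h13) h15).trans ?_
        rw [h14, Polynomial.natDegree_X_pow_add_C]
      have h12 : 4 ∣ Module.finrank (kk A B) K₁ := by simpa [q0] using h11
      have hpos : 0 < Module.finrank (kk A B) K₁ := Module.finrank_pos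
      obtain ⟨b, hb⟩ := hd
      have hposE : 0 < Module.finrank (kk A B) E₀ := Module.finrank_pos
      have hb2 : b ≤ 2 := by
        have h16 : Module.finrank (kk A B) E₀ * b ≤ Module.finrank (kk A B) E₀ * 2 := by
          rw [← hb]
          exact hle.trans (Nat.mul_le_mul_left _ hZ2)
        exact Nat.le_of_mul_le_mul_left h16 hposE
      apply hcop
      rw [hb] at h12 hpos
      have hbpos : b ≠ 0 := by rintro rfl; simp at hpos
      have hb12 : b = 1 ∨ b = 2 := by omega
      rcases hb12 with h16 | h16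
      · subst h16; omega
      · subst h16; omega
    · subst h
      -- `p = 3`
      obtain ⟨ω, hω, hω3⟩ := hom
      have hζ3 : (-ζ) ^ 3 = 1 := by
        have h12 : (ζ ^ 3) ^ 2 = 1 := by rw [← pow_mul]; exact hζ.pow_eq_one
        have h13 : ζ ^ 3 = -1 := by
          rcases sq_eq_one_iff.mp h12 with h13 | h13
          · exact absurd h13 (hζ.pow_ne_one_of_pos_of_lt (by norm_num) (by norm_num))
          · exact h13
        rw [Odd.neg_pow (by decide), h13, neg_neg]
      obtain ⟨i, -, hi⟩ := hω3.eq_pow_of_pow_eq_one hζ3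
      have hζ0 : ζ ∈ K₀ := by
        have : ζ = -(ω ^ i) := by rw [hi, neg_neg]
        rw [this]
        exact neg_mem (pow_mem hω i)
      have hEK : K₁ = E₀ := by
        apply le_antisymm _ le_sup_left
        refine sup_le le_rfl ?_
        rw [hZ, IntermediateField.adjoin_le_iff]
        intro x hx
        rw [Set.mem_singleton_iff] at hx
        rw [hx]
        exact hζ0
      apply hcop
      rw [hEK] at h11
      have h12 : 3 ∣ q0 3 * (3 - 1) := by decide
      exact h12.trans h11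
  have hB10 : ¬ Bn 1 ≤ K₀ := fun h => hB1 (h.trans hK0K)
  refine ⟨K, hfdK, f, ?_, ?_, ?_, ?_⟩
  · exact
      { b0 := ⟨hk, hgal0, hab0, h5 p K₀ Bn hlay hmono hB10, hlay, hmono⟩
        b := ⟨hkK, hgal, hab, h5 p K Bn hlay hmono hB1, hlay, hmono⟩
        le := hK0K
        cop := hcop
        om := hom
        ze := ⟨ζ, hζK, hζ⟩ }
  · exact ⟨hC, hP, hV, hf0, hfp, hfD, hf2⟩
  · exact fun y hy => hKKm hy
  · exact fun y hy => (le_sup_right : RF (⊤ : Ideal (OO A B)) ≤ KK) hy

end Pool.Agent.MUXJ
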