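import Pool.Agent.MUX.StJU2
import Pool.Agent.MUX.J_SET

/-!
# MUX, block J, module SETU: the large field `K`, `p = 2`, any prime above `2`
-/

set_option autoImplicit false

open NumberField IsDedekindDomain
open scoped nonZeroDivisors Pointwise

namespace Pool.Agent.MUXJ

open _root_.MU3 Pool.Agent.MU3 Pool.Agent.MU3A Pool.Agent.MU3B Pool.Agent.RI Pool.Agent.RID
  Pool.Agent.MUX Pool.Agent.MUXK Pool.Agent.MUXE
open Pool.Agent.N2 (BasY SetY InpGY)

open JSET in
/-- JSETU. -/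
theorem t_SETU (h1 : Sj_DIR) (h2 : Sj_RAMU) (h3 : Sj_INJ) (h4 : Sj_ROTU) (h5 : Sj_LDX)
    (h5' : Sj_LDU) (h6 : Sj_GAL) (h7 : Sj_LEVG) (h8' : Sj_K0U) : Sj_SETU := by
  intro d A B P V hX hd0 hpd hU T hNL K₀ _ hk hcop hTor Bn hlay hmono
  have hp : Nat.Prime 2 := Nat.prime_two
  have : Fact (Nat.Prime 2) := ⟨hp⟩
  obtain ⟨M, hM, hKM⟩ := h1 A B hX.cq T K₀ hTor
  obtain ⟨f, hf0, hfp, hfd, hKf⟩ :=
    h7 2 d A B hX.cq (Or.inl rfl) hd0 hpd T hNL K₀ hk hcop M hM hKM
  have hlv0 : lvX 2 f 0 ≠ 0 := by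
    simp only [lvX, q0, if_true, pow_zero, mul_one]
    exact mul_ne_zero hf0 (by norm_num)
  set m₀ : Ideal (OO A B) := idl (lvX 2 f 0) with hm₀
  have hm₀b : m₀ ≠ ⊥ := idl_ne _ hlv0
  have h2p : 4 ∣ lvX 2 f 0 := by
    simp only [lvX, q0, if_true, pow_zero, mul_one]
    exact dvd_mul_left _ _
  have h2p0 : 4 ≠ 0 := by norm_num
  -- the root of unity
  obtain ⟨ζ, hζ⟩ : ∃ ζ : ℂ, IsPrimitiveRoot ζ 4 := ⟨_, Complex.isPrimitiveRoot_exp _ h2p0⟩
  have hζm : ζ ∈ RF m₀ := by
    obtain ⟨b, L, om, hL⟩ := hNL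
    have hfix : FixK A B (RingEquiv.refl ℂ) := rfl
    obtain ⟨a, -, ha⟩ := T.act m₀ hm₀b (RingEquiv.refl ℂ) hfix
    obtain ⟨b', L', om', mu, -, hact⟩ := ha b L om hL
    exact (T.zeta 4 m₀ a (RingEquiv.refl ℂ) b L L' om mu hm₀b hfix h2p0 (idl_le h2p) hL hact
      ζ hζ.pow_eq_one).1
  -- the fields
  have hkfd : FiniteDimensional ℚ (kk A B) :=
    FiniteDimensional.of_injective (IntermediateField.inclusion hk).toLinearMap
      (IntermediateField.inclusion hk).injective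
  set E₀ : IntermediateField (kk A B) ℂ := IntermediateField.extendScalars hk with hE₀
  have hE₀m : E₀ ≤ RF m₀ := fun x hx => hKf x hx
  set Z : IntermediateField (kk A B) ℂ := IntermediateField.adjoin (kk A B) {ζ} with hZ
  have hZm : Z ≤ RF m₀ := by
    rw [hZ, IntermediateField.adjoin_le_iff]
    intro x hx
    rw [Set.mem_singleton_iff] at hx
    rw [hx]
    exact hζm
  set K₁ : IntermediateField (kk A B) ℂ := E₀ ⊔ Z with hK₁
  have hK₁m : K₁ ≤ RF m₀ := sup_le hE₀m hZm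
  set KK : IntermediateField (kk A B) ℂ := K₁ ⊔ RF (⊤ : Ideal (OO A B)) with hKK
  have hHm : RF (⊤ : Ideal (OO A B)) ≤ RF m₀ := T.mono ⊤ m₀ le_top
  have hKKm : KK ≤ RF m₀ := sup_le hK₁m hHm
  have hζK₁ : ζ ∈ K₁ := (le_sup_right : Z ≤ K₁) (IntermediateField.mem_adjoin_simple_self _ ζ)
  have hmfd := T.fin m₀ hm₀b
  have hfdK₁ : FiniteDimensional (kk A B) K₁ :=
    FiniteDimensional.of_injective (IntermediateField.inclusion hK₁m).toLinearMap
      (IntermediateField.inclusion hK₁m).injective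
  have hfdKK : FiniteDimensional (kk A B) KK :=
    FiniteDimensional.of_injective (IntermediateField.inclusion hKKm).toLinearMap
      (IntermediateField.inclusion hKKm).injective
  set K : IntermediateField ℚ ℂ := KK.restrictScalars ℚ with hK
  have hkK : kk A B ≤ K := fun x hx => KK.algebraMap_mem ⟨x, hx⟩
  have hKK' : IntermediateField.extendScalars hkK = KK := SetLike.ext fun x => Iff.rfl
  have hk1 : kk A B ≤ K₁.restrictScalars ℚ := fun x hx => K₁.algebraMap_mem ⟨x, hx⟩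
  have hK₁' : IntermediateField.extendScalars hk1 = K₁ := SetLike.ext fun x => Iff.rfl
  have hfdK : FiniteDimensional ℚ K := by
    have : FiniteDimensional ℚ KK := FiniteDimensional.trans ℚ (kk A B) KK
    exact this
  have hK0K : K₀ ≤ K := fun x hx =>
    (le_sup_left : K₁ ≤ KK) ((le_sup_left : E₀ ≤ K₁) (show x ∈ E₀ from hx))
  obtain ⟨hgal0, -, hab0⟩ := h6 A B T m₀ hm₀b K₀ hk hKf
  obtain ⟨hgal, -, hab⟩ := h6 A B T m₀ hm₀b K hkK (fun x hx => hKKm hx)
  obtain ⟨hgal1, -, -⟩ := h6 A B T m₀ hm₀b (K₁.restrictScalars ℚ) hk1 (fun x hx => hK₁m hx)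
  have hgalKK : IsGalois (kk A B) KK := by rw [← hKK']; exact hgal
  have hgalK₁ : IsGalois (kk A B) K₁ := by rw [← hK₁']; exact hgal1
  have hζK : ζ ∈ K := (le_sup_left : K₁ ≤ KK) hζK₁
  -- the degree of `K₁`
  have hB2 : ¬ Bn 2 ≤ K := by
    intro hB
    have h8 := h4 (Bn 2) K (hlay 2) hB ⟨ζ, hζK, hζ⟩
    have h9 := h2 A B P V hX KK h8
    have h10 := h3 A B V hU T K₁ KK rfl
    have h11 := h9.trans (mul_dvd_mul_left 2 h10)
    have hEfd : FiniteDimensional (kk A B) E₀ :=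
      FiniteDimensional.of_injective (IntermediateField.inclusion hE₀m).toLinearMap
        (IntermediateField.inclusion hE₀m).injective
    have hd : Module.finrank (kk A B) E₀ ∣ Module.finrank (kk A B) K₁ :=
      IntermediateField.finrank_dvd_of_le_right (le_sup_left : E₀ ≤ K₁)
    have hle : Module.finrank (kk A B) K₁ ≤
        Module.finrank (kk A B) E₀ * Module.finrank (kk A B) Z :=
      IntermediateField.finrank_sup_le E₀ Z
    have hZ2 : Module.finrank (kk A B) Z ≤ 2 := by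
      have hζ2 : ζ ^ 2 = -1 := by
        have h12 : (ζ ^ 2) ^ 2 = 1 := by rw [← pow_mul]; exact hζ.pow_eq_one
        rcases sq_eq_one_iff.mp h12 with h13 | h13
        · exact absurd h13 (hζ.pow_ne_one_of_pos_of_lt (by norm_num) (by norm_num))
        · exact h13
      have hint : IsIntegral (kk A B) ζ := by
        refine ⟨Polynomial.X ^ 2 + 1, ?_, ?_⟩
        · have : (Polynomial.X ^ 2 + 1 : Polynomial (kk A B)) =
              Polynomial.X ^ 2 + Polynomial.C 1 := by simp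
          rw [this]
          exact Polynomial.monic_X_pow_add_C _ two_ne_zero
        · simp [hζ2]
      rw [hZ, IntermediateField.adjoin.finrank hint]
      have h13 : Polynomial.aeval ζ (Polynomial.X ^ 2 + 1 : Polynomial (kk A B)) = 0 := by
        simp [hζ2]
      have h14 : (Polynomial.X ^ 2 + 1 : Polynomial (kk A B)) =
          Polynomial.X ^ 2 + Polynomial.C 1 := by simp
      have h15 : (Polynomial.X ^ 2 + 1 : Polynomial (kk A B)) ≠ 0 := by
        rw [h14]
        exact (Polynomial.monic_X_pow_add_C _ two_ne_zero).ne_zero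
      refine (Polynomial.natDegree_le_of_dvd (minpoly.dvd _ _ h13) h15).trans ?_
      rw [h14, Polynomial.natDegree_X_pow_add_C]
    have h12 : 4 ∣ Module.finrank (kk A B) K₁ := by omega
    have hpos : 0 < Module.finrank (kk A B) K₁ := Module.finrank_pos
    obtain ⟨b, hb⟩ := hd
    have hposE : 0 < Module.finrank (kk A B) E₀ := Module.finrank_pos
    have hb2 : b ≤ 2 := by
      have h16 : Module.finrank (kk A B) E₀ * b ≤ Module.finrank (kk A B) E₀ * 2 := by
        rw [← hb]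
        exact hle.trans (Nat.mul_le_mul_left _ hZ2)
      exact Nat.le_of_mul_le_mul_left h16 hposE
    apply hcop
    rw [hb] at h12 hpos
    have hbpos : b ≠ 0 := by rintro rfl; simp at hpos
    have hb12 : b = 1 ∨ b = 2 := by omega
    rcases hb12 with h16 | h16
    · subst h16; omega
    · subst h16; omega
  have hB10 : ¬ Bn 1 ≤ K₀ := h8' A B hX.cq K₀ hk hcop (Bn 1) (hlay 1)
  have hb0 : BasX 2 (kk A B) K₀ Bn := ⟨hk, hgal0, hab0, h5 2 K₀ Bn hlay hmono hB10, hlay, hmono⟩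
  have hom : ∃ ω ∈ K₀, IsPrimitiveRoot ω 2 :=
    ⟨-1, neg_mem (one_mem _), IsPrimitiveRoot.neg_one 0 (by norm_num)⟩
  have hB0 : Bn 0 ≤ K := by
    have h9 : Bn 0 = ⊥ := by
      rw [← IntermediateField.finrank_eq_one_iff]
      simpa using (hlay 0).1
    rw [h9]
    exact bot_le
  have hdeg : ∀ n, Module.finrank ℚ ↥(K ⊔ Bn (n + 1)) = Module.finrank ℚ ↥(K ⊔ Bn 1) * 2 ^ n := by
    intro n
    by_cases hB1 : Bn 1 ≤ K
    · have e1 := h5' 2 K Bn hlay hmono 1 hB1 hB2 (n + 1) (by omega)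
      rw [sup_eq_left.2 hB1]
      rw [pow_succ 2 n, pow_one] at e1
      nlinarith
    · have e0 := h5' 2 K Bn hlay hmono 0 hB0 hB1 (n + 1) (by omega)
      have e1 := h5' 2 K Bn hlay hmono 0 hB0 hB1 1 (by omega)
      rw [pow_zero, mul_one] at e0 e1
      rw [e0, e1]
      ring
  refine ⟨K, hfdK, f, ?_, hf0, hfp, hfd, ?_, ?_⟩
  · exact
      { b0 := hb0
        b := ⟨hkK, hgal, hab, hdeg, hlay, hmono⟩
        le := hK0K
        cop := hcop
        om := hom
        ze := ⟨ζ, hζK, hζ⟩ }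
  · exact fun y hy => hKKm hy
  · exact fun y hy => (le_sup_right : RF (⊤ : Ideal (OO A B)) ≤ KK) hy

end Pool.Agent.MUXJ
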