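import Pool.Agent.MUX.JGAll
import Pool.Agent.MUX.J_RAMU
import Pool.Agent.MUX.J_ROTU
import Pool.Agent.MUX.J_LDU
import Pool.Agent.MUX.J_K0U
import Pool.Agent.MUX.J_SETU
import Pool.Agent.MUX.J_FINGU

/-! # Block J for `p = 2`, any prime above `2`, assembled

`j_FINGU` takes the main theorem of block K for the structures `SetY`; `j_JFIN : SQ_JFIN` is the form of `DefsR2.lean`. -/

namespace Pool.Agent.MUXJ

open Pool.Agent.MUXK Pool.Agent.MUX Pool.Agent.N2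

theorem j_RAMU : Sj_RAMU := t_RAMU
theorem j_ROTU : Sj_ROTU := t_ROTU j_LAY
theorem j_LDU : Sj_LDU := t_LDU
theorem j_K0U : Sj_K0U := t_K0U
theorem j_SETU : Sj_SETU := t_SETU j_DIR j_RAMU j_INJ j_ROTU j_LDX j_LDU j_GAL j_LEVG j_K0U
theorem j_FINGU (h : S_MAINKY) : Sj_FINGU :=
  t_FINGU j_RES j_LAY j_DIR j_GAL j_SETU j_UP j_SUB j_OMGG j_FLD h MU3.u_SYL MU3.u_PEX

/-- the form of `DefsR2.lean` -/
theorem j_JFIN (h : S_MAINKY) : SQ_JFIN := by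
  intro A B P V d hc hP hV hd hpd hU hT hN hI F M K _ hkF hFM a hTU hgal hdeg hKM
  have h2 : (2 : ℂ) ∈ V.nonunits := by
    have h0 := (hV ((2 : ℕ) : MU3.OO A B)).2 hP.mem
    rwa [Pool.Agent.MUX.emb_natCast hc.toCQ] at h0
  exact j_FINGU h d A B P V ⟨hc.toCQ, hP.prime, hP.mem, hV, h2⟩ hd hpd hU hT hN hI F M K hkF hFM a
    hTU hgal hdeg hKM

end Pool.Agent.MUXJ

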