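import Pool.Agent.MUX.StGX

/-!
# MUX, block G: descent of a subspace (DSC)
-/

set_option autoImplicit false

namespace Pool.Agent.MUXN

theorem tg_DSC (h : Sg_DSI) : Sg_DSC := by
  intro k hk V r X hX
  obtain ⟨J, e, he, hsum⟩ := h V r X
  refine ⟨J, e, fun j hj => ⟨(he j hj).1, fun i => ⟨?_, (he j hj).2.1 i⟩, (he j hj).2.2⟩, hsum⟩
  refine hk _ (fun σ hσ => ?_)
  have h1 : (fun i => σ (e j i)) ∈ X := hX σ hσ _ (he j hj).1
  have h2 := hsum _ h1
  have h3 := hsum _ (he j hj).1
  have h4 : (fun i => σ (e j i)) = e j := by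
    rw [h2]
    conv_rhs => rw [h3]
    refine Finset.sum_congr rfl (fun j' hj' => ?_)
    congr 1
    show σ (e j j') = e j j'
    rw [(he j hj).2.2 j' hj']
    split <;> simp
  exact congrFun h4 i

end Pool.Agent.MUXN
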