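import Pool.Agent.MUX.StGX

/-!
# MUX, block G, module DSI (helper95): integral reduced basis of a subspace
-/

set_option autoImplicit false

namespace Pool.Agent.MUXN

noncomputable section

namespace DSI

theorem main (V : ValuationSubring ℂ) (r : ℕ) (n : ℕ) : ∀ (X : Submodule ℂ (Fin r → ℂ)),
    Module.finrank ℂ X = n → ∃ (J : Finset (Fin r)) (e : Fin r → (Fin r → ℂ)),
      (∀ j ∈ J, e j ∈ X ∧ (∀ i, e j i ∈ V) ∧ ∀ j' ∈ J, e j j' = if j = j' then 1 else 0) ∧
      ∀ x ∈ X, x = ∑ j ∈ J, x j • e j := by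
  classical
  induction n using Nat.strong_induction_on with
  | _ n ih =>
    intro X hX
    by_cases hbot : X = ⊥
    · refine ⟨∅, 0, fun j hj => absurd hj (Finset.notMem_empty j), fun x hx => ?_⟩
      rw [hbot, Submodule.mem_bot] at hx
      rw [hx, Finset.sum_empty]
    obtain ⟨x₀, hx₀, hne⟩ := Submodule.exists_mem_ne_zero_of_ne_bot hbot
    obtain ⟨l, hl⟩ := Function.ne_iff.1 hne
    obtain ⟨i, -, hi⟩ := Finset.exists_max_image Finset.univ (fun j => V.valuation (x₀ j))
      ⟨l, Finset.mem_univ l⟩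
    have hi0 : x₀ i ≠ 0 := by
      intro h0
      have h1 := hi l (Finset.mem_univ l)
      rw [h0, map_zero] at h1
      exact hl ((Valuation.zero_iff _).1 (le_antisymm h1 zero_le))
    -- the scaled vector
    set x : Fin r → ℂ := (x₀ i)⁻¹ • x₀ with hx
    have hxX : x ∈ X := X.smul_mem _ hx₀
    have hxi : x i = 1 := by
      rw [hx, Pi.smul_apply, smul_eq_mul, inv_mul_cancel₀ hi0]
    have hxV : ∀ j, x j ∈ V := by
      intro j
      rw [← ValuationSubring.valuation_le_one_iff, hx, Pi.smul_apply, smul_eq_mul, map_mul,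
        map_inv₀]
      have h1 := hi j (Finset.mem_univ j)
      have h2 : V.valuation (x₀ i) ≠ 0 := (Valuation.ne_zero_iff _).2 hi0
      calc (V.valuation (x₀ i))⁻¹ * V.valuation (x₀ j)
          ≤ (V.valuation (x₀ i))⁻¹ * V.valuation (x₀ i) := mul_le_mul_right h1 _
        _ = 1 := inv_mul_cancel₀ h2
    -- the smaller space
    set X' : Submodule ℂ (Fin r → ℂ) :=
      X ⊓ LinearMap.ker (LinearMap.proj i : (Fin r → ℂ) →ₗ[ℂ] ℂ) with hX'
    have hmem : ∀ y, y ∈ X' ↔ y ∈ X ∧ y i = 0 := by
      intro y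
      rw [hX', Submodule.mem_inf, LinearMap.mem_ker]
      rfl
    have hlt : X' < X := by
      refine lt_of_le_of_ne inf_le_left fun h => ?_
      have h1 := hxX
      rw [← h, hmem, hxi] at h1
      exact one_ne_zero h1.2
    have hfr : Module.finrank ℂ X' < n := hX ▸ Submodule.finrank_lt_finrank_of_lt hlt
    obtain ⟨J', e', he', hs'⟩ := ih _ hfr X' rfl
    have hiJ : i ∉ J' := by
      intro h
      obtain ⟨h1, -, h2⟩ := he' i h
      have h3 := h2 i h
      rw [if_pos rfl, ((hmem _).1 h1).2] at h3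
      exact one_ne_zero h3.symm
    set ei : Fin r → ℂ := x - ∑ j ∈ J', x j • e' j with hei
    have heiX : ei ∈ X := X.sub_mem hxX (X.sum_mem fun j hj =>
      X.smul_mem _ ((hmem _).1 (he' j hj).1).1)
    have heival : ∀ k, ei k = x k - ∑ j ∈ J', x j * e' j k := by
      intro k
      rw [hei, Pi.sub_apply, Finset.sum_apply]
      rfl
    obtain ⟨e, hei', hej⟩ : ∃ e : Fin r → (Fin r → ℂ), e i = ei ∧ ∀ j ∈ J', e j = e' j :=
      ⟨fun j => if j = i then ei else e' j, if_pos rfl,
        fun j hj => if_neg (fun h : j = i => hiJ (h ▸ hj))⟩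
    refine ⟨insert i J', e, ?_, ?_⟩
    · intro j hj
      rcases Finset.mem_insert.1 hj with rfl | hj
      · rw [hei']
        refine ⟨heiX, ?_, ?_⟩
        · intro k
          rw [heival]
          exact sub_mem (hxV k) (sum_mem fun j hj => mul_mem (hxV j) ((he' j hj).2.1 k))
        · intro j' hj'
          rw [heival]
          rcases Finset.mem_insert.1 hj' with rfl | hj'
          · rw [if_pos rfl, hxi, Finset.sum_eq_zero, sub_zero]
            intro j hj
            rw [((hmem _).1 (he' j hj).1).2, mul_zero]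
          · have hne' : j ≠ j' := fun h => hiJ (h ▸ hj')
            rw [if_neg hne', Finset.sum_eq_single j']
            · rw [(he' j' hj').2.2 j' hj', if_pos rfl, mul_one, sub_self]
            · intro k hk hkj
              rw [(he' k hk).2.2 j' hj', if_neg hkj, mul_zero]
            · exact fun h => absurd hj' h
      · have hji : j ≠ i := fun h => hiJ (h ▸ hj)
        obtain ⟨h1, h2, h3⟩ := he' j hj
        rw [hej j hj]
        refine ⟨((hmem _).1 h1).1, h2, ?_⟩
        intro j' hj'
        rcases Finset.mem_insert.1 hj' with rfl | hj'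
        · rw [if_neg hji]
          exact ((hmem _).1 h1).2
        · exact h3 j' hj'
    · intro y hy
      rw [Finset.sum_insert hiJ, hei']
      have h1 : ∑ j ∈ J', y j • e j = ∑ j ∈ J', y j • e' j := by
        refine Finset.sum_congr rfl fun j hj => ?_
        rw [hej j hj]
      rw [h1]
      have h2 : y - y i • x ∈ X' := by
        rw [hmem]
        refine ⟨X.sub_mem hy (X.smul_mem _ hxX), ?_⟩
        rw [Pi.sub_apply, Pi.smul_apply, hxi, smul_eq_mul, mul_one, sub_self]
      have h3 := hs' _ h2
      have h4 : ∑ j ∈ J', (y - y i • x) j • e' j =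
          ∑ j ∈ J', y j • e' j - y i • ∑ j ∈ J', x j • e' j := by
        rw [Finset.smul_sum, ← Finset.sum_sub_distrib]
        refine Finset.sum_congr rfl fun j _ => ?_
        rw [Pi.sub_apply, Pi.smul_apply, sub_smul, smul_eq_mul, mul_smul]
      rw [h4] at h3
      rw [hei, smul_sub]
      have h5 := sub_eq_iff_eq_add.1 h3
      conv_lhs => rw [h5]
      abel

end DSI

theorem tg_DSI : Sg_DSI := fun V r X => DSI.main V r _ X rfl

end

end Pool.Agent.MUXN
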