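import Pool.Agent.MUX.StGX

/-!
# MUX, block G: module DV (helper14)

A valuation ring of a number field above `p` is a discrete valuation ring. The lemma `frac` is copied from
`Pool/Agent/MU3/G_G6a.lean`.
-/

set_option autoImplicit false

namespace Pool.Agent.MUXN

open NumberField

noncomputable section

namespace DV

variable {H : Type} [Field H] [NumberField H]

/-- fractions with a denominator outside a given prime ideal -/
theorem frac (P : Ideal (𝓞 H)) [hP : P.IsPrime] (y : H) :
    ∃ x z : 𝓞 H, (z ∉ P ∧ y * z = x) ∨ (x ∉ P ∧ z ∈ P ∧ y * z = x) := by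
  obtain ⟨a, b, hb, hab⟩ := IsFractionRing.div_surjective (A := 𝓞 H) y
  have hb0 : b ≠ 0 := nonZeroDivisors.ne_zero hb
  have hbH : ((b : 𝓞 H) : H) ≠ 0 := by
    intro h0
    apply hb0
    exact_mod_cast h0
  have hab' : y * b = a := by
    rw [← hab]
    exact div_mul_cancel₀ _ hbH
  set D : Ideal (𝓞 H) := Ideal.span {a} ⊔ Ideal.span {b} with hD
  have hD0 : D ≠ ⊥ := by
    intro h0
    have h1 : Ideal.span {b} ≤ D := le_sup_right
    rw [h0, le_bot_iff, Ideal.span_singleton_eq_bot] at h1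
    exact hb0 h1
  obtain ⟨I, hI⟩ := Ideal.dvd_iff_le.2 (le_sup_left : Ideal.span {a} ≤ D)
  obtain ⟨J, hJ⟩ := Ideal.dvd_iff_le.2 (le_sup_right : Ideal.span {b} ≤ D)
  have hIJ : I ⊔ J = ⊤ := by
    have h1 : D * (I ⊔ J) = D * ⊤ := by
      rw [Ideal.mul_sup, ← hI, ← hJ, Ideal.mul_top]
    exact mul_left_cancel₀ hD0 h1
  by_cases hJP : J ≤ P
  · have hIP : ¬ I ≤ P := by
      intro h1
      apply hP.ne_top
      rw [eq_top_iff, ← hIJ]
      exact sup_le h1 hJP
    obtain ⟨w, hw, hwP⟩ := SetLike.not_le_iff_exists.1 hIP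
    have h1 : w * b ∈ Ideal.span {a} * J := by
      have h2 : w * b ∈ I * Ideal.span {b} :=
        Ideal.mul_mem_mul hw (Ideal.mem_span_singleton_self b)
      have h3 : I * Ideal.span {b} = Ideal.span {a} * J :=
        calc I * Ideal.span {b} = I * (D * J) := congrArg (I * ·) hJ
          _ = (D * I) * J := by ring
          _ = Ideal.span {a} * J := congrArg (· * J) hI.symm
      rwa [h3] at h2
    obtain ⟨j, hj, hjw⟩ := Ideal.mem_span_singleton_mul.1 h1
    refine ⟨w, j, Or.inr ⟨hwP, hJP hj, ?_⟩⟩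
    have h4 : (a : H) * j = w * b := by exact_mod_cast hjw
    have h5 : y * j * b = w * b := by
      rw [← h4, ← hab']
      ring
    exact mul_right_cancel₀ hbH h5
  · obtain ⟨w, hw, hwP⟩ := SetLike.not_le_iff_exists.1 hJP
    have h1 : w * a ∈ Ideal.span {b} * I := by
      have h2 : w * a ∈ J * Ideal.span {a} :=
        Ideal.mul_mem_mul hw (Ideal.mem_span_singleton_self a)
      have h3 : J * Ideal.span {a} = Ideal.span {b} * I :=
        calc J * Ideal.span {a} = J * (D * I) := congrArg (J * ·) hI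
          _ = (D * J) * I := by ring
          _ = Ideal.span {b} * I := congrArg (· * I) hJ.symm
      rwa [h3] at h2
    obtain ⟨j, hj, hjw⟩ := Ideal.mem_span_singleton_mul.1 h1
    refine ⟨j, w, Or.inl ⟨hwP, ?_⟩⟩
    have h4 : (b : H) * j = w * a := by exact_mod_cast hjw
    have h5 : y * w * b = j * b := by
      rw [mul_comm (j : H), h4, ← hab']
      ring
    exact mul_right_cancel₀ hbH h5

variable (W : ValuationSubring H)

/-- integral elements are in `W` -/
theorem int_mem {x : H} (hx : IsIntegral ℤ x) : x ∈ W := by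
  have h1 : IsIntegral W x := hx.tower_top
  obtain ⟨y, hy⟩ := (IsIntegrallyClosed.isIntegral_iff (R := W) (K := H)).1 h1
  rw [← hy]
  exact y.2

/-- the homomorphism from the ring of integers to `W` -/
def toW : 𝓞 H →+* W :=
  (algebraMap (𝓞 H) H).codRestrict W.toSubring
    (fun x => int_mem W (RingOfIntegers.isIntegral_coe x))

theorem coe_toW (x : 𝓞 H) : ((toW W x : W) : H) = (x : H) := rfl

theorem dvr {p : ℕ} (hp0 : p ≠ 0) (hp : (p : H) ∈ W.nonunits) : IsDiscreteValuationRing W := by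
  letI : Algebra (𝓞 H) W := (toW W).toAlgebra
  set P : Ideal (𝓞 H) := Ideal.comap (toW W) (IsLocalRing.maximalIdeal W) with hPdef
  haveI hPp : P.IsPrime := Ideal.comap_isPrime _ _
  have hmem : ∀ x : 𝓞 H, x ∈ P ↔ (x : H) ∈ W.nonunits := by
    intro x
    rw [hPdef, Ideal.mem_comap, ← ValuationSubring.coe_mem_nonunits_iff, coe_toW]
  have hP0 : P ≠ ⊥ := by
    intro h0
    have h1 : ((p : ℕ) : 𝓞 H) ∈ P := by
      rw [hmem]
      have : (((p : ℕ) : 𝓞 H) : H) = (p : H) := by norm_cast
      rw [this]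
      exact hp
    rw [h0, Ideal.mem_bot] at h1
    exact hp0 (by exact_mod_cast h1)
  have hunit : ∀ z : 𝓞 H, z ∉ P → IsUnit (toW W z) := by
    intro z hz
    by_contra hcon
    exact hz hcon
  haveI : IsLocalization.AtPrime W P := by
    refine (isLocalization_iff P.primeCompl W).2 ⟨?_, ?_, ?_⟩
    · rintro ⟨z, hz⟩
      exact hunit z hz
    · rintro ⟨y, hy⟩
      obtain ⟨x, z, ⟨h1, h2⟩ | ⟨h1, h2, h3⟩⟩ := frac P y
      · refine ⟨⟨x, ⟨z, h1⟩⟩, ?_⟩
        apply Subtype.ext
        exact h2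
      · exfalso
        apply h1
        rw [hmem, W.mem_nonunits_iff, ← h3, map_mul]
        rw [hmem, W.mem_nonunits_iff] at h2
        exact mul_lt_one_of_nonneg_of_lt_one_right ((W.valuation_le_one_iff _).2 hy) zero_le h2
    · intro x y hxy
      refine ⟨1, ?_⟩
      have h1 : ((toW W x : W) : H) = ((toW W y : W) : H) := congrArg Subtype.val hxy
      rw [coe_toW, coe_toW] at h1
      have h2 : x = y := by exact_mod_cast h1
      rw [h2]
  exact IsLocalization.AtPrime.isDiscreteValuationRing_of_dedekind_domain (𝓞 H) hP0 W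

end DV

theorem tg_DV : Sg_DV := by
  intro K _ V p hp hpV
  refine DV.dvr (H := K) (V.comap K.subtype) hp.ne_zero ?_
  rw [ValuationSubring.mem_nonunits_iff]
  by_contra hcon
  rw [not_lt] at hcon
  have h1 : (p : ℂ) ≠ 0 := Nat.cast_ne_zero.2 hp.ne_zero
  have h2 : ((p : K)⁻¹) ∈ V.comap K.subtype := by
    rw [← ValuationSubring.valuation_le_one_iff, map_inv₀]
    exact inv_le_one_of_one_le₀ hcon
  rw [ValuationSubring.mem_comap] at h2
  have h3 : K.subtype ((p : K)⁻¹) = (p : ℂ)⁻¹ := by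
    rw [map_inv₀, map_natCast]
  rw [h3, ← ValuationSubring.valuation_le_one_iff, map_inv₀] at h2
  rw [ValuationSubring.mem_nonunits_iff] at hpV
  have h4 : 1 < (V.valuation (p : ℂ))⁻¹ := by
    rw [one_lt_inv₀]
    · exact hpV
    · exact zero_lt_iff.2 ((V.valuation.ne_zero_iff).2 h1)
  exact absurd h2 (not_le.2 h4)

end

end Pool.Agent.MUXN
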