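import Pool.Agent.MUX.StGX

/-!
# MUX, block G, module FGG: finitely many elements of `Γ₁(N)` determine every homomorphism to `ℂ`
-/

set_option autoImplicit false

namespace Pool.Agent.MUXN

open scoped MatrixGroups

noncomputable section

namespace FGG

theorem fgSL : Group.FG SL(2, ℤ) := by
  rw [Group.fg_iff]
  exact ⟨{ModularGroup.S, ModularGroup.T}, SpecialLinearGroup.SL2Z_generators, by simp⟩

theorem fg1 (N : ℕ) (hN : N ≠ 0) : Group.FG (CongruenceSubgroup.Gamma1 N) := by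
  have : NeZero N := ⟨hN⟩
  have := fgSL
  exact Subgroup.fg_of_index_ne_zero _

end FGG

open FGG in
theorem tg_FGG : Sg_FGG := by
  intro N hN
  obtain ⟨S, hS⟩ := (fg1 N hN.ne').out
  refine ⟨S.card, fun i => ((S.equivFin.symm i).1 : SL(2, ℤ)), fun i => (S.equivFin.symm i).1.2, ?_⟩
  intro ρ hρ M hM g hg
  have h1 : ρ 1 = 0 := by
    have h := hρ 1 (one_mem _) 1 (one_mem _)
    rw [mul_one] at h
    exact left_eq_add.1 h
  have hmem : (⟨g, hg⟩ : CongruenceSubgroup.Gamma1 N) ∈ Subgroup.closure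
      (S : Set (CongruenceSubgroup.Gamma1 N)) := hS ▸ Subgroup.mem_top _
  have key : ∀ x : CongruenceSubgroup.Gamma1 N, x ∈ Subgroup.closure
      (S : Set (CongruenceSubgroup.Gamma1 N)) → ρ (x : SL(2, ℤ)) ∈ M := by
    intro x hx
    induction hx using Subgroup.closure_induction with
    | mem x hx =>
      have h2 := hM (S.equivFin ⟨x, hx⟩)
      simpa using h2
    | one =>
      have h3 : ρ ((1 : CongruenceSubgroup.Gamma1 N) : SL(2, ℤ)) = 0 := h1
      rw [h3]
      exact zero_mem _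
    | mul x z _ _ hx hz =>
      have h3 : ρ ((x * z : CongruenceSubgroup.Gamma1 N) : SL(2, ℤ)) = ρ x + ρ z :=
        hρ x x.2 z z.2
      rw [h3]
      exact add_mem hx hz
    | inv x _ hx =>
      have h3 := hρ x x.2 (x⁻¹ : CongruenceSubgroup.Gamma1 N) (x⁻¹).2
      have h4 : (x : SL(2, ℤ)) * ((x⁻¹ : CongruenceSubgroup.Gamma1 N) : SL(2, ℤ)) = 1 := by
        rw [← Subgroup.coe_mul, mul_inv_cancel]
        rfl
      rw [h4, h1] at h3
      have h5 : ρ ((x⁻¹ : CongruenceSubgroup.Gamma1 N) : SL(2, ℤ)) = -ρ x :=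
        eq_neg_of_add_eq_zero_right h3.symm
      rw [h5]
      exact neg_mem hx
  exact key ⟨g, hg⟩ hmem

end

end Pool.Agent.MUXN
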