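import Pool.Agent.MUX.StGX
import Pool.Agent.MUX.StU

/-!
# MUX, block G: the fixed field of the automorphisms over `k` is `k`
-/

set_option autoImplicit false

namespace Pool.Agent.MUXN

open _root_.MU3 Pool.Agent.MU3A Pool.Agent.MU3B Pool.Agent.MU3Q Pool.Agent.MUX Pool.Agent.MuSym
  OnePoint UpperHalfPlane

namespace FK

variable {A B : ℤ}

lemma absD_pos (h : CQ A B) : 0 < absD A B := by
  have := h.neg
  unfold absD
  omega

lemma wC_sq' (h : CQ A B) : wC A B * wC A B = A + B * wC A B := by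
  have h1 : (0 : ℝ) ≤ (absD A B : ℝ) := by exact_mod_cast (absD_pos h).le
  have h2 : ((Real.sqrt (absD A B) : ℝ) : ℂ) ^ 2 = (absD A B : ℂ) := by
    rw [← Complex.ofReal_pow, Real.sq_sqrt h1]
    norm_num
  have h3 : Complex.I ^ 2 = -1 := Complex.I_sq
  have h4 : (absD A B : ℂ) = -((B : ℂ) ^ 2 + 4 * A) := by simp [absD]
  unfold wC
  linear_combination (Complex.I ^ 2 / 4) * h2 + ((absD A B : ℂ) / 4) * h3 - (1 / 4) * h4

open Polynomial in
lemma isIntegral_wC (h : CQ A B) : IsIntegral ℚ (wC A B) := by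
  refine ⟨X ^ 2 - C (B : ℚ) * X - C (A : ℚ), ?_, ?_⟩
  · monicity!
  · simp only [eval₂_sub, eval₂_pow, eval₂_X, eval₂_mul, eval₂_C]
    simp only [eq_ratCast, Rat.cast_intCast]
    rw [sq, wC_sq' h]
    ring

lemma isAlgebraic_kk (h : CQ A B) : Algebra.IsAlgebraic ℚ (kk A B) := by
  refine IntermediateField.isAlgebraic_adjoin ?_
  intro x hx
  rw [Set.mem_singleton_iff] at hx
  rw [hx]
  exact isIntegral_wC h

lemma fix_iff (A B : ℤ) (σ : ℂ ≃+* ℂ) : FixK A B σ ↔ ∀ a ∈ kk A B, σ a = a := by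
  constructor
  · intro h a ha
    induction ha using IntermediateField.adjoin_induction with
    | mem x hx =>
      rw [Set.mem_singleton_iff] at hx
      rw [hx]
      exact h
    | algebraMap q =>
      rw [eq_ratCast]
      exact map_ratCast σ q
    | add x y _ _ hx hy => rw [map_add, hx, hy]
    | inv x _ hx => rw [map_inv₀, hx]
    | mul x y _ _ hx hy => rw [map_mul, hx, hy]
  · intro h
    exact h _ (wC_mem A B)

end FK

theorem tg_FK (h : Pool.Agent.MUXU.Su_AUF) : Sg_FK := by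
  intro A B hc
  refine ⟨FK.fix_iff A B, fun x hx => ?_⟩
  exact h (kk A B) (FK.isAlgebraic_kk hc) x fun σ hσ => hx σ ((FK.fix_iff A B σ).2 hσ)

end Pool.Agent.MUXN
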