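import Pool.Agent.MUX.StGX
import Pool.Agent.MUX.E_RNG
import Pool.Agent.MUX.XLib

/-!
# MUX, block G, module LOC: common denominator at `P` of elements of `k ∩ V`
-/

set_option autoImplicit false

namespace Pool.Agent.MUXN

open _root_.MU3 Pool.Agent.MU3A Pool.Agent.MU3B Pool.Agent.MUX

noncomputable section

namespace LOC

/-- elements of `k` are quotients `emb a / n` -/
lemma quot {A B : ℤ} (hC : CQ A B) {y : ℂ} (hy : y ∈ kk A B) :
    ∃ (n : ℕ) (a : OO A B), n ≠ 0 ∧ (n : ℂ) * y = emb a := by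
  have hR := Pool.Agent.MUXE.te_RNG A B hC
  have hw : IsIntegral ℤ (wC A B) := by
    rw [hR.int _ (wC_mem A B)]
    exact ⟨⟨0, 1⟩, by simp [emb]⟩
  have hfd : FiniteDimensional ℚ (kk A B) :=
    IntermediateField.adjoin.finiteDimensional (hw.tower_top)
  have halg : IsAlgebraic ℚ y := by
    have h1 : IsIntegral ℚ (⟨y, hy⟩ : kk A B) := IsIntegral.of_finite ℚ _
    have h2 : IsIntegral ℚ y := h1.map (IntermediateField.val (kk A B))
    exact h2.isAlgebraic
  have halgZ : IsAlgebraic ℤ y := (IsFractionRing.isAlgebraic_iff ℤ ℚ ℂ).2 halg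
  obtain ⟨⟨x, m⟩, hm, hx⟩ : ∃ m : ℤ × ℤ, m.2 ≠ 0 ∧ IsIntegral ℤ ((m.2 : ℂ) * y) := by
    obtain ⟨m, hm, h⟩ := halgZ.exists_integral_multiple
    refine ⟨(0, m), hm, ?_⟩
    rwa [zsmul_eq_mul] at h
  have hm' : m ≠ 0 := hm
  have hint : IsIntegral ℤ (((m.natAbs : ℕ) : ℂ) * y) := by
    rcases Int.natAbs_eq m with h | h
    · have e : ((m.natAbs : ℕ) : ℂ) = (m : ℂ) := by
        conv_rhs => rw [h]
        simp
      rw [e]
      exact hx
    · have e : ((m.natAbs : ℕ) : ℂ) = -(m : ℂ) := by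
        conv_rhs => rw [h]
        simp
      rw [e, neg_mul]
      exact hx.neg
  have hmem : ((m.natAbs : ℕ) : ℂ) * y ∈ kk A B := (kk A B).mul_mem (natCast_mem _ _) hy
  obtain ⟨a, ha⟩ := (hR.int _ hmem).1 hint
  exact ⟨m.natAbs, a, Int.natAbs_ne_zero.2 hm', ha⟩

/-- one element -/
lemma one {A B : ℤ} (hC : CQ A B) {l : ℕ} (hl : l.Prime) {P : Ideal (OO A B)} (hP : IsPN l P)
    {V : ValuationSubring ℂ} (hV : OverI V P) {y : ℂ} (hy : y ∈ kk A B) (hyV : y ∈ V) :
    ∃ t : OO A B, t ∉ P ∧ ∃ c : OO A B, emb t * y = emb c := by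
  have hR := Pool.Agent.MUXE.te_RNG A B hC
  have hded : IsDedekindDomain (OO A B) := hR.ded
  have hPp : P.IsPrime := hP.1
  obtain ⟨n, a, hn, ha⟩ := quot hC hy
  have hnC : (n : ℂ) ≠ 0 := by exact_mod_cast hn
  have hnO : (n : OO A B) ≠ 0 := natCast_ne_zero' hC hn
  by_cases ha0 : a = 0
  · refine ⟨1, fun h => hPp.ne_top (P.eq_top_iff_one.2 h), 0, ?_⟩
    have hy0 : y = 0 := by
      rw [ha0, emb_zero hC] at ha
      exact (mul_eq_zero.1 ha).resolve_left hnC
    rw [hy0, mul_zero, emb_zero hC]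
  have hPb : P ≠ ⊥ := by
    intro h
    have h1 : ((l : ℕ) : OO A B) ∈ P := hP.mem
    rw [h, Ideal.mem_bot] at h1
    exact natCast_ne_zero' hC hl.ne_zero h1
  have hprime : Prime P := Ideal.prime_of_isPrime hPb hPp
  have hna : sp a ≠ 0 := by
    rw [Ne, Ideal.zero_eq_bot, Ideal.span_singleton_eq_bot]
    exact ha0
  have hnn : sp (n : OO A B) ≠ 0 := by
    rw [Ne, Ideal.zero_eq_bot, Ideal.span_singleton_eq_bot]
    exact hnO
  obtain ⟨i, J, hJ, haJ⟩ := WfDvdMonoid.max_power_factor hna hprime.irreducible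
  obtain ⟨j, K, hK, hnK⟩ := WfDvdMonoid.max_power_factor hnn hprime.irreducible
  rw [Ideal.dvd_iff_le] at hJ hK
  obtain ⟨s, hsJ, hsP⟩ := SetLike.not_le_iff_exists.1 hJ
  obtain ⟨t, htK, htP⟩ := SetLike.not_le_iff_exists.1 hK
  rcases le_or_gt j i with hij | hij
  · -- `t a ∈ (n)`
    obtain ⟨r, rfl⟩ := Nat.exists_eq_add_of_le hij
    have h1 : t * a ∈ sp (n : OO A B) := by
      have h2 : t * a ∈ K * (P ^ (j + r) * J) :=
        Ideal.mul_mem_mul htK (haJ ▸ Ideal.mem_span_singleton_self a)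
      have h3 : K * (P ^ (j + r) * J) ≤ sp (n : OO A B) := by
        rw [hnK]
        calc K * (P ^ (j + r) * J) = P ^ j * K * (P ^ r * J) := by rw [pow_add]; ring
          _ ≤ P ^ j * K := Ideal.mul_le_left
      exact h3 h2
    obtain ⟨c, hc⟩ := Ideal.mem_span_singleton.1 h1
    refine ⟨t, htP, c, ?_⟩
    have h2 := congrArg emb hc
    rw [emb_mul hC, emb_mul hC, emb_natCast hC, ← ha] at h2
    apply mul_left_cancel₀ hnC
    linear_combination h2
  · exfalso
    obtain ⟨r, rfl⟩ := Nat.exists_eq_add_of_lt hij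
    have h1 : s * (n : OO A B) ∈ sp a * P := by
      have h2 : s * (n : OO A B) ∈ J * (P ^ (i + r + 1) * K) :=
        Ideal.mul_mem_mul hsJ (hnK ▸ Ideal.mem_span_singleton_self _)
      have h3 : J * (P ^ (i + r + 1) * K) ≤ sp a * P := by
        rw [haJ]
        calc J * (P ^ (i + r + 1) * K) = (P ^ i * J * P) * (P ^ r * K) := by
              rw [pow_succ, pow_add]; ring
          _ ≤ P ^ i * J * P := Ideal.mul_le_left
      exact h3 h2
    obtain ⟨c, hc, hac⟩ := Ideal.mem_span_singleton_mul.1 h1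
    have h2 := congrArg emb hac
    rw [emb_mul hC, emb_mul hC, emb_natCast hC, ← ha] at h2
    have h3 : emb s = y * emb c := by
      apply mul_left_cancel₀ hnC
      linear_combination -h2
    have h4 : emb c ∈ V.nonunits := (hV c).2 hc
    have h5 : emb s ∈ V.nonunits := by
      rw [ValuationSubring.mem_nonunits_iff] at h4 ⊢
      rw [h3, map_mul]
      have h6 : V.valuation y ≤ 1 := (ValuationSubring.valuation_le_one_iff _ _).2 hyV
      exact lt_of_le_of_lt (mul_le_of_le_one_left' h6) h4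
    exact hsP ((hV s).1 h5)

end LOC

open LOC in
theorem tg_LOC : Sg_LOC := by
  intro A B hC l hl P hP V hV S hS
  have hPp : P.IsPrime := hP.1
  classical
  induction S using Finset.induction_on with
  | empty =>
    exact ⟨1, fun h => hPp.ne_top (P.eq_top_iff_one.2 h), fun y hy => absurd hy (Finset.notMem_empty y)⟩
  | insert y S hyS ih =>
    obtain ⟨t, ht, htS⟩ := ih (fun z hz => hS z (Finset.mem_insert_of_mem hz))
    obtain ⟨h1, h2⟩ := hS y (Finset.mem_insert_self y S)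
    obtain ⟨u, hu, c, hc⟩ := one hC hl hP hV h1 h2
    refine ⟨t * u, fun h => (hPp.mem_or_mem h).elim ht hu, ?_⟩
    intro z hz
    rcases Finset.mem_insert.1 hz with rfl | hz
    · refine ⟨t * c, ?_⟩
      rw [emb_mul hC, emb_mul hC, ← hc]
      ring
    · obtain ⟨c', hc'⟩ := htS z hz
      refine ⟨u * c', ?_⟩
      rw [emb_mul hC, emb_mul hC, ← hc']
      ring

end

end Pool.Agent.MUXN
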