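import Pool.Agent.MUX.StGX

/-!
# MUX, block G, module NFE: a number field in `ℂ` containing finitely many given algebraic numbers
-/

set_option autoImplicit false

namespace Pool.Agent.MUXN

theorem tg_NFE : Sg_NFE := by
  intro S hS
  have hfd : FiniteDimensional ℚ (IntermediateField.adjoin ℚ (S : Set ℂ)) :=
    IntermediateField.finiteDimensional_adjoin (fun x hx => (hS x hx).isIntegral)
  refine ⟨(IntermediateField.adjoin ℚ (S : Set ℂ)).toSubfield, ?_, ?_⟩
  · have h4 : NumberField (IntermediateField.adjoin ℚ (S : Set ℂ)) := ⟨⟩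
    exact h4
  · intro x hx
    exact IntermediateField.subset_adjoin ℚ _ hx

end Pool.Agent.MUXN
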