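import Pool.Agent.MUX.StGX

/-!
# MUX, block G: module RET, linear systems over a subfield
-/

set_option autoImplicit false

namespace Pool.Agent.MUXN

theorem tg_RET : Sg_RET := by
  intro K ι _ r P w hP hw y hy
  obtain ⟨l, hl⟩ := LinearMap.exists_leftInverse_of_injective (Algebra.linearMap K ℂ)
    (LinearMap.ker_eq_bot.mpr (algebraMap K ℂ).injective)
  have hl' : ∀ x : K, l (x : ℂ) = x := fun x => by
    have := LinearMap.congr_fun hl x
    exact this
  refine ⟨fun c => ((l (y c) : K) : ℂ), fun c => (l (y c)).2, fun i => ?_⟩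
  have h1 : ∀ c, ((l (y c) : K) : ℂ) * P c i = ((l (y c * P c i) : K) : ℂ) := by
    intro c
    have h2 : y c * P c i = (⟨P c i, hP c i⟩ : K) • y c := by
      rw [Algebra.smul_def, mul_comm]; rfl
    rw [h2, map_smul, smul_eq_mul, mul_comm]
    rfl
  have h3 : ∑ c, ((l (y c) : K) : ℂ) * P c i = ((l (∑ c, y c * P c i) : K) : ℂ) := by
    rw [Finset.sum_congr rfl fun c _ => h1 c, map_sum]
    simp
  show ∑ c, ((l (y c) : K) : ℂ) * P c i = w i
  rw [h3, hy i]
  have h4 : l (w i) = ⟨w i, hw i⟩ := hl' ⟨w i, hw i⟩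
  rw [h4]

end Pool.Agent.MUXN
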