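import Pool.Agent.MUX.StGX
import Pool.Agent.MU3.Q_ALL

/-!
# MUXN_ZL: a form whose integral is invariant under `Γ₁(N)` is zero

Instead of the coefficients of `∏_v (T - Z_v)` only the norm `F = ∏_v Z_v` is used: it is invariant under
`SL(2, ℤ)`, holomorphic and bounded at `i ∞`, so constant, and the constant is `0`, since the factor `Z`
itself tends to the constant coefficient `0` of `z`. So one factor is identically zero.
-/

set_option autoImplicit false

namespace Pool.Agent.MUXN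

open _root_.MU3 Pool.Agent.MU3A Pool.Agent.MU3B Pool.Agent.MU3Q Pool.Agent.MUX Pool.Agent.MuSym
  OnePoint UpperHalfPlane ModularForm ModularFormClass EisensteinSeries
open scoped MatrixGroups Topology

namespace N_ZL

lemma hol_tendsto (W : ℍ → ℂ) (C : ℂ) (w : ℕ → ℂ) (N : ℕ) (hN : 0 < N)
    (h : ∀ τ : ℍ, HasSum (fun n : ℕ => w n *
      Complex.exp (2 * Real.pi * Complex.I * (τ : ℂ) / N) ^ (n + 1)) (W τ - C)) :
    Hol W ∧ Filter.Tendsto W atImInfty (𝓝 C) := by
  have hN' : (0 : ℝ) < N := by exact_mod_cast hN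
  have hs := Q_MR.summable_norm W C w N hN h
  have han := Q_MR.analytic w hs
  have hval : ∀ τ : ℍ, W τ = C + ∑' n : ℕ, w n *
      Complex.exp (2 * Real.pi * Complex.I * (τ : ℂ) / N) ^ (n + 1) := by
    intro τ
    rw [(h τ).tsum_eq]
    ring
  have hlt : ∀ z : ℂ, 0 < z.im → ‖Complex.exp (2 * Real.pi * Complex.I * z / N)‖ < 1 := by
    intro z hz
    rw [Q_MR.norm_q, Real.exp_lt_one_iff]
    have : 0 < 2 * Real.pi * z.im / N := by positivity
    linarith
  constructor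
  · intro z hz
    have hz' : 0 < z.im := hz
    have h1 : AnalyticAt ℂ (fun x : ℂ => Complex.exp (2 * Real.pi * Complex.I * x / N)) z := by
      fun_prop
    have h2 : AnalyticAt ℂ (fun x : ℂ => C + ∑' n : ℕ, w n *
        Complex.exp (2 * Real.pi * Complex.I * x / N) ^ (n + 1)) z :=
      analyticAt_const.add (AnalyticAt.comp' (g := fun x : ℂ => ∑' n : ℕ, w n * x ^ (n + 1))
        (han _ (hlt z hz')) h1)
    have hopen : {x : ℂ | 0 < x.im} ∈ nhds z :=
      (isOpen_lt continuous_const Complex.continuous_im).mem_nhds hz'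
    have h3 : W ∘ ofComplex =ᶠ[nhds z] (fun x : ℂ => C + ∑' n : ℕ, w n *
        Complex.exp (2 * Real.pi * Complex.I * x / N) ^ (n + 1)) := by
      filter_upwards [hopen] with x hx
      have hx' : 0 < x.im := hx
      simp only [Function.comp_apply]
      rw [hval, ofComplex_apply_of_im_pos hx']
    exact (h2.congr h3.symm).differentiableAt.differentiableWithinAt
  · have h0 : Filter.Tendsto (fun x : ℂ => C + ∑' n : ℕ, w n * x ^ (n + 1)) (𝓝 0) (𝓝 C) := by
      have h4 : ContinuousAt (fun x : ℂ => C + ∑' n : ℕ, w n * x ^ (n + 1)) 0 :=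
        (analyticAt_const.add (han 0 (by simp))).continuousAt
      have h5 : (C + ∑' n : ℕ, w n * (0 : ℂ) ^ (n + 1)) = C := by simp
      have h6 := h4.tendsto
      rw [h5] at h6
      exact h6
    have h7 := h0.comp (qParam_tendsto_atImInfty (h := N) hN')
    refine h7.congr fun τ => ?_
    rw [hval τ]
    simp [Function.comp_apply, Function.Periodic.qParam]

end N_ZL

open N_ZL in
theorem tg_ZL : Sg_ZL := by
  classical
  intro N hN Z z hZ hz0 hC hΓ
  have : NeZero N := ⟨hN.ne'⟩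
  -- the limit of `Z`
  have hZlim : Filter.Tendsto Z atImInfty (𝓝 0) := by
    refine (hol_tendsto Z 0 (fun n => PowerSeries.coeff (n + 1) z) 1 one_pos fun τ => ?_).2
    have h1 := (hasSum_nat_add_iff (f := fun n : ℕ => PowerSeries.coeff n z * qq τ ^ n) 1
      (g := Z τ)).2 (by simpa [hz0] using hZ τ)
    rw [sub_zero]
    refine h1.congr_fun fun n => ?_
    simp [qq]
  have hZeq : ∀ γ γ' : SL(2, ℤ), vm (v01 N) γ = vm (v01 N) γ' → ∀ τ, Z (γ • τ) = Z (γ' • τ) := by
    intro γ γ' h τ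
    have h1 : vm (v01 N) (γ * γ'⁻¹) = v01 N := by
      rw [← WQ.vm_mul, h, WQ.vm_mul, mul_inv_cancel, WQ.vm_one]
    have h2 := hΓ _ (WQ.mem_Gamma1 h1) (γ' • τ)
    rw [← h2, ← mul_smul, inv_mul_cancel_right]
  -- the family
  let ι : Type := {v : Fin 2 → ZMod N // ∃ γ : SL(2, ℤ), v = vm (v01 N) γ}
  have : Fintype ι := Fintype.ofFinite ι
  let g : ι → SL(2, ℤ) := fun v => v.2.choose
  have hg : ∀ v : ι, v.1 = vm (v01 N) (g v) := fun v => v.2.choose_spec
  let mv : SL(2, ℤ) → ι → ι := fun γ v => ⟨vm v.1 γ, g v * γ, by rw [← WQ.vm_mul, ← hg]⟩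
  have hmv : ∀ (γ : SL(2, ℤ)) (v : ι), (mv γ v).1 = vm v.1 γ := fun γ v => rfl
  let pm : SL(2, ℤ) → Equiv.Perm ι := fun γ =>
    { toFun := mv γ
      invFun := mv γ⁻¹
      left_inv := fun v => Subtype.ext (by
        rw [hmv, hmv, WQ.vm_mul, mul_inv_cancel, WQ.vm_one])
      right_inv := fun v => Subtype.ext (by
        rw [hmv, hmv, WQ.vm_mul, inv_mul_cancel, WQ.vm_one]) }
  let Zv : ι → ℍ → ℂ := fun v τ => Z (g v • τ)
  have hZv : ∀ (γ : SL(2, ℤ)) (v : ι) (τ : ℍ), Zv v (γ • τ) = Zv (pm γ v) τ := by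
    intro γ v τ
    change Z (g v • (γ • τ)) = Z (g (mv γ v) • τ)
    rw [← mul_smul]
    apply hZeq
    rw [← WQ.vm_mul, ← hg, ← hg]
  have hlim : ∀ v : ι, Hol (Zv v) ∧ ∃ C : ℂ, Filter.Tendsto (Zv v) atImInfty (𝓝 C) := by
    intro v
    obtain ⟨C, w, hw⟩ := hC (g v)
    have h1 := hol_tendsto (Zv v) C w N hN hw
    exact ⟨h1.1, C, h1.2⟩
  choose hHol C hCt using hlim
  let i0 : ι := ⟨v01 N, 1, (WQ.vm_one _).symm⟩
  have hi0 : Zv i0 = Z := by
    funext τ
    have := hZeq (g i0) 1 (by rw [← hg, WQ.vm_one]) τ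
    rwa [one_smul] at this
  have hC0 : C i0 = 0 := by
    have h1 := hCt i0
    rw [hi0] at h1
    exact tendsto_nhds_unique h1 hZlim
  -- the norm
  have hFlim : Filter.Tendsto (fun τ => ∏ v, Zv v τ) atImInfty (𝓝 0) := by
    have h1 : Filter.Tendsto (fun τ => ∏ v, Zv v τ) atImInfty (𝓝 (∏ v, C v)) :=
      tendsto_finsetProd _ fun v _ => hCt v
    rwa [Finset.prod_eq_zero (Finset.mem_univ i0) hC0] at h1
  have hFinv : ∀ (γ : SL(2, ℤ)) (τ : ℍ), ∏ v, Zv v (γ • τ) = ∏ v, Zv v τ := by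
    intro γ τ
    rw [← Equiv.prod_comp (pm γ) (fun v => Zv v τ)]
    exact Finset.prod_congr rfl fun v _ => hZv γ v τ
  by_cases hex : ∃ v : ι, ∀ τ, Zv v τ = 0
  · obtain ⟨v, hv⟩ := hex
    have hZ0 : ∀ τ, Z τ = 0 := by
      intro τ
      have h1 : Z (g v • ((g v)⁻¹ • τ)) = 0 := hv ((g v)⁻¹ • τ)
      rwa [smul_inv_smul] at h1
    refine t_QA.2.2.2.2 Z z 0 0 (fun τ _ => hZ τ) (fun τ _ => ?_)
    rw [hZ0 τ]
    simp only [map_zero, zero_mul]
    exact hasSum_zero
  · exfalso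
    obtain ⟨hFh, hFn⟩ := INT.prod_ne t_JB Finset.univ Zv
      (fun v _ => ⟨hHol v, fun h => hex ⟨v, h⟩⟩)
    have hb : IsBoundedAtImInfty (fun τ : ℍ => ModularForm.discriminant τ ^ 0 * ∏ v, Zv v τ) := by
      simp only [pow_zero, one_mul]
      exact hFlim.isBigO_one ℝ
    obtain ⟨c, hc⟩ := levelOne_weight_zero_const
      (ModularForm.mcast (b := 0) (by simp)
        (L118.mk 0 (fun τ => ∏ v, Zv v τ) hFh hFinv hb) : ModularForm 𝒮ℒ 0)
    have hFc : ∀ τ, ∏ v, Zv v τ = c := by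
      intro τ
      have h1 := congrFun hc τ
      have h2 : ModularForm.discriminant τ ^ 0 * ∏ v, Zv v τ = c := h1
      rwa [pow_zero, one_mul] at h2
    have hc0 : c = 0 := by
      have h1 : Filter.Tendsto (fun _ : ℍ => c) atImInfty (𝓝 0) := hFlim.congr hFc
      exact tendsto_nhds_unique tendsto_const_nhds h1
    exact hFn fun τ => by rw [hFc τ, hc0]

end Pool.Agent.MUXN
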