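import Pool.Agent.MUX.StXT

/-!
# MUX, block XT, module BAS (helper95): bases of ideals and their norm forms
-/

set_option autoImplicit false

namespace Pool.Agent.MUXT

open _root_.MU3
open Pool.Agent.MUXF (nI)
open scoped ComplexConjugate

noncomputable section

namespace BasX

variable {A B : ℤ}

theorem gen (H : AddSubgroup ℤ) (h : ∃ n ∈ H, n ≠ 0) :
    ∃ g : ℤ, 0 < g ∧ g ∈ H ∧ ∀ x ∈ H, g ∣ x := by
  obtain ⟨a, ha⟩ := Int.subgroup_cyclic H
  have h1 : ∀ x, x ∈ H ↔ a ∣ x := by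
    intro x
    rw [ha, AddSubgroup.mem_closure_singleton]
    constructor
    · rintro ⟨n, rfl⟩
      exact ⟨n, by rw [smul_eq_mul, mul_comm]⟩
    · rintro ⟨n, rfl⟩
      exact ⟨n, by rw [smul_eq_mul, mul_comm]⟩
  obtain ⟨n, hn, hn0⟩ := h
  have ha0 : a ≠ 0 := by
    rintro rfl
    exact hn0 (zero_dvd_iff.1 ((h1 n).1 hn))
  exact ⟨|a|, abs_pos.2 ha0, (h1 _).2 ((dvd_abs a a).2 dvd_rfl),
    fun x hx => (abs_dvd a x).2 ((h1 x).1 hx)⟩

/-- the second coordinate -/
def imH (A B : ℤ) : OO A B →+ ℤ where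
  toFun x := x.im
  map_zero' := rfl
  map_add' _ _ := rfl

theorem nm_pos (hD : B ^ 2 + 4 * A < 0) (x : OO A B) (hx : x ≠ 0) : 0 < nm x := by
  have h1 : 4 * nm x = (2 * x.re + B * x.im) ^ 2 + (-(B ^ 2 + 4 * A)) * x.im ^ 2 := by
    unfold nm
    ring
  by_cases h : x.im = 0
  · have h2 : x.re ≠ 0 := fun h3 => hx (QuadraticAlgebra.ext h3 h)
    have h3 : 0 < x.re ^ 2 := by positivity
    unfold nm
    rw [h]
    nlinarith
  · have h3 : 0 < x.im ^ 2 := by positivity
    nlinarith [sq_nonneg (2 * x.re + B * x.im), mul_pos (neg_pos.2 hD) h3]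

theorem mul_star' (x : OO A B) : x * star x = ((nm x : ℤ) : OO A B) := by
  ext
  · simp only [nm, QuadraticAlgebra.re_mul, QuadraticAlgebra.re_star, QuadraticAlgebra.im_star,
      QuadraticAlgebra.re_intCast, Int.cast_id]
    ring
  · simp only [QuadraticAlgebra.im_mul, QuadraticAlgebra.re_star, QuadraticAlgebra.im_star,
      QuadraticAlgebra.im_intCast]
    ring

/-- Hermite normal form -/
theorem herm (hD : B ^ 2 + 4 * A < 0) (b : Ideal (OO A B)) (hb : b ≠ ⊥) :
    ∃ s n r c : ℤ, 0 < s ∧ 0 < n ∧ r ^ 2 + B * r - A = n * c ∧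
      ∀ y : OO A B, y ∈ b ↔ ∃ i j : ℤ, y.re = i * (s * n) + j * (s * r) ∧ y.im = j * s := by
  obtain ⟨x, hxb, hx0⟩ := Submodule.exists_mem_ne_zero_of_ne_bot hb
  have hN : ((nm x : ℤ) : OO A B) ∈ b := by
    rw [← mul_star']
    exact b.mul_mem_right _ hxb
  have hNpos := nm_pos hD x hx0
  set w : OO A B := ⟨0, 1⟩ with hw
  -- the two subgroups
  obtain ⟨m, hm0, hm, hmd⟩ := gen (b.toAddSubgroup.comap (Int.castAddHom (OO A B)))
    ⟨nm x, hN, hNpos.ne'⟩
  obtain ⟨s, hs0, hs, hsd⟩ := gen (b.toAddSubgroup.map (imH A B))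
    ⟨nm x, ⟨((nm x : ℤ) : OO A B) * w, b.mul_mem_right _ hN, by
      change (((nm x : ℤ) : OO A B) * w).im = nm x
      simp [hw]⟩, hNpos.ne'⟩
  obtain ⟨be, hbe, hbes⟩ := hs
  have hbe' : be ∈ b := hbe
  have hbes' : be.im = s := hbes
  have hm' : ((m : ℤ) : OO A B) ∈ b := hm
  have hint : ∀ k : ℤ, ((k : ℤ) : OO A B) ∈ b → m ∣ k := fun k hk => hmd k hk
  have him : ∀ y ∈ b, s ∣ y.im := fun y hy => hsd y.im ⟨y, hy, rfl⟩
  -- `s ∣ m`
  obtain ⟨n, hn⟩ : s ∣ m := by
    have := him (((m : ℤ) : OO A B) * w) (b.mul_mem_right _ hm')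
    simpa [hw] using this
  -- `s ∣ be.re`
  obtain ⟨r, hr⟩ : s ∣ be.re := by
    have h1 := him (be * w) (b.mul_mem_right _ hbe')
    have h2 : (be * w).im = be.re + B * be.im := by
      simp [hw]
    rw [h2, hbes'] at h1
    exact (Int.dvd_add_left ⟨B, mul_comm _ _⟩).1 h1
  have hn0 : 0 < n := by
    have : 0 < s * n := hn ▸ hm0
    exact (mul_pos_iff_of_pos_left hs0).1 this
  -- `n ∣ r² + B r - A`
  obtain ⟨c, hc⟩ : n ∣ r ^ 2 + B * r - A := by
    have h1 : (((s * (r ^ 2 + B * r - A) : ℤ)) : OO A B) ∈ b := by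
      have e : (((s * (r ^ 2 + B * r - A) : ℤ)) : OO A B) =
          ((r + B : ℤ) : OO A B) * be - w * be := by
        generalize hK : s * (r ^ 2 + B * r - A) = K
        ext
        · simp [hw, hbes', hr]
          linear_combination -hK
        · simp [hw, hbes', hr]
          ring
      rw [e]
      exact b.sub_mem (b.mul_mem_left _ hbe') (b.mul_mem_left _ hbe')
    have h2 := hint _ h1
    rw [hn] at h2
    exact Int.dvd_of_mul_dvd_mul_left hs0.ne' h2
  refine ⟨s, n, r, c, hs0, hn0, hc, fun y => ?_⟩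
  constructor
  · intro hy
    obtain ⟨j, hj⟩ := him y hy
    have h1 : ((y.re - j * (s * r) : ℤ) : OO A B) ∈ b := by
      have e : ((y.re - j * (s * r) : ℤ) : OO A B) = y - ((j : ℤ) : OO A B) * be := by
        ext
        · simp [hr]
        · simp [hbes', hj, mul_comm]
      rw [e]
      exact b.sub_mem hy (b.mul_mem_left _ hbe')
    obtain ⟨i, hi⟩ := hint _ h1
    refine ⟨i, j, ?_, by rw [hj, mul_comm]⟩
    rw [← hn]
    linear_combination hi
  · rintro ⟨i, j, h1, h2⟩
    have e : y = ((i : ℤ) : OO A B) * ((m : ℤ) : OO A B) + ((j : ℤ) : OO A B) * be := by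
      ext
      · simp [h1, hn, hr]
      · simp [h2, hbes']
    rw [e]
    exact b.add_mem (b.mul_mem_left _ hm') (b.mul_mem_left _ hbe')

/-- the index -/
theorem index (b : Ideal (OO A B)) (s n r : ℤ) (hs : 0 < s) (hn : 0 < n)
    (h : ∀ y : OO A B, y ∈ b ↔ ∃ i j : ℤ, y.re = i * (s * n) + j * (s * r) ∧ y.im = j * s) :
    ((nI b : ℕ) : ℤ) = s * n * s := by
  have hsn : 0 < s * n := mul_pos hs hn
  set f : Fin (s * n).toNat × Fin s.toNat → OO A B ⧸ b := fun p =>
    Ideal.Quotient.mk b (⟨(p.1 : ℕ), (p.2 : ℕ)⟩ : OO A B) with hf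
  have hinj : Function.Injective f := by
    rintro ⟨i, j⟩ ⟨i', j'⟩ hij
    have h1 := (h _).1 (Ideal.Quotient.eq.1 hij)
    obtain ⟨p, q, h2, h3⟩ := h1
    simp only [QuadraticAlgebra.re_sub, QuadraticAlgebra.im_sub] at h2 h3
    have i1 : (i : ℤ) < s * n := by have := i.2; omega
    have i2 : (i' : ℤ) < s * n := by have := i'.2; omega
    have j1 : (j : ℤ) < s := by have := j.2; omega
    have j2 : (j' : ℤ) < s := by have := j'.2; omega
    have hq : q = 0 := by
      by_contra hq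
      rcases lt_or_gt_of_ne hq with hq | hq
      · have : q * s ≤ -1 * s := mul_le_mul_of_nonneg_right (by omega) hs.le
        omega
      · have : 1 * s ≤ q * s := mul_le_mul_of_nonneg_right (by omega) hs.le
        omega
    subst hq
    have hp : p = 0 := by
      by_contra hp
      rcases lt_or_gt_of_ne hp with hp | hp
      · have : p * (s * n) ≤ -1 * (s * n) := mul_le_mul_of_nonneg_right (by omega) hsn.le
        omega
      · have : 1 * (s * n) ≤ p * (s * n) := mul_le_mul_of_nonneg_right (by omega) hsn.le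
        omega
    subst hp
    have e1 : (i : ℕ) = i' := by omega
    have e2 : (j : ℕ) = j' := by omega
    exact Prod.ext (Fin.ext e1) (Fin.ext e2)
  have hsurj : Function.Surjective f := by
    intro z
    obtain ⟨y, rfl⟩ := Ideal.Quotient.mk_surjective z
    set q := y.im / s with hq
    set u := y.re - q * (s * r) with hu
    set p := u / (s * n) with hp
    have m1 := Int.emod_nonneg y.im hs.ne'
    have m2 := Int.emod_lt_of_pos y.im hs
    have m3 := Int.emod_nonneg u hsn.ne'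
    have m4 := Int.emod_lt_of_pos u hsn
    have m5 := Int.emod_add_mul_ediv y.im s
    have m6 := Int.emod_add_mul_ediv u (s * n)
    refine ⟨(⟨(u % (s * n)).toNat, by omega⟩, ⟨(y.im % s).toNat, by omega⟩), ?_⟩
    refine Ideal.Quotient.eq.2 ((h _).2 ⟨-p, -q, ?_, ?_⟩)
    · simp only [QuadraticAlgebra.re_sub]
      have e1 : (((u % (s * n)).toNat : ℕ) : ℤ) = u % (s * n) := Int.toNat_of_nonneg m3
      rw [e1]
      rw [← hp] at m6
      linear_combination m6
    · simp only [QuadraticAlgebra.im_sub]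
      have e1 : (((y.im % s).toNat : ℕ) : ℤ) = y.im % s := Int.toNat_of_nonneg m1
      rw [e1]
      rw [← hq] at m5
      linear_combination m5
  have hcard := Nat.card_congr (Equiv.ofBijective f ⟨hinj, hsurj⟩)
  rw [Nat.card_prod, Nat.card_fin, Nat.card_fin] at hcard
  unfold nI
  rw [← hcard]
  push_cast
  rw [Int.toNat_of_nonneg hs.le, Int.toNat_of_nonneg hsn.le]

end BasX

open BasX in
theorem tx_BAS : Xs_BAS := by
  intro A B hD b hb
  obtain ⟨s, n, r, c, hs, hn, hc, hmem⟩ := herm hD b hb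
  have hidx := index b s n r hs hn hmem
  set al : OO A B := ((s * n : ℤ) : OO A B) with hal
  set be : OO A B := ⟨s * r, s⟩ with hbe
  set F : QF := ⟨n, 2 * r + B, c⟩ with hF
  have hFD : F.D = -(B ^ 2 + 4 * A) := by
    unfold QF.D
    change 4 * n * c - (2 * r + B) ^ 2 = _
    linear_combination -4 * hc
  have hsn : 0 < s * n := mul_pos hs hn
  have hre : ∀ x : Z2, (((x.1 : ℤ) : OO A B) * al + ((x.2 : ℤ) : OO A B) * be).re =
      x.1 * (s * n) + x.2 * (s * r) := by
    intro x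
    simp [hal, hbe]
  have him : ∀ x : Z2, (((x.1 : ℤ) : OO A B) * al + ((x.2 : ℤ) : OO A B) * be).im =
      x.2 * s := by
    intro x
    simp [hal, hbe]
  refine ⟨al, be, F, ⟨hn, by rw [hFD]; omega⟩, hFD, ?_⟩
  refine ⟨?_, ?_, ?_, ?_, ?_, ?_⟩
  · intro h0
    have h1 := congrArg QuadraticAlgebra.re h0
    simp [hal] at h1
    rcases h1 with h1 | h1
    · exact hs.ne' h1
    · exact hn.ne' h1
  · intro x
    exact (hmem _).2 ⟨x.1, x.2, hre x, him x⟩
  · intro y hy
    obtain ⟨i, j, h1, h2⟩ := (hmem y).1 hy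
    exact ⟨(i, j), QuadraticAlgebra.ext (by rw [hre, h1]) (by rw [him, h2])⟩
  · intro x y hxy
    have h1 := congrArg QuadraticAlgebra.im hxy
    have h2 := congrArg QuadraticAlgebra.re hxy
    rw [him, him] at h1
    rw [hre, hre] at h2
    have h3 : x.2 = y.2 := mul_right_cancel₀ hs.ne' h1
    rw [h3] at h2
    have h4 : x.1 = y.1 := mul_right_cancel₀ hsn.ne' (add_right_cancel h2)
    exact Prod.ext h4 h3
  · intro x
    rw [hidx]
    unfold nm QF.ev
    rw [hre, him]
    change _ = s * n * s * (n * x.1 ^ 2 + (2 * r + B) * x.1 * x.2 + c * x.2 ^ 2)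
    linear_combination (s ^ 2 * x.2 ^ 2) * hc
  · have e1 : emb al = (s : ℂ) * n := by
      simp [hal, emb]
    have e2 : emb be = (s : ℂ) * r + s * wC A B := by
      simp [hbe, emb]
    have hnC : (n : ℂ) ≠ 0 := by exact_mod_cast hn.ne'
    rw [e1, e2]
    unfold QF.tau wC
    rw [hFD]
    have e3 : (F.b : ℂ) = 2 * r + B := by
      change (((2 * r + B : ℤ)) : ℂ) = _
      push_cast
      rfl
    have e4 : (F.a : ℂ) = n := rfl
    rw [e3, e4, show absD A B = -(B ^ 2 + 4 * A) from rfl]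
    field_simp
    ring

end

end Pool.Agent.MUXT
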