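import Pool.Agent.MUX.StXT

/-!
# MUX, block XT: bounds near i oo (BND) (helper43)
-/

set_option autoImplicit false

namespace Pool.Agent.MUXT

open Filter Topology
open scoped ComplexConjugate

noncomputable section

namespace BND43

theorem lc_zero (F : QF) : F.lc 0 = 0 := by
  unfold QF.lc
  simp

theorem re_eq (n : ℤ) (z : ℂ) : (2 * Real.pi * Complex.I * (n : ℂ) * z).re =
    -(2 * Real.pi * (n : ℝ) * z.im) := by
  have h6 : (2 * Real.pi * Complex.I * (n : ℂ) * z) =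
      ((2 * Real.pi * (n : ℝ) : ℝ) : ℂ) * (Complex.I * z) := by
    push_cast; ring
  rw [h6, Complex.re_ofReal_mul]
  simp

/-- the common estimate -/
theorem est (n : ℤ) (hn : 1 ≤ n) (c z : ℂ) (hz : 1 ≤ z.im) :
    ‖c * Complex.exp (2 * Real.pi * Complex.I * (n : ℂ) * z)‖ ≤
      Real.exp (-(2 * Real.pi * (z.im - 1))) *
        ‖c * Complex.exp (2 * Real.pi * Complex.I * (n : ℂ) * Complex.I)‖ := by
  have h1' : (1 : ℝ) ≤ (n : ℝ) := by exact_mod_cast hn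
  rw [norm_mul, norm_mul, Complex.norm_exp, Complex.norm_exp, mul_left_comm]
  refine mul_le_mul_of_nonneg_left ?_ (norm_nonneg _)
  rw [← Real.exp_add]
  apply Real.exp_le_exp.2
  rw [re_eq, re_eq, Complex.I_im]
  have hpi := Real.pi_pos
  nlinarith [mul_nonneg (mul_nonneg (by positivity : (0 : ℝ) ≤ 2 * Real.pi)
    (by linarith : (0 : ℝ) ≤ (n : ℝ) - 1)) (by linarith : (0 : ℝ) ≤ z.im - 1)]

theorem tm_est {F : QF} (h1 : ∀ x : Z2, x ≠ 0 → 1 ≤ F.ev x) (W : Z2 → ℂ) (z : ℂ)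
    (hz : 1 ≤ z.im) (x : Z2) :
    ‖tm F W z x‖ ≤ Real.exp (-(2 * Real.pi * (z.im - 1))) * ‖tm F W Complex.I x‖ := by
  by_cases hx : x = 0
  · subst hx
    simp [tm, lc_zero]
  · exact est (F.ev x) (h1 x hx) (W x * F.lc x) z hz

theorem tI_est {F : QF} (h1 : ∀ x : Z2, x ≠ 0 → 1 ≤ F.ev x) (W : Z2 → ℂ) (z : ℂ)
    (hz : 1 ≤ z.im) (x : Z2) :
    ‖tI F W z x‖ ≤ Real.exp (-(2 * Real.pi * (z.im - 1))) * ‖tI F W Complex.I x‖ := by
  by_cases hx : x = 0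
  · subst hx
    simp [tI, lc_zero]
  · exact est (F.ev x) (h1 x hx) (W x * F.lc x / (F.ev x : ℂ)) z hz

theorem sum_est {f : ℂ → Z2 → ℂ} (hs : ∀ z : ℂ, 0 < z.im → Summable (f z))
    (hb : ∀ z : ℂ, 1 ≤ z.im → ∀ x, ‖f z x‖ ≤
      Real.exp (-(2 * Real.pi * (z.im - 1))) * ‖f Complex.I x‖) (z : ℂ) (hz : 1 ≤ z.im) :
    ‖∑' y, f z y‖ ≤ (Real.exp (2 * Real.pi) * ∑' y, ‖f Complex.I y‖) *
      Real.exp (-(2 * Real.pi * z.im)) := by
  have hz0 : 0 < z.im := by linarith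
  have hI : (0 : ℝ) < (Complex.I).im := by simp
  have hsz := (hs z hz0).norm
  have e : Real.exp (-(2 * Real.pi * (z.im - 1))) =
      Real.exp (2 * Real.pi) * Real.exp (-(2 * Real.pi * z.im)) := by
    rw [← Real.exp_add]
    congr 1
    ring
  calc ‖∑' y, f z y‖ ≤ ∑' y, ‖f z y‖ := norm_tsum_le_tsum_norm hsz
    _ ≤ ∑' y, Real.exp (-(2 * Real.pi * (z.im - 1))) * ‖f Complex.I y‖ :=
        hsz.tsum_le_tsum (hb z hz) ((hs _ hI).norm.mul_left _)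
    _ = Real.exp (-(2 * Real.pi * (z.im - 1))) * ∑' y, ‖f Complex.I y‖ := by rw [tsum_mul_left]
    _ = (Real.exp (2 * Real.pi) * ∑' y, ‖f Complex.I y‖) *
      Real.exp (-(2 * Real.pi * z.im)) := by rw [e]; ring

end BND43

open BND43 in
theorem tx_BND (hQFF : Xs_QFF) (hDIF : Xs_DIF) : Xs_BND := by
  intro F hF W hW
  obtain ⟨_, _, _, _, h1, _, _⟩ := hQFF F hF
  obtain ⟨hs, _, _⟩ := hDIF F hF W hW
  obtain ⟨C1, hC1⟩ : ∃ C : ℝ, C = Real.exp (2 * Real.pi) * ∑' y, ‖tm F W Complex.I y‖ := ⟨_, rfl⟩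
  obtain ⟨C2, hC2⟩ : ∃ C : ℝ, C = Real.exp (2 * Real.pi) * ∑' y, ‖tI F W Complex.I y‖ := ⟨_, rfl⟩
  have p1 : 0 ≤ C1 := by
    rw [hC1]
    exact mul_nonneg (Real.exp_pos _).le (tsum_nonneg fun _ => norm_nonneg _)
  have p2 : 0 ≤ C2 := by
    rw [hC2]
    exact mul_nonneg (Real.exp_pos _).le (tsum_nonneg fun _ => norm_nonneg _)
  refine ⟨C1 + C2 + 1, by linarith, fun z hz => ⟨?_, ?_⟩⟩
  · have h := sum_est (f := tm F W) (fun z hz => (hs z hz).1) (tm_est h1 W) z hz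
    rw [← hC1] at h
    exact h.trans (mul_le_mul_of_nonneg_right (by linarith) (Real.exp_pos _).le)
  · have h := sum_est (f := tI F W) (fun z hz => (hs z hz).2) (tI_est h1 W) z hz
    rw [← hC2] at h
    exact h.trans (mul_le_mul_of_nonneg_right (by linarith) (Real.exp_pos _).le)

end

end Pool.Agent.MUXT
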