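import Pool.Agent.MUX.StXT

/-!
# MUX, block XT, module CHQ: `chiQ` is the quadratic character (helper1)
-/

set_option autoImplicit false

namespace Pool.Agent.MUXT

open _root_.MU3

namespace ChqAux

theorem prime_odd {p : ℕ} (hp : p.Prime) {D : ℤ} (hd : ¬ (p : ℤ) ∣ 2 * D) : p ≠ 2 := by
  rintro rfl
  exact hd ⟨D, by norm_num⟩

/-- quadratic reciprocity for `D ≡ 3` modulo 4 -/
theorem rec_three (D p : ℕ) (hD : D % 4 = 3) (hp : p % 2 = 1) :
    jacobiSym (p : ℤ) D = jacobiSym (-(D : ℤ)) p := by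
  have hpo : Odd p := Nat.odd_iff.mpr hp
  have hDo : Odd D := Nat.odd_iff.mpr (by omega)
  have h1 : jacobiSym (-(D : ℤ)) p = ZMod.χ₄ p * jacobiSym (D : ℤ) p := jacobiSym.neg _ hpo
  rw [h1]
  have h4 : p % 4 = 1 ∨ p % 4 = 3 := by omega
  rcases h4 with h | h
  · rw [ZMod.χ₄_nat_one_mod_four h, one_mul,
      jacobiSym.quadratic_reciprocity_one_mod_four h hDo]
  · rw [ZMod.χ₄_nat_three_mod_four h, jacobiSym.quadratic_reciprocity_three_mod_four h hD]
    ring

theorem chi_one (D : ℕ) (hD : D % 4 = 3) :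
    IsChi (D : ℤ) (fun d => jacobiSym d D) := by
  refine ⟨jacobiSym.one_left D, ?_, ?_, ?_⟩
  · intro p hp hd
    have hp2 := prime_odd hp.out hd
    rw [jacobiSym.legendreSym.to_jacobiSym]
    exact rec_three D p hD (hp.out.eq_two_or_odd.resolve_left hp2)
  · intro d d' _ _ _ hdd
    show jacobiSym d D = jacobiSym d' D
    rw [jacobiSym.mod_left d, jacobiSym.mod_left d']
    have h : d % (D : ℤ) = d' % (D : ℤ) := (Int.modEq_iff_dvd.mpr hdd : d' ≡ d [ZMOD D]).symm
    rw [h]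
  · intro d
    show jacobiSym (-d) D = -jacobiSym d D
    rw [jacobiSym.neg _ (Nat.odd_iff.mpr (by omega)), ZMod.χ₄_nat_three_mod_four hD]
    ring

theorem chi_zero (A : ℤ) (hA : A < 0) :
    IsChi (-(4 * A)) (fun d => jacobiSym A d.natAbs * d.sign) := by
  refine ⟨by simp, ?_, ?_, ?_⟩
  · intro p hp hd
    have hp2 := prime_odd hp.out hd
    have h2 : ((2 : ℤ) : ZMod p) ≠ 0 := by
      intro h
      rw [ZMod.intCast_zmod_eq_zero_iff_dvd] at h
      exact hd (h.trans ⟨-(4 * A), by ring⟩)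
    have e1 : -(-(4 * A)) = A * 2 ^ 2 := by ring
    rw [e1, legendreSym.mul, legendreSym.sq_one' p h2, mul_one,
      jacobiSym.legendreSym.to_jacobiSym]
    have hs : ((p : ℤ)).sign = 1 := Int.sign_eq_one_of_pos (by exact_mod_cast hp.out.pos)
    simp [hs]
  · intro d d' hd hd' hco hdd
    show jacobiSym A d.natAbs * d.sign = jacobiSym A d'.natAbs * d'.sign
    rw [Int.sign_eq_one_of_pos hd, Int.sign_eq_one_of_pos hd', mul_one, mul_one]
    have hodd : d % 2 = 1 := by
      by_contra h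
      have h2 : (2 : ℤ) ∣ d := by omega
      have h3 : (2 : ℤ) ∣ -(4 * A) := ⟨-(2 * A), by ring⟩
      have h4 := hco.isUnit_of_dvd' h2 h3
      rw [Int.isUnit_iff] at h4
      omega
    have hodd' : d' % 2 = 1 := by
      have h3 : (2 : ℤ) ∣ d - d' := dvd_trans ⟨-(2 * A), by ring⟩ hdd
      omega
    have ho : Odd d.natAbs := by
      rw [Nat.odd_iff]; omega
    have ho' : Odd d'.natAbs := by
      rw [Nat.odd_iff]; omega
    rw [jacobiSym.mod_right A ho, jacobiSym.mod_right A ho']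
    congr 1
    have hm : d'.natAbs ≡ d.natAbs [MOD (4 * A.natAbs)] := by
      rw [Nat.modEq_iff_dvd]
      have e1 : ((4 * A.natAbs : ℕ) : ℤ) = -(4 * A) := by
        push_cast
        rw [abs_of_neg hA]
        ring
      have e2 : ((d.natAbs : ℕ) : ℤ) = d := Int.natAbs_of_nonneg hd.le
      have e3 : ((d'.natAbs : ℕ) : ℤ) = d' := Int.natAbs_of_nonneg hd'.le
      rw [e1, e2, e3]
      exact hdd
    exact hm.symm
  · intro d
    show jacobiSym A (-d).natAbs * (-d).sign = -(jacobiSym A d.natAbs * d.sign)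
    rw [Int.natAbs_neg, Int.sign_neg]
    ring

end ChqAux

theorem tx_CHQ : Xs_CHQ := by
  intro A B hB hneg
  rcases hB with rfl | rfl
  · have hA : A < 0 := by
      have : (0 : ℤ) ^ 2 + 4 * A = 4 * A := by ring
      omega
    have e1 : -((0 : ℤ) ^ 2 + 4 * A) = -(4 * A) := by ring
    have e2 : chiQ A 0 = fun d => jacobiSym A d.natAbs * d.sign := by
      funext d
      unfold chiQ
      simp
    rw [e1, e2]
    exact ChqAux.chi_zero A hA
  · have e0 : (1 : ℤ) ^ 2 + 4 * A = 1 + 4 * A := by ring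
    rw [e0] at hneg
    obtain ⟨D, hD⟩ : ∃ D : ℕ, (D : ℤ) = -(1 + 4 * A) := ⟨(-(1 + 4 * A)).toNat, by omega⟩
    have e2 : chiQ A 1 = fun d => jacobiSym d D := by
      funext d
      unfold chiQ
      rw [if_pos rfl, e0, ← hD, Int.toNat_natCast]
    rw [e0, e2, ← hD]
    exact ChqAux.chi_one D (by omega)

end Pool.Agent.MUXT
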