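import Pool.Agent.MUX.StXT

/-!
# MUXT, module CLS: sums over `ℤ²` and over the classes modulo `m`
-/

set_option autoImplicit false

namespace Pool.Agent.MUXT

namespace CLS

open Finset

/-- shift of a periodic function of one variable -/
lemma shift1 (m : ℕ) (hm : 0 < m) (g : ℤ → ℂ) (hg : ∀ x y : ℤ, (m : ℤ) ∣ x - y → g x = g y) (v : ℤ) :
    ∑ i ∈ range m, g ((i : ℤ) + v) = ∑ i ∈ range m, g (i : ℤ) := by
  have hmZ : (0 : ℤ) < (m : ℤ) := by exact_mod_cast hm
  set φ : ℕ → ℕ := fun i => (((i : ℤ) + v) % (m : ℤ)).toNat with hφ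
  have hφc : ∀ i, ((φ i : ℕ) : ℤ) = ((i : ℤ) + v) % (m : ℤ) := fun i =>
    Int.toNat_of_nonneg (Int.emod_nonneg _ hmZ.ne')
  have hinj : Set.InjOn φ (range m : Finset ℕ) := by
    intro i hi j hj hij
    have hi' : i < m := mem_range.mp (by exact_mod_cast hi)
    have hj' : j < m := mem_range.mp (by exact_mod_cast hj)
    have h1 : ((i : ℤ) + v) % (m : ℤ) = ((j : ℤ) + v) % (m : ℤ) := by
      rw [← hφc, ← hφc, hij]
    have h2 : (m : ℤ) ∣ ((i : ℤ) + v) - ((j : ℤ) + v) := Int.emod_eq_emod_iff_emod_sub_eq_zero.mp h1 |>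
      Int.dvd_of_emod_eq_zero
    have h3 : (m : ℤ) ∣ (i : ℤ) - j := by
      have : ((i : ℤ) + v) - ((j : ℤ) + v) = (i : ℤ) - j := by ring
      rwa [this] at h2
    have h4 : (i : ℤ) - j = 0 := by
      apply Int.eq_zero_of_abs_lt_dvd h3
      rw [abs_lt]; constructor <;> omega
    omega
  have himg : (range m).image φ = range m := by
    apply Finset.eq_of_subset_of_card_le
    · intro x hx
      obtain ⟨i, _, rfl⟩ := mem_image.mp hx
      rw [mem_range]
      have := Int.emod_lt_of_pos ((i : ℤ) + v) hmZ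
      have h2 := hφc i
      omega
    · rw [Finset.card_image_of_injOn hinj]
  calc ∑ i ∈ range m, g ((i : ℤ) + v) = ∑ i ∈ range m, g ((φ i : ℕ) : ℤ) := by
        refine Finset.sum_congr rfl fun i _ => hg _ _ ?_
        rw [hφc]
        exact Int.dvd_self_sub_emod
    _ = ∑ i ∈ (range m).image φ, g (i : ℤ) :=
        (Finset.sum_image (f := fun i : ℕ => g (i : ℤ)) hinj).symm
    _ = _ := by rw [himg]

/-- Chinese remainder theorem in one variable -/
lemma crt1 (d G : ℕ) (hd : 0 < d) (hG : 0 < G) (hc : Nat.Coprime d G) (g : ℤ → ℂ)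
    (hg : ∀ x y : ℤ, ((d * G : ℕ) : ℤ) ∣ x - y → g x = g y) :
    ∑ i ∈ range (d * G), g (i : ℤ) =
      ∑ k ∈ range G, ∑ l ∈ range d, g ((d : ℤ) * (k : ℤ) + (G : ℤ) * (l : ℤ)) := by
  have hdG : 0 < d * G := Nat.mul_pos hd hG
  set φ : ℕ × ℕ → ℕ := fun p => (d * p.1 + G * p.2) % (d * G) with hφ
  have hcZ : IsCoprime (d : ℤ) (G : ℤ) := Nat.isCoprime_iff_coprime.mpr hc
  have hinj : Set.InjOn φ ((range G ×ˢ range d : Finset (ℕ × ℕ)) : Set (ℕ × ℕ)) := by
    rintro ⟨k, l⟩ hp ⟨k', l'⟩ hp' h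
    have hp1 := mem_product.mp (by exact_mod_cast hp : (k, l) ∈ range G ×ˢ range d)
    have hp2 := mem_product.mp (by exact_mod_cast hp' : (k', l') ∈ range G ×ˢ range d)
    have hk : k < G := mem_range.mp hp1.1
    have hl : l < d := mem_range.mp hp1.2
    have hk' : k' < G := mem_range.mp hp2.1
    have hl' : l' < d := mem_range.mp hp2.2
    have h1 : (d * k + G * l) ≡ (d * k' + G * l') [MOD (d * G)] := h
    have h2 := (Nat.modEq_iff_dvd.mp h1)
    push_cast at h2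
    have hGd : (G : ℤ) ∣ (d : ℤ) * ((k' : ℤ) - k) := by
      have h3 : (G : ℤ) ∣ ((d : ℤ) * k' + G * l') - (d * k + G * l) := (Dvd.intro_left _ rfl).trans h2
      have h4 : (d : ℤ) * ((k' : ℤ) - k) =
          (((d : ℤ) * k' + G * l') - (d * k + G * l)) - G * ((l' : ℤ) - l) := by ring
      rw [h4]
      exact dvd_sub h3 (Dvd.intro _ rfl)
    have hdG' : (d : ℤ) ∣ (G : ℤ) * ((l' : ℤ) - l) := by
      have h3 : (d : ℤ) ∣ ((d : ℤ) * k' + G * l') - (d * k + G * l) := (Dvd.intro _ rfl).trans h2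
      have h4 : (G : ℤ) * ((l' : ℤ) - l) =
          (((d : ℤ) * k' + G * l') - (d * k + G * l)) - d * ((k' : ℤ) - k) := by ring
      rw [h4]
      exact dvd_sub h3 (Dvd.intro _ rfl)
    have e1 : (G : ℤ) ∣ (k' : ℤ) - k := hcZ.symm.dvd_of_dvd_mul_left hGd
    have e2 : (d : ℤ) ∣ (l' : ℤ) - l := hcZ.dvd_of_dvd_mul_left hdG'
    have e3 : (k' : ℤ) - k = 0 := by
      apply Int.eq_zero_of_abs_lt_dvd e1
      rw [abs_lt]; constructor <;> omega
    have e4 : (l' : ℤ) - l = 0 := by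
      apply Int.eq_zero_of_abs_lt_dvd e2
      rw [abs_lt]; constructor <;> omega
    have e5 : k = k' := by omega
    have e6 : l = l' := by omega
    rw [e5, e6]
  have himg : (range G ×ˢ range d).image φ = range (d * G) := by
    apply Finset.eq_of_subset_of_card_le
    · intro x hx
      obtain ⟨p, _, rfl⟩ := mem_image.mp hx
      exact mem_range.mpr (Nat.mod_lt _ hdG)
    · rw [Finset.card_image_of_injOn hinj, Finset.card_product, card_range, card_range, card_range,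
        Nat.mul_comm]
  rw [← himg, Finset.sum_image hinj, Finset.sum_product]
  refine Finset.sum_congr rfl fun k _ => Finset.sum_congr rfl fun l _ => hg _ _ ?_
  have h1 : (((d * k + G * l) % (d * G) : ℕ) : ℤ) = ((d : ℤ) * k + G * l) % ((d * G : ℕ) : ℤ) := by
    push_cast; rfl
  show ((d * G : ℕ) : ℤ) ∣ (((d * k + G * l) % (d * G) : ℕ) : ℤ) - _
  rw [h1]
  exact (dvd_sub_comm).mp Int.dvd_self_sub_emod

/-- sums over classes -/
lemma cls2 (m : ℕ) (hm : 0 < m) (f : Z2 → ℂ) (hf : Summable f) :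
    ∑' x, f x = sm m (fun x => ∑' w : Z2, f (x.1 + m * w.1, x.2 + m * w.2)) := by
  have : NeZero m := ⟨hm.ne'⟩
  let e : Z2 ≃ (Fin m × Fin m) × Z2 :=
    ((Equiv.prodCongr (Int.divModEquiv m) (Int.divModEquiv m)).trans
      (Equiv.prodProdProdComm ℤ (Fin m) ℤ (Fin m))).trans (Equiv.prodComm _ _)
  have he : ∀ p : (Fin m × Fin m) × Z2,
      e.symm p = ((p.1.1 : ℤ) + m * p.2.1, (p.1.2 : ℤ) + m * p.2.2) := by
    rintro ⟨⟨k, l⟩, ⟨a, b⟩⟩
    simp only [e, Equiv.symm_trans_apply, Equiv.prodComm_symm, Equiv.prodComm_apply, Prod.swap_prod_mk,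
      Equiv.prodProdProdComm_symm, Equiv.prodProdProdComm_apply, Equiv.prodCongr_symm,
      Equiv.prodCongr_apply, Prod.map_apply, Int.divModEquiv_symm_apply]
    ext <;> simp <;> ring
  rw [← e.symm.tsum_eq f]
  have hs : Summable (fun p => f (e.symm p)) := (e.symm.summable_iff (f := f)).mpr hf
  rw [hs.tsum_prod, tsum_fintype, Fintype.sum_prod_type]
  unfold sm
  rw [Finset.sum_range]
  refine Finset.sum_congr rfl fun k _ => ?_
  rw [Finset.sum_range]
  refine Finset.sum_congr rfl fun l _ => ?_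
  refine tsum_congr fun w => ?_
  rw [he]

end CLS

/-- (CLS) -/
theorem tx_CLS : Xs_CLS := by
  refine ⟨fun m hm f hf => CLS.cls2 m hm f hf, fun m hm f hf v => ?_, fun d G hd hG hc f hf => ?_⟩
  · unfold sm
    have h1 : ∀ i ∈ Finset.range m, ∑ j ∈ Finset.range m, f ((i : ℤ) + v.1, (j : ℤ) + v.2) =
        ∑ j ∈ Finset.range m, f ((i : ℤ) + v.1, (j : ℤ)) := by
      intro i _
      exact CLS.shift1 m hm (fun y => f ((i : ℤ) + v.1, y))
        (fun x y h => hf _ _ (by simp) h) v.2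
    show ∑ i ∈ Finset.range m, ∑ j ∈ Finset.range m, f ((i : ℤ) + v.1, (j : ℤ) + v.2) = _
    rw [Finset.sum_congr rfl h1, Finset.sum_comm, Finset.sum_comm (s := Finset.range m)
      (t := Finset.range m) (f := fun i j => f ((i : ℤ), (j : ℤ)))]
    refine Finset.sum_congr rfl fun j _ => ?_
    exact CLS.shift1 m hm (fun x => f (x, (j : ℤ))) (fun x y h => hf _ _ h (by simp)) v.1
  · unfold sm
    have hf' : ∀ x y : Z2, ((d * G : ℕ) : ℤ) ∣ x.1 - y.1 → ((d * G : ℕ) : ℤ) ∣ x.2 - y.2 →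
        f x = f y := hf
    have h1 : ∀ i ∈ Finset.range (d * G), ∑ j ∈ Finset.range (d * G), f ((i : ℤ), (j : ℤ)) =
        ∑ k ∈ Finset.range G, ∑ l ∈ Finset.range d, f ((i : ℤ), (d : ℤ) * (k : ℤ) + (G : ℤ) * (l : ℤ)) := by
      intro i _
      exact CLS.crt1 d G hd hG hc (fun y => f ((i : ℤ), y))
        (fun x y h => hf' _ _ (by simp) h)
    rw [Finset.sum_congr rfl h1]
    have h2 := CLS.crt1 d G hd hG hc (fun x => ∑ k ∈ Finset.range G, ∑ l ∈ Finset.range d,
      f (x, (d : ℤ) * (k : ℤ) + (G : ℤ) * (l : ℤ))) (fun x y h => by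
        refine Finset.sum_congr rfl fun k _ => Finset.sum_congr rfl fun l _ => ?_
        exact hf' _ _ h (by simp))
    rw [h2]
    refine Finset.sum_congr rfl fun k _ => ?_
    rw [Finset.sum_comm]

end Pool.Agent.MUXT
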