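import Pool.Agent.MUX.StXT

/-!
# MUX, block XT, module CUS (helper7): the limit of `ThI` at a cusp

Adapted from `Pool/Agent/MU3/T_CUS.lean` (helper96).
-/

set_option autoImplicit false

namespace Pool.Agent.MUXT

open _root_.MU3 Pool.Agent.MuSym OnePoint Filter Topology
open scoped ComplexConjugate

noncomputable section

namespace X_CUS

theorem phi_inf (F : QF) (W : Z2 → ℂ) : PhiQ F W ∞ ∞ = 0 := by
  unfold PhiQ
  exact sub_self _

theorem phi_rat (F : QF) (W : Z2 → ℂ) (r : ℚ) :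
    PhiQ F W ∞ ((r : ℚ) : OnePoint ℚ) = -IvQ F W r := by
  unfold PhiQ IcQ
  change (0 : ℂ) - IvQ F W r = _
  ring

theorem mob_inf_zero (a b d : ℤ) : mob a b 0 d ∞ = ∞ := by
  change (if (0 : ℤ) = 0 then (∞ : OnePoint ℚ) else ((a / (0 : ℤ) : ℚ) : OnePoint ℚ)) = ∞
  rw [if_pos rfl]

theorem mob_inf_ne (a b c d : ℤ) (hc : c ≠ 0) :
    mob a b c d ∞ = ((a / c : ℚ) : OnePoint ℚ) := by
  change (if c = 0 then (∞ : OnePoint ℚ) else ((a / c : ℚ) : OnePoint ℚ)) = _
  rw [if_neg hc]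

/-- the translations do not change the imaginary part -/
theorem im_tr (a b d : ℤ) (h : a * d = 1) (z : ℂ) :
    (((a : ℂ) * z + b) / (((0 : ℤ) : ℂ) * z + d)).im = z.im := by
  have h1 : (a : ℂ) * (d : ℂ) = 1 := by exact_mod_cast h
  have hd : (d : ℂ) ≠ 0 := right_ne_zero_of_mul_eq_one h1
  have hdd : d * d = 1 := by
    rcases Int.isUnit_iff.1 (IsUnit.of_mul_eq_one_right a h) with h2 | h2 <;> rw [h2] <;> norm_num
  have had : a = d := by
    calc a = a * (d * d) := by rw [hdd, mul_one]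
      _ = (a * d) * d := by ring
      _ = d := by rw [h, one_mul]
  have h2 : ((a : ℂ) * z + b) / (((0 : ℤ) : ℂ) * z + d) = z + ((a * b : ℤ) : ℂ) := by
    rw [Int.cast_zero, zero_mul, zero_add, div_eq_iff hd]
    push_cast
    have h3 : (a : ℂ) = d := by exact_mod_cast had
    have h4 : (d : ℂ) * d = 1 := by exact_mod_cast hdd
    rw [h3]
    linear_combination (-(b : ℂ)) * h4
  rw [h2, Complex.add_im, Complex.intCast_im, add_zero]

/-- the image of a vertical line -/
theorem vert (a b c d : ℤ) (h : a * d - b * c = 1) (hc : c ≠ 0) (s : ℝ) (hs : 0 < s) :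
    ((a : ℂ) * (-(d : ℂ) / c + s * Complex.I) + b) /
        ((c : ℂ) * (-(d : ℂ) / c + s * Complex.I) + d) =
      (((a / c : ℚ)) : ℂ) + ((((c : ℝ) ^ 2 * s)⁻¹ : ℝ) : ℂ) * Complex.I := by
  have h1 : (a : ℂ) * d - b * c = 1 := by exact_mod_cast h
  have hc' : (c : ℂ) ≠ 0 := by exact_mod_cast hc
  have hs' : (s : ℂ) ≠ 0 := by exact_mod_cast hs.ne'
  have hI : Complex.I ≠ 0 := Complex.I_ne_zero
  have h2 : (c : ℂ) * (-(d : ℂ) / c + s * Complex.I) + d = c * (s * Complex.I) := by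
    field_simp
    ring
  rw [h2]
  push_cast
  rw [div_eq_iff (mul_ne_zero hc' (mul_ne_zero hs' hI))]
  field_simp
  have hI2 : Complex.I ^ 2 = -1 := Complex.I_sq
  linear_combination (-1 : ℂ) * h1 - hI2

end X_CUS

open X_CUS in
theorem tx_CUS (hWBD : Xs_WBD) (hBND : Xs_BND) (hVLN : Xs_VLN) : Xs_CUS := by
  intro F hF W G hG hW a b c d hdet C hC
  by_cases hc : c = 0
  · subst hc
    rw [mob_inf_zero, phi_inf]
    have had : a * d = 1 := by linarith
    by_contra hne
    have hpos : 0 < ‖C‖ := norm_pos_iff.2 hne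
    obtain ⟨K, hK, h1⟩ := hBND F hF W (hWBD.1 G W hG hW)
    obtain ⟨R2, h2⟩ := hC (‖C‖ / 2) (half_pos hpos)
    have hlim : Tendsto (fun t : ℝ => K * Real.exp (-(2 * Real.pi * t))) atTop (𝓝 0) := by
      have h3 : Tendsto (fun t : ℝ => 2 * Real.pi * t) atTop atTop :=
        tendsto_id.const_mul_atTop (by positivity)
      simpa using (Real.tendsto_exp_neg_atTop_nhds_zero.comp h3).const_mul K
    obtain ⟨t, ht1, ht2, ht3⟩ := ((eventually_ge_atTop (1 : ℝ)).and
      ((eventually_ge_atTop R2).and (hlim.eventually_lt_const hpos))).exists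
    have him : ((t : ℂ) * Complex.I).im = t := by simp
    have h3 := (h1 (((a : ℂ) * ((t : ℂ) * Complex.I) + b) /
      (((0 : ℤ) : ℂ) * ((t : ℂ) * Complex.I) + d)) (by
        rw [im_tr a b d had, him]
        exact ht1)).2
    rw [im_tr a b d had, him] at h3
    have h4 := h2 ((t : ℂ) * Complex.I) (by
      rw [him]
      exact ht2) (by
      rw [him]
      linarith)
    unfold ThI at h4
    set w := ∑' y, tI F W (((a : ℂ) * ((t : ℂ) * Complex.I) + b) /
      (((0 : ℤ) : ℂ) * ((t : ℂ) * Complex.I) + d)) y with hw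
    have h5 : ‖C‖ ≤ ‖(1 / 2) * w - C‖ + ‖(1 / 2) * w‖ := by
      have h6 := norm_sub_norm_le C ((1 / 2) * w)
      rw [norm_sub_rev] at h6
      linarith
    have h7 : ‖(1 / 2 : ℂ) * w‖ = 1 / 2 * ‖w‖ := by
      rw [norm_mul]
      norm_num
    rw [h7] at h5
    linarith
  · rw [mob_inf_ne a b c d hc, phi_rat]
    have hc' : (0 : ℝ) < (c : ℝ) ^ 2 := by
      have h0 : (c : ℝ) ≠ 0 := by exact_mod_cast hc
      positivity
    have h1 : Tendsto (fun s : ℝ => ((c : ℝ) ^ 2 * s)⁻¹) atTop (𝓝[>] 0) :=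
      tendsto_inv_atTop_nhdsGT_zero.comp (tendsto_id.const_mul_atTop hc')
    have h2 := (hVLN F hF W G hG hW (a / c : ℚ)).comp h1
    have h3 : Tendsto (fun s : ℝ => ThI F W (((a : ℂ) * (-(d : ℂ) / c + s * Complex.I) + b) /
        ((c : ℂ) * (-(d : ℂ) / c + s * Complex.I) + d))) atTop (𝓝 (-IvQ F W (a / c : ℚ))) := by
      refine h2.congr' ?_
      filter_upwards [eventually_gt_atTop 0] with s hs
      rw [vert a b c d hdet hc s hs]
      rfl
    have h4 : Tendsto (fun s : ℝ => ThI F W (((a : ℂ) * (-(d : ℂ) / c + s * Complex.I) + b) /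
        ((c : ℂ) * (-(d : ℂ) / c + s * Complex.I) + d))) atTop (𝓝 C) := by
      rw [Metric.tendsto_nhds]
      intro ε hε
      obtain ⟨R, hR⟩ := hC ε hε
      filter_upwards [eventually_gt_atTop 0, eventually_ge_atTop R] with s hs hs2
      rw [dist_eq_norm]
      have him : (-(d : ℂ) / c + s * Complex.I).im = s := by
        have h0 : (-(d : ℂ) / c) = ((-(d : ℝ) / c : ℝ) : ℂ) := by push_cast; rfl
        rw [h0, Complex.add_im, Complex.ofReal_im, zero_add]
        simp
      exact hR _ (by rw [him]; exact hs2) (by rw [him]; exact hs)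
    exact tendsto_nhds_unique h4 h3

end

end Pool.Agent.MUXT
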