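import Pool.Agent.MUX.StXT
import Pool.Agent.MU3.B_POI

/-!
# MUX, block XT: summability and derivatives (DIF) (helper91)
-/

set_option autoImplicit false

namespace Pool.Agent.MUXT

open _root_.MU3 Pool.Agent.MuSym OnePoint Filter Topology
open scoped ComplexConjugate

noncomputable section

namespace Dif

theorem bnd (t c : ℝ) (ht : 0 ≤ t) (hc : 0 < c) :
    Real.sqrt t * Real.exp (-(2 * c * t)) ≤ (1 + 1 / c) * Real.exp (-(c * t)) := by
  have h1 : Real.sqrt t ≤ 1 + t := by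
    rw [Real.sqrt_le_left (by linarith)]
    nlinarith
  have h2 : c * t ≤ Real.exp (c * t) := by
    have := Real.add_one_le_exp (c * t)
    linarith
  have h3 : 1 + t ≤ (1 + 1 / c) * Real.exp (c * t) := by
    have h4 : 1 ≤ Real.exp (c * t) := Real.one_le_exp (by positivity)
    have h5 : t = 1 / c * (c * t) := by field_simp
    have h6 : 1 / c * (c * t) ≤ 1 / c * Real.exp (c * t) :=
      mul_le_mul_of_nonneg_left h2 (by positivity)
    rw [add_mul, one_mul]
    linarith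
  have h4 : Real.exp (-(2 * c * t)) = Real.exp (-(c * t)) * Real.exp (-(c * t)) := by
    rw [← Real.exp_add]; congr 1; ring
  have h5 : Real.exp (c * t) * Real.exp (-(c * t)) = 1 := by
    rw [← Real.exp_add]; simp
  have h6 := Real.exp_pos (-(c * t))
  calc Real.sqrt t * Real.exp (-(2 * c * t))
      ≤ ((1 + 1 / c) * Real.exp (c * t)) * Real.exp (-(2 * c * t)) :=
        mul_le_mul_of_nonneg_right (le_trans h1 h3) (Real.exp_pos _).le
    _ = (1 + 1 / c) * (Real.exp (c * t) * Real.exp (-(c * t))) * Real.exp (-(c * t)) := by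
        rw [h4]; ring
    _ = (1 + 1 / c) * Real.exp (-(c * t)) := by rw [h5, mul_one]

theorem norm_ex (n : ℤ) (z : ℂ) : ‖Complex.exp (2 * Real.pi * Complex.I * (n : ℂ) * z)‖ =
    Real.exp (-(2 * Real.pi * (n : ℝ) * z.im)) := by
  rw [Complex.norm_exp]
  congr 1
  have h5 : (2 * Real.pi * Complex.I * (n : ℂ) * z) =
      ((2 * Real.pi * (n : ℝ) : ℝ) : ℂ) * (Complex.I * z) := by
    push_cast; ring
  rw [h5, Complex.re_ofReal_mul]
  simp

variable {F : QF}

theorem ev_zero : F.ev 0 = 0 := by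
  unfold QF.ev
  simp

theorem lc_zero : F.lc 0 = 0 := by
  unfold QF.lc
  simp

theorem ev_nonneg (h : ∀ x : Z2, x ≠ 0 → 1 ≤ F.ev x) (y : Z2) : (0 : ℝ) ≤ (F.ev y : ℝ) := by
  by_cases hy : y = 0
  · subst hy
    rw [ev_zero]
    simp
  · have h1 := h y hy
    have h2 : (1 : ℝ) ≤ (F.ev y : ℝ) := by exact_mod_cast h1
    linarith

theorem lc_le (hF : F.Pos)
    (h4 : ∀ x : Z2, ((F.ev x : ℤ) : ℝ) = F.a * ‖F.lc x‖ ^ 2) (y : Z2) :
    ‖F.lc y‖ ≤ Real.sqrt (F.ev y : ℝ) := by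
  apply Real.le_sqrt_of_sq_le
  rw [h4 y]
  have h1 : (1 : ℝ) ≤ (F.a : ℝ) := by exact_mod_cast hF.a_pos
  nlinarith [sq_nonneg ‖F.lc y‖]

/-- the bound -/
def bb (F : QF) (C r : ℝ) (y : Z2) : ℝ := C * ‖F.lc y‖ * Real.exp (-(2 * Real.pi * (F.ev y : ℝ) * r))

theorem bb_sum (hF : F.Pos) (h : ∀ x : Z2, x ≠ 0 → 1 ≤ F.ev x)
    (h4 : ∀ x : Z2, ((F.ev x : ℤ) : ℝ) = F.a * ‖F.lc x‖ ^ 2) {κ : ℝ} (hκ : 0 < κ)
    (hb : ∀ x : Z2, κ * ((x.1 : ℝ) ^ 2 + (x.2 : ℝ) ^ 2) ≤ F.ev x)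
    {C r : ℝ} (hC : 0 ≤ C) (hr : 0 < r) : Summable (bb F C r) := by
  have hpi := Real.pi_pos
  have hc : 0 < Real.pi * r * κ := by positivity
  have h1 := MU3B.PoiAux.gsum2 hc hc 0 0
  refine Summable.of_nonneg_of_le (fun y => ?_) (fun y => ?_)
    (h1.mul_left (C * (1 + 1 / (Real.pi * r))))
  · unfold bb
    positivity
  · have h5 := ev_nonneg h y
    have h6 := bnd (F.ev y : ℝ) (Real.pi * r) h5 (by positivity)
    have h7 : Real.exp (-(Real.pi * r * (F.ev y : ℝ))) ≤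
        Real.exp (-(Real.pi * r * κ * ((y.1 : ℝ) + 0) ^ 2)) *
          Real.exp (-(Real.pi * r * κ * ((y.2 : ℝ) + 0) ^ 2)) := by
      rw [← Real.exp_add]
      apply Real.exp_le_exp.2
      have h8 := mul_le_mul_of_nonneg_left (hb y) (by positivity : (0 : ℝ) ≤ Real.pi * r)
      rw [add_zero, add_zero]
      linarith
    have h8 : 0 ≤ 1 + 1 / (Real.pi * r) := by positivity
    have h9 : Real.exp (-(2 * Real.pi * (F.ev y : ℝ) * r)) =
        Real.exp (-(2 * (Real.pi * r) * (F.ev y : ℝ))) := by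
      congr 1
      ring
    unfold bb
    rw [h9]
    calc C * ‖F.lc y‖ * Real.exp (-(2 * (Real.pi * r) * (F.ev y : ℝ)))
        ≤ C * (Real.sqrt (F.ev y : ℝ) * Real.exp (-(2 * (Real.pi * r) * (F.ev y : ℝ)))) := by
          rw [mul_assoc]
          exact mul_le_mul_of_nonneg_left
            (mul_le_mul_of_nonneg_right (lc_le hF h4 y) (Real.exp_pos _).le) hC
      _ ≤ C * ((1 + 1 / (Real.pi * r)) * Real.exp (-(Real.pi * r * (F.ev y : ℝ)))) :=
          mul_le_mul_of_nonneg_left h6 hC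
      _ ≤ C * ((1 + 1 / (Real.pi * r)) *
            (Real.exp (-(Real.pi * r * κ * ((y.1 : ℝ) + 0) ^ 2)) *
              Real.exp (-(Real.pi * r * κ * ((y.2 : ℝ) + 0) ^ 2)))) :=
          mul_le_mul_of_nonneg_left (mul_le_mul_of_nonneg_left h7 h8) hC
      _ = _ := by ring

theorem tm_le (h : ∀ x : Z2, x ≠ 0 → 1 ≤ F.ev x) {W : Z2 → ℂ} {C r : ℝ}
    (hW : ∀ x, ‖W x‖ ≤ C) (y : Z2) {z : ℂ} (hz : r ≤ z.im) : ‖tm F W z y‖ ≤ bb F C r y := by
  have h0 := ev_nonneg h y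
  have hC : 0 ≤ C := le_trans (norm_nonneg _) (hW 0)
  unfold tm bb
  rw [norm_mul, norm_mul, norm_ex]
  refine mul_le_mul (mul_le_mul_of_nonneg_right (hW y) (norm_nonneg _)) ?_ (Real.exp_pos _).le
    (by positivity)
  refine Real.exp_le_exp.2 (neg_le_neg ?_)
  exact mul_le_mul_of_nonneg_left hz (by positivity)

theorem tI_le (h : ∀ x : Z2, x ≠ 0 → 1 ≤ F.ev x) (W : Z2 → ℂ) (y : Z2) (z : ℂ) :
    ‖tI F W z y‖ ≤ ‖tm F W z y‖ := by
  unfold tI tm
  rw [norm_mul, norm_mul (W y * F.lc y), norm_div]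
  refine mul_le_mul_of_nonneg_right ?_ (norm_nonneg _)
  by_cases hy : y = 0
  · subst hy
    rw [lc_zero]
    simp
  · have h1 : (1 : ℝ) ≤ ‖(F.ev y : ℂ)‖ := by
      rw [Complex.norm_intCast]
      have h3 : (1 : ℝ) ≤ (F.ev y : ℝ) := by exact_mod_cast h y hy
      exact h3.trans (le_abs_self _)
    exact div_le_self (norm_nonneg _) h1

theorem tI_der (h : ∀ x : Z2, x ≠ 0 → 1 ≤ F.ev x) (W : Z2 → ℂ) (y : Z2) (z : ℂ) :
    HasDerivAt (fun z => tI F W z y) (2 * Real.pi * Complex.I * tm F W z y) z := by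
  have h1 : HasDerivAt (fun z : ℂ => Complex.exp (2 * Real.pi * Complex.I * (F.ev y : ℂ) * z))
      (Complex.exp (2 * Real.pi * Complex.I * (F.ev y : ℂ) * z) *
        (2 * Real.pi * Complex.I * (F.ev y : ℂ) * 1)) z :=
    ((hasDerivAt_id z).const_mul _).cexp
  have h2 := h1.const_mul (W y * F.lc y / (F.ev y : ℂ))
  refine h2.congr_deriv ?_
  unfold tm
  by_cases hy : y = 0
  · subst hy
    rw [lc_zero]
    simp
  · have h3 : (F.ev y : ℂ) ≠ 0 := by
      have := h y hy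
      exact_mod_cast (by omega : F.ev y ≠ 0)
    field_simp

theorem tm_diff (W : Z2 → ℂ) (y : Z2) : Differentiable ℂ fun z => tm F W z y := by
  unfold tm
  fun_prop

end Dif

open Dif in
/-- (DIF) summability and derivatives -/
theorem tx_DIF (hQFF : Xs_QFF) : Xs_DIF := by
  intro F hF W hW
  obtain ⟨-, -, -, h4, h, ⟨κ, hκ, hb⟩, -⟩ := hQFF F hF
  obtain ⟨C₀, hC₀⟩ := hW
  have hC : 0 ≤ C₀ := le_trans (norm_nonneg _) (hC₀ 0)
  have hopen : ∀ r : ℝ, IsOpen {z : ℂ | r < z.im} :=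
    fun r => isOpen_lt continuous_const Complex.continuous_im
  have hs : ∀ {r : ℝ}, 0 < r → Summable (bb F C₀ r) := fun hr => bb_sum hF h h4 hκ hb hC hr
  refine ⟨?_, ?_, ?_⟩
  · intro z hz
    exact ⟨Summable.of_norm_bounded (hs hz) fun y => tm_le h hC₀ y le_rfl,
      Summable.of_norm_bounded (hs hz) fun y => (tI_le h W y z).trans (tm_le h hC₀ y le_rfl)⟩
  · intro z hz
    have h1 : DifferentiableOn ℂ (fun z => ∑' y, tm F W z y) {w : ℂ | z.im / 2 < w.im} :=
      Complex.differentiableOn_tsum_of_summable_norm (hs (half_pos hz))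
        (fun y => (tm_diff W y).differentiableOn) (hopen _)
        (fun y w hw => tm_le h hC₀ y (le_of_lt hw))
    exact h1.differentiableAt ((hopen _).mem_nhds (half_lt_self hz))
  · intro z hz
    have hz' : z ∈ {w : ℂ | z.im / 2 < w.im} := half_lt_self hz
    have hb' : ∀ (y : Z2) (w : ℂ), w ∈ {w : ℂ | z.im / 2 < w.im} →
        ‖tI F W w y‖ ≤ bb F C₀ (z.im / 2) y :=
      fun y w hw => (tI_le h W y w).trans (tm_le h hC₀ y (le_of_lt hw))
    have hd : ∀ y : Z2, DifferentiableOn ℂ (fun z => tI F W z y) {w : ℂ | z.im / 2 < w.im} :=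
      fun y w _ => (tI_der h W y w).differentiableAt.differentiableWithinAt
    have h1 := Complex.differentiableOn_tsum_of_summable_norm (hs (half_pos hz)) hd (hopen _) hb'
    have h2 := Complex.hasSum_deriv_of_summable_norm (hs (half_pos hz)) hd (hopen _) hb' hz'
    have h3 := (h1.differentiableAt ((hopen _).mem_nhds hz')).hasDerivAt
    have h5 : deriv (fun w => ∑' y, tI F W w y) z = 2 * Real.pi * Complex.I * ∑' y, tm F W z y := by
      rw [← h2.tsum_eq, ← tsum_mul_left]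
      exact tsum_congr fun y => (tI_der h W y z).deriv
    rw [← h5]
    exact h3

end

end Pool.Agent.MUXT
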