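import Pool.Agent.MUX.StXT

/-!
# MUX, block XT: module EXI, expansion of the primitive at all cusps
-/

set_option autoImplicit false

namespace Pool.Agent.MUXT

open _root_.MU3 Pool.Agent.MuSym OnePoint Filter Topology
open Pool.Agent.MUXF (nI thetaI thetaIntI IvI IcI PhiI)
open Pool.Agent.MU3T (Su_MBF Su_MCO)
open Pool.Agent.MU3F (ex)
open scoped ComplexConjugate

theorem exi_isOpen : IsOpen {z : ℂ | 0 < z.im} := isOpen_lt continuous_const Complex.continuous_im

theorem exi_conn : IsPreconnected {z : ℂ | 0 < z.im} :=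
  (convex_halfSpace_im_gt 0).isPreconnected

theorem tx_EXI (hWBD : Xs_WBD) (hDIF : Xs_DIF) (hBND : Xs_BND) (hMBF : Su_MBF) (hEXP : Xs_EXP)
    (hCUS : Xs_CUS) : Xs_EXI := by
  intro F hFp W G hG hper a b c d hdet
  obtain ⟨M, W', hM, hMN, ⟨C0, hC0⟩, hth⟩ := hEXP F hFp W G hG hper a b c d hdet
  have hbe : Bd W := hWBD.1 G W hG hper
  have hMc : (M : ℂ) ≠ 0 := by exact_mod_cast hM.ne'
  have hMr : (0 : ℝ) < M := by exact_mod_cast hM
  have hbW : Bd (fun y : Z2 => (M : ℂ) * W' y) := by
    refine ⟨M * C0, fun y => ?_⟩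
    rw [norm_mul, Complex.norm_natCast]
    exact mul_le_mul_of_nonneg_left (hC0 y) hMr.le
  have him : ∀ z : ℂ, (z / M).im = z.im / M := fun z => Complex.div_natCast_im z M
  -- the derivative of the primitive
  have hP : ∀ z : ℂ, 0 < z.im →
      HasDerivAt (fun z : ℂ => ∑' y, tI F (fun y : Z2 => (M : ℂ) * W' y) (z / M) y)
        (2 * Real.pi * Complex.I * ∑' y, tm F W' (z / M) y) z := by
    intro z hz
    have h1 := (hDIF F hFp _ hbW).2.2 (z / M) (by rw [him]; positivity)
    have h2 : HasDerivAt (fun z : ℂ => z / M) (1 / M) z := (hasDerivAt_id' z).div_const _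
    have h3 := HasDerivAt.comp z h1 h2
    refine h3.congr_deriv ?_
    have h4 : ∀ y : Z2, tm F (fun y : Z2 => (M : ℂ) * W' y) (z / M) y =
        (M : ℂ) * tm F W' (z / M) y := by
      intro y
      unfold tm
      ring
    rw [tsum_congr h4, tsum_mul_left]
    field_simp
  have hT : ∀ z : ℂ, 0 < z.im →
      HasDerivAt (fun z : ℂ => ThI F W z) (2 * Real.pi * Complex.I * Th F W z) z := by
    intro z hz
    have h1 := ((hDIF F hFp W hbe).2.2 z hz).const_mul (1 / 2)
    refine h1.congr_deriv ?_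
    unfold Th
    ring
  have hF : ∀ z : ℂ, 0 < z.im →
      HasDerivAt (fun z : ℂ => ThI F W (((a : ℂ) * z + b) / ((c : ℂ) * z + d)))
        (2 * Real.pi * Complex.I * ∑' y, tm F W' (z / M) y) z := by
    intro z hz
    obtain ⟨k1, k2, k3⟩ := hMBF a b c d hdet z hz
    have h1 := HasDerivAt.comp (h₂ := fun z : ℂ => ThI F W z) z (hT _ k2) k3
    refine h1.congr_deriv ?_
    rw [hth z hz]
    field_simp
  -- the difference is constant
  set D : ℂ → ℂ := fun z => ThI F W (((a : ℂ) * z + b) / ((c : ℂ) * z + d)) -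
    ∑' y, tI F (fun y : Z2 => (M : ℂ) * W' y) (z / M) y with hD
  have hDd : ∀ z : ℂ, 0 < z.im → HasDerivAt D 0 z := by
    intro z hz
    refine ((hF z hz).sub (hP z hz)).congr_deriv (sub_self _)
  have hI : (0 : ℝ) < Complex.I.im := by norm_num
  have hconst : ∀ z : ℂ, 0 < z.im → D z = D Complex.I := by
    intro z hz
    refine exi_isOpen.is_const_of_deriv_eq_zero exi_conn
      (fun w hw => (hDd w hw).differentiableAt.differentiableWithinAt)
      (fun w hw => (hDd w hw).deriv) hz hI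
  have hC : D Complex.I = PhiQ F W ∞ (mob a b c d ∞) := by
    refine hCUS F hFp W G hG hper a b c d hdet _ fun ε hε => ?_
    obtain ⟨C, hC, hb⟩ := hBND F hFp _ hbW
    refine ⟨max 1 (C / ε) * M, fun z hz hz0 => ?_⟩
    rw [← hconst z hz0, hD]
    simp only [sub_sub_cancel]
    have hy : max 1 (C / ε) ≤ (z / M).im := by
      rw [him, le_div_iff₀ hMr]
      exact hz
    have hy1 : 1 ≤ (z / M).im := (le_max_left _ _).trans hy
    have hy2 : C / ε ≤ (z / M).im := (le_max_right _ _).trans hy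
    refine (hb _ hy1).2.trans_lt ?_
    have h2 := Real.add_one_le_exp (2 * Real.pi * (z / M).im)
    have h3 : (z / M).im < Real.exp (2 * Real.pi * (z / M).im) := by
      have := Real.pi_gt_three
      nlinarith
    rw [div_le_iff₀ hε] at hy2
    rw [Real.exp_neg, ← div_eq_mul_inv, div_lt_iff₀ (Real.exp_pos _)]
    calc C ≤ (z / M).im * ε := hy2
      _ < Real.exp (2 * Real.pi * (z / M).im) * ε := mul_lt_mul_of_pos_right h3 hε
      _ = ε * Real.exp (2 * Real.pi * (z / M).im) := mul_comm _ _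
  refine ⟨M, fun y => (M : ℂ) * W' y, hM, hMN, hbW, fun z hz => ?_⟩
  have h1 := hconst z hz
  rw [hC, hD] at h1
  simp only at h1
  rw [← h1]
  ring

end Pool.Agent.MUXT
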