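import Pool.Agent.MUX.StXT

/-!
# MUX, block XT: the result for ideals from its parts (FTI)
-/

set_option autoImplicit false

namespace Pool.Agent.MUXT

open _root_.MU3 Pool.Agent.MuSym OnePoint Filter Topology
open Pool.Agent.MUXF (nI thetaI thetaIntI IvI IcI PhiI)
open Pool.Agent.MU3T (Su_MBF Su_MCO)
open Pool.Agent.MU3F (ex)
open scoped ComplexConjugate

noncomputable section

lemma fti_wt {A B : ℤ} (al be : OO A B) (e : OO A B → ℂ) (G : ℕ) (hG : 0 < G)
    (hmul : ∀ x y, e (x * y) = e x * e y)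
    (hper : ∀ x y, (G : OO A B) ∣ x - y → e x = e y) (hneg : e (-1) = -1) :
    IsWt G (fun x : Z2 => e (((x.1 : ℤ) : OO A B) * al + ((x.2 : ℤ) : OO A B) * be))
      (fun d : ℤ => e (d : OO A B)) where
  pos := hG
  per := by
    intro x y h1 h2
    apply hper
    obtain ⟨u, hu⟩ := h1
    obtain ⟨v, hv⟩ := h2
    refine ⟨(u : OO A B) * al + (v : OO A B) * be, ?_⟩
    have h1' : ((x.1 : ℤ) : OO A B) - ((y.1 : ℤ) : OO A B) = (G : OO A B) * (u : OO A B) := by
      have := congrArg (Int.cast : ℤ → OO A B) hu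
      push_cast at this
      exact this
    have h2' : ((x.2 : ℤ) : OO A B) - ((y.2 : ℤ) : OO A B) = (G : OO A B) * (v : OO A B) := by
      have := congrArg (Int.cast : ℤ → OO A B) hv
      push_cast at this
      exact this
    linear_combination al * h1' + be * h2'
  hom := by
    intro d _ x
    show e _ = e _ * e _
    rw [← hmul]
    congr 1
    push_cast
    ring
  eper := by
    intro d d' h
    apply hper
    obtain ⟨u, hu⟩ := h
    refine ⟨(u : OO A B), ?_⟩
    have := congrArg (Int.cast : ℤ → OO A B) hu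
    push_cast at this
    exact this
  eneg := by
    intro d
    have h : ((-d : ℤ) : OO A B) = (-1) * (d : OO A B) := by
      push_cast
      ring
    show e ((-d : ℤ) : OO A B) = - e (d : OO A B)
    rw [h, hmul, hneg]
    ring

theorem tx_FTI (hWBD : Xs_WBD) (hREG : Xs_REG) (hMOD : Xs_MOD) (hITG : Xs_ITG) (hEXI : Xs_EXI)
    (hQPE : Xs_QPE) (hSYM : Xs_SYM) (hCHQ : Xs_CHQ) (hBAS : Xs_BAS) (hTRI : Xs_TRI) :
    Xs_FTI := by
  intro A B hB hneg b hb e G hG hmul hper he1
  obtain ⟨al, be, F, hF, hD, hbas⟩ := hBAS A B hneg b hb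
  have hchi : IsChi F.D (chiQ A B) := by
    rw [hD]
    exact hCHQ A B hB hneg
  have hwt := fti_wt al be e G hG hmul hper he1
  obtain ⟨hth, hthi, hphi⟩ := hTRI A B hneg b al be F hb hF hbas e
  set W : Z2 → ℂ := fun x => e (((x.1 : ℤ) : OO A B) * al + ((x.2 : ℤ) : OO A B) * be) with hW
  have hper' : Per G W := hwt.per
  refine ⟨?_, ?_⟩
  · intro r
    have h1 := (hITG F hF W G hG hper' r).const_mul (conj (emb al))
    have h2 : (fun t : ℝ => thetaI b e ((r : ℂ) + t * Complex.I)) =
        fun t : ℝ => conj (emb al) * Th F W ((r : ℂ) + t * Complex.I) := by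
      funext t
      exact hth _
    rw [h2]
    exact h1
  · intro N hN hdvd
    rw [← hD] at hdvd
    refine ⟨?_, ?_, ?_⟩
    · have hs := hSYM F hF (chiQ A B) hchi W _ G hwt N hN hdvd
      refine ⟨?_, ?_⟩
      · intro x y z
        rw [hphi, hphi, hphi, ← mul_add, hs.add]
      · intro a b' c d hdet hc x y
        rw [hphi, hphi, hs.equiv a b' c d hdet hc]
        ring
    · intro a b' c d hdet hc τ hτ
      refine ⟨?_, ?_⟩
      · rw [hth, hth, hMOD F hF (chiQ A B) hchi W _ G hwt a b' c d hdet (dvd_trans hdvd hc) τ hτ]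
        ring
      · rw [hthi, hthi, hphi,
          hQPE F hF (chiQ A B) hchi W _ G hwt a b' c d hdet (dvd_trans hdvd hc) τ hτ]
        ring
    · intro a b' c d hdet
      obtain ⟨M, W', -, hMd, hW', hex⟩ := hEXI F hF W G hG hper' a b' c d hdet
      have hMN : M ∣ N := by
        have h1 : (M : ℤ) ∣ (N : ℤ) := dvd_trans hMd hdvd
        exact_mod_cast h1
      obtain ⟨w, hw⟩ := hREG F hF W' hW' M N hN hMN
      refine ⟨fun n => conj (emb al) * w n, fun τ hτ => ?_⟩
      have h1 := (hw τ hτ).mul_left (conj (emb al))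
      have h2 : thetaIntI b e ((a * τ + b') / (c * τ + d)) - PhiI b e ∞ (mob a b' c d ∞) =
          conj (emb al) * ∑' y, tI F W' (τ / M) y := by
        rw [hthi, hphi, hex τ hτ]
        ring
      rw [h2]
      refine h1.congr_fun ?_
      intro n
      ring

end

end Pool.Agent.MUXT
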