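import Pool.Agent.MUX.StXT
import Pool.Agent.MU3.T_GAU

/-!
# MUX, block XT, module GAU (helper58): the Gauss sum of a binary quadratic form modulo a prime
-/

set_option autoImplicit false

namespace Pool.Agent.MUXT

open _root_.MU3 Pool.Agent.MuSym
open Pool.Agent.MU3F (ex)
open Pool.Agent.MU3T.T_GAU (chi chi_apply chi_ne_one chi_quad sum_sq_char ex_eq)

namespace X_GAU

variable {p : ℕ} [Fact p.Prime]

/-- a sum over `[0, p)` is a sum over `ZMod p` -/
theorem sum_range_zmod (h : ZMod p → ℂ) :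
    ∑ i ∈ Finset.range p, h ((i : ℕ) : ZMod p) = ∑ x : ZMod p, h x := by
  have hp : 0 < p := (Fact.out : p.Prime).pos
  refine Finset.sum_bij' (fun i _ => ((i : ℕ) : ZMod p)) (fun x _ => x.val) ?_ ?_ ?_ ?_ ?_
  · intro i _
    exact Finset.mem_univ _
  · intro x _
    exact Finset.mem_range.2 (ZMod.val_lt x)
  · intro i hi
    exact ZMod.val_cast_of_lt (Finset.mem_range.1 hi)
  · intro x _
    exact ZMod.natCast_zmod_val x
  · intro i _
    rfl

theorem gg_eq (F : QF) (t : ℤ) : gg F p t =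
    ∑ x : ZMod p, ∑ y : ZMod p, ZMod.stdAddChar
      ((t : ZMod p) * ((F.a : ZMod p) * x ^ 2 + (F.b : ZMod p) * x * y + (F.c : ZMod p) * y ^ 2)) := by
  unfold gg sm
  rw [← sum_range_zmod (p := p) (fun x => ∑ y : ZMod p, (ZMod.stdAddChar
      ((t : ZMod p) * ((F.a : ZMod p) * x ^ 2 + (F.b : ZMod p) * x * y + (F.c : ZMod p) * y ^ 2)) : ℂ))]
  refine Finset.sum_congr rfl fun i _ => ?_
  rw [← sum_range_zmod (p := p) (fun y => (ZMod.stdAddChar
      ((t : ZMod p) * ((F.a : ZMod p) * ((i : ℕ) : ZMod p) ^ 2 + (F.b : ZMod p) * ((i : ℕ) : ZMod p) * y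
        + (F.c : ZMod p) * y ^ 2)) : ℂ))]
  refine Finset.sum_congr rfl fun j _ => ?_
  beta_reduce
  rw [show (t : ℚ) * ((F.ev ((i : ℤ), (j : ℤ)) : ℤ) : ℚ) / (p : ℚ) =
    (((t * F.ev ((i : ℤ), (j : ℤ)) : ℤ) : ℚ)) / p by push_cast; ring, ex_eq]
  congr 1
  unfold QF.ev
  push_cast
  ring

end X_GAU

open X_GAU in
theorem tx_GAU : Xs_GAU := by
  intro F p _ hp t ht
  have hp2 : p ≠ 2 := by
    rintro rfl
    exact hp (dvd_mul_right _ _)
  have h2 : (2 : ZMod p) ≠ 0 := by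
    intro h
    have h' : ((2 : ℕ) : ZMod p) = 0 := by exact_mod_cast h
    rw [ZMod.natCast_eq_zero_iff] at h'
    exact hp2 ((Nat.prime_dvd_prime_iff_eq (Fact.out) Nat.prime_two).1 h')
  have h4 : (4 : ZMod p) ≠ 0 := by
    rw [show (4 : ZMod p) = 2 * 2 by norm_num]
    exact mul_ne_zero h2 h2
  have ht0 : (t : ZMod p) ≠ 0 := by
    intro h
    exact ht ((ZMod.intCast_zmod_eq_zero_iff_dvd t p).1 h)
  have hD0 : ((F.D : ℤ) : ZMod p) ≠ 0 := by
    intro h
    exact hp (Dvd.dvd.mul_left ((ZMod.intCast_zmod_eq_zero_iff_dvd _ p).1 h) 2)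
  have hD : ((F.D : ℤ) : ZMod p) = 4 * (F.a : ZMod p) * F.c - (F.b : ZMod p) ^ 2 := by
    unfold QF.D
    push_cast
    ring
  have hprim : (ZMod.stdAddChar (N := p)).IsPrimitive := ZMod.isPrimitive_stdAddChar p
  set ψ : AddChar (ZMod p) ℂ := ZMod.stdAddChar with hψ
  rw [gg_eq, Finset.sum_comm, ← hψ]
  by_cases ha : (F.a : ZMod p) = 0
  · -- `p ∣ a`
    have hb : (F.b : ZMod p) ≠ 0 := by
      intro h
      apply hD0
      rw [hD, ha, h]
      ring
    have h3 : ∀ y : ZMod p, ∑ x : ZMod p, ψ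
        ((t : ZMod p) * ((F.a : ZMod p) * x ^ 2 + (F.b : ZMod p) * x * y + (F.c : ZMod p) * y ^ 2)) =
        if y = 0 then (p : ℂ) else 0 := by
      intro y
      have h6 := AddChar.sum_mulShift ((t : ZMod p) * F.b * y) hprim
      have h7 : ∑ x : ZMod p, ψ
          ((t : ZMod p) * ((F.a : ZMod p) * x ^ 2 + (F.b : ZMod p) * x * y + (F.c : ZMod p) * y ^ 2)) =
          (∑ x : ZMod p, ψ (x * ((t : ZMod p) * F.b * y))) * ψ ((t : ZMod p) * F.c * y ^ 2) := by
        rw [Finset.sum_mul]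
        refine Finset.sum_congr rfl fun x _ => ?_
        rw [← AddChar.map_add_eq_mul]
        congr 1
        rw [ha]
        ring
      rw [h7, h6]
      by_cases hy : y = 0
      · subst hy
        simp
      · rw [if_neg (mul_ne_zero (mul_ne_zero ht0 hb) hy), if_neg hy]
        simp
    rw [Finset.sum_congr rfl fun y _ => h3 y, Finset.sum_ite_eq' Finset.univ (0 : ZMod p)]
    have h8 : legendreSym p (-F.D) = 1 := by
      rw [legendreSym]
      have e1 : ((-F.D : ℤ) : ZMod p) = (F.b : ZMod p) ^ 2 := by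
        rw [Int.cast_neg, hD, ha]
        ring
      rw [e1]
      exact quadraticChar_sq_one' hb
    rw [h8]
    simp
  · have h3 : ∀ y : ZMod p, ∑ x : ZMod p, ψ
        ((t : ZMod p) * ((F.a : ZMod p) * x ^ 2 + (F.b : ZMod p) * x * y + (F.c : ZMod p) * y ^ 2)) =
        (∑ x : ZMod p, ψ ((t * F.a : ZMod p) * x ^ 2)) * ψ ((t * (F.D : ℤ) / (4 * F.a) : ZMod p) * y ^ 2) := by
      intro y
      rw [Finset.sum_mul]
      refine Fintype.sum_bijective (fun x => x + F.b / (2 * F.a) * y) (AddGroup.addRight_bijective _) _ _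
        fun x => ?_
      rw [← AddChar.map_add_eq_mul]
      congr 1
      rw [hD]
      field_simp
      ring
    have h5 : (t : ZMod p) * (F.D : ℤ) / (4 * F.a) ≠ 0 :=
      div_ne_zero (mul_ne_zero ht0 hD0) (mul_ne_zero h4 ha)
    simp only [h3]
    rw [← Finset.mul_sum, sum_sq_char hp2 hprim (mul_ne_zero ht0 ha), sum_sq_char hp2 hprim h5]
    have h6 : gaussSum (chi p) ψ ^ 2 = chi p (-1) * ((Fintype.card (ZMod p) : ℕ) : ℂ) :=
      gaussSum_sq (χ := chi p) (chi_ne_one hp2) chi_quad hprim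
    have h7 : chi p ((t : ZMod p) * F.a) * chi p ((t : ZMod p) * (F.D : ℤ) / (4 * F.a)) * chi p (-1) =
        ((legendreSym p (-F.D) : ℤ) : ℂ) := by
      rw [← map_mul, ← map_mul, chi_apply, legendreSym]
      congr 1
      have e1 : (t : ZMod p) * F.a * ((t : ZMod p) * (F.D : ℤ) / (4 * F.a)) * -1 =
          ((t : ZMod p) / 2) ^ 2 * ((-F.D : ℤ) : ZMod p) := by
        push_cast
        field_simp
        ring
      rw [e1, map_mul, quadraticChar_sq_one' (div_ne_zero ht0 h2), one_mul]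
    rw [ZMod.card] at h6
    linear_combination (chi p ((t : ZMod p) * F.a) * chi p ((t : ZMod p) * (F.D : ℤ) / (4 * F.a))) * h6 +
      (p : ℂ) * h7

end Pool.Agent.MUXT
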