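import Pool.Agent.MUX.StXT

/-!
# MUX, block XT: integrability on vertical lines
-/

set_option autoImplicit false

namespace Pool.Agent.MUXT

open _root_.MU3 Pool.Agent.MUX Pool.Agent.MuSym OnePoint Filter Topology
open Pool.Agent.MU3T (Su_MBF Su_MCO)
open Pool.Agent.MU3F (ex)
open scoped ComplexConjugate

noncomputable section

theorem tx_ITG (hWBD : Xs_WBD) (hDIF : Xs_DIF) (hBND : Xs_BND) (hEXP : Xs_EXP) : Xs_ITG := by
  intro F hF W G hG hPer r
  have hBd : Bd W := hWBD.1 G W hG hPer
  obtain ⟨-, hdiff, -⟩ := hDIF F hF W hBd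
  -- continuity
  have hcont : ContinuousOn (fun t : ℝ => Th F W ((r : ℂ) + t * Complex.I)) (Set.Ioi 0) := by
    intro t ht
    have ht0 : 0 < t := ht
    have him : 0 < ((r : ℂ) + t * Complex.I).im := by simp [ht0]
    have h1 : ContinuousAt (fun z => ∑' y, tm F W z y) ((r : ℂ) + t * Complex.I) :=
      (hdiff _ him).continuousAt
    have h2 : ContinuousAt (fun t : ℝ => (r : ℂ) + t * Complex.I) t := by fun_prop
    have h3 : ContinuousAt (fun t : ℝ => ∑' y, tm F W ((r : ℂ) + t * Complex.I) y) t :=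
      ContinuousAt.comp (f := fun t : ℝ => (r : ℂ) + t * Complex.I) h1 h2
    have h4 : ContinuousAt (fun t : ℝ => Th F W ((r : ℂ) + t * Complex.I)) t := by
      unfold Th
      exact continuousAt_const.mul h3
    exact h4.continuousWithinAt
  -- the bound on `(1, oo)`
  obtain ⟨C, hC0, hC⟩ := hBND F hF W hBd
  have hint1 : MeasureTheory.IntegrableOn (fun t : ℝ => Th F W ((r : ℂ) + t * Complex.I))
      (Set.Ioi 1) := by
    have hg : MeasureTheory.IntegrableOn (fun t : ℝ => C * Real.exp (-(2 * Real.pi) * t))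
        (Set.Ioi 1) :=
      (integrableOn_exp_mul_Ioi (by have := Real.pi_pos; linarith) 1).const_mul C
    refine MeasureTheory.Integrable.mono' hg ?_ ?_
    · exact (hcont.mono (Set.Ioi_subset_Ioi zero_le_one)).aestronglyMeasurable measurableSet_Ioi
    · refine (MeasureTheory.ae_restrict_iff' measurableSet_Ioi).2 (Filter.Eventually.of_forall ?_)
      intro t ht
      have ht1 : 1 < t := ht
      have h1 := (hC ((r : ℂ) + t * Complex.I) (by simp [ht1.le])).1
      have him : ((r : ℂ) + t * Complex.I).im = t := by simp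
      rw [him] at h1
      unfold Th
      rw [norm_mul]
      have h2 : ‖(1 / 2 : ℂ)‖ = 1 / 2 := by simp
      rw [h2]
      have h3 : C * Real.exp (-(2 * Real.pi * t)) = C * Real.exp (-(2 * Real.pi) * t) := by
        rw [neg_mul]
      rw [← h3]
      have := norm_nonneg (∑' y, tm F W ((r : ℂ) + t * Complex.I) y)
      linarith
  -- the bound on `(0, 1]`
  obtain ⟨B, hB⟩ : ∃ B : ℝ, ∀ t : ℝ, 0 < t → t ≤ 1 →
      ‖Th F W ((r : ℂ) + t * Complex.I)‖ ≤ B := by
    have hq0 : (0 : ℤ) < (r.den : ℤ) := by exact_mod_cast r.den_pos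
    have hcop : IsCoprime r.num (r.den : ℤ) := by
      rw [Int.isCoprime_iff_gcd_eq_one]
      exact r.reduced
    obtain ⟨u, v, huv⟩ := hcop
    have hdet : r.num * u - (-v) * (r.den : ℤ) = 1 := by linarith
    obtain ⟨M, W', hM, -, hW', hE⟩ := hEXP F hF W G hG hPer r.num (-v) r.den u hdet
    obtain ⟨C', hC'0, hC'⟩ := hBND F hF W' hW'
    set q : ℝ := (r.den : ℝ) with hq
    have hqpos : 0 < q := by rw [hq]; exact_mod_cast r.den_pos
    have hMpos : (0 : ℝ) < M := by exact_mod_cast hM
    have hMC : (M : ℂ) ≠ 0 := by exact_mod_cast hM.ne'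
    set t0 : ℝ := 1 / (q ^ 2 * M) with ht0
    have ht0pos : 0 < t0 := by rw [ht0]; positivity
    obtain ⟨B1, hB1⟩ := (isCompact_Icc (a := t0) (b := (1 : ℝ))).exists_bound_of_continuousOn
      (hcont.mono (fun t ht => lt_of_lt_of_le ht0pos ht.1))
    refine ⟨max B1 ((q * M) ^ 2 * C'), fun t ht ht1 => ?_⟩
    by_cases hcase : t0 ≤ t
    · exact (hB1 t ⟨hcase, ht1⟩).trans (le_max_left _ _)
    push Not at hcase
    refine le_trans ?_ (le_max_right _ _)
    -- the point `z`
    set z : ℂ := -(u : ℂ) / (q : ℂ) + (1 / (q ^ 2 * t) : ℝ) * Complex.I with hz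
    have hqC : (q : ℂ) ≠ 0 := by exact_mod_cast hqpos.ne'
    have htC : (t : ℂ) ≠ 0 := by exact_mod_cast ht.ne'
    have hzim : z.im = 1 / (q ^ 2 * t) := by
      rw [hz]
      have h1 : (-(u : ℂ) / (q : ℂ)) = ((-(u : ℝ) / q : ℝ) : ℂ) := by push_cast; ring
      rw [h1, Complex.add_im, Complex.ofReal_im, Complex.im_ofReal_mul, Complex.I_im]
      ring
    have hzim0 : 0 < z.im := by rw [hzim]; positivity
    have hden : (((r.den : ℤ) : ℂ)) = (q : ℂ) := by rw [hq]; push_cast; rfl
    have hI2 : Complex.I ^ 2 = -1 := Complex.I_sq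
    have hqz : (((r.den : ℤ) : ℂ)) * z + (u : ℂ) = Complex.I / (q * t) := by
      rw [hden, hz]
      push_cast
      field_simp
      ring
    have hrq : (r : ℂ) = (r.num : ℂ) / (q : ℂ) := by
      rw [hq, Rat.cast_def]
      push_cast
      rfl
    have huvC : (u : ℂ) * r.num + (v : ℂ) * q = 1 := by
      have h1 : ((u * r.num + v * (r.den : ℤ) : ℤ) : ℂ) = 1 := by rw [huv]; simp
      push_cast at h1
      rw [← hden]
      push_cast
      exact h1
    have hqz0 : Complex.I / ((q : ℂ) * t) ≠ 0 :=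
      div_ne_zero Complex.I_ne_zero (mul_ne_zero hqC htC)
    have hmob : ((r.num : ℂ) * z + ((-v : ℤ) : ℂ)) / ((((r.den : ℤ) : ℂ)) * z + (u : ℂ)) =
        (r : ℂ) + t * Complex.I := by
      rw [hqz, div_eq_iff hqz0, hrq, hz]
      push_cast
      have h2 : (v : ℂ) = (1 - (u : ℂ) * r.num) / q := by
        field_simp
        linear_combination huvC
      rw [h2]
      field_simp
      linear_combination (-(q : ℂ) * t) * hI2
    have hEz := hE z hzim0
    rw [hmob, hqz] at hEz
    have hwim : (z / (M : ℂ)).im = 1 / (q ^ 2 * t * M) := by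
      have h1 : z / (M : ℂ) = z / ((M : ℝ) : ℂ) := by push_cast; rfl
      rw [h1, Complex.div_ofReal_im, hzim]
      field_simp
    have hx1 : 1 ≤ (z / (M : ℂ)).im := by
      rw [hwim, le_div_iff₀ (by positivity), one_mul]
      have h1 : t * (q ^ 2 * M) < 1 := by
        rw [ht0] at hcase
        rwa [lt_div_iff₀ (by positivity)] at hcase
      nlinarith
    have hb := (hC' _ hx1).1
    rw [hEz, norm_mul]
    set x : ℝ := (z / (M : ℂ)).im with hx
    have hx0 : 0 ≤ x := by linarith
    have hnorm : ‖(Complex.I / ((q : ℂ) * t)) ^ 2‖ = (q * M * x) ^ 2 := by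
      rw [norm_pow, norm_div, norm_mul, Complex.norm_I, Complex.norm_real, Complex.norm_real,
        Real.norm_of_nonneg hqpos.le, Real.norm_of_nonneg ht.le, hwim]
      congr 1
      field_simp
    rw [hnorm]
    have hexp : x ^ 2 * Real.exp (-(2 * Real.pi * x)) ≤ 1 := by
      have h1 : x ^ 2 ≤ Real.exp (2 * Real.pi * x) := by
        have h2 := Real.quadratic_le_exp_of_nonneg (x := 2 * Real.pi * x)
          (by have := Real.pi_pos; positivity)
        have h3 : x ^ 2 ≤ (2 * Real.pi * x) ^ 2 / 2 := by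
          have hpi := Real.pi_gt_three
          have : 2 * x ^ 2 ≤ (2 * Real.pi * x) ^ 2 := by
            have h4 : (2 * Real.pi * x) ^ 2 = (4 * Real.pi ^ 2) * x ^ 2 := by ring
            rw [h4]
            have : (2 : ℝ) ≤ 4 * Real.pi ^ 2 := by nlinarith
            exact mul_le_mul_of_nonneg_right this (sq_nonneg x)
          linarith
        have h5 : 0 ≤ 2 * Real.pi * x := by have := Real.pi_pos; positivity
        linarith
      rw [Real.exp_neg, ← div_eq_mul_inv]
      exact (div_le_one (Real.exp_pos _)).2 h1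
    calc (q * M * x) ^ 2 * ‖∑' y, tm F W' (z / M) y‖
        ≤ (q * M * x) ^ 2 * (C' * Real.exp (-(2 * Real.pi * x))) := by gcongr
      _ = ((q * M) ^ 2 * C') * (x ^ 2 * Real.exp (-(2 * Real.pi * x))) := by ring
      _ ≤ ((q * M) ^ 2 * C') * 1 := by gcongr
      _ = (q * M) ^ 2 * C' := by ring
  have hint0 : MeasureTheory.IntegrableOn (fun t : ℝ => Th F W ((r : ℂ) + t * Complex.I))
      (Set.Ioc 0 1) := by
    have hg : MeasureTheory.IntegrableOn (fun _ : ℝ => B) (Set.Ioc (0 : ℝ) 1) :=
      MeasureTheory.integrableOn_const (by simp)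
    refine MeasureTheory.Integrable.mono' hg ?_ ?_
    · exact (hcont.mono (fun t ht => ht.1)).aestronglyMeasurable measurableSet_Ioc
    · refine (MeasureTheory.ae_restrict_iff' measurableSet_Ioc).2 (Filter.Eventually.of_forall ?_)
      intro t ht
      exact hB t ht.1 ht.2
  have hun := hint0.union hint1
  rwa [Set.Ioc_union_Ioi_eq_Ioi zero_le_one] at hun

end

end Pool.Agent.MUXT
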