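import Pool.Agent.MUX.StXT

/-!
# MUX, block XT: module MOD (helper19; model `MU3/T_MOD.lean`)
-/

set_option autoImplicit false

namespace Pool.Agent.MUXT

open Pool.Agent.MU3T (Su_MBF)

namespace MOD19

theorem tm_int (F : QF) (W : Z2 → ℂ) (z : ℂ) (k : ℤ) (x : Z2) :
    tm F W (z + k) x = tm F W z x := by
  unfold tm
  have e : 2 * Real.pi * Complex.I * (F.ev x : ℂ) * (z + k) =
      2 * Real.pi * Complex.I * (F.ev x : ℂ) * z +
        ((F.ev x * k : ℤ) : ℂ) * (2 * Real.pi * Complex.I) := by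
    push_cast
    ring
  rw [e, Complex.exp_add, Complex.exp_int_mul_two_pi_mul_I, mul_one]

theorem Th_int (F : QF) (W : Z2 → ℂ) (z : ℂ) (k : ℤ) : Th F W (z + k) = Th F W z := by
  unfold Th
  rw [tsum_congr fun x => tm_int F W z k x]

theorem D_ge (F : QF) (hF : F.Pos) : 3 ≤ F.D := by
  have h1 := hF.D_pos
  have h2 : F.D = 4 * (F.a * F.c) - F.b ^ 2 := by unfold QF.D; ring
  rcases Int.even_or_odd F.b with ⟨m, hm⟩ | ⟨m, hm⟩
  · have h3 : F.D = 4 * (F.a * F.c - m ^ 2) := by rw [h2, hm]; ring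
    omega
  · have h3 : F.D = 4 * (F.a * F.c - m ^ 2 - m) - 1 := by rw [h2, hm]; ring
    omega

theorem eps_one {G : ℕ} {W : Z2 → ℂ} {ε : ℤ → ℂ} (hW : IsWt G W ε) (F : QF) (z : ℂ) :
    ε 1 * Th F W z = Th F W z := by
  have h1 : ∀ x, ε 1 * W x = W x := by
    intro x
    have h := hW.hom 1 isCoprime_one_left x
    rw [one_mul, one_mul] at h
    exact h.symm
  unfold Th
  have h2 : ∀ x, ε 1 * tm F W z x = tm F W z x := by
    intro x
    unfold tm
    rw [← mul_assoc, ← mul_assoc, h1]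
  have h3 : ε 1 * ∑' x, tm F W z x = ∑' x, tm F W z x := by
    rw [← tsum_mul_left]
    exact tsum_congr h2
  rw [mul_left_comm, h3]

theorem pos (hMOP : Xs_MOP) (F : QF) (hF : F.Pos) (χ : ℤ → ℤ) (hχ : IsChi F.D χ) (W : Z2 → ℂ)
    (ε : ℤ → ℂ) (G : ℕ) (hW : IsWt G W ε) (a b c d : ℤ) (hd : 0 < d) (hdet : a * d - b * c = 1)
    (hNc : F.D * G ^ 2 ∣ c) (z : ℂ) (hz : 0 < z.im) :
    Th F W (((a : ℂ) * z + b) / ((c : ℂ) * z + d)) =
      ((c : ℂ) * z + d) ^ 2 * ((χ d : ℂ) * ε d) * Th F W z := by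
  by_cases hc : c = 0
  · subst hc
    have had : a * d = 1 := by linarith
    rcases Int.mul_eq_one_iff_eq_one_or_neg_one.1 had with ⟨rfl, rfl⟩ | ⟨rfl, rfl⟩
    · have e1 : (((1 : ℤ) : ℂ) * z + b) / (((0 : ℤ) : ℂ) * z + ((1 : ℤ) : ℂ)) = z + b := by
        push_cast
        simp
      rw [e1, Th_int, hχ.one]
      have h := eps_one hW F z
      push_cast
      linear_combination -h
    · omega
  · have hD := D_ge F hF
    have hDc : F.D ∣ c := (Dvd.intro _ rfl).trans hNc
    have hGc : (G : ℤ) ∣ c := by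
      refine Dvd.dvd.trans ?_ hNc
      exact Dvd.dvd.mul_left (dvd_pow_self _ two_ne_zero) _
    have hcop' : IsCoprime d c := ⟨a, -b, by linarith⟩
    have hcop : IsCoprime d ((c.natAbs : ℕ) : ℤ) := by
      rw [Int.natCast_natAbs]
      rcases abs_choice c with h | h
      · rw [h]
        exact hcop'
      · rw [h]
        exact hcop'.neg_right
    obtain ⟨p, hp1, hp2, hp3⟩ := Nat.forall_exists_prime_gt_and_zmodEq (2 * F.D).natAbs
      (Int.natAbs_ne_zero.2 hc) hcop
    have hpd : c ∣ (p : ℤ) - d := by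
      have h1 := hp3.symm.dvd
      rw [Int.natCast_natAbs] at h1
      exact (abs_dvd _ _).1 h1
    obtain ⟨k, hk⟩ := hpd
    have hpp : (p : ℤ) = d + k * c := by linarith
    have hnd : ¬ (p : ℤ) ∣ 2 * F.D := by
      intro hdvd
      have h1 := Int.le_of_dvd (by linarith) hdvd
      omega
    have hz' : 0 < (z - k).im := by
      rw [Complex.sub_im, Complex.intCast_im, sub_zero]
      exact hz
    have : Fact p.Prime := ⟨hp2⟩
    have h := hMOP F hF W ε G hW a (b + k * a) c p hnd (by rw [hpp]; linarith) hNc (z - k) hz'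
    have hpC : (p : ℂ) = (d : ℂ) + k * c := by exact_mod_cast congrArg (fun x : ℤ => (x : ℂ)) hpp
    have e1 : (a : ℂ) * (z - k) + ((b + k * a : ℤ) : ℂ) = a * z + b := by
      push_cast
      ring
    have e2 : (c : ℂ) * (z - k) + (p : ℂ) = c * z + d := by
      rw [hpC]
      ring
    have e3 : Th F W (z - k) = Th F W z := by
      have := Th_int F W (z - k) k
      rw [sub_add_cancel] at this
      exact this.symm
    have e4 : ε (p : ℤ) = ε d := hW.eper p d (by
      rw [hk]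
      exact Dvd.dvd.mul_right hGc k)
    have e5 : χ d = legendreSym p (-F.D) := by
      rw [← hχ.prime p hnd]
      refine hχ.per d p hd (by exact_mod_cast hp2.pos) (hcop'.of_isCoprime_of_dvd_right hDc) ?_
      have h1 : d - p = -(c * k) := by linarith
      rw [h1]
      exact (Dvd.dvd.mul_right hDc k).neg_right
    rw [e1, e2, e3, e4, ← e5] at h
    exact h

end MOD19

open MOD19 in
theorem tx_MOD (hMOP : Xs_MOP) (_hMBF : Su_MBF) : Xs_MOD := by
  intro F hF χ hχ W ε G hW a b c d hdet hNc z hz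
  rcases lt_trichotomy d 0 with hd | hd | hd
  · have h := pos hMOP F hF χ hχ W ε G hW (-a) (-b) (-c) (-d) (by omega) (by linarith)
      (dvd_neg.2 hNc) z hz
    have e1 : (((-a : ℤ) : ℂ) * z + ((-b : ℤ) : ℂ)) / (((-c : ℤ) : ℂ) * z + ((-d : ℤ) : ℂ)) =
        ((a : ℂ) * z + b) / ((c : ℂ) * z + d) := by
      have e2 : ((-a : ℤ) : ℂ) * z + ((-b : ℤ) : ℂ) = -((a : ℂ) * z + b) := by push_cast; ring
      have e3 : ((-c : ℤ) : ℂ) * z + ((-d : ℤ) : ℂ) = -((c : ℂ) * z + d) := by push_cast; ring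
      rw [e2, e3, neg_div_neg_eq]
    rw [e1, hχ.neg, hW.eneg] at h
    rw [h]
    push_cast
    ring
  · exfalso
    subst hd
    have hD := D_ge F hF
    have h1 : F.D ∣ 1 := by
      have h2 : F.D ∣ c := (Dvd.intro _ rfl).trans hNc
      have h3 : (1 : ℤ) = c * (-b) := by linarith
      rw [h3]
      exact Dvd.dvd.mul_right h2 _
    have h4 := Int.le_of_dvd one_pos h1
    omega
  · exact pos hMOP F hF χ hχ W ε G hW a b c d hd hdet hNc z hz

end Pool.Agent.MUXT
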