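import Pool.Agent.MUX.StXT

/-!
# MUX, block XT: modularity of theta for matrices with a prime lower right entry (MOP)
-/

set_option autoImplicit false

namespace Pool.Agent.MUXT

open _root_.MU3 Pool.Agent.MUX Pool.Agent.MuSym OnePoint Filter Topology
open Pool.Agent.MU3T (Su_MBF Su_MCO)
open Pool.Agent.MU3F (ex)
open scoped ComplexConjugate

noncomputable section

theorem tx_MOP (hRED : Xs_RED) (hWID : Xs_WID) (hGAU : Xs_GAU) (hMBF : Su_MBF) : Xs_MOP := by
  intro F hF W ε G hw a b c p hfp hpD hdet hc z hz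
  obtain ⟨c', hc'⟩ := hc
  have hp : p.Prime := hfp.out
  have hp0 : 0 < p := hp.pos
  have hG : 0 < G := hw.pos
  have hD : 0 < F.D := hF.D_pos
  have hpC : (p : ℂ) ≠ 0 := by exact_mod_cast hp0.ne'
  have hGC : (G : ℂ) ≠ 0 := by exact_mod_cast hG.ne'
  have hDC : (F.D : ℂ) ≠ 0 := by exact_mod_cast hD.ne'
  have hzC : z ≠ 0 := by
    intro h0
    rw [h0] at hz
    simp at hz
  obtain ⟨hden, him, -⟩ := hMBF a b c p (by rw [← hdet]) z hz
  rw [Int.cast_natCast] at hden him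
  set u : ℂ := (c : ℂ) * z + p with hu
  set ζ : ℂ := z / (p * u) with hζ
  have hζ0 : ζ ≠ 0 := div_ne_zero hzC (mul_ne_zero hpC hden)
  have hdetC : (a : ℂ) * p - b * c = 1 := by exact_mod_cast hdet
  have hcC : (c : ℂ) = (F.D : ℂ) * (G : ℂ) ^ 2 * (c' : ℂ) := by
    rw [hc']; push_cast; ring
  have hgam : ((a : ℂ) * z + b) / u = (((b / p : ℚ) : ℚ) : ℂ) + ζ := by
    rw [hζ]
    push_cast
    field_simp
    rw [hu]
    linear_combination (z : ℂ) * hdetC
  have hζim : 0 < ζ.im := by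
    have h1 : ζ = ((a : ℂ) * z + b) / u - (((b / p : ℚ) : ℝ) : ℂ) := by
      rw [hgam]; push_cast; ring
    rw [h1, Complex.sub_im, Complex.ofReal_im, sub_zero]
    exact him
  have h1 := hRED F hF W G p hG hp0 hw.per b ζ hζim
  have h2 := hRED F hF W G 1 hG one_pos hw.per 0 z hz
  rw [← hgam] at h1
  have hpb : ¬ (p : ℤ) ∣ b * (G : ℤ) ^ 2 := by
    intro hd
    have hpp : Prime (p : ℤ) := Nat.prime_iff_prime_int.1 hp
    have h3 : (p : ℤ) ∣ b * c := by
      rw [hc']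
      obtain ⟨k, hk⟩ := hd
      exact ⟨k * F.D * c', by linear_combination (F.D * c') * hk⟩
    have h4 : (p : ℤ) ∣ 1 := by
      rw [← hdet]
      exact dvd_sub (Dvd.intro_left _ rfl) h3
    exact hpp.not_isUnit (isUnit_of_dvd_one h4)
  have hgg : gg F p (b * (G : ℤ) ^ 2) = (legendreSym p (-F.D) : ℂ) * p :=
    hGAU F p hpD _ hpb
  have hterm : ∀ y : Z2,
      tm F (WW F W G p b) (-1 / (((p : ℂ) * G) ^ 2 * (F.D : ℂ) * ζ)) y =
      (ε p * ((legendreSym p (-F.D) : ℂ) * p)) *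
        tm F (WW F W G 1 0) (-1 / ((((1 : ℕ) : ℂ) * G) ^ 2 * (F.D : ℂ) * z)) y := by
    intro y
    unfold tm
    rw [hWID F hF W ε G p hw hp0 a b c' (by rw [← hdet, hc']) y, hgg]
    have h5 : Complex.exp (2 * Real.pi * Complex.I * (F.ev y : ℂ) *
          (-1 / ((((1 : ℕ) : ℂ) * G) ^ 2 * (F.D : ℂ) * z))) =
        ex (c' * F.ev y / p) * Complex.exp (2 * Real.pi * Complex.I * (F.ev y : ℂ) *
          (-1 / (((p : ℂ) * G) ^ 2 * (F.D : ℂ) * ζ))) := by
      unfold ex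
      rw [← Complex.exp_add]
      congr 1
      have h6 : -1 / (((p : ℂ) * G) ^ 2 * (F.D : ℂ) * ζ) =
          -1 / ((G : ℂ) ^ 2 * (F.D : ℂ) * z) - (c' : ℂ) / p := by
        rw [hζ, hu, hcC]
        rw [hu, hcC] at hden
        field_simp
        ring
      rw [h6]
      push_cast
      ring
    rw [h5]
    ring
  rw [tsum_congr hterm, tsum_mul_left] at h1
  rw [show (((0 : ℤ) / ((1 : ℕ) : ℚ) : ℚ) : ℂ) + z = z by simp] at h2
  rw [h1, h2, hζ]
  push_cast
  field_simp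

end

end Pool.Agent.MUXT
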