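import Pool.Agent.MUX.StXT
import Pool.Agent.MU3.T_POC

/-!
# MUX, block XT, module POI: Poisson summation in the upper half plane
-/

set_option autoImplicit false

namespace Pool.Agent.MUXT

open _root_.MU3 Pool.Agent.MuSym OnePoint Filter Topology
open Pool.Agent.MU3F (ex)
open Pool.Agent.MU3B (area pr b_POC)
open scoped ComplexConjugate

noncomputable section

namespace X_POI

theorem lat (F : QF) (h : 0 < F.tau.im) : ∃ L : PeriodPair, L.ω₁ = 1 ∧ L.ω₂ = F.tau := by
  have hind : LinearIndependent ℝ ![(1 : ℂ), F.tau] := by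
    rw [LinearIndependent.pair_iff]
    intro s t hst
    rw [Complex.real_smul, Complex.real_smul, mul_one] at hst
    have h3 := congrArg Complex.im hst
    simp only [Complex.add_im, Complex.ofReal_im, Complex.mul_im, Complex.ofReal_re, zero_mul,
      add_zero, zero_add, Complex.zero_im] at h3
    have h4 : t = 0 := (mul_eq_zero.1 h3).resolve_right h.ne'
    rw [h4] at hst
    simp only [Complex.ofReal_zero, zero_mul, add_zero] at hst
    exact ⟨by exact_mod_cast hst, h4⟩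
  exact ⟨⟨1, F.tau, hind⟩, rfl, rfl⟩

/-- the point `i + j τ` -/
def pt (F : QF) (x : Z2) : ℂ := (x.1 : ℂ) + x.2 * F.tau

theorem pt_inj {F : QF} (h : 0 < F.tau.im) {x y : Z2} (hxy : pt F x = pt F y) : x = y := by
  have h1 := congrArg Complex.im hxy
  simp only [pt, Complex.add_im, Complex.mul_im, Complex.intCast_im, Complex.intCast_re,
    zero_mul, add_zero, zero_add] at h1
  have h2 : (x.2 : ℝ) = y.2 := mul_right_cancel₀ h.ne' h1
  have h3 := congrArg Complex.re hxy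
  simp only [pt, Complex.add_re, Complex.mul_re, Complex.intCast_im, Complex.intCast_re,
    zero_mul, sub_zero] at h3
  rw [h2] at h3
  have h4 : (x.1 : ℝ) = y.1 := add_right_cancel h3
  exact Prod.ext (by exact_mod_cast h4) (by exact_mod_cast h2)

theorem mem {F : QF} {L : PeriodPair} (h1 : L.ω₁ = 1) (h2 : L.ω₂ = F.tau) (z : ℂ) :
    z ∈ L.lattice ↔ ∃ x : Z2, pt F x = z := by
  rw [PeriodPair.mem_lattice, h1, h2]
  constructor
  · rintro ⟨m, n, hz⟩
    exact ⟨⟨m, n⟩, by rw [← hz]; simp only [pt]; ring⟩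
  · rintro ⟨x, hz⟩
    exact ⟨x.1, x.2, by rw [← hz]; simp only [pt]; ring⟩

/-- `ℤ²` and the lattice -/
def eq {F : QF} {L : PeriodPair} (h : 0 < F.tau.im) (h1 : L.ω₁ = 1) (h2 : L.ω₂ = F.tau) :
    Z2 ≃ L.lattice :=
  Equiv.ofBijective (fun x => ⟨pt F x, (mem h1 h2 _).2 ⟨x, rfl⟩⟩)
    ⟨fun x y hxy => pt_inj h (congrArg Subtype.val hxy), fun z => by
      obtain ⟨x, hx⟩ := (mem h1 h2 _).1 z.2
      exact ⟨x, Subtype.ext hx⟩⟩

theorem area_eq {F : QF} {L : PeriodPair} (h : 0 < F.tau.im) (h1 : L.ω₁ = 1)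
    (h2 : L.ω₂ = F.tau) : area L = F.tau.im := by
  unfold area
  rw [h1, h2, map_one, one_mul, abs_of_pos h]

theorem pr_eq {F : QF} {L : PeriodPair} (h : 0 < F.tau.im) (h1 : L.ω₁ = 1) (h2 : L.ω₂ = F.tau)
    (m : ℕ) (x y : Z2) : pr L (pt F y) (pt F x / m) = ex (wx x y / m) := by
  unfold pr ex
  have ha : area L ≠ 0 := by
    rw [area_eq h h1 h2]
    exact h.ne'
  have h3 : conj (pt F y) * (pt F x / m) - pt F y * conj (pt F x / m) =
      2 * ((area L : ℝ) : ℂ) * (wx x y : ℂ) * Complex.I / m := by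
    rw [map_div₀, Complex.conj_natCast]
    have h6 : conj (pt F y) * (pt F x / m) - pt F y * (conj (pt F x) / m) =
        (conj (pt F y) * pt F x - pt F y * conj (pt F x)) / m := by
      ring
    have h7 : conj (pt F y) * pt F x - pt F y * conj (pt F x) =
        (x.2 * y.1 - x.1 * y.2) * (F.tau - conj F.tau) := by
      simp only [pt, map_add, map_mul, map_intCast]
      ring
    rw [h6, h7, Complex.sub_conj, area_eq h h1 h2]
    unfold wx
    push_cast
    ring
  rw [h3]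
  congr 1
  have ha' : ((area L : ℝ) : ℂ) ≠ 0 := by exact_mod_cast ha
  push_cast
  field_simp

end X_POI

open X_POI in
/-- Poisson summation in the upper half plane -/
theorem tx_POI (hQFF : Xs_QFF) : Xs_POI := by
  intro F hF m hm x0 z hz
  obtain ⟨ht, hti, hev, -, -, -, -⟩ := hQFF F hF
  obtain ⟨L, h1, h2⟩ := lat F ht
  have ha := area_eq ht h1 h2
  have hm0 : (0 : ℝ) < m := by exact_mod_cast hm
  have hmC : (m : ℂ) ≠ 0 := by exact_mod_cast hm.ne'
  have hD : (0 : ℝ) < (F.D : ℝ) := by exact_mod_cast hF.D_pos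
  have hDC : (F.D : ℂ) ≠ 0 := by exact_mod_cast hF.D_pos.ne'
  have haC : (F.a : ℂ) ≠ 0 := by exact_mod_cast hF.a_pos.ne'
  have hz0 : z ≠ 0 := by
    rintro rfl
    simp at hz
  set s : ℝ := Real.sqrt (F.D : ℝ) with hs
  have hs0 : 0 < s := Real.sqrt_pos.2 hD
  have hsC : (s : ℂ) ≠ 0 := by exact_mod_cast hs0.ne'
  have hs2 : (s : ℂ) ^ 2 = F.D := by
    have := Real.sq_sqrt hD.le
    rw [← hs] at this
    exact_mod_cast this
  have hareaC : ((area L : ℝ) : ℂ) = s / (2 * F.a) := by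
    rw [ha, hti]
    push_cast
    ring
  set t : ℂ := Complex.I / ((m : ℂ) ^ 2 * s * z) with htd
  have htre : 0 < t.re := by
    have e1 : t = ((1 / ((m : ℝ) ^ 2 * s) : ℝ) : ℂ) * (Complex.I / z) := by
      rw [htd]
      push_cast
      field_simp
    rw [e1, Complex.re_ofReal_mul]
    have e2 : (Complex.I / z).re = z.im / Complex.normSq z := by
      rw [Complex.div_re]
      simp
    rw [e2]
    have := Complex.normSq_pos.2 hz0
    positivity
  have key := b_POC L t htre (pt F x0 / m)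
  rw [← (eq ht h1 h2).tsum_eq, ← (eq ht h1 h2).tsum_eq] at key
  have ev : ∀ x : Z2, ((eq ht h1 h2 x : L.lattice) : ℂ) = pt F x := fun x => rfl
  simp only [ev] at key
  have hevC : ∀ x : Z2, (F.ev x : ℂ) = F.a * ((‖pt F x‖ : ℝ) : ℂ) ^ 2 := by
    intro x
    have := hev x
    exact_mod_cast this
  have e1 : ∀ w : Z2, conj (pt F x0 / m + pt F w) *
      Complex.exp (-((Real.pi : ℂ) * ((‖pt F x0 / (m : ℂ) + pt F w‖ : ℝ) : ℂ) ^ 2 /
        (((area L : ℝ) : ℂ) * t))) =
      (1 / (m : ℂ)) * (F.lc (x0.1 + m * w.1, x0.2 + m * w.2) *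
      Complex.exp (2 * Real.pi * Complex.I * (F.ev (x0.1 + m * w.1, x0.2 + m * w.2) : ℂ) * z)) := by
    intro w
    have e2 : pt F x0 / (m : ℂ) + pt F w = pt F (x0.1 + m * w.1, x0.2 + m * w.2) / m := by
      unfold pt
      push_cast
      field_simp
      ring
    rw [e2, map_div₀, Complex.conj_natCast, norm_div, Complex.norm_natCast, hevC, hareaC]
    have e3 : -((Real.pi : ℂ) *
        ((‖pt F (x0.1 + m * w.1, x0.2 + m * w.2)‖ / (m : ℝ) : ℝ) : ℂ) ^ 2 /
        (((s : ℂ) / (2 * F.a)) * t)) =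
        2 * Real.pi * Complex.I * (F.a *
        ((‖pt F (x0.1 + m * w.1, x0.2 + m * w.2)‖ : ℝ) : ℂ) ^ 2) * z := by
      rw [htd]
      push_cast
      field_simp
      rw [Complex.I_sq]
      ring
    rw [e3]
    unfold QF.lc pt
    ring
  have e4 : ∀ y : Z2, conj (pt F y) * pr L (pt F y) (pt F x0 / m) *
      Complex.exp (-((Real.pi : ℂ) * t * ((‖pt F y‖ : ℝ) : ℂ) ^ 2 / ((area L : ℝ) : ℂ))) =
      tm F (fun y => ex (wx x0 y / m)) (-1 / ((m : ℂ) ^ 2 * (F.D : ℂ) * z)) y := by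
    intro y
    rw [pr_eq ht h1 h2, hareaC]
    unfold tm
    rw [hevC]
    have e5 : -((Real.pi : ℂ) * t * ((‖pt F y‖ : ℝ) : ℂ) ^ 2 / ((s : ℂ) / (2 * F.a))) =
        2 * Real.pi * Complex.I * (F.a * ((‖pt F y‖ : ℝ) : ℂ) ^ 2) *
          (-1 / ((m : ℂ) ^ 2 * (F.D : ℂ) * z)) := by
      rw [htd, ← hs2]
      field_simp
    rw [e5]
    unfold QF.lc pt
    ring
  simp only [e1, e4] at key
  rw [tsum_mul_left] at key
  have e7 : -t ^ 2 * m = 1 / ((m : ℂ) ^ 3 * (F.D : ℂ) * z ^ 2) := by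
    rw [htd, div_pow, Complex.I_sq, ← hs2]
    field_simp
  have e9 := congrArg (fun z : ℂ => (m : ℂ) * z) key
  rw [← mul_assoc, mul_one_div_cancel hmC, one_mul] at e9
  rw [e9, ← e7]
  ring

end

end Pool.Agent.MUXT
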