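import Pool.Agent.MUX.StXT

/-!
# MUX, block XT, module QFF: facts on binary forms (helper85)
-/

set_option autoImplicit false

namespace Pool.Agent.MUXT

namespace QFF

theorem tau_re (F : QF) : F.tau.re = (F.b : ℝ) / (2 * F.a) := by
  unfold QF.tau
  have h : ((F.b : ℂ) + Complex.I * ((Real.sqrt (F.D : ℝ) : ℝ) : ℂ)) / (2 * (F.a : ℂ)) =
      (((F.b : ℝ) / (2 * F.a) : ℝ) : ℂ) + (((Real.sqrt (F.D : ℝ)) / (2 * F.a) : ℝ) : ℂ) * Complex.I := by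
    push_cast
    ring
  rw [h, Complex.add_re, Complex.ofReal_re, Complex.re_ofReal_mul, Complex.I_re, mul_zero, add_zero]

theorem tau_im (F : QF) : F.tau.im = Real.sqrt (F.D : ℝ) / (2 * F.a) := by
  unfold QF.tau
  have h : ((F.b : ℂ) + Complex.I * ((Real.sqrt (F.D : ℝ) : ℝ) : ℂ)) / (2 * (F.a : ℂ)) =
      (((F.b : ℝ) / (2 * F.a) : ℝ) : ℂ) + (((Real.sqrt (F.D : ℝ)) / (2 * F.a) : ℝ) : ℂ) * Complex.I := by
    push_cast
    ring
  rw [h, Complex.add_im, Complex.ofReal_im, Complex.im_ofReal_mul, Complex.I_im, mul_one, zero_add]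

theorem norm_sq (F : QF) (hF : F.Pos) (x : Z2) :
    ((F.ev x : ℤ) : ℝ) = F.a * ‖(x.1 : ℂ) + x.2 * F.tau‖ ^ 2 := by
  have ha : (0 : ℝ) < F.a := by exact_mod_cast hF.a_pos
  have hD : (0 : ℝ) < F.D := by exact_mod_cast hF.D_pos
  have hre : ((x.1 : ℂ) + x.2 * F.tau).re = x.1 + x.2 * ((F.b : ℝ) / (2 * F.a)) := by
    rw [Complex.add_re, Complex.mul_re, tau_re]
    simp
  have him : ((x.1 : ℂ) + x.2 * F.tau).im = x.2 * (Real.sqrt (F.D : ℝ) / (2 * F.a)) := by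
    rw [Complex.add_im, Complex.mul_im, tau_im]
    simp
  rw [← Complex.normSq_eq_norm_sq, Complex.normSq_apply, hre, him]
  have hs : Real.sqrt (F.D : ℝ) * Real.sqrt (F.D : ℝ) = F.D := Real.mul_self_sqrt hD.le
  have e1 : (x.2 : ℝ) * (Real.sqrt (F.D : ℝ) / (2 * F.a)) * ((x.2 : ℝ) * (Real.sqrt (F.D : ℝ) / (2 * F.a))) =
      (x.2 : ℝ) ^ 2 * ((F.D : ℝ) / (2 * F.a) ^ 2) := by
    calc (x.2 : ℝ) * (Real.sqrt (F.D : ℝ) / (2 * F.a)) * ((x.2 : ℝ) * (Real.sqrt (F.D : ℝ) / (2 * F.a)))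
        = (x.2 : ℝ) ^ 2 * ((Real.sqrt (F.D : ℝ) * Real.sqrt (F.D : ℝ)) / (2 * F.a) ^ 2) := by
          field_simp
      _ = _ := by rw [hs]
  rw [e1]
  unfold QF.ev QF.D
  push_cast
  field_simp
  ring

theorem c_pos (F : QF) (hF : F.Pos) : 0 < F.c := by
  have h1 := hF.a_pos
  have h2 := hF.D_pos
  unfold QF.D at h2
  by_contra h
  push Not at h
  nlinarith [sq_nonneg F.b, mul_nonneg h1.le (neg_nonneg.mpr h)]

theorem ev_pos (F : QF) (hF : F.Pos) (x : Z2) (hx : x ≠ 0) : 1 ≤ F.ev x := by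
  have h1 := hF.a_pos
  have h2 := hF.D_pos
  have key : 4 * F.a * F.ev x = (2 * F.a * x.1 + F.b * x.2) ^ 2 + F.D * x.2 ^ 2 := by
    unfold QF.ev QF.D
    ring
  have hpos : 0 < 4 * F.a * F.ev x := by
    rw [key]
    by_cases h : x.2 = 0
    · have h3 : x.1 ≠ 0 := by
        intro h4
        exact hx (Prod.ext h4 h)
      have h5 : 0 < (2 * F.a * x.1) ^ 2 := by
        have : (2 * F.a * x.1) ≠ 0 := mul_ne_zero (mul_ne_zero two_ne_zero h1.ne') h3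
        positivity
      rw [h]
      nlinarith
    · have h5 : 0 < F.D * x.2 ^ 2 := by positivity
      nlinarith [sq_nonneg (2 * F.a * x.1 + F.b * x.2)]
  have h6 : 0 < 4 * F.a := by linarith
  have := pos_of_mul_pos_right hpos h6.le
  omega

theorem kappa (F : QF) (hF : F.Pos) :
    ∃ κ : ℝ, 0 < κ ∧ ∀ x : Z2, κ * ((x.1 : ℝ) ^ 2 + (x.2 : ℝ) ^ 2) ≤ F.ev x := by
  have ha : (0 : ℝ) < F.a := by exact_mod_cast hF.a_pos
  have hc : (0 : ℝ) < F.c := by exact_mod_cast c_pos F hF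
  have hD : (0 : ℝ) < F.D := by exact_mod_cast hF.D_pos
  have hDe : (F.D : ℝ) = 4 * F.a * F.c - F.b ^ 2 := by
    unfold QF.D
    push_cast
    ring
  set κ : ℝ := F.D / (4 * (F.a + F.c)) with hκ
  have hκ0 : 0 < κ := by positivity
  have hκe : κ * (4 * (F.a + F.c)) = F.D := by
    rw [hκ]
    field_simp
  have hκa : κ < F.a := by
    rw [hκ, div_lt_iff₀ (by positivity)]
    nlinarith [sq_nonneg (F.b : ℝ)]
  refine ⟨κ, hκ0, fun x => ?_⟩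
  have hev : ((F.ev x : ℤ) : ℝ) = F.a * x.1 ^ 2 + F.b * x.1 * x.2 + F.c * x.2 ^ 2 := by
    unfold QF.ev
    push_cast
    ring
  rw [hev]
  have h1 : 0 < (F.a : ℝ) - κ := by linarith
  have h2 : ((F.a : ℝ) - κ) * ((F.a * x.1 ^ 2 + F.b * x.1 * x.2 + F.c * x.2 ^ 2) -
      κ * ((x.1 : ℝ) ^ 2 + (x.2 : ℝ) ^ 2)) =
      (((F.a : ℝ) - κ) * x.1 + F.b / 2 * x.2) ^ 2 + κ ^ 2 * x.2 ^ 2 := by
    have h3 : ((F.a : ℝ) - κ) * (F.c - κ) - F.b ^ 2 / 4 = κ ^ 2 := by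
      have : (F.b : ℝ) ^ 2 = 4 * F.a * F.c - κ * (4 * (F.a + F.c)) := by
        rw [hκe, hDe]
        ring
      rw [this]
      ring
    have h4 : ((F.a : ℝ) - κ) * ((F.a * x.1 ^ 2 + F.b * x.1 * x.2 + F.c * x.2 ^ 2) -
      κ * ((x.1 : ℝ) ^ 2 + (x.2 : ℝ) ^ 2)) =
      (((F.a : ℝ) - κ) * x.1 + F.b / 2 * x.2) ^ 2 +
        (((F.a : ℝ) - κ) * (F.c - κ) - F.b ^ 2 / 4) * x.2 ^ 2 := by
      ring
    rw [h4, h3]
  have h5 : 0 ≤ ((F.a : ℝ) - κ) * ((F.a * x.1 ^ 2 + F.b * x.1 * x.2 + F.c * x.2 ^ 2) -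
      κ * ((x.1 : ℝ) ^ 2 + (x.2 : ℝ) ^ 2)) := by
    rw [h2]
    positivity
  have h6 := nonneg_of_mul_nonneg_right h5 h1
  linarith

theorem dvd (F : QF) (m : ℤ) (x y : Z2) (h1 : m ∣ x.1 - y.1) (h2 : m ∣ x.2 - y.2) :
    m ∣ F.ev x - F.ev y := by
  have e : F.ev x - F.ev y = (x.1 - y.1) * (F.a * (x.1 + y.1) + F.b * x.2) +
      (x.2 - y.2) * (F.c * (x.2 + y.2) + F.b * y.1) := by
    unfold QF.ev
    ring
  rw [e]
  exact dvd_add (Dvd.dvd.mul_right h1 _) (Dvd.dvd.mul_right h2 _)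

end QFF

open QFF in
theorem tx_QFF : Xs_QFF := by
  intro F hF
  have ha : (0 : ℝ) < F.a := by exact_mod_cast hF.a_pos
  have hD : (0 : ℝ) < F.D := by exact_mod_cast hF.D_pos
  refine ⟨?_, tau_im F, norm_sq F hF, ?_, ev_pos F hF, kappa F hF, ?_⟩
  · rw [tau_im]
    have := Real.sqrt_pos.mpr hD
    positivity
  · intro x
    rw [norm_sq F hF x]
    unfold QF.lc
    rw [Complex.norm_conj]
  · intro m x y h1 h2
    exact dvd F m x y h1 h2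

end Pool.Agent.MUXT
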