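import Pool.Agent.MUX.StXT

/-!
# MUX, block XT, module QPE: the primitive under `Gamma_0(N0)` (helper79; model `MU3/T_QPE.lean`)
-/

set_option autoImplicit false

namespace Pool.Agent.MUXT

open _root_.MU3 Pool.Agent.MuSym OnePoint Filter Topology
open Pool.Agent.MUXF (nI thetaI thetaIntI IvI IcI PhiI)
open Pool.Agent.MU3T (Su_MBF Su_MCO)
open Pool.Agent.MU3F (ex)
open scoped ComplexConjugate

noncomputable section

namespace QPEaux

theorem ThI_eq (F : QF) (W : Z2 → ℂ) (z : ℂ) : ThI F W z = 1 / 2 * ∑' y, tI F W z y := rfl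

theorem Th_eq (F : QF) (W : Z2 → ℂ) (z : ℂ) : Th F W z = 1 / 2 * ∑' y, tm F W z y := rfl

theorem hd_ThI (hDIF : Xs_DIF) {F : QF} (hF : F.Pos) {W : Z2 → ℂ} (hb : Bd W) {z : ℂ}
    (hz : 0 < z.im) : HasDerivAt (ThI F W) (2 * Real.pi * Complex.I * Th F W z) z := by
  have h := ((hDIF F hF W hb).2.2 z hz).const_mul (1 / 2 : ℂ)
  have e1 : (1 / 2 : ℂ) * (2 * Real.pi * Complex.I * ∑' y, tm F W z y) =
      2 * Real.pi * Complex.I * Th F W z := by
    rw [Th_eq]; ring
  rw [e1] at h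
  exact h

/-- the series of the primitive is small near `i oo` -/
theorem van (hBND : Xs_BND) {F : QF} (hF : F.Pos) {W : Z2 → ℂ} (hb : Bd W) {ε : ℝ} (hε : 0 < ε) :
    ∃ R : ℝ, ∀ z : ℂ, R ≤ z.im → ‖∑' y, tI F W z y‖ < ε := by
  obtain ⟨C, hC, h⟩ := hBND F hF W hb
  have h1 : Tendsto (fun t : ℝ => C * Real.exp (-(2 * Real.pi * t))) atTop (𝓝 (C * 0)) := by
    refine Tendsto.const_mul C ?_
    refine Real.tendsto_exp_neg_atTop_nhds_zero.comp ?_
    exact tendsto_id.const_mul_atTop (by positivity)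
  rw [mul_zero] at h1
  obtain ⟨R, hR⟩ := (h1.eventually (gt_mem_nhds hε)).exists_forall_of_atTop
  refine ⟨max R 1, fun z hz => ?_⟩
  exact ((h z ((le_max_right _ _).trans hz)).2).trans_lt (hR z.im ((le_max_left _ _).trans hz))

end QPEaux

open QPEaux in
theorem tx_QPE (hWBD : Xs_WBD) (hDIF : Xs_DIF) (hBND : Xs_BND) (hMBF : Su_MBF) (hMOD : Xs_MOD)
    (hCUS : Xs_CUS) : Xs_QPE := by
  intro F hF χ hχ W ε₀ G hW a b c d hdet hN
  have hb : Bd W := hWBD.1 G W hW.pos hW.per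
  set H : Set ℂ := {z : ℂ | 0 < z.im} with hH
  have hopen : IsOpen H := isOpen_lt continuous_const Complex.continuous_im
  have hconv : Convex ℝ H := convex_halfSpace_im_gt 0
  set k : ℂ := (χ d : ℂ) * ε₀ d with hk
  set D : ℂ → ℂ := fun z => ThI F W (((a : ℂ) * z + b) / ((c : ℂ) * z + d)) -
    k * ThI F W z with hD
  have hder : ∀ z ∈ H, HasDerivAt D 0 z := by
    intro z hz
    obtain ⟨h1, h2, h3⟩ := hMBF a b c d hdet z hz
    have h4 := (hd_ThI hDIF hF hb h2).comp z h3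
    have h5 := (hd_ThI hDIF hF hb hz).const_mul k
    have h6 := h4.sub h5
    have h7 := hMOD F hF χ hχ W ε₀ G hW a b c d hdet hN z hz
    refine HasDerivAt.congr_deriv h6 ?_
    rw [h7, ← hk]
    field_simp
    ring
  have hdiff : DifferentiableOn ℂ D H := fun z hz =>
    (hder z hz).differentiableAt.differentiableWithinAt
  have hconst : ∀ z ∈ H, ∀ w ∈ H, D z = D w := by
    intro z hz w hw
    exact hopen.is_const_of_deriv_eq_zero hconv.isPreconnected hdiff
      (fun x hx => (hder x hx).deriv) hz hw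
  have hI : Complex.I ∈ H := by simp [hH]
  have hC := hCUS F hF W G hW.pos hW.per a b c d hdet (D Complex.I) (by
    intro ε hε
    have hK : 0 < ‖k‖ + 1 := by positivity
    obtain ⟨R, hR'⟩ := van hBND hF hb (ε := ε / (‖k‖ + 1)) (by positivity)
    refine ⟨R, ?_⟩
    intro z hz hz0
    have h1 := hconst z hz0 Complex.I hI
    have h2 : ThI F W (((a : ℂ) * z + b) / ((c : ℂ) * z + d)) - D Complex.I =
        k * ThI F W z := by
      rw [← h1]
      simp only [hD]
      ring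
    rw [h2, ThI_eq, norm_mul k, norm_mul (1 / 2 : ℂ)]
    have h3 := hR' z hz
    rw [lt_div_iff₀ hK] at h3
    have h4 : ‖(1 / 2 : ℂ)‖ = 1 / 2 := by norm_num
    rw [h4]
    have h5 : 0 ≤ ‖∑' y, tI F W z y‖ := norm_nonneg _
    have h6 : 0 ≤ ‖k‖ := norm_nonneg _
    nlinarith [mul_nonneg h5 h6])
  intro z hz
  have h1 := hconst z hz Complex.I hI
  rw [hC] at h1
  simp only [hD] at h1
  rw [← h1]
  ring

end

end Pool.Agent.MUXT
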