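import Pool.Agent.MUX.StXT

/-!
# MUX, block XT, module RED (helper96): theta near a cusp
-/

set_option autoImplicit false

namespace Pool.Agent.MUXT

open _root_.MU3 Pool.Agent.MuSym OnePoint Filter Topology
open Pool.Agent.MU3F (ex)
open scoped ComplexConjugate

noncomputable section

namespace RedX

theorem ex_cong {r s : ℚ} (n : ℤ) (h : r = s + n) : ex r = ex s := by
  have h1 : ex (n : ℚ) = 1 := by
    unfold ex
    rw [Complex.exp_eq_one_iff]
    exact ⟨n, by push_cast; ring⟩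
  have h2 : ex (s + n) = ex s * ex n := by
    unfold ex
    rw [← Complex.exp_add]
    congr 1
    push_cast
    ring
  rw [h, h2, h1, mul_one]

theorem norm_ex (r : ℚ) : ‖ex r‖ = 1 := by
  unfold ex
  have h : 2 * (Real.pi : ℂ) * Complex.I * (r : ℂ) = ((2 * Real.pi * (r : ℝ) : ℝ) : ℂ) * Complex.I := by
    push_cast; ring
  rw [h, Complex.norm_exp_ofReal_mul_I]

theorem im_pos {c : ℝ} (hc : 0 < c) {z : ℂ} (hz : 0 < z.im) : 0 < (-1 / ((c : ℂ) * z)).im := by
  have h1 : -1 / ((c : ℂ) * z) = -((c : ℂ) * z)⁻¹ := by rw [neg_div, one_div]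
  have h2 : ((c : ℂ) * z).im = c * z.im := by simp
  have h3 : (c : ℂ) * z ≠ 0 := by
    intro h
    have := congrArg Complex.im h
    rw [h2] at this
    simp at this
    rcases this with h4 | h4 <;> linarith
  rw [h1, Complex.neg_im, Complex.inv_im, neg_div, neg_neg, h2]
  exact div_pos (mul_pos hc hz) (Complex.normSq_pos.2 h3)

/-- The form modulo `m`. -/
theorem ev_add (F : QF) (m : ℕ) (x w : Z2) :
    ∃ k : ℤ, F.ev (x.1 + m * w.1, x.2 + m * w.2) = F.ev x + m * k := by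
  refine ⟨2 * F.a * x.1 * w.1 + F.b * (x.1 * w.2 + x.2 * w.1) + 2 * F.c * x.2 * w.2 +
    m * F.ev w, ?_⟩
  unfold QF.ev
  ring

theorem sm_eq (m : ℕ) (f : Z2 → ℂ) :
    sm m f = ∑ p ∈ Finset.range m ×ˢ Finset.range m, f ((p.1 : ℤ), (p.2 : ℤ)) := by
  unfold sm
  rw [Finset.sum_product]

theorem sm_congr (m : ℕ) (f g : Z2 → ℂ) (h : ∀ x, f x = g x) : sm m f = sm m g := by
  rw [funext h]

end RedX

open RedX in
/-- Theta near the cusp `t/q`. -/
theorem tx_RED (hDIF : Xs_DIF) (hPOI : Xs_POI) (hCLS : Xs_CLS) (hWBD : Xs_WBD) : Xs_RED := by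
  intro F hF W G q hG hq hperW t z hz
  obtain ⟨m, hm⟩ : ∃ m : ℕ, m = q * G := ⟨_, rfl⟩
  have hm0 : 0 < m := by rw [hm]; exact Nat.mul_pos hq hG
  have hBd := hWBD.1 G W hG hperW
  have hqQ : (q : ℚ) ≠ 0 := by exact_mod_cast hq.ne'
  -- the terms
  obtain ⟨f, hf⟩ : ∃ f : Z2 → ℂ, ∀ x, f x = W x * F.lc x *
      Complex.exp (2 * Real.pi * Complex.I * (F.ev x : ℂ) * (((t / q : ℚ) : ℂ) + z)) :=
    ⟨_, fun _ => rfl⟩
  have hfs : Summable f := by
    have him : 0 < (((t / q : ℚ) : ℂ) + z).im := by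
      have : (((t / q : ℚ) : ℂ)).im = 0 := by
        have h1 : ((t / q : ℚ) : ℂ) = (((t / q : ℚ) : ℝ) : ℂ) := by push_cast; rfl
        rw [h1, Complex.ofReal_im]
      rw [Complex.add_im, this, zero_add]
      exact hz
    have h := ((hDIF F hF W hBd).1 _ him).1
    exact h.congr fun x => (hf x).symm
  have hf2 : ∀ x, f x = W x * ex (t * F.ev x / q) * (F.lc x *
      Complex.exp (2 * Real.pi * Complex.I * (F.ev x : ℂ) * z)) := by
    intro x
    have h1 : Complex.exp (2 * Real.pi * Complex.I * (F.ev x : ℂ) * (((t / q : ℚ) : ℂ) + z)) =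
        ex (t * F.ev x / q) * Complex.exp (2 * Real.pi * Complex.I * (F.ev x : ℂ) * z) := by
      unfold ex
      rw [← Complex.exp_add]
      congr 1
      push_cast
      ring
    rw [hf, h1]
    ring
  -- periodicity
  have hper : ∀ x w : Z2, f (x.1 + m * w.1, x.2 + m * w.2) = W x * ex (t * F.ev x / q) *
      (F.lc (x.1 + m * w.1, x.2 + m * w.2) *
        Complex.exp (2 * Real.pi * Complex.I *
          (F.ev (x.1 + m * w.1, x.2 + m * w.2) : ℂ) * z)) := by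
    intro x w
    have h1 : W (x.1 + m * w.1, x.2 + m * w.2) = W x := by
      apply hperW
      · refine ⟨q * w.1, ?_⟩
        rw [hm]
        push_cast
        ring
      · refine ⟨q * w.2, ?_⟩
        rw [hm]
        push_cast
        ring
    have h2 : ex (t * F.ev (x.1 + m * w.1, x.2 + m * w.2) / q) = ex (t * F.ev x / q) := by
      obtain ⟨k, hk⟩ := ev_add F m x w
      apply ex_cong (t * G * k)
      rw [hk, hm]
      push_cast
      field_simp
    rw [hf2, h1, h2]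
  -- decomposition
  have hdec := hCLS.1 m hm0 f hfs
  -- the transformed series
  obtain ⟨ζ, hζ⟩ : ∃ ζ : ℂ, ζ = -1 / ((m : ℂ) ^ 2 * (F.D : ℂ) * z) := ⟨_, rfl⟩
  have hζim : 0 < ζ.im := by
    have hD : (0 : ℝ) < (F.D : ℝ) := by exact_mod_cast hF.D_pos
    have hmR : (0 : ℝ) < (m : ℝ) := by exact_mod_cast hm0
    have h := im_pos (c := (m : ℝ) ^ 2 * (F.D : ℝ)) (by positivity) hz
    rw [hζ]
    push_cast at h
    exact h
  obtain ⟨c, hcdef⟩ : ∃ c : ℂ, c = 1 / ((m : ℂ) ^ 3 * (F.D : ℂ) * z ^ 2) := ⟨_, rfl⟩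
  have hS : ∀ x : Z2, ∑' w : Z2, f (x.1 + m * w.1, x.2 + m * w.2) =
      W x * ex (t * F.ev x / q) * (c * ∑' y : Z2, tm F (fun y => ex (wx x y / m)) ζ y) := by
    intro x
    rw [tsum_congr (hper x), tsum_mul_left, hPOI F hF m hm0 x z hz, ← hζ, ← hcdef]
  have hsumm : ∀ x : Z2, Summable (tm F (fun y => ex (wx x y / m)) ζ) := by
    intro x
    exact ((hDIF F hF _ ⟨1, fun y => by rw [norm_ex]⟩).1 ζ hζim).1
  have hmQ : (m : ℚ) = (q : ℚ) * (G : ℚ) := by rw [hm]; push_cast; rfl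
  have hW : ∀ y : Z2, tm F (WW F W G q t) ζ y =
      ∑ p ∈ Finset.range m ×ˢ Finset.range m, W ((p.1 : ℤ), (p.2 : ℤ)) *
        ex (t * F.ev ((p.1 : ℤ), (p.2 : ℤ)) / q) *
          tm F (fun y => ex (wx ((p.1 : ℤ), (p.2 : ℤ)) y / m)) ζ y := by
    intro y
    unfold tm WW
    rw [← hm, sm_eq, Finset.sum_mul, Finset.sum_mul]
    apply Finset.sum_congr rfl
    intro p _
    rw [hmQ]
    ring
  have hmain : ∑' x, f x = c * ∑' y, tm F (WW F W G q t) ζ y := by
    rw [hdec, sm_congr m _ _ hS, sm_eq]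
    have h1 : ∀ p ∈ Finset.range m ×ˢ Finset.range m,
        W ((p.1 : ℤ), (p.2 : ℤ)) * ex (t * F.ev ((p.1 : ℤ), (p.2 : ℤ)) / q) *
          (c * ∑' y : Z2, tm F (fun y => ex (wx ((p.1 : ℤ), (p.2 : ℤ)) y / m)) ζ y) =
        c * ∑' y : Z2, (W ((p.1 : ℤ), (p.2 : ℤ)) * ex (t * F.ev ((p.1 : ℤ), (p.2 : ℤ)) / q) *
          tm F (fun y => ex (wx ((p.1 : ℤ), (p.2 : ℤ)) y / m)) ζ y) := by
      intro p _
      rw [tsum_mul_left]
      ring
    rw [Finset.sum_congr rfl h1, ← Finset.mul_sum]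
    congr 1
    rw [← Summable.tsum_finsetSum]
    · exact tsum_congr fun y => (hW y).symm
    · intro p _
      exact (hsumm _).mul_left _
  have hth : Th F W (((t / q : ℚ) : ℂ) + z) = 1 / 2 * ∑' x, f x := by
    unfold Th
    congr 1
    exact tsum_congr fun x => (hf x).symm
  rw [hth, hmain, hcdef, hζ, hm]
  push_cast
  have hq3 : 1 / (2 * ((q : ℂ) * G) ^ 3 * (F.D : ℂ) * z ^ 2) =
      1 / 2 * (1 / (((q : ℂ) * G) ^ 3 * (F.D : ℂ) * z ^ 2)) := by
    rw [one_div_mul_one_div]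
    congr 1
    ring
  rw [hq3]
  ring

end

end Pool.Agent.MUXT
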