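import Pool.Agent.MUX.StXT

/-!
# MUX, block XT: regrouping as a power series (helper73)
-/

set_option autoImplicit false

namespace Pool.Agent.MUXT

open _root_.MU3 Pool.Agent.MUX Pool.Agent.MuSym OnePoint Filter Topology
open scoped ComplexConjugate

noncomputable section

/-- Regrouping as a power series. -/
theorem tx_REG (hQFF : Xs_QFF) (hDIF : Xs_DIF) : Xs_REG := by
  intro F hF W hW M N hN hMN
  obtain ⟨-, -, -, -, hev, -, -⟩ := hQFF F hF
  obtain ⟨k, rfl⟩ := hMN
  have hM : M ≠ 0 := left_ne_zero_of_mul hN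
  have hk : k ≠ 0 := right_ne_zero_of_mul hN
  set f : Z2 → ℕ := fun y => ((k : ℤ) * F.ev y - 1).toNat with hf
  set v : Z2 → ℂ := fun y => W y * F.lc y / (F.ev y : ℂ) with hv
  refine ⟨fun n => ∑' y : f ⁻¹' {n}, v y, ?_⟩
  intro τ hτ
  have hτM : 0 < (τ / (M : ℂ)).im := by
    rw [Complex.div_natCast_im]
    exact div_pos hτ (by exact_mod_cast Nat.pos_of_ne_zero hM)
  have hs : Summable (tI F W (τ / M)) := ((hDIF F hF W hW).1 (τ / M) hτM).2
  set q : ℂ := Complex.exp (2 * Real.pi * Complex.I * τ / ((M * k : ℕ) : ℂ)) with hq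
  have hterm : ∀ y, tI F W (τ / M) y = v y * q ^ (f y + 1) := by
    intro y
    by_cases hy : y = 0
    · subst hy
      have h1 : F.ev (0 : Z2) = 0 := by simp [QF.ev]
      simp [tI, hv, h1]
    · have h1 : 1 ≤ F.ev y := hev y hy
      have h2 : (1 : ℤ) ≤ (k : ℤ) := by exact_mod_cast Nat.pos_of_ne_zero hk
      have h3 : 0 ≤ (k : ℤ) * F.ev y - 1 := by nlinarith
      have h4 : ((f y + 1 : ℕ) : ℤ) = (k : ℤ) * F.ev y := by
        rw [hf]
        push_cast
        rw [Int.toNat_of_nonneg h3]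
        ring
      have h5 : ((f y + 1 : ℕ) : ℂ) = (k : ℂ) * (F.ev y : ℂ) := by
        have := congrArg (fun z : ℤ => (z : ℂ)) h4
        simpa using this
      have hMc : (M : ℂ) ≠ 0 := by exact_mod_cast hM
      have hkc : (k : ℂ) ≠ 0 := by exact_mod_cast hk
      unfold tI
      rw [hq, ← Complex.exp_nat_mul, h5]
      congr 2
      push_cast
      field_simp
  have h1 : HasSum (fun y => v y * q ^ (f y + 1)) (∑' y, tI F W (τ / M) y) := by
    have h2 := hs.hasSum
    rwa [show tI F W (τ / M) = fun y => v y * q ^ (f y + 1) from funext hterm] at h2 ⊢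
  have h3 := h1.tsum_fiberwise f
  have h5 : (fun n : ℕ => (∑' y : f ⁻¹' {n}, v y) * q ^ (n + 1)) =
      fun n : ℕ => ∑' y : f ⁻¹' {n}, v y * q ^ (f y + 1) := by
    funext n
    rw [← tsum_mul_right]
    refine tsum_congr fun y => ?_
    have h4 : f y.1 = n := y.2
    rw [h4]
  rw [h5]
  exact h3

end

end Pool.Agent.MUXT
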