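import Pool.Agent.MUX.StXT

/-!
# MUX, block XT, module SYM (helper95): the symbol of the theta series of a form
-/

set_option autoImplicit false

namespace Pool.Agent.MUXT

open _root_.MU3 Pool.Agent.MUX Pool.Agent.MuSym OnePoint Filter Topology
open Pool.Agent.MU3T (Su_MBF Su_MCO)
open scoped ComplexConjugate

namespace SymX

lemma Phi_inf (F : QF) (W : Z2 → ℂ) (y : OnePoint ℚ) : PhiQ F W ∞ y = -IcQ F W y := by
  unfold PhiQ
  have h : IcQ F W ∞ = 0 := rfl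
  rw [h]
  ring

lemma small_zero (x : ℂ) (K : ℝ) (hK : 0 < K) (h : ∀ ε : ℝ, 0 < ε → ‖x‖ ≤ K * ε) : x = 0 := by
  rw [← norm_eq_zero]
  by_contra hne
  have hpos : 0 < ‖x‖ := lt_of_le_of_ne (norm_nonneg x) (Ne.symm hne)
  have := h (‖x‖ / (2 * K)) (by positivity)
  have e : K * (‖x‖ / (2 * K)) = ‖x‖ / 2 := by field_simp
  rw [e] at this
  linarith

lemma comp_frac (a b c d a' b' c' d' : ℤ) (z : ℂ) (h : (c' : ℂ) * z + d' ≠ 0) :
    ((a : ℂ) * (((a' : ℂ) * z + b') / ((c' : ℂ) * z + d')) + b) /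
      ((c : ℂ) * (((a' : ℂ) * z + b') / ((c' : ℂ) * z + d')) + d) =
    (((a * a' + b * c' : ℤ) : ℂ) * z + ((a * b' + b * d' : ℤ) : ℂ)) /
      (((c * a' + d * c' : ℤ) : ℂ) * z + ((c * b' + d * d' : ℤ) : ℂ)) := by
  have hX : ((a' : ℂ) * z + b') / ((c' : ℂ) * z + d') * ((c' : ℂ) * z + d') = (a' : ℂ) * z + b' :=
    div_mul_cancel₀ _ h
  rw [← mul_div_mul_right _ _ h]
  congr 1
  · push_cast
    linear_combination (a : ℂ) * hX
  · push_cast
    linear_combination (c : ℂ) * hX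

/-- the primitive tends to 0 -/
lemma van (hBND : Xs_BND) {F : QF} (hF : F.Pos) {W : Z2 → ℂ} (hW : Bd W) (ε : ℝ) (hε : 0 < ε) :
    ∃ R : ℝ, 0 < R ∧ ∀ z : ℂ, R ≤ z.im → ‖∑' y, tI F W z y‖ < ε := by
  obtain ⟨C, hC, h⟩ := hBND F hF W hW
  have hCε : 0 < C / ε := div_pos hC hε
  refine ⟨1 + C / ε, by linarith, fun z hz => ?_⟩
  refine lt_of_le_of_lt (h z (by linarith)).2 ?_
  have h1 : Real.exp (-(2 * Real.pi * z.im)) ≤ Real.exp (-(1 + C / ε)) := by
    apply Real.exp_le_exp.2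
    have hpi := Real.pi_gt_three
    nlinarith
  have h2 : 1 + C / ε < Real.exp (1 + C / ε) := by
    have := Real.add_one_le_exp (1 + C / ε)
    linarith
  have h3 : C * Real.exp (-(1 + C / ε)) < ε := by
    rw [Real.exp_neg, ← div_eq_mul_inv, div_lt_iff₀ (Real.exp_pos _)]
    have h4 : C < ε * (1 + C / ε) := by
      have : ε * (1 + C / ε) = ε + C := by field_simp
      rw [this]
      linarith
    exact h4.trans (mul_lt_mul_of_pos_left h2 hε)
  exact lt_of_le_of_lt (mul_le_mul_of_nonneg_left h1 hC.le) h3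

/-- the equation for one cusp -/
lemma star_eq (hBND : Xs_BND) (hMBF : Su_MBF) (hEXI : Xs_EXI) (hQPE : Xs_QPE) (hMCO : Su_MCO)
    {F : QF} (hF : F.Pos) (χ : ℤ → ℤ) (hχ : IsChi F.D χ) (W : Z2 → ℂ) (ε' : ℤ → ℂ) (G : ℕ)
    (hW : IsWt G W ε') (a b c d : ℤ) (hdet : a * d - b * c = 1)
    (hc : F.D * (G : ℤ) ^ 2 ∣ c) (x : OnePoint ℚ) :
    PhiQ F W ∞ (mob a b c d x) =
      ((χ d : ℂ) * ε' d) * PhiQ F W ∞ x + PhiQ F W ∞ (mob a b c d ∞) := by
  obtain ⟨a', b', c', d', hdet', hx⟩ := hMCO.1 x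
  have hcomp := hMCO.2 a b c d a' b' c' d' hdet hdet'
  rw [hx] at hcomp
  have hdet2 : (a * a' + b * c') * (c * b' + d * d') - (a * b' + b * d') * (c * a' + d * c') = 1 := by
    linear_combination (a' * d' - b' * c') * hdet + hdet'
  obtain ⟨M1, W1, hM1, _, hW1, h1⟩ := hEXI F hF W G hW.pos hW.per a' b' c' d' hdet'
  obtain ⟨M2, W2, hM2, _, hW2, h2⟩ := hEXI F hF W G hW.pos hW.per _ _ _ _ hdet2
  rw [hx] at h1
  rw [← hcomp] at h2
  set u : ℂ := (χ d : ℂ) * ε' d with hu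
  have key : PhiQ F W ∞ (mob a b c d x) -
      (u * PhiQ F W ∞ x + PhiQ F W ∞ (mob a b c d ∞)) = 0 := by
    apply small_zero _ (‖u‖ + 1) (by positivity)
    intro ε hε
    obtain ⟨R1, hR1, hv1⟩ := van hBND hF hW1 ε hε
    obtain ⟨R2, hR2, hv2⟩ := van hBND hF hW2 ε hε
    have hM1' : (0 : ℝ) < M1 := by exact_mod_cast hM1
    have hM2' : (0 : ℝ) < M2 := by exact_mod_cast hM2
    set s : ℝ := M1 * R1 + M2 * R2 with hs
    have hs1 : 0 < M1 * R1 := mul_pos hM1' hR1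
    have hs2 : 0 < M2 * R2 := mul_pos hM2' hR2
    have hspos : 0 < s := by rw [hs]; linarith
    set z : ℂ := (s : ℂ) * Complex.I with hz
    have hzim : z.im = s := by rw [hz]; simp
    have hzpos : 0 < z.im := by rw [hzim]; exact hspos
    have him : ∀ M : ℕ, (z / (M : ℂ)).im = s / M := by
      intro M
      rw [show ((M : ℕ) : ℂ) = ((M : ℝ) : ℂ) by push_cast; rfl, Complex.div_ofReal_im, hzim]
    have q1 : ‖∑' y, tI F W1 (z / M1) y‖ < ε := by
      apply hv1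
      rw [him, le_div_iff₀ hM1']
      rw [hs]
      nlinarith
    have q2 : ‖∑' y, tI F W2 (z / M2) y‖ < ε := by
      apply hv2
      rw [him, le_div_iff₀ hM2']
      rw [hs]
      nlinarith
    obtain ⟨hne, himz, _⟩ := hMBF a' b' c' d' hdet' z hzpos
    have e1 := h1 z hzpos
    have e2 := h2 z hzpos
    have e3 := hQPE F hF χ hχ W ε' G hW a b c d hdet hc _ himz
    rw [comp_frac a b c d a' b' c' d' z hne, e2, e1, ← hu] at e3
    have e4 : PhiQ F W ∞ (mob a b c d x) -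
        (u * PhiQ F W ∞ x + PhiQ F W ∞ (mob a b c d ∞)) =
        u * (∑' y, tI F W1 (z / M1) y) - ∑' y, tI F W2 (z / M2) y := by
      linear_combination e3
    rw [e4]
    calc ‖u * (∑' y, tI F W1 (z / M1) y) - ∑' y, tI F W2 (z / M2) y‖
        ≤ ‖u * (∑' y, tI F W1 (z / M1) y)‖ + ‖∑' y, tI F W2 (z / M2) y‖ := norm_sub_le _ _
      _ = ‖u‖ * ‖∑' y, tI F W1 (z / M1) y‖ + ‖∑' y, tI F W2 (z / M2) y‖ := by rw [norm_mul]
      _ ≤ ‖u‖ * ε + ε := by
          have := mul_le_mul_of_nonneg_left q1.le (norm_nonneg u)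
          linarith
      _ = (‖u‖ + 1) * ε := by ring
  exact sub_eq_zero.mp key

end SymX

open SymX in
theorem tx_SYM (hBND : Xs_BND) (hMBF : Su_MBF) (hEXI : Xs_EXI) (hQPE : Xs_QPE)
    (hMCO : Su_MCO) : Xs_SYM := by
  intro F hF χ hχ W ε G hW N hN hDN
  refine ⟨?_, ?_⟩
  · intro x y z
    unfold PhiQ
    ring
  · intro a b c d hdet hc x y
    have hc' : F.D * (G : ℤ) ^ 2 ∣ c := dvd_trans hDN hc
    have hx := star_eq hBND hMBF hEXI hQPE hMCO hF χ hχ W ε G hW a b c d hdet hc' x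
    have hy := star_eq hBND hMBF hEXI hQPE hMCO hF χ hχ W ε G hW a b c d hdet hc' y
    have p : ∀ u v : OnePoint ℚ, PhiQ F W u v = PhiQ F W ∞ v - PhiQ F W ∞ u := by
      intro u v
      rw [Phi_inf, Phi_inf]
      unfold PhiQ
      ring
    rw [p (mob a b c d x) (mob a b c d y), p x y, hx, hy]
    ring

end Pool.Agent.MUXT
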