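import Pool.Agent.MUX.StXT

/-!
# MUX, block XT, module TRI: translation between ideals and binary forms
-/

set_option autoImplicit false

namespace Pool.Agent.MUXT

open _root_.MU3 Pool.Agent.MuSym OnePoint Filter Topology
open Pool.Agent.MUXF (nI thetaI thetaIntI IvI IcI PhiI)
open Pool.Agent.MU3T (Su_MBF Su_MCO)
open Pool.Agent.MU3F (ex)
open scoped ComplexConjugate

noncomputable section

namespace TRI

theorem emb_lin {A B : ℤ} (al be : OO A B) (m n : ℤ) :
    emb ((m : OO A B) * al + (n : OO A B) * be) = m * emb al + n * emb be := by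
  simp only [emb, QuadraticAlgebra.re_add, QuadraticAlgebra.im_add, QuadraticAlgebra.re_mul,
    QuadraticAlgebra.im_mul, QuadraticAlgebra.re_intCast, QuadraticAlgebra.im_intCast]
  push_cast
  ring

theorem nm_ne {A B : ℤ} (h : B ^ 2 + 4 * A < 0) (x : OO A B) (hx : x ≠ 0) : nm x ≠ 0 := by
  intro h0
  apply hx
  have h1 : (2 * x.re + B * x.im) ^ 2 + (-(B ^ 2 + 4 * A)) * x.im ^ 2 = 0 := by
    have : (2 * x.re + B * x.im) ^ 2 + (-(B ^ 2 + 4 * A)) * x.im ^ 2 = 4 * nm x := by
      unfold nm; ring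
    rw [this, h0]; ring
  have h2 : 0 ≤ (2 * x.re + B * x.im) ^ 2 := sq_nonneg _
  have h3 : 0 ≤ x.im ^ 2 := sq_nonneg _
  have h4 : x.im = 0 := by
    by_contra h5
    have h6 : 0 < x.im ^ 2 := by positivity
    nlinarith
  rw [h4] at h1
  have h5 : x.re = 0 := by
    have : x.re ^ 2 = 0 := by nlinarith
    exact pow_eq_zero_iff (two_ne_zero) |>.1 this
  exact QuadraticAlgebra.ext h5 h4

end TRI

open TRI in
theorem tx_TRI : Xs_TRI := by
  intro A B hneg b al be F hb hF hbas e
  set g : Z2 → OO A B := fun x => ((x.1 : ℤ) : OO A B) * al + ((x.2 : ℤ) : OO A B) * be with hg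
  have hinj : Function.Injective fun x : Z2 => (⟨g x, hbas.memb x⟩ : b) := by
    intro x y hxy
    exact hbas.inj x y (congrArg Subtype.val hxy)
  have hsurj : Function.Surjective fun x : Z2 => (⟨g x, hbas.memb x⟩ : b) := by
    intro y
    obtain ⟨x, hx⟩ := hbas.surj y y.2
    exact ⟨x, Subtype.ext hx⟩
  set E : Z2 ≃ b := Equiv.ofBijective _ ⟨hinj, hsurj⟩ with hE
  have hEg : ∀ x : Z2, ((E x : b) : OO A B) = g x := fun x => rfl
  have hc : ∀ x : Z2, (starRingEnd ℂ) (emb (g x)) = (starRingEnd ℂ) (emb al) * F.lc x := by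
    intro x
    have h1 : emb (g x) = emb al * ((x.1 : ℂ) + x.2 * F.tau) := by
      rw [hg]
      show emb (((x.1 : ℤ) : OO A B) * al + ((x.2 : ℤ) : OO A B) * be) = _
      rw [emb_lin, hbas.tau]
      ring
    rw [h1, map_mul]
    rfl
  have hn0 : (nI b : ℤ) ≠ 0 := by
    intro h0
    have h1 := hbas.nrm (1, 0)
    rw [h0, zero_mul] at h1
    refine nm_ne hneg al hbas.al_ne ?_
    have h2 : (((1 : ℤ) : OO A B)) * al + (((0 : ℤ)) : OO A B) * be = al := by
      push_cast
      ring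
    simpa [h2] using h1
  have hn : (nI b : ℂ) ≠ 0 := by exact_mod_cast hn0
  have hq : ∀ x : Z2, ((nm (g x) : ℤ) : ℂ) / (nI b : ℂ) = (F.ev x : ℂ) := by
    intro x
    have h1 : nm (g x) = nI b * F.ev x := hbas.nrm x
    rw [h1, div_eq_iff hn]
    push_cast
    ring
  have hth : ∀ z, thetaI b e z = (starRingEnd ℂ) (emb al) *
      Th F (fun x => e (((x.1 : ℤ) : OO A B) * al + ((x.2 : ℤ) : OO A B) * be)) z := by
    intro z
    unfold Pool.Agent.MUXF.thetaI Th
    rw [← Equiv.tsum_eq E, mul_left_comm, ← tsum_mul_left (a := (starRingEnd ℂ) (emb al))]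
    refine congrArg (fun c => (1 / 2 : ℂ) * c) (tsum_congr fun x => ?_)
    rw [hEg, hc, hq]
    unfold tm
    rw [hg]
    ring
  refine ⟨hth, ?_, ?_⟩
  · intro z
    unfold Pool.Agent.MUXF.thetaIntI ThI
    rw [← Equiv.tsum_eq E, mul_left_comm, ← tsum_mul_left (a := (starRingEnd ℂ) (emb al))]
    refine congrArg (fun c => (1 / 2 : ℂ) * c) (tsum_congr fun x => ?_)
    rw [hEg, hc, hq]
    unfold tI
    rw [hg]
    ring
  · have hI : ∀ x : OnePoint ℚ, IcI b e x = (starRingEnd ℂ) (emb al) *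
        IcQ F (fun x => e (((x.1 : ℤ) : OO A B) * al + ((x.2 : ℤ) : OO A B) * be)) x := by
      intro x
      induction x using OnePoint.rec with
      | infty =>
        show (0 : ℂ) = _ * (0 : ℂ)
        rw [mul_zero]
      | coe r =>
        show IvI b e r = _ * IvQ F _ r
        unfold Pool.Agent.MUXF.IvI IvQ
        simp_rw [hth]
        rw [MeasureTheory.integral_const_mul]
        ring
    intro x y
    unfold Pool.Agent.MUXF.PhiI PhiQ
    rw [hI, hI]
    ring

end

end Pool.Agent.MUXT
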