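import Pool.Agent.MUX.StXT

/-!
# MUX, block XT: bounds (WBD)
-/

set_option autoImplicit false

namespace Pool.Agent.MUXT

open _root_.MU3 Pool.Agent.MuSym OnePoint
open Pool.Agent.MU3F (ex)

noncomputable section

theorem tx_WBD : Xs_WBD := by
  refine ⟨fun m W hm hW => ?_, ?_⟩
  · have hm' : (0 : ℤ) < (m : ℤ) := by exact_mod_cast hm
    refine ⟨∑ i ∈ Finset.range m, ∑ j ∈ Finset.range m, ‖W ((i : ℤ), (j : ℤ))‖, fun x => ?_⟩
    have a1 := Int.emod_nonneg x.1 hm'.ne'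
    have a2 := Int.emod_lt_of_pos x.1 hm'
    have b1 := Int.emod_nonneg x.2 hm'.ne'
    have b2 := Int.emod_lt_of_pos x.2 hm'
    have h1 : W x = W ((((x.1 % m).toNat : ℕ) : ℤ), (((x.2 % m).toNat : ℕ) : ℤ)) := by
      apply hW
      · rw [Int.toNat_of_nonneg a1]
        exact Int.dvd_self_sub_emod
      · rw [Int.toNat_of_nonneg b1]
        exact Int.dvd_self_sub_emod
    rw [h1]
    calc ‖W ((((x.1 % m).toNat : ℕ) : ℤ), (((x.2 % m).toNat : ℕ) : ℤ))‖
        ≤ ∑ j ∈ Finset.range m, ‖W ((((x.1 % m).toNat : ℕ) : ℤ), (j : ℤ))‖ :=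
          Finset.single_le_sum (f := fun j : ℕ => ‖W ((((x.1 % m).toNat : ℕ) : ℤ), (j : ℤ))‖)
            (fun _ _ => norm_nonneg _) (Finset.mem_range.2 (by omega))
      _ ≤ ∑ i ∈ Finset.range m, ∑ j ∈ Finset.range m, ‖W ((i : ℤ), (j : ℤ))‖ :=
          Finset.single_le_sum
            (f := fun i : ℕ => ∑ j ∈ Finset.range m, ‖W ((i : ℤ), (j : ℤ))‖)
            (fun _ _ => Finset.sum_nonneg fun _ _ => norm_nonneg _)
            (Finset.mem_range.2 (by omega))
  · rintro F W G q t ⟨C, hC⟩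
    have hex : ∀ r : ℚ, ‖ex r‖ = 1 := by
      intro r
      unfold ex
      rw [show 2 * (Real.pi : ℂ) * Complex.I * (r : ℂ) =
        ((2 * Real.pi * (r : ℝ) : ℝ) : ℂ) * Complex.I by push_cast; ring,
        Complex.norm_exp_ofReal_mul_I]
    refine ⟨∑ i ∈ Finset.range (q * G), ∑ j ∈ Finset.range (q * G), C, fun y => ?_⟩
    unfold WW sm
    refine (norm_sum_le _ _).trans (Finset.sum_le_sum fun i _ => ?_)
    refine (norm_sum_le _ _).trans (Finset.sum_le_sum fun j _ => ?_)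
    rw [norm_mul, norm_mul, hex, hex, mul_one, mul_one]
    exact hC _

end

end Pool.Agent.MUXT
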