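import Pool.Agent.MUX.StXT

/-!
# MUX, block XT, module WID (helper4): the Gauss sum `W_(t/d)(y)` for binary forms
-/

set_option autoImplicit false

namespace Pool.Agent.MUXT

open _root_.MU3 Pool.Agent.MuSym OnePoint Filter Topology
open Pool.Agent.MU3F (ex)
open scoped ComplexConjugate

noncomputable section

namespace WidX

lemma ex_add (r s : ℚ) : ex (r + s) = ex r * ex s := by
  unfold ex
  rw [← Complex.exp_add]
  congr 1
  push_cast
  ring

lemma ex_int (n : ℤ) : ex (n : ℚ) = 1 := by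
  unfold ex
  rw [Complex.exp_eq_one_iff]
  exact ⟨n, by push_cast; ring⟩

lemma ex_cong {r s : ℚ} (n : ℤ) (h : r = s + n) : ex r = ex s := by
  rw [h, ex_add, ex_int, mul_one]

lemma sm_mul (m : ℕ) (c : ℂ) (f : Z2 → ℂ) : sm m (fun x => c * f x) = c * sm m f := by
  unfold sm
  simp only [Finset.mul_sum]

/-- the form modulo a natural number -/
lemma ev_per (F : QF) (m : ℤ) (x w : Z2) :
    ∃ k : ℤ, F.ev (x.1 + m * w.1, x.2 + m * w.2) = F.ev x + m * k := by
  refine ⟨2 * F.a * x.1 * w.1 + F.b * (x.1 * w.2 + x.2 * w.1) + 2 * F.c * x.2 * w.2 +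
    m * F.ev w, ?_⟩
  simp only [QF.ev]
  ring

lemma wx_per (m : ℤ) (x w y : Z2) :
    wx (x.1 + m * w.1, x.2 + m * w.2) y = wx x y + m * wx w y := by
  simp only [wx]
  ring

lemma wx_lin (d G : ℤ) (x x' y : Z2) :
    wx (d * x.1 + G * x'.1, d * x.2 + G * x'.2) y = d * wx x y + G * wx x' y := by
  simp only [wx]
  ring

lemma ev_lin (F : QF) (d G : ℤ) (x x' : Z2) : ∃ k : ℤ,
    F.ev (d * x.1 + G * x'.1, d * x.2 + G * x'.2) = G ^ 2 * F.ev x' + d * k := by
  refine ⟨d * F.ev x + G * (2 * F.a * x.1 * x'.1 + F.b * (x.1 * x'.2 + x.2 * x'.1) +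
    2 * F.c * x.2 * x'.2), ?_⟩
  simp only [QF.ev]
  ring

/-- completing the square -/
lemma ev_sq (F : QF) (c : ℤ) (x y : Z2) :
    F.ev (x.1 + c * (2 * F.c * y.2 + F.b * y.1), x.2 + c * (-(F.b * y.2) - 2 * F.a * y.1)) =
      F.ev x - c * F.D * wx x y + c ^ 2 * F.D * F.ev y := by
  simp only [QF.ev, QF.D, wx]
  ring

/-- two classes modulo `m` -/
lemma split {m : ℤ} {x y : Z2} (h1 : m ∣ x.1 - y.1) (h2 : m ∣ x.2 - y.2) :
    ∃ w : Z2, x = (y.1 + m * w.1, y.2 + m * w.2) := by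
  obtain ⟨w1, hw1⟩ := h1
  obtain ⟨w2, hw2⟩ := h2
  refine ⟨(w1, w2), Prod.ext ?_ ?_⟩
  · show x.1 = y.1 + m * w1
    omega
  · show x.2 = y.2 + m * w2
    omega

end WidX

open WidX in
theorem tx_WID (hCLS : Xs_CLS) : Xs_WID := by
  intro F _ W ε G d hW hd s t c' hdet y
  obtain ⟨-, hshift, hcrt⟩ := hCLS
  have hG := hW.pos
  have hdQ : (d : ℚ) ≠ 0 := by exact_mod_cast hd.ne'
  have hGQ : (G : ℚ) ≠ 0 := by exact_mod_cast hG.ne'
  have hcopZ : IsCoprime (d : ℤ) (G : ℤ) :=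
    ⟨s, -(t * (F.D * G * c')), by linear_combination hdet⟩
  have hcop : Nat.Coprime d G := Nat.isCoprime_iff_coprime.1 hcopZ
  -- the function
  obtain ⟨f, hf⟩ : ∃ f : Z2 → ℂ, f = fun x => W x * ex (t * F.ev x / d) *
      ex (wx x y / (d * G)) := ⟨_, rfl⟩
  have hfper : Per (d * G) f := by
    intro x x' h1 h2
    obtain ⟨w, hw⟩ := split h1 h2
    have e1 : W x = W x' := by
      refine hW.per _ _ ?_ ?_
      · exact (Dvd.intro_left (d : ℤ) (by push_cast; ring)).trans h1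
      · exact (Dvd.intro_left (d : ℤ) (by push_cast; ring)).trans h2
    obtain ⟨k, hk⟩ := ev_per F ((d * G : ℕ) : ℤ) x' w
    have e2 : ex (t * F.ev x / d) = ex (t * F.ev x' / d) := by
      refine ex_cong (t * G * k) ?_
      rw [hw, hk]
      push_cast
      field_simp
    have e3 : ex (wx x y / (d * G)) = ex (wx x' y / (d * G)) := by
      refine ex_cong (wx w y) ?_
      rw [hw, wx_per]
      push_cast
      field_simp
    rw [hf]
    simp only
    rw [e1, e2, e3]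
  have hflin : ∀ x x' : Z2, f (d * x.1 + G * x'.1, d * x.2 + G * x'.2) =
      (ε d * (W x * ex (wx x y / G))) *
        (ex (((t * G ^ 2 : ℤ) : ℚ) * F.ev x' / d) * ex (wx x' y / d)) := by
    intro x x'
    have e1 : W (d * x.1 + G * x'.1, d * x.2 + G * x'.2) = ε d * W x := by
      rw [← hW.hom d hcopZ]
      exact hW.per _ _ ⟨x'.1, by ring⟩ ⟨x'.2, by ring⟩
    obtain ⟨k, hk⟩ := ev_lin F d G x x'
    have e2 : ex (t * F.ev (d * x.1 + G * x'.1, d * x.2 + G * x'.2) / d) =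
        ex (((t * G ^ 2 : ℤ) : ℚ) * F.ev x' / d) := by
      refine ex_cong (t * k) ?_
      rw [hk]
      push_cast
      field_simp
    have e3 : ex (wx (d * x.1 + G * x'.1, d * x.2 + G * x'.2) y / (d * G)) =
        ex (wx x y / G) * ex (wx x' y / d) := by
      rw [← ex_add, wx_lin]
      congr 1
      push_cast
      field_simp
    rw [hf]
    simp only
    rw [e1, e2, e3]
    ring
  have hWW : WW F W G d t y = sm (d * G) f := by
    unfold WW
    rw [hf]
  have hWW1 : WW F W G 1 0 y = sm G (fun x => W x * ex (wx x y / G)) := by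
    unfold WW
    rw [one_mul]
    congr 1
    funext x
    have h1 : ex (((0 : ℤ) : ℚ) * F.ev x / ((1 : ℕ) : ℚ)) = 1 := by
      have := ex_int 0
      simpa using this
    rw [h1, mul_one, Nat.cast_one, one_mul]
  rw [hWW, hcrt d G hd hG hcop f hfper]
  simp only [hflin]
  -- completing the square
  obtain ⟨K, hK⟩ : ∃ K : Z2 → ℂ, K = fun x => ex (((t * G ^ 2 : ℤ) : ℚ) * F.ev x / d) :=
    ⟨_, rfl⟩
  have hKper : Per d K := by
    intro x x' h1 h2
    obtain ⟨w, hw⟩ := split h1 h2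
    obtain ⟨k, hk⟩ := ev_per F (d : ℤ) x' w
    rw [hK]
    simp only
    refine ex_cong (t * G ^ 2 * k) ?_
    rw [hw, hk]
    push_cast
    field_simp
  have hsq : ∀ x : Z2, ex (((t * G ^ 2 : ℤ) : ℚ) * F.ev x / d) * ex (wx x y / d) =
      ex (c' * F.ev y / d) * K (x.1 + c' * (2 * F.c * y.2 + F.b * y.1),
        x.2 + c' * (-(F.b * y.2) - 2 * F.a * y.1)) := by
    intro x
    rw [hK]
    simp only
    rw [← ex_add, ← ex_add, ev_sq]
    refine ex_cong (-(s * (c' * F.ev y - wx x y))) ?_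
    have hq : (s : ℚ) * d - t * (F.D * G ^ 2 * c') = 1 := by exact_mod_cast hdet
    push_cast
    field_simp
    linear_combination (-((wx x y : ℤ) : ℚ) + c' * F.ev y) * hq
  have hinner : sm d (fun x => ex (((t * G ^ 2 : ℤ) : ℚ) * F.ev x / d) * ex (wx x y / d)) =
      ex (c' * F.ev y / d) * gg F d (t * G ^ 2) := by
    simp only [hsq]
    rw [sm_mul, hshift d hd K hKper (c' * (2 * F.c * y.2 + F.b * y.1),
      c' * (-(F.b * y.2) - 2 * F.a * y.1))]
    congr 1
    unfold gg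
    rw [hK]
  have h1 : ∀ x : Z2, sm d (fun x' =>
      (ε d * (W x * ex (wx x y / G))) *
        (ex (((t * G ^ 2 : ℤ) : ℚ) * F.ev x' / d) * ex (wx x' y / d))) =
      (ε d * (ex (c' * F.ev y / d) * gg F d (t * G ^ 2))) * (W x * ex (wx x y / G)) := by
    intro x
    rw [sm_mul, hinner]
    ring
  simp only [h1]
  rw [sm_mul, hWW1]
  ring

end

end Pool.Agent.MUXT
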