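import Pool.Agent.MU3.T_MBF
import Pool.Agent.MU3.T_MCO
import Pool.Agent.MUX.XT_QFF
import Pool.Agent.MUX.XT_DIF
import Pool.Agent.MUX.XT_BND
import Pool.Agent.MUX.XT_REG
import Pool.Agent.MUX.XT_POI
import Pool.Agent.MUX.XT_CLS
import Pool.Agent.MUX.XT_WBD
import Pool.Agent.MUX.XT_RED
import Pool.Agent.MUX.XT_WID
import Pool.Agent.MUX.XT_GAU
import Pool.Agent.MUX.XT_MOP
import Pool.Agent.MUX.XT_MOD
import Pool.Agent.MUX.XT_EXP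
import Pool.Agent.MUX.XT_ITG
import Pool.Agent.MUX.XT_VLN
import Pool.Agent.MUX.XT_CUS
import Pool.Agent.MUX.XT_EXI
import Pool.Agent.MUX.XT_QPE
import Pool.Agent.MUX.XT_SYM
import Pool.Agent.MUX.XT_CHQ
import Pool.Agent.MUX.XT_BAS
import Pool.Agent.MUX.XT_TRI
import Pool.Agent.MUX.XT_FTI

/-!
# MUX, block XT: the result, without hypotheses

Modules by helper85, 91, 43, 73, 99, 30, 18, 96, 4, 58, 46, 19, 83, 54, 22, 7, 48, 79, 95, 1, 11, 84.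
-/

set_option autoImplicit false

namespace Pool.Agent.MUXT

open _root_.MU3 Pool.Agent.MuSym OnePoint
open Pool.Agent.MU3T (Su_MBF Su_MCO tu_MBF tu_MCO)
open Pool.Agent.MUXF (CQ IsEI nI thetaI thetaIntI IvI IcI PhiI nuQ)

theorem x_QFF : Xs_QFF := tx_QFF
theorem x_DIF : Xs_DIF := tx_DIF x_QFF
theorem x_BND : Xs_BND := tx_BND x_QFF x_DIF
theorem x_REG : Xs_REG := tx_REG x_QFF x_DIF
theorem x_POI : Xs_POI := tx_POI x_QFF
theorem x_CLS : Xs_CLS := tx_CLS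
theorem x_WBD : Xs_WBD := tx_WBD
theorem x_RED : Xs_RED := tx_RED x_DIF x_POI x_CLS x_WBD
theorem x_WID : Xs_WID := tx_WID x_CLS
theorem x_GAU : Xs_GAU := tx_GAU
theorem x_MOP : Xs_MOP := tx_MOP x_RED x_WID x_GAU tu_MBF
theorem x_MOD : Xs_MOD := tx_MOD x_MOP tu_MBF
theorem x_EXP : Xs_EXP := tx_EXP x_WBD x_RED tu_MBF
theorem x_ITG : Xs_ITG := tx_ITG x_WBD x_DIF x_BND x_EXP
theorem x_VLN : Xs_VLN := tx_VLN x_WBD x_DIF x_BND x_ITG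
theorem x_CUS : Xs_CUS := tx_CUS x_WBD x_BND x_VLN
theorem x_EXI : Xs_EXI := tx_EXI x_WBD x_DIF x_BND tu_MBF x_EXP x_CUS
theorem x_QPE : Xs_QPE := tx_QPE x_WBD x_DIF x_BND tu_MBF x_MOD x_CUS
theorem x_SYM : Xs_SYM := tx_SYM x_BND tu_MBF x_EXI x_QPE tu_MCO
theorem x_CHQ : Xs_CHQ := tx_CHQ
theorem x_BAS : Xs_BAS := tx_BAS
theorem x_TRI : Xs_TRI := tx_TRI

/-- **Main result of the block.** -/
theorem main_FTI : Xs_FTI :=
  tx_FTI x_WBD x_REG x_MOD x_ITG x_EXI x_QPE x_SYM x_CHQ x_BAS x_TRI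

/-- the same for the characters `IsEI g e` of helper87, with `nuQ` -/
theorem main_EI {A B : ℤ} (h : CQ A B) (b : Ideal (OO A B)) (hb : b ≠ ⊥) (g : Ideal (OO A B))
    (e : OO A B → ℂ) (he : IsEI g e) (G : ℕ) (hG : 0 < G) (hGg : (G : OO A B) ∈ g) :
    (∀ r : ℚ, MeasureTheory.IntegrableOn
      (fun t : ℝ => thetaI b e ((r : ℂ) + t * Complex.I)) (Set.Ioi 0)) ∧
    ∀ N : ℕ, N ≠ 0 → absD A B * G ^ 2 ∣ (N : ℤ) →
    IsSym N (nuQ e) (PhiI b e) ∧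
    (∀ a b' c d : ℤ, a * d - b' * c = 1 → (N : ℤ) ∣ c → ∀ τ : ℂ, 0 < τ.im →
      thetaI b e ((a * τ + b') / (c * τ + d)) = (c * τ + d) ^ 2 * nuQ e d * thetaI b e τ ∧
      thetaIntI b e ((a * τ + b') / (c * τ + d)) =
        nuQ e d * thetaIntI b e τ + PhiI b e ∞ (mob a b' c d ∞)) ∧
    ∀ a b' c d : ℤ, a * d - b' * c = 1 → ∃ w : ℕ → ℂ, ∀ τ : ℂ, 0 < τ.im →
      HasSum (fun n : ℕ => w n * Complex.exp (2 * Real.pi * Complex.I * τ / N) ^ (n + 1))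
        (thetaIntI b e ((a * τ + b') / (c * τ + d)) - PhiI b e ∞ (mob a b' c d ∞)) :=
  main_FTI A B h.hB h.neg b hb e G hG he.mul (fun x y hxy => he.per x y (by
    obtain ⟨k, hk⟩ := hxy
    rw [hk]
    exact Ideal.mul_mem_right k g hGg)) he.neg

end Pool.Agent.MUXT
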