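import Pool.Agent.MUX.StU

/-!
# MUX, block U: the fixed field of the automorphisms of the complex numbers over `F` is `F`
-/

set_option autoImplicit false

open IntermediateField

namespace Pool.Agent.MUXU

theorem tu_AUF (h1 : Su_AUE) (h2 : Su_AUT) : Su_AUF := by
  intro F hF x hx
  have hxQ : IsAlgebraic ℚ x := by
    apply h2 F hF x
    refine (Set.finite_singleton x).subset ?_
    rintro y ⟨σ, hσ, rfl⟩
    exact hx σ hσ
  have hxF : IsIntegral F x := (hxQ.tower_top F).isIntegral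
  have : FiniteDimensional F F⟮x⟯ := adjoin.finiteDimensional hxF
  -- the field `F(x)` is algebraic over the rational numbers
  have hE : Algebra.IsAlgebraic ℚ (F⟮x⟯.restrictScalars ℚ) := by
    have : Algebra.IsAlgebraic ℚ F := hF
    have : Algebra.IsAlgebraic F F⟮x⟯ := Algebra.IsAlgebraic.of_finite F F⟮x⟯
    exact (Algebra.IsAlgebraic.trans ℚ F F⟮x⟯ : Algebra.IsAlgebraic ℚ F⟮x⟯)
  -- every embedding over `F` is the inclusion
  have hsub : ∀ φ : F⟮x⟯ →ₐ[F] ℂ, φ = F⟮x⟯.val := by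
    intro φ
    obtain ⟨σ, hσ⟩ := h1 (F⟮x⟯.restrictScalars ℚ) hE (φ : F⟮x⟯ →+* ℂ)
    have hfix : ∀ a ∈ F, σ a = a := by
      intro a ha
      have h3 := hσ (algebraMap F F⟮x⟯ ⟨a, ha⟩)
      have h4 : (φ : F⟮x⟯ →+* ℂ) (algebraMap F F⟮x⟯ ⟨a, ha⟩) = algebraMap F ℂ ⟨a, ha⟩ :=
        φ.commutes _
      exact h3.trans h4
    have hσx := hx σ hfix
    have h5 := hσ (AdjoinSimple.gen F x)
    have h6 : σ x = φ (AdjoinSimple.gen F x) := h5
    apply IntermediateField.adjoin_algHom_ext F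
    intro y hy
    have hy' : y = x := hy
    subst hy'
    show φ (AdjoinSimple.gen F y) = _
    rw [← h6, hσx]
    rfl
  have hcard : Module.finrank F F⟮x⟯ = 1 := by
    rw [← AlgHom.card F F⟮x⟯ ℂ, Fintype.card_eq_one_iff]
    exact ⟨F⟮x⟯.val, hsub⟩
  have h3 := finrank_adjoin_simple_eq_one_iff.1 hcard
  rw [IntermediateField.mem_bot] at h3
  obtain ⟨a, ha⟩ := h3
  rw [← ha]
  exact a.2

end Pool.Agent.MUXU
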