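import Pool.Agent.MUX.StU
import Mathlib.FieldTheory.IsAlgClosed.Classification
import Mathlib.RingTheory.Algebraic.Cardinality

/-!
# MUX, block U, module AUT: a number with a finite orbit under the automorphisms is algebraic
-/

set_option autoImplicit false

open Filter Topology Polynomial UpperHalfPlane
open scoped Real

namespace Pool.Agent.MUXU

open Pool.Agent.MU3B

noncomputable section

namespace Aut

/-- two transcendence bases indexed by the same set are exchanged by an automorphism -/
lemma exists_equiv {R K ι : Type*} [Field R] [Field K] [Algebra R K] [IsAlgClosed K]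
    (v w : ι → K) (hv : IsTranscendenceBasis R v) (hw : IsTranscendenceBasis R w) :
    ∃ σ : K ≃+* K, (∀ r : R, σ (algebraMap R K r) = algebraMap R K r) ∧ ∀ i, σ (v i) = w i := by
  let _ := IsAlgClosed.isAlgClosure_of_transcendence_basis v hv
  let _ := IsAlgClosed.isAlgClosure_of_transcendence_basis w hw
  let e : Algebra.adjoin R (Set.range v) ≃ₐ[R] Algebra.adjoin R (Set.range w) :=
    hv.1.aevalEquiv.symm.trans hw.1.aevalEquiv
  refine ⟨IsAlgClosure.equivOfEquiv K K e.toRingEquiv, fun r => ?_, fun i => ?_⟩
  · have h1 : algebraMap R K r = algebraMap (Algebra.adjoin R (Set.range v)) K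
        (algebraMap R (Algebra.adjoin R (Set.range v)) r) := rfl
    rw [h1, IsAlgClosure.equivOfEquiv_algebraMap]
    have h2 : e.toRingEquiv (algebraMap R (Algebra.adjoin R (Set.range v)) r) =
        algebraMap R (Algebra.adjoin R (Set.range w)) r := e.commutes r
    rw [h2]
    rfl
  · have h1 : v i = algebraMap (Algebra.adjoin R (Set.range v)) K
        (hv.1.aevalEquiv (MvPolynomial.X i)) := by
      rw [AlgebraicIndependent.algebraMap_aevalEquiv]
      simp
    have h2 : w i = algebraMap (Algebra.adjoin R (Set.range w)) K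
        (hw.1.aevalEquiv (MvPolynomial.X i)) := by
      rw [AlgebraicIndependent.algebraMap_aevalEquiv]
      simp
    rw [h1, IsAlgClosure.equivOfEquiv_algebraMap, h2]
    congr 1
    change e (hv.1.aevalEquiv (MvPolynomial.X i)) = _
    simp [e]

end Aut

open Cardinal in
/-- AUT. -/
theorem tu_AUT : Su_AUT := by
  intro F hF x hfin
  by_contra hx
  have hxF : Transcendental F x := by
    intro h
    exact hx (h.restrictScalars ℚ)
  have hind : AlgebraicIndepOn F id ({x} : Set ℂ) := by
    have h1 : AlgebraicIndependent F (fun i : ({x} : Set ℂ) => (id (i : ℂ) : ℂ)) := by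
      rw [algebraicIndependent_singleton_iff (⟨x, rfl⟩ : ({x} : Set ℂ))]
      exact hxF
    exact h1
  obtain ⟨t, hxt, ht⟩ := exists_isTranscendenceBasis_superset hind
  have hx' : x ∈ t := hxt rfl
  have hFc : #F ≤ ℵ₀ := by
    have h1 := Algebra.IsAlgebraic.cardinalMk_le_max ℚ F
    simpa using h1
  have hinf : t.Infinite := by
    have h1 := IsAlgClosed.cardinal_eq_cardinal_transcendence_basis_of_aleph0_lt
      (Subtype.val : t → ℂ) ht hFc (by rw [Cardinal.mk_complex]; exact Cardinal.aleph0_lt_continuum)
    rw [Cardinal.lift_id, Cardinal.lift_id, Cardinal.mk_complex] at h1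
    rw [← Set.infinite_coe_iff, Cardinal.infinite_iff, ← h1]
    exact Cardinal.aleph0_le_continuum
  refine hinf (hfin.subset ?_)
  intro y hy
  classical
  obtain ⟨σ, h1, h2⟩ := Aut.exists_equiv (Subtype.val : t → ℂ)
    ((Subtype.val : t → ℂ) ∘ (Equiv.swap (⟨x, hx'⟩ : t) ⟨y, hy⟩)) ht (ht.comp_equiv _)
  refine ⟨σ, fun a ha => h1 ⟨a, ha⟩, ?_⟩
  have h3 := h2 ⟨x, hx'⟩
  simp only [Function.comp_apply, Equiv.swap_apply_left] at h3
  exact h3.symm

end

end Pool.Agent.MUXU
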