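import Pool.Agent.MUX.StU

/-!
# MUX, block U: module BAC (helper30)
-/

set_option autoImplicit false

namespace Pool.Agent.MUXU

open Pool.Agent.MU3B

noncomputable section

namespace BAC

theorem indep2 (L : PeriodPair) {s t : ℝ} (h : (s : ℂ) * L.ω₁ + (t : ℂ) * L.ω₂ = 0) :
    s = 0 ∧ t = 0 := by
  have := (LinearIndependent.pair_iff.1 L.indep) s t (by simpa using h)
  exact this

theorem indepZ (L : PeriodPair) {s t : ℤ} (h : (s : ℂ) * L.ω₁ + (t : ℂ) * L.ω₂ = 0) :
    s = 0 ∧ t = 0 := by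
  have h1 := indep2 L (s := (s : ℝ)) (t := (t : ℝ)) (by push_cast; exact h)
  exact ⟨by exact_mod_cast h1.1, by exact_mod_cast h1.2⟩

/-- the lattice `u L` -/
def scale (L : PeriodPair) (u : ℂ) (hu : u ≠ 0) : PeriodPair where
  ω₁ := u * L.ω₁
  ω₂ := u * L.ω₂
  indep := by
    rw [LinearIndependent.pair_iff]
    intro s t hst
    apply indep2 L
    have h : u * ((s : ℂ) * L.ω₁ + (t : ℂ) * L.ω₂) = 0 := by
      have : s • (u * L.ω₁) + t • (u * L.ω₂) = 0 := hst
      rw [Complex.real_smul, Complex.real_smul] at this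
      rw [← this]
      ring
    exact (mul_eq_zero.1 h).resolve_left hu

theorem mem_scale (L : PeriodPair) {u : ℂ} (hu : u ≠ 0) (z : ℂ) :
    z ∈ (scale L u hu).lattice ↔ u⁻¹ * z ∈ L.lattice := by
  rw [PeriodPair.mem_lattice, PeriodPair.mem_lattice]
  constructor
  · rintro ⟨m, n, h⟩
    refine ⟨m, n, ?_⟩
    rw [← h]
    simp only [scale]
    field_simp
  · rintro ⟨m, n, h⟩
    refine ⟨m, n, ?_⟩
    have h2 : z = u * (u⁻¹ * z) := by field_simp
    rw [h2, ← h]
    simp only [scale]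
    ring

/-- a multiple of `M` is contained in `ρ L` -/
theorem key {L M : PeriodPair} {ρ : ℂ} (hρ : ρ ≠ 0) (h : Isg L M ρ) :
    ∃ n : ℕ, n ≠ 0 ∧ ∀ w ∈ M.lattice, ∃ w' ∈ L.lattice, (n : ℂ) * w = ρ * w' := by
  obtain ⟨a, b, h1⟩ := PeriodPair.mem_lattice.1 (h _ L.ω₁_mem_lattice)
  obtain ⟨c, d, h2⟩ := PeriodPair.mem_lattice.1 (h _ L.ω₂_mem_lattice)
  set D : ℤ := a * d - b * c with hD
  have e1 : (D : ℂ) * M.ω₁ = ρ * ((d : ℂ) * L.ω₁ + ((-b : ℤ) : ℂ) * L.ω₂) := by
    rw [hD]; push_cast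
    linear_combination (d : ℂ) * h1 - (b : ℂ) * h2
  have e2 : (D : ℂ) * M.ω₂ = ρ * (((-c : ℤ) : ℂ) * L.ω₁ + (a : ℂ) * L.ω₂) := by
    rw [hD]; push_cast
    linear_combination (a : ℂ) * h2 - (c : ℂ) * h1
  have hD0 : D ≠ 0 := by
    intro h0
    rw [h0] at e1 e2
    simp only [Int.cast_zero, zero_mul] at e1 e2
    have e3 := indepZ L ((mul_eq_zero.1 e1.symm).resolve_left hρ)
    have e4 := indepZ L ((mul_eq_zero.1 e2.symm).resolve_left hρ)
    have hb : b = 0 := by have := e3.2; omega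
    rw [e4.2, hb] at h1
    simp only [Int.cast_zero, zero_mul, add_zero] at h1
    have h3 := (mul_eq_zero.1 h1.symm).resolve_left hρ
    have h4 := indepZ L (s := 1) (t := 0) (by simp [h3])
    exact one_ne_zero h4.1
  refine ⟨D.natAbs, Int.natAbs_ne_zero.2 hD0, ?_⟩
  have main : ∀ w ∈ M.lattice, ∃ w' ∈ L.lattice, (D : ℂ) * w = ρ * w' := by
    intro w hw
    obtain ⟨m, n, rfl⟩ := PeriodPair.mem_lattice.1 hw
    refine ⟨((m * d - n * c : ℤ) : ℂ) * L.ω₁ + ((n * a - m * b : ℤ) : ℂ) * L.ω₂,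
      PeriodPair.mem_lattice.2 ⟨_, _, rfl⟩, ?_⟩
    have e5 : (D : ℂ) * ((m : ℂ) * M.ω₁ + (n : ℂ) * M.ω₂) =
        (m : ℂ) * ((D : ℂ) * M.ω₁) + (n : ℂ) * ((D : ℂ) * M.ω₂) := by ring
    rw [e5, e1, e2]
    push_cast
    ring
  intro w hw
  obtain ⟨w', hw', hw2⟩ := main w hw
  rcases Int.natAbs_eq D with h5 | h5
  · refine ⟨w', hw', ?_⟩
    rw [← hw2]
    have : ((D.natAbs : ℕ) : ℂ) = (D : ℂ) := by
      have h6 : ((D.natAbs : ℤ) : ℂ) = (D : ℂ) := by rw [← h5]
      rw [Int.cast_natCast] at h6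
      exact h6
    rw [this]
  · refine ⟨-w', neg_mem hw', ?_⟩
    have : ((D.natAbs : ℕ) : ℂ) = -(D : ℂ) := by
      have h6 : ((-(D.natAbs : ℤ) : ℤ) : ℂ) = (D : ℂ) := by rw [← h5]
      push_cast at h6
      rw [← h6]
      simp
    rw [this]
    linear_combination -hw2

theorem zmem {L : PeriodPair} {w : ℂ} (hw : w ∈ L.lattice) (n : ℤ) : (n : ℂ) * w ∈ L.lattice := by
  have := L.lattice.smul_mem n hw
  simpa [zsmul_eq_mul] using this

end BAC

open BAC in
theorem tu_BAC (h1 : Su_BAS) : Su_BAC := by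
  refine ⟨?_, ?_⟩
  · intro L M μ ν hμ hν hM hL
    have hI : Isg L L (μ * ν) := fun w hw => by
      rw [mul_assoc]
      exact hM _ (hL w hw)
    obtain ⟨n, hn, hn'⟩ := key (mul_ne_zero hμ hν) hI
    obtain ⟨L'', hL''⟩ := h1 L (M.map (AddMonoidHom.mulLeft μ)) n hn (by
      intro w hw
      obtain ⟨w', hw', e⟩ := hn' w hw
      rw [AddSubgroup.mem_map]
      refine ⟨ν * w', hL w' hw', ?_⟩
      rw [e]
      simp [mul_assoc]) (by
      intro w hw
      rw [AddSubgroup.mem_map] at hw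
      obtain ⟨x, hx, rfl⟩ := hw
      have := zmem (hM x hx) (n : ℤ)
      simpa using this)
    refine ⟨scale L'' μ⁻¹ (inv_ne_zero hμ), fun z => ?_⟩
    rw [mem_scale, inv_inv, hL'', AddSubgroup.mem_map]
    constructor
    · rintro ⟨x, hx, h⟩
      have : x = z := mul_left_cancel₀ hμ (by simpa using h)
      rwa [← this]
    · intro hz
      exact ⟨z, hz, by simp⟩
  · intro L M μ hμ hI
    obtain ⟨n, hn, hn'⟩ := key hμ hI
    have hN : ∀ z, μ * z ∈ M.lattice → (n : ℂ) * z ∈ L.lattice := by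
      intro z hz
      obtain ⟨w', hw', e⟩ := hn' _ hz
      have : (n : ℂ) * z = w' := by
        apply mul_left_cancel₀ hμ
        rw [← e]; ring
      rwa [this]
    refine ⟨?_, n, hn, hN⟩
    classical
    set S : Finset ℂ := ((Finset.range n) ×ˢ (Finset.range n)).image
      (fun p => ((p.1 : ℂ) * M.ω₁ + (p.2 : ℂ) * M.ω₂) / μ) with hS
    have hScov : ∀ z, μ * z ∈ M.lattice → ∃ s ∈ S, z - s ∈ L.lattice := by
      intro z hz
      obtain ⟨m, k, h⟩ := PeriodPair.mem_lattice.1 hz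
      have hn0 : (0 : ℤ) < n := by omega
      have hm0 := Int.emod_nonneg m hn0.ne'
      have hm1 := Int.emod_lt_of_pos m hn0
      have hk0 := Int.emod_nonneg k hn0.ne'
      have hk1 := Int.emod_lt_of_pos k hn0
      refine ⟨(((m % n).toNat : ℂ) * M.ω₁ + ((k % n).toNat : ℂ) * M.ω₂) / μ, ?_, ?_⟩
      · rw [hS, Finset.mem_image]
        refine ⟨((m % n).toNat, (k % n).toNat), ?_, rfl⟩
        rw [Finset.mem_product, Finset.mem_range, Finset.mem_range]
        constructor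
        · show (m % n).toNat < n
          omega
        · show (k % n).toNat < n
          omega
      · have c1 : (((m % n).toNat : ℕ) : ℂ) = (m : ℂ) - n * ((m / n : ℤ) : ℂ) := by
          have h3 : (((m % n).toNat : ℕ) : ℤ) = m - n * (m / n) := by
            rw [Int.toNat_of_nonneg hm0, Int.emod_def]
          exact_mod_cast congrArg (fun x : ℤ => (x : ℂ)) h3
        have c2 : (((k % n).toNat : ℕ) : ℂ) = (k : ℂ) - n * ((k / n : ℤ) : ℂ) := by
          have h3 : (((k % n).toNat : ℕ) : ℤ) = k - n * (k / n) := by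
            rw [Int.toNat_of_nonneg hk0, Int.emod_def]
          exact_mod_cast congrArg (fun x : ℤ => (x : ℂ)) h3
        have e3 : z - (((m % n).toNat : ℂ) * M.ω₁ + ((k % n).toNat : ℂ) * M.ω₂) / μ =
            (n : ℂ) * ((((m / n : ℤ) : ℂ) * M.ω₁ + ((k / n : ℤ) : ℂ) * M.ω₂) / μ) := by
          rw [c1, c2]
          have h4 : z = ((m : ℂ) * M.ω₁ + (k : ℂ) * M.ω₂) / μ := by
            rw [h]; field_simp
          rw [h4]
          field_simp
          ring
        rw [e3]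
        apply hN
        rw [mul_div_cancel₀ _ hμ]
        exact PeriodPair.mem_lattice.2 ⟨_, _, rfl⟩
    let G : AddSubgroup ℂ := L.lattice.toAddSubgroup
    let π : ℂ → ℂ ⧸ G := fun z => QuotientAddGroup.mk z
    have hπ : ∀ x y : ℂ, π x = π y ↔ x - y ∈ L.lattice := by
      intro x y
      have h5 : π x = π y ↔ -x + y ∈ G := QuotientAddGroup.eq
      rw [h5]
      have h6 : -x + y = -(x - y) := by ring
      rw [h6]
      exact neg_mem_iff
    have hπ0 : ∀ x : ℂ, π x = 0 ↔ x ∈ L.lattice := by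
      intro x
      have : (0 : ℂ ⧸ G) = π 0 := rfl
      rw [this, hπ, sub_zero]
    have hout : ∀ c : ℂ ⧸ G, π (Quotient.out c) = c := fun c => Quotient.out_eq c
    have hSM : ∀ s ∈ S, μ * s ∈ M.lattice := by
      intro s hs
      rw [hS, Finset.mem_image] at hs
      obtain ⟨p, -, rfl⟩ := hs
      rw [mul_div_cancel₀ _ hμ]
      exact PeriodPair.mem_lattice.2 ⟨p.1, p.2, by push_cast; rfl⟩
    refine ⟨((S.image π).erase 0).image Quotient.out, ?_, ?_, ?_, ?_⟩
    · intro q hq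
      rw [Finset.mem_image] at hq
      obtain ⟨c, hc, rfl⟩ := hq
      rw [Finset.mem_erase, Finset.mem_image] at hc
      obtain ⟨-, s, hs, hsc⟩ := hc
      have h7 : Quotient.out c - s ∈ L.lattice := by
        rw [← hπ, hout, hsc]
      have h8 := hI _ h7
      have h9 : μ * Quotient.out c = μ * s + μ * (Quotient.out c - s) := by ring
      rw [h9]
      exact add_mem (hSM s hs) h8
    · intro q hq
      rw [Finset.mem_image] at hq
      obtain ⟨c, hc, rfl⟩ := hq
      rw [Finset.mem_erase] at hc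
      rw [← hπ0, hout]
      exact hc.1
    · intro q hq q' hq' h
      rw [Finset.mem_image] at hq hq'
      obtain ⟨c, hc, rfl⟩ := hq
      obtain ⟨c', hc', rfl⟩ := hq'
      rw [← hπ, hout, hout] at h
      rw [h]
    · intro z hz hzL
      obtain ⟨s, hs, hzs⟩ := hScov z hz
      have h10 : π z = π s := (hπ _ _).2 hzs
      refine ⟨Quotient.out (π z), ?_, ?_⟩
      · rw [Finset.mem_image]
        refine ⟨π z, ?_, rfl⟩
        rw [Finset.mem_erase]
        refine ⟨?_, ?_⟩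
        · rw [Ne, hπ0]
          exact hzL
        · rw [h10]
          exact Finset.mem_image_of_mem _ hs
      · rw [← hπ, hout]

end

end Pool.Agent.MUXU
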