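import Pool.Agent.MUX.StU

/-!
# MUX, block U, module BAS (helper96): a group commensurable with a lattice is a lattice
-/

set_option autoImplicit false

open Filter Topology Polynomial UpperHalfPlane Module
open scoped Real

namespace Pool.Agent.MUXU

open Pool.Agent.MU3B

noncomputable section

namespace U_BAS

/-- multiplication by `n` from a group to another -/
def mulMap (P Q : Submodule ℤ ℂ) (n : ℕ) (h : ∀ w ∈ P, (n : ℂ) * w ∈ Q) : P →ₗ[ℤ] Q where
  toFun w := ⟨(n : ℂ) * w, h w w.2⟩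
  map_add' x y := by
    ext
    simp [mul_add]
  map_smul' m x := by
    ext
    simp only [Submodule.coe_smul, RingHom.id_apply, zsmul_eq_mul]
    ring

theorem mulMap_inj (P Q : Submodule ℤ ℂ) (n : ℕ) (hn : n ≠ 0) (h : ∀ w ∈ P, (n : ℂ) * w ∈ Q) :
    Function.Injective (mulMap P Q n h) := by
  intro x y hxy
  have h1 : (n : ℂ) * x = (n : ℂ) * y := congrArg Subtype.val hxy
  have hn' : (n : ℂ) ≠ 0 := by exact_mod_cast hn
  exact Subtype.ext (mul_left_cancel₀ hn' h1)

end U_BAS

open U_BAS in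
theorem tu_BAS : Su_BAS := by
  intro L M n hn h1 h2
  set N : Submodule ℤ ℂ := AddSubgroup.toIntSubmodule M with hN
  have hmem : ∀ w : ℂ, w ∈ N ↔ w ∈ M := fun w => Iff.rfl
  have : Module.Free ℤ L.lattice := Module.Free.of_basis L.latticeBasis
  have : Module.Finite ℤ L.lattice := Module.Finite.of_basis L.latticeBasis
  set f : N →ₗ[ℤ] L.lattice := mulMap N L.lattice n h2 with hf
  have hfi : Function.Injective f := mulMap_inj N L.lattice n hn h2
  set g : L.lattice →ₗ[ℤ] N := mulMap L.lattice N n h1 with hg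
  have hgi : Function.Injective g := mulMap_inj L.lattice N n hn h1
  have e : N ≃ₗ[ℤ] LinearMap.range f := LinearEquiv.ofInjective f hfi
  have : Module.Free ℤ N := Module.Free.of_equiv e.symm
  have : Module.Finite ℤ N := Module.Finite.equiv e.symm
  have hle : finrank ℤ N ≤ 2 := by
    have := LinearMap.finrank_le_finrank_of_injective hfi
    rwa [L.finrank_lattice] at this
  have hge : 2 ≤ finrank ℤ N := by
    have := LinearMap.finrank_le_finrank_of_injective hgi
    rwa [L.finrank_lattice] at this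
  have hfr : finrank ℤ N = 2 := le_antisymm hle hge
  set b : Basis (Fin 2) ℤ N := Module.finBasisOfFinrankEq ℤ N hfr with hb
  -- the basis spans
  have hrep : ∀ w ∈ M, ∃ p q : ℤ, w = p * ((b 0 : N) : ℂ) + q * ((b 1 : N) : ℂ) := by
    intro w hw
    refine ⟨b.repr ⟨w, hw⟩ 0, b.repr ⟨w, hw⟩ 1, ?_⟩
    have h3 := b.sum_repr ⟨w, hw⟩
    rw [Fin.sum_univ_two] at h3
    have h4 := congrArg Subtype.val h3
    simp only [Submodule.coe_add, Submodule.coe_smul, zsmul_eq_mul] at h4
    exact h4.symm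
  have hn' : (n : ℂ) ≠ 0 := by exact_mod_cast hn
  have hsp : ∀ w ∈ L.lattice, w ∈ Submodule.span ℝ (Set.range ![((b 0 : N) : ℂ), ((b 1 : N) : ℂ)]) := by
    intro w hw
    obtain ⟨p, q, hpq⟩ := hrep _ (h1 w hw)
    have h3 : w = ((p : ℝ) / n) • ((b 0 : N) : ℂ) + ((q : ℝ) / n) • ((b 1 : N) : ℂ) := by
      rw [Complex.real_smul, Complex.real_smul]
      push_cast
      field_simp
      rw [mul_comm w]
      exact hpq
    rw [h3]
    refine Submodule.add_mem _ (Submodule.smul_mem _ _ (Submodule.subset_span ⟨0, rfl⟩))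
      (Submodule.smul_mem _ _ (Submodule.subset_span ⟨1, rfl⟩))
  have htop : (⊤ : Submodule ℝ ℂ) ≤ Submodule.span ℝ (Set.range ![((b 0 : N) : ℂ), ((b 1 : N) : ℂ)]) := by
    rw [← L.basis.span_eq, Submodule.span_le]
    rintro _ ⟨i, rfl⟩
    fin_cases i
    · simpa using hsp _ L.ω₁_mem_lattice
    · simpa using hsp _ L.ω₂_mem_lattice
  have hind : LinearIndependent ℝ ![((b 0 : N) : ℂ), ((b 1 : N) : ℂ)] :=
    linearIndependent_of_top_le_span_of_card_eq_finrank htop (by simp)
  refine ⟨⟨((b 0 : N) : ℂ), ((b 1 : N) : ℂ), hind⟩, fun z => ?_⟩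
  rw [PeriodPair.mem_lattice]
  constructor
  · rintro ⟨p, q, rfl⟩
    have h3 : (p • b 0 + q • b 1 : N).1 ∈ M := (p • b 0 + q • b 1 : N).2
    simpa [zsmul_eq_mul] using h3
  · intro hz
    obtain ⟨p, q, hpq⟩ := hrep z hz
    exact ⟨p, q, hpq.symm⟩

end

end Pool.Agent.MUXU
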