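import Pool.Agent.MUX.StU

/-!
# MUX, block U, module CJE: the conjugate lattice exists   (helper50)
-/

set_option autoImplicit false

open Filter Topology Polynomial UpperHalfPlane
open scoped Real

namespace Pool.Agent.MUXU

open Pool.Agent.MU3B

noncomputable section

theorem tu_CJE (h1 : Su_UNI) : Su_CJE := by
  intro σ L
  refine h1 (σ L.g₂) (σ L.g₃) ?_
  intro h
  apply (b_DSC L).1
  apply σ.injective
  rw [map_pow, map_mul, map_pow, map_ofNat]
  exact h

end

end Pool.Agent.MUXU
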