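import Pool.Agent.MUX.StU

/-!
# MUX, block U: conjugation and complex multiplication (CMC)
-/

set_option autoImplicit false

namespace Pool.Agent.MUXU

open Pool.Agent.MU3B

theorem tu_CMC (h1 : Su_FUN) : Su_CMC := by
  intro σ L L' Φ a hI hσ hC hΦ
  by_cases ha : a = 0
  · subst ha
    refine ⟨fun w _ => ?_, fun z => ?_⟩
    · rw [zero_mul]
      exact L'.lattice.zero_mem
    · rw [zero_mul, zero_mul, sub_zero]
      exact (hΦ.mem 0).2 L.lattice.zero_mem
  · have h := h1 σ L L L' L' a Φ Φ ha hI hC hC hΦ hΦ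
    rw [hσ] at h
    exact h

end Pool.Agent.MUXU
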