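import Pool.Agent.MUX.StU

/-!
# MUX, module U_DER: the second coordinate of an isogeny
-/

set_option autoImplicit false

open Filter Topology Polynomial

namespace Pool.Agent.MUXU

open Pool.Agent.MU3B

/-- `℘` has derivative `℘'` off the lattice. -/
lemma der_hasDerivAt (L : PeriodPair) {z : ℂ} (hz : z ∉ L.lattice) :
    HasDerivAt L.weierstrassP (L.derivWeierstrassP z) z := by
  have h1 : DifferentiableAt ℂ L.weierstrassP z :=
    (L.analyticOnNhd_weierstrassP z hz).differentiableAt
  have h2 := h1.hasDerivAt
  rwa [L.deriv_weierstrassP] at h2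

theorem tu_DER : Su_DER := by
  intro L M μ A B h z hz hμz
  -- the identity holds near `z`
  have hev : ∀ᶠ t in 𝓝 z, M.weierstrassP (μ * t) * B.eval (L.weierstrassP t) =
      A.eval (L.weierstrassP t) := by
    have e1 : ∀ᶠ t in 𝓝 z, t ∉ L.lattice :=
      (L.isClosed_lattice.isOpen_compl).mem_nhds hz
    have e2 : ∀ᶠ t in 𝓝 z, μ * t ∉ M.lattice := by
      have hc : ContinuousAt (fun t : ℂ => μ * t) z := by fun_prop
      exact hc.eventually_mem ((M.isClosed_lattice.isOpen_compl).mem_nhds hμz)
    filter_upwards [e1, e2] with t h1 h2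
    exact h.P t h1 h2
  have hL := der_hasDerivAt L hz
  have hM := der_hasDerivAt M hμz
  have hM' : HasDerivAt (fun t : ℂ => M.weierstrassP (μ * t))
      (M.derivWeierstrassP (μ * z) * μ) z := by
    have h1 : HasDerivAt (fun t : ℂ => μ * t) μ z := by
      simpa using (hasDerivAt_id z).const_mul μ
    exact HasDerivAt.comp z hM h1
  have hB : HasDerivAt (fun t : ℂ => B.eval (L.weierstrassP t))
      ((derivative B).eval (L.weierstrassP z) * L.derivWeierstrassP z) z :=
    HasDerivAt.comp z (B.hasDerivAt (L.weierstrassP z)) hL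
  have hA : HasDerivAt (fun t : ℂ => A.eval (L.weierstrassP t))
      ((derivative A).eval (L.weierstrassP z) * L.derivWeierstrassP z) z :=
    HasDerivAt.comp z (A.hasDerivAt (L.weierstrassP z)) hL
  have hprod := hM'.mul hB
  have hA' := hA.congr_of_eventuallyEq hev
  have heq := hprod.unique hA'
  have hP := h.P z hz hμz
  simp only [eval_sub, eval_mul]
  linear_combination (B.eval (L.weierstrassP z)) * heq -
    (derivative B).eval (L.weierstrassP z) * L.derivWeierstrassP z * hP

end Pool.Agent.MUXU
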