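import Pool.Agent.MUX.StU

/-!
# MUX, block U, module DET: the invariants determine the lattice
-/

set_option autoImplicit false

open Polynomial

namespace Pool.Agent.MUXU

open Pool.Agent.MU3B

namespace DET

theorem ode (a b : ℂ) : OdeP a b a b 1 X 1 := by
  unfold OdeP
  simp only [derivative_X, derivative_one, mul_one, mul_zero, sub_zero, one_pow, one_mul, map_one]

theorem incl (h1 : Su_ODE) (L M : PeriodPair) (h2 : L.g₂ = M.g₂) (h3 : L.g₃ = M.g₃) :
    L.lattice ≤ M.lattice := by
  have h : OdeP L.g₂ L.g₃ M.g₂ M.g₃ 1 X 1 := by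
    rw [h2, h3]
    exact ode _ _
  have h4 := (h1 L M 1 X 1 one_ne_zero isCoprime_one_right (by simp) h).1
  intro w hw
  have h5 := h4 w hw
  rwa [one_mul] at h5

end DET

/-- (DET) -/
theorem tu_DET (h1 : Su_ODE) : Su_DET := fun L M h2 h3 =>
  le_antisymm (DET.incl h1 L M h2 h3) (DET.incl h1 M L h2.symm h3.symm)

end Pool.Agent.MUXU
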