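import Pool.Agent.MUX.StU

/-!
# MUX, module U_EQP: the two coordinates determine the class
-/

set_option autoImplicit false

namespace Pool.Agent.MUXU

open Pool.Agent.MU3B

theorem tu_EQP : Su_EQP := by
  intro L z w hz hw hP hP'
  rcases b_NEQ L w z hw hz hP with h | h
  · exact h
  · have h1 : L.derivWeierstrassP z = L.derivWeierstrassP (-w) := by
      have h2 := L.derivWeierstrassP_add_coe (-w) ⟨z + w, h⟩
      have h3 : -w + ((⟨z + w, h⟩ : L.lattice) : ℂ) = z := by
        show -w + (z + w) = z
        ring
      rw [h3] at h2
      exact h2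
    rw [L.derivWeierstrassP_neg, ← hP'] at h1
    have h4 : L.derivWeierstrassP z = 0 := by
      have h5 : 2 * L.derivWeierstrassP z = 0 := by linear_combination h1
      simpa using h5
    have h6 : 2 * z ∈ L.lattice := (b_ZER L z hz).1 h4
    have h7 : z - w = 2 * z - (z + w) := by ring
    rw [h7]
    exact L.lattice.sub_mem h6 h

end Pool.Agent.MUXU
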