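import Pool.Agent.MUX.StU

/-!
# MUX, block U: module FUN (helper26)
-/

set_option autoImplicit false

open Polynomial

namespace Pool.Agent.MUXU

open Pool.Agent.MU3B

noncomputable section

namespace FUN

theorem ev (σ : ℂ ≃+* ℂ) (p : ℂ[X]) (x : ℂ) :
    (p.map (σ : ℂ →+* ℂ)).eval (σ x) = σ (p.eval x) := by
  rw [eval_map]
  exact eval₂_at_apply (σ : ℂ →+* ℂ) x

theorem ode_map (σ : ℂ ≃+* ℂ) {a b c d μ : ℂ} {A B : ℂ[X]} (h : OdeP a b c d μ A B) :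
    OdeP (σ a) (σ b) (σ c) (σ d) (σ μ) (A.map (σ : ℂ →+* ℂ)) (B.map (σ : ℂ →+* ℂ)) := by
  unfold OdeP at h ⊢
  have h1 := congrArg (Polynomial.map (σ : ℂ →+* ℂ)) h
  simp only [Polynomial.map_mul, Polynomial.map_sub, Polynomial.map_pow, Polynomial.map_C,
    Polynomial.map_X, Polynomial.map_ofNat, RingHom.coe_coe, map_pow] at h1
  simp only [Polynomial.derivative_map]
  rw [h1]
  simp

theorem dmap (σ : ℂ ≃+* ℂ) (A B : ℂ[X]) :
    derivative (A.map (σ : ℂ →+* ℂ)) * B.map (σ : ℂ →+* ℂ) -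
      A.map (σ : ℂ →+* ℂ) * derivative (B.map (σ : ℂ →+* ℂ)) =
      (derivative A * B - A * derivative B).map (σ : ℂ →+* ℂ) := by
  rw [Polynomial.map_sub, Polynomial.map_mul, Polynomial.map_mul, derivative_map, derivative_map]

end FUN

open FUN in
theorem tu_FUN (h1 : Su_BAC) (h2 : Su_ODE) (h3 : Su_ISO) (h4 : Su_DER) (h5 : Su_EQP) : Su_FUN := by
  intro σ L M L' M' μ Φ Ψ hμ hI hL hM hΦ hΨ
  obtain ⟨R, hR⟩ := (h1.2 L M μ hμ hI).1
  obtain ⟨A, hAm, hAd, hO, hP⟩ := h3 L M μ R hμ hI hR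
  set B : ℂ[X] := C (μ ^ 2) * ∏ q ∈ R, (X - C (L.weierstrassP q)) with hB
  have hσμ : σ μ ≠ 0 := (map_ne_zero σ).2 hμ
  have hdeg : (B.map (σ : ℂ →+* ℂ)).natDegree < (A.map (σ : ℂ →+* ℂ)).natDegree := by
    rw [natDegree_map, natDegree_map, hAd, hB]
    have h6 : (∏ q ∈ R, (X - C (L.weierstrassP q))).natDegree ≤ R.card := by
      refine (natDegree_prod_le _ _).trans ?_
      simp
    have h7 := natDegree_C_mul_le (μ ^ 2) (∏ q ∈ R, (X - C (L.weierstrassP q)))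
    omega
  have hcop : IsCoprime (A.map (σ : ℂ →+* ℂ)) (B.map (σ : ℂ →+* ℂ)) :=
    hP.cop.map (mapRingHom (σ : ℂ →+* ℂ))
  have hO' : OdeP L'.g₂ L'.g₃ M'.g₂ M'.g₃ (σ μ) (A.map (σ : ℂ →+* ℂ)) (B.map (σ : ℂ →+* ℂ)) := by
    rw [hL.1, hL.2, hM.1, hM.2]
    exact ode_map σ hO
  obtain ⟨hI', hP'⟩ := h2 L' M' (σ μ) _ _ hσμ hcop hdeg hO'
  refine ⟨hI', fun z => ?_⟩
  by_cases hz : z ∈ L.lattice
  · exact sub_mem ((hΨ.mem _).2 (hI z hz)) (hI' _ ((hΦ.mem z).2 hz))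
  · have hΦz : Φ z ∉ L'.lattice := fun h => hz ((hΦ.mem z).1 h)
    have hBe : (B.map (σ : ℂ →+* ℂ)).eval (L'.weierstrassP (Φ z)) = σ (B.eval (L.weierstrassP z)) := by
      rw [hΦ.P z hz, ev]
    by_cases hμz : μ * z ∈ M.lattice
    · have h6 : B.eval (L.weierstrassP z) = 0 := (hP.ker z hz).1 hμz
      have h7 : σ μ * Φ z ∈ M'.lattice := (hP'.ker _ hΦz).2 (by rw [hBe, h6, map_zero])
      exact sub_mem ((hΨ.mem _).2 hμz) h7
    · have h6 : B.eval (L.weierstrassP z) ≠ 0 := fun h => hμz ((hP.ker z hz).2 h)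
      have h6' : (B.map (σ : ℂ →+* ℂ)).eval (L'.weierstrassP (Φ z)) ≠ 0 := by
        rw [hBe]
        exact (map_ne_zero σ).2 h6
      have h7 : σ μ * Φ z ∉ M'.lattice := fun h => h6' ((hP'.ker _ hΦz).1 h)
      have h8 : Ψ (μ * z) ∉ M'.lattice := fun h => hμz ((hΨ.mem _).1 h)
      refine h5 M' _ _ h8 h7 ?_ ?_
      · have e1 := hP'.P _ hΦz h7
        have e2 := congrArg σ (hP.P z hz hμz)
        rw [map_mul, ← hΨ.P _ hμz, ← hBe] at e2
        have e3 : (A.map (σ : ℂ →+* ℂ)).eval (L'.weierstrassP (Φ z)) = σ (A.eval (L.weierstrassP z)) := by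
          rw [hΦ.P z hz, ev]
        rw [e3, ← e2] at e1
        exact (mul_right_cancel₀ h6' e1).symm
      · have e1 := h4 L' M' (σ μ) _ _ hP' (Φ z) hΦz h7
        have e2 := congrArg σ (h4 L M μ A B hP z hz hμz)
        rw [map_mul, map_mul, map_pow, map_mul, ← hΨ.P' _ hμz, ← hBe, ← hΦ.P' z hz] at e2
        have e3 : (derivative (A.map (σ : ℂ →+* ℂ)) * B.map (σ : ℂ →+* ℂ) -
            A.map (σ : ℂ →+* ℂ) * derivative (B.map (σ : ℂ →+* ℂ))).eval (L'.weierstrassP (Φ z)) =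
            σ ((derivative A * B - A * derivative B).eval (L.weierstrassP z)) := by
          rw [hΦ.P z hz, dmap, ev]
        rw [e3, ← e2] at e1
        have e4 := mul_right_cancel₀ (pow_ne_zero 2 h6') e1
        exact (mul_left_cancel₀ hσμ e4).symm

end

end Pool.Agent.MUXU
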