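import Pool.Agent.MUX.U_LIM

/-!
# MUX, block U, module GHO (helper9): `g₂(τ)` and `g₃(τ)` are holomorphic
-/

set_option autoImplicit false

namespace Pool.Agent.MUXU

open Filter Topology UpperHalfPlane EisensteinSeries
open scoped Real

noncomputable section

namespace GHO

theorem G_eq_E (τ : ℍ) {k : ℕ} (hk : 3 ≤ k) :
    (LT τ).G k = 2 * riemannZeta k * ModularForm.E hk τ := by
  rw [LIM.G_eq, tsum_eisSummand_eq_riemannZeta_mul_eisensteinSeries hk]
  have h2 : ModularForm.E hk τ = (1 / 2 : ℂ) • eisensteinSeriesSIF (N := 1) 0 k τ := rfl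
  rw [h2, eisensteinSeriesSIF_apply 0 k τ, smul_eq_mul]
  ring

theorem G_diff {k : ℕ} (hk : 3 ≤ k) :
    DifferentiableOn ℂ (fun z : ℂ => (LT (ofComplex z)).G k) {z | 0 < z.im} := by
  have h1 : (fun z : ℂ => (LT (ofComplex z)).G k) =
      fun z => 2 * riemannZeta k * ((ModularForm.E hk : ℍ → ℂ) ∘ ofComplex) z := by
    funext z
    exact G_eq_E _ hk
  rw [h1]
  refine DifferentiableOn.const_mul ?_ _
  exact UpperHalfPlane.mdifferentiable_iff.1 (ModularFormClass.holo (ModularForm.E hk))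

end GHO

theorem tu_GHO : Su_GHO :=
  ⟨(GHO.G_diff (k := 4) (by norm_num)).const_mul (60 : ℂ),
    (GHO.G_diff (k := 6) (by norm_num)).const_mul (140 : ℂ)⟩

end

end Pool.Agent.MUXU
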