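import Pool.Agent.MUX.StU

/-!
# MUX, block U, GSL: every `τ` is equivalent to a point of the fundamental domain
-/

set_option autoImplicit false

open UpperHalfPlane

namespace Pool.Agent.MUXU

open Pool.Agent.MU3A

/-- every `τ` is equivalent to a point of the fundamental domain, with the same `j` -/
theorem tu_GSL : Su_GSL := by
  intro τ
  obtain ⟨γ, hγ⟩ := ModularGroup.exists_smul_mem_fd τ
  have hdet : (γ 0 0 : ℂ) * γ 1 1 - γ 0 1 * γ 1 0 = 1 := by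
    have h := γ.det_coe
    rw [Matrix.det_fin_two] at h
    exact_mod_cast h
  have ha : ((γ 1 0 : ℤ) : ℂ) * (τ : ℂ) + ((γ 1 1 : ℤ) : ℂ) ≠ 0 := by
    have h := UpperHalfPlane.denom_ne_zero (γ : GL (Fin 2) ℝ) τ
    simpa [UpperHalfPlane.denom] using h
  have hτ' : (((γ • τ : ℍ)) : ℂ) * (γ 1 0 * (τ : ℂ) + γ 1 1) = γ 0 0 * (τ : ℂ) + γ 0 1 := by
    rw [UpperHalfPlane.coe_specialLinearGroup_apply]
    simp only [algebraMap_int_eq, eq_intCast, Complex.ofReal_intCast]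
    rw [div_mul_cancel₀ _ ha]
  set a : ℂ := γ 1 0 * (τ : ℂ) + γ 1 1 with hadef
  have hlat : ∀ u : ℂ, u ∈ (LT (γ • τ)).lattice ↔ a * u ∈ (LT τ).lattice := by
    intro u
    rw [PeriodPair.mem_lattice, PeriodPair.mem_lattice]
    show (∃ m n : ℤ, (m : ℂ) * 1 + n * ((γ • τ : ℍ) : ℂ) = u) ↔
      ∃ m n : ℤ, (m : ℂ) * 1 + n * (τ : ℂ) = a * u
    constructor
    · rintro ⟨m, n, h⟩
      refine ⟨m * γ 1 1 + n * γ 0 1, m * γ 1 0 + n * γ 0 0, ?_⟩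
      rw [← h]
      push_cast
      linear_combination (-(n : ℂ)) * hτ' + (m : ℂ) * hadef
    · rintro ⟨m, n, h⟩
      refine ⟨m * γ 0 0 - n * γ 0 1, n * γ 1 1 - m * γ 1 0, ?_⟩
      apply mul_left_cancel₀ ha
      rw [← h]
      push_cast
      linear_combination ((n : ℂ) * γ 1 1 - m * γ 1 0) * hτ' +
        ((m : ℂ) * γ 0 0 - n * γ 0 1) * hadef + ((m : ℂ) + n * (τ : ℂ)) * hdet
  obtain ⟨-, -, h2, h3⟩ := ta_SCP (LT (γ • τ)) (LT τ) a ha hlat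
  refine ⟨γ • τ, a⁻¹, inv_ne_zero ha, hγ.2, ?_, ?_, ?_⟩
  · have h := hγ.1
    rw [Complex.normSq_eq_norm_sq] at h
    nlinarith [norm_nonneg (((γ • τ : ℍ)) : ℂ)]
  · rw [h2, inv_pow, div_eq_inv_mul]
  · rw [h3, inv_pow, div_eq_inv_mul]

end Pool.Agent.MUXU
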