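import Pool.Agent.MUX.StU

/-!
# MUX, block U, module IDC (helper72): conjugation commutes with the action of ideals
-/

set_option autoImplicit false

namespace Pool.Agent.MUXU

theorem tu_IDC (h1 : Su_FUN) (h2 : Su_CMC) : Su_IDC := by
  intro σ L M L' M' I Φ Ψ hI hM hL hMM hΦ hΨ
  have hLM : Isg L M 1 := by
    intro w hw
    rw [one_mul, hM]
    exact fun a ha => (hI a ha).1 w hw
  obtain ⟨h3, h4⟩ := h1 σ L M L' M' 1 Φ Ψ one_ne_zero hLM hL hMM hΦ hΨ
  have h5 : ∀ w ∈ L'.lattice, w ∈ M'.lattice := by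
    intro w hw
    have := h3 w hw
    rwa [map_one, one_mul] at this
  have h6 : ∀ z, Ψ z - Φ z ∈ M'.lattice := by
    intro z
    have := h4 z
    rwa [map_one, one_mul, one_mul] at this
  refine ⟨fun u => ?_, h6⟩
  obtain ⟨z, hz⟩ := hΦ.surj u
  have e1 : u ∈ M'.lattice ↔ Φ z ∈ M'.lattice := by
    constructor
    · intro h
      have := add_mem (h5 _ hz) h
      rwa [sub_add_cancel] at this
    · intro h
      have := sub_mem h (h5 _ hz)
      rwa [sub_sub_cancel] at this
  have e2 : Φ z ∈ M'.lattice ↔ Ψ z ∈ M'.lattice := by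
    constructor
    · intro h
      have := add_mem (h6 z) h
      rwa [sub_add_cancel] at this
    · intro h
      have := sub_mem h (h6 z)
      rwa [sub_sub_cancel] at this
  rw [e1, e2, hΨ.mem, hM]
  refine forall_congr' fun a => forall_congr' fun ha => ?_
  obtain ⟨h7, h8⟩ := h2 σ L L' Φ a (hI a ha).1 (hI a ha).2 hL hΦ
  rw [← hΦ.mem]
  have h9 : a * (Φ z - u) ∈ L'.lattice := h7 _ hz
  have h10 := h8 z
  constructor
  · intro h
    have := sub_mem (sub_mem h h10) h9
    rwa [show Φ (a * z) - (Φ (a * z) - a * Φ z) - a * (Φ z - u) = a * u by ring] at this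
  · intro h
    have := add_mem (add_mem h h10) h9
    rwa [show a * u + (Φ (a * z) - a * Φ z) + a * (Φ z - u) = Φ (a * z) by ring] at this

end Pool.Agent.MUXU
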