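import Pool.Agent.MUX.StU

/-!
# MUX, block U: (JSU), `j` takes every value
-/

set_option autoImplicit false

open Filter Topology Polynomial UpperHalfPlane
open scoped Real

namespace Pool.Agent.MUXU

open Pool.Agent.MU3B

noncomputable section

namespace JSUaux

/-- the discriminant -/
def Dl (τ : ℍ) : ℂ := (LT τ).g₂ ^ 3 - 27 * (LT τ).g₃ ^ 2

/-- the absolute invariant -/
def F (τ : ℍ) : ℂ := (LT τ).g₂ ^ 3 / Dl τ

theorem Dl_ne (τ : ℍ) : Dl τ ≠ 0 := sub_ne_zero.2 (b_DSC (LT τ)).1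

theorem F_gsl (h : Su_GSL) (τ : ℍ) :
    ∃ τ' : ℍ, |τ'.re| ≤ 1 / 2 ∧ 1 ≤ ‖(τ' : ℂ)‖ ∧ F τ = F τ' := by
  obtain ⟨τ', u, hu, h1, h2, h3, h4⟩ := h τ
  refine ⟨τ', h1, h2, ?_⟩
  have hd : Dl τ = u ^ 12 * Dl τ' := by
    unfold Dl
    rw [h3, h4]
    ring
  unfold F
  rw [hd, h3]
  have h5 := Dl_ne τ'
  have h6 : u ^ 12 ≠ 0 := pow_ne_zero _ hu
  field_simp

theorem lim_g (h : Su_LIM) : Tendsto (fun τ : ℍ => (LT τ).g₂ ^ 3) atImInfty
    (𝓝 ((4 * (π : ℂ) ^ 4 / 3) ^ 3)) := h.1.pow 3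

theorem lim_D (h : Su_LIM) : Tendsto Dl atImInfty (𝓝 0) := by
  have h1 := (h.1.pow 3).sub ((h.2.pow 2).const_mul 27)
  have h2 : (4 * (π : ℂ) ^ 4 / 3) ^ 3 - 27 * (8 * (π : ℂ) ^ 6 / 27) ^ 2 = 0 := by ring
  rw [h2] at h1
  exact h1

/-- `|F|` is large near `i∞` -/
theorem F_large (h : Su_LIM) (R : ℝ) : ∃ Y : ℝ, ∀ τ : ℍ, Y ≤ τ.im → R < ‖F τ‖ := by
  have hπ : (0 : ℝ) < ‖((4 * (π : ℂ) ^ 4 / 3) ^ 3)‖ := by
    rw [norm_pos_iff]
    have : (π : ℂ) ≠ 0 := by exact_mod_cast Real.pi_ne_zero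
    exact pow_ne_zero _ (div_ne_zero (mul_ne_zero (by norm_num) (pow_ne_zero _ this))
      (by norm_num))
  have h1 := (lim_g h).norm
  have h2 : Tendsto (fun τ => (|R| + 1) * ‖Dl τ‖) atImInfty (𝓝 0) := by
    have := (lim_D h).norm.const_mul (|R| + 1)
    simpa using this
  have h3 := h2.eventually_lt h1 hπ
  rw [Filter.Eventually, UpperHalfPlane.atImInfty_mem] at h3
  obtain ⟨Y, hY⟩ := h3
  refine ⟨Y, fun τ hτ => ?_⟩
  have h4 : (|R| + 1) * ‖Dl τ‖ < ‖(LT τ).g₂ ^ 3‖ := hY τ hτ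
  have h5 : 0 < ‖Dl τ‖ := norm_pos_iff.2 (Dl_ne τ)
  unfold F
  rw [norm_div, lt_div_iff₀ h5]
  refine lt_of_le_of_lt ?_ h4
  apply mul_le_mul_of_nonneg_right _ h5.le
  linarith [le_abs_self R]

/-- the half plane -/
def U : Set ℂ := {z | 0 < z.im}

theorem U_open : IsOpen U := isOpen_lt continuous_const Complex.continuous_im

theorem U_conn : IsPreconnected U := (convex_halfSpace_im_gt 0).isPreconnected

theorem F_diff (h : Su_GHO) : DifferentiableOn ℂ (fun z => F (ofComplex z)) U := by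
  unfold F Dl
  apply DifferentiableOn.div (h.1.pow 3)
    ((h.1.pow 3).sub ((h.2.pow 2).const_mul 27))
  intro z _
  exact Dl_ne (ofComplex z)

theorem ofC (τ : ℍ) : ofComplex (τ : ℂ) = τ := ofComplex_apply τ

/-- the compact set -/
def KY (Y : ℝ) : Set ℂ := {z | |z.re| ≤ 1 / 2 ∧ 1 ≤ ‖z‖ ∧ 0 ≤ z.im ∧ z.im ≤ Y}

theorem KY_sub (Y : ℝ) : KY Y ⊆ U := by
  rintro z ⟨h1, h2, h3, _⟩
  rcases eq_or_lt_of_le h3 with h | h
  · exfalso
    have h4 : ‖z‖ ≤ |z.re| + |z.im| := Complex.norm_le_abs_re_add_abs_im z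
    rw [← h] at h4
    simp at h4
    linarith
  · exact h

theorem KY_compact (Y : ℝ) : IsCompact (KY Y) := by
  apply Metric.isCompact_of_isClosed_isBounded
  · have e : KY Y = ({z : ℂ | |z.re| ≤ 1 / 2} ∩ {z : ℂ | 1 ≤ ‖z‖}) ∩
        ({z : ℂ | 0 ≤ z.im} ∩ {z : ℂ | z.im ≤ Y}) := by
      ext z
      constructor
      · rintro ⟨h1, h2, h3, h4⟩
        exact ⟨⟨h1, h2⟩, h3, h4⟩
      · rintro ⟨⟨h1, h2⟩, h3, h4⟩
        exact ⟨h1, h2, h3, h4⟩
    rw [e]
    exact ((isClosed_le Complex.continuous_re.abs continuous_const).inter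
      (isClosed_le continuous_const continuous_norm)).inter
      ((isClosed_le continuous_const Complex.continuous_im).inter
      (isClosed_le Complex.continuous_im continuous_const))
  · rw [Metric.isBounded_iff_subset_closedBall 0]
    refine ⟨1 / 2 + |Y|, fun z hz => ?_⟩
    rw [mem_closedBall_zero_iff]
    obtain ⟨h1, _, h3, h4⟩ := hz
    have h5 : ‖z‖ ≤ |z.re| + |z.im| := Complex.norm_le_abs_re_add_abs_im z
    rw [abs_of_nonneg h3] at h5
    linarith [le_abs_self Y]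

end JSUaux

open JSUaux in
theorem tu_JSU (h1 : Su_LIM) (h2 : Su_GHO) (h3 : Su_GSL) : Su_JSU := by
  set f : ℂ → ℂ := fun z => F (ofComplex z) with hf
  have hdiff : DifferentiableOn ℂ f U := F_diff h2
  have hIU : ((I : ℍ) : ℂ) ∈ U := (I : ℍ).im_pos
  have himg : ∀ τ : ℍ, F τ ∈ f '' U := fun τ => ⟨τ, τ.im_pos, by rw [hf]; simp only [ofC]⟩
  -- the image is open
  have hopen : IsOpen (f '' U) := by
    rcases (hdiff.analyticOnNhd U_open).is_constant_or_isOpen U_conn with hc | ho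
    · exfalso
      obtain ⟨w, hw⟩ := hc
      obtain ⟨Y, hY⟩ := F_large h1 ‖w‖
      set τ : ℍ := ⟨⟨0, |Y| + 1⟩, by positivity⟩ with hτ
      have h4 := hY τ (by
        change Y ≤ |Y| + 1
        linarith [le_abs_self Y])
      have h5 := hw (τ : ℂ) τ.im_pos
      rw [hf] at h5
      simp only [ofC] at h5
      rw [h5] at h4
      exact lt_irrefl _ h4
    · exact ho U (le_refl _) U_open
  -- the image is closed
  have hclosed : IsClosed (f '' U) := by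
    rw [← closure_subset_iff_isClosed]
    intro t ht
    obtain ⟨Y, hY⟩ := F_large h1 (‖t‖ + 1)
    have hK : IsClosed (f '' KY Y) :=
      ((KY_compact Y).image_of_continuousOn (hdiff.continuousOn.mono (KY_sub Y))).isClosed
    have hmem : t ∈ closure (f '' KY Y) := by
      rw [Metric.mem_closure_iff] at ht ⊢
      intro ε hε
      obtain ⟨b, hb, hbt⟩ := ht (min ε 1) (lt_min hε one_pos)
      refine ⟨b, ?_, lt_of_lt_of_le hbt (min_le_left _ _)⟩
      obtain ⟨z, hz, rfl⟩ := hb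
      obtain ⟨τ', h4, h5, h6⟩ := F_gsl h3 (ofComplex z)
      refine ⟨τ', ⟨h4, h5, τ'.im_pos.le, ?_⟩, ?_⟩
      · by_contra hcon
        have h7 := hY τ' (not_le.1 hcon).le
        rw [← h6] at h7
        have h8 : dist t (f z) < 1 := lt_of_lt_of_le hbt (min_le_right _ _)
        rw [dist_eq_norm] at h8
        have h9 : ‖f z‖ ≤ ‖t‖ + ‖t - f z‖ := by
          have := norm_sub_le t (t - f z)
          rwa [sub_sub_cancel] at this
        have h10 : ‖t‖ + 1 < ‖f z‖ := h7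
        linarith
      · rw [hf]
        simp only [ofC]
        exact h6.symm
    rw [hK.closure_eq] at hmem
    obtain ⟨z, hz, hzt⟩ := hmem
    exact ⟨z, KY_sub Y hz, hzt⟩
  have huniv : f '' U = Set.univ :=
    IsClopen.eq_univ ⟨hclosed, hopen⟩ ⟨_, himg I⟩
  intro t
  have ht : t ∈ f '' U := by rw [huniv]; trivial
  obtain ⟨z, _, hzt⟩ := ht
  refine ⟨ofComplex z, ?_⟩
  have h4 : (LT (ofComplex z)).g₂ ^ 3 / Dl (ofComplex z) = t := hzt
  rw [div_eq_iff (Dl_ne _)] at h4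
  exact h4

end

end Pool.Agent.MUXU
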