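import Pool.Agent.MUX.StU

/-!
# MUX, block U, module LOC (helper65)

A local solution of the differential equation of the Weierstrass function is a translate of it.
-/

set_option autoImplicit false

open Filter Topology Polynomial UpperHalfPlane
open scoped Real

namespace Pool.Agent.MUXU

open Pool.Agent.MU3B

noncomputable section

/-- a linear differential equation of order one: if `w' = a w` near `x` and `w x = 0` then `w = 0`
near `x` -/
theorem loc_linear {w a : ℂ → ℂ} {x : ℂ} (hw : AnalyticAt ℂ w x) (ha : AnalyticAt ℂ a x)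
    (h0 : w x = 0) (h : ∀ᶠ z in 𝓝 x, deriv w z = a z * w z) : ∀ᶠ z in 𝓝 x, w z = 0 := by
  have h1 := hw.analyticOrderAt_deriv_add_one
  have h2 : (fun z => w z - w x) = w := by
    funext z
    rw [h0, sub_zero]
  rw [h2] at h1
  have h3 : analyticOrderAt (deriv w) x = analyticOrderAt (a * w) x :=
    analyticOrderAt_congr (by
      filter_upwards [h] with z hz
      simpa using hz)
  rw [h3, analyticOrderAt_mul ha hw] at h1
  rw [← analyticOrderAt_eq_top]
  by_contra hne
  have h4 : analyticOrderAt a x ≠ ⊤ := by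
    intro h5
    rw [h5] at h1
    simp at h1
    exact hne h1.symm
  obtain ⟨n, hn⟩ := ENat.ne_top_iff_exists.1 hne
  obtain ⟨m, hm⟩ := ENat.ne_top_iff_exists.1 h4
  rw [← hn, ← hm] at h1
  have h6 : (m : ℕ) + n + 1 = n := by exact_mod_cast h1
  omega

theorem tu_LOC : Su_LOC := by
  intro M μ N f z₀ hμ hNc hN hf hode hz₀ hd
  have hfan : AnalyticOnNhd ℂ f Nᶜ := hf.analyticOnNhd hN.isOpen_compl
  -- the starting point
  obtain ⟨u₀, hu₀, hP, hP'⟩ := (b_DSC M).2 (f z₀) (deriv f z₀ / μ) (by
    rw [div_pow, hode z₀ hz₀]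
    field_simp)
  have hc : μ * z₀ + (u₀ - μ * z₀) = u₀ := by ring
  refine ⟨u₀ - μ * z₀, ?_⟩
  set c : ℂ := u₀ - μ * z₀ with hcdef
  -- the translate
  set k : ℂ → ℂ := fun z => M.weierstrassP (μ * z + c) with hk
  set S : Set ℂ := N ∪ (fun z => μ * z + c) ⁻¹' (M.lattice : Set ℂ) with hS
  have hcont : Continuous (fun z : ℂ => μ * z + c) := by fun_prop
  have hSclosed : IsClosed S := hN.union (M.isClosed_lattice.preimage hcont)
  have hinj : Function.Injective (fun z : ℂ => μ * z + c) := by
    intro z z' hzz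
    simp only [add_left_inj] at hzz
    exact mul_left_cancel₀ hμ hzz
  have hScount : S.Countable := by
    refine hNc.union ?_
    have h1 : (M.lattice : Set ℂ).Countable := by
      have : Countable M.lattice := by
        exact (M.latticeEquivProd).toEquiv.countable_iff.2 inferInstance
      exact Set.to_countable _
    exact h1.preimage hinj
  have hkan : ∀ z, μ * z + c ∉ M.lattice → AnalyticAt ℂ k z := by
    intro z hz
    have h1 : AnalyticAt ℂ M.weierstrassP (μ * z + c) := M.analyticOnNhd_weierstrassP _ hz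
    have h2 : AnalyticAt ℂ (fun z : ℂ => μ * z + c) z := by fun_prop
    exact AnalyticAt.comp (f := fun z : ℂ => μ * z + c) h1 h2
  have hkd : ∀ z, μ * z + c ∉ M.lattice →
      deriv k z = μ * M.derivWeierstrassP (μ * z + c) := by
    intro z hz
    have h1 : HasDerivAt M.weierstrassP (M.derivWeierstrassP (μ * z + c)) (μ * z + c) := by
      rw [← M.deriv_weierstrassP]
      exact (M.analyticOnNhd_weierstrassP _ hz).differentiableAt.hasDerivAt
    have h2 : HasDerivAt (fun z : ℂ => μ * z + c) μ z := by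
      simpa using ((hasDerivAt_id z).const_mul μ).add_const c
    have h3 := h1.comp z h2
    rw [mul_comm]
    exact h3.deriv
  have hkode : ∀ z, μ * z + c ∉ M.lattice →
      deriv k z ^ 2 = μ ^ 2 * (4 * k z ^ 3 - M.g₂ * k z - M.g₃) := by
    intro z hz
    rw [hkd z hz, mul_pow, M.derivWeierstrassP_sq _ hz]
  have hz₀S : z₀ ∈ Sᶜ := by
    rintro (h | h)
    · exact hz₀ h
    · have h' : μ * z₀ + c ∈ M.lattice := h
      rw [hc] at h'
      exact hu₀ h'
  have hz₀k : μ * z₀ + c ∉ M.lattice := by
    rw [hc]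
    exact hu₀
  -- near `z₀`
  have hk0 : k z₀ = f z₀ := by
    show M.weierstrassP (μ * z₀ + c) = f z₀
    rw [hc, hP]
  have hk1 : deriv k z₀ = deriv f z₀ := by
    rw [hkd z₀ hz₀k, hc, hP']
    field_simp
  have hfa : AnalyticAt ℂ f z₀ := hfan z₀ hz₀
  have hka : AnalyticAt ℂ k z₀ := hkan z₀ hz₀k
  have hsum : AnalyticAt ℂ (fun z => deriv f z + deriv k z) z₀ := hfa.deriv.add hka.deriv
  have hsum0 : deriv f z₀ + deriv k z₀ ≠ 0 := by
    rw [hk1, ← two_mul]
    exact mul_ne_zero two_ne_zero hd
  have hne : ∀ᶠ z in 𝓝 z₀, deriv f z + deriv k z ≠ 0 := hsum.continuousAt.eventually_ne hsum0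
  set a : ℂ → ℂ := fun z => μ ^ 2 * (4 * (f z ^ 2 + f z * k z + k z ^ 2) - M.g₂) /
    (deriv f z + deriv k z) with ha
  have haan : AnalyticAt ℂ a z₀ := by
    refine AnalyticAt.div ?_ hsum hsum0
    exact analyticAt_const.mul ((analyticAt_const.mul (((hfa.pow 2).add (hfa.mul hka)).add
      (hka.pow 2))).sub analyticAt_const)
  have hloc : ∀ᶠ z in 𝓝 z₀, (fun z => f z - k z) z = 0 := by
    refine loc_linear (hfa.sub hka) haan (by simp [hk0]) ?_
    have hS' : ∀ᶠ z in 𝓝 z₀, z ∈ Sᶜ := hSclosed.isOpen_compl.mem_nhds hz₀S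
    filter_upwards [hS', hne] with z hz hzne
    have hzN : z ∉ N := fun h => hz (Or.inl h)
    have hzM : μ * z + c ∉ M.lattice := fun h => hz (Or.inr h)
    have hdf : DifferentiableAt ℂ f z := (hfan z hzN).differentiableAt
    have hdk : DifferentiableAt ℂ k z := (hkan z hzM).differentiableAt
    have e1 := hode z hzN
    have e2 := hkode z hzM
    have e3 : deriv (fun z => f z - k z) z = deriv f z - deriv k z := deriv_fun_sub hdf hdk
    rw [e3]
    show deriv f z - deriv k z = a z * (f z - k z)
    rw [ha]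
    simp only
    rw [div_mul_eq_mul_div, eq_div_iff hzne]
    linear_combination e1 - e2
  have hev : f =ᶠ[𝓝 z₀] k := by
    filter_upwards [hloc] with z hz
    exact sub_eq_zero.1 hz
  have hconn : IsPreconnected Sᶜ :=
    (hScount.isPathConnected_compl_of_one_lt_rank (by
      rw [Complex.rank_real_complex]
      norm_num)).isConnected.isPreconnected
  have hEq := AnalyticOnNhd.eqOn_of_preconnected_of_eventuallyEq
    (f := f) (g := k) (U := Sᶜ)
    (fun z hz => hfan z (fun h => hz (Or.inl h)))
    (fun z hz => hkan z (fun h => hz (Or.inr h))) hconn hz₀S hev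
  intro z hzN hzM
  exact hEq (x := z) (by
    rintro (h | h)
    · exact hzN h
    · exact hzM h)

end

end Pool.Agent.MUXU
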