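import Pool.Agent.MUX.StU

/-!
# MUX, block U: module ODE (helper43)

A rational solution of the differential equation with a pole at infinity is an isogeny.
-/

set_option autoImplicit false

namespace Pool.Agent.MUXU

open Filter Topology Polynomial
open Pool.Agent.MU3B

namespace ODE43

theorem wper (L : PeriodPair) (x v : ℂ) (hv : v ∈ L.lattice) :
    L.weierstrassP (x + v) = L.weierstrassP x := L.weierstrassP_add_coe x ⟨v, hv⟩

theorem wder (L : PeriodPair) {z : ℂ} (hz : z ∉ L.lattice) :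
    HasDerivAt L.weierstrassP (L.derivWeierstrassP z) z := by
  have h := (L.analyticOnNhd_weierstrassP z hz).differentiableAt.hasDerivAt
  rwa [L.deriv_weierstrassP] at h

theorem out_ev (L : PeriodPair) {z : ℂ} (hz : z ∉ L.lattice) : ∀ᶠ x in 𝓝 z, x ∉ L.lattice :=
  L.isClosed_lattice.isOpen_compl.mem_nhds hz

theorem out_punct (L : PeriodPair) (w : ℂ) : ∀ᶠ x in 𝓝[≠] w, x ∉ L.lattice := by
  have h2 : ∀ᶠ z in 𝓝[≠] w, z ∈ ((L.lattice : Set ℂ) \ {w})ᶜ :=
    nhdsWithin_le_nhds (L.compl_lattice_sdiff_singleton_mem_nhds w)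
  filter_upwards [h2, self_mem_nhdsWithin] with z hz hz0
  exact fun hL => hz ⟨hL, hz0⟩

theorem wpole (L : PeriodPair) {w : ℂ} (hw : w ∈ L.lattice) :
    Tendsto L.weierstrassP (𝓝[≠] w) (Bornology.cobounded ℂ) :=
  tendsto_cobounded_of_meromorphicOrderAt_neg (by
    rw [L.order_weierstrassP w hw]
    decide)

theorem bne {B : ℂ[X]} (hB : B ≠ 0) : ∀ᶠ x in Bornology.cobounded ℂ, B.eval x ≠ 0 := by
  have h := (Bornology.le_cofinite ℂ) (eventually_cofinite_not_isRoot hB)
  filter_upwards [h] with x hx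
  exact hx

theorem ratinf {A B : ℂ[X]} (hB : B ≠ 0) (h : B.natDegree < A.natDegree) :
    Tendsto (fun x => A.eval x / B.eval x) (Bornology.cobounded ℂ) (Bornology.cobounded ℂ) := by
  rw [← tendsto_norm_atTop_iff_cobounded]
  refine tendsto_atTop.2 fun b => ?_
  have hd : B.degree < A.degree := degree_lt_degree h
  have hc : (0 : ℝ) < (|b| + 1)⁻¹ := inv_pos.2 (by positivity)
  filter_upwards [(isLittleO_cobounded_of_degree_lt hd).bound hc, bne hB] with x h1 h2
  have h3 : 0 < ‖B.eval x‖ := norm_pos_iff.2 h2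
  rw [norm_div, le_div_iff₀ h3]
  have h4 : (|b| + 1) * ‖B.eval x‖ ≤ ‖A.eval x‖ := by
    have h5 := mul_le_mul_of_nonneg_left h1 (by positivity : (0 : ℝ) ≤ |b| + 1)
    rwa [← mul_assoc, mul_inv_cancel₀ (by positivity), one_mul] at h5
  have h5 : b * ‖B.eval x‖ ≤ (|b| + 1) * ‖B.eval x‖ :=
    mul_le_mul_of_nonneg_right ((le_abs_self b).trans (by linarith)) h3.le
  linarith

/-- the exceptional set -/
def NN (L : PeriodPair) (B : ℂ[X]) : Set ℂ :=
  {z : ℂ | z ∈ L.lattice ∨ B.eval (L.weierstrassP z) = 0}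

theorem mem_NN {L : PeriodPair} {B : ℂ[X]} {z : ℂ} :
    z ∈ NN L B ↔ z ∈ L.lattice ∨ B.eval (L.weierstrassP z) = 0 := Iff.rfl

theorem not_mem_NN {L : PeriodPair} {B : ℂ[X]} {z : ℂ} :
    z ∉ NN L B ↔ z ∉ L.lattice ∧ B.eval (L.weierstrassP z) ≠ 0 := by
  rw [mem_NN, not_or]

theorem NN_count (L : PeriodPair) {B : ℂ[X]} (hB : B ≠ 0) : (NN L B).Countable := by
  classical
  have hL : (L.lattice : Set ℂ).Countable := by
    have : Countable L.lattice := L.latticeEquivProd.injective.countable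
    exact Set.to_countable _
  have h1 : ∀ x : ℂ, {z : ℂ | z ∉ L.lattice ∧ L.weierstrassP z = x}.Countable := by
    intro x
    by_cases hx : ∃ Q, Q ∉ L.lattice ∧ L.weierstrassP Q = x
    · obtain ⟨Q, hQ, rfl⟩ := hx
      refine Set.Countable.mono ?_
        ((hL.image (fun v => v + Q)).union (hL.image (fun v => v - Q)))
      rintro z ⟨hz, hz2⟩
      rcases b_NEQ L Q z hQ hz hz2 with h | h
      · exact Or.inl ⟨z - Q, h, by ring⟩
      · exact Or.inr ⟨z + Q, h, by ring⟩
    · refine Set.Countable.mono ?_ Set.countable_empty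
      rintro z ⟨hz, hz2⟩
      exact hx ⟨z, hz, hz2⟩
  have h2 : (⋃ x ∈ (B.roots.toFinset : Set ℂ),
      {z : ℂ | z ∉ L.lattice ∧ L.weierstrassP z = x}).Countable :=
    (Finset.countable_toSet _).biUnion fun x _ => h1 x
  refine (hL.union h2).mono ?_
  intro z hz
  rcases mem_NN.1 hz with h | h
  · exact Or.inl h
  · by_cases hzL : z ∈ L.lattice
    · exact Or.inl hzL
    · refine Or.inr (Set.mem_iUnion₂.2 ⟨L.weierstrassP z, ?_, hzL, rfl⟩)
      rw [Finset.mem_coe, Multiset.mem_toFinset, mem_roots hB]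
      exact h

theorem ccomp (L : PeriodPair) (B : ℂ[X]) {z : ℂ} (hz : z ∉ L.lattice) :
    ContinuousAt (fun x => B.eval (L.weierstrassP x)) z :=
  ContinuousAt.comp (f := L.weierstrassP) (g := fun x => B.eval x)
    B.continuous.continuousAt (wder L hz).continuousAt

theorem NN_ev {L : PeriodPair} {B : ℂ[X]} {z : ℂ} (hz : z ∉ NN L B) :
    ∀ᶠ x in 𝓝 z, x ∉ NN L B := by
  obtain ⟨h1, h2⟩ := not_mem_NN.1 hz
  filter_upwards [out_ev L h1, (ccomp L B h1).eventually_ne h2] with x h3 h4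
  exact not_mem_NN.2 ⟨h3, h4⟩

theorem NN_closed (L : PeriodPair) (B : ℂ[X]) : IsClosed (NN L B) := by
  rw [← isOpen_compl_iff, isOpen_iff_mem_nhds]
  intro z hz
  exact NN_ev hz

/-- punctured neighbourhoods avoid the exceptional set -/
theorem NN_punct (L : PeriodPair) {B : ℂ[X]} (hB : B ≠ 0) (w : ℂ) :
    ∀ᶠ x in 𝓝[≠] w, x ∉ NN L B := by
  by_cases hw : w ∈ L.lattice
  · filter_upwards [out_punct L w, (wpole L hw).eventually (bne hB)] with x h1 h2
    exact not_mem_NN.2 ⟨h1, h2⟩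
  · have han : AnalyticAt ℂ (fun x => B.eval (L.weierstrassP x)) w := by
      have h1 := L.analyticOnNhd_weierstrassP w hw
      have h2 : AnalyticAt ℂ (fun x : ℂ => B.eval x) (L.weierstrassP w) := by
        rw [Complex.analyticAt_iff_eventually_differentiableAt]
        exact Eventually.of_forall fun x => B.differentiable x
      exact h2.comp h1
    rcases han.eventually_eq_zero_or_eventually_ne_zero with h | h
    · exfalso
      have hd : Dense (NN L B)ᶜ := (NN_count L hB).dense_compl ℝ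
      rw [Metric.eventually_nhds_iff_ball] at h
      obtain ⟨ε, hε, h⟩ := h
      obtain ⟨x, hx1, hx2⟩ := hd.exists_mem_open Metric.isOpen_ball
        (⟨w, Metric.mem_ball_self hε⟩ : (Metric.ball w ε).Nonempty)
      exact hx1 (mem_NN.2 (Or.inr (h x hx2)))
    · filter_upwards [out_punct L w, h] with x h1 h2
      exact not_mem_NN.2 ⟨h1, h2⟩

/-- the rational function -/
noncomputable def ff (L : PeriodPair) (A B : ℂ[X]) (z : ℂ) : ℂ :=
  A.eval (L.weierstrassP z) / B.eval (L.weierstrassP z)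

theorem ff_der (L : PeriodPair) (A B : ℂ[X]) {z : ℂ} (hz : z ∉ NN L B) :
    HasDerivAt (ff L A B) ((derivative A * B - A * derivative B).eval (L.weierstrassP z) /
      B.eval (L.weierstrassP z) ^ 2 * L.derivWeierstrassP z) z := by
  obtain ⟨h1, h2⟩ := not_mem_NN.1 hz
  have hA := (A.hasDerivAt (L.weierstrassP z)).comp z (wder L h1)
  have hB := (B.hasDerivAt (L.weierstrassP z)).comp z (wder L h1)
  have h3 := hA.div hB h2
  have e : (derivative A * B - A * derivative B).eval (L.weierstrassP z) /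
      B.eval (L.weierstrassP z) ^ 2 * L.derivWeierstrassP z =
      ((derivative A).eval (L.weierstrassP z) * L.derivWeierstrassP z *
        ((fun x => B.eval x) ∘ L.weierstrassP) z - ((fun x => A.eval x) ∘ L.weierstrassP) z *
        ((derivative B).eval (L.weierstrassP z) * L.derivWeierstrassP z)) /
        ((fun x => B.eval x) ∘ L.weierstrassP) z ^ 2 := by
    simp only [Function.comp_apply, eval_sub, eval_mul]
    ring
  rw [e]
  exact h3

theorem ff_ode {L M : PeriodPair} {μ : ℂ} {A B : ℂ[X]}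
    (hO : OdeP L.g₂ L.g₃ M.g₂ M.g₃ μ A B) {z : ℂ} (hz : z ∉ NN L B) :
    deriv (ff L A B) z ^ 2 =
      μ ^ 2 * (4 * ff L A B z ^ 3 - M.g₂ * ff L A B z - M.g₃) := by
  obtain ⟨h1, h2⟩ := not_mem_NN.1 hz
  rw [(ff_der L A B hz).deriv, mul_pow, L.derivWeierstrassP_sq z h1]
  have h3 := congrArg (eval (L.weierstrassP z)) hO
  simp only [eval_mul, eval_pow, eval_sub, eval_X, eval_C, eval_ofNat] at h3
  unfold ff
  simp only [eval_mul, eval_sub]
  have e : ((eval (L.weierstrassP z) (derivative A) * eval (L.weierstrassP z) B -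
        eval (L.weierstrassP z) A * eval (L.weierstrassP z) (derivative B)) /
        eval (L.weierstrassP z) B ^ 2) ^ 2 *
        (4 * L.weierstrassP z ^ 3 - L.g₂ * L.weierstrassP z - L.g₃) =
      ((eval (L.weierstrassP z) (derivative A) * eval (L.weierstrassP z) B -
        eval (L.weierstrassP z) A * eval (L.weierstrassP z) (derivative B)) ^ 2 *
        (4 * L.weierstrassP z ^ 3 - L.g₂ * L.weierstrassP z - L.g₃)) /
        eval (L.weierstrassP z) B ^ 4 := by
    field_simp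
  rw [e, h3]
  field_simp

theorem key {M : PeriodPair} {μ c w : ℂ} {f : ℂ → ℂ} {N : Set ℂ}
    (hf : ∀ z ∉ N, μ * z + c ∉ M.lattice → f z = M.weierstrassP (μ * z + c))
    (hN : ∀ᶠ z in 𝓝[≠] w, z ∉ N) (hinf : Tendsto f (𝓝[≠] w) (Bornology.cobounded ℂ)) :
    μ * w + c ∈ M.lattice := by
  by_contra hc
  have hlin : ContinuousAt (fun z : ℂ => μ * z + c) w := by fun_prop
  have hcont : ContinuousAt (fun z => M.weierstrassP (μ * z + c)) w :=
    ContinuousAt.comp (f := fun z : ℂ => μ * z + c) (g := M.weierstrassP)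
      (wder M hc).continuousAt hlin
  have hev : ∀ᶠ z in 𝓝[≠] w, μ * z + c ∉ M.lattice :=
    nhdsWithin_le_nhds (hlin.eventually (out_ev M hc))
  have h1 : Tendsto f (𝓝[≠] w) (𝓝 (M.weierstrassP (μ * w + c))) := by
    refine (hcont.tendsto.mono_left nhdsWithin_le_nhds).congr' ?_
    filter_upwards [hN, hev] with z h1 h2
    exact (hf z h1 h2).symm
  exact not_tendsto_nhds_of_tendsto_atTop (tendsto_norm_atTop_iff_cobounded.2 hinf) _ h1.norm

theorem ff_inf_lattice (L : PeriodPair) {A B : ℂ[X]} (hB : B ≠ 0)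
    (h : B.natDegree < A.natDegree) {w : ℂ} (hw : w ∈ L.lattice) :
    Tendsto (ff L A B) (𝓝[≠] w) (Bornology.cobounded ℂ) :=
  (ratinf hB h).comp (wpole L hw)

theorem ff_inf_root (L : PeriodPair) {A B : ℂ[X]} (hB : B ≠ 0) {w : ℂ} (hw : w ∉ L.lattice)
    (h0 : B.eval (L.weierstrassP w) = 0) (hA : A.eval (L.weierstrassP w) ≠ 0) :
    Tendsto (ff L A B) (𝓝[≠] w) (Bornology.cobounded ℂ) := by
  have h1 : Tendsto (fun x => B.eval (L.weierstrassP x)) (𝓝[≠] w) (𝓝[≠] 0) := by
    rw [tendsto_nhdsWithin_iff]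
    constructor
    · have := (ccomp L B hw).tendsto
      rw [h0] at this
      exact this.mono_left nhdsWithin_le_nhds
    · filter_upwards [NN_punct L hB w] with x hx
      exact (not_mem_NN.1 hx).2
  have h2 : Tendsto (fun x => (B.eval (L.weierstrassP x))⁻¹) (𝓝[≠] w)
      (Bornology.cobounded ℂ) := tendsto_inv₀_nhdsNE_zero.comp h1
  have h3 : Tendsto (fun x => A.eval (L.weierstrassP x)) (𝓝[≠] w)
      (𝓝 (A.eval (L.weierstrassP w))) :=
    (ccomp L A hw).tendsto.mono_left nhdsWithin_le_nhds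
  rw [← tendsto_norm_atTop_iff_cobounded] at h2 ⊢
  have h4 := Tendsto.pos_mul_atTop (norm_pos_iff.2 hA) h3.norm h2
  refine h4.congr fun x => ?_
  rw [ff, div_eq_mul_inv, norm_mul]

end ODE43

open ODE43 in
theorem tu_ODE (h1 : Su_LOC) : Su_ODE := by
  intro L M μ A B hμ hcop hdeg hO
  have hB : B ≠ 0 := by
    rintro rfl
    rw [isCoprime_zero_right] at hcop
    have := natDegree_eq_zero_of_isUnit hcop
    rw [this] at hdeg
    exact absurd hdeg (Nat.not_lt_zero _)
  have hode : ∀ z ∉ NN L B, deriv (ff L A B) z ^ 2 =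
      μ ^ 2 * (4 * ff L A B z ^ 3 - M.g₂ * ff L A B z - M.g₃) := fun z hz => ff_ode hO hz
  have hdiff : DifferentiableOn ℂ (ff L A B) (NN L B)ᶜ := fun z hz =>
    (ff_der L A B hz).differentiableAt.differentiableWithinAt
  -- a point with nonzero derivative
  have hz0 : ∃ z₀ ∉ NN L B, deriv (ff L A B) z₀ ≠ 0 := by
    by_contra hcon
    push Not at hcon
    have hinf := ff_inf_lattice L hB hdeg (L.lattice.zero_mem)
    rw [← tendsto_norm_atTop_iff_cobounded] at hinf
    have hb := (tendsto_atTop.1 hinf (max 1 ((‖M.g₂‖ + ‖M.g₃‖) / 4) + 1)).and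
      (NN_punct L hB 0)
    obtain ⟨x, hx1, hx2⟩ := hb.exists
    have h2 := hode x hx2
    rw [hcon x hx2] at h2
    have h3 : 4 * ff L A B x ^ 3 - M.g₂ * ff L A B x - M.g₃ = 0 := by
      have h4 : μ ^ 2 * (4 * ff L A B x ^ 3 - M.g₂ * ff L A B x - M.g₃) = 0 := by
        rw [← h2]; ring
      exact (mul_eq_zero.1 h4).resolve_left (pow_ne_zero 2 hμ)
    have h4 : 4 * ff L A B x ^ 3 = M.g₂ * ff L A B x + M.g₃ := by linear_combination h3
    have h5 : 4 * ‖ff L A B x‖ ^ 3 ≤ ‖M.g₂‖ * ‖ff L A B x‖ + ‖M.g₃‖ := by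
      have h6 := congrArg norm h4
      rw [norm_mul, norm_pow] at h6
      have h7 := norm_add_le (M.g₂ * ff L A B x) M.g₃
      rw [norm_mul] at h7
      have h8 : ‖(4 : ℂ)‖ = 4 := by norm_num
      rw [h8] at h6
      linarith
    obtain ⟨t, ht⟩ : ∃ t : ℝ, t = ‖ff L A B x‖ := ⟨_, rfl⟩
    rw [← ht] at h5 hx1
    have t1 : 1 ≤ t := by linarith [le_max_left (1 : ℝ) ((‖M.g₂‖ + ‖M.g₃‖) / 4)]
    have t2 : (‖M.g₂‖ + ‖M.g₃‖) / 4 < t := by
      linarith [le_max_right (1 : ℝ) ((‖M.g₂‖ + ‖M.g₃‖) / 4)]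
    have g2 := norm_nonneg M.g₂
    have g3 := norm_nonneg M.g₃
    have t3 : 4 * t ^ 3 ≤ (‖M.g₂‖ + ‖M.g₃‖) * t := by nlinarith
    have t4 : (‖M.g₂‖ + ‖M.g₃‖) * t < 4 * t * t := by nlinarith
    have t5 : 4 * t * t ≤ 4 * t ^ 3 := by nlinarith [mul_pos (by linarith : 0 < t) (by linarith : 0 < t)]
    linarith
  obtain ⟨z₀, hz0, hz0'⟩ := hz0
  obtain ⟨c, hc⟩ := h1 M μ (NN L B) (ff L A B) z₀ hμ (NN_count L hB) (NN_closed L B) hdiff hode
    hz0 hz0'
  -- the constant is in the lattice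
  have hcM : c ∈ M.lattice := by
    have := key hc (NN_punct L hB 0) (ff_inf_lattice L hB hdeg L.lattice.zero_mem)
    rwa [mul_zero, zero_add] at this
  have hcl : ∀ w, μ * w + c ∈ M.lattice → μ * w ∈ M.lattice := by
    intro w hw
    have := M.lattice.sub_mem hw hcM
    rwa [add_sub_cancel_right] at this
  have hf : ∀ z ∉ NN L B, μ * z ∉ M.lattice → ff L A B z = M.weierstrassP (μ * z) := by
    intro z hz hz2
    rw [hc z hz fun h => hz2 (hcl z h), wper M _ _ hcM]
  have hroot : ∀ z, z ∉ L.lattice → B.eval (L.weierstrassP z) = 0 → μ * z ∈ M.lattice := by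
    intro z hz hz2
    refine hcl z (key hc (NN_punct L hB z) (ff_inf_root L hB hz hz2 fun hA => ?_))
    obtain ⟨a, b, hab⟩ := hcop
    have := congrArg (eval (L.weierstrassP z)) hab
    rw [eval_add, eval_mul, eval_mul, hA, hz2, mul_zero, mul_zero, add_zero, eval_one] at this
    exact zero_ne_one this
  have hreg : ∀ z, z ∉ NN L B → μ * z ∉ M.lattice := by
    intro z hz hmem
    have hlin : Tendsto (fun x : ℂ => μ * x) (𝓝[≠] z) (𝓝[≠] (μ * z)) := by
      rw [tendsto_nhdsWithin_iff]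
      constructor
      · exact ((continuous_const.mul continuous_id).tendsto z).mono_left nhdsWithin_le_nhds
      · filter_upwards [self_mem_nhdsWithin] with x hx h
        exact hx (mul_left_cancel₀ hμ h)
    have g1 : Tendsto (fun x => M.weierstrassP (μ * x)) (𝓝[≠] z) (Bornology.cobounded ℂ) :=
      (wpole M hmem).comp hlin
    have g2 : Tendsto (ff L A B) (𝓝[≠] z) (Bornology.cobounded ℂ) := by
      refine g1.congr' ?_
      filter_upwards [NN_punct L hB z, hlin.eventually (out_punct M (μ * z))] with x x1 x2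
      exact (hf x x1 x2).symm
    have g3 : Tendsto (ff L A B) (𝓝[≠] z) (𝓝 (ff L A B z)) :=
      (ff_der L A B hz).continuousAt.tendsto.mono_left nhdsWithin_le_nhds
    exact not_tendsto_nhds_of_tendsto_atTop (tendsto_norm_atTop_iff_cobounded.2 g2) _ g3.norm
  refine ⟨fun w hw => ?_, hcop, fun z hz => ⟨fun h => ?_, hroot z hz⟩, fun z hz hz2 => ?_⟩
  · exact hcl w (key hc (NN_punct L hB w) (ff_inf_lattice L hB hdeg hw))
  · by_contra hne
    exact hreg z (not_mem_NN.2 ⟨hz, hne⟩) h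
  · have hne : B.eval (L.weierstrassP z) ≠ 0 := fun h => hz2 (hroot z hz h)
    rw [← hf z (not_mem_NN.2 ⟨hz, hne⟩) hz2, ff, div_mul_cancel₀ _ hne]

end Pool.Agent.MUXU
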