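import Pool.Agent.MUX.StU

/-!
# MUX, block U: the product formula of an isogeny (helper84)
-/

set_option autoImplicit false

open Filter Topology Polynomial UpperHalfPlane
open scoped Real

namespace Pool.Agent.MUXU

open Pool.Agent.MU3B

noncomputable section

namespace PFI

theorem per (M : PeriodPair) {x y : ℂ} (h : x - y ∈ M.lattice) :
    M.weierstrassP x = M.weierstrassP y := by
  have h1 := M.weierstrassP_add_coe y ⟨x - y, h⟩
  have h2 : y + (x - y) = x := by ring
  simp only [h2] at h1
  exact h1

/-- the generic case -/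
theorem gen (h1 : Su_ISO) (L M : PeriodPair) (μ : ℂ) (R : Finset ℂ) (hμ : μ ≠ 0)
    (hI : Isg L M μ) (hR : IsRpM L M μ R) (w : ℂ) (hw : μ * w ∉ M.lattice)
    (hw2 : 2 * (μ * w) ∉ M.lattice) (z : ℂ) (hz : μ * z ∉ M.lattice) :
    μ ^ 2 * (M.weierstrassP (μ * z) - M.weierstrassP (μ * w)) *
        ∏ q ∈ R, (L.weierstrassP z - L.weierstrassP q) =
      (L.weierstrassP z - L.weierstrassP w) *
        ∏ q ∈ R, (L.weierstrassP z - L.weierstrassP (w + q)) := by
  obtain ⟨A, hAm, hAd, -, hiso⟩ := h1 L M μ R hμ hI hR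
  set B : ℂ[X] := C (μ ^ 2) * ∏ q ∈ R, (X - C (L.weierstrassP q)) with hB
  set c : ℂ := M.weierstrassP (μ * w) with hc
  have h0 : (0 : ℂ) ∉ R := fun h => hR.ne 0 h (zero_mem _)
  have hmem : ∀ q ∈ insert 0 R, μ * q ∈ M.lattice := by
    intro q hq
    rcases Finset.mem_insert.1 hq with rfl | hq
    · rw [mul_zero]; exact zero_mem _
    · exact hR.mem q hq
  have hnL : ∀ q ∈ insert 0 R, w + q ∉ L.lattice := by
    intro q hq h
    have h2 := hI _ h
    rw [mul_add] at h2
    exact hw ((Submodule.add_mem_iff_left _ (hmem q hq)).1 h2)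
  have hinj : Set.InjOn (fun q => L.weierstrassP (w + q)) (insert 0 R : Finset ℂ) := by
    intro q hq q' hq' h
    have hq : q ∈ insert 0 R := hq
    have hq' : q' ∈ insert 0 R := hq'
    rcases b_NEQ L (w + q') (w + q) (hnL q' hq') (hnL q hq) h with h2 | h2
    · have h3 : q - q' ∈ L.lattice := by
        have h4 : w + q - (w + q') = q - q' := by ring
        rwa [h4] at h2
      rcases Finset.mem_insert.1 hq with rfl | hq1
      · rcases Finset.mem_insert.1 hq' with rfl | hq1'
        · rfl
        · exfalso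
          rw [zero_sub] at h3
          exact hR.ne q' hq1' (neg_mem_iff.1 h3)
      · rcases Finset.mem_insert.1 hq' with rfl | hq1'
        · exfalso
          rw [sub_zero] at h3
          exact hR.ne q hq1 h3
        · exact hR.inj q hq1 q' hq1' h3
    · exfalso
      have h3 := hI _ h2
      have h4 : μ * (w + q + (w + q')) = 2 * (μ * w) + (μ * q + μ * q') := by ring
      rw [h4] at h3
      exact hw2 ((Submodule.add_mem_iff_left _ (add_mem (hmem q hq) (hmem q' hq'))).1 h3)
  set s : Finset ℂ := (insert 0 R).image (fun q => L.weierstrassP (w + q)) with hs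
  have hsc : s.card = R.card + 1 := by
    rw [hs, Finset.card_image_of_injOn hinj, Finset.card_insert_of_notMem h0]
  set P : ℂ[X] := ∏ q ∈ insert 0 R, (X - C (L.weierstrassP (w + q))) with hP
  have hPm : P.Monic := monic_prod_of_monic _ _ fun q _ => monic_X_sub_C _
  have hPd : P.natDegree = R.card + 1 := by
    rw [hP, natDegree_prod_of_monic _ _ fun q _ => monic_X_sub_C _]
    simp [Finset.card_insert_of_notMem h0]
  have hBd : B.natDegree ≤ R.card := by
    rw [hB]
    refine (natDegree_C_mul_le _ _).trans ?_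
    rw [natDegree_prod_of_monic _ _ fun q _ => monic_X_sub_C _]
    simp
  have hcB : (C c * B).natDegree < A.natDegree := by
    rw [hAd]
    exact lt_of_le_of_lt ((natDegree_C_mul_le _ _).trans hBd) (Nat.lt_succ_self _)
  have hFm : (A - C c * B).Monic :=
    hAm.sub_of_left (degree_lt_degree hcB)
  have hFd : (A - C c * B).natDegree = R.card + 1 := by
    rw [natDegree_sub_eq_left_of_natDegree_lt hcB, hAd]
  have hlt : ((A - C c * B) - P).degree < (s.card : WithBot ℕ) := by
    rw [hsc]
    have h2 : (A - C c * B).degree = P.degree := by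
      rw [degree_eq_natDegree hFm.ne_zero, degree_eq_natDegree hPm.ne_zero, hFd, hPd]
    have h3 := degree_sub_lt_left h2 hFm.ne_zero (by rw [hFm.leadingCoeff, hPm.leadingCoeff])
    rw [degree_eq_natDegree hFm.ne_zero, hFd] at h3
    exact_mod_cast h3
  have heq : A - C c * B = P := by
    refine eq_of_degree_sub_lt_of_eval_finset_eq s hlt ?_
    intro x hx
    obtain ⟨q, hq, rfl⟩ := Finset.mem_image.1 hx
    have h2 : P.eval (L.weierstrassP (w + q)) = 0 := by
      rw [hP, eval_prod]
      exact Finset.prod_eq_zero hq (by simp)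
    have h3 : μ * (w + q) ∉ M.lattice := by
      rw [mul_add]
      exact fun h => hw ((Submodule.add_mem_iff_left _ (hmem q hq)).1 h)
    have h4 := hiso.P (w + q) (hnL q hq) h3
    have h5 : M.weierstrassP (μ * (w + q)) = c := by
      rw [hc]
      refine per M ?_
      have h6 : μ * (w + q) - μ * w = μ * q := by ring
      rw [h6]
      exact hmem q hq
    rw [h5] at h4
    show (A - C c * B).eval (L.weierstrassP (w + q)) = P.eval (L.weierstrassP (w + q))
    rw [h2, eval_sub, eval_mul, eval_C, h4, sub_self]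
  have hzL : z ∉ L.lattice := fun h => hz (hI _ h)
  have h7 := congrArg (eval (L.weierstrassP z)) heq
  have h8 := hiso.P z hzL hz
  rw [eval_sub, eval_mul, eval_C, ← h8, hP, eval_prod, Finset.prod_insert h0] at h7
  simp only [eval_sub, eval_X, eval_C, add_zero] at h7
  rw [← h7, hB, eval_mul, eval_C, eval_prod]
  simp only [eval_sub, eval_X, eval_C]
  ring

end PFI

/-- The product formula of an isogeny. -/
theorem tu_PFI (h1 : Su_ISO) : Su_PFI := by
  intro L M μ R hμ hI hR w hw z hz
  by_cases hw2 : 2 * (μ * w) ∉ M.lattice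
  · exact PFI.gen h1 L M μ R hμ hI hR w hw hw2 z hz
  push Not at hw2
  set F : ℂ → ℂ := fun w' => μ ^ 2 * (M.weierstrassP (μ * z) - M.weierstrassP (μ * w')) *
        ∏ q ∈ R, (L.weierstrassP z - L.weierstrassP q) -
      (L.weierstrassP z - L.weierstrassP w') *
        ∏ q ∈ R, (L.weierstrassP z - L.weierstrassP (w' + q)) with hF
  have hcM : ContinuousAt (fun w' : ℂ => M.weierstrassP (μ * w')) w :=
    ContinuousAt.comp (f := fun w' : ℂ => μ * w') (g := M.weierstrassP)
      (M.analyticOnNhd_weierstrassP (μ * w) hw).continuousAt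
      (continuous_const.mul continuous_id).continuousAt
  have hcL : ∀ q : ℂ, μ * q ∈ M.lattice →
      ContinuousAt (fun w' : ℂ => L.weierstrassP (w' + q)) w := by
    intro q hq
    have h2 : w + q ∉ L.lattice := by
      intro h
      have h2 := hI _ h
      rw [mul_add] at h2
      exact hw ((Submodule.add_mem_iff_left _ hq).1 h2)
    exact ContinuousAt.comp (f := fun w' : ℂ => w' + q) (g := L.weierstrassP)
      (L.analyticOnNhd_weierstrassP (w + q) h2).continuousAt
      (continuous_id.add continuous_const).continuousAt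
  have hcL0 : ContinuousAt (fun w' : ℂ => L.weierstrassP w') w := by
    have h2 := hcL 0 (by rw [mul_zero]; exact zero_mem _)
    simpa using h2
  have hFc : ContinuousAt F w := by
    refine ContinuousAt.sub ?_ ?_
    · exact (continuousAt_const.mul (continuousAt_const.sub hcM)).mul continuousAt_const
    · refine (continuousAt_const.sub hcL0).mul ?_
      exact tendsto_finsetProd R fun q hq => continuousAt_const.sub (hcL q (hR.mem q hq))
  have hev : ∀ᶠ w' in 𝓝[≠] w, F w' = 0 := by
    have e1 : ∀ᶠ w' in 𝓝 w, μ * w' ∉ M.lattice := by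
      have h2 : ContinuousAt (fun w' : ℂ => μ * w') w :=
        (continuous_const.mul continuous_id).continuousAt
      exact h2 (M.isClosed_lattice.isOpen_compl.mem_nhds hw)
    have e2 : ∀ᶠ w' in 𝓝 w, 2 * (μ * w') ∈ ((M.lattice : Set ℂ) \ {2 * (μ * w)})ᶜ := by
      have h2 : ContinuousAt (fun w' : ℂ => 2 * (μ * w')) w :=
        (continuous_const.mul (continuous_const.mul continuous_id)).continuousAt
      exact h2 (M.compl_lattice_sdiff_singleton_mem_nhds _)
    filter_upwards [e1.filter_mono nhdsWithin_le_nhds, e2.filter_mono nhdsWithin_le_nhds,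
      self_mem_nhdsWithin] with w' h2 h3 h4
    have h5 : 2 * (μ * w') ∉ M.lattice := by
      intro h
      refine h3 ⟨h, ?_⟩
      intro h6
      have h6 : 2 * (μ * w') = 2 * (μ * w) := h6
      have h7 : μ * w' = μ * w := mul_left_cancel₀ two_ne_zero h6
      exact h4 (mul_left_cancel₀ hμ h7)
    exact sub_eq_zero.2 (PFI.gen h1 L M μ R hμ hI hR w' h2 h5 z hz)
  have h6 : Tendsto F (𝓝[≠] w) (𝓝 (F w)) := hFc.tendsto.mono_left nhdsWithin_le_nhds
  have h7 : Tendsto F (𝓝[≠] w) (𝓝 0) :=
    (tendsto_congr' hev).2 tendsto_const_nhds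
  exact sub_eq_zero.1 (tendsto_nhds_unique h6 h7)

end

end Pool.Agent.MUXU
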