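import Pool.Agent.MUX.StU

/-!
# MUX, block U: conjugation of points (PHI)
-/

set_option autoImplicit false

namespace Pool.Agent.MUXU

open WeierstrassCurve.Affine

noncomputable section

namespace PHI

/-- the map of points given by a ring homomorphism -/
def pm (W : WeierstrassCurve.Affine ℂ) (f : ℂ →+* ℂ) :
    W.Point →+ (WeierstrassCurve.map W f).toAffine.Point where
  toFun P := match P with
    | 0 => 0
    | .some x y h => .some (f x) (f y) ((WeierstrassCurve.Affine.map_nonsingular (W := W) f.injective x y).mpr h)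
  map_zero' := rfl
  map_add' := by
    rintro (_ | ⟨x₁, y₁, h₁⟩) (_ | ⟨x₂, y₂, h₂⟩)
    any_goals rfl
    by_cases hxy : x₁ = x₂ ∧ y₁ = W.negY x₂ y₂
    · rw [Point.add_of_Y_eq hxy.left hxy.right,
        Point.add_of_Y_eq (congr_arg _ hxy.left) <| by rw [hxy.right, map_negY]]
    · simpa only [Point.add_some hxy, ← map_addX, ← map_addY, ← map_slope] using!
        (Point.add_some fun h ↦ hxy ⟨f.injective h.1, f.injective (map_negY f x₂ y₂ ▸ h).2⟩).symm

theorem cj (W W' : WeierstrassCurve.Affine ℂ) (σ : ℂ ≃+* ℂ)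
    (hW : W' = (WeierstrassCurve.map W (σ : ℂ →+* ℂ)).toAffine) :
    ∃ s : W.Point →+ W'.Point, Function.Bijective s ∧
      ∀ x y h, ∃ h', s (.some x y h) = .some (σ x) (σ y) h' := by
  subst hW
  refine ⟨pm W (σ : ℂ →+* ℂ), ⟨?_, ?_⟩, fun x y h => ⟨_, rfl⟩⟩
  · rw [injective_iff_map_eq_zero]
    rintro (_ | ⟨x, y, h⟩) hP
    · rfl
    · exact absurd hP (by intro h'; cases h')
  · rintro (_ | ⟨x, y, h⟩)
    · exact ⟨0, rfl⟩
    · have e1 : (σ : ℂ →+* ℂ) (σ.symm x) = x := σ.apply_symm_apply x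
      have e2 : (σ : ℂ →+* ℂ) (σ.symm y) = y := σ.apply_symm_apply y
      have h' : W.Nonsingular (σ.symm x) (σ.symm y) := by
        rw [← WeierstrassCurve.Affine.map_nonsingular (W := W) (f := (σ : ℂ →+* ℂ)) (σ : ℂ →+* ℂ).injective, e1, e2]
        exact h
      refine ⟨.some (σ.symm x) (σ.symm y) h', ?_⟩
      show Point.some ((σ : ℂ →+* ℂ) (σ.symm x)) ((σ : ℂ →+* ℂ) (σ.symm y)) _ = _
      congr 1

end PHI

open PHI in
theorem tu_PHI (h1 : Su_XIL) : Su_PHI := by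
  intro σ L L' hc
  obtain ⟨ξ, hk, hs, hx⟩ := h1 L
  obtain ⟨ξ', hk', hs', hx'⟩ := h1 L'
  have hW : EL L' = (WeierstrassCurve.map (EL L) (σ : ℂ →+* ℂ)).toAffine := by
    unfold EL
    rw [hc.1, hc.2]
    simp only [WeierstrassCurve.map, WeierstrassCurve.toAffine]
    have h4 : σ 4 = 4 := map_ofNat σ 4
    congr 1 <;> simp [h4]
  obtain ⟨s, hb, hsm⟩ := cj (EL L) (EL L') σ hW
  choose Φ hΦ using fun z => hs' (s (ξ z))
  have hmem : ∀ z, Φ z ∈ L'.lattice ↔ z ∈ L.lattice := by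
    intro z
    rw [← hk', hΦ, ← hk]
    exact map_eq_zero_iff s hb.1
  have key : ∀ z, z ∉ L.lattice → L'.weierstrassP (Φ z) = σ (L.weierstrassP z) ∧
      L'.derivWeierstrassP (Φ z) / 2 = σ (L.derivWeierstrassP z / 2) := by
    intro z hz
    have hz' : Φ z ∉ L'.lattice := fun h => hz ((hmem z).1 h)
    obtain ⟨h, e⟩ := hx z hz
    obtain ⟨h', e'⟩ := hx' (Φ z) hz'
    obtain ⟨h'', e''⟩ := hsm _ _ h
    have := hΦ z
    rw [e, e', e''] at this
    exact Point.some.inj this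
  refine ⟨Φ, hmem, fun z w => ?_, fun u => ?_, fun z hz => (key z hz).1, fun z hz => ?_⟩
  · rw [← hk', map_sub, map_sub, hΦ, hΦ, hΦ, map_add, map_add]
    abel
  · obtain ⟨P, hP⟩ := hb.2 (ξ' u)
    obtain ⟨z, hz⟩ := hs P
    refine ⟨z, ?_⟩
    rw [← hk', map_sub, hΦ, hz, hP, sub_self]
  · have h2 := (key z hz).2
    rw [map_div₀, map_ofNat] at h2
    exact (div_left_inj' (two_ne_zero' ℂ)).1 h2

end

end Pool.Agent.MUXU
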