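import Pool.Agent.MUX.StU

set_option autoImplicit false

open Filter Topology Polynomial UpperHalfPlane
open scoped Real

namespace Pool.Agent.MUXU

open Pool.Agent.MU3B

noncomputable section

theorem tu_SCX : Su_SCX := by
  intro L u hu
  have hind : LinearIndependent ℝ ![u * L.ω₁, u * L.ω₂] := by
    have h := L.indep
    rw [LinearIndependent.pair_iff] at h ⊢
    intro s t hst
    apply h s t
    have h1 : u * (s • L.ω₁ + t • L.ω₂) = 0 := by
      rw [← hst, mul_add, mul_smul_comm, mul_smul_comm]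
    exact (mul_eq_zero.1 h1).resolve_left hu
  refine ⟨⟨u * L.ω₁, u * L.ω₂, hind⟩, fun w => ?_⟩
  rw [PeriodPair.mem_lattice, PeriodPair.mem_lattice]
  constructor
  · rintro ⟨m, n, h⟩
    exact ⟨m, n, by rw [← h]; ring⟩
  · rintro ⟨m, n, h⟩
    refine ⟨m, n, mul_left_cancel₀ hu ?_⟩
    rw [← h]; ring

end

end Pool.Agent.MUXU
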