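import Pool.Agent.MUX.StU

/-!
# MUX, block U, module TSN: torsion under conjugation
-/

set_option autoImplicit false

open Filter Topology Polynomial UpperHalfPlane
open scoped Real

namespace Pool.Agent.MUXU

open Pool.Agent.MU3B

noncomputable section

namespace TSN

theorem key (h1 : Su_CMC) (σ : ℂ ≃+* ℂ) (L L' : PeriodPair) (Φ : ℂ → ℂ) (hc : IsCj σ L L')
    (hΦ : IsPhi σ L L' Φ) (a z : ℂ) (ha : Isg L L a) (hs : σ a = a) :
    a * Φ z ∈ L'.lattice ↔ a * z ∈ L.lattice := by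
  have h2 := (h1 σ L L' Φ a ha hs hc hΦ).2 z
  rw [← hΦ.mem (a * z)]
  constructor
  · intro h
    have e : Φ (a * z) = (Φ (a * z) - a * Φ z) + a * Φ z := by ring
    rw [e]
    exact L'.lattice.add_mem h2 h
  · intro h
    have e : a * Φ z = Φ (a * z) - (Φ (a * z) - a * Φ z) := by ring
    rw [e]
    exact L'.lattice.sub_mem h h2

end TSN

theorem tu_TSN (h1 : Su_CMC) : Su_TSN := by
  intro σ L L' Φ hc hΦ
  refine ⟨fun n z => ?_, fun a z ha hs => TSN.key h1 σ L L' Φ hc hΦ a z ha hs⟩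
  refine TSN.key h1 σ L L' Φ hc hΦ n z ?_ (map_intCast σ n)
  intro w hw
  have h := L.lattice.smul_mem n hw
  rwa [zsmul_eq_mul] at h

end

end Pool.Agent.MUXU
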