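import Pool.Agent.MUX.StU

/-!
# MUX, block U, module UNI: uniformisation   (helper4)
-/

set_option autoImplicit false

open Filter Topology Polynomial UpperHalfPlane
open scoped Real

namespace Pool.Agent.MUXU

open Pool.Agent.MU3B

noncomputable section

/-- the lattice `u L` -/
def uniScale (L : PeriodPair) (u : ℂ) (hu : u ≠ 0) : PeriodPair where
  ω₁ := u * L.ω₁
  ω₂ := u * L.ω₂
  indep := by
    have h := L.indep
    rw [LinearIndependent.pair_iff] at h ⊢
    intro s t hst
    refine h s t ?_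
    have h1 : u * (s • L.ω₁ + t • L.ω₂) = 0 := by
      rw [← hst]
      simp only [Complex.real_smul]
      ring
    rcases mul_eq_zero.1 h1 with h2 | h2
    · exact absurd h2 hu
    · exact h2

theorem uniScale_mem (L : PeriodPair) (u : ℂ) (hu : u ≠ 0) (w : ℂ) :
    w ∈ L.lattice ↔ u * w ∈ (uniScale L u hu).lattice := by
  rw [PeriodPair.mem_lattice, PeriodPair.mem_lattice]
  constructor
  · rintro ⟨m, n, rfl⟩
    exact ⟨m, n, by simp only [uniScale]; ring⟩
  · rintro ⟨m, n, h⟩
    refine ⟨m, n, ?_⟩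
    have h1 : u * (m * L.ω₁ + n * L.ω₂) = u * w := by
      rw [← h]
      simp only [uniScale]
      ring
    exact mul_left_cancel₀ hu h1

theorem uni_root (x : ℂ) (n : ℕ) (hn : n ≠ 0) : ∃ s : ℂ, s ^ n = x := by
  obtain ⟨s, hs⟩ := IsAlgClosed.exists_pow_nat_eq x (Nat.pos_of_ne_zero hn)
  exact ⟨s, hs⟩

theorem tu_UNI (h1 : Su_JSU) : Su_UNI := by
  intro a b hab
  obtain ⟨τ, hτ⟩ := h1 (a ^ 3 / (a ^ 3 - 27 * b ^ 2))
  have hd : a ^ 3 - 27 * b ^ 2 ≠ 0 := sub_ne_zero.2 hab
  have hD := (b_DSC (LT τ)).1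
  set g := (LT τ).g₂ with hg
  set h := (LT τ).g₃ with hh
  have e1 : g ^ 3 * b ^ 2 = a ^ 3 * h ^ 2 := by
    rw [div_mul_eq_mul_div, eq_div_iff hd] at hτ
    have : 27 * (g ^ 3 * b ^ 2) = 27 * (a ^ 3 * h ^ 2) := by linear_combination -hτ
    exact mul_left_cancel₀ (by norm_num : (27 : ℂ) ≠ 0) this
  have hs : ∃ s : ℂ, s ≠ 0 ∧ s ^ 2 * g = a ∧ s ^ 3 * h = b := by
    by_cases hg0 : g = 0
    · have hh0 : h ≠ 0 := by
        intro h0
        apply hD
        rw [hg0, h0]
        ring
      have ha : a = 0 := by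
        rw [hg0] at e1
        have : a ^ 3 * h ^ 2 = 0 := by rw [← e1]; ring
        rcases mul_eq_zero.1 this with h2 | h2
        · exact pow_eq_zero_iff (by norm_num) |>.1 h2
        · exact absurd (pow_eq_zero_iff (by norm_num) |>.1 h2) hh0
      have hb : b ≠ 0 := by
        intro h0
        apply hab
        rw [ha, h0]
        ring
      obtain ⟨s, hs⟩ := uni_root (b / h) 3 (by norm_num)
      refine ⟨s, ?_, ?_, ?_⟩
      · intro h0
        rw [h0] at hs
        have : b / h = 0 := by rw [← hs]; ring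
        exact (div_ne_zero hb hh0) this
      · rw [hg0, ha, mul_zero]
      · rw [hs, div_mul_cancel₀ _ hh0]
    · by_cases hh0 : h = 0
      · have hb : b = 0 := by
          rw [hh0] at e1
          have : g ^ 3 * b ^ 2 = 0 := by rw [e1]; ring
          rcases mul_eq_zero.1 this with h2 | h2
          · exact absurd (pow_eq_zero_iff (by norm_num) |>.1 h2) hg0
          · exact pow_eq_zero_iff (by norm_num) |>.1 h2
        have ha : a ≠ 0 := by
          intro h0
          apply hab
          rw [hb, h0]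
          ring
        obtain ⟨s, hs⟩ := uni_root (a / g) 2 (by norm_num)
        refine ⟨s, ?_, ?_, ?_⟩
        · intro h0
          rw [h0] at hs
          have : a / g = 0 := by rw [← hs]; ring
          exact (div_ne_zero ha hg0) this
        · rw [hs, div_mul_cancel₀ _ hg0]
        · rw [hh0, hb, mul_zero]
      · have ha : a ≠ 0 := by
          intro h0
          have hb : b = 0 := by
            rw [h0] at e1
            have : g ^ 3 * b ^ 2 = 0 := by rw [e1]; ring
            rcases mul_eq_zero.1 this with h2 | h2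
            · exact absurd (pow_eq_zero_iff (by norm_num) |>.1 h2) hg0
            · exact pow_eq_zero_iff (by norm_num) |>.1 h2
          apply hab
          rw [h0, hb]
          ring
        have hb : b ≠ 0 := by
          intro h0
          rw [h0] at e1
          have : a ^ 3 * h ^ 2 = 0 := by rw [← e1]; ring
          rcases mul_eq_zero.1 this with h2 | h2
          · exact ha (pow_eq_zero_iff (by norm_num) |>.1 h2)
          · exact absurd (pow_eq_zero_iff (by norm_num) |>.1 h2) hh0
        refine ⟨b / h * (g / a), mul_ne_zero (div_ne_zero hb hh0) (div_ne_zero hg0 ha), ?_, ?_⟩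
        · field_simp
          linear_combination e1
        · field_simp
          linear_combination e1
  obtain ⟨s, hs0, hs2, hs3⟩ := hs
  obtain ⟨u, hu⟩ := uni_root s⁻¹ 2 (by norm_num)
  have hu0 : u ≠ 0 := by
    intro h0
    rw [h0] at hu
    have : s⁻¹ = 0 := by rw [← hu]; ring
    exact inv_ne_zero hs0 this
  obtain ⟨-, -, k2, k3⟩ := Pool.Agent.MU3A.ta_SCP (LT τ) (uniScale (LT τ) u hu0) u hu0
    (uniScale_mem (LT τ) u hu0)
  refine ⟨uniScale (LT τ) u hu0, ?_, ?_⟩
  · rw [k2, ← hg, ← hs2]
    have e4 : u ^ 4 = (s ^ 2)⁻¹ := by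
      rw [show u ^ 4 = (u ^ 2) ^ 2 by ring, hu, inv_pow]
    rw [e4, div_inv_eq_mul]
    ring
  · rw [k3, ← hh, ← hs3]
    have e6 : u ^ 6 = (s ^ 3)⁻¹ := by
      rw [show u ^ 6 = (u ^ 2) ^ 3 by ring, hu, inv_pow]
    rw [e6, div_inv_eq_mul]
    ring

end

end Pool.Agent.MUXU
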