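import Pool.Agent.MUX.StU

/-!
# MUX, block U, module XIL (helper95): the group isomorphism `ℂ/L ≅ E(ℂ)`
-/

set_option autoImplicit false

namespace Pool.Agent.MUXU

open Pool.Agent.MU3B

noncomputable section

namespace XIL

open WeierstrassCurve.Affine

theorem some_eq {W : WeierstrassCurve.Affine ℂ} {x y x' y' : ℂ} (h : W.Nonsingular x y)
    (h' : W.Nonsingular x' y') (hx : x = x') (hy : y = y') :
    Point.some x y h = Point.some x' y' h' := by
  subst hx hy
  rfl

end XIL

open XIL WeierstrassCurve.Affine in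
theorem tu_XIL : Su_XIL := by
  classical
  intro L
  set P : ℂ → ℂ := L.weierstrassP with hP
  set D : ℂ → ℂ := L.derivWeierstrassP with hD
  set W : WeierstrassCurve.Affine ℂ := EL L with hW
  have w1 : W.a₁ = 0 := rfl
  have w2 : W.a₂ = 0 := rfl
  have w3 : W.a₃ = 0 := rfl
  have w4 : W.a₄ = -L.g₂ / 4 := rfl
  have w6 : W.a₆ = -L.g₃ / 4 := rfl
  -- the facts
  have hsq : ∀ z, z ∉ L.lattice → D z ^ 2 = 4 * P z ^ 3 - L.g₂ * P z - L.g₃ :=
    fun z hz => L.derivWeierstrassP_sq z hz
  have hpar : ∀ z, P (-z) = P z ∧ D (-z) = -D z := fun z =>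
    ⟨L.weierstrassP_neg z, L.derivWeierstrassP_neg z⟩
  have hper : ∀ z, ∀ u ∈ L.lattice, P (z + u) = P z ∧ D (z + u) = D z := by
    intro z u hu
    exact ⟨L.weierstrassP_add_coe z ⟨u, hu⟩, L.derivWeierstrassP_add_coe z ⟨u, hu⟩⟩
  have hinj : ∀ z z', z ∉ L.lattice → z' ∉ L.lattice → P z = P z' →
      z - z' ∈ L.lattice ∨ z + z' ∈ L.lattice := fun z z' hz hz' hx =>
    b_NEQ L z' z hz' hz hx
  have hy0 : ∀ z, z ∉ L.lattice → (D z = 0 ↔ 2 * z ∈ L.lattice) := fun z hz => b_ZER L z hz
  have hadd := b_ADD L
  have hdbl := b_DUP L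
  have ns : ∀ z, z ∉ L.lattice → W.Nonsingular (P z) (D z / 2) := by
    intro z hz
    rw [WeierstrassCurve.Affine.nonsingular_iff', WeierstrassCurve.Affine.equation_iff, w1, w2, w3,
      w4, w6]
    refine ⟨by linear_combination (1 / 4) * hsq z hz, ?_⟩
    by_contra hcon
    rw [not_or, not_not, not_not] at hcon
    obtain ⟨hx, hy⟩ := hcon
    have h1 := hsq z hz
    have h2 : D z = 0 := by linear_combination hy
    rw [h2] at h1
    have e2 : L.g₂ = 12 * P z ^ 2 := by linear_combination 4 * hx
    have e3 : L.g₃ = -8 * P z ^ 3 := by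
      linear_combination h1 - P z * e2
    apply (b_DSC L).1
    rw [e2, e3]
    ring
  set f : ℂ → W.Point := fun z => if h : z ∈ L.lattice then 0 else Point.some _ _ (ns z h) with hf
  have hf0 : ∀ z, z ∈ L.lattice → f z = 0 := fun z hz => dif_pos hz
  have hf1 : ∀ z (hz : z ∉ L.lattice), f z = Point.some _ _ (ns z hz) := fun z hz => dif_neg hz
  have hfper : ∀ z, ∀ u ∈ L.lattice, f (z + u) = f z := by
    intro z u hu
    by_cases hz : z ∈ L.lattice
    · rw [hf0 z hz, hf0 _ (add_mem hz hu)]
    · have hzu : z + u ∉ L.lattice := fun h => hz (by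
        have := sub_mem h hu
        rwa [add_sub_cancel_right] at this)
      rw [hf1 z hz, hf1 _ hzu]
      exact some_eq _ _ (hper z u hu).1 (by rw [(hper z u hu).2])
  have hnegY : ∀ x y : ℂ, W.negY x y = -y := by
    intro x y
    rw [WeierstrassCurve.Affine.negY, w1, w3]
    ring
  have hmap : ∀ z z', f (z + z') = f z + f z' := by
    intro z z'
    by_cases hz : z ∈ L.lattice
    · rw [hf0 z hz, zero_add, add_comm z z', hfper z' z hz]
    by_cases hz' : z' ∈ L.lattice
    · rw [hf0 z' hz', add_zero, hfper z z' hz']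
    by_cases hzz : z + z' ∈ L.lattice
    · rw [hf0 _ hzz, hf1 z hz, hf1 z' hz']
      have e : z = -z' + (z + z') := by ring
      have hx : P z = P z' := by
        rw [e, (hper (-z') _ hzz).1, (hpar z').1]
      have hy : D z = -D z' := by
        rw [e, (hper (-z') _ hzz).2, (hpar z').2]
      exact (Point.add_of_Y_eq hx (by rw [hnegY, hy]; ring)).symm
    by_cases hzd : z - z' ∈ L.lattice
    · have e1 : f z' = f z := by
        have := hfper z' _ hzd
        rw [← this]
        congr 1
        ring
      have e2 : f (z + z') = f (2 * z) := by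
        have := hfper (z + z') _ hzd
        rw [← this]
        congr 1
        ring
      have h2z : 2 * z ∉ L.lattice := by
        intro h
        apply hzz
        have := sub_mem h hzd
        have e : z + z' = 2 * z - (z - z') := by ring
        rwa [e]
      have hy : D z ≠ 0 := fun h => h2z ((hy0 z hz).1 h)
      have hyne : D z / 2 ≠ W.negY (P z) (D z / 2) := by
        rw [hnegY]
        intro h0
        apply hy
        linear_combination h0
      rw [e1, e2, hf1 z hz, hf1 _ h2z, Point.add_self_of_Y_ne hyne]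
      have hsl : W.slope (P z) (P z) (D z / 2) (D z / 2) =
          (6 * P z ^ 2 - L.g₂ / 2) / (2 * D z) := by
        rw [WeierstrassCurve.Affine.slope_of_Y_ne rfl hyne, hnegY, w1, w2, w4]
        have h3 : D z / 2 - -(D z / 2) = D z := by ring
        rw [h3]
        field_simp
        ring
      obtain ⟨hd1, hd2⟩ := hdbl z h2z
      have hX : W.addX (P z) (P z)
          (W.slope (P z) (P z) (D z / 2) (D z / 2)) = P (2 * z) := by
        rw [WeierstrassCurve.Affine.addX, hsl, w1, w2]
        linear_combination -hd1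
      apply some_eq
      · exact hX.symm
      · rw [WeierstrassCurve.Affine.addY, WeierstrassCurve.Affine.negAddY, hnegY, hX, hsl]
        linear_combination (1 / 2) * hd2
    · have hxne : P z ≠ P z' := by
        intro h
        rcases hinj z z' hz hz' h with h3 | h3
        · exact hzd h3
        · exact hzz h3
      rw [hf1 z hz, hf1 z' hz', hf1 _ hzz, Point.add_of_X_ne hxne]
      have hsl : W.slope (P z) (P z') (D z / 2) (D z' / 2) =
          (D z - D z') / (2 * (P z - P z')) := by
        rw [WeierstrassCurve.Affine.slope_of_X_ne hxne]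
        have h3 : P z - P z' ≠ 0 := sub_ne_zero.2 hxne
        field_simp
      obtain ⟨ha1, ha2⟩ := hadd z' z hz' hz hzz hzd
      have hX : W.addX (P z) (P z')
          (W.slope (P z) (P z') (D z / 2) (D z' / 2)) = P (z + z') := by
        rw [WeierstrassCurve.Affine.addX, hsl, w1, w2]
        linear_combination -ha1
      apply some_eq
      · exact hX.symm
      · rw [WeierstrassCurve.Affine.addY, WeierstrassCurve.Affine.negAddY, hnegY, hX, hsl]
        linear_combination (1 / 2) * ha2
  refine ⟨⟨⟨f, hf0 0 L.lattice.zero_mem⟩, hmap⟩, ?_, ?_, ?_⟩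
  · intro z
    constructor
    · intro h
      by_contra hz
      have h3 : f z = 0 := h
      rw [hf1 z hz] at h3
      exact Point.some_ne_zero _ h3
    · exact fun hz => hf0 z hz
  · intro Q
    rcases Q with _ | ⟨x, y, h⟩
    · exact ⟨0, hf0 0 L.lattice.zero_mem⟩
    · have h3 := (WeierstrassCurve.Affine.equation_iff x y).1 h.1
      rw [w1, w2, w3, w4, w6] at h3
      obtain ⟨z, hz, hx, hy⟩ := (b_DSC L).2 x (2 * y) (by linear_combination 4 * h3)
      refine ⟨z, ?_⟩
      have h4 : f z = Point.some x y h := by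
        rw [hf1 z hz]
        exact some_eq _ _ hx (by rw [hD, hy]; ring)
      exact h4
  · intro z hz
    exact ⟨ns z hz, hf1 z hz⟩

end

end Pool.Agent.MUXU
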