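import Pool.Agent.MUX.U_AUE
import Pool.Agent.MUX.U_AUF
import Pool.Agent.MUX.U_AUT
import Pool.Agent.MUX.U_BAC
import Pool.Agent.MUX.U_BAS
import Pool.Agent.MUX.U_CJE
import Pool.Agent.MUX.U_CMC
import Pool.Agent.MUX.U_DER
import Pool.Agent.MUX.U_DET
import Pool.Agent.MUX.U_EQP
import Pool.Agent.MUX.U_FUN
import Pool.Agent.MUX.U_GHO
import Pool.Agent.MUX.U_GSL
import Pool.Agent.MUX.U_IDC
import Pool.Agent.MUX.U_ISO
import Pool.Agent.MUX.U_JSU
import Pool.Agent.MUX.U_LIM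
import Pool.Agent.MUX.U_LOC
import Pool.Agent.MUX.U_ODE
import Pool.Agent.MUX.U_PFI
import Pool.Agent.MUX.U_PHI
import Pool.Agent.MUX.U_SCX
import Pool.Agent.MUX.U_TSN
import Pool.Agent.MUX.U_UNI
import Pool.Agent.MUX.U_XIL

/-! # Block U of the project MUX, assembled

`StU.lean` states the analytic base of the project for an arbitrary imaginary quadratic field; the
files `U_*.lean` prove the statements. This file puts them together: `u_X : Su_X` for every name `X`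
of block U, without hypotheses. -/

namespace Pool.Agent.MUXU

theorem u_BAS : Su_BAS := tu_BAS
theorem u_BAC : Su_BAC := tu_BAC u_BAS
theorem u_LIM : Su_LIM := tu_LIM
theorem u_GHO : Su_GHO := tu_GHO
theorem u_GSL : Su_GSL := tu_GSL
theorem u_JSU : Su_JSU := tu_JSU u_LIM u_GHO u_GSL
theorem u_UNI : Su_UNI := tu_UNI u_JSU
theorem u_SCX : Su_SCX := tu_SCX
theorem u_LOC : Su_LOC := tu_LOC
theorem u_ODE : Su_ODE := tu_ODE u_LOC
theorem u_DET : Su_DET := tu_DET u_ODE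
theorem u_ISO : Su_ISO := tu_ISO
theorem u_DER : Su_DER := tu_DER
theorem u_PFI : Su_PFI := tu_PFI u_ISO
theorem u_XIL : Su_XIL := tu_XIL
theorem u_EQP : Su_EQP := tu_EQP
theorem u_PHI : Su_PHI := tu_PHI u_XIL
theorem u_CJE : Su_CJE := tu_CJE u_UNI
theorem u_FUN : Su_FUN := tu_FUN u_BAC u_ODE u_ISO u_DER u_EQP
theorem u_CMC : Su_CMC := tu_CMC u_FUN
theorem u_IDC : Su_IDC := tu_IDC u_FUN u_CMC
theorem u_TSN : Su_TSN := tu_TSN u_CMC
theorem u_AUE : Su_AUE := tu_AUE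
theorem u_AUT : Su_AUT := tu_AUT
theorem u_AUF : Su_AUF := tu_AUF u_AUE u_AUT

end Pool.Agent.MUXU
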