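import Pool.Agent.MUX.StYX

/-!
# MUX, section 9, module ALM: the multipliers are algebraic
-/

set_option autoImplicit false

namespace Pool.Agent.MUXY

open _root_.MU3 Pool.Agent.MU3A Pool.Agent.MU3B Pool.Agent.MUXU OnePoint
open Pool.Agent.MU3F (ex)
open Pool.Agent.MUXF (Sx_ALG Sx_IDL Sx_NIM Sx_QB Sx_SMB Sx_F4 qb sumB)

noncomputable section

namespace ALM

variable {A B : ℤ}

/-- `k` is algebraic over `ℚ` -/
theorem kk_alg (h1 : Sx_ALG) (h : MUX.CQ A B) : Algebra.IsAlgebraic ℚ (kk A B) := by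
  have hw : wC A B ^ 2 = A + B * wC A B := by
    have h2 := ((h1 A B (cqF h)).1 ⟨0, 1⟩ ⟨0, 1⟩).1
    have h3 : (⟨0, 1⟩ * ⟨0, 1⟩ : OO A B) = ⟨A, B⟩ := by
      apply QuadraticAlgebra.ext
      · simp only [QuadraticAlgebra.re_mul]
        ring
      · simp only [QuadraticAlgebra.im_mul]
        ring
    rw [h3] at h2
    unfold emb at h2
    simp only [Int.cast_zero, Int.cast_one, zero_add, one_mul] at h2
    rw [sq, ← h2]
  refine IntermediateField.isAlgebraic_adjoin fun x hx => ?_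
  rw [Set.mem_singleton_iff] at hx
  subst hx
  refine ⟨Polynomial.X ^ 2 - (Polynomial.C (B : ℚ) * Polynomial.X + Polynomial.C (A : ℚ)), ?_, ?_⟩
  · apply Polynomial.monic_X_pow_sub
    exact lt_of_le_of_lt Polynomial.degree_linear_le (by norm_num)
  · rw [Polynomial.eval₂_sub, Polynomial.eval₂_pow, Polynomial.eval₂_X, Polynomial.eval₂_add,
      Polynomial.eval₂_mul, Polynomial.eval₂_C, Polynomial.eval₂_C, Polynomial.eval₂_X, map_intCast,
      map_intCast, hw]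
    ring

/-- an automorphism which fixes `kk A B` fixes `wC` -/
theorem fixK (σ : ℂ ≃+* ℂ) (h : ∀ a ∈ kk A B, σ a = a) : MUX.FixK A B σ := h _ (wC_mem A B)

end ALM

/-- (ALM) -/
theorem ty_ALM (h1 : Sx_ALG) (h2 : Sx_IDL) (h3 : Sy_EXI) (h4 : Sy_MUC) (h5 : Sy_MUU)
    (h6 : Sy_MUI) (h7 : Su_AUT) : Sy_ALM := by
  intro A B hcq hT n ι hι R i
  have key : IsAlgebraic ℚ (MUX.muX R i) := by
    refine h7 (kk A B) (ALM.kk_alg h1 hcq) _ ?_
    have hfin : (⋃ l : ι, ⋃ j : ι, {s : ℂ | MUX.IsQ (MUX.cjI (R.b i)) (R.L l) (R.L j) s}).Finite := by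
      refine Set.finite_iUnion fun l => Set.finite_iUnion fun j => ?_
      by_cases hex : ∃ s₀ : ℂ, MUX.IsQ (MUX.cjI (R.b i)) (R.L l) (R.L j) s₀
      · obtain ⟨s₀, hs₀⟩ := hex
        refine (Set.toFinite {s₀, -s₀}).subset fun s hs => ?_
        rcases h5 A B (MUX.cjI (R.b i)) (R.L l) (R.L j) s₀ s (R.nl j).nrm hs₀ hs with h | h
        · exact Or.inl h
        · exact Or.inr h
      · refine Set.finite_empty.subset fun s hs => ?_
        exact absurd ⟨s, hs⟩ hex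
    refine hfin.subset ?_
    rintro y ⟨σ, hσ, rfl⟩
    have hfix : MUX.FixK A B σ := ALM.fixK σ hσ
    obtain ⟨l, _, _, hl, _⟩ := h3 A B hcq hT n ι R σ hfix 1 one_ne_zero R.i0
    obtain ⟨j, _, _, hj, _⟩ := h3 A B hcq hT n ι R σ hfix 1 one_ne_zero i
    have h8 := h4 A B hcq σ hfix (MUX.cjI (R.b i)) (R.b R.i0) (R.L R.i0) (R.L i) (R.L l) (R.L j)
      (R.om R.i0) (MUX.muX R i) (R.nl R.i0).toIsLI hl.cj hj.cj (h6 A B hcq n ι R i)
    exact Set.mem_iUnion.2 ⟨l, Set.mem_iUnion.2 ⟨j, h8⟩⟩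
  refine ⟨key, ?_⟩
  have hN : ((MUX.nI (R.b i) : ℕ) : ℂ) ≠ 0 := by
    have h8 : MUX.nI (R.b i) ≠ 0 := (h2 A B (cqF hcq) (R.b i) (R.nl i).b_ne).1
    exact_mod_cast h8
  have h9 : R.om i / R.om R.i0 = MUX.muX R i * ((MUX.nI (R.b i) : ℕ) : ℂ)⁻¹ := by
    unfold MUX.muX
    field_simp
  rw [h9]
  exact key.mul (isAlgebraic_natCast _).inv

end

end Pool.Agent.MUXY
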