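import Pool.Agent.MUX.StYX

/-!
# MUX, section 9, module ALP: the values of the symbols are algebraic
-/

set_option autoImplicit false

namespace Pool.Agent.MUXY

open _root_.MU3 Pool.Agent.MU3A Pool.Agent.MU3B Pool.Agent.MUXU OnePoint
open Pool.Agent.MU3F (ex)
open Pool.Agent.MUXF (Sx_ALG Sx_IDL Sx_NIM Sx_QB Sx_SMB Sx_F4 qb sumB)

namespace Y_ALP

theorem wC_sq {A B : ℤ} (h : MUX.CQ A B) : wC A B * wC A B = A + B * wC A B := by
  have h1 : (0 : ℝ) ≤ (absD A B : ℝ) := by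
    have := h.neg
    have h0 : 0 ≤ absD A B := by
      unfold absD
      omega
    exact_mod_cast h0
  have h2 : ((Real.sqrt (absD A B) : ℝ) : ℂ) ^ 2 = (absD A B : ℂ) := by
    rw [← Complex.ofReal_pow, Real.sq_sqrt h1]
    norm_num
  have h3 : Complex.I ^ 2 = -1 := Complex.I_sq
  have h4 : (absD A B : ℂ) = -((B : ℂ) ^ 2 + 4 * A) := by simp [absD]
  unfold wC
  linear_combination (Complex.I ^ 2 / 4) * h2 + ((absD A B : ℂ) / 4) * h3 - (1 / 4) * h4

theorem wC_int {A B : ℤ} (hc : MUX.CQ A B) : IsIntegral ℤ (wC A B) := by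
  refine ⟨Polynomial.X ^ 2 - Polynomial.C B * Polynomial.X - Polynomial.C A, ?_, ?_⟩
  · monicity!
  · have := wC_sq hc
    simp only [Polynomial.eval₂_sub, Polynomial.eval₂_mul, Polynomial.eval₂_pow,
      Polynomial.eval₂_X, Polynomial.eval₂_C]
    simp only [algebraMap_int_eq, eq_intCast]
    linear_combination this

theorem kk_alg {A B : ℤ} (hc : MUX.CQ A B) : Algebra.IsAlgebraic ℚ (kk A B) := by
  have h1 : IsIntegral ℚ (wC A B) := (wC_int hc).tower_top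
  have h2 : FiniteDimensional ℚ (kk A B) := IntermediateField.adjoin.finiteDimensional h1
  exact Algebra.IsAlgebraic.of_finite ℚ _

end Y_ALP

open Y_ALP in
theorem ty_ALP (h1 : Sy_FIN) (h2 : Sy_FEC) (h3 : Sy_ALM) (h4 : Su_AUT) : Sy_ALP := by
  intro A B hc hT n ι hι R g e hg0 hg1 he hcop r hr hroot i x y
  obtain ⟨hE, hZ⟩ := h2 A B e r hr hroot
  have hP : IsAlgebraic ℚ (MUX.PhiI (R.b i) e x y / R.om i) := by
    refine h4 (kk A B) (kk_alg hc) _ ?_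
    have hfin := (((Set.finite_univ (α := ι)).prod (hE.prod (hZ.prod hZ))).image
      (fun q : ι × (OO A B → ℂ) × ℂ × ℂ =>
        (MUX.nI (R.b i) : ℂ) * q.2.2.1 / (MUX.nI (R.b q.1) * q.2.2.2) *
          (MUX.PhiI (R.b q.1) q.2.1 x y / R.om q.1)))
    refine hfin.subset ?_
    rintro z ⟨σ, hσ, rfl⟩
    have hfix : MUX.FixK A B σ := hσ _ (wC_mem A B)
    obtain ⟨j, C, -, -, ⟨x₁, x₂, -, -, hC⟩, hS⟩ :=
      h1 A B hc hT n ι R g e hg0 hg1 he hcop σ hfix i {(x, y)}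
    refine ⟨(j, (fun x => σ (e x)), σ (e x₁), σ (e x₂)),
      ⟨Set.mem_univ _, ⟨σ, rfl⟩, ⟨σ, x₁, rfl⟩, ⟨σ, x₂, rfl⟩⟩, ?_⟩
    have h5 := hS (x, y) (Finset.mem_singleton_self _)
    simp only at h5 ⊢
    rw [h5, hC]
  refine ⟨hP, ?_⟩
  have h6 := (h3 A B hc hT n ι hι R i).2
  have h7 : MUX.PhiI (R.b i) e x y / R.om R.i0 =
      MUX.PhiI (R.b i) e x y / R.om i * (R.om i / R.om R.i0) := by
    have h8 : R.om i ≠ 0 := (R.nl i).om_ne
    field_simp
  rw [h7]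
  exact hP.mul h6

end Pool.Agent.MUXY
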