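import Pool.Agent.MUX.StYX

/-!
# MUX, section 9: module BIJ (`f` induces a bijection from `b / m b` onto `c / m c`)
-/

set_option autoImplicit false

namespace Pool.Agent.MUXY

open _root_.MU3 Pool.Agent.MU3A Pool.Agent.MU3B Pool.Agent.MUXU OnePoint
open Pool.Agent.MU3F (ex)
open Pool.Agent.MUXF (Sx_ALG Sx_IDL Sx_NIM Sx_QB Sx_SMB Sx_F4 qb sumB)

noncomputable section

theorem ty_BIJ (h1 : Sx_ALG) (h2 : Sy_IDF) : Sy_BIJ := by
  intro A B hC σ m a b c L L' om om' mu f hb hc hact hf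
  obtain ⟨a1, a2, a3, -, -⟩ := h1 A B hC
  obtain ⟨-, hac, -, -⟩ := h2 A B hC σ m a b c L L' om om' mu f hb hc hact hf
  have hadd : ∀ x y : OO A B, emb (x + y) = emb x + emb y := fun x y => (a1 x y).2.1
  have hsub : ∀ x y : OO A B, emb (x - y) = emb x - emb y := by
    intro x y
    have h := hadd (x - y) y
    rw [sub_add_cancel] at h
    rw [h]
    ring
  have hinjE : ∀ u v : OO A B, emb u = emb v → u = v := by
    intro u v h
    have e2 : emb (u - v) = 0 := by rw [hsub, h, sub_self]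
    exact sub_eq_zero.1 ((a2 (u - v)).1.1 e2)
  have hinj : ∀ x ∈ b, ∀ y ∈ b, f x = f y → x = y := by
    intro x hx y hy h
    apply hinjE
    have e1 := hf.eq x hx
    rw [h, hf.eq y hy] at e1
    exact (mul_left_cancel₀ (mul_ne_zero hact.ne hb.om_ne) e1).symm
  obtain ⟨α, hα, j, hj, hαj⟩ := Ideal.isCoprime_iff_exists.1 hact.cop
  obtain ⟨β, hβ⟩ := Ideal.mem_span_singleton'.1 hj
  have hone : α + (m : OO A B) * β = 1 := by
    rw [mul_comm, hβ]
    exact hαj
  refine ⟨?_, ?_⟩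
  · rintro x hx y hy ⟨t, ht, e⟩
    obtain ⟨s, hs, hfs⟩ := (hac (α * t)).1 (Ideal.mul_mem_mul hα ht)
    have hxy : x - y ∈ b := b.sub_mem hx hy
    refine ⟨s + β * (x - y), b.add_mem hs (b.mul_mem_left β hxy), ?_⟩
    have e1 : α * (x - y) = (m : OO A B) * s := by
      apply hinj _ (b.mul_mem_left α hxy) _ (b.mul_mem_left _ hs)
      rw [hf.smul _ hxy, hf.smul _ hs, hf.sub x hx y hy, e, hfs]
      ring
    calc x - y = (α + (m : OO A B) * β) * (x - y) := by rw [hone, one_mul]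
      _ = α * (x - y) + (m : OO A B) * (β * (x - y)) := by ring
      _ = (m : OO A B) * (s + β * (x - y)) := by rw [e1]; ring
  · intro y hy
    obtain ⟨x, hx, hfx⟩ := (hac (α * y)).1 (Ideal.mul_mem_mul hα hy)
    refine ⟨x, hx, β * y, c.mul_mem_left β hy, ?_⟩
    rw [hfx]
    calc y = (α + (m : OO A B) * β) * y := by rw [hone, one_mul]
      _ = α * y + (m : OO A B) * (β * y) := by ring

end

end Pool.Agent.MUXY
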