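import Pool.Agent.MUX.StYX
import Pool.Agent.MU3.A_SCP

/-!
# MUX, section 9, module BRI (helper1): from `ActI` to `ActN`
-/

set_option autoImplicit false

namespace Pool.Agent.MUXY

open _root_.MU3 Pool.Agent.MU3A Pool.Agent.MU3B Pool.Agent.MUXU OnePoint
open Pool.Agent.MU3F (ex)
open Pool.Agent.MUXF (Sx_ALG Sx_IDL Sx_NIM Sx_QB Sx_SMB Sx_F4 qb sumB)

theorem ty_BRI (h1 : Sx_ALG) : Sy_BRI := by
  intro A B h σ m a b b' L L' L'' om om' mu hL hL' hact heq
  obtain ⟨hA1, -, hA3, -, -⟩ := h1 A B (cqF h)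
  have hs := Pool.Agent.MU3A.ta_SCP L' L'' 1 one_ne_zero
    (fun u => by rw [one_mul]; exact heq u)
  have hw : ∀ z, L''.weierstrassP z = L'.weierstrassP z := fun z => by simpa using hs.1 z
  have hw' : ∀ z, L''.derivWeierstrassP z = L'.derivWeierstrassP z := fun z => by
    simpa using hs.2.1 z
  have hg2 : L''.g₂ = L'.g₂ := by simpa using hs.2.2.1
  have hg3 : L''.g₃ = L'.g₃ := by simpa using hs.2.2.2
  have hk : L'.g₂ = σ L.g₂ := by
    have e := hact.kap
    unfold MUX.kap at e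
    rw [map_div₀, map_sub, map_mul, map_one, map_ofNat, map_ofNat] at e
    linear_combination 144 * e
  have hk3 : L'.g₃ = σ L.g₃ := by
    have e1 := hL'.nrm
    have e2 := congrArg σ hL.nrm
    rw [map_mul, map_neg, map_ofNat] at e2
    linear_combination (-1 / 18) * hk + (1 / 18) * e1 - (1 / 18) * e2
  refine ⟨⟨by rw [hg2, hk], by rw [hg3, hk3]⟩, hact.cop, hact.isq.1,
    fun z => by rw [← heq]; exact hact.isq.2 z, fun z hz hzL => ?_⟩
  have hT : MUX.Tor (MUX.idl (A := A) (B := B) m) L z := by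
    intro x hx
    obtain ⟨y, rfl⟩ := Ideal.mem_span_singleton'.1 hx
    obtain ⟨s, hs1, hs2⟩ := (hL.mem _).1 hz
    have em : emb ((m : ℕ) : OO A B) = m := by
      have := (hA3 (m : ℤ)).1
      rwa [Int.cast_natCast, Int.cast_natCast] at this
    refine (hL.mem _).2 ⟨y * s, b.mul_mem_left y hs1, ?_⟩
    rw [(hA1 y _).1, (hA1 y s).1, em, mul_assoc, hs2]
    ring
  rcases hact.act z hT with ⟨h0, -⟩ | ⟨-, h2, h3, h4⟩
  · exact absurd h0 hzL
  · refine ⟨fun h0 => h2 ((heq _).2 h0), ?_, ?_⟩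
    · rw [hw]
      unfold MUX.xn at h3
      rw [map_sub, map_div₀, map_one, map_ofNat] at h3
      linear_combination -h3
    · rw [hw']
      unfold yy at h4
      rw [map_div₀, map_ofNat] at h4
      linear_combination -2 * h4

end Pool.Agent.MUXY
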