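import Pool.Agent.MUX.StYX

/-!
# MUX, section 9, module COP (helper9): the norms of the `b_i` are prime to the conductor
-/

set_option autoImplicit false

namespace Pool.Agent.MUXY

open _root_.MU3

theorem ty_COP : Sy_COP := by
  intro A B n ι R g t ht i
  have h1 : ((MUX.nI (R.b i)).Coprime (n ^ t)) := Nat.Coprime.pow_right t (R.cop i)
  obtain ⟨u, v, huv⟩ := Nat.isCoprime_iff_coprime.2 h1
  rw [Ideal.isCoprime_iff_exists]
  refine ⟨(u : OO A B) * ((MUX.nI (R.b i) : ℕ) : OO A B), ?_, (v : OO A B) * ((n : ℕ) : OO A B) ^ t,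
    Ideal.mul_mem_left _ _ ht, ?_⟩
  · exact Ideal.mul_mem_left _ _ (Ideal.mem_span_singleton_self _)
  · have h2 := congrArg (fun z : ℤ => (z : OO A B)) huv
    push_cast at h2
    exact h2

end Pool.Agent.MUXY
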