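import Pool.Agent.MUX.StYX
import Pool.Agent.MU3.BAll

/-!
# MUX, section 9, module EE: conjugation of the values of `ee` at torsion points
-/

set_option autoImplicit false

namespace Pool.Agent.MUXY

open _root_.MU3 Pool.Agent.MU3A Pool.Agent.MU3B Pool.Agent.MUXU OnePoint
open Pool.Agent.MU3F (ex)
open Pool.Agent.MUXF (Sx_ALG Sx_IDL Sx_NIM Sx_QB Sx_SMB Sx_F4 qb sumB)

noncomputable section

namespace EE

/-- integers act on the lattice -/
theorem lat_int (L : PeriodPair) (a : ℤ) {z : ℂ} (hz : z ∈ L.lattice) :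
    (a : ℂ) * z ∈ L.lattice := by
  have h := zsmul_mem hz a
  rwa [zsmul_eq_mul] at h

/-- differences: `Φ x - Φ y ≡ Φ (x - y)` -/
theorem phi_sub {σ : ℂ ≃+* ℂ} {L L' : PeriodPair} {Φ : ℂ → ℂ} (hΦ : IsPhi σ L L' Φ) (x y : ℂ)
    (h : Φ x - Φ y ∈ L'.lattice) : x - y ∈ L.lattice := by
  rw [← hΦ.mem]
  have h1 := hΦ.add (x - y) y
  rw [sub_add_cancel] at h1
  have e : Φ (x - y) = (Φ x - Φ y) - (Φ x - Φ (x - y) - Φ y) := by ring
  rw [e]
  exact sub_mem h h1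

theorem phi_sub' {σ : ℂ ≃+* ℂ} {L L' : PeriodPair} {Φ : ℂ → ℂ} (hΦ : IsPhi σ L L' Φ) (x y : ℂ)
    (h : x - y ∈ L.lattice) : Φ x - Φ y ∈ L'.lattice := by
  rw [← hΦ.mem] at h
  have h1 := hΦ.add (x - y) y
  rw [sub_add_cancel] at h1
  have e : Φ x - Φ y = Φ (x - y) + (Φ x - Φ (x - y) - Φ y) := by ring
  rw [e]
  exact add_mem h h1

theorem phi_add {σ : ℂ ≃+* ℂ} {L L' : PeriodPair} {Φ : ℂ → ℂ} (hΦ : IsPhi σ L L' Φ) (x y : ℂ)
    (h : Φ x + Φ y ∈ L'.lattice) : x + y ∈ L.lattice := by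
  rw [← hΦ.mem]
  have h1 := hΦ.add x y
  have e : Φ (x + y) = (Φ (x + y) - Φ x - Φ y) + (Φ x + Φ y) := by ring
  rw [e]
  exact add_mem h1 h

theorem phi_add' {σ : ℂ ≃+* ℂ} {L L' : PeriodPair} {Φ : ℂ → ℂ} (hΦ : IsPhi σ L L' Φ) (x y : ℂ)
    (h : x + y ∈ L.lattice) : Φ x + Φ y ∈ L'.lattice := by
  rw [← hΦ.mem] at h
  have h1 := hΦ.add x y
  have e : Φ x + Φ y = Φ (x + y) - (Φ (x + y) - Φ x - Φ y) := by ring
  rw [e]
  exact sub_mem h h1

/-- the image of a half system -/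
theorem half_image (h2 : Su_TSN) {σ : ℂ ≃+* ℂ} {L L' : PeriodPair} (hL : IsCj σ L L') {Φ : ℂ → ℂ}
    (hΦ : IsPhi σ L L' Φ) (b : ℤ) (H : Finset ℂ) (hH : IsHalf L b H) :
    IsHalf L' b (H.image Φ) := by
  have hT := (h2 σ L L' Φ hL hΦ).1
  constructor
  · intro q hq
    obtain ⟨p, hp, rfl⟩ := Finset.mem_image.1 hq
    exact (hT b p).2 (hH.mem p hp)
  · intro q hq
    obtain ⟨p, hp, rfl⟩ := Finset.mem_image.1 hq
    intro hcon
    apply hH.ne p hp
    have h3 := (hT 2 p).1 (by exact_mod_cast hcon)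
    exact_mod_cast h3
  · intro q hq q' hq' hqq
    obtain ⟨p, hp, rfl⟩ := Finset.mem_image.1 hq
    obtain ⟨p', hp', rfl⟩ := Finset.mem_image.1 hq'
    rw [hH.inj p hp p' hp' (phi_sub hΦ p p' hqq)]
  · intro q hq q' hq' hqq
    obtain ⟨p, hp, rfl⟩ := Finset.mem_image.1 hq
    obtain ⟨p', hp', rfl⟩ := Finset.mem_image.1 hq'
    exact hH.neg p hp p' hp' (phi_add hΦ p p' hqq)
  · intro u hu hu0
    obtain ⟨v, hv⟩ := hΦ.surj u
    have hbv : (b : ℂ) * v ∈ L.lattice := by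
      rw [← hT b v]
      have e : (b : ℂ) * Φ v = (b : ℂ) * (Φ v - u) + (b : ℂ) * u := by ring
      rw [e]
      exact add_mem (lat_int L' b hv) hu
    have hv0 : v ∉ L.lattice := by
      rw [← hΦ.mem]
      intro hc
      apply hu0
      have e : u = Φ v - (Φ v - u) := by ring
      rw [e]
      exact sub_mem hc hv
    obtain ⟨q, hq, h3⟩ := hH.surj v hbv hv0
    refine ⟨Φ q, Finset.mem_image_of_mem _ hq, ?_⟩
    rcases h3 with h3 | h3
    · left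
      have h4 := phi_sub' hΦ v q h3
      have e : u - Φ q = (Φ v - Φ q) - (Φ v - u) := by ring
      rw [e]
      exact sub_mem h4 hv
    · right
      have h4 := phi_add' hΦ v q h3
      have e : u + Φ q = (Φ v + Φ q) - (Φ v - u) := by ring
      rw [e]
      exact sub_mem h4 hv

end EE

/-- EE. -/
theorem ty_EE (h1 : Su_PHI) (h2 : Su_TSN) (h3 : Su_EQP) : Sy_EE := by
  classical
  intro σ L L' hL n z z' hn hnz hz hz' hP hP'
  obtain ⟨Φ, hΦ⟩ := h1 σ L L' hL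
  have hT := (h2 σ L L' Φ hL hΦ).1
  obtain ⟨b, hb⟩ : ∃ b : ℤ, b = 1 + 2 * n := ⟨_, rfl⟩
  have hb0 : b ≠ 0 := by omega
  have hb1 : b ≠ 1 := by omega
  have hbc : (b : ℂ) = 1 + 2 * (n : ℂ) := by
    rw [hb]
    push_cast
    ring
  have hbz : ((b : ℂ) - 1) * z ∈ L.lattice := by
    have e : ((b : ℂ) - 1) * z = ((2 : ℤ) : ℂ) * ((n : ℂ) * z) := by
      rw [hbc]
      push_cast
      ring
    rw [e]
    exact EE.lat_int L 2 hnz
  obtain ⟨H, hH⟩ := b_HAL L (b : ℂ) (by exact_mod_cast hb0) (fun w hw => EE.lat_int L b hw) (by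
    intro y hy1 hy2
    have e : y = (b : ℂ) * y - (n : ℂ) * (2 * y) := by
      rw [hbc]
      ring
    rw [e]
    exact sub_mem hy1 (EE.lat_int L n hy2))
  have hH' := EE.half_image h2 hL hΦ b H hH
  have hp0 : ∀ p ∈ H, p ∉ L.lattice := by
    intro p hp hcon
    apply hH.ne p hp
    rw [two_mul]
    exact add_mem hcon hcon
  have hΦz : Φ z ∉ L'.lattice := fun hc => hz ((hΦ.mem z).1 hc)
  have hzz : z' - Φ z ∈ L'.lattice :=
    h3 L' z' (Φ z) hz' hΦz (hP.trans (hΦ.P z hz).symm) (hP'.trans (hΦ.P' z hz).symm)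
  have hbz' : ((b : ℂ) - 1) * z' ∈ L'.lattice := by
    have e : ((b : ℂ) - 1) * z' = ((b - 1 : ℤ) : ℂ) * (z' - Φ z) + ((b - 1 : ℤ) : ℂ) * Φ z := by
      push_cast
      ring
    rw [e]
    refine add_mem (EE.lat_int L' _ hzz) ((hT _ z).2 ?_)
    push_cast
    exact hbz
  have hb2 : ((b : ℂ) - (b : ℂ) ^ 2) ≠ 0 := by
    have e : (b : ℂ) - (b : ℂ) ^ 2 = (b : ℂ) * (1 - (b : ℂ)) := by ring
    rw [e]
    refine mul_ne_zero (by exact_mod_cast hb0) ?_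
    rw [sub_ne_zero]
    exact fun hc => hb1 (by exact_mod_cast hc.symm)
  have e1 := b_TRA L' b _ hb0 hH' z' hz' hbz'
  have e2 := b_TRA L b H hb0 hH z hz hbz
  have e3 := congrArg σ e2
  rw [map_mul, map_sub, map_pow, map_intCast, map_sum] at e3
  apply mul_left_cancel₀ hb2
  rw [e1, e3, Finset.sum_image]
  · refine Finset.sum_congr rfl fun p hp => ?_
    rw [map_div₀, map_sub, hP, hP', hΦ.P p (hp0 p hp)]
  · intro p hp p' hp' hpp
    apply hH.inj p hp p' hp'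
    apply EE.phi_sub hΦ
    have hpp' : Φ p = Φ p' := hpp
    rw [hpp', sub_self]
    exact zero_mem _

end

end Pool.Agent.MUXY
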