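import Pool.Agent.MUX.StYX

/-!
# MUX, section 9, module EIC (helper95): the conjugate of a character is a character
-/

set_option autoImplicit false

namespace Pool.Agent.MUXY

open _root_.MU3

theorem ty_EIC : Sy_EIC := by
  intro A B σ g e h
  refine ⟨?_, ?_, ?_, ?_, ?_⟩
  · rw [h.one, map_one]
  · intro x y
    rw [h.mul, map_mul]
  · intro x y hxy
    rw [h.per x y hxy]
  · intro x
    rw [← h.supp x]
    exact not_congr (map_eq_zero σ)
  · rw [h.neg, map_neg, map_one]

end Pool.Agent.MUXY
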