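import Pool.Agent.MUX.StYX

/-!
# Module MUXY_FEC (helper25): finitely many conjugates of a character
-/

set_option autoImplicit false

namespace Pool.Agent.MUXY

open _root_.MU3 Pool.Agent.MU3A Pool.Agent.MU3B Pool.Agent.MUXU OnePoint
open Pool.Agent.MU3F (ex)
open Pool.Agent.MUXF (Sx_ALG Sx_IDL Sx_NIM Sx_QB Sx_SMB Sx_F4 qb sumB)

namespace Y_FEC

theorem fin (r : ℕ) (hr : r ≠ 0) : {z : ℂ | z = 0 ∨ z ^ r = 1}.Finite := by
  have h0 : (Polynomial.X ^ r - 1 : Polynomial ℂ) ≠ 0 :=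
    Polynomial.X_pow_sub_C_ne_zero (Nat.pos_of_ne_zero hr) (1 : ℂ)
  have h1 : {z : ℂ | z ^ r = 1}.Finite := by
    refine ((Polynomial.X ^ r - 1 : Polynomial ℂ).roots.toFinset.finite_toSet).subset ?_
    intro z hz
    have hz' : z ^ r = 1 := hz
    simp only [Finset.mem_coe, Multiset.mem_toFinset]
    rw [Polynomial.mem_roots h0]
    simp [hz']
  exact (Set.finite_singleton (0 : ℂ)).union h1

theorem st (r : ℕ) (σ : ℂ ≃+* ℂ) (z : ℂ) (hz : z ∈ {z : ℂ | z = 0 ∨ z ^ r = 1}) :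
    σ z ∈ {z : ℂ | z = 0 ∨ z ^ r = 1} := by
  rcases hz with h | h
  · left; rw [h, map_zero]
  · right; rw [← map_pow, h, map_one]

end Y_FEC

theorem ty_FEC : Sy_FEC := by
  intro A B e r hr he
  have hm : ∀ x, e x ∈ {z : ℂ | z = 0 ∨ z ^ r = 1} := by
    intro x
    by_cases h : e x = 0
    · exact Or.inl h
    · exact Or.inr (he x h)
  constructor
  · have hf : Finite {z : ℂ | z = 0 ∨ z ^ r = 1} := (Y_FEC.fin r hr).to_subtype
    refine (Set.finite_range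
      (fun (f : {z : ℂ | z = 0 ∨ z ^ r = 1} → {z : ℂ | z = 0 ∨ z ^ r = 1}) (x : OO A B) =>
        (f ⟨e x, hm x⟩ : ℂ))).subset ?_
    rintro e' ⟨σ, rfl⟩
    exact ⟨fun z => ⟨σ z, Y_FEC.st r σ z z.2⟩, rfl⟩
  · refine (Y_FEC.fin r hr).subset ?_
    rintro z ⟨σ, x, rfl⟩
    exact Y_FEC.st r σ _ (hm x)

end Pool.Agent.MUXY
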