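import Pool.Agent.MUX.StYX

/-!
# MUX, section 9: conjugation of the symbols at finitely many pairs of cusps
-/

set_option autoImplicit false

namespace Pool.Agent.MUXY

open _root_.MU3 Pool.Agent.MU3A Pool.Agent.MU3B Pool.Agent.MUXU OnePoint
open Pool.Agent.MU3F (ex)
open Pool.Agent.MUXF (Sx_ALG Sx_IDL Sx_NIM Sx_QB Sx_SMB Sx_F4 qb sumB)

namespace Y_FIN

/-- the denominator of a cusp -/
noncomputable def dnm (x : OnePoint ℚ) : ℕ := x.elim 1 (fun r : ℚ => r.den)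

theorem dnm_ne (x : OnePoint ℚ) : dnm x ≠ 0 := by
  induction x using OnePoint.rec with
  | infty => exact one_ne_zero
  | coe r => exact r.den_ne_zero

theorem dn_of {m : ℕ} {x : OnePoint ℚ} (h : dnm x ∣ m) : Dn m x := by
  intro r hr
  subst hr
  exact h

/-- a common level -/
theorem level {A B : ℤ} (g : Ideal (OO A B)) (N : ℕ) (hN : N ≠ 0) (hNg : ((N : ℕ) : OO A B) ∈ g)
    (S : Finset (OnePoint ℚ × OnePoint ℚ)) :
    ∃ m : ℕ, m ≠ 0 ∧ ((m : ℕ) : OO A B) ∈ g ∧ ∀ q ∈ S, Dn m q.1 ∧ Dn m q.2 := by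
  refine ⟨N * ∏ q ∈ S, dnm q.1 * dnm q.2, ?_, ?_, ?_⟩
  · apply mul_ne_zero hN
    apply Finset.prod_ne_zero_iff.2
    intro q _
    exact mul_ne_zero (dnm_ne _) (dnm_ne _)
  · rw [Nat.cast_mul]
    exact Ideal.mul_mem_right _ _ hNg
  · intro q hq
    have h1 : dnm q.1 * dnm q.2 ∣ N * ∏ q ∈ S, dnm q.1 * dnm q.2 :=
      (Finset.dvd_prod_of_mem (fun q => dnm q.1 * dnm q.2) hq).trans (Dvd.intro_left _ rfl)
    exact ⟨dn_of ((Dvd.intro _ rfl).trans h1), dn_of ((Dvd.intro_left _ rfl).trans h1)⟩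

end Y_FIN

open Y_FIN in
theorem ty_FIN (h2 : Sx_IDL) (h3 : Sx_NIM) (h4 : Sy_RAT) (h5 : Sy_EXI) : Sy_FIN := by
  intro A B hQ hT n ι R g e hg hg1 he hcop σ hσ i S
  obtain ⟨m, hm, hmg, hS⟩ := level g (MUXF.nI g) (h2 A B (cqF hQ) g hg).1
    ((h3 A B (cqF hQ)).2.2.1 g hg).2.2.2 S
  obtain ⟨j, a, mu, hact, hz⟩ := h5 A B hQ hT n ι R σ hσ m hm i
  obtain ⟨C, hC, hx, hxy⟩ := h4 A B (cqF hQ) σ m a (R.b i) (R.b j) (R.L i) (R.L j) (R.om i)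
    (R.om j) mu (liF (R.nl i).toIsLI) (liF (R.nl j).toIsLI) hact hz g e (eiF he) hg1 hm hmg
    (hcop i) (hcop j)
  exact ⟨j, C, hact.cj, hC, hx, fun q hq => hxy q.1 q.2 (hS q hq).1 (hS q hq).2⟩

end Pool.Agent.MUXY
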