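import Pool.Agent.MUX.StYX

/-!
# MUX, section 9 of the paper, module IDF (helper83): the image of the map `x ↦ (mu om / om') x`
-/

set_option autoImplicit false

namespace Pool.Agent.MUXY

open _root_.MU3 Pool.Agent.MU3A Pool.Agent.MU3B Pool.Agent.MUXU OnePoint
open Pool.Agent.MU3F (ex)
open Pool.Agent.MUXF (Sx_ALG Sx_IDL Sx_NIM Sx_QB Sx_SMB Sx_F4 qb sumB)

noncomputable section

namespace IdfY

variable {A B : ℤ}

theorem emb_inj (hz : ∀ x : OO A B, emb x = 0 ↔ x = 0)
    (hadd : ∀ x y : OO A B, emb (x + y) = emb x + emb y) {x y : OO A B} (h : emb x = emb y) :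
    x = y := by
  have h1 : emb ((x - y) + y) = emb (x - y) + emb y := hadd _ _
  rw [sub_add_cancel, h] at h1
  have h2 : emb (x - y) = 0 := by
    have : emb (x - y) + emb y = 0 + emb y := by rw [← h1, zero_add]
    exact add_right_cancel this
  exact sub_eq_zero.1 ((hz _).1 h2)

theorem two_mul_ne_one (y : OO A B) : y + y ≠ 1 := by
  intro h
  have h1 := congrArg QuadraticAlgebra.re h
  rw [QuadraticAlgebra.re_add, QuadraticAlgebra.re_one] at h1
  omega

end IdfY

open IdfY in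
theorem ty_IDF (h1 : Sx_ALG) (h2 : Sx_IDL) (h3 : Sx_NIM) : Sy_IDF := by
  intro A B hCQ σ m a b c L L' om om' mu f hL hL' hA hf
  obtain ⟨hmul, hz, hint, -, hdom⟩ := h1 A B hCQ
  have : IsDomain (OO A B) := hdom
  have hinj : ∀ x y : OO A B, emb x = emb y → x = y := fun x y =>
    emb_inj (fun x => (hz x).1) (fun x y => (hmul x y).2.1)
  have hem : ∀ x y : OO A B, emb (x * y) = emb x * emb y := fun x y => (hmul x y).1
  have hea : ∀ x y : OO A B, emb (x + y) = emb x + emb y := fun x y => (hmul x y).2.1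
  have hnat : ∀ n : ℕ, emb ((n : ℕ) : OO A B) = (n : ℂ) := by
    intro n
    have := (hint (n : ℤ)).1
    rw [Int.cast_natCast, Int.cast_natCast] at this
    exact this
  have hom' := hL'.om_ne
  have hom := hL.om_ne
  -- (0)
  have ha : a ≠ ⊥ := by
    intro h0
    have h4 : mu * (om' / (2 * mu)) ∈ L'.lattice := by
      rw [hA.isq]
      intro x hx
      rw [h0, Ideal.mem_bot] at hx
      rw [hx, ((hz 0).1).2 rfl, zero_mul]
      exact L.lattice.zero_mem
    obtain ⟨y, hy, hyz⟩ := (hL'.mem _).1 h4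
    have h5 : om' * emb (y + y) = om' * emb (1 : OO A B) := by
      have h6 : emb (1 : OO A B) = 1 := by
        have := hnat 1
        rwa [Nat.cast_one, Nat.cast_one] at this
      rw [hea, h6, mul_add, ← hyz]
      field_simp [hA.ne]
      norm_num
    exact two_mul_ne_one y (hinj _ _ (mul_left_cancel₀ hom' h5))
  have hIa := h2 A B hCQ a ha
  have hIb := h2 A B hCQ b hL.b_ne
  obtain ⟨hN1, hN2, hN3, -⟩ := h3 A B hCQ
  have hNa : ((MUXF.nI a : ℕ) : OO A B) ≠ 0 := by
    intro h0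
    have := hnat (MUXF.nI a)
    rw [h0, ((hz 0).1).2 rfl] at this
    exact hIa.1 (by exact_mod_cast this.symm)
  have hNb : ((MUXF.nI b : ℕ) : OO A B) ≠ 0 := by
    intro h0
    have := hnat (MUXF.nI b)
    rw [h0, ((hz 0).1).2 rfl] at this
    exact hIb.1 (by exact_mod_cast this.symm)
  have hNaC : ((MUXF.nI a : ℕ) : ℂ) ≠ 0 := by exact_mod_cast hIa.1
  -- (1), (2)
  have hmem : ∀ y : OO A B, y ∈ a * c ↔ ∃ x ∈ b, f x = y := by
    intro y
    constructor
    · intro hy
      refine Submodule.mul_induction_on hy ?_ ?_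
      · intro α hα y hy
        have h4 : mu * (om' * emb y / mu) ∈ L'.lattice := by
          rw [mul_div_cancel₀ _ hA.ne]
          exact (hL'.mem _).2 ⟨y, hy, rfl⟩
        have h5 := (hA.isq _).1 h4 α hα
        obtain ⟨x, hx, hxz⟩ := (hL.mem _).1 h5
        refine ⟨x, hx, ?_⟩
        apply hinj
        apply mul_left_cancel₀ hom'
        rw [hf.eq x hx, hem]
        have h6 : mu * om * emb x = mu * (om * emb x) := by ring
        rw [h6, ← hxz]
        field_simp [hA.ne]
      · rintro x y ⟨x', hx', rfl⟩ ⟨y', hy', rfl⟩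
        exact ⟨x' + y', b.add_mem hx' hy', hf.add x' hx' y' hy'⟩
    · rintro ⟨x, hx, rfl⟩
      have key : ∀ s ∈ a * MUXF.cjI a, ∃ t ∈ a * c, ((MUXF.nI a : ℕ) : OO A B) * t = s * f x := by
        intro s hs
        refine Submodule.mul_induction_on hs ?_ ?_
        · intro α hα α' hα'
          have h4 : mu * (om * emb (α' * x) / (MUXF.nI a : ℕ)) ∈ L'.lattice := by
            rw [hA.isq]
            intro γ hγ
            have h5 : γ * α' ∈ a * MUXF.cjI a := Ideal.mul_mem_mul hγ hα'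
            rw [hIa.2, Ideal.mem_span_singleton] at h5
            obtain ⟨r, hr⟩ := h5
            refine (hL.mem _).2 ⟨r * x, b.mul_mem_left r hx, ?_⟩
            have h6 : emb γ * emb α' = (MUXF.nI a : ℕ) * emb r := by
              rw [← hem, hr, hem, hnat]
            rw [hem, hem]
            field_simp
            linear_combination (emb x) * h6
          obtain ⟨y, hy, hyz⟩ := (hL'.mem _).1 h4
          refine ⟨α * y, Ideal.mul_mem_mul hα hy, ?_⟩
          have h7 : ((MUXF.nI a : ℕ) : OO A B) * y = α' * f x := by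
            apply hinj
            apply mul_left_cancel₀ hom'
            rw [hem, hem, hnat]
            have h8 : om' * ((MUXF.nI a : ℕ) * emb y) = (MUXF.nI a : ℕ) * (om' * emb y) := by
              ring
            have h9 : om' * (emb α' * emb (f x)) = emb α' * (om' * emb (f x)) := by ring
            rw [h8, h9, ← hyz, hf.eq x hx, hem]
            field_simp
          calc ((MUXF.nI a : ℕ) : OO A B) * (α * y) = α * (((MUXF.nI a : ℕ) : OO A B) * y) := by
                ring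
            _ = α * α' * f x := by rw [h7]; ring
        · rintro s s' ⟨t, ht, hts⟩ ⟨t', ht', hts'⟩
          exact ⟨t + t', (a * c).add_mem ht ht', by rw [mul_add, hts, hts', add_mul]⟩
      obtain ⟨t, ht, hts⟩ := key ((MUXF.nI a : ℕ) : OO A B) (by
        rw [hIa.2]
        exact Ideal.mem_span_singleton_self _)
      rw [← mul_left_cancel₀ hNa hts]
      exact ht
  -- (3)
  have hnbm : ((MUXF.nI b : ℕ) : OO A B) ∈ b := (hN3 b hL.b_ne).2.2.2
  have hsp : MUXF.sp (f ((MUXF.nI b : ℕ) : OO A B)) * b =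
      MUXF.sp ((MUXF.nI b : ℕ) : OO A B) * (a * c) := by
    apply le_antisymm
    · rw [Ideal.span_singleton_mul_le_iff]
      intro x hx
      rw [← hf.nb x hx, Ideal.mem_span_singleton_mul]
      exact ⟨f x, (hmem _).2 ⟨x, hx, rfl⟩, rfl⟩
    · rw [Ideal.span_singleton_mul_le_iff]
      intro y hy
      obtain ⟨x, hx, rfl⟩ := (hmem y).1 hy
      rw [hf.nb x hx, Ideal.mem_span_singleton_mul]
      exact ⟨x, hx, rfl⟩
  refine ⟨ha, hmem, hsp, ?_⟩
  -- (4)
  set u : OO A B := f ((MUXF.nI b : ℕ) : OO A B) with hu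
  have hac := (hN1 a c ha hL'.b_ne)
  have hspb : MUXF.sp ((MUXF.nI b : ℕ) : OO A B) ≠ ⊥ := by
    intro h0
    exact hNb (Ideal.span_singleton_eq_bot.1 h0)
  have hr := hN1 (MUXF.sp ((MUXF.nI b : ℕ) : OO A B)) (a * c) hspb hac.2
  have hspu : MUXF.sp u ≠ ⊥ := by
    intro h0
    rw [h0, Ideal.bot_mul] at hsp
    exact hr.2 hsp.symm
  have hu0 : u ≠ 0 := by
    intro h0
    apply hspu
    rw [h0]
    exact Ideal.span_singleton_eq_bot.2 rfl
  have hl := hN1 (MUXF.sp u) b hspu hL.b_ne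
  have h5 : MUXF.nI (MUXF.sp u) = (nm u).natAbs := by
    rcases hN2 u with h | h
    · exact h
    · exact absurd h hu0
  have h6 : MUXF.nI (MUXF.sp ((MUXF.nI b : ℕ) : OO A B)) =
      (nm ((MUXF.nI b : ℕ) : OO A B)).natAbs := by
    rcases hN2 ((MUXF.nI b : ℕ) : OO A B) with h | h
    · exact h
    · exact absurd h hNb
  have h7 : nm ((MUXF.nI b : ℕ) : OO A B) = (MUXF.nI b : ℤ) ^ 2 := by
    have := (hint (MUXF.nI b : ℤ)).2
    rwa [Int.cast_natCast] at this
  have h8 : ((MUXF.nI (MUXF.sp u) : ℕ) : ℤ) = nm u := by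
    rw [h5, Int.natAbs_of_nonneg (hz u).2.2.1]
  have h9 : ((MUXF.nI (MUXF.sp ((MUXF.nI b : ℕ) : OO A B)) : ℕ) : ℤ) = (MUXF.nI b : ℤ) ^ 2 := by
    rw [h6, Int.natAbs_of_nonneg (hz _).2.2.1, h7]
  have h10 : MUXF.nI (MUXF.sp u) * MUXF.nI b =
      MUXF.nI (MUXF.sp ((MUXF.nI b : ℕ) : OO A B)) * (MUXF.nI a * MUXF.nI c) := by
    rw [← hl.1, ← hac.1, ← hr.1, hsp]
  have h11 : nm u * MUXF.nI b = (MUXF.nI b : ℤ) ^ 2 * ((MUXF.nI a : ℤ) * MUXF.nI c) := by
    rw [← h8, ← h9]
    exact_mod_cast h10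
  have h12 : (MUXF.nI b : ℤ) ≠ 0 := by exact_mod_cast hIb.1
  apply mul_right_cancel₀ h12
  rw [h11]
  ring

end

end Pool.Agent.MUXY
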