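import Pool.Agent.MUX.StYX

/-!
# MUX, section 9: module MAP (the map `x ↦ (mu om / om') x` from `b` to `c`)
-/

set_option autoImplicit false

namespace Pool.Agent.MUXY

open _root_.MU3 Pool.Agent.MU3A Pool.Agent.MU3B Pool.Agent.MUXU OnePoint
open Pool.Agent.MU3F (ex)
open Pool.Agent.MUXF (Sx_ALG Sx_IDL Sx_NIM Sx_QB Sx_SMB Sx_F4 qb sumB)

noncomputable section

theorem ty_MAP (h1 : Sx_ALG) (h2 : Sx_NIM) : Sy_MAP := by
  intro A B hC σ m a b c L L' om om' mu hb hc hact
  obtain ⟨a1, a2, a3, -, -⟩ := h1 A B hC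
  obtain ⟨-, -, n3, -⟩ := h2 A B hC
  have hmul : ∀ x y : OO A B, emb (x * y) = emb x * emb y := fun x y => (a1 x y).1
  have hadd : ∀ x y : OO A B, emb (x + y) = emb x + emb y := fun x y => (a1 x y).2.1
  have hsub : ∀ x y : OO A B, emb (x - y) = emb x - emb y := by
    intro x y
    have h := hadd (x - y) y
    rw [sub_add_cancel] at h
    rw [h]
    ring
  have hinj : ∀ u v : OO A B, om' * emb u = om' * emb v → u = v := by
    intro u v h
    have e1 : emb u = emb v := mul_left_cancel₀ hc.om_ne h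
    have e2 : emb (u - v) = 0 := by rw [hsub, e1, sub_self]
    exact sub_eq_zero.1 ((a2 (u - v)).1.1 e2)
  have hex : ∀ x ∈ b, ∃ y : OO A B, y ∈ c ∧ om' * emb y = mu * om * emb x := by
    intro x hx
    have hm : mu * (om * emb x) ∈ L'.lattice := by
      rw [hact.isq]
      intro y hy
      rw [hb.mem]
      refine ⟨y * x, b.mul_mem_left y hx, ?_⟩
      rw [hmul]
      ring
    obtain ⟨y, hy, e⟩ := (hc.mem _).1 hm
    exact ⟨y, hy, by rw [← e]; ring⟩
  choose! f hf using hex
  refine ⟨f, fun x hx => (hf x hx).1, fun x hx => (hf x hx).2, ?_, ?_, ?_, ?_⟩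
  · intro x hx y hy
    apply hinj
    rw [(hf _ (b.add_mem hx hy)).2, hadd, hadd, mul_add, mul_add, (hf x hx).2, (hf y hy).2]
  · intro x hx y hy
    apply hinj
    rw [(hf _ (b.sub_mem hx hy)).2, hsub, hsub, mul_sub, mul_sub, (hf x hx).2, (hf y hy).2]
  · intro x hx r
    apply hinj
    rw [(hf _ (b.mul_mem_left r hx)).2, hmul, hmul]
    have e := (hf x hx).2
    linear_combination (-(emb r)) * e
  · intro x hx
    have hn := (n3 b hb.b_ne).2.2.2
    apply hinj
    rw [hmul, hmul]
    have e := (hf x hx).2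
    have e' := (hf _ hn).2
    linear_combination (emb ((MUXF.nI b : ℕ) : OO A B)) * e - (emb x) * e'

end

end Pool.Agent.MUXY
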