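import Pool.Agent.MUX.StYX
import Pool.Agent.MU3.BAll
import Pool.Agent.MU3.A_SCP

/-!
# MUX, section 9, module MUU: the multiplier is unique up to sign
-/

set_option autoImplicit false

namespace Pool.Agent.MUXY

open _root_.MU3 Pool.Agent.MU3A Pool.Agent.MU3B Pool.Agent.MUXU OnePoint
open Pool.Agent.MU3F (ex)
open Pool.Agent.MUXF (Sx_ALG Sx_IDL Sx_NIM Sx_QB Sx_SMB Sx_F4 qb sumB)

noncomputable section

namespace Muu

/-- a scaling of a lattice with `g₂ = -18 g₃` onto itself is `± 1` -/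
lemma scale (L : PeriodPair) (hL : L.g₂ = -18 * L.g₃) (s : ℂ) (hs : s ≠ 0)
    (h : ∀ z : ℂ, z ∈ L.lattice ↔ s * z ∈ L.lattice) : s = 1 ∨ s = -1 := by
  obtain ⟨-, -, h2, h3⟩ := Pool.Agent.MU3A.ta_SCP L L s hs h
  have hd := (Pool.Agent.MU3B.b_DSC L).1
  have h30 : L.g₃ ≠ 0 := by
    intro h0
    apply hd
    rw [hL, h0]
    ring
  have h20 : L.g₂ ≠ 0 := by
    rw [hL]
    exact mul_ne_zero (by norm_num) h30
  have e4 : s ^ 4 = 1 := by
    rw [eq_div_iff (pow_ne_zero 4 hs)] at h2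
    exact mul_left_cancel₀ h20 (h2.trans (mul_one _).symm)
  have e6 : s ^ 6 = 1 := by
    rw [eq_div_iff (pow_ne_zero 6 hs)] at h3
    exact mul_left_cancel₀ h30 (h3.trans (mul_one _).symm)
  have e2 : s ^ 2 = 1 := by
    have h4 : s ^ 6 = s ^ 4 * s ^ 2 := by ring
    rw [e6, e4, one_mul] at h4
    exact h4.symm
  have e5 : (s - 1) * (s + 1) = 0 := by linear_combination e2
  rcases mul_eq_zero.1 e5 with e | e
  · exact Or.inl (sub_eq_zero.1 e)
  · exact Or.inr (eq_neg_of_add_eq_zero_left e)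

end Muu

/-- MUU. -/
theorem ty_MUU : Sy_MUU := by
  intro A B a L L' mu mu' hL h h'
  obtain ⟨h0, h1⟩ := h
  obtain ⟨h0', h1'⟩ := h'
  have hs : mu' / mu ≠ 0 := div_ne_zero h0' h0
  have key : ∀ z : ℂ, z ∈ L'.lattice ↔ mu' / mu * z ∈ L'.lattice := by
    intro z
    have e1 : mu * (z / mu) = z := mul_div_cancel₀ z h0
    have e2 : mu' * (z / mu) = mu' / mu * z := by ring
    rw [← e2, h1', ← h1, e1]
  rcases Muu.scale L' hL _ hs key with e | e
  · left
    rw [div_eq_iff h0, one_mul] at e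
    exact e
  · right
    rw [div_eq_iff h0] at e
    rw [e]
    ring

end

end Pool.Agent.MUXY
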