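import Pool.Agent.MUX.StYX

/-!
# MUX, module Y_PR4: the terms of F4 are periodic
-/

set_option autoImplicit false

namespace Pool.Agent.MUXY

open _root_.MU3 Pool.Agent.MU3A Pool.Agent.MU3B Pool.Agent.MUXU OnePoint
open Pool.Agent.MU3F (ex)
open Pool.Agent.MUXF (Sx_ALG Sx_IDL Sx_NIM Sx_QB Sx_SMB Sx_F4 qb sumB)

lemma pr4_ex_add_int (r : ℚ) (n : ℤ) : ex (r + n) = ex r := by
  unfold ex
  push_cast
  rw [mul_add, Complex.exp_add]
  have h1 : Complex.exp (2 * Real.pi * Complex.I * n) = 1 := by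
    rw [show (2 * Real.pi * Complex.I * n : ℂ) = n * (2 * Real.pi * Complex.I) by ring]
    exact Complex.exp_int_mul_two_pi_mul_I n
  rw [h1, mul_one]

theorem ty_PR4 (h1 : Sx_ALG) (h2 : Sx_QB) : Sy_PR4 := by
  intro A B hc b L om hL g e he m M hm hmg hM hMm β x hx y hy
  obtain ⟨hA1, _, hA3, _, _⟩ := h1 A B hc
  obtain ⟨_, hq, _⟩ := h2 A B hc b hL.b_ne
  have e1 : e (x + m * y) = e x := by
    apply he.per
    have : x + (m : OO A B) * y - x = y * (m : OO A B) := by ring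
    rw [this]
    exact g.mul_mem_left _ hmg
  obtain ⟨k, hk⟩ := hq x hx y hy (m : ℤ)
  rw [Int.cast_natCast] at hk
  have e2 : ex (β * qb b (x + m * y) / M) = ex (β * qb b x / M) := by
    obtain ⟨d, hd⟩ := hMm
    have hM' : (M : ℚ) ≠ 0 := by exact_mod_cast hM
    have h3 : (β * qb b (x + m * y) / M : ℚ) = β * qb b x / M + ((β * d * k : ℤ) : ℚ) := by
      rw [hk, hd]
      push_cast
      field_simp
    rw [h3, pr4_ex_add_int]
  have e3 : om * emb (x + (m : OO A B) * y) / m = om * emb x / m + om * emb y := by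
    have h4 : emb ((m : ℕ) : OO A B) = (m : ℂ) := by
      have h5 := (hA3 (m : ℤ)).1
      rw [Int.cast_natCast] at h5
      rw [h5]
      push_cast
      rfl
    rw [(hA1 _ _).2.1, (hA1 _ _).1, h4]
    have hm' : (m : ℂ) ≠ 0 := by exact_mod_cast hm
    field_simp
  have h6 : om * emb y ∈ L.lattice := (hL.mem _).2 ⟨y, hy, rfl⟩
  rw [e1, e2, e3, (b_PER L).1 _ _ h6]

end Pool.Agent.MUXY
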