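import Pool.Agent.MUX.StYX

/-!
# MUX, section 9: the form `qb` and the map `f`
-/

set_option autoImplicit false

namespace Pool.Agent.MUXY

open _root_.MU3 Pool.Agent.MU3A Pool.Agent.MU3B Pool.Agent.MUXU OnePoint
open Pool.Agent.MU3F (ex)
open Pool.Agent.MUXF (Sx_ALG Sx_IDL Sx_NIM Sx_QB Sx_SMB Sx_F4 qb sumB)

theorem ty_QBF (h1 : Sx_ALG) (h2 : Sx_IDL) (h4 : Sx_QB) (h5 : Sy_IDF) : Sy_QBF := by
  intro A B hc σ m a b c L L' om om' mu f hb hcL hA hf x hx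
  obtain ⟨hmul, -, hint, -, -⟩ := h1 A B hc
  obtain ⟨-, -, -, hnm⟩ := h5 A B hc σ m a b c L L' om om' mu f hb hcL hA hf
  have hfx : f x ∈ c := hf.mem x hx
  have hb0 : ((MUXF.nI b : ℕ) : ℤ) ≠ 0 := by exact_mod_cast (h2 A B hc b hb.b_ne).1
  have hc0 : ((MUXF.nI c : ℕ) : ℤ) ≠ 0 := by exact_mod_cast (h2 A B hc c hcL.b_ne).1
  have hqb : nm x = MUXF.nI b * qb b x := ((h4 A B hc b hb.b_ne).1 x hx).1
  have hqc : nm (f x) = MUXF.nI c * qb c (f x) := ((h4 A B hc c hcL.b_ne).1 (f x) hfx).1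
  have hnb := hf.nb x hx
  have h6 : nm (((MUXF.nI b : ℕ) : OO A B)) = (MUXF.nI b : ℤ) ^ 2 := by
    have h7 := (hint ((MUXF.nI b : ℕ) : ℤ)).2
    rw [← h7]
    congr 1
  have h8 : nm (((MUXF.nI b : ℕ) : OO A B)) * nm (f x) =
      nm (f ((MUXF.nI b : ℕ) : OO A B)) * nm x := by
    rw [← (hmul _ _).2.2, ← (hmul _ _).2.2, hnb]
  rw [h6, hnm, hqb, hqc] at h8
  have h9 : ((MUXF.nI b : ℕ) : ℤ) ^ 2 * ((MUXF.nI c : ℕ) : ℤ) ≠ 0 :=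
    mul_ne_zero (pow_ne_zero _ hb0) hc0
  have h10 : ((MUXF.nI b : ℕ) : ℤ) ^ 2 * ((MUXF.nI c : ℕ) : ℤ) * qb c (f x) =
      ((MUXF.nI b : ℕ) : ℤ) ^ 2 * ((MUXF.nI c : ℕ) : ℤ) * (MUXF.nI a * qb b x) := by
    linear_combination h8
  exact mul_left_cancel₀ h9 h10

end Pool.Agent.MUXY
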