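import Pool.Agent.MUX.StYX

/-!
# MUX, section 9: module RA1, conjugation of the values `PhiI b e ∞ (β / M)`
-/

set_option autoImplicit false

namespace Pool.Agent.MUXY

open _root_.MU3 Pool.Agent.MU3A Pool.Agent.MU3B Pool.Agent.MUXU OnePoint
open Pool.Agent.MU3F (ex)
open Pool.Agent.MUXF (Sx_ALG Sx_IDL Sx_NIM Sx_QB Sx_SMB Sx_F4 qb sumB)

noncomputable section

private lemma ra1_phi (h4 : Sx_F4) {A B : ℤ} (hc : MUXF.CQ A B) {b : Ideal (OO A B)}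
    {L : PeriodPair} {om : ℂ} (hL : MUXF.IsLI b L om) {g : Ideal (OO A B)} {e : OO A B → ℂ}
    (he : MUXF.IsEI g e) {m M : ℕ} (hm : m ≠ 0) (hmg : ((m : ℕ) : OO A B) ∈ g) (hM : M ≠ 0)
    (hMm : M ∣ m) (β : ℤ) :
    MUXF.PhiI b e ∞ (((β / M : ℚ) : ℚ) : OnePoint ℚ) / om = (MUXF.nI b : ℂ) / (2 * m) *
      sumB b m (fun x => e x * ex (β * qb b x / M) * ee L (om * emb x / m)) := by
  have h1 := (h4 A B hc b L om hL g e he m M hm hmg hM hMm β).2
  have h2 : MUXF.PhiI b e ∞ (((β / M : ℚ) : ℚ) : OnePoint ℚ) = 0 - MUXF.IvI b e (β / M : ℚ) := rfl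
  have hom := hL.om_ne
  have hm' : (m : ℂ) ≠ 0 := by exact_mod_cast hm
  rw [h2, h1]
  field_simp
  ring

private lemma ra1_map {A B : ℤ} (b : Ideal (OO A B)) (m : ℕ)
    (hfin : Finite (b ⧸ (nsmulAddMonoidHom (α := b) m).range)) (σ : ℂ ≃+* ℂ) (F : OO A B → ℂ) :
    σ (sumB b m F) = sumB b m (fun x => σ (F x)) := by
  have := Fintype.ofFinite (b ⧸ (nsmulAddMonoidHom (α := b) m).range)
  unfold sumB
  rw [finsum_eq_sum_of_fintype, finsum_eq_sum_of_fintype, map_sum]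

theorem ty_RA1 (hSMB : Sx_SMB) (h4 : Sx_F4) (hBIJ : Sy_BIJ) (hSUM : Sy_SUM) (hTER : Sy_TER)
    (hPR4 : Sy_PR4) (hEIC : Sy_EIC) : Sy_RA1 := by
  intro A B hc σ m a b c L L' om om' mu f hL hL' hact hf hζ g e he hg hm hmg M hM hMm β
  have he' : MUXF.IsEI g (fun x => σ (e x)) := hEIC A B σ g e he
  have e1 := ra1_phi h4 hc hL he hm hmg hM hMm β
  have e2 := ra1_phi h4 hc hL' he' hm hmg hM hMm β
  obtain ⟨hfin, hmul, -, -, -, hcon⟩ := hSMB A B hc b m hL.b_ne hm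
  obtain ⟨hb1, hb2⟩ := hBIJ A B hc σ m a b c L L' om om' mu f hL hL' hact hf
  have hs := hSUM A B hc b c m f hL.b_ne hL'.b_ne hm hf.mem hf.add hb1 hb2
    (fun y => σ (e y) * ex (β * qb c y / M) * ee L' (om' * emb y / m))
    (hPR4 A B hc c L' om' hL' g (fun x => σ (e x)) he' m M hm hmg hM hMm β)
  have ht := hTER A B hc σ m a b c L L' om om' mu f hL hL' hact hf hζ g e he hg hm hmg M hM hMm β
  have e3 : σ (e (f ((MUXF.nI b : ℕ) : OO A B))) *
      σ (sumB b m (fun x => e x * ex (β * qb b x / M) * ee L (om * emb x / m))) =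
      σ (e ((MUXF.nI b : ℕ) : OO A B)) *
        sumB c m (fun y => σ (e y) * ex (β * qb c y / M) * ee L' (om' * emb y / m)) := by
    rw [ra1_map b m hfin, ← hmul, hs, ← hmul]
    exact hcon _ _ ht
  have hm' : (m : ℂ) ≠ 0 := by exact_mod_cast hm
  rw [e1, e2, map_mul]
  have e4 : σ ((MUXF.nI b : ℂ) / (2 * m)) = (MUXF.nI b : ℂ) / (2 * m) := by
    rw [map_div₀, map_mul, map_natCast, map_natCast, map_ofNat]
  rw [e4]
  linear_combination ((MUXF.nI c : ℂ) * ((MUXF.nI b : ℂ) / (2 * m))) * e3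

end

end Pool.Agent.MUXY
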