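import Pool.Agent.MUX.StYX

/-!
# MUX, section 9, module RAT: conjugation of the symbol of a theta series of an ideal
-/

set_option autoImplicit false

namespace Pool.Agent.MUXY

open _root_.MU3 Pool.Agent.MU3A Pool.Agent.MU3B Pool.Agent.MUXU OnePoint
open Pool.Agent.MU3F (ex)
open Pool.Agent.MUXF (Sx_ALG Sx_IDL Sx_NIM Sx_QB Sx_SMB Sx_F4 qb sumB)

noncomputable section

theorem RAT_phi_infty {A B : ℤ} (b : Ideal (OO A B)) (e : OO A B → ℂ) :
    MUXF.PhiI b e ∞ ∞ = 0 := by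
  unfold MUXF.PhiI
  exact sub_self _

theorem RAT_phi_sub {A B : ℤ} (b : Ideal (OO A B)) (e : OO A B → ℂ) (x y : OnePoint ℚ) :
    MUXF.PhiI b e x y = MUXF.PhiI b e ∞ y - MUXF.PhiI b e ∞ x := by
  unfold MUXF.PhiI
  ring

theorem ty_RAT (h2 : Sx_IDL) (h4 : Sy_MAP) (h5 : Sy_IDF) (h6 : Sy_UV) (h7 : Sy_RA1) :
    Sy_RAT := by
  intro A B hq σ m a b c L L' om om' mu hb hc hN hz g e he hg hm hmg hcb hcc
  obtain ⟨f, hf⟩ := h4 A B hq σ m a b c L L' om om' mu hb hc hN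
  obtain ⟨-, -, i3, -⟩ := h5 A B hq σ m a b c L L' om om' mu f hb hc hN hf
  have hco := h6 A B hq m a b c g _ hb.b_ne hc.b_ne hmg hN.cop hcb hcc i3
  have hu : e (f ((MUXF.nI b : ℕ) : OO A B)) ≠ 0 := (he.supp _).2 hco
  have hNb : e ((MUXF.nI b : ℕ) : OO A B) ≠ 0 := (he.supp _).2 hcb
  have n1 : (MUXF.nI b : ℂ) ≠ 0 := by exact_mod_cast (h2 A B hq b hb.b_ne).1
  have n2 : (MUXF.nI c : ℂ) ≠ 0 := by exact_mod_cast (h2 A B hq c hc.b_ne).1
  have su : σ (e (f ((MUXF.nI b : ℕ) : OO A B))) ≠ 0 := (map_ne_zero σ).2 hu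
  have sb : σ (e ((MUXF.nI b : ℕ) : OO A B)) ≠ 0 := (map_ne_zero σ).2 hNb
  set C : ℂ := MUXF.nI b * σ (e ((MUXF.nI b : ℕ) : OO A B)) /
    (MUXF.nI c * σ (e (f ((MUXF.nI b : ℕ) : OO A B)))) with hC
  have key : ∀ x : OnePoint ℚ, Dn m x → σ (MUXF.PhiI b e ∞ x / om) =
      C * (MUXF.PhiI c (fun x => σ (e x)) ∞ x / om') := by
    intro x hx
    induction x using OnePoint.rec with
    | infty => rw [RAT_phi_infty, RAT_phi_infty, zero_div, map_zero, zero_div, mul_zero]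
    | coe r =>
      have h1 := h7 A B hq σ m a b c L L' om om' mu f hb hc hN hf hz g e he hg hm hmg r.den
        r.den_nz (hx r rfl) r.num
      rw [Rat.num_div_den] at h1
      rw [hC]
      rw [div_mul_eq_mul_div, eq_div_iff (mul_ne_zero n2 su)]
      rw [← h1]
      ring
  refine ⟨C, div_ne_zero (mul_ne_zero n1 sb) (mul_ne_zero n2 su), ⟨_, _, hNb, hu, hC⟩, ?_⟩
  intro x y hx hy
  rw [RAT_phi_sub b e x y, RAT_phi_sub c _ x y, sub_div, map_sub, key x hx, key y hy]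
  ring

end

end Pool.Agent.MUXY
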