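import Pool.Agent.MUX.StYX
import Pool.Agent.MU3.BAll
import Pool.Agent.MU3.A_SCP

/-!
# MUX, section 9, module SAM: normalised lattices of the same class are equal
-/

set_option autoImplicit false

namespace Pool.Agent.MUXY

open _root_.MU3 Pool.Agent.MU3A Pool.Agent.MU3B Pool.Agent.MUXU OnePoint
open Pool.Agent.MU3F (ex)
open Pool.Agent.MUXF (Sx_ALG Sx_IDL Sx_NIM Sx_QB Sx_SMB Sx_F4 qb sumB)

/-- normalised lattices of the same class are equal -/
theorem ty_SAM (h1 : Sx_ALG) : Sy_SAM := by
  intro A B hc b b' L L' om om' x y hL hL' hx hy hxy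
  obtain ⟨a1, a2, -, -, -⟩ := h1 A B (cqF hc)
  have emul : ∀ u v : OO A B, emb (u * v) = emb u * emb v := fun u v => (a1 u v).1
  have ex0 : emb x ≠ 0 := fun h => hx ((a2 x).1.1 h)
  have ey0 : emb y ≠ 0 := fun h => hy ((a2 y).1.1 h)
  have om0 := hL.om_ne
  have om0' := hL'.om_ne
  set s : ℂ := om * emb y / (emb x * om') with hs
  have hs0 : s ≠ 0 := div_ne_zero (mul_ne_zero om0 ey0) (mul_ne_zero ex0 om0')
  -- `z ∈ L'` iff `s z ∈ L`
  have key : ∀ z : ℂ, z ∈ L'.lattice ↔ s * z ∈ L.lattice := by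
    intro z
    rw [hL'.mem, hL.mem]
    constructor
    · rintro ⟨t', ht', rfl⟩
      have h2 : y * t' ∈ MUX.sp x * b := by
        rw [hxy]
        exact Ideal.mul_mem_mul (Ideal.mem_span_singleton_self y) ht'
      obtain ⟨t, ht, h3⟩ := Ideal.mem_span_singleton_mul.1 h2
      refine ⟨t, ht, ?_⟩
      have h4 : emb x * emb t = emb y * emb t' := by rw [← emul, ← emul, h3]
      rw [hs]
      field_simp
      linear_combination -h4
    · rintro ⟨t, ht, h2⟩
      have h3 : x * t ∈ MUX.sp y * b' := by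
        rw [← hxy]
        exact Ideal.mul_mem_mul (Ideal.mem_span_singleton_self x) ht
      obtain ⟨t', ht', h4⟩ := Ideal.mem_span_singleton_mul.1 h3
      refine ⟨t', ht', ?_⟩
      have h5 : emb y * emb t' = emb x * emb t := by rw [← emul, ← emul, h4]
      have h6 : om * emb y * z = om * (emb x * om') * emb t := by
        have h7 : s * (emb x * om') = om * emb y := by
          rw [hs]
          field_simp
        calc om * emb y * z = s * (emb x * om') * z := by rw [h7]
          _ = s * z * (emb x * om') := by ring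
          _ = om * emb t * (emb x * om') := by rw [h2]
          _ = om * (emb x * om') * emb t := by ring
      have h8 : (om * emb y) * (z - om' * emb t') = 0 := by
        linear_combination h6 - om * om' * h5
      rcases mul_eq_zero.1 h8 with h9 | h9
      · exact absurd h9 (mul_ne_zero om0 ey0)
      · exact sub_eq_zero.1 h9
  obtain ⟨-, -, g2, g3⟩ := ta_SCP L' L s hs0 key
  have n1 := hL.nrm
  have n2 := hL'.nrm
  have hd := (b_DSC L').1
  have hg2 : L'.g₂ ≠ 0 := by
    intro h0
    rw [h0] at n2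
    have h3 : L'.g₃ = 0 := by
      have : (-18 : ℂ) * L'.g₃ = 0 := n2.symm
      rcases mul_eq_zero.1 this with h | h
      · norm_num at h
      · exact h
    apply hd
    rw [h0, h3]
    norm_num
  have hss : s ^ 2 = 1 := by
    rw [g2, g3] at n1
    have h4 : L'.g₂ * s ^ 2 = L'.g₂ := by
      have h5 : L'.g₂ / s ^ 4 * s ^ 6 = -18 * (L'.g₃ / s ^ 6) * s ^ 6 := by rw [n1]
      have h6 : L'.g₂ / s ^ 4 * s ^ 6 = L'.g₂ * s ^ 2 := by
        field_simp
      have h7 : -18 * (L'.g₃ / s ^ 6) * s ^ 6 = -18 * L'.g₃ := by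
        field_simp
      rw [← h6, h5, h7, ← n2]
    exact mul_left_cancel₀ hg2 (by rw [h4, mul_one])
  have hpm : s = 1 ∨ s = -1 := sam_pm hss
  intro z
  rw [key z]
  rcases hpm with h | h
  · rw [h, one_mul]
  · rw [h, neg_one_mul, neg_mem_iff]
where
  sam_pm {s : ℂ} (h : s ^ 2 = 1) : s = 1 ∨ s = -1 := by
    have h1 : (s - 1) * (s + 1) = 0 := by linear_combination h
    rcases mul_eq_zero.1 h1 with h2 | h2
    · exact Or.inl (sub_eq_zero.1 h2)
    · exact Or.inr (eq_neg_of_add_eq_zero_left h2)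

end Pool.Agent.MUXY
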