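import Pool.Agent.MUX.StYX

/-!
# MUX, section 9, module SUM: change of variables in `sumB`
-/

set_option autoImplicit false

namespace Pool.Agent.MUXY

open _root_.MU3 Pool.Agent.MU3A Pool.Agent.MU3B Pool.Agent.MUXU OnePoint
open Pool.Agent.MU3F (ex)
open Pool.Agent.MUXF (Sx_ALG Sx_IDL Sx_NIM Sx_QB Sx_SMB Sx_F4 qb sumB)

theorem ty_SUM (h1 : Sx_SMB) : Sy_SUM := by
  intro A B hcq b c m f hb hc hm hf hadd hinj hsurj F hF
  let φ : b →+ c := AddMonoidHom.mk' (fun x => (⟨f x, hf x x.2⟩ : c))
    (fun x y => Subtype.ext (hadd x x.2 y y.2))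
  have hφ : ∀ x : b, ((φ x : c) : OO A B) = f x := fun _ => rfl
  have hle : (nsmulAddMonoidHom (α := b) m).range ≤
      ((nsmulAddMonoidHom (α := c) m).range).comap φ := by
    rintro x ⟨s, rfl⟩
    exact ⟨φ s, (map_nsmul φ m s).symm⟩
  let ψ : (b ⧸ (nsmulAddMonoidHom (α := b) m).range) →+
      (c ⧸ (nsmulAddMonoidHom (α := c) m).range) :=
    QuotientAddGroup.map _ _ φ hle
  have hψ : ∀ x : b, ψ (QuotientAddGroup.mk x) = QuotientAddGroup.mk (φ x) := fun _ => rfl
  have hbij : Function.Bijective ψ := by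
    constructor
    · intro q q' hqq
      induction q using QuotientAddGroup.induction_on with
      | H x =>
        induction q' using QuotientAddGroup.induction_on with
        | H y =>
          rw [hψ, hψ] at hqq
          obtain ⟨t, ht⟩ := (QuotientAddGroup.eq).1 hqq
          have ht' : ((m • t : c) : OO A B) = -f x + f y := congrArg Subtype.val ht
          have ht2 : f x - f y = (m : OO A B) * ((-t : c) : OO A B) := by
            have e1 : ((m • t : c) : OO A B) = (m : OO A B) * (t : OO A B) := by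
              rw [Submodule.coe_smul_of_tower, nsmul_eq_mul]
            have e2 : ((-t : c) : OO A B) = -(t : OO A B) := rfl
            rw [e1] at ht'
            rw [e2, mul_neg, ht']
            ring
          obtain ⟨s, hs, hxy⟩ := hinj x x.2 y y.2 ⟨_, (-t).2, ht2⟩
          apply (QuotientAddGroup.eq).2
          refine ⟨⟨-s, neg_mem hs⟩, Subtype.ext ?_⟩
          have e1 : ((m • (⟨-s, neg_mem hs⟩ : b) : b) : OO A B) = (m : OO A B) * (-s) := by
            rw [Submodule.coe_smul_of_tower, nsmul_eq_mul]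
          show ((m • (⟨-s, neg_mem hs⟩ : b) : b) : OO A B) = -(x : OO A B) + (y : OO A B)
          rw [e1, mul_neg, ← hxy]
          ring
    · intro q
      induction q using QuotientAddGroup.induction_on with
      | H y =>
        obtain ⟨x, hx, t, ht, hy⟩ := hsurj y y.2
        refine ⟨QuotientAddGroup.mk (⟨x, hx⟩ : b), ?_⟩
        rw [hψ]
        apply (QuotientAddGroup.eq).2
        refine ⟨⟨t, ht⟩, Subtype.ext ?_⟩
        have e1 : ((m • (⟨t, ht⟩ : c) : c) : OO A B) = (m : OO A B) * t := by
          rw [Submodule.coe_smul_of_tower, nsmul_eq_mul]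
        show ((m • (⟨t, ht⟩ : c) : c) : OO A B) = -(f x) + (y : OO A B)
        rw [e1, hy]
        ring
  have h5 := (h1 A B hcq c m hc hm).2.2.2.2.1 F hF
  unfold MUXF.sumB
  refine (finsum_eq_of_bijective ψ hbij (fun q => ?_)).symm
  have hq : QuotientAddGroup.mk (Quotient.out q : b) = q := Quotient.out_eq q
  have e1 : ψ q = QuotientAddGroup.mk (φ (Quotient.out q : b)) := by
    conv_lhs => rw [← hq]
    exact hψ _
  rw [e1, h5 (φ (Quotient.out q : b))]
  rfl

end Pool.Agent.MUXY
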