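import Pool.Agent.MUX.StYX

/-!
# MUX, section 9, module TER: conjugation of a term of F4
-/

set_option autoImplicit false

namespace Pool.Agent.MUXY

open _root_.MU3 Pool.Agent.MU3A Pool.Agent.MU3B Pool.Agent.MUXU OnePoint
open Pool.Agent.MU3F (ex)
open Pool.Agent.MUXF (Sx_ALG Sx_IDL Sx_NIM Sx_QB Sx_SMB Sx_F4 qb sumB)

noncomputable section

namespace Ter

lemma ex_int (n : ℤ) : ex (n : ℚ) = 1 := by
  unfold Pool.Agent.MU3F.ex
  rw [Complex.exp_eq_one_iff]
  exact ⟨n, by push_cast; ring⟩

lemma ex_nat_mul (a : ℕ) (r : ℚ) : ex (a * r) = ex r ^ a := by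
  unfold Pool.Agent.MU3F.ex
  rw [← Complex.exp_nat_mul]
  congr 1
  push_cast
  ring

end Ter

/-- TER. Conjugation of a term of F4. -/
theorem ty_TER (hALG : Sx_ALG) (hEE : Sy_EE) (hQBF : Sy_QBF) : Sy_TER := by
  intro A B hcq σ m a b c L L' om om' mu f hb hc hA hf hroot g e hE hg hm hmg M hM hMm β x hx
  obtain ⟨hop, hz0, hn0, -, -⟩ := hALG A B hcq
  have hmul : ∀ x y : OO A B, emb (x * y) = emb x * emb y := fun x y => (hop x y).1
  have hadd : ∀ x y : OO A B, emb (x + y) = emb x + emb y := fun x y => (hop x y).2.1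
  have hneg : ∀ x : OO A B, emb (-x) = -emb x := by
    intro x
    have h1 := hadd x (-x)
    rw [add_neg_cancel, (hz0 0).1.2 rfl] at h1
    linear_combination -h1
  have hinj : ∀ x y : OO A B, emb x = emb y → x = y := by
    intro x y h
    have h1 : emb (x + -y) = 0 := by rw [hadd, hneg, h, add_neg_cancel]
    have h2 := (hz0 _).1.1 h1
    rwa [← sub_eq_add_neg, sub_eq_zero] at h2
  set u : OO A B := f ((MUXF.nI b : ℕ) : OO A B) with hu
  -- the character
  have hch : σ (e u) * σ (e x) = σ (e ((MUXF.nI b : ℕ) : OO A B)) * σ (e (f x)) := by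
    rw [← map_mul, ← map_mul, ← hE.mul, ← hE.mul, hf.nb x hx]
  by_cases hx0 : e x = 0
  · have h1 : σ (e ((MUXF.nI b : ℕ) : OO A B)) * σ (e (f x)) = 0 := by
      rw [← hch, hx0, map_zero, mul_zero]
    rw [hx0, zero_mul, zero_mul, map_zero, mul_zero, ← mul_assoc, ← mul_assoc, h1, zero_mul,
      zero_mul]
  · have hmC : (m : ℂ) ≠ 0 := by exact_mod_cast hm
    have hom : om ≠ 0 := hb.om_ne
    have hom' : om' ≠ 0 := hc.om_ne
    -- the point `z`
    have hz1 : (m : ℂ) * (om * emb x / m) ∈ L.lattice := by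
      rw [mul_div_cancel₀ _ hmC]
      exact (hb.mem _).2 ⟨x, hx, rfl⟩
    have hz2 : om * emb x / m ∉ L.lattice := by
      intro h
      obtain ⟨s, hs, hs1⟩ := (hb.mem _).1 h
      rw [div_eq_iff hmC] at hs1
      have h1 : emb x = emb ((m : ℕ) * s : OO A B) := by
        have h2 : emb ((m : ℕ) : OO A B) = (m : ℂ) := by
          have h3 := (hn0 (m : ℤ)).1
          rwa [Int.cast_natCast, Int.cast_natCast] at h3
        rw [hmul, h2]
        apply mul_left_cancel₀ hom
        rw [hs1]
        ring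
      have h2 := hinj _ _ h1
      have h3 : x ∈ g := by
        rw [h2]
        exact g.mul_mem_right s hmg
      have h4 := (hE.supp x).1 hx0
      rw [Ideal.isCoprime_iff_sup_eq] at h4
      apply hg
      have h5 : MUXF.sp x ≤ g := (Ideal.span_singleton_le_iff_mem g).2 h3
      rw [← h4]
      exact (sup_eq_right.2 h5).symm
    obtain ⟨a1, a2, a3⟩ := hA.act _ hz1 hz2
    have hee : ee L' (mu * (om * emb x / m)) = σ (ee L (om * emb x / m)) :=
      hEE σ L L' hA.cj (m : ℤ) _ _ (by exact_mod_cast hm) (by exact_mod_cast hz1) hz2 a1 a2 a3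
    have hpt : mu * (om * emb x / m) = om' * emb (f x) / m := by
      rw [hf.eq x hx]
      ring
    -- the root of unity
    have hMQ : (M : ℚ) ≠ 0 := by exact_mod_cast hM
    have hζ : ex (β * qb b x / M) ^ m = 1 := by
      obtain ⟨d, hd⟩ := hMm
      rw [← Ter.ex_nat_mul]
      have h1 : (m : ℚ) * (β * qb b x / M) = ((d * (β * qb b x) : ℤ) : ℚ) := by
        rw [hd]
        push_cast
        field_simp
      rw [h1]
      exact Ter.ex_int _
    have hσζ : σ (ex (β * qb b x / M)) = ex (β * qb c (f x) / M) := by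
      rw [hroot _ hζ, ← Ter.ex_nat_mul,
        hQBF A B hcq σ m a b c L L' om om' mu f hb hc hA hf x hx]
      congr 1
      push_cast
      ring
    rw [map_mul, map_mul, hσζ, ← hee, hpt]
    linear_combination (ex (β * qb c (f x) / M) * ee L' (om' * emb (f x) / m)) * hch

end

end Pool.Agent.MUXY
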