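import Pool.Agent.MUX.StYX

/-!
# MUX, section 9: the number `u = f (N b)` is prime to the conductor
-/

set_option autoImplicit false

namespace Pool.Agent.MUXY

open _root_.MU3 Pool.Agent.MU3A Pool.Agent.MU3B Pool.Agent.MUXU OnePoint
open Pool.Agent.MU3F (ex)
open Pool.Agent.MUXF (Sx_ALG Sx_IDL Sx_NIM Sx_QB Sx_SMB Sx_F4 qb sumB)

theorem ty_UV (h2 : Sx_IDL) (h3 : Sx_NIM) : Sy_UV := by
  intro A B hQ m a b c g u hb hc hm ha hNb hNc hu
  obtain ⟨-, hbb⟩ := h2 A B hQ b hb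
  obtain ⟨-, hcc⟩ := h2 A B hQ c hc
  obtain ⟨-, -, -, hcan⟩ := h3 A B hQ
  rw [← hbb] at hNb hu
  rw [← hcc] at hNc
  have c1 : IsCoprime (MUXF.cjI b) g := IsCoprime.of_mul_left_right hNb
  have c2 : IsCoprime c g := IsCoprime.of_mul_left_left hNc
  have c3 : IsCoprime a g := by
    rw [Ideal.isCoprime_iff_sup_eq] at ha ⊢
    rw [eq_top_iff, ← ha]
    apply sup_le_sup_left
    exact (Ideal.span_singleton_le_iff_mem g).2 hm
  have e : MUXF.sp u = MUXF.cjI b * (a * c) := by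
    have e1 : b * MUXF.sp u = b * (MUXF.cjI b * (a * c)) := by
      rw [mul_comm b, hu, mul_assoc]
    apply le_antisymm
    · exact (hcan b _ _ hb).1 e1.le
    · exact (hcan b _ _ hb).1 e1.ge
  rw [e]
  exact c1.mul_left (c3.mul_left c2)

end Pool.Agent.MUXY
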