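import Pool.Agent.MUX.XFAll
import Pool.Agent.MUX.UAll
import Pool.Agent.MUX.Y_ALM
import Pool.Agent.MUX.Y_ALP
import Pool.Agent.MUX.Y_BIJ
import Pool.Agent.MUX.Y_BRI
import Pool.Agent.MUX.Y_CON
import Pool.Agent.MUX.Y_COP
import Pool.Agent.MUX.Y_EE
import Pool.Agent.MUX.Y_EIC
import Pool.Agent.MUX.Y_EXI
import Pool.Agent.MUX.Y_FEC
import Pool.Agent.MUX.Y_FIN
import Pool.Agent.MUX.Y_IDF
import Pool.Agent.MUX.Y_MAP
import Pool.Agent.MUX.Y_MUC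
import Pool.Agent.MUX.Y_MUI
import Pool.Agent.MUX.Y_MUU
import Pool.Agent.MUX.Y_PR4
import Pool.Agent.MUX.Y_QBF
import Pool.Agent.MUX.Y_RA1
import Pool.Agent.MUX.Y_RAT
import Pool.Agent.MUX.Y_SAM
import Pool.Agent.MUX.Y_SUM
import Pool.Agent.MUX.Y_TER
import Pool.Agent.MUX.Y_UNJ
import Pool.Agent.MUX.Y_UV

/-!
# MUX, section 9 (rationality): all statements of `StYX.lean`, without hypotheses (helper41)

`TorX A B` remains a hypothesis inside the statements EXI, FIN, CON, ALM, ALP.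
-/

set_option autoImplicit false

namespace Pool.Agent.MUXY

open Pool.Agent.MUXF Pool.Agent.MUXU

theorem y_EE : Sy_EE := ty_EE u_PHI u_TSN u_EQP
theorem y_MAP : Sy_MAP := ty_MAP xf_ALG xf_NIM
theorem y_IDF : Sy_IDF := ty_IDF xf_ALG xf_IDL xf_NIM
theorem y_QBF : Sy_QBF := ty_QBF xf_ALG xf_IDL xf_QB y_IDF
theorem y_BIJ : Sy_BIJ := ty_BIJ xf_ALG y_IDF
theorem y_SUM : Sy_SUM := ty_SUM xf_SMB
theorem y_UV : Sy_UV := ty_UV xf_IDL xf_NIM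
theorem y_TER : Sy_TER := ty_TER xf_ALG y_EE y_QBF
theorem y_PR4 : Sy_PR4 := ty_PR4 xf_ALG xf_QB
theorem y_EIC : Sy_EIC := ty_EIC
theorem y_RA1 : Sy_RA1 := ty_RA1 xf_SMB xf_F4 y_BIJ y_SUM y_TER y_PR4 y_EIC
theorem y_RAT : Sy_RAT := ty_RAT xf_IDL y_MAP y_IDF y_UV y_RA1
theorem y_SAM : Sy_SAM := ty_SAM xf_ALG
theorem y_BRI : Sy_BRI := ty_BRI xf_ALG
theorem y_EXI : Sy_EXI := ty_EXI y_SAM y_BRI
theorem y_UNJ : Sy_UNJ := ty_UNJ xf_ALG xf_IDL u_DET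
theorem y_FIN : Sy_FIN := ty_FIN xf_IDL xf_NIM y_RAT y_EXI
theorem y_CON : Sy_CON := ty_CON y_FIN y_UNJ y_EIC
theorem y_MUC : Sy_MUC := ty_MUC xf_ALG u_PHI u_FUN u_TSN u_CMC
theorem y_MUU : Sy_MUU := ty_MUU
theorem y_MUI : Sy_MUI := ty_MUI xf_ALG xf_IDL
theorem y_ALM : Sy_ALM := ty_ALM xf_ALG xf_IDL y_EXI y_MUC y_MUU y_MUI u_AUT
theorem y_FEC : Sy_FEC := ty_FEC
theorem y_ALP : Sy_ALP := ty_ALP y_FIN y_FEC y_ALM u_AUT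
theorem y_COP : Sy_COP := ty_COP

end Pool.Agent.MUXY
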