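import Pool.Agent.MUX.StVG

/-!
# MUX, block VG, module ADD: the chord, for general Weierstrass curves over a field with a valuation

The proofs are those of `MU3/VCore.lean` and `MU3/VPts.lean` with the terms `a₁`, `a₃`.
-/

set_option autoImplicit false

namespace Pool.Agent.MUXG

open WeierstrassCurve Pool.Agent.MU3.Val

namespace GAdd

section chord

variable {F : Type} [Field F] {Γ₀ : Type} [LinearOrderedCommGroupWithZero Γ₀]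
  {v : Valuation F Γ₀} {a1 a2 a3 a4 a6 : F}

/-- Bounds for the line `w = -(l/n) z - 1/n` through two points near infinity. -/
theorem chord0 {z1 w1 z2 w2 l n : F} {r : Γ₀} (hr : r < 1)
    (h1 : v a1 ≤ 1) (h2 : v a2 ≤ 1) (h3 : v a3 ≤ 1) (h4 : v a4 ≤ 1) (h6 : v a6 ≤ 1)
    (hz1 : v z1 ≤ r) (hz2 : v z2 ≤ r) (hw1 : v w1 ≤ r ^ 3) (hw2 : v w2 ≤ r ^ 3)
    (e1 : n * w1 + l * z1 = -1)
    (hAB : l * (1 - (a1 * z2 + a2 * z2 ^ 2 + a3 * (w1 + w2) + a4 * z1 * (w1 + w2) +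
        a6 * (w1 ^ 2 + w1 * w2 + w2 ^ 2))) =
      -(n * (z1 ^ 2 + z1 * z2 + z2 ^ 2 + a1 * w1 + a2 * (z1 + z2) * w1 + a4 * w2 ^ 2))) :
    v l ≤ v n * r ^ 2 ∧ 1 ≤ v n * r ^ 3 ∧
      v (n ^ 3 - a2 * n ^ 2 * l + a4 * n * l ^ 2 - a6 * l ^ 3) = v n ^ 3 := by
  have r21 : r ^ 2 ≤ r := by
    calc r ^ 2 ≤ r ^ 1 := pow_le_pow_right_of_le_one' hr.le (by norm_num)
      _ = r := pow_one r
  have r31 : r ^ 3 ≤ r := by
    calc r ^ 3 ≤ r ^ 1 := pow_le_pow_right_of_le_one' hr.le (by norm_num)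
      _ = r := pow_one r
  have r32 : r ^ 3 ≤ r ^ 2 := pow_le_pow_right_of_le_one' hr.le (by norm_num)
  have r62 : r ^ 6 ≤ r ^ 2 := pow_le_pow_right_of_le_one' hr.le (by norm_num)
  have r42 : r ^ 4 ≤ r ^ 2 := pow_le_pow_right_of_le_one' hr.le (by norm_num)
  have r2lt : r ^ 2 < 1 := lt_of_le_of_lt r21 hr
  have m2 : ∀ {x y : F}, v x ≤ r ^ 3 → v y ≤ r ^ 3 → v (x * y) ≤ r ^ 2 := by
    intro x y hx hy
    refine (v_mul_le hx hy).trans ?_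
    rw [← pow_add]; exact r62
  have hw1' : v w1 ≤ r := hw1.trans r31
  have hw2' : v w2 ≤ r := hw2.trans r31
  have hA : v (1 - (a1 * z2 + a2 * z2 ^ 2 + a3 * (w1 + w2) + a4 * z1 * (w1 + w2) +
      a6 * (w1 ^ 2 + w1 * w2 + w2 ^ 2))) = 1 := by
    apply v.map_one_sub_of_lt
    refine lt_of_le_of_lt ?_ hr
    refine v_add_le (v_add_le (v_add_le (v_add_le (v_mul_le_right h1 hz2)
      (v_mul_le_right h2 ((v_pow_le 2 hz2).trans r21))) (v_mul_le_right h3 (v_add_le hw1' hw2')))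
      ?_) ?_
    · rw [mul_assoc]
      refine v_mul_le_right h4 (((v_mul_le hz1 (v_add_le hw1 hw2)).trans ?_).trans r21)
      rw [← pow_succ']; exact r42
    · refine v_mul_le_right h6 ((v_add_le (v_add_le ?_ (m2 hw1 hw2)) ?_).trans r21)
      · rw [pow_two]; exact m2 hw1 hw1
      · rw [pow_two]; exact m2 hw2 hw2
  have hB : v (z1 ^ 2 + z1 * z2 + z2 ^ 2 + a1 * w1 + a2 * (z1 + z2) * w1 + a4 * w2 ^ 2) ≤
      r ^ 2 := by
    refine v_add_le (v_add_le (v_add_le (v_add_le (v_add_le (v_pow_le 2 hz1) ?_)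
      (v_pow_le 2 hz2)) (v_mul_le_right h1 (hw1.trans r32))) ?_) ?_
    · rw [pow_two]; exact v_mul_le hz1 hz2
    · rw [mul_assoc]
      refine v_mul_le_right h2 ?_
      rw [pow_two]
      exact v_mul_le (v_add_le hz1 hz2) hw1'
    · exact v_mul_le_right h4 (v_pow_le 2 hw2')
  have hl : v l ≤ v n * r ^ 2 := by
    have := congrArg v hAB
    rw [map_mul, hA, mul_one, Valuation.map_neg, map_mul] at this
    rw [this]
    exact mul_le_mul_right hB _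
  have hn : 1 ≤ v n * r ^ 3 := by
    have := congrArg v e1
    rw [Valuation.map_neg, map_one] at this
    rw [← this]
    refine v_add_le ?_ ?_
    · exact v_mul_le le_rfl hw1
    · refine (v_mul_le hl hz1).trans ?_
      rw [mul_assoc, ← pow_succ]
  have hn0 : v n ≠ 0 := by
    intro h0
    rw [h0, zero_mul] at hn
    exact absurd hn (not_le.2 zero_lt_one)
  have hnn : (0 : Γ₀) < v n := zero_lt_iff.2 hn0
  have hl1 : v l ≤ v n * 1 := hl.trans (mul_le_mul_right r2lt.le _)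
  rw [mul_one] at hl1
  refine ⟨hl, hn, ?_⟩
  have e : n ^ 3 - a2 * n ^ 2 * l + a4 * n * l ^ 2 - a6 * l ^ 3 =
      n ^ 3 + (-(a2 * (n ^ 2 * l)) + a4 * (n * l ^ 2) - a6 * l ^ 3) := by ring
  have k1 : v (n ^ 2 * l) ≤ v n ^ 3 * r ^ 2 := by
    refine (v_mul_le (v_pow_le 2 le_rfl) hl).trans (le_of_eq ?_)
    rw [← mul_assoc, ← pow_succ]
  have k2 : v (n * l ^ 2) ≤ v n ^ 3 * r ^ 2 := by
    have : v (l ^ 2) ≤ v n * (v n * r ^ 2) := by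
      rw [pow_two]; exact v_mul_le hl1 hl
    refine (v_mul_le le_rfl this).trans (le_of_eq ?_)
    rw [← mul_assoc, ← mul_assoc, pow_three' (v n)]
  have k3 : v (l ^ 3) ≤ v n ^ 3 * r ^ 2 := by
    have : v (l ^ 3) ≤ v n ^ 2 * (v n * r ^ 2) := by
      rw [pow_succ]; exact v_mul_le (v_pow_le 2 hl1) hl
    refine this.trans (le_of_eq ?_)
    rw [← mul_assoc, ← pow_succ]
  rw [e, v.map_add_eq_of_lt_left, map_pow]
  rw [map_pow]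
  refine lt_of_le_of_lt (b := v n ^ 3 * r ^ 2) ?_ ?_
  · refine v_sub_le (v_add_le ?_ (v_mul_le_right h4 k2)) (v_mul_le_right h6 k3)
    rw [Valuation.map_neg]; exact v_mul_le_right h2 k1
  · exact mul_lt_of_lt_one_right (pow_pos hnn 3) r2lt

/-- The chord. -/
theorem chord {z1 w1 z2 w2 z3 w3 l n : F} {r : Γ₀} (hr : r < 1)
    (h1 : v a1 ≤ 1) (h2 : v a2 ≤ 1) (h3 : v a3 ≤ 1) (h4 : v a4 ≤ 1) (h6 : v a6 ≤ 1)
    (hz1 : v z1 ≤ r) (hz2 : v z2 ≤ r) (hw1 : v w1 ≤ r ^ 3) (hw2 : v w2 ≤ r ^ 3)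
    (e1 : n * w1 + l * z1 = -1) (e3 : n * w3 + l * z3 = -1)
    (hAB : l * (1 - (a1 * z2 + a2 * z2 ^ 2 + a3 * (w1 + w2) + a4 * z1 * (w1 + w2) +
        a6 * (w1 ^ 2 + w1 * w2 + w2 ^ 2))) =
      -(n * (z1 ^ 2 + z1 * z2 + z2 ^ 2 + a1 * w1 + a2 * (z1 + z2) * w1 + a4 * w2 ^ 2)))
    (hs : (z1 + z2 + z3) * (n ^ 3 - a2 * n ^ 2 * l + a4 * n * l ^ 2 - a6 * l ^ 3) =
      a1 * (n ^ 2 * l) - a3 * (n * l ^ 2) + a2 * n ^ 2 - 2 * a4 * n * l + 3 * a6 * l ^ 2) :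
    v (z1 + z2 + z3) ≤ r ^ 2 ∧ v w3 ≤ r ^ 3 ∧ v z3 ≤ r := by
  obtain ⟨hl, hn, hD⟩ := chord0 hr h1 h2 h3 h4 h6 hz1 hz2 hw1 hw2 e1 hAB
  have r21 : r ^ 2 ≤ r := by
    calc r ^ 2 ≤ r ^ 1 := pow_le_pow_right_of_le_one' hr.le (by norm_num)
      _ = r := pow_one r
  have r32 : r ^ 3 ≤ r ^ 2 := pow_le_pow_right_of_le_one' hr.le (by norm_num)
  have r2le : r ^ 2 ≤ 1 := pow_le_one' hr.le 2
  have hn0 : v n ≠ 0 := by
    intro h0
    rw [h0, zero_mul] at hn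
    exact absurd hn (not_le.2 zero_lt_one)
  have hnn : (0 : Γ₀) < v n := zero_lt_iff.2 hn0
  have hl1 : v l ≤ v n * 1 := hl.trans (mul_le_mul_right r2le _)
  rw [mul_one] at hl1
  have k1 : v (n ^ 2 * l) ≤ v n ^ 3 * r ^ 2 := by
    refine (v_mul_le (v_pow_le 2 le_rfl) hl).trans (le_of_eq ?_)
    rw [← mul_assoc, ← pow_succ]
  have k2 : v (n * l ^ 2) ≤ v n ^ 3 * r ^ 2 := by
    have : v (l ^ 2) ≤ v n * (v n * r ^ 2) := by
      rw [pow_two]; exact v_mul_le hl1 hl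
    refine (v_mul_le le_rfl this).trans (le_of_eq ?_)
    rw [← mul_assoc, ← mul_assoc, pow_three' (v n)]
  have k4 : v n ^ 2 ≤ v n ^ 3 * r ^ 2 := by
    calc v n ^ 2 = v n ^ 2 * 1 := (mul_one _).symm
      _ ≤ v n ^ 2 * (v n * r ^ 3) := mul_le_mul_right hn _
      _ = v n ^ 3 * r ^ 3 := by rw [← mul_assoc, ← pow_succ]
      _ ≤ v n ^ 3 * r ^ 2 := mul_le_mul_right r32 _
  have hN : v (a1 * (n ^ 2 * l) - a3 * (n * l ^ 2) + a2 * n ^ 2 - 2 * a4 * n * l +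
      3 * a6 * l ^ 2) ≤ v n ^ 3 * r ^ 2 := by
    refine v_add_le (v_sub_le (v_add_le (v_sub_le (v_mul_le_right h1 k1) (v_mul_le_right h3 k2))
      ((v_mul_le_right h2 (v_pow_le 2 le_rfl)).trans k4)) ?_) ?_
    · rw [mul_assoc, mul_assoc]
      refine (v_mul_le_right (v_two v) (v_mul_le_right h4 ?_)).trans k4
      rw [pow_two]; exact v_mul_le le_rfl hl1
    · rw [mul_assoc]
      exact (v_mul_le_right (v_three v) (v_mul_le_right h6 (v_pow_le 2 hl1))).trans k4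
  have hS : v (z1 + z2 + z3) ≤ r ^ 2 := by
    have := congrArg v hs
    rw [map_mul, hD] at this
    rw [← this, mul_comm (v n ^ 3)] at hN
    exact le_of_mul_le_mul_right hN (pow_pos hnn 3)
  have hz3 : v z3 ≤ r := by
    have e : z3 = (z1 + z2 + z3) - (z1 + z2) := by ring
    rw [e]
    exact v_sub_le (hS.trans r21) (v_add_le hz1 hz2)
  refine ⟨hS, ?_, hz3⟩
  have h8 : n * w3 = -1 - l * z3 := by linear_combination e3
  have h9 : v n * v w3 ≤ v n * r ^ 3 := by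
    rw [← map_mul, h8]
    refine v_sub_le ?_ ?_
    · rw [Valuation.map_neg, map_one]; exact hn
    · refine (v_mul_le hl hz3).trans ?_
      rw [mul_assoc, ← pow_succ]
  exact le_of_mul_le_mul_left h9 hnn

end chord

variable {F : Type} [Field F] {Γ₀ : Type} [LinearOrderedCommGroupWithZero Γ₀]
  {v : Valuation F Γ₀} {W : Affine F}

theorem eqn {x y : F} (h : W.Nonsingular x y) :
    y ^ 2 + W.a₁ * x * y + W.a₃ * y = x ^ 3 + W.a₂ * x ^ 2 + W.a₄ * x + W.a₆ :=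
  (W.equation_iff x y).1 h.1

variable [DecidableEq F]

/-- data of the sum of two points: `l`, `n` are the coefficients of the line `y = l x + n`, the
third point on it is `(x₃, y₃) = -(P + Q)` -/
theorem add_data {x₁ y₁ x₂ y₂ : F} (h₁ : W.Nonsingular x₁ y₁)
    (h₂ : W.Nonsingular x₂ y₂) (hy₁ : y₁ ≠ 0) (hy₂ : y₂ ≠ 0)
    (hne : Affine.Point.some x₁ y₁ h₁ + Affine.Point.some x₂ y₂ h₂ ≠ 0) :
    ∃ (x₃ y₃ l n : F) (h₃ : W.Nonsingular x₃ y₃),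
      Affine.Point.some x₁ y₁ h₁ + Affine.Point.some x₂ y₂ h₂ = -Affine.Point.some x₃ y₃ h₃ ∧
      y₁ = l * x₁ + n ∧ y₂ = l * x₂ + n ∧ y₃ = l * x₃ + n ∧
      x₁ + x₂ + x₃ = l ^ 2 + W.a₁ * l - W.a₂ ∧
      x₁ * x₂ + x₁ * x₃ + x₂ * x₃ = W.a₄ - 2 * l * n - W.a₁ * n - W.a₃ * l ∧
      x₁ * x₂ * x₃ = n ^ 2 + W.a₃ * n - W.a₆ ∧
      l * (1 - (W.a₁ * -(x₂ / y₂) + W.a₂ * (-(x₂ / y₂)) ^ 2 + W.a₃ * (-(1 / y₁) + -(1 / y₂)) +
        W.a₄ * -(x₁ / y₁) * (-(1 / y₁) + -(1 / y₂)) +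
        W.a₆ * ((-(1 / y₁)) ^ 2 + -(1 / y₁) * -(1 / y₂) + (-(1 / y₂)) ^ 2))) =
      -(n * ((-(x₁ / y₁)) ^ 2 + -(x₁ / y₁) * -(x₂ / y₂) + (-(x₂ / y₂)) ^ 2 +
        W.a₁ * -(1 / y₁) + W.a₂ * (-(x₁ / y₁) + -(x₂ / y₂)) * -(1 / y₁) +
        W.a₄ * (-(1 / y₂)) ^ 2)) := by
  have e₁ := eqn h₁
  have e₂ := eqn h₂
  have hxy : ¬(x₁ = x₂ ∧ y₁ = W.negY x₂ y₂) := by
    rintro ⟨ha, hb⟩
    exact hne (Affine.Point.add_of_Y_eq ha hb)
  have hadd := Affine.Point.add_some hxy (h₁ := h₁) (h₂ := h₂)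
  set l := W.slope x₁ x₂ y₁ y₂ with hl
  have h₃ := Affine.nonsingular_add h₁ h₂ hxy
  rw [← hl] at h₃
  have hx₃ : W.addX x₁ x₂ l = l ^ 2 + W.a₁ * l - W.a₂ - x₁ - x₂ := rfl
  have hns : W.Nonsingular (W.addX x₁ x₂ l) (W.negAddY x₁ x₂ y₁ l) := by
    have := (W.nonsingular_neg (W.addX x₁ x₂ l) (W.negAddY x₁ x₂ y₁ l)).1 h₃
    exact this
  have hy : y₂ = l * x₂ + (y₁ - l * x₁) := by
    by_cases hx : x₁ = x₂
    · have hy : y₁ = y₂ := Affine.Y_eq_of_Y_ne h₁.1 h₂.1 hx (fun h => hxy ⟨hx, h⟩)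
      rw [hx, hy]; ring
    · rw [hl, Affine.slope_of_X_ne hx]
      have : x₁ - x₂ ≠ 0 := sub_ne_zero.2 hx
      field_simp
      ring
  have hK : l * (y₁ + y₂ + W.a₁ * x₂ + W.a₃) =
      x₁ ^ 2 + x₁ * x₂ + x₂ ^ 2 + W.a₂ * (x₁ + x₂) + W.a₄ - W.a₁ * y₁ := by
    by_cases hx : x₁ = x₂
    · have hyy : y₁ = y₂ := Affine.Y_eq_of_Y_ne h₁.1 h₂.1 hx (fun h => hxy ⟨hx, h⟩)
      have hne' : y₁ ≠ W.negY x₂ y₂ := fun h => hxy ⟨hx, h⟩
      rw [hl, Affine.slope_of_Y_ne hx hne']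
      rw [← hx, ← hyy] at hne' ⊢
      have h2y : y₁ - W.negY x₁ y₁ ≠ 0 := sub_ne_zero.2 hne'
      rw [div_mul_eq_mul_div, div_eq_iff h2y, Affine.negY]
      ring
    · have hx' : x₁ - x₂ ≠ 0 := sub_ne_zero.2 hx
      apply mul_left_cancel₀ hx'
      have : y₁ - y₂ = l * (x₁ - x₂) := by rw [hy]; ring
      linear_combination (-(y₁ + y₂ + W.a₁ * x₂ + W.a₃)) * this + e₁ - e₂
  refine ⟨W.addX x₁ x₂ l, W.negAddY x₁ x₂ y₁ l, l, y₁ - l * x₁, hns, ?_, by ring, hy, ?_, ?_, ?_,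
    ?_, ?_⟩
  · rw [hadd, Affine.Point.neg_some]
    rfl
  · rw [Affine.negAddY]; ring
  · rw [hx₃]; ring
  · rw [hx₃]
    rw [hy] at hK
    linear_combination hK
  · rw [hx₃]
    rw [hy] at hK
    linear_combination x₁ * hK - e₁
  · have hT : l * (y₁ ^ 2 * y₂ ^ 2 + W.a₁ * x₂ * y₂ * y₁ ^ 2 - W.a₂ * x₂ ^ 2 * y₁ ^ 2 +
        W.a₃ * y₁ * y₂ * (y₁ + y₂) - W.a₄ * x₁ * y₂ * (y₁ + y₂) -
        W.a₆ * (y₁ ^ 2 + y₁ * y₂ + y₂ ^ 2)) + (y₁ - l * x₁) * (x₁ ^ 2 * y₂ ^ 2 +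
        x₁ * x₂ * y₁ * y₂ + x₂ ^ 2 * y₁ ^ 2 - W.a₁ * y₁ * y₂ ^ 2 +
        W.a₂ * (x₁ * y₂ + x₂ * y₁) * y₂ + W.a₄ * y₁ ^ 2) = 0 := by
      rw [hy] at hK ⊢
      linear_combination (-(y₁ ^ 3)) * hK + l * (y₁ ^ 2 + y₁ * (l * x₂ + (y₁ - l * x₁)) +
        (l * x₂ + (y₁ - l * x₁)) ^ 2) * e₁
    have hq : l * (1 - (W.a₁ * -(x₂ / y₂) + W.a₂ * (-(x₂ / y₂)) ^ 2 +
        W.a₃ * (-(1 / y₁) + -(1 / y₂)) + W.a₄ * -(x₁ / y₁) * (-(1 / y₁) + -(1 / y₂)) +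
        W.a₆ * ((-(1 / y₁)) ^ 2 + -(1 / y₁) * -(1 / y₂) + (-(1 / y₂)) ^ 2))) +
      (y₁ - l * x₁) * ((-(x₁ / y₁)) ^ 2 + -(x₁ / y₁) * -(x₂ / y₂) + (-(x₂ / y₂)) ^ 2 +
        W.a₁ * -(1 / y₁) + W.a₂ * (-(x₁ / y₁) + -(x₂ / y₂)) * -(1 / y₁) +
        W.a₄ * (-(1 / y₂)) ^ 2) =
      (l * (y₁ ^ 2 * y₂ ^ 2 + W.a₁ * x₂ * y₂ * y₁ ^ 2 - W.a₂ * x₂ ^ 2 * y₁ ^ 2 +
        W.a₃ * y₁ * y₂ * (y₁ + y₂) - W.a₄ * x₁ * y₂ * (y₁ + y₂) -
        W.a₆ * (y₁ ^ 2 + y₁ * y₂ + y₂ ^ 2)) + (y₁ - l * x₁) * (x₁ ^ 2 * y₂ ^ 2 +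
        x₁ * x₂ * y₁ * y₂ + x₂ ^ 2 * y₁ ^ 2 - W.a₁ * y₁ * y₂ ^ 2 +
        W.a₂ * (x₁ * y₂ + x₂ * y₁) * y₂ + W.a₄ * y₁ ^ 2)) / (y₁ ^ 2 * y₂ ^ 2) := by
      field_simp
      ring
    rw [hT, zero_div] at hq
    linear_combination hq

end GAdd

open GAdd in
theorem tg_ADD (hVAL : S_VAL) (hNEG : S_NEG) : S_ADD := by
  intro F _ _ Γ₀ _ v W hW P Q hP hQ
  by_cases hPQ : P + Q = 0
  · have hQ' : Q = -P := (neg_eq_of_add_eq_zero_right hPQ).symm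
    obtain ⟨-, -, -, hN⟩ := hNEG F Γ₀ v W hW P hP
    rw [hPQ, hQ', zc_zero]
    refine ⟨trivial, ?_⟩
    have : (0 : F) - zc P - zc (-P) = -(zc (-P) + zc P) := by ring
    rw [this, Valuation.map_neg]
    exact hN.trans (pow_le_pow_left' (le_max_left _ _) 2)
  cases P with
  | zero =>
    have e : (Affine.Point.zero : W.Point) + Q = Q := zero_add Q
    rw [e]
    refine ⟨hQ, ?_⟩
    have : zc Q - zc (Affine.Point.zero : W.Point) - zc Q = 0 := by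
      rw [show zc (Affine.Point.zero : W.Point) = 0 from rfl]; ring
    rw [this, map_zero]
    exact zero_le
  | some x₁ y₁ h₁ =>
    cases Q with
    | zero =>
      have e : Affine.Point.some x₁ y₁ h₁ + (Affine.Point.zero : W.Point) =
        Affine.Point.some x₁ y₁ h₁ := add_zero _
      rw [e]
      refine ⟨hP, ?_⟩
      have : zc (Affine.Point.some x₁ y₁ h₁) - zc (Affine.Point.some x₁ y₁ h₁) -
          zc (Affine.Point.zero : W.Point) = 0 := by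
        rw [show zc (Affine.Point.zero : W.Point) = 0 from rfl]; ring
      rw [this, map_zero]
      exact zero_le
    | some x₂ y₂ h₂ =>
      obtain ⟨hy₁, hz₁, hz₁0, hw₁, -⟩ := (hVAL F Γ₀ v W hW x₁ y₁ h₁).2 hP
      obtain ⟨hy₂, hz₂, hz₂0, hw₂, -⟩ := (hVAL F Γ₀ v W hW x₂ y₂ h₂).2 hQ
      obtain ⟨x₃, y₃, l, n, h₃, hadd, en₁, en₂, en₃, c2, c1, c0, hAB⟩ :=
        add_data h₁ h₂ hy₁ hy₂ hPQ
      set r := max (v (-(x₁ / y₁))) (v (-(x₂ / y₂))) with hr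
      have hr1 : r < 1 := max_lt hz₁ hz₂
      have hz₁r : v (-(x₁ / y₁)) ≤ r := le_max_left _ _
      have hz₂r : v (-(x₂ / y₂)) ≤ r := le_max_right _ _
      have hw₁r : v (-(1 / y₁)) ≤ r ^ 3 := by rw [hw₁]; exact pow_le_pow_left' hz₁r 3
      have hw₂r : v (-(1 / y₂)) ≤ r ^ 3 := by rw [hw₂]; exact pow_le_pow_left' hz₂r 3
      have e1 : n * -(1 / y₁) + l * -(x₁ / y₁) = -1 := by
        field_simp
        linear_combination en₁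
      obtain ⟨-, hn, hD⟩ := chord0 hr1 hW.a1 hW.a2 hW.a3 hW.a4 hW.a6 hz₁r hz₂r hw₁r hw₂r e1 hAB
      have hn0 : v n ≠ 0 := by
        intro h0
        rw [h0, zero_mul] at hn
        exact absurd hn (not_le.2 zero_lt_one)
      have hDe : y₁ * y₂ * y₃ = n ^ 3 - W.a₂ * n ^ 2 * l + W.a₄ * n * l ^ 2 - W.a₆ * l ^ 3 := by
        rw [en₁, en₂, en₃]
        linear_combination l ^ 3 * c0 + l ^ 2 * n * c1 + l * n ^ 2 * c2
      have hy₃ : y₃ ≠ 0 := by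
        intro h0
        rw [← hDe, h0, mul_zero, map_zero] at hD
        exact pow_ne_zero 3 hn0 hD.symm
      have e3 : n * -(1 / y₃) + l * -(x₃ / y₃) = -1 := by
        field_simp
        linear_combination en₃
      have hs : (-(x₁ / y₁) + -(x₂ / y₂) + -(x₃ / y₃)) *
          (n ^ 3 - W.a₂ * n ^ 2 * l + W.a₄ * n * l ^ 2 - W.a₆ * l ^ 3) =
          W.a₁ * (n ^ 2 * l) - W.a₃ * (n * l ^ 2) + W.a₂ * n ^ 2 - 2 * W.a₄ * n * l +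
            3 * W.a₆ * l ^ 2 := by
        rw [← hDe]
        have : (-(x₁ / y₁) + -(x₂ / y₂) + -(x₃ / y₃)) * (y₁ * y₂ * y₃) =
            -(x₁ * y₂ * y₃ + y₁ * x₂ * y₃ + y₁ * y₂ * x₃) := by
          field_simp
          ring
        rw [this, en₁, en₂, en₃]
        linear_combination (-3 * l ^ 2) * c0 - 2 * l * n * c1 - n ^ 2 * c2
      obtain ⟨hS, hw₃, hz₃⟩ := chord hr1 hW.a1 hW.a2 hW.a3 hW.a4 hW.a6 hz₁r hz₂r hw₁r hw₂r
        e1 e3 hAB hs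
      have hE₃ : InE v (Affine.Point.some x₃ y₃ h₃) := by
        show 1 < v x₃
        by_contra hc
        push Not at hc
        have hy3v : v y₃ ≤ 1 := (hVAL F Γ₀ v W hW x₃ y₃ h₃).1 hc
        have h6 : v (-(1 / y₃)) * v y₃ = 1 := by
          rw [← map_mul]
          have : -(1 / y₃) * y₃ = -1 := by field_simp
          rw [this, Valuation.map_neg, map_one]
        have h7 : v (-(1 / y₃)) * v y₃ ≤ r ^ 3 * 1 := mul_le_mul' hw₃ hy3v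
        rw [h6, mul_one] at h7
        have h8 : r ^ 3 < 1 := pow_lt_one₀ zero_le hr1 (by norm_num)
        exact absurd h7 (not_le.2 h8)
      obtain ⟨-, -, -, hN⟩ := hNEG F Γ₀ v W hW _ hE₃
      rw [hadd]
      refine ⟨inE_neg hE₃, ?_⟩
      have e4 : zc (-Affine.Point.some x₃ y₃ h₃) - zc (Affine.Point.some x₁ y₁ h₁) -
          zc (Affine.Point.some x₂ y₂ h₂) =
          (zc (-Affine.Point.some x₃ y₃ h₃) + zc (Affine.Point.some x₃ y₃ h₃)) -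
          (-(x₁ / y₁) + -(x₂ / y₂) + -(x₃ / y₃)) := by
        rw [show zc (Affine.Point.some x₁ y₁ h₁) = -(x₁ / y₁) from rfl,
          show zc (Affine.Point.some x₂ y₂ h₂) = -(x₂ / y₂) from rfl,
          show zc (Affine.Point.some x₃ y₃ h₃) = -(x₃ / y₃) from rfl]
        ring
      rw [e4]
      exact v_sub_le (hN.trans (pow_le_pow_left' hz₃ 2)) hS

end Pool.Agent.MUXG
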