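import Pool.Agent.MUX.StVG

/-!
# Valuations of the coordinates of a point, and negation, in general Weierstrass form
-/

set_option autoImplicit false

namespace Pool.Agent.MUXG

open WeierstrassCurve Pool.Agent.MU3.Val

theorem tg_VAL : S_VAL := by
  intro F _ Γ₀ _ v W hW x y h
  have e := (W.equation_iff x y).1 h.1
  have ee : y ^ 2 + (W.a₁ * x * y + W.a₃ * y) = x ^ 3 + (W.a₂ * x ^ 2 + W.a₄ * x + W.a₆) := by
    linear_combination e
  constructor
  · intro hx
    by_contra hc
    push Not at hc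
    have b0 : v y < v y ^ 2 := by
      calc v y = v y ^ 1 := (pow_one _).symm
        _ < v y ^ 2 := pow_lt_pow_right₀ hc (by norm_num)
    have b1 : v (W.a₁ * x * y + W.a₃ * y) < v (y ^ 2) := by
      rw [map_pow]
      refine lt_of_le_of_lt ?_ b0
      refine v_add_le ?_ (v_mul_le_right hW.a3 le_rfl)
      rw [mul_assoc]
      exact v_mul_le_right hW.a1 (v_mul_le_right hx le_rfl)
    have b2 : v (y ^ 2) ≤ 1 := by
      rw [← v.map_add_eq_of_lt_left b1, ee]
      have hx3 : v (x ^ 3) ≤ 1 := by rw [map_pow]; exact pow_le_one' hx 3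
      have hx2 : v (x ^ 2) ≤ 1 := by rw [map_pow]; exact pow_le_one' hx 2
      exact v_add_le hx3 (v_add_le (v_add_le (v_mul_le_right hW.a2 hx2)
        (v_mul_le_right hW.a4 hx)) hW.a6)
    rw [map_pow] at b2
    exact absurd (hc.trans b0) (not_lt.2 b2)
  · intro hx
    have hx0 : v x ≠ 0 := (zero_lt_one.trans hx).ne'
    have c1 : v x ^ 2 < v x ^ 3 := pow_lt_pow_right₀ hx (by norm_num)
    have c2 : v x ≤ v x ^ 2 := by
      calc v x = v x ^ 1 := (pow_one _).symm
        _ ≤ v x ^ 2 := pow_le_pow_right₀ hx.le (by norm_num)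
    have c3 : (1 : Γ₀) ≤ v x ^ 2 := one_le_pow₀ hx.le
    have hR : v (x ^ 3 + (W.a₂ * x ^ 2 + W.a₄ * x + W.a₆)) = v x ^ 3 := by
      have e1 : v (W.a₂ * x ^ 2 + W.a₄ * x + W.a₆) < v (x ^ 3) := by
        rw [map_pow]
        refine lt_of_le_of_lt ?_ c1
        refine v_add_le (v_add_le (v_mul_le_right hW.a2 (by rw [map_pow])) ?_) (hW.a6.trans c3)
        exact v_mul_le_right hW.a4 c2
      rw [v.map_add_eq_of_lt_left e1, map_pow]
    have hlt : v x < v y := by
      by_contra hc
      push Not at hc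
      have h1 : v (y ^ 2 + (W.a₁ * x * y + W.a₃ * y)) ≤ v x ^ 2 := by
        refine v_add_le ?_ (v_add_le ?_ ?_)
        · rw [map_pow]; exact pow_le_pow_left' hc 2
        · rw [mul_assoc]
          refine v_mul_le_right hW.a1 ?_
          rw [pow_two]
          exact v_mul_le le_rfl hc
        · exact v_mul_le_right hW.a3 (hc.trans c2)
      rw [ee, hR] at h1
      exact absurd h1 (not_le.2 c1)
    have hy1 : 1 < v y := hx.trans hlt
    have hy0 : v y ≠ 0 := (zero_lt_one.trans hy1).ne'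
    have hypos : (0 : Γ₀) < v y := zero_lt_iff.2 hy0
    have hy : y ≠ 0 := fun h0 => hy0 (by rw [h0, map_zero])
    have d0 : v y < v y ^ 2 := by
      calc v y = v y ^ 1 := (pow_one _).symm
        _ < v y ^ 2 := pow_lt_pow_right₀ hy1 (by norm_num)
    have e3 : v y ^ 2 = v x ^ 3 := by
      have b1 : v (W.a₁ * x * y + W.a₃ * y) < v (y ^ 2) := by
        rw [map_pow]
        refine lt_of_le_of_lt (b := max (v x * v y) (v y)) ?_ (max_lt ?_ d0)
        · refine v_add_le (le_trans ?_ (le_max_left _ _)) (le_trans ?_ (le_max_right _ _))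
          · rw [mul_assoc]
            exact v_mul_le_right hW.a1 (v_mul_le le_rfl le_rfl)
          · exact v_mul_le_right hW.a3 le_rfl
        · rw [pow_two]
          exact mul_lt_mul_of_pos_right hlt hypos
      rw [← hR, ← ee, v.map_add_eq_of_lt_left b1, map_pow]
    have hz : v (x / y) = v x / v y := map_div₀ v x y
    rw [Valuation.map_neg, Valuation.map_neg]
    refine ⟨hy, ?_, ?_, ?_, ?_⟩
    · rw [hz]
      exact (div_lt_one₀ hypos).2 hlt
    · rw [hz]; exact div_ne_zero hx0 hy0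
    · rw [hz, map_div₀, map_one, div_pow, ← e3]
      field_simp
    · rw [hz, div_pow, e3]
      field_simp

theorem tg_NEG : S_NEG := by
  intro F _ Γ₀ _ v W hW P hP
  cases P with
  | zero =>
    have e1 : (-(Affine.Point.zero : W.Point)) = Affine.Point.zero := rfl
    rw [e1]
    have e2 : zc (Affine.Point.zero : W.Point) = 0 := rfl
    rw [e2, map_zero]
    refine ⟨zero_lt_one, fun _ => rfl, rfl, ?_⟩
    rw [add_zero, map_zero]
    exact zero_le
  | some x y h =>
    obtain ⟨hy, hz1, hz0, hw, -⟩ := (tg_VAL F Γ₀ v W hW x y h).2 hP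
    have hne : -(Affine.Point.some x y h) = Affine.Point.some x (W.negY x y)
        ((W.nonsingular_neg x y).2 h) := Affine.Point.neg_some h
    rw [hne]
    show v (-(x / y)) < 1 ∧ (v (-(x / y)) = 0 → _) ∧ v (-(x / W.negY x y)) = v (-(x / y)) ∧
      v (-(x / W.negY x y) + -(x / y)) ≤ v (-(x / y)) ^ 2
    obtain ⟨z, hz⟩ : ∃ z : F, z = -(x / y) := ⟨_, rfl⟩
    obtain ⟨w, hw'⟩ : ∃ w : F, w = -(1 / y) := ⟨_, rfl⟩
    rw [← hz] at hz1 hz0 hw ⊢
    rw [← hw'] at hw
    have hwz : v w ≤ v z := by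
      rw [hw]
      calc v z ^ 3 ≤ v z ^ 1 := pow_le_pow_right_of_le_one' hz1.le (by norm_num)
        _ = v z := pow_one _
    have hA : v (W.a₁ * z + W.a₃ * w) ≤ v z :=
      v_add_le (v_mul_le_right hW.a1 le_rfl) (v_mul_le_right hW.a3 hwz)
    have hu : v (1 - (W.a₁ * z + W.a₃ * w)) = 1 := v.map_one_sub_of_lt (lt_of_le_of_lt hA hz1)
    have hu0 : 1 - (W.a₁ * z + W.a₃ * w) ≠ 0 := by
      intro h0
      rw [h0, map_zero] at hu
      exact zero_ne_one hu
    have hN : W.negY x y = -y * (1 - (W.a₁ * z + W.a₃ * w)) := by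
      rw [Affine.negY, hz, hw']
      field_simp
      ring
    have hzn : -(x / W.negY x y) = -z / (1 - (W.a₁ * z + W.a₃ * w)) := by
      rw [hN]
      have hxz : x = -(z * y) := by rw [hz]; field_simp
      rw [hxz]
      field_simp
    rw [hzn]
    refine ⟨hz1, fun h0 => absurd h0 hz0, ?_, ?_⟩
    · rw [map_div₀, hu, div_one, Valuation.map_neg]
    · have e1 : -z / (1 - (W.a₁ * z + W.a₃ * w)) + z =
          -(z * (W.a₁ * z + W.a₃ * w)) / (1 - (W.a₁ * z + W.a₃ * w)) := by
        generalize W.a₁ * z + W.a₃ * w = s at hu0 ⊢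
        rw [eq_div_iff hu0, add_mul, div_mul_cancel₀ _ hu0]
        ring
      rw [e1, map_div₀, hu, div_one, Valuation.map_neg, pow_two]
      exact v_mul_le le_rfl hA

end Pool.Agent.MUXG
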