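import Pool.Agent.MUX.StVG

/-!
# MUX, block VG, modules SING and XSUB (helper65)

A singular point of the reduction makes the discriminant a non-unit; reduction is injective.
-/

set_option autoImplicit false

namespace Pool.Agent.MUXG

open WeierstrassCurve Pool.Agent.MU3.Val

theorem tg_SING : S_SING := by
  intro F _ Γ₀ _ v W hW x y hx hy he h1 h2
  have hN : ∀ n : ℕ, v (n : F) ≤ 1 := v_nat v
  have i4 : v (4 : F) ≤ 1 := by have := hN 4; simpa using this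
  have i8 : v (8 : F) ≤ 1 := by have := hN 8; simpa using this
  have i27 : v (27 : F) ≤ 1 := by have := hN 27; simpa using this
  have i9 : v (9 : F) ≤ 1 := by have := hN 9; simpa using this
  have i2 := v_two v
  have i3 := v_three v
  have m : ∀ {a b : F}, v a ≤ 1 → v b ≤ 1 → v (a * b) ≤ 1 := fun ha hb => v_mul_le_right ha hb
  have ml : ∀ {a b : F}, v a ≤ 1 → v b < 1 → v (a * b) < 1 := by
    intro a b ha hb
    rw [map_mul]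
    exact lt_of_le_of_lt (mul_le_of_le_one_left' ha) hb
  set A2 : F := W.a₂ + 3 * x with hA2
  set A3 : F := 2 * y + W.a₁ * x + W.a₃ with hA3
  set A4 : F := 3 * x ^ 2 + 2 * W.a₂ * x + W.a₄ - W.a₁ * y with hA4
  have he' := (W.equation_iff x y).1 he
  have key : W.Δ = -(W.a₁ ^ 2 + 4 * A2) ^ 2 * (-(W.a₁ * (A3 * A4)) + A2 * (A3 * A3) - A4 * A4) -
      8 * ((2 * A4 + W.a₁ * A3) * ((2 * A4 + W.a₁ * A3) * (2 * A4 + W.a₁ * A3))) -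
      27 * ((A3 * A3) * (A3 * A3)) +
      9 * ((W.a₁ ^ 2 + 4 * A2) * ((2 * A4 + W.a₁ * A3) * (A3 * A3))) := by
    have h6 : W.a₆ = y ^ 2 + W.a₁ * x * y + W.a₃ * y - x ^ 3 - W.a₂ * x ^ 2 - W.a₄ * x := by
      linear_combination -he'
    rw [WeierstrassCurve.Δ, WeierstrassCurve.b₂, WeierstrassCurve.b₄, WeierstrassCurve.b₆,
      WeierstrassCurve.b₈, h6, hA2, hA3, hA4]
    ring
  have vb2 : v (W.a₁ ^ 2 + 4 * A2) ≤ 1 := by
    refine v_add_le ?_ (m i4 ?_)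
    · rw [map_pow]
      exact pow_le_one' hW.a1 2
    · exact v_add_le hW.a2 (m i3 hx)
  have vA2 : v A2 ≤ 1 := v_add_le hW.a2 (m i3 hx)
  have vb4 : v (2 * A4 + W.a₁ * A3) < 1 := v.map_add_lt (ml i2 h2) (ml hW.a1 h1)
  have v33 : v (A3 * A3) < 1 := ml h1.le h1
  have vb8 : v (-(W.a₁ * (A3 * A4)) + A2 * (A3 * A3) - A4 * A4) < 1 := by
    refine v.map_sub_lt (v.map_add_lt ?_ (ml vA2 v33)) (ml h2.le h2)
    rw [Valuation.map_neg]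
    exact ml hW.a1 (ml h1.le h2)
  rw [key]
  refine v.map_add_lt (v.map_sub_lt (v.map_sub_lt ?_ ?_) ?_) ?_
  · refine ml ?_ vb8
    rw [Valuation.map_neg, map_pow]
    exact pow_le_one' vb2 2
  · exact ml i8 (ml vb4.le (ml vb4.le vb4))
  · exact ml i27 (ml v33.le v33)
  · exact ml i9 (ml vb2 (ml vb4.le v33))

/-- a root of a monic quadratic polynomial with integral coefficients is integral -/
theorem int_of_quad {F : Type} [Field F] {Γ₀ : Type} [LinearOrderedCommGroupWithZero Γ₀]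
    {v : Valuation F Γ₀} {l a : F} (ha : v a ≤ 1) (h : v (l ^ 2 + a * l) ≤ 1) : v l ≤ 1 := by
  by_contra hc
  push Not at hc
  have h1 : v (a * l) ≤ v l := by
    rw [map_mul]
    exact mul_le_of_le_one_left' ha
  have h2 : v l < v (l ^ 2) := by
    rw [map_pow, pow_two]
    exact lt_mul_of_one_lt_right (zero_lt_one.trans hc) hc
  have h3 : v (l ^ 2 + a * l) = v (l ^ 2) := v.map_add_eq_of_lt_left (lt_of_le_of_lt h1 h2)
  rw [h3] at h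
  exact absurd (h2.trans_le h) (not_lt.2 hc.le)

/-- the slope of the line through `P`, `Q` is integral if `P + Q` is not near infinity -/
theorem slope_intG {F : Type} [Field F] [DecidableEq F] {Γ₀ : Type}
    [LinearOrderedCommGroupWithZero Γ₀] {v : Valuation F Γ₀} {W : Affine F} (hW : IntG v W)
    {x₁ y₁ x₂ y₂ : F} (h₁ : W.Nonsingular x₁ y₁)
    (h₂ : W.Nonsingular x₂ y₂) (hx₁ : v x₁ ≤ 1) (hx₂ : v x₂ ≤ 1) (hx : x₁ ≠ x₂)
    (hE : ¬ InE v (Affine.Point.some x₁ y₁ h₁ + Affine.Point.some x₂ y₂ h₂)) :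
    v (y₁ - y₂) ≤ v (x₁ - x₂) := by
  rw [Affine.Point.add_of_X_ne hx] at hE
  have hE' : ¬ 1 < v (W.addX x₁ x₂ (W.slope x₁ x₂ y₁ y₂)) := hE
  rw [Affine.slope_of_X_ne hx] at hE'
  push Not at hE'
  rw [Affine.addX] at hE'
  have hd : x₁ - x₂ ≠ 0 := sub_ne_zero.2 hx
  have hd0 : v (x₁ - x₂) ≠ 0 := (Valuation.ne_zero_iff v).2 hd
  have h3 : v (((y₁ - y₂) / (x₁ - x₂)) ^ 2 + W.a₁ * ((y₁ - y₂) / (x₁ - x₂))) ≤ 1 := by
    have e : ((y₁ - y₂) / (x₁ - x₂)) ^ 2 + W.a₁ * ((y₁ - y₂) / (x₁ - x₂)) =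
      (((y₁ - y₂) / (x₁ - x₂)) ^ 2 +
      W.a₁ * ((y₁ - y₂) / (x₁ - x₂)) - W.a₂ - x₁ - x₂) + W.a₂ + x₁ + x₂ := by ring
    rw [e]
    exact v_add_le (v_add_le (v_add_le hE' hW.a2) hx₁) hx₂
  have h4 : v ((y₁ - y₂) / (x₁ - x₂)) ≤ 1 := int_of_quad hW.a1 h3
  rw [map_div₀] at h4
  exact (div_le_one₀ (zero_lt_iff.2 hd0)).1 h4

theorem tg_XSUB (h1 : S_VAL) (h2 : S_SING) : S_XSUB := by
  intro F _ _ Γ₀ _ v W hW hD x₁ y₁ x₂ y₂ h₁ h₂ hE₁ hE₂ hp hm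
  have hx₁ : v x₁ ≤ 1 := not_lt.1 hE₁
  have hx₂ : v x₂ ≤ 1 := not_lt.1 hE₂
  have hy₁ : v y₁ ≤ 1 := (h1 F Γ₀ v W hW x₁ y₁ h₁).1 hx₁
  have hx : x₁ ≠ x₂ := by
    intro hx
    rcases Affine.Y_eq_of_X_eq h₁.1 h₂.1 hx with hy | hy
    · apply hm
      have : Affine.Point.some x₁ y₁ h₁ = Affine.Point.some x₂ y₂ h₂ := by
        subst hx; subst hy; rfl
      rw [this, sub_self]
      exact inE_zero
    · apply hp
      rw [Affine.Point.add_of_Y_eq hx hy]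
      exact inE_zero
  refine le_antisymm (v_sub_le hx₁ hx₂) ?_
  by_contra hc
  push Not at hc
  have s1 := slope_intG hW h₁ h₂ hx₁ hx₂ hx hp
  have s2 : v (y₁ + y₂ + W.a₁ * x₂ + W.a₃) ≤ v (x₁ - x₂) := by
    rw [sub_eq_add_neg, Affine.Point.neg_some] at hm
    have s := slope_intG hW h₁ ((W.nonsingular_neg x₂ y₂).2 h₂) hx₁ hx₂ hx hm
    rw [Affine.negY] at s
    have e : y₁ - (-y₂ - W.a₁ * x₂ - W.a₃) = y₁ + y₂ + W.a₁ * x₂ + W.a₃ := by ring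
    rwa [e] at s
  have hd : x₁ - x₂ ≠ 0 := sub_ne_zero.2 hx
  have hd0 : (0 : Γ₀) < v (x₁ - x₂) := zero_lt_iff.2 ((Valuation.ne_zero_iff v).2 hd)
  have hy : v (2 * y₁ + W.a₁ * x₁ + W.a₃) < 1 := by
    have e : v (2 * y₁ + W.a₁ * x₁ + W.a₃) ≤ v (x₁ - x₂) := by
      rw [show 2 * y₁ + W.a₁ * x₁ + W.a₃ = (y₁ - y₂) + (y₁ + y₂ + W.a₁ * x₂ + W.a₃) +
        W.a₁ * (x₁ - x₂) by ring]
      exact v_add_le (v_add_le s1 s2) (v_mul_le_right hW.a1 le_rfl)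
    exact lt_of_le_of_lt e hc
  have e₁ := (W.equation_iff x₁ y₁).1 h₁.1
  have e₂ := (W.equation_iff x₂ y₂).1 h₂.1
  have hg : v (x₁ ^ 2 + x₁ * x₂ + x₂ ^ 2 + W.a₂ * (x₁ + x₂) + W.a₄ - W.a₁ * y₁) ≤
      v (x₁ - x₂) := by
    have e : (y₁ - y₂) * (y₁ + y₂ + W.a₁ * x₂ + W.a₃) =
        (x₁ - x₂) * (x₁ ^ 2 + x₁ * x₂ + x₂ ^ 2 + W.a₂ * (x₁ + x₂) + W.a₄ - W.a₁ * y₁) := by
      linear_combination e₁ - e₂
    have h3 : v ((y₁ - y₂) * (y₁ + y₂ + W.a₁ * x₂ + W.a₃)) ≤ v (x₁ - x₂) * v (x₁ - x₂) :=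
      v_mul_le s1 s2
    rw [e, map_mul] at h3
    exact le_of_mul_le_mul_left h3 hd0
  have hfin : v W.Δ < 1 := by
    refine h2 F Γ₀ v W hW x₁ y₁ hx₁ hy₁ h₁.1 hy ?_
    rw [show 3 * x₁ ^ 2 + 2 * W.a₂ * x₁ + W.a₄ - W.a₁ * y₁ =
      (x₁ - x₂) * (2 * x₁ + x₂ + W.a₂) +
      (x₁ ^ 2 + x₁ * x₂ + x₂ ^ 2 + W.a₂ * (x₁ + x₂) + W.a₄ - W.a₁ * y₁) by ring]
    refine lt_of_le_of_lt (v_add_le (r := v (x₁ - x₂)) ?_ hg) hc
    rw [map_mul]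
    refine mul_le_of_le_one_right' ?_
    exact v_add_le (v_add_le (v_mul_le_right (v_two v) hx₁) hx₂) hW.a2
  rw [hD] at hfin
  exact lt_irrefl _ hfin

end Pool.Agent.MUXG
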