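import Pool.Agent.MUX.StVG
import Pool.Agent.MUX.G_VAL
import Pool.Agent.MUX.G_XSUB

/-!
# MUX, block VG: the invariant differential is integral (helper77)

`F` a field with a valuation `v` and a derivation `D` with `v (D u) ≤ v u`, `W` an integral Weierstrass
equation with unit discriminant and constant coefficients, `(x, y)` a point, `g = D x / (2 y + a₁ x + a₃)`.
Then `v g ≤ 1`. Also: `2 y + a₁ x + a₃` is a unit unless `2 P` is in the kernel of reduction.
-/

set_option autoImplicit false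

namespace Pool.Agent.MUXG

open WeierstrassCurve Pool.Agent.MU3.Val

/-- `D` is a derivation of the field `F` which does not increase the valuation -/
structure DerV {F : Type} [Field F] {Γ₀ : Type} [LinearOrderedCommGroupWithZero Γ₀]
    (v : Valuation F Γ₀) (D : F → F) : Prop where
  add : ∀ x y, D (x + y) = D x + D y
  mul : ∀ x y, D (x * y) = D x * y + x * D y
  le : ∀ x, v (D x) ≤ v x

/-- THE INVARIANT DIFFERENTIAL IS INTEGRAL. -/
theorem dif_int {F : Type} [Field F] {Γ₀ : Type} [LinearOrderedCommGroupWithZero Γ₀]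
    (v : Valuation F Γ₀) (D : F → F) (hD : DerV v D) (W : Affine F) (hW : IntG v W)
    (hΔ : v W.Δ = 1) (x y g : F) (h : W.Nonsingular x y)
    (hx : D x = (2 * y + W.a₁ * x + W.a₃) * g)
    (hy : D y = (3 * x ^ 2 + 2 * W.a₂ * x + W.a₄ - W.a₁ * y) * g) : v g ≤ 1 := by
  have hval := tg_VAL F Γ₀ v W hW x y h
  have heq := (W.equation_iff x y).1 h.1
  have d0 : D 0 = 0 := by
    have := hD.add 0 0
    rw [add_zero] at this
    exact (left_eq_add.1 this)
  rcases le_or_gt (v x) 1 with hx1 | hx1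
  · -- integral point
    have hy1 := hval.1 hx1
    by_contra hg
    push Not at hg
    have hg0 : v g ≠ 0 := (zero_lt_one.trans hg).ne'
    have k1 : v (2 * y + W.a₁ * x + W.a₃) < 1 := by
      by_contra hc
      push Not at hc
      have h1 : v (D x) ≤ 1 := (hD.le x).trans hx1
      rw [hx, map_mul] at h1
      exact absurd h1 (not_le.2 (lt_of_lt_of_le hg (le_mul_of_one_le_left' hc)))
    have k2 : v (3 * x ^ 2 + 2 * W.a₂ * x + W.a₄ - W.a₁ * y) < 1 := by
      by_contra hc
      push Not at hc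
      have h1 : v (D y) ≤ 1 := (hD.le y).trans hy1
      rw [hy, map_mul] at h1
      exact absurd h1 (not_le.2 (lt_of_lt_of_le hg (le_mul_of_one_le_left' hc)))
    have := tg_SING F Γ₀ v W hW x y hx1 hy1 h.1 k1 k2
    rw [hΔ] at this
    exact lt_irrefl _ this
  · -- point near infinity
    obtain ⟨hy0, ht1, ht0, hw, hxt⟩ := hval.2 hx1
    set t := -(x / y) with ht
    set w := -(1 / y) with hwd
    have hxe : x = t / w := by
      rw [ht, hwd]; field_simp
    have hyw : y * w = -1 := by rw [hwd]; field_simp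
    have hty : t * y = -x := by rw [ht]; field_simp
    -- derivative of `t`
    have dt : D t * y = -D x - t * D y := by
      have h1 := hD.mul t y
      rw [hty] at h1
      have h2 : D (-x) = -D x := by
        have := hD.add (-x) x
        rw [neg_add_cancel, d0] at this
        linear_combination -this
      rw [h2] at h1
      linear_combination -h1
    -- the formula
    have key : D t = (1 - (W.a₁ * t + W.a₂ * t ^ 2 + 2 * W.a₃ * w + 2 * W.a₄ * t * w +
        3 * W.a₆ * w ^ 2)) * g := by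
      have h3 : D t * y ^ 3 = (1 - (W.a₁ * t + W.a₂ * t ^ 2 + 2 * W.a₃ * w + 2 * W.a₄ * t * w +
        3 * W.a₆ * w ^ 2)) * g * y ^ 3 := by
        have e1 : D t * y ^ 3 = (-D x * y - (t * y) * D y) * y := by
          linear_combination (y ^ 2) * dt
        have e2 : (1 - (W.a₁ * t + W.a₂ * t ^ 2 + 2 * W.a₃ * w + 2 * W.a₄ * t * w +
            3 * W.a₆ * w ^ 2)) * g * y ^ 3 = (y ^ 2 - W.a₁ * (t * y) * y - W.a₂ * (t * y) ^ 2 -
            2 * W.a₃ * (y * w) * y - 2 * W.a₄ * (t * y) * (y * w) - 3 * W.a₆ * (y * w) ^ 2) *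
              (y * g) := by
          ring
        rw [e1, e2, hty, hyw, hx, hy]
        linear_combination (-3 * y * g) * heq
      have hy3 : y ^ 3 ≠ 0 := pow_ne_zero 3 hy0
      exact mul_right_cancel₀ hy3 h3
    have hwlt : v w < 1 := by
      rw [hw]; exact pow_lt_one₀ zero_le ht1 (by norm_num)
    have hN : ∀ {a b : F} {r : Γ₀}, v a ≤ 1 → v b ≤ r → v (a * b) ≤ r :=
      fun ha hb => v_mul_le_right ha hb
    have htw : v w ≤ v t := by
      rw [hw]
      calc v t ^ 3 ≤ v t ^ 1 := pow_le_pow_right_of_le_one' ht1.le (by norm_num)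
        _ = v t := pow_one _
    have ht2 : v (t ^ 2) ≤ v t := by
      rw [map_pow]
      calc v t ^ 2 ≤ v t ^ 1 := pow_le_pow_right_of_le_one' ht1.le (by norm_num)
        _ = v t := pow_one _
    have hw2 : v (w ^ 2) ≤ v t := by
      rw [map_pow]
      calc v w ^ 2 ≤ v w ^ 1 := pow_le_pow_right_of_le_one' hwlt.le (by norm_num)
        _ = v w := pow_one _
        _ ≤ v t := htw
    have hfw : v (W.a₁ * t + W.a₂ * t ^ 2 + 2 * W.a₃ * w + 2 * W.a₄ * t * w +
        3 * W.a₆ * w ^ 2) < 1 := by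
      refine lt_of_le_of_lt ?_ ht1
      refine v_add_le (v_add_le (v_add_le (v_add_le (hN hW.a1 le_rfl) (hN hW.a2 ht2)) ?_) ?_) ?_
      · exact hN (hN (v_two v) hW.a3) htw
      · refine hN (hN (hN (v_two v) hW.a4) ht1.le) htw
      · exact hN (hN (v_three v) hW.a6) hw2
    have hu : v (1 - (W.a₁ * t + W.a₂ * t ^ 2 + 2 * W.a₃ * w + 2 * W.a₄ * t * w +
        3 * W.a₆ * w ^ 2)) = 1 := v.map_one_sub_of_lt hfw
    have h5 : v (D t) = v g := by rw [key, map_mul, hu, one_mul]
    rw [← h5]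
    exact (hD.le t).trans ht1.le

/-- `2 y + a₁ x + a₃` is a unit unless `2 P` is in the kernel of reduction. -/
theorem v_dx_unit {F : Type} [Field F] [DecidableEq F] {Γ₀ : Type}
    [LinearOrderedCommGroupWithZero Γ₀]
    (v : Valuation F Γ₀) (W : Affine F) (hW : IntG v W) (hΔ : v W.Δ = 1) {x y : F}
    (h : W.Nonsingular x y) (hE : ¬ InE v (Affine.Point.some x y h))
    (h2P : ¬ InE v (Affine.Point.some x y h + Affine.Point.some x y h)) :
    v (2 * y + W.a₁ * x + W.a₃) = 1 := by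
  have hx : v x ≤ 1 := not_lt.1 hE
  have hy1 := (tg_VAL F Γ₀ v W hW x y h).1 hx
  have hle : v (2 * y + W.a₁ * x + W.a₃) ≤ 1 :=
    v_add_le (v_add_le (v_mul_le_right (v_two v) hy1) (v_mul_le_right hW.a1 hx)) hW.a3
  refine le_antisymm hle ?_
  by_contra hc
  push Not at hc
  have hyn : y ≠ W.negY x y := by
    intro hy
    apply h2P
    rw [Affine.Point.add_self_of_Y_eq hy]
    exact inE_zero
  have e0 : y - W.negY x y = 2 * y + W.a₁ * x + W.a₃ := by
    rw [Affine.negY]; ring
  have hne : 2 * y + W.a₁ * x + W.a₃ ≠ 0 := by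
    rw [← e0]; exact sub_ne_zero.2 hyn
  rw [Affine.Point.add_self_of_Y_ne hyn] at h2P
  have h2P' : ¬ 1 < v (W.addX x x (W.slope x x y y)) := h2P
  rw [Affine.slope_of_Y_ne rfl hyn, e0] at h2P'
  push Not at h2P'
  rw [Affine.addX] at h2P'
  set l := (3 * x ^ 2 + 2 * W.a₂ * x + W.a₄ - W.a₁ * y) / (2 * y + W.a₁ * x + W.a₃) with hl
  have hl1 : v l ≤ 1 := by
    by_contra hc2
    push Not at hc2
    have h3 : v (l ^ 2 + W.a₁ * l) ≤ 1 := by
      have e : l ^ 2 + W.a₁ * l = (l ^ 2 + W.a₁ * l - W.a₂ - x - x) + W.a₂ + x + x := by ring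
      rw [e]
      exact v_add_le (v_add_le (v_add_le h2P' hW.a2) hx) hx
    have h4 : v (W.a₁ * l) < v (l ^ 2) := by
      rw [map_pow]
      refine lt_of_le_of_lt (v_mul_le_right hW.a1 le_rfl) ?_
      calc v l = v l ^ 1 := (pow_one _).symm
        _ < v l ^ 2 := pow_lt_pow_right₀ hc2 (by norm_num)
    rw [v.map_add_eq_of_lt_left h4, map_pow] at h3
    exact absurd h3 (not_le.2 (one_lt_pow₀ hc2 (by norm_num)))
  have h5 : 3 * x ^ 2 + 2 * W.a₂ * x + W.a₄ - W.a₁ * y = l * (2 * y + W.a₁ * x + W.a₃) := by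
    rw [hl, div_mul_cancel₀ _ hne]
  have h6 : v (3 * x ^ 2 + 2 * W.a₂ * x + W.a₄ - W.a₁ * y) < 1 := by
    rw [h5, map_mul]
    exact lt_of_le_of_lt (mul_le_of_le_one_left' hl1) hc
  have := tg_SING F Γ₀ v W hW x y hx hy1 h.1 hc h6
  rw [hΔ] at this
  exact lt_irrefl _ this

end Pool.Agent.MUXG
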