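import Pool.Agent.MUX.StVG

/-!
# MUX, block VG: translation by a point near infinity, general Weierstrass form

`P = (x₁, y₁)` integral, `Q` in the kernel of reduction, `z = zc Q = -x(Q)/y(Q)`. Then
`x(P + Q) = x(P) + (2 y(P) + a₁ x(P) + a₃) z` modulo `z²` and `y(P + Q) = y(P)` modulo `z`.
-/

set_option autoImplicit false

namespace Pool.Agent.MUXG

open WeierstrassCurve Pool.Agent.MU3.Val

theorem tg_NEAR (h1 : S_VAL) : S_NEAR := by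
  intro F _ _ Γ₀ _ v W hW x₁ y₁ x₂ y₂ h₁ h₂ hP hQ
  have hx₁ : v x₁ ≤ 1 := not_lt.1 hP
  have hx₂ : 1 < v x₂ := hQ
  have hy₁ : v y₁ ≤ 1 := (h1 F Γ₀ v W hW x₁ y₁ h₁).1 hx₁
  obtain ⟨hy₂, hz, hz0, hw, hxz⟩ := (h1 F Γ₀ v W hW x₂ y₂ h₂).2 hx₂
  have e₂ := (W.equation_iff x₂ y₂).1 h₂.1
  have e₁ := (W.equation_iff x₁ y₁).1 h₁.1
  have hx : x₁ ≠ x₂ := by
    intro h
    rw [h] at hx₁
    exact absurd hx₁ (not_le.2 hx₂)
  have hadd := Affine.Point.add_of_X_ne hx (h₁ := h₁) (h₂ := h₂)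
  have hsl := Affine.slope_of_X_ne (W := W) (y₁ := y₁) (y₂ := y₂) hx
  set l := W.slope x₁ x₂ y₁ y₂ with hl
  have h₃ := Affine.nonsingular_add h₁ h₂ (fun h => hx h.1)
  rw [← hl] at h₃
  set z := -(x₂ / y₂) with hzd
  set w := 1 / y₂ with hwd
  have hw' : v w = v z ^ 3 := by
    have := hw
    rw [Valuation.map_neg] at this
    exact this
  have hzw : z = -(x₂ * w) := by rw [hzd, hwd]; ring
  have hyw : y₂ * w = 1 := by rw [hwd]; field_simp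
  set D := x₂ - x₁ with hDd
  have hD : v D = v x₂ := by
    rw [hDd, sub_eq_add_neg]
    apply v.map_add_eq_of_lt_left
    rw [Valuation.map_neg]
    exact lt_of_le_of_lt hx₁ hx₂
  have hx20 : (0 : Γ₀) < v x₂ := zero_lt_one.trans hx₂
  have hD0 : D ≠ 0 := sub_ne_zero.2 (Ne.symm hx)
  have hlD : l * D = y₂ - y₁ := by
    rw [hsl, hDd]
    have : x₁ - x₂ ≠ 0 := sub_ne_zero.2 hx
    field_simp
    ring
  have hx₃ : W.addX x₁ x₂ l = l ^ 2 + W.a₁ * l - W.a₂ - x₁ - x₂ := by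
    rw [Affine.addX]
  have hy₃ : W.addY x₁ x₂ y₁ l = -(l * (W.addX x₁ x₂ l - x₁) + y₁) -
      W.a₁ * W.addX x₁ x₂ l - W.a₃ := by
    rw [Affine.addY, Affine.negAddY, Affine.negY]
  have hzle : v z ≤ 1 := hz.le
  have i2 := v_two v
  have i3 := v_three v
  have m : ∀ {a b : F} {r : Γ₀}, v a ≤ 1 → v b ≤ r → v (a * b) ≤ r :=
    fun ha hb => v_mul_le_right ha hb
  obtain ⟨B, hB⟩ : ∃ B : F, B = 2 * y₁ + W.a₁ * x₁ + W.a₃ := ⟨_, rfl⟩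
  have hB1 : v B ≤ 1 := by
    rw [hB]
    exact v_add_le (v_add_le (m i2 hy₁) (m hW.a1 hx₁)) hW.a3
  -- the numerator
  set N := -(B * ((W.a₂ * x₂ ^ 2 + W.a₄ * x₂ + W.a₆) * w - W.a₁ * x₂ - W.a₃)) +
    B * (z * (x₁ * (2 * x₂) - x₁ ^ 2)) + W.a₄ * x₂ + W.a₆ + y₁ ^ 2 - W.a₁ * (y₁ * x₂) +
    W.a₁ * (x₁ * y₁) + 3 * (x₁ ^ 2 * x₂) - 2 * x₁ ^ 3 + 2 * (W.a₂ * (x₁ * x₂)) -
    W.a₂ * x₁ ^ 2 with hN
  have key : (W.addX x₁ x₂ l - x₁ - B * z) * D ^ 2 = N := by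
    have e3 : (W.addX x₁ x₂ l - x₁ - B * z) * D ^ 2 =
        (l * D) ^ 2 + W.a₁ * (l * D) * D - D ^ 2 * (W.a₂ + 2 * x₁ + x₂ + B * z) := by
      rw [hx₃]; ring
    rw [e3, hlD, hN, hzw, hDd]
    have e4 : y₂ ^ 2 = x₂ ^ 3 + W.a₂ * x₂ ^ 2 + W.a₄ * x₂ + W.a₆ - W.a₁ * x₂ * y₂ - W.a₃ * y₂ := by
      linear_combination e₂
    linear_combination (1 - B * w) * e₂ + (B * (y₂ + W.a₁ * x₂ + W.a₃)) * hyw + y₂ * hB
  have hX1 : (1 : Γ₀) ≤ v x₂ := hx₂.le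
  have p1 : v (x₁ ^ 2) ≤ 1 := by rw [map_pow]; exact pow_le_one' hx₁ 2
  have p2 : v (x₁ ^ 3) ≤ 1 := by rw [map_pow]; exact pow_le_one' hx₁ 3
  have hNv : v N ≤ v x₂ := by
    have t1 : v ((W.a₂ * x₂ ^ 2 + W.a₄ * x₂ + W.a₆) * w) ≤ v x₂ := by
      have b1 : v (W.a₂ * x₂ ^ 2 + W.a₄ * x₂ + W.a₆) ≤ v x₂ ^ 2 := by
        have b2 : v x₂ ≤ v x₂ ^ 2 := by
          calc v x₂ = v x₂ ^ 1 := (pow_one _).symm
            _ ≤ v x₂ ^ 2 := pow_le_pow_right₀ hX1 (by norm_num)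
        refine v_add_le (v_add_le (m hW.a2 (by rw [map_pow])) (m hW.a4 b2)) ?_
        exact hW.a6.trans (one_le_pow₀ hX1)
      rw [map_mul, hw']
      refine (mul_le_mul' b1 le_rfl).trans ?_
      calc v x₂ ^ 2 * v z ^ 3 = v x₂ * (v x₂ * v z ^ 2) * v z := by
            rw [pow_succ (v z) 2, pow_two (v x₂)]
            simp only [mul_assoc]
        _ = v x₂ * v z := by rw [hxz, mul_one]
        _ ≤ v x₂ := mul_le_of_le_one_right' hzle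
    have t2 : v ((W.a₂ * x₂ ^ 2 + W.a₄ * x₂ + W.a₆) * w - W.a₁ * x₂ - W.a₃) ≤ v x₂ :=
      v_sub_le (v_sub_le t1 (m hW.a1 le_rfl)) (hW.a3.trans hX1)
    have t3 : v (z * (x₁ * (2 * x₂) - x₁ ^ 2)) ≤ v x₂ :=
      m hzle (v_sub_le (m hx₁ (m i2 le_rfl)) (p1.trans hX1))
    have t4 : v (y₁ ^ 2) ≤ v x₂ := by
      rw [map_pow]; exact (pow_le_one' hy₁ 2).trans hX1
    rw [hN]
    refine v_sub_le (v_add_le (v_sub_le (v_add_le (v_add_le (v_sub_le (v_add_le (v_add_le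
      (v_add_le (v_add_le ?_ (m hB1 t3)) (m hW.a4 le_rfl)) (hW.a6.trans hX1)) t4)
      (m hW.a1 (m hy₁ le_rfl))) ((m hW.a1 (m hx₁ hy₁)).trans hX1))
      (m i3 (m p1 le_rfl))) ((m i2 p2).trans hX1)) (m i2 (m hW.a2 (m hx₁ le_rfl))))
      ((m hW.a2 p1).trans hX1)
    rw [Valuation.map_neg]
    exact m hB1 t2
  have c1 : v (W.addX x₁ x₂ l - x₁ - B * z) ≤ v z ^ 2 := by
    have h4 : v (W.addX x₁ x₂ l - x₁ - B * z) * v x₂ ^ 2 ≤ v x₂ := by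
      rw [← hD, ← map_pow, ← map_mul, key, hD]; exact hNv
    have h5 : v (W.addX x₁ x₂ l - x₁ - B * z) * v x₂ ≤ v z ^ 2 * v x₂ := by
      have : v (W.addX x₁ x₂ l - x₁ - B * z) * v x₂ * v x₂ ≤ v z ^ 2 * v x₂ * v x₂ := by
        rw [mul_assoc, ← pow_two, mul_comm (v z ^ 2), hxz, one_mul]; exact h4
      exact le_of_mul_le_mul_right this hx20
    exact le_of_mul_le_mul_right h5 hx20
  have hz21 : v z ^ 2 ≤ v z := by
    rw [pow_two]; exact mul_le_of_le_one_right' hzle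
  have c2 : v (W.addX x₁ x₂ l - x₁) ≤ v z := by
    have e : W.addX x₁ x₂ l - x₁ = (W.addX x₁ x₂ l - x₁ - B * z) + B * z := by ring
    rw [e]
    exact v_add_le (c1.trans hz21) (m hB1 le_rfl)
  have c3 : v (l * z + 1) ≤ v z ^ 2 := by
    have e : (l * z + 1) * D = -x₁ - y₁ * z := by
      have e5 : (l * z + 1) * D = (l * D) * z + D := by ring
      rw [e5, hlD, hDd, hzw]
      linear_combination (-x₂) * hyw
    have h4 : v (l * z + 1) * v x₂ ≤ 1 := by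
      rw [← hD, ← map_mul, e]
      exact v_sub_le (by rw [Valuation.map_neg]; exact hx₁) (m hy₁ hzle)
    have h5 : v (l * z + 1) * v x₂ ≤ v z ^ 2 * v x₂ := by
      rw [mul_comm (v z ^ 2), hxz]; exact h4
    exact le_of_mul_le_mul_right h5 hx20
  have c4 : v l * v z = 1 := by
    have hz2lt : v z ^ 2 < 1 := pow_lt_one₀ zero_le hz (by norm_num)
    have e : l * z = -1 + (l * z + 1) := by ring
    rw [← map_mul, e, v.map_add_eq_of_lt_left, Valuation.map_neg, map_one]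
    rw [Valuation.map_neg, map_one]
    exact lt_of_le_of_lt c3 hz2lt
  have c5 : v (W.addY x₁ x₂ y₁ l - y₁) ≤ v z := by
    have e : W.addY x₁ x₂ y₁ l - y₁ = -(l * (W.addX x₁ x₂ l - x₁ - B * z)) -
        B * (l * z + 1) - W.a₁ * (W.addX x₁ x₂ l - x₁) := by
      rw [hy₃]
      linear_combination hB
    rw [e]
    refine v_sub_le (v_sub_le ?_ (m hB1 (c3.trans hz21))) (m hW.a1 c2)
    rw [Valuation.map_neg, map_mul]
    calc v l * v (W.addX x₁ x₂ l - x₁ - B * z) ≤ v l * v z ^ 2 := mul_le_mul' le_rfl c1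
      _ = (v l * v z) * v z := by rw [pow_two, mul_assoc]
      _ = v z := by rw [c4, one_mul]
  rw [← hB]
  refine ⟨W.addX x₁ x₂ l, W.addY x₁ x₂ y₁ l, h₃, hadd, ?_, c1, c2, c5⟩
  show ¬ 1 < v (W.addX x₁ x₂ l)
  rw [not_lt, show W.addX x₁ x₂ l = (W.addX x₁ x₂ l - x₁) + x₁ by ring]
  exact v_add_le (c2.trans hzle) hx₁

end Pool.Agent.MUXG
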