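import Pool.Agent.MUX.StR2
import Pool.Agent.MUX.VX
import Pool.Agent.MUX.G_VAL
import Pool.Agent.MUX.G_ADD
import Pool.Agent.MUX.G_XSUB
import Pool.Agent.MUX.G_NEAR
import Pool.Agent.MUX.G_DIF

/-!
# MUX, block VG: the valuation lemmas for the points `ξ(z)`, `z ∈ ℂ`, of any elliptic curve with good
reduction, general Weierstrass form (helper77)

The version of `VX.lean` (helper59) in all residue characteristics: `GRG` (defined in `StR2.lean`) instead of
`GR`. The kernel of reduction `InK V L X` and the parameter `tX X Y z = -X z / Y z` are those of `VX.lean`.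
Changes: `v_tX_add` is additive to SECOND order; `near` has `DX = 2 Y + a₁ X + a₃`.
-/

set_option autoImplicit false

open WeierstrassCurve

namespace Pool.Agent.MUX2

open Pool.Agent.MU3.Val Pool.Agent.MUXV Pool.Agent.MUXG

noncomputable section

section
variable {V : ValuationSubring ℂ} {W : WeierstrassCurve.Affine ℂ} {L : PeriodPair}
  {X Y : ℂ → ℂ} {ξ : ℂ →+ W.Point}

lemma gInE_iff (G : GRG V W L X Y ξ) (z : ℂ) : InE V.valuation (ξ z) ↔ InK V L X z := by
  by_cases hz : z ∈ L.lattice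
  · rw [G.zero z hz]
    exact ⟨fun _ => Or.inl hz, fun _ => inE_zero⟩
  · obtain ⟨h1, e⟩ := G.some z hz
    rw [e]
    show 1 < V.valuation (X z) ↔ _
    unfold InK
    rw [← not_le, ValuationSubring.valuation_le_one_iff]
    tauto

lemma gZc (G : GRG V W L X Y ξ) {z : ℂ} (hz : z ∉ L.lattice) : zc (ξ z) = tX X Y z := by
  obtain ⟨h1, e⟩ := G.some z hz
  rw [e]; rfl

lemma gInt_Y (G : GRG V W L X Y ξ) {z : ℂ}
    (hz : ¬ InK V L X z) : V.valuation (Y z) ≤ 1 := by
  obtain ⟨h1, h3⟩ := int_X hz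
  obtain ⟨h4, e⟩ := G.some z h1
  exact (tg_VAL ℂ _ V.valuation W G.int _ _ h4).1 h3

lemma gInK_add (G : GRG V W L X Y ξ) {z w : ℂ}
    (hz : InK V L X z) (hw : InK V L X w) : InK V L X (z + w) := by
  classical
  rw [← gInE_iff G] at hz hw ⊢
  rw [map_add]
  exact (tg_ADD tg_VAL tg_NEG ℂ _ V.valuation W G.int _ _ hz hw).1

lemma gInK_neg (G : GRG V W L X Y ξ) {z : ℂ}
    (hz : InK V L X z) : InK V L X (-z) := by
  rw [← gInE_iff G] at hz ⊢
  rw [map_neg]
  exact inE_neg hz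

lemma gInK_sub (G : GRG V W L X Y ξ) {z w : ℂ}
    (hz : InK V L X z) (hw : InK V L X w) : InK V L X (z - w) := by
  rw [sub_eq_add_neg]
  exact gInK_add G hz (gInK_neg G hw)

lemma gInK_nat (G : GRG V W L X Y ξ) {z : ℂ}
    (hz : InK V L X z) (n : ℕ) : InK V L X (n * z) := by
  induction n with
  | zero => simpa using inK_zero
  | succ n ih =>
    have : ((n + 1 : ℕ) : ℂ) * z = n * z + z := by push_cast; ring
    rw [this]
    exact gInK_add G ih hz

lemma gInK_int (G : GRG V W L X Y ξ) {z : ℂ}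
    (hz : InK V L X z) (n : ℤ) : InK V L X (n * z) := by
  obtain ⟨m, rfl | rfl⟩ := n.eq_nat_or_neg
  · simpa using gInK_nat G hz m
  · have : ((-(m : ℤ) : ℤ) : ℂ) * z = -(m * z) := by push_cast; ring
    rw [this]
    exact gInK_neg G (gInK_nat G hz m)

/-- congruence modulo the kernel of reduction -/
lemma gInK_congr (G : GRG V W L X Y ξ) {z w : ℂ}
    (hzw : InK V L X (z - w)) : InK V L X z ↔ InK V L X w := by
  constructor
  · intro hz
    have := gInK_sub G hz hzw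
    rwa [sub_sub_cancel] at this
  · intro hw
    have := gInK_add G hzw hw
    rwa [sub_add_cancel] at this

lemma gv_tX_lt (G : GRG V W L X Y ξ) {z : ℂ}
    (hz : InK V L X z) (hL : z ∉ L.lattice) :
    V.valuation (tX X Y z) < 1 ∧ V.valuation (tX X Y z) ≠ 0 ∧
      V.valuation (X z) * V.valuation (tX X Y z) ^ 2 = 1 := by
  obtain ⟨h1, e⟩ := G.some z hL
  have h3 := (gInE_iff G z).2 hz
  rw [e] at h3
  obtain ⟨-, h4, h5, -, h6⟩ := (tg_VAL ℂ _ V.valuation W G.int _ _ h1).2 h3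
  exact ⟨h4, h5, h6⟩

/-- additivity of the parameter to second order -/
lemma gv_tX_add (G : GRG V W L X Y ξ) {z w : ℂ}
    (hz : InK V L X z) (hw : InK V L X w) (hzL : z ∉ L.lattice) (hwL : w ∉ L.lattice)
    (hzw : z + w ∉ L.lattice) :
    V.valuation (tX X Y (z + w) - tX X Y z - tX X Y w) ≤
      (max (V.valuation (tX X Y z)) (V.valuation (tX X Y w))) ^ 2 := by
  classical
  rw [← gInE_iff G] at hz hw
  have h3 := (tg_ADD tg_VAL tg_NEG ℂ _ V.valuation W G.int _ _ hz hw).2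
  rwa [← map_add, gZc G hzL, gZc G hwL, gZc G hzw] at h3

/-- the parameter of the opposite point -/
lemma gv_tX_neg (G : GRG V W L X Y ξ) {z : ℂ} (hz : InK V L X z) (hzL : z ∉ L.lattice) :
    V.valuation (tX X Y (-z)) = V.valuation (tX X Y z) ∧
    V.valuation (tX X Y (-z) + tX X Y z) ≤ V.valuation (tX X Y z) ^ 2 := by
  rw [← gInE_iff G] at hz
  have h3 := (tg_NEG ℂ _ V.valuation W G.int _ hz).2.2
  have hn : -z ∉ L.lattice := fun h => hzL (by simpa using neg_mem h)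
  rwa [← map_neg, gZc G hzL, gZc G hn] at h3

/-- the coordinate function on the points of the kernel of reduction, with value `0` at `0` -/
lemma gzc_nsmul (G : GRG V W L X Y ξ) {z : ℂ} (hz : InK V L X z) (n : ℕ) :
    V.valuation (zc (ξ (n * z)) - n * zc (ξ z)) ≤ V.valuation (zc (ξ z)) ^ 2 ∧
      V.valuation (zc (ξ (n * z))) ≤ V.valuation (zc (ξ z)) := by
  classical
  have hlt : V.valuation (zc (ξ z)) < 1 :=
    (tg_NEG ℂ _ V.valuation W G.int _ ((gInE_iff G z).2 hz)).1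
  have hsq : V.valuation (zc (ξ z)) ^ 2 ≤ V.valuation (zc (ξ z)) := by
    rw [pow_two]; exact mul_le_of_le_one_right' hlt.le
  induction n with
  | zero =>
    have h0 : ξ ((0 : ℕ) * z) = 0 := by simp
    rw [h0, zc_zero]
    simp
  | succ n ih =>
    obtain ⟨ih1, ih2⟩ := ih
    have e : ((n + 1 : ℕ) : ℂ) * z = n * z + z := by push_cast; ring
    have h3 := (tg_ADD tg_VAL tg_NEG ℂ _ V.valuation W G.int _ _
      ((gInE_iff G _).2 (gInK_nat G hz n)) ((gInE_iff G z).2 hz)).2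
    rw [max_eq_right ih2] at h3
    rw [e, map_add]
    have h4 : V.valuation (zc (ξ (n * z) + ξ z) - ((n + 1 : ℕ) : ℂ) * zc (ξ z)) ≤
        V.valuation (zc (ξ z)) ^ 2 := by
      have e2 : zc (ξ (n * z) + ξ z) - ((n + 1 : ℕ) : ℂ) * zc (ξ z) =
          (zc (ξ (n * z) + ξ z) - zc (ξ (n * z)) - zc (ξ z)) +
            (zc (ξ (n * z)) - n * zc (ξ z)) := by push_cast; ring
      rw [e2]
      exact v_add_le h3 ih1
    refine ⟨h4, ?_⟩
    have e3 : zc (ξ (n * z) + ξ z) = (zc (ξ (n * z) + ξ z) - ((n + 1 : ℕ) : ℂ) * zc (ξ z)) +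
        ((n + 1 : ℕ) : ℂ) * zc (ξ z) := by ring
    rw [e3]
    exact v_add_le (h4.trans hsq) (v_mul_le_right (v_nat _ _) le_rfl)

/-- the parameter of a multiple -/
lemma gv_zc_nat (G : GRG V W L X Y ξ) {z : ℂ}
    (hz : InK V L X z) {n : ℕ} (hn : V.valuation (n : ℂ) = 1) :
    V.valuation (zc (ξ (n * z))) = V.valuation (zc (ξ z)) := by
  have hlt : V.valuation (zc (ξ z)) < 1 :=
    (tg_NEG ℂ _ V.valuation W G.int _ ((gInE_iff G z).2 hz)).1
  obtain ⟨h1, h2⟩ := gzc_nsmul G hz n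
  by_cases h0 : V.valuation (zc (ξ z)) = 0
  · rw [h0] at h2 ⊢
    exact le_antisymm h2 zero_le
  · have h4 : V.valuation (zc (ξ z)) ^ 2 < V.valuation (zc (ξ z)) := by
      rw [pow_two]
      exact mul_lt_of_lt_one_right (zero_lt_iff.2 h0) hlt
    have e : zc (ξ (n * z)) = n * zc (ξ z) + (zc (ξ (n * z)) - n * zc (ξ z)) := by ring
    have h5 : V.valuation (n * zc (ξ z)) = V.valuation (zc (ξ z)) := by rw [map_mul, hn, one_mul]
    rw [e, V.valuation.map_add_eq_of_lt_left, h5]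
    rw [h5]
    exact lt_of_le_of_lt h1 h4

/-- the parameter of a multiple -/
lemma gv_tX_nat (G : GRG V W L X Y ξ) {z : ℂ}
    (hz : InK V L X z) {n : ℕ} (hn : V.valuation (n : ℂ) = 1) (hzL : z ∉ L.lattice)
    (hnL : n * z ∉ L.lattice) :
    V.valuation (tX X Y (n * z)) = V.valuation (tX X Y z) := by
  have h3 := gv_zc_nat G hz hn
  rwa [gZc G hzL, gZc G hnL] at h3

/-- no torsion prime to the residue characteristic in the kernel of reduction -/
lemma gmem_of_nat_mul (G : GRG V W L X Y ξ) {z : ℂ}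
    (hz : InK V L X z) {n : ℕ} (hn : V.valuation (n : ℂ) = 1)
    (hnL : n * z ∈ L.lattice) : z ∈ L.lattice := by
  by_contra hzL
  have h3 := gv_zc_nat G hz hn
  rw [G.zero _ hnL, zc_zero, map_zero, gZc G hzL] at h3
  exact (gv_tX_lt G hz hzL).2.1 h3.symm

/-- the difference of the `x`-coordinates is a unit -/
lemma gv_X_sub (G : GRG V W L X Y ξ) {z w : ℂ}
    (hz : ¬ InK V L X z) (hw : ¬ InK V L X w) (hp : ¬ InK V L X (z + w))
    (hm : ¬ InK V L X (z - w)) : V.valuation (X z - X w) = 1 := by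
  classical
  obtain ⟨h3, e3⟩ := G.some z (int_X hz).1
  obtain ⟨h4, e4⟩ := G.some w (int_X hw).1
  rw [← gInE_iff G] at hz hw hp hm
  rw [map_add] at hp
  rw [map_sub] at hm
  rw [e3] at hz hp hm
  rw [e4] at hw hp hm
  exact tg_XSUB tg_VAL tg_SING ℂ _ V.valuation W G.int G.disc _ _ _ _ h3 h4 hz hw hp hm

/-- `DX = 2Y + a₁X + a₃` is a unit at `z` unless `2 z` is in the kernel of reduction -/
lemma gv_DX (G : GRG V W L X Y ξ) {z : ℂ} (hz : ¬ InK V L X z) (h2 : ¬ InK V L X (2 * z)) :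
    V.valuation (2 * Y z + W.a₁ * X z + W.a₃) = 1 := by
  classical
  obtain ⟨h3, e3⟩ := G.some z (int_X hz).1
  rw [← gInE_iff G] at hz h2
  rw [two_mul, map_add, e3] at h2
  rw [e3] at hz
  exact v_dx_unit V.valuation W G.int G.disc h3 hz h2

/-- addition of a point in the kernel of reduction -/
lemma gnear (G : GRG V W L X Y ξ) {z w : ℂ}
    (hz : ¬ InK V L X z) (hw : InK V L X w) (hwL : w ∉ L.lattice) :
    ¬ InK V L X (z + w) ∧
    V.valuation (X (z + w) - X z - (2 * Y z + W.a₁ * X z + W.a₃) * tX X Y w) ≤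
      V.valuation (tX X Y w) ^ 2 ∧
    V.valuation (X (z + w) - X z) ≤ V.valuation (tX X Y w) ∧
    V.valuation (Y (z + w) - Y z) ≤ V.valuation (tX X Y w) := by
  classical
  have hzw : ¬ InK V L X (z + w) := by
    rw [gInK_congr G (w := z) (by rwa [add_sub_cancel_left])]
    exact hz
  refine ⟨hzw, ?_⟩
  obtain ⟨h3, e3⟩ := G.some z (int_X hz).1
  obtain ⟨h4, e4⟩ := G.some w hwL
  obtain ⟨h5, e5⟩ := G.some (z + w) (int_X hzw).1
  rw [← gInE_iff G] at hz hw
  rw [e3] at hz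
  rw [e4] at hw
  obtain ⟨x₃, y₃, h₃, e, -, i1, i2, i3⟩ :=
    tg_NEAR tg_VAL ℂ _ V.valuation W G.int _ _ _ _ h3 h4 hz hw
  rw [← e3, ← e4, ← map_add, e5] at e
  obtain ⟨rfl, rfl⟩ : X (z + w) = x₃ ∧ Y (z + w) = y₃ := by
    simpa using e
  exact ⟨i1, i2, i3⟩

/-- `x` modulo the maximal ideal depends only on the reduction -/
lemma gnear_lt (G : GRG V W L X Y ξ) {z w : ℂ}
    (hz : ¬ InK V L X z) (hw : InK V L X w) :
    V.valuation (X (z + w) - X z) < 1 ∧ V.valuation (Y (z + w) - Y z) < 1 := by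
  by_cases hwL : w ∈ L.lattice
  · have h3 := G.zero w hwL
    obtain ⟨h4, e4⟩ := G.some z (int_X hz).1
    have hzw : z + w ∉ L.lattice := fun h5 => (int_X hz).1 (by
      have := sub_mem h5 hwL; rwa [add_sub_cancel_right] at this)
    obtain ⟨h5, e5⟩ := G.some (z + w) hzw
    rw [map_add, h3, add_zero, e4] at e5
    obtain ⟨e6, e7⟩ : X z = X (z + w) ∧ Y z = Y (z + w) := by simpa using e5
    rw [← e6, ← e7, sub_self, sub_self, map_zero]
    exact ⟨zero_lt_one, zero_lt_one⟩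
  · obtain ⟨-, -, h3, h4⟩ := gnear G hz hw hwL
    have h5 := (gv_tX_lt G hw hwL).1
    exact ⟨h3.trans_lt h5, h4.trans_lt h5⟩

end

end

end Pool.Agent.MUX2
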