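import Pool.Agent.MUX.StR2
import Pool.Agent.MUX.F_NIM
import Pool.Agent.MUX.F_ALG
import Pool.Agent.MUX.F_IDL

/-!
# MUX, block R2, module CH2: the chain of `P`-isogenies (helper2)
-/

set_option autoImplicit false

namespace Pool.Agent.MUX2

open _root_.MU3 Pool.Agent.MU3A Pool.Agent.MU3B Pool.Agent.MUX Pool.Agent.MUXU WeierstrassCurve

noncomputable section

namespace CH2

open Pool.Agent.MUXF.AlgX

variable {A B : ℤ}

lemma cq (h : Pool.Agent.MUX.CQ A B) : Pool.Agent.MUXF.CQ A B :=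
  ⟨h.hB, h.neg, h.fund1, h.fund0⟩

lemma emb_two : emb (2 : OO A B) = 2 := by
  have h : (2 : OO A B) = ⟨2, 0⟩ := rfl
  rw [h]; simp [emb]

lemma two_ne (hC : Pool.Agent.MUXF.CQ A B) : (2 : OO A B) ≠ 0 := by
  intro h
  have h1 := congrArg emb h
  rw [emb_two, emb_zero hC] at h1
  norm_num at h1

lemma nim (hC : Pool.Agent.MUXF.CQ A B) :
    (∀ b c : Ideal (OO A B), b ≠ ⊥ → c ≠ ⊥ → nI (b * c) = nI b * nI c ∧ b * c ≠ ⊥) ∧
    (∀ a : OO A B, nI (sp a) = (nm a).natAbs ∨ a = 0) ∧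
    (∀ b : Ideal (OO A B), b ≠ ⊥ → nI (cjI b) = nI b ∧ cjI (cjI b) = b ∧ cjI b ≠ ⊥ ∧
      ((nI b : ℕ) : OO A B) ∈ b) ∧
    (∀ b c c' : Ideal (OO A B), b ≠ ⊥ → (b * c ≤ b * c' ↔ c ≤ c')) :=
  Pool.Agent.MUXF.tx_NIM Pool.Agent.MUXF.tx_ALG
    (Pool.Agent.MUXF.tx_IDL Pool.Agent.MUXF.tx_ALG) A B hC

lemma idl (hC : Pool.Agent.MUXF.CQ A B) (b : Ideal (OO A B)) (hb : b ≠ ⊥) :
    nI b ≠ 0 ∧ b * cjI b = sp ((nI b : ℕ) : OO A B) :=
  Pool.Agent.MUXF.tx_IDL Pool.Agent.MUXF.tx_ALG A B hC b hb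

/-- `P * cjI P = (2)` -/
lemma pq (hC : Pool.Agent.MUXF.CQ A B) {P : Ideal (OO A B)} (hP : IsPN 2 P) :
    P ≠ ⊥ ∧ (2 : OO A B) ∈ P ∧ P * cjI P = sp 2 := by
  have h2 : (2 : OO A B) ∈ P := by simpa using hP.mem
  have h0 : P ≠ ⊥ := by
    rintro rfl
    exact two_ne hC (Ideal.mem_bot.1 h2)
  refine ⟨h0, h2, ?_⟩
  have := (idl hC P h0).2
  rw [hP.norm] at this
  simpa using this

/-- `P + cjI P = O` -/
lemma cop (h : Pool.Agent.MUX.CQ A B) (h8 : (8 : ℤ) ∣ B ^ 2 + 4 * A - 1) {P : Ideal (OO A B)}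
    (hP : IsPN 2 P) : ∃ p ∈ P, ∃ q ∈ cjI P, p + q = 1 := by
  have h2 : (2 : OO A B) ∈ P := by simpa using hP.mem
  have hB : B = 1 := by
    rcases h.hB with h0 | h1
    · subst h0; omega
    · exact h1
  subst hB
  obtain ⟨a, ha⟩ : ∃ a, A = 2 * a := ⟨A / 2, by omega⟩
  have hw : (⟨0, 1⟩ : OO A 1) * (⟨-1, 1⟩ : OO A 1) ∈ P := by
    have e : (⟨0, 1⟩ : OO A 1) * (⟨-1, 1⟩ : OO A 1) = ⟨a, 0⟩ * 2 := by
      have h2' : (2 : OO A 1) = ⟨2, 0⟩ := rfl
      rw [h2']
      ext
      · simp; omega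
      · simp
    rw [e]
    exact P.mul_mem_left _ h2
  rcases hP.prime.mem_or_mem hw with h3 | h3
  · refine ⟨⟨0, 1⟩, h3, ⟨1, -1⟩, ?_, ?_⟩
    · unfold cjI
      rw [Ideal.mem_comap, starRingEnd_apply]
      have e : star (⟨1, -1⟩ : OO A 1) = ⟨0, 1⟩ := by ext <;> simp
      rw [e]; exact h3
    · rfl
  · refine ⟨⟨1, -1⟩, ?_, ⟨0, 1⟩, ?_, ?_⟩
    · have e : (⟨1, -1⟩ : OO A 1) = -⟨-1, 1⟩ := by ext <;> simp
      rw [e]; exact P.neg_mem h3
    · unfold cjI
      rw [Ideal.mem_comap, starRingEnd_apply]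
      have e : star (⟨0, 1⟩ : OO A 1) = -⟨-1, 1⟩ := by ext <;> simp
      rw [e]; exact P.neg_mem h3
    · rfl

/-- `c / P c` has two elements -/
lemma idx (hC : Pool.Agent.MUXF.CQ A B) {P c : Ideal (OO A B)} (hP0 : P ≠ ⊥)
    (h2 : (2 : OO A B) ∈ P) (hn : nI P = 2) (hc : c ≠ ⊥) :
    ∃ a ∈ c, a ∉ P * c ∧ ∀ y ∈ c, y ∈ P * c ∨ y - a ∈ P * c := by
  have h1 := ((nim hC).1 P c hP0 hc).1
  have h3 := (idl hC c hc).1
  have hle0 : P * c ≤ c := Ideal.mul_le_right
  have hle : (P * c).toAddSubgroup ≤ c.toAddSubgroup := Submodule.toAddSubgroup_mono hle0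
  have h4 := AddSubgroup.relIndex_mul_index hle
  have hgen : ∀ I : Ideal (OO A B), I.toAddSubgroup.index = nI I := fun I =>
    Submodule.cardQuot_apply I
  rw [hgen, hgen, h1, hn] at h4
  have h7 : (P * c).toAddSubgroup.relIndex c.toAddSubgroup = 2 :=
    Nat.eq_of_mul_eq_mul_right (Nat.pos_of_ne_zero h3) h4
  obtain ⟨a, ha, hb⟩ := AddSubgroup.relIndex_eq_two_iff.1 h7
  simp only [Submodule.mem_toAddSubgroup] at ha hb
  refine ⟨a, ha, ?_, fun y hy => ?_⟩
  · intro h8
    have := hb 0 (zero_mem _)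
    rw [zero_add] at this
    rcases this with h | h
    · exact h.2 (zero_mem _)
    · exact h.2 h8
  · rcases hb y hy with h | h
    · right
      have h9 : y - a = (y + a) - 2 * a := by ring
      rw [h9]
      exact (P * c).sub_mem h.1 (Ideal.mul_mem_mul h2 ha)
    · exact Or.inl h.1

/-- the isogeny with the kernel `P⁻¹ c / c` -/
lemma isq (hC : Pool.Agent.MUXF.CQ A B) {P Q c : Ideal (OO A B)} (hP0 : P ≠ ⊥)
    (h2 : (2 : OO A B) ∈ P) (hPQ : P * Q = sp 2) {L M : PeriodPair} {om om' : ℂ}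
    (hL : IsNL c L om) (hM : IsNL (Q * c) M om') : IsQ P L M (2 * om' / om) := by
  have hom := hL.om_ne
  have hom' := hM.om_ne
  refine ⟨div_ne_zero (mul_ne_zero two_ne_zero hom') hom, fun z => ⟨fun hz x hx => ?_, fun hz => ?_⟩⟩
  · obtain ⟨y, hy, e⟩ := (hM.mem _).1 hz
    have e2 : 2 * z = om * emb y := by
      field_simp at e
      linear_combination e
    have hxy : x * y ∈ sp 2 * c := by
      rw [← hPQ, mul_assoc]; exact Ideal.mul_mem_mul hx hy
    obtain ⟨t, ht, e3⟩ := Ideal.mem_span_singleton_mul.1 hxy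
    refine (hL.mem _).2 ⟨t, ht, ?_⟩
    have e4 := congrArg emb e3
    rw [emb_mul hC, emb_mul hC, emb_two] at e4
    linear_combination (emb x / 2) * e2 - (om / 2) * e4
  · obtain ⟨y, hy, e⟩ := (hL.mem _).1 (hz 2 h2)
    rw [emb_two] at e
    have hy' : sp y ≤ Q * c := by
      rw [← (nim hC).2.2.2 P _ _ hP0, Ideal.mul_le]
      intro x hx s hs
      obtain ⟨r, rfl⟩ := Ideal.mem_span_singleton'.1 hs
      obtain ⟨t, ht, ex⟩ := (hL.mem _).1 (hz x hx)
      have e5 : x * y = 2 * t := by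
        apply emb_inj hC
        rw [emb_mul hC, emb_mul hC, emb_two]
        apply mul_left_cancel₀ hom
        linear_combination 2 * ex - emb x * e
      have e6 : x * (r * y) = 2 * (r * t) := by linear_combination r * e5
      rw [e6, ← mul_assoc, hPQ]
      exact Ideal.mul_mem_mul (Ideal.mem_span_singleton_self _) (c.mul_mem_left _ ht)
    refine (hM.mem _).2 ⟨y, hy' (Ideal.mem_span_singleton_self _), ?_⟩
    field_simp
    linear_combination e

/-- the point of order `P` -/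
lemma two (hC : Pool.Agent.MUXF.CQ A B) {P Q c : Ideal (OO A B)} (hP0 : P ≠ ⊥)
    (h2 : (2 : OO A B) ∈ P) (hPQ : P * Q = sp 2) {L M : PeriodPair} {om om' : ℂ}
    (hL : IsNL c L om) (hM : IsNL (Q * c) M om') {a : OO A B} (ha : a ∈ Q * c)
    (ha' : a ∉ P * (Q * c)) (hy : ∀ y ∈ Q * c, y ∈ P * (Q * c) ∨ y - a ∈ P * (Q * c)) :
    Two L M (2 * om' / om) (om * emb a / 2) := by
  have hom := hL.om_ne
  have hom' := hM.om_ne
  obtain ⟨hne, hI⟩ := isq hC hP0 h2 hPQ hL hM
  have key : ∀ y : OO A B, y ∈ P * (Q * c) ↔ om * emb y / 2 ∈ L.lattice := by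
    intro y
    rw [← mul_assoc, hPQ, Ideal.mem_span_singleton_mul, hL.mem]
    constructor
    · rintro ⟨t, ht, rfl⟩
      exact ⟨t, ht, by rw [emb_mul hC, emb_two]; ring⟩
    · rintro ⟨t, ht, e⟩
      refine ⟨t, ht, emb_inj hC ?_⟩
      rw [emb_mul hC, emb_two]
      apply mul_left_cancel₀ hom
      linear_combination -2 * e
  have hw : 2 * om' / om * (om * emb a / 2) ∈ M.lattice :=
    (hM.mem _).2 ⟨a, ha, by field_simp⟩
  refine ⟨hne, fun h => ha' ((key a).2 h), ?_, fun z => ⟨fun hz => ?_, ?_⟩⟩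
  · have := (hI _).1 hw 2 h2
    rwa [emb_two] at this
  · obtain ⟨y, hyc, e⟩ := (hM.mem _).1 hz
    have e2 : z = om * emb y / 2 := by
      field_simp at e
      linear_combination e / 2
    rcases hy y hyc with h | h
    · left; rw [e2]; exact (key y).1 h
    · right
      have := (key _).1 h
      have e3 : emb (y - a) = emb y - emb a := by
        have := emb_add hC (y - a) a
        rw [sub_add_cancel] at this
        linear_combination -this
      rw [e3] at this
      convert this using 1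
      rw [e2]; ring
  · have h5 : ∀ z ∈ L.lattice, 2 * om' / om * z ∈ M.lattice := by
      intro z hz
      refine (hI z).2 fun x hx => ?_
      obtain ⟨y, hyc, rfl⟩ := (hL.mem _).1 hz
      exact (hL.mem _).2 ⟨x * y, c.mul_mem_left _ hyc, by rw [emb_mul hC]; ring⟩
    rintro (hz | hz)
    · exact h5 z hz
    · have := add_mem (h5 _ hz) hw
      convert this using 1
      ring

/-- `℘` depends only on the lattice, and is periodic -/
lemma par_congr {L M : PeriodPair} (h : L.lattice = M.lattice) {w v : ℂ}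
    (hv : w - v ∈ L.lattice) : par L w = par M v := by
  have h1 : L.weierstrassP = M.weierstrassP := by
    unfold PeriodPair.weierstrassP
    rw [h]
  have h2 : L.weierstrassP w = L.weierstrassP v := by
    have := L.weierstrassP_add_coe v ⟨w - v, hv⟩
    simpa using this
  unfold par xn
  rw [h2, h1]

end CH2

open CH2 Pool.Agent.MUXF.AlgX in
theorem t2_CH2 (h1 : S2_NRM) (h2 : S2_DUA) (h3 : S2_JEQ) : S2_CH2 := by
  intro A B hP2 h8 hF P hP b L om hL
  have hC := cq hP2.toCQ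
  obtain ⟨hP0, h2P, hPQ⟩ := pq hC hP
  have hN := nim hC
  set Q := cjI P with hQ
  have hQ0 : Q ≠ ⊥ := (hN.2.2.1 P hP0).2.2.1
  have hnQ : nI Q = 2 := (hN.2.2.1 P hP0).1.trans hP.norm
  have hcQ : cjI Q = P := (hN.2.2.1 P hP0).2.1
  have h2Q : (2 : OO A B) ∈ Q := by
    have := (hN.2.2.1 Q hQ0).2.2.2
    rw [hnQ] at this
    simpa using this
  obtain ⟨p, hp, q, hq, hpq⟩ := cop hP2.toCQ h8 hP
  -- the ideals
  let c : ℕ → Ideal (OO A B) := fun i => Q ^ i * b
  have hc0 : c 0 = b := by simp [c]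
  have hcs : ∀ i, c (i + 1) = Q * c i := by
    intro i; simp only [c]; rw [pow_succ' Q i, mul_assoc]
  have hcne : ∀ i, c i ≠ ⊥ := by
    intro i
    induction i with
    | zero => rw [hc0]; exact hL.b_ne
    | succ i ih => rw [hcs]; exact (hN.1 Q _ hQ0 ih).2
  -- the lattices
  have hex : ∀ i, ∃ (p : PeriodPair × ℂ), IsNL (c i) p.1 p.2 ∧ (i = 0 → p = (L, om)) := by
    intro i
    rcases Nat.eq_zero_or_pos i with rfl | hi
    · exact ⟨(L, om), by rw [hc0]; exact hL, fun _ => rfl⟩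
    · obtain ⟨M, o, h⟩ := hF.ex (c i) (hcne i)
      exact ⟨(M, o), h, fun h0 => absurd h0 hi.ne'⟩
  choose F hF1 hF2 using hex
  let N : ℕ → PeriodPair := fun i => (F i).1
  let o : ℕ → ℂ := fun i => (F i).2
  have hNL : ∀ i, IsNL (c i) (N i) (o i) := hF1
  have hNL' : ∀ i, IsNL (Q * c i) (N (i + 1)) (o (i + 1)) := by
    intro i; rw [← hcs]; exact hNL _
  have ho : ∀ i, o i ≠ 0 := fun i => (hNL i).om_ne
  have hidx := fun i => idx hC hP0 h2P hP.norm (hcne (i + 1))
  choose a ha1 ha2 ha3 using hidx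
  simp only [hcs] at ha1 ha2 ha3
  let mu : ℕ → ℂ := fun i => 2 * o (i + 1) / o i
  let w : ℕ → ℂ := fun i => o i * emb (a i) / 2
  have hQi : ∀ i, IsQ P (N i) (N (i + 1)) (mu i) := fun i =>
    isq hC hP0 h2P hPQ (hNL i) (hNL' i)
  have hTw : ∀ i, Two (N i) (N (i + 1)) (mu i) (w i) := fun i =>
    two hC hP0 h2P hPQ (hNL i) (hNL' i) (ha1 i) (ha2 i) (ha3 i)
  have hTor : ∀ i, Tor P (N i) (w i) := by
    intro i
    exact ((hQi i).2 _).1 (((hTw i).ker _).2 (Or.inr (by rw [sub_self]; exact zero_mem _)))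
  obtain ⟨h, x, hh, hx0, hx⟩ := hF.fin Q hQ0
  have hcper : ∀ i, c (i + h) = sp x * c i := by
    intro i; simp only [c]; rw [pow_add, hx]; ring
  have heq : ∀ i, (N (i + h)).lattice = (N i).lattice ∧
      (o i = o (i + h) * emb x ∨ o i = -(o (i + h) * emb x)) := by
    intro i
    have h5 := hF.eq (c (i + h)) (c i) (N (i + h)) (N i) (o (i + h)) (o i) 1 x (hNL _) (hNL _)
      one_ne_zero hx0 (by rw [hcper]; simp [sp])
    have e1 : emb (1 : OO A B) = 1 := by
      have := emb_intCast hC 1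
      simpa using this
    rw [e1, mul_one] at h5
    exact h5
  have hrec : Rec (fun i => par (N i) (w i)) := by
    intro i
    obtain ⟨hs0, -⟩ := h1 _ _ _ _ (hTw i) (hNL i).nrm (hNL (i + 1)).nrm
    -- a point of order `Q` of `N i`
    obtain ⟨a', ha1', ha2', -⟩ := idx hC hQ0 h2Q hnQ
      (show P * c i ≠ ⊥ from (hN.1 P _ hP0 (hcne i)).2)
    have hQP : Q * P = sp 2 := by rw [mul_comm]; exact hPQ
    have key : ∀ y : OO A B, y ∈ Q * (P * c i) ↔ o i * emb y / 2 ∈ (N i).lattice := by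
      intro y
      rw [← mul_assoc, hQP, Ideal.mem_span_singleton_mul, (hNL i).mem]
      constructor
      · rintro ⟨t, ht, rfl⟩
        exact ⟨t, ht, by rw [emb_mul hC, emb_two]; ring⟩
      · rintro ⟨t, ht, e⟩
        refine ⟨t, ht, emb_inj hC ?_⟩
        rw [emb_mul hC, emb_two]
        apply mul_left_cancel₀ (ho i)
        linear_combination -2 * e
    set w' : ℂ := o i * emb a' / 2 with hw'
    have k1 : w' ∉ (N i).lattice := fun h => ha2' ((key a').2 h)
    have k2 : ∀ x ∈ Q, emb x * w' ∈ (N i).lattice := by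
      intro x hx
      have h5 := (key (x * a')).1 (Ideal.mul_mem_mul hx ha1')
      rw [emb_mul hC] at h5
      convert h5 using 1
      rw [hw']; ring
    have k3 : 2 * w' ∈ (N i).lattice := by
      have := k2 2 h2Q
      rwa [emb_two] at this
    have k4 : w' - w i ∉ (N i).lattice := by
      intro h5
      -- then `w'` is killed by `P` and `Q`
      apply k1
      have h6 : ∀ x ∈ P, emb x * w' ∈ (N i).lattice := by
        intro x hx
        obtain ⟨y, hy, e⟩ := ((hNL i).mem _).1 h5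
        have h7 : emb x * (w' - w i) ∈ (N i).lattice :=
          ((hNL i).mem _).2 ⟨x * y, (c i).mul_mem_left _ hy, by rw [e, emb_mul hC]; ring⟩
        have h8 := add_mem h7 (hTor i x hx)
        convert h8 using 1
        ring
      have h9 := add_mem (h6 p hp) (k2 q hq)
      rw [← add_mul, ← emb_add hC, hpq] at h9
      have e1 : emb (1 : OO A B) = 1 := by
        have := emb_intCast hC 1
        simpa using this
      rwa [e1, one_mul] at h9
    obtain ⟨hD, hpar⟩ := h2 _ _ _ _ w' (hTw i) (hNL i).nrm (hNL (i + 1)).nrm k1 k3 k4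
    have k5 : mu i * w' - w (i + 1) ∉ (N (i + 1)).lattice := by
      intro h5
      apply hD.w_ne
      have hqm : emb q * (mu i * w') ∈ (N (i + 1)).lattice := by
        have h6 : mu i * (emb q * w') ∈ (N (i + 1)).lattice :=
          ((hTw i).ker _).2 (Or.inl (k2 q hq))
        convert h6 using 1
        ring
      have hpm : emb p * (mu i * w') ∈ (N (i + 1)).lattice := by
        obtain ⟨y, hy, e⟩ := ((hNL (i + 1)).mem _).1 h5
        have h7 : emb p * (mu i * w' - w (i + 1)) ∈ (N (i + 1)).lattice :=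
          ((hNL (i + 1)).mem _).2 ⟨p * y, (c (i + 1)).mul_mem_left _ hy, by
            rw [e, emb_mul hC]; ring⟩
        have h8 := add_mem h7 (hTor (i + 1) p hp)
        convert h8 using 1
        ring
      have h9 := add_mem hpm hqm
      rw [← add_mul, ← emb_add hC, hpq] at h9
      have e1 : emb (1 : OO A B) = 1 := by
        have := emb_intCast hC 1
        simpa using this
      rwa [e1, one_mul] at h9
    have hJ := h3 (N (i + 1)) (w (i + 1)) (mu i * w') (hTw (i + 1)).w_ne (hTw (i + 1)).w2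
      hD.w_ne hD.w2 k5 (hNL (i + 1)).nrm
    rw [hpar] at hJ
    refine ⟨hs0, ?_⟩
    show par (N (i + 1)) (w (i + 1)) ^ 2 +
      (48 + 4096 / par (N i) (w i)) * par (N (i + 1)) (w (i + 1)) = par (N i) (w i)
    field_simp at hJ ⊢
    linear_combination hJ
  have hxx : nm x = 2 ^ h := by
    have hpow : ∀ n, nI (Q ^ (n + 1)) = 2 ^ (n + 1) ∧ Q ^ (n + 1) ≠ ⊥ := by
      intro n
      induction n with
      | zero => rw [zero_add, pow_one, pow_one]; exact ⟨hnQ, hQ0⟩
      | succ n ih =>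
        have h5 := hN.1 (Q ^ (n + 1)) Q ih.2 hQ0
        rw [← pow_succ] at h5
        refine ⟨?_, h5.2⟩
        rw [h5.1, ih.1, hnQ]
        exact (pow_succ 2 (n + 1)).symm
    obtain ⟨n, rfl⟩ : ∃ n, h = n + 1 := ⟨h - 1, by omega⟩
    have h5 := (hpow n).1
    rw [hx] at h5
    have h6 := (hN.2.1 x).resolve_right hx0
    rw [h5] at h6
    have h7 := nm_nonneg hC x
    have h8 : ((2 ^ (n + 1) : ℕ) : ℤ) = nm x := by rw [h6]; omega
    rw [← h8]; push_cast; rfl
  have hemb : emb x * emb (star x) = 2 ^ h := by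
    rw [← emb_mul hC, mul_star', hxx, emb_intCast hC]
    push_cast; rfl
  have hex0 : emb x ≠ 0 := fun h0 => hx0 ((emb_eq_zero hC x).1 h0)
  refine ⟨h, star x, N, mu, w, hh, ?_, ?_, fun i => ⟨c i, o i, hNL i⟩, hQi, hTw, hTor,
    fun i => (heq i).1, hrec, fun i => ?_, ?_⟩
  · -- `P ^ h = (star x)`
    have e : ∀ n : ℕ, cjI (Q ^ n) = P ^ n := by
      intro n
      induction n with
      | zero =>
        rw [pow_zero, pow_zero]
        unfold cjI
        rw [Ideal.one_eq_top, Ideal.comap_top]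
      | succ n ih =>
        rw [pow_succ, pow_succ]
        have h5 : cjI (Q ^ n * Q) = cjI (Q ^ n) * cjI Q := Pool.Agent.MUXF.NimX.cjI_mul _ _
        rw [h5, ih, hcQ]
    rw [← e h, hx]
    exact Pool.Agent.MUXF.NimX.cjI_sp x
  · show (F 0).1 = L
    rw [hF2 0 rfl]
  · have hl := (heq i).1
    apply par_congr hl
    rw [hl]
    have h5 : mu i * w (i + h) ∈ (N (i + 1)).lattice := by
      refine ((hQi i).2 _).2 fun x hx => ?_
      rw [← hl]
      exact hTor (i + h) x hx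
    rcases ((hTw i).ker _).1 h5 with h6 | h6
    · rw [← hl] at h6
      exact absurd h6 (hTw (i + h)).w_ne
    · exact h6
  · have hprod : ∀ n : ℕ, ∏ i ∈ Finset.range n, mu i = 2 ^ n * o n / o 0 := by
      intro n
      induction n with
      | zero => simp [div_self (ho 0)]
      | succ n ih =>
        rw [Finset.prod_range_succ, ih]
        have h5 := ho n
        have h6 := ho 0
        simp only [mu]
        rw [pow_succ]
        field_simp
    rw [hprod h]
    have h5 := (heq 0).2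
    rw [zero_add] at h5
    have h6 := ho h
    have h7 := ho 0
    rcases h5 with h5 | h5
    · left
      rw [← hemb, h5]
      field_simp
    · right
      rw [← hemb, h5]
      field_simp

end

end Pool.Agent.MUX2
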