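import Pool.Agent.MUX.StR2

/-!
# MUX, block R2: module CIN (periodic chains of units: injectivity modulo `V`) (helper91)

A pure valuation argument.
-/

set_option autoImplicit false

namespace Pool.Agent.MUX2

open _root_.MU3 Pool.Agent.MU3A Pool.Agent.MU3B Pool.Agent.MUX Pool.Agent.MUXU WeierstrassCurve

noncomputable section

namespace Cin

theorem nat_le (V : ValuationSubring ℂ) (n : ℕ) : V.valuation (n : ℂ) ≤ 1 :=
  (V.valuation_le_one_iff _).2 (natCast_mem V n)

theorem mul_lt (V : ValuationSubring ℂ) {x y : ℂ} (hx : V.valuation x < 1)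
    (hy : V.valuation y ≤ 1) : V.valuation (x * y) < 1 := by
  rw [map_mul]
  exact lt_of_le_of_lt (mul_le_of_le_one_right' hy) hx

theorem per (s : ℕ → ℂ) (h k : ℕ) (hp : ∀ i, s (i + h) = s i) (i : ℕ) : s (i + k * h) = s i := by
  induction k with
  | zero => simp
  | succ k ih =>
    rw [Nat.succ_mul, ← Nat.add_assoc, hp, ih]

/-- squares are injective modulo `V` -/
theorem of_sq (V : ValuationSubring ℂ) (h2 : V.valuation 2 < 1) (x y : ℂ)
    (hx : V.valuation x = 1) (hy : V.valuation y = 1) (h : V.valuation (x ^ 2 - y ^ 2) < 1) :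
    V.valuation (x - y) < 1 := by
  have hd : V.valuation (x - y) ≤ 1 := Valuation.map_sub_le _ hx.le hy.le
  have h1 : V.valuation ((x - y) ^ 2) < 1 := by
    have e : (x - y) ^ 2 = (x ^ 2 - y ^ 2) - 2 * (y * (x - y)) := by ring
    rw [e]
    refine Valuation.map_sub_lt _ h (mul_lt V h2 ?_)
    rw [map_mul, hy, one_mul]
    exact hd
  rw [map_pow] at h1
  by_contra hc
  exact absurd (one_le_pow₀ (not_lt.1 hc)) (not_le.2 h1)

end Cin

open Cin in
theorem t2_CIN : S2_CIN := by
  intro V s s' h h' h2 hs hs' hh hh' hp hp' hu hu' hJ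
  have v48 : V.valuation 48 < 1 := by
    have e : (48 : ℂ) = 2 * ((24 : ℕ) : ℂ) := by norm_num
    rw [e]
    exact mul_lt V h2 (nat_le V 24)
  have v4096 : V.valuation 4096 < 1 := by
    have e : (4096 : ℂ) = 2 * ((2048 : ℕ) : ℂ) := by norm_num
    rw [e]
    exact mul_lt V h2 (nat_le V 2048)
  have hinv : ∀ i, V.valuation (1 / s i) = 1 := fun i => by
    rw [one_div, map_inv₀, hu i, inv_one]
  have hinv' : ∀ i, V.valuation (1 / s' i) = 1 := fun i => by
    rw [one_div, map_inv₀, hu' i, inv_one]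
  have hq : ∀ i, V.valuation (4096 / s i) < 1 := fun i => by
    rw [div_eq_mul_one_div]
    exact mul_lt V v4096 (hinv i).le
  have hq' : ∀ i, V.valuation (4096 / s' i) < 1 := fun i => by
    rw [div_eq_mul_one_div]
    exact mul_lt V v4096 (hinv' i).le
  -- all differences are small
  have hd0 : V.valuation (s 0 - s' 0) < 1 := by
    refine of_sq V h2 _ _ (hu 0) (hu' 0) ?_
    have n0 := (hs 0).1
    have n0' := (hs' 0).1
    have e : s 0 ^ 2 - s' 0 ^ 2 = ((s 0 + 16) ^ 3 / s 0 - (s' 0 + 16) ^ 3 / s' 0) -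
        (48 * (s 0 - s' 0) + (4096 / s 0 - 4096 / s' 0)) := by
      field_simp
      ring
    rw [e]
    refine Valuation.map_sub_lt _ hJ (Valuation.map_add_lt _ (mul_lt V v48 ?_)
      (Valuation.map_sub_lt _ (hq 0) (hq' 0)))
    exact Valuation.map_sub_le _ (hu 0).le (hu' 0).le
  have hd : ∀ i, V.valuation (s i - s' i) < 1 := by
    intro i
    induction i with
    | zero => exact hd0
    | succ i ih =>
      refine of_sq V h2 _ _ (hu (i + 1)) (hu' (i + 1)) ?_
      have e1 := (hs i).2
      have e2 := (hs' i).2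
      have e : s (i + 1) ^ 2 - s' (i + 1) ^ 2 = (s i - s' i) -
          ((48 + 4096 / s i) * s (i + 1) - (48 + 4096 / s' i) * s' (i + 1)) := by
        linear_combination e1 - e2
      rw [e]
      refine Valuation.map_sub_lt _ ih (Valuation.map_sub_lt _ (mul_lt V ?_ (hu _).le)
        (mul_lt V ?_ (hu' _).le))
      · exact Valuation.map_add_lt _ v48 (hq i)
      · exact Valuation.map_add_lt _ v48 (hq' i)
  -- one step
  have hstep : ∀ i, ∃ r, V.valuation r < 1 ∧
      V.valuation (s i - s' i) = V.valuation (s (i + 1) - s' (i + 1)) * V.valuation r := by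
    intro i
    refine ⟨s (i + 1) + s' (i + 1) + 48 + 4096 / s i, ?_, ?_⟩
    · have e : s (i + 1) + s' (i + 1) + 48 + 4096 / s i =
          ((2 * s' (i + 1) + (s (i + 1) - s' (i + 1))) + 48) + 4096 / s i := by ring
      rw [e]
      exact Valuation.map_add_lt _ (Valuation.map_add_lt _ (Valuation.map_add_lt _
        (mul_lt V h2 (hu' _).le) (hd (i + 1))) v48) (hq i)
    · have n0 := (hs i).1
      have n0' := (hs' i).1
      have e1 := (hs i).2
      have e2 := (hs' i).2
      have key : (s i - s' i) * (1 + 4096 * (s' (i + 1) * (1 / s i) * (1 / s' i))) =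
          (s (i + 1) - s' (i + 1)) * (s (i + 1) + s' (i + 1) + 48 + 4096 / s i) := by
        have e3 : s i - s' i = (s (i + 1) ^ 2 + (48 + 4096 / s i) * s (i + 1)) -
            (s' (i + 1) ^ 2 + (48 + 4096 / s' i) * s' (i + 1)) := by
          rw [e1, e2]
        have e4 : 4096 * (s' (i + 1) * (1 / s i) * (1 / s' i)) * (s i - s' i) =
            s' (i + 1) * (4096 / s' i - 4096 / s i) := by
          field_simp
        linear_combination e3 + e4
      have h1 : V.valuation (1 + 4096 * (s' (i + 1) * (1 / s i) * (1 / s' i))) = 1 := by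
        refine Valuation.map_one_add_of_lt _ (mul_lt V v4096 ?_)
        rw [map_mul, map_mul, hu', hinv, hinv']
        simp
      rw [← map_mul, ← key, map_mul, h1, mul_one]
  by_contra hne
  have hpos : ∀ i, 0 < V.valuation (s i - s' i) ∧
      V.valuation (s 0 - s' 0) ≤ V.valuation (s i - s' i) := by
    intro i
    induction i with
    | zero =>
      refine ⟨lt_of_le_of_ne zero_le ((Valuation.ne_zero_iff _).2 (sub_ne_zero.2 hne)).symm, le_rfl⟩
    | succ i ih =>
      obtain ⟨r, hr, he⟩ := hstep i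
      have h1 : V.valuation (s i - s' i) ≤ V.valuation (s (i + 1) - s' (i + 1)) := by
        rw [he]
        exact mul_le_of_le_one_right' hr.le
      exact ⟨lt_of_lt_of_le ih.1 h1, le_trans ih.2 h1⟩
  have hN : s (0 + h' * h) - s' (0 + h' * h) = s 0 - s' 0 := by
    rw [per s h h' hp 0, Nat.mul_comm h' h, per s' h' h hp' 0]
  obtain ⟨N, hNe⟩ : ∃ N, h' * h = N + 1 := ⟨h' * h - 1, by
    have := Nat.mul_pos hh' hh
    omega⟩
  rw [Nat.zero_add, hNe] at hN
  obtain ⟨r, hr, he⟩ := hstep N
  have h1 := (hpos (N + 1)).1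
  have h3 : V.valuation (s N - s' N) < V.valuation (s (N + 1) - s' (N + 1)) := by
    rw [he]
    exact mul_lt_of_lt_one_right h1 hr
  have h4 := (hpos N).2
  rw [← hN] at h4
  exact absurd h3 (not_lt.2 h4)

end

end Pool.Agent.MUX2
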