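import Pool.Agent.MUX.StR2
import Pool.Agent.MU3.BAll

/-!
# MUX, block R2: module DUA (helper23): the dual isogeny of degree two
-/

set_option autoImplicit false

namespace Pool.Agent.MUX2

open _root_.MU3 Pool.Agent.MU3A Pool.Agent.MU3B Pool.Agent.MUX Pool.Agent.MUXU WeierstrassCurve

noncomputable section

namespace DUA

theorem half (L : PeriodPair) (u : ℂ) (m n : ℤ) (h : m * L.ω₁ + n * L.ω₂ = 2 * u)
    (hm : m % 2 = 0) (hn : n % 2 = 0) : u ∈ L.lattice := by
  rw [PeriodPair.mem_lattice]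
  refine ⟨m / 2, n / 2, ?_⟩
  have e1 : m = 2 * (m / 2) := by omega
  have e2 : n = 2 * (n / 2) := by omega
  have e3 : (m : ℂ) = 2 * ((m / 2 : ℤ) : ℂ) := by
    conv_lhs => rw [e1]
    push_cast
    ring
  have e4 : (n : ℂ) = 2 * ((n / 2 : ℤ) : ℂ) := by
    conv_lhs => rw [e2]
    push_cast
    ring
  rw [e3, e4] at h
  linear_combination h / 2

/-- the points of order two -/
theorem cls (L : PeriodPair) (w w' z : ℂ) (hw : w ∉ L.lattice) (h2w : 2 * w ∈ L.lattice)
    (hw' : w' ∉ L.lattice) (h2w' : 2 * w' ∈ L.lattice) (hne : w' - w ∉ L.lattice)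
    (h2z : 2 * z ∈ L.lattice) :
    (z ∈ L.lattice ∨ z - w ∈ L.lattice) ∨ z - w' ∈ L.lattice ∨ z - w' - w ∈ L.lattice := by
  obtain ⟨a, b, hab⟩ := PeriodPair.mem_lattice.1 h2w
  obtain ⟨c, d, hcd⟩ := PeriodPair.mem_lattice.1 h2w'
  obtain ⟨e, f, hef⟩ := PeriodPair.mem_lattice.1 h2z
  have h1 : ¬ (a % 2 = 0 ∧ b % 2 = 0) := fun h => hw (half L w a b hab h.1 h.2)
  have h2 : ¬ (c % 2 = 0 ∧ d % 2 = 0) := fun h => hw' (half L w' c d hcd h.1 h.2)
  have h3 : ¬ ((c - a) % 2 = 0 ∧ (d - b) % 2 = 0) := fun h => hne (half L (w' - w) (c - a) (d - b)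
    (by push_cast; linear_combination hcd - hab) h.1 h.2)
  have h4 : (e % 2 = 0 ∧ f % 2 = 0) ∨ ((e - a) % 2 = 0 ∧ (f - b) % 2 = 0) ∨
      ((e - c) % 2 = 0 ∧ (f - d) % 2 = 0) ∨ ((e - c - a) % 2 = 0 ∧ (f - d - b) % 2 = 0) := by
    omega
  rcases h4 with h | h | h | h
  · exact Or.inl (Or.inl (half L z e f hef h.1 h.2))
  · exact Or.inl (Or.inr (half L (z - w) (e - a) (f - b)
      (by push_cast; linear_combination hef - hab) h.1 h.2))
  · exact Or.inr (Or.inl (half L (z - w') (e - c) (f - d)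
      (by push_cast; linear_combination hef - hcd) h.1 h.2))
  · exact Or.inr (Or.inr (half L (z - w' - w) (e - c - a) (f - d - b)
      (by push_cast; linear_combination hef - hcd - hab) h.1 h.2))

theorem cubic (L : PeriodPair) (w : ℂ) (hw : w ∉ L.lattice) (h2w : 2 * w ∈ L.lattice)
    (hg : L.g₂ = -18 * L.g₃) :
    xn L w ^ 3 + xn L w ^ 2 / 4 - 36 * kap L * xn L w - kap L = 0 := by
  have h1 := L.derivWeierstrassP_sq w hw
  have h2 := (b_ZER L w hw).2 h2w
  rw [h2] at h1
  unfold xn kap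
  have e3 : L.g₃ = -L.g₂ / 18 := by rw [hg]; ring
  rw [e3] at h1
  linear_combination (-1 / 4) * h1

end DUA

open DUA in
theorem t2_DUA (h1 : S2_NRM) : S2_DUA := by
  intro L M mu w w' hT hgL hgM hw' h2w' hne
  obtain ⟨s0, s8, s64, s16, s256, s512, k0, hx, hk, -, hmu, hz⟩ := h1 L M mu w hT hgL hgM
  have hnM : mu * w' ∉ M.lattice := by
    intro h
    rcases (hT.ker w').1 h with h2 | h2
    · exact hw' h2
    · exact hne h2
  refine ⟨⟨div_ne_zero two_ne_zero hT.mu_ne, hnM, ?_, ?_⟩, ?_⟩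
  · have e : 2 * (mu * w') = mu * (2 * w') := by ring
    rw [e]
    exact (hT.ker _).2 (Or.inl h2w')
  · intro u
    obtain ⟨z, rfl⟩ : ∃ z, u = mu * z := ⟨u / mu, by field_simp [hT.mu_ne]⟩
    have e1 : 2 / mu * (mu * z) = 2 * z := by
      have := hT.mu_ne
      field_simp
    have e2 : mu * z - mu * w' = mu * (z - w') := by ring
    rw [e1, e2, hT.ker, hT.ker]
    constructor
    · intro h
      exact cls L w w' z hT.w_ne hT.w2 hw' h2w' hne h
    · rintro ((h | h) | (h | h))
      · rw [two_mul]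
        exact add_mem h h
      · have e : 2 * z = (z - w) + (z - w) + 2 * w := by ring
        rw [e]
        exact add_mem (add_mem h h) hT.w2
      · have e : 2 * z = (z - w') + (z - w') + 2 * w' := by ring
        rw [e]
        exact add_mem (add_mem h h) h2w'
      · have e : 2 * z = (z - w' - w) + (z - w' - w) + 2 * w' + 2 * w := by ring
        rw [e]
        exact add_mem (add_mem (add_mem h h) h2w') hT.w2
  · obtain ⟨hd, hf⟩ := hz w' hnM
    have c1 := cubic L w hT.w_ne hT.w2 hgL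
    have c2 := cubic L w' hw' h2w' hgL
    -- the quadratic
    have hq : xn L w' ^ 2 + (xn L w + 1 / 4) * xn L w' + xn L w ^ 2 + xn L w / 4 -
        36 * kap L = 0 := by
      have h3 : (xn L w' - xn L w) * (xn L w' ^ 2 + (xn L w + 1 / 4) * xn L w' + xn L w ^ 2 +
          xn L w / 4 - 36 * kap L) = 0 := by
        linear_combination c2 - c1
      exact (mul_eq_zero.1 h3).resolve_left hd
    have hmu0 := hT.mu_ne
    generalize hs : par L w = s at *
    generalize hy : xn M (mu * w') = y at *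
    generalize hX : xn L w' = X at *
    rw [hx] at hq hf hd
    rw [hk] at hq
    have h5 : mu ^ 2 * y = -1 / 6 - 2 * (2 / (s - 8)) - mu ^ 2 / 12 := by
      have h6 : X + (s + 16) ^ 2 / ((s - 8) ^ 2 * (s + 64)) / (X - 2 / (s - 8)) =
          -1 / 4 - 2 * (2 / (s - 8)) := by
        have h7 : (s + 16) ^ 2 / ((s - 8) ^ 2 * (s + 64)) =
            (-1 / 4 - 2 * (2 / (s - 8)) - X) * (X - 2 / (s - 8)) := by
          have h8 : (s + 16) ^ 2 / ((s - 8) ^ 2 * (s + 64)) =
              3 * (2 / (s - 8)) ^ 2 + (2 / (s - 8)) / 2 - 36 * (s / ((s - 8) ^ 2 * (s + 64))) := by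
            field_simp
            ring
          rw [h8]
          linear_combination hq
        rw [h7, mul_div_assoc, div_self hd]
        ring
      rw [h6] at hf
      linear_combination hf
    have h9 : y = -s / (4 * (s - 512)) := by
      have h10 : mu ^ 2 ≠ 0 := pow_ne_zero _ hmu0
      apply mul_left_cancel₀ h10
      rw [h5, hmu]
      field_simp
      ring
    unfold par
    rw [hy, h9]
    field_simp
    ring

end

end Pool.Agent.MUX2
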