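import Pool.Agent.MUX.VG

/-!
# MUX, block R2, module E12: the kernel of reduction and the ideals (helper42)
-/

set_option autoImplicit false

namespace Pool.Agent.MUX2

open _root_.MU3 Pool.Agent.MU3A Pool.Agent.MU3B Pool.Agent.MUX Pool.Agent.MUXU Pool.Agent.MUXV
  WeierstrassCurve

noncomputable section

namespace E12

/-! ## Algebra of `O` -/

section
variable {A B : ℤ}

lemma absD_pos (h : CQ A B) : 0 < absD A B := by
  have := h.neg
  unfold absD
  omega

lemma wC_sq' (h : CQ A B) : wC A B * wC A B = A + B * wC A B := by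
  have h1 : (0 : ℝ) ≤ (absD A B : ℝ) := by exact_mod_cast (absD_pos h).le
  have h2 : ((Real.sqrt (absD A B) : ℝ) : ℂ) ^ 2 = (absD A B : ℂ) := by
    rw [← Complex.ofReal_pow, Real.sq_sqrt h1]
    norm_num
  have h3 : Complex.I ^ 2 = -1 := Complex.I_sq
  have h4 : (absD A B : ℂ) = -((B : ℂ) ^ 2 + 4 * A) := by simp [absD]
  unfold wC
  linear_combination (Complex.I ^ 2 / 4) * h2 + ((absD A B : ℂ) / 4) * h3 - (1 / 4) * h4

/-- `emb` as a ring homomorphism -/
def eH (h : CQ A B) : OO A B →+* ℂ :=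
  (QuadraticAlgebra.lift (R := ℤ) (a := A) (b := B) (A := ℂ)
    ⟨wC A B, by simpa [zsmul_eq_mul] using wC_sq' h⟩).toRingHom

lemma eH_apply (h : CQ A B) (x : OO A B) : eH h x = emb x := by
  simp [eH, emb, QuadraticAlgebra.lift, zsmul_eq_mul]

lemma emb_mul (h : CQ A B) (x y : OO A B) : emb (x * y) = emb x * emb y := by
  simpa only [eH_apply] using map_mul (eH h) x y

lemma emb_add (h : CQ A B) (x y : OO A B) : emb (x + y) = emb x + emb y := by
  simpa only [eH_apply] using map_add (eH h) x y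

lemma emb_one (h : CQ A B) : emb (1 : OO A B) = 1 := by
  simpa only [eH_apply] using map_one (eH h)

lemma emb_zero (h : CQ A B) : emb (0 : OO A B) = 0 := by
  simpa only [eH_apply] using map_zero (eH h)

lemma emb_nat (h : CQ A B) (n : ℕ) : emb (n : OO A B) = n := by
  simpa only [eH_apply] using map_natCast (eH h) n

lemma mul_star' (x : OO A B) : x * star x = ((nm x : ℤ) : OO A B) := by
  ext
  · simp only [nm, QuadraticAlgebra.re_mul, QuadraticAlgebra.re_star, QuadraticAlgebra.im_star,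
      QuadraticAlgebra.re_intCast, Int.cast_id]
    ring
  · simp only [QuadraticAlgebra.im_mul, QuadraticAlgebra.re_star, QuadraticAlgebra.im_star,
      QuadraticAlgebra.im_intCast]
    ring

lemma four_nm (x : OO A B) :
    4 * nm x = (2 * x.re + B * x.im) ^ 2 + absD A B * x.im ^ 2 := by
  unfold nm absD
  ring

lemma nm_pos (h : CQ A B) {x : OO A B} (hx : x ≠ 0) : 0 < nm x := by
  have h1 := four_nm x
  have h2 := absD_pos h
  by_contra h0
  have h3 : 0 ≤ absD A B * x.im ^ 2 := mul_nonneg h2.le (sq_nonneg _)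
  have h4 := sq_nonneg (2 * x.re + B * x.im)
  have h5 : absD A B * x.im ^ 2 = 0 := by omega
  have h6 : x.im = 0 := by
    rcases mul_eq_zero.1 h5 with h | h
    · omega
    · simpa using h
  have h7 : (2 * x.re + B * x.im) ^ 2 = 0 := by omega
  have h8 : 2 * x.re + B * x.im = 0 := by simpa using h7
  rw [h6, mul_zero, add_zero] at h8
  have h9 : x.re = 0 := by omega
  exact hx (QuadraticAlgebra.ext h9 h6)

/-- `2` splits only for `B = 1`, `A` even -/
lemma B_one (h : CQ A B) (h8 : (8 : ℤ) ∣ B ^ 2 + 4 * A - 1) : B = 1 ∧ (2 : ℤ) ∣ A := by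
  rcases h.hB with rfl | rfl <;> omega

lemma one_nmem {P : Ideal (OO A B)} (hP : P.IsPrime) : (1 : OO A B) ∉ P :=
  fun h => hP.ne_top ((Ideal.eq_top_iff_one P).2 h)

lemma two_mul_mem {P : Ideal (OO A B)} (h2 : (2 : OO A B) ∈ P) {a : ℤ} (ha : (2 : ℤ) ∣ a) :
    (a : OO A B) ∈ P := by
  obtain ⟨c, rfl⟩ := ha
  push_cast
  exact P.mul_mem_right _ h2

lemma int_mem_iff {P : Ideal (OO A B)} (hP : P.IsPrime) (h2 : (2 : OO A B) ∈ P) (a : ℤ) :
    (a : OO A B) ∈ P ↔ (2 : ℤ) ∣ a := by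
  refine ⟨fun h => ?_, two_mul_mem h2⟩
  by_contra h0
  have h1 : (2 : ℤ) ∣ a - 1 := by omega
  have h3 := P.sub_mem h (two_mul_mem h2 h1)
  push_cast at h3
  exact one_nmem hP (by simpa using h3)

/-- the two primes of norm two -/
lemma primes2 (h : CQ A B) (h8 : (8 : ℤ) ∣ B ^ 2 + 4 * A - 1) {P : Ideal (OO A B)}
    (hP : IsPN 2 P) :
    (∀ x : OO A B, x ∈ P ↔ (2 : ℤ) ∣ x.re) ∨ (∀ x : OO A B, x ∈ P ↔ (2 : ℤ) ∣ x.re + x.im) := by
  obtain ⟨hB, hA⟩ := B_one h h8
  subst hB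
  have h2 : (2 : OO A 1) ∈ P := by simpa using hP.mem
  have hw : (⟨0, 1⟩ : OO A 1) * ⟨-1, 1⟩ ∈ P := by
    have : (⟨0, 1⟩ : OO A 1) * ⟨-1, 1⟩ = ((A : ℤ) : OO A 1) := by
      ext
      · simp
      · simp
    rw [this]
    exact two_mul_mem h2 hA
  rcases hP.prime.mem_or_mem hw with h0 | h0
  · refine Or.inl fun x => ?_
    have hx : x = ((x.re : ℤ) : OO A 1) + ((x.im : ℤ) : OO A 1) * ⟨0, 1⟩ := by
      ext
      · simp
      · simp
    rw [← int_mem_iff hP.prime h2]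
    conv_lhs => rw [hx]
    exact Ideal.add_mem_iff_left _ (P.mul_mem_left _ h0)
  · refine Or.inr fun x => ?_
    have hx : x = ((x.re + x.im : ℤ) : OO A 1) + ((x.im : ℤ) : OO A 1) * ⟨-1, 1⟩ := by
      ext
      · simp
      · simp
    rw [← int_mem_iff hP.prime h2]
    conv_lhs => rw [hx]
    exact Ideal.add_mem_iff_left _ (P.mul_mem_left _ h0)

lemma mem_span2 {x : OO A B} (h1 : (2 : ℤ) ∣ x.re) (h2 : (2 : ℤ) ∣ x.im) :
    x ∈ Ideal.span {(2 : OO A B)} := by
  obtain ⟨a, ha⟩ := h1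
  obtain ⟨b, hb⟩ := h2
  rw [Ideal.mem_span_singleton]
  refine ⟨⟨a, b⟩, ?_⟩
  have h3 : (2 : OO A B) = ((2 : ℤ) : OO A B) := by norm_num
  ext
  · rw [h3]; simp only [QuadraticAlgebra.re_mul, QuadraticAlgebra.re_intCast,
      QuadraticAlgebra.im_intCast, Int.cast_id]; rw [ha]; ring
  · rw [h3]; simp only [QuadraticAlgebra.im_mul, QuadraticAlgebra.re_intCast,
      QuadraticAlgebra.im_intCast, Int.cast_id]; rw [hb]; ring

lemma mul_span2 (h : CQ A B) (h8 : (8 : ℤ) ∣ B ^ 2 + 4 * A - 1) {x y : OO A B}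
    (hx : (2 : ℤ) ∣ x.re) (hy : (2 : ℤ) ∣ y.re + y.im) : x * y ∈ Ideal.span {(2 : OO A B)} := by
  obtain ⟨hB, hA⟩ := B_one h h8
  subst hB
  obtain ⟨a, ha⟩ := hA
  obtain ⟨b, hb⟩ := hx
  obtain ⟨c, hc⟩ := hy
  refine mem_span2 ⟨b * y.re + a * x.im * y.im, ?_⟩ ⟨b * y.im + x.im * c, ?_⟩
  · simp only [QuadraticAlgebra.re_mul]
    rw [hb]
    linear_combination (x.im * y.im) * ha
  · simp only [QuadraticAlgebra.im_mul]
    rw [hb]
    linear_combination x.im * hc

/-- the product of the two primes above `2` -/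
lemma pq_two (h : CQ A B) (h8 : (8 : ℤ) ∣ B ^ 2 + 4 * A - 1) {P Q : Ideal (OO A B)}
    (hP : IsPN 2 P) (hQ : IsPN 2 Q) (hPQ : P ≠ Q) : P * Q ≤ Ideal.span {(2 : OO A B)} := by
  rcases primes2 h h8 hP with h1 | h1 <;> rcases primes2 h h8 hQ with h2 | h2
  · exact absurd (Ideal.ext fun x => (h1 x).trans (h2 x).symm) hPQ
  · exact Ideal.mul_le.2 fun x hx y hy => mul_span2 h h8 ((h1 x).1 hx) ((h2 y).1 hy)
  · refine Ideal.mul_le.2 fun x hx y hy => ?_
    rw [mul_comm]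
    exact mul_span2 h h8 ((h2 y).1 hy) ((h1 x).1 hx)
  · exact absurd (Ideal.ext fun x => (h1 x).trans (h2 x).symm) hPQ

/-! ## Lattices -/

lemma cm (h : CQ A B) {b : Ideal (OO A B)} {L : PeriodPair} {om : ℂ} (hL : IsNL b L om)
    {z : ℂ} (hz : z ∈ L.lattice) (x : OO A B) : emb x * z ∈ L.lattice := by
  obtain ⟨y, hy, rfl⟩ := (hL.mem z).1 hz
  refine (hL.mem _).2 ⟨x * y, b.mul_mem_left _ hy, ?_⟩
  rw [emb_mul h]
  ring

/-- a point killed by a power of `Q` has a multiple killed by `Q` -/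
lemma tor_desc (h : CQ A B) {L : PeriodPair} (Q : Ideal (OO A B)) : ∀ (i : ℕ) (z : ℂ), Tor (Q ^ i) L z → z ∉ L.lattice →
      ∃ c : OO A B, emb c * z ∉ L.lattice ∧ Tor Q L (emb c * z) := by
  intro i
  induction i with
  | zero =>
    intro z hz hzL
    exfalso
    apply hzL
    have h1 := hz 1 (by simp)
    rwa [emb_one h, one_mul] at h1
  | succ i ih =>
    intro z hz hzL
    by_cases h1 : Tor Q L z
    · exact ⟨1, by rwa [emb_one h, one_mul], by rwa [emb_one h, one_mul]⟩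
    · unfold Tor at h1
      push Not at h1
      obtain ⟨q, hq, hqz⟩ := h1
      obtain ⟨c, hc1, hc2⟩ := ih (emb q * z) (fun x hx => by
        have h2 := hz (x * q) (by rw [pow_succ]; exact Ideal.mul_mem_mul hx hq)
        rwa [emb_mul h, mul_assoc] at h2) hqz
      refine ⟨c * q, ?_, ?_⟩
      · rwa [emb_mul h, mul_assoc]
      · rwa [emb_mul h, mul_assoc]

/-- the second part -/
lemma part2 (h3 : S2_GR2) (h4 : S2_IT2) (hc : CQ A B) (h8 : (8 : ℤ) ∣ B ^ 2 + 4 * A - 1)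
    {P Q : Ideal (OO A B)} {V : ValuationSubring ℂ} (hP : IsPN 2 P) (hQ : IsPN 2 Q) (hPQ : P ≠ Q)
    (hV : Above2 P V) {b : Ideal (OO A B)} {L : PeriodPair} {om : ℂ} (hL : IsNL b L om)
    (g1 : V.valuation (kap L) = 1) (g2 : V.valuation (1 + 1728 * kap L) = 1)
    (g4 : ∀ w, w ∉ L.lattice → Tor Q L w → V.valuation (par L w) = 1 ∧
      V.valuation (xn L w) = V.valuation 2)
    {m : Ideal (OO A B)} {u : ℂ} (hm : m ≠ ⊥) (hco : IsCoprime m P) (hT : Tor m L u)
    (hK : InEn V L u) : u ∈ L.lattice := by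
  obtain ⟨ξ, G⟩ := h3 V L hL.nrm g1 g2
  obtain ⟨x, hx, hx0⟩ := Submodule.exists_mem_ne_zero_of_ne_bot hm
  have hN := nm_pos hc hx0
  obtain ⟨i, n, hn, hNn⟩ := Nat.exists_eq_two_pow_mul_odd (n := (nm x).toNat) (by omega)
  have hNm : ((2 : OO A B) ^ i * (n : OO A B)) ∈ m := by
    have e1 : (2 : OO A B) ^ i * (n : OO A B) = x * star x := by
      rw [mul_star']
      have e2 : nm x = (((2 ^ i * n : ℕ)) : ℤ) := by rw [← hNn]; omega
      rw [e2]
      push_cast
      rfl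
    rw [e1]
    exact m.mul_mem_right _ hx
  have hnq : ∀ q ∈ Q ^ i, (n : OO A B) * q ∈ m := by
    intro q hq
    obtain ⟨a, ha, c, hc', hac⟩ := Ideal.isCoprime_iff_exists.1 (hco.pow_right (n := i))
    have e1 : (n : OO A B) * q = (n : OO A B) * q * a + (n : OO A B) * (c * q) := by
      linear_combination (-((n : OO A B) * q)) * hac
    rw [e1]
    refine m.add_mem (m.mul_mem_left _ ha) ?_
    have e2 : c * q ∈ Ideal.span {(2 : OO A B) ^ i} := by
      have h5 : (P * Q) ^ i ≤ (Ideal.span {(2 : OO A B)}) ^ i :=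
        Ideal.pow_right_mono (pq_two hc h8 hP hQ hPQ) i
      rw [Ideal.span_singleton_pow, mul_pow] at h5
      exact h5 (Ideal.mul_mem_mul hc' hq)
    obtain ⟨d, hd⟩ := Ideal.mem_span_singleton.1 e2
    rw [hd, ← mul_assoc, mul_comm (n : OO A B)]
    exact m.mul_mem_right _ hNm
  have hTn : Tor (Q ^ i) L ((n : ℂ) * u) := by
    intro q hq
    have h5 := hT _ (hnq q hq)
    rw [emb_mul hc, emb_nat hc] at h5
    have e3 : emb q * ((n : ℂ) * u) = (n : ℂ) * emb q * u := by ring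
    rw [e3]
    exact h5
  have hvn : V.valuation (n : ℂ) = 1 := by
    have h5 : ((n : ℤ) : OO A B) ∉ P := by
      rw [int_mem_iff hP.prime (by simpa using hP.mem)]
      obtain ⟨k, hk⟩ := hn
      omega
    have h6 := hV.one _ h5
    rw [Int.cast_natCast, emb_nat hc] at h6
    exact h6
  by_contra hu
  have hK' : InK V L (xn L) u := hK
  have hnu : (n : ℂ) * u ∉ L.lattice := fun h5 => hu (gmem_of_nat_mul G hK' hvn h5)
  obtain ⟨c, hc1, hc2⟩ := tor_desc hc Q i _ hTn hnu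
  have hcne : emb c ≠ 0 := by
    intro h5
    rw [h5, zero_mul] at hc1
    exact hc1 L.lattice.zero_mem
  have h6 := (h4 V L L (1 / 12) (1 / 12) (emb c) (y2 L) (y2 L) ⟨_, ξ, G⟩ ⟨_, ξ, G⟩ hcne
    (fun w hw => cm hc hL hw c)).2 ((n : ℂ) * u) (gInK_nat G hK' n)
  rcases h6 with h6 | h6
  · exact hc1 h6
  · apply h6
    rw [← ValuationSubring.valuation_le_one_iff]
    have h7 := (g4 _ hc1 hc2).2
    have h8' : V.valuation (xn L (emb c * ((n : ℂ) * u))) ≤ 1 := by
      rw [h7]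
      exact hV.two.le
    exact h8'

end

/-! ## Valuations -/

section
variable {Γ : Type*} [LinearOrderedCommGroupWithZero Γ] (v : Valuation ℂ Γ)

lemma vadd {x y : ℂ} (h : v x < v y) : v (x + y) = v y := Valuation.map_add_eq_of_lt_right v h

/-- the main lemma -/
lemma key {X x m2 b0 a1 a0 : ℂ} {θ : Γ} (h0 : θ ≠ 0) (h1 : θ < 1) (hm : v m2 = θ ^ 2)
    (hb : v b0 = 1) (ha1 : v a1 < 1) (ha0 : v a0 < 1)
    (hE : X * (m2 * x + b0) = x ^ 2 + a1 * x + a0) (hX : 1 < v X) (hX2 : v X * θ ^ 2 ≤ 1) :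
    v x ^ 2 = v X := by
  have hθ : θ ^ 2 < 1 := pow_lt_one₀ zero_le h1 two_ne_zero
  have hθ0 : θ ^ 2 ≠ 0 := pow_ne_zero 2 h0
  have hE' := congrArg v hE
  rw [map_mul] at hE'
  rcases le_or_gt (v x) 1 with ha | ha
  · exfalso
    have e1 : v (m2 * x + b0) = 1 := by
      rw [vadd v, hb]
      rw [map_mul, hm, hb]
      exact lt_of_le_of_lt (mul_le_of_le_one_right zero_le ha) hθ
    rw [e1, mul_one] at hE'
    have e2 : v (x ^ 2 + a1 * x + a0) ≤ 1 := by
      refine v.map_add_le (v.map_add_le ?_ ?_) ha0.le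
      · rw [map_pow]
        exact pow_le_one₀ zero_le ha
      · rw [map_mul]
        exact mul_le_one' ha1.le ha
    rw [hE'] at hX
    exact absurd e2 (not_le.2 hX)
  · have hx0 : 0 < v x := lt_trans zero_lt_one ha
    have ha2 : v x < v x ^ 2 := by
      rw [pow_two]
      exact lt_mul_of_one_lt_left hx0 ha
    have e1 : v (x ^ 2 + a1 * x + a0) = v x ^ 2 := by
      have e2 : x ^ 2 + a1 * x + a0 = (a1 * x + a0) + x ^ 2 := by ring
      rw [e2, vadd v, map_pow]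
      rw [map_pow]
      refine v.map_add_lt ?_ ?_
      · rw [map_mul]
        exact lt_trans (mul_lt_of_lt_one_left hx0 ha1) ha2
      · exact lt_trans (lt_trans ha0 ha) ha2
    rw [e1] at hE'
    rcases lt_trichotomy (θ ^ 2 * v x) 1 with h | h | h
    · have e3 : v (m2 * x + b0) = 1 := by
        rw [vadd v, hb]
        rw [map_mul, hm, hb]
        exact h
      rw [e3, mul_one] at hE'
      exact hE'.symm
    · exfalso
      have e3 : v (m2 * x + b0) ≤ 1 := by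
        refine v.map_add_le ?_ hb.le
        rw [map_mul, hm, h]
      have e4 : v x ^ 2 ≤ v X := by
        rw [← hE']
        exact mul_le_of_le_one_right zero_le e3
      have e5 : v X ≤ v x := by
        rw [← h, mul_comm] at hX2
        exact le_of_mul_le_mul_left hX2 (zero_lt_iff.2 hθ0)
      exact absurd (lt_of_lt_of_le ha2 e4) (not_lt.2 e5)
    · exfalso
      have e3 : v (m2 * x + b0) = θ ^ 2 * v x := by
        rw [add_comm, vadd v, map_mul, hm]
        rw [map_mul, hm, hb]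
        exact h
      rw [e3, ← mul_assoc] at hE'
      have e4 : v X * θ ^ 2 = v x := by
        have : v X * θ ^ 2 * v x = v x * v x := by rw [hE', pow_two]
        exact mul_right_cancel₀ hx0.ne' this
      rw [e4] at hX2
      exact absurd ha (not_lt.2 hX2)

/-- the numbers of `(NRM)` -/
lemma nums (h2 : v 2 < 1) {s : ℂ} (hs : v s = v 2 ^ 12) :
    v (s + 16) = v 2 ^ 4 ∧ v (s - 8) = v 2 ^ 3 ∧ v (s - 512) = v 2 ^ 9 ∧ v (s + 256) = v 2 ^ 8 ∧
      v (s + 64) = v 2 ^ 6 := by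
  have h0 : (0 : Γ) < v 2 := zero_lt_iff.2 (by simp)
  have hp : ∀ {k : ℕ}, k < 12 → v 2 ^ 12 < v 2 ^ k := fun hk =>
    pow_lt_pow_right_of_lt_one₀ h0 h2 hk
  have e16 : v 16 = v 2 ^ 4 := by rw [← map_pow]; norm_num
  have e8 : v (-8) = v 2 ^ 3 := by rw [Valuation.map_neg, ← map_pow]; norm_num
  have e512 : v (-512) = v 2 ^ 9 := by rw [Valuation.map_neg, ← map_pow]; norm_num
  have e256 : v 256 = v 2 ^ 8 := by rw [← map_pow]; norm_num
  have e64 : v 64 = v 2 ^ 6 := by rw [← map_pow]; norm_num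
  refine ⟨?_, ?_, ?_, ?_, ?_⟩
  · rw [vadd v, e16]; rw [hs, e16]; exact hp (by norm_num)
  · rw [sub_eq_add_neg, vadd v, e8]; rw [hs, e8]; exact hp (by norm_num)
  · rw [sub_eq_add_neg, vadd v, e512]; rw [hs, e512]; exact hp (by norm_num)
  · rw [vadd v, e256]; rw [hs, e256]; exact hp (by norm_num)
  · rw [vadd v, e64]; rw [hs, e64]; exact hp (by norm_num)

lemma nums2 (h2 : v 2 < 1) {s : ℂ} (hs : v s = v 2 ^ 12) (q1 : s - 8 ≠ 0) (q2 : s + 256 ≠ 0)
    (q3 : s + 64 ≠ 0) {m2 e t c : ℂ}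
    (hm2 : m2 = (s + 16) * (s - 512) / ((s - 8) * (s + 256))) (he : e = 2 / (s - 8))
    (ht : t = (s + 16) ^ 2 / ((s - 8) ^ 2 * (s + 64))) (hc : c = (1 - m2) / 12) :
    v m2 = v 2 ^ 2 ∧ v (-(m2 * e)) = 1 ∧ v (c - e) < 1 ∧ v (t - c * e) < 1 := by
  obtain ⟨n1, n2, n3, n4, n5⟩ := nums v h2 hs
  have h0 : v 2 ≠ 0 := by simp
  have h0' : (0 : Γ) < v 2 := zero_lt_iff.2 h0
  have k1 : v m2 = v 2 ^ 2 := by
    rw [hm2, map_div₀, map_mul, map_mul, n1, n2, n3, n4, ← pow_add, ← pow_add, div_eq_iff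
      (pow_ne_zero _ h0), ← pow_add]
  have k2 : v e * v 2 ^ 2 = 1 := by
    rw [he, map_div₀, n2, div_mul_eq_mul_div, div_eq_one_iff_eq (pow_ne_zero _ h0), pow_succ' _ 2]
  have k3 : c - e = 60 * s / ((s - 8) * (s + 256)) := by
    rw [hc, hm2, he]
    field_simp
    ring
  have k4 : t - c * e = s * (s ^ 2 + 164 * s + (-512)) / ((s - 8) ^ 2 * (s + 64) * (s + 256)) := by
    rw [hc, hm2, he, ht]
    field_simp
    ring
  have hn : ∀ n : ℕ, v (n : ℂ) ≤ 1 := fun n => Pool.Agent.MU3.Val.v_nat v n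
  refine ⟨k1, ?_, ?_, ?_⟩
  · rw [Valuation.map_neg, map_mul, k1, mul_comm, k2]
  · rw [k3, map_div₀, map_mul, map_mul, n2, n4, hs, ← pow_add]
    rw [div_lt_one₀ (pow_pos h0' _)]
    refine lt_of_le_of_lt (mul_le_of_le_one_left zero_le (by exact_mod_cast hn 60)) ?_
    exact pow_lt_pow_right_of_lt_one₀ h0' h2 (by norm_num)
  · rw [k4, map_div₀, map_mul, map_mul, map_mul, map_pow, n2, n4, n5, hs, ← pow_mul, ← pow_add,
      ← pow_add]
    rw [div_lt_one₀ (pow_pos h0' _)]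
    have e1 : v (s ^ 2 + 164 * s + (-512)) ≤ v 2 ^ 9 := by
      refine v.map_add_le (v.map_add_le ?_ ?_) ?_
      · rw [map_pow, hs, ← pow_mul]
        exact pow_le_pow_of_le_one zero_le h2.le (by norm_num)
      · rw [map_mul, hs]
        refine (mul_le_of_le_one_left zero_le (by exact_mod_cast hn 164)).trans ?_
        exact pow_le_pow_of_le_one zero_le h2.le (by norm_num)
      · rw [Valuation.map_neg, ← map_pow]
        norm_num
    refine lt_of_le_of_lt (mul_le_mul_right e1 _) ?_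
    rw [← pow_add]
    exact pow_lt_pow_right_of_lt_one₀ h0' h2 (by norm_num)

end

/-! ## The first part -/

section
variable {A B : ℤ}

lemma tor_lat (h : CQ A B) {b : Ideal (OO A B)} {L : PeriodPair} {om : ℂ} (hL : IsNL b L om)
    {z : ℂ} (hz : z ∈ L.lattice) (m : Ideal (OO A B)) : Tor m L z := fun x _ => cm h hL hz x

lemma tor_le {m m' : Ideal (OO A B)} (h : m ≤ m') {L : PeriodPair} {z : ℂ} (hz : Tor m' L z) :
    Tor m L z := fun x hx => hz x (h hx)

lemma tor_mul (h : CQ A B) {m m' : Ideal (OO A B)} {L : PeriodPair} {z : ℂ}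
    (hz : ∀ x ∈ m, ∀ y ∈ m', emb (x * y) * z ∈ L.lattice) : Tor (m * m') L z := by
  intro x hx
  refine Submodule.mul_induction_on hx hz fun x y hx hy => ?_
  rw [emb_add h, add_mul]
  exact L.lattice.add_mem hx hy

/-- the induction step -/
lemma step {L M : PeriodPair} {mu w : ℂ} (h1 : S2_NRM) (hT : Two L M mu w)
    (hL : L.g₂ = -18 * L.g₃) (hM : M.g₂ = -18 * M.g₃) (V : ValuationSubring ℂ)
    (h2 : V.valuation 2 < 1) (hs : V.valuation (par L w) = V.valuation 2 ^ 12) {u : ℂ}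
    (hu : mu * u ∉ M.lattice) (hX : 1 < V.valuation (xn M (mu * u)))
    (hX2 : V.valuation (xn M (mu * u)) * V.valuation 2 ^ 2 ≤ 1) :
    V.valuation (xn L u) ^ 2 = V.valuation (xn M (mu * u)) := by
  obtain ⟨q0, q1, q2, q3, q4, q5, q6, he, -, -, hm2, hx⟩ := h1 L M mu w hT hL hM
  obtain ⟨hne, hE⟩ := hx u hu
  obtain ⟨k1, k2, k3, k4⟩ := nums2 V.valuation h2 hs q1 q4 q2 hm2 he rfl rfl
  refine key V.valuation (by simp) h2 k1 k2 k3 k4 ?_ hX hX2
  have e1 : mu ^ 2 * xn M (mu * u) * (xn L u - xn L w) = xn L u * (xn L u - xn L w) +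
      (par L w + 16) ^ 2 / ((par L w - 8) ^ 2 * (par L w + 64)) +
        (1 - mu ^ 2) / 12 * (xn L u - xn L w) := by
    rw [hE, add_mul, add_mul, div_mul_cancel₀ _ hne]
  linear_combination e1

/-- the first part -/
lemma part1 (h1 : S2_NRM) (h2 : S2_GD2) (h5 : S2_CH2) (hc : CaseP 2 A B)
    (h8 : (8 : ℤ) ∣ B ^ 2 + 4 * A - 1) (hF : LatFacts A B)
    {P Q : Ideal (OO A B)} {V : ValuationSubring ℂ} (hP : IsPN 2 P) (hQ : IsPN 2 Q) (hPQ : P ≠ Q)
    (hV : Above2 P V) : ∀ (j : ℕ) (b : Ideal (OO A B)) (L : PeriodPair) (om u : ℂ), IsNL b L om →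
      Tor (P ^ (j + 1)) L u → ¬ Tor (P ^ j) L u →
      V.valuation (xn L u) ^ (2 ^ j) * V.valuation 2 ^ 2 = 1 := by
  have h0 : V.valuation 2 ≠ 0 := by simp
  have hθ : V.valuation (2 : ℂ) ^ 2 < 1 := pow_lt_one₀ zero_le hV.two two_ne_zero
  intro j
  induction j with
  | zero =>
    intro b L om u hL hT hT'
    have g := (h2 A B hc h8 hF P Q V hP hQ hPQ hV b L om hL).2.2.1 u
      (fun hu => hT' (tor_lat hc.toCQ hL hu _)) (by simpa using hT)
    simpa using g.2
  | succ j ih =>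
    intro b L om u hL hT hT'
    obtain ⟨-, -, N, mu, w, -, -, hN0, hNL, hIQ, hTwo, hTor, -, -, -, -⟩ :=
      h5 A B hc h8 hF P hP b L om hL
    obtain ⟨b1, om1, hN1⟩ := hNL 1
    have t0 := hTwo 0
    have i0 := hIQ 0
    have r0 := hTor 0
    rw [hN0] at t0 i0 r0
    have hs := ((h2 A B hc h8 hF P Q V hP hQ hPQ hV b L om hL).2.2.1 (w 0) t0.w_ne r0).1
    have hT1 : Tor (P ^ (j + 1)) (N 1) (mu 0 * u) := by
      intro x hx
      have e1 : emb x * (mu 0 * u) = mu 0 * (emb x * u) := by ring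
      rw [e1, i0.2]
      intro y hy
      rw [← mul_assoc, ← emb_mul hc.toCQ]
      refine hT _ ?_
      rw [pow_succ']
      exact Ideal.mul_mem_mul hy hx
    have hT1' : ¬ Tor (P ^ j) (N 1) (mu 0 * u) := by
      intro hh
      apply hT'
      rw [pow_succ']
      refine tor_mul hc.toCQ fun x hx y hy => ?_
      have e1 := hh y hy
      have e2 : emb y * (mu 0 * u) = mu 0 * (emb y * u) := by ring
      rw [e2, i0.2] at e1
      have e3 := e1 x hx
      rwa [← mul_assoc, ← emb_mul hc.toCQ] at e3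
    have hu1 : mu 0 * u ∉ (N 1).lattice := by
      intro hh
      rw [i0.2] at hh
      exact hT' (tor_le (Ideal.pow_le_self (Nat.succ_ne_zero j)) hh)
    have g := ih b1 (N 1) om1 (mu 0 * u) hN1 hT1 hT1'
    have hX : 1 < V.valuation (xn (N 1) (mu 0 * u)) := by
      by_contra hh
      rw [not_lt] at hh
      have e1 := mul_le_of_le_one_left (a := V.valuation (xn (N 1) (mu 0 * u)) ^ 2 ^ j)
        (b := V.valuation 2 ^ 2) zero_le (pow_le_one₀ zero_le hh)
      rw [g] at e1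
      exact absurd hθ (not_lt.2 e1)
    have hX2 : V.valuation (xn (N 1) (mu 0 * u)) * V.valuation 2 ^ 2 ≤ 1 := by
      rw [← g]
      refine mul_le_mul_left ?_ _
      exact le_self_pow₀ hX.le (by positivity)
    have hk := step h1 t0 hL.nrm hN1.nrm V hV.two hs hu1 hX hX2
    rw [pow_succ', pow_mul, hk]
    exact g

end

end E12

/-- the module E12 -/
theorem t2_E12 (h1 : S2_NRM) (h2 : S2_GD2) (h3 : S2_GR2) (h4 : S2_IT2) (h5 : S2_CH2) :
    S2_E12 := by
  intro A B hc h8 hF P Q V hP hQ hPQ hV b L om hL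
  obtain ⟨g1, g2, -, g4, -, -⟩ := h2 A B hc h8 hF P Q V hP hQ hPQ hV b L om hL
  exact ⟨fun j u => E12.part1 h1 h2 h5 hc h8 hF hP hQ hPQ hV j b L om u hL,
    fun m u hm hco hT hK => E12.part2 h3 h4 hc.toCQ h8 hP hQ hPQ hV hL g1 g2 g4 hm hco hT hK⟩

end

end Pool.Agent.MUX2
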