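import Pool.Agent.MUX.StR2

/-!
# MUX, block R2, module GD2 (helper4): good ordinary reduction at the places above 2
-/

set_option autoImplicit false

namespace Pool.Agent.MUX2

open _root_.MU3 Pool.Agent.MU3A Pool.Agent.MU3B Pool.Agent.MUX Pool.Agent.MUXU WeierstrassCurve

noncomputable section

namespace GD2

/-- squares in the value group -/
lemma sq_inj {Γ : Type*} [LinearOrderedCommGroupWithZero Γ] {a b : Γ} (h : a ^ 2 = b ^ 2) :
    a = b :=
  (pow_left_inj₀ zero_le' zero_le' two_ne_zero).1 h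

section val

variable {V : ValuationSubring ℂ}

lemma th_ne : V.valuation 2 ≠ 0 := (Valuation.ne_zero_iff _).2 two_ne_zero

lemma th_pos : 0 < V.valuation 2 := zero_lt_iff.2 th_ne

lemma th_lt (h2 : V.valuation 2 < 1) {m n : ℕ} (h : m < n) :
    V.valuation 2 ^ n < V.valuation 2 ^ m :=
  pow_lt_pow_right_of_lt_one₀ th_pos h2 h

lemma th_lt1 (h2 : V.valuation 2 < 1) {n : ℕ} (h : 0 < n) : V.valuation 2 ^ n < 1 := by
  have := th_lt h2 h
  rwa [pow_zero] at this

lemma v8 : V.valuation 8 = V.valuation 2 ^ 3 := by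
  rw [← map_pow]; norm_num

lemma v16 : V.valuation 16 = V.valuation 2 ^ 4 := by
  rw [← map_pow]; norm_num

lemma v64 : V.valuation 64 = V.valuation 2 ^ 6 := by
  rw [← map_pow]; norm_num

lemma v256 : V.valuation 256 = V.valuation 2 ^ 8 := by
  rw [← map_pow]; norm_num

lemma v512 : V.valuation 512 = V.valuation 2 ^ 9 := by
  rw [← map_pow]; norm_num

/-- the parameter is a unit -/
lemma unit_case (h2 : V.valuation 2 < 1) {s mu : ℂ} (hs : V.valuation s = 1)
    (hmu : mu ^ 2 = (s + 16) * (s - 512) / ((s - 8) * (s + 256))) :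
    V.valuation mu = 1 ∧ V.valuation (s - 8) = 1 ∧ V.valuation (s + 64) = 1 := by
  have e1 : V.valuation (s + 16) = 1 := by
    rw [Valuation.map_add_eq_of_lt_left _ (by rw [hs, v16]; exact th_lt1 h2 (by norm_num)), hs]
  have e2 : V.valuation (s - 512) = 1 := by
    rw [Valuation.map_sub_eq_of_lt_left _ (by rw [hs, v512]; exact th_lt1 h2 (by norm_num)), hs]
  have e3 : V.valuation (s - 8) = 1 := by
    rw [Valuation.map_sub_eq_of_lt_left _ (by rw [hs, v8]; exact th_lt1 h2 (by norm_num)), hs]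
  have e4 : V.valuation (s + 256) = 1 := by
    rw [Valuation.map_add_eq_of_lt_left _ (by rw [hs, v256]; exact th_lt1 h2 (by norm_num)), hs]
  have e5 : V.valuation (s + 64) = 1 := by
    rw [Valuation.map_add_eq_of_lt_left _ (by rw [hs, v64]; exact th_lt1 h2 (by norm_num)), hs]
  refine ⟨sq_inj ?_, e3, e5⟩
  rw [← map_pow, hmu, map_div₀, map_mul, map_mul, e1, e2, e3, e4]
  simp

/-- the parameter is small -/
lemma small_case (h2 : V.valuation 2 < 1) {s mu : ℂ} (hs : V.valuation s = V.valuation 2 ^ 12)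
    (hmu : mu ^ 2 = (s + 16) * (s - 512) / ((s - 8) * (s + 256))) :
    V.valuation mu = V.valuation 2 ∧ V.valuation (s - 8) = V.valuation 2 ^ 3 := by
  have e1 : V.valuation (s + 16) = V.valuation 2 ^ 4 := by
    rw [Valuation.map_add_eq_of_lt_right _ (by rw [hs, v16]; exact th_lt h2 (by norm_num)), v16]
  have e2 : V.valuation (s - 512) = V.valuation 2 ^ 9 := by
    rw [Valuation.map_sub_eq_of_lt_right _ (by rw [hs, v512]; exact th_lt h2 (by norm_num)), v512]
  have e3 : V.valuation (s - 8) = V.valuation 2 ^ 3 := by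
    rw [Valuation.map_sub_eq_of_lt_right _ (by rw [hs, v8]; exact th_lt h2 (by norm_num)), v8]
  have e4 : V.valuation (s + 256) = V.valuation 2 ^ 8 := by
    rw [Valuation.map_add_eq_of_lt_right _ (by rw [hs, v256]; exact th_lt h2 (by norm_num)), v256]
  refine ⟨sq_inj ?_, e3⟩
  rw [← map_pow, hmu, map_div₀, map_mul, map_mul, e1, e2, e3, e4, ← pow_add, ← pow_add,
    div_eq_iff (pow_ne_zero _ th_ne), ← pow_add]

end val

section ideals

variable {A B : ℤ}

/-- two primes of norm two -/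
lemma eq_of_le {P Q : Ideal (OO A B)} (hP : IsPN 2 P) (hQ : IsPN 2 Q) (h : Q ≤ P) : P = Q := by
  refine le_antisymm (fun x hx => ?_) h
  have hc : Nat.card (OO A B ⧸ Q) = 2 := hQ.norm
  by_contra hxQ
  obtain ⟨y, -, hy⟩ := (Nat.card_eq_two_iff' (0 : OO A B ⧸ Q)).1 hc
  have h1 : Ideal.Quotient.mk Q x ≠ 0 := fun h0 => hxQ (Ideal.Quotient.eq_zero_iff_mem.1 h0)
  have h2 : Ideal.Quotient.mk Q 1 ≠ 0 := fun h0 =>
    hQ.prime.ne_top ((Ideal.eq_top_iff_one Q).2 (Ideal.Quotient.eq_zero_iff_mem.1 h0))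
  have h3 : Ideal.Quotient.mk Q x = Ideal.Quotient.mk Q 1 := (hy _ h1).trans (hy _ h2).symm
  have h4 : x - 1 ∈ P := h (Ideal.Quotient.eq.1 h3)
  have h5 : (1 : OO A B) ∈ P := by
    have := P.sub_mem hx h4
    rwa [sub_sub_cancel] at this
  exact hP.prime.ne_top ((Ideal.eq_top_iff_one P).2 h5)

end ideals

/-- the data of one chain -/
structure Chain {A B : ℤ} (R : Ideal (OO A B)) (L : PeriodPair) (h : ℕ) (y : OO A B)
    (N : ℕ → PeriodPair) (mu w : ℕ → ℂ) : Prop where
  hpos : 0 < h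
  pow : R ^ h = sp y
  zero : N 0 = L
  nl : ∀ i, (N i).g₂ = -18 * (N i).g₃
  isq : ∀ i, IsQ R (N i) (N (i + 1)) (mu i)
  two : ∀ i, Two (N i) (N (i + 1)) (mu i) (w i)
  rec_ : Rec (fun i => par (N i) (w i))
  per : ∀ i, par (N (i + h)) (w (i + h)) = par (N i) (w i)
  prod : ∏ i ∈ Finset.range h, mu i = emb y ∨ ∏ i ∈ Finset.range h, mu i = -emb y

lemma Chain.val {A B : ℤ} {R : Ideal (OO A B)} {L : PeriodPair} {h : ℕ} {y : OO A B}
    {N : ℕ → PeriodPair} {mu w : ℕ → ℂ} (H : Chain R L h y N mu w) (V : ValuationSubring ℂ) :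
    ∏ i ∈ Finset.range h, V.valuation (mu i) = V.valuation (emb y) := by
  rw [← map_prod]
  rcases H.prod with h1 | h1
  · rw [h1]
  · rw [h1, Valuation.map_neg]

/-- a quotient by a torsion point in `Two` form -/
lemma two_of_isQ {A B : ℤ} {R : Ideal (OO A B)} {L N M : PeriodPair} {mu mu' w : ℂ}
    (h1 : IsQ R L N mu) (h2 : Two L N mu w) (h3 : IsQ R L M mu') : Two L M mu' w where
  mu_ne := h3.1
  w_ne := h2.w_ne
  w2 := h2.w2
  ker := fun z => by rw [h3.2 z, ← h1.2 z, h2.ker z]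

/-- points killed by `R` -/
lemma tor_par {A B : ℤ} {R : Ideal (OO A B)} {L N : PeriodPair} {mu w u : ℂ}
    (h1 : IsQ R L N mu) (h2 : Two L N mu w) (hu : u ∉ L.lattice) (ht : Tor R L u) :
    xn L u = xn L w := by
  have h3 : mu * u ∈ N.lattice := (h1.2 u).2 ht
  rcases (h2.ker u).1 h3 with h4 | h4
  · exact absurd h4 hu
  · have h5 : L.weierstrassP u = L.weierstrassP w := by
      have := L.weierstrassP_add_coe w ⟨u - w, h4⟩
      rw [← this]
      congr 1
      simp
    unfold xn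
    rw [h5]

end GD2

open GD2 in
theorem t2_GD2 (h1 : S2_CHN) (h2 : S2_CH2) (h3 : S2_NRM) : S2_GD2 := by
  intro A B hC h8 LF P Q V hP hQ hPQ hV b L om hL
  have hth := hV.two
  -- the chains
  have key : ∀ R : Ideal (OO A B), IsPN 2 R → ∃ (h : ℕ) (y : OO A B) (N : ℕ → PeriodPair)
      (mu w : ℕ → ℂ), Chain R L h y N mu w := by
    intro R hR
    obtain ⟨h, y, N, mu, w, c1, c2, c3, c4, c5, c6, -, -, c9, c10, c11⟩ :=
      h2 A B hC h8 LF R hR b L om hL
    refine ⟨h, y, N, mu, w, c1, c2, c3, fun i => ?_, c5, c6, c9, c10, c11⟩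
    obtain ⟨b', om', hb⟩ := c4 i
    exact hb.nrm
  -- the formula for the multipliers
  have hmuf : ∀ (R : Ideal (OO A B)) (h : ℕ) (y : OO A B) (N : ℕ → PeriodPair) (mu w : ℕ → ℂ),
      Chain R L h y N mu w → ∀ i, mu i ^ 2 = (par (N i) (w i) + 16) * (par (N i) (w i) - 512) /
        ((par (N i) (w i) - 8) * (par (N i) (w i) + 256)) := by
    intro R h y N mu w H i
    exact (h3 _ _ _ _ (H.two i) (H.nl i) (H.nl (i + 1))).2.2.2.2.2.2.2.2.2.2.1
  -- the prime P
  have hPc : ∀ (h : ℕ) (y : OO A B) (N : ℕ → PeriodPair) (mu w : ℕ → ℂ),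
      Chain P L h y N mu w → ∀ i, V.valuation (par (N i) (w i)) = V.valuation 2 ^ 12 := by
    intro h y N mu w H
    rcases h1 V _ h hth H.rec_ H.hpos H.per with h5 | h5
    · exfalso
      have h6 : ∏ i ∈ Finset.range h, V.valuation (mu i) = 1 :=
        Finset.prod_eq_one fun i _ => (unit_case hth (h5 i) (hmuf P h y N mu w H i)).1
      rw [H.val V] at h6
      have h7 : y ∈ P := by
        have h8 : y ∈ P ^ h := by
          rw [H.pow]
          exact Ideal.mem_span_singleton_self y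
        exact Ideal.pow_le_self H.hpos.ne' h8
      exact (hV.lt y h7).ne h6
    · exact h5
  have hQc : ∀ (h : ℕ) (y : OO A B) (N : ℕ → PeriodPair) (mu w : ℕ → ℂ),
      Chain Q L h y N mu w → ∀ i, V.valuation (par (N i) (w i)) = 1 := by
    intro h y N mu w H
    rcases h1 V _ h hth H.rec_ H.hpos H.per with h5 | h5
    · exact h5
    · exfalso
      have h6 : ∏ i ∈ Finset.range h, V.valuation (mu i) = V.valuation 2 ^ h := by
        rw [Finset.prod_congr rfl fun i _ => (small_case hth (h5 i) (hmuf Q h y N mu w H i)).1,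
          Finset.prod_const, Finset.card_range]
      rw [H.val V] at h6
      have h7 : y ∉ P := by
        intro hy
        have h8 : Q ^ h ≤ P := by
          rw [H.pow, Ideal.span_singleton_le_iff_mem]
          exact hy
        exact hPQ (eq_of_le hP hQ (hP.prime.le_of_pow_le h8))
      rw [hV.one y h7] at h6
      exact (th_lt1 hth H.hpos).ne h6.symm
  obtain ⟨hp, yp, Np, mup, wp, HP⟩ := key P hP
  obtain ⟨hq, yq, Nq, muq, wq, HQ⟩ := key Q hQ
  have sP := hPc _ _ _ _ _ HP 0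
  have sQ := hQc _ _ _ _ _ HQ 0
  have NP := h3 _ _ _ _ (HP.two 0) (HP.nl 0) (HP.nl 1)
  have NQ := h3 _ _ _ _ (HQ.two 0) (HQ.nl 0) (HQ.nl 1)
  have qP := HP.isq 0
  have qQ := HQ.isq 0
  have tP := HP.two 0
  have tQ := HQ.two 0
  have mP := hmuf _ _ _ _ _ _ HP 0
  have mQ := hmuf _ _ _ _ _ _ HQ 0
  have nL : L.g₂ = -18 * L.g₃ := hL.nrm
  rw [HP.zero] at sP NP qP tP mP
  rw [HQ.zero] at sQ NQ qQ tQ mQ
  have uQ := unit_case hth sQ mQ
  have uP := small_case hth sP mP
  have hk : V.valuation (kap L) = 1 := by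
    rw [NQ.2.2.2.2.2.2.2.2.1, map_div₀, map_mul, map_pow, sQ, uQ.2.1, uQ.2.2]
    simp
  refine ⟨hk, ?_, fun u hu ht => ?_, fun u hu ht => ?_, fun b' M om' mu hM hq => ?_,
    fun b' M om' mu hM hq => ?_⟩
  · have e1 : V.valuation (1728 * kap L) < 1 := by
      rw [map_mul, hk, mul_one, show (1728 : ℂ) = 2 ^ 6 * ((27 : ℕ) : ℂ) by norm_num, map_mul,
        map_pow]
      have e2 : V.valuation ((27 : ℕ) : ℂ) ≤ 1 :=
        (V.valuation_le_one_iff _).2 (natCast_mem V 27)
      calc V.valuation 2 ^ 6 * V.valuation ((27 : ℕ) : ℂ) ≤ V.valuation 2 ^ 6 * 1 := by gcongr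
        _ = V.valuation 2 ^ 6 := mul_one _
        _ < 1 := th_lt1 hth (by norm_num)
    rw [Valuation.map_add_eq_of_lt_left _ (by rwa [map_one]), map_one]
  · have e0 := tor_par qP tP hu ht
    have e1 : par L u = par L (wp 0) := by
      unfold par
      rw [e0]
    rw [e1, e0, sP, NP.2.2.2.2.2.2.2.1, map_div₀, uP.2]
    refine ⟨rfl, ?_⟩
    rw [div_mul_eq_mul_div, ← pow_succ', div_self (pow_ne_zero _ th_ne)]
  · have e0 := tor_par qQ tQ hu ht
    have e1 : par L u = par L (wq 0) := by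
      unfold par
      rw [e0]
    rw [e1, e0, sQ, NQ.2.2.2.2.2.2.2.1, map_div₀, uQ.2.1, div_one]
    exact ⟨rfl, rfl⟩
  · have e1 := two_of_isQ qP tP hq
    exact (small_case hth sP (h3 _ _ _ _ e1 nL hM.nrm).2.2.2.2.2.2.2.2.2.2.1).1
  · have e1 := two_of_isQ qQ tQ hq
    exact (unit_case hth sQ (h3 _ _ _ _ e1 nL hM.nrm).2.2.2.2.2.2.2.2.2.2.1).1

end

end Pool.Agent.MUX2
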