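import Pool.Agent.MUX.StR2

/-!
# MUX, block R2, module GR2: the model with good reduction at 2 (helper46)

Model: `Pool/Agent/MUX/U_XIL.lean` (helper95).
-/

set_option autoImplicit false

namespace Pool.Agent.MUX2

open _root_.MU3 Pool.Agent.MU3A Pool.Agent.MU3B Pool.Agent.MUX Pool.Agent.MUXU WeierstrassCurve

noncomputable section

namespace GR2

open WeierstrassCurve.Affine

theorem some_eq {W : WeierstrassCurve.Affine ℂ} {x y x' y' : ℂ} (h : W.Nonsingular x y)
    (h' : W.Nonsingular x' y') (hx : x = x') (hy : y = y') :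
    Point.some x y h = Point.some x' y' h' := by
  subst hx hy
  rfl

/-- the homomorphism -/
theorem hom (L : PeriodPair) (hL : L.g₂ = -18 * L.g₃) :
    ∃ ξ : ℂ →+ (W2 (kap L)).Point,
      (∀ z ∉ L.lattice, ∃ h, ξ z = Point.some (xn L z) (y2 L z) h) ∧
      ∀ z ∈ L.lattice, ξ z = 0 := by
  classical
  set P : ℂ → ℂ := L.weierstrassP with hP
  set D : ℂ → ℂ := L.derivWeierstrassP with hD
  set X : ℂ → ℂ := fun z => P z - 1 / 12 with hX0
  set Y : ℂ → ℂ := fun z => D z / 2 - (P z - 1 / 12) / 2 with hY0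
  have hXe : ∀ z, X z = P z - 1 / 12 := fun _ => rfl
  have hYe : ∀ z, Y z = D z / 2 - (P z - 1 / 12) / 2 := fun _ => rfl
  have hXn : ∀ z, xn L z = X z := fun _ => rfl
  have hYn : ∀ z, y2 L z = Y z := fun _ => rfl
  set W : WeierstrassCurve.Affine ℂ := W2 (kap L) with hW
  have hk : kap L = (12 * L.g₂ - 1) / 1728 := rfl
  have hg3 : L.g₃ = -L.g₂ / 18 := by linear_combination (1 / 18) * hL
  have w1 : W.a₁ = 1 := rfl
  have w2 : W.a₂ = 0 := rfl
  have w3 : W.a₃ = 0 := rfl
  have w4 : W.a₄ = -36 * ((12 * L.g₂ - 1) / 1728) := rfl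
  have w6 : W.a₆ = -((12 * L.g₂ - 1) / 1728) := rfl
  -- the facts
  have hsq : ∀ z, z ∉ L.lattice → D z ^ 2 = 4 * P z ^ 3 - L.g₂ * P z + L.g₂ / 18 := by
    intro z hz
    have h := L.derivWeierstrassP_sq z hz
    rw [hg3] at h
    linear_combination h
  have hpar : ∀ z, P (-z) = P z ∧ D (-z) = -D z := fun z =>
    ⟨L.weierstrassP_neg z, L.derivWeierstrassP_neg z⟩
  have hper : ∀ z, ∀ u ∈ L.lattice, P (z + u) = P z ∧ D (z + u) = D z := by
    intro z u hu
    exact ⟨L.weierstrassP_add_coe z ⟨u, hu⟩, L.derivWeierstrassP_add_coe z ⟨u, hu⟩⟩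
  have hinj : ∀ z z', z ∉ L.lattice → z' ∉ L.lattice → P z = P z' →
      z - z' ∈ L.lattice ∨ z + z' ∈ L.lattice := fun z z' hz hz' hx =>
    b_NEQ L z' z hz' hz hx
  have hy0 : ∀ z, z ∉ L.lattice → (D z = 0 ↔ 2 * z ∈ L.lattice) := fun z hz => b_ZER L z hz
  have hadd := b_ADD L
  have hdbl := b_DUP L
  have ns : ∀ z, z ∉ L.lattice → W.Nonsingular (X z) (Y z) := by
    intro z hz
    rw [WeierstrassCurve.Affine.nonsingular_iff', WeierstrassCurve.Affine.equation_iff, w1, w2, w3,
      w4, w6, hXe, hYe]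
    refine ⟨by linear_combination (1 / 4) * hsq z hz, ?_⟩
    by_contra hcon
    rw [not_or, not_not, not_not] at hcon
    obtain ⟨hx, hy⟩ := hcon
    have h1 := hsq z hz
    have h2 : D z = 0 := by linear_combination hy
    rw [h2] at h1 hx
    have e2 : L.g₂ = 12 * P z ^ 2 := by linear_combination 4 * hx
    have e3 : L.g₃ = -8 * P z ^ 3 := by
      rw [hg3]
      linear_combination h1 - P z * e2
    apply (b_DSC L).1
    rw [e2, e3]
    ring
  set f : ℂ → W.Point := fun z => if h : z ∈ L.lattice then 0 else Point.some _ _ (ns z h) with hf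
  have hf0 : ∀ z, z ∈ L.lattice → f z = 0 := fun z hz => dif_pos hz
  have hf1 : ∀ z (hz : z ∉ L.lattice), f z = Point.some _ _ (ns z hz) := fun z hz => dif_neg hz
  have hfper : ∀ z, ∀ u ∈ L.lattice, f (z + u) = f z := by
    intro z u hu
    by_cases hz : z ∈ L.lattice
    · rw [hf0 z hz, hf0 _ (add_mem hz hu)]
    · have hzu : z + u ∉ L.lattice := fun h => hz (by
        have := sub_mem h hu
        rwa [add_sub_cancel_right] at this)
      rw [hf1 z hz, hf1 _ hzu]
      exact some_eq _ _ (by rw [hXe, hXe, (hper z u hu).1])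
        (by rw [hYe, hYe, (hper z u hu).1, (hper z u hu).2])
  have hnegY : ∀ x y : ℂ, W.negY x y = -y - x := by
    intro x y
    rw [WeierstrassCurve.Affine.negY, w1, w3]
    ring
  have hmap : ∀ z z', f (z + z') = f z + f z' := by
    intro z z'
    by_cases hz : z ∈ L.lattice
    · rw [hf0 z hz, zero_add, add_comm z z', hfper z' z hz]
    by_cases hz' : z' ∈ L.lattice
    · rw [hf0 z' hz', add_zero, hfper z z' hz']
    by_cases hzz : z + z' ∈ L.lattice
    · rw [hf0 _ hzz, hf1 z hz, hf1 z' hz']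
      have e : z = -z' + (z + z') := by ring
      have hx : P z = P z' := by
        rw [e, (hper (-z') _ hzz).1, (hpar z').1]
      have hy : D z = -D z' := by
        rw [e, (hper (-z') _ hzz).2, (hpar z').2]
      exact (Point.add_of_Y_eq (by rw [hXe, hXe, hx])
        (by rw [hnegY, hYe, hYe, hXe, hx, hy]; ring)).symm
    by_cases hzd : z - z' ∈ L.lattice
    · have e1 : f z' = f z := by
        have := hfper z' _ hzd
        rw [← this]
        congr 1
        ring
      have e2 : f (z + z') = f (2 * z) := by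
        have := hfper (z + z') _ hzd
        rw [← this]
        congr 1
        ring
      have h2z : 2 * z ∉ L.lattice := by
        intro h
        apply hzz
        have := sub_mem h hzd
        have e : z + z' = 2 * z - (z - z') := by ring
        rwa [e]
      have hy : D z ≠ 0 := fun h => h2z ((hy0 z hz).1 h)
      have hyne : Y z ≠ W.negY (X z) (Y z) := by
        rw [hnegY, hYe, hXe]
        intro h0
        apply hy
        linear_combination h0
      rw [e1, e2, hf1 z hz, hf1 _ h2z, Point.add_self_of_Y_ne hyne]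
      have hsl : W.slope (X z) (X z) (Y z) (Y z) =
          (6 * P z ^ 2 - L.g₂ / 2) / (2 * D z) - 1 / 2 := by
        rw [WeierstrassCurve.Affine.slope_of_Y_ne rfl hyne, hnegY, w1, w2, w4]
        have h3 : Y z - (-Y z - X z) = D z := by rw [hYe, hXe]; ring
        rw [h3, hYe, hXe]
        field_simp
        ring
      obtain ⟨hd1, hd2⟩ := hdbl z h2z
      have hX : W.addX (X z) (X z)
          (W.slope (X z) (X z) (Y z) (Y z)) = X (2 * z) := by
        rw [WeierstrassCurve.Affine.addX, hsl, w1, w2, hXe, hXe]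
        linear_combination -hd1
      apply some_eq
      · exact hX.symm
      · rw [WeierstrassCurve.Affine.addY, WeierstrassCurve.Affine.negAddY, hnegY, hX, hsl]
        rw [hYe, hYe, hXe, hXe]
        linear_combination (1 / 2) * hd2
    · have hxne : X z ≠ X z' := by
        intro h
        have h' : P z = P z' := by
          rw [hXe, hXe] at h
          linear_combination h
        rcases hinj z z' hz hz' h' with h3 | h3
        · exact hzd h3
        · exact hzz h3
      rw [hf1 z hz, hf1 z' hz', hf1 _ hzz, Point.add_of_X_ne hxne]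
      have hsl : W.slope (X z) (X z') (Y z) (Y z') =
          (D z - D z') / (2 * (P z - P z')) - 1 / 2 := by
        rw [WeierstrassCurve.Affine.slope_of_X_ne hxne]
        have h3 : X z - X z' = P z - P z' := by rw [hXe, hXe]; ring
        have h4 : P z - P z' ≠ 0 := by
          rw [← h3]
          exact sub_ne_zero.2 hxne
        rw [h3, hYe, hYe]
        field_simp
        ring
      obtain ⟨ha1, ha2⟩ := hadd z' z hz' hz hzz hzd
      have hX : W.addX (X z) (X z')
          (W.slope (X z) (X z') (Y z) (Y z')) = X (z + z') := by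
        rw [WeierstrassCurve.Affine.addX, hsl, w1, w2, hXe, hXe, hXe]
        linear_combination -ha1
      apply some_eq
      · exact hX.symm
      · rw [WeierstrassCurve.Affine.addY, WeierstrassCurve.Affine.negAddY, hnegY, hX, hsl]
        rw [hYe, hYe, hXe, hXe]
        linear_combination (1 / 2) * ha2
  refine ⟨⟨⟨f, hf0 0 L.lattice.zero_mem⟩, hmap⟩, ?_, ?_⟩
  · intro z hz
    exact ⟨ns z hz, hf1 z hz⟩
  · exact fun z hz => hf0 z hz

theorem disc (k : ℂ) : (W2 k).Δ = k * (1 + 1728 * k) ^ 2 := by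
  have w1 : (W2 k).a₁ = 1 := rfl
  have w2 : (W2 k).a₂ = 0 := rfl
  have w3 : (W2 k).a₃ = 0 := rfl
  have w4 : (W2 k).a₄ = -36 * k := rfl
  have w6 : (W2 k).a₆ = -k := rfl
  rw [WeierstrassCurve.Δ, WeierstrassCurve.b₂, WeierstrassCurve.b₄, WeierstrassCurve.b₆,
    WeierstrassCurve.b₈, w1, w2, w3, w4, w6]
  ring

end GR2

theorem t2_GR2 : S2_GR2 := by
  intro V L hL h1 h2
  obtain ⟨ξ, hs, h0⟩ := GR2.hom L hL
  refine ⟨ξ, ?_, ?_, hs, h0⟩
  · refine ⟨?_, ?_, ?_, ?_, ?_⟩
    · show V.valuation 1 ≤ 1
      rw [map_one]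
    · show V.valuation 0 ≤ 1
      rw [map_zero]
      exact zero_le_one
    · show V.valuation 0 ≤ 1
      rw [map_zero]
      exact zero_le_one
    · show V.valuation (-36 * kap L) ≤ 1
      rw [map_mul, h1, mul_one]
      have h3 : (-36 : ℂ) ∈ V := by
        have h4 : ((-36 : ℤ) : ℂ) ∈ V := intCast_mem V (-36)
        exact_mod_cast h4
      exact (V.valuation_le_one_iff _).2 h3
    · show V.valuation (-kap L) ≤ 1
      rw [Valuation.map_neg, h1]
  · rw [GR2.disc, map_mul, map_pow, h1, h2, one_pow, one_mul]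

end

end Pool.Agent.MUX2
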