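import Pool.Agent.MUX.R2_NRM

/-!
# MUX, block R2, module IN2: different lattices have incongruent kappa modulo V   (helper50)
-/

set_option autoImplicit false

namespace Pool.Agent.MUX2

open _root_.MU3 Pool.Agent.MU3A Pool.Agent.MU3B Pool.Agent.MUX Pool.Agent.MUXU WeierstrassCurve

noncomputable section

/-- `1/κ = J(s) - 1728` -/
theorem in2_inv (k s : ℂ) (s0 : s ≠ 0) (s8 : s - 8 ≠ 0) (s64 : s + 64 ≠ 0)
    (hk : k = s / ((s - 8) ^ 2 * (s + 64))) : (s + 16) ^ 3 / s = 1 / k + 1728 := by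
  rw [hk]
  field_simp
  ring

theorem t2_IN2 (h1 : S2_CH2) (h2 : S2_GD2) (h3 : S2_CIN) (h4 : Su_DET) : S2_IN2 := by
  intro A B hc h8 hL P Q V hP hQ hPQ hV b b' L L' om om' hn hn' hlt
  have key : ∀ (b : Ideal (OO A B)) (L : PeriodPair) (om : ℂ), IsNL b L om →
      ∃ (h : ℕ) (s : ℕ → ℂ), 0 < h ∧ Rec s ∧ (∀ i, s (i + h) = s i) ∧
        (∀ i, V.valuation (s i) = 1) ∧ kap L ≠ 0 ∧
        kap L = s 0 / ((s 0 - 8) ^ 2 * (s 0 + 64)) ∧
        (s 0 + 16) ^ 3 / s 0 = 1 / kap L + 1728 := by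
    intro b L om hn
    obtain ⟨h, y, N, mu, w, hpos, -, hN0, hNL, -, hTwo, hTor, -, hRec, hper, -⟩ :=
      h1 A B hc h8 hL Q hQ b L om hn
    refine ⟨h, fun i => par (N i) (w i), hpos, hRec, hper, ?_, ?_⟩
    · intro i
      obtain ⟨b₁, om₁, hb₁⟩ := hNL i
      exact ((h2 A B hc h8 hL P Q V hP hQ hPQ hV b₁ (N i) om₁ hb₁).2.2.2.1 (w i)
        (hTwo i).w_ne (hTor i)).1
    · have hw := hTwo 0
      rw [hN0] at hw
      obtain ⟨s0, s8, s64, k0, -, hk⟩ := t2_PAR L (w 0) hw.w_ne hw.w2 hn.nrm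
      refine ⟨k0, ?_, ?_⟩
      · show kap L = par (N 0) (w 0) / ((par (N 0) (w 0) - 8) ^ 2 * (par (N 0) (w 0) + 64))
        rw [hN0]
        exact hk
      · show (par (N 0) (w 0) + 16) ^ 3 / par (N 0) (w 0) = 1 / kap L + 1728
        rw [hN0]
        exact in2_inv _ _ s0 s8 s64 hk
  obtain ⟨h, s, hpos, hRec, hper, hu, hk0, hk, hJ⟩ := key b L om hn
  obtain ⟨h', s', hpos', hRec', hper', hu', hk0', hk', hJ'⟩ := key b' L' om' hn'
  have hvk := (h2 A B hc h8 hL P Q V hP hQ hPQ hV b L om hn).1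
  have hvk' := (h2 A B hc h8 hL P Q V hP hQ hPQ hV b' L' om' hn').1
  have hval : V.valuation ((s 0 + 16) ^ 3 / s 0 - (s' 0 + 16) ^ 3 / s' 0) < 1 := by
    rw [hJ, hJ']
    have e : 1 / kap L + 1728 - (1 / kap L' + 1728) =
        -(kap L - kap L') / (kap L * kap L') := by
      field_simp
      ring
    rw [e, map_div₀, Valuation.map_neg, map_mul, hvk, hvk', mul_one, div_one]
    exact hlt
  have hs : s 0 = s' 0 :=
    h3 V s s' h h' hV.two hRec hRec' hpos hpos' hper hper' hu hu' hval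
  have hkk : kap L = kap L' := by rw [hk, hk', hs]
  obtain ⟨-, a2, a3, -, -⟩ := nrm_kap L hn.nrm
  obtain ⟨-, b2, b3, -, -⟩ := nrm_kap L' hn'.nrm
  exact h4 L L' (by rw [a2, b2, hkk]) (by rw [a3, b3, hkk])

end

end Pool.Agent.MUX2
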