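import Pool.Agent.MUX.VG
import Pool.Agent.MUX.U_ISO
import Pool.Agent.MUX.U_PFI
import Pool.Agent.MU3.BAll

/-!
# MUX, block R2, module IT2: isogenies are integral, in every residue characteristic (helper64)
-/

set_option autoImplicit false

open WeierstrassCurve

namespace Pool.Agent.MUX2

open Pool.Agent.MU3.Val Pool.Agent.MUXV Pool.Agent.MUXG Pool.Agent.MU3B Pool.Agent.MUXU

noncomputable section

namespace IT2

/-- difference of two products of integral linear factors -/
lemma prod_diff (V : ValuationSubring ℂ) (s : Finset ℂ) (a b : ℂ → ℂ) (x : ℂ)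
    (ha : ∀ q ∈ s, V.valuation (a q) ≤ 1) (hb : ∀ q ∈ s, V.valuation (b q) ≤ 1)
    (hx : 1 < V.valuation x) :
    V.valuation (∏ q ∈ s, (x - a q) - ∏ q ∈ s, (x - b q)) * V.valuation x ≤
      V.valuation x ^ s.card ∧ V.valuation (∏ q ∈ s, (x - b q)) = V.valuation x ^ s.card := by
  classical
  have hlin : ∀ y : ℂ, V.valuation y ≤ 1 → V.valuation (x - y) = V.valuation x := fun y hy =>
    V.valuation.map_sub_eq_of_lt_left (hy.trans_lt hx)
  induction s using Finset.induction_on with
  | empty => simp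
  | insert j s hj ih =>
    obtain ⟨ih1, ih2⟩ := ih (fun q hq => ha q (Finset.mem_insert_of_mem hq))
      (fun q hq => hb q (Finset.mem_insert_of_mem hq))
    have haj := ha j (Finset.mem_insert_self _ _)
    have hbj := hb j (Finset.mem_insert_self _ _)
    rw [Finset.prod_insert hj, Finset.prod_insert hj, Finset.card_insert_of_notMem hj]
    constructor
    · have e : (x - a j) * ∏ q ∈ s, (x - a q) - (x - b j) * ∏ q ∈ s, (x - b q) =
          (x - a j) * (∏ q ∈ s, (x - a q) - ∏ q ∈ s, (x - b q)) +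
            (b j - a j) * ∏ q ∈ s, (x - b q) := by ring
      rw [e]
      have h1 : V.valuation ((x - a j) * (∏ q ∈ s, (x - a q) - ∏ q ∈ s, (x - b q))) *
          V.valuation x ≤ V.valuation x ^ (s.card + 1) := by
        rw [map_mul, hlin _ haj, pow_succ', mul_assoc]
        exact mul_le_mul_right ih1 _
      have h2 : V.valuation ((b j - a j) * ∏ q ∈ s, (x - b q)) * V.valuation x ≤
          V.valuation x ^ (s.card + 1) := by
        rw [map_mul, ih2, pow_succ]
        refine mul_le_mul_left ?_ _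
        exact mul_le_of_le_one_left' (v_sub_le hbj haj)
      rcases le_total (V.valuation ((x - a j) * (∏ q ∈ s, (x - a q) - ∏ q ∈ s, (x - b q))))
        (V.valuation ((b j - a j) * ∏ q ∈ s, (x - b q))) with h | h
      · exact (mul_le_mul_left (V.valuation.map_add_le h le_rfl) _).trans h2
      · exact (mul_le_mul_left (V.valuation.map_add_le le_rfl h) _).trans h1
    · rw [map_mul, ih2, hlin _ hbj, pow_succ']

/-- a prime number, large, a unit at `V` -/
lemma exists_prime (V : ValuationSubring ℂ) (n : ℕ) :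
    ∃ l : ℕ, l.Prime ∧ n < l ∧ V.valuation (l : ℂ) = 1 := by
  obtain ⟨p, hp1, hp⟩ := Nat.exists_infinite_primes (n + 1)
  obtain ⟨q, hq1, hq⟩ := Nat.exists_infinite_primes (p + 1)
  by_cases h1 : V.valuation (p : ℂ) = 1
  · exact ⟨p, hp, by omega, h1⟩
  by_cases h2 : V.valuation (q : ℂ) = 1
  · exact ⟨q, hq, by omega, h2⟩
  exfalso
  have h3 := lt_of_le_of_ne (v_nat V.valuation p) h1
  have h4 := lt_of_le_of_ne (v_nat V.valuation q) h2
  have hc : Nat.Coprime p q := (Nat.coprime_primes hp hq).2 (by omega)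
  have hb : (p : ℤ) * Nat.gcdA p q + (q : ℤ) * Nat.gcdB p q = 1 := by
    have := Nat.gcd_eq_gcd_ab p q
    rw [hc] at this
    exact_mod_cast this.symm
  have hb2 : (p : ℂ) * (Nat.gcdA p q : ℂ) + (q : ℂ) * (Nat.gcdB p q : ℂ) = 1 := by
    exact_mod_cast hb
  have hz : ∀ m : ℤ, V.valuation (m : ℂ) ≤ 1 := fun m =>
    (ValuationSubring.valuation_le_one_iff _ _).2 (intCast_mem V m)
  have h5 : V.valuation ((p : ℂ) * (Nat.gcdA p q : ℂ) + (q : ℂ) * (Nat.gcdB p q : ℂ)) < 1 := by
    refine V.valuation.map_add_lt ?_ ?_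
    · rw [map_mul]; exact mul_lt_one_of_lt_of_le h3 (hz _)
    · rw [map_mul]; exact mul_lt_one_of_lt_of_le h4 (hz _)
  rw [hb2, map_one] at h5
  exact lt_irrefl _ h5

/-- multiples of a point of order `l` -/
lemma mul_mem (M : PeriodPair) (l m : ℕ) (hl : l ≠ 0) (h : (m : ℂ) * (M.ω₁ / l) ∈ M.lattice) :
    l ∣ m := by
  have e : (m : ℂ) * (M.ω₁ / l) = (((m : ℚ) / (l : ℚ) : ℚ) : ℂ) * M.ω₁ +
      ((0 : ℚ) : ℂ) * M.ω₂ := by
    push_cast; ring
  rw [e, PeriodPair.mul_ω₁_add_mul_ω₂_mem_lattice] at h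
  have h1 := h.1
  have h2 : ((m : ℚ) / (l : ℚ)) = ((((m : ℚ) / (l : ℚ)).num : ℤ) : ℚ) :=
    ((Rat.den_eq_one_iff _).1 h1).symm
  have h3 : (m : ℚ) = (l : ℚ) * ((((m : ℚ) / (l : ℚ)).num : ℤ) : ℚ) := by
    rw [← h2, mul_div_cancel₀]
    exact_mod_cast hl
  have h4 : (m : ℤ) = (l : ℤ) * ((m : ℚ) / (l : ℚ)).num := by exact_mod_cast h3
  exact Int.natCast_dvd_natCast.1 ⟨_, h4⟩

end IT2

open IT2 in
/-- Isogenies are integral, in every residue characteristic. -/
theorem t2_IT2 (h1 : Su_BAC) (_h2 : Su_ISO) (h3 : Su_PFI) : S2_IT2 := by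
  classical
  intro V L M c c' mu YL YM hGL hGM hmu hI
  obtain ⟨W, ξ, gL⟩ := hGL
  obtain ⟨W', ξ', gM⟩ := hGM
  obtain ⟨⟨R, hR⟩, n, hn, hnz⟩ := h1.2 L M mu hmu hI
  obtain ⟨l, hl, hln, hlv⟩ := exists_prime V (max n 5)
  have hl0 : (l : ℂ) ≠ 0 := by exact_mod_cast hl.ne_zero
  have h5l : 5 < l := lt_of_le_of_lt (le_max_right _ _) hln
  have hnl : n < l := lt_of_le_of_lt (le_max_left _ _) hln
  have h0 : (0 : ℂ) ∉ R := fun h => hR.ne 0 h (zero_mem _)
  have hmem : ∀ q ∈ insert 0 R, mu * q ∈ M.lattice := by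
    intro q hq
    rcases Finset.mem_insert.1 hq with rfl | hq
    · rw [mul_zero]; exact zero_mem _
    · exact hR.mem q hq
  set e : ℂ := M.ω₁ / l with he
  have hle : (l : ℂ) * e = M.ω₁ := mul_div_cancel₀ _ hl0
  -- multiples of `e`
  have hke : ∀ k : ℕ, 0 < k → k < 5 → ∀ m : ℕ, m ≠ 0 → m < l →
      (m : ℂ) * ((k : ℂ) * e) ∉ M.lattice := by
    intro k hk0 hk5 m hm0 hml hh
    have h4 : ((m * k : ℕ) : ℂ) * (M.ω₁ / l) ∈ M.lattice := by
      rw [← he]; push_cast; rwa [mul_assoc]
    have h5 := mul_mem M l (m * k) hl.ne_zero h4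
    rcases hl.dvd_mul.1 h5 with h6 | h6
    · exact absurd (Nat.le_of_dvd (by omega) h6) (by omega)
    · exact absurd (Nat.le_of_dvd (by omega) h6) (by omega)
  have hke1 : ∀ k : ℕ, 0 < k → k < 5 → (k : ℂ) * e ∉ M.lattice := by
    intro k hk0 hk5 hh
    exact hke k hk0 hk5 1 one_ne_zero hl.one_lt (by simpa using hh)
  have hlk : ∀ k : ℕ, (l : ℂ) * ((k : ℂ) * e) ∈ M.lattice := by
    intro k
    have e1 : (l : ℂ) * ((k : ℂ) * e) = k • M.ω₁ := by
      rw [nsmul_eq_mul, ← hle]; ring
    rw [e1]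
    exact nsmul_mem M.ω₁_mem_lattice k
  have hkM : ∀ k : ℕ, 0 < k → k < 5 →
      ¬ InK V M (fun z => M.weierstrassP z - c') ((k : ℂ) * e) := by
    intro k hk0 hk5 hh
    exact hke1 k hk0 hk5 (gmem_of_nat_mul gM hh hlv (hlk k))
  have hkL : ∀ k : ℕ, 0 < k → k < 5 → ∀ z, mu * z - (k : ℂ) * e ∈ M.lattice →
      ¬ InK V L (fun z => L.weierstrassP z - c) z := by
    intro k hk0 hk5 z hz hh
    have h4 : mu * ((l : ℂ) * z) ∈ M.lattice := by
      have e1 : mu * ((l : ℂ) * z) = l • (mu * z - (k : ℂ) * e) + (l : ℂ) * ((k : ℂ) * e) := by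
        rw [nsmul_eq_mul]; ring
      rw [e1]
      exact add_mem (nsmul_mem hz _) (hlk k)
    have h5 := hnz _ h4
    have h6 := gInK_nat gL hh n
    have h7 : (n : ℂ) * z ∈ L.lattice := by
      refine gmem_of_nat_mul gL h6 hlv ?_
      have e2 : (l : ℂ) * ((n : ℂ) * z) = (n : ℂ) * ((l : ℂ) * z) := by ring
      rwa [e2]
    have h8 := hI _ h7
    have h9 : (n : ℂ) * ((k : ℂ) * e) ∈ M.lattice := by
      have e3 : (n : ℂ) * ((k : ℂ) * e) = mu * ((n : ℂ) * z) - n • (mu * z - (k : ℂ) * e) := by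
        rw [nsmul_eq_mul]; ring
      rw [e3]
      exact sub_mem h8 (nsmul_mem hz _)
    exact hke k hk0 hk5 n hn hnl h9
  -- the two points
  set w₁ : ℂ := mu⁻¹ * e with hw₁
  set w₂ : ℂ := mu⁻¹ * (2 * e) with hw₂
  have hm1 : mu * w₁ = ((1 : ℕ) : ℂ) * e := by rw [hw₁, mul_inv_cancel_left₀ hmu]; simp
  have hm2 : mu * w₂ = ((2 : ℕ) : ℂ) * e := by rw [hw₂, mul_inv_cancel_left₀ hmu]; simp
  have hw1M : mu * w₁ ∉ M.lattice := by rw [hm1]; exact hke1 1 (by norm_num) (by norm_num)
  have hw2M : mu * w₂ ∉ M.lattice := by rw [hm2]; exact hke1 2 (by norm_num) (by norm_num)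
  set a : ℂ → ℂ := fun q => L.weierstrassP (w₁ + q) - c with ha
  set b : ℂ → ℂ := fun q => L.weierstrassP (w₂ + q) - c with hb
  have hav : ∀ q ∈ insert 0 R, V.valuation (a q) ≤ 1 := by
    intro q hq
    refine (int_X (X := fun z => L.weierstrassP z - c)
      (hkL 1 (by norm_num) (by norm_num) (w₁ + q) ?_)).2
    rw [mul_add, hm1, add_sub_cancel_left]
    exact hmem q hq
  have hbv : ∀ q ∈ insert 0 R, V.valuation (b q) ≤ 1 := by
    intro q hq
    refine (int_X (X := fun z => L.weierstrassP z - c)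
      (hkL 2 (by norm_num) (by norm_num) (w₂ + q) ?_)).2
    rw [mul_add, hm2, add_sub_cancel_left]
    exact hmem q hq
  set x₁ : ℂ := M.weierstrassP (mu * w₁) - c' with hx₁
  set x₂ : ℂ := M.weierstrassP (mu * w₂) - c' with hx₂
  have hx₁v : V.valuation x₁ ≤ 1 := by
    rw [hx₁, hm1]
    exact (int_X (X := fun z => M.weierstrassP z - c') (hkM 1 (by norm_num) (by norm_num))).2
  have hunit : V.valuation (x₂ - x₁) = 1 := by
    rw [hx₁, hx₂, hm1, hm2]
    refine gv_X_sub gM (hkM 2 (by norm_num) (by norm_num)) (hkM 1 (by norm_num) (by norm_num)) ?_ ?_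
    · have e4 : ((2 : ℕ) : ℂ) * e + ((1 : ℕ) : ℂ) * e = ((3 : ℕ) : ℂ) * e := by push_cast; ring
      rw [e4]; exact hkM 3 (by norm_num) (by norm_num)
    · have e4 : ((2 : ℕ) : ℂ) * e - ((1 : ℕ) : ℂ) * e = ((1 : ℕ) : ℂ) * e := by push_cast; ring
      rw [e4]; exact hkM 1 (by norm_num) (by norm_num)
  -- the product formulas
  have hpf : ∀ (w : ℂ), mu * w ∉ M.lattice → ∀ z, mu * z ∉ M.lattice →
      mu ^ 2 * ((M.weierstrassP (mu * z) - c') - (M.weierstrassP (mu * w) - c')) *
        ∏ q ∈ R, (L.weierstrassP z - L.weierstrassP q) =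
      ∏ q ∈ insert 0 R, ((L.weierstrassP z - c) - (L.weierstrassP (w + q) - c)) := by
    intro w hw z hz
    rw [Finset.prod_insert h0, add_zero]
    simp only [sub_sub_sub_cancel_right]
    exact h3 L M mu R hmu hI hR w hw z hz
  have hdiff : ∀ z, mu * z ∉ M.lattice →
      mu ^ 2 * (x₂ - x₁) * ∏ q ∈ R, (L.weierstrassP z - L.weierstrassP q) =
      ∏ q ∈ insert 0 R, ((L.weierstrassP z - c) - a q) -
        ∏ q ∈ insert 0 R, ((L.weierstrassP z - c) - b q) := by
    intro z hz
    rw [ha, hb]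
    simp only
    rw [← hpf w₁ hw1M z hz, ← hpf w₂ hw2M z hz, ← hx₁, ← hx₂]
    ring
  have hcard : (insert 0 R : Finset ℂ).card = R.card + 1 := Finset.card_insert_of_notMem h0
  have hbound : ∀ z, mu * z ∉ M.lattice → 1 < V.valuation (L.weierstrassP z - c) →
      V.valuation (mu ^ 2 * ∏ q ∈ R, (L.weierstrassP z - L.weierstrassP q)) ≤
        V.valuation (L.weierstrassP z - c) ^ R.card := by
    intro z hz hx
    have h4 := (prod_diff V (insert 0 R) a b (L.weierstrassP z - c) hav hbv hx).1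
    rw [← hdiff z hz, hcard, pow_succ (V.valuation (L.weierstrassP z - c)) R.card] at h4
    have h5 : V.valuation (mu ^ 2 * (x₂ - x₁) * ∏ q ∈ R, (L.weierstrassP z - L.weierstrassP q)) =
        V.valuation (mu ^ 2 * ∏ q ∈ R, (L.weierstrassP z - L.weierstrassP q)) := by
      simp only [map_mul, hunit, mul_one]
    rw [h5] at h4
    exact le_of_mul_le_mul_right h4 (zero_lt_one.trans hx)
  constructor
  · by_contra hcon
    rw [not_le] at hcon
    -- an element of large valuation
    have hbig : ∀ s : Finset ℂ, ∃ m : ℂ, 1 ≤ V.valuation m ∧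
        ∀ q ∈ s, V.valuation (L.weierstrassP q - c) ≤ V.valuation m := by
      intro s
      induction s using Finset.induction_on with
      | empty => exact ⟨1, by simp, by simp⟩
      | insert j s hj ih =>
        obtain ⟨m, hm1, hm2⟩ := ih
        rcases le_total (V.valuation (L.weierstrassP j - c)) (V.valuation m) with h4 | h4
        · refine ⟨m, hm1, fun q hq => ?_⟩
          rcases Finset.mem_insert.1 hq with rfl | hq
          · exact h4
          · exact hm2 q hq
        · refine ⟨L.weierstrassP j - c, hm1.trans h4, fun q hq => ?_⟩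
          rcases Finset.mem_insert.1 hq with rfl | hq
          · exact le_rfl
          · exact (hm2 q hq).trans h4
    obtain ⟨m, hm1', hm2'⟩ := hbig R
    obtain ⟨z, hzL, hz⟩ := b_SUR L (mu * m + c)
    have hx : L.weierstrassP z - c = mu * m := by rw [hz]; ring
    have hmpos : 0 < V.valuation m := zero_lt_one.trans_le hm1'
    have hxm : V.valuation m < V.valuation (L.weierstrassP z - c) := by
      rw [hx, map_mul]
      exact lt_mul_of_one_lt_left hmpos hcon
    have hx1 : 1 < V.valuation (L.weierstrassP z - c) := hm1'.trans_lt hxm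
    have hzM : mu * z ∉ M.lattice := by
      intro h4
      obtain ⟨q, hq, hq'⟩ := hR.surj z h4 hzL
      have h5 : L.weierstrassP z = L.weierstrassP q := by
        have h6 := L.weierstrassP_add_coe q ⟨z - q, hq'⟩
        have h7 : q + (z - q) = z := by ring
        simp only [h7] at h6
        exact h6
      have h8 := hm2' q hq
      rw [← h5] at h8
      exact absurd h8 (not_le.2 hxm)
    have h4 := hbound z hzM hx1
    have h5 : V.valuation (∏ q ∈ R, (L.weierstrassP z - L.weierstrassP q)) =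
        V.valuation (L.weierstrassP z - c) ^ R.card := by
      rw [map_prod, ← Finset.prod_const]
      refine Finset.prod_congr rfl fun q hq => ?_
      have e5 : L.weierstrassP z - L.weierstrassP q =
        (L.weierstrassP z - c) - (L.weierstrassP q - c) := by ring
      rw [e5]
      exact V.valuation.map_sub_eq_of_lt_left ((hm2' q hq).trans_lt hxm)
    rw [map_mul, h5, map_pow] at h4
    have h6 : V.valuation mu ^ 2 ≤ 1 := by
      refine le_of_mul_le_mul_right (a := V.valuation (L.weierstrassP z - c) ^ R.card) ?_ ?_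
      · rwa [one_mul]
      · exact pow_pos (zero_lt_one.trans hx1) _
    exact absurd h6 (not_le.2 (one_lt_pow₀ hcon two_ne_zero))
  · intro z hz
    by_cases hzL : z ∈ L.lattice
    · exact Or.inl (hI _ hzL)
    have hzV := hz.resolve_left hzL
    by_cases hzM : mu * z ∈ M.lattice
    · exact Or.inl hzM
    refine Or.inr ?_
    have hx1 : 1 < V.valuation (L.weierstrassP z - c) := by
      rw [← not_le, ValuationSubring.valuation_le_one_iff]
      exact hzV
    intro hcon
    have hcv : V.valuation (M.weierstrassP (mu * z) - c') ≤ 1 :=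
      (ValuationSubring.valuation_le_one_iff _ _).2 hcon
    have h4 := (prod_diff V (insert 0 R) a a (L.weierstrassP z - c) hav hav hx1).2
    have h5 := hpf w₁ hw1M z hzM
    have h6 := hbound z hzM hx1
    have h7 : ∏ q ∈ insert 0 R, ((L.weierstrassP z - c) - (L.weierstrassP (w₁ + q) - c)) =
      ∏ q ∈ insert 0 R, ((L.weierstrassP z - c) - a q) := rfl
    rw [h7] at h5
    rw [← h5, hcard, pow_succ (V.valuation (L.weierstrassP z - c)) R.card] at h4
    have h8 : mu ^ 2 * ((M.weierstrassP (mu * z) - c') - (M.weierstrassP (mu * w₁) - c')) *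
        ∏ q ∈ R, (L.weierstrassP z - L.weierstrassP q) =
        ((M.weierstrassP (mu * z) - c') - (M.weierstrassP (mu * w₁) - c')) *
        (mu ^ 2 * ∏ q ∈ R, (L.weierstrassP z - L.weierstrassP q)) := by ring
    rw [h8, map_mul] at h4
    have h9 : V.valuation ((M.weierstrassP (mu * z) - c') - (M.weierstrassP (mu * w₁) - c')) ≤ 1 :=
      v_sub_le hcv hx₁v
    have h10 : V.valuation (L.weierstrassP z - c) ^ R.card * V.valuation (L.weierstrassP z - c) ≤
        V.valuation (L.weierstrassP z - c) ^ R.card * 1 := by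
      rw [← h4, mul_one]
      exact (mul_le_of_le_one_left' h9).trans h6
    have h11 : V.valuation (L.weierstrassP z - c) ≤ 1 :=
      le_of_mul_le_mul_left h10 (pow_pos (zero_lt_one.trans hx1) _)
    exact absurd h11 (not_le.2 hx1)

end

end Pool.Agent.MUX2
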