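import Pool.Agent.MUX.StR2
import Pool.Agent.MU3.BAll

/-!
# MUX, block R2: module JEQ (the parameters of two different points of order two)
-/

set_option autoImplicit false

namespace Pool.Agent.MUX2

open _root_.MU3 Pool.Agent.MU3A Pool.Agent.MU3B Pool.Agent.MUX Pool.Agent.MUXU WeierstrassCurve

noncomputable section

theorem t2_JEQ (h1 : S2_PAR) : S2_JEQ := by
  intro L w w' hw h2w hw' h2w' hne hg
  obtain ⟨s0, s8, s64, k0, hx, hk⟩ := h1 L w hw h2w hg
  obtain ⟨s0', s8', s64', k0', hx', hk'⟩ := h1 L w' hw' h2w' hg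
  have hdiff : par L w ≠ par L w' := by
    intro he
    have e1 : L.weierstrassP w' = L.weierstrassP w := by
      have e2 : xn L w' = xn L w := by rw [hx, hx', he]
      unfold xn at e2
      exact sub_left_injective e2
    rcases b_NEQ L w w' hw hw' e1 with h | h
    · exact hne h
    · apply hne
      have e3 : w' - w = (w' + w) - 2 * w := by ring
      rw [e3]
      exact sub_mem h h2w
  generalize par L w = s at *
  generalize par L w' = s' at *
  have hcross : s * ((s' - 8) ^ 2 * (s' + 64)) = s' * ((s - 8) ^ 2 * (s + 64)) := by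
    have e : s / ((s - 8) ^ 2 * (s + 64)) = s' / ((s' - 8) ^ 2 * (s' + 64)) := by
      rw [← hk, ← hk']
    rwa [div_eq_div_iff (mul_ne_zero (pow_ne_zero _ s8) s64)
      (mul_ne_zero (pow_ne_zero _ s8') s64')] at e
  have hz : (s - s') * (4096 - s * s' * (s + s' + 48)) = 0 := by
    linear_combination hcross
  rcases mul_eq_zero.1 hz with h | h
  · exact absurd (sub_eq_zero.1 h) hdiff
  · exact (sub_eq_zero.1 h).symm

end

end Pool.Agent.MUX2
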