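import Pool.Agent.MUX.VG

/-!
# MUX, block R2: module MU2, multipliers of ideals prime to `P` are units at the places above 2 and `P`
-/

set_option autoImplicit false

namespace Pool.Agent.MUX2

open _root_.MU3 Pool.Agent.MU3A Pool.Agent.MU3B Pool.Agent.MUX Pool.Agent.MUXU WeierstrassCurve

namespace Mu2

variable {A B : ℤ}

theorem absD_pos (h : CQ A B) : 0 < absD A B := by
  have := h.neg
  unfold absD
  omega

theorem wC_sqq (h : CQ A B) : wC A B * wC A B = A + B * wC A B := by
  have h1 : (0 : ℝ) ≤ (absD A B : ℝ) := by exact_mod_cast (absD_pos h).le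
  have h2 : ((Real.sqrt (absD A B) : ℝ) : ℂ) ^ 2 = (absD A B : ℂ) := by
    rw [← Complex.ofReal_pow, Real.sq_sqrt h1]
    norm_num
  have h3 : Complex.I ^ 2 = -1 := Complex.I_sq
  have h4 : (absD A B : ℂ) = -((B : ℂ) ^ 2 + 4 * A) := by simp [absD]
  unfold wC
  linear_combination (Complex.I ^ 2 / 4) * h2 + ((absD A B : ℂ) / 4) * h3 - (1 / 4) * h4

/-- the embedding as a ring homomorphism -/
noncomputable def eHo (h : CQ A B) : OO A B →+* ℂ :=
  (QuadraticAlgebra.lift (R := ℤ) (a := A) (b := B) (A := ℂ)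
    ⟨wC A B, by simpa [zsmul_eq_mul] using wC_sqq h⟩).toRingHom

theorem eHo_apply (h : CQ A B) (x : OO A B) : eHo h x = emb x := by
  simp [eHo, emb, QuadraticAlgebra.lift, zsmul_eq_mul]

theorem em_mul (h : CQ A B) (x y : OO A B) : emb (x * y) = emb x * emb y := by
  simpa only [eHo_apply] using map_mul (eHo h) x y

theorem em_add (h : CQ A B) (x y : OO A B) : emb (x + y) = emb x + emb y := by
  simpa only [eHo_apply] using map_add (eHo h) x y

theorem em_zero (h : CQ A B) : emb (0 : OO A B) = 0 := by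
  simpa only [eHo_apply] using map_zero (eHo h)

theorem wC_im_pos (h : CQ A B) : 0 < (wC A B).im := by
  have h1 : (0 : ℝ) < Real.sqrt (absD A B) := Real.sqrt_pos.2 (by exact_mod_cast absD_pos h)
  have h2 : (wC A B).im = Real.sqrt (absD A B) / 2 := by
    simp [wC, Complex.add_im, Complex.mul_im]
  rw [h2]; positivity

theorem em_inj (h : CQ A B) {x y : OO A B} (hxy : emb x = emb y) : x = y := by
  have h1 := congrArg Complex.im hxy
  have h2 := congrArg Complex.re hxy
  simp only [emb, Complex.add_im, Complex.mul_im, Complex.intCast_im, Complex.intCast_re,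
    zero_mul, add_zero, zero_add, Complex.add_re, Complex.mul_re, sub_zero] at h1 h2
  have h3 : (x.im : ℝ) = y.im := mul_right_cancel₀ (wC_im_pos h).ne' h1
  rw [h3] at h2
  have h4 : (x.re : ℝ) = y.re := add_right_cancel h2
  exact QuadraticAlgebra.ext (by exact_mod_cast h4) (by exact_mod_cast h3)

theorem em_eq_zero (h : CQ A B) (x : OO A B) : emb x = 0 ↔ x = 0 :=
  ⟨fun h0 => em_inj h (h0.trans (em_zero h).symm), fun h0 => by rw [h0, em_zero h]⟩

theorem isDom (h : CQ A B) : IsDomain (OO A B) := by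
  have hi : Function.Injective (eHo h) := fun x y hxy =>
    em_inj h (by simpa only [eHo_apply] using hxy)
  exact hi.isDomain (eHo h)

/-- `a z ⊆ L` iff `x z ∈ om a^(h-1) c`, for `a^h = (x)` and the lattice `L = om c` -/
theorem isq_iff (hC : CQ A B) (a c : Ideal (OO A B)) (h : ℕ) (x : OO A B) (L : PeriodPair) (om : ℂ)
    (hh : 0 < h) (hx : x ≠ 0) (hax : a ^ h = sp x) (hL : IsLI c L om) (z : ℂ) :
    (∀ y ∈ a, emb y * z ∈ L.lattice) ↔ ∃ u ∈ a ^ (h - 1) * c, emb x * z = om * emb u := by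
  have hh1 : h - 1 + 1 = h := Nat.sub_add_cancel hh
  have hex : emb x ≠ 0 := fun h0 => hx ((em_eq_zero hC x).1 h0)
  constructor
  · intro hz
    have hxm : x ∈ a ^ (h - 1) * a := by
      rw [← pow_succ, hh1, hax]
      exact Ideal.mem_span_singleton_self x
    refine Submodule.mul_induction_on (C := fun r => ∃ u ∈ a ^ (h - 1) * c, emb r * z = om * emb u)
      hxm ?_ ?_
    · intro t ht y hy
      obtain ⟨s, hs, hs'⟩ := (hL.mem _).1 (hz y hy)
      refine ⟨t * s, Ideal.mul_mem_mul ht hs, ?_⟩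
      rw [em_mul hC, em_mul hC, mul_assoc, hs']
      ring
    · rintro r r' ⟨u, hu, hu'⟩ ⟨s, hs, hs'⟩
      refine ⟨u + s, add_mem hu hs, ?_⟩
      rw [em_add hC, em_add hC, add_mul, hu', hs']
      ring
  · rintro ⟨u, hu, hu'⟩ y hy
    have h1 : y * u ∈ sp x * c := by
      rw [← hax]
      have h2 : a ^ h * c = a * (a ^ (h - 1) * c) := by
        rw [← mul_assoc, ← pow_succ', hh1]
      rw [h2]
      exact Ideal.mul_mem_mul hy hu
    obtain ⟨s, hs, hs'⟩ := Ideal.mem_span_singleton_mul.1 h1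
    refine (hL.mem _).2 ⟨s, hs, ?_⟩
    have h3 : emb x * (emb y * z) = emb x * (om * emb s) := by
      have h4 : emb x * emb s = emb y * emb u := by rw [← em_mul hC, ← em_mul hC, hs']
      linear_combination (emb y) * hu' - om * h4
    exact mul_left_cancel₀ hex h3

end Mu2

open Mu2 in
theorem t2_MU2 (h1 : S2_GD2) (h2 : S2_GR2) (h3 : S2_IT2) : S2_MU2 := by
  intro A B hC h8 hLF P Q V hP hQ hPQ hV b b' a L M om om' mu hL hM ha hcop hq
  have hCQ : CQ A B := hC.toCQ
  have : IsDomain (OO A B) := isDom hCQ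
  have := hP.prime
  obtain ⟨h, x, hh, hx, hax⟩ := hLF.fin a ha
  have hh1 : h - 1 + 1 = h := Nat.sub_add_cancel hh
  have hex : emb x ≠ 0 := fun h0 => hx ((em_eq_zero hCQ x).1 h0)
  have hxP : x ∉ P := by
    intro h0
    have h4 : a ^ h ≤ P := by
      rw [hax]
      exact (Ideal.span_singleton_le_iff_mem _).2 h0
    have h5 : a ≤ P := Ideal.IsPrime.le_of_pow_le h4
    have h6 := Ideal.isCoprime_iff_sup_eq.1 hcop
    rw [sup_eq_right.2 h5] at h6
    exact hP.prime.ne_top h6
  have hvx : V.valuation (emb x) = 1 := hV.one x hxP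
  -- the lattice M belongs to the ideal a^(h-1) b
  have hmu := hq.1
  have hMI : IsNL (a ^ (h - 1) * b) M (mu * om / emb x) :=
    { b_ne := mul_ne_zero (pow_ne_zero _ ha) hL.b_ne
      om_ne := div_ne_zero (mul_ne_zero hmu hL.om_ne) hex
      mem := by
        intro z
        have h4 : z = mu * (z / mu) := by field_simp
        have h5 := hq.2 (z / mu)
        rw [← h4] at h5
        rw [h5, isq_iff hCQ a b h x L om hh hx hax hL.toIsLI]
        constructor
        · rintro ⟨u, hu, hu'⟩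
          refine ⟨u, hu, ?_⟩
          field_simp at hu' ⊢
          linear_combination hu'
        · rintro ⟨u, hu, hu'⟩
          refine ⟨u, hu, ?_⟩
          rw [hu']
          field_simp
      nrm := hM.nrm }
  -- the chain
  have hch : ∀ i : ℕ, ∃ p : PeriodPair × ℂ, IsNL (a ^ ((h - 1) * i) * b) p.1 p.2 ∧
      (i = 0 → p = (L, om)) ∧ (i = 1 → p = (M, mu * om / emb x)) := by
    intro i
    by_cases hi0 : i = 0
    · refine ⟨(L, om), ?_, fun _ => rfl, fun hi1 => absurd hi1 (by omega)⟩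
      rw [hi0, mul_zero, pow_zero, Ideal.one_eq_top, Ideal.top_mul]
      exact hL
    by_cases hi1 : i = 1
    · refine ⟨(M, mu * om / emb x), ?_, fun h0 => absurd h0 hi0, fun _ => rfl⟩
      rw [hi1, mul_one]
      exact hMI
    · obtain ⟨L', om', h'⟩ := hLF.ex (a ^ ((h - 1) * i) * b)
        (mul_ne_zero (pow_ne_zero _ ha) hL.b_ne)
      exact ⟨(L', om'), h', fun h0 => absurd h0 hi0, fun h0 => absurd h0 hi1⟩
  choose p hp hp0 hp1 using hch
  have hgr : ∀ i, ∃ (W : Affine ℂ) (ξ : ℂ →+ W.Point), GRG V W (p i).1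
      (fun z => (p i).1.weierstrassP z - 1 / 12) (y2 (p i).1) ξ := by
    intro i
    obtain ⟨g1, g2, -⟩ := h1 A B hC h8 hLF P Q V hP hQ hPQ hV _ _ _ (hp i)
    obtain ⟨ξ, hξ⟩ := h2 V (p i).1 (hp i).nrm g1 g2
    exact ⟨_, ξ, hξ⟩
  have hstep : ∀ i, V.valuation (p (i + 1)).2 ≤ V.valuation (p i).2 := by
    intro i
    have hmi : (p (i + 1)).2 * emb x / (p i).2 ≠ 0 :=
      div_ne_zero (mul_ne_zero (hp (i + 1)).om_ne hex) (hp i).om_ne
    have hI : Isg (p i).1 (p (i + 1)).1 ((p (i + 1)).2 * emb x / (p i).2) := by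
      intro w hw
      obtain ⟨c, hc, hc'⟩ := ((hp i).mem w).1 hw
      refine ((hp (i + 1)).mem _).2 ⟨x * c, ?_, ?_⟩
      · have h4 : a ^ ((h - 1) * (i + 1)) * b = a ^ (h - 1) * (a ^ ((h - 1) * i) * b) := by
          rw [← mul_assoc, ← pow_add]
          congr 2
          ring
        rw [h4]
        refine Ideal.mul_mem_mul ?_ hc
        have h5 : x ∈ a ^ h := by
          rw [hax]
          exact Ideal.mem_span_singleton_self x
        exact Ideal.pow_le_pow_right (by omega) h5
      · rw [hc', em_mul hCQ]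
        have := (hp i).om_ne
        field_simp
    have h4 := (h3 V (p i).1 (p (i + 1)).1 (1 / 12) (1 / 12) _ (y2 (p i).1) (y2 (p (i + 1)).1)
      (hgr i) (hgr (i + 1)) hmi hI).1
    rw [map_div₀, map_mul, hvx, mul_one] at h4
    have h5 : V.valuation (p i).2 ≠ 0 := (V.valuation.ne_zero_iff).2 (hp i).om_ne
    exact (div_le_one₀ (zero_lt_iff.2 h5)).1 h4
  have hanti : Antitone fun i => V.valuation (p i).2 := antitone_nat_of_succ_le hstep
  have hclose : V.valuation (p h).2 = V.valuation om := by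
    have h4 : sp (1 : OO A B) * (a ^ ((h - 1) * h) * b) = sp (x ^ (h - 1)) * b := by
      rw [mul_comm (h - 1) h, pow_mul, hax, Ideal.span_singleton_pow]
      show Ideal.span {1} * (Ideal.span {x ^ (h - 1)} * b) = Ideal.span {x ^ (h - 1)} * b
      rw [Ideal.span_singleton_one, Ideal.top_mul]
    have h5 := (hLF.eq _ _ _ _ _ _ 1 (x ^ (h - 1)) (hp h) hL one_ne_zero (pow_ne_zero _ hx) h4).2
    have h6 : V.valuation (emb (1 : OO A B)) = 1 :=
      hV.one 1 fun h0 => hP.prime.ne_top ((Ideal.eq_top_iff_one _).2 h0)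
    have h7 : V.valuation (emb (x ^ (h - 1))) = 1 :=
      hV.one _ fun h0 => hxP (hP.prime.mem_of_pow_mem _ h0)
    rcases h5 with h5 | h5
    · have h8 := congrArg V.valuation h5
      rw [map_mul, map_mul, h6, h7, mul_one, mul_one] at h8
      exact h8.symm
    · have h8 := congrArg V.valuation h5
      rw [Valuation.map_neg, map_mul, map_mul, h6, h7, mul_one, mul_one] at h8
      exact h8.symm
  have e0 : p 0 = (L, om) := hp0 0 rfl
  have e1 : p 1 = (M, mu * om / emb x) := hp1 1 rfl
  have h4 : V.valuation (p 1).2 = V.valuation om := by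
    refine le_antisymm ?_ ?_
    · have := hanti (Nat.zero_le 1)
      simpa only [e0] using this
    · rw [← hclose]
      exact hanti (show 1 ≤ h from hh)
  rw [e1, map_div₀, map_mul, hvx, div_one] at h4
  have h5 : V.valuation om ≠ 0 := (V.valuation.ne_zero_iff).2 hL.om_ne
  exact mul_right_cancel₀ h5 (by rw [h4, one_mul])

end Pool.Agent.MUX2
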