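import Pool.Agent.MUX.StR2
import Pool.Agent.MU3.BAll

/-!
# MUX, block R2, module NRM (helper83): normalised lattices and points of order two
-/

set_option autoImplicit false

namespace Pool.Agent.MUX2

open _root_.MU3 Pool.Agent.MU3A Pool.Agent.MU3B Pool.Agent.MUX Pool.Agent.MUXU WeierstrassCurve

noncomputable section

/-- `κ ≠ 0`, `g₂ = (1 + 1728 κ)/12`, `g₂ ≠ 0` for a normalised lattice -/
theorem nrm_kap (L : PeriodPair) (h : L.g₂ = -18 * L.g₃) :
    kap L ≠ 0 ∧ L.g₂ = (1 + 1728 * kap L) / 12 ∧ L.g₃ = -(1 + 1728 * kap L) / 216 ∧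
      L.g₂ ≠ 0 ∧ L.g₃ ≠ 0 := by
  have hd := (b_DSC L).1
  have hg : L.g₂ = (1 + 1728 * kap L) / 12 := by
    unfold kap
    ring
  have hg3 : L.g₃ = -(1 + 1728 * kap L) / 216 := by
    have : L.g₃ = -L.g₂ / 18 := by
      rw [h]
      ring
    rw [this, hg]
    ring
  have h3 : L.g₃ ≠ 0 := by
    intro h0
    apply hd
    rw [h, h0]
    ring
  have h2 : L.g₂ ≠ 0 := by
    rw [h]
    exact mul_ne_zero (by norm_num) h3
  refine ⟨?_, hg, hg3, h2, h3⟩
  intro h0
  apply hd
  rw [hg, hg3, h0]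
  norm_num

theorem t2_PAR : S2_PAR := by
  intro L w hw h2w hn
  obtain ⟨hk, hg2, hg3, -, -⟩ := nrm_kap L hn
  have hz : L.derivWeierstrassP w = 0 := (b_ZER L w hw).2 h2w
  have hsq := L.derivWeierstrassP_sq w hw
  rw [hz] at hsq
  have hcub : xn L w ^ 3 + xn L w ^ 2 / 4 - 36 * kap L * xn L w - kap L = 0 := by
    have he : L.weierstrassP w = xn L w + 1 / 12 := by
      unfold xn
      ring
    rw [he, hg2, hg3] at hsq
    linear_combination (-1 / 4) * hsq
  have hx : xn L w ≠ 0 := by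
    intro h0
    rw [h0] at hcub
    apply hk
    linear_combination -hcub
  have hs8 : par L w - 8 = 2 / xn L w := by
    unfold par
    ring
  have hs8' : par L w - 8 ≠ 0 := by
    rw [hs8]
    exact div_ne_zero two_ne_zero hx
  have hxs : xn L w = 2 / (par L w - 8) := by
    rw [hs8]
    field_simp
  have h36 : 36 * xn L w + 1 ≠ 0 := by
    intro h0
    have h1 : xn L w = -1 / 36 := by linear_combination (1 / 36) * h0
    rw [h1] at hcub
    have : (8 : ℂ) / 36 ^ 3 * 1 = 0 := by linear_combination hcub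
    norm_num at this
  have hs64 : par L w + 64 ≠ 0 := by
    intro h0
    apply h36
    rw [hxs]
    have : par L w = -64 := by linear_combination h0
    rw [this]
    norm_num
  have hkap : kap L = par L w / ((par L w - 8) ^ 2 * (par L w + 64)) := by
    rw [eq_div_iff (mul_ne_zero (pow_ne_zero 2 hs8') hs64)]
    rw [hxs] at hcub
    field_simp at hcub
    linear_combination (-1 / 4 : ℂ) * hcub
  refine ⟨?_, hs8', hs64, hk, hxs, hkap⟩
  intro h0
  apply hk
  rw [hkap, h0, zero_div]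

theorem t2_NRM (h1 : S2_VEL) : S2_NRM := by
  intro L M mu w hT hL hM
  obtain ⟨hs, hs8, hs64, hk, hx, hkap⟩ := t2_PAR L w hT.w_ne hT.w2 hL
  obtain ⟨-, hg2, -, hg2n, -⟩ := nrm_kap L hL
  obtain ⟨-, -, -, hM2, hM3⟩ := nrm_kap M hM
  obtain ⟨-, hv2, hv3, hv⟩ := h1 L M mu w hT
  have hmu := hT.mu_ne
  set s : ℂ := par L w with hsdef
  have he : L.weierstrassP w = (s + 16) / (12 * (s - 8)) := by
    have h0 : L.weierstrassP w = xn L w + 1 / 12 := by
      unfold xn
      ring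
    rw [h0, hx]
    field_simp
    ring
  have hg : L.g₂ = (s + 16) ^ 3 / (12 * (s - 8) ^ 2 * (s + 64)) := by
    rw [hg2, hkap]
    field_simp
    ring
  have hs16 : s + 16 ≠ 0 := by
    intro h0
    apply hg2n
    rw [hg, h0]
    simp
  have hA : mu ^ 4 * M.g₂ = (s + 16) ^ 2 * (s + 256) / (12 * (s - 8) ^ 2 * (s + 64)) := by
    rw [hv2, he, hg]
    field_simp
    ring
  have hB : mu ^ 6 * M.g₃ =
      -((s + 16) ^ 3 * (s - 512)) / (216 * (s - 8) ^ 3 * (s + 64)) := by
    rw [hv3, he, hg]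
    field_simp
    ring
  have hs256 : s + 256 ≠ 0 := by
    intro h0
    apply mul_ne_zero (pow_ne_zero 4 hmu) hM2
    rw [hA, h0]
    simp
  have hs512 : s - 512 ≠ 0 := by
    intro h0
    apply mul_ne_zero (pow_ne_zero 6 hmu) hM3
    rw [hB, h0]
    simp
  have hmu2 : mu ^ 2 = (s + 16) * (s - 512) / ((s - 8) * (s + 256)) := by
    have h5 : mu ^ 2 * (mu ^ 4 * M.g₂) = -18 * (mu ^ 6 * M.g₃) := by
      rw [hM]
      ring
    rw [hA, hB] at h5
    have h6 : (s + 16) ^ 2 * (s + 256) / (12 * (s - 8) ^ 2 * (s + 64)) ≠ 0 :=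
      div_ne_zero (mul_ne_zero (pow_ne_zero 2 hs16) hs256)
        (mul_ne_zero (mul_ne_zero (by norm_num) (pow_ne_zero 2 hs8)) hs64)
    apply mul_right_cancel₀ h6
    rw [h5]
    field_simp
    ring
  have hM2' : M.g₂ = (s + 256) ^ 3 / (12 * (s - 512) ^ 2 * (s + 64)) := by
    have h7 : (mu ^ 2) ^ 2 * M.g₂ = mu ^ 4 * M.g₂ := by ring
    rw [hA, hmu2] at h7
    have h8 : ((s + 16) * (s - 512) / ((s - 8) * (s + 256))) ^ 2 ≠ 0 :=
      pow_ne_zero 2 (div_ne_zero (mul_ne_zero hs16 hs512) (mul_ne_zero hs8 hs256))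
    apply mul_left_cancel₀ h8
    rw [h7]
    field_simp
  refine ⟨hs, hs8, hs64, hs16, hs256, hs512, hk, hx, hkap, ?_, hmu2, fun z hz => ?_⟩
  · unfold kap
    rw [hM2']
    field_simp
    ring
  · obtain ⟨hne, -, hp, -⟩ := hv z hz
    have h9 : xn L z - xn L w = L.weierstrassP z - L.weierstrassP w := by
      unfold xn
      ring
    have ht : 3 * L.weierstrassP w ^ 2 - L.g₂ / 4 = (s + 16) ^ 2 / ((s - 8) ^ 2 * (s + 64)) := by
      rw [he, hg]
      field_simp
      ring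
    refine ⟨by rw [h9]; exact hne, ?_⟩
    rw [h9, ← ht]
    have h10 : mu ^ 2 * xn M (mu * z) = mu ^ 2 * M.weierstrassP (mu * z) - mu ^ 2 / 12 := by
      unfold xn
      ring
    rw [h10, hp]
    unfold xn
    ring

end

end Pool.Agent.MUX2
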