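import Pool.Agent.MUX.StR2
import Pool.Agent.MU3.BAll

/-!
# MUX, block R2, module VEL: the quotient by a point of order two (helper85)
-/

set_option autoImplicit false

namespace Pool.Agent.MUX2

open _root_.MU3 Pool.Agent.MU3A Pool.Agent.MU3B Pool.Agent.MUX Pool.Agent.MUXU WeierstrassCurve
open Polynomial

namespace VEL

/-- a polynomial of degree at most six without constant term which vanishes on `ℂ` -/
theorem coefs {c1 c2 c3 c4 c5 c6 : ℂ}
    (h : ∀ s : ℂ, c1 * s + c2 * s ^ 2 + c3 * s ^ 3 + c4 * s ^ 4 + c5 * s ^ 5 + c6 * s ^ 6 = 0) :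
    c1 = 0 ∧ c2 = 0 ∧ c3 = 0 ∧ c4 = 0 := by
  have a1 := h 1
  have a2 := h (-1)
  have b1 := h 2
  have b2 := h (-2)
  have d1 := h 3
  have d2 := h (-3)
  have o1 : c1 + c3 + c5 = 0 := by linear_combination (a1 - a2) / 2
  have o2 : c1 + 4 * c3 + 16 * c5 = 0 := by linear_combination (b1 - b2) / 4
  have o3 : c1 + 9 * c3 + 81 * c5 = 0 := by linear_combination (d1 - d2) / 6
  have e1 : c2 + c4 + c6 = 0 := by linear_combination (a1 + a2) / 2
  have e2 : c2 + 4 * c4 + 16 * c6 = 0 := by linear_combination (b1 + b2) / 8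
  have e3 : c2 + 9 * c4 + 81 * c6 = 0 := by linear_combination (d1 + d2) / 18
  refine ⟨?_, ?_, ?_, ?_⟩
  · linear_combination 3 / 2 * o1 - 3 / 5 * o2 + 1 / 10 * o3
  · linear_combination 3 / 2 * e1 - 3 / 5 * e2 + 1 / 10 * e3
  · linear_combination -13 / 24 * o1 + 2 / 3 * o2 - 1 / 8 * o3
  · linear_combination -13 / 24 * e1 + 2 / 3 * e2 - 1 / 8 * e3

/-- the algebra: the differential equation determines the numerator and the invariants -/
theorem alg {g2 g3 G2 G3 mu e : ℂ} (hmu : mu ≠ 0) (he : 4 * e ^ 3 - g2 * e - g3 = 0)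
    {A : ℂ[X]} (hA : A.Monic) (hd : A.natDegree = 2)
    (hode : OdeP g2 g3 G2 G3 mu A (C (mu ^ 2) * (X - C e)))
    (hc : IsCoprime A (C (mu ^ 2) * (X - C e))) :
    3 * e ^ 2 - g2 / 4 ≠ 0 ∧ mu ^ 4 * G2 = 60 * e ^ 2 - 4 * g2 ∧
      mu ^ 6 * G3 = 88 * e ^ 3 - 8 * e * g2 ∧
      (∀ x : ℂ, A.eval x = (x - e) * x + (3 * e ^ 2 - g2 / 4)) ∧
      ∀ x : ℂ, (derivative A * (C (mu ^ 2) * (X - C e)) - A * derivative (C (mu ^ 2) * (X - C e))).eval x =
        mu ^ 2 * ((x - e) ^ 2 - (3 * e ^ 2 - g2 / 4)) := by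
  obtain ⟨a, b, hab⟩ : ∃ a b : ℂ, A = X ^ 2 + C a * X + C b := by
    refine ⟨A.coeff 1, A.coeff 0, ?_⟩
    have h1 : A.natDegree ≤ 2 := hd.le
    have h2 := Polynomial.eq_quadratic_of_degree_le_two (Polynomial.degree_le_of_natDegree_le h1)
    have h3 : A.coeff 2 = 1 := by
      rw [← hd]
      exact hA
    rw [h3] at h2
    simpa using h2
  set A0 : ℂ := e ^ 2 + a * e + b with hA0
  set A1 : ℂ := 2 * e + a with hA1
  set t : ℂ := 3 * e ^ 2 - g2 / 4 with ht
  have hAe : ∀ s : ℂ, A.eval (e + s) = s ^ 2 + A1 * s + A0 := by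
    intro s
    rw [hab, hA1, hA0]
    simp only [eval_add, eval_mul, eval_pow, eval_X, eval_C]
    ring
  have hdA : derivative A = C 2 * X + C a := by
    rw [hab]
    simp only [derivative_add, derivative_mul, derivative_X_pow, derivative_C, derivative_X]
    simp
  have hdB : derivative (C (mu ^ 2) * (X - C e)) = C (mu ^ 2) := by
    simp only [derivative_mul, derivative_sub, derivative_C, derivative_X]
    simp
  have hW : ∀ s : ℂ, (derivative A * (C (mu ^ 2) * (X - C e)) -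
      A * derivative (C (mu ^ 2) * (X - C e))).eval (e + s) = mu ^ 2 * (s ^ 2 - A0) := by
    intro s
    rw [hdB, hdA, eval_sub, eval_mul (p := A), hAe]
    simp only [eval_add, eval_mul, eval_sub, eval_X, eval_C]
    rw [hA1, hA0]
    ring
  have hA0n : A0 ≠ 0 := by
    intro h0
    obtain ⟨u, v, huv⟩ := hc
    have h1 := congrArg (Polynomial.eval e) huv
    have h2 : A.eval e = 0 := by
      have := hAe 0
      rw [add_zero] at this
      rw [this, h0]
      ring
    rw [eval_add, eval_mul, eval_mul, h2, eval_mul, eval_sub, eval_X, eval_C, eval_C] at h1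
    simp at h1
  have hfun : ∀ s : ℂ, (4 * A0 ^ 2 * t - 4 * A0 ^ 3) * s + (12 * e * A0 ^ 2 - 12 * A1 * A0 ^ 2) * s ^ 2 +
      (4 * A0 ^ 2 - 8 * A0 * t - 12 * A0 ^ 2 - 12 * A0 * A1 ^ 2 + mu ^ 4 * G2 * A0) * s ^ 3 +
      (-24 * A0 * e - 4 * (A1 ^ 3 + 6 * A0 * A1) + mu ^ 4 * G2 * A1 + mu ^ 6 * G3) * s ^ 4 +
      (4 * t - 8 * A0 - 4 * (3 * A1 ^ 2 + 3 * A0) + mu ^ 4 * G2) * s ^ 5 +
      (12 * e - 12 * A1) * s ^ 6 = 0 := by
    intro s
    have h1 := congrArg (Polynomial.eval (e + s)) hode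
    rw [eval_mul, eval_pow, hW] at h1
    simp only [eval_mul, eval_sub, eval_pow, eval_X, eval_C, eval_ofNat, hAe] at h1
    have hm4 : mu ^ 4 ≠ 0 := pow_ne_zero _ hmu
    apply mul_left_cancel₀ hm4
    rw [mul_zero]
    linear_combination h1 - mu ^ 4 * (s ^ 2 - A0) ^ 2 * he
  obtain ⟨k1, k2, k3, k4⟩ := coefs hfun
  have r1 : A0 = t := by
    have : 4 * A0 ^ 2 * (t - A0) = 0 := by linear_combination k1
    rcases mul_eq_zero.mp this with h | h
    · exact absurd h (mul_ne_zero (by norm_num) (pow_ne_zero _ hA0n))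
    · exact (sub_eq_zero.mp h).symm
  have r2 : A1 = e := by
    have : 12 * A0 ^ 2 * (e - A1) = 0 := by linear_combination k2
    rcases mul_eq_zero.mp this with h | h
    · exact absurd h (mul_ne_zero (by norm_num) (pow_ne_zero _ hA0n))
    · exact (sub_eq_zero.mp h).symm
  have r3 : mu ^ 4 * G2 = 60 * e ^ 2 - 4 * g2 := by
    have : A0 * (mu ^ 4 * G2 - (8 * A0 + 8 * t + 12 * A1 ^ 2)) = 0 := by linear_combination k3
    rcases mul_eq_zero.mp this with h | h
    · exact absurd h hA0n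
    · rw [r1, r2, ht] at h
      linear_combination h
  have r4 : mu ^ 6 * G3 = 88 * e ^ 3 - 8 * e * g2 := by
    rw [r3, r1, r2, ht] at k4
    linear_combination k4
  refine ⟨by rw [← r1]; exact hA0n, r3, r4, fun x => ?_, fun x => ?_⟩
  · have := hAe (x - e)
    rw [add_sub_cancel, r1, r2] at this
    rw [this]
    ring
  · have := hW (x - e)
    rw [add_sub_cancel, r1] at this
    exact this

end VEL

theorem t2_VEL (h1 : Su_ISO) (h2 : Su_DER) : S2_VEL := by
  intro L M mu w hT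
  have hper := hT.ker
  have hIsg : Isg L M mu := fun v hv => (hper v).mpr (Or.inl hv)
  have hRp : IsRpM L M mu {w} := by
    constructor
    · intro q hq
      rw [Finset.mem_singleton] at hq
      rw [hq]
      refine (hper w).mpr (Or.inr ?_)
      rw [sub_self]
      exact zero_mem _
    · intro q hq
      rw [Finset.mem_singleton] at hq
      rw [hq]
      exact hT.w_ne
    · intro q hq q' hq' _
      rw [Finset.mem_singleton] at hq hq'
      rw [hq, hq']
    · intro z hz hzL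
      rcases (hper z).mp hz with h | h
      · exact absurd h hzL
      · exact ⟨w, Finset.mem_singleton_self w, h⟩
  obtain ⟨A, hA, hd, hode, hiso⟩ := h1 L M mu {w} hT.mu_ne hIsg hRp
  rw [Finset.prod_singleton] at hode hiso
  rw [Finset.card_singleton] at hd
  have hw0 : L.derivWeierstrassP w = 0 := (b_ZER L w hT.w_ne).mpr hT.w2
  set e : ℂ := L.weierstrassP w with he
  have hcub : 4 * e ^ 3 - L.g₂ * e - L.g₃ = 0 := by
    have := PeriodPair.derivWeierstrassP_sq L w hT.w_ne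
    rw [hw0] at this
    rw [he, ← this]
    ring
  obtain ⟨c1, c2, c3, c4, c5⟩ := VEL.alg hT.mu_ne hcub hA hd hode hiso.cop
  refine ⟨c1, c2, c3, fun z hz => ?_⟩
  have hzL : z ∉ L.lattice := fun h => hz ((hper z).mpr (Or.inl h))
  have hzw : z - w ∉ L.lattice := fun h => hz ((hper z).mpr (Or.inr h))
  have hzw' : z + w ∉ L.lattice := by
    intro h
    apply hzw
    have : z - w = (z + w) - 2 * w := by ring
    rw [this]
    exact sub_mem h hT.w2
  have hne : L.weierstrassP z - e ≠ 0 := by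
    intro h
    rcases b_NEQ L w z hT.w_ne hzL (sub_eq_zero.mp h) with h' | h'
    · exact hzw h'
    · exact hzw' h'
  set x : ℂ := L.weierstrassP z with hx
  have hsq : L.derivWeierstrassP z ^ 2 = 4 * x ^ 3 - L.g₂ * x - L.g₃ :=
    PeriodPair.derivWeierstrassP_sq L z hzL
  refine ⟨hne, ?_, ?_, ?_⟩
  · have hadd := (b_ADD L w z hT.w_ne hzL hzw' hzw).1
    rw [hw0, sub_zero, div_pow, hsq, ← hx, ← he] at hadd
    have hfac : (4 * x ^ 3 - L.g₂ * x - L.g₃) / (2 * (x - e)) ^ 2 =
        (x ^ 2 + x * e + e ^ 2 - L.g₂ / 4) / (x - e) := by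
      rw [div_eq_div_iff (pow_ne_zero _ (mul_ne_zero two_ne_zero hne)) hne]
      linear_combination (x - e) * hcub
    rw [hfac] at hadd
    have : L.weierstrassP (z + w) = (x ^ 2 + x * e + e ^ 2 - L.g₂ / 4) / (x - e) - x - e := by
      linear_combination hadd
    rw [this]
    field_simp
    ring
  · have hP := hiso.P z hzL hz
    rw [c4 x] at hP
    rw [eval_mul, eval_sub, eval_C, eval_X, eval_C, ← hx] at hP
    have h5 : mu ^ 2 * M.weierstrassP (mu * z) = ((x - e) * x + (3 * e ^ 2 - L.g₂ / 4)) / (x - e) := by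
      rw [eq_div_iff hne]
      linear_combination hP
    rw [h5, add_div, mul_div_cancel_left₀ _ hne]
  · have hD := h2 L M mu A _ hiso z hzL hz
    rw [c5 x] at hD
    rw [eval_mul, eval_sub, eval_C, eval_X, eval_C, ← hx] at hD
    have hm2 : mu ^ 2 ≠ 0 := pow_ne_zero _ hT.mu_ne
    have h3 : mu ^ 3 * M.derivWeierstrassP (mu * z) * (x - e) ^ 2 =
        ((x - e) ^ 2 - (3 * e ^ 2 - L.g₂ / 4)) * L.derivWeierstrassP z := by
      apply mul_left_cancel₀ hm2
      linear_combination hD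
    have h4 : mu ^ 3 * M.derivWeierstrassP (mu * z) =
        ((x - e) ^ 2 - (3 * e ^ 2 - L.g₂ / 4)) * L.derivWeierstrassP z / (x - e) ^ 2 := by
      rw [eq_div_iff (pow_ne_zero _ hne)]
      exact h3
    rw [h4]
    field_simp

end Pool.Agent.MUX2
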