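import Pool.Agent.MUX.UAll
import Pool.Agent.MUX.R2_CH2
import Pool.Agent.MUX.R2_CHN
import Pool.Agent.MUX.R2_CIN
import Pool.Agent.MUX.R2_DUA
import Pool.Agent.MUX.R2_E12
import Pool.Agent.MUX.R2_GD2
import Pool.Agent.MUX.R2_GR2
import Pool.Agent.MUX.R2_IN2
import Pool.Agent.MUX.R2_IT2
import Pool.Agent.MUX.R2_JEQ
import Pool.Agent.MUX.R2_MU2
import Pool.Agent.MUX.R2_NRM
import Pool.Agent.MUX.R2_VEL

/-!
# MUX, block R2 (places above 2): all statements, without hypotheses (helper77)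
-/

set_option autoImplicit false

namespace Pool.Agent.MUX2

open Pool.Agent.MUXU

theorem r2_PAR : S2_PAR := t2_PAR
theorem r2_VEL : S2_VEL := t2_VEL u_ISO u_DER
theorem r2_NRM : S2_NRM := t2_NRM r2_VEL
theorem r2_DUA : S2_DUA := t2_DUA r2_NRM
theorem r2_JEQ : S2_JEQ := t2_JEQ r2_PAR
theorem r2_CHN : S2_CHN := t2_CHN
theorem r2_CIN : S2_CIN := t2_CIN
theorem r2_CH2 : S2_CH2 := t2_CH2 r2_NRM r2_DUA r2_JEQ
theorem r2_GD2 : S2_GD2 := t2_GD2 r2_CHN r2_CH2 r2_NRM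
theorem r2_IN2 : S2_IN2 := t2_IN2 r2_CH2 r2_GD2 r2_CIN u_DET
theorem r2_GR2 : S2_GR2 := t2_GR2
theorem r2_IT2 : S2_IT2 := t2_IT2 u_BAC u_ISO u_PFI
theorem r2_E12 : S2_E12 := t2_E12 r2_NRM r2_GD2 r2_GR2 r2_IT2 r2_CH2
theorem r2_MU2 : S2_MU2 := t2_MU2 r2_GD2 r2_GR2 r2_IT2

end Pool.Agent.MUX2
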