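import Pool.Agent.MUX.StXC
import Pool.Agent.MU3.A_SCP

/-!
# MUX, block XC, module CJN: conjugates of normalised lattices
-/

set_option autoImplicit false

open Polynomial NumberField IsDedekindDomain

namespace Pool.Agent.MUXC

open _root_.MU3 Pool.Agent.MU3A Pool.Agent.MU3B Pool.Agent.MUX Pool.Agent.MUXU Pool.Agent.RI
open Pool.Agent.MUXE (NL Sxe_RNG)

noncomputable section

namespace CJN

lemma emb_fix {A B : ℤ} {σ : ℂ ≃+* ℂ} (hσ : FixK A B σ) (x : OO A B) : σ (emb x) = emb x := by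
  have h : σ (wC A B) = wC A B := hσ
  unfold emb
  rw [map_add, map_mul, map_intCast, map_intCast, h]

lemma sig_kap (σ : ℂ ≃+* ℂ) (L : PeriodPair) : σ (kap L) = (12 * σ L.g₂ - 1) / 1728 := by
  unfold kap
  rw [map_div₀, map_sub, map_mul, map_one, map_ofNat, map_ofNat]

lemma g2_of_kap {σ : ℂ ≃+* ℂ} {L L' : PeriodPair} (h : kap L' = σ (kap L)) :
    L'.g₂ = σ L.g₂ := by
  rw [sig_kap] at h
  unfold kap at h
  linear_combination (1728 / 12) * h

lemma nrm_map {σ : ℂ ≃+* ℂ} {L : PeriodPair} (h : L.g₂ = -18 * L.g₃) :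
    σ L.g₂ = -18 * σ L.g₃ := by
  rw [h, map_mul, map_neg, map_ofNat]

lemma isCj {σ : ℂ ≃+* ℂ} {L L' : PeriodPair} (h : L.g₂ = -18 * L.g₃) (h' : L'.g₂ = -18 * L'.g₃)
    (hk : kap L' = σ (kap L)) : IsCj σ L L' := by
  have e1 := g2_of_kap hk
  have e2 : σ L.g₂ = -18 * σ L.g₃ := nrm_map h
  refine ⟨e1, ?_⟩
  linear_combination (-1 / 18) * e1 + (1 / 18) * h' - (1 / 18) * e2

end CJN

open CJN in
theorem tc_CJN (h1 : Su_CJE) (h2 : Su_PHI) (h3 : Su_CMC) (h4 : Su_DET) (h5 : Sc_ISL) :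
    Sc_CJN := by
  intro A B hQ
  refine ⟨?_, ?_, ?_⟩
  · intro σ hσ b L om hL
    refine ⟨emb_fix hσ, ?_⟩
    obtain ⟨L', hc⟩ := h1 σ L
    obtain ⟨Φ, hΦ⟩ := h2 σ L L' hc
    have hcm : HasCM A B L := hL.toIsLI.hasCM hQ
    have hcm' : HasCM A B L' := by
      intro x
      exact (h3 σ L L' Φ (emb x) (fun w hw => hcm x w hw) (emb_fix hσ x) hc hΦ).1
    obtain ⟨b', om', hL'⟩ := h5 A B hQ L' hcm'
    refine ⟨b', L', om', ⟨hL', ?_⟩, hc, ?_⟩
    · rw [hc.1, hc.2]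
      exact nrm_map hL.nrm
    · rw [sig_kap, ← hc.1]
      rfl
  · intro σ L L' h h' hk
    exact isCj h h' hk
  · intro L L' h h' hk
    have hc : IsCj (RingEquiv.refl ℂ) L L' := isCj h h' hk.symm
    have e := h4 L L' hc.1.symm hc.2.symm
    have e1 : ∀ z, z ∈ L.lattice ↔ z ∈ L'.lattice := fun z => by rw [e]
    obtain ⟨p1, p2, -, -⟩ := ta_SCP L L' 1 one_ne_zero (fun u => by rw [one_mul]; exact e1 u)
    refine ⟨e1, fun z => ?_⟩
    have q1 := p1 z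
    have q2 := p2 z
    rw [one_mul, one_pow, div_one] at q1 q2
    unfold xn yy
    rw [q1, q2]
    exact ⟨rfl, rfl⟩

end

end Pool.Agent.MUXC
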