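import Pool.Agent.MUX.StXC

/-!
# MUX, block XC: module CMM, the field `comm` of `TorX`
-/

set_option autoImplicit false

open Polynomial NumberField IsDedekindDomain

namespace Pool.Agent.MUXC

open _root_.MU3 Pool.Agent.MU3A Pool.Agent.MU3B Pool.Agent.MUX Pool.Agent.MUXU Pool.Agent.RI

noncomputable section

namespace CMM

variable {A B : ℤ}

theorem fin (h : CQ A B) : FiniteDimensional ℚ (kk A B) := by
  have h1 : IsIntegral ℚ (wC A B) := by
    refine ⟨X ^ 2 - C (B : ℚ) * X - C (A : ℚ), ?_, ?_⟩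
    · monicity!
    · simp only [eval₂_sub, eval₂_mul, eval₂_pow, eval₂_X, eval₂_C]
      rw [pow_two, Pool.Agent.MUX.wC_sq h]
      simp
  exact IntermediateField.adjoin.finiteDimensional h1

/-- automorphisms of `F / k` extend to `ℂ` -/
theorem ext (hAUE : Su_AUE) (h : CQ A B) (F : IntermediateField (kk A B) ℂ)
    [FiniteDimensional (kk A B) F] (σ : F ≃ₐ[kk A B] F) :
    ∃ s : ℂ ≃+* ℂ, FixK A B s ∧ ∀ x : F, s (x : ℂ) = ((σ x : F) : ℂ) := by
  have h2 : FiniteDimensional ℚ (kk A B) := fin h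
  have h3 : FiniteDimensional ℚ F := FiniteDimensional.trans ℚ (kk A B) F
  have h4 : FiniteDimensional ℚ (F.restrictScalars ℚ) := h3
  have hF : Algebra.IsAlgebraic ℚ (F.restrictScalars ℚ) := Algebra.IsAlgebraic.of_finite ℚ _
  obtain ⟨s, hs⟩ := hAUE (F.restrictScalars ℚ) hF
    { toFun := fun x => ((σ ⟨x.1, x.2⟩ : F) : ℂ)
      map_one' := by
        change ((σ (1 : F) : F) : ℂ) = 1
        rw [map_one]; rfl
      map_mul' := fun x y => by
        change ((σ ((⟨x.1, x.2⟩ : F) * ⟨y.1, y.2⟩) : F) : ℂ) = _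
        rw [map_mul]; rfl
      map_zero' := by
        change ((σ (0 : F) : F) : ℂ) = 0
        rw [map_zero]; rfl
      map_add' := fun x y => by
        change ((σ ((⟨x.1, x.2⟩ : F) + ⟨y.1, y.2⟩) : F) : ℂ) = _
        rw [map_add]; rfl }
  have hs' : ∀ x : F, s (x : ℂ) = ((σ x : F) : ℂ) := fun x => hs ⟨x.1, x.2⟩
  refine ⟨s, ?_, hs'⟩
  have hw : wC A B ∈ kk A B := IntermediateField.mem_adjoin_simple_self ℚ (wC A B)
  have h5 := hs' (algebraMap (kk A B) F ⟨wC A B, hw⟩)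
  rw [AlgEquiv.commutes] at h5
  exact h5

end CMM

open CMM in
theorem tc_CMM (h1 : Sc_FGL) (h2 : Sc_ACT) (h3 : Sc_CMP) (h4 : Sc_SGQ) (h5 : Su_AUE) :
    Sc_CMM := by
  intro A B hC m hm σ τ
  have : FiniteDimensional (kk A B) (RF m) := (h1 A B hC m hm).1
  obtain ⟨s, hs, hsσ⟩ := ext h5 hC (RF m) σ
  obtain ⟨t, ht, htτ⟩ := ext h5 hC (RF m) τ
  obtain ⟨a, -, ha⟩ := h2 A B hC m hm s hs
  obtain ⟨b, -, hb⟩ := h2 A B hC m hm t ht
  -- the two orders agree on the generators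
  have key : ∀ x ∈ genS (A := A) (B := B) m, s (t x) = t (s x) := by
    rintro x ⟨c, L, om, hL, hx⟩
    obtain ⟨c1, L1, om1, n1, hL1, k1⟩ := hb c L om hL
    obtain ⟨c2, L2, om2, n2, hL2, k2⟩ := ha c1 L1 om1 hL1
    obtain ⟨c3, L3, om3, n3, hL3, k3⟩ := ha c L om hL
    obtain ⟨c4, L4, om4, n4, hL4, k4⟩ := hb c3 L3 om3 hL3
    have e1 := h3 A B hC m b a t s L L1 L2 n1 n2 k1 k2
    have e2 := h3 A B hC m a b s t L L3 L4 n3 n4 k3 k4
    rw [mul_comm a b] at e2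
    obtain ⟨-, -, q1, q2⟩ := h4 A B (b * a) L L2 L4 _ _ e1.isq e2.isq hL2.nrm hL4.nrm
    rcases hx with rfl | ⟨z, hz, hzL, rfl⟩
    · have f1 := e1.kap
      have f2 := e2.kap
      rw [RingEquiv.trans_apply] at f1 f2
      rw [← f1, ← f2, q1]
    · rcases e1.act z hz with f1 | f1
      · exact absurd f1.1 hzL
      rcases e2.act z hz with f2 | f2
      · exact absurd f2.1 hzL
      have g1 := f1.2.2.1
      have g2 := f2.2.2.1
      rw [RingEquiv.trans_apply] at g1 g2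
      rw [g1, g2, q2]
  have hH : ((σ * τ : RF m ≃ₐ[kk A B] RF m) : RF m →ₐ[kk A B] RF m) =
      ((τ * σ : RF m ≃ₐ[kk A B] RF m) : RF m →ₐ[kk A B] RF m) := by
    refine IntermediateField.algHom_ext_of_eq_adjoin (kk A B) (S := RF m)
      (s := genS (A := A) (B := B) m) rfl ?_
    intro x hx
    apply Subtype.ext
    have hx' : x ∈ (RF m : IntermediateField (kk A B) ℂ) := IntermediateField.subset_adjoin _ _ hx
    change ((σ (τ ⟨x, hx'⟩) : RF m) : ℂ) = ((τ (σ ⟨x, hx'⟩) : RF m) : ℂ)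
    rw [← hsσ, ← htτ, ← htτ, ← hsσ]
    exact key x hx
  ext1 x
  exact congrArg (fun φ : RF m →ₐ[kk A B] RF m => φ x) hH

end

end Pool.Agent.MUXC
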