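import Pool.Agent.MUX.StU

/-!
# MUX, block U, module AUE: embeddings of algebraic fields extend to automorphisms of `ℂ`
-/

set_option autoImplicit false

open Cardinal

namespace Pool.Agent.MUXU

theorem AUE_ext {F K L ι κ : Type} [Field F] [Field K] [Field L] [Algebra F K] [Algebra F L]
    [IsAlgClosed K] [IsAlgClosed L] (v : ι → K) (w : κ → L) (e : ι ≃ κ)
    (hv : IsTranscendenceBasis F v) (hw : IsTranscendenceBasis F w) :
    ∃ σ : K ≃+* L, ∀ x : F, σ (algebraMap F K x) = algebraMap F L x := by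
  let := IsAlgClosed.isAlgClosure_of_transcendence_basis v hv
  let := IsAlgClosed.isAlgClosure_of_transcendence_basis w hw
  let e' : Algebra.adjoin F (Set.range v) ≃ₐ[F] Algebra.adjoin F (Set.range w) :=
    hv.1.aevalEquiv.symm.trans ((MvPolynomial.renameEquiv F e).trans hw.1.aevalEquiv)
  refine ⟨IsAlgClosure.equivOfEquiv K L e'.toRingEquiv, fun x => ?_⟩
  rw [IsScalarTower.algebraMap_apply F (Algebra.adjoin F (Set.range v)) K x,
    IsAlgClosure.equivOfEquiv_algebraMap,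
    IsScalarTower.algebraMap_apply F (Algebra.adjoin F (Set.range w)) L x]
  congr 1
  exact e'.commutes x

theorem tu_AUE : Su_AUE := by
  intro F hF τ
  have hFc : #F ≤ ℵ₀ := by
    have h := Algebra.IsAlgebraic.cardinalMk_le_max ℚ F
    simpa using h
  have hC : ℵ₀ < #ℂ := by
    rw [Cardinal.mk_complex]
    exact Cardinal.aleph0_lt_continuum
  have hfs : FaithfulSMul F ℂ :=
    (faithfulSMul_iff_algebraMap_injective F ℂ).mpr (algebraMap F ℂ).injective
  obtain ⟨s, hs⟩ := exists_isTranscendenceBasis F ℂ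
  have hs1 : #ℂ = #s := by
    have h := IsAlgClosed.cardinal_eq_cardinal_transcendence_basis_of_aleph0_lt _ hs hFc hC
    simpa using h
  obtain ⟨t, ht, ht1⟩ : ∃ t : Set ℂ, @IsTranscendenceBasis t F ℂ _ _ τ.toAlgebra ((↑) : t → ℂ) ∧
      #ℂ = #t := by
    let := τ.toAlgebra
    have hfs2 : @FaithfulSMul F ℂ τ.toAlgebra.toSMul :=
      (faithfulSMul_iff_algebraMap_injective F ℂ).mpr τ.injective
    obtain ⟨t, ht⟩ := @exists_isTranscendenceBasis F ℂ _ _ τ.toAlgebra hfs2
    refine ⟨t, ht, ?_⟩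
    have h := @IsAlgClosed.cardinal_eq_cardinal_transcendence_basis_of_aleph0_lt F ℂ _ _
      τ.toAlgebra _ _ _ _ ht hFc hC
    simpa using h
  obtain ⟨e⟩ := Cardinal.eq.mp (hs1.symm.trans ht1)
  obtain ⟨σ, hσ⟩ := @AUE_ext F ℂ ℂ s t _ _ _ _ τ.toAlgebra _ _ _ _ e hs ht
  exact ⟨σ, hσ⟩

end Pool.Agent.MUXU
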