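import Pool.Agent.MUX.StKX

/-!
# MUX, TNX: `T ^ (p ^ j) = γ ^ (p ^ j) - 1` modulo `p`-th powers
-/

namespace Pool.Agent.MUXK.K_TNX

open Pool.Agent.MU3

variable {k L : Type} [Field k] [Field L] [Algebra k L]

theorem Tg_mul (γ : L ≃ₐ[k] L) (x y : L) : Tg γ (x * y) = Tg γ x * Tg γ y := by
  unfold Tg
  rw [map_mul, mul_div_mul_comm]

theorem Tg_pow (γ : L ≃ₐ[k] L) (x : L) (n : ℕ) : Tg γ (x ^ n) = Tg γ x ^ n := by
  unfold Tg
  rw [map_pow, div_pow]

theorem Tg_ne (γ : L ≃ₐ[k] L) {x : L} (hx : x ≠ 0) : Tg γ x ≠ 0 :=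
  div_ne_zero ((map_ne_zero γ).2 hx) hx

theorem iter_ne (γ : L ≃ₐ[k] L) (n : ℕ) {x : L} (hx : x ≠ 0) : (Tg γ)^[n] x ≠ 0 := by
  induction n generalizing x with
  | zero => exact hx
  | succ n ih =>
    rw [Function.iterate_succ_apply]
    exact ih (Tg_ne γ hx)

theorem iter_mul (γ : L ≃ₐ[k] L) (n : ℕ) (x y : L) :
    (Tg γ)^[n] (x * y) = (Tg γ)^[n] x * (Tg γ)^[n] y := by
  induction n generalizing x y with
  | zero => rfl
  | succ n ih => rw [Function.iterate_succ_apply, Function.iterate_succ_apply,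
      Function.iterate_succ_apply, Tg_mul, ih]

theorem iter_pow (γ : L ≃ₐ[k] L) (n m : ℕ) (x : L) :
    (Tg γ)^[n] (x ^ m) = (Tg γ)^[n] x ^ m := by
  induction n generalizing x with
  | zero => rfl
  | succ n ih => rw [Function.iterate_succ_apply, Function.iterate_succ_apply, Tg_pow, ih]

/-- The action of `γ` on the additive group of the units. -/
noncomputable def act (γ : L ≃ₐ[k] L) : Module.End ℤ (Additive Lˣ) :=
  (MonoidHom.toAdditive (Units.map (γ : L →* L))).toIntLinearMap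

theorem act_apply (γ : L ≃ₐ[k] L) (u : Additive Lˣ) :
    (((act γ u).toMul : Lˣ) : L) = γ ((u.toMul : Lˣ) : L) := rfl

theorem act_pow (γ : L ≃ₐ[k] L) (n : ℕ) (u : Additive Lˣ) :
    ((((act γ ^ n) u).toMul : Lˣ) : L) = (γ ^ n) ((u.toMul : Lˣ) : L) := by
  induction n generalizing u with
  | zero => rfl
  | succ n ih =>
    rw [pow_succ', Module.End.mul_apply, act_apply, ih, pow_succ']
    rfl

theorem sub_act (γ : L ≃ₐ[k] L) (u : Additive Lˣ) :
    ((((act γ - 1) u).toMul : Lˣ) : L) = Tg γ ((u.toMul : Lˣ) : L) := by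
  have h : (act γ - 1) u = act γ u - u := rfl
  rw [h, toMul_sub, Units.val_div_eq_div_val, act_apply]
  rfl

theorem sub_act_pow (γ : L ≃ₐ[k] L) (n : ℕ) (u : Additive Lˣ) :
    (((((act γ - 1) ^ n) u).toMul : Lˣ) : L) = (Tg γ)^[n] ((u.toMul : Lˣ) : L) := by
  induction n generalizing u with
  | zero => rfl
  | succ n ih =>
    rw [pow_succ', Module.End.mul_apply, sub_act, ih, Function.iterate_succ_apply']

/-- `(X - 1)^p = X^p - 1 + p h`. -/
theorem ring_id {R : Type} [Ring R] (p : ℕ) (hp : p.Prime) (g : R) :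
    ∃ h : R, (g - 1) ^ p = g ^ p - 1 + p * h := by
  have h1 : Commute g (-1 : R) := (Commute.one_right g).neg_right
  have h2 := h1.add_pow_prime_eq hp
  rw [← sub_eq_add_neg] at h2
  rcases hp.eq_two_or_odd' with h3 | h3
  · subst h3
    refine ⟨1 - g, ?_⟩
    have : (g - 1) ^ 2 = g ^ 2 - 2 * g + 1 := by noncomm_ring
    rw [this]
    push_cast
    noncomm_ring
  · rw [h3.neg_one_pow] at h2
    exact ⟨g * -1 * ∑ k ∈ Finset.Ioo 0 p, g ^ (k - 1) * (-1) ^ (p - k - 1) *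
      ((p.choose k / p : ℕ) : R), by rw [h2, sub_eq_add_neg]; simp only [mul_assoc]⟩

theorem step (p : ℕ) (hp : p.Prime) (γ : L ≃ₐ[k] L) {x : L} (hx : x ≠ 0) :
    ∃ w : L, w ≠ 0 ∧ (Tg γ)^[p] x = Tg (γ ^ p) x * w ^ p := by
  obtain ⟨h, hh⟩ := ring_id p hp (act γ)
  set u : Additive Lˣ := Additive.ofMul (Units.mk0 x hx) with hu
  have hux : ((u.toMul : Lˣ) : L) = x := rfl
  refine ⟨((h u).toMul : Lˣ), Units.ne_zero _, ?_⟩
  have h1 := sub_act_pow γ p u
  rw [hux] at h1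
  rw [← h1, hh]
  have h2 : (act γ ^ p - 1 + (p : Module.End ℤ (Additive Lˣ)) * h) u =
      ((act γ ^ p) u - u) + p • (h u) := by
    rw [LinearMap.add_apply, Module.End.mul_apply, ← nsmul_one, LinearMap.smul_apply]
    rfl
  rw [h2, toMul_add, toMul_sub, toMul_nsmul, Units.val_mul, Units.val_div_eq_div_val, act_pow,
    Units.val_pow_eq_pow_val, hux]
  rfl

/-- `f` multiplicative, `f x = T x` up to `p`-th powers: the same for the iterates -/
theorem iter (p : ℕ) (hp : p.Prime) (γ : L ≃ₐ[k] L) (n : ℕ) {x : L} (hx : x ≠ 0) :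
    ∃ w : L, w ≠ 0 ∧ ((Tg γ)^[p])^[n] x = (Tg (γ ^ p))^[n] x * w ^ p := by
  induction n with
  | zero => exact ⟨1, one_ne_zero, by simp⟩
  | succ n ih =>
    obtain ⟨w, hw, hw'⟩ := ih
    have h1 : (Tg (γ ^ p))^[n] x ≠ 0 := iter_ne _ _ hx
    obtain ⟨v, hv, hv'⟩ := step p hp γ h1
    refine ⟨v * (Tg γ)^[p] w, mul_ne_zero hv (iter_ne _ _ hw), ?_⟩
    have h3 : (Tg (γ ^ p))^[n + 1] x = Tg (γ ^ p) ((Tg (γ ^ p))^[n] x) :=
      Function.iterate_succ_apply' _ _ _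
    rw [Function.iterate_succ_apply' (Tg γ)^[p] n x, hw', h3, iter_mul, iter_pow, hv']
    ring

end Pool.Agent.MUXK.K_TNX

namespace Pool.Agent.MUXK

open Pool.Agent.MU3

/-- `T ^ (p ^ j) = γ ^ (p ^ j) - 1` modulo `p`-th powers -/
theorem t_TNX : S_TNX := by
  intro p hpf k L _ _ _ γ j
  have hp : p.Prime := hpf.out
  induction j generalizing γ with
  | zero =>
    intro x _
    exact ⟨1, one_ne_zero, by simp [Tg]⟩
  | succ j ih =>
    intro x hx
    obtain ⟨w, hw, hw'⟩ := ih (γ ^ p) x hx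
    obtain ⟨v, hv, hv'⟩ := K_TNX.iter p hp γ (p ^ j) hx
    refine ⟨w * v, mul_ne_zero hw hv, ?_⟩
    rw [pow_succ', Function.iterate_mul, hv', hw', ← pow_mul, ← pow_succ']
    ring

end Pool.Agent.MUXK
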