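import Pool.Agent.MUX.StKX

/-!
# MUX, block K: module I3X (helper19; model `MU3/P_I3L.lean`)
-/

set_option autoImplicit false

open NumberField IsDedekindDomain Finset
open scoped nonZeroDivisors Pointwise

namespace Pool.Agent.MUXK

open Pool.Agent.MU3 Pool.Agent.RI Pool.Agent.RID

namespace I3X19

theorem Tg_mul {k L : Type} [Field k] [Field L] [Algebra k L] (γ : L ≃ₐ[k] L) (x y : L) :
    Tg γ (x * y) = Tg γ x * Tg γ y := by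
  unfold Tg
  rw [map_mul, mul_div_mul_comm]

theorem Tg_pow {k L : Type} [Field k] [Field L] [Algebra k L] (γ : L ≃ₐ[k] L) (x : L) (n : ℕ) :
    Tg γ (x ^ n) = Tg γ x ^ n := by
  unfold Tg
  rw [map_pow, div_pow]

/-- The value of `sUnitP` in `L`. -/
theorem sUnit_val {k L F : Type} [Field k] [Field L] [NumberField L] [Algebra k L] [Field F]
    (p : ℕ) (D : Subgroup (L ≃ₐ[k] L)) [Fintype D] (γ : L ≃ₐ[k] L) (m n : ℕ) (χ : D →* Fˣ)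
    (θ : F →+ ZMod p) (u : (𝓞 L)ˣ) :
    ((sUnitP p D γ m n χ θ u : 𝓞 L) : L) =
      ∏ δ : D, ((δ : L ≃ₐ[k] L) (∏ i ∈ range (p ^ (n - m)), ((γ ^ (p ^ m)) ^ i) ((u : 𝓞 L) : L))) ^
        (θ ((χ δ)⁻¹ : Fˣ)).val := by
  let ψ : (𝓞 L)ˣ →* L := (algebraMap (𝓞 L) L : 𝓞 L →* L).comp (Units.coeHom (𝓞 L))
  have hψ : ∀ x : (𝓞 L)ˣ, ((x : 𝓞 L) : L) = ψ x := fun _ => rfl
  have hψs : ∀ (σ : L ≃ₐ[k] L) (x : (𝓞 L)ˣ), ψ (σ • x) = σ (ψ x) := fun _ _ => rfl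
  rw [hψ, hψ]
  unfold sUnitP
  rw [map_prod]
  refine prod_congr rfl fun δ _ => ?_
  rw [map_pow, hψs, ng_apply, map_prod]
  simp only [hψs]

/-- `T` of a product of conjugates -/
theorem Tg_prod {k M F : Type} [Field k] [Field M] [Algebra k M] [Field F] (p : ℕ)
    (comm : ∀ σ τ : M ≃ₐ[k] M, σ * τ = τ * σ) (g : M ≃ₐ[k] M) (D : Subgroup (M ≃ₐ[k] M))
    [Fintype D] (χ : D →* Fˣ) (θ : F →+ ZMod p) (x : M) :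
    Tg g (∏ δ : D, ((δ : M ≃ₐ[k] M) x) ^ (θ ((χ δ)⁻¹ : Fˣ)).val) =
      ∏ δ : D, ((δ : M ≃ₐ[k] M) (Tg g x)) ^ (θ ((χ δ)⁻¹ : Fˣ)).val := by
  unfold Tg
  rw [map_prod, ← prod_div_distrib]
  refine prod_congr rfl fun δ _ => ?_
  rw [map_pow, ← div_pow]
  congr 1
  have e2 : (δ : M ≃ₐ[k] M) (g x / x) = (δ : M ≃ₐ[k] M) (g x) / (δ : M ≃ₐ[k] M) x :=
    map_div₀ _ _ _
  have e3 : g ((δ : M ≃ₐ[k] M) x) = (δ : M ≃ₐ[k] M) (g x) :=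
    congrArg (fun f : M ≃ₐ[k] M => f x) (comm g (δ : M ≃ₐ[k] M))
  rw [e2, e3]

theorem core {k L M F : Type} [Field k] [Field L] [NumberField L] [Field M] [Algebra k L]
    [Algebra k M] [Field F] (p : ℕ) (hp : p ≠ 0) (j : M →+* L)
    (r : (L ≃ₐ[k] L) →* (M ≃ₐ[k] M))
    (hr : ∀ (σ : L ≃ₐ[k] L) (x : M), j (r σ x) = σ (j x))
    (comm : ∀ σ τ : M ≃ₐ[k] M, σ * τ = τ * σ) (γ : L ≃ₐ[k] L) (m n m₀ : ℕ)
    (hfix : ∀ x : L, (γ ^ (p ^ m)) x = x ↔ ∃ z : M, j z = x)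
    (D : Subgroup (L ≃ₐ[k] L)) [Fintype D] (D' : Subgroup (M ≃ₐ[k] M)) [Fintype D']
    (e : D ≃* D') (he : ∀ δ : D, ((e δ : D') : M ≃ₐ[k] M) = r δ)
    (cn : L) (cm : M) (hcm : cm ≠ 0) (C : L) (hC : C ≠ 0)
    (hCγ : ∀ i : ℕ, (γ ^ i) C = C)
    (hnrm : ∏ i ∈ range (p ^ (n - m)), (γ ^ (p ^ m * i)) cn = C * j cm)
    (hω : ∀ w : L, w ^ p = 1 → γ w = w) (u : (𝓞 L)ˣ)
    (hu : ((u : 𝓞 L) : L) = ((γ ^ (p ^ m₀)) ^ p) cn / cn)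
    (χ : D →* Fˣ) (θ : F →+ ZMod p)
    (hi3 : ∀ y : M, y ^ p ≠ ∏ δ : D', ((δ : M ≃ₐ[k] M)
      ((Tg (r γ))^[p ^ (m₀ + 1) + 2] cm)) ^ (θ ((χ.comp e.symm.toMonoidHom δ)⁻¹ : Fˣ)).val)
    (hTN : ∃ w : M, w ≠ 0 ∧ (Tg (r γ))^[p ^ (m₀ + 1)] cm =
      ((r γ) ^ (p ^ (m₀ + 1))) cm / cm * w ^ p) :
    ((sUnitP p D γ m n χ θ u : 𝓞 L) : L) ≠ 0 ∧
    ∀ y : L, y ^ p ≠ γ ((sUnitP p D γ m n χ θ u : 𝓞 L) : L) /
      ((sUnitP p D γ m n χ θ u : 𝓞 L) : L) := by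
  rw [sUnit_val]
  set G : L ≃ₐ[k] L := (γ ^ (p ^ m₀)) ^ p with hG
  have hG' : G = γ ^ (p ^ (m₀ + 1)) := by rw [hG, ← pow_mul, pow_succ]
  set um : M := ((r γ) ^ (p ^ (m₀ + 1))) cm / cm with hum
  have hjcm : j cm ≠ 0 := by rw [Ne, map_eq_zero]; exact hcm
  have hrG : r G = (r γ) ^ (p ^ (m₀ + 1)) := by rw [hG', map_pow]
  -- the norm of u
  have hN : ∏ i ∈ range (p ^ (n - m)), ((γ ^ (p ^ m)) ^ i) ((u : 𝓞 L) : L) = j um := by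
    have e1 : ∀ i ∈ range (p ^ (n - m)), ((γ ^ (p ^ m)) ^ i) ((u : 𝓞 L) : L) =
        G ((γ ^ (p ^ m * i)) cn) / (γ ^ (p ^ m * i)) cn := by
      intro i _
      rw [hu, ← pow_mul, map_div₀]
      congr 1
      rw [← AlgEquiv.mul_apply, ← AlgEquiv.mul_apply, hG', ← pow_add, ← pow_add, add_comm]
    have hGC : G C = C := by rw [hG']; exact hCγ _
    rw [prod_congr rfl e1, prod_div_distrib, ← map_prod, hnrm, map_mul, hGC, ← hr, hrG,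
      mul_div_mul_left _ _ hC, hum, map_div₀]
  rw [hN]
  -- the element of M
  set sm : M := ∏ δ : D', ((δ : M ≃ₐ[k] M) um) ^
    (θ ((χ.comp e.symm.toMonoidHom δ)⁻¹ : Fˣ)).val with hsm
  have hs : ∏ δ : D, ((δ : L ≃ₐ[k] L) (j um)) ^ (θ ((χ δ)⁻¹ : Fˣ)).val = j sm := by
    rw [hsm, map_prod, ← e.toEquiv.prod_comp]
    refine prod_congr rfl fun δ _ => ?_
    rw [map_pow]
    congr 1
    · rw [← hr]
      congr 1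
      show (r δ) um = ((e δ : D') : M ≃ₐ[k] M) um
      rw [he]
    · show _ = (θ ((χ (e.symm (e δ)))⁻¹ : Fˣ)).val
      rw [e.symm_apply_apply]
  rw [hs]
  have hum0 : um ≠ 0 := by
    rw [hum]
    exact div_ne_zero ((map_ne_zero _).mpr hcm) hcm
  have hsm0 : sm ≠ 0 := by
    rw [hsm, prod_ne_zero_iff]
    intro δ _
    exact pow_ne_zero _ ((map_ne_zero _).mpr hum0)
  have hjsm0 : j sm ≠ 0 := (map_ne_zero _).mpr hsm0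
  refine ⟨hjsm0, fun y hy => ?_⟩
  -- `y ^ p = j (T sm)`
  have hjT : ∀ x : M, γ (j x) / j x = j (Tg (r γ) x) := by
    intro x
    unfold Tg
    rw [map_div₀, hr]
  rw [hjT] at hy
  have hTs0 : Tg (r γ) sm ≠ 0 := div_ne_zero ((map_ne_zero _).mpr hsm0) hsm0
  have hjTs0 : j (Tg (r γ) sm) ≠ 0 := (map_ne_zero _).mpr hTs0
  have hy0 : y ≠ 0 := by
    rintro rfl
    rw [zero_pow hp] at hy
    exact hjTs0 hy.symm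
  set h : L ≃ₐ[k] L := γ ^ (p ^ m) with hh
  have hhy : h y ≠ 0 := (map_ne_zero _).mpr hy0
  have hw3 : (h y / y) ^ p = 1 := by
    rw [div_pow, ← map_pow, hy, (hfix (j (Tg (r γ) sm))).mpr ⟨_, rfl⟩, div_self hjTs0]
  have hw : γ (h y / y) = h y / y := hω _ hw3
  have hcomm : ∀ x : L, h (γ x) = γ (h x) := by
    intro x
    rw [← AlgEquiv.mul_apply, ← AlgEquiv.mul_apply, hh, ← pow_succ, ← pow_succ']
  have hγy : γ y ≠ 0 := (map_ne_zero _).mpr hy0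
  have ht : h (γ y / y) = γ y / y := by
    rw [map_div₀, hcomm]
    rw [map_div₀] at hw
    rw [div_eq_div_iff hγy hy0] at hw
    rw [div_eq_div_iff hhy hy0, hw, mul_comm]
  obtain ⟨t, htj⟩ := (hfix _).mp ht
  -- T (T sm) = t ^ p
  have hT : Tg (r γ) (Tg (r γ) sm) = t ^ p := by
    apply j.injective
    rw [map_pow, htj, div_pow, ← map_pow, hy, hjT]
  obtain ⟨w, hw0, hTw⟩ := hTN
  have hTN' : (Tg (r γ))^[p ^ (m₀ + 1) + 2] cm =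
      Tg (r γ) (Tg (r γ) um) * (Tg (r γ) (Tg (r γ) w)) ^ p := by
    rw [Function.iterate_succ_apply', Function.iterate_succ_apply', hTw, Tg_mul, Tg_pow, Tg_mul,
      Tg_pow]
  apply hi3 (t * ∏ δ : D', ((δ : M ≃ₐ[k] M) (Tg (r γ) (Tg (r γ) w))) ^
      (θ ((χ.comp e.symm.toMonoidHom δ)⁻¹ : Fˣ)).val)
  rw [hTN', mul_pow, ← hT, hsm, Tg_prod p comm, Tg_prod p comm, ← prod_pow, ← prod_mul_distrib]
  refine prod_congr rfl fun δ _ => ?_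
  rw [map_mul, map_pow, mul_pow]
  congr 1
  rw [← pow_mul, ← pow_mul, mul_comm]

/-- transport of the automorphism group along an equality of fields -/
theorem transp (k E E' : IntermediateField ℚ ℂ) (h : E = E') (h1 : k ≤ E) (h2 : k ≤ E') :
    letI := algC h1
    letI := algC h2
    ∃ t : (E ≃ₐ[k] E) ≃* (E' ≃ₐ[k] E'), ∀ (σ : E ≃ₐ[k] E) (x : E') (x' : E), (x' : ℂ) = x →
      ((σ x' : E) : ℂ) = (t σ x : E') := by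
  subst h
  let _ := algC h1
  refine ⟨MulEquiv.refl _, fun σ x x' hx => ?_⟩
  have e : x' = x := Subtype.ext hx
  rw [e]
  rfl

theorem B0 {p : ℕ} {B : ℕ → IntermediateField ℚ ℂ} (h : IsLayer p 0 (B 0)) : B 0 = ⊥ := by
  have h1 := h.1
  rw [pow_zero] at h1
  exact IntermediateField.finrank_eq_one_iff.1 h1

/-- restriction to `K₀` is an isomorphism `NC (B n) ≃ Gal(K₀ / k)` -/
theorem restr (h1 : S_RSX) (p : ℕ) [Fact p.Prime] (k K₀ : IntermediateField ℚ ℂ)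
    (B : ℕ → IntermediateField ℚ ℂ) [FiniteDimensional ℚ K₀]
    [∀ n, FiniteDimensional ℚ ↥(K₀ ⊔ B n)] (hB : BasX p k K₀ B)
    (hcop : ¬ p ∣ Module.finrank k (IntermediateField.extendScalars hB.hk))
    (hkK : k ≤ K₀) (n : ℕ) (h : k ≤ K₀ ⊔ B n) :
    letI := algC hkK
    letI := algC h
    ∃ ρ : NC h (B n) ≃* (↥K₀ ≃ₐ[k] ↥K₀), ∀ (δ : NC h (B n)) (x : ↥K₀) (x' : ↥(K₀ ⊔ B n)),
      (x' : ℂ) = x →
      (((δ : ↥(K₀ ⊔ B n) ≃ₐ[k] ↥(K₀ ⊔ B n)) x' : ↥(K₀ ⊔ B n)) : ℂ) = (ρ δ x : ↥K₀) := by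
  let _ := algC hkK
  let _ := algC h
  have hb : B 0 = ⊥ := B0 (hB.lay 0)
  have hE : K₀ ⊔ B 0 = K₀ := by rw [hb, sup_bot_eq]
  have h' : k ≤ K₀ ⊔ B 0 := hkK.trans le_sup_left
  have hmn : K₀ ⊔ B 0 ≤ K₀ ⊔ B n := sup_le_sup_left (hB.mono (Nat.zero_le n)) K₀
  let _ := algC h'
  obtain ⟨r, hr, _, e, he⟩ := h1 p k K₀ B hB hcop 0 n (Nat.zero_le n) h h' hmn
  obtain ⟨t, ht⟩ := transp k (K₀ ⊔ B 0) K₀ hE h' hkK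
  have htop : NC h' (B 0) = ⊤ := by
    rw [eq_top_iff]
    intro σ _ x hx
    have hx' : (x : ℂ) ∈ (⊥ : IntermediateField ℚ ℂ) := hb.le hx
    obtain ⟨q, hq⟩ := IntermediateField.mem_bot.1 hx'
    have hq' : x = algebraMap ℚ ↥(K₀ ⊔ B 0) q := Subtype.ext hq.symm
    rw [hq']
    have h4 : algebraMap ℚ ↥(K₀ ⊔ B 0) q = ((q : ℚ) : ↥(K₀ ⊔ B 0)) := eq_ratCast _ q
    rw [h4]
    exact map_ratCast σ q
  refine ⟨(e.trans (MulEquiv.subgroupCongr htop)).trans (Subgroup.topEquiv.trans t), ?_⟩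
  intro δ x x' hx
  have hx2 : (x : ℂ) ∈ K₀ ⊔ B 0 := by rw [hE]; exact x.2
  have e1 : x' = ⟨((⟨x, hx2⟩ : ↥(K₀ ⊔ B 0)) : ℂ), hmn hx2⟩ := Subtype.ext hx
  have e2 := ht (r (δ : ↥(K₀ ⊔ B n) ≃ₐ[k] ↥(K₀ ⊔ B n))) x ⟨x, hx2⟩ rfl
  have e3 := hr (δ : ↥(K₀ ⊔ B n) ≃ₐ[k] ↥(K₀ ⊔ B n)) ⟨x, hx2⟩
  rw [e1, ← e3, e2]
  have e4 : ((e.trans (MulEquiv.subgroupCongr htop)).trans (Subgroup.topEquiv.trans t)) δ =
      t ((e δ : NC h' (B 0)) : ↥(K₀ ⊔ B 0) ≃ₐ[k] ↥(K₀ ⊔ B 0)) := rfl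
  rw [e4, he]

end I3X19

open I3X19 in
theorem t_I3X (h1 : S_RSX) (h2 : S_NRX) (h3 : S_TNX) (h4 : S_NCP) (h5 : S_GALX) : S_I3X := by
  intro F _ p _ k K₀ K B _ _ _ _ hX hk hk₀ hh hkK S c c₀ n₁ hI m₀
  have hp0 : p ≠ 0 := (Fact.out : p.Prime).ne_zero
  have hfin : FiniteDimensional ℚ K₀ :=
    FiniteDimensional.of_injective (IntermediateField.inclusion hX.le).toLinearMap
      (IntermediateField.inclusion hX.le).injective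
  obtain ⟨ω, hωK, hω1⟩ := hX.om
  let _ := algC hkK
  have htow : IsScalarTower ℚ k K₀ := IsScalarTower.of_algebraMap_eq fun x => rfl
  have hfin2 : FiniteDimensional k K₀ := FiniteDimensional.right ℚ k K₀
  have hfin3 : Finite (↥K₀ ≃ₐ[k] ↥K₀) := inferInstance
  have hfin4 : Finite ((↥K₀ ≃ₐ[k] ↥K₀) →* Fˣ) := inferInstance
  choose μ hμ1 hμ2 using fun χ : (↥K₀ ≃ₐ[k] ↥K₀) →* Fˣ => hI.i3 χ (p ^ (m₀ + 1) + 2) n₁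
  obtain ⟨m₁, hm₁⟩ := (Set.finite_range μ).bddAbove
  have hm₁' : ∀ χ, μ χ ≤ m₁ := fun χ => hm₁ (Set.mem_range_self χ)
  refine ⟨m₁, (hμ1 1).trans (hm₁' 1), ?_⟩
  intro n hmn
  let _ := algC (hk₀ n)
  let _ := algC (hh n)
  let _ := algC (hk n)
  intro γ hγ _ u hu χ
  obtain ⟨ρn, hρn⟩ := restr h1 p k K₀ B hX.b0 hX.cop hkK n (hk₀ n)
  obtain ⟨ψ, hψ⟩ : ∃ ψ : (↥K₀ ≃ₐ[k] ↥K₀) →* Fˣ, ∀ δ, ψ (ρn δ) = χ δ :=
    ⟨χ.comp ρn.symm.toMonoidHom, fun δ => by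
      show χ (ρn.symm (ρn δ)) = χ δ
      rw [ρn.symm_apply_apply]⟩
  have hm1 := hμ1 ψ
  have hm2 := hμ2 ψ
  have hm3 := hm₁' ψ
  obtain ⟨m, hm⟩ : ∃ m, m = μ ψ := ⟨_, rfl⟩
  rw [← hm] at hm1 hm2 hm3
  refine ⟨m, hm3, ?_⟩
  let _ := algC (hk₀ m)
  have hmn' : m ≤ n := hm3.trans hmn
  have hsub : K₀ ⊔ B m ≤ K₀ ⊔ B n := sup_le_sup_left (hX.b0.mono hmn') K₀
  obtain ⟨r, hr, hrγ, e, he⟩ := h1 p k K₀ B hX.b0 hX.cop m n hmn' (hk₀ n) (hk₀ m) hsub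
  obtain ⟨ρm, hρm⟩ := restr h1 p k K₀ B hX.b0 hX.cop hkK m (hk₀ m)
  obtain ⟨hr1, hr2⟩ := hrγ γ hγ
  let _ : Fintype (NC (hk₀ m) (B m)) := Fintype.ofEquiv _ e.toEquiv
  obtain ⟨θ, hθ0⟩ := hm2 (r γ) hr1 (fun δ => ρm δ) hρm
  have hρ : ∀ δ, ρm (e δ) = ρn δ := by
    intro δ
    refine AlgEquiv.ext fun x => Subtype.ext ?_
    have hx1 : (x : ℂ) ∈ K₀ ⊔ B m := le_sup_left (a := K₀) x.2
    rw [← hρm (e δ) x ⟨x, hx1⟩ rfl, ← hρn δ x ⟨x, hsub hx1⟩ rfl, he]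
    exact hr _ ⟨x, hx1⟩
  have hχ : ∀ δ, ψ (ρm δ) = (χ.comp e.symm.toMonoidHom) δ := by
    intro δ
    show ψ (ρm δ) = χ (e.symm δ)
    rw [← hψ, ← hρ, e.apply_symm_apply]
  have hθ : ∀ y : ↥(K₀ ⊔ B m), y ^ p ≠ ∏ δ : NC (hk₀ m) (B m),
      ((δ : ↥(K₀ ⊔ B m) ≃ₐ[k] ↥(K₀ ⊔ B m)) ((Tg (r γ))^[p ^ (m₀ + 1) + 2] ⟨c₀ m, hI.mem₀ m⟩)) ^
        (θ (((χ.comp e.symm.toMonoidHom) δ)⁻¹ : Fˣ)).val := by
    intro y hy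
    refine hθ0 y (hy.trans ?_)
    exact prod_congr rfl fun δ _ => by rw [hχ]
  obtain ⟨C, hCk, hC0, hC⟩ := h2 F p k K₀ K B hX hk hk₀ hkK S c c₀ n₁ hI m n hm1 hmn' γ hγ
  refine ⟨θ, ?_⟩
  have hc0 : ∀ i, c₀ i ≠ 0 := by
    intro i
    let _ := algC (hk i)
    rw [hI.norm i]
    refine finprod_induction (p := fun x : ℂ => x ≠ 0) one_ne_zero (fun x y hx hy => mul_ne_zero hx hy)
      fun g hg => ?_
    have h6 := (map_eq_zero ((g : NC (hk i) (K₀ ⊔ B i)) : ↥(K ⊔ B i) ≃ₐ[k] ↥(K ⊔ B i))).1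
      (Subtype.ext hg)
    exact hI.ne i (congrArg Subtype.val h6)
  have hcm : (⟨c₀ m, hI.mem₀ m⟩ : ↥(K₀ ⊔ B m)) ≠ 0 := by
    intro h; exact hc0 m (congrArg Subtype.val h)
  have a1 := h3 p k ↥(K₀ ⊔ B m) (r γ) (m₀ + 1) _ hcm
  have a2 := (h5 p k K₀ B hX.b0 m (hk₀ m)).2
  have b1 : ∀ (σ : ↥(K₀ ⊔ B n) ≃ₐ[k] ↥(K₀ ⊔ B n)) (x : ↥(K₀ ⊔ B m)),
      (IntermediateField.inclusion hsub : ↥(K₀ ⊔ B m) →+* ↥(K₀ ⊔ B n)) (r σ x) =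
        σ ((IntermediateField.inclusion hsub : ↥(K₀ ⊔ B m) →+* ↥(K₀ ⊔ B n)) x) :=
    fun σ x => Subtype.ext (hr σ x)
  have b2 : ∀ x : ↥(K₀ ⊔ B n), (γ ^ (p ^ m)) x = x ↔
      ∃ z : ↥(K₀ ⊔ B m),
        (IntermediateField.inclusion hsub : ↥(K₀ ⊔ B m) →+* ↥(K₀ ⊔ B n)) z = x := by
    intro x
    rw [hr2 x]
    constructor
    · intro hx
      exact ⟨⟨x, hx⟩, rfl⟩
    · rintro ⟨z, rfl⟩
      exact z.2
  have hK₀n : K₀ ≤ K₀ ⊔ B n := le_sup_left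
  have b3 : (⟨C, hK₀n hCk⟩ : ↥(K₀ ⊔ B n)) ≠ 0 := by
    intro h; exact hC0 (congrArg Subtype.val h)
  have b4 : ∀ i : ℕ, (γ ^ i) (⟨C, hK₀n hCk⟩ : ↥(K₀ ⊔ B n)) = ⟨C, hK₀n hCk⟩ := by
    intro i
    have h6 : γ (⟨C, hK₀n hCk⟩ : ↥(K₀ ⊔ B n)) = ⟨C, hK₀n hCk⟩ := (hγ _).2 hCk
    induction i with
    | zero => rw [pow_zero, AlgEquiv.one_apply]
    | succ i ih => rw [pow_succ, AlgEquiv.mul_apply, h6, ih]
  have b5 : ∏ i ∈ range (p ^ (n - m)), (γ ^ (p ^ m * i)) ⟨c₀ n, hI.mem₀ n⟩ =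
      ⟨C, hK₀n hCk⟩ *
        (IntermediateField.inclusion hsub : ↥(K₀ ⊔ B m) →+* ↥(K₀ ⊔ B n)) ⟨c₀ m, hI.mem₀ m⟩ :=
    Subtype.ext hC
  have b6 : ∀ w : ↥(K₀ ⊔ B n), w ^ p = 1 → γ w = w := by
    intro w hw
    rw [hγ w]
    have hw' : (w : ℂ) ^ p = 1 := congrArg Subtype.val hw
    have : NeZero p := ⟨hp0⟩
    obtain ⟨i, _, hi⟩ := hω1.eq_pow_of_pow_eq_one hw'
    rw [← hi]
    exact K₀.pow_mem hωK i
  have a4 := core (F := F) p hp0 _ r b1 a2 γ m n m₀ b2 (NC (hk₀ n) (B n)) (NC (hk₀ m) (B m)) e he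
  have a5 := a4 ⟨c₀ n, hI.mem₀ n⟩ ⟨c₀ m, hI.mem₀ m⟩ hcm _ b3 b4 b5 b6 u hu χ θ
  obtain ⟨a6, a7⟩ := a5 hθ a1
  intro y hy
  have hst : IsScalarTower k ↥(K₀ ⊔ B n) ↥(K ⊔ B n) := IsScalarTower.of_algebraMap_eq fun x => rfl
  have hg1 := (h5 p k K₀ B hX.b0 n (hk₀ n)).1
  obtain ⟨hg2, hg3⟩ := h5 p k K B hX.b n (hk n)
  have hωn : ω ∈ K₀ ⊔ B n := hK₀n hωK
  have hω2 : IsPrimitiveRoot (⟨ω, hωn⟩ : ↥(K₀ ⊔ B n)) p := by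
    refine IsPrimitiveRoot.of_map_of_injective (f := (K₀ ⊔ B n).val) ?_
      (K₀ ⊔ B n).val.injective
    exact hω1
  obtain ⟨t, ht⟩ := h4 p k ↥(K₀ ⊔ B n) ↥(K ⊔ B n) hg3 γ ⟨ω, hωn⟩ hω2 ((hγ _).2 hωK) _ a6 y hy
  exact a7 t ht

end Pool.Agent.MUXK
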