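import Pool.Agent.MU3.VCong

/-!
# MUX, block VG: reduction of elliptic curves in general Weierstrass form (all residue
characteristics) (helper77)

`W : y² + a₁xy + a₃y = x³ + a₂x² + a₄x + a₆` over a field `F` with a valuation `v`, coefficients
integral. This is the version of `MU3/VCore`, `VPts`, `VRed`, `VCong` (case `a₁ = a₃ = 0`, `v 2 = 1`)
without restriction; the proofs are those of the four files with the changes given in the docstrings.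
`InE v P` (`P = 0` or `x(P)` not integral) and `zc P = -x/y` are the definitions of `MU3/VPts.lean`;
`Pool.Agent.MU3.Val.v_nat`, `v_two`, `v_three`, `v_add_le`, `v_sub_le`, `v_mul_le`, `v_mul_le_right`,
`v_pow_le`, `inE_zero`, `zc_zero`, `inE_neg`, `inE_neg_iff` can be used.
-/

set_option autoImplicit false

namespace Pool.Agent.MUXG

open WeierstrassCurve Pool.Agent.MU3.Val

/-- `W` has integral coefficients. -/
structure IntG {F : Type} [Field F] {Γ₀ : Type} [LinearOrderedCommGroupWithZero Γ₀]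
    (v : Valuation F Γ₀) (W : Affine F) : Prop where
  a1 : v W.a₁ ≤ 1
  a2 : v W.a₂ ≤ 1
  a3 : v W.a₃ ≤ 1
  a4 : v W.a₄ ≤ 1
  a6 : v W.a₆ ≤ 1

/-- Valuations of a point.
(1) `v x ≤ 1`: if `v y > 1` then `v(y²) > v(a₁xy + a₃y)`, so `v(y² + a₁xy + a₃y) = v(y)² > 1`, but the right
side is integral.
(2) `v x > 1`: the right side has valuation `v(x)³`. If `v y ≤ v x`, the left side has valuation
`≤ v(x)² < v(x)³`, contradiction. So `v y > v x > 1`, hence `v(a₁xy + a₃y) < v(y)²` and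
`v(y)² = v(x)³`. The rest as in `v_zw` (`MU3/VCore.lean`). -/
def S_VAL : Prop :=
  ∀ (F : Type) [Field F] (Γ₀ : Type) [LinearOrderedCommGroupWithZero Γ₀] (v : Valuation F Γ₀)
    (W : Affine F), IntG v W → ∀ (x y : F), W.Nonsingular x y →
    (v x ≤ 1 → v y ≤ 1) ∧
    (1 < v x → y ≠ 0 ∧ v (-(x / y)) < 1 ∧ v (-(x / y)) ≠ 0 ∧ v (-(1 / y)) = v (-(x / y)) ^ 3 ∧
      v x * v (-(x / y)) ^ 2 = 1)

/-- Negation: with `z = -x/y`, `w = -1/y` one has `zc(-P) = -(x/(-y - a₁x - a₃)) = -z/(1 - a₁z - a₃w)` and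
`v(a₁z + a₃w) ≤ v z < 1` by `S_VAL`, so `v(zc(-P)) = v(zc P)` and
`zc(-P) + zc P = -z(a₁z + a₃w)/(1 - a₁z - a₃w)` has valuation at most `v(z)²`. For `P = 0` both are `0`. -/
def S_NEG : Prop :=
  ∀ (F : Type) [Field F] (Γ₀ : Type) [LinearOrderedCommGroupWithZero Γ₀] (v : Valuation F Γ₀)
    (W : Affine F), IntG v W → ∀ (P : W.Point), InE v P →
    v (zc P) < 1 ∧ (v (zc P) = 0 → P = 0) ∧ v (zc (-P)) = v (zc P) ∧
      v (zc (-P) + zc P) ≤ v (zc P) ^ 2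

/-- THE CHORD: the kernel of reduction is closed under addition, `zc` is additive up to second order.
Proof: as `MU3/VCore.lean`, `MU3/VPts.lean` (`chord0`, `chord`, `add_data`, `add_inE`), with the changes:
the line through `P = (x₁,y₁)`, `Q = (x₂,y₂)` (`P + Q ≠ 0`) is `y = lx + n`, third point
`(x₃,y₃) = -(P+Q)`, with `x₁+x₂+x₃ = l² + a₁l - a₂`, `x₁x₂+x₁x₃+x₂x₃ = a₄ - 2ln - a₁n - a₃l`,
`x₁x₂x₃ = n² + a₃n - a₆` (no hypothesis on `2` is needed: in the tangent case the denominator of the slope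
`(3x₁² + 2a₂x₁ + a₄ - a₁y₁)/(y₁ - negY)` is nonzero). In the coordinates `z = -x/y`, `w = -1/y` the curve
is `w = z³ + a₁zw + a₂z²w + a₃w² + a₄zw² + a₆w³`, the line is `nw + lz = -1`, and subtracting the
equations of the two points gives
`l(1 - (a₁z₂ + a₂z₂² + a₃(w₁+w₂) + a₄z₁(w₁+w₂) + a₆(w₁²+w₁w₂+w₂²))) =
   -(n(z₁²+z₁z₂+z₂² + a₁w₁ + a₂(z₁+z₂)w₁ + a₄w₂²))`
(prove it from the equations, separately for `x₁ ≠ x₂` and for the tangent, as in `add_data`: use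
`l(y₁+y₂+a₁x₂+a₃) = x₁²+x₁x₂+x₂²+a₂(x₁+x₂)+a₄-a₁y₁`). With `r = max(v z₁, v z₂) < 1`, `v w_i ≤ r³`: the
bracket on the left has valuation `1`, the one on the right `≤ r²`, so `v l ≤ v n · r²`,
`1 = v(nw₁+lz₁) ≤ v n · r³`, and `v(n³ - a₂ln² + a₄l²n - a₆l³) = v(n)³`. Moreover
`y₁y₂y₃ = n³ - a₂ln² + a₄l²n - a₆l³` (in particular `y₃ ≠ 0`) and
`(z₁+z₂+z₃)·y₁y₂y₃ = a₁ln² - a₃l²n + a₂n² - 2a₄ln + 3a₆l²`, whence
`v(z₁+z₂+z₃)·v(n)³ ≤ max(v(n)³r², v(n)²) ≤ v(n)³ r²` (because `1 ≤ v n · r³`), so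
`v(z₁+z₂+z₃) ≤ r²`, `v z₃ ≤ r`, `v w₃ ≤ r³` (from `n w₃ = -1 - l z₃`) and `(x₃,y₃)` is in the kernel
(`v y₃ > 1`). Finally `zc(P+Q) = zc(-(x₃,y₃))` and `S_NEG`: `v(zc(P+Q) + z₃) ≤ v(z₃)² ≤ r²`.
If `P + Q = 0` then `Q = -P` and the claim is `S_NEG`; if `P` or `Q` is `0` it is trivial. -/
def S_ADD : Prop :=
  ∀ (F : Type) [Field F] [DecidableEq F] (Γ₀ : Type) [LinearOrderedCommGroupWithZero Γ₀]
    (v : Valuation F Γ₀) (W : Affine F), IntG v W → ∀ (P Q : W.Point), InE v P → InE v Q →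
    InE v (P + Q) ∧ v (zc (P + Q) - zc P - zc Q) ≤ (max (v (zc P)) (v (zc Q))) ^ 2

/-- A singular point of the reduction makes `Δ` a non-unit. Proof: `Δ` does not change under the
translation `x = X + x₀, y = Y + y₀` (`WeierstrassCurve.variableChange_Δ` with `u = 1, r = x₀, s = 0,
t = y₀`; or directly by `ring`), after which `a₁' = a₁`, `a₂' = a₂ + 3x₀`, `a₃' = a₃ + a₁x₀ + 2y₀`,
`a₄' = a₄ + 2a₂x₀ - a₁y₀ + 3x₀²`, `a₆' = 0` (equation of the curve). So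
`b₂' = a₁²+4a₂'`, `b₄' = a₁a₃' + 2a₄'`, `b₆' = a₃'²`, `b₈' = -a₁a₃'a₄' + a₂'a₃'² - a₄'²` have `b₂'`
integral and the others of valuation `< 1`, and
`Δ = -b₂'²b₈' - 8b₄'³ - 27b₆'² + 9b₂'b₄'b₆'`. -/
def S_SING : Prop :=
  ∀ (F : Type) [Field F] (Γ₀ : Type) [LinearOrderedCommGroupWithZero Γ₀] (v : Valuation F Γ₀)
    (W : Affine F), IntG v W → ∀ (x y : F), v x ≤ 1 → v y ≤ 1 → W.Equation x y →
    v (2 * y + W.a₁ * x + W.a₃) < 1 → v (3 * x ^ 2 + 2 * W.a₂ * x + W.a₄ - W.a₁ * y) < 1 →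
    v W.Δ < 1

/-- REDUCTION IS INJECTIVE: `x(P) - x(Q)` is a unit if `P`, `Q`, `P + Q`, `P - Q` are not in the kernel.
Proof. `x₁ ≠ x₂` (otherwise `Q = ±P`). Let `l = (y₁-y₂)/(x₁-x₂)`;
`x(P+Q) = l² + a₁l - a₂ - x₁ - x₂` is integral, so `l² + a₁l` is, so `v l ≤ 1` (if `v l > 1` then
`v(l² + a₁l) = v(l)² > 1`): `v(y₁-y₂) ≤ v(x₁-x₂)`. The same for `P` and `-Q = (x₂, -y₂-a₁x₂-a₃)`:
`v(y₁+y₂+a₁x₂+a₃) ≤ v(x₁-x₂)`. Suppose `v(x₁-x₂) < 1`. Then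
`2y₁+a₁x₁+a₃ = (y₁-y₂) + (y₁+y₂+a₁x₂+a₃) + a₁(x₁-x₂)` has valuation `< 1`. The difference of the two
equations divided by `x₁-x₂` gives
`l(y₁+y₂+a₁x₂+a₃) = x₁²+x₁x₂+x₂²+a₂(x₁+x₂)+a₄-a₁y₁`, which has valuation `< 1`, so
`3x₁²+2a₂x₁+a₄-a₁y₁` (difference `(x₁-x₂)(2x₁+x₂+a₂)`) has valuation `< 1`. By `S_SING` `v Δ < 1`,
contradiction. -/
def S_XSUB : Prop :=
  ∀ (F : Type) [Field F] [DecidableEq F] (Γ₀ : Type) [LinearOrderedCommGroupWithZero Γ₀]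
    (v : Valuation F Γ₀) (W : Affine F), IntG v W → v W.Δ = 1 →
    ∀ (x₁ y₁ x₂ y₂ : F) (h₁ : W.Nonsingular x₁ y₁) (h₂ : W.Nonsingular x₂ y₂),
    ¬ InE v (Affine.Point.some x₁ y₁ h₁) → ¬ InE v (Affine.Point.some x₂ y₂ h₂) →
    ¬ InE v (Affine.Point.some x₁ y₁ h₁ + Affine.Point.some x₂ y₂ h₂) →
    ¬ InE v (Affine.Point.some x₁ y₁ h₁ - Affine.Point.some x₂ y₂ h₂) →
    v (x₁ - x₂) = 1

/-- TRANSLATION BY A POINT NEAR INFINITY (`MU3/VCong.lean`, `add_near`). `P = (x₁,y₁)` integral,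
`Q = (x₂,y₂)` in the kernel, `z = -x₂/y₂`, `w = 1/y₂` (so `v w = v(z)³`, `v x₂ · v(z)² = 1`),
`B = 2y₁+a₁x₁+a₃`, `D = x₂-x₁` (`v D = v x₂`), `lD = y₂-y₁`,
`x₃ = l²+a₁l-a₂-x₁-x₂`. One has
`(x₃ - x₁ - Bz)D² = -B(y₂ + zx₂²) + Bz(2x₁x₂ - x₁²) + a₄x₂ + a₆ + y₁² - a₁y₁x₂ + a₁x₁y₁ + 3x₁²x₂ - 2x₁³ +
2a₂x₁x₂ - a₂x₁²` and `y₂ + zx₂² = (y₂²-x₂³)w = (a₂x₂²+a₄x₂+a₆)w - a₁x₂ - a₃` (equation of `Q`), so the
right side has valuation `≤ v x₂` and `v(x₃ - x₁ - Bz) ≤ 1/v x₂ = v(z)²`.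
`(lz+1)D = -x₁ - y₁z` gives `v(lz+1) ≤ v(z)²`, `v l · v z = 1`, and
`y₃ = -(l(x₃-x₁)+y₁) - a₁x₃ - a₃` gives
`y₃ - y₁ = -l(x₃-x₁-Bz) - B(lz+1) - a₁(x₃-x₁)`, of valuation `≤ v z`. -/
def S_NEAR : Prop :=
  ∀ (F : Type) [Field F] [DecidableEq F] (Γ₀ : Type) [LinearOrderedCommGroupWithZero Γ₀]
    (v : Valuation F Γ₀) (W : Affine F), IntG v W →
    ∀ (x₁ y₁ x₂ y₂ : F) (h₁ : W.Nonsingular x₁ y₁) (h₂ : W.Nonsingular x₂ y₂),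
    ¬ InE v (Affine.Point.some x₁ y₁ h₁) → InE v (Affine.Point.some x₂ y₂ h₂) →
    ∃ (x₃ y₃ : F) (h₃ : W.Nonsingular x₃ y₃),
      Affine.Point.some x₁ y₁ h₁ + Affine.Point.some x₂ y₂ h₂ = Affine.Point.some x₃ y₃ h₃ ∧
      ¬ InE v (Affine.Point.some x₃ y₃ h₃) ∧
      v (x₃ - x₁ - (2 * y₁ + W.a₁ * x₁ + W.a₃) * (-(x₂ / y₂))) ≤ v (-(x₂ / y₂)) ^ 2 ∧
      v (x₃ - x₁) ≤ v (-(x₂ / y₂)) ∧ v (y₃ - y₁) ≤ v (-(x₂ / y₂))

end Pool.Agent.MUXG
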