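import Pool.Agent.MUX.DefsX
import Pool.Agent.MUX.StU
import Pool.Agent.MUX.StVG

/-!
# MUX, block R2: good reduction at the places above 2 (the case `p = 2`) (helper77)

`V` is a valuation ring of `ℂ` with `v(2) = θ < 1`, `v = V.valuation`. All lattices are normalised (`g₂ = -18 g₃`), `x = xn L z = ℘ - 1/12`,
`κ = kap L`, `j = 1728 + 1/κ`, and (blocks `CQ`, `CaseP 2`) have complex multiplication by `O`, `2 O = P Pbar`.
Every `def S2_X : Prop` is the statement of a module which proves `theorem t2_X (h : S2_Y) .. : S2_X` in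
`Pool/Agent/MUX/R2_X.lean`, namespace `Pool.Agent.MUX2`. The theorems `Pool.Agent.MU3B.b_X : St_X` of
`Pool/Agent/MU3/BAll.lean` and the theorems `Pool.Agent.MUXU.tu_X` of `Pool/Agent/MUX/U_X.lean` may be used.

Parameter: for `w` of order two on `ℂ / L`: `s = par L w = 8 + 2 / x(w)`. `J(s) = (s + 16)³/s`. Then
`κ = s/((s-8)²(s+64))`, `j = J(s)`; the quotient by `{0, w}` has the parameter `4096/s` at the dual point.
-/

set_option autoImplicit false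

namespace Pool.Agent.MUX2

open _root_.MU3 Pool.Agent.MU3A Pool.Agent.MU3B Pool.Agent.MUX Pool.Agent.MUXU WeierstrassCurve

noncomputable section

/-- the isogeny `z ↦ mu z` from `ℂ / L` to `ℂ / M` has the kernel `{0, w}`, `w` of order two -/
structure Two (L M : PeriodPair) (mu w : ℂ) : Prop where
  mu_ne : mu ≠ 0
  w_ne : w ∉ L.lattice
  w2 : 2 * w ∈ L.lattice
  ker : ∀ z, mu * z ∈ M.lattice ↔ z ∈ L.lattice ∨ z - w ∈ L.lattice

/-- the parameter of a point of order two -/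
def par (L : PeriodPair) (w : ℂ) : ℂ := 8 + 2 / xn L w

/-- (VEL) the quotient by a point of order two. `e = ℘(w)`, `t = 3e² - g₂/4`.

Uses `Pool.Agent.MUXU.tu_ISO : Su_ISO`, `tu_DER : Su_DER`. PROOF. (ISO) with `R = {w}` (`mu L ⊆ M`: `ker`): `A` monic of degree two,
`B = C(mu²) (X - e)`, `IsoP`, `OdeP`. Write `A = X² + aX + b`. `4X³ - g₂X - g₃ = 4(X-e)(X² + eX + e² - g₂/4)` (`e` is a root: `derivWeierstrassP_sq` and
`b_ZER`: `℘'(w) = 0` as `2w ∈ L`). `A'B - AB' = mu²(X² - 2eX - ae - b)`. Insert in `OdeP` and cancel `mu⁴ (X - e)`: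
`4(X² - 2eX - ae - b)²(X² + eX + e² - g₂/4) = 4A³ - mu⁴ g₂(M) A (X-e)² - mu⁶ g₃(M) (X-e)³`.
At `X = e`: `(e² + ae + b)²(3e² - g₂/4) = A(e)³`, `A(e) = e² + ae + b ≠ 0` (coprime to `B`): `A(e) = t`, so `t ≠ 0`. Coefficient of `X⁵`: `-12e = 12a`. So
`A = X² - eX + t`, and the coefficients of `X⁴` and `X³` give the two formulas for `g₂(M)`, `g₃(M)`. `℘ z ≠ e` if `mu z ∉ M`, `z ∉ L` (`b_NEQ`).
`℘(z + w)`: `b_ADD` with `℘'(w) = 0`: `℘(z+w) = -℘ z - e + ℘'(z)²/(4(℘ z - e)²)`. The formula for `℘'` is (DER). -/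
def S2_VEL : Prop :=
  ∀ (L M : PeriodPair) (mu w : ℂ), Two L M mu w →
    3 * L.weierstrassP w ^ 2 - L.g₂ / 4 ≠ 0 ∧
    mu ^ 4 * M.g₂ = 60 * L.weierstrassP w ^ 2 - 4 * L.g₂ ∧
    mu ^ 6 * M.g₃ = 88 * L.weierstrassP w ^ 3 - 8 * L.weierstrassP w * L.g₂ ∧
    ∀ z, mu * z ∉ M.lattice →
      L.weierstrassP z - L.weierstrassP w ≠ 0 ∧
      L.weierstrassP (z + w) = L.weierstrassP w +
        (3 * L.weierstrassP w ^ 2 - L.g₂ / 4) / (L.weierstrassP z - L.weierstrassP w) ∧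
      mu ^ 2 * M.weierstrassP (mu * z) = L.weierstrassP z +
        (3 * L.weierstrassP w ^ 2 - L.g₂ / 4) / (L.weierstrassP z - L.weierstrassP w) ∧
      mu ^ 3 * M.derivWeierstrassP (mu * z) = L.derivWeierstrassP z *
        (1 - (3 * L.weierstrassP w ^ 2 - L.g₂ / 4) /
          (L.weierstrassP z - L.weierstrassP w) ^ 2)

/-- (NRM) the case of normalised lattices.

Uses VEL. PROOF. `g₂ ≠ 0` for `L` and `M`: otherwise `g₃ = 0`, against `b_DSC` (`g₂³ ≠ 27g₃²`). `κ ≠ 0`: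
`g₂³ - 27g₃² = g₂²(12g₂ - 1)/12`. `e = xn L w` is a root of `x³ + x²/4 - 36κx - κ` (`℘ = e + 1/12`, `g₂ = (1+1728κ)/12`, `g₃ = -g₂/18`),
so `e ≠ 0`; `s = 8 + 2/e`, i.e. `s ≠ 8`, `e = 2/(s-8)`. `κ(36e+1) = e²(e + 1/4)`; `36e + 1 = 0` would give `e + 1/4 = 0`, impossible; so `s + 64 ≠ 0` (`36e+1 = (s+64)/(s-8)`),
`κ = s/((s-8)²(s+64))`, `s ≠ 0`. `g₂ = (s+16)³/(12(s-8)²(s+64))`, so `s + 16 ≠ 0`. `℘(w) = (s+16)/(12(s-8))`, (VEL):
`mu⁴ g₂(M) = (s+16)²(s+256)/(12(s-8)²(s+64))`, `mu⁶ g₃(M) = -(s+16)³(s-512)/(216(s-8)³(s+64))`; both not zero: `s + 256 ≠ 0`, `s - 512 ≠ 0`.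
`g₂(M) = -18g₃(M)`: `mu² = -18 (mu⁶g₃(M))/(mu⁴g₂(M))`, and `12g₂(M) = (s+256)³/((s-512)²(s+64))`,
`(s+256)³ - (s-512)²(s+64) = 1728s²`. `t = 3e² + e/2 - 36κ = (s+16)²/((s-8)²(s+64))` in the variable `xn L w`
(`3℘(w)² - g₂/4` is the same number). Last formula: (VEL) with `℘ = x + 1/12` on both sides. -/
def S2_NRM : Prop :=
  ∀ (L M : PeriodPair) (mu w : ℂ), Two L M mu w → L.g₂ = -18 * L.g₃ → M.g₂ = -18 * M.g₃ →
    par L w ≠ 0 ∧ par L w - 8 ≠ 0 ∧ par L w + 64 ≠ 0 ∧ par L w + 16 ≠ 0 ∧ par L w + 256 ≠ 0 ∧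
    par L w - 512 ≠ 0 ∧ kap L ≠ 0 ∧
    xn L w = 2 / (par L w - 8) ∧
    kap L = par L w / ((par L w - 8) ^ 2 * (par L w + 64)) ∧
    kap M = par L w ^ 2 / ((par L w - 512) ^ 2 * (par L w + 64)) ∧
    mu ^ 2 = (par L w + 16) * (par L w - 512) / ((par L w - 8) * (par L w + 256)) ∧
    ∀ z, mu * z ∉ M.lattice → xn L z - xn L w ≠ 0 ∧
      mu ^ 2 * xn M (mu * z) = xn L z +
        (par L w + 16) ^ 2 / ((par L w - 8) ^ 2 * (par L w + 64)) / (xn L z - xn L w) +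
        (1 - mu ^ 2) / 12

/-- (PAR) the parameter without the quotient lattice.

PROOF. As the first part of (NRM). -/
def S2_PAR : Prop :=
  ∀ (L : PeriodPair) (w : ℂ), w ∉ L.lattice → 2 * w ∈ L.lattice → L.g₂ = -18 * L.g₃ →
    par L w ≠ 0 ∧ par L w - 8 ≠ 0 ∧ par L w + 64 ≠ 0 ∧ kap L ≠ 0 ∧
    xn L w = 2 / (par L w - 8) ∧
    kap L = par L w / ((par L w - 8) ^ 2 * (par L w + 64))

/-- (DUA) the dual isogeny.

Uses NRM. PROOF. Kernel: let `u = mu z` (`mu ≠ 0`). `(2/mu) u = 2z`, and `2 z ∈ L` iff `z` is congruent to one of `0, w, w', w + w'` modulo `L` (the points of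
order two of `ℂ/L`: `L.lattice` has a basis, or `b_NUM`/`b_NEQ`), iff `mu z ∈ M` or `mu z - mu w' ∈ M` (`ker`). `mu w' ∉ M`: `w' ∉ L`, `w' - w ∉ L`. Parameter: by (NRM) for `z = w'`, with
`x(w') + x(w + w') = -1/4 - x(w)` (the three roots of `x³ + x²/4 - 36κx - κ` are the `x` of the three points of order two; or: `x(w+w') - x(w) = t/(x(w') - x(w))` and
`t = (x(w) - x(w'))(x(w) - x(w+w'))`; simplest: `x(w')` is a root of the quadratic `x² + (e + 1/4)x + e² + e/4 - 36κ`, `e = x(w)`, so that `x(w') + t/(x(w') - e) = -1/4 - 2e`, because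
`x(w')(x(w') - e) + t + (1/4 + 2e)(x(w') - e) = 0`):
`mu² xn M (mu w') = -1/6 - 2e - mu²/12`, so `xn M (mu w') = -s/(4(s - 512))`, `8 + 2/xn M (mu w') = 4096/s`, `s = par L w`. -/
def S2_DUA : Prop :=
  ∀ (L M : PeriodPair) (mu w w' : ℂ), Two L M mu w → L.g₂ = -18 * L.g₃ → M.g₂ = -18 * M.g₃ →
    w' ∉ L.lattice → 2 * w' ∈ L.lattice → w' - w ∉ L.lattice →
    Two M L (2 / mu) (mu * w') ∧ par M (mu * w') = 4096 / par L w

/-- (JEQ) two different points of order two of the same lattice.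

Uses PAR. PROOF. `x(w) ≠ x(w')` (`b_NEQ`: `w - w' ∉ L`, `w + w' = w - w' + 2w' ∉ L`), so `s ≠ s'`. `1/κ`: `(s-8)²(s+64)/s = s² + 48s - 960 + 4096/s` takes the
same value at `s` and `s'`; the difference is `(s - s')(s + s' + 48 - 4096/(s s'))`. -/
def S2_JEQ : Prop :=
  ∀ (L : PeriodPair) (w w' : ℂ), w ∉ L.lattice → 2 * w ∈ L.lattice → w' ∉ L.lattice →
    2 * w' ∈ L.lattice → w' - w ∉ L.lattice → L.g₂ = -18 * L.g₃ →
    par L w * par L w' * (par L w + par L w' + 48) = 4096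

/-- the recursion of the parameters along a chain -/
def Rec (s : ℕ → ℂ) : Prop :=
  ∀ i, s i ≠ 0 ∧ s (i + 1) ^ 2 + (48 + 4096 / s i) * s (i + 1) = s i

/-- (CHN) periodic chains: valuations.

PROOF. `a_i = v(s_i)`, `θ = v(2) < 1`. (a) Let `a_i > θ⁸`, `b = a_(i+1)`. `v(48 + 4096/s_i) ≤ θ⁴` (`v 48 = θ⁴ v 3 ≤ θ⁴`, `v(4096/s_i) = θ¹²/a_i < θ⁴`). If `b² ≠ a_i` then, from the recursion
(`v(s_(i+1)² - s_i) = max`), `max(b², a_i) ≤ θ⁴ b`: `b ≤ θ⁴` and `a_i ≤ θ⁴ b ≤ θ⁸`, contradiction. So `a_(i+1)² = a_i`; `a_(i+1) > θ⁸` too (`a_(i+1) ≤ θ⁸` gives `a_i ≤ θ¹⁶ ≤ θ⁸`).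
So if one `a_i > θ⁸` (by periodicity `i` may be taken anywhere: all later ones, hence all, are `> θ⁸`) then `a_(i+h)^(2^h) = a_i = a_(i+h)` and `a_i = 1`: all `a_i = 1`.
(b) Otherwise all `a_i ≤ θ⁸ < θ⁴`. Put `r_i = 4096/s_i`, `v(r_i) = θ¹²/a_i ≥ θ⁴ > θ⁸`. The recursion is `r_i² + (48 + 4096/r_(i+1)) r_i = r_(i+1)`. As in (a) `v(r_i)² = v(r_(i+1))`;
periodicity: `v(r_i) = 1`, `a_i = θ¹²`. -/
def S2_CHN : Prop :=
  ∀ (V : ValuationSubring ℂ) (s : ℕ → ℂ) (h : ℕ), V.valuation 2 < 1 → Rec s → 0 < h →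
    (∀ i, s (i + h) = s i) →
    (∀ i, V.valuation (s i) = 1) ∨ ∀ i, V.valuation (s i) = V.valuation 2 ^ 12

/-- (CIN) periodic chains of units: injectivity modulo `V`.

PROOF. Replace `h, h'` by the common period `N = h h'`. `d_i = s_i - s'_i`. `(s_0² - s'_0²)`: `(s+16)³/s = s² + 48s + 768 + 4096/s`, so
`v(J(s_0) - J(s'_0)) < 1` and units give `v(s_0² - s'_0²) < 1` (`v 48, v(4096) < 1`), `(s_0 - s'_0)² = s_0² - s'_0² - 2s'_0(s_0 - s'_0)`, so `v(d_0) < 1`. By the recursion modulo the maximal ideal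
(`s_(i+1)² ≡ s_i`) in the same way `v(d_i) < 1` implies `v(d_(i+1)) < 1`: all `v(d_i) < 1`. Subtract the recursions:
`d_i = d_(i+1)(s_(i+1) + s'_(i+1) + 48) + 4096(s_(i+1)/s_i - s'_(i+1)/s'_i)`, and `s_(i+1)/s_i - s'_(i+1)/s'_i = (d_(i+1)s'_i - s'_(i+1)d_i)/(s_i s'_i)`. With
`ρ_i = max(v(s_(i+1) + s'_(i+1) + 48), v(2)) < 1` (`s + s' = 2s' + d`): `v(d_i) ≤ max(ρ_i v(d_(i+1)), v(4096) v(d_i))`, so `v(d_i) ≤ ρ_i v(d_(i+1))`. If `d_0 ≠ 0` then all `d_i ≠ 0` with `i ≤ N` and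
`v(d_0) < v(d_1) < ... < v(d_N) = v(d_0)`, contradiction. -/
def S2_CIN : Prop :=
  ∀ (V : ValuationSubring ℂ) (s s' : ℕ → ℂ) (h h' : ℕ), V.valuation 2 < 1 → Rec s → Rec s' →
    0 < h → 0 < h' → (∀ i, s (i + h) = s i) → (∀ i, s' (i + h') = s' i) →
    (∀ i, V.valuation (s i) = 1) → (∀ i, V.valuation (s' i) = 1) →
    V.valuation ((s 0 + 16) ^ 3 / s 0 - (s' 0 + 16) ^ 3 / s' 0) < 1 → s 0 = s' 0

/-- (CQE) normalised lattices exist for every ideal; homothetic normalised lattices are equal; the class group is finite. -/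
structure LatFacts (A B : ℤ) : Prop where
  /-- every nonzero ideal has a normalised lattice (`g₂, g₃ ≠ 0` because `O` contains no root of unity except `1, -1`) -/
  ex : ∀ b : Ideal (OO A B), b ≠ ⊥ → ∃ (L : PeriodPair) (om : ℂ), IsNL b L om
  /-- two lattices of the same class -/
  eq : ∀ (b b' : Ideal (OO A B)) (L L' : PeriodPair) (om om' : ℂ) (x y : OO A B), IsNL b L om →
    IsNL b' L' om' → x ≠ 0 → y ≠ 0 → sp x * b = sp y * b' →
    L.lattice = L'.lattice ∧ (om' * emb x = om * emb y ∨ om' * emb x = -(om * emb y))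
  /-- some power of every ideal is principal -/
  fin : ∀ b : Ideal (OO A B), b ≠ ⊥ → ∃ (h : ℕ) (x : OO A B), 0 < h ∧ x ≠ 0 ∧ b ^ h = sp x

/-- (CH2) the chain of `P`-isogenies.

Uses DUA, JEQ, NRM. PROOF. Let `Q` be the ideal of norm two conjugate to `P`: `P Q = (2)` (`Q = cjI P`; in the case `p = 2` one has `B = 1`, `A` even, the ideals of norm two are
`span {2, ⟨0,1⟩}` and `span {2, ⟨1,-1⟩}`, with product `span {2}`). `N i` = normalised lattice of the ideal `Q^i b` (`LatFacts.ex`), with `om_i`, `N 0 = L`, `om_0 = om`. For `z ∈ ℂ`: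
`P z ⊆ N i` iff `z ∈ om_i (Q^(i+1) b)/2` (`P z ⊆ om_i Q^i b` iff `2z ∈ Q P z ...`: multiply by `Q`, resp. by `P`), iff `mu_i z ∈ N (i+1)` with `mu_i = 2 om_(i+1)/om_i`. The group `{z : P z ⊆ N i}/N i` has two elements
(`(Q^(i+1) b/2)/(Q^i b)` is isomorphic to `c/Pc`, `c = Q^(i+1)b/2`, with `nI P = 2` elements: `c` is invertible); let `w_i` be the nonzero one: `Two (N i) (N (i+1)) mu_i w_i`. Let `w'` be another point of
order two of `N i`. `mu_i w'` is killed by `Q` (`Q mu_i w' ⊆ N (i+1)` iff `P Q w' ⊆ N i`, `P Q = (2)`), not zero, and not killed by `P` (otherwise, `P + Q = O`, it would be zero), so it is not congruent to `w_(i+1)`. (DUA): its parameter is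
`4096/s_i`, (JEQ) for `w_(i+1)` and `mu_i w'`: `s_(i+1) (4096/s_i)(s_(i+1) + 4096/s_i + 48) = 4096`, that is `Rec`. Let `Q^h = (x)` (`LatFacts.fin`). `N (i+h)` and `N i` belong to the ideals `x Q^i b` and `Q^i b`: the same lattice
(`LatFacts.eq` with `sp 1 * (Q^(i+h) b) = sp x * (Q^i b)`), `om_(i+h) x = ± om_i`; so `par` is the same (`w_(i+h) ≡ w_i`, `℘` is periodic and depends only on the lattice).
`∏_(i<h) mu_i = 2^h om_h/om_0 = ± 2^h/x`, and `x xbar = ± 2^h`.. precisely: `nm x = 2^h` (norm of `Q^h`; `nm x` is positive), so it is `± emb (star x)` and `sp (star x) = cjI(Q^h) = P^h`. Put `y = star x`. -/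
def S2_CH2 : Prop :=
  ∀ (A B : ℤ), CaseP 2 A B → (8 : ℤ) ∣ B ^ 2 + 4 * A - 1 → LatFacts A B →
    ∀ (P : Ideal (OO A B)), IsPN 2 P → ∀ (b : Ideal (OO A B)) (L : PeriodPair) (om : ℂ),
    IsNL b L om →
    ∃ (h : ℕ) (y : OO A B) (N : ℕ → PeriodPair) (mu w : ℕ → ℂ), 0 < h ∧ P ^ h = sp y ∧ N 0 = L ∧
      (∀ i, ∃ (b' : Ideal (OO A B)) (om' : ℂ), IsNL b' (N i) om') ∧
      (∀ i, IsQ P (N i) (N (i + 1)) (mu i)) ∧
      (∀ i, Two (N i) (N (i + 1)) (mu i) (w i)) ∧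
      (∀ i, Tor P (N i) (w i)) ∧
      (∀ i, (N (i + h)).lattice = (N i).lattice) ∧
      Rec (fun i => par (N i) (w i)) ∧
      (∀ i, par (N (i + h)) (w (i + h)) = par (N i) (w i)) ∧
      (∏ i ∈ Finset.range h, mu i = emb y ∨ ∏ i ∈ Finset.range h, mu i = -emb y)

/-- `V` lies above 2 and above the prime ideal `P` of norm two -/
structure Above2 {A B : ℤ} (P : Ideal (OO A B)) (V : ValuationSubring ℂ) : Prop where
  two : V.valuation 2 < 1
  lt : ∀ x ∈ P, V.valuation (emb x) < 1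
  one : ∀ x ∉ P, V.valuation (emb x) = 1

/-- (GD2) GOOD ORDINARY REDUCTION AT THE PLACES ABOVE 2.

Uses CHN, CH2, NRM, PAR. PROOF. Let `P` be the prime under `V`, `Q` the other prime of norm two, `w`, `w'` nonzero points of `ℂ/L` killed by `P`, `Q`. (CH2) for `P`, (CHN): all `v(s_i) = 1` or all `v(s_i) = θ¹²`.
From (NRM): `v(mu_i)² = 1` in the first case and `θ⁴ θ⁹/(θ³ θ⁸) = θ²` in the second (`v(s+16) = θ⁴`, `v(s-512) = θ⁹`, `v(s-8) = θ³`, `v(s+256) = θ⁸`). The product of the `mu_i` has the valuation `v(emb y) < 1`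
(`y ∈ P^h ⊆ P`), so it is the second case and `v(mu_i) = θ`. For `Q`: `v(emb y) = 1` (`y ∉ P`: `sp y = Q^h`, `Q^h` is not contained in the prime ideal `P ≠ Q`; `one`), so the first case holds (in the second the product would be `θ^h < 1`).
(1) `κ = s/((s-8)²(s+64))` with `s = par L w'` a unit, `v(s-8) = v(s+64) = 1`. (2), (3): the parameters at `i = 0`; `x(w) = 2/(s-8)`. (4) a given `mu`, `M` with `IsQ P L M mu`, `M` normalised: `mu_0⁻¹ mu` maps `N 1` onto `M` (`mu_0 z ∈ N 1` iff `mu z ∈ M`),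
both normalised, so `g₂ = c^(-4) g₂`, `g₃ = c^(-6) g₃`: `c² = 1`. The same for `Q`. (5) `1 + 1728κ`: `v(1728κ) < 1`. -/
def S2_GD2 : Prop :=
  ∀ (A B : ℤ), CaseP 2 A B → (8 : ℤ) ∣ B ^ 2 + 4 * A - 1 → LatFacts A B →
    ∀ (P Q : Ideal (OO A B)) (V : ValuationSubring ℂ), IsPN 2 P → IsPN 2 Q → P ≠ Q → Above2 P V →
    ∀ (b : Ideal (OO A B)) (L : PeriodPair) (om : ℂ), IsNL b L om →
    V.valuation (kap L) = 1 ∧ V.valuation (1 + 1728 * kap L) = 1 ∧
    (∀ w, w ∉ L.lattice → Tor P L w → V.valuation (par L w) = V.valuation 2 ^ 12 ∧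
      V.valuation (xn L w) * V.valuation 2 ^ 2 = 1) ∧
    (∀ w, w ∉ L.lattice → Tor Q L w → V.valuation (par L w) = 1 ∧
      V.valuation (xn L w) = V.valuation 2) ∧
    (∀ (b' : Ideal (OO A B)) (M : PeriodPair) (om' mu : ℂ), IsNL b' M om' → IsQ P L M mu →
      V.valuation mu = V.valuation 2) ∧
    (∀ (b' : Ideal (OO A B)) (M : PeriodPair) (om' mu : ℂ), IsNL b' M om' → IsQ Q L M mu →
      V.valuation mu = 1)

/-- (IN2) different lattices have incongruent `κ` modulo `V`.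

Uses CH2, GD2, CIN. PROOF. `v(κ) = v(κ') = 1` (GD2), so `v(1/κ - 1/κ') < 1`, `1/κ = J(s) - 1728`. Take the chains (CH2) of the prime `Q` (not below `V`) for `L` and `L'`: all parameters are units (GD2 for all `N i`). (CIN): `s_0 = s'_0`, so
`κ(L) = κ(L')`, so `g₂` and `g₃` are equal and the lattices are (`Pool.Agent.MUXU.tu_DET`, with its hypothesis). -/
def S2_IN2 : Prop :=
  ∀ (A B : ℤ), CaseP 2 A B → (8 : ℤ) ∣ B ^ 2 + 4 * A - 1 → LatFacts A B →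
    ∀ (P Q : Ideal (OO A B)) (V : ValuationSubring ℂ), IsPN 2 P → IsPN 2 Q → P ≠ Q → Above2 P V →
    ∀ (b b' : Ideal (OO A B)) (L L' : PeriodPair) (om om' : ℂ), IsNL b L om → IsNL b' L' om' →
    V.valuation (kap L - kap L') < 1 → L.lattice = L'.lattice

/-! ### The model `Y² + xY = x³ - 36κx - κ`, `Y = (℘' - x)/2` -/

/-- the second coordinate of the model with good reduction at 2 -/
def y2 (L : PeriodPair) (z : ℂ) : ℂ := yy L z - xn L z / 2

/-- the model -/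
def W2 (k : ℂ) : Affine ℂ := ⟨1, 0, 0, -36 * k, -k⟩

/-- good reduction at `V`, with uniformisation; any residue characteristic -/
structure GRG (V : ValuationSubring ℂ) (W : Affine ℂ) (L : PeriodPair)
    (X Y : ℂ → ℂ) (ξ : ℂ →+ W.Point) : Prop where
  int : Pool.Agent.MUXG.IntG V.valuation W
  disc : V.valuation W.Δ = 1
  some : ∀ z ∉ L.lattice, ∃ h, ξ z = Affine.Point.some (X z) (Y z) h
  zero : ∀ z ∈ L.lattice, ξ z = 0

/-- (GR2) normalised lattices have good reduction in this model where `κ` and `1 + 1728κ` are units.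

PROOF. The curve `WN (kap L)` (`y² = x³ + x²/4 - 36κx - κ`) and its homomorphism `(xn, yy)`: as `A_EQN`, `A_LAW`, `A_XI` of `Pool/Agent/MU3/` or `U_XIL.lean` (`tu_XIL`, the curve `EL L` in the coordinate `℘`), then change variables:
the map `(x, y) ↦ (x - 1/12, y - (x - 1/12)/2)` from `EL L` to `W2 (kap L)` is a homomorphism (check on the chord and tangent formulas: `Affine.Point.add_some`, slope `l ↦ l - 1/2`, as in `A_LAW.lean`; or Mathlib's
variable change if it has the isomorphism on points). `g₂ = (1+1728κ)/12`, `g₃ = -g₂/18`. Discriminant of `W2 κ`: `b₂ = 1`, `b₄ = -72κ`, `b₆ = -4κ`, `b₈ = -κ - 1296κ²`, `Δ = κ(1+1728κ)²` (`ring`). -/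
def S2_GR2 : Prop :=
  ∀ (V : ValuationSubring ℂ) (L : PeriodPair), L.g₂ = -18 * L.g₃ →
    V.valuation (kap L) = 1 → V.valuation (1 + 1728 * kap L) = 1 →
    ∃ ξ : ℂ →+ (W2 (kap L)).Point, GRG V (W2 (kap L)) L (xn L) (y2 L) ξ

/-- (E12) the kernel of reduction and the ideals (`P` the prime under `V`).

Uses GD2, GR2, IT2, NRM, `VG.lean` (the kernel is a group without torsion of order prime to the residue characteristic, for `GRG`). PROOF. (1) `j = 0`: (GD2), `v(xn L u) v(2)² = 1`, so `u` is in the kernel. Induction: `u` of exact order `P^(j+1)`, `j ≥ 1`,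
`mu : L → M` with `IsQ P L M mu`, `M` normalised (`LatFacts.ex`), `w` the point of order `P`, `s = par L w`, `v(s) = θ¹²`. (NRM) gives `x_M(mu z)(mu² x + b₀) = x² + a₁x + a₀`, `x = xn L z`, with
`b₀ = -mu² x(w)`, `v(b₀) = 1`, `a₁ = -x(w) + (1-mu²)/12`, `a₀ = t - x(w)(1-mu²)/12`; `v(a₁) < 1`, `v(a₀) < 1`: with `s` small
`(1-mu²)/12 = 2(31s+256)/((s-8)(s+256))` and `a₁ = -2/(s-8) + 2(31s+256)/((s-8)(s+256)) = 60s/((s-8)(s+256))`, of valuation `θ^(12+2-3-8) = θ³`;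
`a₀ = (s+16)²/((s-8)²(s+64)) - 4(31s+256)/((s-8)²(s+256)) = ((s+16)²(s+256) - 4(31s+256)(s+64))/((s-8)²(s+64)(s+256))`, numerator
`s³ + 164s² - 512s` (`(s+16)²(s+256) = s³ + 288s² + 8448s + 65536`, `4(31s+256)(s+64) = 124s² + 8960s + 65536`), valuation `≤ θ^(12+9)`, denominator `θ^(6+6+8)`: `v(a₀) ≤ θ`.
`mu u` has exact order `P^j` on `M`, so `X = x_M(mu u)` has `v(X)^(2^(j-1)) θ² = 1`, `1 < v(X) ≤ θ^(-2)`. Let `a = v(x(u))`. If `a ≤ 1`: the right side has valuation `≤ 1`, the left one `v(X) > 1` (`v(mu² x) < 1`): contradiction. So `a > 1`, right side `a²`; if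
`θ²a < 1`: `a² = v(X)` ✓.; if `θ²a ≥ 1`: `v(X) max(θ²a, 1) ≥ a²` gives `v(X) θ² ≥ a` (when `θ² a > 1`) or `v(X) ≥ a² ≥ θ^(-4)` (when `θ²a = 1`), impossible as `v(X)θ² ≤ 1 < a`, `v(X) ≤ θ^(-2)`.
(2) `u` in the kernel of reduction, killed by the ideal `m` prime to `P`. Let `N > 0` be an integer in `m`, `N = 2^i n`, `n` odd. `P Q = (2)`, `m + P^i = O`, so
`n Q^i = n Q^i (m + P^i) ⊆ m + (n P^i Q^i) = m + (N) = m`. `n u` is in the kernel of reduction and killed by `Q^i`. If `n u ∉ L` let `j < i` be maximal with `Q^j n u` not contained in `L`; some `c ∈ Q^j` has `w' = c n u ∉ L`, killed by `Q`, and `w'` is in the kernel of reduction ((IT2) for the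
isogeny `mu = c : L → L`); but `v(xn L w') = v(2) ≤ 1` (GD2). Contradiction; so `n u ∈ L`, `n` odd, and `u ∈ L` (no prime to 2 torsion in the kernel). -/
def S2_E12 : Prop :=
  ∀ (A B : ℤ), CaseP 2 A B → (8 : ℤ) ∣ B ^ 2 + 4 * A - 1 → LatFacts A B →
    ∀ (P Q : Ideal (OO A B)) (V : ValuationSubring ℂ), IsPN 2 P → IsPN 2 Q → P ≠ Q → Above2 P V →
    ∀ (b : Ideal (OO A B)) (L : PeriodPair) (om : ℂ), IsNL b L om →
    (∀ (j : ℕ) (u : ℂ), Tor (P ^ (j + 1)) L u → ¬ Tor (P ^ j) L u →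
      V.valuation (xn L u) ^ (2 ^ j) * V.valuation 2 ^ 2 = 1) ∧
    ∀ (m : Ideal (OO A B)) (u : ℂ), m ≠ ⊥ → IsCoprime m P → Tor m L u → InEn V L u → u ∈ L.lattice

/-- (IT2) isogenies are integral (`PAPER_X.md`, section 2, (INT)), in every residue characteristic.

Uses VG, Su_ISO. PROOF. Coordinates `X_L = ℘_L - c`, `X_M = ℘_M - c'`; representatives `R` of the kernel, `n = #R + 1`; (ISO), shifted: `A`, `B` polynomials, `A` monic of degree `n`, `B = mu² ∏_(q ∈ R) (T - X_L(q))`, `X_M(mu z) B(X_L z) = A(X_L z)`, and for `mu w ∉ M`: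
`A - X_M(mu w) B = (T - X_L(w)) ∏_(q ∈ R) (T - X_L(w + q))` (PFI). Claim: `A, B ∈ V[T]`. Otherwise let `lam` be a coefficient of maximal valuation, `v(lam) > 1`, `A = lam A₀`, `B = lam B₀`, with `A₀, B₀ ∈ V[T]`, not both zero modulo `m_V`. Let `l` be a prime number, `l ≥ 5`, `l ∤ n`, `v(l) = 1`. For
`w' ∈ M[l] - 0`, `mu w = w'`: if all `X_L(w + q)`, `q ∈ R ∪ {0}`, are in `V`, then `A - X_M(w') B` is in `V[T]`, so `A₀ ≡ X_M(w') B₀`; if this happens for two `w'` with incongruent `X_M(w')` then `B₀ ≡ 0 ≡ A₀`, contradiction. `M[l]` contains `w'₁, w'₂` with incongruent `X_M`, both of this kind: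
if `z = w + q` is in the kernel of reduction of `L`, `mu z = w'`, then `l z` is in the kernel of `mu`, `n l z ∈ L`, so `n z` is in the kernel of reduction and killed by `l`: `n z ∈ L`, `n w' ∈ M`, `w' ∈ M` (`l ∤ n`), contradiction. So every `w' ∈ M[l] - 0` is of this kind, and `w'`, `2w'` have incongruent `X_M` (`l ≥ 5`; `v_X_sub` for `M`).
Conclusions: the leading coefficient `mu²` of `B` is in `V`. If `X_L(z) ∉ V` then `v(A(x)) = v(x)^n`, `v(B(x)) ≤ v(x)^(n-1)`, so `v(X_M(mu z)) ≥ v(x) > 1` or `mu z ∈ M`. -/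
def S2_IT2 : Prop :=
  ∀ (V : ValuationSubring ℂ) (L M : PeriodPair) (c c' mu : ℂ) (YL YM : ℂ → ℂ),
    (∃ (W : Affine ℂ) (ξ : ℂ →+ W.Point), GRG V W L (fun z => L.weierstrassP z - c) YL ξ) →
    (∃ (W : Affine ℂ) (ξ : ℂ →+ W.Point), GRG V W M (fun z => M.weierstrassP z - c') YM ξ) →
    mu ≠ 0 → Isg L M mu → V.valuation mu ≤ 1 ∧
    ∀ z, (z ∈ L.lattice ∨ L.weierstrassP z - c ∉ V) →
      (mu * z ∈ M.lattice ∨ M.weierstrassP (mu * z) - c' ∉ V)

/-- (MU2) multipliers of ideals prime to `P`.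

Uses GR2, GD2, IT2. PROOF. `a^h = (x)` (`LatFacts.fin`), `x ∉ P`. Chain `N 0 = L, N 1 = M, ...` of lattices `N (i+1) = mu_i a⁻¹ N i` (`N i` belongs to `abar^i b`, as in (CH2)), `N h = N 0`, `∏ mu_i = ± emb x` up to the unit
(`om_h nm(x)..`: in any case `v = v(emb x) = 1`), all `v(mu_i) ≤ 1` (IT2): all are `1`. `mu` and `mu_0` differ by a sign. -/
def S2_MU2 : Prop :=
  ∀ (A B : ℤ), CaseP 2 A B → (8 : ℤ) ∣ B ^ 2 + 4 * A - 1 → LatFacts A B →
    ∀ (P Q : Ideal (OO A B)) (V : ValuationSubring ℂ), IsPN 2 P → IsPN 2 Q → P ≠ Q → Above2 P V →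
    ∀ (b b' a : Ideal (OO A B)) (L M : PeriodPair) (om om' mu : ℂ), IsNL b L om → IsNL b' M om' →
    a ≠ ⊥ → IsCoprime a P → IsQ a L M mu → V.valuation mu = 1

end

end Pool.Agent.MUX2
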