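import Pool.Agent.MUX.StXF

/-!
# MUX, block XF, module CHI (helper87): the character `chiQ` at integers prime to `D`
-/

set_option autoImplicit false

namespace Pool.Agent.MUXF

open _root_.MU3 Pool.Agent.MU3A Pool.Agent.MU3B Pool.Agent.MU3F Pool.Agent.MuSym OnePoint

namespace CHI

open NumberTheorySymbols

/-- `J(a | 4 a - 1) = 1` -/
lemma j_aux (a : ℕ) (ha : 0 < a) : jacobiSym (a : ℤ) (4 * a - 1) = 1 := by
  have hodd : Odd (4 * a - 1) := ⟨2 * a - 1, by omega⟩
  have h1 : jacobiSym (4 * (a : ℤ)) (4 * a - 1) = jacobiSym 1 (4 * a - 1) := by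
    apply jacobiSym.mod_left'
    have e : ((4 * a - 1 : ℕ) : ℤ) = 4 * a - 1 := by
      rw [Nat.cast_sub (by omega)]; push_cast; ring
    have e2 : (4 * (a : ℤ)) = 1 + ((4 * a - 1 : ℕ) : ℤ) * 1 := by rw [e]; ring
    rw [e2, Int.add_mul_emod_self_left]
  rw [jacobiSym.mul_left, jacobiSym.at_four hodd, one_mul, jacobiSym.one_left] at h1
  exact h1

lemma j_neg (a : ℕ) (ha : 0 < a) : jacobiSym (-(a : ℤ)) (4 * a - 1) = -1 := by
  have hodd : Odd (4 * a - 1) := ⟨2 * a - 1, by omega⟩
  have h := jacobiSym.neg (a : ℤ) hodd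
  rw [j_aux _ ha, mul_one] at h
  rw [h]
  apply ZMod.χ₄_nat_three_mod_four
  omega

lemma per_pos (a : ℕ) {n k : ℕ} (hn : Odd n) (hk : Odd k)
    (h : ((4 * a : ℕ) : ℤ) ∣ (n : ℤ) - k) :
    jacobiSym (-(a : ℤ)) n = jacobiSym (-(a : ℤ)) k := by
  rw [jacobiSym.mod_right _ hn, jacobiSym.mod_right _ hk]
  congr 1
  rw [Int.natAbs_neg, Int.natAbs_natCast]
  exact ((Nat.modEq_iff_dvd).2 h).symm

lemma per_neg (a : ℕ) (ha : 0 < a) {n k : ℕ} (hn : Odd n) (hk : Odd k)
    (h : ((4 * a : ℕ) : ℤ) ∣ (n : ℤ) + k) :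
    jacobiSym (-(a : ℤ)) n = -jacobiSym (-(a : ℤ)) k := by
  have hodd : Odd (4 * a - 1) := ⟨2 * a - 1, by omega⟩
  have h0 : (4 * a - 1) ≠ 0 := by omega
  have hk0 : k ≠ 0 := by rintro rfl; simp at hk
  have e1 : jacobiSym (-(a : ℤ)) ((4 * a - 1) * k) = -jacobiSym (-(a : ℤ)) k := by
    rw [jacobiSym.mul_right' _ h0 hk0, j_neg a ha]
    ring
  rw [← e1]
  apply per_pos a hn (hodd.mul hk)
  obtain ⟨t, ht⟩ := h
  have e : ((4 * a - 1 : ℕ) : ℤ) = 4 * a - 1 := by
    rw [Nat.cast_sub (by omega)]; push_cast; ring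
  refine ⟨t - k, ?_⟩
  rw [Nat.cast_mul (4 * a - 1) k, e]
  push_cast at ht ⊢
  linear_combination ht

end CHI

open CHI in
/-- (CHI) -/
theorem tx_CHI : Sx_CHI := by
  intro A B hQ n hn
  rcases hQ.hB with rfl | rfl
  · -- `B = 0`
    have hA : A < 0 := by have := hQ.neg; nlinarith
    obtain ⟨a, rfl⟩ : ∃ a : ℕ, A = -(a : ℤ) := ⟨A.natAbs, by omega⟩
    have ha : 0 < a := by omega
    have hD : absD (-(a : ℤ)) 0 = ((4 * a : ℕ) : ℤ) := by unfold absD; push_cast; ring
    rw [hD] at hn ⊢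
    have hc : ∀ d : ℤ, chiQ (-(a : ℤ)) 0 d = jacobiSym (-(a : ℤ)) d.natAbs * d.sign :=
      fun d => by simp [chiQ]
    have key : ∀ d : ℤ, IsCoprime d ((4 * a : ℕ) : ℤ) →
        Odd d.natAbs ∧ (-(a : ℤ)).gcd d.natAbs = 1 ∧ d ≠ 0 := by
      intro d hd
      have e4 : ((4 * a : ℕ) : ℤ) = 2 * (2 * a) := by push_cast; ring
      have e4' : ((4 * a : ℕ) : ℤ) = 4 * a := by push_cast; ring
      have h2 : IsCoprime d 2 := by
        rw [e4] at hd
        exact hd.of_mul_right_left
      have hodd : Odd d := by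
        rw [← Int.not_even_iff_odd]
        intro he
        have := (Int.isCoprime_iff_gcd_eq_one.1 h2)
        have h3 : (2 : ℤ) ∣ ((Int.gcd d 2 : ℕ) : ℤ) := Int.dvd_coe_gcd he.two_dvd dvd_rfl
        rw [this] at h3
        omega
      have hA' : IsCoprime d (a : ℤ) := by
        rw [e4'] at hd
        exact hd.of_mul_right_right
      refine ⟨Int.natAbs_odd.2 hodd, ?_, ?_⟩
      · have := Int.isCoprime_iff_gcd_eq_one.1 hA'.symm
        rw [Int.gcd_eq_natAbs] at this ⊢
        rw [Int.natAbs_neg, Int.natAbs_natCast, Int.natAbs_natCast]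
        rwa [Int.natAbs_natCast] at this
      · rintro rfl
        simp at hodd
    obtain ⟨ho, hg, h0⟩ := key n hn
    refine ⟨?_, ?_, ?_⟩
    · rw [hc]
      rcases jacobiSym.eq_one_or_neg_one hg with h | h <;>
        rcases lt_or_gt_of_ne h0 with h' | h' <;>
        simp [h, Int.sign_eq_neg_one_of_neg, Int.sign_eq_one_of_pos, h']
    · rw [hc, hc, Int.natAbs_neg, Int.sign_neg]
      ring
    · intro n' hd
      have hn' : IsCoprime n' ((4 * a : ℕ) : ℤ) := by
        obtain ⟨t, ht⟩ := hd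
        have : n' = n + ((4 * a : ℕ) : ℤ) * (-t) := by linear_combination -ht
        rw [this]
        exact IsCoprime.add_mul_left_left hn _
      obtain ⟨ho', hg', h0'⟩ := key n' hn'
      rw [hc, hc]
      rcases lt_or_gt_of_ne h0 with h' | h' <;> rcases lt_or_gt_of_ne h0' with h'' | h''
      · rw [Int.sign_eq_neg_one_of_neg h', Int.sign_eq_neg_one_of_neg h'']
        congr 1
        apply per_pos a ho' ho
        have e : ((n'.natAbs : ℕ) : ℤ) = -n' := by omega
        have e' : ((n.natAbs : ℕ) : ℤ) = -n := by omega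
        rw [e, e']
        have : -n' - -n = n - n' := by ring
        rwa [this]
      · rw [Int.sign_eq_neg_one_of_neg h', Int.sign_eq_one_of_pos h'']
        rw [per_neg a ha ho' ho]
        · ring
        have e : ((n'.natAbs : ℕ) : ℤ) = n' := by omega
        have e' : ((n.natAbs : ℕ) : ℤ) = -n := by omega
        rw [e, e']
        have : n' + -n = -(n - n') := by ring
        rw [this]
        exact (dvd_neg).2 hd
      · rw [Int.sign_eq_neg_one_of_neg h'', Int.sign_eq_one_of_pos h']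
        rw [per_neg a ha ho' ho]
        · ring
        have e : ((n'.natAbs : ℕ) : ℤ) = -n' := by omega
        have e' : ((n.natAbs : ℕ) : ℤ) = n := by omega
        rw [e, e']
        have : -n' + n = n - n' := by ring
        rwa [this]
      · rw [Int.sign_eq_one_of_pos h', Int.sign_eq_one_of_pos h'']
        congr 1
        apply per_pos a ho' ho
        have e : ((n'.natAbs : ℕ) : ℤ) = n' := by omega
        have e' : ((n.natAbs : ℕ) : ℤ) = n := by omega
        rw [e, e']
        have : n' - n = -(n - n') := by ring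
        rw [this]
        exact (dvd_neg).2 hd
  · -- `B = 1`
    have hneg := hQ.neg
    have hc : ∀ d : ℤ, chiQ A 1 d = jacobiSym d (absD A 1).toNat := fun d => by simp [chiQ]
    obtain ⟨D, hD⟩ : ∃ D : ℕ, absD A 1 = D := ⟨(absD A 1).toNat, by
      unfold absD; omega⟩
    have hD3 : D % 4 = 3 := by
      unfold absD at hD
      omega
    have hodd : Odd D := Nat.odd_iff.2 (by omega)
    rw [hD] at hn
    have hg : n.gcd (D : ℤ) = 1 := Int.isCoprime_iff_gcd_eq_one.1 hn
    simp only [hc, hD, Int.toNat_natCast]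
    refine ⟨jacobiSym.eq_one_or_neg_one hg, ?_, ?_⟩
    · rw [jacobiSym.neg n hodd, ZMod.χ₄_nat_three_mod_four hD3]
      ring
    · intro n' hd
      apply jacobiSym.mod_left'
      exact (Int.modEq_iff_dvd).2 hd

end Pool.Agent.MUXF
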