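import Pool.Agent.MUX.StXF

/-!
# MUX, block XF, module CNV: sums over `b / m b` and over `O / m`
-/

set_option autoImplicit false

namespace Pool.Agent.MUXF

open _root_.MU3 Pool.Agent.MU3A Pool.Agent.MU3B Pool.Agent.MU3F Pool.Agent.MuSym OnePoint
open scoped ComplexConjugate

noncomputable section

namespace Cnv

/-- the norm of an ideal lies in the ideal -/
lemma nI_mem {A B : ℤ} (b : Ideal (OO A B)) : ((nI b : ℕ) : OO A B) ∈ b := by
  rw [← Ideal.Quotient.eq_zero_iff_mem, map_natCast, ← nsmul_one]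
  exact card_nsmul_eq_zero'

end Cnv

/-- CNV, no hypotheses. -/
theorem tx_CNV : Sx_CNV := by
  intro A B _ b m _ hm hcop F hF
  have hN : ∀ x : OO A B, ((nI b : ℕ) : OO A B) * x ∈ b := fun x =>
    b.mul_mem_right x (Cnv.nI_mem b)
  obtain ⟨u, v, huv⟩ : ∃ u v : OO A B, u * ((nI b : ℕ) : OO A B) + v * (m : OO A B) = 1 := by
    obtain ⟨u, v, h⟩ := (Nat.isCoprime_iff_coprime.2 hcop : IsCoprime ((nI b : ℕ) : ℤ) (m : ℤ))
    refine ⟨(u : OO A B), (v : OO A B), ?_⟩
    exact_mod_cast congrArg (fun n : ℤ => (n : OO A B)) h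
  -- the class of an element
  have hmk : ∀ x y : b, (QuotientAddGroup.mk x : b ⧸ (nsmulAddMonoidHom (α := b) m).range) =
      QuotientAddGroup.mk y ↔ ∃ z ∈ b, (y : OO A B) = x + m * z := by
    intro x y
    rw [QuotientAddGroup.eq, AddMonoidHom.mem_range]
    constructor
    · rintro ⟨z, hz⟩
      refine ⟨z, z.2, ?_⟩
      have h1 := congrArg (fun t : b => (t : OO A B)) hz
      simp only [nsmulAddMonoidHom_apply, Submodule.coe_smul_of_tower, nsmul_eq_mul,
        Submodule.coe_add, NegMemClass.coe_neg] at h1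
      rw [h1]
      ring
    · rintro ⟨z, hz, h⟩
      refine ⟨⟨z, hz⟩, Subtype.ext ?_⟩
      simp only [nsmulAddMonoidHom_apply, Submodule.coe_smul_of_tower, nsmul_eq_mul,
        Submodule.coe_add, NegMemClass.coe_neg]
      rw [h]
      ring
  unfold sumB sumMod
  symm
  refine finsum_eq_of_bijective
    (fun q : OO A B ⧸ Ideal.span {(m : OO A B)} =>
      (QuotientAddGroup.mk (⟨((nI b : ℕ) : OO A B) * Quotient.out q, hN _⟩ : b) :
        b ⧸ (nsmulAddMonoidHom (α := b) m).range)) ⟨?_, ?_⟩ ?_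
  · intro q q' h
    obtain ⟨z, -, hz⟩ := (hmk _ _).1 h
    simp only at hz
    have h1 : Ideal.Quotient.mk (Ideal.span {(m : OO A B)}) (Quotient.out q') =
        Ideal.Quotient.mk (Ideal.span {(m : OO A B)}) (Quotient.out q) := by
      rw [Ideal.Quotient.eq, Ideal.mem_span_singleton]
      refine ⟨u * z + v * (Quotient.out q' - Quotient.out q), ?_⟩
      linear_combination u * hz - (Quotient.out q' - Quotient.out q) * huv
    have h2 : ∀ t : OO A B ⧸ Ideal.span {(m : OO A B)},
        Ideal.Quotient.mk (Ideal.span {(m : OO A B)}) (Quotient.out t) = t :=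
      fun t => Quotient.out_eq t
    rw [h2, h2] at h1
    exact h1.symm
  · intro t
    obtain ⟨y, rfl⟩ := QuotientAddGroup.mk_surjective t
    refine ⟨Ideal.Quotient.mk _ (u * y), ?_⟩
    rw [eq_comm, hmk]
    have h1 : Ideal.Quotient.mk (Ideal.span {(m : OO A B)})
        (Quotient.out (Ideal.Quotient.mk (Ideal.span {(m : OO A B)}) (u * y))) =
        Ideal.Quotient.mk (Ideal.span {(m : OO A B)}) (u * y) := Quotient.out_eq _
    rw [Ideal.Quotient.eq, Ideal.mem_span_singleton] at h1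
    obtain ⟨z, hz⟩ := h1
    refine ⟨((nI b : ℕ) : OO A B) * z - v * y, b.sub_mem (hN z) (b.mul_mem_left v y.2), ?_⟩
    simp only
    linear_combination ((nI b : ℕ) : OO A B) * hz + (y : OO A B) * huv
  · intro q
    have h1 := Quotient.out_eq (QuotientAddGroup.mk
      (⟨((nI b : ℕ) : OO A B) * Quotient.out q, hN _⟩ : b) :
        b ⧸ (nsmulAddMonoidHom (α := b) m).range)
    have h2 : (QuotientAddGroup.mk (Quotient.out (QuotientAddGroup.mk
      (⟨((nI b : ℕ) : OO A B) * Quotient.out q, hN _⟩ : b) :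
        b ⧸ (nsmulAddMonoidHom (α := b) m).range)) : b ⧸ (nsmulAddMonoidHom (α := b) m).range) =
        QuotientAddGroup.mk (⟨((nI b : ℕ) : OO A B) * Quotient.out q, hN _⟩ : b) := h1
    obtain ⟨z, hz, h3⟩ := (hmk _ _).1 h2
    exact (congrArg F h3).trans (hF _ (Subtype.mem _) z hz)

end

end Pool.Agent.MUXF
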