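import Pool.Agent.MUX.StXF

/-!
# MUX, block XF: module DCM, a sum over the ideal `b` as a sum over the classes modulo `m b`
-/

set_option autoImplicit false

namespace Pool.Agent.MUXF

open _root_.MU3 Pool.Agent.MU3A Pool.Agent.MU3B Pool.Agent.MU3F Pool.Agent.MuSym OnePoint
open scoped ComplexConjugate

noncomputable section

/-- DCM. -/
theorem tx_DCM (hALG : Sx_ALG) (hSMB : Sx_SMB) : Sx_DCM := by
  intro A B hc b m hb hm G hG
  obtain ⟨halg, hnrm, hint, -, -⟩ := hALG A B hc
  obtain ⟨hfin, -⟩ := hSMB A B hc b m hb hm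
  have hcancel : ∀ w w' : b, m • w = m • w' → w = w' := by
    intro w w' h
    have h0 : (m : OO A B) * (w : OO A B) = (m : OO A B) * (w' : OO A B) := by
      have h1 := congrArg (Subtype.val) h
      simpa [nsmul_eq_mul] using h1
    have h3 : (m : OO A B) * ((w : OO A B) - (w' : OO A B)) = 0 := by
      rw [mul_sub, h0, sub_self]
    have h4 : emb (m : OO A B) * emb ((w : OO A B) - (w' : OO A B)) = 0 := by
      rw [← (halg _ _).1, h3]
      exact (hnrm 0).1.2 rfl
    have h5 : emb (m : OO A B) ≠ 0 := by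
      have h6 := (hint (m : ℤ)).1
      have h7 : emb ((m : ℕ) : OO A B) = (m : ℂ) := by
        rw [← Int.cast_natCast (R := OO A B), h6]
        norm_cast
      rw [h7]
      exact_mod_cast hm
    have h8 := (hnrm _).1.1 ((mul_eq_zero.1 h4).resolve_left h5)
    exact Subtype.ext (sub_eq_zero.1 h8)
  let H : AddSubgroup b := (nsmulAddMonoidHom (α := b) m).range
  let φ : (b ⧸ H) × b → b := fun p => Quotient.out p.1 + m • p.2
  have hmk : ∀ p : (b ⧸ H) × b, (QuotientAddGroup.mk (φ p) : b ⧸ H) = p.1 := by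
    intro p
    have h1 : (QuotientAddGroup.mk (Quotient.out p.1) : b ⧸ H) = p.1 := Quotient.out_eq p.1
    have h2 : (QuotientAddGroup.mk (m • p.2) : b ⧸ H) = 0 := by
      rw [QuotientAddGroup.eq_zero_iff]
      exact ⟨p.2, rfl⟩
    show (QuotientAddGroup.mk (Quotient.out p.1 + m • p.2) : b ⧸ H) = p.1
    rw [QuotientAddGroup.mk_add, h1, h2, add_zero]
  have hbij : Function.Bijective φ := by
    constructor
    · intro p p' h
      have h1 : p.1 = p'.1 := by rw [← hmk p, ← hmk p', h]
      have h2 : Quotient.out p.1 + m • p.2 = Quotient.out p'.1 + m • p'.2 := h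
      rw [h1] at h2
      exact Prod.ext h1 (hcancel _ _ (add_left_cancel h2))
    · intro x
      have h1 : (QuotientAddGroup.mk (Quotient.out (QuotientAddGroup.mk x : b ⧸ H)) : b ⧸ H) =
          QuotientAddGroup.mk x := Quotient.out_eq (QuotientAddGroup.mk x : b ⧸ H)
      rw [QuotientAddGroup.eq] at h1
      obtain ⟨w, hw⟩ := h1
      refine ⟨((QuotientAddGroup.mk x : b ⧸ H), w), ?_⟩
      have hw' : m • w = -Quotient.out (QuotientAddGroup.mk x : b ⧸ H) + x := hw
      show Quotient.out (QuotientAddGroup.mk x : b ⧸ H) + m • w = x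
      rw [hw', add_neg_cancel_left]
  let e : (b ⧸ H) × b ≃ b := Equiv.ofBijective φ hbij
  have hsum : Summable (fun p => G ((e p : b) : OO A B)) :=
    (Equiv.summable_iff e (f := fun x : b => G (x : OO A B))).2 hG
  have := Fintype.ofFinite (b ⧸ H)
  rw [← Equiv.tsum_eq e (fun x : b => G (x : OO A B)), hsum.tsum_prod, tsum_fintype, sumB,
    finsum_eq_sum_of_fintype]
  refine Finset.sum_congr rfl fun q _ => tsum_congr fun w => ?_
  show G ((Quotient.out q + m • w : b) : OO A B) = G ((Quotient.out q : b) + m * (w : OO A B))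
  congr 1
  simp [nsmul_eq_mul]

end

end Pool.Agent.MUXF
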