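import Pool.Agent.MUX.StXF

/-!
# MUX, block XF: distribution relation for a lattice of finite index (DISX) (helper65)
-/

set_option autoImplicit false

namespace Pool.Agent.MUXF

open _root_.MU3 Pool.Agent.MU3A Pool.Agent.MU3B Pool.Agent.MU3F Pool.Agent.MuSym OnePoint
open scoped ComplexConjugate

noncomputable section

namespace DISX

/-- decomposition of a sum over `L'` by the classes of `L' / L` -/
theorem sum_reps {L L' : PeriodPair} {R : Finset ℂ} (hLL : ∀ w ∈ L.lattice, w ∈ L'.lattice)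
    (hmem : ∀ q ∈ R, q ∈ L'.lattice)
    (hinj : ∀ q ∈ R, ∀ q' ∈ R, q - q' ∈ L.lattice → q = q')
    (hsurj : ∀ v ∈ L'.lattice, ∃ q ∈ R, v - q ∈ L.lattice) (F : ℂ → ℂ)
    (hF : Summable (fun u : L'.lattice => F u)) :
    ∑ q ∈ R, ∑' w : L.lattice, F (q + w) = ∑' u : L'.lattice, F u := by
  classical
  let f : R × L.lattice → L'.lattice := fun x =>
    ⟨(x.1 : ℂ) + x.2, add_mem (hmem _ x.1.2) (hLL _ x.2.2)⟩
  have hf : Function.Bijective f := by
    constructor
    · rintro ⟨⟨q, hq⟩, ⟨w, hw⟩⟩ ⟨⟨q', hq'⟩, ⟨w', hw'⟩⟩ h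
      have h2 : q + w = q' + w' := congrArg Subtype.val h
      have h3 : q - q' = w' - w := by linear_combination h2
      have h4 : q = q' := hinj q hq q' hq' (by rw [h3]; exact sub_mem hw' hw)
      subst h4
      have h5 : w = w' := add_left_cancel h2
      subst h5
      rfl
    · rintro ⟨u, hu⟩
      obtain ⟨q, hq, h1⟩ := hsurj u hu
      refine ⟨(⟨q, hq⟩, ⟨u - q, h1⟩), Subtype.ext ?_⟩
      change q + (u - q) = u
      rw [add_sub_cancel]
  have h1 : ∑' u : L'.lattice, F u =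
      ∑' x : R × L.lattice, F ((x.1 : ℂ) + x.2) :=
    ((Equiv.ofBijective f hf).tsum_eq (fun u : L'.lattice => F u)).symm
  have h2 : Summable (fun x : R × L.lattice =>
      F ((x.1 : ℂ) + x.2)) := (Equiv.ofBijective f hf).summable_iff.2 hF
  have h3 : ∑' x : R × L.lattice, F ((x.1 : ℂ) + x.2) =
      ∑ q ∈ R, ∑' w : L.lattice, F (q + w) := by
    rw [h2.tsum_prod, ← Finset.sum_coe_sort R
      (fun q => ∑' w : L.lattice, F (q + w))]
    exact tsum_fintype (fun q : R => ∑' w : L.lattice, F ((q : ℂ) + w))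
  rw [h1, h3]

end DISX

open DISX in
/-- (DISX) -/
theorem tx_DISX (hSUM : St_SUM) (hINT : St_INT) : Sx_DISX := by
  intro L L' R hLL hmem hinj hsurj z
  have key : ∀ t : ℝ, 0 < t →
      ∑ q ∈ R, (∑' w : L.lattice,
          conj (z + q + w) * ((Real.exp (-(1 * t * ‖z + q + w‖ ^ 2)) : ℝ) : ℂ)) =
      ∑' w : L'.lattice,
        conj (z + w) * ((Real.exp (-(1 * t * ‖z + w‖ ^ 2)) : ℝ) : ℂ) := by
    intro t ht
    obtain ⟨u, hu, hb⟩ := hSUM L' (1 * t) (by positivity) 1 ‖z‖
    have hs : Summable (fun w : L'.lattice => conj (z + w) *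
        ((Real.exp (-(1 * t * ‖z + w‖ ^ 2)) : ℝ) : ℂ)) := by
      refine Summable.of_norm_bounded hu fun w => ?_
      have h1 := (hb w z le_rfl).1
      rw [pow_one] at h1
      rw [norm_mul, Complex.norm_conj, Complex.norm_real, Real.norm_eq_abs,
        abs_of_pos (Real.exp_pos _)]
      refine le_trans (mul_le_mul_of_nonneg_right ?_ (Real.exp_pos _).le) h1
      linarith
    have h2 := sum_reps hLL hmem hinj hsurj (fun u : ℂ => conj (z + u) *
        ((Real.exp (-(1 * t * ‖z + u‖ ^ 2)) : ℝ) : ℂ)) hs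
    rw [← h2]
    simp only [add_assoc]
  have hIq := fun q => hINT L 1 one_pos (z + q)
  have hI' := hINT L' 1 one_pos z
  have h1 : ∑ q ∈ R, ee L (z + q) / ((1 : ℝ) : ℂ) = ee L' z / ((1 : ℝ) : ℂ) := by
    rw [← hI'.2, Finset.sum_congr rfl (fun q _ => (hIq q).2.symm),
      ← MeasureTheory.integral_finset_sum _ (fun q _ => (hIq q).1)]
    exact MeasureTheory.setIntegral_congr_fun measurableSet_Ioi fun t ht => key t ht
  simpa only [Complex.ofReal_one, div_one] using h1

end

end Pool.Agent.MUXF
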