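import Pool.Agent.MUX.StXF

/-!
# MUX, block XF: the values of the symbol at all rational numbers (F4) (helper46)
-/

set_option autoImplicit false

namespace Pool.Agent.MUXF

open _root_.MU3 Pool.Agent.MU3A Pool.Agent.MU3B Pool.Agent.MU3F Pool.Agent.MuSym OnePoint
open scoped ComplexConjugate

theorem xf4_key (v : ℂ) (hv : v ≠ 0) (N : ℝ) (hN : N ≠ 0) :
    conj v / ((2 * Real.pi * ‖v‖ ^ 2 / N : ℝ) : ℂ) = N / (2 * Real.pi * v) := by
  have h1 : ((2 * Real.pi * ‖v‖ ^ 2 / N : ℝ) : ℂ) = 2 * Real.pi * (v * conj v) / N := by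
    rw [Complex.mul_conj, Complex.normSq_eq_norm_sq]
    push_cast
    ring
  have h2 : conj v ≠ 0 := (map_ne_zero _).mpr hv
  have h3 : (Real.pi : ℂ) ≠ 0 := by exact_mod_cast Real.pi_ne_zero
  have h4 : (N : ℂ) ≠ 0 := by exact_mod_cast hN
  rw [h1]
  field_simp

theorem tx_F4 (h2 : Sx_SMB) (h3 : Sx_IDL) (h4 : Sx_THD) (h5 : Pool.Agent.MU3B.St_INT) :
    Sx_F4 := by
  intro A B hc b L Om hL g e he m M hm hmg hM hMm β
  have hfin := (h2 A B hc b m hL.b_ne hm).1
  have hft : Fintype (b ⧸ (nsmulAddMonoidHom (α := b) m).range) := Fintype.ofFinite _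
  have hN0 : nI b ≠ 0 := (h3 A B hc b hL.b_ne).1
  have hNR : (nI b : ℝ) ≠ 0 := by exact_mod_cast hN0
  have hNpos : (0 : ℝ) < nI b := by exact_mod_cast Nat.pos_of_ne_zero hN0
  have hNC : (nI b : ℂ) ≠ 0 := by exact_mod_cast hN0
  have hmC : (m : ℂ) ≠ 0 := by exact_mod_cast hm
  have hOm := hL.om_ne
  have hv : (m : ℂ) / Om ≠ 0 := div_ne_zero hmC hOm
  have hc0 : (0 : ℝ) < 2 * Real.pi * ‖(m : ℂ) / Om‖ ^ 2 / nI b := by
    have := norm_pos_iff.mpr hv
    positivity
  set v : ℂ := (m : ℂ) / Om with hvdef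
  set c : ℝ := 2 * Real.pi * ‖v‖ ^ 2 / nI b with hcdef
  have hsum : ∀ F : OO A B → ℂ, sumB b m F =
      ∑ q : b ⧸ (nsmulAddMonoidHom (α := b) m).range, F (Quotient.out q : b) := fun F =>
    finsum_eq_sum_of_fintype _
  let K : OO A B → ℝ → ℂ := fun x t => ∑' w : L.lattice, conj (Om * emb x / m + w) *
    (Real.exp (-(c * t * ‖Om * emb x / m + w‖ ^ 2)) : ℝ)
  have hKint : ∀ x, MeasureTheory.IntegrableOn (K x) (Set.Ioi 0) := fun x =>
    (h5 L c hc0 _).1
  have hKval : ∀ x, ∫ t in Set.Ioi (0 : ℝ), K x t = ee L (Om * emb x / m) / c := fun x =>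
    (h5 L c hc0 _).2
  have hth : ∀ t ∈ Set.Ioi (0 : ℝ), thetaI b e (((β / M : ℚ) : ℂ) + t * Complex.I) =
      ∑ q : b ⧸ (nsmulAddMonoidHom (α := b) m).range,
        ((1 / 2) * (e (Quotient.out q : b) *
        ex (β * qb b (Quotient.out q : b) / M) * conj v)) * K (Quotient.out q : b) t := by
    intro t ht
    rw [h4 A B hc b L Om hL g e he m M hm hmg hM hMm β t ht, hsum, Finset.mul_sum]
    refine Finset.sum_congr rfl fun q _ => ?_
    simp only [K, hcdef, hvdef]
    ring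
  have hint : MeasureTheory.IntegrableOn (fun t : ℝ =>
      ∑ q : b ⧸ (nsmulAddMonoidHom (α := b) m).range,
        ((1 / 2) * (e (Quotient.out q : b) *
        ex (β * qb b (Quotient.out q : b) / M) * conj v)) * K (Quotient.out q : b) t)
        (Set.Ioi 0) :=
    MeasureTheory.integrable_finsetSum _ fun q _ => (hKint _).const_mul _
  refine ⟨hint.congr_fun (fun t ht => (hth t ht).symm) measurableSet_Ioi, ?_⟩
  have hI : ∫ t in Set.Ioi (0 : ℝ), thetaI b e (((β / M : ℚ) : ℂ) + t * Complex.I) =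
      ∑ q : b ⧸ (nsmulAddMonoidHom (α := b) m).range,
        ((1 / 2) * (e (Quotient.out q : b) *
        ex (β * qb b (Quotient.out q : b) / M) * conj v)) *
          (ee L (Om * emb ((Quotient.out q : b) : OO A B) / m) / c) := by
    rw [MeasureTheory.setIntegral_congr_fun measurableSet_Ioi hth,
      MeasureTheory.integral_finsetSum _ fun q _ => (hKint _).const_mul _]
    refine Finset.sum_congr rfl fun q _ => ?_
    rw [MeasureTheory.integral_const_mul, hKval]
  unfold IvI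
  rw [hI, hsum, Finset.mul_sum, Finset.mul_sum]
  refine Finset.sum_congr rfl fun q _ => ?_
  have h7 : (Real.pi : ℂ) ≠ 0 := by exact_mod_cast Real.pi_ne_zero
  have hkey : conj v / (c : ℂ) = nI b * Om / (2 * Real.pi * m) := by
    rw [hcdef, xf4_key v hv _ hNR, hvdef]
    push_cast
    field_simp
  generalize e ((Quotient.out q : b) : OO A B) = E
  generalize ex (β * qb b ((Quotient.out q : b) : OO A B) / M) = X
  generalize ee L (Om * emb ((Quotient.out q : b) : OO A B) / m) = Y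
  have h8 : -(2 * (Real.pi : ℂ)) * (1 / 2 * (E * X * conj v) * (Y / (c : ℂ))) =
      -(Real.pi : ℂ) * (E * X * Y) * (conj v / (c : ℂ)) := by
    ring
  rw [h8, hkey]
  field_simp

end Pool.Agent.MUXF
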