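import Pool.Agent.MUX.StXF
import Pool.Agent.MU3.F_F5

/-!
# MUX, block XF, module F5: Fourier transform of the values of the symbol
-/

set_option autoImplicit false

namespace Pool.Agent.MUXF

open _root_.MU3 Pool.Agent.MU3A Pool.Agent.MU3B Pool.Agent.MU3F Pool.Agent.MuSym OnePoint
open Pool.Agent.MU3F.F5aux
open scoped ComplexConjugate

noncomputable section

namespace F5x

variable {A B : ℤ}

theorem sm_mul (I : OO A B) [Finite (OO A B ⧸ Ideal.span {I})] (c : ℂ) (F : OO A B → ℂ) :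
    sumMod I (fun x => c * F x) = c * sumMod I F := by
  let _ : Fintype (OO A B ⧸ Ideal.span {I}) := Fintype.ofFinite _
  unfold sumMod
  rw [finsum_eq_sum_of_fintype, finsum_eq_sum_of_fintype, Finset.mul_sum]

theorem sm_sum (I : OO A B) [Finite (OO A B ⧸ Ideal.span {I})] (s : Finset ℕ)
    (F : ℕ → OO A B → ℂ) :
    sumMod I (fun x => ∑ b ∈ s, F b x) = ∑ b ∈ s, sumMod I (F b) := by
  let _ : Fintype (OO A B ⧸ Ideal.span {I}) := Fintype.ofFinite _
  unfold sumMod
  simp only [finsum_eq_sum_of_fintype]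
  rw [Finset.sum_comm]

end F5x

open F5x in
theorem tx_F5 (h1 : Sx_ALG) (h2 : Sx_IDL) (h4 : Sx_QB) (h6 : Sx_CNV) (h7 : Sx_F4)
    (h8 : St_PER) : Sx_F5 := by
  classical
  intro A B hAB b L Om hL g e he m M hm0 hmg hM0 hMm hcop
  obtain ⟨hal, hx, hz, hfin, hdom⟩ := h1 A B hAB
  have hb : b ≠ ⊥ := hL.b_ne
  obtain ⟨hN0, -⟩ := h2 A B hAB b hb
  obtain ⟨-, hq2, hq3⟩ := h4 A B hAB b hb
  have hmC : (m : ℂ) ≠ 0 := by exact_mod_cast hm0
  have hMC : (M : ℂ) ≠ 0 := by exact_mod_cast hM0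
  have hNC : ((nI b : ℕ) : ℂ) ≠ 0 := by exact_mod_cast hN0
  have hOm := hL.om_ne
  have hembN : ∀ n : ℕ, emb ((n : ℕ) : OO A B) = n := by
    intro n
    have := (hz n).1
    rw [Int.cast_natCast] at this
    rw [this]
    push_cast
    rfl
  have hmO : ((m : ℕ) : OO A B) ≠ 0 := by
    intro h0
    have h9 := ((hx _).1).2 h0
    rw [hembN] at h9
    exact hmC h9
  have hspan : Ideal.span {((m : ℕ) : OO A B)} ≠ ⊥ := by
    rw [Ne, Ideal.span_singleton_eq_bot]
    exact hmO
  have hF := hfin _ hspan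
  -- `e (N b)` is not zero
  have hbez : ∃ u v : ℤ, u * (nI b : ℤ) + v * (m : ℤ) = 1 := by
    have h9 : IsCoprime ((nI b : ℕ) : ℤ) (m : ℤ) := Nat.isCoprime_iff_coprime.2 hcop
    obtain ⟨u, v, huv⟩ := h9
    exact ⟨u, v, huv⟩
  have heN : e ((nI b : ℕ) : OO A B) ≠ 0 := by
    rw [he.supp]
    rw [Ideal.isCoprime_iff_exists]
    obtain ⟨u, v, huv⟩ := hbez
    refine ⟨(u : OO A B) * ((nI b : ℕ) : OO A B),
      Ideal.mul_mem_left _ _ (Ideal.mem_span_singleton_self _), (v : OO A B) * (m : OO A B),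
      Ideal.mul_mem_left _ _ hmg, ?_⟩
    have h9 := congrArg (fun z : ℤ => (z : OO A B)) huv
    push_cast at h9
    exact h9
  refine ⟨heN, fun c => ?_⟩
  -- periodicity
  set F : ℤ → OO A B → ℂ := fun β x => e x * ex (β * qb b x / M) * ee L (Om * emb x / m) with hFd
  have hper : ∀ β : ℤ, ∀ x ∈ b, ∀ y ∈ b, F β (x + m * y) = F β x := by
    intro β x hxb y hyb
    rw [hFd]
    have e1 : e (x + m * y) = e x := by
      apply he.per
      rw [add_sub_cancel_left]
      exact Ideal.mul_mem_right _ _ hmg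
    have e2 : ex (β * qb b (x + m * y) / M) = ex (β * qb b x / M) := by
      obtain ⟨k, hk⟩ := hq2 x hxb y hyb m
      rw [Int.cast_natCast] at hk
      obtain ⟨j, hj⟩ := hMm
      have hMq : (M : ℚ) ≠ 0 := by exact_mod_cast hM0
      have h9 : ((β : ℚ) * ((qb b (x + m * y) : ℤ) : ℚ) / (M : ℚ)) =
          β * qb b x / M + ((β * j * k : ℤ) : ℚ) := by
        rw [hk, hj]
        push_cast
        field_simp
      rw [h9, ex_add, (ex_eq_one _).2 ⟨_, rfl⟩, mul_one]
    have e3 : ee L (Om * emb (x + (m : OO A B) * y) / m) = ee L (Om * emb x / m) := by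
      have h9 : Om * emb (x + (m : OO A B) * y) / m = Om * emb x / m + Om * emb y := by
        rw [(hal _ _).2.1, (hal _ _).1, hembN]
        field_simp
      rw [h9]
      exact (h8 L).1 _ _ ((hL.mem _).2 ⟨y, hyb, rfl⟩)
    dsimp only
    rw [e1, e2, e3]
  -- values of the symbol
  have hPhi : ∀ β : ℕ, PhiI b e ∞ (((β / M : ℚ) : ℚ) : OnePoint ℚ) =
      (Om * nI b / (2 * m)) * (e ((nI b : ℕ) : OO A B)) * sumMod (m : OO A B) (fun x =>
        ex (β * (nI b * nm x) / M) * (e x * ee L (Om * nI b * emb x / m))) := by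
    intro β
    have h9 : PhiI b e ∞ (((β / M : ℚ) : ℚ) : OnePoint ℚ) = 0 - IvI b e ((β : ℚ) / M) := rfl
    have h10 := (h7 A B hAB b L Om hL g e he m M hm0 hmg hM0 hMm (β : ℤ)).2
    have h11 := h6 A B hAB b m hb hm0 hcop (F β) (hper β)
    rw [Int.cast_natCast] at h10
    have h12 : (fun x => e x * ex ((β : ℚ) * qb b x / M) * ee L (Om * emb x / m)) = F β := by
      rw [hFd]
      dsimp only
      rw [Int.cast_natCast]
    rw [h9, h10, h12, h11]
    have h13 : (fun x : OO A B => F β (((nI b : ℕ) : OO A B) * x)) = fun x =>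
        (e ((nI b : ℕ) : OO A B)) * (ex (β * (nI b * nm x) / M) *
          (e x * ee L (Om * nI b * emb x / m))) := by
      funext x
      rw [hFd]
      dsimp only
      rw [he.mul, hq3, (hal _ _).1, hembN]
      push_cast
      rw [show Om * (((nI b : ℕ) : ℂ) * emb x) / m = Om * nI b * emb x / m by ring]
      ring
    rw [h13, sm_mul]
    ring
  -- the Fourier transform
  have hsum : ∑ β ∈ Finset.range M, ex (-(β * c) / M) *
      PhiI b e ∞ (((β / M : ℚ) : ℚ) : OnePoint ℚ) =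
      (Om * nI b / (2 * m)) * (e ((nI b : ℕ) : OO A B)) * (M : ℂ) * sumMod (m : OO A B) (fun x =>
        if (M : ℤ) ∣ nI b * nm x - c then e x * ee L (Om * nI b * emb x / m) else 0) := by
    have h9 : ∀ β ∈ Finset.range M, ex (-(β * c) / M) *
        PhiI b e ∞ (((β / M : ℚ) : ℚ) : OnePoint ℚ) =
        (Om * nI b / (2 * m)) * (e ((nI b : ℕ) : OO A B)) * sumMod (m : OO A B) (fun x =>
          ex (β * (((nI b * nm x - c : ℤ) : ℚ) / M)) * (e x * ee L (Om * nI b * emb x / m))) := by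
      intro β _
      rw [hPhi β, mul_left_comm, ← sm_mul]
      congr 1
      congr 1
      funext x
      rw [← mul_assoc, ← ex_add]
      congr 2
      push_cast
      ring
    rw [Finset.sum_congr rfl h9, ← Finset.mul_sum, ← sm_sum, mul_assoc _ (M : ℂ)]
    congr 1
    rw [← sm_mul]
    congr 1
    funext x
    rw [← Finset.sum_mul, sum_ex M (Nat.pos_of_ne_zero hM0)]
    split_ifs
    · rfl
    · rw [zero_mul, mul_zero]
  rw [hsum]
  field_simp

end

end Pool.Agent.MUXF
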