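import Pool.Agent.MUX.StXF

/-!
# MUX, block XF: module F7 (helper7), the values of the symbol lie in a finitely generated group

Adapted from `Pool/Agent/MU3/F_F7.lean`.
-/

set_option autoImplicit false

namespace Pool.Agent.MUXF

open _root_.MU3 Pool.Agent.MU3A Pool.Agent.MU3B Pool.Agent.MU3F Pool.Agent.MuSym OnePoint
open scoped ComplexConjugate

noncomputable section

/-- the values of `chiQ` -/
lemma chiQ_mem (A B d : ℤ) : chiQ A B d ∈ ({-1, 0, 1} : Set ℤ) := by
  unfold chiQ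
  split_ifs
  · rcases jacobiSym.trichotomy d (absD A B).toNat with h | h | h <;> rw [h] <;> simp
  · rcases jacobiSym.trichotomy A d.natAbs with h | h | h <;> rw [h] <;>
      rcases lt_trichotomy d 0 with hd | hd | hd <;>
      simp [Int.sign_eq_neg_one_of_neg, Int.sign_eq_one_of_pos, hd]

/-- F7. -/
theorem tx_F7 (hBDD : Sx_BDD) (hFG : Sf_FG) : Sx_F7 := by
  intro A B hc b g e _ hg he N hN hs
  refine hFG N (nuQ e) (PhiI b e) hN hs ?_
  have h1 : (Set.range e).Finite := (hBDD A B hc g e hg he).1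
  have h2 : ({-1, 0, 1} : Set ℤ).Finite := Set.toFinite _
  refine (h2.image2 (fun (c : ℤ) (z : ℂ) => (c : ℂ) * z) h1).subset ?_
  rintro _ ⟨d, rfl⟩
  exact ⟨chiQ A B d, chiQ_mem A B d, e (d : OO A B), ⟨_, rfl⟩, rfl⟩

end

end Pool.Agent.MUXF
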