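import Pool.Agent.MUX.StXF

/-!
# MUX, block XF, module HU (helper23): the Hecke operator on the symbol

Adapted from `MU3/F_F3.lean`.
-/

set_option autoImplicit false

namespace Pool.Agent.MUXF

open _root_.MU3 Pool.Agent.MU3A Pool.Agent.MU3B Pool.Agent.MU3F Pool.Agent.MuSym OnePoint
open scoped ComplexConjugate

noncomputable section

namespace HU

/-- the relation for the integrals along the vertical lines -/
lemma main (hUL : Sx_UL) (hITG : Sx_ITG) (A B : ℤ) (hC : CQ A B) (b g P : Ideal (OO A B))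
    (e : OO A B → ℂ) (l : ℕ) (hb : b ≠ ⊥) (hg : g ≠ ⊥) (he : IsEI g e) (hP : P.IsPrime)
    (hPl : nI P = l) (hl : l.Prime) (hgP : g ≤ cjI P) (r : ℚ) :
    ∑ j ∈ Finset.range l, IvI b e ((r + j) / l) = IvI (b * P) e r := by
  have hl0 : (0 : ℝ) < (l : ℝ) := by exact_mod_cast hl.pos
  have hl1 : (l : ℂ) ≠ 0 := by exact_mod_cast hl.ne_zero
  have h1 : ∀ j ∈ Finset.range l, MeasureTheory.IntegrableOn
      (fun t : ℝ => thetaI b e ((((r + (j : ℚ)) / l : ℚ) : ℂ) + t * Complex.I)) (Set.Ioi 0) :=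
    fun j _ => hITG A B hC b g e hb hg he _
  unfold IvI
  rw [← Finset.mul_sum, ← MeasureTheory.integral_finsetSum _ h1]
  have h2 : ∫ t in Set.Ioi (0 : ℝ), ∑ j ∈ Finset.range l,
      thetaI b e ((((r + (j : ℚ)) / l : ℚ) : ℂ) + t * Complex.I) =
      ∫ t in Set.Ioi (0 : ℝ), (l : ℂ) *
        (fun s : ℝ => thetaI (b * P) e ((r : ℂ) + s * Complex.I)) (l * t) := by
    refine MeasureTheory.setIntegral_congr_fun measurableSet_Ioi fun t ht => ?_
    have ht0 : (0 : ℝ) < t := ht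
    have hz : 0 < ((r : ℂ) + (((l : ℝ) * t : ℝ) : ℂ) * Complex.I).im := by
      simp only [Complex.add_im, Complex.ratCast_im, Complex.mul_im, Complex.ofReal_re,
        Complex.I_im, mul_one, Complex.ofReal_im, Complex.I_re, mul_zero, add_zero, zero_add]
      positivity
    have h3 := hUL A B hC b g P e l hb hg he hP hPl hl hgP _ hz
    show ∑ j ∈ Finset.range l, thetaI b e ((((r + (j : ℚ)) / l : ℚ) : ℂ) + t * Complex.I) =
      (l : ℂ) * thetaI (b * P) e ((r : ℂ) + (((l : ℝ) * t : ℝ) : ℂ) * Complex.I)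
    rw [← h3]
    refine Finset.sum_congr rfl fun j _ => ?_
    congr 1
    push_cast
    field_simp
    ring
  rw [h2, MeasureTheory.integral_const_mul]
  have h4 := MeasureTheory.integral_comp_mul_left_Ioi
    (fun s : ℝ => thetaI (b * P) e ((r : ℂ) + s * Complex.I)) 0 (b := (l : ℝ)) hl0
  rw [h4, mul_zero, Complex.real_smul, Complex.ofReal_inv, Complex.ofReal_natCast,
    mul_inv_cancel_left₀ hl1]

lemma mobl (l : ℕ) (hl : l ≠ 0) (j : ℤ) (r : ℚ) :
    mob 1 j 0 l (r : OnePoint ℚ) = (((r + j) / l : ℚ) : OnePoint ℚ) := by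
  have hl' : (l : ℚ) ≠ 0 := by exact_mod_cast hl
  show (if ((0 : ℤ) : ℚ) * r + ((l : ℤ) : ℚ) = 0 then ∞ else
    (((((1 : ℤ) : ℚ) * r + (j : ℚ)) / (((0 : ℤ) : ℚ) * r + ((l : ℤ) : ℚ)) : ℚ) : OnePoint ℚ)) = _
  rw [if_neg (by simpa using hl)]
  norm_num

lemma mobl_inf (l : ℕ) (j : ℤ) : mob 1 j 0 l (∞ : OnePoint ℚ) = ∞ := by
  show (if (0 : ℤ) = 0 then (∞ : OnePoint ℚ) else
    ((((1 : ℤ) : ℚ) / ((0 : ℤ) : ℚ) : ℚ) : OnePoint ℚ)) = _
  rw [if_pos rfl]

lemma ic (hUL : Sx_UL) (hITG : Sx_ITG) (A B : ℤ) (hC : CQ A B) (b g P : Ideal (OO A B))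
    (e : OO A B → ℂ) (l : ℕ) (hb : b ≠ ⊥) (hg : g ≠ ⊥) (he : IsEI g e) (hP : P.IsPrime)
    (hPl : nI P = l) (hl : l.Prime) (hgP : g ≤ cjI P) (x : OnePoint ℚ) :
    ∑ j ∈ Finset.range l, IcI b e (mob 1 j 0 l x) = IcI (b * P) e x := by
  induction x using OnePoint.rec with
  | infty =>
    have h1 : ∀ c : Ideal (OO A B), IcI c e (∞ : OnePoint ℚ) = 0 := fun _ => rfl
    rw [h1]
    refine Finset.sum_eq_zero fun j _ => ?_
    rw [mobl_inf]
    exact h1 b
  | coe r =>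
    have h1 : ∀ (c : Ideal (OO A B)) (q : ℚ), IcI c e (q : OnePoint ℚ) = IvI c e q :=
      fun _ _ => rfl
    rw [h1, ← main hUL hITG A B hC b g P e l hb hg he hP hPl hl hgP r]
    refine Finset.sum_congr rfl fun j _ => ?_
    rw [mobl l hl.ne_zero, h1]
    push_cast
    rfl

end HU

open HU in
theorem tx_HU (hLCN : Sx_LCN) (hUL : Sx_UL) (hITG : Sx_ITG) : Sx_HU := by
  intro A B hC b g P e l hb hg he hP hPl hl hgP
  have hl0 : nuQ e l = 0 := by
    unfold nuQ
    have h : e (((l : ℤ)) : OO A B) = 0 := by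
      by_contra hc
      have hcop := (he.supp _).1 hc
      have hmem : ((l : ℕ) : OO A B) ∈ cjI P := (hLCN A B hC b P l hb hP hPl hl).2.1
      rw [Ideal.isCoprime_iff_sup_eq] at hcop
      have h1 : sp (((l : ℤ)) : OO A B) ⊔ g ≤ cjI P := by
        refine sup_le ?_ hgP
        rw [Ideal.span_singleton_le_iff_mem]
        push_cast
        exact hmem
      rw [hcop, top_le_iff, Ideal.eq_top_iff_one] at h1
      have h2 : starRingEnd (OO A B) 1 ∈ P := h1
      rw [map_one] at h2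
      exact hP.ne_top ((Ideal.eq_top_iff_one _).2 h2)
    rw [h, mul_zero]
  refine ⟨hl0, fun x y => ?_⟩
  unfold hecke
  rw [hl0, zero_mul, add_zero]
  unfold PhiI
  rw [Finset.sum_sub_distrib]
  congr 1
  · exact ic hUL hITG A B hC b g P e l hb hg he hP hPl hl hgP x
  · exact ic hUL hITG A B hC b g P e l hb hg he hP hPl hl hgP y

end

end Pool.Agent.MUXF
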