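import Pool.Agent.MUX.StXF

/-!
# MUX, block XF: integrability of theta on the vertical lines over rational numbers (ITG) (helper91)
-/

set_option autoImplicit false

namespace Pool.Agent.MUXF

open _root_.MU3 Pool.Agent.MU3A Pool.Agent.MU3B Pool.Agent.MU3F Pool.Agent.MuSym OnePoint

/-- (ITG) -/
theorem tx_ITG (hALG : Sx_ALG) (hF4 : Sx_F4) (hLAT : Sx_LAT1) : Sx_ITG := by
  intro A B hc b g e hb hg he r
  obtain ⟨L, hL⟩ := hLAT A B hc b 1 hb one_ne_zero
  obtain ⟨x, hx, hx0⟩ := Submodule.exists_mem_ne_zero_of_ne_bot hg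
  obtain ⟨-, h2, -⟩ := hALG A B hc
  obtain ⟨-, h3, h4, -, h5, -⟩ := h2 x
  have hn : (nm x).toNat ≠ 0 := by
    have : nm x ≠ 0 := fun h => hx0 (h3.1 h)
    omega
  have hng : (((nm x).toNat : ℕ) : OO A B) ∈ g := by
    have e1 : (((nm x).toNat : ℕ) : OO A B) = ((nm x : ℤ) : OO A B) := by
      rw [← Int.cast_natCast, Int.toNat_of_nonneg h4]
    rw [e1, ← h5, mul_comm]
    exact g.mul_mem_left _ hx
  have hM : r.den ≠ 0 := r.den_nz
  have h6 := (hF4 A B hc b L 1 hL g e he ((nm x).toNat * r.den) r.den (mul_ne_zero hn hM)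
    (by
      push_cast
      rw [mul_comm]
      exact g.mul_mem_left _ hng) hM (Dvd.intro_left _ rfl) r.num).1
  rw [Rat.num_div_den] at h6
  exact h6

end Pool.Agent.MUXF
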