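import Pool.Agent.MUX.StXF

/-!
# MUX, block XF, module PHX (helper72): a function modulo `|D|` which is 1 on the exponents of theta
-/

set_option autoImplicit false

namespace Pool.Agent.MUXF

open _root_.MU3 Pool.Agent.MU3A Pool.Agent.MU3B Pool.Agent.MU3F Pool.Agent.MuSym OnePoint

theorem tx_PHX (h2 : Sx_CHI) (h3 : Sx_REC) : Sx_PHX := by
  classical
  intro A B hAB
  refine ⟨fun n => if IsCoprime n (absD A B) ∧ chiQ A B n = 1 then 1 else 0, ?_, ?_, ?_⟩
  · intro n
    dsimp only
    split_ifs
    · exact Or.inr rfl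
    · exact Or.inl rfl
  · intro n
    dsimp only
    congr 1
    refine propext ?_
    have e1 : IsCoprime (n + absD A B) (absD A B) ↔ IsCoprime n (absD A B) := by
      constructor
      · intro h
        have := h.add_mul_left_left (-1)
        rwa [show n + absD A B + absD A B * -1 = n by ring] at this
      · intro h
        have := h.add_mul_left_left 1
        rwa [mul_one] at this
    rw [e1]
    constructor
    · rintro ⟨h4, h5⟩
      refine ⟨h4, ?_⟩
      rw [← h5]
      exact ((h2 A B hAB n h4).2.2 (n + absD A B) ⟨-1, by ring⟩).symm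
    · rintro ⟨h4, h5⟩
      refine ⟨h4, ?_⟩
      rw [← h5]
      exact (h2 A B hAB n h4).2.2 (n + absD A B) ⟨-1, by ring⟩
  · intro b g e hb he hg x hx hex
    have h4 : IsCoprime (sp x) (sp ((absD A B : ℤ) : OO A B)) := by
      have h5 := (he.supp x).1 hex
      rw [Ideal.isCoprime_iff_sup_eq] at h5 ⊢
      exact top_le_iff.1 (h5 ▸ sup_le_sup_left hg _)
    have h6 : IsCoprime x ((absD A B : ℤ) : OO A B) := by
      rwa [sp, sp, Ideal.isCoprime_span_singleton_iff] at h4
    obtain ⟨h7, h8⟩ := h3 A B hAB b hb x hx h6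
    have h9 := (h2 A B hAB _ h7).2.1
    constructor
    · dsimp only
      rw [if_pos ⟨h7, h8⟩]
    · dsimp only
      rw [if_neg]
      rintro ⟨-, h10⟩
      rw [h9, h8] at h10
      norm_num at h10

end Pool.Agent.MUXF
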