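import Pool.Agent.MUX.StXF

/-!
# MUX, block XF: module PRD, `thetaI` has period 1
-/

set_option autoImplicit false

namespace Pool.Agent.MUXF

open _root_.MU3 Pool.Agent.MU3A Pool.Agent.MU3B Pool.Agent.MU3F Pool.Agent.MuSym OnePoint
open scoped ComplexConjugate

noncomputable section

/-- PRD. -/
theorem tx_PRD (hQB : Sx_QB) : Sx_PRD := by
  intro A B hc b hb e z
  obtain ⟨hq, -, -⟩ := hQB A B hc b hb
  unfold thetaI
  congr 1
  refine tsum_congr fun x => ?_
  congr 1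
  have h1 : ∃ k : ℤ, ((nm (x : OO A B) : ℂ) / nI b) = k := by
    have h2 := (hq x x.2).1
    by_cases h3 : nI b = 0
    · exact ⟨0, by simp [h3]⟩
    · refine ⟨qb b x, ?_⟩
      have h4 : ((nI b : ℕ) : ℂ) ≠ 0 := by exact_mod_cast h3
      have h5 : ((nm (x : OO A B) : ℤ) : ℂ) = (nI b : ℂ) * ((qb b (x : OO A B) : ℤ) : ℂ) := by
        exact_mod_cast congrArg (Int.cast : ℤ → ℂ) h2
      rw [h5]
      field_simp
  obtain ⟨k, hk⟩ := h1
  rw [hk]
  rw [Complex.exp_eq_exp_iff_exists_int]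
  exact ⟨k, by ring⟩

end

end Pool.Agent.MUXF
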