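import Pool.Agent.MUX.StXF

/-!
# (PRI) multiplication of the ideal by a number
-/

set_option autoImplicit false

namespace Pool.Agent.MUXF

open _root_.MU3 Pool.Agent.MU3A Pool.Agent.MU3B Pool.Agent.MU3F Pool.Agent.MuSym OnePoint

namespace PRIaux

variable {A B : ℤ}

/-- `y ↦ a y` from `b` to `(a) b` -/
noncomputable def mulMap (a : OO A B) (b : Ideal (OO A B)) (y : b) : (sp a * b : Ideal (OO A B)) :=
  ⟨a * y, Ideal.mem_span_singleton_mul.2 ⟨y, y.2, rfl⟩⟩

theorem mulMap_bij (hd : IsDomain (OO A B)) {a : OO A B} (ha : a ≠ 0) (b : Ideal (OO A B)) :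
    Function.Bijective (mulMap a b) := by
  constructor
  · intro y y' h
    have h1 : a * (y : OO A B) = a * y' := congrArg Subtype.val h
    exact Subtype.ext (mul_left_cancel₀ ha h1)
  · rintro ⟨x, hx⟩
    obtain ⟨y, hy, hxy⟩ := Ideal.mem_span_singleton_mul.1 hx
    exact ⟨⟨y, hy⟩, Subtype.ext hxy⟩

end PRIaux

open PRIaux in
theorem tx_PRI (h1 : Sx_ALG) (h2 : Sx_NIM) : Sx_PRI := by
  intro A B hQ b g e a hb he ha
  obtain ⟨a1, a2, a3, a4, a5⟩ := h1 A B hQ
  obtain ⟨n1, n2, n3, n4⟩ := h2 A B hQ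
  have ha' : sp a ≠ ⊥ := by
    rw [Ne, Ideal.span_singleton_eq_bot]
    exact ha
  have hnm : nm a ≠ 0 := fun h => ha ((a2 a).2.1.1 h)
  have hN : ((nI (sp a * b) : ℕ) : ℂ) = (nm a : ℂ) * nI b := by
    rw [(n1 _ _ ha' hb).1]
    have h3 := (n2 a).resolve_right ha
    rw [h3]
    push_cast
    congr 1
    have h4 : ((nm a).natAbs : ℤ) = nm a := Int.natAbs_of_nonneg (a2 a).2.2.1
    have h5 : (((nm a).natAbs : ℤ) : ℂ) = (nm a : ℂ) := by rw [h4]
    rw [← h5, Int.cast_natCast]
  have hnmC : (nm a : ℂ) ≠ 0 := by exact_mod_cast hnm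
  have hth : ∀ z : ℂ, thetaI (sp a * b) e z = e a * (starRingEnd ℂ) (emb a) * thetaI b e z := by
    intro z
    have key : ∀ y : b, e (((Equiv.ofBijective _ (mulMap_bij a5 ha b)) y :
        (sp a * b : Ideal (OO A B))) : OO A B) * (starRingEnd ℂ) (emb
        (((Equiv.ofBijective _ (mulMap_bij a5 ha b)) y : (sp a * b : Ideal (OO A B))) : OO A B)) *
        Complex.exp (2 * Real.pi * Complex.I * ((nm (((Equiv.ofBijective _
          (mulMap_bij a5 ha b)) y : (sp a * b : Ideal (OO A B))) : OO A B) : ℂ) /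
          nI (sp a * b)) * z) =
        (e a * (starRingEnd ℂ) (emb a)) * (e y * (starRingEnd ℂ) (emb (y : OO A B)) *
        Complex.exp (2 * Real.pi * Complex.I * ((nm (y : OO A B) : ℂ) / nI b) * z)) := by
      intro y
      have e1 : (((Equiv.ofBijective _ (mulMap_bij a5 ha b)) y : (sp a * b : Ideal (OO A B))) :
          OO A B) = a * y := rfl
      rw [e1, he.mul, (a1 _ _).1, (a1 _ _).2.2, map_mul, hN]
      have e2 : ((nm a * nm (y : OO A B) : ℤ) : ℂ) / ((nm a : ℂ) * nI b) =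
          (nm (y : OO A B) : ℂ) / nI b := by
        push_cast
        exact mul_div_mul_left _ _ hnmC
      rw [e2]
      ring
    unfold thetaI
    rw [← (Equiv.ofBijective _ (mulMap_bij a5 ha b)).tsum_eq, tsum_congr key, tsum_mul_left]
    ring
  refine ⟨hth, ?_⟩
  have hI : ∀ r : ℚ, IvI (sp a * b) e r = e a * (starRingEnd ℂ) (emb a) * IvI b e r := by
    intro r
    unfold IvI
    simp only [hth]
    rw [MeasureTheory.integral_const_mul]
    ring
  have hc : ∀ x : OnePoint ℚ, IcI (sp a * b) e x = e a * (starRingEnd ℂ) (emb a) * IcI b e x := by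
    intro x
    induction x using OnePoint.rec with
    | infty =>
      show (0 : ℂ) = _ * (0 : ℂ)
      rw [mul_zero]
    | coe r => exact hI r
  intro x y
  unfold PhiI
  rw [hc, hc]
  ring

end Pool.Agent.MUXF
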