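import Pool.Agent.MUX.StXF

/-!
# MUX, block XF, module PRJ: the projector (helper14)
-/

set_option autoImplicit false

namespace Pool.Agent.MUXF

open _root_.MU3 Pool.Agent.MU3A Pool.Agent.MU3B Pool.Agent.MU3F Pool.Agent.MuSym OnePoint
open scoped ComplexConjugate

noncomputable section

namespace PRJ

lemma ex_add (r s : ℚ) : ex (r + s) = ex r * ex s := by
  unfold ex
  rw [← Complex.exp_add]
  congr 1
  push_cast
  ring

lemma ex_nat_mul (b : ℕ) (r : ℚ) : ex (b * r) = ex r ^ b := by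
  unfold ex
  rw [← Complex.exp_nat_mul]
  congr 1
  push_cast
  ring

lemma ex_eq_one (r : ℚ) : ex r = 1 ↔ ∃ k : ℤ, r = k := by
  unfold ex
  rw [Complex.exp_eq_one_iff]
  have h0 : (2 * (Real.pi : ℂ) * Complex.I) ≠ 0 := by
    simp [Real.pi_ne_zero]
  constructor
  · rintro ⟨k, hk⟩
    refine ⟨k, ?_⟩
    have h1 : (r : ℂ) = (k : ℂ) := by
      apply mul_left_cancel₀ h0
      rw [hk]
      ring
    exact_mod_cast h1
  · rintro ⟨k, rfl⟩
    exact ⟨k, by push_cast; ring⟩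

lemma sum_ex (M : ℕ) (hM : 0 < M) (k : ℤ) :
    ∑ b ∈ Finset.range M, ex (b * (k / M)) = if (M : ℤ) ∣ k then (M : ℂ) else 0 := by
  have hMq : (M : ℚ) ≠ 0 := by exact_mod_cast hM.ne'
  simp only [ex_nat_mul]
  split_ifs with h
  · have h1 : ex ((k : ℚ) / M) = 1 := by
      rw [ex_eq_one]
      obtain ⟨j, hj⟩ := h
      refine ⟨j, ?_⟩
      rw [hj]
      push_cast
      field_simp
    rw [h1]
    simp
  · have h1 : ex ((k : ℚ) / M) ≠ 1 := by
      rw [Ne, ex_eq_one]
      rintro ⟨j, hj⟩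
      apply h
      refine ⟨j, ?_⟩
      rw [div_eq_iff hMq] at hj
      have h2 : (k : ℚ) = ((M * j : ℤ) : ℚ) := by
        rw [hj]
        push_cast
        ring
      exact_mod_cast h2
    have h2 : ex ((k : ℚ) / M) ^ M = 1 := by
      rw [← ex_nat_mul, ex_eq_one]
      exact ⟨k, by field_simp⟩
    have h3 := mul_neg_geom_sum (ex ((k : ℚ) / M)) M
    rw [h2, sub_self] at h3
    rcases mul_eq_zero.1 h3 with h4 | h4
    · exact absurd (sub_eq_zero.1 h4).symm h1
    · exact h4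

/-- the coefficients -/
def cf (q : ℕ) (φ : ℤ → ℂ) (a : ℕ) : ℂ :=
  (1 / q) * ∑ n ∈ Finset.range q, φ n * ex (-(a * n) / q)

/-- periodic functions -/
lemma per_mul {q : ℕ} {φ : ℤ → ℂ} (hφ : ∀ n, φ (n + q) = φ n) (k m : ℤ) :
    φ (k + q * m) = φ k := by
  induction m using Int.induction_on with
  | zero => simp
  | succ i ih =>
    have e : k + q * ((i : ℤ) + 1) = (k + q * i) + q := by ring
    rw [e, hφ, ih]
  | pred i ih =>
    have e : k + q * (-(i : ℤ)) = (k + q * (-(i : ℤ) - 1)) + q := by ring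
    rw [e, hφ] at ih
    exact ih

/-- finite Fourier inversion -/
lemma inv {q : ℕ} (hq : q ≠ 0) {φ : ℤ → ℂ} (hφ : ∀ n, φ (n + q) = φ n) (k : ℤ) :
    ∑ a ∈ Finset.range q, cf q φ a * ex (a * (k / q)) = φ k := by
  have hq0 : 0 < q := Nat.pos_of_ne_zero hq
  have hqc : (q : ℂ) ≠ 0 := by exact_mod_cast hq
  have hqz : (q : ℤ) ≠ 0 := by exact_mod_cast hq
  have h1 : ∀ a ∈ Finset.range q, cf q φ a * ex (a * (k / q)) =
      (1 / q) * ∑ n ∈ Finset.range q, φ n * ex (a * (((k - n : ℤ) : ℚ) / q)) := by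
    intro a _
    unfold cf
    rw [mul_assoc, Finset.sum_mul]
    congr 1
    refine Finset.sum_congr rfl fun n _ => ?_
    rw [mul_assoc, ← ex_add]
    congr 2
    push_cast
    ring
  rw [Finset.sum_congr rfl h1, ← Finset.mul_sum, Finset.sum_comm]
  have h2 : ∀ n ∈ Finset.range q, ∑ a ∈ Finset.range q, φ n * ex (a * (((k - n : ℤ) : ℚ) / q)) =
      if n = (k % q).toNat then φ n * q else 0 := by
    intro n hn
    rw [← Finset.mul_sum, sum_ex q hq0]
    have hn' : (n : ℤ) < q := by exact_mod_cast Finset.mem_range.1 hn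
    have hm0 := Int.emod_nonneg k hqz
    have hm1 := Int.emod_lt_of_pos k (by exact_mod_cast hq0 : (0 : ℤ) < q)
    have hiff : ((q : ℤ) ∣ k - n) ↔ n = (k % q).toNat := by
      constructor
      · intro h
        have h3 : k % q = (n : ℤ) % q := (Int.emod_emod_of_dvd k (dvd_refl _)).symm.trans (by
          rw [Int.emod_emod_of_dvd k (dvd_refl _)]
          exact (Int.emod_emod_of_dvd _ (dvd_refl _)).symm.trans (by
            rw [Int.emod_emod_of_dvd _ (dvd_refl _)]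
            exact Int.ModEq.symm ((Int.modEq_iff_dvd).2 h)))
        rw [h3, Int.emod_eq_of_lt (Int.natCast_nonneg n) hn']
        simp
      · intro h
        have h3 : (n : ℤ) = k % q := by rw [h, Int.toNat_of_nonneg hm0]
        rw [h3]
        exact Int.dvd_self_sub_emod
    by_cases h : n = (k % q).toNat
    · rw [if_pos h, if_pos (hiff.2 h)]
    · rw [if_neg h, if_neg (fun h' => h (hiff.1 h')), mul_zero]
  rw [Finset.sum_congr rfl h2, Finset.sum_ite_eq' (Finset.range q)]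
  have hm0 := Int.emod_nonneg k hqz
  have hm1 := Int.emod_lt_of_pos k (by exact_mod_cast hq0 : (0 : ℤ) < q)
  rw [if_pos (by
    rw [Finset.mem_range]
    have : (((k % q).toNat : ℕ) : ℤ) < q := by rw [Int.toNat_of_nonneg hm0]; exact hm1
    exact_mod_cast this)]
  have h3 : (((k % q).toNat : ℕ) : ℤ) = k % q := Int.toNat_of_nonneg hm0
  have h4 : φ (((k % q).toNat : ℕ) : ℤ) = φ k := by
    rw [h3]
    have h5 := Int.emod_add_mul_ediv k q
    conv_rhs => rw [← h5]
    rw [per_mul hφ]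
  rw [h4]
  field_simp

variable {A B : ℤ}

/-- the projector on theta -/
lemma twist (hQB : Sx_QB) (hALG : Sx_ALG) (hTSM : Sx_TSM) (h : CQ A B) {b : Ideal (OO A B)}
    (hb : b ≠ ⊥) {e : OO A B → ℂ} {C : ℝ} (hC : ∀ x, ‖e x‖ ≤ C) {q : ℕ} (hq : q ≠ 0)
    {φ : ℤ → ℂ} (hφ : ∀ n, φ (n + q) = φ n) (s : ℤ) (v : ℂ)
    (hv : ∀ x ∈ b, e x ≠ 0 → φ (s * qb b x) = v) (z : ℂ) (hz : 0 < z.im) :
    ∑ a ∈ Finset.range q, cf q φ a * thetaI b e (z + ((s * (a / q) : ℚ) : ℂ)) =
      v * thetaI b e z := by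
  obtain ⟨hqb, -, -⟩ := hQB A B h b hb
  have hfin : Finite (OO A B ⧸ b) := (hALG A B h).2.2.2.1 b hb
  have hn0 : (nI b : ℂ) ≠ 0 := by
    have : 0 < nI b := Nat.card_pos
    exact_mod_cast this.ne'
  have hdiv : ∀ x : b, ((nm (x : OO A B) : ℂ) / nI b) = (qb b (x : OO A B) : ℂ) := by
    intro x
    have h1 := (hqb x.1 x.2).1
    rw [div_eq_iff hn0]
    have h2 : ((nm (x : OO A B) : ℤ) : ℂ) = (((nI b : ℤ) * qb b (x : OO A B) : ℤ) : ℂ) := by
      rw [← h1]
    rw [h2]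
    push_cast
    ring
  have hshift : ∀ (x : b) (a : ℕ), Complex.exp (2 * Real.pi * Complex.I *
      ((nm (x : OO A B) : ℂ) / nI b) * (z + ((s * (a / q) : ℚ) : ℂ))) =
      Complex.exp (2 * Real.pi * Complex.I * ((nm (x : OO A B) : ℂ) / nI b) * z) *
        ex (a * (((s * qb b (x : OO A B) : ℤ) : ℚ) / q)) := by
    intro x a
    rw [hdiv]
    unfold ex
    rw [← Complex.exp_add]
    congr 1
    push_cast
    ring
  have hsum : ∀ a : ℕ, Summable (fun x : b => cf q φ a * (e x * conj (emb (x : OO A B)) *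
      Complex.exp (2 * Real.pi * Complex.I * ((nm (x : OO A B) : ℂ) / nI b) *
        (z + ((s * (a / q) : ℚ) : ℂ))))) := by
    intro a
    refine Summable.mul_left _ (hTSM A B h b hb e C hC _ ?_)
    have : (((s * (a / q) : ℚ) : ℂ)).im = 0 := by
      rw [← Complex.ofReal_ratCast]
      exact Complex.ofReal_im _
    rw [Complex.add_im, this, add_zero]
    exact hz
  calc ∑ a ∈ Finset.range q, cf q φ a * thetaI b e (z + ((s * (a / q) : ℚ) : ℂ))
      = ∑ a ∈ Finset.range q, (1 / 2) * ∑' x : b, cf q φ a * (e x * conj (emb (x : OO A B)) *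
          Complex.exp (2 * Real.pi * Complex.I * ((nm (x : OO A B) : ℂ) / nI b) *
            (z + ((s * (a / q) : ℚ) : ℂ)))) := by
        refine Finset.sum_congr rfl fun a _ => ?_
        rw [tsum_mul_left]
        unfold thetaI
        ring
    _ = (1 / 2) * ∑' x : b, ∑ a ∈ Finset.range q, cf q φ a * (e x * conj (emb (x : OO A B)) *
          Complex.exp (2 * Real.pi * Complex.I * ((nm (x : OO A B) : ℂ) / nI b) *
            (z + ((s * (a / q) : ℚ) : ℂ)))) := by
        rw [Summable.tsum_finsetSum fun a _ => hsum a, Finset.mul_sum]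
    _ = (1 / 2) * ∑' x : b, v * (e x * conj (emb (x : OO A B)) *
          Complex.exp (2 * Real.pi * Complex.I * ((nm (x : OO A B) : ℂ) / nI b) * z)) := by
        congr 1
        refine tsum_congr fun x => ?_
        by_cases hx : e x = 0
        · simp [hx]
        · rw [← hv x.1 x.2 hx, ← inv hq hφ (s * qb b (x : OO A B)), Finset.sum_mul]
          refine Finset.sum_congr rfl fun a _ => ?_
          rw [hshift]
          ring
    _ = v * thetaI b e z := by
        rw [tsum_mul_left]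
        unfold thetaI
        ring

/-- the projector at a rational number -/
lemma twistI (hQB : Sx_QB) (hALG : Sx_ALG) (hTSM : Sx_TSM) (hITG : Sx_ITG) (h : CQ A B)
    {b g : Ideal (OO A B)} (hb : b ≠ ⊥) (hg : g ≠ ⊥) {e : OO A B → ℂ} (he : IsEI g e) {C : ℝ}
    (hC : ∀ x, ‖e x‖ ≤ C) {q : ℕ} (hq : q ≠ 0)
    {φ : ℤ → ℂ} (hφ : ∀ n, φ (n + q) = φ n) (s : ℤ) (v : ℂ)
    (hv : ∀ x ∈ b, e x ≠ 0 → φ (s * qb b x) = v) (r : ℚ) :
    ∑ a ∈ Finset.range q, cf q φ a * IvI b e (r + s * (a / q)) = v * IvI b e r := by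
  unfold IvI
  have h1 : ∀ a ∈ Finset.range q, cf q φ a * (-(2 * Real.pi) *
      ∫ t in Set.Ioi (0 : ℝ), thetaI b e (((r + s * (a / q) : ℚ) : ℂ) + t * Complex.I)) =
      -(2 * Real.pi) * ∫ t in Set.Ioi (0 : ℝ), cf q φ a *
        thetaI b e (((r + s * (a / q) : ℚ) : ℂ) + t * Complex.I) := by
    intro a _
    rw [MeasureTheory.integral_const_mul]
    ring
  rw [Finset.sum_congr rfl h1, ← Finset.mul_sum, ← MeasureTheory.integral_finsetSum]
  · have h2 : ∫ t in Set.Ioi (0 : ℝ), ∑ a ∈ Finset.range q, cf q φ a *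
        thetaI b e (((r + s * (a / q) : ℚ) : ℂ) + t * Complex.I) =
        ∫ t in Set.Ioi (0 : ℝ), v * thetaI b e ((r : ℂ) + t * Complex.I) := by
      apply MeasureTheory.setIntegral_congr_fun measurableSet_Ioi
      intro t ht
      have ht' : 0 < t := ht
      have h3 := twist hQB hALG hTSM h hb hC hq hφ s v hv ((r : ℂ) + t * Complex.I)
        (by simpa using ht')
      simp only
      rw [← h3]
      apply Finset.sum_congr rfl
      intro a _
      congr 2
      push_cast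
      ring
    rw [h2, MeasureTheory.integral_const_mul]
    ring
  · intro a _
    exact (hITG A B h b g e hb hg he _).const_mul _

theorem mob1 {q : ℕ} (hq : q ≠ 0) (a : ℤ) (r : ℚ) :
    mob q a 0 q ((r : ℚ) : OnePoint ℚ) = ((r + a / (q : ℚ) : ℚ) : OnePoint ℚ) := by
  have h1 : ((q : ℤ) : ℚ) ≠ 0 := by exact_mod_cast hq
  have h1' : (q : ℚ) ≠ 0 := by exact_mod_cast hq
  show (if ((0 : ℤ) : ℚ) * r + (q : ℤ) = 0 then ∞ else
    (((((q : ℤ) : ℚ) * r + a) / (((0 : ℤ) : ℚ) * r + (q : ℤ)) : ℚ) : OnePoint ℚ)) = _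
  rw [if_neg (by simpa using hq)]
  congr 1
  push_cast
  rw [zero_mul, zero_add, add_div, mul_div_cancel_left₀ _ h1']

theorem mob2 (a b c d : ℤ) (hc : c = 0) : mob a b c d ∞ = ∞ := by
  show (if c = 0 then ∞ else ((a / c : ℚ) : OnePoint ℚ)) = ∞
  rw [if_pos hc]

theorem mob3 (r : ℚ) : mob (-1) 0 0 1 ((r : ℚ) : OnePoint ℚ) = ((-r : ℚ) : OnePoint ℚ) := by
  show (if ((0 : ℤ) : ℚ) * r + (1 : ℤ) = 0 then ∞ else
    ((((((-1 : ℤ) : ℚ) * r + (0 : ℤ)) / (((0 : ℤ) : ℚ) * r + (1 : ℤ)) : ℚ)) : OnePoint ℚ)) = _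
  rw [if_neg (by norm_num)]
  congr 1
  push_cast
  ring

end PRJ

theorem tx_PRJ (h1 : Sx_ALG) (h2 : Sx_QB) (h3 : Sx_BDD) (h4 : Sx_TSM) (h5 : Sx_ITG) : Sx_PRJ := by
  intro A B h b g e hb hg he q φ hq hφ hv s x y
  obtain ⟨-, C, -, hC⟩ := h3 A B h g e hg he
  -- the two sums over the coefficients
  have a1 : ∀ r : ℚ, ∑ a ∈ Finset.range q, PRJ.cf q φ a * IvI b e (r + (1 : ℤ) * (a / q)) =
      1 * IvI b e r := PRJ.twistI h2 h1 h4 h5 h hb hg he hC hq hφ 1 1 (by
    intro x hx hx0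
    rw [one_mul]
    exact (hv x hx hx0).1)
  have a2 : ∀ r : ℚ, ∑ a ∈ Finset.range q, PRJ.cf q φ a * IvI b e (r + (-1 : ℤ) * (a / q)) =
      0 * IvI b e r := PRJ.twistI h2 h1 h4 h5 h hb hg he hC hq hφ (-1) 0 (by
    intro x hx hx0
    rw [neg_one_mul]
    exact (hv x hx hx0).2)
  have b1 : ∀ x : OnePoint ℚ, ∑ a ∈ Finset.range q, PRJ.cf q φ a * IcI b e (mob q a 0 q x) =
      IcI b e x := by
    intro x
    induction x using OnePoint.rec with
    | infty =>
      have e1 : ∀ a : ℤ, IcI b e (mob q a 0 q ∞) = 0 := by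
        intro a
        rw [PRJ.mob2 _ _ _ _ rfl]
        rfl
      have e2 : IcI b e ∞ = 0 := rfl
      simp only [e1, e2, mul_zero, Finset.sum_const_zero]
    | coe r =>
      have e1 := a1 r
      have e2 : IcI b e ((r : ℚ) : OnePoint ℚ) = IvI b e r := rfl
      rw [e2, ← one_mul (IvI b e r), ← e1]
      refine Finset.sum_congr rfl fun a _ => ?_
      rw [PRJ.mob1 hq]
      have e3 : IcI b e ((r + ((a : ℤ) : ℚ) / (q : ℚ) : ℚ) : OnePoint ℚ) =
        IvI b e (r + ((a : ℤ) : ℚ) / (q : ℚ)) := rfl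
      rw [e3]
      congr 2
      push_cast
      ring
  have b2 : ∀ x : OnePoint ℚ, ∑ a ∈ Finset.range q,
      PRJ.cf q φ a * IcI b e (mob (-1) 0 0 1 (mob q a 0 q x)) = 0 := by
    intro x
    induction x using OnePoint.rec with
    | infty =>
      have e1 : ∀ a : ℤ, IcI b e (mob (-1) 0 0 1 (mob q a 0 q ∞)) = 0 := by
        intro a
        rw [PRJ.mob2 _ _ _ _ rfl, PRJ.mob2 _ _ _ _ rfl]
        rfl
      simp only [e1, mul_zero, Finset.sum_const_zero]
    | coe r =>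
      have e1 := a2 (-r)
      rw [zero_mul] at e1
      rw [← e1]
      refine Finset.sum_congr rfl fun a _ => ?_
      rw [PRJ.mob1 hq, PRJ.mob3]
      have e3 : IcI b e ((-(r + ((a : ℤ) : ℚ) / (q : ℚ)) : ℚ) : OnePoint ℚ) =
        IvI b e (-(r + ((a : ℤ) : ℚ) / (q : ℚ))) := rfl
      rw [e3]
      congr 2
      push_cast
      ring
  have key : ∑ a ∈ Finset.range q, PRJ.cf q φ a *
      sgnPart s (PhiI b e) (mob q a 0 q x) (mob q a 0 q y) =
      (∑ a ∈ Finset.range q, PRJ.cf q φ a * IcI b e (mob q a 0 q x)) -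
      (∑ a ∈ Finset.range q, PRJ.cf q φ a * IcI b e (mob q a 0 q y)) +
      s * ((∑ a ∈ Finset.range q, PRJ.cf q φ a * IcI b e (mob (-1) 0 0 1 (mob q a 0 q x))) -
      (∑ a ∈ Finset.range q, PRJ.cf q φ a * IcI b e (mob (-1) 0 0 1 (mob q a 0 q y)))) := by
    rw [← Finset.sum_sub_distrib, ← Finset.sum_sub_distrib, Finset.mul_sum,
      ← Finset.sum_add_distrib]
    refine Finset.sum_congr rfl fun a _ => ?_
    unfold sgnPart PhiI
    ring
  have goal : ∑ a ∈ Finset.range q, PRJ.cf q φ a *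
      sgnPart s (PhiI b e) (mob q a 0 q x) (mob q a 0 q y) = PhiI b e x y := by
    rw [key, b1, b1, b2, b2]
    unfold PhiI
    ring
  exact goal

end

end Pool.Agent.MUXF
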