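import Pool.Agent.MUX.StXF

/-!
# (QB) the form `nm x / nI b` on an ideal `b`
-/

set_option autoImplicit false

namespace Pool.Agent.MUXF

open _root_.MU3 Pool.Agent.MU3A Pool.Agent.MU3B Pool.Agent.MU3F Pool.Agent.MuSym OnePoint

namespace QBaux

variable {A B : ℤ}

/-- divisibility of `x * star y` -/
theorem dvd_mul_star {b : Ideal (OO A B)} {n : ℕ} (hb : b * cjI b = sp ((n : ℕ) : OO A B))
    {x y : OO A B} (hx : x ∈ b) (hy : y ∈ b) : ∃ c : OO A B, x * star y = (n : OO A B) * c := by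
  have h1 : star y ∈ cjI b := by
    show starRingEnd (OO A B) (star y) ∈ b
    rw [starRingEnd_apply, star_star]
    exact hy
  have h2 : x * star y ∈ b * cjI b := Ideal.mul_mem_mul hx h1
  rw [hb, Ideal.mem_span_singleton] at h2
  exact h2

theorem nm_add_mul (x y : OO A B) (m : ℤ) :
    nm (x + (m : OO A B) * y) =
      nm x + m * ((x * star y).re + (star (x * star y)).re) + m ^ 2 * nm y := by
  simp only [nm, QuadraticAlgebra.re_add, QuadraticAlgebra.im_add, QuadraticAlgebra.re_mul,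
    QuadraticAlgebra.im_mul, QuadraticAlgebra.re_star, QuadraticAlgebra.im_star,
    QuadraticAlgebra.re_intCast, QuadraticAlgebra.im_intCast, Int.cast_id]
  ring

end QBaux

open QBaux in
theorem tx_QB (h1 : Sx_ALG) (h2 : Sx_IDL) : Sx_QB := by
  intro A B hQ b hb
  obtain ⟨a1, a2, a3, a4, a5⟩ := h1 A B hQ
  obtain ⟨hn, hcj⟩ := h2 A B hQ b hb
  have hn' : (nI b : ℤ) ≠ 0 := by exact_mod_cast hn
  have hn0 : (0 : ℤ) ≤ nI b := Int.natCast_nonneg _
  have hre : ∀ c : OO A B, (((nI b : ℕ) : OO A B) * c).re = nI b * c.re := by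
    intro c
    simp [QuadraticAlgebra.re_mul]
  have hdvd : ∀ x ∈ b, nm x = nI b * qb b x ∧ 0 ≤ qb b x := by
    intro x hx
    obtain ⟨c, hc⟩ := dvd_mul_star hcj hx hx
    rw [(a2 x).2.2.2.2.1] at hc
    have h3 : nm x = nI b * c.re := by
      have := congrArg QuadraticAlgebra.re hc
      rw [hre] at this
      simpa using this
    refine ⟨?_, ?_⟩
    · rw [qb, Int.mul_ediv_cancel' ⟨c.re, h3⟩]
    · exact Int.ediv_nonneg (a2 x).2.2.1 hn0
  refine ⟨hdvd, ?_, ?_⟩
  · intro x hx y hy m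
    obtain ⟨c, hc⟩ := dvd_mul_star hcj hx hy
    refine ⟨(c.re + (star c).re) + m * qb b y, ?_⟩
    have hxy : x + (m : OO A B) * y ∈ b := b.add_mem hx (b.mul_mem_left _ hy)
    have e1 := (hdvd _ hxy).1
    have e2 := (hdvd x hx).1
    have e3 := (hdvd y hy).1
    have e4 := nm_add_mul x y m
    have e5 : star (x * star y) = ((nI b : ℕ) : OO A B) * star c := by
      rw [hc, star_mul']
      congr 1
      exact star_natCast _
    rw [e5, hc, hre, hre] at e4
    have e6 : (nI b : ℤ) * qb b (x + (m : OO A B) * y) =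
        nI b * (qb b x + m * ((c.re + (star c).re) + m * qb b y)) := by
      rw [← e1, e4, e2, e3]
      ring
    exact mul_left_cancel₀ hn' e6
  · intro x
    rw [qb, (a1 _ x).2.2]
    have h3 : nm ((nI b : ℕ) : OO A B) = (nI b : ℤ) ^ 2 := by
      have := (a3 (nI b : ℤ)).2
      rw [Int.cast_natCast] at this
      exact this
    rw [h3, pow_two, mul_assoc, Int.mul_ediv_cancel_left _ hn']

end Pool.Agent.MUXF
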