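import Pool.Agent.MUX.StXF

/-!
# MUX, block XF, module REC (helper87): `chi (N c) = 1`
-/

set_option autoImplicit false

namespace Pool.Agent.MUXF

open _root_.MU3 Pool.Agent.MU3A Pool.Agent.MU3B Pool.Agent.MU3F Pool.Agent.MuSym OnePoint

namespace REC

open NumberTheorySymbols

variable {A B : ℤ}

lemma mem_sp_natCast (q : ℕ) (x : OO A B) :
    x ∈ sp ((q : ℕ) : OO A B) ↔ (q : ℤ) ∣ x.re ∧ (q : ℤ) ∣ x.im := by
  rw [Ideal.mem_span_singleton]
  constructor
  · rintro ⟨y, rfl⟩
    refine ⟨⟨y.re, ?_⟩, ⟨y.im, ?_⟩⟩ <;> simp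
  · rintro ⟨⟨r, hr⟩, ⟨s, hs⟩⟩
    refine ⟨⟨r, s⟩, ?_⟩
    apply QuadraticAlgebra.ext <;> simp [hr, hs]

/-- multiplicativity of `chiQ` on positive numbers -/
lemma chi_mul (m n : ℕ) (hm : m ≠ 0) (hn : n ≠ 0) :
    chiQ A B ((m * n : ℕ) : ℤ) = chiQ A B m * chiQ A B n := by
  unfold chiQ
  split_ifs
  · push_cast
    exact jacobiSym.mul_left _ _ _
  · simp only [Int.natAbs_natCast]
    rw [jacobiSym.mul_right' _ hm hn]
    have h1 : ((m : ℤ)).sign = 1 := Int.sign_eq_one_of_pos (by positivity)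
    have h2 : ((n : ℤ)).sign = 1 := Int.sign_eq_one_of_pos (by positivity)
    have h3 : (((m * n : ℕ) : ℤ)).sign = 1 := Int.sign_eq_one_of_pos (by positivity)
    rw [h1, h2, h3]
    ring

lemma chi_of_primes (n : ℕ) (hn : n ≠ 0)
    (h : ∀ q : ℕ, q.Prime → q ∣ n → chiQ A B q = 1) : chiQ A B n = 1 := by
  induction n using induction_on_primes with
  | zero => exact absurd rfl hn
  | one =>
    unfold chiQ
    split_ifs <;> simp
  | prime_mul p a hp ih =>
    have ha : a ≠ 0 := by rintro rfl; simp at hn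
    rw [chi_mul p a hp.ne_zero ha, h p hp (Dvd.intro _ rfl), one_mul]
    exact ih ha (fun q hq hqa => h q hq (hqa.mul_left p))

/-- the value at a prime number which divides a primitive value of the norm form -/
lemma chi_prime (hQ : CQ A B) (q : ℕ) (hq : q.Prime) (hD : IsCoprime (q : ℤ) (absD A B))
    (x : OO A B) (hx : ¬ ((q : ℤ) ∣ x.re ∧ (q : ℤ) ∣ x.im)) (hn : (q : ℤ) ∣ nm x) :
    chiQ A B q = 1 := by
  have : Fact q.Prime := ⟨hq⟩
  have hqp : Prime (q : ℤ) := Nat.prime_iff_prime_int.1 hq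
  have him : ¬ (q : ℤ) ∣ x.im := by
    intro h
    apply hx
    refine ⟨?_, h⟩
    have h1 : (q : ℤ) ∣ x.re ^ 2 := by
      have e : x.re ^ 2 = nm x - x.im * (B * x.re - A * x.im) := by
        unfold nm; ring
      rw [e]
      exact dvd_sub hn (h.mul_right _)
    exact hqp.dvd_of_dvd_pow h1
  have himZ : ((x.im : ℤ) : ZMod q) ≠ 0 := by
    intro h
    exact him ((ZMod.intCast_zmod_eq_zero_iff_dvd _ _).1 h)
  have hnZ : ((nm x : ℤ) : ZMod q) = 0 := (ZMod.intCast_zmod_eq_zero_iff_dvd _ _).2 hn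
  rcases hQ.hB with rfl | rfl
  · -- `B = 0`
    have hc : chiQ A 0 q = jacobiSym A q := by
      have : ((q : ℤ)).sign = 1 := Int.sign_eq_one_of_pos (by exact_mod_cast hq.pos)
      simp [chiQ, this]
    have hAq : ((A : ℤ) : ZMod q) ≠ 0 := by
      intro h
      have h1 := (ZMod.intCast_zmod_eq_zero_iff_dvd _ _).1 h
      have h2 : (q : ℤ) ∣ absD A 0 := by
        have : absD A 0 = A * (-4) := by unfold absD; ring
        rw [this]
        exact h1.mul_right _
      exact hqp.not_isUnit (isUnit_of_dvd_one (by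
        obtain ⟨u, v, huv⟩ := hD
        rw [← huv]
        exact dvd_add (Dvd.intro_left _ rfl) (h2.mul_left _)))
    rw [hc, ← jacobiSym.legendreSym.to_jacobiSym, legendreSym.eq_one_iff q hAq]
    refine ⟨((x.re : ℤ) : ZMod q) / ((x.im : ℤ) : ZMod q), ?_⟩
    unfold nm at hnZ
    push_cast at hnZ
    field_simp
    linear_combination -hnZ
  · -- `B = 1`
    have hneg := hQ.neg
    obtain ⟨D, hDD⟩ : ∃ D : ℕ, absD A 1 = D := ⟨(absD A 1).toNat, by
      unfold absD; omega⟩
    have hD3 : D % 4 = 3 := by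
      unfold absD at hDD
      omega
    have hodd : Odd D := Nat.odd_iff.2 (by omega)
    have hc : chiQ A 1 q = jacobiSym q D := by simp [chiQ, hDD]
    rw [hc]
    rcases hq.eq_two_or_odd' with rfl | hqodd
    · have hA : (2 : ℤ) ∣ A := by
        have h1 : ¬ (2 : ℤ) ∣ x.im := by exact_mod_cast him
        have h2 : (2 : ℤ) ∣ nm x := by exact_mod_cast hn
        have h3 : x.im % 2 = 1 := by omega
        unfold nm at h2
        obtain ⟨k, hk⟩ : ∃ k, x.im = 2 * k + 1 := ⟨x.im / 2, by omega⟩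
        rw [hk] at h2
        have h4 : (2 : ℤ) ∣ x.re * (x.re + 1) := by
          rcases Int.even_or_odd x.re with h | h
          · exact h.two_dvd.mul_right _
          · exact (h.add_one.two_dvd).mul_left _
        have e : A = x.re * (x.re + 1) + 2 * (x.re * k - A * (2 * k ^ 2 + 2 * k)) -
            (x.re ^ 2 + 1 * x.re * (2 * k + 1) - A * (2 * k + 1) ^ 2) := by ring
        rw [e]
        exact dvd_sub (dvd_add h4 (Dvd.intro _ rfl)) h2
      have hD7 : D % 8 = 7 := by
        unfold absD at hDD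
        omega
      have h2 : ((2 : ℕ) : ℤ) = 2 := rfl
      rw [h2, jacobiSym.at_two hodd, ZMod.χ₈_nat_eq_if_mod_eight]
      have h1 : D % 2 ≠ 0 := by omega
      simp [h1, hD7]
    · have hDq : (((-D : ℤ)) : ZMod q) ≠ 0 := by
        intro h
        have h1 := (ZMod.intCast_zmod_eq_zero_iff_dvd _ _).1 h
        rw [dvd_neg, ← hDD] at h1
        exact hqp.not_isUnit (isUnit_of_dvd_one (by
          obtain ⟨u, v, huv⟩ := hD
          rw [← huv]
          exact dvd_add (Dvd.intro_left _ rfl) (h1.mul_left _)))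
      have hleg : jacobiSym (-D) q = 1 := by
        rw [← jacobiSym.legendreSym.to_jacobiSym, legendreSym.eq_one_iff q hDq]
        refine ⟨((2 * x.re + x.im : ℤ) : ZMod q) / ((x.im : ℤ) : ZMod q), ?_⟩
        have e : (-D : ℤ) = 1 + 4 * A := by
          rw [← hDD]; unfold absD; ring
        rw [e]
        unfold nm at hnZ
        push_cast at hnZ ⊢
        field_simp
        linear_combination -4 * hnZ
      rw [jacobiSym.neg _ hqodd] at hleg
      have hq4 : q % 4 = 1 ∨ q % 4 = 3 := by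
        obtain ⟨k, hk⟩ := hqodd
        omega
      rcases hq4 with h1 | h3
      · rw [ZMod.χ₄_nat_one_mod_four h1, one_mul] at hleg
        rw [jacobiSym.quadratic_reciprocity_one_mod_four h1 hodd]
        exact hleg
      · rw [ZMod.χ₄_nat_three_mod_four h3] at hleg
        rw [jacobiSym.quadratic_reciprocity_three_mod_four h3 hD3]
        linarith

/-- division of an ideal by a number which divides all its elements -/
lemma exists_div (a : OO A B) (I : Ideal (OO A B)) (h : I ≤ sp a) :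
    ∃ c : Ideal (OO A B), I = sp a * c := by
  refine ⟨Submodule.comap (LinearMap.mulLeft (OO A B) a) I, ?_⟩
  apply le_antisymm
  · intro x hx
    obtain ⟨y, hy⟩ := Ideal.mem_span_singleton.1 (h hx)
    rw [Ideal.mem_span_singleton_mul]
    refine ⟨y, ?_, hy.symm⟩
    change a * y ∈ I
    rwa [← hy]
  · intro x hx
    rw [Ideal.mem_span_singleton_mul] at hx
    obtain ⟨y, hy, rfl⟩ := hx
    exact hy

lemma coprime_of_dvd {n q : ℕ} (h : q ∣ n) {D : ℤ} (hD : IsCoprime (n : ℤ) D) :
    IsCoprime (q : ℤ) D := by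
  obtain ⟨k, rfl⟩ := h
  push_cast at hD
  exact hD.of_mul_left_left

/-- the norm of an ideal prime to `D` -/
lemma chi_nI (hQ : CQ A B) (h1 : Sx_ALG) (h2 : Sx_IDL) (h3 : Sx_QB) (h5 : Sx_NIM) :
    ∀ (n : ℕ) (c : Ideal (OO A B)), c ≠ ⊥ → nI c = n → IsCoprime (n : ℤ) (absD A B) →
      chiQ A B n = 1 := by
  intro n
  induction n using Nat.strong_induction_on with
  | _ n ih =>
    intro c hc hn hD
    have hn0 : n ≠ 0 := by rw [← hn]; exact (h2 A B hQ c hc).1
    by_cases hp : ∃ q : ℕ, q.Prime ∧ c ≤ sp ((q : ℕ) : OO A B)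
    · obtain ⟨q, hq, hle⟩ := hp
      obtain ⟨c', hc'⟩ := exists_div _ c hle
      have hc0 : c' ≠ ⊥ := by
        rintro rfl
        rw [Ideal.mul_bot] at hc'
        exact hc hc'
      have hq0 : ((q : ℕ) : OO A B) ≠ 0 := by
        intro h
        have := congrArg QuadraticAlgebra.re h
        simp at this
        exact hq.ne_zero this
      have hsp : sp ((q : ℕ) : OO A B) ≠ ⊥ := by
        intro h
        exact hq0 (Ideal.span_singleton_eq_bot.1 h)
      have e1 : nI c = q ^ 2 * nI c' := by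
        rw [hc', ((h5 A B hQ).1 _ _ hsp hc0).1]
        congr 1
        rcases (h5 A B hQ).2.1 ((q : ℕ) : OO A B) with h | h
        · rw [h]
          have := ((h1 A B hQ).2.2.1 (q : ℤ)).2
          rw [Int.cast_natCast] at this
          rw [this, Int.natAbs_pow, Int.natAbs_natCast]
        · exact absurd h hq0
      have hc'0 : nI c' ≠ 0 := (h2 A B hQ c' hc0).1
      have hcop : IsCoprime ((nI c' : ℕ) : ℤ) (absD A B) :=
        coprime_of_dvd (Dvd.intro_left (q ^ 2) (e1.symm.trans hn)) hD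
      have hcopq : IsCoprime (q : ℤ) (absD A B) :=
        coprime_of_dvd (n := n) ⟨q * nI c', by rw [← hn, e1]; ring⟩ hD
      have h4 : 2 ≤ q := hq.two_le
      have hlt : nI c' < n := by
        rw [← hn, e1]
        have h5 : 0 < nI c' := Nat.pos_of_ne_zero hc'0
        have h6 : 1 < q ^ 2 := by nlinarith
        calc nI c' = 1 * nI c' := (one_mul _).symm
          _ < q ^ 2 * nI c' := Nat.mul_lt_mul_of_pos_right h6 h5
      have hih := ih (nI c') hlt c' hc0 rfl hcop
      have hq2 : chiQ A B ((q * q : ℕ) : ℤ) = 1 := by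
        rw [chi_mul q q hq.ne_zero hq.ne_zero]
        rcases hQ.hB with rfl | rfl
        all_goals
          unfold chiQ
          split_ifs
        · omega
        · have hs : ((q : ℤ)).sign = 1 := Int.sign_eq_one_of_pos (by exact_mod_cast hq.pos)
          rw [hs, mul_one, Int.natAbs_natCast, ← sq]
          apply jacobiSym.sq_one
          have hA : IsCoprime A (q : ℤ) := by
            have : absD A 0 = (-4) * A := by unfold absD; ring
            rw [this] at hcopq
            exact hcopq.of_mul_right_right.symm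
          exact Int.isCoprime_iff_gcd_eq_one.1 hA
        · rw [← sq]
          apply jacobiSym.sq_one
          have hneg := hQ.neg
          have : (((absD A 1).toNat : ℕ) : ℤ) = absD A 1 := by
            unfold absD; omega
          rw [this]
          exact Int.isCoprime_iff_gcd_eq_one.1 hcopq
        · omega
      have e2 : n = (q * q) * nI c' := by rw [← hn, e1]; ring
      rw [e2, chi_mul (q * q) (nI c') (mul_ne_zero hq.ne_zero hq.ne_zero) hc'0, hq2, hih,
        one_mul]
    · push Not at hp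
      apply chi_of_primes n hn0
      intro q hq hqn
      have h := hp q hq
      rw [SetLike.not_le_iff_exists] at h
      obtain ⟨x, hx, hxq⟩ := h
      rw [mem_sp_natCast] at hxq
      apply chi_prime hQ q hq (coprime_of_dvd hqn hD) x hxq
      have h4 := ((h3 A B hQ c hc).1 x hx).1
      rw [h4, hn]
      exact (Int.natCast_dvd_natCast.2 hqn).mul_right _

lemma nm_coprime (x : OO A B) (D : ℤ) (h : IsCoprime x ((D : ℤ) : OO A B))
    (hm : ∀ x y : OO A B, nm (x * y) = nm x * nm y) : IsCoprime (nm x) D := by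
  obtain ⟨u, v, huv⟩ := h
  have e : u * x = 1 - v * ((D : ℤ) : OO A B) := by linear_combination huv
  have e2 := congrArg nm e
  rw [hm] at e2
  have e3 : nm (1 - v * ((D : ℤ) : OO A B)) =
      1 + D * (-2 * v.re + D * v.re ^ 2 - B * v.im + B * D * v.re * v.im - A * D * v.im ^ 2) := by
    have o1 : (1 : OO A B).re = 1 := rfl
    have o2 : (1 : OO A B).im = 0 := rfl
    unfold nm
    simp [o1, o2]
    ring
  rw [e3] at e2
  exact ⟨nm u, -(-2 * v.re + D * v.re ^ 2 - B * v.im + B * D * v.re * v.im -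
    A * D * v.im ^ 2), by linear_combination e2⟩

end REC

open REC in
/-- (REC) -/
theorem tx_REC (h1 : Sx_ALG) (h2 : Sx_IDL) (h3 : Sx_QB) (h5 : Sx_NIM) : Sx_REC := by
  intro A B hQ b hb x hx hco
  have hnm := nm_coprime x (absD A B) hco (fun x y => ((h1 A B hQ).1 x y).2.2)
  have hq := ((h3 A B hQ b hb).1 x hx)
  have hcq : IsCoprime (qb b x) (absD A B) := by
    rw [hq.1] at hnm
    exact hnm.of_mul_left_right
  refine ⟨hcq, ?_⟩
  have hb0 := (h2 A B hQ b hb).1
  have hD3 : 3 ≤ absD A B := by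
    have := hQ.neg
    rcases hQ.hB with rfl | rfl <;> unfold absD <;> omega
  have hx0 : x ≠ 0 := by
    rintro rfl
    have h0 : nm (0 : OO A B) = 0 := by simp [nm]
    rw [h0, isCoprime_zero_left, Int.isUnit_iff] at hnm
    omega
  have hle : sp x * cjI b ≤ sp ((nI b : ℕ) : OO A B) := by
    rw [← (h2 A B hQ b hb).2]
    exact Ideal.mul_mono_left ((Ideal.span_singleton_le_iff_mem _).2 hx)
  obtain ⟨c, hc⟩ := exists_div _ _ hle
  have hcj := (h5 A B hQ).2.2.1 b hb
  have hspx : sp x ≠ ⊥ := fun h => hx0 (Ideal.span_singleton_eq_bot.1 h)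
  have hprod := (h5 A B hQ).1 (sp x) (cjI b) hspx hcj.2.2.1
  have hc0 : c ≠ ⊥ := by
    rintro rfl
    rw [Ideal.mul_bot] at hc
    exact hprod.2 hc
  have hN0 : ((nI b : ℕ) : OO A B) ≠ 0 := by
    intro h
    have := congrArg QuadraticAlgebra.re h
    simp at this
    exact hb0 this
  have hspN : sp ((nI b : ℕ) : OO A B) ≠ ⊥ := fun h => hN0 (Ideal.span_singleton_eq_bot.1 h)
  have e1 := hprod.1
  rw [hc, ((h5 A B hQ).1 _ _ hspN hc0).1, hcj.1] at e1
  have e2 : nI (sp x) = (nm x).natAbs := ((h5 A B hQ).2.1 x).resolve_right hx0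
  have e3 : nI (sp ((nI b : ℕ) : OO A B)) = nI b ^ 2 := by
    rw [((h5 A B hQ).2.1 _).resolve_right hN0]
    have := ((h1 A B hQ).2.2.1 ((nI b : ℕ) : ℤ)).2
    rw [Int.cast_natCast] at this
    rw [this, Int.natAbs_pow, Int.natAbs_natCast]
  rw [e2, e3] at e1
  have hnn : 0 ≤ nm x := ((h1 A B hQ).2.1 x).2.2.1
  have e4 : ((nI b : ℕ) : ℤ) ^ 2 * ((nI c : ℕ) : ℤ) = nm x * ((nI b : ℕ) : ℤ) := by
    have := congrArg (fun n : ℕ => (n : ℤ)) e1
    push_cast at this
    rw [abs_of_nonneg hnn] at this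
    exact this
  have e5 : ((nI c : ℕ) : ℤ) = qb b x := by
    rw [hq.1] at e4
    have hb0' : ((nI b : ℕ) : ℤ) ≠ 0 := by exact_mod_cast hb0
    have : ((nI b : ℕ) : ℤ) ^ 2 * ((nI c : ℕ) : ℤ) = ((nI b : ℕ) : ℤ) ^ 2 * qb b x := by
      linear_combination e4
    exact mul_left_cancel₀ (pow_ne_zero 2 hb0') this
  rw [← e5] at hcq ⊢
  exact chi_nI hQ h1 h2 h3 h5 _ c hc0 rfl hcq

end Pool.Agent.MUXF
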