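import Pool.Agent.MUX.StXF

/-!
# MUX, block XF: rules for `sumB` (SMB) (helper91)
-/

set_option autoImplicit false

namespace Pool.Agent.MUXF

open _root_.MU3 Pool.Agent.MU3A Pool.Agent.MU3B Pool.Agent.MU3F Pool.Agent.MuSym OnePoint

namespace Smb

theorem fin {A B : ℤ} (b : Ideal (OO A B)) (m : ℕ) (hm : m ≠ 0) :
    Finite (b ⧸ (nsmulAddMonoidHom (α := b) m).range) := by
  have h0 : Module.Finite ℤ (OO A B) := inferInstance
  have h1 : IsNoetherian ℤ (OO A B) := inferInstance
  have h2 : Module.Finite ℤ b :=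
    inferInstanceAs (Module.Finite ℤ (Submodule.restrictScalars ℤ b))
  have h3 : Module.Finite ℤ (b ⧸ (nsmulAddMonoidHom (α := b) m).range) :=
    Module.Finite.of_surjective
      (QuotientAddGroup.mk' (nsmulAddMonoidHom (α := b) m).range).toIntLinearMap
      (QuotientAddGroup.mk'_surjective _)
  refine Module.finite_of_fg_torsion _ ?_
  intro x
  refine ⟨⟨(m : ℤ), mem_nonZeroDivisors_of_ne_zero (by exact_mod_cast hm)⟩, ?_⟩
  obtain ⟨y, rfl⟩ := QuotientAddGroup.mk_surjective x
  show (m : ℤ) • (QuotientAddGroup.mk y : b ⧸ (nsmulAddMonoidHom (α := b) m).range) = 0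
  rw [natCast_zsmul, ← QuotientAddGroup.mk_nsmul, QuotientAddGroup.eq_zero_iff]
  exact ⟨y, rfl⟩

end Smb

/-- (SMB) rules for `sumB` -/
theorem tx_SMB : Sx_SMB := by
  intro A B hc b m hb hm
  classical
  have hfin : Finite (b ⧸ (nsmulAddMonoidHom (α := b) m).range) := Smb.fin b m hm
  let _ : Fintype (b ⧸ (nsmulAddMonoidHom (α := b) m).range) := Fintype.ofFinite _
  refine ⟨hfin, ?_, ?_, ?_, ?_, ?_⟩
  · intro c F
    unfold sumB
    rw [finsum_eq_sum_of_fintype, finsum_eq_sum_of_fintype, Finset.mul_sum]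
  · intro F G
    unfold sumB
    rw [finsum_eq_sum_of_fintype, finsum_eq_sum_of_fintype, finsum_eq_sum_of_fintype,
      Finset.sum_add_distrib]
  · intro s F
    unfold sumB
    simp only [finsum_eq_sum_of_fintype]
    rw [Finset.sum_comm]
  · intro F hF x
    have h1 : QuotientAddGroup.mk (Quotient.out
        (QuotientAddGroup.mk x : b ⧸ (nsmulAddMonoidHom (α := b) m).range)) =
        (QuotientAddGroup.mk x : b ⧸ (nsmulAddMonoidHom (α := b) m).range) :=
      Quotient.out_eq _
    rw [eq_comm, QuotientAddGroup.eq] at h1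
    obtain ⟨y, hy⟩ := h1
    generalize Quotient.out (QuotientAddGroup.mk x : b ⧸ (nsmulAddMonoidHom (α := b) m).range) = u
      at hy
    have h2 : (u : OO A B) = x + m * y := by
      have h3 := congrArg (Subtype.val : b → OO A B) hy
      simp only [nsmulAddMonoidHom_apply, Submodule.coe_add, Submodule.coe_smul_of_tower,
        NegMemClass.coe_neg, nsmul_eq_mul] at h3
      linear_combination -h3
    rw [h2]
    exact hF x x.2 y y.2
  · intro F G h
    unfold sumB
    exact finsum_congr fun q => h _ (Quotient.out q : b).2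

end Pool.Agent.MUXF
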