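import Pool.Agent.MUX.StXF
import Pool.Agent.MU3.F_THD

/-!
# MUX, block XF, THD: theta of an ideal on a vertical line as a combination of lattice sums (helper61)
-/

set_option autoImplicit false

namespace Pool.Agent.MUXF

open _root_.MU3 Pool.Agent.MU3A Pool.Agent.MU3B Pool.Agent.MU3F Pool.Agent.MuSym OnePoint
open scoped ComplexConjugate

noncomputable section

namespace THDX

variable {A B : ℤ}

theorem emb_inj' (hALG : Sx_ALG) (h : CQ A B) {x y : OO A B} (hxy : emb x = emb y) : x = y := by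
  obtain ⟨h1, h2, -⟩ := hALG A B h
  have h3 : emb (x - y) + emb y = emb x := by
    rw [← (h1 (x - y) y).2.1, sub_add_cancel]
  have h4 : emb (x - y) = 0 := by
    rw [hxy] at h3
    exact add_eq_right.mp h3
  exact sub_eq_zero.mp ((h2 _).1.1 h4)

/-- `w ↦ Om w` is a bijection from `b` onto the lattice -/
def eqv (hALG : Sx_ALG) (h : CQ A B) {b : Ideal (OO A B)} {L : PeriodPair} {Om : ℂ}
    (hL : IsLI b L Om) : b ≃ L.lattice :=
  Equiv.ofBijective (fun w => ⟨Om * emb (w : OO A B), (hL.mem _).2 ⟨w, w.2, rfl⟩⟩) (by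
    constructor
    · intro x y hxy
      have h1 : Om * emb (x : OO A B) = Om * emb (y : OO A B) := congrArg Subtype.val hxy
      exact Subtype.ext (emb_inj' hALG h (mul_left_cancel₀ hL.om_ne h1))
    · rintro ⟨z, hz⟩
      obtain ⟨x, hx, rfl⟩ := (hL.mem z).1 hz
      exact ⟨⟨x, hx⟩, rfl⟩)

theorem eqv_val (hALG : Sx_ALG) (h : CQ A B) {b : Ideal (OO A B)} {L : PeriodPair} {Om : ℂ}
    (hL : IsLI b L Om) (w : b) :
    ((eqv hALG h hL w : L.lattice) : ℂ) = Om * emb (w : OO A B) := rfl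

theorem nI_ne (hALG : Sx_ALG) (hQB : Sx_QB) (h : CQ A B) {b : Ideal (OO A B)} (hb : b ≠ ⊥) :
    nI b ≠ 0 := by
  intro h0
  obtain ⟨x, hx, hx0⟩ := Submodule.exists_mem_ne_zero_of_ne_bot hb
  have h1 := ((hQB A B h b hb).1 x hx).1
  rw [h0] at h1
  have h2 : nm x = 0 := by
    rw [h1]
    simp
  exact hx0 (((hALG A B h).2.1 x).2.1.1 h2)

end THDX

open THDX in
/-- theta of an ideal on a vertical line as a combination of lattice sums -/
theorem tx_THD (hALG : Sx_ALG) (hQB : Sx_QB) (hBDD : Sx_BDD) (hTSM : Sx_TSM) (hDCM : Sx_DCM)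
    (hSMB : Sx_SMB) : Sx_THD := by
  intro A B h b L Om hL g e he m M hm hmg hM hMm β t ht
  obtain ⟨hA1, hA2, hA3, -, -⟩ := hALG A B h
  have hb := hL.b_ne
  have hOm := hL.om_ne
  have hN : nI b ≠ 0 := nI_ne hALG hQB h hb
  have hembm : emb ((m : ℕ) : OO A B) = (m : ℂ) := by
    have h1 := (hA3 (m : ℤ)).1
    rw [Int.cast_natCast, Int.cast_natCast] at h1
    exact h1
  have hmC : (m : ℂ) ≠ 0 := by exact_mod_cast hm
  have hmO : ((m : ℕ) : OO A B) ≠ 0 := by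
    intro h0
    rw [h0, (hA2 0).1.2 rfl] at hembm
    exact hmC hembm.symm
  have hg : g ≠ ⊥ := by
    rintro rfl
    exact hmO ((Ideal.mem_bot).1 hmg)
  obtain ⟨-, C, -, hC⟩ := hBDD A B h g e hg he
  have hz : 0 < (((β / M : ℚ) : ℂ) + t * Complex.I).im := by
    have h1 : (((β / M : ℚ) : ℂ)).im = 0 := Complex.ratCast_im _
    rw [Complex.add_im, h1, Complex.mul_I_im, Complex.ofReal_re, zero_add]
    exact ht
  have hs := hTSM A B h b hb e C hC _ hz
  unfold thetaI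
  rw [hDCM A B h b m hb hm (fun x => e x * (starRingEnd ℂ) (emb x) *
    Complex.exp (2 * Real.pi * Complex.I * ((nm x : ℂ) / nI b) *
      (((β / M : ℚ) : ℂ) + t * Complex.I))) hs]
  congr 1
  refine (hSMB A B h b m hb hm).2.2.2.2.2 _ _ fun x hx => ?_
  rw [← (eqv hALG h hL).tsum_eq, ← tsum_mul_left, ← tsum_mul_left]
  refine tsum_congr fun w => ?_
  rw [eqv_val]
  obtain ⟨c, rfl⟩ := hMm
  have e1 : e (x + ((M * c : ℕ) : OO A B) * (w : OO A B)) = e x := he.per _ _ (by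
    rw [add_sub_cancel_left]
    exact g.mul_mem_right _ hmg)
  have e2 : emb (x + ((M * c : ℕ) : OO A B) * (w : OO A B)) = ((M * c : ℕ) : ℂ) / Om *
      (Om * emb x / ((M * c : ℕ) : ℂ) + Om * emb (w : OO A B)) := by
    rw [(hA1 _ _).2.1, (hA1 _ _).1, hembm]
    field_simp
  obtain ⟨k, hk⟩ := (hQB A B h b hb).2.1 x hx w w.2 ((M * c : ℕ) : ℤ)
  have hcast : (((M * c : ℕ) : ℤ) : OO A B) = ((M * c : ℕ) : OO A B) := Int.cast_natCast _
  rw [hcast] at hk
  have hmemb : x + ((M * c : ℕ) : OO A B) * w ∈ b := b.add_mem hx (b.mul_mem_left _ w.2)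
  have hnm := ((hQB A B h b hb).1 _ hmemb).1
  have hNC : (nI b : ℂ) ≠ 0 := by exact_mod_cast hN
  have hNR : (nI b : ℝ) ≠ 0 := by exact_mod_cast hN
  have hq : ((nm (x + ((M * c : ℕ) : OO A B) * (w : OO A B)) : ℤ) : ℂ) / nI b =
      ((qb b (x + ((M * c : ℕ) : OO A B) * (w : OO A B)) : ℤ) : ℂ) := by
    rw [hnm]
    push_cast
    field_simp
  have e3 : ((qb b (x + ((M * c : ℕ) : OO A B) * (w : OO A B)) : ℤ) : ℝ) =
      ‖((M * c : ℕ) : ℂ) / Om‖ ^ 2 *
      ‖Om * emb x / ((M * c : ℕ) : ℂ) + Om * emb (w : OO A B)‖ ^ 2 / nI b := by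
    rw [← mul_pow, ← norm_mul, ← e2, ← ((hA2 _).2.2.2.1), hnm]
    push_cast
    field_simp
  have hk2 : qb b (x + ((M * c : ℕ) : OO A B) * (w : OO A B)) = qb b x + M * ((c : ℤ) * k) := by
    rw [hk]
    push_cast
    ring
  have hstep : Complex.exp (2 * Real.pi * Complex.I *
      (((nm (x + ((M * c : ℕ) : OO A B) * (w : OO A B)) : ℤ) : ℂ) / nI b) *
        (((β / M : ℚ) : ℂ) + t * Complex.I)) =
      ex (β * qb b x / M) * (Real.exp (-((2 * Real.pi * ‖((M * c : ℕ) : ℂ) / Om‖ ^ 2 / nI b) * t *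
        ‖Om * emb x / ((M * c : ℕ) : ℂ) + Om * emb (w : OO A B)‖ ^ 2)) : ℝ) := by
    rw [hq, Pool.Agent.MU3F.THD.exp_split, e3, hk2,
      Pool.Agent.MU3F.THD.ex_congr _ _ _ (Nat.pos_of_ne_zero hM)]
    congr 3
    ring
  show e (x + ((M * c : ℕ) : OO A B) * (w : OO A B)) *
      (starRingEnd ℂ) (emb (x + ((M * c : ℕ) : OO A B) * (w : OO A B))) * _ = _
  rw [hstep, e1, e2, map_mul]
  ring

end

end Pool.Agent.MUXF
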