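import Pool.Agent.MUX.StXF
import Pool.Agent.MU3.F_TSM

/-!
# MUX, block XF: summability of the theta series of an ideal (TSM) (helper65)
-/

set_option autoImplicit false

namespace Pool.Agent.MUXF

open _root_.MU3 Pool.Agent.MU3A Pool.Agent.MU3B Pool.Agent.MU3F Pool.Agent.MuSym OnePoint
open scoped ComplexConjugate

noncomputable section

namespace TsmX

/-- the norm form dominates the sum of squares -/
theorem bd {A B : ℤ} (h : CQ A B) (x : OO A B) :
    (x.re : ℝ) ^ 2 + (x.im : ℝ) ^ 2 ≤ (4 * |(A : ℝ)| + 4) * (nm x : ℝ) := by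
  have hneg : ((B : ℝ) ^ 2 + 4 * (A : ℝ)) ≤ -1 := by
    have h1 : B ^ 2 + 4 * A ≤ -1 := by
      have := h.neg
      omega
    exact_mod_cast h1
  have hA : (A : ℝ) < 0 := by nlinarith [sq_nonneg (B : ℝ)]
  have e : (nm x : ℝ) = (x.re : ℝ) ^ 2 + B * x.re * x.im - A * (x.im : ℝ) ^ 2 := by
    simp [nm]
  rw [e, abs_of_neg hA]
  have h1 : (x.im : ℝ) ^ 2 ≤ 4 * ((x.re : ℝ) ^ 2 + B * x.re * x.im - A * (x.im : ℝ) ^ 2) := by
    nlinarith [sq_nonneg (2 * (x.re : ℝ) + B * x.im), sq_nonneg (x.im : ℝ)]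
  have h2 : (x.re : ℝ) ^ 2 ≤
      (4 * -(A : ℝ)) * ((x.re : ℝ) ^ 2 + B * x.re * x.im - A * (x.im : ℝ) ^ 2) := by
    nlinarith [sq_nonneg (2 * (A : ℝ) * x.im - B * x.re), sq_nonneg (x.re : ℝ)]
  linarith

/-- summability over the whole ring -/
theorem whole {A B : ℤ} (h : CQ A B) (h1 : Sx_ALG) (e : OO A B → ℂ) (C : ℝ)
    (he : ∀ x, ‖e x‖ ≤ C) (z : ℂ) (hz : 0 < z.im) :
    Summable (fun x : OO A B => e x * conj (emb x) *
      Complex.exp (2 * Real.pi * Complex.I * (nm x : ℂ) * z)) := by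
  obtain ⟨-, a2, -, -, -⟩ := h1 A B h
  have hpi := Real.pi_pos
  set K : ℝ := 4 * |(A : ℝ)| + 4 with hK
  have hK0 : 0 < K := by positivity
  have hc : 0 < Real.pi * z.im / K := by positivity
  have h1 := MU3B.PoiAux.gsum2 hc hc 0 0
  have h2 : Summable fun x : OO A B => Real.exp (-(Real.pi * z.im / K * (x.re : ℝ) ^ 2)) *
      Real.exp (-(Real.pi * z.im / K * (x.im : ℝ) ^ 2)) := by
    have h3 := (QuadraticAlgebra.equivProd A B).summable_iff.2 h1
    refine h3.congr fun x => ?_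
    simp [QuadraticAlgebra.equivProd]
  have hC : 0 ≤ C := le_trans (norm_nonneg _) (he 0)
  refine Summable.of_norm_bounded (h2.mul_left (C * (1 + 1 / (Real.pi * z.im)))) fun x => ?_
  have h3 : ‖Complex.exp (2 * Real.pi * Complex.I * (nm x : ℂ) * z)‖ =
      Real.exp (-(2 * (Real.pi * z.im) * (nm x : ℝ))) := by
    rw [Complex.norm_exp]
    congr 1
    have h5 : (2 * Real.pi * Complex.I * (nm x : ℂ) * z) =
        ((2 * Real.pi * (nm x : ℝ) : ℝ) : ℂ) * (Complex.I * z) := by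
      push_cast; ring
    rw [h5, Complex.re_ofReal_mul]
    simp
    ring
  obtain ⟨-, -, n1, n2, -, -, -⟩ := a2 x
  have h4 : ‖emb x‖ = Real.sqrt (nm x : ℝ) := by
    rw [n2, Real.sqrt_sq (norm_nonneg _)]
  have h5 : (0 : ℝ) ≤ (nm x : ℝ) := by exact_mod_cast n1
  rw [norm_mul, norm_mul, RCLike.norm_conj, h3, h4, mul_assoc]
  have h6 := Pool.Agent.MU3F.Tsm.bnd (nm x : ℝ) (Real.pi * z.im) h5 (by positivity)
  have h7 : Real.exp (-(Real.pi * z.im * (nm x : ℝ))) ≤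
      Real.exp (-(Real.pi * z.im / K * (x.re : ℝ) ^ 2)) *
        Real.exp (-(Real.pi * z.im / K * (x.im : ℝ) ^ 2)) := by
    rw [← Real.exp_add]
    apply Real.exp_le_exp.2
    have b1 := bd h x
    have b2 := mul_le_mul_of_nonneg_left b1 hc.le
    have b3 : Real.pi * z.im / K * ((4 * |(A : ℝ)| + 4) * (nm x : ℝ)) =
        Real.pi * z.im * (nm x : ℝ) := by
      rw [← hK]
      field_simp
    rw [b3, mul_add] at b2
    linarith
  have h8 : 0 ≤ 1 + 1 / (Real.pi * z.im) := by positivity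
  calc ‖e x‖ * (Real.sqrt (nm x : ℝ) * Real.exp (-(2 * (Real.pi * z.im) * (nm x : ℝ))))
      ≤ C * ((1 + 1 / (Real.pi * z.im)) * Real.exp (-(Real.pi * z.im * (nm x : ℝ)))) :=
        mul_le_mul (he x) h6 (by positivity) hC
    _ ≤ C * ((1 + 1 / (Real.pi * z.im)) * (Real.exp (-(Real.pi * z.im / K * (x.re : ℝ) ^ 2)) *
        Real.exp (-(Real.pi * z.im / K * (x.im : ℝ) ^ 2)))) :=
        mul_le_mul_of_nonneg_left (mul_le_mul_of_nonneg_left h7 h8) hC
    _ = _ := by ring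

end TsmX

open TsmX in
/-- (TSM) -/
theorem tx_TSM (h1 : Sx_ALG) (_h2 : Sx_QB) : Sx_TSM := by
  intro A B h b hb e C he z hz
  have hfin : Finite (OO A B ⧸ b) := (h1 A B h).2.2.2.1 b hb
  have hn : 0 < nI b := Nat.card_pos
  have hn' : (0 : ℝ) < (nI b : ℝ) := by exact_mod_cast hn
  have hz' : 0 < (z / (nI b : ℂ)).im := by
    have e1 : z / (nI b : ℂ) = z / ((nI b : ℝ) : ℂ) := by push_cast; rfl
    rw [e1, Complex.div_ofReal_im]
    positivity
  have hs := whole h h1 e C he _ hz'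
  have hs2 := hs.comp_injective (i := fun x : b => (x : OO A B)) Subtype.val_injective
  refine hs2.congr fun x => ?_
  show e (x : OO A B) * conj (emb (x : OO A B)) *
      Complex.exp (2 * Real.pi * Complex.I * (nm (x : OO A B) : ℂ) * (z / nI b)) =
    e (x : OO A B) * conj (emb (x : OO A B)) *
      Complex.exp (2 * Real.pi * Complex.I * ((nm (x : OO A B) : ℂ) / nI b) * z)
  congr 2
  ring

end

end Pool.Agent.MUXF
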