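import Pool.Agent.MUX.StXF

/-!
# MUX, block XF: the symbol is an eigensymbol of a power of the Hecke operator (module UH)
-/

set_option autoImplicit false

namespace Pool.Agent.MUXF

open _root_.MU3 Pool.Agent.MU3A Pool.Agent.MU3B Pool.Agent.MU3F Pool.Agent.MuSym OnePoint
open scoped ComplexConjugate

noncomputable section

namespace UHaux

/-- `P ≠ ⊥`, as `⊥ ≠ g ≤ cjI P`. -/
theorem ne_bot_of_le {A B : ℤ} {g P : Ideal (OO A B)} (hg : g ≠ ⊥) (h : g ≤ cjI P) : P ≠ ⊥ := by
  rintro rfl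
  apply hg
  rw [eq_bot_iff]
  intro x hx
  have h1 : (starRingEnd (OO A B)) x ∈ (⊥ : Ideal (OO A B)) := h hx
  rw [Ideal.mem_bot, starRingEnd_apply, star_eq_zero] at h1
  rw [h1]
  exact Ideal.zero_mem _

end UHaux

open UHaux in
theorem tx_UH (h2 : Sx_NIM) (h3 : Sx_HU) (h4 : Sx_PRI) : Sx_UH := by
  intro A B hAB b g P e l hb hg he hP hPl hl hgP
  have hP0 : P ≠ ⊥ := ne_bot_of_le hg hgP
  have hbP : ∀ n : ℕ, b * P ^ n ≠ ⊥ := by
    intro n
    induction n with
    | zero => simpa using hb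
    | succ n ih =>
      rw [pow_succ, ← mul_assoc]
      exact ((h2 A B hAB).1 _ _ ih hP0).2
  have key : ∀ n : ℕ, (hecke l (nuQ e))^[n] (PhiI b e) = PhiI (b * P ^ n) e := by
    intro n
    induction n with
    | zero => simp
    | succ n ih =>
      rw [Function.iterate_succ_apply', ih]
      funext x y
      rw [(h3 A B hAB (b * P ^ n) g P e l (hbP n) hg he hP hPl hl hgP).2 x y, pow_succ, mul_assoc]
  refine ⟨key, fun h a ha hh x y => ?_⟩
  rw [key, hh, mul_comm b (sp a)]
  exact (h4 A B hAB b g e a hb he ha).2 x y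

end

end Pool.Agent.MUXF
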