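import Pool.Agent.MUX.StXF

/-!
# MUX, block XF: module UL, the operator `U_l` on the theta series of ideals (helper76)

The model is `MU3/F_U3.lean` (helper26).
-/

set_option autoImplicit false

namespace Pool.Agent.MUXF

open _root_.MU3 Pool.Agent.MU3A Pool.Agent.MU3B Pool.Agent.MU3F Pool.Agent.MuSym OnePoint
open scoped ComplexConjugate

noncomputable section

namespace FUL

/-- the sum of the exponentials -/
theorem geom {l : ℕ} (hl : l ≠ 0) (n : ℤ) (z : ℂ) :
    ∑ j ∈ Finset.range l, Complex.exp (2 * Real.pi * Complex.I * (n : ℂ) * ((z + j) / l)) =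
      if (l : ℤ) ∣ n then l * Complex.exp (2 * Real.pi * Complex.I * (n : ℂ) * (z / l)) else 0 := by
  have hl0 : (l : ℂ) ≠ 0 := Nat.cast_ne_zero.2 hl
  set ω : ℂ := Complex.exp (2 * Real.pi * Complex.I * (n : ℂ) / l) with hω
  have h1 : ∀ j : ℕ, Complex.exp (2 * Real.pi * Complex.I * (n : ℂ) * ((z + j) / l)) =
      Complex.exp (2 * Real.pi * Complex.I * (n : ℂ) * (z / l)) * ω ^ j := by
    intro j
    rw [hω, ← Complex.exp_nat_mul, ← Complex.exp_add]
    congr 1
    ring
  simp only [h1, ← Finset.mul_sum]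
  have h3 : ω ^ l = 1 := by
    rw [hω, ← Complex.exp_nat_mul, Complex.exp_eq_one_iff]
    refine ⟨n, ?_⟩
    rw [mul_div_cancel₀ _ hl0]
    ring
  have hpi : (2 * Real.pi * Complex.I : ℂ) ≠ 0 := by
    have : (Real.pi : ℂ) ≠ 0 := Complex.ofReal_ne_zero.2 Real.pi_ne_zero
    simp [this]
  by_cases h : (l : ℤ) ∣ n
  · rw [if_pos h]
    obtain ⟨k, rfl⟩ := h
    have : ω = 1 := by
      rw [hω, Complex.exp_eq_one_iff]
      refine ⟨k, ?_⟩
      push_cast
      field_simp
    rw [this]
    simp only [one_pow, Finset.sum_const, Finset.card_range, nsmul_eq_mul, mul_one]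
    ring
  · rw [if_neg h]
    have hne : ω ≠ 1 := by
      intro h1
      rw [hω, Complex.exp_eq_one_iff] at h1
      obtain ⟨k, hk⟩ := h1
      apply h
      refine ⟨k, ?_⟩
      have h2 : (2 * Real.pi * Complex.I : ℂ) * n = (2 * Real.pi * Complex.I : ℂ) * (l * k) := by
        rw [div_eq_iff hl0] at hk
        rw [hk]
        ring
      have h3 := mul_left_cancel₀ hpi h2
      exact_mod_cast h3
    have h4 : ∑ i ∈ Finset.range l, ω ^ i = 0 := by
      have h5 : (ω - 1) * ∑ i ∈ Finset.range l, ω ^ i = 0 := by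
        rw [mul_geom_sum, h3, sub_self]
      rcases mul_eq_zero.1 h5 with h6 | h6
      · exact absurd (sub_eq_zero.1 h6) hne
      · exact h6
    rw [h4, mul_zero]

end FUL

open FUL in
theorem tx_UL (hALG : Sx_ALG) (hQB : Sx_QB) (hLCN : Sx_LCN) (hBDD : Sx_BDD) (hTSM : Sx_TSM) :
    Sx_UL := by
  intro A B hc b g P e l hb hg he hP hPl hl hgP z hz
  obtain ⟨-, -, -, hfin, -⟩ := hALG A B hc
  obtain ⟨hQ1, -, -⟩ := hQB A B hc b hb
  obtain ⟨-, -, hN, hq, hL⟩ := hLCN A B hc b P l hb hP hPl hl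
  obtain ⟨-, C, -, hC⟩ := hBDD A B hc g e hg he
  have hS := hTSM A B hc b hb e C hC
  have hl0 : (l : ℂ) ≠ 0 := Nat.cast_ne_zero.2 hl.ne_zero
  have hlpos : (0 : ℝ) < l := Nat.cast_pos.2 hl.pos
  have hnb : nI b ≠ 0 := by
    have := hfin b hb
    exact (Nat.card_pos (α := OO A B ⧸ b)).ne'
  have hnb0 : (nI b : ℂ) ≠ 0 := Nat.cast_ne_zero.2 hnb
  have him : ∀ j : ℕ, 0 < ((z + j) / l).im := by
    intro j
    have : ((z + j) / l).im = z.im / l := by
      rw [show (z + j) / l = ((1 / l : ℝ) : ℂ) * (z + j) by push_cast; ring, Complex.im_ofReal_mul]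
      simp
      ring
    rw [this]
    positivity
  have hnm : ∀ x : b, ((nm (x : OO A B) : ℂ) / nI b) = ((qb b (x : OO A B) : ℤ) : ℂ) := by
    intro x
    rw [(hQ1 x x.2).1]
    push_cast
    field_simp
  set G : b → ℂ := fun x => ∑ j ∈ Finset.range l, e x * conj (emb (x : OO A B)) *
    Complex.exp (2 * Real.pi * Complex.I * ((nm (x : OO A B) : ℂ) / nI b) * ((z + j) / l)) with hG
  have hGx : ∀ x : b, G x = e x * conj (emb (x : OO A B)) * (if (l : ℤ) ∣ qb b (x : OO A B) then
      l * Complex.exp (2 * Real.pi * Complex.I * ((qb b (x : OO A B) : ℤ) : ℂ) * (z / l))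
      else 0) := by
    intro x
    rw [hG]
    simp only [hnm]
    rw [← Finset.mul_sum, geom hl.ne_zero]
  have h1 : ∑ j ∈ Finset.range l, thetaI b e ((z + j) / l) = (1 / 2) * ∑' x, G x := by
    unfold thetaI
    rw [← Finset.mul_sum]
    congr 1
    rw [hG, ← Summable.tsum_finsetSum]
    intro j _
    exact hS _ (him j)
  have hle : b * P ≤ b := Ideal.mul_le_left
  set ι : ↥(b * P) → b := fun y => ⟨y.1, hle y.2⟩ with hι
  have hinj : Function.Injective ι := by
    intro x y hxy
    have := congrArg Subtype.val hxy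
    exact Subtype.ext this
  have hcj : cjI P ≠ ⊤ := by
    intro h0
    apply hP.ne_top
    rw [Ideal.eq_top_iff_one] at h0 ⊢
    have h2 : starRingEnd (OO A B) 1 ∈ P := h0
    rwa [map_one] at h2
  have hsupp : Function.support G ⊆ Set.range ι := by
    intro x hx
    rw [Function.mem_support, hGx] at hx
    have hex : e x ≠ 0 := by
      intro h0; apply hx; rw [h0]; ring
    have h3 : (l : ℤ) ∣ qb b (x : OO A B) := by
      by_contra h0; apply hx; rw [if_neg h0, mul_zero]
    rcases hL x x.2 h3 with h4 | h4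
    · exact ⟨⟨x.1, h4⟩, Subtype.ext rfl⟩
    · exfalso
      have h5 := (he.supp x).1 hex
      rw [Ideal.isCoprime_iff_sup_eq] at h5
      apply hcj
      rw [eq_top_iff, ← h5]
      refine sup_le ?_ hgP
      rw [Ideal.span_singleton_le_iff_mem]
      exact Ideal.mul_le_right h4
  have h2 : ∑' x, G x = ∑' y, G (ι y) := (hinj.tsum_eq hsupp).symm
  have h3 : ∀ y : ↥(b * P), G (ι y) = l * (e y * conj (emb (y : OO A B)) *
      Complex.exp (2 * Real.pi * Complex.I * ((nm (y : OO A B) : ℂ) / nI (b * P)) * z)) := by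
    intro y
    have h4 := hq y y.2
    have h5 : ((nm (y : OO A B) : ℂ) / nI (b * P)) = ((qb (b * P) (y : OO A B) : ℤ) : ℂ) := by
      rw [(hQ1 y (hle y.2)).1, h4, hN]
      push_cast
      field_simp
    rw [hGx]
    have h6 : qb b ((ι y : b) : OO A B) = l * qb (b * P) (y : OO A B) := h4
    rw [h6, if_pos (dvd_mul_right _ _), h5]
    have h7 : 2 * Real.pi * Complex.I * (((l : ℤ) * qb (b * P) (y : OO A B) : ℤ) : ℂ) * (z / l) =
        2 * Real.pi * Complex.I * ((qb (b * P) (y : OO A B) : ℤ) : ℂ) * z := by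
      push_cast
      field_simp
    rw [h7]
    ring
  rw [h1, h2]
  simp only [h3]
  rw [tsum_mul_left]
  unfold thetaI
  ring

end

end Pool.Agent.MUXF
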