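import Pool.Agent.MU3.BAll
import Pool.Agent.MU3.FAll
import Pool.Agent.MUX.F_ALG
import Pool.Agent.MUX.F_BDD
import Pool.Agent.MUX.F_CHI
import Pool.Agent.MUX.F_CNV
import Pool.Agent.MUX.F_DCM
import Pool.Agent.MUX.F_DISX
import Pool.Agent.MUX.F_F4
import Pool.Agent.MUX.F_F5
import Pool.Agent.MUX.F_F7
import Pool.Agent.MUX.F_HU
import Pool.Agent.MUX.F_IDL
import Pool.Agent.MUX.F_ITG
import Pool.Agent.MUX.F_LAT1
import Pool.Agent.MUX.F_LCN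
import Pool.Agent.MUX.F_NIM
import Pool.Agent.MUX.F_PHX
import Pool.Agent.MUX.F_PRD
import Pool.Agent.MUX.F_PRI
import Pool.Agent.MUX.F_PRJ
import Pool.Agent.MUX.F_QB
import Pool.Agent.MUX.F_REC
import Pool.Agent.MUX.F_SMB
import Pool.Agent.MUX.F_THD
import Pool.Agent.MUX.F_TSM
import Pool.Agent.MUX.F_UH
import Pool.Agent.MUX.F_UL

/-!
# MUX, block XF: all statements, without hypotheses (helper87)
-/

set_option autoImplicit false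

namespace Pool.Agent.MUXF

open _root_.MU3 Pool.Agent.MU3B Pool.Agent.MU3F

theorem xf_ALG : Sx_ALG := tx_ALG
theorem xf_IDL : Sx_IDL := tx_IDL xf_ALG
theorem xf_NIM : Sx_NIM := tx_NIM xf_ALG xf_IDL
theorem xf_QB : Sx_QB := tx_QB xf_ALG xf_IDL
theorem xf_LCN : Sx_LCN := tx_LCN xf_ALG xf_IDL xf_NIM xf_QB
theorem xf_BDD : Sx_BDD := tx_BDD xf_ALG
theorem xf_SMB : Sx_SMB := tx_SMB
theorem xf_TSM : Sx_TSM := tx_TSM xf_ALG xf_QB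
theorem xf_DCM : Sx_DCM := tx_DCM xf_ALG xf_SMB
theorem xf_CNV : Sx_CNV := tx_CNV
theorem xf_THD : Sx_THD := tx_THD xf_ALG xf_QB xf_BDD xf_TSM xf_DCM xf_SMB
theorem xf_F4 : Sx_F4 := tx_F4 xf_SMB xf_IDL xf_THD b_INT
theorem xf_LAT1 : Sx_LAT1 := tx_LAT1 xf_ALG
theorem xf_ITG : Sx_ITG := tx_ITG xf_ALG xf_F4 xf_LAT1
theorem xf_F5 : Sx_F5 := tx_F5 xf_ALG xf_IDL xf_QB xf_CNV xf_F4 b_PER
theorem xf_PRD : Sx_PRD := tx_PRD xf_QB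
theorem xf_UL : Sx_UL := tx_UL xf_ALG xf_QB xf_LCN xf_BDD xf_TSM
theorem xf_HU : Sx_HU := tx_HU xf_LCN xf_UL xf_ITG
theorem xf_PRI : Sx_PRI := tx_PRI xf_ALG xf_NIM
theorem xf_UH : Sx_UH := tx_UH xf_NIM xf_HU xf_PRI
theorem xf_CHI : Sx_CHI := tx_CHI
theorem xf_REC : Sx_REC := tx_REC xf_ALG xf_IDL xf_QB xf_NIM
theorem xf_PHX : Sx_PHX := tx_PHX xf_CHI xf_REC
theorem xf_PRJ : Sx_PRJ := tx_PRJ xf_ALG xf_QB xf_BDD xf_TSM xf_ITG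
theorem xf_F7 : Sx_F7 := tx_F7 xf_BDD f_FG
theorem xf_DISX : Sx_DISX := tx_DISX b_SUM b_INT

end Pool.Agent.MUXF
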