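import Pool.Agent.MUX.StYX
import Pool.Agent.MUX.StR2
import Pool.Agent.MUX.XFAll
import Pool.Agent.MUX.UAll

/-!
# MUX: existence of representatives `Reps`, `LatFacts`, and algebraicity for all ideals (helper41)

Every statement is a `def Sy_X : Prop`. A module proves `theorem ty_X (h : ..) .. : Sy_X` in the file
`Pool/Agent/MUX/Y_X.lean`, namespace `Pool.Agent.MUXY`, where the hypotheses are the statements `Sy_..` named under
USES (fewer is fine). The following are theorems and may be used directly: `Pool.Agent.MUXF.xf_X : Sx_X` (`XFAll.lean`: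
`xf_ALG`, `xf_IDL`, `xf_NIM`, `xf_QB`, `xf_LAT1`, `xf_PRI`, `xf_BDD`; they are about `MUXF.CQ`, use `cqF` for a hypothesis
`MUX.CQ`; `nI`, `cjI`, `sp` of the two namespaces are equal by `rfl`), `Pool.Agent.MUXU.u_X : Su_X` (`UAll.lean`: `u_DET`,
`u_SCX`), `Pool.Agent.MU3B.b_DSC` (`BAll.lean`), `Pool.Agent.MU3A.ta_SCP` (`A_SCP.lean`: scaling of `g₂`, `g₃`), and
`Pool.Agent.MUXY.Muu.scale` (`Y_MUU.lean`: if `g₂ = -18 g₃` and `z ∈ L ↔ s z ∈ L` then `s = ±1`).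

`N b = nI b`. (ALG): `emb` is additive, multiplicative, injective; `nm x = x * star x`; (IDL): `N b ≠ 0`, `b * cjI b = sp (N b)`;
(NIM): `N (b c) = N b N c`, `N (sp a) = |nm a|`, `N (cjI b) = N b`, `N b ∈ b`, cancellation `b c ≤ b c' ↔ c ≤ c'`; (QB): `nm x = N b * qb b x`
for `x ∈ b`.
-/

set_option autoImplicit false

namespace Pool.Agent.MUXY

open _root_.MU3 Pool.Agent.MU3A Pool.Agent.MU3B Pool.Agent.MUXU OnePoint
open Pool.Agent.MUX (CQ CaseP nI cjI sp IsLI IsNL IsEI PhiI Reps TorX)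
open Pool.Agent.MUXF (qb)

noncomputable section

/-- `b` and `c` are in the same ideal class -/
def Cl {A B : ℤ} (b c : Ideal (OO A B)) : Prop :=
  ∃ x y : OO A B, x ≠ 0 ∧ y ≠ 0 ∧ sp x * b = sp y * c

theorem Cl.refl {A B : ℤ} [Nontrivial (OO A B)] (b : Ideal (OO A B)) : Cl b b :=
  ⟨1, 1, one_ne_zero, one_ne_zero, rfl⟩

theorem Cl.symm {A B : ℤ} {b c : Ideal (OO A B)} (h : Cl b c) : Cl c b := by
  obtain ⟨x, y, hx, hy, h⟩ := h
  exact ⟨y, x, hy, hx, h.symm⟩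

/-! ## Normalised lattices -/

/-- (MLR) the multipliers of an ideal are in `O`.

PROOF. Induction (`Submodule.mul_induction_on`): for `r ∈ b * cjI b` there is `r' ∈ b * cjI b` with `s emb r = emb r'` (`r = x y`: `s emb x emb y = emb (x' y)`). For `r = N b`: `s N(b) = emb r'`, `r' ∈ sp (N b)` (IDL), `r' = N(b) t`, `N(b) ≠ 0`. -/
def Sy_MLR : Prop :=
  ∀ A B : ℤ, CQ A B → ∀ (b : Ideal (OO A B)) (s : ℂ), b ≠ ⊥ →
    (∀ x ∈ b, ∃ y ∈ b, s * emb x = emb y) → ∃ t : OO A B, s = emb t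

/-- (NZL) `g₂, g₃ ≠ 0`.

USES MLR. PROOF. `disc ≠ 0` (`b_DSC`), so not both are `0`. Let `g₂ = 0` and `ζ = (-1 + i sqrt 3)/2`, `ζ² + ζ + 1 = 0`, `ζ³ = 1`. `L' = ζ L` (`u_SCX`) has `g₂ = 0 = g₂(L)` and `g₃(L') = g₃(L)/ζ⁶ = g₃(L)` (`ta_SCP`), so `L' = L`
(`u_DET`): `ζ emb x ∈ emb b` for `x ∈ b`, and `ζ = emb t` (MLR). `t² + t + 1 = 0` in `O` (`emb` injective), `t = x + y w`: the coordinates are `x² + A y² + x + 1 = 0`, `2 x y + B y² + y = 0`. `y ≠ 0` (`x² + x + 1 ≠ 0`), so `2 x + B y + 1 = 0`, and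
`4 (x² + A y² + x + 1) = (2x + 1)² + 4 A y² + 3 = (B² + 4A) y² + 3 = 3 - absD y²`: `absD y² = 3`, `absD = 3`. The same for `g₃ = 0`, `ζ = i`: `x² + A y² + 1 = 0`, `2 x + B y = 0`, `4 - absD y² = 0`; `absD ∈ {1, 4}`, and `absD = 1` is impossible (`B = 0`: `-4A = 1`; `B = 1`: `-(1 + 4A) = 1`). -/
def Sy_NZL : Prop :=
  ∀ A B : ℤ, CQ A B → absD A B ≠ 3 → absD A B ≠ 4 →
    ∀ (b : Ideal (OO A B)) (L : PeriodPair) (om : ℂ), IsLI b L om → L.g₂ ≠ 0 ∧ L.g₃ ≠ 0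

/-- (NLE) existence of normalised lattices.

USES NZL. PROOF. `L₁` with `IsLI b L₁ 1` (`xf_LAT1`); `u² = -18 g₃(L₁)/g₂(L₁) ≠ 0`; `L` with `IsLI b L u` (`xf_LAT1`); `z ∈ L₁ ↔ u z ∈ L`, so `g₂(L) = g₂/u⁴`, `g₃(L) = g₃/u⁶` (`ta_SCP`), `-18 g₃(L) = u² g₂/u⁶ = g₂(L)`. -/
def Sy_NLE : Prop :=
  ∀ A B : ℤ, CQ A B → absD A B ≠ 3 → absD A B ≠ 4 → ∀ b : Ideal (OO A B), b ≠ ⊥ →
    ∃ (L : PeriodPair) (om : ℂ), IsNL b L om

/-- (NLD) if there is a normalised lattice then `absD ≠ 3, 4`.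

PROOF. `absD = 3`: `B = 1`, `A = -1` (`B = 0`: `-4A = 3`, no), `w² = -1 + w`, `w³ = -1`, `w` is a unit (`w (1 - w) = 1`), so `z ∈ L ↔ wC z ∈ L` (`L = om emb b`); `Muu.scale`: `wC = ±1`, but `wC² = wC - 1`: `1 = 0` or `1 = -2`. `absD = 4`: `B = 0`, `A = -1`
(`B = 1`: `-(1 + 4A) = 4`, no), `wC² = -1`, a unit: `wC = ±1`, contradiction. -/
def Sy_NLD : Prop :=
  ∀ A B : ℤ, CQ A B → ∀ (b : Ideal (OO A B)) (L : PeriodPair) (om : ℂ), IsNL b L om →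
    absD A B ≠ 3 ∧ absD A B ≠ 4

/-- (CPD) PROOF. `B² + 4A ≡ 1` modulo `3` or `8`, and `absD = -(B² + 4A)`: `omega`. -/
def Sy_CPD : Prop :=
  ∀ (p : ℕ) (A B : ℤ), CaseP p A B → absD A B ≠ 3 ∧ absD A B ≠ 4

/-! ## Ideal classes -/

/-- (SML) a small element.

PROOF. `N = N b = #(O/b) ≥ 1`, `s = Nat.sqrt N`, `s² ≤ N < (s+1)²`. The `(s+1)²` elements `i + j w`, `0 ≤ i, j ≤ s`, are not pairwise incongruent modulo `b` (`Finite.exists_ne_map_eq_of..`, `Fintype.exists_ne_map_eq_of_card_lt`; `O/b` finite: `xf_ALG`), so there is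
`x = i + j w ∈ b`, `x ≠ 0`, `|i|, |j| ≤ s`. `nm x = i² + B i j - A j² ≤ (1 + |B| + |A|) s² ≤ (1 + |A| + |B|) N`. -/
def Sy_SML : Prop :=
  ∀ A B : ℤ, CQ A B → ∀ b : Ideal (OO A B), b ≠ ⊥ →
    ∃ x ∈ b, x ≠ 0 ∧ nm x ≤ (1 + |A| + |B|) * nI b

/-- (DVI) the ideal `y b / N b`.

PROOF. `sp y * b ≤ cjI b * b = sp (N b)` (IDL). `c := {z : N(b) z ∈ sp y * b}` (an ideal: `Ideal.comap`-like, or give the fields). `sp (N b) * c = sp y * b`: an element of the right side is `N(b) z` with `z ∈ c`. `c ≠ ⊥`: `sp y * b ≠ ⊥`. Norms: `N(b)² N(c) = nm y N(b)` (NIM),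
`nm y = N(cjI b) qb (cjI b) y = N(b) qb (cjI b) y` (QB). -/
def Sy_DVI : Prop :=
  ∀ A B : ℤ, CQ A B → ∀ (b : Ideal (OO A B)) (y : OO A B), b ≠ ⊥ → y ∈ cjI b → y ≠ 0 →
    ∃ c : Ideal (OO A B), c ≠ ⊥ ∧ sp ((nI b : ℕ) : OO A B) * c = sp y * b ∧
      (nI c : ℤ) = qb (cjI b) y

/-- (FCL) finitely many classes.

USES SML, DVI. PROOF. `C = 1 + |A| + |B|`. Let `b ≠ ⊥`, `x ∈ b` from (SML) for `b`. (DVI) for `cjI b` and `y = x ∈ b = cjI (cjI b)`: `c` with `sp (N b) * c = sp x * cjI b`, `N(c) = qb b x = nm x/N(b) ≤ C`. Apply `cjI` (`cjI` of a product, of `sp`; or: multiply by `b`: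
`sp (N b) * (c * b) = sp x * sp (N b)`, so `c * b = sp x`, and multiply by `cjI c`: `sp (N c) * b = sp x * cjI c`). So `Cl b (cjI c)`, and `N(cjI c) ≤ C`. The set of the ideals `d ≠ ⊥` with `N(d) ≤ C` is finite: every such `d` contains `C! = M` (`N d ∈ d`, `N d ≥ 1`), and the ideals
containing `M ≠ 0` are the preimages of the ideals of the finite ring `O/(M)` (finitely many subsets): `Set.Finite.of_injOn` or `Ideal.comap` surjective. -/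
def Sy_FCL : Prop :=
  ∀ A B : ℤ, CQ A B → ∃ F : Finset (Ideal (OO A B)), (∀ c ∈ F, c ≠ ⊥) ∧
    ∀ b : Ideal (OO A B), b ≠ ⊥ → ∃ c ∈ F, Cl b c

/-- (QPR) the form `qb J` is primitive.

PROOF. Suppose `q ∣ qb J y` for all `y ∈ J`. Let `𝔯 = (Ideal.span {(q : O)}).radical`. Claim: for `r ∈ J * cjI J` there is `t ∈ 𝔯` with `r = N(J) t`. Induction (`Submodule.mul_induction_on`), `r = y y''`, `y ∈ J`, `y'' ∈ cjI J`, `z := star y'' ∈ J`: `r = N(J) t` by (IDL). `nm t N(J)² = nm y nm z`, so `nm t = qb J y qb J z`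
is divisible by `q`. `N(J) (t + star t) = y star z + star y z = nm (y + z) - nm y - nm z = N(J) (qb J (y + z) - qb J y - qb J z)`, so `t + star t = q k` with an integer `k`. `t² = (t + star t) t - nm t ∈ (q)`, so `t ∈ 𝔯`. For `r = N(J)` (IDL): `t = 1 ∈ 𝔯`, so `1 ∈ (q)`: `q x = 1`, `q² nm x = 1`, impossible. -/
def Sy_QPR : Prop :=
  ∀ A B : ℤ, CQ A B → ∀ J : Ideal (OO A B), J ≠ ⊥ → ∀ q : ℕ, q.Prime →
    ∃ y ∈ J, ¬ (q : ℤ) ∣ qb J y

/-- (QCO) a value prime to `n`.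

USES QPR. PROOF. For every finite set `S` of primes there is `y ∈ J` with `q ∤ qb J y` for all `q ∈ S` (`Finset.induction_on`): `S ∪ {q}`, `q ∉ S`, `y` for `S`; if `q ∤ qb J y` take `y`; otherwise `y_q ∈ J` with `q ∤ qb J y_q` (QPR), `s = ∏ S`, `y' = q y + s y_q`:
modulo `q' ∈ S`: `qb J y' ≡ qb J (q y) = q² qb J y ≢ 0` (`xf_QB`: `qb b (x + m y) = qb b x + m k`; `nm (m x) = m² nm x`), modulo `q`: `≡ s² qb J y_q ≢ 0`. Take `S` = the prime factors of `n` and one more prime (so `qb J y ≠ 0` and `y ≠ 0`). -/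
def Sy_QCO : Prop :=
  ∀ A B : ℤ, CQ A B → ∀ J : Ideal (OO A B), J ≠ ⊥ → ∀ n : ℕ, n ≠ 0 →
    ∃ y ∈ J, y ≠ 0 ∧ IsCoprime (qb J y) (n : ℤ)

/-- (CLN) every class contains an ideal of norm prime to `n`.

USES DVI, QCO. PROOF. (QCO) for `J = cjI b`, (DVI): `sp y * b = sp (N b) * c`, `N(c) = qb (cjI b) y`. -/
def Sy_CLN : Prop :=
  ∀ A B : ℤ, CQ A B → ∀ b : Ideal (OO A B), b ≠ ⊥ → ∀ n : ℕ, n ≠ 0 →
    ∃ c : Ideal (OO A B), c ≠ ⊥ ∧ Cl b c ∧ (nI c).Coprime n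

/-- (REX) EXISTENCE OF REPRESENTATIVES.

USES NLE, FCL, CLN. PROOF. `Cl` is transitive (`x b = y c`, `x' c = y' d` gives `x x' b = y y' d`; `O` is a domain). `ι` = the quotient of `{c // c ∈ F}` by `Cl` (finite). For a class `q`: if some (every) member `c` of it satisfies `Cl ⊤ c` then `b q = ⊤`, otherwise `b q` is the ideal of (CLN) for a member of `q`; `L q`, `om q`
from (NLE). `i0` = the class of an element `c ∈ F` with `Cl ⊤ c`. `cop`: (CLN), `nI ⊤ = 1`. `surj`: `Cl c d` with `d ∈ F`, `Cl d (b (mk d))`. `inj`: `Cl (b i) (b j)` gives `Cl` of the members, `i = j`. -/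
def Sy_REX : Prop :=
  ∀ A B : ℤ, CQ A B → absD A B ≠ 3 → absD A B ≠ 4 → ∀ n : ℕ, n ≠ 0 →
    ∃ (ι : Type) (_ : Fintype ι), Nonempty (Reps A B n ι)

/-- (LAF) `LatFacts`.

USES NLE, SAM, FCL. PROOF. `ex`: (NLE). `eq`: the lattices are equal by (SAM). `s = om emb y/(emb x om')`: `z ∈ L' ↔ s z ∈ L ↔ s z ∈ L'` (proof of SAM, `sp x * b = sp y * b'`), so `s = ±1` (`Muu.scale`). `fin`: the ideals `b^i`, `i ∈ ℕ`, are in finitely many classes (FCL), so `Cl (b^i) (b^j)` for some `i < j`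
(`Finite.exists_ne_map_eq_of_infinite`): `sp x * b^i = sp y * b^(j-i) * b^i`, cancel `b^i`: `sp x = sp y * b^h`, `h = j - i > 0`. `x ∈ sp y`, `x = y z`, `z ≠ 0`, cancel `sp y`: `sp z = b^h`. -/
def Sy_LAF : Prop :=
  ∀ A B : ℤ, CQ A B → absD A B ≠ 3 → absD A B ≠ 4 → Pool.Agent.MUX2.LatFacts A B

/-! ## Algebraicity for all ideals -/

/-- (EI0) facts on characters.

PROOF. (1) `g = ⊤`: `e 1 = e (-1)`, `1 = -1`. (2) the range of `e` is finite (`xf_BDD`). For `z = e x ≠ 0` the powers `z^k = e (x^k)` are in the range, so `z^i = z^j` for some `i < j`, `z^(j-i) = 1`; `r` = the product of these exponents over all nonzero `z` in the range. (3) For `x ∈ b`, `sp x ≤ b`, so `sp x` and `g` are not coprime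
and `e x = 0`: `thetaI b e = 0` (all terms are `0`), so `IvI`, `IcI`, `PhiI` are `0`. -/
def Sy_EI0 : Prop :=
  ∀ A B : ℤ, CQ A B → ∀ (g : Ideal (OO A B)) (e : OO A B → ℂ), g ≠ ⊥ → IsEI g e →
    g ≠ ⊤ ∧ (∃ r : ℕ, r ≠ 0 ∧ ∀ x, e x ≠ 0 → e x ^ r = 1) ∧
    ∀ b : Ideal (OO A B), ¬ IsCoprime b g → ∀ x y : OnePoint ℚ, PhiI b e x y = 0

/-- (TRN) comparison of two ideals of the same class.

PROOF. `sp x * b = sp y * c`. `sp x * (b * cjI c) = sp y * (c * cjI c) = sp (y N(c))`, so `x ∣ y N(c)`, `y N(c) = x t`, and `b * cjI c = sp t` (cancel `sp x`). `sp (N c) * b = b * cjI c * c = sp t * c`. `t` is prime to `g`, because `b` and `cjI c` (`c * cjI c = sp (N c)`) are. Now `xf_PRI` for `sp (N c) * b` and `sp t * c`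
(`conj (emb (N c)) = N c`). `t ≠ 0`. -/
def Sy_TRN : Prop :=
  ∀ A B : ℤ, CQ A B → ∀ (b c g : Ideal (OO A B)) (e : OO A B → ℂ), b ≠ ⊥ → c ≠ ⊥ → IsEI g e →
    Cl b c → IsCoprime b g → IsCoprime (sp ((nI c : ℕ) : OO A B)) g →
    ∃ t : OO A B, t ≠ 0 ∧ e t ≠ 0 ∧ e ((nI c : ℕ) : OO A B) ≠ 0 ∧
      sp ((nI c : ℕ) : OO A B) * b = sp t * c ∧
      ∀ x y : OnePoint ℚ, e ((nI c : ℕ) : OO A B) * nI c * PhiI b e x y =
        e t * (starRingEnd ℂ) (emb t) * PhiI c e x y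

/-- (ALQ) ALGEBRAICITY FOR ALL IDEALS (input of block H, helper16).

USES NLD, REX, LAF, EI0, TRN, COP, ALM, ALP. PROOF. (NLD): `absD ≠ 3, 4`. (1) `R` from (REX) with `n = 1`. For `IsNL b L om`: `R.surj b`: `sp x * b = sp y * R.b j`, `LatFacts.eq`: `om_j emb x = ± om emb y`, so `om/om_(i0) = ± (om_j/om_(i0)) (emb x/emb y)` is algebraic (ALM; `emb x` is algebraic:
`wC² = A + B wC`). So is the quotient of two such numbers. (2) If `b` is not prime to `g`, the value is `0` (EI0). Otherwise `R` from (REX) with `n = N g` (`≠ 0`, `N g ∈ g`: COP with `t = 1`), `r` from (EI0), `Cl b (R.b j)`, (TRN) with `c = R.b j`: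
`PhiI b e x y/om = (e t conj (emb t)/(e (N c) N(c))) (PhiI c e x y/om_j) (om_j/om)`, all factors are algebraic ((ALP), part (1); values of `e` are roots of unity or `0`). -/
def Sy_ALQ : Prop :=
  ∀ A B : ℤ, CQ A B → TorX A B → ∀ (b : Ideal (OO A B)) (L : PeriodPair) (om : ℂ),
    IsNL b L om →
    (∀ (b' : Ideal (OO A B)) (L' : PeriodPair) (om' : ℂ), IsNL b' L' om' →
      IsAlgebraic ℚ (om / om')) ∧
    ∀ (g : Ideal (OO A B)) (e : OO A B → ℂ), g ≠ ⊥ → IsEI g e → ∀ x y : OnePoint ℚ,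
      IsAlgebraic ℚ (PhiI b e x y / om)

end

end Pool.Agent.MUXY
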