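import Pool.Agent.MUX.DefsX2

/-!
# MUX at p = 2: the quadratic character `κ₀` (helper77)

`CaseP 2 A B`: `D = 1 + 4 A ≡ 1` modulo 8 is negative, so a prime number `q ≡ 3` modulo 4 divides `D`; `O` maps onto
`ℤ/q` by `w ↦ 1/2`, and `κ₀` is the quadratic character of the image: an odd character of `(O/|D|)^*` with
values `±1`. `eps_two`: for an even character `e0` of odd order modulo `4 f` the product `e0 κ₀` is an odd character
modulo `f`.
-/

set_option autoImplicit false

namespace Pool.Agent.MUX2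

open _root_.MU3 Pool.Agent.MU3A Pool.Agent.MU3B Pool.Agent.MUX

noncomputable section

/-- an odd character of `(O/|D|)^*` with values `±1` -/
structure KapD (A B : ℤ) (κ : OO A B → ℤ) : Prop where
  one : κ 1 = 1
  mul : ∀ x y, κ (x * y) = κ x * κ y
  neg : κ (-1) = -1
  per : ∀ x y, x - y ∈ idl (A := A) (B := B) (absD A B).toNat → κ x = κ y
  unit : ∀ x, IsCoprime (sp x) (idl (A := A) (B := B) (absD A B).toNat) → κ x = 1 ∨ κ x = -1

/-- a number congruent to 3 modulo 4 has a prime factor congruent to 3 modulo 4 -/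
theorem exists_three_mod_four {n : ℕ} (hn : n % 4 = 3) : ∃ q : ℕ, q.Prime ∧ q % 4 = 3 ∧ q ∣ n := by
  induction n using Nat.strong_induction_on with
  | _ n ih =>
    have h1 : n ≠ 1 := by rintro rfl; norm_num at hn
    obtain ⟨q, hq, hqn⟩ := Nat.exists_prime_and_dvd h1
    by_cases h3 : q % 4 = 3
    · exact ⟨q, hq, h3, hqn⟩
    · obtain ⟨m, rfl⟩ := hqn
      have hq2 : q % 2 = 1 := by
        rcases hq.eq_two_or_odd with h | h
        · subst h; omega
        · exact h
      have hq1 : q % 4 = 1 := by omega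
      have hm : m % 4 = 3 := by
        have h5 : (q * m) % 4 = ((q % 4) * (m % 4)) % 4 := Nat.mul_mod _ _ _
        rw [hq1, one_mul, hn, Nat.mod_mod] at h5
        exact h5.symm
      have hm0 : 0 < m := by
        rcases Nat.eq_zero_or_pos m with h | h
        · subst h; norm_num at hm
        · exact h
      have hlt : m < q * m := by
        have := hq.two_le
        nlinarith
      obtain ⟨q', h5, h6, h7⟩ := ih m hlt hm
      exact ⟨q', h5, h6, h7.trans (dvd_mul_left m q)⟩

/-- existence of `κ₀` -/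
theorem kap_exists {A B : ℤ} (hC : CaseP 2 A B) : ∃ κ : OO A B → ℤ, KapD A B κ := by
  have h8 : (8 : ℤ) ∣ B ^ 2 + 4 * A - 1 := by
    rcases hC.split with h | h
    · exact absurd h.1 (by norm_num)
    · exact h.2
  have hB : B = 1 := by
    rcases hC.hB with h | h
    · subst h
      obtain ⟨c, hc⟩ := h8
      omega
    · exact h
  subst hB
  have hneg := hC.neg
  have habs : absD A 1 = -(1 + 4 * A) := by simp [absD]
  have hpos : 0 < absD A 1 := by rw [habs]; omega
  have hmod : ((absD A 1).toNat) % 4 = 3 := by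
    rw [habs] at hpos ⊢
    obtain ⟨c, hc⟩ := h8
    omega
  obtain ⟨q, hq, hq3, hqd⟩ := exists_three_mod_four hmod
  have : Fact q.Prime := ⟨hq⟩
  have hq2 : q ≠ 2 := by rintro rfl; norm_num at hq3
  have hD : ((1 + 4 * A : ℤ) : ZMod q) = 0 := by
    have h1 : (q : ℤ) ∣ absD A 1 := by
      have : ((absD A 1).toNat : ℤ) = absD A 1 := Int.toNat_of_nonneg hpos.le
      rw [← this]; exact_mod_cast hqd
    rw [habs, dvd_neg] at h1
    exact (ZMod.intCast_zmod_eq_zero_iff_dvd _ _).2 h1
  have h20 : (2 : ZMod q) ≠ 0 := by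
    intro h
    have h2 : ((2 : ℕ) : ZMod q) = 0 := by exact_mod_cast h
    rw [ZMod.natCast_eq_zero_iff] at h2
    exact hq2 ((Nat.prime_dvd_prime_iff_eq hq Nat.prime_two).1 h2)
  have hw : (2 : ZMod q)⁻¹ * (2 : ZMod q)⁻¹ = (A : ZMod q) + (2 : ZMod q)⁻¹ := by
    have h1 : (1 : ZMod q) + 4 * (A : ZMod q) = 0 := by
      have := hD; push_cast at this; exact this
    field_simp
    linear_combination -h1
  -- the homomorphism `w ↦ 1/2`
  let φ : OO A 1 → ZMod q := fun x => (x.re : ZMod q) + (x.im : ZMod q) * (2 : ZMod q)⁻¹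
  have φmul : ∀ x y, φ (x * y) = φ x * φ y := by
    intro x y
    simp only [φ, QuadraticAlgebra.re_mul, QuadraticAlgebra.im_mul]
    push_cast
    linear_combination (-(x.im : ZMod q) * (y.im : ZMod q)) * hw
  have r1 : (1 : OO A 1).re = 1 := rfl
  have i1 : (1 : OO A 1).im = 0 := rfl
  have φone : φ 1 = 1 := by
    simp only [φ, r1, i1]; push_cast; ring
  have φneg : φ (-1) = -1 := by
    simp only [φ, QuadraticAlgebra.re_neg, QuadraticAlgebra.im_neg, r1, i1]; push_cast; ring
  have φsub : ∀ x y, φ (x - y) = φ x - φ y := by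
    intro x y
    simp only [φ, QuadraticAlgebra.re_sub, QuadraticAlgebra.im_sub]
    push_cast; ring
  have φadd : ∀ x y, φ (x + y) = φ x + φ y := by
    intro x y
    simp only [φ, QuadraticAlgebra.re_add, QuadraticAlgebra.im_add]
    push_cast; ring
  have φD : ∀ x, x ∈ idl (A := A) (B := 1) (absD A 1).toNat → φ x = 0 := by
    intro x hx
    obtain ⟨c, rfl⟩ := Ideal.mem_span_singleton'.1 hx
    rw [φmul]
    have h1 : φ (((absD A 1).toNat : ℕ) : OO A 1) = 0 := by
      have h2 : ((((absD A 1).toNat : ℕ) : OO A 1)).re = ((absD A 1).toNat : ℤ) := by simp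
      have h3 : ((((absD A 1).toNat : ℕ) : OO A 1)).im = 0 := by simp
      simp only [φ, h2, h3]
      have : (((absD A 1).toNat : ℕ) : ZMod q) = 0 := (ZMod.natCast_eq_zero_iff _ _).2 hqd
      push_cast
      rw [this]; ring
    rw [h1, mul_zero]
  refine ⟨fun x => quadraticChar (ZMod q) (φ x), ⟨?_, ?_, ?_, ?_, ?_⟩⟩
  · simp only [φone, map_one]
  · intro x y; simp only [φmul, map_mul]
  · simp only [φneg]
    rw [quadraticChar_neg_one (by rw [ZMod.ringChar_zmod_n]; exact hq2), ZMod.card]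
    exact ZMod.χ₄_nat_three_mod_four hq3
  · intro x y hxy
    have h1 := φD _ hxy
    rw [φsub, sub_eq_zero] at h1
    simp only [h1]
  · intro x hx
    have h1 : φ x ≠ 0 := by
      intro h0
      obtain ⟨a, ha, b, hb, hab⟩ := Ideal.isCoprime_iff_exists.1 hx
      obtain ⟨c, rfl⟩ := Ideal.mem_span_singleton'.1 ha
      have h2 : φ (c * x + b) = 1 := by rw [hab, φone]
      rw [φadd, φmul, h0, mul_zero, zero_add, φD b hb] at h2
      exact zero_ne_one h2
    exact quadraticChar_dichotomy h1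

/-! ### The character `e0 κ₀` -/

lemma idl_mem {A B : ℤ} (m : ℕ) (x : OO A B) : x ∈ idl (A := A) (B := B) m ↔
    ∃ c : OO A B, x = c * ((m : ℕ) : OO A B) := by
  rw [Ideal.mem_span_singleton']
  exact ⟨fun ⟨c, hc⟩ => ⟨c, hc.symm⟩, fun ⟨c, hc⟩ => ⟨c, hc.symm⟩⟩

lemma cop_top {A B : ℤ} (I : Ideal (OO A B)) : IsCoprime (⊤ : Ideal (OO A B)) I :=
  Ideal.isCoprime_iff_sup_eq.2 (by simp)

lemma cop_congr {A B : ℤ} {I : Ideal (OO A B)} {x y : OO A B} (h : x - y ∈ I)
    (hx : IsCoprime (sp x) I) : IsCoprime (sp y) I := by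
  obtain ⟨a, ha, b, hb, hab⟩ := Ideal.isCoprime_iff_exists.1 hx
  obtain ⟨c, rfl⟩ := Ideal.mem_span_singleton'.1 ha
  refine Ideal.isCoprime_iff_exists.2 ⟨c * y, Ideal.mul_mem_left _ c
    (Ideal.mem_span_singleton_self y), c * (x - y) + b, add_mem (Ideal.mul_mem_left _ c h) hb, ?_⟩
  rw [← hab]; ring

lemma cop_mul {A B : ℤ} {I : Ideal (OO A B)} {x y : OO A B} :
    IsCoprime (sp (x * y)) I ↔ IsCoprime (sp x) I ∧ IsCoprime (sp y) I := by
  have : sp (x * y) = sp x * sp y := by
    rw [sp, sp, sp, Ideal.span_singleton_mul_span_singleton]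
  rw [this, IsCoprime.mul_left_iff]

lemma cop_mono {A B : ℤ} {I J : Ideal (OO A B)} {x : OO A B} (hIJ : I ≤ J)
    (hx : IsCoprime (sp x) I) : IsCoprime (sp x) J := by
  obtain ⟨a, ha, b, hb, hab⟩ := Ideal.isCoprime_iff_exists.1 hx
  exact Ideal.isCoprime_iff_exists.2 ⟨a, ha, b, hIJ hb, hab⟩

/-- in the case `p = 2` an element prime to `2` is congruent to `1` modulo `2` -/
lemma one_mod_two {A : ℤ} (hA : A % 2 = 0) {u : OO A 1}
    (hu : IsCoprime (sp u) (idl (A := A) (B := 1) 2)) : ∃ t : OO A 1, u = 1 + 2 * t := by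
  obtain ⟨a, ha, b, hb, hab⟩ := Ideal.isCoprime_iff_exists.1 hu
  obtain ⟨c, rfl⟩ := Ideal.mem_span_singleton'.1 ha
  obtain ⟨d, rfl⟩ := Ideal.mem_span_singleton'.1 hb
  have h1 := congrArg QuadraticAlgebra.re hab
  have h2 := congrArg QuadraticAlgebra.im hab
  have t1 : (((2 : ℕ) : OO A 1)).re = 2 := rfl
  have t2 : (((2 : ℕ) : OO A 1)).im = 0 := rfl
  have r1 : (1 : OO A 1).re = 1 := rfl
  have i1 : (1 : OO A 1).im = 0 := rfl
  simp only [QuadraticAlgebra.re_add, QuadraticAlgebra.re_mul, QuadraticAlgebra.im_add,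
    QuadraticAlgebra.im_mul, t1, t2, r1, i1] at h1 h2
  obtain ⟨A', hA'⟩ : ∃ A', A = 2 * A' := ⟨A / 2, by omega⟩
  subst hA'
  have e0 : c.re * u.re = 1 - 2 * (A' * c.im * u.im + d.re) := by linear_combination h1
  have e1 : (c.re + c.im) * (u.re + u.im) = 1 - 2 * (A' * c.im * u.im + d.re) -
      2 * d.im := by linear_combination h1 + h2
  have o0 : u.re % 2 = 1 := by
    rcases Int.emod_two_eq_zero_or_one u.re with h | h
    · obtain ⟨k, hk⟩ : ∃ k, u.re = 2 * k := ⟨u.re / 2, by omega⟩
      rw [hk] at e0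
      have : 2 * (c.re * k) = 1 - 2 * (A' * c.im * u.im + d.re) := by linear_combination e0
      omega
    · exact h
  have o1 : (u.re + u.im) % 2 = 1 := by
    rcases Int.emod_two_eq_zero_or_one (u.re + u.im) with h | h
    · obtain ⟨k, hk⟩ : ∃ k, u.re + u.im = 2 * k := ⟨(u.re + u.im) / 2, by omega⟩
      rw [hk] at e1
      have : 2 * ((c.re + c.im) * k) = 1 - 2 * (A' * c.im * u.im + d.re) - 2 * d.im := by
        linear_combination e1
      omega
    · exact h
  refine ⟨⟨(u.re - 1) / 2, u.im / 2⟩, ?_⟩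
  have s1 : (2 : OO (2 * A') 1).re = 2 := rfl
  have s2 : (2 : OO (2 * A') 1).im = 0 := rfl
  have r1' : (1 : OO (2 * A') 1).re = 1 := rfl
  have i1' : (1 : OO (2 * A') 1).im = 0 := rfl
  apply QuadraticAlgebra.ext
  · simp only [QuadraticAlgebra.re_add, QuadraticAlgebra.re_mul, s1, s2, r1']
    omega
  · simp only [QuadraticAlgebra.im_add, QuadraticAlgebra.im_mul, s1, s2, i1']
    omega

/-- THE CHARACTER AT `p = 2`: an even character `e0` of odd order modulo `4 f`, times `κ₀`, is an odd character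
modulo `f`. -/
theorem eps_two {A B : ℤ} {P : Ideal (OO A B)} {V : ValuationSubring ℂ} {f : ℕ}
    (hS : SetP 2 A B P V f) {κ : OO A B → ℤ} (hκ : KapD A B κ) (e0 : OO A B → ℂ) (r : ℕ)
    (hr : ¬ 2 ∣ r) (one : e0 1 = 1)
    (mul : ∀ x y, IsCoprime (sp x) (idl (A := A) (B := B) (2 * f)) →
      IsCoprime (sp y) (idl (A := A) (B := B) (2 * f)) → e0 (x * y) = e0 x * e0 y)
    (per : ∀ x y, x - y ∈ idl (A := A) (B := B) (4 * f) → e0 x = e0 y)
    (pow : ∀ x, IsCoprime (sp x) (idl (A := A) (B := B) (2 * f)) → e0 x ^ r = 1) :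
    ∃ e : OO A B → ℂ, IsEI (idl f * cjI P) e ∧
      (∀ x, IsCoprime (sp x) (idl (A := A) (B := B) (2 * f)) → e0 x * (κ x : ℂ) = e x) ∧
      ∀ x, e x ≠ 0 → e x ^ (2 * r) = 1 := by
  classical
  have h8 : (8 : ℤ) ∣ B ^ 2 + 4 * A - 1 := by
    rcases hS.case.split with h | h
    · exact absurd h.1 (by norm_num)
    · exact h.2
  have hB : B = 1 := by
    rcases hS.case.hB with h | h
    · subst h
      obtain ⟨c, hc⟩ := h8
      omega
    · exact h
  subst hB
  have hA : A % 2 = 0 := by
    obtain ⟨c, hc⟩ := h8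
    omega
  have hfodd : f % 2 = 1 := by
    have := hS.fp
    omega
  -- Bezout
  obtain ⟨u, v, huv⟩ : ∃ u v : ℤ, u * f + v * 4 = 1 := by
    have hc : IsCoprime (f : ℤ) 4 := by
      rw [Int.isCoprime_iff_gcd_eq_one, show (4 : ℤ) = ((4 : ℕ) : ℤ) by norm_num,
        Int.gcd_natCast_natCast]
      have h1 : Nat.Coprime f 2 := by
        rw [Nat.coprime_comm]
        exact (Nat.Prime.coprime_iff_not_dvd Nat.prime_two).2 hS.fp
      exact Nat.Coprime.pow_right 2 h1
    obtain ⟨a, b, hab⟩ := hc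
    exact ⟨a, b, hab⟩
  set α : OO A 1 := ((u * f : ℤ) : OO A 1) with hα
  set β : OO A 1 := ((v * 4 : ℤ) : OO A 1) with hβ
  have hαβ : α + β = 1 := by
    rw [hα, hβ, ← Int.cast_add, huv, Int.cast_one]
  have hα1 : α = (u : OO A 1) * ((f : ℕ) : OO A 1) := by rw [hα]; push_cast; ring
  have hβ1 : β = (v : OO A 1) * 4 := by rw [hβ]; push_cast; ring
  set T : OO A 1 → OO A 1 := fun x => β * x + α with hT
  have T1 : T 1 = 1 := by simp only [hT]; linear_combination hαβ
  have Tmul : ∀ x y, T (x * y) - T x * T y ∈ idl (A := A) (B := 1) (4 * f) := by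
    intro x y
    rw [idl_mem]
    refine ⟨(u : OO A 1) * v * (x * y - x - y + 1), ?_⟩
    have hβ2 : β = 1 - α := by linear_combination hαβ
    have e1 : T (x * y) - T x * T y = α * β * (x * y - x - y + 1) := by
      simp only [hT]; rw [hβ2]; ring
    rw [e1, hα1, hβ1]; push_cast; ring
  have Tf : ∀ x, T x - x ∈ idl (A := A) (B := 1) f := by
    intro x
    rw [idl_mem]
    refine ⟨(u : OO A 1) * (1 - x), ?_⟩
    have e1 : T x - x = α * (1 - x) := by
      simp only [hT]; linear_combination x * hαβ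
    rw [e1, hα1]; ring
  have Tper : ∀ x y, x - y ∈ idl (A := A) (B := 1) f → T x - T y ∈
      idl (A := A) (B := 1) (4 * f) := by
    intro x y h
    obtain ⟨c, hc⟩ := (idl_mem f _).1 h
    rw [idl_mem]
    refine ⟨(v : OO A 1) * c, ?_⟩
    have e1 : T x - T y = β * (x - y) := by simp only [hT]; ring
    rw [e1, hc, hβ1]; push_cast; ring
  have T2 : ∀ x, IsCoprime (sp (T x)) (idl (A := A) (B := 1) 2) := by
    intro x
    refine Ideal.isCoprime_iff_exists.2 ⟨T x, Ideal.mem_span_singleton_self _,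
      2 * (-(2 * v * (x - 1))), ?_, ?_⟩
    · rw [idl_mem]; exact ⟨-(2 * v * (x - 1)), by push_cast; ring⟩
    · simp only [hT]
      have hα2 : α = 1 - β := by linear_combination hαβ
      rw [hα2, hβ1]; ring
  have idlmul : ∀ x : OO A 1, IsCoprime (sp x) (idl (A := A) (B := 1) (2 * f)) ↔
      IsCoprime (sp x) (idl (A := A) (B := 1) 2) ∧ IsCoprime (sp x) (idl (A := A) (B := 1) f) := by
    intro x
    have : idl (A := A) (B := 1) (2 * f) = idl 2 * idl f := by
      simp only [idl]
      rw [Ideal.span_singleton_mul_span_singleton]; push_cast; ring_nf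
    rw [this, IsCoprime.mul_right_iff]
  have Tcop : ∀ x, IsCoprime (sp x) (idl (A := A) (B := 1) f) →
      IsCoprime (sp (T x)) (idl (A := A) (B := 1) (2 * f)) := by
    intro x hx
    rw [idlmul]
    refine ⟨T2 x, cop_congr ?_ hx⟩
    have := Tf x
    rw [← neg_sub]
    exact neg_mem this
  have idl4 : idl (A := A) (B := 1) (4 * f) ≤ idl (2 * f) := by
    intro x hx
    obtain ⟨c, rfl⟩ := (idl_mem _ _).1 hx
    rw [idl_mem]
    exact ⟨2 * c, by push_cast; ring⟩
  -- odd order
  have sq_one : ∀ z : ℂ, z ^ 2 = 1 → z ^ r = 1 → z = 1 := by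
    intro z h2 h3
    obtain ⟨k, hk⟩ : ∃ k, r = 2 * k + 1 := ⟨r / 2, by omega⟩
    rw [hk, pow_succ, pow_mul, h2, one_pow, one_mul] at h3
    exact h3
  have uno : ∀ w : OO A 1, IsCoprime (sp w) (idl (A := A) (B := 1) (2 * f)) →
      w - 1 ∈ idl (A := A) (B := 1) f → e0 w = 1 := by
    intro w hw hw1
    apply sq_one _ _ (pow w hw)
    rw [pow_two, ← mul w w hw hw, ← one]
    apply per
    obtain ⟨t, ht⟩ := one_mod_two hA ((idlmul w).1 hw).1
    obtain ⟨c, hc⟩ := (idl_mem _ _).1 hw1
    rw [idl_mem]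
    refine ⟨(u : OO A 1) * (t + t ^ 2) + v * (c * (w + 1)), ?_⟩
    have huv' : (u : OO A 1) * ((f : ℕ) : OO A 1) + v * 4 = 1 := by
      have := congrArg (fun z : ℤ => (z : OO A 1)) huv
      push_cast at this
      exact this
    have e4 : w * w - 1 = 4 * (t + t ^ 2) := by rw [ht]; ring
    have ef : w * w - 1 = c * ((f : ℕ) : OO A 1) * (w + 1) := by
      linear_combination (w + 1) * hc
    have : w * w - 1 = ((u : OO A 1) * ((f : ℕ) : OO A 1) + v * 4) * (w * w - 1) := by
      rw [huv', one_mul]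
    rw [this, add_mul]
    nth_rw 1 [e4]
    rw [ef]
    push_cast; ring
  have hcj : (((2 : ℕ) : OO A 1)) ∈ cjI P := by
    show star (((2 : ℕ) : OO A 1)) ∈ P
    have : star (((2 : ℕ) : OO A 1)) = ((2 : ℕ) : OO A 1) := by
      rw [star_natCast]
    rw [this]
    exact hS.hP.mem
  have hle : idl (A := A) (B := 1) (2 * f) ≤ idl f * cjI P := by
    intro x hx
    obtain ⟨c, rfl⟩ := (idl_mem _ _).1 hx
    have : c * ((2 * f : ℕ) : OO A 1) = (c * ((f : ℕ) : OO A 1)) * ((2 : ℕ) : OO A 1) := by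
      push_cast; ring
    rw [this]
    exact Ideal.mul_mem_mul ((idl_mem _ _).2 ⟨c, rfl⟩) hcj
  have hlef : idl (A := A) (B := 1) f * cjI P ≤ idl f := Ideal.mul_le_left
  have habs : 0 < absD A 1 := by
    have := hS.case.neg
    unfold absD
    omega
  have hfD : idl (A := A) (B := 1) f ≤ idl (absD A 1).toNat := by
    intro x hx
    obtain ⟨c, rfl⟩ := (idl_mem _ _).1 hx
    have h1 := hS.fD
    have h2 : ((absD A 1).toNat : ℤ) = absD A 1 := Int.toNat_of_nonneg habs.le
    rw [← h2] at h1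
    have h3 : (absD A 1).toNat ∣ f := by exact_mod_cast h1
    obtain ⟨d, hd⟩ := h3
    rw [idl_mem]
    refine ⟨c * d, ?_⟩
    conv_lhs => rw [hd]
    push_cast; ring
  refine ⟨fun x => if IsCoprime (sp x) (idl f * cjI P) then e0 (T x) * (κ x : ℂ) else 0,
    ⟨?_, ?_, ?_, ?_, ?_⟩, ?_, ?_⟩
  · have h1 : IsCoprime (sp (1 : OO A 1)) (idl f * cjI P) := by
      simp only [sp, Ideal.span_singleton_one]
      exact cop_top _
    simp only [h1, if_true, T1, one, hκ.one]
    norm_num
  · intro x y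
    by_cases hx : IsCoprime (sp x) (idl f * cjI P)
    · by_cases hy : IsCoprime (sp y) (idl f * cjI P)
      · have hxy : IsCoprime (sp (x * y)) (idl f * cjI P) := cop_mul.2 ⟨hx, hy⟩
        simp only [hx, hy, hxy, if_true]
        rw [per _ _ (Tmul x y), mul _ _ (Tcop x (cop_mono hlef hx)) (Tcop y (cop_mono hlef hy)),
          hκ.mul]
        push_cast; ring
      · have hxy : ¬ IsCoprime (sp (x * y)) (idl f * cjI P) := fun h => hy (cop_mul.1 h).2
        simp only [hy, hxy, if_false, mul_zero]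
    · have hxy : ¬ IsCoprime (sp (x * y)) (idl f * cjI P) := fun h => hx (cop_mul.1 h).1
      simp only [hx, hxy, if_false, zero_mul]
  · intro x y hxy
    have h1 : IsCoprime (sp x) (idl f * cjI P) ↔ IsCoprime (sp y) (idl f * cjI P) := by
      refine ⟨cop_congr hxy, cop_congr ?_⟩
      rw [← neg_sub]; exact neg_mem hxy
    by_cases hx : IsCoprime (sp x) (idl f * cjI P)
    · have hy := h1.1 hx
      simp only [hx, hy, if_true]
      rw [per _ _ (Tper x y (hlef hxy)), hκ.per x y (hfD (hlef hxy))]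
    · have hy : ¬ IsCoprime (sp y) (idl f * cjI P) := fun h => hx (h1.2 h)
      simp only [hx, hy, if_false]
  · intro x
    constructor
    · intro h
      by_contra hx
      apply h
      simp only [hx, if_false]
    · intro hx
      simp only [hx, if_true]
      refine mul_ne_zero ?_ ?_
      · intro h0
        have h1 := pow (T x) (Tcop x (cop_mono hlef hx))
        rw [h0] at h1
        rcases Nat.eq_zero_or_pos r with h2 | h2
        · exact hr (h2 ▸ dvd_zero 2)
        · rw [zero_pow (by omega)] at h1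
          exact zero_ne_one h1
      · rcases hκ.unit x (cop_mono hfD (cop_mono hlef hx)) with h | h
        · rw [h]; norm_num
        · rw [h]; norm_num
  · have h1 : IsCoprime (sp (-1 : OO A 1)) (idl f * cjI P) := by
      have : sp (-1 : OO A 1) = ⊤ := by
        simp only [sp, Ideal.span_singleton_neg, Ideal.span_singleton_one]
      rw [this]
      exact cop_top _
    have h2 : e0 (T (-1)) = 1 := by
      have hc := Tcop (-1) (cop_mono hlef h1)
      apply sq_one _ _ (pow _ hc)
      rw [pow_two, ← mul _ _ hc hc]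
      have h3 := Tmul (-1) (-1)
      rw [show (-1 : OO A 1) * -1 = 1 by ring, T1] at h3
      rw [← one]
      apply per
      rw [← neg_sub]; exact neg_mem h3
    simp only [h1, if_true, h2, hκ.neg]
    norm_num
  · intro x hx
    have h1 : IsCoprime (sp x) (idl f * cjI P) := cop_mono hle hx
    simp only [h1, if_true]
    congr 1
    have hxf := ((idlmul x).1 hx).2
    -- an inverse modulo `4 f`
    have hx4 : IsCoprime (sp x) (idl (A := A) (B := 1) (4 * f)) := by
      have : idl (A := A) (B := 1) (4 * f) = idl 2 * (idl 2 * idl f) := by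
        simp only [idl]
        rw [Ideal.span_singleton_mul_span_singleton, Ideal.span_singleton_mul_span_singleton]
        push_cast; ring_nf
      rw [this, IsCoprime.mul_right_iff, IsCoprime.mul_right_iff]
      exact ⟨((idlmul x).1 hx).1, ((idlmul x).1 hx).1, hxf⟩
    obtain ⟨a, ha, b, hb, hab⟩ := Ideal.isCoprime_iff_exists.1 hx4
    obtain ⟨y, rfl⟩ := Ideal.mem_span_singleton'.1 ha
    have hxy : x * y - 1 ∈ idl (A := A) (B := 1) (4 * f) := by
      have : x * y - 1 = -b := by linear_combination hab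
      rw [this]; exact neg_mem hb
    have hy : IsCoprime (sp y) (idl (A := A) (B := 1) (2 * f)) := by
      have h3 : IsCoprime (sp (x * y)) (idl (A := A) (B := 1) (2 * f)) := by
        refine cop_congr (x := 1) ?_ ?_
        · rw [← neg_sub]; exact neg_mem (idl4 hxy)
        · simp only [sp, Ideal.span_singleton_one]
          exact cop_top _
      exact (cop_mul.1 h3).2
    have hTx := Tcop x hxf
    have h4 : e0 (T x * y) = 1 := by
      apply uno _ (cop_mul.2 ⟨hTx, hy⟩)
      have h5 : T x * y - 1 = (T x - x) * y + (x * y - 1) := by ring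
      rw [h5]
      refine add_mem (Ideal.mul_mem_right _ _ (Tf x)) ?_
      have h6 : idl (A := A) (B := 1) (4 * f) ≤ idl f := by
        intro z hz
        obtain ⟨c, rfl⟩ := (idl_mem _ _).1 hz
        rw [idl_mem]; exact ⟨c * 4, by push_cast; ring⟩
      exact h6 hxy
    have h5 : e0 (x * y) = 1 := by rw [per _ _ hxy, one]
    rw [mul _ _ hTx hy] at h4
    rw [mul _ _ hx hy] at h5
    have hy0 : e0 y ≠ 0 := by
      intro h0
      rw [h0, mul_zero] at h4
      exact zero_ne_one h4
    exact mul_right_cancel₀ hy0 (h5.trans h4.symm)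
  · intro x hx
    by_cases h1 : IsCoprime (sp x) (idl f * cjI P)
    · simp only [h1, if_true]
      rw [mul_pow, pow_mul', pow (T x) (Tcop x (cop_mono hlef h1)), one_pow, one_mul, pow_mul]
      rcases hκ.unit x (cop_mono hfD (cop_mono hlef h1)) with h | h
      · rw [h]; norm_num
      · rw [h]; norm_num
    · exfalso
      apply hx
      simp only [h1, if_false]

end

end Pool.Agent.MUX2
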