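import Pool.Agent.MU3.StH

/-!
# MUX, block H, abstract part (helper27): from Theorem G to the character sums, for every prime `p`

PAPER_X.md, section 11, with a prime `p` (`2` or `3`) as a parameter. Nothing here depends on the field `k`.
Every statement is a `def Sx_X : Prop`; a module proves `theorem tx_X (h : ..) ... : Sx_X` in `HX_X.lean`; the
hypotheses are the statements named under USES. `v = V.valuation`: `v x ≤ 1 ↔ x ∈ V`, `v x < 1 ↔ x ∈ V.nonunits`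
(`ValuationSubring.valuation_le_one_iff`, `ValuationSubring.mem_nonunits_iff`). Most modules are proved for `p = 3`, `h = 1` in
`Pool/Agent/MU3/H_*.lean` (namespace `Pool.Agent.MU3H`, theorems `th_X`): adapt those proofs.
-/

set_option autoImplicit false

namespace Pool.Agent.MUXH

open _root_.MU3 Pool.Agent.MuSym OnePoint

noncomputable section

/-! ## Distributions on `ℤ_p` with values in `ℂ` -/

/-- `M n b` is the value on the ball `b + p^n ℤ_p` -/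
structure Dist (p : ℕ) (M : ℕ → ℤ → ℂ) : Prop where
  per : ∀ (n : ℕ) (b c : ℤ), (p : ℤ) ^ n ∣ b - c → M n b = M n c
  add : ∀ (n : ℕ) (b : ℤ), M n b = ∑ j ∈ Finset.range p, M (n + 1) (b + j * p ^ n)

/-- `u ≡ 1` modulo `p`, and modulo `4` if `p = 2` -/
def Q0 (p : ℕ) (u : ℤ) : Prop := (p : ℤ) ∣ u - 1 ∧ (p = 2 → (4 : ℤ) ∣ u - 1)

/-- the combination of a function on `ℤ` (up to the sign `(-1)^N` it is `(E - 1)^N (a F(·) - a² F(a² ·))`,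
`E F (b) = F (g b)`) -/
def comb (a g : ℤ) (N : ℕ) (F : ℤ → ℂ) (b : ℤ) : ℂ :=
  ∑ j ∈ Finset.range (N + 1), ((-1 : ℂ) ^ (N - j) * (N.choose j : ℂ)) *
    ((a : ℂ) * F (g ^ (N - j) * b) - (a : ℂ) ^ 2 * F (g ^ (N - j) * a ^ 2 * b))

/-- (HZ) the character sums of an integral distribution which is nonzero modulo `V` have small valuation.

Model: `MU3/H_HZ.lean` (helper45). PROOF. `t = v p < 1`, `t ≠ 0`. Let `v (M m b₀) = 1`. Let `n > m` and `φ = (p-1) p^(n-1) > p^m (d + E)`. `P(T) = Σ_(b < p^n) M n b T^b`, coefficients in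
`K ∩ V`, `P(1 + X) = Σ_k c_k X^k`, `c_k ∈ K`, `v c_k ≤ 1`. (1) Some `c_k` with `k < p^m` has `v c_k = 1`: otherwise, modulo the
maximal ideal, `(T - 1)^(p^m) = T^(p^m) - 1` (characteristic `p`) divides `P(T)`, so the sums of the coefficients over the classes modulo `p^m`
(these are the `M m b₁` by additivity) would all be `0` modulo the maximal ideal, against `M m b₀`. Let `k₀` be the smallest such `k`.
(2) `y = v(ζ - 1)` satisfies `y^φ = t` (`p` = value at `1` of the cyclotomic polynomial = product of the `φ` numbers `1 - ζ^i`, `p ∤ i`, and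
`v(1 - ζ^i) = v(1 - ζ)`); so `y < 1`, `y ≠ 0`. (3) In `P(ζ) = Σ c_k (ζ-1)^k` the term `k₀` has `v = y^k₀`,
the terms `k > k₀` have `v ≤ y^(k₀+1) < y^k₀`, the terms `k < k₀` have `v c_k < 1`, so `(v c_k)^d ≤ t = y^φ < y^(k₀ d)`, `v c_k < y^k₀`. So
`v(P(ζ)) = y^k₀`, and `v(P(ζ))^E = y^(E k₀) > y^φ = t`. -/
def Sx_HZ : Prop :=
  ∀ (p : ℕ) (_ : p.Prime) (V : ValuationSubring ℂ) (_ : V.valuation (p : ℂ) < 1) (K : Subring ℂ)
    (d : ℕ) (_ : ∀ x ∈ K, V.valuation x < 1 → V.valuation x ^ d ≤ V.valuation (p : ℂ))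
    (M : ℕ → ℤ → ℂ) (_ : Dist p M) (_ : ∀ n b, M n b ∈ K) (_ : ∀ n b, V.valuation (M n b) ≤ 1)
    (_ : ∃ n b, V.valuation (M n b) = 1) (E : ℕ),
    ∃ n₀ : ℕ, ∀ n, n₀ ≤ n → ∀ ζ : ℂ, IsPrimitiveRoot ζ (p ^ n) →
      V.valuation (p : ℂ) < V.valuation (∑ b ∈ Finset.range (p ^ n), ζ ^ b * M n b) ^ E

/-- (STP) one step: `M` is not invariant under `u` modulo the maximal ideal.

Model: `MU3/H_STP.lean` (helper37). PROOF. `M' n b = c₁ M n (u b) - c₂ M n b`. `Dist M'`: `M n (u b) = Σ_j M (n+1) (u b + j p^n)` and `u (b + j p^n) - (u b + j p^n) = (u - 1) j p^n` is divisible by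
`p^(n+1)`. Integrality: `u` is prime to `p`; `v c₂ ≤ 1`. Last part: suppose that `v (M' n b) < 1` for all `n ≥ 1`, `p ∤ b`. As
`M' n b = c₁ (M n (u b) - M n b) + (c₁ - c₂) M n b`, `v (M n (u^i b) - M n b) < 1` for all `i`. Let `p^k` be the exact power of `p` dividing `u - 1`,
`k ≥ 1` (`k ≥ 2` if `p = 2`). For `n ≥ k`: `u^(p^(n-k)) ≡ 1 + p^n w` modulo `p^(n+1)`, `p ∤ w` (induction: `(1 + p^n w)^p ≡ 1 + p^(n+1) w` modulo `p^(n+2)`, for `n ≥ 1`, `n ≥ 2` if `p = 2`), so `b + j p^n ≡ u^i b` modulo `p^(n+1)` for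
some `i` (`i = i' p^(n-k)`, `i' w b ≡ j` modulo `p`). So all `M (n+1) (b + j p^n)` are `M (n+1) b` up to elements with `v < 1`, and `M n b = Σ_j ..` is `p M (n+1) b` up to such elements, `v (M n b) < 1`.
For `1 ≤ n < k` use additivity and descending induction on `n`. Contradiction. -/
def Sx_STP : Prop :=
  ∀ (p : ℕ) (_ : p.Prime) (V : ValuationSubring ℂ) (_ : V.valuation (p : ℂ) < 1) (M : ℕ → ℤ → ℂ)
    (_ : Dist p M)
    (_ : ∀ (n : ℕ) (b : ℤ), ¬ (p : ℤ) ^ n ∣ b → V.valuation (M n b) ≤ 1)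
    (_ : ∃ (n : ℕ) (b : ℤ), 1 ≤ n ∧ ¬ (p : ℤ) ∣ b ∧ V.valuation (M n b) = 1)
    (u : ℤ) (_ : Q0 p u) (_ : u ≠ 1) (c₁ c₂ : ℂ) (_ : V.valuation c₁ = 1)
    (_ : V.valuation (c₁ - c₂) < 1),
    Dist p (fun n b => c₁ * M n (u * b) - c₂ * M n b) ∧
    (∀ (n : ℕ) (b : ℤ), ¬ (p : ℤ) ^ n ∣ b → V.valuation (c₁ * M n (u * b) - c₂ * M n b) ≤ 1) ∧
    ∃ (n : ℕ) (b : ℤ), 1 ≤ n ∧ ¬ (p : ℤ) ∣ b ∧ V.valuation (c₁ * M n (u * b) - c₂ * M n b) = 1

/-- (H5) the combination is integral on all balls and nonzero modulo `V`.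

USES STP. Model: `MU3/H_H5.lean` (helper46). PROOF. `M₀ n b = a M n b - a² M n (a² b)`: STP with `u = a²`, `c₁ = -a²`, `c₂ = -a` (`v a = 1` as `p ∤ a`, `c₁ - c₂ = -a (a - 1)`, `p ∣ a - 1`; `a² ≠ 1` because `a ≠ 1` and
`a ≠ -1` (`p ∤ -2` for `p` odd, `4 ∤ -2`); `Q0 p (a²)`). `M_(i+1) n b = M_i n (g b) - M_i n b`: STP with `u = g`, `c₁ = c₂ = 1`. All `M_i` are `Dist`, integral off `0`, with a value of valuation `1` on units. For `i ≥ 1` and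
`p^n ∣ b`: `M_i n b = 0` (periodicity), so `M_i`, `i ≥ 1`, is integral everywhere. `M_N n b = Σ_i (-1)^(N-i) binom(N, i) M₀ n (g^i b)`, so
`comb a g N (M n) b = (-1)^N M_N n b` (`i = N - j`). -/
def Sx_H5 : Prop :=
  ∀ (p : ℕ) (_ : p.Prime) (V : ValuationSubring ℂ) (_ : V.valuation (p : ℂ) < 1) (M : ℕ → ℤ → ℂ)
    (_ : Dist p M)
    (_ : ∀ (n : ℕ) (b : ℤ), ¬ (p : ℤ) ^ n ∣ b → V.valuation (M n b) ≤ 1)
    (_ : ∃ (n : ℕ) (b : ℤ), 1 ≤ n ∧ ¬ (p : ℤ) ∣ b ∧ V.valuation (M n b) = 1)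
    (a g : ℤ) (_ : Q0 p a) (_ : a ≠ 1) (_ : Q0 p g) (_ : g ≠ 1) (N : ℕ) (_ : 1 ≤ N),
    Dist p (fun n => comb a g N (M n)) ∧ (∀ n b, V.valuation (comb a g N (M n) b) ≤ 1) ∧
      ∃ n b, V.valuation (comb a g N (M n) b) = 1

/-- (MD) the distribution attached to a cycle of functions under `U_p`: `U_p g_i = g_(i+1)`, `g_h = a g_0`.

PROOF. (1) `g (i+h) = a g i`: induction on `i` (`g (i+1+h) r = Σ_j g (i+h) ((r+j)/p)`). (2) `per`: `b/p^n - c/p^n` is an integer. `add`: `Σ_j g ((h-1)(n+1) + r) ((b + j p^n)/p^(n+1)) = g ((h-1)(n+1) + r + 1) (b/p^n)`,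
`(b + j p^n)/p^(n+1) = (b/p^n + j)/p`, and `(h-1)(n+1) + r + 1 = ((h-1) n + r) + h` (`h ≥ 1`), so by (1) it is `a g ((h-1) n + r) (b/p^n)`; divide by `c a^(n+1)`. (3) induction on `i` (`b' = b₁ + j p^i`..: write `g (i+1) (b/p^n) = Σ_j g i ((b + j p^n)/p^(n+1))` and use
the formula for `i`, `n + 1`, `b + j p^n`; `b'' = j + p b'` runs through `range (p^(i+1))`). -/
def Sx_MD : Prop :=
  ∀ (p : ℕ) (_ : 1 ≤ p) (g : ℕ → ℚ → ℂ) (a c : ℂ) (h r : ℕ) (_ : 1 ≤ h) (_ : a ≠ 0)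
    (_ : ∀ (i : ℕ) (x : ℚ) (k : ℤ), g i (x + k) = g i x)
    (_ : ∀ (i : ℕ) (x : ℚ), ∑ j ∈ Finset.range p, g i ((x + j) / p) = g (i + 1) x)
    (_ : ∀ x : ℚ, g h x = a * g 0 x),
    (∀ (i : ℕ) (x : ℚ), g (i + h) x = a * g i x) ∧
    Dist p (fun n b => g ((h - 1) * n + r) (b / p ^ n) / (c * a ^ n)) ∧
    ∀ (i n : ℕ) (b : ℤ), g i (b / p ^ n) =
      ∑ b' ∈ Finset.range (p ^ i), g 0 (((b + b' * p ^ n : ℤ) : ℚ) / p ^ (n + i))

/-- (MAX) a subset of a finitely generated group has an element of maximal valuation, and the group generated by it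
is generated by finitely many of its elements.

Model: `MU3/H_MAX.lean` (helper89). PROOF. The subgroup generated by `S` is a submodule of a finitely generated `ℤ`-module, so finitely generated, and it is generated by a finite subset `S₀` of `S`
(a finite set of generators, each is a combination of finitely many elements of `S`; add one element of `S` if empty). Integers are in `V`, so every `x ∈ S` has `v x ≤` the maximum of `v` on `S₀`. -/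
def Sx_MAX : Prop :=
  ∀ (V : ValuationSubring ℂ) (T : Finset ℂ) (S : Set ℂ)
    (_ : S ⊆ (AddSubgroup.closure (T : Set ℂ) : Set ℂ)) (_ : S.Nonempty),
    (∃ l ∈ S, ∀ x ∈ S, V.valuation x ≤ V.valuation l) ∧
    ∃ S₀ : Finset ℂ, (S₀ : Set ℂ) ⊆ S ∧ S ⊆ (AddSubgroup.closure (S₀ : Set ℂ) : Set ℂ)

/-- (ALB) an algebraic number times a power of `p` is in `V`.

Model: `MU3/H_ALB.lean` (helper84). PROOF. `n l` is integral over `ℤ` for some integer `n ≠ 0`, `V` is integrally closed, so `v(n l) ≤ 1`; `n = p^k m`, `p ∤ m`, `v m = 1` (Bezout). -/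
def Sx_ALB : Prop :=
  ∀ (p : ℕ) (_ : p.Prime) (V : ValuationSubring ℂ) (_ : V.valuation (p : ℂ) < 1) (l : ℂ),
    IsAlgebraic ℚ l → ∃ k : ℕ, V.valuation (p ^ k * l) ≤ 1

/-- (DIS) `v` is discrete on a number field.

PROOF. `d = finrank ℚ K`, `x ∈ K`, `v x < 1` (the case `x = 0` is clear, `v 0 ^ d = 0` as `d ≥ 1`). `1, x, .., x^d` are linearly dependent over `ℚ`: `Σ c_i x^i = 0` with rational `c_i`, not all `0`. Two different nonzero terms have the same, maximal valuation (otherwise the sum would have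
the maximal valuation, nonzero): `v (c_i) v(x)^i = v (c_j) v(x)^j`, `i < j ≤ d`, so `v(x)^(j-i) = v(c_i/c_j)`. A nonzero rational number is `p^k m/n`, `p ∤ m n`, so its valuation is `v(p)^k` (`k ∈ ℤ`, Bezout: `v m = v n = 1`). As `v(x)^(j-i) < 1`, `k ≥ 1` and
`v(x)^(j-i) ≤ v p`, so `v(x)^d ≤ v(x)^(j-i) ≤ v p`. -/
def Sx_DIS : Prop :=
  ∀ (p : ℕ) (_ : p.Prime) (V : ValuationSubring ℂ) (_ : V.valuation (p : ℂ) < 1)
    (K : IntermediateField ℚ ℂ) (_ : FiniteDimensional ℚ K),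
    ∃ d : ℕ, ∀ x ∈ K, V.valuation x < 1 → V.valuation x ^ d ≤ V.valuation (p : ℂ)

/-! ## Symbols -/

/-- (HK) elementary facts on symbols of weight two.

Model: `MU3/H_HK.lean` (helper5). PROOF. `mob 1 k 0 1` is the translation by `k` (it fixes `∞`), `mob (-1) 0 0 1` is `x ↦ -x`. (i) equivariance for `(1 k; 0 1)`, `nu 1 = 1`, at `r` and `-r - k`. (ii) `-(h x) = h' (-x)`,
`h' = (a, -b; -c, d)`, same `d`, `N' ∣ -c`. (iii) `hecke` at `(∞, r)` and at `(∞, -r)`: `-(r + j)/p = (-r + (p - j))/p - 1`, so the sum over `j` of `P ∞ (-(r + j)/p)` is the sum of the `P ∞ ((-r + j)/p)`. -/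
def Sx_HK : Prop :=
  ∀ (p : ℕ) (_ : 1 ≤ p) (N' : ℕ) (nu : ℤ → ℂ) (P Q : OnePoint ℚ → OnePoint ℚ → ℂ)
    (_ : IsSym N' nu P) (_ : nu 1 = 1) (s : ℂ),
    (∀ (r : ℚ) (k : ℤ), sgnPart s P ∞ ((r + k : ℚ) : OnePoint ℚ) =
      sgnPart s P ∞ (r : OnePoint ℚ)) ∧
    IsSym N' nu (sgnPart s P) ∧
    (nu p = 0 → (∀ x y, hecke p nu P x y = Q x y) → ∀ r : ℚ,
      ∑ j ∈ Finset.range p, sgnPart s P ∞ (((r + j) / p : ℚ) : OnePoint ℚ) =
        sgnPart s Q ∞ (r : OnePoint ℚ))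

/-- (KMX) the key lemma for a cycle of symbols `Φ_(i+1) = U_p Φ_i`, `Φ_h = a Φ_0`.

USES `Pool.Agent.MU3.S_KM2` (proved: `Pool.Agent.MU3H.h_KM2` in `HAll.lean`). PROOF. `M' = Fin h → M`, `Φ' x y = (Φ i x y)_(i < h)`, `T : M' → M'`, `T m i = m (i+1)` for `i + 1 < h` and `T m (h-1) = a • m 0`: `R`-linear, `T^h = a`. `R' = Algebra.adjoin R {T}` in
`Module.End R M'`, a commutative ring (`Algebra.adjoinCommRingOfComm`, or use `AdjoinRoot (X^h - C a)` or a quotient of `R[X]`), `T` is a unit of `R'` (`T T^(h-1) a⁻¹ = 1`). KM2 for `R'`, `M'`, `χ' = algebraMap ∘ χ`, `Φ'`, the unit `T`: `T • Φ' ∞ x = Σ_j Φ' ∞ ((x+j)/p)` (component `i`: `Φ (i+1) ∞ x`, and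
`Φ h ∞ x = a • Φ 0 ∞ x`). Vanishing of the component `i` at `b/p^n`, `n ≥ 1`, `p ∤ b`: `Φ i ∞ (b/p^n)` is the sum of the `Φ (i-1) ∞ ((b + j p^n)/p^(n+1))`, induction on `i`. The component `0` of the conclusion is the claim. -/
def Sx_KMX : Prop := ∀ (p : ℕ) (_ : p.Prime) (N' s : ℕ) (_ : p.Coprime N') (_ : N' ≠ 0) (R M : Type)
    [CommRing R] [AddCommGroup M] [Module R M] (χ : ℤ → R)
    (Φ : ℕ → OnePoint ℚ → OnePoint ℚ → M) (h : ℕ) (_ : 1 ≤ h)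
    (a : R) (_ : IsUnit a) (k : ℕ) (_ : ∀ i x y, (p : R) ^ k • Φ i x y = 0)
    (_ : χ 1 = 1) (_ : ∀ d d' : ℤ, χ (d * d') = χ d * χ d')
    (_ : ∀ d d' : ℤ, ((p * N' : ℕ) : ℤ) ∣ d - d' → χ d = χ d')
    (_ : ∀ i x y z, Φ i x y + Φ i y z = Φ i x z)
    (_ : ∀ (i : ℕ) (a b c d : ℤ), a * d - b * c = 1 → ((p ^ (s + 1) * N' : ℕ) : ℤ) ∣ c → ∀ x y,
      Φ i (mob a b c d x) (mob a b c d y) = χ d • Φ i x y)
    (_ : ∀ (i : ℕ) (x : ℚ), Φ (i + 1) ∞ (x : OnePoint ℚ) =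
      ∑ j ∈ Finset.range p, Φ i ∞ (((x + j) / p : ℚ) : OnePoint ℚ))
    (_ : ∀ x : ℚ, Φ h ∞ (x : OnePoint ℚ) = a • Φ 0 ∞ (x : OnePoint ℚ))
    (_ : ∀ n, 1 ≤ n → ∀ b : ℤ, ¬ (p : ℤ) ∣ b → Φ 0 ∞ ((b / p ^ n : ℚ) : OnePoint ℚ) = 0),
    ∀ α β γ δ : ℤ, α * δ - β * γ = 1 → ((p ^ (s + 1) * N' : ℕ) : ℤ) ∣ γ →
      ((p ^ (s + 1) * N' : ℕ) : ℤ) ∣ δ - 1 → ∀ x, Φ 0 x (mob α β γ δ x) = 0

/-- the standing hypotheses: a cycle of symbols `P (i+1) = U_p (P i)`, `P h = a P 0`, already divided by the period -/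
structure HypA (p : ℕ) (V : ValuationSubring ℂ) (N₀ s₀ h : ℕ) (a : ℂ) (nu : ℤ → ℂ)
    (P : ℕ → OnePoint ℚ → OnePoint ℚ → ℂ) (s : ℤ) : Prop where
  pp : p.Prime
  vp : V.valuation (p : ℂ) < 1
  N0 : N₀ ≠ 0
  cop : p.Coprime N₀
  h1 : 1 ≤ h
  va : V.valuation a = 1
  alga : IsAlgebraic ℚ a
  nu1 : nu 1 = 1
  nup : nu p = 0
  num : ∀ d d', nu (d * d') = nu d * nu d'
  nuper : ∀ d d', ((p * N₀ : ℕ) : ℤ) ∣ d - d' → nu d = nu d'
  nuv : ∀ d, V.valuation (nu d) ≤ 1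
  sym : ∀ i, IsSym (p ^ (s₀ + 1) * N₀) nu (P i)
  hec : ∀ i x y, hecke p nu (P i) x y = P (i + 1) x y
  per : ∀ x y, P h x y = a * P 0 x y
  alg : ∀ x y, IsAlgebraic ℚ (P 0 x y)
  fin : ∃ T : Finset ℂ, ∀ x y, P 0 x y ∈ AddSubgroup.closure (T : Set ℂ)
  s1 : s = 1 ∨ s = -1
  /-- Theorem G -/
  G : ∀ N' : ℕ, N' ≠ 0 → p ^ (s₀ + 1) * N₀ ∣ N' → ∃ α β γ δ : ℤ, α * δ - β * γ = 1 ∧
    (N' : ℤ) ∣ γ ∧ (N' : ℤ) ∣ δ - 1 ∧ 1 ≤ V.valuation (P 0 ∞ (mob α β γ δ ∞))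
  /-- the projector: integral twists of the part `s` give the symbol -/
  prj : ∃ (q : ℕ) (c : ℕ → ℂ), q ≠ 0 ∧ (∀ t, V.valuation (c t) ≤ 1) ∧ ∀ x y : OnePoint ℚ,
    ∑ t ∈ Finset.range q, c t * sgnPart (s : ℂ) (P 0) (mob q t 0 q x) (mob q t 0 q y) = P 0 x y

/-- (FLD) all values are in a number field.

USES MAX. PROOF. MAX for the set of all `P 0 x y` (nonempty): they are in the subgroup generated by finitely many of them, which are algebraic; `K = ℚ(these, a)` is finite over `ℚ` (`IntermediateField.finiteDimensional_adjoin`, algebraic = integral). `P i x y ∈ K` by induction on `i`: `hec`, `nup`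
(`hecke` is then a sum of values of `P i`). -/
def Sx_FLD : Prop :=
  ∀ (p : ℕ) (V : ValuationSubring ℂ) (N₀ s₀ h : ℕ) (a : ℂ) (nu : ℤ → ℂ)
    (P : ℕ → OnePoint ℚ → OnePoint ℚ → ℂ) (s : ℤ) (_ : HypA p V N₀ s₀ h a nu P s),
    ∃ K : IntermediateField ℚ ℂ, FiniteDimensional ℚ K ∧ a ∈ K ∧ ∀ i x y, P i x y ∈ K

/-- (BD) the values have bounded denominators.

USES MAX, ALB. PROOF. MAX for the set of all `P 0 x y`: one of them, `l`, has maximal valuation; ALB gives `k`. For `P i`: a sum of values of `P 0` (induction, `hec`, `nup`), same `k` (`v` of a sum is at most the maximum). -/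
def Sx_BD : Prop :=
  ∀ (p : ℕ) (V : ValuationSubring ℂ) (N₀ s₀ h : ℕ) (a : ℂ) (nu : ℤ → ℂ)
    (P : ℕ → OnePoint ℚ → OnePoint ℚ → ℂ) (s : ℤ) (_ : HypA p V N₀ s₀ h a nu P s),
    ∃ k : ℕ, ∀ i x y, V.valuation (p ^ k * P i x y) ≤ 1

/-- (H1) the part `s` of the symbol is not zero modulo `V` on closed cycles.

Model: `MU3/H_H1.lean` (helper92). PROOF. Let `N' = p^(s₀+1) N₀`, suppose `v (sgnPart s (P 0) ∞ (h ∞)) < 1` for all `h` in `Γ₁(N')`. `q`, `c` from `prj`; `h = (α β; γ δ)` from `G` for `N' q²`. `prj` at `x = ∞`, `y = h ∞`: `P 0 ∞ (h ∞) = Σ_t c_t sgnPart s (P 0) (T_t ∞) (T_t h ∞)`, `T_t = mob q t 0 q`, `T_t ∞ = ∞`, and `T_t (h ∞) = h' ∞` with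
`h' = T_t h T_t⁻¹ = (α + t γ/q, β + t (δ - α)/q - t² γ/q²; γ, δ - t γ/q)`, integral because `N' q² ∣ γ`, `N' q² ∣ δ - 1` and `N' q² ∣ α - 1` (`α δ = 1 + β γ`), and in `Γ₁(N')` (on `∞` check `mob` directly: `γ = 0` or not). So every term has `v < 1`: contradiction. -/
def Sx_H1 : Prop :=
  ∀ (p : ℕ) (V : ValuationSubring ℂ) (N₀ s₀ h : ℕ) (a : ℂ) (nu : ℤ → ℂ)
    (P : ℕ → OnePoint ℚ → OnePoint ℚ → ℂ) (s : ℤ) (_ : HypA p V N₀ s₀ h a nu P s),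
    ∃ α β γ δ : ℤ, α * δ - β * γ = 1 ∧ ((p ^ (s₀ + 1) * N₀ : ℕ) : ℤ) ∣ γ ∧
      ((p ^ (s₀ + 1) * N₀ : ℕ) : ℤ) ∣ δ - 1 ∧
      1 ≤ V.valuation (sgnPart (s : ℂ) (P 0) ∞ (mob α β γ δ ∞))

/-- (H2) some value at `b/p^n`, `p ∤ b`, `n ≥ 1`, is not in the maximal ideal.

USES KMX, H1, HK, BD. Model: `MU3/H_H2.lean` (helper54). PROOF. Suppose the contrary. Let `R = V`, `M = ℂ ⧸ m`, `m` = the `V`-submodule of the `x` with `v x < 1`, `Φ i x y` = the class of `sgnPart s (P i) x y`, `χ d = ⟨nu d, _⟩`,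
the unit `⟨a, _⟩`. Hypotheses of KMX: killed by `p^(k+1)` (BD); `χ`; additivity and equivariance: HK (ii); `Φ (i+1) ∞ x = Σ_j ..`: HK (iii) with `hec`; `Φ h = a Φ 0`: `per`; vanishing: assumption. KMX gives: `v (sgnPart s (P 0) ∞ (h ∞)) < 1` for all `h` in `Γ₁(p^(s₀+1) N₀)`, against H1. -/
def Sx_H2 : Prop :=
  ∀ (p : ℕ) (V : ValuationSubring ℂ) (N₀ s₀ h : ℕ) (a : ℂ) (nu : ℤ → ℂ)
    (P : ℕ → OnePoint ℚ → OnePoint ℚ → ℂ) (s : ℤ) (_ : HypA p V N₀ s₀ h a nu P s),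
    ∃ (n : ℕ) (b : ℤ), 1 ≤ n ∧ ¬ (p : ℤ) ∣ b ∧
      1 ≤ V.valuation (sgnPart (s : ℂ) (P 0) ∞ ((b / p ^ n : ℚ) : OnePoint ℚ))

/-- (HA) the conclusion of the abstract block: there is a residue class of `n` modulo `h` such that the character
sums of the combination have small valuation. `q0 = 3`, `E = 2` for `p = 3`; `q0 = 4`, `E = 1` for `p = 2`.

PROOF (helper27, glue). `S` = the set of the `sgnPart s (P 0) ∞ (b/p^n)`, `n ≥ 1`, `p ∤ b`. MAX: `lam ∈ S` of maximal valuation, `v lam ≥ 1` (H2), `lam` = value at `(n₂, b₂)`; `r = n₂`. `g i x = sgnPart s (P i) ∞ x`,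
`M n b = g ((h-1) n + r) (b/p^n)/(lam a^n)` is `Dist` (MD, HK). `v (M n b) ≤ 1` for `¬ p^n ∣ b`: `(h-1) n + r + h k = i₀ + h k'`..: by MD (1) the index may be reduced modulo `h`, by MD (3) `g i (b/p^n)` is a sum of values `g 0 (b''/p^(n+i))`, `¬ p^n ∣ b''`, each in `S`. At `n₂`: index `h n₂`, `g (h n₂) = a^(n₂) g 0`, so `M n₂ b₂ = 1`.
H5, FLD + DIS, HZ. For `n ≡ r` modulo `h`, `n ≥ r`: `n = r + h k`, index `h (n - k)`, `M n b = g 0 (b/p^n)/(lam a^k)`. -/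
def Sx_HA : Prop :=
  ∀ (p : ℕ) (V : ValuationSubring ℂ) (N₀ s₀ h : ℕ) (a : ℂ) (nu : ℤ → ℂ)
    (P : ℕ → OnePoint ℚ → OnePoint ℚ → ℂ) (s : ℤ) (_ : HypA p V N₀ s₀ h a nu P s),
    ∃ r : ℕ, ∀ (α g : ℤ) (_ : Q0 p α) (_ : α ≠ 1) (_ : Q0 p g) (_ : g ≠ 1) (N : ℕ) (_ : 1 ≤ N)
      (E : ℕ), ∃ n₀ : ℕ, ∀ n, n₀ ≤ n → n % h = r % h → ∀ ζ : ℂ, IsPrimitiveRoot ζ (p ^ n) →
        V.valuation (p : ℂ) < V.valuation (∑ b ∈ Finset.range (p ^ n), ζ ^ b *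
          comb α g N (fun b => sgnPart (s : ℂ) (P 0) ∞ ((b / p ^ n : ℚ) : OnePoint ℚ)) b) ^ E

end

end Pool.Agent.MUXH
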