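import Pool.Agent.MUX.StXE

/-!
# MUX, block E, part 2 (helper66): the final forms for families of points `(i, x)`, `p = 2` and `p = 3` at once

`C τ` is any conjugate family (`τ (C 1) = C τ`) with `C τ = ∏ Θ_a(pt R m i x; L_i)` over a set `S τ` of pairs
`(i, x)`. For helper3's `cX`: `S τ = XX R m h τ`; for helper59's root `cW`: `S τ` a half of it (`HalfS`).
-/

set_option autoImplicit false

namespace Pool.Agent.MUXE

open _root_.MU3 Pool.Agent.MU3A Pool.Agent.MU3B Pool.Agent.MUX Pool.Agent.MUXU Pool.Agent.RI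

noncomputable section

section
variable {A B : ℤ} {n : ℕ} {ι : Type}

/-- `S` is a half of `XX R m h τ` for `(i, x) ↦ (i, -x)` -/
structure HalfS (R : Reps A B n ι) (m : ℕ) {D : IntermediateField ℚ ℂ} (h : kk A B ≤ D)
    (τ : letI := algC h; D ≃ₐ[kk A B] D)
    (S : Finset (ι × (OO A B ⧸ idl (A := A) (B := B) m))) : Prop where
  sub : ∀ q ∈ S, q ∈ XX R m h τ
  cov : ∀ q ∈ XX R m h τ, q ∈ S ∨ (q.1, -q.2) ∈ S
  dis : ∀ q ∈ S, (q.1, -q.2) ∉ S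

/-- `T(τ)` with weights `c` and signs `w` -/
def TTw (R : Reps A B n ι) (c : ι → ℂ) (w : OO A B → ℤ) (m a : ℕ) {D : IntermediateField ℚ ℂ}
    (h : kk A B ≤ D) (τ : letI := algC h; D ≃ₐ[kk A B] D) : ℂ :=
  ∑ᶠ q ∈ XX R m h τ, (w (Quotient.out q.2) : ℂ) * c q.1 *
    dlX (R.L q.1) a (pt R m q.1 (Quotient.out q.2))

/-- odd sign functions on the elements prime to `m`, congruent to `wP P` modulo `p` (`p = 3`: `wP P`;
`p = 2`: any odd sign function) -/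
structure OddW (p : ℕ) (P : Ideal (OO A B)) (m : ℕ) (w : OO A B → ℤ) : Prop where
  per : ∀ x y : OO A B, x - y ∈ idl (A := A) (B := B) m → w x = w y
  pm : ∀ x, IsCoprime x ((m : ℕ) : OO A B) → w x = 1 ∨ w x = -1
  neg : ∀ x, w (-x) = -w x
  cong : ∀ x, IsCoprime x ((m : ℕ) : OO A B) → (p : ℤ) ∣ w x - wP P x

end

/-- (MAIN0) Lemma E for arbitrary families of pairs. -/
def Sxe_MAIN0 : Prop :=
  ∀ (p : ℕ) (A B : ℤ) (P : Ideal (OO A B)) (V : ValuationSubring ℂ) (f : ℕ),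
    SetP p A B P V f → RingE A B → RedE p P V → TorX A B →
    ∀ (ι : Type) [Fintype ι] (R : Reps A B (p * f) ι) (n : ℕ), 1 ≤ n →
    ∀ (H : ι → Finset ℂ), (∀ i, IsHalf (R.L i) (aX p f : ℂ) (H i)) →
    ∀ c : ι → ℂ, WtE V P R c →
    ∀ (D : IntermediateField ℚ ℂ) (h : kk A B ≤ D),
      (∀ y ∈ D, y ∈ RF (idl (A := A) (B := B) (lvX p f n))) →
    letI := algC h
    ∀ (C : (D ≃ₐ[kk A B] D) → ℂ)
      (S : (D ≃ₐ[kk A B] D) → Finset (ι × (OO A B ⧸ idl (A := A) (B := B) (lvX p f n)))),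
    (∀ τ : D ≃ₐ[kk A B] D, ∃ y : D, (y : ℂ) = C 1 ∧ ((τ y : D) : ℂ) = C τ) →
    (∀ τ, ∀ q ∈ S τ, IsCoprime (Quotient.out q.2 : OO A B) ((lvX p f n : ℕ) : OO A B)) →
    (∀ τ, C τ = ∏ q ∈ S τ, ThetaH (R.L q.1) (H q.1) (pt R (lvX p f n) q.1 (Quotient.out q.2))) →
    ∀ g : (D ≃ₐ[kk A B] D) → ℤ,
      (∃ w ∈ D, w ^ p = ∏ᶠ τ : D ≃ₐ[kk A B] D, C τ ^ g τ) →
      ∀ τ' : D ≃ₐ[kk A B] D,
        HfX p V (∑ᶠ τ : D ≃ₐ[kk A B] D, (g τ : ℂ) * ∑ q ∈ S (τ * τ'),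
          (wP P (Quotient.out q.2) : ℂ) * c q.1 *
            dlX (R.L q.1) (aX p f) (pt R (lvX p f n) q.1 (Quotient.out q.2)))

/-- (BDL) the logarithmic derivatives are integral, odd and periodic on the points `(i, x)`. -/
def Sxe_BDL : Prop :=
  ∀ (p : ℕ) (A B : ℤ) (P : Ideal (OO A B)) (V : ValuationSubring ℂ) (f : ℕ),
    SetP p A B P V f → RingE A B → RedE p P V →
    ∀ (ι : Type) (R : Reps A B (p * f) ι) (n : ℕ),
    ∀ (H : ι → Finset ℂ), (∀ i, IsHalf (R.L i) (aX p f : ℂ) (H i)) →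
    ∀ (i : ι) (x : OO A B), IsCoprime x ((lvX p f n : ℕ) : OO A B) →
      V.valuation (dlX (R.L i) (aX p f) (pt R (lvX p f n) i x)) ≤ 1 ∧
      ∀ y : OO A B, x + y ∈ idl (A := A) (B := B) (lvX p f n) →
        dlX (R.L i) (aX p f) (pt R (lvX p f n) i y) = -dlX (R.L i) (aX p f) (pt R (lvX p f n) i x)

/-- (EW) the final form for a root `C` of `cX` (helper59's `cW`): signs `c`, units `muX R i`, any odd sign function `w`. -/
def Sxe_EW : Prop :=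
  ∀ (p : ℕ) (A B : ℤ) (P : Ideal (OO A B)) (V : ValuationSubring ℂ) (f : ℕ),
    SetP p A B P V f → RingE A B → RedE p P V → TorX A B →
    ∀ (ι : Type) [Fintype ι] (R : Reps A B (p * f) ι),
    (∀ i, V.valuation (muX R i) = 1) ∧
    ∃ c : ι → ℤ, (∀ i, c i = 1 ∨ c i = -1) ∧
    ∀ n : ℕ, 1 ≤ n →
    ∀ (H : ι → Finset ℂ), (∀ i, IsHalf (R.L i) (aX p f : ℂ) (H i)) →
    ∀ (w : OO A B → ℤ), OddW p P (lvX p f n) w →
    ∀ (D : IntermediateField ℚ ℂ) (h : kk A B ≤ D),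
      (∀ y ∈ D, y ∈ RF (idl (A := A) (B := B) (lvX p f n))) →
    letI := algC h
    ∀ (C : (D ≃ₐ[kk A B] D) → ℂ),
    (∀ τ : D ≃ₐ[kk A B] D, ∃ y : D, (y : ℂ) = C 1 ∧ ((τ y : D) : ℂ) = C τ) →
    (∀ τ : D ≃ₐ[kk A B] D, ∃ S, HalfS R (lvX p f n) h τ S ∧
      C τ = ∏ q ∈ S, ThetaH (R.L q.1) (H q.1) (pt R (lvX p f n) q.1 (Quotient.out q.2))) →
    ∀ g : (D ≃ₐ[kk A B] D) → ℤ,
      (∃ y ∈ D, y ^ p = ∏ᶠ τ : D ≃ₐ[kk A B] D, C τ ^ g τ) →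
      ∀ τ' : D ≃ₐ[kk A B] D,
        HfX p V (1 / 2 * ∑ᶠ τ : D ≃ₐ[kk A B] D, (g τ : ℂ) *
          TTw R (fun i => (c i : ℂ)) w (lvX p f n) (aX p f) h (τ * τ'))

end

end Pool.Agent.MUXE
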