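import Pool.Agent.MUX.StKX
import Pool.Agent.MU3.N_GAL

/-!
# MUXK_GENX: Galois theory of `K B_n` over `K`, linearly disjoint layers
-/

open NumberField Finset IsDedekindDomain
open scoped nonZeroDivisors Pointwise

namespace Pool.Agent.MUXK

open Pool.Agent.MU3 Pool.Agent.RI Pool.Agent.RID

namespace GenX

/-- The degree of `K B / K`. -/
lemma degree {p n : ℕ} (K B : IntermediateField ℚ ℂ) [FiniteDimensional ℚ K]
    (hdeg : Module.finrank ℚ ↥(K ⊔ B) = Module.finrank ℚ K * p ^ n) :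
    Module.finrank K (IntermediateField.extendScalars (le_sup_left : K ≤ K ⊔ B)) = p ^ n := by
  have h3 : Module.finrank ℚ K * Module.finrank K
      (IntermediateField.extendScalars (le_sup_left : K ≤ K ⊔ B)) =
      Module.finrank ℚ ↥(K ⊔ B) :=
    Module.finrank_mul_finrank ℚ K (IntermediateField.extendScalars (le_sup_left : K ≤ K ⊔ B))
  rw [hdeg] at h3
  exact Nat.eq_of_mul_eq_mul_left Module.finrank_pos h3

/-- The case `k = K`. -/
lemma overK (p : ℕ) [Fact p.Prime] (K : IntermediateField ℚ ℂ)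
    [FiniteDimensional ℚ K] (B : ℕ → IntermediateField ℚ ℂ)
    (hdeg : ∀ n, Module.finrank ℚ ↥(K ⊔ B n) = Module.finrank ℚ K * p ^ n)
    (hB : ∀ n, IsLayer p n (B n)) (hm : Monotone B) (n : ℕ) :
    letI := algC (le_sup_left : K ≤ K ⊔ B n)
    ∃ g : ↥(K ⊔ B n) ≃ₐ[K] ↥(K ⊔ B n), orderOf g = p ^ n ∧
      (∀ x : ↥(K ⊔ B n), g x = x ↔ (x : ℂ) ∈ K) ∧
      ∀ m ≤ n, orderOf (g ^ (p ^ m)) = p ^ (n - m) ∧
        ∀ x : ↥(K ⊔ B n), (g ^ (p ^ m)) x = x ↔ (x : ℂ) ∈ K ⊔ B m := by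
  have hpr : p.Prime := Fact.out
  have hKL : K ≤ K ⊔ B n := le_sup_left
  let aKL : Algebra K ↥(K ⊔ B n) := algC hKL
  obtain ⟨hfB, hGB, -⟩ := LAY_thm p n (B n) (hB n)
  have fdQ : FiniteDimensional ℚ ↥(K ⊔ B n) := IntermediateField.finiteDimensional_sup K (B n)
  have fdL : FiniteDimensional K ↥(K ⊔ B n) := Module.Finite.of_restrictScalars_finite ℚ K _
  have gL : IsGalois K ↥(K ⊔ B n) := (isGalois_algC hKL).2 (MU3.Gal.base K (B n) (hB n)).1
  have dL : Module.finrank K ↥(K ⊔ B n) = p ^ n :=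
    (finrank_algC hKL).trans (degree K (B n) (hdeg n))
  have hcyc := CDL.cyclic (F := K) (t_LAYC p n (B n) (hB n))
  have hcyc2 : IsCyclic (↥(K ⊔ B n) ≃ₐ[K] ↥(K ⊔ B n)) :=
    isCyclic_of_injective (AlgEquiv.autCongr (extEquiv hKL)).symm.toMonoidHom
      (AlgEquiv.autCongr (extEquiv hKL)).symm.injective
  have hc : IsCyclic (⊥ : IntermediateField K ↥(K ⊔ B n)).fixingSubgroup := inferInstance
  obtain ⟨g, hg1, hg2⟩ := GCC.gen (⊥ : IntermediateField K ↥(K ⊔ B n)) hc (p ^ n)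
    (by rw [dL, IntermediateField.finrank_bot, one_mul])
  have hbot : ∀ x : ↥(K ⊔ B n), x ∈ (⊥ : IntermediateField K ↥(K ⊔ B n)) ↔ (x : ℂ) ∈ K := by
    intro x
    rw [IntermediateField.mem_bot]
    constructor
    · rintro ⟨y, rfl⟩
      exact y.2
    · intro h
      exact ⟨⟨(x : ℂ), h⟩, rfl⟩
  refine ⟨g, hg1, fun x => (hg2 x).trans (hbot x), fun m hmn => ⟨?_, ?_⟩⟩
  · rw [orderOf_pow_of_dvd (pow_ne_zero _ hpr.ne_zero) (by rw [hg1]; exact pow_dvd_pow p hmn), hg1,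
      Nat.pow_div hmn hpr.pos]
  · have hKm : K ≤ K ⊔ B m := le_sup_left
    have hmL : K ⊔ B m ≤ K ⊔ B n := sup_le_sup_left (hm hmn) K
    have key := GCP.cyc_fixed g ⊥ (GCP.sub hKL (K ⊔ B m) hKm) (p ^ m) hg2 bot_le
      (by rw [IntermediateField.finrank_bot, one_mul, GCP.finrank_sub hKL (K ⊔ B m) hKm hmL]
          exact degree K (B m) (hdeg m))
    intro x
    exact (key x).trans (GCP.mem_sub hKL (K ⊔ B m) hKm x)

end GenX

open GenX in
theorem t_GENX : S_GENX := by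
  intro p _ k K _ B hk hdeg hB hm n h
  let akL : Algebra k ↥(K ⊔ B n) := algC h
  have hKL : K ≤ K ⊔ B n := le_sup_left
  let akK : Algebra k K := algC hk
  let aKL : Algebra K ↥(K ⊔ B n) := algC hKL
  have t0 : IsScalarTower k K ↥(K ⊔ B n) := towerC hk hKL
  obtain ⟨g, hg1, hg2, hg3⟩ := overK p K B hdeg hB hm n
  have hpow : ∀ j : ℕ, (AlgEquiv.restrictScalars k g : ↥(K ⊔ B n) ≃ₐ[k] ↥(K ⊔ B n)) ^ j =
      AlgEquiv.restrictScalars k (g ^ j) := fun j =>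
    (map_pow (AlgEquiv.restrictScalarsHom k : (↥(K ⊔ B n) ≃ₐ[K] ↥(K ⊔ B n)) →* _) g j).symm
  have hord : ∀ γ : ↥(K ⊔ B n) ≃ₐ[K] ↥(K ⊔ B n),
      orderOf (AlgEquiv.restrictScalars k γ : ↥(K ⊔ B n) ≃ₐ[k] ↥(K ⊔ B n)) = orderOf γ := by
    intro γ
    refine orderOf_injective
      (AlgEquiv.restrictScalarsHom k : (↥(K ⊔ B n) ≃ₐ[K] ↥(K ⊔ B n)) →* _) ?_ γ
    exact AlgEquiv.restrictScalars_injective k
  refine ⟨AlgEquiv.restrictScalars k g, (hord g).trans hg1, hg2, fun m hmn => ⟨?_, ?_⟩⟩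
  · rw [hpow, hord]
    exact (hg3 m hmn).1
  · rw [hpow]
    exact (hg3 m hmn).2

end Pool.Agent.MUXK
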