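import Pool.Agent.MUX.StZX
import Pool.Agent.MUX.K_GENX
import Pool.Agent.MU3.Ord3

/-!
# MUX, last glue, module INW: the inputs from block W
-/

set_option autoImplicit false

open NumberField IsDedekindDomain

namespace Pool.Agent.MUXZ

open _root_.MU3 Pool.Agent.MU3 Pool.Agent.MU3A Pool.Agent.MU3B Pool.Agent.RI Pool.Agent.RID
  Pool.Agent.MUX Pool.Agent.MUXK Pool.Agent.MUXJ Pool.Agent.MUXW
open Pool.Agent.MU3V (Sub GD)

noncomputable section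

namespace Z_INW

/-- an automorphism of `K_m` with fixed field `K_n` has order `p ^ (m - n)` -/
theorem ordP (p : ℕ) [Fact p.Prime] (k K : IntermediateField ℚ ℂ)
    (B : ℕ → IntermediateField ℚ ℂ)
    [FiniteDimensional ℚ K] [∀ n, FiniteDimensional ℚ ↥(K ⊔ B n)] (hB : BasX p k K B) (m n : ℕ)
    (hn : n ≤ m) (h' : k ≤ K ⊔ B n) (h : k ≤ K ⊔ B m) :
    letI := algC h
    ∀ σ : ↥(K ⊔ B m) ≃ₐ[k] ↥(K ⊔ B m),
      (∀ x : ↥(K ⊔ B m), σ x = x ↔ (x : ℂ) ∈ K ⊔ B n) → orderOf σ = p ^ (m - n) := by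
  let akL : Algebra k ↥(K ⊔ B m) := algC h
  intro σ hσ
  have fdL : FiniteDimensional k ↥(K ⊔ B m) :=
    Module.Finite.of_restrictScalars_finite ℚ k _
  obtain ⟨g, hg1, -, hg3⟩ := t_GENX p k K B hB.hk hB.deg hB.lay hB.mono m h
  obtain ⟨hg4, hg5⟩ := hg3 n hn
  have e1 := P_TWK.zp σ (GCC.sub h (K ⊔ B n) h')
    (fun x => (hσ x).trans (GCC.mem_sub h (K ⊔ B n) h' x).symm)
  have e2 := P_TWK.zp (g ^ p ^ n) (GCC.sub h (K ⊔ B n) h')
    (fun x => (hg5 x).trans (GCC.mem_sub h (K ⊔ B n) h' x).symm)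
  have e3 : orderOf σ = orderOf (g ^ p ^ n) := by
    rw [← Nat.card_zpowers, ← e1, e2, Nat.card_zpowers]
  rw [e3, hg4]

theorem natO_ne {A B : ℤ} {N : ℕ} (hN : N ≠ 0) : ((N : ℕ) : OO A B) ≠ 0 := by
  intro h0
  have h1 := congrArg QuadraticAlgebra.re h0
  rw [QuadraticAlgebra.re_natCast, QuadraticAlgebra.re_zero] at h1
  exact hN (by exact_mod_cast h1)

theorem idl_ne {A B : ℤ} {N : ℕ} (hN : N ≠ 0) : idl (A := A) (B := B) N ≠ ⊥ := by
  intro h0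
  rw [Ideal.span_singleton_eq_bot] at h0
  exact natO_ne hN h0

/-- the norm relation, with the level of `θ'` up to equality -/
theorem i1' (hI1 : Sy_I1) (A B : ℤ) (hc : MUX.CQ A B) (T : TorX A B) (L : PeriodPair) (Om : ℂ)
    (hL : IsNL (⊤ : Ideal (OO A B)) L Om) (m b M : OO A B) (hM : M = b * m) (hm : m ≠ 0)
    (hbm : b ∣ m) (h2 : ¬ m ∣ 2) (a : ℤ) (H : Finset ℂ) (ha : a ≠ 0)
    (hcop : IsCoprime (a : OO A B) m) (hH : IsHalf L a H)
    (θ : (RF (sp m) : IntermediateField (kk A B) ℂ))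
    (θ' : (RF (sp M) : IntermediateField (kk A B) ℂ))
    (h3 : (θ : ℂ) = ThetaH L H (Om / emb m)) (h4 : (θ' : ℂ) = ThetaH L H (Om / emb M))
    (D D' : IntermediateField ℚ ℂ) (h : kk A B ≤ D) (h' : kk A B ≤ D') (hle : D ≤ D')
    (hH' : HasH A B D) (hs : Sub D (RF (sp m) : IntermediateField (kk A B) ℂ))
    (hs' : Sub D' (RF (sp M) : IntermediateField (kk A B) ℂ)) :
    letI := algC h; letI := algC h'
    ∀ (p : ℕ) (σ : D' ≃ₐ[kk A B] D'), (∀ x : D', σ x = x ↔ (x : ℂ) ∈ D) → orderOf σ = p → p ≠ 0 →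
    ∀ c' : D', (c' : ℂ) = cW h' θ' →
      ∃ C ∈ (RF (⊤ : Ideal (OO A B)) : IntermediateField (kk A B) ℂ), C ≠ 0 ∧
        ∏ i ∈ Finset.range p, (((σ ^ i) c' : D') : ℂ) = C * cW h θ := by
  subst hM
  exact hI1 A B hc T L Om hL m b hm hbm h2 a H ha hcop hH θ θ' h3 h4 D D' h h' hle hH' hs hs'

end Z_INW

open Z_INW in
/-- the inputs from block W -/
theorem tz_INW (hLVX : Sz_LVX) (hLVF : Sz_LVF) (hMEM : Sy_MEM) (hTOW : Sy_TOW) (hSUC : Sy_SUC)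
    (hI1 : Sy_I1) (hKOL : Sy_KOL) : Sz_INW := by
  intro p A B P V f hS T ι _ R H θ hθ K₀ K Bn _ _ _ hX hKF hHK hk hk₀
  have hp : p.Prime := by
    rcases hS.case.split with h | h
    · rw [h.1]; exact Nat.prime_three
    · rw [h.1]; exact Nat.prime_two
  have : Fact p.Prime := ⟨hp⟩
  have hc : MUX.CQ A B := hS.case.toCQ
  have hnl : IsNL (⊤ : Ideal (OO A B)) (R.L R.i0) (R.om R.i0) := by
    have h1 := R.nl R.i0
    rw [R.b0] at h1
    exact h1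
  have hNL : NLex A B := ⟨_, _, _, hnl⟩
  have hm0 : ∀ n, lvX p f n ≠ 0 := fun n => (hLVX p A B P V f hS n).1
  have hsub : ∀ n, Sub (K ⊔ Bn n) (RF (idl (A := A) (B := B) (lvX p f n))) := fun n =>
    hLVF p A B hS.case T hNL f hS.f0 K hKF n (Bn n) (hX.b.lay n)
  have hsub₀ : ∀ n, Sub (K₀ ⊔ Bn n) (RF (idl (A := A) (B := B) (lvX p f n))) := fun n =>
    hLVF p A B hS.case T hNL f hS.f0 K₀ (fun y hy => hKF y (hX.le hy)) n (Bn n) (hX.b.lay n)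
  have hM := fun n => hMEM A B (RF (idl (A := A) (B := B) (lvX p f n))) (T.fin _ (idl_ne (hm0 n)))
    (T.gal _ (idl_ne (hm0 n))) (T.comm _ (idl_ne (hm0 n))) (K ⊔ Bn n) (hk n) (hsub n) (θ n)
    (hθ.ne n)
  have hM₀ := fun n => hMEM A B (RF (idl (A := A) (B := B) (lvX p f n)))
    (T.fin _ (idl_ne (hm0 n))) (T.gal _ (idl_ne (hm0 n))) (T.comm _ (idl_ne (hm0 n)))
    (K₀ ⊔ Bn n) (hk₀ n) (hsub₀ n) (θ n) (hθ.ne n)
  have hmem : ∀ n, cW (hk n) (θ n) ∈ K ⊔ Bn n := by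
    intro n
    rw [(hM n).1]
    exact ((hM n).2.1 _).1
  have hne : ∀ n, cW (hk n) (θ n) ≠ 0 := by
    intro n
    rw [(hM n).1]
    exact ((hM n).2.1 _).2
  have hmem₀ : ∀ n, cW (hk₀ n) (θ n) ∈ K₀ ⊔ Bn n := by
    intro n
    rw [(hM₀ n).1]
    exact ((hM₀ n).2.1 _).1
  obtain ⟨n0, hn0, hSUC'⟩ := hSUC A B hc T (R.L R.i0) (R.om R.i0) hnl
  obtain ⟨n1, hn1, hKOL'⟩ := hKOL A B hc T (p * f) ι R
  have ha0 : aX p f ≠ 0 := by
    intro h0
    have h1 := (hLVX p A B P V f hS 0).2.2.2.2.2.1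
    rw [h0] at h1
    exact absurd h1 (by decide)
  have haZ : (aX p f : ℤ) ≠ 0 := by exact_mod_cast ha0
  have hhalf : IsHalf (R.L R.i0) ((aX p f : ℤ) : ℂ) (H R.i0) := by
    have h1 := hθ.half R.i0
    rw [Int.cast_natCast]
    exact h1
  have hcopO : ∀ n, IsCoprime ((aX p f : ℤ) : OO A B) ((lvX p f n : ℕ) : OO A B) := fun n =>
    (hLVX p A B P V f hS n).2.2.2.2.2.2.2.1
  have hfn0 := hS.f0
  set S : Finset ℕ := n0.primeFactors ∪ n1.primeFactors ∪ (aX p f).primeFactors ∪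
    (p * f).primeFactors with hSdef
  have hSprime : ∀ q ∈ S, q.Prime := by
    intro q hq
    rw [hSdef] at hq
    simp only [Finset.mem_union] at hq
    rcases hq with ((h | h) | h) | h <;> exact Nat.prime_of_mem_primeFactors h
  have hS0 : ∀ q : ℕ, q.Prime → q ∣ n0 → q ∈ S := by
    intro q hq hd
    rw [hSdef]
    simp only [Finset.mem_union]
    exact Or.inl (Or.inl (Or.inl (Nat.mem_primeFactors.2 ⟨hq, hd, hn0⟩)))
  have hS1 : ∀ q : ℕ, q.Prime → q ∣ n1 → q ∈ S := by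
    intro q hq hd
    rw [hSdef]
    simp only [Finset.mem_union]
    exact Or.inl (Or.inl (Or.inr (Nat.mem_primeFactors.2 ⟨hq, hd, hn1⟩)))
  have hSa : ∀ q : ℕ, q.Prime → (q : ℤ) ∣ (aX p f : ℤ) → q ∈ S := by
    intro q hq hd
    have h1 : q ∣ aX p f := by exact_mod_cast hd
    rw [hSdef]
    simp only [Finset.mem_union]
    exact Or.inl (Or.inr (Nat.mem_primeFactors.2 ⟨hq, h1, ha0⟩))
  have hSm : ∀ n, ∀ q : ℕ, q.Prime → (q : ℤ) ∣ nm ((lvX p f n : ℕ) : OO A B) → q ∈ S := by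
    intro n q hq hd
    have h1 := (hLVX p A B P V f hS n).2.2.2.2.2.2.2.2.1 q hq hd
    rw [hSdef]
    simp only [Finset.mem_union]
    exact Or.inr (Nat.mem_primeFactors.2 ⟨hq, h1, mul_ne_zero hp.ne_zero hfn0⟩)
  have hHas : ∀ n, HasH A B (K ⊔ Bn n) := fun n x hx =>
    (le_sup_left : K ≤ K ⊔ Bn n) (hHK x hx)
  refine ⟨S, ?_⟩
  constructor
  case mem => exact hmem
  case ne => exact hne
  case mem₀ => exact hmem₀
  case norm =>
    intro n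
    exact hTOW A B (RF (idl (A := A) (B := B) (lvX p f n))) (T.fin _ (idl_ne (hm0 n)))
      (T.gal _ (idl_ne (hm0 n))) (T.comm _ (idl_ne (hm0 n))) (K₀ ⊔ Bn n) (K ⊔ Bn n) (hk₀ n) (hk n)
      (sup_le_sup_right hX.le _) (hsub n) (θ n) (hθ.ne n) (hmem n)
  case prime => exact hSprime
  case su =>
    intro n _
    exact hSUC' _ (natO_ne (hm0 n)) (hLVX p A B P V f hS n).2.2.2.2.1 (aX p f : ℤ) (H R.i0) haZ
      (hcopO n) hhalf S hS0 hSa (hSm n) (θ n) (hθ.om n) (K ⊔ Bn n) (hk n) (hsub n) _ rfl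
  case nrm =>
    intro n _
    let akD : Algebra (kk A B) ↥(K ⊔ Bn n) := algC (hk n)
    let akL : Algebra (kk A B) ↥(K ⊔ Bn (n + 1)) := algC (hk (n + 1))
    intro σ hσ
    have hle : K ⊔ Bn n ≤ K ⊔ Bn (n + 1) := sup_le_sup_left (hX.b.mono (Nat.le_succ n)) K
    have hord : orderOf σ = p := by
      have h1 := ordP p (kk A B) K Bn hX.b (n + 1) n (Nat.le_succ n) (hk n) (hk (n + 1)) σ hσ
      rw [h1]
      simp
    have hlev : ((lvX p f (n + 1) : ℕ) : OO A B) = (p : OO A B) * ((lvX p f n : ℕ) : OO A B) := by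
      rw [(hLVX p A B P V f hS n).2.1]
      push_cast
      rfl
    have hbm : (p : OO A B) ∣ ((lvX p f n : ℕ) : OO A B) := by
      obtain ⟨t, ht⟩ := (hLVX p A B P V f hS n).2.2.1
      rw [ht]
      push_cast
      exact dvd_mul_right _ _
    obtain ⟨C, hCH, hC0, hCe⟩ := i1' hI1 A B hc T (R.L R.i0) (R.om R.i0) hnl
      ((lvX p f n : ℕ) : OO A B) (p : OO A B) ((lvX p f (n + 1) : ℕ) : OO A B) hlev
      (natO_ne (hm0 n)) hbm (hLVX p A B P V f hS n).2.2.2.1 (aX p f : ℤ) (H R.i0) haZ (hcopO n)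
      hhalf (θ n) (θ (n + 1)) (hθ.om n) (hθ.om (n + 1)) (K ⊔ Bn n) (K ⊔ Bn (n + 1)) (hk n)
      (hk (n + 1)) hle (hHas n) (hsub n) (hsub (n + 1)) p σ hσ hord hp.ne_zero
      ⟨cW (hk (n + 1)) (θ (n + 1)), hmem (n + 1)⟩ rfl
    exact ⟨C, hHK C hCH, hC0, hCe⟩
  case kol =>
    intro n _
    let akD : Algebra (kk A B) ↥(K ⊔ Bn n) := algC (hk n)
    have h1 := hKOL' p hp _ (natO_ne (hm0 n)) (hLVX p A B P V f hS n).2.2.2.1 (aX p f : ℤ)
      (H R.i0) haZ (hcopO n) hhalf S hS1 hSa (hSm n) (θ n) (hθ.om n) (K ⊔ Bn n) (hk n) (hHas n)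
      (hsub n) ⟨cW (hk n) (θ n), hmem n⟩ rfl
    refine KolInP.mono ?_ h1
    intro g hg x hx
    exact hg x (hHK _ hx)

end

end Pool.Agent.MUXZ
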