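import Pool.Agent.MUX.StKX
import Pool.Agent.MU3.P_TWK

/-!
# MUX, block K, module NR1: the norm relation for `c₀`, one step
-/

set_option autoImplicit false

open NumberField IsDedekindDomain Finset
open scoped nonZeroDivisors Pointwise

namespace Pool.Agent.MUXK

open Pool.Agent.MU3 Pool.Agent.RI Pool.Agent.RID Pool.Agent.Lib_helper28.FROB

namespace K_NR1

/-- `NC` as a fixing subgroup. -/
lemma nc_eq {k A L : IntermediateField ℚ ℂ} (h : k ≤ L) (hkA : k ≤ A) :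
    letI := algC h
    NC h A = (GCC.sub h A hkA).fixingSubgroup := by
  let akL : Algebra k L := algC h
  ext σ
  constructor
  · intro hσ x
    exact hσ x x.2
  · intro hσ x hx
    exact hσ ⟨x, hx⟩

/-- The order of `NC`. -/
lemma card_NC {k A L : IntermediateField ℚ ℂ} [FiniteDimensional ℚ L] (h : k ≤ L) (hkA : k ≤ A)
    (hAL : A ≤ L) (gal : letI := algC h; IsGalois k L) :
    letI := algC h
    Nat.card (NC h A) * Module.finrank ℚ A = Module.finrank ℚ L := by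
  let akL : Algebra k L := algC h
  have gL : IsGalois k L := gal
  have fdL : FiniteDimensional k L := Module.Finite.of_restrictScalars_finite ℚ k _
  have e : NC h A = (GCC.sub h A hkA).fixingSubgroup := nc_eq h hkA
  rw [e, IsGalois.card_fixingSubgroup_eq_finrank]
  have e1 : Module.finrank k (GCC.sub h A hkA) * Module.finrank (GCC.sub h A hkA) L =
      Module.finrank k L := Module.finrank_mul_finrank _ _ _
  have e2 : Module.finrank ℚ k * Module.finrank k (IntermediateField.extendScalars hkA) =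
      Module.finrank ℚ A := Module.finrank_mul_finrank ℚ k (IntermediateField.extendScalars hkA)
  have e3 : Module.finrank ℚ k * Module.finrank k (IntermediateField.extendScalars h) =
      Module.finrank ℚ L := Module.finrank_mul_finrank ℚ k (IntermediateField.extendScalars h)
  have e4 : Module.finrank k L = Module.finrank k (IntermediateField.extendScalars h) :=
    finrank_algC h
  rw [← e2, ← e3, ← e4, ← e1, GCC.finrank_sub h A hkA hAL]
  ring

/-- The elements fixed by `NC`. -/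
lemma mem_of_fixed {k A L : IntermediateField ℚ ℂ} [FiniteDimensional ℚ L] (h : k ≤ L)
    (hkA : k ≤ A) (gal : letI := algC h; IsGalois k L) (x : L)
    (hx : letI := algC h; ∀ σ ∈ NC h A, σ x = x) : (x : ℂ) ∈ A := by
  let akL : Algebra k L := algC h
  have gL : IsGalois k L := gal
  have fdL : FiniteDimensional k L := Module.Finite.of_restrictScalars_finite ℚ k _
  have e : NC h A = (GCC.sub h A hkA).fixingSubgroup := nc_eq h hkA
  have h1 : x ∈ IntermediateField.fixedField (GCC.sub h A hkA).fixingSubgroup := by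
    intro σ
    have h2 : (σ : L ≃ₐ[k] L) ∈ NC h A := by
      rw [e]
      exact σ.2
    exact hx σ h2
  rw [IsGalois.fixedField_fixingSubgroup] at h1
  exact h1

/-- Restriction of automorphisms is a bijection. -/
lemma res {k A A' L L' : IntermediateField ℚ ℂ} [FiniteDimensional ℚ L'] [FiniteDimensional ℚ L]
    (h : k ≤ L) (h' : k ≤ L') (hLL : L ≤ L') (hkA : k ≤ A) (hkA' : k ≤ A') (hAL : A ≤ L)
    (hAL' : A' ≤ L') (hAA : A ≤ A')
    (gal : letI := algC h; IsGalois k L) (gal' : letI := algC h'; IsGalois k L')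
    (htriv : letI := algC h'; ∀ σ : L' ≃ₐ[k] L', (∀ x : L', (x : ℂ) ∈ L → σ x = x) →
      (∀ x : L', (x : ℂ) ∈ A' → σ x = x) → σ = 1)
    (hdeg : Module.finrank ℚ L' * Module.finrank ℚ A =
      Module.finrank ℚ L * Module.finrank ℚ A') :
    letI := algC h
    letI := algC h'
    ∃ e : NC h' A' ≃ NC h A, ∀ (σ : NC h' A') (x : L),
      ((((e σ : NC h A) : L ≃ₐ[k] L) x : L) : ℂ) =
        (((σ : L' ≃ₐ[k] L') ⟨(x : ℂ), hLL x.2⟩ : L') : ℂ) := by
  let aL : Algebra k L := algC h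
  let aL' : Algebra k L' := algC h'
  let aLL : Algebra L L' := algC hLL
  have tLL : IsScalarTower k L L' := towerC h hLL
  have gL : IsGalois k L := gal
  have gL' : IsGalois k L' := gal'
  have fdL : FiniteDimensional k L := Module.Finite.of_restrictScalars_finite ℚ k _
  have fdL' : FiniteDimensional k L' := Module.Finite.of_restrictScalars_finite ℚ k _
  have hres : ∀ (σ : L' ≃ₐ[k] L') (x : L),
      ((AlgEquiv.restrictNormalHom L σ x : L) : ℂ) = (σ ⟨(x : ℂ), hLL x.2⟩ : L') := by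
    intro σ x
    have h2 := AlgEquiv.restrictNormal_commutes σ L x
    exact congrArg Subtype.val h2
  have hmem : ∀ δ ∈ NC h' A', AlgEquiv.restrictNormalHom L δ ∈ NC h A := by
    intro δ hδ x hx
    apply Subtype.ext
    rw [hres, hδ ⟨(x : ℂ), hLL x.2⟩ (hAA hx)]
  let φ : NC h' A' →* NC h A :=
    { toFun := fun δ => ⟨AlgEquiv.restrictNormalHom L (δ : L' ≃ₐ[k] L'), hmem δ δ.2⟩
      map_one' := Subtype.ext (map_one _)
      map_mul' := fun a b => Subtype.ext (map_mul _ _ _) }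
  have hφ : Function.Injective φ := by
    rw [injective_iff_map_eq_one]
    intro δ hδ
    have hδ' : AlgEquiv.restrictNormalHom L (δ : L' ≃ₐ[k] L') = 1 := congrArg Subtype.val hδ
    apply Subtype.ext
    apply htriv
    · intro x hx
      apply Subtype.ext
      have h3 := hres δ ⟨x, hx⟩
      rw [hδ'] at h3
      exact h3.symm
    · exact δ.2
  have hcard : Nat.card (NC h' A') = Nat.card (NC h A) := by
    have e1 := card_NC h hkA hAL gal
    have e2 := card_NC h' hkA' hAL' gal'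
    have fA : FiniteDimensional ℚ A := FiniteDimensional.of_injective
      (IntermediateField.inclusion hAL).toLinearMap (IntermediateField.inclusion hAL).injective
    have fA' : FiniteDimensional ℚ A' := FiniteDimensional.of_injective
      (IntermediateField.inclusion hAL').toLinearMap (IntermediateField.inclusion hAL').injective
    have p1 : 0 < Module.finrank ℚ A := Module.finrank_pos
    have p2 : 0 < Module.finrank ℚ A' := Module.finrank_pos
    rw [← e1, ← e2] at hdeg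
    have h4 : Nat.card (NC h' A') * (Module.finrank ℚ A' * Module.finrank ℚ A) =
        Nat.card (NC h A) * (Module.finrank ℚ A' * Module.finrank ℚ A) := by
      rw [← mul_assoc]
      refine hdeg.trans ?_
      ring
    exact Nat.eq_of_mul_eq_mul_right (Nat.mul_pos p2 p1) h4
  have hbij := (Nat.bijective_iff_injective_and_card φ).2 ⟨hφ, hcard⟩
  exact ⟨Equiv.ofBijective φ hbij, fun σ x => hres σ x⟩

/-- An automorphism in a group of prime order has the fixed field of the generator. -/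
lemma fix_prime {F L : Type} [Field F] [Field L] [Algebra F L] [FiniteDimensional F L] (g s : L ≃ₐ[F] L) (p : ℕ)
    (hp : p.Prime) (hg : orderOf g = p) (hs : s ∈ Subgroup.zpowers g) (h1 : s ≠ 1) (x : L) :
    s x = x ↔ g x = x := by
  have hle : Subgroup.zpowers s ≤ Subgroup.zpowers g := by
    rwa [Subgroup.zpowers_le]
  have hd : orderOf s ∣ p := by
    rw [← hg, ← Nat.card_zpowers, ← Nat.card_zpowers]
    exact Subgroup.card_dvd_of_le hle
  have hps : orderOf s = p := by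
    rcases (Nat.dvd_prime hp).1 hd with h | h
    · exact absurd (orderOf_eq_one_iff.1 h) h1
    · exact h
  have heq : Subgroup.zpowers s = Subgroup.zpowers g := by
    apply Subgroup.eq_of_le_of_card_ge hle
    rw [Nat.card_zpowers, Nat.card_zpowers, hg, hps]
  constructor
  · intro h
    have h2 : s ∈ MulAction.stabilizer (L ≃ₐ[F] L) x := h
    have h3 : g ∈ Subgroup.zpowers s := heq ▸ Subgroup.mem_zpowers g
    obtain ⟨j, hj⟩ := h3
    have h4 := zpow_mem h2 j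
    have hj' : s ^ j = g := hj
    rw [hj'] at h4
    exact h4
  · intro h
    have h2 : g ∈ MulAction.stabilizer (L ≃ₐ[F] L) x := h
    obtain ⟨j, hj⟩ := hs
    have h4 := zpow_mem h2 j
    have hj' : g ^ j = s := hj
    rw [hj'] at h4
    exact h4

end K_NR1

open K_NR1 in
theorem t_NR1 (h1 : S_GALX) (h2 : S_GENX) (h3 : S_LFX) : S_NR1 := by
  intro F _ p _ k K₀ K B _ _ _ _ hX hk hk₀ hkK S c c₀ n₁ hI n hn
  have hpr : p.Prime := Fact.out
  intro σ hσ
  have hBn : B n ≤ B (n + 1) := hX.b.mono (Nat.le_succ n)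
  have hh : ∀ m, K₀ ⊔ B m ≤ K ⊔ B m := fun m => sup_le_sup_right hX.le _
  have hL : K ⊔ B n ≤ K ⊔ B (n + 1) := sup_le_sup_left hBn K
  have hM : K₀ ⊔ B n ≤ K₀ ⊔ B (n + 1) := sup_le_sup_left hBn K₀
  let aL' : Algebra k ↥(K ⊔ B (n + 1)) := algC (hk (n + 1))
  let aL : Algebra k ↥(K ⊔ B n) := algC (hk n)
  let aM' : Algebra k ↥(K₀ ⊔ B (n + 1)) := algC (hk₀ (n + 1))
  let aK : Algebra k K := algC hX.b.hk
  obtain ⟨gL', cL'⟩ := h1 p k K B hX.b (n + 1) (hk (n + 1))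
  obtain ⟨gL, cL⟩ := h1 p k K B hX.b n (hk n)
  have gK : IsGalois k K := (isGalois_algC hX.b.hk).2 hX.b.gal
  have fdL' : FiniteDimensional k ↥(K ⊔ B (n + 1)) :=
    Module.Finite.of_restrictScalars_finite ℚ k _
  have fdL : FiniteDimensional k ↥(K ⊔ B n) := Module.Finite.of_restrictScalars_finite ℚ k _
  have fdK : FiniteDimensional k K := Module.Finite.of_restrictScalars_finite ℚ k _
  -- lift
  obtain ⟨τ, hτK, hτ⟩ := h3 p k K₀ K B hX.b0 hX.b hX.le (n + 1) (hk (n + 1)) (hk₀ (n + 1))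
    (hh (n + 1)) σ (fun x hx => (hσ x).2 ((le_sup_left : K₀ ≤ K₀ ⊔ B n) hx))
  -- fixed field of `τ`
  have hτf : ∀ x : ↥(K ⊔ B (n + 1)), τ x = x ↔ (x : ℂ) ∈ K ⊔ B n := by
    obtain ⟨g, hg1, hg2, hg3⟩ := h2 p k K B hX.b.hk hX.b.deg hX.b.lay hX.b.mono (n + 1)
      (hk (n + 1))
    obtain ⟨hg4, hg5⟩ := hg3 n (Nat.le_succ n)
    have hkL : k ≤ K ⊔ B n := hk n
    have ez := P_TWK.zp (g ^ (p ^ n)) (GCC.sub (hk (n + 1)) (K ⊔ B n) hkL)
      (fun x => (hg5 x).trans (GCC.mem_sub (hk (n + 1)) (K ⊔ B n) hkL x).symm)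
    have hfixB : ∀ x : ↥(K ⊔ B (n + 1)), (x : ℂ) ∈ B n → τ x = x := by
      intro x hx
      have hx1 : (x : ℂ) ∈ K₀ ⊔ B n := (le_sup_right : B n ≤ K₀ ⊔ B n) hx
      have h5 := hτ ⟨(x : ℂ), hM hx1⟩
      rw [(hσ ⟨(x : ℂ), hM hx1⟩).2 hx1] at h5
      exact Subtype.ext h5
    have hτS : τ ∈ (GCC.sub (hk (n + 1)) (K ⊔ B n) hkL).fixingSubgroup := by
      let aLL : Algebra ↥(K ⊔ B n) ↥(K ⊔ B (n + 1)) := algC hL
      have tLL : IsScalarTower k ↥(K ⊔ B n) ↥(K ⊔ B (n + 1)) := towerC (hk n) hL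
      have hres : ∀ (x : ↥(K ⊔ B n)),
          ((AlgEquiv.restrictNormalHom ↥(K ⊔ B n) τ x : ↥(K ⊔ B n)) : ℂ) =
            (τ ⟨(x : ℂ), hL x.2⟩ : ↥(K ⊔ B (n + 1))) := by
        intro x
        exact congrArg Subtype.val (AlgEquiv.restrictNormal_commutes τ ↥(K ⊔ B n) x)
      have hr1 : AlgEquiv.restrictNormalHom ↥(K ⊔ B n) τ = 1 := by
        apply GCC.triv (hk n)
        · intro x hx
          apply Subtype.ext
          rw [hres, hτK _ hx]
        · intro x hx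
          apply Subtype.ext
          rw [hres, hfixB _ hx]
      intro x
      obtain ⟨x, hx⟩ := x
      have h5 := hres ⟨(x : ℂ), hx⟩
      rw [hr1] at h5
      exact (Subtype.ext h5).symm
    have hτ1 : τ ≠ 1 := by
      intro h6
      have h7 : K₀ ⊔ B (n + 1) ≤ K₀ ⊔ B n := by
        intro z hz
        have h8 := hτ ⟨z, hz⟩
        rw [h6] at h8
        exact (hσ ⟨z, hz⟩).1 (Subtype.ext h8.symm)
      have h9 : K₀ ⊔ B (n + 1) = K₀ ⊔ B n := le_antisymm h7 hM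
      have d1 := hX.b0.deg (n + 1)
      have d2 := hX.b0.deg n
      rw [h9, d2, pow_succ] at d1
      have fK₀ : FiniteDimensional ℚ K₀ := FiniteDimensional.of_injective
        (IntermediateField.inclusion hX.le).toLinearMap
        (IntermediateField.inclusion hX.le).injective
      have d3 : 0 < Module.finrank ℚ K₀ := Module.finrank_pos
      have d4 : 0 < p ^ n := pow_pos hpr.pos n
      have d5 : Module.finrank ℚ K₀ * p ^ n * 1 = Module.finrank ℚ K₀ * p ^ n * p := by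
        rw [mul_one, mul_assoc]
        exact d1
      have d6 := Nat.eq_of_mul_eq_mul_left (Nat.mul_pos d3 d4) d5
      exact hpr.one_lt.ne d6
    rw [ez] at hτS
    intro x
    rw [fix_prime (g ^ (p ^ n)) τ p hpr (by rw [hg4]; simp) hτS hτ1 x]
    exact hg5 x
  obtain ⟨C, hC, hC0, hCe⟩ := hI.nrm n hn τ hτf
  -- powers of `τ` and `σ`
  have hpow : ∀ (i : ℕ) (x : ↥(K₀ ⊔ B (n + 1))),
      (((τ ^ i) ⟨(x : ℂ), hh (n + 1) x.2⟩ : ↥(K ⊔ B (n + 1))) : ℂ) =
        (((σ ^ i) x : ↥(K₀ ⊔ B (n + 1))) : ℂ) := by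
    intro i
    induction i with
    | zero =>
      intro x
      rfl
    | succ i ih =>
      intro x
      rw [pow_succ, pow_succ, AlgEquiv.mul_apply, AlgEquiv.mul_apply, ← ih (σ x)]
      congr 2
      exact Subtype.ext (hτ x)
  -- the groups
  have d1 := hX.b.deg (n + 1)
  have d2 := hX.b.deg n
  have d3 := hX.b0.deg (n + 1)
  have d4 := hX.b0.deg n
  obtain ⟨e, he⟩ := res (A := K₀ ⊔ B n) (A' := K₀ ⊔ B (n + 1)) (hk n) (hk (n + 1)) hL (hk₀ n)
    (hk₀ (n + 1)) (hh n) (hh (n + 1)) hM gL gL'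
    (by
      intro ρ q1 q2
      apply GCC.triv (hk (n + 1)) ρ
      · intro x hx
        exact q1 x ((le_sup_left : K ≤ K ⊔ B n) hx)
      · intro x hx
        exact q2 x ((le_sup_right : B (n + 1) ≤ K₀ ⊔ B (n + 1)) hx))
    (by rw [d1, d2, d3, d4]; ring)
  obtain ⟨e', he'⟩ := res (A := K₀) (A' := K₀ ⊔ B (n + 1)) hX.b.hk (hk (n + 1))
    (le_sup_left : K ≤ K ⊔ B (n + 1)) hX.b0.hk
    (hk₀ (n + 1)) hX.le (hh (n + 1)) (le_sup_left : K₀ ≤ K₀ ⊔ B (n + 1)) gK gL'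
    (by
      intro ρ q1 q2
      apply GCC.triv (hk (n + 1)) ρ
      · intro x hx
        exact q1 x hx
      · intro x hx
        exact q2 x ((le_sup_right : B (n + 1) ≤ K₀ ⊔ B (n + 1)) hx))
    (by rw [d1, d3]; ring)
  have fP : Fintype (NC (hk (n + 1)) (K₀ ⊔ B (n + 1))) := Fintype.ofFinite _
  have fQ : Fintype (NC (hk n) (K₀ ⊔ B n)) := Fintype.ofFinite _
  have fR : Fintype (NC hX.b.hk K₀) := Fintype.ofFinite _
  have pr1 : ∀ x : ↥(K ⊔ B n), ((∏ g : NC (hk (n + 1)) (K₀ ⊔ B (n + 1)),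
      (g : ↥(K ⊔ B (n + 1)) ≃ₐ[k] ↥(K ⊔ B (n + 1))) ⟨(x : ℂ), hL x.2⟩ : ↥(K ⊔ B (n + 1))) : ℂ) =
      ∏ g : NC (hk n) (K₀ ⊔ B n), (((g : ↥(K ⊔ B n) ≃ₐ[k] ↥(K ⊔ B n)) x : ↥(K ⊔ B n)) : ℂ) := by
    intro x
    refine (map_prod (K ⊔ B (n + 1)).val _ _).trans ?_
    exact Fintype.prod_equiv e _ _ (fun g => (he g x).symm)
  have pr2 : ∀ x : K, ((∏ g : NC (hk (n + 1)) (K₀ ⊔ B (n + 1)),
      (g : ↥(K ⊔ B (n + 1)) ≃ₐ[k] ↥(K ⊔ B (n + 1)))
        ⟨(x : ℂ), (le_sup_left : K ≤ K ⊔ B (n + 1)) x.2⟩ : ↥(K ⊔ B (n + 1))) : ℂ) =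
      ((∏ g : NC hX.b.hk K₀, (g : K ≃ₐ[k] K) x : K) : ℂ) := by
    intro x
    refine (map_prod (K ⊔ B (n + 1)).val _ _).trans ?_
    refine Eq.trans ?_ (map_prod K.val _ _).symm
    exact Fintype.prod_equiv e' _ _ (fun g => (he' g x).symm)
  -- `c₀ (n + 1)` and `c₀ n`
  have hc' : (⟨c₀ (n + 1), hh (n + 1) (hI.mem₀ (n + 1))⟩ : ↥(K ⊔ B (n + 1))) =
      ∏ g : NC (hk (n + 1)) (K₀ ⊔ B (n + 1)),
        (g : ↥(K ⊔ B (n + 1)) ≃ₐ[k] ↥(K ⊔ B (n + 1))) ⟨c (n + 1), hI.mem (n + 1)⟩ := by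
    apply Subtype.ext
    refine Eq.trans ?_ (map_prod (K ⊔ B (n + 1)).val _ _).symm
    have h5 := hI.norm (n + 1)
    rw [finprod_eq_prod_of_fintype] at h5
    exact h5
  have hc : c₀ n = ∏ g : NC (hk n) (K₀ ⊔ B n),
      (((g : ↥(K ⊔ B n) ≃ₐ[k] ↥(K ⊔ B n)) ⟨c n, hI.mem n⟩ : ↥(K ⊔ B n)) : ℂ) := by
    have h5 := hI.norm n
    rw [finprod_eq_prod_of_fintype] at h5
    exact h5
  -- the constant
  let y : K := ∏ g : NC hX.b.hk K₀, (g : K ≃ₐ[k] K) ⟨C, hC⟩
  have hy : (y : ℂ) ∈ K₀ := by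
    apply mem_of_fixed hX.b.hk hX.b0.hk gK y
    intro s hs
    show s (∏ g : NC hX.b.hk K₀, (g : K ≃ₐ[k] K) ⟨C, hC⟩) = _
    rw [map_prod]
    exact Fintype.prod_equiv (Equiv.mulLeft (⟨s, hs⟩ : NC hX.b.hk K₀)) _ _ (fun g => rfl)
  have hy0 : (y : ℂ) ≠ 0 := by
    have h5 : y ≠ 0 := by
      apply Finset.prod_ne_zero_iff.2
      intro g _ h6
      have h7 : (⟨C, hC⟩ : K) = 0 := by
        have h8 : (g : K ≃ₐ[k] K) ⟨C, hC⟩ = (g : K ≃ₐ[k] K) 0 := by rw [h6, map_zero]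
        exact (g : K ≃ₐ[k] K).injective h8
      exact hC0 (congrArg Subtype.val h7)
    intro h6
    exact h5 (Subtype.ext h6)
  refine ⟨y, hy, hy0, ?_⟩
  -- the computation
  have s1 : ∏ i ∈ range p, (((σ ^ i) ⟨c₀ (n + 1), hI.mem₀ (n + 1)⟩ : ↥(K₀ ⊔ B (n + 1))) : ℂ) =
      ((∏ i ∈ range p, (τ ^ i) ⟨c₀ (n + 1), hh (n + 1) (hI.mem₀ (n + 1))⟩ :
        ↥(K ⊔ B (n + 1))) : ℂ) := by
    refine Eq.trans ?_ (map_prod (K ⊔ B (n + 1)).val _ _).symm
    exact Finset.prod_congr rfl fun i _ => (hpow i ⟨c₀ (n + 1), hI.mem₀ (n + 1)⟩).symm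
  have s2 : (∏ i ∈ range p, (τ ^ i) ⟨c (n + 1), hI.mem (n + 1)⟩ : ↥(K ⊔ B (n + 1))) =
      ⟨C, (le_sup_left : K ≤ K ⊔ B (n + 1)) hC⟩ * ⟨c n, hL (hI.mem n)⟩ := by
    apply Subtype.ext
    refine (map_prod (K ⊔ B (n + 1)).val _ _).trans ?_
    exact hCe
  have s3 : (∏ i ∈ range p, (τ ^ i) ⟨c₀ (n + 1), hh (n + 1) (hI.mem₀ (n + 1))⟩ :
        ↥(K ⊔ B (n + 1))) =
      (∏ g : NC (hk (n + 1)) (K₀ ⊔ B (n + 1)), (g : ↥(K ⊔ B (n + 1)) ≃ₐ[k] ↥(K ⊔ B (n + 1)))
        ⟨C, (le_sup_left : K ≤ K ⊔ B (n + 1)) hC⟩) *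
      ∏ g : NC (hk (n + 1)) (K₀ ⊔ B (n + 1)), (g : ↥(K ⊔ B (n + 1)) ≃ₐ[k] ↥(K ⊔ B (n + 1)))
        ⟨c n, hL (hI.mem n)⟩ := by
    rw [hc', ← Finset.prod_mul_distrib]
    simp only [map_prod]
    rw [Finset.prod_comm]
    refine Finset.prod_congr rfl fun g _ => ?_
    rw [← map_mul, ← s2, map_prod]
    refine Finset.prod_congr rfl fun i _ => ?_
    rw [← AlgEquiv.mul_apply, ← AlgEquiv.mul_apply, cL']
  have hcoe : ∀ (x y : ↥(K ⊔ B (n + 1))), ((x * y : ↥(K ⊔ B (n + 1))) : ℂ) = (x : ℂ) * (y : ℂ) :=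
    fun x y => rfl
  rw [s1, s3, hcoe, pr2 ⟨C, hC⟩, pr1 ⟨c n, hI.mem n⟩, ← hc]

end Pool.Agent.MUXK
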