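import Pool.Agent.MUX.StKX

/-!
# NRX: the norm relation from `K₀_n` to `K₀_m`
-/

set_option autoImplicit false

open NumberField IsDedekindDomain Finset
open scoped nonZeroDivisors Pointwise

namespace Pool.Agent.MUXK

open Pool.Agent.RI Pool.Agent.RID Pool.Agent.MU3

namespace K_NRX

/-- the product over `range (b * a)` -/
theorem prod_mul {M : Type} [CommMonoid M] (f : ℕ → M) (a b : ℕ) :
    ∏ i ∈ range (b * a), f i = ∏ i ∈ range a, ∏ j ∈ range b, f (j * a + i) := by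
  induction b with
  | zero => simp
  | succ b ih =>
    rw [Nat.succ_mul, Finset.prod_range_add, ih, ← Finset.prod_mul_distrib]
    refine Finset.prod_congr rfl fun i _ => ?_
    rw [Finset.prod_range_succ]

/-- the abstract step: the product over `p a` elements -/
theorem step {k L : Type} [Field k] [Field L] [Algebra k L] (g : L ≃ₐ[k] L) (q a p : ℕ)
    (c x C : L) (hC : g C = C) (h : ∏ j ∈ range p, ((g ^ (q * a)) ^ j) c = C * x) :
    ∏ i ∈ range (p * a), (g ^ (q * i)) c = C ^ a * ∏ i ∈ range a, (g ^ (q * i)) x := by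
  have hCn : ∀ n : ℕ, (g ^ n) C = C := by
    intro n
    induction n with
    | zero => rfl
    | succ n ih => rw [pow_succ, AlgEquiv.mul_apply, hC, ih]
  rw [prod_mul]
  have h1 : ∀ i ∈ range a, ∏ j ∈ range p, (g ^ (q * (j * a + i))) c = C * (g ^ (q * i)) x := by
    intro i _
    have h2 : ∀ j ∈ range p, (g ^ (q * (j * a + i))) c =
        (g ^ (q * i)) (((g ^ (q * a)) ^ j) c) := by
      intro j _
      rw [← AlgEquiv.mul_apply, ← pow_mul, ← pow_add]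
      congr 2
      ring
    rw [Finset.prod_congr rfl h2, ← map_prod, h, map_mul, hCn]
  rw [Finset.prod_congr rfl h1, Finset.prod_mul_distrib, Finset.prod_const, Finset.card_range]

end K_NRX

theorem t_NRX (h1 : S_NR1) (h2 : S_RSX) : S_NRX := by
  intro F _ p _ k K₀ K B _ _ _ _ hS hk hk₀ hkK S c c₀ n₁ hI m n hm hmn
  have hfin : FiniteDimensional ℚ K₀ :=
    FiniteDimensional.of_injective (IntermediateField.inclusion hS.le).toLinearMap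
      (IntermediateField.inclusion hS.le).injective
  induction n, hmn using Nat.le_induction with
  | base =>
    intro γ hγ
    refine ⟨1, one_mem K₀, one_ne_zero, ?_⟩
    rw [Nat.sub_self, pow_zero, Finset.prod_range_one, mul_zero, pow_zero, one_mul]
    rfl
  | succ n hmn ih =>
    intro γ hγ
    have hle : K₀ ⊔ B n ≤ K₀ ⊔ B (n + 1) := sup_le_sup le_rfl (hS.b0.mono (Nat.le_succ n))
    obtain ⟨r, hr, hfix, -⟩ := h2 p k K₀ B hS.b0 hS.cop n (n + 1) (Nat.le_succ n) (hk₀ (n + 1))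
      (hk₀ n) hle
    obtain ⟨hf1, hf2⟩ := hfix γ hγ
    obtain ⟨C, hC, hC0, hCe⟩ := h1 F p k K₀ K B hS hk hk₀ hkK S c c₀ n₁ hI n (hm.trans hmn)
      (γ ^ (p ^ n)) hf2
    obtain ⟨C', hC', hC0', hCe'⟩ := ih (r γ) hf1
    let _ := algC (hk₀ (n + 1))
    let _ := algC (hk₀ n)
    have hq : p ^ m * p ^ (n - m) = p ^ n := by
      rw [← pow_add]
      congr 1
      omega
    have hr3 : p ^ (n + 1 - m) = p * p ^ (n - m) := by
      rw [Nat.sub_add_comm hmn, pow_succ, mul_comm]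
    have hCmem : C ∈ K₀ ⊔ B (n + 1) := (le_sup_left : K₀ ≤ K₀ ⊔ B (n + 1)) hC
    have hstep := K_NRX.step γ (p ^ m) (p ^ (n - m)) p
      (⟨c₀ (n + 1), hI.mem₀ (n + 1)⟩ : ↥(K₀ ⊔ B (n + 1)))
      (⟨c₀ n, hle (hI.mem₀ n)⟩ : ↥(K₀ ⊔ B (n + 1))) (⟨C, hCmem⟩ : ↥(K₀ ⊔ B (n + 1)))
      ((hγ _).mpr hC) (by
        rw [hq]
        apply Subtype.ext
        have e0 : ((∏ j ∈ range p, ((γ ^ (p ^ n)) ^ j) (⟨c₀ (n + 1), hI.mem₀ (n + 1)⟩ :
            ↥(K₀ ⊔ B (n + 1))) : ↥(K₀ ⊔ B (n + 1))) : ℂ) =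
            ∏ j ∈ range p, ((((γ ^ (p ^ n)) ^ j) (⟨c₀ (n + 1), hI.mem₀ (n + 1)⟩ :
            ↥(K₀ ⊔ B (n + 1))) : ↥(K₀ ⊔ B (n + 1))) : ℂ) :=
          map_prod (K₀ ⊔ B (n + 1)).val _ _
        exact e0.trans hCe)
    refine ⟨C ^ (p ^ (n - m)) * C', mul_mem (pow_mem hC _) hC',
      mul_ne_zero (pow_ne_zero _ hC0) hC0', ?_⟩
    rw [hr3, hstep]
    have hprod : ((∏ i ∈ range (p ^ (n - m)), (γ ^ (p ^ m * i)) (⟨c₀ n, hle (hI.mem₀ n)⟩ :
        ↥(K₀ ⊔ B (n + 1))) : ↥(K₀ ⊔ B (n + 1))) : ℂ) = C' * c₀ m := by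
      rw [← hCe']
      have e1 : ((∏ i ∈ range (p ^ (n - m)), (γ ^ (p ^ m * i)) (⟨c₀ n, hle (hI.mem₀ n)⟩ :
          ↥(K₀ ⊔ B (n + 1))) : ↥(K₀ ⊔ B (n + 1))) : ℂ) =
          ∏ i ∈ range (p ^ (n - m)), (((γ ^ (p ^ m * i)) (⟨c₀ n, hle (hI.mem₀ n)⟩ :
          ↥(K₀ ⊔ B (n + 1))) : ↥(K₀ ⊔ B (n + 1))) : ℂ) :=
        map_prod (K₀ ⊔ B (n + 1)).val _ _
      have e2 : ((∏ i ∈ range (p ^ (n - m)), ((r γ) ^ (p ^ m * i)) (⟨c₀ n, hI.mem₀ n⟩ :
          ↥(K₀ ⊔ B n)) : ↥(K₀ ⊔ B n)) : ℂ) =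
          ∏ i ∈ range (p ^ (n - m)), ((((r γ) ^ (p ^ m * i)) (⟨c₀ n, hI.mem₀ n⟩ :
          ↥(K₀ ⊔ B n)) : ↥(K₀ ⊔ B n)) : ℂ) :=
        map_prod (K₀ ⊔ B n).val _ _
      rw [e1]
      refine Eq.trans ?_ e2.symm
      refine Finset.prod_congr rfl fun i _ => ?_
      rw [← map_pow, hr]
    have hcoe : ∀ (x y : ↥(K₀ ⊔ B (n + 1))),
        ((x * y : ↥(K₀ ⊔ B (n + 1))) : ℂ) = (x : ℂ) * (y : ℂ) :=
      fun x y => rfl
    rw [hcoe, hprod]
    push_cast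
    ring

end Pool.Agent.MUXK
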