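import Pool.Agent.MUX.StKX
import Pool.Agent.MU3.MEP
import Pool.Agent.MU3.MISUM

/-!
# MUX, block K, module EPX: lower bound from the Euler product
-/

set_option autoImplicit false

open NumberField IsDedekindDomain Ideal Filter Topology
open scoped nonZeroDivisors

namespace Pool.Agent.MUXK

open Pool.Agent.MU3 Pool.Agent.Lib_helper28.FROB

/-- The elementary estimate for one factor. -/
lemma EPX_factor (g : ℂ) : ‖1 - g‖ ≤ Real.exp (-(g.re - ‖g‖ ^ 2 / 2)) := by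
  have h1 : ‖1 - g‖ ^ 2 = 1 + (-(2 * g.re) + ‖g‖ ^ 2) := by
    rw [← Complex.normSq_eq_norm_sq, ← Complex.normSq_eq_norm_sq, Complex.normSq_apply,
      Complex.normSq_apply]
    simp only [Complex.sub_re, Complex.one_re, Complex.sub_im, Complex.one_im]
    ring
  have h2 : ‖1 - g‖ ^ 2 ≤ (Real.exp (-(g.re - ‖g‖ ^ 2 / 2))) ^ 2 := by
    rw [h1, ← Real.exp_nat_mul]
    have h3 := Real.add_one_le_exp (-(2 * g.re) + ‖g‖ ^ 2)
    have h4 : ((2 : ℕ) : ℝ) * -(g.re - ‖g‖ ^ 2 / 2) = -(2 * g.re) + ‖g‖ ^ 2 := by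
      push_cast
      ring
    rw [h4]
    linarith
  exact le_of_sq_le_sq h2 (Real.exp_pos _).le
where
  le_of_sq_le_sq {a b : ℝ} (h : a ^ 2 ≤ b ^ 2) (hb : 0 ≤ b) : a ≤ b :=
    abs_le_of_sq_le_sq' h hb |>.2

theorem t_EPX : S_EPX := by
  classical
  intro K _ _ η s hs
  have hiN := (m_ISUM K).1 s hs
  have hg : Summable (EP.g K η s) :=
    Summable.of_norm_bounded hiN fun I => (EP.norm_g K η s I).le
  have hx := summable_x (K := K) hs
  have hxP : ∀ v : HeightOneSpectrum (𝓞 K), iN K s (EP.P K v) = x s v := fun v => rfl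
  have hlim := (EP.lim K η s hiN).norm
  rw [norm_one] at hlim
  have hgre : ∀ v : HeightOneSpectrum (𝓞 K), (EP.g K η s (EP.P K v)).re =
      ((η (cl K v) : ℂ)).re * x s v := by
    intro v
    have h3 : EP.g K η s (EP.P K v) = (η (cl K v) : ℂ) * ((x s v : ℝ) : ℂ) := rfl
    rw [h3, Complex.re_mul_ofReal]
  have h1 : ∀ v : HeightOneSpectrum (𝓞 K), ‖1 - EP.g K η s (EP.P K v)‖ ≤
      Real.exp (-(((η (cl K v) : ℂ)).re * x s v - (x s v) ^ 2 / 2)) := by
    intro v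
    have h := EPX_factor (EP.g K η s (EP.P K v))
    rwa [hgre, EP.norm_g, hxP] at h
  have hsum : Summable fun v : HeightOneSpectrum (𝓞 K) =>
      ((η (cl K v) : ℂ)).re * x s v - (x s v) ^ 2 / 2 := by
    refine Summable.of_norm_bounded (hx.mul_left 2) fun v => ?_
    have hxv := x_pos s v
    have hxv' := x_le hs.le v
    have hη : |((η (cl K v) : ℂ)).re| ≤ 1 :=
      (Complex.abs_re_le_norm _).trans (EP.norm_eta η (cl K v)).le
    rw [Real.norm_eq_abs]
    have hx1 : x s v ≤ 1 := by linarith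
    have h5 := abs_le.mp hη
    rw [abs_le]
    constructor <;> nlinarith [mul_le_mul_of_nonneg_right h5.1 hxv.le,
      mul_le_mul_of_nonneg_right h5.2 hxv.le, mul_le_mul_of_nonneg_right hx1 hxv.le]
  have h2 : ∀ t : Finset (HeightOneSpectrum (𝓞 K)),
      ‖∑' I, Set.indicator (EP.D K t) (EP.g K η s) I‖ *
        Real.exp (∑ v ∈ t, (((η (cl K v) : ℂ)).re * x s v - (x s v) ^ 2 / 2)) ≤
      ‖Lf K η s‖ := by
    intro t
    rw [EP.prod_eq K η s hg t, norm_mul]
    have h3 : ‖∏ v ∈ t, (1 - EP.g K η s (EP.P K v))‖ ≤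
        Real.exp (-∑ v ∈ t, (((η (cl K v) : ℂ)).re * x s v - (x s v) ^ 2 / 2)) := by
      rw [norm_prod, ← Finset.sum_neg_distrib, Real.exp_sum]
      exact Finset.prod_le_prod (fun v _ => norm_nonneg _) fun v _ => h1 v
    have h4 : ‖∑' I, EP.g K η s I‖ = ‖Lf K η s‖ := rfl
    rw [h4, mul_assoc]
    refine mul_le_of_le_one_right (norm_nonneg _) ?_
    calc ‖∏ v ∈ t, (1 - EP.g K η s (EP.P K v))‖ *
          Real.exp (∑ v ∈ t, (((η (cl K v) : ℂ)).re * x s v - (x s v) ^ 2 / 2))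
        ≤ Real.exp (-∑ v ∈ t, (((η (cl K v) : ℂ)).re * x s v - (x s v) ^ 2 / 2)) *
          Real.exp (∑ v ∈ t, (((η (cl K v) : ℂ)).re * x s v - (x s v) ^ 2 / 2)) :=
          mul_le_mul_of_nonneg_right h3 (Real.exp_pos _).le
      _ = 1 := by
          rw [← Real.exp_add]
          simp
  have hlim2 : Tendsto (fun t : Finset (HeightOneSpectrum (𝓞 K)) =>
      ‖∑' I, Set.indicator (EP.D K t) (EP.g K η s) I‖ *
        Real.exp (∑ v ∈ t, (((η (cl K v) : ℂ)).re * x s v - (x s v) ^ 2 / 2))) atTop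
      (𝓝 (1 * Real.exp (∑' v, (((η (cl K v) : ℂ)).re * x s v - (x s v) ^ 2 / 2)))) := by
    refine hlim.mul ((Real.continuous_exp.tendsto _).comp ?_)
    exact hsum.hasSum
  rw [one_mul] at hlim2
  exact le_of_tendsto' hlim2 h2

end Pool.Agent.MUXK
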