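import Pool.Agent.MUX.StKX
import Pool.Agent.MU3.P_GALK

/-!
# MUXK_GALX: `K_n / k` is Galois with abelian group

The proof of `MU3/P_GALK.lean` with `3` replaced by the prime number `p`.
-/

open NumberField IsDedekindDomain Finset
open scoped nonZeroDivisors Pointwise

namespace Pool.Agent.MUXK

open Pool.Agent.MU3 Pool.Agent.RI Pool.Agent.RID
open Pool.Agent.MU3.P_GALK

theorem t_GALX : S_GALX := by
  intro p _ k K B fdK fdKB hB n h
  letI aL : Algebra k ↥(K ⊔ B n) := algC h
  obtain ⟨fdB, hGB, -⟩ := LAY_thm p n (B n) (hB.lay n)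
  have hcyc : IsCyclic (B n ≃ₐ[ℚ] B n) := t_LAYC p n (B n) (hB.lay n)
  have fdk : FiniteDimensional ℚ k := FiniteDimensional.of_injective
    (IntermediateField.inclusion hB.hk).toLinearMap
    (IntermediateField.inclusion hB.hk).toRingHom.injective
  refine ⟨?_, ?_⟩
  · have h1 := BCH_thm.1 ⊥ (B n) k k (k ⊔ B n) bot_le le_sup_left (bot_sup_eq k).symm
      (sup_comm k (B n)) (bot_gal hGB)
    have hfM : FiniteDimensional ℚ ↥(k ⊔ B n) := IntermediateField.finiteDimensional_sup k (B n)
    have h2 := BCH_thm.2 k K (k ⊔ B n) hB.hk le_sup_left (hB.hk.trans le_sup_left) hB.gal h1.1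
    have e : K ⊔ (k ⊔ B n) = K ⊔ B n := by
      rw [← sup_assoc, sup_eq_left.2 hB.hk]
    exact (isGalois_algC h).2 (transp e _ h h2)
  · intro σ τ
    refine comm_of h σ τ ?_ ?_
    · intro x hx
      letI aK : Algebra k K := algC hB.hk
      letI aKL : Algebra K ↥(K ⊔ B n) := algC le_sup_left
      haveI : IsScalarTower k K ↥(K ⊔ B n) := towerC hB.hk le_sup_left
      haveI : IsGalois k K := (isGalois_algC hB.hk).2 hB.gal
      have hab : ∀ a b : K ≃ₐ[k] K, a * b = b * a := by
        intro a b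
        have h1 := hB.ab ((extEquiv hB.hk).symm.autCongr a) ((extEquiv hB.hk).symm.autCongr b)
        rw [← map_mul, ← map_mul] at h1
        exact (extEquiv hB.hk).symm.autCongr.injective h1
      exact comm_on hab σ τ (⟨(x : ℂ), hx⟩ : K)
    · intro x hx
      letI aBL : Algebra (B n) ↥(K ⊔ B n) := algC le_sup_right
      haveI : IsScalarTower ℚ (B n) ↥(K ⊔ B n) := IsScalarTower.of_algebraMap_eq (fun _ => rfl)
      haveI : IsScalarTower ℚ k ↥(K ⊔ B n) := IsScalarTower.of_algebraMap_eq (fun _ => rfl)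
      have hab : ∀ a b : B n ≃ₐ[ℚ] B n, a * b = b * a := by
        intro a b
        obtain ⟨g, hg⟩ := hcyc.exists_generator
        obtain ⟨i, rfl⟩ := hg a
        obtain ⟨j, rfl⟩ := hg b
        exact zpow_mul_comm g i j
      exact comm_on hab (σ.restrictScalars ℚ) (τ.restrictScalars ℚ) (⟨(x : ℂ), hx⟩ : B n)

end Pool.Agent.MUXK
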