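import Pool.Agent.MUX.StKX
import Pool.Agent.MU3.FinD

/-!
# MUX, block K, module IDX: density and index in the class group

The primes whose classes lie in a subgroup of index `n` of the class group have density at most
`1 / n`: sum the logarithms of all the `L`-functions of the characters of the quotient.
-/

open NumberField IsDedekindDomain Ideal Filter Topology Asymptotics
open scoped nonZeroDivisors

namespace Pool.Agent.MUXK

open Pool.Agent.MU3 Pool.Agent.Lib_helper28.FROB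

namespace IDX

/-- There are as many characters as elements. -/
lemma card_char (G : Type) [CommGroup G] [Finite G] : Nat.card (G →* ℂˣ) = Nat.card G := by
  have : NeZero (Monoid.exponent G : ℂ) :=
    ⟨by exact_mod_cast Monoid.exponent_ne_zero_of_finite⟩
  exact CommGroup.card_monoidHom_of_hasEnoughRootsOfUnity G ℂ

lemma finite_char (G : Type) [CommGroup G] [Finite G] : Finite (G →* ℂˣ) := by
  apply Nat.finite_of_card_ne_zero
  rw [card_char]
  exact Nat.card_pos.ne'

/-- The sum of the values of all characters at a nontrivial element vanishes. -/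
lemma sum_char (G : Type) [CommGroup G] [Finite G] [Fintype (G →* ℂˣ)] (a : G) (ha : a ≠ 1) :
    ∑ φ : G →* ℂˣ, ((φ a : ℂˣ) : ℂ) = 0 := by
  have : NeZero (Monoid.exponent G : ℂ) :=
    ⟨by exact_mod_cast Monoid.exponent_ne_zero_of_finite⟩
  obtain ⟨ψ, hψ⟩ := CommGroup.exists_apply_ne_one_of_hasEnoughRootsOfUnity G ℂ ha
  have h1 : ((ψ a : ℂˣ) : ℂ) * ∑ φ : G →* ℂˣ, ((φ a : ℂˣ) : ℂ) =
      ∑ φ : G →* ℂˣ, ((φ a : ℂˣ) : ℂ) := by
    rw [Finset.mul_sum]
    refine Fintype.sum_equiv (Equiv.mulLeft ψ) _ _ fun φ => ?_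
    simp
  have h2 : (((ψ a : ℂˣ) : ℂ) - 1) * ∑ φ : G →* ℂˣ, ((φ a : ℂˣ) : ℂ) = 0 := by
    rw [sub_mul, h1, one_mul, sub_self]
  rcases mul_eq_zero.mp h2 with h3 | h3
  · exact absurd (Units.ext (sub_eq_zero.mp h3)) hψ
  · exact h3

/-- The real part of the sum of the values of all characters is nonnegative, and it is the order of
the group at the neutral element. -/
lemma sum_re (G : Type) [CommGroup G] [Finite G] [Fintype (G →* ℂˣ)] (a : G) :
    0 ≤ ∑ φ : G →* ℂˣ, (((φ a : ℂˣ) : ℂ)).re := by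
  rw [← Complex.re_sum]
  by_cases ha : a = 1
  · subst ha
    simp
  · rw [sum_char G a ha]
    simp

lemma sum_re_one (G : Type) [CommGroup G] [Finite G] [Fintype (G →* ℂˣ)] :
    ∑ φ : G →* ℂˣ, (((φ 1 : ℂˣ) : ℂ)).re = Nat.card G := by
  simp only [map_one, Units.val_one, Complex.one_re, Finset.sum_const, Finset.card_univ,
    nsmul_eq_mul, mul_one]
  rw [← Nat.card_eq_fintype_card, card_char]

end IDX

theorem t_IDX (h1 : S_EPX) : S_IDX := by
  intro L _ _ B c hc hB U hU
  classical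
  obtain ⟨C, hC⟩ := hB
  set Q := ClassGroup (𝓞 L) ⧸ U with hQdef
  have hfin : Finite (Q →* ℂˣ) := IDX.finite_char Q
  have := Fintype.ofFinite (Q →* ℂˣ)
  let η : (Q →* ℂˣ) → (ClassGroup (𝓞 L) →* ℂˣ) := fun φ => φ.comp (QuotientGroup.mk' U)
  have hη : ∀ φ : Q →* ℂˣ, φ ≠ 1 → η φ ≠ 1 := by
    intro φ hφ h
    apply hφ
    refine MonoidHom.ext fun a => ?_
    obtain ⟨b, rfl⟩ := QuotientGroup.mk'_surjective U a
    exact DFunLike.congr_fun h b
  have hex : ∀ φ : Q →* ℂˣ, ∃ C : ℝ, ∀ᶠ s : ℝ in 𝓝[>] 1, φ ≠ 1 → ‖Lf L (η φ) s‖ ≤ C := by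
    intro φ
    by_cases hφ : φ = 1
    · exact ⟨0, Eventually.of_forall fun s h => absurd hφ h⟩
    · obtain ⟨D, hD⟩ := finLBD L (η φ) (hη φ hφ)
      exact ⟨D, hD.mono fun s hs _ => hs⟩
  choose D hD using hex
  have hD' : ∀ᶠ s : ℝ in 𝓝[>] 1, ∀ φ : Q →* ℂˣ, φ ≠ 1 → ‖Lf L (η φ) s‖ ≤ D φ :=
    Filter.eventually_all.mpr hD
  obtain ⟨C₄, h4⟩ := (isBigO_sum L).bound
  set X2 : ℝ := ∑' v : HeightOneSpectrum (𝓞 L), x 2 v with hX2
  set E : (Q →* ℂˣ) → ℝ := fun φ => |Real.log (max (D φ) 1)| + X2 / 2 with hE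
  have hX2n : 0 ≤ X2 := tsum_nonneg fun v => (x_pos 2 v).le
  have hEn : ∀ φ, 0 ≤ E φ := fun φ => by
    have := abs_nonneg (Real.log (max (D φ) 1))
    simp only [hE]
    linarith
  have hcard : (Nat.card Q : ℝ) = (U.index : ℝ) := by
    rw [hQdef]
    rfl
  by_contra hlt
  push Not at hlt
  set n : ℝ := (U.index : ℝ) with hn
  have hn0 : 0 ≤ n := Nat.cast_nonneg _
  -- for `s` near `1` everything holds
  have hΛ := DENS.lambda_tendsto.eventually (eventually_gt_atTop
    ((n * C + C₄ + ∑ φ, E φ) / (n * c - 1)))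
  have hev : ∀ᶠ s : ℝ in 𝓝[>] 1, False := by
    filter_upwards [hC, hD', h4, hΛ, self_mem_nhdsWithin] with s hsC hsD hs4 hsΛ hs
    have hs' : (1 : ℝ) < s := hs
    rw [norm_one, mul_one, Real.norm_eq_abs] at hs4
    have h5 := le_abs_self (∑' v : HeightOneSpectrum (𝓞 L), x s v - Real.log (1 / (s - 1)))
    set Λ := Real.log (1 / (s - 1)) with hΛdef
    have hsum := summable_x (K := L) hs'
    have hsq : ∀ v : HeightOneSpectrum (𝓞 L), x s v ^ 2 ≤ x 2 v := by
      intro v
      rw [x_sq]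
      exact x_anti (by linarith) v
    have hsqs : Summable fun v : HeightOneSpectrum (𝓞 L) => x s v ^ 2 :=
      Summable.of_nonneg_of_le (fun v => by positivity) hsq (summable_x (by norm_num))
    have hsq2 : ∑' v : HeightOneSpectrum (𝓞 L), x s v ^ 2 ≤ X2 :=
      hsqs.tsum_le_tsum hsq (summable_x (by norm_num))
    have hre : ∀ (φ : Q →* ℂˣ) (a : ClassGroup (𝓞 L)), |((η φ a : ℂˣ) : ℂ).re| ≤ 1 := by
      intro φ a
      exact (Complex.abs_re_le_norm _).trans (EP.norm_eta (η φ) a).le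
    have hsre : ∀ φ : Q →* ℂˣ, Summable fun v : HeightOneSpectrum (𝓞 L) =>
        ((η φ (cl L v) : ℂˣ) : ℂ).re * x s v := by
      intro φ
      refine Summable.of_norm_bounded hsum fun v => ?_
      rw [Real.norm_eq_abs, abs_mul, abs_of_pos (x_pos s v)]
      have := mul_le_mul_of_nonneg_right (hre φ (cl L v)) (x_pos s v).le
      linarith
    -- upper bounds
    have hup : ∀ φ : Q →* ℂˣ, φ ≠ 1 → ∑' v : HeightOneSpectrum (𝓞 L),
        ((η φ (cl L v) : ℂˣ) : ℂ).re * x s v ≤ E φ := by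
      intro φ hφ
      have h6 := (h1 L (η φ) s hs').trans ((hsD φ hφ).trans (le_max_left _ 1))
      have hpos : (0 : ℝ) < max (D φ) 1 := lt_of_lt_of_le one_pos (le_max_right _ _)
      have h7 := (Real.le_log_iff_exp_le hpos).mpr h6
      rw [(hsre φ).tsum_sub (hsqs.div_const 2), tsum_div_const] at h7
      have h8 := le_abs_self (Real.log (max (D φ) 1))
      simp only [hE]
      linarith
    have hup1 : ∑' v : HeightOneSpectrum (𝓞 L),
        ((η 1 (cl L v) : ℂˣ) : ℂ).re * x s v ≤ Λ + C₄ := by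
      have h6 : ∀ v : HeightOneSpectrum (𝓞 L), ((η 1 (cl L v) : ℂˣ) : ℂ).re * x s v = x s v := by
        intro v
        simp [η]
      rw [tsum_congr h6]
      linarith
    -- lower bound
    have hlow : n * ∑' v, Set.indicator B (x s) v ≤
        ∑ φ : Q →* ℂˣ, ∑' v : HeightOneSpectrum (𝓞 L), ((η φ (cl L v) : ℂˣ) : ℂ).re * x s v := by
      rw [← Summable.tsum_finsetSum (fun φ _ => hsre φ), ← tsum_mul_left]
      refine Summable.tsum_le_tsum (fun v => ?_) ((hsum.indicator B).mul_left n)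
        (summable_sum fun φ _ => hsre φ)
      rw [← Finset.sum_mul]
      by_cases hv : v ∈ B
      · rw [Set.indicator_of_mem hv]
        have h6 : (QuotientGroup.mk' U) (cl L v) = 1 :=
          (QuotientGroup.eq_one_iff _).mpr (hU v hv)
        have h7 : ∑ φ : Q →* ℂˣ, ((η φ (cl L v) : ℂˣ) : ℂ).re = n := by
          have h8 := IDX.sum_re_one Q
          rw [hcard] at h8
          rw [← h8]
          refine Finset.sum_congr rfl fun φ _ => ?_
          simp only [η, MonoidHom.comp_apply]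
          rw [h6]
        rw [h7]
      · rw [Set.indicator_of_notMem hv, mul_zero]
        refine mul_nonneg ?_ (x_pos s v).le
        exact IDX.sum_re Q ((cl L v : ClassGroup (𝓞 L)) : Q)
    have hsplit : ∑ φ : Q →* ℂˣ, ∑' v : HeightOneSpectrum (𝓞 L),
        ((η φ (cl L v) : ℂˣ) : ℂ).re * x s v ≤ Λ + C₄ + ∑ φ, E φ := by
      rw [← Finset.add_sum_erase _ _ (Finset.mem_univ (1 : Q →* ℂˣ)),
        ← Finset.add_sum_erase _ E (Finset.mem_univ (1 : Q →* ℂˣ))]
      have h6 : ∑ φ ∈ Finset.univ.erase (1 : Q →* ℂˣ), ∑' v : HeightOneSpectrum (𝓞 L),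
          ((η φ (cl L v) : ℂˣ) : ℂ).re * x s v ≤ ∑ φ ∈ Finset.univ.erase (1 : Q →* ℂˣ), E φ :=
        Finset.sum_le_sum fun φ hφ => hup φ (Finset.ne_of_mem_erase hφ)
      have h7 := hEn 1
      linarith
    have h9 : n * (c * Λ - C) ≤ n * ∑' v, Set.indicator B (x s) v :=
      mul_le_mul_of_nonneg_left hsC hn0
    have h10 : 0 < n * c - 1 := by linarith
    rw [div_lt_iff₀ h10] at hsΛ
    nlinarith
  exact (hev.exists).choose_spec

end Pool.Agent.MUXK
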