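import Pool.Agent.MUX.StKX
import Pool.Agent.MU3.KIN

/-!
# MUX, block K, module KINX: the Kolyvagin step for a prime number `p`

The version of `Pool/Agent/MU3/KIN.lean` (helper80) for a prime number `p` in place of `3`.
-/

set_option autoImplicit false

open NumberField IsDedekindDomain
open scoped nonZeroDivisors Pointwise

namespace Pool.Agent.MUXK

open Pool.Agent.MU3 Pool.Agent.RI Pool.Agent.MU3.K1M Pool.Agent.MU3.KIN

namespace KINX

section val

variable {F Γ : Type} [Field F] [LinearOrderedCommGroupWithZero Γ] {v : Valuation F Γ} {x a : F}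
  {p : ℕ}

theorem ne_zero_of_pow (hp : p.Prime) (hap : One1 v (a ^ p)) : a ≠ 0 := by
  rintro rfl
  have := hap.ne
  rw [zero_pow hp.ne_zero] at this
  exact this rfl

theorem val_of_pow (hp : p.Prime) (hap : One1 v (a ^ p)) : v a = 1 := by
  have := hap.val
  rw [map_pow] at this
  exact (pow_eq_one_iff_of_nonneg zero_le hp.ne_zero).1 this

/-- powers of `a` which are one-units -/
theorem pow_dvd (hp : p.Prime) (hap : One1 v (a ^ p)) (ha1 : ¬ One1 v a) {n : ℤ}
    (h : One1 v (a ^ n)) : (p : ℤ) ∣ n := by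
  by_contra hn
  have h0 := ne_zero_of_pow hp hap
  have hco : IsCoprime (p : ℤ) n :=
    (Prime.coprime_iff_not_dvd (Nat.prime_iff_prime_int.1 hp)).2 hn
  obtain ⟨r, s, hrs⟩ := hco
  apply ha1
  have h1 := (hap.zpow r).mul (h.zpow s)
  have e : (a ^ p) ^ r * (a ^ n) ^ s = a := by
    rw [← zpow_natCast a p, ← zpow_mul, ← zpow_mul, ← zpow_add₀ h0]
    have e1 : (p : ℤ) * r + n * s = 1 := by
      rw [← hrs]
      ring
    rw [e1, zpow_one]
  rwa [e] at h1

/-- the `p`-th roots of unity modulo one-units -/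
theorem roots (hp : p.Prime) (hap : One1 v (a ^ p)) (ha1 : ¬ One1 v a) (hx : One1 v (x ^ p)) :
    ∃ i < p, One1 v (x / a ^ i) := by
  have hva := val_of_pow hp hap
  have hvx := val_of_pow hp hx
  have hNe : NeZero p := ⟨hp.ne_zero⟩
  have hFact : Fact p.Prime := ⟨hp⟩
  set A := v.valuationSubring with hA
  have hmem : ∀ z : F, v z = 1 → z ∈ A := by
    intro z hz
    rw [hA, Valuation.mem_valuationSubring_iff, hz]
  have hlt : ∀ z : A, z ∈ IsLocalRing.maximalIdeal A ↔ v (z : F) < 1 := by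
    intro z
    rw [ValuationSubring.valuation_lt_one_iff]
    exact (v.isEquiv_valuation_valuationSubring.symm.lt_one_iff_lt_one)
  have hres : ∀ z z' : A, IsLocalRing.residue A z = IsLocalRing.residue A z' ↔
      v ((z : F) - (z' : F)) < 1 := by
    intro z z'
    rw [← sub_eq_zero, ← map_sub, IsLocalRing.residue_eq_zero_iff, hlt]
    rfl
  set a' : A := ⟨a, hmem a hva⟩ with ha'
  set x' : A := ⟨x, hmem x hvx⟩ with hx'
  have hza : (IsLocalRing.residue A a') ^ p = 1 := by
    rw [← map_pow, ← map_one (IsLocalRing.residue A), hres]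
    exact hap
  have hzx : (IsLocalRing.residue A x') ^ p = 1 := by
    rw [← map_pow, ← map_one (IsLocalRing.residue A), hres]
    exact hx
  have hza1 : IsLocalRing.residue A a' ≠ 1 := by
    rw [← map_one (IsLocalRing.residue A), Ne, hres]
    exact ha1
  have hprim : IsPrimitiveRoot (IsLocalRing.residue A a') p :=
    IsPrimitiveRoot.iff_orderOf.2 (orderOf_eq_prime hza hza1)
  obtain ⟨i, hi, hix⟩ := hprim.eq_pow_of_pow_eq_one hzx
  refine ⟨i, hi, ?_⟩
  rw [one1_div (by rw [map_pow, hva, one_pow])]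
  rw [← map_pow, eq_comm, hres] at hix
  exact hix

end val

section loc

variable {L F : Type} [Field L] [NumberField L] [Field F] [NumberField F] [Algebra L F]

/-- the local symbol: for `F/L` of degree `p`, totally ramified at `w`, and `a` a root of
unity of order `p` modulo `w`, `y / τ y` is a power of `a` modulo one-units, with exponent
`s cnt w y` -/
theorem local_symbol {p : ℕ} (hp : p.Prime) [IsGalois L F] (hdeg : Module.finrank L F = p)
    {w : HeightOneSpectrum (𝓞 F)}
    (hw : w.asIdeal.ramificationIdx (𝓞 L) = p) {τ : F ≃ₐ[L] F} {a : F}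
    (hap : One1 (w.valuation F) (a ^ p)) (ha1 : ¬ One1 (w.valuation F) a) :
    ∃ s : ℕ, ∀ y : Fˣ, One1 (w.valuation F) (((y : F) / τ (y : F)) / a ^ ((s : ℤ) * cnt w y)) := by
  have hw' : w.asIdeal.ramificationIdx (𝓞 L) = Module.finrank L F := by rw [hw, hdeg]
  have ht := inertia_top w hw' τ
  obtain ⟨π, hπ⟩ := exists_unif w
  have y0 : ∀ y : Fˣ, (y : F) ≠ 0 := fun y => y.ne_zero
  have ty0 : ∀ y : Fˣ, τ (y : F) ≠ 0 := fun y => (map_ne_zero τ).2 y.ne_zero
  set θ : F := (π : F) / τ (π : F) with hθ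
  have hθ0 : θ ≠ 0 := div_ne_zero (y0 π) (ty0 π)
  -- the value depends only on the exponent
  have key : ∀ y : Fˣ, One1 (w.valuation F) (((y : F) / τ (y : F)) / θ ^ (cnt w y)) := by
    intro y
    have h1 : cnt w (y / π ^ (cnt w y)) = 0 := by
      rw [cnt_div, cnt_zpow, hπ]
      ring
    have h2 := triv_unit ht h1
    have e : ((y / π ^ (cnt w y) : Fˣ) : F) / τ ((y / π ^ (cnt w y) : Fˣ) : F) =
        ((y : F) / τ (y : F)) / θ ^ (cnt w y) := by
      rw [Units.val_div_eq_div_val, Units.val_zpow_eq_zpow_val, map_div₀, map_zpow₀, hθ, div_zpow]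
      have p1 := zpow_ne_zero (cnt w y) (y0 π)
      have p2 := zpow_ne_zero (cnt w y) (ty0 π)
      have p3 := y0 y
      have p4 := ty0 y
      field_simp
    rwa [e] at h2
  -- the `p`-th power
  have hcube : One1 (w.valuation F) (θ ^ p) := by
    obtain ⟨x, hx⟩ := exists_unif (w.under (𝓞 L))
    have h1 := cnt_ext w (w.under (𝓞 L)) rfl x
    rw [hw, hx] at h1
    have h2 := key (Units.map (algebraMap L F : L →* F) x)
    rw [h1] at h2
    have e : ((Units.map (algebraMap L F : L →* F) x : Fˣ) : F) /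
        τ ((Units.map (algebraMap L F : L →* F) x : Fˣ) : F) = 1 := by
      have e1 : τ ((Units.map (algebraMap L F : L →* F) x : Fˣ) : F) =
          ((Units.map (algebraMap L F : L →* F) x : Fˣ) : F) := τ.commutes (x : L)
      rw [e1, div_self (Units.ne_zero _)]
    rw [e] at h2
    have h3' := h2.inv
    rw [one_div, inv_inv] at h3'
    have e3 : θ ^ ((p : ℤ) * 1) = θ ^ p := by
      rw [mul_one, zpow_natCast]
    rwa [e3] at h3'
  obtain ⟨i, -, hi⟩ := roots hp hap ha1 hcube
  refine ⟨i, fun y => ?_⟩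
  have h1 := (key y).mul (hi.zpow (cnt w y))
  have e : ((y : F) / τ (y : F)) / θ ^ (cnt w y) * (θ / a ^ i) ^ (cnt w y) =
      ((y : F) / τ (y : F)) / a ^ ((i : ℤ) * cnt w y) := by
    have e1 : a ^ ((i : ℤ) * cnt w y) = (a ^ i) ^ (cnt w y) := by
      rw [zpow_mul, zpow_natCast]
    rw [div_zpow θ (a ^ i), e1, div_mul_div_cancel₀ (zpow_ne_zero (cnt w y) hθ0)]
  rwa [e] at h1

end loc

section ideals

variable {L : Type} [Field L] [NumberField L]

/-- decomposition: exponents divisible by `p` outside `S` -/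
theorem decomp {p : ℕ} {S : Finset ℕ} {X : J L} (h : ∀ v : HeightOneSpectrum (𝓞 L),
    ¬ Above S v → (p : ℤ) ∣ cntJ v X) : ∃ I s : J L, s ∈ SJ S L ∧ X = I ^ p * s := by
  classical
  have hfin : {v : HeightOneSpectrum (𝓞 L) | cntJ v X ≠ 0}.Finite := by
    have := FractionalIdeal.finite_factors (X : FractionalIdeal (𝓞 L)⁰ L)
    rwa [Filter.eventually_cofinite] at this
  obtain ⟨I, hI⟩ := INVI.exists_count L (fun v => if Above S v then 0 else cntJ v X / p)
    (hfin.subset (by
      intro v hv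
      simp only [ne_eq, Set.mem_ofPred_eq] at hv ⊢
      intro h0
      apply hv
      split_ifs
      · rfl
      · rw [h0, Int.zero_ediv]))
  have hI' : ∀ v, cntJ v I = if Above S v then 0 else cntJ v X / p := hI
  refine ⟨I, X * (I ^ p)⁻¹, mem_SJ fun v hv => ?_, ?_⟩
  · rw [cntJ_mul, cntJ_inv, cntJ_pow, hI' v, if_neg hv, Int.mul_ediv_cancel' (h v hv)]
    exact add_neg_cancel _
  · rw [mul_comm X, mul_inv_cancel_left]

end ideals

section auts

variable {L F : Type} [Field L] [Field F] [Algebra L F] [FiniteDimensional L F] [IsGalois L F]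

/-- the product over the Galois group -/
theorem prod_aut {p : ℕ} (hp : p.Prime) (hdeg : Module.finrank L F = p) {τ : F ≃ₐ[L] F}
    (hτ : τ ≠ 1) (x : Fˣ) :
    ∏ σ : F ≃ₐ[L] F, σ • x = ∏ i ∈ Finset.range p, τ ^ i • x := by
  classical
  have : Fact (Nat.Prime p) := ⟨hp⟩
  have hcard : Nat.card (F ≃ₐ[L] F) = p := by
    rw [IsGalois.card_aut_eq_finrank, hdeg]
  have hgen : ∀ σ : F ≃ₐ[L] F, σ ∈ Subgroup.zpowers τ := fun σ => mem_zpowers_of_prime_card hcard hτ
  have hord : orderOf τ = p := by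
    rw [orderOf_eq_card_of_forall_mem_zpowers hgen, hcard]
  symm
  refine Finset.prod_bij (fun i _ => τ ^ i) (fun _ _ => Finset.mem_univ _) ?_ ?_ (fun _ _ => rfl)
  · intro a ha b hb hab
    rw [Finset.mem_range, ← hord] at ha hb
    exact pow_injOn_Iio_orderOf ha hb hab
  · intro σ _
    have hmem : σ ∈ Submonoid.powers τ :=
      (isOfFinOrder_of_finite τ).mem_powers_iff_mem_zpowers.2 (hgen σ)
    obtain ⟨i, hi⟩ := Submonoid.mem_powers_iff σ τ |>.1 hmem
    refine ⟨i % orderOf τ, Finset.mem_range.2 ?_, ?_⟩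
    · rw [hord]
      exact Nat.mod_lt _ hp.pos
    · rw [pow_mod_orderOf, hi]

/-- the norm -/
theorem norm_aut {p : ℕ} (hp : p.Prime) (hdeg : Module.finrank L F = p) {τ : F ≃ₐ[L] F}
    (hτ : τ ≠ 1) (x : Fˣ) :
    Units.map (algebraMap L F : L →* F) (Units.map (Algebra.norm L : F →* L) x) =
      ∏ i ∈ Finset.range p, τ ^ i • x := by
  rw [← prod_aut hp hdeg hτ]
  apply Units.ext
  change algebraMap L F (Algebra.norm L (x : F)) = _
  rw [Algebra.norm_eq_prod_automorphisms, Units.coe_prod]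
  rfl

end auts

section main

variable {k L F : Type} [Field k] [NumberField k] [Field L] [NumberField L] [Field F]
  [NumberField F] [Algebra k L] [Algebra L F] [Algebra k F] [IsScalarTower k L F]

/-- a prime of `F` above `S` is fixed by the `p`-th power of a lift of an automorphism of `L` which
fixes the primes above `S` -/
theorem fix_pow {p : ℕ} [IsGalois L F] [FiniteDimensional L F] (hdeg : Module.finrank L F = p)
    (hcomm : ∀ σ τ : F ≃ₐ[k] F, σ * τ = τ * σ) {S : Finset ℕ} {g : L ≃ₐ[k] L}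
    (hg : ∀ v : HeightOneSpectrum (𝓞 L), Above S v → g • v.asIdeal = v.asIdeal) {g' : F ≃ₐ[k] F}
    (hg' : ∀ x : L, algebraMap L F (g x) = g' (algebraMap L F x)) {w : HeightOneSpectrum (𝓞 F)}
    (hw : Above S w) : mv (g' ^ p) w = w := by
  set v := w.under (𝓞 L) with hv
  have hvS : Above S v := (above_under w v rfl).1 hw
  have h1 : (mv g' w).asIdeal.under (𝓞 L) = v.asIdeal := by
    rw [under_mv g' g hg' w v rfl]
    exact hg v hvS
  have hlo : w.asIdeal.LiesOver v.asIdeal := ⟨rfl⟩
  have hlo' : (mv g' w).asIdeal.LiesOver v.asIdeal := ⟨h1.symm⟩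
  have hwp : w.asIdeal.IsPrime := w.isPrime
  have hwp' : (mv g' w).asIdeal.IsPrime := (mv g' w).isPrime
  obtain ⟨τ, hτ⟩ := Ideal.exists_smul_eq_of_isGaloisGroup v.asIdeal w.asIdeal
    (mv g' w).asIdeal (F ≃ₐ[L] F)
  set T : F ≃ₐ[k] F := τ.restrictScalars k with hT
  have h2 : mv g' w = mv T w := by
    apply HeightOneSpectrum.ext
    rw [← hτ]
    rfl
  have hTn : ∀ (n : ℕ) (x : F), (T ^ n) x = (τ ^ n) x := by
    intro n
    induction n with
    | zero => intro x; rfl
    | succ n ih =>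
      intro x
      rw [pow_succ, pow_succ]
      exact ih (τ x)
  have hTp : T ^ p = 1 := by
    have h3 : τ ^ p = 1 := by
      have h4 : Nat.card (F ≃ₐ[L] F) = p := by
        rw [IsGalois.card_aut_eq_finrank, hdeg]
      rw [← h4]
      exact pow_card_eq_one'
    apply AlgEquiv.ext
    intro x
    rw [hTn, h3]
    rfl
  have h3 : ∀ n : ℕ, mv (g' ^ n) w = mv (T ^ n) w := by
    intro n
    induction n with
    | zero => rw [pow_zero, pow_zero]
    | succ n ih =>
      rw [pow_succ, mv_mul, h2, ← mv_mul, hcomm, mv_mul, ih, ← mv_mul, ← pow_succ']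
  rw [h3, hTp, mv_one]

theorem cnt_prod {ι : Type} (w : HeightOneSpectrum (𝓞 F)) (s : Finset ι) (f : ι → Fˣ) :
    cnt w (∏ i ∈ s, f i) = ∑ i ∈ s, cnt w (f i) := by
  classical
  induction s using Finset.induction_on with
  | empty => rw [Finset.prod_empty, Finset.sum_empty, cnt_one]
  | insert i s hi ih => rw [Finset.prod_insert hi, Finset.sum_insert hi, cnt_mul, ih]

omit [NumberField L] in
theorem cnt_prodp {p : ℕ} (τ : F ≃ₐ[L] F) (Y : Fˣ)
    (h : ∀ w : HeightOneSpectrum (𝓞 F), cnt w (τ • Y) = cnt w Y)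
    (w : HeightOneSpectrum (𝓞 F)) :
    cnt w (∏ i ∈ Finset.range p, τ ^ i • Y) = p * cnt w Y := by
  have h1 : ∀ (i : ℕ) (w : HeightOneSpectrum (𝓞 F)), cnt w (τ ^ i • Y) = cnt w Y := by
    intro i
    induction i with
    | zero =>
      intro w
      rw [pow_zero, one_smul]
    | succ i ih =>
      intro w
      rw [pow_succ', mul_smul, cnt_mv', ih, ← cnt_mv', h]
  rw [cnt_prod, Finset.sum_congr rfl fun i _ => h1 i w, Finset.sum_const, Finset.card_range,
    nsmul_eq_mul]

end main

end KINX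

open KINX in
/-- KINX: the Kolyvagin step. -/
theorem t_KINX : S_KINX := by
  classical
  intro p hFact k L _ _ _ _ _ _ _ S hSp c hc0 hSU Gs hK g hgG hg u hu lam q hgood a hap ha1 b hb
  have hp : p.Prime := hFact.out
  obtain ⟨F, _, _, _, _, _, hgalF, hcomm, hdeg, hunr, hram, z, hzS, hy, hzc⟩ :=
    hK lam q hgood
  have hgalLF : IsGalois L F := IsGalois.tower_top_of_isGalois k L F
  have hfinLF : FiniteDimensional L F := Module.finite_of_finrank_pos (by rw [hdeg]; exact hp.pos)
  have hcardLF : Nat.card (F ≃ₐ[L] F) = p := by rw [IsGalois.card_aut_eq_finrank, hdeg]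
  obtain ⟨τ, hτ⟩ : ∃ τ : F ≃ₐ[L] F, τ ≠ 1 := by
    by_contra hcon
    push Not at hcon
    have : Subsingleton (F ≃ₐ[L] F) := ⟨fun a b => by rw [hcon a, hcon b]⟩
    have := Nat.card_of_subsingleton (1 : F ≃ₐ[L] F)
    rw [hcardLF] at this
    exact hp.ne_one this
  -- the prime number `q`
  have hqlam : (q : 𝓞 L) ∈ lam.asIdeal := by
    have h1 := Ideal.absNorm_mem lam.asIdeal
    rw [Ideal.absNorm_apply, Submodule.cardQuot_apply] at h1
    rw [← hgood.card]
    exact h1
  set m : ℕ := (q - 1) / p with hm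
  set l : Ideal (𝓞 k) := lam.asIdeal.under (𝓞 k) with hl
  -- lifts of automorphisms
  have hlift : ∀ h : L ≃ₐ[k] L, ∃ σ : F ≃ₐ[k] F, ∀ x : L, algebraMap L F (h x) =
      σ (algebraMap L F x) := by
    intro h
    obtain ⟨σ, hσ⟩ := AlgEquiv.restrictNormalHom_surjective (F := k) (K₁ := L) F h
    refine ⟨σ, fun x => ?_⟩
    rw [← hσ]
    exact AlgEquiv.restrictNormal_commutes σ L x
  obtain ⟨g', hg'⟩ := hlift g
  have hg'n : ∀ (n : ℕ) (x : L), algebraMap L F ((g ^ n) x) = (g' ^ n) (algebraMap L F x) := by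
    intro n
    induction n with
    | zero => intro x; rfl
    | succ n ih =>
      intro x
      rw [pow_succ', pow_succ']
      change algebraMap L F (g ((g ^ n) x)) = g' ((g' ^ n) (algebraMap L F x))
      rw [hg', ih]
  have hg'p := hg'n p
  -- the case `Above S lam` is trivial
  set P : J L := ∏ h : L ≃ₐ[k] L, (h • vJ lam) ^ b h with hP
  by_cases hlamS : Above S lam
  · obtain ⟨I, s, hs, hX⟩ := KINX.decomp (p := p) (S := S) (X := P) (by
      intro v hv
      have h0 : cntJ v P = 0 := by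
        rw [hP, cntJ_prod]
        refine Finset.sum_eq_zero fun h _ => ?_
        rw [cntJ_pow, cntJ_smul_vJ, if_neg, mul_zero]
        rintro rfl
        exact hv ((above_mv h lam).2 hlamS)
      rw [h0]
      exact dvd_zero _)
    exact ⟨1, I, s, hs, by rw [map_one, one_mul, hX]⟩
  -- a prime above `lam`
  obtain ⟨w0, hw0⟩ := INVI.exists_above L F lam
  have hunderk : ∀ (w : HeightOneSpectrum (𝓞 F)) (v : HeightOneSpectrum (𝓞 L)),
      w.asIdeal.under (𝓞 L) = v.asIdeal → w.asIdeal.under (𝓞 k) = v.asIdeal.under (𝓞 k) := by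
    intro w v hwv
    rw [← hwv, Ideal.under_under]
  have hw0k : w0.asIdeal.under (𝓞 k) = l := hunderk w0 lam hw0
  have hlamk : ∀ h : L ≃ₐ[k] L, (mv h lam).asIdeal.under (𝓞 k) = l := by
    intro h
    have h2 := under_mv (k := k) (L := k) (F := L) h 1 (fun x => (h.commutes x).symm) lam
      (lam.under (𝓞 k)) rfl
    rw [mv_one] at h2
    exact h2
  have hSw : ∀ w : HeightOneSpectrum (𝓞 F), w.asIdeal.under (𝓞 k) = l → ¬ Above S w := by
    intro w hw hwS
    apply hlamS
    have h1 := (above_under (L := k) w (w.under (𝓞 k)) rfl).1 hwS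
    refine (above_under (L := k) lam (lam.under (𝓞 k)) rfl).2 ?_
    have e : w.under (𝓞 k) = lam.under (𝓞 k) := by
      apply HeightOneSpectrum.ext
      exact hw
    rwa [← e]
  -- `z` is not zero
  have hz0 : z ≠ 0 := by
    rintro rfl
    have h1 := hzS w0 (hSw w0 hw0k)
    rw [map_zero] at h1
    exact zero_ne_one h1
  set zu : Fˣ := Units.mk0 z hz0 with hzu
  have hcz : ∀ w : HeightOneSpectrum (𝓞 F), ¬ Above S w → cnt w zu = 0 := by
    intro w hw
    exact (val_one_iff zu).1 (hzS w hw)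
  -- the unit `z'`
  set z' : Fˣ := g' ^ p • zu / zu with hz'
  have hz'cnt : ∀ w : HeightOneSpectrum (𝓞 F), cnt w z' = 0 := by
    intro w
    rw [hz', cnt_div, cnt_mv']
    by_cases hw : Above S w
    · have h1 : mv (g' ^ p)⁻¹ w = w := by
        have h2 := fix_pow hdeg hcomm hg hg' hw
        have h3 := congrArg (mv (g' ^ p)⁻¹) h2
        rw [← mv_mul, inv_mul_cancel, mv_one] at h3
        exact h3.symm
      rw [h1, sub_self]
    · rw [hcz w hw, hcz _ (fun h => hw ((above_mv _ _).1 h)), sub_self]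
  have hyn : ∀ n : ℕ, (g ^ n) (Algebra.norm L z) = Algebra.norm L z := by
    intro n
    induction n with
    | zero => rfl
    | succ n ih =>
      rw [pow_succ]
      change (g ^ n) (g (Algebra.norm L z)) = Algebra.norm L z
      rw [hy g hgG, ih]
  have hz'norm : ∏ i ∈ Finset.range p, τ ^ i • z' = 1 := by
    have h1 := KINX.norm_aut hp hdeg hτ zu
    have h2 : ∀ i : ℕ, τ ^ i • (g' ^ p • zu) = g' ^ p • (τ ^ i • zu) := by
      intro i
      apply Units.ext
      have := DFunLike.congr_fun (hcomm (AlgEquiv.restrictScalars k (τ ^ i)) (g' ^ p)) (zu : F)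
      exact this
    have h3 : ∏ i ∈ Finset.range p, τ ^ i • z' =
        (g' ^ p • ∏ i ∈ Finset.range p, τ ^ i • zu) / ∏ i ∈ Finset.range p, τ ^ i • zu := by
      rw [Finset.smul_prod', ← Finset.prod_div_distrib]
      refine Finset.prod_congr rfl fun i _ => ?_
      rw [hz', smul_div', h2]
    rw [h3, ← h1]
    have h4 : g' ^ p • Units.map (algebraMap L F : L →* F)
        (Units.map (Algebra.norm L : F →* L) zu) = Units.map (algebraMap L F : L →* F)
        (Units.map (Algebra.norm L : F →* L) zu) := by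
      apply Units.ext
      change (g' ^ p) (algebraMap L F (Algebra.norm L z)) = algebraMap L F (Algebra.norm L z)
      rw [← hg'p, hyn]
    rw [h4, div_self']
  obtain ⟨Y, hY⟩ := H90_thm p L F τ hdeg hτ z' hz'norm
  have hYτ : ∀ w : HeightOneSpectrum (𝓞 F), cnt w (τ • Y) = cnt w Y := by
    intro w
    have h1 := hz'cnt w
    rw [hY, cnt_div] at h1
    omega
  set κ : Lˣ := Units.map (Algebra.norm L : F →* L) Y with hκ
  have hκw : ∀ (w : HeightOneSpectrum (𝓞 F)) (v : HeightOneSpectrum (𝓞 L)),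
      w.asIdeal.under (𝓞 L) = v.asIdeal →
      (w.asIdeal.ramificationIdx (𝓞 L) : ℤ) * cnt v κ = p * cnt w Y := by
    intro w v hwv
    rw [← cnt_ext w v hwv, hκ, KINX.norm_aut hp hdeg hτ, cnt_prodp τ Y hYτ w]
  have hp0 : (p : ℤ) ≠ 0 := by exact_mod_cast hp.ne_zero
  -- the integer `a`
  have hqprime := hgood.prime
  have hqw : ∀ w : HeightOneSpectrum (𝓞 F), w.asIdeal.under (𝓞 k) = l → (q : 𝓞 F) ∈ w.asIdeal := by
    intro w hw
    have h1 : (q : 𝓞 k) ∈ l := by
      rw [hl, Ideal.mem_comap, map_natCast]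
      exact hqlam
    rw [← hw, Ideal.mem_comap, map_natCast] at h1
    exact h1
  have hap' : ∀ w : HeightOneSpectrum (𝓞 F), w.asIdeal.under (𝓞 k) = l →
      One1 (w.valuation F) ((a : F) ^ p) := by
    intro w hw
    obtain ⟨d, hd⟩ := hap
    have h1 : (((a ^ p - 1 : ℤ) : 𝓞 F)) ∈ w.asIdeal := by
      rw [hd]
      push_cast
      exact w.asIdeal.mul_mem_right _ (hqw w hw)
    have h2 := (HeightOneSpectrum.valuation_lt_one_iff_mem (K := F) (v := w) _).2 h1
    have e : algebraMap (𝓞 F) F ((a ^ p - 1 : ℤ) : 𝓞 F) = (a : F) ^ p - 1 := by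
      rw [map_intCast]
      push_cast
      ring
    unfold One1
    rw [← e]
    exact h2
  have ha1' : ∀ w : HeightOneSpectrum (𝓞 F), w.asIdeal.under (𝓞 k) = l →
      ¬ One1 (w.valuation F) (a : F) := by
    intro w hw hone
    have e : algebraMap (𝓞 F) F ((a - 1 : ℤ) : 𝓞 F) = (a : F) - 1 := by
      rw [map_intCast]
      push_cast
      ring
    unfold One1 at hone
    rw [← e] at hone
    have h2 := (HeightOneSpectrum.valuation_lt_one_iff_mem (K := F) (v := w) _).1 hone
    have hco : IsCoprime (q : ℤ) (a - 1) :=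
      (Prime.coprime_iff_not_dvd (Nat.prime_iff_prime_int.1 hqprime)).2 ha1
    obtain ⟨r, s, hrs⟩ := hco
    apply w.isPrime.ne_top
    rw [Ideal.eq_top_iff_one]
    have h3 : ((r * (q : ℤ) + s * (a - 1) : ℤ) : 𝓞 F) ∈ w.asIdeal := by
      have e2 : ((r * (q : ℤ) + s * (a - 1) : ℤ) : 𝓞 F) =
          (r : 𝓞 F) * (q : 𝓞 F) + (s : 𝓞 F) * ((a - 1 : ℤ) : 𝓞 F) := by
        push_cast
        ring
      rw [e2]
      exact w.asIdeal.add_mem (w.asIdeal.mul_mem_left _ (hqw w hw)) (w.asIdeal.mul_mem_left _ h2)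
    rw [hrs, Int.cast_one] at h3
    exact h3
  -- the symbol
  obtain ⟨s', hs⟩ := KINX.local_symbol hp hdeg (hram w0 hw0k) (τ := τ) (hap' w0 hw0k)
    (ha1' w0 hw0k)
  -- the exponents at the conjugates of `lam`
  have hexp : ∀ h : L ≃ₐ[k] L, (p : ℤ) ∣ (b h : ℤ) - s' * cnt (mv h lam) κ := by
    intro h
    obtain ⟨σ, hσ⟩ := hlift h
    set w := mv σ w0 with hw
    have hwh : w.asIdeal.under (𝓞 L) = (mv h lam).asIdeal := under_mv σ h hσ w0 lam hw0
    have hwk : w.asIdeal.under (𝓞 k) = l := by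
      rw [hunderk w _ hwh, hlamk]
    have hsym := symbol_mv hcomm σ hs Y
    have h1 := hκw w _ hwh
    rw [hram w hwk] at h1
    have h2 : cnt (mv h lam) κ = cnt w Y := mul_left_cancel₀ hp0 h1
    rw [h2]
    have hva : w.valuation F (a : F) = 1 := val_of_pow hp (hap' w hwk)
    -- congruences for `z'`
    have h3 := cong (S := S) hc0 hSU hg'p hzc hwk (hSw w hwk)
    have h4 : One1 (w.valuation F) ((algebraMap L F ((g ^ p) c) / algebraMap L F c) ^ m /
        (a : F) ^ b h) := by
      rw [one1_div (by rw [map_pow, hva, one_pow])]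
      have h5 : algebraMap (𝓞 L) (𝓞 F) ((u : 𝓞 L) ^ m - (a : 𝓞 L) ^ b h) ∈ w.asIdeal := by
        have h6 : (u : 𝓞 L) ^ m - (a : 𝓞 L) ^ b h ∈ w.asIdeal.under (𝓞 L) := by
          rw [hwh]
          exact hb h
        exact h6
      have h7 := (HeightOneSpectrum.valuation_lt_one_iff_mem (K := F) (v := w) _).2 h5
      have e : algebraMap (𝓞 F) F (algebraMap (𝓞 L) (𝓞 F) ((u : 𝓞 L) ^ m - (a : 𝓞 L) ^ b h)) =
          (algebraMap L F ((g ^ p) c) / algebraMap L F c) ^ m - (a : F) ^ b h := by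
        have e1 : algebraMap (𝓞 F) F (algebraMap (𝓞 L) (𝓞 F) ((u : 𝓞 L) ^ m - (a : 𝓞 L) ^ b h)) =
            algebraMap L F (algebraMap (𝓞 L) L ((u : 𝓞 L) ^ m - (a : 𝓞 L) ^ b h)) := rfl
        rw [e1, map_sub, map_pow, map_pow, map_intCast, map_sub, map_pow, map_pow, map_intCast]
        have e2 : algebraMap (𝓞 L) L (u : 𝓞 L) = (g ^ p) c / c := hu
        rw [e2, map_div₀]
      rw [← e]
      exact h7
    have h8 : One1 (w.valuation F) (((Y : F) / τ (Y : F)) / (a : F) ^ b h) := by
      have e1 : (Y : F) / τ (Y : F) = (g' ^ p) z / z := by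
        have := congrArg (fun x : Fˣ => (x : F)) hY
        rw [hz'] at this
        simp only [Units.val_div_eq_div_val] at this
        exact this.symm
      have h9 := h3.mul h4
      rw [e1]
      have h0 : (algebraMap L F ((g ^ p) c) / algebraMap L F c) ^ m ≠ 0 := by
        refine pow_ne_zero _ (div_ne_zero ?_ ?_)
        · exact (map_ne_zero _).2 ((map_ne_zero _).2 hc0)
        · exact (map_ne_zero _).2 hc0
      rwa [div_mul_div_cancel₀ h0] at h9
    have h10 := hsym.div h8
    have ha0 : (a : F) ≠ 0 := ne_zero_of_pow hp (hap' w hwk)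
    have hY0 : (Y : F) / τ (Y : F) ≠ 0 := div_ne_zero Y.ne_zero ((map_ne_zero _).2 Y.ne_zero)
    have e : (Y : F) / τ (Y : F) / (a : F) ^ ((s' : ℤ) * cnt w Y) /
        ((Y : F) / τ (Y : F) / (a : F) ^ b h) =
        (a : F) ^ ((b h : ℤ) - s' * cnt w Y) := by
      rw [zpow_sub₀ ha0, zpow_natCast]
      have p1 := zpow_ne_zero ((s' : ℤ) * cnt w Y) ha0
      have p2 := pow_ne_zero (b h) ha0
      generalize (Y : F) / τ (Y : F) = A at hY0 ⊢
      field_simp
    rw [e] at h10
    exact pow_dvd hp (hap' w hwk) (ha1' w hwk) h10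
  -- the ideal
  obtain ⟨I, t, ht, hX⟩ := KINX.decomp (p := p) (S := S) (X := P * (prin κ ^ s')⁻¹) (by
    intro v hv
    rw [cntJ_mul, cntJ_inv, cntJ_pow, hP, cntJ_prod]
    by_cases hvh : ∃ h : L ≃ₐ[k] L, mv h lam = v
    · obtain ⟨h, rfl⟩ := hvh
      rw [Finset.sum_eq_single h]
      · rw [cntJ_pow, cntJ_smul_vJ, if_pos rfl, mul_one]
        exact hexp h
      · intro h' _ hne
        rw [cntJ_pow, cntJ_smul_vJ, if_neg, mul_zero]
        intro heq
        apply hne
        have h1 : (h⁻¹ * h') • lam.asIdeal = lam.asIdeal := by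
          have h2 : h' • lam.asIdeal = h • lam.asIdeal := congrArg HeightOneSpectrum.asIdeal heq
          rw [mul_smul, h2, inv_smul_smul]
        have h3 := hgood.free _ h1
        rw [inv_mul_eq_one] at h3
        exact h3.symm
      · intro h1
        exact absurd (Finset.mem_univ h) h1
    · rw [Finset.sum_eq_zero]
      · obtain ⟨w, hw⟩ := INVI.exists_above L F v
        have hwS : ¬ Above S w := fun h => hv ((above_under w v hw).1 h)
        have hwk : w.asIdeal.under (𝓞 k) ≠ l := by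
          intro h1
          apply hvh
          rw [hunderk w v hw] at h1
          have hlo : v.asIdeal.LiesOver l := ⟨h1.symm⟩
          have hlo' : lam.asIdeal.LiesOver l := ⟨rfl⟩
          have hp1 : v.asIdeal.IsPrime := v.isPrime
          have hp2 : lam.asIdeal.IsPrime := lam.isPrime
          obtain ⟨h, hh⟩ := Ideal.exists_smul_eq_of_isGaloisGroup l lam.asIdeal v.asIdeal
            (L ≃ₐ[k] L)
          refine ⟨h, ?_⟩
          apply HeightOneSpectrum.ext
          exact hh
        have h1 := hκw w v hw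
        rw [hunr w hwS hwk] at h1
        have h2 : cntJ v (prin κ) = p * cnt w Y := by
          have : cnt v κ = p * cnt w Y := by
            rw [← h1]
            push_cast
            ring
          exact this
        rw [h2]
        exact ⟨-(s' * cnt w Y), by ring⟩
      · intro h _
        rw [cntJ_pow, cntJ_smul_vJ, if_neg (fun h1 => hvh ⟨h, h1⟩), mul_zero])
  refine ⟨κ ^ s', I, t, ht, ?_⟩
  rw [map_pow, mul_assoc, ← hX, mul_comm P, mul_inv_cancel_left]

end Pool.Agent.MUXK
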