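import Pool.Agent.MUX.StKX

/-!
# MUX, KNM: the norm step (helper20)

The Kolyvagin relations at the primes of degree one of `M`, pushed down to `L` by the norm.
-/

set_option autoImplicit false

open NumberField IsDedekindDomain Finset
open scoped nonZeroDivisors Pointwise

namespace Pool.Agent.MUXK

open Pool.Agent.MU3 Pool.Agent.RI

namespace K_KNM

/-- An integer in a prime with `q` residue classes is divisible by `q`. -/
theorem dvd_of_mem {L : Type} [Field L] [NumberField L] (lam : HeightOneSpectrum (𝓞 L)) {q : ℕ}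
    (hq : q.Prime) (hcard : Nat.card (𝓞 L ⧸ lam.asIdeal) = q) (z : ℤ)
    (hz : (z : 𝓞 L) ∈ lam.asIdeal) : (q : ℤ) ∣ z := by
  have hmax : lam.asIdeal.IsMaximal := lam.isMaximal
  let _ : Field (𝓞 L ⧸ lam.asIdeal) := Ideal.Quotient.field lam.asIdeal
  have hfin : Finite (𝓞 L ⧸ lam.asIdeal) :=
    Nat.finite_of_card_ne_zero (by rw [hcard]; exact hq.ne_zero)
  have : Fintype (𝓞 L ⧸ lam.asIdeal) := Fintype.ofFinite _
  have : Fact q.Prime := ⟨hq⟩
  have : CharP (𝓞 L ⧸ lam.asIdeal) q :=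
    charP_of_card_eq_prime (by rw [← Nat.card_eq_fintype_card, hcard])
  rw [← CharP.intCast_eq_zero_iff (𝓞 L ⧸ lam.asIdeal) q,
    ← map_intCast (Ideal.Quotient.mk lam.asIdeal)]
  exact Ideal.Quotient.eq_zero_iff_mem.2 hz

theorem mem_of_dvd {L : Type} [Field L] [NumberField L] (lam : HeightOneSpectrum (𝓞 L)) {q : ℕ}
    (hcard : Nat.card (𝓞 L ⧸ lam.asIdeal) = q) (z : ℤ)
    (hz : (q : ℤ) ∣ z) : (z : 𝓞 L) ∈ lam.asIdeal := by
  obtain ⟨t, rfl⟩ := hz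
  have h1 : (q : 𝓞 L) ∈ lam.asIdeal := by
    rw [← Ideal.Quotient.eq_zero_iff_mem, map_natCast, ← hcard]
    have := card_nsmul_eq_zero' (G := 𝓞 L ⧸ lam.asIdeal) (x := 1)
    simpa using this
  push_cast
  exact lam.asIdeal.mul_mem_right _ h1

theorem exists_core (κ : Type) [Field κ] [Finite κ] {p q : ℕ} (hp : p.Prime)
    (hpq : p ∣ q - 1) (hcard : Nat.card κ = q) (α x : κ) (h1 : α ^ p = 1) (h2 : α ≠ 1)
    (hx : IsUnit x) : ∃ i : ℕ, x ^ ((q - 1) / p) = α ^ i := by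
  have : Fintype κ := Fintype.ofFinite κ
  have : NeZero p := ⟨hp.ne_zero⟩
  have : Fact p.Prime := ⟨hp⟩
  have h3 : IsPrimitiveRoot α p := IsPrimitiveRoot.iff_orderOf.2 (orderOf_eq_prime h1 h2)
  have h4 : (x ^ ((q - 1) / p)) ^ p = 1 := by
    rw [← pow_mul, Nat.div_mul_cancel hpq, ← hcard, Nat.card_eq_fintype_card]
    exact FiniteField.pow_card_sub_one_eq_one x hx.ne_zero
  obtain ⟨i, -, hi⟩ := h3.eq_pow_of_pow_eq_one h4
  exact ⟨i, hi.symm⟩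

/-- The `(q - 1) / p`-th power of a unit is a power of `a` modulo a prime of degree one. -/
theorem exists_exp {M : Type} [Field M] [NumberField M] (w : HeightOneSpectrum (𝓞 M)) {p q : ℕ}
    (hp : p.Prime) (hq : q.Prime) (hpq : p ∣ q - 1)
    (hcard : Nat.card (𝓞 M ⧸ w.asIdeal) = q) (a : ℤ) (ha : (q : ℤ) ∣ a ^ p - 1)
    (ha1 : ¬ (q : ℤ) ∣ a - 1) (u : (𝓞 M)ˣ) :
    ∃ b : ℕ, (u : 𝓞 M) ^ ((q - 1) / p) - (a : 𝓞 M) ^ b ∈ w.asIdeal := by
  have hmax : w.asIdeal.IsMaximal := w.isMaximal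
  have hfin : Finite (𝓞 M ⧸ w.asIdeal) :=
    Nat.finite_of_card_ne_zero (by rw [hcard]; exact hq.ne_zero)
  have h1 : (Ideal.Quotient.mk w.asIdeal (a : 𝓞 M)) ^ p = 1 := by
    rw [← map_pow, ← sub_eq_zero, ← map_one (Ideal.Quotient.mk w.asIdeal), ← map_sub,
      Ideal.Quotient.eq_zero_iff_mem]
    have := mem_of_dvd w hcard _ ha
    push_cast at this
    exact this
  have h2 : Ideal.Quotient.mk w.asIdeal (a : 𝓞 M) ≠ 1 := by
    intro h
    apply ha1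
    apply dvd_of_mem w hq hcard
    rw [← Ideal.Quotient.eq_zero_iff_mem]
    push_cast
    rw [map_sub, h, map_one, sub_self]
  let : Field (𝓞 M ⧸ w.asIdeal) := Ideal.Quotient.field w.asIdeal
  obtain ⟨i, hi⟩ := exists_core (𝓞 M ⧸ w.asIdeal) hp hpq hcard
    (Ideal.Quotient.mk w.asIdeal (a : 𝓞 M)) (Ideal.Quotient.mk w.asIdeal (u : 𝓞 M)) h1 h2
    (u.isUnit.map (Ideal.Quotient.mk w.asIdeal))
  refine ⟨i, ?_⟩
  rw [← Ideal.Quotient.eq_zero_iff_mem, map_sub, map_pow, map_pow, sub_eq_zero]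
  exact hi

/-- Exponents of `a` modulo `q` are determined modulo `p`. -/
theorem modEq {L : Type} [Field L] [NumberField L] (lam : HeightOneSpectrum (𝓞 L)) {p q : ℕ}
    (hp : p.Prime) (hq : q.Prime)
    (hcard : Nat.card (𝓞 L ⧸ lam.asIdeal) = q) (a : ℤ) (ha : (q : ℤ) ∣ a ^ p - 1)
    (ha1 : ¬ (q : ℤ) ∣ a - 1) (i j : ℕ) (h : (a : 𝓞 L) ^ i - (a : 𝓞 L) ^ j ∈ lam.asIdeal) :
    i ≡ j [MOD p] := by
  have hmax : lam.asIdeal.IsMaximal := lam.isMaximal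
  let _ : Field (𝓞 L ⧸ lam.asIdeal) := Ideal.Quotient.field lam.asIdeal
  have : Fact p.Prime := ⟨hp⟩
  set κ := 𝓞 L ⧸ lam.asIdeal with hκ
  set f : 𝓞 L →+* κ := Ideal.Quotient.mk lam.asIdeal with hf
  have h1 : (f (a : 𝓞 L)) ^ p = 1 := by
    rw [← map_pow, ← sub_eq_zero, ← map_one f, ← map_sub, hf, Ideal.Quotient.eq_zero_iff_mem]
    have := mem_of_dvd lam hcard _ ha
    push_cast at this
    exact this
  have h2 : f (a : 𝓞 L) ≠ 1 := by
    intro h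
    apply ha1
    apply dvd_of_mem lam hq hcard
    rw [← Ideal.Quotient.eq_zero_iff_mem, ← hf]
    push_cast
    rw [map_sub, h, map_one, sub_self]
  have h3 : orderOf (f (a : 𝓞 L)) = p := orderOf_eq_prime h1 h2
  have h4 : IsOfFinOrder (f (a : 𝓞 L)) := isOfFinOrder_iff_pow_eq_one.2 ⟨p, hp.pos, h1⟩
  have h5 : f (a : 𝓞 L) ^ i = f (a : 𝓞 L) ^ j := by
    rw [← sub_eq_zero, ← map_pow, ← map_pow, ← map_sub, hf]
    exact Ideal.Quotient.eq_zero_iff_mem.2 h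
  have h6 := h4.pow_eq_pow_iff_modEq.1 h5
  rwa [h3] at h6

section

set_option linter.unusedSectionVars false

variable {k L M : Type} [Field k] [NumberField k] [Field L] [NumberField L] [Field M]
  [NumberField M] [Algebra k L] [Algebra L M] [Algebra k M] [IsScalarTower k L M]
  [IsGalois k L] [IsGalois k M]

/-- An automorphism of `M / k` which is trivial on `L`. -/
noncomputable def lift (g : M ≃ₐ[k] M) (hg : ∀ x : L, g (algebraMap L M x) = algebraMap L M x) :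
    M ≃ₐ[L] M := AlgEquiv.ofRingEquiv (f := (g : M ≃+* M)) hg

theorem smul_alg (h : M ≃ₐ[k] M) (x : 𝓞 L) :
    h • (algebraMap (𝓞 L) (𝓞 M) x) =
      algebraMap (𝓞 L) (𝓞 M) ((AlgEquiv.restrictNormalHom L h) • x) := by
  apply RingOfIntegers.ext
  exact (AlgEquiv.restrictNormal_commutes h L (x : L)).symm

/-- The norm of a unit. -/
theorem norm_prod (u : (𝓞 M)ˣ) (u₀ : (𝓞 L)ˣ)
    (hu : ((u₀ : 𝓞 L) : L) = Algebra.norm L ((u : 𝓞 M) : M)) :
    algebraMap (𝓞 L) (𝓞 M) (u₀ : 𝓞 L) =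
      ∏ ν : M ≃ₐ[L] M, (ν.restrictScalars k) • (u : 𝓞 M) := by
  have : IsGalois L M := IsGalois.tower_top_of_isGalois k L M
  apply RingOfIntegers.ext
  have h1 : ((algebraMap (𝓞 L) (𝓞 M) (u₀ : 𝓞 L) : 𝓞 M) : M) = algebraMap L M ((u₀ : 𝓞 L) : L) :=
    rfl
  rw [h1, hu, Algebra.norm_eq_prod_automorphisms]
  change _ = algebraMap (𝓞 M) M (∏ ν : M ≃ₐ[L] M, (ν.restrictScalars k) • (u : 𝓞 M))
  rw [map_prod]
  rfl

open Classical in
/-- The sum over a fibre of the restriction. -/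
theorem sum_fibre (b : (M ≃ₐ[k] M) → ℕ) (h : M ≃ₐ[k] M) :
    ∑ ν : M ≃ₐ[L] M, b ((ν.restrictScalars k)⁻¹ * h) =
      ∑ g ∈ univ.filter (fun g : M ≃ₐ[k] M => AlgEquiv.restrictNormalHom L g =
        AlgEquiv.restrictNormalHom L h), b g := by
  refine Finset.sum_bij (fun ν _ => (ν.restrictScalars k)⁻¹ * h) ?_ ?_ ?_ ?_
  · intro ν _
    rw [mem_filter]
    refine ⟨mem_univ _, ?_⟩
    rw [map_mul, map_inv]
    have h1 : AlgEquiv.restrictNormalHom L (ν.restrictScalars k) = 1 := by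
      ext x
      apply (algebraMap L M).injective
      have h2 := AlgEquiv.restrictNormal_commutes (ν.restrictScalars k) L x
      change algebraMap L M ((AlgEquiv.restrictNormal (ν.restrictScalars k) L) x) = _
      rw [h2]
      exact ν.commutes x
    rw [h1, inv_one, one_mul]
  · intro ν _ ν' _ he
    have h1 := mul_right_cancel he
    exact AlgEquiv.restrictScalars_injective k (inv_injective h1)
  · intro g hg
    rw [mem_filter] at hg
    have h1 : AlgEquiv.restrictNormalHom L (h * g⁻¹) = 1 := by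
      rw [map_mul, map_inv, hg.2, mul_inv_cancel]
    have h2 : ∀ x : L, (h * g⁻¹) (algebraMap L M x) = algebraMap L M x := by
      intro x
      have h3 := AlgEquiv.restrictNormal_commutes (h * g⁻¹) L x
      rw [← h3]
      change algebraMap L M ((AlgEquiv.restrictNormalHom L (h * g⁻¹)) x) = _
      rw [h1]
      rfl
    refine ⟨lift (h * g⁻¹) h2, mem_univ _, ?_⟩
    have h3 : (lift (h * g⁻¹) h2).restrictScalars k = h * g⁻¹ := by
      ext x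
      rfl
    rw [h3, mul_inv_rev, inv_inv, mul_assoc, inv_mul_cancel, mul_one]
  · intro ν _
    rfl

open Classical in
/-- The congruence for the norm. -/
theorem cong (w : HeightOneSpectrum (𝓞 M)) (lam : HeightOneSpectrum (𝓞 L))
    (hw : w.asIdeal.under (𝓞 L) = lam.asIdeal) (m : ℕ) (a : ℤ) (b : (M ≃ₐ[k] M) → ℕ)
    (u : (𝓞 M)ˣ) (u₀ : (𝓞 L)ˣ)
    (hu : ((u₀ : 𝓞 L) : L) = Algebra.norm L ((u : 𝓞 M) : M))
    (hb : ∀ h : M ≃ₐ[k] M, (u : 𝓞 M) ^ m - (a : 𝓞 M) ^ b h ∈ h • w.asIdeal)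
    (h : M ≃ₐ[k] M) :
    (u₀ : 𝓞 L) ^ m - (a : 𝓞 L) ^ (∑ g ∈ univ.filter (fun g : M ≃ₐ[k] M =>
      AlgEquiv.restrictNormalHom L g = AlgEquiv.restrictNormalHom L h), b g) ∈
      (AlgEquiv.restrictNormalHom L h) • lam.asIdeal := by
  have h1 : ∀ ν : M ≃ₐ[L] M, ((ν.restrictScalars k) • (u : 𝓞 M)) ^ m -
      (a : 𝓞 M) ^ b ((ν.restrictScalars k)⁻¹ * h) ∈ h • w.asIdeal := by
    intro ν
    have h2 := hb ((ν.restrictScalars k)⁻¹ * h)
    rw [Ideal.mem_pointwise_smul_iff_inv_smul_mem] at h2 ⊢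
    rw [mul_inv_rev, inv_inv, mul_smul] at h2
    have h3 : (ν.restrictScalars k) • ((u : 𝓞 M) ^ m -
        (a : 𝓞 M) ^ b ((ν.restrictScalars k)⁻¹ * h)) =
        ((ν.restrictScalars k) • (u : 𝓞 M)) ^ m -
        (a : 𝓞 M) ^ b ((ν.restrictScalars k)⁻¹ * h) := by
      rw [smul_sub, smul_pow', smul_pow']
      congr 2
      exact map_intCast (MulSemiringAction.toRingHom (M ≃ₐ[k] M) (𝓞 M) (ν.restrictScalars k)) a
    rw [← h3]
    exact h2
  have h4 : (∏ ν : M ≃ₐ[L] M, (ν.restrictScalars k) • (u : 𝓞 M)) ^ m -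
      (a : 𝓞 M) ^ (∑ ν : M ≃ₐ[L] M, b ((ν.restrictScalars k)⁻¹ * h)) ∈ h • w.asIdeal := by
    rw [← Ideal.Quotient.eq, ← Finset.prod_pow, ← Finset.prod_pow_eq_pow_sum, map_prod, map_prod]
    refine Finset.prod_congr rfl (fun ν _ => ?_)
    exact Ideal.Quotient.eq.2 (h1 ν)
  rw [sum_fibre, ← norm_prod u u₀ hu, Ideal.mem_pointwise_smul_iff_inv_smul_mem] at h4
  rw [Ideal.mem_pointwise_smul_iff_inv_smul_mem, ← hw]
  change algebraMap (𝓞 L) (𝓞 M) _ ∈ w.asIdeal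
  rw [← map_inv, ← smul_alg]
  rw [map_sub, map_pow, map_pow, map_intCast]
  exact h4

end

end K_KNM

open K_KNM in
theorem t_KNM (h1 : S_NRJ) (h2 : S_STABX) : S_KNM := by
  classical
  intro p hpf k L M _ _ _ _ _ _ _ _ _ _ _ _ hab S ζ hζ h2S hpS hS hram u u₀ hu hK lam q hgood
    hAb a ha ha1 b₀ hb₀
  have hp : p.Prime := hpf.out
  obtain ⟨w, hw, hwc⟩ := hAb
  have hq := hgood.prime
  have hgw : GoodPrP p k M S w q := by
    refine h2 p k M M S ζ hζ h2S hpS hS hram w q hq hgood.notin hwc ⟨w, ?_, hwc⟩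
    ext x
    exact iff_of_eq (congrArg (fun y => y ∈ w.asIdeal) (RingOfIntegers.ext rfl))
  have hpq : p ∣ q - 1 := (dvd_mul_left p 2).trans hgw.dvd
  have hex : ∀ h : M ≃ₐ[k] M, ∃ b : ℕ,
      (u : 𝓞 M) ^ ((q - 1) / p) - (a : 𝓞 M) ^ b ∈ h • w.asIdeal := by
    intro h
    obtain ⟨b, hb⟩ := exists_exp w hp hq hpq hwc a ha ha1
      (Units.map (MulSemiringAction.toRingHom (M ≃ₐ[k] M) (𝓞 M) h⁻¹ : 𝓞 M →* 𝓞 M) u)
    refine ⟨b, ?_⟩
    rw [Ideal.mem_pointwise_smul_iff_inv_smul_mem, smul_sub, smul_pow', smul_pow']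
    have h3 : h⁻¹ • ((a : ℤ) : 𝓞 M) = (a : 𝓞 M) :=
      map_intCast (MulSemiringAction.toRingHom (M ≃ₐ[k] M) (𝓞 M) h⁻¹) a
    rw [h3]
    exact hb
  choose b hb using hex
  obtain ⟨κ, I, s, hs, he⟩ := hK w q hgw a ha ha1 b hb
  obtain ⟨N, hN1, hN2, hN3⟩ := h1 k L M
  set r : (M ≃ₐ[k] M) →* (L ≃ₐ[k] L) := AlgEquiv.restrictNormalHom L with hr
  have hrs : Function.Surjective r := AlgEquiv.restrictNormalHom_surjective M
  have hNw : N (vJ w) = vJ lam :=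
    (hN2 w lam hw).2 (by rw [hwc, hgood.card])
  have hNh : ∀ h : M ≃ₐ[k] M, N (h • vJ w) = r h • vJ lam := by
    intro h
    rw [hN3 h (r h) (fun x => AlgEquiv.restrictNormal_commutes h L x) (vJ w), hNw]
  have hNs : N s ∈ SJ S L := by
    have h3 : SJ S M ≤ (SJ S L).comap N := by
      unfold SJ
      rw [Subgroup.closure_le]
      rintro _ ⟨v', hv', rfl⟩
      rw [SetLike.mem_coe, Subgroup.mem_comap]
      set v : HeightOneSpectrum (𝓞 L) :=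
        ⟨v'.asIdeal.under (𝓞 L), inferInstance, Ideal.under_ne_bot (𝓞 L) v'.ne_bot⟩ with hv
      obtain ⟨f, hf⟩ := (hN2 v' v rfl).1
      rw [hf]
      apply Subgroup.pow_mem
      apply Subgroup.subset_closure
      refine ⟨v, ?_, rfl⟩
      obtain ⟨ℓ, hℓ, hm⟩ := hv'
      refine ⟨ℓ, hℓ, ?_⟩
      change algebraMap (𝓞 L) (𝓞 M) (ℓ : 𝓞 L) ∈ v'.asIdeal
      rw [map_natCast]
      exact hm
    exact h3 hs
  set B : (L ≃ₐ[k] L) → ℕ := fun h₀ => ∑ g ∈ univ.filter (fun g : M ≃ₐ[k] M => r g = h₀), b g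
    with hB
  have hBc : ∀ h₀ : L ≃ₐ[k] L, b₀ h₀ ≡ B h₀ [MOD p] := by
    intro h₀
    obtain ⟨h, rfl⟩ := hrs h₀
    have h3 := cong w lam hw ((q - 1) / p) a b u u₀ hu hb h
    have h4 := hb₀ (r h)
    have h5 := (r h • lam.asIdeal).sub_mem h3 h4
    have h6 : (a : 𝓞 L) ^ b₀ (r h) - (a : 𝓞 L) ^ B (r h) ∈ r h • lam.asIdeal := by
      convert h5 using 1
      simp only [hB, hr]
      ring
    rw [Ideal.mem_pointwise_smul_iff_inv_smul_mem, smul_sub, smul_pow', smul_pow'] at h6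
    have h7 : (r h)⁻¹ • ((a : ℤ) : 𝓞 L) = (a : 𝓞 L) :=
      map_intCast (MulSemiringAction.toRingHom (L ≃ₐ[k] L) (𝓞 L) (r h)⁻¹) a
    rw [h7] at h6
    exact modEq lam hp hq hgood.card a ha ha1 _ _ h6
  have hBd : ∀ h₀ : L ≃ₐ[k] L, ∃ c : ℤ, (b₀ h₀ : ℤ) = B h₀ + p * c := by
    intro h₀
    obtain ⟨c, hc⟩ := (Nat.modEq_iff_dvd.1 (hBc h₀).symm)
    exact ⟨c, by linarith⟩
  choose c hc using hBd
  have hprod : ∏ h₀ : L ≃ₐ[k] L, (h₀ • vJ lam) ^ B h₀ =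
      prin (Units.map (Algebra.norm L : M →* L) κ) * (N I) ^ p * N s := by
    have h3 := congrArg N he
    rw [map_mul, map_mul, map_pow, hN1, map_prod] at h3
    rw [← h3, ← Finset.prod_fiberwise univ (fun h : M ≃ₐ[k] M => r h)]
    refine Finset.prod_congr rfl (fun h₀ _ => ?_)
    rw [hB]
    simp only
    rw [← Finset.prod_pow_eq_pow_sum]
    refine Finset.prod_congr rfl (fun g hg => ?_)
    rw [map_pow, hNh, (mem_filter.1 hg).2]
  refine ⟨Units.map (Algebra.norm L : M →* L) κ,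
    N I * ∏ h₀ : L ≃ₐ[k] L, (h₀ • vJ lam) ^ c h₀, N s, hNs, ?_⟩
  have h3 : ∏ h₀ : L ≃ₐ[k] L, (h₀ • vJ lam) ^ b₀ h₀ =
      (∏ h₀ : L ≃ₐ[k] L, (h₀ • vJ lam) ^ B h₀) *
        (∏ h₀ : L ≃ₐ[k] L, (h₀ • vJ lam) ^ c h₀) ^ p := by
    rw [← Finset.prod_pow, ← Finset.prod_mul_distrib]
    refine Finset.prod_congr rfl (fun h₀ _ => ?_)
    rw [← zpow_natCast, hc h₀, zpow_add, zpow_natCast, mul_comm (p : ℤ) (c h₀), zpow_mul,
      zpow_natCast]
  rw [h3, hprod, mul_pow]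
  exact mul_right_comm _ _ _ |>.trans (by rw [mul_assoc (prin _) (N I ^ p) _])

end Pool.Agent.MUXK
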