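import Pool.Agent.MUX.StKX
import Pool.Agent.MU3.P_UNI
import Pool.Agent.MU3.P_MONO

/-!
# MUX, block K: module KOLX (helper42)
-/

set_option autoImplicit false

open NumberField IsDedekindDomain Finset Filter Topology
open scoped nonZeroDivisors Pointwise

namespace Pool.Agent.MUXK

open Pool.Agent.MU3 Pool.Agent.RI Pool.Agent.RID Pool.Agent.Lib_helper28.FROB

namespace K_KOLX

/-- The inputs for a larger set of primes. -/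
theorem kol_mono {p : ℕ} {k L : Type} [Field k] [NumberField k] [Field L] [NumberField L]
    [Algebra k L] {Gs : Set (L ≃ₐ[k] L)} {S S' : Finset ℕ} (h : S ⊆ S') {c : L}
    (hK : KolInP p k L Gs S c) : KolInP p k L Gs S' c := by
  intro lam q hq
  obtain ⟨F, i1, i2, i3, i4, i5, hG, hc, hf, hu, hr, z, hz, hn, hv⟩ := hK lam q
    { prime := hq.prime
      notin := fun hS => hq.notin (h hS)
      dvd := hq.dvd
      card := hq.card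
      free := hq.free }
  exact ⟨F, i1, i2, i3, i4, i5, hG, hc, hf, fun w hw => hu w (P_MONO.above h hw), hr, z,
    P_MONO.su h hz, hn, hv⟩

/-- The norm commutes with compatible automorphisms. -/
theorem norm_comp {k L M : Type} [Field k] [Field L] [Field M] [Algebra k L] [Algebra L M]
    [Algebra k M] [IsScalarTower k L M] [FiniteDimensional L M] [IsGalois L M]
    (comm : ∀ σ τ : M ≃ₐ[k] M, σ * τ = τ * σ) (g : L ≃ₐ[k] L) (g' : M ≃ₐ[k] M)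
    (hg : ∀ x : L, algebraMap L M (g x) = g' (algebraMap L M x)) (x : M) :
    Algebra.norm L (g' x) = g (Algebra.norm L x) := by
  apply (algebraMap L M).injective
  rw [hg, Algebra.norm_eq_prod_automorphisms, Algebra.norm_eq_prod_automorphisms, map_prod]
  refine Finset.prod_congr rfl fun σ _ => ?_
  have h1 := congrArg (fun τ : M ≃ₐ[k] M => τ x) (comm (σ.restrictScalars k) g')
  simpa using h1

theorem norm_comp_pow {k L M : Type} [Field k] [Field L] [Field M] [Algebra k L] [Algebra L M]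
    [Algebra k M] [IsScalarTower k L M] [FiniteDimensional L M] [IsGalois L M]
    (comm : ∀ σ τ : M ≃ₐ[k] M, σ * τ = τ * σ) (g : L ≃ₐ[k] L) (g' : M ≃ₐ[k] M)
    (hg : ∀ x : L, algebraMap L M (g x) = g' (algebraMap L M x)) (x : M) (j : ℕ) :
    Algebra.norm L ((g' ^ j) x) = (g ^ j) (Algebra.norm L x) := by
  induction j with
  | zero => simp
  | succ j ih =>
    rw [pow_succ', pow_succ', AlgEquiv.mul_apply, AlgEquiv.mul_apply, norm_comp comm g g' hg, ih]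

end K_KOLX

open K_KOLX in
theorem t_KOLX (h1 : S_KINX) (h2 : S_KNM) (h3 : S_GALX) (h4 : S_RAMX) : S_KOLX := by
  intro F _ p _ k K₀ K B _ _ _ _ hS
  obtain ⟨S', h2S', hpS', hS'p, hram⟩ := h4 p k K B hS.b
  refine ⟨S', h2S', hpS', hS'p, ?_⟩
  intro hk hk₀ hh hkK S c c₀ n₁ hI S₁ hSS hS₁p n hn
  let : Algebra k ↥(K ⊔ B n) := algC (hk n)
  let : Algebra k ↥(K₀ ⊔ B n) := algC (hk₀ n)
  let : Algebra ↥(K₀ ⊔ B n) ↥(K ⊔ B n) := algC (hh n)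
  intro g g' hg'K hgg' hfix u hu
  have tower : IsScalarTower k ↥(K₀ ⊔ B n) ↥(K ⊔ B n) := IsScalarTower.of_algebraMap_eq (fun x => rfl)
  have fdK₀ : FiniteDimensional ℚ ↥K₀ :=
    FiniteDimensional.of_injective (IntermediateField.inclusion hS.le).toLinearMap
      (IntermediateField.inclusion_injective hS.le)
  obtain ⟨galM, commM⟩ := h3 p k K B hS.b n (hk n)
  obtain ⟨galL, commL⟩ := h3 p k K₀ B hS.b0 n (hk₀ n)
  have hp : p.Prime := Fact.out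
  have hsub : S ⊆ S₁ := Finset.subset_union_left.trans hSS
  have hsub' : S' ⊆ S₁ := Finset.subset_union_right.trans hSS
  have hcn : (⟨c n, hI.mem n⟩ : ↥(K ⊔ B n)) ≠ 0 := by
    intro h0
    exact hI.ne n (congrArg Subtype.val h0)
  have su1 : SU S₁ ↥(K ⊔ B n) ⟨c n, hI.mem n⟩ := P_MONO.su hsub (hI.su n hn)
  have kol1 := kol_mono hsub (hI.kol n hn)
  obtain ⟨u', hu'⟩ := t_UNI k ↥(K ⊔ B n) S₁ ⟨c n, hI.mem n⟩ hcn su1 g' hfix p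
  have hrel := h1 p k ↥(K ⊔ B n) commM S₁ (hsub' hpS') ⟨c n, hI.mem n⟩ hcn su1 _ kol1 g' hg'K
    hfix u' hu'
  have galLM : IsGalois ↥(K₀ ⊔ B n) ↥(K ⊔ B n) :=
    IsGalois.tower_top_of_isGalois k ↥(K₀ ⊔ B n) ↥(K ⊔ B n)
  have fdLM : FiniteDimensional ↥(K₀ ⊔ B n) ↥(K ⊔ B n) := inferInstance
  have hgg : ∀ x : ↥(K₀ ⊔ B n), algebraMap ↥(K₀ ⊔ B n) ↥(K ⊔ B n) (g x) =
      g' (algebraMap ↥(K₀ ⊔ B n) ↥(K ⊔ B n) x) := fun x => Subtype.ext (hgg' x).symm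
  have hnorm : Algebra.norm ↥(K₀ ⊔ B n) (⟨c n, hI.mem n⟩ : ↥(K ⊔ B n)) = ⟨c₀ n, hI.mem₀ n⟩ := by
    apply (algebraMap ↥(K₀ ⊔ B n) ↥(K ⊔ B n)).injective
    rw [Algebra.norm_eq_prod_automorphisms]
    apply Subtype.ext
    have e1 : ((algebraMap ↥(K₀ ⊔ B n) ↥(K ⊔ B n) ⟨c₀ n, hI.mem₀ n⟩ : ↥(K ⊔ B n)) : ℂ) = c₀ n := rfl
    have e2 : ((∏ σ : ↥(K ⊔ B n) ≃ₐ[↥(K₀ ⊔ B n)] ↥(K ⊔ B n), σ ⟨c n, hI.mem n⟩ : ↥(K ⊔ B n)) : ℂ) =
        ∏ σ : ↥(K ⊔ B n) ≃ₐ[↥(K₀ ⊔ B n)] ↥(K ⊔ B n), ((σ ⟨c n, hI.mem n⟩ : ↥(K ⊔ B n)) : ℂ) :=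
      map_prod (algebraMap ↥(K ⊔ B n) ℂ) _ _
    rw [e1, e2, hI.norm n, ← finprod_eq_prod_of_fintype]
    refine finprod_eq_of_bijective
      (fun σ => ⟨σ.restrictScalars k, fun x hx => σ.commutes ⟨(x : ℂ), hx⟩⟩) ⟨?_, ?_⟩ fun σ => rfl
    · intro σ τ h
      have h5 := congrArg (fun θ : NC (hk n) (K₀ ⊔ B n) => (θ : ↥(K ⊔ B n) ≃ₐ[k] ↥(K ⊔ B n))) h
      ext x
      have h6 := congrArg (fun θ : ↥(K ⊔ B n) ≃ₐ[k] ↥(K ⊔ B n) => ((θ x : ↥(K ⊔ B n)) : ℂ)) h5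
      exact h6
    · intro θ
      refine ⟨AlgEquiv.ofRingEquiv (f := ((θ : ↥(K ⊔ B n) ≃ₐ[k] ↥(K ⊔ B n)) : ↥(K ⊔ B n) ≃+* ↥(K ⊔ B n)))
        (fun y => θ.2 _ y.2), ?_⟩
      apply Subtype.ext
      ext x
      rfl
  have hnu : ((u : 𝓞 ↥(K₀ ⊔ B n)) : ↥(K₀ ⊔ B n)) =
      Algebra.norm ↥(K₀ ⊔ B n) ((u' : 𝓞 ↥(K ⊔ B n)) : ↥(K ⊔ B n)) := by
    have hc0 : (⟨c₀ n, hI.mem₀ n⟩ : ↥(K₀ ⊔ B n)) ≠ 0 := by
      rw [← hnorm]
      exact Algebra.norm_ne_zero_iff.2 hcn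
    rw [hu, div_eq_iff hc0, ← hnorm, ← norm_comp_pow commM g g' hgg, ← map_mul, hu',
      div_mul_cancel₀ _ hcn]
  obtain ⟨ζ, hζK, hζ⟩ := hS.ze
  have hζL : ζ ∈ K ⊔ B n := (le_sup_left : K ≤ K ⊔ B n) hζK
  have h2p : NeZero (2 * p) := ⟨by have := hp.pos; omega⟩
  have hζ' : IsPrimitiveRoot (⟨ζ, hζL⟩ : ↥(K ⊔ B n)) (2 * p) := by
    refine IsPrimitiveRoot.of_map_of_injective (f := algebraMap ↥(K ⊔ B n) ℂ) ?_ ?_
    · exact hζ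
    · exact (algebraMap ↥(K ⊔ B n) ℂ).injective
  exact h2 p k ↥(K₀ ⊔ B n) ↥(K ⊔ B n) commM S₁ hζ'.toInteger hζ'.toInteger_isPrimitiveRoot
    (hsub' h2S') (hsub' hpS') hS₁p (hram S₁ hsub' n (hk n)) u' u hnu hrel

end Pool.Agent.MUXK
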