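import Pool.Agent.MUX.StKX

/-!
# MUX, block K: Kummer extensions of prime degree, `S_KUMX`
-/

set_option autoImplicit false

open NumberField IsDedekindDomain Ideal Filter Topology
open scoped nonZeroDivisors Pointwise

namespace Pool.Agent.MUXK

open Pool.Agent.MU3 Pool.Agent.RI Pool.Agent.RID Pool.Agent.Lib_helper28.FROB

namespace KUM

variable {L M : Type} [Field L] [NumberField L] [Field M] [NumberField M] [Algebra L M]
  [IsGalois L M]

/-- a conjugate of `y` is `ξ y` with a nontrivial root of unity `ξ` of `L` -/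
theorem conj_eq {p : ℕ} (hp : p.Prime) {ζ t : 𝓞 L} (hζ : IsPrimitiveRoot ζ p) {y : 𝓞 M}
    (hy : y ^ p = algebraMap (𝓞 L) (𝓞 M) t) {σ : Gal(M/L)} (hσ : σ • y ≠ y) :
    ∃ ξ : 𝓞 L, ξ ^ p = 1 ∧ ξ ≠ 1 ∧ σ • y = algebraMap (𝓞 L) (𝓞 M) ξ * y := by
  have hz : IsPrimitiveRoot (algebraMap (𝓞 L) (𝓞 M) ζ) p :=
    hζ.map_of_injective (FaithfulSMul.algebraMap_injective (𝓞 L) (𝓞 M))
  have h1 : (σ • y) ^ p - y ^ p = 0 := by
    rw [← smul_pow', hy, smul_algebraMap, sub_self]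
  rw [hz.pow_sub_pow_eq_prod_sub_mul _ _ hp.pos, Finset.prod_eq_zero_iff] at h1
  obtain ⟨x, hx, h2⟩ := h1
  rw [Polynomial.mem_nthRootsFinset hp.pos] at hx
  have : NeZero p := ⟨hp.ne_zero⟩
  obtain ⟨i, -, hi⟩ := hz.eq_pow_of_pow_eq_one hx
  have h3 : σ • y = algebraMap (𝓞 L) (𝓞 M) (ζ ^ i) * y := by
    rw [map_pow, hi]
    exact sub_eq_zero.1 h2
  refine ⟨ζ ^ i, by rw [← pow_mul, mul_comm, pow_mul, hζ.pow_eq_one, one_pow], ?_, h3⟩
  intro h
  rw [h, map_one, one_mul] at h3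
  exact hσ h3

/-- a nontrivial `p`-th root of unity `ξ`: `1 - ξ` divides `p` -/
theorem dvd_p {R : Type} [CommRing R] [IsDomain R] {p : ℕ} {ξ : R} (h1 : ξ ^ p = 1) (h2 : ξ ≠ 1) :
    (1 - ξ) ∣ (p : R) := by
  have h3 : ∑ i ∈ Finset.range p, ξ ^ i = 0 := by
    have h := mul_geom_sum ξ p
    rw [h1, sub_self] at h
    rcases mul_eq_zero.1 h with h | h
    · exact absurd (sub_eq_zero.1 h) h2
    · exact h
  have h4 : (p : R) = ∑ i ∈ Finset.range p, (1 - ξ ^ i) := by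
    rw [Finset.sum_sub_distrib, h3, sub_zero]
    simp
  rw [h4]
  exact Finset.dvd_sum fun i _ => one_sub_dvd_one_sub_pow ξ i

/-- No prime above `v` is stable under `σ`. -/
theorem not_stable {p : ℕ} (hp : p.Prime) {ζ t : 𝓞 L} (hζ : IsPrimitiveRoot ζ p) {y : 𝓞 M}
    (hy : y ^ p = algebraMap (𝓞 L) (𝓞 M) t) {σ : Gal(M/L)} (hσ : σ • y ≠ y)
    {v : Ideal (𝓞 L)} (hv : v.IsPrime) (h3 : (p : 𝓞 L) ∉ v) (ht : t ∉ v) {a : 𝓞 L}
    (ha : t - a ^ p ∈ v) {w : Ideal (𝓞 M)} (hw : w.IsPrime) (hwv : w.LiesOver v) :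
    σ • w ≠ w := by
  intro hst
  have hav : a ∉ v := by
    intro h
    apply ht
    have : t = (t - a ^ p) + a ^ p := by ring
    rw [this]
    exact v.add_mem ha (v.pow_mem_of_mem h p hp.pos)
  have hz : IsPrimitiveRoot (algebraMap (𝓞 L) (𝓞 M) ζ) p :=
    hζ.map_of_injective (FaithfulSMul.algebraMap_injective (𝓞 L) (𝓞 M))
  -- `w` contains a factor
  have hmem : ∀ b : 𝓞 L, algebraMap (𝓞 L) (𝓞 M) b ∈ w ↔ b ∈ v := by
    intro b
    rw [hwv.over]
    exact Iff.rfl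
  have hfac : ∃ i : ℕ, y - algebraMap (𝓞 L) (𝓞 M) (ζ ^ i * a) ∈ w := by
    have e1 : algebraMap (𝓞 L) (𝓞 M) (t - a ^ p) ∈ w := (hmem _).2 ha
    rw [map_sub, ← hy, map_pow, hz.pow_sub_pow_eq_prod_sub_mul _ _ hp.pos,
      Ideal.IsPrime.prod_mem_iff] at e1
    obtain ⟨x, hx, h2⟩ := e1
    rw [Polynomial.mem_nthRootsFinset hp.pos] at hx
    have : NeZero p := ⟨hp.ne_zero⟩
    obtain ⟨i, -, hi⟩ := hz.eq_pow_of_pow_eq_one hx
    refine ⟨i, ?_⟩
    rw [map_mul, map_pow, hi]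
    exact h2
  obtain ⟨i, hi⟩ := hfac
  obtain ⟨ξ, hξp, hξ1, hσy⟩ := conj_eq hp hζ hy hσ
  have h4 : σ • (y - algebraMap (𝓞 L) (𝓞 M) (ζ ^ i * a)) ∈ w := by
    rw [← hst]
    exact Ideal.smul_mem_pointwise_smul σ _ w hi
  rw [smul_sub, smul_algebraMap, hσy] at h4
  have h5 : algebraMap (𝓞 L) (𝓞 M) ((1 - ξ) * (ζ ^ i * a)) ∈ w := by
    have e : algebraMap (𝓞 L) (𝓞 M) ((1 - ξ) * (ζ ^ i * a)) =
        algebraMap (𝓞 L) (𝓞 M) ξ * (y - algebraMap (𝓞 L) (𝓞 M) (ζ ^ i * a)) -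
        (algebraMap (𝓞 L) (𝓞 M) ξ * y - algebraMap (𝓞 L) (𝓞 M) (ζ ^ i * a)) := by
      simp only [map_mul, map_sub, map_one]
      ring
    rw [e]
    exact w.sub_mem (w.mul_mem_left _ hi) h4
  have h6 : (1 - ξ) * (ζ ^ i * a) ∈ v := (hmem _).1 h5
  have h7 : (p : 𝓞 L) * (ζ ^ i * a) ∈ v := by
    obtain ⟨q, hq⟩ := dvd_p hξp hξ1
    rw [hq, mul_comm (1 - ξ) q, mul_assoc]
    exact v.mul_mem_left _ h6
  rcases hv.mem_or_mem h7 with h | h
  · exact h3 h
  · rcases hv.mem_or_mem h with h | h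
    · have h8 := hv.mem_of_pow_mem _ h
      have h9 : (1 : 𝓞 L) ∈ v := by
        rw [← hζ.pow_eq_one]
        exact v.pow_mem_of_mem h8 p hp.pos
      exact hv.ne_top ((Ideal.eq_top_iff_one v).2 h9)
    · exact hav h

omit [IsGalois L M] in
/-- the relative form of the degree -/
theorem norm_of_deg_one {v : Ideal (𝓞 L)} (hv : v.IsPrime) (hv0 : v ≠ ⊥)
    {w : Ideal (𝓞 M)} (hw : w.IsPrime) (hwv : w.LiesOver v) (hd : w.inertiaDeg (𝓞 L) = 1) :
    absNorm w = absNorm v := by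
  have hvm : v.IsMaximal := hv.isMaximal hv0
  have hwm : w.IsMaximal := IsMaximal.of_liesOver_isMaximal w v
  rw [absNorm_eq_pow_inertiaDeg'_of_liesOver w v hv hv0, inertiaDeg'_eq_inertiaDeg v w, hd, pow_one]

theorem spl_ge {p : ℕ} (hp : p.Prime) {ζ t : 𝓞 L} (hζ : IsPrimitiveRoot ζ p)
    (hcard : Nat.card Gal(M/L) = p) {y : 𝓞 M}
    (hy : y ^ p = algebraMap (𝓞 L) (𝓞 M) t) {σ : Gal(M/L)} (hσ : σ • y ≠ y)
    (v : HeightOneSpectrum (𝓞 L)) (h3 : (p : 𝓞 L) ∉ v.asIdeal) (ht : t ∉ v.asIdeal) {a : 𝓞 L}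
    (ha : t - a ^ p ∈ v.asIdeal) : p ≤ spl L M v := by
  have hvp := v.isPrime
  have hvb := v.ne_bot
  have hG : Finite Gal(M/L) := Nat.finite_of_card_ne_zero (by rw [hcard]; exact hp.ne_zero)
  have hid := ncard_primesOver_mul_ramificationIdxIn_mul_inertiaDegIn v.asIdeal (𝓞 M) Gal(M/L)
  rw [hcard] at hid
  obtain ⟨⟨w, hw, hwv⟩⟩ := (inferInstance : Nonempty (primesOver v.asIdeal (𝓞 M)))
  have hfin : (primesOver v.asIdeal (𝓞 M)).Finite := by
    apply Set.finite_of_ncard_ne_zero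
    intro h
    rw [h, zero_mul] at hid
    exact hp.ne_zero hid.symm
  have h2 : 1 < (primesOver v.asIdeal (𝓞 M)).ncard := by
    rw [Set.one_lt_ncard hfin]
    exact ⟨σ • w, ⟨inferInstance, inferInstance⟩, w, ⟨hw, hwv⟩,
      not_stable hp hζ hy hσ hvp h3 ht ha hw hwv⟩
  have h5 : (primesOver v.asIdeal (𝓞 M)).ncard = p ∧ inertiaDegIn v.asIdeal (𝓞 M) = 1 := by
    have hdvd : (primesOver v.asIdeal (𝓞 M)).ncard ∣ p := Dvd.intro _ hid
    rcases (Nat.dvd_prime hp).1 hdvd with h | h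
    · omega
    · refine ⟨h, ?_⟩
      rw [h] at hid
      have h6 : ramificationIdxIn v.asIdeal (𝓞 M) * inertiaDegIn v.asIdeal (𝓞 M) = 1 :=
        Nat.eq_of_mul_eq_mul_left hp.pos (by rw [hid, mul_one])
      exact Nat.eq_one_of_mul_eq_one_left h6
  have hnorm : ∀ P : primesOver v.asIdeal (𝓞 M), absNorm P.1 = absNorm v.asIdeal := by
    rintro ⟨P, hP, hPv⟩
    apply norm_of_deg_one hvp hvb hP hPv
    rw [← inertiaDegIn_eq_inertiaDeg v.asIdeal P Gal(M/L)]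
    exact h5.2
  have hbot : ∀ P : primesOver v.asIdeal (𝓞 M), P.1 ≠ ⊥ := by
    intro P h
    have h6 := hnorm P
    rw [h, absNorm_bot] at h6
    exact hvb (absNorm_eq_zero_iff.1 h6.symm)
  let f : primesOver v.asIdeal (𝓞 M) → {w : HeightOneSpectrum (𝓞 M) //
      w.asIdeal.under (𝓞 L) = v.asIdeal ∧ absNorm w.asIdeal = absNorm v.asIdeal} :=
    fun P => ⟨⟨P.1, P.2.1, hbot P⟩, P.2.2.over.symm, hnorm P⟩
  have hf : Function.Bijective f := by
    constructor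
    · intro P Q h
      have h6 := congrArg (fun z => z.1.asIdeal) h
      exact Subtype.ext h6
    · rintro ⟨Q, hQ1, hQ2⟩
      exact ⟨⟨Q.asIdeal, Q.isPrime, ⟨hQ1.symm⟩⟩, rfl⟩
  unfold spl
  rw [← Nat.card_eq_of_bijective f hf]
  have h7 : Nat.card (primesOver v.asIdeal (𝓞 M)) = (primesOver v.asIdeal (𝓞 M)).ncard := rfl
  rw [h7, h5.1]

end KUM

open Polynomial in
theorem t_KUMX : S_KUMX := by
  intro p hpf L _ _ ζ t hζ ht
  have hp : p.Prime := hpf.out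
  have hirr : Irreducible (X ^ p - C (t : L)) :=
    X_pow_sub_C_irreducible_of_prime hp (fun b => ht b)
  have hfact : Fact (Irreducible (X ^ p - C (t : L))) := ⟨hirr⟩
  have hζL : IsPrimitiveRoot (ζ : L) p := hζ.map_of_injective (RingOfIntegers.coe_injective)
  have hprim : (primitiveRoots p L).Nonempty :=
    ⟨(ζ : L), (mem_primitiveRoots hp.pos).2 hζL⟩
  have hchar : CharZero (AdjoinRoot (X ^ p - C (t : L))) :=
    charZero_of_injective_algebraMap (algebraMap L (AdjoinRoot (X ^ p - C (t : L)))).injective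
  have hfd : FiniteDimensional L (AdjoinRoot (X ^ p - C (t : L))) :=
    (AdjoinRoot.powerBasis hirr.ne_zero).finite
  have hfdQ : FiniteDimensional ℚ (AdjoinRoot (X ^ p - C (t : L))) :=
    FiniteDimensional.trans ℚ L _
  have hnf : NumberField (AdjoinRoot (X ^ p - C (t : L))) := ⟨⟩
  have hsf := isSplittingField_AdjoinRoot_X_pow_sub_C hprim hirr
  have hgal : IsGalois L (AdjoinRoot (X ^ p - C (t : L))) :=
    isGalois_of_isSplittingField_X_pow_sub_C hprim hirr _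
  have hrank : Module.finrank L (AdjoinRoot (X ^ p - C (t : L))) = p :=
    finrank_of_isSplittingField_X_pow_sub_C hprim hirr _
  have hcard : Nat.card Gal((AdjoinRoot (X ^ p - C (t : L)))/L) = p := by
    rw [IsGalois.card_aut_eq_finrank, hrank]
  have hroot : (AdjoinRoot.root (X ^ p - C (t : L))) ^ p =
      algebraMap L (AdjoinRoot (X ^ p - C (t : L))) (t : L) := by
    have h := AdjoinRoot.eval₂_root (X ^ p - C (t : L))
    simp only [eval₂_sub, eval₂_pow, eval₂_X, eval₂_C] at h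
    exact sub_eq_zero.1 h
  have hint : IsIntegral ℤ (AdjoinRoot.root (X ^ p - C (t : L))) := by
    apply IsIntegral.of_pow (n := p) hp.pos
    rw [hroot]
    exact (RingOfIntegers.isIntegral_coe t).map
      (algebraMap L (AdjoinRoot (X ^ p - C (t : L)))).toIntAlgHom
  obtain ⟨y, hy⟩ : ∃ y : 𝓞 (AdjoinRoot (X ^ p - C (t : L))),
      algebraMap (𝓞 (AdjoinRoot (X ^ p - C (t : L)))) (AdjoinRoot (X ^ p - C (t : L))) y =
        AdjoinRoot.root (X ^ p - C (t : L)) :=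
    ⟨⟨_, hint⟩, rfl⟩
  have hy3 : y ^ p = algebraMap (𝓞 L) (𝓞 (AdjoinRoot (X ^ p - C (t : L)))) t := by
    apply RingOfIntegers.coe_injective
    rw [map_pow, hy, hroot]
    rfl
  have hσ : ∃ σ : Gal((AdjoinRoot (X ^ p - C (t : L)))/L), σ • y ≠ y := by
    by_contra h
    push Not at h
    have hsub : Subsingleton Gal((AdjoinRoot (X ^ p - C (t : L)))/L) := by
      constructor
      intro σ τ
      apply AlgEquiv.coe_toAlgHom_injective
      apply AdjoinRoot.algHom_ext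
      have h1 := congrArg (algebraMap (𝓞 (AdjoinRoot (X ^ p - C (t : L))))
        (AdjoinRoot (X ^ p - C (t : L)))) (h σ)
      have h2 := congrArg (algebraMap (𝓞 (AdjoinRoot (X ^ p - C (t : L))))
        (AdjoinRoot (X ^ p - C (t : L)))) (h τ)
      have h3 : σ (AdjoinRoot.root (X ^ p - C (t : L))) = AdjoinRoot.root (X ^ p - C (t : L)) := by
        rw [← hy]
        exact h1
      have h4 : τ (AdjoinRoot.root (X ^ p - C (t : L))) = AdjoinRoot.root (X ^ p - C (t : L)) := by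
        rw [← hy]
        exact h2
      exact h3.trans h4.symm
    have := Nat.card_of_subsingleton (1 : Gal((AdjoinRoot (X ^ p - C (t : L)))/L))
    rw [hcard] at this
    exact hp.one_lt.ne' this
  obtain ⟨σ, hσ⟩ := hσ
  refine ⟨AdjoinRoot (X ^ p - C (t : L)), inferInstance, hnf, inferInstance, ?_⟩
  rintro v h3 htv ⟨a, ha⟩
  exact KUM.spl_ge hp hζ hcard hy3 hσ v h3 htv ha

end Pool.Agent.MUXK
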