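import Pool.Agent.MUX.StKX
import Pool.Agent.RID.P_GCC
import Pool.Agent.RI.LAY

/-!
# MUX, block K, module LFX: an automorphism of `K₀_n / k` trivial on `K₀` lifts to one of `K_n / k`
trivial on `K`
-/

set_option autoImplicit false

open NumberField IsDedekindDomain Finset
open scoped nonZeroDivisors Pointwise

namespace Pool.Agent.MUXK

open Pool.Agent.MU3 Pool.Agent.RI Pool.Agent.RID

namespace LFX

/-- Two homomorphisms of `K M` that agree on `K` and on `M`. -/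
lemma agree {K M : IntermediateField ℚ ℂ} (f g : ↥(K ⊔ M) →+* ℂ)
    (h1 : ∀ x : ↥(K ⊔ M), (x : ℂ) ∈ K → f x = g x)
    (h2 : ∀ x : ↥(K ⊔ M), (x : ℂ) ∈ M → f x = g x) (x : ↥(K ⊔ M)) : f x = g x := by
  have hML : M ≤ K ⊔ M := le_sup_right
  have hKL : K ≤ K ⊔ M := le_sup_left
  let S : IntermediateField ℚ ℂ :=
    { carrier := {z | ∃ hz : z ∈ K ⊔ M, f ⟨z, hz⟩ = g ⟨z, hz⟩}
      mul_mem' := by
        rintro u v ⟨hu, hu'⟩ ⟨hv, hv'⟩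
        refine ⟨mul_mem hu hv, ?_⟩
        have : (⟨u * v, mul_mem hu hv⟩ : ↥(K ⊔ M)) = ⟨u, hu⟩ * ⟨v, hv⟩ := rfl
        rw [this, map_mul, map_mul, hu', hv']
      add_mem' := by
        rintro u v ⟨hu, hu'⟩ ⟨hv, hv'⟩
        refine ⟨add_mem hu hv, ?_⟩
        have : (⟨u + v, add_mem hu hv⟩ : ↥(K ⊔ M)) = ⟨u, hu⟩ + ⟨v, hv⟩ := rfl
        rw [this, map_add, map_add, hu', hv']
      algebraMap_mem' := by
        intro r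
        refine ⟨IntermediateField.algebraMap_mem _ r, ?_⟩
        exact h1 _ (IntermediateField.algebraMap_mem K r)
      inv_mem' := by
        rintro u ⟨hu, hu'⟩
        refine ⟨inv_mem hu, ?_⟩
        have : (⟨u⁻¹, inv_mem hu⟩ : ↥(K ⊔ M)) = (⟨u, hu⟩ : ↥(K ⊔ M))⁻¹ := rfl
        rw [this, map_inv₀, map_inv₀, hu'] }
  have hKS : K ≤ S := fun z hz => ⟨hKL hz, h1 ⟨z, hKL hz⟩ hz⟩
  have hMS : M ≤ S := fun z hz => ⟨hML hz, h2 ⟨z, hML hz⟩ hz⟩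
  have hLS : K ⊔ M ≤ S := sup_le hKS hMS
  obtain ⟨_, hx⟩ := hLS x.2
  exact hx

/-- Restriction of automorphisms of `K B / k` to the normal extension `B / ℚ`. -/
lemma res {k K B : IntermediateField ℚ ℂ} [Normal ℚ B] (h : k ≤ K ⊔ B) :
    letI := algC h
    ∃ ρ : (↥(K ⊔ B) ≃ₐ[k] ↥(K ⊔ B)) →* (B ≃ₐ[ℚ] B),
      ∀ (σ : ↥(K ⊔ B) ≃ₐ[k] ↥(K ⊔ B)) (x : B) (hx : (x : ℂ) ∈ K ⊔ B),
        ((ρ σ x : B) : ℂ) = (σ ⟨x, hx⟩ : ↥(K ⊔ B)) := by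
  let aL : Algebra k ↥(K ⊔ B) := algC h
  let aBL : Algebra B ↥(K ⊔ B) := algC (le_sup_right : B ≤ K ⊔ B)
  have t1 : IsScalarTower ℚ B ↥(K ⊔ B) := IsScalarTower.of_algebraMap_eq (fun _ => rfl)
  have t2 : IsScalarTower ℚ k ↥(K ⊔ B) := IsScalarTower.of_algebraMap_eq (fun _ => rfl)
  refine ⟨(AlgEquiv.restrictNormalHom (F := ℚ) (K₁ := ↥(K ⊔ B)) ↥B).comp
    (AlgEquiv.restrictScalarsHom ℚ : (↥(K ⊔ B) ≃ₐ[k] ↥(K ⊔ B)) →* _), fun σ x hx => ?_⟩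
  have h2 := AlgEquiv.restrictNormal_commutes (AlgEquiv.restrictScalars ℚ σ :
    ↥(K ⊔ B) ≃ₐ[ℚ] ↥(K ⊔ B)) ↥B x
  exact congrArg Subtype.val h2

end LFX

open LFX in
theorem t_LFX (h1 : S_GENX) : S_LFX := by
  intro p _ k K₀ K B _ _ hB₀ hB hle n h h₀ hh
  let aL : Algebra k ↥(K ⊔ B n) := algC h
  let aL₀ : Algebra k ↥(K₀ ⊔ B n) := algC h₀
  intro γ hγ
  obtain ⟨g, hg1, hg2, -⟩ := h1 p k K B hB.hk hB.deg hB.lay hB.mono n h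
  obtain ⟨hfB, hGB, -⟩ := LAY_thm p n (B n) (hB.lay n)
  obtain ⟨ρ, hρ⟩ := res (B := B n) h
  obtain ⟨ρ₀, hρ₀⟩ := res (B := B n) h₀
  have hcard : Nat.card (↥(B n) ≃ₐ[ℚ] ↥(B n)) = p ^ n := by
    rw [IsGalois.card_aut_eq_finrank]
    exact (hB.lay n).1
  have hdvd : p ^ n ∣ orderOf (ρ g) := by
    rw [← hg1]
    apply orderOf_dvd_of_pow_eq_one
    apply GCC.triv h
    · intro x hx
      have h3 : g x = x := (hg2 x).2 hx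
      have h4 : ∀ i : ℕ, (g ^ i) x = x := by
        intro i
        induction i with
        | zero => rfl
        | succ i ih => rw [pow_succ, AlgEquiv.mul_apply, h3, ih]
      exact h4 _
    · intro x hx
      apply Subtype.ext
      have h3 := hρ (g ^ orderOf (ρ g)) ⟨x, hx⟩ x.2
      rw [map_pow, pow_orderOf_eq_one] at h3
      exact h3.symm
  have hord : orderOf (ρ g) = p ^ n :=
    Nat.dvd_antisymm (by rw [← hcard]; exact orderOf_dvd_natCard (ρ g)) hdvd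
  have hfin : Finite (↥(B n) ≃ₐ[ℚ] ↥(B n)) := inferInstance
  have htop : Subgroup.zpowers (ρ g) = ⊤ := by
    apply Subgroup.eq_top_of_card_eq
    rw [Nat.card_zpowers, hord, hcard]
  have hmem : ρ₀ γ ∈ Subgroup.zpowers (ρ g) := by rw [htop]; exact Subgroup.mem_top _
  obtain ⟨i, hi⟩ := Subgroup.mem_zpowers_iff.1 hmem
  have hgi : ∀ x : ↥(K ⊔ B n), (x : ℂ) ∈ K → (g ^ i) x = x := by
    intro x hx
    have h3 : g ∈ NC h K := fun y hy => (hg2 y).2 hy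
    exact (Subgroup.zpow_mem (NC h K) h3 i) x hx
  refine ⟨g ^ i, hgi, fun x => ?_⟩
  let f₁ : ↥(K₀ ⊔ B n) →+* ℂ := (algebraMap ↥(K ⊔ B n) ℂ).comp
    (((g ^ i : ↥(K ⊔ B n) ≃ₐ[k] ↥(K ⊔ B n)) : ↥(K ⊔ B n) →+* ↥(K ⊔ B n)).comp
      (IntermediateField.inclusion hh : ↥(K₀ ⊔ B n) →+* ↥(K ⊔ B n)))
  let f₂ : ↥(K₀ ⊔ B n) →+* ℂ := (algebraMap ↥(K₀ ⊔ B n) ℂ).comp
    ((γ : ↥(K₀ ⊔ B n) ≃ₐ[k] ↥(K₀ ⊔ B n)) : ↥(K₀ ⊔ B n) →+* ↥(K₀ ⊔ B n))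
  have key := agree f₁ f₂ ?_ ?_ x
  · exact key
  · intro y hy
    show (((g ^ i) ⟨y, hh y.2⟩ : ↥(K ⊔ B n)) : ℂ) = ((γ y : ↥(K₀ ⊔ B n)) : ℂ)
    rw [hgi ⟨y, hh y.2⟩ (hle hy), hγ y hy]
  · intro y hy
    show (((g ^ i) ⟨y, hh y.2⟩ : ↥(K ⊔ B n)) : ℂ) = ((γ y : ↥(K₀ ⊔ B n)) : ℂ)
    have e1 := hρ (g ^ i) ⟨y, hy⟩ (hh y.2)
    have e2 := hρ₀ γ ⟨y, hy⟩ y.2
    rw [map_zpow, hi] at e1
    exact e1.symm.trans e2

end Pool.Agent.MUXK
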