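import Pool.Agent.MUX.StKX
import Pool.Agent.MU3.P_M0

/-!
# MUX, block K, module M0X (helper72): a bounded power fixes all primes above `S`
-/

set_option autoImplicit false

open NumberField IsDedekindDomain
open scoped nonZeroDivisors Pointwise

namespace Pool.Agent.MUXK

open Pool.Agent.MU3 Pool.Agent.RI

namespace K_M0X

variable {k L : Type} [Field k] [Field L] [NumberField L] [Algebra k L]

theorem aux (p : ℕ) [Fact p.Prime] (γ : L ≃ₐ[k] L) (n C l : ℕ) (hl : l ≠ 0)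
    (hγ : γ ^ (p ^ n) = 1)
    (hC : Nat.card {v : HeightOneSpectrum (𝓞 L) // (l : 𝓞 L) ∈ v.asIdeal} ≤ C)
    (v : HeightOneSpectrum (𝓞 L)) (hv : (l : 𝓞 L) ∈ v.asIdeal) :
    γ ^ (p ^ C) • v.asIdeal = v.asIdeal := by
  haveI := P_M0.fin (L := L) l hl
  rw [MulAction.pow_smul_eq_iff_minimalPeriod_dvd]
  set d := Function.minimalPeriod (fun I : Ideal (𝓞 L) => γ • I) v.asIdeal with hd
  have h1 : d ∣ p ^ n := by
    rw [hd, ← MulAction.pow_smul_eq_iff_minimalPeriod_dvd, hγ, one_smul]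
  obtain ⟨i, _, hi⟩ := (Nat.dvd_prime_pow (Fact.out : p.Prime)).1 h1
  have h2 : d ≤ C := by
    refine le_trans ?_ hC
    have h3 : Function.Injective (fun a : Fin d => P_M0.act l hl (γ ^ (a : ℕ)) ⟨v, hv⟩) := by
      intro a b hab
      have h4 : γ ^ (a : ℕ) • v.asIdeal = γ ^ (b : ℕ) • v.asIdeal := by
        have h5 := congrArg (fun w => w.1.asIdeal) hab
        exact h5
      have h6 := Function.iterate_injOn_Iio_minimalPeriod
        (f := fun I : Ideal (𝓞 L) => γ • I) (x := v.asIdeal)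
      refine Fin.ext (h6 (Set.mem_Iio.2 a.2) (Set.mem_Iio.2 b.2) ?_)
      simp only [smul_iterate]
      exact h4
    have h7 := Nat.card_le_card_of_injective _ h3
    rwa [Nat.card_fin] at h7
  rw [hi]
  refine pow_dvd_pow p ?_
  have h8 : i < p ^ i := Nat.lt_pow_self (Fact.out : p.Prime).one_lt
  omega

end K_M0X

theorem t_M0X (h1 : S_PRB) (h2 : S_GENX) : S_M0X := by
  intro p _ k K B _ _ hB S hS
  classical
  have h3 : ∀ l : ℕ, ∃ C : ℕ, l ∈ S → ∀ n,
      Nat.card {v : HeightOneSpectrum (𝓞 ↥(K ⊔ B n)) // (l : 𝓞 ↥(K ⊔ B n)) ∈ v.asIdeal} ≤ C := by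
    intro l
    by_cases hl : l ∈ S
    · obtain ⟨C, hC⟩ := h1 p K B hB.lay l (hS l hl)
      exact ⟨C, fun _ => hC⟩
    · exact ⟨0, fun h => absurd h hl⟩
  choose C hC using h3
  refine ⟨S.sup C, ?_⟩
  intro n h
  letI := Pool.Agent.RI.algC h
  intro γ hγ v hv
  obtain ⟨l, hl, hlv⟩ := hv
  obtain ⟨g, hg1, hg2, -⟩ := h2 p k K B hB.hk hB.deg hB.lay hB.mono n h
  haveI : IsScalarTower ℚ k ↥(K ⊔ B n) := IsScalarTower.of_algebraMap_eq (fun _ => rfl)
  haveI : FiniteDimensional k ↥(K ⊔ B n) := FiniteDimensional.right ℚ k ↥(K ⊔ B n)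
  have h5 : γ ∈ Subgroup.zpowers g := by
    rw [← IntermediateField.fixingSubgroup_fixedField (Subgroup.zpowers g)]
    rw [IntermediateField.mem_fixingSubgroup_iff]
    intro x hx
    refine hγ x ((hg2 x).1 ?_)
    exact (IntermediateField.mem_fixedField_iff _ _).1 hx g (Subgroup.mem_zpowers g)
  have h4 : γ ^ (p ^ n) = 1 := by
    obtain ⟨i, rfl⟩ := Subgroup.mem_zpowers_iff.1 h5
    rw [← zpow_natCast, ← zpow_mul, mul_comm, zpow_mul, zpow_natCast, ← hg1, pow_orderOf_eq_one,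
      one_zpow]
  exact K_M0X.aux p γ n (S.sup C) l (hS l hl).ne_zero h4
    (le_trans (hC l hl n) (Finset.le_sup hl)) v hlv

end Pool.Agent.MUXK
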