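import Pool.Agent.MUX.StKX

/-!
# MUX, block K, module NCP: powers in a larger abelian extension
-/

set_option autoImplicit false

open NumberField IsDedekindDomain Finset Filter Topology
open scoped nonZeroDivisors Pointwise

namespace Pool.Agent.MUXK

open Pool.Agent.MU3 Pool.Agent.RI Pool.Agent.RID Pool.Agent.Lib_helper28.FROB

/-- NCP. -/
theorem t_NCP : S_NCP := by
  intro p hp k L M _ _ _ _ _ _ _ _ _ _ _ _ hab γ ω hω hγω s hs y hy
  have : IsGalois L M := IsGalois.tower_top_of_isGalois k L M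
  have : FiniteDimensional L M := FiniteDimensional.right k L M
  have hp0 : p ≠ 0 := hp.out.ne_zero
  obtain ⟨γ', hγ'⟩ := AlgEquiv.restrictNormalHom_surjective (F := k) (K₁ := L) M γ
  have hc : ∀ x : L, γ' (algebraMap L M x) = algebraMap L M (γ x) := by
    intro x
    have h1 := AlgEquiv.restrictNormal_commutes γ' L x
    have h2 : γ'.restrictNormal L = γ := hγ'
    rw [h2] at h1
    exact h1.symm
  have hs' : algebraMap L M s ≠ 0 := by
    rw [Ne, map_eq_zero]
    exact hs
  have hy0 : y ≠ 0 := by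
    rintro rfl
    rw [zero_pow hp0] at hy
    exact hs' hy.symm
  have hfix : ∀ τ : M ≃ₐ[L] M, τ (γ' y / y) = γ' y / y := by
    intro τ
    have h1 : (τ y / y) ^ p = 1 := by
      rw [div_pow, ← map_pow, hy, AlgEquiv.commutes, div_self hs']
    have hωM : IsPrimitiveRoot (algebraMap L M ω) p :=
      hω.map_of_injective (algebraMap L M).injective
    have : NeZero p := ⟨hp0⟩
    obtain ⟨i, -, hi⟩ := hωM.eq_pow_of_pow_eq_one h1
    have hτ : τ y = y * algebraMap L M (ω ^ i) := by
      rw [map_pow, hi, mul_div_cancel₀ _ hy0]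
    have hcomm : τ (γ' y) = γ' (τ y) := by
      have h2 := hab (τ.restrictScalars k) γ'
      exact DFunLike.congr_fun h2 y
    have hωi : algebraMap L M (ω ^ i) ≠ 0 := by
      rw [Ne, map_eq_zero]
      exact pow_ne_zero _ (hω.ne_zero hp0)
    rw [map_div₀, hcomm, hτ, map_mul, hc, map_pow, hγω, mul_div_mul_right _ _ hωi]
  obtain ⟨t, ht⟩ := (IsGalois.mem_range_algebraMap_iff_fixed (F := L) (γ' y / y)).2 hfix
  refine ⟨t, (algebraMap L M).injective ?_⟩
  rw [map_pow, ht, div_pow, ← map_pow, hy, hc, map_div₀]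

end Pool.Agent.MUXK
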