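import Pool.Agent.MUX.StKX
import Pool.Agent.MU3.P_NIL

/-!
# MUX, block K: module NILP (helper45)

The action of `γ - 1` on the class group modulo `p`-th powers is nilpotent, with an exponent which does not depend
on the layer. The relations are used for the norms from `M`, whose image has index at most `[M : L]`.
-/

set_option autoImplicit false

open NumberField IsDedekindDomain Finset Filter Topology
open scoped nonZeroDivisors Pointwise

namespace Pool.Agent.MUXK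

open Pool.Agent.MU3 Pool.Agent.RI Pool.Agent.RID Pool.Agent.MU3.P_NIL

namespace NILP

section alg

variable {G I : Type} [Group G] [CommGroup I] [MulDistribMulAction G I]

lemma mod_p (p : ℕ) (P : Subgroup I) (hcu : ∀ x : I, x ^ p ∈ P) (v : Additive (I ⧸ P)) :
    p • v = 0 := by
  obtain ⟨x, rfl⟩ := cls_surj P v
  have : (p : ℕ) • cls P x = cls P (x ^ p) := rfl
  rw [this, cls_eq_zero]
  exact hcu x

lemma frob_end (p : ℕ) [Fact p.Prime] {V : Type} [AddCommGroup V] [Module (ZMod p) V]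
    (T : Module.End (ZMod p) V) (j : ℕ) : (T - 1) ^ (p ^ j) = T ^ (p ^ j) - 1 := by
  have hfr : ((Polynomial.X : Polynomial (ZMod p)) - 1) ^ (p ^ j) =
      Polynomial.X ^ (p ^ j) - 1 := by
    rw [sub_pow_char_pow, one_pow]
  have h1 := congrArg (Polynomial.aeval T) hfr
  simpa using h1

lemma T_pow (p : ℕ) {V : Type} [AddCommGroup V] [Module (ZMod p) V] (T : Module.End (ZMod p) V)
    (g : G) (c : I → V) (hT : ∀ x, T (c x) = c (g • x)) (j : ℕ) :
    ∀ x : I, (T ^ j) (c x) = c (g ^ j • x) := by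
  induction j with
  | zero => intro x; simp
  | succ j ih =>
    intro x
    rw [pow_succ, Module.End.mul_apply, hT, ih, ← mul_smul, pow_succ]

lemma dT_pow (p : ℕ) {V : Type} [AddCommGroup V] [Module (ZMod p) V] (T : Module.End (ZMod p) V)
    (g : G) (c : I → V) (hT : ∀ x, T (c x) = c (g • x)) (hc : ∀ x y, c (x / y) = c x - c y)
    (l : ℕ) : ∀ x : I, ((1 - T) ^ l) (c x) = c ((dg g : I →* I)^[l] x) := by
  induction l with
  | zero => intro x; simp
  | succ l ih =>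
    intro x
    rw [pow_succ, Module.End.mul_apply, LinearMap.sub_apply, Module.End.one_apply, hT,
      ← hc, ih, Function.iterate_succ_apply, dg_apply]

lemma two_frob_aux (p : ℕ) [Fact p.Prime] {V : Type} [AddCommGroup V] [Module (ZMod p) V]
    (T : Module.End (ZMod p) V) (g : G) (c : I → V) (hT : ∀ x, T (c x) = c (g • x))
    (hc : ∀ x y, c (x / y) = c x - c y) (hm : ∀ x y, c (x * y) = c x + c y)
    (hi : ∀ x, c x⁻¹ = - c x) (a b : ℕ) (x : I) :
    c ((dg g : I →* I)^[p ^ a + p ^ b] x) =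
      c ((g ^ (p ^ a) • g ^ (p ^ b) • x) * (g ^ (p ^ b) • x)⁻¹ * (g ^ (p ^ a) • x)⁻¹ * x) ∨
    c ((dg g : I →* I)^[p ^ a + p ^ b] x) =
      - c ((g ^ (p ^ a) • g ^ (p ^ b) • x) * (g ^ (p ^ b) • x)⁻¹ * (g ^ (p ^ a) • x)⁻¹ * x) := by
  have hTp := T_pow p T g c hT
  have hd := dT_pow p T g c hT hc
  have hY : ((T ^ (p ^ a) - 1) * (T ^ (p ^ b) - 1)) (c x) =
      c ((g ^ (p ^ a) • g ^ (p ^ b) • x) * (g ^ (p ^ b) • x)⁻¹ * (g ^ (p ^ a) • x)⁻¹ * x) := by
    rw [Module.End.mul_apply, LinearMap.sub_apply, LinearMap.sub_apply, Module.End.one_apply,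
      Module.End.one_apply, hTp, map_sub, hTp, hTp, hm, hm, hm, hi, hi]
    abel
  have h1 : (1 - T) ^ (p ^ a + p ^ b) =
      (-1) ^ (p ^ a + p ^ b) * ((T ^ (p ^ a) - 1) * (T ^ (p ^ b) - 1)) := by
    have : (1 - T) = -(T - 1) := by abel
    rw [this, neg_pow, pow_add (T - 1), frob_end, frob_end]
  rcases neg_one_pow_eq_or (Module.End (ZMod p) V) (p ^ a + p ^ b) with h2 | h2
  · left
    rw [← hd, h1, h2, one_mul, hY]
  · right
    rw [← hd, h1, h2, neg_one_mul, LinearMap.neg_apply, hY]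

/-- `(1 - g) ^ (p ^ a + p ^ b)` is `(g ^ (p ^ a) - 1) (g ^ (p ^ b) - 1)` up to a sign. -/
lemma two_frob (p : ℕ) [Fact p.Prime] (P : Subgroup I) (g : G) (hst : ∀ x ∈ P, g • x ∈ P)
    (hcu : ∀ x : I, x ^ p ∈ P) (a b : ℕ) (x : I) :
    cls P ((dg g : I →* I)^[p ^ a + p ^ b] x) =
      cls P ((g ^ (p ^ a) • g ^ (p ^ b) • x) * (g ^ (p ^ b) • x)⁻¹ * (g ^ (p ^ a) • x)⁻¹ * x) ∨
    cls P ((dg g : I →* I)^[p ^ a + p ^ b] x) =
      - cls P ((g ^ (p ^ a) • g ^ (p ^ b) • x) * (g ^ (p ^ b) • x)⁻¹ * (g ^ (p ^ a) • x)⁻¹ * x) :=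
  letI : Module (ZMod p) (Additive (I ⧸ P)) := AddCommGroup.zmodModule (mod_p p P hcu)
  two_frob_aux p (AddMonoidHom.toZModLinearMap p (opT P g hst)) g (cls P) (fun _ => rfl)
    (cls_div P) (cls_mul P) (cls_inv P) a b x

lemma fin_nil_aux (p : ℕ) [Fact p.Prime] {V : Type} [AddCommGroup V] [Module (ZMod p) V]
    [Finite V] (T : Module.End (ZMod p) V) (g : G) (c : I → V) (hT : ∀ x, T (c x) = c (g • x))
    (hc : ∀ x y, c (x / y) = c x - c y) (hs : ∀ v, ∃ x, c x = v) (n d : ℕ)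
    (hg : g ^ (p ^ n) = 1) (hd : Nat.card V ≤ d) (b : I) : c ((dg g : I →* I)^[d] b) = 0 := by
  have hTp := T_pow p T g c hT
  have hdl := dT_pow p T g c hT hc
  have h1 : (1 - T) ^ (p ^ n) = 0 := by
    have h2 : (1 - T) = -(T - 1) := by abel
    have h3 : T ^ (p ^ n) = 1 := by
      apply LinearMap.ext
      intro v
      obtain ⟨x, rfl⟩ := hs v
      rw [hTp, hg, one_smul, Module.End.one_apply]
    rw [h2, neg_pow, frob_end, h3, sub_self, mul_zero]
  have : Module.Finite (ZMod p) V := Module.Finite.of_finite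
  have hcard : p ^ Module.finrank (ZMod p) V = Nat.card V := by
    have h2 := Module.natCard_eq_pow_finrank (K := ZMod p) (V := V)
    rw [Nat.card_zmod] at h2
    exact h2.symm
  have hle : Module.finrank (ZMod p) V ≤ d := by
    have h2 : Module.finrank (ZMod p) V < p ^ Module.finrank (ZMod p) V :=
      Nat.lt_pow_self (Fact.out : p.Prime).one_lt
    omega
  have h4 := Module.End.ker_pow_le_ker_pow_finrank (1 - T) (p ^ n)
  rw [h1, LinearMap.ker_zero, top_le_iff, LinearMap.ker_eq_top] at h4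
  have h5 : (1 - T) ^ d = 0 := pow_eq_zero_of_le hle h4
  rw [← hdl, h5, LinearMap.zero_apply]

/-- A unipotent operator on a group of exponent `p` and of order at most `d`. -/
lemma fin_nil (p : ℕ) [Fact p.Prime] (P : Subgroup I) (g : G) (hst : ∀ x ∈ P, g • x ∈ P)
    (hcu : ∀ x : I, x ^ p ∈ P) (n d : ℕ) (hg : g ^ (p ^ n) = 1) (hi : P.index ≠ 0)
    (hd : P.index ≤ d) (b : I) : (dg g : I →* I)^[d] b ∈ P := by
  have h1 : Finite (I ⧸ P) := Subgroup.index_ne_zero_iff_finite.1 hi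
  have h2 : Finite (Additive (I ⧸ P)) := h1
  rw [← cls_eq_zero]
  exact letI : Module (ZMod p) (Additive (I ⧸ P)) := AddCommGroup.zmodModule (mod_p p P hcu)
  fin_nil_aux p (AddMonoidHom.toZModLinearMap p (opT P g hst)) g (cls P) (fun _ => rfl)
    (cls_div P) (cls_surj P) n d hg hd b

lemma iter_mem (P : Subgroup I) (g : G) (hst : ∀ x ∈ P, g • x ∈ P) (l : ℕ) (x : I)
    (hx : x ∈ P) : (dg g)^[l] x ∈ P := by
  induction l with
  | zero => exact hx
  | succ l ih =>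
    rw [Function.iterate_succ_apply', dg_apply]
    exact P.div_mem ih (hst _ ih)

lemma iter_mul (g : G) (l : ℕ) (x y : I) :
    (dg g)^[l] (x * y) = (dg g)^[l] x * (dg g)^[l] y := by
  induction l with
  | zero => rfl
  | succ l ih =>
    rw [Function.iterate_succ_apply', Function.iterate_succ_apply',
      Function.iterate_succ_apply', ih, map_mul]

end alg

/-- The prime below a prime of degree one. -/
lemma card_under {L M : Type} [Field L] [NumberField L] [Field M] [NumberField M] [Algebra L M]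
    (w : HeightOneSpectrum (𝓞 M)) (q : ℕ) (hq : q.Prime) (hc : Nat.card (𝓞 M ⧸ w.asIdeal) = q) :
    Nat.card (𝓞 L ⧸ (w.asIdeal.under (𝓞 L))) = q := by
  set v : HeightOneSpectrum (𝓞 L) :=
    ⟨w.asIdeal.under (𝓞 L), inferInstance, Ideal.under_ne_bot (𝓞 L) w.ne_bot⟩ with hv
  have hprime : v.asIdeal.IsPrime := v.isPrime
  have hlo : w.asIdeal.LiesOver v.asIdeal := ⟨rfl⟩
  have hwprime : w.asIdeal.IsPrime := w.isPrime
  have h9 := Ideal.absNorm_pow_inertiaDeg v.asIdeal w.asIdeal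
  have hw : Ideal.absNorm w.asIdeal = q := by
    rw [Ideal.absNorm_apply, Submodule.cardQuot_apply]
    exact hc
  have h11 : Ideal.absNorm v.asIdeal ∣ q := by
    rw [← hw, ← h9]
    exact dvd_pow_self _ (Ideal.inertiaDeg_pos _ _).ne'
  have h10 : Ideal.absNorm v.asIdeal = q := by
    rcases (Nat.dvd_prime hq).1 h11 with h12 | h12
    · exfalso
      rw [h12, one_pow, hw] at h9
      exact hq.one_lt.ne h9
    · exact h12
  rw [Ideal.absNorm_apply, Submodule.cardQuot_apply] at h10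
  exact h10

end NILP

open NILP in
theorem t_NILP (h1 : S_EIGX) (h2 : S_STABX) (h3 : S_THDX) (h4 : S_NRJ) (h5 : S_NIX)
    (h6 : S_NILXX) : S_NILP := by
  classical
  intro p _ F _ _ _ k L M _ _ _ _ _ _ _ _ _ _ _ _ n m₁ m₀ γ D _ hTw hmn S ζ hζ h2S hpS hpr
    hram hdec c hK hθ b
  have hp : p.Prime := Fact.out
  set P : Subgroup (J L) := (prin : Lˣ →* J L).range ⊔ (powMonoidHom p : J L →* J L).range
    with hP
  have hprin : ∀ (σ : L ≃ₐ[k] L), ∀ x ∈ (prin : Lˣ →* J L).range,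
      σ • x ∈ (prin : Lˣ →* J L).range := by
    rintro σ _ ⟨a, rfl⟩
    rw [smul_prin]
    exact ⟨_, rfl⟩
  have hPmem : ∀ x : J L, x ∈ P ↔ ∃ (a : Lˣ) (y : J L), prin a * y ^ p = x := by
    intro x
    rw [hP, Subgroup.mem_sup]
    constructor
    · rintro ⟨_, ⟨a, rfl⟩, _, ⟨y, rfl⟩, rfl⟩
      exact ⟨a, y, rfl⟩
    · rintro ⟨a, y, rfl⟩
      exact ⟨_, ⟨a, rfl⟩, _, ⟨y, rfl⟩, rfl⟩
  have hst : ∀ (σ : L ≃ₐ[k] L), ∀ x ∈ P, σ • x ∈ P := by
    intro σ x hx
    obtain ⟨a, y, rfl⟩ := (hPmem x).1 hx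
    refine (hPmem _).2 ⟨σ • a, σ • y, ?_⟩
    rw [smul_mul', smul_prin, smul_pow']
  have hcu : ∀ x : J L, x ^ p ∈ P := by
    intro x
    exact (hPmem _).2 ⟨1, x, by rw [map_one, one_mul]⟩
  obtain ⟨N, hN1, hN2, hN3⟩ := h4 k L M
  -- restriction and extension of automorphisms
  have hres : ∀ σ : M ≃ₐ[k] M, ∃ τ : L ≃ₐ[k] L, ∀ x : L,
      algebraMap L M (τ x) = σ (algebraMap L M x) := by
    intro σ
    exact ⟨σ.restrictNormal L, fun x => σ.restrictNormal_commutes L x⟩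
  have hext : ∃ σ : M ≃ₐ[k] M, ∀ x : L, algebraMap L M (γ x) = σ (algebraMap L M x) := by
    obtain ⟨σ, hσ⟩ := AlgEquiv.restrictNormalHom_surjective (F := k) (K₁ := L) M γ
    refine ⟨σ, fun x => ?_⟩
    rw [← hσ]
    exact σ.restrictNormal_commutes L x
  obtain ⟨γ', hγ'⟩ := hext
  have hNγ : ∀ z : J M, N (γ' • z) = γ • N z := hN3 γ' γ hγ'
  -- the first part
  have hkey : ∀ z : J M, (dg γ)^[p ^ m₀ + p ^ m₁ + 1] (N z) ∈ P := by
    intro z
    by_contra hx
    obtain ⟨χ, f, hf, hfP, hfχ, hfx⟩ := h1 p F (L ≃ₐ[k] L) (J L) D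
      (fun a _ b _ => hTw.comm a b) hTw.cop P hst hcu _ hx
    obtain ⟨m, hm, θ, hθ'⟩ := hθ χ
    have hf1 : f 1 = 0 := by
      have := hf 1 1
      rw [mul_one] at this
      simpa using this
    have hfi : ∀ y, f y⁻¹ = - f y := by
      intro y
      have := hf y y⁻¹
      rw [mul_inv_cancel, hf1] at this
      linear_combination -this
    have hfp : ∀ y ∈ (prin : Lˣ →* J L).range, f y = 0 := fun y hy =>
      hfP y ((le_sup_left : (prin : Lˣ →* J L).range ≤ P) hy)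
    have hfcls : ∀ y y' : J L, cls P y = cls P y' → f y = f y' := by
      intro y y' h
      have h7 : cls P (y * y'⁻¹) = 0 := by
        rw [cls_mul, cls_inv, h]
        exact add_neg_cancel (cls P y')
      have h8 := hfP _ ((cls_eq_zero P _).1 h7)
      rw [hf, hfi] at h8
      linear_combination h8
    -- the functional at all translates
    let Φ : ℕ → J L → F := fun j y =>
      f (γ ^ j • γ ^ (p ^ m₀) • γ ^ (p ^ m) • y) - f (γ ^ j • γ ^ (p ^ m) • y) -
      f (γ ^ j • γ ^ (p ^ m₀) • y) + f (γ ^ j • y)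
    have hΦmul : ∀ j y y', Φ j (y * y') = Φ j y + Φ j y' := by
      intro j y y'
      simp only [Φ, smul_mul', hf]
      ring
    have hΦ1 : ∀ j, Φ j 1 = 0 := by
      intro j
      have := hΦmul j 1 1
      rw [mul_one] at this
      simpa using this
    have hΦinv : ∀ j y, Φ j y⁻¹ = - Φ j y := by
      intro j y
      have := hΦmul j y y⁻¹
      rw [mul_inv_cancel, hΦ1] at this
      linear_combination -this
    let U : Subgroup (J L) :=
      { carrier := {y | ∀ j, Φ j y = 0}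
        one_mem' := fun j => hΦ1 j
        mul_mem' := by
          intro a b ha hb j
          rw [hΦmul, ha j, hb j, add_zero]
        inv_mem' := by
          intro a ha j
          rw [hΦinv, ha j, neg_zero] }
    have hU : ∀ y : J L, y ∈ U ↔ ∀ j, Φ j y = 0 := fun y => Iff.rfl
    have hcm : ∀ (σ τ : L ≃ₐ[k] L) (y : J L), σ • τ • y = τ • σ • y := by
      intro σ τ y
      rw [← mul_smul, ← mul_smul, hTw.comm]
    have hUγ : ∀ y ∈ U, γ • y ∈ U := by
      intro y hy j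
      have := hy (j + 1)
      simp only [Φ] at this ⊢
      have e : ∀ y : J L, γ ^ (j + 1) • y = γ ^ j • γ • y := by
        intro y
        rw [pow_succ, mul_smul]
      rw [e, e, e, e] at this
      rw [hcm (γ ^ (p ^ m)) γ, hcm (γ ^ (p ^ m₀)) γ, hcm (γ ^ (p ^ m₀)) γ]
      exact this
    have hUδ : ∀ δ ∈ D, ∀ y ∈ U, δ • y ∈ U := by
      intro δ hδ y hy j
      have := hy j
      simp only [Φ] at this ⊢
      have e : ∀ y : J L, f (δ • y) = (χ ⟨δ, hδ⟩ : F) * f y := fun y => hfχ ⟨δ, hδ⟩ y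
      have e1 : γ ^ j • γ ^ (p ^ m₀) • γ ^ (p ^ m) • δ • y =
          δ • γ ^ j • γ ^ (p ^ m₀) • γ ^ (p ^ m) • y := by
        rw [hcm (γ ^ (p ^ m)) δ, hcm (γ ^ (p ^ m₀)) δ, hcm (γ ^ j) δ]
      have e2 : γ ^ j • γ ^ (p ^ m) • δ • y = δ • γ ^ j • γ ^ (p ^ m) • y := by
        rw [hcm (γ ^ (p ^ m)) δ, hcm (γ ^ j) δ]
      have e3 : γ ^ j • γ ^ (p ^ m₀) • δ • y = δ • γ ^ j • γ ^ (p ^ m₀) • y := by
        rw [hcm (γ ^ (p ^ m₀)) δ, hcm (γ ^ j) δ]
      have e4 : γ ^ j • δ • y = δ • γ ^ j • y := hcm _ _ _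
      rw [e1, e2, e3, e4, e, e, e, e]
      linear_combination (χ ⟨δ, hδ⟩ : F) * this
    have hUσ : ∀ (σ : L ≃ₐ[k] L), ∀ y ∈ U, σ • y ∈ U := by
      intro σ y hy
      obtain ⟨δ, hδ, i, rfl⟩ := hTw.gen σ
      rw [mul_smul]
      apply hUδ δ hδ
      clear hδ
      induction i with
      | zero => simpa using hy
      | succ i ih =>
        rw [pow_succ', mul_smul]
        exact hUγ _ ih
    have hUprin : (prin : Lˣ →* J L).range ≤ U := by
      intro y hy j
      simp only [Φ]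
      rw [hfp _ (hprin _ _ (hprin _ _ (hprin _ _ hy))), hfp _ (hprin _ _ (hprin _ _ hy)),
        hfp _ (hprin _ _ (hprin _ _ hy)), hfp _ (hprin _ _ hy)]
      simp
    have hζp : IsPrimitiveRoot (ζ ^ 2) p := hζ.pow (by have := hp.pos; omega) rfl
    let t : (𝓞 L)ˣ := sUnitP p D γ m n χ θ c
    let t' : (𝓞 M)ˣ := Units.map (algebraMap (𝓞 L) (𝓞 M)).toMonoidHom t
    have ht'1 : ((t' : 𝓞 M) : M) = algebraMap L M ((t : 𝓞 L) : L) := rfl
    have hUM := h3 p k M (ζ ^ 2) t' hζp (by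
        intro y hy
        exact hθ' y (hy.trans ht'1)) S hpr (U.comap N) (by
        rintro _ ⟨a, rfl⟩
        rw [Subgroup.mem_comap, hN1]
        exact hUprin ⟨_, rfl⟩) (by
        intro σ x hx
        obtain ⟨τ, hτ⟩ := hres σ
        rw [Subgroup.mem_comap, hN3 σ τ hτ]
        exact hUσ τ _ hx) (by
        intro w q hq hqS hcard hnt
        rw [Subgroup.mem_comap]
        -- the prime below
        set v : HeightOneSpectrum (𝓞 L) :=
          ⟨w.asIdeal.under (𝓞 L), inferInstance, Ideal.under_ne_bot (𝓞 L) w.ne_bot⟩ with hv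
        have hvw : w.asIdeal.under (𝓞 L) = v.asIdeal := rfl
        have hcv : Nat.card (𝓞 L ⧸ v.asIdeal) = q := card_under w q hq hcard
        have hab : HasAb L M v q := ⟨w, rfl, hcard⟩
        have hgood : GoodPrP p k L S v q :=
          h2 p k L M S ζ hζ h2S hpS hpr hram v q hq hqS hcv hab
        rw [(hN2 w v rfl).2 (hcard.trans hcv.symm)]
        refine h6 p F k L n m m₀ γ D hTw (hm.trans hmn) S hdec c χ θ f hf hfp hfχ v q hgood
          (hK v q hgood hab) ?_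
        intro a ha
        apply hnt (algebraMap (𝓞 L) (𝓞 M) a)
        have ha' : algebraMap (𝓞 L) (𝓞 M) ((t : 𝓞 L) - a ^ p) ∈ w.asIdeal := ha
        rw [map_sub, map_pow] at ha'
        exact ha') γ' z
    have hx1 : dg γ (N z) ∈ U := by
      rw [Subgroup.mem_comap, map_mul, map_inv, hNγ] at hUM
      have := U.inv_mem hUM
      rw [dg_apply, div_eq_mul_inv]
      rw [mul_inv_rev, inv_inv] at this
      exact this
    have hx2 : (dg γ)^[p ^ m₁ - p ^ m] (dg γ (N z)) ∈ U :=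
      iter_mem U γ hUγ _ _ hx1
    have hx3 := (hU _).1 hx2 0
    simp only [Φ, pow_zero, one_smul] at hx3
    have hle : p ^ m ≤ p ^ m₁ := Nat.pow_le_pow_right hp.pos hm
    have hv : (dg γ)^[p ^ m₀ + p ^ m₁ + 1] (N z) =
        (dg γ)^[p ^ m₀ + p ^ m] ((dg γ)^[p ^ m₁ - p ^ m] (dg γ (N z))) := by
      rw [← Function.iterate_succ_apply, ← Function.iterate_add_apply]
      congr 1
      omega
    rw [hv] at hfx
    apply hfx
    have hY0 : f ((γ ^ (p ^ m₀) • γ ^ (p ^ m) • (dg γ)^[p ^ m₁ - p ^ m] (dg γ (N z))) *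
        (γ ^ (p ^ m) • (dg γ)^[p ^ m₁ - p ^ m] (dg γ (N z)))⁻¹ *
        (γ ^ (p ^ m₀) • (dg γ)^[p ^ m₁ - p ^ m] (dg γ (N z)))⁻¹ *
        (dg γ)^[p ^ m₁ - p ^ m] (dg γ (N z))) = 0 := by
      rw [hf, hf, hf, hfi, hfi]
      linear_combination hx3
    rcases two_frob p P γ (hst γ) hcu m₀ m ((dg γ)^[p ^ m₁ - p ^ m] (dg γ (N z))) with h7 | h7
    · rw [hfcls _ _ h7, hY0]
    · rw [← cls_inv] at h7
      rw [hfcls _ _ h7, hfi, hY0, neg_zero]
  -- the second part
  set W : Subgroup (J L) := N.range ⊔ P with hW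
  have hWmem : ∀ x : J L, x ∈ W ↔ ∃ (z : J M), ∃ y ∈ P, N z * y = x := by
    intro x
    rw [hW, Subgroup.mem_sup]
    constructor
    · rintro ⟨_, ⟨z, rfl⟩, y, hy, rfl⟩
      exact ⟨z, y, hy, rfl⟩
    · rintro ⟨z, y, hy, rfl⟩
      exact ⟨_, ⟨z, rfl⟩, y, hy, rfl⟩
  have hWst : ∀ x ∈ W, γ • x ∈ W := by
    intro x hx
    obtain ⟨z, y, hy, rfl⟩ := (hWmem x).1 hx
    refine (hWmem _).2 ⟨γ' • z, γ • y, hst γ _ hy, ?_⟩
    rw [smul_mul', hNγ]
  have hWi := h5 L M S hpr W (le_sup_left.trans (le_sup_right : P ≤ W)) (by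
    rintro v q hq hqS hcard ⟨w, hw1, hw2⟩
    have h7 := (hN2 w v hw1).2 (by rw [hw2, hcard])
    rw [← h7]
    exact (hWmem _).2 ⟨vJ w, 1, P.one_mem, mul_one _⟩)
  have hb1 := fin_nil p W γ hWst (fun x => (le_sup_right : P ≤ W) (hcu x)) n
    (Module.finrank L M) (by rw [← hTw.ord, pow_orderOf_eq_one]) hWi.1 hWi.2 b
  obtain ⟨z, y, hy, hzy⟩ := (hWmem _).1 hb1
  have hb2 : (dg γ)^[p ^ m₀ + p ^ m₁ + 1] ((dg γ)^[Module.finrank L M] b) ∈ P := by
    rw [← hzy, iter_mul]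
    exact P.mul_mem (hkey z) (iter_mem P γ (hst γ) _ _ hy)
  have hle : p ^ m₀ + p ^ m₁ ≤ p ^ (max m₁ m₀ + 1) := by
    have h7 : p ^ m₀ ≤ p ^ (max m₁ m₀) := Nat.pow_le_pow_right hp.pos (le_max_right _ _)
    have h8 : p ^ m₁ ≤ p ^ (max m₁ m₀) := Nat.pow_le_pow_right hp.pos (le_max_left _ _)
    have h9 : 2 * p ^ (max m₁ m₀) ≤ p * p ^ (max m₁ m₀) := Nat.mul_le_mul_right _ hp.two_le
    rw [pow_succ']
    omega
  obtain ⟨r, hr⟩ := Nat.exists_eq_add_of_le hle
  have hb3 : (dg γ)^[p ^ (max m₁ m₀ + 1) + 1 + Module.finrank L M] b ∈ P := by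
    have h7 : p ^ (max m₁ m₀ + 1) + 1 + Module.finrank L M =
        r + ((p ^ m₀ + p ^ m₁ + 1) + Module.finrank L M) := by omega
    rw [h7, Function.iterate_add_apply, Function.iterate_add_apply]
    exact iter_mem P γ (hst γ) _ _ hb2
  obtain ⟨a, y', hy'⟩ := (hPmem _).1 hb3
  exact ⟨y', a, by rw [← hy', mul_comm]⟩

end Pool.Agent.MUXK
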