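import Pool.Agent.MUX.StKX

/-!
# MUX, module NILXX: the relation for one prime and one eigenfunctional
-/

set_option autoImplicit false

open NumberField IsDedekindDomain Finset
open scoped nonZeroDivisors Pointwise

namespace Pool.Agent.MUXK

open Pool.Agent.MU3 Pool.Agent.RI Pool.Agent.RID

namespace K_NILXX

/-- An automorphism fixing the prime ideal fixes the fractional ideal. -/
lemma fix_vJ {k L : Type} [Field k] [Field L] [NumberField L] [Algebra k L] (g : L ≃ₐ[k] L)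
    (v : HeightOneSpectrum (𝓞 L)) (h : g • v.asIdeal = v.asIdeal) : g • vJ v = vJ v := by
  apply Units.ext
  ext x
  rw [RI.mem_smul]
  show g.symm x ∈ (v.asIdeal : FractionalIdeal (𝓞 L)⁰ L) ↔
    x ∈ (v.asIdeal : FractionalIdeal (𝓞 L)⁰ L)
  rw [FractionalIdeal.mem_coeIdeal, FractionalIdeal.mem_coeIdeal]
  constructor
  · rintro ⟨y, hy, hx⟩
    refine ⟨g • y, ?_, ?_⟩
    · rw [← h]; exact Ideal.smul_mem_pointwise_smul_iff.mpr hy
    · show g (algebraMap (𝓞 L) L y) = x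
      rw [hx]; exact g.apply_symm_apply x
  · rintro ⟨y, hy, hx⟩
    refine ⟨g⁻¹ • y, ?_, ?_⟩
    · have : g • (g⁻¹ • y) ∈ g • v.asIdeal := by rw [smul_inv_smul, h]; exact hy
      exact Ideal.smul_mem_pointwise_smul_iff.mp this
    · show g.symm (algebraMap (𝓞 L) L y) = g.symm x
      rw [hx]

lemma fix_SJ {k L : Type} [Field k] [Field L] [NumberField L] [Algebra k L] (S : Finset ℕ)
    (g : L ≃ₐ[k] L)
    (h : ∀ v : HeightOneSpectrum (𝓞 L), Above S v → g • v.asIdeal = v.asIdeal) (s : J L)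
    (hs : s ∈ SJ S L) : g • s = s := by
  unfold SJ at hs
  induction hs using Subgroup.closure_induction with
  | mem x hx => obtain ⟨v, hv, rfl⟩ := hx; exact fix_vJ g v (h v hv)
  | one => exact smul_one g
  | mul x y _ _ hx hy => rw [smul_mul', hx, hy]
  | inv x _ hx => rw [smul_inv', hx]

/-- The congruence for `h⁻¹ c` modulo `lam` gives the one for `c` modulo `h lam`. -/
lemma tr {k L : Type} [Field k] [Field L] [NumberField L] [Algebra k L] (h : L ≃ₐ[k] L)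
    (c : (𝓞 L)ˣ) (e b : ℕ) (a : ℤ) (I : Ideal (𝓞 L))
    (hh : ((h⁻¹ • c : (𝓞 L)ˣ) : 𝓞 L) ^ e - (a : 𝓞 L) ^ b ∈ I) :
    (c : 𝓞 L) ^ e - (a : 𝓞 L) ^ b ∈ h • I := by
  have h1 : h • (((h⁻¹ • c : (𝓞 L)ˣ) : 𝓞 L) ^ e - (a : 𝓞 L) ^ b) ∈ h • I :=
    Ideal.smul_mem_pointwise_smul_iff.mpr hh
  have h2 : ((h⁻¹ • c : (𝓞 L)ˣ) : 𝓞 L) = h⁻¹ • (c : 𝓞 L) := rfl
  have h3 : h • (a : 𝓞 L) = (a : 𝓞 L) :=
    map_intCast (MulSemiringAction.toRingHom (L ≃ₐ[k] L) (𝓞 L) h) a
  rw [smul_sub, smul_pow', smul_pow', h2, smul_inv_smul, h3] at h1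
  exact h1

section grp

variable {G : Type} [Group G] {p n : ℕ} [Fact p.Prime] (γ : G)

/-- `γ ^ i` for `i` modulo `p ^ n`. -/
def gz {G : Type} [Group G] (p n : ℕ) (γ : G) (i : ZMod (p ^ n)) : G := γ ^ i.val

lemma gz_cast (ho : orderOf γ = p ^ n) (k : ℕ) : gz p n γ (k : ZMod (p ^ n)) = γ ^ k := by
  unfold gz
  rw [ZMod.val_natCast, ← ho, pow_mod_orderOf]

lemma gz_add (ho : orderOf γ = p ^ n) (i j : ZMod (p ^ n)) :
    gz p n γ (i + j) = gz p n γ i * gz p n γ j := by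
  unfold gz
  rw [ZMod.val_add, ← pow_add]
  conv_lhs => rw [show (i.val + j.val) % p ^ n = (i.val + j.val) % orderOf γ by rw [ho]]
  rw [pow_mod_orderOf]

lemma gz_zero : gz p n γ 0 = 1 := by
  unfold gz
  rw [ZMod.val_zero, pow_zero]

lemma gz_neg (ho : orderOf γ = p ^ n) (i : ZMod (p ^ n)) : gz p n γ (-i) = (gz p n γ i)⁻¹ := by
  apply eq_inv_of_mul_eq_one_left
  rw [← gz_add γ ho, neg_add_cancel, gz_zero]

lemma gz_bij (D : Subgroup G) (hc : (Nat.card D).Coprime p) (ho : orderOf γ = p ^ n)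
    (hg : ∀ h : G, ∃ δ ∈ D, ∃ i : ℕ, h = δ * γ ^ i) :
    Function.Bijective (fun s : D × ZMod (p ^ n) => (s.1 : G) * gz p n γ s.2) := by
  constructor
  · rintro ⟨δ, i⟩ ⟨δ', i'⟩ h
    simp only at h
    have h1 : (δ' : G)⁻¹ * δ = gz p n γ (i' - i) := by
      rw [sub_eq_add_neg, gz_add γ ho, gz_neg γ ho, inv_mul_eq_iff_eq_mul, ← mul_assoc, ← h,
        mul_assoc, mul_inv_cancel, mul_one]
    have h2 : orderOf (δ'⁻¹ * δ) ∣ Nat.card D := orderOf_dvd_natCard _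
    have h3 : orderOf (gz p n γ (i' - i)) ∣ p ^ n := by
      have := orderOf_pow_dvd (x := γ) (i' - i).val
      rw [ho] at this
      exact this
    have h4 : orderOf (gz p n γ (i' - i)) = 1 := by
      rw [← h1] at h3 ⊢
      have h5 : orderOf ((δ' : G)⁻¹ * δ) = orderOf (δ'⁻¹ * δ) := by
        rw [← Subgroup.orderOf_coe]; rfl
      rw [h5] at h3 ⊢
      have h6 : (Nat.card D).Coprime (p ^ n) := Nat.Coprime.pow_right n hc
      exact Nat.eq_one_of_dvd_coprimes h6 h2 h3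
    rw [orderOf_eq_one_iff] at h4
    have h7 : (i' - i) = 0 := by
      have h8 : γ ^ (i' - i).val = 1 := h4
      have h9 : orderOf γ ∣ (i' - i).val := orderOf_dvd_of_pow_eq_one h8
      rw [ho] at h9
      have h10 := Nat.eq_zero_of_dvd_of_lt h9 (ZMod.val_lt _)
      exact (ZMod.val_eq_zero _).mp h10
    have h8 : δ' = δ := by
      rw [h4, inv_mul_eq_one] at h1
      exact Subtype.ext h1
    rw [h8, sub_eq_zero.mp h7]
  · intro h
    obtain ⟨δ, hδ, i, hi⟩ := hg h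
    refine ⟨(⟨δ, hδ⟩, (i : ZMod (p ^ n))), ?_⟩
    simp only [gz_cast γ ho]
    exact hi.symm

end grp

lemma f_prod {I F ι : Type} [CommGroup I] [Field F] (f : I → F)
    (hf : ∀ x y, f (x * y) = f x + f y) (s : Finset ι) (x : ι → I) :
    f (∏ i ∈ s, x i) = ∑ i ∈ s, f (x i) := by
  have h1 : f 1 = 0 := by
    have := hf 1 1
    rw [mul_one] at this
    linear_combination -this
  classical
  induction s using Finset.induction_on with
  | empty => rw [prod_empty, sum_empty, h1]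
  | insert a s ha ih => rw [prod_insert ha, sum_insert ha, hf, ih]

lemma f_pow {I F : Type} [CommGroup I] [Field F] (f : I → F)
    (hf : ∀ x y, f (x * y) = f x + f y) (x : I) (n : ℕ) : f (x ^ n) = n * f x := by
  induction n with
  | zero =>
    rw [pow_zero, Nat.cast_zero, zero_mul]
    have := hf 1 1
    rw [mul_one] at this
    linear_combination -this
  | succ n ih => rw [pow_succ, hf, ih]; push_cast; ring

/-- The value of `lg` on the unit `sUnit`. -/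
lemma lg_sUnit {p : ℕ} [Fact p.Prime] {k L F : Type} [Field k] [Field L] [NumberField L] [Algebra k L] [Field F]
    [CharP F p]
    (D : Subgroup (L ≃ₐ[k] L)) [Fintype D] (γ : L ≃ₐ[k] L) (m n : ℕ) (χ : D →* Fˣ)
    (θ : F →+ ZMod p) (c : (𝓞 L)ˣ) (lg : (𝓞 L)ˣ →* Multiplicative (ZMod p)) :
    Multiplicative.toAdd (lg (sUnitP p D γ m n χ θ c)) =
      θ (∑ δ : D, ((χ δ)⁻¹ : Fˣ) * ∑ i ∈ range (p ^ (n - m)),
        ZMod.castHom (dvd_refl p) F
          (Multiplicative.toAdd (lg ((δ : L ≃ₐ[k] L) • (γ ^ (p ^ m)) ^ i • c)))) := by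
  unfold sUnitP
  rw [map_prod, toAdd_prod, map_sum]
  refine sum_congr rfl fun δ _ => ?_
  rw [map_pow, toAdd_pow, ng_apply, smul_prod', map_prod, toAdd_prod,
    ← map_sum (ZMod.castHom (dvd_refl p) F)]
  set z : ZMod p := ∑ i ∈ range (p ^ (n - m)),
    Multiplicative.toAdd (lg ((δ : L ≃ₐ[k] L) • (γ ^ (p ^ m)) ^ i • c)) with hz
  have h1 : ZMod.castHom (dvd_refl p) F z = ((z.val : ℕ) : F) := by
    conv_lhs => rw [← ZMod.natCast_zmod_val z]
    rw [map_natCast]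
  rw [h1, mul_comm, ← nsmul_eq_mul, map_nsmul, nsmul_eq_mul, nsmul_eq_mul,
    ZMod.natCast_zmod_val, ZMod.natCast_zmod_val, mul_comm]

end K_NILXX

open K_NILXX in
theorem t_NILXX (h1 : S_ALGX) (h2 : S_LGX) : S_NILXX := by
  intro p _ F _ _ k L _ _ _ _ _ _ n m m₀ γ D _ hT hmn S hfix c χ θ f hf hprin hχ lam q hgood hK hncube j
  obtain ⟨a, lg, ha1, ha2, hlg, hcube⟩ := h2 p L lam q hgood.prime
    (dvd_trans (dvd_mul_left p 2) hgood.dvd) hgood.card
  set g₀ : L ≃ₐ[k] L := γ ^ (p ^ m₀) with hg₀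
  -- the function f'
  let f' : J L → F := fun x => f (g₀ • x) - f x
  have hf' : ∀ x y, f' (x * y) = f' x + f' y := by
    intro x y
    simp only [f', smul_mul', hf]
    ring
  have hcomm : ∀ (σ τ : L ≃ₐ[k] L) (x : J L), σ • τ • x = τ • σ • x := by
    intro σ τ x
    rw [← mul_smul, hT.comm, mul_smul]
  have hf'χ : ∀ (δ : D) (x : J L), f' ((δ : L ≃ₐ[k] L) • x) = (χ δ : F) * f' x := by
    intro δ x
    simp only [f']
    rw [hcomm, hχ, hχ]
    ring
  have hf'prin : ∀ (σ : L ≃ₐ[k] L) (κ : Lˣ), f' (σ • prin κ) = 0 := by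
    intro σ κ
    simp only [f']
    rw [smul_prin, smul_prin, hprin _ ⟨_, rfl⟩, hprin _ ⟨_, rfl⟩, sub_zero]
  have hf'S : ∀ (σ : L ≃ₐ[k] L) (s : J L), s ∈ SJ S L → f' (σ • s) = 0 := by
    intro σ s hs
    simp only [f']
    rw [hcomm, fix_SJ S g₀ hfix s hs, sub_self]
  have h3 : (p : F) = 0 := CharP.cast_eq_zero F p
  -- the exponents
  let b : (L ≃ₐ[k] L) → ℕ := fun h => (Multiplicative.toAdd (lg (h⁻¹ • c))).val
  obtain ⟨κ, I, s, hs, hrel⟩ := hK a ha1 ha2 b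
    (fun h => tr h c _ _ a _ (hlg (h⁻¹ • c)))
  have hsum : ∀ σ : L ≃ₐ[k] L, ∑ h : L ≃ₐ[k] L, (b h : F) * f' (σ • h • vJ lam) = 0 := by
    intro σ
    have e1 : f' (σ • ∏ h : L ≃ₐ[k] L, (h • vJ lam) ^ b h) =
        ∑ h : L ≃ₐ[k] L, (b h : F) * f' (σ • h • vJ lam) := by
      rw [smul_prod', f_prod f' hf']
      refine sum_congr rfl fun h _ => ?_
      rw [smul_pow', f_pow f' hf']
    rw [← e1, hrel, smul_mul', smul_mul', smul_pow', hf', hf', f_pow f' hf', hf'prin, hf'S _ _ hs]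
    push_cast
    rw [h3]
    ring
  -- the function x and the coefficients
  let x : ZMod (p ^ n) → F := fun i => f' (gz p n γ i • vJ lam)
  let β : ZMod (p ^ n) → F := fun i => ∑ δ : D, (χ δ : F) * (b ((δ : L ≃ₐ[k] L) * gz p n γ i) : F)
  have hbij := gz_bij γ D hT.cop hT.ord hT.gen
  have hA : ∀ j, ∑ i, β i * x (i + j) = 0 := by
    intro j
    rw [← hsum (gz p n γ j)]
    rw [← hbij.sum_comp (fun h : L ≃ₐ[k] L => (b h : F) * f' (gz p n γ j • h • vJ lam))]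
    rw [Fintype.sum_prod_type_right]
    refine sum_congr rfl fun i _ => ?_
    simp only [β, x]
    rw [sum_mul]
    refine sum_congr rfl fun δ _ => ?_
    have e2 : gz p n γ j • ((δ : L ≃ₐ[k] L) * gz p n γ i) • vJ lam =
        (δ : L ≃ₐ[k] L) • gz p n γ (i + j) • vJ lam := by
      rw [← mul_smul, ← mul_smul, gz_add γ hT.ord]
      congr 1
      rw [hT.comm (gz p n γ j), mul_assoc]
    rw [e2, hf'χ]
    ring
  have hB : (∑ i ∈ range (p ^ (n - m)), β (-((p ^ m * i : ℕ) : ZMod (p ^ n)))) ≠ 0 := by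
    intro h0
    have hne : lg (sUnitP p D γ m n χ θ c) ≠ 1 := by
      intro h
      obtain ⟨v, hv⟩ := hcube _ h
      exact hncube v hv
    apply hne
    have e3 := lg_sUnit D γ m n χ θ c lg
    have e4 : (∑ δ : D, ((χ δ)⁻¹ : Fˣ) * ∑ i ∈ range (p ^ (n - m)),
        ZMod.castHom (dvd_refl p) F
          (Multiplicative.toAdd (lg ((δ : L ≃ₐ[k] L) • (γ ^ (p ^ m)) ^ i • c)))) = (0 : F) := by
      rw [← h0]
      simp only [β]
      rw [sum_comm]
      rw [← Equiv.sum_comp (Equiv.inv D)]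
      refine sum_congr rfl fun δ _ => ?_
      rw [mul_sum]
      refine sum_congr rfl fun i _ => ?_
      simp only [Equiv.inv_apply, map_inv, inv_inv, b]
      congr 1
      have e5 : ((δ : L ≃ₐ[k] L) * gz p n γ (-((p ^ m * i : ℕ) : ZMod (p ^ n))))⁻¹ • c =
          ((δ⁻¹ : D) : L ≃ₐ[k] L) • (γ ^ (p ^ m)) ^ i • c := by
        rw [gz_neg γ hT.ord, gz_cast γ hT.ord, mul_inv_rev, inv_inv, hT.comm, mul_smul, pow_mul]
        rfl
      rw [e5]
      set z := Multiplicative.toAdd (lg (((δ⁻¹ : D) : L ≃ₐ[k] L) • (γ ^ (p ^ m)) ^ i • c))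
      conv_lhs => rw [← ZMod.natCast_zmod_val z]
      rw [map_natCast]
    rw [e4, map_zero] at e3
    exact e3
  have hfin := h1 p F m n hmn β x hA hB (j : ZMod (p ^ n))
  rw [← Nat.cast_add] at hfin
  simp only [x, f'] at hfin
  rw [gz_cast γ hT.ord, gz_cast γ hT.ord, pow_add, mul_smul, hcomm g₀ (γ ^ j), hcomm g₀ (γ ^ j)]
    at hfin
  linear_combination hfin

end Pool.Agent.MUXK
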