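import Pool.Agent.MUX.StKX
import Pool.Agent.MU3.MDEG2

/-!
# MUX, block K, module NIX
-/

set_option autoImplicit false

open NumberField IsDedekindDomain Ideal Filter Topology Asymptotics
open scoped nonZeroDivisors Pointwise

namespace Pool.Agent.MUXK

open Pool.Agent.MU3 Pool.Agent.RI Pool.Agent.RID Pool.Agent.Lib_helper28.FROB

namespace K_NIX

lemma fin_bound {L : Type} [Field L] [NumberField L] (S : Set (HeightOneSpectrum (𝓞 L)))
    (hS : S.Finite) : ∃ C : ℝ, ∀ s : ℝ, 1 < s → ∑' v, Set.indicator S (x s) v ≤ C := by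
  classical
  refine ⟨hS.toFinset.card, fun s hs => ?_⟩
  rw [tsum_eq_sum (s := hS.toFinset)]
  · refine (Finset.sum_le_card_nsmul _ _ 1 fun v _ => ?_).trans (by simp)
    unfold Set.indicator
    split_ifs
    · have := x_le hs.le v
      linarith
    · norm_num
  · intro v hv
    rw [Set.indicator_of_notMem]
    simpa using hv

theorem fin_above {L : Type} [Field L] [NumberField L] {S : Finset ℕ} (hS : ∀ p ∈ S, p.Prime) :
    {v : HeightOneSpectrum (𝓞 L) | Above S v}.Finite := by
  have h1 : {v : HeightOneSpectrum (𝓞 L) | Above S v} ⊆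
      ⋃ p ∈ S, {v : HeightOneSpectrum (𝓞 L) | (p : 𝓞 L) ∈ v.asIdeal} := by
    rintro v ⟨p, hp, hv⟩
    exact Set.mem_biUnion hp hv
  refine Set.Finite.subset (Set.Finite.biUnion S.finite_toSet ?_) h1
  intro p hp
  have h0 : (Ideal.span {(p : 𝓞 L)}) ≠ 0 := by
    intro h
    have h2 : (p : 𝓞 L) = 0 := Ideal.span_singleton_eq_bot.1 h
    exact (hS p hp).ne_zero (by exact_mod_cast h2)
  refine (Ideal.finite_factors h0).subset ?_
  intro v hv
  have hv' : (p : 𝓞 L) ∈ v.asIdeal := hv
  change v.asIdeal ∣ Ideal.span {(p : 𝓞 L)}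
  rw [Ideal.dvd_iff_le, Ideal.span_singleton_le_iff_mem]
  exact hv'

theorem equiv_cl {L : Type} [Field L] [NumberField L] (v : HeightOneSpectrum (𝓞 L)) :
    ClassGroup.equiv L (cl L v) =
      QuotientGroup.mk' (toPrincipalIdeal (𝓞 L) L).range (vJ v) := by
  unfold cl
  rw [ClassGroup.equiv_mk0]
  congr 1

variable {L M : Type} [Field L] [NumberField L] [Field M] [NumberField M] [Algebra L M]

/-- The prime below. -/
noncomputable def dn (w : HeightOneSpectrum (𝓞 M)) : HeightOneSpectrum (𝓞 L) :=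
  ⟨w.asIdeal.under (𝓞 L), inferInstance, Ideal.under_ne_bot (𝓞 L) w.ne_bot⟩

theorem fib_fin (v : HeightOneSpectrum (𝓞 L)) :
    Finite {w : HeightOneSpectrum (𝓞 M) // w.asIdeal.under (𝓞 L) = v.asIdeal} ∧
    Nat.card {w : HeightOneSpectrum (𝓞 M) // w.asIdeal.under (𝓞 L) = v.asIdeal} ≤
      Module.finrank L M := by
  have hvm : v.asIdeal.IsMaximal := v.isMaximal
  have hfinP : (primesOver v.asIdeal (𝓞 M)).Finite :=
    IsDedekindDomain.primesOver_finite v.asIdeal (𝓞 M)
  have : Fintype (primesOver v.asIdeal (𝓞 M)) := hfinP.fintype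
  have hsum := sum_ramification_inertia_eq_finrank v.asIdeal (𝓞 M)
  rw [← IsFractionRing.finrank_eq (𝓞 L) L (𝓞 M) M] at hsum
  let f : {w : HeightOneSpectrum (𝓞 M) // w.asIdeal.under (𝓞 L) = v.asIdeal} →
      primesOver v.asIdeal (𝓞 M) := fun w => ⟨w.1.asIdeal, w.1.isPrime, ⟨w.2.symm⟩⟩
  have hf : Function.Injective f := by
    intro w w' h
    apply Subtype.ext
    apply HeightOneSpectrum.ext
    exact congrArg Subtype.val h
  refine ⟨Finite.of_injective f hf, (Nat.card_le_card_of_injective f hf).trans ?_⟩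
  rw [← hsum, Nat.card_eq_fintype_card, ← Finset.card_univ, Finset.card_eq_sum_ones]
  refine Finset.sum_le_sum fun u _ => ?_
  have := u.2.1
  exact Nat.one_le_iff_ne_zero.mpr (Nat.mul_ne_zero (Ideal.ramificationIdx_pos _ _).ne'
      (Ideal.inertiaDeg_pos _ _).ne')

/-- Sums over primes of `M` are at most `[M : L]` times the sums over the primes below. -/
theorem sum_below (A : Set (HeightOneSpectrum (𝓞 M))) (B : Set (HeightOneSpectrum (𝓞 L)))
    (hAB : ∀ w ∈ A, dn w ∈ B ∧ absNorm w.asIdeal = absNorm (dn (L := L) w).asIdeal) {s : ℝ}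
    (hs : 1 < s) :
    ∑' w, Set.indicator A (x s) w ≤ Module.finrank L M * ∑' v, Set.indicator B (x s) v := by
  classical
  have hemb : ∀ v : HeightOneSpectrum (𝓞 L),
      ∃ f : {w : HeightOneSpectrum (𝓞 M) // w.asIdeal.under (𝓞 L) = v.asIdeal} →
        Fin (Module.finrank L M), Function.Injective f := by
    intro v
    obtain ⟨h1, h2⟩ := fib_fin (M := M) v
    have := Fintype.ofFinite {w : HeightOneSpectrum (𝓞 M) // w.asIdeal.under (𝓞 L) = v.asIdeal}
    rw [Nat.card_eq_fintype_card] at h2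
    obtain ⟨e⟩ := Function.Embedding.nonempty_of_card_le
      (β := Fin (Module.finrank L M)) (by simpa using h2)
    exact ⟨e, e.injective⟩
  choose f hf using hemb
  let g : A → B × Fin (Module.finrank L M) := fun w =>
    (⟨dn w.1, (hAB w.1 w.2).1⟩, f (dn w.1) ⟨w.1, rfl⟩)
  have hg : Function.Injective g := by
    rintro w w' h
    have h1 : dn (L := L) w.1 = dn w'.1 := congrArg (fun p => p.1.1) h
    have h2 : f (dn w.1) ⟨w.1, rfl⟩ = f (dn w'.1) ⟨w'.1, rfl⟩ := congrArg (fun p => p.2) h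
    have h3 : ∀ (v v' : HeightOneSpectrum (𝓞 L)) (_ : v = v') (a : HeightOneSpectrum (𝓞 M))
        (ha : a.asIdeal.under (𝓞 L) = v.asIdeal) (b : HeightOneSpectrum (𝓞 M))
        (hb : b.asIdeal.under (𝓞 L) = v'.asIdeal), f v ⟨a, ha⟩ = f v' ⟨b, hb⟩ → a = b := by
      intro v v' hvv a ha b hb hab
      subst hvv
      exact congrArg Subtype.val (hf v hab)
    exact Subtype.ext (h3 _ _ h1 w.1 rfl w'.1 rfl h2)
  have hsum := summable_x (K := L) hs
  have hs2 : Summable fun p : B × Fin (Module.finrank L M) => x (K := L) s p.1.1 := by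
    have h0 : Summable fun v : B => x (K := L) s v.1 := hsum.subtype B
    have h5 := h0.mul_of_nonneg (g := fun _ : Fin (Module.finrank L M) => (1 : ℝ))
      (Summable.of_finite) (fun v => (x_pos s v.1).le) (fun _ => zero_le_one)
    refine h5.congr fun p => ?_
    rw [mul_one]
  have h2 : (Module.finrank L M : ℝ) * ∑' v, Set.indicator B (x s) v =
      ∑' p : B × Fin (Module.finrank L M), x s p.1.1 := by
    rw [← tsum_subtype, hs2.tsum_prod, ← tsum_mul_left]
    refine tsum_congr fun v => ?_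
    simp
  rw [h2, ← tsum_subtype]
  refine Summable.tsum_le_tsum_of_inj g hg (fun p _ => (x_pos s p.1.1).le) (fun w => ?_)
    ((summable_x (K := M) hs).subtype A) hs2
  show x s w.1 ≤ x s (dn w.1)
  unfold x
  rw [(hAB w.1 w.2).2]

end K_NIX

open K_NIX in
theorem t_NIX (h1 : S_IDX) : S_NIX := by
  classical
  intro L M _ _ _ _ _ S hS U hU hcond
  set q := QuotientGroup.mk' (toPrincipalIdeal (𝓞 L) L).range with hq
  set H : Subgroup (ClassGroup (𝓞 L)) :=
    (U.map q).comap (ClassGroup.equiv L).toMonoidHom with hH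
  have hidx : H.index = U.index := by
    have hsurj : Function.Surjective (ClassGroup.equiv (R := 𝓞 L) L).toMonoidHom :=
      (ClassGroup.equiv (R := 𝓞 L) L).surjective
    rw [hH, Subgroup.index_comap_of_surjective _ hsurj]
    refine Subgroup.index_map_eq U (QuotientGroup.mk'_surjective _) ?_
    rw [hq, QuotientGroup.ker_mk']
    exact hU
  set d := Module.finrank L M with hd
  have hdpos : 0 < d := Module.finrank_pos
  have hdR : (0 : ℝ) < d := by exact_mod_cast hdpos
  let B : Set (HeightOneSpectrum (𝓞 L)) := {v | ∃ q : ℕ, q.Prime ∧ q ∉ S ∧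
    Nat.card (𝓞 L ⧸ v.asIdeal) = q ∧ HasAb L M v q}
  have hBH : ∀ v ∈ B, cl L v ∈ H := by
    rintro v ⟨p, hp, hpS, hc, hab⟩
    rw [hH, Subgroup.mem_comap]
    change ClassGroup.equiv L (cl L v) ∈ U.map q
    rw [equiv_cl]
    exact Subgroup.mem_map_of_mem q (hcond v p hp hpS hc hab)
  have hdens : ∃ C : ℝ, ∀ᶠ s : ℝ in 𝓝[>] 1,
      (1 / (d : ℝ)) * Real.log (1 / (s - 1)) - C ≤ ∑' v, Set.indicator B (x s) v := by
    let A : Set (HeightOneSpectrum (𝓞 M)) := {w | ¬ Above S w ∧ (absNorm w.asIdeal).Prime}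
    let B₂ : Set (HeightOneSpectrum (𝓞 M)) := {w | ¬ (absNorm w.asIdeal).Prime}
    let S' : Set (HeightOneSpectrum (𝓞 M)) := {w | Above S w}
    obtain ⟨C₂, h2⟩ := m_DEG2 M B₂ (fun v hv => hv)
    obtain ⟨C₃, h3⟩ := fin_bound S' (fin_above hS)
    obtain ⟨C₄, h4⟩ := (isBigO_sum M).bound
    refine ⟨(C₂ + C₃ + C₄) / d, ?_⟩
    filter_upwards [h4, self_mem_nhdsWithin] with s hs4 hs
    have hs' : (1 : ℝ) < s := hs
    rw [norm_one, mul_one, Real.norm_eq_abs] at hs4
    have h5 := neg_abs_le (∑' v : HeightOneSpectrum (𝓞 M), x s v - Real.log (1 / (s - 1)))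
    have h6 : ∑' v : HeightOneSpectrum (𝓞 M), x s v ≤
        ∑' v, Set.indicator A (x s) v + ∑' v, Set.indicator B₂ (x s) v +
          ∑' v, Set.indicator S' (x s) v := by
      have e1 := (summable_x (K := M) hs').indicator A
      have e2 := (summable_x (K := M) hs').indicator B₂
      have e3 := (summable_x (K := M) hs').indicator S'
      rw [← e1.tsum_add e2, ← (e1.add e2).tsum_add e3]
      refine (summable_x hs').tsum_le_tsum (fun v => ?_) ((e1.add e2).add e3)
      have hx := x_pos s v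
      have i1 : 0 ≤ Set.indicator A (x s) v := Set.indicator_nonneg (fun v _ => (x_pos s v).le) v
      have i2 : 0 ≤ Set.indicator B₂ (x s) v := Set.indicator_nonneg (fun v _ => (x_pos s v).le) v
      have i3 : 0 ≤ Set.indicator S' (x s) v := Set.indicator_nonneg (fun v _ => (x_pos s v).le) v
      by_cases hv : v ∈ S'
      · rw [Set.indicator_of_mem hv]
        linarith
      · by_cases hv2 : (absNorm v.asIdeal).Prime
        · rw [Set.indicator_of_mem (show v ∈ A from ⟨hv, hv2⟩)]
          linarith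
        · rw [Set.indicator_of_mem (show v ∈ B₂ from hv2)]
          linarith
    have h7 := h2 s hs'
    have h8 := h3 s hs'
    have hAB : ∀ w ∈ A, dn w ∈ B ∧ absNorm w.asIdeal = absNorm (dn (L := L) w).asIdeal := by
      rintro w ⟨hwS, hwp⟩
      have hprime : (dn (L := L) w).asIdeal.IsPrime := (dn w).isPrime
      have hlo : w.asIdeal.LiesOver (dn (L := L) w).asIdeal := ⟨rfl⟩
      have hwprime : w.asIdeal.IsPrime := w.isPrime
      have h9 := absNorm_pow_inertiaDeg (dn (L := L) w).asIdeal w.asIdeal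
      have h10 : absNorm w.asIdeal = absNorm (dn (L := L) w).asIdeal := by
        have h11 : absNorm (dn (L := L) w).asIdeal ∣ absNorm w.asIdeal := by
          rw [← h9]
          exact dvd_pow_self _ (Ideal.inertiaDeg_pos _ _).ne'
        rcases (Nat.dvd_prime hwp).1 h11 with h12 | h12
        · exfalso
          rw [h12, one_pow] at h9
          exact hwp.one_lt.ne h9
        · exact h12.symm
      refine ⟨⟨absNorm w.asIdeal, hwp, ?_, ?_, ?_⟩, h10⟩
      · intro hmem
        exact hwS ⟨_, hmem, Ideal.absNorm_mem w.asIdeal⟩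
      · rw [h10, Ideal.absNorm_apply, Submodule.cardQuot_apply]
      · exact ⟨w, rfl, by rw [Ideal.absNorm_apply, Submodule.cardQuot_apply]⟩
    have h9 := sum_below A B hAB hs'
    rw [← hd] at h9
    have h10 : Real.log (1 / (s - 1)) - (C₂ + C₃ + C₄) ≤ d * ∑' v, Set.indicator B (x s) v := by
      linarith
    have h11 : (1 / (d : ℝ)) * Real.log (1 / (s - 1)) - (C₂ + C₃ + C₄) / d =
        (Real.log (1 / (s - 1)) - (C₂ + C₃ + C₄)) / d := by
      field_simp
    rw [h11, div_le_iff₀ hdR]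
    linarith
  have h12 := h1 L B (1 / (d : ℝ)) (by positivity) hdens H hBH
  rw [hidx] at h12
  refine ⟨?_, ?_⟩
  · rw [← hidx]
    exact Subgroup.index_ne_zero_of_finite
  · rw [mul_one_div, div_le_one hdR] at h12
    exact_mod_cast h12

end Pool.Agent.MUXK
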