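import Pool.Agent.MUX.StKX

/-!
# MUX, block K: the norm on fractional ideals (module NRJ)
-/

set_option autoImplicit false

open NumberField IsDedekindDomain
open scoped nonZeroDivisors Pointwise

namespace Pool.Agent.MUXK

open Pool.Agent.MU3 Pool.Agent.RI

namespace NRJ

set_option linter.unusedSectionVars false

/-- Extension of a homomorphism to the group of fractions. -/
theorem lift {A G H : Type} [CommMonoid A] [CommGroup G] [CommGroup H] (j : A →* G)
    (hj : Function.Injective j) (hs : ∀ g : G, ∃ a b : A, g = j a / j b) (h : A →* H) :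
    ∃ N : G →* H, ∀ a, N (j a) = h a := by
  classical
  choose a b hab using hs
  have key : ∀ x y x' y' : A, j x / j y = j x' / j y' → h x / h y = h x' / h y' := by
    intro x y x' y' e
    rw [div_eq_div_iff_mul_eq_mul] at e ⊢
    rw [← map_mul, ← map_mul] at e ⊢
    rw [hj e]
  refine ⟨MonoidHom.mk' (fun g => h (a g) / h (b g)) ?_, ?_⟩
  · intro g g'
    have e : j (a (g * g')) / j (b (g * g')) = j (a g * a g') / j (b g * b g') := by
      rw [← hab, map_mul, map_mul, mul_div_mul_comm, ← hab, ← hab]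
    have := key _ _ _ _ e
    rw [this, map_mul, map_mul, mul_div_mul_comm]
  · intro x
    show h (a (j x)) / h (b (j x)) = h x
    have e : j (a (j x)) / j (b (j x)) = j x / j 1 := by rw [← hab, map_one, div_one]
    have := key _ _ _ _ e
    rw [this, map_one, div_one]

/-- Two homomorphisms which agree on the monoid agree on the group. -/
theorem ext' {A G H : Type} [CommMonoid A] [CommGroup G] [CommGroup H] (j : A →* G)
    (hs : ∀ g : G, ∃ a b : A, g = j a / j b) (N₁ N₂ : G →* H) (h : ∀ a, N₁ (j a) = N₂ (j a)) :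
    ∀ g, N₁ g = N₂ g := by
  intro g
  obtain ⟨a, b, rfl⟩ := hs g
  rw [map_div, map_div, h, h]

section

variable (K : Type) [Field K] [NumberField K]

/-- The nonzero ideals in the group of fractional ideals. -/
noncomputable abbrev jj : (Ideal (𝓞 K))⁰ →* J K := FractionalIdeal.mk0 K

theorem jj_inj : Function.Injective (jj K) := by
  intro a b h
  apply Subtype.ext
  have := congrArg Units.val h
  rw [FractionalIdeal.coe_mk0, FractionalIdeal.coe_mk0] at this
  exact FractionalIdeal.coeIdeal_injective this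

theorem jj_span {x : 𝓞 K} (_ : x ≠ 0) (h0 : Ideal.span {x} ∈ (Ideal (𝓞 K))⁰) (y : Kˣ)
    (hy : (y : K) = x) : jj K ⟨Ideal.span {x}, h0⟩ = prin y := by
  apply Units.ext
  rw [FractionalIdeal.coe_mk0, coe_toPrincipalIdeal, hy]
  show ((Ideal.span {x} : Ideal (𝓞 K)) : FractionalIdeal (𝓞 K)⁰ K) = _
  rw [FractionalIdeal.coeIdeal_span_singleton]

theorem span_mem {x : 𝓞 K} (hx : x ≠ 0) : Ideal.span {x} ∈ (Ideal (𝓞 K))⁰ := by
  rw [mem_nonZeroDivisors_iff_ne_zero]
  intro h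
  rw [Ideal.zero_eq_bot, Ideal.span_singleton_eq_bot] at h
  exact hx h

theorem jj_surj (g : J K) : ∃ a b : (Ideal (𝓞 K))⁰, g = jj K a / jj K b := by
  obtain ⟨a, aI, ha, hz⟩ := FractionalIdeal.exists_eq_spanSingleton_mul
    (g : FractionalIdeal (𝓞 K)⁰ K)
  have haI : aI ∈ (Ideal (𝓞 K))⁰ := by
    rw [mem_nonZeroDivisors_iff_ne_zero]
    rintro rfl
    rw [Ideal.zero_eq_bot, FractionalIdeal.coeIdeal_bot, mul_zero] at hz
    exact g.ne_zero hz
  refine ⟨⟨aI, haI⟩, ⟨Ideal.span {a}, span_mem K ha⟩, ?_⟩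
  rw [eq_div_iff_mul_eq']
  apply Units.ext
  rw [Units.val_mul, FractionalIdeal.coe_mk0, FractionalIdeal.coe_mk0, hz]
  show FractionalIdeal.spanSingleton (𝓞 K)⁰ ((algebraMap (𝓞 K) K) a)⁻¹ *
    (aI : FractionalIdeal (𝓞 K)⁰ K) *
    ((Ideal.span {a} : Ideal (𝓞 K)) : FractionalIdeal (𝓞 K)⁰ K) = _
  rw [FractionalIdeal.coeIdeal_span_singleton, mul_right_comm,
    FractionalIdeal.spanSingleton_mul_spanSingleton, inv_mul_cancel₀,
    FractionalIdeal.spanSingleton_one, one_mul]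
  intro h
  exact ha (FaithfulSMul.algebraMap_injective (𝓞 K) K (by rw [h, map_zero]))

theorem vJ_eq (v : HeightOneSpectrum (𝓞 K)) :
    vJ v = jj K ⟨v.asIdeal, mem_nonZeroDivisors_iff_ne_zero.2 v.ne_bot⟩ := rfl

end

section

variable {K : Type} [Field K] [NumberField K] {F : Type} [Field F] [Algebra F K]

/-- The automorphism of the ring of integers. -/
noncomputable abbrev ri (σ : K ≃ₐ[F] K) : 𝓞 K ≃+* 𝓞 K := RingOfIntegers.mapRingEquiv (σ : K ≃+* K)

theorem map_mem (σ : K ≃ₐ[F] K) (I : (Ideal (𝓞 K))⁰) :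
    (I : Ideal (𝓞 K)).map (ri σ) ∈ (Ideal (𝓞 K))⁰ := by
  rw [mem_nonZeroDivisors_iff_ne_zero]
  intro h
  have h1 : (I : Ideal (𝓞 K)) = ⊥ := by
    rw [Ideal.zero_eq_bot] at h
    exact (Ideal.map_eq_bot_iff_of_injective (ri σ).injective).1 h
  exact (mem_nonZeroDivisors_iff_ne_zero.1 I.2) h1

theorem smul_jj (σ : K ≃ₐ[F] K) (I : (Ideal (𝓞 K))⁰) :
    σ • jj K I = jj K ⟨(I : Ideal (𝓞 K)).map (ri σ), map_mem σ I⟩ := by
  apply Units.ext
  ext x
  rw [Pool.Agent.RI.mem_smul, FractionalIdeal.coe_mk0, FractionalIdeal.coe_mk0,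
    FractionalIdeal.mem_coeIdeal, FractionalIdeal.mem_coeIdeal]
  constructor
  · rintro ⟨y, hy, hyx⟩
    refine ⟨ri σ y, Ideal.mem_map_of_mem _ hy, ?_⟩
    have := congrArg σ hyx
    rw [AlgEquiv.apply_symm_apply] at this
    exact this
  · rintro ⟨y, hy, hyx⟩
    obtain ⟨z, hz, rfl⟩ := (Ideal.mem_map_of_equiv (ri σ) y).1 hy
    refine ⟨z, hz, ?_⟩
    rw [← hyx]
    exact (σ.symm_apply_apply (z : K)).symm

end

section

variable {k L M : Type} [Field k] [NumberField k] [Field L] [NumberField L] [Field M]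
    [NumberField M] [Algebra k L] [Algebra L M] [Algebra k M] [IsScalarTower k L M]

theorem intNorm_coe (x : 𝓞 M) :
    ((Algebra.intNorm (𝓞 L) (𝓞 M) x : 𝓞 L) : L) = Algebra.norm L (x : M) :=
  Algebra.algebraMap_intNorm (A := 𝓞 L) (K := L) (L := M) (B := 𝓞 M) x

theorem norm_equi (σ : M ≃ₐ[k] M) (τ : L ≃ₐ[k] L)
    (hστ : ∀ x : L, algebraMap L M (τ x) = σ (algebraMap L M x)) (x : M) :
    Algebra.norm L (σ x) = τ (Algebra.norm L x) := by
  have h := Algebra.norm_eq_of_equiv_equiv (τ : L ≃+* L) (σ : M ≃+* M) (by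
    ext y
    exact hστ y) x
  rw [h]
  exact (τ.apply_symm_apply _).symm

theorem intNorm_equi (σ : M ≃ₐ[k] M) (τ : L ≃ₐ[k] L)
    (hστ : ∀ x : L, algebraMap L M (τ x) = σ (algebraMap L M x)) (x : 𝓞 M) :
    Algebra.intNorm (𝓞 L) (𝓞 M) (ri σ x) = ri τ (Algebra.intNorm (𝓞 L) (𝓞 M) x) := by
  apply FaithfulSMul.algebraMap_injective (𝓞 L) L
  show ((Algebra.intNorm (𝓞 L) (𝓞 M) (ri σ x) : 𝓞 L) : L) =
    ((ri τ (Algebra.intNorm (𝓞 L) (𝓞 M) x) : 𝓞 L) : L)
  rw [intNorm_coe]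
  show Algebra.norm L (σ (x : M)) = τ ((Algebra.intNorm (𝓞 L) (𝓞 M) x : 𝓞 L) : L)
  rw [intNorm_coe, norm_equi σ τ hστ]

theorem relNorm_equi (σ : M ≃ₐ[k] M) (τ : L ≃ₐ[k] L)
    (hστ : ∀ x : L, algebraMap L M (τ x) = σ (algebraMap L M x)) (I : Ideal (𝓞 M)) :
    Ideal.relNorm (𝓞 L) (I.map (ri σ)) = (Ideal.relNorm (𝓞 L) I).map (ri τ) := by
  have h2 : (Ideal.relNorm (𝓞 L) I).map (ri τ) =
      Ideal.span ((ri τ : 𝓞 L →+* 𝓞 L) ∘ Algebra.intNorm (𝓞 L) (𝓞 M) '' (I : Set (𝓞 M))) :=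
    Ideal.map_relNorm (𝓞 L) I (ri τ : 𝓞 L →+* 𝓞 L)
  rw [h2, Ideal.relNorm_apply]
  congr 1
  ext y
  constructor
  · rintro ⟨x, hx, rfl⟩
    obtain ⟨z, hz, rfl⟩ := (Ideal.mem_map_of_equiv (ri σ) x).1 hx
    exact ⟨z, hz, (intNorm_equi σ τ hστ z).symm⟩
  · rintro ⟨x, hx, rfl⟩
    exact ⟨ri σ x, Ideal.mem_map_of_mem _ hx, intNorm_equi σ τ hστ x⟩

variable (L M) in
/-- The norm on the nonzero ideals. -/
noncomputable def nn : (Ideal (𝓞 M))⁰ →* (Ideal (𝓞 L))⁰ where
  toFun I := ⟨Ideal.relNorm (𝓞 L) (I : Ideal (𝓞 M)), by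
    rw [mem_nonZeroDivisors_iff_ne_zero]
    intro h
    exact (mem_nonZeroDivisors_iff_ne_zero.1 I.2) (Ideal.relNorm_eq_bot_iff.1 h)⟩
  map_one' := Subtype.ext (map_one (Ideal.relNorm (𝓞 L)))
  map_mul' a b := Subtype.ext (map_mul (Ideal.relNorm (𝓞 L)) (a : Ideal (𝓞 M)) (b : Ideal (𝓞 M)))

theorem nn_coe (I : (Ideal (𝓞 M))⁰) :
    ((nn L M I : (Ideal (𝓞 L))⁰) : Ideal (𝓞 L)) = Ideal.relNorm (𝓞 L) (I : Ideal (𝓞 M)) := rfl

end

end NRJ

open NRJ in
theorem t_NRJ : S_NRJ := by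
  intro k L M _ _ _ _ _ _ _ _ _ _ _ _
  obtain ⟨N, hN⟩ := lift (jj M) (jj_inj M) (jj_surj M) ((jj L).comp (nn L M))
  refine ⟨N, ?_, ?_, ?_⟩
  · -- principal ideals
    intro x
    obtain ⟨a, b, hb, hab⟩ := IsFractionRing.div_surjective (A := 𝓞 M) (x : M)
    have hb0 : b ≠ 0 := nonZeroDivisors.ne_zero hb
    have hinj := FaithfulSMul.algebraMap_injective (𝓞 M) M
    have ha0 : a ≠ 0 := by
      rintro rfl
      rw [map_zero, zero_div] at hab
      exact x.ne_zero hab.symm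
    have key : ∀ c : 𝓞 M, ∀ hc : c ≠ 0, ∀ u : Mˣ, (u : M) = c →
        N (prin u) = prin (Units.map (Algebra.norm L : M →* L) u) := by
      intro c hc u hu
      rw [← jj_span M hc (span_mem M hc) u hu, hN]
      have hn : Algebra.intNorm (𝓞 L) (𝓞 M) c ≠ 0 := by
        intro h
        have h2 : ((Algebra.intNorm (𝓞 L) (𝓞 M) c : 𝓞 L) : L) = 0 := by rw [h]; rfl
        rw [intNorm_coe, Algebra.norm_eq_zero_iff] at h2
        exact u.ne_zero (hu.trans h2)
      rw [← jj_span L hn (span_mem L hn) (Units.map (Algebra.norm L : M →* L) u)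
        (by rw [intNorm_coe, ← hu]; rfl)]
      rw [MonoidHom.comp_apply]
      congr 1
      apply Subtype.ext
      rw [nn_coe]
      exact Ideal.relNorm_singleton (𝓞 L) c
    set ua : Mˣ := Units.mk0 ((a : 𝓞 M) : M) (fun h => ha0 (hinj (by
      rw [map_zero]; exact h))) with hua
    set ub : Mˣ := Units.mk0 ((b : 𝓞 M) : M) (fun h => hb0 (hinj (by
      rw [map_zero]; exact h))) with hub
    have hx : x = ua / ub := by
      apply Units.ext
      rw [Units.val_div_eq_div_val]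
      exact hab.symm
    rw [hx, map_div, map_div, key a ha0 ua rfl, key b hb0 ub rfl, ← map_div, ← map_div]
  · -- primes
    intro w v hwv
    have hlo : w.asIdeal.LiesOver v.asIdeal := ⟨hwv.symm⟩
    have hvp : v.asIdeal.IsPrime := v.isPrime
    have hwp : w.asIdeal.IsPrime := w.isPrime
    obtain ⟨f, hf⟩ := Ideal.exists_relNorm_eq_pow_of_isPrime w.asIdeal v.asIdeal
    have h1 : N (vJ w) = vJ v ^ f := by
      rw [vJ_eq, hN, vJ_eq, ← map_pow, MonoidHom.comp_apply]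
      congr 1
      apply Subtype.ext
      rw [nn_coe]
      exact hf
    refine ⟨⟨f, h1⟩, fun hc => ?_⟩
    have h2 : Ideal.absNorm (Ideal.relNorm (𝓞 L) w.asIdeal) = Ideal.absNorm w.asIdeal :=
      Ideal.absNorm_relNorm (𝓞 L) (𝓞 M) w.asIdeal
    rw [hf, map_pow, Ideal.absNorm_apply, Ideal.absNorm_apply, Submodule.cardQuot_apply,
      Submodule.cardQuot_apply, hc] at h2
    have h3 : 1 < Nat.card (𝓞 L ⧸ v.asIdeal) := by
      have h4 : Ideal.absNorm v.asIdeal ≠ 1 := by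
        intro h
        exact hvp.ne_top (Ideal.absNorm_eq_one_iff.1 h)
      have h5 : Ideal.absNorm v.asIdeal ≠ 0 := by
        intro h
        exact v.ne_bot (Ideal.absNorm_eq_zero_iff.1 h)
      rw [Ideal.absNorm_apply, Submodule.cardQuot_apply] at h4 h5
      omega
    have h6 : f = 1 := by
      have : Nat.card (𝓞 L ⧸ v.asIdeal) ^ f = Nat.card (𝓞 L ⧸ v.asIdeal) ^ 1 := by
        rw [pow_one]; exact h2
      exact Nat.pow_right_injective h3 this
    rw [h1, h6, pow_one]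
  · -- automorphisms
    intro σ τ hστ z
    let N₁ : J M →* J L := N.comp (MulDistribMulAction.toMonoidHom (J M) σ)
    let N₂ : J M →* J L := (MulDistribMulAction.toMonoidHom (J L) τ).comp N
    refine ext' (jj M) (jj_surj M) N₁ N₂ ?_ z
    intro I
    show N (σ • jj M I) = τ • N (jj M I)
    rw [smul_jj, hN, hN, MonoidHom.comp_apply, MonoidHom.comp_apply, smul_jj]
    congr 1
    apply Subtype.ext
    rw [nn_coe]
    exact relNorm_equi σ τ hστ _

end Pool.Agent.MUXK
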