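import Pool.Agent.MUX.StKX
import Pool.Agent.MU3.P_STAB
import Mathlib.NumberTheory.NumberField.Ideal.Basic

/-!
# MUX, STABX: primes of degree one outside `S` are good (helper98)
-/

set_option autoImplicit false

open NumberField IsDedekindDomain Finset
open scoped nonZeroDivisors Pointwise

namespace Pool.Agent.MUXK

open Pool.Agent.MU3 Pool.Agent.RI Pool.Agent.RID

namespace K_STABX

theorem n_dvd {M : Type} [Field M] [NumberField M] (w : HeightOneSpectrum (𝓞 M)) {q n : ℕ}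
    (hn : n ≠ 0) (hq : q.Prime) (h : Nat.card (𝓞 M ⧸ w.asIdeal) = q) (hc : q.Coprime n)
    (ζ : 𝓞 M) (hζ : IsPrimitiveRoot ζ n) : n ∣ q - 1 := by
  have := w.isMaximal
  have : NeZero n := ⟨hn⟩
  let _ : Field (𝓞 M ⧸ w.asIdeal) := Ideal.Quotient.field w.asIdeal
  have : Finite (𝓞 M ⧸ w.asIdeal) := Nat.finite_of_card_ne_zero (by rw [h]; exact hq.ne_zero)
  have hN : Ideal.absNorm w.asIdeal = q := by
    rw [Ideal.absNorm_apply, Submodule.cardQuot_apply]
    exact h
  have hz := hζ.idealQuotient_mk (I := w.asIdeal) (by rw [hN]; exact hq.one_lt.ne')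
    (by rw [hN]; exact hc)
  set z : 𝓞 M ⧸ w.asIdeal := Ideal.Quotient.mk w.asIdeal ζ with hzd
  have hz0 : z ≠ 0 := hz.ne_zero hn
  have ho : orderOf (Units.mk0 z hz0) = n := by
    rw [← orderOf_units]
    exact hz.eq_orderOf.symm
  have := orderOf_dvd_natCard (Units.mk0 z hz0)
  rwa [ho, Nat.card_units, h] at this

end K_STABX

open K_STABX P_STAB in
theorem t_STABX : S_STABX := by
  intro p _ k L M _ _ _ _ _ _ _ _ _ S ζ hζ h2S hpS hS hram lam q hq hqS hcard hab
  have hna : ¬ Above S lam := not_above S hS lam hq hqS hcard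
  obtain ⟨w, -, hw⟩ := hab
  have hp : p.Prime := Fact.out
  have hc2 : q.Coprime 2 := (Nat.coprime_primes hq Nat.prime_two).2 (fun e => hqS (e ▸ h2S))
  have hcp : q.Coprime p := (Nat.coprime_primes hq hp).2 (fun e => hqS (e ▸ hpS))
  have hdvd : 2 * p ∣ q - 1 :=
    n_dvd w (mul_ne_zero two_ne_zero hp.ne_zero) hq hw (Nat.Coprime.mul_right hc2 hcp) ζ hζ
  refine ⟨hq, hqS, hdvd, hcard, fun σ hσ => ?_⟩
  have e1 := hram lam hna
  have := lam.isMaximal
  have := lam.isPrime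
  set P : Ideal (𝓞 k) := lam.asIdeal.under (𝓞 k) with hP
  have : lam.asIdeal.LiesOver P := ⟨rfl⟩
  have : P.IsMaximal := Ideal.IsMaximal.under (𝓞 k) lam.asIdeal
  have hfin : Finite (𝓞 L ⧸ lam.asIdeal) :=
    Nat.finite_of_card_ne_zero (by rw [hcard]; exact hq.ne_zero)
  have hperf : PerfectField P.ResidueField := inferInstance
  have hc := Ideal.card_stabilizer_eq (G := L ≃ₐ[k] L) P lam.asIdeal
  rw [Ideal.ramificationIdxIn_eq_ramificationIdx P lam.asIdeal (L ≃ₐ[k] L),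
    Ideal.inertiaDegIn_eq_inertiaDeg P lam.asIdeal (L ≃ₐ[k] L), e1, one_mul,
    Ideal.inertiaDeg_eq_of_isMaximal P lam.asIdeal] at hc
  have hf : Module.finrank (𝓞 k ⧸ P) (𝓞 L ⧸ lam.asIdeal) = 1 := by
    let _ : Field (𝓞 k ⧸ P) := Ideal.Quotient.field P
    exact fr1 hq hcard
  rw [hf, Nat.card_eq_one_iff_unique] at hc
  have := hc.1
  have h2 := Subsingleton.elim (⟨σ, hσ⟩ : MulAction.stabilizer (L ≃ₐ[k] L) lam.asIdeal) 1
  exact congrArg Subtype.val h2

end Pool.Agent.MUXK
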