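import Pool.Agent.MUX.StKX
import Pool.Agent.MU3.K1Main

/-!
# MUX, block K, SU0: `c₀ n` is a unit outside `S`
-/

set_option autoImplicit false

open NumberField IsDedekindDomain Finset Filter Topology
open scoped nonZeroDivisors Pointwise

namespace Pool.Agent.MUXK

open Pool.Agent.MU3 Pool.Agent.RI Pool.Agent.RID Pool.Agent.Lib_helper28.FROB

namespace K_SU0

/-- conjugates -/
theorem su_act {k L : Type} [Field k] [Field L] [NumberField L] [Algebra k L] {S : Finset ℕ}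
    {x : L} (h : SU S L x) (σ : L ≃ₐ[k] L) : SU S L (σ x) := by
  intro v hv
  have h1 : ¬ Above S (mv σ⁻¹ v) := fun h => hv ((K1M.above_mv σ⁻¹ v).1 h)
  have h2 := val_mv σ (mv σ⁻¹ v) x
  rw [← mv_mul, mul_inv_cancel, mv_one] at h2
  rw [h2]
  exact h _ h1

/-- products -/
theorem su_prod {L ι : Type} [Field L] [NumberField L] {S : Finset ℕ} (s : Finset ι) {f : ι → L}
    (h : ∀ i ∈ s, SU S L (f i)) : SU S L (∏ i ∈ s, f i) := by
  intro v hv
  rw [map_prod]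
  exact Finset.prod_eq_one fun i hi => h i hi v hv

/-- descent to a subfield -/
theorem su_down {L M : Type} [Field L] [NumberField L] [Field M] [NumberField M] [Algebra L M]
    {S : Finset ℕ} {x : L} (hx : x ≠ 0) (h : SU S M (algebraMap L M x)) : SU S L x := by
  intro v hv
  obtain ⟨w, hw⟩ := INVI.exists_above L M v
  have hw' : ¬ Above S w := by
    rintro ⟨p, hp, hpw⟩
    apply hv
    refine ⟨p, hp, ?_⟩
    rw [← hw, Ideal.under_def, Ideal.mem_comap, map_natCast]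
    exact hpw
  have h1 := h w hw'
  have e := cnt_ext w v hw (Units.mk0 x hx)
  have h2 : cnt w (Units.map (algebraMap L M : L →* M) (Units.mk0 x hx)) = 0 :=
    (val_one_iff _).1 h1
  rw [h2] at e
  have hpos : 0 < w.asIdeal.ramificationIdx (𝓞 L) := Ideal.ramificationIdx_pos w.asIdeal (𝓞 L)
  have h3 : cnt v (Units.mk0 x hx) = 0 := by
    rcases mul_eq_zero.1 e.symm with h4 | h4
    · exfalso
      have : w.asIdeal.ramificationIdx (𝓞 L) = 0 := by exact_mod_cast h4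
      omega
    · exact h4
  exact (val_one_iff (Units.mk0 x hx)).2 h3

end K_SU0

open K_SU0

/-- SU0. -/
theorem t_SU0 : S_SU0 := by
  intro F _ p _ k K₀ K B _ _ _ _ hX hk hk₀ hkK S c c₀ n₁ hI n hn
  have hh : K₀ ⊔ B n ≤ K ⊔ B n := sup_le_sup_right hX.le _
  let _ := algC (hk n)
  let _ := algC hh
  have : NumberField k := numC k
  have : FiniteDimensional ↥k ↥(K ⊔ B n) := by
    have : IsScalarTower ℚ ↥k ↥(K ⊔ B n) := IsScalarTower.of_algebraMap_eq fun x => rfl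
    exact FiniteDimensional.right ℚ ↥k ↥(K ⊔ B n)
  have hfin : Finite (↥(K ⊔ B n) ≃ₐ[k] ↥(K ⊔ B n)) := inferInstance
  have := Fintype.ofFinite (NC (hk n) (K₀ ⊔ B n))
  have hc : (⟨c n, hI.mem n⟩ : ↥(K ⊔ B n)) ≠ 0 := by
    intro h
    exact hI.ne n (congrArg Subtype.val h)
  have hsu := hI.su n hn
  have hnorm := hI.norm n
  rw [finprod_eq_prod_of_fintype] at hnorm
  set y : ↥(K ⊔ B n) := ∏ g : NC (hk n) (K₀ ⊔ B n),
    (g : ↥(K ⊔ B n) ≃ₐ[k] ↥(K ⊔ B n)) ⟨c n, hI.mem n⟩ with hy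
  have hy1 : c₀ n = (y : ℂ) := by
    rw [hnorm, hy]
    exact (map_prod (K ⊔ B n).val _ _).symm
  have hy0 : y ≠ 0 := by
    rw [hy, Finset.prod_ne_zero_iff]
    intro g _ h
    exact hc ((map_eq_zero_iff _ (g : ↥(K ⊔ B n) ≃ₐ[k] ↥(K ⊔ B n)).injective).1 h)
  have hc0 : c₀ n ≠ 0 := by
    intro h
    apply hy0
    apply Subtype.ext
    rw [← hy1, h]
    rfl
  refine ⟨hc0, ?_⟩
  have hx0 : (⟨c₀ n, hI.mem₀ n⟩ : ↥(K₀ ⊔ B n)) ≠ 0 := by
    intro h
    exact hc0 (congrArg Subtype.val h)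
  refine su_down (M := ↥(K ⊔ B n)) hx0 ?_
  have e : algebraMap ↥(K₀ ⊔ B n) ↥(K ⊔ B n) ⟨c₀ n, hI.mem₀ n⟩ = y := Subtype.ext hy1
  rw [e, hy]
  exact su_prod _ fun g _ => su_act hsu _

end Pool.Agent.MUXK
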