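import Pool.Agent.MUX.StKX
import Pool.Agent.MU3.MSPLS
import Pool.Agent.MU3.MDEG2

/-!
# MUX, block K: module THDX (helper26)

The primes modulo which `t` is not a `p`-th power generate a subgroup of index at most two of the
class group, so a stable subgroup which contains them contains all `(σ • x) * x⁻¹`.
-/

set_option autoImplicit false

open NumberField IsDedekindDomain Finset Filter Topology Asymptotics
open scoped nonZeroDivisors Pointwise

namespace Pool.Agent.MUXK

open Pool.Agent.MU3 Pool.Agent.RI Pool.Agent.RID Pool.Agent.Lib_helper28.FROB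

namespace THDX

variable {L : Type} [Field L] [NumberField L]

theorem fin_above {S : Finset ℕ} (hS : ∀ p ∈ S, p.Prime) :
    {v : HeightOneSpectrum (𝓞 L) | Above S v}.Finite := by
  have h1 : {v : HeightOneSpectrum (𝓞 L) | Above S v} ⊆
      ⋃ p ∈ S, {v : HeightOneSpectrum (𝓞 L) | (p : 𝓞 L) ∈ v.asIdeal} := by
    rintro v ⟨p, hp, hv⟩
    exact Set.mem_biUnion hp hv
  refine Set.Finite.subset (Set.Finite.biUnion S.finite_toSet ?_) h1
  intro p hp
  have h0 : (Ideal.span {(p : 𝓞 L)}) ≠ 0 := by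
    intro h
    have h2 : (p : 𝓞 L) = 0 := Ideal.span_singleton_eq_bot.1 h
    exact (hS p hp).ne_zero (by exact_mod_cast h2)
  refine (Ideal.finite_factors h0).subset ?_
  intro v hv
  have hv' : (p : 𝓞 L) ∈ v.asIdeal := hv
  change v.asIdeal ∣ Ideal.span {(p : 𝓞 L)}
  rw [Ideal.dvd_iff_le, Ideal.span_singleton_le_iff_mem]
  exact hv'

theorem equiv_cl (v : HeightOneSpectrum (𝓞 L)) :
    ClassGroup.equiv L (cl L v) =
      QuotientGroup.mk' (toPrincipalIdeal (𝓞 L) L).range (vJ v) := by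
  unfold cl
  rw [ClassGroup.equiv_mk0]
  congr 1

theorem fin_bound (S : Set (HeightOneSpectrum (𝓞 L)))
    (hS : S.Finite) : ∃ C : ℝ, ∀ s : ℝ, 1 < s → ∑' v, Set.indicator S (x s) v ≤ C := by
  classical
  refine ⟨hS.toFinset.card, fun s hs => ?_⟩
  rw [tsum_eq_sum (s := hS.toFinset)]
  · refine (Finset.sum_le_card_nsmul _ _ 1 fun v _ => ?_).trans (by simp)
    unfold Set.indicator
    split_ifs
    · have := x_le hs.le v
      linarith
    · norm_num
  · intro v hv
    rw [Set.indicator_of_notMem]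
    simpa using hv

/-- The sum over a set whose complement is covered by three small sets. -/
theorem lower {B B₁ B₂ B₃ : Set (HeightOneSpectrum (𝓞 L))}
    (hcov : ∀ v, v ∈ B ∨ v ∈ B₁ ∨ v ∈ B₂ ∨ v ∈ B₃) {s : ℝ} (hs : 1 < s) :
    ∑' v : HeightOneSpectrum (𝓞 L), x s v ≤ ∑' v, Set.indicator B (x s) v +
      ∑' v, Set.indicator B₁ (x s) v + ∑' v, Set.indicator B₂ (x s) v +
        ∑' v, Set.indicator B₃ (x s) v := by
  have hsum := summable_x (K := L) hs
  have e0 := hsum.indicator B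
  have e1 := hsum.indicator B₁
  have e2 := hsum.indicator B₂
  have e3 := hsum.indicator B₃
  rw [← e0.tsum_add e1, ← (e0.add e1).tsum_add e2, ← ((e0.add e1).add e2).tsum_add e3]
  refine hsum.tsum_le_tsum (fun v => ?_) (((e0.add e1).add e2).add e3)
  have i0 : 0 ≤ Set.indicator B (x s) v := Set.indicator_nonneg (fun v _ => (x_pos s v).le) v
  have i1 : 0 ≤ Set.indicator B₁ (x s) v := Set.indicator_nonneg (fun v _ => (x_pos s v).le) v
  have i2 : 0 ≤ Set.indicator B₂ (x s) v := Set.indicator_nonneg (fun v _ => (x_pos s v).le) v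
  have i3 : 0 ≤ Set.indicator B₃ (x s) v := Set.indicator_nonneg (fun v _ => (x_pos s v).le) v
  rcases hcov v with h | h | h | h
  · rw [Set.indicator_of_mem h] at *
    linarith
  · rw [Set.indicator_of_mem h] at *
    linarith
  · rw [Set.indicator_of_mem h] at *
    linarith
  · rw [Set.indicator_of_mem h] at *
    linarith

end THDX

open THDX in
theorem t_THDX (h1 : S_IDX) (h2 : S_KUMX) : S_THDX := by
  intro p _ k L _ _ _ _ ζ t hζ ht S hS U hU hstab hcond σ z
  have hp : p.Prime := Fact.out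
  have hp2 : (2 : ℝ) ≤ p := by exact_mod_cast hp.two_le
  obtain ⟨M, _, _, _, hM⟩ := h2 p L ζ (t : 𝓞 L) hζ ht
  set q := QuotientGroup.mk' (toPrincipalIdeal (𝓞 L) L).range with hq
  set H : Subgroup (ClassGroup (𝓞 L)) :=
    (U.map q).comap (ClassGroup.equiv L).toMonoidHom with hH
  -- the sets of primes
  have hS' : ∀ ℓ ∈ insert p S, ℓ.Prime := by
    intro ℓ hℓ
    rcases Finset.mem_insert.1 hℓ with h | h
    · rw [h]
      exact hp
    · exact hS ℓ h
  let B : Set (HeightOneSpectrum (𝓞 L)) := {v | (Ideal.absNorm v.asIdeal).Prime ∧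
    Ideal.absNorm v.asIdeal ∉ S ∧ ∀ a : 𝓞 L, (t : 𝓞 L) - a ^ p ∉ v.asIdeal}
  let B₁ : Set (HeightOneSpectrum (𝓞 L)) := {v | p ≤ spl L M v}
  let B₂ : Set (HeightOneSpectrum (𝓞 L)) := {v | ¬ (Ideal.absNorm v.asIdeal).Prime}
  let B₃ : Set (HeightOneSpectrum (𝓞 L)) := {v | Above (insert p S) v}
  have htv : ∀ v : HeightOneSpectrum (𝓞 L), (t : 𝓞 L) ∉ v.asIdeal := by
    intro v h
    exact v.isPrime.ne_top (Ideal.eq_top_of_isUnit_mem _ h t.isUnit)
  have hcov : ∀ v, v ∈ B ∨ v ∈ B₁ ∨ v ∈ B₂ ∨ v ∈ B₃ := by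
    intro v
    by_cases c2 : (Ideal.absNorm v.asIdeal).Prime
    · by_cases c3 : Above (insert p S) v
      · exact Or.inr (Or.inr (Or.inr c3))
      · by_cases c4 : ∀ a : 𝓞 L, (t : 𝓞 L) - a ^ p ∉ v.asIdeal
        · refine Or.inl ⟨c2, ?_, c4⟩
          intro hmem
          exact c3 ⟨_, Finset.mem_insert_of_mem hmem, Ideal.absNorm_mem v.asIdeal⟩
        · push Not at c4
          refine Or.inr (Or.inl (hM v ?_ (htv v) c4))
          intro hpv
          exact c3 ⟨p, Finset.mem_insert_self _ _, hpv⟩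
    · exact Or.inr (Or.inr (Or.inl c2))
  obtain ⟨C₁, e1⟩ := m_SPLS L M p B₁ (fun v hv => hv)
  obtain ⟨C₂, e2⟩ := m_DEG2 L B₂ (fun v hv => hv)
  obtain ⟨C₃, e3⟩ := fin_bound B₃ (fin_above hS')
  obtain ⟨C₄, e4⟩ := (isBigO_sum L).bound
  have hc : (0 : ℝ) < 1 - 1 / p := by
    have h3 : (1 : ℝ) / p ≤ 1 / 2 := one_div_le_one_div_of_le (by norm_num) hp2
    linarith
  have hidx := h1 L B (1 - 1 / p) hc ⟨C₁ / p + C₂ + C₃ + C₄, by
    filter_upwards [e1, e4, self_mem_nhdsWithin] with s f1 f4 hs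
    have hs' : (1 : ℝ) < s := hs
    rw [norm_one, mul_one, Real.norm_eq_abs] at f4
    have h5 := neg_abs_le (∑' v : HeightOneSpectrum (𝓞 L), x s v - Real.log (1 / (s - 1)))
    have h6 := lower hcov hs'
    have h7 := e2 s hs'
    have h8 := e3 s hs'
    have h9 : ∑' v, Set.indicator B₁ (x s) v ≤ (Real.log (1 / (s - 1)) + C₁) / p := by
      rw [le_div_iff₀ (by linarith)]
      linarith
    have h10 : (Real.log (1 / (s - 1)) + C₁) / p = 1 / p * Real.log (1 / (s - 1)) + C₁ / p := by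
      ring
    have h11 : (1 - 1 / (p : ℝ)) * Real.log (1 / (s - 1)) =
      Real.log (1 / (s - 1)) - 1 / p * Real.log (1 / (s - 1)) := by ring
    linarith⟩ H (by
    intro v hv
    obtain ⟨g1, g2, g3⟩ := hv
    have hcard : Nat.card (𝓞 L ⧸ v.asIdeal) = Ideal.absNorm v.asIdeal := by
      rw [Ideal.absNorm_apply, Submodule.cardQuot_apply]
    have h3 := hcond v (Ideal.absNorm v.asIdeal) g1 g2 hcard g3
    rw [hH, Subgroup.mem_comap]
    change ClassGroup.equiv L (cl L v) ∈ U.map q
    rw [equiv_cl]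
    exact Subgroup.mem_map_of_mem q h3)
  -- the index
  have hUi : U.index = H.index := by
    have hs1 : Function.Surjective q := QuotientGroup.mk'_surjective _
    have a1 : (U.map q).comap q = U := by
      rw [Subgroup.comap_map_eq, hq, QuotientGroup.ker_mk', sup_eq_left]
      exact hU
    have a2 : H.index = (U.map q).index :=
      Subgroup.index_comap_of_surjective _ (ClassGroup.equiv L).surjective
    have a3 : ((U.map q).comap q).index = (U.map q).index :=
      Subgroup.index_comap_of_surjective _ hs1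
    rw [a2, ← a3, a1]
  have hH0 : H.index ≠ 0 := Subgroup.index_ne_zero_of_finite
  have hH2 : H.index ≤ 2 := by
    by_contra hcon
    push Not at hcon
    have h3 : (3 : ℝ) ≤ H.index := by exact_mod_cast hcon
    have h4 : (1 : ℝ) / p ≤ 1 / 2 := one_div_le_one_div_of_le (by norm_num) hp2
    nlinarith
  have hU12 : U.index = 1 ∨ U.index = 2 := by omega
  rcases hU12 with h3 | h3
  · rw [Subgroup.index_eq_one.1 h3]
    exact Subgroup.mem_top _
  · rw [Subgroup.mul_mem_iff_of_index_two h3, U.inv_mem_iff]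
    constructor
    · intro h4
      have h5 := hstab σ⁻¹ _ h4
      rwa [inv_smul_smul] at h5
    · intro h4
      exact hstab σ _ h4

end Pool.Agent.MUXK
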