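import Pool.Agent.MUX.K_ALGX
import Pool.Agent.MUX.K_EIGX
import Pool.Agent.MUX.K_EPX
import Pool.Agent.MUX.K_FINX
import Pool.Agent.MUX.K_GALX
import Pool.Agent.MUX.K_GENX
import Pool.Agent.MUX.K_I3X
import Pool.Agent.MUX.K_IDX
import Pool.Agent.MUX.K_KINX
import Pool.Agent.MUX.K_KNM
import Pool.Agent.MUX.K_KOLX
import Pool.Agent.MUX.K_KUMX
import Pool.Agent.MUX.K_LFX
import Pool.Agent.MUX.K_LGX
import Pool.Agent.MUX.K_M0X
import Pool.Agent.MUX.K_MAINKX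
import Pool.Agent.MUX.K_NCP
import Pool.Agent.MUX.K_NILP
import Pool.Agent.MUX.K_NILXX
import Pool.Agent.MUX.K_NIX
import Pool.Agent.MUX.K_NR1
import Pool.Agent.MUX.K_NRJ
import Pool.Agent.MUX.K_NRX
import Pool.Agent.MUX.K_RAMX
import Pool.Agent.MUX.K_RSX
import Pool.Agent.MUX.K_STABX
import Pool.Agent.MUX.K_SU0
import Pool.Agent.MUX.K_THDX
import Pool.Agent.MUX.K_TNX
import Pool.Agent.MUX.K_TWX
import Pool.Agent.MU3.KAll

/-! # Block K of the project MUX, assembled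

`StKX.lean` states the passage from the inputs to the growth of the class numbers, for every prime `p`; the files
`K_*.lean` prove the statements. Here they are put together: `k_X : S_X` without hypotheses. -/

namespace Pool.Agent.MUXK

open Pool.Agent.MU3

theorem k_GALX : S_GALX := t_GALX
theorem k_GENX : S_GENX := t_GENX
theorem k_TWX : S_TWX := t_TWX k_GALX k_GENX
theorem k_LFX : S_LFX := t_LFX k_GENX
theorem k_RSX : S_RSX := t_RSX k_GALX k_GENX k_TWX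
theorem k_M0X : S_M0X := t_M0X kPRB k_GENX
theorem k_RAMX : S_RAMX := t_RAMX
theorem k_NRJ : S_NRJ := t_NRJ
theorem k_STABX : S_STABX := t_STABX
theorem k_KNM : S_KNM := t_KNM k_NRJ k_STABX
theorem k_KINX : S_KINX := t_KINX
theorem k_KOLX : S_KOLX := t_KOLX k_KINX k_KNM k_GALX k_RAMX
theorem k_SU0 : S_SU0 := t_SU0
theorem k_EPX : S_EPX := t_EPX
theorem k_IDX : S_IDX := t_IDX k_EPX
theorem k_KUMX : S_KUMX := t_KUMX
theorem k_THDX : S_THDX := t_THDX k_IDX k_KUMX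
theorem k_NIX : S_NIX := t_NIX k_IDX
theorem k_ALGX : S_ALGX := t_ALGX
theorem k_EIGX : S_EIGX := t_EIGX
theorem k_LGX : S_LGX := t_LGX
theorem k_NILXX : S_NILXX := t_NILXX k_ALGX k_LGX
theorem k_NILP : S_NILP := t_NILP k_EIGX k_STABX k_THDX k_NRJ k_NIX k_NILXX
theorem k_NCP : S_NCP := t_NCP
theorem k_TNX : S_TNX := t_TNX
theorem k_NR1 : S_NR1 := t_NR1 k_GALX k_GENX k_LFX
theorem k_NRX : S_NRX := t_NRX k_NR1 k_RSX
theorem k_I3X : S_I3X := t_I3X k_RSX k_NRX k_TNX k_NCP k_GALX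
theorem k_FINX : S_FINX := t_FINX k_GENX
theorem k_MAINKX : S_MAINKX :=
  t_MAINKX k_GALX k_TWX k_LFX k_M0X k_RAMX k_KOLX k_SU0 k_I3X k_NILP k_FINX

end Pool.Agent.MUXK
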