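import Pool.Agent.MUX.StXE

/-!
# MUX, block E, module GAL (helper44): from the main theorem of complex multiplication to `GalE`

The argument is that of `W_KER.lean` (helper65), with `RingE A B` in place of `CQ A B` and with
ideals as moduli.
-/

set_option autoImplicit false

open WeierstrassCurve Polynomial NumberField IsDedekindDomain

namespace Pool.Agent.MUXE

open _root_.MU3 Pool.Agent.MU3A Pool.Agent.MU3B Pool.Agent.MUX Pool.Agent.MUXU Pool.Agent.RI

noncomputable section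

namespace GalX

/-- automorphisms of `ℂ` trivial on `k` are `k`-linear -/
lemma fix {A B : ℤ} {σ : ℂ ≃+* ℂ} (hσ : FixK A B σ) : ∀ y ∈ kk A B, σ y = y := by
  intro y hy
  induction hy using IntermediateField.adjoin_induction with
  | mem x hx => rw [Set.mem_singleton_iff] at hx; rw [hx]; exact hσ
  | algebraMap x => simp
  | add x y _ _ hx hy => rw [map_add, hx, hy]
  | inv x _ hx => rw [map_inv₀, hx]
  | mul x y _ _ hx hy => rw [map_mul, hx, hy]

lemma embm {A B : ℤ} (hR : RingE A B) (x y : OO A B) : emb (x * y) = emb x * emb y := by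
  obtain ⟨φ, hφ⟩ := hR.hom
  rw [← hφ, ← hφ, ← hφ, map_mul]

lemma emb1 {A B : ℤ} (hR : RingE A B) : emb (1 : OO A B) = 1 := by
  obtain ⟨φ, hφ⟩ := hR.hom
  rw [← hφ, map_one]

/-- lattices of normalised curves are stable under `O` -/
lemma stab {A B : ℤ} (hR : RingE A B) {b : Ideal (OO A B)} {L : PeriodPair} {om : ℂ}
    (hL : IsNL b L om) (x : OO A B) {z : ℂ} (hz : z ∈ L.lattice) : emb x * z ∈ L.lattice := by
  obtain ⟨y, hy, rfl⟩ := (hL.mem z).1 hz
  refine (hL.mem _).2 ⟨x * y, b.mul_mem_left x hy, ?_⟩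
  rw [embm hR]
  ring

lemma g2_ne {A B : ℤ} {b : Ideal (OO A B)} {L : PeriodPair} {om : ℂ} (hL : IsNL b L om) :
    L.g₂ ≠ 0 := by
  intro h0
  have h1 := hL.nrm
  rw [h0] at h1
  have h2 : L.g₃ = 0 := by
    have h3 : (18 : ℂ) * L.g₃ = 0 := by linear_combination h1
    rcases mul_eq_zero.1 h3 with h | h
    · norm_num at h
    · exact h
  exact (b_DSC L).1 (by rw [h0, h2]; ring)

/-- the core: an isogeny of degree one between normalised lattices -/
lemma core {A B : ℤ} (hR : RingE A B) {b b' : Ideal (OO A B)} {L L' : PeriodPair}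
    {om om' mu : ℂ} {c : OO A B} (hL : IsNL b L om) (hL' : IsNL b' L' om')
    (hq : IsQ (sp c) L L' mu) :
    kap L' = kap L ∧ (mu = emb c ∨ mu = -emb c) ∧ (∀ z, z ∈ L.lattice ↔ z ∈ L'.lattice) ∧
      ∀ z, L'.weierstrassP z = L.weierstrassP z := by
  obtain ⟨hmu, hq⟩ := hq
  have hq' : ∀ z : ℂ, mu * z ∈ L'.lattice ↔ emb c * z ∈ L.lattice := by
    intro z
    rw [hq z]
    constructor
    · intro h
      exact h c (Ideal.mem_span_singleton_self c)
    · intro h x hx
      obtain ⟨y, rfl⟩ := Ideal.mem_span_singleton'.1 hx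
      rw [embm hR, mul_assoc]
      exact stab hR hL y h
  have hc : emb c ≠ 0 := by
    intro h0
    have h1 := (hq' (L'.ω₁ / 2 / mu)).2 (by rw [h0, zero_mul]; exact L.lattice.zero_mem)
    rw [mul_div_cancel₀ _ hmu] at h1
    exact L'.ω₁_div_two_notMem_lattice h1
  set u : ℂ := mu / emb c with hu
  have hu0 : u ≠ 0 := div_ne_zero hmu hc
  have hul : ∀ z : ℂ, z ∈ L.lattice ↔ u * z ∈ L'.lattice := by
    intro z
    have h1 := hq' (z / emb c)
    rw [mul_div_cancel₀ _ hc] at h1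
    rw [← h1, hu]
    have h2 : mu * (z / emb c) = mu / emb c * z := by ring
    rw [h2]
  obtain ⟨-, -, h3, h4⟩ := ta_SCP L L' u hu0 hul
  have hg := g2_ne hL
  have hu2 : u ^ 2 = 1 := by
    have h5 := hL'.nrm
    rw [h3, h4] at h5
    have h6 := hL.nrm
    have h7 : L.g₂ * u ^ 2 = L.g₂ := by
      have h8 : L.g₂ / u ^ 4 * u ^ 6 = -18 * (L.g₃ / u ^ 6) * u ^ 6 := by rw [h5]
      have h9 : L.g₂ / u ^ 4 * u ^ 6 = L.g₂ * u ^ 2 := by
        field_simp
      have h10 : -18 * (L.g₃ / u ^ 6) * u ^ 6 = -18 * L.g₃ := by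
        field_simp
      rw [h9, h10, ← h6] at h8
      exact h8
    have h11 : L.g₂ * (u ^ 2 - 1) = 0 := by linear_combination h7
    rcases mul_eq_zero.1 h11 with h | h
    · exact absurd h hg
    · linear_combination h
  have hu1 : u = 1 ∨ u = -1 := by
    have h5 : (u - 1) * (u + 1) = 0 := by linear_combination hu2
    rcases mul_eq_zero.1 h5 with h | h
    · left; linear_combination h
    · right; linear_combination h
  have hmuc : mu = u * emb c := by rw [hu, div_mul_cancel₀ _ hc]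
  have hlat : ∀ z, z ∈ L.lattice ↔ z ∈ L'.lattice := by
    intro z
    rw [hul z]
    rcases hu1 with h | h
    · rw [h, one_mul]
    · rw [h, neg_one_mul, neg_mem_iff]
  obtain ⟨k1, -, k3, -⟩ := ta_SCP L L' 1 one_ne_zero (fun z => by rw [one_mul]; exact hlat z)
  refine ⟨?_, ?_, hlat, fun z => ?_⟩
  · unfold kap
    rw [k3]
    ring
  · rcases hu1 with h | h
    · left; rw [hmuc, h, one_mul]
    · right; rw [hmuc, h, neg_one_mul]
  · have := k1 z
    rwa [one_mul, one_pow, div_one] at this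

/-- from `ActI` for all lattices to `ActE` -/
lemma mk {A B : ℤ} (hR : RingE A B) {m : Ideal (OO A B)} {c : OO A B}
    {F : IntermediateField (kk A B) ℂ} (σ : F →ₐ[kk A B] ℂ) (s : ℂ ≃+* ℂ)
    (hσ : ∀ y : F, σ y = s y) (hc : IsCoprime (sp c) m)
    (h : ∀ (b : Ideal (OO A B)) (L : PeriodPair) (om : ℂ), IsNL b L om →
      ∃ (b' : Ideal (OO A B)) (L' : PeriodPair) (om' mu : ℂ), IsNL b' L' om' ∧
        ActI s m (sp c) L L' mu) : ActE σ m c := by
  refine ⟨hc, fun L hN => ?_⟩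
  obtain ⟨b, om, hL⟩ := hN
  obtain ⟨b', L', om', mu, hL', hA⟩ := h b L om hL
  obtain ⟨h1, h2, h3, h4⟩ := core hR hL hL' hA.isq
  refine ⟨fun hk => ?_, fun z hz hz' => ?_⟩
  · rw [hσ]
    show s (kap L) = kap L
    rw [← hA.kap, h1]
  · rcases hA.act z hz with ⟨h5, -⟩ | ⟨-, h6, h7, -⟩
    · exact absurd h5 hz'
    · rw [← h3] at h6
      have h8 : emb c * z ∉ L.lattice := by
        rcases h2 with h | h
        · rw [← h]; exact h6
        · intro h9
          apply h6
          rw [h, neg_mul]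
          exact neg_mem h9
      refine ⟨h8, fun hx => ?_⟩
      rw [hσ]
      show s (xn L z) = _
      rw [h7]
      unfold xn
      rw [h4]
      rcases h2 with h | h
      · rw [h]
      · rw [h, neg_mul, L.weierstrassP_neg]

/-- an embedding of `RF m` extends to an automorphism of `ℂ` -/
lemma extd {A B : ℤ} (T : TorX A B) {m : Ideal (OO A B)} (hm : m ≠ ⊥)
    (σ : RF m →ₐ[kk A B] ℂ) : ∃ s : ℂ ≃+* ℂ, FixK A B s ∧ ∀ y : RF m, σ y = s y := by
  haveI := T.fin m hm
  haveI := T.gal m hm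
  let e : RF m ≃ₐ[kk A B] RF m := Normal.algHomEquivAut (kk A B) ℂ (RF m) σ
  have he : ∀ y : RF m, σ y = ((e y : RF m) : ℂ) := by
    intro y
    have h1 := (Normal.algHomEquivAut (kk A B) ℂ (RF m)).symm_apply_apply σ
    have h2 := congrArg (fun g : RF m →ₐ[kk A B] ℂ => g y) h1
    exact h2.symm
  let D : IntermediateField ℚ ℂ :=
    (RF m : IntermediateField (kk A B) ℂ).restrictScalars ℚ
  have hle : kk A B ≤ D := fun x hx =>
    (RF m : IntermediateField (kk A B) ℂ).algebraMap_mem ⟨x, hx⟩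
  have hDy : ∀ y ∈ D, y ∈ (RF m : IntermediateField (kk A B) ℂ) := fun y hy => hy
  letI := algC hle
  let τ : D ≃ₐ[kk A B] D := AlgEquiv.ofRingEquiv (f := (e.toRingEquiv : D ≃+* D))
    (fun r => e.commutes r)
  obtain ⟨s, hs, hs1⟩ := T.ext m hm D hle hDy τ
  refine ⟨s, hs, fun y => ?_⟩
  rw [he y]
  exact (hs1 y).symm

end GalX

open GalX in
theorem te_GAL : Sxe_GAL := by
  intro A B hR T
  refine ⟨T.fin, T.gal, ?_, ?_, ?_⟩
  · intro m hm σ L hN h
    obtain ⟨s, hs, hs1⟩ := extd T hm σ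
    obtain ⟨a, -, ha⟩ := T.act m hm s hs
    obtain ⟨b, om, hL⟩ := hN
    obtain ⟨b', L', om', mu, hL', hA⟩ := ha b L om hL
    exact ⟨L', ⟨b', om', hL'⟩, by rw [hs1]; exact hA.kap.symm⟩
  · intro m m' hm hmm σ hσ
    have hm' : m' ≠ ⊥ := by
      intro h0
      exact hm (le_bot_iff.1 (h0 ▸ hmm))
    by_cases hex : ∃ (b : Ideal (OO A B)) (L : PeriodPair) (om : ℂ), IsNL b L om
    · obtain ⟨b₀, L₀, om₀, hL₀⟩ := hex
      obtain ⟨s, hs, hs1⟩ := extd T hm σ
      obtain ⟨a, ha, ha'⟩ := T.act m hm s hs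
      obtain ⟨b', L', om', mu, hL', hA⟩ := ha' b₀ L₀ om₀ hL₀
      have hA' : ActI s m' a L₀ L' mu := by
        refine ⟨hA.kap, ?_, hA.isq, fun z hz => hA.act z fun x hx => hz x (hmm hx)⟩
        rw [Ideal.isCoprime_iff_sup_eq] at ha ⊢
        rw [eq_top_iff, ← ha]
        exact sup_le_sup_left hmm a
      have htr : ∀ y ∈ (RF m' : IntermediateField (kk A B) ℂ), s y = y := by
        intro y hy
        have hy' := T.mono m' m hmm hy
        rw [← hs1 ⟨y, hy'⟩]
        exact hσ y hy' hy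
      obtain ⟨c, hc1, hc⟩ := (T.triv m' a s b₀ L₀ L' om₀ mu hm' hs hL₀ hA' hL'.nrm).1 htr
      subst hc
      exact ⟨c, hc1, mk hR σ s hs1 ha ha'⟩
    · push Not at hex
      refine ⟨1, by rw [sub_self]; exact m'.zero_mem, ?_, fun L hN => ?_⟩
      · rw [Ideal.isCoprime_iff_sup_eq]
        have h1 : (sp (1 : OO A B)) = ⊤ := Ideal.span_singleton_one
        rw [h1, top_sup_eq]
      · obtain ⟨b, om, hL⟩ := hN
        exact absurd hL (hex b L om)
  · intro m hm α hα
    by_cases hα0 : α = 0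
    · subst hα0
      have hmt : m = ⊤ := by
        have h0 : (sp (0 : OO A B)) = ⊥ := Ideal.span_singleton_eq_bot.2 rfl
        rw [h0, Ideal.isCoprime_iff_sup_eq, bot_sup_eq] at hα
        exact hα
      refine ⟨AlgEquiv.refl, hα, fun L hN => ⟨fun hk => rfl, fun z hz hz' => ?_⟩⟩
      exfalso
      apply hz'
      obtain ⟨φ, hφ⟩ := hR.hom
      have h1 := hz 1 (by rw [hmt]; trivial)
      rwa [← hφ, map_one, one_mul] at h1
    obtain ⟨s, hs, hs1⟩ := T.surj m hm (sp α)
      (fun h => hα0 (Ideal.span_singleton_eq_bot.1 h)) hα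
    haveI := T.fin m hm
    haveI := T.gal m hm
    let s' : ℂ ≃ₐ[kk A B] ℂ := AlgEquiv.ofRingEquiv (f := s) (fun r => fix hs _ r.2)
    refine ⟨s'.restrictNormal (RF m), mk hR _ s ?_ hα hs1⟩
    intro y
    exact AlgEquiv.restrictNormal_commutes s' (RF m) y

end

end Pool.Agent.MUXE
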