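import Pool.Agent.MUX.StXE2

/-!
# MUX, block E, module MAIN0 (helper66)
-/

set_option autoImplicit false

namespace Pool.Agent.MUXE

open _root_.MU3 Pool.Agent.MU3A Pool.Agent.MU3B Pool.Agent.MUX Pool.Agent.MUXU Pool.Agent.RI

noncomputable section

lemma m0_zpc {D : IntermediateField ℚ ℂ} (x : D) (k : ℤ) : ((x ^ k : D) : ℂ) = (x : ℂ) ^ k :=
  map_zpow₀ (algebraMap D ℂ) x k

/-- automorphisms of `ℂ` trivial on `k` are `k`-linear -/
lemma m0_fix {A B : ℤ} {σ : ℂ ≃+* ℂ} (hσ : FixK A B σ) : ∀ y ∈ kk A B, σ y = y := by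
  intro y hy
  induction hy using IntermediateField.adjoin_induction with
  | mem x hx => rw [Set.mem_singleton_iff] at hx; rw [hx]; exact hσ
  | algebraMap x => simp
  | add x y _ _ hx hy => rw [map_add, hx, hy]
  | inv x _ hx => rw [map_inv₀, hx]
  | mul x y _ _ hx hy => rw [map_mul, hx, hy]

/-- the Galois group of a subfield `D` of `RF m` over `k` is commutative -/
lemma m0_comm {A B : ℤ} (hT : TorX A B) (m : Ideal (OO A B)) (hm : m ≠ ⊥)
    (D : IntermediateField ℚ ℂ) (h : kk A B ≤ D) (hD : ∀ y ∈ D, y ∈ RF m) :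
    letI := algC h
    ∀ τ τ' : D ≃ₐ[kk A B] D, τ * τ' = τ' * τ := by
  intro τ τ'
  letI := algC h
  haveI := hT.fin m hm
  haveI := hT.gal m hm
  obtain ⟨σ, hσ, hσ1⟩ := hT.ext m hm D h hD τ
  obtain ⟨σ', hσ', hσ1'⟩ := hT.ext m hm D h hD τ'
  let s : ℂ ≃ₐ[kk A B] ℂ := AlgEquiv.ofRingEquiv (f := σ) (fun r => m0_fix hσ _ r.2)
  let s' : ℂ ≃ₐ[kk A B] ℂ := AlgEquiv.ofRingEquiv (f := σ') (fun r => m0_fix hσ' _ r.2)
  have e1 : ∀ y : RF m, ((s.restrictNormal (RF m) y : RF m) : ℂ) = σ y := fun y =>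
    AlgEquiv.restrictNormal_commutes s (RF m) y
  have e2 : ∀ y : RF m, ((s'.restrictNormal (RF m) y : RF m) : ℂ) = σ' y := fun y =>
    AlgEquiv.restrictNormal_commutes s' (RF m) y
  have e3 := hT.comm m hm (s.restrictNormal (RF m)) (s'.restrictNormal (RF m))
  refine AlgEquiv.ext fun z => Subtype.ext ?_
  show ((τ (τ' z) : D) : ℂ) = ((τ' (τ z) : D) : ℂ)
  have a1 : ((τ (τ' z) : D) : ℂ) = σ (σ' z) := by rw [← hσ1 (τ' z), ← hσ1' z]
  have a2 : ((τ' (τ z) : D) : ℂ) = σ' (σ z) := by rw [← hσ1' (τ z), ← hσ1 z]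
  rw [a1, a2]
  have e4 : ((s.restrictNormal (RF m)) ((s'.restrictNormal (RF m)) ⟨z, hD z z.2⟩) : ℂ) =
      ((s'.restrictNormal (RF m)) ((s.restrictNormal (RF m)) ⟨z, hD z z.2⟩) : ℂ) :=
    congrArg (fun f : RF m ≃ₐ[kk A B] RF m => ((f ⟨z, hD z z.2⟩ : RF m) : ℂ)) e3
  rw [e1, e2, e2, e1] at e4
  exact e4

lemma m0_ne (A B : ℤ) (hr : RingE A B) {m : ℕ} (hm : m ≠ 0) :
    idl (A := A) (B := B) m ≠ ⊥ := by
  obtain ⟨φ, hφ⟩ := hr.hom
  intro h
  rw [Ideal.span_singleton_eq_bot] at h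
  have : φ ((m : ℕ) : OO A B) = 0 := by rw [h, map_zero]
  rw [map_natCast] at this
  exact hm (by exact_mod_cast this)

lemma m0_lv {p f n : ℕ} (hp : p = 2 ∨ p = 3) (hn : 1 ≤ n) :
    ∃ e : ℕ, 2 ≤ e ∧ lvX p f n = p ^ e * f := by
  rcases hp with rfl | rfl
  · exact ⟨n + 2, by omega, by simp [lvX, q0]; ring⟩
  · exact ⟨n + 1, by omega, by simp [lvX, q0]; ring⟩

lemma m0_aX {p f : ℕ} (hp : p = 2 ∨ p = 3) (hf : f ≠ 0) :
    3 ≤ aX p f ∧ ¬ p ∣ aX p f ∧ (aX p f).Coprime f := by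
  have hf1 : 1 ≤ f := Nat.one_le_iff_ne_zero.2 hf
  rcases hp with rfl | rfl
  · have e : aX 2 f = 1 + 2 * 4 * f := by simp [aX, q0]
    rw [e]
    refine ⟨by omega, by omega, ?_⟩
    rw [show 1 + 2 * 4 * f = 1 + 8 * f by ring]
    simp [Nat.coprime_add_mul_right_left]
  · have e : aX 3 f = 1 + 2 * 3 * f := by simp [aX, q0]
    rw [e]
    refine ⟨by omega, by omega, ?_⟩
    rw [show 1 + 2 * 3 * f = 1 + 6 * f by ring]
    simp [Nat.coprime_add_mul_right_left]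

lemma m0_f {p : ℕ} {A B : ℤ} {P : Ideal (OO A B)} {V : ValuationSubring ℂ} {f : ℕ}
    (h : SetP p A B P V f) : 2 ≤ f := by
  have h0 := h.f0
  have h1 := h.fD
  have h2 := h.case.neg
  have hB := h.case.hB
  have h4 : absD A B ≤ (f : ℤ) := Int.le_of_dvd (by positivity) h1
  have h5 : 2 ≤ absD A B := by
    unfold absD
    rcases h.case.hB with rfl | rfl
    · simp at h2 ⊢
      omega
    · simp at h2 ⊢
      omega
  omega

theorem te_MAIN0 (h1 : Sxe_ONE) (h2 : Sxe_CTX) (h3 : Sxe_GAL) : Sxe_MAIN0 := by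
  classical
  intro p A B P V f hS hr hR hT ι _ R n hn H hH c hc D hD hDF
  intro C S hC hcop hprod g hcube τ'
  letI := algC hD
  have hctx := h2 p A B P V f hS hr hR
  have hgal := h3 A B hr hT
  obtain ⟨e, he, hlv⟩ := m0_lv (f := f) hctx.two hn
  obtain ⟨ha3, hap, haf⟩ := m0_aX hctx.two hS.f0
  have hf2 := m0_f hS
  have hp0 : p ≠ 0 := by rcases hctx.two with rfl | rfl <;> norm_num
  have hm0 : lvX p f n ≠ 0 := by rw [hlv]; exact mul_ne_zero (pow_ne_zero _ hp0) hS.f0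
  have hmb := m0_ne A B hr hm0
  have := hT.fin _ hmb
  -- D is finite over k
  let φ : D →ₗ[kk A B] RF (idl (A := A) (B := B) (lvX p f n)) :=
    { toFun := fun y => ⟨y, hDF y y.2⟩
      map_add' := fun x y => rfl
      map_smul' := fun c x => by
        apply Subtype.ext
        show ((c • x : D) : ℂ) =
          ((c • (⟨x, hDF x x.2⟩ : RF (idl (A := A) (B := B) (lvX p f n))) : RF (idl (A := A) (B := B) (lvX p f n))) : ℂ)
        rw [Algebra.smul_def, Algebra.smul_def]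
        rfl }
  have hφ : Function.Injective φ := by
    intro x y hxy
    apply Subtype.ext
    exact congrArg (fun z : RF (idl (A := A) (B := B) (lvX p f n)) => (z : ℂ)) hxy
  have : FiniteDimensional (kk A B) D := FiniteDimensional.of_injective φ hφ
  have : Finite (D ≃ₐ[kk A B] D) := inferInstance
  letI : Fintype (D ≃ₐ[kk A B] D) := Fintype.ofFinite _
  have hcom := m0_comm hT _ hmb D hD hDF
  have hout : Function.Injective
      (fun q : ι × (OO A B ⧸ idl (A := A) (B := B) (lvX p f n)) => ((q.1, Quotient.out q.2) : ι × OO A B)) := by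
    intro q q' hq
    have hq0 : ((q.1, Quotient.out q.2) : ι × OO A B) = (q'.1, Quotient.out q'.2) := hq
    have h4 : q.1 = q'.1 := (Prod.mk.inj hq0).1
    have h5 : (Quotient.out q.2 : OO A B) = Quotient.out q'.2 := (Prod.mk.inj hq0).2
    have h6 : Ideal.Quotient.mk (idl (A := A) (B := B) (lvX p f n)) (Quotient.out q.2) =
        Ideal.Quotient.mk (idl (A := A) (B := B) (lvX p f n)) (Quotient.out q'.2) := congrArg _ h5
    rw [Ideal.Quotient.mk_out, Ideal.Quotient.mk_out] at h6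
    exact Prod.ext h4 h6
  set X : (D ≃ₐ[kk A B] D) → Finset (ι × OO A B) := fun τ =>
    (S (τ * τ')).image (fun q => (q.1, Quotient.out q.2)) with hX
  have hcopX : ∀ τ : D ≃ₐ[kk A B] D, ∀ y ∈ X τ, IsCoprime y.2 ((p ^ e * f : ℕ) : OO A B) := by
    intro τ y hy
    rw [hX] at hy
    obtain ⟨q, hq, rfl⟩ := Finset.mem_image.1 hy
    have := hcop (τ * τ') q hq
    rw [← hlv]
    exact this
  have key := h1 p A B P V hctx hgal (p * f) ι R e f (aX p f) he hf2 hS.fp ha3 hap haf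
    (mul_ne_zero hp0 hS.f0) (dvd_refl _) H hH c hc (D ≃ₐ[kk A B] D) X g hcopX
  rw [← hlv] at key
  have hprodX : ∀ τ : D ≃ₐ[kk A B] D,
      ∏ y ∈ X τ, ThetaH (R.L y.1) (H y.1) (pt R (lvX p f n) y.1 y.2) = C (τ * τ') := by
    intro τ
    rw [hX, Finset.prod_image (fun x _ y _ hxy => hout hxy), hprod (τ * τ')]
  have hsumX : ∀ τ : D ≃ₐ[kk A B] D,
      ∑ y ∈ X τ, (wP P y.2 : ℂ) * c y.1 * dlX (R.L y.1) (aX p f) (pt R (lvX p f n) y.1 y.2) =
      ∑ q ∈ S (τ * τ'), (wP P (Quotient.out q.2) : ℂ) * c q.1 *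
        dlX (R.L q.1) (aX p f) (pt R (lvX p f n) q.1 (Quotient.out q.2)) := by
    intro τ
    rw [hX, Finset.sum_image (fun x _ y _ hxy => hout hxy)]
  have key2 : V.valuation (∑ τ : D ≃ₐ[kk A B] D, (g τ : ℂ) * ∑ q ∈ S (τ * τ'),
      (wP P (Quotient.out q.2) : ℂ) * c q.1 *
        dlX (R.L q.1) (aX p f) (pt R (lvX p f n) q.1 (Quotient.out q.2))) ^ (p - 1) ≤
      V.valuation (p : ℂ) := by
    have e1 : (∑ τ : D ≃ₐ[kk A B] D, (g τ : ℂ) * ∑ q ∈ S (τ * τ'),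
        (wP P (Quotient.out q.2) : ℂ) * c q.1 *
          dlX (R.L q.1) (aX p f) (pt R (lvX p f n) q.1 (Quotient.out q.2))) =
        ∑ j : D ≃ₐ[kk A B] D, (g j : ℂ) * ∑ y ∈ X j, (wP P y.2 : ℂ) * c y.1 *
        dlX (R.L y.1) (aX p f) (pt R (lvX p f n) y.1 y.2) :=
      Finset.sum_congr rfl (fun τ _ => by rw [hsumX])
    rw [e1]
    apply key
    obtain ⟨w, hw, hwp⟩ := hcube
    rw [finprod_eq_prod_of_fintype] at hwp
    obtain ⟨y, hy1, -⟩ := hC 1
    have hyτ : ∀ τ : D ≃ₐ[kk A B] D, ((τ y : D) : ℂ) = C τ := by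
      intro τ
      obtain ⟨y', hy', hy''⟩ := hC τ
      have : y' = y := Subtype.ext (hy'.trans hy1.symm)
      rw [← hy'', this]
    have hw4 : (⟨w, hw⟩ : D) ^ p = ∏ τ : D ≃ₐ[kk A B] D, (τ y) ^ g τ := by
      apply Subtype.ext
      rw [IntermediateField.coe_prod]
      rw [show (((⟨w, hw⟩ : D) ^ p : D) : ℂ) = w ^ p from rfl, hwp]
      refine Finset.prod_congr rfl (fun τ _ => ?_)
      rw [← hyτ τ, ← m0_zpc (D := D)]
    refine ⟨(τ' ⟨w, hw⟩ : D), hDF _ (τ' ⟨w, hw⟩).2, ?_⟩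
    have hw5 := congrArg τ' hw4
    rw [map_pow, map_prod] at hw5
    have hw6 := congrArg (fun y : D => (y : ℂ)) hw5
    push_cast at hw6
    rw [hw6]
    refine Finset.prod_congr rfl (fun τ _ => ?_)
    rw [hprodX, hcom τ τ', map_zpow₀, ← hyτ (τ' * τ), m0_zpc]
    rfl
  rw [finsum_eq_sum_of_fintype, HfX, ← ValuationSubring.valuation_le_one_iff, map_div₀, map_pow]
  have hpp : V.valuation (p : ℂ) ≠ 0 := by
    rw [Valuation.ne_zero_iff]
    exact_mod_cast hp0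
  exact (div_le_one₀ (zero_lt_iff.2 hpp)).2 key2

end

end Pool.Agent.MUXE
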