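import Pool.Agent.MUX.StXE

/-!
# MUX, block E: module PT, the points of level `m`
-/

set_option autoImplicit false

namespace Pool.Agent.MUXE

open _root_.MU3 Pool.Agent.MU3A Pool.Agent.MU3B Pool.Agent.MUX Pool.Agent.MUXU Pool.Agent.RI

noncomputable section

private lemma pt_inj {A B : ℤ} (hR : RingE A B) (x y : OO A B) (h : emb x = emb y) : x = y := by
  obtain ⟨φ, hφ⟩ := hR.hom
  have h1 : emb (x - y) = 0 := by
    rw [← hφ, map_sub, hφ, hφ, h, sub_self]
  exact sub_eq_zero.1 (hR.inj0 _ h1)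

private lemma pt_nI {A B : ℤ} (hR : RingE A B) (b : Ideal (OO A B)) (hb : b ≠ ⊥) :
    nI b ≠ 0 ∧ ((nI b : ℕ) : OO A B) ∈ b := by
  have := hR.ded
  refine ⟨?_, ?_⟩
  · change Ideal.absNorm b ≠ 0
    rw [Ne, Ideal.absNorm_eq_zero_iff]
    exact hb
  · change ((Ideal.absNorm b : ℕ) : OO A B) ∈ b
    exact Ideal.absNorm_mem b

private lemma pt_cop {N n r : ℕ} (h : N.Coprime n) (hr : r ≠ 0)
    (hs : r.primeFactors ⊆ n.primeFactors) : ∃ s t : ℤ, s * N + t * r = 1 := by
  have h1 : N.Coprime r := by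
    apply Nat.Coprime.symm
    apply Nat.coprime_of_dvd
    intro q hq hqr hqN
    have h2 := hs (Nat.mem_primeFactors.2 ⟨hq, hqr, hr⟩)
    have h3 := Nat.dvd_of_mem_primeFactors h2
    exact Nat.Prime.not_coprime_iff_dvd.2 ⟨q, hq, hqN, h3⟩ h
  obtain ⟨s, t, h2⟩ := Nat.isCoprime_iff_coprime.2 h1
  exact ⟨s, t, h2⟩

theorem te_PT (_ : Sxe_TRA) : Sxe_PT := by
  intro A B hR n ι R _ i
  obtain ⟨φ, hφ⟩ := hR.hom
  have hnl := R.nl i
  have hnl0 := R.nl R.i0
  obtain ⟨hN0, hNb⟩ := pt_nI hR (R.b i) hnl.b_ne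
  have hNC : ((nI (R.b i) : ℕ) : ℂ) ≠ 0 := by exact_mod_cast hN0
  have hom : R.om i ≠ 0 := hnl.om_ne
  have hom0 : R.om R.i0 ≠ 0 := hnl0.om_ne
  have heN : ∀ k : ℕ, emb ((k : ℕ) : OO A B) = (k : ℂ) := fun k => by rw [← hφ, map_natCast]
  have heZ : ∀ k : ℤ, emb ((k : ℤ) : OO A B) = (k : ℂ) := fun k => by rw [← hφ, map_intCast]
  have hem : ∀ x y : OO A B, emb (x * y) = emb x * emb y := fun x y => by
    rw [← hφ, ← hφ, ← hφ, map_mul]
  have hea : ∀ x y : OO A B, emb (x + y) = emb x + emb y := fun x y => by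
    rw [← hφ, ← hφ, ← hφ, map_add]
  have hL0 : ∀ z, z ∈ (R.L R.i0).lattice ↔ ∃ x : OO A B, z = R.om R.i0 * emb x := by
    intro z
    rw [hnl0.mem, R.b0]
    simp
  have hLi := hnl.mem
  refine ⟨?_, ?_, ?_, ?_⟩
  · unfold muX
    exact div_ne_zero (mul_ne_zero hom hNC) hom0
  · intro u hu
    obtain ⟨x, rfl⟩ := (hL0 u).1 hu
    rw [hLi]
    refine ⟨(nI (R.b i) : ℕ) * x, (R.b i).mul_mem_right _ hNb, ?_⟩
    rw [hem, heN]
    unfold muX
    field_simp
  · intro r hr hs u hru hmu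
    obtain ⟨s, t, hst⟩ := pt_cop (R.cop i) hr hs
    obtain ⟨x, hx⟩ := (hL0 _).1 hru
    obtain ⟨y, -, hy⟩ := (hLi _).1 hmu
    have h1 : (nI (R.b i) : ℂ) * u = R.om R.i0 * emb y := by
      unfold muX at hy
      field_simp at hy
      linear_combination hy
    have h2 : (s : ℂ) * nI (R.b i) + t * r = 1 := by exact_mod_cast hst
    rw [hL0]
    refine ⟨(s : OO A B) * y + (t : OO A B) * x, ?_⟩
    rw [hea, hem, hem, heZ, heZ]
    linear_combination (-u) * h2 + (s : ℂ) * h1 + (t : ℂ) * hx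
  · intro m hm hs x
    have hmC : (m : ℂ) ≠ 0 := by exact_mod_cast hm
    refine ⟨?_, ?_, ?_, ?_⟩
    · unfold pt muX
      field_simp
    · rw [hLi]
      refine ⟨(nI (R.b i) : ℕ) * x, (R.b i).mul_mem_right _ hNb, ?_⟩
      rw [hem, heN]
      unfold pt
      field_simp
    · intro hx c hc
      obtain ⟨y, -, hy⟩ := (hLi _).1 hc
      have h1 : ((c : ℕ) : OO A B) * ((nI (R.b i) : ℕ) : OO A B) * x = (m : ℕ) * y := by
        apply pt_inj hR
        rw [hem, hem, hem, heN, heN, heN]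
        unfold pt at hy
        field_simp at hy
        linear_combination hy
      obtain ⟨s, t, hst⟩ := pt_cop (R.cop i) hm hs
      have h2 : (s : OO A B) * ((nI (R.b i) : ℕ) : OO A B) + (t : OO A B) * (m : ℕ) = 1 := by
        have := congrArg (fun k : ℤ => (k : OO A B)) hst
        push_cast at this
        exact this
      have h3 : ((m : ℕ) : OO A B) ∣ x * (c : ℕ) := by
        refine ⟨(s : OO A B) * y + (t : OO A B) * (c : ℕ) * x, ?_⟩
        linear_combination (-(x * ((c : ℕ) : OO A B))) * h2 + (s : OO A B) * h1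
      have h4 : ((m : ℕ) : OO A B) ∣ ((c : ℕ) : OO A B) := hx.symm.dvd_of_dvd_mul_left h3
      obtain ⟨z, hz⟩ := h4
      have h5 : (c : ℤ) = (m : ℤ) * z.re := by
        have := congrArg QuadraticAlgebra.re hz
        simpa using this
      exact Int.natCast_dvd_natCast.1 ⟨z.re, h5⟩
    · intro x'
      rw [hL0]
      constructor
      · rintro ⟨y, hy⟩
        refine ⟨y, ?_⟩
        apply pt_inj hR
        rw [hem, heN]
        field_simp at hy
        linear_combination hy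
      · rintro ⟨y, rfl⟩
        refine ⟨y, ?_⟩
        rw [hem, heN]
        field_simp

end

end Pool.Agent.MUXE
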