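import Pool.Agent.MUX.StXE

/-!
# MUX, block E: module TRB, existence of torsion points, points killed by a maximal ideal
-/

set_option autoImplicit false

namespace Pool.Agent.MUXE

open _root_.MU3 Pool.Agent.MU3A Pool.Agent.MU3B Pool.Agent.MUX Pool.Agent.MUXU Pool.Agent.RI

noncomputable section

private lemma trb_inj {A B : ℤ} (hR : RingE A B) (x y : OO A B) (h : emb x = emb y) : x = y := by
  obtain ⟨φ, hφ⟩ := hR.hom
  have h1 : emb (x - y) = 0 := by
    rw [← hφ, map_sub, hφ, hφ, h, sub_self]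
  exact sub_eq_zero.1 (hR.inj0 _ h1)

private lemma trb_key {A B : ℤ} (hR : RingE A B) {b : Ideal (OO A B)} {L : PeriodPair} {om : ℂ}
    (hL : IsNL b L om) (N : ℕ) (hN : 0 < N) (y t : OO A B) :
    emb t * (om * emb y / N) ∈ L.lattice ↔ t * y ∈ sp (N : OO A B) * b := by
  obtain ⟨φ, hφ⟩ := hR.hom
  have hN' : (N : ℂ) ≠ 0 := by
    have : N ≠ 0 := by omega
    exact_mod_cast this
  have hom : om ≠ 0 := hL.om_ne
  have hNe : emb ((N : ℕ) : OO A B) = (N : ℂ) := by
    rw [← hφ, map_natCast]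
  rw [hL.mem, Ideal.mem_span_singleton_mul]
  constructor
  · rintro ⟨u, hu, h⟩
    refine ⟨u, hu, ?_⟩
    apply trb_inj hR
    rw [← hφ (N * u), ← hφ (t * y), map_mul, map_mul, hφ, hφ, hφ, hφ, hNe]
    field_simp at h
    rw [h]
  · rintro ⟨u, hu, h⟩
    refine ⟨u, hu, ?_⟩
    have h1 : (N : ℂ) * emb u = emb t * emb y := by
      rw [← hNe, ← hφ, ← hφ, ← hφ, ← hφ, ← map_mul, ← map_mul, h]
    field_simp
    rw [← h1]

private lemma trb_cancel {A B : ℤ} (hR : RingE A B) (I J K : Ideal (OO A B)) (hK : K ≠ ⊥)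
    (h : I * K ≤ J * K) : I ≤ J := by
  have := hR.ded
  have h1 : J * K ∣ I * K := Ideal.dvd_iff_le.2 h
  exact Ideal.dvd_iff_le.1 ((mul_dvd_mul_iff_right (c := K) hK).1 h1)

private lemma trb_fac {A B : ℤ} (hR : RingE A B) (I : Ideal (OO A B)) (N : ℕ) (hN : 0 < N)
    (h : (N : OO A B) ∈ I) : ∃ c : Ideal (OO A B), sp (N : OO A B) = I * c ∧ c ≠ ⊥ := by
  have := hR.ded
  obtain ⟨φ, hφ⟩ := hR.hom
  have h1 : I ∣ sp (N : OO A B) := Ideal.dvd_span_singleton.2 h
  obtain ⟨c, hc⟩ := h1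
  refine ⟨c, hc, ?_⟩
  rintro rfl
  rw [Ideal.mul_bot, Ideal.span_singleton_eq_bot] at hc
  have h2 : φ ((N : ℕ) : OO A B) = 0 := by rw [hc, map_zero]
  rw [map_natCast] at h2
  have : N = 0 := by exact_mod_cast h2
  omega

private lemma trb_ne {A B : ℤ} (hR : RingE A B) (I J : Ideal (OO A B)) (hI : I ≠ ⊥) (hJ : J ≠ ⊥) :
    I * J ≠ ⊥ := by
  have := hR.ded
  intro h
  rcases mul_eq_zero.1 (show I * J = 0 from h) with h | h
  · exact hI h
  · exact hJ h

theorem te_TRB : Sxe_TRB := by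
  intro A B hR L hL
  obtain ⟨b, om, hL⟩ := hL
  have := hR.ded
  refine ⟨?_, ?_⟩
  · intro m m' hm' hlt
    obtain ⟨N, hN, hNm⟩ := hR.pos m' hm'
    obtain ⟨c, hc, hc0⟩ := trb_fac hR m' N hN hNm
    have h1 : ¬ m * (c * b) ≤ m' * (c * b) := by
      intro h
      exact absurd (trb_cancel hR _ _ _ (trb_ne hR c b hc0 hL.b_ne) h) (not_le_of_gt hlt)
    rw [Ideal.mul_le] at h1
    push Not at h1
    obtain ⟨x, hx, y, hy, hxy⟩ := h1
    have h2 : m' * (c * b) = sp (N : OO A B) * b := by rw [hc, mul_assoc]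
    refine ⟨om * emb y / N, ?_, ?_⟩
    · intro t ht
      rw [trb_key hR hL N hN, ← h2]
      exact Ideal.mul_mem_mul ht hy
    · intro h
      have h3 := h x hx
      rw [trb_key hR hL N hN, ← h2] at h3
      exact hxy h3
  · intro Q hQ hmax z w hz hw hzL
    obtain ⟨φ, hφ⟩ := hR.hom
    obtain ⟨N, hN, hNQ⟩ := hR.pos Q hQ
    have hN' : (N : ℂ) ≠ 0 := by
      have : N ≠ 0 := by omega
      exact_mod_cast this
    obtain ⟨c, hc, hc0⟩ := trb_fac hR Q N hN hNQ
    have hNe : emb ((N : ℕ) : OO A B) = (N : ℂ) := by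
      rw [← hφ, map_natCast]
    have hone : emb (1 : OO A B) = 1 := by rw [← hφ, map_one]
    obtain ⟨c₁, hc₁, hc₁'⟩ := (hL.mem _).1 (hz _ hNQ)
    obtain ⟨c₂, hc₂, hc₂'⟩ := (hL.mem _).1 (hw _ hNQ)
    rw [hNe] at hc₁' hc₂'
    have hz' : z = om * emb c₁ / N := by
      field_simp
      rw [← hc₁']
      ring
    have hw' : w = om * emb c₂ / N := by
      field_simp
      rw [← hc₂']
      ring
    set K : Ideal (OO A B) := c * b with hK
    have hK0 : K ≠ ⊥ := trb_ne hR c b hc0 hL.b_ne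
    have h2 : Q * K = sp (N : OO A B) * b := by rw [hc, mul_assoc]
    have h3 : ∀ d : OO A B, (∀ q ∈ Q, q * d ∈ Q * K) → sp d ⊔ Q * K ≤ K := by
      intro d hd
      refine sup_le ?_ Ideal.mul_le_right
      apply trb_cancel hR _ _ Q hQ
      rw [mul_comm, mul_comm K Q, Ideal.mul_le]
      intro q hq r hr
      obtain ⟨s, rfl⟩ := Ideal.mem_span_singleton.1 hr
      have h10 : q * (d * s) = (q * d) * s := (mul_assoc _ _ _).symm
      rw [h10]
      exact Ideal.mul_mem_right _ _ (hd q hq)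
    have hd1 : ∀ q ∈ Q, q * c₁ ∈ Q * K := by
      intro q hq
      rw [h2, ← trb_key hR hL N hN, ← hz']
      exact hz q hq
    have hd2 : ∀ q ∈ Q, q * c₂ ∈ Q * K := by
      intro q hq
      rw [h2, ← trb_key hR hL N hN, ← hw']
      exact hw q hq
    have hn1 : c₁ ∉ Q * K := by
      intro h
      rw [h2] at h
      have h4 : (1 : OO A B) * c₁ ∈ sp (N : OO A B) * b := by rwa [one_mul]
      rw [← trb_key hR hL N hN, ← hz', hone, one_mul] at h4
      exact hzL h4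
    have h5 := h3 c₁ hd1
    have h6 := h3 c₂ hd2
    obtain ⟨J', hJ'⟩ := Ideal.dvd_iff_le.2 h5
    have h7 : Q ≤ J' := by
      apply trb_cancel hR _ _ K hK0
      rw [mul_comm J' K, ← hJ']
      exact le_sup_right
    have h8 : J' = ⊤ := by
      by_contra hne
      have h9 : Q = J' := hmax.eq_of_le hne h7
      apply hn1
      have h10 : Q * K = sp c₁ ⊔ Q * K := by
        rw [hJ', ← h9, mul_comm]
      rw [h10]
      exact (le_sup_left : sp c₁ ≤ _) (Ideal.mem_span_singleton_self c₁)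
    have h9 : c₂ ∈ sp c₁ ⊔ Q * K := by
      rw [hJ', h8, Ideal.mul_top]
      exact h6 ((le_sup_left : sp c₂ ≤ _) (Ideal.mem_span_singleton_self c₂))
    rw [Submodule.mem_sup] at h9
    obtain ⟨u, hu, v, hv, huv⟩ := h9
    obtain ⟨x, rfl⟩ := Ideal.mem_span_singleton.1 hu
    rw [h2, Ideal.mem_span_singleton_mul] at hv
    obtain ⟨d, hd, rfl⟩ := hv
    refine ⟨x, (hL.mem _).2 ⟨d, hd, ?_⟩⟩
    have h11 : emb c₂ = emb c₁ * emb x + N * emb d := by
      rw [← hφ c₂, ← huv, map_add, map_mul, map_mul, map_natCast, hφ, hφ, hφ]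
    rw [hz', hw', h11]
    field_simp
    ring

end

end Pool.Agent.MUXE
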