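import Pool.Agent.MUX.StQX

/-!
# MUX, block R, module YUN: the second coordinate is a unit (helper79)
-/

set_option autoImplicit false

open WeierstrassCurve Polynomial

namespace Pool.Agent.MUXV

open _root_.MU3 Pool.Agent.MU3A Pool.Agent.MU3B Pool.Agent.MUXU
open Pool.Agent.MUXF (CQ)
open Pool.Agent.MU3.Val

noncomputable section

theorem tq_YUN : Sq_YUN := by
  intro V W L X Y ξ hG z hz h2z
  have hY : V.valuation (Y z) = 1 := by
    obtain ⟨h3, e3⟩ := hG.some z (int_X hz).1
    have hE := hz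
    rw [← inE_iff hG, e3] at hE
    have h2E := h2z
    rw [← inE_iff hG, two_mul, map_add, e3] at h2E
    exact v_y_unit hG.int hG.two hG.disc h3 hE h2E
  refine ⟨hY, fun w hw hwL => ?_⟩
  obtain ⟨-, h4, -, -⟩ := near hG hz hw hwL
  obtain ⟨h5, h6, -⟩ := v_tX_lt hG hw hwL
  have h7 : V.valuation (2 * Y z * tX X Y w) = V.valuation (tX X Y w) := by
    rw [map_mul, map_mul, hG.two, hY, one_mul, one_mul]
  have h8 : V.valuation (X (z + w) - X z - 2 * Y z * tX X Y w) <
      V.valuation (2 * Y z * tX X Y w) := by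
    rw [h7]
    refine lt_of_le_of_lt h4 ?_
    rw [pow_two]
    exact mul_lt_of_lt_one_right (zero_lt_iff.2 h6) h5
  have e : X (z + w) - X z = 2 * Y z * tX X Y w + (X (z + w) - X z - 2 * Y z * tX X Y w) := by ring
  rw [e, V.valuation.map_add_eq_of_lt_left h8, h7]

end

end Pool.Agent.MUXV
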