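import Pool.Agent.MUX.StXE

/-!
# MUX, block E: the parameter of a point of exact order `P^(j+1)` (TP)
-/

set_option autoImplicit false

open WeierstrassCurve Polynomial NumberField IsDedekindDomain

namespace Pool.Agent.MUXE

open _root_.MU3 Pool.Agent.MU3A Pool.Agent.MU3B Pool.Agent.MUX Pool.Agent.MUXU Pool.Agent.RI

noncomputable section

namespace TP

theorem fifth (L : PeriodPair) : L.ω₁ / 5 ∉ L.lattice := by
  intro hm
  have e : L.ω₁ / 5 = ((1 / 5 : ℚ) : ℂ) * L.ω₁ + ((0 : ℚ) : ℂ) * L.ω₂ := by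
    push_cast
    ring
  rw [e, PeriodPair.mul_ω₁_add_mul_ω₂_mem_lattice] at hm
  have h1 : ((((1 / 5 : ℚ)).num : ℤ) : ℚ) = (1 / 5 : ℚ) := (Rat.den_eq_one_iff _).1 hm.1
  have h2 : (1 : ℚ) = 5 * ((((1 / 5 : ℚ)).num : ℤ) : ℚ) := by
    rw [h1]
    norm_num
  have h3 : (1 : ℤ) = 5 * ((1 / 5 : ℚ)).num := by exact_mod_cast h2
  omega

/-- the valuation of a difference, first case -/
theorem sub_of_lt {Γ : Type*} [LinearOrderedCommGroupWithZero Γ] (v : Valuation ℂ Γ) {a b : ℂ}
    (h : v b < v a) : v (a - b) = v a :=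
  Valuation.map_sub_eq_of_lt_left v h

theorem sub_of_gt {Γ : Type*} [LinearOrderedCommGroupWithZero Γ] (v : Valuation ℂ Γ) {a b : ℂ}
    (h : v a < v b) : v (a - b) = v b := by
  rw [Valuation.map_sub_swap]
  exact sub_of_lt v h

/-- The numerical part of the induction step. -/
theorem num {Γ : Type*} [LinearOrderedCommGroupWithZero Γ] (v : Valuation ℂ Γ) (p k : ℕ)
    (hp : 2 ≤ p) (hk : k ≠ 0)
    (R : Finset ℂ) (hR : R.card = p - 1) (mu y y1 x x1 : ℂ) (xq xw : ℂ → ℂ) (T π : Γ)
    (hπ0 : π ≠ 0) (hπ : π < 1) (hmu : v mu = π)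
    (hT : π ^ 2 * T ^ (p - 1) = 1) (hT1 : 1 < T)
    (hq : ∀ q ∈ R, v (xq q) = T) (hw : ∀ q ∈ R, v (xw q) ≤ 1) (hx1 : v x1 ≤ 1) (hy1 : v y1 ≤ 1)
    (hy : 1 < v y) (hyk : π ^ 2 * v y ^ ((p - 1) * k) = 1)
    (pf : mu ^ 2 * (y - y1) * ∏ q ∈ R, (x - xq q) = (x - x1) * ∏ q ∈ R, (x - xw q)) :
    1 < v x ∧ v x ^ p = v y := by
  have hp1 : p - 1 ≠ 0 := by omega
  have hp2 : p - 1 + 1 = p := by omega
  -- `v y ≤ T`
  have hyT : v y ≤ T := by
    have e : T ^ (p - 1) = (v y ^ k) ^ (p - 1) := by
      rw [← pow_mul, mul_comm k]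
      have h1 : π ^ 2 * T ^ (p - 1) = π ^ 2 * v y ^ ((p - 1) * k) := by rw [hT, hyk]
      exact mul_left_cancel₀ (pow_ne_zero 2 hπ0) h1
    have e1 : T = v y ^ k := (pow_left_inj₀ zero_le zero_le hp1).1 e
    rw [e1]
    exact le_self_pow₀ hy.le hk
  have pv := congrArg v pf
  rw [map_mul, map_mul, map_pow, map_mul, hmu, map_prod, map_prod,
    sub_of_lt v (lt_of_le_of_lt hy1 hy)] at pv
  have hπ2 : π ^ 2 < 1 := pow_lt_one₀ zero_le hπ two_ne_zero
  -- `v x > 1`
  have hX : 1 < v x := by
    by_contra hc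
    have hc' : v x ≤ 1 := not_lt.1 hc
    have e1 : ∏ q ∈ R, v (x - xq q) = T ^ (p - 1) := by
      rw [Finset.prod_congr rfl (fun q hqR => ?_), Finset.prod_const, hR]
      rw [sub_of_gt v (by rw [hq q hqR]; exact lt_of_le_of_lt hc' hT1), hq q hqR]
    have e2 : v (x - x1) ≤ 1 := le_trans (v.map_sub _ _) (max_le hc' hx1)
    have e3 : ∏ q ∈ R, v (x - xw q) ≤ 1 :=
      Finset.prod_le_one' fun q hqR => le_trans (v.map_sub _ _) (max_le hc' (hw q hqR))
    rw [e1, mul_right_comm, hT, one_mul] at pv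
    have e4 : v (x - x1) * ∏ q ∈ R, v (x - xw q) ≤ 1 := mul_le_one' e2 e3
    rw [← pv] at e4
    exact absurd e4 (not_le.2 hy)
  refine ⟨hX, ?_⟩
  have eR : v (x - x1) * ∏ q ∈ R, v (x - xw q) = v x ^ p := by
    rw [sub_of_lt v (lt_of_le_of_lt hx1 hX), Finset.prod_congr rfl
      (fun q hqR => sub_of_lt v (lt_of_le_of_lt (hw q hqR) hX)), Finset.prod_const, hR, mul_comm,
      ← pow_succ, hp2]
  rw [eR] at pv
  rcases lt_trichotomy (v x) T with hlt | heq | hgt
  · have e1 : ∏ q ∈ R, v (x - xq q) = T ^ (p - 1) := by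
      rw [Finset.prod_congr rfl (fun q hqR => ?_), Finset.prod_const, hR]
      rw [sub_of_gt v (by rw [hq q hqR]; exact hlt), hq q hqR]
    rw [e1, mul_right_comm, hT, one_mul] at pv
    exact pv.symm
  · exfalso
    have e1 : ∏ q ∈ R, v (x - xq q) ≤ T ^ (p - 1) := by
      rw [← hR, ← Finset.prod_const]
      refine Finset.prod_le_prod' fun q hqR => le_trans (v.map_sub _ _) (max_le heq.le ?_)
      rw [hq q hqR]
    have e2 : v x ^ p ≤ v y := by
      rw [← pv]
      calc π ^ 2 * v y * ∏ q ∈ R, v (x - xq q) ≤ π ^ 2 * v y * T ^ (p - 1) :=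
            mul_le_mul_right e1 _
        _ = v y := by rw [mul_right_comm, hT, one_mul]
    have e3 : T ^ p ≤ T := by
      rw [heq] at e2
      exact le_trans e2 hyT
    have e4 : T < T ^ p := lt_self_pow₀ hT1 (by omega)
    exact absurd e3 (not_le.2 e4)
  · exfalso
    have hx0 : v x ≠ 0 := fun h0 => by
      rw [h0] at hX
      exact absurd hX (not_lt.2 zero_le)
    have e1 : ∏ q ∈ R, v (x - xq q) = v x ^ (p - 1) := by
      rw [Finset.prod_congr rfl (fun q hqR => ?_), Finset.prod_const, hR]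
      exact sub_of_lt v (by rw [hq q hqR]; exact hgt)
    rw [e1] at pv
    have e2 : v x ^ p = v x * v x ^ (p - 1) := by
      rw [mul_comm, ← pow_succ, hp2]
    rw [e2] at pv
    have e3 : π ^ 2 * v y = v x := mul_right_cancel₀ (pow_ne_zero _ hx0) pv
    have hy0 : 0 < v y := lt_trans zero_lt_one hy
    have e4 : π ^ 2 * v y < v y := by
      calc π ^ 2 * v y < 1 * v y := mul_lt_mul_of_pos_right hπ2 hy0
        _ = v y := one_mul _
    rw [e3] at e4
    exact absurd (lt_trans hgt e4) (not_lt.2 hyT)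

end TP

open TP in
theorem te_TP (h1 : Sxe_PA) (h2 : Sxe_TRA) (h3 : Sxe_TRB) (h4 : Sxe_KER) (h5 : Su_BAC)
    (h6 : Su_PFI) : Sxe_TP := by
  intro p A B P V h j
  obtain ⟨-, pa2, pa3, pa4, pa5, pa6, -⟩ := h1 p A B P V h
  obtain ⟨φ, hφ⟩ := h.ring.hom
  have embn : ∀ n : ℕ, emb ((n : ℕ) : OO A B) = n := fun n => by rw [← hφ, map_natCast]
  have hPbot : P ≠ ⊥ := by
    intro h0
    have h6 := h.mem
    rw [h0, Ideal.mem_bot] at h6
    have h7 := embn p
    rw [h6, ← hφ, map_zero] at h7
    apply pa3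
    rw [← h7, map_zero]
  have hp5 : ¬ p ∣ 5 := by
    rcases h.two with rfl | rfl <;> omega
  obtain ⟨hv5, h5P⟩ := pa4 5 hp5
  have hp2 : 2 ≤ p := by
    rcases h.two with rfl | rfl <;> omega
  induction j with
  | zero =>
    intro L hL z hz hz0
    obtain ⟨tra1, -⟩ := h2 A B h.ring L hL
    have hzL : z ∉ L.lattice := fun h7 => hz0 fun x _ => tra1 x z h7
    rw [zero_add, pow_one] at hz
    obtain ⟨k1, k2⟩ := h4 p A B P V h L hL z hz hzL
    refine ⟨k1, hzL, ?_⟩
    rw [pow_zero, mul_one]
    exact k2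
  | succ j ih =>
    intro L hL z hz hz0
    obtain ⟨tra1, tra2, tra3, tra4, tra5, tra6, tra7, tra8, tra9⟩ := h2 A B h.ring L hL
    obtain ⟨L', μ, hL', hQ⟩ := h.exq L hL
    have hμ : μ ≠ 0 := hQ.1
    have hvμ : V.valuation μ = V.valuation (p : ℂ) := h.mul L L' μ hL hL' hQ
    have g := h.gx L hL
    have g' := h.gx L' hL'
    have hTor : ∀ z, μ * z ∈ L'.lattice ↔ Tor P L z := hQ.2
    have hIsg : Isg L L' μ := fun w hw => (hTor w).2 (fun x _ => tra1 x w hw)
    obtain ⟨⟨R, hR⟩, -⟩ := h5.2 L L' μ hμ hIsg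
    -- `E₁` is a subgroup which contains the lattice
    have inl : ∀ z, z ∈ L.lattice → InEn V L z := fun z hz => Or.inl hz
    have inadd := g.add
    have inneg := g.neg
    have insub : ∀ z w, InEn V L z → InEn V L w → InEn V L (z - w) := fun z w hz hw => by
      rw [sub_eq_add_neg]
      exact inadd _ _ hz (inneg _ hw)
    have inV : ∀ (M : PeriodPair) (z : ℂ), ¬ InEn V M z → V.valuation (xn M z) ≤ 1 := by
      intro M z hz
      rw [ValuationSubring.valuation_le_one_iff]
      by_contra h6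
      exact hz (Or.inr h6)
    have in1 : ∀ (M : PeriodPair) (z : ℂ), InEn V M z → z ∉ M.lattice →
        1 < V.valuation (xn M z) := by
      intro M z hz hzM
      rcases hz with h6 | h6
      · exact absurd h6 hzM
      · by_contra h7
        exact h6 ((V.valuation_le_one_iff _).1 (not_lt.1 h7))
    -- the point of order 5
    have o1 := L.ω₁_mem_lattice
    have f1 : ((5 : ℕ) : ℂ) * (L.ω₁ / 5) ∈ L.lattice := by
      convert o1 using 1; push_cast; ring
    have n1 := fifth L
    set w1 : ℂ := L.ω₁ / 5 with hw1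
    have i1 : ¬ InEn V L w1 := fun hin => n1 (g.tor w1 5 hin hv5 f1)
    have m1 : μ * w1 ∉ L'.lattice := by
      intro h7
      have h8 : Tor P L w1 := (hTor w1).1 h7
      have h9 : Tor (sp ((5 : ℕ) : OO A B)) L w1 := by
        rw [tra5, embn]
        exact f1
      have h10 : ¬ sp ((5 : ℕ) : OO A B) ≤ P := by
        rw [Ideal.span_singleton_le_iff_mem]
        exact h5P
      have h11 := pa6 _ 1 h10
      rw [pow_one] at h11
      exact n1 (tra4 _ _ w1 h11 h9 h8)
    have i1' : ¬ InEn V L' (μ * w1) := by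
      intro hin
      refine m1 (g'.tor _ 5 hin hv5 ?_)
      have h7 := hIsg _ f1
      rwa [show μ * (((5 : ℕ) : ℂ) * w1) = ((5 : ℕ) : ℂ) * (μ * w1) by ring] at h7
    -- the point `z' = μ z`
    have hz1 : Tor (P ^ (j + 1)) L' (μ * z) := by
      intro x hx
      have h7 : Tor P L (emb x * z) := by
        apply tra6 (P ^ (j + 1)) P x z hx
        rw [← pow_succ]
        exact hz
      have h8 := (hTor _).2 h7
      rwa [show μ * (emb x * z) = emb x * (μ * z) by ring] at h8
    have hz2 : ¬ Tor (P ^ j) L' (μ * z) := by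
      intro h7
      apply hz0
      rw [pow_succ]
      apply tra7
      intro x hx
      have h8 := h7 x hx
      rw [show emb x * (μ * z) = μ * (emb x * z) by ring] at h8
      exact (hTor _).1 h8
    obtain ⟨y1, y2, y3⟩ := ih L' hL' (μ * z) hz1 hz2
    have hzL : z ∉ L.lattice := fun h7 => hz0 fun x _ => tra1 x z h7
    -- the representatives
    have torR : ∀ q ∈ R, Tor P L q := fun q hq => (hTor q).1 (hR.mem q hq)
    have hRk : ∀ q ∈ R, InEn V L q ∧ V.valuation (tE L q) ^ (p - 1) = V.valuation (p : ℂ) :=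
      fun q hq => h4 p A B P V h L hL q (torR q hq) (hR.ne q hq)
    have hRx : ∀ q ∈ R, V.valuation (p : ℂ) ^ 2 * V.valuation (xn L q) ^ (p - 1) = 1 := by
      intro q hq
      obtain ⟨-, -, h7⟩ := g.par q (hRk q hq).1 (hR.ne q hq)
      rw [← (hRk q hq).2, ← pow_mul, mul_comm (p - 1) 2, pow_mul, ← mul_pow, mul_comm, h7, one_pow]
    -- congruence of the points of `E[P]`
    have cong : ∀ q q', Tor P L q → Tor P L q' → q ∉ L.lattice → q' ∉ L.lattice →
        q' - q ∈ L.lattice ∨ q' + q ∈ L.lattice := by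
      intro q q' hq hq' hqL hqL'
      obtain ⟨x, hx⟩ := (h3 A B h.ring L hL).2 P hPbot pa5 q q' hq hq' hqL
      by_cases hxP : x ∈ P
      · exfalso
        apply hqL'
        have := add_mem hx (hq x hxP)
        rwa [sub_add_cancel] at this
      · rcases (pa2 x hxP).2 with h6 | h6
        · left
          have h7 := add_mem hx (hq _ h6)
          rw [← hφ (x - 1), map_sub, map_one, hφ] at h7
          convert h7 using 1
          ring
        · right
          have h7 := add_mem hx (hq _ h6)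
          rw [← hφ (x + 1), map_add, map_one, hφ] at h7
          convert h7 using 1
          ring
    have pq : ∀ q, Tor P L q → (p : ℂ) * q ∈ L.lattice := by
      intro q hq
      have := hq _ h.mem
      rwa [embn] at this
    -- `R` is not empty and has `p - 1` elements
    obtain ⟨q0', hq0', hq0L'⟩ : ∃ q, Tor P L q ∧ q ∉ L.lattice := by
      obtain ⟨q, k1, k2⟩ := (h3 A B h.ring L hL).1 ⊤ P hPbot pa5.ne_top.lt_top
      exact ⟨q, k1, fun h7 => k2 fun x _ => tra1 x q h7⟩
    obtain ⟨q0, hq0R, -⟩ := hR.surj q0' ((hTor q0').2 hq0') hq0L'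
    have hq0L := hR.ne q0 hq0R
    have hq0T := torR q0 hq0R
    have hcard : R.card = p - 1 := by
      have hpq := pq q0 hq0T
      rcases h.two with hp | hp
      · have : R = {q0} := by
          refine Finset.eq_singleton_iff_unique_mem.2 ⟨hq0R, fun q hq => ?_⟩
          rcases cong q0 q hq0T (torR q hq) hq0L (hR.ne q hq) with h6 | h6
          · exact hR.inj q hq q0 hq0R h6
          · apply hR.inj q hq q0 hq0R
            rw [hp] at hpq
            have h7 := sub_mem h6 hpq
            convert h7 using 1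
            push_cast
            ring
        rw [this, hp, Finset.card_singleton]
      · have hnT : Tor P L (-q0) := fun x hx => by
          rw [mul_neg]
          exact neg_mem (hq0T x hx)
        have hnL : -q0 ∉ L.lattice := fun h6 => hq0L (by simpa using neg_mem h6)
        obtain ⟨q1, hq1R, hq1⟩ := hR.surj (-q0) ((hTor _).2 hnT) hnL
        have hne : q0 ≠ q1 := by
          rintro rfl
          apply hq0L
          rw [hp] at hpq
          have h7 := add_mem hq1 hpq
          convert h7 using 1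
          push_cast
          ring
        have : R = {q0, q1} := by
          ext q
          rw [Finset.mem_insert, Finset.mem_singleton]
          constructor
          · intro hq
            rcases cong q0 q hq0T (torR q hq) hq0L (hR.ne q hq) with h6 | h6
            · exact Or.inl (hR.inj q hq q0 hq0R h6)
            · right
              apply hR.inj q hq q1 hq1R
              have h7 := add_mem h6 hq1
              convert h7 using 1
              ring
          · rintro (rfl | rfl)
            · exact hq0R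
            · exact hq1R
        rw [this, hp, Finset.card_pair hne]
    have hp1 : p - 1 ≠ 0 := by omega
    have hRT : ∀ q ∈ R, V.valuation (xn L q) = V.valuation (xn L q0) := by
      intro q hq
      have h7 : V.valuation (p : ℂ) ^ 2 * V.valuation (xn L q) ^ (p - 1) =
          V.valuation (p : ℂ) ^ 2 * V.valuation (xn L q0) ^ (p - 1) := by
        rw [hRx q hq, hRx q0 hq0R]
      exact (pow_left_inj₀ zero_le zero_le hp1).1
        (mul_left_cancel₀ (pow_ne_zero 2 pa3) h7)
    -- the product formula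
    have pf := h6 L L' μ R hμ hIsg hR w1 m1 z y2
    have xd : ∀ (M : PeriodPair) (a b : ℂ),
        M.weierstrassP a - M.weierstrassP b = xn M a - xn M b := by
      intro M a b
      unfold xn
      ring
    simp only [xd] at pf
    obtain ⟨-, -, par'⟩ := g'.par (μ * z) y1 y2
    have hyk : V.valuation (p : ℂ) ^ 2 *
        V.valuation (xn L' (μ * z)) ^ ((p - 1) * p ^ j) = 1 := by
      rw [← y3, ← pow_mul, mul_comm ((p - 1) * p ^ j) 2, pow_mul, ← mul_pow, mul_comm, par',
        one_pow]
    obtain ⟨X1, X2⟩ := num V.valuation p (p ^ j) hp2 (pow_ne_zero _ (by omega)) R hcard μ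
      (xn L' (μ * z)) (xn L' (μ * w1)) (xn L z) (xn L w1) (fun q => xn L q)
      (fun q => xn L (w1 + q)) (V.valuation (xn L q0)) (V.valuation (p : ℂ)) pa3 h.vp hvμ
      (hRx q0 hq0R) (in1 L q0 (hRk q0 hq0R).1 hq0L) hRT
      (fun q hq => inV L _ fun hin => i1 (by
        have := insub _ _ hin (hRk q hq).1
        rwa [add_sub_cancel_right] at this))
      (inV L _ i1) (inV L' _ i1') (in1 L' _ y1 y2) hyk pf
    have hzE : InEn V L z := by
      by_contra hc
      exact absurd X1 (not_lt.2 (inV L _ hc))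
    refine ⟨hzE, hzL, ?_⟩
    obtain ⟨-, -, par⟩ := g.par z hzE hzL
    have e1 : V.valuation (tE L z) ^ p = V.valuation (tE L' (μ * z)) := by
      have e2 : (V.valuation (tE L z) ^ p) ^ 2 = V.valuation (tE L' (μ * z)) ^ 2 := by
        have hy0 : V.valuation (xn L' (μ * z)) ≠ 0 := by
          intro h0
          rw [h0, zero_mul] at par'
          exact zero_ne_one par'
        apply mul_left_cancel₀ hy0
        rw [par', ← X2, ← pow_mul, mul_comm p 2, pow_mul, ← mul_pow, par, one_pow]
      exact (pow_left_inj₀ zero_le zero_le two_ne_zero).1 e2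
    calc V.valuation (tE L z) ^ ((p - 1) * p ^ (j + 1))
        = (V.valuation (tE L z) ^ p) ^ ((p - 1) * p ^ j) := by
          rw [← pow_mul]
          congr 1
          ring
      _ = V.valuation (p : ℂ) := by rw [e1, y3]

end

end Pool.Agent.MUXE
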