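import Pool.Agent.MUX.StXE2
import Pool.Agent.MUX.E_MAIN0

/-!
# MUX, block E, module BDL (helper66)
-/

set_option autoImplicit false

namespace Pool.Agent.MUXE

open _root_.MU3 Pool.Agent.MU3A Pool.Agent.MU3B Pool.Agent.MUX Pool.Agent.MUXU Pool.Agent.RI

noncomputable section

lemma bdl_lv {p f n : ℕ} (hp : p = 2 ∨ p = 3) :
    ∃ e : ℕ, lvX p f n = p ^ e * f := by
  rcases hp with rfl | rfl
  · exact ⟨n + 2, by simp [lvX, q0]; ring⟩
  · exact ⟨n + 1, by simp [lvX, q0]; ring⟩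

lemma bdl_pf {p f n : ℕ} (hp : p = 2 ∨ p = 3) (hf : f ≠ 0) :
    (lvX p f n).primeFactors ⊆ (p * f).primeFactors := by
  obtain ⟨e, he⟩ := bdl_lv (f := f) (n := n) hp
  have hp0 : p ≠ 0 := by rcases hp with rfl | rfl <;> norm_num
  rw [he, Nat.primeFactors_mul (pow_ne_zero _ hp0) hf, Nat.primeFactors_mul hp0 hf]
  refine Finset.union_subset_union (fun q hq => ?_) (by rfl)
  have hq' := Nat.mem_primeFactors.1 hq
  exact Nat.mem_primeFactors.2 ⟨hq'.1, hq'.1.dvd_of_dvd_pow hq'.2.1, hp0⟩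

lemma bdl_odd {L : PeriodPair} {a : ℕ} {z l : ℂ} (hl : l ∈ L.lattice) :
    dlX L a (l - z) = -dlX L a z := by
  obtain ⟨h1, h2⟩ := b_PER L
  have hal : (a : ℂ) * l ∈ L.lattice := by
    have := nsmul_mem hl a
    simpa [nsmul_eq_mul] using this
  unfold dlX
  have e1 : ee L (l - z) = -ee L z := by
    rw [show l - z = -z + l by ring, h1 _ _ hl, h2]
  have e2 : ee L ((a : ℂ) * (l - z)) = -ee L (a * z) := by
    rw [show (a : ℂ) * (l - z) = -(a * z) + a * l by ring, h1 _ _ hal, h2]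
  rw [e1, e2]
  ring

lemma bdl_pt (h2 : Sxe_PT) {A B : ℤ} (hr : RingE A B) {n : ℕ} {ι : Type} (R : Reps A B n ι)
    (hn : n ≠ 0) (i : ι) {m : ℕ} (hm0 : m ≠ 0) {x y : OO A B}
    (hy : x + y ∈ idl (A := A) (B := B) m) :
    ∃ l ∈ (R.L i).lattice, pt R m i y = l - pt R m i x := by
  obtain ⟨hmu0, hmuL, -, -⟩ := h2 A B hr n ι R hn i
  obtain ⟨t, ht⟩ := Ideal.mem_span_singleton.1 hy
  obtain ⟨φ, hφ⟩ := hr.hom
  have e1 : emb y = (m : ℂ) * emb t - emb x := by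
    have : y = ((m : ℕ) : OO A B) * t - x := by rw [← ht]; ring
    rw [this, ← hφ, ← hφ, ← hφ, map_sub, map_mul, map_natCast]
  have hmc : (m : ℂ) ≠ 0 := by exact_mod_cast hm0
  refine ⟨R.om i * nI (R.b i) * emb t, ?_, ?_⟩
  · have hu : R.om R.i0 * emb t ∈ (R.L R.i0).lattice := by
      rw [(R.nl R.i0).mem]
      exact ⟨t, by rw [R.b0]; trivial, rfl⟩
    have h5 := hmuL _ hu
    have hom : R.om R.i0 ≠ 0 := (R.nl R.i0).om_ne
    have e4 : muX R i * (R.om R.i0 * emb t) = R.om i * nI (R.b i) * emb t := by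
      unfold muX
      field_simp
    rwa [e4] at h5
  · unfold pt
    rw [e1]
    field_simp

theorem te_BDL (h1 : Sxe_CTX) (h2 : Sxe_PT) (h3 : Sxe_NE1) (h4 : Sxe_THE) : Sxe_BDL := by
  intro p A B P V f hS hr hR ι R n H hH i x hx
  have hctx := h1 p A B P V f hS hr hR
  obtain ⟨e, he⟩ := bdl_lv (f := f) (n := n) hctx.two
  obtain ⟨ha3, hap, haf⟩ := m0_aX hctx.two hS.f0
  have hf2 := m0_f hS
  have hp0 : p ≠ 0 := by rcases hctx.two with rfl | rfl <;> norm_num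
  have hm0 : lvX p f n ≠ 0 := by rw [he]; exact mul_ne_zero (pow_ne_zero _ hp0) hS.f0
  obtain ⟨hmu0, hmuL, -, hpt⟩ := h2 A B hr (p * f) ι R (mul_ne_zero hp0 hS.f0) i
  obtain ⟨hpe, hmz, hex, -⟩ := hpt (lvX p f n) hm0 (bdl_pf hctx.two hS.f0) x
  have hNL : NL A B (R.L i) := ⟨R.b i, R.om i, R.nl i⟩
  have hne := h3 p A B P V hctx (R.L i) hNL e f (aX p f) hf2 hS.fp hap haf
    (pt R (lvX p f n) i x) (by rw [← he]; exact hmz) (fun c hc => by rw [← he]; exact hex hx c hc)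
  obtain ⟨hz1, haz, hq⟩ := hne
  constructor
  · refine (h4 A B V (R.L i) (hctx.gx _ hNL) (aX p f) (H i) (by omega) (hH i)
      (pt R (lvX p f n) i x) hz1 haz (fun q hqH => hq q ((hH i).mem q hqH) ?_)).2.1
    intro hqL
    exact (hH i).ne q hqH (by rw [two_mul]; exact add_mem hqL hqL)
  · intro y hy
    obtain ⟨l, hl, e2⟩ := bdl_pt h2 hr R (mul_ne_zero hp0 hS.f0) i hm0 hy
    rw [e2]
    exact bdl_odd hl

end

end Pool.Agent.MUXE
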