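import Pool.Agent.MUX.StXE2
import Pool.Agent.MUX.E_MAIN0
import Pool.Agent.MUX.E_BDL

/-!
# MUX, block E, module EW: the final form (helper66)
-/

set_option autoImplicit false

namespace Pool.Agent.MUXE

open _root_.MU3 Pool.Agent.MU3A Pool.Agent.MU3B Pool.Agent.MUX Pool.Agent.MUXU Pool.Agent.RI

noncomputable section

lemma ew_fin {A B : ℤ} (hT : TorX A B) (m : Ideal (OO A B)) (hm : m ≠ ⊥)
    (D : IntermediateField ℚ ℂ) (h : kk A B ≤ D) (hD : ∀ y ∈ D, y ∈ RF m) :
    letI := algC h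
    Finite (D ≃ₐ[kk A B] D) := by
  letI := algC h
  have := hT.fin _ hm
  let φ : D →ₗ[kk A B] RF m :=
    { toFun := fun y => ⟨y, hD y y.2⟩
      map_add' := fun x y => rfl
      map_smul' := fun c x => by
        apply Subtype.ext
        show ((c • x : D) : ℂ) = ((c • (⟨x, hD x x.2⟩ : RF m) : RF m) : ℂ)
        rw [Algebra.smul_def, Algebra.smul_def]
        rfl }
  have hφ : Function.Injective φ := by
    intro x y hxy
    apply Subtype.ext
    exact congrArg (fun z : RF m => (z : ℂ)) hxy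
  have : FiniteDimensional (kk A B) D := FiniteDimensional.of_injective φ hφ
  infer_instance

lemma ew_hits (h2 : Sxe_PT) (h5 : Sxe_TRA) {A B : ℤ} (hr : RingE A B) {n : ℕ} {ι : Type}
    (R : Reps A B n ι) (hn : n ≠ 0) (i : ι) {m : ℕ} (hm0 : m ≠ 0) {x y : OO A B}
    (hy : x + y ∈ idl (A := A) (B := B) m) {σ : ℂ ≃+* ℂ} (hσ : Hits R m σ i x) :
    Hits R m σ i y := by
  obtain ⟨l, hl, e2⟩ := bdl_pt h2 hr R hn i hm0 hy
  have hNL : NL A B (R.L i) := ⟨R.b i, R.om i, R.nl i⟩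
  obtain ⟨-, -, -, -, -, -, -, -, t9⟩ := h5 A B hr (R.L i) hNL
  obtain ⟨a1, a2, a3⟩ := hσ
  have hnz : -(pt R m i x) ∉ (R.L i).lattice := fun h => a3 (by simpa using neg_mem h)
  have hd : -(pt R m i x) - pt R m i y ∈ (R.L i).lattice := by
    rw [e2]
    have : -(pt R m i x) - (l - pt R m i x) = -l := by ring
    rw [this]
    exact neg_mem hl
  obtain ⟨b1, b2⟩ := t9 _ _ hd
  obtain ⟨c1, -, c3⟩ := b2 hnz
  refine ⟨a1, ?_, fun h => hnz (b1.2 h)⟩
  rw [a2, ← c1, ← c3, neg_neg]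

theorem te_EW (h0 : Sxe_MAIN0) (h1 : Sxe_CTX) (h2 : Sxe_PT) (h3 : Sxe_WI) (h4 : Sxe_MUV)
    (h5 : Sxe_TRA) (h6 : Sxe_BDL) : Sxe_EW := by
  classical
  intro p A B P V f hS hr hR hT ι _ R
  have hctx := h1 p A B P V f hS hr hR
  have hp0 : p ≠ 0 := by rcases hctx.two with rfl | rfl <;> norm_num
  have hpf : p * f ≠ 0 := mul_ne_zero hp0 hS.f0
  refine ⟨h4 p A B P V hctx (p * f) ι R hpf (dvd_mul_right p f), ?_⟩
  obtain ⟨c, hc1, hc2⟩ := h3 p A B P V hctx (p * f) ι R hpf (dvd_mul_right p f)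
  refine ⟨c, hc1, ?_⟩
  intro n hn H hH w hw D hD hDF
  intro C hC1 hCS g hcube τ'
  letI := algC hD
  obtain ⟨e, he, hlv⟩ := m0_lv (f := f) hctx.two hn
  have hm0 : lvX p f n ≠ 0 := by rw [hlv]; exact mul_ne_zero (pow_ne_zero _ hp0) hS.f0
  have hmb := m0_ne A B hr hm0
  have hfinG := ew_fin hT _ hmb D hD hDF
  letI : Fintype (D ≃ₐ[kk A B] D) := Fintype.ofFinite _
  choose S hS1 hS2 using hCS
  have key := h0 p A B P V f hS hr hR hT ι R n hn H hH (fun i => (c i : ℂ)) hc2 D hD hDF C S hC1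
    (fun τ q hq => ((hS1 τ).sub q hq).1) hS2 g hcube τ'
  -- the function summed
  set F : ι × (OO A B ⧸ idl (A := A) (B := B) (lvX p f n)) → ℂ := fun q =>
    (w (Quotient.out q.2) : ℂ) * (c q.1 : ℂ) *
      dlX (R.L q.1) (aX p f) (pt R (lvX p f n) q.1 (Quotient.out q.2)) with hF
  have hmkout : ∀ x : OO A B ⧸ idl (A := A) (B := B) (lvX p f n),
      (Quotient.out x : OO A B) + Quotient.out (-x) ∈ idl (A := A) (B := B) (lvX p f n) := by
    intro x
    rw [← Ideal.Quotient.eq_zero_iff_mem, map_add, Ideal.Quotient.mk_out, Ideal.Quotient.mk_out]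
    exact add_neg_cancel x
  have hcopneg : ∀ x : OO A B ⧸ idl (A := A) (B := B) (lvX p f n),
      IsCoprime (Quotient.out x : OO A B) ((lvX p f n : ℕ) : OO A B) →
      IsCoprime (Quotient.out (-x) : OO A B) ((lvX p f n : ℕ) : OO A B) := by
    intro x hx
    obtain ⟨t, ht⟩ := Ideal.mem_span_singleton.1 (hmkout x)
    have e1 : (Quotient.out (-x) : OO A B) =
        -Quotient.out x + ((lvX p f n : ℕ) : OO A B) * t := by
      rw [← ht]; ring
    rw [e1]
    exact IsCoprime.add_mul_left_left hx.neg_left t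
  have hwneg : ∀ x : OO A B ⧸ idl (A := A) (B := B) (lvX p f n),
      w (Quotient.out (-x)) = -w (Quotient.out x) := by
    intro x
    rw [← hw.neg]
    refine hw.per _ _ ?_
    rw [sub_neg_eq_add, add_comm]
    exact hmkout x
  have hFneg : ∀ q : ι × (OO A B ⧸ idl (A := A) (B := B) (lvX p f n)),
      IsCoprime (Quotient.out q.2 : OO A B) ((lvX p f n : ℕ) : OO A B) →
      F (q.1, -q.2) = F q := by
    intro q hq
    have hb := (h6 p A B P V f hS hr hR ι R n H hH q.1 (Quotient.out q.2) hq).2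
      (Quotient.out (-q.2)) (hmkout q.2)
    simp only [hF]
    rw [hb, hwneg]
    push_cast
    ring
  have hneg2 : ∀ q : ι × (OO A B ⧸ idl (A := A) (B := B) (lvX p f n)),
      ((q.1, - -q.2) : ι × (OO A B ⧸ idl (A := A) (B := B) (lvX p f n))) = q := by
    intro q
    rw [neg_neg]
  have hXneg : ∀ (τ : D ≃ₐ[kk A B] D) (q : ι × (OO A B ⧸ idl (A := A) (B := B) (lvX p f n))),
      q ∈ XX R (lvX p f n) hD τ → (q.1, -q.2) ∈ XX R (lvX p f n) hD τ := by
    intro τ q hq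
    obtain ⟨a1, σ, a2, a3, a4⟩ := hq
    exact ⟨hcopneg _ a1, σ, a2, a3, ew_hits h2 h5 hr R hpf q.1 hm0 (hmkout q.2) a4⟩
  have hset : ∀ τ : D ≃ₐ[kk A B] D, XX R (lvX p f n) hD τ =
      ((S τ ∪ (S τ).image (fun q => (q.1, -q.2)) :
        Finset (ι × (OO A B ⧸ idl (A := A) (B := B) (lvX p f n)))) : Set _) := by
    intro τ
    ext q
    rw [Finset.mem_coe, Finset.mem_union, Finset.mem_image]
    constructor
    · intro hq
      rcases (hS1 τ).cov q hq with h | h
      · exact Or.inl h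
      · exact Or.inr ⟨_, h, hneg2 q⟩
    · rintro (h | ⟨q', h, rfl⟩)
      · exact (hS1 τ).sub q h
      · exact hXneg τ q' ((hS1 τ).sub q' h)
  have hT2 : ∀ τ : D ≃ₐ[kk A B] D,
      TTw R (fun i => (c i : ℂ)) w (lvX p f n) (aX p f) hD τ = 2 * ∑ q ∈ S τ, F q := by
    intro τ
    have e1 : TTw R (fun i => (c i : ℂ)) w (lvX p f n) (aX p f) hD τ =
        ∑ᶠ q ∈ XX R (lvX p f n) hD τ, F q := rfl
    rw [e1, hset τ, finsum_mem_coe_finset, Finset.sum_union, Finset.sum_image]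
    · rw [two_mul]
      congr 1
      exact Finset.sum_congr rfl (fun q hq => hFneg q ((hS1 τ).sub q hq).1)
    · intro q _ q' _ hqq
      have h7 := Prod.mk.inj hqq
      exact Prod.ext h7.1 (neg_injective h7.2)
    · rw [Finset.disjoint_left]
      intro q hq hq'
      obtain ⟨q'', h7, rfl⟩ := Finset.mem_image.1 hq'
      apply (hS1 τ).dis _ hq
      have := hneg2 q''
      rwa [← this] at h7
  -- the two sums
  have hv : ∀ k : ℤ, V.valuation (k : ℂ) ≤ 1 := fun k =>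
    (ValuationSubring.valuation_le_one_iff _ _).2 (intCast_mem V k)
  have e2 : (1 / 2 * ∑ᶠ τ : D ≃ₐ[kk A B] D, (g τ : ℂ) *
      TTw R (fun i => (c i : ℂ)) w (lvX p f n) (aX p f) hD (τ * τ')) =
      ∑ τ : D ≃ₐ[kk A B] D, (g τ : ℂ) * ∑ q ∈ S (τ * τ'), F q := by
    rw [finsum_eq_sum_of_fintype, Finset.mul_sum]
    refine Finset.sum_congr rfl (fun τ _ => ?_)
    rw [hT2]
    ring
  rw [finsum_eq_sum_of_fintype] at key
  rw [e2]
  set Y := ∑ τ : D ≃ₐ[kk A B] D, (g τ : ℂ) * ∑ q ∈ S (τ * τ'), F q with hY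
  set X := ∑ τ : D ≃ₐ[kk A B] D, (g τ : ℂ) * ∑ q ∈ S (τ * τ'),
    (wP P (Quotient.out q.2) : ℂ) * (c q.1 : ℂ) *
      dlX (R.L q.1) (aX p f) (pt R (lvX p f n) q.1 (Quotient.out q.2)) with hXX
  have hd : V.valuation (Y - X) ≤ V.valuation (p : ℂ) := by
    rw [hY, hXX, ← Finset.sum_sub_distrib]
    refine Valuation.map_sum_le _ (fun τ _ => ?_)
    rw [← mul_sub, ← Finset.sum_sub_distrib, map_mul]
    refine (mul_le_of_le_one_left' (hv _)).trans ?_
    refine Valuation.map_sum_le _ (fun q hq => ?_)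
    have hqc := ((hS1 (τ * τ')).sub q hq).1
    obtain ⟨k, hk⟩ := hw.cong _ hqc
    have e3 : F q - (wP P (Quotient.out q.2) : ℂ) * (c q.1 : ℂ) *
        dlX (R.L q.1) (aX p f) (pt R (lvX p f n) q.1 (Quotient.out q.2)) =
        (p : ℂ) * ((k : ℂ) * (c q.1 : ℂ) *
        dlX (R.L q.1) (aX p f) (pt R (lvX p f n) q.1 (Quotient.out q.2))) := by
      have e4 : (w (Quotient.out q.2) : ℂ) = wP P (Quotient.out q.2) + p * k := by
        have : w (Quotient.out q.2) = wP P (Quotient.out q.2) + p * k := by rw [← hk]; ring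
        rw [this]; push_cast; ring
      simp only [hF]
      rw [e4]
      ring
    rw [e3, map_mul, map_mul, map_mul]
    have hb := (h6 p A B P V f hS hr hR ι R n H hH q.1 (Quotient.out q.2) hqc).1
    exact mul_le_of_le_one_right' (mul_le_one' (mul_le_one' (hv _) (hv _)) hb)
  have hpp : V.valuation (p : ℂ) ≠ 0 := by
    rw [Valuation.ne_zero_iff]
    exact_mod_cast hp0
  have hX2 : V.valuation X ^ (p - 1) ≤ V.valuation (p : ℂ) := by
    have h8 := key
    rw [HfX, ← ValuationSubring.valuation_le_one_iff, map_div₀, map_pow] at h8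
    exact (div_le_one₀ (zero_lt_iff.2 hpp)).1 h8
  rw [HfX, ← ValuationSubring.valuation_le_one_iff, map_div₀, map_pow]
  refine (div_le_one₀ (zero_lt_iff.2 hpp)).2 ?_
  have h9 : V.valuation Y ≤ max (V.valuation (Y - X)) (V.valuation X) := by
    have := V.valuation.map_add (Y - X) X
    rwa [sub_add_cancel] at this
  have h10 : V.valuation (Y - X) ^ (p - 1) ≤ V.valuation (p : ℂ) := by
    have h11 : V.valuation (p : ℂ) ≤ 1 := hctx.vp.le
    have h12 : p - 1 ≠ 0 := by rcases hctx.two with rfl | rfl <;> norm_num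
    calc V.valuation (Y - X) ^ (p - 1) ≤ V.valuation (p : ℂ) ^ (p - 1) := pow_le_pow_left' hd _
      _ ≤ V.valuation (p : ℂ) := by
        obtain ⟨k, hk⟩ := Nat.exists_eq_succ_of_ne_zero h12
        rw [hk, pow_succ]
        exact mul_le_of_le_one_left' (pow_le_one' h11 _)
  rcases le_max_iff.1 h9 with h | h
  · exact (pow_le_pow_left' h _).trans h10
  · exact (pow_le_pow_left' h _).trans hX2

end

end Pool.Agent.MUXE
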