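import Pool.Agent.MUX.StGX

/-!
# MUX, block G, module GD (helper7): the fraction field of the power series over a discrete valuation
ring: the Gauss valuation and the derivation `q d/dq`
-/

set_option autoImplicit false

namespace Pool.Agent.MUXN

noncomputable section

namespace GD

open PowerSeries

section val

variable {O : Type} [CommRing O] [IsDomain O]

omit [IsDomain O] in
theorem C_dvd_iff (c : O) (f : PowerSeries O) : C c ∣ f ↔ ∀ n, c ∣ coeff n f := by
  constructor
  · rintro ⟨g, rfl⟩ n
    rw [coeff_C_mul]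
    exact dvd_mul_right _ _
  · intro h
    choose g hg using h
    refine ⟨mk g, ?_⟩
    ext n
    rw [coeff_C_mul, coeff_mk, hg]

omit [IsDomain O] in
theorem C_prime {ϖ : O} (h : Prime ϖ) : Prime (C ϖ : PowerSeries O) := by
  have hI : (Ideal.span {ϖ}).IsPrime := (Ideal.span_singleton_prime h.ne_zero).2 h
  have key : ∀ f : PowerSeries O, C ϖ ∣ f ↔ map (Ideal.Quotient.mk (Ideal.span {ϖ})) f = 0 := by
    intro f
    rw [C_dvd_iff]
    constructor
    · intro hf
      ext n
      rw [coeff_map, map_zero, Ideal.Quotient.eq_zero_iff_mem, Ideal.mem_span_singleton]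
      exact hf n
    · intro hf n
      have h1 := congrArg (coeff n) hf
      rw [coeff_map, map_zero, Ideal.Quotient.eq_zero_iff_mem, Ideal.mem_span_singleton] at h1
      exact h1
  refine ⟨?_, ?_, ?_⟩
  · intro h0
    apply h.ne_zero
    have := congrArg constantCoeff h0
    simpa using this
  · intro hu
    apply h.not_isUnit
    have := hu.map constantCoeff
    simpa using this
  · intro a b hab
    rw [key, map_mul, mul_eq_zero] at hab
    rw [key, key]
    exact hab

variable [IsDiscreteValuationRing O]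

theorem fin {ϖ : O} (h : Prime ϖ) {f : PowerSeries O} (hf : f ≠ 0) :
    FiniteMultiplicity (C ϖ) f := by
  obtain ⟨n, hn⟩ : ∃ n, coeff n f ≠ 0 := by
    by_contra hcon
    push Not at hcon
    exact hf (by ext n; rw [hcon n, map_zero])
  obtain ⟨k, hk⟩ := FiniteMultiplicity.of_not_isUnit h.not_isUnit hn
  refine ⟨k, fun hdvd => hk ?_⟩
  rw [← map_pow, C_dvd_iff] at hdvd
  exact hdvd n

open Classical in
/-- the Gauss valuation on the power series -/
def vR (ϖ : O) (h : Prime ϖ) : Valuation (PowerSeries O) (WithZero (Multiplicative ℤ)) where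
  toFun f := if f = 0 then 0 else WithZero.exp (-(multiplicity (C ϖ) f : ℤ))
  map_zero' := by simp
  map_one' := by
    have h1 : multiplicity (C ϖ : PowerSeries O) 1 = 0 :=
      multiplicity_eq_zero.2 (C_prime h).not_dvd_one
    rw [if_neg one_ne_zero, h1]
    simp
  map_mul' a b := by
    by_cases ha : a = 0
    · simp [ha]
    by_cases hb : b = 0
    · simp [hb]
    have hab := mul_ne_zero ha hb
    rw [if_neg hab, if_neg ha, if_neg hb, multiplicity_mul (C_prime h) (fin h hab),
      ← WithZero.exp_add]
    congr 1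
    push_cast
    ring
  map_add_le_max' a b := by
    by_cases ha : a = 0
    · simp [ha]
    by_cases hb : b = 0
    · simp [hb]
    by_cases hab : a + b = 0
    · rw [if_pos hab]
      exact zero_le
    rw [if_neg hab, if_neg ha, if_neg hb, le_max_iff, WithZero.exp_le_exp, WithZero.exp_le_exp]
    have h1 : min (multiplicity (C ϖ) a) (multiplicity (C ϖ) b) ≤ multiplicity (C ϖ) (a + b) := by
      apply (fin h hab).le_multiplicity_of_pow_dvd
      apply dvd_add
      · exact ((fin h ha).pow_dvd_iff_le_multiplicity).2 (min_le_left _ _)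
      · exact ((fin h hb).pow_dvd_iff_le_multiplicity).2 (min_le_right _ _)
    rcases min_le_iff.1 h1 with h2 | h2
    · left; omega
    · right; omega

theorem vR_apply (ϖ : O) (h : Prime ϖ) {f : PowerSeries O} (hf : f ≠ 0) :
    vR ϖ h f = WithZero.exp (-(multiplicity (C ϖ) f : ℤ)) := by
  classical
  change (if f = 0 then 0 else WithZero.exp (-(multiplicity (C ϖ) f : ℤ))) = _
  rw [if_neg hf]

theorem vR_ne (ϖ : O) (h : Prime ϖ) {f : PowerSeries O} (hf : f ≠ 0) : vR ϖ h f ≠ 0 := by
  rw [vR_apply ϖ h hf]
  exact WithZero.exp_ne_zero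

theorem vR_le (ϖ : O) (h : Prime ϖ) (f : PowerSeries O) (n : ℕ) :
    vR ϖ h f ≤ WithZero.exp (-(n : ℤ)) ↔ C ϖ ^ n ∣ f := by
  by_cases hf : f = 0
  · simp [hf]
  rw [vR_apply ϖ h hf, WithZero.exp_le_exp, (fin h hf).pow_dvd_iff_le_multiplicity]
  omega

theorem vR_le_one (ϖ : O) (h : Prime ϖ) (f : PowerSeries O) : vR ϖ h f ≤ 1 := by
  have := (vR_le ϖ h f 0).2 (by simp)
  simpa using this

theorem vR_C (ϖ : O) (h : Prime ϖ) : vR ϖ h (C ϖ) = WithZero.exp (-1 : ℤ) := by
  have h1 : (C ϖ : PowerSeries O) ≠ 0 := (C_prime h).ne_zero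
  rw [vR_apply ϖ h h1]
  have h2 : multiplicity (C ϖ : PowerSeries O) (C ϖ) = 1 := multiplicity_self
  rw [h2]
  rfl

theorem vR_unit (ϖ : O) (h : Prime ϖ) (u : O) (hu : IsUnit u) : vR ϖ h (C u) = 1 := by
  obtain ⟨u, rfl⟩ := hu
  have h1 : vR ϖ h (C (u : O)) * vR ϖ h (C ((u⁻¹ : Oˣ) : O)) = 1 := by
    rw [← map_mul, ← map_mul, Units.mul_inv, map_one, map_one]
  refine le_antisymm (vR_le_one ϖ h _) ?_
  calc (1 : WithZero (Multiplicative ℤ)) = vR ϖ h (C (u : O)) * vR ϖ h (C ((u⁻¹ : Oˣ) : O)) :=
        h1.symm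
    _ ≤ vR ϖ h (C (u : O)) * 1 := mul_le_mul_right (vR_le_one ϖ h _) _
    _ = vR ϖ h (C (u : O)) := mul_one _

theorem vR_dvd (ϖ : O) (h : Prime ϖ) (f : PowerSeries O) (c : O) (hc : c ≠ 0)
    (hv : vR ϖ h f ≤ vR ϖ h (C c)) : C c ∣ f := by
  obtain ⟨n, u, rfl⟩ := IsDiscreteValuationRing.eq_unit_mul_pow_irreducible hc h.irreducible
  rw [map_mul, map_mul, vR_unit ϖ h _ u.isUnit, one_mul, map_pow, map_pow, vR_C ϖ h,
    ← WithZero.exp_nsmul] at hv
  have h1 : C ϖ ^ n ∣ f := by
    rw [← vR_le ϖ h]
    convert hv using 2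
    simp
  rw [map_mul, map_pow]
  exact (IsUnit.mul_left_dvd (u.isUnit.map (C : O →+* PowerSeries O))).2 h1

end val

section der

variable (O : Type) [CommRing O] [IsDomain O]

abbrev Fr := FractionRing (PowerSeries O)

/-- `q d/dq` on the power series -/
def th : Derivation O (PowerSeries O) (PowerSeries O) :=
  (X : PowerSeries O) • PowerSeries.derivative O

omit [IsDomain O] in
theorem th_coeff (f : PowerSeries O) (n : ℕ) : coeff n (th O f) = (n : O) * coeff n f := by
  change coeff n ((X : PowerSeries O) * PowerSeries.derivative O f) = _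
  cases n with
  | zero => simp
  | succ n =>
    rw [coeff_succ_X_mul, coeff_derivative]
    push_cast
    ring

omit [IsDomain O] in
theorem th_eq (f : PowerSeries O) :
    th O f = PowerSeries.mk fun n => (n : O) * PowerSeries.coeff n f := by
  ext n
  rw [th_coeff, coeff_mk]

omit [IsDomain O] in
theorem fet : Algebra.FormallyEtale (PowerSeries O) (Fr O) :=
  Algebra.FormallyEtale.of_isLocalization (nonZeroDivisors (PowerSeries O))

/-- the extension to the fraction field -/
def ddO : Derivation O (Fr O) (Fr O) :=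
  have : Algebra.FormallyEtale (PowerSeries O) (Fr O) := fet O
  ((LinearMap.liftBaseChange (Fr O)
    (((Algebra.linearMap (PowerSeries O) (Fr O)).compDer (th O)).liftKaehlerDifferential)).comp
      (KaehlerDifferential.tensorKaehlerEquivOfFormallyEtale O (PowerSeries O)
        (Fr O)).symm.toLinearMap).compDer (KaehlerDifferential.D O (Fr O))

theorem ddO_alg (f : PowerSeries O) :
    ddO O (algebraMap _ _ f) = algebraMap (PowerSeries O) (Fr O) (th O f) := by
  have : Algebra.FormallyEtale (PowerSeries O) (Fr O) := fet O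
  change (LinearMap.liftBaseChange (Fr O)
    (((Algebra.linearMap (PowerSeries O) (Fr O)).compDer (th O)).liftKaehlerDifferential))
      ((KaehlerDifferential.tensorKaehlerEquivOfFormallyEtale O (PowerSeries O)
        (Fr O)).symm (KaehlerDifferential.D O (Fr O) (algebraMap _ _ f))) = _
  rw [KaehlerDifferential.tensorKaehlerEquivOfFormallyEtale_symm_D_algebraMap]
  simp

/-- the same as a derivation over `ℤ` -/
def dd : Derivation ℤ (Fr O) (Fr O) := (ddO O).restrictScalars ℤ

theorem dd_alg (f : PowerSeries O) :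
    dd O (algebraMap _ _ f) = algebraMap (PowerSeries O) (Fr O) (th O f) := ddO_alg O f

end der

end GD

open GD PowerSeries in
/-- GD. -/
theorem tg_GD : Sg_GD := by
  intro O _ _ _
  obtain ⟨ϖ, hϖ⟩ := IsDiscreteValuationRing.exists_irreducible O
  have h : Prime ϖ := hϖ.prime
  have hS : nonZeroDivisors (PowerSeries O) ≤ (vR ϖ h).supp.primeCompl := by
    intro s hs hs'
    exact vR_ne ϖ h (nonZeroDivisors.ne_zero hs) hs'
  set v := (vR ϖ h).extendToLocalization hS (FractionRing (PowerSeries O)) with hv
  have hva : ∀ f : PowerSeries O, v (algebraMap _ _ f) = vR ϖ h f := fun f =>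
    Valuation.extendToLocalization_apply_map_apply _ _ _ f
  refine ⟨v, dd O, ?_, ?_, ?_, ?_, ?_⟩
  · intro f
    rw [hva]
    exact vR_le_one ϖ h f
  · intro u hu
    rw [hva]
    exact vR_unit ϖ h u hu
  · intro f c hc hfc
    rw [hva, hva] at hfc
    exact vR_dvd ϖ h f c hc hfc
  · have hth : ∀ f : PowerSeries O, v (dd O (algebraMap _ _ f)) ≤ v (algebraMap _ _ f) := by
      intro f
      rw [dd_alg, hva, hva]
      by_cases hf : f = 0
      · simp [hf]
      rw [vR_apply ϖ h hf, vR_le, ← map_pow, C_dvd_iff]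
      intro n
      rw [th_coeff]
      have h1 : C ϖ ^ multiplicity (C ϖ) f ∣ f := pow_multiplicity_dvd _ _
      rw [← map_pow, C_dvd_iff] at h1
      exact (h1 n).mul_left _
    intro x
    obtain ⟨a, b, hb, rfl⟩ := IsFractionRing.div_surjective (A := PowerSeries O) x
    have hb0 : algebraMap (PowerSeries O) (FractionRing (PowerSeries O)) b ≠ 0 :=
      IsFractionRing.to_map_ne_zero_of_mem_nonZeroDivisors hb
    set x := algebraMap (PowerSeries O) (FractionRing (PowerSeries O)) a /
      algebraMap (PowerSeries O) (FractionRing (PowerSeries O)) b with hx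
    have hxb : algebraMap (PowerSeries O) (FractionRing (PowerSeries O)) a =
      x * algebraMap (PowerSeries O) (FractionRing (PowerSeries O)) b := by
      rw [hx]
      field_simp
    have h1 := hth a
    have h2 := hth b
    rw [hxb, Derivation.leibniz, smul_eq_mul, smul_eq_mul] at h1
    have hvb : v (algebraMap (PowerSeries O) (FractionRing (PowerSeries O)) b) ≠ 0 :=
      (Valuation.ne_zero_iff v).2 hb0
    have h3 : v (algebraMap (PowerSeries O) (FractionRing (PowerSeries O)) b * dd O x) ≤
        v (x * algebraMap (PowerSeries O) (FractionRing (PowerSeries O)) b) := by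
      have h4 : algebraMap (PowerSeries O) (FractionRing (PowerSeries O)) b * dd O x =
          (x * dd O (algebraMap (PowerSeries O) (FractionRing (PowerSeries O)) b) +
            algebraMap (PowerSeries O) (FractionRing (PowerSeries O)) b * dd O x) -
          x * dd O (algebraMap (PowerSeries O) (FractionRing (PowerSeries O)) b) := by ring
      rw [h4]
      refine (Valuation.map_sub _ _ _).trans (max_le h1 ?_)
      rw [map_mul, map_mul]
      exact mul_le_mul_right h2 _
    rw [map_mul, map_mul, mul_comm] at h3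
    exact le_of_mul_le_mul_right h3 (zero_lt_iff.2 hvb)
  · intro f
    rw [dd_alg, th_eq]

end

end Pool.Agent.MUXN
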