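import Pool.Agent.MUX.StGX

/-!
# MUX, block G, module GP (helper9): the Gauss lemma for power series
-/

set_option autoImplicit false

namespace Pool.Agent.MUXN

noncomputable section

namespace GP

/-- a derivation over `ℤ` from its two properties -/
def mkD (E : Type) [Field E] (f : E → E) (ha : ∀ x y, f (x + y) = f x + f y)
    (hm : ∀ x y, f (x * y) = x * f y + y * f x) : Derivation ℤ E E :=
  Derivation.mk' (AddMonoidHom.toIntLinearMap (AddMonoidHom.mk' f ha)) hm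

theorem gv (h1 : Sg_GV) (E Γ : Type) [Field E] [LinearOrderedCommGroupWithZero Γ]
    (v : Valuation E Γ) (f : E → E) (ha : ∀ x y, f (x + y) = f x + f y)
    (hm : ∀ x y, f (x * y) = x * f y + y * f x)
    (hv : ∀ x, v (f x) ≤ v x) (W : WeierstrassCurve.Affine E)
    (hf : f W.a₁ = 0 ∧ f W.a₂ = 0 ∧ f W.a₃ = 0 ∧ f W.a₄ = 0 ∧ f W.a₆ = 0)
    (hw : v W.a₁ ≤ 1 ∧ v W.a₂ ≤ 1 ∧ v W.a₃ ≤ 1 ∧ v W.a₄ ≤ 1 ∧ v W.a₆ ≤ 1) (hΔ : v W.Δ = 1)
    (X Y g : E) (he : W.Equation X Y) (h0 : 2 * Y + W.a₁ * X + W.a₃ ≠ 0)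
    (hg : f X = (2 * Y + W.a₁ * X + W.a₃) * g) : v g ≤ 1 :=
  h1 E Γ v (mkD E f ha hm) hv W hf hw hΔ X Y g he h0 hg

end GP

theorem tg_GP (h1 : Sg_GV) (h2 : Sg_GD) : Sg_GP := by
  intro O _ _ _ h2ne W hΔ th hth P Q G c hc hQ hne heq
  obtain ⟨v, D, hv1, hvu, hvd, hvD, hD⟩ := h2 O
  by_cases hG : G = 0
  · rw [hG]
    exact dvd_zero _
  have inj : Function.Injective (algebraMap (PowerSeries O) (FractionRing (PowerSeries O))) :=
    IsFractionRing.injective _ _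
  obtain ⟨ι, hι⟩ : ∃ ι : PowerSeries O →+* FractionRing (PowerSeries O),
    ι = algebraMap (PowerSeries O) (FractionRing (PowerSeries O)) := ⟨_, rfl⟩
  rw [← hι] at inj
  simp only [← hι] at hv1 hvu hvd hD
  obtain ⟨φ, hφ⟩ : ∃ φ : O →+* FractionRing (PowerSeries O),
    ∀ a, φ a = ι (PowerSeries.C a) := ⟨ι.comp (PowerSeries.C (R := O)), fun _ => rfl⟩
  have hth' : ∀ f, th f = PowerSeries.mk fun n => (n : O) * PowerSeries.coeff n f := by
    intro f
    ext n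
    rw [hth, PowerSeries.coeff_mk]
  have hDι : ∀ f, D (ι f) = ι (th f) := by
    intro f
    rw [hD, hth']
  have hDC : ∀ a : O, D (φ a) = 0 := by
    intro a
    rw [hφ, hDι]
    have h3 : th (PowerSeries.C a) = 0 := by
      ext n
      rw [hth, PowerSeries.coeff_C]
      split_ifs with hn
      · simp [hn]
      · simp
    rw [h3, map_zero]
  have hφinj : Function.Injective φ := by
    intro a b hab
    rw [hφ, hφ] at hab
    exact PowerSeries.C_injective (inj hab)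
  have hQ' : ι Q ≠ 0 := fun h => hQ (inj (by rw [h, map_zero]))
  have hG' : ι G ≠ 0 := fun h => hG (inj (by rw [h, map_zero]))
  have hc' : φ c ≠ 0 := fun h => hc (hφinj (by rw [h, map_zero]))
  have h2' : (2 : FractionRing (PowerSeries O)) ≠ 0 := by
    intro h
    apply h2ne
    apply hφinj
    rw [map_ofNat, map_zero]
    exact h
  have hM : ι Q * ι (th P) - ι P * ι (th Q) ≠ 0 := by
    intro h
    apply hne
    apply inj
    rw [map_sub, map_mul, map_mul, map_zero]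
    exact h
  have heq' : φ c ^ 2 * (ι Q * ι (th P) - ι P * ι (th Q)) ^ 2 =
      ι Q * (4 * ι P ^ 3 + φ W.b₂ * ι P ^ 2 * ι Q + 2 * φ W.b₄ * ι P * ι Q ^ 2 +
        φ W.b₆ * ι Q ^ 3) * ι G ^ 2 := by
    have h3 := congrArg ι heq
    simp only [map_mul, map_pow, map_sub, map_add, map_ofNat, ← hφ] at h3
    exact h3
  have hDX : D (ι P / ι Q) = (ι Q * ι (th P) - ι P * ι (th Q)) / ι Q ^ 2 := by
    have e1 : ι P = ι Q * (ι P / ι Q) := by
      field_simp
    have e2 := D.leibniz (ι Q) (ι P / ι Q)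
    rw [← e1, hDι, hDι] at e2
    simp only [smul_eq_mul] at e2
    have e3 : D (ι P / ι Q) = (ι (th P) - ι P / ι Q * ι (th Q)) / ι Q := by
      rw [eq_div_iff hQ', e2]
      ring
    rw [e3]
    field_simp
  obtain ⟨X, hX⟩ : ∃ X, X = ι P / ι Q := ⟨_, rfl⟩
  obtain ⟨g, hg⟩ : ∃ g, g = ι G / φ c := ⟨_, rfl⟩
  obtain ⟨T, hT⟩ : ∃ T, T = (ι Q * ι (th P) - ι P * ι (th Q)) * φ c / (ι Q ^ 2 * ι G) :=
    ⟨_, rfl⟩
  have hT0 : T ≠ 0 := by
    rw [hT]
    exact div_ne_zero (mul_ne_zero hM hc') (mul_ne_zero (pow_ne_zero _ hQ') hG')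
  have hTg : D X = T * g := by
    rw [hX, hDX, hT, hg]
    field_simp
  have hT2 : T ^ 2 = 4 * X ^ 3 + φ W.b₂ * X ^ 2 + 2 * φ W.b₄ * X + φ W.b₆ := by
    rw [hT, hX]
    field_simp
    linear_combination heq'
  have hb2 : φ W.b₂ = φ W.a₁ ^ 2 + 4 * φ W.a₂ := by
    rw [WeierstrassCurve.b₂]
    simp only [map_add, map_mul, map_pow, map_ofNat]
  have hb4 : φ W.b₄ = 2 * φ W.a₄ + φ W.a₁ * φ W.a₃ := by
    rw [WeierstrassCurve.b₄]
    simp only [map_add, map_mul, map_ofNat]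
  have hb6 : φ W.b₆ = φ W.a₃ ^ 2 + 4 * φ W.a₆ := by
    rw [WeierstrassCurve.b₆]
    simp only [map_add, map_mul, map_pow, map_ofNat]
  have h2Y : 2 * ((T - φ W.a₁ * X - φ W.a₃) / 2) = T - φ W.a₁ * X - φ W.a₃ := by
    field_simp
  have hvφ : ∀ a, v (φ a) ≤ 1 := fun a => by
    rw [hφ]
    exact hv1 _
  have key : v g ≤ 1 := by
    refine GP.gv h1 (FractionRing (PowerSeries O)) (WithZero (Multiplicative ℤ)) v (fun x => D x)
      (fun x y => map_add D x y) (fun x y => D.leibniz x y) hvD (W.map φ)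
      ⟨hDC _, hDC _, hDC _, hDC _, hDC _⟩ ⟨hvφ _, hvφ _, hvφ _, hvφ _, hvφ _⟩ ?_ X
      ((T - φ W.a₁ * X - φ W.a₃) / 2) g ?_ ?_ ?_
    · rw [WeierstrassCurve.map_Δ, hφ]
      exact hvu _ hΔ
    · rw [WeierstrassCurve.Affine.equation_iff]
      simp only [WeierstrassCurve.map_a₁, WeierstrassCurve.map_a₂, WeierstrassCurve.map_a₃,
        WeierstrassCurve.map_a₄, WeierstrassCurve.map_a₆]
      rw [hb2, hb4, hb6] at hT2
      field_simp
      linear_combination hT2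
    · simp only [WeierstrassCurve.map_a₁, WeierstrassCurve.map_a₃]
      rw [h2Y]
      have : T - φ W.a₁ * X - φ W.a₃ + φ W.a₁ * X + φ W.a₃ = T := by ring
      rw [this]
      exact hT0
    · simp only [WeierstrassCurve.map_a₁, WeierstrassCurve.map_a₃]
      rw [h2Y, hTg]
      ring
  refine hvd G c hc ?_
  rw [← hφ]
  have h4 : ι G = g * φ c := by
    rw [hg]
    field_simp
  rw [h4, map_mul]
  exact mul_le_of_le_one_left' key

end

end Pool.Agent.MUXN
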