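import Pool.Agent.MUX.StGX

/-!
# MUX, block G, module GV (helper96): the abstract Gauss lemma
-/

set_option autoImplicit false

namespace Pool.Agent.MUXN

noncomputable section

namespace GvX

variable {E Γ : Type} [Field E] [LinearOrderedCommGroupWithZero Γ] (v : Valuation E Γ)

/-- Nonsingular reduction: one of the two derivatives is a unit. -/
theorem unit_TS (W : WeierstrassCurve.Affine E)
    (ha : v W.a₁ ≤ 1 ∧ v W.a₂ ≤ 1 ∧ v W.a₃ ≤ 1 ∧ v W.a₄ ≤ 1 ∧ v W.a₆ ≤ 1) (hΔ : v W.Δ = 1)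
    (X Y : E) (hX : v X ≤ 1) (hY : v Y ≤ 1) (h : W.Equation X Y) :
    v (2 * Y + W.a₁ * X + W.a₃) = 1 ∨ v (3 * X ^ 2 + 2 * W.a₂ * X + W.a₄ - W.a₁ * Y) = 1 := by
  obtain ⟨h1, h2, h3, h4, h6⟩ := ha
  let W' : WeierstrassCurve.Affine v.valuationSubring :=
    ⟨⟨W.a₁, h1⟩, ⟨W.a₂, h2⟩, ⟨W.a₃, h3⟩, ⟨W.a₄, h4⟩, ⟨W.a₆, h6⟩⟩
  let X' : v.valuationSubring := ⟨X, hX⟩
  let Y' : v.valuationSubring := ⟨Y, hY⟩
  have hI := Valuation.valuationSubring.integers v
  have hE : W'.Equation X' Y' := by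
    rw [WeierstrassCurve.Affine.equation_iff]
    apply Subtype.ext
    exact (WeierstrassCurve.Affine.equation_iff _ _).1 h
  have hE2 := hE.map (IsLocalRing.residue v.valuationSubring)
  have hΔ' : (W'.map (IsLocalRing.residue v.valuationSubring)).Δ ≠ 0 := by
    rw [WeierstrassCurve.map_Δ, IsLocalRing.residue_ne_zero_iff_isUnit,
      hI.isUnit_iff_valuation_eq_one]
    exact hΔ
  have hN := (WeierstrassCurve.Affine.equation_iff_nonsingular_of_Δ_ne_zero hΔ').1 hE2
  rw [WeierstrassCurve.Affine.nonsingular_iff'] at hN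
  rcases hN.2 with h7 | h7
  · right
    have h8 : IsLocalRing.residue v.valuationSubring
        (W'.a₁ * Y' - (3 * X' ^ 2 + 2 * W'.a₂ * X' + W'.a₄)) ≠ 0 := by
      intro h0
      apply h7
      rw [← h0]
      simp [map_ofNat]
    rw [IsLocalRing.residue_ne_zero_iff_isUnit, hI.isUnit_iff_valuation_eq_one] at h8
    have h9 : algebraMap v.valuationSubring E
        (W'.a₁ * Y' - (3 * X' ^ 2 + 2 * W'.a₂ * X' + W'.a₄)) =
        -(3 * X ^ 2 + 2 * W.a₂ * X + W.a₄ - W.a₁ * Y) := by
      show W.a₁ * Y - (3 * X ^ 2 + 2 * W.a₂ * X + W.a₄) = _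
      ring
    rw [h9, Valuation.map_neg] at h8
    exact h8
  · left
    have h8 : IsLocalRing.residue v.valuationSubring (2 * Y' + W'.a₁ * X' + W'.a₃) ≠ 0 := by
      intro h0
      apply h7
      rw [← h0]
      simp [map_ofNat]
    rw [IsLocalRing.residue_ne_zero_iff_isUnit, hI.isUnit_iff_valuation_eq_one] at h8
    exact h8

variable {v}

theorem le_mul {a b : E} {c : Γ} (ha : v a ≤ 1) (hb : v b ≤ c) : v (a * b) ≤ c := by
  rw [map_mul]
  calc v a * v b ≤ 1 * c := mul_le_mul' ha hb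
    _ = c := one_mul c

end GvX

open GvX in
/-- The abstract Gauss lemma. -/
theorem tg_GV : Sg_GV := by
  intro E Γ _ _ v D hD W hDa ha hΔ X Y g hE hT hDX
  obtain ⟨d1, d2, d3, d4, d6⟩ := hDa
  have ha' := ha
  obtain ⟨h1, h2, h3, h4, h6⟩ := ha
  obtain ⟨T, hTdef⟩ : ∃ T, T = 2 * Y + W.a₁ * X + W.a₃ := ⟨_, rfl⟩
  obtain ⟨S, hSdef⟩ : ∃ S, S = 3 * X ^ 2 + 2 * W.a₂ * X + W.a₄ - W.a₁ * Y := ⟨_, rfl⟩
  rw [← hTdef] at hT hDX
  have hEq := (WeierstrassCurve.Affine.equation_iff _ _).1 hE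
  -- the derivative of `Y`
  have hDY : D Y = S * g := by
    have e1 := congrArg D hEq
    simp only [map_add, Derivation.leibniz, Derivation.leibniz_pow, smul_eq_mul, nsmul_eq_mul,
      d1, d2, d3, d4, d6] at e1
    have e2 : T * D Y = S * D X := by
      rw [hTdef, hSdef]
      push_cast at e1
      linear_combination e1
    rw [hDX] at e2
    have e3 : T * D Y = T * (S * g) := by rw [e2]; ring
    exact mul_left_cancel₀ hT e3
  have n1 : ∀ n : ℕ, v (n : E) ≤ 1 := by
    intro n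
    induction n with
    | zero => simp
    | succ n ih =>
      push_cast
      exact v.map_add_le ih (le_of_eq v.map_one)
  have v2 : v (2 : E) ≤ 1 := by exact_mod_cast n1 2
  have v3 : v (3 : E) ≤ 1 := by exact_mod_cast n1 3
  have v23 : v (2 : E) = 1 ∨ v (3 : E) = 1 := by
    by_contra hcon
    push Not at hcon
    have i2 := lt_of_le_of_ne v2 hcon.1
    have i3 := lt_of_le_of_ne v3 hcon.2
    have i4 : v ((3 : E) - 2) < 1 := v.map_sub_lt i3 i2
    have i5 : ((3 : E) - 2) = 1 := by norm_num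
    rw [i5, v.map_one] at i4
    exact lt_irrefl _ i4
  rcases le_or_gt (v X) 1 with hX | hX
  · -- integral point
    have hY : v Y ≤ 1 := by
      by_contra hY
      push Not at hY
      have i1 : v (W.a₁ * X * Y) < v (Y ^ 2) := by
        have : v (W.a₁ * X * Y) ≤ v Y := by
          rw [mul_assoc]
          exact le_mul h1 (le_mul hX le_rfl)
        refine lt_of_le_of_lt this ?_
        rw [map_pow]
        calc v Y = v Y ^ 1 := (pow_one _).symm
          _ < v Y ^ 2 := pow_lt_pow_right₀ hY (by norm_num)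
      have i2 : v (W.a₃ * Y) < v (Y ^ 2) := by
        refine lt_of_le_of_lt (le_mul h3 le_rfl) ?_
        rw [map_pow]
        calc v Y = v Y ^ 1 := (pow_one _).symm
          _ < v Y ^ 2 := pow_lt_pow_right₀ hY (by norm_num)
      have i3 : v (Y ^ 2 + W.a₁ * X * Y + W.a₃ * Y) = v (Y ^ 2) := by
        rw [add_assoc]
        exact v.map_add_eq_of_lt_left (v.map_add_lt i1 i2)
      have i4 : v (X ^ 3 + W.a₂ * X ^ 2 + W.a₄ * X + W.a₆) ≤ 1 := by
        have j1 : ∀ n : ℕ, v (X ^ n) ≤ 1 := fun n => by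
          rw [map_pow]; exact pow_le_one' hX n
        exact v.map_add_le (v.map_add_le (v.map_add_le (j1 3) (le_mul h2 (j1 2)))
          (le_mul h4 hX)) h6
      rw [← hEq, i3, map_pow] at i4
      exact absurd (one_lt_pow₀ hY (by norm_num : (2 : ℕ) ≠ 0)) (not_lt.2 i4)
    rcases unit_TS v W ha' hΔ X Y hX hY hE with h | h
    · have i1 := hD X
      rw [hDX, map_mul, hTdef, h, one_mul] at i1
      exact i1.trans hX
    · have i1 := hD Y
      rw [hDY, map_mul, hSdef, h, one_mul] at i1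
      exact i1.trans hY
  · -- not integral
    have hX0 : 0 < v X := lt_trans zero_lt_one hX
    have p12 : v X < v X ^ 2 := by
      calc v X = v X ^ 1 := (pow_one _).symm
        _ < v X ^ 2 := pow_lt_pow_right₀ hX (by norm_num)
    have p23 : v X ^ 2 < v X ^ 3 := pow_lt_pow_right₀ hX (by norm_num)
    have i1 : v (X ^ 3 + W.a₂ * X ^ 2 + W.a₄ * X + W.a₆) = v X ^ 3 := by
      have j1 : v (W.a₂ * X ^ 2 + W.a₄ * X + W.a₆) ≤ v X ^ 2 :=
        v.map_add_le (v.map_add_le (le_mul h2 (le_of_eq (map_pow _ _ _)))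
          ((le_mul h4 le_rfl).trans p12.le)) ((h6.trans hX.le).trans p12.le)
      have j2 : X ^ 3 + W.a₂ * X ^ 2 + W.a₄ * X + W.a₆ =
          X ^ 3 + (W.a₂ * X ^ 2 + W.a₄ * X + W.a₆) := by ring
      rw [j2, v.map_add_eq_of_lt_left (by rw [map_pow]; exact j1.trans_lt p23), map_pow]
    have hXY : v X < v Y := by
      by_contra hcon
      push Not at hcon
      have j1 : v (Y ^ 2 + W.a₁ * X * Y + W.a₃ * Y) ≤ v X ^ 2 := by
        refine v.map_add_le (v.map_add_le ?_ ?_) ?_
        · rw [map_pow]; exact pow_le_pow_left' hcon 2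
        · rw [mul_assoc]
          refine le_mul h1 ?_
          rw [map_mul, pow_two]
          exact mul_le_mul' le_rfl hcon
        · exact (le_mul h3 le_rfl).trans (hcon.trans p12.le)
      rw [hEq, i1] at j1
      exact absurd p23 (not_lt.2 j1)
    have hY : 1 < v Y := hX.trans hXY
    have hY0 : 0 < v Y := lt_trans zero_lt_one hY
    have q12 : v Y < v Y ^ 2 := by
      calc v Y = v Y ^ 1 := (pow_one _).symm
        _ < v Y ^ 2 := pow_lt_pow_right₀ hY (by norm_num)
    have i2 : v (Y ^ 2 + W.a₁ * X * Y + W.a₃ * Y) = v Y ^ 2 := by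
      have j1 : v (W.a₁ * X * Y) < v (Y ^ 2) := by
        rw [mul_assoc]
        refine lt_of_le_of_lt (le_mul h1 le_rfl) ?_
        rw [map_mul, map_pow, pow_two]
        exact mul_lt_mul_of_pos_right hXY hY0
      have j2 : v (W.a₃ * Y) < v (Y ^ 2) := by
        refine lt_of_le_of_lt (le_mul h3 le_rfl) ?_
        rw [map_pow]
        exact q12
      rw [add_assoc, v.map_add_eq_of_lt_left (v.map_add_lt j1 j2), map_pow]
    have i3 : v Y ^ 2 = v X ^ 3 := by rw [← i2, hEq, i1]
    rcases v23 with h | h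
    · have i4 : v T = v Y := by
        have j1 : v (2 * Y) = v Y := by rw [map_mul, h, one_mul]
        have j2 : v (W.a₁ * X + W.a₃) < v (2 * Y) := by
          rw [j1]
          exact lt_of_le_of_lt (v.map_add_le (le_mul h1 le_rfl) (h3.trans hX.le)) hXY
        rw [hTdef, add_assoc, v.map_add_eq_of_lt_left j2, j1]
      have i5 := hD X
      rw [hDX, map_mul, i4] at i5
      by_contra hcon
      push Not at hcon
      have i6 : v Y < v Y * v g := by
        calc v Y = v Y * 1 := (mul_one _).symm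
          _ < v Y * v g := mul_lt_mul_of_pos_left hcon hY0
      exact absurd (i6.trans_le i5) (not_lt.2 hXY.le)
    · have hYX : v Y < v X ^ 2 := by
        by_contra hcon
        push Not at hcon
        have j1 : (v X ^ 2) ^ 2 ≤ v Y ^ 2 := pow_le_pow_left' hcon 2
        rw [i3, ← pow_mul] at j1
        exact absurd (pow_lt_pow_right₀ hX (by norm_num : 3 < 2 * 2)) (not_lt.2 j1)
      have i4 : v S = v X ^ 2 := by
        have j1 : v (3 * X ^ 2) = v X ^ 2 := by rw [map_mul, h, one_mul, map_pow]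
        have j2 : v (2 * W.a₂ * X + W.a₄ - W.a₁ * Y) < v (3 * X ^ 2) := by
          rw [j1]
          refine v.map_sub_lt (v.map_add_lt ?_ ?_) ?_
          · rw [mul_assoc]
            exact lt_of_le_of_lt (le_mul v2 (le_mul h2 le_rfl)) p12
          · exact lt_of_le_of_lt (h4.trans hX.le) p12
          · exact lt_of_le_of_lt (le_mul h1 le_rfl) hYX
        have j3 : S = 3 * X ^ 2 + (2 * W.a₂ * X + W.a₄ - W.a₁ * Y) := by rw [hSdef]; ring
        rw [j3, v.map_add_eq_of_lt_left j2, j1]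
      have i5 := hD Y
      rw [hDY, map_mul, i4] at i5
      by_contra hcon
      push Not at hcon
      have hX20 : 0 < v X ^ 2 := pow_pos hX0 2
      have i6 : v X ^ 2 < v X ^ 2 * v g := by
        calc v X ^ 2 = v X ^ 2 * 1 := (mul_one _).symm
          _ < v X ^ 2 * v g := mul_lt_mul_of_pos_left hcon hX20
      exact absurd (i6.trans_le i5) (not_lt.2 hYX.le)

end

end Pool.Agent.MUXN
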