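import Pool.Agent.MUX.StHX

/-!
# MUX, block H, module H1: the part `s` of the symbol is not zero modulo `V` on closed cycles
-/

set_option autoImplicit false

namespace Pool.Agent.MUXH

open _root_.MU3 Pool.Agent.MuSym OnePoint

noncomputable section

namespace H1

/-- conjugation of a matrix by the translation by `a / D` -/
theorem conj_mob (D a α γ' : ℤ) (hD : D ≠ 0) (β β' δ δ' : ℤ) :
    mob D a 0 D (mob α β (D ^ 2 * γ') δ ∞) = mob (α + a * D * γ') β' (D ^ 2 * γ') δ' ∞ := by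
  have hD' : (D : ℚ) ≠ 0 := by exact_mod_cast hD
  by_cases hg : γ' = 0
  · subst hg
    simp [mob]
  · have hg' : (γ' : ℚ) ≠ 0 := by exact_mod_cast hg
    have h1 : D ^ 2 * γ' ≠ 0 := mul_ne_zero (pow_ne_zero _ hD) hg
    have e1 : mob α β (D ^ 2 * γ') δ ∞ = (((α : ℚ) / ((D ^ 2 * γ' : ℤ) : ℚ) : ℚ) : OnePoint ℚ) := by
      show (if D ^ 2 * γ' = 0 then ∞ else (((α : ℚ) / ((D ^ 2 * γ' : ℤ) : ℚ) : ℚ) : OnePoint ℚ)) = _
      rw [if_neg h1]
    have e2 : mob (α + a * D * γ') β' (D ^ 2 * γ') δ' ∞ =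
        ((((α + a * D * γ' : ℤ) : ℚ) / ((D ^ 2 * γ' : ℤ) : ℚ) : ℚ) : OnePoint ℚ) := by
      show (if D ^ 2 * γ' = 0 then ∞ else
        ((((α + a * D * γ' : ℤ) : ℚ) / ((D ^ 2 * γ' : ℤ) : ℚ) : ℚ) : OnePoint ℚ)) = _
      rw [if_neg h1]
    have e3 : ∀ r : ℚ, mob D a 0 D (r : OnePoint ℚ) =
        ((((D : ℚ) * r + a) / (((0 : ℤ) : ℚ) * r + D) : ℚ) : OnePoint ℚ) := by
      intro r
      show (if ((0 : ℤ) : ℚ) * r + (D : ℚ) = 0 then ∞ else
        ((((D : ℚ) * r + a) / (((0 : ℤ) : ℚ) * r + D) : ℚ) : OnePoint ℚ)) = _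
      rw [if_neg (by simpa using hD')]
    rw [e1, e2, e3]
    congr 1
    push_cast
    field_simp
    ring

theorem mob_inf (D a : ℤ) : mob D a 0 D ∞ = ∞ := by
  simp [mob]

end H1

open H1 in
theorem tx_H1 : Sx_H1 := by
  intro p V N₀ s₀ h a nu P s hyp
  by_contra hcon
  push Not at hcon
  obtain ⟨q, c, hq, hc, hprj⟩ := hyp.prj
  obtain ⟨M, hM⟩ : ∃ M : ℕ, M = p ^ (s₀ + 1) * N₀ := ⟨_, rfl⟩
  rw [← hM] at hcon
  have hM0 : M ≠ 0 := by
    rw [hM]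
    exact mul_ne_zero (pow_ne_zero _ hyp.pp.ne_zero) hyp.N0
  obtain ⟨D, hD⟩ : ∃ D : ℤ, D = (q : ℤ) := ⟨_, rfl⟩
  have hD0 : D ≠ 0 := by rw [hD]; exact_mod_cast hq
  obtain ⟨α, β, γ, δ, h1, h2, h3, h4⟩ := hyp.G (M * q ^ 2) (mul_ne_zero hM0 (pow_ne_zero _ hq))
    (by rw [← hM]; exact Dvd.intro _ rfl)
  have hcast : ((M * q ^ 2 : ℕ) : ℤ) = M * D ^ 2 := by
    push_cast
    rw [hD]
  rw [hcast] at h2 h3
  obtain ⟨u, hu⟩ := h2
  obtain ⟨t, ht⟩ := h3
  have hterm : ∀ k ∈ Finset.range q, V.valuation (c k *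
      sgnPart (s : ℂ) (P 0) (mob q k 0 q ∞) (mob q k 0 q (mob α β γ δ ∞))) < 1 := by
    intro k _
    have e1 : γ = D ^ 2 * (M * u) := by rw [hu]; ring
    have e2 : mob D k 0 D (mob α β γ δ ∞) =
        mob (α + k * D * (M * u)) (β + k * D * M * (t - (β * u - α * t)) - k ^ 2 * (M * u))
          (D ^ 2 * (M * u)) (δ - k * D * (M * u)) ∞ := by
      rw [e1]
      exact conj_mob D k α (M * u) hD0 _ _ _ _
    have hδ2 : δ = 1 + M * D ^ 2 * t := by linarith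
    have hα2 : α = 1 + M * D ^ 2 * (β * u - α * t) := by
      have h5 : α = 1 + β * γ - α * (δ - 1) := by linarith
      rw [ht, hu] at h5
      linarith
    rw [← hD, e2, mob_inf, map_mul]
    have h5 := hcon (α + k * D * (M * u))
      (β + k * D * M * (t - (β * u - α * t)) - k ^ 2 * (M * u))
      (D ^ 2 * (M * u)) (δ - k * D * (M * u)) ?_ ?_ ?_
    · exact mul_lt_one_of_nonneg_of_lt_one_right (hc k) zero_le h5
    · have e3 : δ - α = M * D ^ 2 * (t - (β * u - α * t)) := by linarith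
      have e4 : α * δ - β * (D ^ 2 * (M * u)) = 1 := by rw [← e1]; exact h1
      linear_combination e4 + (k * D * (M * u)) * e3
    · exact Dvd.intro_left (D ^ 2 * u) (by ring)
    · refine ⟨D ^ 2 * t - k * D * u, ?_⟩
      rw [hδ2]
      ring
  have hsum : V.valuation (P 0 ∞ (mob α β γ δ ∞)) < 1 := by
    rw [← hprj ∞ (mob α β γ δ ∞)]
    exact V.valuation.map_sum_lt one_ne_zero hterm
  exact absurd h4 (not_le.2 hsum)

end

end Pool.Agent.MUXH
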