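import Pool.Agent.MUX.StHX

/-!
# MUX, block HX: elementary facts on symbols of weight two (module HK, helper7)

Adapted from `Pool/Agent/MU3/H_HK.lean` (helper5).
-/

set_option autoImplicit false

namespace Pool.Agent.MUXH

open _root_.MU3 Pool.Agent.MuSym OnePoint

noncomputable section

namespace Hk

theorem mob_inf (a b d : ℤ) : mob a b 0 d ∞ = ∞ := by
  show (if (0 : ℤ) = 0 then (∞ : OnePoint ℚ) else ((a / (0 : ℤ) : ℚ) : OnePoint ℚ)) = ∞
  rw [if_pos rfl]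

theorem mob_tr (k : ℤ) (r : ℚ) :
    mob 1 k 0 1 ((r : ℚ) : OnePoint ℚ) = ((r + k : ℚ) : OnePoint ℚ) := by
  show (if ((0 : ℤ) : ℚ) * r + (1 : ℤ) = 0 then ∞ else
    (((((1 : ℤ) : ℚ) * r + (k : ℤ)) / (((0 : ℤ) : ℚ) * r + (1 : ℤ)) : ℚ) : OnePoint ℚ)) = _
  rw [if_neg (by norm_num)]
  congr 1
  push_cast
  ring

theorem mob_neg (r : ℚ) : mob (-1) 0 0 1 ((r : ℚ) : OnePoint ℚ) = ((-r : ℚ) : OnePoint ℚ) := by
  show (if ((0 : ℤ) : ℚ) * r + (1 : ℤ) = 0 then ∞ else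
    ((((((-1 : ℤ) : ℚ) * r + (0 : ℤ)) / (((0 : ℤ) : ℚ) * r + (1 : ℤ)) : ℚ)) : OnePoint ℚ)) = _
  rw [if_neg (by norm_num)]
  congr 1
  push_cast
  ring

theorem mob_p (p : ℕ) (hp : 1 ≤ p) (j : ℤ) (r : ℚ) :
    mob 1 j 0 (p : ℤ) ((r : ℚ) : OnePoint ℚ) = (((r + j) / p : ℚ) : OnePoint ℚ) := by
  show (if ((0 : ℤ) : ℚ) * r + ((p : ℤ) : ℚ) = 0 then ∞ else
    (((((1 : ℤ) : ℚ) * r + (j : ℤ)) / (((0 : ℤ) : ℚ) * r + ((p : ℤ) : ℚ)) : ℚ) :
      OnePoint ℚ)) = _
  have h0 : (p : ℚ) ≠ 0 := by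
    have : p ≠ 0 := by omega
    exact_mod_cast this
  rw [if_neg (by push_cast; simpa using h0)]
  congr 1
  push_cast
  ring

/-- `-(h x) = h' (-x)`. -/
theorem mob_conj (a b c d : ℤ) (x : OnePoint ℚ) :
    mob (-1) 0 0 1 (mob a b c d x) = mob a (-b) (-c) d (mob (-1) 0 0 1 x) := by
  induction x using OnePoint.rec with
  | infty =>
    rw [mob_inf]
    by_cases hc : c = 0
    · subst hc
      rw [mob_inf, neg_zero, mob_inf, mob_inf]
    · have h1 : mob a b c d ∞ = ((a / c : ℚ) : OnePoint ℚ) := by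
        show (if c = 0 then (∞ : OnePoint ℚ) else ((a / c : ℚ) : OnePoint ℚ)) = _
        rw [if_neg hc]
      have h2 : mob a (-b) (-c) d ∞ = ((a / ((-c : ℤ) : ℚ) : ℚ) : OnePoint ℚ) := by
        show (if -c = 0 then (∞ : OnePoint ℚ) else ((a / ((-c : ℤ) : ℚ) : ℚ) : OnePoint ℚ)) = _
        rw [if_neg (by simpa using hc)]
      rw [h1, h2, mob_neg]
      congr 1
      push_cast
      ring
  | coe r =>
    rw [mob_neg]
    by_cases h : (c : ℚ) * r + d = 0
    · have h1 : mob a b c d ((r : ℚ) : OnePoint ℚ) = ∞ := by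
        show (if (c : ℚ) * r + d = 0 then (∞ : OnePoint ℚ) else
          (((a * r + b) / (c * r + d) : ℚ) : OnePoint ℚ)) = _
        rw [if_pos h]
      have h2 : mob a (-b) (-c) d ((-r : ℚ) : OnePoint ℚ) = ∞ := by
        show (if ((-c : ℤ) : ℚ) * (-r) + d = 0 then (∞ : OnePoint ℚ) else
          (((a * (-r) + ((-b : ℤ) : ℚ)) / (((-c : ℤ) : ℚ) * (-r) + d) : ℚ) : OnePoint ℚ)) = _
        rw [if_pos (by push_cast; linarith)]
      rw [h1, h2, mob_inf]
    · have h1 : mob a b c d ((r : ℚ) : OnePoint ℚ) =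
          (((a * r + b) / (c * r + d) : ℚ) : OnePoint ℚ) := by
        show (if (c : ℚ) * r + d = 0 then (∞ : OnePoint ℚ) else
          (((a * r + b) / (c * r + d) : ℚ) : OnePoint ℚ)) = _
        rw [if_neg h]
      have h2 : mob a (-b) (-c) d ((-r : ℚ) : OnePoint ℚ) =
          (((a * (-r) + ((-b : ℤ) : ℚ)) / (((-c : ℤ) : ℚ) * (-r) + d) : ℚ) : OnePoint ℚ) := by
        show (if ((-c : ℤ) : ℚ) * (-r) + d = 0 then (∞ : OnePoint ℚ) else
          (((a * (-r) + ((-b : ℤ) : ℚ)) / (((-c : ℤ) : ℚ) * (-r) + d) : ℚ) : OnePoint ℚ)) = _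
        rw [if_neg (by
          intro h0
          apply h
          push_cast at h0
          linarith)]
      rw [h1, h2, mob_neg]
      congr 1
      push_cast
      rw [show -(c : ℚ) * -r + d = c * r + d by ring,
        show (a : ℚ) * -r + -(b : ℚ) = -(a * r + b) by ring, neg_div]

end Hk

open Hk in
theorem tx_HK : Sx_HK := by
  intro p hp N' nu P Q hP hnu s
  have h1 : ∀ (r : ℚ) (k : ℤ), P ∞ ((r + k : ℚ) : OnePoint ℚ) = P ∞ (r : OnePoint ℚ) := by
    intro r k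
    have h := hP.equiv 1 k 0 1 (by ring) (dvd_zero _) ∞ (r : OnePoint ℚ)
    rw [mob_inf, mob_tr, hnu, one_mul] at h
    exact h
  have hs : ∀ (P : OnePoint ℚ → OnePoint ℚ → ℂ) (r : ℚ), sgnPart s P ∞ (r : OnePoint ℚ) =
      P ∞ (r : OnePoint ℚ) + s * P ∞ ((-r : ℚ) : OnePoint ℚ) := by
    intro P r
    unfold sgnPart
    rw [mob_inf, mob_neg]
  refine ⟨?_, ⟨?_, ?_⟩, ?_⟩
  · intro r k
    rw [hs, hs, h1, show (-(r + k) : ℚ) = -r + ((-k : ℤ) : ℚ) by push_cast; ring, h1]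
  · intro x y z
    unfold sgnPart
    have e1 := hP.add x y z
    have e2 := hP.add (mob (-1) 0 0 1 x) (mob (-1) 0 0 1 y) (mob (-1) 0 0 1 z)
    linear_combination e1 + s * e2
  · intro a b c d hdet hc x y
    unfold sgnPart
    rw [mob_conj, mob_conj, hP.equiv a b c d hdet hc,
      hP.equiv a (-b) (-c) d (by linarith) ((dvd_neg).2 hc)]
    ring
  · intro hnp hh r
    have hk : ∀ r : ℚ, ∑ j ∈ Finset.range p, P ∞ (((r + j) / p : ℚ) : OnePoint ℚ) =
        Q ∞ (r : OnePoint ℚ) := by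
      intro r
      rw [← hh]
      unfold hecke
      rw [hnp, zero_mul, add_zero]
      apply Finset.sum_congr rfl
      intro j _
      rw [mob_inf, mob_p p hp (j : ℤ) r]
      norm_cast
    have hsum : ∑ j ∈ Finset.range p, P ∞ ((-((r + j) / p) : ℚ) : OnePoint ℚ) =
        Q ∞ ((-r : ℚ) : OnePoint ℚ) := by
      rw [← hk (-r)]
      obtain ⟨m, rfl⟩ : ∃ m, p = m + 1 := ⟨p - 1, by omega⟩
      rw [Finset.sum_range_succ', Finset.sum_range_succ']
      have hm : ((m + 1 : ℕ) : ℚ) ≠ 0 := by exact_mod_cast Nat.succ_ne_zero m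
      congr 1
      · rw [← Finset.sum_range_reflect]
        apply Finset.sum_congr rfl
        intro j hj
        have hj' := Finset.mem_range.1 hj
        have e1 : (-((r + ((m - 1 - j + 1 : ℕ) : ℚ)) / ((m + 1 : ℕ) : ℚ)) : ℚ) =
            (-r + ((j + 1 : ℕ) : ℚ)) / ((m + 1 : ℕ) : ℚ) + ((-1 : ℤ) : ℚ) := by
          have e2 : m - 1 - j + 1 = m - j := by omega
          rw [e2, Nat.cast_sub hj'.le]
          field_simp
          push_cast
          ring
        rw [e1, h1]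
      · congr 2
        push_cast
        ring
    calc ∑ j ∈ Finset.range p, sgnPart s P ∞ (((r + j) / p : ℚ) : OnePoint ℚ)
        = ∑ j ∈ Finset.range p, (P ∞ (((r + j) / p : ℚ) : OnePoint ℚ) +
            s * P ∞ ((-((r + j) / p) : ℚ) : OnePoint ℚ)) :=
          Finset.sum_congr rfl fun j _ => hs P _
      _ = Q ∞ (r : OnePoint ℚ) + s * Q ∞ ((-r : ℚ) : OnePoint ℚ) := by
          rw [Finset.sum_add_distrib, hk, ← Finset.mul_sum, hsum]
      _ = sgnPart s Q ∞ (r : OnePoint ℚ) := by rw [hs Q]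

end

end Pool.Agent.MUXH
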