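import Pool.Agent.MUX.StHX

/-!
# MUX, block HX: an algebraic number times a power of `p` is in `V`
-/

set_option autoImplicit false

namespace Pool.Agent.MUXH

open _root_.MU3 Pool.Agent.MuSym OnePoint

noncomputable section

namespace Alb

theorem int_mem (V : ValuationSubring ℂ) (n : ℤ) : (n : ℂ) ∈ V := intCast_mem V n

theorem int_le (V : ValuationSubring ℂ) (n : ℤ) : V.valuation (n : ℂ) ≤ 1 :=
  (V.valuation_le_one_iff _).2 (int_mem V n)

theorem unit_of_not_dvd (p : ℕ) (hp : p.Prime) (V : ValuationSubring ℂ)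
    (h3 : V.valuation (p : ℂ) < 1) {m : ℤ} (hm : ¬ (p : ℤ) ∣ m) : V.valuation (m : ℂ) = 1 := by
  have hco : IsCoprime (p : ℤ) m :=
    ((Nat.prime_iff_prime_int.1 hp).irreducible.coprime_iff_not_dvd).2 hm
  obtain ⟨a, b, hab⟩ := hco
  have h1 : (a : ℂ) * p + (b : ℂ) * m = 1 := by exact_mod_cast hab
  refine le_antisymm (int_le V m) ?_
  by_contra hlt
  have hlt' : V.valuation (m : ℂ) < 1 := not_le.1 hlt
  have h2 : V.valuation ((a : ℂ) * p) < 1 := by
    rw [map_mul]
    calc V.valuation (a : ℂ) * V.valuation (p : ℂ) ≤ 1 * V.valuation (p : ℂ) := by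
          gcongr
          exact int_le V a
      _ < 1 := by rwa [one_mul]
  have h4 : V.valuation ((b : ℂ) * m) < 1 := by
    rw [map_mul]
    calc V.valuation (b : ℂ) * V.valuation (m : ℂ) ≤ 1 * V.valuation (m : ℂ) := by
          gcongr
          exact int_le V b
      _ < 1 := by rwa [one_mul]
  have h5 := V.valuation.map_add_lt h2 h4
  rw [h1, map_one] at h5
  exact lt_irrefl _ h5

theorem integral_mem (V : ValuationSubring ℂ) {x : ℂ} (hx : IsIntegral ℤ x) : x ∈ V := by
  have h1 : IsIntegral V x := hx.tower_top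
  obtain ⟨y, hy⟩ := (IsIntegrallyClosed.isIntegral_iff (R := V) (K := ℂ)).1 h1
  rw [← hy]
  exact y.2

end Alb

/-- An algebraic number times a power of `p` is in `V`. -/
theorem tx_ALB : Sx_ALB := by
  intro p hp V h3 l hl
  have hl' : IsAlgebraic ℤ l := (IsFractionRing.isAlgebraic_iff ℤ ℚ ℂ).2 hl
  obtain ⟨n, hn0, hn⟩ := hl'.exists_integral_multiple
  have h1 : V.valuation ((n : ℂ) * l) ≤ 1 := by
    rw [V.valuation_le_one_iff]
    have := Alb.integral_mem V hn
    rwa [zsmul_eq_mul] at this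
  obtain ⟨k, m, hm, hk⟩ := Nat.exists_eq_pow_mul_and_not_dvd (Int.natAbs_ne_zero.2 hn0) p
    hp.ne_one
  have h2 : V.valuation ((n.natAbs : ℂ) * l) ≤ 1 := by
    rcases Int.natAbs_eq n with h | h
    · have h4 : ((n : ℤ) : ℂ) = (n.natAbs : ℂ) := by
        conv_lhs => rw [h]
        simp
      rwa [h4] at h1
    · have h4 : ((n : ℤ) : ℂ) = -(n.natAbs : ℂ) := by
        conv_lhs => rw [h]
        simp
      rw [h4, neg_mul, Valuation.map_neg] at h1
      exact h1
  refine ⟨k, ?_⟩
  have h5 : V.valuation (m : ℂ) = 1 := by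
    have h6 := Alb.unit_of_not_dvd p hp V h3 (m := (m : ℤ)) (by
      intro h
      exact hm (by exact_mod_cast h))
    simpa using h6
  rw [hk] at h2
  have h7 : ((p ^ k * m : ℕ) : ℂ) * l = (m : ℂ) * (p ^ k * l) := by
    push_cast
    ring
  rw [h7, map_mul, h5, one_mul] at h2
  exact h2

end

end Pool.Agent.MUXH
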