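import Pool.Agent.MUX.StHX

/-!
# MUX, block H, module MAX: a subset of a finitely generated group has an element of maximal valuation
and generates a group generated by finitely many of its elements
-/

set_option autoImplicit false

namespace Pool.Agent.MUXH

open _root_.MU3 Pool.Agent.MuSym OnePoint

noncomputable section

namespace Max

theorem val_int (V : ValuationSubring ℂ) (n : ℤ) : V.valuation (n : ℂ) ≤ 1 :=
  (V.valuation_le_one_iff _).2 (intCast_mem V n)

theorem val_span (V : ValuationSubring ℂ) (s : Set ℂ) (g : V.ValueGroup)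
    (h : ∀ x ∈ s, V.valuation x ≤ g) (x : ℂ) (hx : x ∈ Submodule.span ℤ s) : V.valuation x ≤ g := by
  induction hx using Submodule.span_induction with
  | mem x hx => exact h x hx
  | zero => rw [map_zero]; exact zero_le
  | add x y _ _ hx hy => exact (V.valuation.map_add x y).trans (max_le hx hy)
  | smul n x _ hx =>
    rw [zsmul_eq_mul, map_mul]
    calc V.valuation (n : ℂ) * V.valuation x ≤ 1 * V.valuation x := by
          gcongr
          exact val_int V n
      _ = V.valuation x := one_mul _
      _ ≤ g := hx

end Max

open Pool.Agent.MUXH.Max in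
/-- A subset of a finitely generated group has an element of maximal valuation. -/
theorem tx_MAX : Sx_MAX := by
  classical
  intro V T S hS hne
  have hcl : ∀ s : Set ℂ, (Submodule.span ℤ s).toAddSubgroup = AddSubgroup.closure s :=
    fun s => Submodule.span_int_eq_addSubgroupClosure _
  -- the span of `S` is finitely generated
  have hle : Submodule.span ℤ S ≤ Submodule.span ℤ (T : Set ℂ) := by
    rw [Submodule.span_le]
    intro x hx
    have h1 := hS hx
    rw [← hcl] at h1
    exact h1
  have hN : IsNoetherian ℤ (Submodule.span ℤ (T : Set ℂ)) :=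
    isNoetherian_span_of_finite ℤ T.finite_toSet
  have hfg : (Submodule.span ℤ S).FG := by
    have h1 := (isNoetherian_submodule.1 hN) (Submodule.span ℤ S) hle
    exact h1
  obtain ⟨S₀, hS₀, hsp⟩ := Submodule.fg_span_iff_fg_span_finset_subset _ |>.1 hfg
  have h0 : ∀ x ∈ S, x ∈ Submodule.span ℤ (S₀ : Set ℂ) := by
    intro x hx
    rw [← hsp]
    exact Submodule.subset_span hx
  refine ⟨?_, S₀, hS₀, ?_⟩
  · obtain ⟨s₁, hs₁⟩ := hne
    obtain ⟨l, hl, hmax⟩ := (insert s₁ S₀).exists_max_image (fun x => V.valuation x)
      ⟨s₁, Finset.mem_insert_self s₁ S₀⟩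
    refine ⟨l, ?_, ?_⟩
    · rcases Finset.mem_insert.1 hl with h | h
      · rw [h]; exact hs₁
      · exact hS₀ h
    · intro x hx
      exact val_span V _ _ (fun y hy => hmax y (Finset.mem_insert_of_mem hy)) x (h0 x hx)
  · intro x hx
    have h1 := h0 x hx
    change x ∈ AddSubgroup.closure (S₀ : Set ℂ)
    rw [← hcl]
    exact h1

end

end Pool.Agent.MUXH
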