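import Pool.Agent.MUX.StHX2

/-!
# MUX, block HY: the hypotheses of the abstract part (module BRG, glue)
-/

set_option autoImplicit false

namespace Pool.Agent.MUXHY

open _root_.MU3 Pool.Agent.MU3A Pool.Agent.MU3B Pool.Agent.MU3F Pool.Agent.MUX Pool.Agent.MUXH
  Pool.Agent.MuSym OnePoint
open scoped ComplexConjugate

noncomputable section

namespace Brg

variable {A B : ℤ}

lemma PP_zero {n : ℕ} {ι : Type} [Fintype ι] (R : Reps A B n ι) (P : Ideal (OO A B))
    (e : OO A B → ℂ) (kk : ι → ℂ) (x y : OnePoint ℚ) :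
    PP R P e kk 0 x y =
      PhiK R e (fun c => kk c / e ((nI (R.b c) : ℕ) : OO A B)) x y / R.om R.i0 := by
  unfold PP PhiK
  simp only [pow_zero, mul_one]

lemma e_nI {n : ℕ} {ι : Type} (R : Reps A B n ι) {g : Ideal (OO A B)} {e : OO A B → ℂ}
    (he : IsEI g e) (hn : ((n : ℕ) : OO A B) ∈ g) (c : ι) :
    e ((nI (R.b c) : ℕ) : OO A B) ≠ 0 := by
  rw [he.supp]
  have h1 : IsCoprime ((nI (R.b c) : ℕ) : ℤ) (n : ℤ) := Nat.isCoprime_iff_coprime.mpr (R.cop c)
  obtain ⟨u, w, huw⟩ := h1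
  rw [Ideal.isCoprime_iff_exists]
  refine ⟨(u : OO A B) * ((nI (R.b c) : ℕ) : OO A B), ?_, (w : OO A B) * ((n : ℕ) : OO A B), ?_, ?_⟩
  · exact Ideal.mul_mem_left _ _ (Ideal.mem_span_singleton_self _)
  · exact Ideal.mul_mem_left _ _ hn
  · have := congrArg (fun z : ℤ => (z : OO A B)) huw
    push_cast at this
    exact this

lemma N0X_cast (f : ℕ) (h : 0 < absD A B) :
    ((N0X A B f : ℕ) : ℤ) = absD A B * (f : ℤ) ^ 2 := by
  unfold N0X
  push_cast
  rw [Int.toNat_of_nonneg h.le]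

end Brg

open Brg in
theorem ty_BRG (h1 : Sy_VAL) (h2 : Sy_IDE) (h3 : Sy_ROU) (h4 : Sy_CHR) (h5 : Sy_EIG)
    (h6 : Sy_SYM) (h7 : Sy_ALF) (h8 : Sy_PRX) (h9 : Sy_GX) : Sy_BRG := by
  intro p A B P V f hS ι hι R e he kk hka hkv s hs h al hh hal
  obtain ⟨pp, vp, -, -, -, -, vr, -, -, D0, pD⟩ := h1 p A B P V f hS
  obtain ⟨-, -, -, -, gne, pfg, -, -, -, -⟩ := h2 p A B P V f hS
  obtain ⟨r, r0, hr⟩ := h3 A B hS.case.toCQ _ e gne he
  obtain ⟨nu1, nup, num, nuper, nuv⟩ := h4 p A B P V f hS e he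
  obtain ⟨va, alga⟩ := h5 p A B P V f hS e he h al hh hal
  obtain ⟨sym, hec, per⟩ := h6 p A B P V f hS ι hι R e he kk
  obtain ⟨alg, fin⟩ := h7 p A B P V f hS ι hι R e he kk hka
  have hN0c := N0X_cast (A := A) (B := B) f D0
  have hN0 : N0X A B f ≠ 0 := by
    intro h0
    rw [h0] at hN0c
    have : (0 : ℤ) < absD A B * (f : ℤ) ^ 2 :=
      mul_pos D0 (pow_pos (by exact_mod_cast Nat.pos_of_ne_zero hS.f0) 2)
    rw [← hN0c] at this
    exact absurd this (by norm_num)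
  have hcop : p.Coprime (N0X A B f) := by
    rw [Nat.Prime.coprime_iff_not_dvd pp]
    intro hd
    have h1 : (p : ℤ) ∣ absD A B * (f : ℤ) ^ 2 := by
      rw [← hN0c]
      exact_mod_cast hd
    rcases (Nat.prime_iff_prime_int.mp pp).dvd_or_dvd h1 with h2 | h2
    · exact pD h2
    · exact hS.fp (by exact_mod_cast (Nat.prime_iff_prime_int.mp pp).dvd_of_dvd_pow h2)
  have hke : ∀ c, V.valuation (e ((nI (R.b c) : ℕ) : OO A B)) = 1 := fun c =>
    vr r _ r0 (hr _ (e_nI R he pfg c))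
  have hea : ∀ c, IsAlgebraic ℚ (e ((nI (R.b c) : ℕ) : OO A B)) := by
    intro c
    have h0 : IsIntegral ℚ ((e ((nI (R.b c) : ℕ) : OO A B)) ^ r) := by
      rw [hr _ (e_nI R he pfg c)]
      exact isIntegral_one
    exact (IsIntegral.of_pow (Nat.pos_of_ne_zero r0) h0).isAlgebraic
  refine { pp := pp, vp := vp, N0 := hN0, cop := hcop, h1 := hh, va := va, alga := alga,
           nu1 := nu1, nup := nup, num := num, nuper := nuper, nuv := nuv, sym := sym,
           hec := hec, per := per h al hh hal, alg := alg, fin := fin, s1 := hs, G := ?_,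
           prj := h8 p A B P V f hS ι hι R e he kk (s : ℂ) }
  intro N' hN' hdvd
  have hd : absD A B * ((p : ℤ) * f) ^ 2 ∣ (N' : ℤ) := by
    have h0 : ((p ^ (1 + 1) * N0X A B f : ℕ) : ℤ) ∣ (N' : ℤ) := Int.natCast_dvd_natCast.mpr hdvd
    push_cast at h0
    rw [hN0c] at h0
    refine dvd_trans (dvd_of_eq ?_) h0
    ring
  obtain ⟨a, b, c, d, hdet, hc, hd1, hv⟩ := h9 p A B P V f hS ι hι R e he
    (fun c => kk c / e ((nI (R.b c) : ℕ) : OO A B)) (fun c => (hka c).mul (hea c).inv)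
    (fun c => by simp only [map_div₀, hkv, hke, div_one, le_refl])
    (by simp only [map_div₀, hkv, hke, div_one]) N' hN' hd
  refine ⟨a, b, c, d, hdet, hc, hd1, ?_⟩
  rw [PP_zero]
  exact hv

end

end Pool.Agent.MUXHY
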