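import Pool.Agent.MUX.StHX2

/-!
# MUX, block HY: the final statement (module HFX, glue)
-/

set_option autoImplicit false

namespace Pool.Agent.MUXHY

open _root_.MU3 Pool.Agent.MU3A Pool.Agent.MU3B Pool.Agent.MU3F Pool.Agent.MUX Pool.Agent.MUXH
  Pool.Agent.MuSym OnePoint
open scoped ComplexConjugate

noncomputable section

namespace Hfx

lemma prim (p m : ℕ) (hp : p.Prime) (k : ℤ) (hk : ¬ (p : ℤ) ∣ k) :
    IsPrimitiveRoot (ex ((k : ℚ) / (p : ℚ) ^ m)) (p ^ m) := by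
  have hc : IsCoprime k ((p ^ m : ℕ) : ℤ) := by
    push_cast
    apply IsCoprime.pow_right
    exact (((Nat.prime_iff_prime_int.mp hp).coprime_iff_not_dvd).2 hk).symm
  have h1 := Complex.isPrimitiveRoot_exp_of_isCoprime k (p ^ m) (pow_ne_zero _ hp.ne_zero) hc
  unfold ex
  push_cast at h1 ⊢
  exact h1

/-- the exponent of `p` in `q0 p` -/
def lq (p : ℕ) : ℕ := if p = 2 then 2 else 1

lemma q0_pow (p n : ℕ) : q0 p * p ^ n = p ^ (n + lq p) := by
  unfold q0 lq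
  split_ifs with h
  · subst h
    rw [pow_add]
    ring
  · rw [pow_add]
    ring

lemma dvd_q0 (p : ℕ) : (p : ℤ) ∣ (q0 p : ℤ) := by
  unfold q0
  split_ifs with h
  · subst h
    norm_num
  · exact dvd_refl _

lemma four_dvd_q0 (p : ℕ) (h : p = 2) : (4 : ℤ) ∣ (q0 p : ℤ) := by
  unfold q0
  rw [if_pos h]
  norm_num

end Hfx

open Hfx in
theorem ty_HFX (hHA : MUXH.Sx_HA) (h1 : Sy_VAL) (h2 : Sy_IDE) (h3 : Sy_BRG) (h4 : Sy_QSX)
    (h5 : Sy_CLN) : Sy_HFX := by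
  intro p A B P V f hS ι hι R e he kk hka hkv s hs
  obtain ⟨pp, vp, -, -, -, vn, -, vf, -, -, -⟩ := h1 p A B P V f hS
  obtain ⟨Pne, -, -, -, gne, pfg, -, -, -, -⟩ := h2 p A B P V f hS
  obtain ⟨h, al, hh, hal⟩ := h5 A B hS.case.toCQ (p * f) ι hι R P Pne
  have hyp := h3 p A B P V f hS ι hι R e he kk hka hkv s hs h al hh hal
  obtain ⟨r₁, hr₁⟩ := hHA p V _ _ h _ _ _ s hyp
  have hu : (p : ℤ) ∣ (1 + (q0 p : ℤ)) - 1 := by
    rw [add_sub_cancel_left]
    exact dvd_q0 p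
  have haz : ((aX p f : ℕ) : ℤ) = 1 + 2 * (q0 p : ℤ) * f := by
    unfold aX
    push_cast
    ring
  have haa : ((aX p f : ℕ) : ℤ) - 1 = (q0 p : ℤ) * (2 * f) := by
    rw [haz]
    ring
  have hfz : (0 : ℤ) < f := by exact_mod_cast Nat.pos_of_ne_zero hS.f0
  have hq0 : (0 : ℤ) < (q0 p : ℤ) := by
    have : 0 < q0 p := by
      unfold q0
      split_ifs
      · norm_num
      · exact pp.pos
    exact_mod_cast this
  have hQa : Q0 p ((aX p f : ℕ) : ℤ) := by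
    refine ⟨?_, fun h => ?_⟩
    · rw [haa]
      exact Dvd.dvd.mul_right (dvd_q0 p) _
    · rw [haa]
      exact Dvd.dvd.mul_right (four_dvd_q0 p h) _
  have hQg : Q0 p (1 + (q0 p : ℤ)) := by
    refine ⟨hu, fun h => ?_⟩
    rw [add_sub_cancel_left]
    exact four_dvd_q0 p h
  have ha1 : ((aX p f : ℕ) : ℤ) ≠ 1 := by
    intro h
    have h0 : ((aX p f : ℕ) : ℤ) - 1 = 0 := by rw [h]; norm_num
    rw [haa] at h0
    have : 0 < (q0 p : ℤ) * (2 * f) := by positivity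
    exact absurd h0 this.ne'
  have hg1 : (1 + (q0 p : ℤ)) ≠ 1 := by
    intro h
    linarith
  refine ⟨h, r₁ + h * lq p - lq p, hh, fun N hN => ?_⟩
  obtain ⟨n₁, hn₁⟩ := hr₁ _ _ hQa ha1 hQg hg1 N hN (p - 1)
  refine ⟨n₁, fun n hn hmod hH => ?_⟩
  have hle : lq p ≤ h * lq p := Nat.le_mul_of_pos_left _ hh
  have hmod' : (n + lq p) % h = r₁ % h := by
    have h0 : (n + lq p) % h = (r₁ + h * lq p - lq p + lq p) % h := by
      rw [Nat.add_mod, hmod, ← Nat.add_mod]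
    rw [h0, Nat.sub_add_cancel (by omega), Nat.add_mul_mod_self_left]
  -- the root of unity
  have hpa : ¬ (p : ℤ) ∣ ((aX p f : ℕ) : ℤ) := by
    intro h
    have h0 := dvd_sub h hQa.1
    rw [sub_sub_cancel] at h0
    exact pp.one_lt.ne' (by exact_mod_cast Int.eq_one_of_dvd_one (by positivity) h0)
  have hpg : ¬ (p : ℤ) ∣ (1 + (q0 p : ℤ)) := by
    intro h
    have h0 := dvd_sub h hQg.1
    rw [sub_sub_cancel] at h0
    exact pp.one_lt.ne' (by exact_mod_cast Int.eq_one_of_dvd_one (by positivity) h0)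
  have hnd : ¬ (p : ℤ) ∣ -((1 + (q0 p : ℤ)) ^ N * ((aX p f : ℕ) : ℤ) ^ 2) := by
    intro h
    rw [dvd_neg] at h
    have hpi := Nat.prime_iff_prime_int.mp pp
    rcases hpi.dvd_or_dvd h with h | h
    · exact hpg (hpi.dvd_of_dvd_pow h)
    · exact hpa (hpi.dvd_of_dvd_pow h)
  have hprim := prim p (n + lq p) pp _ hnd
  have hmain := hn₁ (n + lq p) (by omega) hmod' _ hprim
  have hQ := h4 p pp A B hS.case.toCQ P f hS.f0 ι hι R _ e he pfg kk s N n
  have hex : ex (-((1 + (q0 p : ℚ)) ^ N * (aX p f : ℚ) ^ 2) / ((q0 p * p ^ n : ℕ) : ℚ)) =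
      ex (((-((1 + (q0 p : ℤ)) ^ N * ((aX p f : ℕ) : ℤ) ^ 2) : ℤ) : ℚ) / (p : ℚ) ^ (n + lq p)) := by
    rw [q0_pow]
    push_cast
    rfl
  rw [hex] at hQ
  simp only [q0_pow, Nat.cast_pow] at hQ
  simp only [q0_pow] at hH
  rw [hQ] at hH
  set Z : ℂ := ∑ b ∈ Finset.range (p ^ (n + lq p)),
    ex (((-((1 + (q0 p : ℤ)) ^ N * ((aX p f : ℕ) : ℤ) ^ 2) : ℤ) : ℚ) / (p : ℚ) ^ (n + lq p)) ^ b *
      comb ((aX p f : ℕ) : ℤ) (1 + (q0 p : ℤ)) N (fun b => sgnPart (s : ℂ) (PP R P e kk 0) ∞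
        ((b / (p : ℚ) ^ (n + lq p) : ℚ) : OnePoint ℚ)) b with hZ
  have hvZ : V.valuation ((if p = 2 then 1 / 2 else 1) * (2 * (f : ℂ) * Z)) = V.valuation Z := by
    split_ifs with h
    · rw [show (1 / 2 : ℂ) * (2 * (f : ℂ) * Z) = f * Z by ring, map_mul, vf, one_mul]
    · have h2 : V.valuation ((2 : ℤ) : ℂ) = 1 := by
        apply vn
        intro hd
        have h3 : p ∣ 2 := by exact_mod_cast hd
        rcases (Nat.dvd_prime Nat.prime_two).mp h3 with h4 | h4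
        · exact pp.one_lt.ne' h4
        · exact h h4
      rw [Int.cast_ofNat] at h2
      rw [one_mul, map_mul, map_mul, h2, vf, one_mul, one_mul]
  unfold HfX at hH
  have hp0 : 0 < V.valuation (p : ℂ) := by
    rw [zero_lt_iff, Ne, Valuation.zero_iff]
    exact_mod_cast pp.ne_zero
  rw [← ValuationSubring.valuation_le_one_iff, map_div₀, map_pow, hvZ, div_le_one₀ hp0] at hH
  exact absurd hmain (not_lt.mpr hH)

end

end Pool.Agent.MUXHY
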