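import Pool.Agent.MUX.StHX2

/-!
# MUX, block H, bridge: module SYM, the symbols `PP i`
-/

set_option autoImplicit false

namespace Pool.Agent.MUXHY

open _root_.MU3 Pool.Agent.MU3A Pool.Agent.MU3B Pool.Agent.MU3F Pool.Agent.MUX Pool.Agent.MUXH
  Pool.Agent.MuSym OnePoint
open scoped ComplexConjugate

namespace Sym

theorem isSym_lin {ι : Type} [Fintype ι] {N : ℕ} {nu : ℤ → ℂ}
    {Φ : ι → OnePoint ℚ → OnePoint ℚ → ℂ} (h : ∀ c, IsSym N nu (Φ c)) (k : ι → ℂ) (om : ℂ) :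
    IsSym N nu (fun x y => (∑ c, k c * Φ c x y) / om) := by
  constructor
  · intro x y z
    rw [← add_div, ← Finset.sum_add_distrib]
    congr 1
    refine Finset.sum_congr rfl fun c _ => ?_
    rw [← (h c).add x y z]
    ring
  · intro a b c d hd hc x y
    rw [← mul_div_assoc, Finset.mul_sum]
    congr 1
    refine Finset.sum_congr rfl fun i _ => ?_
    rw [(h i).equiv a b c d hd hc x y]
    ring

theorem hecke_lin {ι : Type} [Fintype ι] (l : ℕ) (nu : ℤ → ℂ)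
    (Φ : ι → OnePoint ℚ → OnePoint ℚ → ℂ) (k : ι → ℂ) (om : ℂ) (x y : OnePoint ℚ) :
    hecke l nu (fun x y => (∑ c, k c * Φ c x y) / om) x y =
      (∑ c, k c * hecke l nu (Φ c) x y) / om := by
  unfold hecke
  rw [← Finset.sum_div, ← mul_div_assoc, ← add_div, Finset.sum_comm, Finset.mul_sum,
    ← Finset.sum_add_distrib]
  congr 1
  refine Finset.sum_congr rfl fun c _ => ?_
  rw [← Finset.mul_sum]
  ring

end Sym

/-- `PP i` is a symbol, `U_p PP i = PP (i + 1)`, `PP h = a PP 0` -/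
theorem ty_SYM (h1 : Sy_IDE) (h2 : MUXT.Xs_FTI) (h3 : MUXF.Sx_HU) (h4 : MUXF.Sx_PRI)
    (h5 : MUXF.Sx_NIM) : Sy_SYM := by
  intro p A B P V f hS ι _ R e he kk
  obtain ⟨hP0, hPm, -, -, hg0, hpf, hgP, -, -, hal⟩ := h1 p A B P V f hS
  have hcq : CQ A B := hS.case.toCQ
  obtain ⟨hmul, -, -, -⟩ := h5 A B (toCQ hcq)
  have hp : p.Prime := by
    rcases hS.case.split with ⟨rfl, _⟩ | ⟨rfl, _⟩ <;> norm_num
  have hP : ∀ i : ℕ, P ^ i ≠ ⊥ := by
    intro i
    induction i with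
    | zero =>
      rw [pow_zero, Ideal.one_eq_top]
      intro h0
      apply hP0
      rw [eq_bot_iff, ← h0]
      exact le_top
    | succ i ih => exact (hmul _ _ ih hP0).2
  have hb : ∀ (c : ι) (i : ℕ), R.b c * P ^ i ≠ ⊥ := fun c i =>
    (hmul _ _ (R.nl c).b_ne (hP i)).2
  have hD : 0 < absD A B := by
    have := hcq.neg
    unfold absD
    omega
  have hDc : ((absD A B).toNat : ℤ) = -(B ^ 2 + 4 * A) := by
    rw [Int.toNat_of_nonneg hD.le]
    rfl
  refine ⟨fun i => ?_, fun i x y => ?_, ?_⟩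
  · refine Sym.isSym_lin (fun c => ?_) (fun c => kk c / e ((nI (R.b c) : ℕ) : OO A B)) (R.om R.i0)
    have h6 := h2 A B hcq.hB hcq.neg (R.b c * P ^ i) (hb c i) e (p * f)
      (Nat.mul_pos hp.pos (Nat.pos_of_ne_zero hS.f0)) he.mul
      (fun x y hxy => he.per x y (Ideal.mem_of_dvd _ hxy hpf)) he.neg
    have hN : p ^ (1 + 1) * N0X A B f ≠ 0 := by
      unfold N0X
      have h7 : (absD A B).toNat ≠ 0 := by omega
      exact mul_ne_zero (pow_ne_zero _ hp.ne_zero) (mul_ne_zero h7 (pow_ne_zero _ hS.f0))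
    have hdiv : -(B ^ 2 + 4 * A) * ((p * f : ℕ) : ℤ) ^ 2 ∣ ((p ^ (1 + 1) * N0X A B f : ℕ) : ℤ) := by
      unfold N0X
      refine ⟨1, ?_⟩
      push_cast
      rw [hDc]
      ring
    exact (h6.2 _ hN hdiv).1
  · have h6 := Sym.hecke_lin p (nuX e) (fun c => PhiI (R.b c * P ^ i) e)
      (fun c => kk c / e ((nI (R.b c) : ℕ) : OO A B)) (R.om R.i0) x y
    have h7 : hecke p (nuX e) (PP R P e kk i) x y = (∑ c, kk c / e ((nI (R.b c) : ℕ) : OO A B) *
        hecke p (nuX e) (PhiI (R.b c * P ^ i) e) x y) / R.om R.i0 := h6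
    rw [h7]
    unfold PP
    congr 1
    refine Finset.sum_congr rfl fun c _ => ?_
    have h8 := (h3 A B (toCQ hcq) (R.b c * P ^ i) (idl f * cjI P) P e p (hb c i) hg0 (toEI he)
      hS.hP.prime hS.hP.norm hp hgP).2 x y
    have h9 : R.b c * P ^ (i + 1) = R.b c * P ^ i * P := by rw [pow_succ, mul_assoc]
    rw [h9]
    congr 1
  · intro h al hh hPh x y
    obtain ⟨hal0, -, -⟩ := hal h al hh hPh
    unfold PP
    rw [← mul_div_assoc, Finset.mul_sum]
    congr 1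
    refine Finset.sum_congr rfl fun c _ => ?_
    have h8 := (h4 A B (toCQ hcq) (R.b c) (idl f * cjI P) e al (R.nl c).b_ne (toEI he) hal0).2 x y
    have h9 : PhiI (sp al * R.b c) e x y = e al * conj (emb al) * PhiI (R.b c) e x y := h8
    rw [hPh, mul_comm (R.b c) (sp al), h9, pow_zero, mul_one]
    ring

end Pool.Agent.MUXHY
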