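import Pool.Agent.MUX.StHX
import Pool.Agent.NS.Y_Key0

/-!
# MUX-NS, block HN (helper87): PAPER_NS.md, sections 5, 6 and TYPE, inert case, abstract

`p = 3`. Nothing here depends on the field `k`. Every statement is a `def Sn_X : Prop`; a module proves
`theorem tn_X (h : ..) ... : Sn_X` in `Pool/Agent/MUX/HN_X.lean`, namespace `Pool.Agent.MUXHN`; the hypotheses are
the statements named under USES. `v = V.valuation`: `v x ≤ 1 ↔ x ∈ V` (`ValuationSubring.valuation_le_one_iff`).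
`comb`, `Q0` : StHX.lean. `comb a g N F b = Σ_j (-1)^(N-j) binom(N,j) (a F(g^(N-j) b) - a² F(g^(N-j) a² b))`.
-/

set_option autoImplicit false

namespace Pool.Agent.MUXHN

open _root_.MU3 Pool.Agent.MuSym Pool.Agent.MUXH OnePoint

noncomputable section

/-- `P_t(x, y) = P(x, y) - P(x + t, y + t)`, `t = 1/27` -/
def PT (P : OnePoint ℚ → OnePoint ℚ → ℂ) (x y : OnePoint ℚ) : ℂ :=
  P x y - P (mob 27 1 0 27 x) (mob 27 1 0 27 y)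

/-- the standing hypotheses: `P = Σ_i kk_i PhiI (b_i) / Om`; `s` the sign; `KI` the inertia field of the field of the
values (`v` is unramified on it), all values are in `pi * KI`, `v(pi) = v(3)^(-i/8)`, `4 ≤ i ≤ 7` (TYPE) -/
structure HypN (V : ValuationSubring ℂ) (N₀ s₀ i : ℕ) (nu : ℤ → ℂ)
    (P : OnePoint ℚ → OnePoint ℚ → ℂ) (s : ℤ) (pi : ℂ) (KI : Subfield ℂ) : Prop where
  vp : V.valuation (3 : ℂ) < 1
  N0 : N₀ ≠ 0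
  cop : Nat.Coprime 3 N₀
  nu1 : nu 1 = 1
  num : ∀ d d', nu (d * d') = nu d * nu d'
  nuper : ∀ d d', ((3 * N₀ : ℕ) : ℤ) ∣ d - d' → nu d = nu d'
  nuv : ∀ d, V.valuation (nu d) ≤ 1
  sym : IsSym (3 ^ (s₀ + 1) * N₀) nu P
  dep : ∀ x : ℚ, ∑ j ∈ Finset.range 3, P ∞ (((x + j) / 3 : ℚ) : OnePoint ℚ) = 0
  alg : ∀ x y, IsAlgebraic ℚ (P x y)
  fin : ∃ T : Finset ℂ, ∀ x y, P x y ∈ AddSubgroup.closure (T : Set ℂ)
  s1 : s = 1 ∨ s = -1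
  typ : ∀ x y, ∃ w ∈ KI, P x y = pi * w
  unr : ∀ w ∈ KI, V.valuation w < 1 → V.valuation w ≤ V.valuation (3 : ℂ)
  i4 : 4 ≤ i
  i7 : i ≤ 7
  vpi : V.valuation pi ^ 8 * V.valuation (3 : ℂ) ^ i = 1
  /-- Theorem G for `P_t`: `v(P_t) ≥ v(1 - ζ_27)` on closed cycles of any level -/
  G : ∀ N' : ℕ, N' ≠ 0 → 3 ^ (s₀ + 1) * N₀ ∣ N' → ∃ α β γ δ : ℤ, α * δ - β * γ = 1 ∧
    (N' : ℤ) ∣ γ ∧ (N' : ℤ) ∣ δ - 1 ∧
    V.valuation (3 : ℂ) ≤ V.valuation (PT P ∞ (mob α β γ δ ∞)) ^ 18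
  /-- the projector -/
  prj : ∃ (q : ℕ) (c : ℕ → ℂ), q ≠ 0 ∧ (∀ t, V.valuation (c t) ≤ 1) ∧ ∀ x y : OnePoint ℚ,
    ∑ t ∈ Finset.range q, c t * sgnPart (s : ℂ) P (mob q t 0 q x) (mob q t 0 q y) = P x y

/-- (BDN) bounded denominators. USES `MUXH.Sx_MAX`, `MUXH.Sx_ALB` (proved: `tx_MAX`, `tx_ALB` in `HX_MAX`, `HX_ALB`).
MODEL: `MUX/HX_BD.lean` (only the part for `P 0`). -/
def Sn_BDN : Prop :=
  ∀ (V : ValuationSubring ℂ) (_ : V.valuation (3 : ℂ) < 1) (P : OnePoint ℚ → OnePoint ℚ → ℂ)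
    (_ : ∀ x y, IsAlgebraic ℚ (P x y))
    (_ : ∃ T : Finset ℂ, ∀ x y, P x y ∈ AddSubgroup.closure (T : Set ℂ)),
    ∃ k : ℕ, ∀ x y, V.valuation (3 ^ k * P x y) ≤ 1

/-- (HKN) the part `s` of the symbol.

USES `MUXH.Sx_HK` (proved: `tx_HK` in `HX_HK`) or its proof. PROOF. `Q = sgnPart s P`. `IsSym` and the period: HK. Depletion:
`-(x + j)/3 = (-x + (3 - j))/3 - 1`, so the sum over `j` of `P ∞ (-(x+j)/3)` is the sum of the `P ∞ ((-x+j)/3)` (or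
HK (iii) with the zero symbol if you know `hecke 3 nu P = 0`). -/
def Sn_HKN : Prop :=
  ∀ (N' : ℕ) (nu : ℤ → ℂ) (P : OnePoint ℚ → OnePoint ℚ → ℂ) (s : ℂ), IsSym N' nu P → nu 1 = 1 →
    (∀ x : ℚ, ∑ j ∈ Finset.range 3, P ∞ (((x + j) / 3 : ℚ) : OnePoint ℚ) = 0) →
    IsSym N' nu (sgnPart s P) ∧
    (∀ (r : ℚ) (k : ℤ), sgnPart s P ∞ ((r + k : ℚ) : OnePoint ℚ) =
      sgnPart s P ∞ (r : OnePoint ℚ)) ∧
    ∀ x : ℚ, ∑ j ∈ Finset.range 3, sgnPart s P ∞ (((x + j) / 3 : ℚ) : OnePoint ℚ) = 0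

/-- (H1N) Theorem G for the part `s`.

MODEL: `MUX/HX_H1.lean`. PROOF. `q`, `c` from `prj`, `h` from `G` for `N' q²`. With `T_t = mob q t 0 q`, `τ = mob 27 1 0 27`
(`T_t τ = τ T_t` on cusps): `PT P ∞ (h ∞) = Σ_t c_t PT (sgnPart s P) ∞ (h_t ∞)`, `T_t (h ∞) = h_t ∞`, `h_t = T_t h T_t⁻¹ =
(α + t γ/q, β + t (δ - α)/q - t² γ/q²; γ, δ - t γ/q)`, integral and in `Γ₁(N')`. If all terms had
`v(..)^18 < v 3` then so would the sum (`v` of the sum is at most the maximum). -/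
def Sn_H1N : Prop :=
  ∀ (V : ValuationSubring ℂ) (N₀ s₀ i : ℕ) (nu : ℤ → ℂ) (P : OnePoint ℚ → OnePoint ℚ → ℂ)
    (s : ℤ) (pi : ℂ) (KI : Subfield ℂ), HypN V N₀ s₀ i nu P s pi KI →
    ∀ N' : ℕ, N' ≠ 0 → 3 ^ (s₀ + 1) * N₀ ∣ N' → ∃ α β γ δ : ℤ, α * δ - β * γ = 1 ∧
      (N' : ℤ) ∣ γ ∧ (N' : ℤ) ∣ δ - 1 ∧
      V.valuation (3 : ℂ) ≤ V.valuation (PT (sgnPart (s : ℂ) P) ∞ (mob α β γ δ ∞)) ^ 18

/-- (TYP) arithmetic of types.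

PROOF. `t = v 3`, `0 < t < 1`, `x = pi w`, `v(pi)^8 t^i = 1`. If `v w < 1` then `v w ≤ t`. (a) `t ≤ v(x)^18` and `v w ≤ t`:
`t^8 ≤ v(x)^144`, times `t^(18 i)`: `t^(8 + 18 i) ≤ v(w)^144 ≤ t^144`, but `8 + 18 i ≤ 134 < 144`. So `v w ≥ 1` and
`v(x)^8 ≥ v(pi)^8 ≥ 1`. (b) `1 ≤ v x` and `v w ≤ t`: `t^i ≤ v(x)^8 t^i = v(w)^8 ≤ t^8`, but `i < 8`. So `v w ≥ 1`,
`v(x)^8 t^4 ≥ v(pi)^8 t^4 ≥ 1`, i.e. `(v(x)² t)^4 ≥ 1`. -/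
def Sn_TYP : Prop :=
  ∀ (V : ValuationSubring ℂ) (_ : V.valuation (3 : ℂ) < 1) (KI : Subfield ℂ)
    (_ : ∀ w ∈ KI, V.valuation w < 1 → V.valuation w ≤ V.valuation (3 : ℂ)) (i : ℕ) (_ : 4 ≤ i)
    (_ : i ≤ 7) (pi : ℂ) (_ : V.valuation pi ^ 8 * V.valuation (3 : ℂ) ^ i = 1), ∀ w ∈ KI,
    (V.valuation (3 : ℂ) ≤ V.valuation (pi * w) ^ 18 → 1 ≤ V.valuation (pi * w)) ∧
    (1 ≤ V.valuation (pi * w) → 1 ≤ V.valuation (pi * w) ^ 2 * V.valuation (3 : ℂ))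

/-- (LOC) if the combinations are in `m` then `z` is locally constant modulo `m` on the units, uniformly in the
level. `m` is any `V`-submodule of `ℂ`.

PROOF. Write `E_u y (b) = y (u b)` and `x ≡ y` for `x - y ∈ m`. `comb α g N z = ± A (E_g - 1)^N z`, `A y = α y - α² E_(α²) y`
(expand; `E_g` and `A` commute). (1) Let `y n = (E_g - 1)^N (z n)`: `α y (b) ≡ α² y (α² b)` for `3 ∤ b`, `n ≥ n₀`; `α` is a unit of
`V`, so `y (α^(2 i) b) ≡ α^(-i) y (b)`; for `3^k ∣ i`: `α^i - 1` is divisible by `3^(k+1)` and `3^k y ∈ m`: `y (α^(2 i) b) ≡ y (b)`.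
Let `e ≥ 1` be the exponent of `3` in `α² - 1`. For every `n` the powers of `α^(2 3^k)` are, modulo `3^n`, all classes `≡ 1`
modulo `3^(e+k)` (see `STP`: `α^(2 3^j) ≡ 1 + 3^(e+j) w` modulo `3^(e+j+1)`, `3 ∤ w`). So `y n b ≡ y n b'` for
`3^(e+k) ∣ b - b'`, `3 ∤ b`. (2) Step down: if `y' = E_g y - y` is locally constant (mod `3^r`) then so is `y`: let `u = g^(3^r)`
(`3^r ∣ u - 1`), `S (b) = Σ_(i < 3^r) y' (g^i b)`: `y (u b) - y (b) = S (b)`, `S (u b) ≡ S (b)`, so `y (u^j b) - y (b) ≡ j S (b)`, which is in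
`m` for `3^k ∣ j`; the powers of `u^(3^k)` are all classes `≡ 1` modulo `3^(r')`, `r' = e' + r + k`, `e'` the exponent of `3`
in `g - 1`. Induction on `N`. -/
def Sn_LOC : Prop :=
  ∀ (V : ValuationSubring ℂ) (_ : V.valuation (3 : ℂ) < 1) (m : Submodule V ℂ) (z : ℕ → ℤ → ℂ)
    (k n₀ : ℕ) (_ : ∀ (n : ℕ) (b c : ℤ), (3 : ℤ) ^ n ∣ b - c → z n b = z n c)
    (_ : ∀ n b, (3 : ℂ) ^ k * z n b ∈ m) (α g : ℤ) (_ : (3 : ℤ) ∣ α - 1) (_ : α ≠ 1)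
    (_ : (3 : ℤ) ∣ g - 1) (_ : g ≠ 1) (N : ℕ)
    (_ : ∀ n, n₀ ≤ n → ∀ b : ℤ, ¬ (3 : ℤ) ∣ b → comb α g N (z n) b ∈ m),
    ∃ r : ℕ, ∀ n, n₀ ≤ n → ∀ b b' : ℤ, ¬ (3 : ℤ) ∣ b → (3 : ℤ) ^ r ∣ b - b' →
      z n b - z n b' ∈ m

/-- (PAI) the value at a pair of determinant `3^n`.

PROOF. `α' δ - β c = 1` with `α' = a`: choose `δ, β` with `a δ - β c = 1`. `h = (δ, -β; -c, a)` has determinant 1 and `N' ∣ -c`, so
`Q (h x) (h y) = nu a * Q x y`. `h (a/c) = ∞`; `h (b/d) = (δ b - β d)/(a d - b c) = e/3^n`, `e = δ b - β d`,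
`a e - b = β (c b - a d) = - β 3^n`. -/
def Sn_PAI : Prop :=
  ∀ (N' : ℕ) (nu : ℤ → ℂ) (Q : OnePoint ℚ → OnePoint ℚ → ℂ), IsSym N' nu Q →
    ∀ (n : ℕ) (a b c d : ℤ), c ≠ 0 → d ≠ 0 → IsCoprime a c → (N' : ℤ) ∣ c →
      a * d - b * c = 3 ^ n → ∃ e : ℤ, (3 : ℤ) ^ n ∣ a * e - b ∧
      nu a * Q (((a : ℚ) / c : ℚ) : OnePoint ℚ) (((b : ℚ) / d : ℚ) : OnePoint ℚ) =
        Q ∞ (((e : ℚ) / 3 ^ n : ℚ) : OnePoint ℚ)

/-- (KYN) from locally constant values to vanishing closed cycles of `Q_t`.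

USES PAI, `NSY.key0` (file `Pool/Agent/NS/Y_Key0.lean`). PROOF. `M = ℂ ⧸ m` (`m` as an additive group; it is a `V`-submodule, so an integer `q` prime to
`3`, a unit of `V`, has no torsion). `R = 6 + (s₀ + 1) + r + 1`, `Φ x y` = the class of `PT Q x y`. `inv` for `Γ₁(3^R N₀)`: `τ h τ⁻¹ =
(a + c/27, b + (d - a)/27 - c/729; c, d - c/27)` is integral (`3^R ∣ c`, `d - 1`, `a - 1`) and in `Γ₀(3^(s₀+1) N₀)` with lower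
right entry `≡ 1` modulo `3 N₀`; `nu = 1` for it and for `h`. (A), `n ≥ n₁ := n₀ + r + 4`: `(a, c)`, `(b, d)` as in `key0`; `3` divides `c`, so
not `a`; `a` is prime to `N₀`; `d = (3^n + b c)/a`, so `3^(r+4) ∣ d` and `3 ∤ b`. PAI for `Q`: `nu a Q u w = Q ∞ (e/3^n)`, `a e ≡ b` modulo
`3^n`. PAI for `u + t = (a + c/27, c)`, `w + t = (b + d/27, d)` (primitive, same determinant, `nu (a + c/27) = nu a`):
`nu a Q (u+t) (w+t) = Q ∞ (e'/3^n)`, `(a + c/27) e' ≡ b + d/27`. Modulo `3^(r+1)`: `a e' ≡ b ≡ a e`, so `3^r ∣ e - e'`, `3 ∤ e`, and the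
difference `Q ∞ (e/3^n) - Q ∞ (e'/3^n)` is in `m`; divide by the unit `nu a`. (A0): `b/3^n + 1/27 = (b + 3^(n-3))/3^n`. -/
def Sn_KYN : Prop :=
  ∀ (V : ValuationSubring ℂ) (_ : V.valuation (3 : ℂ) < 1) (m : Submodule V ℂ) (N₀ s₀ : ℕ)
    (nu : ℤ → ℂ) (Q : OnePoint ℚ → OnePoint ℚ → ℂ) (_ : 2 ≤ N₀) (_ : Nat.Coprime 3 N₀)
    (_ : nu 1 = 1) (_ : ∀ d d', ((3 * N₀ : ℕ) : ℤ) ∣ d - d' → nu d = nu d')
    (_ : ∀ d, IsCoprime d ((3 * N₀ : ℕ) : ℤ) → V.valuation (nu d) = 1)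
    (_ : IsSym (3 ^ (s₀ + 1) * N₀) nu Q) (r n₀ : ℕ)
    (_ : ∀ n, n₀ ≤ n → ∀ b b' : ℤ, ¬ (3 : ℤ) ∣ b → (3 : ℤ) ^ r ∣ b - b' →
      Q ∞ (((b : ℚ) / 3 ^ n : ℚ) : OnePoint ℚ) - Q ∞ (((b' : ℚ) / 3 ^ n : ℚ) : OnePoint ℚ) ∈ m),
    ∃ R : ℕ, ∀ a b c d : ℤ, a * d - b * c = 1 → (3 : ℤ) ^ R * N₀ ∣ c →
      (3 : ℤ) ^ R * N₀ ∣ d - 1 → ∀ x, PT Q x (mob a b c d x) ∈ m

/-- (DVN) the character sums of a depleted function with values of one type.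

PROOF. Let `y b* ≠ 0` have maximal valuation among the `y b` (finitely many classes), `W b = y b/y b* ∈ K ∩ V`, `W b* = 1`,
`1 ≤ v(y b*)² t`, `t = v 3`. Let `q = 3^n`, `W' : ℤ → K` of period `3 q`: for `0 ≤ b < q`: `W' b = W b`, `W' (b + q) = W b + W (b + q)`,
`W' (b + 2 q) = 0`; then `W b = W' b - W' (b - q)` for all `b` (depletion). So `Σ ζ^b W b = (1 - ζ^q) Σ ζ^b W' b`, sums over `range (3 q)`, and
`v(1 - ζ^q)² = t` (`ζ^q` is a primitive third root of 1). `W' (b* or so)` is not all in the maximal ideal. Write (Newton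
expansion, `shift_pow` of `MU3/H_HZ.lean`) `Σ ζ^b W' b = Σ_(i < 3 q) c_i (ζ - 1)^i`, `c_i = Σ_b binom(b, i) W' b ∈ K ∩ V`. Let `i₀` be the
smallest `i` with `v c_i = 1`. CLAIM: it exists and `i₀ < 2 q`. Otherwise `P(X) = Σ_b W' b (1 + X)^b ≡ 0` modulo `X^(2q)` and the
maximal ideal; modulo the maximal ideal (characteristic 3) `(1 - (1 + X)^q) P(X) = - X^q P(X) ≡ 0` modulo `X^(3q) = (1+X)^(3q) - 1`, and
this product is `Σ_b W b (1 + X)^b` modulo `(1 + X)^(3q) - 1`: so all `W b` are in the maximal ideal, against `W b* = 1`. (Direct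
form: `W b* ` is a combination with coefficients in `ℤ` of the `c_i`, `i < 2 q`, and of multiples of `3`; or work in `κ[X]/(X^(3q))`, `κ` the
residue field, or with the group ring.) For `i < i₀`: `v c_i < 1`, so `v c_i ≤ t` (`c_i ∈ K`). `x = v(ζ - 1)`: `x^(2 q) = t` (as in
`Sx_HZ`), `x < 1`. So `v(Σ c_i (ζ-1)^i) = x^(i₀) > x^(2 q) = t`. `v(Σ ζ^b y b) = v(y b*) v(1 - ζ^q) x^(i₀)` and `(v(y b*) v(1 - ζ^q))² =
v(y b*)² t ≥ 1`. -/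
def Sn_DVN : Prop :=
  ∀ (V : ValuationSubring ℂ) (_ : V.valuation (3 : ℂ) < 1) (K : Subfield ℂ)
    (_ : ∀ w ∈ K, V.valuation w < 1 → V.valuation w ≤ V.valuation (3 : ℂ)) (n : ℕ) (y : ℤ → ℂ)
    (_ : ∀ b c : ℤ, (3 : ℤ) ^ (n + 1) ∣ b - c → y b = y c)
    (_ : ∀ b : ℤ, ∑ j ∈ Finset.range 3, y (b + j * 3 ^ n) = 0)
    (_ : ∀ b b' : ℤ, y b' ≠ 0 → y b / y b' ∈ K) (b₀ : ℤ)
    (_ : 1 ≤ V.valuation (y b₀) ^ 2 * V.valuation (3 : ℂ)) (ζ : ℂ)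
    (_ : IsPrimitiveRoot ζ (3 ^ (n + 1))),
    V.valuation (3 : ℂ) < V.valuation (∑ b ∈ Finset.range (3 ^ (n + 1)), ζ ^ b * y b)

/-- (HN) the conclusion of the block: infinitely many levels with large character sums.

USES BDN, HKN, H1N, TYP, LOC, KYN, DVN. PROOF (helper87, glue). `Q = sgnPart s P`, `z n b = Q ∞ (b/3^n)`, `m` = the maximal ideal `{x : v x < 1}`.
Suppose that for some `n₀` and all `n ≥ n₀` there is `ζ` with `v(Σ) ≤ v 3`. Let `n ≥ n₀`, `n ≥ 1`, `Y b = comb α g 1 (z n) b`: periodic,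
depleted (`Σ_j z n (u b + u j 3^(n-1)) = 0` for `u` prime to `3`), values in `pi KI`. If `1 ≤ v(Y b)` for some `b` then `1 ≤ v(Y b)² v 3`
(TYP), so DVN contradicts `v(Σ) ≤ v 3`. So all `Y b ∈ m`; LOC (`k + 1` of BDN), KYN: `PT Q ∞ (h ∞) ∈ m` for all `h ∈ Γ₁(3^R N₀)`. H1N for
`N' = 3^(R + s₀ + 1) N₀` and TYP (a): contradiction. -/
def Sn_HN : Prop :=
  ∀ (V : ValuationSubring ℂ) (N₀ s₀ i : ℕ) (nu : ℤ → ℂ) (P : OnePoint ℚ → OnePoint ℚ → ℂ)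
    (s : ℤ) (pi : ℂ) (KI : Subfield ℂ), HypN V N₀ s₀ i nu P s pi KI →
    ∀ (α g : ℤ), (3 : ℤ) ∣ α - 1 → α ≠ 1 → (3 : ℤ) ∣ g - 1 → g ≠ 1 → ∀ n₀ : ℕ,
      ∃ n, n₀ ≤ n ∧ ∀ ζ : ℂ, IsPrimitiveRoot ζ (3 ^ n) →
        V.valuation (3 : ℂ) < V.valuation (∑ b ∈ Finset.range (3 ^ n), ζ ^ b *
          comb α g 1 (fun b => sgnPart (s : ℂ) P ∞ (((b : ℚ) / 3 ^ n : ℚ) : OnePoint ℚ)) b)

end

end Pool.Agent.MUXHN
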