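import Pool.Agent.MUX.StHX

/-!
# MUX, block H, abstract part: module STP (helper12; adapted from `MU3/H_STP.lean` of helper37)
-/

set_option autoImplicit false

namespace Pool.Agent.MUXH

open _root_.MU3 Pool.Agent.MuSym OnePoint

namespace Stp

theorem not_dvd_mul {p : ℕ} {u b : ℤ} (hu : (p : ℤ) ∣ u - 1) (n : ℕ) (h : ¬ (p : ℤ) ^ n ∣ b) :
    ¬ (p : ℤ) ^ n ∣ u * b := by
  intro h1
  apply h
  have hc : IsCoprime (p : ℤ) u := by
    obtain ⟨m, hm⟩ := hu
    exact ⟨-m, 1, by linarith⟩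
  exact (hc.pow_left (m := n)).dvd_of_dvd_mul_left h1

/-- `(1 + y)^i` modulo `y²` -/
theorem pow_sq (y : ℤ) (i : ℕ) : ∃ q : ℤ, (1 + y) ^ i = 1 + i * y + y ^ 2 * q := by
  induction i with
  | zero => exact ⟨0, by simp⟩
  | succ i ih =>
    obtain ⟨q, hq⟩ := ih
    refine ⟨q * (1 + y) + i, ?_⟩
    rw [pow_succ, hq]
    push_cast
    ring

/-- the geometric sum modulo `p²` -/
theorem geo {p : ℕ} (hp : p.Prime) {n : ℕ} (hn : 1 ≤ n) (hn2 : p = 2 → 2 ≤ n) (w : ℤ) :
    ∃ z : ℤ, ∑ i ∈ Finset.range p, (1 + (p : ℤ) ^ n * w) ^ i = p + p ^ 2 * z := by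
  obtain ⟨m, rfl⟩ : ∃ m, n = m + 1 := ⟨n - 1, by omega⟩
  choose q hq using pow_sq ((p : ℤ) ^ (m + 1) * w)
  have h1 : ∑ i ∈ Finset.range p, (1 + (p : ℤ) ^ (m + 1) * w) ^ i =
      p + (p : ℤ) ^ (m + 1) * w * ∑ i ∈ Finset.range p, (i : ℤ) +
        ((p : ℤ) ^ (m + 1) * w) ^ 2 * ∑ i ∈ Finset.range p, q i := by
    simp only [hq]
    rw [Finset.sum_add_distrib, Finset.sum_add_distrib, Finset.mul_sum, Finset.mul_sum]
    simp only [Finset.sum_const, Finset.card_range, nsmul_eq_mul, mul_one]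
    congr 2
    refine Finset.sum_congr rfl fun i _ => ?_
    ring
  rcases hp.eq_two_or_odd' with h2 | ho
  · obtain ⟨l, rfl⟩ : ∃ l, m = l + 1 := ⟨m - 1, by have := hn2 h2; omega⟩
    subst h2
    refine ⟨(2 : ℤ) ^ l * w + ((2 : ℤ) ^ (l + 1) * w) ^ 2 * ∑ i ∈ Finset.range 2, q i, ?_⟩
    rw [h1]
    simp only [Finset.sum_range_succ, Finset.sum_range_zero]
    push_cast
    ring
  · obtain ⟨l, hl⟩ := ho
    have h3 : ∑ i ∈ Finset.range p, (i : ℤ) = p * l := by
      have h4 := Finset.sum_range_id_mul_two p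
      have h5 : (∑ i ∈ Finset.range p, i) * 2 = (p * l) * 2 := by
        rw [h4, show p - 1 = l * 2 by omega]
        ring
      have h6 : ∑ i ∈ Finset.range p, i = p * l := Nat.eq_of_mul_eq_mul_right (by norm_num) h5
      rw [← Nat.cast_sum, h6, Nat.cast_mul]
    refine ⟨(p : ℤ) ^ m * w * l + ((p : ℤ) ^ m * w) ^ 2 * ∑ i ∈ Finset.range p, q i, ?_⟩
    rw [h1, h3]
    ring

theorem pow_u {p : ℕ} (hp : p.Prime) {u : ℤ} {k : ℕ} {w : ℤ} (hk : 1 ≤ k) (hk2 : p = 2 → 2 ≤ k)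
    (hw : u - 1 = (p : ℤ) ^ k * w) (hw3 : ¬ (p : ℤ) ∣ w)
    (n : ℕ) (hn : k ≤ n) : ∃ w' : ℤ, u ^ (p ^ (n - k)) = 1 + (p : ℤ) ^ n * w' ∧ ¬ (p : ℤ) ∣ w' := by
  induction n, hn using Nat.le_induction with
  | base => exact ⟨w, by rw [Nat.sub_self, pow_zero, pow_one]; linarith, hw3⟩
  | succ n hn ih =>
    obtain ⟨w', h1, h2⟩ := ih
    obtain ⟨z, hz⟩ := geo hp (hk.trans hn) (fun h => (hk2 h).trans hn) w'
    have h3 := geom_sum_mul (1 + (p : ℤ) ^ n * w') p
    refine ⟨w' * (1 + p * z), ?_, ?_⟩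
    · have e : n + 1 - k = (n - k) + 1 := by omega
      rw [e, pow_succ, pow_mul, h1]
      rw [hz] at h3
      have e2 : (1 + (p : ℤ) ^ n * w') ^ p = 1 + (p + p ^ 2 * z) * (1 + (p : ℤ) ^ n * w' - 1) := by
        linarith
      rw [e2]
      ring
    · intro h4
      have hP : Prime (p : ℤ) := Nat.prime_iff_prime_int.1 hp
      rcases hP.dvd_or_dvd h4 with h5 | h5
      · exact h2 h5
      · have h6 : (p : ℤ) ∣ 1 := by
          have h7 : (p : ℤ) ∣ p * z := dvd_mul_right _ _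
          exact (dvd_add_left h7).1 h5
        exact hP.not_isUnit (isUnit_of_dvd_one h6)

/-- powers of `1 + p^n w` modulo `p^(n+1)` -/
theorem pow_one_add {p n : ℕ} (hn : 1 ≤ n) (w : ℤ) (i : ℕ) :
    (p : ℤ) ^ (n + 1) ∣ (1 + (p : ℤ) ^ n * w) ^ i - (1 + i * ((p : ℤ) ^ n * w)) := by
  obtain ⟨m, rfl⟩ : ∃ m, n = m + 1 := ⟨n - 1, by omega⟩
  obtain ⟨q, hq⟩ := pow_sq ((p : ℤ) ^ (m + 1) * w) i
  rw [hq]
  exact ⟨(p : ℤ) ^ m * w ^ 2 * q, by ring⟩

theorem solve {p : ℕ} (hp : p.Prime) {w b : ℤ} (hw : ¬ (p : ℤ) ∣ w) (hb : ¬ (p : ℤ) ∣ b)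
    (j : ℕ) : ∃ i : ℕ, (p : ℤ) ∣ i * (w * b) - j := by
  have hP : Prime (p : ℤ) := Nat.prime_iff_prime_int.1 hp
  have h1 : ¬ (p : ℤ) ∣ w * b := by
    intro h
    rcases hP.dvd_or_dvd h with h | h
    · exact hw h
    · exact hb h
  obtain ⟨x, y, hxy⟩ : IsCoprime (p : ℤ) (w * b) := (Prime.coprime_iff_not_dvd hP).2 h1
  have hp0 : (p : ℤ) ≠ 0 := hP.ne_zero
  have h2 : 0 ≤ (y * j) % (p : ℤ) := Int.emod_nonneg _ hp0
  refine ⟨((y * j) % (p : ℤ)).toNat, ?_⟩
  rw [Int.toNat_of_nonneg h2]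
  have h3 := Int.emod_add_mul_ediv (y * j) (p : ℤ)
  have h4 : (y * j) % (p : ℤ) = y * j - p * (y * j / p) := by linarith
  rw [h4]
  refine ⟨-(y * j / p) * (w * b) - x * j, ?_⟩
  have h5 : y * (w * b) = 1 - x * p := by linarith
  have h6 : (y * j - p * (y * j / p)) * (w * b) - (j : ℤ) =
      (y * (w * b)) * j - p * (y * j / p) * (w * b) - j := by ring
  rw [h6, h5]
  ring

end Stp

open Stp in
theorem tx_STP : Sx_STP := by
  intro p hp V h3 M hM hint hex u huQ hu1 c₁ c₂ hc1 hc12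
  have hu := huQ.1
  have hP : Prime (p : ℤ) := Nat.prime_iff_prime_int.1 hp
  have hc2 : V.valuation c₂ ≤ 1 := by
    have e : c₂ = c₁ - (c₁ - c₂) := by ring
    rw [e]
    exact (V.valuation.map_sub _ _).trans (max_le hc1.le hc12.le)
  have hint' : ∀ (n : ℕ) (b : ℤ), ¬ (p : ℤ) ^ n ∣ b →
      V.valuation (c₁ * M n (u * b) - c₂ * M n b) ≤ 1 := by
    intro n b hb
    refine (V.valuation.map_sub _ _).trans (max_le ?_ ?_)
    · rw [map_mul, hc1, one_mul]
      exact hint n _ (not_dvd_mul hu n hb)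
    · rw [map_mul]
      exact mul_le_one' hc2 (hint n b hb)
  refine ⟨⟨?_, ?_⟩, hint', ?_⟩
  · intro n b c hbc
    have e1 : (p : ℤ) ^ n ∣ u * b - u * c := by
      rw [← mul_sub]
      exact Dvd.dvd.mul_left hbc u
    rw [hM.per n b c hbc, hM.per n _ _ e1]
  · intro n b
    rw [Finset.sum_sub_distrib, ← Finset.mul_sum, ← Finset.mul_sum, ← hM.add n b, hM.add n (u * b)]
    congr 2
    refine Finset.sum_congr rfl fun j _ => ?_
    refine hM.per (n + 1) _ _ ?_
    obtain ⟨m, hm⟩ := hu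
    refine ⟨-(m * j), ?_⟩
    have : u = p * m + 1 := by linarith
    rw [this]
    ring
  · by_contra hcon
    push Not at hcon
    have hb1 : ∀ (n : ℕ) (b : ℤ), 1 ≤ n → ¬ (p : ℤ) ∣ b → ¬ (p : ℤ) ^ n ∣ b := by
      intro n b hn hb h
      exact hb ((dvd_pow_self (p : ℤ) (by omega)).trans h)
    have hlt : ∀ (n : ℕ) (b : ℤ), 1 ≤ n → ¬ (p : ℤ) ∣ b →
        V.valuation (M n (u * b) - M n b) < 1 := by
      intro n b hn hb
      have h1 : V.valuation (c₁ * M n (u * b) - c₂ * M n b) < 1 :=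
        lt_of_le_of_ne (hint' n b (hb1 n b hn hb)) (hcon n b hn hb)
      have h2 : V.valuation ((c₁ - c₂) * M n b) < 1 := by
        rw [map_mul]
        exact mul_lt_one_of_lt_of_le hc12 (hint n b (hb1 n b hn hb))
      have e : c₁ * (M n (u * b) - M n b) = (c₁ * M n (u * b) - c₂ * M n b) -
        (c₁ - c₂) * M n b := by ring
      have h4 : V.valuation (c₁ * (M n (u * b) - M n b)) < 1 := by
        rw [e]
        exact lt_of_le_of_lt (V.valuation.map_sub _ _) (max_lt h1 h2)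
      rwa [map_mul, hc1, one_mul] at h4
    have h3u : ∀ (i : ℕ) (b : ℤ), ¬ (p : ℤ) ∣ b → ¬ (p : ℤ) ∣ u ^ i * b := by
      intro i b hb
      induction i with
      | zero => simpa using hb
      | succ i ih =>
        have h := not_dvd_mul hu 1 (b := u ^ i * b) (by rwa [pow_one])
        rw [pow_one] at h
        have e : u ^ (i + 1) * b = u * (u ^ i * b) := by ring
        rwa [e]
    have hpow : ∀ (n : ℕ) (b : ℤ) (i : ℕ), 1 ≤ n → ¬ (p : ℤ) ∣ b →
        V.valuation (M n (u ^ i * b) - M n b) < 1 := by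
      intro n b i hn hb
      induction i with
      | zero =>
        rw [pow_zero, one_mul, sub_self, map_zero]
        exact zero_lt_one
      | succ i ih =>
        have h1 := hlt n (u ^ i * b) hn (h3u i b hb)
        have e : M n (u ^ (i + 1) * b) - M n b = (M n (u * (u ^ i * b)) - M n (u ^ i * b)) +
            (M n (u ^ i * b) - M n b) := by
          have e1 : u ^ (i + 1) * b = u * (u ^ i * b) := by ring
          rw [e1]
          ring
        rw [e]
        exact V.valuation.map_add_lt h1 ih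
    obtain ⟨w, hw, hw3⟩ := (Int.finiteMultiplicity_iff.2
      ⟨by rw [Int.natAbs_natCast]; exact hp.one_lt.ne', sub_ne_zero.2 hu1⟩ :
        FiniteMultiplicity (p : ℤ) (u - 1)).exists_eq_pow_mul_and_not_dvd
    set k := multiplicity (p : ℤ) (u - 1) with hk
    have hk1 : 1 ≤ k := by
      by_contra h
      have h0 : k = 0 := by omega
      rw [h0, pow_zero, one_mul] at hw
      exact hw3 (hw ▸ hu)
    have hk2 : p = 2 → 2 ≤ k := by
      intro h2
      by_contra h
      have h0 : k = 1 := by omega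
      have h4 := huQ.2 h2
      rw [hw, h0, pow_one, h2] at h4
      apply hw3
      rw [h2]
      push_cast at h4 ⊢
      omega
    have hbig : ∀ (n : ℕ) (b : ℤ), k ≤ n → ¬ (p : ℤ) ∣ b → V.valuation (M n b) < 1 := by
      intro n b hn hb
      have hn1 : 1 ≤ n := hk1.trans hn
      obtain ⟨w', h1, h2⟩ := pow_u hp hk1 hk2 hw hw3 n hn
      have hj : ∀ j : ℕ, V.valuation (M (n + 1) (b + j * p ^ n) - M (n + 1) b) < 1 := by
        intro j
        obtain ⟨i, hi⟩ := solve hp h2 hb j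
        have e1 : (p : ℤ) ^ (n + 1) ∣ (b + j * p ^ n) - u ^ (p ^ (n - k) * i) * b := by
          rw [pow_mul, h1]
          obtain ⟨q, hq⟩ := pow_one_add (p := p) hn1 w' i
          obtain ⟨q', hq'⟩ := hi
          have e2 : (1 + (p : ℤ) ^ n * w') ^ i =
            (p : ℤ) ^ (n + 1) * q + (1 + i * ((p : ℤ) ^ n * w')) := by linarith
          rw [e2]
          refine ⟨-q' - q * b, ?_⟩
          have e3 : (j : ℤ) = i * (w' * b) - p * q' := by linarith
          rw [e3]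
          ring
        rw [hM.per (n + 1) _ _ e1]
        exact hpow (n + 1) b _ (by omega) hb
      have e : M n b = p * M (n + 1) b + ∑ j ∈ Finset.range p,
          (M (n + 1) (b + j * p ^ n) - M (n + 1) b) := by
        rw [hM.add n b, Finset.sum_sub_distrib, Finset.sum_const, Finset.card_range, nsmul_eq_mul]
        ring
      rw [e]
      refine V.valuation.map_add_lt ?_ (V.valuation.map_sum_lt one_ne_zero fun j _ => hj j)
      rw [map_mul]
      exact mul_lt_one_of_lt_of_le h3 (hint _ _ (hb1 (n + 1) b (by omega) hb))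
    have hall : ∀ (d n : ℕ), 1 ≤ n → k ≤ n + d → ∀ b : ℤ, ¬ (p : ℤ) ∣ b →
        V.valuation (M n b) < 1 := by
      intro d
      induction d with
      | zero => exact fun n _ h b hb => hbig n b h hb
      | succ d ih =>
        intro n hn h b hb
        rw [hM.add n b]
        refine V.valuation.map_sum_lt one_ne_zero fun j _ => ?_
        refine ih (n + 1) (by omega) (by omega) _ ?_
        intro h4
        apply hb
        have h5 : (p : ℤ) ∣ j * p ^ n := Dvd.dvd.mul_left (dvd_pow_self (p : ℤ) (by omega)) _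
        exact (dvd_add_left h5).1 h4
    obtain ⟨n, b, hn, hb, hv⟩ := hex
    exact absurd hv (hall k n hn (by omega) b hb).ne

end Pool.Agent.MUXH
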