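import Pool.Agent.MUX.XTMain
import Pool.Agent.MUX.XFAll

/-!
# MUX, block XT: corollaries for characters `IsEI g e`, `g` any nonzero ideal
-/

set_option autoImplicit false

namespace Pool.Agent.MUXT

open _root_.MU3 Pool.Agent.MuSym OnePoint
open Pool.Agent.MUXF (CQ IsEI nI thetaI thetaIntI IvI IcI PhiI nuQ)

/-- a nonzero ideal contains a positive integer -/
theorem pos_mem {A B : ℤ} (h : CQ A B) (g : Ideal (OO A B)) (hg : g ≠ ⊥) :
    ∃ G : ℕ, 0 < G ∧ (G : OO A B) ∈ g := by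
  obtain ⟨x, hx, hx0⟩ := Submodule.exists_mem_ne_zero_of_ne_bot hg
  have hn : 0 < nm x := lt_of_le_of_ne (Pool.Agent.MUXF.AlgX.nm_nonneg h x)
    (fun h0 => hx0 ((Pool.Agent.MUXF.AlgX.nm_eq_zero h x).1 h0.symm))
  refine ⟨(nm x).toNat, by omega, ?_⟩
  have h1 : (((nm x).toNat : ℕ) : OO A B) = ((nm x : ℤ) : OO A B) := by
    rw [← Int.cast_natCast, Int.toNat_of_nonneg hn.le]
  rw [h1, ← Pool.Agent.MUXF.AlgX.mul_star' x]
  exact Ideal.mul_mem_right _ g hx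

/-- the symbol `PhiI b e` is a symbol with character `nuQ e` of level `D G²`, `G ∈ g` -/
theorem sym_EI {A B : ℤ} (h : CQ A B) (b : Ideal (OO A B)) (hb : b ≠ ⊥) (g : Ideal (OO A B))
    (e : OO A B → ℂ) (he : IsEI g e) (G : ℕ) (hG : 0 < G) (hGg : (G : OO A B) ∈ g)
    (N : ℕ) (hN : N ≠ 0) (hd : absD A B * G ^ 2 ∣ (N : ℤ)) : IsSym N (nuQ e) (PhiI b e) :=
  ((main_EI h b hb g e he G hG hGg).2 N hN hd).1

/-- F7 of helper87, without the hypothesis on the symbol -/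
theorem fg_EI (A B : ℤ) (h : CQ A B) (b g : Ideal (OO A B)) (e : OO A B → ℂ) (hb : b ≠ ⊥)
    (hg : g ≠ ⊥) (he : IsEI g e) :
    ∃ S : Finset ℂ, ∀ x y, PhiI b e x y ∈ AddSubgroup.closure (S : Set ℂ) := by
  obtain ⟨G, hG, hGg⟩ := pos_mem h g hg
  have hD : 0 < absD A B := by
    have := h.neg
    unfold absD
    omega
  have hN : 0 < absD A B * (G : ℤ) ^ 2 := by
    have : (0 : ℤ) < G := by exact_mod_cast hG
    positivity
  refine Pool.Agent.MUXF.xf_F7 A B h b g e hb hg he (absD A B * (G : ℤ) ^ 2).toNat (by omega) ?_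
  refine sym_EI h b hb g e he G hG hGg _ (by omega) ?_
  rw [Int.toNat_of_nonneg hN.le]

end Pool.Agent.MUXT
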