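import Pool.Agent.MUX.StWX
import Pool.Agent.MU3.BAll

/-!
# MUX, block W: elementary properties of `ActH` (ACM)
-/

set_option autoImplicit false

open WeierstrassCurve Polynomial NumberField IsDedekindDomain

namespace Pool.Agent.MUXW

open _root_.MU3 Pool.Agent.MU3A Pool.Agent.MU3B Pool.Agent.MU3C Pool.Agent.RI Pool.Agent.RID
open Pool.Agent.MUX Pool.Agent.MUXU
open Pool.Agent.MU3V (cls Sub GD algDF)
open Pool.Agent.MUXV (GR InK tX CMO Ovr)

noncomputable section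

namespace ACM

/-- the elementary facts on `emb` that are used -/
structure EmbF (A B : ℤ) : Prop where
  mul : ∀ x y : OO A B, emb (x * y) = emb x * emb y
  add : ∀ x y : OO A B, emb (x + y) = emb x + emb y
  sub : ∀ x y : OO A B, emb (x - y) = emb x - emb y
  one : emb (1 : OO A B) = 1
  zero : emb (0 : OO A B) = 0
  inj : ∀ x y : OO A B, emb x = emb y → x = y

lemma embF (h : Pool.Agent.MUXV.Sq_EMB) {A B : ℤ} (hC : CQ A B) : EmbF A B := by
  obtain ⟨h1, h2, h3, h4, -, h6, -⟩ := h A B ⟨hC.hB, hC.neg, hC.fund1, hC.fund0⟩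
  refine ⟨h1, h2, h3, ?_, ?_, h6⟩
  · have := h4 1
    simpa using this
  · have := h4 0
    simpa using this

variable {A B : ℤ}

lemma emb_mem (E : EmbF A B) {b : Ideal (OO A B)} {L : PeriodPair} {om : ℂ} (hL : IsNL b L om)
    (x : OO A B) {z : ℂ} (hz : z ∈ L.lattice) : emb x * z ∈ L.lattice := by
  obtain ⟨y, hy, rfl⟩ := (hL.mem z).1 hz
  refine (hL.mem _).2 ⟨x * y, b.mul_mem_left x hy, ?_⟩
  rw [E.mul]
  ring

lemma kap_mem {m : OO A B} {F : IntermediateField (kk A B) ℂ} (hF : RF (sp m) ≤ F)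
    {b : Ideal (OO A B)} {L : PeriodPair} {om : ℂ} (hL : IsNL b L om) : kap L ∈ F :=
  hF (IntermediateField.subset_adjoin _ _ ⟨b, L, om, hL, Or.inl rfl⟩)

lemma xn_mem (E : EmbF A B) {m : OO A B} {F : IntermediateField (kk A B) ℂ} (hF : RF (sp m) ≤ F)
    {b : Ideal (OO A B)} {L : PeriodPair} {om : ℂ} (hL : IsNL b L om) {z : ℂ}
    (h1 : emb m * z ∈ L.lattice) (h2 : z ∉ L.lattice) : xn L z ∈ F := by
  refine hF (IntermediateField.subset_adjoin _ _ ⟨b, L, om, hL, Or.inr ⟨z, ?_, h2, rfl⟩⟩)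
  intro x hx
  obtain ⟨c, rfl⟩ := Ideal.mem_span_singleton.1 hx
  rw [E.mul, mul_comm (emb m), mul_assoc]
  exact emb_mem E hL c h1

lemma xn_neg (L : PeriodPair) (z : ℂ) : xn L (-z) = xn L z := by
  rw [xn, xn, L.weierstrassP_neg]

lemma xn_add (L : PeriodPair) (z l : ℂ) (hl : l ∈ L.lattice) : xn L (z + l) = xn L z := by
  rw [xn, xn, L.weierstrassP_add_coe z ⟨l, hl⟩]

lemma pt_down (E : EmbF A B) {b : Ideal (OO A B)} {L : PeriodPair} {om : ℂ} (hL : IsNL b L om)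
    {m m' : OO A B} (hd : m' ∣ m) {z : ℂ} (hz : emb m' * z ∈ L.lattice) :
    emb m * z ∈ L.lattice := by
  obtain ⟨c, rfl⟩ := hd
  rw [E.mul, mul_comm (emb m'), mul_assoc]
  exact emb_mem E hL c hz

lemma act_mul (E : EmbF A B) {m : OO A B} (F : IntermediateField (kk A B) ℂ)
    (σ τ : F ≃ₐ[kk A B] F) (a b : OO A B) (hF : RF (sp m) ≤ F) (ha : ActH σ m a)
    (hb : ActH τ m b) : ActH (σ * τ) m (a * b) := by
  refine ⟨ha.cop.mul_left hb.cop, ?_, ?_⟩
  · intro c L om hL h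
    have e1 : τ ⟨kap L, h⟩ = ⟨kap L, h⟩ := Subtype.ext (hb.kap c L om hL h)
    have e2 : (σ * τ) ⟨kap L, h⟩ = σ (τ ⟨kap L, h⟩) := rfl
    rw [e2, e1]
    exact ha.kap c L om hL h
  · intro c L om hL z hz hzL
    obtain ⟨b1, b2⟩ := hb.pt c L om hL z hz hzL
    have hbz : emb m * (emb b * z) ∈ L.lattice := by
      rw [mul_left_comm]
      exact emb_mem E hL b hz
    obtain ⟨a1, a2⟩ := ha.pt c L om hL _ hbz b1
    have e : emb (a * b) * z = emb a * (emb b * z) := by rw [E.mul]; ring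
    rw [e]
    refine ⟨a1, fun hx => ?_⟩
    have e1 : (σ * τ) ⟨xn L z, hx⟩ = σ (τ ⟨xn L z, hx⟩) := rfl
    have e2 : τ ⟨xn L z, hx⟩ = ⟨xn L (emb b * z), xn_mem E hF hL hbz b1⟩ := Subtype.ext (b2 hx)
    rw [e1, e2, a2]

/-- `Tor` for a principal ideal -/
lemma tor_sp {m : OO A B} {L : PeriodPair} {z : ℂ} (h : Tor (sp m) L z) :
    emb m * z ∈ L.lattice := h m (Ideal.mem_span_singleton_self m)

lemma act_ext (E : EmbF A B) {m : OO A B}
    {σ τ : (RF (sp m) : IntermediateField (kk A B) ℂ) ≃ₐ[kk A B] RF (sp m)} {a : OO A B}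
    (hσ : ActH σ m a) (hτ : ActH τ m a) : σ = τ := by
  refine AlgEquiv.ext fun x => Subtype.ext ?_
  obtain ⟨x, hx⟩ := x
  refine IntermediateField.adjoin_induction (F := kk A B)
    (p := fun x hx => ((σ ⟨x, hx⟩ : (RF (sp m) : IntermediateField (kk A B) ℂ)) : ℂ) =
      ((τ ⟨x, hx⟩ : (RF (sp m) : IntermediateField (kk A B) ℂ)) : ℂ)) ?_ ?_ ?_ ?_ ?_ hx
  · rintro x ⟨b, L, om, hL, rfl | ⟨z, hz, hzL, rfl⟩⟩
    · rw [hσ.kap b L om hL, hτ.kap b L om hL]
    · have hz' := tor_sp hz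
      rw [(hσ.pt b L om hL z hz' hzL).2, (hτ.pt b L om hL z hz' hzL).2]
  · intro r
    exact congrArg Subtype.val ((σ.commutes r).trans (τ.commutes r).symm)
  · intro x y hx hy h1 h2
    have e : (⟨x + y, add_mem hx hy⟩ : (RF (sp m) : IntermediateField (kk A B) ℂ)) =
      ⟨x, hx⟩ + ⟨y, hy⟩ := rfl
    rw [e, map_add, map_add]
    exact congrArg₂ (· + ·) h1 h2
  · intro x hx h1
    have e : (⟨x⁻¹, inv_mem hx⟩ : (RF (sp m) : IntermediateField (kk A B) ℂ)) = (⟨x, hx⟩)⁻¹ := rfl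
    rw [e, map_inv₀, map_inv₀]
    exact congrArg (·⁻¹) h1
  · intro x y hx hy h1 h2
    have e : (⟨x * y, mul_mem hx hy⟩ : (RF (sp m) : IntermediateField (kk A B) ℂ)) =
      ⟨x, hx⟩ * ⟨y, hy⟩ := rfl
    rw [e, map_mul, map_mul]
    exact congrArg₂ (· * ·) h1 h2

lemma act_trH (E : EmbF A B) {m : OO A B} (F : IntermediateField (kk A B) ℂ)
    (σ : F ≃ₐ[kk A B] F) (a : OO A B) (hF : RF (sp m) ≤ F) (ha : ActH σ m a) : TrH σ := by
  have key : ∀ x : ℂ, x ∈ (RF (⊤ : Ideal (OO A B)) : IntermediateField (kk A B) ℂ) →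
      ∃ h : x ∈ F, σ ⟨x, h⟩ = ⟨x, h⟩ := by
    intro x hx
    refine IntermediateField.adjoin_induction (F := kk A B)
      (p := fun x _ => ∃ h : x ∈ F, σ ⟨x, h⟩ = ⟨x, h⟩) ?_ ?_ ?_ ?_ ?_ hx
    · rintro x ⟨b, L, om, hL, rfl | ⟨z, hz, hzL, rfl⟩⟩
      · exact ⟨kap_mem hF hL, Subtype.ext (ha.kap b L om hL _)⟩
      · exact absurd (by simpa [E.one] using hz 1 trivial) hzL
    · intro r
      exact ⟨F.algebraMap_mem r, σ.commutes r⟩
    · rintro x y hx hy ⟨hx1, h1⟩ ⟨hy1, h2⟩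
      refine ⟨add_mem hx1 hy1, ?_⟩
      have e : (⟨x + y, add_mem hx1 hy1⟩ : F) = ⟨x, hx1⟩ + ⟨y, hy1⟩ := rfl
      rw [e, map_add, h1, h2]
    · rintro x hx ⟨hx1, h1⟩
      refine ⟨inv_mem hx1, ?_⟩
      have e : (⟨x⁻¹, inv_mem hx1⟩ : F) = (⟨x, hx1⟩)⁻¹ := rfl
      rw [e, map_inv₀, h1]
    · rintro x y hx hy ⟨hx1, h1⟩ ⟨hy1, h2⟩
      refine ⟨mul_mem hx1 hy1, ?_⟩
      have e : (⟨x * y, mul_mem hx1 hy1⟩ : F) = ⟨x, hx1⟩ * ⟨y, hy1⟩ := rfl
      rw [e, map_mul, h1, h2]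
  intro x hx
  obtain ⟨h, h1⟩ := key x hx
  exact h1

lemma act_uniq (E : EmbF A B) {L : PeriodPair} {Om : ℂ} (hL : IsNL (⊤ : Ideal (OO A B)) L Om)
    {m : OO A B} (hm : m ≠ 0) (F : IntermediateField (kk A B) ℂ) (σ : F ≃ₐ[kk A B] F)
    (a a' : OO A B) (hF : RF (sp m) ≤ F) (ha : ActH σ m a) (ha' : ActH σ m a') :
    m ∣ a - a' ∨ m ∣ a + a' := by
  have hm0 : emb m ≠ 0 := fun h0 => hm (E.inj _ _ (h0.trans E.zero.symm))
  have hdiv : ∀ x : OO A B, emb x * (Om / emb m) ∈ L.lattice → m ∣ x := by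
    intro x hx
    obtain ⟨y, -, hy⟩ := (hL.mem _).1 hx
    refine ⟨y, E.inj _ _ ?_⟩
    rw [E.mul]
    have h0 := hL.om_ne
    field_simp at hy
    rw [hy]
  by_cases hz : Om / emb m ∈ L.lattice
  · left
    have h1 : m ∣ 1 := hdiv 1 (by rw [E.one, one_mul]; exact hz)
    exact h1.trans (one_dvd _)
  · have hz' : emb m * (Om / emb m) ∈ L.lattice := by
      rw [mul_div_cancel₀ _ hm0]
      exact (hL.mem _).2 ⟨1, trivial, by rw [E.one, mul_one]⟩
    obtain ⟨a1, a2⟩ := ha.pt ⊤ L Om hL _ hz' hz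
    obtain ⟨b1, b2⟩ := ha'.pt ⊤ L Om hL _ hz' hz
    have e1 := (a2 (xn_mem E hF hL hz' hz)).symm.trans (b2 (xn_mem E hF hL hz' hz))
    have e2 : L.weierstrassP (emb a * (Om / emb m)) = L.weierstrassP (emb a' * (Om / emb m)) := by
      simpa [xn] using e1
    rcases b_NEQ L _ _ b1 a1 e2 with h | h
    · left
      apply hdiv
      rw [E.sub, sub_mul]
      exact h
    · right
      apply hdiv
      rw [E.add, add_mul]
      exact h

lemma act_congr (E : EmbF A B) {m : OO A B} (F : IntermediateField (kk A B) ℂ)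
    (σ : F ≃ₐ[kk A B] F) (a a' : OO A B) (hd : m ∣ a - a' ∨ m ∣ a + a') (ha : ActH σ m a) :
    ActH σ m a' := by
  rcases hd with ⟨c, hc⟩ | ⟨c, hc⟩
  · have e : a' = a + m * (-c) := by linear_combination -hc
    refine ⟨?_, ha.kap, fun b L om hL z hz hzL => ?_⟩
    · rw [e]
      exact ha.cop.add_mul_left_left _
    · obtain ⟨a1, a2⟩ := ha.pt b L om hL z hz hzL
      have hmem : emb (-c) * (emb m * z) ∈ L.lattice := emb_mem E hL (-c) hz
      have e2 : emb a' * z = emb a * z + emb (-c) * (emb m * z) := by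
        rw [e, E.add, E.mul]
        ring
      rw [e2, xn_add L _ _ hmem]
      refine ⟨fun hc' => a1 ?_, a2⟩
      have := sub_mem hc' hmem
      simpa using this
  · have e : a' = -(a + m * (-c)) := by linear_combination hc
    have hneg : ∀ x : OO A B, emb (-x) = -emb x := by
      intro x
      have := E.sub 0 x
      rw [zero_sub, E.zero, zero_sub] at this
      exact this
    refine ⟨?_, ha.kap, fun b L om hL z hz hzL => ?_⟩
    · rw [e]
      exact (ha.cop.add_mul_left_left _).neg_left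
    · obtain ⟨a1, a2⟩ := ha.pt b L om hL z hz hzL
      have hmem : emb (-c) * (emb m * z) ∈ L.lattice := emb_mem E hL (-c) hz
      have e2 : emb a' * z = -(emb a * z + emb (-c) * (emb m * z)) := by
        rw [e, hneg, E.add, E.mul]
        ring
      rw [e2, xn_neg, xn_add L _ _ hmem]
      refine ⟨fun hc' => a1 ?_, a2⟩
      have := sub_mem (neg_mem hc') hmem
      simpa using this

end ACM

open ACM in
theorem ty_ACM (h : Pool.Agent.MUXV.Sq_EMB) : Sy_ACM := by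
  intro A B hC L Om hL m hm
  have E := embF h hC
  refine ⟨fun F σ a a' hF => act_uniq E hL hm F σ a a' hF, fun F σ a a' => act_congr E F σ a a',
    ?_, fun F σ τ a b => act_mul E F σ τ a b, fun σ τ a => act_ext E, ?_,
    fun F σ a hF => act_trH E F σ a hF, ?_⟩
  · intro F σ m' a hd ha
    refine ⟨ha.cop.of_isCoprime_of_dvd_right hd, ha.kap, fun b L om hL z hz hzL => ?_⟩
    exact ha.pt b L om hL z (pt_down E hL hd hz) hzL
  · intro F
    refine ⟨isCoprime_one_left, fun b L om hL h => rfl, fun b L om hL z hz hzL => ?_⟩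
    rw [E.one, one_mul]
    exact ⟨hzL, fun hx => rfl⟩
  · intro m' σ σ' a hd hσ ha
    refine ⟨ha.cop.of_isCoprime_of_dvd_right hd, fun b L om hL h => ?_,
      fun b L om hL z hz hzL => ?_⟩
    · have hx : kap L ∈ (RF (sp m) : IntermediateField (kk A B) ℂ) := kap_mem le_rfl hL
      rw [← hσ ⟨kap L, h⟩ hx]
      exact ha.kap b L om hL hx
    · have hz' := pt_down E hL hd hz
      obtain ⟨a1, a2⟩ := ha.pt b L om hL z hz' hzL
      refine ⟨a1, fun h => ?_⟩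
      have hx : xn L z ∈ (RF (sp m) : IntermediateField (kk A B) ℂ) := xn_mem E le_rfl hL hz' hzL
      rw [← hσ ⟨xn L z, h⟩ hx]
      exact a2 hx

end

end Pool.Agent.MUXW
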