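import Pool.Agent.MUX.StQX

/-!
# MUX, block R part 2, module EMB (helper4): elementary facts on `O = ℤ[w]`
-/

set_option autoImplicit false

namespace Pool.Agent.MUXV

open _root_.MU3 Pool.Agent.MU3A Pool.Agent.MU3B Pool.Agent.MUXU
open Pool.Agent.MUXF (CQ)

noncomputable section

namespace EmbQ

variable {A B : ℤ}

lemma absD_pos (h : CQ A B) : 0 < absD A B := by
  have := h.neg
  unfold absD
  omega

lemma wC_sq' (h : CQ A B) : wC A B * wC A B = A + B * wC A B := by
  have h1 : (0 : ℝ) ≤ (absD A B : ℝ) := by exact_mod_cast (absD_pos h).le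
  have h2 : ((Real.sqrt (absD A B) : ℝ) : ℂ) ^ 2 = (absD A B : ℂ) := by
    rw [← Complex.ofReal_pow, Real.sq_sqrt h1]
    norm_num
  have h3 : Complex.I ^ 2 = -1 := Complex.I_sq
  have h4 : (absD A B : ℂ) = -((B : ℂ) ^ 2 + 4 * A) := by simp [absD]
  unfold wC
  linear_combination (Complex.I ^ 2 / 4) * h2 + ((absD A B : ℂ) / 4) * h3 - (1 / 4) * h4

/-- `emb` as a ring homomorphism -/
def eH (h : CQ A B) : OO A B →+* ℂ :=
  (QuadraticAlgebra.lift (R := ℤ) (a := A) (b := B) (A := ℂ)
    ⟨wC A B, by simpa [zsmul_eq_mul] using wC_sq' h⟩).toRingHom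

lemma eH_apply (h : CQ A B) (x : OO A B) : eH h x = emb x := by
  simp [eH, emb, QuadraticAlgebra.lift, zsmul_eq_mul]

lemma wC_im_pos (h : CQ A B) : 0 < (wC A B).im := by
  have h1 : (0 : ℝ) < Real.sqrt (absD A B) := Real.sqrt_pos.2 (by exact_mod_cast absD_pos h)
  have h2 : (wC A B).im = Real.sqrt (absD A B) / 2 := by
    simp [wC, Complex.add_im, Complex.mul_im]
  rw [h2]; positivity

lemma emb_inj (h : CQ A B) {x y : OO A B} (hxy : emb x = emb y) : x = y := by
  have h1 := congrArg Complex.im hxy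
  have h2 := congrArg Complex.re hxy
  simp only [emb, Complex.add_im, Complex.mul_im, Complex.intCast_im, Complex.intCast_re,
    zero_mul, add_zero, zero_add, Complex.add_re, Complex.mul_re, sub_zero] at h1 h2
  have h3 : (x.im : ℝ) = y.im := mul_right_cancel₀ (wC_im_pos h).ne' h1
  rw [h3] at h2
  have h4 : (x.re : ℝ) = y.re := add_right_cancel h2
  exact QuadraticAlgebra.ext (by exact_mod_cast h4) (by exact_mod_cast h3)

lemma mul_star' (x : OO A B) : x * star x = ((nm x : ℤ) : OO A B) := by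
  ext
  · simp only [nm, QuadraticAlgebra.re_mul, QuadraticAlgebra.re_star, QuadraticAlgebra.im_star,
      QuadraticAlgebra.re_intCast, Int.cast_id]
    ring
  · simp only [QuadraticAlgebra.im_mul, QuadraticAlgebra.re_star, QuadraticAlgebra.im_star,
      QuadraticAlgebra.im_intCast]
    ring

lemma nm_eq (x : OO A B) : nm x = QuadraticAlgebra.norm x := by
  rw [QuadraticAlgebra.norm_def]
  unfold nm
  ring

lemma nm_mul' (x y : OO A B) : nm (x * y) = nm x * nm y := by
  rw [nm_eq, nm_eq, nm_eq, map_mul]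

lemma four_nm (x : OO A B) :
    4 * nm x = (2 * x.re + B * x.im) ^ 2 + absD A B * x.im ^ 2 := by
  unfold nm absD
  ring

lemma nm_nonneg (h : CQ A B) (x : OO A B) : 0 ≤ nm x := by
  have h1 := four_nm x
  have h2 := absD_pos h
  have h3 : 0 ≤ absD A B * x.im ^ 2 := mul_nonneg h2.le (sq_nonneg _)
  have h4 := sq_nonneg (2 * x.re + B * x.im)
  omega

lemma nm_zero (h : CQ A B) {x : OO A B} (hx : nm x = 0) : x = 0 := by
  have h1 := four_nm x
  have h2 := absD_pos h
  rw [hx] at h1
  have h3 : 0 ≤ absD A B * x.im ^ 2 := mul_nonneg h2.le (sq_nonneg _)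
  have h4 := sq_nonneg (2 * x.re + B * x.im)
  have h5 : absD A B * x.im ^ 2 = 0 := by omega
  have h6 : x.im = 0 := by
    rcases mul_eq_zero.1 h5 with h | h
    · omega
    · simpa using h
  have h7 : (2 * x.re + B * x.im) ^ 2 = 0 := by omega
  have h8 : 2 * x.re + B * x.im = 0 := by simpa using h7
  rw [h6, mul_zero, add_zero] at h8
  have h9 : x.re = 0 := by omega
  exact QuadraticAlgebra.ext h9 h6

lemma nm_zero_iff (h : CQ A B) (x : OO A B) : nm x = 0 ↔ x = 0 := by
  refine ⟨nm_zero h, fun hx => ?_⟩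
  rw [hx]
  simp [nm]

lemma dom (h : CQ A B) : IsDomain (OO A B) := by
  have : NoZeroDivisors (OO A B) := by
    constructor
    intro x y hxy
    have h1 : nm x * nm y = 0 := by
      rw [← nm_mul', hxy]
      simp [nm]
    rcases mul_eq_zero.1 h1 with h2 | h2
    · exact Or.inl (nm_zero h h2)
    · exact Or.inr (nm_zero h h2)
  exact NoZeroDivisors.to_isDomain _

end EmbQ

open EmbQ in
theorem tq_EMB : Sq_EMB := by
  intro A B h
  refine ⟨fun x y => ?_, fun x y => ?_, fun x y => ?_, fun n => ?_, fun n => ?_,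
    fun x y hxy => emb_inj h hxy, by rw [pow_two, wC_sq' h], wC_im_pos h, mul_star', nm_mul',
    nm_nonneg h, nm_zero_iff h, dom h⟩
  · simpa only [eH_apply] using map_mul (eH h) x y
  · simpa only [eH_apply] using map_add (eH h) x y
  · simpa only [eH_apply] using map_sub (eH h) x y
  · simpa only [eH_apply] using map_intCast (eH h) n
  · simpa only [eH_apply] using map_natCast (eH h) n

end

end Pool.Agent.MUXV
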