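import Pool.Agent.MUX.StWX

/-!
# MUX, block W, module DIS: distribution relation over `E[b]`, with constant in `H` (helper55)

Adapted from `Pool/Agent/MU3/W_DISI.lean`.
-/

set_option autoImplicit false

open WeierstrassCurve Polynomial NumberField IsDedekindDomain

namespace Pool.Agent.MUXW

open _root_.MU3 Pool.Agent.MU3A Pool.Agent.MU3B Pool.Agent.MU3C Pool.Agent.RI Pool.Agent.RID
open Pool.Agent.MUX Pool.Agent.MUXU
open Pool.Agent.MU3V (cls Sub GD algDF)
open Pool.Agent.MUXV (GR InK tX CMO Ovr Sq_EMB)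

noncomputable section

theorem ty_DIS (hTDI : St_TDI) (hTIN : St_TIN) (hTHG : Sy_THG) (hKER : Sy_KER)
    (hEMB : Sq_EMB) : Sy_DIS := by
  classical
  intro A B h T L Om hL b hb a H ha hab hH
  obtain ⟨emul, _, esub, eint, _, einj, _, _, _, _, _, _, hdom⟩ := hEMB A B ⟨h.hB, h.neg, h.fund1, h.fund0⟩
  have := hdom
  have ezero : emb (0 : OO A B) = 0 := by
    have := eint 0
    simpa using this
  have eone : emb (1 : OO A B) = 1 := by
    have := eint 1
    simpa using this
  have hfinQ : Finite (OO A B ⧸ Ideal.span {b}) :=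
    Ideal.finiteQuotientOfFreeOfNeBot _ (by simpa [Ideal.span_singleton_eq_bot] using hb)
  letI : Fintype (OO A B ⧸ Ideal.span {b}) := Fintype.ofFinite _
  have hb0 : emb b ≠ 0 := by
    intro h0
    exact hb (einj _ _ (by rw [h0, ezero]))
  have hOm : Om ≠ 0 := hL.om_ne
  have hmemL : ∀ z : ℂ, z ∈ L.lattice ↔ ∃ x : OO A B, z = Om * emb x := by
    intro z
    rw [hL.mem z]
    simp
  have hmulL : ∀ (x : OO A B) {z : ℂ}, z ∈ L.lattice → emb x * z ∈ L.lattice := by
    intro x z hz
    obtain ⟨y, rfl⟩ := (hmemL z).1 hz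
    exact (hmemL _).2 ⟨x * y, by rw [emul]; ring⟩
  have hdiv : ∀ x : OO A B, emb x * (Om / emb b) ∈ L.lattice ↔ b ∣ x := by
    intro x
    rw [hmemL]
    constructor
    · rintro ⟨y, hy⟩
      refine ⟨y, einj _ _ ?_⟩
      rw [emul]
      field_simp at hy
      linear_combination hy
    · rintro ⟨y, rfl⟩
      refine ⟨y, ?_⟩
      rw [emul]
      field_simp
  have htor : ∀ z : ℂ, emb b * z ∈ L.lattice ↔ ∃ x : OO A B, z = emb x * (Om / emb b) := by
    intro z
    rw [hmemL]
    constructor
    · rintro ⟨y, hy⟩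
      refine ⟨y, ?_⟩
      field_simp
      linear_combination hy
    · rintro ⟨y, rfl⟩
      refine ⟨y, ?_⟩
      field_simp
  have hcopL : ∀ {x y : OO A B}, IsCoprime x y → ∀ {z : ℂ}, emb x * z ∈ L.lattice →
      emb y * z ∈ L.lattice → z ∈ L.lattice := by
    intro x y hxy z hx hy
    obtain ⟨s, t, hst⟩ := hxy
    have e1 : z = emb s * (emb x * z) - emb (-t) * (emb y * z) := by
      have e2 : emb (s * x - (-t) * y) = 1 := by
        rw [← eone, ← hst]; congr 1; ring
      rw [esub, emul, emul] at e2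
      linear_combination -z * e2
    rw [e1]
    exact sub_mem (hmulL s hx) (hmulL (-t) hy)
  have hper := (hTIN L a H H hH hH).2.2
  have ea : emb ((a : ℤ) : OO A B) = (a : ℂ) := eint a
  have ha0 : (a : ℂ) ≠ 0 := by exact_mod_cast ha
  -- the map
  have hmk : ∀ x y : OO A B, (Ideal.Quotient.mk (Ideal.span {b}) x =
      Ideal.Quotient.mk (Ideal.span {b}) y) ↔ b ∣ x - y := by
    intro x y
    rw [Ideal.Quotient.eq, Ideal.mem_span_singleton]
  have hout : ∀ t : OO A B ⧸ Ideal.span {b},
      Ideal.Quotient.mk (Ideal.span {b}) (Quotient.out t) = t := fun t => Ideal.Quotient.mk_out t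
  set r : OO A B ⧸ Ideal.span {b} → ℂ := fun t => emb (Quotient.out t) * (Om / emb b) with hr
  have hsub : ∀ (x y : OO A B), b ∣ x - y → emb x * (Om / emb b) - emb y * (Om / emb b) ∈
      L.lattice := by
    intro x y hxy
    rw [← sub_mul, ← esub, hdiv]
    exact hxy
  have hinjL : ∀ t t', r t - r t' ∈ L.lattice → t = t' := by
    intro t t' htt
    simp only [hr] at htt
    rw [← sub_mul, ← esub, hdiv, ← hmk, hout, hout] at htt
    exact htt
  have hinj : Function.Injective r := by
    intro t t' htt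
    apply hinjL
    rw [htt, sub_self]; exact zero_mem _
  set R : Finset ℂ := (Finset.univ.erase 0).image r with hR
  have hr0 : ∀ t, t ≠ 0 → r t ∉ L.lattice := by
    intro t ht hm
    simp only [hr] at hm
    rw [hdiv] at hm
    apply ht
    rw [← hout t, ← map_zero (Ideal.Quotient.mk (Ideal.span {b})), hmk, sub_zero]
    exact hm
  have hrL : ∀ t, emb b * r t ∈ L.lattice := by
    intro t
    rw [htor]
    exact ⟨_, rfl⟩
  have hReps : IsReps L (emb b) R := by
    constructor
    · intro q hq
      obtain ⟨t, ht, rfl⟩ := Finset.mem_image.1 hq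
      exact hrL t
    · intro q hq
      obtain ⟨t, ht, rfl⟩ := Finset.mem_image.1 hq
      exact hr0 t (Finset.ne_of_mem_erase ht)
    · intro q hq q' hq' hqq
      obtain ⟨t, ht, rfl⟩ := Finset.mem_image.1 hq
      obtain ⟨t', ht', rfl⟩ := Finset.mem_image.1 hq'
      rw [hinjL t t' hqq]
    · intro z hz hzL
      obtain ⟨x, rfl⟩ := (htor z).1 hz
      refine ⟨r (Ideal.Quotient.mk _ x), Finset.mem_image.2 ⟨_, Finset.mem_erase.2 ⟨?_,
        Finset.mem_univ _⟩, rfl⟩, ?_⟩
      · intro h0
        apply hzL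
        rw [hdiv]
        rw [← map_zero (Ideal.Quotient.mk (Ideal.span {b})), hmk, sub_zero] at h0
        exact h0
      · apply hsub
        rw [← hmk, hout]
  have hprodR : ∀ g : ℂ → ℂ, ∏ q ∈ R, g q = ∏ t ∈ Finset.univ.erase 0, g (r t) := by
    intro g
    rw [hR, Finset.prod_image (fun x _ y _ hxy => hinj hxy)]
  obtain ⟨hne, hmain⟩ := hTDI L a (emb b) H R ha0 hb0
    (fun w hw => by have := hmulL ((a : ℤ) : OO A B) hw; rwa [ea] at this)
    (fun w hw => hmulL b hw) hH hReps
    (fun z h1 h2 => hcopL hab (by rwa [ea]) h2)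
  -- the constant is in `H`
  have hbot : sp b ≠ (⊥ : Ideal (OO A B)) := by
    intro h0
    exact hb (Ideal.span_singleton_eq_bot.1 h0)
  have hle : (RF (⊤ : Ideal (OO A B)) : IntermediateField (kk A B) ℂ) ≤ RF (sp b) :=
    T.mono ⊤ (sp b) le_top
  haveI hfd := T.fin (sp b) hbot
  haveI hgal := T.gal (sp b) hbot
  have hP : ∏ q ∈ R, ThetaH L H q ∈ (RF (⊤ : Ideal (OO A B)) : IntermediateField (kk A B) ℂ) := by
    have hΘ : ∀ t, t ≠ 0 → ∃ hz : ThetaH L H (r t) ∈ (RF (sp b) : IntermediateField (kk A B) ℂ),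
        ∀ (σ : (RF (sp b) : IntermediateField (kk A B) ℂ) ≃ₐ[kk A B] RF (sp b)) (c : OO A B),
          ActH σ b c →
          ((σ ⟨ThetaH L H (r t), hz⟩ : (RF (sp b) : IntermediateField (kk A B) ℂ)) : ℂ) =
            ThetaH L H (emb c * r t) := by
      intro t ht
      obtain ⟨_, _, hz, _, h2⟩ := hTHG A B h T ⊤ L Om hL b hb a H ha hH (r t) (hrL t) (hr0 t ht)
      exact ⟨hz, h2⟩
    set θ : OO A B ⧸ Ideal.span {b} → (RF (sp b) : IntermediateField (kk A B) ℂ) := fun t =>
      if ht : t ≠ 0 then ⟨ThetaH L H (r t), (hΘ t ht).1⟩ else 1 with hθ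
    have hθ1 : ∀ t, t ≠ 0 → ((θ t : (RF (sp b) : IntermediateField (kk A B) ℂ)) : ℂ) =
        ThetaH L H (r t) := by
      intro t ht
      simp only [hθ]
      rw [dif_pos ht]
    have hcoe : ((∏ t ∈ Finset.univ.erase 0, θ t :
        (RF (sp b) : IntermediateField (kk A B) ℂ)) : ℂ) = ∏ q ∈ R, ThetaH L H q := by
      rw [hprodR]
      have e0 : ((∏ t ∈ Finset.univ.erase 0, θ t :
          (RF (sp b) : IntermediateField (kk A B) ℂ)) : ℂ) =
          ∏ t ∈ Finset.univ.erase 0, ((θ t : (RF (sp b) : IntermediateField (kk A B) ℂ)) : ℂ) :=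
        map_prod (RF (sp b) : IntermediateField (kk A B) ℂ).val _ _
      rw [e0]
      exact Finset.prod_congr rfl fun t ht => hθ1 t (Finset.ne_of_mem_erase ht)
    have hfix : ∀ σ : (RF (sp b) : IntermediateField (kk A B) ℂ) ≃ₐ[kk A B] RF (sp b), TrH σ →
        σ (∏ t ∈ Finset.univ.erase 0, θ t) = ∏ t ∈ Finset.univ.erase 0, θ t := by
      intro σ hσ
      obtain ⟨c, hc⟩ := (hKER A B h T b hb).1 σ hσ
      apply Subtype.ext
      have e1 : ((σ (∏ t ∈ Finset.univ.erase 0, θ t) :
          (RF (sp b) : IntermediateField (kk A B) ℂ)) : ℂ) =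
          ∏ t ∈ Finset.univ.erase 0,
            ((σ (θ t) : (RF (sp b) : IntermediateField (kk A B) ℂ)) : ℂ) := by
        rw [map_prod]
        exact map_prod (RF (sp b) : IntermediateField (kk A B) ℂ).val _ _
      rw [e1, hcoe, hprodR]
      have e2 : ∀ t ∈ Finset.univ.erase (0 : OO A B ⧸ Ideal.span {b}),
          ((σ (θ t) : (RF (sp b) : IntermediateField (kk A B) ℂ)) : ℂ) =
            ThetaH L H (emb c * r t) := by
        intro t ht
        have ht0 := Finset.ne_of_mem_erase ht
        have e3 : θ t = ⟨ThetaH L H (r t), (hΘ t ht0).1⟩ := by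
          simp only [hθ]; rw [dif_pos ht0]
        rw [e3]
        exact (hΘ t ht0).2 σ c hc
      rw [Finset.prod_congr rfl e2]
      -- multiplication by `c`
      obtain ⟨x, y, hxy⟩ := hc.cop
      have hu : Ideal.Quotient.mk (Ideal.span {b}) x * Ideal.Quotient.mk (Ideal.span {b}) c = 1 := by
        rw [← map_mul, ← map_one (Ideal.Quotient.mk (Ideal.span {b})), hmk]
        exact ⟨-y, by rw [← hxy]; ring⟩
      have hu' : Ideal.Quotient.mk (Ideal.span {b}) c * Ideal.Quotient.mk (Ideal.span {b}) x = 1 := by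
        rw [mul_comm]; exact hu
      let e : (OO A B ⧸ Ideal.span {b}) ≃ (OO A B ⧸ Ideal.span {b}) :=
        { toFun := fun t => Ideal.Quotient.mk (Ideal.span {b}) c * t
          invFun := fun t => Ideal.Quotient.mk (Ideal.span {b}) x * t
          left_inv := fun t => by
            show Ideal.Quotient.mk (Ideal.span {b}) x *
              (Ideal.Quotient.mk (Ideal.span {b}) c * t) = t
            rw [← mul_assoc, hu, one_mul]
          right_inv := fun t => by
            show Ideal.Quotient.mk (Ideal.span {b}) c *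
              (Ideal.Quotient.mk (Ideal.span {b}) x * t) = t
            rw [← mul_assoc, hu', one_mul] }
      refine Finset.prod_equiv e ?_ ?_
      · intro t
        have : e t = 0 ↔ t = 0 := by
          constructor
          · intro h0
            have := congrArg e.symm h0
            rw [Equiv.symm_apply_apply] at this
            rw [this]
            show Ideal.Quotient.mk (Ideal.span {b}) x * 0 = 0
            rw [mul_zero]
          · rintro rfl
            show Ideal.Quotient.mk (Ideal.span {b}) c * 0 = 0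
            rw [mul_zero]
        simp only [Finset.mem_erase, Finset.mem_univ, and_true, ne_eq, this]
      · intro t ht
        have hd : b ∣ c * Quotient.out t - Quotient.out (e t) := by
          rw [← hmk, hout, map_mul, hout]
          rfl
        have h3 := hsub _ _ hd
        have h4 := hper (r (e t)) _ h3
        rw [← h4]
        congr 1
        simp only [hr]
        rw [emul]
        ring
    have hmem : (∏ t ∈ Finset.univ.erase 0, θ t) ∈
        IntermediateField.fixedField
          (IntermediateField.fixingSubgroup (IntermediateField.restrict hle)) := by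
      rw [IntermediateField.mem_fixedField_iff]
      intro σ hσ
      apply hfix
      intro x hx
      exact (IntermediateField.mem_fixingSubgroup_iff _ _).1 hσ x
        ((IntermediateField.mem_restrict hle x).2 hx)
    rw [IsGalois.fixedField_fixingSubgroup] at hmem
    rw [← hcoe]
    exact (IntermediateField.mem_restrict hle _).1 hmem
  have hbH : emb b ∈ (RF (⊤ : Ideal (OO A B)) : IntermediateField (kk A B) ℂ) :=
    IntermediateField.algebraMap_mem (RF (⊤ : Ideal (OO A B))) (⟨emb b, emb_mem b⟩ : kk A B)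
  refine ⟨emb b ^ (2 * H.card) * ∏ q ∈ R, ThetaH L H q, mul_mem (pow_mem hbH _) hP,
    mul_ne_zero (pow_ne_zero _ hb0) hne, ?_⟩
  intro z hz
  have hz' : (a : ℂ) * emb b * z ∉ L.lattice := by
    rwa [mul_comm (a : ℂ)]
  rw [← hmain z hz', finprod_eq_prod_of_fintype, hprodR,
    ← Finset.mul_prod_erase Finset.univ _ (Finset.mem_univ (0 : OO A B ⧸ Ideal.span {b}))]
  congr 1
  apply hper
  rw [hdiv]
  have := hout 0
  rw [← map_zero (Ideal.Quotient.mk (Ideal.span {b})), hmk, map_zero, sub_zero] at this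
  exact this

end

end Pool.Agent.MUXW
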