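import Pool.Agent.MUX.W_HIT

/-!
# MUX, block W, module FRH (helper97): Frobenius automorphisms which are trivial on `H`
-/

set_option autoImplicit false

open WeierstrassCurve Polynomial NumberField IsDedekindDomain

namespace Pool.Agent.MUXW

open _root_.MU3 Pool.Agent.MU3A Pool.Agent.MU3B Pool.Agent.MU3C Pool.Agent.RI Pool.Agent.RID
open Pool.Agent.MUX Pool.Agent.MUXU
open Pool.Agent.MU3V (cls Sub GD algDF)
open Pool.Agent.MUXV (GR InK tX CMO Ovr Sq_EMB Sq_FRX Sq_VQI Sq_ALU Sq_TOR Sq_CYQ Sq_DGI Sq_DGL)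

noncomputable section

namespace FRH

lemma kap_mem {A B : ℤ} (m : Ideal (OO A B)) {b : Ideal (OO A B)} {L : PeriodPair} {om : ℂ}
    (hL : IsNL b L om) : kap L ∈ (RF m : IntermediateField (kk A B) ℂ) :=
  IntermediateField.subset_adjoin _ _ ⟨b, L, om, hL, Or.inl rfl⟩

/-- the invariants are algebraic -/
lemma alg {A B : ℤ} [IsDomain (OO A B)] (hw : wC A B ^ 2 = A + B * wC A B) (T : TorX A B)
    {b : Ideal (OO A B)} {L : PeriodPair} {om : ℂ} (hL : IsNL b L om) :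
    IsAlgebraic ℚ (kap L) := by
  have h0 : IsIntegral ℤ (wC A B) := by
    refine ⟨Polynomial.X ^ 2 - Polynomial.C B * Polynomial.X - Polynomial.C A, ?_, ?_⟩
    · monicity!
    · simp only [Polynomial.eval₂_sub, Polynomial.eval₂_mul, Polynomial.eval₂_pow,
        Polynomial.eval₂_X, Polynomial.eval₂_C]
      simp only [algebraMap_int_eq, eq_intCast]
      linear_combination hw
  have h1 : IsIntegral ℚ (wC A B) := h0.tower_top
  have hfk : FiniteDimensional ℚ (kk A B) := IntermediateField.adjoin.finiteDimensional h1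
  have hne : (⊤ : Ideal (OO A B)) ≠ ⊥ := bot_ne_top.symm
  have h2 := T.fin ⊤ hne
  have h3 : FiniteDimensional ℚ (RF (⊤ : Ideal (OO A B)) : IntermediateField (kk A B) ℂ) :=
    FiniteDimensional.trans ℚ (kk A B) (RF (⊤ : Ideal (OO A B)) : IntermediateField (kk A B) ℂ)
  have h4 : IsAlgebraic ℚ
      (⟨kap L, kap_mem ⊤ hL⟩ : (RF (⊤ : Ideal (OO A B)) : IntermediateField (kk A B) ℂ)) :=
    Algebra.IsAlgebraic.isAlgebraic _
  exact h4.algebraMap

end FRH

open FRH in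
theorem ty_FRH (he : Sq_EMB) (hDET : Su_DET) (hFRX : Sq_FRX) (hVQI : Sq_VQI) (hALU : Sq_ALU)
    (hTOR : Sq_TOR) (hCYQ : Sq_CYQ) (hDGI : Sq_DGI) (hDGL : Sq_DGL) (hGRB : Sy_GRB)
    (hKER : Sy_KER) (hACM : Sy_ACM) : Sy_FRH := by
  intro A B hC T n ι hfin R
  have hF := KER.cqF hC
  obtain ⟨h1, h2, h3, h4, h5, hinj, hw, -, hstar, hnm, hnm0, hnmz, hdom⟩ := he A B hF
  have hft := Fintype.ofFinite ι
  choose ng hng hng' using fun i => hGRB A B hC T (R.b i) (R.L i) (R.om i) (R.nl i)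
  have hpair : ∀ i j : ι, ∃ k : ℕ, k ≠ 0 ∧ ∀ V : ValuationSubring ℂ, V.valuation (k : ℂ) = 1 →
      kap (R.L i) ≠ kap (R.L j) → V.valuation (kap (R.L i) - kap (R.L j)) = 1 := by
    intro i j
    by_cases hij : kap (R.L i) = kap (R.L j)
    · exact ⟨1, one_ne_zero, fun V _ h => absurd hij h⟩
    · obtain ⟨k, hk, hk'⟩ := hALU (kap (R.L i) - kap (R.L j))
        ((alg hw T (R.nl i)).sub (alg hw T (R.nl j))) (sub_ne_zero.2 hij)
      exact ⟨k, hk, fun V hV _ => hk' V hV⟩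
  choose np hnp hnp' using hpair
  have hD : B ^ 2 + 4 * A ≠ 0 := hC.neg.ne
  refine ⟨(∏ i, ng i) * (∏ i, ∏ j, np i j) * (B ^ 2 + 4 * A).natAbs * 6, ?_, ?_⟩
  · refine mul_ne_zero (mul_ne_zero (mul_ne_zero ?_ ?_) ?_) (by norm_num)
    · exact Finset.prod_ne_zero_iff.2 fun i _ => hng i
    · exact Finset.prod_ne_zero_iff.2 fun i _ => Finset.prod_ne_zero_iff.2 fun j _ => hnp i j
    · exact Int.natAbs_ne_zero.2 hD
  intro m hm Q q hq hqn hqm hcard V hV σ hσ hTr
  have hq6 : ¬ q ∣ 6 := fun h => hqn (h.mul_left _)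
  have hqD : ¬ (q : ℤ) ∣ B ^ 2 + 4 * A := fun h =>
    hqn (((Int.natCast_dvd.1 h).mul_left _).mul_right _)
  have hqg : ∀ i, ¬ q ∣ ng i := fun i h =>
    hqn ((((h.trans (Finset.dvd_prod_of_mem _ (Finset.mem_univ i))).mul_right _).mul_right _).mul_right _)
  have hqp : ∀ i j, ¬ q ∣ np i j := fun i j h =>
    hqn (((((h.trans (Finset.dvd_prod_of_mem _ (Finset.mem_univ j))).trans
      (Finset.dvd_prod_of_mem (fun i => ∏ j, np i j) (Finset.mem_univ i))).mul_left _).mul_right _).mul_right _)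
  have hq2 : q ≠ 2 := by rintro rfl; exact hq6 (by norm_num)
  have hq3 : q ≠ 3 := by rintro rfl; exact hq6 (by norm_num)
  obtain ⟨-, hV2⟩ := hVQI A B hF V
  obtain ⟨hvq, hvs, hvx⟩ := hV2 Q q hq hcard hV
  have hvn : ∀ k : ℕ, ¬ q ∣ k → V.valuation (k : ℂ) = 1 := fun k hk => by
    have := hvs (k : ℤ) (by exact_mod_cast hk)
    simpa using this
  have hvm : V.valuation ((nm m : ℤ) : ℂ) = 1 := hvs _ hqm
  have hdat := fun i => hng' i V (hvn _ (hqg i))
  obtain ⟨r, -, hr⟩ := hDGI A B Q q hq hcard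
  have hL : IsNL (⊤ : Ideal (OO A B)) (R.L R.i0) (R.om R.i0) := by
    have := R.nl R.i0
    rwa [R.b0] at this
  have hCMO : CMO A B (R.L R.i0) := fun x z hz => KER.stab he hC hL x hz
  have hqQ : ((q : ℕ) : OO A B) ∈ Q := by
    rw [hr]
    simp
  have hmn : (sp m : Ideal (OO A B)) ≠ ⊥ := by rwa [Ne, Ideal.span_singleton_eq_bot]
  have hcop : IsCoprime Q (sp m) := by
    obtain ⟨x, y, hxy⟩ : IsCoprime (q : ℤ) (nm m) := (Int.isCoprime_iff_gcd_eq_one.2
      ((Nat.Prime.coprime_iff_not_dvd hq).2 (fun h => hqm (Int.natCast_dvd.2 h))))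
    rw [Ideal.isCoprime_iff_exists]
    refine ⟨x * ((q : ℕ) : OO A B), Ideal.mul_mem_left _ _ hqQ, y * ((nm m : ℤ) : OO A B), ?_, ?_⟩
    · rw [← hstar]
      exact Ideal.mul_mem_left _ _ (Ideal.mul_mem_right _ _ (Ideal.mem_span_singleton_self m))
    · have : (((x * (q : ℤ) + y * nm m : ℤ)) : OO A B) = 1 := by rw [hxy]; norm_num
      push_cast at this
      exact this
  have hQ0 : Q ≠ ⊥ := by
    intro h0
    rw [h0, Ideal.mem_bot] at hqQ
    have h1 := congrArg (fun x : OO A B => x.re) hqQ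
    have h2 : ((q : ℕ) : ℤ) = 0 := by simpa using h1
    exact hq.ne_zero (by exact_mod_cast h2)
  obtain ⟨s, hs, hact⟩ := T.surj (sp m) hmn Q hQ0 hcop
  obtain ⟨b', M, om', mu, hM, hA⟩ := hact _ _ _ hL
  obtain ⟨i, hk, hlat, hP⟩ := HIT.repr he hC R hM
  have hg2 : M.g₂ = (R.L i).g₂ := by
    unfold kap at hk
    linear_combination 144 * hk
  obtain ⟨-, -, hd3, hd4, hGR⟩ := hdat R.i0
  obtain ⟨-, -, he3, he4, -⟩ := hdat i
  have hkM : V.valuation (kap M) = 1 := by rw [hk]; exact he3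
  obtain ⟨hfr1, hfr2⟩ := hFRX A B hF Q q hq hq2 hq3 hqD hcard (R.L R.i0) M mu hCMO hA.isq hL.nrm
    hM.nrm V hV hd3 hd4 hkM (by rw [hg2]; exact he4)
  -- the invariant
  have hkV : kap (R.L R.i0) ∈ V := (ValuationSubring.valuation_le_one_iff _ _).1 hd3.le
  have hkk := hσ ⟨kap (R.L R.i0), kap_mem _ hL⟩ hkV
  rw [hTr ⟨kap (R.L R.i0), kap_mem _ hL⟩ (kap_mem _ hL)] at hkk
  have hfr1' : V.valuation (kap M - kap (R.L R.i0) ^ q) < 1 := hfr1
  have hkd : V.valuation (kap (R.L i) - kap (R.L R.i0)) < 1 := by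
    have h6 : kap (R.L i) - kap (R.L R.i0) =
        (kap M - kap (R.L R.i0) ^ q) - (kap (R.L R.i0) - kap (R.L R.i0) ^ q) := by
      rw [hk]; ring
    rw [h6]
    exact Valuation.map_sub_lt V.valuation hfr1' hkk
  have hi : i = R.i0 := by
    apply HIT.uniq he hDET hC R
    by_contra hne
    exact absurd (hnp' i R.i0 V (hvn _ (hqp _ _)) hne) hkd.ne
  subst hi
  -- `mu = emb lam`
  have hom := hL.om_ne
  have hmu0 := hA.isq.1
  have hmem : ∀ c : OO A B, R.om R.i0 * emb c ∈ (R.L R.i0).lattice := fun c =>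
    (hL.mem _).2 ⟨c, Submodule.mem_top, rfl⟩
  have he1 : emb (1 : OO A B) = 1 := by
    have := h5 1
    rwa [Nat.cast_one, Nat.cast_one] at this
  obtain ⟨lam, hlam⟩ : ∃ lam : OO A B, mu = emb lam := by
    have h6 : mu * R.om R.i0 ∈ (R.L R.i0).lattice := by
      rw [hlat, hA.isq.2]
      intro x _
      rw [mul_comm]
      exact hmem x
    obtain ⟨lam, -, h7⟩ := (hL.mem _).1 h6
    refine ⟨lam, ?_⟩
    rw [mul_comm mu] at h7
    exact mul_left_cancel₀ hom h7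
  subst hlam
  have hdv : ∀ x ∈ Q, lam ∣ x := by
    intro x hx
    have h6 : emb lam * (R.om R.i0 / emb lam) ∈ M.lattice := by
      rw [← hlat, mul_div_cancel₀ _ hmu0]
      have := hmem 1
      rwa [he1, mul_one] at this
    obtain ⟨y, -, h7⟩ := (hL.mem _).1 ((hA.isq.2 _).1 h6 x hx)
    refine ⟨y, hinj _ _ ?_⟩
    rw [h1]
    field_simp at h7
    exact h7
  -- the norm of `lam`
  obtain ⟨-, -, -, H, hH, hHc⟩ := hCYQ A B hF Q q hq hq2 hqD hcard (R.L R.i0) M (emb lam) hCMO hA.isq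
  have hlu : nm lam ≠ 1 := by
    intro h6
    have h7 : lam * star lam = 1 := by rw [hstar, h6]; norm_num
    have h8 : H.Nonempty := by
      rw [← Finset.card_pos]
      have := hq.two_le
      omega
    obtain ⟨z, hz⟩ := h8
    have h9 := hH.mem z hz
    rw [← hlat] at h9
    apply hH.ne z hz
    have h10 := hCMO (star lam) _ h9
    rw [← mul_assoc, ← h1, mul_comm (star lam), h7, he1, one_mul] at h10
    rw [two_mul]
    exact add_mem h10 h10
  obtain ⟨t, ht⟩ := hdv _ hqQ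
  have hnq : nm lam * nm t = (q : ℤ) ^ 2 := by
    rw [← hnm, ← ht]
    simp [nm]
  have hnl : nm lam = q := by
    obtain ⟨a, ha⟩ := Int.eq_ofNat_of_zero_le (hnm0 lam)
    obtain ⟨c, hc⟩ := Int.eq_ofNat_of_zero_le (hnm0 t)
    rw [ha, hc] at hnq
    have hac : a * c = q ^ 2 := by exact_mod_cast hnq
    obtain ⟨k, hk2, hak⟩ := (Nat.dvd_prime_pow hq).1 (Dvd.intro c hac)
    interval_cases k
    · exfalso
      apply hlu
      rw [ha, hak]
      norm_num
    · rw [ha, hak, pow_one]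
    · exfalso
      have hc1 : c = 1 := by
        rw [hak] at hac
        have h6 : q ^ 2 ≠ 0 := pow_ne_zero _ hq.ne_zero
        exact Nat.eq_of_mul_eq_mul_left (Nat.pos_of_ne_zero h6) (by rw [hac, mul_one])
      have h7 : t * star t = 1 := by rw [hstar, hc, hc1]; norm_num
      have h8 : (⟨-r, 1⟩ : OO A B) ∈ Q := by
        rw [hr]
        simp
      obtain ⟨y, hy⟩ := hdv _ h8
      have h9 : (⟨-r, 1⟩ : OO A B) = ((q : ℕ) : OO A B) * (y * star t) := by
        rw [ht, hy]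
        linear_combination (-(lam * y)) * h7
      have h10 := congrArg QuadraticAlgebra.im h9
      have h11 : (1 : ℤ) = q * (y * star t).im := by
        simpa [QuadraticAlgebra.im_mul] using h10
      have h12 : (q : ℤ) ∣ 1 := ⟨_, h11⟩
      have h13 : q ∣ 1 := by exact_mod_cast h12
      exact hq.one_lt.ne' (Nat.dvd_one.1 h13)
  have hQ : Q = Ideal.span {lam} := by
    apply le_antisymm
    · intro x hx
      exact Ideal.mem_span_singleton.2 (hdv x hx)
    · rw [Ideal.span_singleton_le_iff_mem, hr]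
      obtain ⟨-, -, -, -, h6⟩ := hDGL A B hF lam q hq hnl
      apply h6
      have h7 : lam - ((lam.re + lam.im * r : ℤ) : OO A B) ∈ Q := by
        rw [hr]
        simp
      have h8 := dvd_sub (dvd_refl lam) (hdv _ h7)
      rwa [sub_sub_cancel] at h8
  obtain ⟨a, ha⟩ := (hKER A B hC T m hm).1 σ hTr
  refine ⟨lam, hQ, hnl, (hACM A B hC (R.L R.i0) (R.om R.i0) hL m hm).2.1 _ σ a lam ?_ ha⟩
  -- `a ≡ ± lam`
  obtain ⟨W, ξ, G⟩ := hGR
  by_cases hu : IsUnit m
  · exact Or.inl hu.dvd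
  have hm0 : emb m ≠ 0 := HIT.ne0 he hC hm
  have hK : ∀ z, emb m * z ∈ (R.L R.i0).lattice →
      InK V (R.L R.i0) (fun z => (R.L R.i0).weierstrassP z - 1 / 12) z → z ∈ (R.L R.i0).lattice :=
    hTOR A B hF V W (R.L R.i0) _ _ ξ G hCMO m hvm
  have hdvd : ∀ c : OO A B, emb c * (R.om R.i0 / emb m) ∈ (R.L R.i0).lattice → m ∣ c := by
    intro c hc
    obtain ⟨x, -, hx⟩ := (hL.mem _).1 hc
    refine ⟨x, hinj _ _ ?_⟩
    rw [h1]
    field_simp at hx
    exact hx
  have hz : R.om R.i0 / emb m ∉ (R.L R.i0).lattice := by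
    intro h0
    apply hu
    rw [isUnit_iff_dvd_one]
    apply hdvd
    rw [he1, one_mul]
    exact h0
  have hmc : ∀ c : OO A B, emb m * (emb c * (R.om R.i0 / emb m)) ∈ (R.L R.i0).lattice := by
    intro c
    have e : emb m * (emb c * (R.om R.i0 / emb m)) = R.om R.i0 * emb c := by field_simp
    rw [e]
    exact hmem c
  have hmz : emb m * (R.om R.i0 / emb m) ∈ (R.L R.i0).lattice := by
    have := hmc 1
    rwa [he1, one_mul] at this
  obtain ⟨haz, hx⟩ := ha.pt ⊤ (R.L R.i0) (R.om R.i0) hL _ hmz hz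
  have hxF : xn (R.L R.i0) (R.om R.i0 / emb m) ∈ (RF (sp m) : IntermediateField (kk A B) ℂ) := by
    refine IntermediateField.subset_adjoin _ _
      ⟨⊤, R.L R.i0, R.om R.i0, hL, Or.inr ⟨_, ?_, hz, rfl⟩⟩
    intro x hx
    obtain ⟨y, rfl⟩ := Ideal.mem_span_singleton.1 hx
    rw [h1, mul_assoc]
    exact hmc y
  have hz1 : ¬ InK V (R.L R.i0) (fun z => (R.L R.i0).weierstrassP z - 1 / 12)
      (R.om R.i0 / emb m) := fun h0 => hz (hK _ hmz h0)
  have hz2 : ¬ InK V (R.L R.i0) (fun z => (R.L R.i0).weierstrassP z - 1 / 12)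
      (emb a * (R.om R.i0 / emb m)) := fun h0 => haz (hK _ (hmc a) h0)
  obtain ⟨hf1, hf2⟩ := hfr2 _ hz1
  have hlz : emb lam * (R.om R.i0 / emb m) ∉ (R.L R.i0).lattice := by
    rw [hlat]
    exact (Pool.Agent.MUXV.int_X hf1).1
  have hz3 : ¬ InK V (R.L R.i0) (fun z => (R.L R.i0).weierstrassP z - 1 / 12)
      (emb lam * (R.om R.i0 / emb m)) := fun h0 => hlz (hK _ (hmc lam) h0)
  rw [hP] at hf2
  have hx1 := hσ ⟨_, hxF⟩
    ((ValuationSubring.valuation_le_one_iff _ _).1 (Pool.Agent.MUXV.int_X hz1).2)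
  rw [hx hxF] at hx1
  have hx3 : V.valuation (xn (R.L R.i0) (emb a * (R.om R.i0 / emb m)) -
      xn (R.L R.i0) (emb lam * (R.om R.i0 / emb m))) < 1 := by
    have h6 : xn (R.L R.i0) (emb a * (R.om R.i0 / emb m)) -
        xn (R.L R.i0) (emb lam * (R.om R.i0 / emb m)) =
        (xn (R.L R.i0) (emb a * (R.om R.i0 / emb m)) - xn (R.L R.i0) (R.om R.i0 / emb m) ^ q) -
        (((R.L R.i0).weierstrassP (emb lam * (R.om R.i0 / emb m)) - 1 / 12) -
          ((R.L R.i0).weierstrassP (R.om R.i0 / emb m) - 1 / 12) ^ q) := by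
      unfold xn
      ring
    rw [h6]
    exact Valuation.map_sub_lt V.valuation hx1 hf2
  by_contra hcon
  rw [not_or] at hcon
  have hm1 : ¬ InK V (R.L R.i0) (fun z => (R.L R.i0).weierstrassP z - 1 / 12)
      (emb a * (R.om R.i0 / emb m) - emb lam * (R.om R.i0 / emb m)) := by
    intro h0
    rw [← sub_mul, ← h3] at h0
    exact hcon.1 (hdvd _ (hK _ (hmc (a - lam)) h0))
  have hp1 : ¬ InK V (R.L R.i0) (fun z => (R.L R.i0).weierstrassP z - 1 / 12)
      (emb a * (R.om R.i0 / emb m) + emb lam * (R.om R.i0 / emb m)) := by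
    intro h0
    rw [← add_mul, ← h2] at h0
    exact hcon.2 (hdvd _ (hK _ (hmc (a + lam)) h0))
  have h9 := Pool.Agent.MUXV.v_X_sub G hz2 hz3 hp1 hm1
  exact absurd h9 hx3.ne

end

end Pool.Agent.MUXW
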