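import Pool.Agent.MUX.StWX

/-!
# MUX, block W, module GRB: good reduction outside finitely many primes   (helper50)
-/

set_option autoImplicit false

open WeierstrassCurve Polynomial NumberField IsDedekindDomain

namespace Pool.Agent.MUXW

open _root_.MU3 Pool.Agent.MU3A Pool.Agent.MU3B Pool.Agent.MU3C Pool.Agent.RI Pool.Agent.RID
open Pool.Agent.MUX Pool.Agent.MUXU
open Pool.Agent.MU3V (cls Sub GD algDF)
open Pool.Agent.MUXV (GR InK tX CMO Ovr)

noncomputable section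

namespace GRB

lemma wC_sq' {A B : ℤ} (h : CQ A B) : wC A B * wC A B = A + B * wC A B := by
  have h0 : (0 : ℤ) ≤ absD A B := by
    have := h.neg
    unfold absD
    omega
  have h1 : (0 : ℝ) ≤ (absD A B : ℝ) := by exact_mod_cast h0
  have h2 : ((Real.sqrt (absD A B) : ℝ) : ℂ) ^ 2 = (absD A B : ℂ) := by
    rw [← Complex.ofReal_pow, Real.sq_sqrt h1]
    norm_num
  have h3 : Complex.I ^ 2 = -1 := Complex.I_sq
  have h4 : (absD A B : ℂ) = -((B : ℂ) ^ 2 + 4 * A) := by simp [absD]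
  unfold wC
  linear_combination (Complex.I ^ 2 / 4) * h2 + ((absD A B : ℂ) / 4) * h3 - (1 / 4) * h4

lemma isIntegral_wC {A B : ℤ} (h : CQ A B) : IsIntegral ℚ (wC A B) := by
  refine ⟨X ^ 2 - C (B : ℚ) * X - C (A : ℚ), ?_, ?_⟩
  · monicity!
  · simp only [eval₂_sub, eval₂_pow, eval₂_X, eval₂_mul, eval₂_C]
    simp only [eq_ratCast, Rat.cast_intCast]
    rw [sq, wC_sq' h]
    ring

lemma isAlgebraic_kk {A B : ℤ} (h : CQ A B) : Algebra.IsAlgebraic ℚ (kk A B) := by
  refine IntermediateField.isAlgebraic_adjoin ?_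
  intro x hx
  rw [Set.mem_singleton_iff] at hx
  rw [hx]
  exact isIntegral_wC h

/-- the elements of `F_m` are algebraic -/
lemma alg_RF {A B : ℤ} (h : CQ A B) (T : TorX A B) (m : Ideal (OO A B)) (hm : m ≠ ⊥) {x : ℂ}
    (hx : x ∈ (RF m : IntermediateField (kk A B) ℂ)) : IsAlgebraic ℚ x := by
  have hfd := T.fin m hm
  have halg := isAlgebraic_kk h
  have h1 : IsAlgebraic (kk A B) (⟨x, hx⟩ : (RF m : IntermediateField (kk A B) ℂ)) :=
    Algebra.IsAlgebraic.isAlgebraic _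
  have h2 : IsAlgebraic (kk A B) x := by
    have := h1.algHom (RF m : IntermediateField (kk A B) ℂ).val
    exact this
  exact h2.restrictScalars ℚ

lemma val_le (V : ValuationSubring ℂ) (n : ℕ) : V.valuation (n : ℂ) ≤ 1 :=
  (V.valuation_le_one_iff _).2 (natCast_mem V.toSubring n)

lemma val_mul (V : ValuationSubring ℂ) (a b : ℕ) (h : V.valuation ((a * b : ℕ) : ℂ) = 1) :
    V.valuation (a : ℂ) = 1 ∧ V.valuation (b : ℂ) = 1 := by
  rw [Nat.cast_mul, map_mul] at h
  have ha := val_le V a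
  have hb := val_le V b
  constructor
  · refine le_antisymm ha ?_
    rw [← h]
    calc V.valuation (a : ℂ) * V.valuation (b : ℂ) ≤ V.valuation (a : ℂ) * 1 := by gcongr
      _ = _ := mul_one _
  · refine le_antisymm hb ?_
    rw [← h]
    calc V.valuation (a : ℂ) * V.valuation (b : ℂ) ≤ 1 * V.valuation (b : ℂ) := by gcongr
      _ = _ := one_mul _

end GRB

theorem ty_GRB (h1 : Pool.Agent.MUXV.Sx_NGR) (h2 : Pool.Agent.MUXV.Sq_ALU) : Sy_GRB := by
  intro A B hc T b L om hL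
  have hn := hL.nrm
  have hd := (b_DSC L).1
  have hg : L.g₂ = (1 + 1728 * kap L) / 12 := by
    unfold kap
    ring
  have hg3 : L.g₃ = -(1 + 1728 * kap L) / 216 := by
    have : L.g₃ = -L.g₂ / 18 := by
      rw [hn]
      ring
    rw [this, hg]
    ring
  have hk0 : kap L ≠ 0 := by
    intro h0
    apply hd
    rw [hg, hg3, h0]
    norm_num
  have hg0 : 12 * L.g₂ ≠ 0 := by
    refine mul_ne_zero (by norm_num) ?_
    intro h0
    have h3 : L.g₃ = 0 := by
      have : L.g₃ = -L.g₂ / 18 := by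
        rw [hn]
        ring
      rw [this, h0]
      norm_num
    apply hd
    rw [h0, h3]
    norm_num
  have hmem : kap L ∈ (RF (⊤ : Ideal (OO A B)) : IntermediateField (kk A B) ℂ) :=
    IntermediateField.subset_adjoin _ _ ⟨b, L, om, hL, Or.inl rfl⟩
  have htop : (⊤ : Ideal (OO A B)) ≠ ⊥ := by
    intro h
    have h1 : (1 : OO A B) ∈ (⊤ : Ideal (OO A B)) := Submodule.mem_top
    rw [h, Ideal.mem_bot] at h1
    have h2 := congrArg QuadraticAlgebra.re h1
    exact one_ne_zero h2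
  have halg : IsAlgebraic ℚ (kap L) := GRB.alg_RF hc T ⊤ htop hmem
  have halg2 : IsAlgebraic ℚ (12 * L.g₂) := by
    have e : 12 * L.g₂ = 1 + 1728 * kap L := by
      rw [hg]
      ring
    rw [e]
    have a1 : IsAlgebraic ℚ (1 : ℂ) := isAlgebraic_one
    have a2 : IsAlgebraic ℚ (1728 : ℂ) := by
      have := isAlgebraic_natCast (R := ℚ) (A := ℂ) 1728
      exact_mod_cast this
    exact a1.add (a2.mul halg)
  obtain ⟨n₁, hn₁, H₁⟩ := h2 (kap L) halg hk0
  obtain ⟨n₂, hn₂, H₂⟩ := h2 (12 * L.g₂) halg2 hg0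
  refine ⟨(2 * 3) * (n₁ * n₂), mul_ne_zero (by norm_num) (mul_ne_zero hn₁ hn₂), ?_⟩
  intro V hV
  obtain ⟨h6, h12⟩ := GRB.val_mul V _ _ hV
  obtain ⟨v2, v3⟩ := GRB.val_mul V _ _ h6
  obtain ⟨w1, w2⟩ := GRB.val_mul V _ _ h12
  have v2' : V.valuation 2 = 1 := by simpa using v2
  have v3' : V.valuation 3 = 1 := by simpa using v3
  refine ⟨v2', v3', H₁ V w1, H₂ V w2, ?_⟩
  exact h1 V L hn v2' (H₁ V w1) (H₂ V w2)

end

end Pool.Agent.MUXW
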