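import Pool.Agent.MUX.StWX
import Pool.Agent.MUX.Q_EMB

/-!
# MUX, block W, module I1 (helper4): the norm relation (I1)
-/

set_option autoImplicit false

open WeierstrassCurve Polynomial NumberField IsDedekindDomain

namespace Pool.Agent.MUXW

open _root_.MU3 Pool.Agent.MU3A Pool.Agent.MU3B Pool.Agent.MU3C Pool.Agent.RI Pool.Agent.RID
open Pool.Agent.MUX Pool.Agent.MUXU
open Pool.Agent.MU3V (cls Sub GD algDF)
open Pool.Agent.MUXV (GR InK tX CMO Ovr)

noncomputable section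

namespace I1W

/-- a product over a full inverse image, fibre by fibre -/
lemma prod_fibres {G' G : Type*} [Group G'] [Group G] [Finite G'] (r : G' →* G)
    (hr : Function.Surjective r) (X : Set G) (f : G' → ℂ) (g : G → ℂ) (C : ℂ)
    (hf : ∀ s : G', r s ∈ X → ∏ᶠ t : {t : G' // r t = 1}, f (s * t.1) = C * g (r s)) :
    ∏ᶠ s : {s : G' // r s ∈ X}, f s.1 = C ^ Nat.card X * ∏ᶠ x : X, g x.1 := by
  classical
  have : Finite G := Finite.of_surjective r hr
  letI := Fintype.ofFinite G'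
  letI := Fintype.ofFinite G
  rw [finprod_eq_prod_of_fintype, finprod_eq_prod_of_fintype]
  have e1 : ∏ s : {s : G' // r s ∈ X}, f s.1 =
      ∏ s ∈ (Finset.univ : Finset G').filter (fun s => r s ∈ X), f s := by
    symm
    exact Finset.prod_subtype _ (by simp) f
  have e2 : ∏ x : X, g x.1 = ∏ x ∈ (Finset.univ : Finset G).filter (fun x => x ∈ X), g x := by
    symm
    exact Finset.prod_subtype _ (by simp) g
  have e3 : Nat.card X = ((Finset.univ : Finset G).filter (fun x => x ∈ X)).card := by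
    rw [Nat.card_eq_fintype_card, ← Set.toFinset_card]
    congr 1
    ext x
    simp
  rw [e1, e2, e3, ← Finset.prod_const, ← Finset.prod_mul_distrib,
    ← Finset.prod_fiberwise_of_maps_to (s := (Finset.univ : Finset G').filter (fun s => r s ∈ X))
      (t := (Finset.univ : Finset G).filter (fun x => x ∈ X)) (g := r)
      (fun s hs => by simpa using hs)]
  refine Finset.prod_congr rfl fun x hx => ?_
  obtain ⟨s, rfl⟩ := hr x
  have hx' : r s ∈ X := by simpa using hx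
  rw [← hf s hx', finprod_eq_prod_of_fintype]
  symm
  refine Finset.prod_bij (fun t _ => s * t.1) ?_ ?_ ?_ ?_
  · rintro ⟨t, ht⟩ _
    simp only [Finset.mem_filter, Finset.mem_univ, true_and]
    have h1 : r (s * t) = r s := by rw [map_mul, ht, mul_one]
    exact ⟨by rw [h1]; exact hx', h1⟩
  · rintro ⟨t, ht⟩ _ ⟨t', ht'⟩ _ h
    exact Subtype.ext (mul_left_cancel h)
  · intro u hu
    simp only [Finset.mem_filter, Finset.mem_univ, true_and] at hu
    refine ⟨⟨s⁻¹ * u, by rw [map_mul, map_inv, hu.2, inv_mul_cancel]⟩, Finset.mem_univ _, ?_⟩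
    exact mul_inv_cancel_left s u
  · rintro ⟨t, ht⟩ _
    rfl

lemma fp_congr {α : Type*} {P Q : α → Prop} (h : ∀ a, P a ↔ Q a) (f : α → ℂ) :
    ∏ᶠ a : {a // P a}, f a.1 = ∏ᶠ a : {a // Q a}, f a.1 := by
  have e : P = Q := funext fun a => propext (h a)
  subst e
  rfl

/-- a product over the elements with image in a cyclic group -/
lemma prod_cyclic {G' G : Type*} [Finite G'] [Group G] (ρ : G' → G) (X : Set G') (σ : G)
    (p : ℕ) (hp : orderOf σ = p) (f : G' → ℂ)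
    (h1 : ∀ s, s ∈ X ↔ ∃ i < p, ρ s = σ ^ i) :
    ∏ i ∈ Finset.range p, ∏ᶠ s : {s : G' // ρ s = σ ^ i}, f s.1 = ∏ᶠ s : X, f s.1 := by
  classical
  letI := Fintype.ofFinite G'
  have e2 : ∏ᶠ x : X, f x.1 = ∏ x ∈ (Finset.univ : Finset G').filter (fun x => x ∈ X), f x := by
    rw [finprod_eq_prod_of_fintype]
    symm
    exact Finset.prod_subtype _ (by simp) f
  have inj : Set.InjOn (fun i : ℕ => σ ^ i) (Finset.range p : Set ℕ) := by
    intro i hi j hj hij
    rw [Finset.coe_range, Set.mem_Iio] at hi hj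
    exact pow_injOn_Iio_orderOf (by rw [hp]; exact hi) (by rw [hp]; exact hj) hij
  rw [e2, ← Finset.prod_fiberwise_of_maps_to (s := (Finset.univ : Finset G').filter (fun s => s ∈ X))
      (t := (Finset.range p).image (fun i => σ ^ i)) (g := ρ) ?_, Finset.prod_image inj]
  · refine Finset.prod_congr rfl fun i hi => ?_
    rw [finprod_eq_prod_of_fintype]
    symm
    refine Finset.prod_subtype _ (fun s => ?_) f
    simp only [Finset.mem_filter, Finset.mem_univ, true_and]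
    exact ⟨fun h => h.2, fun h => ⟨(h1 s).2 ⟨i, Finset.mem_range.1 hi, h⟩, h⟩⟩
  · intro s hs
    obtain ⟨i, hi, h2⟩ := (h1 s).1 (by simpa using hs)
    rw [h2]
    exact Finset.mem_image_of_mem _ (Finset.mem_range.2 hi)

/-- an automorphism which fixes the fixed field of `σ` is a power of `σ` -/
lemma mem_powers {K M : Type*} [Field K] [Field M] [Algebra K M] [FiniteDimensional K M]
    (σ τ : M ≃ₐ[K] M) (p : ℕ) (hσ : orderOf σ = p) (hp : p ≠ 0) (h : ∀ x, σ x = x → τ x = x) :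
    ∃ i < p, τ = σ ^ i := by
  have h1 : τ ∈ (IntermediateField.fixedField (Subgroup.zpowers σ)).fixingSubgroup := by
    rw [IntermediateField.mem_fixingSubgroup_iff]
    intro x hx
    rw [IntermediateField.mem_fixedField_iff] at hx
    exact h x (hx σ (Subgroup.mem_zpowers σ))
  rw [IntermediateField.fixingSubgroup_fixedField] at h1
  have h2 : IsOfFinOrder σ := orderOf_pos_iff.1 (by omega)
  obtain ⟨n, hn⟩ := (h2.mem_powers_iff_mem_zpowers.2 h1)
  have hn' : σ ^ n = τ := hn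
  rw [← pow_mod_orderOf, hσ] at hn'
  exact ⟨n % p, Nat.mod_lt _ (Nat.pos_of_ne_zero hp), hn'.symm⟩

/-- the norm relation for fields `k ≤ D ≤ F ≤ F'`, `D ≤ D' ≤ F'` -/
lemma core (hMEM : Sy_MEM) {A B : ℤ} {F F' : IntermediateField (kk A B) ℂ} (hFF' : F ≤ F')
    (hfd : FiniteDimensional (kk A B) F') (hgal : IsGalois (kk A B) F)
    (hgal' : IsGalois (kk A B) F') (hcomm : ∀ σ τ : F' ≃ₐ[kk A B] F', σ * τ = τ * σ)
    {D D' : IntermediateField ℚ ℂ} (h : kk A B ≤ D) (h' : kk A B ≤ D') (hDD' : D ≤ D')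
    (hsub : Sub D F) (hsub' : Sub D' F') (θ : F) (θ' : F') (hθ' : θ' ≠ 0) {C : ℂ} (hCD : C ∈ D)
    (hC : ∏ᶠ σ : {σ : F' ≃ₐ[kk A B] F' // ∀ x : F', (x : ℂ) ∈ F → σ x = x},
      ((σ.1 θ' : F') : ℂ) = C * θ) :
    letI := algC h
    letI := algC h'
    ∀ (p : ℕ) (σ : D' ≃ₐ[kk A B] D'), (∀ x : D', σ x = x ↔ (x : ℂ) ∈ D) → orderOf σ = p → p ≠ 0 →
    ∀ c' : D', (c' : ℂ) = cW h' θ' →
      ∏ i ∈ Finset.range p, (((σ ^ i) c' : D') : ℂ) = C ^ Nat.card (GD h F) * cW h θ := by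
  classical
  letI := algC h
  letI := algC h'
  intro p σ hσ hord hp c' hc'
  obtain ⟨-, -, M3, -, M5⟩ := hMEM A B F' hfd hgal' hcomm D' h' hsub' θ' hθ'
  have hc1 : cW h' θ' ∈ D' := hc' ▸ c'.2
  have hc2 : c' = ⟨cW h' θ', hc1⟩ := Subtype.ext hc'
  have hfin : Finite (F' ≃ₐ[kk A B] F') := inferInstance
  have hfdD' : FiniteDimensional (kk A B) D' := by
    let f : D' →ₗ[kk A B] F' :=
      { toFun := fun y => ⟨(y : ℂ), hsub' _ y.2⟩
        map_add' := fun x y => rfl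
        map_smul' := fun c x => rfl }
    refine FiniteDimensional.of_injective f ?_
    intro x y hxy
    have := congrArg (fun z : F' => (z : ℂ)) hxy
    exact Subtype.ext this
  -- the restriction to `D'`
  choose ρ hρ using M5
  have hE : ∀ (τ : D' ≃ₐ[kk A B] D') (s : F' ≃ₐ[kk A B] F'), Ext1 h' τ s ↔ ρ s = τ := by
    intro τ s
    constructor
    · intro h1
      ext y
      have e1 := hρ s y (hsub' _ y.2)
      have e2 := h1 y (hsub' _ y.2)
      exact (e1.symm.trans e2)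
    · intro h1
      rw [← h1]
      exact hρ s
  have hX' : ∀ s : F' ≃ₐ[kk A B] F', s ∈ GD h F' ↔ ∃ i < p, ρ s = σ ^ i := by
    intro s
    constructor
    · intro hs
      refine mem_powers σ (ρ s) p hord hp fun x hx => ?_
      have hxD := (hσ x).1 hx
      have e1 := hρ s x (hsub' _ x.2)
      have e2 := hs (x : ℂ) hxD (hsub' _ x.2)
      rw [e2] at e1
      exact Subtype.ext e1.symm
    · rintro ⟨i, -, hi⟩ y hy hyF
      have hyD' := hDD' hy
      have e1 := hρ s ⟨y, hyD'⟩ hyF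
      have e2 : σ ⟨y, hyD'⟩ = ⟨y, hyD'⟩ := (hσ ⟨y, hyD'⟩).2 hy
      have e3 : ∀ j : ℕ, (σ ^ j) ⟨y, hyD'⟩ = ⟨y, hyD'⟩ := by
        intro j
        induction j with
        | zero => rfl
        | succ j ih => rw [pow_succ, AlgEquiv.mul_apply, e2, ih]
      rw [hi, e3] at e1
      exact Subtype.ext e1
  have step1 : ∏ i ∈ Finset.range p, (((σ ^ i) c' : D') : ℂ) =
      ∏ᶠ s : (GD h F' : Set (F' ≃ₐ[kk A B] F')), ((s.1 θ' : F') : ℂ) := by
    rw [← prod_cyclic ρ (GD h F' : Set (F' ≃ₐ[kk A B] F')) σ p hord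
      (fun s => ((s θ' : F') : ℂ)) hX']
    refine Finset.prod_congr rfl fun i _ => ?_
    rw [hc2, M3 (σ ^ i) hc1]
    unfold cWt
    exact fp_congr (hE (σ ^ i)) (fun s => ((s θ' : F') : ℂ))
  -- the restriction to `F`
  letI : Algebra F F' := (IntermediateField.inclusion hFF').toRingHom.toAlgebra
  haveI : IsScalarTower (kk A B) F F' := IsScalarTower.of_algebraMap_eq' rfl
  have hnF : Normal (kk A B) F := hgal.to_normal
  have hnF' : Normal (kk A B) F' := hgal'.to_normal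
  obtain ⟨r, hr⟩ : ∃ r : (F' ≃ₐ[kk A B] F') →* (F ≃ₐ[kk A B] F),
      r = AlgEquiv.restrictNormalHom F := ⟨_, rfl⟩
  have hrs : Function.Surjective r := by
    rw [hr]
    exact AlgEquiv.restrictNormalHom_surjective F'
  have hrc : ∀ (s : F' ≃ₐ[kk A B] F') (y : ℂ) (hy : y ∈ F),
      ((r s ⟨y, hy⟩ : F) : ℂ) = ((s ⟨y, hFF' hy⟩ : F') : ℂ) := by
    intro s y hy
    rw [hr]
    exact congrArg (fun z : F' => (z : ℂ)) (AlgEquiv.restrictNormal_commutes s F ⟨y, hy⟩)
  have hX : ∀ s : F' ≃ₐ[kk A B] F', s ∈ (GD h F' : Set (F' ≃ₐ[kk A B] F')) ↔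
      r s ∈ (GD h F : Set (F ≃ₐ[kk A B] F)) := by
    intro s
    constructor
    · intro hs y hy hyF
      have e1 := hs y hy (hFF' hyF)
      apply Subtype.ext
      rw [hrc, e1]
    · intro hs y hy hyF'
      have e1 := hs y hy (hsub y hy)
      have e2 := hrc s y (hsub y hy)
      rw [e1] at e2
      exact Subtype.ext e2.symm
  have hker : ∀ t : F' ≃ₐ[kk A B] F', r t = 1 ↔ ∀ x : F', (x : ℂ) ∈ F → t x = x := by
    intro t
    constructor
    · intro ht x hx
      have e1 := hrc t (x : ℂ) hx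
      rw [ht] at e1
      exact Subtype.ext e1.symm
    · intro ht
      ext y
      have e1 := hrc t (y : ℂ) y.2
      have e2 := ht ⟨(y : ℂ), hFF' y.2⟩ y.2
      rw [e2] at e1
      exact e1
  letI := Fintype.ofFinite (F' ≃ₐ[kk A B] F')
  letI := Fintype.ofFinite {t : F' ≃ₐ[kk A B] F' // r t = 1}
  have hP : (∏ t : {t : F' ≃ₐ[kk A B] F' // r t = 1}, (t.1 θ' : F') : F') =
      ⟨C, hFF' (hsub C hCD)⟩ * ⟨(θ : ℂ), hFF' θ.2⟩ := by
    apply Subtype.ext
    have e1 : ((∏ t : {t : F' ≃ₐ[kk A B] F' // r t = 1}, (t.1 θ' : F') : F') : ℂ) =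
        ∏ t : {t : F' ≃ₐ[kk A B] F' // r t = 1}, ((t.1 θ' : F') : ℂ) :=
      map_prod F'.val _ _
    rw [e1, ← finprod_eq_prod_of_fintype, fp_congr hker (fun t => ((t θ' : F') : ℂ)), hC]
    rfl
  rw [step1]
  have e0 : ∏ᶠ s : (GD h F' : Set (F' ≃ₐ[kk A B] F')), ((s.1 θ' : F') : ℂ) =
      ∏ᶠ s : {s : F' ≃ₐ[kk A B] F' // r s ∈ (GD h F : Set (F ≃ₐ[kk A B] F))},
        ((s.1 θ' : F') : ℂ) := fp_congr hX (fun s => ((s θ' : F') : ℂ))
  rw [e0, prod_fibres r hrs (GD h F : Set (F ≃ₐ[kk A B] F)) (fun s => ((s θ' : F') : ℂ))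
    (fun τ => ((τ θ : F) : ℂ)) C]
  · rfl
  · intro s hs
    rw [finprod_eq_prod_of_fintype]
    have e1 : ∏ t : {t : F' ≃ₐ[kk A B] F' // r t = 1}, (((s * t.1) θ' : F') : ℂ) =
        ((s (∏ t : {t : F' ≃ₐ[kk A B] F' // r t = 1}, (t.1 θ' : F')) : F') : ℂ) := by
      rw [map_prod s]
      exact (map_prod F'.val _ _).symm
    rw [e1, hP, map_mul]
    have hs' := (hX s).2 hs
    have e2 : s ⟨C, hFF' (hsub C hCD)⟩ = ⟨C, hFF' (hsub C hCD)⟩ := hs' C hCD _
    have e3 := hrc s (θ : ℂ) θ.2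
    rw [e2]
    show C * ((s ⟨(θ : ℂ), hFF' θ.2⟩ : F') : ℂ) = C * ((r s θ : F) : ℂ)
    rw [← e3]

end I1W

open I1W in
theorem ty_I1 (hNRM : Sy_NRM) (hMEM : Sy_MEM) : Sy_I1 := by
  classical
  intro A B hc T L Om hL m b hm hbm hm2 a H ha ham hH θ θ' hθ hθ' D D' h h' hDD' hHD hsub hsub'
  letI := algC h
  letI := algC h'
  intro p σ hσ hord hp c' hc'
  obtain ⟨C, hCm, hC0, hC⟩ := hNRM A B hc T L Om hL m b hm hbm hm2 a H ha ham hH θ θ' hθ hθ'
  -- the fields
  have hb0 : b ≠ 0 := fun h0 => hm (by rw [h0] at hbm; exact zero_dvd_iff.1 hbm)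
  obtain ⟨-, -, -, -, -, -, -, -, -, -, -, -, hdom⟩ :=
    Pool.Agent.MUXV.tq_EMB A B ⟨hc.hB, hc.neg, hc.fund1, hc.fund0⟩
  have hbotF : sp m ≠ (⊥ : Ideal (OO A B)) := by
    rw [Ne, Ideal.span_singleton_eq_bot]
    exact hm
  have hbotF' : sp (b * m) ≠ (⊥ : Ideal (OO A B)) := by
    rw [Ne, Ideal.span_singleton_eq_bot]
    exact mul_ne_zero hb0 hm
  have hFF' : (RF (sp m) : IntermediateField (kk A B) ℂ) ≤ RF (sp (b * m)) :=
    T.mono _ _ (Ideal.span_singleton_le_span_singleton.2 (Dvd.intro_left _ rfl))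
  have hfd' := T.fin _ hbotF'
  by_cases h0 : θ' = 0
  · -- degenerate case
    have hfin : Finite ((RF (sp (b * m)) : IntermediateField (kk A B) ℂ) ≃ₐ[kk A B]
      RF (sp (b * m))) := inferInstance
    have e1 : (C * θ : ℂ) = 0 := by
      rw [← hC]
      refine finprod_eq_zero _ ⟨1, fun x _ => rfl⟩ ?_ (Set.toFinite _)
      rw [h0, map_zero]
      rfl
    have e2 : (θ : ℂ) = 0 := by
      rcases mul_eq_zero.1 e1 with h1 | h1
      · exact absurd h1 hC0
      · exact h1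
    have e3 : θ = 0 := Subtype.ext e2
    have hfd := T.fin _ hbotF
    have hfin2 : Finite ((RF (sp m) : IntermediateField (kk A B) ℂ) ≃ₐ[kk A B]
      RF (sp m)) := inferInstance
    have e4 : cW h θ = 0 := by
      unfold cW
      refine finprod_eq_zero _ (1 : GD h (RF (sp m) : IntermediateField (kk A B) ℂ)) ?_
        (Set.toFinite _)
      rw [e3, map_zero]
      rfl
    have e5 : cW h' θ' = 0 := by
      unfold cW
      refine finprod_eq_zero _ (1 : GD h' (RF (sp (b * m)) : IntermediateField (kk A B) ℂ)) ?_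
        (Set.toFinite _)
      rw [h0, map_zero]
      rfl
    refine ⟨1, one_mem _, one_ne_zero, ?_⟩
    rw [e4, mul_zero]
    have e6 : c' = 0 := Subtype.ext (hc'.trans e5)
    refine Finset.prod_eq_zero (Finset.mem_range.2 (Nat.pos_of_ne_zero hp)) ?_
    rw [e6, map_zero]
    rfl
  · refine ⟨C ^ Nat.card (GD h (RF (sp m) : IntermediateField (kk A B) ℂ)), pow_mem hCm _,
      pow_ne_zero _ hC0, ?_⟩
    exact core hMEM hFF' hfd' (T.gal _ hbotF) (T.gal _ hbotF') (T.comm _ hbotF') h h' hDD' hsub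
      hsub' θ θ' h0 (hHD C hCm) hC p σ hσ hord hp c' hc'

end

end Pool.Agent.MUXW
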