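import Pool.Agent.MUX.StWX

/-!
# MUX, block W, module KER (helper65): the automorphisms of `F_m / H`
-/

set_option autoImplicit false

open WeierstrassCurve Polynomial NumberField IsDedekindDomain

namespace Pool.Agent.MUXW

open _root_.MU3 Pool.Agent.MU3A Pool.Agent.MU3B Pool.Agent.MU3C Pool.Agent.RI Pool.Agent.RID
open Pool.Agent.MUX Pool.Agent.MUXU
open Pool.Agent.MU3V (cls Sub GD algDF)
open Pool.Agent.MUXV (GR InK tX CMO Ovr)

noncomputable section

namespace KER

/-- automorphisms of `ℂ` trivial on `k` are `k`-linear -/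
lemma fix {A B : ℤ} {σ : ℂ ≃+* ℂ} (hσ : FixK A B σ) : ∀ y ∈ kk A B, σ y = y := by
  intro y hy
  induction hy using IntermediateField.adjoin_induction with
  | mem x hx => rw [Set.mem_singleton_iff] at hx; rw [hx]; exact hσ
  | algebraMap x => simp
  | add x y _ _ hx hy => rw [map_add, hx, hy]
  | inv x _ hx => rw [map_inv₀, hx]
  | mul x y _ _ hx hy => rw [map_mul, hx, hy]

lemma cqF {A B : ℤ} (h : CQ A B) : Pool.Agent.MUXF.CQ A B :=
  ⟨h.hB, h.neg, h.fund1, h.fund0⟩

/-- lattices of normalised curves are stable under `O` -/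
lemma stab (he : Pool.Agent.MUXV.Sq_EMB) {A B : ℤ} (hC : CQ A B) {b : Ideal (OO A B)} {L : PeriodPair} {om : ℂ}
    (hL : IsNL b L om) (x : OO A B) {z : ℂ} (hz : z ∈ L.lattice) : emb x * z ∈ L.lattice := by
  obtain ⟨y, hy, rfl⟩ := (hL.mem z).1 hz
  obtain ⟨h1, -⟩ := he A B (cqF hC)
  refine (hL.mem _).2 ⟨x * y, b.mul_mem_left x hy, ?_⟩
  rw [h1]
  ring

lemma g2_ne {A B : ℤ} {b : Ideal (OO A B)} {L : PeriodPair} {om : ℂ} (hL : IsNL b L om) :
    L.g₂ ≠ 0 := by
  intro h0
  have h1 := hL.nrm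
  rw [h0] at h1
  have h2 : L.g₃ = 0 := by
    have h3 : (18 : ℂ) * L.g₃ = 0 := by linear_combination h1
    rcases mul_eq_zero.1 h3 with h | h
    · norm_num at h
    · exact h
  exact (b_DSC L).1 (by rw [h0, h2]; ring)

/-- the core: an isogeny of degree one between normalised lattices -/
lemma core (he : Pool.Agent.MUXV.Sq_EMB) {A B : ℤ} (hC : CQ A B) {b b' : Ideal (OO A B)} {L L' : PeriodPair}
    {om om' mu : ℂ} {c : OO A B} (hL : IsNL b L om) (hL' : IsNL b' L' om')
    (hq : IsQ (sp c) L L' mu) :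
    kap L' = kap L ∧ (mu = emb c ∨ mu = -emb c) ∧ (∀ z, z ∈ L.lattice ↔ z ∈ L'.lattice) ∧
      ∀ z, L'.weierstrassP z = L.weierstrassP z := by
  obtain ⟨hmu, hq⟩ := hq
  have hq' : ∀ z : ℂ, mu * z ∈ L'.lattice ↔ emb c * z ∈ L.lattice := by
    intro z
    rw [hq z]
    constructor
    · intro h
      exact h c (Ideal.mem_span_singleton_self c)
    · intro h x hx
      obtain ⟨y, rfl⟩ := Ideal.mem_span_singleton'.1 hx
      rw [(he A B (cqF hC)).1, mul_assoc]
      exact stab he hC hL y h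
  have hc : emb c ≠ 0 := by
    intro h0
    have h1 := (hq' (L'.ω₁ / 2 / mu)).2 (by rw [h0, zero_mul]; exact L.lattice.zero_mem)
    rw [mul_div_cancel₀ _ hmu] at h1
    exact L'.ω₁_div_two_notMem_lattice h1
  set u : ℂ := mu / emb c with hu
  have hu0 : u ≠ 0 := div_ne_zero hmu hc
  have hul : ∀ z : ℂ, z ∈ L.lattice ↔ u * z ∈ L'.lattice := by
    intro z
    have h1 := hq' (z / emb c)
    rw [mul_div_cancel₀ _ hc] at h1
    rw [← h1, hu]
    have h2 : mu * (z / emb c) = mu / emb c * z := by ring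
    rw [h2]
  obtain ⟨-, -, h3, h4⟩ := ta_SCP L L' u hu0 hul
  have hg := g2_ne hL
  have hu2 : u ^ 2 = 1 := by
    have h5 := hL'.nrm
    rw [h3, h4] at h5
    have h6 := hL.nrm
    have h7 : L.g₂ * u ^ 2 = L.g₂ := by
      have h8 : L.g₂ / u ^ 4 * u ^ 6 = -18 * (L.g₃ / u ^ 6) * u ^ 6 := by rw [h5]
      have h9 : L.g₂ / u ^ 4 * u ^ 6 = L.g₂ * u ^ 2 := by
        field_simp
      have h10 : -18 * (L.g₃ / u ^ 6) * u ^ 6 = -18 * L.g₃ := by
        field_simp
      rw [h9, h10, ← h6] at h8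
      exact h8
    have h11 : L.g₂ * (u ^ 2 - 1) = 0 := by linear_combination h7
    rcases mul_eq_zero.1 h11 with h | h
    · exact absurd h hg
    · linear_combination h
  have hu1 : u = 1 ∨ u = -1 := by
    have h5 : (u - 1) * (u + 1) = 0 := by linear_combination hu2
    rcases mul_eq_zero.1 h5 with h | h
    · left; linear_combination h
    · right; linear_combination h
  have hmuc : mu = u * emb c := by rw [hu, div_mul_cancel₀ _ hc]
  have hlat : ∀ z, z ∈ L.lattice ↔ z ∈ L'.lattice := by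
    intro z
    rw [hul z]
    rcases hu1 with h | h
    · rw [h, one_mul]
    · rw [h, neg_one_mul, neg_mem_iff]
  obtain ⟨k1, -, k3, -⟩ := ta_SCP L L' 1 one_ne_zero (fun z => by rw [one_mul]; exact hlat z)
  refine ⟨?_, ?_, hlat, fun z => ?_⟩
  · unfold kap
    rw [k3]
    ring
  · rcases hu1 with h | h
    · left; rw [hmuc, h, one_mul]
    · right; rw [hmuc, h, neg_one_mul]
  · have := k1 z
    rwa [one_mul, one_pow, div_one] at this

/-- from `ActI` for all lattices to `ActH` -/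
lemma mk (he : Pool.Agent.MUXV.Sq_EMB) {A B : ℤ} (hC : CQ A B) {m c : OO A B} {F : IntermediateField (kk A B) ℂ}
    (σ : F ≃ₐ[kk A B] F) (s : ℂ ≃+* ℂ) (hσ : ∀ y : F, ((σ y : F) : ℂ) = s y)
    (hc : IsCoprime c m)
    (h : ∀ (b : Ideal (OO A B)) (L : PeriodPair) (om : ℂ), IsNL b L om →
      ∃ (b' : Ideal (OO A B)) (L' : PeriodPair) (om' mu : ℂ), IsNL b' L' om' ∧
        ActI s (sp m) (sp c) L L' mu) : ActH σ m c := by
  refine ⟨hc, fun b L om hL hk => ?_, fun b L om hL z hz hz' => ?_⟩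
  · obtain ⟨b', L', om', mu, hL', hA⟩ := h b L om hL
    obtain ⟨h1, -⟩ := core he hC hL hL' hA.isq
    rw [hσ]
    show s (kap L) = kap L
    rw [← hA.kap, h1]
  · obtain ⟨b', L', om', mu, hL', hA⟩ := h b L om hL
    obtain ⟨-, h2, h3, h4⟩ := core he hC hL hL' hA.isq
    have ht : Tor (sp m) L z := by
      intro x hx
      obtain ⟨y, rfl⟩ := Ideal.mem_span_singleton'.1 hx
      rw [(he A B (cqF hC)).1, mul_assoc]
      exact stab he hC hL y hz
    rcases hA.act z ht with ⟨h5, -⟩ | ⟨-, h6, h7, -⟩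
    · exact absurd h5 hz'
    · rw [← h3] at h6
      have h8 : emb c * z ∉ L.lattice := by
        rcases h2 with h | h
        · rw [← h]; exact h6
        · intro h9
          apply h6
          rw [h, neg_mul]
          exact neg_mem h9
      refine ⟨h8, fun hx => ?_⟩
      rw [hσ]
      show s (xn L z) = _
      rw [h7]
      unfold xn
      rw [h4]
      rcases h2 with h | h
      · rw [h]
      · rw [h, neg_mul, L.weierstrassP_neg]

end KER

open KER in
theorem ty_KER (he : Pool.Agent.MUXV.Sq_EMB) : Sy_KER := by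
  intro A B hC T m hm
  have hm0 : (sp m : Ideal (OO A B)) ≠ ⊥ := by
    rwa [Ne, Ideal.span_singleton_eq_bot]
  constructor
  · intro σ hσ
    by_cases hex : ∃ (b : Ideal (OO A B)) (L : PeriodPair) (om : ℂ), IsNL b L om
    · obtain ⟨b₀, L₀, om₀, hL₀⟩ := hex
      let D : IntermediateField ℚ ℂ :=
        (RF (sp m) : IntermediateField (kk A B) ℂ).restrictScalars ℚ
      have hle : kk A B ≤ D := fun x hx =>
        (RF (sp m) : IntermediateField (kk A B) ℂ).algebraMap_mem ⟨x, hx⟩
      have hDy : ∀ y ∈ D, y ∈ (RF (sp m) : IntermediateField (kk A B) ℂ) := fun y hy => hy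
      letI := algC hle
      let τ : D ≃ₐ[kk A B] D := AlgEquiv.ofRingEquiv (f := (σ.toRingEquiv : D ≃+* D))
        (fun r => σ.commutes r)
      obtain ⟨s, hs, hs1⟩ := T.ext (sp m) hm0 D hle hDy τ
      have hs2 : ∀ y : (RF (sp m) : IntermediateField (kk A B) ℂ),
          ((σ y : (RF (sp m) : IntermediateField (kk A B) ℂ)) : ℂ) = s y := fun y =>
        (hs1 y).symm
      obtain ⟨a, ha, ha'⟩ := T.act (sp m) hm0 s hs
      obtain ⟨b', L', om', mu, hL', hA⟩ := ha' b₀ L₀ om₀ hL₀
      have hA' : ActI s (⊤ : Ideal (OO A B)) a L₀ L' mu := by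
        refine ⟨hA.kap, ?_, hA.isq, fun z hz => hA.act z fun x _ => hz x trivial⟩
        rw [← Ideal.one_eq_top]
        exact isCoprime_one_right
      have htop : (⊤ : Ideal (OO A B)) ≠ ⊥ := by
        intro h
        apply hm0
        rw [eq_bot_iff, ← h]
        exact le_top
      have htr : ∀ y ∈ (RF (⊤ : Ideal (OO A B)) : IntermediateField (kk A B) ℂ), s y = y := by
        intro y hy
        have hy' := T.mono ⊤ (sp m) le_top hy
        have h1 := hs2 ⟨y, hy'⟩
        rw [hσ ⟨y, hy'⟩ hy] at h1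
        exact h1.symm
      obtain ⟨c, -, hc⟩ := (T.triv ⊤ a s b₀ L₀ L' om₀ mu htop hs hL₀ hA' hL'.nrm).1 htr
      subst hc
      refine ⟨c, mk he hC σ s hs2 ?_ ha'⟩
      exact (Ideal.isCoprime_span_singleton_iff c m).1 ha
    · push Not at hex
      refine ⟨1, isCoprime_one_left, fun b L om hL => absurd hL (hex b L om),
        fun b L om hL => absurd hL (hex b L om)⟩
  · intro a ha
    by_cases ha0 : a = 0
    · -- `m` is a unit
      subst ha0
      obtain ⟨u, v, huv⟩ := ha
      rw [mul_zero, zero_add] at huv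
      have he1 : emb (1 : OO A B) = 1 := by
        have := (he A B (cqF hC)).2.2.2.2.1 1
        simpa using this
      refine ⟨1, ⟨u, v, by rw [mul_zero, zero_add]; exact huv⟩, fun b L om hL hk => rfl,
        fun b L om hL z hz hz' => ?_⟩
      exfalso
      apply hz'
      have h1 := stab he hC hL v hz
      rw [← mul_assoc, ← (he A B (cqF hC)).1, huv, he1, one_mul] at h1
      exact h1
    have hsa : (sp a : Ideal (OO A B)) ≠ ⊥ := by
      rwa [Ne, Ideal.span_singleton_eq_bot]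
    obtain ⟨s, hs, hs1⟩ := T.surj (sp m) hm0 (sp a) hsa
      ((Ideal.isCoprime_span_singleton_iff a m).2 ha)
    haveI := T.fin (sp m) hm0
    haveI := T.gal (sp m) hm0
    let s' : ℂ ≃ₐ[kk A B] ℂ := AlgEquiv.ofRingEquiv (f := s) (fun r => fix hs _ r.2)
    refine ⟨s'.restrictNormal (RF (sp m)), mk he hC _ s ?_ ha hs1⟩
    intro y
    exact AlgEquiv.restrictNormal_commutes s' (RF (sp m)) y

end

end Pool.Agent.MUXW
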