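import Mathlib

/-!
# MUX, block W, for (KOL): a lower bound for the inertia group (helper59)
-/

set_option autoImplicit false

open NumberField IsDedekindDomain

namespace Pool.Agent.MUXW

/-- the valuation of a generator of the prime of `k` below, if `v` is unramified over `k` -/
lemma kx_val_lam (k D : Type) [Field k] [NumberField k] [Field D] [NumberField D] [Algebra k D]
    (v : HeightOneSpectrum (𝓞 D)) (hr : v.asIdeal.ramificationIdx (𝓞 k) = 1) (l : 𝓞 k)
    (hl0 : l ≠ 0) (hl : v.asIdeal.under (𝓞 k) = Ideal.span {l}) :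
    v.valuation D (algebraMap k D (l : k)) = WithZero.exp (-1 : ℤ) := by
  have hwp : v.asIdeal.IsPrime := v.isPrime
  have hpp : (v.asIdeal.under (𝓞 k)).IsPrime := inferInstance
  have hpb : v.asIdeal.under (𝓞 k) ≠ ⊥ := by
    rw [hl]
    simpa using hl0
  let p : HeightOneSpectrum (𝓞 k) := ⟨v.asIdeal.under (𝓞 k), hpp, hpb⟩
  have hlo : v.asIdeal.LiesOver p.asIdeal := ⟨rfl⟩
  have h2 : p.valuation k (l : k) = WithZero.exp (-1 : ℤ) := by
    rw [HeightOneSpectrum.valuation_of_algebraMap]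
    exact HeightOneSpectrum.intValuation_singleton p hl0 hl
  have h3 := HeightOneSpectrum.valuation_liesOver D p v (l : k)
  have h4 : p.asIdeal.ramificationIdx' v.asIdeal = 1 := by
    rw [Ideal.ramificationIdx'_eq_ramificationIdx p.asIdeal v.asIdeal hpb, hr]
  rw [h4, pow_one, h2] at h3
  exact h3.symm

/-- a lower bound for the number of elements of the inertia group -/
lemma kx_inertia (K F : Type) [Field K] [NumberField K] [Field F] [NumberField F] [Algebra K F]
    [IsGalois K F] (w : HeightOneSpectrum (𝓞 F)) (v : HeightOneSpectrum (𝓞 K))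
    (hv : w.asIdeal.under (𝓞 K) = v.asIdeal) (l : K)
    (hl : v.valuation K l = WithZero.exp (-1 : ℤ)) (t : F) (n : ℕ)
    (ht : w.valuation F t ^ n = w.valuation F (algebraMap K F l)) :
    n ≤ Nat.card (w.asIdeal.inertia Gal(F/K)) := by
  have hwp : w.asIdeal.IsPrime := w.isPrime
  have hpb : v.asIdeal ≠ ⊥ := v.ne_bot
  have hlo : w.asIdeal.LiesOver v.asIdeal := ⟨hv.symm⟩
  have hfin : Finite (𝓞 K ⧸ v.asIdeal) := Ideal.finiteQuotientOfFreeOfNeBot _ hpb
  have hmax : v.asIdeal.IsMaximal := v.isMaximal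
  have hfr : Finite v.asIdeal.ResidueField := inferInstance
  have hperf : PerfectField v.asIdeal.ResidueField := inferInstance
  have h1 : Nat.card (w.asIdeal.inertia Gal(F/K)) = v.asIdeal.ramificationIdx' w.asIdeal := by
    rw [Ideal.card_inertia_eq_ramificationIdxIn (R := 𝓞 K) v.asIdeal w.asIdeal,
      Ideal.ramificationIdxIn_eq_ramificationIdx v.asIdeal w.asIdeal Gal(F/K),
      Ideal.ramificationIdx'_eq_ramificationIdx v.asIdeal w.asIdeal hpb]
  have h3 := HeightOneSpectrum.valuation_liesOver F v w l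
  rw [hl, ← ht] at h3
  rw [h1]
  set e := v.asIdeal.ramificationIdx' w.asIdeal with he
  have hpos : 0 < e := Nat.pos_of_ne_zero
    (Ideal.IsDedekindDomain.ramificationIdx'_ne_zero_of_liesOver w.asIdeal v.ne_bot)
  by_cases hn : n = 0
  · omega
  have ht0 : w.valuation F t ≠ 0 := by
    intro h0
    rw [h0, zero_pow hn] at h3
    exact (pow_ne_zero e (WithZero.exp_ne_zero (a := (-1 : ℤ)))) h3
  obtain ⟨j, hj⟩ : ∃ j : ℤ, w.valuation F t = WithZero.exp j :=
    ⟨WithZero.log (w.valuation F t), (WithZero.exp_log ht0).symm⟩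
  rw [hj, ← WithZero.exp_nsmul, ← WithZero.exp_nsmul, WithZero.exp_inj, nsmul_eq_mul,
    nsmul_eq_mul] at h3
  have h4 : (e : ℤ) = n * (-j) := by linarith
  have h5 : 0 < -j := by
    by_contra h6
    push Not at h6
    have : (n : ℤ) * (-j) ≤ 0 := mul_nonpos_of_nonneg_of_nonpos (by positivity) h6
    omega
  have h6 : (n : ℤ) ≤ e := by
    rw [h4]
    nlinarith [(by positivity : (0 : ℤ) ≤ n)]
  exact_mod_cast h6

/-- if the inertia group is contained in a set with at most `n` elements, it is equal to it -/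
lemma kx_full (K F : Type) [Field K] [NumberField K] [Field F] [NumberField F] [Algebra K F]
    [IsGalois K F] (w : HeightOneSpectrum (𝓞 F)) (v : HeightOneSpectrum (𝓞 K))
    (hv : w.asIdeal.under (𝓞 K) = v.asIdeal) (l : K)
    (hl : v.valuation K l = WithZero.exp (-1 : ℤ)) (t : F) (n : ℕ)
    (ht : w.valuation F t ^ n = w.valuation F (algebraMap K F l)) (A : Set (F ≃ₐ[K] F))
    (hA : A.ncard ≤ n) (hsub : ∀ τ : F ≃ₐ[K] F, (∀ x : 𝓞 F, τ • x - x ∈ w.asIdeal) → τ ∈ A)
    (σ : F ≃ₐ[K] F) (hσ : σ ∈ A) (x : 𝓞 F) : σ • x - x ∈ w.asIdeal := by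
  have h1 := kx_inertia K F w v hv l hl t n ht
  have hs : (w.asIdeal.inertia Gal(F/K) : Set (F ≃ₐ[K] F)) ⊆ A := fun τ hτ => hsub τ hτ
  have heq := Set.eq_of_subset_of_ncard_le hs (hA.trans (h1.trans (le_of_eq rfl)))
    (Set.toFinite _)
  have h2 : σ ∈ (w.asIdeal.inertia Gal(F/K) : Set (F ≃ₐ[K] F)) := by
    rw [heq]; exact hσ
  exact h2 x

end Pool.Agent.MUXW
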