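import Pool.Agent.MUX.StWX
import Pool.Agent.MU3.W_XXG

/-!
# MUX, block W, module MEM (helper7): the elements `cW` are norms
-/

set_option autoImplicit false

open WeierstrassCurve Polynomial NumberField IsDedekindDomain

namespace Pool.Agent.MUXW

open _root_.MU3 Pool.Agent.MU3A Pool.Agent.MU3B Pool.Agent.MU3C Pool.Agent.RI Pool.Agent.RID
open Pool.Agent.MUX Pool.Agent.MUXU
open Pool.Agent.MU3V (cls Sub GD algDF)
open Pool.Agent.MU3V.XXG (abs_ext incl)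

noncomputable section

namespace Mem

variable {A B : ℤ} {F : IntermediateField (kk A B) ℂ} {D : IntermediateField ℚ ℂ}

theorem ext1_one (h : kk A B ≤ D) (σ : F ≃ₐ[kk A B] F) :
    letI := algC h
    σ ∈ GD h F ↔ Ext1 h (1 : D ≃ₐ[kk A B] D) σ := by
  constructor
  · intro hσ y hy
    exact congrArg Subtype.val (hσ (y : ℂ) y.2 hy)
  · intro hσ y hD hy
    exact Subtype.ext (hσ ⟨y, hD⟩ hy)

theorem ext1_iff (h : kk A B ≤ D) (hs : Sub D F) :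
    letI := algC h
    ∀ (τ : D ≃ₐ[kk A B] D) (σ : F ≃ₐ[kk A B] F),
      Ext1 h τ σ ↔ ∀ y : D, incl h hs (τ y) = σ (incl h hs y) := by
  intro τ σ
  constructor
  · intro hE y
    exact Subtype.ext (hE y (hs y y.2)).symm
  · intro hE y hy
    exact (congrArg Subtype.val (hE y)).symm

theorem ext1_mul (h : kk A B ≤ D) (hs : Sub D F) :
    letI := algC h
    ∀ (τ τ' : D ≃ₐ[kk A B] D) (σ σ' : F ≃ₐ[kk A B] F), Ext1 h τ σ → Ext1 h τ' σ' →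
      Ext1 h (τ * τ') (σ * σ') := by
  intro τ τ' σ σ' h1 h2
  let _ := algC h
  rw [ext1_iff h hs] at h1 h2 ⊢
  intro y
  rw [AlgEquiv.mul_apply, AlgEquiv.mul_apply, h1, h2]

theorem ext1_inv (h : kk A B ≤ D) (hs : Sub D F) :
    letI := algC h
    ∀ (τ : D ≃ₐ[kk A B] D) (σ : F ≃ₐ[kk A B] F), Ext1 h τ σ → Ext1 h τ⁻¹ σ⁻¹ := by
  intro τ σ h1
  let _ := algC h
  rw [ext1_iff h hs] at h1 ⊢
  intro y
  have h2 := h1 ((τ⁻¹ : D ≃ₐ[kk A B] D) y)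
  rw [← AlgEquiv.mul_apply, mul_inv_cancel, AlgEquiv.one_apply] at h2
  rw [h2, ← AlgEquiv.mul_apply, inv_mul_cancel, AlgEquiv.one_apply]

/-- the product in `F` -/
def PP (h : kk A B ≤ D) (θ : F) (τ : letI := algC h; D ≃ₐ[kk A B] D) : F :=
  ∏ᶠ σ : {σ : F ≃ₐ[kk A B] F // Ext1 h τ σ}, (σ.1 θ : F)

theorem coe_PP [FiniteDimensional (kk A B) F] (h : kk A B ≤ D) (θ : F)
    (τ : letI := algC h; D ≃ₐ[kk A B] D) : ((PP h θ τ : F) : ℂ) = cWt h θ τ :=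
  map_finprod (F.val : F →ₐ[kk A B] ℂ) (Set.toFinite _)

theorem act_PP [FiniteDimensional (kk A B) F] (h : kk A B ≤ D) (hs : Sub D F) (θ : F) :
    letI := algC h
    ∀ (τ τ' : D ≃ₐ[kk A B] D) (s : F ≃ₐ[kk A B] F), Ext1 h τ' s →
      s (PP h θ τ) = PP h θ (τ' * τ) := by
  intro τ τ' s hs'
  let _ := algC h
  have h1 : s (PP h θ τ) = ∏ᶠ σ : {σ : F ≃ₐ[kk A B] F // Ext1 h τ σ}, s (σ.1 θ : F) :=
    map_finprod s (Set.toFinite _)
  rw [h1]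
  let e : {σ : F ≃ₐ[kk A B] F // Ext1 h τ σ} ≃ {σ : F ≃ₐ[kk A B] F // Ext1 h (τ' * τ) σ} :=
    { toFun := fun σ => ⟨s * σ.1, ext1_mul h hs _ _ _ _ hs' σ.2⟩
      invFun := fun σ => ⟨s⁻¹ * σ.1, by
        have h2 := ext1_mul h hs _ _ _ _ (ext1_inv h hs _ _ hs') σ.2
        rwa [inv_mul_cancel_left] at h2⟩
      left_inv := fun σ => Subtype.ext (inv_mul_cancel_left _ _)
      right_inv := fun σ => Subtype.ext (mul_inv_cancel_left _ _) }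
  exact finprod_comp_equiv (f := fun σ : {σ : F ≃ₐ[kk A B] F // Ext1 h (τ' * τ) σ} =>
    (σ.1 θ : F)) e

theorem mem_D [FiniteDimensional (kk A B) F] [IsGalois (kk A B) F] (h : kk A B ≤ D)
    (x : F) (hx : ∀ σ ∈ GD h F, σ x = x) : (x : ℂ) ∈ D := by
  let E : IntermediateField (kk A B) F :=
    (IntermediateField.extendScalars h).comap F.val
  have hE : ∀ y : F, y ∈ E ↔ (y : ℂ) ∈ D := fun y => Iff.rfl
  rw [← hE, ← IsGalois.fixedField_fixingSubgroup E, IntermediateField.mem_fixedField_iff]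
  intro σ hσ
  rw [IntermediateField.mem_fixingSubgroup_iff] at hσ
  exact hx σ fun y hD hy => hσ ⟨y, hy⟩ ((hE _).2 hD)

end Mem

open Mem in
theorem ty_MEM : Sy_MEM := by
  intro A B F _ _ hc D h hs θ hθ
  let _ := algC h
  obtain ⟨e1, e2⟩ := abs_ext hc (incl h hs)
  have a1 : cW h θ = cWt h θ 1 :=
    finprod_comp_equiv (f := fun σ : {σ : F ≃ₐ[kk A B] F // Ext1 h (1 : D ≃ₐ[kk A B] D) σ} =>
      ((σ.1 θ : F) : ℂ)) (Equiv.subtypeEquivRight (ext1_one h))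
  have a4 : ∀ τ : D ≃ₐ[kk A B] D, ∃ σ : F ≃ₐ[kk A B] F, Ext1 h τ σ := by
    intro τ
    obtain ⟨σ, hσ⟩ := e2 τ
    exact ⟨σ, (ext1_iff h hs τ σ).2 hσ⟩
  refine ⟨a1, fun τ => ⟨?_, ?_⟩, ?_, a4, ?_⟩
  · rw [← coe_PP]
    refine mem_D h _ fun σ hσ => ?_
    have h1 := act_PP h hs θ τ 1 σ ((ext1_one h σ).1 hσ)
    rwa [one_mul] at h1
  · refine finprod_induction (fun z : ℂ => z ≠ 0) one_ne_zero (fun _ _ => mul_ne_zero) ?_
    intro σ h0
    apply hθ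
    have h1 : (σ.1 θ : F) = 0 := Subtype.ext h0
    exact (map_eq_zero σ.1).1 h1
  · intro τ h1
    obtain ⟨s, hs'⟩ := a4 τ
    have h2 := act_PP h hs θ 1 τ s hs'
    rw [mul_one] at h2
    have hy : cW h θ ∈ F := hs _ h1
    have h3 := hs' ⟨cW h θ, h1⟩ hy
    rw [← h3, ← coe_PP, ← h2]
    have e : (⟨cW h θ, hy⟩ : F) = PP h θ 1 := Subtype.ext (a1.trans (coe_PP h θ 1).symm)
    rw [e]
  · intro σ
    obtain ⟨τ, hτ⟩ := e1 σ
    exact ⟨τ, (ext1_iff h hs τ σ).2 hτ⟩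

end

end Pool.Agent.MUXW
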