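import Pool.Agent.MUX.StWX
import Pool.Agent.MU3.A_INT

/-!
# MUX, block W, module PRQ (helper37): the ring of integers of `k`

`𝓞 k = emb O` for any imaginary quadratic field `k = ℚ(w)` (`CQ A B`), and the ideals of `O` and of `𝓞 k` correspond.
-/

set_option autoImplicit false

open NumberField

namespace Pool.Agent.MUXW

open _root_.MU3 Pool.Agent.MU3A Pool.Agent.MU3B Pool.Agent.MU3C Pool.Agent.RI Pool.Agent.RID
open Pool.Agent.MUX Pool.Agent.MUXU

noncomputable section

namespace PrqX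

open Pool.Agent.MU3A.INT (conj_w int_of_isIntegral int_of_sq)

variable {A B : ℤ}

/-- the equation of `w` -/
abbrev Wsq (A B : ℤ) : Prop := wC A B ^ 2 = A + B * wC A B

lemma w_int (h : Wsq A B) : IsIntegral ℤ (wC A B) := by
  refine ⟨Polynomial.X ^ 2 - Polynomial.C B * Polynomial.X - Polynomial.C A, ?_, ?_⟩
  · monicity!
  · rw [Polynomial.eval₂_sub, Polynomial.eval₂_sub, Polynomial.eval₂_mul, Polynomial.eval₂_C,
      Polynomial.eval₂_C, Polynomial.eval₂_X, Polynomial.eval₂_pow, Polynomial.eval₂_X,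
      eq_intCast, eq_intCast]
    linear_combination h

lemma repr (h : Wsq A B) {x : ℂ} (hx : x ∈ kk A B) : ∃ s t : ℚ, x = s + t * wC A B := by
  have hQ : IsIntegral ℚ (wC A B) := (w_int h).tower_top
  have h1 : x ∈ (kk A B).toSubalgebra := hx
  rw [IntermediateField.adjoin_simple_toSubalgebra_of_isAlgebraic hQ.isAlgebraic] at h1
  clear hx
  induction h1 using Algebra.adjoin_induction with
  | mem y hy =>
    rw [Set.mem_singleton_iff] at hy
    exact ⟨0, 1, by rw [hy]; push_cast; ring⟩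
  | algebraMap r => exact ⟨r, 0, by simp⟩
  | add y z _ _ hy hz =>
    obtain ⟨s, t, rfl⟩ := hy
    obtain ⟨s', t', rfl⟩ := hz
    exact ⟨s + s', t + t', by push_cast; ring⟩
  | mul y z _ _ hy hz =>
    obtain ⟨s, t, rfl⟩ := hy
    obtain ⟨s', t', rfl⟩ := hz
    refine ⟨s * s' + t * t' * A, s * t' + t * s' + t * t' * B, ?_⟩
    push_cast
    linear_combination (t : ℂ) * t' * h

lemma emb_int (h : Wsq A B) (y : OO A B) : IsIntegral ℤ (emb y) := by
  unfold emb
  exact (isIntegral_algebraMap (R := ℤ) (x := y.re)).add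
    ((isIntegral_algebraMap (R := ℤ) (x := y.im)).mul (w_int h))

/-- `D` squarefree and `D u²` an integer: `u` is an integer -/
lemma int_of_squarefree {D m : ℤ} (hD : Squarefree D) {u : ℚ} (h : (D : ℚ) * u ^ 2 = m) :
    ∃ z : ℤ, u = z := by
  have hD0 : D ≠ 0 := hD.ne_zero
  have hden : (u.den : ℤ) ≠ 0 := by exact_mod_cast u.den_ne_zero
  have hq : (u.den : ℚ) ≠ 0 := by exact_mod_cast u.den_ne_zero
  have hu : u = (u.num : ℚ) / (u.den : ℚ) := (Rat.num_div_den u).symm
  have h1 : D * u.num ^ 2 = m * (u.den : ℤ) ^ 2 := by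
    have h2 : (D : ℚ) * (u.num : ℚ) ^ 2 = m * (u.den : ℚ) ^ 2 := by
      rw [← h, ← Rat.mul_den_eq_num u]
      ring
    exact_mod_cast h2
  have hcop : IsCoprime (u.den : ℤ) u.num := by
    rw [Int.isCoprime_iff_gcd_eq_one]
    have := u.reduced
    rw [Int.gcd_comm]
    simpa [Int.gcd] using this
  have h3 : (u.den : ℤ) ^ 2 ∣ D := by
    have h4 : (u.den : ℤ) ^ 2 ∣ D * u.num ^ 2 := ⟨m, by rw [h1]; ring⟩
    exact (hcop.pow).dvd_of_dvd_mul_right h4
  have h5 : IsUnit (u.den : ℤ) := hD _ (by rwa [pow_two] at h3)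
  have h6 : u.den = 1 := by
    have := Int.isUnit_iff.1 h5
    omega
  exact ⟨u.num, by rw [hu, h6]; simp⟩

lemma arith (h : CQ A B) {s t : ℚ} {T N : ℤ} (hT : 2 * s + B * t = T)
    (hN : s ^ 2 + B * s * t - A * t ^ 2 = N) : (∃ z : ℤ, s = z) ∧ ∃ z : ℤ, t = z := by
  rcases h.hB with hB | hB
  · obtain ⟨hsq, h4⟩ := h.fund0 hB
    subst hB
    have h1 : 2 * s = T := by rw [← hT]; push_cast; ring
    have h2 : s ^ 2 - A * t ^ 2 = N := by rw [← hN]; push_cast; ring
    have h3 : (A : ℚ) * (2 * t) ^ 2 = ((T ^ 2 - 4 * N : ℤ) : ℚ) := by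
      push_cast
      rw [← h1, ← h2]
      ring
    obtain ⟨u, hu⟩ := int_of_squarefree hsq h3
    rw [hu] at h3
    have h5 : A * u ^ 2 = T ^ 2 - 4 * N := by exact_mod_cast h3
    have hA4 : ¬ (4 : ℤ) ∣ A := by
      intro h6
      have h7 := hsq 2 (by norm_num; exact h6)
      have := Int.isUnit_iff.1 h7
      omega
    have hpar : Even T ∧ Even u := by
      rcases Int.even_or_odd T with hTe | hTo
      · refine ⟨hTe, ?_⟩
        by_contra hne
        rw [Int.not_even_iff_odd] at hne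
        obtain ⟨a, ha⟩ := hTe
        obtain ⟨b, hb⟩ := hne
        apply hA4
        have e : A * u ^ 2 = A + 4 * (A * (b ^ 2 + b)) := by rw [hb]; ring
        have e' : T ^ 2 = 4 * a ^ 2 := by rw [ha]; ring
        exact ⟨a ^ 2 - N - A * (b ^ 2 + b), by linarith⟩
      · exfalso
        rcases Int.even_or_odd u with hue | huo
        · obtain ⟨a, ha⟩ := hTo
          obtain ⟨b, hb⟩ := hue
          have e : A * u ^ 2 = 4 * (A * b ^ 2) := by rw [hb]; ring
          have e' : T ^ 2 = 4 * (a ^ 2 + a) + 1 := by rw [ha]; ring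
          omega
        · obtain ⟨a, ha⟩ := hTo
          obtain ⟨b, hb⟩ := huo
          apply h4
          have e : A * u ^ 2 = A + 4 * (A * (b ^ 2 + b)) := by rw [hb]; ring
          have e' : T ^ 2 = 4 * (a ^ 2 + a) + 1 := by rw [ha]; ring
          exact ⟨a ^ 2 + a - N - A * (b ^ 2 + b), by linarith⟩
    obtain ⟨⟨a, ha⟩, ⟨b, hb⟩⟩ := hpar
    refine ⟨⟨a, ?_⟩, ⟨b, ?_⟩⟩
    · rw [ha] at h1
      push_cast at h1
      linarith
    · rw [hb] at hu
      push_cast at hu
      linarith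
  · have hsq := h.fund1 hB
    subst hB
    have h1 : 2 * s + t = T := by rw [← hT]; push_cast; ring
    have h2 : s ^ 2 + s * t - A * t ^ 2 = N := by rw [← hN]; push_cast; ring
    have h3 : ((1 + 4 * A : ℤ) : ℚ) * t ^ 2 = ((T ^ 2 - 4 * N : ℤ) : ℚ) := by
      push_cast
      rw [← h1, ← h2]
      ring
    obtain ⟨u, hu⟩ := int_of_squarefree hsq h3
    rw [hu] at h3
    have h5 : (1 + 4 * A) * u ^ 2 = T ^ 2 - 4 * N := by exact_mod_cast h3
    have h7 : Even (T - u) := by
      by_contra hodd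
      rw [Int.not_even_iff_odd] at hodd
      obtain ⟨k, hk⟩ := hodd
      have hT1 : T = u + 2 * k + 1 := by linarith
      rw [hT1] at h5
      have h8 : (1 + 4 * A) * u ^ 2 - ((u + 2 * k + 1) ^ 2 - 4 * N) =
          2 * (2 * (A * u ^ 2) - 2 * k ^ 2 - 2 * u * k - u - 2 * k + 2 * N) - 1 := by ring
      omega
    obtain ⟨s', hs'⟩ := h7
    refine ⟨⟨s', ?_⟩, ⟨u, hu⟩⟩
    have hT1 : T = u + s' + s' := by linarith
    rw [hT1, hu] at h1
    push_cast at h1
    linarith

/-- an element of `k` integral over the integers is in `emb O` -/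
lemma mem_of_int (hc : CQ A B) (h : Wsq A B) {x : ℂ} (hx : x ∈ kk A B) (hint : IsIntegral ℤ x) :
    ∃ y : OO A B, x = emb y := by
  obtain ⟨s, t, rfl⟩ := repr h hx
  have hconj : IsIntegral ℤ ((starRingEnd ℂ) ((s : ℂ) + t * wC A B)) :=
    hint.map ((starRingEnd ℂ).toIntAlgHom)
  have hc' : (starRingEnd ℂ) ((s : ℂ) + t * wC A B) = s + t * (B - wC A B) := by
    rw [map_add, map_mul, conj_w]
    simp
  rw [hc'] at hconj
  obtain ⟨T, hT⟩ := int_of_isIntegral (r := 2 * s + B * t) (by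
    have := hint.add hconj
    have e : (s : ℂ) + t * wC A B + (s + t * (B - wC A B)) = ((2 * s + B * t : ℚ) : ℂ) := by
      push_cast
      ring
    rwa [e] at this)
  obtain ⟨N, hN⟩ := int_of_isIntegral (r := s ^ 2 + B * s * t - A * t ^ 2) (by
    have := hint.mul hconj
    have e : ((s : ℂ) + t * wC A B) * (s + t * (B - wC A B)) =
        ((s ^ 2 + B * s * t - A * t ^ 2 : ℚ) : ℂ) := by
      push_cast
      linear_combination (-(t : ℂ) ^ 2) * h
    rwa [e] at this)
  obtain ⟨⟨s', hs'⟩, ⟨t', ht'⟩⟩ := arith hc hT hN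
  refine ⟨⟨s', t'⟩, ?_⟩
  rw [hs', ht']
  simp [emb]

theorem ext' {x y : 𝓞 (kk A B)} (h : ((x : kk A B) : ℂ) = ((y : kk A B) : ℂ)) : x = y :=
  RingOfIntegers.ext (Subtype.ext h)

end PrqX

open PrqX in
theorem ty_PRQ (h : Pool.Agent.MUXV.Sq_EMB) : Sy_PRQ := by
  intro A B hc
  obtain ⟨hmul, hadd, -, hint, -, hinj, hw, -⟩ := h A B ⟨hc.hB, hc.neg, hc.fund1, hc.fund0⟩
  have h1 : emb (1 : OO A B) = 1 := by simpa using hint 1
  have h0 : emb (0 : OO A B) = 0 := by simpa using hint 0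
  have hI : ∀ y : OO A B, IsIntegral ℤ (ek y) := by
    intro y
    have h2 : IsIntegral ℤ (emb y) := emb_int hw y
    have h3 : algebraMap (kk A B) ℂ (ek y) = emb y := rfl
    rw [← h3] at h2
    exact (isIntegral_algebraMap_iff (algebraMap (kk A B) ℂ).injective).1 h2
  let phi : OO A B →+* 𝓞 (kk A B) :=
    { toFun := fun y => ⟨ek y, hI y⟩
      map_one' := ext' h1
      map_zero' := ext' h0
      map_add' := fun x y => ext' (hadd x y)
      map_mul' := fun x y => ext' (hmul x y) }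
  have hval : ∀ y, ((phi y : kk A B) : ℂ) = emb y := fun y => rfl
  have hsurj : ∀ x : 𝓞 (kk A B), ∃ y : OO A B, ((x : kk A B) : ℂ) = emb y := by
    intro x
    have h2 : IsIntegral ℤ ((x : kk A B) : ℂ) := by
      have h3 := x.isIntegral_coe
      exact (isIntegral_algebraMap_iff (algebraMap (kk A B) ℂ).injective).2 h3
    exact mem_of_int hc hw (x : kk A B).2 h2
  have hsurj' : Function.Surjective phi := by
    intro x
    obtain ⟨y, hy⟩ := hsurj x
    exact ⟨y, ext' hy.symm⟩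
  refine ⟨hsurj, fun y => ⟨phi y, hval y⟩, fun P => ⟨P.comap phi, ?_, ?_⟩⟩
  · apply Nat.card_congr
    refine Equiv.ofBijective (Ideal.quotientMap P phi le_rfl) ⟨?_, ?_⟩
    · exact Ideal.quotientMap_injective
    · exact Ideal.quotientMap_surjective hsurj'
  · intro x y hxy
    have h2 : x = phi y := ext' hxy
    rw [h2, Ideal.mem_comap]

end

end Pool.Agent.MUXW
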