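import Pool.Agent.MUX.StWX

/-!
# MUX, block W: module SUC, the element `cW h θ` is a unit outside `S`
-/

set_option autoImplicit false

open WeierstrassCurve Polynomial NumberField IsDedekindDomain

namespace Pool.Agent.MUXW

open _root_.MU3 Pool.Agent.MU3A Pool.Agent.MU3B Pool.Agent.MU3C Pool.Agent.RI Pool.Agent.RID
open Pool.Agent.MUX Pool.Agent.MUXU
open Pool.Agent.MU3V (cls Sub GD algDF)
open Pool.Agent.MUXV (GR InK tX CMO Ovr)

noncomputable section

namespace SUC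

/-- a positive integer all of whose prime divisors are units of `V` is a unit of `V` -/
lemma v_nat {V : ValuationSubring ℂ} : ∀ n : ℕ, n ≠ 0 →
    (∀ p : ℕ, p.Prime → p ∣ n → V.valuation (p : ℂ) = 1) → V.valuation (n : ℂ) = 1 := by
  intro n
  induction n using Nat.strong_induction_on with
  | _ n ih =>
    intro hn hp
    by_cases h1 : n = 1
    · rw [h1, Nat.cast_one, map_one]
    have hq := Nat.minFac_prime h1
    obtain ⟨k, hk⟩ := Nat.minFac_dvd n
    have hk0 : k ≠ 0 := by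
      rintro rfl
      exact hn (by rw [hk, mul_zero])
    have hkn : k < n := by
      have h2 : 2 ≤ n.minFac := hq.two_le
      have h3 : 2 * k ≤ n.minFac * k := Nat.mul_le_mul_right k h2
      rw [← hk] at h3
      omega
    have hkd : k ∣ n := ⟨n.minFac, by rw [mul_comm]; exact hk⟩
    have h3 := ih k hkn hk0 (fun p hp1 hp2 => hp p hp1 (hp2.trans hkd))
    have h4 := hp _ hq (Nat.minFac_dvd n)
    rw [hk, Nat.cast_mul, map_mul, h3, mul_one]
    exact h4

lemma v_int {V : ValuationSubring ℂ} {n : ℤ} (hn : n ≠ 0)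
    (hp : ∀ p : ℕ, p.Prime → (p : ℤ) ∣ n → V.valuation (p : ℂ) = 1) :
    V.valuation (n : ℂ) = 1 := by
  have h1 := v_nat (V := V) n.natAbs (Int.natAbs_ne_zero.2 hn)
    (fun p hp1 hp2 => hp p hp1 (Int.natCast_dvd.2 hp2))
  obtain ⟨m, hm | hm⟩ := n.eq_nat_or_neg
  · rw [hm] at h1 ⊢
    simpa using h1
  · rw [hm] at h1 ⊢
    have h2 : (((-(m : ℤ) : ℤ)) : ℂ) = -(m : ℂ) := by push_cast; rfl
    rw [h2, Valuation.map_neg]
    simpa using h1

lemma v_one_iff (V : ValuationSubring ℂ) (x : ℂ) :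
    V.valuation x = 1 ↔ x ≠ 0 ∧ x ∈ V ∧ x⁻¹ ∈ V := by
  constructor
  · intro h
    have hx : x ≠ 0 := by
      rintro rfl
      rw [map_zero] at h
      exact zero_ne_one h
    refine ⟨hx, ?_, ?_⟩
    · rw [← V.valuation_le_one_iff, h]
    · rw [← V.valuation_le_one_iff, map_inv₀, h, inv_one]
  · rintro ⟨hx, h1, h2⟩
    rw [← V.valuation_le_one_iff] at h1 h2
    refine le_antisymm h1 ?_
    by_contra h3
    rw [not_le] at h3
    have h4 : V.valuation x * V.valuation x⁻¹ < 1 :=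
      mul_lt_one_of_lt_of_le h3 h2
    rw [← map_mul, mul_inv_cancel₀ hx, map_one] at h4
    exact lt_irrefl _ h4

/-- the two copies of `CQ` -/
theorem cqF {A B : ℤ} (h : Pool.Agent.MUX.CQ A B) : Pool.Agent.MUXF.CQ A B :=
  ⟨h.hB, h.neg, h.fund1, h.fund0⟩

lemma v_comap (V : ValuationSubring ℂ) (s : ℂ ≃+* ℂ) (x : ℂ) :
    (V.comap (s : ℂ →+* ℂ)).valuation x = 1 ↔ V.valuation (s x) = 1 := by
  rw [v_one_iff, v_one_iff, ValuationSubring.mem_comap, ValuationSubring.mem_comap]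
  have h1 : (s : ℂ →+* ℂ) x = s x := rfl
  have h2 : (s : ℂ →+* ℂ) x⁻¹ = (s x)⁻¹ := map_inv₀ s x
  rw [h1, h2]
  simp

/-- the ray class fields are algebraic -/
lemma alg (hEMB : Pool.Agent.MUXV.Sq_EMB) {A B : ℤ} (hC : CQ A B)
    (F : IntermediateField (kk A B) ℂ) [FiniteDimensional (kk A B) F] :
    Algebra.IsAlgebraic ℚ (F.restrictScalars ℚ) := by
  obtain ⟨-, -, -, -, -, -, wsq, -⟩ := hEMB A B (cqF hC)
  have h1 : IsIntegral ℚ (wC A B) := by
    refine ⟨X ^ 2 - C (B : ℚ) * X - C (A : ℚ), ?_, ?_⟩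
    · monicity!
    · simp only [eval₂_sub, eval₂_mul, eval₂_pow, eval₂_X, eval₂_C]
      rw [wsq]
      simp
  have h2 : FiniteDimensional ℚ (kk A B) := IntermediateField.adjoin.finiteDimensional h1
  have h3 : FiniteDimensional ℚ F := FiniteDimensional.trans ℚ (kk A B) F
  have h4 : FiniteDimensional ℚ (F.restrictScalars ℚ) := h3
  exact Algebra.IsAlgebraic.of_finite ℚ _

/-- automorphisms of `F` extend -/
lemma extA (hAUE : Su_AUE) {A B : ℤ} (F : IntermediateField (kk A B) ℂ)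
    (hF : Algebra.IsAlgebraic ℚ (F.restrictScalars ℚ)) (σ : F ≃ₐ[kk A B] F) :
    ∃ s : ℂ ≃+* ℂ, ∀ x : F, s (x : ℂ) = ((σ x : F) : ℂ) := by
  obtain ⟨s, hs⟩ := hAUE (F.restrictScalars ℚ) hF
    { toFun := fun x => ((σ ⟨x.1, x.2⟩ : F) : ℂ)
      map_one' := by
        change ((σ (1 : F) : F) : ℂ) = 1
        rw [map_one]; rfl
      map_mul' := fun x y => by
        change ((σ ((⟨x.1, x.2⟩ : F) * ⟨y.1, y.2⟩) : F) : ℂ) = _
        rw [map_mul]; rfl
      map_zero' := by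
        change ((σ (0 : F) : F) : ℂ) = 0
        rw [map_zero]; rfl
      map_add' := fun x y => by
        change ((σ ((⟨x.1, x.2⟩ : F) + ⟨y.1, y.2⟩) : F) : ℂ) = _
        rw [map_add]; rfl }
  exact ⟨s, fun x => hs ⟨x.1, x.2⟩⟩

end SUC

open SUC in
/-- `cW h θ` is a unit outside `S` -/
theorem ty_SUC (hEXT : Pool.Agent.MU3V.Sv_EXT) (hTHU : Pool.Agent.MUXV.Sq_THU)
    (hTOR : Pool.Agent.MUXV.Sq_TOR) (hEMB : Pool.Agent.MUXV.Sq_EMB) (hGRB : Sy_GRB)
    (hAUE : Su_AUE) : Sy_SUC := by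
  intro A B hC T L Om hL
  obtain ⟨n₀, hn₀, hg⟩ := hGRB A B hC T ⊤ L Om hL
  refine ⟨n₀, hn₀, ?_⟩
  intro m hm hmu a H ha ham hH S h2S haS hmS θ hθ D _ hk _ c hc v hv
  obtain ⟨emul, -, -, eint, -, einj, -, -, -, -, -, nm0, -⟩ := hEMB A B (cqF hC)
  have embm : emb m ≠ 0 := by
    intro h0
    apply hm
    apply einj
    rw [h0]
    have := eint 0
    simpa using this.symm
  obtain ⟨V, hV⟩ := hEXT D (algebraMap D ℂ) v
  have hS : ∀ p ∈ S, V.valuation (p : ℂ) = 1 := by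
    intro p hp
    have h1 : v.valuation D (p : D) = 1 := by
      have h3 : ¬ (v.valuation D (p : D) < 1) := by
        intro h4
        apply hv
        refine ⟨p, hp, ?_⟩
        rw [← HeightOneSpectrum.valuation_lt_one_iff_mem (K := D) v (p : 𝓞 D)]
        simpa using h4
      refine le_antisymm ?_ (not_lt.1 h3)
      have h5 := HeightOneSpectrum.valuation_le_one (K := D) v (p : 𝓞 D)
      simpa using h5
    have h2 := ((hV (p : D)).2.2).2 h1
    simpa using h2
  have vn : V.valuation (n₀ : ℂ) = 1 := v_nat n₀ hn₀ (fun p hp1 hp2 => hS p (h2S p hp1 hp2))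
  have va : V.valuation (a : ℂ) = 1 := v_int ha (fun p hp1 hp2 => hS p (haS p hp1 hp2))
  have hm' : nm m ≠ 0 := fun h0 => hm ((nm0 m).1 h0)
  have vm : V.valuation ((nm m : ℤ) : ℂ) = 1 := v_int hm' (fun p hp1 hp2 => hS p (hmS p hp1 hp2))
  have hcmo : CMO A B L := by
    intro x z hz
    obtain ⟨y, -, rfl⟩ := (hL.mem z).1 hz
    exact (hL.mem _).2 ⟨x * y, trivial, by rw [emul]; ring⟩
  have key : ∀ s : ℂ ≃+* ℂ, V.valuation (s (ThetaH L H (Om / emb m))) = 1 := by
    intro s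
    rw [← v_comap]
    have vn' : (V.comap (s : ℂ →+* ℂ)).valuation (n₀ : ℂ) = 1 := by
      rw [v_comap, map_natCast]; exact vn
    have va' : (V.comap (s : ℂ →+* ℂ)).valuation (a : ℂ) = 1 := by
      rw [v_comap, map_intCast]; exact va
    have vm' : (V.comap (s : ℂ →+* ℂ)).valuation ((nm m : ℤ) : ℂ) = 1 := by
      rw [v_comap, map_intCast]; exact vm
    obtain ⟨W, ξ, hGR⟩ := (hg _ vn').2.2.2.2
    refine (hTHU _ L (1 / 12) W ξ hGR a H va' hH).1 _ ?_
    intro hE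
    have h3 := hTOR A B (cqF hC) _ W L _ _ ξ hGR hcmo m vm' _ (by
      rw [mul_left_comm, mul_div_cancel₀ _ embm, ← eint]
      exact hcmo _ _ ((hL.mem _).2 ⟨1, trivial, by
        have := eint 1
        rw [Int.cast_one, Int.cast_one] at this
        rw [this, mul_one]⟩)) hE
    obtain ⟨y, -, hy⟩ := (hL.mem _).1 h3
    have h4 : (a : ℂ) = emb (m * y) := by
      rw [emul]
      have h5 : Om * (a : ℂ) = Om * (emb m * emb y) := by
        have h6 : (a : ℂ) * (Om / emb m) * emb m = Om * emb y * emb m := by rw [hy]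
        rw [mul_assoc, div_mul_cancel₀ _ embm] at h6
        rw [mul_comm, h6]
        ring
      exact mul_left_cancel₀ hL.om_ne h5
    have h7 : (a : OO A B) = m * y := einj _ _ ((eint a).trans h4)
    exact hmu (ham.isUnit_of_dvd' ⟨y, h7⟩ dvd_rfl)
  have : FiniteDimensional (kk A B) (RF (sp m)) := T.fin (sp m) (by
    rw [Ne, Ideal.span_singleton_eq_bot]; exact hm)
  have hFa := alg hEMB hC (RF (sp m))
  rw [← (hV c).2.2]
  change V.valuation (c : ℂ) = 1
  rw [hc]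
  refine finprod_induction (fun y => V.valuation y = 1) (map_one _) ?_ ?_
  · intro y z hy hz
    rw [map_mul, hy, hz, one_mul]
  · intro σ
    obtain ⟨s, hs⟩ := extA hAUE (RF (sp m)) hFa (σ : RF (sp m) ≃ₐ[kk A B] RF (sp m))
    rw [← hs θ, hθ]
    exact key s

end

end Pool.Agent.MUXW
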