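import Pool.Agent.MUX.StWX
import Pool.Agent.MU3.BAll

/-!
# MUX, block W, module THC: conjugation of the values of `Θ_a`
-/

set_option autoImplicit false

open WeierstrassCurve Polynomial NumberField IsDedekindDomain

namespace Pool.Agent.MUXW

open _root_.MU3 Pool.Agent.MU3A Pool.Agent.MU3B Pool.Agent.MU3C Pool.Agent.RI Pool.Agent.RID
open Pool.Agent.MUX Pool.Agent.MUXU
open Pool.Agent.MU3V (cls Sub GD algDF)
open Pool.Agent.MUXV (GR InK tX CMO Ovr)

noncomputable section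

namespace THC

/-- `Φ` and differences -/
lemma sub_mem_iff {σ : ℂ ≃+* ℂ} {L L' : PeriodPair} {Φ : ℂ → ℂ} (hΦ : IsPhi σ L L' Φ)
    (q q' : ℂ) : Φ q - Φ q' ∈ L'.lattice ↔ q - q' ∈ L.lattice := by
  have h1 := hΦ.add (q - q') q'
  rw [sub_add_cancel] at h1
  rw [← hΦ.mem (q - q')]
  constructor
  · intro h
    have e : Φ (q - q') = (Φ q - Φ q') - (Φ q - Φ (q - q') - Φ q') := by ring
    rw [e]
    exact sub_mem h h1
  · intro h
    have e : Φ q - Φ q' = Φ (q - q') + (Φ q - Φ (q - q') - Φ q') := by ring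
    rw [e]
    exact add_mem h h1

/-- `Φ` and sums -/
lemma add_mem_iff {σ : ℂ ≃+* ℂ} {L L' : PeriodPair} {Φ : ℂ → ℂ} (hΦ : IsPhi σ L L' Φ)
    (q q' : ℂ) : Φ q + Φ q' ∈ L'.lattice ↔ q + q' ∈ L.lattice := by
  have h1 := hΦ.add q q'
  rw [← hΦ.mem (q + q')]
  constructor
  · intro h
    have e : Φ (q + q') = (Φ q + Φ q') + (Φ (q + q') - Φ q - Φ q') := by ring
    rw [e]
    exact add_mem h h1
  · intro h
    have e : Φ q + Φ q' = Φ (q + q') - (Φ (q + q') - Φ q - Φ q') := by ring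
    rw [e]
    exact sub_mem h h1

/-- an integer multiple of an element of the lattice -/
lemma int_mul_mem (L : PeriodPair) (n : ℤ) {w : ℂ} (hw : w ∈ L.lattice) :
    (n : ℂ) * w ∈ L.lattice := by
  have h := L.lattice.smul_mem n hw
  rwa [zsmul_eq_mul] at h

/-- the image of a half system -/
lemma half {σ : ℂ ≃+* ℂ} {L L' : PeriodPair} {Φ : ℂ → ℂ} (hΦ : IsPhi σ L L' Φ)
    (hn : ∀ (n : ℤ) (z : ℂ), (n : ℂ) * Φ z ∈ L'.lattice ↔ (n : ℂ) * z ∈ L.lattice) (a : ℤ)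
    (H : Finset ℂ) (hH : IsHalf L a H) : IsHalf L' a (H.image Φ) := by
  refine ⟨?_, ?_, ?_, ?_, ?_⟩
  · intro q hq
    obtain ⟨p, hp, rfl⟩ := Finset.mem_image.1 hq
    exact (hn a p).2 (hH.mem p hp)
  · intro q hq h
    obtain ⟨p, hp, rfl⟩ := Finset.mem_image.1 hq
    have h2 := (hn 2 p).1 (by push_cast; exact h)
    push_cast at h2
    exact hH.ne p hp h2
  · intro q hq q' hq' h
    obtain ⟨p, hp, rfl⟩ := Finset.mem_image.1 hq
    obtain ⟨p', hp', rfl⟩ := Finset.mem_image.1 hq'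
    rw [hH.inj p hp p' hp' ((sub_mem_iff hΦ p p').1 h)]
  · intro q hq q' hq' h
    obtain ⟨p, hp, rfl⟩ := Finset.mem_image.1 hq
    obtain ⟨p', hp', rfl⟩ := Finset.mem_image.1 hq'
    exact hH.neg p hp p' hp' ((add_mem_iff hΦ p p').1 h)
  · intro u hu hu0
    obtain ⟨z, hz⟩ := hΦ.surj u
    have h1 : (a : ℂ) * z ∈ L.lattice := by
      rw [← hn a z]
      have e : (a : ℂ) * Φ z = (a : ℂ) * u + (a : ℂ) * (Φ z - u) := by ring
      rw [e]
      exact add_mem hu (int_mul_mem L' a hz)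
    have h2 : z ∉ L.lattice := by
      intro h3
      apply hu0
      have e : u = Φ z - (Φ z - u) := by ring
      rw [e]
      exact sub_mem ((hΦ.mem z).2 h3) hz
    obtain ⟨q, hq, h4⟩ := hH.surj z h1 h2
    refine ⟨Φ q, Finset.mem_image_of_mem Φ hq, ?_⟩
    rcases h4 with h4 | h4
    · left
      have e : u - Φ q = (Φ z - Φ q) - (Φ z - u) := by ring
      rw [e]
      exact sub_mem ((sub_mem_iff hΦ z q).2 h4) hz
    · right
      have e : u + Φ q = (Φ z + Φ q) - (Φ z - u) := by ring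
      rw [e]
      exact sub_mem ((add_mem_iff hΦ z q).2 h4) hz

end THC

open THC in
theorem ty_THC (h1 : Su_PHI) (h2 : Su_TSN) : Sy_THC := by
  intro σ L L' hc a H H' _ hH hH' z z' hz hz' hzz
  obtain ⟨Φ, hΦ⟩ := h1 σ L L' hc
  obtain ⟨hn, -⟩ := h2 σ L L' Φ hc hΦ
  have hH2 := half hΦ hn a H hH
  have hpL : ∀ p ∈ H, p ∉ L.lattice := by
    intro p hp h
    apply hH.ne p hp
    rw [two_mul]
    exact add_mem h h
  have hΦz : Φ z ∉ L'.lattice := fun h => hz ((hΦ.mem z).1 h)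
  have e1 : σ (ThetaH L H z) = ThetaH L' (H.image Φ) (Φ z) := by
    unfold ThetaH
    rw [map_prod, Finset.prod_image]
    · refine Finset.prod_congr rfl fun p hp => ?_
      rw [map_sub, hΦ.P z hz, hΦ.P p (hpL p hp)]
    · intro p hp p' hp' h
      have h3 : Φ p - Φ p' ∈ L'.lattice := by
        have h4 : Φ p - Φ p' = 0 := sub_eq_zero.2 h
        rw [h4]
        exact zero_mem _
      exact hH.inj p hp p' hp' ((sub_mem_iff hΦ p p').1 h3)
  obtain ⟨i1, i2, i3⟩ := b_TIN L' (a : ℂ) H' (H.image Φ) hH' hH2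
  obtain ⟨-, j2, j3⟩ := b_TIN L' (a : ℂ) (H.image Φ) H' hH2 hH'
  rw [e1, i1]
  have h5 : L'.weierstrassP z' = L'.weierstrassP (Φ z) := by rw [hzz, hΦ.P z hz]
  rcases b_NEQ L' (Φ z) z' hΦz hz' h5 with h6 | h6
  · have e2 : z' = Φ z + (z' - Φ z) := by ring
    rw [e2, j3 _ _ h6]
  · have e2 : z' = -Φ z + (z' + Φ z) := by ring
    rw [e2, j3 _ _ h6, j2]

end

end Pool.Agent.MUXW
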