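import Pool.Agent.MUX.StWX

/-!
# MUX, block W: module THG, the values of `Θ_a` at points of level `m`
-/

set_option autoImplicit false

open WeierstrassCurve Polynomial NumberField IsDedekindDomain

namespace Pool.Agent.MUXW

open _root_.MU3 Pool.Agent.MU3A Pool.Agent.MU3B Pool.Agent.MU3C Pool.Agent.RI Pool.Agent.RID
open Pool.Agent.MUX Pool.Agent.MUXU
open Pool.Agent.MU3V (cls Sub GD algDF)
open Pool.Agent.MUXV (GR InK tX CMO Ovr)

noncomputable section

private lemma thg_wC {A B : ℤ} (h : CQ A B) : wC A B * wC A B = A + B * wC A B := by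
  have h1 : (0 : ℝ) ≤ (absD A B : ℝ) := by
    have := h.neg
    have h0 : 0 ≤ absD A B := by
      unfold absD
      omega
    exact_mod_cast h0
  have h2 : ((Real.sqrt (absD A B) : ℝ) : ℂ) ^ 2 = (absD A B : ℂ) := by
    rw [← Complex.ofReal_pow, Real.sq_sqrt h1]
    norm_num
  have h3 : Complex.I ^ 2 = -1 := Complex.I_sq
  have h4 : (absD A B : ℂ) = -((B : ℂ) ^ 2 + 4 * A) := by simp [absD]
  unfold wC
  linear_combination (Complex.I ^ 2 / 4) * h2 + ((absD A B : ℂ) / 4) * h3 - (1 / 4) * h4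

private lemma thg_mul {A B : ℤ} (h : CQ A B) (x y : OO A B) :
    emb (x * y) = emb x * emb y := by
  have h1 := thg_wC h
  simp only [emb, QuadraticAlgebra.re_mul, QuadraticAlgebra.im_mul]
  push_cast
  linear_combination (-(x.im : ℂ) * y.im) * h1

private lemma thg_fin {A B : ℤ} (hc : CQ A B) : FiniteDimensional ℚ (kk A B) := by
  have h0 : IsIntegral ℤ (wC A B) := by
    refine ⟨Polynomial.X ^ 2 - Polynomial.C B * Polynomial.X - Polynomial.C A, ?_, ?_⟩
    · monicity!
    · have := thg_wC hc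
      simp only [Polynomial.eval₂_sub, Polynomial.eval₂_mul, Polynomial.eval₂_pow,
        Polynomial.eval₂_X, Polynomial.eval₂_C]
      simp only [algebraMap_int_eq, eq_intCast]
      linear_combination this
  have h1 : IsIntegral ℚ (wC A B) := h0.tower_top
  exact IntermediateField.adjoin.finiteDimensional h1

private lemma thg_cj (s : ℂ ≃+* ℂ) {A B : ℤ} {b b' : Ideal (OO A B)} {L L' : PeriodPair}
    {om om' : ℂ} (hL : IsNL b L om) (hL' : IsNL b' L' om') (h : s (kap L) = kap L') :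
    IsCj s L L' := by
  have h1 : L'.g₂ = s L.g₂ := by
    unfold kap at h
    rw [map_div₀, map_sub, map_mul, map_one, map_ofNat, map_ofNat] at h
    have h2 : (1728 : ℂ) ≠ 0 := by norm_num
    field_simp at h
    linear_combination (-1 / 12 : ℂ) * h
  refine ⟨h1, ?_⟩
  have h3 := hL.nrm
  have h4 := hL'.nrm
  have h5 : s L.g₂ = -18 * s L.g₃ := by
    rw [h3, map_mul, map_neg, map_ofNat]
  rw [h4, h5] at h1
  linear_combination (-1 / 18 : ℂ) * h1

private lemma thg_wp (s : ℂ ≃+* ℂ) (L L' : PeriodPair) (z z' : ℂ) (h : s (xn L z) = xn L' z') :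
    L'.weierstrassP z' = s (L.weierstrassP z) := by
  unfold xn at h
  rw [map_sub, map_div₀, map_one, map_ofNat] at h
  linear_combination -h

theorem ty_THG (hTHC : Sy_THC) (hAUE : Su_AUE) (hAUF : Su_AUF) : Sy_THG := by
  intro A B hc T b₀ L om hL m hm a H ha hH z hz hz0
  have htor : Tor (sp m) L z := by
    intro x hx
    obtain ⟨t, rfl⟩ := Ideal.mem_span_singleton.1 hx
    obtain ⟨y, hy, hy'⟩ := (hL.mem _).1 hz
    rw [mul_comm m t, thg_mul hc, mul_assoc, hy']
    refine (hL.mem _).2 ⟨t * y, Ideal.mul_mem_left _ _ hy, ?_⟩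
    rw [thg_mul hc]
    ring
  have hk : kap L ∈ (RF (sp m) : IntermediateField (kk A B) ℂ) :=
    IntermediateField.subset_adjoin _ _ ⟨b₀, L, om, hL, Or.inl rfl⟩
  have hx : xn L z ∈ (RF (sp m) : IntermediateField (kk A B) ℂ) :=
    IntermediateField.subset_adjoin _ _ ⟨b₀, L, om, hL, Or.inr ⟨z, htor, hz0, rfl⟩⟩
  have hfk := thg_fin hc
  have hsp : sp m ≠ ⊥ := by
    rwa [Ne, Ideal.span_singleton_eq_bot]
  have hfF := T.fin (sp m) hsp
  let F : IntermediateField ℚ ℂ :=
    (RF (sp m) : IntermediateField (kk A B) ℂ).restrictScalars ℚ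
  have hFalg : Algebra.IsAlgebraic ℚ F := by
    have h1 : FiniteDimensional ℚ (RF (sp m) : IntermediateField (kk A B) ℂ) :=
      FiniteDimensional.trans ℚ (kk A B) (RF (sp m) : IntermediateField (kk A B) ℂ)
    have h2 : Algebra.IsAlgebraic ℚ (RF (sp m) : IntermediateField (kk A B) ℂ) := inferInstance
    exact h2
  have hz' : ThetaH L H z ∈ (RF (sp m) : IntermediateField (kk A B) ℂ) := by
    have h1 : ThetaH L H z ∈ F := by
      refine hAUF F hFalg _ fun s hs => ?_
      have h2 : s (kap L) = kap L := hs _ hk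
      have h3 : s (xn L z) = xn L z := hs _ hx
      exact hTHC s L L (thg_cj s hL hL h2) a H H ha hH hH z z hz0 hz0 (thg_wp s L L z z h3)
    exact h1
  refine ⟨hk, hx, hz', ?_⟩
  have main : ∀ (σ : (RF (sp m) : IntermediateField (kk A B) ℂ) ≃ₐ[kk A B] RF (sp m))
        (b' : Ideal (OO A B)) (L' : PeriodPair) (om' : ℂ) (H' : Finset ℂ) (z' : ℂ),
        IsNL b' L' om' → IsHalf L' a H' → z' ∉ L'.lattice →
        ((σ ⟨kap L, hk⟩ : (RF (sp m) : IntermediateField (kk A B) ℂ)) : ℂ) = kap L' →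
        ((σ ⟨xn L z, hx⟩ : (RF (sp m) : IntermediateField (kk A B) ℂ)) : ℂ) = xn L' z' →
        ((σ ⟨ThetaH L H z, hz'⟩ : (RF (sp m) : IntermediateField (kk A B) ℂ)) : ℂ) =
          ThetaH L' H' z' := by
    intro σ b' L' om' H' z' hL' hH' hz'' h1 h2
    let τ : F →+* ℂ :=
      ((algebraMap (RF (sp m) : IntermediateField (kk A B) ℂ) ℂ).comp (σ : _ →+* _) :
        (RF (sp m) : IntermediateField (kk A B) ℂ) →+* ℂ)
    obtain ⟨s, hs⟩ := hAUE F hFalg τ
    have h3 : s (kap L) = kap L' := (hs ⟨kap L, hk⟩).trans h1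
    have h4 : s (xn L z) = xn L' z' := (hs ⟨xn L z, hx⟩).trans h2
    have h5 := hTHC s L L' (thg_cj s hL hL' h3) a H H' ha hH hH' z z' hz0 hz''
      (thg_wp s L L' z z' h4)
    rw [← h5]
    exact (hs ⟨ThetaH L H z, hz'⟩).symm
  refine ⟨main, ?_⟩
  intro σ b hσ
  obtain ⟨h1, h2⟩ := hσ.pt b₀ L om hL z hz hz0
  exact main σ b₀ L om H (emb b * z) hL hH h1 (hσ.kap b₀ L om hL hk) (h2 hx)

end

end Pool.Agent.MUXW
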