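import Pool.Agent.MUX.StWX

/-!
# MUX, block W, module TOW: the norm in two steps
-/

set_option autoImplicit false

namespace Pool.Agent.MUXW

open _root_.MU3 Pool.Agent.MU3A Pool.Agent.MU3B Pool.Agent.MU3C Pool.Agent.RI Pool.Agent.RID
open Pool.Agent.MUX Pool.Agent.MUXU
open Pool.Agent.MU3V (cls Sub GD algDF)

noncomputable section

/-- the norm in two steps -/
theorem ty_TOW (hM : Sy_MEM) : Sy_TOW := by
  classical
  intro A B F hfd hgal hcomm D₀ D h₀ h hle hsub θ hθ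
  letI := algC h
  intro h1
  obtain ⟨-, -, m3, m4, m5⟩ := hM A B F hfd hgal hcomm D h hsub θ hθ
  have hfinF : Finite (F ≃ₐ[kk A B] F) := inferInstance
  have huniq : ∀ (σ : F ≃ₐ[kk A B] F) (τ τ' : D ≃ₐ[kk A B] D), Ext1 h τ σ → Ext1 h τ' σ →
      τ = τ' := by
    intro σ τ τ' e1 e2
    apply AlgEquiv.ext
    intro y
    exact Subtype.ext ((e1 y (hsub y y.2)).symm.trans (e2 y (hsub y y.2)))
  have hfinD : Finite (D ≃ₐ[kk A B] D) := by
    choose s hs using m4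
    refine Finite.of_injective s ?_
    intro τ τ' e
    refine huniq (s τ) τ τ' (hs τ) ?_
    rw [e]
    exact hs τ'
  have hfinNC : Finite (NC h D₀) := Subtype.finite
  letI : Fintype (F ≃ₐ[kk A B] F) := Fintype.ofFinite _
  letI : Fintype (GD h₀ F) := Fintype.ofFinite _
  letI : Fintype (NC h D₀) := Fintype.ofFinite _
  letI : ∀ g : NC h D₀, Fintype {σ : F ≃ₐ[kk A B] F // Ext1 h (g : D ≃ₐ[kk A B] D) σ} :=
    fun g => Fintype.ofFinite _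
  have e1 : ∀ g : NC h D₀, (((g : D ≃ₐ[kk A B] D) ⟨cW h θ, h1⟩ : D) : ℂ) =
      ∏ σ : {σ : F ≃ₐ[kk A B] F // Ext1 h (g : D ≃ₐ[kk A B] D) σ}, ((σ.1 θ : F) : ℂ) := by
    intro g
    rw [m3 g h1, cWt, finprod_eq_prod_of_fintype]
  rw [finprod_congr e1, finprod_eq_prod_of_fintype, ← Fintype.prod_sigma', cW,
    finprod_eq_prod_of_fintype]
  symm
  have hmem : ∀ p : Σ g : NC h D₀, {σ : F ≃ₐ[kk A B] F // Ext1 h (g : D ≃ₐ[kk A B] D) σ},
      p.2.1 ∈ GD h₀ F := by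
    rintro ⟨g, σ, hσ⟩ y hy0 hyF
    apply Subtype.ext
    have a1 := hσ ⟨y, hle hy0⟩ hyF
    have a2 := g.2 ⟨y, hle hy0⟩ hy0
    rw [a1]
    exact congrArg Subtype.val a2
  refine Fintype.prod_bijective (fun p => (⟨p.2.1, hmem p⟩ : GD h₀ F)) ⟨?_, ?_⟩ _ _ ?_
  · rintro ⟨g, σ, hσ⟩ ⟨g', σ', hσ'⟩ e
    have e2 : σ = σ' := congrArg (fun x : GD h₀ F => (x : F ≃ₐ[kk A B] F)) e
    subst e2
    have e3 : g = g' := Subtype.ext (huniq σ g g' hσ hσ')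
    subst e3
    rfl
  · rintro ⟨σ, hσ⟩
    obtain ⟨τ, hτ⟩ := m5 σ
    refine ⟨⟨⟨τ, ?_⟩, σ, hτ⟩, rfl⟩
    intro x hx
    apply Subtype.ext
    rw [← hτ x (hsub x x.2), hσ x hx (hsub x x.2)]
  · intro p
    rfl

end

end Pool.Agent.MUXW
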