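import Pool.Agent.MUX.StWX

/-!
# MUX, block W: module URA (good primes and their conjugates are unramified over `k`) (helper91)
-/

set_option autoImplicit false

open WeierstrassCurve Polynomial NumberField IsDedekindDomain
open scoped nonZeroDivisors Pointwise

namespace Pool.Agent.MUXW

open _root_.MU3 Pool.Agent.MU3A Pool.Agent.MU3B Pool.Agent.MU3C Pool.Agent.RI Pool.Agent.RID
open Pool.Agent.MUX Pool.Agent.MUXU

theorem ty_URA : Sy_URA := by
  intro p k L _ _ _ _ _ _ S v q hg v' hv'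
  have := v.isMaximal
  have := v.isPrime
  have := v'.isMaximal
  have := v'.isPrime
  set P : Ideal (𝓞 k) := v.asIdeal.under (𝓞 k) with hP
  have : v.asIdeal.LiesOver P := ⟨rfl⟩
  have : v'.asIdeal.LiesOver P := ⟨hv'.symm⟩
  have : P.IsMaximal := Ideal.IsMaximal.under (𝓞 k) v.asIdeal
  have hP0 : P ≠ ⊥ := (v.under (𝓞 k)).ne_bot
  have : Finite (𝓞 k ⧸ P) := Ideal.finiteQuotientOfFreeOfNeBot P hP0
  have : Finite P.ResidueField :=
    Finite.of_surjective (algebraMap (𝓞 k ⧸ P) P.ResidueField)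
      (Ideal.bijective_algebraMap_quotient_residueField P).2
  have hperf : PerfectField P.ResidueField := inferInstance
  have hc := Ideal.card_stabilizer_eq (G := L ≃ₐ[k] L) P v.asIdeal
  have h1 : Nat.card (MulAction.stabilizer (L ≃ₐ[k] L) v.asIdeal) = 1 := by
    rw [Nat.card_eq_one_iff_unique]
    refine ⟨⟨fun a b => ?_⟩, ⟨1⟩⟩
    have ha : a.1 = 1 := hg.free a.1 a.2
    have hb : b.1 = 1 := hg.free b.1 b.2
    exact Subtype.ext (ha.trans hb.symm)
  rw [h1] at hc
  have h2 : Ideal.ramificationIdxIn P (𝓞 L) = 1 := Nat.eq_one_of_mul_eq_one_right hc.symm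
  rw [Ideal.ramificationIdxIn_eq_ramificationIdx P v'.asIdeal (L ≃ₐ[k] L)] at h2
  exact h2

end Pool.Agent.MUXW
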