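import Pool.Agent.MUX.XCAll
import Pool.Agent.MU3.AVAll
import Pool.Agent.MU3.BAll
import Pool.Agent.MUX.W_ACM
import Pool.Agent.MUX.W_CXS
import Pool.Agent.MUX.W_DIS
import Pool.Agent.MUX.W_FRD
import Pool.Agent.MUX.W_FRH
import Pool.Agent.MUX.W_GRB
import Pool.Agent.MUX.W_HIT
import Pool.Agent.MUX.W_I1
import Pool.Agent.MUX.W_INV
import Pool.Agent.MUX.W_KER
import Pool.Agent.MUX.W_KOL
import Pool.Agent.MUX.W_MEM
import Pool.Agent.MUX.W_NRM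
import Pool.Agent.MUX.W_PRQ
import Pool.Agent.MUX.W_SUC
import Pool.Agent.MUX.W_THC
import Pool.Agent.MUX.W_THG
import Pool.Agent.MUX.W_TOW
import Pool.Agent.MUX.W_URA

/-!
# MUX, block W without hypotheses (helper3)
-/

set_option autoImplicit false

namespace Pool.Agent.MUXW

open Pool.Agent.MUXF Pool.Agent.MUXU Pool.Agent.MUXC Pool.Agent.MU3B Pool.Agent.MUXV Pool.Agent.MU3A

theorem z_ACM : Sy_ACM := ty_ACM q_EMB
theorem z_KER : Sy_KER := ty_KER q_EMB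
theorem z_THC : Sy_THC := ty_THC u_PHI u_TSN
theorem z_THG : Sy_THG := ty_THG z_THC u_AUE u_AUF
theorem z_GRB : Sy_GRB := ty_GRB c_NGR q_ALU
theorem z_INV : Sy_INV := ty_INV q_EMB
theorem z_FRH : Sy_FRH :=
  ty_FRH q_EMB u_DET c_FRX q_VQI q_ALU q_TOR q_CYQ q_DGI q_DGL z_GRB z_KER z_ACM
theorem z_MEM : Sy_MEM := ty_MEM
theorem z_TOW : Sy_TOW := ty_TOW z_MEM
theorem z_HIT : Sy_HIT := ty_HIT q_EMB u_DET
theorem z_CXS : Sy_CXS := ty_CXS z_HIT z_THG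
theorem z_SUC : Sy_SUC := ty_SUC MU3X.v_EXT q_THU q_TOR q_EMB z_GRB u_AUE
theorem z_DIS : Sy_DIS := ty_DIS b_TDI b_TIN z_THG z_KER q_EMB
theorem z_NRM : Sy_NRM := ty_NRM z_DIS z_KER z_ACM z_THG q_EMB
theorem z_I1 : Sy_I1 := ty_I1 z_NRM z_MEM
theorem z_PRQ : Sy_PRQ := ty_PRQ q_EMB
theorem z_FRD : Sy_FRD := ty_FRD z_FRH z_PRQ z_MEM MU3X.w_LOC MU3X.v_EXT
theorem z_URA : Sy_URA := ty_URA
theorem z_KOL : Sy_KOL := ty_KOL z_ACM z_KER z_THG z_GRB z_INV z_DIS z_PRQ z_FRD z_URA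

end Pool.Agent.MUXW
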