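import Pool.Agent.MUX.StYR

/-!
# Module MUXY_ALQ (helper25): algebraicity for all ideals
-/

set_option autoImplicit false

namespace Pool.Agent.MUXY

open _root_.MU3 Pool.Agent.MU3A Pool.Agent.MU3B Pool.Agent.MUXU OnePoint
open Pool.Agent.MUX (CQ CaseP nI cjI sp IsLI IsNL IsEI PhiI Reps TorX)
open Pool.Agent.MUXF (qb xf_ALG xf_IDL xf_NIM)

noncomputable section

namespace RALQ

theorem pne (a b : ℚ) : (Polynomial.X ^ 2 - Polynomial.C b * Polynomial.X - Polynomial.C a :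
    Polynomial ℚ) ≠ 0 := by
  intro h
  have h3 := congrArg (fun q => Polynomial.coeff q 2) h
  simp [Polynomial.coeff_C] at h3

theorem alg_wC {A B : ℤ} (hC : CQ A B) : IsAlgebraic ℚ (wC A B) := by
  have h1 := ((xf_ALG A B (cqF hC)).1 (⟨0, 1⟩ : OO A B) ⟨0, 1⟩).1
  have h2 : wC A B * wC A B = (A : ℂ) + B * wC A B := by
    have e1 : emb (⟨0, 1⟩ : OO A B) = wC A B := by simp [emb]
    have e2 : emb ((⟨0, 1⟩ : OO A B) * ⟨0, 1⟩) = (A : ℂ) + B * wC A B := by
      simp [emb]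
    rw [← e2, h1, e1]
  refine ⟨_, pne (A : ℚ) (B : ℚ), ?_⟩
  simp
  linear_combination h2

theorem alg_emb {A B : ℤ} (hC : CQ A B) (x : OO A B) : IsAlgebraic ℚ (emb x) := by
  have h1 := alg_wC hC
  unfold emb
  exact (isAlgebraic_intCast _).add ((isAlgebraic_intCast _).mul h1)

theorem emb_ne {A B : ℤ} (hC : CQ A B) {x : OO A B} (hx : x ≠ 0) : emb x ≠ 0 := fun h =>
  hx ((((xf_ALG A B (cqF hC)).2.1 x).1).1 h)

theorem alg_root {z : ℂ} {r : ℕ} (hr : r ≠ 0) (h : z ^ r = 1) : IsAlgebraic ℚ z := by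
  have h5 : IsAlgebraic ℚ (z ^ r) := by
    rw [h]; exact isAlgebraic_one
  exact h5.of_pow (Nat.pos_of_ne_zero hr)

theorem div_alg {x y : ℂ} (hx : IsAlgebraic ℚ x) (hy : IsAlgebraic ℚ y) :
    IsAlgebraic ℚ (x / y) := by
  rw [div_eq_mul_inv]
  exact hx.mul hy.inv

/-- the quotient of `om` by the one of the base point is algebraic -/
theorem part0 {A B : ℤ} (h7 : Sy_ALM) (hC : CQ A B) (hT : TorX A B)
    (LF : Pool.Agent.MUX2.LatFacts A B) {n : ℕ} {ι : Type} (hι : Finite ι) (R : Reps A B n ι)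
    (b : Ideal (OO A B)) (L : PeriodPair) (om : ℂ) (hL : IsNL b L om) :
    IsAlgebraic ℚ (om / R.om R.i0) := by
  obtain ⟨j, x, y, hx, hy, hxy⟩ := R.surj b hL.b_ne
  have h1 := (LF.eq b (R.b j) L (R.L j) om (R.om j) x y hL (R.nl j) hx hy hxy).2
  have h2 := (h7 A B hC hT n ι hι R j).2
  have hj : R.om j ≠ 0 := (R.nl j).om_ne
  have hi : R.om R.i0 ≠ 0 := (R.nl R.i0).om_ne
  have ex := emb_ne hC hx
  have ey := emb_ne hC hy
  have h3 : IsAlgebraic ℚ (om / R.om j) := by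
    rcases h1 with h1 | h1
    · have h4 : om / R.om j = emb x / emb y := by
        rw [div_eq_div_iff hj ey]
        linear_combination -h1
      rw [h4]
      exact div_alg (alg_emb hC x) (alg_emb hC y)
    · have h4 : om / R.om j = -(emb x / emb y) := by
        rw [← neg_div, div_eq_div_iff hj ey]
        linear_combination h1
      rw [h4]
      exact (div_alg (alg_emb hC x) (alg_emb hC y)).neg
  have h5 : om / R.om R.i0 = (om / R.om j) * (R.om j / R.om R.i0) := by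
    field_simp
  rw [h5]
  exact h3.mul h2

end RALQ

theorem ty_ALQ (h1 : Sy_NLD) (h2 : Sy_REX) (h3 : Sy_LAF) (h4 : Sy_EI0) (h5 : Sy_TRN)
    (h6 : Sy_COP) (h7 : Sy_ALM) (h8 : Sy_ALP) : Sy_ALQ := by
  intro A B hC hT b L om hL
  obtain ⟨d3, d4⟩ := h1 A B hC b L om hL
  have LF := h3 A B hC d3 d4
  have hom : om ≠ 0 := hL.om_ne
  have P1 : ∀ (b' : Ideal (OO A B)) (L' : PeriodPair) (om' : ℂ), IsNL b' L' om' →
      IsAlgebraic ℚ (om / om') := by
    intro b' L' om' hL'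
    obtain ⟨ι, hι, ⟨R⟩⟩ := h2 A B hC d3 d4 1 one_ne_zero
    have hF : Finite ι := Finite.of_fintype ι
    have e1 := RALQ.part0 h7 hC hT LF hF R b L om hL
    have e2 := RALQ.part0 h7 hC hT LF hF R b' L' om' hL'
    have hi : R.om R.i0 ≠ 0 := (R.nl R.i0).om_ne
    have hom' : om' ≠ 0 := hL'.om_ne
    have h5 : om / om' = (om / R.om R.i0) / (om' / R.om R.i0) := by
      field_simp
    rw [h5]
    exact RALQ.div_alg e1 e2
  refine ⟨P1, ?_⟩
  intro g e hg he x y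
  obtain ⟨hgt, ⟨r, hr, her⟩, hz⟩ := h4 A B hC g e hg he
  by_cases hcop : IsCoprime b g
  · have hn : nI g ≠ 0 := (xf_IDL A B (cqF hC) g hg).1
    obtain ⟨ι, hι, ⟨R⟩⟩ := h2 A B hC d3 d4 (nI g) hn
    have hF : Finite ι := Finite.of_fintype ι
    have hgm : ((nI g : ℕ) : OO A B) ^ 1 ∈ g := by
      rw [pow_one]
      exact ((xf_NIM A B (cqF hC)).2.2.1 g hg).2.2.2
    have hco := h6 A B (nI g) ι R g 1 hgm
    obtain ⟨j, x', y', hx, hy, hxy⟩ := R.surj b hL.b_ne
    obtain ⟨t, ht, het, hen, -, hPhi⟩ := h5 A B hC b (R.b j) g e hL.b_ne (R.nl j).b_ne he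
      ⟨x', y', hx, hy, hxy⟩ hcop (hco j)
    have hPhi' := hPhi x y
    have hN : ((nI (R.b j) : ℕ) : ℂ) ≠ 0 := by
      exact_mod_cast (xf_IDL A B (cqF hC) (R.b j) (R.nl j).b_ne).1
    have hj : R.om j ≠ 0 := (R.nl j).om_ne
    have a1 := (h8 A B hC hT (nI g) ι hF R g e hg hgt he hco r hr her j x y).1
    have a2 : IsAlgebraic ℚ (R.om j / om) := by
      have := (P1 (R.b j) (R.L j) (R.om j) (R.nl j)).inv
      rwa [inv_div] at this
    have a3 : IsAlgebraic ℚ (e t) := RALQ.alg_root hr (her t het)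
    have a4 : IsAlgebraic ℚ (e ((nI (R.b j) : ℕ) : OO A B)) := RALQ.alg_root hr (her _ hen)
    have a5 : IsAlgebraic ℚ ((starRingEnd ℂ) (emb t)) := by
      rw [← ((xf_ALG A B (cqF hC)).2.1 t).2.2.2.2.2.1]
      exact RALQ.alg_emb hC _
    have a6 : IsAlgebraic ℚ ((nI (R.b j) : ℕ) : ℂ) := isAlgebraic_natCast _
    have key : PhiI b e x y / om = ((e t * (starRingEnd ℂ) (emb t)) /
        (e ((nI (R.b j) : ℕ) : OO A B) * ((nI (R.b j) : ℕ) : ℂ))) *
        ((PhiI (R.b j) e x y / R.om j) * (R.om j / om)) := by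
      have hne : e ((nI (R.b j) : ℕ) : OO A B) * ((nI (R.b j) : ℕ) : ℂ) ≠ 0 :=
        mul_ne_zero hen hN
      have e1 : (PhiI (R.b j) e x y / R.om j) * (R.om j / om) = PhiI (R.b j) e x y / om := by
        field_simp
      rw [e1, div_mul_div_comm, div_eq_div_iff hom (mul_ne_zero hne hom)]
      linear_combination om * hPhi'
    rw [key]
    exact (RALQ.div_alg (a3.mul a5) (a4.mul a6)).mul (a1.mul a2)
  · rw [hz b hcop x y, zero_div]
    exact isAlgebraic_zero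

end

end Pool.Agent.MUXY
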