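import Pool.Agent.MUX.StYR

/-!
# MUX, module CLN: every class contains an ideal of norm prime to `n`
-/

set_option autoImplicit false

namespace Pool.Agent.MUXY

open _root_.MU3 Pool.Agent.MU3A Pool.Agent.MU3B Pool.Agent.MUXU OnePoint
open Pool.Agent.MUX (CQ CaseP nI cjI sp IsLI IsNL IsEI PhiI Reps TorX)
open Pool.Agent.MUXF (qb)

/-- every class contains an ideal of norm prime to `n` -/
theorem ty_CLN (h1 : Sy_DVI) (h2 : Sy_QCO) : Sy_CLN := by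
  intro A B hc b hb n hn
  obtain ⟨-, -, n3, -⟩ := Pool.Agent.MUXF.xf_NIM A B (cqF hc)
  have hcj : cjI b ≠ ⊥ := (n3 b hb).2.2.1
  obtain ⟨hnb, -⟩ := Pool.Agent.MUXF.xf_IDL A B (cqF hc) b hb
  obtain ⟨y, hy, hy0, hcop⟩ := h2 A B hc (cjI b) hcj n hn
  obtain ⟨c, hc0, hcb, hnc⟩ := h1 A B hc b y hb hy hy0
  refine ⟨c, hc0, ⟨y, ((nI b : ℕ) : OO A B), hy0, ?_, hcb.symm⟩, ?_⟩
  · intro h0
    obtain ⟨-, a2, a3, -, -⟩ := Pool.Agent.MUXF.xf_ALG A B (cqF hc)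
    have e1 := (a3 (nI b : ℤ)).1
    have e2 : (((nI b : ℕ) : ℤ) : OO A B) = ((nI b : ℕ) : OO A B) := Int.cast_natCast _
    rw [e2, h0, (a2 0).1.2 rfl] at e1
    exact hnb (by exact_mod_cast e1.symm)
  · rw [← Nat.isCoprime_iff_coprime, hnc]
    exact hcop

end Pool.Agent.MUXY
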