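import Pool.Agent.MUX.StYR

/-!
# MUX, block YR, module CPD (helper18)
-/

set_option autoImplicit false

namespace Pool.Agent.MUXY

open _root_.MU3 Pool.Agent.MUX

/-- (CPD) if `3` or `2` splits then `absD ≠ 3, 4`. -/
theorem ty_CPD : Sy_CPD := by
  intro p A B h
  rcases h.split with ⟨_, h3⟩ | ⟨_, h8⟩
  · constructor <;> intro hd <;> unfold absD at hd <;> omega
  · constructor <;> intro hd <;> unfold absD at hd <;> omega

end Pool.Agent.MUXY
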