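import Pool.Agent.MUX.StYR

/-!
# MUX, statement (DVI): the ideal `y b / N b` (helper22)
-/

set_option autoImplicit false

namespace Pool.Agent.MUXY

open _root_.MU3 Pool.Agent.MU3A Pool.Agent.MU3B Pool.Agent.MUXU OnePoint
open Pool.Agent.MUX (CQ CaseP nI cjI sp IsLI IsNL IsEI PhiI Reps TorX)
open Pool.Agent.MUXF (qb)

noncomputable section

namespace RDVI

/-- the quotient of an ideal `J` contained in `sp m` by `m` -/
def quo {A B : ℤ} (m : OO A B) (J : Ideal (OO A B)) : Ideal (OO A B) where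
  carrier := {z | m * z ∈ J}
  add_mem' := by
    intro a b ha hb
    have ha' : m * a ∈ J := ha
    have hb' : m * b ∈ J := hb
    change m * (a + b) ∈ J
    rw [mul_add]
    exact J.add_mem ha' hb'
  zero_mem' := by
    change m * 0 ∈ J
    rw [mul_zero]
    exact J.zero_mem
  smul_mem' := by
    intro c x hx
    have hx' : m * x ∈ J := hx
    change m * (c * x) ∈ J
    have e : m * (c * x) = c * (m * x) := by ring
    rw [e]
    exact J.mul_mem_left c hx'

theorem mem_quo {A B : ℤ} {m : OO A B} {J : Ideal (OO A B)} {z : OO A B} :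
    z ∈ quo m J ↔ m * z ∈ J := Iff.rfl

theorem sp_quo {A B : ℤ} (m : OO A B) (J : Ideal (OO A B)) (h : J ≤ sp m) :
    sp m * quo m J = J := by
  apply le_antisymm
  · rw [Ideal.span_singleton_mul_le_iff]
    intro z hz
    exact hz
  · intro x hx
    obtain ⟨z, hz⟩ := Ideal.mem_span_singleton'.1 (h hx)
    rw [Ideal.mem_span_singleton_mul]
    refine ⟨z, ?_, by rw [mul_comm]; exact hz⟩
    rw [mem_quo, mul_comm, hz]
    exact hx

end RDVI

open RDVI in
/-- (DVI) the ideal `y b / N b` -/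
theorem ty_DVI : Sy_DVI := by
  intro A B hc b y hb hy hy0
  have hcF := cqF hc
  obtain ⟨halg, halg2, halg3, hfin, hdom⟩ := MUXF.xf_ALG A B hcF
  obtain ⟨hn0, hidl⟩ := MUXF.xf_IDL A B hcF b hb
  obtain ⟨hm1, hm2, hm3, hm4⟩ := MUXF.xf_NIM A B hcF
  obtain ⟨hcn, hcc, hcb, hnb⟩ := hm3 b hb
  obtain ⟨hq, -, -⟩ := MUXF.xf_QB A B hcF (MUXF.cjI b) hcb
  obtain ⟨hqy, hq0⟩ := hq y hy
  have hle : sp y * b ≤ sp ((nI b : ℕ) : OO A B) := by
    have h1 : sp y ≤ cjI b := by
      rw [Ideal.span_singleton_le_iff_mem]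
      exact hy
    have h2 : sp y * b ≤ cjI b * b := Ideal.mul_mono_left h1
    rw [mul_comm (cjI b) b] at h2
    exact h2.trans_eq hidl
  have hsy : sp y ≠ ⊥ := by
    intro h
    exact hy0 (Ideal.span_singleton_eq_bot.1 h)
  have hprod := hm1 (sp y) b hsy hb
  have he := sp_quo ((nI b : ℕ) : OO A B) (sp y * b) hle
  have hmN : ((nI b : ℕ) : OO A B) ≠ 0 := by
    intro h
    have h1 := (halg3 ((nI b : ℕ) : ℤ)).2
    have h2 : (((nI b : ℕ) : ℤ) : OO A B) = 0 := by
      rw [Int.cast_natCast]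
      exact h
    rw [h2] at h1
    have h3 : nm (0 : OO A B) = 0 := (halg2 0).2.1.2 rfl
    rw [h3] at h1
    have h4 : ((nI b : ℕ) : ℤ) = 0 := by
      have := h1.symm
      exact pow_eq_zero_iff (two_ne_zero) |>.1 this
    exact hn0 (by exact_mod_cast h4)
  have hsN : sp ((nI b : ℕ) : OO A B) ≠ ⊥ := by
    intro h
    exact hmN (Ideal.span_singleton_eq_bot.1 h)
  have hcne : quo ((nI b : ℕ) : OO A B) (sp y * b) ≠ ⊥ := by
    intro h
    rw [h, Ideal.mul_bot] at he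
    exact hprod.2 he.symm
  refine ⟨quo ((nI b : ℕ) : OO A B) (sp y * b), hcne, he, ?_⟩
  -- the norms
  have e1 := (hm1 (sp ((nI b : ℕ) : OO A B)) (quo ((nI b : ℕ) : OO A B) (sp y * b)) hsN hcne).1
  have e2 : nI (sp ((nI b : ℕ) : OO A B)) = (nm ((nI b : ℕ) : OO A B)).natAbs := by
    rcases hm2 ((nI b : ℕ) : OO A B) with h | h
    · exact h
    · exact absurd h hmN
  have e3 : nI (sp y) = (nm y).natAbs := by
    rcases hm2 y with h | h
    · exact h
    · exact absurd h hy0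
  have e4 : nm ((nI b : ℕ) : OO A B) = ((nI b : ℕ) : ℤ) ^ 2 := by
    have h1 := (halg3 ((nI b : ℕ) : ℤ)).2
    rw [Int.cast_natCast] at h1
    exact h1
  have e5 : nI (sp y * b) = nI (sp y) * nI b := hprod.1
  have e6 : nI (sp ((nI b : ℕ) : OO A B) * quo ((nI b : ℕ) : OO A B) (sp y * b)) = nI (sp y * b) := by
    rw [he]
  have e7 : (nI (sp ((nI b : ℕ) : OO A B)) : ℤ) = (nI b : ℤ) ^ 2 := by
    rw [e2, e4, Int.natCast_natAbs, abs_of_nonneg (by positivity)]
  have e8 : (nI (sp y) : ℤ) = nm y := by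
    rw [e3, Int.natCast_natAbs, abs_of_nonneg (halg2 y).2.2.1]
  have e9 : nm y = (nI b : ℤ) * qb (cjI b) y := by
    have : nm y = (MUXF.nI (MUXF.cjI b) : ℤ) * qb (MUXF.cjI b) y := hqy
    rw [hcn] at this
    exact this
  have hnz : (nI b : ℤ) ≠ 0 := by exact_mod_cast hn0
  have e10 : (nI b : ℤ) ^ 2 * (nI (quo ((nI b : ℕ) : OO A B) (sp y * b)) : ℤ)
      = (nI b : ℤ) ^ 2 * qb (cjI b) y := by
    have h1 : (nI (sp ((nI b : ℕ) : OO A B)) : ℤ) *
        (nI (quo ((nI b : ℕ) : OO A B) (sp y * b)) : ℤ) = (nI (sp y) : ℤ) * (nI b : ℤ) := by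
      have h2 : nI (sp ((nI b : ℕ) : OO A B)) * nI (quo ((nI b : ℕ) : OO A B) (sp y * b))
          = nI (sp y) * nI b := by
        rw [← e5, ← e6]
        exact e1.symm
      exact_mod_cast h2
    rw [e7, e8, e9] at h1
    rw [h1]
    ring
  exact mul_left_cancel₀ (pow_ne_zero 2 hnz) e10

end

end Pool.Agent.MUXY
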