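import Pool.Agent.MUX.StYR

/-!
# MUX, module EI0 (helper48): facts on characters
-/

set_option autoImplicit false

namespace Pool.Agent.MUXY

open _root_.MU3 Pool.Agent.MU3A Pool.Agent.MU3B Pool.Agent.MUXU OnePoint
open Pool.Agent.MUX (CQ CaseP nI cjI sp IsLI IsNL IsEI PhiI Reps TorX)
open Pool.Agent.MUXF (qb)

noncomputable section

namespace REI0

variable {A B : ℤ} {g : Ideal (OO A B)} {e : OO A B → ℂ}

theorem epow (he : IsEI g e) (x : OO A B) (k : ℕ) : e (x ^ k) = e x ^ k := by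
  induction k with
  | zero => rw [pow_zero, pow_zero, he.one]
  | succ k ih => rw [pow_succ, he.mul, ih, pow_succ]

theorem fin_range (hc : CQ A B) (hg : g ≠ ⊥) (he : IsEI g e) : (Set.range e).Finite := by
  have hfin : Finite (OO A B ⧸ g) := (Pool.Agent.MUXF.xf_ALG A B (cqF hc)).2.2.2.1 g hg
  have h1 : Set.range e ⊆ Set.range (fun q : OO A B ⧸ g => e (Quotient.out q)) := by
    rintro _ ⟨x, rfl⟩
    refine ⟨Ideal.Quotient.mk g x, ?_⟩
    refine he.per _ _ ?_
    rw [← Ideal.Quotient.eq]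
    exact Quotient.out_eq _
  exact (Set.finite_range _).subset h1

theorem tors (hc : CQ A B) (hg : g ≠ ⊥) (he : IsEI g e) (z : ℂ) (hz : z ∈ Set.range e)
    (h0 : z ≠ 0) : ∃ r : ℕ, r ≠ 0 ∧ z ^ r = 1 := by
  obtain ⟨x, rfl⟩ := hz
  have hf := fin_range hc hg he
  have hf' : Finite (Set.range e) := hf
  obtain ⟨i, j, hij, h⟩ := Finite.exists_ne_map_eq_of_infinite
    (fun k : ℕ => (⟨e x ^ k, x ^ k, epow he x k⟩ : Set.range e))
  have h' : e x ^ i = e x ^ j := congrArg Subtype.val h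
  have key : ∀ i j : ℕ, i < j → e x ^ i = e x ^ j → ∃ r : ℕ, r ≠ 0 ∧ e x ^ r = 1 := by
    intro i j hlt h'
    refine ⟨j - i, by omega, ?_⟩
    have h2 : e x ^ j = e x ^ i * e x ^ (j - i) := by rw [← pow_add]; congr 1; omega
    rw [h2] at h'
    have h3 : e x ^ i ≠ 0 := pow_ne_zero _ h0
    exact (mul_left_cancel₀ h3 (by rw [mul_one]; exact h')).symm
  rcases lt_or_gt_of_ne hij with hlt | hlt
  · exact key i j hlt h'
  · exact key j i hlt h'.symm

theorem zero_of {b : Ideal (OO A B)} (he : IsEI g e) (hb : ¬ IsCoprime b g) {x : OO A B}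
    (hx : x ∈ b) : e x = 0 := by
  by_contra h
  have h1 := (he.supp x).1 h
  apply hb
  rw [Ideal.isCoprime_iff_sup_eq] at h1 ⊢
  rw [eq_top_iff, ← h1]
  exact sup_le_sup_right ((Ideal.span_singleton_le_iff_mem (I := b)).2 hx) g

theorem theta_zero {b : Ideal (OO A B)} (he : IsEI g e) (hb : ¬ IsCoprime b g) (z : ℂ) :
    Pool.Agent.MUX.thetaI b e z = 0 := by
  unfold Pool.Agent.MUX.thetaI
  have h1 : ∀ x : b, e x * (starRingEnd ℂ) (emb (x : OO A B)) *
    Complex.exp (2 * Real.pi * Complex.I * ((nm (x : OO A B) : ℂ) / nI b) * z) = 0 := by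
    intro x
    rw [zero_of he hb x.2]
    ring
  rw [tsum_congr h1, tsum_zero, mul_zero]

theorem Ic_zero {b : Ideal (OO A B)} (he : IsEI g e) (hb : ¬ IsCoprime b g) (x : OnePoint ℚ) :
    Pool.Agent.MUX.IcI b e x = 0 := by
  unfold Pool.Agent.MUX.IcI
  have h1 : ∀ r : ℚ, Pool.Agent.MUX.IvI b e r = 0 := by
    intro r
    unfold Pool.Agent.MUX.IvI
    simp only [theta_zero he hb]
    simp
  rcases x with _ | r
  · rfl
  · exact h1 r

end REI0

open REI0 in
theorem ty_EI0 : Sy_EI0 := by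
  classical
  intro A B hc g e hg he
  refine ⟨?_, ?_, ?_⟩
  · intro htop
    have h1 := he.per 1 (-1) (by rw [htop]; trivial)
    rw [he.one, he.neg] at h1
    norm_num at h1
  · have hf := fin_range hc hg he
    have ht : ∀ z : ℂ, ∃ r : ℕ, r ≠ 0 ∧ (z ∈ Set.range e → z ≠ 0 → z ^ r = 1) := by
      intro z
      by_cases h : z ∈ Set.range e ∧ z ≠ 0
      · obtain ⟨r, hr, hr'⟩ := tors hc hg he z h.1 h.2
        exact ⟨r, hr, fun _ _ => hr'⟩
      · exact ⟨1, one_ne_zero, fun h1 h2 => absurd ⟨h1, h2⟩ h⟩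
    choose r hr0 hr using ht
    refine ⟨∏ z ∈ hf.toFinset, r z, Finset.prod_ne_zero_iff.2 fun z _ => hr0 z, ?_⟩
    intro x hx
    have hmem : e x ∈ hf.toFinset := by
      rw [Set.Finite.mem_toFinset]
      exact ⟨x, rfl⟩
    rw [← Finset.mul_prod_erase _ _ hmem, pow_mul, hr _ ⟨x, rfl⟩ hx, one_pow]
  · intro b hb x y
    unfold Pool.Agent.MUX.PhiI
    rw [Ic_zero he hb, Ic_zero he hb, sub_zero]

end

end Pool.Agent.MUXY
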