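import Pool.Agent.MUX.StYR
import Pool.Agent.MUX.Y_MUU

/-!
# MUX: the facts on lattices and classes (LAF) (helper46)
-/

set_option autoImplicit false

namespace Pool.Agent.MUXY

open _root_.MU3 Pool.Agent.MU3A Pool.Agent.MU3B Pool.Agent.MUXU OnePoint
open Pool.Agent.MUX (CQ CaseP nI cjI sp IsLI IsNL IsEI PhiI Reps TorX)
open Pool.Agent.MUXF (qb)

noncomputable section

namespace RLAF

/-- the scaling between the lattices of two ideals of the same class -/
theorem key {A B : ℤ} (hc : CQ A B) {b b' : Ideal (OO A B)} {L L' : PeriodPair} {om om' : ℂ}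
    {x y : OO A B} (hL : IsNL b L om) (hL' : IsNL b' L' om') (hx : x ≠ 0) (hy : y ≠ 0)
    (hxy : sp x * b = sp y * b') (z : ℂ) :
    z ∈ L'.lattice ↔ om * emb y / (emb x * om') * z ∈ L.lattice := by
  obtain ⟨a1, a2, -, -, -⟩ := Pool.Agent.MUXF.xf_ALG A B (cqF hc)
  have emul : ∀ u v : OO A B, emb (u * v) = emb u * emb v := fun u v => (a1 u v).1
  have ex0 : emb x ≠ 0 := fun h => hx ((a2 x).1.1 h)
  have ey0 : emb y ≠ 0 := fun h => hy ((a2 y).1.1 h)
  have om0 := hL.om_ne
  have om0' := hL'.om_ne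
  set s : ℂ := om * emb y / (emb x * om') with hs
  have hs0 : s ≠ 0 := div_ne_zero (mul_ne_zero om0 ey0) (mul_ne_zero ex0 om0')
  rw [hL'.mem, hL.mem]
  constructor
  · rintro ⟨t', ht', rfl⟩
    have h2 : y * t' ∈ sp x * b := by
      rw [hxy]
      exact Ideal.mul_mem_mul (Ideal.mem_span_singleton_self y) ht'
    obtain ⟨t, ht, h3⟩ := Ideal.mem_span_singleton_mul.1 h2
    refine ⟨t, ht, ?_⟩
    have h4 : emb x * emb t = emb y * emb t' := by rw [← emul, ← emul, h3]
    rw [hs]
    field_simp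
    linear_combination -h4
  · rintro ⟨t, ht, h2⟩
    have h3 : x * t ∈ sp y * b' := by
      rw [← hxy]
      exact Ideal.mul_mem_mul (Ideal.mem_span_singleton_self x) ht
    obtain ⟨t', ht', h4⟩ := Ideal.mem_span_singleton_mul.1 h3
    refine ⟨t', ht', ?_⟩
    have h5 : emb y * emb t' = emb x * emb t := by rw [← emul, ← emul, h4]
    have h6 : om * emb y * z = om * (emb x * om') * emb t := by
      have h7 : s * (emb x * om') = om * emb y := by
        rw [hs]
        field_simp
      calc om * emb y * z = s * (emb x * om') * z := by rw [h7]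
        _ = s * z * (emb x * om') := by ring
        _ = om * emb t * (emb x * om') := by rw [h2]
        _ = om * (emb x * om') * emb t := by ring
    have h8 : (om * emb y) * (z - om' * emb t') = 0 := by
      linear_combination h6 - om * om' * h5
    rcases mul_eq_zero.1 h8 with h9 | h9
    · exact absurd h9 (mul_ne_zero om0 ey0)
    · exact sub_eq_zero.1 h9

/-- powers of an ideal are not zero -/
theorem pow_ne {A B : ℤ} (hc : CQ A B) {b : Ideal (OO A B)} (hb : b ≠ ⊥) (i : ℕ) :
    b ^ i ≠ ⊥ := by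
  obtain ⟨-, -, -, -, hdom⟩ := Pool.Agent.MUXF.xf_ALG A B (cqF hc)
  obtain ⟨n1, -, -, -⟩ := Pool.Agent.MUXF.xf_NIM A B (cqF hc)
  induction i with
  | zero =>
    rw [pow_zero, Ideal.one_eq_top]
    exact top_ne_bot
  | succ i ih =>
    rw [pow_succ]
    exact (n1 _ _ ih hb).2

/-- an identity in commutative semirings -/
theorem gen {S : Type} [CommSemiring S] {a p F X Y X' Y' : S} (h4 : X * a = Y * F)
    (h5 : X' * (p * a) = Y' * F) : a * (Y' * X) = a * ((Y * X') * p) := by
  calc a * (Y' * X) = Y' * (X * a) := by ring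
    _ = Y' * (Y * F) := by rw [h4]
    _ = Y * (Y' * F) := by ring
    _ = Y * (X' * (p * a)) := by rw [h5]
    _ = a * ((Y * X') * p) := by ring

/-- membership -/
theorem mem_left {R : Type} [CommRing R] {x y : R} {c : Ideal R}
    (h : Ideal.span {x} = Ideal.span {y} * c) : x ∈ Ideal.span {y} := by
  have h1 : Ideal.span {y} * c ≤ Ideal.span {y} := Ideal.mul_le_left
  have h2 : x ∈ Ideal.span {y} * c := by
    rw [← h]
    exact Ideal.mem_span_singleton_self x
  exact h1 h2

/-- cancellation -/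
theorem cancel {A B : ℤ} (hc : CQ A B) {b c c' : Ideal (OO A B)} (hb : b ≠ ⊥)
    (h : b * c = b * c') : c = c' := by
  obtain ⟨-, -, -, n4⟩ := Pool.Agent.MUXF.xf_NIM A B (cqF hc)
  exact le_antisymm ((n4 b c c' hb).1 h.le) ((n4 b c' c hb).1 h.ge)

end RLAF

/-- LAF. -/
theorem ty_LAF (h1 : Sy_NLE) (h2 : Sy_SAM) (h3 : Sy_FCL) : Sy_LAF := by
  intro A B hc hD3 hD4
  obtain ⟨-, a2, -, -, hdom⟩ := Pool.Agent.MUXF.xf_ALG A B (cqF hc)
  refine ⟨h1 A B hc hD3 hD4, ?_, ?_⟩
  · intro b b' L L' om om' x y hL hL' hx hy hxy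
    have hLL : ∀ z : ℂ, z ∈ L.lattice ↔ z ∈ L'.lattice :=
      h2 A B hc b b' L L' om om' x y hL hL' hx hy hxy
    refine ⟨SetLike.ext hLL, ?_⟩
    have ex0 : emb x ≠ 0 := fun h => hx ((a2 x).1.1 h)
    have ey0 : emb y ≠ 0 := fun h => hy ((a2 y).1.1 h)
    have om0 := hL.om_ne
    have om0' := hL'.om_ne
    have hs0 : om * emb y / (emb x * om') ≠ 0 :=
      div_ne_zero (mul_ne_zero om0 ey0) (mul_ne_zero ex0 om0')
    have hk : ∀ z : ℂ, z ∈ L'.lattice ↔ om * emb y / (emb x * om') * z ∈ L'.lattice := by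
      intro z
      rw [RLAF.key hc hL hL' hx hy hxy z, hLL]
    rcases Muu.scale L' hL'.nrm _ hs0 hk with h | h
    · left
      rw [div_eq_iff (mul_ne_zero ex0 om0')] at h
      linear_combination -h
    · right
      rw [div_eq_iff (mul_ne_zero ex0 om0')] at h
      linear_combination h
  · intro b hb
    obtain ⟨F, -, hF⟩ := h3 A B hc
    have hch : ∀ i : ℕ, ∃ c : F, Cl (b ^ i) (c : Ideal (OO A B)) := by
      intro i
      obtain ⟨c, hcF, hcl⟩ := hF (b ^ i) (RLAF.pow_ne hc hb i)
      exact ⟨⟨c, hcF⟩, hcl⟩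
    choose f hf using hch
    obtain ⟨i, j, hij, hfij⟩ := Finite.exists_ne_map_eq_of_infinite f
    have main : ∀ i j : ℕ, i < j → f i = f j →
        ∃ (h : ℕ) (x : OO A B), 0 < h ∧ x ≠ 0 ∧ b ^ h = Ideal.span {x} := by
      intro i j hlt he
      obtain ⟨x, y, hx, hy, h4⟩ := hf i
      obtain ⟨x', y', hx', hy', h5⟩ := hf j
      rw [← he] at h5
      have hX : y' * x ≠ 0 := mul_ne_zero hy' hx
      have hY : y * x' ≠ 0 := mul_ne_zero hy hx'
      have h6 : b ^ i * sp (y' * x) = b ^ i * (sp (y * x') * b ^ (j - i)) := by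
        have h7 : b ^ j = b ^ (j - i) * b ^ i := by
          rw [← pow_add, Nat.sub_add_cancel hlt.le]
        have e1 : sp (y' * x) = sp y' * sp x := (Ideal.span_singleton_mul_span_singleton _ _).symm
        have e2 : sp (y * x') = sp y * sp x' := (Ideal.span_singleton_mul_span_singleton _ _).symm
        rw [h7] at h5
        rw [e1, e2]
        exact RLAF.gen h4 h5
      have h8 := RLAF.cancel hc (RLAF.pow_ne hc hb i) h6
      have h9 : y' * x ∈ sp (y * x') := RLAF.mem_left h8
      obtain ⟨z, hz⟩ := Ideal.mem_span_singleton.1 h9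
      have hz0 : z ≠ 0 := by
        rintro rfl
        rw [mul_zero] at hz
        exact hX hz
      have hYb : sp (y * x') ≠ (⊥ : Ideal (OO A B)) := by
        intro h
        exact hY (Ideal.span_singleton_eq_bot.1 h)
      have h11 : sp (y * x') * b ^ (j - i) = sp (y * x') * sp z := by
        rw [← h8, hz]
        exact (Ideal.span_singleton_mul_span_singleton _ _).symm
      exact ⟨j - i, z, Nat.sub_pos_of_lt hlt, hz0, RLAF.cancel hc hYb h11⟩
    rcases lt_or_gt_of_ne hij with h | h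
    · exact main i j h hfij
    · exact main j i h hfij.symm

end

end Pool.Agent.MUXY
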