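import Pool.Agent.MUX.StYR

/-!
# MUX, module MLR (helper55): the multipliers of an ideal are in `O`
-/

set_option autoImplicit false

namespace Pool.Agent.MUXY

open _root_.MU3 Pool.Agent.MU3A Pool.Agent.MU3B Pool.Agent.MUXU OnePoint
open Pool.Agent.MUX (CQ CaseP nI cjI sp IsLI IsNL IsEI PhiI Reps TorX)

theorem ty_MLR : Sy_MLR := by
  intro A B hQ b s hb hs
  obtain ⟨h1, h2, h3, _, _⟩ := MUXF.xf_ALG A B (cqF hQ)
  obtain ⟨hN, hI⟩ := MUXF.xf_IDL A B (cqF hQ) b hb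
  have key : ∀ r ∈ b * MUXF.cjI b, ∃ r' ∈ b * MUXF.cjI b, s * emb r = emb r' := by
    intro r hr
    refine Submodule.mul_induction_on hr ?_ ?_
    · intro x hx y hy
      obtain ⟨x', hx', e⟩ := hs x hx
      exact ⟨x' * y, Ideal.mul_mem_mul hx' hy, by rw [(h1 _ _).1, (h1 _ _).1, ← e]; ring⟩
    · rintro x y ⟨x', hx', ex⟩ ⟨y', hy', ey⟩
      exact ⟨x' + y', add_mem hx' hy', by rw [(h1 _ _).2.1, (h1 _ _).2.1, ← ex, ← ey]; ring⟩
  rw [hI] at key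
  obtain ⟨r', hr', e⟩ := key ((MUXF.nI b : ℕ) : OO A B) (Ideal.mem_span_singleton_self _)
  obtain ⟨t, rfl⟩ := Ideal.mem_span_singleton'.1 hr'
  refine ⟨t, ?_⟩
  have hc : emb ((MUXF.nI b : ℕ) : OO A B) = ((MUXF.nI b : ℕ) : ℂ) := by
    have := (h3 ((MUXF.nI b : ℕ) : ℤ)).1
    push_cast at this
    exact this
  rw [(h1 _ _).1, hc] at e
  exact mul_right_cancel₀ (Nat.cast_ne_zero.2 hN) e

end Pool.Agent.MUXY
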