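import Pool.Agent.MUX.StYR
import Pool.Agent.MUX.Y_MUU

/-!
# MUX, module NLD: if there is a normalised lattice then `absD ≠ 3, 4`
-/

set_option autoImplicit false

namespace Pool.Agent.MUXY

open _root_.MU3 Pool.Agent.MU3A Pool.Agent.MU3B Pool.Agent.MUXU OnePoint
open Pool.Agent.MUX (CQ CaseP nI cjI sp IsLI IsNL IsEI PhiI Reps TorX)
open Pool.Agent.MUXF (qb)

noncomputable section

namespace RNLD

/-- for `A = -1` there is no normalised lattice -/
lemma key {A B : ℤ} (h : CQ A B) (hA : A = -1) (b : Ideal (OO A B)) (L : PeriodPair) (om : ℂ)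
    (hL : IsNL b L om) : False := by
  have hF : MUXF.CQ A B := cqF h
  have hw2 : wC A B * wC A B = A + B * wC A B := MUXF.AlgX.wC_sq hF
  have him : 0 < (wC A B).im := MUXF.AlgX.wC_im_pos hF
  have hw0 : wC A B ≠ 0 := by
    intro h0
    rw [h0] at him
    exact lt_irrefl _ him
  have hmulL : ∀ (t : OO A B) (z : ℂ), z ∈ L.lattice → emb t * z ∈ L.lattice := by
    intro t z hz
    obtain ⟨x, hx, rfl⟩ := (hL.mem z).1 hz
    refine (hL.mem _).2 ⟨t * x, b.mul_mem_left t hx, ?_⟩
    rw [MUXF.AlgX.emb_mul hF]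
    ring
  have e1 : emb (⟨0, 1⟩ : OO A B) = wC A B := by
    simp [emb]
  have e2 : emb (⟨B, -1⟩ : OO A B) = B - wC A B := by
    simp [emb]
    ring
  have hinv : (B - wC A B) * wC A B = 1 := by
    rw [sub_mul, hw2, hA]
    push_cast
    ring
  have hiff : ∀ z : ℂ, z ∈ L.lattice ↔ wC A B * z ∈ L.lattice := by
    intro z
    constructor
    · intro hz
      have h1 := hmulL ⟨0, 1⟩ z hz
      rwa [e1] at h1
    · intro hz
      have h1 := hmulL ⟨B, -1⟩ _ hz
      rwa [e2, ← mul_assoc, hinv, one_mul] at h1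
  rcases Muu.scale L hL.nrm (wC A B) hw0 hiff with h1 | h1
  · rw [h1, Complex.one_im] at him
    exact lt_irrefl _ him
  · rw [h1, Complex.neg_im, Complex.one_im, neg_zero] at him
    exact lt_irrefl _ him

end RNLD

/-- NLD. -/
theorem ty_NLD : Sy_NLD := by
  intro A B h b L om hL
  constructor
  · intro h3
    refine RNLD.key h ?_ b L om hL
    unfold absD at h3
    rcases h.hB with hB | hB <;> rw [hB] at h3 <;> omega
  · intro h4
    refine RNLD.key h ?_ b L om hL
    unfold absD at h4
    rcases h.hB with hB | hB <;> rw [hB] at h4 <;> omega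

end

end Pool.Agent.MUXY
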