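import Pool.Agent.MUX.StYR

/-!
# MUX, module NLE (helper44): existence of normalised lattices
-/

set_option autoImplicit false

namespace Pool.Agent.MUXY

open _root_.MU3 Pool.Agent.MU3A Pool.Agent.MU3B Pool.Agent.MUXU OnePoint
open Pool.Agent.MUX (CQ CaseP nI cjI sp IsLI IsNL IsEI PhiI Reps TorX)

theorem ty_NLE (h1 : Sy_NZL) : Sy_NLE := by
  intro A B hC h3 h4 b hb
  obtain ⟨L₁, hL₁⟩ := Pool.Agent.MUXF.xf_LAT1 A B (cqF hC) b 1 hb one_ne_zero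
  obtain ⟨hg2, hg3⟩ := h1 A B hC h3 h4 b L₁ 1 ⟨hL₁.b_ne, hL₁.om_ne, hL₁.mem⟩
  obtain ⟨u, hu⟩ := IsAlgClosed.exists_pow_nat_eq (-18 * L₁.g₃ / L₁.g₂) (n := 2) (by norm_num)
  have hu0 : u ≠ 0 := by
    intro h0
    rw [h0, zero_pow two_ne_zero] at hu
    have h5 : -18 * L₁.g₃ / L₁.g₂ ≠ 0 :=
      div_ne_zero (mul_ne_zero (by norm_num) hg3) hg2
    exact h5 hu.symm
  obtain ⟨L, hL⟩ := Pool.Agent.MUXF.xf_LAT1 A B (cqF hC) b u hb hu0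
  have key : ∀ z : ℂ, z ∈ L₁.lattice ↔ u * z ∈ L.lattice := by
    intro z
    rw [hL₁.mem, hL.mem]
    constructor
    · rintro ⟨x, hx, rfl⟩
      exact ⟨x, hx, by ring⟩
    · rintro ⟨x, hx, h⟩
      exact ⟨x, hx, by rw [one_mul]; exact mul_left_cancel₀ hu0 h⟩
  obtain ⟨-, -, k3, k4⟩ := ta_SCP L₁ L u hu0 key
  refine ⟨L, u, ⟨hL.b_ne, hL.om_ne, hL.mem⟩, ?_⟩
  rw [k3, k4]
  have h6 : L₁.g₂ * u ^ 2 = -18 * L₁.g₃ := by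
    rw [hu]
    field_simp
  have h7 : u ^ 6 = u ^ 4 * u ^ 2 := by ring
  have h8 : u ^ 4 ≠ 0 := pow_ne_zero 4 hu0
  have h9 : u ^ 2 ≠ 0 := pow_ne_zero 2 hu0
  rw [h7]
  rw [div_eq_iff h8]
  have h10 : -18 * (L₁.g₃ / (u ^ 4 * u ^ 2)) * u ^ 4 = (-18 * L₁.g₃) / u ^ 2 := by
    field_simp
  rw [h10, eq_div_iff h9]
  exact h6

end Pool.Agent.MUXY
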