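import Pool.Agent.MUX.StYR

/-!
# MUX, module NZL: `g₂` and `g₃` of a lattice with complex multiplication are not zero
-/

set_option autoImplicit false

namespace Pool.Agent.MUXY

open _root_.MU3 Pool.Agent.MU3A Pool.Agent.MU3B Pool.Agent.MUXU OnePoint
open Pool.Agent.MUX (CQ CaseP nI cjI sp IsLI IsNL IsEI PhiI Reps TorX)
open Pool.Agent.MUXF (qb)

noncomputable section

namespace RNZL

/-- a multiplier which does not change the invariants -/
lemma mult (h1 : Sy_MLR) {A B : ℤ} (hQ : CQ A B) (b : Ideal (OO A B)) (L : PeriodPair) (om : ℂ)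
    (hL : IsLI b L om) (s : ℂ) (hs : s ≠ 0) (h2 : L.g₂ / s ^ 4 = L.g₂) (h3 : L.g₃ / s ^ 6 = L.g₃) :
    ∃ t : OO A B, s = emb t := by
  obtain ⟨L', hL'⟩ := Pool.Agent.MUXU.u_SCX L s hs
  obtain ⟨-, -, e2, e3⟩ := Pool.Agent.MU3A.ta_SCP L L' s hs hL'
  have hLL : L'.lattice = L.lattice :=
    Pool.Agent.MUXU.u_DET L' L (e2.trans h2) (e3.trans h3)
  refine h1 A B hQ b s hL.b_ne ?_
  intro x hx
  have h4 : om * emb x ∈ L.lattice := (hL.mem _).2 ⟨x, hx, rfl⟩
  have h5 : s * (om * emb x) ∈ L.lattice := hLL ▸ (hL' _).1 h4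
  obtain ⟨y, hy, hxy⟩ := (hL.mem _).1 h5
  refine ⟨y, hy, ?_⟩
  apply mul_left_cancel₀ hL.om_ne
  rw [← hxy]
  ring

lemma int3 (x y D B A : ℤ) (hD : D = -(B ^ 2 + 4 * A)) (hD0 : 0 < D) (hD3 : D ≠ 3)
    (e1 : x ^ 2 + A * y ^ 2 + x + 1 = 0) (e2 : 2 * x * y + B * y ^ 2 + y = 0) : False := by
  have hy : y ≠ 0 := by
    rintro rfl
    nlinarith [sq_nonneg (2 * x + 1)]
  have e3 : 2 * x + B * y + 1 = 0 := by
    have : y * (2 * x + B * y + 1) = 0 := by linear_combination e2
    exact (mul_eq_zero.1 this).resolve_left hy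
  have e4 : D * y ^ 2 = 3 := by
    subst hD
    linear_combination (-4) * e1 + (2 * x + 1 - B * y) * e3
  have hy1 : 1 ≤ y ^ 2 := by
    have := sq_nonneg y
    rcases Int.lt_or_gt_of_ne hy with h | h <;> nlinarith
  have hy2 : y ^ 2 < 4 := by nlinarith
  have hy3 : y < 2 := by nlinarith
  have hy4 : -2 < y := by nlinarith
  have hy5 : y = 1 ∨ y = -1 := by omega
  rcases hy5 with rfl | rfl
  · apply hD3
    linarith
  · apply hD3
    linarith

lemma int4 (x y D B A : ℤ) (hD : D = -(B ^ 2 + 4 * A)) (hB : B = 0 ∨ B = 1) (hD0 : 0 < D)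
    (hD4 : D ≠ 4) (e1 : x ^ 2 + A * y ^ 2 + 1 = 0) (e2 : 2 * x * y + B * y ^ 2 = 0) : False := by
  have hy : y ≠ 0 := by
    rintro rfl
    nlinarith [sq_nonneg x]
  have e3 : 2 * x + B * y = 0 := by
    have : y * (2 * x + B * y) = 0 := by linear_combination e2
    exact (mul_eq_zero.1 this).resolve_left hy
  have e4 : D * y ^ 2 = 4 := by
    subst hD
    linear_combination (-4) * e1 + (2 * x - B * y) * e3
  have hy1 : 1 ≤ y ^ 2 := by
    have := sq_nonneg y
    rcases Int.lt_or_gt_of_ne hy with h | h <;> nlinarith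
  have hy2 : y ^ 2 < 5 := by nlinarith
  have hy3 : y < 3 := by nlinarith
  have hy4 : -3 < y := by nlinarith
  have hy5 : y = 1 ∨ y = -1 ∨ y = 2 ∨ y = -2 := by omega
  rcases hy5 with rfl | rfl | rfl | rfl
  · exact hD4 (by linarith)
  · exact hD4 (by linarith)
  · rcases hB with rfl | rfl <;> omega
  · rcases hB with rfl | rfl <;> omega

end RNZL

/-- NZL. -/
theorem ty_NZL (h1 : Sy_MLR) : Sy_NZL := by
  intro A B hQ hD3 hD4 b L om hL
  obtain ⟨a1, a2, a3, -, -⟩ := Pool.Agent.MUXF.xf_ALG A B (cqF hQ)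
  have hD0 : 0 < absD A B := by
    have := hQ.neg
    unfold absD
    linarith
  constructor
  · intro h0
    set s : ℂ := (-1 + Complex.I * ((Real.sqrt 3 : ℝ) : ℂ)) / 2 with hs
    have hq : ((Real.sqrt 3 : ℝ) : ℂ) ^ 2 = 3 := by
      rw [← Complex.ofReal_pow, Real.sq_sqrt (by norm_num)]
      norm_num
    have e1 : s ^ 2 + s + 1 = 0 := by
      rw [hs]
      linear_combination (((Real.sqrt 3 : ℝ) : ℂ) ^ 2 / 4) * Complex.I_sq + (-1 / 4) * hq
    have e3 : s ^ 3 = 1 := by linear_combination (s - 1) * e1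
    have hs0 : s ≠ 0 := by
      intro h
      rw [h] at e3
      norm_num at e3
    have e6 : s ^ 6 = 1 := by
      have : s ^ 6 = s ^ 3 * s ^ 3 := by ring
      rw [this, e3, one_mul]
    obtain ⟨t, ht⟩ := RNZL.mult h1 hQ b L om hL s hs0 (by rw [h0, zero_div])
      (by rw [e6, div_one])
    have e4 : t * t + t + 1 = 0 := by
      apply (a2 _).1.1
      have h5 : emb (1 : OO A B) = 1 := by
        have := (a3 1).1
        simpa using this
      rw [(a1 _ _).2.1, (a1 _ _).2.1, (a1 _ _).1, h5, ← ht]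
      linear_combination e1
    have er := congrArg QuadraticAlgebra.re e4
    have ei := congrArg QuadraticAlgebra.im e4
    simp only [QuadraticAlgebra.re_add, QuadraticAlgebra.im_add, QuadraticAlgebra.re_mul,
      QuadraticAlgebra.im_mul, QuadraticAlgebra.re_one, QuadraticAlgebra.im_one,
      QuadraticAlgebra.re_zero, QuadraticAlgebra.im_zero] at er ei
    exact RNZL.int3 t.re t.im (absD A B) B A rfl hD0 hD3 (by linear_combination er)
      (by linear_combination ei)
  · intro h0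
    have e4 : Complex.I ^ 4 = 1 := Complex.I_pow_four
    obtain ⟨t, ht⟩ := RNZL.mult h1 hQ b L om hL Complex.I Complex.I_ne_zero
      (by rw [e4, div_one]) (by rw [h0, zero_div])
    have e5 : t * t + 1 = 0 := by
      apply (a2 _).1.1
      have h5 : emb (1 : OO A B) = 1 := by
        have := (a3 1).1
        simpa using this
      rw [(a1 _ _).2.1, (a1 _ _).1, h5, ← ht]
      linear_combination Complex.I_sq
    have er := congrArg QuadraticAlgebra.re e5
    have ei := congrArg QuadraticAlgebra.im e5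
    simp only [QuadraticAlgebra.re_add, QuadraticAlgebra.im_add, QuadraticAlgebra.re_mul,
      QuadraticAlgebra.im_mul, QuadraticAlgebra.re_one, QuadraticAlgebra.im_one,
      QuadraticAlgebra.re_zero, QuadraticAlgebra.im_zero] at er ei
    exact RNZL.int4 t.re t.im (absD A B) B A rfl hQ.hB hD0 hD4 (by linear_combination er)
      (by linear_combination ei)

end

end Pool.Agent.MUXY
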