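import Pool.Agent.MUX.StYR

/-!
# MUX: a value of the form `qb J` prime to `n`
-/

set_option autoImplicit false

namespace Pool.Agent.MUXY

open _root_.MU3 Pool.Agent.MU3A Pool.Agent.MU3B Pool.Agent.MUXU OnePoint
open Pool.Agent.MUX (CQ CaseP nI cjI sp IsLI IsNL IsEI PhiI Reps TorX)
open Pool.Agent.MUXF (qb)

namespace RQCO

variable {A B : ℤ}

lemma nm_intCast_mul (m : ℤ) (x : OO A B) : nm ((m : OO A B) * x) = m ^ 2 * nm x := by
  simp only [nm, QuadraticAlgebra.re_mul, QuadraticAlgebra.im_mul, QuadraticAlgebra.re_intCast,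
    QuadraticAlgebra.im_intCast, Int.cast_id]
  ring

lemma qb_intCast_mul (h : CQ A B) (J : Ideal (OO A B)) (hJ : J ≠ ⊥) (m : ℤ) (y : OO A B)
    (hy : y ∈ J) : qb J ((m : OO A B) * y) = m ^ 2 * qb J y := by
  obtain ⟨h1, -, -⟩ := Pool.Agent.MUXF.xf_QB A B (cqF h) J hJ
  have h2 := (h1 y hy).1
  have h3 := (h1 ((m : OO A B) * y) (Ideal.mul_mem_left _ _ hy)).1
  have hN : (Pool.Agent.MUXF.nI J : ℤ) ≠ 0 := by
    have := (Pool.Agent.MUXF.xf_IDL A B (cqF h) J hJ).1
    exact_mod_cast this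
  rw [nm_intCast_mul, h2] at h3
  apply mul_left_cancel₀ hN
  rw [← h3]
  ring

lemma exists_S (hQ : Sy_QPR) (h : CQ A B) (J : Ideal (OO A B)) (hJ : J ≠ ⊥) (S : Finset ℕ)
    (hS : ∀ q ∈ S, q.Prime) : ∃ y ∈ J, ∀ q ∈ S, ¬ (q : ℤ) ∣ qb J y := by
  classical
  obtain ⟨-, h2, -⟩ := Pool.Agent.MUXF.xf_QB A B (cqF h) J hJ
  induction S using Finset.induction_on with
  | empty => exact ⟨0, J.zero_mem, by simp⟩
  | insert q S hq ih =>
    obtain ⟨y, hy, hyS⟩ := ih fun q' hq' => hS q' (Finset.mem_insert_of_mem hq')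
    have hqp : q.Prime := hS q (Finset.mem_insert_self q S)
    have hqi : Prime (q : ℤ) := Nat.prime_iff_prime_int.1 hqp
    by_cases hd : (q : ℤ) ∣ qb J y
    · obtain ⟨z, hz, hzq⟩ := hQ A B h J hJ q hqp
      let s : ℤ := ∏ q' ∈ S, (q' : ℤ)
      have hqs : ¬ (q : ℤ) ∣ s := by
        intro hc
        obtain ⟨q', hq', hc'⟩ := (hqi.dvd_finsetProd_iff _).1 hc
        have h5 : q ∣ q' := by exact_mod_cast hc'
        have h6 := (Nat.prime_dvd_prime_iff_eq hqp (hS q' (Finset.mem_insert_of_mem hq'))).1 h5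
        exact hq (h6 ▸ hq')
      refine ⟨((q : ℤ) : OO A B) * y + ((s : ℤ) : OO A B) * z,
        J.add_mem (Ideal.mul_mem_left _ _ hy) (Ideal.mul_mem_left _ _ hz), fun q' hq' => ?_⟩
      rw [Finset.mem_insert] at hq'
      rcases hq' with rfl | hq'
      · rw [add_comm]
        obtain ⟨k, hk⟩ := h2 (((s : ℤ) : OO A B) * z) (Ideal.mul_mem_left _ _ hz) y hy (q' : ℤ)
        rw [hk, qb_intCast_mul h J hJ s z hz]
        intro hc
        have h7 : (q' : ℤ) ∣ s ^ 2 * qb J z := (dvd_add_left (dvd_mul_right _ _)).1 hc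
        rcases hqi.dvd_or_dvd h7 with h8 | h8
        · exact hqs (hqi.dvd_of_dvd_pow h8)
        · exact hzq h8
      · obtain ⟨k, hk⟩ := h2 (((q : ℤ) : OO A B) * y) (Ideal.mul_mem_left _ _ hy) z hz s
        rw [hk, qb_intCast_mul h J hJ (q : ℤ) y hy]
        have hs : (q' : ℤ) ∣ s := Finset.dvd_prod_of_mem _ hq'
        have hq'p : q'.Prime := hS q' (Finset.mem_insert_of_mem hq')
        have hq'i : Prime (q' : ℤ) := Nat.prime_iff_prime_int.1 hq'p
        intro hc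
        have h7 : (q' : ℤ) ∣ (q : ℤ) ^ 2 * qb J y :=
          (dvd_add_left (dvd_mul_of_dvd_left hs _)).1 hc
        rcases hq'i.dvd_or_dvd h7 with h8 | h8
        · have h9 : q' ∣ q := by exact_mod_cast hq'i.dvd_of_dvd_pow h8
          have h10 := (Nat.prime_dvd_prime_iff_eq hq'p hqp).1 h9
          exact hq (h10 ▸ hq')
        · exact hyS q' hq' h8
    · refine ⟨y, hy, fun q' hq' => ?_⟩
      rw [Finset.mem_insert] at hq'
      rcases hq' with rfl | hq'
      · exact hd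
      · exact hyS q' hq'

end RQCO

theorem ty_QCO (h1 : Sy_QPR) : Sy_QCO := by
  intro A B h J hJ n hn
  obtain ⟨y, hy, hyS⟩ := RQCO.exists_S h1 h J hJ (insert 2 n.primeFactors) (by
    intro q hq
    rw [Finset.mem_insert] at hq
    rcases hq with rfl | hq
    · exact Nat.prime_two
    · exact Nat.prime_of_mem_primeFactors hq)
  refine ⟨y, hy, ?_, ?_⟩
  · intro h0
    apply hyS 2 (Finset.mem_insert_self _ _)
    rw [h0]
    have : qb J (0 : OO A B) = 0 := by
      unfold qb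
      have : nm (0 : OO A B) = 0 := by simp [nm]
      rw [this, Int.zero_ediv]
    rw [this]
    exact dvd_zero _
  · rw [Int.isCoprime_iff_gcd_eq_one]
    by_contra hc
    obtain ⟨q, hq, hqd⟩ := Nat.exists_prime_and_dvd hc
    have h2 : (q : ℤ) ∣ qb J y := (Int.natCast_dvd_natCast.2 hqd).trans (Int.gcd_dvd_left _ _)
    have h3 : (q : ℤ) ∣ (n : ℤ) := (Int.natCast_dvd_natCast.2 hqd).trans (Int.gcd_dvd_right _ _)
    refine hyS q (Finset.mem_insert_of_mem ?_) h2
    rw [Nat.mem_primeFactors]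
    exact ⟨hq, by exact_mod_cast h3, hn⟩

end Pool.Agent.MUXY
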