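import Pool.Agent.MUX.StYR

/-!
# MUX, class representatives, module QPR: the form `qb J` is primitive (helper2)
-/

set_option autoImplicit false

namespace Pool.Agent.MUXY

open _root_.MU3 Pool.Agent.MU3A Pool.Agent.MU3B Pool.Agent.MUXU OnePoint
open Pool.Agent.MUX (CQ CaseP nI cjI sp IsLI IsNL IsEI PhiI Reps TorX)
open Pool.Agent.MUXF (qb)

noncomputable section

/-- (QPR) the form `qb J` is primitive -/
theorem ty_QPR : Sy_QPR := by
  intro A B hC J hJ q hq
  by_contra hcon
  push Not at hcon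
  have hF := cqF hC
  obtain ⟨hmul, hz, hint, -, hdom⟩ := Pool.Agent.MUXF.xf_ALG A B hF
  have hdom' : IsDomain (OO A B) := hdom
  obtain ⟨hN0, hI⟩ := Pool.Agent.MUXF.xf_IDL A B hF J hJ
  have hQ := (Pool.Agent.MUXF.xf_QB A B hF J hJ).1
  have hNO : ((Pool.Agent.MUXF.nI J : ℕ) : OO A B) ≠ 0 := by
    intro h
    have h1 := (hint (Pool.Agent.MUXF.nI J : ℤ)).2
    rw [Int.cast_natCast, h, (hz 0).2.1.2 rfl] at h1
    have h2 : ((Pool.Agent.MUXF.nI J : ℤ)) ^ 2 = 0 := h1.symm
    have h3 := pow_eq_zero_iff (two_ne_zero) |>.1 h2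
    exact hN0 (by exact_mod_cast h3)
  have hNZ : ((Pool.Agent.MUXF.nI J : ℕ) : ℤ) ≠ 0 := by exact_mod_cast hN0
  generalize Pool.Agent.MUXF.nI J = N at hN0 hI hQ hNO hNZ
  have key : ∀ r ∈ J * Pool.Agent.MUXF.cjI J,
      ∃ t ∈ (Ideal.span {((q : ℕ) : OO A B)}).radical, r = (N : OO A B) * t := by
    intro r hr
    refine Submodule.mul_induction_on hr ?_ ?_
    · intro y hy y'' hy''
      have h1 : y * y'' ∈ Pool.Agent.MUXF.sp ((N : ℕ) : OO A B) := by
        rw [← hI]; exact Ideal.mul_mem_mul hy hy''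
      obtain ⟨t, ht⟩ := Ideal.mem_span_singleton.1 h1
      refine ⟨t, ?_, ht⟩
      have hzJ : star y'' ∈ J := by
        unfold Pool.Agent.MUXF.cjI at hy''
        rwa [Ideal.mem_comap, starRingEnd_apply] at hy''
      obtain ⟨z, hzz⟩ : ∃ z, z = star y'' := ⟨_, rfl⟩
      have hy2 : y'' = star z := by rw [hzz, star_star]
      rw [← hzz] at hzJ
      rw [hy2] at ht
      have e1 := (hQ y hy).1
      have e2 := (hQ z hzJ).1
      have e3 := (hQ (y + z) (J.add_mem hy hzJ)).1
      obtain ⟨k1, hk1⟩ := hcon y hy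
      obtain ⟨k2, hk2⟩ := hcon z hzJ
      obtain ⟨k3, hk3⟩ := hcon (y + z) (J.add_mem hy hzJ)
      rw [hk1] at e1
      rw [hk2] at e2
      rw [hk3] at e3
      -- the norm of `t`
      have f1 : nm t = q * (k1 * (q * k2)) := by
        have g1 : nm (y * star z) = nm ((N : OO A B) * t) := by rw [ht]
        rw [(hmul _ _).2.2, (hmul _ _).2.2, (hz z).2.2.2.2.2.2, e1, e2] at g1
        have g2 := (hint (N : ℤ)).2
        rw [Int.cast_natCast] at g2
        rw [g2] at g1
        have g3 : ((N : ℤ) ^ 2) * nm t = (N : ℤ) ^ 2 * (q * (k1 * (q * k2))) := by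
          linear_combination -g1
        exact mul_left_cancel₀ (pow_ne_zero 2 hNZ) g3
      -- the trace of `t`
      have f2 : t + star t = ((q * (k3 - k1 - k2) : ℤ) : OO A B) := by
        apply mul_left_cancel₀ hNO
        have g1 : star ((N : OO A B) * t) = (N : OO A B) * star t := by
          rw [star_mul, star_natCast, mul_comm]
        have g2 : star (y * star z) = star y * z := by
          rw [star_mul, star_star, mul_comm]
        have g3 : star y * z = (N : OO A B) * star t := by rw [← g1, ← g2, ht]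
        have s1 := (hz y).2.2.2.2.1
        have s2 := (hz z).2.2.2.2.1
        have s3 := (hz (y + z)).2.2.2.2.1
        rw [e1] at s1
        rw [e2] at s2
        rw [e3, star_add] at s3
        push_cast at s1 s2 s3 ⊢
        linear_combination s3 - s1 - s2 - ht - g3
      rw [Ideal.mem_radical_iff]
      refine ⟨2, Ideal.mem_span_singleton.2 ?_⟩
      have f3 := (hz t).2.2.2.2.1
      rw [f1] at f3
      refine ⟨((k3 - k1 - k2 : ℤ) : OO A B) * t - ((k1 * (q * k2) : ℤ) : OO A B), ?_⟩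
      push_cast at f2 f3 ⊢
      linear_combination t * f2 - f3
    · rintro x y ⟨t, ht, hx⟩ ⟨t', ht', hy⟩
      exact ⟨t + t', Ideal.add_mem _ ht ht', by rw [hx, hy]; ring⟩
  obtain ⟨t, ht, h1⟩ := key (N : OO A B) (by rw [hI]; exact Ideal.mem_span_singleton_self _)
  have h2 : t = 1 := by
    apply mul_left_cancel₀ hNO
    rw [← h1, mul_one]
  rw [h2, Ideal.mem_radical_iff] at ht
  obtain ⟨n, hn⟩ := ht
  rw [one_pow] at hn
  obtain ⟨x, hx⟩ := Ideal.mem_span_singleton.1 hn
  have h3 : nm (1 : OO A B) = nm (((q : ℕ) : OO A B) * x) := by rw [← hx]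
  have h4 := (hint 1).2
  have h5 := (hint (q : ℤ)).2
  rw [Int.cast_one] at h4
  rw [Int.cast_natCast] at h5
  rw [(hmul _ _).2.2, h4, h5] at h3
  have h6 : (q : ℤ) ∣ 1 := ⟨q * nm x, by linear_combination h3⟩
  exact (Nat.prime_iff_prime_int.1 hq).not_isUnit (isUnit_of_dvd_one h6)

end

end Pool.Agent.MUXY
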