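import Pool.Agent.MUX.StYR

/-!
# MUX: module REX (existence of representatives of the ideal classes with normalised lattices)
-/

set_option autoImplicit false

namespace Pool.Agent.MUXY

open _root_.MU3 Pool.Agent.MU3A Pool.Agent.MU3B Pool.Agent.MUXU OnePoint
open Pool.Agent.MUX (CQ CaseP nI cjI sp IsLI IsNL IsEI PhiI Reps TorX)
open Pool.Agent.MUXF (qb)

noncomputable section

namespace RREX

theorem trans {A B : ℤ} [IsDomain (OO A B)] {b c d : Ideal (OO A B)} (h : Cl b c) (h' : Cl c d) :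
    Cl b d := by
  obtain ⟨x, y, hx, hy, e⟩ := h
  obtain ⟨x', y', hx', hy', e'⟩ := h'
  refine ⟨x' * x, y * y', mul_ne_zero hx' hx, mul_ne_zero hy hy', ?_⟩
  calc sp (x' * x) * b = sp x' * (sp x * b) := by
        rw [← mul_assoc, Ideal.span_singleton_mul_span_singleton]
    _ = sp x' * (sp y * c) := by rw [e]
    _ = sp y * (sp x' * c) := by rw [← mul_assoc, ← mul_assoc, mul_comm (sp x') (sp y)]
    _ = sp y * (sp y' * d) := by rw [e']
    _ = sp (y * y') * d := by rw [← mul_assoc, Ideal.span_singleton_mul_span_singleton]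

theorem nI_top {A B : ℤ} : nI (⊤ : Ideal (OO A B)) = 1 := by
  have hs : Subsingleton (OO A B ⧸ (⊤ : Ideal (OO A B))) := Ideal.Quotient.subsingleton_iff.2 rfl
  show Nat.card (OO A B ⧸ (⊤ : Ideal (OO A B))) = 1
  exact Nat.card_eq_one_iff_unique.2 ⟨hs, ⟨0⟩⟩

end RREX

open Classical in
theorem ty_REX (h1 : Sy_NLE) (h2 : Sy_FCL) (h3 : Sy_CLN) : Sy_REX := by
  intro A B hC h3' h4' n hn
  obtain ⟨-, -, -, -, hdom⟩ := Pool.Agent.MUXF.xf_ALG A B (cqF hC)
  have := hdom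
  obtain ⟨F, hF, hFs⟩ := h2 A B hC
  let s : Setoid {c : Ideal (OO A B) // c ∈ F} :=
    { r := fun c d => Cl c.1 d.1
      iseqv := ⟨fun c => Cl.refl c.1, fun h => h.symm, fun h h' => RREX.trans h h'⟩ }
  have htop : (⊤ : Ideal (OO A B)) ≠ ⊥ := top_ne_bot
  -- the ideal of a class
  have key : ∀ q : Quotient s, ∃ (b : Ideal (OO A B)) (L : PeriodPair) (om : ℂ),
      IsNL b L om ∧ (nI b).Coprime n ∧ Cl q.out.1 b ∧ (Cl ⊤ q.out.1 → b = ⊤) := by
    intro q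
    by_cases hq : Cl ⊤ q.out.1
    · obtain ⟨L, om, hL⟩ := h1 A B hC h3' h4' ⊤ htop
      refine ⟨⊤, L, om, hL, ?_, hq.symm, fun _ => rfl⟩
      rw [RREX.nI_top]
      exact Nat.coprime_one_left n
    · obtain ⟨c, hc, hcl, hcop⟩ := h3 A B hC q.out.1 (hF _ q.out.2) n hn
      obtain ⟨L, om, hL⟩ := h1 A B hC h3' h4' c hc
      exact ⟨c, L, om, hL, hcop, hcl, fun h => absurd h hq⟩
  choose b L om hnl hcop hcl htp using key
  obtain ⟨c0, hc0, hcl0⟩ := hFs ⊤ htop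
  have hout : ∀ c : {c : Ideal (OO A B) // c ∈ F}, Cl (Quotient.mk s c).out.1 c.1 :=
    fun c => Quotient.exact (Quotient.out_eq (Quotient.mk s c))
  refine ⟨Quotient s, Fintype.ofFinite _, ⟨⟨b, L, om, Quotient.mk s ⟨c0, hc0⟩, hnl, hcop, ?_, ?_, ?_⟩⟩⟩
  · exact htp _ (RREX.trans hcl0 (hout ⟨c0, hc0⟩).symm)
  · intro c hc
    obtain ⟨d, hd, hcd⟩ := hFs c hc
    have h := RREX.trans hcd (RREX.trans (hout ⟨d, hd⟩).symm (hcl (Quotient.mk s ⟨d, hd⟩)))
    obtain ⟨x, y, hx, hy, e⟩ := h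
    exact ⟨Quotient.mk s ⟨d, hd⟩, x, y, hx, hy, e⟩
  · intro i j x y hx hy e
    have h : Cl i.out.1 j.out.1 :=
      RREX.trans (hcl i) (RREX.trans ⟨x, y, hx, hy, e⟩ (hcl j).symm)
    have h' : Quotient.mk s i.out = Quotient.mk s j.out := Quotient.sound h
    rwa [Quotient.out_eq, Quotient.out_eq] at h'

end

end Pool.Agent.MUXY
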