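import Pool.Agent.MUX.StYR

/-!
# MUX: module SML (a small element of an ideal)
-/

set_option autoImplicit false

namespace Pool.Agent.MUXY

open _root_.MU3 Pool.Agent.MU3A Pool.Agent.MU3B Pool.Agent.MUXU OnePoint
open Pool.Agent.MUX (CQ CaseP nI cjI sp IsLI IsNL IsEI PhiI Reps TorX)
open Pool.Agent.MUXF (qb)

noncomputable section

namespace RSML

lemma nm_bound (A B u v S : ℤ) (hu : |u| ≤ S) (hv : |v| ≤ S) :
    u ^ 2 + B * u * v - A * v ^ 2 ≤ (1 + |A| + |B|) * (S * S) := by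
  have h1 : u ^ 2 ≤ S * S := by
    rw [← sq_abs, pow_two]
    exact mul_le_mul hu hu (abs_nonneg _) (le_trans (abs_nonneg _) hu)
  have h2 : v ^ 2 ≤ S * S := by
    rw [← sq_abs, pow_two]
    exact mul_le_mul hv hv (abs_nonneg _) (le_trans (abs_nonneg _) hv)
  have h3 : |u * v| ≤ S * S := by
    rw [abs_mul]
    exact mul_le_mul hu hv (abs_nonneg _) (le_trans (abs_nonneg _) hu)
  have h4 : B * u * v ≤ |B| * (S * S) := by
    have : B * u * v ≤ |B * (u * v)| := by
      rw [← mul_assoc]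
      exact le_abs_self _
    rw [abs_mul] at this
    exact this.trans (mul_le_mul_of_nonneg_left h3 (abs_nonneg _))
  have h5 : -(A * v ^ 2) ≤ |A| * (S * S) := by
    have : -(A * v ^ 2) ≤ |A * v ^ 2| := neg_le_abs _
    rw [abs_mul, abs_of_nonneg (sq_nonneg v)] at this
    exact this.trans (mul_le_mul_of_nonneg_left h2 (abs_nonneg _))
  linarith

end RSML

open RSML in
theorem ty_SML : Sy_SML := by
  intro A B hC b hb
  have hfin : Finite (OO A B ⧸ b) := (Pool.Agent.MUXF.xf_ALG A B (cqF hC)).2.2.2.1 b hb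
  obtain ⟨N, hN⟩ : ∃ N : ℕ, N = nI b := ⟨_, rfl⟩
  obtain ⟨s, hs⟩ : ∃ s : ℕ, s = Nat.sqrt N := ⟨_, rfl⟩
  have hs1 : s * s ≤ N := by rw [hs]; exact Nat.sqrt_le N
  have hs2 : N < (s + 1) * (s + 1) := by
    rw [hs]
    exact Nat.lt_succ_sqrt N
  have : Fintype (OO A B ⧸ b) := Fintype.ofFinite _
  obtain ⟨p, p', hne, he⟩ := Fintype.exists_ne_map_eq_of_card_lt
    (fun p : Fin (s + 1) × Fin (s + 1) =>
      Ideal.Quotient.mk b (⟨((p.1 : ℕ) : ℤ), ((p.2 : ℕ) : ℤ)⟩ : OO A B)) (by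
      rw [Fintype.card_prod, Fintype.card_fin, ← Nat.card_eq_fintype_card]
      exact lt_of_eq_of_lt hN.symm hs2)
  have hmem := (Ideal.Quotient.mk_eq_mk_iff_sub_mem _ _).1 he
  refine ⟨_, hmem, ?_, ?_⟩
  · intro h0
    apply hne
    have h1 := congrArg QuadraticAlgebra.re h0
    have h2 := congrArg QuadraticAlgebra.im h0
    simp only [QuadraticAlgebra.re_sub, QuadraticAlgebra.im_sub, QuadraticAlgebra.re_zero,
      QuadraticAlgebra.im_zero] at h1 h2
    apply Prod.ext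
    · apply Fin.ext
      omega
    · apply Fin.ext
      omega
  · have hu : |((p.1 : ℕ) : ℤ) - ((p'.1 : ℕ) : ℤ)| ≤ (s : ℤ) := by
      have a1 := p.1.2
      have a2 := p'.1.2
      rw [abs_le]
      omega
    have hv : |((p.2 : ℕ) : ℤ) - ((p'.2 : ℕ) : ℤ)| ≤ (s : ℤ) := by
      have a1 := p.2.2
      have a2 := p'.2.2
      rw [abs_le]
      omega
    have h := nm_bound A B _ _ _ hu hv
    have h6 : (1 + |A| + |B|) * ((s : ℤ) * s) ≤ (1 + |A| + |B|) * (N : ℤ) := by
      apply mul_le_mul_of_nonneg_left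
      · exact_mod_cast hs1
      · positivity
    rw [← hN]
    refine le_trans (le_of_eq ?_) (h.trans h6)
    simp only [nm, QuadraticAlgebra.re_sub, QuadraticAlgebra.im_sub]

end

end Pool.Agent.MUXY
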