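import Pool.Agent.MUX.StYR

/-!
# MUX, module TRN: comparison of two ideals of the same class
-/

set_option autoImplicit false

namespace Pool.Agent.MUXY

open _root_.MU3 Pool.Agent.MU3A Pool.Agent.MU3B Pool.Agent.MUXU OnePoint
open Pool.Agent.MUX (CQ CaseP nI cjI sp IsLI IsNL IsEI PhiI Reps TorX)
open Pool.Agent.MUXF (qb)

noncomputable section

/-- TRN. -/
theorem ty_TRN : Sy_TRN := by
  intro A B hc b c g e hb hcb he hCl hbg hNg
  have hF := cqF hc
  obtain ⟨hA1, hA2, hA3, -, hdom⟩ := Pool.Agent.MUXF.xf_ALG A B hF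
  have _ := hdom
  obtain ⟨hN0, hNc⟩ := Pool.Agent.MUXF.xf_IDL A B hF c hcb
  replace hN0 : nI c ≠ 0 := hN0
  replace hNc : c * cjI c = sp ((nI c : ℕ) : OO A B) := hNc
  obtain ⟨x, y, hx, hy, hxy⟩ := hCl
  have hNN : ((nI c : ℕ) : OO A B) ≠ 0 := by
    intro h
    have h1 := (hA3 (nI c : ℤ)).2
    rw [Int.cast_natCast, h, (hA2 0).2.1.2 rfl] at h1
    have h2 : ((nI c : ℕ) : ℤ) = 0 := by
      have h3 : ((nI c : ℕ) : ℤ) ^ 2 = 0 := h1.symm
      exact pow_eq_zero_iff (two_ne_zero) |>.1 h3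
    exact hN0 (by exact_mod_cast h2)
  have h1 : sp x * (b * cjI c) = sp (y * ((nI c : ℕ) : OO A B)) := by
    rw [← mul_assoc, hxy, mul_assoc, hNc, Ideal.span_singleton_mul_span_singleton]
  have h2 : y * ((nI c : ℕ) : OO A B) ∈ sp x := by
    have h3 : y * ((nI c : ℕ) : OO A B) ∈ sp x * (b * cjI c) := by
      rw [h1]
      exact Ideal.mem_span_singleton_self _
    have h4 : sp x * (b * cjI c) ≤ sp x := Ideal.mul_le_left
    exact h4 h3
  obtain ⟨t, ht⟩ := Ideal.mem_span_singleton'.1 h2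
  have h3 : b * cjI c = sp t := by
    have h4 : sp x * (b * cjI c) = sp x * sp t := by
      rw [h1, Ideal.span_singleton_mul_span_singleton, ← ht, mul_comm t x]
    exact (Ideal.span_singleton_mul_right_inj hx).1 h4
  have h4 : sp ((nI c : ℕ) : OO A B) * b = sp t * c := by
    rw [← hNc, ← h3]
    ring
  have ht0 : t ≠ 0 := by
    rintro rfl
    rw [zero_mul] at ht
    exact (mul_ne_zero hy hNN) ht.symm
  have h5 : IsCoprime (sp t) g := by
    rw [← h3]
    refine IsCoprime.mul_left hbg ?_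
    rw [← hNc] at hNg
    exact IsCoprime.of_mul_left_right hNg
  refine ⟨t, ht0, (he.supp t).2 h5, (he.supp _).2 hNg, h4, ?_⟩
  intro u v
  have h6 := (Pool.Agent.MUXF.xf_PRI A B hF b g e ((nI c : ℕ) : OO A B) hb (eiF he) hNN).2 u v
  have h7 := (Pool.Agent.MUXF.xf_PRI A B hF c g e t hcb (eiF he) ht0).2 u v
  have h8 : emb ((nI c : ℕ) : OO A B) = ((nI c : ℕ) : ℂ) := by
    have h9 := (hA3 (nI c : ℤ)).1
    rw [Int.cast_natCast, Int.cast_natCast] at h9
    exact h9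
  have h10 : Pool.Agent.MUXF.PhiI (sp ((nI c : ℕ) : OO A B) * b) e u v =
      Pool.Agent.MUXF.PhiI (sp t * c) e u v := by rw [h4]
  have h11 : (starRingEnd ℂ) (emb ((nI c : ℕ) : OO A B)) = ((nI c : ℕ) : ℂ) := by
    rw [h8]
    exact map_natCast _ _
  have h12 : e ((nI c : ℕ) : OO A B) * (starRingEnd ℂ) (emb ((nI c : ℕ) : OO A B)) *
      PhiI b e u v = e t * (starRingEnd ℂ) (emb t) * PhiI c e u v :=
    h6.symm.trans (h10.trans h7)
  rw [h11] at h12
  exact h12

end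

end Pool.Agent.MUXY
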