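import Pool.Agent.MUX.XCAll
import Pool.Agent.MUX.Y_ALM
import Pool.Agent.MUX.Y_ALP
import Pool.Agent.MUX.Y_BIJ
import Pool.Agent.MUX.Y_BRI
import Pool.Agent.MUX.Y_CLN
import Pool.Agent.MUX.Y_CON
import Pool.Agent.MUX.Y_COP
import Pool.Agent.MUX.Y_CPD
import Pool.Agent.MUX.Y_DVI
import Pool.Agent.MUX.Y_EE
import Pool.Agent.MUX.Y_EI0
import Pool.Agent.MUX.Y_EIC
import Pool.Agent.MUX.Y_EXI
import Pool.Agent.MUX.Y_FCL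
import Pool.Agent.MUX.Y_FEC
import Pool.Agent.MUX.Y_FIN
import Pool.Agent.MUX.Y_IDF
import Pool.Agent.MUX.Y_MAP
import Pool.Agent.MUX.Y_MLR
import Pool.Agent.MUX.Y_MUI
import Pool.Agent.MUX.Y_MUU
import Pool.Agent.MUX.Y_NLD
import Pool.Agent.MUX.Y_NLE
import Pool.Agent.MUX.Y_NZL
import Pool.Agent.MUX.Y_PR4
import Pool.Agent.MUX.Y_QBF
import Pool.Agent.MUX.Y_QCO
import Pool.Agent.MUX.Y_QPR
import Pool.Agent.MUX.Y_RA1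
import Pool.Agent.MUX.Y_RAT
import Pool.Agent.MUX.Y_REX
import Pool.Agent.MUX.Y_SML
import Pool.Agent.MUX.Y_SUM
import Pool.Agent.MUX.Y_TER
import Pool.Agent.MUX.Y_TRN
import Pool.Agent.MUX.Y_LAF
import Pool.Agent.MUX.Y_ALQ
import Pool.Agent.MUX.Y_UNJ
import Pool.Agent.MUX.Y_UV

/-!
# MUX, section 9 without hypotheses (helper3)
-/

set_option autoImplicit false

namespace Pool.Agent.MUXY

open Pool.Agent.MUXF Pool.Agent.MUXU Pool.Agent.MUXC Pool.Agent.MU3B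

theorem z_IDF : Sy_IDF := ty_IDF xf_ALG xf_IDL xf_NIM
theorem z_BIJ : Sy_BIJ := ty_BIJ xf_ALG z_IDF
theorem z_BRI : Sy_BRI := ty_BRI xf_ALG
theorem z_EXI : Sy_EXI := ty_EXI c_SAM z_BRI
theorem z_MUU : Sy_MUU := ty_MUU
theorem z_MUI : Sy_MUI := ty_MUI xf_ALG xf_IDL
theorem z_ALM : Sy_ALM := ty_ALM xf_ALG xf_IDL z_EXI c_MUC z_MUU z_MUI u_AUT
theorem z_MAP : Sy_MAP := ty_MAP xf_ALG xf_NIM
theorem z_EE : Sy_EE := ty_EE u_PHI u_TSN u_EQP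
theorem z_QBF : Sy_QBF := ty_QBF xf_ALG xf_IDL xf_QB z_IDF
theorem z_SUM : Sy_SUM := ty_SUM xf_SMB
theorem z_TER : Sy_TER := ty_TER xf_ALG z_EE z_QBF
theorem z_PR4 : Sy_PR4 := ty_PR4 xf_ALG xf_QB
theorem z_EIC : Sy_EIC := ty_EIC
theorem z_RA1 : Sy_RA1 := ty_RA1 xf_SMB xf_F4 z_BIJ z_SUM z_TER z_PR4 z_EIC
theorem z_UV : Sy_UV := ty_UV xf_IDL xf_NIM
theorem z_RAT : Sy_RAT := ty_RAT xf_IDL z_MAP z_IDF z_UV z_RA1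
theorem z_FIN : Sy_FIN := ty_FIN xf_IDL xf_NIM z_RAT z_EXI
theorem z_FEC : Sy_FEC := ty_FEC
theorem z_ALP : Sy_ALP := ty_ALP z_FIN z_FEC z_ALM u_AUT
theorem z_UNJ : Sy_UNJ := ty_UNJ xf_ALG xf_IDL u_DET
theorem z_CON : Sy_CON := ty_CON z_FIN z_UNJ z_EIC
theorem z_COP : Sy_COP := ty_COP
theorem z_CPD : Sy_CPD := ty_CPD
theorem z_MLR : Sy_MLR := ty_MLR
theorem z_NZL : Sy_NZL := ty_NZL z_MLR
theorem z_NLE : Sy_NLE := ty_NLE z_NZL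
theorem z_NLD : Sy_NLD := ty_NLD
theorem z_SML : Sy_SML := ty_SML
theorem z_DVI : Sy_DVI := ty_DVI
theorem z_FCL : Sy_FCL := ty_FCL z_SML z_DVI
theorem z_QPR : Sy_QPR := ty_QPR
theorem z_QCO : Sy_QCO := ty_QCO z_QPR
theorem z_CLN : Sy_CLN := ty_CLN z_DVI z_QCO
theorem z_REX : Sy_REX := ty_REX z_NLE z_FCL z_CLN
theorem z_EI0 : Sy_EI0 := ty_EI0
theorem z_TRN : Sy_TRN := ty_TRN
theorem z_LAF : Sy_LAF := ty_LAF z_NLE c_SAM z_FCL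
theorem z_ALQ : Sy_ALQ := ty_ALQ z_NLD z_REX z_LAF z_EI0 z_TRN z_COP z_ALM z_ALP

end Pool.Agent.MUXY
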