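import Pool.Agent.MUX.StXC
import Pool.Agent.MU3.BAll

/-!
# MUX, block XC, module BAD: the bad primes (helper2)
-/

set_option autoImplicit false

open Polynomial NumberField IsDedekindDomain

namespace Pool.Agent.MUXC

open _root_.MU3 Pool.Agent.MU3A Pool.Agent.MU3B Pool.Agent.MUX Pool.Agent.MUXU Pool.Agent.RI
open Pool.Agent.MUXE (NL Sxe_RNG)

noncomputable section

namespace BAD

variable {A B : ℤ}

/-- `k` is algebraic over `ℚ` -/
theorem kk_alg (h : CQ A B) : Algebra.IsAlgebraic ℚ (kk A B) := by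
  have hw : wC A B ^ 2 = A + B * wC A B := by rw [sq]; exact wC_sq h
  refine IntermediateField.isAlgebraic_adjoin fun x hx => ?_
  rw [Set.mem_singleton_iff] at hx
  subst hx
  refine ⟨Polynomial.X ^ 2 - (Polynomial.C (B : ℚ) * Polynomial.X + Polynomial.C (A : ℚ)), ?_, ?_⟩
  · apply Polynomial.monic_X_pow_sub
    exact lt_of_le_of_lt Polynomial.degree_linear_le (by norm_num)
  · rw [Polynomial.eval₂_sub, Polynomial.eval₂_pow, Polynomial.eval₂_X, Polynomial.eval₂_add,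
      Polynomial.eval₂_mul, Polynomial.eval₂_C, Polynomial.eval₂_C, Polynomial.eval₂_X, map_intCast,
      map_intCast, hw]
    ring

/-- natural numbers are in every valuation ring -/
theorem v_nat_le (V : ValuationSubring ℂ) (n : ℕ) : V.valuation (n : ℂ) ≤ 1 :=
  (ValuationSubring.valuation_le_one_iff _ _).2 (natCast_mem V n)

theorem v_mul_one (V : ValuationSubring ℂ) {n m : ℕ} (h : V.valuation ((n * m : ℕ) : ℂ) = 1) :
    V.valuation (n : ℂ) = 1 ∧ V.valuation (m : ℂ) = 1 := by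
  rw [Nat.cast_mul, map_mul] at h
  have h1 := v_nat_le V n
  have h2 := v_nat_le V m
  constructor
  · refine le_antisymm h1 ?_
    rw [← h]
    calc V.valuation (n : ℂ) * V.valuation (m : ℂ) ≤ V.valuation (n : ℂ) * 1 :=
          mul_le_mul_right h2 _
      _ = _ := mul_one _
  · refine le_antisymm h2 ?_
    rw [← h]
    calc V.valuation (n : ℂ) * V.valuation (m : ℂ) ≤ 1 * V.valuation (m : ℂ) :=
          mul_le_mul_left h1 _
      _ = _ := one_mul _

/-- finitely many nonzero algebraic numbers are units outside finitely many primes -/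
theorem fin_unit (hALU : MUXV.Sq_ALU) {T : Set ℂ} (hT : T.Finite) :
    (∀ x ∈ T, IsAlgebraic ℚ x ∧ x ≠ 0) → ∃ n : ℕ, n ≠ 0 ∧ ∀ V : ValuationSubring ℂ,
      V.valuation (n : ℂ) = 1 → ∀ x ∈ T, V.valuation x = 1 := by
  induction T, hT using Set.Finite.induction_on with
  | empty =>
    intro _
    exact ⟨1, one_ne_zero, fun V _ x hx => absurd hx (Set.notMem_empty x)⟩
  | insert _ _ ih =>
    intro h
    obtain ⟨n, hn, h1⟩ := ih fun x hx => h x (Set.mem_insert_of_mem _ hx)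
    obtain ⟨ha, ha0⟩ := h _ (Set.mem_insert _ _)
    obtain ⟨m, hm, h2⟩ := hALU _ ha ha0
    refine ⟨n * m, mul_ne_zero hn hm, fun V hV x hx => ?_⟩
    obtain ⟨e1, e2⟩ := v_mul_one V hV
    rcases Set.mem_insert_iff.1 hx with rfl | hx
    · exact h2 V e2
    · exact h1 V e1 x hx

/-- `κ ≠ 0` and `g₂ ≠ 0` for a normalised lattice -/
theorem kap_ne (L : PeriodPair) (h : L.g₂ = -18 * L.g₃) : kap L ≠ 0 ∧ 12 * L.g₂ ≠ 0 := by
  have h1 := (b_DSC L).1
  have h2 : L.g₃ = -L.g₂ / 18 := by rw [h]; ring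
  rw [h2] at h1
  constructor
  · intro h0
    apply h1
    unfold kap at h0
    have h3 : 12 * L.g₂ - 1 = 0 := by
      have := h0
      field_simp at this
      linear_combination this
    linear_combination (L.g₂ ^ 2 / 12) * h3
  · intro h0
    apply h1
    have h3 : L.g₂ = 0 := by linear_combination h0 / 12
    rw [h3]; ring

end BAD

open BAD in
/-- (BAD) a number `n₀` such that at all `V` where `n₀` is a unit everything is good -/
theorem tc_BAD (hFNG : Sc_FNG) (hFGL : Sc_FGL) (hALU : MUXV.Sq_ALU) (hNGR : MUXV.Sx_NGR) :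
    Sc_BAD := by
  intro A B hC
  have hdom := isDomain hC
  have htop : (⊤ : Ideal (OO A B)) ≠ ⊥ := top_ne_bot
  have hfin := hFNG A B hC ⊤ htop
  obtain ⟨hfd, -, -⟩ := hFGL A B hC ⊤ htop
  have hkk := kk_alg hC
  -- all generators are algebraic
  have halg : ∀ c ∈ genS (⊤ : Ideal (OO A B)), IsAlgebraic ℚ c := by
    intro c hc
    have hmem : c ∈ (RF (⊤ : Ideal (OO A B)) : IntermediateField (kk A B) ℂ) :=
      IntermediateField.subset_adjoin _ _ hc
    have h1 : IsAlgebraic (kk A B)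
        (⟨c, hmem⟩ : (RF (⊤ : Ideal (OO A B)) : IntermediateField (kk A B) ℂ)) :=
      Algebra.IsAlgebraic.isAlgebraic _
    have h2 : IsAlgebraic (kk A B) c := h1.algebraMap (A := ℂ)
    exact h2.restrictScalars ℚ
  let S : Set ℂ := {κ | ∃ (b : Ideal (OO A B)) (L : PeriodPair) (om : ℂ), IsNL b L om ∧ κ = kap L}
  have hSsub : S ⊆ genS (⊤ : Ideal (OO A B)) := by
    rintro κ ⟨b, L, om, hL, rfl⟩
    exact ⟨b, L, om, hL, Or.inl rfl⟩
  have hSfin : S.Finite := hfin.subset hSsub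
  have hSalg : ∀ κ ∈ S, IsAlgebraic ℚ κ := fun κ h => halg κ (hSsub h)
  have hQ : ∀ q : ℚ, IsAlgebraic ℚ (q : ℂ) := fun q => by
    have := isAlgebraic_algebraMap (R := ℚ) (A := ℂ) q
    simpa using this
  let T : Set ℂ := ({2, 3, ((B ^ 2 + 4 * A : ℤ) : ℂ)} ∪ S) ∪ ((fun κ => 1 + 1728 * κ) '' S) ∪
    {x | ∃ κ ∈ S, ∃ κ' ∈ S, κ ≠ κ' ∧ x = κ - κ'}
  have hTfin : T.Finite := by
    refine ((Set.Finite.union (Set.toFinite _) hSfin).union (hSfin.image _)).union ?_
    refine (Set.Finite.image2 (fun κ κ' => κ - κ') hSfin hSfin).subset ?_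
    rintro x ⟨κ, hκ, κ', hκ', -, rfl⟩
    exact ⟨κ, hκ, κ', hκ', rfl⟩
  have hneg : (B ^ 2 + 4 * A : ℤ) ≠ 0 := by
    have := hC.neg
    omega
  have hT : ∀ x ∈ T, IsAlgebraic ℚ x ∧ x ≠ 0 := by
    rintro x (((h | h) | ⟨κ, h, rfl⟩) | ⟨κ, h, κ', h', hne, rfl⟩)
    · rcases h with rfl | rfl | rfl
      · exact ⟨by simpa using hQ 2, by norm_num⟩
      · exact ⟨by simpa using hQ 3, by norm_num⟩
      · refine ⟨?_, by exact_mod_cast hneg⟩
        have := hQ ((B ^ 2 + 4 * A : ℤ) : ℚ)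
        simpa using this
    · refine ⟨hSalg x h, ?_⟩
      obtain ⟨b, L, om, hL, rfl⟩ := h
      exact (kap_ne L hL.nrm).1
    · refine ⟨?_, ?_⟩
      · have h1 : IsAlgebraic ℚ (1 : ℂ) := by simpa using hQ 1
        have h2 : IsAlgebraic ℚ (1728 : ℂ) := by simpa using hQ 1728
        exact h1.add (h2.mul (hSalg κ h))
      · obtain ⟨b, L, om, hL, rfl⟩ := h
        have := (kap_ne L hL.nrm).2
        unfold kap
        intro h0
        apply this
        linear_combination h0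
    · exact ⟨(hSalg κ h).sub (hSalg κ' h'), sub_ne_zero.2 hne⟩
  obtain ⟨n₀, hn₀, hV⟩ := fin_unit hALU hTfin hT
  refine ⟨n₀, hn₀, fun V hv => ?_⟩
  have h := hV V hv
  have h2 : V.valuation 2 = 1 := h _ (Or.inl (Or.inl (Or.inl (Or.inl rfl))))
  refine ⟨h2, h _ (Or.inl (Or.inl (Or.inl (Or.inr (Or.inl rfl))))),
    h _ (Or.inl (Or.inl (Or.inl (Or.inr (Or.inr rfl))))), fun b L om hL => ?_,
    fun b b' L L' om om' hL hL' hlt => ?_⟩
  · have hS : kap L ∈ S := ⟨b, L, om, hL, rfl⟩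
    have hk : V.valuation (kap L) = 1 := h _ (Or.inl (Or.inl (Or.inr hS)))
    have hg : V.valuation (12 * L.g₂) = 1 := by
      have h3 : 12 * L.g₂ = 1 + 1728 * kap L := by
        unfold kap
        ring
      rw [h3]
      exact h _ (Or.inl (Or.inr ⟨_, hS, rfl⟩))
    exact ⟨hk, hg, hNGR V L hL.nrm h2 hk hg⟩
  · by_contra hne
    have h3 : V.valuation (kap L - kap L') = 1 :=
      h _ (Or.inr ⟨_, ⟨b, L, om, hL, rfl⟩, _, ⟨b', L', om', hL', rfl⟩, hne, rfl⟩)
    rw [h3] at hlt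
    exact lt_irrefl _ hlt

end

end Pool.Agent.MUXC
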