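import Pool.Agent.MUX.StXC

/-!
# MUX, block XC: module CLF, finitely many classes of ideals
-/

set_option autoImplicit false

open Polynomial NumberField IsDedekindDomain

namespace Pool.Agent.MUXC

open _root_.MU3 Pool.Agent.MU3A Pool.Agent.MU3B Pool.Agent.MUX Pool.Agent.MUXU Pool.Agent.RI
open Pool.Agent.MUXE (NL Sxe_RNG)

namespace CLF

variable {A B : ℤ}

/-- finitely many ideals contain a given nonzero integer -/
lemma fin_ideals (h : CQ A B) (M : ℕ) (hM : M ≠ 0) :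
    {b : Ideal (OO A B) | ((M : ℕ) : OO A B) ∈ b}.Finite := by
  have hb : (sp ((M : ℕ) : OO A B) : Ideal (OO A B)) ≠ ⊥ := by
    rw [Ne, Ideal.span_singleton_eq_bot]
    exact natCast_ne_zero' h hM
  have hfin : Finite (OO A B ⧸ sp ((M : ℕ) : OO A B)) := finite_quot h hb
  have hfinI : Finite (Ideal (OO A B ⧸ sp ((M : ℕ) : OO A B))) :=
    Finite.of_injective (fun I : Ideal (OO A B ⧸ sp ((M : ℕ) : OO A B)) =>
      (I : Set (OO A B ⧸ sp ((M : ℕ) : OO A B)))) SetLike.coe_injective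
  refine Set.Finite.of_finite_image
    (f := fun b => Ideal.map (Ideal.Quotient.mk (sp ((M : ℕ) : OO A B))) b) (Set.toFinite _) ?_
  have key : ∀ b : Ideal (OO A B), ((M : ℕ) : OO A B) ∈ b →
      Ideal.comap (Ideal.Quotient.mk (sp ((M : ℕ) : OO A B)))
        (Ideal.map (Ideal.Quotient.mk (sp ((M : ℕ) : OO A B))) b) = b := by
    intro b hb'
    rw [Ideal.comap_map_of_surjective _ Ideal.Quotient.mk_surjective, ← RingHom.ker_eq_comap_bot,
      Ideal.mk_ker, sup_eq_left, Ideal.span_singleton_le_iff_mem]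
    exact hb'
  intro b hb1 c hc1 hbc
  rw [← key b hb1, ← key c hc1]
  exact congrArg _ hbc

lemma nm_bound (r : ℕ) (y : OO A B) (h1 : |y.re| ≤ r) (h2 : |y.im| ≤ r) :
    nm y ≤ (1 + |B| + |A|) * (r : ℤ) ^ 2 := by
  unfold nm
  have hr : (0 : ℤ) ≤ r := by positivity
  have e1 : y.re ^ 2 ≤ (r : ℤ) ^ 2 := by
    rw [← sq_abs]
    exact pow_le_pow_left₀ (abs_nonneg _) h1 2
  have e2 : y.im ^ 2 ≤ (r : ℤ) ^ 2 := by
    rw [← sq_abs]
    exact pow_le_pow_left₀ (abs_nonneg _) h2 2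
  have e3 : B * y.re * y.im ≤ |B| * (r : ℤ) ^ 2 := by
    refine (le_abs_self _).trans ?_
    rw [abs_mul, abs_mul, mul_assoc]
    refine mul_le_mul_of_nonneg_left ?_ (abs_nonneg _)
    rw [sq]
    exact mul_le_mul h1 h2 (abs_nonneg _) hr
  have e4 : -(A * y.im ^ 2) ≤ |A| * (r : ℤ) ^ 2 := by
    refine (neg_le_abs _).trans ?_
    rw [abs_mul, abs_of_nonneg (sq_nonneg y.im)]
    exact mul_le_mul_of_nonneg_left e2 (abs_nonneg _)
  linarith

end CLF

open CLF in
theorem tc_CLF : Sc_CLF := by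
  intro A B h
  classical
  set C : ℕ := 1 + B.natAbs + A.natAbs with hC
  have hCz : (C : ℤ) = 1 + |B| + |A| := by
    rw [hC]; push_cast; rfl
  have hM : C.factorial ≠ 0 := C.factorial_ne_zero
  have hfin := fin_ideals h C.factorial hM
  refine ⟨hfin.toFinset.filter (fun b => b ≠ ⊥), fun b hb => (Finset.mem_filter.mp hb).2, ?_⟩
  intro c hc
  set N := nI c with hN
  have hN0 : N ≠ 0 := nI_ne_zero h hc
  set r := Nat.sqrt N with hr
  have hr1 : r * r ≤ N := Nat.sqrt_le N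
  have hr2 : N < (r + 1) * (r + 1) := Nat.lt_succ_sqrt N
  have hcj : cjI c ≠ ⊥ := cjI_ne_bot h hc
  have hfq : Finite (OO A B ⧸ cjI c) := finite_quot h hcj
  have hcard : Nat.card (OO A B ⧸ cjI c) = N := nI_cjI h hc
  obtain ⟨y, hy0, hyc, hyr, hyi⟩ : ∃ y : OO A B, y ≠ 0 ∧ y ∈ cjI c ∧ |y.re| ≤ r ∧ |y.im| ≤ r := by
    let _ : Fintype (OO A B ⧸ cjI c) := Fintype.ofFinite _
    let φ : Fin (r + 1) × Fin (r + 1) → OO A B ⧸ cjI c := fun q =>
      Ideal.Quotient.mk (cjI c) (⟨((q.1 : ℕ) : ℤ), ((q.2 : ℕ) : ℤ)⟩ : OO A B)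
    have hlt : Fintype.card (OO A B ⧸ cjI c) < Fintype.card (Fin (r + 1) × Fin (r + 1)) := by
      rw [Fintype.card_prod, Fintype.card_fin, ← Nat.card_eq_fintype_card, hcard]
      exact hr2
    obtain ⟨q, q', hne, hqq⟩ := Fintype.exists_ne_map_eq_of_card_lt φ hlt
    have hmem := Ideal.Quotient.eq.mp hqq
    refine ⟨_, ?_, hmem, ?_, ?_⟩
    · intro h0
      have h1 := congrArg QuadraticAlgebra.re h0
      have h2 := congrArg QuadraticAlgebra.im h0
      simp only [QuadraticAlgebra.re_sub, QuadraticAlgebra.im_sub, QuadraticAlgebra.re_zero,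
        QuadraticAlgebra.im_zero] at h1 h2
      apply hne
      ext
      · omega
      · omega
    · simp only [QuadraticAlgebra.re_sub]
      have h1 := q.1.isLt
      have h2 := q'.1.isLt
      rw [abs_le]; constructor <;> omega
    · simp only [QuadraticAlgebra.im_sub]
      have h1 := q.2.isLt
      have h2 := q'.2.isLt
      rw [abs_le]; constructor <;> omega
  have hspy : (sp y : Ideal (OO A B)) ≠ ⊥ := by
    rw [Ne, Ideal.span_singleton_eq_bot]; exact hy0
  have hspN : (sp ((N : ℕ) : OO A B) : Ideal (OO A B)) ≠ ⊥ := by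
    rw [Ne, Ideal.span_singleton_eq_bot]
    exact natCast_ne_zero' h hN0
  have hle : sp y * c ≤ sp ((N : ℕ) : OO A B) := by
    rw [← mul_cjI h hc, mul_comm c]
    exact Ideal.mul_mono_left ((Ideal.span_singleton_le_iff_mem _).mpr hyc)
  set a : Ideal (OO A B) := Submodule.comap (LinearMap.mulLeft (OO A B) ((N : ℕ) : OO A B))
    (sp y * c) with ha
  have hmema : ∀ t, t ∈ a ↔ ((N : ℕ) : OO A B) * t ∈ sp y * c := fun t => Iff.rfl
  have heq : sp y * c = sp ((N : ℕ) : OO A B) * a := by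
    ext s
    rw [Ideal.mem_span_singleton_mul (x := s) (y := ((N : ℕ) : OO A B))]
    constructor
    · intro hs
      obtain ⟨t, ht⟩ := Ideal.mem_span_singleton.mp (hle hs)
      exact ⟨t, (hmema t).mpr (ht ▸ hs), ht.symm⟩
    · rintro ⟨t, ht, rfl⟩
      exact (hmema t).mp ht
  have hyc0 : sp y * c ≠ ⊥ := mul_ne_bot h hspy hc
  have ha0 : a ≠ ⊥ := by
    intro h0
    rw [h0, Ideal.mul_bot] at heq
    exact hyc0 heq
  have hnorm := congrArg nI heq
  rw [nI_mul h hspy hc, nI_mul h hspN ha0, nI_sp h hy0, nI_sp h (natCast_ne_zero' h hN0)] at hnorm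
  have hnmN : (nm ((N : ℕ) : OO A B)).natAbs = N ^ 2 := by
    have h1 : nm ((N : ℕ) : OO A B) = ((N : ℕ) : ℤ) ^ 2 := by simp [nm]
    rw [h1, Int.natAbs_pow, Int.natAbs_natCast]
  rw [hnmN, ← hN] at hnorm
  have h1 : (nm y).natAbs = N * nI a := by
    have h2 : N * (nm y).natAbs = N * (N * nI a) := by
      calc N * (nm y).natAbs = (nm y).natAbs * N := mul_comm _ _
        _ = N ^ 2 * nI a := hnorm
        _ = N * (N * nI a) := by ring
    exact Nat.eq_of_mul_eq_mul_left (Nat.pos_of_ne_zero hN0) h2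
  have h2 : (nm y).natAbs ≤ C * N := by
    have h3 := nm_bound r y hyr hyi
    have h4 : ((nm y).natAbs : ℤ) = nm y := Int.natAbs_of_nonneg (nm_nonneg h y)
    have h5 : ((r : ℤ)) ^ 2 ≤ (N : ℤ) := by
      have : ((r * r : ℕ) : ℤ) ≤ (N : ℤ) := by exact_mod_cast hr1
      push_cast at this
      nlinarith
    have h6 : ((nm y).natAbs : ℤ) ≤ (C : ℤ) * N := by
      rw [h4, hCz]
      refine h3.trans (mul_le_mul_of_nonneg_left h5 ?_)
      positivity
    exact_mod_cast h6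
  have h3 : nI a ≤ C := by
    rw [h1, mul_comm C N] at h2
    exact Nat.le_of_mul_le_mul_left h2 (Nat.pos_of_ne_zero hN0)
  have h4 : nI a ∣ C.factorial :=
    Nat.dvd_factorial (Nat.pos_of_ne_zero (nI_ne_zero h ha0)) h3
  have h5 : ((C.factorial : ℕ) : OO A B) ∈ a := by
    obtain ⟨k, hk⟩ := h4
    rw [hk, Nat.cast_mul]
    exact a.mul_mem_right _ (nI_mem h ha0)
  exact ⟨a, Finset.mem_filter.mpr ⟨hfin.mem_toFinset.mpr h5, ha0⟩, y, ((N : ℕ) : OO A B), hy0,
    natCast_ne_zero' h hN0, heq⟩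

end Pool.Agent.MUXC
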