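import Pool.Agent.MUX.StXC

/-!
# MUX, block XC: COP, every class contains an integral ideal prime to `m` (helper95)
-/

set_option autoImplicit false

open Polynomial NumberField IsDedekindDomain

namespace Pool.Agent.MUXC

open _root_.MU3 Pool.Agent.MU3A Pool.Agent.MU3B Pool.Agent.MUX Pool.Agent.MUXU Pool.Agent.RI
open Pool.Agent.MUXE (NL Sxe_RNG)

noncomputable section

theorem tc_COP (h1 : Sxe_RNG) : Sc_COP := by
  intro A B hq c m hc hm
  have hD : IsDedekindDomain (OO A B) := (h1 A B hq).ded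
  have hcj := cjI_ne_bot hq hc
  have hN : ((nI c : ℕ) : OO A B) ≠ 0 := natCast_ne_zero' hq (nI_ne_zero hq hc)
  obtain ⟨y, hy⟩ := IsDedekindDomain.exists_sup_span_eq (I := m * cjI c) (J := cjI c)
    Ideal.mul_le_right (mul_ne_bot hq hm hcj)
  by_cases hy0 : y = 0
  · have hm1 : m = ⊤ := by
      rw [hy0, Ideal.span_singleton_zero, sup_bot_eq] at hy
      apply mul_cancel hq hcj
      rw [Ideal.mul_top, mul_comm]
      exact hy
    refine ⟨c, 1, 1, hc, ?_, one_ne_zero, one_ne_zero, rfl⟩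
    rw [hm1, Ideal.isCoprime_iff_sup_eq, sup_top_eq]
  · have hle : Ideal.span {y} ≤ cjI c := by
      calc Ideal.span {y} ≤ m * cjI c ⊔ Ideal.span {y} := le_sup_right
        _ = cjI c := hy
    obtain ⟨a, ha⟩ := Ideal.dvd_iff_le.2 hle
    have ha0 : a ≠ ⊥ := by
      rintro rfl
      rw [Ideal.mul_bot, Ideal.span_singleton_eq_bot] at ha
      exact hy0 ha
    refine ⟨a, y, ((nI c : ℕ) : OO A B), ha0, ?_, hy0, hN, ?_⟩
    · rw [Ideal.isCoprime_iff_sup_eq]
      apply mul_cancel hq hcj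
      rw [Ideal.mul_sup, Ideal.mul_top, ← ha, sup_comm, mul_comm (cjI c) m]
      exact hy
    · show Ideal.span {y} * c = sp ((nI c : ℕ) : OO A B) * a
      rw [ha, ← mul_cjI hq hc, mul_comm (cjI c * a) c, mul_assoc]

end

end Pool.Agent.MUXC
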