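import Pool.Agent.MUX.StXC
import Pool.Agent.MU3.StDF
import Pool.Agent.MU3.V_EXT
import Pool.Agent.MU3.W_LOC

/-!
# MUX, block XC, module DNX: a subgroup which contains the Frobenius automorphisms of almost all
primes of degree one
-/

set_option autoImplicit false

open Polynomial NumberField IsDedekindDomain

namespace Pool.Agent.MUXC

open _root_.MU3 Pool.Agent.MU3A Pool.Agent.MU3B Pool.Agent.MUX Pool.Agent.MUXU Pool.Agent.RI
open Pool.Agent.MUXE (NL Sxe_RNG)

noncomputable section

theorem tc_DNX (h0 : Sxe_RNG) (hD : Pool.Agent.MU3.Stmt_DENSF) : Sc_DNX := by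
  intro A B hAB F _ _ H n hn hyp
  obtain ⟨⟨φ, hφ⟩, hinj, -, -, hint⟩ := h0 A B hAB
  have hw0 : IsIntegral ℤ (wC A B) := by
    rw [hint _ (wC_mem A B)]
    exact ⟨⟨0, 1⟩, by simp [emb]⟩
  have hfd : FiniteDimensional ℚ (kk A B) :=
    IntermediateField.adjoin.finiteDimensional hw0.tower_top
  have hk : NumberField (kk A B) := ⟨⟩
  have hFQ : FiniteDimensional ℚ F := FiniteDimensional.trans ℚ (kk A B) F
  have hF : NumberField F := ⟨⟩
  have hIn : ∀ x : OO A B, IsIntegral ℤ (ek x) := by
    intro x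
    have h2 : IsIntegral ℤ (emb x) := (hint (emb x) (MU3A.emb_mem x)).mpr ⟨x, rfl⟩
    have h3 : algebraMap (kk A B) ℂ (ek x) = emb x := rfl
    rw [← h3] at h2
    exact (isIntegral_algebraMap_iff (FaithfulSMul.algebraMap_injective (kk A B) ℂ)).mp h2
  let e0 : OO A B →+* 𝓞 (kk A B) :=
    { toFun := fun x => ⟨ek x, hIn x⟩
      map_one' := by
        apply RingOfIntegers.ext
        apply Subtype.ext
        change emb 1 = 1
        rw [← hφ, map_one]
      map_mul' := by
        intro a b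
        apply RingOfIntegers.ext
        apply Subtype.ext
        change emb (a * b) = emb a * emb b
        rw [← hφ, ← hφ, ← hφ, map_mul]
      map_zero' := by
        apply RingOfIntegers.ext
        apply Subtype.ext
        change emb 0 = 0
        rw [← hφ, map_zero]
      map_add' := by
        intro a b
        apply RingOfIntegers.ext
        apply Subtype.ext
        change emb (a + b) = emb a + emb b
        rw [← hφ, ← hφ, ← hφ, map_add] }
  have he0v : ∀ x : OO A B, (((e0 x : kk A B)) : ℂ) = emb x := fun x => rfl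
  have hsurj : Function.Surjective e0 := by
    intro y
    have h2 : IsIntegral ℤ ((y : kk A B) : ℂ) :=
      (RingOfIntegers.isIntegral_coe y).map (Algebra.ofId (kk A B) ℂ |>.restrictScalars ℤ)
    obtain ⟨x, hx⟩ := (hint _ (y : kk A B).2).mp h2
    refine ⟨x, ?_⟩
    apply RingOfIntegers.ext
    apply Subtype.ext
    rw [he0v, hx]
  refine hD (kk A B) F H {v : HeightOneSpectrum (𝓞 (kk A B)) | ((n : ℕ) : 𝓞 (kk A B)) ∈ v.asIdeal}
    ?_ ?_
  · have k0 : (Ideal.span {((n : ℕ) : 𝓞 (kk A B))} : Ideal (𝓞 (kk A B))) ≠ 0 := by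
      rw [Ne, Ideal.zero_eq_bot, Ideal.span_singleton_eq_bot]
      exact_mod_cast hn
    refine (Ideal.finite_factors k0).subset ?_
    intro v hv
    show v.asIdeal ∣ _
    rw [Ideal.dvd_span_singleton]
    exact hv
  · intro v hv hq w hw hwv σ hσ
    set q := Ideal.absNorm v.asIdeal with hqdef
    have hqmem : ((q : ℕ) : 𝓞 (kk A B)) ∈ v.asIdeal := Ideal.absNorm_mem v.asIdeal
    have hQp : (v.asIdeal.comap e0).IsPrime := Ideal.comap_isPrime e0 v.asIdeal
    have hcard : nI (v.asIdeal.comap e0) = q := by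
      rw [hqdef, Ideal.absNorm_apply, Submodule.cardQuot_apply]
      unfold nI
      refine Nat.card_congr ?_
      refine Equiv.ofBijective (Ideal.quotientMap v.asIdeal e0 le_rfl) ⟨?_, ?_⟩
      · exact Ideal.quotientMap_injective
      · exact Ideal.quotientMap_surjective hsurj
    have hwb : w ≠ ⊥ := by
      intro hb
      apply v.ne_bot
      rw [← hwv, hb]
      exact Ideal.comap_bot_of_injective _ (FaithfulSMul.algebraMap_injective (𝓞 (kk A B)) (𝓞 F))
    let w' : HeightOneSpectrum (𝓞 F) := ⟨w, hw, hwb⟩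
    obtain ⟨V, hV⟩ := Pool.Agent.MU3V.tv_EXT F (algebraMap F ℂ) w'
    refine hyp (v.asIdeal.comap e0) q hq hQp hcard ?_ V ?_ σ ?_
    · intro hdvd
      apply hv
      obtain ⟨t, ht⟩ := hdvd
      show ((n : ℕ) : 𝓞 (kk A B)) ∈ v.asIdeal
      rw [ht]
      push_cast
      exact Ideal.mul_mem_right _ _ hqmem
    · intro x
      rw [ValuationSubring.mem_nonunits_iff, Ideal.mem_comap, ← hwv, Ideal.mem_comap]
      have h2 := (hV (algebraMap (𝓞 F) F (algebraMap (𝓞 (kk A B)) (𝓞 F) (e0 x)))).2.1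
      rw [HeightOneSpectrum.valuation_lt_one_iff_mem] at h2
      exact h2
    · refine Pool.Agent.MU3V.tw_LOC A B F w' V (fun x => ⟨(hV x).1, (hV x).2.1⟩) σ q hq.pos ?_
      intro x
      have hx : IsIntegral ℤ (σ (x : F)) := by
        have h3 := x.isIntegral_coe
        exact h3.map (σ.toAlgHom.toRingHom.toIntAlgHom)
      refine ⟨⟨σ (x : F), hx⟩ - x ^ q, hσ x ⟨σ (x : F), hx⟩ rfl, ?_⟩
      push_cast
      rfl

end

end Pool.Agent.MUXC
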