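import Pool.Agent.MUX.StXC

/-!
# MUX, block XC, module ENO: the multipliers of a lattice with complex multiplication (helper18)
-/

set_option autoImplicit false

namespace Pool.Agent.MUXC

open _root_.MU3 Pool.Agent.MU3A Pool.Agent.MU3B Pool.Agent.MUX Pool.Agent.MUXU

/-- (ENO) the multipliers of `L` are the elements of `O`. -/
theorem tc_ENO : Sc_ENO := by
  intro A B h b L om hL c hc
  obtain ⟨β, hβ, hβ0⟩ := Submodule.exists_mem_ne_zero_of_ne_bot hL.b_ne
  have key : ∀ t ∈ b, ∃ t' ∈ b, c * emb t = emb t' := by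
    intro t ht
    have h1 : om * emb t ∈ L.lattice := (hL.mem _).2 ⟨t, ht, rfl⟩
    obtain ⟨t', ht', e⟩ := (hL.mem _).1 (hc _ h1)
    refine ⟨t', ht', mul_left_cancel₀ hL.om_ne ?_⟩
    rw [← e]
    ring
  obtain ⟨β', -, e⟩ := key β hβ
  have hle : b * sp β' ≤ b * sp β := by
    rw [Ideal.mul_le]
    intro t ht y hy
    obtain ⟨z, rfl⟩ := Ideal.mem_span_singleton'.1 hy
    obtain ⟨t', ht', e'⟩ := key t ht
    have h1 : t * β' = t' * β := emb_inj h (by rw [emb_mul h, emb_mul h, ← e, ← e']; ring)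
    have h2 : t * (z * β') = (z * t') * β := by
      rw [mul_left_comm, h1, mul_assoc]
    rw [h2]
    exact Ideal.mul_mem_mul (b.mul_mem_left z ht') (Ideal.mem_span_singleton_self β)
  have h3 : β' ∈ sp β := (mul_le_mul_iff h hL.b_ne).1 hle (Ideal.mem_span_singleton_self β')
  obtain ⟨x, hx⟩ := Ideal.mem_span_singleton'.1 h3
  refine ⟨x, mul_right_cancel₀ (emb_ne_zero h hβ0) ?_⟩
  rw [e, ← hx, emb_mul h]

end Pool.Agent.MUXC
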