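import Pool.Agent.MUX.StXC

/-!
# MUX, block XC: module EXA, existence of the ideal of an automorphism, for one lattice
-/

set_option autoImplicit false

open Polynomial NumberField IsDedekindDomain

namespace Pool.Agent.MUXC

open _root_.MU3 Pool.Agent.MU3A Pool.Agent.MU3B Pool.Agent.MUX Pool.Agent.MUXU Pool.Agent.RI
open Pool.Agent.MUXE (NL Sxe_RNG)

noncomputable section

namespace EXA

/-- an element whose multiplication is injective modulo `m` is prime to `m` -/
lemma coprime_of_inj {A B : ℤ} (hc : CQ A B) {m : Ideal (OO A B)} (hm : m ≠ ⊥) (c : OO A B)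
    (h : ∀ x : OO A B, x * c ∈ m → x ∈ m) : IsCoprime (sp c) m := by
  have hf : Finite (OO A B ⧸ m) := finite_quot hc hm
  have hinj : Function.Injective (fun q : OO A B ⧸ m => q * Ideal.Quotient.mk m c) := by
    intro q q' hq
    obtain ⟨x, rfl⟩ := Ideal.Quotient.mk_surjective q
    obtain ⟨x', rfl⟩ := Ideal.Quotient.mk_surjective q'
    have h1 : Ideal.Quotient.mk m x * Ideal.Quotient.mk m c =
        Ideal.Quotient.mk m x' * Ideal.Quotient.mk m c := hq
    rw [← map_mul, ← map_mul, Ideal.Quotient.eq, ← sub_mul] at h1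
    exact Ideal.Quotient.eq.2 (h _ h1)
  have hsurj := Finite.surjective_of_injective hinj
  obtain ⟨q, hq⟩ := hsurj 1
  obtain ⟨y, rfl⟩ := Ideal.Quotient.mk_surjective q
  have h1 : Ideal.Quotient.mk m y * Ideal.Quotient.mk m c = Ideal.Quotient.mk m 1 := by
    rw [map_one]
    exact hq
  rw [← map_mul, Ideal.Quotient.eq] at h1
  rw [Ideal.isCoprime_iff_exists]
  refine ⟨y * c, Ideal.mul_mem_left _ _ (Ideal.mem_span_singleton_self c), 1 - y * c, ?_, by ring⟩
  have h2 := m.neg_mem h1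
  rwa [neg_sub] at h2

end EXA

theorem tc_EXA (hQEX : Sc_QEX) (hGEN : Sc_GEN) (hCJN : Sc_CJN) (hPMF : Sc_PMF) (hPHM : Sc_PHM)
    (hPHI : Su_PHI) : Sc_EXA := by
  intro A B hc σ hσ m b b' L L' om om' hm hL hL' hk
  obtain ⟨a₀, mu₀, ha₀, hcop, hq⟩ := hQEX A B hc b b' m L L' om om' hL.toIsLI hL'.toIsLI hm
  have hcm : HasCM A B L := hL.toIsLI.hasCM hc
  have hcm' : HasCM A B L' := hq.cm hc
  have hmem : ∀ z ∈ L.lattice, mu₀ * z ∈ L'.lattice := fun z hz => hq.mem hcm hz
  by_cases htop : m = ⊤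
  · refine ⟨a₀, mu₀, hk, hcop, hq, ?_⟩
    intro z hz
    rw [htop, tor_top hc hcm] at hz
    exact Or.inl ⟨hz, hmem z hz⟩
  obtain ⟨u, hu1, hu2, hu3⟩ := hGEN A B hc b m L om hL.toIsLI hm
  have hcj : IsCj σ L L' := (hCJN A B hc).2.1 σ L L' hL.nrm hL'.nrm hk
  obtain ⟨Φ, hΦ⟩ := hPHI σ L L' hcj
  obtain ⟨p1, p2, p3, -⟩ := hPHM A B hc σ hσ b L L' om hL.toIsLI hcj Φ hΦ
  -- every point of level `m` of `L'` is a multiple of `mu₀ u`
  have claim : ∀ z', Tor m L' z' → ∃ x : OO A B, z' - emb x * (mu₀ * u) ∈ L'.lattice := by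
    intro z' hz'
    obtain ⟨α, hα, β, hβ, hαβ⟩ := Ideal.isCoprime_iff_exists.1 hcop
    have hmu := hq.1
    have h1 : Tor m L (emb α * (z' / mu₀)) := by
      intro t ht
      have h2 : mu₀ * (emb t * (z' / mu₀)) ∈ L'.lattice := by
        have e : mu₀ * (emb t * (z' / mu₀)) = emb t * z' := by field_simp
        rw [e]
        exact hz' t ht
      have h3 := (hq.2 _).1 h2 α hα
      have e : emb t * (emb α * (z' / mu₀)) = emb α * (emb t * (z' / mu₀)) := by ring
      rw [e]
      exact h3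
    obtain ⟨x, hx⟩ := hu3 _ h1
    refine ⟨x, ?_⟩
    have h2 := add_mem (hmem _ hx) (hz' β hβ)
    have h3 : emb α + emb β = 1 := by rw [← emb_add hc, hαβ, emb_one hc]
    have e : mu₀ * (emb α * (z' / mu₀) - emb x * u) + emb β * z' =
        z' - emb x * (mu₀ * u) := by
      have e1 : mu₀ * (emb α * (z' / mu₀) - emb x * u) = emb α * z' - emb x * (mu₀ * u) := by
        field_simp
      rw [e1]
      linear_combination z' * h3
    rwa [e] at h2
  obtain ⟨c, hcu⟩ := claim (Φ u) ((p2 m u).2 hu1)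
  -- `c` is prime to `m`
  have hinj : ∀ x : OO A B, x * c ∈ m → x ∈ m := by
    intro x hx
    have h1 := (hu2 _).2 hx
    have h2 := hmem _ h1
    have h3 := hcm' x _ hcu
    have h4 := p1 x u
    have h5 : Φ (emb x * u) ∈ L'.lattice := by
      have h6 := add_mem (add_mem h4 h3) h2
      have e : Φ (emb x * u) - emb x * Φ u + emb x * (Φ u - emb c * (mu₀ * u)) +
          mu₀ * (emb (x * c) * u) = Φ (emb x * u) := by
        rw [emb_mul hc]
        ring
      rwa [e] at h6
    exact (hu2 x).1 ((hΦ.mem _).1 h5)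
  have hcc : IsCoprime (sp c) m := EXA.coprime_of_inj hc hm c hinj
  have hc0 : c ≠ 0 := by
    rintro rfl
    apply htop
    rw [Ideal.eq_top_iff_one]
    apply hinj
    rw [mul_zero]
    exact m.zero_mem
  have hec : emb c ≠ 0 := emb_ne_zero hc hc0
  refine ⟨sp c * a₀, emb c * mu₀, hk, IsCoprime.mul_left hcc hcop,
    ⟨mul_ne_zero hec hq.1, ?_⟩, ?_⟩
  · intro z
    have e1 : emb c * mu₀ * z = mu₀ * (emb c * z) := by ring
    rw [e1, hq.2]
    constructor
    · intro h x hx
      obtain ⟨s, hs, rfl⟩ := Ideal.mem_span_singleton_mul.1 hx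
      have h1 := h s hs
      have e : emb (c * s) * z = emb s * (emb c * z) := by
        rw [emb_mul hc]
        ring
      rw [e]
      exact h1
    · intro h s hs
      have h1 := h (c * s) (Ideal.mem_span_singleton_mul.2 ⟨s, hs, rfl⟩)
      have e : emb (c * s) * z = emb s * (emb c * z) := by
        rw [emb_mul hc]
        ring
      rwa [e] at h1
  · intro z hz
    rw [hPMF σ L L' Φ hΦ]
    obtain ⟨x, hx⟩ := hu3 z hz
    have h1 := (p3 z (emb x * u)).2 hx
    have h2 := p1 x u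
    have h3 := hcm' x _ hcu
    have h4 := hmem _ (hcm c _ hx)
    have h5 := sub_mem (add_mem (add_mem h1 h2) h3) h4
    have e : Φ z - Φ (emb x * u) + (Φ (emb x * u) - emb x * Φ u) +
        emb x * (Φ u - emb c * (mu₀ * u)) - mu₀ * (emb c * (z - emb x * u)) =
        Φ z - emb c * mu₀ * z := by ring
    rwa [e] at h5

end

end Pool.Agent.MUXC
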