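import Pool.Agent.MUX.StXC
import Pool.Agent.MU3.V_EXT
import Pool.Agent.MU3.W_LOC

/-!
# MUX, block XC: existence of Frobenius automorphisms at a prime ideal of prime norm
-/

set_option autoImplicit false

open Polynomial NumberField IsDedekindDomain

namespace Pool.Agent.MUXC

open _root_.MU3 Pool.Agent.MU3A Pool.Agent.MU3B Pool.Agent.MUX Pool.Agent.MUXU Pool.Agent.RI
open Pool.Agent.MUXE (NL Sxe_RNG)

namespace FEX

/-- existence of the Frobenius automorphism -/
lemma exists_frob (k F : Type) [Field k] [NumberField k] [Field F] [NumberField F] [Algebra k F]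
    [IsGalois k F] (w : Ideal (𝓞 F)) (hw : w.IsPrime) (hb : w ≠ ⊥) (q : ℕ)
    (hq : Nat.card (𝓞 k ⧸ w.under (𝓞 k)) = q) :
    ∃ σ : F ≃ₐ[k] F, ∀ x : 𝓞 F, ∃ y ∈ w, (y : F) = σ x - (x : F) ^ q := by
  have hwfin : Finite (𝓞 F ⧸ w) := Ideal.finiteQuotientOfFreeOfNeBot w hb
  obtain ⟨σ, hσ⟩ := IsArithFrobAt.exists_of_isInvariant (𝓞 k) Gal(F/k) w
  refine ⟨σ, fun x => ⟨_, hσ x, ?_⟩⟩
  rw [hq]
  change algebraMap (𝓞 F) F (_ - _) = _
  rw [map_sub, map_pow]
  rfl

/-- a prime above `Q` and its Frobenius automorphism, for an isomorphism `e : R ≃ 𝓞 k` -/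
lemma exists_all (k F : Type) [Field k] [NumberField k] [Field F] [NumberField F] [Algebra k F]
    [IsGalois k F] {R : Type} [CommRing R] (e : R ≃+* 𝓞 k)
    (Q : Ideal R) (hQ : Q.IsPrime) (q : ℕ) (hq : q.Prime) (hc : Nat.card (R ⧸ Q) = q) :
    ∃ w : Ideal (𝓞 F), w.IsPrime ∧ w ≠ ⊥ ∧
      (∀ x : R, algebraMap (𝓞 k) (𝓞 F) (e x) ∈ w ↔ x ∈ Q) ∧
      ∃ σ : F ≃ₐ[k] F, ∀ x : 𝓞 F, ∃ y ∈ w, (y : F) = σ x - (x : F) ^ q := by
  obtain ⟨P, hP⟩ : ∃ P : Ideal (𝓞 k), P = Q.map (e : R →+* 𝓞 k) := ⟨_, rfl⟩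
  have hPmem : ∀ x : R, e x ∈ P ↔ x ∈ Q := by
    intro x
    rw [hP]
    constructor
    · intro h
      rw [Ideal.mem_map_iff_of_surjective (e : R →+* 𝓞 k) e.surjective] at h
      obtain ⟨y, hy, hxy⟩ := h
      rwa [← e.injective hxy]
    · intro h
      exact Ideal.mem_map_of_mem (e : R →+* 𝓞 k) h
  have hcard : Nat.card (𝓞 k ⧸ P) = q := by
    rw [← hc]
    exact (Nat.card_congr (Ideal.quotientEquiv Q P e hP).toEquiv).symm
  have hPp : P.IsPrime := by
    refine ⟨?_, ?_⟩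
    · intro h
      apply hQ.ne_top
      rw [Ideal.eq_top_iff_one, ← hPmem, h]
      trivial
    · intro x y hxy
      obtain ⟨a, rfl⟩ := e.surjective x
      obtain ⟨b, rfl⟩ := e.surjective y
      rw [← map_mul, hPmem] at hxy
      rw [hPmem, hPmem]
      exact hQ.mem_or_mem hxy
  have hPb : P ≠ ⊥ := by
    rintro h
    have h1 : Finite (𝓞 k ⧸ P) := Nat.finite_of_card_ne_zero (by rw [hcard]; exact hq.ne_zero)
    have h2 : Function.Injective (algebraMap ℤ (𝓞 k ⧸ P)) := by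
      rw [injective_iff_map_eq_zero]
      intro n hn
      have h3 : Ideal.Quotient.mk P (algebraMap ℤ (𝓞 k) n) = 0 := hn
      rw [Ideal.Quotient.eq_zero_iff_mem, h] at h3
      have h4 : algebraMap ℤ (𝓞 k) n = 0 := by simpa using h3
      exact (FaithfulSMul.algebraMap_injective ℤ (𝓞 k)) (by rw [h4, map_zero])
    exact (Infinite.of_injective _ h2).not_finite h1
  obtain ⟨⟨w, hw, hwp⟩⟩ := (inferInstance : Nonempty (Ideal.primesOver P (𝓞 F)))
  have hwb : w ≠ ⊥ := Ideal.ne_bot_of_liesOver_of_ne_bot hPb w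
  refine ⟨w, hw, hwb, ?_, ?_⟩
  · intro x
    have h1 : e x ∈ w.under (𝓞 k) ↔ x ∈ Q := by rw [← hwp.over]; exact hPmem x
    exact h1
  · apply exists_frob k F w hw hwb q
    rw [← hwp.over]
    exact hcard

end FEX

open FEX in
theorem tc_FEX (h1 : Sxe_RNG) : Sc_FEX := by
  intro A B hAB F _ _ Q q hq hQp hQ
  obtain ⟨⟨φ, hφ⟩, hinj, -, -, hint⟩ := h1 A B hAB
  have hw0 : IsIntegral ℤ (wC A B) := by
    rw [hint _ (wC_mem A B)]
    exact ⟨⟨0, 1⟩, by simp [emb]⟩
  have hfd : FiniteDimensional ℚ (kk A B) :=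
    IntermediateField.adjoin.finiteDimensional hw0.tower_top
  have hk : NumberField (kk A B) := ⟨⟩
  have hFQ : FiniteDimensional ℚ F := FiniteDimensional.trans ℚ (kk A B) F
  have hF : NumberField F := ⟨⟩
  have hIn : ∀ x : OO A B, IsIntegral ℤ (ek x) := by
    intro x
    have h2 : IsIntegral ℤ (emb x) := (hint (emb x) (MU3A.emb_mem x)).mpr ⟨x, rfl⟩
    have h3 : algebraMap (kk A B) ℂ (ek x) = emb x := rfl
    rw [← h3] at h2
    exact (isIntegral_algebraMap_iff (FaithfulSMul.algebraMap_injective (kk A B) ℂ)).mp h2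
  let e0 : OO A B →+* 𝓞 (kk A B) :=
    { toFun := fun x => ⟨ek x, hIn x⟩
      map_one' := by
        apply RingOfIntegers.ext
        apply Subtype.ext
        change emb 1 = 1
        rw [← hφ, map_one]
      map_mul' := by
        intro a b
        apply RingOfIntegers.ext
        apply Subtype.ext
        change emb (a * b) = emb a * emb b
        rw [← hφ, ← hφ, ← hφ, map_mul]
      map_zero' := by
        apply RingOfIntegers.ext
        apply Subtype.ext
        change emb 0 = 0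
        rw [← hφ, map_zero]
      map_add' := by
        intro a b
        apply RingOfIntegers.ext
        apply Subtype.ext
        change emb (a + b) = emb a + emb b
        rw [← hφ, ← hφ, ← hφ, map_add] }
  have he0v : ∀ x : OO A B, (((e0 x : kk A B)) : ℂ) = emb x := fun x => rfl
  have hbij : Function.Bijective e0 := by
    constructor
    · rw [injective_iff_map_eq_zero]
      intro x hx
      apply hinj
      rw [← he0v x, hx]
      rfl
    · intro y
      have h2 : IsIntegral ℤ ((y : kk A B) : ℂ) :=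
        (RingOfIntegers.isIntegral_coe y).map (Algebra.ofId (kk A B) ℂ |>.restrictScalars ℤ)
      obtain ⟨x, hx⟩ := (hint _ (y : kk A B).2).mp h2
      refine ⟨x, ?_⟩
      apply RingOfIntegers.ext
      apply Subtype.ext
      rw [he0v, hx]
  obtain ⟨w, hw, hwb, hmem, σ, hσ⟩ := exists_all (kk A B) F (RingEquiv.ofBijective e0 hbij)
    Q hQp q hq hQ
  let v : HeightOneSpectrum (𝓞 F) := ⟨w, hw, hwb⟩
  obtain ⟨V, hV⟩ := Pool.Agent.MU3V.tv_EXT F (algebraMap F ℂ) v
  refine ⟨V, σ, ?_, ?_⟩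
  · intro x
    rw [ValuationSubring.mem_nonunits_iff, ← hmem x]
    have h2 := (hV (algebraMap (𝓞 F) F (algebraMap (𝓞 (kk A B)) (𝓞 F) (e0 x)))).2.1
    rw [HeightOneSpectrum.valuation_lt_one_iff_mem] at h2
    exact h2
  · exact Pool.Agent.MU3V.tw_LOC A B F v V (fun x => ⟨(hV x).1, (hV x).2.1⟩) σ q hq.pos hσ

end Pool.Agent.MUXC
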