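import Pool.Agent.MUX.StXC

/-!
# MUX, block XC, module FGL: the fields `RF m` are finite Galois extensions of `k`
-/

set_option autoImplicit false

open Polynomial NumberField IsDedekindDomain

namespace Pool.Agent.MUXC

open _root_.MU3 Pool.Agent.MU3A Pool.Agent.MU3B Pool.Agent.MUX Pool.Agent.MUXU Pool.Agent.RI
open Pool.Agent.MUXE (NL Sxe_RNG)

noncomputable section

namespace FGL

variable {A B : ℤ}

/-- automorphisms of `ℂ` with `FixK` are trivial on `k` -/
lemma fix {σ : ℂ ≃+* ℂ} (hσ : FixK A B σ) : ∀ y ∈ kk A B, σ y = y := by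
  intro y hy
  induction hy using IntermediateField.adjoin_induction with
  | mem x hx => rw [Set.mem_singleton_iff] at hx; rw [hx]; exact hσ
  | algebraMap x => simp
  | add x y _ _ hx hy => rw [map_add, hx, hy]
  | inv x _ hx => rw [map_inv₀, hx]
  | mul x y _ _ hx hy => rw [map_mul, hx, hy]

lemma isIntegral_wC (h : CQ A B) : IsIntegral ℚ (wC A B) := by
  refine ⟨X ^ 2 - C (B : ℚ) * X - C (A : ℚ), ?_, ?_⟩
  · monicity!
  · simp only [eval₂_sub, eval₂_pow, eval₂_X, eval₂_mul, eval₂_C]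
    simp only [eq_ratCast, Rat.cast_intCast]
    rw [sq, wC_sq h]
    ring

lemma isAlgebraic_kk (h : CQ A B) : Algebra.IsAlgebraic ℚ (kk A B) := by
  refine IntermediateField.isAlgebraic_adjoin ?_
  intro x hx
  rw [Set.mem_singleton_iff] at hx
  rw [hx]
  exact isIntegral_wC h

/-- a finite extension inside an algebraically closed field which contains the images of all
embeddings is normal -/
theorem normal_of {k K : Type*} [Field k] [Field K] [Algebra k K] [IsAlgClosed K]
    (F : IntermediateField k K) [Algebra.IsAlgebraic k F]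
    (h : ∀ σ : F →ₐ[k] K, ∀ x : F, σ x ∈ F) : Normal k F := by
  rw [normal_iff]
  intro x
  refine ⟨Algebra.IsIntegral.isIntegral x, ?_⟩
  apply IntermediateField.splits_of_splits (IsAlgClosed.splits _)
  intro r hr
  rw [← Algebra.IsAlgebraic.range_eval_eq_rootSet_minpoly (F := k) K x] at hr
  obtain ⟨σ, rfl⟩ := hr
  exact h σ x

/-- the generators are stable -/
lemma gen_stab (h2 : Sc_ACT) (hQ : CQ A B) {m : Ideal (OO A B)} (hm : m ≠ ⊥) {σ : ℂ ≃+* ℂ}
    (hσ : FixK A B σ) {c : ℂ} (hc : c ∈ genS m) : σ c ∈ genS m := by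
  obtain ⟨a, -, hact⟩ := h2 A B hQ m hm σ hσ
  obtain ⟨b, L, om, hL, hc⟩ := hc
  obtain ⟨b', L', om', mu, hL', hA⟩ := hact b L om hL
  rcases hc with rfl | ⟨z, hz, hz0, rfl⟩
  · exact ⟨b', L', om', hL', Or.inl hA.kap.symm⟩
  · rcases hA.act z hz with h | h
    · exact absurd h.1 hz0
    · refine ⟨b', L', om', hL', Or.inr ⟨mu * z, ?_, h.2.1, h.2.2.1⟩⟩
      intro y hy
      have e : emb y * (mu * z) = mu * (emb y * z) := by ring
      rw [e]
      refine (hA.isq.2 _).2 ?_
      intro x _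
      exact hL.toIsLI.hasCM hQ x _ (hz y hy)

/-- the field is stable -/
lemma stab (h2 : Sc_ACT) (hQ : CQ A B) {m : Ideal (OO A B)} (hm : m ≠ ⊥) {σ : ℂ ≃+* ℂ}
    (hσ : FixK A B σ) : ∀ y ∈ (RF m : IntermediateField (kk A B) ℂ), σ y ∈ RF m := by
  intro y hy
  have hy' : y ∈ IntermediateField.adjoin (kk A B) (genS m) := hy
  show σ y ∈ IntermediateField.adjoin (kk A B) (genS m)
  clear hy
  induction hy' using IntermediateField.adjoin_induction with
  | mem x hx => exact IntermediateField.subset_adjoin _ _ (gen_stab h2 hQ hm hσ hx)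
  | algebraMap x =>
    have e : σ (algebraMap (kk A B) ℂ x) = algebraMap (kk A B) ℂ x := fix hσ _ x.2
    rw [e]
    exact IntermediateField.algebraMap_mem _ x
  | add x y _ _ hx hy => rw [map_add]; exact add_mem hx hy
  | inv x _ hx => rw [map_inv₀]; exact inv_mem hx
  | mul x y _ _ hx hy => rw [map_mul]; exact mul_mem hx hy

end FGL

open FGL in
theorem tc_FGL (h1 : Sc_FNG) (h2 : Sc_ACT) (h3 : Su_AUT) (h4 : Su_AUE) : Sc_FGL := by
  intro A B hQ m hm
  have hk := isAlgebraic_kk hQ
  have hfin := h1 A B hQ m hm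
  have halg : ∀ c ∈ genS m, IsIntegral ℚ c := by
    intro c hc
    apply IsAlgebraic.isIntegral
    apply h3 (kk A B) hk c
    apply hfin.subset
    rintro y ⟨σ, hσ, rfl⟩
    exact gen_stab h2 hQ hm (hσ _ (wC_mem A B)) hc
  have hfd : FiniteDimensional (kk A B) (RF m) := by
    have : Finite (genS m) := hfin
    exact IntermediateField.finiteDimensional_adjoin (S := genS m)
      (fun x hx => (halg x hx).tower_top)
  have hst : ∀ σ : ℂ ≃+* ℂ, FixK A B σ →
      ∀ y ∈ (RF m : IntermediateField (kk A B) ℂ), σ y ∈ RF m := fun σ hσ => stab h2 hQ hm hσ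
  refine ⟨hfd, ?_, hst⟩
  have halgF : Algebra.IsAlgebraic ℚ ((RF m).restrictScalars ℚ) := by
    have h5 : Algebra.IsAlgebraic (kk A B) (RF m) := Algebra.IsAlgebraic.of_finite _ _
    exact Algebra.IsAlgebraic.trans ℚ (kk A B) (RF m)
  have hn : Normal (kk A B) (RF m) := by
    apply normal_of
    intro τ x
    obtain ⟨σ, hσ⟩ := h4 ((RF m).restrictScalars ℚ) halgF τ.toRingHom
    have hσ' : ∀ y : RF m, σ (y : ℂ) = τ y := fun y => hσ y
    have hF : FixK A B σ := by
      have h6 := hσ' (algebraMap (kk A B) (RF m) ⟨wC A B, wC_mem A B⟩)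
      rw [τ.commutes] at h6
      exact h6
    rw [← hσ' x]
    exact hst σ hF x x.2
  exact ⟨⟩

end

end Pool.Agent.MUXC
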