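import Pool.Agent.MUX.StXC
import Pool.Agent.MU3.A_SCP

/-!
# MUX, block XC, module FNG (helper48): the ray class fields have finitely many generators
-/

set_option autoImplicit false

open Polynomial NumberField IsDedekindDomain

namespace Pool.Agent.MUXC

open _root_.MU3 Pool.Agent.MU3A Pool.Agent.MU3B Pool.Agent.MUX Pool.Agent.MUXU Pool.Agent.RI
open Pool.Agent.MUXE (NL Sxe_RNG)

noncomputable section

namespace FNG

variable {A B : ℤ}

/-- the generators which come from one lattice -/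
def G (m : Ideal (OO A B)) (L : PeriodPair) : Set ℂ :=
  {c | c = kap L ∨ ∃ z, Tor m L z ∧ z ∉ L.lattice ∧ c = xn L z}

lemma xn_per (L : PeriodPair) {z w : ℂ} (h : z - w ∈ L.lattice) : xn L z = xn L w := by
  have h1 := L.weierstrassP_add_coe w ⟨z - w, h⟩
  have h2 : w + ((⟨z - w, h⟩ : L.lattice) : ℂ) = z := by
    simp
  rw [h2] at h1
  unfold xn
  rw [h1]

lemma G_fin (hG : Sc_GEN) (h : CQ A B) {b : Ideal (OO A B)} {L : PeriodPair} {om : ℂ}
    (hL : IsLI b L om) {m : Ideal (OO A B)} (hm : m ≠ ⊥) : (G m L).Finite := by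
  obtain ⟨u, -, hu2, hu3⟩ := hG A B h b m L om hL hm
  have hfin : Finite (OO A B ⧸ m) := finite_quot h hm
  have hsub : G m L ⊆ {kap L} ∪
      Set.range (fun q : OO A B ⧸ m => xn L (emb (Quotient.out q) * u)) := by
    rintro c (rfl | ⟨z, hz, -, rfl⟩)
    · exact Or.inl rfl
    · right
      obtain ⟨x, hx⟩ := hu3 z hz
      refine ⟨Ideal.Quotient.mk m x, ?_⟩
      show xn L (emb (Quotient.out (Ideal.Quotient.mk m x)) * u) = xn L z
      apply Eq.symm
      apply xn_per
      have h1 : x - Quotient.out (Ideal.Quotient.mk m x) ∈ m := by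
        rw [← Ideal.Quotient.eq]
        exact (Quotient.out_eq _).symm
      have h2 := (hu2 _).2 h1
      rw [emb_sub h] at h2
      have h3 := L.lattice.add_mem hx h2
      have h4 : z - emb x * u + (emb x - emb (Quotient.out (Ideal.Quotient.mk m x))) * u =
          z - emb (Quotient.out (Ideal.Quotient.mk m x)) * u := by ring
      rwa [h4] at h3
  exact ((Set.finite_singleton _).union (Set.finite_range _)).subset hsub

lemma G_eq {L L' : PeriodPair} (hLL : ∀ z : ℂ, z ∈ L.lattice ↔ z ∈ L'.lattice)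
    (m : Ideal (OO A B)) : G m L = G m L' := by
  obtain ⟨h1, -, h2, -⟩ := ta_SCP L L' 1 one_ne_zero (fun u => by rw [one_mul]; exact hLL u)
  have hk : kap L' = kap L := by
    unfold kap
    rw [h2]
    norm_num
  have hx : ∀ z, xn L' z = xn L z := by
    intro z
    have h3 := h1 z
    unfold xn
    rw [one_mul] at h3
    rw [h3]
    norm_num
  have ht : ∀ z, Tor m L z ↔ Tor m L' z := by
    intro z
    constructor
    · intro h x hx
      exact (hLL _).1 (h x hx)
    · intro h x hx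
      exact (hLL _).2 (h x hx)
  ext c
  unfold G
  simp only [Set.mem_setOf_eq, hk, hx, ht, hLL]

end FNG

open FNG in
theorem tc_FNG (h1 : Sc_CLF) (h2 : Sc_GEN) (h3 : Pool.Agent.MUXY.Sy_SAM) : Sc_FNG := by
  classical
  intro A B hc m hm
  obtain ⟨S, -, hS⟩ := h1 A B hc
  -- the generators from the lattices of one class
  let T : Ideal (OO A B) → Set ℂ := fun b₀ => {c | ∃ (b : Ideal (OO A B)) (L : PeriodPair) (om : ℂ)
    (x y : OO A B), IsNL b L om ∧ x ≠ 0 ∧ y ≠ 0 ∧ sp x * b = sp y * b₀ ∧ c ∈ G m L}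
  have hT : ∀ b₀ : Ideal (OO A B), (T b₀).Finite := by
    intro b₀
    by_cases hex : ∃ (b : Ideal (OO A B)) (L : PeriodPair) (om : ℂ) (x y : OO A B),
        IsNL b L om ∧ x ≠ 0 ∧ y ≠ 0 ∧ sp x * b = sp y * b₀
    · obtain ⟨b₁, L₁, om₁, x₁, y₁, hL₁, hx₁, hy₁, he₁⟩ := hex
      have hdom : IsDomain (OO A B) := isDomain hc
      refine (G_fin h2 hc hL₁.toIsLI hm).subset ?_
      rintro c ⟨b, L, om, x, y, hL, hx, hy, he, hcG⟩
      have hsp : sp (x * y₁) * b = sp (y * x₁) * b₁ := by
        have e1 : sp (x * y₁) = sp x * sp y₁ := (Ideal.span_singleton_mul_span_singleton x y₁).symm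
        have e2 : sp (y * x₁) = sp y * sp x₁ := (Ideal.span_singleton_mul_span_singleton y x₁).symm
        calc sp (x * y₁) * b = sp y₁ * (sp x * b) := by rw [e1]; ring
          _ = sp y * (sp y₁ * b₀) := by rw [he]; ring
          _ = sp (y * x₁) * b₁ := by rw [← he₁, e2]; ring
      have hLL := h3 A B hc b b₁ L L₁ om om₁ (x * y₁) (y * x₁) hL hL₁ (mul_ne_zero hx hy₁)
        (mul_ne_zero hy hx₁) hsp
      rw [← G_eq hLL m]
      exact hcG
    · have : T b₀ = ∅ := by
        rw [Set.eq_empty_iff_forall_notMem]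
        rintro c ⟨b, L, om, x, y, hL, hx, hy, he, -⟩
        exact hex ⟨b, L, om, x, y, hL, hx, hy, he⟩
      rw [this]
      exact Set.finite_empty
  have hsub : genS m ⊆ ⋃ b₀ ∈ S, T b₀ := by
    rintro c ⟨b, L, om, hL, hcG⟩
    obtain ⟨b₀, hb₀, x, y, hx, hy, he⟩ := hS b hL.b_ne
    exact Set.mem_biUnion hb₀ ⟨b, L, om, x, y, hL, hx, hy, he, hcG⟩
  exact (Set.Finite.biUnion (Finset.finite_toSet S) fun b₀ _ => hT b₀).subset hsub

end

end Pool.Agent.MUXC
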