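import Pool.Agent.MUX.StXC

/-!
# MUX, block XC, module GEN (helper1): `L[m] / L` is cyclic, isomorphic to `O / m`
-/

set_option autoImplicit false

open Polynomial NumberField IsDedekindDomain

namespace Pool.Agent.MUXC

open _root_.MU3 Pool.Agent.MU3A Pool.Agent.MU3B Pool.Agent.MUX Pool.Agent.MUXU Pool.Agent.RI
open Pool.Agent.MUXE (NL Sxe_RNG)

theorem tc_GEN (h1 : Sc_TRO) (h2 : Sxe_RNG) : Sc_GEN := by
  intro A B hq b m L om hL hm
  have := (h2 A B hq).ded
  have hb := hL.b_ne
  have hom := hL.om_ne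
  have hJ0 : cjI m * b ≠ ⊥ := Pool.Agent.MUX.mul_ne_bot hq (Pool.Agent.MUX.cjI_ne_bot hq hm) hb
  have hmJ : m * (cjI m * b) = sp ((nI m : ℕ) : OO A B) * b := by
    rw [← mul_assoc, Pool.Agent.MUX.mul_cjI hq hm]
  have hle : m * (cjI m * b) ≤ cjI m * b := Ideal.mul_le_right
  obtain ⟨s, hs⟩ := IsDedekindDomain.exists_sup_span_eq hle
    (Pool.Agent.MUX.mul_ne_bot hq hm hJ0)
  have hsJ : s ∈ cjI m * b := by
    rw [← hs]
    exact Ideal.mem_sup_right (Ideal.mem_span_singleton_self s)
  have hN : ((nI m : ℕ) : ℂ) ≠ 0 := by exact_mod_cast Pool.Agent.MUX.nI_ne_zero hq hm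
  refine ⟨om * emb s / nI m, (h1 A B hq b L om hL m hm _).2 ⟨s, hsJ, rfl⟩, fun x => ?_,
    fun z hz => ?_⟩
  · have e1 : emb x * (om * emb s / nI m) ∈ L.lattice ↔ x * s ∈ m * (cjI m * b) := by
      rw [hmJ, hL.mem, Ideal.mem_span_singleton_mul]
      constructor
      · rintro ⟨β, hβ, h3⟩
        refine ⟨β, hβ, Pool.Agent.MUX.emb_inj hq ?_⟩
        rw [Pool.Agent.MUX.emb_mul hq, Pool.Agent.MUX.emb_mul hq,
          Pool.Agent.MUX.emb_natCast hq]
        apply mul_left_cancel₀ hom
        have h4 : emb x * (om * emb s / nI m) * nI m = om * emb β * nI m := by rw [h3]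
        have h5 : emb x * (om * emb s / nI m) * nI m = om * (emb x * emb s) := by
          field_simp
        rw [h5] at h4
        linear_combination -h4
      · rintro ⟨β, hβ, h3⟩
        refine ⟨β, hβ, ?_⟩
        have h4 := congrArg emb h3
        rw [Pool.Agent.MUX.emb_mul hq, Pool.Agent.MUX.emb_mul hq,
          Pool.Agent.MUX.emb_natCast hq] at h4
        apply mul_right_cancel₀ hN
        have h5 : emb x * (om * emb s / nI m) * nI m = om * (emb x * emb s) := by
          field_simp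
        rw [h5]
        linear_combination -om * h4
    rw [e1]
    constructor
    · intro h3
      have h4 : (cjI m * b) * sp x ≤ (cjI m * b) * m := by
        have h5 : (m * (cjI m * b) ⊔ Ideal.span {s}) * sp x ≤ (cjI m * b) * m := by
          rw [Ideal.sup_mul]
          refine sup_le ?_ ?_
          · rw [mul_comm (cjI m * b) m]
            exact Ideal.mul_le_left
          · rw [Ideal.span_singleton_mul_span_singleton, Ideal.span_singleton_le_iff_mem,
              mul_comm s x, mul_comm (cjI m * b) m]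
            exact h3
        rwa [hs] at h5
      exact (Pool.Agent.MUX.mul_le_mul_iff hq hJ0).1 h4 (Ideal.mem_span_singleton_self x)
    · intro h3
      exact Ideal.mul_mem_mul h3 hsJ
  · obtain ⟨t, ht, hz'⟩ := (h1 A B hq b L om hL m hm z).1 hz
    rw [← hs] at ht
    obtain ⟨t1, ht1, t2, ht2, h3⟩ := Submodule.mem_sup.1 ht
    rw [hmJ] at ht1
    obtain ⟨β, hβ, h4⟩ := Ideal.mem_span_singleton_mul.1 ht1
    obtain ⟨x, h5⟩ := Ideal.mem_span_singleton'.1 ht2
    refine ⟨x, (hL.mem _).2 ⟨β, hβ, ?_⟩⟩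
    rw [hz', ← h3, ← h4, ← h5, Pool.Agent.MUX.emb_add hq, Pool.Agent.MUX.emb_mul hq,
      Pool.Agent.MUX.emb_mul hq, Pool.Agent.MUX.emb_natCast hq]
    field_simp
    ring

end Pool.Agent.MUXC
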