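import Pool.Agent.MUX.StXC

/-!
# MUX, block XC, module INV: `a` is recovered from `a⁻¹ L`
-/

set_option autoImplicit false

namespace Pool.Agent.MUXC

open _root_.MU3 Pool.Agent.MU3A Pool.Agent.MU3B Pool.Agent.MUX Pool.Agent.MUXU Pool.Agent.RI

theorem tc_INV (h1 : Sc_TRO) : Sc_INV := by
  intro A B hC b L om hL a ha y hy
  have hom := hL.om_ne
  have hN : ((nI a : ℕ) : ℂ) ≠ 0 := by
    exact_mod_cast nI_ne_zero hC ha
  have hJ0 : cjI a * b ≠ ⊥ := mul_ne_bot hC (cjI_ne_bot hC ha) hL.b_ne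
  have key : (cjI a * b) * sp y ≤ (cjI a * b) * a := by
    rw [Ideal.mul_le]
    intro t ht s hs
    rw [Ideal.mem_span_singleton'] at hs
    obtain ⟨r, rfl⟩ := hs
    have hz : Tor a L (om * emb t / nI a) := (h1 A B hC b L om hL a ha _).2 ⟨t, ht, rfl⟩
    obtain ⟨β, hβ, e⟩ := (hL.mem _).1 (hy _ hz)
    have e2 : t * y = ((nI a : ℕ) : OO A B) * β := by
      apply emb_inj hC
      rw [emb_mul hC, emb_mul hC, emb_natCast hC]
      field_simp at e
      linear_combination e
    have e3 : t * (r * y) = r * (((nI a : ℕ) : OO A B) * β) := by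
      rw [← e2]; ring
    rw [e3]
    apply Ideal.mul_mem_left
    have e4 : cjI a * b * a = sp ((nI a : ℕ) : OO A B) * b := by
      rw [← mul_cjI hC ha]; ring
    rw [e4]
    exact Ideal.mul_mem_mul (Ideal.mem_span_singleton_self _) hβ
  rw [mul_le_mul_iff hC hJ0] at key
  exact key (Ideal.mem_span_singleton_self y)

end Pool.Agent.MUXC
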