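import Pool.Agent.MUX.StXC

/-!
# MUX, block XC, module ISL: every lattice with multiplication by `O` belongs to an ideal
-/

set_option autoImplicit false

open Polynomial NumberField IsDedekindDomain

namespace Pool.Agent.MUXC

open _root_.MU3 Pool.Agent.MU3A Pool.Agent.MU3B Pool.Agent.MUX Pool.Agent.MUXU Pool.Agent.RI
open Pool.Agent.MUXE (NL Sxe_RNG)

noncomputable section

/-- ISL. -/
theorem tc_ISL : Sc_ISL := by
  intro A B h L hL
  have hω1 : L.ω₁ ≠ 0 := by
    intro h0
    have h1 := L.indep.ne_zero 0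
    simp only [Matrix.cons_val_zero] at h1
    exact h1 h0
  have m1 : L.ω₁ ∈ L.lattice := L.ω₁_mem_lattice
  have hw : wC A B * L.ω₁ ∈ L.lattice := by
    have h1 := hL ⟨0, 1⟩ L.ω₁ m1
    rwa [MUX.emb_w] at h1
  obtain ⟨p, q, hpq⟩ := PeriodPair.mem_lattice.1 hw
  have hq : q ≠ 0 := by
    rintro rfl
    rw [Int.cast_zero, zero_mul, add_zero] at hpq
    have h1 := mul_right_cancel₀ hω1 hpq
    have h2 := wC_im_pos h
    rw [← h1, Complex.intCast_im] at h2
    exact lt_irrefl _ h2
  have hqC : (q : ℂ) ≠ 0 := by exact_mod_cast hq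
  -- the elements of the lattice
  have key : ∀ z ∈ L.lattice, ∃ x : OO A B, z = L.ω₁ / q * emb x := by
    intro z hz
    obtain ⟨i, j, rfl⟩ := PeriodPair.mem_lattice.1 hz
    refine ⟨⟨q * i - j * p, j⟩, ?_⟩
    have e1 : emb (⟨q * i - j * p, j⟩ : OO A B) = (q * i - j * p : ℂ) + j * wC A B := by
      simp [emb]
    rw [e1, div_mul_eq_mul_div, eq_div_iff hqC]
    linear_combination (j : ℂ) * hpq
  let b : Ideal (OO A B) :=
    { carrier := {x | L.ω₁ / q * emb x ∈ L.lattice}
      add_mem' := by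
        intro x y hx hy
        change L.ω₁ / q * emb (x + y) ∈ L.lattice
        rw [emb_add h, mul_add]
        exact add_mem hx hy
      zero_mem' := by
        change L.ω₁ / q * emb (0 : OO A B) ∈ L.lattice
        rw [emb_zero h, mul_zero]
        exact zero_mem _
      smul_mem' := by
        intro r x hx
        change L.ω₁ / q * emb (r * x) ∈ L.lattice
        rw [emb_mul h, mul_left_comm]
        exact hL r _ hx }
  have hb : ∀ x : OO A B, x ∈ b ↔ L.ω₁ / q * emb x ∈ L.lattice := fun x => Iff.rfl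
  refine ⟨b, L.ω₁ / q, ?_, div_ne_zero hω1 hqC, ?_⟩
  · intro h0
    have h1 : ((q : ℤ) : OO A B) ∈ b := by
      rw [hb, emb_intCast h, div_mul_cancel₀ _ hqC]
      exact m1
    rw [h0, Ideal.mem_bot] at h1
    have h2 := emb_intCast h q
    rw [h1, emb_zero h] at h2
    exact hqC h2.symm
  · intro z
    constructor
    · intro hz
      obtain ⟨x, hx⟩ := key z hz
      exact ⟨x, (hb x).2 (hx ▸ hz), hx⟩
    · rintro ⟨x, hx, rfl⟩
      exact (hb x).1 hx

end

end Pool.Agent.MUXC
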