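import Pool.Agent.MUX.StXC

/-!
# MUX, block XC, module NEX (helper65): if one normalised lattice exists then every ideal has one
-/

set_option autoImplicit false

open Polynomial NumberField IsDedekindDomain

namespace Pool.Agent.MUXC

open _root_.MU3 Pool.Agent.MU3A Pool.Agent.MU3B Pool.Agent.MUX Pool.Agent.MUXU Pool.Agent.RI
open Pool.Agent.MUXE (NL Sxe_RNG)

noncomputable section

namespace NEX

/-- the invariants of a normalised lattice are not zero -/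
lemma ne0 {A B : ℤ} {b : Ideal (OO A B)} {L : PeriodPair} {om : ℂ} (hL : IsNL b L om) :
    L.g₂ ≠ 0 ∧ L.g₃ ≠ 0 := by
  have h1 := hL.nrm
  have h2 := (b_DSC L).1
  have h3 : L.g₃ ≠ 0 := by
    intro h0
    rw [h0] at h1 h2
    exact h2 (by rw [h1]; ring)
  refine ⟨?_, h3⟩
  rw [h1]
  exact mul_ne_zero (by norm_num) h3

lemma scale {A B : ℤ} {b : Ideal (OO A B)} {L₁ L₂ : PeriodPair} {om : ℂ}
    (h1 : IsLI b L₁ 1) (h2 : IsLI b L₂ om) (hom : om ≠ 0) :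
    ∀ u : ℂ, u ∈ L₁.lattice ↔ om * u ∈ L₂.lattice := by
  intro u
  rw [h1.mem, h2.mem]
  constructor
  · rintro ⟨x, hx, rfl⟩
    exact ⟨x, hx, by ring⟩
  · rintro ⟨x, hx, h⟩
    exact ⟨x, hx, by rw [one_mul]; exact mul_left_cancel₀ hom h⟩

/-- a root of unity which preserves the invariants of `L₁` preserves those of `L₀` -/
lemma root (hD : Su_DET) (hE : Sc_ENO) {A B : ℤ} (hC : CQ A B) {b b₀ : Ideal (OO A B)}
    {L₁ L₀ : PeriodPair} {om₀ : ℂ} (h0 : IsNL b₀ L₀ om₀) (h1 : IsLI b L₁ 1) {ρ : ℂ} {n : ℕ}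
    (hρ : ρ ^ (n + 1) = 1) (e2 : L₁.g₂ / ρ ^ 4 = L₁.g₂) (e3 : L₁.g₃ / ρ ^ 6 = L₁.g₃) :
    L₀.g₂ = L₀.g₂ / ρ ^ 4 ∧ L₀.g₃ = L₀.g₃ / ρ ^ 6 := by
  have hρ0 : ρ ≠ 0 := by
    rintro rfl
    rw [zero_pow (by omega)] at hρ
    exact zero_ne_one hρ
  obtain ⟨L₂, h2⟩ := Pool.Agent.MUX.exists_isLI hC h1.b_ne hρ0
  have hs := scale h1 h2 hρ0
  obtain ⟨-, -, g2, g3⟩ := ta_SCP L₁ L₂ ρ hρ0 hs
  have hl : L₁.lattice = L₂.lattice := hD L₁ L₂ (by rw [g2, e2]) (by rw [g3, e3])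
  obtain ⟨x, hx⟩ := hE A B hC b L₁ 1 h1 ρ (fun z hz => by
    rw [hl]
    exact (hs z).1 hz)
  have hcm := Pool.Agent.MUX.IsLI.hasCM hC h0.toIsLI
  have hst : ∀ u : ℂ, u ∈ L₀.lattice ↔ ρ * u ∈ L₀.lattice := by
    intro u
    constructor
    · intro hu
      rw [hx]
      exact hcm x u hu
    · intro hu
      have hk : ∀ k : ℕ, ρ ^ k * (ρ * u) ∈ L₀.lattice := by
        intro k
        induction k with
        | zero => simpa using hu
        | succ k ih =>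
          have h4 := hcm x _ ih
          rw [← hx] at h4
          have h5 : ρ ^ (k + 1) * (ρ * u) = ρ * (ρ ^ k * (ρ * u)) := by ring
          rw [h5]
          exact h4
      have h6 := hk n
      have h7 : ρ ^ n * (ρ * u) = ρ ^ (n + 1) * u := by ring
      rwa [h7, hρ, one_mul] at h6
  obtain ⟨-, -, g2', g3'⟩ := ta_SCP L₀ L₀ ρ hρ0 hst
  exact ⟨g2', g3'⟩

end NEX

open NEX in
theorem tc_NEX (hD : Su_DET) (hE : Sc_ENO) : Sc_NEX := by
  intro A B hC b₀ L₀ om₀ h0 b hb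
  obtain ⟨L₁, h1⟩ := Pool.Agent.MUX.exists_isLI hC hb (one_ne_zero (α := ℂ))
  obtain ⟨hg2, hg3⟩ := ne0 h0
  have hL2 : L₁.g₂ ≠ 0 := by
    intro hz
    have hp := Complex.isPrimitiveRoot_exp 3 (by norm_num)
    set ρ : ℂ := Complex.exp (2 * Real.pi * Complex.I / (3 : ℕ)) with hρ
    have h3 : ρ ^ 3 = 1 := hp.pow_eq_one
    have hρ1 : ρ ≠ 1 := hp.ne_one (by norm_num)
    have h6 : ρ ^ 6 = 1 := by
      calc ρ ^ 6 = (ρ ^ 3) ^ 2 := by ring
        _ = 1 := by rw [h3, one_pow]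
    have h4 : ρ ^ 4 = ρ := by
      calc ρ ^ 4 = ρ ^ 3 * ρ := by ring
        _ = ρ := by rw [h3, one_mul]
    have hρ0 : ρ ≠ 0 := Complex.exp_ne_zero _
    obtain ⟨a1, -⟩ := root hD hE hC h0 h1 (ρ := ρ) (n := 2) h3 (by rw [hz, zero_div])
      (by rw [h6, div_one])
    rw [h4, eq_div_iff hρ0] at a1
    have a2 : L₀.g₂ * (ρ - 1) = 0 := by linear_combination a1
    rcases mul_eq_zero.1 a2 with h | h
    · exact hg2 h
    · exact hρ1 (sub_eq_zero.1 h)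
  have hL3 : L₁.g₃ ≠ 0 := by
    intro hz
    have h4 : Complex.I ^ 4 = 1 := Complex.I_pow_four
    have h6 : Complex.I ^ 6 = -1 := by
      calc Complex.I ^ 6 = Complex.I ^ 4 * (Complex.I * Complex.I) := by ring
        _ = -1 := by rw [h4, Complex.I_mul_I, one_mul]
    obtain ⟨-, a1⟩ := root hD hE hC h0 h1 (ρ := Complex.I) (n := 3) h4 (by rw [h4, div_one])
      (by rw [hz, zero_div])
    rw [h6] at a1
    have a2 : (2 : ℂ) * L₀.g₃ = 0 := by linear_combination a1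
    rcases mul_eq_zero.1 a2 with h | h
    · norm_num at h
    · exact hg3 h
  obtain ⟨om, hom⟩ := IsAlgClosed.exists_pow_nat_eq (-18 * L₁.g₃ / L₁.g₂) (n := 2) (by norm_num)
  have hom0 : om ≠ 0 := by
    rintro rfl
    rw [zero_pow (by norm_num)] at hom
    have : -18 * L₁.g₃ / L₁.g₂ ≠ 0 := div_ne_zero (mul_ne_zero (by norm_num) hL3) hL2
    exact this hom.symm
  obtain ⟨L, hL⟩ := Pool.Agent.MUX.exists_isLI hC hb hom0
  obtain ⟨-, -, g2, g3⟩ := ta_SCP L₁ L om hom0 (scale h1 hL hom0)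
  refine ⟨L, om, ⟨hL, ?_⟩⟩
  have e1 : om ^ 2 * L₁.g₂ = -18 * L₁.g₃ := by
    rw [hom, div_mul_cancel₀ _ hL2]
  rw [g2, g3]
  field_simp
  linear_combination e1

end

end Pool.Agent.MUXC
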