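import Pool.Agent.MUX.StXC

/-!
# MUX, block XC: module NMC, the norm of the ideal modulo `M` depends only on the class
-/

set_option autoImplicit false

open Polynomial NumberField IsDedekindDomain

namespace Pool.Agent.MUXC

open _root_.MU3 Pool.Agent.MU3A Pool.Agent.MU3B Pool.Agent.MUX Pool.Agent.MUXU Pool.Agent.RI
open Pool.Agent.MUXE (NL Sxe_RNG)

namespace NMC

variable {A B : ℤ}

lemma nm_cong (M : ℕ) {a b : OO A B} (h : (M : OO A B) ∣ a - b) : (M : ℤ) ∣ nm a - nm b := by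
  obtain ⟨c, hc⟩ := h
  have h1 : a = b + (M : OO A B) * c := by rw [← hc]; ring
  have h2 : a.re = b.re + (M : ℤ) * c.re := by rw [h1]; simp
  have h3 : a.im = b.im + (M : ℤ) * c.im := by rw [h1]; simp
  refine ⟨2 * b.re * c.re + M * c.re ^ 2 + B * (b.re * c.im + c.re * b.im + M * c.re * c.im) -
    A * (2 * b.im * c.im + M * c.im ^ 2), ?_⟩
  unfold nm
  rw [h2, h3]
  ring

end NMC

open NMC in
theorem tc_NMC : Sc_NMC := by
  intro A B h M m a a' x y hM hmM ha ha' hcop hx hy hxy heq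
  have hspx : (sp x : Ideal (OO A B)) ≠ ⊥ := by rw [Ne, Ideal.span_singleton_eq_bot]; exact hx
  have hspy : (sp y : Ideal (OO A B)) ≠ ⊥ := by rw [Ne, Ideal.span_singleton_eq_bot]; exact hy
  have h1 := congrArg nI heq
  rw [nI_mul h hspx ha, nI_mul h hspy ha', nI_sp h hx, nI_sp h hy] at h1
  have h2 : nm x * (nI a : ℤ) = nm y * (nI a' : ℤ) := by
    have h3 : (((nm x).natAbs * nI a : ℕ) : ℤ) = (((nm y).natAbs * nI a' : ℕ) : ℤ) := by rw [h1]
    push_cast at h3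
    rwa [abs_of_nonneg (nm_nonneg h x), abs_of_nonneg (nm_nonneg h y)] at h3
  have h3 : (M : ℤ) ∣ nm x - nm y := nm_cong M (Ideal.mem_span_singleton.mp (hmM hxy))
  obtain ⟨u, hu, v, hv, huv⟩ := Ideal.isCoprime_iff_exists.mp hcop
  obtain ⟨r, rfl⟩ := Ideal.mem_span_singleton.mp hu
  have hv' : (M : OO A B) ∣ v := Ideal.mem_span_singleton.mp (hmM hv)
  have h4 : (M : ℤ) ∣ nm (1 : OO A B) - nm (x * r) := by
    apply nm_cong
    have : (1 : OO A B) - x * r = v := by rw [← huv]; ring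
    rwa [this]
  rw [nm_mul h] at h4
  have h5 : nm (1 : OO A B) = 1 := by
    show (1 : ℤ) ^ 2 + B * 1 * 0 - A * 0 ^ 2 = 1
    ring
  rw [h5] at h4
  rw [Nat.modEq_iff_dvd]
  obtain ⟨s, hs⟩ := h3
  obtain ⟨t, ht⟩ := h4
  refine ⟨((nI a' : ℤ) - nI a) * t + nm r * (nI a' : ℤ) * s, ?_⟩
  linear_combination ((nI a' : ℤ) - nI a) * ht + nm r * (nI a' : ℤ) * hs - nm r * h2

end Pool.Agent.MUXC
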