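import Pool.Agent.MUX.StXC
import Pool.Agent.MUX.UAll

/-!
# MUX, block XC, module PHM: the isomorphism `Φ` and the action of `O`
-/

set_option autoImplicit false

open Polynomial NumberField IsDedekindDomain

namespace Pool.Agent.MUXC

open _root_.MU3 Pool.Agent.MU3A Pool.Agent.MU3B Pool.Agent.MUX Pool.Agent.MUXU Pool.Agent.RI
open Pool.Agent.MUXE (NL Sxe_RNG)

noncomputable section

/-- PHM. -/
theorem tc_PHM : Sc_PHM := by
  intro A B hQ σ hσ b L L' om hL hC Φ hΦ
  have hfix : ∀ x : OO A B, σ (emb x) = emb x := by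
    intro x
    have h : σ (wC A B) = wC A B := hσ
    unfold emb
    rw [map_add, map_mul, map_intCast, map_intCast, h]
  have hIsg : ∀ x : OO A B, Isg L L (emb x) := by
    intro x w hw
    obtain ⟨c, hc, rfl⟩ := (hL.mem w).1 hw
    exact (hL.mem _).2 ⟨x * c, b.mul_mem_left x hc, by rw [emb_mul hQ]; ring⟩
  have h1 : ∀ (x : OO A B) (z : ℂ), Φ (emb x * z) - emb x * Φ z ∈ L'.lattice := fun x z =>
    (Pool.Agent.MUXU.u_CMC σ L L' Φ (emb x) (hIsg x) (hfix x) hC hΦ).2 z
  have h2 := (Pool.Agent.MUXU.u_TSN σ L L' Φ hC hΦ).2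
  have h3 : ∀ z z' : ℂ, Φ (z - z') - (Φ z - Φ z') ∈ L'.lattice := by
    intro z z'
    have h4 := neg_mem (hΦ.add (z - z') z')
    rw [sub_add_cancel] at h4
    have h5 : Φ (z - z') - (Φ z - Φ z') = -(Φ z - Φ (z - z') - Φ z') := by ring
    rw [h5]
    exact h4
  refine ⟨h1, fun m z => ⟨fun h x hx => (h2 (emb x) z (hIsg x) (hfix x)).1 (h x hx),
    fun h x hx => (h2 (emb x) z (hIsg x) (hfix x)).2 (h x hx)⟩, fun z z' => ?_, h3⟩
  rw [← hΦ.mem]
  constructor
  · intro h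
    have h4 := add_mem (h3 z z') h
    rwa [sub_add_cancel] at h4
  · intro h
    have h4 := sub_mem h (h3 z z')
    rwa [sub_sub_cancel] at h4

end

end Pool.Agent.MUXC
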