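import Pool.Agent.MUX.StXC

/-!
# MUX, block XC, module PMF: `PM` in terms of `Φ` (helper72)
-/

set_option autoImplicit false

namespace Pool.Agent.MUXC

open _root_.MU3 Pool.Agent.MU3A Pool.Agent.MU3B Pool.Agent.MUX Pool.Agent.MUXU

theorem tc_PMF (hEQP : Su_EQP) : Sc_PMF := by
  intro σ L L' Φ hΦ z z'
  have hxn : ∀ z, z ∉ L.lattice → xn L' (Φ z) = σ (xn L z) := by
    intro z hz
    unfold xn
    rw [hΦ.P z hz, map_sub, map_div₀, map_one, map_ofNat]
  have hyy : ∀ z, z ∉ L.lattice → yy L' (Φ z) = σ (yy L z) := by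
    intro z hz
    unfold yy
    rw [hΦ.P' z hz, map_div₀, map_ofNat]
  by_cases hz : z ∈ L.lattice
  · have hΦz : Φ z ∈ L'.lattice := (hΦ.mem z).2 hz
    constructor
    · rintro (⟨-, h⟩ | ⟨h, -⟩)
      · exact sub_mem hΦz h
      · exact absurd hz h
    · intro h
      left
      refine ⟨hz, ?_⟩
      have e : z' = Φ z - (Φ z - z') := by ring
      rw [e]
      exact sub_mem hΦz h
  · have hΦz : Φ z ∉ L'.lattice := fun h => hz ((hΦ.mem z).1 h)
    constructor
    · rintro (⟨h, -⟩ | ⟨-, hz', hx, hy⟩)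
      · exact absurd h hz
      · apply hEQP L' (Φ z) z' hΦz hz'
        · have h1 : xn L' (Φ z) = xn L' z' := by rw [hxn z hz, hx]
          unfold xn at h1
          exact sub_left_injective h1
        · have h1 : yy L' (Φ z) = yy L' z' := by rw [hyy z hz, hy]
          unfold yy at h1
          linear_combination 2 * h1
    · intro h
      have e : z' = Φ z - (Φ z - z') := by ring
      have hz' : z' ∉ L'.lattice := by
        intro h'
        apply hΦz
        have e2 : Φ z = (Φ z - z') + z' := by ring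
        rw [e2]
        exact add_mem h h'
      right
      refine ⟨hz, hz', ?_, ?_⟩
      · rw [← hxn z hz, e]
        unfold xn
        rw [L'.weierstrassP_sub_coe (Φ z) ⟨Φ z - z', h⟩]
      · rw [← hyy z hz, e]
        unfold yy
        rw [L'.derivWeierstrassP_sub_coe (Φ z) ⟨Φ z - z', h⟩]

end Pool.Agent.MUXC
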