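import Pool.Agent.MUX.StXC

/-!
# MUX, block XC, module QCR (helper65): from an identity of ideals to lattices
-/

set_option autoImplicit false

open Polynomial NumberField IsDedekindDomain

namespace Pool.Agent.MUXC

open _root_.MU3 Pool.Agent.MU3A Pool.Agent.MU3B Pool.Agent.MUX Pool.Agent.MUXU Pool.Agent.RI
open Pool.Agent.MUXE (NL Sxe_RNG)

noncomputable section

theorem tc_QCR (h1 : Sc_TRO) : Sc_QCR := by
  intro A B hC a b b' L L' om om' hL hL' ha u v hu hv huv
  have hu0 : emb u ≠ 0 := Pool.Agent.MUX.emb_ne_zero hC hu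
  have hv0 : emb v ≠ 0 := Pool.Agent.MUX.emb_ne_zero hC hv
  have hom := hL.om_ne
  have hom' := hL'.om_ne
  have hn0 : ((nI a : ℕ) : ℂ) ≠ 0 := by exact_mod_cast Pool.Agent.MUX.nI_ne_zero hC ha
  refine ⟨div_ne_zero (mul_ne_zero hom' hu0) (mul_ne_zero hom hv0), fun z => ⟨?_, ?_⟩⟩
  · intro hz x hx
    obtain ⟨y, hy, hyz⟩ := (hL'.mem _).1 hz
    have e1 : v * (x * y) ∈ sp u * b := by
      rw [huv]
      exact Ideal.mul_mem_mul (Ideal.mem_span_singleton_self v) (Ideal.mul_mem_mul hx hy)
    obtain ⟨β, hβ, e2⟩ := Ideal.mem_span_singleton_mul.1 e1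
    refine (hL.mem _).2 ⟨β, hβ, ?_⟩
    have e3 : emb u * emb β = emb v * (emb x * emb y) := by
      rw [← Pool.Agent.MUX.emb_mul hC, e2, Pool.Agent.MUX.emb_mul hC, Pool.Agent.MUX.emb_mul hC]
    have e4 : emb u * z = om * emb v * emb y := by
      have e5 : om' * (emb u * z) = om' * (om * emb v * emb y) := by
        calc om' * (emb u * z) = om' * emb u / (om * emb v) * z * (om * emb v) := by
              field_simp
          _ = om' * emb y * (om * emb v) := by rw [hyz]
          _ = _ := by ring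
      exact mul_left_cancel₀ hom' e5
    apply mul_left_cancel₀ hu0
    linear_combination emb x * e4 - om * e3
  · intro hz
    obtain ⟨t, ht, hzt⟩ := (h1 A B hC b L om hL a ha z).1 hz
    have e1 : u * t ∈ sp v * (sp ((nI a : ℕ) : OO A B) * b') := by
      have e2 : sp v * (sp ((nI a : ℕ) : OO A B) * b') = sp u * (cjI a * b) := by
        rw [← Pool.Agent.MUX.mul_cjI hC ha]
        calc sp v * (a * cjI a * b') = cjI a * (sp v * (a * b')) := by
              ring
          _ = cjI a * (sp u * b) := by rw [huv]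
          _ = _ := by ring
      rw [e2]
      exact Ideal.mul_mem_mul (Ideal.mem_span_singleton_self u) ht
    obtain ⟨s, hs, e3⟩ := Ideal.mem_span_singleton_mul.1 e1
    obtain ⟨y, hy, e4⟩ := Ideal.mem_span_singleton_mul.1 hs
    refine (hL'.mem _).2 ⟨y, hy, ?_⟩
    have e5 : emb v * ((nI a : ℕ) * emb y) = emb u * emb t := by
      rw [← Pool.Agent.MUX.emb_natCast hC, ← Pool.Agent.MUX.emb_mul hC,
        ← Pool.Agent.MUX.emb_mul hC, ← Pool.Agent.MUX.emb_mul hC, e4, e3]
    rw [hzt]
    field_simp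
    linear_combination -e5

end

end Pool.Agent.MUXC
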