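import Pool.Agent.MUX.StXC

/-!
# MUX, block XC, module QEX (helper26): two lattices are related by an ideal prime to `m`
-/

set_option autoImplicit false

open Polynomial NumberField IsDedekindDomain

namespace Pool.Agent.MUXC

open _root_.MU3 Pool.Agent.MU3A Pool.Agent.MU3B Pool.Agent.MUX Pool.Agent.MUXU Pool.Agent.RI
open Pool.Agent.MUXE (NL Sxe_RNG)

theorem tc_QEX (hCOP : Sc_COP) (hQCR : Sc_QCR) : Sc_QEX := by
  intro A B h b b' m L L' om om' hL hL' hm
  have hb := hL.b_ne
  have hb' := hL'.b_ne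
  obtain ⟨a, x, y, ha, ham, hx, hy, hxy⟩ :=
    hCOP A B h (b * cjI b') m (mul_ne_bot h hb (cjI_ne_bot h hb')) hm
  have hN : ((nI b' : ℕ) : OO A B) ≠ 0 := natCast_ne_zero' h (nI_ne_zero h hb')
  have := isDomain h
  have hu : x * ((nI b' : ℕ) : OO A B) ≠ 0 := mul_ne_zero hx hN
  have key : sp (x * ((nI b' : ℕ) : OO A B)) * b = sp y * (a * b') := by
    have e1 : sp (x * ((nI b' : ℕ) : OO A B)) = sp x * (b' * cjI b') := by
      rw [mul_cjI h hb']
      exact (Ideal.span_singleton_mul_span_singleton _ _).symm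
    rw [e1]
    calc sp x * (b' * cjI b') * b = (sp x * (b * cjI b')) * b' := by ring
      _ = sp y * a * b' := by rw [hxy]
      _ = sp y * (a * b') := by rw [mul_assoc]
  exact ⟨a, _, ha, ham, hQCR A B h a b b' L L' om om' hL hL' ha _ y hu hy key⟩

end Pool.Agent.MUXC
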