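import Pool.Agent.MUX.StXC

/-!
# MUX, block XC: module QNE, first facts on `IsQ`
-/

set_option autoImplicit false

namespace Pool.Agent.MUXC

open _root_.MU3 Pool.Agent.MU3A Pool.Agent.MU3B Pool.Agent.MUX Pool.Agent.MUXU Pool.Agent.RI
open Pool.Agent.MUXE (NL Sxe_RNG)

noncomputable section

/-- QNE. -/
theorem tc_QNE : Sc_QNE := by
  intro A B h a L L' mu hL hq
  refine ⟨?_, ?_, hq.cm h⟩
  · rintro rfl
    have h0 := hq.1
    apply L'.ω₁_div_two_notMem_lattice
    have h1 : mu * (mu⁻¹ * (L'.ω₁ / 2)) ∈ L'.lattice := by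
      refine (hq.2 _).2 fun x hx => ?_
      rw [(Submodule.mem_bot (OO A B)).1 hx, emb_zero h, zero_mul]
      exact zero_mem _
    rwa [mul_inv_cancel_left₀ h0] at h1
  · exact fun z hz => hq.mem hL hz

end

end Pool.Agent.MUXC
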