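import Pool.Agent.MUX.StXC

/-!
# MUX, block XC, module REP (helper91): every class modulo `m` contains a product of primes of degree one
-/

set_option autoImplicit false

namespace Pool.Agent.MUXC

open _root_.MU3 Pool.Agent.MU3A Pool.Agent.MU3B Pool.Agent.MUX Pool.Agent.MUXU Pool.Agent.RI

noncomputable section

namespace REP

variable {A B : ℤ}

theorem sp_mul (x y : OO A B) : sp (x * y) = sp x * sp y :=
  (Ideal.span_singleton_mul_span_singleton x y).symm

theorem le1 (I J : Ideal (OO A B)) : I * J ≤ I := Ideal.mul_le_left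

/-- a multiple of a nonzero ideal is divisible by it -/
theorem exists_mul (h : CQ A B) (d : Ideal (OO A B)) (hd : d ≠ ⊥) (y : OO A B) (hy : y ∈ d) :
    ∃ c : Ideal (OO A B), c * d = sp y := by
  have hN : ((nI d : ℕ) : OO A B) ≠ 0 := natCast_ne_zero' h (nI_ne_zero h hd)
  set N : OO A B := ((nI d : ℕ) : OO A B) with hNdef
  set J : Ideal (OO A B) := sp y * cjI d with hJ
  have hJle : J ≤ sp N := by
    rw [← mul_cjI h hd]
    exact Ideal.mul_mono_left ((Ideal.span_singleton_le_iff_mem _).2 hy)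
  set c : Ideal (OO A B) := Submodule.comap (LinearMap.mulLeft (OO A B) N) J with hc
  have hcJ : sp N * c = J := by
    refine le_antisymm ?_ ?_
    · rw [Ideal.span_singleton_mul_le_iff]
      intro z hz
      exact hz
    · intro z hz
      obtain ⟨w, hw⟩ := Ideal.mem_span_singleton'.1 (hJle hz)
      rw [Ideal.mem_span_singleton_mul]
      refine ⟨w, ?_, by rw [mul_comm]; exact hw⟩
      show N * w ∈ J
      rw [mul_comm, hw]
      exact hz
  have hsp : sp N ≠ ⊥ := by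
    rw [Ne, Ideal.span_singleton_eq_bot]
    exact hN
  refine ⟨c, mul_cancel h hsp ?_⟩
  rw [← mul_assoc, hcJ, hJ, mul_assoc, mul_comm (cjI d) d, mul_cjI h hd, mul_comm]

end REP

open REP in
theorem tc_REP (h1 : Sc_COP) (h2 : Sc_RP1) (h3 : Sc_RP2) (h4 : Sc_RP3) : Sc_REP := by
  intro A B hC m a n hm hn ha hcop
  have hdom : IsDomain (OO A B) := isDomain hC
  have hcja : cjI a ≠ ⊥ := cjI_ne_bot hC ha
  obtain ⟨d, x₀, y₀, hd, hdm, hx₀, hy₀, he⟩ := h1 A B hC (cjI a) m hcja hm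
  have hNa : ((nI a : ℕ) : OO A B) ≠ 0 := natCast_ne_zero' hC (nI_ne_zero hC ha)
  -- the generator of `a * d`
  have e1 : sp (x₀ * ((nI a : ℕ) : OO A B)) = sp y₀ * (a * d) := by
    rw [sp_mul, ← mul_cjI hC ha]
    calc sp x₀ * (a * cjI a) = a * (sp x₀ * cjI a) := by rw [mul_left_comm]
      _ = a * (sp y₀ * d) := by rw [he]
      _ = sp y₀ * (a * d) := by rw [mul_left_comm]
  have hmem : x₀ * ((nI a : ℕ) : OO A B) ∈ sp y₀ := by
    have h5 : x₀ * ((nI a : ℕ) : OO A B) ∈ sp (x₀ * ((nI a : ℕ) : OO A B)) :=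
      Ideal.mem_span_singleton_self _
    rw [e1] at h5
    exact le1 (sp y₀) (a * d) h5
  obtain ⟨t, ht⟩ := Ideal.mem_span_singleton'.1 hmem
  have ht0 : t ≠ 0 := by
    intro h0
    rw [h0, zero_mul] at ht
    exact mul_ne_zero hx₀ hNa ht.symm
  have hspy₀ : sp y₀ ≠ ⊥ := by
    rw [Ne, Ideal.span_singleton_eq_bot]
    exact hy₀
  have had : a * d = sp t := by
    refine mul_cancel hC hspy₀ ?_
    rw [← e1, ← ht, mul_comm t y₀, sp_mul]
  -- the integer `N`
  have hNm : nI m ≠ 0 := nI_ne_zero hC hm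
  obtain ⟨N, hN⟩ : ∃ N : ℕ, N = n * nI m := ⟨_, rfl⟩
  have hN0 : N ≠ 0 := by rw [hN]; exact mul_ne_zero hn hNm
  have hNmem : ((N : ℕ) : OO A B) ∈ m := by
    rw [hN, Nat.cast_mul]
    exact m.mul_mem_left _ (nI_mem hC hm)
  obtain ⟨y₁, hy₁, hy₁t, hy₁P⟩ := h2 A B hC a d m t N hm hd hN0 hNmem hcop hdm ht0 had
  obtain ⟨y, hyd, hy0, hyy, hyP, hyl⟩ := h3 A B hC d y₁ N hd hN0 hy₁ hy₁P
  have hyt : y - t ∈ m := by
    have e : y - t = (y - y₁) + (y₁ - t) := by ring
    rw [e]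
    refine add_mem ?_ (le1 m d hy₁t)
    have h5 : sp ((N : ℕ) : OO A B) * d ≤ m :=
      le_trans (le1 (sp ((N : ℕ) : OO A B)) d) ((Ideal.span_singleton_le_iff_mem _).2 hNmem)
    exact h5 hyy
  obtain ⟨c, hcd⟩ := exists_mul hC d hd y hyd
  have hc0 : c ≠ ⊥ := by
    intro h0
    rw [h0, Ideal.bot_mul] at hcd
    exact hy0 (Ideal.span_singleton_eq_bot.1 hcd.symm)
  have hyc : ∀ P : Ideal (OO A B), c ≤ P → y ∈ P * d := by
    intro P hP
    have h5 : y ∈ c * d := by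
      rw [hcd]
      exact Ideal.mem_span_singleton_self y
    exact Ideal.mul_mono_left hP h5
  obtain ⟨ls, hprod, hls⟩ := h4 A B hC N hN0 c hc0
    (fun P hP hP0 hNP hle => hyP P hP hP0 hNP (hyc P hle))
    (fun l hl hle => hyl l hl (hyc _ hle))
  have hspt : IsCoprime (sp t) m := by
    rw [← had]
    exact IsCoprime.mul_left hcop hdm
  refine ⟨ls, t, y, ?_, hspt, ?_, ht0, hy0, ?_, ?_⟩
  · intro Q hQ
    obtain ⟨hQp, q, hq, hqn, hqN⟩ := hls Q hQ
    refine ⟨hQp, q, hq, hqn, fun h5 => hqN ?_, fun h5 => hqN ?_⟩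
    · rw [hN]
      exact Dvd.dvd.mul_right h5 _
    · rw [hN]
      exact Dvd.dvd.mul_left h5 _
  · obtain ⟨i, hi, j, hj, hij⟩ := Ideal.isCoprime_iff_exists.1 hspt
    obtain ⟨α, hα⟩ := Ideal.mem_span_singleton'.1 hi
    refine Ideal.isCoprime_iff_exists.2 ⟨α * y, Ideal.mem_span_singleton'.2 ⟨α, rfl⟩,
      j - α * (y - t), sub_mem hj (m.mul_mem_left _ hyt), ?_⟩
    rw [← hij, ← hα]
    ring
  · have e : t - y = -(y - t) := by ring
    rw [e]
    exact neg_mem hyt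
  · rw [hprod, ← had, ← hcd]
    ring

end

end Pool.Agent.MUXC
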