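import Pool.Agent.MUX.StXC

/-!
# MUX, block XC: module RP1 (an element of `d` without common factor with `N`)
-/

set_option autoImplicit false

open Polynomial NumberField IsDedekindDomain

namespace Pool.Agent.MUXC

open _root_.MU3 Pool.Agent.MU3A Pool.Agent.MU3B Pool.Agent.MUX Pool.Agent.MUXU Pool.Agent.RI
open Pool.Agent.MUXE (NL Sxe_RNG)

noncomputable section

theorem tc_RP1 (h1 : Sxe_RNG) : Sc_RP1 := by
  intro A B hC a d m t N hm hd hN hNm ham hdm ht had
  classical
  have hded : IsDedekindDomain (OO A B) := (h1 A B hC).ded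
  have hN0 : ((N : ℕ) : OO A B) ≠ 0 := natCast_ne_zero' hC hN
  have hspN : (sp ((N : ℕ) : OO A B) : Ideal (OO A B)) ≠ ⊥ := by
    rw [Ne, Ideal.span_singleton_eq_bot]
    exact hN0
  have hfin := Ideal.finite_factors (I := sp ((N : ℕ) : OO A B)) hspN
  obtain ⟨s, hs⟩ : ∃ s : Finset (HeightOneSpectrum (OO A B)), s = hfin.toFinset := ⟨_, rfl⟩
  obtain ⟨T, hT⟩ : ∃ T : Ideal (OO A B),
      T = ∏ v ∈ s.filter (fun v => t ∉ v.asIdeal * d), v.asIdeal := ⟨_, rfl⟩
  have hT0 : T ≠ ⊥ := by
    rw [hT]
    exact Finset.prod_ne_zero_iff.2 (fun v _ => v.ne_bot)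
  obtain ⟨J, hJ⟩ : ∃ J : Ideal (OO A B), J = m * T * d := ⟨_, rfl⟩
  have hJ0 : J ≠ ⊥ := by
    rw [hJ]
    exact mul_ne_bot hC (mul_ne_bot hC hm hT0) hd
  have hJd : J ≤ d := by
    rw [hJ]
    exact Ideal.mul_le_right
  obtain ⟨μ, hμ⟩ := IsDedekindDomain.exists_sup_span_eq (I := sp ((N : ℕ) : OO A B) * J) (J := J)
    Ideal.mul_le_right (mul_ne_bot hC hspN hJ0)
  have hμJ : μ ∈ J := by
    have h2 : Ideal.span {μ} ≤ J := by
      rw [← hμ]
      exact le_sup_right
    exact h2 (Ideal.mem_span_singleton_self μ)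
  have htd : t ∈ d := by
    have h2 : t ∈ sp t := Ideal.mem_span_singleton_self t
    rw [← had] at h2
    exact Ideal.mul_le_right h2
  refine ⟨t + μ, add_mem htd (hJd hμJ), ?_, ?_⟩
  · rw [add_sub_cancel_left]
    rw [hJ] at hμJ
    exact (Ideal.mul_mono_left Ideal.mul_le_left) hμJ
  · intro P hP hP0 hNP hy
    have hNle : sp ((N : ℕ) : OO A B) ≤ P := by
      rw [Ideal.span_singleton_le_iff_mem]
      exact hNP
    by_cases htP : t ∈ P * d
    · have hmu : μ ∈ P * d := by
        have := sub_mem hy htP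
        rwa [add_sub_cancel_left] at this
      have haP : a ≤ P := by
        have h2 : d * a ≤ d * P := by
          rw [mul_comm d a, had, mul_comm d P, Ideal.span_singleton_le_iff_mem]
          exact htP
        exact (mul_le_mul_iff hC hd).1 h2
      have hJP : J ≤ P * d := by
        rw [← hμ]
        refine sup_le (Ideal.mul_mono hNle hJd) ?_
        rw [Ideal.span_singleton_le_iff_mem]
        exact hmu
      have hmT : m * T ≤ P := by
        have h2 : d * (m * T) ≤ d * P := by
          rw [mul_comm d (m * T), mul_comm d P, ← hJ]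
          exact hJP
        exact (mul_le_mul_iff hC hd).1 h2
      rcases hP.mul_le.1 hmT with h2 | h2
      · apply hP.ne_top
        rw [Ideal.eq_top_iff_one]
        obtain ⟨x, hx, y, hy', hxy⟩ := Ideal.isCoprime_iff_exists.1 ham
        rw [← hxy]
        exact add_mem (haP hx) (h2 hy')
      · rw [hT] at h2
        obtain ⟨v, hv, hvP⟩ := hP.prod_le.1 h2
        have he : v.asIdeal = P := v.isMaximal.eq_of_le hP.ne_top hvP
        have h3 := (Finset.mem_filter.1 hv).2
        rw [he] at h3
        exact h3 htP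
    · apply htP
      have hvs : (⟨P, hP, hP0⟩ : HeightOneSpectrum (OO A B)) ∈
          s.filter (fun v => t ∉ v.asIdeal * d) := by
        rw [Finset.mem_filter, hs, Set.Finite.mem_toFinset]
        exact ⟨Ideal.dvd_iff_le.2 hNle, htP⟩
      have hTP : T ≤ P := by
        rw [hT, ← Ideal.dvd_iff_le]
        exact Finset.dvd_prod_of_mem (fun v : HeightOneSpectrum (OO A B) => v.asIdeal) hvs
      have hJP : J ≤ P * d := by
        rw [hJ]
        exact Ideal.mul_mono_left (Ideal.mul_le_right.trans hTP)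
      have := sub_mem hy (hJP hμJ)
      rwa [add_sub_cancel_right] at this

end

end Pool.Agent.MUXC
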