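import Pool.Agent.MUX.StXC
import Pool.Agent.MUX.XT_BAS

/-!
# MUX, block XC: a primitive element of an ideal (module RP2)
-/

set_option autoImplicit false

open Polynomial NumberField IsDedekindDomain

namespace Pool.Agent.MUXC

open _root_.MU3 Pool.Agent.MU3A Pool.Agent.MU3B Pool.Agent.MUX Pool.Agent.MUXU Pool.Agent.RI
open Pool.Agent.MUXE (NL Sxe_RNG)

noncomputable section

namespace RP2

lemma shift (α β N : ℤ) (hβ : β ≠ 0)
    (h : ∀ l : ℕ, l.Prime → (l : ℤ) ∣ N → (l : ℤ) ∣ α → (l : ℤ) ∣ β → False) :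
    ∃ k : ℤ, ∀ l : ℕ, l.Prime → (l : ℤ) ∣ α + N * k → (l : ℤ) ∣ β → False := by
  classical
  set s : Finset ℕ := β.natAbs.primeFactors.filter (fun p => ¬ (p : ℤ) ∣ α) with hs
  refine ⟨∏ p ∈ s, (p : ℤ), fun l hl h1 h2 => ?_⟩
  have hlp := Nat.prime_iff_prime_int.mp hl
  by_cases h3 : (l : ℤ) ∣ α
  · have h4 : (l : ℤ) ∣ N * ∏ p ∈ s, (p : ℤ) := (dvd_add_right h3).mp h1
    rcases hlp.dvd_or_dvd h4 with h5 | h5
    · exact h l hl h5 h3 h2
    · obtain ⟨p, hp, hlp'⟩ := hlp.exists_mem_finset_dvd h5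
      rw [hs, Finset.mem_filter, Nat.mem_primeFactors] at hp
      have h6 : l ∣ p := by exact_mod_cast hlp'
      rw [(Nat.prime_dvd_prime_iff_eq hl hp.1.1).mp h6] at h3
      exact hp.2 h3
  · have h4 : l ∈ s := by
      rw [hs, Finset.mem_filter, Nat.mem_primeFactors]
      refine ⟨⟨hl, ?_, ?_⟩, h3⟩
      · exact Int.natCast_dvd.mp h2
      · exact Int.natAbs_ne_zero.mpr hβ
    have h5 : (l : ℤ) ∣ ∏ p ∈ s, (p : ℤ) := Finset.dvd_prod_of_mem (fun p : ℕ => (p : ℤ)) h4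
    exact h3 ((dvd_add_left (Dvd.dvd.mul_left h5 N)).mp h1)

variable {A B : ℤ}

/-- a prime number is in a prime ideal -/
lemma exists_prime (hQ : CQ A B) (l : ℕ) (hl : l.Prime) :
    ∃ P : Ideal (OO A B), P.IsPrime ∧ P ≠ ⊥ ∧ ((l : ℕ) : OO A B) ∈ P := by
  have h1 : sp ((l : ℕ) : OO A B) ≠ ⊤ := by
    intro h
    have h2 : (1 : OO A B) ∈ sp ((l : ℕ) : OO A B) := by rw [h]; trivial
    obtain ⟨t, ht⟩ := Ideal.mem_span_singleton.mp h2
    have h3 := congrArg nm ht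
    rw [nm_mul hQ] at h3
    have h4 : nm ((l : ℕ) : OO A B) = (l : ℤ) ^ 2 := by
      have := nm_intCast (A := A) (B := B) (l : ℤ)
      rwa [Int.cast_natCast] at this
    have h5 : nm (1 : OO A B) = 1 := by
      have := nm_intCast (A := A) (B := B) 1
      rw [Int.cast_one] at this
      rw [this]
      norm_num
    rw [h4, h5] at h3
    have h6 : (l : ℤ) ∣ 1 := ⟨l * nm t, by rw [h3]; ring⟩
    have h7 : l ∣ 1 := by exact_mod_cast h6
    exact hl.one_lt.ne' (Nat.dvd_one.mp h7)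
  obtain ⟨M, hM, hle⟩ := Ideal.exists_le_maximal _ h1
  have hmem : ((l : ℕ) : OO A B) ∈ M := hle (Ideal.mem_span_singleton_self _)
  refine ⟨M, hM.isPrime, ?_, hmem⟩
  intro h
  rw [h, Ideal.mem_bot] at hmem
  exact natCast_ne_zero' hQ hl.ne_zero hmem

end RP2

open RP2 in
theorem tc_RP2 : Sc_RP2 := by
  intro A B hQ d y N hd hN hy hP
  obtain ⟨al, be, F, -, -, hB⟩ := MUXT.tx_BAS A B hQ.neg d hd
  have hal : al ∈ d := by
    have := hB.memb (1, 0)
    simpa using this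
  have hbe : be ∈ d := by
    have := hB.memb (0, 1)
    simpa using this
  obtain ⟨⟨α, β₀⟩, hαβ⟩ := hB.surj y hy
  simp only at hαβ
  -- the second coordinate is not zero
  obtain ⟨β, hβ, hβN⟩ : ∃ β : ℤ, β ≠ 0 ∧ (N : ℤ) ∣ β - β₀ := by
    by_cases h : β₀ = 0
    · exact ⟨N, by exact_mod_cast hN, by rw [h, sub_zero]⟩
    · exact ⟨β₀, h, by rw [sub_self]; exact dvd_zero _⟩
  obtain ⟨c, hc⟩ := hβN
  have hNd : ∀ x ∈ d, ((N : ℕ) : OO A B) * x ∈ sp ((N : ℕ) : OO A B) * d := fun x hx =>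
    Ideal.mul_mem_mul (Ideal.mem_span_singleton_self _) hx
  have hNP : ∀ P : Ideal (OO A B), ((N : ℕ) : OO A B) ∈ P → sp ((N : ℕ) : OO A B) * d ≤ P * d :=
    fun P h => Ideal.mul_mono_left ((Ideal.span_singleton_le_iff_mem _).mpr h)
  have hno : ∀ l : ℕ, l.Prime → (l : ℤ) ∣ (N : ℤ) → (l : ℤ) ∣ α → (l : ℤ) ∣ β → False := by
    intro l hl h1 h2 h3
    obtain ⟨P, hPp, hPb, hlP⟩ := exists_prime hQ l hl
    have hNP' : ((N : ℕ) : OO A B) ∈ P := by
      obtain ⟨t, ht⟩ := h1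
      have : ((N : ℕ) : OO A B) = ((l : ℕ) : OO A B) * (t : OO A B) := by
        have := congrArg (fun z : ℤ => (z : OO A B)) ht
        push_cast at this
        exact this
      rw [this]
      exact P.mul_mem_right _ hlP
    apply hP P hPp hPb hNP'
    have h4 : (l : ℤ) ∣ β₀ := by
      have : β₀ = β - N * c := by rw [← hc]; ring
      rw [this]
      exact dvd_sub h3 (Dvd.dvd.mul_right h1 _)
    obtain ⟨a', ha'⟩ := h2
    obtain ⟨b', hb'⟩ := h4
    have h5 : y = ((l : ℕ) : OO A B) * ((a' : OO A B) * al + (b' : OO A B) * be) := by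
      rw [← hαβ, ha', hb']
      push_cast
      ring
    rw [h5]
    exact Ideal.mul_mem_mul hlP (d.add_mem (d.mul_mem_left _ hal) (d.mul_mem_left _ hbe))
  obtain ⟨k, hk⟩ := shift α β N hβ hno
  set y' : OO A B := ((α + N * k : ℤ) : OO A B) * al + ((β : ℤ) : OO A B) * be with hy'
  have hy'd : y' ∈ d := d.add_mem (d.mul_mem_left _ hal) (d.mul_mem_left _ hbe)
  have hdiff : y' - y = ((N : ℕ) : OO A B) * ((k : OO A B) * al + (c : OO A B) * be) := by
    have : (β : ℤ) = β₀ + N * c := by rw [← hc]; ring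
    rw [hy', ← hαβ, this]
    push_cast
    ring
  have hdm : y' - y ∈ sp ((N : ℕ) : OO A B) * d := by
    rw [hdiff]
    exact hNd _ (d.add_mem (d.mul_mem_left _ hal) (d.mul_mem_left _ hbe))
  refine ⟨y', hy'd, ?_, hdm, ?_, ?_⟩
  · intro h
    have := hB.inj (α + N * k, β) (0, 0) (by
      show ((α + N * k : ℤ) : OO A B) * al + ((β : ℤ) : OO A B) * be =
        ((0 : ℤ) : OO A B) * al + ((0 : ℤ) : OO A B) * be
      rw [← hy', h]
      simp)
    exact hβ (congrArg Prod.snd this)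
  · intro P hPp hPb hNP' hmem
    apply hP P hPp hPb hNP'
    have : y = y' - (y' - y) := by ring
    rw [this]
    exact Ideal.sub_mem _ hmem (hNP P hNP' hdm)
  · intro l hl hmem
    obtain ⟨t, ht, hlt⟩ := Ideal.mem_span_singleton_mul.mp hmem
    obtain ⟨⟨u, w⟩, huw⟩ := hB.surj t ht
    simp only at huw
    have := hB.inj (α + N * k, β) (l * u, l * w) (by
      show ((α + N * k : ℤ) : OO A B) * al + ((β : ℤ) : OO A B) * be =
        ((l * u : ℤ) : OO A B) * al + ((l * w : ℤ) : OO A B) * be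
      rw [← hy', ← hlt, ← huw]
      push_cast
      ring)
    have e1 := congrArg Prod.fst this
    have e2 := congrArg Prod.snd this
    simp only at e1 e2
    exact hk l hl ⟨u, e1⟩ ⟨w, e2⟩

end

end Pool.Agent.MUXC
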