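import Pool.Agent.MUX.StXC

/-!
# MUX, block XC, module RP3: factorisation into primes of degree one (helper55)
-/

set_option autoImplicit false

namespace Pool.Agent.MUXC

open _root_.MU3 Pool.Agent.MU3A Pool.Agent.MU3B Pool.Agent.MUX Pool.Agent.MUXU
open Pool.Agent.MUXE (NL Sxe_RNG)

namespace RP3

variable {A B : ℤ}

/-- a prime ideal which contains the natural number `n ≠ 0` contains a prime factor of `n` -/
lemma exists_prime {Q : Ideal (OO A B)} (hQ : Q.IsPrime) :
    ∀ n : ℕ, n ≠ 0 → ((n : ℕ) : OO A B) ∈ Q → ∃ q : ℕ, q.Prime ∧ ((q : ℕ) : OO A B) ∈ Q := by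
  intro n
  induction n using Nat.recOnMul with
  | zero => intro h0; exact absurd rfl h0
  | one =>
    intro _ h1
    exact absurd ((Ideal.eq_top_iff_one _).2 (by simpa using h1)) hQ.ne_top
  | prime p hp => intro _ h; exact ⟨p, hp, h⟩
  | mul a b ha hb =>
    intro h0 h
    rw [Nat.cast_mul] at h
    rcases hQ.mem_or_mem h with h1 | h1
    · exact ha (left_ne_zero_of_mul h0) h1
    · exact hb (right_ne_zero_of_mul h0) h1

lemma nI_eq_one (h : CQ A B) {Q : Ideal (OO A B)} (hQ : Q ≠ ⊥) (h1 : nI Q = 1) : Q = ⊤ := by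
  have := nI_mem h hQ
  rw [h1, Nat.cast_one] at this
  exact (Ideal.eq_top_iff_one _).2 this

end RP3

open RP3 in
theorem tc_RP3 (hR : Sxe_RNG) : Sc_RP3 := by
  intro A B h N hN
  have hE := hR A B h
  have hdom : IsDomain (OO A B) := isDomain h
  have hded : IsDedekindDomain (OO A B) := hE.ded
  have key : ∀ (k : ℕ) (c : Ideal (OO A B)), nI c = k → c ≠ ⊥ →
      (∀ P : Ideal (OO A B), P.IsPrime → P ≠ ⊥ → ((N : ℕ) : OO A B) ∈ P → ¬ c ≤ P) →
      (∀ l : ℕ, l.Prime → ¬ c ≤ sp ((l : ℕ) : OO A B)) →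
      ∃ ls : List (Ideal (OO A B)), ls.prod = c ∧ ∀ Q ∈ ls, Q.IsPrime ∧ ∃ q : ℕ, q.Prime ∧
        nI Q = q ∧ ¬ q ∣ N := by
    intro k
    induction k using Nat.strong_induction_on with
    | _ k ih =>
    intro c hk hc h1 h2
    by_cases htop : c = ⊤
    · exact ⟨[], by rw [htop, List.prod_nil, Ideal.one_eq_top], by simp⟩
    obtain ⟨Q, hQm, hcQ⟩ := Ideal.exists_le_maximal c htop
    have hQp : Q.IsPrime := hQm.isPrime
    have hQ0 : Q ≠ ⊥ := by
      rintro rfl
      exact hc (le_bot_iff.1 hcQ)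
    obtain ⟨c', rfl⟩ := Ideal.dvd_iff_le.2 hcQ
    have hc' : c' ≠ ⊥ := by
      rintro rfl
      exact hc (Ideal.mul_bot Q)
    have hmul := nI_mul h hQ0 hc'
    have hnc : nI c' ≠ 0 := nI_ne_zero h hc'
    -- the prime number
    obtain ⟨q, hq, hqQ⟩ := exists_prime hQp (nI Q) (nI_ne_zero h hQ0) (nI_mem h hQ0)
    have hq0 : ((q : ℕ) : OO A B) ≠ 0 := natCast_ne_zero' h hq.ne_zero
    have hspq : sp ((q : ℕ) : OO A B) ≠ ⊥ := by
      intro e
      exact hq0 (Ideal.span_singleton_eq_bot.1 e)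
    obtain ⟨Q', hQ'⟩ := Ideal.dvd_iff_le.2 ((Ideal.span_singleton_le_iff_mem Q).2 hqQ)
    have hQ'0 : Q' ≠ ⊥ := by
      rintro rfl
      exact hspq (hQ'.trans (Ideal.mul_bot Q))
    have hn2 : nI (sp ((q : ℕ) : OO A B)) = q ^ 2 := by
      rw [nI_sp h hq0]
      have := nm_intCast (A := A) (B := B) (q : ℤ)
      have e : (((q : ℕ) : ℤ) : OO A B) = ((q : ℕ) : OO A B) := by push_cast; rfl
      rw [e] at this
      rw [this]
      rw [← Nat.cast_pow, Int.natAbs_natCast]
    have hn3 : nI Q * nI Q' = q ^ 2 := by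
      rw [← nI_mul h hQ0 hQ'0, ← hn2]
      exact congrArg nI hQ'.symm
    have hne1 : nI Q ≠ 1 := fun e => hQp.ne_top (nI_eq_one h hQ0 e)
    obtain ⟨j, hj, hj'⟩ := (Nat.dvd_prime_pow hq).1 (Dvd.intro _ hn3)
    have hnq : nI Q = q := by
      interval_cases j
      · exact absurd (by simpa using hj') hne1
      · simpa using hj'
      · exfalso
        have e1 : nI Q' = 1 := by
          rw [hj'] at hn3
          have : 0 < q ^ 2 := pow_pos hq.pos 2
          exact Nat.eq_of_mul_eq_mul_left this (by rw [hn3, mul_one])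
        have e2 := nI_eq_one h hQ'0 e1
        rw [e2, Ideal.mul_top] at hQ'
        exact h2 q hq (by rw [show sp ((q : ℕ) : OO A B) = Q from hQ']; exact hcQ)
    have hle : Q * c' ≤ c' := Ideal.mul_le_right
    obtain ⟨ls, hls, hls'⟩ := ih (nI c') (by
      rw [← hk, hmul]
      have : 1 < nI Q := by rw [hnq]; exact hq.one_lt
      exact lt_mul_of_one_lt_left (Nat.pos_of_ne_zero hnc) this) c' rfl hc'
      (fun P hP hP0 hNP hle' => h1 P hP hP0 hNP (hle.trans hle'))
      (fun l hl hle' => h2 l hl (hle.trans hle'))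
    refine ⟨Q :: ls, by rw [List.prod_cons, hls], ?_⟩
    intro I hI
    rcases List.mem_cons.1 hI with e | e
    · subst e
      refine ⟨hQp, q, hq, hnq, ?_⟩
      rintro ⟨t, ht⟩
      refine h1 _ hQp hQ0 ?_ hcQ
      rw [ht, Nat.cast_mul]
      exact Ideal.mul_mem_right _ _ hqQ
    · exact hls' I e
  intro c hc h1 h2
  exact key (nI c) c rfl hc h1 h2

end Pool.Agent.MUXC
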