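import Pool.Agent.MUX.StXC
import Pool.Agent.MU3.BAll
import Pool.Agent.MU3.A_SCP

/-!
# MUX, block XC, module SGQ: normalised lattices `mu a⁻¹ L` are unique, `mu` up to sign (helper55)
-/

set_option autoImplicit false

namespace Pool.Agent.MUXC

open _root_.MU3 Pool.Agent.MU3A Pool.Agent.MU3B Pool.Agent.MUX Pool.Agent.MUXU

theorem tc_SGQ : Sc_SGQ := by
  intro A B a L L' L'' mu mu'' h h' hL' hL''
  obtain ⟨h0, h1⟩ := h
  obtain ⟨h0', h1'⟩ := h'
  have hs : mu'' / mu ≠ 0 := div_ne_zero h0' h0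
  have key : ∀ z : ℂ, z ∈ L'.lattice ↔ mu'' / mu * z ∈ L''.lattice := by
    intro z
    have e1 : mu * (z / mu) = z := mul_div_cancel₀ z h0
    have e2 : mu'' * (z / mu) = mu'' / mu * z := by ring
    rw [← e2, h1', ← h1, e1]
  obtain ⟨hP, -, h2, h3⟩ := Pool.Agent.MU3A.ta_SCP L' L'' (mu'' / mu) hs key
  set s := mu'' / mu with hsdef
  have hd' := (Pool.Agent.MU3B.b_DSC L'').1
  have h30 : L''.g₃ ≠ 0 := by
    intro e0
    apply hd'
    rw [hL'', e0]
    ring
  have e2 : s ^ 2 = 1 := by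
    rw [eq_div_iff (pow_ne_zero 4 hs)] at h2
    rw [eq_div_iff (pow_ne_zero 6 hs)] at h3
    have e : L''.g₃ * s ^ 4 * (s ^ 2 - 1) = 0 := by
      linear_combination h3 + (1 / 18) * h2 - (s ^ 4 / 18) * hL'' + (1 / 18) * hL'
    have e' := (mul_eq_zero.1 e).resolve_left (mul_ne_zero h30 (pow_ne_zero 4 hs))
    exact sub_eq_zero.1 e'
  have hcase : s = 1 ∨ s = -1 := by
    have e5 : (s - 1) * (s + 1) = 0 := by linear_combination e2
    rcases mul_eq_zero.1 e5 with e | e
    · exact Or.inl (sub_eq_zero.1 e)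
    · exact Or.inr (eq_neg_of_add_eq_zero_left e)
  have hmu : mu'' = s * mu := by rw [hsdef]; field_simp
  refine ⟨?_, ?_, ?_, ?_⟩
  · rcases hcase with e | e
    · left; rw [hmu, e, one_mul]
    · right; rw [hmu, e]; ring
  · intro z
    rw [key z]
    rcases hcase with e | e
    · rw [e, one_mul]
    · rw [e, neg_one_mul, neg_mem_iff]
  · have e4 : s ^ 4 = 1 := by
      have : s ^ 4 = s ^ 2 * s ^ 2 := by ring
      rw [this, e2, one_mul]
    rw [e4, div_one] at h2
    unfold MUX.kap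
    rw [h2]
  · intro z
    have e6 : mu'' * z = s * (mu * z) := by rw [hmu]; ring
    have e7 := hP (mu * z)
    rw [e2, div_one] at e7
    unfold MUX.xn
    rw [e6, e7]

end Pool.Agent.MUXC
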