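import Pool.Agent.MUX.StXC

/-!
# MUX, block XC: the contract `TorX`
-/

set_option autoImplicit false

namespace Pool.Agent.MUXC

open _root_.MU3 Pool.Agent.MU3A Pool.Agent.MU3B Pool.Agent.MUX Pool.Agent.MUXU Pool.Agent.RI

theorem tc_TOR (h1 : Sc_FGL) (h2 : Sc_CMM) (h3 : Sc_EXT) (h4 : Sc_ACT) (h5 : Sc_SUR)
    (h6 : Sc_CMP) (h7 : Sc_CHG) (h8 : Sc_UNQ) (h9 : Sc_TRV) (h10 : Sc_ZET) : Sc_TOR :=
  fun A B hAB =>
    { fin := fun m hm => (h1 A B hAB m hm).1
      gal := fun m hm => (h1 A B hAB m hm).2.1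
      comm := fun m hm => h2 A B hAB m hm
      mono := fun m m' h => (h3 A B hAB).1 m m' h
      ext := fun m hm D h hD τ => (h3 A B hAB).2 m hm D h hD τ
      act := fun m hm σ hσ => h4 A B hAB m hm σ hσ
      surj := fun m hm a ha hc => h5 A B hAB m hm a ha hc
      comp := fun m a b σ τ L L' L'' mu nu => h6 A B hAB m a b σ τ L L' L'' mu nu
      chg := fun m a a' σ L L' mu x y => h7 A B hAB m a a' σ L L' mu x y
      uniq := fun m a a' σ L L' mu mu' => h8 A B hAB m a a' σ L L' mu mu'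
      triv := fun m a σ b L L' om mu => h9 A B hAB m a σ b L L' om mu
      zeta := fun M m a σ b L L' om mu => h10 A B hAB M m a σ b L L' om mu }

end Pool.Agent.MUXC
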