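import Pool.Agent.MUX.StXC

/-!
# MUX, block XC, module TRO (helper83): the lattice `a⁻¹ L`
-/

set_option autoImplicit false

namespace Pool.Agent.MUXC

open _root_.MU3 Pool.Agent.MU3A Pool.Agent.MU3B Pool.Agent.MUX Pool.Agent.MUXU Pool.Agent.RI

noncomputable section

theorem tc_TRO : Sc_TRO := by
  intro A B h b L om hL a ha z
  have hN : nI a ≠ 0 := nI_ne_zero h ha
  have hNC : ((nI a : ℕ) : ℂ) ≠ 0 := by exact_mod_cast hN
  have hom := hL.om_ne
  have hsp : sp ((nI a : ℕ) : OO A B) * b = a * (cjI a * b) := by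
    rw [← mul_cjI h ha, mul_assoc]
  constructor
  · intro hz
    have h1 := hz _ (nI_mem h ha)
    rw [emb_natCast h] at h1
    obtain ⟨t, ht, htz⟩ := (hL.mem _).1 h1
    have hze : z = om * emb t / nI a := by
      rw [← htz]
      field_simp
    refine ⟨t, ?_, hze⟩
    have h2 : a * sp t ≤ a * (cjI a * b) := by
      rw [mul_comm, Ideal.span_singleton_mul_le_iff]
      intro x hx
      obtain ⟨β, hβ, hβz⟩ := (hL.mem _).1 (hz x hx)
      rw [← hsp, Ideal.mem_span_singleton_mul]
      refine ⟨β, hβ, ?_⟩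
      apply emb_inj h
      rw [emb_mul h, emb_mul h, emb_natCast h]
      apply mul_left_cancel₀ hom
      have h3 : om * ((nI a : ℕ) * emb β) = (nI a : ℕ) * (om * emb β) := by ring
      rw [h3, ← hβz, hze]
      field_simp
    exact (mul_le_mul_iff h ha).1 h2 (Ideal.mem_span_singleton_self t)
  · rintro ⟨t, ht, rfl⟩ x hx
    have h1 : x * t ∈ a * (cjI a * b) := Ideal.mul_mem_mul hx ht
    rw [← hsp, Ideal.mem_span_singleton_mul] at h1
    obtain ⟨β, hβ, hβx⟩ := h1
    refine (hL.mem _).2 ⟨β, hβ, ?_⟩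
    have h2 : ((nI a : ℕ) : ℂ) * emb β = emb x * emb t := by
      rw [← emb_natCast h, ← emb_mul h, hβx, emb_mul h]
    field_simp
    linear_combination (-1 : ℂ) * h2

end

end Pool.Agent.MUXC
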