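import Pool.Agent.MUX.StXC
import Pool.Agent.MU3.BAll

/-!
# MUX, block XC, module TRV: the field `triv` of `TorX` (helper76)
-/

set_option autoImplicit false

open Polynomial NumberField IsDedekindDomain

namespace Pool.Agent.MUXC

open _root_.MU3 Pool.Agent.MU3A Pool.Agent.MU3B Pool.Agent.MUX Pool.Agent.MUXU Pool.Agent.RI
open Pool.Agent.MUXE (NL Sxe_RNG)

noncomputable section

namespace TRV

/-- automorphisms of `ℂ` with `FixK` are trivial on `k` -/
lemma fix {A B : ℤ} {σ : ℂ ≃+* ℂ} (hσ : FixK A B σ) : ∀ y ∈ kk A B, σ y = y := by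
  intro y hy
  induction hy using IntermediateField.adjoin_induction with
  | mem x hx => rw [Set.mem_singleton_iff] at hx; rw [hx]; exact hσ
  | algebraMap x => simp
  | add x y _ _ hx hy => rw [map_add, hx, hy]
  | inv x _ hx => rw [map_inv₀, hx]
  | mul x y _ _ hx hy => rw [map_mul, hx, hy]

end TRV

theorem tc_TRV (hCJN : Sc_CJN) (hSGQ : Sc_SGQ) (hQNE : Sc_QNE) (hENO : Sc_ENO) (hINV : Sc_INV)
    (hGEN : Sc_GEN) (hIND : Sc_IND) : Sc_TRV := by
  intro A B h m a σ b L L' om mu hm hσ hL hact hnrm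
  have hCM : HasCM A B L := hL.toIsLI.hasCM h
  obtain ⟨hane, hisg, -⟩ := hQNE A B h a L L' mu hCM hact.isq
  obtain ⟨cj1, -, cj3⟩ := hCJN A B h
  constructor
  · intro hfix
    have hkap : kap L' = kap L := by
      rw [hact.kap]
      exact hfix _ (IntermediateField.subset_adjoin _ _ ⟨b, L, om, hL, Or.inl rfl⟩)
    obtain ⟨hlat, hco⟩ := cj3 L L' hL.nrm hnrm hkap.symm
    have hmu := hact.isq.1
    have hq : ∀ z : ℂ, mu * z ∈ L.lattice ↔ Tor a L z := fun z =>
      (hlat _).trans (hact.isq.2 z)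
    obtain ⟨c, hc⟩ := hENO A B h b L om hL.toIsLI mu fun z hz => (hlat _).2 (hisg z hz)
    have hasp : a = sp c := by
      apply le_antisymm
      · intro y hy
        obtain ⟨t, ht⟩ := hENO A B h b L om hL.toIsLI (emb y / mu) (by
          intro l hl
          have h1 := (hq (l / mu)).1 (by rwa [mul_div_cancel₀ _ hmu]) y hy
          have e : emb y / mu * l = emb y * (l / mu) := by ring
          rw [e]
          exact h1)
        have h2 : y = t * c := by
          apply emb_inj h
          rw [emb_mul h, ← ht, ← hc, div_mul_cancel₀ _ hmu]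
        rw [h2]
        exact Ideal.mem_span_singleton'.2 ⟨t, rfl⟩
      · rw [Ideal.span_singleton_le_iff_mem]
        refine hINV A B h b L om hL.toIsLI a hane c fun z hz => ?_
        rw [← hc]
        exact (hq z).2 hz
    obtain ⟨u, hu, huL, -⟩ := hGEN A B h b m L om hL.toIsLI hm
    by_cases hu0 : u ∈ L.lattice
    · have h1 : (1 : OO A B) ∈ m := (huL 1).1 (by rwa [emb_one h, one_mul])
      exact ⟨c, by rw [(Ideal.eq_top_iff_one m).2 h1]; trivial, hasp⟩
    · rcases hact.act u hu with ⟨h1, -⟩ | ⟨-, h2, h3, -⟩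
      · exact absurd h1 hu0
      · have h4 : σ (xn L u) = xn L u :=
          hfix _ (IntermediateField.subset_adjoin _ _ ⟨b, L, om, hL, Or.inr ⟨u, hu, hu0, rfl⟩⟩)
        have h5 : xn L (mu * u) = xn L u := by
          rw [(hco _).1, ← h3, h4]
        have h6 : L.weierstrassP (mu * u) = L.weierstrassP u := by
          have := h5
          simp only [xn] at this
          linear_combination this
        have h7 : mu * u ∉ L.lattice := fun h8 => h2 ((hlat _).1 h8)
        rcases b_NEQ L u (mu * u) hu0 h7 h6 with h8 | h8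
        · refine ⟨c, (huL _).1 ?_, hasp⟩
          rw [emb_sub h, emb_one h, ← hc, sub_mul, one_mul]
          exact h8
        · refine ⟨-c, ?_, ?_⟩
          · have h9 : c + 1 ∈ m := by
              refine (huL _).1 ?_
              rw [emb_add h, emb_one h, ← hc, add_mul, one_mul]
              exact h8
            have e : -c - 1 = -(c + 1) := by ring
            rw [e]
            exact neg_mem h9
          · rw [hasp]
            exact (Ideal.span_singleton_neg c).symm
  · rintro ⟨c, hcm, rfl⟩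
    have hc0 : c ≠ 0 := by
      rintro rfl
      exact hane (Ideal.span_singleton_eq_bot.2 rfl)
    obtain ⟨-, b₁, L₁, om₁, hL₁, -, hkap₁⟩ := cj1 σ hσ b L om hL
    have hL' : IsNL b₁ L' om₁ := by
      obtain ⟨hlat, -⟩ := cj3 L' L₁ hnrm hL₁.nrm (by rw [hact.kap, hkap₁])
      exact ⟨⟨hL₁.b_ne, hL₁.om_ne, fun z => (hlat z).trans (hL₁.mem z)⟩, hnrm⟩
    have key : ∀ (c₀ : Ideal (OO A B)) (M : PeriodPair) (omm : ℂ), IsNL c₀ M omm →
        σ (kap M) = kap M ∧ ∀ z, Tor m M z → z ∉ M.lattice → σ (xn M z) = xn M z := by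
      intro c₀ M omm hM
      obtain ⟨-, c₁, M', omm', hM', -, hkapM⟩ := cj1 σ hσ c₀ M omm hM
      obtain ⟨nu, hnu⟩ := hIND A B h σ hσ m (sp c) b b₁ c₀ c₁ L L' M M' om om₁ omm omm' mu hm hL
        hL' hM hM' hact hkapM
      have hCMM : HasCM A B M := hM.toIsLI.hasCM h
      have hq : IsQ (sp c) M M (emb c) :=
        ⟨emb_ne_zero h hc0, fun z => (tor_span h hCMM c).symm⟩
      obtain ⟨-, -, hk, hx⟩ := hSGQ A B (sp c) M M' M nu (emb c) hnu.isq hq hM'.nrm hM.nrm
      refine ⟨by rw [← hkapM, hk], fun z hz hzM => ?_⟩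
      rcases hnu.act z hz with ⟨h1, -⟩ | ⟨-, -, h3, -⟩
      · exact absurd h1 hzM
      · rw [h3, hx z]
        have h4 : emb (c - 1) * z ∈ M.lattice := hz _ hcm
        have h5 : emb c * z = z + emb (c - 1) * z := by
          rw [emb_sub h, emb_one h]
          ring
        have h6 : M.weierstrassP (z + emb (c - 1) * z) = M.weierstrassP z :=
          M.weierstrassP_add_coe z ⟨_, h4⟩
        rw [h5, xn, xn, h6]
    intro y hy
    induction hy using IntermediateField.adjoin_induction with
    | mem x hx =>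
      obtain ⟨c₀, M, omm, hM, rfl | ⟨z, hz, hzM, rfl⟩⟩ := hx
      · exact (key c₀ M omm hM).1
      · exact (key c₀ M omm hM).2 z hz hzM
    | algebraMap x => exact TRV.fix hσ _ x.2
    | add x y _ _ hx hy => rw [map_add, hx, hy]
    | inv x _ hx => rw [map_inv₀, hx]
    | mul x y _ _ hx hy => rw [map_mul, hx, hy]

end

end Pool.Agent.MUXC
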