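import Pool.Agent.MUX.StQX

/-!
# MUX, block R, part 2, module FRX (helper23): the Frobenius congruence for a prime ideal of degree one
-/

set_option autoImplicit false

open WeierstrassCurve Polynomial

namespace Pool.Agent.MUXV

open _root_.MU3 Pool.Agent.MU3A Pool.Agent.MU3B Pool.Agent.MUXU
open Pool.Agent.MUXF (CQ)

noncomputable section

theorem tq_FRX (hISQ : Sq_ISQ) (hVQI : Sq_VQI) (hNGR : Sx_NGR) (hFRN : Sx_FRN) : Sq_FRX := by
  intro A B hC Q q hq hq2 hq3 hqD hQ L M mu hL hM hnL hnM V hV hkL hgL hkM hgM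
  obtain ⟨-, h1⟩ := hVQI A B hC V
  obtain ⟨hvq, hvu, -⟩ := h1 Q q hq hQ hV
  have hv2 : V.valuation 2 = 1 := by
    have h := hvu 2 (by
      intro h
      have h2 : q ∣ 2 := by exact_mod_cast h
      exact hq2 ((Nat.prime_dvd_prime_iff_eq hq Nat.prime_two).1 h2))
    simpa using h
  have hv3 : V.valuation 3 = 1 := by
    have h := hvu 3 (by
      intro h
      have h2 : q ∣ 3 := by exact_mod_cast h
      exact hq3 ((Nat.prime_dvd_prime_iff_eq hq Nat.prime_three).1 h2))
    simpa using h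
  have hGL := hNGR V L hnL hv2 hkL hgL
  have hGM := hNGR V M hnM hv2 hkM hgM
  obtain ⟨⟨H, hI⟩, hmu, -⟩ := hISQ A B hC Q q hq hq2 hqD hQ L M (1 / 12) (1 / 12) mu hL hM V hGL hGM
  exact hFRN V L M mu q H hI hv3 hvq (hmu hV) hnL hnM hgL hgM

end

end Pool.Agent.MUXV
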