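import Pool.Agent.MUX.StVX

/-!
# MUX, block R, module NGR: a normalised lattice has good reduction where `2`, `κ`, `12 g₂` are units
-/

set_option autoImplicit false

open WeierstrassCurve Polynomial

namespace Pool.Agent.MUXV

open Pool.Agent.MU3B Pool.Agent.MUXU Pool.Agent.MU3.Val

noncomputable section

theorem tx_NGR (h : Sx_XIC) : Sx_NGR := by
  intro V L hg h2 hk h12
  obtain ⟨ξ, h0, -, h1⟩ := h L (1 / 12)
  have hk' : 12 * L.g₂ = 1 + 1728 * kp L := by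
    unfold kp; ring
  have hg2 : L.g₂ = (1 + 1728 * kp L) / 12 := by linear_combination hk' / 12
  have hg3 : L.g₃ = -(1 + 1728 * kp L) / 216 := by
    linear_combination (1 / 18 : ℂ) * hg - (1 / 18 : ℂ) * hg2
  have ha4 : (WS L (1 / 12)).a₄ = -((36 : ℕ) : ℂ) * kp L := by
    show 3 * (1 / 12 : ℂ) ^ 2 - L.g₂ / 4 = _
    rw [hg2]; push_cast; ring
  have ha6 : (WS L (1 / 12)).a₆ = -kp L := by
    show (1 / 12 : ℂ) ^ 3 - L.g₂ / 4 * (1 / 12) - L.g₃ / 4 = _
    rw [hg2, hg3]; ring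
  have ha2 : (WS L (1 / 12)).a₂ = 1 / 2 * (1 / 2) := by
    show 3 * (1 / 12 : ℂ) = _
    ring
  have hn : ∀ n : ℕ, V.valuation (n : ℂ) ≤ 1 := fun n =>
    (ValuationSubring.valuation_le_one_iff _ _).2 (natCast_mem V n)
  refine ⟨WS L (1 / 12), ξ, ⟨rfl, rfl, ?_, ?_, ?_⟩, h2, ?_, fun z hz => h1 z hz, fun z hz => (h0 z).2 hz⟩
  · rw [ha2, map_mul, map_div₀, h2, map_one]; simp
  · rw [ha4, map_mul, Valuation.map_neg, hk, mul_one]; exact hn 36
  · rw [ha6, Valuation.map_neg, hk]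
  · have : (WS L (1 / 12)).Δ = kp L * (12 * L.g₂) ^ 2 := by
      unfold WeierstrassCurve.Δ WeierstrassCurve.b₂ WeierstrassCurve.b₄ WeierstrassCurve.b₆ WeierstrassCurve.b₈
      rw [ha4, ha6, ha2, hk']
      show _ = _
      have e1 : (WS L (1 / 12)).a₁ = 0 := rfl
      have e3 : (WS L (1 / 12)).a₃ = 0 := rfl
      rw [e1, e3]
      push_cast
      ring
    rw [this, map_mul, map_pow, hk, h12]; simp

end

end Pool.Agent.MUXV
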