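import Pool.Agent.MUX.StYX

/-!
# MUX, block Y: MUC, conjugation of multipliers (helper95)
-/

set_option autoImplicit false

namespace Pool.Agent.MUXY

open _root_.MU3 Pool.Agent.MU3A Pool.Agent.MU3B Pool.Agent.MUXU OnePoint
open Pool.Agent.MUXF (Sx_ALG)

noncomputable section

/-- an automorphism fixing `wC` fixes the image of the order -/
theorem muc_fix {A B : ℤ} {σ : ℂ ≃+* ℂ} (h : MUX.FixK A B σ) (x : OO A B) :
    σ (emb x) = emb x := by
  unfold MUX.FixK at h
  unfold emb
  rw [map_add, map_mul, h, map_intCast, map_intCast]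

theorem ty_MUC (h1 : Sx_ALG) (h2 : Su_PHI) (h3 : Su_FUN) (h4 : Su_TSN) (h5 : Su_CMC) :
    Sy_MUC := by
  intro A B hq σ hσ a b L M L' M' om mu hL hLL hMM hQ
  obtain ⟨hmul, -⟩ := h1 A B (cqF hq)
  obtain ⟨hmu, hQ⟩ := hQ
  -- elements of the order are multipliers of `L`
  have hO : ∀ x : OO A B, Isg L L (emb x) := by
    intro x w hw
    obtain ⟨y, hy, rfl⟩ := (hL.mem w).1 hw
    refine (hL.mem _).2 ⟨x * y, b.mul_mem_left x hy, ?_⟩
    rw [(hmul x y).1]
    ring
  have hg : Isg L M mu := by
    intro w hw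
    exact (hQ w).2 fun x _ => hO x w hw
  obtain ⟨Φ, hΦ⟩ := h2 σ L L' hLL
  obtain ⟨Ψ, hΨ⟩ := h2 σ M M' hMM
  obtain ⟨hg', hF⟩ := h3 σ L M L' M' mu Φ Ψ hmu hg hLL hMM hΦ hΨ
  refine ⟨?_, fun u => ?_⟩
  · simpa using hmu
  · obtain ⟨z, hz⟩ := hΦ.surj u
    have e1 : σ mu * u ∈ M'.lattice ↔ σ mu * Φ z ∈ M'.lattice := by
      have h := hg' _ hz
      rw [mul_sub] at h
      constructor
      · intro hu
        have := M'.lattice.add_mem h hu
        simpa using this
      · intro hu
        have := M'.lattice.sub_mem hu h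
        simpa using this
    have e2 : σ mu * Φ z ∈ M'.lattice ↔ Ψ (mu * z) ∈ M'.lattice := by
      have h := hF z
      constructor
      · intro hu
        have := M'.lattice.add_mem h hu
        simpa using this
      · intro hu
        have := M'.lattice.sub_mem hu h
        simpa using this
    rw [e1, e2, hΨ.mem, hQ]
    have e3 : ∀ x : OO A B, emb x * z ∈ L.lattice ↔ emb x * u ∈ L'.lattice := by
      intro x
      rw [← (h4 σ L L' Φ hLL hΦ).2 (emb x) z (hO x) (muc_fix hσ x)]
      have h := (h5 σ L L' Φ (emb x) (hO x) (muc_fix hσ x) hLL hΦ).1 _ hz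
      rw [mul_sub] at h
      constructor
      · intro hu
        have := L'.lattice.sub_mem hu h
        simpa using this
      · intro hu
        have := L'.lattice.add_mem h hu
        simpa using this
    exact forall₂_congr fun x _ => e3 x

end

end Pool.Agent.MUXY
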