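import Pool.Agent.MUX.RQ0
import Pool.Agent.MUX.R_NGR
import Pool.Agent.MUX.Q_FRX
import Pool.Agent.MUX.E_RNG
import Pool.Agent.MUX.XFAll
import Pool.Agent.MUX.Y_SAM
import Pool.Agent.MUX.Y_MUC
import Pool.Agent.MU3.FinD
import Pool.Agent.MU3.MDENSF
import Pool.Agent.MUX.C_ACT
import Pool.Agent.MUX.C_BAD
import Pool.Agent.MUX.C_CHG
import Pool.Agent.MUX.C_CJN
import Pool.Agent.MUX.C_CLF
import Pool.Agent.MUX.C_CMM
import Pool.Agent.MUX.C_CMP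
import Pool.Agent.MUX.C_COP
import Pool.Agent.MUX.C_DNX
import Pool.Agent.MUX.C_ENO
import Pool.Agent.MUX.C_EXA
import Pool.Agent.MUX.C_EXT
import Pool.Agent.MUX.C_FEX
import Pool.Agent.MUX.C_FGL
import Pool.Agent.MUX.C_FNG
import Pool.Agent.MUX.C_FRO
import Pool.Agent.MUX.C_GEN
import Pool.Agent.MUX.C_IND
import Pool.Agent.MUX.C_INV
import Pool.Agent.MUX.C_ISL
import Pool.Agent.MUX.C_NEX
import Pool.Agent.MUX.C_NMC
import Pool.Agent.MUX.C_NRL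
import Pool.Agent.MUX.C_PHM
import Pool.Agent.MUX.C_PMF
import Pool.Agent.MUX.C_QCR
import Pool.Agent.MUX.C_QEX
import Pool.Agent.MUX.C_QNE
import Pool.Agent.MUX.C_REP
import Pool.Agent.MUX.C_RP1
import Pool.Agent.MUX.C_RP2
import Pool.Agent.MUX.C_RP3
import Pool.Agent.MUX.C_SGQ
import Pool.Agent.MUX.C_SUR
import Pool.Agent.MUX.C_TOR
import Pool.Agent.MUX.C_TRO
import Pool.Agent.MUX.C_TRV
import Pool.Agent.MUX.C_UNQ
import Pool.Agent.MUX.C_ZET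

/-!
# MUX, block XC: the main theorem of complex multiplication `TorX A B` for every `CQ A B`, without
hypotheses (helper51)
-/

set_option autoImplicit false

namespace Pool.Agent.MUXC

open _root_.MU3 Pool.Agent.MU3A Pool.Agent.MU3B Pool.Agent.MUX Pool.Agent.MUXU Pool.Agent.RI
open Pool.Agent.MUXV Pool.Agent.MUXF
open Pool.Agent.MUXE (NL Sxe_RNG te_RNG)

theorem c_NGR : Sx_NGR := tx_NGR x_XIC
theorem c_FRX : Sq_FRX := tq_FRX q_ISQ q_VQI c_NGR x_FRN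
theorem c_SAM : Pool.Agent.MUXY.Sy_SAM := Pool.Agent.MUXY.ty_SAM xf_ALG
theorem c_MUC : Pool.Agent.MUXY.Sy_MUC := Pool.Agent.MUXY.ty_MUC xf_ALG u_PHI u_FUN u_TSN u_CMC

theorem c_CLF : Sc_CLF := tc_CLF
theorem c_COP : Sc_COP := tc_COP te_RNG
theorem c_TRO : Sc_TRO := tc_TRO
theorem c_GEN : Sc_GEN := tc_GEN c_TRO te_RNG
theorem c_ENO : Sc_ENO := tc_ENO
theorem c_INV : Sc_INV := tc_INV c_TRO
theorem c_QCR : Sc_QCR := tc_QCR c_TRO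
theorem c_QEX : Sc_QEX := tc_QEX c_COP c_QCR
theorem c_QNE : Sc_QNE := tc_QNE
theorem c_ISL : Sc_ISL := tc_ISL
theorem c_SGQ : Sc_SGQ := tc_SGQ
theorem c_CJN : Sc_CJN := tc_CJN u_CJE u_PHI u_CMC u_DET c_ISL
theorem c_PMF : Sc_PMF := tc_PMF u_EQP
theorem c_PHM : Sc_PHM := tc_PHM
theorem c_IND : Sc_IND := tc_IND c_QEX c_QNE c_CJN c_PMF u_PHI u_FUN c_MUC
theorem c_EXA : Sc_EXA := tc_EXA c_QEX c_GEN c_CJN c_PMF c_PHM u_PHI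
theorem c_ACT : Sc_ACT := tc_ACT c_CJN c_EXA c_IND
theorem c_CMP : Sc_CMP := tc_CMP
theorem c_CHG : Sc_CHG := tc_CHG
theorem c_UNQ : Sc_UNQ := tc_UNQ c_QNE c_ENO c_INV c_GEN u_EQP
theorem c_TRV : Sc_TRV := tc_TRV c_CJN c_SGQ c_QNE c_ENO c_INV c_GEN c_IND
theorem c_NRL : Sc_NRL := tc_NRL c_GEN
theorem c_FNG : Sc_FNG := tc_FNG c_CLF c_GEN c_SAM
theorem c_FGL : Sc_FGL := tc_FGL c_FNG c_ACT u_AUT u_AUE
theorem c_CMM : Sc_CMM := tc_CMM c_FGL c_ACT c_CMP c_SGQ u_AUE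
theorem c_EXT : Sc_EXT := tc_EXT c_FGL u_AUE
theorem c_NEX : Sc_NEX := tc_NEX u_DET c_ENO
theorem c_BAD : Sc_BAD := tc_BAD c_FNG c_FGL q_ALU c_NGR
theorem c_FEX : Sc_FEX := tc_FEX te_RNG
theorem c_FRO : Sc_FRO :=
  tc_FRO c_BAD c_CJN c_NEX c_EXA c_PMF c_PHM c_GEN c_QCR c_QNE c_FRX q_VQI u_PHI
theorem c_RP1 : Sc_RP1 := tc_RP1 te_RNG
theorem c_RP2 : Sc_RP2 := tc_RP2
theorem c_RP3 : Sc_RP3 := tc_RP3 te_RNG
theorem c_REP : Sc_REP := tc_REP c_COP c_RP1 c_RP2 c_RP3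
theorem c_SUR : Sc_SUR := tc_SUR c_FRO c_REP c_FEX c_FGL c_CMP c_CHG u_AUE
theorem c_DNX : Sc_DNX := tc_DNX te_RNG (Pool.Agent.MU3.m_DENSF Pool.Agent.MU3.finNSP)
theorem c_NMC : Sc_NMC := tc_NMC
theorem c_ZET : Sc_ZET :=
  tc_ZET c_FRO c_DNX c_FGL c_ACT c_CMP c_UNQ c_NMC c_NRL c_QNE c_TRV c_CJN u_AUE u_AUF

/-- the main theorem of complex multiplication -/
theorem c_TOR : Sc_TOR := tc_TOR c_FGL c_CMM c_EXT c_ACT c_SUR c_CMP c_CHG c_UNQ c_TRV c_ZET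

end Pool.Agent.MUXC
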