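import Pool.Agent.MUX.StJX

/-!
# MUX, block J, module JFLD (helper23): `k` is finite over `ℚ`, fields which contain it are totally complex
-/

set_option autoImplicit false

open NumberField IsDedekindDomain
open scoped nonZeroDivisors Pointwise

namespace Pool.Agent.MUXJ

open _root_.MU3 Pool.Agent.MU3 Pool.Agent.MU3A Pool.Agent.MU3B Pool.Agent.RI Pool.Agent.RID
  Pool.Agent.MUX Pool.Agent.MUXK Pool.Agent.MUXE

noncomputable section

namespace JFLD

lemma wC_sq' {A B : ℤ} (h : CQ A B) : wC A B * wC A B = A + B * wC A B := by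
  have h0 : 0 < absD A B := by
    have := h.neg
    unfold absD
    omega
  have h1 : (0 : ℝ) ≤ (absD A B : ℝ) := by exact_mod_cast h0.le
  have h2 : ((Real.sqrt (absD A B) : ℝ) : ℂ) ^ 2 = (absD A B : ℂ) := by
    rw [← Complex.ofReal_pow, Real.sq_sqrt h1]
    norm_num
  have h3 : Complex.I ^ 2 = -1 := Complex.I_sq
  have h4 : (absD A B : ℂ) = -((B : ℂ) ^ 2 + 4 * A) := by simp [absD]
  unfold wC
  linear_combination (Complex.I ^ 2 / 4) * h2 + ((absD A B : ℂ) / 4) * h3 - (1 / 4) * h4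

open Polynomial in
lemma wC_int {A B : ℤ} (h : CQ A B) : IsIntegral ℚ (wC A B) := by
  have hpm : (X ^ 2 + C (-(B : ℚ)) * X + C (-(A : ℚ)) : ℚ[X]).Monic := by monicity!
  have hp : aeval (wC A B) (X ^ 2 + C (-(B : ℚ)) * X + C (-(A : ℚ)) : ℚ[X]) = 0 := by
    simp only [map_add, map_mul, map_pow, aeval_X, aeval_C]
    simp only [map_neg, eq_ratCast, Rat.cast_intCast]
    linear_combination wC_sq' h
  exact ⟨_, hpm, hp⟩

end JFLD

open JFLD in
theorem t_FLD : Sj_FLD := by
  intro A B hc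
  refine ⟨IntermediateField.adjoin.finiteDimensional (wC_int hc), ?_⟩
  intro F h φ
  refine ⟨⟨wC A B, h (wC_mem A B)⟩, ?_⟩
  intro h1
  set x : F := ⟨wC A B, h (wC_mem A B)⟩ with hx
  have h2 : x * x = (A : F) + (B : F) * x := by
    apply Subtype.ext
    have e := wC_sq' hc
    show wC A B * wC A B = _
    rw [e]
    push_cast
    rfl
  have h3 := congrArg φ h2
  rw [map_mul, map_add, map_mul, map_intCast, map_intCast] at h3
  obtain ⟨r, hr⟩ := Complex.conj_eq_iff_real.1 h1
  rw [hr] at h3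
  have h4 : r * r = (A : ℝ) + (B : ℝ) * r := by exact_mod_cast h3
  have h5 : ((B : ℝ)) ^ 2 + 4 * (A : ℝ) < 0 := by exact_mod_cast hc.neg
  nlinarith [mul_self_nonneg (2 * r - (B : ℝ))]

end

end Pool.Agent.MUXJ
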