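import Pool.Agent.MUX.ZFinal

/-!
# MUX: Iwasawa's growth formula with the polynomial bound gives `μ = 0` (helper3)
-/

set_option autoImplicit false

open Filter Topology

namespace Pool.Agent.MUXZ

open Pool.Agent.RI Pool.Agent.MUXJ

/-- a polynomial bound and the growth formula give `μ = 0` -/
theorem mu_zero (p : ℕ) (hp : p = 2 ∨ p = 3) (f : IntermediateField ℚ ℂ → ℕ)
    (h : ∃ C : ℕ, ∀ (n : ℕ) (Q : IntermediateField ℚ ℂ), IsLayer p n Q → f Q ≤ C * (n + 1) ^ C)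
    (mu lam nu : ℝ)
    (hg : ∃ n₀ : ℕ, ∀ n ≥ n₀, ∀ Q : IntermediateField ℚ ℂ, IsLayer p n Q →
      (f Q : ℝ) = mu * (p : ℝ) ^ n + lam * n + nu) : mu = 0 := by
  obtain ⟨C, hC⟩ := h
  obtain ⟨n₀, hn₀⟩ := hg
  obtain ⟨Bn, hlay, -, -⟩ := j_LAY p hp
  have hp1 : (1 : ℝ) < p := by rcases hp with rfl | rfl <;> norm_num
  have hp0 : (0 : ℝ) < p := by linarith
  set D : ℝ := C + |lam| + |nu| with hD
  have hD0 : 0 ≤ D := by positivity
  have hbd : ∀ n ≥ n₀, |mu| ≤ D * p * ((((n + 1 : ℕ) : ℝ) ^ (C + 1)) / (p : ℝ) ^ (n + 1)) := by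
    intro n hn
    have h1 := hn₀ n hn (Bn n) (hlay n)
    have h2 : ((f (Bn n) : ℕ) : ℝ) ≤ C * ((n : ℝ) + 1) ^ C := by
      exact_mod_cast hC n (Bn n) (hlay n)
    have h3 : (0 : ℝ) ≤ (f (Bn n) : ℝ) := by positivity
    have hpn : (0 : ℝ) < (p : ℝ) ^ n := by positivity
    have h4 : |mu| * (p : ℝ) ^ n ≤ D * ((n : ℝ) + 1) ^ (C + 1) := by
      have e1 : |mu| * (p : ℝ) ^ n = |(f (Bn n) : ℝ) - lam * n - nu| := by
        rw [h1, ← abs_of_pos hpn, ← abs_mul, abs_of_pos hpn]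
        congr 1
        ring
      rw [e1]
      have e2 : |(f (Bn n) : ℝ) - lam * n - nu| ≤ (f (Bn n) : ℝ) + |lam| * n + |nu| := by
        have a1 := abs_sub ((f (Bn n) : ℝ) - lam * n) nu
        have a2 := abs_sub (f (Bn n) : ℝ) (lam * n)
        rw [abs_mul, abs_of_nonneg h3, abs_of_nonneg (by positivity : (0 : ℝ) ≤ n)] at a2
        linarith
      have hn1 : (1 : ℝ) ≤ (n : ℝ) + 1 := by
        have : (0 : ℝ) ≤ n := by positivity
        linarith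
      have e3 : ((n : ℝ) + 1) ^ C ≤ ((n : ℝ) + 1) ^ (C + 1) :=
        pow_le_pow_right₀ hn1 (Nat.le_succ C)
      have e4 : (n : ℝ) ≤ ((n : ℝ) + 1) ^ (C + 1) := by
        calc (n : ℝ) ≤ (n : ℝ) + 1 := by linarith
          _ = ((n : ℝ) + 1) ^ 1 := (pow_one _).symm
          _ ≤ ((n : ℝ) + 1) ^ (C + 1) := pow_le_pow_right₀ hn1 (by omega)
      have e5 : (1 : ℝ) ≤ ((n : ℝ) + 1) ^ (C + 1) := one_le_pow₀ hn1
      calc |(f (Bn n) : ℝ) - lam * n - nu| ≤ (f (Bn n) : ℝ) + |lam| * n + |nu| := e2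
        _ ≤ C * ((n : ℝ) + 1) ^ (C + 1) + |lam| * ((n : ℝ) + 1) ^ (C + 1) +
            |nu| * ((n : ℝ) + 1) ^ (C + 1) := by
          have i1 : (C : ℝ) * ((n : ℝ) + 1) ^ C ≤ C * ((n : ℝ) + 1) ^ (C + 1) :=
            mul_le_mul_of_nonneg_left e3 (by positivity)
          have i2 : |lam| * n ≤ |lam| * ((n : ℝ) + 1) ^ (C + 1) :=
            mul_le_mul_of_nonneg_left e4 (abs_nonneg _)
          have i3 : |nu| * 1 ≤ |nu| * ((n : ℝ) + 1) ^ (C + 1) :=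
            mul_le_mul_of_nonneg_left e5 (abs_nonneg _)
          rw [mul_one] at i3
          linarith
        _ = D * ((n : ℝ) + 1) ^ (C + 1) := by rw [hD]; ring
    rw [pow_succ (p : ℝ) n]
    push_cast
    rw [show D * (p : ℝ) * (((n : ℝ) + 1) ^ (C + 1) / ((p : ℝ) ^ n * p)) =
      D * ((n : ℝ) + 1) ^ (C + 1) / (p : ℝ) ^ n by field_simp]
    rw [le_div_iff₀ hpn]
    exact h4
  have hlim : Tendsto (fun n : ℕ => D * p * ((((n + 1 : ℕ) : ℝ) ^ (C + 1)) / (p : ℝ) ^ (n + 1)))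
      atTop (𝓝 (D * p * 0)) :=
    ((tendsto_pow_const_div_const_pow_of_one_lt (C + 1) hp1).comp
      (tendsto_add_atTop_nat 1)).const_mul _
  rw [mul_zero] at hlim
  have : |mu| ≤ 0 := ge_of_tendsto hlim (eventually_atTop.2 ⟨n₀, hbd⟩)
  exact abs_eq_zero.1 (le_antisymm this (abs_nonneg _))

end Pool.Agent.MUXZ
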