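import Pool.Agent.MU3.K1Main

/-!
# MUX: the interface of the Kolyvagin step for a prime number `p` (helper59)

The version of `Pool/Agent/MU3/KDefs.lean` for a prime number `p` in place of `3` (there is one more factor
`2`: the residue characteristic `q` of a good prime satisfies `2 p ∣ q - 1`; for `p = 3` and odd `q` it is `3 ∣ q - 1`, for
`p = 2` it is `q ≡ 1` modulo `4`). `Above`, `SU`, `SJ`, `vJ` are those of `KDefs.lean`.
-/

set_option autoImplicit false

open NumberField IsDedekindDomain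
open scoped nonZeroDivisors Pointwise

namespace Pool.Agent.MUXK

open Pool.Agent.MU3 Pool.Agent.RI

/-- `lam` is a prime of `L` of degree one, of residue characteristic `q ∉ S`, `q ≡ 1` modulo `2 p`,
with trivial decomposition group over `k`. -/
structure GoodPrP (p : ℕ) (k L : Type) [Field k] [Field L] [NumberField L] [Algebra k L]
    (S : Finset ℕ) (lam : HeightOneSpectrum (𝓞 L)) (q : ℕ) : Prop where
  prime : q.Prime
  notin : q ∉ S
  dvd : 2 * p ∣ q - 1
  card : Nat.card (𝓞 L ⧸ lam.asIdeal) = q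
  free : ∀ h : L ≃ₐ[k] L, h • lam.asIdeal = lam.asIdeal → h = 1

/-- The body of `KolInP`. -/
def KolBodyP (p : ℕ) (k L : Type) [Field k] [NumberField k] [Field L] [NumberField L] [Algebra k L]
    (Gs : Set (L ≃ₐ[k] L)) (S : Finset ℕ) (c : L) (lam : HeightOneSpectrum (𝓞 L)) (q : ℕ) : Prop :=
    ∃ (F : Type) (_ : Field F) (_ : NumberField F) (_ : Algebra k F) (_ : Algebra L F)
      (_ : IsScalarTower k L F), IsGalois k F ∧ (∀ σ τ : F ≃ₐ[k] F, σ * τ = τ * σ) ∧
      Module.finrank L F = p ∧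
      (∀ w : HeightOneSpectrum (𝓞 F), ¬ Above S w →
        w.asIdeal.under (𝓞 k) ≠ lam.asIdeal.under (𝓞 k) → w.asIdeal.ramificationIdx (𝓞 L) = 1) ∧
      (∀ w : HeightOneSpectrum (𝓞 F), w.asIdeal.under (𝓞 k) = lam.asIdeal.under (𝓞 k) →
        w.asIdeal.ramificationIdx (𝓞 L) = p) ∧
      ∃ z : F, SU S F z ∧ (∀ g ∈ Gs, g (Algebra.norm L z) = Algebra.norm L z) ∧
        ∀ w : HeightOneSpectrum (𝓞 F), w.asIdeal.under (𝓞 k) = lam.asIdeal.under (𝓞 k) →
          w.valuation F (z - algebraMap L F c ^ ((q - 1) / p)) < 1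

/-- Input (I2): for every good prime `lam` of `L` there are a cyclic extension `F / L` of degree `p`,
abelian over `k`, unramified outside `S` and `lam ∩ k`, totally ramified at the primes above
`lam ∩ k`, and `z` in `F`, a unit outside `S`, whose norm to `L` is fixed by `Gs` and which is congruent to
`c ^ ((q - 1) / p)` modulo all primes of `F` above `lam ∩ k`. -/
def KolInP (p : ℕ) (k L : Type) [Field k] [NumberField k] [Field L] [NumberField L] [Algebra k L]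
    (Gs : Set (L ≃ₐ[k] L)) (S : Finset ℕ) (c : L) : Prop :=
  ∀ (lam : HeightOneSpectrum (𝓞 L)) (q : ℕ), GoodPrP p k L S lam q → KolBodyP p k L Gs S c lam q

/-- The relations in the class group of `L` for the unit `u`: for every good prime `lam`, every
integer `a` of order `p` modulo `q`, and exponents `b h` with `u ^ ((q-1)/p) ≡ a ^ (b h)` modulo `h lam`,
the ideal `∏ (h lam) ^ (b h)` is a principal ideal times a `p`-th power times primes above `S`. -/
def KRelP (p : ℕ) (k L : Type) [Field k] [NumberField k] [Field L] [NumberField L] [Algebra k L]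
    [FiniteDimensional k L] (S : Finset ℕ) (u : (𝓞 L)ˣ) : Prop :=
  ∀ (lam : HeightOneSpectrum (𝓞 L)) (q : ℕ), GoodPrP p k L S lam q →
    ∀ a : ℤ, (q : ℤ) ∣ a ^ p - 1 → ¬ (q : ℤ) ∣ a - 1 → ∀ b : (L ≃ₐ[k] L) → ℕ,
      (∀ h : L ≃ₐ[k] L, (u : 𝓞 L) ^ ((q - 1) / p) - (a : 𝓞 L) ^ b h ∈ h • lam.asIdeal) →
      ∃ (κ : Lˣ) (I s : J L), s ∈ SJ S L ∧
        ∏ h : L ≃ₐ[k] L, (h • vJ lam) ^ b h = prin κ * I ^ p * s

/-- I2ABSP: `M / k` abelian, `χ` a character of order `p` of `Gal(M / L)`, non trivial on a group `A`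
of automorphisms which are inert at the primes above `lam ∩ k`. -/
def S_I2ABSP : Prop := ∀ (p : ℕ), p.Prime →
    ∀ (k L M : Type) [Field k] [NumberField k] [Field L] [NumberField L]
    [Field M] [NumberField M] [Algebra k L] [Algebra L M] [Algebra k M] [IsScalarTower k L M]
    [IsGalois k M], (∀ σ τ : M ≃ₐ[k] M, σ * τ = τ * σ) →
    ∀ (Gs : Set (L ≃ₐ[k] L)) (S : Finset ℕ) (c : L) (lam : HeightOneSpectrum (𝓞 L)) (q : ℕ),
    ∀ (A : Subgroup (M ≃ₐ[L] M)) (χ : (M ≃ₐ[L] M) →* Multiplicative (ZMod p)),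
    (∃ σ ∈ A, χ σ ≠ 1) →
    (∀ w : HeightOneSpectrum (𝓞 M), ¬ Above S w →
      w.asIdeal.under (𝓞 k) ≠ lam.asIdeal.under (𝓞 k) → ∀ σ : M ≃ₐ[L] M,
      (∀ x : 𝓞 M, σ • x - x ∈ w.asIdeal) → σ = 1) →
    (∀ w : HeightOneSpectrum (𝓞 M), w.asIdeal.under (𝓞 k) = lam.asIdeal.under (𝓞 k) →
      ∀ σ ∈ A, ∀ x : 𝓞 M, σ • x - x ∈ w.asIdeal) →
    ∀ θ θ₀ : M, SU S M θ →
    (∀ w : HeightOneSpectrum (𝓞 M), w.asIdeal.under (𝓞 k) = lam.asIdeal.under (𝓞 k) →
      ∀ σ : M ≃ₐ[L] M, w.valuation M (σ θ₀) ≤ 1 ∧ w.valuation M (σ θ - σ θ₀) < 1) →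
    (∀ y : L, algebraMap L M y = ∏ᶠ σ : M ≃ₐ[L] M, σ θ → ∀ g ∈ Gs, g y = y) →
    ∏ᶠ σ : χ.ker, (σ : M ≃ₐ[L] M) θ₀ = algebraMap L M c ^ ((q - 1) / p) →
    KolBodyP p k L Gs S c lam q

/-- For `p = 3` the good primes and `KolIn` are those of `KDefs.lean` (if `2 ∈ S`). -/
theorem goodPr_three {k L : Type} [Field k] [Field L] [NumberField L] [Algebra k L]
    {S : Finset ℕ} (h2 : 2 ∈ S) {lam : HeightOneSpectrum (𝓞 L)} {q : ℕ} :
    GoodPrP 3 k L S lam q ↔ GoodPr k L S lam q := by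
  constructor
  · intro h
    exact ⟨h.prime, h.notin, (dvd_mul_left 3 2).trans h.dvd, h.card, h.free⟩
  · intro h
    refine ⟨h.prime, h.notin, ?_, h.card, h.free⟩
    have h3 := h.three
    have hq2 : q ≠ 2 := fun e => h.notin (e ▸ h2)
    obtain ⟨t, ht⟩ := h.prime.odd_of_ne_two hq2
    omega

theorem kolIn_three {k L : Type} [Field k] [NumberField k] [Field L] [NumberField L] [Algebra k L]
    [FiniteDimensional k L] [IsGalois k L] {S : Finset ℕ} (h2 : 2 ∈ S) {c : L} :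
    KolInP 3 k L Set.univ S c ↔ KolIn k L S c := by
  unfold KolInP KolIn
  have key : ∀ y : L, (∀ g ∈ (Set.univ : Set (L ≃ₐ[k] L)), g y = y) ↔
      ∃ x : k, y = algebraMap k L x := by
    intro y
    constructor
    · intro h
      have h1 := (IsGalois.mem_bot_iff_fixed (F := k) y).2 (fun g => h g trivial)
      obtain ⟨x, hx⟩ := IntermediateField.mem_bot.1 h1
      exact ⟨x, hx.symm⟩
    · rintro ⟨x, rfl⟩ g -
      exact g.commutes x
  constructor
  · intro h lam q hg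
    obtain ⟨F, i1, i2, i3, i4, i5, j1, j2, j3, j4, j5, z, k1, k2, k3⟩ :=
      h lam q ((goodPr_three h2).2 hg)
    exact ⟨F, i1, i2, i3, i4, i5, j1, j2, j3, j4, j5, z, k1, (key _).1 k2, k3⟩
  · intro h lam q hg
    obtain ⟨F, i1, i2, i3, i4, i5, j1, j2, j3, j4, j5, z, k1, k2, k3⟩ :=
      h lam q ((goodPr_three h2).1 hg)
    exact ⟨F, i1, i2, i3, i4, i5, j1, j2, j3, j4, j5, z, k1, (key _).2 k2, k3⟩

/-- more constants -/
theorem KolInP.mono {p : ℕ} {k L : Type} [Field k] [NumberField k] [Field L] [NumberField L]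
    [Algebra k L] {Gs Gs' : Set (L ≃ₐ[k] L)} (hG : Gs' ⊆ Gs) {S : Finset ℕ} {c : L}
    (h : KolInP p k L Gs S c) : KolInP p k L Gs' S c := by
  intro lam q hg
  obtain ⟨F, i1, i2, i3, i4, i5, j1, j2, j3, j4, j5, z, k1, k2, k3⟩ := h lam q hg
  exact ⟨F, i1, i2, i3, i4, i5, j1, j2, j3, j4, j5, z, k1, fun g hg => k2 g (hG hg), k3⟩

end Pool.Agent.MUXK
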