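import Pool.Agent.MU3.I2AbsT
import Pool.Agent.MUX.KDefsP

/-!
# The input (I2) from an abelian extension with a character of prime order (helper80, helper59)

The version of `Pool/Agent/MU3/I2Abs.lean`, `I2AbsT.lean` (helper80) for a prime `p`: `I2ABSP_thm : S_I2ABSP`.
-/

set_option autoImplicit false

open NumberField IsDedekindDomain
open scoped nonZeroDivisors Pointwise

namespace Pool.Agent.MUXK

open Pool.Agent.RI Pool.Agent.MU3 K1M

namespace I2AP

open I2A

section tower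

variable {k L F M : Type} [Field k] [NumberField k] [Field L] [NumberField L] [Field F]
  [NumberField F] [Field M] [NumberField M] [Algebra k L] [Algebra L F] [Algebra F M]
  [Algebra k F] [Algebra k M] [Algebra L M] [IsScalarTower k L F] [IsScalarTower k L M]
  [IsScalarTower k F M] [IsScalarTower L F M]

omit [NumberField L] [NumberField F] [NumberField M] in
/-- the product over the kernel is the norm to the intermediate field -/
theorem prod_ker {p : ℕ} (χ : (M ≃ₐ[L] M) →* Multiplicative (ZMod p))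
    (hker : ∀ σ : M ≃ₐ[L] M, σ ∈ χ.ker ↔ ∀ x : F, σ (algebraMap F M x) = algebraMap F M x)
    (θ : M) : ∏ᶠ σ : M ≃ₐ[F] M, σ θ = ∏ᶠ σ : χ.ker, (σ : M ≃ₐ[L] M) θ := by
  refine finprod_eq_of_bijective (fun σ : M ≃ₐ[F] M => (⟨σ.restrictScalars L, by
    rw [hker]
    exact fun x => σ.commutes x⟩ : χ.ker)) ⟨?_, ?_⟩ (fun _ => rfl)
  · intro σ τ h
    apply AlgEquiv.ext
    intro x
    have h1 := congrArg (fun f : χ.ker => (f : M ≃ₐ[L] M) x) h
    exact h1
  · rintro ⟨σ, hσ⟩
    obtain ⟨ρ, hρ⟩ := prod_ker_aux (F := F) σ ((hker σ).1 hσ)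
    refine ⟨ρ, ?_⟩
    apply Subtype.ext
    apply AlgEquiv.ext
    intro x
    exact hρ x

/-- the norm congruence -/
theorem norm_cong {p : ℕ} [IsGalois F M] (χ : (M ≃ₐ[L] M) →* Multiplicative (ZMod p))
    (hker : ∀ σ : M ≃ₐ[L] M, σ ∈ χ.ker ↔ ∀ x : F, σ (algebraMap F M x) = algebraMap F M x)
    {θ θ₀ C : M} (W : HeightOneSpectrum (𝓞 M))
    (hcong : ∀ σ : M ≃ₐ[L] M, W.valuation M (σ θ₀) ≤ 1 ∧ W.valuation M (σ θ - σ θ₀) < 1)
    (hc : ∏ᶠ σ : χ.ker, (σ : M ≃ₐ[L] M) θ₀ = C) :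
    W.valuation M (algebraMap F M (Algebra.norm F θ) - C) < 1 := by
  classical
  have e1 : algebraMap F M (Algebra.norm F θ) = ∏ᶠ σ : χ.ker, (σ : M ≃ₐ[L] M) θ := by
    rw [← prod_ker χ hker θ, Algebra.norm_eq_prod_automorphisms F θ]
    exact (finprod_eq_prod_of_fintype _).symm
  have e2 : ∏ᶠ σ : χ.ker, (σ : M ≃ₐ[L] M) θ = ∏ σ : χ.ker, (σ : M ≃ₐ[L] M) θ :=
    finprod_eq_prod_of_fintype _
  have e3 : ∏ᶠ σ : χ.ker, (σ : M ≃ₐ[L] M) θ₀ = ∏ σ : χ.ker, (σ : M ≃ₐ[L] M) θ₀ :=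
    finprod_eq_prod_of_fintype _
  have key := prod_cong (W.valuation M) (Finset.univ : Finset χ.ker)
    (fun σ => (σ : M ≃ₐ[L] M) θ) (fun σ => (σ : M ≃ₐ[L] M) θ₀)
    (fun σ _ => (hcong (σ : M ≃ₐ[L] M)).1) (fun σ _ => (hcong (σ : M ≃ₐ[L] M)).2)
  have e4 : algebraMap F M (Algebra.norm F θ) - C =
      ∏ σ : χ.ker, (σ : M ≃ₐ[L] M) θ - ∏ σ : χ.ker, (σ : M ≃ₐ[L] M) θ₀ := by
    rw [← e2, ← e1, ← e3, hc]
  rw [e4]
  exact key.2

/-- the statement for an abstract intermediate field -/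
theorem main {p : ℕ} (hp : p.Prime) [IsGalois k M] [IsGalois k F] (hcomm : ∀ σ τ : M ≃ₐ[k] M, σ * τ = τ * σ)
    {Gs : Set (L ≃ₐ[k] L)} {S : Finset ℕ} {c : L} {lam : HeightOneSpectrum (𝓞 L)} {q : ℕ}
    (A : Subgroup (M ≃ₐ[L] M)) (χ : (M ≃ₐ[L] M) →* Multiplicative (ZMod p))
    (hA : ∃ σ ∈ A, χ σ ≠ 1)
    (hunr : ∀ w : HeightOneSpectrum (𝓞 M), ¬ Above S w →
      w.asIdeal.under (𝓞 k) ≠ lam.asIdeal.under (𝓞 k) → ∀ σ : M ≃ₐ[L] M,
      (∀ x : 𝓞 M, σ • x - x ∈ w.asIdeal) → σ = 1)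
    (htot : ∀ w : HeightOneSpectrum (𝓞 M), w.asIdeal.under (𝓞 k) = lam.asIdeal.under (𝓞 k) →
      ∀ σ ∈ A, ∀ x : 𝓞 M, σ • x - x ∈ w.asIdeal)
    {θ θ₀ : M} (hθ : SU S M θ)
    (hcong : ∀ w : HeightOneSpectrum (𝓞 M), w.asIdeal.under (𝓞 k) = lam.asIdeal.under (𝓞 k) →
      ∀ σ : M ≃ₐ[L] M, w.valuation M (σ θ₀) ≤ 1 ∧ w.valuation M (σ θ - σ θ₀) < 1)
    (hnorm : ∀ y : L, algebraMap L M y = ∏ᶠ σ : M ≃ₐ[L] M, σ θ → ∀ g ∈ Gs, g y = y)
    (hc : ∏ᶠ σ : χ.ker, (σ : M ≃ₐ[L] M) θ₀ = algebraMap L M c ^ ((q - 1) / p))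
    (hker : ∀ σ : M ≃ₐ[L] M, σ ∈ χ.ker ↔ ∀ x : F, σ (algebraMap F M x) = algebraMap F M x) :
    KolBodyP p k L Gs S c lam q := by
  classical
  have hLM : IsGalois L M := IsGalois.tower_top_of_isGalois k L M
  have hFM : IsGalois F M := IsGalois.tower_top_of_isGalois k F M
  have hLF : IsGalois L F := IsGalois.tower_top_of_isGalois k L F
  -- restriction to `F`
  have hrest : ∀ (σ : M ≃ₐ[L] M) (x : F),
      algebraMap F M (AlgEquiv.restrictNormalHom F σ x) = σ (algebraMap F M x) := fun σ x =>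
    AlgEquiv.restrictNormal_commutes σ F x
  have hrker : ∀ σ : M ≃ₐ[L] M, AlgEquiv.restrictNormalHom F σ = 1 ↔ σ ∈ χ.ker := by
    intro σ
    rw [hker]
    constructor
    · intro h x
      rw [← hrest, h]
      rfl
    · intro h
      apply AlgEquiv.ext
      intro x
      apply (algebraMap F M).injective
      rw [hrest, h]
      rfl
  -- `A` maps onto the Galois group of `F / L`
  have hAsurj : ∀ ρ : F ≃ₐ[L] F, ∃ σ ∈ A, AlgEquiv.restrictNormalHom F σ = ρ := by
    intro ρ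
    obtain ⟨σ, hσ⟩ := AlgEquiv.restrictNormalHom_surjective (F := L) (K₁ := F) M ρ
    obtain ⟨α, hα, hα1⟩ := hA
    have hpow : ∃ j : ℤ, χ σ = χ α ^ j := by
      have hfact : Fact (Nat.Prime p) := ⟨hp⟩
      have hcard : Nat.card (Multiplicative (ZMod p)) = p := by
        rw [Nat.card_congr Multiplicative.toAdd, Nat.card_zmod]
      have h1 := mem_zpowers_of_prime_card (g := χ α) (g' := χ σ) hcard hα1
      obtain ⟨j, hj⟩ := Subgroup.mem_zpowers_iff.1 h1
      exact ⟨j, hj.symm⟩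
    obtain ⟨j, hj⟩ := hpow
    refine ⟨α ^ j, A.zpow_mem hα j, ?_⟩
    have h2 : σ⁻¹ * α ^ j ∈ χ.ker := by
      rw [MonoidHom.mem_ker, map_mul, map_inv, map_zpow, hj, inv_mul_cancel]
    rw [← hrker, map_mul, map_inv, inv_mul_eq_one] at h2
    rw [← h2, hσ]
  have hcardF : Nat.card (F ≃ₐ[L] F) = p := by
    have h1 : Nat.card (F ≃ₐ[L] F) = Nat.card ((M ≃ₐ[L] M) ⧸ χ.ker) := by
      have hk : (AlgEquiv.restrictNormalHom F : (M ≃ₐ[L] M) →* (F ≃ₐ[L] F)).ker = χ.ker := by
        ext σ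
        rw [MonoidHom.mem_ker, hrker]
      rw [← hk]
      exact Nat.card_congr (QuotientGroup.quotientKerEquivOfSurjective _
        (AlgEquiv.restrictNormalHom_surjective (F := L) (K₁ := F) M)).toEquiv.symm
    have h2 : Function.Surjective χ := by
      intro t
      obtain ⟨α, hα, hα1⟩ := hA
      have hfact : Fact (Nat.Prime p) := ⟨hp⟩
      have hcard : Nat.card (Multiplicative (ZMod p)) = p := by
        rw [Nat.card_congr Multiplicative.toAdd, Nat.card_zmod]
      have h1 := mem_zpowers_of_prime_card (g := χ α) (g' := t) hcard hα1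
      obtain ⟨j, hj⟩ := Subgroup.mem_zpowers_iff.1 h1
      exact ⟨α ^ j, by rw [map_zpow, hj]⟩
    rw [h1, Nat.card_congr (QuotientGroup.quotientKerEquivOfSurjective χ h2).toEquiv,
      Nat.card_congr Multiplicative.toAdd, Nat.card_zmod]
  -- primes
  have hunder : ∀ (W : HeightOneSpectrum (𝓞 M)) (w : HeightOneSpectrum (𝓞 F)),
      W.asIdeal.under (𝓞 F) = w.asIdeal → W.asIdeal.under (𝓞 k) = w.asIdeal.under (𝓞 k) := by
    intro W w hwv
    rw [← hwv, Ideal.under_under]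
  refine ⟨F, inferInstance, inferInstance, inferInstance, inferInstance, inferInstance,
    inferInstance, ?_, ?_, ?_, ?_, Algebra.norm F θ, ?_, ?_, ?_⟩
  · -- commutativity
    intro σ τ
    obtain ⟨σ', rfl⟩ := AlgEquiv.restrictNormalHom_surjective (F := k) (K₁ := F) M σ
    obtain ⟨τ', rfl⟩ := AlgEquiv.restrictNormalHom_surjective (F := k) (K₁ := F) M τ
    rw [← map_mul, hcomm, map_mul]
  · -- degree
    rw [← IsGalois.card_aut_eq_finrank, hcardF]
  · -- unramified
    intro w hwS hwk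
    obtain ⟨W, hW⟩ := INVI.exists_above F M w
    have hWS : ¬ Above S W := fun h => hwS ((above_under W w hW).1 h)
    have hWk : W.asIdeal.under (𝓞 k) ≠ lam.asIdeal.under (𝓞 k) := by
      rw [hunder W w hW]
      exact hwk
    have h1 : W.asIdeal.ramificationIdx (𝓞 L) = 1 := by
      rw [← card_inertia W]
      have h2 : W.asIdeal.inertia (M ≃ₐ[L] M) = ⊥ := by
        rw [eq_bot_iff]
        intro σ hσ
        exact hunr W hWS hWk σ hσ
      rw [h2]
      exact Subgroup.card_bot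
    have hlo : W.asIdeal.LiesOver w.asIdeal := ⟨hW.symm⟩
    have h3 := Ideal.ramificationIdx_tower (R := 𝓞 L) w.asIdeal W.asIdeal
    rw [h1] at h3
    exact Nat.eq_one_of_mul_eq_one_right h3.symm
  · -- totally ramified
    intro w hwk
    obtain ⟨W, hW⟩ := INVI.exists_above F M w
    rw [← card_inertia w, ← hcardF]
    have h1 : w.asIdeal.inertia (F ≃ₐ[L] F) = ⊤ := by
      rw [eq_top_iff]
      intro ρ _
      obtain ⟨σ, hσA, hσ⟩ := hAsurj ρ
      intro x
      have h2 := htot W (by rw [hunder W w hW, hwk]) σ hσA (algebraMap (𝓞 F) (𝓞 M) x)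
      have e : σ • algebraMap (𝓞 F) (𝓞 M) x - algebraMap (𝓞 F) (𝓞 M) x =
          algebraMap (𝓞 F) (𝓞 M) (ρ • x - x) := by
        apply IsFractionRing.injective (𝓞 M) M
        rw [map_sub, map_sub, map_sub]
        change σ (algebraMap F M (x : F)) - algebraMap F M (x : F) =
          algebraMap F M (ρ (x : F)) - algebraMap F M (x : F)
        rw [← hσ, hrest]
      rw [e] at h2
      change ρ • x - x ∈ w.asIdeal
      rw [← hW]
      exact h2
    rw [h1]
    exact Subgroup.card_top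
  · -- unit outside `S`
    intro w hw
    obtain ⟨W, hW⟩ := INVI.exists_above F M w
    have hWS : ¬ Above S W := fun h => hw ((above_under W w hW).1 h)
    apply val_one_up w W hW
    rw [Algebra.norm_eq_prod_automorphisms, map_prod]
    refine Finset.prod_eq_one fun σ _ => ?_
    have h1 := val_mv σ (mv σ⁻¹ W) θ
    rw [← mv_mul, mul_inv_cancel, mv_one] at h1
    rw [h1]
    exact hθ _ (fun h => hWS ((above_mv _ _).1 h))
  · -- the norm
    refine hnorm _ ?_
    rw [Algebra.norm_norm, Algebra.norm_eq_prod_automorphisms L θ]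
    exact (finprod_eq_prod_of_fintype _).symm
  · -- the congruence
    intro w hwk
    obtain ⟨W, hW⟩ := INVI.exists_above F M w
    apply val_lt_up w W hW
    have e : algebraMap F M (Algebra.norm F θ - algebraMap L F c ^ ((q - 1) / p)) =
        algebraMap F M (Algebra.norm F θ) - algebraMap L M c ^ ((q - 1) / p) := by
      rw [map_sub, map_pow, ← IsScalarTower.algebraMap_apply L F M c]
    rw [e]
    exact norm_cong χ hker W (hcong W (by rw [hunder W w hW, hwk])) hc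

end tower

end I2AP

/-- I2ABS -/
theorem I2ABSP_thm : S_I2ABSP := by
  intro p hp k L M _ _ _ _ _ _ _ _ _ _ _ hcomm Gs S c lam q A χ hA hunr htot θ θ₀ hθ hcong hnorm hc
  have hfin : FiniteDimensional L M := inferInstance
  have hLM : IsGalois L M := IsGalois.tower_top_of_isGalois k L M
  set E : IntermediateField L M := IntermediateField.fixedField χ.ker with hE
  have hkE : IsGalois k E := I2A.gal_fixed hcomm E
  have ht1 : IsScalarTower k L E := inferInstance
  have ht : IsScalarTower k E M := IsScalarTower.of_algebraMap_eq fun x => by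
    rw [IsScalarTower.algebraMap_apply k L E, ← IsScalarTower.algebraMap_apply L E M,
      ← IsScalarTower.algebraMap_apply k L M]
  refine I2AP.main (F := E) hp hcomm A χ hA hunr htot hθ hcong hnorm hc ?_
  intro σ
  have h1 : E.fixingSubgroup = χ.ker := IntermediateField.fixingSubgroup_fixedField χ.ker
  rw [← h1, IntermediateField.mem_fixingSubgroup_iff]
  constructor
  · intro h x
    exact h x x.2
  · intro h x hx
    exact h ⟨x, hx⟩

end Pool.Agent.MUXK
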