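import Mathlib

/-!
# MUX, block W: products over a group, characters of order `p` (helper59)
-/

set_option autoImplicit false

namespace Pool.Agent.MUXW

/-- product over a group in bijection with `X × U` -/
lemma prod_all_abs {G X U : Type*} [Finite X] [Finite U]
    (a : G → X) (b : G → U) (hbij : Function.Bijective (fun g => (a g, b g)))
    (f : X → U → ℂ) : ∏ᶠ σ : G, f (a σ) (b σ) = ∏ᶠ x : X, ∏ᶠ u : U, f x u := by
  classical
  have e1 : ∏ᶠ σ : G, f (a σ) (b σ) = ∏ᶠ p : X × U, f p.1 p.2 :=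
    finprod_eq_of_bijective (fun g => (a g, b g)) hbij (fun _ => rfl)
  have : Fintype X := Fintype.ofFinite X
  have : Fintype U := Fintype.ofFinite U
  rw [e1, finprod_eq_prod_of_fintype, Fintype.prod_prod_type, finprod_eq_prod_of_fintype]
  refine Finset.prod_congr rfl fun x _ => ?_
  rw [finprod_eq_prod_of_fintype]

/-- product over the kernel of a character which comes from `U` -/
lemma prod_ker_abs {p : ℕ} (hp : p.Prime) {G X U : Type*} [Group G] [Group U] [Finite X]
    [Finite U] (a : G → X) (b : G → U) (hbij : Function.Bijective (fun g => (a g, b g)))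
    (ψ : U →* Multiplicative (ZMod p)) (hψ : Function.Surjective ψ)
    (χ : G →* Multiplicative (ZMod p)) (hχ : ∀ σ, χ σ = ψ (b σ)) (g : X → ℂ) :
    ∏ᶠ σ : χ.ker, g (a σ) = (∏ᶠ x : X, g x) ^ (Nat.card U / p) := by
  classical
  have hcard : Nat.card U = Nat.card ψ.ker * p := by
    have h1 := Subgroup.card_mul_index ψ.ker
    rw [Subgroup.index_ker, MonoidHom.range_eq_top.2 hψ] at h1
    rw [← h1]
    congr 1
    rw [Subgroup.card_top, Nat.card_congr Multiplicative.toAdd, Nat.card_zmod]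
  have : Fintype X := Fintype.ofFinite X
  have : Fintype U := Fintype.ofFinite U
  have : Fintype ψ.ker := Fintype.ofFinite _
  have e1 : ∏ᶠ σ : χ.ker, g (a σ) = ∏ᶠ p : X × ψ.ker, g p.1 := by
    refine finprod_eq_of_bijective (fun σ => (a σ, (⟨b σ, by
      have := σ.2
      rw [MonoidHom.mem_ker, hχ] at this
      exact this⟩ : ψ.ker))) ⟨?_, ?_⟩ (fun _ => rfl)
    · intro σ τ e
      have h1 := congrArg (fun p => p.1) e
      have h2 := congrArg (fun p => (p.2 : U)) e
      exact Subtype.ext (hbij.1 (Prod.ext h1 h2))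
    · rintro ⟨x, ⟨u, hu⟩⟩
      obtain ⟨σ, hσ⟩ := hbij.2 (x, u)
      have h1 : a σ = x := congrArg (fun p => p.1) hσ
      have h2 : b σ = u := congrArg (fun p => p.2) hσ
      refine ⟨⟨σ, ?_⟩, ?_⟩
      · rw [MonoidHom.mem_ker, hχ, h2]; exact hu
      · exact Prod.ext h1 (Subtype.ext h2)
  rw [e1, finprod_eq_prod_of_fintype, Fintype.prod_prod_type, finprod_eq_prod_of_fintype,
    hcard, Nat.mul_div_cancel _ hp.pos, ← Finset.prod_pow]
  refine Finset.prod_congr rfl fun x _ => ?_
  show ∏ _y : ψ.ker, g x = _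
  rw [Finset.prod_const, Finset.card_univ, ← Nat.card_eq_fintype_card]

/-- a character of order `p` of a cyclic group -/
lemma exists_psi {p : ℕ} {U : Type*} [Group U] [Finite U] [IsCyclic U]
    (hpU : p ∣ Nat.card U) : ∃ ψ : U →* Multiplicative (ZMod p), Function.Surjective ψ := by
  have : NeZero (Nat.card U) := ⟨Nat.card_pos.ne'⟩
  let e : U ≃* Multiplicative (ZMod (Nat.card U)) := (zmodCyclicMulEquiv ‹IsCyclic U›).symm
  let c : ZMod (Nat.card U) →+ ZMod p := (ZMod.castHom hpU (ZMod p)).toAddMonoidHom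
  refine ⟨(AddMonoidHom.toMultiplicative c).comp e.toMonoidHom, ?_⟩
  intro x
  obtain ⟨y, hy⟩ := ZMod.castHom_surjective hpU (Multiplicative.toAdd x)
  obtain ⟨u, hu⟩ := e.surjective (Multiplicative.ofAdd y)
  refine ⟨u, ?_⟩
  show Multiplicative.ofAdd (c (Multiplicative.toAdd (e u))) = x
  rw [hu]
  show Multiplicative.ofAdd (c y) = x
  have : c y = Multiplicative.toAdd x := hy
  rw [this]
  rfl

/-- a character of order `p` is trivial on the elements of order `2` if `2 p` divides the order of the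
cyclic group -/
lemma psi_two {p : ℕ} {U : Type*} [Group U] [Finite U] [IsCyclic U]
    (hpU : 2 * p ∣ Nat.card U) (ψ : U →* Multiplicative (ZMod p)) {x : U} (hx : x * x = 1) :
    ψ x = 1 := by
  obtain ⟨g, hg⟩ := IsCyclic.exists_generator (α := U)
  have hord : orderOf g = Nat.card U := orderOf_eq_card_of_forall_mem_zpowers hg
  obtain ⟨j, hj⟩ := Subgroup.mem_zpowers_iff.1 (hg x)
  rw [← hj, ← zpow_add] at hx
  have h1 : (Nat.card U : ℤ) ∣ j + j := by
    rw [← hord]
    exact orderOf_dvd_iff_zpow_eq_one.2 hx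
  have h2 : (p : ℤ) ∣ j := by
    have h3 : ((2 * p : ℕ) : ℤ) ∣ j + j := (Int.natCast_dvd_natCast.2 hpU).trans h1
    push_cast at h3
    obtain ⟨t, ht⟩ := h3
    exact ⟨t, by linarith⟩
  obtain ⟨t, rfl⟩ := h2
  rw [← hj, map_zpow, zpow_mul]
  have h4 : ψ g ^ (p : ℤ) = 1 := by
    rw [zpow_natCast]
    have : Multiplicative.toAdd (ψ g ^ p) = 0 := by
      rw [toAdd_pow]
      simp
    exact this
  rw [h4, one_zpow]

end Pool.Agent.MUXW
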