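import Pool.Agent.MUX.TDefs

/-!
# MUX, block XF (helper87): theta series of ideals: values, Hecke operator, Fourier transform, projector

Every statement is a `def Sx_X : Prop`. A module proves `theorem tx_X (h : Sx_Y) ... : Sx_X` in the file
`Pool/Agent/MUX/F_X.lean`, namespace `Pool.Agent.MUXF`, where the hypotheses are the statements named under
USES in the doc string (fewer is fine; unneeded ones are dropped). MODEL = a proved file of MU3 (`O` of class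
number one, sums over `O`); usually the proof is that one with `O` replaced by the ideal `b` and `nm x` by
`nm x / nI b`. Definitions: `TDefs.lean`.
-/

set_option autoImplicit false

namespace Pool.Agent.MUXF

open _root_.MU3 Pool.Agent.MU3A Pool.Agent.MU3B Pool.Agent.MU3F Pool.Agent.MuSym OnePoint
open scoped ComplexConjugate

noncomputable section

/-! ## Algebra -/

/-- (ALG) algebra of `O`. MODEL: `MU3/F_ALG.lean` (there with `Case`, which is only used for `D < 0`); see also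
the lemmas of `MUX/XDefs.lean`.

`emb x = re + im * wC`, `wC = (B + i sqrt |D|)/2`. The quotient by an ideal `b ≠ ⊥`: `b` contains `nm x ≠ 0` for
`0 ≠ x ∈ b`, so it is a quotient of `O/(n)`, `n ≠ 0` an integer. -/
def Sx_ALG : Prop :=
  ∀ A B : ℤ, CQ A B →
    (∀ x y : OO A B, emb (x * y) = emb x * emb y ∧ emb (x + y) = emb x + emb y ∧
      nm (x * y) = nm x * nm y) ∧
    (∀ x : OO A B, (emb x = 0 ↔ x = 0) ∧ (nm x = 0 ↔ x = 0) ∧ 0 ≤ nm x ∧
      ((nm x : ℤ) : ℝ) = ‖emb x‖ ^ 2 ∧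
      x * star x = ((nm x : ℤ) : OO A B) ∧ emb (star x) = conj (emb x) ∧ nm (star x) = nm x) ∧
    (∀ n : ℤ, emb (n : OO A B) = n ∧ nm (n : OO A B) = n ^ 2) ∧
    (∀ b : Ideal (OO A B), b ≠ ⊥ → Finite (OO A B ⧸ b)) ∧
    IsDomain (OO A B)

/-- (IDL) `b * conj b = (N b)`.

USES ALG. PROOF. `nI b ≠ 0` by finiteness. Hermite form: let `d > 0` be the generator of `{im x : x ∈ b}` and
`c + d w ∈ b`, and `a > 0` the generator of `b ∩ ℤ`; then `b = ℤ a + ℤ (c + d w)` and `nI b = a d` (the classes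
of `i + j w`, `0 ≤ i < a`, `0 ≤ j < d`, are all classes, once each). `w a ∈ b` gives `d ∣ a`, and
`w (c + d w) = d A + (c + d B) w ∈ b` gives `d ∣ c`. So `b = d b'`, `b' = ℤ a' + ℤ (c' + w)`, `nI b = a' d²`, and
`nm (c' + w) ∈ b' ∩ ℤ = a' ℤ`. `b' conj b'` is generated by `a'²`, `a' (c' + w)`, `a' (c' + conj w)`, `nm (c' + w)`,
all in `(a')`. Conversely the ideal `J` generated by `a'`, `c' + w`, `c' + conj w`, `nm (c' + w)/a'` is `(1)`: it
contains `a'`, `2 c' + B` and `n = nm (c' + w)/a'`; if a prime number `l` divides these three integers then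
`D = B² + 4 A = (2 c' + B)² - 4 a' n` is divisible by `l²`, so `l = 2` (`D` is fundamental), `B = 0`,
`A = c'² - a' n`, with `a'`, `n` even: `A ≡ c'²` modulo `4`, against `A` squarefree, `A` not `1` modulo `4`. -/
def Sx_IDL : Prop :=
  ∀ A B : ℤ, CQ A B → ∀ b : Ideal (OO A B), b ≠ ⊥ →
    nI b ≠ 0 ∧ b * cjI b = sp ((nI b : ℕ) : OO A B)

/-- (NIM) norms of ideals.

USES ALG, IDL. PROOF. `b c * conj (b c) = (nI b nI c)`, and `(m) = (n)` for natural numbers `m`, `n` gives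
`m = n` (`emb` of a quotient is a unit of absolute value 1; or compare the norms `m² = n²`). For `sp a`:
`sp a * cjI (sp a) = sp (a * star a)`. `cjI` is an involution (`starRingEnd`). `nI b = (nI b : O)` times `1`: in
`b * cjI b ≤ b`. Last statement: cancel `b` with `cjI b` and `nI b ≠ 0`. -/
def Sx_NIM : Prop :=
  ∀ A B : ℤ, CQ A B →
    (∀ b c : Ideal (OO A B), b ≠ ⊥ → c ≠ ⊥ → nI (b * c) = nI b * nI c ∧ b * c ≠ ⊥) ∧
    (∀ a : OO A B, nI (sp a) = (nm a).natAbs ∨ a = 0) ∧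
    (∀ b : Ideal (OO A B), b ≠ ⊥ → nI (cjI b) = nI b ∧ cjI (cjI b) = b ∧ cjI b ≠ ⊥ ∧
      ((nI b : ℕ) : OO A B) ∈ b) ∧
    (∀ b c c' : Ideal (OO A B), b ≠ ⊥ → (b * c ≤ b * c' ↔ c ≤ c'))

/-- (QB) the form `nm x / nI b` on `b`.

USES ALG, IDL. PROOF. For `x, y ∈ b` the number `x * star y` lies in `b * cjI b = (nI b)`. `y = x`: `nm x` is a
multiple of `nI b`. `nm (x + m y) = nm x + m (x star y + star x y) + m² nm y`. Every `x` in `O`:
`qb (nI b x) = nI b² nm x / nI b`. -/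
def Sx_QB : Prop :=
  ∀ A B : ℤ, CQ A B → ∀ b : Ideal (OO A B), b ≠ ⊥ →
    (∀ x ∈ b, nm x = nI b * qb b x ∧ 0 ≤ qb b x) ∧
    (∀ x ∈ b, ∀ y ∈ b, ∀ m : ℤ, ∃ k : ℤ, qb b (x + m * y) = qb b x + m * k) ∧
    (∀ x : OO A B, qb b ((nI b : ℕ) * x) = nI b * nm x)

/-- (LCN) a prime ideal of prime norm `l` and the form `qb`.

USES ALG, IDL, NIM, QB. PROOF. First: `P * cjI P = (l)`, so `l ∈ P`, `l ∈ cjI P`. `x ∈ b P`: `qb b x = l qb (b P) x`
(`nI (b P) = l nI b`). Let `x ∈ b` with `l ∣ qb b x`. `(x) cjI b ≤ b cjI b = (nI b)`, so `(x) cjI b = (nI b) c` with an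
ideal `c` (`c = {y : nI b * y ∈ (x) cjI b}`); multiply by the conjugate: `(nm x) (nI b) = (nI b)² c cjI c`, so
`c cjI c = (qb b x) ≤ (l) ≤ P`, so `c ≤ P` or `cjI c ≤ P`, i.e. `c ≤ P` or `c ≤ cjI P`. In the first case
`(x) cjI b ≤ (nI b) P = b cjI b P`, so `x ∈ b P` (cancel). Same for `cjI P`. -/
def Sx_LCN : Prop :=
  ∀ A B : ℤ, CQ A B → ∀ (b P : Ideal (OO A B)) (l : ℕ), b ≠ ⊥ → P.IsPrime → nI P = l →
    l.Prime →
    ((l : ℕ) : OO A B) ∈ P ∧ ((l : ℕ) : OO A B) ∈ cjI P ∧ nI (b * P) = nI b * l ∧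
    (∀ x ∈ b * P, qb b x = l * qb (b * P) x) ∧
    ∀ x ∈ b, (l : ℤ) ∣ qb b x → x ∈ b * P ∨ x ∈ b * cjI P

/-- (BDD) a character is bounded. USES ALG. MODEL: `MU3/F_BDD.lean`. -/
def Sx_BDD : Prop :=
  ∀ (A B : ℤ), CQ A B → ∀ (g : Ideal (OO A B)) (e : OO A B → ℂ), g ≠ ⊥ → IsEI g e →
    (Set.range e).Finite ∧ ∃ C : ℝ, 0 < C ∧ ∀ x, ‖e x‖ ≤ C

/-- (SMB) rules for `sumB`, `b ≠ ⊥`, `m ≠ 0`. MODEL: `MU3/F_SM.lean`.

USES ALG. The quotient `b / m b` is finite: `b` is finitely generated as an additive group (subgroup of `O`,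
which is `ℤ²`), or `m b` contains `m n O` for an integer `n ≠ 0` in `b`, so `b / m b` is a quotient of the image of
`b` in `O / (m n)`. -/
def Sx_SMB : Prop :=
  ∀ (A B : ℤ), CQ A B → ∀ (b : Ideal (OO A B)) (m : ℕ), b ≠ ⊥ → m ≠ 0 →
    Finite (b ⧸ (nsmulAddMonoidHom (α := b) m).range) ∧
    (∀ (c : ℂ) (F : OO A B → ℂ), sumB b m (fun x => c * F x) = c * sumB b m F) ∧
    (∀ F G : OO A B → ℂ, sumB b m (fun x => F x + G x) = sumB b m F + sumB b m G) ∧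
    (∀ (s : Finset ℕ) (F : ℕ → OO A B → ℂ),
      sumB b m (fun x => ∑ j ∈ s, F j x) = ∑ j ∈ s, sumB b m (F j)) ∧
    (∀ F : OO A B → ℂ, (∀ x ∈ b, ∀ y ∈ b, F (x + m * y) = F x) → ∀ x : b,
      F (Quotient.out (QuotientAddGroup.mk x : b ⧸ (nsmulAddMonoidHom (α := b) m).range) : b) =
        F x) ∧
    ∀ F G : OO A B → ℂ, (∀ x ∈ b, F x = G x) → sumB b m F = sumB b m G

/-- (TSM) summability. MODEL: `MU3/F_TSM.lean`.

USES ALG, QB. `(nm x / nI b) z = nm x (z / nI b)`: it is the summability over `O` (model, at `z / nI b`),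
restricted to the subset `b` (`Summable.subtype` or `Summable.comp_injective`). -/
def Sx_TSM : Prop :=
  ∀ (A B : ℤ), CQ A B → ∀ b : Ideal (OO A B), b ≠ ⊥ → ∀ (e : OO A B → ℂ) (C : ℝ),
    (∀ x, ‖e x‖ ≤ C) → ∀ z : ℂ, 0 < z.im →
      Summable (fun x : b => e x * conj (emb (x : OO A B)) *
        Complex.exp (2 * Real.pi * Complex.I * ((nm (x : OO A B) : ℂ) / nI b) * z))

/-- (DCM) a sum over `b` is a sum over the classes modulo `m b`. MODEL: `MU3/F_DCM.lean`.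

USES ALG, SMB. `(q, w) ↦ Quotient.out q + m w` is a bijection from `(b / m b) × b` onto `b`. -/
def Sx_DCM : Prop :=
  ∀ (A B : ℤ), CQ A B → ∀ (b : Ideal (OO A B)) (m : ℕ), b ≠ ⊥ → m ≠ 0 → ∀ G : OO A B → ℂ,
    Summable (fun x : b => G x) →
    ∑' x : b, G x = sumB b m (fun x => ∑' w : b, G (x + m * w))

/-- (CNV) if `N b` is prime to `m` then `x ↦ N b x` is a bijection from `O/m` onto `b / m b`.

USES ALG, IDL, NIM, SMB. PROOF. `nI b x ∈ b`. Injective: `nI b x ∈ m b ⊆ (m)`, `nI b` invertible modulo `m`.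
Surjective: `u nI b + v m = 1`: for `y ∈ b`, `y = nI b (u y) + m (v y)`, `v y ∈ b`. Then reindex the finsum
(`finsum_eq_of_bijective` or `Finset.sum_bij`), using that `F` is periodic. -/
def Sx_CNV : Prop :=
  ∀ (A B : ℤ), CQ A B → ∀ (b : Ideal (OO A B)) (m : ℕ), b ≠ ⊥ → m ≠ 0 → (nI b).Coprime m →
    ∀ F : OO A B → ℂ, (∀ x ∈ b, ∀ y ∈ b, F (x + m * y) = F x) →
    sumB b m F = sumMod (m : OO A B) (fun x => F ((nI b : ℕ) * x))

/-! ## Values of the symbol -/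

/-- (THD) theta on a vertical line as a combination of lattice sums. MODEL: `MU3/F_THD.lean`.

USES ALG, QB, BDD, TSM, DCM, SMB. PROOF. `r = β/M`, `z = r + i t`, `nm x / nI b = qb b x` (an integer). DCM with
`m`: `e (x + m w) = e x` (`m w ∈ g`), `ex (β qb (x + m w)/M) = ex (β qb x/M)` (QB and `M ∣ m`),
`emb (x + m w) = (m/Om) (z_x + Om emb w)`, `z_x = Om emb x/m`, and
`nm (x + m w)/nI b = (‖m/Om‖²/nI b) ‖z_x + Om emb w‖²`; `w ↦ Om emb w` is a bijection from `b` onto `L.lattice`. -/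
def Sx_THD : Prop :=
  ∀ (A B : ℤ), CQ A B → ∀ (b : Ideal (OO A B)) (L : PeriodPair) (Om : ℂ), IsLI b L Om →
    ∀ (g : Ideal (OO A B)) (e : OO A B → ℂ), IsEI g e →
    ∀ (m M : ℕ), m ≠ 0 → (m : OO A B) ∈ g → M ≠ 0 → M ∣ m → ∀ (β : ℤ) (t : ℝ), 0 < t →
      thetaI b e (((β / M : ℚ) : ℂ) + t * Complex.I) = (1 / 2) * sumB b m (fun x =>
        e x * ex (β * qb b x / M) * (conj (m / Om) * ∑' w : L.lattice,
          conj (Om * emb x / m + w) *
            (Real.exp (-((2 * Real.pi * ‖m / Om‖ ^ 2 / nI b) * t *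
              ‖Om * emb x / m + w‖ ^ 2)) : ℝ)))

/-- (F4) the values of the symbol at all rational numbers, and integrability. MODEL: `MU3/F_F4.lean`.

USES ALG, SMB, IDL, THD, `MU3B.St_INT`. PROOF. Integrate THD over `t` in `(0, oo)` with `St_INT`,
`c = 2 π ‖m/Om‖²/nI b`, `z = Om emb x/m`. -/
def Sx_F4 : Prop :=
  ∀ (A B : ℤ), CQ A B → ∀ (b : Ideal (OO A B)) (L : PeriodPair) (Om : ℂ), IsLI b L Om →
    ∀ (g : Ideal (OO A B)) (e : OO A B → ℂ), IsEI g e →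
    ∀ (m M : ℕ), m ≠ 0 → (m : OO A B) ∈ g → M ≠ 0 → M ∣ m → ∀ β : ℤ,
      MeasureTheory.IntegrableOn
        (fun t : ℝ => thetaI b e (((β / M : ℚ) : ℂ) + t * Complex.I)) (Set.Ioi 0) ∧
      IvI b e (β / M : ℚ) = -(Om * nI b / (2 * m)) *
        sumB b m (fun x => e x * ex (β * qb b x / M) * ee L (Om * emb x / m))

/-- (LAT1) every ideal gives a lattice. MODEL: `MU3A.Sa_LAT0` and its proof (file `MU3/A_*.lean`).

USES ALG, IDL. PROOF. `b` has a `ℤ`-basis `u, v` (Hermite form of IDL: `u = a`, `v = c + d w`, `a, d > 0`; or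
`b` is a submodule of finite index of `O = ℤ²`); `Om emb u`, `Om emb v` are linearly independent over `ℝ` (if
`r emb u + s emb v = 0` with real `r, s` not both 0 then all of `emb b` lies on a line, but `b` contains
`n` and `n w` for an integer `n ≠ 0`). -/
def Sx_LAT1 : Prop :=
  ∀ (A B : ℤ), CQ A B → ∀ (b : Ideal (OO A B)) (Om : ℂ), b ≠ ⊥ → Om ≠ 0 →
    ∃ L : PeriodPair, IsLI b L Om

/-- (ITG) integrability on all vertical lines over rational numbers. MODEL: `MU3/F_ITG.lean`.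

USES ALG, F4, LAT1. PROOF. `r = β/M` with `β = r.num`, `M = r.den`; `m = n M` with a natural number `n ≠ 0` in
`g`; `Om = 1`. -/
def Sx_ITG : Prop :=
  ∀ (A B : ℤ), CQ A B → ∀ (b g : Ideal (OO A B)) (e : OO A B → ℂ), b ≠ ⊥ → g ≠ ⊥ → IsEI g e →
    ∀ r : ℚ, MeasureTheory.IntegrableOn
      (fun t : ℝ => thetaI b e ((r : ℂ) + t * Complex.I)) (Set.Ioi 0)

open Classical in
/-- (F5) sums of `ee` over points of level `m` are Fourier transforms of the values of the symbol.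
MODEL: `MU3/F_F5.lean`, `MU3/F_F5S.lean`.

USES ALG, IDL, NIM, QB, SMB, CNV, F4. PROOF. F4 and CNV (the function `x ↦ e x ex (β qb b x/M) ee L (Om emb x/m)` is
periodic: `ee L` is periodic, `MU3B.St_PER`; take it as a further hypothesis) and `qb b (nI b x) = nI b nm x`:
`PhiI oo (β/M) = -IvI (β/M) = (Om nI b/(2 m)) sumMod m (e (nI b) e x ex (β nI b nm x/M) ee L (Om nI b emb x/m))`.
Multiply by `ex (-β c/M)` and sum over `β` modulo `M`: `Σ_β ex (β (nI b nm x - c)/M) = M` or `0`. `e (nI b) ≠ 0`: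
`nI b` is prime to `m ∈ g`. -/
def Sx_F5 : Prop :=
  ∀ (A B : ℤ), CQ A B → ∀ (b : Ideal (OO A B)) (L : PeriodPair) (Om : ℂ), IsLI b L Om →
    ∀ (g : Ideal (OO A B)) (e : OO A B → ℂ), IsEI g e →
    ∀ (m M : ℕ), m ≠ 0 → (m : OO A B) ∈ g → M ≠ 0 → M ∣ m → (nI b).Coprime m →
      e ((nI b : ℕ) : OO A B) ≠ 0 ∧ ∀ c : ℤ,
      sumMod (m : OO A B) (fun x =>
        if (M : ℤ) ∣ nI b * nm x - c then e x * ee L (Om * nI b * emb x / m) else 0) =
      (2 * m / (Om * nI b * M * e ((nI b : ℕ) : OO A B))) * ∑ β ∈ Finset.range M,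
        ex (-(β * c) / M) * PhiI b e ∞ (((β / M : ℚ) : ℚ) : OnePoint ℚ)

/-- (PRD) `thetaI` has period 1. MODEL: `MU3/F_PRD.lean`. USES QB. Term by term. -/
def Sx_PRD : Prop :=
  ∀ (A B : ℤ), CQ A B → ∀ b : Ideal (OO A B), b ≠ ⊥ → ∀ (e : OO A B → ℂ) (z : ℂ),
    thetaI b e (z + 1) = thetaI b e z

/-! ## The Hecke operator -/

/-- (UL) the operator `U_l` on theta. MODEL: `MU3/F_U3.lean`.

USES ALG, QB, LCN, BDD, TSM. PROOF. `Σ_j exp (2 π i n (z + j)/l) = l exp (2 π i n z/l)` if `l ∣ n`, else `0`, so the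
left side is `l/2 Σ_(x ∈ b, l ∣ qb b x) e x conj (emb x) exp (2 π i (qb b x/l) z)`. If `e x ≠ 0` then `x ∉ cjI P`
(`(x) + g = 1`, `g ≤ cjI P ≠ ⊤`), so by LCN `l ∣ qb b x` iff `x ∈ b P` (`b cjI P ≤ cjI P`), and then
`qb b x/l = qb (b P) x`. (`Function.Injective.tsum_eq` for the inclusion `b P → b`.) -/
def Sx_UL : Prop :=
  ∀ (A B : ℤ), CQ A B → ∀ (b g P : Ideal (OO A B)) (e : OO A B → ℂ) (l : ℕ), b ≠ ⊥ → g ≠ ⊥ →
    IsEI g e → P.IsPrime → nI P = l → l.Prime → g ≤ cjI P → ∀ z : ℂ, 0 < z.im →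
    ∑ j ∈ Finset.range l, thetaI b e ((z + j) / l) = l * thetaI (b * P) e z

/-- (HU) the Hecke operator on the symbol. MODEL: `MU3/F_F3.lean`.

USES ALG, LCN, UL, ITG. PROOF. `e l = 0`: `l ∈ cjI P` and `g ≤ cjI P`. -/
def Sx_HU : Prop :=
  ∀ (A B : ℤ), CQ A B → ∀ (b g P : Ideal (OO A B)) (e : OO A B → ℂ) (l : ℕ), b ≠ ⊥ → g ≠ ⊥ →
    IsEI g e → P.IsPrime → nI P = l → l.Prime → g ≤ cjI P →
    nuQ e l = 0 ∧ ∀ x y : OnePoint ℚ, hecke l (nuQ e) (PhiI b e) x y = PhiI (b * P) e x y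

/-- (PRI) multiplication of the ideal by a number.

USES ALG, NIM. PROOF. `y ↦ a y` is a bijection from `b` onto `sp a * b`, `nI (sp a * b) = nm a nI b`,
`nm (a y) = nm a nm y`. No summability is needed (`Equiv.tsum_eq`, `tsum_mul_left`, `integral_const_mul`). -/
def Sx_PRI : Prop :=
  ∀ (A B : ℤ), CQ A B → ∀ (b g : Ideal (OO A B)) (e : OO A B → ℂ) (a : OO A B), b ≠ ⊥ →
    IsEI g e → a ≠ 0 →
    (∀ z : ℂ, thetaI (sp a * b) e z = e a * conj (emb a) * thetaI b e z) ∧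
    ∀ x y : OnePoint ℚ, PhiI (sp a * b) e x y = e a * conj (emb a) * PhiI b e x y

/-- (UH) if `P ^ h = (a)` then the symbol is an eigensymbol of `U_l ^ h`.

USES ALG, NIM, HU, PRI. PROOF. By HU `U_l ^ h PhiI b = PhiI (b P ^ h)` (induction), and `b P ^ h = (a) b`. -/
def Sx_UH : Prop :=
  ∀ (A B : ℤ), CQ A B → ∀ (b g P : Ideal (OO A B)) (e : OO A B → ℂ) (l : ℕ), b ≠ ⊥ → g ≠ ⊥ →
    IsEI g e → P.IsPrime → nI P = l → l.Prime → g ≤ cjI P →
    (∀ n : ℕ, (hecke l (nuQ e))^[n] (PhiI b e) = PhiI (b * P ^ n) e) ∧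
    ∀ (h : ℕ) (a : OO A B), a ≠ 0 → P ^ h = sp a → ∀ x y : OnePoint ℚ,
      (hecke l (nuQ e))^[h] (PhiI b e) x y = e a * conj (emb a) * PhiI b e x y

/-! ## The character and the projector -/

/-- (CHI) the character `chiQ` at integers prime to `D`.

PROOF. `B = 1`: `absD = |D|` is odd and `3` modulo `4` (`D = 1 + 4 A`); `jacobiSym` is periodic modulo `|D|` and
multiplicative, `jacobiSym (-1) |D| = -1` (`ZMod.χ₄`, `jacobiSym.at_neg_one`). `B = 0`: `|D| = -4 A`, `n` is odd.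
`jacobiSym A |n| ≠ 0` as `n` is prime to `A`. Periodicity modulo `4 |A|`: for `n, n' > 0` it is
`jacobiSym.mod_right`; and (`n < 0 < n'`) `chi (-n) = - chi n` for `n` modulo `4 |A|`: for odd positive `n`, `m` with
`n + m` divisible by `4 A`: `jacobiSym A n = - jacobiSym A m` (`A < 0`). Write `A = -2^k a'` with `a'` odd and use
`jacobiSym.quadratic_reciprocity`, `jacobiSym.at_neg_one`, `jacobiSym.at_two` (`k ≤ 1`, `a'` and `k` with `A` not
`1` modulo `4`). (A lot of small cases: it may be easier to prove first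
`jacobiSym A n = (function of n modulo 8) * jacobiSym n a'` for odd `n > 0`.) -/
def Sx_CHI : Prop :=
  ∀ A B : ℤ, CQ A B → ∀ n : ℤ, IsCoprime n (absD A B) →
    (chiQ A B n = 1 ∨ chiQ A B n = -1) ∧ chiQ A B (-n) = -chiQ A B n ∧
    ∀ n' : ℤ, absD A B ∣ n - n' → chiQ A B n' = chiQ A B n

/-- (REC) `chi (N c) = 1` for the norm `N c = qb b x` of an integral ideal `c = x b⁻¹` prime to `D`.

USES ALG, IDL, QB, CHI. PROOF. `n = qb b x > 0` is prime to `D` (`x` is prime to `D`, so `nm x = nI b n` is). `4 nI b n =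
4 nm x = (2 re + B im)² + |D| im²`. Let `n` be odd and `q` a prime divisor of `n`. The ideal
`c = x b⁻¹` (see LCN: `c cjI c = (n)`) and its Hermite form give `n = a' d²` with `D` a square modulo `4 a'`:
`chiQ (a' d²) = chiQ a'`, and for every prime `q ∣ a'` (`q` is prime to `D`): `D` is a square modulo `q` (modulo
`8` if `q = 2`), so `jacobiSym D q = 1`. So `jacobiSym D a'' = 1` for the odd part `a''` of `a'`. `B = 0`: `n` is odd,
`chiQ n = jacobiSym A n = jacobiSym (4 A) n`. `B = 1`: `jacobiSym a'' |D| = jacobiSym D a''` by reciprocity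
(`D = - |D|` is `1` modulo `4`), and `jacobiSym 2 |D| = 1` if `D` is `1` modulo `8`. -/
def Sx_REC : Prop :=
  ∀ A B : ℤ, CQ A B → ∀ b : Ideal (OO A B), b ≠ ⊥ → ∀ x ∈ b,
    IsCoprime x ((absD A B : ℤ) : OO A B) →
    IsCoprime (qb b x) (absD A B) ∧ chiQ A B (qb b x) = 1

/-- (PHX) a function `φ` modulo `|D|` which is 1 on the exponents of theta and 0 on their negatives.

USES ALG, CHI, REC. PROOF. `φ n = (1 + chiQ n)/2` for `n` prime to `D`, `0` otherwise. `e x ≠ 0` gives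
`(x) + g = 1`, `g ≤ (D)`, so `x` is prime to `D`. -/
def Sx_PHX : Prop :=
  ∀ A B : ℤ, CQ A B → ∃ φ : ℤ → ℂ, (∀ n, φ n = 0 ∨ φ n = 1) ∧
    (∀ n, φ (n + absD A B) = φ n) ∧
    ∀ (b g : Ideal (OO A B)) (e : OO A B → ℂ), b ≠ ⊥ → IsEI g e →
      g ≤ sp ((absD A B : ℤ) : OO A B) → ∀ x ∈ b, e x ≠ 0 →
      φ (qb b x) = 1 ∧ φ (-qb b x) = 0

/-- (PRJ) the projector: from the part `s` of the symbol back to the symbol. MODEL: `MU3/F_TWD.lean` and
`MU3/F_F8.lean`.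

USES ALG, QB, BDD, TSM, ITG, PRD. PROOF. `c_a = (1/q) Σ_n φ n ex (-(a n)/q)`, so `Σ_a c_a ex (a k/q) = φ k` for integers
`k` (finite Fourier inversion). So `Σ_a c_a thetaI (z + a/q) = thetaI z` (coefficients `φ (qb b x) = 1`) and
`Σ_a c_a thetaI (z - a/q) = 0` (coefficients `φ (- qb b x) = 0`). Integrate over vertical lines:
`Σ_a c_a IvI (r + a/q) = IvI r`, `Σ_a c_a IvI (-(r + a/q)) = 0`; at infinity everything is 0 (so for cusps `x`:
`Σ_a c_a IcI (mob q a 0 q x) = IcI x`, and `Σ_a c_a IcI (mob (-1) 0 0 1 (mob q a 0 q x)) = 0`). -/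
def Sx_PRJ : Prop :=
  ∀ (A B : ℤ), CQ A B → ∀ (b g : Ideal (OO A B)) (e : OO A B → ℂ), b ≠ ⊥ → g ≠ ⊥ → IsEI g e →
    ∀ (q : ℕ) (φ : ℤ → ℂ), q ≠ 0 → (∀ n, φ (n + q) = φ n) →
    (∀ x ∈ b, e x ≠ 0 → φ (qb b x) = 1 ∧ φ (-qb b x) = 0) →
    ∀ (s : ℂ) (x y : OnePoint ℚ),
    ∑ a ∈ Finset.range q, ((1 / q) * ∑ n ∈ Finset.range q, φ n * ex (-(a * n) / q)) *
      sgnPart s (PhiI b e) (mob q a 0 q x) (mob q a 0 q y) = PhiI b e x y

/-- (F7) the values `PhiI (x,y)` lie in a finitely generated group. MODEL: `MU3/F_F7.lean`.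

USES BDD, `MU3F.Sf_FG`. `nuQ e` has finitely many values: `chiQ` has values in `{0, 1, -1}`. -/
def Sx_F7 : Prop :=
  ∀ (A B : ℤ), CQ A B → ∀ (b g : Ideal (OO A B)) (e : OO A B → ℂ), b ≠ ⊥ → g ≠ ⊥ → IsEI g e →
    ∀ N : ℕ, N ≠ 0 → IsSym N (nuQ e) (PhiI b e) →
    ∃ S : Finset ℂ, ∀ x y, PhiI b e x y ∈ AddSubgroup.closure (S : Set ℂ)

/-! ## Lattices of finite index -/

/-- (DISX) distribution relation of `e = ee` for lattices `L ⊆ L'`, `R` representatives of `L'/L`.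
MODEL: `MU3/B_DIS.lean`.

USES `MU3B.St_INT` (and `MU3B.St_SUM`). PROOF. `Σ_(q ∈ R) Σ_(w ∈ L) F (q + w) = Σ_(v ∈ L') F v` for
`F v = conj (z + v) exp (- t |z + v|²)`; integrate over `t` with INT for `L` and `L'`, `c = 1`. -/
def Sx_DISX : Prop :=
  ∀ (L L' : PeriodPair) (R : Finset ℂ), (∀ w ∈ L.lattice, w ∈ L'.lattice) →
    (∀ q ∈ R, q ∈ L'.lattice) → (∀ q ∈ R, ∀ q' ∈ R, q - q' ∈ L.lattice → q = q') →
    (∀ v ∈ L'.lattice, ∃ q ∈ R, v - q ∈ L.lattice) →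
    ∀ z, ∑ q ∈ R, ee L (z + q) = ee L' z

end

end Pool.Agent.MUXF
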