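import Pool.Agent.MUX.DefsX2
import Pool.Agent.MUX.StXF
import Pool.Agent.MUX.StU

/-!
# MUX, section 9 of `PAPER_X.md`: rationality of the modular symbols of theta series of ideals (helper41)

Every statement is a `def Sy_X : Prop`. A module proves `theorem ty_X (h : ..) .. : Sy_X` in the file
`Pool/Agent/MUX/Y_X.lean`, namespace `Pool.Agent.MUXY`, where the hypotheses are the statements named under USES
(`Sy_..` of this file, `Sx_..` of `StXF.lean`, `Su_..` of `StU.lean`; fewer is fine). The statements of block B of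
MU3 are theorems in `Pool/Agent/MU3/BAll.lean` (`Pool.Agent.MU3B.b_TRA`, `b_HAL`, `b_NEQ`, `b_PER`, `b_ZER`, `b_DSC`, ..),
scaling of a lattice is `Pool.Agent.MU3A.ta_SCP` (`A_SCP.lean`).

The definitions of `TDefs.lean` (namespace `MUXF`: `CQ`, `IsLI`, `IsEI`, `nI`, `cjI`, `sp`, `PhiI`, ..) are the same as those
of `DefsX.lean` (namespace `MUX`); `nI`, `cjI`, `sp`, `PhiI` are equal by `rfl`, the structures are converted by `cqF`, `liF`,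
`eiF`. The first part uses those of `MUXF`, the second part (from `SAM` on) those of `MUX`.

`b`, `c` ideals, `L = om * emb b`, `L' = om' * emb c`, `L' = L^σ = mu a⁻¹ L`. Facts on `emb`: `Sx_ALG` (`emb` is multiplicative and
additive, `emb x = 0` only for `x = 0`, so `emb` is injective).
-/

set_option autoImplicit false

namespace Pool.Agent.MUXY

open _root_.MU3 Pool.Agent.MU3A Pool.Agent.MU3B Pool.Agent.MUXU OnePoint
open Pool.Agent.MU3F (ex)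
open Pool.Agent.MUXF (Sx_ALG Sx_IDL Sx_NIM Sx_QB Sx_SMB Sx_F4 qb sumB)

noncomputable section

/-! ## Bridges between the two copies of the definitions -/

theorem cqF {A B : ℤ} (h : MUX.CQ A B) : MUXF.CQ A B := ⟨h.hB, h.neg, h.fund1, h.fund0⟩

theorem liF {A B : ℤ} {b : Ideal (OO A B)} {L : PeriodPair} {om : ℂ} (h : MUX.IsLI b L om) :
    MUXF.IsLI b L om := ⟨h.b_ne, h.om_ne, h.mem⟩

theorem eiF {A B : ℤ} {g : Ideal (OO A B)} {e : OO A B → ℂ} (h : MUX.IsEI g e) :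
    MUXF.IsEI g e := ⟨h.one, h.mul, h.per, h.supp, h.neg⟩

theorem phiF {A B : ℤ} (b : Ideal (OO A B)) (e : OO A B → ℂ) (x y : OnePoint ℚ) :
    MUX.PhiI b e x y = MUXF.PhiI b e x y := rfl

/-- `L' = L^σ = μ a⁻¹ L`, `a` prime to `m`, and `σ` maps the point `z` of level `m` of `ℂ / L` to the point `μ z` of
`ℂ / L'` -/
structure ActN {A B : ℤ} (σ : ℂ ≃+* ℂ) (m : ℕ) (a : Ideal (OO A B)) (L L' : PeriodPair)
    (mu : ℂ) : Prop where
  cj : IsCj σ L L'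
  cop : IsCoprime a (MUXF.sp ((m : ℕ) : OO A B))
  ne : mu ≠ 0
  isq : ∀ z : ℂ, mu * z ∈ L'.lattice ↔ ∀ x ∈ a, emb x * z ∈ L.lattice
  act : ∀ z, (m : ℂ) * z ∈ L.lattice → z ∉ L.lattice → mu * z ∉ L'.lattice ∧
    L'.weierstrassP (mu * z) = σ (L.weierstrassP z) ∧
    L'.derivWeierstrassP (mu * z) = σ (L.derivWeierstrassP z)

/-- the cusp `x` is `∞` or a rational number with denominator dividing `m` -/
def Dn (m : ℕ) (x : OnePoint ℚ) : Prop := ∀ r : ℚ, x = (r : OnePoint ℚ) → r.den ∣ m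

/-- the map `f` on `b`, with values in `c`, is multiplication by `mu om / om'` -/
structure IsF {A B : ℤ} (b c : Ideal (OO A B)) (om om' mu : ℂ) (f : OO A B → OO A B) : Prop where
  mem : ∀ x ∈ b, f x ∈ c
  eq : ∀ x ∈ b, om' * emb (f x) = mu * om * emb x
  add : ∀ x ∈ b, ∀ y ∈ b, f (x + y) = f x + f y
  sub : ∀ x ∈ b, ∀ y ∈ b, f (x - y) = f x - f y
  smul : ∀ x ∈ b, ∀ r : OO A B, f (r * x) = r * f x
  nb : ∀ x ∈ b, ((MUXF.nI b : ℕ) : OO A B) * f x = f ((MUXF.nI b : ℕ) : OO A B) * x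

/-! ## The function `ee` and conjugation -/

/-- (EE) conjugation of the values of `ee` at torsion points: `σ (e(z; L)) = e(z'; L^σ)`, `z'` the conjugate point of `z`.

USES Su_PHI, Su_TSN, Su_EQP (and `b_HAL`, `b_TRA` of `BAll.lean`). MODEL: `MU3/G_F6E.lean`. PROOF. `b := 1 + 2 n`, an odd integer (`b ≠ 0`), `(b - 1) z = 2 n z ∈ L`.
`H` a half system for `b` on `L` (HAL with `a = b`: `b w ∈ L`; if `b z ∈ L` and `2 z ∈ L` then `z = b z - n (2 z) ∈ L`). `Φ` from (PHI). `H' := H.image Φ` is a half system for `b`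
on `L'` and `Φ` is injective on `H`: (mem, ne) by (TSN) with the integers `b`, `2`. (inj) `Φ q - Φ q' ∈ L'` gives `Φ (q - q') ∈ L'` (`add` for `q - q'` and `q'`), `q - q' ∈ L` (`mem`),
`q = q'`. (neg) in the same way. (surj) let `b u ∈ L'`, `u ∉ L'`; `Φ u₀ - u ∈ L'` (`surj`); `b Φ u₀ ∈ L'`, so `b u₀ ∈ L`, `u₀ ∉ L`, so `u₀ - q` or `u₀ + q` is in `L` for some `q ∈ H`,
and `u - Φ q` resp. `u + Φ q` is in `L'` (`add`, `mem`). By (EQP) `z' - Φ z ∈ L'`, so `n z' ∈ L'` (TSN for `n z ∈ L`), `(b - 1) z' ∈ L'`. (TRA) for `L', H', z'` and for `L, H, z`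
(`Finset.sum_image`): `(b - b²) e(z'; L') = Σ_(q ∈ H) ℘'(z')/(℘(z') - ℘(Φ q)) = Σ_(q ∈ H) σ(℘' z)/(σ(℘ z) - σ(℘ q)) = σ((b - b²) e(z; L)) = (b - b²) σ(e(z; L))`, and `b - b² = -2 n b ≠ 0`. -/
def Sy_EE : Prop :=
  ∀ (σ : ℂ ≃+* ℂ) (L L' : PeriodPair), IsCj σ L L' → ∀ (n : ℤ) (z z' : ℂ), n ≠ 0 →
    (n : ℂ) * z ∈ L.lattice → z ∉ L.lattice → z' ∉ L'.lattice →
    L'.weierstrassP z' = σ (L.weierstrassP z) →
    L'.derivWeierstrassP z' = σ (L.derivWeierstrassP z) → ee L' z' = σ (ee L z)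

/-! ## The map `x ↦ (mu om / om') x` from `b` to `c` -/

/-- (MAP) the map `f`.

USES ALG, NIM. PROOF. For `x ∈ b`, `y ∈ a`: `emb y (om emb x) = om emb (y x) ∈ L`, so by `isq` `mu om emb x ∈ L'`, i.e. `mu om emb x = om' emb y'` with `y' ∈ c`: `f x := y'` (choose; `f x := 0`
for `x ∉ b`). `add`, `sub`, `smul`: apply `emb` (injective) and multiply by `om' ≠ 0`. `nb`: `N b ∈ b` (NIM) and
`om' emb (N b f x) = N b mu om emb x = (om' emb (f (N b))) emb x`. -/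
def Sy_MAP : Prop :=
  ∀ A B : ℤ, MUXF.CQ A B → ∀ (σ : ℂ ≃+* ℂ) (m : ℕ) (a b c : Ideal (OO A B)) (L L' : PeriodPair)
    (om om' mu : ℂ), MUXF.IsLI b L om → MUXF.IsLI c L' om' → ActN σ m a L L' mu →
    ∃ f : OO A B → OO A B, IsF b c om om' mu f

/-- (IDF) the image of `f` is the ideal `a c`.

USES ALG, IDL, NIM. PROOF. (0) `a ≠ ⊥`: otherwise by `isq` `mu z ∈ L'` for all `z`, so every complex number is `om' emb y`, `y ∈ c`; but `om'/2` is not (`2 y = 1` in `O` is impossible: real parts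
of the coordinates). (1) `f(b) := {f x : x ∈ b}`. `a c ⊆ f(b)`: let `α ∈ a`, `y ∈ c`; `z := om' emb y/mu`, `mu z ∈ L'`, so by `isq` `emb α z ∈ L`: `emb α om' emb y/mu = om emb x`, `x ∈ b`, so
`om' emb (α y) = mu om emb x = om' emb (f x)`, `α y = f x`. `f(b)` is closed under addition (induction over `Submodule.mul_induction_on`). (2) `f(b) ⊆ a c`: let `β = f x`. Let `α' ∈ cjI a` and
`y := α' β/N(a)`: precisely, `z := om emb (α' x)/N(a)`; for `α ∈ a`: `α α' ∈ a cjI a = (N a)` (IDL), `α α' = N(a) r`, `emb α z = om emb (r x) ∈ L`; so `mu z ∈ L'` by `isq`,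
`mu z = om' emb y`, `y ∈ c`, and `N(a) y = α' β` (`om' emb (N(a) y) = N(a) mu z = mu om emb x emb α' = om' emb (β α')`). `N(a) ∈ a cjI a`, so it is a finite sum of products `α α'` with `α ∈ a`,
`α' ∈ cjI a`: for every element `s` of `a cjI a` there is `t ∈ a c` with `N(a) t = s β` (induction: `t = α y` for `s = α α'`); for `s = N(a)`: `t = β` (`O` is a domain). (3) `sp u * b = sp (N b) * (a * c)`,
`u = f (N b)`: `u x = N b f x` (`nb`) and (1), (2): both sides consist of the elements `u x`, `x ∈ b`. (4) Norms (NIM, `Ideal.span_singleton`): `nm u N(b) = N(b)² N(a) N(c)`, `nm u ≥ 0`. -/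
def Sy_IDF : Prop :=
  ∀ A B : ℤ, MUXF.CQ A B → ∀ (σ : ℂ ≃+* ℂ) (m : ℕ) (a b c : Ideal (OO A B)) (L L' : PeriodPair)
    (om om' mu : ℂ) (f : OO A B → OO A B), MUXF.IsLI b L om → MUXF.IsLI c L' om' →
    ActN σ m a L L' mu → IsF b c om om' mu f →
    a ≠ ⊥ ∧ (∀ y : OO A B, y ∈ a * c ↔ ∃ x ∈ b, f x = y) ∧
    MUXF.sp (f ((MUXF.nI b : ℕ) : OO A B)) * b =
      MUXF.sp ((MUXF.nI b : ℕ) : OO A B) * (a * c) ∧
    nm (f ((MUXF.nI b : ℕ) : OO A B)) = MUXF.nI b * MUXF.nI a * MUXF.nI c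

/-- (QBF) `N(f x)/N(c) = N(a) N(x)/N(b)`.

USES ALG, IDL, NIM, QB, IDF. PROOF. `N b f x = u x`, `u = f (N b)`: `N(b)² nm (f x) = nm u nm x = N(b) N(a) N(c) nm x` (IDF), `nm x = N(b) qb b x`, `nm (f x) = N(c) qb c (f x)` (QB): cancel
`N(b)²`, `N(c)` (`≠ 0`, IDL). -/
def Sy_QBF : Prop :=
  ∀ A B : ℤ, MUXF.CQ A B → ∀ (σ : ℂ ≃+* ℂ) (m : ℕ) (a b c : Ideal (OO A B)) (L L' : PeriodPair)
    (om om' mu : ℂ) (f : OO A B → OO A B), MUXF.IsLI b L om → MUXF.IsLI c L' om' →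
    ActN σ m a L L' mu → IsF b c om om' mu f →
    ∀ x ∈ b, qb c (f x) = MUXF.nI a * qb b x

/-- (BIJ) `f` induces a bijection from `b / m b` onto `c / m c`.

USES ALG, IDF. PROOF. `1 = α + m β` with `α ∈ a`, `β ∈ O` (`cop`). (i) Let `f x - f y = m t`, `t ∈ c`, so `f (x - y) = m t`. `α t ∈ a c`, so `α t = f s`, `s ∈ b` (IDF), and `f (α (x - y)) = α m t = f (m s)`,
so `α (x - y) = m s` (`f` is injective on `b`: `om' emb (f x) = mu om emb x`), and `x - y = m (s + β (x - y))`. (ii) `y = α y + m (β y)`, `α y ∈ a c`, `α y = f x`. -/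
def Sy_BIJ : Prop :=
  ∀ A B : ℤ, MUXF.CQ A B → ∀ (σ : ℂ ≃+* ℂ) (m : ℕ) (a b c : Ideal (OO A B)) (L L' : PeriodPair)
    (om om' mu : ℂ) (f : OO A B → OO A B), MUXF.IsLI b L om → MUXF.IsLI c L' om' →
    ActN σ m a L L' mu → IsF b c om om' mu f →
    (∀ x ∈ b, ∀ y ∈ b, (∃ t ∈ c, f x - f y = m * t) → ∃ s ∈ b, x - y = m * s) ∧
    ∀ y ∈ c, ∃ x ∈ b, ∃ t ∈ c, y = f x + m * t

/-- (SUM) change of variables in `sumB`.

USES SMB. MODEL for the reindexing: `MU3/F_SM.lean`. PROOF. `φ : b →+ c`, `x ↦ f x` (`AddMonoidHom.mk'`), maps `m b` into `m c` (`f (m s) = m f s` by additivity, `map_nsmul`), so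
(`QuotientAddGroup.map`) it induces `ψ : b/m b → c/m c`, which is injective and surjective by the last hypotheses (`nsmulAddMonoidHom m s = m • s`). For `q = mk x`, `x = Quotient.out q`:
`ψ q = mk (f x)`, and `F (Quotient.out (ψ q)) = F (f x)` (SMB, fifth statement). `finsum_eq_of_bijective`. -/
def Sy_SUM : Prop :=
  ∀ A B : ℤ, MUXF.CQ A B → ∀ (b c : Ideal (OO A B)) (m : ℕ) (f : OO A B → OO A B), b ≠ ⊥ →
    c ≠ ⊥ → m ≠ 0 → (∀ x ∈ b, f x ∈ c) → (∀ x ∈ b, ∀ y ∈ b, f (x + y) = f x + f y) →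
    (∀ x ∈ b, ∀ y ∈ b, (∃ t ∈ c, f x - f y = m * t) → ∃ s ∈ b, x - y = m * s) →
    (∀ y ∈ c, ∃ x ∈ b, ∃ t ∈ c, y = f x + m * t) →
    ∀ F : OO A B → ℂ, (∀ x ∈ c, ∀ y ∈ c, F (x + m * y) = F x) →
      sumB c m F = sumB b m (fun x => F (f x))

/-- (UV) the number `u = f (N b)` is prime to the conductor.

USES ALG, IDL, NIM. PROOF. `b cjI b = sp (N b)`, `c cjI c = sp (N c)` (IDL), so `b`, `cjI b`, `c` are prime to `g` (`IsCoprime` of a product: `IsCoprime.of_mul_left_left`, ..); `a` is prime to `sp m ≤ g`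
(`Ideal.isCoprime_iff_sup_eq`). `sp u * b = b * cjI b * a * c`, so `sp u = cjI b * a * c` (cancel `b`: NIM, last statement, both directions), a product of ideals prime to `g`. -/
def Sy_UV : Prop :=
  ∀ A B : ℤ, MUXF.CQ A B → ∀ (m : ℕ) (a b c g : Ideal (OO A B)) (u : OO A B), b ≠ ⊥ → c ≠ ⊥ →
    ((m : ℕ) : OO A B) ∈ g → IsCoprime a (MUXF.sp ((m : ℕ) : OO A B)) →
    IsCoprime (MUXF.sp ((MUXF.nI b : ℕ) : OO A B)) g →
    IsCoprime (MUXF.sp ((MUXF.nI c : ℕ) : OO A B)) g →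
    MUXF.sp u * b = MUXF.sp ((MUXF.nI b : ℕ) : OO A B) * (a * c) → IsCoprime (MUXF.sp u) g

/-! ## Conjugation of the symbol -/

/-- (TER) conjugation of a term of F4.

USES ALG, IDL, NIM, QB, EE, QBF. PROOF. `e' x = σ (e x)`, `u = f (N b)`. `e' u e' x = e' (u x) = e' (N b f x) = e' (N b) e' (f x)` (`nb`, multiplicativity of `e`). If `e x = 0`: both sides are `0` (`e' (N b) e' (f x) = e' u e' x = 0`).
Let `e x ≠ 0`: `x` is prime to `g`. `z := om emb x/m`: `m z ∈ L`; `z ∉ L`: otherwise `om emb x/m = om emb s`, `s ∈ b`, `x = m s ∈ g`, so `sp x ≤ g`, and `sp x`, `g` coprime gives `g = ⊤`. So by `act` and (EE) (with `n = m`)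
`σ (ee L z) = ee L' (mu z)`, and `mu z = om' emb (f x)/m`. `ζ := ex (β qb b x/M)`, `ζ^m = 1` (`M ∣ m`; `ex` is `exp (2 π i .)`), so `σ ζ = ζ ^ N(a) = ex (β N(a) qb b x/M) = ex (β qb c (f x)/M)` (QBF). -/
def Sy_TER : Prop :=
  ∀ A B : ℤ, MUXF.CQ A B → ∀ (σ : ℂ ≃+* ℂ) (m : ℕ) (a b c : Ideal (OO A B)) (L L' : PeriodPair)
    (om om' mu : ℂ) (f : OO A B → OO A B), MUXF.IsLI b L om → MUXF.IsLI c L' om' →
    ActN σ m a L L' mu → IsF b c om om' mu f → (∀ z : ℂ, z ^ m = 1 → σ z = z ^ MUXF.nI a) →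
    ∀ (g : Ideal (OO A B)) (e : OO A B → ℂ), MUXF.IsEI g e → g ≠ ⊤ → m ≠ 0 →
    ((m : ℕ) : OO A B) ∈ g → ∀ M : ℕ, M ≠ 0 → M ∣ m → ∀ (β : ℤ), ∀ x ∈ b,
      σ (e (f ((MUXF.nI b : ℕ) : OO A B))) *
          σ (e x * ex (β * qb b x / M) * ee L (om * emb x / m)) =
        σ (e ((MUXF.nI b : ℕ) : OO A B)) *
          (σ (e (f x)) * ex (β * qb c (f x) / M) * ee L' (om' * emb (f x) / m))

/-- (PR4) the terms of F4 are periodic.

USES ALG, QB. PROOF. `e (x + m y) = e x` (`m y ∈ g`); `qb b (x + m y) = qb b x + m k` (QB) and `M ∣ m`, `ex (r + j) = ex r` for integers `j`; `om emb (x + m y)/m = om emb x/m + om emb y` and `b_PER`. -/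
def Sy_PR4 : Prop :=
  ∀ A B : ℤ, MUXF.CQ A B → ∀ (b : Ideal (OO A B)) (L : PeriodPair) (om : ℂ), MUXF.IsLI b L om →
    ∀ (g : Ideal (OO A B)) (e : OO A B → ℂ), MUXF.IsEI g e → ∀ (m M : ℕ), m ≠ 0 →
    ((m : ℕ) : OO A B) ∈ g → M ≠ 0 → M ∣ m → ∀ β : ℤ, ∀ x ∈ b, ∀ y ∈ b,
      e (x + m * y) * ex (β * qb b (x + m * y) / M) *
          ee L (om * emb (x + (m : OO A B) * y) / m) =
        e x * ex (β * qb b x / M) * ee L (om * emb x / m)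

/-- (EIC) the conjugate of a character is a character. PROOF. Direct (`σ` is injective, `σ 1 = 1`, `σ (-1) = -1`). -/
def Sy_EIC : Prop :=
  ∀ (A B : ℤ) (σ : ℂ ≃+* ℂ) (g : Ideal (OO A B)) (e : OO A B → ℂ), MUXF.IsEI g e →
    MUXF.IsEI g (fun x => σ (e x))

/-- (RA1) conjugation of the values `PhiI b e ∞ (β / M)`.

USES ALG, IDL, SMB, F4, BIJ, SUM, TER, PR4, EIC. MODEL: `MU3/G_F6C.lean` (`star`). PROOF. `PhiI b e ∞ r = -IvI b e r`. F4 for `b, L, om, e`: `PhiI b e ∞ (β/M)/om = N(b)/(2m) sumB b m T`, `T` the terms. `σ` of it is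
`N(b)/(2m) sumB b m (σ ∘ T)`: write `sumB` as a finite sum (`finsum_eq_sum_of_fintype`, the quotient is finite by SMB; `map_sum`). Multiply by `σ (e u)`: by (TER) and the rules SMB (second and last)
`σ (e u) σ(PhiI b e ∞ (β/M)/om) = N(b)/(2m) σ (e (N b)) sumB b m (T' ∘ f)`, `T'` the terms for `c, L', om', σ ∘ e`; `sumB b m (T' ∘ f) = sumB c m T'` by (SUM), (BIJ), (PR4), and F4 for `c, L', om', σ ∘ e` (EIC):
`PhiI c (σ ∘ e) ∞ (β/M)/om' = N(c)/(2m) sumB c m T'`. -/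
def Sy_RA1 : Prop :=
  ∀ A B : ℤ, MUXF.CQ A B → ∀ (σ : ℂ ≃+* ℂ) (m : ℕ) (a b c : Ideal (OO A B)) (L L' : PeriodPair)
    (om om' mu : ℂ) (f : OO A B → OO A B), MUXF.IsLI b L om → MUXF.IsLI c L' om' →
    ActN σ m a L L' mu → IsF b c om om' mu f → (∀ z : ℂ, z ^ m = 1 → σ z = z ^ MUXF.nI a) →
    ∀ (g : Ideal (OO A B)) (e : OO A B → ℂ), MUXF.IsEI g e → g ≠ ⊤ → m ≠ 0 →
    ((m : ℕ) : OO A B) ∈ g → ∀ M : ℕ, M ≠ 0 → M ∣ m → ∀ β : ℤ,
      MUXF.nI c * σ (e (f ((MUXF.nI b : ℕ) : OO A B))) *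
          σ (MUXF.PhiI b e ∞ (((β / M : ℚ) : ℚ) : OnePoint ℚ) / om) =
        MUXF.nI b * σ (e ((MUXF.nI b : ℕ) : OO A B)) *
          (MUXF.PhiI c (fun x => σ (e x)) ∞ (((β / M : ℚ) : ℚ) : OnePoint ℚ) / om')

/-- (RAT) conjugation of the symbol at all cusps with denominators dividing `m`: one constant `C ≠ 0`.

USES ALG, IDL, NIM, MAP, IDF, UV, RA1. PROOF. `f` (MAP), `u = f (N b)`, `C := N(b) σ(e (N b))/(N(c) σ(e u))`; `e u ≠ 0`, `e (N b) ≠ 0` by `supp`, (UV), (IDF) and the hypothesis. `PhiI b e x y = PhiI b e ∞ y - PhiI b e ∞ x`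
(unfold `PhiI`, `IcI`), `PhiI .. ∞ ∞ = 0`, and (RA1) with `M = r.den`, `β = r.num` for `x = r` (`Rat.num_div_den`). The last statement: the value of `C`, with `ζ₁ = e (N b)`, `ζ₂ = e u`. -/
def Sy_RAT : Prop :=
  ∀ A B : ℤ, MUXF.CQ A B → ∀ (σ : ℂ ≃+* ℂ) (m : ℕ) (a b c : Ideal (OO A B)) (L L' : PeriodPair)
    (om om' mu : ℂ), MUXF.IsLI b L om → MUXF.IsLI c L' om' → ActN σ m a L L' mu →
    (∀ z : ℂ, z ^ m = 1 → σ z = z ^ MUXF.nI a) →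
    ∀ (g : Ideal (OO A B)) (e : OO A B → ℂ), MUXF.IsEI g e → g ≠ ⊤ → m ≠ 0 →
    ((m : ℕ) : OO A B) ∈ g → IsCoprime (MUXF.sp ((MUXF.nI b : ℕ) : OO A B)) g →
    IsCoprime (MUXF.sp ((MUXF.nI c : ℕ) : OO A B)) g →
    ∃ C : ℂ, C ≠ 0 ∧ (∃ x₁ x₂ : OO A B, e x₁ ≠ 0 ∧ e x₂ ≠ 0 ∧
      C = MUXF.nI b * σ (e x₁) / (MUXF.nI c * σ (e x₂))) ∧
    ∀ x y : OnePoint ℚ, Dn m x → Dn m y →
      σ (MUXF.PhiI b e x y / om) = C * (MUXF.PhiI c (fun x => σ (e x)) x y / om')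

/-! ## Second part: the lattices `R.L i` -/

/-- (SAM) normalised lattices of the same class are equal.

USES Sx_ALG (by `cqF`). PROOF. `s := om emb y/(emb x om')`: `z ∈ L ↔ z = om emb t, t ∈ b`. `sp x * b = sp y * b'`: for `t ∈ b` there is `t' ∈ b'` with `x t = y t'` and conversely. So `z ∈ L'` iff `s z ∈ L`: for `z = om' emb t'`, `s z = om emb y emb t'/emb x = om emb t`.
By `Pool.Agent.MU3A.ta_SCP` (with `a = s`, from `L'` to `L`): `g₂(L) = g₂(L')/s⁴`, `g₃(L) = g₃(L')/s⁶`. `g₂ = -18 g₃` for both: `g₂(L') (s² - 1) = 0`; `g₂(L') ≠ 0` (otherwise `g₃(L') = 0`, against `b_DSC`: `g₂³ ≠ 27 g₃²`). So `s = ±1` and the lattices are equal. -/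
def Sy_SAM : Prop :=
  ∀ A B : ℤ, MUX.CQ A B → ∀ (b b' : Ideal (OO A B)) (L L' : PeriodPair) (om om' : ℂ)
    (x y : OO A B), MUX.IsNL b L om → MUX.IsNL b' L' om' → x ≠ 0 → y ≠ 0 →
    MUX.sp x * b = MUX.sp y * b' → ∀ z : ℂ, z ∈ L.lattice ↔ z ∈ L'.lattice

/-- (BRI) from `ActI` to `ActN`, and change of the target by an equal lattice.

USES Sx_ALG (by `cqF`). PROOF. `L'` and `L''` have the same lattice, so (`ta_SCP` with `a = 1`) the same `℘`, `℘'`, `g₂`, `g₃`. `cj`: `kap L' = σ (kap L)` gives `g₂(L') = σ (g₂ L)` (`σ` fixes rational numbers), and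
`g₃ = -g₂/18` for both. `isq` of `ActI` is an `IsQ`. `act`: `m z ∈ L` gives `Tor (sp m) L z` (`emb (m t) z = emb t (m z)`, `om emb (t s)`, an element of `sp m` is `m t`); `PM` with `z ∉ L`: second case; `xn = ℘ - 1/12`, `yy = ℘'/2`. -/
def Sy_BRI : Prop :=
  ∀ A B : ℤ, MUX.CQ A B → ∀ (σ : ℂ ≃+* ℂ) (m : ℕ) (a b b' : Ideal (OO A B))
    (L L' L'' : PeriodPair) (om om' mu : ℂ), MUX.IsNL b L om → MUX.IsNL b' L' om' →
    MUX.ActI σ (MUX.idl m) a L L' mu → (∀ z : ℂ, z ∈ L'.lattice ↔ z ∈ L''.lattice) →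
    ActN σ m a L L'' mu

/-- (EXI) existence of the action for the lattices `R.L i`.

USES SAM, BRI. PROOF. `σ` fixes `wC`. `TorX.act` for `idl m` (`≠ ⊥`: `m ≠ 0`) gives `a`, and for `L = R.L i` `b', L', om', mu` with `IsNL b' L' om'` and `ActI`. `TorX.zeta` with `M = m`, `m = idl m` gives the action on roots of unity.
`R.surj b'`: `j, x, y` with `sp x * b' = sp y * R.b j`: (SAM) `L'.lattice = (R.L j).lattice`, (BRI). -/
def Sy_EXI : Prop :=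
  ∀ A B : ℤ, MUX.CQ A B → MUX.TorX A B → ∀ (n : ℕ) (ι : Type) (R : MUX.Reps A B n ι)
    (σ : ℂ ≃+* ℂ), MUX.FixK A B σ → ∀ (m : ℕ), m ≠ 0 → ∀ i : ι, ∃ (j : ι) (a : Ideal (OO A B))
    (mu : ℂ), ActN σ m a (R.L i) (R.L j) mu ∧ ∀ z : ℂ, z ^ m = 1 → σ z = z ^ MUX.nI a

/-- (UNJ) the lattice `R.L j` is determined by its invariants.

USES Sx_ALG, Sx_IDL (by `cqF`), Su_DET. PROOF. (DET) `R.L j` and `R.L j'` have the same lattice, `om_j emb b_j = om_(j') emb b_(j')`. Take `0 ≠ t ∈ b_j`; `om_j emb t = om_(j') emb t'`, `t' ∈ b_(j')`, `t' ≠ 0`.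
`sp t' * b_j = sp t * b_(j')`: for `s ∈ b_j`, `om_j emb s = om_(j') emb s'`, `s' ∈ b_(j')`, so `t' s = t s'` (multiply); and conversely. `R.inj`. -/
def Sy_UNJ : Prop :=
  ∀ A B : ℤ, MUX.CQ A B → ∀ (n : ℕ) (ι : Type) (R : MUX.Reps A B n ι) (j j' : ι),
    (R.L j).g₂ = (R.L j').g₂ → (R.L j).g₃ = (R.L j').g₃ → j = j'

/-- (FIN) conjugation of `PhiI (R.b i) e / om_i` at finitely many pairs of cusps, with the value of the constant.

USES ALG, IDL, NIM (by `cqF`), RAT, EXI. PROOF. `m` = the product of all denominators of the cusps in `S` and of the norm `N(g) ∈ g` (NIM; `N(g) ≠ 0` by IDL): `m ≠ 0`, `m ∈ g`, `Dn m x` for all cusps in `S`. (EXI), then (RAT) with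
`b = R.b i`, `c = R.b j` (`liF`, `eiF`, `phiF`). -/
def Sy_FIN : Prop :=
  ∀ A B : ℤ, MUX.CQ A B → MUX.TorX A B → ∀ (n : ℕ) (ι : Type) (R : MUX.Reps A B n ι)
    (g : Ideal (OO A B)) (e : OO A B → ℂ), g ≠ ⊥ → g ≠ ⊤ → MUX.IsEI g e →
    (∀ i, IsCoprime (MUX.sp ((MUX.nI (R.b i) : ℕ) : OO A B)) g) →
    ∀ (σ : ℂ ≃+* ℂ), MUX.FixK A B σ → ∀ (i : ι) (S : Finset (OnePoint ℚ × OnePoint ℚ)),
    ∃ (j : ι) (C : ℂ), IsCj σ (R.L i) (R.L j) ∧ C ≠ 0 ∧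
      (∃ x₁ x₂ : OO A B, e x₁ ≠ 0 ∧ e x₂ ≠ 0 ∧
        C = MUX.nI (R.b i) * σ (e x₁) / (MUX.nI (R.b j) * σ (e x₂))) ∧
      ∀ q ∈ S, σ (MUX.PhiI (R.b i) e q.1 q.2 / R.om i) =
        C * (MUX.PhiI (R.b j) (fun x => σ (e x)) q.1 q.2 / R.om j)

/-- (CON) conjugation of the symbols, for all pairs of cusps at once. THE RESULT FOR THEOREM G.

USES FIN, UNJ. PROOF. `j₀` from (FIN) for `S = ∅`; every `j` of (FIN) is `j₀` (UNJ: `g₂`, `g₃` of `R.L j` are `σ` of those of `R.L i`). Write `P(q) = PhiI (R.b i) e q.1 q.2/om_i`, `P'(q) = PhiI (R.b j₀) (σ ∘ e) q.1 q.2/om_(j₀)`. If `P'(q) = 0` for all `q`: `P(q) = 0` for all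
`q` (FIN for `{q}`), `C = 1`. Otherwise choose `q₀` with `P'(q₀) ≠ 0` and `C = σ(P(q₀))/P'(q₀)`; for `q` apply (FIN) to `{q₀, q}`: its constant is `C` (from `q₀`; `C ≠ 0`). `σ(PhiI .../Om) = σ(P(q)) σ(om_i/Om)` with `Om = R.om R.i0`, and
`P'(q) = (PhiI (R.b j₀) (σ ∘ e) q.1 q.2/Om) (Om/om_(j₀))`: the constant is multiplied by `σ(om_i/Om) Om/om_(j₀) ≠ 0`. -/
def Sy_CON : Prop :=
  ∀ A B : ℤ, MUX.CQ A B → MUX.TorX A B → ∀ (n : ℕ) (ι : Type) (R : MUX.Reps A B n ι)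
    (g : Ideal (OO A B)) (e : OO A B → ℂ), g ≠ ⊥ → g ≠ ⊤ → MUX.IsEI g e →
    (∀ i, IsCoprime (MUX.sp ((MUX.nI (R.b i) : ℕ) : OO A B)) g) →
    ∀ (σ : ℂ ≃+* ℂ), MUX.FixK A B σ → ∀ i : ι, MUX.IsEI g (fun x => σ (e x)) ∧
    ∃ (j : ι) (C : ℂ), MUX.kap (R.L j) = σ (MUX.kap (R.L i)) ∧ C ≠ 0 ∧
      ∀ x y : OnePoint ℚ, σ (MUX.PhiI (R.b i) e x y / R.om R.i0) =
        C * (MUX.PhiI (R.b j) (fun x => σ (e x)) x y / R.om R.i0)

/-! ## Algebraicity -/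

/-- (MUC) conjugation of multipliers.

USES ALG (by `cqF`), Su_PHI, Su_FUN, Su_TSN, Su_CMC. PROOF. `L = om emb b`, `M = om'' emb b''`, `mu z ∈ M ↔ ∀ x ∈ a, emb x z ∈ L`; `mu L ⊆ M` (`O L ⊆ L`). `Φ : L → L'`, `Ψ : M → M'` (PHI). (FUN): `Ψ (mu z) - σ mu Φ z ∈ M'`. Let `u ∈ ℂ`, `Φ z - u ∈ L'` (`surj`).
`σ mu u ∈ M'` iff `σ mu Φ z ∈ M'` (`σ mu L' ⊆ M'`, FUN) iff `Ψ (mu z) ∈ M'` iff `mu z ∈ M` iff `emb x z ∈ L` for all `x ∈ a` iff (TSN, `emb x` is a multiplier of `L` fixed by `σ`) `emb x Φ z ∈ L'` for all `x ∈ a` iff `emb x u ∈ L'` for all `x ∈ a`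
(`emb x L' ⊆ L'`: CMC). -/
def Sy_MUC : Prop :=
  ∀ A B : ℤ, MUX.CQ A B → ∀ (σ : ℂ ≃+* ℂ), MUX.FixK A B σ →
    ∀ (a b : Ideal (OO A B)) (L M L' M' : PeriodPair) (om mu : ℂ), MUX.IsLI b L om →
    IsCj σ L L' → IsCj σ M M' → MUX.IsQ a L M mu → MUX.IsQ a L' M' (σ mu)

/-- (MUU) the multiplier is unique up to sign.

PROOF. `s = mu'/mu`: `z ∈ L'` iff (with `z = mu t`) `∀ x ∈ a, emb x t ∈ L` iff `mu' t = s z ∈ L'`. `ta_SCP` (`a = s`, from `L'` to `L'`): `g₂ = g₂/s⁴`, `g₃ = g₃/s⁶`, and `g₂ = -18 g₃`, both not `0` (`b_DSC`): `s⁴ = 1 = s⁶`, `s² = 1`. -/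
def Sy_MUU : Prop :=
  ∀ (A B : ℤ) (a : Ideal (OO A B)) (L L' : PeriodPair) (mu mu' : ℂ), L'.g₂ = -18 * L'.g₃ →
    MUX.IsQ a L L' mu → MUX.IsQ a L L' mu' → mu' = mu ∨ mu' = -mu

/-- (MUI) the multiplier of `L_(i0) → L_i`, `b_i = R.b i`: `L_i = mu_i (cjI b_i)⁻¹ L_(i0)`, `mu_i = om_i N(b_i)/om_(i0) = MUX.muX R i`.

USES ALG, IDL, NIM (by `cqF`). PROOF. `L_(i0) = Om emb O`. `z = Om t`: `mu_i z = om_i N(b_i) t`. If `mu_i z ∈ L_i`, then `N(b_i) t = emb s`, `s ∈ b_i`; for `x ∈ cjI b_i`: `emb (x s) = N(b_i) emb r` (`b_i cjI b_i = (N b_i)`), so `emb x t = emb r`. Conversely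
let `emb x t ∈ emb O` for all `x ∈ cjI b_i`. `N(b_i) = Σ s_k x_k`, `s_k ∈ b_i`, `x_k ∈ cjI b_i`, so `N(b_i) t = Σ emb s_k (emb x_k t) ∈ emb b_i` (induction over `Submodule.mul_induction_on`: for `r ∈ b_i cjI b_i`, `emb r t ∈ emb b_i`). -/
def Sy_MUI : Prop :=
  ∀ A B : ℤ, MUX.CQ A B → ∀ (n : ℕ) (ι : Type) (R : MUX.Reps A B n ι) (i : ι),
    MUX.IsQ (MUX.cjI (R.b i)) (R.L R.i0) (R.L i) (MUX.muX R i)

/-- (ALM) the multipliers are algebraic.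

USES ALG, IDL (by `cqF`), EXI (with `m = 1`: `IsCj`), MUC, MUU, MUI, Su_AUT (with `F = kk A B`, `emb`.. : `kk A B = ℚ(wC)` is algebraic over `ℚ`: `wC² = A + B wC`). PROOF. For `σ` fixing `k`: `IsCj σ (R.L R.i0) (R.L l)`, `IsCj σ (R.L i) (R.L j)` for some `l, j` (EXI), so
by (MUI), (MUC) `σ (mu_i)` is a multiplier `IsQ (cjI b_i) (R.L l) (R.L j)`; for every pair `(l, j)` it has at most two values (MUU): `ι` is finite, so the orbit of `mu_i` is finite and `mu_i` is algebraic (AUT). -/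
def Sy_ALM : Prop :=
  ∀ A B : ℤ, MUX.CQ A B → MUX.TorX A B → ∀ (n : ℕ) (ι : Type) (_ : Finite ι)
    (R : MUX.Reps A B n ι) (i : ι),
    IsAlgebraic ℚ (MUX.muX R i) ∧ IsAlgebraic ℚ (R.om i / R.om R.i0)

/-- (FEC) finitely many conjugates of a character.

PROOF. Every value of `e` is `0` or a root of unity of order dividing `r`; `{z : z = 0 ∨ z^r = 1}` is a finite set `Z` (`r ≠ 0`; roots of a polynomial), stable under `σ`. `σ ∘ e = (σ|Z) ∘ e`; the functions `Z → Z` are finite in number. -/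
def Sy_FEC : Prop :=
  ∀ (A B : ℤ) (e : OO A B → ℂ) (r : ℕ), r ≠ 0 → (∀ x, e x ≠ 0 → e x ^ r = 1) →
    {e' : OO A B → ℂ | ∃ σ : ℂ ≃+* ℂ, e' = fun x => σ (e x)}.Finite ∧
    {z : ℂ | ∃ (σ : ℂ ≃+* ℂ) (x : OO A B), z = σ (e x)}.Finite

/-- (ALP) the values of the symbols are algebraic. THE SECOND RESULT.

USES FIN, FEC, ALM, Su_AUT. PROOF. `P = PhiI (R.b i) e x y/om_i`. By (FIN) for `S = {(x, y)}` every conjugate `σ P`, `σ` fixing `k`, is `(N(b_i) z₁/(N(b_j) z₂)) (PhiI (R.b j) e' x y/om_j)`, `j ∈ ι` (finite), `e'`, `z₁`, `z₂` in the finite sets of (FEC): the orbit is finite, `P` is algebraic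
(AUT with `F = kk A B`; `σ` fixes `kk A B` iff it fixes `wC`). Multiply by `om_i/Om` (ALM). -/
def Sy_ALP : Prop :=
  ∀ A B : ℤ, MUX.CQ A B → MUX.TorX A B → ∀ (n : ℕ) (ι : Type) (_ : Finite ι)
    (R : MUX.Reps A B n ι) (g : Ideal (OO A B)) (e : OO A B → ℂ), g ≠ ⊥ → g ≠ ⊤ →
    MUX.IsEI g e → (∀ i, IsCoprime (MUX.sp ((MUX.nI (R.b i) : ℕ) : OO A B)) g) →
    ∀ r : ℕ, r ≠ 0 → (∀ x, e x ≠ 0 → e x ^ r = 1) → ∀ (i : ι) (x y : OnePoint ℚ),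
    IsAlgebraic ℚ (MUX.PhiI (R.b i) e x y / R.om i) ∧
      IsAlgebraic ℚ (MUX.PhiI (R.b i) e x y / R.om R.i0)

/-- (COP) the norms of the `b_i` are prime to the conductor, from `R : Reps A B n ι`.

PROOF. `nI (R.b i)` is prime to `n`, so to `n^t`: `u nI + v n^t = 1` in `ℤ`, and `n^t ∈ g`. -/
def Sy_COP : Prop :=
  ∀ (A B : ℤ) (n : ℕ) (ι : Type) (R : MUX.Reps A B n ι) (g : Ideal (OO A B)) (t : ℕ),
    ((n : ℕ) : OO A B) ^ t ∈ g → ∀ i, IsCoprime (MUX.sp ((MUX.nI (R.b i) : ℕ) : OO A B)) g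

end

end Pool.Agent.MUXY
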