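import Pool.Agent.MUX.XLib
import Pool.Agent.MUX.StU
import Pool.Agent.MUX.StWX
import Pool.Agent.MUX.StYX
import Pool.Agent.MUX.StXE

/-!
# MUX, block XC (helper51): the main theorem of complex multiplication, `TorX A B`

`O = OO A B`, `CQ A B` throughout. `XLib.lean` (namespace `Pool.Agent.MUX`) contains, WITHOUT hypotheses: `emb_mul`, `emb_add`, ..,
`emb_inj`, `emb_ne_zero`, `nm_mul`, `norm_sq_emb`, `isDomain`; ideals: `mul_cjI` (`b * cjI b = sp (nI b)`), `nI_ne_zero`, `nI_mul`,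
`mul_ne_bot`, `nI_mem` (`nI b ∈ b`), `cjI_ne_bot`, `mul_le_mul_iff` and `mul_cancel` (cancellation of a nonzero ideal), `finite_quot`;
lattices: `HasCM A B L`, `IsLI.hasCM`, `exists_isLI`, `Tor.of_mem`, `Tor.add`, `Tor.neg`, `Tor.mono`, `Tor.mul_emb`, `tor_top`,
`tor_span`, `tor_coprime` (a point killed by two coprime ideals is in `L`). Block U is in `UAll.lean` (`u_X : Su_X`), block B of MU3 in
`MU3/BAll.lean` (`b_X : St_X`), scaling is `Pool.Agent.MU3A.ta_SCP` (`MU3/A_SCP.lean`): these may be used directly.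

Every `def Sc_X : Prop` is the statement of a module which proves `theorem tc_X (h : ..) .. : Sc_X` in `Pool/Agent/MUX/C_X.lean`, namespace
`Pool.Agent.MUXC`; the hypotheses are the statements named under USES (fewer is fine). `Sxe_RNG` (StXE) is: `O` is a Dedekind domain etc.
Notation: `L[m] = {z : Tor m L z}`; `z ≡ z'` (mod `L`) means `z - z' ∈ L.lattice`; `a⁻¹L = {z : Tor a L z}`.
-/

set_option autoImplicit false

open Polynomial NumberField IsDedekindDomain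

namespace Pool.Agent.MUXC

open _root_.MU3 Pool.Agent.MU3A Pool.Agent.MU3B Pool.Agent.MUX Pool.Agent.MUXU Pool.Agent.RI
open Pool.Agent.MUXE (NL Sxe_RNG)

noncomputable section

/-! ## Ideals -/

/-- (CLF) finitely many classes of ideals.

PROOF. Let `c ≠ ⊥`, `N = nI c`, `r` = the integer part of `√N`. The `(r+1)²  > N` elements `u + v w`, `0 ≤ u, v ≤ r`, cannot be pairwise incongruent modulo
`cjI c` (`nI (cjI c) = N`): the difference of two of them is `0 ≠ y ∈ cjI c`, `nm y ≤ r² (1 + |B| + |A|) ≤ C N`, `C = 1 + |B| + |A|`. `a := {t : N t ∈ sp y * c}`: since `sp y * c ≤ cjI c * c = sp N`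
one has `sp y * c = sp N * a` (a multiple of the ideal `sp N`), and norms: `nm y N = N² nI a`, so `1 ≤ nI a ≤ C`, and `nI a ∈ a` (`nI_mem`), so `C! ∈ a`. The ideals which contain the integer `M = C! ≠ 0` are finitely many
(they correspond to ideals of the finite ring `O/(M)`: `Ideal.comap` of `Ideal.Quotient.mk` is injective on ideals and `a = comap (map a)`; `Finite (Ideal (O ⧸ sp M))`). `S` = those which are `≠ ⊥`. -/
def Sc_CLF : Prop :=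
  ∀ A B : ℤ, CQ A B → ∃ S : Finset (Ideal (OO A B)), (∀ b ∈ S, b ≠ ⊥) ∧
    ∀ c : Ideal (OO A B), c ≠ ⊥ → ∃ b ∈ S, ∃ x y : OO A B, x ≠ 0 ∧ y ≠ 0 ∧ sp x * c = sp y * b

/-- (COP) every class contains an integral ideal prime to `m`.

USES Sxe_RNG. PROOF. `O` is a Dedekind domain: `IsDedekindDomain.exists_sup_span_eq` (Mathlib, `DedekindDomain/Factorization.lean`) with `I = m * cjI c ≤ J = cjI c`, `I ≠ 0`: `y ∈ J` with `I ⊔ span {y} = J`. We may take `y ≠ 0`: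
if `y = 0` then `m * cjI c = cjI c`, so `m = ⊤` and `a = c` works (with `x = y = 1`, `IsCoprime c ⊤`). As `sp y ≤ cjI c`, `sp y * c ≤ cjI c * c = sp N`, `N = nI c`, so `sp y * c = sp N * a` with the ideal `a = {t : N t ∈ sp y * c}`. Multiply by `cjI c`:
`sp y * sp N = sp N * (a * cjI c)`, so `sp y = a * cjI c`. `m * cjI c ⊔ a * cjI c = cjI c` gives (`Ideal.sup_mul`, cancellation) `m ⊔ a = ⊤`. -/
def Sc_COP : Prop :=
  ∀ A B : ℤ, CQ A B → ∀ c m : Ideal (OO A B), c ≠ ⊥ → m ≠ ⊥ →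
    ∃ (a : Ideal (OO A B)) (x y : OO A B), a ≠ ⊥ ∧ IsCoprime a m ∧ x ≠ 0 ∧ y ≠ 0 ∧
      sp x * c = sp y * a

/-! ## Lattices and ideals -/

/-- (TRO) the lattice `a⁻¹ L`.

PROOF. `L = om b`. (→) `nI a ∈ a`, so `nI a * z = om emb t`, `t ∈ b`, and for `x ∈ a`: `emb x z = om emb β`, `β ∈ b`, so `x t = nI a β`: `a * sp t ≤ sp (nI a) * b = a * (cjI a * b)`, cancel `a`: `t ∈ cjI a * b`. (←) `x ∈ a`, `t ∈ cjI a * b`: `x t ∈ a * cjI a * b = sp (nI a) * b`,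
`x t = nI a β`, `emb x z = om emb β`. -/
def Sc_TRO : Prop :=
  ∀ A B : ℤ, CQ A B → ∀ (b : Ideal (OO A B)) (L : PeriodPair) (om : ℂ), IsLI b L om →
    ∀ a : Ideal (OO A B), a ≠ ⊥ → ∀ z : ℂ,
      Tor a L z ↔ ∃ t ∈ cjI a * b, z = om * emb t / nI a

/-- (GEN) `L[m]/L` is cyclic, isomorphic to `O/m`.

USES TRO, Sxe_RNG. PROOF. `J = cjI m * b`, `I = m * J = sp (nI m) * b ≤ J`, `I ≠ ⊥`: `IsDedekindDomain.exists_sup_span_eq`: `s ∈ J`, `I ⊔ span {s} = J`. `u := om emb s/nI m` (TRO). `emb x u ∈ L` iff `x s ∈ sp (nI m) * b = m * J` (elements `nI m β`, `β ∈ b`); if `x ∈ m` this holds (`s ∈ J`); conversely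
`sp x * J = sp x * I ⊔ sp x * sp s ≤ m * J` (`I = m J` and `sp x * I ≤ m * J`), cancel `J`: `x ∈ m`. `z ∈ L[m]`: `z = om emb t/nI m`, `t ∈ J = I ⊔ span {s}`: `t = nI m β + x s`, `β ∈ b`, so `z = om emb β + emb x u`. -/
def Sc_GEN : Prop :=
  ∀ A B : ℤ, CQ A B → ∀ (b m : Ideal (OO A B)) (L : PeriodPair) (om : ℂ), IsLI b L om → m ≠ ⊥ →
    ∃ u : ℂ, Tor m L u ∧ (∀ x : OO A B, emb x * u ∈ L.lattice ↔ x ∈ m) ∧
      ∀ z : ℂ, Tor m L z → ∃ x : OO A B, z - emb x * u ∈ L.lattice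

/-- (ENO) the multipliers of `L` are the elements of `O`.

PROOF. `0 ≠ β ∈ b`; `c om emb β ∈ L`, so `c emb β = emb β'`, `β' ∈ b`. For `t ∈ b`: `c emb t = emb t'`, `t' ∈ b`, `β' t = β t'`. So `b * sp β' ≤ b * sp β`, cancel: `β' = x β`, `c = emb x`. -/
def Sc_ENO : Prop :=
  ∀ A B : ℤ, CQ A B → ∀ (b : Ideal (OO A B)) (L : PeriodPair) (om : ℂ), IsLI b L om →
    ∀ c : ℂ, (∀ z ∈ L.lattice, c * z ∈ L.lattice) → ∃ x : OO A B, c = emb x

/-- (INV) `a` is recovered from `a⁻¹ L`.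

USES TRO. PROOF. For `t ∈ cjI a * b`: `z = om emb t/nI a` is in `a⁻¹ L` (TRO), so `emb y z ∈ L`, `y t = nI a β`, `β ∈ b`: `sp y * (cjI a * b) ≤ sp (nI a) * b = a * (cjI a * b)`; cancel. -/
def Sc_INV : Prop :=
  ∀ A B : ℤ, CQ A B → ∀ (b : Ideal (OO A B)) (L : PeriodPair) (om : ℂ), IsLI b L om →
    ∀ a : Ideal (OO A B), a ≠ ⊥ → ∀ y : OO A B,
      (∀ z : ℂ, Tor a L z → emb y * z ∈ L.lattice) → y ∈ a

/-- (QCR) from an identity of ideals to lattices.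

USES TRO. PROOF. `mu = om' emb u/(om emb v) ≠ 0`. (→) `mu z = om' emb y`, `y ∈ b'`: `z = om emb (v y)/emb u`. For `x ∈ a`: `v (x y) ∈ sp v * (a * b') = sp u * b`, so `v x y = u β`, `β ∈ b`, `emb x z = om emb β`. (←) (TRO): `z = om emb t/nI a`, `t ∈ cjI a * b`:
`u t ∈ cjI a * (sp u * b) = cjI a * (sp v * (a * b')) = sp v * (sp (nI a) * b')`, so `u t = v nI a y`, `y ∈ b'`, and `mu z = om' emb y`. -/
def Sc_QCR : Prop :=
  ∀ A B : ℤ, CQ A B → ∀ (a b b' : Ideal (OO A B)) (L L' : PeriodPair) (om om' : ℂ),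
    IsLI b L om → IsLI b' L' om' → a ≠ ⊥ → ∀ u v : OO A B, u ≠ 0 → v ≠ 0 →
    sp u * b = sp v * (a * b') → IsQ a L L' (om' * emb u / (om * emb v))

/-- (QEX) any two lattices are related by an ideal prime to `m`.

USES COP, QCR. PROOF. (COP) for `c = b * cjI b'`: `sp x * (b * cjI b') = sp y * a`, `a` prime to `m`. Multiply by `b'`: `sp (x nI b') * b = sp y * (a * b')`. (QCR). -/
def Sc_QEX : Prop :=
  ∀ A B : ℤ, CQ A B → ∀ (b b' m : Ideal (OO A B)) (L L' : PeriodPair) (om om' : ℂ),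
    IsLI b L om → IsLI b' L' om' → m ≠ ⊥ →
    ∃ (a : Ideal (OO A B)) (mu : ℂ), a ≠ ⊥ ∧ IsCoprime a m ∧ IsQ a L L' mu

/-- (QNE) `IsQ a L L' mu` forces `a ≠ ⊥`; `mu L ⊆ L'`; `L'` has multiplication by `O`; and `L' = mu a⁻¹ L` for `L = om b` belongs to a class.

PROOF. `a = ⊥`: all `z` have `emb 0 z = 0 ∈ L`, so every complex number is in `L'.lattice`: but it is countable (or: `L'.ω₁/2 ∉ L'.lattice`). `z ∈ L`, `x ∈ a`: `emb x z ∈ L`, so `mu z ∈ L'`. Third: `z' = mu z ∈ L'`, `emb x (emb y z) = emb y (emb x z)`. -/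
def Sc_QNE : Prop :=
  ∀ (A B : ℤ), CQ A B → ∀ (a : Ideal (OO A B)) (L L' : PeriodPair) (mu : ℂ), HasCM A B L →
    IsQ a L L' mu → a ≠ ⊥ ∧ Isg L L' mu ∧ HasCM A B L'

/-- (ISL) every lattice with multiplication by `O` belongs to an ideal.

PROOF. `w = wC`. `w ω₁ = p ω₁ + q ω₂` with integers, `q ≠ 0` (`w` is not real: `wC_im_pos`). `q (i ω₁ + j ω₂) = (q i - j p + j w) ω₁`. So with `om = ω₁/q` every `z ∈ L` is `om emb x`, `x = ⟨q i - j p, j⟩`. `b := {x : om emb x ∈ L}` is an ideal, `q ∈ b`. -/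
def Sc_ISL : Prop :=
  ∀ A B : ℤ, CQ A B → ∀ L : PeriodPair, HasCM A B L →
    ∃ (b : Ideal (OO A B)) (om : ℂ), IsLI b L om

/-- (SGQ) normalised lattices of the form `mu a⁻¹ L` are unique, `mu` up to sign.

PROOF. `s = mu''/mu`: `z ∈ L'` iff (`z = mu t`, `t ∈ a⁻¹L`) `s z = mu'' t ∈ L''`. `ta_SCP` (`a = s`, from `L'` to `L''`): `g₂(L'') = g₂(L')/s⁴`, `g₃(L'') = g₃(L')/s⁶` (and `℘_(L'')(s z) = ℘_(L')(z)/s²`). `g₂ = -18 g₃` for both and `g₂ ≠ 0` (`b_DSC`): `s² = 1`. -/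
def Sc_SGQ : Prop :=
  ∀ (A B : ℤ) (a : Ideal (OO A B)) (L L' L'' : PeriodPair) (mu mu'' : ℂ), IsQ a L L' mu →
    IsQ a L L'' mu'' → L'.g₂ = -18 * L'.g₃ → L''.g₂ = -18 * L''.g₃ →
    (mu'' = mu ∨ mu'' = -mu) ∧ (∀ z, z ∈ L'.lattice ↔ z ∈ L''.lattice) ∧ kap L' = kap L'' ∧
      ∀ z, xn L' (mu * z) = xn L'' (mu'' * z)

/-! ## Conjugation -/

/-- (CJN) conjugates of normalised lattices.

USES Su_CJE, Su_PHI, Su_CMC, Su_DET, ISL. PROOF. `σ (emb x) = emb x` (`FixK`, integers are fixed). First part: `L'` from (CJE), `Φ` from (PHI), (CMC) with `a = emb x` (`emb x L ⊆ L`): `emb x L' ⊆ L'`, (ISL). `g₂(L') = σ g₂ = -18 σ g₃ = -18 g₃(L')`; `kap L' = (12 g₂(L') - 1)/1728 = σ (kap L)`.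
Second part: `g₂(L') = (1728 kap L' + 1)/12 = σ g₂(L)`, `g₃(L') = -g₂(L')/18 = σ (g₃ L)`. Third part: `g₂`, `g₃` are determined by `kap` (normalised); (DET); `xn`, `yy` depend only on `L.lattice`: `ta_SCP` with `a = 1`. -/
def Sc_CJN : Prop :=
  ∀ A B : ℤ, CQ A B →
    (∀ (σ : ℂ ≃+* ℂ), FixK A B σ → ∀ (b : Ideal (OO A B)) (L : PeriodPair) (om : ℂ), IsNL b L om →
      (∀ x : OO A B, σ (emb x) = emb x) ∧
      ∃ (b' : Ideal (OO A B)) (L' : PeriodPair) (om' : ℂ), IsNL b' L' om' ∧ IsCj σ L L' ∧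
        kap L' = σ (kap L)) ∧
    (∀ (σ : ℂ ≃+* ℂ) (L L' : PeriodPair), L.g₂ = -18 * L.g₃ → L'.g₂ = -18 * L'.g₃ →
      kap L' = σ (kap L) → IsCj σ L L') ∧
    ∀ (L L' : PeriodPair), L.g₂ = -18 * L.g₃ → L'.g₂ = -18 * L'.g₃ → kap L = kap L' →
      (∀ z, z ∈ L.lattice ↔ z ∈ L'.lattice) ∧ ∀ z, xn L z = xn L' z ∧ yy L z = yy L' z

/-- (PMF) `PM` in terms of `Φ`.

USES Su_EQP. PROOF. `Φ z ∈ L'` iff `z ∈ L`. If `z ∈ L`: both sides say `z' ∈ L'`. Let `z ∉ L`, `Φ z ∉ L'`. (→) `z' ∉ L'`, `xn L' z' = σ (xn L z) = xn L' (Φ z)`, the same for `yy`; (EQP). (←) `z' ∉ L'`, periodicity of `℘`, `℘'`. -/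
def Sc_PMF : Prop :=
  ∀ (σ : ℂ ≃+* ℂ) (L L' : PeriodPair) (Φ : ℂ → ℂ), IsPhi σ L L' Φ → ∀ z z' : ℂ,
    PM σ L L' z z' ↔ Φ z - z' ∈ L'.lattice

/-- (PHM) `Φ` and the action of `O`; `L[m]` is mapped to `L'[m]`.

USES Su_CMC, Su_TSN, CJN. PROOF. `emb x` is a multiplier of `L`, fixed by `σ`: (CMC): `Φ (emb x z) ≡ emb x Φ z`; (TSN). `Φ` is a homomorphism modulo `L'`: `Φ(z - z') ≡ Φ z - Φ z'` (apply `add` to `z - z'` and `z'`), so `z ≡ z'` iff `Φ z ≡ Φ z'` (`mem`). -/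
def Sc_PHM : Prop :=
  ∀ A B : ℤ, CQ A B → ∀ (σ : ℂ ≃+* ℂ), FixK A B σ → ∀ (b : Ideal (OO A B)) (L L' : PeriodPair)
    (om : ℂ), IsLI b L om → IsCj σ L L' → ∀ Φ : ℂ → ℂ, IsPhi σ L L' Φ →
    (∀ (x : OO A B) (z : ℂ), Φ (emb x * z) - emb x * Φ z ∈ L'.lattice) ∧
    (∀ (m : Ideal (OO A B)) (z : ℂ), Tor m L' (Φ z) ↔ Tor m L z) ∧
    (∀ z z' : ℂ, Φ z - Φ z' ∈ L'.lattice ↔ z - z' ∈ L.lattice) ∧
    (∀ z z' : ℂ, Φ (z - z') - (Φ z - Φ z') ∈ L'.lattice)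

/-- (EXA) existence of the ideal, for one lattice (PAPER_X (1.2)).

USES QEX, QNE, GEN, CJN, PMF, PHM, Su_PHI. PROOF. (QEX): `a₀` prime to `m` and `mu₀` with `IsQ a₀ L L' mu₀`; `mu₀ L ⊆ L'`. (GEN): `u` for `L`, `m`. `Φ` (PHI; `IsCj` by CJN). Claim: every `z' ∈ L'[m]` is `≡ emb x mu₀ u` for some `x`: `z' = mu₀ z`, `m z' ⊆ L'` means `a₀ m z ⊆ L`; `1 = α + β`, `α ∈ a₀`, `β ∈ m`
(`Ideal.isCoprime_iff_exists`); `emb α z ∈ L[m]`, so `emb α z ≡ emb x u` (mod `L`), `mu₀ emb α z ≡ emb x mu₀ u` (mod `L'`), and `emb β mu₀ z = emb β z' ∈ L'`. `Φ u ∈ L'[m]` (PHM), so `Φ u ≡ emb c mu₀ u`, `c ∈ O`. `c` is prime to `m`: `x c ∈ m` implies `emb (x c) u ∈ L`, `emb x emb c mu₀ u ∈ L'`, `emb x Φ u ∈ L'`,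
`Φ(emb x u) ∈ L'`, `emb x u ∈ L`, `x ∈ m`; so multiplication by `c` is injective on the finite ring `O/m`, hence surjective: `IsCoprime (sp c) m`. If `c = 0` then `m = ⊤` and we replace `c` by `1` (everything in `L[m]` is in `L`). `a := sp c * a₀`, `mu := emb c mu₀`. `IsQ`: `mu z ∈ L'` iff `mu₀ (emb c z) ∈ L'` iff `emb x emb c z ∈ L`
for all `x ∈ a₀` iff `z ∈ a⁻¹ L` (elements of `sp c * a₀` are `c x`). `act`: `z ∈ L[m]`, `z ≡ emb x u`; `Φ z ≡ Φ (emb x u) ≡ emb x Φ u ≡ emb x emb c mu₀ u ≡ mu z` (`mu (z - emb x u) ∈ mu L ⊆ L'`); (PMF). -/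
def Sc_EXA : Prop :=
  ∀ A B : ℤ, CQ A B → ∀ (σ : ℂ ≃+* ℂ), FixK A B σ → ∀ (m b b' : Ideal (OO A B))
    (L L' : PeriodPair) (om om' : ℂ), m ≠ ⊥ → IsNL b L om → IsNL b' L' om' →
    kap L' = σ (kap L) → ∃ (a : Ideal (OO A B)) (mu : ℂ), ActI σ m a L L' mu

/-- (IND) the ideal does not depend on the lattice (PAPER_X (1.3)).

USES QEX, QNE, CJN, PMF, PHM, Su_PHI, Su_FUN, Sy_MUC. PROOF. (QEX): `c` prime to `m`, `ν ≠ 0` with `IsQ c L M ν`. `IsCj σ L L'`, `IsCj σ M M'` (CJN), so (MUC) `IsQ c L' M' (σ ν)`. Let `nu = mu σ(ν)/ν`. `IsQ a M M' nu`: `nu z ∈ M'` iff `σ(ν) (mu z/ν) ∈ M'` iff `emb y mu (z/ν) ∈ L'` for all `y ∈ c` iff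
`emb x emb y (z/ν) ∈ L` for all `y ∈ c`, `x ∈ a`, iff `emb x z = ν (emb x z/ν) ∈ M` for all `x ∈ a`. `act`: `Φ`, `Ψ` for `L → L'`, `M → M'` (PHI). Let `z ∈ M[m]`, `1 = γ + β`, `γ ∈ c`, `β ∈ m`; `w := emb γ z/ν`: `w ∈ L[m]` (`x ∈ m`: `emb x z ∈ M`, so `emb γ (emb x z/ν) ∈ L` as `ν (emb x z/ν) ∈ M`). `z - ν w = emb β z ∈ M`. (FUN) for `L → M`,
multiplier `ν`: `Ψ(ν w) ≡ σ(ν) Φ w` (mod `M'`). `Φ w ≡ mu w` (mod `L'`; PMF, `ActI.act`), `σ(ν) L' ⊆ M'`: `Ψ z ≡ Ψ(ν w) ≡ σ(ν) mu w = nu (ν w) ≡ nu z` (mod `M'`; `nu M ⊆ M'`). (PMF). -/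
def Sc_IND : Prop :=
  ∀ A B : ℤ, CQ A B → ∀ (σ : ℂ ≃+* ℂ), FixK A B σ → ∀ (m a b b' c c' : Ideal (OO A B))
    (L L' M M' : PeriodPair) (om om' omm omm' mu : ℂ), m ≠ ⊥ → IsNL b L om → IsNL b' L' om' →
    IsNL c M omm → IsNL c' M' omm' → ActI σ m a L L' mu → kap M' = σ (kap M) →
    ∃ nu : ℂ, ActI σ m a M M' nu

/-- (ACT) the field `act` of `TorX`.

USES CJN, EXA, IND. PROOF. If there is no normalised lattice take `a = ⊤`. Otherwise take one, `L₀`, (CJN), (EXA): `a`; for every other one (CJN), (IND). -/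
def Sc_ACT : Prop :=
  ∀ A B : ℤ, CQ A B → ∀ m : Ideal (OO A B), m ≠ ⊥ → ∀ σ : ℂ ≃+* ℂ, FixK A B σ →
    ∃ a : Ideal (OO A B), IsCoprime a m ∧ ∀ (b : Ideal (OO A B)) (L : PeriodPair) (om : ℂ),
      IsNL b L om → ∃ (b' : Ideal (OO A B)) (L' : PeriodPair) (om' mu : ℂ), IsNL b' L' om' ∧
        ActI σ m a L L' mu

/-- (CMP) the field `comp` of `TorX` (PAPER_X (1.4)).

PROOF. `kap`: clear. `cop`: `IsCoprime.mul_left`. `isq`: `nu mu z ∈ L''` iff `emb y mu z ∈ L'` for all `y ∈ b` iff `emb x emb y z ∈ L` for all `x ∈ a`, `y ∈ b`, iff (`Submodule.mul_induction_on`; sums) `emb t z ∈ L` for all `t ∈ a * b`. `act`: `z ∈ L[m]`: `PM σ L L' z (mu z)`. `mu z ∈ L'[m]`: for `y ∈ m`, `x ∈ a`: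
`emb x (emb y z) = emb (x y) z ∈ L`. So `PM τ L' L'' (mu z) (nu mu z)`; compose (cases). -/
def Sc_CMP : Prop :=
  ∀ A B : ℤ, CQ A B → ∀ (m a b : Ideal (OO A B)) (σ τ : ℂ ≃+* ℂ) (L L' L'' : PeriodPair)
    (mu nu : ℂ), ActI σ m a L L' mu → ActI τ m b L' L'' nu →
    ActI (σ.trans τ) m (a * b) L L'' (nu * mu)

/-- (CHG) the field `chg` of `TorX` (PAPER_X (1.5)).

PROOF. `isq`: for `α ∈ a` there is `α' ∈ a'` with `x α = y α'`, and conversely; `(mu x/y) z ∈ L'` iff `emb α (x/y) z ∈ L` for all `α ∈ a` iff `emb α' z ∈ L` for all `α' ∈ a'`. `act`: `z ∈ L[m]`. Let `t = (x/y) z - z = (x - y)/y z`. For `α ∈ a`: (i) `emb y (emb α t) = emb α (emb (x - y) z) ∈ L`; (ii) `emb α t = emb α' z - emb α z ∈ L[m]`.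
`sp y` is prime to `m` (`y ≡ x` modulo `m`), so (`tor_coprime`) `emb α t ∈ L` for all `α ∈ a`, i.e. `mu t ∈ L'`, so `(mu x/y) z ≡ mu z` (mod `L'`). `PM σ L L' z (mu z)` implies `PM σ L L' z (mu x/y z)` (periodicity of `xn`, `yy`). -/
def Sc_CHG : Prop :=
  ∀ A B : ℤ, CQ A B → ∀ (m a a' : Ideal (OO A B)) (σ : ℂ ≃+* ℂ) (L L' : PeriodPair) (mu : ℂ)
    (x y : OO A B), m ≠ ⊥ → IsCoprime a' m → IsCoprime (sp x) m → x ≠ 0 → y ≠ 0 → x - y ∈ m →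
    sp x * a = sp y * a' → (∃ (b : Ideal (OO A B)) (om : ℂ), IsNL b L om) → ActI σ m a L L' mu →
    ActI σ m a' L L' (mu * emb x / emb y)

/-- (UNQ) the field `uniq` of `TorX` (PAPER_X (1.5)).

USES QNE, ENO, INV, GEN, Su_EQP. PROOF. `a, a' ≠ ⊥` (QNE). `c = mu'/mu`. `1 = y + β` with `y ∈ a`, `β ∈ m`; we may take `y ≠ 0` (if `y = 0` then `m = ⊤`; take any `0 ≠ y ∈ a`). (1) For `α ∈ a`, `l ∈ L`: `mu' l ∈ L'` (QNE), `mu' l = mu (c l)`, so `emb α (c l) ∈ L`: by (ENO) `c emb α = emb α₁`, and `α₁ ∈ a'`: (INV), `z ∈ a'⁻¹ L`: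
`mu' z ∈ L'`, so `emb α (c z) ∈ L`. In the same way for `α' ∈ a'` `emb α'/c = emb α'₁` with `α'₁ ∈ a`. `x` := the element with `emb x = c emb y`. `x ≠ 0`. `x α = y α₁`: `sp x * a ≤ sp y * a'`, and `y α' = x α'₁`: equality. `mu' = mu emb x/emb y`. (2) `x - y ∈ m`: `u` from (GEN). `PM σ L L' u (mu u)`, `PM σ L L' u (mu' u)`:
`mu u - mu' u ∈ L'` (both in `L'`, or (EQP) as the coordinates agree), so `emb y (u - c u) ∈ L`, i.e. `emb (y - x) u ∈ L`, `y - x ∈ m`. (3) `sp x` is prime to `m`: `x = 1 - β + (x - y)`, so `1 ∈ sp x ⊔ m` (in the case `m = ⊤` clear). -/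
def Sc_UNQ : Prop :=
  ∀ A B : ℤ, CQ A B → ∀ (m a a' : Ideal (OO A B)) (σ : ℂ ≃+* ℂ) (L L' : PeriodPair)
    (mu mu' : ℂ), m ≠ ⊥ → (∃ (b : Ideal (OO A B)) (om : ℂ), IsNL b L om) → ActI σ m a L L' mu →
    ActI σ m a' L L' mu' →
    ∃ x y : OO A B, IsCoprime (sp x) m ∧ x ≠ 0 ∧ y ≠ 0 ∧ x - y ∈ m ∧ sp x * a = sp y * a' ∧
      mu' = mu * emb x / emb y

/-- (TRV) the field `triv` of `TorX` (PAPER_X (1.6)).

USES CJN, SGQ, QNE, ENO, INV, GEN, IND. PROOF. (→) `kap L' = σ (kap L) = kap L` (`kap L ∈ RF m`), so `L'` and `L` have the same points, `xn` (CJN, third part), `IsQ a L L mu`. `mu L ⊆ L` (QNE): `mu = emb c` (ENO). `a = sp c`: `y ∈ a`: `z := l/mu`, `l ∈ L`, is in `a⁻¹ L`, so `emb y l/mu ∈ L` for all `l ∈ L`, (ENO) `emb y/emb c = emb t`, `y = c t`;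
`c ∈ a`: (INV), `z ∈ a⁻¹ L` gives `mu z ∈ L`. `u` (GEN). If `u ∈ L` then `m = ⊤`: done. Otherwise `xn L u ∈ RF m`, `xn L u = σ(xn L u) = xn L' (mu u) = xn L (emb c u)`, so (`b_NEQ`) `emb (c - 1) u ∈ L` or `emb (c + 1) u ∈ L`: `c - 1 ∈ m` or `-c - 1 ∈ m`, and `sp c = sp (-c)`.
(←) `a = sp c`, `c - 1 ∈ m`. Let `M` be any normalised lattice, `M'` its conjugate (CJN), `ActI σ m (sp c) M M' nu` (IND). `IsQ (sp c) M M (emb c)` (definition), so by (SGQ) `kap M' = kap M`, `xn M' (nu z) = xn M (emb c z)` for all `z`. So `σ (kap M) = kap M`, and for `z ∈ M[m]`, `z ∉ M`: `σ (xn M z) = xn M' (nu z) = xn M (emb c z) = xn M z`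
(`emb (c - 1) z ∈ M`). `σ` fixes `k` (`kk A B = ℚ(wC)`) and the generators of `RF m`, so it fixes `RF m` (`IntermediateField.adjoin_induction`, or `adjoin ≤` fixed field). -/
def Sc_TRV : Prop :=
  ∀ A B : ℤ, CQ A B → ∀ (m a : Ideal (OO A B)) (σ : ℂ ≃+* ℂ) (b : Ideal (OO A B))
    (L L' : PeriodPair) (om mu : ℂ), m ≠ ⊥ → FixK A B σ → IsNL b L om → ActI σ m a L L' mu →
    L'.g₂ = -18 * L'.g₃ →
    ((∀ y ∈ (RF m : IntermediateField (kk A B) ℂ), σ y = y) ↔ ∃ c : OO A B, c - 1 ∈ m ∧ a = sp c)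

/-- (NRL) `L'` is automatically normalised, if `m ≠ ⊤`.

USES GEN. PROOF. `u` from (GEN); `u ∉ L` (otherwise `1 ∈ m`). `PM σ L L' u (mu u)`: `mu u ∉ L'` and the coordinates: `g₃(L') = 4℘³ - g₂℘ - ℘'²` at `mu u` (`derivWeierstrassP_sq`), `℘_(L')(mu u) = σ(℘_L u)`, `℘'_(L')(mu u) = σ(℘'_L u)`, `g₂(L') = (1728 kap L' + 1)/12 = σ (g₂ L)`; so `g₃(L') = σ (g₃ L)`. -/
def Sc_NRL : Prop :=
  ∀ A B : ℤ, CQ A B → ∀ (m a : Ideal (OO A B)) (σ : ℂ ≃+* ℂ) (b : Ideal (OO A B))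
    (L L' : PeriodPair) (om mu : ℂ), m ≠ ⊥ → m ≠ ⊤ → IsNL b L om → ActI σ m a L L' mu →
    L'.g₂ = -18 * L'.g₃ ∧ IsCj σ L L'

/-! ## The fields `RF m` -/

/-- the generators of `RF m` -/
def genS {A B : ℤ} (m : Ideal (OO A B)) : Set ℂ :=
  {c | ∃ (b : Ideal (OO A B)) (L : PeriodPair) (om : ℂ),
    IsNL b L om ∧ (c = kap L ∨ ∃ z, Tor m L z ∧ z ∉ L.lattice ∧ c = xn L z)}

/-- (FNG) `RF m` has finitely many generators.

USES CLF, GEN, Sy_SAM. PROOF. (CLF): `S`. Every normalised lattice `L` (`IsNL b L om`) has `sp x * b = sp y * b₀`, `b₀ ∈ S`. For every `b₀ ∈ S` for which there is a normalised lattice of an ideal `b₁` with `sp x₁ * b₁ = sp y₁ * b₀` choose one, `L₁`; (SAM) (with `sp (x y₁) * b = sp (y x₁) * b₁`): `L` and `L₁` have the same points, so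
(`ta_SCP`, `a = 1`) the same `kap`, `xn`. So it is enough that for one `L` the set of the `xn L z`, `z ∈ L[m]`, is finite: `z ≡ emb x u` (GEN), and `xn L (emb x u)` depends only on the class of `x` in the finite ring `O/m` (periodicity; `emb x u ∈ L` for `x ∈ m`). -/
def Sc_FNG : Prop :=
  ∀ A B : ℤ, CQ A B → ∀ m : Ideal (OO A B), m ≠ ⊥ → (genS m).Finite

/-- (FGL) the fields `fin`, `gal` of `TorX`, and stability.

USES FNG, ACT, Su_AUT, Su_AUE. PROOF. `kk A B = ℚ(wC)` is finite over `ℚ` (`wC² = A + B wC`), and `FixK A B σ` iff `σ` is trivial on `kk A B`. (1) For `FixK A B σ`: `σ (genS m) ⊆ genS m`: (ACT): `kap L' = σ (kap L)`; `z ∈ L[m]`, `z ∉ L`: `σ (xn L z) = xn L' (mu z)`, `mu z ∉ L'`, `mu z ∈ L'[m]` (`isq`: `x ∈ a`, `y ∈ m`: `emb x emb y z ∈ L`).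
(2) `c ∈ genS m` has finitely many conjugates under the `σ` which fix `kk A B` (FNG): algebraic (AUT, `F = kk A B`). (3) `RF m = adjoin` of a finite set of algebraic numbers: finite over `kk A B`. Characteristic `0`: separable. Normal: every embedding `τ : RF m →ₐ[kk A B] ℂ` extends to `σ ∈ Aut(ℂ)` (AUE, `RF m` as a field over `ℚ` is algebraic), `FixK`, so it maps the generators into
`genS m`, so `τ.fieldRange ≤ RF m` (`IntermediateField.normal_iff_forall_fieldRange_le` as in `MU3/A_NRM.lean`). -/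
def Sc_FGL : Prop :=
  ∀ A B : ℤ, CQ A B → ∀ m : Ideal (OO A B), m ≠ ⊥ →
    FiniteDimensional (kk A B) (RF m) ∧ IsGalois (kk A B) (RF m) ∧
    ∀ σ : ℂ ≃+* ℂ, FixK A B σ → ∀ y ∈ (RF m : IntermediateField (kk A B) ℂ), σ y ∈ RF m

/-- (CMM) the field `comm` of `TorX`.

USES FGL, ACT, CMP, SGQ, Su_AUE. PROOF. Extend `σ`, `τ` to `s`, `t ∈ Aut(ℂ)` (AUE; they fix `kk A B`). (ACT): ideals `a`, `b`. For a normalised `L`: `ActI t m b L L₁ ν`, `ActI s m a L₁ L₂ mu`, so (CMP) `ActI (t.trans s) m (b * a) L L₂ (mu ν)`; and in the other order `ActI (s.trans t) m (a * b) L L₂' (ν' mu')`. `b * a = a * b`, both normalised: (SGQ) `kap L₂ = kap L₂'`,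
`xn L₂ (mu ν z) = xn L₂' (ν' mu' z)`: `s (t g) = t (s g)` for the generators `g` of `RF m`, so `σ τ = τ σ` (`AlgEquiv.ext` on `adjoin`: `IntermediateField.algHom_ext_of_eq_adjoin` or induction). -/
def Sc_CMM : Prop :=
  ∀ A B : ℤ, CQ A B → ∀ m : Ideal (OO A B), m ≠ ⊥ → ∀ σ τ : RF m ≃ₐ[kk A B] RF m,
    σ * τ = τ * σ

/-- (EXT) the fields `mono`, `ext` of `TorX`.

USES FGL, Su_AUE. PROOF. `mono`: `Tor m L z` implies `Tor m' L z` for `m' ≤ m`. `ext`: `D` is algebraic over `ℚ` (`D ≤ RF m`, finite over `kk A B`, finite over `ℚ`); (AUE) for `D` and `y ↦ (τ y : ℂ)`; `wC ∈ kk A B ≤ D` is fixed by `τ` (`algC h` is the inclusion). -/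
def Sc_EXT : Prop :=
  ∀ A B : ℤ, CQ A B → (∀ m m' : Ideal (OO A B), m' ≤ m → (RF m : IntermediateField (kk A B) ℂ) ≤ RF m') ∧
  ∀ (m : Ideal (OO A B)), m ≠ ⊥ → ∀ (D : IntermediateField ℚ ℂ) (h : kk A B ≤ D),
    (∀ y ∈ D, y ∈ (RF m : IntermediateField (kk A B) ℂ)) → letI := algC h
    ∀ τ : D ≃ₐ[kk A B] D, ∃ σ : ℂ ≃+* ℂ, FixK A B σ ∧ ExtC h τ σ

/-! ## Frobenius automorphisms -/

/-- (NEX) if one normalised lattice exists then every ideal has one.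

USES Su_DET, ENO. PROOF. `L₁` = the lattice `emb b` (`exists_isLI` with `Om = 1`). `g₂(L₁) ≠ 0`: otherwise let `ρ³ = 1`, `ρ ≠ 1`; the lattice `ρ L₁` has (`ta_SCP`) `g₂ = 0`, `g₃ = g₃(L₁)/ρ⁶ = g₃(L₁)`, so (DET) `ρ L₁ = L₁`, so (ENO) `ρ = emb x`, so `ρ L₀ ⊆ L₀` and (apply it three times) `ρ L₀ = L₀`, `g₂(L₀) = g₂(L₀)/ρ⁴`, `g₂(L₀) = 0`, so
`g₃(L₀) = 0`, against `b_DSC`. `g₃(L₁) ≠ 0`: otherwise with `i`: `g₂(i L₁) = g₂(L₁)`, `g₃(i L₁) = -g₃(L₁) = 0`, `i L₁ = L₁`, `i = emb x`, `g₃(L₀) = -g₃(L₀) = 0`, `g₂(L₀) = 0`. Let `om² = -18 g₃(L₁)/g₂(L₁)`, `om ≠ 0`; the lattice `om emb b` (`exists_isLI`) has `g₂ = g₂(L₁)/om⁴`, `g₃ = g₃(L₁)/om⁶`, so `g₂ = -18 g₃`. -/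
def Sc_NEX : Prop :=
  ∀ A B : ℤ, CQ A B → ∀ (b₀ : Ideal (OO A B)) (L₀ : PeriodPair) (om₀ : ℂ), IsNL b₀ L₀ om₀ →
    ∀ b : Ideal (OO A B), b ≠ ⊥ → ∃ (L : PeriodPair) (om : ℂ), IsNL b L om

/-- (BAD) a number `n₀` such that at all `V` where `n₀` is a unit everything is good.

USES FNG, FGL, Sq_ALU, Sx_NGR. PROOF. The set of the `kap L`, `L` normalised, is finite (`⊆ genS ⊤`); the `kap L ∈ RF ⊤` are algebraic over `ℚ` (FGL), so are `12 g₂ = 1 + 1728 kap L` and the differences. `kap L ≠ 0`, `g₂ ≠ 0`: `b_DSC`: `0 ≠ g₂³ - 27 g₃² = g₂³ - g₂²/12 = 144 kap g₂²`. `n₀` = `6 |B² + 4A|` times the product of the numbers (ALU) for the finitely many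
`kap L`, `1 + 1728 kap L` and nonzero differences `kap L - kap L'`. (A product of natural numbers of valuation `1` at `V` has all factors of valuation `1`, since all natural numbers have valuation `≤ 1`.) (NGR) gives `GRn V L` (`kp L = kap L` by definition). -/
def Sc_BAD : Prop :=
  ∀ A B : ℤ, CQ A B → ∃ n₀ : ℕ, n₀ ≠ 0 ∧ ∀ V : ValuationSubring ℂ, V.valuation (n₀ : ℂ) = 1 →
    V.valuation 2 = 1 ∧ V.valuation 3 = 1 ∧ V.valuation ((B ^ 2 + 4 * A : ℤ) : ℂ) = 1 ∧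
    (∀ (b : Ideal (OO A B)) (L : PeriodPair) (om : ℂ), IsNL b L om →
      V.valuation (kap L) = 1 ∧ V.valuation (12 * L.g₂) = 1 ∧ MUXW.GRn V L) ∧
    ∀ (b b' : Ideal (OO A B)) (L L' : PeriodPair) (om om' : ℂ), IsNL b L om → IsNL b' L' om' →
      V.valuation (kap L - kap L') < 1 → kap L = kap L'

/-- (FEX) existence of Frobenius automorphisms at a prime ideal of prime norm.

USES Sxe_RNG, `MU3` (Sv_EXT: `Pool.Agent.MU3V.v_EXT` or `tv_EXT`; Sw_LOC: `tw_LOC`). MODEL: `MU3/A_FEX.lean`. PROOF. `φ : O → 𝓞 F` (`RingE.int`). `Q 𝓞 F ≠ ⊤`: `F` is integral over `O`, lying over: `Ideal.exists_ideal_over_maximal_of_isIntegral` or: `𝓞 F` is integral over the image of `O` (every integer of `F` is integral over `ℤ`). `w` a prime of `𝓞 F` with `w ∩ O = Q`.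
`Algebra.IsInvariant (𝓞 k) (𝓞 F) Gal(F/k)`, `IsArithFrobAt.exists_of_isInvariant`, residue field of `w ∩ 𝓞 k ≅ O/Q` has `q` elements (`𝓞 k = O`): `σ` with `σ x - x^q ∈ w` for `x ∈ 𝓞 F`. `V` extends `w` (EXT, with `φ` the inclusion `F → ℂ`; `F` is a number field), (LOC): `v(σ x - x^q) < 1` for `x ∈ F ∩ V`. `OverI V Q`: `emb x ∈ V.nonunits` iff `w.valuation (emb x) < 1` iff `x ∈ w ∩ O = Q`. -/
def Sc_FEX : Prop :=
  ∀ (A B : ℤ), CQ A B → ∀ (F : IntermediateField (kk A B) ℂ) [FiniteDimensional (kk A B) F]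
    [IsGalois (kk A B) F] (Q : Ideal (OO A B)) (q : ℕ), q.Prime → Q.IsPrime → nI Q = q →
    ∃ (V : ValuationSubring ℂ) (σ : F ≃ₐ[kk A B] F), OverI V Q ∧
      ∀ x : F, (x : ℂ) ∈ V → V.valuation (((σ x : F) : ℂ) - (x : ℂ) ^ q) < 1

/-- (FRO) the Frobenius of a prime of degree one acts as this prime (PAPER_X (1.7)).

USES BAD, CJN, NEX, EXA, PMF, PHM, GEN, QCR, QNE, ISL, Sq_FRX, Sq_VQI, Su_PHI, `VX.lean` (`v_X_sub`, `mem_of_nat_mul`). PROOF. `n₀` from (BAD). `q ∣ n₀` is false, `v q < 1` (VQI; `q ∈ Q`), so `v n = 1` for all integers `n` not divisible by `q`, in particular `n₀`, `nI m`, `2`, `3`, `B² + 4A`. `Q ≠ ⊥`, `Q` is maximal (`O/Q` has `q` elements). `L` normalised, `L = om b`.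
(1) a normalised `M` with `IsQ Q L M mu`: (NEX) for the ideal `cjI Q * b`: `M = om₁ (cjI Q * b)`, and `sp q * b = Q * (cjI Q * b)` (`q = nI Q`), (QCR) with `u = q`, `v = 1`. (2) `L'` = the conjugate (CJN), `Φ`. (FRX): `v(kap M - kap L^q) < 1`; `kap L ∈ RF m ∩ V`: `v(s (kap L) - kap L^q) < 1`; so `v(kap M - kap L') < 1`, `kap M = kap L'` (BAD). So we may
replace `L'` by `M`: `kap M = s (kap L)`, `IsCj s L M`. `Φ` for `L → M` (PHI). (3) (EXA) for `L, M`: `a₀, mu₀` with `ActI s m a₀ L M mu₀`, so `Φ z ≡ mu₀ z` for `z ∈ L[m]` (PMF). Let `u` be the generator (GEN). If `u ∈ L`, `m = ⊤`, put `ε = 1`. Otherwise: `u ∉ L`, `xn L u ∈ RF m`; `nI m u ∈ L` (`nI m ∈ m`), so `u` is not in the kernel of reduction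
(`mem_of_nat_mul`), `xn L u ∈ V`, and `xn M (Φ u) = s(xn L u) ≡ (xn L u)^q ≡ xn M (mu u)` modulo the maximal ideal (FRX). `Φ u`, `mu u` are in `M[m]` and not in `M` (`Φ u ∉ M`; `mu u ∈ M` would mean `u ∈ Q⁻¹ L`, `u ∈ L[m]`, `Q` prime to `m` (`q ∤ nI m`): `u ∈ L`), `Φ u ± mu u ∈ M[m]`, killed by `nI m`: if neither `Φ u - mu u` nor `Φ u + mu u` is in the kernel of reduction
then (`v_X_sub`) `v(xn M (Φ u) - xn M (mu u)) = 1`, contradiction; so (`mem_of_nat_mul`) `Φ u ≡ ε mu u` (mod `M`), `ε = ±1`. Then for all `z ∈ L[m]`, `z ≡ emb x u`: `Φ z ≡ emb x Φ u ≡ ε mu z` (PHM; `mu L ⊆ M`). So `ActI s m Q L M (ε mu)` (`IsQ Q L M (-mu)` as `M = -M`; `act` by PMF). `Q` and `m` are coprime: `q`, `nI m` are coprime integers in `Q`, `m`. -/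
def Sc_FRO : Prop :=
  ∀ A B : ℤ, CQ A B → ∃ n₀ : ℕ, n₀ ≠ 0 ∧ ∀ m : Ideal (OO A B), m ≠ ⊥ →
    ∀ (Q : Ideal (OO A B)) (q : ℕ), q.Prime → nI Q = q → ¬ q ∣ n₀ → ¬ q ∣ nI m →
    ∀ V : ValuationSubring ℂ, OverI V Q → ∀ s : ℂ ≃+* ℂ, FixK A B s →
    (∀ x : ℂ, x ∈ (RF m : IntermediateField (kk A B) ℂ) → x ∈ V →
      V.valuation (s x - x ^ q) < 1) →
    ∀ (b : Ideal (OO A B)) (L : PeriodPair) (om : ℂ), IsNL b L om →
      ∃ (b' : Ideal (OO A B)) (L' : PeriodPair) (om' mu : ℂ), IsNL b' L' om' ∧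
        ActI s m Q L L' mu

/-! ## Representatives: products of primes of degree one -/

/-- (RP1) first step: an element of `d` without common factor with `N`.

USES Sxe_RNG. PROOF. `a, d` prime to `m`, `a * d = sp t`, `N ≠ 0` an integer in `m`. `O` is Dedekind. Let `T` be the product of the finitely many prime ideals `P ∋ N` with `t ∉ P * d`. `J := m * T * d ≠ ⊥`. `IsDedekindDomain.exists_sup_span_eq` with `sp N * J ≤ J`: `μ ∈ J` with `sp N * J ⊔ span {μ} = J`. `y := t + μ`. `y ∈ d`, `y - t = μ ∈ m * d`. Let `P ∋ N` be a prime ideal and suppose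
`y ∈ P * d`. If `t ∉ P * d` then `T ≤ P`, `μ ∈ J ≤ P * d`, so `t = y - μ ∈ P * d`, contradiction. If `t ∈ P * d`: `μ ∈ P * d`, `sp N * J ≤ P * d` (`N ∈ P`, `J ≤ d`), so `J ≤ P * d`, `m * T ≤ P` (cancel `d`), so `m ≤ P` or some prime `P' ≤ P` with `P' ∣ T`, `P' = P` (maximal; `P'≠ ⊥`), against `t ∈ P * d`; so `m ≤ P`; but
`sp t = a * d ≤ P * d` gives `a ≤ P`, and `a`, `m` are coprime: contradiction. -/
def Sc_RP1 : Prop :=
  ∀ A B : ℤ, CQ A B → ∀ (a d m : Ideal (OO A B)) (t : OO A B) (N : ℕ), m ≠ ⊥ → d ≠ ⊥ → N ≠ 0 →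
    ((N : ℕ) : OO A B) ∈ m → IsCoprime a m → IsCoprime d m → t ≠ 0 → a * d = sp t →
    ∃ y ∈ d, y - t ∈ m * d ∧ ∀ P : Ideal (OO A B), P.IsPrime → P ≠ ⊥ →
      ((N : ℕ) : OO A B) ∈ P → y ∉ P * d

/-- (RP2) second step: a primitive element.

PROOF. `d` is a free `ℤ`-module of rank two (a submodule of finite index of `O = ℤ²`), basis `e₁, e₂`. `y = α e₁ + β e₂`. We may assume `β ≠ 0` (add `N e₂` to `y` if `β = 0`). For a prime number `l ∣ N`: `l` does not divide both `α` and `β`: otherwise `y ∈ sp l * d ≤ P * d` for a prime ideal `P ∋ l` (`P ∋ N`), contradiction; this is also true for the new `y`. Let `k` be the product of the prime numbers which divide `β` and neither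
`α` nor `N`; `α' = α + N k`. A prime number `l ∣ β` does not divide `α'`: if `l ∣ α`: `l ∤ N` (by the above) and `l ∤ k`; if `l ∤ α`, `l ∣ N`: clear; if `l ∤ α`, `l ∤ N`: `l ∣ k`. So `y' = α' e₁ + β e₂` is divisible in `d` by no prime number, `y' - y = N k e₁ ∈ sp N * d`, and `y' ∉ P * d` for `P ∋ N` (`sp N * d ≤ P * d`). `y' ≠ 0`. -/
def Sc_RP2 : Prop :=
  ∀ A B : ℤ, CQ A B → ∀ (d : Ideal (OO A B)) (y : OO A B) (N : ℕ), d ≠ ⊥ → N ≠ 0 → y ∈ d →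
    (∀ P : Ideal (OO A B), P.IsPrime → P ≠ ⊥ → ((N : ℕ) : OO A B) ∈ P → y ∉ P * d) →
    ∃ y' ∈ d, y' ≠ 0 ∧ y' - y ∈ sp ((N : ℕ) : OO A B) * d ∧
      (∀ P : Ideal (OO A B), P.IsPrime → P ≠ ⊥ → ((N : ℕ) : OO A B) ∈ P → y' ∉ P * d) ∧
      ∀ l : ℕ, l.Prime → y' ∉ sp ((l : ℕ) : OO A B) * d

/-- (RP3) factorisation into primes of degree one.

USES Sxe_RNG. PROOF. Induction on `nI c` (or `UniqueFactorizationMonoid` induction). `c = ⊤`: empty list. Otherwise `c ≤ Q` for a maximal ideal `Q`, `c = Q * c'` (Dedekind: `Ideal.dvd_iff_le`), `c' ≠ ⊥`. `N ∉ Q` (`hc1`). `Q ∩ ℤ = (q)`, `q` prime, `q ∤ N`; `Q ∣ sp q`, `nI (sp q) = q²`: `nI Q = q` or `q²`; in the second case `Q = sp q` (`Q * Q' = sp q`, `nI Q' = 1`, `Q' = ⊤`), against `hc2`. The hypotheses hold for `c'`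
(`c ≤ c'`: if `c' ≤ P` then `c ≤ P`), `nI c' < nI c`. -/
def Sc_RP3 : Prop :=
  ∀ A B : ℤ, CQ A B → ∀ (N : ℕ), N ≠ 0 → ∀ c : Ideal (OO A B), c ≠ ⊥ →
    (∀ P : Ideal (OO A B), P.IsPrime → P ≠ ⊥ → ((N : ℕ) : OO A B) ∈ P → ¬ c ≤ P) →
    (∀ l : ℕ, l.Prime → ¬ c ≤ sp ((l : ℕ) : OO A B)) →
    ∃ ls : List (Ideal (OO A B)), ls.prod = c ∧ ∀ Q ∈ ls, Q.IsPrime ∧ ∃ q : ℕ, q.Prime ∧
      nI Q = q ∧ ¬ q ∣ N

/-- (REP) every class modulo `m` contains a product of primes of degree one with norm prime to `n` (PAPER_X (1.8)).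

USES COP, RP1, RP2, RP3. PROOF. (COP) for `cjI a`: `sp x₀ * cjI a = sp y₀ * d`, `d ≠ ⊥` prime to `m`. Multiply by `a`: `sp (x₀ nI a) = sp y₀ * (a * d)`; so `x₀ nI a = y₀ t` for some `t ∈ O` (the generator is in `sp y₀`), `t ≠ 0`, and `a * d = sp t` (cancel `sp y₀`). `N := n * nI m ∈ m`. (RP1), (RP2): `y ∈ d`, `y ≠ 0`, `y - t ∈ m` (`N d ≤ m`).
`sp y ≤ d`, so `sp y = c * d` (Dedekind, or `c = {x : x nI d ∈ sp y * cjI d}`). `c ≠ ⊥`. `c ≤ P` implies `y ∈ P * d`; `c ≤ sp l` implies `y ∈ sp l * d`. (RP3): `c` is a product of primes of degree one with norms not dividing `N`. `sp y * a = c * (a * d) = sp t * c`. `sp t = a * d` is prime to `m`, and so is `sp y` (`y ≡ t` modulo `m`). -/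
def Sc_REP : Prop :=
  ∀ A B : ℤ, CQ A B → ∀ (m a : Ideal (OO A B)) (n : ℕ), m ≠ ⊥ → n ≠ 0 → a ≠ ⊥ → IsCoprime a m →
    ∃ (ls : List (Ideal (OO A B))) (x y : OO A B), (∀ Q ∈ ls, Q.IsPrime ∧ ∃ q : ℕ, q.Prime ∧
      nI Q = q ∧ ¬ q ∣ n ∧ ¬ q ∣ nI m) ∧ IsCoprime (sp x) m ∧ IsCoprime (sp y) m ∧ x ≠ 0 ∧
      y ≠ 0 ∧ x - y ∈ m ∧ sp x * ls.prod = sp y * a

/-- (SUR) the field `surj` of `TorX` (PAPER_X (1.9)).

USES FRO, REP, FEX, FGL, CMP, CHG, QNE, Su_AUE. PROOF. (REP) with `n = n₀` of (FRO): list `ls`. By induction on a list `ls` of such primes there is `σ`, `FixK`, such that for every normalised `L` there are a normalised `L'` and `mu` with `ActI σ m ls.prod L L' mu`: empty list: `σ = RingEquiv.refl`, `L' = L`, `mu = 1`,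
the ideal `⊤ = 1`; step: (FEX) for `F = RF m` (finite Galois by FGL), `Q`: `V`, `φ`; extend `φ` to `s ∈ Aut(ℂ)` (AUE), `FixK`; (FRO): `ActI s m Q L L₁ mu₁`; (CMP) with the `σ` of the rest. Finally (CHG) with `x, y` of (REP) from `ls.prod` to `a`. -/
def Sc_SUR : Prop :=
  ∀ A B : ℤ, CQ A B → ∀ m : Ideal (OO A B), m ≠ ⊥ → ∀ a : Ideal (OO A B), a ≠ ⊥ →
    IsCoprime a m → ∃ σ : ℂ ≃+* ℂ, FixK A B σ ∧ ∀ (b : Ideal (OO A B)) (L : PeriodPair) (om : ℂ),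
      IsNL b L om → ∃ (b' : Ideal (OO A B)) (L' : PeriodPair) (om' mu : ℂ), IsNL b' L' om' ∧
        ActI σ m a L L' mu

/-! ## Roots of unity -/

/-- (DNX) a subgroup of the Galois group which contains the Frobenius automorphisms of almost all primes of degree one.

USES Sxe_RNG, `MU3` (Stmt_DENSF = `MU3.m_DENSF MU3.finNSP` of `MU3/AVAll.lean`, Sv_EXT, Sw_LOC). MODEL: `MU3/A_DENSF.lean`. PROOF. `𝓞 (kk A B) ≅ O` (`RingE.int`). `T` = the primes of `𝓞 k` which contain `n` (finite). For `v ∉ T` of prime norm `q`: `Q` = the corresponding ideal of `O`, prime, `nI Q = q`, `q ∤ n` (otherwise `n ∈ Q`). `w` above `v`, `σ x - x^q ∈ w` for the integers: `V` extends `w` (EXT; `w ≠ ⊥`), (LOC). -/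
def Sc_DNX : Prop :=
  ∀ (A B : ℤ), CQ A B → ∀ (F : IntermediateField (kk A B) ℂ) [FiniteDimensional (kk A B) F]
    [IsGalois (kk A B) F] (H : Subgroup (F ≃ₐ[kk A B] F)) (n : ℕ), n ≠ 0 →
      (∀ (Q : Ideal (OO A B)) (q : ℕ), q.Prime → Q.IsPrime → nI Q = q → ¬ q ∣ n →
        ∀ V : ValuationSubring ℂ, OverI V Q → ∀ σ : F ≃ₐ[kk A B] F,
        (∀ x : F, (x : ℂ) ∈ V → V.valuation (((σ x : F) : ℂ) - (x : ℂ) ^ q) < 1) → σ ∈ H) → H = ⊤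

/-- (NMC) the norm of the ideal modulo `M` depends only on the class.

PROOF. Norms: `nm x * nI a = nm y * nI a'` (`nI_mul`, `nI_sp`, `nm ≥ 0`; `a, a' ≠ ⊥`). `x - y ∈ m ≤ (M)`: `nm x ≡ nm y` modulo `M` (as `CYC.nm_cong` in `MU3/A_CYC.lean`). `sp x` is prime to `m`, so to `(M)`: `x r ≡ 1` modulo `M`, so `nm x` is prime to `M`. Cancel. -/
def Sc_NMC : Prop :=
  ∀ A B : ℤ, CQ A B → ∀ (M : ℕ) (m a a' : Ideal (OO A B)) (x y : OO A B), M ≠ 0 → m ≤ idl M →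
    a ≠ ⊥ → a' ≠ ⊥ → IsCoprime (sp x) m → x ≠ 0 → y ≠ 0 → x - y ∈ m → sp x * a = sp y * a' →
    nI a ≡ nI a' [MOD M]

/-- (ZET) the field `zeta` of `TorX` (PAPER_X (1.10)).

USES FRO, DNX, FGL, ACT, CMP, UNQ, NMC, NRL, QNE, TRV, CJN, Su_AUE, Su_AUF. MODEL: `MU3/A_CYC.lean`. PROOF. It is enough to take `z = ζ` a primitive `M`-th root of unity (the others are powers). `M = 1` is clear; `M > 1`, so `m ≠ ⊤`. For `s ∈ Aut(ℂ)`, `FixK A B s`, let `P(s)`: for all `a, b, L, L', om, mu` with `IsNL b L om`, `ActI s m a L L' mu`: `s ζ = ζ ^ nI a`. (0) For a fixed `s` it is enough to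
have it for one ideal `a` with `ActI s m a L L' mu` for all normalised `L` (given another one, `ActI s m a₂ L L₂ mu₂`: `L₂` is normalised (NRL), `kap L₂ = kap L'`, same points and coordinates (CJN), so `ActI s m a₂ L L' mu₂`; (UNQ), (NMC), `ζ^M = 1`). (1) `F₁ = RF m (ζ)`: finite Galois over `k`. `H` = the set of `φ ∈ Gal(F₁/k)` such that every extension `s ∈ Aut(ℂ)` of `φ` has
`P(s)`. It is a subgroup: if `P(s)`, `P(t)` then `P(t.trans s)` by (ACT), (CMP), (0) (norms are multiplicative); an extension of a product `φ ψ` is `s ∘ t` with `t` an extension of `ψ` (AUE) and `s := (given) ∘ t⁻¹`, an extension of `φ`; `P(id)`: the ideal is `⊤`; inverses because the group is finite (or directly). (2) Frobenius: `n := n₀ M nI m`; `Q, q, V, σ` as in (DNX), `s` an extension of `σ`: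
(FRO) gives `ActI s m Q L L' mu` for all normalised `L`, and `s ζ = ζ^i`, `v(ζ^i - ζ^q) < 1`, `q ∤ M`: `∏_(j=1)^(M-1) (1 - ζ^j) = M` has valuation `1`, so `ζ^i = ζ^q = ζ^(nI Q)`: `P(s)` by (0). (3) (DNX): `H = ⊤`, so `P(s)` for all `s`, `FixK`: the second claim. (4) `ζ ∈ RF m`: (AUF) for `F = RF m` (algebraic over `ℚ`): let `s` be trivial on `RF m`. If there is no normalised lattice then
.. this case does not occur (`IsNL b L om` is given). (ACT): `a`, `L'` normalised, `ActI s m a L L' mu`; (TRV): `a = sp c`, `c - 1 ∈ m ≤ (M)`, `nI a = nm c ≡ 1` modulo `M`; `s ζ = ζ^(nI a) = ζ`. -/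
def Sc_ZET : Prop :=
  ∀ A B : ℤ, CQ A B → ∀ (M : ℕ) (m a : Ideal (OO A B)) (σ : ℂ ≃+* ℂ) (b : Ideal (OO A B))
    (L L' : PeriodPair) (om mu : ℂ), m ≠ ⊥ → FixK A B σ → M ≠ 0 → m ≤ idl M →
    IsNL b L om → ActI σ m a L L' mu → ∀ z : ℂ, z ^ M = 1 →
      z ∈ (RF m : IntermediateField (kk A B) ℂ) ∧ σ z = z ^ nI a

/-- (TOR) the contract.

USES FGL, CMM, EXT, ACT, SUR, CMP, CHG, UNQ, TRV, ZET. PROOF. Field by field. -/
def Sc_TOR : Prop := ∀ A B : ℤ, CQ A B → TorX A B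

end

end Pool.Agent.MUXC
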