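import Pool.Agent.MUX.StQX

/-!
# MUX, block R part 2, module AEL (helper85)
-/

set_option autoImplicit false

namespace Pool.Agent.MUXV

open _root_.MU3 Pool.Agent.MU3A Pool.Agent.MU3B Pool.Agent.MUXU
open Pool.Agent.MUXF (CQ)

namespace AEL

/-- the statement for a given `x = 2 r + q s` such that `q²` does not divide `nm (x - 2 w)` -/
theorem main (hEMB : Sq_EMB) (A B : ℤ) (hC : CQ A B) (Q : Ideal (OO A B)) (q : ℕ) (hq : q.Prime)
    (r k s : ℤ) (hk : r ^ 2 - B * r - A = q * k)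
    (hmem : ∀ x : OO A B, x ∈ Q ↔ (q : ℤ) ∣ x.re + x.im * r) (x : ℤ) (hx : x = 2 * r + q * s)
    (hodd : Odd x) (hn : ¬ ((q : ℤ) ^ 2 ∣ x ^ 2 - 2 * B * x - 4 * A)) :
    ∃ (a : OO A B) (c : ℕ), a ∈ Q ∧ a ≠ 0 ∧ Odd c ∧ ¬ q ∣ c ∧ ∀ (L : PeriodPair), CMO A B L →
      ∀ z : ℂ, emb a * z ∈ L.lattice → ∀ y ∈ Q, emb y * (c * z) ∈ L.lattice := by
  obtain ⟨h1, -, -, -, h5, -, -, -, -, -, h11, h12, -⟩ := hEMB A B hC
  have hq0 : (q : ℤ) ≠ 0 := by exact_mod_cast hq.ne_zero
  have hqpos : (0 : ℤ) < q := by exact_mod_cast hq.pos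
  set a : OO A B := ⟨x, -2⟩ with ha
  have ha0 : a ≠ 0 := by
    intro h
    have h2 : a.im = 0 := by rw [h]; rfl
    rw [ha] at h2
    norm_num at h2
  have hnm : nm a = x ^ 2 - 2 * B * x - 4 * A := by
    rw [ha]
    unfold nm
    ring
  have hpos : 0 < nm a := lt_of_le_of_ne (h11 a) (fun h => ha0 ((h12 a).mp h.symm))
  have hg : x ^ 2 - 2 * B * x - 4 * A = q * (4 * k + s * (4 * r - 2 * B + q * s)) := by
    rw [hx]
    linear_combination 4 * hk
  set c' : ℤ := 4 * k + s * (4 * r - 2 * B + q * s) with hc'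
  have hc'pos : 0 < c' := by
    rw [hnm, hg] at hpos
    exact pos_of_mul_pos_right hpos hqpos.le
  obtain ⟨c, hc⟩ : ∃ c : ℕ, (c : ℤ) = c' := ⟨c'.toNat, Int.toNat_of_nonneg hc'pos.le⟩
  refine ⟨a, c, ?_, ha0, ?_, ?_, ?_⟩
  · rw [hmem, ha]
    exact ⟨s, by rw [hx]; ring⟩
  · have h2 : Odd ((q : ℤ) * c) := by
      rw [hc, ← hg]
      obtain ⟨u, hu⟩ := hodd
      refine ⟨2 * u ^ 2 + 2 * u - B * x - 2 * A, ?_⟩
      rw [hu]
      ring
    have h3 := Int.Odd.of_mul_right h2
    exact_mod_cast h3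
  · intro hd
    apply hn
    rw [hg, ← hc, pow_two]
    exact mul_dvd_mul_left _ (by exact_mod_cast hd)
  · intro L hL z hz y hy
    obtain ⟨m, hm⟩ := (hmem y).mp hy
    set t : OO A B := ⟨m * (2 * r + q * s - 2 * B) - y.im * r * s - 2 * y.im * k, 2 * m + s * y.im⟩ with ht
    have e1 : (q : ℤ) * t.re = y.re * (x - 2 * B) + 2 * A * y.im := by
      rw [ht]
      simp only
      have : y.re = q * m - y.im * r := by linarith
      rw [this, hx]
      linear_combination (2 * y.im) * hk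
    have e2 : (q : ℤ) * t.im = 2 * y.re + x * y.im := by
      rw [ht]
      simp only
      have : y.re = q * m - y.im * r := by linarith
      rw [this, hx]
      ring
    have hgc : (q : ℤ) * c = x ^ 2 - 2 * B * x - 4 * A := by
      rw [hc, hg]
    have key : y * (c : OO A B) = t * a := by
      apply QuadraticAlgebra.ext
      · have : (q : ℤ) * (y * (c : OO A B)).re = q * (t * a).re := by
          simp only [QuadraticAlgebra.re_mul, QuadraticAlgebra.re_natCast, QuadraticAlgebra.im_natCast]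
          rw [ha]
          simp only
          linear_combination y.re * hgc - x * e1 + 2 * A * e2
        exact mul_left_cancel₀ hq0 this
      · have : (q : ℤ) * (y * (c : OO A B)).im = q * (t * a).im := by
          simp only [QuadraticAlgebra.im_mul, QuadraticAlgebra.re_natCast, QuadraticAlgebra.im_natCast]
          rw [ha]
          simp only
          linear_combination y.im * hgc + 2 * e1 - (x - 2 * B) * e2
        exact mul_left_cancel₀ hq0 this
    have e3 : emb y * (c * z) = emb t * (emb a * z) := by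
      have e4 : emb y * (c : ℂ) = emb t * emb a := by
        rw [← h5 c, ← h1, ← h1, key]
      linear_combination z * e4
    rw [e3]
    exact hL t _ hz

end AEL

theorem tq_AEL (hDGI : Sq_DGI) (hEMB : Sq_EMB) : Sq_AEL := by
  intro A B hC Q q hq hq2 hdisc hcard
  obtain ⟨r, ⟨k, hk⟩, hmem⟩ := hDGI A B Q q hq hcard
  have hqodd : Odd q := hq.odd_of_ne_two hq2
  have hqoddZ : Odd (q : ℤ) := by exact_mod_cast hqodd
  have hqp : Prime (q : ℤ) := Nat.prime_iff_prime_int.mp hq
  have hq0 : (q : ℤ) ≠ 0 := hqp.ne_zero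
  have hr : ¬ (q : ℤ) ∣ 2 * r - B := by
    intro h
    apply hdisc
    have e : B ^ 2 + 4 * A = (2 * r - B) * (2 * r - B) - q * (4 * k) := by
      linear_combination -4 * hk
    rw [e]
    exact dvd_sub (Dvd.dvd.mul_right h _) (Dvd.intro _ rfl)
  by_cases h0 : (q : ℤ) ^ 2 ∣ (2 * r + q * 1) ^ 2 - 2 * B * (2 * r + q * 1) - 4 * A
  · refine AEL.main hEMB A B hC Q q hq r k 3 hk hmem (2 * r + q * 3) rfl ?_ ?_
    · exact Even.add_odd (even_two_mul r) (hqoddZ.mul (by decide))
    · intro h3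
      have h4 := dvd_sub h3 h0
      have e : ((2 * r + q * 3) ^ 2 - 2 * B * (2 * r + q * 3) - 4 * A) -
          ((2 * r + q * 1) ^ 2 - 2 * B * (2 * r + q * 1) - 4 * A) =
          (q : ℤ) * (4 * (2 * r - B)) + (q : ℤ) ^ 2 * 8 := by
        ring
      rw [e] at h4
      have h5 : (q : ℤ) ^ 2 ∣ (q : ℤ) * (4 * (2 * r - B)) := (dvd_add_left (Dvd.intro _ rfl)).mp h4
      rw [pow_two] at h5
      have h6 : (q : ℤ) ∣ 4 * (2 * r - B) := (mul_dvd_mul_iff_left hq0).mp h5
      rcases hqp.dvd_or_dvd h6 with h7 | h7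
      · have h8 : (q : ℤ) ∣ 2 := by
          have : (4 : ℤ) = 2 * 2 := by norm_num
          rw [this] at h7
          rcases hqp.dvd_or_dvd h7 with h | h <;> exact h
        have h9 : q ∣ 2 := by exact_mod_cast h8
        exact hq2 ((Nat.prime_dvd_prime_iff_eq hq Nat.prime_two).mp h9)
      · exact hr h7
  · refine AEL.main hEMB A B hC Q q hq r k 1 hk hmem (2 * r + q * 1) rfl ?_ h0
    exact Even.add_odd (even_two_mul r) (hqoddZ.mul odd_one)

end Pool.Agent.MUXV
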