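import Pool.Agent.MUX.StQX

/-!
# MUXQ_ALU: a nonzero algebraic number is a unit outside finitely many primes
-/

set_option autoImplicit false

namespace Pool.Agent.MUXV

namespace Q_ALU

/-- an element integral over `ℤ` is in `V`. -/
theorem le_of_integral {V : ValuationSubring ℂ} {x : ℂ} (hx : IsIntegral ℤ x) :
    V.valuation x ≤ 1 := by
  have h2 : IsIntegral V x := hx.tower_top
  obtain ⟨y, hy⟩ := IsIntegrallyClosed.isIntegral_iff.1 h2
  rw [V.valuation_le_one_iff, ← hy]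
  exact y.2

theorem mult {x : ℂ} (hx : IsAlgebraic ℚ x) : ∃ m : ℤ, m ≠ 0 ∧ IsIntegral ℤ ((m : ℂ) * x) := by
  have h1 : IsAlgebraic ℤ x := (IsFractionRing.isAlgebraic_iff ℤ ℚ ℂ).2 hx
  obtain ⟨y, hy, hi⟩ := h1.exists_integral_multiple
  refine ⟨y, hy, ?_⟩
  rwa [zsmul_eq_mul] at hi

end Q_ALU

open Q_ALU in
theorem tq_ALU : Sq_ALU := by
  intro x hx hx0
  obtain ⟨m₁, h₁, i₁⟩ := mult hx
  obtain ⟨m₂, h₂, i₂⟩ := mult hx.inv
  refine ⟨(m₁ * m₂).natAbs, Int.natAbs_ne_zero.2 (mul_ne_zero h₁ h₂), fun V hV => ?_⟩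
  have hint : ∀ m : ℤ, V.valuation (m : ℂ) ≤ 1 := fun m =>
    (V.valuation_le_one_iff _).2 (intCast_mem V.toSubring m)
  have hV2 : V.valuation ((m₁ : ℂ)) * V.valuation (m₂ : ℂ) = 1 := by
    rw [← map_mul]
    have e : (((m₁ * m₂).natAbs : ℕ) : ℂ) = (((m₁ * m₂).natAbs : ℤ) : ℂ) := (Int.cast_natCast _).symm
    rw [e] at hV
    rcases Int.natAbs_eq (m₁ * m₂) with h | h
    · rw [← h] at hV
      push_cast at hV
      exact hV
    · have h' : (((m₁ * m₂).natAbs : ℕ) : ℤ) = -(m₁ * m₂) := by omega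
      rw [h'] at hV
      push_cast at hV
      rwa [Valuation.map_neg] at hV
  have e1 : V.valuation (m₁ : ℂ) = 1 := by
    refine le_antisymm (hint _) ?_
    rw [← hV2]
    calc V.valuation (m₁ : ℂ) * V.valuation (m₂ : ℂ) ≤ V.valuation (m₁ : ℂ) * 1 := by
          gcongr
          exact hint _
      _ = _ := mul_one _
  have e2 : V.valuation (m₂ : ℂ) = 1 := by
    rw [e1, one_mul] at hV2
    exact hV2
  have l1 : V.valuation x ≤ 1 := by
    have := le_of_integral (V := V) i₁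
    rwa [map_mul, e1, one_mul] at this
  have l2 : V.valuation x⁻¹ ≤ 1 := by
    have := le_of_integral (V := V) i₂
    rwa [map_mul, e2, one_mul] at this
  rw [map_inv₀] at l2
  have h0 : 0 < V.valuation x := by
    rw [zero_lt_iff]
    exact (Valuation.ne_zero_iff _).2 hx0
  exact le_antisymm l1 ((inv_le_one₀ h0).1 l2)

end Pool.Agent.MUXV
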