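import Pool.Agent.MUX.StQX

/-!
# MUX, block R, part 2: (CYQ) the kernel of the isogeny is cyclic of order `q`
-/

set_option autoImplicit false

open WeierstrassCurve Polynomial

namespace Pool.Agent.MUXV

open _root_.MU3 Pool.Agent.MU3A Pool.Agent.MU3B Pool.Agent.MUXU
open Pool.Agent.MUXF (CQ)

noncomputable section

namespace CYQ

theorem int_mul_mem {L : PeriodPair} {z : ℂ} (n : ℤ) (hz : z ∈ L.lattice) :
    (n : ℂ) * z ∈ L.lattice := by
  simpa [zsmul_eq_mul] using L.lattice.smul_mem n hz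

/-- an integer prime to a prime `q` is invertible modulo `q` -/
theorem inv_mod {q : ℕ} (hq : q.Prime) {a : ℤ} (ha : ¬ (q : ℤ) ∣ a) :
    ∃ s t : ℤ, s * a = 1 + q * t := by
  have h1 : IsCoprime (q : ℤ) a :=
    (Prime.coprime_iff_not_dvd (Nat.prime_iff_prime_int.1 hq)).2 ha
  obtain ⟨x, y, h⟩ := h1
  exact ⟨y, -x, by linarith⟩

/-- multiples of a point of order `q` -/
theorem mem_iff {L : PeriodPair} {q : ℕ} (hq : q.Prime) {u : ℂ} (hu : u ∉ L.lattice)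
    (hqu : (q : ℂ) * u ∈ L.lattice) (j : ℤ) : (j : ℂ) * u ∈ L.lattice ↔ (q : ℤ) ∣ j := by
  constructor
  · intro hj
    by_contra hn
    obtain ⟨s, t, hst⟩ := inv_mod hq hn
    apply hu
    have h1 : u = (s : ℂ) * (j * u) - (t : ℂ) * (q * u) := by
      have h2 : (s : ℂ) * j = 1 + q * t := by exact_mod_cast hst
      linear_combination (-u) * h2
    rw [h1]
    exact sub_mem (int_mul_mem s hj) (int_mul_mem t hqu)
  · rintro ⟨c, rfl⟩
    have h1 : (((q : ℤ) * c : ℤ) : ℂ) * u = (c : ℂ) * (q * u) := by push_cast; ring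
    rw [h1]
    exact int_mul_mem c hqu

/-- two points of order `q`: either the second is a multiple of the first, or they generate all -/
theorem dich {L : PeriodPair} {q : ℕ} (hq : q.Prime) {u u₁ : ℂ} (hu₁ : u₁ ∉ L.lattice)
    (hqu : (q : ℂ) * u ∈ L.lattice) (hqu₁ : (q : ℂ) * u₁ ∈ L.lattice) :
    (∃ n : ℤ, u - n * u₁ ∈ L.lattice) ∨
      ∀ z : ℂ, (q : ℂ) * z ∈ L.lattice → ∃ a b : ℤ, z - a * u - b * u₁ ∈ L.lattice := by
  have hq0 : (q : ℂ) ≠ 0 := by exact_mod_cast hq.ne_zero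
  obtain ⟨a₁, b₁, h1⟩ := PeriodPair.mem_lattice.1 hqu₁
  obtain ⟨a₂, b₂, h2⟩ := PeriodPair.mem_lattice.1 hqu
  have hm : ∀ m n : ℤ, (m : ℂ) * L.ω₁ + n * L.ω₂ ∈ L.lattice := fun m n =>
    PeriodPair.mem_lattice.2 ⟨m, n, rfl⟩
  by_cases hd : (q : ℤ) ∣ a₁ * b₂ - a₂ * b₁
  · left
    obtain ⟨k, hk⟩ := hd
    have hab : ¬ ((q : ℤ) ∣ a₁ ∧ (q : ℤ) ∣ b₁) := by
      rintro ⟨⟨a, ha⟩, ⟨b, hb⟩⟩
      apply hu₁
      have h3 : u₁ = (a : ℂ) * L.ω₁ + b * L.ω₂ := by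
        apply mul_left_cancel₀ hq0
        rw [← h1, ha, hb]
        push_cast
        ring
      rw [h3]
      exact hm a b
    by_cases ha : (q : ℤ) ∣ a₁
    · have hb : ¬ (q : ℤ) ∣ b₁ := fun hb => hab ⟨ha, hb⟩
      obtain ⟨s, t, hst⟩ := inv_mod hq hb
      refine ⟨s * b₂, ?_⟩
      have h3 : u - ((s * b₂ : ℤ) : ℂ) * u₁ =
          ((-(t * a₂) - s * k : ℤ) : ℂ) * L.ω₁ + ((-(t * b₂) : ℤ) : ℂ) * L.ω₂ := by
        apply mul_left_cancel₀ hq0
        have hst' : (s : ℂ) * b₁ = 1 + q * t := by exact_mod_cast hst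
        have hk' : (a₁ : ℂ) * b₂ - a₂ * b₁ = q * k := by exact_mod_cast hk
        push_cast
        linear_combination (-1 : ℂ) * h2 + (s * b₂ : ℂ) * h1 + (-(s : ℂ) * L.ω₁) * hk' +
          (-(a₂ : ℂ) * L.ω₁ - b₂ * L.ω₂) * hst'
      rw [h3]
      exact hm _ _
    · obtain ⟨s, t, hst⟩ := inv_mod hq ha
      refine ⟨s * a₂, ?_⟩
      have h3 : u - ((s * a₂ : ℤ) : ℂ) * u₁ =
          ((-(t * a₂) : ℤ) : ℂ) * L.ω₁ + ((-(t * b₂) + s * k : ℤ) : ℂ) * L.ω₂ := by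
        apply mul_left_cancel₀ hq0
        have hst' : (s : ℂ) * a₁ = 1 + q * t := by exact_mod_cast hst
        have hk' : (a₁ : ℂ) * b₂ - a₂ * b₁ = q * k := by exact_mod_cast hk
        push_cast
        linear_combination (-1 : ℂ) * h2 + (s * a₂ : ℂ) * h1 + ((s : ℂ) * L.ω₂) * hk' +
          (-(a₂ : ℂ) * L.ω₁ - b₂ * L.ω₂) * hst'
      rw [h3]
      exact hm _ _
  · right
    obtain ⟨s, t, hst⟩ := inv_mod hq hd
    intro z hz
    obtain ⟨x, y, h3⟩ := PeriodPair.mem_lattice.1 hz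
    refine ⟨s * (y * a₁ - x * b₁), s * (x * b₂ - y * a₂), ?_⟩
    have h4 : z - ((s * (y * a₁ - x * b₁) : ℤ) : ℂ) * u - ((s * (x * b₂ - y * a₂) : ℤ) : ℂ) * u₁ =
        ((-(t * x) : ℤ) : ℂ) * L.ω₁ + ((-(t * y) : ℤ) : ℂ) * L.ω₂ := by
      apply mul_left_cancel₀ hq0
      have hst' : (s : ℂ) * (a₁ * b₂ - a₂ * b₁) = 1 + q * t := by exact_mod_cast hst
      push_cast
      linear_combination (-1 : ℂ) * h3 + (s * (y * a₁ - x * b₁) : ℂ) * h2 +
        (s * (x * b₂ - y * a₂) : ℂ) * h1 + (-(x : ℂ) * L.ω₁ - y * L.ω₂) * hst'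
    rw [h4]
    exact hm _ _

/-- `(w - t)/q` is not a multiplier, for `t = r` and for `t = B - r` -/
theorem no_mult (hT : Sq_TRC) {A B : ℤ} (hC : CQ A B) {q : ℕ} (hq : q.Prime)
    (hd : ¬ (q : ℤ) ∣ B ^ 2 + 4 * A) {r : ℤ} (hr : (q : ℤ) ∣ r ^ 2 - B * r - A)
    {L : PeriodPair} (t : ℤ) (ht : t = r ∨ t = B - r) :
    ¬ ∀ z : ℂ, (q : ℂ) * z ∈ L.lattice → (wC A B - t) * z ∈ L.lattice := by
  intro h
  have hq0 : (q : ℂ) ≠ 0 := by exact_mod_cast hq.ne_zero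
  have h1 := hT A B hC L (-t) 1 q (by exact_mod_cast hq.ne_zero) one_ne_zero (fun z hz => by
    have h2 := h (z / q) (by rwa [mul_div_cancel₀ _ hq0])
    have h3 : (((-t : ℤ) : ℂ) + ((1 : ℤ) : ℂ) * wC A B) / ((q : ℤ) : ℂ) * z =
        (wC A B - t) * (z / q) := by push_cast; ring
    rw [h3]
    exact h2)
  apply hd
  have hr' : (q : ℤ) ∣ t ^ 2 - B * t - A := by
    rcases ht with rfl | rfl
    · exact hr
    · have h2 : (B - r) ^ 2 - B * (B - r) - A = r ^ 2 - B * r - A := by ring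
      rw [h2]; exact hr
  have h2 : B ^ 2 + 4 * A = (2 * -t + 1 * B) * (2 * -t + 1 * B) - 4 * (t ^ 2 - B * t - A) := by ring
  rw [h2]
  exact dvd_sub (Dvd.dvd.mul_left h1 _) (Dvd.dvd.mul_left hr' _)

/-- the half system -/
theorem half_sys {L M : PeriodPair} {mu : ℂ} {q : ℕ} (hq : q.Prime) (hq2 : q ≠ 2) {u₁ : ℂ}
    (hu₁ : u₁ ∉ L.lattice) (hqu₁ : (q : ℂ) * u₁ ∈ L.lattice) (hm : mu * u₁ ∈ M.lattice)
    (hcyc : ∀ u : ℂ, mu * u ∈ M.lattice → ∃ n : ℤ, u - n * u₁ ∈ L.lattice) :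
    ∃ H : Finset ℂ, HalfI L M mu H ∧ 2 * H.card + 1 = q := by
  classical
  have hodd : q % 2 = 1 := by
    rcases hq.eq_two_or_odd with h | h
    · exact absurd h hq2
    · exact h
  obtain ⟨k, hk⟩ : ∃ k : ℕ, q = 2 * k + 1 := ⟨q / 2, by omega⟩
  have hiff := mem_iff hq hu₁ hqu₁
  have hsmall : ∀ j : ℤ, 0 < j → j < q → (j : ℂ) * u₁ ∉ L.lattice := by
    intro j h1 h2 h3
    have h4 := Int.le_of_dvd h1 ((hiff j).1 h3)
    omega
  obtain ⟨H, hH⟩ : ∃ H : Finset ℂ, H = (Finset.Icc 1 k).image (fun j : ℕ => (j : ℂ) * u₁) :=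
    ⟨_, rfl⟩
  have hmem : ∀ p, p ∈ H ↔ ∃ j : ℕ, (1 ≤ j ∧ j ≤ k) ∧ (j : ℂ) * u₁ = p := by
    intro p
    rw [hH, Finset.mem_image]
    simp only [Finset.mem_Icc]
  have hinj : ∀ j j' : ℕ, 1 ≤ j → j ≤ k → 1 ≤ j' → j' ≤ k →
      (j : ℂ) * u₁ - j' * u₁ ∈ L.lattice → j = j' := by
    intro j j' h1 h2 h3 h4 h5
    by_contra hne
    rcases lt_or_gt_of_ne hne with h | h
    · apply hsmall ((j' : ℤ) - j) (by omega) (by omega)
      have h6 : (((j' : ℤ) - j : ℤ) : ℂ) * u₁ = -((j : ℂ) * u₁ - j' * u₁) := by push_cast; ring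
      rw [h6]
      exact neg_mem h5
    · apply hsmall ((j : ℤ) - j') (by omega) (by omega)
      have h6 : (((j : ℤ) - j' : ℤ) : ℂ) * u₁ = (j : ℂ) * u₁ - j' * u₁ := by push_cast; ring
      rw [h6]
      exact h5
  refine ⟨H, ⟨?_, ?_, ?_, ?_, ?_⟩, ?_⟩
  · intro p hp
    obtain ⟨j, -, rfl⟩ := (hmem p).1 hp
    have h1 : mu * ((j : ℂ) * u₁) = ((j : ℤ) : ℂ) * (mu * u₁) := by push_cast; ring
    rw [h1]
    exact int_mul_mem _ hm
  · intro p hp h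
    obtain ⟨j, ⟨h1, h2⟩, rfl⟩ := (hmem p).1 hp
    apply hsmall (2 * j) (by omega) (by omega)
    have h3 : ((2 * j : ℤ) : ℂ) * u₁ = 2 * ((j : ℂ) * u₁) := by push_cast; ring
    rw [h3]
    exact h
  · intro p hp p' hp' h
    obtain ⟨j, ⟨h1, h2⟩, rfl⟩ := (hmem p).1 hp
    obtain ⟨j', ⟨h1', h2'⟩, rfl⟩ := (hmem p').1 hp'
    rw [hinj j j' h1 h2 h1' h2' h]
  · intro p hp p' hp' h
    obtain ⟨j, ⟨h1, h2⟩, rfl⟩ := (hmem p).1 hp
    obtain ⟨j', ⟨h1', h2'⟩, rfl⟩ := (hmem p').1 hp'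
    apply hsmall ((j : ℤ) + j') (by omega) (by omega)
    have h3 : (((j : ℤ) + j' : ℤ) : ℂ) * u₁ = (j : ℂ) * u₁ + j' * u₁ := by push_cast; ring
    rw [h3]
    exact h
  · intro z hz hzL
    obtain ⟨n, hn⟩ := hcyc z hz
    have hq0 : (0 : ℤ) < q := by exact_mod_cast hq.pos
    obtain ⟨ρ, hρ⟩ : ∃ ρ : ℤ, ρ = n % q := ⟨_, rfl⟩
    have hρ0 : 0 ≤ ρ := by rw [hρ]; exact Int.emod_nonneg _ hq0.ne'
    have hρq : ρ < q := by rw [hρ]; exact Int.emod_lt_of_pos _ hq0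
    have hzρ : z - (ρ : ℂ) * u₁ ∈ L.lattice := by
      have h1 : z - (ρ : ℂ) * u₁ = (z - n * u₁) + ((n / q : ℤ) : ℂ) * (q * u₁) := by
        have h2 : (n : ℂ) = (q : ℂ) * ((n / q : ℤ) : ℂ) + (ρ : ℂ) := by
          have h3 : n = q * (n / q) + ρ := by rw [hρ]; exact (Int.mul_ediv_add_emod n q).symm
          exact_mod_cast h3
        linear_combination u₁ * h2
      rw [h1]
      exact add_mem hn (int_mul_mem _ hqu₁)
    have hρne : ρ ≠ 0 := by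
      intro h0
      rw [h0] at hzρ
      apply hzL
      simpa using hzρ
    obtain ⟨j, hj⟩ : ∃ j : ℕ, (j : ℤ) = ρ := ⟨ρ.toNat, Int.toNat_of_nonneg hρ0⟩
    have hjc : (ρ : ℂ) = (j : ℂ) := by rw [← hj]; push_cast; rfl
    rcases le_or_gt j k with h | h
    · refine ⟨(j : ℂ) * u₁, (hmem _).2 ⟨j, ⟨by omega, h⟩, rfl⟩, Or.inl ?_⟩
      rw [← hjc]
      exact hzρ
    · refine ⟨((q - j : ℕ) : ℂ) * u₁, (hmem _).2 ⟨q - j, ⟨by omega, by omega⟩, rfl⟩, Or.inr ?_⟩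
      have h1 : z + ((q - j : ℕ) : ℂ) * u₁ = (z - (ρ : ℂ) * u₁) + q * u₁ := by
        rw [Nat.cast_sub (by omega), hjc]
        ring
      rw [h1]
      exact add_mem hzρ hqu₁
  · have h1 : H.card = k := by
      rw [hH, Finset.card_image_of_injOn]
      · simp
      · intro j hj j' hj' h
        simp only [Finset.coe_Icc, Set.mem_Icc] at hj hj'
        have h2 : (j : ℂ) * u₁ = j' * u₁ := h
        exact hinj j j' hj.1 hj.2 hj'.1 hj'.2 (by rw [h2, sub_self]; exact zero_mem _)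
    omega

end CYQ

open CYQ in
theorem tq_CYQ (hE : Sq_EMB) (hG : Sq_DGI) (hT : Sq_TRC) : Sq_CYQ := by
  intro A B hC Q q hq hq2 hd hcard L M mu hL hQ
  obtain ⟨r, hr, hx⟩ := hG A B Q q hq hcard
  obtain ⟨hmul, hadd, hsub, hint, hnat, hinj, hw, him, hstar, hnm, hnn, hn0, hdom⟩ := hE A B hC
  have hq0 : (q : ℂ) ≠ 0 := by exact_mod_cast hq.ne_zero
  have hwL : ∀ z ∈ L.lattice, wC A B * z ∈ L.lattice := by
    intro z hz
    have h1 := hL ⟨0, 1⟩ z hz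
    have h2 : emb (⟨0, 1⟩ : OO A B) = wC A B := by simp [emb]
    rwa [h2] at h1
  have hker : ∀ z : ℂ, mu * z ∈ M.lattice ↔
      ((q : ℂ) * z ∈ L.lattice ∧ (wC A B - r) * z ∈ L.lattice) := by
    intro z
    rw [hQ.2 z]
    constructor
    · intro h
      refine ⟨?_, ?_⟩
      · have h1 := h (⟨q, 0⟩ : OO A B) ((hx _).2 (by simp))
        have h2 : emb (⟨(q : ℤ), 0⟩ : OO A B) = q := by simp [emb]
        rwa [h2] at h1
      · have h1 := h (⟨-r, 1⟩ : OO A B) ((hx _).2 (by simp))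
        have h2 : emb (⟨-r, 1⟩ : OO A B) = wC A B - r := by simp [emb]; ring
        rwa [h2] at h1
    · rintro ⟨h1, h2⟩ x hxQ
      obtain ⟨c, hc⟩ := (hx x).1 hxQ
      have hc' : (x.re : ℂ) + x.im * r = q * c := by exact_mod_cast hc
      have h3 : emb x * z = (c : ℂ) * (q * z) + (x.im : ℂ) * ((wC A B - r) * z) := by
        unfold emb
        linear_combination z * hc'
      rw [h3]
      exact add_mem (int_mul_mem _ h1) (int_mul_mem _ h2)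
  have hcyc : ∀ u u₁ : ℂ, mu * u ∈ M.lattice → mu * u₁ ∈ M.lattice → u₁ ∉ L.lattice →
      ∃ n : ℤ, u - n * u₁ ∈ L.lattice := by
    intro u u₁ hu hu₁ hne
    obtain ⟨h1, h2⟩ := (hker u).1 hu
    obtain ⟨h3, h4⟩ := (hker u₁).1 hu₁
    rcases dich hq hne h1 h3 with h | h
    · exact h
    · exfalso
      apply no_mult hT hC hq hd hr (L := L) r (Or.inl rfl)
      intro z hz
      obtain ⟨a, b, hab⟩ := h z hz
      have h5 : (wC A B - r) * z = wC A B * (z - a * u - b * u₁) -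
          (r : ℂ) * (z - a * u - b * u₁) + ((a : ℂ) * ((wC A B - r) * u) +
          (b : ℂ) * ((wC A B - r) * u₁)) := by ring
      rw [h5]
      exact add_mem (sub_mem (hwL _ hab) (int_mul_mem _ hab))
        (add_mem (int_mul_mem _ h2) (int_mul_mem _ h4))
  refine ⟨?_, hcyc, fun u hu => ((hker u).1 hu).1, ?_⟩
  · intro w hw'
    exact (hQ.2 w).2 (fun x _ => hL x w hw')
  · obtain ⟨u₁, hu₁, hne⟩ : ∃ u₁ : ℂ, mu * u₁ ∈ M.lattice ∧ u₁ ∉ L.lattice := by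
      by_contra hcon
      push Not at hcon
      apply no_mult hT hC hq hd hr (L := L) (B - r) (Or.inr rfl)
      intro z hz
      apply hcon
      obtain ⟨k, hk⟩ := hr
      have hk' : (r : ℂ) ^ 2 - B * r - A = q * k := by exact_mod_cast hk
      refine (hker _).2 ⟨?_, ?_⟩
      · have h1 : (q : ℂ) * ((wC A B - ((B - r : ℤ) : ℂ)) * z) =
            wC A B * (q * z) - ((B - r : ℤ) : ℂ) * (q * z) := by ring
        rw [h1]
        exact sub_mem (hwL _ hz) (int_mul_mem _ hz)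
      · have h1 : (wC A B - r) * ((wC A B - ((B - r : ℤ) : ℂ)) * z) =
            ((-k : ℤ) : ℂ) * (q * z) := by
          push_cast
          linear_combination z * hw - z * hk'
        rw [h1]
        exact int_mul_mem _ hz
    exact half_sys hq hq2 hne ((hker u₁).1 hu₁).1 hu₁ (fun u hu => hcyc u u₁ hu hu₁ hne)

end

end Pool.Agent.MUXV
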