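import Pool.Agent.MUX.StQX

/-!
# MUX, block R, part 2, module DGI (helper96): ideals of prime norm
-/

set_option autoImplicit false

namespace Pool.Agent.MUXV

open _root_.MU3

noncomputable section

namespace DgiX

variable {A B : ℤ}

theorem decomp (x : OO A B) :
    x = ((x.re : ℤ) : OO A B) + ((x.im : ℤ) : OO A B) * (⟨0, 1⟩ : OO A B) := by
  apply QuadraticAlgebra.ext
  · simp
  · simp

theorem w_sq (A B : ℤ) : (⟨0, 1⟩ : OO A B) * ⟨0, 1⟩ =
    ((A : ℤ) : OO A B) + ((B : ℤ) : OO A B) * (⟨0, 1⟩ : OO A B) := by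
  apply QuadraticAlgebra.ext
  · simp
  · simp

end DgiX

open DgiX in
/-- An ideal of prime norm `q`. -/
theorem tq_DGI : Sq_DGI := by
  intro A B Q q hq hcard
  have hfact : Fact q.Prime := ⟨hq⟩
  have hfin : Finite (OO A B ⧸ Q) := Nat.finite_of_card_ne_zero (by rw [hcard]; exact hq.ne_zero)
  have hft : Fintype (OO A B ⧸ Q) := Fintype.ofFinite _
  have hcard' : Fintype.card (OO A B ⧸ Q) = q := by
    rw [← Nat.card_eq_fintype_card]; exact hcard
  let φ : ZMod q ≃+* (OO A B ⧸ Q) := ZMod.ringEquivOfPrime (OO A B ⧸ Q) hq hcard'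
  let f : OO A B →+* ZMod q := φ.symm.toRingHom.comp (Ideal.Quotient.mk Q)
  obtain ⟨r, hr⟩ : ∃ r : ℤ, (r : ZMod q) = f ⟨0, 1⟩ := ZMod.intCast_surjective _
  have hfx : ∀ x : OO A B, f x = ((x.re + x.im * r : ℤ) : ZMod q) := by
    intro x
    have h1 := congrArg f (decomp x)
    rw [map_add, map_mul, map_intCast, map_intCast, ← hr] at h1
    rw [h1]
    push_cast
    rfl
  refine ⟨r, ?_, ?_⟩
  · have h1 := congrArg f (w_sq A B)
    rw [map_add, map_mul, map_mul, map_intCast, map_intCast, ← hr] at h1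
    rw [← ZMod.intCast_zmod_eq_zero_iff_dvd]
    push_cast
    linear_combination h1
  · intro x
    have h1 : x ∈ Q ↔ f x = 0 := by
      have h2 : f x = φ.symm (Ideal.Quotient.mk Q x) := rfl
      rw [h2, EmbeddingLike.map_eq_zero_iff, Ideal.Quotient.eq_zero_iff_mem]
    rw [h1, hfx, ZMod.intCast_zmod_eq_zero_iff_dvd]

end

end Pool.Agent.MUXV
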