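import Pool.Agent.MUX.StQX

/-!
# MUX, block R, module DGL: the ideal generated by an element of prime norm   (helper50)
-/

set_option autoImplicit false

open WeierstrassCurve Polynomial

namespace Pool.Agent.MUXV

open _root_.MU3 Pool.Agent.MU3A Pool.Agent.MU3B Pool.Agent.MUXU
open Pool.Agent.MUXF (CQ)

noncomputable section

namespace DGL

theorem nm_eq {A B : ℤ} (x : OO A B) : nm x = QuadraticAlgebra.norm x := by
  rw [QuadraticAlgebra.norm_def]
  unfold nm
  ring

theorem mul_conj {A B : ℤ} (lam : OO A B) :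
    lam * (⟨lam.re + B * lam.im, -lam.im⟩ : OO A B) = ((nm lam : ℤ) : OO A B) := by
  ext
  · rw [QuadraticAlgebra.re_intCast, QuadraticAlgebra.re_mul, Int.cast_id]
    unfold nm
    ring
  · rw [QuadraticAlgebra.im_intCast, QuadraticAlgebra.im_mul]
    ring

/-- residue classes modulo an element of prime norm -/
theorem deg1 {A B : ℤ} (lam : OO A B) (q : ℕ) (hq : q.Prime) (hn : nm lam = q) :
    (∀ x : OO A B, ∃ n : ℤ, lam ∣ x - n) ∧ lam ∣ (q : OO A B) ∧
      ∀ n : ℤ, lam ∣ (n : OO A B) → (q : ℤ) ∣ n := by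
  have hqi : Prime (q : ℤ) := Nat.prime_iff_prime_int.1 hq
  have hdvd : lam ∣ (q : OO A B) := by
    have h0 := mul_conj lam
    rw [hn, Int.cast_natCast] at h0
    exact ⟨_, h0.symm⟩
  have hnm : lam.re ^ 2 + B * lam.re * lam.im - A * lam.im ^ 2 = q := hn
  have him : ¬ (q : ℤ) ∣ lam.im := by
    rintro ⟨b, hb⟩
    have h1 : (q : ℤ) ∣ lam.re ^ 2 := by
      refine ⟨1 - B * lam.re * b + A * q * b ^ 2, ?_⟩
      rw [hb] at hnm
      linear_combination hnm
    obtain ⟨a, ha⟩ := hqi.dvd_of_dvd_pow h1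
    rw [hb, ha] at hnm
    have h2 : (q : ℤ) ∣ 1 := by
      refine ⟨a ^ 2 + B * a * b - A * b ^ 2, ?_⟩
      have h3 : (q : ℤ) ≠ 0 := hqi.ne_zero
      apply mul_left_cancel₀ h3
      linear_combination -hnm
    exact hqi.not_isUnit (isUnit_of_dvd_one h2)
  refine ⟨?_, hdvd, ?_⟩
  · intro x
    have hcop : IsCoprime lam.im (q : ℤ) := ((Prime.coprime_iff_not_dvd hqi).2 him).symm
    obtain ⟨b', c, hbc⟩ := hcop
    refine ⟨x.re - x.im * lam.re * b', ?_⟩
    obtain ⟨y, hy⟩ := hdvd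
    have h1 : x - ((x.re - x.im * lam.re * b' : ℤ) : OO A B) =
        lam * ((x.im : OO A B) * ((b' : OO A B) + y * (c : OO A B) * ⟨0, 1⟩)) := by
      have h2 : lam * ((x.im : OO A B) * ((b' : OO A B) + y * (c : OO A B) * ⟨0, 1⟩)) =
          (x.im : OO A B) * ((b' : OO A B) * lam + (q : OO A B) * (c : OO A B) * ⟨0, 1⟩) := by
        rw [hy]
        ring
      rw [h2]
      ext
      · simp
        ring
      · simp
        linear_combination (-x.im) * hbc
    exact ⟨_, h1⟩
  · intro n hdn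
    have h1 : QuadraticAlgebra.norm lam ∣ QuadraticAlgebra.norm (n : OO A B) :=
      map_dvd QuadraticAlgebra.norm hdn
    rw [QuadraticAlgebra.norm_intCast, ← nm_eq, hn] at h1
    exact hqi.dvd_of_dvd_pow h1

/-- the residue ring -/
theorem equiv {A B : ℤ} (lam : OO A B) (q : ℕ) (hq : q.Prime) (hn : nm lam = q) :
    Nonempty (ZMod q ≃+* (OO A B ⧸ Ideal.span {lam})) := by
  obtain ⟨h1, h2, h3⟩ := deg1 lam q hq hn
  have : NeZero q := ⟨hq.ne_zero⟩
  let f : ℤ →+* (OO A B ⧸ Ideal.span {lam}) := Int.castRingHom _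
  have hf : ∀ n : ℤ, f n = Ideal.Quotient.mk (Ideal.span {lam}) (n : OO A B) := fun n => by
    simp only [f, eq_intCast, map_intCast]
  have hsurj : Function.Surjective f := by
    intro x
    obtain ⟨y, rfl⟩ := Ideal.Quotient.mk_surjective x
    obtain ⟨n, hn⟩ := h1 y
    refine ⟨n, ?_⟩
    rw [hf, Ideal.Quotient.eq, Ideal.mem_span_singleton]
    have := dvd_neg.2 hn
    rwa [neg_sub] at this
  have hker : RingHom.ker f = Ideal.span {(q : ℤ)} := by
    ext n
    rw [RingHom.mem_ker, hf, Ideal.mem_span_singleton, Ideal.Quotient.eq_zero_iff_mem,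
      Ideal.mem_span_singleton]
    constructor
    · exact h3 n
    · rintro ⟨c, rfl⟩
      push_cast
      exact dvd_mul_of_dvd_left h2 _
  exact ⟨(Int.quotientSpanNatEquivZMod q).symm.trans
    ((Ideal.quotEquivOfEq hker.symm).trans (RingHom.quotientKerEquivOfSurjective hsurj))⟩

end DGL

theorem tq_DGL : Sq_DGL := by
  intro A B _ lam q hq hn
  obtain ⟨e⟩ := DGL.equiv lam q hq hn
  have : Fact q.Prime := ⟨hq⟩
  refine ⟨?_, ?_, DGL.deg1 lam q hq hn⟩
  · rw [← Nat.card_congr e.toEquiv, Nat.card_zmod]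
  · apply Ideal.Quotient.maximal_of_isField
    exact e.symm.toMulEquiv.isField (Field.toIsField (ZMod q))

end

end Pool.Agent.MUXV
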