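import Pool.Agent.MUX.StQX

/-!
# MUX, ISQ: the multiplier at `V` above `𝔮` and at `V` above a different prime (helper92)
-/

set_option autoImplicit false

open WeierstrassCurve Polynomial

namespace Pool.Agent.MUXV

open _root_.MU3 Pool.Agent.MU3A Pool.Agent.MU3B Pool.Agent.MUXU
open Pool.Agent.MUXF (CQ)

noncomputable section

theorem tq_ISQ (hCYQ : Sq_CYQ) (hAEL : Sq_AEL) (hVQI : Sq_VQI) (hEMB : Sq_EMB) (hMLT : Sx_MLT)
    (hMUN : Sx_MUN) : Sq_ISQ := by
  intro A B hAB Q q hq hq2 hdisc hcard L M c c' mu hCM hQr V hL hM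
  obtain ⟨hIsg, hcyc, hord, H, hH, hHc⟩ :=
    hCYQ A B hAB Q q hq hq2 hdisc hcard L M mu hCM hQr
  have hmu : mu ≠ 0 := hQr.1
  refine ⟨⟨H, ⟨hL, hM, hmu, hIsg, hq, hH, hHc, hcyc, hord⟩⟩, ?_, ?_⟩
  · intro hOvr
    obtain ⟨a, c₀, haQ, ha0, hodd, hqc, hael⟩ := hAEL A B hAB Q q hq hq2 hdisc hcard
    obtain ⟨-, -, -, hint, -, hinj, -⟩ := hEMB A B hAB
    have hemb0 : emb a ≠ 0 := by
      intro h0
      apply ha0
      apply hinj
      have h1 := hint 0
      rw [h0]
      simpa using h1.symm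
    have hv0 : V.valuation (c₀ : ℂ) = 1 := by
      have h2 := ((hVQI A B hAB V).2 Q q hq hcard hOvr).2.1 (c₀ : ℤ)
        (fun h => hqc (by exact_mod_cast h))
      simpa using h2
    have hMul : Isg M L (emb a / mu) := by
      intro w hw
      have h3 : mu * (w / mu) ∈ M.lattice := by
        rw [mul_div_cancel₀ w hmu]
        exact hw
      have h4 := (hQr.2 (w / mu)).1 h3 a haQ
      have h5 : emb a / mu * w = emb a * (w / mu) := by ring
      rw [h5]
      exact h4
    have hker : ∀ z : ℂ, emb a / mu * z ∈ L.lattice → (c₀ : ℂ) * z ∈ M.lattice := by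
      intro z hz
      have h5 : emb a / mu * z = emb a * (z / mu) := by ring
      rw [h5] at hz
      have h6 := hael L hCM (z / mu) hz
      have h7 := (hQr.2 (c₀ * (z / mu))).2 h6
      have h8 : mu * (c₀ * (z / mu)) = c₀ * z := by
        field_simp
      rw [h8] at h7
      exact h7
    have h9 := hMLT V L M c c' mu (emb a) c₀ hL hM hmu hemb0 hMul hodd hv0 hker
    rw [h9]
    exact hOvr a haQ
  · intro hvq
    exact hMUN V L M c c' mu q hL hM hmu hIsg (hq.odd_of_ne_two hq2) hvq hord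

end

end Pool.Agent.MUXV
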