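import Pool.Agent.MUX.StQX

/-!
# MUX, THU: `Θ_a` is a unit and depends only on the reduction (helper92)
-/

set_option autoImplicit false

open WeierstrassCurve Polynomial

namespace Pool.Agent.MUXV

open _root_.MU3 Pool.Agent.MU3A Pool.Agent.MU3B Pool.Agent.MUXU
open Pool.Agent.MUXF (CQ)

noncomputable section

namespace THUaux

lemma mul_lt_one_of {V : ValuationSubring ℂ} {x y : ℂ} (hx : V.valuation x ≤ 1)
    (hy : V.valuation y < 1) : V.valuation (x * y) < 1 := by
  rw [map_mul]
  exact lt_of_le_of_lt (mul_le_of_le_one_left' hx) hy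

lemma prod_congr_val {V : ValuationSubring ℂ} (S : Finset ℂ) (f g : ℂ → ℂ)
    (hf : ∀ p ∈ S, V.valuation (f p) ≤ 1) (hfg : ∀ p ∈ S, V.valuation (g p - f p) < 1) :
    V.valuation (∏ p ∈ S, f p) ≤ 1 ∧ V.valuation (∏ p ∈ S, g p - ∏ p ∈ S, f p) < 1 := by
  classical
  induction S using Finset.induction_on with
  | empty => simp
  | insert a S ha ih =>
    obtain ⟨i1, i2⟩ := ih (fun p hp => hf p (Finset.mem_insert_of_mem hp))
      (fun p hp => hfg p (Finset.mem_insert_of_mem hp))
    have hfa := hf a (Finset.mem_insert_self a S)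
    have hfga := hfg a (Finset.mem_insert_self a S)
    have hga : V.valuation (g a) ≤ 1 := by
      have e : g a = (g a - f a) + f a := by ring
      rw [e]
      exact (V.valuation.map_add _ _).trans (max_le hfga.le hfa)
    rw [Finset.prod_insert ha, Finset.prod_insert ha]
    refine ⟨?_, ?_⟩
    · rw [map_mul]
      exact mul_le_one' hfa i1
    · have e : g a * ∏ p ∈ S, g p - f a * ∏ p ∈ S, f p =
          g a * (∏ p ∈ S, g p - ∏ p ∈ S, f p) + (∏ p ∈ S, f p) * (g a - f a) := by ring
      rw [e]
      exact V.valuation.map_add_lt (mul_lt_one_of hga i2) (mul_lt_one_of i1 hfga)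

end THUaux

open THUaux

theorem tq_THU : Sq_THU := by
  intro V L c W ξ G a H ha hH
  have hsub : ∀ z p : ℂ, L.weierstrassP z - L.weierstrassP p =
      (fun z => L.weierstrassP z - c) z - (fun z => L.weierstrassP z - c) p := by
    intro z p
    ring
  obtain ⟨n, han⟩ : ∃ n : ℕ, (a : ℂ) = (n : ℂ) ∨ (a : ℂ) = -(n : ℂ) := by
    obtain ⟨n, h | h⟩ := a.eq_nat_or_neg
    · exact ⟨n, Or.inl (by rw [h]; push_cast; rfl)⟩
    · exact ⟨n, Or.inr (by rw [h]; push_cast; rfl)⟩
  have hn : V.valuation (n : ℂ) = 1 := by
    rcases han with h | h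
    · rw [← h]
      exact ha
    · rw [h, Valuation.map_neg] at ha
      exact ha
  have hnp : ∀ p : ℂ, (a : ℂ) * p ∈ L.lattice → (n : ℂ) * p ∈ L.lattice := by
    intro p hp
    rcases han with h | h
    · rw [← h]
      exact hp
    · have h5 : (n : ℂ) * p = -((a : ℂ) * p) := by rw [h]; ring
      rw [h5]
      exact neg_mem hp
  have hpE : ∀ p ∈ H, ¬ InK V L (fun z => L.weierstrassP z - c) p := by
    intro p hp hE
    have hpL := mem_of_nat_mul G hE hn (hnp p (hH.mem p hp))
    apply hH.ne p hp
    rw [two_mul]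
    exact add_mem hpL hpL
  refine ⟨?_, ?_⟩
  · intro z hz
    have hzE : ¬ InK V L (fun z => L.weierstrassP z - c) z := fun h => hz (inK_int G h a)
    unfold ThetaH
    rw [map_prod]
    refine Finset.prod_eq_one fun p hp => ?_
    rw [hsub]
    refine v_X_sub G hzE (hpE p hp) ?_ ?_
    · intro h
      apply hz
      refine (inK_congr G (w := a * (z + p)) (inK_of_mem ?_)).2
        (inK_int G h a)
      have e : (a : ℂ) * z - a * (z + p) = -(a * p) := by ring
      rw [e]
      exact neg_mem (hH.mem p hp)
    · intro h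
      apply hz
      refine (inK_congr G (w := a * (z - p)) (inK_of_mem ?_)).2
        (inK_int G h a)
      have e : (a : ℂ) * z - a * (z - p) = a * p := by ring
      rw [e]
      exact hH.mem p hp
  · intro z r hz hr
    unfold ThetaH
    refine prod_congr_val H (fun p => L.weierstrassP z - L.weierstrassP p)
      (fun p => L.weierstrassP (z + r) - L.weierstrassP p) ?_ ?_
    · intro p hp
      simp only [hsub z p]
      exact (V.valuation.map_sub _ _).trans (max_le (int_X hz).2 (int_X (hpE p hp)).2)
    · intro p hp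
      have e : (L.weierstrassP (z + r) - L.weierstrassP p) - (L.weierstrassP z - L.weierstrassP p) =
          (fun z => L.weierstrassP z - c) (z + r) - (fun z => L.weierstrassP z - c) z := by
        simp only
        ring
      simp only [e]
      exact (near_lt G hz hr).1

end

end Pool.Agent.MUXV
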