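import Pool.Agent.MUX.StQX

/-!
# MUX, block R, part 2: module TOR, torsion of order prime to the residue characteristic
-/

set_option autoImplicit false

open WeierstrassCurve Polynomial

namespace Pool.Agent.MUXV

open _root_.MU3 Pool.Agent.MU3A Pool.Agent.MU3B Pool.Agent.MUXU
open Pool.Agent.MUXF (CQ)

theorem tq_TOR (h : Sq_EMB) : Sq_TOR := by
  intro A B hc V W L X Y ξ G hL m hm z hz hE
  obtain ⟨hmul, -, -, -, hnat, -, -, -, hstar, -, hnn, -, -⟩ := h A B hc
  obtain ⟨n, hn⟩ := Int.eq_ofNat_of_zero_le (hnn m)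
  have h1 : emb (star m) * (emb m * z) = (n : ℂ) * z := by
    rw [← mul_assoc, ← hmul, mul_comm (star m) m, hstar m, hn]
    have h2 : (((n : ℤ)) : OO A B) = ((n : ℕ) : OO A B) := by simp
    rw [h2, hnat n]
  refine mem_of_nat_mul G hE (n := n) ?_ ?_
  · have h5 : (((nm m : ℤ) : ℂ)) = (n : ℂ) := by rw [hn]; simp
    rwa [h5] at hm
  · rw [← h1]
    exact hL (star m) _ hz

end Pool.Agent.MUXV
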