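import Pool.Agent.MUX.StQX

/-!
# MUX, block R part 2: (TRC), the trace of a multiplier
-/

set_option autoImplicit false

open WeierstrassCurve Polynomial

namespace Pool.Agent.MUXV

open _root_.MU3 Pool.Agent.MU3A Pool.Agent.MU3B Pool.Agent.MUXU
open Pool.Agent.MUXF (CQ)

theorem tq_TRC (h : Sq_EMB) : Sq_TRC := by
  intro A B hAB L a b n hn hb hL
  obtain ⟨-, -, -, -, -, -, hw, hwim, -⟩ := h A B hAB
  set w : ℂ := wC A B with hwdef
  set α : ℂ := (a + b * w) / n with hα
  have hnC : (n : ℂ) ≠ 0 := by exact_mod_cast hn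
  have h1 := hL L.ω₁ (PeriodPair.mem_lattice.2 ⟨1, 0, by simp⟩)
  have h2 := hL L.ω₂ (PeriodPair.mem_lattice.2 ⟨0, 1, by simp⟩)
  obtain ⟨p, s, h1⟩ := PeriodPair.mem_lattice.1 h1
  obtain ⟨t, u, h2⟩ := PeriodPair.mem_lattice.1 h2
  have hω : L.ω₁ ≠ 0 := by
    have := L.indep.ne_zero 0
    simpa using this
  -- the characteristic polynomial
  have hchar : α ^ 2 - (p + u) * α + (p * u - s * t) = 0 := by
    have h3 : (α ^ 2 - (p + u) * α + (p * u - s * t)) * L.ω₁ = 0 := by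
      linear_combination (u - α) * h1 - s * h2
    exact (mul_eq_zero.1 h3).resolve_right hω
  have hnα : (n : ℂ) * α = a + b * w := by
    rw [hα]
    field_simp
  have hnorm : (n : ℂ) ^ 2 * α ^ 2 - (2 * a + b * B) * (n * α) + (a ^ 2 + a * b * B - A * b ^ 2) = 0 := by
    have h3 : (n : ℂ) ^ 2 * α ^ 2 = (n * α) ^ 2 := by ring
    rw [h3, hnα]
    linear_combination (b : ℂ) ^ 2 * hw
  -- the difference
  have hdiff : (((2 * a + b * B - n * (p + u) : ℤ) : ℝ) : ℂ) * (n * α) =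
      (((a ^ 2 + a * b * B - A * b ^ 2 - n ^ 2 * (p * u - s * t) : ℤ) : ℝ) : ℂ) := by
    push_cast
    linear_combination (n : ℂ) ^ 2 * hchar - hnorm
  have him := congrArg Complex.im hdiff
  rw [Complex.im_ofReal_mul, Complex.ofReal_im, hnα] at him
  have him2 : ((a : ℂ) + b * w).im = b * w.im := by
    simp
  rw [him2] at him
  have hne : (b : ℝ) * w.im ≠ 0 := mul_ne_zero (by exact_mod_cast hb) hwim.ne'
  have hz := (mul_eq_zero.1 him).resolve_right hne
  have hz' : 2 * a + b * B - n * (p + u) = 0 := by exact_mod_cast hz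
  exact ⟨p + u, by linarith⟩

end Pool.Agent.MUXV
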