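import Pool.Agent.MUX.StQX

/-!
# MUX, block R, part 2: the integers at a place above a prime ideal of degree one (module VQI)
-/

set_option autoImplicit false

open WeierstrassCurve Polynomial

namespace Pool.Agent.MUXV

open _root_.MU3 Pool.Agent.MU3A Pool.Agent.MU3B Pool.Agent.MUXU
open Pool.Agent.MUXF (CQ)

noncomputable section

namespace VQIaux

/-- Integers are integral at `V`. -/
lemma v_int_le (V : ValuationSubring ℂ) (s : ℤ) : V.valuation (s : ℂ) ≤ 1 :=
  (ValuationSubring.valuation_le_one_iff _ _).2 (intCast_mem V s)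

lemma v_int_eq_one {V : ValuationSubring ℂ} {q : ℕ} (hq : q.Prime) (hv : V.valuation (q : ℂ) < 1)
    {s : ℤ} (hs : ¬ (q : ℤ) ∣ s) : V.valuation (s : ℂ) = 1 := by
  have h1 : V.valuation (s : ℂ) ≤ 1 := v_int_le V s
  refine le_antisymm h1 ?_
  by_contra hc
  push Not at hc
  have h2 : IsCoprime (q : ℤ) s := (Int.isCoprime_iff_gcd_eq_one.2
    ((Nat.Prime.coprime_iff_not_dvd hq).2 (by
      intro h3
      exact hs (Int.natCast_dvd.2 h3))))
  obtain ⟨x, y, hxy⟩ := h2
  have h3 : (x : ℂ) * q + y * s = 1 := by exact_mod_cast congrArg (Int.cast : ℤ → ℂ) hxy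
  have hx : V.valuation ((x : ℂ) * q) < 1 := by
    rw [map_mul, mul_comm]
    exact mul_lt_one_of_lt_of_le hv (v_int_le V x)
  have hy : V.valuation ((y : ℂ) * s) < 1 := by
    rw [map_mul, mul_comm]
    exact mul_lt_one_of_lt_of_le hc (v_int_le V y)
  have h4 := Valuation.map_add_lt V.valuation hx hy
  rw [h3, map_one] at h4
  exact lt_irrefl _ h4

/-- A root of `w² = A + B w` is integral at `V`. -/
lemma v_root_le (V : ValuationSubring ℂ) {A B : ℤ} {w : ℂ} (hw : w ^ 2 = A + B * w) :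
    V.valuation w ≤ 1 := by
  by_contra hc
  push Not at hc
  have h1 : V.valuation (w ^ 2) ≤ V.valuation w := by
    rw [hw]
    refine (Valuation.map_add _ _ _).trans (max_le ((v_int_le V A).trans hc.le) ?_)
    rw [map_mul]
    exact mul_le_of_le_one_left' (v_int_le V B)
  rw [map_pow, pow_two] at h1
  have h2 : V.valuation w * 1 < V.valuation w * V.valuation w := by
    exact mul_lt_mul_of_pos_left hc (lt_trans zero_lt_one hc)
  rw [mul_one] at h2
  exact absurd (h2.trans_le h1) (lt_irrefl _)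

/-- All elements of `O` are integral at `V`. -/
lemma v_emb_le (V : ValuationSubring ℂ) {A B : ℤ} (hw : wC A B ^ 2 = A + B * wC A B)
    (x : OO A B) : V.valuation (emb x) ≤ 1 := by
  unfold emb
  refine (Valuation.map_add _ _ _).trans (max_le (v_int_le V _) ?_)
  rw [map_mul]
  exact mul_le_one' (v_int_le V _) (v_root_le V hw)

end VQIaux

open VQIaux in
theorem tq_VQI (hDGI : Sq_DGI) (hEMB : Sq_EMB) : Sq_VQI := by
  intro A B hAB V
  obtain ⟨-, -, hsub, hint, -, -, hw, -⟩ := hEMB A B hAB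
  refine ⟨v_emb_le V hw, ?_⟩
  intro Q q hq hcard hO
  obtain ⟨r, -, hr⟩ := hDGI A B Q q hq hcard
  have hqQ : (((q : ℤ) : OO A B)) ∈ Q := by
    rw [hr]
    simp
  have hvq : V.valuation (q : ℂ) < 1 := by
    have h1 := hO _ hqQ
    rw [hint] at h1
    simpa using h1
  refine ⟨hvq, fun s hs => v_int_eq_one hq hvq hs, ?_⟩
  intro x hx
  have hs : ¬ (q : ℤ) ∣ x.re + x.im * r := fun h => hx ((hr x).2 h)
  have h1 : V.valuation ((x.re + x.im * r : ℤ) : ℂ) = 1 := v_int_eq_one hq hvq hs
  have h2 : x - ((x.re + x.im * r : ℤ) : OO A B) ∈ Q := by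
    rw [hr]
    simp
  have h3 := hO _ h2
  rw [hsub, hint] at h3
  have h4 : emb x = ((x.re + x.im * r : ℤ) : ℂ) + (emb x - ((x.re + x.im * r : ℤ) : ℂ)) := by
    ring
  rw [h4, Valuation.map_add_eq_of_lt_left V.valuation (by rw [h1]; exact h3), h1]

end

end Pool.Agent.MUXV
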