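import Pool.Agent.MUX.StVX

/-!
# MUX, block R: module FRN (normalised lattices: the Frobenius congruence)
-/

set_option autoImplicit false

open WeierstrassCurve Polynomial

namespace Pool.Agent.MUXV

open Pool.Agent.MU3B Pool.Agent.MUXU

noncomputable section

namespace FRN

lemma int_pow {F : Type*} [Field F] (q : ℕ) [Fact q.Prime] [CharP F q] (n : ℤ) :
    (n : F) ^ q = n := by
  have h := map_intCast (frobenius F q) n
  rwa [frobenius_def] at h

/-- the computation in the residue field -/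
lemma coreF {F : Type*} [Field F] (q : ℕ) [Fact q.Prime] [CharP F q]
    (h2 : (2 : F) ≠ 0) (h3 : (3 : F) ≠ 0) {A B A' B' k T T' : F}
    (hA : A = -18 * B) (hA' : A' = -18 * B') (hA0 : A' ≠ 0) (hk : k ≠ 0)
    (e2 : A ^ q = k ^ 2 * A') (e3 : B ^ q = k ^ 3 * B')
    (hT : 1728 * T = 48 * A - 1) (hT' : 1728 * T' = 48 * A' - 1) :
    k = 1 ∧ T' = T ^ q := by
  have i1 : (-18 : F) ^ q = -18 := by simpa using int_pow (F := F) q (-18)
  have i2 : (1728 : F) ^ q = 1728 := by simpa using int_pow (F := F) q 1728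
  have i3 : (48 : F) ^ q = 48 := by simpa using int_pow (F := F) q 48
  have n1 : (1728 : F) ≠ 0 := by
    have : (1728 : F) = 2 ^ 6 * 3 ^ 3 := by norm_num
    rw [this]
    exact mul_ne_zero (pow_ne_zero _ h2) (pow_ne_zero _ h3)
  have hk1 : k = 1 := by
    have h := e2
    rw [hA, mul_pow, i1, e3, hA'] at h
    have h' : k ^ 2 * A' * (k - 1) = 0 := by
      rw [hA']
      linear_combination h
    rcases mul_eq_zero.1 h' with h5 | h5
    · exact absurd h5 (mul_ne_zero (pow_ne_zero _ hk) hA0)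
    · exact sub_eq_zero.1 h5
  refine ⟨hk1, ?_⟩
  have h := congrArg (fun x => x ^ q) hT
  simp only [mul_pow, sub_pow_char, i2, i3, one_pow, e2, hk1, one_mul] at h
  apply mul_left_cancel₀ n1
  rw [h, hT']

lemma coreX {F : Type*} [Field F] (q : ℕ) [Fact q.Prime] [CharP F q]
    (h2 : (2 : F) ≠ 0) (h3 : (3 : F) ≠ 0) {c X X' : F} (hc : 12 * c = 1)
    (h : X' + c = (X + c) ^ q) : X' = X ^ q := by
  have i1 : (12 : F) ^ q = 12 := by simpa using int_pow (F := F) q 12
  have n1 : (12 : F) ≠ 0 := by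
    have : (12 : F) = 2 ^ 2 * 3 := by norm_num
    rw [this]
    exact mul_ne_zero (pow_ne_zero _ h2) h3
  have hcq : c ^ q = c := by
    have h' := congrArg (fun x => x ^ q) hc
    simp only [mul_pow, i1, one_pow] at h'
    apply mul_left_cancel₀ n1
    rw [h', hc]
  rw [add_pow_char, hcq] at h
  exact add_right_cancel h

lemma res_eq_iff (V : ValuationSubring ℂ) (a b : V) :
    IsLocalRing.residue V a = IsLocalRing.residue V b ↔ V.valuation ((a : ℂ) - b) < 1 := by
  rw [← sub_eq_zero, ← map_sub, IsLocalRing.residue_eq_zero_iff,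
    ValuationSubring.valuation_lt_one_iff]
  rfl

lemma res_ne_iff (V : ValuationSubring ℂ) (a : V) :
    IsLocalRing.residue V a ≠ 0 ↔ V.valuation (a : ℂ) = 1 := by
  rw [Ne, IsLocalRing.residue_eq_zero_iff, ValuationSubring.valuation_lt_one_iff, not_lt]
  constructor
  · intro h
    exact le_antisymm ((ValuationSubring.valuation_le_one_iff _ _).2 a.2) h
  · intro h
    exact h.ge

lemma nat_ne (V : ValuationSubring ℂ) (n : ℕ) (h : V.valuation (n : ℂ) = 1) :
    ((n : ℕ) : IsLocalRing.ResidueField V) ≠ 0 := by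
  have h' := (res_ne_iff V (n : V)).2 (by simpa using h)
  rwa [map_natCast] at h'

lemma charP (V : ValuationSubring ℂ) (q : ℕ) (hqp : q.Prime) (hvq : V.valuation (q : ℂ) < 1) :
    CharP (IsLocalRing.ResidueField V) q := by
  have hq0 : ((q : ℕ) : IsLocalRing.ResidueField V) = 0 := by
    have h := (res_eq_iff V (q : V) 0).2 (by simpa using hvq)
    rw [map_zero, map_natCast] at h
    exact h
  exact (CharP.charP_iff_prime_eq_zero hqp).2 hq0

/-- the same computation, modulo the maximal ideal of `V` -/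
lemma coreV (V : ValuationSubring ℂ) (q : ℕ) (hqp : q.Prime)
    (hvq : V.valuation (q : ℂ) < 1) (v2 : V.valuation (2 : ℂ) = 1)
    (v3 : V.valuation (3 : ℂ) = 1) {A B A' B' k T T' : ℂ}
    (mB : B ∈ V) (mB' : B' ∈ V) (mT : T ∈ V) (mT' : T' ∈ V) (mk : k ∈ V)
    (hA : A = -18 * B) (hA' : A' = -18 * B') (hA0 : V.valuation A' = 1)
    (hk : V.valuation k = 1)
    (e2 : V.valuation (A ^ q - k ^ 2 * A') < 1) (e3 : V.valuation (B ^ q - k ^ 3 * B') < 1)
    (hT : 1728 * T = 48 * A - 1) (hT' : 1728 * T' = 48 * A' - 1) :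
    V.valuation (k - 1) < 1 ∧ V.valuation (T' - T ^ q) < 1 := by
  have mA : A ∈ V := by
    rw [hA]
    exact mul_mem (by exact_mod_cast intCast_mem V (-18)) mB
  have mA' : A' ∈ V := by
    rw [hA']
    exact mul_mem (by exact_mod_cast intCast_mem V (-18)) mB'
  obtain ⟨A, rfl⟩ : ∃ a : V, (a : ℂ) = A := ⟨⟨A, mA⟩, rfl⟩
  obtain ⟨A', rfl⟩ : ∃ a : V, (a : ℂ) = A' := ⟨⟨A', mA'⟩, rfl⟩
  obtain ⟨B, rfl⟩ : ∃ a : V, (a : ℂ) = B := ⟨⟨B, mB⟩, rfl⟩
  obtain ⟨B', rfl⟩ : ∃ a : V, (a : ℂ) = B' := ⟨⟨B', mB'⟩, rfl⟩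
  obtain ⟨T, rfl⟩ : ∃ a : V, (a : ℂ) = T := ⟨⟨T, mT⟩, rfl⟩
  obtain ⟨T', rfl⟩ : ∃ a : V, (a : ℂ) = T' := ⟨⟨T', mT'⟩, rfl⟩
  obtain ⟨k, rfl⟩ : ∃ a : V, (a : ℂ) = k := ⟨⟨k, mk⟩, rfl⟩
  have : Fact q.Prime := ⟨hqp⟩
  have := charP V q hqp hvq
  have h2' : (2 : IsLocalRing.ResidueField V) ≠ 0 := by
    have h := nat_ne V 2 (by exact_mod_cast v2)
    exact_mod_cast h
  have h3' : (3 : IsLocalRing.ResidueField V) ≠ 0 := by
    have h := nat_ne V 3 (by exact_mod_cast v3)
    exact_mod_cast h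
  have a1 : A = -18 * B := Subtype.ext (by push_cast; exact hA)
  have a2 : A' = -18 * B' := Subtype.ext (by push_cast; exact hA')
  have a3 : 1728 * T = 48 * A - 1 := Subtype.ext (by push_cast; exact hT)
  have a4 : 1728 * T' = 48 * A' - 1 := Subtype.ext (by push_cast; exact hT')
  have key := coreF (F := IsLocalRing.ResidueField V) q h2' h3'
    (A := IsLocalRing.residue V A) (B := IsLocalRing.residue V B)
    (A' := IsLocalRing.residue V A') (B' := IsLocalRing.residue V B')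
    (k := IsLocalRing.residue V k)
    (T := IsLocalRing.residue V T) (T' := IsLocalRing.residue V T')
    (by rw [a1, map_mul, map_neg, map_ofNat])
    (by rw [a2, map_mul, map_neg, map_ofNat])
    ((res_ne_iff V A').2 hA0)
    ((res_ne_iff V k).2 hk)
    (by
      rw [← map_pow, ← map_pow, ← map_mul, res_eq_iff]
      push_cast
      exact e2)
    (by
      rw [← map_pow, ← map_pow, ← map_mul, res_eq_iff]
      push_cast
      exact e3)
    (by
      have h := congrArg (IsLocalRing.residue V) a3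
      rwa [map_mul, map_ofNat, map_sub, map_mul, map_ofNat, map_one] at h)
    (by
      have h := congrArg (IsLocalRing.residue V) a4
      rwa [map_mul, map_ofNat, map_sub, map_mul, map_ofNat, map_one] at h)
  obtain ⟨k1, k2⟩ := key
  constructor
  · rw [← map_one (IsLocalRing.residue V), res_eq_iff] at k1
    push_cast at k1
    exact k1
  · rw [← map_pow, res_eq_iff] at k2
    push_cast at k2
    exact k2

lemma coreXV (V : ValuationSubring ℂ) (q : ℕ) (hqp : q.Prime)
    (hvq : V.valuation (q : ℂ) < 1) (v2 : V.valuation (2 : ℂ) = 1)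
    (v3 : V.valuation (3 : ℂ) = 1) {c X X' : ℂ}
    (mc : c ∈ V) (mX : X ∈ V) (mX' : X' ∈ V) (hc : 12 * c = 1)
    (h : V.valuation ((X' + c) - (X + c) ^ q) < 1) : V.valuation (X' - X ^ q) < 1 := by
  obtain ⟨c, rfl⟩ : ∃ a : V, (a : ℂ) = c := ⟨⟨c, mc⟩, rfl⟩
  obtain ⟨X, rfl⟩ : ∃ a : V, (a : ℂ) = X := ⟨⟨X, mX⟩, rfl⟩
  obtain ⟨X', rfl⟩ : ∃ a : V, (a : ℂ) = X' := ⟨⟨X', mX'⟩, rfl⟩
  have : Fact q.Prime := ⟨hqp⟩
  have := charP V q hqp hvq
  have h2' : (2 : IsLocalRing.ResidueField V) ≠ 0 := by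
    have h := nat_ne V 2 (by exact_mod_cast v2)
    exact_mod_cast h
  have h3' : (3 : IsLocalRing.ResidueField V) ≠ 0 := by
    have h := nat_ne V 3 (by exact_mod_cast v3)
    exact_mod_cast h
  have a1 : 12 * c = 1 := Subtype.ext (by push_cast; exact hc)
  have key := coreX (F := IsLocalRing.ResidueField V) q h2' h3'
    (c := IsLocalRing.residue V c) (X := IsLocalRing.residue V X)
    (X' := IsLocalRing.residue V X')
    (by
      have h := congrArg (IsLocalRing.residue V) a1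
      rwa [map_mul, map_ofNat, map_one] at h)
    (by
      rw [← map_add, ← map_add, ← map_pow, res_eq_iff]
      push_cast
      exact h)
  rw [← map_pow, res_eq_iff] at key
  push_cast at key
  exact key

end FRN

open FRN in
theorem tx_FRN (h : Sx_R5) : Sx_FRN := by
  intro V L M mu q H hI v3 hvq hvmu hL hM vL vM
  obtain ⟨WL, ξL, gL⟩ := hI.redL
  have v2 : V.valuation 2 = 1 := gL.two
  have v12 : V.valuation (12 : ℂ) = 1 := by
    have e : (12 : ℂ) = 2 ^ 2 * 3 := by norm_num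
    rw [e, map_mul, map_pow, v2, v3, one_pow, one_mul]
  have v48 : V.valuation (48 : ℂ) = 1 := by
    have e : (48 : ℂ) = 2 ^ 4 * 3 := by norm_num
    rw [e, map_mul, map_pow, v2, v3, one_pow, one_mul]
  have v1728 : V.valuation (1728 : ℂ) = 1 := by
    have e : (1728 : ℂ) = 2 ^ 6 * 3 ^ 3 := by norm_num
    rw [e, map_mul, map_pow, map_pow, v2, v3, one_pow, one_pow, one_mul]
  have v864 : V.valuation (864 : ℂ) = 1 := by
    have e : (864 : ℂ) = 2 ^ 5 * 3 ^ 3 := by norm_num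
    rw [e, map_mul, map_pow, map_pow, v2, v3, one_pow, one_pow, one_mul]
  have mc : (1 / 12 : ℂ) ∈ V := by
    rw [← ValuationSubring.valuation_le_one_iff, map_div₀, map_one, v12, div_one]
  obtain ⟨κ, hκ, i2, i3, hz⟩ := h V L M (1 / 12) (1 / 12) mu q H hI v3 mc mc hvq hvmu
  have mκ : κ ∈ V := (ValuationSubring.valuation_le_one_iff _ _).1 hκ.le
  have mg3 : ∀ N : PeriodPair, N.g₂ = -18 * N.g₃ → V.valuation (12 * N.g₂) = 1 →
      N.g₃ / 4 ∈ V ∧ V.valuation (N.g₂ / 4) = 1 ∧ (12 * N.g₂ - 1) / 1728 ∈ V := by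
    intro N hN vN
    refine ⟨?_, ?_, ?_⟩
    · have e : N.g₃ / 4 = -(12 * N.g₂ / 864) := by rw [hN]; ring
      rw [← ValuationSubring.valuation_le_one_iff, e, Valuation.map_neg, map_div₀, vN, v864,
        div_one]
    · have e : N.g₂ / 4 = 12 * N.g₂ / 48 := by ring
      rw [e, map_div₀, vN, v48, div_one]
    · rw [← ValuationSubring.valuation_le_one_iff, map_div₀, v1728, div_one,
        ValuationSubring.valuation_le_one_iff]
      exact sub_mem ((ValuationSubring.valuation_le_one_iff _ _).1 vN.le) (one_mem _)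
  obtain ⟨l1, l2, l3⟩ := mg3 L hL vL
  obtain ⟨m1, m2, m3⟩ := mg3 M hM vM
  obtain ⟨k1, k2⟩ := coreV V q hI.prime hvq v2 v3 (A := L.g₂ / 4) (B := L.g₃ / 4)
    (A' := M.g₂ / 4) (B' := M.g₃ / 4) (k := κ) (T := kp L) (T' := kp M) l1 m1 l3 m3 mκ
    (by rw [hL]; ring) (by rw [hM]; ring) m2 hκ i2 i3 (by unfold kp; ring) (by unfold kp; ring)
  refine ⟨k2, ?_⟩
  intro z hzK
  obtain ⟨z1, z2⟩ := hz z hzK
  refine ⟨z1, ?_⟩
  have mX : L.weierstrassP z - 1 / 12 ∈ V :=
    (ValuationSubring.valuation_le_one_iff _ _).1 (int_X hzK).2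
  have mX' : M.weierstrassP (mu * z) - 1 / 12 ∈ V :=
    (ValuationSubring.valuation_le_one_iff _ _).1 (int_X z1).2
  have mP : M.weierstrassP (mu * z) ∈ V := by
    have := add_mem mX' mc
    rwa [sub_add_cancel] at this
  refine coreXV V q hI.prime hvq v2 v3 mc mX mX' (by norm_num) ?_
  rw [sub_add_cancel, sub_add_cancel]
  have e : M.weierstrassP (mu * z) - L.weierstrassP z ^ q =
      (κ * M.weierstrassP (mu * z) - L.weierstrassP z ^ q) -
        (κ - 1) * M.weierstrassP (mu * z) := by ring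
  rw [e]
  refine Valuation.map_sub_lt _ z2 ?_
  rw [map_mul]
  exact lt_of_le_of_lt (mul_le_of_le_one_right' ((ValuationSubring.valuation_le_one_iff _ _).2 mP)) k1

end

end Pool.Agent.MUXV
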