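import Pool.Agent.MUX.StVX

/-!
# MUX, block R: module HAL (helper26)

Half systems for the kernel of an isogeny without points of order two. Adapted from
`Pool/Agent/MU3/B_HAL.lean`.
-/

set_option autoImplicit false

namespace Pool.Agent.MUXV

open Pool.Agent.MU3B Pool.Agent.MUXU

theorem tx_HAL (hBAC : Su_BAC) : Sx_HAL := by
  classical
  intro L M mu hmu hI h2
  obtain ⟨R, hR⟩ := (hBAC.2 L M mu hmu hI).1
  have hne : ∀ q ∈ R, 2 * q ∉ L.lattice := fun q hq h => hR.ne q hq (h2 q (hR.mem q hq) h)
  set S : Finset (Finset ℂ) :=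
    R.powerset.filter (fun H => ∀ q ∈ H, ∀ q' ∈ H, q + q' ∉ L.lattice) with hS
  have hS0 : S.Nonempty := ⟨∅, by simp [hS]⟩
  obtain ⟨H, hH, hmax⟩ := S.exists_max_image Finset.card hS0
  rw [hS, Finset.mem_filter, Finset.mem_powerset] at hH
  obtain ⟨hHR, hneg⟩ := hH
  refine ⟨H, fun q hq => hR.mem q (hHR hq), fun q hq => hne q (hHR hq),
    fun q hq q' hq' h => hR.inj q (hHR hq) q' (hHR hq') h, hneg, ?_⟩
  intro z hz hzL
  obtain ⟨r, hr, hzr⟩ := hR.surj z hz hzL
  by_cases hrH : r ∈ H
  · exact ⟨r, hrH, Or.inl hzr⟩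
  · by_cases hex : ∃ q ∈ H, q + r ∈ L.lattice
    · obtain ⟨q, hq, h⟩ := hex
      refine ⟨q, hq, Or.inr ?_⟩
      have h1 := L.lattice.add_mem hzr h
      have e : z + q = z - r + (q + r) := by ring
      rwa [e]
    · exfalso
      push Not at hex
      have hin : insert r H ∈ S := by
        rw [hS, Finset.mem_filter, Finset.mem_powerset]
        refine ⟨Finset.insert_subset hr hHR, ?_⟩
        intro q hq q' hq'
        rcases Finset.mem_insert.1 hq with h3 | h3
        · rcases Finset.mem_insert.1 hq' with h4 | h4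
          · rw [h3, h4, ← two_mul]
            exact hne _ hr
          · rw [h3, add_comm]
            exact hex q' h4
        · rcases Finset.mem_insert.1 hq' with h4 | h4
          · rw [h4]
            exact hex q h3
          · exact hneg q h3 q' h4
      have h1 := hmax _ hin
      rw [Finset.card_insert_of_notMem hrH] at h1
      omega

end Pool.Agent.MUXV
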