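import Pool.Agent.MUX.StVX

/-!
# MUX, block R, HRE: a half system together with its negative is a system of representatives
(helper73)
-/

set_option autoImplicit false

namespace Pool.Agent.MUXV

open Complex Real Filter Topology
open Pool.Agent.MUXU

theorem tx_HRE : Sx_HRE := by
  classical
  intro L M mu H hH
  have hmem : ∀ q, q ∈ H ∪ H.image (fun q => -q) ↔ q ∈ H ∨ ∃ p ∈ H, -p = q := by
    intro q
    rw [Finset.mem_union, Finset.mem_image]
  have hnL : ∀ q ∈ H, q ∉ L.lattice := by
    intro q hq h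
    apply hH.ne q hq
    rw [two_mul]
    exact add_mem h h
  refine ⟨⟨fun q hq => ?_, fun q hq => ?_, fun q hq q' hq' h => ?_, fun z hz hzL => ?_⟩, ?_⟩
  · rcases (hmem q).1 hq with h | ⟨p, hp, rfl⟩
    · exact hH.mem q h
    · rw [mul_neg]
      exact neg_mem (hH.mem p hp)
  · rcases (hmem q).1 hq with h | ⟨p, hp, rfl⟩
    · exact hnL q h
    · intro h
      exact hnL p hp (by simpa using neg_mem h)
  · rcases (hmem q).1 hq with h1 | ⟨p, hp, rfl⟩ <;>
      rcases (hmem q').1 hq' with h2 | ⟨p', hp', rfl⟩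
    · exact hH.inj q h1 q' h2 h
    · exact (hH.neg q h1 p' hp' (by simpa using h)).elim
    · refine (hH.neg p hp q' h2 ?_).elim
      have := neg_mem h
      rwa [neg_sub, sub_neg_eq_add, add_comm] at this
    · have h3 : p - p' ∈ L.lattice := by
        have := neg_mem h
        have e : -(-p - -p') = p - p' := by ring
        rwa [e] at this
      rw [hH.inj p hp p' hp' h3]
  · obtain ⟨q, hq, h | h⟩ := hH.surj z hz hzL
    · exact ⟨q, (hmem q).2 (Or.inl hq), h⟩
    · exact ⟨-q, (hmem (-q)).2 (Or.inr ⟨q, hq, rfl⟩), by simpa using h⟩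
  · rw [Finset.disjoint_left]
    intro q hq h
    obtain ⟨p, hp, h'⟩ := Finset.mem_image.1 h
    apply hH.neg q hq p hp
    rw [← h', neg_add_cancel]
    exact zero_mem _

end Pool.Agent.MUXV
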