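import Pool.Agent.MUX.StVX

/-!
# MUX, block R, module INJ: the kernel meets the kernel of reduction trivially where `mu` is a unit
-/

set_option autoImplicit false

open WeierstrassCurve Polynomial

namespace Pool.Agent.MUXV

open Pool.Agent.MU3B Pool.Agent.MUXU

noncomputable section

theorem tx_INJ (hR4 : Sx_R4) : Sx_INJ := by
  intro V L M c c' mu q H hI hmu u hu hE
  by_contra huL
  obtain ⟨W, ξ, G⟩ := hI.redL
  have hqle : V.valuation (q : ℂ) ≤ 1 :=
    (ValuationSubring.valuation_le_one_iff _ _).2 (natCast_mem V q)
  rcases eq_or_lt_of_le hqle with hq1 | hq1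
  · exact huL (mem_of_nat_mul G hE hq1 (hI.ord u hu))
  · have hall : ∀ u', mu * u' ∈ M.lattice → InK V L (fun z => L.weierstrassP z - c) u' := by
      intro u' hu'
      obtain ⟨m, hm⟩ := hI.cyc u' u hu' hu huL
      exact (inK_congr G (inK_of_mem hm)).2 (inK_int G hE m)
    obtain ⟨r1, -, -⟩ := hR4 V L M c c' mu q H hI hq1 hall
    rw [hmu, one_mul] at r1
    have hne : H.Nonempty := by
      rw [← Finset.card_pos]
      rcases Nat.eq_zero_or_pos H.card with h0 | h0
      · have hc := hI.card
        rw [h0] at hc
        exact absurd hc.symm hI.prime.ne_one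
      · exact h0
    have hgt : ∀ p ∈ H, 1 < V.valuation (L.weierstrassP p - c) := by
      intro p hp
      have hpL : p ∉ L.lattice := by
        intro hpL
        apply hI.half.ne p hp
        rw [two_mul]
        exact add_mem hpL hpL
      rcases hall p (hI.half.mem p hp) with h3 | h3
      · exact absurd h3 hpL
      · rw [← not_le, ValuationSubring.valuation_le_one_iff]
        exact h3
    have hprod : 1 < ∏ p ∈ H, V.valuation (L.weierstrassP p - c) := by
      refine Finset.prod_induction_nonempty (fun p => V.valuation (L.weierstrassP p - c))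
        (fun a => 1 < a) (fun a b ha hb => ?_) hne hgt
      exact lt_trans ha (lt_mul_of_one_lt_right (lt_trans zero_lt_one ha) hb)
    rw [r1] at hprod
    exact lt_irrefl _ hprod

end

end Pool.Agent.MUXV
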