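import Pool.Agent.MUX.StVX

/-!
# MUX, block R, module MIN: multipliers are integral at a place of good reduction
-/

set_option autoImplicit false

open WeierstrassCurve Polynomial

namespace Pool.Agent.MUXV

open Pool.Agent.MU3B Pool.Agent.MUXU

noncomputable section

namespace RMin

/-- the element of `V` given by a complex number of `V` -/
def toV (V : ValuationSubring ℂ) (x : ℂ) : V := by
  classical
  exact if h : x ∈ V then ⟨x, h⟩ else 0

lemma toV_coe (V : ValuationSubring ℂ) {x : ℂ} (h : x ∈ V) : ((toV V x : V) : ℂ) = x := by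
  unfold toV; rw [dif_pos h]

lemma lin (V : ValuationSubring ℂ) (s : Finset ℂ) (f : ℂ → ℂ) (hf : ∀ p ∈ s, f p ∈ V) :
    (∏ p ∈ s, (X - C (f p)) : ℂ[X]) =
      Polynomial.map V.subtype (∏ p ∈ s, (X - C (toV V (f p)))) := by
  rw [Polynomial.map_prod]
  apply Finset.prod_congr rfl
  intro p hp
  rw [Polynomial.map_sub, Polynomial.map_X, Polynomial.map_C]
  simp [toV_coe V (hf p hp)]

/-- the comparison of the leading coefficients -/
lemma lead (V : ValuationSubring ℂ) (H : Finset ℂ) (c l e₁ e₂ : ℂ) (f f₁ f₂ : ℂ → ℂ)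
    (he₁ : e₁ ∈ V) (he₂ : e₂ ∈ V) (hf₁ : ∀ p ∈ H, f₁ p ∈ V) (hf₂ : ∀ p ∈ H, f₂ p ∈ V)
    (h : C c * (C l * ∏ p ∈ H, (X - C (f p))) ^ 2 =
      (X - C e₁) * (∏ p ∈ H, (X - C (f₁ p))) ^ 2 - (X - C e₂) * (∏ p ∈ H, (X - C (f₂ p))) ^ 2) :
    c * l ^ 2 ∈ V := by
  have hC : ∀ {x : ℂ}, x ∈ V → (C x : ℂ[X]) = Polynomial.map V.subtype (C (toV V x)) := by
    intro x hx
    rw [Polynomial.map_C]
    simp [toV_coe V hx]
  have hX : (X : ℂ[X]) = Polynomial.map V.subtype X := by rw [Polynomial.map_X]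
  have h1 : (C c * (C l * ∏ p ∈ H, (X - C (f p))) ^ 2 : ℂ[X]).coeff (2 * H.card) = c * l ^ 2 := by
    have h2 : (C c * (C l * ∏ p ∈ H, (X - C (f p))) ^ 2 : ℂ[X]) =
        C (c * l ^ 2) * (∏ p ∈ H, (X - C (f p))) ^ 2 := by
      rw [C_mul, C_pow]; ring
    have h3 : (((∏ p ∈ H, (X - C (f p))) ^ 2 : ℂ[X])).Monic :=
      (monic_prod_of_monic _ _ fun p _ => monic_X_sub_C _).pow 2
    have h4 : (((∏ p ∈ H, (X - C (f p))) ^ 2 : ℂ[X])).natDegree = 2 * H.card := by
      rw [natDegree_pow, natDegree_prod_of_monic _ _ fun p _ => monic_X_sub_C _]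
      simp
    rw [h2, coeff_C_mul, ← h4, h3.coeff_natDegree, mul_one]
  rw [← h1, h, hC he₁, hC he₂, lin V H f₁ hf₁, lin V H f₂ hf₂, hX, ← Polynomial.map_sub,
    ← Polynomial.map_pow, ← Polynomial.map_mul, ← Polynomial.map_sub, ← Polynomial.map_pow,
    ← Polynomial.map_mul, ← Polynomial.map_sub, coeff_map]
  exact Subtype.property _

/-- points of order two -/
lemma half_period (L : PeriodPair) : ∃ w₁ w₂ : ℂ, 2 * w₁ ∈ L.lattice ∧ w₁ ∉ L.lattice ∧
    2 * w₂ ∈ L.lattice ∧ w₂ ∉ L.lattice ∧ w₁ + w₂ ∉ L.lattice ∧ w₁ - w₂ ∉ L.lattice := by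
  have hd : ((1 / 2 : ℚ)).den = 2 := by norm_num
  refine ⟨L.ω₁ / 2, L.ω₂ / 2, ?_, L.ω₁_div_two_notMem_lattice, ?_, L.ω₂_div_two_notMem_lattice,
    ?_, ?_⟩
  · rw [mul_div_cancel₀ _ two_ne_zero]; exact L.ω₁_mem_lattice
  · rw [mul_div_cancel₀ _ two_ne_zero]; exact L.ω₂_mem_lattice
  · intro h
    have e : L.ω₁ / 2 + L.ω₂ / 2 = ((1 / 2 : ℚ) : ℂ) * L.ω₁ + ((1 / 2 : ℚ) : ℂ) * L.ω₂ := by
      push_cast; ring
    rw [e, PeriodPair.mul_ω₁_add_mul_ω₂_mem_lattice, hd] at h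
    exact absurd h.1 (by norm_num)
  · intro h
    have e : L.ω₁ / 2 - L.ω₂ / 2 = ((1 / 2 : ℚ) : ℂ) * L.ω₁ + ((-(1 / 2) : ℚ) : ℂ) * L.ω₂ := by
      push_cast; ring
    rw [e, PeriodPair.mul_ω₁_add_mul_ω₂_mem_lattice, hd] at h
    exact absurd h.1 (by norm_num)

/-- an odd number which kills the kernel -/
lemma odd_kill (L M : PeriodPair) (mu : ℂ) (h2 : ∀ z, mu * z ∈ M.lattice → 2 * z ∈ L.lattice → z ∈ L.lattice) :
    ∀ n : ℕ, n ≠ 0 → (∀ z, mu * z ∈ M.lattice → (n : ℂ) * z ∈ L.lattice) →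
    ∃ k : ℕ, ∀ z, mu * z ∈ M.lattice → ((2 * k + 1 : ℕ) : ℂ) * z ∈ L.lattice := by
  intro n
  induction n using Nat.strong_induction_on with
  | _ n ih =>
    intro hn hz
    obtain ⟨k, rfl | rfl⟩ := n.even_or_odd'
    · refine ih k (by omega) (by omega) fun z hzM => ?_
      apply h2
      · have e : mu * ((k : ℂ) * z) = (k : ℕ) • (mu * z) := by rw [nsmul_eq_mul]; ring
        rw [e]
        exact nsmul_mem hzM k
      · have := hz z hzM
        rwa [show ((2 * k : ℕ) : ℂ) * z = 2 * ((k : ℂ) * z) by push_cast; ring] at this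
    · exact ⟨k, hz⟩

end RMin

open RMin in
theorem tx_MIN (hPOL : Sx_POL) (hBAC : Su_BAC) : Sx_MIN := by
  intro V L M c c' mu H hGL hGM hmu hI hH
  obtain ⟨W, ξ, gL⟩ := hGL
  obtain ⟨W', ξ', gM⟩ := hGM
  -- the kernel has no point of order two
  have hk2 : ∀ z, mu * z ∈ M.lattice → 2 * z ∈ L.lattice → z ∈ L.lattice := by
    intro z hz h2z
    by_contra hzL
    obtain ⟨p, hp, hp' | hp'⟩ := hH.surj z hz hzL
    · apply hH.ne p hp
      have h5 := add_mem hp' hp'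
      have h6 := sub_mem h2z h5
      have e : 2 * z - (z - p + (z - p)) = 2 * p := by ring
      rwa [e] at h6
    · apply hH.ne p hp
      have h5 := add_mem hp' hp'
      have h6 := sub_mem h5 h2z
      have e : (z + p + (z + p)) - 2 * z = 2 * p := by ring
      rwa [e] at h6
  obtain ⟨n, hn, hnz⟩ := (hBAC.2 L M mu hmu hI).2
  obtain ⟨k, hk⟩ := odd_kill L M mu hk2 n hn hnz
  have htwo : ∀ w : ℂ, 2 * w ∈ L.lattice → w ∉ L.lattice →
      ¬ InK V L (fun z => L.weierstrassP z - c) w := by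
    intro w hw hwL hw1
    exact hwL (mem_of_nat_mul gL hw1 (n := 2) (by simpa using gL.two) (by simpa using hw))
  have htwoM : ∀ w : ℂ, 2 * w ∈ M.lattice → w ∉ M.lattice →
      ¬ InK V M (fun z => M.weierstrassP z - c') w := by
    intro w hw hwL hw1
    exact hwL (mem_of_nat_mul gM hw1 (n := 2) (by simpa using gM.two) (by simpa using hw))
  have hadd : ∀ w : ℂ, 2 * w ∈ L.lattice → w ∉ L.lattice → ∀ p ∈ H,
      ¬ InK V L (fun z => L.weierstrassP z - c) (w + p) := by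
    intro w hw hwL p hp hwp
    have h3 := inK_nat gL hwp 2
    have h4 := inK_sub gL h3 (inK_of_mem (V := V) (X := fun z => L.weierstrassP z - c) hw)
    have e : ((2 : ℕ) : ℂ) * (w + p) - 2 * w = 2 * p := by push_cast; ring
    rw [e] at h4
    have h5 := inK_nat gL h4 (k + 1)
    have h6 := inK_sub gL h5 (inK_of_mem (V := V) (X := fun z => L.weierstrassP z - c)
      (hk p (hH.mem p hp)))
    have e2 : ((k + 1 : ℕ) : ℂ) * (2 * p) - ((2 * k + 1 : ℕ) : ℂ) * p = p := by push_cast; ring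
    rw [e2] at h6
    have h7 := inK_sub gL hwp h6
    rw [add_sub_cancel_right] at h7
    exact htwo w hw hwL h7
  have hMw : ∀ w : ℂ, 2 * w ∈ L.lattice → w ∉ L.lattice →
      ¬ InK V M (fun z => M.weierstrassP z - c') (mu * w) := by
    intro w hw hwL
    apply htwoM
    · have := hI _ hw
      rwa [mul_left_comm] at this
    · intro hlw
      exact hwL (hk2 w hlw hw)
  have hmem : ∀ z : ℂ, ¬ InK V L (fun z => L.weierstrassP z - c) z → L.weierstrassP z - c ∈ V :=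
    fun z hz => (ValuationSubring.valuation_le_one_iff _ _).1 (int_X hz).2
  obtain ⟨w₁, w₂, a1, a2, a3, a4, a5, a6⟩ := half_period L
  have hpol := (hPOL L M c mu H hmu hI hH).1 w₁ w₂ a1 a2 a3 a4
  unfold QI CI at hpol
  have hlead := lead V H _ _ _ _ (fun p => L.weierstrassP p - c)
    (fun p => L.weierstrassP (w₁ + p) - c) (fun p => L.weierstrassP (w₂ + p) - c)
    (hmem _ (htwo _ a1 a2)) (hmem _ (htwo _ a3 a4)) (fun p hp => hmem _ (hadd _ a1 a2 p hp))
    (fun p hp => hmem _ (hadd _ a3 a4 p hp)) hpol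
  have hunit : V.valuation (M.weierstrassP (mu * w₂) - M.weierstrassP (mu * w₁)) = 1 := by
    have h3 := v_X_sub gM (hMw _ a3 a4) (hMw _ a1 a2) (by
      rw [← mul_add]
      refine hMw _ ?_ (by rwa [add_comm])
      rw [mul_add]; exact add_mem a3 a1) (by
      rw [← mul_sub]
      refine hMw _ ?_ fun h => a6 ?_
      · rw [mul_sub]; exact sub_mem a3 a1
      · have := neg_mem h
        rwa [neg_sub] at this)
    simpa using h3
  rw [← ValuationSubring.valuation_le_one_iff, map_mul, hunit, one_mul, map_pow] at hlead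
  by_contra hcon
  rw [not_le] at hcon
  exact absurd hlead (not_le.2 (one_lt_pow₀ hcon two_ne_zero))

end

end Pool.Agent.MUXV
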