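import Pool.Agent.MUX.StVX

/-!
# MUX, block R, module MLT (helper61)
-/

set_option autoImplicit false

namespace Pool.Agent.MUXV

open Pool.Agent.MU3B Pool.Agent.MUXU

theorem tx_MLT (hMUN : Sx_MUN) : Sx_MLT := by
  intro V L M c c' mu a n hL hM hmu ha hI hn hVn hk
  have hne : a / mu ≠ 0 := div_ne_zero ha hmu
  have h := hMUN V M L c' c (a / mu) n hM hL hne hI hn hVn hk
  rw [map_div₀] at h
  have hv : V.valuation mu ≠ 0 := (Valuation.ne_zero_iff _).mpr hmu
  exact ((div_eq_one_iff_eq hv).mp h).symm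

end Pool.Agent.MUXV
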