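import Pool.Agent.MUX.StVX

/-!
# MUX, block R: module MUN, the multiplier of an isogeny of odd degree is a unit
-/

set_option autoImplicit false

namespace Pool.Agent.MUXV

open Pool.Agent.MU3B Pool.Agent.MUXU

namespace Mun

theorem odd_trick (L : PeriodPair) (n : ℕ) (hn : Odd n) (z : ℂ) (h1 : (n : ℂ) * z ∈ L.lattice)
    (h2 : 2 * z ∈ L.lattice) : z ∈ L.lattice := by
  obtain ⟨k, hk⟩ := hn
  have h3 : z = (n : ℂ) * z - (k : ℕ) • (2 * z) := by
    rw [hk, nsmul_eq_mul]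
    push_cast
    ring
  rw [h3]
  exact sub_mem h1 (nsmul_mem h2 k)

end Mun

open Mun in
theorem tx_MUN (hMIN : Sx_MIN) (hHAL : Sx_HAL) : Sx_MUN := by
  intro V L M c c' mu n hL hM hmu hI hn hvn hker
  have hn0 : (n : ℂ) ≠ 0 := by
    intro h
    rw [h, map_zero] at hvn
    exact zero_ne_one hvn
  obtain ⟨H, hH⟩ := hHAL L M mu hmu hI fun z h1 h2 => odd_trick L n hn z (hker z h1) h2
  have h1 : V.valuation mu ≤ 1 := hMIN V L M c c' mu H hL hM hmu hI hH
  have hmu' : (n : ℂ) / mu ≠ 0 := div_ne_zero hn0 hmu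
  have hI' : Isg M L ((n : ℂ) / mu) := by
    intro u hu
    have h3 : mu * (u / mu) ∈ M.lattice := by rwa [mul_div_cancel₀ _ hmu]
    have h4 := hker _ h3
    have h5 : (n : ℂ) / mu * u = (n : ℂ) * (u / mu) := by ring
    rw [h5]
    exact h4
  obtain ⟨H', hH'⟩ := hHAL M L ((n : ℂ) / mu) hmu' hI' fun z h3 h4 => by
    refine odd_trick M n hn z ?_ h4
    have h5 := hI _ h3
    have h6 : mu * ((n : ℂ) / mu * z) = (n : ℂ) * z := by field_simp
    rwa [h6] at h5
  have h2 : V.valuation ((n : ℂ) / mu) ≤ 1 := hMIN V M L c' c _ H' hM hL hmu' hI' hH'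
  rw [map_div₀, hvn] at h2
  have hv0 : V.valuation mu ≠ 0 := (V.valuation.ne_zero_iff).2 hmu
  refine le_antisymm h1 ?_
  by_contra h3
  rw [not_le] at h3
  have h4 : V.valuation mu * (1 / V.valuation mu) = 1 := mul_div_cancel₀ _ hv0
  have h5 : V.valuation mu * (1 / V.valuation mu) ≤ V.valuation mu * 1 := mul_le_mul_right h2 _
  rw [h4, mul_one] at h5
  exact absurd h3 (not_lt.2 h5)

end Pool.Agent.MUXV
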