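import Pool.Agent.MUX.StVX

/-!
# MUX, block R: the identity of polynomials behind an isogeny (POL)
-/

set_option autoImplicit false

open Polynomial

namespace Pool.Agent.MUXV

open Pool.Agent.MU3B Pool.Agent.MUXU

namespace POL

theorem wp_congr (L : PeriodPair) {z u : ℂ} (h : z - u ∈ L.lattice) :
    L.weierstrassP z = L.weierstrassP u := by
  have h1 := L.weierstrassP_add_coe u ⟨z - u, h⟩
  rw [← h1]
  congr 1
  simp

theorem wp_congr' (L : PeriodPair) {z u : ℂ} (h : z + u ∈ L.lattice) :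
    L.weierstrassP z = L.weierstrassP u := by
  have h1 := wp_congr L (z := z) (u := -u) (by rwa [sub_neg_eq_add])
  rw [h1, L.weierstrassP_neg]

theorem ev_Q (L : PeriodPair) (c mu z : ℂ) (H : Finset ℂ) :
    (QI L c mu H).eval (L.weierstrassP z - c) =
      mu * ∏ q ∈ H, (L.weierstrassP z - L.weierstrassP q) := by
  unfold QI
  rw [eval_mul, eval_C, eval_prod]
  congr 1
  refine Finset.prod_congr rfl fun q _ => ?_
  rw [eval_sub, eval_X, eval_C]
  ring

theorem ev_C (L : PeriodPair) (c w z : ℂ) (H : Finset ℂ) :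
    (CI L c w H).eval (L.weierstrassP z - c) =
      ∏ q ∈ H, (L.weierstrassP z - L.weierstrassP (w + q)) := by
  unfold CI
  rw [eval_prod]
  refine Finset.prod_congr rfl fun q _ => ?_
  rw [eval_sub, eval_X, eval_C]
  ring

theorem key (h1 : Su_PFI) (h2 : Sx_HRE) (L M : PeriodPair) (c mu : ℂ) (H : Finset ℂ)
    (hl : mu ≠ 0) (hL : Isg L M mu) (hH : HalfI L M mu H) (w : ℂ)
    (hw2 : 2 * w ∈ L.lattice) (hw : w ∉ L.lattice) (z : ℂ) (hz : mu * z ∉ M.lattice) :
    (M.weierstrassP (mu * z) - M.weierstrassP (mu * w)) *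
        (QI L c mu H).eval (L.weierstrassP z - c) ^ 2 =
      (L.weierstrassP z - L.weierstrassP w) * (CI L c w H).eval (L.weierstrassP z - c) ^ 2 := by
  obtain ⟨hR, hd⟩ := h2 L M mu H hH
  have hlw : mu * w ∉ M.lattice := by
    intro h3
    obtain ⟨q, hq, h4 | h4⟩ := hH.surj w h3 hw
    · apply hH.ne q hq
      have h5 : 2 * q = 2 * w - (w - q) - (w - q) := by ring
      rw [h5]
      exact sub_mem (sub_mem hw2 h4) h4
    · apply hH.ne q hq
      have h5 : 2 * q = (w + q) + (w + q) - 2 * w := by ring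
      rw [h5]
      exact sub_mem (add_mem h4 h4) hw2
  have h3 := h1 L M mu _ hl hL hR w hlw z hz
  rw [Finset.prod_union hd, Finset.prod_union hd,
    Finset.prod_image (fun a _ b _ hab => neg_injective hab),
    Finset.prod_image (fun a _ b _ hab => neg_injective hab)] at h3
  have h4 : ∏ x ∈ H, (L.weierstrassP z - L.weierstrassP (-x)) =
      ∏ x ∈ H, (L.weierstrassP z - L.weierstrassP x) := by
    refine Finset.prod_congr rfl fun q _ => ?_
    rw [L.weierstrassP_neg]
  have h5 : ∏ x ∈ H, (L.weierstrassP z - L.weierstrassP (w + -x)) =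
      ∏ x ∈ H, (L.weierstrassP z - L.weierstrassP (w + x)) := by
    refine Finset.prod_congr rfl fun q _ => ?_
    have h6 : L.weierstrassP (w + -q) = L.weierstrassP (w + q) := by
      apply wp_congr'
      have h7 : w + -q + (w + q) = 2 * w := by ring
      rwa [h7]
    rw [h6]
  rw [h4, h5] at h3
  rw [ev_Q, ev_C]
  linear_combination h3

end POL

open POL

theorem tx_POL (h1 : Su_PFI) (h2 : Sx_HRE) : Sx_POL := by
  have h3 : St_SUR := b_SUR
  intro L M c mu H hl hL hH
  refine ⟨?_, fun w hw2 hw z hz => key h1 h2 L M c mu H hl hL hH w hw2 hw z hz⟩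
  intro w₁ w₂ hw1 hw1' hw2 hw2'
  refine Polynomial.eq_of_infinite_eval_eq _ _ ?_
  have hfin : ((↑(H.image (fun q => L.weierstrassP q - c)) : Set ℂ)ᶜ).Infinite :=
    (Finset.finite_toSet _).infinite_compl
  refine hfin.mono ?_
  intro x hx
  obtain ⟨z, hz, hzx⟩ := h3 L (x + c)
  have hx' : L.weierstrassP z - c = x := by
    rw [hzx]
    ring
  have hlz : mu * z ∉ M.lattice := by
    intro h4
    apply hx
    obtain ⟨q, hq, h5⟩ := hH.surj z h4 hz
    rw [Finset.mem_coe, Finset.mem_image]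
    refine ⟨q, hq, ?_⟩
    rw [← hx']
    rcases h5 with h5 | h5
    · rw [wp_congr L h5]
    · rw [wp_congr' L h5]
  have e1 := key h1 h2 L M c mu H hl hL hH w₁ hw1 hw1' z hlz
  have e2 := key h1 h2 L M c mu H hl hL hH w₂ hw2 hw2' z hlz
  rw [hx'] at e1 e2
  show Polynomial.eval x _ = Polynomial.eval x _
  simp only [eval_mul, eval_sub, eval_pow, eval_C, eval_X]
  have hzx' : L.weierstrassP z = x + c := hzx
  rw [hzx'] at e1 e2
  linear_combination e1 - e2

end Pool.Agent.MUXV
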