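import Pool.Agent.MUX.StVX

/-!
# MUX, block R, module R2: the kernel of an isogeny is in the kernel of reduction if the multiplier is
not a unit (helper79; adapted from `Pool/Agent/MU3/V_R2.lean`)
-/

set_option autoImplicit false

open WeierstrassCurve Polynomial

namespace Pool.Agent.MUXV

open Pool.Agent.MU3B Pool.Agent.MUXU

noncomputable section

namespace R2

/-- the element of `V` given by a complex number of `V` -/
def rV (V : ValuationSubring ℂ) (x : ℂ) : V := by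
  classical
  exact if h : x ∈ V then ⟨x, h⟩ else 0

lemma rV_coe (V : ValuationSubring ℂ) {x : ℂ} (h : x ∈ V) : ((rV V x : V) : ℂ) = x := by
  unfold rV; rw [dif_pos h]

lemma lin (V : ValuationSubring ℂ) (s : Finset ℂ) (f : ℂ → ℂ) (hf : ∀ p ∈ s, f p ∈ V) :
    (∏ p ∈ s, (X - C (f p)) : ℂ[X]) =
      Polynomial.map V.subtype (∏ p ∈ s, (X - C (rV V (f p)))) := by
  rw [Polynomial.map_prod]
  apply Finset.prod_congr rfl
  intro p hp
  rw [Polynomial.map_sub, Polynomial.map_X, Polynomial.map_C]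
  simp [rV_coe V (hf p hp)]

lemma mult {κ : Type*} [Field κ] {a b : κ} (hab : a ≠ b) {P Q : κ[X]} (hP : P ≠ 0)
    (hQ : Q ≠ 0) (h : (X - C a) * P ^ 2 = (X - C b) * Q ^ 2) : False := by
  classical
  have h1 : rootMultiplicity a ((X - C a) * P ^ 2) = 1 + 2 * rootMultiplicity a P := by
    rw [rootMultiplicity_mul (mul_ne_zero (X_sub_C_ne_zero a) (pow_ne_zero 2 hP)), pow_two,
      rootMultiplicity_mul (mul_ne_zero hP hP), rootMultiplicity_X_sub_C_self]
    ring
  have h2 : rootMultiplicity a ((X - C b) * Q ^ 2) = 2 * rootMultiplicity a Q := by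
    rw [rootMultiplicity_mul (mul_ne_zero (X_sub_C_ne_zero b) (pow_ne_zero 2 hQ)), pow_two,
      rootMultiplicity_mul (mul_ne_zero hQ hQ), rootMultiplicity_X_sub_C, if_neg hab]
    ring
  rw [h, h2] at h1
  omega

/-- the reduction argument -/
lemma red (V : ValuationSubring ℂ) (H : Finset ℂ) (c l e₁ e₂ : ℂ) (f f₁ f₂ : ℂ → ℂ)
    (hc : c ∈ V) (hl : V.valuation l < 1) (he₁ : e₁ ∈ V) (he₂ : e₂ ∈ V)
    (he : V.valuation (e₁ - e₂) = 1)
    (hf : ∀ p ∈ H, f p ∈ V) (hf₁ : ∀ p ∈ H, f₁ p ∈ V) (hf₂ : ∀ p ∈ H, f₂ p ∈ V)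
    (h : C c * (C l * ∏ p ∈ H, (X - C (f p))) ^ 2 =
      (X - C e₁) * (∏ p ∈ H, (X - C (f₁ p))) ^ 2 - (X - C e₂) * (∏ p ∈ H, (X - C (f₂ p))) ^ 2) :
    False := by
  have hlV : l ∈ V := (ValuationSubring.valuation_le_one_iff _ _).1 hl.le
  have hinj : Function.Injective V.subtype := Subtype.coe_injective
  have hC : ∀ {x : ℂ}, x ∈ V → (C x : ℂ[X]) = Polynomial.map V.subtype (C (rV V x)) := by
    intro x hx
    rw [Polynomial.map_C]
    simp [rV_coe V hx]
  have hX : (X : ℂ[X]) = Polynomial.map V.subtype X := by rw [Polynomial.map_X]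
  rw [hC hc, hC hlV, hC he₁, hC he₂, lin V H f hf, lin V H f₁ hf₁, lin V H f₂ hf₂,
    hX, ← Polynomial.map_mul, ← Polynomial.map_pow, ← Polynomial.map_mul, ← Polynomial.map_sub,
    ← Polynomial.map_pow, ← Polynomial.map_mul, ← Polynomial.map_sub, ← Polynomial.map_pow,
    ← Polynomial.map_mul, ← Polynomial.map_sub] at h
  have h' := Polynomial.map_injective _ hinj h
  have h2 := congrArg (Polynomial.map (IsLocalRing.residue V)) h'
  have hl0 : IsLocalRing.residue V (rV V l) = 0 := by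
    rw [IsLocalRing.residue_eq_zero_iff, ValuationSubring.valuation_lt_one_iff, rV_coe V hlV]
    exact hl
  simp only [Polynomial.map_mul, Polynomial.map_pow, Polynomial.map_sub, Polynomial.map_X,
    Polynomial.map_C, hl0, C_0, zero_mul, Polynomial.map_prod] at h2
  rw [zero_pow two_ne_zero, mul_zero, eq_comm, sub_eq_zero] at h2
  refine mult (a := IsLocalRing.residue V (rV V e₁)) (b := IsLocalRing.residue V (rV V e₂))
    ?_ ?_ ?_ h2
  · intro hh
    rw [← sub_eq_zero, ← map_sub, IsLocalRing.residue_eq_zero_iff,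
      ValuationSubring.valuation_lt_one_iff] at hh
    have e : ((rV V e₁ - rV V e₂ : V) : ℂ) = e₁ - e₂ := by
      push_cast
      rw [rV_coe V he₁, rV_coe V he₂]
    rw [e, he] at hh
    exact lt_irrefl _ hh
  · exact Finset.prod_ne_zero_iff.2 fun p _ => X_sub_C_ne_zero _
  · exact Finset.prod_ne_zero_iff.2 fun p _ => X_sub_C_ne_zero _

/-- the points of order two -/
lemma half (L : PeriodPair) :
    ∃ w₁ w₂ : ℂ, 2 * w₁ ∈ L.lattice ∧ w₁ ∉ L.lattice ∧ 2 * w₂ ∈ L.lattice ∧ w₂ ∉ L.lattice ∧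
      w₁ + w₂ ∉ L.lattice ∧ w₁ - w₂ ∉ L.lattice := by
  have e : ((1 / 2 : ℚ) : ℂ) = 1 / 2 := by push_cast; ring
  have e' : ((-1 / 2 : ℚ) : ℂ) = -1 / 2 := by push_cast; ring
  refine ⟨L.ω₁ / 2, L.ω₂ / 2, ?_, L.ω₁_div_two_notMem_lattice, ?_, L.ω₂_div_two_notMem_lattice, ?_, ?_⟩
  · rw [mul_div_cancel₀ _ two_ne_zero]
    exact L.ω₁_mem_lattice
  · rw [mul_div_cancel₀ _ two_ne_zero]
    exact L.ω₂_mem_lattice
  · have h := (L.mul_ω₁_add_mul_ω₂_mem_lattice (α := 1 / 2) (β := 1 / 2)).not.mpr (by norm_num)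
    rw [e] at h
    have e2 : L.ω₁ / 2 + L.ω₂ / 2 = 1 / 2 * L.ω₁ + 1 / 2 * L.ω₂ := by ring
    rwa [e2]
  · have h := (L.mul_ω₁_add_mul_ω₂_mem_lattice (α := 1 / 2) (β := -1 / 2)).not.mpr (by norm_num)
    rw [e, e'] at h
    have e2 : L.ω₁ / 2 - L.ω₂ / 2 = 1 / 2 * L.ω₁ + -1 / 2 * L.ω₂ := by ring
    rwa [e2]

end R2

open R2 in
theorem tx_R2 (hPOL : Sx_POL) : Sx_R2 := by
  intro V L M c c' mu q H I hmu u₀ hu₀
  by_contra hE
  obtain ⟨WL, ξL, gL⟩ := I.redL
  obtain ⟨WM, ξM, gM⟩ := I.redM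
  have h2 : V.valuation ((2 : ℕ) : ℂ) = 1 := by simpa using gL.two
  have hH := I.half
  -- no nonzero point of the kernel is in the kernel of reduction
  have hno : ∀ u, mu * u ∈ M.lattice → u ∉ L.lattice → ¬ InK V L (fun z => L.weierstrassP z - c) u := by
    intro u hu huL hu1
    obtain ⟨m, hm⟩ := I.cyc u₀ u hu₀ hu huL
    apply hE
    rw [inK_congr gL (w := m * u) (inK_of_mem hm)]
    exact inK_int gL hu1 m
  have htwo : ∀ w : ℂ, 2 * w ∈ L.lattice → w ∉ L.lattice →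
      ¬ InK V L (fun z => L.weierstrassP z - c) w := by
    intro w hw hwL hw1
    exact hwL (mem_of_nat_mul gL hw1 (n := 2) h2 (by simpa using hw))
  have htwoM : ∀ w : ℂ, 2 * w ∈ M.lattice → w ∉ M.lattice →
      ¬ InK V M (fun z => M.weierstrassP z - c') w := by
    intro w hw hwL hw1
    exact hwL (mem_of_nat_mul gM hw1 (n := 2) h2 (by simpa using hw))
  have hadd : ∀ w : ℂ, 2 * w ∈ L.lattice → w ∉ L.lattice → ∀ p ∈ H,
      ¬ InK V L (fun z => L.weierstrassP z - c) (w + p) := by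
    intro w hw hwL p hp hwp
    have h3 := inK_nat gL hwp 2
    have h4 := inK_sub gL h3 (inK_of_mem hw)
    have e : ((2 : ℕ) : ℂ) * (w + p) - 2 * w = 2 * p := by push_cast; ring
    rw [e] at h4
    refine hno (2 * p) ?_ (hH.ne p hp) h4
    have := hH.mem p hp
    have h5 := add_mem this this
    have e' : mu * p + mu * p = mu * (2 * p) := by ring
    rwa [e'] at h5
  have hlw : ∀ w : ℂ, 2 * w ∈ L.lattice → w ∉ L.lattice →
      ¬ InK V M (fun z => M.weierstrassP z - c') (mu * w) := by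
    intro w hw hwL
    apply htwoM
    · have := I.sub _ hw
      rwa [mul_left_comm] at this
    · intro hlw
      obtain ⟨p, hp, hp' | hp'⟩ := hH.surj w hlw hwL
      · apply hH.ne p hp
        have h5 := add_mem hp' hp'
        have h6 := sub_mem hw h5
        have e : 2 * w - (w - p + (w - p)) = 2 * p := by ring
        rwa [e] at h6
      · apply hH.ne p hp
        have h5 := add_mem hp' hp'
        have h6 := sub_mem h5 hw
        have e : (w + p + (w + p)) - 2 * w = 2 * p := by ring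
        rwa [e] at h6
  have hmem : ∀ z : ℂ, ¬ InK V L (fun z => L.weierstrassP z - c) z → L.weierstrassP z - c ∈ V :=
    fun z hz => (ValuationSubring.valuation_le_one_iff _ _).1 (int_X hz).2
  have hmemM : ∀ z : ℂ, ¬ InK V M (fun z => M.weierstrassP z - c') z → M.weierstrassP z - c' ∈ V :=
    fun z hz => (ValuationSubring.valuation_le_one_iff _ _).1 (int_X hz).2
  obtain ⟨w₁, w₂, a1, a2, a3, a4, a5, a6⟩ := half L
  have hsum : ¬ InK V L (fun z => L.weierstrassP z - c) (w₁ + w₂) := by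
    apply htwo _ _ a5
    rw [mul_add]; exact add_mem a1 a3
  have hdiff : ¬ InK V L (fun z => L.weierstrassP z - c) (w₁ - w₂) := by
    apply htwo _ _ a6
    rw [mul_sub]; exact sub_mem a1 a3
  have hpol := (hPOL L M c mu H I.mu_ne I.sub hH).1 w₁ w₂ a1 a2 a3 a4
  unfold QI CI at hpol
  refine red V H _ _ _ _ (fun p => L.weierstrassP p - c) (fun p => L.weierstrassP (w₁ + p) - c)
    (fun p => L.weierstrassP (w₂ + p) - c) ?_ hmu (hmem _ (htwo _ a1 a2)) (hmem _ (htwo _ a3 a4))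
    ?_ ?_ ?_ ?_ hpol
  · have h7 := sub_mem (hmemM _ (hlw _ a3 a4)) (hmemM _ (hlw _ a1 a2))
    rwa [sub_sub_sub_cancel_right] at h7
  · exact v_X_sub gL (htwo _ a1 a2) (htwo _ a3 a4) hsum hdiff
  · intro p hp
    apply hmem
    apply hno p (hH.mem p hp)
    intro hpL
    apply hH.ne p hp
    have := add_mem hpL hpL
    rwa [← two_mul] at this
  · intro p hp
    exact hmem _ (hadd _ a1 a2 p hp)
  · intro p hp
    exact hmem _ (hadd _ a3 a4 p hp)

end

end Pool.Agent.MUXV
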