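import Pool.Agent.MUX.StVX

/-!
# MUX, block R: module R4 (helper91; after helper18's V_R4)
-/

set_option autoImplicit false

open WeierstrassCurve Polynomial

namespace Pool.Agent.MUXV

open Pool.Agent.MU3B Pool.Agent.MUXU

namespace R491

variable {V : ValuationSubring ℂ}

lemma mulc {a b c d : ℂ} (ha : V.valuation a ≤ 1) (hd : V.valuation d ≤ 1)
    (h1 : V.valuation (a - b) < 1) (h2 : V.valuation (c - d) < 1) :
    V.valuation (a * c - b * d) < 1 := by
  have e : a * c - b * d = a * (c - d) + (a - b) * d := by ring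
  rw [e]
  refine V.valuation.map_add_lt ?_ ?_
  · rw [map_mul]
    exact lt_of_le_of_lt (mul_le_of_le_one_left' ha) h2
  · rw [map_mul]
    exact lt_of_le_of_lt (mul_le_of_le_one_right' hd) h1

lemma prodc (S : Finset ℂ) (f : ℂ → ℂ) (y : ℂ) (hy : V.valuation y ≤ 1)
    (hf : ∀ p ∈ S, V.valuation (f p) ≤ 1) (h : ∀ p ∈ S, V.valuation (f p - y) < 1) :
    V.valuation (∏ p ∈ S, f p) ≤ 1 ∧ V.valuation (∏ p ∈ S, f p - y ^ S.card) < 1 := by
  classical
  induction S using Finset.induction_on with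
  | empty => simp
  | insert a S ha ih =>
    obtain ⟨i1, i2⟩ := ih (fun p hp => hf p (Finset.mem_insert_of_mem hp))
      (fun p hp => h p (Finset.mem_insert_of_mem hp))
    have ha1 := hf a (Finset.mem_insert_self a S)
    rw [Finset.prod_insert ha, Finset.card_insert_of_notMem ha, pow_succ']
    refine ⟨?_, mulc ha1 ?_ (h a (Finset.mem_insert_self a S)) i2⟩
    · rw [map_mul]
      exact mul_le_one' ha1 i1
    · rw [map_pow]
      exact pow_le_one' hy _

lemma frob {q : ℕ} (hq : q.Prime) (hv : V.valuation (q : ℂ) < 1) {a b : ℂ}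
    (ha : V.valuation a ≤ 1) (hb : V.valuation b ≤ 1) :
    V.valuation (a ^ q - b ^ q - (a - b) ^ q) < 1 := by
  obtain ⟨a', rfl⟩ : ∃ a' : V, (a' : ℂ) = a :=
    ⟨⟨a, (ValuationSubring.valuation_le_one_iff _ _).1 ha⟩, rfl⟩
  obtain ⟨b', rfl⟩ : ∃ b' : V, (b' : ℂ) = b :=
    ⟨⟨b, (ValuationSubring.valuation_le_one_iff _ _).1 hb⟩, rfl⟩
  obtain ⟨r, hr⟩ := exists_add_pow_prime_eq hq (a' - b') b'
  have h1 := congrArg (Subtype.val : V → ℂ) hr
  push_cast at h1
  have e : (a' : ℂ) ^ q - (b' : ℂ) ^ q - ((a' : ℂ) - b') ^ q =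
      (q : ℂ) * (((a' - b') * b' * r : V) : ℂ) := by
    push_cast
    have e2 : (a' : ℂ) - b' + b' = a' := by ring
    rw [e2] at h1
    linear_combination h1
  rw [e, map_mul]
  exact lt_of_le_of_lt (mul_le_of_le_one_right'
    ((ValuationSubring.valuation_le_one_iff _ _).2 ((a' - b') * b' * r : V).2)) hv

lemma eqone {a b : ℂ} (hb : V.valuation b = 1) (h : V.valuation (a - b) < 1) :
    V.valuation a = 1 := by
  have e : a = (a - b) + b := by ring
  rw [e, V.valuation.map_add_eq_of_lt_right (by rwa [hb]), hb]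

/-- points of order two are not in the kernel of reduction -/
lemma ord2 {W : WeierstrassCurve.Affine ℂ} {L : PeriodPair} {X Y : ℂ → ℂ} {ξ : ℂ →+ W.Point}
    (G : GR V W L X Y ξ) {w : ℂ} (hw : 2 * w ∈ L.lattice) (hwL : w ∉ L.lattice) :
    ¬ InK V L X w := by
  intro h
  exact hwL (mem_of_nat_mul G h (n := 2) (by simpa using G.two) (by simpa using hw))

lemma half_aux (L : PeriodPair) :
    (2 * (L.ω₁ / 2) ∈ L.lattice ∧ L.ω₁ / 2 ∉ L.lattice) ∧
    (2 * (L.ω₂ / 2) ∈ L.lattice ∧ L.ω₂ / 2 ∉ L.lattice) ∧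
    (2 * (L.ω₂ / 2 + L.ω₁ / 2) ∈ L.lattice ∧ L.ω₂ / 2 + L.ω₁ / 2 ∉ L.lattice) ∧
    (2 * (L.ω₂ / 2 - L.ω₁ / 2) ∈ L.lattice ∧ L.ω₂ / 2 - L.ω₁ / 2 ∉ L.lattice) := by
  have h1 := L.ω₁_mem_lattice
  have h2 := L.ω₂_mem_lattice
  refine ⟨⟨?_, L.ω₁_div_two_notMem_lattice⟩, ⟨?_, L.ω₂_div_two_notMem_lattice⟩, ⟨?_, ?_⟩, ⟨?_, ?_⟩⟩
  · rwa [mul_div_cancel₀ _ (two_ne_zero)]
  · rwa [mul_div_cancel₀ _ (two_ne_zero)]
  · have e : 2 * (L.ω₂ / 2 + L.ω₁ / 2) = L.ω₂ + L.ω₁ := by ring
    rw [e]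
    exact add_mem h2 h1
  · have e : L.ω₂ / 2 + L.ω₁ / 2 = ((1 / 2 : ℚ) : ℂ) * L.ω₁ + ((1 / 2 : ℚ) : ℂ) * L.ω₂ := by
      push_cast
      ring
    rw [e, PeriodPair.mul_ω₁_add_mul_ω₂_mem_lattice]
    norm_num
  · have e : 2 * (L.ω₂ / 2 - L.ω₁ / 2) = L.ω₂ - L.ω₁ := by ring
    rw [e]
    exact sub_mem h2 h1
  · have e : L.ω₂ / 2 - L.ω₁ / 2 = ((-1 / 2 : ℚ) : ℂ) * L.ω₁ + ((1 / 2 : ℚ) : ℂ) * L.ω₂ := by
      push_cast
      ring
    rw [e, PeriodPair.mul_ω₁_add_mul_ω₂_mem_lattice]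
    norm_num

end R491

open R491 in
theorem tx_R4 (hPOL : Sx_POL) : Sx_R4 := by
  intro V L M c c' l q H hI hv hE
  obtain ⟨W, ξ, G⟩ := hI.redL
  obtain ⟨W', ξ', G'⟩ := hI.redM
  have hH := hI.half
  have hq := hI.prime
  have hcard := hI.card
  obtain ⟨hP1, -⟩ := hPOL L M c l H hI.mu_ne hI.sub hH
  -- points of order two
  have noL : ∀ w : ℂ, 2 * w ∈ L.lattice → w ∉ L.lattice → l * w ∉ M.lattice := by
    intro w hw hwL h
    obtain ⟨p, hp, h1⟩ := hH.surj w h hwL
    apply hH.ne p hp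
    rcases h1 with h1 | h1
    · have h3 := L.lattice.sub_mem hw (L.lattice.add_mem h1 h1)
      have e : 2 * w - (w - p + (w - p)) = 2 * p := by ring
      rwa [e] at h3
    · have h3 := L.lattice.sub_mem (L.lattice.add_mem h1 h1) hw
      have e : w + p + (w + p) - 2 * w = 2 * p := by ring
      rwa [e] at h3
  have ordl : ∀ w : ℂ, 2 * w ∈ L.lattice → 2 * (l * w) ∈ M.lattice := by
    intro w hw
    have h1 := hI.sub _ hw
    have e : l * (2 * w) = 2 * (l * w) := by ring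
    rwa [e] at h1
  -- the third part
  have third : ∀ w : ℂ, 2 * w ∈ L.lattice → w ∉ L.lattice → ∀ x ∈ V,
      V.valuation ((x - (L.weierstrassP w - c)) * (CI L c w H).eval x ^ 2 -
        (x - (L.weierstrassP w - c)) ^ q) < 1 := by
    intro w hw hwL x hx
    have hnE := ord2 G hw hwL
    have hx1 : V.valuation x ≤ 1 := (ValuationSubring.valuation_le_one_iff _ _).2 hx
    have hxw := (int_X hnE).2
    have hy : V.valuation (x - (L.weierstrassP w - c)) ≤ 1 := V.valuation.map_sub_le hx1 hxw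
    have hCe : (CI L c w H).eval x = ∏ p ∈ H, (x - (L.weierstrassP (w + p) - c)) := by
      rw [CI, eval_prod]
      simp
    obtain ⟨i1, i2⟩ := prodc (V := V) H (fun p => x - (L.weierstrassP (w + p) - c))
      (x - (L.weierstrassP w - c)) hy
      (fun p hp => by
        have h3 := (near G hnE (hE p (hH.mem p hp)) (fun h => hH.ne p hp (by
          rw [two_mul]
          exact L.lattice.add_mem h h))).1
        exact V.valuation.map_sub_le hx1 (int_X h3).2)
      (fun p hp => by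
        have h3 := (near_lt G hnE (hE p (hH.mem p hp))).1
        have e : x - (L.weierstrassP (w + p) - c) - (x - (L.weierstrassP w - c)) =
            -((L.weierstrassP (w + p) - c) - (L.weierstrassP w - c)) := by ring
        rw [e, Valuation.map_neg]
        exact h3)
    rw [← hCe] at i1 i2
    have hyc : V.valuation ((x - (L.weierstrassP w - c)) ^ H.card) ≤ 1 := by
      rw [map_pow]
      exact pow_le_one' hy _
    have h4 := mulc i1 hyc i2 i2
    have h5 := mulc (a := x - (L.weierstrassP w - c)) (b := x - (L.weierstrassP w - c)) hy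
      (d := (x - (L.weierstrassP w - c)) ^ H.card * (x - (L.weierstrassP w - c)) ^ H.card) (by
        rw [map_mul]
        exact mul_le_one' hyc hyc) (by rw [sub_self, map_zero]; exact zero_lt_one) h4
    have e1 : (x - (L.weierstrassP w - c)) * ((x - (L.weierstrassP w - c)) ^ H.card *
        (x - (L.weierstrassP w - c)) ^ H.card) = (x - (L.weierstrassP w - c)) ^ q := by
      rw [← hcard]
      ring
    rw [e1, ← pow_two] at h5
    exact h5
  -- the second part
  have second : ∀ w₁ w₂ : ℂ, 2 * w₁ ∈ L.lattice → w₁ ∉ L.lattice → 2 * w₂ ∈ L.lattice →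
      w₂ ∉ L.lattice → ∀ x ∈ V,
      V.valuation ((M.weierstrassP (l * w₂) - M.weierstrassP (l * w₁)) *
        (QI L c l H).eval x ^ 2 - (L.weierstrassP w₂ - L.weierstrassP w₁) ^ q) < 1 := by
    intro w₁ w₂ a1 a2 b1 b2 x hx
    have h3 := congrArg (fun f : ℂ[X] => f.eval x) (hP1 w₁ w₂ a1 a2 b1 b2)
    simp only [eval_mul, eval_sub, eval_C, eval_X, eval_pow] at h3
    have t1 := third w₁ a1 a2 x hx
    have t2 := third w₂ b1 b2 x hx
    have hx1 : V.valuation x ≤ 1 := (ValuationSubring.valuation_le_one_iff _ _).2 hx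
    have t3 := frob (V := V) hq hv (a := x - (L.weierstrassP w₁ - c))
      (b := x - (L.weierstrassP w₂ - c))
      (V.valuation.map_sub_le hx1 (int_X (ord2 G a1 a2)).2)
      (V.valuation.map_sub_le hx1 (int_X (ord2 G b1 b2)).2)
    have e2 : x - (L.weierstrassP w₁ - c) - (x - (L.weierstrassP w₂ - c)) =
        L.weierstrassP w₂ - L.weierstrassP w₁ := by ring
    rw [e2] at t3
    rw [h3]
    have e : (x - (L.weierstrassP w₁ - c)) * eval x (CI L c w₁ H) ^ 2 -
        (x - (L.weierstrassP w₂ - c)) * eval x (CI L c w₂ H) ^ 2 -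
          (L.weierstrassP w₂ - L.weierstrassP w₁) ^ q =
        ((x - (L.weierstrassP w₁ - c)) * eval x (CI L c w₁ H) ^ 2 -
          (x - (L.weierstrassP w₁ - c)) ^ q) +
        (-((x - (L.weierstrassP w₂ - c)) * eval x (CI L c w₂ H) ^ 2 -
          (x - (L.weierstrassP w₂ - c)) ^ q) +
        ((x - (L.weierstrassP w₁ - c)) ^ q - (x - (L.weierstrassP w₂ - c)) ^ q -
          (L.weierstrassP w₂ - L.weierstrassP w₁) ^ q)) := by
      ring
    rw [e]
    exact V.valuation.map_add_lt t1 (V.valuation.map_add_lt (by rwa [Valuation.map_neg]) t3)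
  refine ⟨?_, second, third⟩
  -- the first part
  obtain ⟨⟨a1, a2⟩, ⟨b1, b2⟩, ⟨c1, c2⟩, d1, d2⟩ := half_aux L
  generalize L.ω₁ / 2 = w₁ at a1 a2 c1 c2 d1 d2
  generalize L.ω₂ / 2 = w₂ at b1 b2 c1 c2 d1 d2
  have u1 : V.valuation (L.weierstrassP w₂ - L.weierstrassP w₁) = 1 := by
    have h := v_X_sub G (ord2 G b1 b2) (ord2 G a1 a2) (ord2 G c1 c2) (ord2 G d1 d2)
    have e : L.weierstrassP w₂ - c - (L.weierstrassP w₁ - c) =
        L.weierstrassP w₂ - L.weierstrassP w₁ := by ring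
    simp only [e] at h
    exact h
  have u2 : V.valuation (M.weierstrassP (l * w₂) - M.weierstrassP (l * w₁)) = 1 := by
    have h := v_X_sub G' (z := l * w₂) (w := l * w₁) (ord2 G' (ordl _ b1) (noL _ b1 b2))
      (ord2 G' (ordl _ a1) (noL _ a1 a2))
      (by
        rw [← mul_add]
        exact ord2 G' (ordl _ c1) (noL _ c1 c2))
      (by
        rw [← mul_sub]
        exact ord2 G' (ordl _ d1) (noL _ d1 d2))
    have e : M.weierstrassP (l * w₂) - c' - (M.weierstrassP (l * w₁) - c') =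
        M.weierstrassP (l * w₂) - M.weierstrassP (l * w₁) := by ring
    simp only [e] at h
    exact h
  have h3 := second w₁ w₂ a1 a2 b1 b2 0 (zero_mem V)
  have h4 := eqone (by rw [map_pow, u1, one_pow]) h3
  rw [map_mul, u2, one_mul, map_pow] at h4
  have h5 : V.valuation ((QI L c l H).eval 0) = 1 := (pow_eq_one_iff.1 h4).resolve_right two_ne_zero
  have h6 : (QI L c l H).eval 0 = l * ∏ p ∈ H, (-(L.weierstrassP p - c)) := by
    rw [QI, eval_mul, eval_C, eval_prod]
    simp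
  rw [h6, map_mul, map_prod] at h5
  simp only [Valuation.map_neg] at h5
  exact h5

end Pool.Agent.MUXV
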