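import Pool.Agent.MUX.StVX
import Pool.Agent.MU3.StA

/-!
# MUX, block R: module R5 (an isogeny reduces to the Frobenius, up to a scalar)
-/

set_option autoImplicit false

open WeierstrassCurve Polynomial

namespace Pool.Agent.MUXV

open Pool.Agent.MU3B Pool.Agent.MU3A Pool.Agent.MUXU

noncomputable section

namespace R5

/-- the computation in the residue field -/
lemma coreK {κ : Type*} [Field κ] (q : ℕ) [Fact q.Prime] [CharP κ q] (hq : Odd q)
    (h3 : (3 : κ) ≠ 0) {e1 e2 e3 f1 f2 f3 c G2 G3 G2' G3' : κ}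
    (h21 : (f2 - f1) * c = (e2 - e1) ^ q) (h31 : (f3 - f1) * c = (e3 - e1) ^ q)
    (h32 : (f3 - f2) * c = (e3 - e2) ^ q)
    (s1 : e1 + e2 + e3 = 0) (t1 : f1 + f2 + f3 = 0)
    (s2 : e1 * e2 + e1 * e3 + e2 * e3 = -G2) (t2 : f1 * f2 + f1 * f3 + f2 * f3 = -G2')
    (s3 : e1 * e2 * e3 = G3) (t3 : f1 * f2 * f3 = G3') :
    G2 ^ q = c ^ 2 * G2' ∧ G3 ^ q = c ^ 3 * G3' ∧ e1 ^ q = c * f1 := by
  rw [sub_pow_char] at h21 h31 h32
  have s1q : e1 ^ q + e2 ^ q + e3 ^ q = 0 := by
    rw [← add_pow_char, ← add_pow_char, s1]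
    exact zero_pow hq.pos.ne'
  have a1 : e1 ^ q = c * f1 := by
    apply mul_left_cancel₀ h3
    linear_combination h21 + h31 + s1q - c * t1
  have a2 : e2 ^ q = c * f2 := by
    apply mul_left_cancel₀ h3
    linear_combination h32 - h21 + s1q - c * t1
  have a3 : e3 ^ q = c * f3 := by
    apply mul_left_cancel₀ h3
    linear_combination (-1) * h31 - h32 + s1q - c * t1
  refine ⟨?_, ?_, a1⟩
  · have h := congrArg (fun x => x ^ q) s2
    simp only [add_pow_char, mul_pow] at h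
    rw [a1, a2, a3, hq.neg_pow] at h
    linear_combination h - c ^ 2 * t2
  · have h := congrArg (fun x => x ^ q) s3
    simp only [mul_pow] at h
    rw [a1, a2, a3] at h
    linear_combination (-1) * h + c ^ 3 * t3

lemma res_eq_iff (V : ValuationSubring ℂ) (a b : V) :
    IsLocalRing.residue V a = IsLocalRing.residue V b ↔ V.valuation ((a : ℂ) - b) < 1 := by
  rw [← sub_eq_zero, ← map_sub, IsLocalRing.residue_eq_zero_iff,
    ValuationSubring.valuation_lt_one_iff]
  rfl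

lemma res_ne_iff (V : ValuationSubring ℂ) (a : V) :
    IsLocalRing.residue V a ≠ 0 ↔ V.valuation (a : ℂ) = 1 := by
  rw [Ne, IsLocalRing.residue_eq_zero_iff, ValuationSubring.valuation_lt_one_iff, not_lt]
  constructor
  · intro h
    exact le_antisymm ((ValuationSubring.valuation_le_one_iff _ _).2 a.2) h
  · intro h
    exact h.ge

lemma nat_ne (V : ValuationSubring ℂ) (n : ℕ) (h : V.valuation (n : ℂ) = 1) :
    ((n : ℕ) : IsLocalRing.ResidueField V) ≠ 0 := by
  have h' := (res_ne_iff V (n : V)).2 (by simpa using h)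
  rwa [map_natCast] at h'

/-- the same computation, modulo the maximal ideal of `V` -/
lemma coreV (V : ValuationSubring ℂ) (q : ℕ) (hqp : q.Prime) (hq : Odd q)
    (hvq : V.valuation (q : ℂ) < 1)
    (h3 : V.valuation (3 : ℂ) = 1) {e1 e2 e3 f1 f2 f3 c G2 G3 G2' G3' : ℂ}
    (me1 : e1 ∈ V) (me2 : e2 ∈ V) (me3 : e3 ∈ V) (mf1 : f1 ∈ V) (mf2 : f2 ∈ V) (mf3 : f3 ∈ V)
    (mc : c ∈ V) (mG2 : G2 ∈ V) (mG3 : G3 ∈ V) (mG2' : G2' ∈ V) (mG3' : G3' ∈ V)
    (h21 : V.valuation ((f2 - f1) * c - (e2 - e1) ^ q) < 1)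
    (h31 : V.valuation ((f3 - f1) * c - (e3 - e1) ^ q) < 1)
    (h32 : V.valuation ((f3 - f2) * c - (e3 - e2) ^ q) < 1)
    (s1 : e1 + e2 + e3 = 0) (t1 : f1 + f2 + f3 = 0)
    (s2 : e1 * e2 + e1 * e3 + e2 * e3 = -G2) (t2 : f1 * f2 + f1 * f3 + f2 * f3 = -G2')
    (s3 : e1 * e2 * e3 = G3) (t3 : f1 * f2 * f3 = G3') :
    V.valuation (G2 ^ q - c ^ 2 * G2') < 1 ∧ V.valuation (G3 ^ q - c ^ 3 * G3') < 1 ∧
      V.valuation (e1 ^ q - c * f1) < 1 := by
  obtain ⟨E1, rfl⟩ : ∃ a : V, (a : ℂ) = e1 := ⟨⟨e1, me1⟩, rfl⟩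
  obtain ⟨E2, rfl⟩ : ∃ a : V, (a : ℂ) = e2 := ⟨⟨e2, me2⟩, rfl⟩
  obtain ⟨E3, rfl⟩ : ∃ a : V, (a : ℂ) = e3 := ⟨⟨e3, me3⟩, rfl⟩
  obtain ⟨F1, rfl⟩ : ∃ a : V, (a : ℂ) = f1 := ⟨⟨f1, mf1⟩, rfl⟩
  obtain ⟨F2, rfl⟩ : ∃ a : V, (a : ℂ) = f2 := ⟨⟨f2, mf2⟩, rfl⟩
  obtain ⟨F3, rfl⟩ : ∃ a : V, (a : ℂ) = f3 := ⟨⟨f3, mf3⟩, rfl⟩
  obtain ⟨K, rfl⟩ : ∃ a : V, (a : ℂ) = c := ⟨⟨c, mc⟩, rfl⟩
  obtain ⟨H2, rfl⟩ : ∃ a : V, (a : ℂ) = G2 := ⟨⟨G2, mG2⟩, rfl⟩
  obtain ⟨H3, rfl⟩ : ∃ a : V, (a : ℂ) = G3 := ⟨⟨G3, mG3⟩, rfl⟩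
  obtain ⟨H2', rfl⟩ : ∃ a : V, (a : ℂ) = G2' := ⟨⟨G2', mG2'⟩, rfl⟩
  obtain ⟨H3', rfl⟩ : ∃ a : V, (a : ℂ) = G3' := ⟨⟨G3', mG3'⟩, rfl⟩
  have : Fact q.Prime := ⟨hqp⟩
  have hq0 : ((q : ℕ) : IsLocalRing.ResidueField V) = 0 := by
    have h := (res_eq_iff V (q : V) 0).2 (by simpa using hvq)
    rw [map_zero, map_natCast] at h
    exact h
  have : CharP (IsLocalRing.ResidueField V) q := (CharP.charP_iff_prime_eq_zero hqp).2 hq0
  have h3' : (3 : IsLocalRing.ResidueField V) ≠ 0 := by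
    have h := nat_ne V 3 (by exact_mod_cast h3)
    exact_mod_cast h
  have key := coreK (κ := IsLocalRing.ResidueField V) q hq h3'
    (e1 := IsLocalRing.residue V E1) (e2 := IsLocalRing.residue V E2)
    (e3 := IsLocalRing.residue V E3) (f1 := IsLocalRing.residue V F1)
    (f2 := IsLocalRing.residue V F2) (f3 := IsLocalRing.residue V F3)
    (c := IsLocalRing.residue V K) (G2 := IsLocalRing.residue V H2)
    (G3 := IsLocalRing.residue V H3) (G2' := IsLocalRing.residue V H2')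
    (G3' := IsLocalRing.residue V H3')
    (by
      rw [← map_sub, ← map_sub, ← map_mul, ← map_pow, res_eq_iff]
      push_cast
      exact h21)
    (by
      rw [← map_sub, ← map_sub, ← map_mul, ← map_pow, res_eq_iff]
      push_cast
      exact h31)
    (by
      rw [← map_sub, ← map_sub, ← map_mul, ← map_pow, res_eq_iff]
      push_cast
      exact h32)
    (by
      rw [← map_add, ← map_add, ← map_zero (IsLocalRing.residue V)]
      congr 1
      exact Subtype.ext (by push_cast; exact s1))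
    (by
      rw [← map_add, ← map_add, ← map_zero (IsLocalRing.residue V)]
      congr 1
      exact Subtype.ext (by push_cast; exact t1))
    (by
      rw [← map_mul, ← map_mul, ← map_mul, ← map_add, ← map_add, ← map_neg]
      congr 1
      exact Subtype.ext (by push_cast; exact s2))
    (by
      rw [← map_mul, ← map_mul, ← map_mul, ← map_add, ← map_add, ← map_neg]
      congr 1
      exact Subtype.ext (by push_cast; exact t2))
    (by
      rw [← map_mul, ← map_mul]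
      congr 1
      exact Subtype.ext (by push_cast; exact s3))
    (by
      rw [← map_mul, ← map_mul]
      congr 1
      exact Subtype.ext (by push_cast; exact t3))
  obtain ⟨k1, k2, k3⟩ := key
  refine ⟨?_, ?_, ?_⟩
  · rw [← map_pow, ← map_pow, ← map_mul, res_eq_iff] at k1
    push_cast at k1
    exact k1
  · rw [← map_pow, ← map_pow, ← map_mul, res_eq_iff] at k2
    push_cast at k2
    exact k2
  · rw [← map_pow, ← map_mul, res_eq_iff] at k3
    push_cast at k3
    exact k3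

/-- `x ↦ x ^ q` is additive modulo the maximal ideal -/
lemma frob_sub (V : ValuationSubring ℂ) (q : ℕ) (hqp : q.Prime)
    (hvq : V.valuation (q : ℂ) < 1) {a b : ℂ} (ha : a ∈ V) (hb : b ∈ V) :
    V.valuation ((a - b) ^ q - (a ^ q - b ^ q)) < 1 := by
  obtain ⟨E1, rfl⟩ : ∃ c : V, (c : ℂ) = a := ⟨⟨a, ha⟩, rfl⟩
  obtain ⟨E2, rfl⟩ : ∃ c : V, (c : ℂ) = b := ⟨⟨b, hb⟩, rfl⟩
  have : Fact q.Prime := ⟨hqp⟩
  have hq0 : ((q : ℕ) : IsLocalRing.ResidueField V) = 0 := by
    have h := (res_eq_iff V (q : V) 0).2 (by simpa using hvq)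
    rw [map_zero, map_natCast] at h
    exact h
  have : CharP (IsLocalRing.ResidueField V) q := (CharP.charP_iff_prime_eq_zero hqp).2 hq0
  have h := (res_eq_iff V ((E1 - E2) ^ q) (E1 ^ q - E2 ^ q)).1 (by
    rw [map_pow, map_sub, map_sub, map_pow, map_pow, sub_pow_char])
  push_cast at h
  exact h

/-- integrality of the invariants -/
lemma inv_mem {V : ValuationSubring ℂ} {a b c G2 G3 : ℂ} (ha : a ∈ V) (hb : b ∈ V) (hc : c ∈ V)
    (s2 : a * b + a * c + b * c = -G2) (s3 : a * b * c = G3) : G2 ∈ V ∧ G3 ∈ V := by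
  constructor
  · have h : -(a * b + a * c + b * c) ∈ V :=
      neg_mem (add_mem (add_mem (mul_mem ha hb) (mul_mem ha hc)) (mul_mem hb hc))
    rwa [s2, neg_neg] at h
  · rw [← s3]
    exact mul_mem (mul_mem ha hb) hc

end R5

open R5 Pool.Agent.MU3.Val in
theorem tx_R5 (h1 : Sx_POL) (h3 : Sx_R2) (h4 : Sx_R4) (h7 : Sa_ROO) : Sx_R5 := by
  intro V L M c c' mu q H hI v3 hc hc' hvq hvmu
  obtain ⟨WL, ξL, gL⟩ := hI.redL
  obtain ⟨WM, ξM, gM⟩ := hI.redM
  have v2 : V.valuation 2 = 1 := gL.two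
  have hqp := hI.prime
  have hH := hI.half
  have hl0 := hI.mu_ne
  have hE := h3 V L M c c' mu q H hI hvmu
  obtain ⟨-, r2, r3⟩ := h4 V L M c c' mu q H hI hvq hE
  have hodd : Odd q := ⟨H.card, hI.card.symm⟩
  have hlL : ∀ u ∈ L.lattice, mu * u ∈ M.lattice := hI.sub
  have ordL : ∀ w, 2 * w ∈ L.lattice → w ∉ L.lattice →
      ¬ InK V L (fun z => L.weierstrassP z - c) w :=
    fun w h2w hw hE' => hw (mem_of_nat_mul gL hE' (n := 2) (by exact_mod_cast v2)
      (by exact_mod_cast h2w))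
  have ordM : ∀ w, 2 * w ∈ M.lattice → w ∉ M.lattice →
      ¬ InK V M (fun z => M.weierstrassP z - c') w :=
    fun w h2w hw hE' => hw (mem_of_nat_mul gM hE' (n := 2) (by exact_mod_cast v2)
      (by exact_mod_cast h2w))
  have lord : ∀ w, 2 * w ∈ L.lattice → w ∉ L.lattice → mu * w ∉ M.lattice := by
    intro w h2w hw hlw
    obtain ⟨p, hp, hp'⟩ := hH.surj w hlw hw
    apply hH.ne p hp
    rcases hp' with h | h
    · have := sub_mem h2w (add_mem h h)
      convert this using 1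
      ring
    · have := sub_mem (add_mem h h) h2w
      convert this using 1
      ring
  have lord2 : ∀ w, 2 * w ∈ L.lattice → 2 * (mu * w) ∈ M.lattice := by
    intro w h2w
    have := hlL _ h2w
    convert this using 1
    ring
  obtain ⟨w1, hw1⟩ : ∃ w, w = L.ω₁ / 2 := ⟨_, rfl⟩
  obtain ⟨w2, hw2⟩ : ∃ w, w = L.ω₂ / 2 := ⟨_, rfl⟩
  have m1 : w1 ∉ L.lattice := by
    rw [hw1]
    exact L.ω₁_div_two_notMem_lattice
  have m2 : w2 ∉ L.lattice := by
    rw [hw2]
    exact L.ω₂_div_two_notMem_lattice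
  have m3 : w1 + w2 ∉ L.lattice := by
    have h := (L.mul_ω₁_add_mul_ω₂_mem_lattice (α := 1 / 2) (β := 1 / 2)).not.mpr (by norm_num)
    rw [hw1, hw2]
    convert h using 2
    push_cast
    ring
  have t1 : 2 * w1 ∈ L.lattice := by
    rw [hw1]
    convert L.ω₁_mem_lattice using 1
    ring
  have t2 : 2 * w2 ∈ L.lattice := by
    rw [hw2]
    convert L.ω₂_mem_lattice using 1
    ring
  have t3 : 2 * (w1 + w2) ∈ L.lattice := by
    rw [mul_add]
    exact add_mem t1 t2
  have l3 : mu * w1 + mu * w2 ∉ M.lattice := by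
    rw [← mul_add]
    exact lord _ t3 m3
  obtain ⟨-, -, -, s1, s2, s3⟩ := h7 L w1 w2 m1 m2 m3 t1 t2
  obtain ⟨-, -, -, s1', s2', s3'⟩ := h7 M (mu * w1) (mu * w2) (lord _ t1 m1)
    (lord _ t2 m2) l3 (lord2 _ t1) (lord2 _ t2)
  have hxV : ∀ w, ¬ InK V L (fun z => L.weierstrassP z - c) w → L.weierstrassP w - c ∈ V := by
    intro w hw
    exact (ValuationSubring.valuation_le_one_iff _ _).1 (int_X hw).2
  have hpV : ∀ w, ¬ InK V L (fun z => L.weierstrassP z - c) w → L.weierstrassP w ∈ V := by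
    intro w hw
    have := add_mem (hxV w hw) hc
    rwa [sub_add_cancel] at this
  have hpM : ∀ w, ¬ InK V M (fun z => M.weierstrassP z - c') w → M.weierstrassP w ∈ V := by
    intro w hw
    have := add_mem ((ValuationSubring.valuation_le_one_iff _ _).1 (int_X hw).2) hc'
    simpa using this
  have e1V := hpV _ (ordL _ t1 m1)
  have e2V := hpV _ (ordL _ t2 m2)
  have e3V := hpV _ (ordL _ t3 m3)
  have f1V := hpM _ (ordM _ (lord2 _ t1) (lord _ t1 m1))
  have f2V := hpM _ (ordM _ (lord2 _ t2) (lord _ t2 m2))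
  have f3V : M.weierstrassP (mu * w1 + mu * w2) ∈ V :=
    hpM _ (ordM _ (by rw [mul_add]; exact add_mem (lord2 _ t1) (lord2 _ t2)) l3)
  obtain ⟨mG2, mG3⟩ := inv_mem e1V e2V e3V s2 s3
  obtain ⟨mG2', mG3'⟩ := inv_mem f1V f2V f3V s2' s3'
  -- the differences are units
  have hunitM : V.valuation (M.weierstrassP (mu * w2) - M.weierstrassP (mu * w1)) = 1 := by
    have h := v_X_sub gM (ordM _ (lord2 _ t2) (lord _ t2 m2))
      (ordM _ (lord2 _ t1) (lord _ t1 m1))
      (ordM _ (by rw [mul_add]; exact add_mem (lord2 _ t2) (lord2 _ t1))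
        (by rw [add_comm]; exact l3))
      (ordM _ (by rw [mul_sub]; exact sub_mem (lord2 _ t2) (lord2 _ t1))
        (by
          intro h
          apply l3
          have := add_mem h (lord2 _ t1)
          convert this using 1
          ring))
    rwa [sub_sub_sub_cancel_right] at h
  have hunitL : V.valuation (L.weierstrassP w2 - L.weierstrassP w1) = 1 := by
    have h := v_X_sub gL (ordL _ t2 m2) (ordL _ t1 m1)
      (ordL _ (by rw [mul_add]; exact add_mem t2 t1) (by rw [add_comm]; exact m3))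
      (ordL _ (by rw [mul_sub]; exact sub_mem t2 t1)
        (by
          intro h
          apply m3
          have := add_mem h t1
          convert this using 1
          ring))
    rwa [sub_sub_sub_cancel_right] at h
  -- the value of the square
  have hcu : ∀ x ∈ V, V.valuation ((QI L c mu H).eval x ^ 2) = 1 := by
    intro x hx
    have h := r2 w1 w2 t1 m1 t2 m2 x hx
    have e : V.valuation ((QI L c mu H).eval x ^ 2) =
        V.valuation ((M.weierstrassP (mu * w2) - M.weierstrassP (mu * w1)) *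
          (QI L c mu H).eval x ^ 2) := by
      rw [map_mul, hunitM, one_mul]
    have e' : (M.weierstrassP (mu * w2) - M.weierstrassP (mu * w1)) *
          (QI L c mu H).eval x ^ 2 =
        (L.weierstrassP w2 - L.weierstrassP w1) ^ q +
        ((M.weierstrassP (mu * w2) - M.weierstrassP (mu * w1)) *
          (QI L c mu H).eval x ^ 2 - (L.weierstrassP w2 - L.weierstrassP w1) ^ q) := by ring
    have e'' : V.valuation ((L.weierstrassP w2 - L.weierstrassP w1) ^ q) = 1 := by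
      rw [map_pow, hunitL, one_pow]
    rw [e, e', Valuation.map_add_eq_of_lt_left, e'']
    rw [e'']
    exact h
  have hc0 := hcu 0 (zero_mem _)
  obtain ⟨κ, hκ⟩ : ∃ κ, κ = (QI L c mu H).eval 0 ^ 2 := ⟨_, rfl⟩
  rw [← hκ] at hc0
  have hκV : κ ∈ V := (ValuationSubring.valuation_le_one_iff _ _).1 hc0.le
  have hcon : ∀ x ∈ V, V.valuation ((QI L c mu H).eval x ^ 2 - κ) < 1 := by
    intro x hx
    have a1 := r2 w1 w2 t1 m1 t2 m2 x hx
    have a0 := r2 w1 w2 t1 m1 t2 m2 0 (zero_mem _)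
    rw [← hκ] at a0
    have a2 := Valuation.map_sub_lt _ a1 a0
    have e : (M.weierstrassP (mu * w2) - M.weierstrassP (mu * w1)) * (QI L c mu H).eval x ^ 2 -
        (L.weierstrassP w2 - L.weierstrassP w1) ^ q -
        ((M.weierstrassP (mu * w2) - M.weierstrassP (mu * w1)) * κ -
        (L.weierstrassP w2 - L.weierstrassP w1) ^ q) =
        (M.weierstrassP (mu * w2) - M.weierstrassP (mu * w1)) *
          ((QI L c mu H).eval x ^ 2 - κ) := by ring
    rwa [e, map_mul, hunitM, one_mul] at a2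
  have k21 := r2 w1 w2 t1 m1 t2 m2 0 (zero_mem _)
  have k31 := r2 w1 (w1 + w2) t1 m1 t3 m3 0 (zero_mem _)
  have k32 := r2 w2 (w1 + w2) t2 m2 t3 m3 0 (zero_mem _)
  rw [mul_add] at k31 k32
  rw [← hκ] at k21 k31 k32
  obtain ⟨i2, i3, i1⟩ := coreV V q hqp hodd hvq v3 (e1 := L.weierstrassP w1)
    (e2 := L.weierstrassP w2)
    (e3 := L.weierstrassP (w1 + w2)) (f1 := M.weierstrassP (mu * w1))
    (f2 := M.weierstrassP (mu * w2)) (f3 := M.weierstrassP (mu * w1 + mu * w2))
    (G2 := L.g₂ / 4) (G3 := L.g₃ / 4) (G2' := M.g₂ / 4) (G3' := M.g₃ / 4)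
    e1V e2V e3V f1V f2V f3V hκV mG2 mG3 mG2' mG3' k21 k31 k32 s1 s1' s2 s2' s3 s3'
  refine ⟨κ, hc0, i2, i3, ?_⟩
  -- conclusion
  intro z hz
  have hx0 : L.weierstrassP z - c ∈ V := hxV z hz
  have hlz : mu * z ∉ M.lattice := fun h => hz (hE z h)
  have hpol := (h1 L M c mu H hl0 hI.sub hH).2 w1 t1 m1 z hlz
  have hr3 := r3 w1 t1 m1 _ hx0
  rw [sub_sub_sub_cancel_right, ← hpol] at hr3
  have hzV := hpV z hz
  have hcz := hcu _ hx0
  have hD1 : V.valuation (M.weierstrassP (mu * z) - M.weierstrassP (mu * w1)) ≤ 1 := by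
    have e : V.valuation (M.weierstrassP (mu * z) - M.weierstrassP (mu * w1)) =
        V.valuation ((M.weierstrassP (mu * z) - M.weierstrassP (mu * w1)) *
          (QI L c mu H).eval (L.weierstrassP z - c) ^ 2) := by
      rw [map_mul, hcz, mul_one]
    have e' : (M.weierstrassP (mu * z) - M.weierstrassP (mu * w1)) *
          (QI L c mu H).eval (L.weierstrassP z - c) ^ 2 =
        ((M.weierstrassP (mu * z) - M.weierstrassP (mu * w1)) *
          (QI L c mu H).eval (L.weierstrassP z - c) ^ 2 -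
            (L.weierstrassP z - L.weierstrassP w1) ^ q) +
          (L.weierstrassP z - L.weierstrassP w1) ^ q := by ring
    rw [e, e']
    refine v_add_le hr3.le ?_
    rw [ValuationSubring.valuation_le_one_iff]
    exact pow_mem (sub_mem hzV e1V) q
  have hlzV : M.weierstrassP (mu * z) ∈ V := by
    have := add_mem ((ValuationSubring.valuation_le_one_iff _ _).1 hD1) f1V
    rwa [sub_add_cancel] at this
  refine ⟨?_, ?_⟩
  · intro h
    rcases h with h | h
    · exact hlz h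
    · exact h (sub_mem hlzV hc')
  · have b1 : V.valuation ((M.weierstrassP (mu * z) - M.weierstrassP (mu * w1)) *
        ((QI L c mu H).eval (L.weierstrassP z - c) ^ 2 - κ)) < 1 := by
      rw [map_mul]
      exact lt_of_le_of_lt (mul_le_of_le_one_left' hD1) (hcon _ hx0)
    have b2 := frob_sub V q hqp hvq hzV e1V
    have e : κ * M.weierstrassP (mu * z) - L.weierstrassP z ^ q =
        ((M.weierstrassP (mu * z) - M.weierstrassP (mu * w1)) *
          (QI L c mu H).eval (L.weierstrassP z - c) ^ 2 -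
            (L.weierstrassP z - L.weierstrassP w1) ^ q) -
        (M.weierstrassP (mu * z) - M.weierstrassP (mu * w1)) *
          ((QI L c mu H).eval (L.weierstrassP z - c) ^ 2 - κ) +
        ((L.weierstrassP z - L.weierstrassP w1) ^ q -
          (L.weierstrassP z ^ q - L.weierstrassP w1 ^ q)) -
        (L.weierstrassP w1 ^ q - κ * M.weierstrassP (mu * w1)) := by
      ring
    rw [e]
    exact Valuation.map_sub_lt _ (Valuation.map_add_lt _ (Valuation.map_sub_lt _ hr3 b1) b2) i1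

end

end Pool.Agent.MUXV
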