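import Pool.Agent.MUX.StVX

/-!
# MUX, block R, TRA: the coordinate of a point of the kernel, when `μ` is not a unit
-/

set_option autoImplicit false

open WeierstrassCurve

namespace Pool.Agent.MUXV

open Pool.Agent.MU3B Pool.Agent.MUXU

noncomputable section

namespace TRA

theorem int_mem (V : ValuationSubring ℂ) (n : ℤ) : (n : ℂ) ∈ V := intCast_mem V n

/-- a natural number prime to `q` is a unit -/
theorem v_nat_one {V : ValuationSubring ℂ} {q : ℕ} (hq : q.Prime) (hv : V.valuation (q : ℂ) < 1)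
    {m : ℕ} (hm : ¬ q ∣ m) : V.valuation (m : ℂ) = 1 := by
  have hle : V.valuation (m : ℂ) ≤ 1 := by
    have := (ValuationSubring.valuation_le_one_iff V ((m : ℤ) : ℂ)).2 (int_mem V m)
    simpa using this
  refine le_antisymm hle ?_
  by_contra hc
  push Not at hc
  have h1 : IsCoprime (m : ℤ) (q : ℤ) :=
    Nat.isCoprime_iff_coprime.2 ((Nat.Prime.coprime_iff_not_dvd hq).2 hm).symm
  obtain ⟨a, b, hab⟩ := h1
  have h2 : (a : ℂ) * m + b * q = 1 := by exact_mod_cast hab
  have h3 : V.valuation ((a : ℂ) * m + b * q) < 1 := by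
    have ha : V.valuation (a : ℂ) ≤ 1 :=
      (ValuationSubring.valuation_le_one_iff _ _).2 (int_mem V a)
    have hb : V.valuation (b : ℂ) ≤ 1 :=
      (ValuationSubring.valuation_le_one_iff _ _).2 (int_mem V b)
    refine V.valuation.map_add_lt ?_ ?_
    · rw [map_mul]
      exact mul_lt_of_le_one_of_lt ha hc
    · rw [map_mul]
      exact mul_lt_of_le_one_of_lt hb hv
  rw [h2, map_one] at h3
  exact lt_irrefl _ h3

section
variable {V : ValuationSubring ℂ} {W : WeierstrassCurve.Affine ℂ} {L : PeriodPair}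
  {X Y : ℂ → ℂ} {ξ : ℂ →+ W.Point}

theorem tX_congr (G : GR V W L X Y ξ) {z w : ℂ}
    (hz : z ∉ L.lattice) (hw : w ∉ L.lattice) (hzw : z - w ∈ L.lattice) :
    tX X Y z = tX X Y w := by
  rw [← zc_xi G hz, ← zc_xi G hw]
  have h1 := G.zero _ hzw
  rw [map_sub, sub_eq_zero] at h1
  rw [h1]

end

end TRA

open TRA in
/-- the coordinate of a point of the kernel, when `μ` is not a unit -/
theorem tx_TRA (hR2 : Sx_R2) (hR4 : Sx_R4) : Sx_TRA := by
  intro V L M c c' mu q H I hv hmu u hu huL
  obtain ⟨W, ξ, G⟩ := I.redL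
  have hq := I.prime
  have hin : ∀ u, mu * u ∈ M.lattice → InK V L (fun z => L.weierstrassP z - c) u :=
    fun u hu => hR2 V L M c c' mu q H I hmu u hu
  have h4 := (hR4 V L M c c' mu q H I hv hin).1
  have hu3 := v_tX_lt G (hin u hu) huL
  have hp : ∀ p ∈ H, V.valuation (L.weierstrassP p - c) = V.valuation (L.weierstrassP u - c) := by
    intro p hp
    have hpL : p ∉ L.lattice := fun h0 => I.half.ne p hp (by
      rw [two_mul]
      exact add_mem h0 h0)
    have hpl := I.half.mem p hp
    obtain ⟨m, hm⟩ := I.cyc p u hpl hu huL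
    have hqu := I.ord u hu
    have hq0 : (0 : ℤ) < q := by exact_mod_cast hq.pos
    obtain ⟨n, hn⟩ : ∃ n : ℕ, (n : ℤ) = m % q :=
      ⟨(m % q).toNat, Int.toNat_of_nonneg (Int.emod_nonneg _ hq0.ne')⟩
    have hmn : p - n * u ∈ L.lattice := by
      have e1 : (m : ℂ) = n + (q : ℂ) * (m / q : ℤ) := by
        have e2 : m = n + q * (m / q) := by
          rw [hn]
          exact (Int.emod_add_mul_ediv m q).symm
        exact_mod_cast congrArg (Int.cast : ℤ → ℂ) e2
      have e3 : p - n * u = (p - m * u) + ((m / q : ℤ) : ℤ) • ((q : ℂ) * u) := by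
        rw [e1, zsmul_eq_mul]
        ring
      rw [e3]
      exact add_mem hm (L.lattice.smul_mem _ hqu)
    have hnL : (n : ℂ) * u ∉ L.lattice := fun h0 => hpL (by
      have := add_mem hmn h0
      rwa [sub_add_cancel] at this)
    have hqn : ¬ q ∣ n := by
      rintro ⟨k, rfl⟩
      apply hnL
      have e4 : ((q * k : ℕ) : ℂ) * u = (k : ℤ) • ((q : ℂ) * u) := by
        rw [zsmul_eq_mul]
        push_cast
        ring
      rw [e4]
      exact L.lattice.smul_mem _ hqu
    have h5 := v_tX_nat G (hin u hu) (v_nat_one hq hv hqn) huL hnL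
    rw [← tX_congr G hpL hnL hmn] at h5
    have h6 := v_tX_lt G (hin p hpl) hpL
    have h7 := h6.2.2
    rw [h5] at h7
    have h8 : V.valuation (tX (fun z => L.weierstrassP z - c)
        (fun z => L.derivWeierstrassP z / 2) u) ^ 2 ≠ 0 := pow_ne_zero 2 hu3.2.1
    exact mul_right_cancel₀ h8 (h7.trans hu3.2.2.symm)
  rw [Finset.prod_congr rfl hp, Finset.prod_const] at h4
  have h8 : (q - 1) / 2 = H.card := by
    have := I.card
    omega
  rw [h8]
  exact h4

end

end Pool.Agent.MUXV
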