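import Pool.Agent.MUX.UAll
import Pool.Agent.MU3.A_ROO
import Pool.Agent.MU3.A_TW2
import Pool.Agent.MUX.R_FRN
import Pool.Agent.MUX.R_HAL
import Pool.Agent.MUX.R_HRE
import Pool.Agent.MUX.R_INJ
import Pool.Agent.MUX.R_MIN
import Pool.Agent.MUX.R_MLT
import Pool.Agent.MUX.R_MUN
import Pool.Agent.MUX.R_POL
import Pool.Agent.MUX.R_R2
import Pool.Agent.MUX.R_R4
import Pool.Agent.MUX.R_R5
import Pool.Agent.MUX.R_TRA
import Pool.Agent.MUX.R_XIC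
import Pool.Agent.MUX.Q_AEL
import Pool.Agent.MUX.Q_ALU
import Pool.Agent.MUX.Q_CYQ
import Pool.Agent.MUX.Q_DGI
import Pool.Agent.MUX.Q_DGL
import Pool.Agent.MUX.Q_EMB
import Pool.Agent.MUX.Q_ISQ
import Pool.Agent.MUX.Q_THU
import Pool.Agent.MUX.Q_TOR
import Pool.Agent.MUX.Q_TRC
import Pool.Agent.MUX.Q_VQI
import Pool.Agent.MUX.Q_YUN

/-!
# MUX, block R: the statements of `StVX.lean` and `StQX.lean` which are proved (all except NGR, FRX) (helper59)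
-/

set_option autoImplicit false

namespace Pool.Agent.MUXV

open Pool.Agent.MUXU

theorem x_HAL : Sx_HAL := tx_HAL u_BAC
theorem x_HRE : Sx_HRE := tx_HRE
theorem x_POL : Sx_POL := tx_POL u_PFI x_HRE
theorem x_R2 : Sx_R2 := tx_R2 x_POL
theorem x_R4 : Sx_R4 := tx_R4 x_POL
theorem x_ROO : MU3A.Sa_ROO := MU3A.ta_ROO (MU3A.ta_TW2 MU3B.b_ADD MU3B.b_ZER MU3B.b_NEQ) MU3B.b_NEQ
theorem x_R5 : Sx_R5 := tx_R5 x_POL x_R2 x_R4 x_ROO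
theorem x_TRA : Sx_TRA := tx_TRA x_R2 x_R4
theorem x_INJ : Sx_INJ := tx_INJ x_R4
theorem x_MIN : Sx_MIN := tx_MIN x_POL u_BAC
theorem x_MUN : Sx_MUN := tx_MUN x_MIN x_HAL
theorem x_MLT : Sx_MLT := tx_MLT x_MUN
theorem x_XIC : Sx_XIC := tx_XIC
theorem x_FRN : Sx_FRN := tx_FRN x_R5

theorem q_EMB : Sq_EMB := tq_EMB
theorem q_DGI : Sq_DGI := tq_DGI
theorem q_DGL : Sq_DGL := tq_DGL
theorem q_TRC : Sq_TRC := tq_TRC q_EMB
theorem q_CYQ : Sq_CYQ := tq_CYQ q_EMB q_DGI q_TRC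
theorem q_AEL : Sq_AEL := tq_AEL q_DGI q_EMB
theorem q_VQI : Sq_VQI := tq_VQI q_DGI q_EMB
theorem q_ISQ : Sq_ISQ := tq_ISQ q_CYQ q_AEL q_VQI q_EMB x_MLT x_MUN
theorem q_ALU : Sq_ALU := tq_ALU
theorem q_THU : Sq_THU := tq_THU
theorem q_YUN : Sq_YUN := tq_YUN
theorem q_TOR : Sq_TOR := tq_TOR q_EMB

end Pool.Agent.MUXV
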