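import Pool.Agent.MUX.ZDefsW
import Pool.Agent.MUX.ZY
import Pool.Agent.MUX.StJX
import Pool.Agent.MUX.RQ0
import Pool.Agent.MUX.E_RNG
import Pool.Agent.MU3.A_SCP
import Pool.Agent.MU3.BAll

/-!
# MUX: `weberField d` is contained in the union of the ray class fields (helper3)
-/

set_option autoImplicit false

namespace Pool.Agent.MUXZ

open _root_.MU3 Pool.Agent.MU3A Pool.Agent.MU3B Pool.Agent.MUX Pool.Agent.MUXJ Pool.Agent.MU3Z

/-- the parameters `A`, `B` of `ℚ(√-d)` -/
def pA (d : ℕ) : ℤ := if d % 4 = 3 then -((d + 1) / 4) else -d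

def pB (d : ℕ) : ℤ := if d % 4 = 3 then 1 else 0

lemma absD_p (d : ℕ) : absD (pA d) (pB d) = if d % 4 = 3 then (d : ℤ) else 4 * d := by
  unfold absD pA pB
  split_ifs with h
  · have : (4 : ℤ) ∣ (d : ℤ) + 1 := by omega
    obtain ⟨k, hk⟩ := this
    rw [hk]
    rw [Int.mul_ediv_cancel_left _ (by norm_num)]
    linarith
  · ring

lemma wC_p (d : ℕ) : wC (pA d) (pB d) = wd d := by
  unfold wC wd rt
  rw [absD_p]
  unfold pB
  split_ifs with h
  · push_cast
    ring
  · have : Real.sqrt ((4 * (d : ℤ) : ℤ) : ℝ) = 2 * Real.sqrt d := by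
      push_cast
      rw [show (4 : ℝ) = 2 ^ 2 by norm_num, Real.sqrt_mul (by positivity), Real.sqrt_sq (by norm_num)]
    rw [this]
    push_cast
    ring

lemma cq_p {d : ℕ} (hd : Squarefree d) : CQ (pA d) (pB d) := by
  have hd0 : d ≠ 0 := hd.ne_zero
  have h := absD_p d
  unfold absD at h
  refine ⟨?_, ?_, ?_, ?_⟩
  · unfold pB
    split_ifs <;> simp
  · split_ifs at h <;> omega
  · intro hB
    have h3 : d % 4 = 3 := by
      by_contra h3
      unfold pB at hB
      rw [if_neg h3] at hB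
      exact zero_ne_one hB
    rw [hB, if_pos h3] at h
    have : (1 : ℤ) + 4 * pA d = -(d : ℤ) := by linarith
    rw [this, ← Int.squarefree_natAbs, Int.natAbs_neg, Int.natAbs_natCast]
    exact hd
  · intro hB
    have h3 : ¬ d % 4 = 3 := by
      intro h3
      unfold pB at hB
      rw [if_pos h3] at hB
      exact one_ne_zero hB
    have hA : pA d = -(d : ℤ) := by
      unfold pA
      rw [if_neg h3]
    rw [hA]
    refine ⟨?_, by omega⟩
    rw [← Int.squarefree_natAbs, Int.natAbs_neg, Int.natAbs_natCast]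
    exact hd

lemma kk_p (d : ℕ) : kk (pA d) (pB d) = IntermediateField.adjoin ℚ {rt d} := by
  unfold kk
  rw [wC_p]
  apply le_antisymm
  · rw [IntermediateField.adjoin_simple_le_iff]
    have h1 : rt d ∈ IntermediateField.adjoin ℚ {rt d} :=
      IntermediateField.mem_adjoin_simple_self ℚ _
    unfold wd
    split_ifs
    · have h2 : (2 : ℂ) ∈ IntermediateField.adjoin ℚ {rt d} := by
        have := (IntermediateField.adjoin ℚ {rt d}).algebraMap_mem 2
        simpa using this
      exact div_mem (add_mem (one_mem _) h1) h2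
    · exact h1
  · rw [IntermediateField.adjoin_simple_le_iff]
    have h1 : wd d ∈ IntermediateField.adjoin ℚ {wd d} :=
      IntermediateField.mem_adjoin_simple_self ℚ _
    have h2 : (2 : ℂ) ∈ IntermediateField.adjoin ℚ {wd d} := by
      have := (IntermediateField.adjoin ℚ {wd d}).algebraMap_mem 2
      simpa using this
    have h3 : rt d = if d % 4 = 3 then 2 * wd d - 1 else wd d := by
      unfold wd
      split_ifs <;> ring
    rw [h3]
    split_ifs
    · exact sub_mem (mul_mem h2 h1) (one_mem _)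
    · exact h1

/-- the union of the ray class fields -/
noncomputable def UF {A B : ℤ} (h : CQ A B) (T : TorX A B) : IntermediateField ℚ ℂ where
  carrier := {x | ∃ m : Ideal (OO A B), m ≠ ⊥ ∧ x ∈ RF m}
  mul_mem' := by
    rintro x y ⟨m, hm, hx⟩ ⟨m', hm', hy⟩
    have hd : IsDomain (OO A B) := (MUXE.te_RNG A B h).ded.toIsDomain
    exact ⟨m * m', mul_ne_zero hm hm', mul_mem (T.mono m (m * m') (fun x hx => (Ideal.mul_le_inf hx).1) hx)
      (T.mono m' (m * m') (fun x hx => (Ideal.mul_le_inf hx).2) hy)⟩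
  add_mem' := by
    rintro x y ⟨m, hm, hx⟩ ⟨m', hm', hy⟩
    have hd : IsDomain (OO A B) := (MUXE.te_RNG A B h).ded.toIsDomain
    exact ⟨m * m', mul_ne_zero hm hm', add_mem (T.mono m (m * m') (fun x hx => (Ideal.mul_le_inf hx).1) hx)
      (T.mono m' (m * m') (fun x hx => (Ideal.mul_le_inf hx).2) hy)⟩
  inv_mem' := by
    rintro x ⟨m, hm, hx⟩
    exact ⟨m, hm, inv_mem hx⟩
  algebraMap_mem' := by
    intro r
    have hd : IsDomain (OO A B) := (MUXE.te_RNG A B h).ded.toIsDomain
    refine ⟨⊤, bot_ne_top.symm, ?_⟩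
    have := (RF (⊤ : Ideal (OO A B))).algebraMap_mem (algebraMap ℚ (kk A B) r)
    rwa [← IsScalarTower.algebraMap_apply] at this

/-- a lattice with complex multiplication comes from an ideal -/
lemma exists_ideal {A B : ℤ} (h : CQ A B) (L : PeriodPair)
    (hL : ∀ z ∈ L.lattice, wC A B * z ∈ L.lattice) :
    ∃ (b : Ideal (OO A B)) (om : ℂ), IsLI b L om := by
  obtain ⟨hmul, hadd, -, -, hnat, -, hsq, him, -, -, -, -, -⟩ :=
    Pool.Agent.MUXV.q_EMB A B (MUXY.cqF h)
  have hzero : emb (0 : OO A B) = 0 := by simpa using hnat 0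
  have h1 : L.ω₁ ∈ L.lattice := L.ω₁_mem_lattice
  have hind := LinearIndependent.pair_iff.mp L.indep
  have hω : L.ω₁ ≠ 0 := by
    intro h0
    have := hind 1 0 (by simp [h0])
    exact one_ne_zero this.1
  obtain ⟨a, b, hab⟩ := PeriodPair.mem_lattice.mp (hL _ h1)
  have hb : b ≠ 0 := by
    rintro rfl
    have h2 : wC A B = a := by
      have : (wC A B - a) * L.ω₁ = 0 := by
        push_cast at hab
        linear_combination -hab
      rcases mul_eq_zero.mp this with h3 | h3
      · linear_combination h3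
      · exact absurd h3 hω
    rw [h2] at him
    simp at him
  have hbC : (b : ℂ) ≠ 0 := by exact_mod_cast hb
  -- `b L ⊆ O ω₁`
  have hsub : ∀ z ∈ L.lattice, ∃ x : OO A B, z = L.ω₁ / b * emb x := by
    intro z hz
    obtain ⟨m, n, hmn⟩ := PeriodPair.mem_lattice.mp hz
    refine ⟨⟨b * m - n * a, n⟩, ?_⟩
    unfold emb
    push_cast
    rw [← hmn]
    field_simp
    linear_combination (n : ℂ) * hab
  have hO : ∀ (x : OO A B) (z : ℂ), z ∈ L.lattice → emb x * z ∈ L.lattice := by
    intro x z hz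
    have e : emb x * z = x.re • z + x.im • (wC A B * z) := by
      unfold emb
      rw [zsmul_eq_mul, zsmul_eq_mul]
      ring
    rw [e]
    exact add_mem (Submodule.smul_mem _ _ hz) (Submodule.smul_mem _ _ (hL z hz))
  let J : Ideal (OO A B) :=
    { carrier := {x | L.ω₁ / b * emb x ∈ L.lattice}
      add_mem' := by
        intro x y hx hy
        simp only [Set.mem_ofPred_eq] at hx hy ⊢
        rw [hadd, mul_add]
        exact add_mem hx hy
      zero_mem' := by
        simp only [Set.mem_ofPred_eq, hzero, mul_zero]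
        exact zero_mem _
      smul_mem' := by
        intro c x hx
        simp only [Set.mem_ofPred_eq, smul_eq_mul] at hx ⊢
        rw [hmul, show L.ω₁ / b * (emb c * emb x) = emb c * (L.ω₁ / b * emb x) by ring]
        exact hO c _ hx }
  refine ⟨J, L.ω₁ / b, ?_, div_ne_zero hω hbC, ?_⟩
  · intro h0
    have h2 : ((b : ℤ) : OO A B) ∈ J := by
      show L.ω₁ / b * emb ((b : ℤ) : OO A B) ∈ L.lattice
      have e : emb ((b : ℤ) : OO A B) = b := by
        unfold emb
        simp
      rw [e, div_mul_cancel₀ _ hbC]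
      exact h1
    rw [h0, Ideal.mem_bot] at h2
    have h3 := congrArg (fun x : OO A B => x.re) h2
    apply hb
    simpa using h3
  · intro z
    constructor
    · intro hz
      obtain ⟨x, hx⟩ := hsub z hz
      exact ⟨x, by show L.ω₁ / b * emb x ∈ L.lattice; rw [← hx]; exact hz, hx⟩
    · rintro ⟨x, hx, rfl⟩
      exact hx

/-- a lattice with complex multiplication can be normalised -/
lemma exists_norm {A B : ℤ} (h : CQ A B) (h3 : absD A B ≠ 3) (h4 : absD A B ≠ 4)
    (L : PeriodPair) (hL : ∀ z ∈ L.lattice, wC A B * z ∈ L.lattice) :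
    ∃ (b : Ideal (OO A B)) (L' : PeriodPair) (om u : ℂ), IsNL b L' om ∧ u ≠ 0 ∧
      (∀ z : ℂ, z ∈ L.lattice ↔ u * z ∈ L'.lattice) := by
  obtain ⟨b, om, hb⟩ := exists_ideal h L hL
  obtain ⟨hg2, hg3⟩ := MUXY.z_NZL A B h h3 h4 b L om hb
  obtain ⟨u, hu⟩ := IsAlgClosed.exists_pow_nat_eq (-18 * L.g₃ / L.g₂) (n := 2) (by norm_num)
  have hu0 : u ≠ 0 := by
    intro h0
    rw [h0, zero_pow two_ne_zero] at hu
    have h5 : -18 * L.g₃ / L.g₂ ≠ 0 :=
      div_ne_zero (mul_ne_zero (by norm_num) hg3) hg2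
    exact h5 hu.symm
  obtain ⟨L', hL'⟩ := MUXU.u_SCX L u hu0
  obtain ⟨-, -, k3, k4⟩ := ta_SCP L L' u hu0 hL'
  refine ⟨b, L', u * om, u, ⟨⟨hb.b_ne, mul_ne_zero hu0 hb.om_ne, ?_⟩, ?_⟩, hu0, hL'⟩
  · intro z
    have e : z = u * (z / u) := by field_simp
    rw [e, ← hL', hb.mem]
    constructor
    · rintro ⟨x, hx, hz⟩
      exact ⟨x, hx, by rw [hz]; ring⟩
    · rintro ⟨x, hx, hz⟩
      exact ⟨x, hx, mul_left_cancel₀ hu0 (by rw [hz]; ring)⟩
  · rw [k3, k4]
    have h6 : L.g₂ * u ^ 2 = -18 * L.g₃ := by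
      rw [hu]
      field_simp
    field_simp
    linear_combination h6

/-- the Weber functions of a lattice in terms of the normalised lattice -/
lemma weber_norm {A B : ℤ} {b : Ideal (OO A B)} {L L' : PeriodPair} {om u : ℂ}
    (hL' : IsNL b L' om) (hu : u ≠ 0) (h : ∀ z : ℂ, z ∈ L.lattice ↔ u * z ∈ L'.lattice) :
    kap L' ≠ 0 ∧ L.g₂ ^ 3 / dsc L = (1 + 1728 * kap L') / (1728 * kap L') ∧
    ∀ z, L.g₂ * L.g₃ / dsc L * L.weierstrassP z =
      -(xn L' (u * z) + 1 / 12) / (2592 * kap L') := by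
  obtain ⟨k1, -, k3, k4⟩ := ta_SCP L L' u hu h
  have hn := hL'.nrm
  have hD : dsc L' ≠ 0 := sub_ne_zero.mpr (b_DSC L').1
  have e1 : L'.g₃ = -L'.g₂ / 18 := by
    rw [hn]
    ring
  have e2 : L'.g₂ = (1 + 1728 * kap L') / 12 := by
    unfold kap
    ring
  have e3 : dsc L' = 144 * kap L' * L'.g₂ ^ 2 := by
    unfold dsc
    rw [e1, e2]
    ring
  have hk : kap L' ≠ 0 := by
    intro h0
    rw [e3, h0] at hD
    simp at hD
  have hg : L'.g₂ ≠ 0 := by
    intro h0
    rw [e3, h0] at hD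
    simp at hD
  have f2 : L.g₂ = L'.g₂ * u ^ 4 := by
    rw [k3]
    field_simp
  have f3 : L.g₃ = L'.g₃ * u ^ 6 := by
    rw [k4]
    field_simp
  have f4 : dsc L = dsc L' * u ^ 12 := by
    unfold dsc
    rw [f2, f3]
    ring
  refine ⟨hk, ?_, ?_⟩
  · rw [f4, f2, e3]
    have e4 : 12 * L'.g₂ = 1 + 1728 * kap L' := by
      rw [e2]
      ring
    rw [← e4]
    field_simp
    ring
  · intro z
    have f1 : L.weierstrassP z = L'.weierstrassP (u * z) * u ^ 2 := by
      rw [k1]
      field_simp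
    rw [f4, f2, f3, f1, e3, e1]
    unfold xn
    field_simp
    ring

theorem weber_le {d : ℕ} (hd : Squarefree d) (h1 : d ≠ 1) (h3 : d ≠ 3)
    (T : TorX (pA d) (pB d)) :
    ∀ t ∈ weberField d, ∃ m : Ideal (OO (pA d) (pB d)), m ≠ ⊥ ∧ t ∈ RF m := by
  have hC := cq_p hd
  have ha := absD_p d
  have hd3 : absD (pA d) (pB d) ≠ 3 := by
    rw [ha]
    split_ifs <;> omega
  have hd4 : absD (pA d) (pB d) ≠ 4 := by
    rw [ha]
    split_ifs <;> omega
  have hdom : IsDomain (OO (pA d) (pB d)) := (MUXE.te_RNG _ _ hC).ded.toIsDomain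
  have key : weberField d ≤ UF hC T := by
    unfold weberField
    rw [IntermediateField.adjoin_le_iff]
    rintro t (ht | ⟨L, hL, ht⟩)
    · rw [Set.mem_singleton_iff] at ht
      subst ht
      refine ⟨⊤, bot_ne_top.symm, ?_⟩
      have h2 : rt d ∈ kk (pA d) (pB d) := by
        rw [kk_p]
        exact IntermediateField.mem_adjoin_simple_self ℚ _
      exact (RF (⊤ : Ideal (OO (pA d) (pB d)))).algebraMap_mem ⟨rt d, h2⟩
    · have hL' : ∀ z ∈ L.lattice, wC (pA d) (pB d) * z ∈ L.lattice := by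
        rw [wC_p]
        exact hL
      obtain ⟨b, L', om, u, hN, hu, hLL⟩ := exists_norm hC hd3 hd4 L hL'
      obtain ⟨hk, hj, hw⟩ := weber_norm hN hu hLL
      have hkm : ∀ m : Ideal (OO (pA d) (pB d)), kap L' ∈ RF m := fun m =>
        IntermediateField.subset_adjoin _ _ ⟨b, L', om, hN, Or.inl rfl⟩
      have hn : ∀ (m : Ideal (OO (pA d) (pB d))) (n : ℕ), (n : ℂ) ∈ RF m := fun m n =>
        natCast_mem _ n
      rcases ht with ht | ⟨n, z, hn0, hnz, hz, ht⟩
      · refine ⟨⊤, bot_ne_top.symm, ?_⟩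
        rw [ht, hj]
        have h5 := hkm ⊤
        have h6 : (1728 : ℂ) ∈ RF (⊤ : Ideal (OO (pA d) (pB d))) := by
          exact_mod_cast hn ⊤ 1728
        exact div_mem (add_mem (one_mem _) (mul_mem h6 h5)) (mul_mem h6 h5)
      · have hm : idl (A := pA d) (B := pB d) n ≠ ⊥ := by
          intro h0
          apply hn0
          have h5 := Ideal.span_singleton_eq_bot.mp h0
          have h6 := congrArg (fun x : OO (pA d) (pB d) => x.re) h5
          have h7 : ((n : ℕ) : ℤ) = 0 := by simpa using h6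
          exact_mod_cast h7
        refine ⟨idl n, hm, ?_⟩
        rw [ht, hw]
        have hx : xn L' (u * z) ∈ RF (idl (A := pA d) (B := pB d) n) := by
          refine IntermediateField.subset_adjoin _ _ ⟨b, L', om, hN, Or.inr ⟨u * z, ?_, ?_, rfl⟩⟩
          · intro x hx
            obtain ⟨y, rfl⟩ := Ideal.mem_span_singleton'.mp hx
            obtain ⟨hmul, -, -, -, hnat, -, -, -, -, -, -, -, -⟩ :=
              Pool.Agent.MUXV.q_EMB _ _ (MUXY.cqF hC)
            rw [hmul, hnat]
            have e : emb y * (n : ℂ) * (u * z) = emb y * (u * (n * z)) := by ring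
            rw [e]
            have h8 : u * (n * z) ∈ L'.lattice := (hLL _).mp hnz
            rw [hN.mem] at h8 ⊢
            obtain ⟨x', hx', hx''⟩ := h8
            refine ⟨y * x', Ideal.mul_mem_left _ _ hx', ?_⟩
            rw [hmul, hx'']
            ring
          · rwa [← hLL]
        have h5 := hkm (idl n)
        have h6 : (12 : ℂ) ∈ RF (idl (A := pA d) (B := pB d) n) := by
          exact_mod_cast hn (idl n) 12
        have h7 : (2592 : ℂ) ∈ RF (idl (A := pA d) (B := pB d) n) := by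
          exact_mod_cast hn (idl n) 2592
        exact div_mem (neg_mem (add_mem hx (div_mem (one_mem _) h6))) (mul_mem h7 h5)
  intro t ht
  exact key ht

end Pool.Agent.MUXZ
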