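import Pool.Agent.MUX.StIX
import Pool.Agent.MUX.XLib

/-!
# MUX, block IX, module XXF (helper65): the sets `XX R m h τ` and the Artin symbol
-/

set_option autoImplicit false

namespace Pool.Agent.MUXI

open _root_.MU3 Pool.Agent.MU3 Pool.Agent.MU3A Pool.Agent.MU3B Pool.Agent.RI Pool.Agent.RID
  Pool.Agent.MUX Pool.Agent.MUXE Pool.Agent.MUXK
open Pool.Agent.MU3I (w3 zt)

noncomputable section

namespace XXF

lemma natCast_mul_re {A B : ℤ} (m : ℕ) (y : OO A B) : (y * (m : OO A B)).re = y.re * m := by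
  simp [QuadraticAlgebra.re_mul]

lemma not_coprime_zero {A B : ℤ} {m : ℕ} (hm : 2 ≤ m) {x : OO A B}
    (hx : IsCoprime x (m : OO A B)) : x ≠ 0 := by
  rintro rfl
  obtain ⟨u, v, h⟩ := hx
  rw [mul_zero, zero_add] at h
  have h1 := congrArg QuadraticAlgebra.re h
  rw [natCast_mul_re] at h1
  have h2 : v.re * (m : ℤ) = 1 := h1
  have h3 : (m : ℤ) ∣ 1 := ⟨v.re, by rw [mul_comm]; exact h2.symm⟩
  have h4 := Int.le_of_dvd one_pos h3
  have h5 : (2 : ℤ) ≤ m := by exact_mod_cast hm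
  omega

lemma idl_ne {A B : ℤ} {m : ℕ} (hm : 2 ≤ m) : idl (A := A) (B := B) m ≠ ⊥ := by
  intro h
  rw [Ideal.span_singleton_eq_bot] at h
  have h1 := congrArg QuadraticAlgebra.re h
  have h2 : ((m : ℕ) : ℤ) = 0 := by simpa using h1
  have h3 : m = 0 := by exact_mod_cast h2
  omega

lemma re_swap {A B : ℤ} {m : ℕ} (hm : 2 ≤ m) {x x' : OO A B} (c : Ideal (OO A B))
    (hx : IsCoprime x (m : OO A B)) (hx' : IsCoprime x' (m : OO A B))
    (h : x' - x ∈ idl (A := A) (B := B) m) : RE (idl m) (sp x * c) (sp x' * c) := by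
  refine ⟨x', x, not_coprime_zero hm hx', not_coprime_zero hm hx, ?_, h, ?_⟩
  · exact (Ideal.isCoprime_span_singleton_iff _ _).2 hx'
  · rw [mul_left_comm]

end XXF

open XXF in
theorem ti_XXF (h1 : Si_HIT) (h2 : Si_ARF) (h3 : Si_RPR) (h4 : Si_IAF) : Si_XXF := by
  intro A B hC T n₀ ι R m hm hcop D h hD hG
  letI := algC h
  have hm0 := idl_ne (A := A) (B := B) hm
  have hex : ∃ (b : Ideal (OO A B)) (L : PeriodPair) (om : ℂ), IsNL b L om :=
    ⟨_, _, _, R.nl R.i0⟩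
  obtain ⟨-, -, -, -, hch, -, -, -⟩ := h4 A B hC T hex (idl m) hm0
  obtain ⟨-, hart, -, huni, -, -, -⟩ := h2 A B hC T hex (idl m) hm0 D h hD hG
  obtain ⟨hr, -⟩ := h3 A B hC n₀ ι R m (by omega) hcop
  have hit := h1 A B hC T n₀ ι R m hm hcop
  -- membership in `XX` for the chosen representative
  have key : ∀ (τ : D ≃ₐ[kk A B] D) (q : ι × (OO A B ⧸ idl (A := A) (B := B) m)),
      IsCoprime (Quotient.out q.2 : OO A B) (m : OO A B) →
      (q ∈ XX R m h τ ↔ AR h (idl m) τ (sp (Quotient.out q.2 : OO A B) * cjI (R.b q.1))) := by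
    intro τ q hq
    constructor
    · rintro ⟨-, σ, hσ, hτ, hh⟩
      exact ⟨σ, (hit σ hσ q.1 _ hq).1 hh, hτ⟩
    · rintro ⟨σ, hσ, hτ⟩
      exact ⟨hq, σ, hσ.fix, hτ, (hit σ hσ.fix q.1 _ hq).2 hσ⟩
  refine ⟨fun τ i x hx => ?_, fun q hq => ⟨?_, fun τ τ' hτ hτ' => ?_⟩⟩
  · set x' : OO A B := Quotient.out (Ideal.Quotient.mk (idl (A := A) (B := B) m) x) with hx'
    have e1 : Ideal.Quotient.mk (idl (A := A) (B := B) m) x' =
        Ideal.Quotient.mk (idl (A := A) (B := B) m) x := Quotient.out_eq _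
    have e2 : x' - x ∈ idl (A := A) (B := B) m := Ideal.Quotient.eq.1 e1
    have e3 : IsCoprime x' (m : OO A B) := by
      obtain ⟨y, hy⟩ := Ideal.mem_span_singleton'.1 e2
      have e4 : x' = x + y * (m : OO A B) := by rw [hy]; ring
      rw [e4]
      exact hx.add_mul_right_left y
    have e5 := re_swap hm (cjI (R.b i)) hx e3 e2
    have e6 : RE (idl m) (sp x' * cjI (R.b i)) (sp x * cjI (R.b i)) :=
      re_swap hm (cjI (R.b i)) e3 hx (by rw [← neg_sub]; exact neg_mem e2)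
    rw [key τ (i, Ideal.Quotient.mk (idl (A := A) (B := B) m) x) e3]
    constructor
    · rintro ⟨σ, hσ, hτ⟩
      exact ⟨σ, hch σ _ _ hσ (hr i x hx) e6, hτ⟩
    · rintro ⟨σ, hσ, hτ⟩
      exact ⟨σ, hch σ _ _ hσ (hr i x' e3) e5, hτ⟩
  · have hne : sp (Quotient.out q.2 : OO A B) * cjI (R.b q.1) ≠ ⊥ := by
      refine Pool.Agent.MUX.mul_ne_bot hC ?_ (Pool.Agent.MUX.cjI_ne_bot hC (R.nl q.1).b_ne)
      rw [Ne, Ideal.span_singleton_eq_bot]
      exact not_coprime_zero hm hq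
    obtain ⟨τ, hτ⟩ := hart _ hne (hr q.1 _ hq)
    exact ⟨τ, (key τ q hq).2 hτ⟩
  · have a1 := (key τ q hq).1 hτ
    have a2 := (key τ' q hq).1 hτ'
    refine huni τ τ' _ _ a1 a2 ⟨1, 1, ?_, ?_, ?_, ?_, rfl⟩
    · exact not_coprime_zero hm isCoprime_one_left
    · exact not_coprime_zero hm isCoprime_one_left
    · exact (Ideal.isCoprime_span_singleton_iff _ _).2 isCoprime_one_left
    · rw [sub_self]; exact zero_mem _

end

end Pool.Agent.MUXI
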