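import Pool.Agent.MU3.StFH

/-!
# MUX, theta series of ideals: common definitions of the blocks XT (helper40) and XF (helper87)

`O = OO A B = ℤ[w]`, `w² = A + B w`, is the ring of integers of an imaginary quadratic field (`CQ A B`); no
prime `p` occurs. Ideals `b : Ideal (OO A B)`, `b ≠ ⊥`, of norm `nI b`. For `x ∈ b` the number `nm x / nI b` is a
natural number (`qb b x`), the norm of the ideal `x b⁻¹`. The definitions `nI`, `cjI`, `sp`, `IsLI`, `thetaI`, ..
are literally those of `DefsX.lean` (so equal by `rfl`).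
-/

set_option autoImplicit false

namespace Pool.Agent.MUXF

open _root_.MU3 Pool.Agent.MU3A Pool.Agent.MU3B Pool.Agent.MU3F OnePoint

noncomputable section

/-- `O = ℤ[w]`, `w² = A + B w`, is the ring of integers of an imaginary quadratic field. -/
structure CQ (A B : ℤ) : Prop where
  hB : B = 0 ∨ B = 1
  neg : B ^ 2 + 4 * A < 0
  fund1 : B = 1 → Squarefree (1 + 4 * A)
  fund0 : B = 0 → Squarefree A ∧ ¬ (4 : ℤ) ∣ A - 1

/-- the norm of an ideal -/
def nI {A B : ℤ} (b : Ideal (OO A B)) : ℕ := Nat.card (OO A B ⧸ b)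

/-- the conjugate ideal -/
def cjI {A B : ℤ} (b : Ideal (OO A B)) : Ideal (OO A B) := b.comap (starRingEnd (OO A B))

/-- the principal ideal -/
abbrev sp {A B : ℤ} (x : OO A B) : Ideal (OO A B) := Ideal.span {x}

/-- the lattice of `L` is `om * emb b` -/
structure IsLI {A B : ℤ} (b : Ideal (OO A B)) (L : PeriodPair) (om : ℂ) : Prop where
  b_ne : b ≠ ⊥
  om_ne : om ≠ 0
  mem : ∀ z : ℂ, z ∈ L.lattice ↔ ∃ x ∈ b, z = om * emb x

/-- an odd character `e` of `(O/g)^*` with complex values, extended by 0; `g` an ideal -/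
structure IsEI {A B : ℤ} (g : Ideal (OO A B)) (e : OO A B → ℂ) : Prop where
  one : e 1 = 1
  mul : ∀ x y, e (x * y) = e x * e y
  per : ∀ x y, x - y ∈ g → e x = e y
  supp : ∀ x, e x ≠ 0 ↔ IsCoprime (sp x) g
  neg : e (-1) = -1

/-- `θ_b(z) = 1/2 Σ_(x ∈ b) e(x) conj(x) q^(N x / N b)` -/
def thetaI {A B : ℤ} (b : Ideal (OO A B)) (e : OO A B → ℂ) (z : ℂ) : ℂ :=
  (1 / 2) * ∑' x : b, e x * (starRingEnd ℂ) (emb (x : OO A B)) *
    Complex.exp (2 * Real.pi * Complex.I * ((nm (x : OO A B) : ℂ) / nI b) * z)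

/-- its primitive `1/2 Σ e(x) conj(x) / (N x / N b) q^(N x / N b)` -/
def thetaIntI {A B : ℤ} (b : Ideal (OO A B)) (e : OO A B → ℂ) (z : ℂ) : ℂ :=
  (1 / 2) * ∑' x : b, e x * (starRingEnd ℂ) (emb (x : OO A B)) / ((nm (x : OO A B) : ℂ) / nI b) *
    Complex.exp (2 * Real.pi * Complex.I * ((nm (x : OO A B) : ℂ) / nI b) * z)

/-- `∫_r^(i ∞) 2 π i θ_b(z) dz` -/
def IvI {A B : ℤ} (b : Ideal (OO A B)) (e : OO A B → ℂ) (r : ℚ) : ℂ :=
  -(2 * Real.pi) * ∫ t in Set.Ioi (0 : ℝ), thetaI b e ((r : ℂ) + t * Complex.I)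

/-- the same for all cusps, 0 at infinity -/
def IcI {A B : ℤ} (b : Ideal (OO A B)) (e : OO A B → ℂ) (x : OnePoint ℚ) : ℂ :=
  x.elim 0 (fun r : ℚ => IvI b e r)

/-- the modular symbol of `θ_b` -/
def PhiI {A B : ℤ} (b : Ideal (OO A B)) (e : OO A B → ℂ) (x y : OnePoint ℚ) : ℂ :=
  IcI b e x - IcI b e y

/-- the quadratic character of `k`, right at all integers `d` prime to `D` (also negative, also even if `D`
is odd); it is `0` if `d` is not prime to `D`, except for `B = 0` and `d` even -/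
def chiQ (A B : ℤ) (d : ℤ) : ℤ :=
  if B = 1 then jacobiSym d (absD A B).toNat else jacobiSym A d.natAbs * d.sign

/-- the nebentypus -/
def nuQ {A B : ℤ} (e : OO A B → ℂ) (d : ℤ) : ℂ := (chiQ A B d : ℂ) * e (d : OO A B)

/-- `nm x / nI b`, exact division for `x ∈ b` -/
def qb {A B : ℤ} (b : Ideal (OO A B)) (x : OO A B) : ℤ := nm x / (nI b : ℤ)

/-- the sum over `b / m b` of a function which is periodic modulo `m b` -/
def sumB {A B : ℤ} (b : Ideal (OO A B)) (m : ℕ) (F : OO A B → ℂ) : ℂ :=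
  ∑ᶠ q : b ⧸ (nsmulAddMonoidHom (α := b) m).range, F (Quotient.out q : b)

end

end Pool.Agent.MUXF
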