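import Pool.Agent.MU3.StFT
import Pool.Agent.MUX.TDefs

/-!
# MUX, block XT (helper40): theta series of ideals are modular forms

Every statement is a `def Xs_X : Prop`. A module proves `theorem tx_X (h : Xs_Y) ... : Xs_X` in
`Pool/Agent/MUX/XT_X.lean`, where the hypotheses are the statements named under USES in the doc string.

Everything (except BAS, TRI, CHQ, FTI) is for a positive definite integral BINARY FORM `F = (a, b, c)` of discriminant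
`-F.D`, `F.D = 4 a c - b²`, in coordinates `x = (i, j)`, and a weight `W` on `ℤ²`. The sum is over
`ℤ²`, classes modulo `m` are the pairs in `[0, m)²` (`sm m`). With `τ = F.tau = (b + i sqrt D)/(2 a)`:
`F(i, j) = a |i + j τ|²`. This is block FT of MU3 (`Pool/Agent/MU3/StFT.lean`, modules
`Pool/Agent/MU3/T_X.lean`), which treats `F` = the norm form of `O`: the proofs are the same and the files
`T_X.lean` named as MODEL can be copied and adapted (no quotient rings here: easier).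

`N0 = D G²`. All formulas were checked numerically.
-/

set_option autoImplicit false

namespace Pool.Agent.MUX
end Pool.Agent.MUX

namespace Pool.Agent.MUXT

open _root_.MU3 Pool.Agent.MuSym OnePoint Filter Topology
open Pool.Agent.MUXF (nI thetaI thetaIntI IvI IcI PhiI)
open Pool.Agent.MU3T (Su_MBF Su_MCO)
open Pool.Agent.MU3F (ex)
open scoped ComplexConjugate

noncomputable section

abbrev Z2 := ℤ × ℤ

/-- binary quadratic forms -/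
structure QF where
  a : ℤ
  b : ℤ
  c : ℤ

/-- the value `a i² + b i j + c j²` -/
def QF.ev (F : QF) (x : Z2) : ℤ := F.a * x.1 ^ 2 + F.b * x.1 * x.2 + F.c * x.2 ^ 2

/-- minus the discriminant -/
def QF.D (F : QF) : ℤ := 4 * F.a * F.c - F.b ^ 2

/-- positive definite -/
structure QF.Pos (F : QF) : Prop where
  a_pos : 0 < F.a
  D_pos : 0 < F.D

/-- `τ = (b + i sqrt D)/(2 a)`, in the upper half plane; `F(i,j) = a |i + j τ|²` -/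
def QF.tau (F : QF) : ℂ := ((F.b : ℂ) + Complex.I * (Real.sqrt (F.D : ℝ) : ℝ)) / (2 * F.a)

/-- `conj(i + j τ)` -/
def QF.lc (F : QF) (x : Z2) : ℂ := conj ((x.1 : ℂ) + x.2 * F.tau)

/-- the term `W(x) conj(i + j τ) exp(2 π i F(x) z)` -/
def tm (F : QF) (W : Z2 → ℂ) (z : ℂ) (x : Z2) : ℂ :=
  W x * F.lc x * Complex.exp (2 * Real.pi * Complex.I * (F.ev x : ℂ) * z)

/-- the term of the primitive; 0 for `x = 0` -/
def tI (F : QF) (W : Z2 → ℂ) (z : ℂ) (x : Z2) : ℂ :=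
  W x * F.lc x / (F.ev x : ℂ) * Complex.exp (2 * Real.pi * Complex.I * (F.ev x : ℂ) * z)

/-- a bounded weight -/
def Bd (W : Z2 → ℂ) : Prop := ∃ C : ℝ, ∀ x, ‖W x‖ ≤ C

/-- the theta series -/
def Th (F : QF) (W : Z2 → ℂ) (z : ℂ) : ℂ := (1 / 2) * ∑' x : Z2, tm F W z x

/-- its primitive -/
def ThI (F : QF) (W : Z2 → ℂ) (z : ℂ) : ℂ := (1 / 2) * ∑' x : Z2, tI F W z x

/-- `∫_r^(i ∞) 2 π i Th(z) dz` -/
def IvQ (F : QF) (W : Z2 → ℂ) (r : ℚ) : ℂ :=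
  -(2 * Real.pi) * ∫ t in Set.Ioi (0 : ℝ), Th F W ((r : ℂ) + t * Complex.I)

def IcQ (F : QF) (W : Z2 → ℂ) (x : OnePoint ℚ) : ℂ := x.elim 0 (fun r : ℚ => IvQ F W r)

/-- the symbol -/
def PhiQ (F : QF) (W : Z2 → ℂ) (x y : OnePoint ℚ) : ℂ := IcQ F W x - IcQ F W y

/-- sum over the classes modulo `m` -/
def sm (m : ℕ) (f : Z2 → ℂ) : ℂ := ∑ i ∈ Finset.range m, ∑ j ∈ Finset.range m, f ((i : ℤ), (j : ℤ))

/-- the alternating form `x₂ y₁ - x₁ y₂` -/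
def wx (x y : Z2) : ℤ := x.2 * y.1 - x.1 * y.2

/-- `f` is periodic modulo `m` -/
def Per (m : ℕ) (f : Z2 → ℂ) : Prop :=
  ∀ x y : Z2, (m : ℤ) ∣ x.1 - y.1 → (m : ℤ) ∣ x.2 - y.2 → f x = f y

/-- `W_(t/q)(y) = Σ_(x mod qG) W(x) exp(2 π i t F(x)/q) exp(2 π i wx(x, y)/(q G))` -/
def WW (F : QF) (W : Z2 → ℂ) (G q : ℕ) (t : ℤ) (y : Z2) : ℂ :=
  sm (q * G) (fun x => W x * ex (t * F.ev x / q) * ex (wx x y / (q * G)))

/-- the Gauss sum `Σ_(x mod d) exp(2 π i t F(x)/d)` -/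
def gg (F : QF) (d : ℕ) (t : ℤ) : ℂ := sm d (fun x => ex (t * F.ev x / d))

/-- weights: `W` periodic modulo `G`, `W (d x) = ε d * W x` for `d` prime to `G` -/
structure IsWt (G : ℕ) (W : Z2 → ℂ) (ε : ℤ → ℂ) : Prop where
  pos : 0 < G
  per : Per G W
  hom : ∀ d : ℤ, IsCoprime d (G : ℤ) → ∀ x : Z2, W (d * x.1, d * x.2) = ε d * W x
  eper : ∀ d d' : ℤ, (G : ℤ) ∣ d - d' → ε d = ε d'
  eneg : ∀ d : ℤ, ε (-d) = -ε d

/-- `χ` is the quadratic character of discriminant `-D`, `D > 0` -/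
structure IsChi (D : ℤ) (χ : ℤ → ℤ) : Prop where
  one : χ 1 = 1
  prime : ∀ (p : ℕ) [Fact p.Prime], ¬ (p : ℤ) ∣ 2 * D → χ p = legendreSym p (-D)
  per : ∀ d d' : ℤ, 0 < d → 0 < d' → IsCoprime d D → D ∣ d - d' → χ d = χ d'
  neg : ∀ d : ℤ, χ (-d) = -χ d

/-! ## Series in the upper half plane -/

/-- (QFF) facts on forms. USES nothing. PROOF. `tau.im = sqrt D/(2 a)`; expand. -/
def Xs_QFF : Prop :=
  ∀ F : QF, F.Pos →
    0 < F.tau.im ∧ F.tau.im = Real.sqrt (F.D : ℝ) / (2 * F.a) ∧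
    (∀ x : Z2, ((F.ev x : ℤ) : ℝ) = F.a * ‖(x.1 : ℂ) + x.2 * F.tau‖ ^ 2) ∧
    (∀ x : Z2, ((F.ev x : ℤ) : ℝ) = F.a * ‖F.lc x‖ ^ 2) ∧
    (∀ x : Z2, x ≠ 0 → 1 ≤ F.ev x) ∧
    (∃ κ : ℝ, 0 < κ ∧ ∀ x : Z2, κ * ((x.1 : ℝ) ^ 2 + (x.2 : ℝ) ^ 2) ≤ F.ev x) ∧
    (∀ (m : ℤ) (x y : Z2), m ∣ x.1 - y.1 → m ∣ x.2 - y.2 → m ∣ F.ev x - F.ev y)

/-- (DIF) summability and derivatives. USES QFF. MODEL: `MU3/T_DIF.lean`, `MU3/F_TSM.lean` (summability: compare with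
`exp(-κ i²) exp(-κ j²)`, `MU3B.PoiAux.gsum2`). PROOF as in `Su_DIF` of `StFT.lean`. -/
def Xs_DIF : Prop :=
  ∀ F : QF, F.Pos → ∀ W : Z2 → ℂ, Bd W →
    (∀ z : ℂ, 0 < z.im → Summable (tm F W z) ∧ Summable (tI F W z)) ∧
    (∀ z : ℂ, 0 < z.im → DifferentiableAt ℂ (fun z => ∑' y, tm F W z y) z) ∧
    ∀ z : ℂ, 0 < z.im →
      HasDerivAt (fun z => ∑' y, tI F W z y) (2 * Real.pi * Complex.I * ∑' y, tm F W z y) z

/-- (BND) bounds near `i oo`.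

USES QFF, DIF. MODEL: `MU3/T_VAN.lean`. PROOF. For `im z ≥ 1`: `‖tm F W z x‖ ≤ exp(-2 π (im z - 1)) ‖tm F W i x‖`, the same for
`tI` (`F.ev x ≥ 1` for `x ≠ 0`; for `x = 0` both are 0, `F.lc 0 = 0`). -/
def Xs_BND : Prop :=
  ∀ F : QF, F.Pos → ∀ W : Z2 → ℂ, Bd W → ∃ C : ℝ, 0 < C ∧ ∀ z : ℂ, 1 ≤ z.im →
    ‖∑' y, tm F W z y‖ ≤ C * Real.exp (-(2 * Real.pi * z.im)) ∧
    ‖∑' y, tI F W z y‖ ≤ C * Real.exp (-(2 * Real.pi * z.im))

/-- (REG) regrouping. USES QFF, DIF. MODEL: `MU3/T_REG.lean`. -/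
def Xs_REG : Prop :=
  ∀ F : QF, F.Pos → ∀ W : Z2 → ℂ, Bd W → ∀ M N : ℕ, N ≠ 0 → M ∣ N →
    ∃ w : ℕ → ℂ, ∀ τ : ℂ, 0 < τ.im →
      HasSum (fun n : ℕ => w n * Complex.exp (2 * Real.pi * Complex.I * τ / N) ^ (n + 1))
        (∑' y, tI F W (τ / M) y)

/-- (POI) Poisson summation in the upper half plane.

USES QFF. Import `Pool/Agent/MU3/T_POC.lean` (`MU3B.b_POC`: the dual sum for complex parameters, no identity theorem is
needed any more). PROOF. `L` = the `PeriodPair` `(1, τ)` (see `MU3/T_PO0.lean`, namespace `PO0`, for the same lemmas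
with `wC`), `area L = im τ = sqrt D/(2 a)`. `b_POC` at the point `(i0 + j0 τ)/m` and
`t = i / (m² sqrt D z)` (`Re t = im z/(m² sqrt D |z|²) > 0`): the left side is `1/m Σ conj(x0 + m w) exp(2 π i F(x0 + m w) z)` because
`π |x0 + m w|²/(m² area t) = -2 π i a |x0 + m w|² z`; `-t² = 1/(m⁴ D z²)`; `π t |w|²/area = -2 π i F(w) (-1/(m² D z))`;
`pr L w (x0/m) = ex((x0₂ w₁ - x0₁ w₂)/m) = ex(wx x0 w/m)` as `Im(x0 conj w) = (x0₂ w₁ - x0₁ w₂) im τ`. -/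
def Xs_POI : Prop :=
  ∀ F : QF, F.Pos → ∀ m : ℕ, 0 < m → ∀ (x0 : Z2) (z : ℂ), 0 < z.im →
    ∑' w : Z2, F.lc (x0.1 + m * w.1, x0.2 + m * w.2) *
      Complex.exp (2 * Real.pi * Complex.I * (F.ev (x0.1 + m * w.1, x0.2 + m * w.2) : ℂ) * z) =
    1 / ((m : ℂ) ^ 3 * (F.D : ℂ) * z ^ 2) *
      ∑' y : Z2, tm F (fun y => ex (wx x0 y / m)) (-1 / ((m : ℂ) ^ 2 * (F.D : ℂ) * z)) y

/-- (CLS) a sum over `ℤ²` is a sum over the classes modulo `m`; rules for `sm`.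

USES nothing. PROOF. `ℤ ≃ Fin m × ℤ` (`i = k + m n`; `Int.divModEquiv` in Mathlib), so `ℤ² ≃ (Fin m)² × ℤ²`, `Summable.tsum_prod'`,
`tsum_fintype`, `Finset.sum_range`. (2) shift of a periodic function: the map `(k, l) ↦ (k + v₁ mod m, l + v₂ mod m)` is a
permutation of `[0, m)²`. (3) Chinese remainder theorem: for coprime `d`, `G` the map
`((k, l), (k', l')) ↦ (d k + G k', d l + G l')` is a bijection of `[0, G)² × [0, d)²` onto the classes modulo `d G` (in each coordinate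
`ZMod`: injective by coprimality, then counting). -/
def Xs_CLS : Prop :=
  (∀ m : ℕ, 0 < m → ∀ f : Z2 → ℂ, Summable f →
    ∑' x, f x = sm m (fun x => ∑' w : Z2, f (x.1 + m * w.1, x.2 + m * w.2))) ∧
  (∀ m : ℕ, 0 < m → ∀ f : Z2 → ℂ, Per m f → ∀ v : Z2,
    sm m (fun x => f (x.1 + v.1, x.2 + v.2)) = sm m f) ∧
  ∀ d G : ℕ, 0 < d → 0 < G → Nat.Coprime d G → ∀ f : Z2 → ℂ, Per (d * G) f →
    sm (d * G) f = sm G (fun x => sm d (fun y => f (d * x.1 + G * y.1, d * x.2 + G * y.2)))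

/-- (WBD) bounds. USES nothing. PROOF. A periodic function takes its values on `[0, m)²`; `WW` is a finite sum of terms of norm
at most `C`. -/
def Xs_WBD : Prop :=
  (∀ (m : ℕ) (W : Z2 → ℂ), 0 < m → Per m W → Bd W) ∧
  ∀ (F : QF) (W : Z2 → ℂ) (G q : ℕ) (t : ℤ), Bd W → Bd (WW F W G q t)

/-- (RED) the theta series near the cusp `t/q`.

USES QFF, DIF, POI, CLS, WBD. MODEL: `MU3/T_RED.lean`. PROOF as in `Su_RED` (`StFT.lean`): `m = q G`, classes modulo `m` (CLS), `W` and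
`ex(t F(x)/q)` are periodic modulo `m`, POI for every class, exchange the finite sum with the sum over `y`. -/
def Xs_RED : Prop :=
  ∀ F : QF, F.Pos → ∀ (W : Z2 → ℂ) (G q : ℕ), 0 < G → 0 < q → Per G W → ∀ (t : ℤ) (z : ℂ), 0 < z.im →
    Th F W (((t / q : ℚ) : ℂ) + z) =
      1 / (2 * ((q : ℂ) * G) ^ 3 * (F.D : ℂ) * z ^ 2) *
        ∑' y : Z2, tm F (WW F W G q t) (-1 / (((q : ℂ) * G) ^ 2 * (F.D : ℂ) * z)) y

/-! ## Gauss sums -/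

/-- (WID) the Gauss sum for `c = N0 c'`.

USES CLS. MODEL: `MU3/T_WID.lean`. PROOF. `d` is prime to `G` (and to `D`) by the determinant. CRT (CLS (3)):
`x = d x' + G x''`: `W x = W(d x') = ε(d) W(x')`; `t G² F(x'')/d` modulo 1 is `t F(x)/d` (`F(d x' + G x'') ≡ G² F(x'')` modulo `d`);
`wx(x, y)/(d G) = wx(x', y)/G + wx(x'', y)/d`. So `WW = ε(d) WW_(0/1)(y) Σ_(x mod d) ex((t G² F(x) + wx(x, y))/d)`. Completing the
square: `v = c' (-2 c j - b i, b j + 2 a i)` for `y = (i, j)`, `F = (a, b, c)`. Identity in the integers: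
`F(x - v) = F(x) - c' D wx(x, y) + c'² D F(y)`; multiply by `t G²`; `t D G² c' ≡ -1` modulo `d` gives
`t G² F(x - v) + c' F(y) ≡ t G² F(x) + wx(x, y)` modulo `d`. Shift by `v` (CLS (2)). -/
def Xs_WID : Prop :=
  ∀ F : QF, F.Pos → ∀ (W : Z2 → ℂ) (ε : ℤ → ℂ) (G d : ℕ), IsWt G W ε → 0 < d → ∀ s t c' : ℤ,
    s * d - t * (F.D * G ^ 2 * c') = 1 → ∀ y : Z2,
    WW F W G d t y = ε d * ex (c' * F.ev y / d) * gg F d (t * G ^ 2) * WW F W G 1 0 y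

/-- (GAU) the Gauss sum modulo a prime.

USES nothing. MODEL: `MU3/T_GAU.lean` (`sum_sq_char`, `ex_eq`). PROOF. `ψ = ZMod.stdAddChar`. If `p ∤ a`:
`4 a F = (2 a i + b j)² + D j²`, `(i, j) ↦ (2 a i + b j, j)` is a bijection, so `gg = Σ_X ψ(t' X²) Σ_j ψ(t' D j²)`, `t' = t/(4 a)`,
`= χ(t') χ(t' D) gaussSum² = χ(D) χ(-1) p = χ(-D) p`. If `p ∣ a`: `F ≡ b i j + c j²`, `p ∤ b` (else `p ∣ D`), sum over `i` first:
`p` if `j = 0` and `0` otherwise, so `gg = p`, and `-D ≡ b²` is a nonzero square, `legendreSym = 1`. -/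
def Xs_GAU : Prop :=
  ∀ (F : QF) (p : ℕ) [Fact p.Prime], ¬ (p : ℤ) ∣ 2 * F.D → ∀ t : ℤ, ¬ (p : ℤ) ∣ t →
    gg F p t = (legendreSym p (-F.D) : ℂ) * p

/-! ## Modularity -/

/-- (MOP) prime entry `d`. USES RED, WID, GAU, `Su_MBF` (`MU3/T_MBF.lean`, `MU3T.tu_MBF`). MODEL: `MU3/T_MOP.lean` (110 lines, nearly
word for word). -/
def Xs_MOP : Prop :=
  ∀ F : QF, F.Pos → ∀ (W : Z2 → ℂ) (ε : ℤ → ℂ) (G : ℕ), IsWt G W ε →
    ∀ (a b c : ℤ) (p : ℕ) [Fact p.Prime], ¬ (p : ℤ) ∣ 2 * F.D →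
    a * p - b * c = 1 → F.D * G ^ 2 ∣ c → ∀ z : ℂ, 0 < z.im →
    Th F W (((a : ℂ) * z + b) / ((c : ℂ) * z + p)) =
      ((c : ℂ) * z + p) ^ 2 * ((legendreSym p (-F.D) : ℂ) * ε p) * Th F W z

/-- (MOD) `Gamma_0(N0)`.

USES MOP, `Su_MBF`. MODEL: `MU3/T_MOD.lean`. PROOF. Period: `Th F W (z + 1) = Th F W z` (term by term). `d = 0` is impossible
(`D G² ∣ c`, `b c = -1`, `D ≥ 3` as `-D` is `0` or `1` modulo 4). `d < 0`: the case `(-a, -b, -c, -d)`, same map, `(c z + d)²` does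
not change, `χ(-d) ε(-d) = χ(d) ε(d)`. `d > 0`, `c ≠ 0`: a prime `p > 2 D`, `p ≡ d` modulo `|c|`, `p = d + k c`; MOP for `(a, b + k a, c, p)`
at `z - k`; `χ p = χ d` (`D ∣ c`, `d` is prime to `c`), `ε p = ε d`. `c = 0`: `d = 1`, `a = 1`: period 1, and
`χ 1 = 1`, `ε 1 W = W` by `hom`. -/
def Xs_MOD : Prop :=
  ∀ F : QF, F.Pos → ∀ χ : ℤ → ℤ, IsChi F.D χ → ∀ (W : Z2 → ℂ) (ε : ℤ → ℂ) (G : ℕ), IsWt G W ε →
    ∀ a b c d : ℤ, a * d - b * c = 1 → F.D * G ^ 2 ∣ c → ∀ z : ℂ, 0 < z.im →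
    Th F W (((a : ℂ) * z + b) / ((c : ℂ) * z + d)) =
      ((c : ℂ) * z + d) ^ 2 * ((χ d : ℂ) * ε d) * Th F W z

/-- (EXP) expansion at all cusps. USES QFF, WBD, RED, `Su_MBF`. MODEL: `MU3/T_EXP.lean`. `c = 0`: `M = 1`, `W' = W/2`. -/
def Xs_EXP : Prop :=
  ∀ F : QF, F.Pos → ∀ (W : Z2 → ℂ) (G : ℕ), 0 < G → Per G W → ∀ a b c d : ℤ, a * d - b * c = 1 →
    ∃ (M : ℕ) (W' : Z2 → ℂ), 0 < M ∧ (M : ℤ) ∣ F.D * G ^ 2 ∧ Bd W' ∧ ∀ z : ℂ, 0 < z.im →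
      Th F W (((a : ℂ) * z + b) / ((c : ℂ) * z + d)) =
        ((c : ℂ) * z + d) ^ 2 * ∑' y, tm F W' (z / M) y

/-! ## The primitive -/

/-- (ITG) integrability on vertical lines.

USES WBD, DIF, BND, EXP, `Su_MBF`. PROOF. `f t = Th F W (r + i t)` is continuous on `(0, oo)` (DIF). `r = s/q` in lowest terms, `s d - b q = 1`
(Bezout), `σ = (s, b, q, d)`: for `t > 0` and `z = -d/q + i/(q² t)`: `σ z = r + i t`, `q z + d = i/(q t)`. By EXP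
`f t = -(q t)⁻² Σ tm F W' (z/M)`, and for `t ≤ t0 = 1/(q² M)` BND (`im (z/M) = 1/(q² t M) ≥ 1`) gives
`‖f t‖ ≤ C (q t)⁻² exp(-2 π/(q² M t))`, bounded. On `[t0, 1]` `f` is continuous, on `[1, oo)` `‖f t‖ ≤ C exp(-2 π t)` (BND with `W`). So `f` is
bounded on `(0, 1]` and integrable on `(1, oo)`. -/
def Xs_ITG : Prop :=
  ∀ F : QF, F.Pos → ∀ (W : Z2 → ℂ) (G : ℕ), 0 < G → Per G W → ∀ r : ℚ,
    MeasureTheory.IntegrableOn (fun t : ℝ => Th F W ((r : ℂ) + t * Complex.I)) (Set.Ioi 0)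

/-- (VLN) the limit of the primitive on a vertical line. USES WBD, DIF, BND, ITG. MODEL: `MU3/T_VLN.lean`. -/
def Xs_VLN : Prop :=
  ∀ F : QF, F.Pos → ∀ (W : Z2 → ℂ) (G : ℕ), 0 < G → Per G W → ∀ r : ℚ,
    Tendsto (fun t : ℝ => ThI F W ((r : ℂ) + t * Complex.I)) (𝓝[>] 0) (𝓝 (-IvQ F W r))

/-- (CUS) the limit of `ThI(γ z)` at `i oo`. USES WBD, BND, VLN. MODEL: `MU3/T_CUS.lean`. -/
def Xs_CUS : Prop :=
  ∀ F : QF, F.Pos → ∀ (W : Z2 → ℂ) (G : ℕ), 0 < G → Per G W →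
    ∀ a b c d : ℤ, a * d - b * c = 1 → ∀ C : ℂ,
    (∀ ε : ℝ, 0 < ε → ∃ R : ℝ, ∀ z : ℂ, R ≤ z.im → 0 < z.im →
      ‖ThI F W (((a : ℂ) * z + b) / ((c : ℂ) * z + d)) - C‖ < ε) →
    C = PhiQ F W ∞ (mob a b c d ∞)

/-- (EXI) expansion of the primitive. USES WBD, DIF, BND, EXP, CUS, `Su_MBF`. MODEL: `MU3/T_EXI.lean`. -/
def Xs_EXI : Prop :=
  ∀ F : QF, F.Pos → ∀ (W : Z2 → ℂ) (G : ℕ), 0 < G → Per G W → ∀ a b c d : ℤ, a * d - b * c = 1 →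
    ∃ (M : ℕ) (W' : Z2 → ℂ), 0 < M ∧ (M : ℤ) ∣ F.D * G ^ 2 ∧ Bd W' ∧ ∀ z : ℂ, 0 < z.im →
      ThI F W (((a : ℂ) * z + b) / ((c : ℂ) * z + d)) =
        PhiQ F W ∞ (mob a b c d ∞) + ∑' y, tI F W' (z / M) y

/-- (QPE) the primitive under `Gamma_0(N0)`. USES WBD, DIF, BND, MOD, CUS, `Su_MBF`. MODEL: `MU3/T_QPE.lean`. -/
def Xs_QPE : Prop :=
  ∀ F : QF, F.Pos → ∀ χ : ℤ → ℤ, IsChi F.D χ → ∀ (W : Z2 → ℂ) (ε : ℤ → ℂ) (G : ℕ), IsWt G W ε →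
    ∀ a b c d : ℤ, a * d - b * c = 1 → F.D * G ^ 2 ∣ c → ∀ z : ℂ, 0 < z.im →
    ThI F W (((a : ℂ) * z + b) / ((c : ℂ) * z + d)) =
      ((χ d : ℂ) * ε d) * ThI F W z + PhiQ F W ∞ (mob a b c d ∞)

/-- (SYM) the symbol. USES BND, EXI, QPE, `Su_MBF`, `Su_MCO` (`MU3/T_MCO.lean`). MODEL: `MU3/T_SYM.lean`. -/
def Xs_SYM : Prop :=
  ∀ F : QF, F.Pos → ∀ χ : ℤ → ℤ, IsChi F.D χ → ∀ (W : Z2 → ℂ) (ε : ℤ → ℂ) (G : ℕ), IsWt G W ε →
    ∀ N : ℕ, N ≠ 0 → F.D * G ^ 2 ∣ (N : ℤ) → IsSym N (fun d => (χ d : ℂ) * ε d) (PhiQ F W)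

/-! ## Ideals -/

/-- the quadratic character of `k` (correct for all `d` prime to the discriminant) -/
def chiQ (A B : ℤ) (d : ℤ) : ℤ :=
  if B = 1 then jacobiSym d (-(B ^ 2 + 4 * A)).toNat else jacobiSym A d.natAbs * d.sign

/-- (CHQ) `chiQ` is the quadratic character.

USES nothing. `D = -(B² + 4 A)`. PROOF. `one`: clear. `B = 1`: `D ≡ 3` modulo 4, `D > 0`. `per`: `jacobiSym.mod_left`. `neg`: `J(-1 | D) = -1`
(`jacobiSym.at_neg_one`, `χ₄`). `prime`: `J(-D | p) = J(-1 | p) J(D | p)`, `jacobiSym.quadratic_reciprocity'`-like: for `D ≡ 3` modulo 4 the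
signs cancel and it is `J(p | D)`. `B = 0`: `D = -4 A`, `A < 0`. `prime`: `legendreSym p (4 A) = legendreSym p A` and
`jacobiSym.legendreSym.to_jacobiSym`. `per`: `d`, `d'` are odd and positive, `jacobiSym.mod_right` (period `4 |A| = D`). `neg`: `sign`, `natAbs_neg`. -/
def Xs_CHQ : Prop :=
  ∀ A B : ℤ, (B = 0 ∨ B = 1) → B ^ 2 + 4 * A < 0 → IsChi (-(B ^ 2 + 4 * A)) (chiQ A B)

/-- `al, be` is an oriented basis of the ideal `b` with norm form `F` -/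
structure IsBas {A B : ℤ} (b : Ideal (OO A B)) (al be : OO A B) (F : QF) : Prop where
  al_ne : al ≠ 0
  memb : ∀ x : Z2, ((x.1 : ℤ) : OO A B) * al + ((x.2 : ℤ) : OO A B) * be ∈ b
  surj : ∀ y ∈ b, ∃ x : Z2, ((x.1 : ℤ) : OO A B) * al + ((x.2 : ℤ) : OO A B) * be = y
  inj : ∀ x y : Z2, ((x.1 : ℤ) : OO A B) * al + ((x.2 : ℤ) : OO A B) * be =
    ((y.1 : ℤ) : OO A B) * al + ((y.2 : ℤ) : OO A B) * be → x = y
  nrm : ∀ x : Z2, nm (((x.1 : ℤ) : OO A B) * al + ((x.2 : ℤ) : OO A B) * be) = nI b * F.ev x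
  tau : emb be = emb al * F.tau

/-- (BAS) bases of ideals.

USES nothing. PROOF. `b` is a subgroup of finite index of `O = ℤ²` (it contains `nm x ≠ 0`). Basis in Hermite form: let
`a₂` be the least positive `im`-coordinate of an element of `b` and `be ∈ b` with `be.im = a₂`; let `n₀ > 0` generate
`b ∩ ℤ`; then `b = ℤ n₀ + ℤ be` and the index is `n₀ a₂ = nI b` (`O/b` has the representatives `[0, n₀) × [0, a₂)`; or use
`Ideal.selfBasis`/`natAbs_det` for the index). `al = n₀`: `τ = be/n₀` is in the upper half plane. `F = (nm al, tr(al star be), nm be)/nI b`: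
integral, because `nI b` divides `nm x` for all `x ∈ b` (`(x) ⊆ b`, the index `nm x` of `(x)` is a multiple of `nI b`;
or: `n₀ ∣ a₂ ..`) and `nm(al + be) - nm al - nm be = tr`. Discriminant: `4 nm al nm be - tr² = (2 im(conj al be))² = |D| (n₀ a₂)²`. -/
def Xs_BAS : Prop :=
  ∀ A B : ℤ, B ^ 2 + 4 * A < 0 → ∀ b : Ideal (OO A B), b ≠ ⊥ →
    ∃ (al be : OO A B) (F : QF), F.Pos ∧ F.D = -(B ^ 2 + 4 * A) ∧ IsBas b al be F

/-- (TRI) translation. USES nothing. PROOF. The bijection `ℤ² ≃ b`, `x ↦ x₁ al + x₂ be`;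
`conj(emb(x₁ al + x₂ be)) = conj(emb al) F.lc x`, `nm(..)/nI b = F.ev x` (`nI b ≠ 0`). -/
def Xs_TRI : Prop :=
  ∀ A B : ℤ, B ^ 2 + 4 * A < 0 → ∀ (b : Ideal (OO A B)) (al be : OO A B) (F : QF), b ≠ ⊥ →
    F.Pos → IsBas b al be F → ∀ e : OO A B → ℂ,
    (∀ z, thetaI b e z = conj (emb al) * Th F (fun x => e (((x.1 : ℤ) : OO A B) * al +
      ((x.2 : ℤ) : OO A B) * be)) z) ∧
    (∀ z, thetaIntI b e z = conj (emb al) * ThI F (fun x => e (((x.1 : ℤ) : OO A B) * al +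
      ((x.2 : ℤ) : OO A B) * be)) z) ∧
    ∀ x y, PhiI b e x y = conj (emb al) * PhiQ F (fun x => e (((x.1 : ℤ) : OO A B) * al +
      ((x.2 : ℤ) : OO A B) * be)) x y

/-- (FTI) THE RESULT of the block, for ideals. `e` is multiplicative, periodic modulo `G`, odd.

USES BAS, TRI, CHQ, REG, ITG, EXI, QPE, SYM, WBD. PROOF. BAS, TRI; `W x = e(x₁ al + x₂ be)`, `ε d = e d`: `IsWt G W ε`
(`e(d y) = e(d) e(y)`). Multiply by `conj(emb al)`. The parts (2)-(4) for `N` a multiple of `|D| G²`. -/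
def Xs_FTI : Prop :=
  ∀ A B : ℤ, (B = 0 ∨ B = 1) → B ^ 2 + 4 * A < 0 → ∀ b : Ideal (OO A B), b ≠ ⊥ →
    ∀ (e : OO A B → ℂ) (G : ℕ), 0 < G → (∀ x y, e (x * y) = e x * e y) →
    (∀ x y, (G : OO A B) ∣ x - y → e x = e y) → e (-1) = -1 →
    (∀ r : ℚ, MeasureTheory.IntegrableOn
      (fun t : ℝ => thetaI b e ((r : ℂ) + t * Complex.I)) (Set.Ioi 0)) ∧
    ∀ N : ℕ, N ≠ 0 → -(B ^ 2 + 4 * A) * G ^ 2 ∣ (N : ℤ) →
    IsSym N (fun d => (chiQ A B d : ℂ) * e (d : OO A B)) (PhiI b e) ∧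
    (∀ a b' c d : ℤ, a * d - b' * c = 1 → (N : ℤ) ∣ c → ∀ τ : ℂ, 0 < τ.im →
      thetaI b e ((a * τ + b') / (c * τ + d)) = (c * τ + d) ^ 2 *
        ((chiQ A B d : ℂ) * e (d : OO A B)) * thetaI b e τ ∧
      thetaIntI b e ((a * τ + b') / (c * τ + d)) =
        ((chiQ A B d : ℂ) * e (d : OO A B)) * thetaIntI b e τ + PhiI b e ∞ (mob a b' c d ∞)) ∧
    ∀ a b' c d : ℤ, a * d - b' * c = 1 → ∃ w : ℕ → ℂ, ∀ τ : ℂ, 0 < τ.im →
      HasSum (fun n : ℕ => w n * Complex.exp (2 * Real.pi * Complex.I * τ / N) ^ (n + 1))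
        (thetaIntI b e ((a * τ + b') / (c * τ + d)) - PhiI b e ∞ (mob a b' c d ∞))

end

end Pool.Agent.MUXT
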