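import Pool.Agent.MUX.StHX
import Pool.Agent.MUX.DefsX2
import Pool.Agent.MUX.StXF
import Pool.Agent.MUX.StXT

/-!
# MUX, block H, bridge (helper16): from theta series of ideals to `HypA`, and the final statement of the block

`StHX.lean` (helper27) is the abstract part: `HypA` implies `Sx_HA`. Here: for the family `R : Reps A B (p * f) ι`,
an odd character `e` of conductor dividing `f cjI P` and units `kk : ι → ℂ` the symbols
`PP R P e kk i = (Σ_c kk_c/e(N b_c) PhiI (b_c P^i) e)/om_(i0)` satisfy `HypA` (`Sy_BRG`), the quantity of the final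
statement is a character sum of `PP .. 0` (`Sy_QSX`), and the final statement is `Sy_HFX`. Both `p = 3` and `p = 2`
(for `p = 2` with the factor `1/2`).

Every statement is a `def Sy_X : Prop`; a module proves `theorem ty_X (h : ..) ... : Sy_X` in the file `HY_X.lean`,
namespace `Pool.Agent.MUXHY`; the hypotheses are the statements named under USES (fewer is fine). `Sx_..` in USES is
`Pool.Agent.MUXF.Sx_..` (`StXF.lean`), `Xs_FTI` is `Pool.Agent.MUXT.Xs_FTI` (`StXT.lean`). The structures `CQ`,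
`IsEI`, `IsLI` exist twice (`MUX`, `MUXF`), with the conversions `toCQ`, `toEI`, `toLI` below; all functions
(`nI`, `cjI`, `PhiI`, `chiX` = `chiQ`, `nuX` = `nuQ`) are equal by `rfl` (lemmas below). `v = V.valuation`:
`v x ≤ 1 ↔ x ∈ V`, `v x < 1 ↔ x ∈ V.nonunits` (`ValuationSubring.valuation_le_one_iff`,
`ValuationSubring.mem_nonunits_iff`).
-/

set_option autoImplicit false

namespace Pool.Agent.MUXHY

open _root_.MU3 Pool.Agent.MU3A Pool.Agent.MU3B Pool.Agent.MU3F Pool.Agent.MUX Pool.Agent.MUXH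
  Pool.Agent.MuSym OnePoint
open scoped ComplexConjugate

noncomputable section

/-! ## The two sets of definitions -/

section
variable {A B : ℤ}

lemma toCQ (h : CQ A B) : MUXF.CQ A B := ⟨h.hB, h.neg, h.fund1, h.fund0⟩

lemma toEI {g : Ideal (OO A B)} {e : OO A B → ℂ} (h : IsEI g e) : MUXF.IsEI g e :=
  ⟨h.one, h.mul, h.per, h.supp, h.neg⟩

lemma toLI {b : Ideal (OO A B)} {L : PeriodPair} {om : ℂ} (h : IsLI b L om) :
    MUXF.IsLI b L om := ⟨h.b_ne, h.om_ne, h.mem⟩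

lemma nI_eq (b : Ideal (OO A B)) : MUXF.nI b = nI b := rfl

lemma cjI_eq (b : Ideal (OO A B)) : MUXF.cjI b = cjI b := rfl

lemma PhiI_eq (b : Ideal (OO A B)) (e : OO A B → ℂ) : MUXF.PhiI b e = PhiI b e := rfl

lemma chiQ_eq (d : ℤ) : MUXF.chiQ A B d = chiX A B d := rfl

lemma chiQ_eq' (d : ℤ) : MUXT.chiQ A B d = chiX A B d := rfl

lemma nuQ_eq (e : OO A B → ℂ) : MUXF.nuQ e = nuX e := rfl

end

/-! ## The cycle of symbols -/

/-- `PP i = (Σ_c kk_c/e(N b_c) PhiI (b_c P^i) e)/om_(i0)` -/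
def PP {A B : ℤ} {n : ℕ} {ι : Type} [Fintype ι] (R : Reps A B n ι) (P : Ideal (OO A B))
    (e : OO A B → ℂ) (kk : ι → ℂ) (i : ℕ) (x y : OnePoint ℚ) : ℂ :=
  (∑ c, kk c / e ((nI (R.b c) : ℕ) : OO A B) * PhiI (R.b c * P ^ i) e x y) / R.om R.i0

/-- the level without its `p`-part: `|D| f²` -/
def N0X (A B : ℤ) (f : ℕ) : ℕ := (absD A B).toNat * f ^ 2

/-! ## Inputs from other blocks -/

/-- (RAT) rationality (helper41, `PAPER_X.md` section 9) -/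
def Sy_RAT : Prop :=
  ∀ (A B : ℤ) (_ : CQ A B) (b : Ideal (OO A B)) (L : PeriodPair) (om : ℂ) (_ : IsNL b L om),
    (∀ (b' : Ideal (OO A B)) (L' : PeriodPair) (om' : ℂ), IsNL b' L' om' →
      IsAlgebraic ℚ (om / om')) ∧
    ∀ (g : Ideal (OO A B)) (e : OO A B → ℂ), g ≠ ⊥ → IsEI g e → ∀ x y : OnePoint ℚ,
      IsAlgebraic ℚ (PhiI b e x y / om)

/-- (GX) Theorem G (helper3, `PAPER_X.md` section 10) -/
def Sy_GX : Prop :=
  ∀ (p : ℕ) (A B : ℤ) (P : Ideal (OO A B)) (V : ValuationSubring ℂ) (f : ℕ)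
    (_ : SetP p A B P V f) (ι : Type) (_ : Fintype ι) (R : Reps A B (p * f) ι)
    (e : OO A B → ℂ) (_ : IsEI (idl f * cjI P) e) (kk : ι → ℂ) (_ : ∀ i, IsAlgebraic ℚ (kk i))
    (_ : ∀ i, V.valuation (kk i) ≤ 1) (_ : V.valuation (kk R.i0) = 1) (N' : ℕ) (_ : N' ≠ 0)
    (_ : absD A B * ((p : ℤ) * f) ^ 2 ∣ (N' : ℤ)),
    ∃ a b c d : ℤ, a * d - b * c = 1 ∧ (N' : ℤ) ∣ c ∧ (N' : ℤ) ∣ d - 1 ∧
      1 ≤ V.valuation (PhiK R e kk ∞ (mob a b c d ∞) / R.om R.i0)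

/-! ## Valuations and ideals -/

/-- (VAL) elementary valuations. Model: `MU3/H_VAL.lean`.

PROOF. `p` is 2 or 3 (`case.split`). `emb x` is integral over `ℤ` (a root of `T² - (x + star x) T + nm x`, or: `emb w = wC`, `wC² = A + B wC`) and `V` is
integrally closed (`ValuationSubring` is a valuation ring: a monic equation with coefficients in `V`), so `v (emb x) ≤ 1`. `OverI` and
`hP.mem`: `v p < 1` (`emb (n : O) = n`). `v n = 1` for `p ∤ n`: Bezout, `v (a n + b p) = 1`. Roots of unity: `v z ^ r = 1` in a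
linearly ordered group. -/
def Sy_VAL : Prop :=
  ∀ (p : ℕ) (A B : ℤ) (P : Ideal (OO A B)) (V : ValuationSubring ℂ) (f : ℕ)
    (_ : SetP p A B P V f),
    p.Prime ∧ V.valuation (p : ℂ) < 1 ∧ (∀ x : OO A B, V.valuation (emb x) ≤ 1) ∧
    (∀ x : OO A B, V.valuation (emb x) = 1 ↔ x ∉ P) ∧
    (∀ n : ℤ, V.valuation (n : ℂ) ≤ 1) ∧
    (∀ n : ℤ, ¬ (p : ℤ) ∣ n → V.valuation (n : ℂ) = 1) ∧
    (∀ (r : ℕ) (z : ℂ), r ≠ 0 → z ^ r = 1 → V.valuation z = 1) ∧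
    V.valuation (f : ℂ) = 1 ∧ V.valuation (absD A B : ℂ) = 1 ∧ 0 < absD A B ∧
    ¬ (p : ℤ) ∣ absD A B

/-- (IDE) the ideals `P`, `cjI P`, `f`.

USES `Sx_ALG` (`O/b` finite, domain, `star`), `Sx_IDL`, `Sx_NIM`. PROOF. `P ≠ ⊥`: `p ∈ P`. `P` and `cjI P` are maximal (prime, finite quotient). They are different: `O/P` has `p` elements, so every element of `O`
is congruent to an integer modulo `P`; let `w - c ∈ P` (`w = ⟨0, 1⟩`), `c ∈ ℤ`. If `cjI P = P` then `star w - c ∈ P`, so `w - star w = 2 w - B ∈ P` and `(2 w - B)² = B² + 4 A ∈ P`. But `P ∩ ℤ = p ℤ` (`P` is proper and contains `p`) and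
`p ∤ B² + 4 A` (`case.split`). So `IsCoprime P (cjI P)` (two different maximal ideals). `p`, `f` are coprime integers, `p ∈ P`, `p ∈ cjI P` (`star p = p`), so `P` and `cjI P` are coprime to `idl f`. `p f = f * p ∈ idl f * cjI P`. `absD ∣ f`:
`idl f ≤ sp absD`. `P ^ h = sp al`: `al ≠ 0` (`P ^ h ≠ ⊥`, domain); `sp al = P ^ h` is coprime to `idl f * cjI P` (`IsCoprime.pow_left`, `IsCoprime.mul_right`); `cjI (P ^ h) = (cjI P) ^ h` is `sp (star al)` (`starRingEnd` is an involutive ring automorphism), and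
`star al ∈ P` would give `(cjI P) ^ h ≤ P`, `cjI P ≤ P`, against coprimality. -/
def Sy_IDE : Prop :=
  ∀ (p : ℕ) (A B : ℤ) (P : Ideal (OO A B)) (V : ValuationSubring ℂ) (f : ℕ)
    (_ : SetP p A B P V f),
    P ≠ ⊥ ∧ P.IsMaximal ∧ IsCoprime P (cjI P) ∧ IsCoprime P (idl (A := A) (B := B) f) ∧
    idl f * cjI P ≠ ⊥ ∧ ((p * f : ℕ) : OO A B) ∈ idl f * cjI P ∧ idl f * cjI P ≤ cjI P ∧
    idl f * cjI P ≤ sp ((absD A B : ℤ) : OO A B) ∧ ((p : ℕ) : OO A B) ∈ cjI P ∧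
    ∀ (h : ℕ) (al : OO A B), 1 ≤ h → P ^ h = sp al →
      al ≠ 0 ∧ IsCoprime (sp al) (idl f * cjI P) ∧ star al ∉ P

/-- (CLN) a power of `P` is principal.

USES `Sx_ALG` (domain), `Sx_NIM` (cancellation `b c ≤ b c' ↔ c ≤ c'`). PROOF. `surj` for `P ^ i` (`≠ ⊥`): `sp x_i * P ^ i = sp y_i * b (c i)`. Pigeonhole: `i < j` with `c i = c j`: `(x_i y_j) P ^ i = (y_i y_j) b = (x_j y_i) P ^ j`. Cancel `P ^ i`: `sp (x_i y_j) = sp (x_j y_i) * P ^ (j - i)`. So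
`x_i y_j = x_j y_i al` for some `al ∈ P ^ (j - i)`, and `sp (x_j y_i) * sp al = sp (x_j y_i) * P ^ (j - i)`; cancel. -/
def Sy_CLN : Prop :=
  ∀ (A B : ℤ) (_ : CQ A B) (n : ℕ) (ι : Type) (_ : Fintype ι) (_ : Reps A B n ι)
    (P : Ideal (OO A B)), P ≠ ⊥ → ∃ (h : ℕ) (al : OO A B), 1 ≤ h ∧ P ^ h = sp al

/-! ## The character -/

/-- (ROU) the values of `e` are roots of unity.

USES `Sx_BDD` (finitely many values). PROOF. If `e x ≠ 0` then the powers `e x ^ n = e (x ^ n)`, `n ≥ 0`, are not all different, so `e x ^ k = 1` for some `k ≥ 1`. `r` = the product of such `k` over the finitely many nonzero values. -/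
def Sy_ROU : Prop :=
  ∀ (A B : ℤ) (_ : CQ A B) (g : Ideal (OO A B)) (e : OO A B → ℂ) (_ : g ≠ ⊥) (_ : IsEI g e),
    ∃ r : ℕ, r ≠ 0 ∧ ∀ x, e x ≠ 0 → e x ^ r = 1

/-- (CHR) the nebentypus.

USES VAL, IDE, ROU, `Sx_CHI`. PROOF. `g = idl f * cjI P`. `nuX e d = chiX d * e d`. `chiX` is multiplicative at all integers: `B = 1`: `jacobiSym.mul_left`; `B = 0`: if `d d' = 0` both sides are 0 (`Int.sign 0 = 0`), otherwise `Int.natAbs_mul`, `jacobiSym.mul_right`,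
`Int.sign_mul`. `chiX 1 = 1`. `chiX` has values in `{0, 1, -1}` (`jacobiSym.trichotomy`), so `v (chiX d) ≤ 1`; `v (e d) ≤ 1` (0 or a root of unity). `e p = 0`: `p ∈ cjI P`, so `(p) + g ≤ cjI P` is not `⊤`.
Periodicity: if `d` is not prime to `D` then `e d = 0`: a prime number `l` divides `d` and `D`, so `(d) + g ≤ (l)` (`g ≤ sp absD`), which is not `⊤` (norm, or `l` does not divide `1` in `ℤ[w]`). If `p |D| f²` divides `d - d'` and `d` is not prime to `D` then `d'` is not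
prime to `D`, and both sides are 0. If `d`, `d'` are prime to `D`: `Sx_CHI` and `d - d' ∈ g` (`p f ∣ p |D| f²`). -/
def Sy_CHR : Prop :=
  ∀ (p : ℕ) (A B : ℤ) (P : Ideal (OO A B)) (V : ValuationSubring ℂ) (f : ℕ)
    (_ : SetP p A B P V f) (e : OO A B → ℂ) (_ : IsEI (idl f * cjI P) e),
    nuX e 1 = 1 ∧ nuX e p = 0 ∧ (∀ d d', nuX e (d * d') = nuX e d * nuX e d') ∧
    (∀ d d' : ℤ, ((p * N0X A B f : ℕ) : ℤ) ∣ d - d' → nuX e d = nuX e d') ∧
    (∀ d, V.valuation (nuX e d) ≤ 1)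

/-- (EIG) the eigenvalue of `U_p ^ h`.

USES VAL, IDE, ROU. PROOF. `e al ≠ 0` (`supp`, IDE), a root of unity, so of valuation 1 and algebraic. `conj (emb al) = emb (star al)`, of valuation 1 because `star al ∉ P` (IDE, VAL); `emb x` is algebraic. -/
def Sy_EIG : Prop :=
  ∀ (p : ℕ) (A B : ℤ) (P : Ideal (OO A B)) (V : ValuationSubring ℂ) (f : ℕ)
    (_ : SetP p A B P V f) (e : OO A B → ℂ) (_ : IsEI (idl f * cjI P) e) (h : ℕ)
    (al : OO A B) (_ : 1 ≤ h) (_ : P ^ h = sp al),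
    V.valuation (e al * conj (emb al)) = 1 ∧ IsAlgebraic ℚ (e al * conj (emb al))

/-! ## The symbols `PP i` -/

/-- (SYM) `PP i` is a symbol, `U_p PP i = PP (i + 1)`, `PP h = a PP 0`.

USES IDE, `Xs_FTI`, `Sx_HU`, `Sx_PRI`, `Sx_NIM`. PROOF. `g = idl f * cjI P`. (1) `Xs_FTI` for the ideal `b_c P^i` (`≠ ⊥`), `G = p f`, `N = p^2 |D| f²`: `(G : O) ∣ x - y` gives `x - y ∈ g`, `e x = e y`. `IsSym` is closed under linear combinations. (2) `Sx_HU` for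
`b_c P^i`, `l = p`: `hecke` is linear, `b_c P^i P = b_c P^(i+1)`. (3) `b_c P^h = sp al * b_c`, `Sx_PRI`. -/
def Sy_SYM : Prop :=
  ∀ (p : ℕ) (A B : ℤ) (P : Ideal (OO A B)) (V : ValuationSubring ℂ) (f : ℕ)
    (_ : SetP p A B P V f) (ι : Type) (_ : Fintype ι) (R : Reps A B (p * f) ι)
    (e : OO A B → ℂ) (_ : IsEI (idl f * cjI P) e) (kk : ι → ℂ),
    (∀ i, IsSym (p ^ (1 + 1) * N0X A B f) (nuX e) (PP R P e kk i)) ∧
    (∀ i x y, hecke p (nuX e) (PP R P e kk i) x y = PP R P e kk (i + 1) x y) ∧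
    ∀ (h : ℕ) (al : OO A B), 1 ≤ h → P ^ h = sp al → ∀ x y,
      PP R P e kk h x y = e al * conj (emb al) * PP R P e kk 0 x y

/-- (ALF) the values of `PP 0` are algebraic and in a finitely generated group.

USES IDE, ROU, RAT, `Xs_FTI`, `Sx_F7`. PROOF. `g = idl f * cjI P ≠ ⊥`. Algebraic: `kk_c/e(N b_c) * (PhiI b_c e x y/om_c) * (om_c/om_(i0))` (`P ^ 0 = 1`). Finitely generated: for every `c` a finite set `S_c` from `Sx_F7` (with `IsSym` from `Xs_FTI`, `G = p f`, `N = p² |D| f²`);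
`T` = the numbers `kk_c/e(N b_c)/om_(i0) * s`, `s ∈ S_c`. -/
def Sy_ALF : Prop :=
  ∀ (p : ℕ) (A B : ℤ) (P : Ideal (OO A B)) (V : ValuationSubring ℂ) (f : ℕ)
    (_ : SetP p A B P V f) (ι : Type) (_ : Fintype ι) (R : Reps A B (p * f) ι)
    (e : OO A B → ℂ) (_ : IsEI (idl f * cjI P) e) (kk : ι → ℂ) (_ : ∀ i, IsAlgebraic ℚ (kk i)),
    (∀ x y, IsAlgebraic ℚ (PP R P e kk 0 x y)) ∧
    ∃ T : Finset ℂ, ∀ x y, PP R P e kk 0 x y ∈ AddSubgroup.closure (T : Set ℂ)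

/-- (PRX) the projector with integral coefficients.

USES VAL, IDE, `Sx_PHX`, `Sx_PRJ`. PROOF. `q = |D|` (as a natural number), `φ` from `Sx_PHX`, `c t = (1/q) Σ_(n < q) φ n ex(-(t n)/q)`: `v q = 1`, `φ n` is 0 or 1, `ex(..) ^ q = 1` so `v (ex ..) = 1`. `Sx_PRJ` for `b_c` (`b_c P^0 = b_c`) and linearity of `sgnPart` in the symbol. -/
def Sy_PRX : Prop :=
  ∀ (p : ℕ) (A B : ℤ) (P : Ideal (OO A B)) (V : ValuationSubring ℂ) (f : ℕ)
    (_ : SetP p A B P V f) (ι : Type) (_ : Fintype ι) (R : Reps A B (p * f) ι)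
    (e : OO A B → ℂ) (_ : IsEI (idl f * cjI P) e) (kk : ι → ℂ) (s : ℂ),
    ∃ (q : ℕ) (c : ℕ → ℂ), q ≠ 0 ∧ (∀ t, V.valuation (c t) ≤ 1) ∧ ∀ x y : OnePoint ℚ,
      ∑ t ∈ Finset.range q, c t * sgnPart s (PP R P e kk 0) (mob q t 0 q x) (mob q t 0 q y) =
        PP R P e kk 0 x y

/-- (BRG) the hypotheses of the abstract part. Glue (helper16).

USES VAL, IDE, ROU, CHR, EIG, SYM, ALF, PRX, GX. PROOF. `e (N b_c) ≠ 0` and it is a root of unity (`N b_c` is prime to `p f`), so `kk_c/e(N b_c)` is algebraic of valuation 1: GX. -/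
def Sy_BRG : Prop :=
  ∀ (p : ℕ) (A B : ℤ) (P : Ideal (OO A B)) (V : ValuationSubring ℂ) (f : ℕ)
    (_ : SetP p A B P V f) (ι : Type) (_ : Fintype ι) (R : Reps A B (p * f) ι)
    (e : OO A B → ℂ) (_ : IsEI (idl f * cjI P) e) (kk : ι → ℂ) (_ : ∀ i, IsAlgebraic ℚ (kk i))
    (_ : ∀ i, V.valuation (kk i) = 1) (s : ℤ) (_ : s = 1 ∨ s = -1) (h : ℕ) (al : OO A B)
    (_ : 1 ≤ h) (_ : P ^ h = sp al),
    HypA p V (N0X A B f) 1 h (e al * conj (emb al)) (nuX e) (PP R P e kk) s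

/-! ## The character sum -/

/-- (QSX) the quantity of the final statement as a character sum. Model: `MU3/H_QS.lean` (copy and adapt).

USES `Sx_F5`, `Sx_PRD`. PROOF. `m = lvX p f n = f M`, `M = q0 p * p ^ n` (a power of `p`). `Sx_F5` for `b_i`, `L_i`, `om_i` (`nl i`; `m ∈ g` because `p f ∈ g` and `p ∣ q0 p`; `N b_i` is prime to `p f`, so to `m`): `SnX i c = (2 f/(om_(i0) e(N b_i))) Σ_(b < M) ex(-b c/M) PhiI b_i e ∞ (b/M)`
(`mu_i = om_i N b_i/om_(i0)`, `m/M = f`), so `Σ_i kk_i SnX i c = 2 f Σ_b ex(-b c/M) F b`, `F b = PP R P e kk 0 ∞ (b/M)` (`P ^ 0 = 1`). `F` depends only on the class of `b` modulo `M`: `Sx_PRD` gives `IvI b e (r + k) = IvI b e r`. The rest as in `H_QS.lean` with `4`, `6 f`, `3 ^ (n + 1)`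
replaced by `1 + q0 p`, `2 q0 p f`, `M`: both `1 + q0 p` and `a = aX p f = 1 + 2 q0 p f` are prime to `M`; the substitutions `b = u^(N-j) b'` and `b = u^(N-j) a² b'` (`u = 1 + q0 p`) in the sums `W c = Σ_b ex(-b c/M) (F b + s F (-b))`. -/
def Sy_QSX : Prop :=
  ∀ (p : ℕ) (_ : p.Prime) (A B : ℤ) (_ : CQ A B) (P : Ideal (OO A B)) (f : ℕ) (_ : f ≠ 0)
    (ι : Type) (_ : Fintype ι) (R : Reps A B (p * f) ι) (g : Ideal (OO A B)) (e : OO A B → ℂ)
    (_ : IsEI g e) (_ : ((p * f : ℕ) : OO A B) ∈ g) (kk : ι → ℂ) (s : ℤ) (N n : ℕ),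
    ∑ j ∈ Finset.range (N + 1), ((-1 : ℂ) ^ (N - j) * (N.choose j : ℂ)) *
        (STX R (lvX p f n) (q0 p * p ^ n) (aX p f) e kk ((1 + (q0 p : ℤ)) ^ j) +
          s * STX R (lvX p f n) (q0 p * p ^ n) (aX p f) e kk (-(1 + (q0 p : ℤ)) ^ j)) =
      2 * f * ∑ b ∈ Finset.range (q0 p * p ^ n),
        ex (-((1 + (q0 p : ℚ)) ^ N * (aX p f : ℚ) ^ 2) / ((q0 p * p ^ n : ℕ) : ℚ)) ^ b *
          comb (aX p f) (1 + (q0 p : ℤ)) N (fun b => sgnPart (s : ℂ) (PP R P e kk 0) ∞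
            ((b / ((q0 p * p ^ n : ℕ) : ℚ) : ℚ) : OnePoint ℚ)) b

/-! ## The final statement -/

/-- (HFX) THE RESULT of block H: for `n` large in one residue class modulo `h` the combination is not small. For
`p = 2` it is divided by 2.

USES `Pool.Agent.MUXH.Sx_HA`, VAL, IDE, BRG, QSX, CLN. Glue (helper16). PROOF. `h`, `al` from CLN. `r₁` from `Sx_HA` for BRG. `p ^ (n + l) = q0 p * p ^ n`, `l = 1` (`p` odd) or `2` (`p = 2`); `r = r₁ + h l - l`. `α = aX p f`, `g = 1 + q0 p`, `E = p - 1`. `ζ = ex(-(g^N α²)/M)` is a primitive root of order `M`,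
so `v p < v(Σ)^(p-1)`, and the quantity is `2 f Σ` (QSX), with the factor `f Σ` for `p = 2`; `v f = 1`, `v 2 = 1` for `p` odd. -/
def Sy_HFX : Prop :=
  ∀ (p : ℕ) (A B : ℤ) (P : Ideal (OO A B)) (V : ValuationSubring ℂ) (f : ℕ)
    (_ : SetP p A B P V f) (ι : Type) (_ : Fintype ι) (R : Reps A B (p * f) ι)
    (e : OO A B → ℂ) (_ : IsEI (idl f * cjI P) e) (kk : ι → ℂ) (_ : ∀ i, IsAlgebraic ℚ (kk i))
    (_ : ∀ i, V.valuation (kk i) = 1) (s : ℤ) (_ : s = 1 ∨ s = -1),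
    ∃ h r : ℕ, 1 ≤ h ∧ ∀ N : ℕ, 1 ≤ N → ∃ n₀ : ℕ, ∀ n, n₀ ≤ n → n % h = r % h →
      ¬ HfX p V ((if p = 2 then 1 / 2 else 1) *
        ∑ j ∈ Finset.range (N + 1), ((-1 : ℂ) ^ (N - j) * (N.choose j : ℂ)) *
          (STX R (lvX p f n) (q0 p * p ^ n) (aX p f) e kk ((1 + (q0 p : ℤ)) ^ j) +
            s * STX R (lvX p f n) (q0 p * p ^ n) (aX p f) e kk (-(1 + (q0 p : ℤ)) ^ j)))

end

end Pool.Agent.MUXHY
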