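import Pool.Agent.MUX.KDefsP
import Pool.Agent.MU3.StGl
import Pool.Agent.MU3.StD2

/-!
# MUX, block K: from the inputs to the growth of the class numbers, any prime `p` (helper34)

`k ≤ K₀ ≤ K` subfields of `ℂ`, `K / k` abelian, `[K₀ : k]` prime to `p`, `K / K₀` of `p`-power degree, `B n` the
layers of the cyclotomic `ℤ_p`-extension of `ℚ`, `K₀` contains the `p`-th roots of unity and `K` the `2p`-th roots of
unity and (for the inputs) the Hilbert class field of `k`. The elements `c' n` live in `K_n = K B_n`, the relations are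
pushed down to `K₀ B_n` by the norm. This replaces `StS3.lean`, `StGl.lean` of MU3 (there `K = K₀`, `p = 3`); the
names with `X` are the new versions. Every `def S_X : Prop` is the statement of a module, which
proves `theorem t_X (h : S_Y) ... : S_X` (namespace `Pool.Agent.MUXK`, file `Pool/Agent/MUX/K_X.lean`), the doc string contains the
proof; `Uses` names the hypotheses. `Above`, `SU`, `SJ`, `vJ`, `actU`: `Pool/Agent/MU3/KDefs.lean`, `StS3.lean`. Most modules are adaptations of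
finished MU3 files, which are named.
-/

set_option autoImplicit false

open NumberField IsDedekindDomain Finset Filter Topology
open scoped nonZeroDivisors Pointwise

namespace Pool.Agent.MUXK

open Pool.Agent.MU3 Pool.Agent.RI Pool.Agent.RID Pool.Agent.Lib_helper28.FROB

/-! ## Definitions -/

/-- The relation of the unit `u` at the prime `lam` (so `KRelP p k L S u` says: `RelAt` at all good primes; `KolBodyP`, `KolInP`, `KRelP`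
of `KDefsP.lean`). -/
def RelAt (p : ℕ) (k L : Type) [Field k] [NumberField k] [Field L] [NumberField L] [Algebra k L]
    [FiniteDimensional k L] (S : Finset ℕ) (u : (𝓞 L)ˣ) (lam : HeightOneSpectrum (𝓞 L)) (q : ℕ) :
    Prop :=
  ∀ a : ℤ, (q : ℤ) ∣ a ^ p - 1 → ¬ (q : ℤ) ∣ a - 1 → ∀ b : (L ≃ₐ[k] L) → ℕ,
      (∀ h : L ≃ₐ[k] L, (u : 𝓞 L) ^ ((q - 1) / p) - (a : 𝓞 L) ^ b h ∈ h • lam.asIdeal) →
      ∃ (κ : Lˣ) (I s : J L), s ∈ SJ S L ∧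
        ∏ h : L ≃ₐ[k] L, (h • vJ lam) ^ b h = prin κ * I ^ p * s

/-- `v` has a prime of `M` above it with `q` residue classes. -/
def HasAb (L M : Type) [Field L] [NumberField L] [Field M] [NumberField M] [Algebra L M]
    (v : HeightOneSpectrum (𝓞 L)) (q : ℕ) : Prop :=
  ∃ w : HeightOneSpectrum (𝓞 M), w.asIdeal.under (𝓞 L) = v.asIdeal ∧
    Nat.card (𝓞 M ⧸ w.asIdeal) = q

/-- The relations at the good primes of `L` which have a prime of degree one of `M` above. -/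
def KRelX (p : ℕ) (k L M : Type) [Field k] [NumberField k] [Field L] [NumberField L] [Field M]
    [NumberField M] [Algebra k L] [Algebra L M]
    [FiniteDimensional k L] (S : Finset ℕ) (u : (𝓞 L)ˣ) : Prop :=
  ∀ (lam : HeightOneSpectrum (𝓞 L)) (q : ℕ), GoodPrP p k L S lam q → HasAb L M lam q →
    RelAt p k L S u lam q

/-- `G = Gal(L / k)` is abelian, generated by `D`, of order prime to `p`, and `γ`, of order `p ^ n`. -/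
structure TwP (p : ℕ) (k L : Type) [Field k] [Field L] [Algebra k L] (n : ℕ) (γ : L ≃ₐ[k] L)
    (D : Subgroup (L ≃ₐ[k] L)) : Prop where
  comm : ∀ σ τ : L ≃ₐ[k] L, σ * τ = τ * σ
  ord : orderOf γ = p ^ n
  cop : (Nat.card D).Coprime p
  gen : ∀ h : L ≃ₐ[k] L, ∃ δ ∈ D, ∃ i : ℕ, h = δ * γ ^ i

/-- The unit `∏_δ (δ N c) ^ θ(χ(δ)⁻¹)`, `N` the norm for `γ ^ (p ^ m)`. -/
noncomputable def sUnitP {k L F : Type} [Field k] [Field L] [NumberField L] [Algebra k L]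
    [Field F] (p : ℕ) (D : Subgroup (L ≃ₐ[k] L)) [Fintype D] (γ : L ≃ₐ[k] L) (m n : ℕ)
    (χ : D →* Fˣ) (θ : F →+ ZMod p) (c : (𝓞 L)ˣ) : (𝓞 L)ˣ :=
  ∏ δ : D, ((δ : L ≃ₐ[k] L) • ng (γ ^ (p ^ m)) (p ^ (n - m)) c) ^ (θ ((χ δ)⁻¹ : Fˣ)).val

/-! ## The Kolyvagin step -/

/-- KINX: the relations for `u = c ^ (g ^ p - 1)`, `g ∈ Gs` fixes all primes of `L` above `S`.
PROOF. As for `S_KIN` (`Pool/Agent/MU3/K1.lean`, `K1Cnt.lean`, `K1Val.lean`, `K1Main.lean`, `KIN.lean`, `p = 3`). For a good prime `lam` take `F`, `z`, an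
extension `g'` of `g` to `F`. `g'` commutes with `Gal(F / L)` (order `p`), which is transitive on the primes of
`F` above a prime `v` of `L`; if `v` is above `S` then `g' w = τ w`, so `g' ^ p w = τ ^ p w = w`. So
`z' = g' ^ p z / z` is a unit of `𝓞 F`, `N z' = g^p(N z)/N z = 1` (`g ∈ Gs`), `z' ≡ u ^ ((q-1)/p)` modulo all `w` above
`lam ∩ k`. Hilbert 90: `z' = τ β / β`. `D z' = ∏_i τ^i(z')^i` (`i < p`): `τ(Dz')/Dz' = z'^p / N z' = z'^p = τ(β^p)/β^p`, so `κ = D z'/β^p ∈ L`. `v`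
not above `S`, unramified in `F`: `v(κ) = - p w(β)`. `w | v` totally ramified (`v` above `lam ∩ k`): `p v(κ) = w(κ) = - p w(β)`, and `z' ≡ ζ_w^(w(β))` modulo
`w`, `ζ_w = (τ π_w/π_w) mod w`, of order `p` (tame: `q ∤ p`), the same element `ζ` of `F_q` for all these `w` (they are conjugate under the abelian group `Gal(F/k)`, which acts
trivially on the integers modulo `q`). So `v(κ) ≡ - e_h` for `v = h lam` with `u^((q-1)/p) ≡ ζ^(e_h)`; `a ≡ ζ^j`, `e_h ≡ j b_h`: take a power of `κ`. -/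
def S_KINX : Prop := ∀ (p : ℕ) [Fact p.Prime] (k L : Type) [Field k] [NumberField k] [Field L]
    [NumberField L] [Algebra k L] [IsGalois k L], (∀ σ τ : L ≃ₐ[k] L, σ * τ = τ * σ) →
    ∀ (S : Finset ℕ), p ∈ S → ∀ (c : L), c ≠ 0 → SU S L c → ∀ Gs : Set (L ≃ₐ[k] L),
    KolInP p k L Gs S c → ∀ g ∈ Gs,
    (∀ v : HeightOneSpectrum (𝓞 L), Above S v → g • v.asIdeal = v.asIdeal) →
    ∀ u : (𝓞 L)ˣ, ((u : 𝓞 L) : L) = (g ^ p) c / c → KRelP p k L S u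

/-- NRJ: the norm on fractional ideals.
PROOF. Mathlib `Ideal.relNorm (𝓞 L) : Ideal (𝓞 M) →*₀ Ideal (𝓞 L)`, `Ideal.relNorm_singleton`, `relNorm_eq_pow_of_isMaximal` (`relNorm w = v ^ f`, `f` the inertia
degree, `Nat.card (𝓞 M ⧸ w) = Nat.card (𝓞 L ⧸ v) ^ f`). Every element of `J M` is `I * (prin d)⁻¹` with a nonzero ideal `I` and `d ∈ 𝓞 M`, `d ≠ 0`; put
`N = relNorm I * (prin (norm d))⁻¹`: well defined and multiplicative because `relNorm` is multiplicative and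
`relNorm (d) = (norm d)` (`Algebra.intNorm` and `Algebra.norm` agree: `Algebra.algebraMap_intNorm`). (Or: `J M` is the free abelian group on the primes and the
value on `prin x` is computed with `relNorm`.) The third property: `norm (σ x) = τ (norm x)`, and `relNorm (σ I) = τ (relNorm I)`:
on primes, `σ w` lies above `τ v` with the same inertia degree. -/
def S_NRJ : Prop := ∀ (k L M : Type) [Field k] [NumberField k] [Field L] [NumberField L] [Field M]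
    [NumberField M] [Algebra k L] [Algebra L M] [Algebra k M] [IsScalarTower k L M]
    [IsGalois k L] [IsGalois k M],
    ∃ N : J M →* J L,
      (∀ x : Mˣ, N (prin x) = prin (Units.map (Algebra.norm L : M →* L) x)) ∧
      (∀ (w : HeightOneSpectrum (𝓞 M)) (v : HeightOneSpectrum (𝓞 L)),
        w.asIdeal.under (𝓞 L) = v.asIdeal → (∃ f : ℕ, N (vJ w) = vJ v ^ f) ∧
        (Nat.card (𝓞 M ⧸ w.asIdeal) = Nat.card (𝓞 L ⧸ v.asIdeal) → N (vJ w) = vJ v)) ∧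
      ∀ (σ : M ≃ₐ[k] M) (τ : L ≃ₐ[k] L), (∀ x : L, algebraMap L M (τ x) = σ (algebraMap L M x)) →
        ∀ z : J M, N (σ • z) = τ • N z

/-- STABX: primes of degree one outside `S` are good.
PROOF. As `P_STAB.lean` of MU3. `#(𝓞 L ⧸ lam) = q` is a power of the cardinality of the residue field of `lam ∩ k`, so the inertia degree over `k` is `1`,
`e = 1` by hypothesis, the stabilizer has order `e f = 1`. The image of `ζ` in the residue field `𝓞 M ⧸ w` of `q` elements has order exactly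
`2 p` (`q ∤ 2 p`: `q ∉ S`; reduction is injective on roots of unity of order prime to `q`: `X^(2p) - 1` is separable modulo `q`), so `2 p ∣ q - 1`. -/
def S_STABX : Prop := ∀ (p : ℕ) [Fact p.Prime] (k L M : Type) [Field k] [NumberField k] [Field L]
    [NumberField L] [Field M] [NumberField M] [Algebra k L] [IsGalois k L] [Algebra L M]
    (S : Finset ℕ) (ζ : 𝓞 M), IsPrimitiveRoot ζ (2 * p) → 2 ∈ S → p ∈ S → (∀ ℓ ∈ S, ℓ.Prime) →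
    (∀ v : HeightOneSpectrum (𝓞 L), ¬ Above S v → v.asIdeal.ramificationIdx (𝓞 k) = 1) →
    ∀ (lam : HeightOneSpectrum (𝓞 L)) (q : ℕ), q.Prime → q ∉ S →
      Nat.card (𝓞 L ⧸ lam.asIdeal) = q → HasAb L M lam q → GoodPrP p k L S lam q

/-- KNM: the norm step.
Uses S_NRJ, S_STABX. PROOF. `u₀ = N_(M/L) u`. Let `lam` be a good prime of `L`, `w` above it with `q` classes, `a`, `b₀ : Gal(L/k) → ℕ` as in `RelAt` for `u₀`. (STABX for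
`M / k`, `L := M`) `w` is good for `M`. For `h ∈ Gal(M/k)` the element `u^((q-1)/p)` modulo `h w` (a field of `q` elements) is a `p`-th root of unity, so it is `≡ a^(b h)` with some `b h ∈ ℕ`
(`a` has order `p` modulo `q`). `KRelP` for `M`, `w`: `∏_h (h w)^(b h) = prin κ I^p s`. Apply `N` of (NRJ): `N(h w) = h₀ N(w) = h₀ lam`, `h₀` = the restriction of `h` to `L` (`L / k` is
normal), `N(s) ∈ SJ S L` (`N` of a prime above `S` is a power of a prime above `S`). So `∏_(h₀) (h₀ lam)^(B h₀)` is principal times a `p`-th power times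
`SJ`, `B h₀ = Σ_(h restricting to h₀) b h` (restriction is surjective with fibres the cosets of `Gal(M/L)`). And `b₀ h₀ ≡ B h₀` modulo `p`: `u₀ = ∏_ν ν u`, `ν ∈ Gal(M/L)` (`Algebra.norm_eq_prod_automorphisms`), and
`(ν u)^((q-1)/p) ≡ a^(b(ν⁻¹ h))` modulo `h w` (apply `ν` to the congruence modulo `ν⁻¹ h w`), so modulo `h w`, hence modulo `h₀ lam` (an element of `𝓞 L` in `h w`
is in `h w ∩ 𝓞 L = h₀ lam`), `u₀^((q-1)/p) ≡ a^(B h₀)`; `a^(b₀) ≡ a^B` modulo `q` gives `p ∣ b₀ - B` (the order of `a` is `p`). The difference is absorbed in `I^p`. -/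
def S_KNM : Prop := ∀ (p : ℕ) [Fact p.Prime] (k L M : Type) [Field k] [NumberField k] [Field L]
    [NumberField L] [Field M] [NumberField M] [Algebra k L] [Algebra L M] [Algebra k M]
    [IsScalarTower k L M] [IsGalois k L] [IsGalois k M], (∀ σ τ : M ≃ₐ[k] M, σ * τ = τ * σ) →
    ∀ (S : Finset ℕ) (ζ : 𝓞 M), IsPrimitiveRoot ζ (2 * p) → 2 ∈ S → p ∈ S → (∀ ℓ ∈ S, ℓ.Prime) →
    (∀ v : HeightOneSpectrum (𝓞 M), ¬ Above S v → v.asIdeal.ramificationIdx (𝓞 k) = 1) →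
    ∀ (u : (𝓞 M)ˣ) (u₀ : (𝓞 L)ˣ), ((u₀ : 𝓞 L) : L) = Algebra.norm L ((u : 𝓞 M) : M) →
    KRelP p k M S u → KRelX p k L M S u₀

/-! ## Density -/

/-- EPX: lower bound from the Euler product.
PROOF. As `MEP.lean` of MU3 (`Stmt_EP`), with the estimate `|1 - g(v)| ≤ exp (- Re g(v) + |g(v)|²/2)`, `g(v) = η(v) N(v)^(-s)` (from
`|1 - g|² = 1 - 2 Re g + |g|² ≤ exp(- 2 Re g + |g|²)`), for all `v`: `|L_t| = |L| ∏_(v ∈ t) |1 - g(v)|`, so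
`|L| ≥ |L_t| exp (Σ_(v ∈ t) (Re g(v) - x_v²/2))`, and `L_t → 1`. -/
def S_EPX : Prop := ∀ (K : Type) [Field K] [NumberField K] (η : ClassGroup (𝓞 K) →* ℂˣ) (s : ℝ),
    1 < s → Real.exp (∑' v, (((η (cl K v) : ℂ)).re * x s v - (x s v) ^ 2 / 2)) ≤ ‖Lf K η s‖

/-- IDX: a subgroup which contains the classes of a set of primes of density `≥ c` has index `≤ 1/c`.
Uses S_EPX, Stmt_LBD. PROOF. `Q = ClassGroup / U`, `R` the characters of `ClassGroup` which are trivial on `U`, `|R| = |Q| = U.index` (finite abelian groups; Mathlib duality, or `CommGroup` characters). For `v ∈ B`: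
`Σ_(η ∈ R) η(v) = |R|`, for every `v` this sum is `|R|` or `0`, so `Σ_(η ∈ R) Σ_v Re η(v) x_v ≥ |R| Σ_(v ∈ B) x_v ≥ |R| (c Λ - C)`, `Λ = log (1/(s-1))`. For `η = 1`: `Σ_v x_v ≤ Λ + C` (`isBigO_sum` of
`Lib_helper28/FROB`), for `η ≠ 1`: `Σ_v Re η(v) x_v ≤ log |L(s, η)| + Σ x_v²/2 ≤ C` (EPX, LBD; `Σ_v x_v² ≤ Σ_v N(v)^(-2)` is bounded for `s > 1`:
`summable_x` at `2`). So `|R| c Λ ≤ Λ + C'` for `s → 1`, `Λ → ∞`: `|R| c ≤ 1`. -/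
def S_IDX : Prop := ∀ (L : Type) [Field L] [NumberField L] (B : Set (HeightOneSpectrum (𝓞 L)))
    (c : ℝ), 0 < c →
    (∃ C : ℝ, ∀ᶠ s : ℝ in 𝓝[>] 1, c * Real.log (1 / (s - 1)) - C ≤ ∑' v, Set.indicator B (x s) v) →
    ∀ U : Subgroup (ClassGroup (𝓞 L)), (∀ v ∈ B, cl L v ∈ U) → (U.index : ℝ) * c ≤ 1

/-- KUMX: a non `p`-th power gives an extension of degree `p` in which the primes modulo which it is a
`p`-th power split.
PROOF. As `MKUM.lean` of MU3. `X ^ p - t` is irreducible (`X_pow_sub_C_irreducible_of_prime`), `M = L(y)`, `y^p = t`. `v ∌ p, t`, `t - a^p ∈ v`: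
`t - a^p = ∏_i (y - ζ^i a)`. A prime `w` above `v` contains some `y - ζ^i a`; two different factors are not in the same `w`: their difference is
`(ζ^i - ζ^j) a`, a unit at `v`. The conjugates of `w` contain all the factors, so there are `p` different primes above `v`, `g e f = p`, so `e = f = 1`. -/
def S_KUMX : Prop := ∀ (p : ℕ) [Fact p.Prime] (L : Type) [Field L] [NumberField L] (ζ t : 𝓞 L),
    IsPrimitiveRoot ζ p → (∀ y : L, y ^ p ≠ (t : L)) →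
    ∃ (M : Type) (_ : Field M) (_ : NumberField M) (_ : Algebra L M),
      ∀ v : HeightOneSpectrum (𝓞 L), (p : 𝓞 L) ∉ v.asIdeal → t ∉ v.asIdeal →
        (∃ a : 𝓞 L, t - a ^ p ∈ v.asIdeal) → p ≤ spl L M v

/-- THDX: the primes modulo which `t` is not a `p`-th power, and stable subgroups.
Uses S_IDX, S_KUMX, Stmt_SPLS, Stmt_DEG2. PROOF. `M'` from KUMX. `B` = the primes `v` of prime norm `∉ S`, `p, t ∉ v`, modulo which `t` is not a `p`-th power. The complement of `B`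
consists of primes of norm not prime (`O(1)`, DEG2), finitely many primes, and primes with `p ≤ spl L M' v` (at most `Λ/p + C`, SPLS); all primes have `Λ + O(1)`
(`isBigO_sum`). So `Σ_B x ≥ (1 - 1/p) Λ - C`. `H` = the image of `U` in the class group (`U` contains the kernel `prin.range`, see `P_THDJ.lean`): IDX gives `[J : U] = H.index ≤ p/(p-1) ≤ 2`.
`σ` acts on `J L / U` (`U` is stable under `σ` and `σ⁻¹`), a group of order at most `2`: trivially. So `(σ • x) * x⁻¹ ∈ U`. -/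
def S_THDX : Prop := ∀ (p : ℕ) [Fact p.Prime] (k L : Type) [Field k] [Field L] [NumberField L]
    [Algebra k L] (ζ : 𝓞 L) (t : (𝓞 L)ˣ), IsPrimitiveRoot ζ p →
    (∀ y : L, y ^ p ≠ ((t : 𝓞 L) : L)) → ∀ S : Finset ℕ, (∀ ℓ ∈ S, ℓ.Prime) →
    ∀ U : Subgroup (J L), (prin : Lˣ →* J L).range ≤ U →
    (∀ (σ : L ≃ₐ[k] L), ∀ x ∈ U, σ • x ∈ U) →
    (∀ (v : HeightOneSpectrum (𝓞 L)) (q : ℕ), q.Prime → q ∉ S →
      Nat.card (𝓞 L ⧸ v.asIdeal) = q → (∀ a : 𝓞 L, (t : 𝓞 L) - a ^ p ∉ v.asIdeal) → vJ v ∈ U) →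
    ∀ (σ : L ≃ₐ[k] L) (x : J L), (σ • x) * x⁻¹ ∈ U

/-- NIX: the norm index.
Uses S_IDX, Stmt_DEG2. PROOF. `B` = the primes `v` of `L` with a prime `w` of `M` above, `Nat.card (𝓞 M ⧸ w)` a prime number `∉ S` (then it is the norm of `v` too: it is a power of it). The primes `w` of `M` of prime norm
`∉ S` have `Σ x s w ≥ Λ - C` (`isBigO_sum` for `M`, DEG2, finitely many exceptions), each lies above a `v ∈ B` of the same norm (`x s w = x s v`), and above each `v` there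
are at most `[M : L]` primes (`card_fiber_le` of `Lib_helper28/FROB` or `Σ e f = [M : L]`). So `Σ_B x ≥ Λ/[M:L] - C'`. IDX with `c = 1/[M:L]` for `H` = the image of `U` in the class group. -/
def S_NIX : Prop := ∀ (L M : Type) [Field L] [NumberField L] [Field M] [NumberField M] [Algebra L M]
    (S : Finset ℕ), (∀ ℓ ∈ S, ℓ.Prime) → ∀ U : Subgroup (J L), (prin : Lˣ →* J L).range ≤ U →
    (∀ (v : HeightOneSpectrum (𝓞 L)) (q : ℕ), q.Prime → q ∉ S →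
      Nat.card (𝓞 L ⧸ v.asIdeal) = q → HasAb L M v q → vJ v ∈ U) →
    U.index ≠ 0 ∧ U.index ≤ Module.finrank L M

/-! ## Algebra -/

/-- ALGX: cyclic relations in characteristic `p`.
PROOF. `P_ALGS.lean` of MU3 with `3` replaced by `p` (see `S_ALGS`, `StS3.lean`). -/
def S_ALGX : Prop := ∀ (p : ℕ) [Fact p.Prime] (F : Type) [Field F] [CharP F p] (m n : ℕ), m ≤ n →
    ∀ β x : ZMod (p ^ n) → F, (∀ j, ∑ i, β i * x (i + j) = 0) →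
    (∑ i ∈ range (p ^ (n - m)), β (-((p ^ m * i : ℕ) : ZMod (p ^ n))) ≠ 0) →
    ∀ j, x (j + ((p ^ m : ℕ) : ZMod (p ^ n))) = x j

/-- EIGX: enough eigenfunctionals.
PROOF. `P_EIG.lean` of MU3 with `3` replaced by `p` (see `S_EIG`, `StS3.lean`). -/
def S_EIGX : Prop := ∀ (p : ℕ) [Fact p.Prime] (F : Type) [Field F] [CharP F p] [IsAlgClosed F]
    (G I : Type) [Group G]
    [CommGroup I] [MulDistribMulAction G I] (D : Subgroup G) [Finite D],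
    (∀ a ∈ D, ∀ b ∈ D, a * b = b * a) → (Nat.card D).Coprime p → ∀ (P : Subgroup I),
    (∀ g : G, ∀ x ∈ P, g • x ∈ P) → (∀ x : I, x ^ p ∈ P) → ∀ v ∉ P,
    ∃ (χ : D →* Fˣ) (f : I → F), (∀ x y, f (x * y) = f x + f y) ∧ (∀ x ∈ P, f x = 0) ∧
      (∀ (δ : D) (x : I), f ((δ : G) • x) = (χ δ : F) * f x) ∧ f v ≠ 0

/-- LGX: the power residue symbol.
PROOF. `P_LG.lean` of MU3 with `3` replaced by `p` (see `S_LG`, `StS3.lean`). -/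
def S_LGX : Prop := ∀ (p : ℕ) [Fact p.Prime] (L : Type) [Field L] [NumberField L]
    (lam : HeightOneSpectrum (𝓞 L)) (q : ℕ),
    q.Prime → p ∣ q - 1 → Nat.card (𝓞 L ⧸ lam.asIdeal) = q →
    ∃ (a : ℤ) (lg : (𝓞 L)ˣ →* Multiplicative (ZMod p)), (q : ℤ) ∣ a ^ p - 1 ∧ ¬ (q : ℤ) ∣ a - 1 ∧
      (∀ u : (𝓞 L)ˣ, (u : 𝓞 L) ^ ((q - 1) / p) - (a : 𝓞 L) ^ (Multiplicative.toAdd (lg u)).val ∈
        lam.asIdeal) ∧
      ∀ u : (𝓞 L)ˣ, lg u = 1 → ∃ v : 𝓞 L, (u : 𝓞 L) - v ^ p ∈ lam.asIdeal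

/-- NILXX: the relation for one prime and one eigenfunctional, at all translates.
Uses S_ALGX, S_LGX. PROOF. `P_NILX.lean` of MU3 (`S_NILX`) with `3` replaced by `p`; the relation `RelAt` is used at the single prime `lam` only; ALGX gives the conclusion for all `j`
(`x_i = f'(γ ^ i lam)`, `x_(j + p^m) = x_j`), not only for `j = 0`. -/
def S_NILXX : Prop := ∀ (p : ℕ) [Fact p.Prime] (F : Type) [Field F] [CharP F p] (k L : Type)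
    [Field k] [NumberField k]
    [Field L] [NumberField L] [Algebra k L] [IsGalois k L] (n m m₀ : ℕ) (γ : L ≃ₐ[k] L)
    (D : Subgroup (L ≃ₐ[k] L)) [Fintype D], TwP p k L n γ D → m ≤ n → ∀ S : Finset ℕ,
    (∀ v : HeightOneSpectrum (𝓞 L), Above S v → γ ^ (p ^ m₀) • v.asIdeal = v.asIdeal) →
    ∀ (c : (𝓞 L)ˣ) (χ : D →* Fˣ) (θ : F →+ ZMod p) (f : J L → F),
    (∀ x y, f (x * y) = f x + f y) → (∀ x ∈ (prin : Lˣ →* J L).range, f x = 0) →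
    (∀ (δ : D) (x : J L), f ((δ : L ≃ₐ[k] L) • x) = (χ δ : F) * f x) →
    ∀ (lam : HeightOneSpectrum (𝓞 L)) (q : ℕ), GoodPrP p k L S lam q → RelAt p k L S c lam q →
    (∀ a : 𝓞 L, (sUnitP p D γ m n χ θ c : 𝓞 L) - a ^ p ∉ lam.asIdeal) → ∀ j : ℕ,
    f (γ ^ j • γ ^ (p ^ m₀) • γ ^ (p ^ m) • vJ lam) - f (γ ^ j • γ ^ (p ^ m) • vJ lam) -
      f (γ ^ j • γ ^ (p ^ m₀) • vJ lam) + f (γ ^ j • vJ lam) = 0

/-- NILP: the result of section 3.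
Uses S_EIGX, S_STABX, S_THDX, S_NRJ, S_NIX, S_NILXX. PROOF. `P = prin.range ⊔ p`-th powers, stable under `Gal(L/k)`; `V = J L / P`, an `F_p`-space. `Y x = (γ^(p^m₀) γ^(p^m) x) (γ^(p^m) x)⁻¹ (γ^(p^m₀) x)⁻¹ x`, `N` from NRJ.
`Y = Y_m`. (1) Let `A = (γ - 1)^(p^m₀ + p^m₁ + 1)` on `V`. Claim: `A (N z) = 0` in `V` for all `z ∈ J M`. Otherwise EIGX gives `χ`, `f` (zero on `P`) with `f(A N z) ≠ 0`; `m ≤ m₁`, `θ` for `χ`, `t = sUnitP ..`, not a `p`-th power in `M`. (`A = (γ-1)^(p^m₁ - p^m) Y_m (γ-1)` on `V`.) `U` = the `x ∈ J L` with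
`f(γ^j Y x) = 0` for all `j`: a subgroup, stable under `γ` and `D` (`f(δ x) = χ(δ) f(x)`, abelian), so under `Gal(L/k)`, containing the principal ideals. `U' = N⁻¹(U)`: contains the principal ideals of `M`, stable
under `Gal(M/k)` (NRJ, every automorphism of `M/k` restricts to `L`). Let `w` be a prime of `M`, `#(𝓞 M ⧸ w) = q ∉ S`, `t` (in `𝓞 M`) not a `p`-th power modulo `w`, `v = w ∩ 𝓞 L`: `#(𝓞 L ⧸ v) = q`, `v` is good (STABX), `t` is not a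
`p`-th power modulo `v`, so `vJ v ∈ U` (NILXX with `KRelX`), `N(vJ w) = vJ v` (NRJ). THDX for `M`, with `σ = γ'` an extension of `γ` to `M`: `γ' z z⁻¹ ∈ U'`, so `(γ - 1) N z ∈ U` (NRJ), `f(γ^j Y_m (γ - 1) N z) = 0` for all `j`, so `f(A N z) = 0`, a contradiction.
(2) `W = (N(J M)) P`: subgroup of `J L`, contains the principal ideals and all `vJ v` with `HasAb L M v q`, `q ∉ S` (NRJ), so `[J L : W] ≤ d = [M : L]` (NIX). `J L / W` is an `F_p`-space of finite dimension `≤ d` (`p^dim ≤ d`) with the unipotent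
automorphism `γ` (`γ^(p^n) = 1`; `W` is stable): `(γ - 1)^d = 0` on it. So `(γ-1)^d V ⊆ W/P`. (3) `A` kills `W/P = N(J M) P/P` by (1) (`Y_m = (γ-1)^(p^m₀ + p^m)` on `V`: `(γ-1)^(p^a) = γ^(p^a) - 1` in characteristic `p`).
So `(γ-1)^(p^m₀ + p^m₁ + 1 + d) = 0` on `V`, and `p^m₀ + p^m₁ ≤ p^(max m₁ m₀ + 1)`; `(dg γ)^[l] b` has the class `(1 - γ)^l b`. -/
def S_NILP : Prop := ∀ (p : ℕ) [Fact p.Prime] (F : Type) [Field F] [CharP F p] [IsAlgClosed F]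
    (k L M : Type) [Field k] [NumberField k] [Field L] [NumberField L] [Field M] [NumberField M]
    [Algebra k L] [Algebra L M] [Algebra k M] [IsScalarTower k L M] [IsGalois k L] [IsGalois k M]
    (n m₁ m₀ : ℕ) (γ : L ≃ₐ[k] L) (D : Subgroup (L ≃ₐ[k] L)) [Fintype D], TwP p k L n γ D →
    m₁ ≤ n →
    ∀ (S : Finset ℕ) (ζ : 𝓞 M), IsPrimitiveRoot ζ (2 * p) → 2 ∈ S → p ∈ S → (∀ ℓ ∈ S, ℓ.Prime) →
    (∀ v : HeightOneSpectrum (𝓞 L), ¬ Above S v → v.asIdeal.ramificationIdx (𝓞 k) = 1) →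
    (∀ v : HeightOneSpectrum (𝓞 L), Above S v → γ ^ (p ^ m₀) • v.asIdeal = v.asIdeal) →
    ∀ c : (𝓞 L)ˣ, KRelX p k L M S c →
    (∀ χ : D →* Fˣ, ∃ m, m ≤ m₁ ∧ ∃ θ : F →+ ZMod p, ∀ y : M,
      y ^ p ≠ algebraMap L M ((sUnitP p D γ m n χ θ c : 𝓞 L) : L)) →
    ∀ b : J L, ∃ (y : J L) (x : Lˣ),
      (dg γ)^[p ^ (max m₁ m₀ + 1) + 1 + Module.finrank L M] b = y ^ p * prin x

/-- NCP: powers in a larger abelian extension.
PROOF. `y ∈ M`, `y^p = s`, `γ'` an extension of `γ` to `M` (`IsGalois k M`: `AlgEquiv.restrictNormalHom` is surjective). For `τ ∈ Gal(M/L)`: `(τ y/y)^p = 1`, so `τ y / y = ω^i ∈ L` is fixed by `γ'`. So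
`t = γ' y/y` satisfies `τ t / t = γ'(τ y/y)/(τ y/y) = 1` (`τ`, `γ'` commute), `t ∈ L` (`M / L` is Galois), `t^p = γ s / s`. -/
def S_NCP : Prop := ∀ (p : ℕ) [Fact p.Prime] (k L M : Type) [Field k] [NumberField k] [Field L]
    [NumberField L] [Field M] [NumberField M] [Algebra k L] [Algebra L M] [Algebra k M]
    [IsScalarTower k L M] [IsGalois k L] [IsGalois k M], (∀ σ τ : M ≃ₐ[k] M, σ * τ = τ * σ) →
    ∀ (γ : L ≃ₐ[k] L) (ω : L), IsPrimitiveRoot ω p → γ ω = ω → ∀ s : L, s ≠ 0 → ∀ y : M,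
      y ^ p = algebraMap L M s → ∃ t : L, t ^ p = γ s / s

/-- TNX: `T ^ (p ^ j) = γ ^ (p ^ j) - 1` modulo `p`-th powers.
PROOF. `P_TN.lean` of MU3 with `3` replaced by `p` (`(X - 1)^p = X^p - 1 + p h(X)`; for `p = 2`: `X² - 2X + 1 = X² - 1 + 2(1 - X)`). -/
def S_TNX : Prop := ∀ (p : ℕ) [Fact p.Prime] (k L : Type) [Field k] [Field L] [Algebra k L]
    (γ : L ≃ₐ[k] L) (j : ℕ)
    (x : L), x ≠ 0 → ∃ w : L, w ≠ 0 ∧ (Tg γ)^[p ^ j] x = (γ ^ (p ^ j)) x / x * w ^ p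

/-! ## The fields -/

/-- The fields: `K / k` abelian, linearly disjoint from the layers. -/
structure BasX (p : ℕ) (k K : IntermediateField ℚ ℂ) (B : ℕ → IntermediateField ℚ ℂ) : Prop where
  hk : k ≤ K
  gal : IsGalois k (IntermediateField.extendScalars hk)
  ab : ∀ σ τ : (IntermediateField.extendScalars hk) ≃ₐ[k] (IntermediateField.extendScalars hk),
    σ * τ = τ * σ
  deg : ∀ n, Module.finrank ℚ ↥(K ⊔ B n) = Module.finrank ℚ K * p ^ n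
  lay : ∀ n, IsLayer p n (B n)
  mono : Monotone B

/-- GALX: `K_n / k` is Galois with abelian group.
PROOF. `P_GALK.lean` of MU3 (`S_GALK`), which does not use the degree of `K`; `3` replaced by `p`. -/
def S_GALX : Prop := ∀ (p : ℕ) [Fact p.Prime] (k K : IntermediateField ℚ ℂ)
    (B : ℕ → IntermediateField ℚ ℂ)
    [FiniteDimensional ℚ K] [∀ n, FiniteDimensional ℚ ↥(K ⊔ B n)], BasX p k K B →
    ∀ (n : ℕ) (h : k ≤ K ⊔ B n), letI := algC h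
    IsGalois k ↥(K ⊔ B n) ∧ ∀ σ τ : ↥(K ⊔ B n) ≃ₐ[k] ↥(K ⊔ B n), σ * τ = τ * σ

/-- GENX: the group `Gal(K_n / K)` is cyclic of order `p ^ n`.
PROOF. `N_GAL.lean` of MU3 (`N_GAL` in `NStmts.lean`) with the hypothesis `¬ p ∣ [K : ℚ]` replaced by `deg`: the restriction `Gal(K_n / K) → Gal(B n / ℚ)` is injective, the orders are both `p ^ n`. -/
def S_GENX : Prop := ∀ (p : ℕ) [Fact p.Prime] (k K : IntermediateField ℚ ℂ)
    [FiniteDimensional ℚ K] (B : ℕ → IntermediateField ℚ ℂ) (_hk : k ≤ K),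
    (∀ n, Module.finrank ℚ ↥(K ⊔ B n) = Module.finrank ℚ K * p ^ n) →
    (∀ n, IsLayer p n (B n)) → Monotone B →
    ∀ (n : ℕ) (h : k ≤ K ⊔ B n), letI := algC h
    ∃ g : ↥(K ⊔ B n) ≃ₐ[k] ↥(K ⊔ B n), orderOf g = p ^ n ∧
      (∀ x : ↥(K ⊔ B n), g x = x ↔ (x : ℂ) ∈ K) ∧
      ∀ m ≤ n, orderOf (g ^ (p ^ m)) = p ^ (n - m) ∧
        ∀ x : ↥(K ⊔ B n), (g ^ (p ^ m)) x = x ↔ (x : ℂ) ∈ K ⊔ B m

/-- TWX: structure of `Gal(K_n / k)`, `[K : k]` prime to `p`.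
Uses S_GALX, S_GENX. PROOF. `P_TWK.lean` of MU3 (`S_TWK`). `D = NC h (B n)` injects into `Gal(K/k)` (an element trivial on `B n` and `K` is trivial), so `|D|` divides `[K : k]`, prime to `p`; the kernel of
`Gal(K_n/k) → Gal(k B_n/k)` is `D`, and the degree `[k B_n : k]` divides `p^n` (it is `[B_n : B_n ∩ k]`, Galois), `|Gal(K_n/k)| = [K:k] p^n` (`deg`), so `|D| ≥ [K:k]`, `|D| = [K : k]`, `D ∩ ⟨γ⟩ = 1`, `G = D ⟨γ⟩` by orders. -/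
def S_TWX : Prop := ∀ (p : ℕ) [Fact p.Prime] (k K : IntermediateField ℚ ℂ)
    (B : ℕ → IntermediateField ℚ ℂ)
    [FiniteDimensional ℚ K] [∀ n, FiniteDimensional ℚ ↥(K ⊔ B n)] (hB : BasX p k K B),
    ¬ p ∣ Module.finrank k (IntermediateField.extendScalars hB.hk) →
    ∀ (n : ℕ) (h : k ≤ K ⊔ B n), letI := algC h
    ∀ γ : ↥(K ⊔ B n) ≃ₐ[k] ↥(K ⊔ B n), (∀ x : ↥(K ⊔ B n), γ x = x ↔ (x : ℂ) ∈ K) →
      TwP p k ↥(K ⊔ B n) n γ (NC h (B n))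

/-- RSX: restriction from `K_n` to `K_m`.
Uses S_GALX, S_GENX, S_TWX. PROOF. `P_RST.lean` of MU3 (`S_RST`) with `3` replaced by `p`. -/
def S_RSX : Prop := ∀ (p : ℕ) [Fact p.Prime] (k K : IntermediateField ℚ ℂ)
    (B : ℕ → IntermediateField ℚ ℂ)
    [FiniteDimensional ℚ K] [∀ n, FiniteDimensional ℚ ↥(K ⊔ B n)] (hB : BasX p k K B),
    ¬ p ∣ Module.finrank k (IntermediateField.extendScalars hB.hk) →
    ∀ (m n : ℕ) (_ : m ≤ n) (h : k ≤ K ⊔ B n) (h' : k ≤ K ⊔ B m) (hmn : K ⊔ B m ≤ K ⊔ B n),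
    letI := algC h
    letI := algC h'
    ∃ r : (↥(K ⊔ B n) ≃ₐ[k] ↥(K ⊔ B n)) →* (↥(K ⊔ B m) ≃ₐ[k] ↥(K ⊔ B m)),
      (∀ (σ : ↥(K ⊔ B n) ≃ₐ[k] ↥(K ⊔ B n)) (x : ↥(K ⊔ B m)),
        ((r σ x : ↥(K ⊔ B m)) : ℂ) = (σ ⟨x, hmn x.2⟩ : ↥(K ⊔ B n))) ∧
      (∀ γ : ↥(K ⊔ B n) ≃ₐ[k] ↥(K ⊔ B n), (∀ x : ↥(K ⊔ B n), γ x = x ↔ (x : ℂ) ∈ K) →
        (∀ x : ↥(K ⊔ B m), r γ x = x ↔ (x : ℂ) ∈ K) ∧
        ∀ x : ↥(K ⊔ B n), (γ ^ (p ^ m)) x = x ↔ (x : ℂ) ∈ K ⊔ B m) ∧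
      ∃ e : NC h (B n) ≃* NC h' (B m), ∀ δ : NC h (B n),
        ((e δ : NC h' (B m)) : ↥(K ⊔ B m) ≃ₐ[k] ↥(K ⊔ B m)) =
          r (δ : ↥(K ⊔ B n) ≃ₐ[k] ↥(K ⊔ B n))

/-- LFX: an automorphism of `K₀_n / k` trivial on `K₀` lifts to one of `K_n / k` trivial on `K`.
Uses S_GENX. PROOF. `g` from GENX for `K`, `n`. The restriction of `⟨g⟩ = Gal(K_n/K)` to `K₀_n = K₀ B_n` (normal over `k`: restriction is possible as `g` maps `K₀` and `B n` into themselves: `g` is trivial on `K₀ ≤ K`, and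
`B n / ℚ` is normal) is injective (trivial on `K` and on `B n` implies trivial), so its image in `Gal(K₀_n / K₀)`, a group of order `p^n` (`deg` for `K₀`), is everything. -/
def S_LFX : Prop := ∀ (p : ℕ) [Fact p.Prime] (k K₀ K : IntermediateField ℚ ℂ)
    (B : ℕ → IntermediateField ℚ ℂ)
    [FiniteDimensional ℚ K] [∀ n, FiniteDimensional ℚ ↥(K ⊔ B n)], BasX p k K₀ B → BasX p k K B →
    K₀ ≤ K → ∀ (n : ℕ) (h : k ≤ K ⊔ B n) (h₀ : k ≤ K₀ ⊔ B n) (hh : K₀ ⊔ B n ≤ K ⊔ B n),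
    letI := algC h
    letI := algC h₀
    ∀ γ : ↥(K₀ ⊔ B n) ≃ₐ[k] ↥(K₀ ⊔ B n), (∀ x : ↥(K₀ ⊔ B n), (x : ℂ) ∈ K₀ → γ x = x) →
    ∃ γ' : ↥(K ⊔ B n) ≃ₐ[k] ↥(K ⊔ B n), (∀ x : ↥(K ⊔ B n), (x : ℂ) ∈ K → γ' x = x) ∧
      ∀ x : ↥(K₀ ⊔ B n), ((γ' ⟨x, hh x.2⟩ : ↥(K ⊔ B n)) : ℂ) = (γ x : ↥(K₀ ⊔ B n))

/-- M0X: a bounded power of the automorphisms over `K` fixes all primes above `S`.
Uses S_PRB (MU3), S_GENX. PROOF. `P_M0.lean` of MU3 (`S_M0`). `γ'` is a power of the generator of GENX, so of `p`-power order; the orbit of `v` under `⟨γ'⟩` has `p^i ≤ C` elements. -/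
def S_M0X : Prop := ∀ (p : ℕ) [Fact p.Prime] (k K : IntermediateField ℚ ℂ)
    (B : ℕ → IntermediateField ℚ ℂ)
    [FiniteDimensional ℚ K] [∀ n, FiniteDimensional ℚ ↥(K ⊔ B n)], BasX p k K B →
    ∀ S : Finset ℕ, (∀ ℓ ∈ S, ℓ.Prime) → ∃ m₀ : ℕ, ∀ (n : ℕ) (h : k ≤ K ⊔ B n), letI := algC h
    ∀ γ : ↥(K ⊔ B n) ≃ₐ[k] ↥(K ⊔ B n), (∀ x : ↥(K ⊔ B n), (x : ℂ) ∈ K → γ x = x) →
    ∀ v : HeightOneSpectrum (𝓞 ↥(K ⊔ B n)), Above S v → γ ^ (p ^ m₀) • v.asIdeal = v.asIdeal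

/-- RAMX: `K_n / k` is unramified outside a finite set independent of `n`.
PROOF. `P_RAMK.lean` of MU3 (`S_RAMK`) with `3` replaced by `p` (`N_RAMP` is for all `p`). -/
def S_RAMX : Prop := ∀ (p : ℕ) [Fact p.Prime] (k K : IntermediateField ℚ ℂ)
    (B : ℕ → IntermediateField ℚ ℂ)
    [FiniteDimensional ℚ k] [FiniteDimensional ℚ K] [∀ n, FiniteDimensional ℚ ↥(K ⊔ B n)],
    BasX p k K B → ∃ S' : Finset ℕ, 2 ∈ S' ∧ p ∈ S' ∧ (∀ ℓ ∈ S', ℓ.Prime) ∧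
    ∀ S : Finset ℕ, S' ⊆ S → ∀ (n : ℕ) (h : k ≤ K ⊔ B n), letI := algC h
    ∀ v : HeightOneSpectrum (𝓞 ↥(K ⊔ B n)), ¬ Above S v → v.asIdeal.ramificationIdx (𝓞 k) = 1

/-! ## The inputs -/

/-- The inputs, on the level of `K` (`c n ∈ K_n`) and `K₀` (`c₀ n`, the norm of `c n` to `K₀_n`). (I3): for every character `χ` of
`Gal(K₀/k)` and every `N` there are arbitrarily large `n` with the non-power statement for `χ(δ|K₀)` (`r` is the restriction from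
`K₀_n` to `K₀`). -/
structure InpX (F : Type) [Field F] (p : ℕ) (k K₀ K : IntermediateField ℚ ℂ)
    (B : ℕ → IntermediateField ℚ ℂ)
    [FiniteDimensional ℚ k] [∀ n, FiniteDimensional ℚ ↥(K ⊔ B n)] (hk : ∀ n, k ≤ K ⊔ B n)
    (hk₀ : ∀ n, k ≤ K₀ ⊔ B n) (hkK : k ≤ K₀) (S : Finset ℕ) (c c₀ : ℕ → ℂ) (n₁ : ℕ) : Prop where
  mem : ∀ n, c n ∈ K ⊔ B n
  ne : ∀ n, c n ≠ 0
  mem₀ : ∀ n, c₀ n ∈ K₀ ⊔ B n
  norm : ∀ n, letI := algC (hk n)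
    c₀ n = ∏ᶠ g : NC (hk n) (K₀ ⊔ B n), (((g : ↥(K ⊔ B n) ≃ₐ[k] ↥(K ⊔ B n)) ⟨c n, mem n⟩ :
      ↥(K ⊔ B n)) : ℂ)
  prime : ∀ ℓ ∈ S, ℓ.Prime
  su : ∀ n, n₁ ≤ n → SU S ↥(K ⊔ B n) ⟨c n, mem n⟩
  nrm : ∀ n, n₁ ≤ n →
    letI := algC (hk (n + 1))
    ∀ σ : ↥(K ⊔ B (n + 1)) ≃ₐ[k] ↥(K ⊔ B (n + 1)),
      (∀ x : ↥(K ⊔ B (n + 1)), σ x = x ↔ (x : ℂ) ∈ K ⊔ B n) →
      ∃ C ∈ K, C ≠ 0 ∧ ∏ i ∈ range p,
        (((σ ^ i) ⟨c (n + 1), mem (n + 1)⟩ : ↥(K ⊔ B (n + 1))) : ℂ) = C * c n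
  kol : ∀ n, n₁ ≤ n →
    letI := algC (hk n)
    KolInP p k ↥(K ⊔ B n) {g | ∀ x : ↥(K ⊔ B n), (x : ℂ) ∈ K → g x = x} S ⟨c n, mem n⟩
  i3 : letI := algC hkK
    ∀ (χ : (↥K₀ ≃ₐ[k] ↥K₀) →* Fˣ) (N n₀ : ℕ), ∃ n, n₀ ≤ n ∧
    (letI := algC (hk₀ n)
    ∀ γ : ↥(K₀ ⊔ B n) ≃ₐ[k] ↥(K₀ ⊔ B n), (∀ x : ↥(K₀ ⊔ B n), γ x = x ↔ (x : ℂ) ∈ K₀) →
    ∀ [Fintype (NC (hk₀ n) (B n))] (r : NC (hk₀ n) (B n) → (↥K₀ ≃ₐ[k] ↥K₀)),
    (∀ (δ : NC (hk₀ n) (B n)) (x : ↥K₀) (x' : ↥(K₀ ⊔ B n)), (x' : ℂ) = x →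
      (((δ : ↥(K₀ ⊔ B n) ≃ₐ[k] ↥(K₀ ⊔ B n)) x' : ↥(K₀ ⊔ B n)) : ℂ) = (r δ x : ↥K₀)) →
    ∃ θ : F →+ ZMod p, ∀ y : ↥(K₀ ⊔ B n), y ^ p ≠ ∏ δ : NC (hk₀ n) (B n),
      ((δ : ↥(K₀ ⊔ B n) ≃ₐ[k] ↥(K₀ ⊔ B n)) ((Tg γ)^[N] ⟨c₀ n, mem₀ n⟩)) ^
        (θ ((χ (r δ))⁻¹ : Fˣ)).val)

/-- The situation of the field statements: `k ≤ K₀ ≤ K`. -/
structure SetX (p : ℕ) (k K₀ K : IntermediateField ℚ ℂ) (B : ℕ → IntermediateField ℚ ℂ) : Prop where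
  b0 : BasX p k K₀ B
  b : BasX p k K B
  le : K₀ ≤ K
  cop : ¬ p ∣ Module.finrank k (IntermediateField.extendScalars b0.hk)
  om : ∃ ω ∈ K₀, IsPrimitiveRoot ω p
  ze : ∃ ζ ∈ K, IsPrimitiveRoot ζ (2 * p)

/-- KOLX: the relations for `c₀`.
Uses S_KINX, S_KNM, S_GALX, S_RAMX. PROOF. `S` is enlarged: let `S₁ = S ∪ S'` (RAMX for `K`); `KolInP`, `SU` for `S` imply those for `S₁` (monotonicity as `P_MONO.lean`). `g' c/c` and `u' = g'^p c/c` are units of `𝓞 K_n`: `v(g' c) = v(c)` at `v` above `S₁` as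
`g'` fixes `v`, and both are `1` elsewhere (`P_UNI.lean`, `S_UNI` is for all fields). KINX for `g'` (`∈ Gs`) gives `KRelP p k K_n S₁ u'`. `N_(K_n/K₀_n) u' = g^p c₀/c₀ = u` (`norm`, `g'` extends `g` and commutes with
`NC (K₀ ⊔ B n)`; `Algebra.norm_eq_prod_automorphisms` for `K_n / K₀_n`, whose automorphisms are those of `NC`). KNM. `ζ` is integral. -/
def S_KOLX : Prop := ∀ (F : Type) [Field F] (p : ℕ) [Fact p.Prime]
    (k K₀ K : IntermediateField ℚ ℂ) (B : ℕ → IntermediateField ℚ ℂ)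
    [FiniteDimensional ℚ k] [FiniteDimensional ℚ K] [∀ n, FiniteDimensional ℚ ↥(K ⊔ B n)]
    [∀ n, FiniteDimensional ℚ ↥(K₀ ⊔ B n)], SetX p k K₀ K B →
    ∃ S' : Finset ℕ, 2 ∈ S' ∧ p ∈ S' ∧ (∀ ℓ ∈ S', ℓ.Prime) ∧
    ∀ (hk : ∀ n, k ≤ K ⊔ B n) (hk₀ : ∀ n, k ≤ K₀ ⊔ B n) (hh : ∀ n, K₀ ⊔ B n ≤ K ⊔ B n)
    (hkK : k ≤ K₀) (S : Finset ℕ) (c c₀ : ℕ → ℂ) (n₁ : ℕ)
    (hI : InpX F p k K₀ K B hk hk₀ hkK S c c₀ n₁)
    (S₁ : Finset ℕ), S ∪ S' ⊆ S₁ → (∀ ℓ ∈ S₁, ℓ.Prime) → ∀ n, n₁ ≤ n →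
    letI := algC (hk n)
    letI := algC (hk₀ n)
    letI := algC (hh n)
    ∀ (g : ↥(K₀ ⊔ B n) ≃ₐ[k] ↥(K₀ ⊔ B n)) (g' : ↥(K ⊔ B n) ≃ₐ[k] ↥(K ⊔ B n)),
    (∀ x : ↥(K ⊔ B n), (x : ℂ) ∈ K → g' x = x) →
    (∀ x : ↥(K₀ ⊔ B n), ((g' ⟨x, hh n x.2⟩ : ↥(K ⊔ B n)) : ℂ) = (g x : ↥(K₀ ⊔ B n))) →
    (∀ v : HeightOneSpectrum (𝓞 ↥(K ⊔ B n)), Above S₁ v → g' • v.asIdeal = v.asIdeal) →
    ∀ u : (𝓞 ↥(K₀ ⊔ B n))ˣ,
    ((u : 𝓞 ↥(K₀ ⊔ B n)) : ↥(K₀ ⊔ B n)) = (g ^ p) ⟨c₀ n, hI.mem₀ n⟩ / ⟨c₀ n, hI.mem₀ n⟩ →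
    KRelX p k ↥(K₀ ⊔ B n) ↥(K ⊔ B n) S₁ u

/-- SU0: `c₀ n` is a unit outside `S`.
PROOF. `c₀ n` is a product of conjugates of `c n`, each a unit outside `S` (the set of the primes above `S` is stable under
automorphisms); a prime `v` of `K₀_n` not above `S` has a prime `w` of `K_n` above it, not above `S`, and `v(x) = 1` iff `w(x) = 1` for `x ∈ K₀_n`. -/
def S_SU0 : Prop := ∀ (F : Type) [Field F] (p : ℕ) [Fact p.Prime]
    (k K₀ K : IntermediateField ℚ ℂ) (B : ℕ → IntermediateField ℚ ℂ)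
    [FiniteDimensional ℚ k] [FiniteDimensional ℚ K] [∀ n, FiniteDimensional ℚ ↥(K ⊔ B n)]
    [∀ n, FiniteDimensional ℚ ↥(K₀ ⊔ B n)], SetX p k K₀ K B →
    ∀ (hk : ∀ n, k ≤ K ⊔ B n) (hk₀ : ∀ n, k ≤ K₀ ⊔ B n)
    (hkK : k ≤ K₀) (S : Finset ℕ) (c c₀ : ℕ → ℂ) (n₁ : ℕ)
    (hI : InpX F p k K₀ K B hk hk₀ hkK S c c₀ n₁), ∀ n, n₁ ≤ n →
    c₀ n ≠ 0 ∧ SU S ↥(K₀ ⊔ B n) ⟨c₀ n, hI.mem₀ n⟩

/-- NR1: the norm relation for `c₀`, one step.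
Uses S_GALX, S_GENX, S_LFX. PROOF. Let `σ₀` be an automorphism of `K₀_(n+1) / k` with fixed field `K₀_n`; it is trivial on `K₀`, lift it to `σ` of `K_(n+1)/k` trivial on `K` (LFX). `σ` is trivial on `B n` (as `σ₀` is), so on `K_n`, and its fixed field is `K_n`: `[K_(n+1) : K_n] = p` (`deg`)
and `σ ≠ 1`. `∏_i σ₀^i c₀(n+1) = ∏_i σ^i ∏_(g ∈ NC(K₀_(n+1))) g c(n+1) = ∏_g g ∏_i σ^i c(n+1) = ∏_g g (C c n)`. The restriction of the `g` (automorphisms of `K_(n+1)` trivial on `K₀_(n+1)`) to `K_n` is a bijection with `NC(K₀_n)` for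
`K_n` (both have the order `[K : K₀]` by `deg`; injective: trivial on `K` and `B (n+1)`), so this is `C₀ c₀ n`, `C₀ = ∏_g g C`, a nonzero element of `K` fixed by all `g`; the `g` restrict to all of `Gal(K/K₀)` (orders), so `C₀ ∈ K₀`. -/
def S_NR1 : Prop := ∀ (F : Type) [Field F] (p : ℕ) [Fact p.Prime]
    (k K₀ K : IntermediateField ℚ ℂ) (B : ℕ → IntermediateField ℚ ℂ)
    [FiniteDimensional ℚ k] [FiniteDimensional ℚ K] [∀ n, FiniteDimensional ℚ ↥(K ⊔ B n)]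
    [∀ n, FiniteDimensional ℚ ↥(K₀ ⊔ B n)], SetX p k K₀ K B →
    ∀ (hk : ∀ n, k ≤ K ⊔ B n) (hk₀ : ∀ n, k ≤ K₀ ⊔ B n)
    (hkK : k ≤ K₀) (S : Finset ℕ) (c c₀ : ℕ → ℂ) (n₁ : ℕ)
    (hI : InpX F p k K₀ K B hk hk₀ hkK S c c₀ n₁), ∀ n, n₁ ≤ n →
    letI := algC (hk₀ (n + 1))
    ∀ σ : ↥(K₀ ⊔ B (n + 1)) ≃ₐ[k] ↥(K₀ ⊔ B (n + 1)),
      (∀ x : ↥(K₀ ⊔ B (n + 1)), σ x = x ↔ (x : ℂ) ∈ K₀ ⊔ B n) →
      ∃ C ∈ K₀, C ≠ 0 ∧ ∏ i ∈ range p,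
        (((σ ^ i) ⟨c₀ (n + 1), hI.mem₀ (n + 1)⟩ : ↥(K₀ ⊔ B (n + 1))) : ℂ) = C * c₀ n

/-- NRX: the norm relation from `K₀_n` to `K₀_m`.
Uses S_NR1, S_RSX. PROOF. `P_NRM.lean` of MU3 (`S_NRM`) with `3` replaced by `p` and constants in `K₀`, on which `γ` is trivial. -/
def S_NRX : Prop := ∀ (F : Type) [Field F] (p : ℕ) [Fact p.Prime]
    (k K₀ K : IntermediateField ℚ ℂ) (B : ℕ → IntermediateField ℚ ℂ)
    [FiniteDimensional ℚ k] [FiniteDimensional ℚ K] [∀ n, FiniteDimensional ℚ ↥(K ⊔ B n)]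
    [∀ n, FiniteDimensional ℚ ↥(K₀ ⊔ B n)], SetX p k K₀ K B →
    ∀ (hk : ∀ n, k ≤ K ⊔ B n) (hk₀ : ∀ n, k ≤ K₀ ⊔ B n)
    (hkK : k ≤ K₀) (S : Finset ℕ) (c c₀ : ℕ → ℂ) (n₁ : ℕ)
    (hI : InpX F p k K₀ K B hk hk₀ hkK S c c₀ n₁)
    (m n : ℕ), n₁ ≤ m → m ≤ n →
    letI := algC (hk₀ n)
    ∀ γ : ↥(K₀ ⊔ B n) ≃ₐ[k] ↥(K₀ ⊔ B n), (∀ x : ↥(K₀ ⊔ B n), γ x = x ↔ (x : ℂ) ∈ K₀) →
    ∃ C ∈ K₀, C ≠ 0 ∧ ((∏ i ∈ range (p ^ (n - m)), (γ ^ (p ^ m * i)) ⟨c₀ n, hI.mem₀ n⟩ :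
      ↥(K₀ ⊔ B n)) : ℂ) = C * c₀ m

/-- I3X: the non-power at all levels `n ≥ m`, in the large field.
Uses S_RSX, S_TWX, S_NRX, S_TNX, S_NCP, S_GALX. PROOF. `P_I3L.lean` of MU3 (`S_I3L`), with one more `T` and with a level `m` which depends on the character: the group `G₀ = Gal(K₀/k)` is finite and has finitely many characters `ψ` with values in `F`; for each let `m(ψ) ≥ n₁` be given by
`InpX.i3` for `N = p ^ (m₀ + 1) + 2`, `n₀ = n₁`, and `m₁` their maximum. Restriction `r_n : NC (B n) → G₀` is bijective (injective: trivial on `K₀` and `B n`; orders: TWX, or RSX with `m = 0`, `B 0 = ℚ`) and compatible with the `e` of RSX from `n` to `m`. Given `n ≥ m₁`, `χ` let `ψ = χ ∘ r_n⁻¹`, `m = m(ψ)`. `s = sUnitP .. ∈ K₀_m` as there: `s = ∏_δ (δ u_m)^θ(..)`, `u_m = γ'^(p^(m₀+1)) c₀_m/c₀_m` (the constant of NRX is fixed by `γ`). If `s = y^p`, `y ∈ K_n`: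
NCP (`L = K₀_n`, `M = K_n`) gives `t ∈ K₀_n`, `t^p = γ s/s = T s ∈ K₀_m`. `h = γ^(p^m)` fixes `T s`, `(h t/t)^p = 1`, `h t/t ∈ K₀` is fixed by `γ`, so `t' = γ t/t` is fixed by `h`, `t' ∈ K₀_m`, `t'^p = T² s`, and by TNX
`T² u_m = T^(p^(m₀+1) + 2) c₀_m` up to a `p`-th power of `K₀_m`: contradiction to `i3`. -/
def S_I3X : Prop := ∀ (F : Type) [Field F] (p : ℕ) [Fact p.Prime]
    (k K₀ K : IntermediateField ℚ ℂ) (B : ℕ → IntermediateField ℚ ℂ)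
    [FiniteDimensional ℚ k] [FiniteDimensional ℚ K] [∀ n, FiniteDimensional ℚ ↥(K ⊔ B n)]
    [∀ n, FiniteDimensional ℚ ↥(K₀ ⊔ B n)], SetX p k K₀ K B →
    ∀ (hk : ∀ n, k ≤ K ⊔ B n) (hk₀ : ∀ n, k ≤ K₀ ⊔ B n) (hh : ∀ n, K₀ ⊔ B n ≤ K ⊔ B n)
    (hkK : k ≤ K₀) (S : Finset ℕ) (c c₀ : ℕ → ℂ) (n₁ : ℕ)
    (hI : InpX F p k K₀ K B hk hk₀ hkK S c c₀ n₁)
    (m₀ : ℕ), ∃ m₁, n₁ ≤ m₁ ∧ ∀ n, m₁ ≤ n →
    letI := algC (hk₀ n)
    letI := algC (hh n)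
    ∀ γ : ↥(K₀ ⊔ B n) ≃ₐ[k] ↥(K₀ ⊔ B n), (∀ x : ↥(K₀ ⊔ B n), γ x = x ↔ (x : ℂ) ∈ K₀) →
    ∀ [Fintype (NC (hk₀ n) (B n))] (u : (𝓞 ↥(K₀ ⊔ B n))ˣ),
    ((u : 𝓞 ↥(K₀ ⊔ B n)) : ↥(K₀ ⊔ B n)) =
      ((γ ^ (p ^ m₀)) ^ p) ⟨c₀ n, hI.mem₀ n⟩ / ⟨c₀ n, hI.mem₀ n⟩ →
    ∀ χ : NC (hk₀ n) (B n) →* Fˣ, ∃ m, m ≤ m₁ ∧ ∃ θ : F →+ ZMod p, ∀ y : ↥(K ⊔ B n),
      y ^ p ≠ algebraMap ↥(K₀ ⊔ B n) ↥(K ⊔ B n)
        ((sUnitP p (NC (hk₀ n) (B n)) γ m n χ θ u : 𝓞 ↥(K₀ ⊔ B n)) : ↥(K₀ ⊔ B n))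

/-! ## Results -/

/-- FINX: the result of section 4 with the hypothesis `deg`.
Uses S_GENX. PROOF. `N_FIN.lean` of MU3 (`N_FIN`, `NStmts.lean`), with `N_GAL` replaced by GENX; all other ingredients are for all `p` and unconditional in `NAll.lean`. -/
def S_FINX : Prop := ∀ (p l : ℕ) [Fact p.Prime] (k K : IntermediateField ℚ ℂ)
    [FiniteDimensional ℚ K] (B : ℕ → IntermediateField ℚ ℂ) (_hk : k ≤ K)
    [∀ n, FiniteDimensional ℚ ↥(K ⊔ B n)],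
    (∀ n, Module.finrank ℚ ↥(K ⊔ B n) = Module.finrank ℚ K * p ^ n) →
    (∀ n, IsLayer p n (B n)) → Monotone B →
    (∀ (n : ℕ) (h : k ≤ K ⊔ B n), letI := algC h
      ∀ g : ↥(K ⊔ B n) ≃ₐ[k] ↥(K ⊔ B n), (∀ x : ↥(K ⊔ B n), g x = x ↔ (x : ℂ) ∈ K) →
      ∀ b : J ↥(K ⊔ B n), ∃ (y : J ↥(K ⊔ B n)) (x : (↥(K ⊔ B n))ˣ),
        (dg g)^[l] b = y ^ p * prin x) →
    ∃ C : ℕ, ∀ n, padicValNat p (classNo (K ⊔ B n)) ≤ C * (n + 1) ^ 2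

/-- MAINKX: the growth of the class numbers of `K₀ B_n`.
Uses S_GALX, S_TWX, S_LFX, S_M0X, S_RAMX, S_KOLX, S_SU0, S_I3X, S_NILP, S_FINX. PROOF. As `P_MAINK.lean` of MU3. `S'` from KOLX, `S''` from RAMX for `K₀` and for `K`, `S₁ = S ∪ S' ∪ S''`. `m₀` = the maximum of the constants of M0X for `K` and `K₀` (if a power fixes the primes, so does every
higher `p`-power), `m = m₁` from I3X for `m₀`, `M = max m m₀ + 1`, `d = [K : K₀]` (`[K_n : K₀_n] = d` by `deg`), `l = p ^ M + 1 + d`. FINX for `K₀`: let `n`, `g` be given. If `n < m` then `g ^ (p ^ n) = 1` (TWX), so `(dg g)^[p^M] b` is a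
`p`-th power times `b / g^(p^M) b = 1`, and further `dg` keep this form. If `n ≥ m`: `u = (g^(p^m₀))^p c₀/c₀` is a unit (SU0; `g^(p^m₀)` fixes the primes above `S₁`; `S_UNI`, `Pool/Agent/MU3/P_UNI.lean`), `g'` = a lift of `g^(p^m₀)` in the form `(γ')^(p^m₀)`, `γ'` from LFX
for `g`: KOLX gives `KRelX`; NILP with `D = NC _ (B n)`, I3X. -/
def S_MAINKX : Prop := ∀ (F : Type) [Field F] (p : ℕ) [Fact p.Prime] [CharP F p] [IsAlgClosed F]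
    (k K₀ K : IntermediateField ℚ ℂ) (B : ℕ → IntermediateField ℚ ℂ)
    [FiniteDimensional ℚ k] [FiniteDimensional ℚ K] [∀ n, FiniteDimensional ℚ ↥(K ⊔ B n)],
    SetX p k K₀ K B →
    ∀ (hk : ∀ n, k ≤ K ⊔ B n) (hk₀ : ∀ n, k ≤ K₀ ⊔ B n)
    (hkK : k ≤ K₀) (S : Finset ℕ) (c c₀ : ℕ → ℂ) (n₁ : ℕ),
    InpX F p k K₀ K B hk hk₀ hkK S c c₀ n₁ →
    ∃ C : ℕ, ∀ n, padicValNat p (classNo (K₀ ⊔ B n)) ≤ C * (n + 1) ^ 2

end Pool.Agent.MUXK
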