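import Pool.Agent.MUX.StXE2
import Pool.Agent.MUX.StHX2
import Pool.Agent.MUX.StYX
import Pool.Agent.MUX.StKX
import Pool.Agent.MU3.StI2

/-!
# MUX, block IX (helper36): from blocks E and H to the input (I3) of block K, `p = 2` and `p = 3` at once

`PAPER_X.md`, section 6. Every statement is a `def Si_X : Prop`; a module proves `theorem ti_X (h : Si_Y) ... : Si_X`
in the file `Pool/Agent/MUX/I_X.lean`, namespace `Pool.Agent.MUXI`; the hypotheses are the statements named under USES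
(fewer is fine). `Sx_..` in USES is `Pool.Agent.MUXF.Sx_..` (`StXF.lean`; theorems `Pool.Agent.MUXF.xf_..` in `XFAll.lean`), `Sy_..` is
`Pool.Agent.MUXY.Sy_..` (`StYX.lean`), `S_..X` is `Pool.Agent.MUXK.S_..X` (`StKX.lean`). The structures `CQ`, `IsLI` exist twice (`MUX`,
`MUXF`): conversions `Pool.Agent.MUXY.cqF`, `liF`; `nI`, `cjI` are equal by `rfl`.

`v = V.valuation`: `v x ≤ 1 ↔ x ∈ V`, `v x < 1 ↔ x ∈ V.nonunits`. Levels `m = lvX p f n = f q0 p^n`, `M = q0 p^n`, `q0 = q0 p` (3 or 4);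
`a = aX p f = 1 + 2 q0 f`; `g0 = 1 + q0` (4 or 5).

* `IA σ m a` : the automorphism `σ` of `ℂ / k` acts as the ideal `a` on level `m`; `RE m a a'` : equal ray classes.
* `AR h m τ a` : the automorphism `τ` of `D / k`, `D ≤ RF m`, is the Artin symbol of `a`.
* `XM ..` : abstract form of the sets `XX R m h τ`.
-/

set_option autoImplicit false

namespace Pool.Agent.MUXI

open _root_.MU3 Pool.Agent.MU3 Pool.Agent.MU3A Pool.Agent.MU3B Pool.Agent.RI Pool.Agent.RID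
  Pool.Agent.MUX Pool.Agent.MUXE Pool.Agent.MUXK
open Pool.Agent.MU3I (w3 zt)

noncomputable section

/-! ## Definitions -/

/-- the automorphism `σ` of `ℂ`, trivial on `k`, acts as the ideal `a` on level `m` -/
structure IA {A B : ℤ} (σ : ℂ ≃+* ℂ) (m a : Ideal (OO A B)) : Prop where
  fix : FixK A B σ
  cop : IsCoprime a m
  act : ∀ (b : Ideal (OO A B)) (L : PeriodPair) (om : ℂ), IsNL b L om →
    ∃ (b' : Ideal (OO A B)) (L' : PeriodPair) (om' mu : ℂ), IsNL b' L' om' ∧ ActI σ m a L L' mu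

/-- `a` and `a'` are in the same ray class modulo `m` -/
def RE {A B : ℤ} (m a a' : Ideal (OO A B)) : Prop :=
  ∃ x y : OO A B, x ≠ 0 ∧ y ≠ 0 ∧ IsCoprime (sp x) m ∧ x - y ∈ m ∧ sp x * a = sp y * a'

/-- the automorphism `τ` of `D / k` is the Artin symbol of `a` (level `m`) -/
def AR {A B : ℤ} {D : IntermediateField ℚ ℂ} (h : kk A B ≤ D) (m : Ideal (OO A B))
    (τ : letI := algC h; D ≃ₐ[kk A B] D) (a : Ideal (OO A B)) : Prop :=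
  ∃ σ : ℂ ≃+* ℂ, IA σ m a ∧ ExtC h τ σ

/-- the sets `X τ` of pairs `(i, x)` of level `lvX p f n`, abstractly: `Δ` is the group of the automorphisms
trivial on the layer, `γ` acts on the layer as `1 + q0` -/
structure XM {A B : ℤ} {n₀ : ℕ} {ι : Type} (R : Reps A B n₀ ι) (p f n : ℕ) {G : Type} [Group G]
    (γ : G) (Δ : Subgroup G)
    (X : G → Set (ι × (OO A B ⧸ idl (A := A) (B := B) (lvX p f n)))) : Prop where
  comm : ∀ σ τ : G, σ * τ = τ * σ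
  cop : ∀ τ, ∀ q ∈ X τ, IsCoprime (Quotient.out q.2 : OO A B) ((lvX p f n : ℕ) : OO A B)
  ex : ∀ q : ι × (OO A B ⧸ idl (A := A) (B := B) (lvX p f n)),
    IsCoprime (Quotient.out q.2 : OO A B) ((lvX p f n : ℕ) : OO A B) → ∃ τ, q ∈ X τ
  uniq : ∀ q τ τ', q ∈ X τ → q ∈ X τ' → τ = τ'
  nrm : ∀ q τ, q ∈ X τ → ∀ j : ℕ, (τ * (γ ^ j)⁻¹ ∈ Δ ↔
    ((q0 p * p ^ n : ℕ) : ℤ) ∣ nm (Quotient.out q.2) * nI (R.b q.1) - (1 + (q0 p : ℤ)) ^ j ∨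
    ((q0 p * p ^ n : ℕ) : ℤ) ∣ nm (Quotient.out q.2) * nI (R.b q.1) + (1 + (q0 p : ℤ)) ^ j)

/-- the weights `kk_i = kp_i c_i / mu_i`, times `w3 (N b_i)` if `s = -1` -/
def kkX {A B : ℤ} {n₀ : ℕ} {ι : Type} (R : Reps A B n₀ ι) (kp : ι → ℂ) (c : ι → ℤ) (s : ℤ)
    (i : ι) : ℂ :=
  kp i * c i / muX R i * (if s = 1 then 1 else (w3 (nI (R.b i)) : ℂ))

/-- the input from block E for one field `D`: `C τ` are the conjugates of `C 1 ∈ D`, and `y^p = ∏ C^g`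
implies the estimate -/
structure EInp (p : ℕ) {A B : ℤ} (P : Ideal (OO A B)) (V : ValuationSubring ℂ) (f : ℕ) {ι : Type}
    (R : Reps A B (p * f) ι) (c : ι → ℤ) (n : ℕ) {D : IntermediateField ℚ ℂ} (h : kk A B ≤ D)
    (C : (letI := algC h; D ≃ₐ[kk A B] D) → ℂ) : Prop where
  ne : C (letI := algC h; 1) ≠ 0
  conj : letI := algC h
    ∀ τ : D ≃ₐ[kk A B] D, ∃ y : D, (y : ℂ) = C 1 ∧ ((τ y : D) : ℂ) = C τ
  ew : letI := algC h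
    ∀ (w : OO A B → ℤ), OddW p P (lvX p f n) w → ∀ g : (D ≃ₐ[kk A B] D) → ℤ,
      (∃ y ∈ D, y ^ p = ∏ᶠ τ : D ≃ₐ[kk A B] D, C τ ^ g τ) → ∀ τ' : D ≃ₐ[kk A B] D,
        HfX p V (1 / 2 * ∑ᶠ τ : D ≃ₐ[kk A B] D, (g τ : ℂ) *
          TTw R (fun i => (c i : ℂ)) w (lvX p f n) (aX p f) h (τ * τ'))

/-! ## Valuations and characters -/

/-- (HFX) the set `v(x)^(p-1) ≤ v(p)`.

PROOF. `HfX p V x` means `x^(p-1)/p ∈ V`, i.e. `v(x)^(p-1) ≤ v(p)` (`v(p) ≠ 0` as `p ≠ 0` in `ℂ`). Sum: `v(x+y) ≤ max` and `t ↦ t^(p-1)` is monotone. For `v ∉ V.nonunits`: `1 ≤ v(v)`, so `v(x)^(p-1) ≤ v(v x)^(p-1)`. `(1/2) * 2 = 1` with `2 ∈ V`; `p = 3`: `1/2 ∈ V`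
(`v(2) = v(3 - 1) = 1` since `v(3) < 1`). -/
def Si_HFX : Prop :=
  ∀ (p : ℕ) (_ : p.Prime) (V : ValuationSubring ℂ), HfX p V 0 ∧
    (∀ x y, HfX p V x → HfX p V y → HfX p V (x + y)) ∧
    (∀ v x, v ∈ V → HfX p V x → HfX p V (v * x)) ∧
    (∀ v x, v ∉ V.nonunits → HfX p V (v * x) → HfX p V x) ∧
    (p = 3 → (p : ℂ) ∈ V.nonunits → (1 / 2 : ℂ) ∈ V ∧ (2 : ℂ) ∈ V)

/-- (CHI) characters with values in the residue field.

PROOF. Model `Pool/Agent/MU3/I_ICHI.lean` (`St_ICHI`, there `p = 3`), with IRES replaced by the first hypothesis (`Sj_RES`, module MUXJ_RES). -/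
def Si_CHI : Prop :=
  ∀ (p : ℕ) [Fact p.Prime] (V : ValuationSubring ℂ) (_ : (p : ℂ) ∈ V.nonunits)
    (_ : CharP (IsLocalRing.ResidueField V) p) (_ : IsAlgClosed (IsLocalRing.ResidueField V))
    (Δ : Type) [Group Δ] [Fintype Δ] (_ : ∀ σ τ : Δ, σ * τ = τ * σ)
    (_ : ¬ p ∣ Fintype.card Δ) (χ : Δ →* (IsLocalRing.ResidueField V)ˣ),
    ∃ (X : Δ →* ℂˣ) (θ : IsLocalRing.ResidueField V →+ ZMod p),
      (∑ δ : Δ, ((θ ((χ δ)⁻¹ : (IsLocalRing.ResidueField V)ˣ)).val : ℂ) * (X δ : ℂ)) ∉ V.nonunits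

/-- (FOU) Fourier transform on `Δ`.

USES HFX. Model `Pool/Agent/MU3/I_IFOU.lean` (`St_IFOU`, there `Hf`), the same proof. -/
def Si_FOU : Prop :=
  ∀ (p : ℕ) (_ : p.Prime) (V : ValuationSubring ℂ) (G : Type) [Group G] [Finite G]
    (_ : ∀ σ τ : G, σ * τ = τ * σ)
    (γ : G) (Δ : Subgroup G) [Fintype Δ] (T : G → ℂ) (b : Δ → ℤ) (N : ℕ) (c : ℕ → ℤ)
    (X : Δ →* ℂˣ) (_ : (∑ δ : Δ, (b δ : ℂ) * (X δ : ℂ)) ∉ V.nonunits)
    (_ : ∀ τ' : G, HfX p V (∑ δ : Δ, ∑ j ∈ Finset.range (N + 1),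
      (b δ : ℂ) * (c j : ℂ) * T ((δ : G) * γ ^ j * τ'))),
    HfX p V (∑ j ∈ Finset.range (N + 1), (c j : ℂ) *
      ∑ δ : Δ, (((X δ)⁻¹ : ℂˣ) : ℂ) * T (γ ^ j * (δ : G)))

/-- (PQF) the ideals `P`, `P̄ = cjI P`, `(f)`.

USES Sx_ALG, Sx_IDL, Sx_NIM. PROOF. `O/P` has `p` elements, `P` is prime, so maximal; the integers `0, .., p-1` represent its classes (`1 ∉ P`, so `c ∈ P` iff `p ∣ c`): (1)-(3). `P * cjI P = sp (nI P) = idl p` (IDL). `P̄ ≠ P`: otherwise `x² ∈ (p)`-type argument: `P² = (p)`, so `x * x ∈ idl p` for `x ∈ P`; take `x = c - w ∈ P` (`c` an integer, `c ≡ w`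
modulo `P`); `x² = c² - 2 c w + A + B w ∈ (p)` gives `p ∣ B - 2 c`, `p ∣ c² + A`, so `B² + 4 A ≡ 0` modulo `p`, against `CaseP.split`. Both are maximal (`cjI` is given by the automorphism `starRingEnd`): coprime. `p ∤ f`: `u p + v f = 1`, so `(f)` is coprime to `P`, `P̄`. (8) `x ∈ P` or `x ∈ P̄`: not prime to `p ∣ lvX p f n`; conversely
`sp x` is coprime to the maximal ideals `P`, `P̄` and to `(f)`, hence to `(f) P^k P̄^k`, `lvX p f n ∈` this, `(lvX p f n) = (f) (P P̄)^(n+1 or n+2)`. (9) CRT for `(f) P̄` and `P` (coprime): `x' ≡ x` modulo `(f) P̄`, `x' ≡ 1` modulo `P`. (10) `p = 2`: `2 ∉ P²` (`(2) = P P̄`, `P̄` not contained in `P`), so `P² ∩ ℤ = 4ℤ`, `nI (P^2) = 4` (NIM), so `0, 1, 2, 3` represent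
the classes modulo `P²`, and `2 ∈ P`. -/
def Si_PQF : Prop :=
  ∀ (p : ℕ) (A B : ℤ) (P : Ideal (OO A B)) (V : ValuationSubring ℂ) (f : ℕ), SetP p A B P V f →
    (∀ x : OO A B, x ∈ P ∨ x - 1 ∈ P ∨ x + 1 ∈ P) ∧ (1 : OO A B) ∉ P ∧
    (∀ c : ℤ, (c : OO A B) ∈ P ↔ (p : ℤ) ∣ c) ∧
    P * cjI P = idl p ∧ IsCoprime P (cjI P) ∧ IsCoprime (idl (A := A) (B := B) f) P ∧
    IsCoprime (idl (A := A) (B := B) f) (cjI P) ∧
    (∀ (n : ℕ) (x : OO A B), IsCoprime x ((lvX p f n : ℕ) : OO A B) ↔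
      x ∉ P ∧ IsCoprime (sp x) (idl f * cjI P)) ∧
    (∀ x : OO A B, IsCoprime (sp x) (idl f * cjI P) → ∃ x' : OO A B, x' - x ∈ idl f * cjI P ∧
      IsCoprime x' ((lvX p f 0 : ℕ) : OO A B)) ∧
    (p = 2 → (∀ x : OO A B, x ∉ P → x - 1 ∈ P ^ 2 ∨ x + 1 ∈ P ^ 2) ∧
      ∀ c : ℤ, (c : OO A B) ∈ P ^ 2 ↔ (4 : ℤ) ∣ c)

/-- (EPS3) the sign function, the odd character and the sign `s` for `p = 3`.

USES PQF, Sx_ALG. Model `Pool/Agent/MU3/I_IEPS.lean` (`St_IEPS`). PROOF. `w = wP P` (`OddW`: `P` is a prime ideal of norm 3, so `O/P` has the classes `0, 1, -1`; `3 ∈ P`, so `lvX 3 f n ∈ P`). `P̄ = cjI P ≠ P` (`3 O = P P̄`, `3 ∉ P²` because `B² + 4A` is prime to 3), `P`, `P̄`, `(f)` are pairwise coprime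
(`3 ∤ f`). `g = (f) P̄`. `y ∈ O` with `y ≡ 1` modulo `g` and `y ≡ -1` modulo `P` (CRT). `y² ≡ 1` modulo `3 f`, so `e0(y) = 1` or `-1`. Let `w' = wP P̄`, `s = -1` in the first case, `w' = wP P`, `s = 1` in the second. `φ(x) = e0(x) w'(x)`: if `x ≡ x'` modulo `g`, both prime to `3 f`, then `φ(x) = φ(x')`:
`x ≡ ± x'` modulo `P`, so `x ≡ x'` or `x ≡ y x'` modulo `3f`, and `φ(y) = 1`. `e(x) = φ(x')` for `x` prime to `g`, `x'` prime to `3f`, `x' ≡ x` modulo `g`; `e(x) = 0` if `x` is not prime to `g`. `e(-1) = -1`. Last formula, `x` prime to `3 f`: `s = 1`: clear. `s = -1`: `wP P x * wP P̄ x = w3(N x)`: `x ≡ a`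
modulo `P`, `x ≡ b` modulo `P̄` with `a, b = ± 1`; `x̄ ≡ b` modulo `P` (`cjI`), `N x = x x̄ ≡ a b` modulo `P`, and `P ∩ ℤ = 3ℤ`. -/
def Si_EPS3 : Prop :=
  ∀ (A B : ℤ) (P : Ideal (OO A B)) (V : ValuationSubring ℂ) (f : ℕ) (_ : SetP 3 A B P V f)
    (e0 : OO A B → ℂ)
    (_ : e0 1 = 1) (_ : e0 (-1) = 1) (_ : ∀ x y, e0 (x * y) = e0 x * e0 y)
    (_ : ∀ x y, x - y ∈ idl (A := A) (B := B) (lvX 3 f 0) → e0 x = e0 y)
    (_ : ∀ x, e0 x ≠ 0 ↔ IsCoprime x ((lvX 3 f 0 : ℕ) : OO A B)),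
    (∀ n, OddW 3 P (lvX 3 f n) (wP P)) ∧
    ∃ (e : OO A B → ℂ) (s : ℤ), IsEI (idl f * cjI P) e ∧ (s = 1 ∨ s = -1) ∧
      ∀ x, IsCoprime x ((lvX 3 f 0 : ℕ) : OO A B) →
        e0 x * (wP P x : ℂ) = e x * (if s = 1 then 1 else (w3 (nm x) : ℂ))

/-- (EPS2) the sign function and the odd character for `p = 2` (`s = 1`); `e0` has odd order `r`.

PROOF. Glue from `Pool/Agent/MUX/Kap2.lean` (helper77): `kap_exists`, `eps_two`. `w = κ`. `OddW`: `per`: `lvX 2 f n ∈ idl |D|` (`|D| ∣ f`, `SetP.fD`); `pm`: `x` prime to `lvX 2 f n` is prime to `|D|` (`unit`); `neg`: `κ (-x) = κ (-1) κ x`; `cong`: `w x` and `wP P x` are odd (`x ∉ P`, as `2 ∈ P` and `2 ∣ lvX 2 f n`; `wP` is `± 1`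
off `P`). The hypotheses of `eps_two`: `lvX 2 f 0 = f * 4`; prime to `2 f` iff prime to `4 f`. -/
def Si_EPS2 : Prop :=
  ∀ (A B : ℤ) (P : Ideal (OO A B)) (V : ValuationSubring ℂ) (f : ℕ) (_ : SetP 2 A B P V f)
    (e0 : OO A B → ℂ) (r : ℕ) (_ : ¬ 2 ∣ r)
    (_ : e0 1 = 1) (_ : e0 (-1) = 1) (_ : ∀ x y, e0 (x * y) = e0 x * e0 y)
    (_ : ∀ x y, x - y ∈ idl (A := A) (B := B) (lvX 2 f 0) → e0 x = e0 y)
    (_ : ∀ x, e0 x ≠ 0 ↔ IsCoprime x ((lvX 2 f 0 : ℕ) : OO A B))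
    (_ : ∀ x, e0 x ≠ 0 → e0 x ^ r = 1),
    ∃ (w : OO A B → ℤ) (e : OO A B → ℂ), (∀ n, OddW 2 P (lvX 2 f n) w) ∧
      IsEI (idl f * cjI P) e ∧
      ∀ x, IsCoprime x ((lvX 2 f 0 : ℕ) : OO A B) → e0 x * (w x : ℂ) = e x

/-! ## The action of automorphisms of `ℂ` through ideals -/

/-- (IAF) facts on `IA`, first part.

USES Su_DET. PROOF. (1), (2): `act`, `surj` of `TorX`. (3) `comp`, `FixK`; the product of two ideals prime to `m` is prime to `m`. (4) For the given normalised lattice `L`: `ActI σ m a L L₁ mu`, `ActI σ m a' L L₂ mu'`; `kap L₁ = σ (kap L) = kap L₂`, so `g₂` is the same (`kap L = (12 g₂ - 1)/1728`) and `g₃ = -g₂/18`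
too: `L₁.lattice = L₂.lattice` (DET), so `℘`, `℘'` are the same functions (`Pool.Agent.MU3A.ta_SCP` with factor 1, or by definition) and `ActI σ m a' L L₁ mu'` (all of `kap`, `IsQ`, `PM` depend only on the lattice). `uniq`. (5) `chg` for every `L`. (6) `triv`. (7) `Tor m' L z` implies `Tor m L z`; `IsCoprime a m'` from `m ≤ m'`.
(8) `zeta`. -/
def Si_IAF : Prop :=
  ∀ (A B : ℤ), CQ A B → TorX A B →
    (∃ (b : Ideal (OO A B)) (L : PeriodPair) (om : ℂ), IsNL b L om) →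
    ∀ m : Ideal (OO A B), m ≠ ⊥ →
    (∀ σ : ℂ ≃+* ℂ, FixK A B σ → ∃ a, IA σ m a) ∧
    (∀ a, a ≠ ⊥ → IsCoprime a m → ∃ σ, IA σ m a) ∧
    (∀ σ τ a b, IA σ m a → IA τ m b → IA (σ.trans τ) m (a * b)) ∧
    (∀ σ a a', IA σ m a → IA σ m a' → RE m a a') ∧
    (∀ σ a a', IA σ m a → IsCoprime a' m → RE m a a' → IA σ m a') ∧
    (∀ σ a, IA σ m a → ((∀ y ∈ RF m, σ y = y) ↔ ∃ c : OO A B, c - 1 ∈ m ∧ a = sp c)) ∧
    (∀ σ a m', m ≤ m' → IA σ m a → IA σ m' a) ∧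
    (∀ (M : ℕ) σ a z, M ≠ 0 → m ≤ idl M → IA σ m a → z ^ M = 1 → z ∈ RF m ∧ σ z = z ^ nI a)

/-- (IAG) facts on `IA`, second part.

USES IAF, Sx_ALG. PROOF. (1) `RingEquiv.refl`: it has some ideal `a` (IAF 1), is trivial on `RF m`, so `a = sp c`, `c - 1 ∈ m` (IAF 6); `RE m (sp c) ⊤` with `x = 1`, `y = c` if `c ≠ 0`.. (`sp 1 * sp c = sp c * ⊤`); `c = 0` only if `1 ∈ m`: then take `x = y = 1` and note that `a = ⊥`; to avoid this case use that `IsQ a L L' mu` is impossible for `a = ⊥`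
(`mu z ∈ L'` for all `z`; a lattice is not `ℂ`). So `a ≠ ⊥` always. (IAF 5). (2) `σ.symm` has some ideal `b` (IAF 1), `σ.trans σ.symm = refl` has the ideal `a b` (IAF 3), so `a b = sp c` (IAF 6). (3) `→`: `b` for `σ'` as in (2): `a' b = sp c'`, `σ.trans σ'.symm` has the ideal `a b` (IAF 3), `RE m (a b) (a' b)` (multiply), so by (IAF 5) it has
the ideal `sp c'` (prime to `m` as `c' - 1 ∈ m`), so it is trivial on `RF m` (IAF 6): `σ'.symm (σ y) = y`. `←`: `σ.trans σ'.symm` is trivial on `RF m`: `a b = sp c`, `a' b = sp c'`: `sp c' * a = a a' b = sp c * a'`, `c' - c ∈ m`, `c, c' ≠ 0` (as in (1); `a b ≠ ⊥`). -/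
def Si_IAG : Prop :=
  ∀ (A B : ℤ), CQ A B → TorX A B →
    (∃ (b : Ideal (OO A B)) (L : PeriodPair) (om : ℂ), IsNL b L om) →
    ∀ m : Ideal (OO A B), m ≠ ⊥ →
    IA (RingEquiv.refl ℂ) m ⊤ ∧
    (∀ σ a, IA σ m a → a ≠ ⊥ ∧ ∃ b c, IA σ.symm m b ∧ c - 1 ∈ m ∧ a * b = sp c) ∧
    (∀ σ σ' a a', IA σ m a → IA σ' m a' → (RE m a a' ↔ ∀ y ∈ RF m, σ y = σ' y))

/-- (RPR) every ray class contains an ideal `x cjI (b i)`.

USES Sx_ALG, Sx_IDL, Sx_NIM. PROOF. (1) `sp x` is prime to `idl m`, and `cjI (b i)` contains `nI (b i)` (NIM), which is prime to `m`. (2) `R.surj (cjI a)`: `sp u * cjI a = sp v * b i`, conjugate: `sp ū * a = sp v̄ * cjI (b i)`. Multiply by `b i`: `sp ū * (a b_i) = sp (v̄ N)`, `N = nI (b i)` (IDL), so `v̄ N ∈ sp ū`, `v̄ N = ū y`, `a b_i = sp y`, and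
`sp N * a = a b_i cjI b_i = sp y * cjI (b i)`. `y` is prime to `m`: `a` and `b_i` are (ideals prime to `idl m`; `nI (b i) ∈ b i`). Let `N' N ≡ 1` modulo `m` (integers, `N' > 0`), `x = N' y`: `sp (N' N) * a = sp x * cjI (b i)`, so `RE (idl m) a (sp x * cjI (b i))` with the elements `N' N` and `1`. -/
def Si_RPR : Prop :=
  ∀ (A B : ℤ), CQ A B → ∀ (n₀ : ℕ) (ι : Type) (R : Reps A B n₀ ι) (m : ℕ), m ≠ 0 →
    (∀ i, (nI (R.b i)).Coprime m) →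
    (∀ i, ∀ x : OO A B, IsCoprime x (m : OO A B) →
      IsCoprime (sp x * cjI (R.b i)) (idl (A := A) (B := B) m)) ∧
    ∀ a : Ideal (OO A B), a ≠ ⊥ → IsCoprime a (idl (A := A) (B := B) m) →
      ∃ (i : ι) (x : OO A B), IsCoprime x (m : OO A B) ∧ RE (idl m) a (sp x * cjI (R.b i))

/-- (HIT) `σ` hits the pair `(i, x)` iff it acts as the ideal `x cjI (b i)`.

USES IAF, IAG, RPR, Sy_MUU, Sy_MUI, Sy_UNJ, Sx_ALG, Sx_IDL, Sx_NIM, Su_DET. PROOF. `L₀ = R.L R.i0` (lattice `om_0 emb O`, `R.b0`), `z₀ = pt R m R.i0 1 = om_0/m ∉ L₀` (`m ≥ 2`; `nI ⊤ = 1`), `Tor (idl m) L₀ z₀`. (`←`) `ActI σ (idl m) a L₀ L' mu`, `a = sp x * cjI (b i)`, `L'` normalised. MUI: `IsQ (cjI b_i) L₀ L_i mu_i`, so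
`IsQ a L₀ L_i (emb x mu_i)` (`emb x mu_i z ∈ L_i` iff `emb y (emb x z) ∈ L₀` for `y ∈ cjI b_i`; the elements of `sp x * cjI b_i` are the `x y`). So `s L' = L_i`, `s = emb x mu_i/mu`; both normalised, so `s² = 1` as in `Sy_MUU` (`Pool.Agent.MU3A.ta_SCP`), `L'.lattice = L_i.lattice` and `emb x mu_i = ± mu`. `kap L_i = kap L' = σ(kap L₀)`. `act` at `z₀`: `z₀ ∉ L₀`, so
`mu z₀ ∉ L'`, `σ (xn L₀ z₀) = xn L' (mu z₀) = xn L_i (emb x mu_i z₀)` (`xn` is even), and `emb x mu_i z₀ = om_i N(b_i) emb x/m = pt R m i x`. (`→`) `σ` has an ideal `a` (IAF 1), so by RPR, IAF 5 the ideal `sp x' * cjI (b j)`, `x'` prime to `m`. By (`←`) `σ` hits `(j, x')`. `kap L_i = kap L_j`: `i = j` (UNJ). `xn L_i (pt i x) = xn L_i (pt i x')`, so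
`pt i x ∓ pt i x' ∈ L_i` (`b_NEQ` of MU3), `N(b_i) (x ∓ x')/m ∈ b_i`, so `m ∣ N(b_i) (x ∓ x')`, `m ∣ x ∓ x'` (`N(b_i)` prime to `m`). `RE (idl m) (sp x' * c) (sp x * c)`, `c = cjI (b i)`, with the elements `x` and `± x'` (congruent modulo `m`, prime to `m`, not `0` as `m ≥ 2`; `sp (-x') = sp x'`). IAF 5. -/
def Si_HIT : Prop :=
  ∀ (A B : ℤ), CQ A B → TorX A B → ∀ (n₀ : ℕ) (ι : Type) (R : Reps A B n₀ ι) (m : ℕ), 2 ≤ m →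
    (∀ i, (nI (R.b i)).Coprime m) → ∀ (σ : ℂ ≃+* ℂ), FixK A B σ → ∀ (i : ι) (x : OO A B),
    IsCoprime x (m : OO A B) → (Hits R m σ i x ↔ IA σ (idl m) (sp x * cjI (R.b i)))

/-- (ARF) the Artin symbol for a field `D`, `k ≤ D ≤ RF m`.

USES IAF, IAG. PROOF. `D / k` is normal, so every `σ` with `FixK` maps `D` to itself and has a restriction `τ ∈ Gal(D/k)`, `ExtC h τ σ` (`kk A B` is generated by `wC A B`, so `σ` is trivial on `kk A B`; Mathlib: `AlgEquiv.restrictNormal`, or `AlgHom.restrictNormal` of the embedding `D → ℂ`, its values are in `D`). (1) `refl`. (2) IAF 2. (3) `ext` of `TorX` and IAF 1.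
(4) IAG 3: `σ`, `σ'` agree on `RF m ⊇ D`. (5) IAF 3: `σ.trans σ'` extends `τ' * τ`; `Gal(D/k)` is commutative: it is a quotient of `Gal(RF m/k)`; or directly: both `σ.trans σ'` and `σ'.trans σ` have the ideal `a a' = a' a`, so they agree on `D` by (4). (6) IAF 7: the same `σ`. (7) IAF 8: `z ≠ 0`, `σ (z + z⁻¹) = z^N + (z^N)⁻¹`. -/
def Si_ARF : Prop :=
  ∀ (A B : ℤ), CQ A B → TorX A B →
    (∃ (b : Ideal (OO A B)) (L : PeriodPair) (om : ℂ), IsNL b L om) →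
    ∀ m : Ideal (OO A B), m ≠ ⊥ → ∀ (D : IntermediateField ℚ ℂ) (h : kk A B ≤ D),
    (∀ y ∈ D, y ∈ RF m) → letI := algC h
    ∀ _ : IsGalois (kk A B) D,
    AR h m 1 ⊤ ∧
    (∀ a, a ≠ ⊥ → IsCoprime a m → ∃ τ, AR h m τ a) ∧
    (∀ τ : D ≃ₐ[kk A B] D, ∃ a, IsCoprime a m ∧ AR h m τ a) ∧
    (∀ (τ τ' : D ≃ₐ[kk A B] D) a a', AR h m τ a → AR h m τ' a' → RE m a a' → τ = τ') ∧
    (∀ (τ τ' : D ≃ₐ[kk A B] D) a a', AR h m τ a → AR h m τ' a' → AR h m (τ * τ') (a * a')) ∧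
    (∀ (K : IntermediateField ℚ ℂ) (hK : kk A B ≤ K) (m' : Ideal (OO A B)), m ≤ m' → K ≤ D →
      letI := algC hK
      ∀ (τ : D ≃ₐ[kk A B] D) (τK : K ≃ₐ[kk A B] K) a,
      (∀ (x : K) (x' : D), (x' : ℂ) = x → ((τ x' : D) : ℂ) = (τK x : K)) →
      AR h m τ a → AR hK m' τK a) ∧
    ∀ (M : ℕ) (τ : D ≃ₐ[kk A B] D) a (z : ℂ) (y : D), M ≠ 0 → m ≤ idl M → AR h m τ a →
      z ^ M = 1 → (y : ℂ) = z + z⁻¹ → ((τ y : D) : ℂ) = z ^ nI a + (z ^ nI a)⁻¹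

/-- (XXF) the sets `XX R m h τ` and the Artin symbol.

USES HIT, ARF, RPR, Sx_ALG. PROOF. Let `x' = Quotient.out (mk x)`: `x' - x ∈ idl m`, `x'` is prime to `m`. `AR h (idl m) τ (sp x * c) ↔ AR h (idl m) τ (sp x' * c)`, `c = cjI (b i)`: `RE (idl m) (sp x * c) (sp x' * c)` (elements `x'`, `x`, not `0`) and IAF 5 for the same `σ`. (1) then is HIT for `x'`. (2) `ex`: RPR (1), ARF 2; `uniq`: ARF 4
(`RE m a a` with `x = y = 1`). -/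
def Si_XXF : Prop :=
  ∀ (A B : ℤ), CQ A B → TorX A B → ∀ (n₀ : ℕ) (ι : Type) (R : Reps A B n₀ ι) (m : ℕ), 2 ≤ m →
    (∀ i, (nI (R.b i)).Coprime m) → ∀ (D : IntermediateField ℚ ℂ) (h : kk A B ≤ D),
    (∀ y ∈ D, y ∈ RF (idl (A := A) (B := B) m)) → letI := algC h
    ∀ _ : IsGalois (kk A B) D,
    (∀ (τ : D ≃ₐ[kk A B] D) (i : ι) (x : OO A B), IsCoprime x (m : OO A B) →
      ((i, Ideal.Quotient.mk (idl (A := A) (B := B) m) x) ∈ XX R m h τ ↔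
        AR h (idl m) τ (sp x * cjI (R.b i)))) ∧
    ∀ q : ι × (OO A B ⧸ idl (A := A) (B := B) m),
      IsCoprime (Quotient.out q.2 : OO A B) (m : OO A B) →
      (∃ τ, q ∈ XX R m h τ) ∧ ∀ τ τ', q ∈ XX R m h τ → q ∈ XX R m h τ' → τ = τ'

/-- (E0) the characters `e0` and `kp` attached to a character of `Gal(K/k)`, `K ≤ RF (f q0)`.

USES ARF, Sx_ALG, Sx_NIM. PROOF. `m₀ = idl (lvX p f 0)`, `lvX p f 0 = f q0 ≥ 3`. For `a` prime to `m₀` let `τ(a) ∈ Gal(K/k)` be the automorphism with `AR hK m₀ τ(a) a` (ARF 2, 4), `ψ(a) = (X τ(a))⁻¹`, and `ψ(a) = 0` if `a` is not prime to `m₀`. `ψ(a a') = ψ(a) ψ(a')` (ARF 5; if `a a'` is prime to `m₀` then so are `a`, `a'`). `ψ(⊤) = 1` (ARF 1). `e0 x = ψ(sp x)`, `kp i = ψ(cjI (b i))`: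
`cjI (b i) ∋ nI (b i)`, prime to `p f`, hence to `f q0` (same prime divisors). `e0(-1)`: `sp (-1) = ⊤`. Periodic: `x - y ∈ m₀`, both prime to `m₀` (otherwise both values are `0`): `RE m₀ (sp x) (sp y)` with the elements `y`, `x` (not `0` because `m₀ ≠ ⊤`), ARF 4. -/
def Si_E0 : Prop :=
  ∀ (p : ℕ) (A B : ℤ) (P : Ideal (OO A B)) (V : ValuationSubring ℂ) (f : ℕ),
    SetP p A B P V f → TorX A B → ∀ (ι : Type) (R : Reps A B (p * f) ι)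
    (K : IntermediateField ℚ ℂ) (hK : kk A B ≤ K),
    (∀ y ∈ K, y ∈ RF (idl (A := A) (B := B) (lvX p f 0))) → letI := algC hK
    ∀ (_ : IsGalois (kk A B) K) (X : (K ≃ₐ[kk A B] K) →* ℂˣ) (r : ℕ) (_ : ∀ τ, X τ ^ r = 1),
    ∃ (e0 : OO A B → ℂ) (kp : ι → ℂ), e0 1 = 1 ∧ e0 (-1) = 1 ∧ (∀ x y, e0 (x * y) = e0 x * e0 y) ∧
      (∀ x y, x - y ∈ idl (A := A) (B := B) (lvX p f 0) → e0 x = e0 y) ∧
      (∀ x, e0 x ≠ 0 ↔ IsCoprime x ((lvX p f 0 : ℕ) : OO A B)) ∧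
      (∀ x, e0 x ≠ 0 → e0 x ^ r = 1) ∧ (∀ i, kp i ^ r = 1) ∧
      ∀ (τ : K ≃ₐ[kk A B] K) (i : ι) (x : OO A B), IsCoprime x ((lvX p f 0 : ℕ) : OO A B) →
        AR hK (idl (lvX p f 0)) τ (sp x * cjI (R.b i)) → (((X τ)⁻¹ : ℂˣ) : ℂ) = kp i * e0 x

/-! ## The fields -/

/-- (LAY) the layer is the real subfield of `ℚ(ζ)`, `ζ` of order `q0 p^n`.

PROOF. `p = 3`: `Pool.Agent.MU3I.t_ILAY` (`I_ILAY.lean`). `p = 2`: `q0 p^n = 2^(n+2)`; as there: `B ≤ ℚ(μ_(2^j))`, `j ≥ n + 2`; `B` is real, so it is contained in the real subfield `R = ℚ(ζ' + ζ'⁻¹)`, `ζ' = zt (2^j)`, which is cyclic over `ℚ` (`Pool/Agent/RID/P_LAYC.lean`: `R` is a layer: degree `2^(j-2)` (`Ilay.deg`), real, contained in `ℚ(μ_(2^j))`). `ℚ(ζ + ζ⁻¹) ≤ R` has degree `2^n` too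
(`Ilay.deg`): equal by `Ilay.uniq`. (The module MUXJ_LAY of block J needs the same facts.) -/
def Si_LAY : Prop :=
  ∀ (p n : ℕ) (_ : p = 2 ∨ p = 3) (B : IntermediateField ℚ ℂ) (_ : IsLayer p n B),
    B = IntermediateField.adjoin ℚ {zt (q0 p * p ^ n) + (zt (q0 p * p ^ n))⁻¹}

/-- (SUB) `K B_n ≤ RF (lvX p f n)`.

USES LAY, IAF. PROOF. `ζ = zt (q0 p^n)`, `ζ^M = 1`, `M = q0 p^n`, `idl (lvX p f n) ≤ idl M`: `ζ ∈ RF (idl (lvX p f n))` (IAF 8 for `σ = refl` and its ideal, IAF 1). So `B_n ≤` it (LAY; as fields over `ℚ`: the elements of `RF m` form a subfield which contains `ℚ`), `K ≤` it by `mono`, and `K ⊔ B_n ≤` it (`IntermediateField.restrictScalars ℚ (RF m)`). -/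
def Si_SUB : Prop :=
  ∀ (p : ℕ) (A B : ℤ) (P : Ideal (OO A B)) (V : ValuationSubring ℂ) (f : ℕ),
    SetP p A B P V f → TorX A B →
    (∃ (b : Ideal (OO A B)) (L : PeriodPair) (om : ℂ), IsNL b L om) →
    ∀ (K : IntermediateField ℚ ℂ), (∀ y ∈ K, y ∈ RF (idl (A := A) (B := B) (lvX p f 0))) →
    ∀ (n : ℕ) (Bn : IntermediateField ℚ ℂ), IsLayer p n Bn →
    ∀ y ∈ K ⊔ Bn, y ∈ RF (idl (A := A) (B := B) (lvX p f n))

/-- (GAM) an automorphism `γ` of `K_n / k` with fixed field `K`, acting on the layer as `1 + q0`.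

USES LAY, S_GENX. PROOF. `ζ = zt M`, `M = q0 p^n`, `t = ζ + ζ⁻¹ ∈ B_n` (LAY). `g` from GENX, of order `p^n` with fixed field `K`. The restriction of `g` to `B_n = ℚ(t)` maps `t` to `ζ^c + ζ^(-c)`, `c` prime to `p` (`B_n / ℚ` is normal, the conjugates of `t`: `g` extends to an embedding of `K_n(ζ)`, which maps `ζ` to `ζ^c`; or: `g(t)` is a root of the minimal polynomial of `t`). The powers `g^i`, `i < p^n`,
have different values at `t` (an element trivial on `K` and at `t` is trivial on `K ⊔ B_n`), all of the form `ζ^c + ζ^(-c)` with `c` prime to `p`, and there are `φ(M)/2 = p^n` such numbers (`c` and `-c` modulo `M` give the same). So one of the `g^i =: γ` has `γ t = ζ^(g0) + ζ^(-g0)`, `g0 = 1 + q0`. `γ` has order `p^n`: the powers `γ^j`, `γ^j t = ζ^(g0^j) + ζ^(-g0^j)` (`t ↦ ζ^j + ζ^(-j)` is an integral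
polynomial in `t`), and `g0^j ≡ ± 1` modulo `M` only if `p^n ∣ j` (`v_p(g0^j - 1) = v_p(q0) + v_p(j)`: LTE, `g0 ≡ 1` modulo `q0`; `g0^j ≡ -1` is impossible modulo `q0`). So `⟨γ⟩ = ⟨g⟩` and the fixed field of `γ` is `K`. Model: `Pool/Agent/MU3/I_IGAM.lean` (part with the fixed field). -/
def Si_GAM : Prop :=
  ∀ (p : ℕ) [Fact p.Prime] (_ : p = 2 ∨ p = 3) (k K : IntermediateField ℚ ℂ)
    (Bn : ℕ → IntermediateField ℚ ℂ)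
    [FiniteDimensional ℚ K] [∀ n, FiniteDimensional ℚ ↥(K ⊔ Bn n)] (_ : BasX p k K Bn) (n : ℕ)
    (h : k ≤ K ⊔ Bn n),
    letI := algC h
    ∃ γ : ↥(K ⊔ Bn n) ≃ₐ[k] ↥(K ⊔ Bn n),
      (∀ x : ↥(K ⊔ Bn n), γ x = x ↔ (x : ℂ) ∈ K) ∧
      ∀ x : ↥(K ⊔ Bn n), (x : ℂ) = zt (q0 p * p ^ n) + (zt (q0 p * p ^ n))⁻¹ →
        ((γ x : ↥(K ⊔ Bn n)) : ℂ) =
          zt (q0 p * p ^ n) ^ (1 + q0 p) + (zt (q0 p * p ^ n) ^ (1 + q0 p))⁻¹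

/-- (XMX) the sets `XX` satisfy `XM`.

USES XXF, ARF, LAY, Sx_ALG, Sx_NIM. PROOF. `D = K ⊔ Bn`, `m = lvX p f n`, `M = q0 p^n`, `Δ = NC h Bn`. `comm`: ARF 3, 5, 4 (`a a' = a' a`). `cop`: definition of `XX`. `ex`, `uniq`: XXF. `nrm`: `ζ = zt M`, `t = ζ + ζ⁻¹ ∈ Bn = ℚ(t)` (LAY). `τ * (γ^j)⁻¹ ∈ NC h Bn` iff `τ` and `γ^j` agree on `Bn` iff `τ t = γ^j t`. `q = (i, x)`, `x = out`:
`AR h (idl m) τ (sp x * cjI (b i))` (XXF 1), so `τ t = ζ^N + ζ^(-N)`, `N = nI (sp x * cjI (b i)) = (nm x) (nI (b i))` (ARF 7, NIM; `nm x ≥ 0`). `γ^j t = ζ^(g0^j) + ζ^(-g0^j)` by induction (`γ t` given; `ζ^i + ζ^(-i)` is an integral polynomial in `t`; or use that `γ` extends to an automorphism of `ℂ`). `u + u⁻¹ = v + v⁻¹` iff `u = v` or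
`u v = 1`; `ζ` is a primitive `M`-th root of unity: `ζ^N = ζ^(g0^j)` iff `M ∣ N - g0^j`. (`nI (b i)` is prime to `p f`, so to `m`.) -/
def Si_XMX : Prop :=
  ∀ (p : ℕ) (A B : ℤ) (P : Ideal (OO A B)) (V : ValuationSubring ℂ) (f : ℕ),
    SetP p A B P V f → TorX A B → ∀ (ι : Type) (R : Reps A B (p * f) ι)
    (K Bn : IntermediateField ℚ ℂ) (n : ℕ) (h : kk A B ≤ K ⊔ Bn), IsLayer p n Bn →
    (∀ y ∈ K ⊔ Bn, y ∈ RF (idl (A := A) (B := B) (lvX p f n))) → letI := algC h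
    ∀ (_ : IsGalois (kk A B) ↥(K ⊔ Bn)) (γ : ↥(K ⊔ Bn) ≃ₐ[kk A B] ↥(K ⊔ Bn)),
    (∀ x : ↥(K ⊔ Bn), (x : ℂ) = zt (q0 p * p ^ n) + (zt (q0 p * p ^ n))⁻¹ →
        ((γ x : ↥(K ⊔ Bn)) : ℂ) =
          zt (q0 p * p ^ n) ^ (1 + q0 p) + (zt (q0 p * p ^ n) ^ (1 + q0 p))⁻¹) →
    XM R p f n γ (NC h Bn) (fun τ => XX R (lvX p f n) h τ)

/-- (BIJ) restriction from `NC (B n)` to `Gal(K/k)` is a bijective homomorphism.

USES S_GALX, S_GENX. PROOF. `r` is a homomorphism: `(r (δ δ') x : ℂ) = δ (δ' x)`. Injective: `δ` trivial on `B n` (`NC`) and on `K` is trivial on `K ⊔ B n`. Orders: `|Gal(K/k)| = [K : k]` (Galois) and `|Gal(K_n/k)| = [K_n : k] = [K : k] p^n` (`deg`). The quotient `Gal(K_n/k) / NC (B n)` embeds into `Gal(B n/ℚ)` (restriction), so its order is at most `p^n` and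
`|NC (B n)| ≥ [K : k]`. -/
def Si_BIJ : Prop :=
  ∀ (p : ℕ) [Fact p.Prime] (k K : IntermediateField ℚ ℂ) (Bn : ℕ → IntermediateField ℚ ℂ)
    [FiniteDimensional ℚ K] [∀ n, FiniteDimensional ℚ ↥(K ⊔ Bn n)] (_ : BasX p k K Bn) (n : ℕ)
    (h : k ≤ K ⊔ Bn n) (hK : k ≤ K),
    letI := algC h
    letI := algC hK
    ∀ r : NC h (Bn n) → (↥K ≃ₐ[k] ↥K),
      (∀ (δ : NC h (Bn n)) (x : ↥K) (x' : ↥(K ⊔ Bn n)), (x' : ℂ) = x →
      (((δ : ↥(K ⊔ Bn n) ≃ₐ[k] ↥(K ⊔ Bn n)) x' : ↥(K ⊔ Bn n)) : ℂ) = (r δ x : ↥K)) →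
      Function.Bijective r ∧ ∀ δ δ' : NC h (Bn n), r (δ * δ') = r δ * r δ'

/-! ## The sums -/

/-- (PTP) periodicity of the points `pt R m i x`.

USES Sx_ALG, `b_PER` (block B of MU3: `ee` is odd and periodic). PROOF. `x - y = m z`: `pt R m i x - pt R m i y = om_i nI(b_i) emb z`, and `nI (b i) ∈ b i` (`Nat.card (O/b) • 1 = 0`, or Sx_NIM), so it is in `R.L i` (`R.nl i`, `IsLI.mem`). -/
def Si_PTP : Prop :=
  ∀ (A B : ℤ), CQ A B → ∀ (n₀ : ℕ) (ι : Type) (R : Reps A B n₀ ι) (m : ℕ), m ≠ 0 → ∀ i : ι,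
    (∀ x y : OO A B, x - y ∈ idl (A := A) (B := B) m →
      pt R m i x - pt R m i y ∈ (R.L i).lattice ∧
      ee (R.L i) (pt R m i x) = ee (R.L i) (pt R m i y) ∧
      ∀ a : ℕ, dlX (R.L i) a (pt R m i x) = dlX (R.L i) a (pt R m i y)) ∧
    ∀ (a : ℕ) (x : OO A B), (a : ℂ) * pt R m i x = pt R m i (a * x)

/-- (TSH) the sums of the logarithmic derivatives.

USES PTP, PQF, Sx_ALG. PROOF. `a = aX p f`, `m = lvX p f n`, `M = q0 p^n`. `dlX (R.L i) a z = a ee(a z) - a² ee(z)`, `a pt(x) = pt(a x)`. `a - 1 = 2 q0 f`, so `a` is prime to `m` (`m = f q0 p^n`, `a ≡ 1` modulo `p` and modulo `f`), `e(a x) = e(x)` (`a - 1 ∈ idl f * cjI P`: `q0 ∈ P̄`; `e(a) = e(1) = 1`), and `x ↦ a x` is a bijection of `O/m`; `M ∣ N(a x) N b_i - a² t`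
iff `M ∣ N x N b_i - t` (`N(a x) = a² N x`, `a` prime to `M`). So `Σ_(M ∣ N x N b_i - t) e(x) ee(pt(a x)) = Σ_(M ∣ N x N b_i - a² t) e(x) ee(pt x)` (all terms are periodic modulo `m`: `N(x + m z) ≡ N x` modulo `m`, `M ∣ m`; `Quotient.out`). Model: the last part of `Pool/Agent/MU3/I_ITH.lean`. -/
def Si_TSH : Prop :=
  ∀ (p : ℕ) (A B : ℤ) (P : Ideal (OO A B)) (V : ValuationSubring ℂ) (f : ℕ),
    SetP p A B P V f → ∀ (ι : Type) (R : Reps A B (p * f) ι) (n : ℕ) (e : OO A B → ℂ),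
    IsEI (idl f * cjI P) e → ∀ (i : ι) (t : ℤ),
    muX R i * sumMod ((lvX p f n : ℕ) : OO A B) (fun x =>
      if ((q0 p * p ^ n : ℕ) : ℤ) ∣ nm x * nI (R.b i) - t then
        e x * dlX (R.L i) (aX p f) (pt R (lvX p f n) i x) else 0) =
      (aX p f : ℂ) * SnX R (lvX p f n) (q0 p * p ^ n) e i ((aX p f : ℤ) ^ 2 * t) -
        (aX p f : ℂ) ^ 2 * SnX R (lvX p f n) (q0 p * p ^ n) e i t

/-- (TH) the sums `That_j`.

USES TSH, PTP, PQF, Sx_ALG, Sx_NIM. Model: `Pool/Agent/MU3/I_ITH.lean` (there with a factor 2; here none, because `X τ` contains `(i, x)` and `(i, -x)`). PROOF. `m = lvX p f n`, `M = q0 p^n`, `a = aX p f = 1 + 2 q0 f`. `F(i, x) = kp_i e0(x) w(x) c_i dlX (R.L i) a (pt R m i x)` depends only on `x` modulo `m`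
(`pt R m i (m y) = om_i N(b_i) y ∈ R.L i`; `dlX` periodic: `a` is an integer; `e0` periodic modulo `lvX p f 0 ∣ m`; `w`: OddW). The left side is `Σ F(q)` over the `q = (i, x)` in `⋃_(δ ∈ Δ) X(γ^j δ)` (disjoint by `uniq`; `hχ`: `(χ δ)⁻¹ = kp_i e0(x)`, `γ^j δ = δ γ^j`), these are by `nrm`, `ex`, `cop` the `q` with `x` prime to `m` and
`M ∣ N x N b_i - g0^j` or `M ∣ N x N b_i + g0^j` (not both: `2 g0^j` is not divisible by `q0`). For `x` prime to `m`: `e0(x) w(x) = e(x)` (`s = 1`) or `e(x) w3(N x)` (`s = -1`, only `p = 3`), and in the second case `w3(N x) = w3(N b_i) w3(N x N b_i) = ± w3(N b_i)`. So the left side is `Σ_i kp_i c_i [w3(N b_i)] (D_i(g0^j) + s D_i(-g0^j))`,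
`D_i(t) = Σ_(x mod m, M ∣ N x N b_i - t) e(x) dlX (R.L i) a (pt R m i x)` (a class with `e(x) ≠ 0` and `M ∣ N x N b_i - t`, `t` prime to `p`, is prime to `f`, and `N x` is prime to `p`, so it is prime to `m`). TSH: `mu_i D_i(t) = a SnX i (a² t) - a² SnX i t`. Divide by `mu_i = muX R i ≠ 0` (`om_i, om_(i0) ≠ 0`, `nI (b i) ≠ 0`). -/
def Si_TH : Prop :=
  ∀ (p : ℕ) (A B : ℤ) (P : Ideal (OO A B)) (V : ValuationSubring ℂ) (f : ℕ),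
    SetP p A B P V f → ∀ (ι : Type) [Fintype ι] (R : Reps A B (p * f) ι) (n : ℕ) (G : Type)
    [Group G] [Finite G] (γ : G) (Δ : Subgroup G) [Fintype Δ]
    (X : G → Set (ι × (OO A B ⧸ idl (A := A) (B := B) (lvX p f n)))), XM R p f n γ Δ X →
    ∀ (χ : Δ →* ℂˣ) (e0 : OO A B → ℂ) (kp : ι → ℂ) (c : ι → ℤ) (w : OO A B → ℤ) (e : OO A B → ℂ)
    (s : ℤ),
    (∀ x y, x - y ∈ idl (A := A) (B := B) (lvX p f 0) → e0 x = e0 y) →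
    OddW p P (lvX p f n) w → IsEI (idl f * cjI P) e → s = 1 ∨ s = -1 → (p = 2 → s = 1) →
    (∀ x, IsCoprime x ((lvX p f 0 : ℕ) : OO A B) →
        e0 x * (w x : ℂ) = e x * (if s = 1 then 1 else (w3 (nm x) : ℂ))) →
    (∀ (δ : Δ) (j : ℕ), ∀ q ∈ X (γ ^ j * (δ : G)),
      (((χ δ)⁻¹ : ℂˣ) : ℂ) = kp q.1 * e0 (Quotient.out q.2)) →
    ∀ j : ℕ,
    ∑ δ : Δ, (((χ δ)⁻¹ : ℂˣ) : ℂ) * ∑ᶠ q ∈ X (γ ^ j * (δ : G)), (w (Quotient.out q.2) : ℂ) *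
        (c q.1 : ℂ) * dlX (R.L q.1) (aX p f) (pt R (lvX p f n) q.1 (Quotient.out q.2)) =
      STX R (lvX p f n) (q0 p * p ^ n) (aX p f) e (kkX R kp c s) ((1 + (q0 p : ℤ)) ^ j) +
        s * STX R (lvX p f n) (q0 p * p ^ n) (aX p f) e (kkX R kp c s) (-(1 + (q0 p : ℤ)) ^ j)

/-! ## The result -/

/-- (GEN) the statement for one generator gives it for all generators.

PROOF. `Pool/Agent/MU3/I3G.lean` (`I3G.rel`, `i3_all`) with `3` replaced by `p` and with one `θ` given in advance. Uses S_GALX. -/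
def Si_GEN : Prop :=
  ∀ (p : ℕ) [Fact p.Prime] (k K : IntermediateField ℚ ℂ) (Bn : ℕ → IntermediateField ℚ ℂ)
    [FiniteDimensional ℚ K] [∀ n, FiniteDimensional ℚ ↥(K ⊔ Bn n)] (_ : BasX p k K Bn) (n : ℕ)
    (h : k ≤ K ⊔ Bn n) (c : ℂ) (hc : c ∈ K ⊔ Bn n) (_ : c ≠ 0) (N : ℕ),
    letI := algC h
    ∀ γ₀ : ↥(K ⊔ Bn n) ≃ₐ[k] ↥(K ⊔ Bn n), (∀ x : ↥(K ⊔ Bn n), γ₀ x = x ↔ (x : ℂ) ∈ K) →
    ∀ [Fintype (NC h (Bn n))] (b : NC h (Bn n) → ℕ),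
    (∀ y : ↥(K ⊔ Bn n), y ^ p ≠ ∏ δ : NC h (Bn n),
        ((δ : ↥(K ⊔ Bn n) ≃ₐ[k] ↥(K ⊔ Bn n)) ((Tg γ₀)^[N] ⟨c, hc⟩)) ^ b δ) →
    ∀ γ : ↥(K ⊔ Bn n) ≃ₐ[k] ↥(K ⊔ Bn n), (∀ x : ↥(K ⊔ Bn n), γ x = x ↔ (x : ℂ) ∈ K) →
    ∀ y : ↥(K ⊔ Bn n), y ^ p ≠ ∏ δ : NC h (Bn n),
        ((δ : ↥(K ⊔ Bn n) ≃ₐ[k] ↥(K ⊔ Bn n)) ((Tg γ)^[N] ⟨c, hc⟩)) ^ b δ

/-- (I3) THE RESULT of block IX: the field `i3` of `InpX` (`StKX.lean`), `F` = the residue field of `V`.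

USES HFX, CHI, FOU, EPS3, EPS2, E0, ARF, SUB, GAM, XMX, BIJ, TH, GEN, XXF, Sy_ALM, `Pool.Agent.MUXHY.Sy_HFX`, `St_ITG` (MU3), S_GALX, `Sj_RES`. Module of helper36 (model `I_I3F.lean` of MU3). PROOF. `N ≥ 1` first. CHI for `Gal(K/k)`: `X`, `θ`; E0, EPS: `e0`, `kp`, `w`, `e`, `s`; `kk = kkX R kp c s`: algebraic (ALM), valuation 1. `Sy_HFX`: `h`, `r`, `n₀'`; choose `n ≥ n₀, n₀', 1`
in the class. GAM: `γ`. If `y^p = ∏_δ (δ T^N c)^(b_δ)`, `b_δ = θ(χ(r δ)⁻¹).val`, then by `EInp`, FOU, TH the quantity of HFX is small: contradiction. GEN. `N = 0` follows from `N = 1`. -/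
def Si_I3 : Prop :=
  ∀ (p : ℕ) [Fact p.Prime] (A B : ℤ) (P : Ideal (OO A B)) (V : ValuationSubring ℂ) (f : ℕ),
    SetP p A B P V f → TorX A B → ∀ (ι : Type) [Fintype ι] (R : Reps A B (p * f) ι)
    (_ : ∀ i, V.valuation (muX R i) = 1) (c : ι → ℤ) (_ : ∀ i, c i = 1 ∨ c i = -1)
    (K : IntermediateField ℚ ℂ) (Bn : ℕ → IntermediateField ℚ ℂ)
    [FiniteDimensional ℚ K] [∀ n, FiniteDimensional ℚ ↥(K ⊔ Bn n)]
    (hB : BasX p (kk A B) K Bn)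
    (_ : ¬ p ∣ Module.finrank (kk A B) (IntermediateField.extendScalars hB.hk))
    (_ : ∀ y ∈ K, y ∈ RF (idl (A := A) (B := B) (lvX p f 0)))
    (hk : ∀ n, kk A B ≤ K ⊔ Bn n) (hkK : kk A B ≤ K)
    (C : ∀ n, (letI := algC (hk n); ↥(K ⊔ Bn n) ≃ₐ[kk A B] ↥(K ⊔ Bn n)) → ℂ)
    (_ : ∀ n, 1 ≤ n → EInp p P V f R c n (hk n) (C n)) (c₀ : ℕ → ℂ)
    (mem : ∀ n, c₀ n ∈ K ⊔ Bn n) (_ : ∀ n, 1 ≤ n → c₀ n = C n (letI := algC (hk n); 1)),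
    letI := algC hkK
    ∀ (χ : (↥K ≃ₐ[kk A B] ↥K) →* (IsLocalRing.ResidueField V)ˣ) (N n₀ : ℕ), ∃ n, n₀ ≤ n ∧
    (letI := algC (hk n)
    ∀ γ : ↥(K ⊔ Bn n) ≃ₐ[kk A B] ↥(K ⊔ Bn n), (∀ x : ↥(K ⊔ Bn n), γ x = x ↔ (x : ℂ) ∈ K) →
    ∀ [Fintype (NC (hk n) (Bn n))] (r : NC (hk n) (Bn n) → (↥K ≃ₐ[kk A B] ↥K)),
    (∀ (δ : NC (hk n) (Bn n)) (x : ↥K) (x' : ↥(K ⊔ Bn n)), (x' : ℂ) = x →
      (((δ : ↥(K ⊔ Bn n) ≃ₐ[kk A B] ↥(K ⊔ Bn n)) x' : ↥(K ⊔ Bn n)) : ℂ) = (r δ x : ↥K)) →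
    ∃ θ : IsLocalRing.ResidueField V →+ ZMod p, ∀ y : ↥(K ⊔ Bn n),
      y ^ p ≠ ∏ δ : NC (hk n) (Bn n),
      ((δ : ↥(K ⊔ Bn n) ≃ₐ[kk A B] ↥(K ⊔ Bn n)) ((Tg γ)^[N] ⟨c₀ n, mem n⟩)) ^
        (θ ((χ (r δ))⁻¹ : (IsLocalRing.ResidueField V)ˣ)).val)

end

end Pool.Agent.MUXI
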