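import Pool.Agent.MUX.StXE

/-!
# MUX, block E: the Galois action on `Θ_a(z)`
-/

set_option autoImplicit false

open WeierstrassCurve Polynomial NumberField IsDedekindDomain

namespace Pool.Agent.MUXE

open _root_.MU3 Pool.Agent.MU3A Pool.Agent.MU3B Pool.Agent.MUX Pool.Agent.MUXU Pool.Agent.RI

noncomputable section

/-- (GTH) the Galois action on `Θ_a(z)` -/
theorem te_GTH (h1 : Sxe_TRA) : Sxe_GTH := by
  intro A B hR L hL a H hH m hm σ c hσ hac z hz hzL
  obtain ⟨t1, -, -, -, -, -, -, -, t9⟩ := h1 A B hR L hL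
  obtain ⟨φ, hφ⟩ := hR.hom
  have emul : ∀ x y : OO A B, emb (x * y) = emb x * emb y := by
    intro x y
    rw [← hφ, ← hφ, ← hφ, map_mul]
  have eadd : ∀ x y : OO A B, emb (x + y) = emb x + emb y := by
    intro x y
    rw [← hφ, ← hφ, ← hφ, map_add]
  have eone : emb (1 : OO A B) = 1 := by rw [← hφ, map_one]
  have enat : ∀ n : ℕ, emb (n : OO A B) = n := by
    intro n
    rw [← hφ, map_natCast]
  obtain ⟨hcop, hact⟩ := hσ
  obtain ⟨-, hact⟩ := hact L hL
  have hgen : ∀ x ∈ sp (a : OO A B), ∃ k : OO A B, x = k * (a : OO A B) := by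
    intro x hx
    obtain ⟨k, hk⟩ := Ideal.mem_span_singleton'.1 hx
    exact ⟨k, hk.symm⟩
  have hq : ∀ q ∈ H, Tor m L q ∧ q ∉ L.lattice := by
    intro q hqH
    constructor
    · intro x hx
      obtain ⟨k, hk⟩ := hgen x (hm hx)
      rw [hk, emul, enat, mul_assoc]
      exact t1 k _ (hH.mem q hqH)
    · intro h0
      refine hH.ne q hqH ?_
      rw [two_mul]
      exact add_mem h0 h0
  have hmem : ∀ z, Tor m L z → z ∉ L.lattice → xn L z ∈ RF m := by
    intro z h2 h3
    obtain ⟨b, om, hb⟩ := hL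
    exact IntermediateField.subset_adjoin _ _ ⟨b, L, om, hb, Or.inr ⟨z, h2, h3, rfl⟩⟩
  have hcq : ∀ q ∈ H, xn L (emb c * q) = xn L q := by
    intro q hqH
    obtain ⟨k, hk⟩ := hgen _ hac
    have h2 : q - emb c * q ∈ L.lattice := by
      have h3 : c = 1 + k * (a : OO A B) := by rw [← hk]; ring
      have h4 : q - emb c * q = -(emb k * ((a : ℂ) * q)) := by
        rw [h3, eadd, eone, emul, enat]
        ring
      rw [h4]
      exact neg_mem (t1 k _ (hH.mem q hqH))
    exact (((t9 q (emb c * q) h2).2 (hq q hqH).2).1).symm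
  have hsub : ∀ z q, L.weierstrassP z - L.weierstrassP q = xn L z - xn L q := by
    intro z q
    unfold xn
    ring
  have hTh : ∀ z, ThetaH L H z = ∏ q ∈ H, (xn L z - xn L q) := by
    intro z
    unfold ThetaH
    exact Finset.prod_congr rfl fun q _ => hsub z q
  let y : RF m := ∏ q ∈ H.attach, ((⟨xn L z, hmem z hz hzL⟩ : RF m) -
    ⟨xn L q.1, hmem q.1 (hq q.1 q.2).1 (hq q.1 q.2).2⟩)
  have hy : (y : ℂ) = ThetaH L H z := by
    have h2 : (y : ℂ) = ∏ q ∈ H.attach, (xn L z - xn L q.1) := by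
      change (RF m).val y = _
      rw [map_prod]
      rfl
    rw [h2, hTh, Finset.prod_attach H (fun q => xn L z - xn L q)]
  have hmemT : ThetaH L H z ∈ RF m := hy ▸ y.2
  refine ⟨hmemT, ?_⟩
  have hyeq : (⟨ThetaH L H z, hmemT⟩ : RF m) = y := Subtype.ext hy.symm
  rw [hyeq]
  change em σ y = _
  have h2 : em σ y = ∏ q ∈ H.attach, (xn L (emb c * z) - xn L q.1) := by
    rw [map_prod]
    refine Finset.prod_congr rfl fun q _ => ?_
    rw [map_sub, (hact z hz hzL).2 (hmem z hz hzL),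
      (hact q.1 (hq q.1 q.2).1 (hq q.1 q.2).2).2 (hmem q.1 (hq q.1 q.2).1 (hq q.1 q.2).2),
      hcq q.1 q.2]
  rw [h2, hTh, Finset.prod_attach H (fun q => xn L (emb c * z) - xn L q)]

end

end Pool.Agent.MUXE
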