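import Pool.Agent.MUX.StHN

/-!
# MUX-NS, block HR (helper87): the ramified case (`3 = p²` in `k`, `D ≠ -3`), abstract

PAPER_NS.md, section 8, with helper21's repairs (1), (3). Same conventions as `StHN.lean`; theorems `tn_X : Sn_X` in
`Pool/Agent/MUX/HN_X.lean`. `v(3)` has additive valuation 1; values in a field on which the valuations are in `(1/2) ℤ`.
-/

set_option autoImplicit false

namespace Pool.Agent.MUXHN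

open _root_.MU3 Pool.Agent.MuSym Pool.Agent.MUXH OnePoint

noncomputable section

/-- the standing hypotheses, ramified case: `P = (Φ⁺ + ι^* Φ⁻)/Om`; `P ∞ (x + 1/3) = om * P ∞ x`; the values are in
`pi * KI`, `v(pi) = v(3)^(-i/4)`, `i ≤ 1` (TYPE); `G` is strict (LEMMA G+ for `t = 1/27`) -/
structure HypR (V : ValuationSubring ℂ) (N₀ s₀ i : ℕ) (nu : ℤ → ℂ)
    (P : OnePoint ℚ → OnePoint ℚ → ℂ) (pi : ℂ) (KI : Subfield ℂ) (om : ℂ) : Prop where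
  vp : V.valuation (3 : ℂ) < 1
  N0 : N₀ ≠ 0
  cop : Nat.Coprime 3 N₀
  nu1 : nu 1 = 1
  num : ∀ d d', nu (d * d') = nu d * nu d'
  nuper : ∀ d d', ((3 * N₀ : ℕ) : ℤ) ∣ d - d' → nu d = nu d'
  nuv : ∀ d, V.valuation (nu d) ≤ 1
  sym : IsSym (3 ^ (s₀ + 1) * N₀) nu P
  omp : IsPrimitiveRoot om 3
  rel : ∀ x : ℚ, P ∞ ((x + 1 / 3 : ℚ) : OnePoint ℚ) = om * P ∞ (x : OnePoint ℚ)
  alg : ∀ x y, IsAlgebraic ℚ (P x y)
  fin : ∃ T : Finset ℂ, ∀ x y, P x y ∈ AddSubgroup.closure (T : Set ℂ)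
  typ : ∀ x y, ∃ w ∈ KI, P x y = pi * w
  unr : ∀ w ∈ KI, V.valuation w < 1 → V.valuation w ^ 2 ≤ V.valuation (3 : ℂ)
  i1 : i ≤ 1
  vpi : V.valuation pi ^ 4 * V.valuation (3 : ℂ) ^ i = 1
  /-- Theorem G+ for `P_t` -/
  G : ∀ N' : ℕ, N' ≠ 0 → 3 ^ (s₀ + 1) * N₀ ∣ N' → ∃ α β γ δ : ℤ, α * δ - β * γ = 1 ∧
    (N' : ℤ) ∣ γ ∧ (N' : ℤ) ∣ δ - 1 ∧ 1 < V.valuation (PT P ∞ (mob α β γ δ ∞))

/-- (TYR) arithmetic of types.

PROOF. `t = v 3`, `0 < t < 1`, `x = pi w`, `v(pi)^4 t^i = 1`. `i = 0`: `v(pi) = 1`, so `v w > 1`, `w⁻¹ ∈ KI`, `v(w⁻¹)² ≤ t`. `i = 1`: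
`v(x)^4 t = v(w)^4`. If `v w < 1` then `v(w)^4 ≤ t² < t`, so `v(x)^4 t < t`, `v(x)^4 < 1`. If `v w = 1`: `v(x)^4 t = 1`. If `v w > 1`: as
before `1 ≤ v(w)² t`, so `1 ≤ v(w)^4 t² = v(x)^4 t³`. -/
def Sn_TYR : Prop :=
  ∀ (V : ValuationSubring ℂ) (_ : V.valuation (3 : ℂ) < 1) (KI : Subfield ℂ)
    (_ : ∀ w ∈ KI, V.valuation w < 1 → V.valuation w ^ 2 ≤ V.valuation (3 : ℂ)) (pi : ℂ),
    (V.valuation pi ^ 4 = 1 → ∀ w ∈ KI, 1 < V.valuation (pi * w) →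
      1 ≤ V.valuation (pi * w) ^ 2 * V.valuation (3 : ℂ)) ∧
    (V.valuation pi ^ 4 * V.valuation (3 : ℂ) = 1 → ∀ w ∈ KI, 1 < V.valuation (pi * w) →
      V.valuation (pi * w) ^ 4 * V.valuation (3 : ℂ) = 1 ∨
        1 ≤ V.valuation (pi * w) ^ 4 * V.valuation (3 : ℂ) ^ 3)

/-- (DVR) the character sums of a function with `y (b + 3^n) = om y b`. MODEL: `HN_DVN.lean` (`Sn_DVN`).

PROOF. `q = 3^n`, `W b = y b/y b₀ ∈ K ∩ V`, `W b₀ = 1`, `W (b + q) = om W b`, and `ζ^q om = 1`: the sum over `range (3 q)` of `ζ^b y b` is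
`3` times the sum over `range q` (the terms `b`, `b + q`, `b + 2 q` are equal). `Σ_(b < q) ζ^b W b = Σ_(i < q) c_i (ζ - 1)^i`,
`c_i = Σ_(b < q) binom(b, i) W b ∈ K ∩ V` (`shift_pow` of `MU3/H_HZ.lean`), and `W b = Σ_(i < q) (-1)^(i-b) binom(i, b) c_i` for `0 ≤ b < q`. So not
all `c_i` are in the maximal ideal (`v (W b) = v (W (b + q))`, so some `0 ≤ b < q` has `v (W b) = 1`). Let `j < q` be the smallest `i` with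
`v c_i = 1`. For `i < j`: `v(c_i)² ≤ v 3 = x^(2 q)`, `x = v(ζ - 1) < 1` (`x^(2 q) = v 3` as in `Sx_HZ`), so `v c_i ≤ x^q < x^j`. So
`v(Σ c_i (ζ-1)^i) = x^j`. If `j = q - 1` then, modulo the maximal ideal, `c_i = 0` for `i < q - 1`, so `W b ≡ (-1)^(q-1-b) binom(q-1, b) c_(q-1) ≡
c_(q-1)` for `0 ≤ b < q` (`binom(q-1, b) ≡ (-1)^b` modulo `3`, `q - 1` even), and `W (b + q) = om W b ≡ W b` (`v(om - 1) < 1`): all
`W b` are congruent; `W b - W b' ∈ K` has `v < 1`, so `v(W b - W b')² ≤ v 3`. -/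
def Sn_DVR : Prop :=
  ∀ (V : ValuationSubring ℂ) (_ : V.valuation (3 : ℂ) < 1) (K : Subfield ℂ)
    (_ : ∀ w ∈ K, V.valuation w < 1 → V.valuation w ^ 2 ≤ V.valuation (3 : ℂ)) (n : ℕ)
    (y : ℤ → ℂ) (om : ℂ) (_ : IsPrimitiveRoot om 3)
    (_ : ∀ b : ℤ, y (b + 3 ^ n) = om * y b)
    (_ : ∀ b b' : ℤ, y b' ≠ 0 → y b / y b' ∈ K) (b₀ : ℤ) (_ : y b₀ ≠ 0)
    (_ : ∀ b, V.valuation (y b) ≤ V.valuation (y b₀)) (ζ : ℂ)
    (_ : IsPrimitiveRoot ζ (3 ^ (n + 1))) (_ : ζ ^ 3 ^ n * om = 1),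
    ∃ j : ℕ, j < 3 ^ n ∧
      V.valuation (∑ b ∈ Finset.range (3 ^ (n + 1)), ζ ^ b * y b) =
        V.valuation (3 : ℂ) * V.valuation (y b₀) * V.valuation (ζ - 1) ^ j ∧
      V.valuation (ζ - 1) ^ (2 * 3 ^ n) = V.valuation (3 : ℂ) ∧
      (j = 3 ^ n - 1 → ∀ b b' : ℤ, V.valuation (y b - y b') ^ 2 ≤
        V.valuation (y b₀) ^ 2 * V.valuation (3 : ℂ))

/-- (HR) the conclusion of the block, ramified case.

USES BDN, LOC, KYN, TYR, DVR. PROOF (helper87, glue). `z n b = P ∞ (b/3^n)`. For all `n₀` there are `n ≥ n₀` and `b` with `v(comb α g (i+1) (z n) b) > 1`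
(otherwise LOC and KYN with `m = V` contradict `G`). -/
def Sn_HR : Prop :=
  ∀ (V : ValuationSubring ℂ) (N₀ s₀ i : ℕ) (nu : ℤ → ℂ) (P : OnePoint ℚ → OnePoint ℚ → ℂ)
    (pi : ℂ) (KI : Subfield ℂ) (om : ℂ), HypR V N₀ s₀ i nu P pi KI om →
    ∀ (α g : ℤ), (3 : ℤ) ∣ α - 1 → α ≠ 1 → (3 : ℤ) ∣ g - 1 → g ≠ 1 → ∀ n₀ : ℕ,
      ∃ n, n₀ ≤ n ∧ ∀ ζ : ℂ, IsPrimitiveRoot ζ (3 ^ (n + 1)) → ζ ^ 3 ^ n * om = 1 →
        (i = 0 → V.valuation (3 : ℂ) < V.valuation (∑ b ∈ Finset.range (3 ^ (n + 1)), ζ ^ b *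
          comb α g 1 (fun b => P ∞ (((b : ℚ) / 3 ^ (n + 1) : ℚ) : OnePoint ℚ)) b)) ∧
        (i = 1 → V.valuation (3 : ℂ) ^ 5 ≤
          V.valuation (∑ b ∈ Finset.range (3 ^ (n + 1)), ζ ^ b *
            comb α g 1 (fun b => P ∞ (((b : ℚ) / 3 ^ (n + 1) : ℚ) : OnePoint ℚ)) b) ^ 4 *
          V.valuation (ζ - 1) ^ 8)

end

end Pool.Agent.MUXHN
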