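import Pool.Agent.MUX.StGX

/-!
# MUX, block G, module BIN: integrality of a series whose integral is a modular point (helper76)
-/

set_option autoImplicit false

namespace Pool.Agent.MUXN

open _root_.MU3 Pool.Agent.MU3A Pool.Agent.MU3B Pool.Agent.MU3Q Pool.Agent.MUX Pool.Agent.MuSym
  OnePoint UpperHalfPlane
open scoped MatrixGroups

noncomputable section

namespace NBin

/-- `θ = q d/dq` is a derivation -/
theorem thetaD_mul (f g : PowerSeries ℂ) : thetaD (f * g) = thetaD f * g + f * thetaD g := by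
  ext n
  rw [map_add]
  simp only [thetaD, PowerSeries.coeff_mk, PowerSeries.coeff_mul]
  rw [Finset.mul_sum, ← Finset.sum_add_distrib]
  refine Finset.sum_congr rfl fun x hx => ?_
  rw [← Finset.HasAntidiagonal.mem_antidiagonal.1 hx]
  push_cast
  ring

variable (K : Subfield ℂ) (V : ValuationSubring ℂ)

/-- the inclusion of the valuation ring of `K` in `ℂ` -/
def io : ↥(V.comap K.subtype) →+* ℂ := K.subtype.comp (V.comap K.subtype).subtype

theorem io_inj : Function.Injective (io K V) := fun _ _ h => Subtype.ext (Subtype.ext h)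

variable {K V}

/-- an element of `K ∩ V` -/
def el (x : ℂ) (h : x ∈ K) (h' : x ∈ V) : ↥(V.comap K.subtype) := ⟨⟨x, h⟩, h'⟩

theorem io_el {x : ℂ} (h : x ∈ K) (h' : x ∈ V) : io K V (el x h h') = x := rfl

theorem io_mem (x : ↥(V.comap K.subtype)) : io K V x ∈ V := x.2

theorem el_unit {x : ℂ} (h : x ∈ K) (h' : x ∈ V) (hv : V.valuation x = 1) :
    IsUnit (el x h h') := by
  have hx0 : x ≠ 0 := by
    rintro rfl
    rw [map_zero] at hv
    exact zero_ne_one hv
  have hi : V.valuation x⁻¹ = 1 := by rw [map_inv₀, hv, inv_one]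
  have hiV : x⁻¹ ∈ V := (V.valuation_le_one_iff _).1 hi.le
  refine IsUnit.of_mul_eq_one (el x⁻¹ (K.inv_mem h) hiV) (io_inj K V ?_)
  rw [map_mul, map_one, io_el, io_el, mul_inv_cancel₀ hx0]

/-- a power series with coefficients in `K ∩ V` -/
def lft (f : PowerSeries ℂ) (hf : f ∈ PP K V) : PowerSeries ↥(V.comap K.subtype) :=
  PowerSeries.mk fun n => el (PowerSeries.coeff n f) (hf n).1 (hf n).2

theorem map_lft {f : PowerSeries ℂ} (hf : f ∈ PP K V) : PowerSeries.map (io K V) (lft f hf) = f := by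
  ext n
  rw [PowerSeries.coeff_map, lft, PowerSeries.coeff_mk, io_el]

/-- the curve over a ring -/
def Wk {O : Type} [CommRing O] (κ : O) : WeierstrassCurve O := ⟨1, 0, 0, -36 * κ, -κ⟩

section Wk

variable {O : Type} [CommRing O] (κ : O)

theorem Wk_Δ : (Wk κ).Δ = κ * (1 + 1728 * κ) ^ 2 := by
  simp only [Wk, WeierstrassCurve.Δ, WeierstrassCurve.b₂, WeierstrassCurve.b₄,
    WeierstrassCurve.b₆, WeierstrassCurve.b₈]
  ring

theorem Wk_b₂ : (Wk κ).b₂ = 1 := by
  simp only [Wk, WeierstrassCurve.b₂]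
  ring

theorem Wk_b₄ : (Wk κ).b₄ = -72 * κ := by
  simp only [Wk, WeierstrassCurve.b₄]
  ring

theorem Wk_b₆ : (Wk κ).b₆ = -4 * κ := by
  simp only [Wk, WeierstrassCurve.b₆]
  ring

/-- the theta operator over a ring -/
def tth (f : PowerSeries O) : PowerSeries O := PowerSeries.mk fun n => (n : O) * PowerSeries.coeff n f

theorem map_tth (ι : O →+* ℂ) (f : PowerSeries O) :
    PowerSeries.map ι (tth f) = thetaD (PowerSeries.map ι f) := by
  ext n
  rw [PowerSeries.coeff_map, tth, thetaD, PowerSeries.coeff_mk, PowerSeries.coeff_mk,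
    PowerSeries.coeff_map, map_mul, map_natCast]

theorem mapι_inj {ι : O →+* ℂ} (hι : Function.Injective ι) :
    Function.Injective (PowerSeries.map ι) := by
  intro f g h
  ext n
  apply hι
  have := congrArg (PowerSeries.coeff n) h
  rwa [PowerSeries.coeff_map, PowerSeries.coeff_map] at this

theorem pull {ι : O →+* ℂ} (hι : Function.Injective ι) (c : O) (P Q G : PowerSeries O)
    (h : PowerSeries.C (ι c) ^ 2 * (PowerSeries.map ι Q * thetaD (PowerSeries.map ι P) -
        PowerSeries.map ι P * thetaD (PowerSeries.map ι Q)) ^ 2 =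
      PowerSeries.map ι Q * (4 * PowerSeries.map ι P ^ 3 +
        PowerSeries.C 1 * PowerSeries.map ι P ^ 2 * PowerSeries.map ι Q +
        2 * PowerSeries.C (-72 * ι κ) * PowerSeries.map ι P * PowerSeries.map ι Q ^ 2 +
        PowerSeries.C (-4 * ι κ) * PowerSeries.map ι Q ^ 3) * PowerSeries.map ι G ^ 2) :
    PowerSeries.C c ^ 2 * (Q * tth P - P * tth Q) ^ 2 =
      Q * (4 * P ^ 3 + PowerSeries.C (Wk κ).b₂ * P ^ 2 * Q + 2 * PowerSeries.C (Wk κ).b₄ * P * Q ^ 2 +
        PowerSeries.C (Wk κ).b₆ * Q ^ 3) * G ^ 2 := by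
  apply mapι_inj hι
  rw [Wk_b₂, Wk_b₄, Wk_b₆]
  simp only [map_mul, map_pow, map_sub, map_add, map_tth, map_ofNat]
  rw [PowerSeries.map_C, PowerSeries.map_C]
  refine Eq.trans h ?_
  have e1 : PowerSeries.map ι (PowerSeries.C (-72)) = -72 := by
    rw [PowerSeries.map_C, map_neg, map_ofNat, map_neg, map_ofNat]
  have e2 : PowerSeries.map ι (PowerSeries.C (-4)) = -4 := by
    rw [PowerSeries.map_C, map_neg, map_ofNat, map_neg, map_ofNat]
  have e3 : PowerSeries.map ι (PowerSeries.C κ) = PowerSeries.C (ι κ) := PowerSeries.map_C _ _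
  have e4 : (PowerSeries.C (-72 * ι κ) : PowerSeries ℂ) = -72 * PowerSeries.C (ι κ) := by
    rw [map_mul, map_neg, map_ofNat]
  have e5 : (PowerSeries.C (-4 * ι κ) : PowerSeries ℂ) = -4 * PowerSeries.C (ι κ) := by
    rw [map_mul, map_neg, map_ofNat]
  rw [e1, e2, e3, e4, e5]
  simp only [map_one]

end Wk

end NBin

open NBin in
theorem tg_BIN (hWQ : St_WQ) (hGP : Sg_GP) (hDV : Sg_DV) : Sg_BIN := by
  intro K _ V p hp hpV N hN hζ L hL hκK hκ hκ' Z z hQS hzK hz0 hden hcusp hper
  by_cases h1 : PowerSeries.coeff 1 z = 0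
  · rw [h1]
    exact V.zero_mem
  have hκV : kap L ∈ V := (V.valuation_le_one_iff _).1 hκ.le
  have hDVR := hDV K V p hp hpV
  obtain ⟨c, hcK, hc0, hcV, hcz⟩ := hden
  have h4 : (4 : ℂ) ∈ K := by exact_mod_cast natCast_mem K 4
  have h36 : (-36 : ℂ) ∈ K := by exact_mod_cast intCast_mem K (-36)
  obtain ⟨S, -, -, -, S2, ode, A, hA, B, hB, hA0, hAS⟩ := hWQ K V N L (-1 / 12) (1 / 4)
    (-36 * kap L) (-kap L) Z z hN hζ (K.div_mem K.one_mem h4) (K.mul_mem h36 hκK)
    (K.neg_mem hκK) (by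
      intro u hu
      have hg3 : L.g₃ = -L.g₂ / 18 := by rw [hL]; ring
      rw [L.derivWeierstrassP_sq u hu, hg3, kap]
      ring) hzK hz0 h1 hQS hcusp hper
  have hS0 : S ≠ 0 := by
    rintro rfl
    rw [map_zero] at S2
    exact h1 (pow_eq_zero_iff two_ne_zero |>.1 S2.symm)
  have hB0 : B ≠ 0 := by
    rw [← hAS]
    exact mul_ne_zero hA0 hS0
  have hthS : thetaD S ≠ 0 := by
    intro h
    have h2 := congrArg (PowerSeries.coeff 2) h
    rw [map_zero, thetaD, PowerSeries.coeff_mk, S2] at h2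
    have h3 : PowerSeries.coeff 1 z ^ 2 ≠ 0 := pow_ne_zero 2 h1
    rcases mul_eq_zero.1 h2 with h5 | h5
    · norm_num at h5
    · exact h3 h5
  -- the wronskian
  have hW1 : A * thetaD B - B * thetaD A = A ^ 2 * thetaD S := by
    rw [← hAS, thetaD_mul]
    ring
  have hG : PowerSeries.C c * thetaD z ∈ PP K V := by
    intro n
    rw [PowerSeries.coeff_C_mul, thetaD, PowerSeries.coeff_mk]
    exact ⟨K.mul_mem hcK (K.mul_mem (natCast_mem K n) (hzK n)), hcz n⟩
  have hode : PowerSeries.C c ^ 2 * (B * thetaD A - A * thetaD B) ^ 2 =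
      B * (4 * A ^ 3 + PowerSeries.C 1 * A ^ 2 * B + 2 * PowerSeries.C (-72 * kap L) * A * B ^ 2 +
        PowerSeries.C (-4 * kap L) * B ^ 3) * (PowerSeries.C c * thetaD z) ^ 2 := by
    have e1 : (B * thetaD A - A * thetaD B) ^ 2 = A ^ 4 * thetaD S ^ 2 := by
      calc (B * thetaD A - A * thetaD B) ^ 2 = (A * thetaD B - B * thetaD A) ^ 2 := by ring
        _ = _ := by rw [hW1]; ring
    have c14 : (4 : PowerSeries ℂ) * PowerSeries.C (1 / 4 : ℂ) = 1 := by
      rw [← map_ofNat (PowerSeries.C : ℂ →+* PowerSeries ℂ) 4, ← map_mul]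
      norm_num
    have c36 : PowerSeries.C (-36 * kap L : ℂ) = -36 * PowerSeries.C (kap L) := by
      rw [map_mul, map_neg, map_ofNat]
    have c72 : PowerSeries.C (-72 * kap L : ℂ) = -72 * PowerSeries.C (kap L) := by
      rw [map_mul, map_neg, map_ofNat]
    have c4 : PowerSeries.C (-4 * kap L : ℂ) = -4 * PowerSeries.C (kap L) := by
      rw [map_mul, map_neg, map_ofNat]
    rw [e1, ode, ← hAS, PowerSeries.smul_eq_C_mul, PowerSeries.smul_eq_C_mul,
      PowerSeries.smul_eq_C_mul, map_neg, c36, c72, c4, map_one]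
    linear_combination (PowerSeries.C c ^ 2 * A ^ 4 * S ^ 2 * thetaD z ^ 2) * c14
  -- the ring
  have hu : IsUnit (Wk (el (kap L) hκK hκV)).Δ := by
    rw [Wk_Δ]
    have h5 : (1 + 1728 * kap L : ℂ) ∈ K :=
      K.add_mem K.one_mem (K.mul_mem (by exact_mod_cast natCast_mem K 1728) hκK)
    have h6 : (1 + 1728 * kap L : ℂ) ∈ V := (V.valuation_le_one_iff _).1 hκ'.le
    have h7 : (1 + 1728 * el (kap L) hκK hκV) = el (1 + 1728 * kap L) h5 h6 := by
      apply io_inj K V
      rw [io_el, map_add, map_mul, map_one, map_ofNat, io_el]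
    rw [h7]
    exact (el_unit hκK hκV hκ).mul ((el_unit h5 h6 hκ').pow 2)
  have h20 : (2 : ↥(V.comap K.subtype)) ≠ 0 := by
    intro h
    have := congrArg (io K V) h
    rw [map_ofNat, map_zero] at this
    norm_num at this
  have hdvd := hGP ↥(V.comap K.subtype) h20 (Wk (el (kap L) hκK hκV)) hu tth
    (fun f n => by rw [tth, PowerSeries.coeff_mk]) (lft A hA)
    (lft B hB) (lft _ hG) (el c hcK hcV) (by
      intro h
      have := congrArg (io K V) h
      rw [io_el, map_zero] at this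
      exact hc0 this) (by
      intro h
      have := congrArg (PowerSeries.map (io K V)) h
      rw [map_lft, map_zero] at this
      exact hB0 this) (by
      intro h
      have := congrArg (PowerSeries.map (io K V)) h
      rw [map_sub, map_mul, map_mul, map_tth, map_tth, map_lft, map_lft, map_zero] at this
      have h8 : A ^ 2 * thetaD S = 0 := by
        rw [← hW1]
        linear_combination -this
      exact mul_ne_zero (pow_ne_zero 2 hA0) hthS h8) (by
      apply pull _ (io_inj K V)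
      rw [map_lft, map_lft, map_lft]
      exact hode)
  obtain ⟨G', hG'⟩ := hdvd
  have h9 := congrArg (PowerSeries.coeff 1) hG'
  rw [PowerSeries.coeff_C_mul] at h9
  have h10 := congrArg (io K V) h9
  rw [map_mul, io_el, lft, PowerSeries.coeff_mk, io_el, PowerSeries.coeff_C_mul, thetaD,
    PowerSeries.coeff_mk, Nat.cast_one, one_mul] at h10
  rw [mul_left_cancel₀ hc0 h10]
  exact io_mem _

end

end Pool.Agent.MUXN
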