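import Pool.Agent.MUX.StGX
import Pool.Agent.MU3.A2Val
import Pool.Agent.MU3.G_G6c

/-!
# MUX, block G, module GJ: the forms `g_j`
-/

set_option autoImplicit false

namespace Pool.Agent.MUXN

open _root_.MU3 Pool.Agent.MU3A Pool.Agent.MU3B Pool.Agent.MU3Q Pool.Agent.MUX Pool.Agent.MuSym
  OnePoint UpperHalfPlane
open scoped MatrixGroups

noncomputable section

namespace N_GJ

theorem wC_sqX {A B : ℤ} (h : CQ A B) : wC A B * wC A B = A + B * wC A B := by
  have h1 : (0 : ℝ) ≤ (absD A B : ℝ) := by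
    have := h.neg
    have h0 : 0 ≤ absD A B := by
      unfold absD
      omega
    exact_mod_cast h0
  have h2 : ((Real.sqrt (absD A B) : ℝ) : ℂ) ^ 2 = (absD A B : ℂ) := by
    rw [← Complex.ofReal_pow, Real.sq_sqrt h1]
    norm_num
  have h3 : Complex.I ^ 2 = -1 := Complex.I_sq
  have h4 : (absD A B : ℂ) = -((B : ℂ) ^ 2 + 4 * A) := by simp [absD]
  unfold wC
  linear_combination (Complex.I ^ 2 / 4) * h2 + ((absD A B : ℂ) / 4) * h3 - (1 / 4) * h4

/-- the embedding as a ring homomorphism -/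
def eHom {A B : ℤ} (h : CQ A B) : OO A B →+* ℂ :=
  (QuadraticAlgebra.lift (R := ℤ) (a := A) (b := B) (A := ℂ)
    ⟨wC A B, by simpa [zsmul_eq_mul] using wC_sqX h⟩).toRingHom

theorem eHom_apply {A B : ℤ} (h : CQ A B) (x : OO A B) : eHom h x = emb x := by
  simp [eHom, emb, QuadraticAlgebra.lift, zsmul_eq_mul]

theorem wC_int {A B : ℤ} (hc : CQ A B) : IsIntegral ℤ (wC A B) := by
  refine ⟨Polynomial.X ^ 2 - Polynomial.C B * Polynomial.X - Polynomial.C A, ?_, ?_⟩
  · monicity!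
  · have := wC_sqX hc
    simp only [Polynomial.eval₂_sub, Polynomial.eval₂_mul, Polynomial.eval₂_pow,
      Polynomial.eval₂_X, Polynomial.eval₂_C]
    simp only [algebraMap_int_eq, eq_intCast]
    linear_combination this

theorem emb_mem_V {A B : ℤ} (hc : CQ A B) (V : ValuationSubring ℂ) (x : OO A B) : emb x ∈ V := by
  have h1 : wC A B ∈ V := Pool.Agent.MU3A2.mem_of_integral (wC_int hc)
  exact V.add_mem _ _ (Pool.Agent.MU3A2.int_mem _) (V.mul_mem _ _ (Pool.Agent.MU3A2.int_mem _) h1)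

/-- elements of `k` are algebraic -/
theorem kk_alg {A B : ℤ} (hc : CQ A B) {x : ℂ} (hx : x ∈ kk A B) : IsAlgebraic ℚ x := by
  have h1 : IsIntegral ℚ (wC A B) := (wC_int hc).tower_top
  have h2 : FiniteDimensional ℚ (kk A B) := IntermediateField.adjoin.finiteDimensional h1
  have h3 : IsAlgebraic ℚ (⟨x, hx⟩ : kk A B) := Algebra.IsAlgebraic.isAlgebraic _
  exact h3.algebraMap (A := ℂ)

/-- generators of a number field as a vector space -/
theorem gens (K : Subfield ℂ) [NumberField K] : ∃ S : Finset ℂ, (∀ x ∈ S, IsAlgebraic ℚ x) ∧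
    ∀ K' : Subfield ℂ, (∀ x ∈ S, x ∈ K') → K ≤ K' := by
  classical
  obtain ⟨S, hS⟩ := (inferInstance : Module.Finite ℚ K).1
  refine ⟨S.image (fun x : K => (x : ℂ)), ?_, ?_⟩
  · intro x hx
    obtain ⟨y, -, rfl⟩ := Finset.mem_image.1 hx
    have h3 : IsAlgebraic ℚ y := Algebra.IsAlgebraic.isAlgebraic _
    exact h3.algebraMap (A := ℂ)
  · intro K' hK' x hx
    have h1 : (⟨x, hx⟩ : K) ∈ Submodule.span ℚ (S : Set K) := by rw [hS]; trivial
    have h2 : ∀ y ∈ Submodule.span ℚ (S : Set K), (y : ℂ) ∈ K' := by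
      intro y hy
      induction hy using Submodule.span_induction with
      | mem x hx => exact hK' _ (Finset.mem_image.2 ⟨x, hx, rfl⟩)
      | zero => exact K'.zero_mem
      | add x y _ _ hx hy => exact K'.add_mem hx hy
      | smul a x _ hx =>
        have e : ((a • x : K) : ℂ) = (a : ℂ) * (x : ℂ) := by
          rw [Algebra.smul_def]
          simp
        rw [e]
        exact K'.mul_mem (by
          rw [Rat.cast_def]
          exact K'.div_mem (intCast_mem _ _) (natCast_mem _ _)) hx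
    exact h2 _ h1

/-- denominators -/
theorem denom (K : Subfield ℂ) (V : ValuationSubring ℂ) (x : ℂ) (hx : x ∈ K) :
    ∃ q ∈ K, q ≠ 0 ∧ q ∈ V ∧ q * x ∈ V := by
  by_cases h : x ∈ V
  · exact ⟨1, K.one_mem, one_ne_zero, V.one_mem, by rwa [one_mul]⟩
  · have h1 : x⁻¹ ∈ V := (V.mem_or_inv_mem x).resolve_left h
    have h0 : x ≠ 0 := fun h0 => h (by rw [h0]; exact V.zero_mem)
    exact ⟨x⁻¹, K.inv_mem hx, inv_ne_zero h0, h1, by rw [inv_mul_cancel₀ h0]; exact V.one_mem⟩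

end N_GJ

open N_GJ Pool.Agent.MU3G in
theorem tg_GJ (h1 : Sg_BIN) (h2 : Sg_RET) (h3 : Sg_NFE) (h4 : Sg_LOC) (_h5 : Sg_FGG) : Sg_GJ := by
  classical
  intro A B hc n ι _ R E _ N' hG l hl P hP V hV halg hv1 hv2 r h hh hfg w hw y hy
  set Om : ℂ := R.om R.i0 with hOm
  have hOm0 : Om ≠ 0 := (R.nl R.i0).om_ne
  choose! α hα using fun e (he : e ∈ E) i => hG.qexp e he i
  choose! Kα hKα using fun e (he : e ∈ E) i => (hα e he i).2.1
  -- generators of the fields of coefficients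
  have hgen : ∀ c : ι × E, ∃ S : Finset ℂ, (∀ x ∈ S, IsAlgebraic ℚ x) ∧
      ∀ K' : Subfield ℂ, (∀ x ∈ S, x ∈ K') → Kα c.2 c.1 ≤ K' := by
    intro c
    have := (hKα c.2 c.2.2 c.1).1
    exact gens _
  choose Sg hSg1 hSg2 using hgen
  set Pm : Fin r → ι × E → ℂ := fun l' c => PhiI (R.b c.1) (c.2 : OO A B → ℂ) ∞
      (mob (h l' 0 0) (h l' 0 1) (h l' 1 0) (h l' 1 1) ∞) / Om with hPm
  have hPmalg : ∀ l' c, IsAlgebraic ℚ (Pm l' c) := by
    intro l' c
    have e1 : Pm l' c = (PhiI (R.b c.1) (c.2 : OO A B → ℂ) ∞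
      (mob (h l' 0 0) (h l' 0 1) (h l' 1 0) (h l' 1 1) ∞) / R.om c.1) * (R.om c.1 / Om) := by
      have := (R.nl c.1).om_ne
      rw [hPm]
      field_simp
    rw [e1]
    exact (hG.alg c.2 c.2.2 c.1 _ _).mul (hG.algo c.1)
  have hN' : N' ≠ 0 := hG.pos.ne'
  have hζ : IsAlgebraic ℚ (Complex.exp (2 * Real.pi * Complex.I / N')) := by
    have hp := (Complex.isPrimitiveRoot_exp N' hN').pow_eq_one
    have : IsIntegral ℚ (Complex.exp (2 * Real.pi * Complex.I / N')) := by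
      refine ⟨Polynomial.X ^ N' - Polynomial.C 1, Polynomial.monic_X_pow_sub_C 1 hN', ?_⟩
      simp [hp]
    exact this.isAlgebraic
  obtain ⟨K, hKnf, hK⟩ := h3 ((Finset.univ.image fun q : Fin r × (ι × E) => Pm q.1 q.2) ∪
    Finset.univ.image w ∪ {kap (R.L R.i0)} ∪ {Complex.exp (2 * Real.pi * Complex.I / N')} ∪
    {wC A B} ∪ Finset.univ.biUnion Sg) (by
      intro x hx
      simp only [Finset.mem_union, Finset.mem_image, Finset.mem_univ, true_and,
        Finset.mem_singleton, Finset.mem_biUnion] at hx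
      rcases hx with ((((⟨q, rfl⟩ | ⟨i, rfl⟩) | rfl) | rfl) | rfl) | ⟨c, hc'⟩
      · exact hPmalg _ _
      · exact kk_alg hc (hw i).1
      · exact halg
      · exact hζ
      · exact ((wC_int hc).tower_top (A := ℚ)).isAlgebraic
      · exact hSg1 c x hc')
  simp only [Finset.mem_union, Finset.mem_image, Finset.mem_univ, true_and,
    Finset.mem_singleton, Finset.mem_biUnion] at hK
  have hKP : ∀ l' c, Pm l' c ∈ K := fun l' c => hK _ (by
    left; left; left; left; left; exact ⟨(l', c), rfl⟩)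
  have hKw : ∀ i, w i ∈ K := fun i => hK _ (by left; left; left; left; right; exact ⟨i, rfl⟩)
  have hKkap : kap (R.L R.i0) ∈ K := hK _ (by left; left; left; right; rfl)
  have hKζ : Complex.exp (2 * Real.pi * Complex.I / N') ∈ K := hK _ (by left; left; right; rfl)
  have hKwC : wC A B ∈ K := hK _ (by left; right; rfl)
  have hKS : ∀ c : ι × E, Kα c.2 c.1 ≤ K := fun c => hSg2 c K fun x hx => hK x (by right; exact ⟨c, hx⟩)
  have hKemb : ∀ x : OO A B, emb x ∈ K := fun x =>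
    K.add_mem (intCast_mem _ _) (K.mul_mem (intCast_mem _ _) hKwC)
  obtain ⟨y', hy'K, hy'⟩ := h2 K (ι × E) r (fun c i => Pm i c) w (fun c i => hKP i c) hKw y hy
  obtain ⟨t, htP, ht⟩ := h4 A B hc l hl P hP V hV (Finset.univ.image w) (by
    intro x hx
    obtain ⟨i, -, rfl⟩ := Finset.mem_image.1 hx
    exact hw i)
  refine ⟨y', hy', ?_⟩
  have hαK : ∀ c : ι × E, ∀ n, α c.2 c.1 n ∈ K := fun c n => hKS c ((hKα c.2 c.2.2 c.1).2 n)
  have hαV : ∀ c : ι × E, ∀ n, α c.2 c.1 n ∈ V := fun c n =>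
    Pool.Agent.MU3A2.mem_of_integral ((hα c.2 c.2.2 c.1).1 n)
  set Z : ℍ → ℂ := fun τ => emb t * ∑ c : ι × E, y' c * thetaIntI (R.b c.1) c.2 (τ : ℂ) with hZ
  set z : PowerSeries ℂ := PowerSeries.mk fun n =>
    emb t * ∑ c : ι × E, y' c * (α c.2 c.1 n / n) with hz
  have hzn : ∀ n, PowerSeries.coeff n z = emb t * ∑ c : ι × E, y' c * (α c.2 c.1 n / n) :=
    fun n => by rw [hz, PowerSeries.coeff_mk]
  have hsmul : ∀ (γ : SL(2, ℤ)) (τ : ℍ), ((γ • τ : ℍ) : ℂ) =
      (((γ 0 0 : ℤ) : ℂ) * τ + ((γ 0 1 : ℤ) : ℂ)) /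
          (((γ 1 0 : ℤ) : ℂ) * τ + ((γ 1 1 : ℤ) : ℂ)) := by
    intro γ τ
    rw [UpperHalfPlane.specialLinearGroup_apply]
    simp
  have hQS : QS Z z := by
    intro τ
    have hs := (hasSum_sum (s := Finset.univ) fun c (_ : c ∈ (Finset.univ : Finset (ι × E))) =>
      ((hα c.2 c.2.2 c.1).2.2.2.2 (τ : ℂ) τ.2).mul_left (y' c)).mul_left (emb t)
    have e2 : (fun n : ℕ => PowerSeries.coeff n z * qq τ ^ n) = fun n : ℕ =>
        emb t * ∑ c : ι × E, y' c * (α c.2 c.1 n / n *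
          Complex.exp (2 * Real.pi * Complex.I * (τ : ℂ)) ^ n) := by
      funext n
      rw [hzn n, qq, mul_assoc, Finset.sum_mul]
      congr 1
      refine Finset.sum_congr rfl fun c _ => ?_
      ring
    rw [e2]
    exact hs
  have hcusp : ∀ γ : SL(2, ℤ), ∃ (C : ℂ) (w : ℕ → ℂ), ∀ τ : ℍ, HasSum (fun n : ℕ => w n *
      Complex.exp (2 * Real.pi * Complex.I * (τ : ℂ) / N') ^ (n + 1)) (Z (γ • τ) - C) := by
    intro γ
    choose C W hW using fun c : ι × E => hG.cusp c.2 c.2.2 c.1 (γ 0 0) (γ 0 1) (γ 1 0) (γ 1 1)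
      (G6c.det_eq γ)
    refine ⟨emb t * ∑ c : ι × E, y' c * C c, fun n => emb t * ∑ c : ι × E, y' c * W c n, ?_⟩
    intro τ
    have hs := (hasSum_sum (s := Finset.univ) fun c (_ : c ∈ (Finset.univ : Finset (ι × E))) =>
      (hW c (τ : ℂ) τ.2).mul_left (y' c)).mul_left (emb t)
    have e1 : (fun n : ℕ => (emb t * ∑ c : ι × E, y' c * W c n) *
        Complex.exp (2 * Real.pi * Complex.I * (τ : ℂ) / N') ^ (n + 1)) = fun n : ℕ =>
        emb t * ∑ c : ι × E, y' c * (W c n *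
          Complex.exp (2 * Real.pi * Complex.I * (τ : ℂ) / N') ^ (n + 1)) := by
      funext n
      rw [mul_assoc, Finset.sum_mul]
      congr 1
      refine Finset.sum_congr rfl fun c _ => ?_
      ring
    have e2 : Z (γ • τ) - emb t * ∑ c : ι × E, y' c * C c = emb t * ∑ c : ι × E, y' c *
        (thetaIntI (R.b c.1) c.2 ((((γ 0 0 : ℤ) : ℂ) * τ + ((γ 0 1 : ℤ) : ℂ)) /
          (((γ 1 0 : ℤ) : ℂ) * τ + ((γ 1 1 : ℤ) : ℂ))) - C c) := by
      rw [hZ]
      beta_reduce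
      rw [← mul_sub, ← Finset.sum_sub_distrib, hsmul]
      congr 1
      refine Finset.sum_congr rfl fun c _ => ?_
      ring
    rw [e1, e2]
    exact hs
  -- the periods
  set ρ : SL(2, ℤ) → ℂ := fun g => ∑ c : ι × E, y' c *
    (PhiI (R.b c.1) (c.2 : OO A B → ℂ) ∞ (G6c.mI g) / Om) with hρ
  have hρadd : ∀ g ∈ CongruenceSubgroup.Gamma1 N', ∀ g' ∈ CongruenceSubgroup.Gamma1 N',
      ρ (g * g') = ρ g + ρ g' := by
    intro g hg g' hg'
    rw [hρ]
    beta_reduce
    rw [← Finset.sum_add_distrib]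
    refine Finset.sum_congr rfl fun c _ => ?_
    obtain ⟨m1, m2⟩ := G6c.mem1 hg
    have a1 := hG.add c.2 c.2.2 c.1 ∞ (G6c.mI g) (G6c.mI (g * g'))
    have a2 := hG.inv c.2 c.2.2 c.1 (g 0 0) (g 0 1) (g 1 0) (g 1 1) (G6c.det_eq g) m1 m2 ∞
      (G6c.mI g')
    rw [← G6c.mI_mul] at a2
    have a3 : mob (g 0 0) (g 0 1) (g 1 0) (g 1 1) ∞ = G6c.mI g := rfl
    rw [a3] at a2
    rw [← a1, a2]
    ring
  have hM : ∀ g ∈ CongruenceSubgroup.Gamma1 N', ∃ c : OO A B, emb t * ρ g = emb c := by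
    let M : AddSubgroup ℂ := AddSubgroup.comap (AddMonoidHom.mulLeft (emb t))
      (AddMonoidHom.range (eHom hc).toAddMonoidHom)
    have hMm : ∀ x, x ∈ M ↔ ∃ c : OO A B, emb t * x = emb c := by
      intro x
      constructor
      · rintro ⟨c, hc'⟩
        refine ⟨c, ?_⟩
        have e1 : emb t * x = eHom hc c := hc'.symm
        rw [e1, eHom_apply hc]
      · rintro ⟨c, hc'⟩
        refine ⟨c, ?_⟩
        rw [← eHom_apply hc] at hc'
        rw [eHom_apply hc] at hc'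
        show (eHom hc) c = emb t * x
        rw [eHom_apply hc, hc']
    intro g hg
    rw [← hMm]
    refine hfg ρ hρadd M (fun i => ?_) g hg
    rw [hMm]
    have e1 : ρ (h i) = w i := hy' i
    rw [e1]
    exact ht _ (Finset.mem_image_of_mem w (Finset.mem_univ i))
  have hper : ∀ γ ∈ CongruenceSubgroup.Gamma1 N', ∀ τ : ℍ, Z (γ • τ) - Z τ ∈ (R.L R.i0).lattice := by
    intro γ hγ τ
    obtain ⟨m1, m2⟩ := G6c.mem1 hγ
    obtain ⟨x, hx⟩ := hM γ hγ
    rw [(R.nl R.i0).mem]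
    refine ⟨x, by rw [R.b0]; trivial, ?_⟩
    have e1 : Z (γ • τ) - Z τ = Om * (emb t * ρ γ) := by
      rw [hZ, hρ]
      beta_reduce
      rw [hsmul, ← mul_sub, ← Finset.sum_sub_distrib, mul_left_comm Om (emb t), Finset.mul_sum _ _ Om]
      congr 1
      refine Finset.sum_congr rfl fun c _ => ?_
      rw [hG.per c.2 c.2.2 c.1 (γ 0 0) (γ 0 1) (γ 1 0) (γ 1 1) (G6c.det_eq γ) m1 m2 (τ : ℂ) τ.2]
      have a3 : mob (γ 0 0) (γ 0 1) (γ 1 0) (γ 1 1) ∞ = G6c.mI γ := rfl
      rw [a3]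
      field_simp
      ring
    rw [e1, hx]
  -- the denominators
  choose q hqK hq0 hqV hqy using fun c => denom K V (y' c) (hy'K c)
  have hden : ∃ c ∈ K, c ≠ 0 ∧ c ∈ V ∧ ∀ n : ℕ, c * (n * PowerSeries.coeff n z) ∈ V := by
    refine ⟨∏ c, q c, K.prod_mem fun c _ => hqK c, Finset.prod_ne_zero_iff.2 fun c _ => hq0 c,
      prod_mem fun c _ => hqV c, ?_⟩
    intro m
    by_cases hm : m = 0
    · rw [hm]
      simp
    · have e1 : (∏ c, q c) * (m * PowerSeries.coeff m z) = ∑ c : ι × E,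
          (emb t * (∏ c' ∈ Finset.univ.erase c, q c')) * (q c * y' c) * α c.2 c.1 m := by
        rw [hzn, mul_left_comm (m : ℂ), Finset.mul_sum, mul_left_comm, Finset.mul_sum,
          Finset.mul_sum]
        refine Finset.sum_congr rfl fun c _ => ?_
        rw [← Finset.mul_prod_erase Finset.univ q (Finset.mem_univ c)]
        have : (m : ℂ) ≠ 0 := by exact_mod_cast hm
        field_simp
      rw [e1]
      exact sum_mem fun c _ => V.mul_mem _ _ (V.mul_mem _ _ (V.mul_mem _ _ (emb_mem_V hc V t)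
        (prod_mem fun c _ => hqV c)) (hqy c)) (hαV c m)
  have hpV : (l : ℂ) ∈ V.nonunits := by
    have e1 := (hV ((l : ℕ) : OO A B)).2 hP.mem
    have e2 : emb ((l : ℕ) : OO A B) = (l : ℂ) := by
      rw [← eHom_apply hc, map_natCast]
    rwa [e2] at e1
  have hfin := h1 K V l hl hpV N' hG.pos hKζ (R.L R.i0) (R.nl R.i0).nrm hKkap hv1 hv2 Z z hQS
    (fun m => by
      rw [hzn]
      exact K.mul_mem (hKemb t) (sum_mem fun c _ => K.mul_mem (hy'K c)
        (K.div_mem (hαK c m) (natCast_mem _ _))))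
    (by rw [hzn]; simp) hden hcusp hper
  rw [hzn] at hfin
  have e1 : (∑ c : ι × E, y' c * (α c.2 c.1 1 / (1 : ℕ))) = ∑ e : E, y' (R.i0, e) := by
    rw [Fintype.sum_prod_type, Finset.sum_eq_single R.i0]
    · refine Finset.sum_congr rfl fun e _ => ?_
      have := (hα e e.2 R.i0).2.2.1 rfl
      rw [this]
      simp
    · intro i _ hi
      refine Finset.sum_eq_zero fun e _ => ?_
      have := (hα e e.2 i).2.2.2.1 hi
      rw [this]
      simp
    · intro hi
      exact absurd (Finset.mem_univ _) hi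
  rw [e1] at hfin
  have ht1 : emb t ∉ V.nonunits := fun h => htP ((hV t).1 h)
  have ht2 : (emb t)⁻¹ ∈ V := by
    by_contra hcon
    apply ht1
    rw [ValuationSubring.mem_nonunits_iff_or]
    right
    exact hcon
  have ht0 : emb t ≠ 0 := by
    intro h0
    apply ht1
    rw [h0]
    exact V.nonunits.zero_mem
  have := V.mul_mem _ _ ht2 hfin
  rwa [inv_mul_cancel_left₀ ht0] at this

end

end Pool.Agent.MUXN
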