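import Pool.Agent.MUX.StGX
import Pool.Agent.MUX.StYX
import Pool.Agent.MUX.StXT
import Pool.Agent.MUX.StHX2

/-!
# MUX, end of block G (helper3): Theorem G at full level

Glue of `Sg_GTHX` (StGX.lean) with blocks XT (StXT.lean), XF (StXF.lean), section 9 (StYX.lean) and the good reduction of the
normalised lattices. Statements `Sg_X`, modules `MUXN_X`, theorems `tg_X` in `N_X.lean`, namespace `Pool.Agent.MUXN`.
Bridges between the two copies of the definitions: `Pool.Agent.MUXY.cqF`, `liF`, `eiF`, `phiF` (StYX.lean); `thetaI`, `thetaIntI`, `nI`, .. are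
equal by `rfl`; `chiX = MUXF.chiQ`, `nuX = MUXF.nuQ`, and `MUXT.chiQ` (with `-(B² + 4 A)` for `absD A B`) are equal by `rfl` or `unfold`.
-/

set_option autoImplicit false

namespace Pool.Agent.MUXN

open _root_.MU3 Pool.Agent.MU3A Pool.Agent.MU3B Pool.Agent.MU3Q Pool.Agent.MUX Pool.Agent.MuSym
  OnePoint UpperHalfPlane

noncomputable section

/-- (UNIT) the only elements of norm `1` are `1` and `-1`; an element of an ideal `b` with the norm of `b` generates `b`.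

PROOF. `4 nm x = (2 re x + B im x)² + |D| im x²` and `|D| > 4`: `D ≡ 1` modulo `3` or `8` and `B² + 4 A < 0`; `D = -3` and `D = -4` are neither (`-3 - 1 = -4`, `-4 - 1 = -5`); `D = -1, -2` do not occur (`B = 0`: `D ≡ 0`, `B = 1`: `D ≡ 1` modulo `4`).
So `im x = 0`, `re x = ± 1`. Second: `sp x ≤ b`, and `nI (sp x) = nm x = nI b` (`Sx_NIM`), so the finite quotients `O/(x) → O/b` (surjective) have the same cardinality, `b = sp x`. (`Sx_NIM` second part; `x ≠ 0` as `nI b ≠ 0`.) -/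
def Sg_UNIT : Prop :=
  ∀ (p : ℕ) (A B : ℤ) (_ : CaseP p A B), (∀ x : OO A B, nm x = 1 → x = 1 ∨ x = -1) ∧
    ∀ (b : Ideal (OO A B)) (_ : b ≠ ⊥) (x : OO A B), x ∈ b → nm x = nI b → b = sp x

/-- (QXP) the `q`-expansion of `thetaIntI`.

Uses Sg_UNIT, Sx_ALG, Sx_IDL, Sx_QB, Sx_BDD, Sx_TSM. MODEL: `MU3/G_GTE.lean` or `MU3/T_REG.lean` (grouping by the value of the norm: `HasSum.sigma` or `HasSum.tsum_fiberwise`). PROOF. `α n = (1/2) Σ e x conj (emb x)` over the finite set of the `x ∈ b` with `qb b x = n`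
(finite: `nm x = nI b n` bounds the coordinates). `x ↦ -x` is an involution without fixed points for `n ≥ 1` (`e (-x) = -e x`, `conj (emb (-x)) = -conj (emb x)`: the terms of `x` and `-x` are equal), so `α n` is the sum over the half `{im x > 0 or (im x = 0 and re x > 0)}`,
an algebraic integer (`e x` is `0` or a root of unity, `conj (emb x) = emb (star x)` is integral). `K = ℚ(values of e, wC)` as subfield of `ℂ`: finite over `ℚ` (finitely many values: BDD; algebraic). `i = i0`: `b = ⊤`, `nI ⊤ = 1`,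
UNIT: `x = ± 1`, `α 1 = (1/2)(1 + 1)`. `i ≠ i0`: an `x ∈ b_i` with `nm x = nI (b i)` gives `b_i = sp x`, `sp 1 * b_i = sp x * b_(i0)`, so `i = i0` (`R.inj`), no `x` and `α 1 = 0`. The series: `x = 0` contributes `0` (division by `0`), summability of the primitive from TSM at `τ`
(`‖1/(nm x/nI b)‖ ≤ 1` for `x ≠ 0`), `exp (2 π i (nm x/nI b) τ) = q^n`. -/
def Sg_QXP : Prop :=
  ∀ (p : ℕ) (A B : ℤ) (_ : CaseP p A B) (n : ℕ) (ι : Type) (R : Reps A B n ι)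
    (g : Ideal (OO A B)) (_ : g ≠ ⊥) (e : OO A B → ℂ) (_ : IsEI g e) (r : ℕ) (_ : r ≠ 0)
    (_ : ∀ x, e x ≠ 0 → e x ^ r = 1) (i : ι),
    ∃ α : ℕ → ℂ, (∀ n, IsIntegral ℤ (α n)) ∧
      (∃ K : Subfield ℂ, NumberField K ∧ ∀ n, α n ∈ K) ∧ (i = R.i0 → α 1 = 1) ∧
      (i ≠ R.i0 → α 1 = 0) ∧ ∀ τ : ℂ, 0 < τ.im → HasSum (fun n : ℕ => α n / n *
        Complex.exp (2 * Real.pi * Complex.I * τ) ^ n) (thetaIntI (R.b i) e τ)

/-- (GDT) the data for Theorem G.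

Uses Sg_QXP, `MUXT.Xs_FTI`, `MUXF.Sx_CHI`, `MUXF.Sx_IDL`, `MUXY.Sy_CON`, `Sy_ALP`, `Sy_ALM`, `Sy_FEC`, `Sy_COP`, and TorX. PROOF. `g = idl f * cjI P`: `g ≠ ⊥` (`f ≠ 0`, `p ∈ cjI P`: `p * f ∈ g`, `p f ≠ 0`), `g ≠ ⊤` (`g ≤ cjI P`, which is a prime ideal),
`((p f : ℕ) : O) ∈ g`, so Sy_COP with `t = 1`. `E` = the set of the `σ ∘ e`: finite (FEC). Every `e' ∈ E` is `IsEI g e'` (`Sy_CON` first part, or directly), `e' x ≠ 0 → e' x ^ r = 1`. `G = p f`: `e'` is periodic modulo `G` (`G ∈ g`), `e' (-1) = -1`: Xs_FTI applies (`(absD A B) G² ∣ N'`,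
`absD A B = -(B² + 4 A)`). `add`: unfold `PhiI`. `inv`, `per`: `IsSym`, thetaIntI of FTI with `nu d = chiQ d * e' d = 1` for `N' ∣ d - 1`: `absD ∣ N'`, so `chiQ d = chiQ 1 = 1` (Sx_CHI for `n = 1`, `n' = d`: `IsCoprime 1 _`), and `e' d = e' 1 = 1` (`d - 1 ∈ g` as `G ∣ N'`).
`cusp`: FTI, `C = PhiI b e ∞ (γ ∞)`. `qexp`: QXP. `rat`: Sy_CON for `e'` gives `j`, `C` with `σ (PhiI (b i) e' x y/om_(i0)) = C (PhiI (b j) (σ ∘ e') x y/om_(i0))`; multiply by `σ (om_(i0)/om_i)`: `u = C σ(om_(i0)/om_i) om_j/om_(i0)` (`om ≠ 0`); `σ ∘ (τ ∘ e) ∈ E`. `alg`: Sy_ALP. `algo`: Sy_ALM. -/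
def Sg_GDT : Prop :=
  ∀ (p : ℕ) (A B : ℤ) (P : Ideal (OO A B)) (V : ValuationSubring ℂ) (f : ℕ)
    (_ : SetP p A B P V f) (_ : TorX A B) (ι : Type) [Finite ι] (R : Reps A B (p * f) ι)
    (e : OO A B → ℂ) (_ : IsEI (idl f * cjI P) e) (r : ℕ) (_ : r ≠ 0)
    (_ : ∀ x, e x ≠ 0 → e x ^ r = 1) (N' : ℕ) (_ : N' ≠ 0)
    (_ : absD A B * ((p : ℤ) * f) ^ 2 ∣ (N' : ℤ)),
    ∃ E : Set (OO A B → ℂ), e ∈ E ∧ GDat R E N'

/-- (GRX) good ordinary reduction of the normalised lattices, for both `p` (p = 2: `S2_GD2` of StR2.lean; p = 3: block XR, helper51). -/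
def Sg_GRX : Prop :=
  ∀ (p : ℕ) (A B : ℤ) (_ : CaseP p A B) (P : Ideal (OO A B)) (_ : IsPN p P)
    (V : ValuationSubring ℂ) (_ : OverI V P) (b : Ideal (OO A B)) (L : PeriodPair) (om : ℂ)
    (_ : IsNL b L om), IsAlgebraic ℚ (kap L) ∧ V.valuation (kap L) = 1 ∧
      V.valuation (1 + 1728 * kap L) = 1

/-- (GFX) Theorem G: the input `Sy_GX` of block H (StHX2.lean), for both `p`. (The older `Sg_GFIN` of StGX.lean is not used.) -/
theorem tg_GFX (hT : ∀ A B : ℤ, CQ A B → TorX A B) (hG : Sg_GTHX) (hD : Sg_GDT)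
    (hR : Sg_GRX) (hU : MUXHY.Sy_ROU) (hB : ∀ (p : ℕ) (A B : ℤ) (P : Ideal (OO A B))
      (V : ValuationSubring ℂ) (f : ℕ), SetP p A B P V f → idl f * cjI P ≠ ⊥) : MUXHY.Sy_GX := by
  intro p A B P V f hS ι _ R e he kk _ _ hkk N' hN hN'
  obtain ⟨r, hr, her⟩ := hU A B hS.case.toCQ _ e (hB p A B P V f hS) he
  obtain ⟨E, heE, hE⟩ := hD p A B P V f hS (hT A B hS.case.toCQ) ι R e he r hr her N' hN hN'
  have hp : p.Prime := by
    rcases hS.case.split with h | h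
    · rw [h.1]; exact Nat.prime_three
    · rw [h.1]; exact Nat.prime_two
  obtain ⟨h1, h2, h3⟩ := hR p A B hS.case P hS.hP V hS.hV _ _ _ (R.nl R.i0)
  obtain ⟨a, b, c, d, h4, h5, h6, h7⟩ := hG A B hS.case.toCQ (p * f) ι R E N' hE p hp P hS.hP V
    hS.hV h1 h2 h3 e heE kk (fun h => by
      rw [ValuationSubring.mem_nonunits_iff] at h
      exact absurd hkk h.ne)
  refine ⟨a, b, c, d, h4, h5, h6, ?_⟩
  rw [ValuationSubring.mem_nonunits_iff] at h7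
  exact not_lt.mp h7

end

end Pool.Agent.MUXN
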