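import Pool.Agent.MUX.StIX

/-!
# MUX, block IX: module EPS3, the sign function, the odd character and the sign `s` for `p = 3`
-/

set_option autoImplicit false

namespace Pool.Agent.MUXI

open _root_.MU3 Pool.Agent.MU3 Pool.Agent.MU3A Pool.Agent.MU3B Pool.Agent.RI Pool.Agent.RID
  Pool.Agent.MUX Pool.Agent.MUXE Pool.Agent.MUXK
open Pool.Agent.MU3I (w3 zt)

noncomputable section

namespace EPS3

variable {A B : ℤ}

/-- `O / Q` has the classes `0, 1, -1` -/
structure QI (Q : Ideal (OO A B)) : Prop where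
  rep : ∀ x : OO A B, ∃ n : ℤ, x - n ∈ Q
  int : ∀ n : ℤ, (n : OO A B) ∈ Q ↔ (3 : ℤ) ∣ n

lemma w3_mul (a b : ℤ) : w3 (a * b) = w3 a * w3 b := by
  have ha : a % 3 = 0 ∨ a % 3 = 1 ∨ a % 3 = 2 := by omega
  have hb : b % 3 = 0 ∨ b % 3 = 1 ∨ b % 3 = 2 := by omega
  unfold w3
  rcases ha with ha | ha | ha <;> rcases hb with hb | hb | hb <;>
    simp [Int.mul_emod, ha, hb]

lemma w3_ne (a : ℤ) : w3 a ≠ 0 ↔ ¬ (3 : ℤ) ∣ a := by
  have ha : a % 3 = 0 ∨ a % 3 = 1 ∨ a % 3 = 2 := by omega
  unfold w3
  rcases ha with ha | ha | ha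
  · simp [ha]
    omega
  · simp [ha]
    omega
  · simp [ha]
    omega

lemma w3_sq {a : ℤ} (h : ¬ (3 : ℤ) ∣ a) : w3 a ^ 2 = 1 := by
  have ha : a % 3 = 1 ∨ a % 3 = 2 := by omega
  unfold w3
  rcases ha with ha | ha <;> simp [ha]

lemma w3_neg (a : ℤ) : w3 (-a) = -w3 a := by
  have h : w3 (-1) = -1 := by decide
  rw [← neg_one_mul, w3_mul, h, neg_one_mul]

section qi

variable {Q : Ideal (OO A B)}

lemma mem_iff (hq : QI Q) {x : OO A B} {n : ℤ} (h : x - n ∈ Q) : x ∈ Q ↔ (3 : ℤ) ∣ n := by
  rw [← hq.int]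
  constructor
  · intro h'
    have := Q.sub_mem h' h
    rwa [sub_sub_cancel] at this
  · intro h'
    have := Q.add_mem h h'
    rwa [sub_add_cancel] at this

lemma wP_eq (hq : QI Q) {x : OO A B} {n : ℤ} (h : x - n ∈ Q) : wP Q x = w3 n := by
  have h0 : x ∈ Q ↔ (3 : ℤ) ∣ n := mem_iff hq h
  have h1 : x - 1 ∈ Q ↔ (3 : ℤ) ∣ n - 1 := by
    apply mem_iff hq
    have e : x - 1 - ((n - 1 : ℤ) : OO A B) = x - n := by
      push_cast
      ring
    rwa [e]
  unfold wP w3
  by_cases c0 : x ∈ Q
  · have := h0.1 c0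
    have r1 : ¬ n % 3 = 1 := by omega
    have r2 : ¬ n % 3 = 2 := by omega
    rw [if_pos c0, if_neg r1, if_neg r2]
  · have c0' : ¬ (3 : ℤ) ∣ n := fun h => c0 (h0.2 h)
    rw [if_neg c0]
    by_cases c1 : x - 1 ∈ Q
    · have := h1.1 c1
      have r1 : n % 3 = 1 := by omega
      rw [if_pos c1, if_pos r1]
    · have c1' : ¬ (3 : ℤ) ∣ n - 1 := fun h => c1 (h1.2 h)
      have r1 : ¬ n % 3 = 1 := by omega
      have r2 : n % 3 = 2 := by omega
      rw [if_neg c1, if_neg r1, if_pos r2]

lemma wP_mul (hq : QI Q) (x y : OO A B) : wP Q (x * y) = wP Q x * wP Q y := by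
  obtain ⟨n, hn⟩ := hq.rep x
  obtain ⟨m, hm⟩ := hq.rep y
  have h : x * y - ((n * m : ℤ) : OO A B) ∈ Q := by
    have e : x * y - ((n * m : ℤ) : OO A B) = x * (y - m) + m * (x - n) := by
      push_cast
      ring
    rw [e]
    exact Q.add_mem (Q.mul_mem_left _ hm) (Q.mul_mem_left _ hn)
  rw [wP_eq hq h, wP_eq hq hn, wP_eq hq hm, w3_mul]

lemma wP_per (hq : QI Q) {x y : OO A B} (h : x - y ∈ Q) : wP Q x = wP Q y := by
  obtain ⟨m, hm⟩ := hq.rep y
  have h' : x - m ∈ Q := by
    have := Q.add_mem h hm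
    have e : x - y + (y - m) = x - m := by ring
    rwa [e] at this
  rw [wP_eq hq h', wP_eq hq hm]

lemma wP_neg (hq : QI Q) (x : OO A B) : wP Q (-x) = -wP Q x := by
  obtain ⟨n, hn⟩ := hq.rep x
  have h : -x - ((-n : ℤ) : OO A B) ∈ Q := by
    have e : -x - ((-n : ℤ) : OO A B) = -(x - n) := by
      push_cast
      ring
    rw [e]
    exact Q.neg_mem hn
  rw [wP_eq hq h, wP_eq hq hn, w3_neg]

lemma wP_ne (hq : QI Q) (x : OO A B) : wP Q x ≠ 0 ↔ x ∉ Q := by
  obtain ⟨n, hn⟩ := hq.rep x
  rw [wP_eq hq hn, w3_ne, mem_iff hq hn]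

lemma wP_sq (hq : QI Q) {x : OO A B} (h : x ∉ Q) : wP Q x ^ 2 = 1 := by
  obtain ⟨n, hn⟩ := hq.rep x
  rw [mem_iff hq hn] at h
  rw [wP_eq hq hn, w3_sq h]

lemma cases (hq : QI Q) {x : OO A B} (h : x ∉ Q) :
    (x - 1 ∈ Q ∧ wP Q x = 1) ∨ (x + 1 ∈ Q ∧ wP Q x = -1) := by
  by_cases c1 : x - 1 ∈ Q
  · left
    refine ⟨c1, ?_⟩
    unfold wP
    rw [if_neg h, if_pos c1]
  · right
    refine ⟨?_, ?_⟩
    · obtain ⟨n, hn⟩ := hq.rep x
      have c1' : ¬ (3 : ℤ) ∣ n - 1 := by
        intro h3
        apply c1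
        have := Q.add_mem hn ((hq.int _).2 h3)
        have e : x - n + ((n - 1 : ℤ) : OO A B) = x - 1 := by
          push_cast
          ring
        rwa [e] at this
      rw [mem_iff hq hn] at h
      have h3 : (3 : ℤ) ∣ n + 1 := by omega
      have := Q.add_mem hn ((hq.int _).2 h3)
      have e : x - n + ((n + 1 : ℤ) : OO A B) = x + 1 := by
        push_cast
        ring
      rwa [e] at this
    · unfold wP
      rw [if_neg h, if_neg c1]

end qi

lemma mem_cj {P : Ideal (OO A B)} {x : OO A B} : x ∈ cjI P ↔ star x ∈ P := Iff.rfl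

lemma qi_cj {P : Ideal (OO A B)} (hq : QI P) : QI (cjI P) := by
  refine ⟨fun x => ?_, fun n => ?_⟩
  · obtain ⟨n, hn⟩ := hq.rep (star x)
    refine ⟨n, ?_⟩
    rw [mem_cj, star_sub, star_intCast]
    exact hn
  · rw [mem_cj, star_intCast]
    exact hq.int n

lemma w3_nm {P : Ideal (OO A B)} (hp : QI P) (x : OO A B)
    (hx : x * star x = ((nm x : ℤ) : OO A B)) : w3 (nm x) = wP P x * wP (cjI P) x := by
  obtain ⟨n, hn⟩ := hp.rep x
  obtain ⟨m, hm⟩ := (qi_cj hp).rep x
  rw [wP_eq hp hn, wP_eq (qi_cj hp) hm, ← w3_mul]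
  have h1 : star x - m ∈ P := by
    rw [mem_cj, star_sub, star_intCast] at hm
    exact hm
  have h2 : ((nm x : ℤ) : OO A B) - ((n * m : ℤ) : OO A B) ∈ P := by
    rw [← hx]
    have e : x * star x - ((n * m : ℤ) : OO A B) = star x * (x - n) + n * (star x - m) := by
      push_cast
      ring
    rw [e]
    exact P.add_mem (P.mul_mem_left _ hn) (P.mul_mem_left _ h1)
  have h3 : ((nm x : ℤ) : OO A B) - ((nm x : ℤ) : OO A B) ∈ P := by
    rw [sub_self]
    exact P.zero_mem
  rw [← wP_eq hp h2, ← wP_eq hp h3]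

lemma cop_congr {g : Ideal (OO A B)} {x y : OO A B} (h : x - y ∈ g)
    (hx : IsCoprime (sp x) g) : IsCoprime (sp y) g := by
  rw [Ideal.isCoprime_iff_exists] at hx ⊢
  obtain ⟨i, hi, j, hj, hij⟩ := hx
  obtain ⟨c, rfl⟩ := Ideal.mem_span_singleton'.1 hi
  refine ⟨c * y, Ideal.mem_span_singleton'.2 ⟨c, rfl⟩, c * (x - y) + j,
    g.add_mem (g.mul_mem_left _ h) hj, ?_⟩
  rw [← hij]
  ring

end EPS3

open EPS3 in
/-- EPS3. -/
theorem ti_EPS3 (h1 : Si_PQF) (h2 : Pool.Agent.MUXF.Sx_ALG) : Si_EPS3 := by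
  intro A B P V f hset e0 h01 hm1 hmul hper hsupp
  obtain ⟨hcl, h1P, hint, hPP, -, hfP, -, hcop, -, -⟩ := h1 3 A B P V f hset
  have hnm : ∀ x : OO A B, x * star x = ((nm x : ℤ) : OO A B) := fun x =>
    ((h2 A B (Pool.Agent.MUXY.cqF hset.case.toCQ)).2.1 x).2.2.2.2.1
  have q1 : QI P := by
    refine ⟨fun x => ?_, fun n => ?_⟩
    · rcases hcl x with h | h | h
      · exact ⟨0, by simpa using h⟩
      · exact ⟨1, by simpa using h⟩
      · exact ⟨-1, by simpa using h⟩
    · exact hint n
  have q2 : QI (cjI P) := qi_cj q1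
  have h3P : (3 : OO A B) ∈ P := by
    have := (hint 3).2 (by norm_num)
    exact_mod_cast this
  have hlvP : ∀ n : ℕ, ∀ z ∈ idl (A := A) (B := B) (lvX 3 f n), z ∈ P := by
    intro n z hz
    obtain ⟨c, rfl⟩ := Ideal.mem_span_singleton'.1 hz
    apply P.mul_mem_left
    have e : ((lvX 3 f n : ℕ) : OO A B) = ((f : OO A B) * 3 ^ n) * 3 := by
      unfold lvX q0
      push_cast
      ring
    rw [e]
    exact P.mul_mem_left _ h3P
  refine ⟨fun n => ?_, ?_⟩
  · constructor
    · intro x y h
      exact wP_per q1 (hlvP n _ h)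
    · intro x hx
      rcases cases q1 ((hcop n x).1 hx).1 with h | h
      · exact Or.inl h.2
      · exact Or.inr h.2
    · exact wP_neg q1
    · intro x hx
      rw [sub_self]
      exact dvd_zero _
  · have hsc : ∀ x : OO A B, e0 x ≠ 0 ↔ x ∉ P ∧ IsCoprime (sp x) (idl f * cjI P) := fun x =>
      (hsupp x).trans (hcop 0 x)
    -- the ideal `g`
    have hPc : IsCoprime P (cjI P) := (h1 3 A B P V f hset).2.2.2.2.1
    have hlev : idl (A := A) (B := B) (lvX 3 f 0) = (idl f * cjI P) * P := by
      have e : ((lvX 3 f 0 : ℕ) : OO A B) = (f : OO A B) * ((3 : ℕ) : OO A B) := by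
        unfold lvX q0
        push_cast
        ring
      rw [mul_assoc, mul_comm (cjI P) P, hPP]
      change Ideal.span {((lvX 3 f 0 : ℕ) : OO A B)} = _
      rw [e, ← Ideal.span_singleton_mul_span_singleton]
    have hgP : IsCoprime (idl f * cjI P) P := IsCoprime.mul_left hfP hPc.symm
    set g : Ideal (OO A B) := idl f * cjI P with hg
    have hgc : g ≤ cjI P := Ideal.mul_le_right
    obtain ⟨a, ha, b, hb, hab⟩ := Ideal.isCoprime_iff_exists.1 hgP
    have hmem : ∀ z : OO A B, z ∈ g → z ∈ P → z ∈ idl (A := A) (B := B) (lvX 3 f 0) := by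
      intro z hz1 hz2
      rw [hlev]
      have e : z = a * z + z * b := by
        linear_combination (-z) * hab
      rw [e]
      exact Ideal.add_mem _ (Ideal.mul_mem_mul ha hz2) (Ideal.mul_mem_mul hz1 hb)
    set T : OO A B → OO A B := fun x => x * b + a with hT
    have hT1 : T 1 = 1 := by
      rw [hT]
      linear_combination hab
    have Tg : ∀ x, T x - x ∈ g := by
      intro x
      have e : T x - x = (1 - x) * a := by
        rw [hT]
        linear_combination x * hab
      rw [e]
      exact g.mul_mem_left _ ha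
    have Tp : ∀ x, T x - 1 ∈ P := by
      intro x
      have e : T x - 1 = (x - 1) * b := by
        rw [hT]
        linear_combination hab
      rw [e]
      exact P.mul_mem_left _ hb
    have TP : ∀ x, T x ∉ P := by
      intro x hx
      apply h1P
      have := P.sub_mem hx (Tp x)
      rwa [sub_sub_cancel] at this
    have hesupp : ∀ x, e0 (T x) ≠ 0 ↔ IsCoprime (sp x) g := by
      intro x
      rw [hsc]
      constructor
      · exact fun h => cop_congr (Tg x) h.2
      · intro h
        refine ⟨TP x, cop_congr ?_ h⟩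
        rw [← neg_sub]
        exact g.neg_mem (Tg x)
    have eper : ∀ x y, x - y ∈ g → e0 (T x) = e0 (T y) := by
      intro x y h
      apply hper
      apply hmem
      · have e : T x - T y = b * (x - y) := by
          rw [hT]
          ring
        rw [e]
        exact g.mul_mem_left _ h
      · have e : T x - T y = (x - y) * b := by
          rw [hT]
          ring
        rw [e]
        exact P.mul_mem_left _ hb
    have emul : ∀ x y, e0 (T (x * y)) = e0 (T x) * e0 (T y) := by
      intro x y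
      rw [← hmul]
      apply hper
      apply hmem
      · have e : T (x * y) - T x * T y = (T (x * y) - x * y) - (T x * (T y - y) + y * (T x - x)) := by
          ring
        rw [e]
        exact g.sub_mem (Tg _) (g.add_mem (g.mul_mem_left _ (Tg y)) (g.mul_mem_left _ (Tg x)))
      · have e : T (x * y) - T x * T y = (T (x * y) - 1) - (T x * (T y - 1) + (T x - 1)) := by
          ring
        rw [e]
        exact P.sub_mem (Tp _) (P.add_mem (P.mul_mem_left _ (Tp y)) (Tp x))
    have hη : e0 (T (-1)) ^ 2 = 1 := by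
      rw [sq, ← emul, neg_one_mul, neg_neg, hT1, h01]
    have f1 : ∀ x, x - 1 ∈ P → e0 x = e0 (T x) := by
      intro x hx
      apply hper
      apply hmem
      · rw [← neg_sub]
        exact g.neg_mem (Tg x)
      · have e : x - T x = (x - 1) - (T x - 1) := by ring
        rw [e]
        exact P.sub_mem hx (Tp x)
    have f2 : ∀ x, x + 1 ∈ P → e0 x = e0 (T (-1)) * e0 (T x) := by
      intro x hx
      have e1 : e0 (-x) = e0 x := by
        rw [← neg_one_mul, hmul, hm1, one_mul]
      have e2 : -x - 1 ∈ P := by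
        have e : -x - 1 = -(x + 1) := by ring
        rw [e]
        exact P.neg_mem hx
      rw [← e1, f1 _ e2, ← emul, neg_one_mul]
    have npbx : ∀ x, IsCoprime (sp x) g → x ∉ cjI P := by
      intro x hx hd
      rw [Ideal.isCoprime_iff_exists] at hx
      obtain ⟨i, hi, j, hj, hij⟩ := hx
      obtain ⟨c, rfl⟩ := Ideal.mem_span_singleton'.1 hi
      have h3 : (1 : OO A B) ∈ cjI P := by
        rw [← hij]
        exact Ideal.add_mem _ (Ideal.mul_mem_left _ _ hd) (hgc hj)
      rw [mem_cj, star_one] at h3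
      exact h1P h3
    rcases mul_self_eq_one_iff.1 ((sq _).symm.trans hη) with hη1 | hη1
    · -- case `η = 1`
      refine ⟨fun x => e0 (T x) * (wP (cjI P) x : ℂ), -1, ?_, Or.inr rfl, ?_⟩
      · constructor
        · have h3 : wP (cjI P) (1 : OO A B) = 1 := by
            have h4 : (1 : OO A B) - ((1 : ℤ) : OO A B) ∈ cjI P := by
              push_cast
              rw [sub_self]
              exact Ideal.zero_mem _
            rw [wP_eq q2 h4]
            decide
          change e0 (T 1) * (wP (cjI P) (1 : OO A B) : ℂ) = 1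
          rw [h3, hT1, h01]
          norm_num
        · intro x y
          change e0 (T (x * y)) * (wP (cjI P) (x * y) : ℂ) = _
          rw [emul, wP_mul q2]
          push_cast
          ring
        · intro x y h
          change e0 (T x) * (wP (cjI P) x : ℂ) = e0 (T y) * (wP (cjI P) y : ℂ)
          rw [eper x y h, wP_per q2 (hgc h)]
        · intro x
          change e0 (T x) * (wP (cjI P) x : ℂ) ≠ 0 ↔ _
          rw [mul_ne_zero_iff, hesupp]
          constructor
          · exact fun h => h.1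
          · intro h
            refine ⟨h, ?_⟩
            have := (wP_ne q2 x).2 (npbx x h)
            exact_mod_cast this
        · have h3 : wP (cjI P) (-1 : OO A B) = -1 := by
            have h4 : (-1 : OO A B) - ((-1 : ℤ) : OO A B) ∈ cjI P := by
              push_cast
              rw [sub_self]
              exact Ideal.zero_mem _
            rw [wP_eq q2 h4]
            decide
          change e0 (T (-1)) * (wP (cjI P) (-1 : OO A B) : ℂ) = -1
          rw [h3, hη1]
          norm_num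
      · intro x hx
        obtain ⟨hxP, hxg⟩ := (hcop 0 x).1 hx
        have h3 : (wP (cjI P) x : ℂ) ^ 2 = 1 := by
          have := wP_sq q2 (npbx x hxg)
          exact_mod_cast this
        have h4 : e0 x = e0 (T x) := by
          rcases cases q1 hxP with ⟨h5, -⟩ | ⟨h5, -⟩
          · exact f1 x h5
          · rw [f2 x h5, hη1, one_mul]
        rw [if_neg (by norm_num), w3_nm q1 x (hnm x), h4]
        push_cast
        linear_combination (-(e0 (T x) * (wP P x : ℂ))) * h3
    · -- case `η = -1`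
      refine ⟨fun x => e0 (T x), 1, ?_, Or.inl rfl, ?_⟩
      · constructor
        · change e0 (T 1) = 1
          rw [hT1, h01]
        · exact emul
        · exact eper
        · exact hesupp
        · exact hη1
      · intro x hx
        obtain ⟨hxP, hxg⟩ := (hcop 0 x).1 hx
        rw [if_pos rfl, mul_one]
        rcases cases q1 hxP with ⟨h5, h6⟩ | ⟨h5, h6⟩
        · rw [h6, f1 x h5]
          norm_num
        · rw [h6, f2 x h5, hη1]
          push_cast
          ring

end

end Pool.Agent.MUXI
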