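import Pool.Agent.MUX.StHN
import Pool.Agent.MUX.HX_HZ

/-!
# MUX-NS, block HN, module DVN (helper19)

The character sums of a depleted function with values of one type: `tn_DVN : Sn_DVN`.

The doc string of `Sn_DVN` works with a function `W'` on `range (3 q)`; as `W' (b + 2 q) = 0` it is enough to sum over
`range (2 q)`, and then the Newton expansion has only the coefficients `c_k`, `k < 2 q`: a `b` with `v (W' b) = 1`
gives directly (Newton expansion of the indicator function of `b`) a `k < 2 q` with `v (c_k) = 1`.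
-/

set_option autoImplicit false

namespace Pool.Agent.MUXHN

open _root_.MU3 Pool.Agent.MuSym Pool.Agent.MUXH OnePoint

noncomputable section

namespace Dvn

/-- the sum of a depleted function against the powers of `ζ` -/
theorem sum_dep (q : ℕ) (ζ : ℂ) (W : ℕ → ℂ) (hW : ∀ b < q, W b + W (b + q) + W (b + 2 * q) = 0) :
    ∑ b ∈ Finset.range (3 * q), ζ ^ b * W b =
      (1 - ζ ^ q) * ∑ b ∈ Finset.range (2 * q),
        ζ ^ b * (if b < q then W b else W (b - q) + W b) := by
  have h1 : ∑ b ∈ Finset.range (3 * q), ζ ^ b * W b =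
      ∑ b ∈ Finset.range q, (ζ ^ b * W b + ζ ^ (q + b) * W (q + b) +
        ζ ^ (q + q + b) * W (q + q + b)) := by
    rw [show 3 * q = q + q + q by ring, Finset.sum_range_add, Finset.sum_range_add,
      Finset.sum_add_distrib, Finset.sum_add_distrib]
  have h2 : ∑ b ∈ Finset.range (2 * q), ζ ^ b * (if b < q then W b else W (b - q) + W b) =
      ∑ b ∈ Finset.range q, (ζ ^ b * W b + ζ ^ (q + b) * (W b + W (q + b))) := by
    rw [two_mul, Finset.sum_range_add, Finset.sum_add_distrib]
    refine congrArg₂ (· + ·) ?_ ?_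
    · refine Finset.sum_congr rfl fun b hb => ?_
      rw [if_pos (Finset.mem_range.1 hb)]
    · refine Finset.sum_congr rfl fun b _ => ?_
      rw [if_neg (by omega), Nat.add_sub_cancel_left]
  rw [h1, h2, Finset.mul_sum]
  refine Finset.sum_congr rfl fun b hb => ?_
  have h3 := hW b (Finset.mem_range.1 hb)
  rw [show b + q = q + b by ring, show b + 2 * q = q + q + b by ring] at h3
  have h4 : W (q + q + b) = -W b - W (q + b) := by linear_combination h3
  rw [h4, pow_add, pow_add, pow_add]
  ring

end Dvn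

open Dvn Hz in
theorem tn_DVN : Sn_DVN := by
  intro V hV K hK n y hper hdep hyK b₀ hb₀ ζ hζ
  set q := 3 ^ n with hq
  have hqpos : 0 < q := by positivity
  have hN : 3 ^ (n + 1) = 3 * q := by rw [pow_succ]; ring
  have h3pos : (0 : V.ValueGroup) < V.valuation (3 : ℂ) :=
    lt_of_le_of_ne zero_le ((Valuation.ne_zero_iff _).2 (by norm_num)).symm
  -- the maximal value
  obtain ⟨bs, hbs, hmax⟩ := Finset.exists_max_image (Finset.range (3 * q))
    (fun b : ℕ => V.valuation (y b)) ⟨0, Finset.mem_range.2 (by omega)⟩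
  have hge : V.valuation (y b₀) ≤ V.valuation (y bs) := by
    have hpos : (0 : ℤ) < (3 : ℤ) ^ (n + 1) := by positivity
    have h0 := Int.emod_nonneg b₀ hpos.ne'
    have h1 := Int.emod_lt_of_pos b₀ hpos
    have h2 : y b₀ = y (((b₀ % (3 : ℤ) ^ (n + 1)).toNat : ℕ) : ℤ) := by
      rw [Int.toNat_of_nonneg h0]
      refine hper _ _ ?_
      have := Int.emod_add_mul_ediv b₀ ((3 : ℤ) ^ (n + 1))
      exact ⟨b₀ / (3 : ℤ) ^ (n + 1), by linarith⟩
    rw [h2]
    refine hmax _ (Finset.mem_range.2 ?_)
    have h3 : (((b₀ % (3 : ℤ) ^ (n + 1)).toNat : ℕ) : ℤ) < ((3 * q : ℕ) : ℤ) := by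
      rw [Int.toNat_of_nonneg h0, ← hN]
      push_cast
      exact h1
    exact_mod_cast h3
  have hbs2 : 1 ≤ V.valuation (y bs) ^ 2 * V.valuation (3 : ℂ) :=
    hb₀.trans (mul_le_mul_left (pow_le_pow_left₀ zero_le hge 2) _)
  have hys0 : y bs ≠ 0 := by
    intro h
    rw [h, map_zero, zero_pow two_ne_zero, zero_mul] at hbs2
    exact absurd hbs2 (not_le.2 zero_lt_one)
  have hvs0 : (0 : V.ValueGroup) < V.valuation (y bs) :=
    lt_of_le_of_ne zero_le ((Valuation.ne_zero_iff _).2 hys0).symm
  set W : ℕ → ℂ := fun b => y b / y bs with hWdef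
  have hWK : ∀ b, W b ∈ K := fun b => hyK b bs hys0
  have hW1 : ∀ b < 3 * q, V.valuation (W b) ≤ 1 := by
    intro b hb
    have := hmax b (Finset.mem_range.2 hb)
    simp only [hWdef, map_div₀]
    exact div_le_one_of_le₀ this zero_le
  have hWdep : ∀ b < q, W b + W (b + q) + W (b + 2 * q) = 0 := by
    intro b _
    have h1 := hdep b
    simp only [Finset.sum_range_succ, Finset.sum_range_zero, zero_add, Nat.cast_zero, zero_mul,
      add_zero, Nat.cast_one, one_mul, Nat.cast_ofNat] at h1
    simp only [hWdef]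
    rw [← add_div, ← add_div]
    refine div_eq_zero_iff.2 (Or.inl ?_)
    have e1 : (((b + q : ℕ)) : ℤ) = (b : ℤ) + 3 ^ n := by push_cast [hq]; ring
    have e2 : (((b + 2 * q : ℕ)) : ℤ) = (b : ℤ) + 2 * 3 ^ n := by push_cast [hq]; ring
    rw [e1, e2]
    exact h1
  set W' : ℕ → ℂ := fun b => if b < q then W b else W (b - q) + W b with hW'def
  have hW'K : ∀ b, W' b ∈ K := by
    intro b
    simp only [hW'def]
    split_ifs
    · exact hWK _
    · exact add_mem (hWK _) (hWK _)
  have hW'1 : ∀ b < 2 * q, V.valuation (W' b) ≤ 1 := by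
    intro b hb
    simp only [hW'def]
    split_ifs
    · exact hW1 _ (by omega)
    · exact Valuation.map_add_le _ (hW1 _ (by omega)) (hW1 _ (by omega))
  -- some value of `W'` is a unit
  have hex0 : ∃ b < 2 * q, V.valuation (W' b) = 1 := by
    by_contra hcon
    have hlt : ∀ b < 2 * q, V.valuation (W' b) < 1 := fun b hb =>
      lt_of_le_of_ne (hW'1 b hb) fun h => hcon ⟨b, hb, h⟩
    have ha : ∀ b < q, V.valuation (W b) < 1 := by
      intro b hb
      have := hlt b (by omega)
      simp only [hW'def, if_pos hb] at this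
      exact this
    have hb : ∀ b < q, V.valuation (W (b + q)) < 1 := by
      intro b hb
      have h1 := hlt (b + q) (by omega)
      simp only [hW'def] at h1
      rw [if_neg (by omega), Nat.add_sub_cancel] at h1
      have h2 : W (b + q) = (W b + W (b + q)) - W b := by ring
      rw [h2]
      exact lt_of_le_of_lt (Valuation.map_sub _ _ _) (max_lt h1 (ha b hb))
    have hc : ∀ b < q, V.valuation (W (b + 2 * q)) < 1 := by
      intro b hb'
      have h1 := hWdep b hb'
      have h2 : W (b + 2 * q) = - (W b + W (b + q)) := by linear_combination h1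
      rw [h2, Valuation.map_neg]
      exact Valuation.map_add_lt _ (ha b hb') (hb b hb')
    have hbs' := Finset.mem_range.1 hbs
    have h1 : V.valuation (W bs) < 1 := by
      rcases lt_or_ge bs q with h | h
      · exact ha bs h
      · rcases lt_or_ge bs (2 * q) with h' | h'
        · have := hb (bs - q) (by omega)
          rwa [Nat.sub_add_cancel h] at this
        · have := hc (bs - 2 * q) (by omega)
          rwa [Nat.sub_add_cancel h'] at this
    have h2 : W bs = 1 := div_self hys0
    rw [h2, map_one] at h1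
    exact lt_irrefl _ h1
  set c : ℕ → ℂ := fun k => ∑ b ∈ Finset.range (2 * q), ((b.choose k : ℕ) : ℂ) * W' b with hc
  have hcK : ∀ k, c k ∈ K := fun k =>
    sum_mem fun b _ => mul_mem (natCast_mem K _) (hW'K _)
  have hc1 : ∀ k, V.valuation (c k) ≤ 1 := fun k =>
    Valuation.map_sum_le _ fun b hb => by
      rw [map_mul]
      exact mul_le_one' (val_nat V _) (hW'1 _ (Finset.mem_range.1 hb))
  have hex1 : ∃ k, k < 2 * q ∧ V.valuation (c k) = 1 := by
    by_contra hcon
    have hlt : ∀ k < 2 * q, V.valuation (c k) < 1 := fun k hk =>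
      lt_of_le_of_ne (hc1 k) fun h => hcon ⟨k, hk, h⟩
    obtain ⟨b₁, hb₁, hb₁v⟩ := hex0
    have h1 := newton (2 * q) W' (fun b => if b = b₁ then 1 else 0)
    have h2 : ∑ b ∈ Finset.range (2 * q), (((if b = b₁ then 1 else 0 : ℤ)) : ℂ) * W' b
        = W' b₁ := by
      rw [Finset.sum_eq_single b₁]
      · simp
      · intro b _ hb
        rw [if_neg hb]
        simp
      · intro h
        exact absurd (Finset.mem_range.2 hb₁) h
    rw [h2] at h1
    have h3 : V.valuation (W' b₁) < 1 := by
      rw [h1]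
      refine Valuation.map_sum_lt _ one_ne_zero fun k hk => ?_
      rw [map_mul]
      exact lt_of_le_of_lt (mul_le_of_le_one_left' (val_int V _))
        (hlt k (Finset.mem_range.1 hk))
    exact absurd hb₁v h3.ne
  classical
  obtain ⟨hk₀, hk₁⟩ := Nat.find_spec hex1
  set k₀ := Nat.find hex1 with hk₀def
  have hmin : ∀ k < k₀, V.valuation (c k) ≤ V.valuation (3 : ℂ) := by
    intro k hk
    refine hK _ (hcK k) (lt_of_le_of_ne (hc1 k) fun h => ?_)
    exact Nat.find_min hex1 hk ⟨lt_trans hk hk₀, h⟩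
  -- the valuation of `ζ - 1`
  have hx : V.valuation (ζ - 1) ^ (2 * q) = V.valuation (3 : ℂ) := by
    have := val_p 3 Nat.prime_three V n ζ hζ
    rw [show 3 ^ n * (3 - 1) = 2 * q by rw [hq]; omega] at this
    simpa using this
  set x := V.valuation (ζ - 1) with hxdef
  have hx0 : 0 < x := by
    refine lt_of_le_of_ne zero_le fun h => ?_
    rw [← h, zero_pow (by omega)] at hx
    exact h3pos.ne hx
  have hx1 : x < 1 := by
    by_contra h
    have h1 : 1 ≤ x := not_lt.1 h
    have : 1 ≤ x ^ (2 * q) := one_le_pow₀ h1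
    rw [hx] at this
    exact absurd this (not_le.2 hV)
  have hval : V.valuation (∑ b ∈ Finset.range (2 * q), ζ ^ b * W' b) = x ^ k₀ := by
    rw [shift_pow (2 * q) W' ζ]
    have hk₀N : k₀ ∈ Finset.range (2 * q) := Finset.mem_range.2 hk₀
    rw [← Finset.add_sum_erase _ _ hk₀N]
    have ha : V.valuation ((ζ - 1) ^ k₀ * c k₀) = x ^ k₀ := by
      rw [map_mul, map_pow, hk₁, mul_one]
    have hb : V.valuation (∑ k ∈ (Finset.range (2 * q)).erase k₀, (ζ - 1) ^ k * c k)
        < x ^ k₀ := by
      refine Valuation.map_sum_lt _ (pow_pos hx0 k₀).ne' fun k hk => ?_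
      have hne := Finset.ne_of_mem_erase hk
      rw [map_mul, map_pow]
      rcases lt_or_gt_of_ne hne with hlt | hgt
      · refine lt_of_le_of_lt (mul_le_of_le_one_left' (pow_le_one' hx1.le k)) ?_
        refine lt_of_le_of_lt (hmin k hlt) ?_
        rw [← hx]
        exact pow_lt_pow_right_of_lt_one₀ hx0 hx1 hk₀
      · refine lt_of_le_of_lt (mul_le_of_le_one_right' (hc1 k)) ?_
        exact pow_lt_pow_right_of_lt_one₀ hx0 hx1 hgt
    have := Valuation.map_add_eq_of_lt_left V.valuation (x := (ζ - 1) ^ k₀ * c k₀)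
      (y := ∑ k ∈ (Finset.range (2 * q)).erase k₀, (ζ - 1) ^ k * c k) (by rw [ha]; exact hb)
    rw [this, ha]
  -- the valuation of `1 - ζ^q`
  have hω : V.valuation (1 - ζ ^ q) ^ 2 = V.valuation (3 : ℂ) := by
    have h1 : IsPrimitiveRoot (ζ ^ q) 3 := by
      refine hζ.pow (by positivity) ?_
      rw [hN]
      ring
    have h2 := val_p 3 Nat.prime_three V 0 (ζ ^ q) (by simpa using h1)
    rw [← neg_sub, Valuation.map_neg]
    simpa using h2
  -- the end
  have hsum : ∑ b ∈ Finset.range (3 ^ (n + 1)), ζ ^ b * y b =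
      y bs * ((1 - ζ ^ q) * ∑ b ∈ Finset.range (2 * q), ζ ^ b * W' b) := by
    rw [← sum_dep q ζ W hWdep, Finset.mul_sum, hN]
    refine Finset.sum_congr rfl fun b _ => ?_
    simp only [hWdef]
    field_simp
  rw [hsum, map_mul, map_mul, hval, ← mul_assoc]
  have h1 : 1 ≤ V.valuation (y bs) * V.valuation (1 - ζ ^ q) := by
    have h2 : 1 ≤ (V.valuation (y bs) * V.valuation (1 - ζ ^ q)) ^ 2 := by
      rw [mul_pow, hω]
      exact hbs2
    by_contra h
    exact absurd h2 (not_le.2 (pow_lt_one₀ zero_le (not_le.1 h) two_ne_zero))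
  have h2 : V.valuation (3 : ℂ) < x ^ k₀ := by
    rw [← hx]
    exact pow_lt_pow_right_of_lt_one₀ hx0 hx1 hk₀
  exact lt_of_lt_of_le h2 (le_mul_of_one_le_left' h1)

end

end Pool.Agent.MUXHN
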