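import Pool.Agent.MUX.StHN

/-!
# MUX-NS, block HN: glue (helper87)
-/

set_option autoImplicit false

namespace Pool.Agent.MUXHN

open _root_.MU3 Pool.Agent.MuSym Pool.Agent.MUXH OnePoint

noncomputable section

namespace HNG

/-- the maximal ideal as a submodule of `ℂ` -/
def mV (V : ValuationSubring ℂ) : Submodule V ℂ where
  carrier := {x | V.valuation x < 1}
  add_mem' := by
    intro a b ha hb
    exact lt_of_le_of_lt (V.valuation.map_add a b) (max_lt ha hb)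
  zero_mem' := by
    change V.valuation 0 < 1
    rw [map_zero]
    exact zero_lt_one
  smul_mem' := by
    intro c x hx
    change V.valuation ((c : ℂ) * x) < 1
    rw [map_mul]
    have h1 : V.valuation (c : ℂ) ≤ 1 := (V.valuation_le_one_iff _).2 c.2
    have h2 : V.valuation x < 1 := hx
    exact lt_of_le_of_lt (mul_le_mul_left h1 _) (by rwa [one_mul])

lemma mem_mV {V : ValuationSubring ℂ} {x : ℂ} : x ∈ mV V ↔ V.valuation x < 1 := Iff.rfl

/-- the sum over the classes modulo `3` of the next level is invariant under units -/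
lemma dep_unit {n : ℕ} {z : ℤ → ℂ} (hper : ∀ b c : ℤ, (3 : ℤ) ^ (n + 1) ∣ b - c → z b = z c)
    (hdep : ∀ b : ℤ, ∑ j ∈ Finset.range 3, z (b + j * 3 ^ n) = 0) (u : ℤ) (hu : (3 : ℤ) ∣ u - 1)
    (b : ℤ) : ∑ j ∈ Finset.range 3, z (u * (b + j * 3 ^ n)) = 0 := by
  rw [← hdep (u * b)]
  refine Finset.sum_congr rfl fun j _ => hper _ _ ?_
  obtain ⟨t, ht⟩ := hu
  refine ⟨t * j, ?_⟩
  have : u = 1 + 3 * t := by linear_combination ht
  rw [this]
  ring

end HNG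

open HNG in
/-- (HN) -/
theorem tn_HN (hBDN : Sn_BDN) (hHKN : Sn_HKN) (hH1N : Sn_H1N) (hTYP : Sn_TYP) (hLOC : Sn_LOC)
    (hKYN : Sn_KYN) (hDVN : Sn_DVN) : Sn_HN := by
  intro V N₀ s₀ i nu P s pi KI H α g hα hα1 hg hg1 n₀
  by_contra hcon
  push Not at hcon
  obtain ⟨hQs, hQp, hQd⟩ := hHKN _ nu P (s : ℂ) H.sym H.nu1 H.dep
  obtain ⟨k, hk⟩ := hBDN V H.vp P H.alg H.fin
  set Q := sgnPart (s : ℂ) P with hQ
  have hsK : (s : ℂ) ∈ KI := by
    rcases H.s1 with h | h <;> rw [h] <;> simp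
  have h3K : (3 : ℂ) ∈ KI := by
    exact ofNat_mem KI 3
  -- the values of `Q`
  have hQtyp : ∀ x y, ∃ w ∈ KI, Q x y = pi * w := by
    intro x y
    obtain ⟨w1, hw1, e1⟩ := H.typ x y
    obtain ⟨w2, hw2, e2⟩ := H.typ (mob (-1) 0 0 1 x) (mob (-1) 0 0 1 y)
    refine ⟨w1 + s * w2, add_mem hw1 (mul_mem hsK hw2), ?_⟩
    rw [hQ]
    unfold sgnPart
    rw [e1, e2]
    ring
  have hvs : V.valuation (s : ℂ) ≤ 1 := by
    rcases H.s1 with h | h <;> rw [h] <;> simp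
  have hQk : ∀ x y, V.valuation (3 ^ k * Q x y) ≤ 1 := by
    intro x y
    have e : (3 : ℂ) ^ k * Q x y = 3 ^ k * P x y +
        s * (3 ^ k * P (mob (-1) 0 0 1 x) (mob (-1) 0 0 1 y)) := by
      rw [hQ]
      unfold sgnPart
      ring
    rw [e]
    refine (V.valuation.map_add _ _).trans (max_le (hk _ _) ?_)
    rw [map_mul]
    exact mul_le_one' hvs (hk _ _)
  -- the functions on the levels
  let z : ℕ → ℤ → ℂ := fun n b => Q ∞ (((b : ℚ) / 3 ^ n : ℚ) : OnePoint ℚ)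
  have hzper : ∀ (n : ℕ) (b c : ℤ), (3 : ℤ) ^ n ∣ b - c → z n b = z n c := by
    rintro n b c ⟨t, ht⟩
    have e : ((b : ℚ) / 3 ^ n : ℚ) = (c : ℚ) / 3 ^ n + t := by
      have h3 : ((3 : ℚ) ^ n) ≠ 0 := by positivity
      have : (b : ℚ) = c + 3 ^ n * t := by
        have : (b : ℤ) = c + 3 ^ n * t := by linear_combination ht
        exact_mod_cast this
      rw [this]
      field_simp
    change Q ∞ (((b : ℚ) / 3 ^ n : ℚ) : OnePoint ℚ) = Q ∞ (((c : ℚ) / 3 ^ n : ℚ) : OnePoint ℚ)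
    rw [e]
    exact hQp _ t
  have hzdep : ∀ (n : ℕ) (b : ℤ), ∑ j ∈ Finset.range 3, z (n + 1) (b + j * 3 ^ n) = 0 := by
    intro n b
    rw [← hQd ((b : ℚ) / 3 ^ n)]
    refine Finset.sum_congr rfl fun j _ => ?_
    change Q ∞ ((((b + j * 3 ^ n : ℤ) : ℚ) / 3 ^ (n + 1) : ℚ) : OnePoint ℚ) = _
    congr 2
    have h3 : ((3 : ℚ) ^ n) ≠ 0 := by positivity
    push_cast
    field_simp
    ring
  have hz3 : ∀ n b, (3 : ℂ) ^ (k + 1) * z n b ∈ mV V := by
    intro n b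
    rw [mem_mV]
    have e : (3 : ℂ) ^ (k + 1) * z n b = 3 * (3 ^ k * z n b) := by ring
    rw [e, map_mul]
    exact mul_lt_one_of_lt_of_le H.vp (hQk _ _)
  have hztyp : ∀ n b, ∃ w ∈ KI, z n b = pi * w := fun n b => hQtyp _ _
  -- all combinations are in the maximal ideal
  have hint : ∀ a : ℤ, (a : ℂ) ∈ KI := fun a => intCast_mem KI a
  have hYtyp : ∀ n b, ∃ w ∈ KI, comb α g 1 (z n) b = pi * w := by
    intro n b
    choose w hw hw' using hztyp n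
    refine ⟨∑ j ∈ Finset.range (1 + 1), ((-1 : ℂ) ^ (1 - j) * ((1 : ℕ).choose j : ℂ)) *
      ((α : ℂ) * w (g ^ (1 - j) * b) - (α : ℂ) ^ 2 * w (g ^ (1 - j) * α ^ 2 * b)), ?_, ?_⟩
    · refine sum_mem fun j _ => mul_mem (mul_mem (pow_mem (neg_mem (one_mem _)) _)
        (natCast_mem KI _)) (sub_mem (mul_mem (hint α) (hw _))
        (mul_mem (pow_mem (hint α) 2) (hw _)))
    · unfold comb
      rw [Finset.mul_sum]
      refine Finset.sum_congr rfl fun j _ => ?_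
      rw [hw', hw']
      ring
  have hall : ∀ n, max n₀ 1 ≤ n → ∀ b : ℤ, ¬ (3 : ℤ) ∣ b → comb α g 1 (z n) b ∈ mV V := by
    intro n hn b _
    rw [mem_mV]
    by_contra hb
    rw [not_lt] at hb
    obtain ⟨m, rfl⟩ : ∃ m, n = m + 1 := ⟨n - 1, by omega⟩
    obtain ⟨ζ, hζ, hle⟩ := hcon (m + 1) ((le_max_left _ _).trans hn)
    refine absurd hle (not_le.2 ?_)
    have hYper : ∀ b c : ℤ, (3 : ℤ) ^ (m + 1) ∣ b - c →
        comb α g 1 (z (m + 1)) b = comb α g 1 (z (m + 1)) c := by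
      intro b c hbc
      unfold comb
      refine Finset.sum_congr rfl fun j _ => ?_
      rw [hzper (m + 1) (g ^ (1 - j) * b) (g ^ (1 - j) * c) (by
          rw [← mul_sub]; exact hbc.mul_left _),
        hzper (m + 1) (g ^ (1 - j) * α ^ 2 * b) (g ^ (1 - j) * α ^ 2 * c) (by
          rw [← mul_sub]; exact hbc.mul_left _)]
    have hpow : ∀ (u : ℤ), (3 : ℤ) ∣ u - 1 → ∀ j : ℕ, (3 : ℤ) ∣ u ^ j - 1 := by
      intro u hu j
      have := sub_dvd_pow_sub_pow u 1 j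
      rw [one_pow] at this
      exact hu.trans this
    have hYdep : ∀ b : ℤ, ∑ j ∈ Finset.range 3,
        comb α g 1 (z (m + 1)) (b + j * 3 ^ m) = 0 := by
      intro b
      unfold comb
      rw [Finset.sum_comm]
      refine Finset.sum_eq_zero fun j _ => ?_
      rw [← Finset.mul_sum, Finset.sum_sub_distrib, ← Finset.mul_sum, ← Finset.mul_sum,
        dep_unit (hzper (m + 1)) (hzdep m) _ (hpow g hg (1 - j)) b]
      have h2 : (3 : ℤ) ∣ g ^ (1 - j) * α ^ 2 - 1 := by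
        have e : g ^ (1 - j) * α ^ 2 - 1 = (g ^ (1 - j) - 1) * α ^ 2 + (α ^ 2 - 1) := by ring
        rw [e]
        exact dvd_add ((hpow g hg _).mul_right _) (hpow α hα 2)
      rw [dep_unit (hzper (m + 1)) (hzdep m) _ h2 b]
      ring
    have hpi : pi ≠ 0 := by
      rintro rfl
      have := H.vpi
      rw [map_zero, zero_pow (by norm_num), zero_mul] at this
      exact zero_ne_one this
    refine hDVN V H.vp KI H.unr m (comb α g 1 (z (m + 1))) hYper hYdep ?_ b ?_ ζ hζ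
    · intro b b' hb'
      obtain ⟨w, hw, e⟩ := hYtyp (m + 1) b
      obtain ⟨w', hw', e'⟩ := hYtyp (m + 1) b'
      rw [e, e', mul_div_mul_left _ _ hpi]
      exact div_mem hw hw'
    · obtain ⟨w, hw, e⟩ := hYtyp (m + 1) b
      rw [e] at hb ⊢
      exact (hTYP V H.vp KI H.unr i H.i4 H.i7 pi H.vpi w hw).2 hb
  obtain ⟨r, hr⟩ := hLOC V H.vp (mV V) z (k + 1) (max n₀ 1) hzper hz3 α g hα hα1 hg hg1 1 hall
  -- pass to the level `2 N₀`
  have hN0 : N₀ ≠ 0 := H.N0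
  have hN2 : 2 ≤ 2 * N₀ := by omega
  have hcop2 : Nat.Coprime 3 (2 * N₀) := Nat.Coprime.mul_right (by norm_num) H.cop
  have hdvN : ((3 * N₀ : ℕ) : ℤ) ∣ ((3 * (2 * N₀) : ℕ) : ℤ) :=
    Int.natCast_dvd_natCast.2 ⟨2, by ring⟩
  have hper2 : ∀ d d', ((3 * (2 * N₀) : ℕ) : ℤ) ∣ d - d' → nu d = nu d' :=
    fun d d' h => H.nuper d d' (hdvN.trans h)
  have hnuv2 : ∀ d, IsCoprime d ((3 * (2 * N₀) : ℕ) : ℤ) → V.valuation (nu d) = 1 := by
    intro d hd
    have hd' : IsCoprime d ((3 * N₀ : ℕ) : ℤ) := hd.of_isCoprime_of_dvd_right hdvN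
    obtain ⟨a, b, hab⟩ := hd'
    have h1 : nu (d * a) = nu 1 := H.nuper _ _ ⟨-b, by linear_combination hab⟩
    rw [H.num, H.nu1] at h1
    refine le_antisymm (H.nuv d) ?_
    have h2 : V.valuation (nu d) * V.valuation (nu a) = 1 := by
      rw [← map_mul, h1, map_one]
    calc (1 : V.ValueGroup) = V.valuation (nu d) * V.valuation (nu a) := h2.symm
      _ ≤ V.valuation (nu d) * 1 := by
        exact mul_le_mul_right (H.nuv a) _
      _ = V.valuation (nu d) := mul_one _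
  have hQs2 : IsSym (3 ^ (s₀ + 1) * (2 * N₀)) nu Q := by
    refine ⟨hQs.add, fun a b c d hdet hc => hQs.equiv a b c d hdet (dvd_trans ?_ hc)⟩
    exact Int.natCast_dvd_natCast.2 ⟨2, by ring⟩
  obtain ⟨R, hR⟩ := hKYN V H.vp (mV V) (2 * N₀) s₀ nu Q hN2 hcop2 H.nu1 hper2 hnuv2 hQs2 r
    (max n₀ 1) hr
  obtain ⟨a, b, c, d, hdet, hc, hd, hv⟩ := hH1N V N₀ s₀ i nu P s pi KI H
    (3 ^ (R + (s₀ + 1)) * (2 * N₀)) (mul_ne_zero (pow_ne_zero _ (by norm_num)) (by omega))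
    (mul_dvd_mul (pow_dvd_pow 3 (Nat.le_add_left _ _)) (Dvd.intro_left _ rfl))
  have hdvd : (3 : ℤ) ^ R * ((2 * N₀ : ℕ) : ℤ) ∣ ((3 ^ (R + (s₀ + 1)) * (2 * N₀) : ℕ) : ℤ) := by
    push_cast
    exact mul_dvd_mul_right (pow_dvd_pow 3 (Nat.le_add_right _ _)) _
  have h1 := hR a b c d hdet (hdvd.trans hc) (hdvd.trans hd) ∞
  rw [mem_mV] at h1
  -- the type of the values of `PT Q`
  obtain ⟨w1, hw1, e1⟩ := hQtyp ∞ (mob a b c d ∞)
  obtain ⟨w2, hw2, e2⟩ := hQtyp (mob 27 1 0 27 ∞) (mob 27 1 0 27 (mob a b c d ∞))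
  have e3 : PT Q ∞ (mob a b c d ∞) = pi * (w1 - w2) := by
    unfold PT
    rw [e1, e2]
    ring
  rw [e3] at h1
  rw [← hQ, e3] at hv
  have h2 := (hTYP V H.vp KI H.unr i H.i4 H.i7 pi H.vpi (w1 - w2) (sub_mem hw1 hw2)).1 hv
  exact absurd h1 (not_lt.2 h2)

end

end Pool.Agent.MUXHN
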