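import Pool.Agent.MUX.StHN

/-!
# MUX-NS, block HN, module TYP (helper23): arithmetic of types
-/

set_option autoImplicit false

namespace Pool.Agent.MUXHN

open _root_.MU3 Pool.Agent.MuSym Pool.Agent.MUXH OnePoint

noncomputable section

namespace TYP

variable {Γ : Type*} [LinearOrderedCommGroupWithZero Γ]

lemma one_le_of_pow {a : Γ} {n : ℕ} (h : 1 ≤ a ^ n) (hn : n ≠ 0) : 1 ≤ a := by
  by_contra hc
  exact absurd h (not_le.2 (pow_lt_one₀ zero_le' (not_le.1 hc) hn))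

lemma key {t p x : Γ} (ht : t < 1) (hx : x < 1 → x ≤ t) (i : ℕ) (h4 : 4 ≤ i) (h7 : i ≤ 7)
    (hp : p ^ 8 * t ^ i = 1) :
    (t ≤ (p * x) ^ 18 → 1 ≤ p * x) ∧ (1 ≤ p * x → 1 ≤ (p * x) ^ 2 * t) := by
  have ht0 : t ≠ 0 := by
    rintro rfl
    rw [zero_pow (by omega), mul_zero] at hp
    exact zero_ne_one hp
  have htp : 0 < t := zero_lt_iff.2 ht0
  have hti : t ^ i ≤ 1 := pow_le_one' ht.le i
  have hp1 : 1 ≤ p := by
    apply one_le_of_pow (n := 8) _ (by norm_num)
    calc (1 : Γ) = p ^ 8 * t ^ i := hp.symm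
      _ ≤ p ^ 8 * 1 := mul_le_mul' le_rfl hti
      _ = p ^ 8 := mul_one _
  constructor
  · intro h
    by_cases hx1 : x < 1
    · exfalso
      have hxt := hx hx1
      have h1 : t ≤ (p * t) ^ 18 := h.trans (pow_le_pow_left' (mul_le_mul' le_rfl hxt) 18)
      have h2 : t ^ (4 + 9 * i) ≤ t ^ 72 := by
        calc t ^ (4 + 9 * i) = t ^ 4 * t ^ (9 * i) := pow_add _ _ _
          _ ≤ ((p * t) ^ 18) ^ 4 * t ^ (9 * i) := mul_le_mul' (pow_le_pow_left' h1 4) le_rfl
          _ = (p ^ 8 * t ^ i) ^ 9 * t ^ 72 := by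
              rw [mul_pow, mul_pow, mul_pow, ← pow_mul, ← pow_mul, ← pow_mul, ← pow_mul,
                mul_comm i 9]
              norm_num
              rw [mul_right_comm]
          _ = t ^ 72 := by rw [hp, one_pow, one_mul]
      have h3 : t ^ 72 < t ^ (4 + 9 * i) := pow_lt_pow_right_of_lt_one₀ htp ht (by omega)
      exact absurd h2 (not_le.2 h3)
    · exact one_le_mul hp1 (not_lt.1 hx1)
  · intro h
    by_cases hx1 : x < 1
    · exfalso
      have hxt := hx hx1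
      have h1 : 1 ≤ (p * t) ^ 8 := one_le_pow_of_one_le' (h.trans (mul_le_mul' le_rfl hxt)) 8
      have h2 : (p * t) ^ 8 = t ^ (8 - i) := by
        have e : 8 = i + (8 - i) := by omega
        calc (p * t) ^ 8 = p ^ 8 * t ^ 8 := mul_pow _ _ _
          _ = p ^ 8 * (t ^ i * t ^ (8 - i)) := by rw [← pow_add, ← e]
          _ = (p ^ 8 * t ^ i) * t ^ (8 - i) := (mul_assoc _ _ _).symm
          _ = t ^ (8 - i) := by rw [hp, one_mul]
      rw [h2] at h1
      exact absurd h1 (not_le.2 (pow_lt_one₀ zero_le' ht (by omega)))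
    · have hx2 : 1 ≤ x := not_lt.1 hx1
      apply one_le_of_pow (n := 4) _ (by norm_num)
      have e1 : ((p * x) ^ 2 * t) ^ 4 = (p ^ 8 * t ^ 4) * x ^ 8 := by
        rw [mul_pow, ← pow_mul, mul_pow]
        norm_num
        rw [mul_right_comm]
      rw [e1]
      have h5 : t ^ i ≤ t ^ 4 := pow_le_pow_right_of_le_one' ht.le h4
      have h6 : 1 ≤ p ^ 8 * t ^ 4 := by
        calc (1 : Γ) = p ^ 8 * t ^ i := hp.symm
          _ ≤ p ^ 8 * t ^ 4 := mul_le_mul' le_rfl h5
      exact one_le_mul h6 (one_le_pow_of_one_le' hx2 8)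

end TYP

open TYP in
theorem tn_TYP : Sn_TYP := by
  intro V hv KI hKI i h4 h7 pi hpi w hw
  have h := key hv (hKI w hw) i h4 h7 hpi
  rw [map_mul]
  exact h

end

end Pool.Agent.MUXHN
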