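import Pool.Agent.MUX.HN_BDN
import Pool.Agent.MUX.HN_HKN
import Pool.Agent.MUX.HN_H1N
import Pool.Agent.MUX.HN_TYP
import Pool.Agent.MUX.HN_LOC
import Pool.Agent.MUX.HN_PAI
import Pool.Agent.MUX.HN_KYN
import Pool.Agent.MUX.HN_DVN
import Pool.Agent.MUX.HN_HN

/-!
# MUX-NS, block HN: all statements, without hypotheses (helper87)
-/

set_option autoImplicit false

namespace Pool.Agent.MUXHN

theorem xn_BDN : Sn_BDN := tn_BDN
theorem xn_HKN : Sn_HKN := tn_HKN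
theorem xn_H1N : Sn_H1N := tn_H1N
theorem xn_TYP : Sn_TYP := tn_TYP
theorem xn_LOC : Sn_LOC := tn_LOC
theorem xn_PAI : Sn_PAI := tn_PAI
theorem xn_KYN : Sn_KYN := tn_KYN xn_PAI
theorem xn_DVN : Sn_DVN := tn_DVN
theorem xn_HN : Sn_HN := tn_HN xn_BDN xn_HKN xn_H1N xn_TYP xn_LOC xn_KYN xn_DVN

end Pool.Agent.MUXHN
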