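import Pool.Agent.MUX.StHR
import Pool.Agent.MUX.HX_HZ

/-!
# MUX-NS, block HR, module DVR (helper23): character sums of a function with `y (b + 3^n) = om y b`
-/

set_option autoImplicit false

namespace Pool.Agent.MUXHN

open _root_.MU3 Pool.Agent.MuSym Pool.Agent.MUXH OnePoint

noncomputable section

namespace DVR

/-- a property invariant under the translation by `q` holds everywhere if it holds on `0, .., q - 1` -/
theorem reduce (q : ℕ) (hq : 0 < q) (D : ℤ → Prop) (h : ∀ b, D b ↔ D (b + q))
    (h0 : ∀ r : ℕ, r < q → D r) (b : ℤ) : D b := by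
  have h1 : ∀ (t : ℤ) (r : ℕ), D r ↔ D (r + q * t) := by
    intro t r
    induction t using Int.induction_on with
    | zero => rw [mul_zero, add_zero]
    | succ i ih =>
      have e : (r : ℤ) + q * ((i : ℤ) + 1) = (r + q * i) + q := by ring
      rw [e, ← h]
      exact ih
    | pred i ih =>
      have e : (r : ℤ) + q * (-(i : ℤ)) = (r + q * (-(i : ℤ) - 1)) + q := by ring
      rw [e, ← h] at ih
      exact ih
  have hpos : (0 : ℤ) < q := by exact_mod_cast hq
  have h2 := Int.emod_nonneg b hpos.ne'
  have h3 := Int.emod_lt_of_pos b hpos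
  obtain ⟨r, hr⟩ := Int.eq_ofNat_of_zero_le h2
  have h4 : r < q := by
    have : (r : ℤ) < q := by rw [← hr]; exact h3
    exact_mod_cast this
  have h5 : b = (r : ℤ) + q * (b / q) := by
    rw [← hr]
    exact (Int.emod_add_mul_ediv b q).symm
  rw [h5]
  exact (h1 _ r).1 (h0 r h4)

end DVR

open DVR Pool.Agent.MUXH.Hz in
theorem tn_DVR : Sn_DVR := by
  intro V hV K hK n y om hom hper hyK b₀ hb₀ hmax ζ hζ hζom
  set q : ℕ := 3 ^ n with hq
  have hq0 : 0 < q := pow_pos (by norm_num) n
  have hqz : ((q : ℕ) : ℤ) = 3 ^ n := by rw [hq]; push_cast; rfl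
  -- the roots of unity
  have hvom : V.valuation om = 1 := val_root V 3 (by norm_num) om hom.pow_eq_one
  have hom1 : V.valuation (om - 1) < 1 := by
    have h1 := val_p 3 Nat.prime_three V 0 om (by simpa using hom)
    by_contra hc
    have h2 : 1 ≤ V.valuation (om - 1) ^ (3 ^ 0 * (3 - 1)) := one_le_pow₀ (not_lt.1 hc)
    rw [h1] at h2
    exact absurd h2 (not_le.2 (by simpa using hV))
  have hx : V.valuation (ζ - 1) ^ (2 * q) = V.valuation (3 : ℂ) := by
    have h1 := val_p 3 Nat.prime_three V n ζ hζ
    rw [mul_comm 2 q]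
    simpa using h1
  set x := V.valuation (ζ - 1) with hxdef
  have h3pos : (0 : V.ValueGroup) < V.valuation (3 : ℂ) :=
    lt_of_le_of_ne zero_le ((Valuation.ne_zero_iff _).2 (by norm_num)).symm
  have h2q : 2 * q ≠ 0 := by omega
  have hx0 : 0 < x := by
    refine lt_of_le_of_ne zero_le fun h => ?_
    rw [← h, zero_pow h2q] at hx
    exact h3pos.ne hx
  have hx1 : x < 1 := by
    by_contra h
    have : 1 ≤ x ^ (2 * q) := one_le_pow₀ (not_lt.1 h)
    rw [hx] at this
    exact absurd this (not_le.2 hV)
  -- the normalised function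
  set W : ℤ → ℂ := fun b => y b / y b₀ with hW
  have hvb : (0 : V.ValueGroup) < V.valuation (y b₀) :=
    lt_of_le_of_ne zero_le ((Valuation.ne_zero_iff _).2 hb₀).symm
  have hyW : ∀ b, y b = y b₀ * W b := fun b => by
    simp only [hW]
    field_simp
  have hWK : ∀ b, W b ∈ K := fun b => hyK b b₀ hb₀
  have hW1 : ∀ b, V.valuation (W b) ≤ 1 := by
    intro b
    have h1 := hmax b
    rw [hyW b, map_mul] at h1
    by_contra hc
    have h2 : V.valuation (y b₀) * 1 < V.valuation (y b₀) * V.valuation (W b) :=
      mul_lt_mul_of_pos_left (not_le.1 hc) hvb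
    rw [mul_one] at h2
    exact absurd h1 (not_le.2 h2)
  have hWper : ∀ b, W (b + q) = om * W b := by
    intro b
    simp only [hW]
    rw [hqz, hper b, mul_div_assoc]
  -- a class with value of valuation one
  obtain ⟨r, hr, hWr⟩ : ∃ r : ℕ, r < q ∧ V.valuation (W r) = 1 := by
    by_contra hcon
    have h1 : ∀ b, V.valuation (W b) ≠ 1 := by
      refine reduce q hq0 (fun b => V.valuation (W b) ≠ 1) (fun b => ?_) (fun r hr h => ?_)
      · show V.valuation (W b) ≠ 1 ↔ V.valuation (W (b + q)) ≠ 1
        rw [hWper, map_mul, hvom, one_mul]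
      · exact hcon ⟨r, hr, h⟩
    apply h1 b₀
    have e : W b₀ = 1 := div_self hb₀
    rw [e, map_one]
  -- the coefficients
  set c : ℕ → ℂ := fun k => ∑ b ∈ Finset.range q, ((b.choose k : ℕ) : ℂ) * W b with hc
  have hcK : ∀ k, c k ∈ K := fun k => sum_mem fun b _ => mul_mem (natCast_mem K _) (hWK _)
  have hc1 : ∀ k, V.valuation (c k) ≤ 1 := fun k =>
    Valuation.map_sum_le _ fun b _ => by
      rw [map_mul]
      exact mul_le_one' (val_nat V _) (hW1 _)
  have hex1 : ∃ k, k < q ∧ V.valuation (c k) = 1 := by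
    by_contra hcon
    have hlt : ∀ k < q, V.valuation (c k) < 1 := fun k hk =>
      lt_of_le_of_ne (hc1 k) fun h => hcon ⟨k, hk, h⟩
    have h1 : ∑ b ∈ Finset.range q, (((if b = r then (1 : ℤ) else 0) : ℤ) : ℂ) * W b = W r := by
      rw [Finset.sum_eq_single r]
      · simp
      · intro b _ hbr
        rw [if_neg hbr]
        simp
      · intro h
        exact absurd (Finset.mem_range.2 hr) h
    rw [newton q (fun b => W b) (fun b => if b = r then (1 : ℤ) else 0)] at h1
    have h2 : V.valuation (W r) < 1 := by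
      rw [← h1]
      refine Valuation.map_sum_lt _ one_ne_zero fun k hk => ?_
      rw [map_mul]
      exact lt_of_le_of_lt (mul_le_of_le_one_left' (val_int V _))
        (hlt k (Finset.mem_range.1 hk))
    exact absurd hWr h2.ne
  classical
  obtain ⟨hk₀, hk₁⟩ := Nat.find_spec hex1
  set k₀ := Nat.find hex1 with hk₀def
  have hlt₀ : ∀ k < k₀, V.valuation (c k) < 1 := by
    intro k hk
    refine lt_of_le_of_ne (hc1 k) fun h => ?_
    exact Nat.find_min hex1 hk ⟨lt_trans hk hk₀, h⟩
  have hmin : ∀ k < k₀, V.valuation (c k) ^ 2 ≤ V.valuation (3 : ℂ) := fun k hk =>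
    hK _ (hcK k) (hlt₀ k hk)
  have hval : V.valuation (∑ b ∈ Finset.range q, ζ ^ b * W b) = x ^ k₀ := by
    rw [shift_pow q (fun b => W b) ζ]
    have hk₀N : k₀ ∈ Finset.range q := Finset.mem_range.2 hk₀
    rw [← Finset.add_sum_erase _ _ hk₀N]
    have ha : V.valuation ((ζ - 1) ^ k₀ * c k₀) = x ^ k₀ := by
      rw [map_mul, map_pow, hk₁, mul_one]
    have hb : V.valuation (∑ k ∈ (Finset.range q).erase k₀, (ζ - 1) ^ k * c k) < x ^ k₀ := by
      refine Valuation.map_sum_lt _ (pow_pos hx0 k₀).ne' fun k hk => ?_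
      have hne := Finset.ne_of_mem_erase hk
      rw [map_mul, map_pow]
      rcases lt_or_gt_of_ne hne with hlt | hgt
      · refine lt_of_le_of_lt (mul_le_of_le_one_left' (pow_le_one' hx1.le k)) ?_
        refine lt_of_pow_lt_pow_left₀ 2 (pow_pos hx0 k₀).le ?_
        refine lt_of_le_of_lt (hmin k hlt) ?_
        rw [← hx, ← pow_mul]
        exact pow_lt_pow_right_of_lt_one₀ hx0 hx1 (by omega)
      · refine lt_of_le_of_lt (mul_le_of_le_one_right' (hc1 k)) ?_
        exact pow_lt_pow_right_of_lt_one₀ hx0 hx1 hgt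
    have := Valuation.map_add_eq_of_lt_left V.valuation (x := (ζ - 1) ^ k₀ * c k₀)
      (y := ∑ k ∈ (Finset.range q).erase k₀, (ζ - 1) ^ k * c k) (by rw [ha]; exact hb)
    rw [this, ha]
  -- the sum over three periods
  have hWj : ∀ (j b : ℕ), W ((j * q + b : ℕ) : ℤ) = om ^ j * W b := by
    intro j b
    induction j with
    | zero => simp
    | succ j ih =>
      have e : (((j + 1) * q + b : ℕ) : ℤ) = ((j * q + b : ℕ) : ℤ) + q := by push_cast; ring
      rw [e, hWper, ih, pow_succ]
      ring
  have hsum : ∑ b ∈ Finset.range (3 ^ (n + 1)), ζ ^ b * y b =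
      3 * y b₀ * ∑ b ∈ Finset.range q, ζ ^ b * W b := by
    have e3 : 3 ^ (n + 1) = 3 * q := by rw [hq, pow_succ]; ring
    rw [e3, sum_range_mul' (fun b : ℕ => ζ ^ b * y b) q 3]
    have h1 : ∀ j ∈ Finset.range 3, ∑ b ∈ Finset.range q,
        ζ ^ (j * q + b) * y ((j * q + b : ℕ) : ℤ) =
        y b₀ * ∑ b ∈ Finset.range q, ζ ^ b * W b := by
      intro j _
      rw [Finset.mul_sum]
      refine Finset.sum_congr rfl fun b _ => ?_
      rw [hyW ((j * q + b : ℕ) : ℤ), hWj, pow_add, mul_comm j q, pow_mul]
      have e : (ζ ^ q) ^ j * om ^ j = 1 := by rw [← mul_pow, hζom, one_pow]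
      linear_combination (ζ ^ b * W b * y b₀) * e
    rw [Finset.sum_congr rfl h1, Finset.sum_const, Finset.card_range, nsmul_eq_mul]
    push_cast
    ring
  refine ⟨k₀, hk₀, ?_, hx, ?_⟩
  · rw [hsum, map_mul, map_mul, hval]
  · intro hj
    -- consecutive values
    have hcons : ∀ b : ℕ, b + 1 < q → V.valuation (W ((b + 1 : ℕ) : ℤ) - W b) < 1 := by
      intro b hb
      set g : ℕ → ℤ := fun x => if x % q = b + 1 then (1 : ℤ) else 0 with hg
      have hgper : ∀ x, g (x + 3 ^ n) = g x := fun x => by
        simp only [hg, ← hq, Nat.add_mod_right]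
      have hgx : ∀ x, x < q → fwdDiff 1 g x =
          (if x = b then (1 : ℤ) else 0) - (if x = b + 1 then (1 : ℤ) else 0) := by
        intro x hx'
        rw [fwdDiff]
        simp only [hg]
        rw [Nat.mod_eq_of_lt hx']
        congr 1
        rcases Nat.lt_or_ge (x + 1) q with h | h
        · rw [Nat.mod_eq_of_lt h]
          by_cases hxb : x = b
          · rw [if_pos (by omega), if_pos hxb]
          · rw [if_neg (by omega), if_neg hxb]
        · have e : x + 1 = q := by omega
          rw [e, Nat.mod_self, if_neg (by omega), if_neg (by omega)]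
      have h1 : ∑ x ∈ Finset.range q, ((fwdDiff 1 g x : ℤ) : ℂ) * W x =
          W b - W ((b + 1 : ℕ) : ℤ) := by
        have h2 : ∀ x ∈ Finset.range q, ((fwdDiff 1 g x : ℤ) : ℂ) * W x =
            (if x = b then W x else 0) - (if x = b + 1 then W x else 0) := by
          intro x hx'
          rw [hgx x (Finset.mem_range.1 hx')]
          push_cast
          rw [sub_mul, ite_mul, ite_mul, one_mul, zero_mul]
        rw [Finset.sum_congr rfl h2, Finset.sum_sub_distrib, Finset.sum_ite_eq',
          Finset.sum_ite_eq', if_pos (Finset.mem_range.2 (by omega)),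
          if_pos (Finset.mem_range.2 hb)]
      rw [newton q (fun x => W x) (fwdDiff 1 g)] at h1
      rw [← neg_sub, Valuation.map_neg, ← h1]
      refine Valuation.map_sum_lt _ one_ne_zero fun k hk => ?_
      rw [map_mul]
      rcases Nat.lt_or_ge k k₀ with h | h
      · exact lt_of_le_of_lt (mul_le_of_le_one_left' (val_int V _)) (hlt₀ k h)
      · have e : k = q - 1 := by
          have := Finset.mem_range.1 hk
          omega
        refine lt_of_le_of_lt (mul_le_of_le_one_right' (hc1 k)) ?_
        have h5 : (fwdDiff 1)^[k] (fwdDiff 1 g) 0 = (fwdDiff 1)^[3 ^ n] g 0 := by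
          have h6 : k.succ = 3 ^ n := by
            show k + 1 = 3 ^ n
            omega
          rw [← Function.iterate_succ_apply, h6]
        rw [h5]
        exact lt_of_le_of_lt
          (val_int_p 3 V _ (dvd_diff_aux 3 Nat.prime_three n g hgper 0)) (by simpa using hV)
    have hD0 : ∀ b : ℕ, b < q → V.valuation (W b - W 0) < 1 := by
      intro b
      induction b with
      | zero =>
        intro _
        simp
      | succ b ih =>
        intro hb
        have h1 := ih (by omega)
        have h2 := hcons b hb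
        have e : W ((b + 1 : ℕ) : ℤ) - W 0 = (W ((b + 1 : ℕ) : ℤ) - W b) + (W b - W 0) := by ring
        rw [e]
        exact Valuation.map_add_lt _ h2 h1
    have hD : ∀ b : ℤ, V.valuation (W b - W 0) < 1 := by
      refine reduce q hq0 (fun b => V.valuation (W b - W 0) < 1) (fun b => ?_) hD0
      show V.valuation (W b - W 0) < 1 ↔ V.valuation (W (b + q) - W 0) < 1
      rw [hWper]
      have hs : V.valuation ((om - 1) * W 0) < 1 := by
        rw [map_mul]
        exact lt_of_le_of_lt (mul_le_of_le_one_right' (hW1 0)) hom1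
      constructor
      · intro h
        have e : om * W b - W 0 = om * (W b - W 0) + (om - 1) * W 0 := by ring
        rw [e]
        refine Valuation.map_add_lt _ ?_ hs
        rw [map_mul, hvom, one_mul]
        exact h
      · intro h
        have e : om * (W b - W 0) = (om * W b - W 0) - (om - 1) * W 0 := by ring
        have h2 : V.valuation (om * (W b - W 0)) < 1 := by
          rw [e]
          exact Valuation.map_sub_lt _ h hs
        rwa [map_mul, hvom, one_mul] at h2
    intro b b'
    have h1 : V.valuation (W b - W b') < 1 := by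
      have e : W b - W b' = (W b - W 0) - (W b' - W 0) := by ring
      rw [e]
      exact Valuation.map_sub_lt _ (hD b) (hD b')
    have h2 : V.valuation (W b - W b') ^ 2 ≤ V.valuation (3 : ℂ) :=
      hK _ (sub_mem (hWK b) (hWK b')) h1
    rw [hyW b, hyW b', ← mul_sub, map_mul, mul_pow]
    exact mul_le_mul' le_rfl h2

end

end Pool.Agent.MUXHN
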