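import Pool.Agent.MUX.StHR

/-!
# MUX-NS, block HR: glue (helper87)
-/

set_option autoImplicit false

namespace Pool.Agent.MUXHN

open _root_.MU3 Pool.Agent.MuSym Pool.Agent.MUXH OnePoint

noncomputable section

namespace HRG

/-- the valuation ring as a submodule of `ℂ` -/
def oV (V : ValuationSubring ℂ) : Submodule V ℂ where
  carrier := {x | V.valuation x ≤ 1}
  add_mem' := by
    intro a b ha hb
    have ha' : V.valuation a ≤ 1 := ha
    have hb' : V.valuation b ≤ 1 := hb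
    exact (V.valuation.map_add a b).trans (max_le ha' hb')
  zero_mem' := by
    change V.valuation 0 ≤ 1
    rw [map_zero]
    exact zero_le_one
  smul_mem' := by
    intro c x hx
    change V.valuation ((c : ℂ) * x) ≤ 1
    rw [map_mul]
    exact mul_le_one' ((V.valuation_le_one_iff _).2 c.2) hx

lemma mem_oV {V : ValuationSubring ℂ} {x : ℂ} : x ∈ oV V ↔ V.valuation x ≤ 1 := Iff.rfl

section arith

variable {Γ : Type*} [LinearOrderedCommGroupWithZero Γ] {t x y : Γ} {q j : ℕ}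

lemma lt_one_of_pow_lt_one {a : Γ} {n : ℕ} (h : a ^ n < 1) : a < 1 := by
  by_contra hc
  rw [not_lt] at hc
  exact absurd h (not_lt.2 (one_le_pow₀ hc))

lemma arith0 (ht0 : t ≠ 0) (ht : t < 1) (hx : x ^ (2 * q) = t) (hj : j < q)
    (hy : 1 ≤ y ^ 2 * t) : t < t * y * x ^ j := by
  have hx1 : x < 1 := lt_one_of_pow_lt_one (n := 2 * q) (by rw [hx]; exact ht)
  have hx0 : x ≠ 0 := by
    rintro rfl
    rw [zero_pow (by omega)] at hx
    exact ht0 hx.symm
  have hxp : 0 < x := zero_lt_iff.2 hx0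
  have htp : 0 < t := zero_lt_iff.2 ht0
  have h1 : t < x ^ (2 * j) := by
    rw [← hx]
    exact pow_lt_pow_right_of_lt_one₀ hxp hx1 (by omega)
  have hy0 : y ≠ 0 := by
    rintro rfl
    rw [zero_pow two_ne_zero, zero_mul] at hy
    exact absurd hy (not_le.2 zero_lt_one)
  have h2 : 1 < (y * x ^ j) ^ 2 := by
    have h3 : y ^ 2 * t < y ^ 2 * x ^ (2 * j) :=
      mul_lt_mul_of_pos_left h1 (pow_pos (zero_lt_iff.2 hy0) 2)
    calc (1 : Γ) ≤ y ^ 2 * t := hy
      _ < y ^ 2 * x ^ (2 * j) := h3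
      _ = (y * x ^ j) ^ 2 := by rw [mul_pow, ← pow_mul, mul_comm j 2]
  have h4 : 1 < y * x ^ j := by
    by_contra hc
    rw [not_lt] at hc
    exact absurd h2 (not_lt.2 (pow_le_one₀ zero_le hc))
  calc t = t * 1 := (mul_one t).symm
    _ < t * (y * x ^ j) := mul_lt_mul_of_pos_left h4 htp
    _ = t * y * x ^ j := (mul_assoc _ _ _).symm

lemma arith1 (ht0 : t ≠ 0) (ht : t < 1) (hx : x ^ (2 * q) = t) (hj : j < q)
    (hy : y ^ 4 * t = 1 ∧ j ≠ q - 1 ∨ 1 ≤ y ^ 4 * t ^ 3) :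
    t ^ 5 ≤ (t * y * x ^ j) ^ 4 * x ^ 8 := by
  have hx1 : x < 1 := lt_one_of_pow_lt_one (n := 2 * q) (by rw [hx]; exact ht)
  have hx0 : x ≠ 0 := by
    rintro rfl
    rw [zero_pow (by omega)] at hx
    exact ht0 hx.symm
  have e : (t * y * x ^ j) ^ 4 * x ^ 8 = t ^ 4 * y ^ 4 * x ^ (4 * j + 8) := by
    rw [mul_pow, mul_pow, ← pow_mul, mul_comm j 4, mul_assoc, ← pow_add]
  have hx4 : x ^ (4 * q) = t ^ 2 := by
    rw [← hx, ← pow_mul]
    congr 1
    ring
  rw [e]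
  rcases hy with ⟨h1, h2⟩ | h1
  · have h3 : x ^ (4 * q) ≤ x ^ (4 * j + 8) :=
      pow_le_pow_of_le_one zero_le hx1.le (by omega)
    rw [hx4] at h3
    calc t ^ 5 = t ^ 3 * (y ^ 4 * t) * t ^ 2 := by rw [h1, mul_one, ← pow_add]
      _ = t ^ 4 * y ^ 4 * t ^ 2 := by
        rw [show t ^ 4 = t ^ 3 * t from pow_succ t 3]
        simp only [mul_comm, mul_left_comm, mul_assoc]
      _ ≤ t ^ 4 * y ^ 4 * x ^ (4 * j + 8) := mul_le_mul_right h3 _
  · have h3 : x ^ (4 * q) * x ^ (4 * q) ≤ x ^ (4 * j + 8) := by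
      rw [← pow_add]
      exact pow_le_pow_of_le_one zero_le hx1.le (by omega)
    rw [hx4, ← pow_add] at h3
    calc t ^ 5 = t ^ 1 * 1 * t ^ 4 := by rw [mul_one, ← pow_add]
      _ ≤ t ^ 1 * (y ^ 4 * t ^ 3) * t ^ 4 := by
        exact mul_le_mul_left (mul_le_mul_right h1 _) _
      _ = t ^ 4 * y ^ 4 * t ^ (2 + 2) := by
        rw [pow_one, show t ^ 4 = t ^ 3 * t from pow_succ t 3]
        simp only [mul_comm, mul_left_comm, mul_assoc]
      _ ≤ t ^ 4 * y ^ 4 * x ^ (4 * j + 8) := mul_le_mul_right h3 _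

end arith

end HRG

open HRG in
/-- (HR) -/
theorem tn_HR (hBDN : Sn_BDN) (hLOC : Sn_LOC) (hKYN : Sn_KYN) (hTYR : Sn_TYR)
    (hDVR : Sn_DVR) : Sn_HR := by
  intro V N₀ s₀ i nu P pi KI om H α g hα hα1 hg hg1 n₀
  obtain ⟨k, hk⟩ := hBDN V H.vp P H.alg H.fin
  have hom3 : om ^ 3 = 1 := H.omp.pow_eq_one
  -- the functions on the levels
  let z : ℕ → ℤ → ℂ := fun n b => P ∞ (((b : ℚ) / 3 ^ n : ℚ) : OnePoint ℚ)
  have hT : ∀ (r : ℚ) (m : ℤ), P ∞ ((r + m : ℚ) : OnePoint ℚ) = P ∞ (r : OnePoint ℚ) := by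
    have hstep : ∀ r : ℚ, P ∞ ((r + 1 : ℚ) : OnePoint ℚ) = P ∞ (r : OnePoint ℚ) := by
      intro r
      have e : (r + 1 : ℚ) = r + 1 / 3 + 1 / 3 + 1 / 3 := by ring
      rw [e, H.rel, H.rel, H.rel]
      linear_combination (P ∞ (r : OnePoint ℚ)) * hom3
    intro r m
    induction m using Int.induction_on with
    | zero => simp
    | succ m ih =>
      rw [← ih, ← hstep (r + ((m : ℕ) : ℤ))]
      congr 2
      push_cast
      ring
    | pred m ih =>
      rw [← ih, ← hstep (r + ((-(m : ℤ) - 1 : ℤ) : ℚ))]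
      congr 2
      push_cast
      ring
  have hzper : ∀ (n : ℕ) (b c : ℤ), (3 : ℤ) ^ n ∣ b - c → z n b = z n c := by
    rintro n b c ⟨t, ht⟩
    have e : ((b : ℚ) / 3 ^ n : ℚ) = (c : ℚ) / 3 ^ n + t := by
      have h3 : ((3 : ℚ) ^ n) ≠ 0 := by positivity
      have : (b : ℚ) = c + 3 ^ n * t := by
        have : (b : ℤ) = c + 3 ^ n * t := by linear_combination ht
        exact_mod_cast this
      rw [this]
      field_simp
    change P ∞ (((b : ℚ) / 3 ^ n : ℚ) : OnePoint ℚ) = P ∞ (((c : ℚ) / 3 ^ n : ℚ) : OnePoint ℚ)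
    rw [e]
    exact hT _ t
  have hzom : ∀ (n : ℕ) (b : ℤ), z (n + 1) (b + 3 ^ n) = om * z (n + 1) b := by
    intro n b
    rw [show om * z (n + 1) b = P ∞ ((((b : ℚ) / 3 ^ (n + 1) + 1 / 3 : ℚ)) : OnePoint ℚ) from
      (H.rel _).symm]
    change P ∞ ((((b + 3 ^ n : ℤ) : ℚ) / 3 ^ (n + 1) : ℚ) : OnePoint ℚ) = _
    congr 2
    have h3 : ((3 : ℚ) ^ n) ≠ 0 := by positivity
    push_cast
    field_simp
    ring
  have hz3 : ∀ n b, (3 : ℂ) ^ k * z n b ∈ oV V := fun n b => hk _ _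
  -- level `2 N₀`
  have hN0 : N₀ ≠ 0 := H.N0
  have hN2 : 2 ≤ 2 * N₀ := by omega
  have hcop2 : Nat.Coprime 3 (2 * N₀) := Nat.Coprime.mul_right (by norm_num) H.cop
  have hdvN : ((3 * N₀ : ℕ) : ℤ) ∣ ((3 * (2 * N₀) : ℕ) : ℤ) :=
    Int.natCast_dvd_natCast.2 ⟨2, by ring⟩
  have hper2 : ∀ d d', ((3 * (2 * N₀) : ℕ) : ℤ) ∣ d - d' → nu d = nu d' :=
    fun d d' h => H.nuper d d' (hdvN.trans h)
  have hnuv2 : ∀ d, IsCoprime d ((3 * (2 * N₀) : ℕ) : ℤ) → V.valuation (nu d) = 1 := by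
    intro d hd
    have hd' : IsCoprime d ((3 * N₀ : ℕ) : ℤ) := hd.of_isCoprime_of_dvd_right hdvN
    obtain ⟨a, b, hab⟩ := hd'
    have h1 : nu (d * a) = nu 1 := H.nuper _ _ ⟨-b, by linear_combination hab⟩
    rw [H.num, H.nu1] at h1
    refine le_antisymm (H.nuv d) ?_
    have h2 : V.valuation (nu d) * V.valuation (nu a) = 1 := by
      rw [← map_mul, h1, map_one]
    calc (1 : V.ValueGroup) = V.valuation (nu d) * V.valuation (nu a) := h2.symm
      _ ≤ V.valuation (nu d) * 1 := by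
        exact mul_le_mul_right (H.nuv a) _
      _ = V.valuation (nu d) := mul_one _
  have hQs2 : IsSym (3 ^ (s₀ + 1) * (2 * N₀)) nu P := by
    refine ⟨H.sym.add, fun a b c d hdet hc => H.sym.equiv a b c d hdet (dvd_trans ?_ hc)⟩
    exact Int.natCast_dvd_natCast.2 ⟨2, by ring⟩
  -- there are combinations which are not integral
  have hex : ∃ n, n₀ + 1 ≤ n ∧ ∃ b : ℤ, ¬ (3 : ℤ) ∣ b ∧ comb α g (i + 1) (z n) b ∉ oV V := by
    by_contra hcon
    push Not at hcon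
    obtain ⟨r, hr⟩ := hLOC V H.vp (oV V) z k (n₀ + 1) hzper hz3 α g hα hα1 hg hg1 (i + 1) hcon
    obtain ⟨R, hR⟩ := hKYN V H.vp (oV V) (2 * N₀) s₀ nu P hN2 hcop2 H.nu1 hper2 hnuv2 hQs2 r
      (n₀ + 1) hr
    obtain ⟨a, b, c, d, hdet, hc, hd, hv⟩ := H.G
      (3 ^ (R + (s₀ + 1)) * (2 * N₀)) (mul_ne_zero (pow_ne_zero _ (by norm_num)) (by omega))
      (mul_dvd_mul (pow_dvd_pow 3 (Nat.le_add_left _ _)) (Dvd.intro_left _ rfl))
    have hdvd : (3 : ℤ) ^ R * ((2 * N₀ : ℕ) : ℤ) ∣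
        ((3 ^ (R + (s₀ + 1)) * (2 * N₀) : ℕ) : ℤ) := by
      push_cast
      exact mul_dvd_mul_right (pow_dvd_pow 3 (Nat.le_add_right _ _)) _
    have h1 := hR a b c d hdet (hdvd.trans hc) (hdvd.trans hd) ∞
    exact absurd hv (not_lt.2 h1)
  obtain ⟨m, hm, b, hb3, hb⟩ := hex
  obtain ⟨n, rfl⟩ : ∃ n, m = n + 1 := ⟨m - 1, by omega⟩
  rw [mem_oV, not_le] at hb
  refine ⟨n, by omega, fun ζ hζ hζom => ?_⟩
  set Y : ℤ → ℂ := comb α g 1 (z (n + 1)) with hY
  change (i = 0 → V.valuation (3 : ℂ) < V.valuation (∑ b ∈ Finset.range (3 ^ (n + 1)),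
      ζ ^ b * Y b)) ∧ (i = 1 → V.valuation (3 : ℂ) ^ 5 ≤
      V.valuation (∑ b ∈ Finset.range (3 ^ (n + 1)), ζ ^ b * Y b) ^ 4 *
        V.valuation (ζ - 1) ^ 8)
  have hpow : ∀ (u : ℤ), (3 : ℤ) ∣ u - 1 → ∀ j : ℕ, (3 : ℤ) ∣ u ^ j - 1 := by
    intro u hu j
    have := sub_dvd_pow_sub_pow u 1 j
    rw [one_pow] at this
    exact hu.trans this
  -- properties of `Y`
  have hzu : ∀ u b : ℤ, (3 : ℤ) ∣ u - 1 → z (n + 1) (u * (b + 3 ^ n)) =
      om * z (n + 1) (u * b) := by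
    intro u b hu
    rw [← hzom]
    apply hzper
    obtain ⟨t, ht⟩ := hu
    exact ⟨t, by
      have : u = 1 + 3 * t := by linear_combination ht
      rw [this]
      ring⟩
  have hYom : ∀ b : ℤ, Y (b + 3 ^ n) = om * Y b := by
    intro b
    rw [hY]
    unfold comb
    rw [Finset.mul_sum]
    refine Finset.sum_congr rfl fun j _ => ?_
    have h2 : (3 : ℤ) ∣ g ^ (1 - j) * α ^ 2 - 1 := by
      have e : g ^ (1 - j) * α ^ 2 - 1 = (g ^ (1 - j) - 1) * α ^ 2 + (α ^ 2 - 1) := by ring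
      rw [e]
      exact dvd_add ((hpow g hg _).mul_right _) (hpow α hα 2)
    rw [hzu _ b (hpow g hg (1 - j)), hzu _ b h2]
    ring
  have hYper : ∀ b c : ℤ, (3 : ℤ) ^ (n + 1) ∣ b - c → Y b = Y c := by
    intro b c hbc
    rw [hY]
    unfold comb
    refine Finset.sum_congr rfl fun j _ => ?_
    rw [hzper (n + 1) (g ^ (1 - j) * b) (g ^ (1 - j) * c) (by
        rw [← mul_sub]; exact hbc.mul_left _),
      hzper (n + 1) (g ^ (1 - j) * α ^ 2 * b) (g ^ (1 - j) * α ^ 2 * c) (by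
        rw [← mul_sub]; exact hbc.mul_left _)]
  have hYtyp : ∀ b, ∃ w ∈ KI, Y b = pi * w := by
    intro b
    have hztyp : ∀ b, ∃ w ∈ KI, z (n + 1) b = pi * w := fun b => H.typ _ _
    choose w hw hw' using hztyp
    refine ⟨∑ j ∈ Finset.range (1 + 1), ((-1 : ℂ) ^ (1 - j) * ((1 : ℕ).choose j : ℂ)) *
      ((α : ℂ) * w (g ^ (1 - j) * b) - (α : ℂ) ^ 2 * w (g ^ (1 - j) * α ^ 2 * b)), ?_, ?_⟩
    · refine sum_mem fun j _ => mul_mem (mul_mem (pow_mem (neg_mem (one_mem _)) _)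
        (natCast_mem KI _)) (sub_mem (mul_mem (intCast_mem KI α) (hw _))
        (mul_mem (pow_mem (intCast_mem KI α) 2) (hw _)))
    · rw [hY]
      unfold comb
      rw [Finset.mul_sum]
      refine Finset.sum_congr rfl fun j _ => ?_
      rw [hw', hw']
      ring
  have hpi : pi ≠ 0 := by
    rintro rfl
    have := H.vpi
    rw [map_zero, zero_pow (by norm_num), zero_mul] at this
    exact zero_ne_one this
  -- a value which is not integral
  have hbig : ∃ b : ℤ, 1 < V.valuation (Y b) := by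
    rcases Nat.le_one_iff_eq_zero_or_eq_one.1 H.i1 with hi | hi
    · subst hi
      exact ⟨b, hb⟩
    · subst hi
      by_contra hcon
      push Not at hcon
      have e : comb α g (1 + 1) (z (n + 1)) b = Y b - Y (g * b) := by
        rw [hY]
        unfold comb
        simp [Finset.sum_range_succ]
        have e1 : g ^ 2 * b = g * (g * b) := by ring
        have e2 : g ^ 2 * α ^ 2 * b = g * α ^ 2 * (g * b) := by ring
        have e3 : α ^ 2 * (g * b) = g * α ^ 2 * b := by ring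
        rw [e1, e2, e3]
        ring
      rw [e] at hb
      refine absurd hb (not_lt.2 ((V.valuation.map_sub _ _).trans (max_le (hcon _) (hcon _))))
  obtain ⟨b₀, hb₀⟩ : ∃ b₀ : ℤ, ∀ b, V.valuation (Y b) ≤ V.valuation (Y b₀) := by
    have hne : (Finset.range (3 ^ (n + 1))).Nonempty :=
      ⟨0, Finset.mem_range.2 (by positivity)⟩
    obtain ⟨c, _, hc⟩ := Finset.exists_max_image (Finset.range (3 ^ (n + 1)))
      (fun c : ℕ => V.valuation (Y c)) hne
    refine ⟨c, fun b => ?_⟩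
    have h3 : (0 : ℤ) < 3 ^ (n + 1) := by positivity
    have h4 : Y b = Y ((b % 3 ^ (n + 1)).toNat : ℤ) := by
      apply hYper
      rw [Int.toNat_of_nonneg (Int.emod_nonneg _ h3.ne')]
      exact Int.dvd_self_sub_emod
    rw [h4]
    apply hc
    rw [Finset.mem_range]
    have h5 := Int.emod_lt_of_pos b h3
    have h6 := Int.emod_nonneg b h3.ne'
    zify
    rw [Int.toNat_of_nonneg h6]
    exact h5
  have hY1 : 1 < V.valuation (Y b₀) := by
    obtain ⟨b, hb⟩ := hbig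
    exact hb.trans_le (hb₀ b)
  have hY0 : Y b₀ ≠ 0 := by
    intro h
    rw [h, map_zero] at hY1
    exact absurd hY1 (not_lt.2 zero_le)
  obtain ⟨j, hj, hsum, hx, hconst⟩ := hDVR V H.vp KI H.unr n Y om H.omp hYom (by
    intro b b' hb'
    obtain ⟨w, hw, e⟩ := hYtyp b
    obtain ⟨w', hw', e'⟩ := hYtyp b'
    rw [e, e', mul_div_mul_left _ _ hpi]
    exact div_mem hw hw') b₀ hY0 hb₀ ζ hζ hζom
  have ht0 : V.valuation (3 : ℂ) ≠ 0 := by
    rw [Ne, map_eq_zero]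
    norm_num
  obtain ⟨hty0, hty1⟩ := hTYR V H.vp KI H.unr pi
  obtain ⟨w, hw, ew⟩ := hYtyp b₀
  refine ⟨fun hi => ?_, fun hi => ?_⟩
  · rw [hsum]
    apply arith0 ht0 H.vp hx hj
    have hv := H.vpi
    rw [hi, pow_zero, mul_one] at hv
    rw [ew] at hY1 ⊢
    exact hty0 hv w hw hY1
  · rw [hsum]
    apply arith1 ht0 H.vp hx hj
    have hv := H.vpi
    rw [hi, pow_one] at hv
    have h1 := hty1 hv w hw (by rw [← ew]; exact hY1)
    rw [← ew] at h1
    rcases h1 with h1 | h1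
    · left
      refine ⟨h1, fun hjq => ?_⟩
      subst hi
      have e : comb α g (1 + 1) (z (n + 1)) b = Y b - Y (g * b) := by
        rw [hY]
        unfold comb
        simp [Finset.sum_range_succ]
        have e1 : g ^ 2 * b = g * (g * b) := by ring
        have e2 : g ^ 2 * α ^ 2 * b = g * α ^ 2 * (g * b) := by ring
        have e3 : α ^ 2 * (g * b) = g * α ^ 2 * b := by ring
        rw [e1, e2, e3]
        ring
      rw [e] at hb
      have h2 := hconst hjq b (g * b)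
      have h3 : V.valuation (Y b - Y (g * b)) ^ 4 ≤ V.valuation (3 : ℂ) := by
        calc V.valuation (Y b - Y (g * b)) ^ 4 = (V.valuation (Y b - Y (g * b)) ^ 2) ^ 2 := by
              rw [← pow_mul]
          _ ≤ (V.valuation (Y b₀) ^ 2 * V.valuation (3 : ℂ)) ^ 2 := pow_le_pow_left' h2 2
          _ = V.valuation (Y b₀) ^ 4 * V.valuation (3 : ℂ) * V.valuation (3 : ℂ) := by
              rw [mul_pow, ← pow_mul, mul_assoc, ← sq (V.valuation (3 : ℂ))]
          _ = V.valuation (3 : ℂ) := by rw [h1, one_mul]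
      exact absurd (one_le_pow₀ hb.le : 1 ≤ V.valuation (Y b - Y (g * b)) ^ 4)
        (not_le.2 (h3.trans_lt H.vp))
    · right
      exact h1

end

end Pool.Agent.MUXHN
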