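import Pool.Agent.MUX.StHR

/-!
# MUX-NS, block HR, module TYR: arithmetic of types
-/

set_option autoImplicit false

namespace Pool.Agent.MUXHN

open _root_.MU3 Pool.Agent.MuSym Pool.Agent.MUXH OnePoint

noncomputable section

/-- TYR. -/
theorem tn_TYR : Sn_TYR := by
  intro V h3 KI hunr pi
  have h30 : V.valuation (3 : ℂ) ≠ 0 := by
    rw [Valuation.ne_zero_iff]
    norm_num
  have h3p : 0 < V.valuation (3 : ℂ) := zero_lt_iff.2 h30
  -- the case `v w > 1`
  have key : ∀ w ∈ KI, 1 < V.valuation w → 1 ≤ V.valuation w ^ 2 * V.valuation (3 : ℂ) := by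
    intro w hw h1
    have hw0 : V.valuation w ≠ 0 := (lt_trans zero_lt_one h1).ne'
    have h2 : V.valuation w⁻¹ < 1 := by
      rw [map_inv₀]
      exact inv_lt_one_of_one_lt₀ h1
    have h4 := hunr _ (KI.inv_mem hw) h2
    rw [map_inv₀, inv_pow] at h4
    have h5 : V.valuation w ^ 2 ≠ 0 := pow_ne_zero _ hw0
    calc (1 : V.ValueGroup) = V.valuation w ^ 2 * (V.valuation w ^ 2)⁻¹ := (mul_inv_cancel₀ h5).symm
      _ ≤ V.valuation w ^ 2 * V.valuation (3 : ℂ) := by gcongr
  refine ⟨fun hp w hw h1 => ?_, fun hp w hw h1 => ?_⟩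
  · have hp1 : V.valuation pi = 1 := (pow_eq_one_iff_of_nonneg zero_le (by norm_num)).1 hp
    rw [map_mul, hp1, one_mul] at h1 ⊢
    exact key w hw h1
  · have hx : V.valuation (pi * w) ^ 4 * V.valuation (3 : ℂ) = V.valuation w ^ 4 := by
      rw [map_mul, mul_pow, mul_right_comm, hp, one_mul]
    rcases lt_trichotomy (V.valuation w) 1 with h | h | h
    · exfalso
      have h2 := hunr w hw h
      have h4 : V.valuation w ^ 4 ≤ V.valuation (3 : ℂ) ^ 2 := by
        calc V.valuation w ^ 4 = (V.valuation w ^ 2) ^ 2 := by rw [← pow_mul]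
          _ ≤ V.valuation (3 : ℂ) ^ 2 := by gcongr
      have h5 : V.valuation (3 : ℂ) ^ 2 < V.valuation (3 : ℂ) := by
        calc V.valuation (3 : ℂ) ^ 2 = V.valuation (3 : ℂ) * V.valuation (3 : ℂ) := pow_two _
          _ < V.valuation (3 : ℂ) * 1 := by
              exact mul_lt_mul_of_pos_left h3 h3p
          _ = V.valuation (3 : ℂ) := mul_one _
      have h6 : (1 : V.ValueGroup) ≤ V.valuation (pi * w) ^ 4 := one_le_pow₀ h1.le
      have h7 : V.valuation (3 : ℂ) ≤ V.valuation (pi * w) ^ 4 * V.valuation (3 : ℂ) := by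
        calc V.valuation (3 : ℂ) = 1 * V.valuation (3 : ℂ) := (one_mul _).symm
          _ ≤ V.valuation (pi * w) ^ 4 * V.valuation (3 : ℂ) := by gcongr
      rw [hx] at h7
      exact absurd (h7.trans h4) (not_le.2 h5)
    · left
      rw [hx, h, one_pow]
    · right
      have h2 := key w hw h
      calc (1 : V.ValueGroup) = 1 ^ 2 := (one_pow _).symm
        _ ≤ (V.valuation w ^ 2 * V.valuation (3 : ℂ)) ^ 2 := by gcongr
        _ = V.valuation w ^ 4 * V.valuation (3 : ℂ) ^ 2 := by rw [mul_pow, ← pow_mul]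
        _ = V.valuation (pi * w) ^ 4 * V.valuation (3 : ℂ) ^ 3 := by
            rw [← hx, mul_assoc, ← pow_succ']

end

end Pool.Agent.MUXHN
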