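import Pool.Agent.MUX.HNAll
import Pool.Agent.MUX.HN_TYR
import Pool.Agent.MUX.HN_DVR
import Pool.Agent.MUX.HN_HR

/-!
# MUX-NS, block HR: all statements, without hypotheses (helper87)
-/

set_option autoImplicit false

namespace Pool.Agent.MUXHN

theorem xn_TYR : Sn_TYR := tn_TYR
theorem xn_DVR : Sn_DVR := tn_DVR
theorem xn_HR : Sn_HR := tn_HR xn_BDN xn_LOC xn_KYN xn_TYR xn_DVR

end Pool.Agent.MUXHN
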