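import Pool.Agent.MUX.StHX2

/-!
# MUX, block HY, module CHR: the nebentypus
-/

set_option autoImplicit false

namespace Pool.Agent.MUXHY

open _root_.MU3 Pool.Agent.MU3A Pool.Agent.MU3B Pool.Agent.MU3F Pool.Agent.MUX Pool.Agent.MUXH
  Pool.Agent.MuSym OnePoint
open scoped ComplexConjugate

noncomputable section

namespace Chr

theorem chiX_one (A B : ℤ) : chiX A B 1 = 1 := by
  unfold chiX
  split_ifs
  · exact jacobiSym.one_left _
  · simp

theorem chiX_mul (A B d d' : ℤ) : chiX A B (d * d') = chiX A B d * chiX A B d' := by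
  unfold chiX
  split_ifs
  · exact jacobiSym.mul_left _ _ _
  · by_cases hd : d = 0
    · subst hd
      simp
    · by_cases hd' : d' = 0
      · subst hd'
        simp
      · have : NeZero d.natAbs := ⟨Int.natAbs_ne_zero.2 hd⟩
        have : NeZero d'.natAbs := ⟨Int.natAbs_ne_zero.2 hd'⟩
        rw [Int.natAbs_mul, jacobiSym.mul_right, Int.sign_mul]
        ring

variable {A B : ℤ}

theorem re_mul_int (x : OO A B) (n : ℤ) : (x * (n : OO A B)).re = x.re * n := by
  rw [QuadraticAlgebra.re_mul]
  simp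

/-- Integers which are coprime in `O` are coprime in `ℤ`. -/
theorem coprime_int {a b : ℤ} (h : IsCoprime (a : OO A B) (b : OO A B)) : IsCoprime a b := by
  obtain ⟨x, y, hxy⟩ := h
  refine ⟨x.re, y.re, ?_⟩
  have h1 := congrArg QuadraticAlgebra.re hxy
  rw [QuadraticAlgebra.re_add, re_mul_int, re_mul_int] at h1
  rw [h1]
  rfl

end Chr

open Chr

theorem ty_CHR (h1 : Sy_VAL) (h2 : Sy_IDE) (h3 : Sy_ROU) (h4 : MUXF.Sx_CHI) : Sy_CHR := by
  intro p A B P V f H e he
  obtain ⟨hpp, -, -, -, vZ, -, vru, -, -, hDpos, -⟩ := h1 p A B P V f H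
  obtain ⟨-, hPmax, -, -, hg0, hpf, hgcj, hgD, hpcj, -⟩ := h2 p A B P V f H
  have hcq : CQ A B := H.case.toCQ
  obtain ⟨r, hr0, hr⟩ := h3 A B hcq _ e hg0 he
  have hcjtop : cjI P ≠ ⊤ := by
    intro h
    have h5 : (1 : OO A B) ∈ cjI P := h ▸ Submodule.mem_top
    have h6 : (starRingEnd (OO A B)) 1 ∈ P := h5
    rw [map_one] at h6
    exact hPmax.ne_top ((Ideal.eq_top_iff_one P).2 h6)
  have ev : ∀ x, V.valuation (e x) ≤ 1 := by
    intro x
    by_cases hx : e x = 0
    · rw [hx, map_zero]
      exact zero_le_one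
    · exact (vru r (e x) hr0 (hr x hx)).le
  -- integers on which `e` does not vanish are prime to `D`
  have hcopD : ∀ d : ℤ, e (d : OO A B) ≠ 0 → IsCoprime d (absD A B) := by
    intro d hd
    have h5 := (he.supp _).1 hd
    apply coprime_int (A := A) (B := B)
    rw [← Ideal.isCoprime_span_singleton_iff]
    rw [Ideal.isCoprime_iff_sup_eq] at h5 ⊢
    exact top_le_iff.1 (h5 ▸ sup_le_sup_left hgD _)
  refine ⟨?_, ?_, ?_, ?_, ?_⟩
  · unfold nuX
    have : ((1 : ℤ) : OO A B) = 1 := by push_cast; rfl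
    rw [chiX_one, this, he.one]
    norm_num
  · unfold nuX
    have h5 : e (((p : ℤ)) : OO A B) = 0 := by
      by_contra hne
      have h6 := (he.supp _).1 hne
      rw [Ideal.isCoprime_iff_sup_eq] at h6
      apply hcjtop
      rw [← top_le_iff, ← h6]
      refine sup_le ?_ hgcj
      rw [Ideal.span_singleton_le_iff_mem]
      have h7 : (((p : ℤ)) : OO A B) = ((p : ℕ) : OO A B) := by push_cast; rfl
      rw [h7]
      exact hpcj
    rw [h5, mul_zero]
  · intro d d'
    unfold nuX
    have : ((d * d' : ℤ) : OO A B) = (d : OO A B) * (d' : OO A B) := by push_cast; rfl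
    rw [chiX_mul, this, he.mul]
    push_cast
    ring
  · intro d d' hd
    have hDnat : (((absD A B).toNat : ℕ) : ℤ) = absD A B := Int.toNat_of_nonneg hDpos.le
    have hd2 : (p : ℤ) * (absD A B * (f : ℤ) ^ 2) ∣ d - d' := by
      have h5 : ((p * N0X A B f : ℕ) : ℤ) = (p : ℤ) * (absD A B * (f : ℤ) ^ 2) := by
        unfold N0X
        push_cast
        rw [hDnat]
      rwa [h5] at hd
    obtain ⟨t, ht⟩ := hd2
    have hD : absD A B ∣ d - d' := ⟨(p : ℤ) * (f : ℤ) ^ 2 * t, by rw [ht]; ring⟩
    unfold nuX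
    by_cases hcop : IsCoprime d (absD A B)
    · have h5 : chiX A B d' = chiX A B d := ((h4 A B (toCQ hcq) d hcop).2.2 d' hD)
      have h6 : e (d : OO A B) = e (d' : OO A B) := by
        apply he.per
        have h7 : (d : OO A B) - (d' : OO A B) =
            (((absD A B * f * t : ℤ)) : OO A B) * ((p * f : ℕ) : OO A B) := by
          have h8 : (d : OO A B) - (d' : OO A B) = ((d - d' : ℤ) : OO A B) := by push_cast; rfl
          rw [h8, ht]
          push_cast
          ring
        rw [h7]
        exact Ideal.mul_mem_left _ _ hpf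
      rw [h5, h6]
    · have h5 : e (d : OO A B) = 0 := by
        by_contra hne
        exact hcop (hcopD d hne)
      have h6 : e (d' : OO A B) = 0 := by
        by_contra hne
        apply hcop
        obtain ⟨s, hs⟩ := hD
        have h7 : d = d' + absD A B * s := by linarith
        rw [h7]
        exact (IsCoprime.add_mul_left_left_iff).2 (hcopD d' hne)
      rw [h5, h6, mul_zero, mul_zero]
  · intro d
    unfold nuX
    rw [map_mul]
    exact mul_le_one' (vZ _) (ev _)

end

end Pool.Agent.MUXHY
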