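import Pool.Agent.MUX.StHX2

/-!
# MUX, block H, bridge: the projector with integral coefficients
-/

set_option autoImplicit false

namespace Pool.Agent.MUXHY

open _root_.MU3 Pool.Agent.MU3A Pool.Agent.MU3B Pool.Agent.MU3F Pool.Agent.MUX Pool.Agent.MUXH
  Pool.Agent.MuSym OnePoint
open scoped ComplexConjugate

namespace Prx

lemma ex_pow (q : ℕ) (hq : q ≠ 0) (k : ℤ) : ex ((k : ℚ) / q) ^ q = 1 := by
  unfold ex
  rw [← Complex.exp_nat_mul, Complex.exp_eq_one_iff]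
  refine ⟨k, ?_⟩
  have h : (q : ℂ) ≠ 0 := Nat.cast_ne_zero.2 hq
  push_cast
  field_simp

lemma val_le (V : ValuationSubring ℂ)
    (hr : ∀ (r : ℕ) (z : ℂ), r ≠ 0 → z ^ r = 1 → V.valuation z = 1) (q : ℕ) (hq : q ≠ 0)
    (hv : V.valuation (q : ℂ) = 1) (φ : ℤ → ℂ) (hφ : ∀ n, φ n = 0 ∨ φ n = 1) (t : ℕ) :
    V.valuation ((1 / q) * ∑ n ∈ Finset.range q, φ n * ex (-(t * n) / q)) ≤ 1 := by
  have h1 : V.valuation (1 / (q : ℂ)) = 1 := by rw [map_div₀, map_one, hv, div_one]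
  rw [map_mul, h1, one_mul]
  refine Valuation.map_sum_le _ fun n _ => ?_
  rw [map_mul]
  have h2 : V.valuation (ex (-((t : ℚ) * n) / q)) = 1 := by
    refine hr q _ hq ?_
    have h3 : (-((t : ℚ) * n) / q) = ((-((t : ℤ) * n) : ℤ) : ℚ) / q := by push_cast; ring
    rw [h3]
    exact ex_pow q hq _
  rw [h2, mul_one]
  rcases hφ n with h | h
  · rw [h, map_zero]; exact zero_le
  · rw [h, map_one]

lemma sgn_PP {A B : ℤ} {n : ℕ} {ι : Type} [Fintype ι] (R : Reps A B n ι) (P : Ideal (OO A B))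
    (e : OO A B → ℂ) (kk : ι → ℂ) (s : ℂ) (x y : OnePoint ℚ) :
    sgnPart s (PP R P e kk 0) x y =
      (∑ c, kk c / e ((nI (R.b c) : ℕ) : OO A B) * sgnPart s (PhiI (R.b c) e) x y) /
        R.om R.i0 := by
  unfold sgnPart PP
  simp only [pow_zero, mul_one]
  rw [← mul_div_assoc, ← add_div, Finset.mul_sum, ← Finset.sum_add_distrib]
  congr 1
  refine Finset.sum_congr rfl fun c _ => ?_
  ring

end Prx

theorem ty_PRX (h1 : Sy_VAL) (h2 : Sy_IDE) (h3 : MUXF.Sx_PHX) (h4 : MUXF.Sx_PRJ) : Sy_PRX := by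
  intro p A B P V f hS ι _ R e he kk s
  obtain ⟨-, -, -, -, -, -, hr, -, hvD, hD, -⟩ := h1 p A B P V f hS
  obtain ⟨-, -, -, -, hg, -, -, hgD, -, -⟩ := h2 p A B P V f hS
  obtain ⟨φ, hφ, hper, hφ2⟩ := h3 A B (toCQ hS.case.toCQ)
  have hqD : (((absD A B).toNat : ℕ) : ℤ) = absD A B := Int.toNat_of_nonneg hD.le
  have hq : (absD A B).toNat ≠ 0 := by omega
  have hv : V.valuation (((absD A B).toNat : ℕ) : ℂ) = 1 := by
    have h5 : (((absD A B).toNat : ℕ) : ℂ) = ((absD A B : ℤ) : ℂ) := by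
      rw [← Int.cast_natCast (R := ℂ) (absD A B).toNat, hqD]
    rw [h5]; exact hvD
  refine ⟨(absD A B).toNat, fun t => (1 / ((absD A B).toNat : ℂ)) *
    ∑ n ∈ Finset.range (absD A B).toNat, φ n * ex (-(t * n) / (absD A B).toNat), hq,
    fun t => Prx.val_le V hr _ hq hv φ hφ t, fun x y => ?_⟩
  have key : ∀ c, ∑ t ∈ Finset.range (absD A B).toNat, ((1 / ((absD A B).toNat : ℂ)) *
      ∑ n ∈ Finset.range (absD A B).toNat, φ n * ex (-(t * n) / (absD A B).toNat)) *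
      sgnPart s (PhiI (R.b c) e) (mob (absD A B).toNat t 0 (absD A B).toNat x)
        (mob (absD A B).toNat t 0 (absD A B).toNat y) = PhiI (R.b c) e x y := by
    intro c
    exact h4 A B (toCQ hS.case.toCQ) (R.b c) _ e (R.nl c).b_ne hg (toEI he) _ φ hq
      (fun n => by rw [hqD]; exact hper n)
      (hφ2 (R.b c) _ e (R.nl c).b_ne (toEI he) hgD) s x y
  have e1 : PP R P e kk 0 x y = (∑ c, kk c / e ((nI (R.b c) : ℕ) : OO A B) *
      PhiI (R.b c) e x y) / R.om R.i0 := by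
    unfold PP
    simp only [pow_zero, mul_one]
  rw [e1]
  simp only [Prx.sgn_PP]
  simp only [← mul_div_assoc]
  rw [← Finset.sum_div]
  congr 1
  simp only [Finset.mul_sum (s := (Finset.univ : Finset ι))]
  rw [Finset.sum_comm]
  refine Finset.sum_congr rfl fun c _ => ?_
  rw [← key c, Finset.mul_sum]
  refine Finset.sum_congr rfl fun t _ => ?_
  ring

end Pool.Agent.MUXHY
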