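import Pool.Agent.MUX.StJX
import Pool.Agent.MU3.I_IRES

/-!
# MUX, block J, module RES: the residue field of a valuation ring of `ℂ` above `p`
-/

set_option autoImplicit false

namespace Pool.Agent.MUXJ

/-- JRES. -/
theorem t_RES : Sj_RES := by
  intro p hp V hV
  refine ⟨?_, Pool.Agent.MU3I.isAlgClosed_residueField V⟩
  rw [CharP.charP_iff_prime_eq_zero hp.out]
  obtain ⟨h4, h5⟩ := ValuationSubring.mem_nonunits_iff_exists_mem_maximalIdeal.1 hV
  have h6 : ((p : ℕ) : IsLocalRing.ResidueField V) = IsLocalRing.residue V ⟨(p : ℂ), h4⟩ := by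
    have h7 : (⟨(p : ℂ), h4⟩ : V) = ((p : ℕ) : V) := Subtype.ext rfl
    rw [h7, map_natCast]
  rw [h6]
  exact (IsLocalRing.residue_eq_zero_iff _).2 h5

end Pool.Agent.MUXJ
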