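import Pool.Agent.MUX.StIX
import Pool.Agent.MUX.XLib
import Pool.Agent.MUX.J_RES
import Pool.Agent.MUX.K_GALX
import Pool.Agent.MU3.I_ITG
import Pool.Agent.MU3.I_I3F

/-!
# MUX, block IX, module I3: the result of the block
-/

set_option autoImplicit false

namespace Pool.Agent.MUXI

open _root_.MU3 Pool.Agent.MU3 Pool.Agent.MU3A Pool.Agent.MU3B Pool.Agent.RI Pool.Agent.RID
  Pool.Agent.MUX Pool.Agent.MUXE Pool.Agent.MUXK
open Pool.Agent.MU3I (w3 zt)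

noncomputable section

namespace I3P

/-- if the product is a `p`-th power, then the sum has `HfX` -/
theorem pows (hFOU : Si_FOU) (hTG : Pool.Agent.MU3I.St_ITG) {p : ℕ} (hp : p.Prime) {A B : ℤ}
    {P : Ideal (OO A B)} {V : ValuationSubring ℂ} {f : ℕ} {ι : Type} {R : Reps A B (p * f) ι}
    {c : ι → ℤ} {n : ℕ} {D : IntermediateField ℚ ℂ} [FiniteDimensional ℚ D] (h : kk A B ≤ D) :
    letI := algC h
    ∀ (C : (D ≃ₐ[kk A B] D) → ℂ) (_ : EInp p P V f R c n h C)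
      (_ : ∀ σ τ : D ≃ₐ[kk A B] D, σ * τ = τ * σ)
      (w : OO A B → ℤ) (_ : OddW p P (lvX p f n) w) (c₀ : ℂ) (hc : c₀ ∈ D) (_ : c₀ = C 1)
      (γ : D ≃ₐ[kk A B] D) (Δ : Subgroup (D ≃ₐ[kk A B] D)) [Fintype Δ] (N : ℕ) (b : Δ → ℕ)
      (X : Δ →* ℂˣ) (_ : (∑ δ : Δ, (b δ : ℂ) * (X δ : ℂ)) ∉ V.nonunits) (y : D)
      (_ : y ^ p = ∏ δ : Δ, ((δ : D ≃ₐ[kk A B] D) ((Tg γ)^[N] ⟨c₀, hc⟩)) ^ b δ),
      HfX p V (∑ j ∈ Finset.range (N + 1), (((-1 : ℤ) ^ (N - j) * (N.choose j : ℤ) : ℤ) : ℂ) *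
        ∑ δ : Δ, (((X δ)⁻¹ : ℂˣ) : ℂ) * (1 / 2 *
          TTw R (fun i => (c i : ℂ)) w (lvX p f n) (aX p f) h
            (γ ^ j * (δ : D ≃ₐ[kk A B] D)))) := by
  classical
  let akL : Algebra (kk A B) D := algC h
  intro C hE comm w hw c₀ hc h₀ γ Δ iΔ N b X hX y hy
  have fdk : FiniteDimensional (kk A B) D := Module.Finite.of_restrictScalars_finite ℚ (kk A B) D
  have iG : Fintype (D ≃ₐ[kk A B] D) := Fintype.ofFinite _
  let cj : ℕ → ℤ := fun j => (-1 : ℤ) ^ (N - j) * (N.choose j : ℤ)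
  let g : (D ≃ₐ[kk A B] D) → ℤ := fun τ => ∑ δ : Δ, ∑ j ∈ Finset.range (N + 1),
      if (δ : D ≃ₐ[kk A B] D) * γ ^ j = τ then (b δ : ℤ) * cj j else 0
  have hcne : (⟨c₀, hc⟩ : D) ≠ 0 := by
    intro h0
    have h1 : c₀ = 0 := congrArg Subtype.val h0
    exact hE.ne (h₀.symm.trans h1)
  have hcτ : ∀ τ : D ≃ₐ[kk A B] D, ((τ ⟨c₀, hc⟩ : D) : ℂ) = C τ := by
    intro τ
    obtain ⟨z, hz1, hz2⟩ := hE.conj τ
    have h1 : z = ⟨c₀, hc⟩ := Subtype.ext (hz1.trans h₀.symm)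
    rw [← h1]
    exact hz2
  have hu : ∀ τ : D ≃ₐ[kk A B] D, C τ ≠ 0 := by
    intro τ h0
    rw [← hcτ τ] at h0
    have h1 : τ (⟨c₀, hc⟩ : D) = 0 := Subtype.ext h0
    exact hcne ((map_eq_zero_iff τ τ.injective).1 h1)
  have e1 : (y : ℂ) ^ p = ∏ᶠ τ : D ≃ₐ[kk A B] D, C τ ^ g τ := by
    rw [Pool.Agent.MU3I.I3F.prod_exp γ Δ _ hu (fun δ => (b δ : ℤ)) N cj g (fun τ => rfl)]
    have h1 : (y : ℂ) ^ p = D.val (y ^ p) := rfl
    rw [h1, hy, map_prod]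
    refine Finset.prod_congr rfl fun δ _ => ?_
    rw [Pool.Agent.MU3I.I3F.tg_pow hTG _ _ γ δ _ hcne N (b δ), map_prod]
    refine Finset.prod_congr rfl fun j _ => ?_
    rw [map_zpow₀]
    exact congrArg (fun w : ℂ => w ^ ((b δ : ℤ) * cj j)) (hcτ ((δ : D ≃ₐ[kk A B] D) * γ ^ j))
  have e2 := hE.ew w hw g ⟨y, y.2, e1⟩
  refine hFOU p hp V (D ≃ₐ[kk A B] D) comm γ Δ
    (fun τ => 1 / 2 * TTw R (fun i => (c i : ℂ)) w (lvX p f n) (aX p f) h τ)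
    (fun δ => (b δ : ℤ)) N cj X ?_ ?_
  · simpa using hX
  · intro τ'
    have e3 := e2 τ'
    rw [Pool.Agent.MU3I.I3F.sum_exp γ Δ
      (fun τ => TTw R (fun i => (c i : ℂ)) w (lvX p f n) (aX p f) h τ)
      (fun δ => (b δ : ℤ)) N cj g (fun τ => rfl) τ', Finset.mul_sum] at e3
    convert e3 using 1
    refine Finset.sum_congr rfl fun δ _ => ?_
    rw [Finset.mul_sum]
    refine Finset.sum_congr rfl fun j _ => ?_
    ring

lemma q0_dvd {p : ℕ} : q0 p ∣ p ^ 2 := by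
  unfold q0
  split_ifs with h
  · subst h
    norm_num
  · exact dvd_pow_self p two_ne_zero

lemma lv_dvd (p f n : ℕ) : lvX p f 0 ∣ lvX p f n := by
  unfold lvX
  rw [pow_zero, mul_one]
  exact dvd_mul_right _ _

lemma two_le_lv {p f : ℕ} (hp : p = 2 ∨ p = 3) (hf : f ≠ 0) (n : ℕ) : 2 ≤ lvX p f n := by
  have h1 : 0 < p ^ n := by
    rcases hp with rfl | rfl
    · exact pow_pos (by norm_num) _
    · exact pow_pos (by norm_num) _
  have h2 : 2 ≤ q0 p := by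
    rcases hp with rfl | rfl
    · decide
    · decide
  have h3 : 1 ≤ f := Nat.one_le_iff_ne_zero.2 hf
  unfold lvX
  calc 2 = 1 * 2 * 1 := by norm_num
    _ ≤ f * q0 p * p ^ n := Nat.mul_le_mul (Nat.mul_le_mul h3 h2) h1

lemma cop_lv {p f m : ℕ} (h : m.Coprime (p * f)) (n : ℕ) : m.Coprime (lvX p f n) := by
  have h1 : m.Coprime p := Nat.Coprime.coprime_mul_right_right h
  have h2 : m.Coprime f := Nat.Coprime.coprime_mul_left_right h
  have h3 : m.Coprime (q0 p) := Nat.Coprime.coprime_dvd_right q0_dvd (Nat.Coprime.pow_right 2 h1)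
  unfold lvX
  exact Nat.Coprime.mul_right (Nat.Coprime.mul_right h2 h3) (Nat.Coprime.pow_right n h1)

lemma val_root {V : ValuationSubring ℂ} {x : ℂ} {r : ℕ} (hr : r ≠ 0) (hx : x ^ r = 1) :
    V.valuation x = 1 := by
  have h1 : V.valuation x ^ r = 1 := by rw [← map_pow, hx, map_one]
  rcases lt_trichotomy (V.valuation x) 1 with h | h | h
  · exact absurd h1 (ne_of_lt (pow_lt_one₀ zero_le h hr))
  · exact h
  · exact absurd h1 (ne_of_gt (one_lt_pow₀ h hr))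

lemma w3_pm {m : ℕ} (h : m.Coprime 3) : w3 (m : ℤ) = 1 ∨ w3 (m : ℤ) = -1 := by
  have h1 : ¬ 3 ∣ m := by
    intro h2
    have h3 := Nat.eq_one_of_dvd_coprimes h h2 (dvd_refl 3)
    omega
  unfold Pool.Agent.MU3I.w3
  have h4 : (m : ℤ) % 3 = 1 ∨ (m : ℤ) % 3 = 2 := by omega
  rcases h4 with h4 | h4
  · left
    rw [if_pos h4]
  · right
    rw [if_neg (by omega), if_pos h4]

lemma val_pm {V : ValuationSubring ℂ} {c : ℤ} (h : c = 1 ∨ c = -1) :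
    V.valuation (c : ℂ) = 1 := by
  rcases h with rfl | rfl
  · rw [Int.cast_one, map_one]
  · rw [Int.cast_neg, Int.cast_one, Valuation.map_neg, map_one]

end I3P

/-- (I3) THE RESULT of block IX. -/
theorem ti_I3 (hHFX : Si_HFX) (hCHI : Si_CHI) (hFOU : Si_FOU) (hEPS3 : Si_EPS3)
    (hEPS2 : Si_EPS2) (hARF : Si_ARF) (hXXF : Si_XXF) (hE0 : Si_E0) (hSUB : Si_SUB)
    (hGAM : Si_GAM) (hXMX : Si_XMX) (hBIJ : Si_BIJ) (hTH : Si_TH) (hGEN : Si_GEN)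
    (hALM : Pool.Agent.MUXY.Sy_ALM) (hHY : Pool.Agent.MUXHY.Sy_HFX) : Si_I3 := by
  classical
  intro p hp A B P V f hS hTor ι hι R hmu c hc K Bn fdK fdKB hB hdeg hKT hk hkK C hE c₀ mem hc₀
  let akK : Algebra (kk A B) K := algC hkK
  intro χ N n₀
  have hC : CQ A B := hS.case.toCQ
  have hp23 : p = 2 ∨ p = 3 := by
    rcases hS.case.split with h | h
    · exact Or.inr h.1
    · exact Or.inl h.1
  have hpV : (p : ℂ) ∈ V.nonunits := by
    have h1 := (hS.hV ((p : ℕ) : OO A B)).2 hS.hP.mem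
    rwa [Pool.Agent.MUX.emb_natCast hC] at h1
  obtain ⟨hchar, hacl⟩ := Pool.Agent.MUXJ.t_RES p V hpV
  have galK : IsGalois (kk A B) K := (isGalois_algC hkK).2 hB.gal
  have fdkK : FiniteDimensional (kk A B) K :=
    Module.Finite.of_restrictScalars_finite ℚ (kk A B) K
  have commK : ∀ a b : K ≃ₐ[kk A B] K, a * b = b * a := by
    intro a b
    have h1 := hB.ab ((extEquiv hkK).symm.autCongr a) ((extEquiv hkK).symm.autCongr b)
    rw [← map_mul, ← map_mul] at h1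
    exact (extEquiv hkK).symm.autCongr.injective h1
  let iGK : Fintype (K ≃ₐ[kk A B] K) := Fintype.ofFinite _
  have hcardK : ¬ p ∣ Fintype.card (K ≃ₐ[kk A B] K) := by
    rw [← Nat.card_eq_fintype_card, IsGalois.card_aut_eq_finrank]
    have h1 := finrank_algC hkK
    intro h2
    exact hdeg (h1 ▸ h2)
  obtain ⟨X, θ, hXθ⟩ := hCHI p V hpV hchar hacl (K ≃ₐ[kk A B] K) commK hcardK χ
  obtain ⟨rr, hrr⟩ : ∃ rr, rr = Fintype.card (K ≃ₐ[kk A B] K) := ⟨_, rfl⟩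
  have hrr0 : rr ≠ 0 := by
    rw [hrr]
    exact Fintype.card_ne_zero
  have hXr : ∀ τ, X τ ^ rr = 1 := by
    intro τ
    rw [← map_pow, hrr, pow_card_eq_one, map_one]
  obtain ⟨e0, kp, h01, h0m, h0mul, h0per, h0supp, h0pow, hkp, h0X⟩ :=
    hE0 p A B P V f hS hTor ι R K hkK hKT galK X rr hXr
  obtain ⟨w, e, s, hw, he, hs, hs2, hes⟩ : ∃ (w : OO A B → ℤ) (e : OO A B → ℂ) (s : ℤ),
      (∀ n, OddW p P (lvX p f n) w) ∧ IsEI (idl f * cjI P) e ∧ (s = 1 ∨ s = -1) ∧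
      (p = 2 → s = 1) ∧ ∀ x, IsCoprime x ((lvX p f 0 : ℕ) : OO A B) →
        e0 x * (w x : ℂ) = e x * (if s = 1 then 1 else (w3 (nm x) : ℂ)) := by
    rcases hp23 with rfl | rfl
    · obtain ⟨w, e, hw, he, hes⟩ := hEPS2 A B P V f hS e0 rr (hrr ▸ hcardK) h01 h0m h0mul h0per
        h0supp h0pow
      exact ⟨w, e, 1, hw, he, Or.inl rfl, fun _ => rfl, fun x hx => by
        rw [if_pos rfl, mul_one]
        exact hes x hx⟩
    · obtain ⟨hw, e, s, he, hs, hes⟩ := hEPS3 A B P V f hS e0 h01 h0m h0mul h0per h0supp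
      exact ⟨wP P, e, s, hw, he, hs, fun h => absurd h (by decide), hes⟩
  have hw3 : ∀ i, s = 1 ∨ (w3 (nI (R.b i)) = 1 ∨ w3 (nI (R.b i)) = -1) := by
    intro i
    rcases hp23 with h2 | h3
    · exact Or.inl (hs2 h2)
    · right
      apply I3P.w3_pm
      have h5 : ∀ m : ℕ, m.Coprime p → m.Coprime 3 := fun m h => h3 ▸ h
      exact h5 _ (Nat.Coprime.coprime_mul_right_right (R.cop i))
  have halg : ∀ i, IsAlgebraic ℚ (kkX R kp c s i) := by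
    intro i
    have h1 : IsAlgebraic ℚ (kp i) := by
      have h2 : IsIntegral ℚ (kp i) := IsIntegral.of_pow (Nat.pos_of_ne_zero hrr0) (by
        rw [hkp i]
        exact isIntegral_one)
      exact h2.isAlgebraic
    have h3 : IsAlgebraic ℚ ((c i : ℤ) : ℂ) := isAlgebraic_intCast (c i)
    have h4 : IsAlgebraic ℚ (muX R i) := (hALM A B hC hTor _ ι inferInstance R i).1
    have h5 : IsAlgebraic ℚ (if s = 1 then 1 else (w3 (nI (R.b i)) : ℂ)) := by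
      split_ifs
      · exact isAlgebraic_one
      · exact isAlgebraic_intCast _
    unfold kkX
    rw [div_eq_mul_inv]
    exact ((h1.mul h3).mul h4.inv).mul h5
  have hval : ∀ i, V.valuation (kkX R kp c s i) = 1 := by
    intro i
    have h5 : V.valuation (if s = 1 then 1 else (w3 (nI (R.b i)) : ℂ)) = 1 := by
      split_ifs with h6
      · exact map_one _
      · exact I3P.val_pm ((hw3 i).resolve_left h6)
    unfold kkX
    rw [map_mul, map_div₀, map_mul, hmu i, I3P.val_root hrr0 (hkp i), I3P.val_pm (hc i), h5]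
    simp
  obtain ⟨h', r', hh', hN⟩ := hHY p A B P V f hS ι hι R e he (kkX R kp c s) halg hval s hs
  obtain ⟨n₁, hn₁⟩ := hN (N + 1) (by omega)
  obtain ⟨n, hn⟩ : ∃ n, n = r' + h' * (n₀ + n₁ + 1) := ⟨_, rfl⟩
  have hnge : n₀ + n₁ + 1 ≤ n := by
    have h1 : 1 * (n₀ + n₁ + 1) ≤ h' * (n₀ + n₁ + 1) := Nat.mul_le_mul_right _ hh'
    omega
  have hmod : n % h' = r' % h' := by
    rw [hn, Nat.add_mul_mod_self_left]
  have hnot := hn₁ n (by omega) hmod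
  refine ⟨n, by omega, ?_⟩
  have hn1 : 1 ≤ n := by omega
  let akL : Algebra (kk A B) ↥(K ⊔ Bn n) := algC (hk n)
  intro γ hγ iF r hr
  refine ⟨θ, fun y hy => ?_⟩
  obtain ⟨gal, comm⟩ := Pool.Agent.MUXK.t_GALX p (kk A B) K Bn hB n (hk n)
  have fdk : FiniteDimensional (kk A B) ↥(K ⊔ Bn n) :=
    Module.Finite.of_restrictScalars_finite ℚ (kk A B) ↥(K ⊔ Bn n)
  have iG : Finite (↥(K ⊔ Bn n) ≃ₐ[kk A B] ↥(K ⊔ Bn n)) := inferInstance
  obtain ⟨hbij, hmul⟩ := hBIJ p (kk A B) K Bn hB n (hk n) hkK r hr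
  let rH : NC (hk n) (Bn n) →* (K ≃ₐ[kk A B] K) := MonoidHom.mk' r hmul
  let X' : NC (hk n) (Bn n) →* ℂˣ := X.comp rH
  let b : NC (hk n) (Bn n) → ℕ :=
    fun δ => (θ ((χ (r δ))⁻¹ : (IsLocalRing.ResidueField V)ˣ)).val
  have hbX : (∑ δ : NC (hk n) (Bn n), (b δ : ℂ) * (X' δ : ℂ)) ∉ V.nonunits := by
    have h1 := hbij.sum_comp (fun σ : K ≃ₐ[kk A B] K =>
      ((θ ((χ σ)⁻¹ : (IsLocalRing.ResidueField V)ˣ)).val : ℂ) * (X σ : ℂ))
    have h2 : (∑ δ : NC (hk n) (Bn n), (b δ : ℂ) * (X' δ : ℂ)) =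
      ∑ δ : (K ≃ₐ[kk A B] K), ((θ ((χ δ)⁻¹ : (IsLocalRing.ResidueField V)ˣ)).val : ℂ) *
        (X δ : ℂ) := h1
    rw [h2]
    exact hXθ
  obtain ⟨γ₀, hγ₀K, hγ₀z⟩ := hGAM p hp23 (kk A B) K Bn hB n (hk n)
  have hex : ∃ (b : Ideal (OO A B)) (L : PeriodPair) (om : ℂ), IsNL b L om :=
    ⟨R.b R.i0, R.L R.i0, R.om R.i0, R.nl R.i0⟩
  have hRF := hSUB p A B P V f hS hTor hex K hKT n (Bn n) (hB.lay n)
  have hXM := hXMX p A B P V f hS hTor ι R K (Bn n) n (hk n) (hB.lay n) hRF gal γ₀ hγ₀z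
  have h2m : 2 ≤ lvX p f n := I3P.two_le_lv hp23 hS.f0 n
  have hcopm : ∀ i, (nI (R.b i)).Coprime (lvX p f n) := fun i => I3P.cop_lv (R.cop i) n
  have hmne : idl (A := A) (B := B) (lvX p f n) ≠ ⊥ := by
    intro h0
    rw [Ideal.span_singleton_eq_bot] at h0
    exact Pool.Agent.MUX.natCast_ne_zero' hC (by omega : lvX p f n ≠ 0) h0
  have hdvd : ((lvX p f 0 : ℕ) : OO A B) ∣ ((lvX p f n : ℕ) : OO A B) :=
    Nat.cast_dvd_cast (I3P.lv_dvd p f n)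
  have hχ : ∀ (δ : NC (hk n) (Bn n)) (j : ℕ), ∀ q ∈ XX R (lvX p f n) (hk n)
      (γ₀ ^ j * (δ : ↥(K ⊔ Bn n) ≃ₐ[kk A B] ↥(K ⊔ Bn n))),
      (((X' δ)⁻¹ : ℂˣ) : ℂ) = kp q.1 * e0 (Quotient.out q.2) := by
    intro δ j q hq
    have hcop := hq.1
    have hq2 : Ideal.Quotient.mk (idl (A := A) (B := B) (lvX p f n)) (Quotient.out q.2) = q.2 :=
      Quotient.out_eq' q.2
    have h1 : AR (hk n) (idl (lvX p f n)) (γ₀ ^ j * (δ : ↥(K ⊔ Bn n) ≃ₐ[kk A B] ↥(K ⊔ Bn n)))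
        (sp (Quotient.out q.2) * cjI (R.b q.1)) := by
      refine ((hXXF A B hC hTor _ ι R (lvX p f n) h2m hcopm (K ⊔ Bn n) (hk n) hRF gal).1 _ q.1
        (Quotient.out q.2) hcop).1 ?_
      rw [hq2]
      exact hq
    have h2 : AR hkK (idl (lvX p f 0)) (r δ) (sp (Quotient.out q.2) * cjI (R.b q.1)) := by
      refine (hARF A B hC hTor hex (idl (lvX p f n)) hmne (K ⊔ Bn n) (hk n) hRF gal).2.2.2.2.2.1 K
        hkK (idl (lvX p f 0)) ?_ le_sup_left _ (r δ) _ ?_ h1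
      · exact Ideal.span_singleton_le_span_singleton.2 hdvd
      · intro x x' hx'
        have h3 := hr δ x x' hx'
        have h4 : (((δ : ↥(K ⊔ Bn n) ≃ₐ[kk A B] ↥(K ⊔ Bn n)) x' : ↥(K ⊔ Bn n)) : ℂ) ∈ K := by
          rw [h3]
          exact (r δ x).2
        have h5 : ∀ i : ℕ, (γ₀ ^ i) ((δ : ↥(K ⊔ Bn n) ≃ₐ[kk A B] ↥(K ⊔ Bn n)) x') =
            (δ : ↥(K ⊔ Bn n) ≃ₐ[kk A B] ↥(K ⊔ Bn n)) x' := by
          intro i
          induction i with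
          | zero => rw [pow_zero, AlgEquiv.one_apply]
          | succ i ih => rw [pow_succ, AlgEquiv.mul_apply, (hγ₀K _).2 h4, ih]
        rw [AlgEquiv.mul_apply, h5 j, h3]
    exact h0X (r δ) q.1 (Quotient.out q.2) (hcop.of_isCoprime_of_dvd_right hdvd) h2
  have hTHj := hTH p A B P V f hS ι R n _ γ₀ (NC (hk n) (Bn n)) _ hXM X' e0 kp c w e s h0per
    (hw n) he hs hs2 hes hχ
  have hcne : c₀ n ≠ 0 := by
    rw [hc₀ n hn1]
    exact (hE n hn1).ne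
  have key := hGEN p (kk A B) K Bn hB n (hk n) (c₀ n) (mem n) hcne (N + 1) γ₀ hγ₀K b
    (fun y hy => ?_) γ hγ
  · -- from `N + 1` to `N`
    refine key (Tg γ y) ?_
    have e1 := congrArg (Tg γ) hy
    rw [Pool.Agent.MU3I.tg_prod] at e1
    have e2 : Tg γ (y ^ p) = Tg γ y ^ p := by
      unfold Tg
      rw [map_pow, div_pow]
    rw [e2] at e1
    rw [e1]
    refine Finset.prod_congr rfl fun δ _ => ?_
    congr 1
    rw [Function.iterate_succ_apply']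
    unfold Tg
    rw [map_div₀]
    congr 1
    exact AlgEquiv.congr_fun (comm γ (δ : ↥(K ⊔ Bn n) ≃ₐ[kk A B] ↥(K ⊔ Bn n))) _
  · have hHf := I3P.pows hFOU Pool.Agent.MU3I.t_ITG hp.out (hk n) (C n) (hE n hn1) comm w (hw n)
      (c₀ n) (mem n) (hc₀ n hn1) γ₀ (NC (hk n) (Bn n)) (N + 1) b X' hbX y hy
    have h4 : (∑ j ∈ Finset.range (N + 1 + 1),
        (((-1 : ℤ) ^ (N + 1 - j) * ((N + 1).choose j : ℤ) : ℤ) : ℂ) *
        ∑ δ : NC (hk n) (Bn n), (((X' δ)⁻¹ : ℂˣ) : ℂ) * (1 / 2 *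
          TTw R (fun i => (c i : ℂ)) w (lvX p f n) (aX p f) (hk n)
            (γ₀ ^ j * (δ : ↥(K ⊔ Bn n) ≃ₐ[kk A B] ↥(K ⊔ Bn n))))) =
        1 / 2 * ∑ j ∈ Finset.range (N + 1 + 1),
          ((-1 : ℂ) ^ (N + 1 - j) * ((N + 1).choose j : ℂ)) *
          (STX R (lvX p f n) (q0 p * p ^ n) (aX p f) e (kkX R kp c s) ((1 + (q0 p : ℤ)) ^ j) +
            s * STX R (lvX p f n) (q0 p * p ^ n) (aX p f) e (kkX R kp c s)
              (-(1 + (q0 p : ℤ)) ^ j)) := by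
      rw [Finset.mul_sum]
      refine Finset.sum_congr rfl fun j _ => ?_
      rw [← hTHj j]
      have h5 : (∑ δ : NC (hk n) (Bn n), (((X' δ)⁻¹ : ℂˣ) : ℂ) * (1 / 2 *
          TTw R (fun i => (c i : ℂ)) w (lvX p f n) (aX p f) (hk n)
            (γ₀ ^ j * (δ : ↥(K ⊔ Bn n) ≃ₐ[kk A B] ↥(K ⊔ Bn n))))) =
          1 / 2 * ∑ δ : NC (hk n) (Bn n), (((X' δ)⁻¹ : ℂˣ) : ℂ) *
          TTw R (fun i => (c i : ℂ)) w (lvX p f n) (aX p f) (hk n)
            (γ₀ ^ j * (δ : ↥(K ⊔ Bn n) ≃ₐ[kk A B] ↥(K ⊔ Bn n))) := by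
        rw [Finset.mul_sum]
        refine Finset.sum_congr rfl fun δ _ => ?_
        ring
      rw [h5]
      unfold TTw
      push_cast
      ring
    rw [h4] at hHf
    apply hnot
    by_cases h2 : p = 2
    · rw [if_pos h2]
      exact hHf
    · rw [if_neg h2, one_mul]
      have h2V : (2 : ℂ) ∈ V := by
        have h5 := natCast_mem V 2
        exact_mod_cast h5
      have h3 := (hHFX p hp.out V).2.2.1 2 _ h2V hHf
      rw [← mul_assoc] at h3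
      norm_num at h3
      exact h3

end

end Pool.Agent.MUXI
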