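import Pool.Agent.MUX.StJX
import Pool.Agent.MU3.Z_ZLAY

/-!
# MUX, block J, module LAY: the layers exist, form a tower and are unique (helper72)
-/

set_option autoImplicit false

open NumberField Polynomial

namespace Pool.Agent.MUXJ

namespace Lay

open Pool.Agent.RI Pool.Agent.RID Pool.Agent.MU3I Pool.Agent.MU3I.Ilay

/-- the layer `ℚ(ζ + ζ⁻¹)`, `ζ` of order `2^(n+2)` -/
noncomputable def B2 (n : ℕ) : IntermediateField ℚ ℂ :=
  IntermediateField.adjoin ℚ {zt (2 ^ (n + 2)) + (zt (2 ^ (n + 2)))⁻¹}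

lemma real2 (n : ℕ) : ∀ x ∈ B2 n, (starRingEnd ℂ) x = x := by
  have hM : 2 ^ (n + 2) ≠ 0 := pow_ne_zero _ (by norm_num)
  unfold B2
  set ζ := zt (2 ^ (n + 2)) with hζ
  have hζp : IsPrimitiveRoot ζ (2 ^ (n + 2)) := zt_prim _ hM
  have hζc : (starRingEnd ℂ) ζ = ζ⁻¹ := conj_root hM hζp.pow_eq_one
  set R := IntermediateField.adjoin ℚ {ζ + ζ⁻¹} with hR
  set c : ℂ →ₐ[ℚ] ℂ := (Complex.conjAe.toAlgHom).restrictScalars ℚ with hc
  have hcz : ∀ z : ℂ, c z = (starRingEnd ℂ) z := fun z => rfl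
  have hRR : R ≤ (AlgHom.equalizer c (AlgHom.id ℚ ℂ)).toIntermediateField (fun x hx => by
      have hx' : c x = x := hx
      show c x⁻¹ = x⁻¹
      rw [map_inv₀, hx']) := by
    rw [hR, IntermediateField.adjoin_simple_le_iff]
    show c (ζ + ζ⁻¹) = ζ + ζ⁻¹
    rw [map_add, map_inv₀, hcz, hζc, inv_inv, add_comm]
  exact fun x hx => hRR hx

lemma deg2 (n : ℕ) : Module.finrank ℚ (B2 n) = 2 ^ n := by
  have hM : 2 ^ (n + 2) ≠ 0 := pow_ne_zero _ (by norm_num)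
  have hr := real2 n
  unfold B2 at hr ⊢
  set ζ := zt (2 ^ (n + 2)) with hζ
  have hζp : IsPrimitiveRoot ζ (2 ^ (n + 2)) := zt_prim _ hM
  have hζ0 : ζ ≠ 0 := hζp.ne_zero hM
  have hζc : (starRingEnd ℂ) ζ = ζ⁻¹ := conj_root hM hζp.pow_eq_one
  apply deg ζ (2 ^ n) hζ0
  · have hint : IsIntegral ℚ ζ := (hζp.isIntegral (Nat.pos_of_ne_zero hM)).tower_top
    rw [IntermediateField.adjoin.finrank hint,
      ← cyclotomic_eq_minpoly_rat hζp (Nat.pos_of_ne_zero hM), natDegree_cyclotomic,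
      Nat.totient_prime_pow_succ Nat.prime_two, pow_succ]
    norm_num
  · intro h1
    have h2 := hr _ h1
    rw [hζc] at h2
    have h3 : ζ ^ 2 = 1 := by
      rw [pow_two]
      nth_rewrite 1 [← h2]
      exact inv_mul_cancel₀ hζ0
    have h4 := hζp.dvd_of_pow_eq_one 2 h3
    have h5 : 2 ^ 2 ∣ 2 := (pow_dvd_pow 2 (by omega : 2 ≤ n + 2)).trans h4
    omega

lemma layer2 (n : ℕ) : IsLayer 2 n (B2 n) := by
  have hM : 2 ^ (n + 2) ≠ 0 := pow_ne_zero _ (by norm_num)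
  have hζp : IsPrimitiveRoot (zt (2 ^ (n + 2))) (2 ^ (n + 2)) := zt_prim _ hM
  refine ⟨deg2 n, real2 n, n + 2, ?_⟩
  have hζj : zt (2 ^ (n + 2)) ∈ IntermediateField.adjoin ℚ {z : ℂ | z ^ (2 ^ (n + 2)) = 1} :=
    IntermediateField.subset_adjoin _ _ hζp.pow_eq_one
  unfold B2
  rw [IntermediateField.adjoin_simple_le_iff]
  exact add_mem hζj (inv_mem hζj)

lemma zt_sq (n : ℕ) : zt (2 ^ (n + 1 + 2)) ^ 2 = zt (2 ^ (n + 2)) := by
  unfold zt
  rw [← Complex.exp_nat_mul]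
  congr 1
  push_cast
  field_simp
  ring

lemma mono2 : Monotone B2 := by
  refine monotone_nat_of_le_succ (fun n => ?_)
  have hM : 2 ^ (n + 1 + 2) ≠ 0 := pow_ne_zero _ (by norm_num)
  have hp : IsPrimitiveRoot (zt (2 ^ (n + 1 + 2))) (2 ^ (n + 1 + 2)) := zt_prim _ hM
  have h0 : zt (2 ^ (n + 1 + 2)) ≠ 0 := hp.ne_zero hM
  unfold B2
  rw [IntermediateField.adjoin_simple_le_iff, ← zt_sq n]
  set ζ := zt (2 ^ (n + 1 + 2)) with hζ
  have h1 : ζ + ζ⁻¹ ∈ IntermediateField.adjoin ℚ {ζ + ζ⁻¹} :=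
    IntermediateField.mem_adjoin_simple_self ℚ _
  have e : ζ ^ 2 + (ζ ^ 2)⁻¹ = (ζ + ζ⁻¹) ^ 2 - 2 := by
    field_simp
    ring
  rw [e]
  exact sub_mem (pow_mem h1 2) (natCast_mem _ 2)

lemma uniq2 (n : ℕ) (Q : IntermediateField ℚ ℂ) (hQ : IsLayer 2 n Q) : Q = B2 n := by
  obtain ⟨hdeg, hreal, m, hle⟩ := hQ
  have hp : Fact (Nat.Prime 2) := ⟨Nat.prime_two⟩
  set j := max m (n + 2) with hj
  have hN : 2 ^ j ≠ 0 := pow_ne_zero _ (by norm_num)
  have hM : 2 ^ (n + 2) ≠ 0 := pow_ne_zero _ (by norm_num)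
  have hζp : IsPrimitiveRoot (zt (2 ^ (n + 2))) (2 ^ (n + 2)) := zt_prim _ hM
  -- the fields are contained in the cyclotomic field
  have hBj : Q ≤ IntermediateField.adjoin ℚ {z : ℂ | z ^ (2 ^ j) = 1} := by
    refine hle.trans (IntermediateField.adjoin.mono _ _ _ ?_)
    intro z hz
    have hz' : z ^ 2 ^ m = 1 := hz
    obtain ⟨t, ht⟩ := pow_dvd_pow 2 (le_max_left m (n + 2))
    show z ^ 2 ^ j = 1
    rw [hj, ht, pow_mul, hz', one_pow]
  have hζj : zt (2 ^ (n + 2)) ∈ IntermediateField.adjoin ℚ {z : ℂ | z ^ (2 ^ j) = 1} := by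
    apply IntermediateField.subset_adjoin
    obtain ⟨t, ht⟩ := pow_dvd_pow 2 (le_max_right m (n + 2))
    show zt (2 ^ (n + 2)) ^ 2 ^ j = 1
    rw [hj, ht, pow_mul, hζp.pow_eq_one, one_pow]
  have hRj : B2 n ≤ IntermediateField.adjoin ℚ {z : ℂ | z ^ (2 ^ j) = 1} := by
    unfold B2
    rw [IntermediateField.adjoin_simple_le_iff]
    exact add_mem hζj (inv_mem hζj)
  set c : ℂ →ₐ[ℚ] ℂ := (Complex.conjAe.toAlgHom).restrictScalars ℚ with hc
  have hcz : ∀ z : ℂ, c z = (starRingEnd ℂ) z := fun z => rfl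
  have hfix := fix_sup c Q (B2 n) (fun x hx => hreal x hx) (fun x hx => real2 n x hx)
  have hBR : Q ⊔ B2 n ≤ IntermediateField.adjoin ℚ {z : ℂ | z ^ (2 ^ j) = 1} := sup_le hBj hRj
  have hab := LAY.isAbelian_of_le (F := ℚ) (E := ℂ) (2 ^ j) hN
    ⟨_, Complex.isPrimitiveRoot_exp _ hN⟩ (Q ⊔ B2 n) hBR
  have hG := hab.toIsGalois
  have hirr : Irreducible (cyclotomic (2 ^ j) ℚ) :=
    cyclotomic.irreducible_rat (Nat.pos_of_ne_zero hN)
  have hcyc := LAYC.gen (F := ℚ) (E := ℂ) 2 j hirr (Complex.isPrimitiveRoot_exp _ hN) c (by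
    rw [hcz]
    exact conj_root hN (Complex.isPrimitiveRoot_exp _ hN).pow_eq_one) (Q ⊔ B2 n) hBR hfix
  have : FiniteDimensional ℚ Q := Module.finite_of_finrank_pos (by rw [hdeg]; positivity)
  have : FiniteDimensional ℚ (B2 n) :=
    Module.finite_of_finrank_pos (by rw [deg2]; positivity)
  have hfd : FiniteDimensional ℚ ↥(Q ⊔ B2 n) := IntermediateField.finiteDimensional_sup Q (B2 n)
  exact uniq Q (B2 n) (Q ⊔ B2 n) le_sup_left le_sup_right (hdeg.trans (deg2 n).symm)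

end Lay

/-- LAY. -/
theorem t_LAY : Sj_LAY := by
  rintro p (rfl | rfl)
  · exact ⟨Lay.B2, Lay.layer2, Lay.mono2, Lay.uniq2⟩
  · exact MU3Z.t_ZLAY

end Pool.Agent.MUXJ
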