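import Pool.Agent.MUX.StIX

/-!
# MUX, block IX, module ARF: the Artin symbol for a field `D`, `k ≤ D ≤ RF m`
-/

set_option autoImplicit false

namespace Pool.Agent.MUXI

open _root_.MU3 Pool.Agent.MU3 Pool.Agent.MU3A Pool.Agent.MU3B Pool.Agent.RI Pool.Agent.RID
  Pool.Agent.MUX Pool.Agent.MUXE Pool.Agent.MUXK
open Pool.Agent.MU3I (w3 zt)

namespace I_ARF

/-- automorphisms of `ℂ` with `FixK` are trivial on `k` -/
lemma fix {A B : ℤ} {σ : ℂ ≃+* ℂ} (hσ : FixK A B σ) : ∀ y ∈ kk A B, σ y = y := by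
  intro y hy
  induction hy using IntermediateField.adjoin_induction with
  | mem x hx => rw [Set.mem_singleton_iff] at hx; rw [hx]; exact hσ
  | algebraMap x => simp
  | add x y _ _ hx hy => rw [map_add, hx, hy]
  | inv x _ hx => rw [map_inv₀, hx]
  | mul x y _ _ hx hy => rw [map_mul, hx, hy]

/-- every automorphism of `ℂ` over `k` has a restriction to `D`, if `D / k` is normal -/
lemma restr {A B : ℤ} {σ : ℂ ≃+* ℂ} (hσ : FixK A B σ) (D : IntermediateField ℚ ℂ)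
    (h : kk A B ≤ D) (hG : letI := algC h; IsGalois (kk A B) D) :
    letI := algC h
    ∃ τ : D ≃ₐ[kk A B] D, ExtC h τ σ := by
  let aD : Algebra (kk A B) D := algC h
  have hG' : IsGalois (kk A B) D := hG
  have tD : IsScalarTower (kk A B) D ℂ := IsScalarTower.of_algebraMap_eq (fun _ => rfl)
  let s : ℂ ≃ₐ[kk A B] ℂ := AlgEquiv.ofRingEquiv (f := σ) (fun r => fix hσ _ r.2)
  refine ⟨s.restrictNormal D, ?_⟩
  intro y
  exact (AlgEquiv.restrictNormal_commutes s D y).symm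

end I_ARF

open I_ARF in
theorem ti_ARF (h1 : Si_IAF) (h2 : Si_IAG) : Si_ARF := by
  intro A B hQ hT hN m hm D h hD
  let aD : Algebra (kk A B) D := algC h
  intro hG
  obtain ⟨i1, i2, i3, -, -, -, i7, i8⟩ := h1 A B hQ hT hN m hm
  obtain ⟨g1, -, g3⟩ := h2 A B hQ hT hN m hm
  refine ⟨⟨RingEquiv.refl ℂ, g1, fun y => rfl⟩, ?_, ?_, ?_, ?_, ?_, ?_⟩
  · intro a ha hc
    obtain ⟨σ, hσ⟩ := i2 a ha hc
    obtain ⟨τ, hτ⟩ := restr hσ.fix D h hG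
    exact ⟨τ, σ, hσ, hτ⟩
  · intro τ
    obtain ⟨σ, hσ, hE⟩ := hT.ext m hm D h hD τ
    obtain ⟨a, ha⟩ := i1 σ hσ
    exact ⟨a, ha.cop, σ, ha, hE⟩
  · rintro τ τ' a a' ⟨σ, hσ, hE⟩ ⟨σ', hσ', hE'⟩ hR
    have h3 := (g3 σ σ' a a' hσ hσ').1 hR
    ext y
    have e1 : σ (y : ℂ) = ((τ y : D) : ℂ) := hE y
    have e2 : σ' (y : ℂ) = ((τ' y : D) : ℂ) := hE' y
    have e3 := h3 y (hD y y.2)
    show ((τ y : D) : ℂ) = ((τ' y : D) : ℂ)
    rw [← e1, ← e2, e3]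
  · rintro τ τ' a a' ⟨σ, hσ, hE⟩ ⟨σ', hσ', hE'⟩
    refine ⟨σ'.trans σ, ?_, ?_⟩
    · have h3 := i3 σ' σ a' a hσ' hσ
      rwa [mul_comm a' a] at h3
    · intro y
      have e1 : σ' (y : ℂ) = ((τ' y : D) : ℂ) := hE' y
      have e2 : σ ((τ' y : D) : ℂ) = ((τ (τ' y) : D) : ℂ) := hE (τ' y)
      show σ (σ' (y : ℂ)) = ((τ (τ' y) : D) : ℂ)
      rw [e1, e2]
  · intro K hK m' hmm hKD
    let aK : Algebra (kk A B) K := algC hK
    rintro τ τK a hres ⟨σ, hσ, hE⟩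
    refine ⟨σ, i7 σ a m' hmm hσ, ?_⟩
    intro x
    have e1 : σ (x : ℂ) = ((τ ⟨(x : ℂ), hKD x.2⟩ : D) : ℂ) := hE ⟨(x : ℂ), hKD x.2⟩
    show σ (x : ℂ) = ((τK x : K) : ℂ)
    rw [e1]
    exact hres x ⟨(x : ℂ), hKD x.2⟩ rfl
  · rintro M τ a z y hM hle ⟨σ, hσ, hE⟩ hz hy
    have h3 := (i8 M σ a z hM hle hσ hz).2
    have e1 : σ (y : ℂ) = ((τ y : D) : ℂ) := hE y
    rw [← e1, hy, map_add, map_inv₀, h3]

end Pool.Agent.MUXI
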