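import Pool.Agent.MUX.StIX

/-!
# MUX, block IX, module HIT (helper28): `σ` hits the pair `(i, x)` iff it acts as the ideal `x cjI (b i)`
-/

set_option autoImplicit false

namespace Pool.Agent.MUXI

open _root_.MU3 Pool.Agent.MU3 Pool.Agent.MU3A Pool.Agent.MU3B Pool.Agent.RI Pool.Agent.RID
  Pool.Agent.MUX Pool.Agent.MUXE Pool.Agent.MUXK
open Pool.Agent.MU3I (w3 zt)

noncomputable section

namespace Hit

/-- two multipliers of the same ideal with normalised targets: the targets are equal, the multipliers are equal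
up to sign -/
lemma lat_eq {A B : ℤ} (a : Ideal (OO A B)) (L L' L'' : PeriodPair) (mu mu' : ℂ)
    (hL' : L'.g₂ = -18 * L'.g₃) (hL'' : L''.g₂ = -18 * L''.g₃) (h : IsQ a L L' mu)
    (h' : IsQ a L L'' mu') :
    (∀ z : ℂ, z ∈ L'.lattice ↔ z ∈ L''.lattice) ∧ (mu' = mu ∨ mu' = -mu) := by
  obtain ⟨h0, h1⟩ := h
  obtain ⟨h0', h1'⟩ := h'
  have hs : mu' / mu ≠ 0 := div_ne_zero h0' h0
  have key : ∀ z : ℂ, z ∈ L'.lattice ↔ mu' / mu * z ∈ L''.lattice := by
    intro z
    have e1 : mu * (z / mu) = z := mul_div_cancel₀ z h0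
    have e2 : mu' * (z / mu) = mu' / mu * z := by ring
    rw [← e2, h1', ← h1, e1]
  set s : ℂ := mu' / mu with hsdef
  obtain ⟨-, -, g2, g3⟩ := ta_SCP L' L'' s hs key
  have hd := (b_DSC L').1
  have h30 : L'.g₃ ≠ 0 := by
    intro h0
    apply hd
    rw [hL', h0]
    ring
  have hss : s ^ 2 = 1 := by
    rw [g2, g3, hL'] at hL''
    have h4 : -18 * L'.g₃ * s ^ 2 = -18 * L'.g₃ := by
      have h5 : -18 * L'.g₃ / s ^ 4 * s ^ 6 = -18 * (L'.g₃ / s ^ 6) * s ^ 6 := by rw [hL'']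
      have h6 : -18 * L'.g₃ / s ^ 4 * s ^ 6 = -18 * L'.g₃ * s ^ 2 := by field_simp
      have h7 : -18 * (L'.g₃ / s ^ 6) * s ^ 6 = -18 * L'.g₃ := by field_simp
      rw [h6, h7] at h5
      exact h5
    have h8 : (-18 * L'.g₃) * (s ^ 2 - 1) = 0 := by linear_combination h4
    rcases mul_eq_zero.1 h8 with h9 | h9
    · rcases mul_eq_zero.1 h9 with h10 | h10
      · norm_num at h10
      · exact absurd h10 h30
    · linear_combination h9
  have h1 : (s - 1) * (s + 1) = 0 := by linear_combination hss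
  rcases mul_eq_zero.1 h1 with h2 | h2
  · have hs1 : s = 1 := sub_eq_zero.1 h2
    refine ⟨fun z => ?_, Or.inl ?_⟩
    · rw [key z, hs1, one_mul]
    · rw [hsdef, div_eq_iff h0, one_mul] at hs1
      exact hs1
  · have hs1 : s = -1 := eq_neg_of_add_eq_zero_left h2
    refine ⟨fun z => ?_, Or.inr ?_⟩
    · rw [key z, hs1, neg_one_mul, neg_mem_iff]
    · rw [hsdef, div_eq_iff h0] at hs1
      rw [hs1]
      ring

/-- equal lattices have the same functions and invariants -/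
lemma same (L L' : PeriodPair) (h : ∀ z : ℂ, z ∈ L.lattice ↔ z ∈ L'.lattice) :
    (∀ z, xn L' z = xn L z) ∧ kap L' = kap L := by
  have hs := ta_SCP L L' 1 one_ne_zero (fun u => by rw [one_mul]; exact h u)
  refine ⟨fun z => ?_, ?_⟩
  · unfold xn
    have : L'.weierstrassP z = L.weierstrassP z := by simpa using hs.1 z
    rw [this]
  · unfold kap
    have : L'.g₂ = L.g₂ := by simpa using hs.2.2.1
    rw [this]

/-- `m` does not divide `1` -/
lemma not_unit {A B : ℤ} (m : ℕ) (hm : 2 ≤ m) (y : OO A B) (h : (1 : OO A B) = (m : ℕ) * y) :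
    False := by
  have h5 : (1 : ℤ) = (m : ℤ) * y.re := by
    have := congrArg QuadraticAlgebra.re h
    simpa [QuadraticAlgebra.re_one] using this
  have h6 : (m : ℤ) ∣ 1 := ⟨y.re, h5⟩
  have h7 := Int.natCast_dvd_natCast.1 (by simpa using h6 : ((m : ℕ) : ℤ) ∣ ((1 : ℕ) : ℤ))
  have h8 := Nat.le_of_dvd one_pos h7
  omega

lemma cop_ne {A B : ℤ} (m : ℕ) (hm : 2 ≤ m) (x : OO A B) (h : IsCoprime x (m : OO A B)) :
    x ≠ 0 := by
  rintro rfl
  obtain ⟨u, v, huv⟩ := h
  refine not_unit (A := A) (B := B) m hm v ?_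
  rw [← huv]
  ring

/-- a point of level `m` in the lattice -/
lemma pt_mem {A B : ℤ} (hc : CQ A B) (hALG : Pool.Agent.MUXF.Sx_ALG) {n₀ : ℕ} {ι : Type}
    (R : Reps A B n₀ ι) (m : ℕ) (hm : m ≠ 0) (i : ι) (hcop : (nI (R.b i)).Coprime m)
    (y : OO A B) (h : pt R m i y ∈ (R.L i).lattice) : y ∈ idl (A := A) (B := B) m := by
  obtain ⟨hmul, hz, hint, -, -⟩ := hALG A B (Pool.Agent.MUXY.cqF hc)
  have hem : ∀ x y : OO A B, emb (x * y) = emb x * emb y := fun x y => (hmul x y).1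
  have heZ : ∀ k : ℤ, emb ((k : ℤ) : OO A B) = (k : ℂ) := fun k => (hint k).1
  have heN : ∀ k : ℕ, emb ((k : ℕ) : OO A B) = (k : ℂ) := fun k => by
    have := heZ (k : ℤ)
    rwa [Int.cast_natCast, Int.cast_natCast] at this
  have hes : ∀ x y : OO A B, emb x = emb y → x = y := by
    intro x y hxy
    have h1 : emb ((x - y) + y) = emb (x - y) + emb y := (hmul (x - y) y).2.1
    rw [sub_add_cancel, hxy] at h1
    have h2 : emb (x - y) = 0 := by linear_combination -h1
    exact sub_eq_zero.1 ((hz _).1.1 h2)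
  have hmC : (m : ℂ) ≠ 0 := by exact_mod_cast hm
  have hom : R.om i ≠ 0 := (R.nl i).om_ne
  obtain ⟨s, -, hs⟩ := ((R.nl i).mem _).1 h
  have h1 : ((nI (R.b i) : ℕ) : OO A B) * y = (m : ℕ) * s := by
    apply hes
    rw [hem, hem, heN, heN]
    unfold pt at hs
    field_simp at hs
    linear_combination hs
  obtain ⟨u, v, huv⟩ := Nat.isCoprime_iff_coprime.2 hcop
  have h2 : (u : OO A B) * ((nI (R.b i) : ℕ) : OO A B) + (v : OO A B) * (m : ℕ) = 1 := by
    have := congrArg (fun k : ℤ => (k : OO A B)) huv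
    push_cast at this
    exact this
  refine Ideal.mem_span_singleton.2 ⟨(u : OO A B) * s + (v : OO A B) * y, ?_⟩
  linear_combination (-y) * h2 + (u : OO A B) * h1

/-- from the ideal to the point -/
lemma hit_of {A B : ℤ} (hc : CQ A B) (hALG : Pool.Agent.MUXF.Sx_ALG)
    (hMUI : Pool.Agent.MUXY.Sy_MUI) {n₀ : ℕ} {ι : Type}
    (R : Reps A B n₀ ι) (m : ℕ) (hm : 2 ≤ m) (hcop : ∀ i, (nI (R.b i)).Coprime m)
    (σ : ℂ ≃+* ℂ) (i : ι) (x : OO A B) (hx : IsCoprime x (m : OO A B))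
    (hIA : IA σ (idl m) (sp x * cjI (R.b i))) : Hits R m σ i x := by
  obtain ⟨hmul, hz, hint, -, -⟩ := hALG A B (Pool.Agent.MUXY.cqF hc)
  have hem : ∀ x y : OO A B, emb (x * y) = emb x * emb y := fun x y => (hmul x y).1
  have heZ : ∀ k : ℤ, emb ((k : ℤ) : OO A B) = (k : ℂ) := fun k => (hint k).1
  have heN : ∀ k : ℕ, emb ((k : ℕ) : OO A B) = (k : ℂ) := fun k => by
    have := heZ (k : ℤ)
    rwa [Int.cast_natCast, Int.cast_natCast] at this
  have he1 : emb (1 : OO A B) = 1 := by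
    have := heN 1
    rwa [Nat.cast_one, Nat.cast_one] at this
  have hm0 : m ≠ 0 := by omega
  have hmC : (m : ℂ) ≠ 0 := by exact_mod_cast hm0
  have hx0 : x ≠ 0 := cop_ne m hm x hx
  have hex0 : emb x ≠ 0 := fun h => hx0 ((hz x).1.1 h)
  obtain ⟨b', L', om', mu, hnl', hact⟩ := hIA.act _ _ _ (R.nl R.i0)
  have hq : IsQ (cjI (R.b i)) (R.L R.i0) (R.L i) (muX R i) := hMUI A B hc n₀ ι R i
  have hq2 : IsQ (sp x * cjI (R.b i)) (R.L R.i0) (R.L i) (emb x * muX R i) := by
    refine ⟨mul_ne_zero hex0 hq.1, fun z => ?_⟩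
    have e1 : emb x * muX R i * z = muX R i * (emb x * z) := by ring
    rw [e1, hq.2]
    constructor
    · intro h y hy
      obtain ⟨y', hy', rfl⟩ := Ideal.mem_span_singleton_mul.1 hy
      have := h y' hy'
      rw [hem]
      have e2 : emb x * emb y' * z = emb y' * (emb x * z) := by ring
      rw [e2]
      exact this
    · intro h y hy
      have := h (x * y) (Ideal.mem_span_singleton_mul.2 ⟨y, hy, rfl⟩)
      rw [hem] at this
      have e2 : emb x * emb y * z = emb y * (emb x * z) := by ring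
      rw [e2] at this
      exact this
  obtain ⟨hlat, hpm⟩ := lat_eq _ _ _ _ _ _ hnl'.nrm (R.nl i).nrm hact.isq hq2
  obtain ⟨hxn, hkap⟩ := same L' (R.L i) hlat
  have hN0 : nI (R.b R.i0) = 1 := by
    rw [R.b0]
    change Nat.card (OO A B ⧸ (⊤ : Ideal (OO A B))) = 1
    have : Subsingleton (OO A B ⧸ (⊤ : Ideal (OO A B))) :=
      Ideal.Quotient.subsingleton_iff.2 rfl
    exact Nat.card_unique
  have hom0 : R.om R.i0 ≠ 0 := (R.nl R.i0).om_ne
  have hz0 : pt R m R.i0 1 = R.om R.i0 / m := by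
    unfold pt
    rw [hN0, he1]
    simp
  have hTor : Tor (idl (A := A) (B := B) m) (R.L R.i0) (pt R m R.i0 1) := by
    intro y hy
    obtain ⟨t, rfl⟩ := Ideal.mem_span_singleton.1 hy
    refine ((R.nl R.i0).mem _).2 ⟨t, by rw [R.b0]; trivial, ?_⟩
    rw [hem, heN, hz0]
    field_simp
  have hz0L : pt R m R.i0 1 ∉ (R.L R.i0).lattice := by
    intro h
    have h1 := pt_mem hc hALG R m hm0 R.i0 (hcop _) 1 h
    obtain ⟨t, ht⟩ := Ideal.mem_span_singleton.1 h1
    exact not_unit m hm t ht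
  have hpt : emb x * muX R i * pt R m R.i0 1 = pt R m i x := by
    rw [hz0]
    unfold pt muX
    field_simp
  rcases hact.act _ hTor with ⟨h1, -⟩ | ⟨-, h2, h3, -⟩
  · exact absurd h1 hz0L
  · rcases hpm with e | e
    · have e1 : pt R m i x = mu * pt R m R.i0 1 := by rw [← hpt, e]
      refine ⟨?_, ?_, ?_⟩
      · rw [hkap, hact.kap]
      · rw [h3, hxn, e1]
      · rw [e1, ← hlat]
        exact h2
    · have e1 : pt R m i x = -(mu * pt R m R.i0 1) := by rw [← hpt, e]; ring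
      refine ⟨?_, ?_, ?_⟩
      · rw [hkap, hact.kap]
      · rw [h3, hxn, e1]
        unfold xn
        rw [PeriodPair.weierstrassP_neg]
      · rw [e1, ← hlat, neg_mem_iff]
        exact h2

end Hit

open Hit in
/-- (HIT) `σ` hits the pair `(i, x)` iff it acts as the ideal `x cjI (b i)`. -/
theorem ti_HIT (h1 : Si_IAF) (h2 : Si_IAG) (h3 : Si_RPR)
    (h5 : Pool.Agent.MUXY.Sy_MUI) (h6 : Pool.Agent.MUXY.Sy_UNJ)
    (h7 : Pool.Agent.MUXF.Sx_ALG) : Si_HIT := by
  intro A B hc hT n₀ ι R m hm hcop σ hfix i x hx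
  refine ⟨fun hh => ?_, fun h => hit_of hc h7 h5 R m hm hcop σ i x hx h⟩
  obtain ⟨hmul, hz, hint, -, -⟩ := h7 A B (Pool.Agent.MUXY.cqF hc)
  have hm0 : m ≠ 0 := by omega
  have hmb : (idl (A := A) (B := B) m) ≠ ⊥ := by
    intro h
    have h4 : ((m : ℕ) : OO A B) = 0 := by
      have : ((m : ℕ) : OO A B) ∈ (idl (A := A) (B := B) m) := Ideal.mem_span_singleton_self _
      rw [h] at this
      exact this
    have h5 := congrArg QuadraticAlgebra.re h4
    simp at h5
    omega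
  have hex : ∃ (b : Ideal (OO A B)) (L : PeriodPair) (om : ℂ), IsNL b L om :=
    ⟨_, _, _, R.nl R.i0⟩
  obtain ⟨i1, -, -, -, i5, -⟩ := h1 A B hc hT hex _ hmb
  obtain ⟨-, j2, -⟩ := h2 A B hc hT hex _ hmb
  obtain ⟨a, ha⟩ := i1 σ hfix
  obtain ⟨p1, p2⟩ := h3 A B hc n₀ ι R m hm0 hcop
  obtain ⟨j, x', hx', hRE⟩ := p2 a (j2 σ a ha).1 ha.cop
  have hIA := i5 σ a _ ha (p1 j x' hx') hRE
  have hh' := hit_of hc h7 h5 R m hm hcop σ j x' hx' hIA
  have hk : kap (R.L i) = kap (R.L j) := hh.1.trans hh'.1.symm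
  have hg2 : (R.L i).g₂ = (R.L j).g₂ := by
    unfold kap at hk
    linear_combination 144 * hk
  have hg3 : (R.L i).g₃ = (R.L j).g₃ := by
    have e1 := (R.nl i).nrm
    have e2 := (R.nl j).nrm
    linear_combination (-1 / 18) * hg2 + (1 / 18) * e1 - (1 / 18) * e2
  have hij : i = j := h6 A B hc n₀ ι R i j hg2 hg3
  subst hij
  have hP : (R.L i).weierstrassP (pt R m i x) = (R.L i).weierstrassP (pt R m i x') := by
    have e1 := hh.2.1.symm.trans hh'.2.1
    unfold xn at e1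
    linear_combination e1
  have hdiff : x - x' ∈ idl (A := A) (B := B) m ∨ x + x' ∈ idl (A := A) (B := B) m := by
    rcases b_NEQ (R.L i) _ _ hh'.2.2 hh.2.2 hP with e | e
    · left
      apply pt_mem hc h7 R m hm0 i (hcop i)
      have e1 : pt R m i (x - x') = pt R m i x - pt R m i x' := by
        have e2 : emb ((x - x') + x') = emb (x - x') + emb x' := (hmul _ _).2.1
        rw [sub_add_cancel] at e2
        unfold pt
        rw [e2]
        ring
      rw [e1]
      exact e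
    · right
      apply pt_mem hc h7 R m hm0 i (hcop i)
      have e1 : pt R m i (x + x') = pt R m i x + pt R m i x' := by
        have e2 : emb (x + x') = emb x + emb x' := (hmul _ _).2.1
        unfold pt
        rw [e2]
        ring
      rw [e1]
      exact e
  have hx0 : x ≠ 0 := cop_ne m hm x hx
  have hx0' : x' ≠ 0 := cop_ne m hm x' hx'
  have hcx : IsCoprime (sp x) (idl (A := A) (B := B) m) :=
    (Ideal.isCoprime_span_singleton_iff _ _).2 hx
  have hRE2 : RE (idl m) (sp x' * cjI (R.b i)) (sp x * cjI (R.b i)) := by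
    rcases hdiff with e | e
    · exact ⟨x, x', hx0, hx0', hcx, e, by rw [mul_left_comm]⟩
    · refine ⟨x, -x', hx0, neg_ne_zero.2 hx0', hcx, by rwa [sub_neg_eq_add], ?_⟩
      have e3 : sp (-x') = sp x' := Ideal.span_singleton_neg x'
      rw [e3, mul_left_comm]
  exact i5 σ _ _ hIA (p1 i x hx) hRE2

end

end Pool.Agent.MUXI
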