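import Pool.Agent.MUX.StIX
import Pool.Agent.MU3.A_SCP

/-!
# MUX, block IX, module IAF: facts on the action through ideals, first part (helper72)
-/

set_option autoImplicit false

namespace Pool.Agent.MUXI

open _root_.MU3 Pool.Agent.MU3 Pool.Agent.MU3A Pool.Agent.MU3B Pool.Agent.RI Pool.Agent.RID
  Pool.Agent.MUX Pool.Agent.MUXE Pool.Agent.MUXK
open Pool.Agent.MU3I (w3 zt)

noncomputable section

namespace Iaf

variable {A B : ℤ}

/-- `ActI` depends only on the lattice of the target -/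
lemma act_congr {σ : ℂ ≃+* ℂ} {m a : Ideal (OO A B)} {L L₁ L₂ : PeriodPair} {mu : ℂ}
    (hl : L₂.lattice = L₁.lattice) (hk : kap L₁ = kap L₂) (h : ActI σ m a L L₂ mu) :
    ActI σ m a L L₁ mu := by
  obtain ⟨h1, h2, -, -⟩ := ta_SCP L₂ L₁ 1 one_ne_zero (fun u => by rw [one_mul, hl])
  have hx : ∀ z, xn L₁ z = xn L₂ z := by
    intro z
    unfold xn
    have := h1 z
    rw [one_mul, one_pow, div_one] at this
    rw [this]
  have hy : ∀ z, yy L₁ z = yy L₂ z := by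
    intro z
    unfold yy
    have := h2 z
    rw [one_mul, one_pow, div_one] at this
    rw [this]
  refine ⟨?_, h.cop, ?_, ?_⟩
  · rw [hk]
    exact h.kap
  · refine ⟨h.isq.1, fun z => ?_⟩
    rw [← hl]
    exact h.isq.2 z
  · intro z hz
    rcases h.act z hz with ⟨i1, i2⟩ | ⟨i1, i2, i3, i4⟩
    · left
      exact ⟨i1, by rw [← hl]; exact i2⟩
    · right
      refine ⟨i1, by rw [← hl]; exact i2, ?_, ?_⟩
      · rw [hx]
        exact i3
      · rw [hy]
        exact i4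

/-- two normalised lattices with the same `kap` are equal -/
lemma lat_eq (hDET : Pool.Agent.MUXU.Su_DET) {b₁ b₂ : Ideal (OO A B)} {L₁ L₂ : PeriodPair}
    {om₁ om₂ : ℂ} (h1 : IsNL b₁ L₁ om₁) (h2 : IsNL b₂ L₂ om₂) (hk : kap L₁ = kap L₂) :
    L₂.lattice = L₁.lattice := by
  have e2 : L₂.g₂ = L₁.g₂ := by
    unfold kap at hk
    linear_combination (-144 : ℂ) * hk
  have e3 : L₂.g₃ = L₁.g₃ := by
    have i1 := h1.nrm
    have i2 := h2.nrm
    linear_combination (-(1 / 18) : ℂ) * i1 + (1 / 18 : ℂ) * i2 - (1 / 18 : ℂ) * e2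
  exact hDET L₂ L₁ e2 e3

lemma cop_mono {a m m' : Ideal (OO A B)} (h : m ≤ m') (hc : IsCoprime a m) : IsCoprime a m' := by
  rw [Ideal.isCoprime_iff_sup_eq] at hc ⊢
  rw [eq_top_iff, ← hc]
  exact sup_le_sup_left h a

end Iaf

open Iaf in
theorem ti_IAF (hDET : Pool.Agent.MUXU.Su_DET) : Si_IAF := by
  intro A B _ hT hex m hm
  refine ⟨?_, ?_, ?_, ?_, ?_, ?_, ?_, ?_⟩
  · intro σ hσ
    obtain ⟨a, hc, ha⟩ := hT.act m hm σ hσ
    exact ⟨a, hσ, hc, ha⟩
  · intro a ha0 ha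
    obtain ⟨σ, hσ, h⟩ := hT.surj m hm a ha0 ha
    exact ⟨σ, hσ, ha, h⟩
  · intro σ τ a b h1 h2
    refine ⟨?_, h1.cop.mul_left h2.cop, ?_⟩
    · have i1 := h1.fix
      have i2 := h2.fix
      unfold FixK at *
      rw [RingEquiv.trans_apply, i1, i2]
    · intro b₀ L om hL
      obtain ⟨b', L', om', mu, hL', hact⟩ := h1.act b₀ L om hL
      obtain ⟨b'', L'', om'', nu, hL'', hact'⟩ := h2.act b' L' om' hL'
      exact ⟨b'', L'', om'', nu * mu, hL'', hT.comp m a b σ τ L L' L'' mu nu hact hact'⟩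
  · intro σ a a' h1 h2
    obtain ⟨b, L, om, hL⟩ := hex
    obtain ⟨b₁, L₁, om₁, mu, hL₁, ha1⟩ := h1.act b L om hL
    obtain ⟨b₂, L₂, om₂, mu', hL₂, ha2⟩ := h2.act b L om hL
    have hk : kap L₁ = kap L₂ := by rw [ha1.kap, ha2.kap]
    have ha3 := act_congr (lat_eq hDET hL₁ hL₂ hk) hk ha2
    obtain ⟨x, y, e1, e2, e3, e4, e5, -⟩ :=
      hT.uniq m a a' σ L L₁ mu mu' hm ⟨b, om, hL⟩ ha1 ha3
    exact ⟨x, y, e2, e3, e1, e4, e5⟩
  · intro σ a a' h1 hc hre
    obtain ⟨x, y, hx, hy, hxm, hxy, he⟩ := hre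
    refine ⟨h1.fix, hc, ?_⟩
    intro b L om hL
    obtain ⟨b', L', om', mu, hL', hact⟩ := h1.act b L om hL
    exact ⟨b', L', om', mu * emb x / emb y, hL',
      hT.chg m a a' σ L L' mu x y hm hc hxm hx hy hxy he ⟨b, om, hL⟩ hact⟩
  · intro σ a h1
    obtain ⟨b, L, om, hL⟩ := hex
    obtain ⟨b', L', om', mu, hL', hact⟩ := h1.act b L om hL
    exact hT.triv m a σ b L L' om mu hm h1.fix hL hact hL'.nrm
  · intro σ a m' hmm h1
    refine ⟨h1.fix, cop_mono hmm h1.cop, ?_⟩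
    intro b L om hL
    obtain ⟨b', L', om', mu, hL', hact⟩ := h1.act b L om hL
    refine ⟨b', L', om', mu, hL', hact.kap, cop_mono hmm h1.cop, hact.isq, ?_⟩
    intro z hz
    exact hact.act z (fun x hx => hz x (hmm hx))
  · intro M σ a z hM hle h1 hz
    obtain ⟨b, L, om, hL⟩ := hex
    obtain ⟨b', L', om', mu, hL', hact⟩ := h1.act b L om hL
    exact hT.zeta M m a σ b L L' om mu hm h1.fix hM hle hL hact z hz

end

end Pool.Agent.MUXI
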