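import Pool.Agent.MUX.StIX

/-!
# MUX, block IX: module RPR (every ray class contains an ideal `x cjI (b i)`)
-/

set_option autoImplicit false

namespace Pool.Agent.MUXI

open _root_.MU3 Pool.Agent.MU3 Pool.Agent.MU3A Pool.Agent.MU3B Pool.Agent.RI Pool.Agent.RID
  Pool.Agent.MUX Pool.Agent.MUXE Pool.Agent.MUXK
open Pool.Agent.MU3I (w3 zt)

noncomputable section

namespace RPR

variable {A B : ℤ}

lemma cop_of_mem {b : Ideal (OO A B)} {N m : ℕ} (hN : ((N : ℕ) : OO A B) ∈ b)
    (h : N.Coprime m) : IsCoprime b (idl (A := A) (B := B) m) := by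
  rw [Ideal.isCoprime_iff_exists]
  have h1 : IsCoprime (N : ℤ) (m : ℤ) := Nat.isCoprime_iff_coprime.2 h
  obtain ⟨s, t, hst⟩ := h1
  refine ⟨(s : OO A B) * ((N : ℕ) : OO A B), b.mul_mem_left _ hN,
    (t : OO A B) * ((m : ℕ) : OO A B), ?_, ?_⟩
  · exact Ideal.mul_mem_left _ _ (Ideal.mem_span_singleton_self _)
  · have := congrArg (Int.cast : ℤ → OO A B) hst
    push_cast at this
    exact this

end RPR

open RPR in
theorem ti_RPR (h1 : Pool.Agent.MUXF.Sx_ALG) (h2 : Pool.Agent.MUXF.Sx_IDL)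
    (h3 : Pool.Agent.MUXF.Sx_NIM) : Si_RPR := by
  intro A B hC n₀ ι R m hm hcop
  have hF := Pool.Agent.MUXY.cqF hC
  obtain ⟨-, e2, e3, -, hdom⟩ := h1 A B hF
  obtain ⟨n1, -, n3, n4⟩ := h3 A B hF
  have hI := h2 A B hF
  have cj : ∀ i, IsCoprime (cjI (R.b i)) (idl (A := A) (B := B) m) := by
    intro i
    obtain ⟨c1, c2, c3, c4⟩ := n3 (R.b i) (R.nl i).b_ne
    obtain ⟨d1, d2, d3, d4⟩ := n3 (cjI (R.b i)) c3
    refine cop_of_mem (N := nI (R.b i)) ?_ (hcop i)
    have c1' : nI (cjI (R.b i)) = nI (R.b i) := c1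
    have d4' : ((nI (cjI (R.b i)) : ℕ) : OO A B) ∈ cjI (R.b i) := d4
    rw [c1'] at d4'
    exact d4'
  refine ⟨fun i x hx => ?_, fun a ha hac => ?_⟩
  · refine IsCoprime.mul_left ?_ (cj i)
    exact (Ideal.isCoprime_span_singleton_iff _ _).2 hx
  · obtain ⟨c1, c2, c3, c4⟩ := n3 a ha
    obtain ⟨i, u, v, hu, hv, huv⟩ := R.surj (cjI a) c3
    have hb := (R.nl i).b_ne
    obtain ⟨hNa, ha2⟩ := hI a ha
    obtain ⟨hNb, hb2⟩ := hI (R.b i) hb
    have hspv : sp v ≠ (⊥ : Ideal (OO A B)) := by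
      rw [Ne, Ideal.span_singleton_eq_bot]
      exact hv
    have k1 : sp v * (a * R.b i) = sp (u * ((nI a : ℕ) : OO A B)) := by
      have q1 : a * (sp u * cjI a) = a * (sp v * R.b i) := by rw [huv]
      have q2 : a * cjI a = sp ((nI a : ℕ) : OO A B) := ha2
      calc sp v * (a * R.b i) = a * (sp v * R.b i) := mul_left_comm _ _ _
        _ = a * (sp u * cjI a) := q1.symm
        _ = sp u * (a * cjI a) := mul_left_comm _ _ _
        _ = sp u * sp ((nI a : ℕ) : OO A B) := by rw [q2]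
        _ = sp (u * ((nI a : ℕ) : OO A B)) := Ideal.span_singleton_mul_span_singleton _ _
    have q3 : u * ((nI a : ℕ) : OO A B) ∈ sp v * (a * R.b i) := by
      rw [k1]
      exact Ideal.mem_span_singleton_self _
    have q3' : u * ((nI a : ℕ) : OO A B) ∈ sp v :=
      (Ideal.mul_le_left : sp v * (a * R.b i) ≤ sp v) q3
    have q3'' : v ∣ u * ((nI a : ℕ) : OO A B) := Ideal.mem_span_singleton.1 q3'
    obtain ⟨y, hy⟩ := q3''
    have k2 : a * R.b i = sp y := by
      have q4 : sp v * (a * R.b i) = sp v * sp y := by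
        rw [k1, hy]
        exact (Ideal.span_singleton_mul_span_singleton _ _).symm
      exact le_antisymm ((n4 (sp v) _ _ hspv).1 q4.le) ((n4 (sp v) _ _ hspv).1 q4.ge)
    have hycop : IsCoprime y (m : OO A B) := by
      have q5 : IsCoprime (a * R.b i) (idl (A := A) (B := B) m) := by
        refine IsCoprime.mul_left hac (cop_of_mem (N := nI (R.b i)) ?_ (hcop i))
        exact (n3 (R.b i) hb).2.2.2
      rw [k2] at q5
      exact (Ideal.isCoprime_span_singleton_iff _ _).1 q5
    -- the inverse of the norm modulo `m`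
    obtain ⟨s, t, hs, hst⟩ : ∃ s t : ℤ, 0 < s ∧ s * (nI (R.b i) : ℤ) + t * (m : ℤ) = 1 := by
      obtain ⟨s, t, hst⟩ : IsCoprime ((nI (R.b i) : ℕ) : ℤ) (m : ℤ) :=
        Nat.isCoprime_iff_coprime.2 (hcop i)
      refine ⟨s + m * (|s| + 1), t - nI (R.b i) * (|s| + 1), ?_, ?_⟩
      · have q6 : (1 : ℤ) ≤ m := by
          have := Nat.pos_of_ne_zero hm
          exact_mod_cast this
        have q7 : 0 ≤ |s| + 1 := by positivity
        have q8 : |s| + 1 ≤ m * (|s| + 1) := by nlinarith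
        have q9 := neg_abs_le s
        linarith
      · linear_combination hst
    have hstO : (s : OO A B) * ((nI (R.b i) : ℕ) : OO A B) + (t : OO A B) * ((m : ℕ) : OO A B)
        = 1 := by
      have := congrArg (Int.cast : ℤ → OO A B) hst
      push_cast at this
      exact this
    have hne : ∀ n : ℤ, n ≠ 0 → (n : OO A B) ≠ 0 := by
      intro n hn h0
      apply hn
      have q10 := (e3 n).1
      rw [h0, (e2 0).1.2 rfl] at q10
      exact_mod_cast q10.symm
    have k3 : sp ((nI (R.b i) : ℕ) : OO A B) * a = sp y * cjI (R.b i) := by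
      have q11 : R.b i * cjI (R.b i) = sp ((nI (R.b i) : ℕ) : OO A B) := hb2
      rw [← k2, ← q11]
      calc R.b i * cjI (R.b i) * a = a * (R.b i * cjI (R.b i)) := mul_comm _ _
        _ = a * R.b i * cjI (R.b i) := (mul_assoc _ _ _).symm
    refine ⟨i, (s : OO A B) * y, ?_, (s : OO A B) * ((nI (R.b i) : ℕ) : OO A B), 1, ?_,
      ?_, ?_, ?_, ?_⟩
    · refine IsCoprime.mul_left ⟨((nI (R.b i) : ℕ) : OO A B), (t : OO A B), ?_⟩ hycop
      rw [← hstO]
      ring
    · refine mul_ne_zero (hne s hs.ne') ?_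
      have := hne ((nI (R.b i) : ℕ) : ℤ) (by exact_mod_cast hNb)
      simpa using this
    · exact one_ne_zero
    · refine (Ideal.isCoprime_span_singleton_iff _ _).2 ⟨1, (t : OO A B), ?_⟩
      rw [one_mul]
      exact hstO
    · rw [Ideal.mem_span_singleton]
      refine ⟨-(t : OO A B), ?_⟩
      linear_combination hstO
    · have q12 : sp ((s : OO A B) * ((nI (R.b i) : ℕ) : OO A B)) =
          sp (s : OO A B) * sp ((nI (R.b i) : ℕ) : OO A B) :=
        (Ideal.span_singleton_mul_span_singleton _ _).symm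
      have q13 : sp ((s : OO A B) * y) = sp (s : OO A B) * sp y :=
        (Ideal.span_singleton_mul_span_singleton _ _).symm
      have q14 : sp (1 : OO A B) = 1 := Ideal.span_singleton_one.trans Ideal.one_eq_top.symm
      rw [q12, q13, q14, mul_assoc, k3, one_mul, mul_assoc]

end

end Pool.Agent.MUXI
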