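import Pool.Agent.MUX.StIX

/-!
# MUX, block IX, module E0: the characters `e0` and `kp` (helper42)
-/

set_option autoImplicit false

namespace Pool.Agent.MUXI

open _root_.MU3 Pool.Agent.MU3 Pool.Agent.MU3A Pool.Agent.MU3B Pool.Agent.RI Pool.Agent.RID
  Pool.Agent.MUX Pool.Agent.MUXE Pool.Agent.MUXK
open Pool.Agent.MU3I (w3 zt)

noncomputable section

namespace E0

variable {A B : ℤ}

/-- the abstract form -/
lemma psi {G : Type} [Group G] (m : Ideal (OO A B)) (rel : G → Ideal (OO A B) → Prop)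
    (X : G →* ℂˣ) (r : ℕ) (hX : ∀ τ, X τ ^ r = 1)
    (r1 : rel 1 ⊤) (r2 : ∀ a, IsCoprime a m → ∃ τ, rel τ a) (r3 : ∀ τ a, rel τ a → IsCoprime a m)
    (r4 : ∀ τ τ' a a', rel τ a → rel τ' a' → RE m a a' → τ = τ')
    (r5 : ∀ τ τ' a a', rel τ a → rel τ' a' → rel (τ * τ') (a * a')) :
    ∃ ψ : Ideal (OO A B) → ℂ, (∀ τ a, rel τ a → ψ a = (((X τ)⁻¹ : ℂˣ) : ℂ)) ∧
      (∀ a a', ψ (a * a') = ψ a * ψ a') ∧ ψ ⊤ = 1 ∧ (∀ a, ψ a ≠ 0 ↔ IsCoprime a m) ∧
      (∀ a, ψ a ≠ 0 → ψ a ^ r = 1) ∧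
      (∀ a a', RE m a a' → IsCoprime a m → IsCoprime a' m → ψ a = ψ a') := by
  classical
  let ψ : Ideal (OO A B) → ℂ := fun a =>
    if h : ∃ τ, rel τ a then (((X h.choose)⁻¹ : ℂˣ) : ℂ) else 0
  have e1 : IsCoprime (sp (1 : OO A B)) m := by
    rw [sp, Ideal.span_singleton_one, ← Ideal.one_eq_top]
    exact isCoprime_one_left
  have e2 : (1 : OO A B) ≠ 0 := by
    intro h
    have h1 := congrArg QuadraticAlgebra.re h
    rw [QuadraticAlgebra.re_one, QuadraticAlgebra.re_zero] at h1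
    exact one_ne_zero h1
  have e3 : (1 : OO A B) - 1 ∈ m := by
    rw [sub_self]
    exact m.zero_mem
  have hs : ∀ τ a, rel τ a → ψ a = (((X τ)⁻¹ : ℂˣ) : ℂ) := by
    intro τ a h
    have h' : ∃ τ, rel τ a := ⟨τ, h⟩
    have hR : RE m a a := ⟨1, 1, e2, e2, e1, e3, rfl⟩
    have e : h'.choose = τ := r4 _ _ a a h'.choose_spec h hR
    show (if h : ∃ τ, rel τ a then (((X h.choose)⁻¹ : ℂˣ) : ℂ) else 0) = _
    rw [dif_pos h', e]
  have h0 : ∀ a, ¬ IsCoprime a m → ψ a = 0 := by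
    intro a h
    exact dif_neg fun ⟨τ, h'⟩ => h (r3 τ a h')
  have hne : ∀ a, ψ a ≠ 0 ↔ IsCoprime a m := by
    intro a
    refine ⟨fun h => ?_, fun h => ?_⟩
    · by_contra h'
      exact h (h0 a h')
    · obtain ⟨τ, h'⟩ := r2 a h
      rw [hs τ a h']
      exact Units.ne_zero _
  refine ⟨ψ, hs, ?_, ?_, hne, ?_, ?_⟩
  · intro a a'
    by_cases h : IsCoprime a m
    · by_cases h' : IsCoprime a' m
      · obtain ⟨τ, ht⟩ := r2 a h
        obtain ⟨τ', ht'⟩ := r2 a' h'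
        rw [hs _ _ ht, hs _ _ ht', hs _ _ (r5 _ _ _ _ ht ht'), map_mul, mul_inv, Units.val_mul]
      · rw [h0 _ h', mul_zero]
        exact h0 _ fun hh => h' hh.of_mul_left_right
    · rw [h0 _ h, zero_mul]
      exact h0 _ fun hh => h hh.of_mul_left_left
  · rw [hs _ _ r1, map_one, inv_one, Units.val_one]
  · intro a h
    obtain ⟨τ, ht⟩ := r2 a ((hne a).1 h)
    rw [hs _ _ ht, ← Units.val_pow_eq_pow_val, inv_pow, hX, inv_one, Units.val_one]
  · intro a a' hR h h'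
    obtain ⟨τ, ht⟩ := r2 a h
    obtain ⟨τ', ht'⟩ := r2 a' h'
    rw [hs _ _ ht, hs _ _ ht', r4 _ _ _ _ ht ht' hR]

lemma nat_ne {n : ℕ} (hn : n ≠ 0) : (n : OO A B) ≠ 0 := by
  intro h
  have h1 := congrArg QuadraticAlgebra.re h
  rw [QuadraticAlgebra.re_natCast] at h1
  apply hn
  exact_mod_cast h1

lemma cop_nat {m n : ℕ} (h : m.Coprime n) : IsCoprime (m : OO A B) (n : OO A B) := by
  have h1 := (Nat.isCoprime_iff_coprime.2 h).map (Int.castRingHom (OO A B))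
  simpa using h1

lemma cop_sub {m : Ideal (OO A B)} {x y : OO A B} (h : x - y ∈ m) (hx : IsCoprime (sp x) m) :
    IsCoprime (sp y) m := by
  obtain ⟨a, ha, b, hb, hab⟩ := Ideal.isCoprime_iff_exists.1 hx
  obtain ⟨c, rfl⟩ := Ideal.mem_span_singleton'.1 ha
  refine Ideal.isCoprime_iff_exists.2 ⟨c * y, Ideal.mem_span_singleton'.2 ⟨c, rfl⟩,
    c * (x - y) + b, m.add_mem (m.mul_mem_left _ h) hb, ?_⟩
  rw [← hab]
  ring

lemma lv_cop {p f k : ℕ} (h : k.Coprime (p * f)) : k.Coprime (lvX p f 0) := by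
  unfold lvX
  have h1 : k.Coprime p := h.coprime_mul_right_right
  have h2 : k.Coprime f := h.coprime_mul_left_right
  rw [pow_zero, mul_one]
  refine Nat.Coprime.mul_right h2 ?_
  unfold q0
  split_ifs with hp
  · subst hp
    exact (Nat.Coprime.pow_right 2 h1 : k.Coprime (2 ^ 2))
  · exact h1

end E0

open E0

/-- the module E0 -/
theorem ti_E0 (h1 : Si_ARF) (h4 : Pool.Agent.MUXF.Sx_NIM) : Si_E0 := by
  intro p A B P V f S T ι R K hK hKm hG X r hX
  have hp : p = 3 ∨ p = 2 := S.case.split.imp (fun h => h.1) (fun h => h.1)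
  have hlv : 3 ≤ lvX p f 0 := by
    have hf : 1 ≤ f := Nat.one_le_iff_ne_zero.2 S.f0
    unfold lvX q0
    rcases hp with rfl | rfl
    · simp; omega
    · simp; omega
  have hm : (idl (lvX p f 0) : Ideal (OO A B)) ≠ ⊥ := by
    rw [Ne, Ideal.span_singleton_eq_bot]
    exact nat_ne (by omega)
  have hm1 : (idl (lvX p f 0) : Ideal (OO A B)) ≠ ⊤ := by
    rw [Ne, Ideal.span_singleton_eq_top]
    intro hu
    obtain ⟨y, hy⟩ := hu.exists_right_inv
    have h := congrArg QuadraticAlgebra.re hy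
    rw [QuadraticAlgebra.re_mul] at h
    simp only [QuadraticAlgebra.re_natCast, QuadraticAlgebra.im_natCast, QuadraticAlgebra.re_one,
      mul_zero, zero_mul, add_zero] at h
    have h' : ((lvX p f 0 : ℕ) : ℤ) ∣ 1 := ⟨_, h.symm⟩
    have h'' := Int.le_of_dvd one_pos h'
    omega
  have hbot : ∀ a : Ideal (OO A B), IsCoprime a (idl (lvX p f 0)) → a ≠ ⊥ := by
    rintro a ha rfl
    apply hm1
    rw [← Ideal.isCoprime_iff_sup_eq.1 ha, bot_sup_eq]
  obtain ⟨a1, a2, -, a4, a5, -, -⟩ := h1 A B S.case.toCQ T ⟨_, _, _, R.nl R.i0⟩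
    (idl (lvX p f 0)) hm K hK hKm hG
  let _ : Algebra (kk A B) K := algC hK
  obtain ⟨ψ, s1, s2, s3, s4, s5, s6⟩ := psi (idl (lvX p f 0))
    (fun τ a => AR hK (idl (lvX p f 0)) τ a) X r hX a1
    (fun a ha => a2 a (hbot a ha) ha)
    (fun τ a h => by obtain ⟨σ, h, -⟩ := h; exact h.cop)
    a4 a5
  have hcop : ∀ x : OO A B, IsCoprime (sp x) (idl (lvX p f 0)) ↔
      IsCoprime x ((lvX p f 0 : ℕ) : OO A B) := fun x => Ideal.isCoprime_span_singleton_iff _ _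
  refine ⟨fun x => ψ (sp x), fun i => ψ (cjI (R.b i)), ?_, ?_, ?_, ?_, ?_, ?_, ?_, ?_⟩
  · show ψ (sp 1) = 1
    rw [sp, Ideal.span_singleton_one, s3]
  · show ψ (sp (-1)) = 1
    rw [sp, Ideal.span_singleton_neg, Ideal.span_singleton_one, s3]
  · intro x y
    show ψ (sp (x * y)) = ψ (sp x) * ψ (sp y)
    rw [← s2, sp, sp, sp, Ideal.span_singleton_mul_span_singleton]
  · intro x y hxy
    show ψ (sp x) = ψ (sp y)
    by_cases hx : IsCoprime (sp x) (idl (lvX p f 0))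
    · have hy := cop_sub hxy hx
      have hx0 : x ≠ 0 := by
        rintro rfl
        exact hbot _ hx (by rw [sp, Ideal.span_singleton_eq_bot])
      have hy0 : y ≠ 0 := by
        rintro rfl
        exact hbot _ hy (by rw [sp, Ideal.span_singleton_eq_bot])
      refine s6 _ _ ⟨y, x, hy0, hx0, hy, ?_, mul_comm _ _⟩ hx hy
      rw [← neg_sub]
      exact neg_mem hxy
    · have hy : ¬ IsCoprime (sp y) (idl (lvX p f 0)) := fun hy => hx (cop_sub (by
        rw [← neg_sub]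
        exact neg_mem hxy) hy)
      rw [not_not.1 fun h => hx ((s4 _).1 h), not_not.1 fun h => hy ((s4 _).1 h)]
  · intro x
    exact (s4 _).trans (hcop x)
  · intro x hx
    exact s5 _ hx
  · intro i
    apply s5
    rw [s4]
    obtain ⟨-, -, n3, -⟩ := h4 A B (Pool.Agent.MUXY.cqF S.case.toCQ)
    obtain ⟨-, -, -, n4⟩ := n3 (R.b i) (R.nl i).b_ne
    have h5 : ((nI (R.b i) : ℕ) : OO A B) ∈ cjI (R.b i) := by
      show (starRingEnd (OO A B)) ((nI (R.b i) : ℕ) : OO A B) ∈ R.b i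
      rw [map_natCast]
      exact n4
    obtain ⟨u, v, huv⟩ := cop_nat (A := A) (B := B) (lv_cop (R.cop i))
    exact Ideal.isCoprime_iff_exists.2 ⟨u * _, Ideal.mul_mem_left _ _ h5, v * _,
      Ideal.mul_mem_left _ _ (Ideal.mem_span_singleton_self _), huv⟩
  · intro τ i x hx hA
    show (((X τ)⁻¹ : ℂˣ) : ℂ) = ψ (cjI (R.b i)) * ψ (sp x)
    rw [← s1 τ _ hA, s2, mul_comm]

end

end Pool.Agent.MUXI
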