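import Pool.Agent.MUX.StIX

/-!
# MUX, block IX: module TH, the sums `That_j`
-/

set_option autoImplicit false

namespace Pool.Agent.MUXI

open _root_.MU3 Pool.Agent.MU3 Pool.Agent.MU3A Pool.Agent.MU3B Pool.Agent.RI Pool.Agent.RID
  Pool.Agent.MUX Pool.Agent.MUXE Pool.Agent.MUXK
open Pool.Agent.MU3I (w3 zt)

noncomputable section

namespace TH

section

variable {A B : ℤ}

lemma nat_dvd_iff (n : ℕ) (x : OO A B) :
    ((n : ℕ) : OO A B) ∣ x ↔ (n : ℤ) ∣ x.re ∧ (n : ℤ) ∣ x.im := by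
  constructor
  · rintro ⟨t, rfl⟩
    refine ⟨⟨t.re, ?_⟩, ⟨t.im, ?_⟩⟩
    · rw [QuadraticAlgebra.re_mul]; simp
    · rw [QuadraticAlgebra.im_mul]; simp
  · rintro ⟨⟨s, hs⟩, ⟨t, ht⟩⟩
    refine ⟨⟨s, t⟩, ?_⟩
    apply QuadraticAlgebra.ext
    · rw [QuadraticAlgebra.re_mul]; simp [hs]
    · rw [QuadraticAlgebra.im_mul]; simp [ht]

lemma mk_eq_iff (m x y : OO A B) :
    Ideal.Quotient.mk (Ideal.span {m}) x = Ideal.Quotient.mk (Ideal.span {m}) y ↔ m ∣ x - y := by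
  rw [Ideal.Quotient.eq, Ideal.mem_span_singleton]

lemma finR (n : ℕ) (hn : n ≠ 0) : Finite (OO A B ⧸ Ideal.span {((n : ℕ) : OO A B)}) := by
  have : NeZero n := ⟨hn⟩
  refine Finite.of_injective (fun q : OO A B ⧸ Ideal.span {((n : ℕ) : OO A B)} =>
    (((Quotient.out q).re : ZMod n), ((Quotient.out q).im : ZMod n))) ?_
  intro q q' h
  simp only [Prod.mk.injEq] at h
  rw [← Ideal.Quotient.mk_out q, ← Ideal.Quotient.mk_out q', mk_eq_iff, nat_dvd_iff]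
  refine ⟨?_, ?_⟩
  · rw [QuadraticAlgebra.re_sub, ← ZMod.intCast_zmod_eq_zero_iff_dvd, Int.cast_sub, sub_eq_zero]
    exact h.1
  · rw [QuadraticAlgebra.im_sub, ← ZMod.intCast_zmod_eq_zero_iff_dvd, Int.cast_sub, sub_eq_zero]
    exact h.2

lemma mul_star_nm (x : OO A B) : x * star x = ((nm x : ℤ) : OO A B) := by
  have h : nm x = QuadraticAlgebra.norm x := by
    rw [QuadraticAlgebra.norm_def]
    unfold nm
    ring
  rw [h, ← QuadraticAlgebra.algebraMap_norm_eq_mul_star]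
  simp

end

/-! ### Sums -/

open Classical in
/-- a sum over disjoint sets -/
lemma sum_disj {Q D : Type} [Finite Q] [Fintype D] (S : D → Set Q)
    (hS : ∀ q d d', q ∈ S d → q ∈ S d' → d = d') (c : D → ℂ) (H E : Q → ℂ)
    (hc : ∀ d, ∀ q ∈ S d, c d = E q) :
    ∑ d : D, c d * ∑ᶠ q ∈ S d, H q = ∑ᶠ q : Q, if ∃ d, q ∈ S d then E q * H q else 0 := by
  have : Fintype Q := Fintype.ofFinite Q
  have h1 : ∀ d : D, c d * ∑ᶠ q ∈ S d, H q = ∑ q : Q, if q ∈ S d then c d * H q else 0 := by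
    intro d
    rw [finsum_mem_def, finsum_eq_sum_of_fintype, Finset.mul_sum]
    refine Finset.sum_congr rfl fun q _ => ?_
    by_cases hq : q ∈ S d
    · rw [Set.indicator_of_mem hq, if_pos hq]
    · rw [Set.indicator_of_notMem hq, if_neg hq, mul_zero]
  rw [Finset.sum_congr rfl fun d _ => h1 d, Finset.sum_comm, finsum_eq_sum_of_fintype]
  refine Finset.sum_congr rfl fun q _ => ?_
  by_cases hx : ∃ d, q ∈ S d
  · obtain ⟨d0, h0⟩ := hx
    rw [if_pos ⟨d0, h0⟩, Finset.sum_eq_single d0, if_pos h0, hc d0 q h0]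
    · intro d _ hd
      rw [if_neg]
      intro h2
      exact hd (hS q _ _ h2 h0)
    · intro h2
      exact absurd (Finset.mem_univ _) h2
  · rw [if_neg hx]
    refine Finset.sum_eq_zero fun d _ => ?_
    rw [if_neg (fun h2 => hx ⟨d, h2⟩)]

/-- a sum over pairs -/
lemma sum_pairs {ι Q : Type} [Fintype ι] [Finite Q] (G : ι × Q → ℂ) :
    ∑ᶠ q : ι × Q, G q = ∑ i : ι, ∑ᶠ x : Q, G (i, x) := by
  have : Fintype Q := Fintype.ofFinite Q
  rw [finsum_eq_sum_of_fintype, Fintype.sum_prod_type]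
  refine Finset.sum_congr rfl fun i _ => ?_
  rw [finsum_eq_sum_of_fintype]

lemma comb_sum {Q : Type} [Finite Q] (k s : ℂ) (F F' G : Q → ℂ)
    (h : ∀ x, G x = k * (F x + s * F' x)) :
    ∑ᶠ x : Q, G x = k * (∑ᶠ x : Q, F x + s * ∑ᶠ x : Q, F' x) := by
  have : Fintype Q := Fintype.ofFinite Q
  rw [finsum_eq_sum_of_fintype, finsum_eq_sum_of_fintype, finsum_eq_sum_of_fintype,
    Finset.mul_sum, ← Finset.sum_add_distrib, Finset.mul_sum]
  exact Finset.sum_congr rfl fun x _ => h x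

/-! ### The sets -/

section

variable {A B : ℤ} {p f n : ℕ} {ι : Type} {R : Reps A B (p * f) ι} {G : Type} [Group G]
  {γ : G} {Δ : Subgroup G} {X : G → Set (ι × (OO A B ⧸ idl (A := A) (B := B) (lvX p f n)))}

lemma mem_iff (hM : XM R p f n γ Δ X)
    (q : ι × (OO A B ⧸ idl (A := A) (B := B) (lvX p f n))) (j : ℕ) :
    (∃ δ : Δ, q ∈ X (γ ^ j * (δ : G))) ↔
      IsCoprime (Quotient.out q.2 : OO A B) ((lvX p f n : ℕ) : OO A B) ∧
      (((q0 p * p ^ n : ℕ) : ℤ) ∣ nm (Quotient.out q.2) * nI (R.b q.1) - (1 + (q0 p : ℤ)) ^ j ∨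
      ((q0 p * p ^ n : ℕ) : ℤ) ∣ nm (Quotient.out q.2) * nI (R.b q.1) + (1 + (q0 p : ℤ)) ^ j) := by
  constructor
  · rintro ⟨δ, hδ⟩
    refine ⟨hM.cop _ _ hδ, (hM.nrm q _ hδ j).1 ?_⟩
    rw [hM.comm (γ ^ j) δ, mul_inv_cancel_right]
    exact δ.2
  · rintro ⟨hc, hC⟩
    obtain ⟨τ, hτ⟩ := hM.ex q hc
    have h1 := (hM.nrm q τ hτ j).2 hC
    refine ⟨⟨_, h1⟩, ?_⟩
    have h2 : γ ^ j * (τ * (γ ^ j)⁻¹) = τ := by
      rw [hM.comm (γ ^ j), inv_mul_cancel_right]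
    rw [h2]
    exact hτ

end

/-! ### Arithmetic -/

lemma q0_cases {p : ℕ} {A B : ℤ} (h : CaseP p A B) : (p = 3 ∧ q0 p = 3) ∨ (p = 2 ∧ q0 p = 4) := by
  rcases h.split with ⟨rfl, -⟩ | ⟨rfl, -⟩
  · exact Or.inl ⟨rfl, rfl⟩
  · exact Or.inr ⟨rfl, rfl⟩

lemma pow_mod (g : ℕ) (j : ℕ) : (g : ℤ) ∣ (1 + (g : ℤ)) ^ j - 1 := by
  have h := sub_dvd_pow_sub_pow (1 + (g : ℤ)) 1 j
  rw [one_pow, add_sub_cancel_left] at h
  exact h

lemma w3_mul_eq {x y : ℤ} (h : (3 : ℤ) ∣ x * y - 1) : w3 x = w3 y := by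
  have h1 : x % 3 = 0 ∨ x % 3 = 1 ∨ x % 3 = 2 := by omega
  have h2 : y % 3 = 0 ∨ y % 3 = 1 ∨ y % 3 = 2 := by omega
  have h3 : (x * y) % 3 = (x % 3) * (y % 3) % 3 := Int.mul_emod x y 3
  unfold w3
  rcases h1 with h1 | h1 | h1 <;> rcases h2 with h2 | h2 | h2 <;> rw [h1, h2] at h3 ⊢ <;>
    simp at h3 ⊢ <;> omega

lemma w3_mul_neg {x y : ℤ} (h : (3 : ℤ) ∣ x * y + 1) : w3 x = -w3 y := by
  have h1 : x % 3 = 0 ∨ x % 3 = 1 ∨ x % 3 = 2 := by omega
  have h2 : y % 3 = 0 ∨ y % 3 = 1 ∨ y % 3 = 2 := by omega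
  have h3 : (x * y) % 3 = (x % 3) * (y % 3) % 3 := Int.mul_emod x y 3
  unfold w3
  rcases h1 with h1 | h1 | h1 <;> rcases h2 with h2 | h2 | h2 <;> rw [h1, h2] at h3 ⊢ <;>
    simp at h3 ⊢ <;> omega

/-! ### One summand -/

open Classical in
lemma term {p : ℕ} {A B : ℤ} {P : Ideal (OO A B)} {V : ValuationSubring ℂ} {f : ℕ}
    (hS : SetP p A B P V f) (h3 : Si_PQF) (n : ℕ) {e0 e : OO A B → ℂ} {w : OO A B → ℤ} {s : ℤ}
    (hE : IsEI (idl f * cjI P) e) (hs : s = 1 ∨ s = -1) (hs2 : p = 2 → s = 1)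
    (hes : ∀ x, IsCoprime x ((lvX p f 0 : ℕ) : OO A B) →
        e0 x * (w x : ℂ) = e x * (if s = 1 then 1 else (w3 (nm x) : ℂ)))
    (N : ℕ) (j : ℕ) (kp d : ℂ) (c : ℤ) (x : OO A B) :
    (if IsCoprime x ((lvX p f n : ℕ) : OO A B) ∧
      (((q0 p * p ^ n : ℕ) : ℤ) ∣ nm x * N - (1 + (q0 p : ℤ)) ^ j ∨
      ((q0 p * p ^ n : ℕ) : ℤ) ∣ nm x * N + (1 + (q0 p : ℤ)) ^ j) then
      (kp * e0 x) * ((w x : ℂ) * (c : ℂ) * d) else 0) =
    (kp * c * (if s = 1 then 1 else (w3 N : ℂ))) *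
      ((if ((q0 p * p ^ n : ℕ) : ℤ) ∣ nm x * N - (1 + (q0 p : ℤ)) ^ j then e x * d else 0) +
      s * (if ((q0 p * p ^ n : ℕ) : ℤ) ∣ nm x * N - -(1 + (q0 p : ℤ)) ^ j then e x * d else 0)) := by
  obtain ⟨-, -, hint, -, -, -, -, hcop, -, -⟩ := h3 p A B P V f hS
  set t : ℤ := (1 + (q0 p : ℤ)) ^ j with ht
  have ht1 : (q0 p : ℤ) ∣ t - 1 := pow_mod _ _
  have hM : (q0 p : ℤ) ∣ ((q0 p * p ^ n : ℕ) : ℤ) := ⟨(p : ℤ) ^ n, by push_cast; ring⟩
  have hpq : (p : ℤ) ∣ (q0 p : ℤ) := by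
    rcases q0_cases hS.case with ⟨h4, h5⟩ | ⟨h4, h5⟩
    · rw [h4, show q0 3 = 3 from rfl]
    · rw [h4, show q0 2 = 4 from rfl]; norm_num
  have hp2 : (p : ℤ) = 3 ∨ (p : ℤ) = 2 := by
    rcases q0_cases hS.case with ⟨h4, h5⟩ | ⟨h4, h5⟩
    · rw [h4]; left; rfl
    · rw [h4]; right; rfl
  have hq2 : (q0 p : ℤ) = 3 ∨ (q0 p : ℤ) = 4 := by
    rcases q0_cases hS.case with ⟨h4, h5⟩ | ⟨h4, h5⟩
    · rw [h5]; left; rfl
    · rw [h5]; right; rfl
  -- not prime to the level, then `e x = 0`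
  have hzero : ∀ u : ℤ, (p : ℤ) ∣ nm x * N - u → ¬ (p : ℤ) ∣ u →
      ¬ IsCoprime x ((lvX p f n : ℕ) : OO A B) → e x = 0 := by
    intro u hu hnu hnc
    by_contra h0
    apply hnc
    rw [hcop n x]
    refine ⟨?_, (hE.supp x).1 h0⟩
    intro hx
    have h1 : ((nm x : ℤ) : OO A B) ∈ P := by
      rw [← mul_star_nm]
      exact P.mul_mem_right _ hx
    rw [hint] at h1
    apply hnu
    have h2 : (p : ℤ) ∣ nm x * N := h1.mul_right _
    have h4 := dvd_sub h2 hu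
    rwa [sub_sub_cancel] at h4
  have hlv : IsCoprime x ((lvX p f n : ℕ) : OO A B) →
      IsCoprime x ((lvX p f 0 : ℕ) : OO A B) := by
    intro h1
    refine h1.of_isCoprime_of_dvd_right ⟨((p ^ n : ℕ) : OO A B), ?_⟩
    unfold lvX
    push_cast
    ring
  have hnt : ¬ (p : ℤ) ∣ t := by
    intro h1
    have h2 := hpq.trans ht1
    have h4 := dvd_sub h1 h2
    rw [sub_sub_cancel] at h4
    rcases hp2 with h5 | h5 <;> rw [h5] at h4 <;> omega
  have hnt' : ¬ (p : ℤ) ∣ -t := fun h1 => hnt ((dvd_neg).1 h1)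
  have hnb : ((q0 p * p ^ n : ℕ) : ℤ) ∣ nm x * N - t →
      ¬ ((q0 p * p ^ n : ℕ) : ℤ) ∣ nm x * N - -t := by
    intro h1 h2
    have h4 := hM.trans (dvd_sub h2 h1)
    have h5 : nm x * N - -t - (nm x * N - t) = 2 * (t - 1) + 2 := by ring
    rw [h5] at h4
    have h6 := (Int.dvd_add_right (ht1.mul_left 2)).1 h4
    rcases hq2 with h7 | h7 <;> rw [h7] at h6 <;> omega
  by_cases h1 : ((q0 p * p ^ n : ℕ) : ℤ) ∣ nm x * N - t
  · rw [if_pos h1, if_neg (hnb h1), mul_zero, add_zero]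
    by_cases hc : IsCoprime x ((lvX p f n : ℕ) : OO A B)
    · rw [if_pos ⟨hc, Or.inl h1⟩]
      have h2 := hes x (hlv hc)
      have h4 : (if s = 1 then 1 else (w3 (nm x) : ℂ)) = (if s = 1 then 1 else (w3 N : ℂ)) := by
        by_cases hs1 : s = 1
        · rw [if_pos hs1, if_pos hs1]
        · rw [if_neg hs1, if_neg hs1]
          rcases q0_cases hS.case with ⟨h5, h6⟩ | ⟨h5, h6⟩
          · have h7 := dvd_add (hM.trans h1) ht1
            rw [sub_add_sub_cancel, h6] at h7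
            rw [w3_mul_eq (by exact_mod_cast h7)]
          · exact absurd (hs2 h5) hs1
      rw [h4] at h2
      linear_combination (kp * c * d) * h2
    · rw [if_neg (fun h2 => hc h2.1), hzero t ((hpq.trans hM).trans h1) hnt hc, zero_mul, mul_zero]
  · by_cases h2 : ((q0 p * p ^ n : ℕ) : ℤ) ∣ nm x * N - -t
    · rw [if_neg h1, if_pos h2, zero_add]
      have h2' : ((q0 p * p ^ n : ℕ) : ℤ) ∣ nm x * N + t := by
        rwa [sub_neg_eq_add] at h2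
      by_cases hc : IsCoprime x ((lvX p f n : ℕ) : OO A B)
      · rw [if_pos ⟨hc, Or.inr h2'⟩]
        have h3 := hes x (hlv hc)
        have h4 : (if s = 1 then 1 else (w3 (nm x) : ℂ)) =
            (if s = 1 then 1 else (w3 N : ℂ)) * s := by
          rcases hs with hs1 | hs1
          · rw [if_pos hs1, if_pos hs1, hs1]; simp
          · have hs3 : s ≠ 1 := by rw [hs1]; decide
            rw [if_neg hs3, if_neg hs3]
            rcases q0_cases hS.case with ⟨h5, h6⟩ | ⟨h5, h6⟩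
            · have h7 := dvd_sub (hM.trans h2') ht1
              rw [show nm x * N + t - (t - 1) = nm x * N + 1 by ring, h6] at h7
              rw [w3_mul_neg (by exact_mod_cast h7), hs1]
              push_cast
              ring
            · exact absurd (hs2 h5) hs3
        rw [h4] at h3
        linear_combination (kp * c * d) * h3
      · rw [if_neg (fun h3 => hc h3.1), hzero (-t) ((hpq.trans hM).trans h2) hnt' hc, zero_mul,
          mul_zero, mul_zero]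
    · rw [if_neg h1, if_neg h2, if_neg]
      · ring
      · rintro ⟨-, h4 | h4⟩
        · exact h1 h4
        · apply h2
          rwa [sub_neg_eq_add]

lemma q0_ne {p : ℕ} {A B : ℤ} (h : CaseP p A B) : q0 p ≠ 0 := by
  rcases q0_cases h with ⟨-, h5⟩ | ⟨-, h5⟩ <;> rw [h5] <;> norm_num

lemma lvX_ne {p : ℕ} {A B : ℤ} {P : Ideal (OO A B)} {V : ValuationSubring ℂ} {f : ℕ}
    (hS : SetP p A B P V f) (n : ℕ) : lvX p f n ≠ 0 := by
  have hp : p ≠ 0 := by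
    rcases q0_cases hS.case with ⟨h5, -⟩ | ⟨h5, -⟩ <;> rw [h5] <;> norm_num
  unfold lvX
  exact mul_ne_zero (mul_ne_zero hS.f0 (q0_ne hS.case)) (pow_ne_zero _ hp)

lemma muX_ne {p : ℕ} {A B : ℤ} {P : Ideal (OO A B)} {V : ValuationSubring ℂ} {f : ℕ}
    (hS : SetP p A B P V f) {ι : Type} (R : Reps A B (p * f) ι) (i : ι) : muX R i ≠ 0 := by
  have h1 : nI (R.b i) ≠ 0 := by
    intro h0
    have h2 := R.cop i
    rw [h0, Nat.coprime_zero_left] at h2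
    have h3 : p = 1 := Nat.eq_one_of_mul_eq_one_right h2
    rcases q0_cases hS.case with ⟨h5, -⟩ | ⟨h5, -⟩ <;> omega
  unfold muX
  refine div_ne_zero (mul_ne_zero (R.nl i).om_ne ?_) (R.nl R.i0).om_ne
  exact_mod_cast h1

end TH

open TH in
/-- (TH) the sums `That_j` -/
theorem ti_TH (h1 : Si_TSH) (h3 : Si_PQF) : Si_TH := by
  classical
  intro p A B P V f hS ι _ R n G _ _ γ Δ _ X hM χ e0 kp c w e s _ _ hE hs hs2 hes hχ j
  have hfin : Finite (OO A B ⧸ idl (A := A) (B := B) (lvX p f n)) := finR _ (lvX_ne hS n)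
  rw [sum_disj (fun δ : Δ => X (γ ^ j * (δ : G)))
    (fun q δ δ' h2 h4 => Subtype.ext (mul_left_cancel (hM.uniq q _ _ h2 h4)))
    (fun δ => (((χ δ)⁻¹ : ℂˣ) : ℂ)) _ (fun q => kp q.1 * e0 (Quotient.out q.2))
    (fun δ q hq => hχ δ j q hq)]
  have hind : ∀ q : ι × (OO A B ⧸ idl (A := A) (B := B) (lvX p f n)),
      (if ∃ δ : Δ, q ∈ X (γ ^ j * (δ : G)) then
        kp q.1 * e0 (Quotient.out q.2) * ((w (Quotient.out q.2) : ℂ) *
        (c q.1 : ℂ) * dlX (R.L q.1) (aX p f) (pt R (lvX p f n) q.1 (Quotient.out q.2))) else 0) =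
      kp q.1 * c q.1 * (if s = 1 then 1 else (w3 (nI (R.b q.1)) : ℂ)) *
      ((if ((q0 p * p ^ n : ℕ) : ℤ) ∣ nm (Quotient.out q.2) * nI (R.b q.1) -
          (1 + (q0 p : ℤ)) ^ j then
        e (Quotient.out q.2) * dlX (R.L q.1) (aX p f)
          (pt R (lvX p f n) q.1 (Quotient.out q.2)) else 0) +
      s * (if ((q0 p * p ^ n : ℕ) : ℤ) ∣ nm (Quotient.out q.2) * nI (R.b q.1) -
          -(1 + (q0 p : ℤ)) ^ j then
        e (Quotient.out q.2) * dlX (R.L q.1) (aX p f)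
          (pt R (lvX p f n) q.1 (Quotient.out q.2)) else 0)) := by
    intro q
    rw [if_congr (mem_iff hM q j) rfl rfl]
    exact term hS h3 n hE hs hs2 hes _ j _ _ _ _
  rw [finsum_congr hind, sum_pairs]
  unfold STX
  rw [Finset.mul_sum, ← Finset.sum_add_distrib]
  refine Finset.sum_congr rfl fun i _ => ?_
  have hT := h1 p A B P V f hS ι R n e hE i ((1 + (q0 p : ℤ)) ^ j)
  have hT' := h1 p A B P V f hS ι R n e hE i (-(1 + (q0 p : ℤ)) ^ j)
  rw [comb_sum (kp i * c i * (if s = 1 then 1 else (w3 (nI (R.b i)) : ℂ))) (s : ℂ) _ _ _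
    (fun x => rfl), ← hT, ← hT']
  have hmu := muX_ne hS R i
  unfold kkX sumMod
  field_simp

end

end Pool.Agent.MUXI
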