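import Pool.Agent.MUX.StIX

/-!
# MUX, block IX: the sums of the logarithmic derivatives (TSH)
-/

set_option autoImplicit false

namespace Pool.Agent.MUXI

open _root_.MU3 Pool.Agent.MU3 Pool.Agent.MU3A Pool.Agent.MU3B Pool.Agent.RI Pool.Agent.RID
  Pool.Agent.MUX Pool.Agent.MUXE Pool.Agent.MUXK
open Pool.Agent.MU3I (w3 zt)

noncomputable section

namespace TSH

variable {A B : ℤ}

/-- periodic functions -/
def Per (m : OO A B) (F : OO A B → ℂ) : Prop := ∀ x y, x - y ∈ Ideal.span {m} → F x = F y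

lemma sumMod_mul {m a : OO A B} (ha : IsCoprime a m) {F : OO A B → ℂ} (hF : Per m F) :
    sumMod m (fun x => F (a * x)) = sumMod m F := by
  obtain ⟨u, v, huv⟩ := ha
  have h1 : Ideal.Quotient.mk (Ideal.span {m}) a * Ideal.Quotient.mk (Ideal.span {m}) u = 1 := by
    rw [← map_mul, ← map_one (Ideal.Quotient.mk (Ideal.span {m})), Ideal.Quotient.eq,
      Ideal.mem_span_singleton]
    exact ⟨-v, by linear_combination huv⟩
  let e : (OO A B ⧸ Ideal.span {m}) ≃ (OO A B ⧸ Ideal.span {m}) :=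
    (Units.mkOfMulEqOne _ _ h1).mulLeft
  unfold sumMod
  rw [← finsum_comp_equiv (f := fun q : OO A B ⧸ Ideal.span {m} => F (Quotient.out q)) e]
  refine finsum_congr fun q => ?_
  refine hF _ _ ?_
  rw [← Ideal.Quotient.eq, map_mul, Ideal.Quotient.mk_out]
  have h2 : Ideal.Quotient.mk (Ideal.span {m}) (Quotient.out (e q)) = e q :=
    Ideal.Quotient.mk_out _
  rw [h2]
  rfl

lemma sumMod_sub {m : OO A B} (_ : Finite (OO A B ⧸ Ideal.span {m})) (F F' : OO A B → ℂ) :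
    sumMod m (fun x => F x - F' x) = sumMod m F - sumMod m F' := by
  unfold sumMod
  exact finsum_sub_distrib (Set.toFinite _) (Set.toFinite _)

lemma sumMod_cmul {m : OO A B} (c : ℂ) (F : OO A B → ℂ) :
    sumMod m (fun x => c * F x) = c * sumMod m F := by
  unfold sumMod
  exact (mul_finsum _ _).symm

lemma nat_dvd_iff (n : ℕ) (x : OO A B) :
    ((n : ℕ) : OO A B) ∣ x ↔ (n : ℤ) ∣ x.re ∧ (n : ℤ) ∣ x.im := by
  constructor
  · rintro ⟨t, rfl⟩
    refine ⟨⟨t.re, ?_⟩, ⟨t.im, ?_⟩⟩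
    · rw [QuadraticAlgebra.re_mul]; simp
    · rw [QuadraticAlgebra.im_mul]; simp
  · rintro ⟨⟨s, hs⟩, ⟨t, ht⟩⟩
    refine ⟨⟨s, t⟩, ?_⟩
    apply QuadraticAlgebra.ext
    · rw [QuadraticAlgebra.re_mul]; simp [hs]
    · rw [QuadraticAlgebra.im_mul]; simp [ht]

lemma nm_per (N : ℕ) {x y : OO A B} (h : x - y ∈ idl (A := A) (B := B) N) :
    (N : ℤ) ∣ nm x - nm y := by
  rw [Ideal.mem_span_singleton, nat_dvd_iff, QuadraticAlgebra.re_sub, QuadraticAlgebra.im_sub] at h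
  obtain ⟨⟨s, hs⟩, ⟨t, ht⟩⟩ := h
  have h1 : x.re = y.re + N * s := by linarith
  have h2 : x.im = y.im + N * t := by linarith
  refine ⟨2 * y.re * s + N * s ^ 2 + B * (y.re * t + s * y.im + N * s * t) -
    A * (2 * y.im * t + N * t ^ 2), ?_⟩
  unfold nm
  rw [h1, h2]
  ring

lemma cop_nat (p f n : ℕ) (hpq : p ∣ q0 p) : (aX p f).Coprime (lvX p f n) := by
  unfold aX lvX
  have h0 : (1 + 2 * q0 p * f).Coprime (q0 p) := by
    have h1 : 1 + 2 * q0 p * f = 1 + (2 * f) * q0 p := by ring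
    rw [h1, Nat.coprime_add_mul_right_left]
    exact Nat.coprime_one_left _
  refine Nat.Coprime.mul_right (Nat.Coprime.mul_right ?_ h0) (Nat.Coprime.pow_right _ ?_)
  · rw [Nat.coprime_add_mul_right_left]
    exact Nat.coprime_one_left f
  · exact Nat.Coprime.coprime_dvd_right hpq h0

end TSH

open TSH in
theorem ti_TSH (h1 : Si_PTP) (h2 : Si_PQF) (h3 : Pool.Agent.MUXF.Sx_ALG) : Si_TSH := by
  intro p A B P V f hS ι R n e he i t
  have hCQ : CQ A B := hS.case.toCQ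
  obtain ⟨alg1, alg2, alg3, alg4, -⟩ := h3 A B (Pool.Agent.MUXY.cqF hCQ)
  obtain ⟨-, -, -, pq4, -⟩ := h2 p A B P V f hS
  have hpq : p ∣ q0 p := by
    unfold q0
    split_ifs with h
    · rw [h]; norm_num
    · exact dvd_rfl
  have hp0 : p ≠ 0 := by
    rcases hS.case.split with h | h
    · rw [h.1]; norm_num
    · rw [h.1]; norm_num
  have hq0 : q0 p ≠ 0 := by
    unfold q0
    split_ifs with h
    · norm_num
    · exact hp0
  have hm0 : lvX p f n ≠ 0 := mul_ne_zero (mul_ne_zero hS.f0 hq0) (pow_ne_zero _ hp0)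
  obtain ⟨ptp1, ptp2⟩ := h1 A B hCQ (p * f) ι R (lvX p f n) hm0 i
  have hmO : ((lvX p f n : ℕ) : OO A B) ≠ 0 := by
    intro h0
    have h5 := (alg3 (lvX p f n : ℤ)).1
    rw [Int.cast_natCast, h0, (alg2 0).1.2 rfl] at h5
    apply hm0
    exact_mod_cast h5.symm
  have hfin : Finite (OO A B ⧸ Ideal.span {((lvX p f n : ℕ) : OO A B)}) := by
    apply alg4
    rw [Ne, Ideal.span_singleton_eq_bot]
    exact hmO
  have hmM : lvX p f n = f * (q0 p * p ^ n) := by unfold lvX; ring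
  have hcN := cop_nat p f n hpq
  have hcZ : IsCoprime ((aX p f : ℕ) : ℤ) ((lvX p f n : ℕ) : ℤ) :=
    Nat.isCoprime_iff_coprime.2 hcN
  have hcO : IsCoprime ((aX p f : ℕ) : OO A B) ((lvX p f n : ℕ) : OO A B) := by
    have h5 := hcZ.map (Int.castRingHom (OO A B))
    simpa using h5
  -- the ideal `idl f * cjI P`
  have hpc : ((p : ℕ) : OO A B) ∈ cjI P := by
    have h5 : ((p : ℕ) : OO A B) ∈ P * cjI P := by
      rw [pq4]
      exact Ideal.mem_span_singleton_self _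
    have h6 : P * cjI P ≤ cjI P := Ideal.mul_le_right
    exact h6 h5
  have hqc : ((q0 p : ℕ) : OO A B) ∈ cjI P := by
    obtain ⟨c, hc⟩ := hpq
    rw [hc, Nat.cast_mul]
    exact Ideal.mul_mem_right _ _ hpc
  have hle : idl (A := A) (B := B) (lvX p f n) ≤ idl f * cjI P := by
    rw [Ideal.span_singleton_le_iff_mem, hmM, Nat.cast_mul]
    have h7 : (f : OO A B) ∈ idl (A := A) (B := B) f :=
      Ideal.mem_span_singleton_self ((f : ℕ) : OO A B)
    have h6 : ((q0 p * p ^ n : ℕ) : OO A B) ∈ cjI P := by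
      rw [Nat.cast_mul]
      exact (cjI P).mul_mem_right _ hqc
    exact Ideal.mul_mem_mul h7 h6
  have hea : ∀ x, e (((aX p f : ℕ) : OO A B) * x) = e x := by
    intro x
    rw [he.mul, he.per ((aX p f : ℕ) : OO A B) 1, he.one, one_mul]
    have h5 : ((aX p f : ℕ) : OO A B) - 1 = (f : OO A B) * ((q0 p : OO A B) * 2) := by
      unfold aX
      push_cast
      ring
    rw [h5]
    have h6 : (q0 p : OO A B) * 2 ∈ cjI P := (cjI P).mul_mem_right 2 hqc
    have h7 : (f : OO A B) ∈ idl (A := A) (B := B) f :=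
      Ideal.mem_span_singleton_self ((f : ℕ) : OO A B)
    exact Ideal.mul_mem_mul h7 h6
  -- the summands
  set F0 : ℤ → OO A B → ℂ := fun c x =>
    if ((q0 p * p ^ n : ℕ) : ℤ) ∣ nm x * nI (R.b i) - c then
      e x * ee (R.L i) (pt R (lvX p f n) i x) else 0 with hF0
  have hMm : ((q0 p * p ^ n : ℕ) : ℤ) ∣ ((lvX p f n : ℕ) : ℤ) :=
    ⟨f, by rw [hmM]; push_cast; ring⟩
  have hper : ∀ c, Per ((lvX p f n : ℕ) : OO A B) (F0 c) := by
    intro c x y hxy
    have h5 : ((q0 p * p ^ n : ℕ) : ℤ) ∣ nm x * nI (R.b i) - nm y * nI (R.b i) := by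
      rw [← sub_mul]
      exact (hMm.trans (nm_per _ hxy)).mul_right _
    have h6 : ((q0 p * p ^ n : ℕ) : ℤ) ∣ nm x * nI (R.b i) - c ↔
        ((q0 p * p ^ n : ℕ) : ℤ) ∣ nm y * nI (R.b i) - c := by
      constructor
      · intro h7
        have := dvd_sub h7 h5
        rwa [sub_sub_sub_cancel_left, show nm y * (nI (R.b i) : ℤ) - c =
          nm y * (nI (R.b i) : ℤ) - c from rfl] at this
      · intro h7
        have := dvd_add h5 h7
        rwa [sub_add_sub_cancel] at this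
    simp only [hF0]
    rw [he.per x y (hle hxy), (ptp1 x y hxy).2.1]
    by_cases h7 : ((q0 p * p ^ n : ℕ) : ℤ) ∣ nm x * nI (R.b i) - c
    · rw [if_pos h7, if_pos (h6.1 h7)]
    · rw [if_neg h7, if_neg (fun h8 => h7 (h6.2 h8))]
  have hcop2 : IsCoprime ((q0 p * p ^ n : ℕ) : ℤ) ((aX p f : ℤ) ^ 2) := by
    have h5 := (hcZ.of_isCoprime_of_dvd_right hMm).symm
    exact h5.pow_right
  have hnma : ∀ x : OO A B, nm (((aX p f : ℕ) : OO A B) * x) = (aX p f : ℤ) ^ 2 * nm x := by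
    intro x
    have h5 := (alg3 (aX p f : ℤ)).2
    rw [Int.cast_natCast] at h5
    rw [(alg1 _ _).2.2, h5]
  have hdv : ∀ x : OO A B, ((q0 p * p ^ n : ℕ) : ℤ) ∣
      nm (((aX p f : ℕ) : OO A B) * x) * nI (R.b i) - (aX p f : ℤ) ^ 2 * t ↔
      ((q0 p * p ^ n : ℕ) : ℤ) ∣ nm x * nI (R.b i) - t := by
    intro x
    rw [hnma, show (aX p f : ℤ) ^ 2 * nm x * (nI (R.b i) : ℤ) - (aX p f : ℤ) ^ 2 * t =
      (aX p f : ℤ) ^ 2 * (nm x * (nI (R.b i) : ℤ) - t) by ring]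
    exact ⟨fun h => hcop2.dvd_of_dvd_mul_left h, fun h => h.mul_left _⟩
  have hS1 : ∀ c, SnX R (lvX p f n) (q0 p * p ^ n) e i c =
      muX R i * sumMod ((lvX p f n : ℕ) : OO A B) (F0 c) := fun c => rfl
  have hS2 : sumMod ((lvX p f n : ℕ) : OO A B) (F0 ((aX p f : ℤ) ^ 2 * t)) =
      sumMod ((lvX p f n : ℕ) : OO A B)
        (fun x => F0 ((aX p f : ℤ) ^ 2 * t) (((aX p f : ℕ) : OO A B) * x)) :=
    (sumMod_mul hcO (hper _)).symm
  rw [hS1, hS1, hS2]
  have key : sumMod ((lvX p f n : ℕ) : OO A B) (fun x =>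
      if ((q0 p * p ^ n : ℕ) : ℤ) ∣ nm x * nI (R.b i) - t then
        e x * dlX (R.L i) (aX p f) (pt R (lvX p f n) i x) else 0) =
      (aX p f : ℂ) * sumMod ((lvX p f n : ℕ) : OO A B)
        (fun x => F0 ((aX p f : ℤ) ^ 2 * t) (((aX p f : ℕ) : OO A B) * x)) -
      (aX p f : ℂ) ^ 2 * sumMod ((lvX p f n : ℕ) : OO A B) (F0 t) := by
    rw [← sumMod_cmul, ← sumMod_cmul, ← sumMod_sub hfin]
    congr 1
    funext x
    simp only [hF0]
    by_cases h7 : ((q0 p * p ^ n : ℕ) : ℤ) ∣ nm x * nI (R.b i) - t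
    · rw [if_pos h7, if_pos ((hdv x).2 h7), if_pos h7, hea, ← ptp2]
      unfold dlX
      ring
    · rw [if_neg h7, if_neg (fun h8 => h7 ((hdv x).1 h8)), if_neg h7]
      ring
  rw [key]
  ring

end

end Pool.Agent.MUXI
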