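import Pool.Agent.MUX.StVX
import Pool.Agent.MUX.TDefs

/-!
# MUX, block R, part 2: the isogenies `ℂ/L → ℂ/M`, `M = μ 𝔮⁻¹ L`, for a prime ideal `𝔮` of degree one (helper59)

`O = OO A B` the ring of integers of an imaginary quadratic field (`CQ A B`), `L` a lattice with `O L ⊆ L` (`CMO A B L`), `𝔮` an ideal with `q`
elements in `O/𝔮`, `q` a prime number; `IsQr 𝔮 L M μ`: `M = μ 𝔮⁻¹ L`. Every `def Sq_X : Prop` is the statement of a module, which proves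
`theorem tq_X (h : ..) .. : Sq_X` in `Pool/Agent/MUX/Q_X.lean`, namespace `Pool.Agent.MUXV`.
-/

set_option autoImplicit false

open WeierstrassCurve Polynomial

namespace Pool.Agent.MUXV

open _root_.MU3 Pool.Agent.MU3A Pool.Agent.MU3B Pool.Agent.MUXU
open Pool.Agent.MUXF (CQ)

noncomputable section

/-- `O L ⊆ L` -/
def CMO (A B : ℤ) (L : PeriodPair) : Prop :=
  ∀ (x : OO A B) (z : ℂ), z ∈ L.lattice → emb x * z ∈ L.lattice

/-- `M = μ 𝔮⁻¹ L` -/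
def IsQr {A B : ℤ} (Q : Ideal (OO A B)) (L M : PeriodPair) (mu : ℂ) : Prop :=
  mu ≠ 0 ∧ ∀ z : ℂ, mu * z ∈ M.lattice ↔ ∀ x ∈ Q, emb x * z ∈ L.lattice

/-- `V` lies above `𝔮` -/
def Ovr {A B : ℤ} (Q : Ideal (OO A B)) (V : ValuationSubring ℂ) : Prop :=
  ∀ x ∈ Q, V.valuation (emb x) < 1

/-- (EMB) elementary facts on `O`.

PROOF. As the lemmas of `ADefs.lean`, `XDefs.lean` (with `wC_sq`: `wC² = A + B wC`); `B ∈ {0, 1}`, `B² + 4A < 0`. -/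
def Sq_EMB : Prop :=
  ∀ A B : ℤ, CQ A B → (∀ x y : OO A B, emb (x * y) = emb x * emb y) ∧
    (∀ x y : OO A B, emb (x + y) = emb x + emb y) ∧ (∀ x y : OO A B, emb (x - y) = emb x - emb y) ∧
    (∀ n : ℤ, emb (n : OO A B) = n) ∧ (∀ n : ℕ, emb (n : OO A B) = n) ∧
    (∀ x y : OO A B, emb x = emb y → x = y) ∧ wC A B ^ 2 = A + B * wC A B ∧ 0 < (wC A B).im ∧
    (∀ x : OO A B, x * star x = ((nm x : ℤ) : OO A B)) ∧
    (∀ x y : OO A B, nm (x * y) = nm x * nm y) ∧ (∀ x : OO A B, 0 ≤ nm x) ∧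
    (∀ x : OO A B, nm x = 0 ↔ x = 0) ∧ IsDomain (OO A B)

/-- (DGI) an ideal of prime norm `q`.

PROOF. `O/𝔮` has `q` elements, `q` prime, so it is generated by `1` as a group and `q = 0` in it: `w ≡ r` for an integer `r`. `x = a + b w ∈ 𝔮` iff
`a + b r ≡ 0` modulo `q` (an integer `n ∈ 𝔮` is divisible by `q`: otherwise `1 ∈ 𝔮`). `w² = A + B w` gives `r² - B r - A ≡ 0`. -/
def Sq_DGI : Prop :=
  ∀ (A B : ℤ) (Q : Ideal (OO A B)) (q : ℕ), q.Prime → Nat.card (OO A B ⧸ Q) = q →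
    ∃ r : ℤ, (q : ℤ) ∣ r ^ 2 - B * r - A ∧ ∀ x : OO A B, x ∈ Q ↔ (q : ℤ) ∣ x.re + x.im * r

/-- (DGL) the ideal generated by an element of prime norm.

PROOF. `lam = a + b w`, `q = nm lam = a² + B a b - A b²`; `q ∤ b` (otherwise `q ∣ a`, `q² ∣ q`). `O/lam` is generated by `1` as a group (`V_DEG1.lean` of MU3: for every `x` there is
an integer `n` with `lam ∣ x - n`), and `lam ∣ n` iff `q ∣ n`: so `ℤ/q ≅ O/lam` (`WK3.card_quot`). -/
def Sq_DGL : Prop :=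
  ∀ (A B : ℤ), CQ A B → ∀ (lam : OO A B) (q : ℕ), q.Prime → nm lam = q →
    Nat.card (OO A B ⧸ Ideal.span {lam}) = q ∧ (Ideal.span {lam} : Ideal (OO A B)).IsMaximal ∧
    (∀ x : OO A B, ∃ n : ℤ, lam ∣ x - n) ∧ lam ∣ (q : OO A B) ∧
      ∀ n : ℤ, lam ∣ (n : OO A B) → (q : ℤ) ∣ n

/-- (TRC) a multiplier `(x + y w)/n` of a lattice: its trace is an integer.

PROOF. `α L ⊆ L`, `α = (a + b w)/n` with integers, `b ≠ 0`, `n ≠ 0`. `α ω₁ = p ω₁ + s ω₂`, `α ω₂ = t ω₁ + u ω₂` with integers: `α` is a root of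
`X² - (p + u) X + (p u - s t)` (determinant of `(p - α, s; t, u - α)`, which kills `(ω₁, ω₂) ≠ 0`), and of `X² - ((2a + b B)/n) X + nm(a + b w)/n²`. Both have real coefficients
and `α` is not real, so (imaginary part of the difference, a real multiple of `α`) `p + u = (2 a + b B)/n`. -/
def Sq_TRC : Prop :=
  ∀ (A B : ℤ), CQ A B → ∀ (L : PeriodPair) (a b n : ℤ), n ≠ 0 → b ≠ 0 →
    (∀ z ∈ L.lattice, (a + b * wC A B) / n * z ∈ L.lattice) → n ∣ 2 * a + b * B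

/-- (CYQ) the kernel of the isogeny is cyclic of order `q`.

Uses DGI, TRC, EMB. PROOF. `q ∤ disc = B² + 4A`, `q` odd. (DGI): `r`; `𝔮 = {a + b w : q ∣ a + b r}` is generated by `q` and `w - r`, so the kernel `C = {z : μ z ∈ M}` is
`{z : q z ∈ L, (w - r) z ∈ L}` (`w - r ∈ 𝔮`; if `a + b r = q c` then `a + b w = q c + b (w - r)`). Let `r' = B - r`. `(w - r)(w - r') = -(r² - B r - A) ∈ q ℤ`. (i) `C ≠ L`: otherwise for every `z` with
`q z ∈ L` the point `(w - r') z` is in `C` (`(w - r)(w - r') z ∈ ℤ q z`), so in `L`; so `(w - r')/q` maps `L` into `L` and (TRC) gives `q ∣ 2 r' - B`, up to sign; but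
`(2 r' - B)² ≡ B² + 4A` modulo `q`, a contradiction. (ii) Let `u, u₁ ∈ C`, `u₁ ∉ L`, and suppose `u - n u₁ ∉ L` for all integers `n`. Then `u₁`, `u` generate `{z : q z ∈ L}` modulo `L`
(a group of order `q²`, isomorphic to `(ℤ/q)²`; the classes `i u + j u₁`, `0 ≤ i, j < q`, are `q²` different ones), so `C` contains all `z` with `q z ∈ L`, and `(w - r)/q` maps `L` into `L`: contradiction as in (i).
(iii) `u₁ ∈ C ∖ L`: `H = {j u₁ : 1 ≤ j ≤ (q-1)/2}` is a half system (`q u₁ ∈ L`, `j u₁ ∈ L` iff `q ∣ j`). -/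
def Sq_CYQ : Prop :=
  ∀ (A B : ℤ), CQ A B → ∀ (Q : Ideal (OO A B)) (q : ℕ), q.Prime → q ≠ 2 →
    ¬ (q : ℤ) ∣ B ^ 2 + 4 * A → Nat.card (OO A B ⧸ Q) = q → ∀ (L M : PeriodPair) (mu : ℂ),
    CMO A B L → IsQr Q L M mu → Isg L M mu ∧
    (∀ u u₁ : ℂ, mu * u ∈ M.lattice → mu * u₁ ∈ M.lattice → u₁ ∉ L.lattice →
      ∃ n : ℤ, u - n * u₁ ∈ L.lattice) ∧ (∀ u : ℂ, mu * u ∈ M.lattice → q * u ∈ L.lattice) ∧
    ∃ H : Finset ℂ, HalfI L M mu H ∧ 2 * H.card + 1 = q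

/-- (AEL) an element `a` of `𝔮` with `a 𝔮⁻¹` of odd norm `c` prime to `q`.

Uses DGI, EMB. PROOF. (DGI): `r`. `g(x) = x² - 2 B x - 4 A = nm(x - 2 w)`. For `x ≡ 2 r` modulo `q`, `x - 2 w ∈ 𝔮` and `q ∣ g(x)` (`g(2r) = 4 (r² - B r - A)`); for odd `x` `g(x)` is odd. Let `x₀` be odd, `≡ 2 r` modulo `q`,
`g(x₀ + 2 q) ≡ g(x₀) + 2 q (2 x₀ - 2 B)` modulo `q²`, and `2 x₀ - 2 B ≡ 2 (2 r - B)` is prime to `q` (`(2r - B)² ≡ B² + 4A`): so one of `g(x₀)`, `g(x₀ + 2q)` is not divisible by `q²`. `a = x - 2 w`, `c = nm a/q > 0`. Let `emb a * z ∈ L`, `y ∈ 𝔮`: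
`y * star a ∈ q O` (`y = y₁ + y₂ w`, `y₁ + y₂ r ≡ 0`, `star a = (x - 2B) + 2 w`, `≡ 2 (w - (B - r))`, `y ≡ y₂ (w - r)`, and `(w - r)(w - (B - r)) ∈ q ℤ`): `y * star a = q t`, so `y c = y a (star a)/q = a t` and
`emb y * (c z) = emb t * (emb a * z) ∈ L`. -/
def Sq_AEL : Prop :=
  ∀ (A B : ℤ), CQ A B → ∀ (Q : Ideal (OO A B)) (q : ℕ), q.Prime → q ≠ 2 →
    ¬ (q : ℤ) ∣ B ^ 2 + 4 * A → Nat.card (OO A B ⧸ Q) = q →
    ∃ (a : OO A B) (c : ℕ), a ∈ Q ∧ a ≠ 0 ∧ Odd c ∧ ¬ q ∣ c ∧ ∀ (L : PeriodPair), CMO A B L → ∀ z : ℂ,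
      emb a * z ∈ L.lattice → ∀ y ∈ Q, emb y * (c * z) ∈ L.lattice

/-- (VQI) `𝔮` below `V`: the integers at `V`.

Uses DGI, EMB. PROOF. `q ∈ 𝔮`. An integer prime to `q`: `x s + y q = 1`. `v(emb x) ≤ 1`: `emb x` is integral over `ℤ` (a root of `X² - (2 x.re + B x.im) X + nm x`). If `x ∉ 𝔮`: there is `y` with
`x y - 1 ∈ 𝔮` (`O/𝔮` is a field). -/
def Sq_VQI : Prop :=
  ∀ (A B : ℤ), CQ A B → ∀ V : ValuationSubring ℂ, (∀ x : OO A B, V.valuation (emb x) ≤ 1) ∧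
    ∀ (Q : Ideal (OO A B)) (q : ℕ), q.Prime → Nat.card (OO A B ⧸ Q) = q → Ovr Q V →
      V.valuation (q : ℂ) < 1 ∧ (∀ s : ℤ, ¬ (q : ℤ) ∣ s → V.valuation (s : ℂ) = 1) ∧
      ∀ x : OO A B, x ∉ Q → V.valuation (emb x) = 1

/-- (ISQ) the multiplier at `V` above `𝔮` and at `V` above a different prime; the isogeny as `IsoV`.

Uses CYQ, AEL, VQI, MLT, MUN, EMB. PROOF. `IsoV`: (CYQ). (1) `V` above `𝔮`: (AEL) gives `a`, `c`; `Isg M L (a/μ)`: `z ∈ M`, `z = μ z'`, `𝔮 z' ⊆ L`, so `(a/μ) z = a z' ∈ L`; and `(a/μ) z ∈ L` gives `𝔮 c z' ⊆ L` (AEL),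
`c z = μ (c z') ∈ M`. (MLT): `v μ = v(emb a) < 1`. (2) `v q = 1`: (MUN) with `n = q` (`q z ∈ L` on the kernel). -/
def Sq_ISQ : Prop :=
  ∀ (A B : ℤ), CQ A B → ∀ (Q : Ideal (OO A B)) (q : ℕ), q.Prime → q ≠ 2 →
    ¬ (q : ℤ) ∣ B ^ 2 + 4 * A → Nat.card (OO A B ⧸ Q) = q → ∀ (L M : PeriodPair) (c c' mu : ℂ),
    CMO A B L → IsQr Q L M mu → ∀ V : ValuationSubring ℂ,
    (∃ (W : WeierstrassCurve.Affine ℂ) (ξ : ℂ →+ W.Point),
      GR V W L (fun z => L.weierstrassP z - c) (fun z => L.derivWeierstrassP z / 2) ξ) →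
    (∃ (W : WeierstrassCurve.Affine ℂ) (ξ : ℂ →+ W.Point),
      GR V W M (fun z => M.weierstrassP z - c') (fun z => M.derivWeierstrassP z / 2) ξ) →
    (∃ H : Finset ℂ, IsoV V L M c c' mu q H) ∧ (Ovr Q V → V.valuation mu < 1) ∧
    (V.valuation (q : ℂ) = 1 → V.valuation mu = 1)

/-- (FRX) the Frobenius congruence for a prime ideal of degree one (PAPER_X, section 2, (FROB)).

Uses NGR, FRN, ISQ, VQI. PROOF. Good reduction: (NGR). `v 2 = v 3 = 1`. (ISQ): `IsoV`, `v μ < 1`. (FRN). -/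
def Sq_FRX : Prop :=
  ∀ (A B : ℤ), CQ A B → ∀ (Q : Ideal (OO A B)) (q : ℕ), q.Prime → q ≠ 2 → q ≠ 3 →
    ¬ (q : ℤ) ∣ B ^ 2 + 4 * A → Nat.card (OO A B ⧸ Q) = q → ∀ (L M : PeriodPair) (mu : ℂ),
    CMO A B L → IsQr Q L M mu → L.g₂ = -18 * L.g₃ → M.g₂ = -18 * M.g₃ →
    ∀ V : ValuationSubring ℂ, Ovr Q V → V.valuation (kp L) = 1 → V.valuation (12 * L.g₂) = 1 →
    V.valuation (kp M) = 1 → V.valuation (12 * M.g₂) = 1 →
    V.valuation (kp M - kp L ^ q) < 1 ∧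
    ∀ z, ¬ InK V L (fun z => L.weierstrassP z - 1 / 12) z →
      ¬ InK V M (fun z => M.weierstrassP z - 1 / 12) (mu * z) ∧
      V.valuation ((M.weierstrassP (mu * z) - 1 / 12) - (L.weierstrassP z - 1 / 12) ^ q) < 1

/-- (ALU) a nonzero algebraic number is a unit outside finitely many primes.

PROOF. There are natural numbers `n₁, n₂ ≠ 0` with `n₁ α` and `n₂ α⁻¹` integral over `ℤ` (`IsAlgebraic.exists_integral_multiple` or similar, `ℚ` and `ℤ`). `n = n₁ n₂`. If `v n = 1` then `v n₁ = v n₂ = 1` (both are `≤ 1`), so `v α ≤ 1`, `v α⁻¹ ≤ 1`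
(a valuation ring contains the integral elements). -/
def Sq_ALU : Prop :=
  ∀ x : ℂ, IsAlgebraic ℚ x → x ≠ 0 → ∃ n : ℕ, n ≠ 0 ∧ ∀ V : ValuationSubring ℂ,
    V.valuation (n : ℂ) = 1 → V.valuation x = 1

/-- (THU) `Θ_a` is a unit, and depends only on the reduction.

PROOF. `W_THU.lean` of MU3, with `GR` in place of `IsXi`. -/
def Sq_THU : Prop :=
  ∀ (V : ValuationSubring ℂ) (L : PeriodPair) (c : ℂ) (W : WeierstrassCurve.Affine ℂ)
    (ξ : ℂ →+ W.Point),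
    GR V W L (fun z => L.weierstrassP z - c) (fun z => L.derivWeierstrassP z / 2) ξ →
    ∀ (a : ℤ) (H : Finset ℂ), V.valuation (a : ℂ) = 1 → IsHalf L a H →
    (∀ z, ¬ InK V L (fun z => L.weierstrassP z - c) (a * z) →
      V.valuation (ThetaH L H z) = 1) ∧
    ∀ z r, ¬ InK V L (fun z => L.weierstrassP z - c) z →
      InK V L (fun z => L.weierstrassP z - c) r → V.valuation (ThetaH L H z) ≤ 1 ∧
      V.valuation (ThetaH L H (z + r) - ThetaH L H z) < 1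

/-- (YUN) the second coordinate is a unit unless `2 z` is in the kernel of reduction; differences of first
coordinates.

Uses `VX.lean`, `VRed.v_y_unit`. PROOF. First: `v_y_unit` for the point `ξ z`. Second: (near) `v(X(z+w) - X z - 2 Y z t(w)) ≤ v(t w)² < v(t w)`, `v(2 Y z) = 1`. -/
def Sq_YUN : Prop :=
  ∀ (V : ValuationSubring ℂ) (W : WeierstrassCurve.Affine ℂ) (L : PeriodPair) (X Y : ℂ → ℂ)
    (ξ : ℂ →+ W.Point), GR V W L X Y ξ → ∀ z, ¬ InK V L X z → ¬ InK V L X (2 * z) →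
      V.valuation (Y z) = 1 ∧ ∀ w, InK V L X w → w ∉ L.lattice →
        V.valuation (X (z + w) - X z) = V.valuation (tX X Y w)

/-- (TOR) torsion of order prime to the residue characteristic meets the kernel of reduction trivially.

Uses EMB, `VX.lean`. PROOF. `star m * m = nm m` is a natural number `n`, `n z ∈ L`: `mem_of_nat_mul`. -/
def Sq_TOR : Prop :=
  ∀ (A B : ℤ), CQ A B → ∀ (V : ValuationSubring ℂ) (W : WeierstrassCurve.Affine ℂ)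
    (L : PeriodPair) (X Y : ℂ → ℂ) (ξ : ℂ →+ W.Point), GR V W L X Y ξ → CMO A B L →
    ∀ m : OO A B, V.valuation ((nm m : ℤ) : ℂ) = 1 → ∀ z, emb m * z ∈ L.lattice →
      InK V L X z → z ∈ L.lattice

end

end Pool.Agent.MUXV
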