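import Pool.Agent.MUX.StWX

/-!
# MUX, block W, part 2 (helper59): half systems of `XX`
-/

set_option autoImplicit false

open WeierstrassCurve Polynomial NumberField IsDedekindDomain

namespace Pool.Agent.MUXW

open _root_.MU3 Pool.Agent.MU3A Pool.Agent.MU3B Pool.Agent.MU3C Pool.Agent.RI Pool.Agent.RID
open Pool.Agent.MUX Pool.Agent.MUXU
open Pool.Agent.MU3V (cls Sub GD algDF)
open Pool.Agent.MUXV (GR InK tX CMO Ovr)

noncomputable section

/-- (CXS) `cWt h θ τ` is the product of `Θ_a` over one half of `XX R m h τ` (block E, `p = 2` and `3`).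

Uses Sy_HIT, Sy_THG, Sy_MEM, Su_DET. PROOF. `L = R.L R.i0`, `F = RF (idl m)`. For every automorphism `σ` of `F/k` which extends `τ` choose an extension `s ∈ Aut(ℂ/k)` of `σ` (`T.ext` for the field `F` restricted to `ℚ`, or AUE) and a pair `(i, x)` with `Hits R m s i x` (HIT); `S` = the set of the `(i, cls x)`. `s` extends `τ` as well, so
`S ⊆ XX R m h τ`, and `XX R m h τ = S ∪ -S`: if `s'` extends `τ` and hits `(j, y)`, its restriction to `F` (`F/k` normal) is one of the `σ`, and `Hits R m s' j y ↔ Hits R m s j y` (`Hits` only depends on the values of `s` at `kap L`, `xn L (pt 1) ∈ F`), so `j = i`, `y ≡ ± x` (HIT). `(i, -x) ∉ S` and the map `σ ↦ (i, cls x)` is injective: let `s`, `s'` (for `σ`, `σ'`)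
hit `(i, x)` and `(i, ± x)`: then `t = s⁻¹ s'` fixes `kap L` and `xn L (pt R m i0 1)`; `T.act` for `t`: ideal `a`, `L'`, `mu`; `kap L' = kap L`, both normalised: the same lattice (DET), `mu = emb c`, `a = (c)` (as in KER), `xn L (c om/m) = xn L (om/m)`, so `c ≡ ± 1` modulo `m` (`b_NEQ`), so `t` is trivial on `F` (`T.triv`): `σ = σ'`. If both are the same `σ` then
`x ≡ - x` modulo `m` is excluded (`¬ m ∣ 2 x`, HIT). The factor of `(i, cls x)` in the product is `Θ_a(pt R m i x; L_i) = σ(θ)` (THG; `Θ_a` is even and periodic, `b_TIN`: the representative `Quotient.out` of the class of `x` does not matter). -/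
def Sy_CXS : Prop :=
  ∀ A B : ℤ, CQ A B → TorX A B → ∀ (n : ℕ) (ι : Type) (R : Reps A B n ι) (m : ℕ), m ≠ 0 →
    (∀ i, (nI (R.b i)).Coprime m) → ¬ ((m : ℕ) : OO A B) ∣ 2 →
    ∀ (a : ℕ) (H : ι → Finset ℂ), a ≠ 0 → a.Coprime m → (∀ i, IsHalf (R.L i) a (H i)) →
    ∀ θ : (RF (idl m) : IntermediateField (kk A B) ℂ),
    (θ : ℂ) = ThetaH (R.L R.i0) (H R.i0) (Pool.Agent.MUX.pt R m R.i0 1) →
    ∀ (D : IntermediateField ℚ ℂ) (h : kk A B ≤ D),
    Sub D (RF (idl m) : IntermediateField (kk A B) ℂ) → letI := algC h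
    ∀ τ : D ≃ₐ[kk A B] D, ∃ S : Finset (ι × (OO A B ⧸ idl (A := A) (B := B) m)),
      (∀ q, q ∈ XX R m h τ ↔ q ∈ S ∨ (q.1, -q.2) ∈ S) ∧ (∀ q ∈ S, (q.1, -q.2) ∉ S) ∧
      cWt h θ τ = ∏ q ∈ S, ThetaH (R.L q.1) (H q.1)
        (Pool.Agent.MUX.pt R m q.1 (Quotient.out q.2))

end

end Pool.Agent.MUXW
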