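import Pool.Agent.MUX.DefsX2
import Pool.Agent.MU3.StQ

/-!
# MUX, block G (helper3): the symbol is not zero modulo `V` on closed cycles. No Honda theory

`PAPER_X.md` section 10, for `p = 2` and `p = 3` (nothing here depends on `p` except through `V`). Every statement is a `def
Sg_X : Prop`; the module `MUXN_X` proves `theorem tg_X (h : Sg_Y) ... : Sg_X` in `Pool/Agent/MUX/N_X.lean`, namespace
`Pool.Agent.MUXN`; hypotheses are exactly the statements named under `Uses`. `St_WQ`, `St_QA`, ... of `StQ.lean` are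
unconditional (`Pool/Agent/MU3/Q_ALL.lean`).
`v = V.valuation`, `v x ≤ 1` iff `x ∈ V` (`ValuationSubring.valuation_le_one_iff`), `v x < 1` iff `x ∈ V.nonunits`.
-/

set_option autoImplicit false

namespace Pool.Agent.MUXN

open _root_.MU3 Pool.Agent.MU3A Pool.Agent.MU3B Pool.Agent.MU3Q Pool.Agent.MUX Pool.Agent.MuSym
  OnePoint UpperHalfPlane
open scoped MatrixGroups

noncomputable section

/-! ## The Gauss lemma -/

/-- (GV) abstract Gauss lemma: if `dX = (2Y + a₁X + a₃) g` on a curve with good reduction, then `g` is integral.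

PROOF. `v(2) = 1` or `v(3) = 1` (`3 - 2 = 1`). Apply `D` to the equation: `(2Y + a₁X + a₃) DY = (3X² + 2a₂X + a₄ - a₁Y) DX`, so with `T = 2Y + a₁X + a₃ ≠ 0`:
`DY = S g`, `S = 3X² + 2a₂X + a₄ - a₁Y`. (1) `v X > 1`: then `v Y > 1`, `v(Y)² = v(X)³` (compare the terms of the equation: `v(Y) > v(X) > 1`, because
`v(Y)² > v(X)²` ...: if `v Y ≤ v X` the right side `v(X)³` would be larger than every term on the left). If `v 2 = 1`: `v T = v Y`, `v g = v(DX)/v(Y) ≤ v(X)/v(Y) < 1`.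
If `v 3 = 1`: `v S = v(X)²` (`v Y < v(X)²` as `v(Y)² = v(X)³ < v(X)⁴`), `v g = v(DY)/v(X)² ≤ v(Y)/v(X)² < 1`. (2) `v X ≤ 1`: `v Y ≤ 1` (monic equation). Reduce to
the residue field of the valuation subring of `v` (`Valuation.valuationSubring`): the reduced curve has `Δ ≠ 0`, so the reduced point is nonsingular
(`WeierstrassCurve.Affine.equation_iff_nonsingular` / `nonsingular_of_Δ_ne_zero`), so `v T = 1` or `v S = 1` (the partial derivatives are `S` up to sign and `T`). So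
`v g = v(DX) ≤ 1` or `v g = v(DY) ≤ 1`. -/
def Sg_GV : Prop :=
  ∀ (E Γ : Type) [Field E] [LinearOrderedCommGroupWithZero Γ] (v : Valuation E Γ)
    (D : Derivation ℤ E E) (_ : ∀ x, v (D x) ≤ v x) (W : WeierstrassCurve.Affine E)
    (_ : D W.a₁ = 0 ∧ D W.a₂ = 0 ∧ D W.a₃ = 0 ∧ D W.a₄ = 0 ∧ D W.a₆ = 0)
    (_ : v W.a₁ ≤ 1 ∧ v W.a₂ ≤ 1 ∧ v W.a₃ ≤ 1 ∧ v W.a₄ ≤ 1 ∧ v W.a₆ ≤ 1) (_ : v W.Δ = 1)
    (X Y g : E) (_ : W.Equation X Y) (_ : 2 * Y + W.a₁ * X + W.a₃ ≠ 0)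
    (_ : D X = (2 * Y + W.a₁ * X + W.a₃) * g), v g ≤ 1

/-- (GD) the fraction field of `O⟦q⟧`: the Gauss valuation and the derivation `q d/dq`.

PROOF. `R = O⟦q⟧` is a domain, `ϖ` a uniformiser of `O`; `C ϖ` is prime in `R` (`R/(C ϖ)` is `(O/ϖ)⟦q⟧`, a domain: the kernel of
`PowerSeries.map (residue map)` is `(C ϖ)`), and `emultiplicity (C ϖ) r ≠ ⊤` for `r ≠ 0` (a coefficient `≠ 0` is divisible by a bounded power of `ϖ`). Valuation on `R` with values in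
`WithZero (Multiplicative ℤ)` from `multiplicity_addValuation` (or by hand: `exp(-n)` if `C ϖ^n` divides `r` exactly), support `0`, extended to the fraction field by
`Valuation.extendToLocalization`. `v(C c)` as stated: by definition (`c = ϖ^n unit`), third property: `v f ≤ v(C c)` means `C c ∣ f` for `f ∈ R`. Derivation: `θ : R → R` (coefficients `n f_n`) is a derivation; the ring
homomorphism `R → DualNumber E`, `r ↦ r + θ(r) ε` maps nonzero elements to units (`TrivSqZeroExt.isUnit_iff_isUnit_fst` or similar), so it extends to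
`φ : E → DualNumber E` (`IsLocalization.lift`), `fst (φ x) = x` (uniqueness of the lift), `D x = snd (φ x)`. `D(a/b) = (b θ a - a θ b)/b²`, `v(θ a) ≤ v a` (`C ϖ^n ∣ a` implies `C ϖ^n ∣ θ a`), so
`v(D x) ≤ v x`. -/
def Sg_GD : Prop :=
  ∀ (O : Type) [CommRing O] [IsDomain O] [IsDiscreteValuationRing O],
    ∃ (v : Valuation (FractionRing (PowerSeries O)) (WithZero (Multiplicative ℤ)))
      (D : Derivation ℤ (FractionRing (PowerSeries O)) (FractionRing (PowerSeries O))),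
      (∀ f : PowerSeries O, v (algebraMap _ _ f) ≤ 1) ∧
      (∀ u : O, IsUnit u → v (algebraMap _ _ (PowerSeries.C u)) = 1) ∧
      (∀ (f : PowerSeries O) (c : O), c ≠ 0 →
        v (algebraMap _ _ f) ≤ v (algebraMap _ _ (PowerSeries.C c)) → PowerSeries.C c ∣ f) ∧
      (∀ x, v (D x) ≤ v x) ∧
      ∀ f : PowerSeries O, D (algebraMap _ _ f) =
        algebraMap _ _ (PowerSeries.mk fun n => (n : O) * PowerSeries.coeff n f)

/-- (GP) the Gauss lemma for power series. `th f = q df/dq`. `x = A/B`, `g = G/c`.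

Uses Sg_GV, Sg_GD. PROOF. `E` the fraction field (characteristic `≠ 2` by `h2 : (2 : O) ≠ 0`), `v`, `D` from GD. `X = A/B`, `g = G/C c ≠ 0` (if `G = 0` clear), `DX = (B th A - A th B)/B² ≠ 0`,
`T = DX/g ≠ 0`, `Y = (T - a₁X - a₃)/2`. The hypothesis divided by `B⁴ C(c)² g² ...` says `T² = 4X³ + b₂X² + 2b₄X + b₆`, which is the Weierstrass equation for `(X, Y)`
(`b₂ = a₁² + 4a₂`, `b₄ = 2a₄ + a₁a₃`, `b₆ = a₃² + 4a₆`). `D` kills constants (`C a`). GV: `v g ≤ 1`, i.e. `v G ≤ v(C c)`. -/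
def Sg_GP : Prop :=
  ∀ (O : Type) [CommRing O] [IsDomain O] [IsDiscreteValuationRing O] (_ : (2 : O) ≠ 0)
    (W : WeierstrassCurve O) (_ : IsUnit W.Δ) (th : PowerSeries O → PowerSeries O)
    (_ : ∀ f n, PowerSeries.coeff n (th f) = (n : O) * PowerSeries.coeff n f)
    (P Q G : PowerSeries O) (c : O) (_ : c ≠ 0) (_ : Q ≠ 0) (_ : Q * th P - P * th Q ≠ 0)
    (_ : PowerSeries.C c ^ 2 * (Q * th P - P * th Q) ^ 2 =
      Q * (4 * P ^ 3 + PowerSeries.C W.b₂ * P ^ 2 * Q + 2 * PowerSeries.C W.b₄ * P * Q ^ 2 +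
        PowerSeries.C W.b₆ * Q ^ 3) * G ^ 2),
    PowerSeries.C c ∣ G

/-- (DV) a valuation ring of a number field above `p` is a discrete valuation ring.

PROOF. `K` as a number field, `W = V.comap (K → ℂ)`. `𝓞 K ≤ W` (`W` is integrally closed), `P = {x ∈ 𝓞 K : x ∈ W.nonunits}` is a prime ideal, `≠ ⊥` (it contains `p`). `W` is the localization of
`𝓞 K` at `P` (`Pool/Agent/MU3/G_G6a.lean` for the same argument: every `y ∈ W` is `x/z` with `x, z ∈ 𝓞 K`, `z ∉ P`), so a discrete valuation ring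
(`IsLocalization.AtPrime.isDiscreteValuationRing_of_dedekind_domain`). -/
def Sg_DV : Prop :=
  ∀ (K : Subfield ℂ) [NumberField K] (V : ValuationSubring ℂ) (p : ℕ) (_ : p.Prime)
    (_ : (p : ℂ) ∈ V.nonunits), IsDiscreteValuationRing (V.comap K.subtype)

/-- (BIN) integrality of a series whose integral is a modular point of a curve with good reduction.
`L` is a normalised lattice with good reduction at `V` (`κ`, `1 + 1728 κ` units), `Z = Σ z_n q^n` is a holomorphic function on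
`ℍ` with periods under `Γ₁(N)` in `L`, `z_n ∈ K`, `n z_n` with bounded denominators. Then `n z_n ∈ V` for all `n`; here only `n = 1`.

Uses St_WQ, Sg_GP, Sg_DV. PROOF. If `z_1 = 0`: clear. Otherwise St_WQ with `c0 = -1/12`, `a2 = 1/4`, `a4 = -36 κ`, `a6 = -κ` (`κ = kap L`; the equation is `derivWeierstrassP_sq` and `g₂ = -18 g₃`; the coefficients are
in `K`) gives `S`, `A, B ∈ PP K V`, `A ≠ 0`, `A S = B`; `S ≠ 0` as `coeff 2 S = z_1² ≠ 0`, so `B ≠ 0`. Let `O = V.comap K.subtype` (DV), regard `A`, `B` as power series over `O` (`P := A`, `Q := B`), `G = c θz` for the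
`c` of the hypothesis, `W = ⟨1, 0, 0, -36κ, -κ⟩` over `O`: `b₂ = 1`, `b₄ = -72κ`, `b₆ = -4κ`, `Δ = κ (1 + 1728 κ)²` (check by `ring`), a unit; `4(x³ + x²/4 - 36κx - κ) = 4x³ + b₂x² + 2b₄x + b₆`. From `S = B/A` and the equation of WQ:
`θS = (A θB - B θA)/A²`, so `(A θB - B θA)² = B (4A³ + A²B - 144κ AB² - 4κB³) (θz)²`; times `c²`. `A θB - B θA ≠ 0`: `θS ≠ 0` as `2 z_1² ≠ 0`. GP: `c ∣ G`, so `θz = G/c` has coefficients in `V`. -/
def Sg_BIN : Prop :=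
  ∀ (K : Subfield ℂ) [NumberField K] (V : ValuationSubring ℂ) (p : ℕ) (_ : p.Prime)
    (_ : (p : ℂ) ∈ V.nonunits) (N : ℕ) (_ : 0 < N)
    (_ : Complex.exp (2 * Real.pi * Complex.I / N) ∈ K) (L : PeriodPair)
    (_ : L.g₂ = -18 * L.g₃) (_ : kap L ∈ K) (_ : V.valuation (kap L) = 1)
    (_ : V.valuation (1 + 1728 * kap L) = 1) (Z : ℍ → ℂ) (z : PowerSeries ℂ) (_ : QS Z z)
    (_ : ∀ n, PowerSeries.coeff n z ∈ K) (_ : PowerSeries.coeff 0 z = 0)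
    (_ : ∃ c ∈ K, c ≠ 0 ∧ c ∈ V ∧ ∀ n : ℕ, c * (n * PowerSeries.coeff n z) ∈ V)
    (_ : ∀ γ : SL(2, ℤ), ∃ (C : ℂ) (w : ℕ → ℂ), ∀ τ : ℍ, HasSum (fun n : ℕ => w n *
      Complex.exp (2 * Real.pi * Complex.I * (τ : ℂ) / N) ^ (n + 1)) (Z (γ • τ) - C))
    (_ : ∀ γ ∈ CongruenceSubgroup.Gamma1 N, ∀ τ : ℍ, Z (γ • τ) - Z τ ∈ L.lattice),
    PowerSeries.coeff 1 z ∈ V

/-! ## The form is determined by its periods -/

/-- (ZL) a form whose integral is invariant under `Γ₁(N)` is zero.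

Uses St_QA, St_JB. PROOF. `ι = {v : Fin 2 → ZMod N // ∃ γ, v = vm (v01 N) γ}`, finite (as in `St_WQ`); `Z_v τ = Z (γ_v τ)` does not depend on the choice of `γ_v` (bottom row `≡ (0,1)`: `Γ₁(N)`), `Z_v (γ τ) = Z_(v γ) τ`.
The coefficients of `∏_v (T - Z_v τ)` are invariant under `SL(2, ℤ)`, holomorphic (`Z` is: a convergent power series in `q`) and bounded at `i ∞` (by the expansions `C + Σ w_n q_N^(n+1)`, which tend to `C` for
`im τ → ∞`), so constant (`ModularFormClass.levelOne_weight_zero_const`, as in `Pool/Agent/MU3/Q_L1.lean`). So `Z τ` is a root of a fixed monic polynomial: `Z` is a continuous function on the connected space `ℍ` with finitely many values, so constant.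
`St_QA` (uniqueness): `z` is the constant series, and its constant coefficient is `0`. -/
def Sg_ZL : Prop :=
  ∀ (N : ℕ) (_ : 0 < N) (Z : ℍ → ℂ) (z : PowerSeries ℂ) (_ : QS Z z)
    (_ : PowerSeries.coeff 0 z = 0)
    (_ : ∀ γ : SL(2, ℤ), ∃ (C : ℂ) (w : ℕ → ℂ), ∀ τ : ℍ, HasSum (fun n : ℕ => w n *
      Complex.exp (2 * Real.pi * Complex.I * (τ : ℂ) / N) ^ (n + 1)) (Z (γ • τ) - C))
    (_ : ∀ γ ∈ CongruenceSubgroup.Gamma1 N, ∀ τ : ℍ, Z (γ • τ) = Z τ), z = 0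

/-! ## Descent -/

/-- (DSI) integral reduced basis of a subspace.

PROOF. Induction on `dim X`. `X = 0`: `J = ∅`. Otherwise choose `x ∈ X`, `x ≠ 0`, and `i` with `v(x_i)` maximal, scale to `x_i = 1`, so `x_l ∈ V` for all `l`. `X' = {y ∈ X : y_i = 0}` has dimension one less
(`x ∉ X'`, `X = X' + ℂ x`). `J'`, `e'` for `X'`; `i ∉ J'` (`e'_j` has `i`-coordinate `0`). `J = J' ∪ {i}`, `e_j = e'_j` for `j ∈ J'`, `e_i = x - Σ_(j ∈ J') x_j e'_j`. -/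
def Sg_DSI : Prop :=
  ∀ (V : ValuationSubring ℂ) (r : ℕ) (X : Submodule ℂ (Fin r → ℂ)),
    ∃ (J : Finset (Fin r)) (e : Fin r → (Fin r → ℂ)),
      (∀ j ∈ J, e j ∈ X ∧ (∀ i, e j i ∈ V) ∧ ∀ j' ∈ J, e j j' = if j = j' then 1 else 0) ∧
      ∀ x ∈ X, x = ∑ j ∈ J, x j • e j

/-- (DSC) descent: if `X` is stable under the automorphisms of `ℂ` which are trivial on `k`, the basis is rational over `k`.

Uses Sg_DSI. PROOF. `J`, `e` from DSI. For `σ` the vector `σ(e_j) ∈ X` has the same coordinates in `J` (`σ 0 = 0`, `σ 1 = 1`), so it is `e_j`: all coordinates of `e_j` are fixed by all `σ`, so in `k`. -/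
def Sg_DSC : Prop :=
  ∀ (k : Set ℂ) (_ : ∀ x : ℂ, (∀ σ : ℂ ≃+* ℂ, (∀ a ∈ k, σ a = a) → σ x = x) → x ∈ k)
    (V : ValuationSubring ℂ) (r : ℕ) (X : Submodule ℂ (Fin r → ℂ))
    (_ : ∀ σ : ℂ ≃+* ℂ, (∀ a ∈ k, σ a = a) → ∀ x ∈ X, (fun i => σ (x i)) ∈ X),
    ∃ (J : Finset (Fin r)) (e : Fin r → (Fin r → ℂ)),
      (∀ j ∈ J, e j ∈ X ∧ (∀ i, e j i ∈ k ∧ e j i ∈ V) ∧ ∀ j' ∈ J, e j j' = if j = j' then 1 else 0) ∧
      ∀ x ∈ X, x = ∑ j ∈ J, x j • e j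

/-- (LOC) common denominator at `P` of elements of `k ∩ V`.

PROOF. One element `y ∈ k ∩ V`: `y = emb a/emb b` with `a, b ∈ O`, `b ≠ 0` (`kk A B` is the fraction field of `emb O`: `y = s + t w` with rational `s`, `t`). `O` is a Dedekind domain (helper51's `XRing`, or `CQ`); let `I = {t ∈ O : t a ∈ (b)}`, an
ideal. If `I ≤ P` we get a contradiction: localise at `P`: `O_P` is a discrete valuation ring, `V ∩ k ⊇ O_P` has the same maximal ideal contracted (`OverI`), `y ∈ V`. If `y ∉ O_P` then `y⁻¹ ∈ P O_P`, `y⁻¹ = emb c/emb t`, `t ∉ P`, `c ∈ P`, so `y⁻¹ ∈ V.nonunits`, contradiction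
to `y ∈ V`. So `y ∈ O_P`, `y = emb c/emb t`, `t ∉ P`. Finitely many: product of the `t` (`P` is prime). (Without Dedekind theory: `IsPN` and `CQ` give `P P̄ = (l)`; see `Pool/Agent/MU3/G_G5a.lean` for the principal case.) -/
def Sg_LOC : Prop :=
  ∀ (A B : ℤ) (_ : CQ A B) (l : ℕ) (_ : l.Prime) (P : Ideal (OO A B)) (_ : IsPN l P)
    (V : ValuationSubring ℂ) (_ : OverI V P) (S : Finset ℂ)
    (_ : ∀ y ∈ S, y ∈ kk A B ∧ y ∈ V),
    ∃ t : OO A B, t ∉ P ∧ ∀ y ∈ S, ∃ c : OO A B, emb t * y = emb c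

/-- (FK) the fixed field of the automorphisms over `k` is `k`.

Uses `Su_AUF` (`StU.lean`, proved in `U_AUF.lean`). PROOF. AUF for `F = kk A B` (algebraic over `ℚ`: generated by `wC A B`, a root of `X² - B X - A`; `wC_sq`). `σ` is trivial on `kk A B` iff `FixK A B σ`
(`kk A B = ℚ(w)`; `IntermediateField.adjoin_induction`, `σ` is trivial on `ℚ`). -/
def Sg_FK : Prop :=
  ∀ (A B : ℤ) (_ : CQ A B), (∀ σ : ℂ ≃+* ℂ, FixK A B σ ↔ ∀ a ∈ kk A B, σ a = a) ∧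
    ∀ x : ℂ, (∀ σ : ℂ ≃+* ℂ, FixK A B σ → σ x = x) → x ∈ kk A B

/-- (FGG) finitely many elements of `Γ₁(N)` determine every homomorphism to `ℂ`.

PROOF. `Γ₁(N)` is finitely generated (`Pool/Agent/MU3/G_G6c.lean`: finite index in `SL(2, ℤ)`, `SpecialLinearGroup.SL2Z_generators`, `Subgroup.fg_of_index_ne_zero`). A homomorphism with values in the additive subgroup `M` on generators has all values in `M`
(`ρ(h⁻¹) = -ρ(h)`). -/
def Sg_FGG : Prop :=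
  ∀ (N : ℕ) (_ : 0 < N), ∃ (r : ℕ) (h : Fin r → SL(2, ℤ)),
    (∀ i, h i ∈ CongruenceSubgroup.Gamma1 N) ∧ ∀ (ρ : SL(2, ℤ) → ℂ)
      (_ : ∀ g ∈ CongruenceSubgroup.Gamma1 N, ∀ g' ∈ CongruenceSubgroup.Gamma1 N,
        ρ (g * g') = ρ g + ρ g') (M : AddSubgroup ℂ) (_ : ∀ i, ρ (h i) ∈ M),
      ∀ g ∈ CongruenceSubgroup.Gamma1 N, ρ g ∈ M

/-- (NFE) a number field in `ℂ` containing finitely many given algebraic numbers.

PROOF. `IntermediateField.adjoin ℚ S` is finite dimensional (`IntermediateField.finiteDimensional_adjoin` or the argument of `Pool/Agent/MU3/G_GTH.lean`, `exists_K`), `.toSubfield`. -/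
def Sg_NFE : Prop :=
  ∀ S : Finset ℂ, (∀ x ∈ S, IsAlgebraic ℚ x) →
    ∃ K : Subfield ℂ, NumberField K ∧ ∀ x ∈ S, x ∈ K

/-- (RET) a linear system over a subfield which is solvable in `ℂ` is solvable in the subfield.

PROOF. `ℂ` is a vector space over `K`; `K ⊆ ℂ` has a complement, so there is a `K`-linear `l : ℂ → K` with `l 1 = 1` (`LinearMap.exists_leftInverse_of_injective` for `K → ℂ`). Apply `l` to the equations: `y' = l ∘ y`. -/
def Sg_RET : Prop :=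
  ∀ (K : Subfield ℂ) (ι : Type) [Fintype ι] (r : ℕ) (P : ι → Fin r → ℂ) (w : Fin r → ℂ)
    (_ : ∀ c i, P c i ∈ K) (_ : ∀ i, w i ∈ K) (y : ι → ℂ) (_ : ∀ i, ∑ c, y c * P c i = w i),
    ∃ y' : ι → ℂ, (∀ c, y' c ∈ K) ∧ ∀ i, ∑ c, y' c * P c i = w i

/-! ## The theorem -/

/-- The data for Theorem G: `E` a finite set of characters, stable under `Aut(ℂ / k)` up to the choice of the class. -/
structure GDat {A B : ℤ} {n : ℕ} {ι : Type} (R : Reps A B n ι) (E : Set (OO A B → ℂ))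
    (N' : ℕ) : Prop where
  fin : E.Finite
  pos : 0 < N'
  add : ∀ e ∈ E, ∀ i, ∀ x y z : OnePoint ℚ,
    PhiI (R.b i) e x y + PhiI (R.b i) e y z = PhiI (R.b i) e x z
  inv : ∀ e ∈ E, ∀ i, ∀ a b c d : ℤ, a * d - b * c = 1 → (N' : ℤ) ∣ c → (N' : ℤ) ∣ d - 1 →
    ∀ x y : OnePoint ℚ, PhiI (R.b i) e (mob a b c d x) (mob a b c d y) = PhiI (R.b i) e x y
  per : ∀ e ∈ E, ∀ i, ∀ a b c d : ℤ, a * d - b * c = 1 → (N' : ℤ) ∣ c → (N' : ℤ) ∣ d - 1 →
    ∀ τ : ℂ, 0 < τ.im → thetaIntI (R.b i) e ((a * τ + b) / (c * τ + d)) =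
      thetaIntI (R.b i) e τ + PhiI (R.b i) e ∞ (mob a b c d ∞)
  cusp : ∀ e ∈ E, ∀ i, ∀ a b c d : ℤ, a * d - b * c = 1 → ∃ (C : ℂ) (w : ℕ → ℂ), ∀ τ : ℂ,
    0 < τ.im → HasSum (fun n : ℕ => w n *
      Complex.exp (2 * Real.pi * Complex.I * τ / N') ^ (n + 1))
      (thetaIntI (R.b i) e ((a * τ + b) / (c * τ + d)) - C)
  qexp : ∀ e ∈ E, ∀ i, ∃ α : ℕ → ℂ, (∀ n, IsIntegral ℤ (α n)) ∧
    (∃ K : Subfield ℂ, NumberField K ∧ ∀ n, α n ∈ K) ∧ (i = R.i0 → α 1 = 1) ∧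
    (i ≠ R.i0 → α 1 = 0) ∧ ∀ τ : ℂ, 0 < τ.im → HasSum (fun n : ℕ => α n / n *
      Complex.exp (2 * Real.pi * Complex.I * τ) ^ n) (thetaIntI (R.b i) e τ)
  rat : ∀ σ : ℂ ≃+* ℂ, FixK A B σ → ∀ e ∈ E, ∀ i, ∃ e' ∈ E, ∃ (j : ι) (u : ℂ),
    ∀ x y : OnePoint ℚ, σ (PhiI (R.b i) e x y / R.om i) = u * (PhiI (R.b j) e' x y / R.om j)
  alg : ∀ e ∈ E, ∀ i, ∀ x y : OnePoint ℚ, IsAlgebraic ℚ (PhiI (R.b i) e x y / R.om i)
  algo : ∀ i, IsAlgebraic ℚ (R.om i / R.om R.i0)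

/-- (GJ) the forms `g_j`: every vector of the descended basis comes from a form whose first coefficient is in `V`.

`h` as in FGG. `Per(ψ) = (ψ ∞ (h_l ∞)/Om)_l`, `Om = om_(i0)`. Uses Sg_BIN, Sg_RET, Sg_NFE, Sg_LOC, Sg_FGG. PROOF. Let `w = Per(Σ_(i,e) y_(i,e) Phi_(i,e))` have coordinates in `k ∩ V`. Number field `K` (NFE) containing: all `Phi_(i,e) ∞ (h_l ∞)/Om`
(`alg`, `algo`, product), `w`'s coordinates (in `k`, algebraic), `kap (L_(i0))` (`halg`), `exp(2πi/N')`, and the fields of the coefficients `α` (`qexp`; finitely many `(i, e)`; each a number field: finitely many generators, primitive element or `FiniteDimensional` basis). RET: `y' ∈ K`.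
`t` from LOC for the coordinates of `w` (`t ∉ P`, `emb t * w_l ∈ emb O`). `Z τ = emb t Σ y'_(i,e) thetaIntI (b_i) e τ`, `z_n = emb t Σ y' α_(i,e)(n)/n ∈ K` (`z_0 = 0`: `α 0 / 0 = 0`). `QS Z z`, expansions at the cusps: finite sums of `qexp`, `cusp` (`γ • τ = (aτ+b)/(cτ+d)`,
`UpperHalfPlane.specialLinearGroup_apply` or as in `Pool/Agent/MU3/G_GTH.lean`). Periods: for `γ ∈ Γ₁(N')` `Z(γ τ) - Z τ = emb t Σ y' Phi_(i,e) ∞ (γ ∞) = emb t Om ρ(γ)`, `ρ(γ) = Σ y' Phi ∞ (γ ∞)/Om` is additive on `Γ₁(N')` (`add`, `inv`: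
`ρ(g g') = ρ(g) + ρ(g')` as `Phi ∞ (g g' ∞) = Phi ∞ (g ∞) + Phi (g ∞) (g g' ∞)`), `emb t ρ(h_l) = emb t w_l ∈ emb O`, so `emb t ρ(γ) ∈ emb O` for all `γ` (FGG with `M` = the subgroup of the `x` with `emb t x ∈ emb O`), and `Om emb O` is the lattice of `L_(i0)` (`nl`, `b0`).
Denominators: `c = ` product of elements of `K ∩ V` killing the denominators of the `y'` (as in `St_LA`: `q ≠ 0`, `q ∈ K ∩ V`, `q y' ∈ V`), `α n ∈ V` (integral over `ℤ`). BIN: `z_1 = emb t Σ y'_(i,e) α_(i,e)(1) ∈ V` and `v(emb t) = 1` (`t ∉ P`, `OverI`; `emb t ∈ V`). `α_(i,e)(1) = 1` for `i = i0`, `0` otherwise. -/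
def Sg_GJ : Prop :=
  ∀ (A B : ℤ) (_ : CQ A B) (n : ℕ) (ι : Type) [Fintype ι] (R : Reps A B n ι)
    (E : Set (OO A B → ℂ)) [Fintype E] (N' : ℕ) (_ : GDat R E N') (l : ℕ) (_ : l.Prime)
    (P : Ideal (OO A B)) (_ : IsPN l P) (V : ValuationSubring ℂ) (_ : OverI V P)
    (_ : IsAlgebraic ℚ (kap (R.L R.i0))) (_ : V.valuation (kap (R.L R.i0)) = 1)
    (_ : V.valuation (1 + 1728 * kap (R.L R.i0)) = 1) (r : ℕ) (h : Fin r → SL(2, ℤ))
    (_ : ∀ i, h i ∈ CongruenceSubgroup.Gamma1 N')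
    (_ : ∀ (ρ : SL(2, ℤ) → ℂ) (_ : ∀ g ∈ CongruenceSubgroup.Gamma1 N',
        ∀ g' ∈ CongruenceSubgroup.Gamma1 N', ρ (g * g') = ρ g + ρ g') (M : AddSubgroup ℂ)
      (_ : ∀ i, ρ (h i) ∈ M), ∀ g ∈ CongruenceSubgroup.Gamma1 N', ρ g ∈ M)
    (w : Fin r → ℂ) (_ : ∀ i, w i ∈ kk A B ∧ w i ∈ V) (y : ι × E → ℂ)
    (_ : ∀ l', ∑ c : ι × E, y c * (PhiI (R.b c.1) (c.2 : OO A B → ℂ) ∞
      (mob (h l' 0 0) (h l' 0 1) (h l' 1 0) (h l' 1 1) ∞) / R.om R.i0) = w l'),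
    ∃ y' : ι × E → ℂ, (∀ l', ∑ c : ι × E, y' c * (PhiI (R.b c.1) (c.2 : OO A B → ℂ) ∞
      (mob (h l' 0 0) (h l' 0 1) (h l' 1 0) (h l' 1 1) ∞) / R.om R.i0) = w l') ∧
      ∑ e : E, y' (R.i0, e) ∈ V

/-- (GTHX) THEOREM G.

Uses Sg_GJ, Sg_DSC, Sg_ZL, Sg_FK, Sg_FGG. PROOF. `Om = om_(i0)`. Suppose that `PhiK R e kk ∞ (h ∞)/Om ∈ V.nonunits` for all `h ∈ Γ₁(N')`. `h_1, .., h_r` from FGG. `X` = the set of the vectors `Per(ψ)`, `ψ = Σ_(i,e') y_(i,e') Phi_(i,e')` (`y : ι × E → ℂ`): a subspace, stable under `σ` with `FixK σ`: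
`σ(Phi_(i,e')(x,y)/Om) = σ(Phi_(i,e')/om_i) σ(om_i/Om) = u (Phi_(j,e'')/om_j) σ(om_i/Om)`, a multiple of `Phi_(j,e'')/Om` (`rat`). DSC with `k = kk A B` (FK): `J`, `e_j = Per(ψ_j)` with coordinates in `k ∩ V`. GJ: we may take the coefficients `y'_j` of `ψ_j` with
`β_j := Σ_e' y'_j(i0, e') ∈ V`. `x = Per(Σ_i kk_i Phi_(i,e))` has all coordinates in `V.nonunits`, `x = Σ_j x_j e_j`. So `ψ = Σ_i kk_i Phi_(i,e) - Σ_j x_j ψ_j` has `Per(ψ) = 0`, and by FGG (`M = 0`; additivity as in GJ) `ψ ∞ (γ ∞) = 0` for all `γ ∈ Γ₁(N')`.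
`Z` = the same combination of the `thetaIntI`: invariant under `Γ₁(N')` (`per`), power series `z` (`qexp`, `z_0 = 0`), expansions at the cusps (`cusp`). ZL: `z = 0`; the coefficient `1` is `kk_(i0) - Σ_j x_j β_j = 0`. So `kk_(i0) ∈ V.nonunits`: contradiction. -/
def Sg_GTHX : Prop :=
  ∀ (A B : ℤ) (_ : CQ A B) (n : ℕ) (ι : Type) [Fintype ι] (R : Reps A B n ι)
    (E : Set (OO A B → ℂ)) (N' : ℕ) (_ : GDat R E N') (l : ℕ) (_ : l.Prime)
    (P : Ideal (OO A B)) (_ : IsPN l P) (V : ValuationSubring ℂ) (_ : OverI V P)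
    (_ : IsAlgebraic ℚ (kap (R.L R.i0))) (_ : V.valuation (kap (R.L R.i0)) = 1)
    (_ : V.valuation (1 + 1728 * kap (R.L R.i0)) = 1) (e : OO A B → ℂ) (_ : e ∈ E)
    (kk : ι → ℂ) (_ : kk R.i0 ∉ V.nonunits),
    ∃ a b c d : ℤ, a * d - b * c = 1 ∧ (N' : ℤ) ∣ c ∧ (N' : ℤ) ∣ d - 1 ∧
      PhiK R e kk ∞ (mob a b c d ∞) / R.om R.i0 ∉ V.nonunits

/-- (GFIN) THEOREM G, final statement, input of block H. The weights `kk` are arbitrary complex numbers, `kk_(i0)` is not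
in the maximal ideal. (Its module is the glue of GTHX with the blocks XT, XF, F6X and XR; it is not open yet.) -/
def Sg_GFIN : Prop :=
  ∀ (p : ℕ) (A B : ℤ) (P : Ideal (OO A B)) (V : ValuationSubring ℂ) (f : ℕ)
    (_ : SetP p A B P V f) (ι : Type) [Fintype ι] (R : Reps A B (p * f) ι) (e : OO A B → ℂ)
    (_ : IsEI (idl f * cjI P) e) (r : ℕ) (_ : ¬ p ∣ r) (_ : ∀ x, e x ≠ 0 → e x ^ r = 1)
    (N' : ℕ) (_ : N' ≠ 0) (_ : absD A B * (p * f) ^ 2 ∣ (N' : ℤ)) (kk : ι → ℂ)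
    (_ : kk R.i0 ∉ V.nonunits),
    ∃ a b c d : ℤ, a * d - b * c = 1 ∧ (N' : ℤ) ∣ c ∧ (N' : ℤ) ∣ d - 1 ∧
      PhiK R e kk ∞ (mob a b c d ∞) / R.om R.i0 ∉ V.nonunits

end

end Pool.Agent.MUXN
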