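import Pool.Agent.MUX.VX
import Pool.Agent.MUX.StU

/-!
# MUX, block R: isogenies of prime degree modulo a place `V` (helper59)

`L`, `M` lattices, `μ L ⊆ M` (`Isg L M μ`, helper34); the isogeny `ℂ / L → ℂ / M`, `z ↦ μ z`, has the kernel `{z : μ z ∈ M}` modulo `L`.
(Multiplication by `l` on `ℂ / L` is the case `M = L`, `μ = l`.) No complex multiplication is used.
Every `def Sx_X : Prop` is the statement of a module, which proves `theorem tx_X (h : Sx_..) .. : Sx_X` in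
`Pool/Agent/MUX/R_X.lean`, namespace `Pool.Agent.MUXV`. `GR`, `InK`, `tX` and the lemmas on them: `VX.lean`. `IsRpM`, `Isg`, `Su_BAC` (representatives exist),
`Su_PFI` (product formula): helper34's `StU.lean`. These statements are the analogues of those of `Pool/Agent/MU3/StB2.lean`
(HAL, HRE) and `StV.lean` (POL, R2, R4, R5, TRA, INJ); the proofs in `B_HAL.lean`, `B_HRE.lean`, `V_POL.lean`, `V_R2.lean`, `V_R4.lean`,
`V_R5.lean`, `V_TRA.lean`, `V_INJ.lean` of `Pool/Agent/MU3/` can be copied and adapted. The theorems `Pool.Agent.MU3B.b_X : St_X` of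
`Pool/Agent/MU3/BAll.lean` may be used.
-/

set_option autoImplicit false

open WeierstrassCurve Polynomial

namespace Pool.Agent.MUXV

open Pool.Agent.MU3B Pool.Agent.MUXU

noncomputable section

/-- `H`: a half system for the kernel -/
structure HalfI (L M : PeriodPair) (mu : ℂ) (H : Finset ℂ) : Prop where
  mem : ∀ q ∈ H, mu * q ∈ M.lattice
  ne : ∀ q ∈ H, 2 * q ∉ L.lattice
  inj : ∀ q ∈ H, ∀ q' ∈ H, q - q' ∈ L.lattice → q = q'
  neg : ∀ q ∈ H, ∀ q' ∈ H, q + q' ∉ L.lattice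
  surj : ∀ z : ℂ, mu * z ∈ M.lattice → z ∉ L.lattice →
    ∃ q ∈ H, z - q ∈ L.lattice ∨ z + q ∈ L.lattice

/-- the polynomial `μ ∏_(q ∈ H) (T - (℘_L(q) - c))` -/
def QI (L : PeriodPair) (c mu : ℂ) (H : Finset ℂ) : ℂ[X] :=
  C mu * ∏ q ∈ H, (X - C (L.weierstrassP q - c))

/-- the polynomial `∏_(q ∈ H) (T - (℘_L(w + q) - c))` -/
def CI (L : PeriodPair) (c w : ℂ) (H : Finset ℂ) : ℂ[X] :=
  ∏ q ∈ H, (X - C (L.weierstrassP (w + q) - c))

/-- (HAL) half systems exist if the kernel has no point of order 2.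

Uses Su_BAC (second part: representatives `R`). PROOF. `B_HAL.lean` (choose a maximal subset `H` of `R` with `q + q' ∉ L` for all `q, q' ∈ H`). -/
def Sx_HAL : Prop :=
  ∀ (L M : PeriodPair) (mu : ℂ), mu ≠ 0 → Isg L M mu →
    (∀ z, mu * z ∈ M.lattice → 2 * z ∈ L.lattice → z ∈ L.lattice) → ∃ H : Finset ℂ, HalfI L M mu H

/-- (HRE) `H ∪ -H` is a system of representatives.

PROOF. `B_HRE.lean`. -/
def Sx_HRE : Prop :=
  ∀ (L M : PeriodPair) (mu : ℂ) (H : Finset ℂ), HalfI L M mu H →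
    IsRpM L M mu (H ∪ H.image (fun q => -q)) ∧ Disjoint H (H.image (fun q => -q))

/-- (POL) the identity of polynomials behind the isogeny, at points of order two.

Uses Su_PFI, HRE, St_SUR (`Pool.Agent.MU3B.b_SUR`). PROOF. `V_POL.lean` (`Sv_POL` of `StV.lean`; `Sa_PFG` is replaced by `Su_PFI`). -/
def Sx_POL : Prop :=
  ∀ (L M : PeriodPair) (c mu : ℂ) (H : Finset ℂ), mu ≠ 0 →
    Isg L M mu → HalfI L M mu H →
    (∀ w₁ w₂ : ℂ, 2 * w₁ ∈ L.lattice → w₁ ∉ L.lattice → 2 * w₂ ∈ L.lattice → w₂ ∉ L.lattice →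
      C (M.weierstrassP (mu * w₂) - M.weierstrassP (mu * w₁)) * QI L c mu H ^ 2 =
        (X - C (L.weierstrassP w₁ - c)) * CI L c w₁ H ^ 2 -
          (X - C (L.weierstrassP w₂ - c)) * CI L c w₂ H ^ 2) ∧
    ∀ w : ℂ, 2 * w ∈ L.lattice → w ∉ L.lattice → ∀ z, mu * z ∉ M.lattice →
      (M.weierstrassP (mu * z) - M.weierstrassP (mu * w)) *
          (QI L c mu H).eval (L.weierstrassP z - c) ^ 2 =
        (L.weierstrassP z - L.weierstrassP w) * (CI L c w H).eval (L.weierstrassP z - c) ^ 2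

/-- an isogeny of prime degree `q ≠ 2` between two lattices with good reduction at `V`;
coordinates `℘_L - c`, `℘_M - c'` -/
structure IsoV (V : ValuationSubring ℂ) (L M : PeriodPair) (c c' mu : ℂ) (q : ℕ)
    (H : Finset ℂ) : Prop where
  redL : ∃ (W : WeierstrassCurve.Affine ℂ) (ξ : ℂ →+ W.Point),
    GR V W L (fun z => L.weierstrassP z - c) (fun z => L.derivWeierstrassP z / 2) ξ
  redM : ∃ (W : WeierstrassCurve.Affine ℂ) (ξ : ℂ →+ W.Point),
    GR V W M (fun z => M.weierstrassP z - c') (fun z => M.derivWeierstrassP z / 2) ξ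
  mu_ne : mu ≠ 0
  sub : Isg L M mu
  prime : q.Prime
  half : HalfI L M mu H
  card : 2 * H.card + 1 = q
  cyc : ∀ u u₁ : ℂ, mu * u ∈ M.lattice → mu * u₁ ∈ M.lattice → u₁ ∉ L.lattice →
    ∃ n : ℤ, u - n * u₁ ∈ L.lattice
  ord : ∀ u : ℂ, mu * u ∈ M.lattice → q * u ∈ L.lattice

/-- (R2) the kernel is in the kernel of reduction if `μ` is not a unit.

Uses POL, `VX.lean`. PROOF. `V_R2.lean`. Suppose `μ u₀ ∈ M` and `u₀` is not in `K₁ = {InK V L _}`. Then no nonzero point `u` of the kernel is in `K₁`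
(`u₀ ≡ n u` by `cyc`). Let `w₁, w₂` be incongruent points of order two (`L.ω₁/2`, `L.ω₂/2`; every lattice has them); for `p ∈ H` the points `w_i + p`
are not in `K₁` (otherwise `2 p ∈ K₁`, `2 p ∉ L`). All coordinates `℘_L - c` at `p`, `w_i`, `w_i + p` are in `V`, and those of `M` at `μ w_i` (of order two
in `ℂ/M`: `μ w_i ∉ M` since the kernel has no point of order two, `HalfI`); `e₁ - e₂` is a unit (`v_X_sub`). (POL) modulo the maximal ideal: the left side is `0`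
(factor `μ²`), so `(X - e₁) C₁² = (X - e₂) C₂²` over the residue field, `e₁ ≠ e₂`: the multiplicity of the root `e₁` is odd on the left and
even on the right. -/
def Sx_R2 : Prop :=
  ∀ (V : ValuationSubring ℂ) (L M : PeriodPair) (c c' mu : ℂ) (q : ℕ) (H : Finset ℂ),
    IsoV V L M c c' mu q H → V.valuation mu < 1 → ∀ u, mu * u ∈ M.lattice →
      InK V L (fun z => L.weierstrassP z - c) u

/-- (R4) consequences of `kernel ⊆ K₁` in residue characteristic `q`.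

Uses POL, `VX.lean`. PROOF. `V_R4.lean`. (3): for `w` of order two `w ∉ K₁`, `x(w + p) ≡ x(w)` (`near_lt`), so
`(X - x(w)) C_w² ≡ (X - x(w))^(2|H|+1) = (X - x(w))^q` coefficientwise. (2): (POL), `(X - e₁)^q - (X - e₂)^q ≡ (e₂ - e₁)^q` in characteristic `q`. (1): (2) at `x = 0` for two
incongruent points of order two; `e₂ - e₁` and `℘_M(μ w₂) - ℘_M(μ w₁)` are units (`v_X_sub` for `L` and for `M`). -/
def Sx_R4 : Prop :=
  ∀ (V : ValuationSubring ℂ) (L M : PeriodPair) (c c' mu : ℂ) (q : ℕ) (H : Finset ℂ),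
    IsoV V L M c c' mu q H → V.valuation (q : ℂ) < 1 →
    (∀ u, mu * u ∈ M.lattice → InK V L (fun z => L.weierstrassP z - c) u) →
    (V.valuation mu * ∏ p ∈ H, V.valuation (L.weierstrassP p - c) = 1) ∧
    (∀ w₁ w₂ : ℂ, 2 * w₁ ∈ L.lattice → w₁ ∉ L.lattice → 2 * w₂ ∈ L.lattice → w₂ ∉ L.lattice →
      ∀ x ∈ V, V.valuation ((M.weierstrassP (mu * w₂) - M.weierstrassP (mu * w₁)) *
        (QI L c mu H).eval x ^ 2 - (L.weierstrassP w₂ - L.weierstrassP w₁) ^ q) < 1) ∧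
    ∀ w : ℂ, 2 * w ∈ L.lattice → w ∉ L.lattice → ∀ x ∈ V,
      V.valuation ((x - (L.weierstrassP w - c)) * (CI L c w H).eval x ^ 2 -
        (x - (L.weierstrassP w - c)) ^ q) < 1

/-- (R5) the isogeny is the Frobenius modulo `V`, up to a scalar `κ`.

Uses POL, R2, R4; `Pool.Agent.MU3A.a_ROO`-type result `Sa_ROO` (`Pool/Agent/MU3/StA.lean`, proof in `A_ROO.lean`; unconditional in `AVAll.lean`). PROOF. `V_R5.lean`. `v q < 1` is assumed; the kernel is in `K₁` (R2). `q ≠ 2, 3` (`v 2 = v 3 = 1`). Let `≡` be equality in the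
residue field. `w₁ = L.ω₁/2`, `w₂ = L.ω₂/2`, `w₃ = w₁ + w₂`, `e_i = ℘_L(w_i)`, `e_i' = ℘_M(μ w_i)` (three points of order two of `ℂ/M`, pairwise incongruent). They are in `V`
(`c, c' ∈ V`), the differences are units. `κ := QI(0)²`. By (R4)(2) for all `x ∈ V`: `QI(x)² (e_j' - e_i') ≡ (e_j - e_i)^q = e_j^q - e_i^q`, so `QI(x)² ≡ κ`, a unit. Sum over `i`
(`Σ e_i = 0 = Σ e_i'`, ROO): `3 κ e_j' ≡ 3 e_j^q`: (a) `e_j^q ≡ κ e_j'`. With `Σ e_i e_j = -g₂/4`, `∏ e_i = g₃/4` for `L` and for `M` (ROO): the second and third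
statement. For `z ∉ K₁`: `μ z ∉ M`; (POL)(second part) for `w₁`, `x₀ = ℘_L(z) - c ∈ V`: `(℘_M(μz) - e₁') QI(x₀)² = (x₀ - (e₁ - c)) C(x₀)² ≡ (x₀ - (e₁ - c))^q = (℘_L(z) - e₁)^q ≡ ℘_L(z)^q - e₁^q`
(R4)(3), so `℘_M(μ z) ∈ V` and `κ ℘_M(μ z) ≡ ℘_L(z)^q` by (a). -/
def Sx_R5 : Prop :=
  ∀ (V : ValuationSubring ℂ) (L M : PeriodPair) (c c' mu : ℂ) (q : ℕ) (H : Finset ℂ),
    IsoV V L M c c' mu q H → V.valuation 3 = 1 → c ∈ V → c' ∈ V → V.valuation (q : ℂ) < 1 →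
    V.valuation mu < 1 →
    ∃ κ : ℂ, V.valuation κ = 1 ∧
      V.valuation ((L.g₂ / 4) ^ q - κ ^ 2 * (M.g₂ / 4)) < 1 ∧
      V.valuation ((L.g₃ / 4) ^ q - κ ^ 3 * (M.g₃ / 4)) < 1 ∧
      ∀ z, ¬ InK V L (fun z => L.weierstrassP z - c) z →
        ¬ InK V M (fun z => M.weierstrassP z - c') (mu * z) ∧
        V.valuation (κ * M.weierstrassP (mu * z) - L.weierstrassP z ^ q) < 1

/-- (TRA) the coordinate of a point of the kernel, when `μ` is not a unit.

Uses R2, R4. PROOF. `V_TRA.lean`. For `u, p` nonzero in the kernel, `p ≡ n u` (`cyc`), `q ∤ n`, `v n = 1`, so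
`v(tX p) = v(tX u)` (`v_tX_nat`) and `v(x p) = v(x u)` (`v_tX_lt`). (R4)(1). -/
def Sx_TRA : Prop :=
  ∀ (V : ValuationSubring ℂ) (L M : PeriodPair) (c c' mu : ℂ) (q : ℕ) (H : Finset ℂ),
    IsoV V L M c c' mu q H → V.valuation (q : ℂ) < 1 → V.valuation mu < 1 →
    ∀ u, mu * u ∈ M.lattice → u ∉ L.lattice →
      V.valuation mu * V.valuation (L.weierstrassP u - c) ^ ((q - 1) / 2) = 1

/-- (INJ) the kernel meets `K₁` trivially if `μ` is a unit.

Uses R4. PROOF. `V_INJ.lean`. If `v q = 1`: `q u ∈ L` (`ord`) and `mem_of_nat_mul`. If `v q < 1` and a nonzero `u` of the kernel is in `K₁`, then all points of the kernel are in `K₁` (`cyc`)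
and (R4)(1) says `∏ v(x p) = 1`, but `v(x p) > 1` for `p ∈ H`, `H` not empty (`q ≥ 3`). -/
def Sx_INJ : Prop :=
  ∀ (V : ValuationSubring ℂ) (L M : PeriodPair) (c c' mu : ℂ) (q : ℕ) (H : Finset ℂ),
    IsoV V L M c c' mu q H → V.valuation mu = 1 →
    ∀ u, mu * u ∈ M.lattice → InK V L (fun z => L.weierstrassP z - c) u → u ∈ L.lattice

/-- (MIN) multipliers are integral, for every kernel of odd order (composite degrees allowed).

Uses POL, Su_BAC, `VX.lean`. PROOF. Let `K₁ = {InK V L _}`, `n ≠ 0` with `n z ∈ L` for all `z` of the kernel (BAC); the kernel has no point of order two (`HalfI`: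
`z` in the kernel, `2 z ∈ L`, `z ∉ L` would be `≡ ± q`, `q ∈ H`), so we may take `n` odd (write `n = 2^a m`). Let `w₁, w₂` be incongruent points of order two of
`ℂ / L`. For `p ∈ H`: `w_i + p ∉ K₁`: otherwise `2 p ∈ K₁`, so `p = (n + 1)/2 * (2 p) - n p ∈ K₁`, `w_i ∈ K₁`, but `2 w_i ∈ L` and `v 2 = 1` (`mem_of_nat_mul`). So
the right side of (POL) has coefficients in `V`. The coefficient of `X^(2|H|)` on the left is `(e₂' - e₁') μ²`, `e₂' - e₁' = ℘_M(μ w₂) - ℘_M(μ w₁)` a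
unit (`v_X_sub` for `M`; `μ w₁`, `μ w₂`, `μ (w₁ ± w₂)` are of order two in `ℂ / M`, not in its kernel of reduction). So `v(μ)² ≤ 1`. -/
def Sx_MIN : Prop :=
  ∀ (V : ValuationSubring ℂ) (L M : PeriodPair) (c c' mu : ℂ) (H : Finset ℂ),
    (∃ (W : WeierstrassCurve.Affine ℂ) (ξ : ℂ →+ W.Point),
      GR V W L (fun z => L.weierstrassP z - c) (fun z => L.derivWeierstrassP z / 2) ξ) →
    (∃ (W : WeierstrassCurve.Affine ℂ) (ξ : ℂ →+ W.Point),
      GR V W M (fun z => M.weierstrassP z - c') (fun z => M.derivWeierstrassP z / 2) ξ) →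
    mu ≠ 0 → Isg L M mu → HalfI L M mu H → V.valuation mu ≤ 1

/-- (MUN) the multiplier of an isogeny of odd degree prime to the residue characteristic is a unit.

Uses MIN, HAL. PROOF. `v(μ) ≤ 1` by (HAL), (MIN) (the kernel is killed by the odd `n`, no point of order two). `n / μ` maps `M` into `L`
(`z = u/μ`, `u ∈ M`: `μ z ∈ M`, so `n z ∈ L`), and its kernel `{z : (n/μ) z ∈ L}` is killed by `n` modulo `M` (`n z = μ ((n/μ) z) ∈ μ L ⊆ M`). So `v(n/μ) ≤ 1`,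
and `v(n) = 1`. -/
def Sx_MUN : Prop :=
  ∀ (V : ValuationSubring ℂ) (L M : PeriodPair) (c c' mu : ℂ) (n : ℕ),
    (∃ (W : WeierstrassCurve.Affine ℂ) (ξ : ℂ →+ W.Point),
      GR V W L (fun z => L.weierstrassP z - c) (fun z => L.derivWeierstrassP z / 2) ξ) →
    (∃ (W : WeierstrassCurve.Affine ℂ) (ξ : ℂ →+ W.Point),
      GR V W M (fun z => M.weierstrassP z - c') (fun z => M.derivWeierstrassP z / 2) ξ) →
    mu ≠ 0 → Isg L M mu → Odd n → V.valuation (n : ℂ) = 1 →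
    (∀ z, mu * z ∈ M.lattice → (n : ℂ) * z ∈ L.lattice) → V.valuation mu = 1

/-- (MLT) when the multiplier is not a unit.

Uses MUN. PROOF. `a / μ` is the multiplier of an isogeny from `M` to `L` whose kernel is killed by the odd number `n`, so `v(a/μ) = 1` and
`v(μ) = v(a)`. (Application: `M = μ q⁻¹ L`, `q` a prime ideal of degree one below `V`, `a ∈ q`, `a = q c` with `c` of norm `n` prime to `2 q`.) -/
def Sx_MLT : Prop :=
  ∀ (V : ValuationSubring ℂ) (L M : PeriodPair) (c c' mu a : ℂ) (n : ℕ),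
    (∃ (W : WeierstrassCurve.Affine ℂ) (ξ : ℂ →+ W.Point),
      GR V W L (fun z => L.weierstrassP z - c) (fun z => L.derivWeierstrassP z / 2) ξ) →
    (∃ (W : WeierstrassCurve.Affine ℂ) (ξ : ℂ →+ W.Point),
      GR V W M (fun z => M.weierstrassP z - c') (fun z => M.derivWeierstrassP z / 2) ξ) →
    mu ≠ 0 → a ≠ 0 → Isg M L (a / mu) → Odd n → V.valuation (n : ℂ) = 1 →
    (∀ z, a / mu * z ∈ L.lattice → (n : ℂ) * z ∈ M.lattice) → V.valuation mu = V.valuation a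

/-! ### Normalised lattices (`g₂ = -18 g₃`, `x = ℘ - 1/12`, `κ = (12 g₂ - 1)/1728`) -/

/-- the curve `y² = x³ - (g₂/4) x - g₃/4` in the coordinate `x - c` -/
def WS (L : PeriodPair) (c : ℂ) : WeierstrassCurve.Affine ℂ :=
  ⟨0, 3 * c, 0, 3 * c ^ 2 - L.g₂ / 4, c ^ 3 - L.g₂ / 4 * c - L.g₃ / 4⟩

/-- `κ = (12 g₂ - 1)/1728` -/
def kp (L : PeriodPair) : ℂ := (12 * L.g₂ - 1) / 1728

/-- (XIC) the group isomorphism in the coordinate `℘ - c`.

PROOF. As `U_XIL.lean` (`Su_XIL`, the case `c = 0`), or `A_EQN.lean`, `A_LAW.lean`, `A_XI.lean` of `Pool/Agent/MU3/` (there `c = a₂/3`). -/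
def Sx_XIC : Prop :=
  ∀ (L : PeriodPair) (c : ℂ), ∃ ξ : ℂ →+ (WS L c).Point, (∀ z, ξ z = 0 ↔ z ∈ L.lattice) ∧
    Function.Surjective ξ ∧
    ∀ z, z ∉ L.lattice → ∃ h, ξ z = .some (L.weierstrassP z - c) (L.derivWeierstrassP z / 2) h

/-- (NGR) a normalised lattice has good reduction where `2`, `κ` and `12 g₂ = 1 + 1728 κ` are units.

Uses XIC. PROOF. `W = WS L (1/12)`: `a₂ = 1/4`, `a₄ = -36κ`, `a₆ = -κ`, `Δ = κ (1 + 1728 κ)²` up to sign (`b₂ = 1`, `b₄ = -72κ`, `b₆ = -4κ`,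
`b₈ = -κ - (36κ)²`; `ring`). -/
def Sx_NGR : Prop :=
  ∀ (V : ValuationSubring ℂ) (L : PeriodPair), L.g₂ = -18 * L.g₃ →
    V.valuation 2 = 1 → V.valuation (kp L) = 1 → V.valuation (12 * L.g₂) = 1 →
    ∃ (W : WeierstrassCurve.Affine ℂ) (ξ : ℂ →+ W.Point),
      GR V W L (fun z => L.weierstrassP z - 1 / 12) (fun z => L.derivWeierstrassP z / 2) ξ

/-- (FRN) normalised lattices: the Frobenius congruence.

Uses R5. PROOF. `q ≠ 2, 3`. (R5) with `c = c' = 1/12` (`12` is a unit). `g₂ = -18 g₃` for `L` and `M`, `12 g₂` is a unit for both, so all four numbers `g₂`, `g₃` are units.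
`(g₂(L)/4)^q = (-18)^q (g₃(L)/4)^q ≡ -18 κ³ g₃(M)/4 = κ³ g₂(M)/4` (`κ` of (R5)), and it is `≡ κ² g₂(M)/4`: `κ ≡ 1`. (Fermat: `n^q ≡ n` modulo `q` for integers,
`(1/12)^q ≡ 1/12`, `(1/4)^q ≡ 1/4`.) So `℘_M(μ z) ≡ ℘_L(z)^q`, and `g₂(L)^q ≡ g₂(M)`, `kp = (12 g₂ - 1)/1728`. -/
def Sx_FRN : Prop :=
  ∀ (V : ValuationSubring ℂ) (L M : PeriodPair) (mu : ℂ) (q : ℕ) (H : Finset ℂ),
    IsoV V L M (1 / 12) (1 / 12) mu q H → V.valuation 3 = 1 → V.valuation (q : ℂ) < 1 →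
    V.valuation mu < 1 → L.g₂ = -18 * L.g₃ → M.g₂ = -18 * M.g₃ →
    V.valuation (12 * L.g₂) = 1 → V.valuation (12 * M.g₂) = 1 →
    V.valuation (kp M - kp L ^ q) < 1 ∧
    ∀ z, ¬ InK V L (fun z => L.weierstrassP z - 1 / 12) z →
      ¬ InK V M (fun z => M.weierstrassP z - 1 / 12) (mu * z) ∧
      V.valuation ((M.weierstrassP (mu * z) - 1 / 12) - (L.weierstrassP z - 1 / 12) ^ q) < 1

end

end Pool.Agent.MUXV
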