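import Pool.Agent.MUX.StWX

/-!
# MUX, block W: the norm from `F_(b m)` to `F_m`, for `b ∣ m` (module NRM)
-/

set_option autoImplicit false

open WeierstrassCurve Polynomial NumberField IsDedekindDomain

namespace Pool.Agent.MUXW

open _root_.MU3 Pool.Agent.MU3A Pool.Agent.MU3B Pool.Agent.MU3C Pool.Agent.RI Pool.Agent.RID
open Pool.Agent.MUX Pool.Agent.MUXU
open Pool.Agent.MU3V (cls Sub GD algDF)
open Pool.Agent.MUXV (GR InK tX CMO Ovr)

noncomputable section

namespace NRMaux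

variable {A B : ℤ}

lemma xn_add_mem (L : PeriodPair) (z w : ℂ) (hw : w ∈ L.lattice) : xn L (z + w) = xn L z := by
  unfold xn
  have h := L.weierstrassP_add_coe z ⟨w, hw⟩
  rw [h]

/-- an automorphism which acts as `c ≡ 1` modulo `m` fixes `RF (sp m)` -/
theorem fix_of_actH (hsub : ∀ x y : OO A B, emb (x - y) = emb x - emb y)
    (hone : emb (1 : OO A B) = 1) {m m' : OO A B}
    (hle : (RF (sp m) : IntermediateField (kk A B) ℂ) ≤ RF (sp m')) (hmm : m ∣ m')
    {σ : (RF (sp m') : IntermediateField (kk A B) ℂ) ≃ₐ[kk A B] RF (sp m')} {c : OO A B}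
    (hσ : ActH σ m' c) (hc : m ∣ c - 1) (x : (RF (sp m') : IntermediateField (kk A B) ℂ))
    (hx : (x : ℂ) ∈ (RF (sp m) : IntermediateField (kk A B) ℂ)) : σ x = x := by
  have key : ∀ (y : ℂ) (hy : y ∈ (RF (sp m) : IntermediateField (kk A B) ℂ)),
      σ ⟨y, hle hy⟩ = ⟨y, hle hy⟩ := by
    intro y hy
    refine IntermediateField.adjoin_induction (F := kk A B)
      (p := fun y hy => σ ⟨y, hle hy⟩ = ⟨y, hle hy⟩) ?_ ?_ ?_ ?_ ?_ hy
    · rintro y ⟨b, L, om, hL, rfl | ⟨z, hz, hzL, rfl⟩⟩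
      · apply Subtype.ext
        exact hσ.kap b L om hL _
      · apply Subtype.ext
        have hz' : emb m' * z ∈ L.lattice := hz _ (Ideal.mem_span_singleton.2 hmm)
        obtain ⟨-, h2⟩ := hσ.pt b L om hL z hz' hzL
        rw [h2]
        have h3 : emb (c - 1) * z ∈ L.lattice := hz _ (Ideal.mem_span_singleton.2 hc)
        have h4 : emb c * z = z + emb (c - 1) * z := by
          rw [hsub, hone]
          ring
        rw [h4]
        exact xn_add_mem L _ _ h3
    · intro y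
      exact σ.commutes y
    · intro y z hy hz h1 h2
      have h3 : (⟨y + z, hle (add_mem hy hz)⟩ :
          (RF (sp m') : IntermediateField (kk A B) ℂ)) = ⟨y, hle hy⟩ + ⟨z, hle hz⟩ := rfl
      rw [h3, map_add, h1, h2]
    · intro y hy h1
      have h3 : (⟨y⁻¹, hle (inv_mem hy)⟩ :
          (RF (sp m') : IntermediateField (kk A B) ℂ)) = (⟨y, hle hy⟩ : _)⁻¹ := rfl
      rw [h3, map_inv₀, h1]
    · intro y z hy hz h1 h2
      have h3 : (⟨y * z, hle (mul_mem hy hz)⟩ :
          (RF (sp m') : IntermediateField (kk A B) ℂ)) = ⟨y, hle hy⟩ * ⟨z, hle hz⟩ := rfl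
      rw [h3, map_mul, h1, h2]
  exact key x hx

lemma nl_mul (hmul : ∀ x y : OO A B, emb (x * y) = emb x * emb y) {b : Ideal (OO A B)}
    {L : PeriodPair} {om : ℂ} (hL : IsNL b L om) (y : OO A B) {z : ℂ} (hz : z ∈ L.lattice) :
    emb y * z ∈ L.lattice := by
  obtain ⟨x, hx, rfl⟩ := (hL.mem z).1 hz
  refine (hL.mem _).2 ⟨y * x, b.mul_mem_left _ hx, ?_⟩
  rw [hmul]
  ring

/-- an automorphism which fixes `RF (sp m)` acts as `1` on the points of level `m` -/
theorem actH_one (hmul : ∀ x y : OO A B, emb (x * y) = emb x * emb y)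
    (hone : emb (1 : OO A B) = 1) {m m' : OO A B}
    (hle0 : (RF (⊤ : Ideal (OO A B)) : IntermediateField (kk A B) ℂ) ≤ RF (sp m))
    {σ : (RF (sp m') : IntermediateField (kk A B) ℂ) ≃ₐ[kk A B] RF (sp m')}
    (hσ : ∀ x : (RF (sp m') : IntermediateField (kk A B) ℂ),
      (x : ℂ) ∈ (RF (sp m) : IntermediateField (kk A B) ℂ) → σ x = x) : ActH σ m 1 := by
  refine ⟨isCoprime_one_left, ?_, ?_⟩
  · intro b L om hL h
    have h1 : kap L ∈ (RF (sp m) : IntermediateField (kk A B) ℂ) :=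
      hle0 (IntermediateField.subset_adjoin _ _ ⟨b, L, om, hL, Or.inl rfl⟩)
    rw [hσ ⟨kap L, h⟩ h1]
  · intro b L om hL z hz hzL
    refine ⟨by rwa [hone, one_mul], ?_⟩
    intro h
    have h1 : xn L z ∈ (RF (sp m) : IntermediateField (kk A B) ℂ) := by
      refine IntermediateField.subset_adjoin _ _ ⟨b, L, om, hL, Or.inr ⟨z, ?_, hzL, rfl⟩⟩
      intro x hx
      obtain ⟨y, rfl⟩ := Ideal.mem_span_singleton.1 hx
      have h2 : emb (m * y) * z = emb y * (emb m * z) := by rw [hmul]; ring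
      rw [h2]
      exact nl_mul hmul hL y hz
    rw [hσ ⟨xn L z, h⟩ h1, hone, one_mul]

end NRMaux

open NRMaux in
theorem ty_NRM (hDIS : Sy_DIS) (hKER : Sy_KER) (hACM : Sy_ACM) (hTHG : Sy_THG)
    (hEMB : Pool.Agent.MUXV.Sq_EMB) : Sy_NRM := by
  intro A B hAB T L Om hL m b hm hbm hm2 a H ha ham hH θ θ' hθ hθ'
  obtain ⟨hmul, hadd, hsub, hint, hnat, hinj, -, -, -, -, -, -, hdom⟩ :=
    hEMB A B ⟨hAB.hB, hAB.neg, hAB.fund1, hAB.fund0⟩
  have hone : emb (1 : OO A B) = 1 := by simpa using hnat 1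
  have hzero : emb (0 : OO A B) = 0 := by simpa using hnat 0
  have hb : b ≠ 0 := by
    rintro rfl
    exact hm (zero_dvd_iff.1 hbm)
  have hbm0 : b * m ≠ 0 := mul_ne_zero hb hm
  have hmbm : m ∣ b * m := Dvd.intro_left _ rfl
  have hem : emb m ≠ 0 := fun h => hm (hinj _ _ (h.trans hzero.symm))
  have heb : emb b ≠ 0 := fun h => hb (hinj _ _ (h.trans hzero.symm))
  have hembm : emb (b * m) ≠ 0 := fun h => hbm0 (hinj _ _ (h.trans hzero.symm))
  have hmu : ¬ IsUnit m := fun h => hm2 (h.dvd)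
  have hbmu : ¬ IsUnit (b * m) := fun h => hmu (isUnit_of_dvd_unit hmbm h)
  have hle : (RF (sp m) : IntermediateField (kk A B) ℂ) ≤ RF (sp (b * m)) :=
    T.mono _ _ (Ideal.span_singleton_le_span_singleton.2 hmbm)
  have hle0 : (RF (⊤ : Ideal (OO A B)) : IntermediateField (kk A B) ℂ) ≤ RF (sp m) :=
    T.mono _ _ le_top
  -- membership
  have hmem : ∀ (n x : OO A B), n ≠ 0 → (emb x * (Om / emb n) ∈ L.lattice ↔ n ∣ x) := by
    intro n x hn
    have hen : emb n ≠ 0 := fun h => hn (hinj _ _ (h.trans hzero.symm))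
    rw [hL.mem]
    constructor
    · rintro ⟨y, -, hy⟩
      refine ⟨y, hinj _ _ ?_⟩
      rw [hmul]
      have h1 : Om * emb x = Om * (emb n * emb y) := by
        field_simp at hy
        linear_combination hy
      exact mul_left_cancel₀ hL.om_ne h1
    · rintro ⟨y, rfl⟩
      refine ⟨y, trivial, ?_⟩
      rw [hmul]
      field_simp
  obtain ⟨k1, k2⟩ := hKER A B hAB T (b * m) hbm0
  obtain ⟨m1, m2, -, -, -, -, -, -⟩ := hACM A B hAB L Om hL m hm
  obtain ⟨n1, n2, n3, -, n5, -, -, -⟩ := hACM A B hAB L Om hL (b * m) hbm0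
  -- the automorphism of `t`
  have hex : ∀ t : OO A B, ∃ σ : (RF (sp (b * m)) : IntermediateField (kk A B) ℂ) ≃ₐ[kk A B]
      RF (sp (b * m)), ActH σ (b * m) (1 + m * t) := by
    intro t
    apply k2
    have h1 : IsCoprime (1 + m * t) m := ⟨1, -t, by ring⟩
    exact (IsCoprime.of_isCoprime_of_dvd_right h1 hbm).mul_right h1
  choose s hs using hex
  have hsfix : ∀ (t : OO A B) (x : (RF (sp (b * m)) : IntermediateField (kk A B) ℂ)),
      (x : ℂ) ∈ (RF (sp m) : IntermediateField (kk A B) ℂ) → s t x = x := fun t =>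
    fix_of_actH hsub hone hle hmbm (hs t) ⟨t, by ring⟩
  let e : OO A B ⧸ Ideal.span {b} →
      {σ : (RF (sp (b * m)) : IntermediateField (kk A B) ℂ) ≃ₐ[kk A B] RF (sp (b * m)) //
        ∀ x : (RF (sp (b * m)) : IntermediateField (kk A B) ℂ),
          (x : ℂ) ∈ (RF (sp m) : IntermediateField (kk A B) ℂ) → σ x = x} :=
    fun t => ⟨s (Quotient.out t), hsfix _⟩
  have hout : ∀ t : OO A B ⧸ Ideal.span {b}, Ideal.Quotient.mk (Ideal.span {b}) (Quotient.out t) = t :=
    fun t => Ideal.Quotient.mk_out t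
  have hinje : Function.Injective e := by
    intro t t' htt
    have h1 : s (Quotient.out t) = s (Quotient.out t') := congrArg Subtype.val htt
    have h2 : ActH (s (Quotient.out t)) (b * m) (1 + m * Quotient.out t') := by
      rw [h1]
      exact hs _
    rw [← hout t, ← hout t', Ideal.Quotient.eq, Ideal.mem_span_singleton]
    rcases n1 _ _ _ _ le_rfl (hs (Quotient.out t)) h2 with ⟨c, hc⟩ | h3
    · refine ⟨c, mul_left_cancel₀ hm ?_⟩
      linear_combination hc
    · exfalso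
      apply hm2
      have h4 : m ∣ 1 + m * Quotient.out t + (1 + m * Quotient.out t') := hmbm.trans h3
      have h5 : m ∣ m * (Quotient.out t + Quotient.out t') := Dvd.intro _ rfl
      have h6 := dvd_sub h4 h5
      have h7 : 1 + m * Quotient.out t + (1 + m * Quotient.out t') -
          m * (Quotient.out t + Quotient.out t') = (2 : OO A B) := by ring
      rwa [h7] at h6
  have hsurj : Function.Surjective e := by
    rintro ⟨σ, hσ⟩
    obtain ⟨c, hc⟩ := k1 σ (fun x hx => hσ x (hle0 hx))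
    have h1 : ActH σ m 1 := actH_one hmul hone hle0 hσ
    have h2 : ActH σ m c := n3 _ _ _ _ hmbm hc
    obtain ⟨c', hc', hc1⟩ : ∃ c', ActH σ (b * m) c' ∧ m ∣ c' - 1 := by
      rcases m1 _ _ _ _ hle h2 h1 with h3 | h3
      · exact ⟨c, hc, h3⟩
      · refine ⟨-c, n2 _ _ _ _ (Or.inr (by simp)) hc, ?_⟩
        have h4 : -c - 1 = -(c + 1) := by ring
        rw [h4]
        exact (dvd_neg).2 h3
    obtain ⟨t, ht⟩ := hc1
    refine ⟨Ideal.Quotient.mk _ t, Subtype.ext ?_⟩
    obtain ⟨r, hr⟩ : b ∣ Quotient.out (Ideal.Quotient.mk (Ideal.span {b}) t) - t := by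
      rw [← Ideal.mem_span_singleton, ← Ideal.Quotient.eq]
      exact hout _
    refine n5 _ _ c' (n2 _ _ _ _ (Or.inl ?_) (hs _)) hc'
    refine ⟨r, ?_⟩
    linear_combination m * hr - ht
  obtain ⟨C, hC1, hC0, hC⟩ := hDIS A B hAB T L Om hL b hb a H ha
    (IsCoprime.of_isCoprime_of_dvd_right ham hbm) hH
  refine ⟨C, hC1, hC0, ?_⟩
  have hz1 : emb (b * m) * (Om / emb (b * m)) ∈ L.lattice := (hmem _ _ hbm0).2 dvd_rfl
  have hz2 : Om / emb (b * m) ∉ L.lattice := by
    intro h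
    have h1 : emb (1 : OO A B) * (Om / emb (b * m)) ∈ L.lattice := by rwa [hone, one_mul]
    exact hbmu (isUnit_of_dvd_one ((hmem _ _ hbm0).1 h1))
  obtain ⟨-, -, hz, -, hact⟩ := hTHG A B hAB T ⊤ L Om hL (b * m) hbm0 a H ha hH _ hz1 hz2
  have hθe : θ' = ⟨_, hz⟩ := Subtype.ext hθ'
  have hz3 : emb b * a * (Om / emb (b * m)) ∉ L.lattice := by
    have h1 : emb b * a * (Om / emb (b * m)) = emb (a : OO A B) * (Om / emb m) := by
      rw [hint, hmul]
      field_simp
    rw [h1, hmem _ _ hm]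
    intro h2
    exact hmu (ham.symm.isUnit_of_dvd' dvd_rfl h2)
  have hCz := hC _ hz3
  have h9 : emb b * (Om / emb (b * m)) = Om / emb m := by
    rw [hmul]
    field_simp
  rw [h9, ← hθ] at hCz
  rw [← hCz]
  symm
  refine finprod_eq_of_bijective e ⟨hinje, hsurj⟩ fun t => ?_
  rw [hθe]
  change _ = ((s (Quotient.out t) ⟨_, hz⟩ :
    (RF (sp (b * m)) : IntermediateField (kk A B) ℂ)) : ℂ)
  rw [hact _ _ (hs (Quotient.out t))]
  congr 1
  rw [hadd, hone, hmul, hmul]
  field_simp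

end

end Pool.Agent.MUXW
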