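import Pool.Agent.MUX.StZX

/-!
# MUX, last glue: module LVX, elementary properties of the levels
-/

set_option autoImplicit false

open NumberField IsDedekindDomain

namespace Pool.Agent.MUXZ

open _root_.MU3 Pool.Agent.MU3 Pool.Agent.MU3A Pool.Agent.MU3B Pool.Agent.RI Pool.Agent.RID
  Pool.Agent.MUX Pool.Agent.MUXK Pool.Agent.MUXJ Pool.Agent.MUXW
open Pool.Agent.MU3V (Sub GD)

namespace LVX

lemma q0_dvd (p : ℕ) : q0 p ∣ p ^ 2 := by
  unfold q0
  split_ifs with h
  · subst h; norm_num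
  · exact dvd_pow_self _ two_ne_zero

lemma dvd_q0 (p : ℕ) : p ∣ q0 p := by
  unfold q0
  split_ifs with h
  · subst h; norm_num
  · exact dvd_rfl

lemma not_dvd {A B : ℤ} (m : ℕ) (k : ℕ) (hk : 0 < k) (hm : k < m) :
    ¬ ((m : ℕ) : OO A B) ∣ ((k : ℕ) : OO A B) := by
  rintro ⟨y, hy⟩
  have h1 := congrArg QuadraticAlgebra.re hy
  have h2 : ((m : OO A B) * y).re = (m : ℤ) * y.re := by simp
  have h3 : ((k : ℕ) : OO A B).re = (k : ℤ) := by simp
  rw [h2, h3] at h1
  have h4 : (m : ℤ) ∣ (k : ℤ) := Dvd.intro _ h1.symm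
  have h5 : m ∣ k := by exact_mod_cast h4
  exact absurd (Nat.le_of_dvd hk h5) (by omega)

end LVX

open LVX in
theorem tz_LVX : Sz_LVX := by
  intro p A B P V f hS n
  have hp : p.Prime := by
    rcases hS.case.split with h | h
    · rw [h.1]; exact Nat.prime_three
    · rw [h.1]; exact Nat.prime_two
  have hf : 0 < f := Nat.pos_of_ne_zero hS.f0
  have hq3 : 3 ≤ q0 p := by
    unfold q0
    split_ifs with h
    · norm_num
    · have := hp.two_le
      omega
  have hm3 : 3 ≤ lvX p f n := by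
    unfold lvX
    have h1 : 1 ≤ p ^ n := Nat.one_le_pow _ _ hp.pos
    calc 3 ≤ q0 p := hq3
      _ = 1 * q0 p * 1 := by ring
      _ ≤ f * q0 p * p ^ n := Nat.mul_le_mul (Nat.mul_le_mul hf le_rfl) h1
  have hcop : (aX p f).Coprime (lvX p f n) := by
    have h1 : (aX p f).Coprime f := by
      unfold aX
      rw [Nat.coprime_add_mul_right_left]
      exact Nat.coprime_one_left _
    have h2 : (aX p f).Coprime (q0 p) := by
      have h3 : aX p f = 1 + (2 * f) * q0 p := by unfold aX; ring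
      rw [h3, Nat.coprime_add_mul_right_left]
      exact Nat.coprime_one_left _
    have h4 : (aX p f).Coprime (p ^ n) := (h2.coprime_dvd_right (dvd_q0 p)).pow_right n
    exact (h1.mul_right h2).mul_right h4
  refine ⟨by omega, ?_, ?_, ?_, ?_, ?_, hcop, ?_, ?_, ?_⟩
  · unfold lvX; ring
  · unfold lvX
    exact ((dvd_q0 p).mul_left f).mul_right _
  · have h1 := not_dvd (A := A) (B := B) (lvX p f n) 2 (by norm_num) (by omega)
    exact_mod_cast h1
  · intro h
    have h1 := not_dvd (A := A) (B := B) (lvX p f n) 1 (by norm_num) (by omega)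
    rw [Nat.cast_one] at h1
    exact h1 (isUnit_iff_dvd_one.mp h)
  · exact ⟨q0 p * f, by unfold aX; ring⟩
  · have h1 : IsCoprime ((aX p f : ℕ) : ℤ) ((lvX p f n : ℕ) : ℤ) := Nat.isCoprime_iff_coprime.mpr hcop
    have h2 := h1.map (Int.castRingHom (OO A B))
    simpa using h2
  · intro q hq hd
    have h1 : nm ((lvX p f n : ℕ) : OO A B) = ((lvX p f n : ℕ) : ℤ) ^ 2 := by
      simp [nm]
    rw [h1] at hd
    have h2 : q ∣ lvX p f n ^ 2 := by exact_mod_cast hd
    have h3 : q ∣ lvX p f n := hq.dvd_of_dvd_pow h2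
    unfold lvX at h3
    rcases hq.dvd_mul.mp h3 with h4 | h4
    · rcases hq.dvd_mul.mp h4 with h5 | h5
      · exact h5.mul_left p
      · exact (hq.dvd_of_dvd_pow (h5.trans (q0_dvd p))).mul_right f
    · exact (hq.dvd_of_dvd_pow h4).mul_right f
  · intro k hk
    have h1 : k.Coprime p := Nat.Coprime.coprime_mul_right_right hk
    have h2 : k.Coprime f := Nat.Coprime.coprime_mul_left_right hk
    have h3 : k.Coprime (q0 p) := (h1.pow_right 2).coprime_dvd_right (q0_dvd p)
    exact (h2.mul_right h3).mul_right (h1.pow_right n)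

end Pool.Agent.MUXZ
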