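import Pool.Agent.MUX.StJX

/-!
# MUX, block J, module GAL: subfields of the ray class fields are abelian over `k`
-/

set_option autoImplicit false

open NumberField IsDedekindDomain
open scoped nonZeroDivisors Pointwise

namespace Pool.Agent.MUXJ

open _root_.MU3 Pool.Agent.MU3 Pool.Agent.MU3A Pool.Agent.MU3B Pool.Agent.RI Pool.Agent.RID
  Pool.Agent.MUX Pool.Agent.MUXK Pool.Agent.MUXE

theorem t_GAL : Sj_GAL := by
  intro A B T m hm K hk hK
  have hgal : IsGalois (kk A B) (RF m) := T.gal m hm
  have hfd : FiniteDimensional (kk A B) (RF m) := T.fin m hm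
  have hab : IsAbelianGalois (kk A B) (RF m) :=
    { toIsGalois := hgal
      is_comm := ⟨fun σ τ => T.comm m hm σ τ⟩ }
  have hle : IntermediateField.extendScalars hk ≤ RF m := fun x hx => hK x hx
  have hfin : IsAbelianGalois (kk A B) (IntermediateField.extendScalars hk) :=
    IsAbelianGalois.of_algHom (IntermediateField.inclusion hle)
  have hfd' : FiniteDimensional (kk A B) (IntermediateField.extendScalars hk) :=
    FiniteDimensional.of_injective (IntermediateField.inclusion hle).toLinearMap
      (IntermediateField.inclusion hle).injective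
  exact ⟨hfin.toIsGalois, hfd', fun σ τ => hfin.is_comm.comm σ τ⟩

end Pool.Agent.MUXJ
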