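import Pool.Agent.MUX.StJX

/-!
# MUX, block J: the inertia group of `K₁ ⊔ RF ⊤` injects into `Gal(K₁/k)` (INJ)
-/

set_option autoImplicit false

open NumberField IsDedekindDomain
open scoped nonZeroDivisors Pointwise

namespace Pool.Agent.MUXJ

open _root_.MU3 Pool.Agent.MU3 Pool.Agent.MU3A Pool.Agent.MU3B Pool.Agent.RI Pool.Agent.RID
  Pool.Agent.MUX Pool.Agent.MUXK Pool.Agent.MUXE

noncomputable section

namespace Jinj

/-- the inertia group -/
def IG {A B : ℤ} (V : ValuationSubring ℂ) (K : IntermediateField (kk A B) ℂ)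
    [FiniteDimensional (kk A B) K] : Subgroup (K ≃ₐ[kk A B] K) :=
  let M : Submonoid (K ≃ₐ[kk A B] K) :=
    { carrier := {σ | ∀ x : K, V.valuation (x : ℂ) ≤ 1 → V.valuation ((σ x : ℂ) - x) < 1}
      one_mem' := by
        intro x _
        have e : (((1 : K ≃ₐ[kk A B] K) x : K) : ℂ) - x = 0 := by
          rw [AlgEquiv.one_apply, sub_self]
        rw [e, map_zero]
        exact zero_lt_one
      mul_mem' := by
        intro σ τ hσ hτ x hx
        have h1 := hτ x hx
        have h2 : V.valuation ((τ x : K) : ℂ) ≤ 1 := by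
          have e : ((τ x : K) : ℂ) = ((τ x : K) - x) + x := by ring
          rw [e]
          exact le_trans (V.valuation.map_add _ _) (max_le h1.le hx)
        have h3 := hσ (τ x) h2
        have e : (((σ * τ) x : K) : ℂ) - x = ((σ (τ x) : K) - (τ x : K)) + ((τ x : K) - x) := by
          rw [AlgEquiv.mul_apply]
          ring
        rw [e]
        exact lt_of_le_of_lt (V.valuation.map_add _ _) (max_lt h3 h1) }
  { M with
    inv_mem' := by
      intro σ hσ
      have hn := orderOf_pos σ
      have e : σ⁻¹ = σ ^ (orderOf σ - 1) := by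
        apply inv_eq_of_mul_eq_one_right
        rw [← pow_succ', Nat.sub_add_cancel hn, pow_orderOf_eq_one]
      rw [e]
      exact M.pow_mem hσ _ }

end Jinj

open Jinj in
theorem t_INJ : Sj_INJ := by
  intro A B V hU hT K₁ K _ _ _ _ hK
  have hle : K₁ ≤ K := by rw [hK]; exact le_sup_left
  have hleR : RF (⊤ : Ideal (OO A B)) ≤ K := by rw [hK]; exact le_sup_right
  have htop : (⊤ : Ideal (OO A B)) ≠ ⊥ := top_ne_bot
  have galR := hT.gal ⊤ htop
  have finR := hT.fin ⊤ htop
  let _ : Algebra K₁ K := (IntermediateField.inclusion hle).toAlgebra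
  have _ : IsScalarTower (kk A B) K₁ K := IsScalarTower.of_algebraMap_eq fun x => rfl
  let _ : Algebra (RF (⊤ : Ideal (OO A B))) K := (IntermediateField.inclusion hleR).toAlgebra
  have _ : IsScalarTower (kk A B) (RF (⊤ : Ideal (OO A B))) K :=
    IsScalarTower.of_algebraMap_eq fun x => rfl
  have key : ∀ σ ∈ IG V K, AlgEquiv.restrictNormalHom K₁ σ = 1 → σ = 1 := by
    intro σ hσ hr
    -- `σ` is trivial on `K₁`
    have c1 : ∀ (y : ℂ) (hy : y ∈ K₁), σ ⟨y, hle hy⟩ = ⟨y, hle hy⟩ := by
      intro y hy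
      have h1 := AlgEquiv.restrictNormal_commutes σ K₁ ⟨y, hy⟩
      have h2 : σ.restrictNormal K₁ = 1 := hr
      rw [h2] at h1
      exact h1.symm
    -- `σ` is trivial on `RF ⊤`
    have c2 : ∀ (y : ℂ) (hy : y ∈ RF (⊤ : Ideal (OO A B))), σ ⟨y, hleR hy⟩ = ⟨y, hleR hy⟩ := by
      let D : IntermediateField ℚ ℂ := (RF (⊤ : Ideal (OO A B))).restrictScalars ℚ
      have hD : kk A B ≤ D := fun x hx => (RF (⊤ : Ideal (OO A B))).algebraMap_mem ⟨x, hx⟩
      let _ := algC hD
      let τ₀ := σ.restrictNormal (RF (⊤ : Ideal (OO A B)))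
      let τ : D ≃ₐ[kk A B] D :=
        { toFun := τ₀
          invFun := τ₀.symm
          left_inv := τ₀.left_inv
          right_inv := τ₀.right_inv
          map_mul' := τ₀.map_mul
          map_add' := τ₀.map_add
          commutes' := τ₀.commutes }
      obtain ⟨σ', hσ', hext⟩ := hT.ext ⊤ htop D hD (fun y hy => hy) τ
      have e : ∀ (y : ℂ) (hy : y ∈ RF (⊤ : Ideal (OO A B))), σ' y = (σ ⟨y, hleR hy⟩ : K) := by
        intro y hy
        have h1 : σ' y = ((τ ⟨y, hy⟩ : D) : ℂ) := hext ⟨y, hy⟩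
        have h2 := AlgEquiv.restrictNormal_commutes σ (RF (⊤ : Ideal (OO A B))) ⟨y, hy⟩
        have h3 := congrArg (fun t : K => (t : ℂ)) h2
        rw [h1]
        exact h3
      have h4 := hU σ' hσ' (by
        intro y hy hyV
        rw [e y hy]
        have h5 := hσ ⟨y, hleR hy⟩ ((V.valuation_le_one_iff _).2 hyV)
        exact (V.mem_nonunits_iff).2 h5)
      intro y hy
      apply Subtype.ext
      rw [← e y hy]
      exact h4 y hy
    -- so it is trivial
    have c3 : K = IntermediateField.adjoin (kk A B)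
        ((K₁ : Set ℂ) ∪ (RF (⊤ : Ideal (OO A B)) : Set ℂ)) := by
      rw [← IntermediateField.sup_def]
      exact hK
    have c4 : K.val.comp σ.toAlgHom = K.val := by
      refine IntermediateField.algHom_ext_of_eq_adjoin (kk A B) c3 ?_
      intro y hy
      rcases hy with hy | hy
      · exact congrArg (fun t : K => (t : ℂ)) (c1 y hy)
      · exact congrArg (fun t : K => (t : ℂ)) (c2 y hy)
    apply AlgEquiv.ext
    intro y
    apply Subtype.ext
    exact congrArg (fun f : K →ₐ[kk A B] ℂ => f y) c4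
  have inj : Function.Injective
      ((AlgEquiv.restrictNormalHom K₁).comp (IG V K).subtype :
        IG V K →* (K₁ ≃ₐ[kk A B] K₁)) := by
    rw [injective_iff_map_eq_one]
    intro σ hσ
    exact Subtype.ext (key σ.1 σ.2 hσ)
  have h1 := Subgroup.card_dvd_of_injective _ inj
  rw [IsGalois.card_aut_eq_finrank] at h1
  exact h1

end

end Pool.Agent.MUXJ
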