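import Pool.Agent.MUX.StJX

/-!
# MUX, block J, module LEV: a field of degree prime to `p` over `k` has a level `f q0` (helper2)
-/

set_option autoImplicit false

namespace Pool.Agent.MUXJ

open _root_.MU3 Pool.Agent.MU3 Pool.Agent.MU3A Pool.Agent.MU3B Pool.Agent.RI Pool.Agent.RID
  Pool.Agent.MUX Pool.Agent.MUXK Pool.Agent.MUXE

noncomputable section

namespace LEV

variable {A B : ℤ}

/-- automorphisms of `RF m` extend to `ℂ` -/
lemma lift (T : TorX A B) {m : Ideal (OO A B)} (hm : m ≠ ⊥) (σ : RF m ≃ₐ[kk A B] RF m) :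
    ∃ s : ℂ ≃+* ℂ, FixK A B s ∧ ∀ y : RF m, s (y : ℂ) = (σ y : ℂ) := by
  let D : IntermediateField ℚ ℂ := (RF m).restrictScalars ℚ
  have h : kk A B ≤ D := fun x hx => (RF m).algebraMap_mem ⟨x, hx⟩
  let _ := algC h
  let τ : D ≃ₐ[kk A B] D :=
    { toFun := fun x => ⟨(σ ⟨x.1, x.2⟩ : ℂ), (σ ⟨x.1, x.2⟩).2⟩
      invFun := fun x => ⟨(σ.symm ⟨x.1, x.2⟩ : ℂ), (σ.symm ⟨x.1, x.2⟩).2⟩
      left_inv := fun x => Subtype.ext
        (congrArg Subtype.val (σ.symm_apply_apply (⟨x.1, x.2⟩ : RF m)))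
      right_inv := fun x => Subtype.ext
        (congrArg Subtype.val (σ.apply_symm_apply (⟨x.1, x.2⟩ : RF m)))
      map_mul' := fun x y => Subtype.ext (by
        have := map_mul σ ⟨x.1, x.2⟩ ⟨y.1, y.2⟩
        exact congrArg Subtype.val this)
      map_add' := fun x y => Subtype.ext (by
        have := map_add σ ⟨x.1, x.2⟩ ⟨y.1, y.2⟩
        exact congrArg Subtype.val this)
      commutes' := fun r => Subtype.ext (by
        have := σ.commutes r
        exact congrArg Subtype.val this) }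
  obtain ⟨s, hs, hs1⟩ := T.ext m hm D h (fun y hy => hy) τ
  exact ⟨s, hs, fun y => hs1 ⟨y.1, y.2⟩⟩

/-- `x ≡ 1` modulo `F`, `p ∣ F`, implies `x^(p^i) ≡ 1` modulo `F p^i` -/
lemma pow_dvd {R : Type*} [CommRing R] (p : ℕ) (F x : R) (hp : (p : R) ∣ F) (hx : F ∣ x - 1)
    (i : ℕ) : F * (p : R) ^ i ∣ x ^ p ^ i - 1 := by
  induction i with
  | zero => simpa using hx
  | succ i ih =>
    set y := x ^ p ^ i with hy
    have h1 : x ^ p ^ (i + 1) - 1 = (y - 1) * ∑ k ∈ Finset.range p, y ^ k := by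
      rw [mul_geom_sum, hy, ← pow_mul, ← pow_succ]
    have h2 : (p : R) ∣ y - 1 := (hp.mul_right _).trans ih
    have h3 : (p : R) ∣ ∑ k ∈ Finset.range p, y ^ k := by
      have h4 : ∑ k ∈ Finset.range p, y ^ k = ∑ k ∈ Finset.range p, (y ^ k - 1) + p := by
        rw [Finset.sum_sub_distrib]
        simp
      rw [h4]
      refine dvd_add (Finset.dvd_sum fun k _ => ?_) dvd_rfl
      have h5 := sub_dvd_pow_sub_pow y 1 k
      rw [one_pow] at h5
      exact h2.trans h5
    rw [h1, pow_succ, ← mul_assoc]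
    exact mul_dvd_mul ih h3

lemma mem_of_pow_mem {G : Type*} [Group G] (S : Subgroup G) {a : G} {m n : ℕ}
    (hm : a ^ m ∈ S) (hn : a ^ n ∈ S) (hmn : Nat.Coprime m n) : a ∈ S := by
  have h1 : IsCoprime (m : ℤ) (n : ℤ) := Nat.isCoprime_iff_coprime.2 hmn
  obtain ⟨u, v, huv⟩ := h1
  have h2 : a = (a ^ m) ^ u * (a ^ n) ^ v := by
    rw [← zpow_natCast, ← zpow_natCast, ← zpow_mul, ← zpow_mul, ← zpow_add]
    have h3 : (m : ℤ) * u + (n : ℤ) * v = 1 := by linear_combination huv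
    rw [h3, zpow_one]
  rw [h2]
  exact S.mul_mem (S.zpow_mem hm u) (S.zpow_mem hn v)

lemma idl_ne {n : ℕ} (hn : n ≠ 0) : idl (A := A) (B := B) n ≠ ⊥ := by
  intro h
  rw [Ideal.span_singleton_eq_bot] at h
  have h1 := congrArg QuadraticAlgebra.re h
  rw [QuadraticAlgebra.re_natCast, QuadraticAlgebra.re_zero] at h1
  exact hn (by exact_mod_cast h1)

lemma idl_le {n m : ℕ} (h : n ∣ m) : idl (A := A) (B := B) m ≤ idl n :=
  Ideal.span_singleton_le_span_singleton.2 (Nat.cast_dvd_cast h)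

/-- lowering the level -/
lemma act_mono {σ : ℂ ≃+* ℂ} {m m' a : Ideal (OO A B)} {L L' : PeriodPair} {mu : ℂ}
    (h : m' ≤ m) (ha : ActI σ m' a L L' mu) : ActI σ m a L L' mu := by
  refine ⟨ha.kap, ?_, ha.isq, fun z hz => ha.act z fun x hx => hz x (h hx)⟩
  have h1 := ha.cop
  rw [Ideal.isCoprime_iff_sup_eq] at h1 ⊢
  exact top_unique (h1 ▸ sup_le_sup_left h a)

end LEV

open LEV in
/-- a field of degree prime to `p` over `k` is contained in a ray class field of level `f q0` -/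
theorem t_LEV : Sj_LEV := by
  intro p A B hC T hN K _ hk hKp M hM0 hM
  have hp : p.Prime := by
    rcases hC.split with h | h
    · rw [h.1]; exact Nat.prime_three
    · rw [h.1]; exact Nat.prime_two
  obtain ⟨j, M', hM', hMj⟩ := Nat.exists_eq_pow_mul_and_not_dvd hM0 p hp.ne_one
  have hM'0 : M' ≠ 0 := by
    rintro rfl
    exact hM' (dvd_zero p)
  have hD0 : 0 < absD A B := by
    have := hC.neg
    unfold absD
    omega
  set c : ℕ := (absD A B).toNat with hc
  have hcD : (c : ℤ) = absD A B := Int.toNat_of_nonneg hD0.le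
  have hc0 : c ≠ 0 := by omega
  have hcp : ¬ p ∣ c := by
    intro h
    have h1 : (p : ℤ) ∣ absD A B := by
      rw [← hcD]; exact_mod_cast h
    unfold absD at h1
    rcases hC.split with h2 | h2
    · have h3 := h2.2
      rw [h2.1] at h1
      push_cast at h1
      omega
    · have h3 := h2.2
      rw [h2.1] at h1
      push_cast at h1
      omega
  set u : ℕ := if p = 2 then 1 else 2 with hu
  have hu0 : u ≠ 0 := by rw [hu]; split_ifs <;> norm_num
  have hup : ¬ p ∣ u := by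
    rw [hu]
    split_ifs with h2
    · rw [h2]; norm_num
    · intro h3
      rcases (Nat.dvd_prime Nat.prime_two).1 h3 with h4 | h4
      · exact hp.ne_one h4
      · exact h2 h4
  set f : ℕ := u * c * M' with hf
  have hf0 : f ≠ 0 := mul_ne_zero (mul_ne_zero hu0 hc0) hM'0
  have hfp : ¬ p ∣ f := by
    rw [hf, hp.dvd_mul, hp.dvd_mul]
    push Not
    exact ⟨⟨hup, hcp⟩, hM'⟩
  have hq0 : q0 p ≠ 0 := by
    unfold q0
    split_ifs with h2
    · norm_num
    · exact hp.ne_zero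
  have hpq0 : p ∣ q0 p := by
    unfold q0
    split_ifs with h2
    · rw [h2]; norm_num
    · exact dvd_rfl
  refine ⟨f, hf0, hfp, ?_, ?_, ?_⟩
  · refine ⟨(u * M' : ℕ), ?_⟩
    rw [hf, ← hcD]
    push_cast
    ring
  · intro h2
    refine ⟨(M' : ℕ), ?_⟩
    rw [hf, ← hcD, hu, if_neg h2]
    push_cast
    ring
  -- the two levels
  set m1 : Ideal (OO A B) := idl (lvX p f j) with hm1
  set m0 : Ideal (OO A B) := idl (lvX p f 0) with hm0
  have hm1' : m1 ≠ ⊥ := idl_ne (mul_ne_zero (mul_ne_zero hf0 hq0) (pow_ne_zero _ hp.ne_zero))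
  have hm0' : m0 ≠ ⊥ := idl_ne (mul_ne_zero (mul_ne_zero hf0 hq0) (pow_ne_zero _ hp.ne_zero))
  have h01 : m1 ≤ m0 := idl_le (mul_dvd_mul_left _ (pow_dvd_pow p (Nat.zero_le j)))
  have hMm : m1 ≤ idl M := idl_le (by
    rw [hMj]
    exact ⟨u * c * q0 p, by unfold lvX; rw [hf]; ring⟩)
  have hK1 : ∀ x ∈ K, x ∈ RF m1 := fun x hx => T.mono _ _ hMm (hM x hx)
  have hfin := T.fin m1 hm1'
  have hgal := T.gal m1 hm1'
  have h01' : RF m0 ≤ RF m1 := T.mono _ _ h01
  let K' : IntermediateField (kk A B) ℂ := IntermediateField.extendScalars hk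
  have hK' : K' ≤ RF m1 := fun x hx => hK1 x hx
  let E : IntermediateField (kk A B) (RF m1) := IntermediateField.restrict hK'
  let F0 : IntermediateField (kk A B) (RF m1) := IntermediateField.restrict h01'
  have hcomm := T.comm m1 hm1'
  have hnorm : E.fixingSubgroup.Normal := by
    constructor
    intro n hn g
    rw [hcomm g n, mul_assoc, mul_inv_cancel, mul_one]
    exact hn
  have hidx : ¬ p ∣ E.fixingSubgroup.index := by
    rw [← IntermediateField.finrank_eq_fixingSubgroup_index,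
      ← (IntermediateField.restrictAlgEquiv hK').toLinearEquiv.finrank_eq]
    exact hKp
  -- elements which are trivial on `RF m0`
  have hkey : F0.fixingSubgroup ≤ E.fixingSubgroup := by
    intro σ hσ
    rw [IntermediateField.mem_fixingSubgroup_iff] at hσ
    obtain ⟨s, hs, hsσ⟩ := lift T hm1' σ
    obtain ⟨a, hac, ha⟩ := T.act m1 hm1' s hs
    obtain ⟨b, L, om, hL⟩ := hN
    obtain ⟨b', L', om', mu, hL', hact⟩ := ha b L om hL
    have htr0 : ∀ y ∈ RF m0, s y = y := by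
      intro y hy
      have h1 := hsσ ⟨y, h01' hy⟩
      have h2 := hσ ⟨y, h01' hy⟩ ((IntermediateField.mem_restrict h01' _).2 hy)
      rw [h2] at h1
      exact h1
    obtain ⟨x, hx, hax⟩ := (T.triv m0 a s b L L' om mu hm0' hs hL (act_mono h01 hact) hL'.nrm).1 htr0
    -- powers
    have hpow : ∀ n : ℕ, ∃ t : ℂ ≃+* ℂ, FixK A B t ∧
        (∀ y : RF m1, t (y : ℂ) = ((σ ^ (n + 1)) y : ℂ)) ∧
        ∃ (b' : Ideal (OO A B)) (L' : PeriodPair) (om' mu : ℂ), IsNL b' L' om' ∧
          ActI t m1 (a ^ (n + 1)) L L' mu := by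
      intro n
      induction n with
      | zero =>
        refine ⟨s, hs, fun y => ?_, b', L', om', mu, hL', ?_⟩
        · rw [zero_add, pow_one]; exact hsσ y
        · rw [zero_add, pow_one]; exact hact
      | succ n ih =>
        obtain ⟨t, ht, ht1, b₁, L₁, om₁, mu₁, hL₁, hact₁⟩ := ih
        obtain ⟨b₂, L₂, om₂, mu₂, hL₂, hact₂⟩ := ha b₁ L₁ om₁ hL₁
        refine ⟨t.trans s, ?_, fun y => ?_, b₂, L₂, om₂, mu₂ * mu₁, hL₂, ?_⟩
        · show s (t (wC A B)) = wC A B
          rw [show t (wC A B) = wC A B from ht]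
          exact hs
        · show s (t (y : ℂ)) = _
          rw [ht1 y, hsσ, pow_succ' σ (n + 1)]
          rfl
        · rw [pow_succ a (n + 1)]
          exact T.comp m1 _ a t s L L₁ L₂ mu₁ mu₂ hact₁ hact₂
    have hpj : 0 < p ^ j := pow_pos hp.pos j
    obtain ⟨t, ht, ht1, b₁, L₁, om₁, mu₁, hL₁, hact₁⟩ := hpow (p ^ j - 1)
    rw [Nat.sub_add_cancel hpj] at ht1 hact₁
    have h3 : x ^ p ^ j - 1 ∈ m1 := by
      have h4 : ((f * q0 p : ℕ) : OO A B) ∣ x - 1 := by
        have h5 := Ideal.mem_span_singleton.1 hx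
        simpa [lvX] using h5
      have h5 : ((p : ℕ) : OO A B) ∣ ((f * q0 p : ℕ) : OO A B) :=
        Nat.cast_dvd_cast (hpq0.mul_left f)
      have h6 := pow_dvd p _ x h5 h4 j
      rw [hm1, Ideal.mem_span_singleton]
      unfold lvX
      push_cast at h6 ⊢
      exact h6
    have h4 : σ ^ p ^ j = 1 := by
      have h5 := (T.triv m1 _ t b L L₁ om mu₁ hm1' ht hL hact₁ hL₁.nrm).2
        ⟨x ^ p ^ j, h3, by rw [hax, Ideal.span_singleton_pow]⟩
      refine AlgEquiv.ext fun y => Subtype.ext ?_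
      rw [← ht1 y, h5 y y.2]
      rfl
    have h5 : σ ^ E.fixingSubgroup.index ∈ E.fixingSubgroup := Subgroup.pow_index_mem _ σ
    refine mem_of_pow_mem _ (m := p ^ j) (by rw [h4]; exact one_mem _) h5 ?_
    exact Nat.Coprime.pow_left j ((Nat.Prime.coprime_iff_not_dvd hp).2 hidx)
  have hEF : E ≤ F0 := by
    rw [← IsGalois.fixedField_fixingSubgroup F0, IntermediateField.le_iff_le]
    exact hkey
  intro x hx
  have h1 : (⟨x, hK1 x hx⟩ : RF m1) ∈ F0 :=
    hEF ((IntermediateField.mem_restrict hK' _).2 hx)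
  exact (IntermediateField.mem_restrict h01' _).1 h1

end

end Pool.Agent.MUXJ
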