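import Pool.Agent.MUX.StJX
import Pool.Agent.MUX.K_NRJ

/-!
# MUX, block J: going down in an arbitrary extension (module DWN)
-/

set_option autoImplicit false

open NumberField IsDedekindDomain
open scoped nonZeroDivisors Pointwise

namespace Pool.Agent.MUXJ

open _root_.MU3 Pool.Agent.MU3 Pool.Agent.MU3A Pool.Agent.MU3B Pool.Agent.RI Pool.Agent.RID
  Pool.Agent.MUX Pool.Agent.MUXK Pool.Agent.MUXE

namespace DWN

open Pool.Agent.MUXK.NRJ

/-- The norm on the fractional ideals, for an arbitrary extension. -/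
theorem exists_norm (L M : Type) [Field L] [NumberField L] [Field M] [NumberField M]
    [Algebra L M] : ∃ N : J M →* J L,
      (∀ x : Mˣ, N (prin x) = prin (Units.map (Algebra.norm L : M →* L) x)) ∧
      ∀ (w : HeightOneSpectrum (𝓞 M)) (v : HeightOneSpectrum (𝓞 L)),
        w.asIdeal.under (𝓞 L) = v.asIdeal →
        Nat.card (𝓞 M ⧸ w.asIdeal) = Nat.card (𝓞 L ⧸ v.asIdeal) → N (vJ w) = vJ v := by
  obtain ⟨N, hN⟩ := lift (jj M) (jj_inj M) (jj_surj M) ((jj L).comp (nn L M))
  refine ⟨N, ?_, ?_⟩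
  · -- principal ideals
    intro x
    obtain ⟨a, b, hb, hab⟩ := IsFractionRing.div_surjective (A := 𝓞 M) (x : M)
    have hb0 : b ≠ 0 := nonZeroDivisors.ne_zero hb
    have hinj := FaithfulSMul.algebraMap_injective (𝓞 M) M
    have ha0 : a ≠ 0 := by
      rintro rfl
      rw [map_zero, zero_div] at hab
      exact x.ne_zero hab.symm
    have key : ∀ c : 𝓞 M, ∀ hc : c ≠ 0, ∀ u : Mˣ, (u : M) = c →
        N (prin u) = prin (Units.map (Algebra.norm L : M →* L) u) := by
      intro c hc u hu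
      rw [← jj_span M hc (span_mem M hc) u hu, hN]
      have hn : Algebra.intNorm (𝓞 L) (𝓞 M) c ≠ 0 := by
        intro h
        have h2 : ((Algebra.intNorm (𝓞 L) (𝓞 M) c : 𝓞 L) : L) = 0 := by rw [h]; rfl
        rw [intNorm_coe, Algebra.norm_eq_zero_iff] at h2
        exact u.ne_zero (hu.trans h2)
      rw [← jj_span L hn (span_mem L hn) (Units.map (Algebra.norm L : M →* L) u)
        (by rw [intNorm_coe, ← hu]; rfl)]
      rw [MonoidHom.comp_apply]
      congr 1
      apply Subtype.ext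
      rw [nn_coe]
      exact Ideal.relNorm_singleton (𝓞 L) c
    set ua : Mˣ := Units.mk0 ((a : 𝓞 M) : M) (fun h => ha0 (hinj (by
      rw [map_zero]; exact h))) with hua
    set ub : Mˣ := Units.mk0 ((b : 𝓞 M) : M) (fun h => hb0 (hinj (by
      rw [map_zero]; exact h))) with hub
    have hx : x = ua / ub := by
      apply Units.ext
      rw [Units.val_div_eq_div_val]
      exact hab.symm
    rw [hx, map_div, map_div, key a ha0 ua rfl, key b hb0 ub rfl, ← map_div, ← map_div]
  · -- primes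
    intro w v hwv hc
    have hlo : w.asIdeal.LiesOver v.asIdeal := ⟨hwv.symm⟩
    have hvp : v.asIdeal.IsPrime := v.isPrime
    have hwp : w.asIdeal.IsPrime := w.isPrime
    obtain ⟨f, hf⟩ := Ideal.exists_relNorm_eq_pow_of_isPrime w.asIdeal v.asIdeal
    have h1 : N (vJ w) = vJ v ^ f := by
      rw [vJ_eq, hN, vJ_eq, ← map_pow, MonoidHom.comp_apply]
      congr 1
      apply Subtype.ext
      rw [nn_coe]
      exact hf
    have h2 : Ideal.absNorm (Ideal.relNorm (𝓞 L) w.asIdeal) = Ideal.absNorm w.asIdeal :=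
      Ideal.absNorm_relNorm (𝓞 L) (𝓞 M) w.asIdeal
    rw [hf, map_pow, Ideal.absNorm_apply, Ideal.absNorm_apply, Submodule.cardQuot_apply,
      Submodule.cardQuot_apply, hc] at h2
    have h3 : 1 < Nat.card (𝓞 L ⧸ v.asIdeal) := by
      have h4 : Ideal.absNorm v.asIdeal ≠ 1 := by
        intro h
        exact hvp.ne_top (Ideal.absNorm_eq_one_iff.1 h)
      have h5 : Ideal.absNorm v.asIdeal ≠ 0 := by
        intro h
        exact v.ne_bot (Ideal.absNorm_eq_zero_iff.1 h)
      rw [Ideal.absNorm_apply, Submodule.cardQuot_apply] at h4 h5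
      omega
    have h6 : f = 1 := by
      have : Nat.card (𝓞 L ⧸ v.asIdeal) ^ f = Nat.card (𝓞 L ⧸ v.asIdeal) ^ 1 := by
        rw [pow_one]; exact h2
      exact Nat.pow_right_injective h3 this
    rw [h1, h6, pow_one]

/-- The class number. -/
theorem card_cl (K : Type) [Field K] [NumberField K] :
    Nat.card (ClassGroup (𝓞 K)) = Nat.card (J K ⧸ (prin : Kˣ →* J K).range) :=
  Nat.card_congr (ClassGroup.equiv K).toEquiv

end DWN

open DWN in
/-- going down in an arbitrary extension -/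
theorem t_DWN (h1 : S_NIX) : Sj_DWN := by
  intro p _ L M _ _ _ _ _
  obtain ⟨N, hN1, hN2⟩ := exists_norm L M
  set Q : Subgroup (J L) := (prin : Lˣ →* J L).range with hQ
  set R : Subgroup (J M) := (prin : Mˣ →* J M).range with hR
  set U : Subgroup (J L) := Q ⊔ N.range with hU
  obtain ⟨hU0, hUd⟩ := h1 L M ∅ (by simp) U le_sup_left (by
    intro v q hq _ hv hab
    obtain ⟨w, hw, hwq⟩ := hab
    rw [← hN2 w v hw (by rw [hwq, hv])]
    exact (le_sup_right : N.range ≤ U) ⟨vJ w, rfl⟩)
  -- the homomorphism of the class groups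
  let m : J L →* J L ⧸ Q := QuotientGroup.mk' Q
  have hker : R ≤ (m.comp N).ker := by
    rintro _ ⟨x, rfl⟩
    rw [MonoidHom.mem_ker, MonoidHom.comp_apply, hN1]
    exact (QuotientGroup.eq_one_iff _).2 ⟨_, rfl⟩
  let g : J M ⧸ R →* J L ⧸ Q := QuotientGroup.lift R (m.comp N) hker
  have hrange : g.range = U.map m := by
    rw [hU, Subgroup.map_sup]
    have e1 : Q.map m = ⊥ := by
      rw [eq_bot_iff]
      rintro _ ⟨x, hx, rfl⟩
      exact (QuotientGroup.eq_one_iff _).2 hx
    rw [e1, bot_sup_eq]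
    ext z
    constructor
    · rintro ⟨y, rfl⟩
      obtain ⟨x, rfl⟩ := QuotientGroup.mk'_surjective R y
      exact ⟨N x, ⟨x, rfl⟩, rfl⟩
    · rintro ⟨_, ⟨x, rfl⟩, rfl⟩
      exact ⟨QuotientGroup.mk' R x, rfl⟩
  have hcM := card_cl M
  have hcL := card_cl L
  have hfinL : Nat.card (ClassGroup (𝓞 L)) ≠ 0 := Nat.card_pos.ne'
  have hfinM : Nat.card (ClassGroup (𝓞 M)) ≠ 0 := Nat.card_pos.ne'
  have hidx : (U.map m).index = U.index :=
    Subgroup.index_map_eq U (QuotientGroup.mk'_surjective Q) (by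
      rw [QuotientGroup.ker_mk']
      exact le_sup_left)
  have hmul : Nat.card g.range * U.index = Nat.card (ClassGroup (𝓞 L)) := by
    rw [hcL, ← Subgroup.card_mul_index (U.map m), hidx, hrange]
  have hdvd : Nat.card g.range ∣ Nat.card (ClassGroup (𝓞 M)) := by
    rw [hcM]
    exact Subgroup.card_range_dvd g
  have hg0 : Nat.card g.range ≠ 0 := by
    intro h0
    rw [h0, zero_mul] at hmul
    exact hfinL hmul.symm
  rw [← hmul, padicValNat.mul hg0 hU0]
  refine add_le_add ?_ ?_
  · exact (padicValNat_dvd_iff_le hfinM).1 (dvd_trans pow_padicValNat_dvd hdvd)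
  · exact (padicValNat_le_nat_log _).trans (Nat.log_mono_right hUd)

end Pool.Agent.MUXJ
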