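import Pool.Agent.MUX.StJX
import Pool.Agent.MU3.I_ILAY

/-!
# MUX, block J: LDX, linear disjointness from the layers (helper95)
-/

set_option autoImplicit false

open NumberField IsDedekindDomain
open scoped nonZeroDivisors Pointwise

namespace Pool.Agent.MUXJ

open _root_.MU3 Pool.Agent.MU3 Pool.Agent.MU3A Pool.Agent.MU3B Pool.Agent.RI Pool.Agent.RID
  Pool.Agent.MUX Pool.Agent.MUXK Pool.Agent.MUXE

noncomputable section

/-- the statement over an arbitrary base field -/
theorem ldx_gen {F E : Type*} [Field F] [Field E] [Algebra F E] (p : ℕ) (hp : p.Prime)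
    (K : IntermediateField F E) (B : ℕ → IntermediateField F E) (hK : FiniteDimensional F K)
    (hd : ∀ n, Module.finrank F (B n) = p ^ n) (hG : ∀ n, IsGalois F (B n))
    (hC : ∀ n, IsCyclic ((B n) ≃ₐ[F] (B n))) (hmono : Monotone B) (hnot : ¬ B 1 ≤ K) (n : ℕ) :
    Module.finrank F ↥(K ⊔ B n) = Module.finrank F K * p ^ n := by
  have := hG n
  have := hC n
  have hdeg := hd n
  have hfin : FiniteDimensional F (B n) :=
    Module.finite_of_finrank_pos (by rw [hdeg]; exact pow_pos hp.pos n)
  have hdvd : Module.finrank F ↥(K ⊓ B n) ∣ p ^ n := by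
    rw [← hdeg]
    exact IntermediateField.finrank_dvd_of_le_right inf_le_right
  obtain ⟨i, hi, hie⟩ := (Nat.dvd_prime_pow hp).1 hdvd
  have heq : K ⊓ B n = B i :=
    MU3I.Ilay.uniq (K ⊓ B n) (B i) (B n) inf_le_right (hmono hi) (hie.trans (hd i).symm)
  have hi0 : i = 0 := by
    by_contra h0
    apply hnot
    calc B 1 ≤ B i := hmono (Nat.one_le_iff_ne_zero.2 h0)
      _ = K ⊓ B n := heq.symm
      _ ≤ K := inf_le_left
  rw [hi0, pow_zero] at hie
  have hbot : B n ⊓ K = ⊥ := by
    rw [inf_comm]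
    exact IntermediateField.finrank_eq_one_iff.1 hie
  have hdis : (B n).LinearDisjoint K := IntermediateField.LinearDisjoint.of_inf_eq_bot hbot
  rw [sup_comm, hdis.finrank_sup, hdeg, mul_comm]

theorem t_LDX : Sj_LDX := by
  intro p hp K B hK hB hmono hnot n
  have key : ∀ (D : IntermediateField ℚ ℂ) (a b : Algebra ℚ D), @IsGalois ℚ _ D _ a →
      @IsGalois ℚ _ D _ b := by
    intro D a b h
    rw [Subsingleton.elim b a]
    exact h
  have key2 : ∀ (D : IntermediateField ℚ ℂ) (a b : Algebra ℚ D),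
      IsCyclic (@AlgEquiv ℚ D D _ _ _ a a) → IsCyclic (@AlgEquiv ℚ D D _ _ _ b b) := by
    intro D a b h
    have e : b = a := Subsingleton.elim b a
    subst e
    exact h
  exact ldx_gen (F := ℚ) (E := ℂ) p hp.out K B hK (fun n => (hB n).1)
    (fun n => key _ _ _ (LAY_thm p n (B n) (hB n)).2.1)
    (fun n => key2 _ _ _ (t_LAYC p n (B n) (hB n))) hmono hnot n

end

end Pool.Agent.MUXJ
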