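import Pool.Agent.MUX.StJX

/-!
# MUX, block J, module OMG: adjoining the `p`-th roots of unity, `p = 2, 3` (helper42)
-/

set_option autoImplicit false

open NumberField IsDedekindDomain Polynomial
open scoped nonZeroDivisors Pointwise

namespace Pool.Agent.MUXJ

open _root_.MU3 Pool.Agent.MU3 Pool.Agent.MU3A Pool.Agent.MU3B Pool.Agent.RI Pool.Agent.RID
  Pool.Agent.MUX Pool.Agent.MUXK Pool.Agent.MUXE

noncomputable section

namespace Omg

/-- a quadratic element generates a field of degree prime to 3 -/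
lemma quad {F E : Type*} [Field F] [Field E] [Algebra F E] (x : E) (b c : F)
    (h : x ^ 2 + algebraMap F E b * x + algebraMap F E c = 0) :
    IsIntegral F x ∧ ¬ 3 ∣ Module.finrank F (IntermediateField.adjoin F {x}) := by
  have hpm : (X ^ 2 + C b * X + C c : F[X]).Monic := by monicity!
  have hpd : (X ^ 2 + C b * X + C c : F[X]).natDegree = 2 := by compute_degree!
  have hp : aeval x (X ^ 2 + C b * X + C c : F[X]) = 0 := by
    simp only [map_add, map_mul, map_pow, aeval_X, aeval_C]
    exact h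
  have hint : IsIntegral F x := ⟨_, hpm, hp⟩
  have hle : (minpoly F x).natDegree ≤ 2 := by
    rw [← hpd]
    exact natDegree_le_of_dvd (minpoly.dvd F x hp) hpm.ne_zero
  have hpos : 0 < (minpoly F x).natDegree := minpoly.natDegree_pos hint
  refine ⟨hint, ?_⟩
  rw [IntermediateField.adjoin.finrank hint]
  intro h3
  have := Nat.le_of_dvd hpos h3
  omega

/-- degrees in the tower `k ≤ F ≤ F₁` -/
lemma tower {k F F₁ : IntermediateField ℚ ℂ} [FiniteDimensional ℚ F] (hk : k ≤ F) (h : F ≤ F₁) :
    Module.finrank k (IntermediateField.extendScalars (hk.trans h)) =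
      Module.finrank k (IntermediateField.extendScalars hk) *
        Module.finrank F (IntermediateField.extendScalars h) := by
  have e1 := Module.finrank_mul_finrank ℚ k (IntermediateField.extendScalars hk)
  have e2 := Module.finrank_mul_finrank ℚ k (IntermediateField.extendScalars (hk.trans h))
  have e3 := Module.finrank_mul_finrank ℚ F (IntermediateField.extendScalars h)
  have e4 : Module.finrank ℚ (IntermediateField.extendScalars hk) = Module.finrank ℚ F := rfl
  have e5 : Module.finrank ℚ (IntermediateField.extendScalars (hk.trans h)) =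
    Module.finrank ℚ F₁ := rfl
  have e6 : Module.finrank ℚ (IntermediateField.extendScalars h) = Module.finrank ℚ F₁ := rfl
  have e7 : 0 < Module.finrank ℚ F := Module.finrank_pos
  rw [e4] at e1
  rw [e5] at e2
  rw [e6] at e3
  rw [← e1] at e3 e7
  rw [← e3, mul_assoc] at e2
  exact Nat.eq_of_mul_eq_mul_left (Nat.pos_of_mul_pos_right e7) e2

/-- adjoining a cube root of unity -/
lemma omega_ext (F : IntermediateField ℚ ℂ) [FiniteDimensional ℚ F] (ω : ℂ)
    (hω : IsPrimitiveRoot ω 3) (hq : ω ^ 2 + ω + 1 = 0)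
    (T : IntermediateField ℚ ℂ) (hFT : F ≤ T) (hωT : ω ∈ T) :
    ∃ (F₁ : IntermediateField ℚ ℂ) (h : F ≤ F₁) (_ : FiniteDimensional ℚ F₁), F₁ ≤ T ∧ ω ∈ F₁ ∧
      IsGalois F (IntermediateField.extendScalars h) ∧
      ¬ 3 ∣ Module.finrank F (IntermediateField.extendScalars h) := by
  obtain ⟨hint, h3⟩ := quad (F := F) ω 1 1 (by rw [map_one]; linear_combination hq)
  set E := IntermediateField.adjoin F {ω} with hE
  set F₁ := E.restrictScalars ℚ with hF₁
  have h : F ≤ F₁ := by
    intro x hx
    exact E.algebraMap_mem ⟨x, hx⟩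
  have he : IntermediateField.extendScalars h = E := by
    ext x; rfl
  have hgal : IsGalois F E := by
    have hcyc : IsCyclotomicExtension {3} F E := by
      change IsCyclotomicExtension {3} F (IntermediateField.adjoin F {ω}).toSubalgebra
      rw [IntermediateField.adjoin_simple_toSubalgebra_of_isAlgebraic hint.isAlgebraic]
      exact hω.adjoin_isCyclotomicExtension F
    exact IsCyclotomicExtension.isGalois {3} F E
  have hfd : FiniteDimensional F E := IntermediateField.adjoin.finiteDimensional hint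
  have hfd1 : FiniteDimensional ℚ E := Module.Finite.trans F E
  refine ⟨F₁, h, hfd1, ?_, ?_, ?_, ?_⟩
  · have h5 : E ≤ IntermediateField.extendScalars hFT := by
      rw [hE, IntermediateField.adjoin_simple_le_iff]
      exact hωT
    intro x hx
    exact h5 hx
  · exact IntermediateField.mem_adjoin_simple_self F ω
  · rw [he]
    exact hgal
  · rw [he]
    exact h3

/-- `O` has characteristic zero -/
lemma nat_ne {A B : ℤ} {n : ℕ} (hn : n ≠ 0) : (n : OO A B) ≠ 0 := by
  intro h
  have h1 := congrArg QuadraticAlgebra.re h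
  rw [QuadraticAlgebra.re_natCast] at h1
  apply hn
  exact_mod_cast h1

lemma idl_ne {A B : ℤ} {n : ℕ} (hn : n ≠ 0) : (idl n : Ideal (OO A B)) ≠ ⊥ := by
  rw [Ne, Ideal.span_singleton_eq_bot]
  exact nat_ne hn

lemma idl_le {A B : ℤ} {m n : ℕ} (h : m ∣ n) : (idl n : Ideal (OO A B)) ≤ idl m := by
  rw [Ideal.span_singleton_le_span_singleton]
  exact Nat.cast_dvd_cast h

end Omg

open Omg

/-- the module OMG -/
theorem t_OMG (h1 : Sj_DIR) : Sj_OMG := by
  intro p A B hc hT hNL F hF hk hU hp
  rcases hc.split with ⟨rfl, -⟩ | ⟨rfl, -⟩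
  · obtain ⟨M, hM, hMF⟩ := h1 A B hc.toCQ hT F hU
    obtain ⟨b, L, om, hL⟩ := hNL
    obtain ⟨ζ, hω⟩ : ∃ ζ : ℂ, IsPrimitiveRoot ζ 3 :=
      ⟨_, Complex.isPrimitiveRoot_exp 3 (by norm_num)⟩
    have hq : ζ ^ 2 + ζ + 1 = 0 := by
      have h1 := hω.pow_eq_one
      have h2 := hω.ne_one (by norm_num)
      have h3 : (ζ - 1) * (ζ ^ 2 + ζ + 1) = 0 := by linear_combination h1
      rcases mul_eq_zero.1 h3 with h4 | h4
      · exact absurd (sub_eq_zero.1 h4) h2
      · exact h4
    have hm : (idl (3 * M) : Ideal (OO A B)) ≠ ⊥ := idl_ne (by positivity)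
    obtain ⟨a, -, ha⟩ := hT.act (idl (3 * M)) hm (RingEquiv.refl ℂ) rfl
    obtain ⟨b', L', om', mu, hL', hA⟩ := ha b L om hL
    have hz := (hT.zeta 3 (idl (3 * M)) a (RingEquiv.refl ℂ) b L L' om mu hm rfl (by norm_num)
      (idl_le (Dvd.intro _ rfl)) hL hA ζ hω.pow_eq_one).1
    obtain ⟨F₁, h, hfd, hT1, hω1, hg, h3⟩ := omega_ext F ζ hω hq
      ((RF (idl (3 * M) : Ideal (OO A B))).restrictScalars ℚ)
      (fun x hx => hT.mono _ _ (idl_le (Dvd.intro_left _ rfl)) (hMF x hx)) hz
    refine ⟨F₁, h, hfd, fun x hx => ⟨_, hm, hT1 hx⟩, ⟨_, hω1, hω⟩, hg, h3, ?_⟩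
    rw [tower hk h, Nat.prime_three.dvd_mul]
    exact not_or.2 ⟨hp, h3⟩
  · refine ⟨F, le_rfl, hF, hU, ⟨-1, F.neg_mem F.one_mem, IsPrimitiveRoot.neg_one 0 (by norm_num)⟩,
      ?_, ?_, hp⟩
    · rw [IntermediateField.extendScalars_self]
      infer_instance
    · rw [IntermediateField.extendScalars_self, IntermediateField.finrank_bot]
      norm_num

end

end Pool.Agent.MUXJ
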