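import Pool.Agent.MUX.StJX
import Pool.Agent.MU3.I_ILAY

/-!
# MUX, block J: module ROT, the first layer and the roots of unity of order `2 p`
-/

set_option autoImplicit false

open NumberField IsDedekindDomain

namespace Pool.Agent.MUXJ

open _root_.MU3 Pool.Agent.MU3 Pool.Agent.MU3A Pool.Agent.MU3B Pool.Agent.RI Pool.Agent.RID
  Pool.Agent.MUX Pool.Agent.MUXK Pool.Agent.MUXE

noncomputable section

namespace Rot

open Pool.Agent.MU3I

/-- the field of `ζ + ζ⁻¹`, `ζ` of order `8`, is a first layer -/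
lemma lay2 : IsLayer 2 1 (IntermediateField.adjoin ℚ {zt 8 + (zt 8)⁻¹}) := by
  have hM : (8 : ℕ) ≠ 0 := by norm_num
  set ζ := zt 8 with hζ
  have hζp : IsPrimitiveRoot ζ 8 := Ilay.zt_prim _ hM
  have hζ0 : ζ ≠ 0 := hζp.ne_zero hM
  have hζc : (starRingEnd ℂ) ζ = ζ⁻¹ := Ilay.conj_root hM hζp.pow_eq_one
  set R := IntermediateField.adjoin ℚ {ζ + ζ⁻¹} with hR
  set c : ℂ →ₐ[ℚ] ℂ := (Complex.conjAe.toAlgHom).restrictScalars ℚ with hc
  have hcz : ∀ z : ℂ, c z = (starRingEnd ℂ) z := fun z => rfl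
  have hRr : ∀ x ∈ R, c x = x := by
    have hRR : R ≤ (AlgHom.equalizer c (AlgHom.id ℚ ℂ)).toIntermediateField (fun x hx => by
        have hx' : c x = x := hx
        show c x⁻¹ = x⁻¹
        rw [map_inv₀, hx']) := by
      rw [hR, IntermediateField.adjoin_simple_le_iff]
      show c (ζ + ζ⁻¹) = ζ + ζ⁻¹
      rw [map_add, map_inv₀, hcz, hζc, inv_inv, add_comm]
    exact fun x hx => hRR hx
  refine ⟨?_, fun z hz => hRr z hz, 3, ?_⟩
  · rw [pow_one]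
    apply Ilay.deg ζ 2 hζ0
    · have hint : IsIntegral ℚ ζ := (hζp.isIntegral (Nat.pos_of_ne_zero hM)).tower_top
      rw [IntermediateField.adjoin.finrank hint,
        ← Polynomial.cyclotomic_eq_minpoly_rat hζp (Nat.pos_of_ne_zero hM),
        Polynomial.natDegree_cyclotomic]
      decide
    · intro h1
      have h2 := hRr _ h1
      rw [hcz, hζc] at h2
      have h3 : ζ ^ 2 = 1 := by
        rw [pow_two]
        nth_rewrite 1 [← h2]
        exact inv_mul_cancel₀ hζ0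
      have h4 := hζp.dvd_of_pow_eq_one 2 h3
      omega
  · have hζj : ζ ∈ IntermediateField.adjoin ℚ {z : ℂ | z ^ (2 ^ 3) = 1} := by
      apply IntermediateField.subset_adjoin
      show ζ ^ 2 ^ 3 = 1
      norm_num
      exact hζp.pow_eq_one
    rw [hR, IntermediateField.adjoin_simple_le_iff]
    exact add_mem hζj (inv_mem hζj)

end Rot

open Rot Pool.Agent.MU3I in
theorem t_ROT (h1 : Sj_LAY) : Sj_ROT := by
  intro p hp B K hB hBK hζ
  obtain ⟨η, hηK, hη⟩ := hζ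
  rcases hp with rfl | rfl
  · -- `p = 2`
    obtain ⟨Bn, -, -, hu⟩ := h1 2 (Or.inl rfl)
    have hBR : B = IntermediateField.adjoin ℚ {zt 8 + (zt 8)⁻¹} :=
      (hu 1 B hB).trans (hu 1 _ lay2).symm
    have hM : (8 : ℕ) ≠ 0 := by norm_num
    have hζp : IsPrimitiveRoot (zt 8) 8 := Ilay.zt_prim _ hM
    have hζ0 : zt 8 ≠ 0 := hζp.ne_zero hM
    refine ⟨zt 8, ?_, by simpa [q0] using hζp⟩
    have ht : zt 8 + (zt 8)⁻¹ ∈ K := by
      apply hBK
      rw [hBR]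
      exact IntermediateField.mem_adjoin_simple_self ℚ _
    have h4 : zt 8 ^ 4 = -1 := by
      have h8 : (zt 8 ^ 4) ^ 2 = 1 := by rw [← pow_mul]; exact hζp.pow_eq_one
      rcases sq_eq_one_iff.1 h8 with h | h
      · exact absurd (hζp.dvd_of_pow_eq_one 4 h) (by norm_num)
      · exact h
    have hi : zt 8 ^ 2 ∈ K := by
      have h5 : (zt 8 ^ 2) ^ (2 * 2) = 1 := by rw [← pow_mul]; exact hζp.pow_eq_one
      have : NeZero (2 * 2) := ⟨by norm_num⟩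
      obtain ⟨i, -, hi⟩ := hη.eq_pow_of_pow_eq_one h5
      rw [← hi]
      exact pow_mem hηK i
    have h6 : zt 8 = (zt 8 + (zt 8)⁻¹) * (1 + zt 8 ^ 2) * (2 : ℂ)⁻¹ := by
      have h7 : zt 8 * (zt 8 + (zt 8)⁻¹) = zt 8 ^ 2 + 1 := by
        rw [mul_add, mul_inv_cancel₀ hζ0, pow_two]
      have h8 : zt 8 * (zt 8) = zt 8 * ((zt 8 + (zt 8)⁻¹) * (1 + zt 8 ^ 2) * (2 : ℂ)⁻¹) := by
        linear_combination (-(1 + zt 8 ^ 2) * (2 : ℂ)⁻¹) * h7 - (2 : ℂ)⁻¹ * h4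
      exact mul_left_cancel₀ hζ0 h8
    rw [h6]
    refine mul_mem (mul_mem ht (add_mem (one_mem K) hi)) (inv_mem ?_)
    exact ofNat_mem K 2
  · -- `p = 3`
    have hBR := t_ILAY 1 B hB
    norm_num at hBR
    have hM : (9 : ℕ) ≠ 0 := by norm_num
    have hζp : IsPrimitiveRoot (zt 9) 9 := Ilay.zt_prim _ hM
    have hζ0 : zt 9 ≠ 0 := hζp.ne_zero hM
    refine ⟨zt 9, ?_, by simpa [q0] using hζp⟩
    have ht : zt 9 + (zt 9)⁻¹ ∈ K := by
      apply hBK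
      rw [hBR]
      exact IntermediateField.mem_adjoin_simple_self ℚ _
    have hω : zt 9 ^ 3 ∈ K := by
      have h5 : (zt 9 ^ 3) ^ (2 * 3) = 1 := by
        rw [← pow_mul, show 3 * (2 * 3) = 9 * 2 from rfl, pow_mul, hζp.pow_eq_one, one_pow]
      have : NeZero (2 * 3) := ⟨by norm_num⟩
      obtain ⟨i, -, hi⟩ := hη.eq_pow_of_pow_eq_one h5
      rw [← hi]
      exact pow_mem hηK i
    have h7 : zt 9 ^ 3 - (zt 9 ^ 3)⁻¹ = (zt 9 - (zt 9)⁻¹) * ((zt 9 + (zt 9)⁻¹) ^ 2 - 1) := by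
      field_simp
      ring
    have h8 : zt 9 ^ 3 - (zt 9 ^ 3)⁻¹ ≠ 0 := by
      intro h
      have h9 : zt 9 ^ 3 ≠ 0 := pow_ne_zero _ hζ0
      have h10 : (zt 9 ^ 3) * (zt 9 ^ 3) = 1 := by
        nth_rewrite 2 [sub_eq_zero.1 h]
        exact mul_inv_cancel₀ h9
      have h11 : zt 9 ^ 6 = 1 := by
        rw [← h10]
        ring
      exact absurd (hζp.dvd_of_pow_eq_one 6 h11) (by norm_num)
    have h9 : (zt 9 + (zt 9)⁻¹) ^ 2 - 1 ≠ 0 := by
      intro h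
      rw [h, mul_zero] at h7
      exact h8 h7
    have h10 : zt 9 = ((zt 9 + (zt 9)⁻¹) +
        (zt 9 ^ 3 - (zt 9 ^ 3)⁻¹) / ((zt 9 + (zt 9)⁻¹) ^ 2 - 1)) * (2 : ℂ)⁻¹ := by
      rw [h7, mul_div_cancel_right₀ _ h9]
      ring
    rw [h10]
    refine mul_mem (add_mem ht (div_mem (sub_mem hω (inv_mem hω)) (sub_mem (pow_mem ht 2) (one_mem K))))
      (inv_mem ?_)
    exact ofNat_mem K 2

end

end Pool.Agent.MUXJ
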