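import Pool.Agent.MUX.StJX
import Pool.Agent.RI.LAY
import Pool.Agent.RI.Basic

/-!
# MUX, block J, module SUB (helper96): class numbers of the layers over a subfield
-/

set_option autoImplicit false

namespace Pool.Agent.MUXJ

open NumberField
open Pool.Agent.RI Pool.Agent.RID

/-- JSUB: going down for the layers. -/
theorem t_SUB (h1 : Sj_DWN) : Sj_SUB := by
  intro p hp K M hfM hKM
  have hfK : FiniteDimensional ℚ K :=
    FiniteDimensional.of_injective (IntermediateField.inclusion hKM).toLinearMap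
      (IntermediateField.inclusion hKM).toRingHom.injective
  refine ⟨Nat.log p (Module.finrank ℚ M), fun n Q hQ => ?_⟩
  obtain ⟨hfQ, -, -⟩ := LAY_thm p n Q hQ
  have hle : K ⊔ Q ≤ M ⊔ Q := sup_le_sup_right hKM Q
  have hf1 : FiniteDimensional ℚ ↥(K ⊔ Q) := IntermediateField.finiteDimensional_sup K Q
  have hf2 : FiniteDimensional ℚ ↥(M ⊔ Q) := IntermediateField.finiteDimensional_sup M Q
  let : Algebra ↥(K ⊔ Q) ↥(M ⊔ Q) := algC hle
  have htow : IsScalarTower ℚ ↥(K ⊔ Q) ↥(M ⊔ Q) :=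
    IsScalarTower.of_algebraMap_eq (fun x => rfl)
  have h := h1 p ↥(K ⊔ Q) ↥(M ⊔ Q)
  have e1 : Module.finrank ℚ ↥(K ⊔ Q) * Module.finrank ↥(K ⊔ Q) ↥(M ⊔ Q) =
      Module.finrank ℚ ↥(M ⊔ Q) := Module.finrank_mul_finrank ℚ ↥(K ⊔ Q) ↥(M ⊔ Q)
  have e2 : Module.finrank ℚ ↥(M ⊔ Q) ≤ Module.finrank ℚ M * Module.finrank ℚ Q :=
    IntermediateField.finrank_sup_le M Q
  have e3 : Module.finrank ℚ Q ≤ Module.finrank ℚ ↥(K ⊔ Q) :=
    LinearMap.finrank_le_finrank_of_injective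
      (f := (IntermediateField.inclusion (le_sup_right : Q ≤ K ⊔ Q)).toLinearMap)
      (IntermediateField.inclusion (le_sup_right : Q ≤ K ⊔ Q)).toRingHom.injective
  have e4 : 0 < Module.finrank ℚ ↥(K ⊔ Q) := Module.finrank_pos
  have e5 : Module.finrank ↥(K ⊔ Q) ↥(M ⊔ Q) ≤ Module.finrank ℚ M := by
    have : Module.finrank ℚ ↥(K ⊔ Q) * Module.finrank ↥(K ⊔ Q) ↥(M ⊔ Q) ≤
        Module.finrank ℚ ↥(K ⊔ Q) * Module.finrank ℚ M := by
      rw [e1]
      refine e2.trans ?_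
      rw [mul_comm]
      exact Nat.mul_le_mul_right _ e3
    exact Nat.le_of_mul_le_mul_left this e4
  refine h.trans ?_
  exact Nat.add_le_add_left (Nat.log_mono_right e5) _

end Pool.Agent.MUXJ
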