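import Pool.Agent.MUX.StJX

/-!
# MUX, block J, module UNH: `RF ⊤` is unramified at `V`
-/

set_option autoImplicit false

open NumberField IsDedekindDomain
open scoped nonZeroDivisors Pointwise

namespace Pool.Agent.MUXJ

open _root_.MU3 Pool.Agent.MU3 Pool.Agent.MU3A Pool.Agent.MU3B Pool.Agent.RI Pool.Agent.RID
  Pool.Agent.MUX Pool.Agent.MUXK Pool.Agent.MUXE

namespace J_UNH

/-- automorphisms of `ℂ` with `FixK` are trivial on `k` -/
lemma fix {A B : ℤ} {σ : ℂ ≃+* ℂ} (hσ : FixK A B σ) : ∀ y ∈ kk A B, σ y = y := by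
  intro y hy
  induction hy using IntermediateField.adjoin_induction with
  | mem x hx => rw [Set.mem_singleton_iff] at hx; rw [hx]; exact hσ
  | algebraMap x => simp
  | add x y _ _ hx hy => rw [map_add, hx, hy]
  | inv x _ hx => rw [map_inv₀, hx]
  | mul x y _ _ hx hy => rw [map_mul, hx, hy]

end J_UNH

open J_UNH in
theorem t_UNH : Sj_UNH := by
  intro p A B P V hR hT σ hσ h
  have hone : (⊤ : Ideal (OO A B)) ≠ ⊥ := by
    intro h1
    have h2 : (1 : OO A B) ∈ (⊥ : Ideal (OO A B)) := h1 ▸ Submodule.mem_top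
    exact one_ne_zero ((Submodule.mem_bot _).1 h2)
  obtain ⟨a, -, hact⟩ := hT.act ⊤ hone σ hσ
  have hgen : ∀ (b : Ideal (OO A B)) (L : PeriodPair) (om : ℂ), IsNL b L om →
      σ (kap L) = kap L := by
    intro b L om hL
    obtain ⟨b', L', om', mu, hL', hA⟩ := hact b L om hL
    have hmem : kap L ∈ RF (⊤ : Ideal (OO A B)) :=
      IntermediateField.subset_adjoin _ _ ⟨b, L, om, hL, Or.inl rfl⟩
    have hv : kap L ∈ V := (V.valuation_le_one_iff _).1 (hR.vkap L ⟨b, om, hL⟩)
    have h1 := h (kap L) hmem hv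
    rw [← hA.kap, ValuationSubring.mem_nonunits_iff] at h1
    have h2 := hR.inj L' L ⟨b', om', hL'⟩ ⟨b, om, hL⟩ h1
    rw [← hA.kap, h2]
  intro y hy
  unfold RF at hy
  induction hy using IntermediateField.adjoin_induction with
  | mem x hx =>
    obtain ⟨b, L, om, hL, hx⟩ := hx
    rcases hx with rfl | ⟨z, hz, hz', -⟩
    · exact hgen b L om hL
    · exfalso
      apply hz'
      have h3 := hz 1 Submodule.mem_top
      have h4 : emb (1 : OO A B) = 1 := by
        have r1 : (1 : OO A B).re = 1 := rfl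
        have r2 : (1 : OO A B).im = 0 := rfl
        unfold emb
        rw [r1, r2]
        simp
      rwa [h4, one_mul] at h3
  | algebraMap x => exact fix hσ _ x.2
  | add x y _ _ hx hy => rw [map_add, hx, hy]
  | inv x _ hx => rw [map_inv₀, hx]
  | mul x y _ _ hx hy => rw [map_mul, hx, hy]

end Pool.Agent.MUXJ
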