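import Pool.Agent.MUX.StJX
import Pool.Agent.MUX.E_RNG

/-!
# Module MUXJ_VEX (helper25): existence of `P` and `V`
-/

set_option autoImplicit false

open NumberField IsDedekindDomain
open scoped nonZeroDivisors Pointwise

namespace Pool.Agent.MUXJ

open _root_.MU3 Pool.Agent.MU3 Pool.Agent.MU3A Pool.Agent.MU3B Pool.Agent.RI Pool.Agent.RID
  Pool.Agent.MUX Pool.Agent.MUXK Pool.Agent.MUXE

noncomputable section

namespace Vex

/-- the integer `A + B - 1` is divisible by `p` -/
theorem dvd {p : ℕ} {A B : ℤ} (h : CaseP p A B) : (p : ℤ) ∣ A + B - 1 := by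
  rcases h.split with ⟨rfl, h3⟩ | ⟨rfl, h8⟩
  · rcases h.hB with hB | hB <;> subst hB
    · push_cast; omega
    · push_cast; omega
  · rcases h.hB with hB | hB <;> subst hB
    · push_cast; omega
    · push_cast; omega

theorem prime {p : ℕ} {A B : ℤ} (h : CaseP p A B) : p.Prime := by
  rcases h.split with ⟨rfl, -⟩ | ⟨rfl, -⟩ <;> norm_num

/-- the homomorphism `O → ℤ/p` which maps `w` to `B - 1` -/
def psi (p : ℕ) (A B : ℤ) (h : CaseP p A B) : OO A B →+* ZMod p :=
  (QuadraticAlgebra.lift (R := ℤ) (a := A) (b := B) (A := ZMod p)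
    ⟨((B - 1 : ℤ) : ZMod p), by
      have h1 : ((A + B - 1 : ℤ) : ZMod p) = 0 := (ZMod.intCast_zmod_eq_zero_iff_dvd _ _).2
        (dvd h)
      push_cast at h1
      simp only [zsmul_eq_mul, mul_one]
      push_cast
      linear_combination -h1⟩).toRingHom

theorem main (p : ℕ) (A B : ℤ) (h : CaseP p A B) (P : Ideal (OO A B)) (hP : IsPN p P)
    (hm : P.IsMaximal) : ∃ V : ValuationSubring ℂ, OverI V P ∧ (p : ℂ) ∈ V.nonunits := by
  let φ : OO A B →+* ℂ := RNGaux.eH h.toCQ
  have hφ : ∀ x, φ x = emb x := RNGaux.eH_apply h.toCQ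
  have hinj : ∀ x y, φ x = φ y → x = y := by
    intro x y hxy
    rw [hφ, hφ] at hxy
    exact RNGaux.emb_inj h.toCQ hxy
  let I : Ideal φ.range := P.map φ.rangeRestrict
  have hmem : ∀ y, y ∈ I ↔ ∃ x ∈ P, φ.rangeRestrict x = y := fun y =>
    Ideal.mem_map_iff_of_surjective _ φ.rangeRestrict_surjective
  have hI : I ≠ ⊤ := by
    intro hI
    have h1 : (1 : φ.range) ∈ I := by rw [hI]; trivial
    obtain ⟨x, hx, hx1⟩ := (hmem _).1 h1
    have h2 : φ x = φ 1 := by
      have := congrArg Subtype.val hx1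
      rw [map_one]
      simpa using this
    rw [hinj _ _ h2] at hx
    exact hm.ne_top ((Ideal.eq_top_iff_one P).2 hx)
  obtain ⟨V, hV, hVI⟩ := Ideal.image_subset_nonunits_valuationSubring I hI
  have hle : ∀ x : OO A B, V.valuation (emb x) ≤ 1 := by
    intro x
    rw [← hφ]
    exact (V.valuation_le_one_iff _).2 (hV ⟨x, rfl⟩)
  have hP1 : ∀ x ∈ P, emb x ∈ V.nonunits := by
    intro x hx
    rw [← hφ]
    exact hVI ⟨φ.rangeRestrict x, (hmem _).2 ⟨x, hx, rfl⟩, rfl⟩
  have hO : OverI V P := by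
    intro x
    refine ⟨fun hx => ?_, hP1 x⟩
    by_contra hxP
    obtain ⟨y, i, hi, hy⟩ := hm.exists_inv hxP
    have h1 : emb y * emb x + emb i = 1 := by
      rw [← hφ, ← hφ, ← hφ, ← map_mul, ← map_add, hy, map_one]
    rw [ValuationSubring.mem_nonunits_iff] at hx
    have hi' := hP1 i hi
    rw [ValuationSubring.mem_nonunits_iff] at hi'
    have h2 : V.valuation (emb y * emb x) < 1 := by
      rw [map_mul]
      exact lt_of_le_of_lt (mul_le_of_le_one_left' (hle y)) hx
    have h3 : V.valuation (emb y * emb x + emb i) < 1 := Valuation.map_add_lt _ h2 hi'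
    rw [h1, map_one] at h3
    exact lt_irrefl _ h3
  refine ⟨V, hO, ?_⟩
  have h4 : emb ((p : ℕ) : OO A B) = (p : ℂ) := by
    rw [← hφ, map_natCast]
  rw [← h4]
  exact (hO _).2 hP.mem

end Vex

theorem t_VEX : Sj_VEX := by
  intro p A B h
  haveI : Fact p.Prime := ⟨Vex.prime h⟩
  let ψ := Vex.psi p A B h
  have hsurj : Function.Surjective ψ := ZMod.ringHom_surjective ψ
  have hmax : (RingHom.ker ψ).IsMaximal := RingHom.ker_isMaximal_of_surjective ψ hsurj
  have hP : IsPN p (RingHom.ker ψ) := by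
    refine ⟨hmax.isPrime, ?_, ?_⟩
    · rw [RingHom.mem_ker, map_natCast, CharP.cast_eq_zero]
    · unfold MUX.nI
      rw [Nat.card_congr (RingHom.quotientKerEquivOfSurjective hsurj).toEquiv, Nat.card_zmod]
  obtain ⟨V, hV, hpV⟩ := Vex.main p A B h _ hP hmax
  exact ⟨_, V, hP, hV, hpV⟩

end

end Pool.Agent.MUXJ
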