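import Pool.Agent.MUX.J_DIR
import Pool.Agent.MUX.J_DWN
import Pool.Agent.MUX.J_FIN
import Pool.Agent.MUX.J_FLD
import Pool.Agent.MUX.J_GAL
import Pool.Agent.MUX.J_INJ
import Pool.Agent.MUX.J_LAY
import Pool.Agent.MUX.J_LDX
import Pool.Agent.MUX.J_LEV
import Pool.Agent.MUX.J_OMG
import Pool.Agent.MUX.J_RAM
import Pool.Agent.MUX.J_RES
import Pool.Agent.MUX.J_ROT
import Pool.Agent.MUX.J_SET
import Pool.Agent.MUX.J_SUB
import Pool.Agent.MUX.J_UNH
import Pool.Agent.MUX.J_UP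
import Pool.Agent.MUX.J_VEX
import Pool.Agent.MUX.K_EPX
import Pool.Agent.MUX.K_IDX
import Pool.Agent.MUX.K_NIX
import Pool.Agent.MU3.PAll

/-! # Block J of the project MUX, assembled

`StJX.lean` states the field theory of the last glue; the files `J_*.lean` prove the statements. Here they are put
together: `j_X : Sj_X` without hypotheses, except for `j_FIN`, which takes the main theorem of block K. -/

namespace Pool.Agent.MUXJ

open Pool.Agent.MUXK

theorem j_RES : Sj_RES := t_RES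
theorem j_VEX : Sj_VEX := t_VEX
theorem j_UNH : Sj_UNH := t_UNH
theorem j_RAM : Sj_RAM := t_RAM
theorem j_INJ : Sj_INJ := t_INJ
theorem j_LAY : Sj_LAY := t_LAY
theorem j_ROT : Sj_ROT := t_ROT j_LAY
theorem j_LDX : Sj_LDX := t_LDX
theorem j_DIR : Sj_DIR := t_DIR
theorem j_GAL : Sj_GAL := t_GAL
theorem j_LEV : Sj_LEV := t_LEV
theorem j_SET : Sj_SET := t_SET j_DIR j_RAM j_INJ j_ROT j_LDX j_GAL j_LEV
theorem j_UP : Sj_UP := t_UP
theorem j_DWN : Sj_DWN := t_DWN (t_NIX (t_IDX t_EPX))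
theorem j_SUB : Sj_SUB := t_SUB j_DWN
theorem j_OMG : Sj_OMG := t_OMG j_DIR
theorem j_FLD : Sj_FLD := t_FLD
theorem j_FIN (h : S_MAINKX) : Sj_FIN :=
  t_FIN j_RES j_LAY j_DIR j_GAL j_SET j_UP j_SUB j_OMG j_FLD h MU3.u_SYL MU3.u_PEX

end Pool.Agent.MUXJ
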