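import Pool.Agent.MUX.StJX
import Pool.Agent.RI.BCH
import Pool.Agent.RI.LAY
import Pool.Agent.RID.P_INJ

/-!
# Module UP: enlarging `K`
-/

set_option autoImplicit false

open NumberField Finset

namespace Pool.Agent.MUXJ

open Pool.Agent.MU3 Pool.Agent.RI Pool.Agent.RID

/-- Module UP. -/
theorem t_UP : Sj_UP := by
  intro p _ K K' B hfK n h hlay hgal hdeg
  obtain ⟨hfB, -, -⟩ := LAY_thm p n B hlay
  have hf : FiniteDimensional ℚ ↥(K' ⊔ B) := IntermediateField.finiteDimensional_sup K' B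
  have hle : K ⊔ B ≤ K' ⊔ B := sup_le_sup_right h B
  have hb := BCH_thm.1 K K' B (K ⊔ B) (K' ⊔ B) h hle rfl rfl hgal
  exact t_INJ p (K ⊔ B) (K' ⊔ B) hle hb.1 (fun hd => hdeg (hd.trans hb.2))

end Pool.Agent.MUXJ
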