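import Pool.Agent.MUX.StJG
import Pool.Agent.MUX.J_FIN

/-!
# MUX, block J, module FING: the main theorem for all fields, from the inputs, for any prime above `p`
-/

set_option autoImplicit false

open NumberField IsDedekindDomain
open scoped nonZeroDivisors Pointwise

namespace Pool.Agent.MUXJ

open _root_.MU3 Pool.Agent.MU3 Pool.Agent.MU3A Pool.Agent.MU3B Pool.Agent.RI Pool.Agent.RID
  Pool.Agent.MUX Pool.Agent.MUXK Pool.Agent.MUXE

noncomputable section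

namespace JFing

/-- the case of a field `K₀` of degree prime to `p` over `k` with the `p`-th roots of unity -/
theorem cop (hRES : Sj_RES) (hSET : Sj_SETG) (hMAIN : S_MAINKX) (p e d : ℕ) [Fact p.Prime]
    (A B : ℤ) (P : Ideal (OO A B)) (V : ValuationSubring ℂ) (hc : AboX p e A B P V) (hd : d ≠ 0)
    (hpd : ¬ p ∣ d) (h2d : p = 3 → 2 ∣ d) (hU : UnrH A B V) (hT : TorX A B)
    (hN : NLex A B) (hI : InpG p d A B V) (K₀ : IntermediateField ℚ ℂ) [FiniteDimensional ℚ K₀]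
    (hk : kk A B ≤ K₀) (hcop : ¬ p ∣ Module.finrank (kk A B) (IntermediateField.extendScalars hk))
    (hTU : TorU A B K₀) (hω : ∃ ω ∈ K₀, IsPrimitiveRoot ω p)
    (Bn : ℕ → IntermediateField ℚ ℂ) (hlay : ∀ n, IsLayer p n (Bn n)) (hmono : Monotone Bn) :
    ∃ C : ℕ, ∀ n, padicValNat p (classNo (K₀ ⊔ Bn n)) ≤ C * (n + 1) ^ 2 := by
  obtain ⟨K, hKfd, f, hSX, hf0, hpf, hdf, hKR, hHK⟩ :=
    hSET p e d A B P V hc hd hpd h2d hU hT hN K₀ hk hcop hTU hω Bn hlay hmono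
  have hfk : FiniteDimensional ℚ (kk A B) :=
    Module.Finite.of_injective (IntermediateField.inclusion hk).toLinearMap
      (IntermediateField.inclusion hk).injective
  have hfB : ∀ n, FiniteDimensional ℚ ↥(K ⊔ Bn n) := fun n => by
    obtain ⟨h1, -, -⟩ := LAY_thm p n (Bn n) (hlay n)
    exact IntermediateField.finiteDimensional_sup K (Bn n)
  have hkn : ∀ n, kk A B ≤ K ⊔ Bn n := fun n => (hk.trans hSX.le).trans le_sup_left
  have hk₀n : ∀ n, kk A B ≤ K₀ ⊔ Bn n := fun n => hk.trans le_sup_left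
  obtain ⟨S, c, c₀, n₁, hInp⟩ := hI f hf0 hpf hdf K₀ K Bn hSX hKR hHK hkn hk₀n hk
  obtain ⟨hchar, halg⟩ := hRES p V hc.hp
  exact hMAIN (IsLocalRing.ResidueField V) p (kk A B) K₀ K Bn hSX hkn hk₀n hk S c c₀ n₁ hInp

end JFing

open JFin (idl_ne_bot) in
theorem t_FING (h1 : Sj_RES) (h2 : Sj_LAY) (h3 : Sj_DIR) (h4 : Sj_GAL) (h5 : Sj_SETG)
    (h6 : Sj_UP) (h7 : Sj_SUB) (h8 : Sj_OMGG) (h9 : Sj_FLD) (h10 : S_MAINKX) (h11 : P_SYL)
    (h12 : P_PEX) : Sj_FING := by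
  intro p e d A B P V hc hd hpd h2d hU hT hN hI F M K _ hkF hFM a hTU hgal hdeg hKM
  have hpp : p = 2 ∨ p = 3 := hc.pp
  have hp : Fact p.Prime := by
    rcases hpp with rfl | rfl
    · exact ⟨Nat.prime_two⟩
    · exact ⟨Nat.prime_three⟩
  have hfF : FiniteDimensional ℚ F :=
    Module.Finite.of_injective (IntermediateField.inclusion hFM).toLinearMap
      (IntermediateField.inclusion hFM).injective
  obtain ⟨-, hTot⟩ := h9 A B hc.cq
  obtain ⟨Bn, hlay, hmono, huniq⟩ := h2 p hpp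
  obtain ⟨M₀, hM₀, hFR⟩ := h3 A B hc.cq hT F hTU
  obtain ⟨hgF, -, hab⟩ := h4 A B hT (idl M₀) (idl_ne_bot hM₀) F hkF hFR
  obtain ⟨F₀, hk₀, h₂, -, hn1, hg2, b, hb⟩ := h11 p (kk A B) F hkF hgF hab
  have hfF₀ : FiniteDimensional ℚ F₀ :=
    Module.Finite.of_injective (IntermediateField.inclusion h₂).toLinearMap
      (IntermediateField.inclusion h₂).injective
  have hTU₀ : TorU A B F₀ := fun x hx => hTU x (h₂ hx)
  obtain ⟨F₁, hFF, hf1, hTU₁, hω, hgF₁, hnFF, hnF1⟩ :=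
    h8 p A B hc.cq hpp hT hN F₀ hk₀ hTU₀ hn1
  obtain ⟨C, hC⟩ := JFing.cop h1 h5 h10 p e d A B P V hc hd hpd h2d hU hT hN hI F₁
    (hk₀.trans hFF) hnF1 hTU₁ hω Bn hlay hmono
  have hC0 : ∀ n, padicValNat p (classNo (F₀ ⊔ Bn n)) ≤ C * (n + 1) ^ 2 := fun n =>
    (h6 p F₀ F₁ (Bn n) n hFF (hlay n) hgF₁ hnFF).trans (hC n)
  have hE := h12 p b F₀ F Bn h₂ hg2 hb (hTot F₀ hk₀) hlay hmono ⟨C, 2, hC0⟩
  obtain ⟨C', j, hC'⟩ := h12 p a F M Bn hFM hgal hdeg (hTot F hkF) hlay hmono hE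
  obtain ⟨C₁, hC₁⟩ := h7 p K M hKM
  refine ⟨C' + C₁ + j, fun n Q hQ => ?_⟩
  have e1 := hC₁ n Q hQ
  rw [huniq n Q hQ] at e1 ⊢
  have e2 := hC' n
  have e3 : (n + 1) ^ j ≤ (n + 1) ^ (C' + C₁ + j) :=
    Nat.pow_le_pow_right (Nat.succ_pos n) (Nat.le_add_left _ _)
  have e4 : 1 ≤ (n + 1) ^ (C' + C₁ + j) := Nat.one_le_pow _ _ (Nat.succ_pos n)
  calc padicValNat p (classNo (K ⊔ Bn n)) ≤ padicValNat p (classNo (M ⊔ Bn n)) + C₁ := e1
    _ ≤ C' * (n + 1) ^ j + C₁ := by omega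
    _ ≤ C' * (n + 1) ^ (C' + C₁ + j) + C₁ * (n + 1) ^ (C' + C₁ + j) :=
        add_le_add (Nat.mul_le_mul_left _ e3) (Nat.le_mul_of_pos_right _ e4)
    _ = (C' + C₁) * (n + 1) ^ (C' + C₁ + j) := by rw [add_mul]
    _ ≤ (C' + C₁ + j) * (n + 1) ^ (C' + C₁ + j) :=
        Nat.mul_le_mul_right _ (Nat.le_add_right _ _)

end

end Pool.Agent.MUXJ
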