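import Pool.Agent.MUX.StJG
import Pool.Agent.MUX.J_OMG

/-!
# MUX, block J, module OMGG: adjoining the `p`-th roots of unity, `p = 2, 3`, no hypothesis on the splitting of `p`
(helper19; adapted from `J_OMG.lean`, helper42)
-/

set_option autoImplicit false

open NumberField IsDedekindDomain Polynomial
open scoped nonZeroDivisors Pointwise

namespace Pool.Agent.MUXJ

open _root_.MU3 Pool.Agent.MU3 Pool.Agent.MU3A Pool.Agent.MU3B Pool.Agent.RI Pool.Agent.RID
  Pool.Agent.MUX Pool.Agent.MUXK Pool.Agent.MUXE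

noncomputable section

open Omg

/-- the module OMGG -/
theorem t_OMGG (h1 : Sj_DIR) : Sj_OMGG := by
  intro p A B hc hp23 hT hNL F hF hk hU hp
  rcases hp23 with rfl | rfl
  · refine ⟨F, le_rfl, hF, hU, ⟨-1, F.neg_mem F.one_mem, IsPrimitiveRoot.neg_one 0 (by norm_num)⟩,
      ?_, ?_, hp⟩
    · rw [IntermediateField.extendScalars_self]
      infer_instance
    · rw [IntermediateField.extendScalars_self, IntermediateField.finrank_bot]
      norm_num
  · obtain ⟨M, hM, hMF⟩ := h1 A B hc hT F hU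
    obtain ⟨b, L, om, hL⟩ := hNL
    obtain ⟨ζ, hω⟩ : ∃ ζ : ℂ, IsPrimitiveRoot ζ 3 :=
      ⟨_, Complex.isPrimitiveRoot_exp 3 (by norm_num)⟩
    have hq : ζ ^ 2 + ζ + 1 = 0 := by
      have h1 := hω.pow_eq_one
      have h2 := hω.ne_one (by norm_num)
      have h3 : (ζ - 1) * (ζ ^ 2 + ζ + 1) = 0 := by linear_combination h1
      rcases mul_eq_zero.1 h3 with h4 | h4
      · exact absurd (sub_eq_zero.1 h4) h2
      · exact h4
    have hm : (idl (3 * M) : Ideal (OO A B)) ≠ ⊥ := idl_ne (by positivity)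
    obtain ⟨a, -, ha⟩ := hT.act (idl (3 * M)) hm (RingEquiv.refl ℂ) rfl
    obtain ⟨b', L', om', mu, hL', hA⟩ := ha b L om hL
    have hz := (hT.zeta 3 (idl (3 * M)) a (RingEquiv.refl ℂ) b L L' om mu hm rfl (by norm_num)
      (idl_le (Dvd.intro _ rfl)) hL hA ζ hω.pow_eq_one).1
    obtain ⟨F₁, h, hfd, hT1, hω1, hg, h3⟩ := omega_ext F ζ hω hq
      ((RF (idl (3 * M) : Ideal (OO A B))).restrictScalars ℚ)
      (fun x hx => hT.mono _ _ (idl_le (Dvd.intro_left _ rfl)) (hMF x hx)) hz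
    refine ⟨F₁, h, hfd, fun x hx => ⟨_, hm, hT1 hx⟩, ⟨_, hω1, hω⟩, hg, h3, ?_⟩
    rw [tower hk h, Nat.prime_three.dvd_mul]
    exact not_or.2 ⟨hp, h3⟩

end

end Pool.Agent.MUXJ
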