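import Pool.Agent.MUX.KJAll
import Pool.Agent.MUX.J_RAMG
import Pool.Agent.MUX.J_LEVG
import Pool.Agent.MUX.J_SETG
import Pool.Agent.MUX.J_OMGG
import Pool.Agent.MUX.J_FING

/-! # Block J for any prime above `p`, assembled

`StJG.lean` states the last glue for `p = 3` (any prime above 3) and `p = 2` (unramified). Here the statements are put
together: `j_FING : Sj_FING` has no hypothesis. -/

namespace Pool.Agent.MUXJ

open Pool.Agent.MUXK

theorem j_RAMG : Sj_RAMG := t_RAMG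
theorem j_LEVG : Sj_LEVG := t_LEVG
theorem j_SETG : Sj_SETG := t_SETG j_DIR j_RAMG j_INJ j_ROT j_LDX j_GAL j_LEVG
theorem j_OMGG : Sj_OMGG := t_OMGG j_DIR
theorem j_FING : Sj_FING :=
  t_FING j_RES j_LAY j_DIR j_GAL j_SETG j_UP j_SUB j_OMGG j_FLD k_MAINKX MU3.u_SYL MU3.u_PEX

end Pool.Agent.MUXJ
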