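import Pool.Agent.MUX.KAllX
import Pool.Agent.MUX.JAll

/-! # Blocks K and J of the project MUX together

`kj_FIN` is the statement `Sj_FIN` of `StJX.lean` without any hypothesis: block K (`KAllX.lean`) gives the main theorem
`S_MAINKX`, and block J (`JAll.lean`) uses it. -/

namespace Pool.Agent.MUXJ

theorem kj_FIN : Sj_FIN := j_FIN Pool.Agent.MUXK.k_MAINKX

end Pool.Agent.MUXJ
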