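import Pool.Agent.MUX.StIX
import Pool.Agent.MUX.K_TWX

/-!
# MUX, block IX, module BIJ (helper26): restriction from `NC (B n)` to `Gal(K / k)`
-/

set_option autoImplicit false

namespace Pool.Agent.MUXI

open _root_.MU3 Pool.Agent.MU3 Pool.Agent.MU3A Pool.Agent.MU3B Pool.Agent.RI Pool.Agent.RID
  Pool.Agent.MUX Pool.Agent.MUXE Pool.Agent.MUXK
open Pool.Agent.MU3I (w3 zt)

namespace BIJ

/-- The group of `K B / k` has at most `|NC| [B : ℚ]` elements. -/
lemma card_le {p : ℕ} [Fact p.Prime] {n : ℕ} {k K B : IntermediateField ℚ ℂ}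
    [FiniteDimensional ℚ ↥(K ⊔ B)] (hB : IsLayer p n B) (h : k ≤ K ⊔ B) :
    letI := algC h
    Nat.card (↥(K ⊔ B) ≃ₐ[k] ↥(K ⊔ B)) ≤ Nat.card (NC h B) * p ^ n := by
  let akL : Algebra k ↥(K ⊔ B) := algC h
  obtain ⟨hfB, hGB, -⟩ := LAY_thm p n B hB
  have hBL : B ≤ K ⊔ B := le_sup_right
  let aBL : Algebra B ↥(K ⊔ B) := algC hBL
  have hT : IsScalarTower ℚ B ↥(K ⊔ B) := IsScalarTower.of_algebraMap_eq fun x => by
    apply Subtype.ext
    rw [eq_ratCast, eq_ratCast, map_ratCast]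
  have hT' : IsScalarTower ℚ k ↥(K ⊔ B) := IsScalarTower.of_algebraMap_eq fun x => by
    apply Subtype.ext
    rw [eq_ratCast, eq_ratCast, map_ratCast]
  have fdL : FiniteDimensional k ↥(K ⊔ B) := Module.Finite.of_restrictScalars_finite ℚ k _
  let r : (↥(K ⊔ B) ≃ₐ[k] ↥(K ⊔ B)) →* (B ≃ₐ[ℚ] B) :=
    (AlgEquiv.restrictNormalHom (F := ℚ) (K₁ := ↥(K ⊔ B)) B).comp (AlgEquiv.restrictScalarsHom ℚ)
  have hr : r.ker ≤ NC h B := by
    intro τ hτ x hx
    have h1 := AlgEquiv.restrictNormal_commutes (AlgEquiv.restrictScalars ℚ τ) B ⟨x.1, hx⟩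
    have h2 : (AlgEquiv.restrictScalars ℚ τ).restrictNormal B = 1 := hτ
    rw [h2, AlgEquiv.one_apply] at h1
    exact h1.symm
  have c1 : Nat.card r.ker * Nat.card r.range = Nat.card (↥(K ⊔ B) ≃ₐ[k] ↥(K ⊔ B)) := by
    rw [← Subgroup.index_ker, Subgroup.card_mul_index]
  have c2 : Nat.card r.ker ≤ Nat.card (NC h B) := Subgroup.card_le_of_le hr
  have c3 : Nat.card r.range ≤ p ^ n := by
    have h3 : Nat.card r.range ≤ Nat.card (B ≃ₐ[ℚ] B) := Subgroup.card_le_card_group _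
    rwa [IsGalois.card_aut_eq_finrank, hB.1] at h3
  rw [← c1]
  exact Nat.mul_le_mul c2 c3

end BIJ

open BIJ in
theorem ti_BIJ (h1 : S_GALX) : Si_BIJ := by
  intro p _ k K Bn _ _ hB n h hk
  let akL : Algebra k ↥(K ⊔ Bn n) := algC h
  let akK : Algebra k K := algC hk
  intro r hr
  obtain ⟨hG, -⟩ := h1 p k K Bn hB n h
  have fdL : FiniteDimensional k ↥(K ⊔ Bn n) := Module.Finite.of_restrictScalars_finite ℚ k _
  have fdK : FiniteDimensional k K := Module.Finite.of_restrictScalars_finite ℚ k _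
  have gK : IsGalois k K := (isGalois_algC hk).2 hB.gal
  have hKL : K ≤ K ⊔ Bn n := le_sup_left
  have hmul : ∀ δ δ' : NC h (Bn n), r (δ * δ') = r δ * r δ' := by
    intro δ δ'
    ext x
    have e1 := hr (δ * δ') x ⟨x, hKL x.2⟩ rfl
    have e2 := hr δ' x ⟨x, hKL x.2⟩ rfl
    have e3 := hr δ (r δ' x) _ e2
    exact e1.symm.trans e3
  refine ⟨?_, hmul⟩
  let f : NC h (Bn n) →* (K ≃ₐ[k] K) := MonoidHom.mk' r hmul
  have hinj : Function.Injective f := by
    rw [injective_iff_map_eq_one]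
    intro σ hσ
    apply Subtype.ext
    apply GCC.triv h
    · intro x hx
      apply Subtype.ext
      have h3 := hr σ ⟨x.1, hx⟩ x rfl
      have h4 : r σ = 1 := hσ
      rw [h4] at h3
      exact h3
    · intro x hx
      exact σ.2 x hx
  have hT : IsScalarTower ℚ k ↥(K ⊔ Bn n) := IsScalarTower.of_algebraMap_eq fun x => by
    apply Subtype.ext
    rw [eq_ratCast, eq_ratCast, map_ratCast]
  have hT' : IsScalarTower ℚ k K := IsScalarTower.of_algebraMap_eq fun x => by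
    apply Subtype.ext
    rw [eq_ratCast, eq_ratCast, map_ratCast]
  have fdk : FiniteDimensional ℚ k := FiniteDimensional.of_injective
    (IntermediateField.inclusion hk).toLinearMap
    (IntermediateField.inclusion hk).toRingHom.injective
  have d1 : Module.finrank ℚ k * Module.finrank k ↥(K ⊔ Bn n) =
      Module.finrank ℚ ↥(K ⊔ Bn n) := Module.finrank_mul_finrank ℚ k ↥(K ⊔ Bn n)
  have d2 : Module.finrank ℚ k * Module.finrank k K = Module.finrank ℚ K :=
    Module.finrank_mul_finrank ℚ k K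
  have d3 := hB.deg n
  have hk0 : 0 < Module.finrank ℚ k := Module.finrank_pos
  have d4 : Module.finrank k ↥(K ⊔ Bn n) = Module.finrank k K * p ^ n := by
    apply Nat.eq_of_mul_eq_mul_left hk0
    rw [d1, d3, ← d2, mul_assoc]
  have d5 := card_le (hB.lay n) h
  have e1 : Nat.card (↥(K ⊔ Bn n) ≃ₐ[k] ↥(K ⊔ Bn n)) = Module.finrank k ↥(K ⊔ Bn n) :=
    IsGalois.card_aut_eq_finrank k ↥(K ⊔ Bn n)
  have e2 : Nat.card (K ≃ₐ[k] K) = Module.finrank k K := IsGalois.card_aut_eq_finrank k K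
  have hp : 0 < p ^ n := pow_pos (Fact.out : p.Prime).pos n
  have e3 : Nat.card (K ≃ₐ[k] K) ≤ Nat.card (NC h (Bn n)) := by
    rw [e2]
    have h5 : Module.finrank k K * p ^ n ≤ Nat.card (NC h (Bn n)) * p ^ n := by
      rw [← d4, ← e1]
      exact d5
    exact Nat.le_of_mul_le_mul_right h5 hp
  have e4 : Nat.card (NC h (Bn n)) ≤ Nat.card (K ≃ₐ[k] K) := Nat.card_le_card_of_injective f hinj
  exact (Nat.bijective_iff_injective_and_card f).2 ⟨hinj, le_antisymm e4 e3⟩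

end Pool.Agent.MUXI
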