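import Pool.Agent.MUX.StIX
import Pool.Agent.MUX.Kap2

/-!
# MUX, block IX, module EPS2 (helper43): the sign function and the odd character for `p = 2`
-/

set_option autoImplicit false

namespace Pool.Agent.MUXI

open _root_.MU3 Pool.Agent.MU3 Pool.Agent.MU3A Pool.Agent.MU3B Pool.Agent.RI Pool.Agent.RID
  Pool.Agent.MUX Pool.Agent.MUXE Pool.Agent.MUXK
open Pool.Agent.MU3I (w3 zt)

noncomputable section

namespace EPS2

variable {A B : ℤ}

lemma cop_dvd {x : OO A B} {d m : ℕ} (hd : d ∣ m) (h : IsCoprime x ((m : ℕ) : OO A B)) :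
    IsCoprime x ((d : ℕ) : OO A B) := by
  obtain ⟨c, rfl⟩ := hd
  rw [Nat.cast_mul] at h
  exact h.of_mul_right_left

lemma cop_iff (x : OO A B) (m : ℕ) :
    IsCoprime (sp x) (idl (A := A) (B := B) m) ↔ IsCoprime x ((m : ℕ) : OO A B) :=
  Ideal.isCoprime_span_singleton_iff x _

lemma absD_dvd {P : Ideal (OO A B)} {V : ValuationSubring ℂ} {f : ℕ} (hS : SetP 2 A B P V f) :
    (absD A B).toNat ∣ f := by
  have h1 := hS.fD
  have h2 : 0 < absD A B := by
    have := hS.case.neg
    unfold absD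
    omega
  have h3 : ((absD A B).toNat : ℤ) = absD A B := Int.toNat_of_nonneg h2.le
  rw [← h3] at h1
  exact_mod_cast h1

lemma lv0 (f : ℕ) : lvX 2 f 0 = 2 * (2 * f) := by
  unfold lvX q0
  rw [if_pos rfl, pow_zero]
  ring

lemma lv0' (f : ℕ) : lvX 2 f 0 = 4 * f := by
  rw [lv0]
  ring

lemma cop4_iff (x : OO A B) (f : ℕ) :
    IsCoprime x ((lvX 2 f 0 : ℕ) : OO A B) ↔ IsCoprime (sp x) (idl (A := A) (B := B) (2 * f)) := by
  rw [cop_iff, lv0]
  constructor
  · exact cop_dvd (dvd_mul_left _ _)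
  · intro h
    rw [Nat.cast_mul]
    exact IsCoprime.mul_right (cop_dvd (dvd_mul_right 2 f) h) h

end EPS2

open EPS2 in
theorem ti_EPS2 : Si_EPS2 := by
  intro A B P V f hS e0 r hr one _ mul per supp pow
  obtain ⟨κ, hκ⟩ := Pool.Agent.MUX2.kap_exists hS.case
  have hdf := absD_dvd hS
  have hdl : ∀ n, (absD A B).toNat ∣ lvX 2 f n := fun n =>
    hdf.trans ((dvd_mul_right f _).trans (dvd_mul_right _ _))
  obtain ⟨e, he, he2, -⟩ := Pool.Agent.MUX2.eps_two hS hκ e0 r hr one (fun x y _ _ => mul x y)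
    (by
      intro x y h
      apply per
      rw [lv0']
      exact h)
    (by
      intro x hx
      apply pow
      rw [supp, cop4_iff]
      exact hx)
  refine ⟨κ, e, ?_, he, fun x hx => he2 x ((cop4_iff x f).1 hx)⟩
  intro n
  have hpm : ∀ x, IsCoprime x ((lvX 2 f n : ℕ) : OO A B) → κ x = 1 ∨ κ x = -1 := by
    intro x hx
    apply hκ.unit
    rw [cop_iff]
    exact cop_dvd (hdl n) hx
  refine ⟨?_, hpm, ?_, ?_⟩
  · intro x y h
    apply hκ.per
    obtain ⟨c, hc⟩ := (Pool.Agent.MUX2.idl_mem _ _).1 h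
    obtain ⟨d, hd⟩ := hdl n
    rw [Pool.Agent.MUX2.idl_mem]
    refine ⟨c * d, ?_⟩
    rw [hc, hd]
    push_cast
    ring
  · intro x
    have h := hκ.mul (-1) x
    rw [hκ.neg] at h
    rw [← neg_one_mul x, h]
    ring
  · intro x hx
    have hxP : x ∉ P := by
      intro h1
      have h2 : ((lvX 2 f n : ℕ) : OO A B) ∈ P := by
        have h3 : lvX 2 f n = 2 * (2 * f * 2 ^ n) := by
          unfold lvX q0
          rw [if_pos rfl]
          ring
        rw [h3, Nat.cast_mul]
        exact P.mul_mem_right _ hS.hP.mem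
      obtain ⟨a, b, hab⟩ := hx
      apply hS.hP.prime.ne_top
      rw [Ideal.eq_top_iff_one, ← hab]
      exact P.add_mem (P.mul_mem_left _ h1) (P.mul_mem_left _ h2)
    have hw : wP P x = 1 ∨ wP P x = -1 := by
      classical
      unfold wP
      rw [if_neg hxP]
      split_ifs
      · left; rfl
      · right; rfl
    rcases hpm x hx with h1 | h1 <;> rcases hw with h2 | h2 <;> rw [h1, h2] <;> norm_num

end

end Pool.Agent.MUXI
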