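import Pool.Agent.MUX.StIX

/-!
# MUX, block IX: `Si_FOU` (model `Pool/Agent/MU3/I_IFOU.lean`)
-/

set_option autoImplicit false

namespace Pool.Agent.MUXI

open _root_.MU3 Pool.Agent.MU3 Pool.Agent.MU3A Pool.Agent.MU3B Pool.Agent.RI Pool.Agent.RID
  Pool.Agent.MUX Pool.Agent.MUXE Pool.Agent.MUXK
open Pool.Agent.MU3I (w3 zt)

namespace IFou64

lemma ifou_mem (V : ValuationSubring ℂ) (x : ℂ) (n : ℕ) (hn : n ≠ 0) (hx : x ^ n = 1) :
    x ∈ V := by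
  rw [← ValuationSubring.valuation_le_one_iff]
  have h : V.valuation x ^ n = 1 := by rw [← map_pow, hx, map_one]
  exact ((pow_eq_one_iff_of_nonneg zero_le hn).1 h).le

lemma ifou_sum {p : ℕ} (hp : p.Prime) (V : ValuationSubring ℂ) (hIHF : Si_HFX) {ι : Type}
    (s : Finset ι) (f : ι → ℂ) (hf : ∀ i ∈ s, HfX p V (f i)) : HfX p V (∑ i ∈ s, f i) := by
  classical
  induction s using Finset.induction_on with
  | empty => simpa using (hIHF p hp V).1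
  | insert a s ha ih =>
    rw [Finset.sum_insert ha]
    exact (hIHF p hp V).2.1 _ _ (hf a (Finset.mem_insert_self a s))
      (ih fun i hi => hf i (Finset.mem_insert_of_mem hi))

end IFou64

open IFou64 in
theorem ti_FOU (h1 : Si_HFX) : Si_FOU := by
  intro p hp V G _ _ hcomm γ Δ _ T b N c X hb hT
  obtain ⟨-, -, hmul, hdiv, -⟩ := h1 p hp V
  refine hdiv _ _ hb ?_
  have hinv : ∀ δ : Δ, (((X δ)⁻¹ : ℂˣ) : ℂ) ∈ V := by
    intro δ
    refine ifou_mem V _ (Fintype.card Δ) Fintype.card_ne_zero ?_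
    rw [← Units.val_pow_eq_pow_val, ← map_inv, ← map_pow, pow_card_eq_one, map_one, Units.val_one]
  have key : (∑ δ : Δ, (b δ : ℂ) * (X δ : ℂ)) * (∑ j ∈ Finset.range (N + 1), (c j : ℂ) *
      ∑ δ : Δ, (((X δ)⁻¹ : ℂˣ) : ℂ) * T (γ ^ j * (δ : G))) =
      ∑ δ' : Δ, (((X δ')⁻¹ : ℂˣ) : ℂ) * ∑ δ : Δ, ∑ j ∈ Finset.range (N + 1),
      (b δ : ℂ) * (c j : ℂ) * T ((δ : G) * γ ^ j * (δ' : G)) := by
    rw [Finset.sum_mul]
    simp only [Finset.mul_sum]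
    conv_rhs => rw [Finset.sum_comm]
    refine Finset.sum_congr rfl fun δ _ => ?_
    conv_rhs => rw [Finset.sum_comm]
    refine Finset.sum_congr rfl fun j _ => ?_
    rw [← Equiv.sum_comp (Equiv.mulLeft δ)]
    refine Finset.sum_congr rfl fun δ' _ => ?_
    have h1 : γ ^ j * ((Equiv.mulLeft δ δ' : Δ) : G) = (δ : G) * γ ^ j * (δ' : G) := by
      simp only [Equiv.coe_mulLeft, Subgroup.coe_mul]
      rw [← mul_assoc, hcomm (γ ^ j) (δ : G)]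
    rw [h1]
    have h2 : (((X (Equiv.mulLeft δ δ'))⁻¹ : ℂˣ) : ℂ) =
        (((X δ)⁻¹ : ℂˣ) : ℂ) * (((X δ')⁻¹ : ℂˣ) : ℂ) := by
      simp only [Equiv.coe_mulLeft, map_mul, mul_inv, Units.val_mul]
    rw [h2]
    have h3 : (X δ : ℂ) * (((X δ)⁻¹ : ℂˣ) : ℂ) = 1 := Units.mul_inv (X δ)
    linear_combination ((b δ : ℂ) * (c j : ℂ) * (((X δ')⁻¹ : ℂˣ) : ℂ) *
      T ((δ : G) * γ ^ j * (δ' : G))) * h3
  rw [key]
  exact ifou_sum hp V h1 _ _ fun δ' _ => hmul _ _ (hinv δ') (hT δ')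

end Pool.Agent.MUXI
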