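import Pool.Agent.MUX.StIX
import Pool.Agent.MU3.I_IGAM

/-!
# MUX, block IX, GAM: the automorphism `γ` of `K_n / k` acting on the layer as `1 + q0`
-/

set_option autoImplicit false

namespace Pool.Agent.MUXI

open _root_.MU3 Pool.Agent.MU3 Pool.Agent.MU3A Pool.Agent.MU3B Pool.Agent.RI Pool.Agent.RID
  Pool.Agent.MUX Pool.Agent.MUXE Pool.Agent.MUXK
open Pool.Agent.MU3I (w3 zt)

noncomputable section

namespace Gam

open Pool.Agent.MU3I.IGAM (four_pow_dvd pow_four' eqD)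

/-! ### powers of `5` modulo powers of `2` -/

theorem five_pow (n : ℕ) : ∃ s : ℤ, (5 : ℤ) ^ 2 ^ n = 1 + 2 ^ (n + 2) * (1 + 2 * s) := by
  induction n with
  | zero => exact ⟨0, by norm_num⟩
  | succ n ih =>
    obtain ⟨s, hs⟩ := ih
    refine ⟨s + 2 ^ n * (1 + 2 * s) ^ 2, ?_⟩
    rw [pow_succ 2 n, pow_mul, hs]
    ring

theorem five_pow_dvd (n : ℕ) : (2 : ℤ) ^ (n + 2) ∣ (5 : ℤ) ^ 2 ^ n - 1 := by
  obtain ⟨s, hs⟩ := five_pow n
  exact ⟨1 + 2 * s, by rw [hs]; ring⟩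

theorem five_pow_one (i : ℕ) : ∃ v : ℤ, (5 : ℤ) ^ i = 1 + 4 * v := by
  induction i with
  | zero => exact ⟨0, by norm_num⟩
  | succ i ih =>
    obtain ⟨v, hv⟩ := ih
    exact ⟨1 + 5 * v, by rw [pow_succ, hv]; ring⟩

theorem pow_five {c : ℤ} (hc : (4 : ℤ) ∣ c - 1) (n : ℕ) :
    ∃ i : ℕ, (2 : ℤ) ^ (n + 2) ∣ c - 5 ^ i := by
  induction n with
  | zero => exact ⟨0, by simpa using hc⟩
  | succ n ih =>
    obtain ⟨i, t, ht⟩ := ih
    obtain ⟨s, hs⟩ := five_pow n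
    obtain ⟨v, hv⟩ := five_pow_one i
    rcases Int.even_or_odd' t with ⟨r, hr | hr⟩
    · exact ⟨i, r, by rw [ht, hr]; ring⟩
    · refine ⟨i + 2 ^ n, r - 2 * v - (1 + 4 * v) * s, ?_⟩
      rw [pow_add, hs]
      rw [hr] at ht
      rw [hv] at ht ⊢
      linear_combination ht

theorem pow_five' {c : ℤ} (hc : ¬ (2 : ℤ) ∣ c) (n : ℕ) :
    ∃ i : ℕ, (2 : ℤ) ^ (n + 2) ∣ c - 5 ^ i ∨ (2 : ℤ) ^ (n + 2) ∣ c + 5 ^ i := by
  have h3 : (4 : ℤ) ∣ c - 1 ∨ (4 : ℤ) ∣ -c - 1 := by omega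
  rcases h3 with h3 | h3
  · obtain ⟨i, hi⟩ := pow_five h3 n
    exact ⟨i, Or.inl hi⟩
  · obtain ⟨i, hi⟩ := pow_five h3 n
    refine ⟨i, Or.inr ?_⟩
    rw [← dvd_neg]
    have h4 : -(c + 5 ^ i) = -c - 5 ^ i := by ring
    rwa [h4]

/-! ### both primes -/

theorem gpow {p : ℕ} (hp : p = 2 ∨ p = 3) (n : ℕ) :
    ((q0 p * p ^ n : ℕ) : ℤ) ∣ (1 + (q0 p : ℤ)) ^ p ^ n - 1 := by
  rcases hp with rfl | rfl
  · have h := five_pow_dvd n
    have h1 : ((q0 2 * 2 ^ n : ℕ) : ℤ) = 2 ^ (n + 2) := by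
      unfold q0
      push_cast
      ring
    have h2 : (1 + (q0 2 : ℤ)) = 5 := by unfold q0; norm_num
    rw [h1, h2]
    exact h
  · have h := four_pow_dvd n
    have h1 : ((q0 3 * 3 ^ n : ℕ) : ℤ) = 3 ^ (n + 1) := by
      unfold q0
      push_cast
      ring
    have h2 : (1 + (q0 3 : ℤ)) = 4 := by unfold q0; norm_num
    rw [h1, h2]
    exact h

theorem cpow {p : ℕ} (hp : p = 2 ∨ p = 3) (n : ℕ) {c : ℤ} (hc : ¬ (p : ℤ) ∣ c) :
    ∃ i : ℕ, ((q0 p * p ^ n : ℕ) : ℤ) ∣ c - (1 + (q0 p : ℤ)) ^ i ∨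
      ((q0 p * p ^ n : ℕ) : ℤ) ∣ c + (1 + (q0 p : ℤ)) ^ i := by
  rcases hp with rfl | rfl
  · have h := pow_five' (by exact_mod_cast hc) n
    have h1 : ((q0 2 * 2 ^ n : ℕ) : ℤ) = 2 ^ (n + 2) := by
      unfold q0
      push_cast
      ring
    have h2 : (1 + (q0 2 : ℤ)) = 5 := by unfold q0; norm_num
    rw [h1, h2]
    exact h
  · have h := pow_four' (by exact_mod_cast hc) n
    have h1 : ((q0 3 * 3 ^ n : ℕ) : ℤ) = 3 ^ (n + 1) := by
      unfold q0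
      push_cast
      ring
    have h2 : (1 + (q0 3 : ℤ)) = 4 := by unfold q0; norm_num
    rw [h1, h2]
    exact h

/-! ### conjugates of `ζ + ζ⁻¹` -/

/-- the polynomial `D_m` with `D_m(u + 1/u) = u^m + 1/u^m` -/
def dk (R : Type) [CommRing R] (m : ℕ) : Polynomial R := Polynomial.dickson 1 1 m

theorem dk_eval {R : Type} [CommRing R] {u v : R} (h : u * v = 1) (m : ℕ) :
    (dk R m).eval (u + v) = u ^ m + v ^ m := by
  unfold dk
  exact Polynomial.dickson_one_one_eval_add_inv u v h m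

theorem dk_map {R S : Type} [CommRing R] [CommRing S] (φ : R →+* S) (m : ℕ) (x : R) :
    φ ((dk R m).eval x) = (dk S m).eval (φ x) := by
  unfold dk
  rw [← Polynomial.eval_map_apply, Polynomial.map_dickson, map_one]

theorem sum_two {a b : ℂ} (h : a * b = 1) (h2 : a + b = 2) : a = 1 := by
  have h3 : (a - 1) ^ 2 = 0 := by linear_combination a * h2 - h
  have h4 : a - 1 = 0 := pow_eq_zero_iff (two_ne_zero) |>.1 h3
  linear_combination h4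

theorem conj {D : IntermediateField ℚ ℂ} {ζ : ℂ} {M : ℕ} (hM : M ≠ 0)
    (hζ : IsPrimitiveRoot ζ M) (hz : ζ + ζ⁻¹ ∈ D) (φ : D →+* ℂ) :
    ∃ c : ℕ, c.Coprime M ∧ φ ⟨ζ + ζ⁻¹, hz⟩ = ζ ^ c + (ζ ^ c)⁻¹ := by
  have hζ0 : ζ ≠ 0 := hζ.ne_zero hM
  set s : ℂ := φ ⟨ζ + ζ⁻¹, hz⟩ with hs
  obtain ⟨w, hw⟩ := IsAlgClosed.exists_pow_nat_eq (s ^ 2 - 4) (n := 2) (by norm_num)
  set u : ℂ := (s + w) / 2 with hu
  set v : ℂ := (s - w) / 2 with hv
  have huv : u * v = 1 := by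
    rw [hu, hv]
    linear_combination -hw / 4
  have hus : u + v = s := by rw [hu, hv]; ring
  have key : ∀ m : ℕ, u ^ m = 1 → ζ ^ m = 1 := by
    intro m hm
    have h1 : φ ((dk D m).eval ⟨ζ + ζ⁻¹, hz⟩) = u ^ m + v ^ m := by
      rw [dk_map, ← hs, ← hus, dk_eval huv]
    have h2 : v ^ m = 1 := by
      have : u ^ m * v ^ m = 1 := by rw [← mul_pow, huv, one_pow]
      rwa [hm, one_mul] at this
    rw [hm, h2] at h1
    have h3 : (dk D m).eval ⟨ζ + ζ⁻¹, hz⟩ = 2 := by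
      apply φ.injective
      rw [h1]
      rw [map_ofNat]
      norm_num
    have h4 : ζ ^ m + (ζ⁻¹) ^ m = 2 := by
      have h5 := congrArg (algebraMap D ℂ) h3
      rw [dk_map] at h5
      have h6 : algebraMap D ℂ ⟨ζ + ζ⁻¹, hz⟩ = ζ + ζ⁻¹ := rfl
      rw [h6, dk_eval (mul_inv_cancel₀ hζ0), map_ofNat] at h5
      exact h5
    exact sum_two (by rw [← mul_pow, mul_inv_cancel₀ hζ0, one_pow]) h4
  have hu1 : u ^ M = 1 := by
    have h1 : φ ((dk D M).eval ⟨ζ + ζ⁻¹, hz⟩) = u ^ M + v ^ M := by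
      rw [dk_map, ← hs, ← hus, dk_eval huv]
    have h3 : (dk D M).eval ⟨ζ + ζ⁻¹, hz⟩ = 2 := by
      apply (algebraMap D ℂ).injective
      rw [dk_map]
      have h6 : algebraMap D ℂ ⟨ζ + ζ⁻¹, hz⟩ = ζ + ζ⁻¹ := rfl
      rw [h6, dk_eval (mul_inv_cancel₀ hζ0), map_ofNat, inv_pow, hζ.pow_eq_one]
      norm_num
    rw [h3, map_ofNat] at h1
    exact sum_two (by rw [← mul_pow, huv, one_pow]) h1.symm
  have hprim : IsPrimitiveRoot u M :=
    ⟨hu1, fun l hl => hζ.dvd_of_pow_eq_one l (key l hl)⟩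
  have : NeZero M := ⟨hM⟩
  obtain ⟨c, -, hc1, hc2⟩ := hζ.isPrimitiveRoot_iff.1 hprim
  refine ⟨c, hc1, ?_⟩
  rw [hc2, ← hus, eq_inv_of_mul_eq_one_right huv]

end Gam

open Gam Pool.Agent.MU3I.IGAM in
/-- (GAM) an automorphism `γ` of `K_n / k` with fixed field `K`, acting on the layer as `1 + q0` -/
theorem ti_GAM (h1 : Si_LAY) (h2 : S_GENX) : Si_GAM := by
  intro p _ hp k K Bn _ _ hB n h
  let _ := algC h
  have hp0 : p ≠ 0 := by rcases hp with rfl | rfl <;> norm_num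
  have hpp : p.Prime := Fact.out
  have hBn := h1 p n hp (Bn n) (hB.lay n)
  obtain ⟨g, hg1, hg2, -⟩ := h2 p k K Bn hB.hk hB.deg hB.lay hB.mono n h
  have hgp := gpow hp n
  have hcp := fun {c : ℤ} (hc : ¬ (p : ℤ) ∣ c) => cpow hp n hc
  have hq0 : q0 p ≠ 0 := by
    rcases hp with rfl | rfl <;> unfold q0 <;> norm_num
  have hM0 : q0 p * p ^ n ≠ 0 := mul_ne_zero hq0 (pow_ne_zero _ hp0)
  have hpM : p ∣ q0 p * p ^ n := by
    refine Dvd.dvd.mul_right ?_ _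
    rcases hp with rfl | rfl <;> unfold q0 <;> norm_num
  generalize q0 p * p ^ n = M at *
  set ζ : ℂ := zt M with hζdef
  have hζ : IsPrimitiveRoot ζ M := Complex.isPrimitiveRoot_exp _ hM0
  have hζ0 : ζ ≠ 0 := hζ.ne_zero hM0
  have hζ1 : ζ ^ M = 1 := hζ.pow_eq_one
  have hzD : ζ + ζ⁻¹ ∈ K ⊔ Bn n := by
    have h1 : ζ + ζ⁻¹ ∈ Bn n := by
      rw [hBn]
      exact IntermediateField.mem_adjoin_simple_self ℚ _
    exact (le_sup_right : Bn n ≤ K ⊔ Bn n) h1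
  -- the numbers `T m = ζ^m + ζ^(-m)`
  set t : ↥(K ⊔ Bn n) := ⟨ζ + ζ⁻¹, hzD⟩ with ht
  have hTc : ∀ m : ℕ, (((dk ↥(K ⊔ Bn n) m).eval t : ↥(K ⊔ Bn n)) : ℂ) = ζ ^ m + (ζ ^ m)⁻¹ := by
    intro m
    have h5 := dk_map (algebraMap ↥(K ⊔ Bn n) ℂ) m t
    have h6 : algebraMap ↥(K ⊔ Bn n) ℂ t = ζ + ζ⁻¹ := rfl
    rw [h6, dk_eval (mul_inv_cancel₀ hζ0), inv_pow] at h5
    exact h5
  -- two automorphisms which agree on `K` and on `t` are equal
  have hext : ∀ τ τ' : ↥(K ⊔ Bn n) ≃ₐ[k] ↥(K ⊔ Bn n),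
      (∀ y : ↥(K ⊔ Bn n), (y : ℂ) ∈ K → τ y = τ' y) → τ t = τ' t → τ = τ' := by
    intro τ τ' h1 h2
    apply AlgEquiv.ext
    intro y
    apply Subtype.ext
    exact eqD hBn rfl
      ((algebraMap ↥(K ⊔ Bn n) ℂ).comp (τ : ↥(K ⊔ Bn n) →+* ↥(K ⊔ Bn n)))
      ((algebraMap ↥(K ⊔ Bn n) ℂ).comp (τ' : ↥(K ⊔ Bn n) →+* ↥(K ⊔ Bn n)))
      (fun y hy => congrArg (fun t : ↥(K ⊔ Bn n) => (t : ℂ)) (h1 y hy)) hzD
      (congrArg (fun t : ↥(K ⊔ Bn n) => (t : ℂ)) h2) y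
  -- `g t`
  obtain ⟨c, hcM, hc⟩ := conj hM0 hζ hzD
    ((algebraMap ↥(K ⊔ Bn n) ℂ).comp (g : ↥(K ⊔ Bn n) →+* ↥(K ⊔ Bn n)))
  have hcp' : ¬ (p : ℤ) ∣ (c : ℤ) := by
    intro h3
    have h4 : p ∣ c := by exact_mod_cast h3
    have h5 := Nat.Coprime.eq_one_of_dvd (Nat.Coprime.coprime_dvd_left h4 hcM) hpM
    exact hpp.one_lt.ne' h5
  obtain ⟨e, he⟩ := hcp hcp'
  have hcz : ζ ^ c + (ζ ^ c)⁻¹ = ζ ^ ((1 + q0 p) ^ e) + (ζ ^ ((1 + q0 p) ^ e))⁻¹ := by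
    rcases he with he | he
    · have h3 : ζ ^ c = ζ ^ ((1 + q0 p) ^ e) := by
        refine pow_eq_pow_of_modEq ?_ hζ1
        rw [Nat.modEq_iff_dvd, ← dvd_neg, neg_sub]
        push_cast
        exact he
      rw [h3]
    · have h3 : ζ ^ c * ζ ^ ((1 + q0 p) ^ e) = 1 := by
        rw [← pow_add]
        have h5 : ζ ^ (c + (1 + q0 p) ^ e) = ζ ^ 0 := by
          refine pow_eq_pow_of_modEq ?_ hζ1
          rw [Nat.modEq_iff_dvd, ← dvd_neg]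
          push_cast
          have h4 : -(0 - ((c : ℤ) + (1 + (q0 p : ℤ)) ^ e)) = c + (1 + (q0 p : ℤ)) ^ e := by ring
          rw [h4]
          exact he
        rw [h5, pow_zero]
      have h4 : ζ ^ c = (ζ ^ ((1 + q0 p) ^ e))⁻¹ := eq_inv_of_mul_eq_one_left h3
      rw [h4, inv_inv, add_comm]
  have hgt : g t = (dk ↥(K ⊔ Bn n) ((1 + q0 p) ^ e)).eval t := by
    apply Subtype.ext
    rw [hTc, ← hcz]
    exact hc
  -- the powers of `g`
  have hgi : ∀ i : ℕ, (g ^ i) t = (dk ↥(K ⊔ Bn n) ((1 + q0 p) ^ (e * i))).eval t := by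
    intro i
    induction i with
    | zero =>
      apply Subtype.ext
      rw [hTc, mul_zero, pow_zero, pow_zero, pow_one]
      rfl
    | succ i ih =>
      rw [pow_succ, AlgEquiv.mul_apply, hgt]
      have h5 := dk_map ((g ^ i : ↥(K ⊔ Bn n) ≃ₐ[k] ↥(K ⊔ Bn n)) : ↥(K ⊔ Bn n) →+* ↥(K ⊔ Bn n))
        ((1 + q0 p) ^ e) t
      refine Eq.trans h5 ?_
      apply Subtype.ext
      have h6 := dk_map (algebraMap ↥(K ⊔ Bn n) ℂ) ((1 + q0 p) ^ e) ((g ^ i) t)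
      refine Eq.trans h6 ?_
      have h7 : algebraMap ↥(K ⊔ Bn n) ℂ ((g ^ i) t) =
          ζ ^ ((1 + q0 p) ^ (e * i)) + (ζ ^ ((1 + q0 p) ^ (e * i)))⁻¹ := by
        rw [ih]
        exact hTc _
      rw [h7, dk_eval (mul_inv_cancel₀ (pow_ne_zero _ hζ0)), hTc, inv_pow, ← pow_mul, ← pow_add]
      have h8 : e * i + e = e * (i + 1) := by ring
      rw [h8]
  -- exponents modulo `p^n`
  have hexp : ∀ a b : ℕ, a ≡ b [MOD p ^ n] →
      ζ ^ ((1 + q0 p) ^ a) = ζ ^ ((1 + q0 p) ^ b) := by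
    intro a b hab
    refine pow_eq_pow_of_modEq ?_ hζ1
    have h3 : (((1 + q0 p : ℕ) : ZMod M)) ^ p ^ n = 1 := by
      have h4 : (((1 + (q0 p : ℤ)) ^ p ^ n - 1 : ℤ) : ZMod M) = 0 :=
        (ZMod.intCast_zmod_eq_zero_iff_dvd _ _).2 hgp
      push_cast at h4 ⊢
      linear_combination h4
    have h4 := pow_eq_pow_of_modEq hab h3
    have h5 : (((1 + q0 p) ^ a : ℕ) : ZMod M) = (((1 + q0 p) ^ b : ℕ) : ZMod M) := by
      push_cast at h4 ⊢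
      exact h4
    exact (ZMod.natCast_eq_natCast_iff _ _ _).1 h5
  have hgfix : ∀ (i : ℕ) (y : ↥(K ⊔ Bn n)), (y : ℂ) ∈ K → (g ^ i) y = y := by
    intro i y hy
    induction i with
    | zero => rfl
    | succ i ih => rw [pow_succ', AlgEquiv.mul_apply, ih, (hg2 y).2 hy]
  have hgn : g ^ p ^ n = 1 := by rw [← hg1]; exact pow_orderOf_eq_one g
  -- `e` is prime to `p ^ n`
  have hcop : Nat.Coprime e (p ^ n) := by
    rcases Nat.eq_zero_or_pos n with hn | hn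
    · rw [hn, pow_zero]
      exact Nat.coprime_one_right e
    · refine Nat.Coprime.pow_right n ?_
      rw [Nat.coprime_comm, Nat.Prime.coprime_iff_not_dvd hpp]
      rintro ⟨e', he'⟩
      have h3 : g ^ p ^ (n - 1) = 1 := by
        refine hext _ _ (fun y hy => (hgfix _ y hy).trans rfl) ?_
        apply Subtype.ext
        rw [hgi, hTc]
        have h4 : e * p ^ (n - 1) ≡ 0 [MOD p ^ n] := by
          rw [Nat.modEq_zero_iff_dvd]
          refine ⟨e', ?_⟩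
          have h5 : p ^ n = p ^ (n - 1) * p := by
            rw [← pow_succ]
            congr 1
            omega
          rw [he', h5]
          ring
        rw [hexp _ _ h4, pow_zero, pow_one]
        rfl
      have h4 : orderOf g ∣ p ^ (n - 1) := orderOf_dvd_of_pow_eq_one h3
      rw [hg1] at h4
      have h5 := (Nat.pow_dvd_pow_iff_le_right hpp.one_lt).1 h4
      omega
  obtain ⟨i, hi⟩ : ∃ i : ℕ, e * i ≡ 1 [MOD p ^ n] := by
    rcases Nat.lt_or_ge 1 (p ^ n) with h3 | h3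
    · obtain ⟨i, -, hi⟩ := Nat.exists_mul_mod_eq_one_of_coprime hcop h3
      exact ⟨i, by rw [Nat.ModEq, hi, Nat.mod_eq_of_lt h3]⟩
    · have h4 : p ^ n = 1 := le_antisymm h3 (Nat.one_le_iff_ne_zero.2 (pow_ne_zero _ hp0))
      rw [h4]
      exact ⟨0, Nat.modEq_one⟩
  refine ⟨g ^ i, fun x => ⟨fun hx => ?_, fun hx => hgfix i x hx⟩, fun x hx => ?_⟩
  · have h3 : (g ^ i) ^ e = g := by
      rw [← pow_mul]
      have h4 : g ^ (i * e) = g ^ 1 := by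
        refine pow_eq_pow_of_modEq ?_ hgn
        rw [mul_comm]
        exact hi
      rw [h4, pow_one]
    have h4 : ∀ j : ℕ, ((g ^ i) ^ j) x = x := by
      intro j
      induction j with
      | zero => rfl
      | succ j ih => rw [pow_succ', AlgEquiv.mul_apply, ih, hx]
    have h5 := h4 e
    rw [h3] at h5
    exact (hg2 x).1 h5
  · have hxt : x = t := Subtype.ext hx
    rw [hxt, hgi, hTc, hexp _ _ hi, pow_one]

end

end Pool.Agent.MUXI
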