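import Pool.Agent.MUX.StIX
import Pool.Agent.MU3.P_TWK

/-!
# MUX, block IX: module GEN, the statement for one generator gives it for all generators

Adapted from `Pool/Agent/MU3/I3G.lean`.
-/

set_option autoImplicit false

open NumberField IsDedekindDomain Finset
open scoped nonZeroDivisors Pointwise

namespace Pool.Agent.MUXI

open _root_.MU3 Pool.Agent.MU3 Pool.Agent.MU3A Pool.Agent.MU3B Pool.Agent.RI Pool.Agent.RID
  Pool.Agent.MUX Pool.Agent.MUXE Pool.Agent.MUXK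

namespace GEN

variable {k L : Type} [Field k] [Field L] [Algebra k L]

/-- `x ↦ ∏_{i < b} γ^i x` as a homomorphism. -/
noncomputable def sm (γ : L ≃ₐ[k] L) (b : ℕ) : L →* L where
  toFun x := ∏ i ∈ range b, (γ ^ i) x
  map_one' := by simp
  map_mul' x y := by simp [Finset.prod_mul_distrib]

lemma sm_apply (γ : L ≃ₐ[k] L) (b : ℕ) (x : L) : sm γ b x = ∏ i ∈ range b, (γ ^ i) x := rfl

lemma sm_map (γ δ : L ≃ₐ[k] L) (h : ∀ σ τ : L ≃ₐ[k] L, σ * τ = τ * σ) (b : ℕ) (x : L) :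
    sm γ b (δ x) = δ (sm γ b x) := by
  rw [sm_apply, sm_apply, map_prod]
  refine Finset.prod_congr rfl fun i _ => ?_
  have h1 := congrArg (fun σ : L ≃ₐ[k] L => σ x) (h (γ ^ i) δ)
  exact h1

lemma sm_div (γ : L ≃ₐ[k] L) (b : ℕ) (x y : L) : sm γ b (x / y) = sm γ b x / sm γ b y := by
  rw [sm_apply, sm_apply, sm_apply, ← Finset.prod_div_distrib]
  exact Finset.prod_congr rfl fun i _ => map_div₀ _ _ _

lemma sm_Tg (γ : L ≃ₐ[k] L) (b : ℕ) {x : L} (hx : x ≠ 0) : sm γ b (Tg γ x) = Tg (γ ^ b) x := by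
  induction b with
  | zero =>
    rw [sm_apply, pow_zero, Finset.range_zero, Finset.prod_empty]
    unfold Tg
    rw [AlgEquiv.one_apply, div_self hx]
  | succ b ih =>
    rw [sm_apply, Finset.prod_range_succ, ← sm_apply, ih]
    unfold Tg
    have h1 : (γ ^ b) x ≠ 0 := (map_ne_zero (γ ^ b)).2 hx
    have h2 : (γ ^ b) (γ x) = (γ ^ (b + 1)) x := by
      rw [pow_succ]; rfl
    rw [map_div₀, h2]
    field_simp

lemma Tg_ne (γ : L ≃ₐ[k] L) {x : L} (hx : x ≠ 0) : Tg γ x ≠ 0 :=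
  div_ne_zero ((map_ne_zero γ).2 hx) hx

lemma iter_ne (γ : L ≃ₐ[k] L) (n : ℕ) {x : L} (hx : x ≠ 0) : (Tg γ)^[n] x ≠ 0 := by
  induction n with
  | zero => exact hx
  | succ n ih => rw [Function.iterate_succ_apply']; exact Tg_ne γ ih

lemma sm_ne (γ : L ≃ₐ[k] L) (b : ℕ) {x : L} (hx : x ≠ 0) : sm γ b x ≠ 0 := by
  rw [sm_apply]
  exact Finset.prod_ne_zero_iff.2 fun i _ => (map_ne_zero (γ ^ i)).2 hx

/-- `(γ^b - 1)^N = (Σ γ^i)^N (γ - 1)^N` -/
lemma iter_eq (γ : L ≃ₐ[k] L) (h : ∀ σ τ : L ≃ₐ[k] L, σ * τ = τ * σ) (b N : ℕ) {x : L}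
    (hx : x ≠ 0) : (Tg (γ ^ b))^[N] x = (sm γ b)^[N] ((Tg γ)^[N] x) := by
  have hcm : ∀ (M : ℕ) (y : L), (sm γ b)^[M] (Tg γ y) = Tg γ ((sm γ b)^[M] y) := by
    intro M
    induction M with
    | zero => intro y; rfl
    | succ M ih =>
      intro y
      rw [Function.iterate_succ_apply, Function.iterate_succ_apply, ← ih]
      congr 1
      unfold Tg
      rw [sm_div, sm_map γ γ h]
  have hne : ∀ (M : ℕ) {y : L}, y ≠ 0 → (sm γ b)^[M] y ≠ 0 := by
    intro M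
    induction M with
    | zero => intro y hy; exact hy
    | succ M ih => intro y hy; rw [Function.iterate_succ_apply']; exact sm_ne γ b (ih hy)
  induction N with
  | zero => rfl
  | succ N ih =>
    rw [Function.iterate_succ_apply', ih, ← sm_Tg γ b (hne N (iter_ne γ N hx)), ← hcm,
      ← Function.iterate_succ_apply' (Tg γ), ← Function.iterate_succ_apply' (sm γ b)]

/-- the relation for `γ` gives the relation for `γ ^ b` -/
lemma rel (γ : L ≃ₐ[k] L) (h : ∀ σ τ : L ≃ₐ[k] L, σ * τ = τ * σ) (b N : ℕ) {x : L}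
    (hx : x ≠ 0) (D : Subgroup (L ≃ₐ[k] L)) [Fintype D] (e : D → ℕ) (y : L)
    {p : ℕ} (hy : y ^ p = ∏ δ : D, ((δ : L ≃ₐ[k] L) ((Tg γ)^[N] x)) ^ e δ) :
    ∃ z : L, z ^ p = ∏ δ : D, ((δ : L ≃ₐ[k] L) ((Tg (γ ^ b))^[N] x)) ^ e δ := by
  have hδ : ∀ (M : ℕ) (δ : L ≃ₐ[k] L) (u : L), (sm γ b)^[M] (δ u) = δ ((sm γ b)^[M] u) := by
    intro M
    induction M with
    | zero => intro δ u; rfl
    | succ M ih =>
      intro δ u
      rw [Function.iterate_succ_apply, Function.iterate_succ_apply, sm_map γ δ h, ih]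
  let f : ℕ → (L →* L) := fun M => Nat.rec (MonoidHom.id L) (fun _ g => (sm γ b).comp g) M
  have hf : ∀ (M : ℕ) (u : L), f M u = (sm γ b)^[M] u := by
    intro M
    induction M with
    | zero => intro u; rfl
    | succ M ih =>
      intro u
      rw [Function.iterate_succ_apply', ← ih]
      rfl
  refine ⟨f N y, ?_⟩
  rw [← map_pow, hy, map_prod]
  refine Finset.prod_congr rfl fun δ _ => ?_
  rw [map_pow, hf, hδ, iter_eq γ h b N hx]

end GEN

theorem ti_GEN (h1 : S_GALX) : Si_GEN := by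
  intro p _ k K Bn _ _ hB n h c hc hc0 N
  let akL : Algebra k ↥(K ⊔ Bn n) := algC h
  intro γ₀ hγ₀ _ b h2 γ hγ y hy
  obtain ⟨hG, hcm⟩ := h1 p k K Bn hB n h
  have fdL : FiniteDimensional k ↥(K ⊔ Bn n) := Module.Finite.of_restrictScalars_finite ℚ k _
  have e1 := P_TWK.zp γ (GCC.sub h K hB.hk) (fun x => (hγ x).trans (GCC.mem_sub h K hB.hk x).symm)
  have e2 := P_TWK.zp γ₀ (GCC.sub h K hB.hk)
    (fun x => (hγ₀ x).trans (GCC.mem_sub h K hB.hk x).symm)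
  have h3 : γ₀ ∈ Subgroup.zpowers γ := by
    rw [← e1, e2]
    exact Subgroup.mem_zpowers γ₀
  have hfin : IsOfFinOrder γ := isOfFinOrder_of_finite γ
  obtain ⟨a, ha⟩ := (hfin.mem_powers_iff_mem_zpowers).2 h3
  have ha' : γ ^ a = γ₀ := ha
  have hc1 : (⟨c, hc⟩ : ↥(K ⊔ Bn n)) ≠ 0 := by
    intro h0
    exact hc0 (congrArg Subtype.val h0)
  obtain ⟨z, hz⟩ := GEN.rel γ hcm a N hc1 (NC h (Bn n)) b y hy
  rw [ha'] at hz
  exact h2 z hz

end Pool.Agent.MUXI
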