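import Pool.Agent.MUX.StIX

/-!
# MUX, block IX: module HFX, the set `v(x)^(p-1) ≤ v(p)`
-/

set_option autoImplicit false

namespace Pool.Agent.MUXI

open _root_.MU3 Pool.Agent.MU3 Pool.Agent.MU3A Pool.Agent.MU3B Pool.Agent.RI Pool.Agent.RID
  Pool.Agent.MUX Pool.Agent.MUXE Pool.Agent.MUXK
open Pool.Agent.MU3I (w3 zt)

namespace HFXm

lemma hfx_iff {p : ℕ} (hp : p ≠ 0) (V : ValuationSubring ℂ) (x : ℂ) :
    HfX p V x ↔ V.valuation x ^ (p - 1) ≤ V.valuation (p : ℂ) := by
  have h0 : V.valuation (p : ℂ) ≠ 0 := (Valuation.ne_zero_iff _).mpr (by exact_mod_cast hp)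
  unfold HfX
  rw [← ValuationSubring.valuation_le_one_iff, map_div₀, map_pow]
  exact div_le_one₀ (zero_lt_iff.mpr h0)

end HFXm

open HFXm in
theorem ti_HFX : Si_HFX := by
  intro p hp V
  have hi := fun x => hfx_iff hp.ne_zero V x
  have hp1 : p - 1 ≠ 0 := by have := hp.two_le; omega
  refine ⟨?_, ?_, ?_, ?_, ?_⟩
  · rw [hi, map_zero, zero_pow hp1]
    exact zero_le
  · intro x y hx hy
    rw [hi] at hx hy ⊢
    rcases le_max_iff.mp (Valuation.map_add V.valuation x y) with h | h
    · exact (pow_le_pow_left₀ zero_le h _).trans hx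
    · exact (pow_le_pow_left₀ zero_le h _).trans hy
  · intro v x hv hx
    rw [hi] at hx ⊢
    have h1 : V.valuation v ≤ 1 := (ValuationSubring.valuation_le_one_iff _ _).mpr hv
    rw [map_mul]
    refine (pow_le_pow_left₀ zero_le ?_ _).trans hx
    exact mul_le_of_le_one_left zero_le h1
  · intro v x hv hx
    rw [hi] at hx ⊢
    have h1 : 1 ≤ V.valuation v := by
      rw [← not_lt, ← ValuationSubring.mem_nonunits_iff]
      exact hv
    rw [map_mul] at hx
    refine (pow_le_pow_left₀ zero_le ?_ _).trans hx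
    exact le_mul_of_one_le_left zero_le h1
  · rintro rfl h3
    rw [ValuationSubring.mem_nonunits_iff] at h3
    have h2 : V.valuation (2 : ℂ) = 1 := by
      have h5 : V.valuation ((3 : ℕ) : ℂ) < V.valuation (1 : ℂ) := by rw [map_one]; exact h3
      have h6 : V.valuation (1 - ((3 : ℕ) : ℂ)) = V.valuation (1 : ℂ) :=
        Valuation.map_sub_eq_of_lt_left _ h5
      have h7 : (2 : ℂ) = -(1 - ((3 : ℕ) : ℂ)) := by push_cast; ring
      rw [h7, Valuation.map_neg, h6, map_one]
    refine ⟨?_, ?_⟩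
    · rw [← ValuationSubring.valuation_le_one_iff, map_div₀, map_one, h2, div_one]
    · rw [← ValuationSubring.valuation_le_one_iff, h2]

end Pool.Agent.MUXI
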