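import Pool.Agent.MUX.StIX
import Pool.Agent.MUX.J_LAY
import Pool.Agent.MU3.I_ILAY

/-!
# MUX, block IX, module LAY: the layer is the real subfield of a cyclotomic field
-/

set_option autoImplicit false

namespace Pool.Agent.MUXI

open _root_.MU3 Pool.Agent.MU3 Pool.Agent.MU3A Pool.Agent.MU3B Pool.Agent.RI Pool.Agent.RID
  Pool.Agent.MUX Pool.Agent.MUXE Pool.Agent.MUXK
open Pool.Agent.MU3I (w3 zt)

theorem ti_LAY : Si_LAY := by
  intro p n hp B hB
  rcases hp with rfl | rfl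
  · have h1 : B = Pool.Agent.MUXJ.Lay.B2 n := Pool.Agent.MUXJ.Lay.uniq2 n B hB
    have h2 : q0 2 * 2 ^ n = 2 ^ (n + 2) := by
      have h3 : q0 2 = 4 := by simp [q0]
      rw [h3, pow_add]
      ring
    rw [h2]
    exact h1
  · have h1 := Pool.Agent.MU3I.t_ILAY n B hB
    have h2 : q0 3 * 3 ^ n = 3 ^ (n + 1) := by
      have h3 : q0 3 = 3 := by simp [q0]
      rw [h3, pow_succ]
      ring
    rw [h2]
    exact h1

end Pool.Agent.MUXI
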