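import Pool.Agent.MUX.StIX

/-!
# MUX, block IX: the ideals `P`, `cjI P`, `(f)` (module PQF)
-/

set_option autoImplicit false

namespace Pool.Agent.MUXI

open _root_.MU3 Pool.Agent.MU3 Pool.Agent.MU3A Pool.Agent.MU3B Pool.Agent.RI Pool.Agent.RID
  Pool.Agent.MUX Pool.Agent.MUXE Pool.Agent.MUXK
open Pool.Agent.MU3I (w3 zt)

noncomputable section

namespace PQFaux

variable {A B : ℤ}

lemma int_dvd (n c : ℤ) : ((n : ℤ) : OO A B) ∣ ((c : ℤ) : OO A B) ↔ n ∣ c := by
  constructor
  · rintro ⟨y, hy⟩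
    have h1 := congrArg QuadraticAlgebra.re hy
    simp at h1
    exact ⟨y.re, h1⟩
  · rintro ⟨y, rfl⟩
    exact ⟨(y : OO A B), by push_cast; ring⟩

lemma re_int (c : ℤ) : ((c : ℤ) : OO A B).re = c := by simp

lemma im_int (c : ℤ) : ((c : ℤ) : OO A B).im = 0 := by simp

lemma trace (y : OO A B) : ∃ t : ℤ, y + star y = ((t : ℤ) : OO A B) := by
  refine ⟨2 * y.re + B * y.im, ?_⟩
  apply QuadraticAlgebra.ext
  · rw [re_int, QuadraticAlgebra.re_add, QuadraticAlgebra.re_star]
    ring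
  · rw [im_int, QuadraticAlgebra.im_add, QuadraticAlgebra.im_star]
    ring

lemma star_int (c : ℤ) : star ((c : ℤ) : OO A B) = (c : OO A B) := by simp

lemma mem_cjI (P : Ideal (OO A B)) (x : OO A B) : x ∈ cjI P ↔ star x ∈ P := Iff.rfl

lemma cop_mono {R : Type} [CommRing R] {I J K : Ideal R} (h : IsCoprime I J) (hJK : J ≤ K) :
    IsCoprime I K := by
  rw [Ideal.isCoprime_iff_exists] at h ⊢
  obtain ⟨i, hi, j, hj, hij⟩ := h
  exact ⟨i, hi, j, hJK hj, hij⟩

end PQFaux

open PQFaux in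
theorem ti_PQF (h2 : Pool.Agent.MUXF.Sx_IDL) : Si_PQF := by
  intro p A B P V f hS
  have hpp : p = 3 ∨ p = 2 := by
    rcases hS.case.split with h | h
    · exact Or.inl h.1
    · exact Or.inr h.1
  have hprime : p.Prime := by
    rcases hpp with rfl | rfl <;> norm_num
  have hPp : P.IsPrime := hS.hP.prime
  have hpP : ((p : ℕ) : OO A B) ∈ P := hS.hP.mem
  have h1P : (1 : OO A B) ∉ P := fun h => hPp.ne_top ((Ideal.eq_top_iff_one P).2 h)
  have hp0 : p ≠ 0 := hprime.ne_zero
  -- integers in `P`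
  have hint : ∀ c : ℤ, (c : OO A B) ∈ P ↔ (p : ℤ) ∣ c := by
    intro c
    constructor
    · intro hc
      by_contra hpc
      have hcop : IsCoprime (p : ℤ) c :=
        (Int.prime_iff_natAbs_prime.2 (by simpa using hprime)).coprime_iff_not_dvd.2 hpc
      obtain ⟨u, v, huv⟩ := hcop
      apply h1P
      have h3 : ((u : ℤ) : OO A B) * (p : ℕ) + (v : ℤ) * (c : ℤ) = 1 := by
        have := congrArg (Int.cast : ℤ → OO A B) huv
        push_cast at this
        exact this
      rw [← h3]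
      exact P.add_mem (P.mul_mem_left _ hpP) (P.mul_mem_left _ hc)
    · rintro ⟨y, rfl⟩
      push_cast
      exact P.mul_mem_right _ hpP
  -- `P ≠ ⊥`
  have hPb : P ≠ ⊥ := by
    rintro rfl
    rw [Ideal.mem_bot] at hpP
    have h3 : ((p : ℤ) : OO A B) = 0 := by exact_mod_cast hpP
    have h4 := congrArg QuadraticAlgebra.re h3
    rw [re_int] at h4
    simp at h4
    exact hp0 h4
  have hnorm : Nat.card (OO A B ⧸ P) = p := hS.hP.norm
  -- every class modulo `P` contains an integer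
  have hcls : ∀ x : OO A B, ∃ c : Fin p, x - ((c : ℕ) : OO A B) ∈ P := by
    have hfin : Finite (OO A B ⧸ P) := Nat.finite_of_card_ne_zero (by rw [hnorm]; exact hp0)
    let φ : Fin p → OO A B ⧸ P := fun c => Ideal.Quotient.mk P ((c : ℕ) : OO A B)
    have hφ : Function.Injective φ := by
      intro c c' hcc
      have h3 : ((c : ℕ) : OO A B) - ((c' : ℕ) : OO A B) ∈ P := Ideal.Quotient.eq.1 hcc
      have h4 : (((c : ℕ) - (c' : ℕ) : ℤ) : OO A B) ∈ P := by
        push_cast
        exact h3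
      rw [hint] at h4
      obtain ⟨y, hy⟩ := h4
      have hc := c.2
      have hc' := c'.2
      have hy0 : y = 0 := by
        by_contra hne
        rcases lt_or_gt_of_ne hne with h | h <;> nlinarith
      rw [hy0] at hy
      apply Fin.ext
      omega
    have hb := hφ.bijective_of_nat_card_le (by rw [hnorm]; simp)
    intro x
    obtain ⟨c, hc⟩ := hb.2 (Ideal.Quotient.mk P x)
    exact ⟨c, Ideal.Quotient.eq.1 hc.symm⟩
  have hthree : ∀ x : OO A B, x ∈ P ∨ x - 1 ∈ P ∨ x + 1 ∈ P := by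
    intro x
    obtain ⟨c, hc⟩ := hcls x
    have hc2 := c.2
    obtain ⟨c', hc'⟩ : ∃ c' : ℕ, c' = (c : ℕ) := ⟨_, rfl⟩
    rw [← hc'] at hc
    have hc3 : c' = 0 ∨ c' = 1 ∨ (c' = 2 ∧ p = 3) := by omega
    rcases hc3 with rfl | rfl | ⟨rfl, rfl⟩
    · left; simpa using hc
    · right; left; simpa using hc
    · right; right
      have h3 := P.add_mem hc hpP
      have h4 : x - ((2 : ℕ) : OO A B) + ((3 : ℕ) : OO A B) = x + 1 := by push_cast; ring
      rwa [h4] at h3
  -- the product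
  have hPQ : P * cjI P = idl (A := A) (B := B) p := by
    have h3 := (h2 A B ⟨hS.case.hB, hS.case.neg, hS.case.fund1, hS.case.fund0⟩ P hPb).2
    have h4 : MUXF.nI P = p := hnorm
    rw [h4] at h3
    exact h3
  -- coprime
  have hcop : IsCoprime P (cjI P) := by
    obtain ⟨c, hc⟩ := hcls (⟨0, 1⟩ : OO A B)
    obtain ⟨k, hk⟩ : ∃ k : ℤ, k = ((c : ℕ) : ℤ) := ⟨_, rfl⟩
    have hc' : (⟨0, 1⟩ : OO A B) - ((k : ℤ) : OO A B) ∈ P := by
      rw [hk]
      simpa using hc
    set y : OO A B := (⟨0, 1⟩ : OO A B) - ((k : ℤ) : OO A B) with hy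
    have hyre : y.re = -k := by simp [hy]
    have hyim : y.im = 1 := by simp [hy]
    have hnm : y * star y = ((k ^ 2 - B * k - A : ℤ) : OO A B) := by
      apply QuadraticAlgebra.ext
      · rw [re_int, QuadraticAlgebra.re_mul, QuadraticAlgebra.re_star, QuadraticAlgebra.im_star,
          hyre, hyim]
        ring
      · rw [im_int, QuadraticAlgebra.im_mul, QuadraticAlgebra.re_star, QuadraticAlgebra.im_star,
          hyre, hyim]
        ring
    have hdvd : (p : ℤ) ∣ k ^ 2 - B * k - A := by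
      rw [← hint, ← hnm]
      exact P.mul_mem_right _ hc'
    have htr : y + star y = ((B - 2 * k : ℤ) : OO A B) := by
      apply QuadraticAlgebra.ext
      · rw [re_int, QuadraticAlgebra.re_add, QuadraticAlgebra.re_star, hyre, hyim]
        ring
      · rw [im_int, QuadraticAlgebra.im_add, QuadraticAlgebra.im_star]
        ring
    have hpD : (p : ℤ) ∣ B ^ 2 + 4 * A - 1 := by
      rcases hS.case.split with ⟨rfl, h⟩ | ⟨rfl, h⟩
      · exact_mod_cast h
      · exact (by norm_num : ((2 : ℕ) : ℤ) ∣ 8).trans h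
    -- `B - 2 k` is prime to `p`
    have hu : (p : ℤ) ∣ (B - 2 * k) ^ 2 - 1 := by
      have h3 : (B - 2 * k) ^ 2 - 1 = (B ^ 2 + 4 * A - 1) + 4 * (k ^ 2 - B * k - A) := by ring
      rw [h3]
      exact dvd_add hpD (hdvd.mul_left _)
    obtain ⟨r, hr⟩ := hu
    rw [Ideal.isCoprime_iff_exists]
    refine ⟨((B - 2 * k : ℤ) : OO A B) * y - ((r : ℤ) : OO A B) * ((p : ℕ) : OO A B), ?_,
      ((B - 2 * k : ℤ) : OO A B) * star y, ?_, ?_⟩
    · exact P.sub_mem (P.mul_mem_left _ hc') (P.mul_mem_left _ hpP)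
    · refine (cjI P).mul_mem_left _ ?_
      rw [mem_cjI, star_star]
      exact hc'
    · have h4 : ((((B - 2 * k) ^ 2 - 1 : ℤ)) : OO A B) = (((p : ℤ) * r : ℤ) : OO A B) := by
        rw [hr]
      push_cast at h4 htr ⊢
      linear_combination ((B : OO A B) - 2 * k) * htr + h4
  have hpQ : ((p : ℕ) : OO A B) ∈ cjI P := by
    rw [mem_cjI]
    have h3 : star ((p : ℕ) : OO A B) = ((p : ℕ) : OO A B) := by simp
    rw [h3]
    exact hpP
  -- `(f)`
  have hfp : IsCoprime (f : ℤ) (p : ℤ) := by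
    rw [Nat.isCoprime_iff_coprime]
    exact ((Nat.Prime.coprime_iff_not_dvd hprime).2 hS.fp).symm
  obtain ⟨u, v, huv⟩ := hfp
  have huv' : ((u : ℤ) : OO A B) * (f : ℕ) + (v : ℤ) * (p : ℕ) = 1 := by
    have := congrArg (Int.cast : ℤ → OO A B) huv
    push_cast at this
    exact this
  have hfI : ∀ I : Ideal (OO A B), ((p : ℕ) : OO A B) ∈ I →
      IsCoprime (idl (A := A) (B := B) f) I := by
    intro I hI
    rw [Ideal.isCoprime_iff_exists]
    exact ⟨_, Ideal.mul_mem_left _ _ (Ideal.subset_span rfl), _, I.mul_mem_left _ hI, huv'⟩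
  have hfP := hfI P hpP
  have hfQ := hfI (cjI P) hpQ
  have hq0 : q0 p = p ∨ q0 p = p ^ 2 := by
    rcases hpp with rfl | rfl <;> simp [q0]
  have hpow : ∀ n : ℕ, ∃ k : ℕ, q0 p * p ^ n = p ^ (k + 1) := by
    intro n
    rcases hq0 with h | h
    · exact ⟨n, by rw [h]; ring⟩
    · exact ⟨n + 1, by rw [h]; ring⟩
  have h8 : ∀ (n : ℕ) (x : OO A B), IsCoprime x ((lvX p f n : ℕ) : OO A B) ↔
      x ∉ P ∧ IsCoprime (sp x) (idl f * cjI P) := by
    intro n x
    obtain ⟨k, hk⟩ := hpow n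
    have hlv : ((lvX p f n : ℕ) : OO A B) = ((f : ℕ) : OO A B) * ((p : ℕ) : OO A B) ^ (k + 1) := by
      unfold lvX
      rw [mul_assoc, hk]
      push_cast
      ring
    rw [hlv]
    constructor
    · intro h
      constructor
      · intro hx
        obtain ⟨a, b, hab⟩ := h
        apply h1P
        rw [← hab]
        refine P.add_mem (P.mul_mem_left _ hx) (P.mul_mem_left _ (P.mul_mem_left _ ?_))
        rw [pow_succ]
        exact P.mul_mem_left _ hpP
      · have h3 : IsCoprime (sp x)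
            (sp (((f : ℕ) : OO A B) * ((p : ℕ) : OO A B) ^ (k + 1))) :=
          (Ideal.isCoprime_span_singleton_iff _ _).2 h
        refine cop_mono h3 ?_
        rw [Ideal.span_singleton_le_iff_mem]
        refine Ideal.mul_mem_mul (Ideal.subset_span rfl) ?_
        rw [pow_succ]
        exact (cjI P).mul_mem_left _ hpQ
    · rintro ⟨hx, h⟩
      have h3 : IsCoprime (sp x) (sp ((f : ℕ) : OO A B)) := cop_mono h Ideal.mul_le_left
      have h4 : IsCoprime (sp x) (cjI P) := cop_mono h Ideal.mul_le_right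
      have h5 : IsCoprime (sp x) P := by
        rw [Ideal.isCoprime_iff_exists]
        rcases hthree x with h6 | h6 | h6
        · exact absurd h6 hx
        · exact ⟨x, Ideal.subset_span rfl, _, P.neg_mem h6, by ring⟩
        · exact ⟨-x, neg_mem (Ideal.subset_span rfl), _, h6, by ring⟩
      have h6 : IsCoprime (sp x) (sp ((p : ℕ) : OO A B)) := by
        have := h5.mul_right h4
        rwa [hPQ] at this
      have h7 : IsCoprime x ((p : ℕ) : OO A B) := (Ideal.isCoprime_span_singleton_iff _ _).1 h6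
      have h8 : IsCoprime x ((f : ℕ) : OO A B) := (Ideal.isCoprime_span_singleton_iff _ _).1 h3
      exact h8.mul_right (h7.pow_right)
  have h9 : ∀ x : OO A B, IsCoprime (sp x) (idl f * cjI P) → ∃ x' : OO A B,
      x' - x ∈ idl f * cjI P ∧ IsCoprime x' ((lvX p f 0 : ℕ) : OO A B) := by
    intro x hx
    have h3 : IsCoprime (idl (A := A) (B := B) f * cjI P) P := hfP.mul_left hcop.symm
    rw [Ideal.isCoprime_iff_exists] at h3
    obtain ⟨a, ha, b, hb, hab⟩ := h3
    have h4 : x + a * (1 - x) - x ∈ idl (A := A) (B := B) f * cjI P := by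
      have : x + a * (1 - x) - x = a * (1 - x) := by ring
      rw [this]
      exact Ideal.mul_mem_right _ _ ha
    refine ⟨x + a * (1 - x), h4, (h8 0 _).2 ⟨?_, ?_⟩⟩
    · intro h5
      apply h1P
      have h6 : (1 : OO A B) = (x + a * (1 - x)) + (1 - x) * b := by
        linear_combination (x - 1) * hab
      rw [h6]
      exact P.add_mem h5 (P.mul_mem_left _ hb)
    · rw [Ideal.isCoprime_iff_exists] at hx ⊢
      obtain ⟨i, hi, j, hj, hij⟩ := hx
      obtain ⟨r, rfl⟩ := Ideal.mem_span_singleton.1 hi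
      refine ⟨(x + a * (1 - x)) * r, Ideal.mul_mem_right _ _ (Ideal.subset_span rfl),
        j - (x + a * (1 - x) - x) * r, Ideal.sub_mem _ hj (Ideal.mul_mem_right _ _ h4), ?_⟩
      linear_combination hij
  refine ⟨hthree, h1P, hint, hPQ, hcop, hfP, hfQ, h8, h9, ?_⟩
  -- the case `p = 2`
  rintro rfl
  have h4P : ((4 : ℤ) : OO A B) ∈ P ^ 2 := by
    have h3 : ((4 : ℤ) : OO A B) = ((2 : ℕ) : OO A B) * ((2 : ℕ) : OO A B) := by
      push_cast
      norm_num
    rw [h3, pow_two]
    exact Ideal.mul_mem_mul hpP hpP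
  have hstarP : ∀ x ∈ P ^ 2, star x ∈ (cjI P) ^ 2 := by
    intro x hx
    have h3 : P ^ 2 ≤ ((cjI P) ^ 2).comap (starRingEnd (OO A B)) := by
      rw [pow_two, Ideal.mul_le]
      intro r hr s hs
      rw [Ideal.mem_comap, map_mul, pow_two]
      refine Ideal.mul_mem_mul ?_ ?_
      · change star r ∈ cjI P
        rw [mem_cjI, star_star]
        exact hr
      · change star s ∈ cjI P
        rw [mem_cjI, star_star]
        exact hs
    exact h3 hx
  have hcop2 : IsCoprime (P ^ 2) ((cjI P) ^ 2) := hcop.pow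
  have hint2 : ∀ c : ℤ, (c : OO A B) ∈ P ^ 2 ↔ (4 : ℤ) ∣ c := by
    intro c
    constructor
    · intro hc
      have h3 : (c : OO A B) ∈ (cjI P) ^ 2 := by
        have := hstarP _ hc
        rwa [star_int] at this
      have h5 : (c : OO A B) ∈ P ^ 2 * (cjI P) ^ 2 := by
        rw [Ideal.mul_eq_inf_of_coprime (Ideal.isCoprime_iff_sup_eq.1 hcop2)]
        exact ⟨hc, h3⟩
      rw [← mul_pow, hPQ, Ideal.span_singleton_pow, Ideal.mem_span_singleton] at h5
      have h6 : ((2 : ℕ) : OO A B) ^ 2 = ((4 : ℤ) : OO A B) := by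
        push_cast
        norm_num
      rw [h6, int_dvd] at h5
      exact h5
    · rintro ⟨y, rfl⟩
      rw [Int.cast_mul]
      exact Ideal.mul_mem_right _ _ h4P
  refine ⟨?_, hint2⟩
  intro x hx
  obtain ⟨a, ha, b, hb, hab⟩ := Ideal.isCoprime_iff_exists.1 hcop2
  obtain ⟨t, ht⟩ := trace (x * b)
  have hsb : star (x * b) ∈ P ^ 2 := by
    have h3 : star b ∈ P ^ 2 := by
      have h5 : (cjI P) ^ 2 ≤ (P ^ 2).comap (starRingEnd (OO A B)) := by
        rw [pow_two, Ideal.mul_le]
        intro r hr s hs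
        rw [Ideal.mem_comap, map_mul, pow_two]
        exact Ideal.mul_mem_mul hr hs
      exact h5 hb
    rw [star_mul']
    exact Ideal.mul_mem_left _ _ h3
  have hxt : x - ((t : ℤ) : OO A B) ∈ P ^ 2 := by
    have h3 : x - ((t : ℤ) : OO A B) = x * a - star (x * b) := by
      rw [← ht]
      linear_combination (-x) * hab
    rw [h3]
    exact Ideal.sub_mem _ (Ideal.mul_mem_left _ _ ha) hsb
  have hP2 : P ^ 2 ≤ P := Ideal.pow_le_self (by norm_num)
  have htodd : ¬ ((2 : ℕ) : ℤ) ∣ t := by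
    intro h3
    apply hx
    have h5 := P.add_mem (hP2 hxt) ((hint t).2 h3)
    rwa [sub_add_cancel] at h5
  have ht4 : (4 : ℤ) ∣ t - 1 ∨ (4 : ℤ) ∣ t + 1 := by
    push_cast at htodd
    omega
  rcases ht4 with h3 | h3
  · left
    have h5 := Ideal.add_mem _ hxt ((hint2 _).2 h3)
    have h6 : x - ((t : ℤ) : OO A B) + ((t - 1 : ℤ) : OO A B) = x - 1 := by push_cast; ring
    rwa [h6] at h5
  · right
    have h5 := Ideal.add_mem _ hxt ((hint2 _).2 h3)
    have h6 : x - ((t : ℤ) : OO A B) + ((t + 1 : ℤ) : OO A B) = x + 1 := by push_cast; ring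
    rwa [h6] at h5

end

end Pool.Agent.MUXI
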