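import Pool.Agent.MUX.StIX

/-!
# Module SUB: the fields `K B_n` are contained in the ray class fields
-/

set_option autoImplicit false

namespace Pool.Agent.MUXI

open _root_.MU3 Pool.Agent.MU3 Pool.Agent.MU3A Pool.Agent.MU3B Pool.Agent.RI Pool.Agent.RID
  Pool.Agent.MUX Pool.Agent.MUXE Pool.Agent.MUXK
open Pool.Agent.MU3I (w3 zt)

namespace IxSUB

theorem zt_pow (M : ℕ) (h : M ≠ 0) : zt M ^ M = 1 := by
  unfold Pool.Agent.MU3I.zt
  exact (Complex.isPrimitiveRoot_exp M h).pow_eq_one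

theorem q0_ne {p : ℕ} (h : p = 2 ∨ p = 3) : q0 p ≠ 0 := by
  rcases h with rfl | rfl <;> simp [q0]

theorem idl_ne {A B : ℤ} {M : ℕ} (h : M ≠ 0) : idl (A := A) (B := B) M ≠ ⊥ := by
  rw [ne_eq, Ideal.span_singleton_eq_bot]
  exact_mod_cast h

theorem idl_le {A B : ℤ} {M N : ℕ} (h : M ∣ N) : idl (A := A) (B := B) N ≤ idl M := by
  rw [Ideal.span_singleton_le_span_singleton]
  obtain ⟨c, rfl⟩ := h
  exact ⟨c, by push_cast; ring⟩

end IxSUB

open IxSUB

/-- Module SUB. -/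
theorem ti_SUB (h1 : Si_LAY) (h2 : Si_IAF) : Si_SUB := by
  intro p A B P V f hS hT hL K hK n Bn hlay
  have hp : p = 2 ∨ p = 3 := by
    rcases hS.case.split with h | h
    · exact Or.inr h.1
    · exact Or.inl h.1
  have hp0 : p ≠ 0 := by rcases hp with rfl | rfl <;> norm_num
  have hM : q0 p * p ^ n ≠ 0 := Nat.mul_ne_zero (q0_ne hp) (pow_ne_zero n hp0)
  have hlv : lvX p f n = f * (q0 p * p ^ n) := by unfold lvX; ring
  have hlv0 : lvX p f n ≠ 0 := by
    rw [hlv]; exact Nat.mul_ne_zero hS.f0 hM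
  have hm := idl_ne (A := A) (B := B) hlv0
  have hle : idl (A := A) (B := B) (lvX p f n) ≤ idl (q0 p * p ^ n) :=
    idl_le ⟨f, by rw [hlv]; ring⟩
  have hle0 : idl (A := A) (B := B) (lvX p f n) ≤ idl (lvX p f 0) :=
    idl_le ⟨p ^ n, by unfold lvX; ring⟩
  obtain ⟨i1, -, -, -, -, -, -, i8⟩ := h2 A B hS.case.toCQ hT hL _ hm
  obtain ⟨a, ha⟩ := i1 (RingEquiv.refl ℂ) rfl
  have hz := (i8 (q0 p * p ^ n) (RingEquiv.refl ℂ) a (zt (q0 p * p ^ n)) hM hle ha
    (zt_pow _ hM)).1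
  have hBn : Bn ≤ IntermediateField.restrictScalars ℚ (RF (idl (A := A) (B := B) (lvX p f n))) := by
    rw [h1 p n hp Bn hlay, IntermediateField.adjoin_le_iff]
    intro x hx
    rw [Set.mem_singleton_iff] at hx
    rw [hx]
    exact add_mem hz (inv_mem hz)
  have hK' : K ≤ IntermediateField.restrictScalars ℚ (RF (idl (A := A) (B := B) (lvX p f n))) := by
    intro x hx
    exact hT.mono _ _ hle0 (hK x hx)
  intro y hy
  exact (sup_le hK' hBn) hy

end Pool.Agent.MUXI
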