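import Pool.Agent.NS.I_XMX

/-!
# MUX, block IX: module XMX, the sets `XX` satisfy `XM`

The general version (no condition on the decomposition of `p`) is helper84's `Pool.Agent.NSI.tn_XMX`.
-/

set_option autoImplicit false

namespace Pool.Agent.MUXI

open _root_.MU3 Pool.Agent.MU3 Pool.Agent.MU3A Pool.Agent.MU3B Pool.Agent.RI Pool.Agent.RID
  Pool.Agent.MUX Pool.Agent.MUXK
open Pool.Agent.MU3I (w3 zt)

noncomputable section

theorem ti_XMX (h1 : Si_XXF) (h2 : Si_ARF) (h3 : Si_LAY) : Si_XMX := by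
  intro p A B P V f hS hT ι R K Bn n h hL hy hG γ hγ
  exact Pool.Agent.NSI.tn_XMX h1 h2 h3 p A B f (Pool.Agent.NSI.setL_P hS) hT ι R K Bn n h hL hy hG γ hγ

end

end Pool.Agent.MUXI
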