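import Pool.Agent.MUX.XFAll
import Pool.Agent.MUX.UAll
import Pool.Agent.MUX.YAll
import Pool.Agent.MUX.KAllX
import Pool.Agent.MUX.JAll
import Pool.Agent.MUX.I_HFX
import Pool.Agent.MUX.I_CHI
import Pool.Agent.MUX.I_FOU
import Pool.Agent.MUX.I_PQF
import Pool.Agent.MUX.I_EPS3
import Pool.Agent.MUX.I_EPS2
import Pool.Agent.MUX.I_IAF
import Pool.Agent.MUX.I_IAG
import Pool.Agent.MUX.I_RPR
import Pool.Agent.MUX.I_HIT
import Pool.Agent.MUX.I_ARF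
import Pool.Agent.MUX.I_XXF
import Pool.Agent.MUX.I_E0
import Pool.Agent.MUX.I_LAY
import Pool.Agent.MUX.I_SUB
import Pool.Agent.MUX.I_GAM
import Pool.Agent.MUX.I_XMX
import Pool.Agent.MUX.I_BIJ
import Pool.Agent.MUX.I_PTP
import Pool.Agent.MUX.I_TSH
import Pool.Agent.MUX.I_TH
import Pool.Agent.MUX.I_GEN
import Pool.Agent.MUX.I_I3

/-!
# MUX, block IX: all statements of `StIX.lean` (helper36). The only input is `Sy_HFX` (block H)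
-/

set_option autoImplicit false

namespace Pool.Agent.MUXI

open Pool.Agent.MUXF Pool.Agent.MUXU Pool.Agent.MUXY Pool.Agent.MUXK

theorem i_HFX : Si_HFX := ti_HFX
theorem i_CHI : Si_CHI := ti_CHI
theorem i_FOU : Si_FOU := ti_FOU i_HFX
theorem i_PQF : Si_PQF := ti_PQF xf_IDL
theorem i_EPS3 : Si_EPS3 := ti_EPS3 i_PQF xf_ALG
theorem i_EPS2 : Si_EPS2 := ti_EPS2
theorem i_IAF : Si_IAF := ti_IAF u_DET
theorem i_IAG : Si_IAG := ti_IAG i_IAF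
theorem i_RPR : Si_RPR := ti_RPR xf_ALG xf_IDL xf_NIM
theorem i_HIT : Si_HIT := ti_HIT i_IAF i_IAG i_RPR y_MUI y_UNJ xf_ALG
theorem i_ARF : Si_ARF := ti_ARF i_IAF i_IAG
theorem i_XXF : Si_XXF := ti_XXF i_HIT i_ARF i_RPR i_IAF
theorem i_E0 : Si_E0 := ti_E0 i_ARF xf_NIM
theorem i_LAY : Si_LAY := ti_LAY
theorem i_SUB : Si_SUB := ti_SUB i_LAY i_IAF
theorem i_GAM : Si_GAM := ti_GAM i_LAY k_GENX
theorem i_XMX : Si_XMX := ti_XMX i_XXF i_ARF i_LAY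
theorem i_BIJ : Si_BIJ := ti_BIJ k_GALX
theorem i_PTP : Si_PTP := ti_PTP
theorem i_TSH : Si_TSH := ti_TSH i_PTP i_PQF xf_ALG
theorem i_TH : Si_TH := ti_TH i_TSH i_PQF
theorem i_GEN : Si_GEN := ti_GEN k_GALX

/-- the result of block IX -/
theorem i_I3 (hH : Pool.Agent.MUXHY.Sy_HFX) : Si_I3 :=
  ti_I3 i_HFX i_CHI i_FOU i_EPS3 i_EPS2 i_ARF i_XXF i_E0 i_SUB i_GAM i_XMX i_BIJ i_TH i_GEN y_ALM hH

end Pool.Agent.MUXI
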