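import Pool.Agent.MUX.RQAll
import Pool.Agent.MUX.W_ACM
import Pool.Agent.MUX.W_KER
import Pool.Agent.MUX.W_THC
import Pool.Agent.MUX.W_THG
import Pool.Agent.MUX.W_GRB
import Pool.Agent.MUX.W_INV
import Pool.Agent.MUX.W_FRH
import Pool.Agent.MUX.W_MEM
import Pool.Agent.MUX.W_TOW
import Pool.Agent.MUX.W_HIT
import Pool.Agent.MUX.W_CXW
import Pool.Agent.MUX.W_CXS
import Pool.Agent.MUX.W_SUC
import Pool.Agent.MUX.W_DIS
import Pool.Agent.MUX.W_NRM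
import Pool.Agent.MUX.W_I1
import Pool.Agent.MUX.W_PRQ
import Pool.Agent.MUX.W_FRD
import Pool.Agent.MUX.W_URA
import Pool.Agent.MUX.W_KOL

/-!
# MUX, block W: all statements of `StWX.lean`, `StWX2.lean`, without hypotheses (helper59)

Every statement except `Sy_URA`, `Sy_MEM`, `Sy_TOW`, `Sy_ACM`, `Sy_INV`, `Sy_PRQ`, `Sy_THC` has `TorX A B` as a
hypothesis inside.
-/

set_option autoImplicit false

namespace Pool.Agent.MUXW

open Pool.Agent.MU3B Pool.Agent.MUXU Pool.Agent.MUXV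

theorem y_ACM : Sy_ACM := ty_ACM q_EMB
theorem y_KER : Sy_KER := ty_KER q_EMB
theorem y_THC : Sy_THC := ty_THC u_PHI u_TSN
theorem y_THG : Sy_THG := ty_THG y_THC u_AUE u_AUF
theorem y_GRB : Sy_GRB := ty_GRB x_NGR q_ALU
theorem y_INV : Sy_INV := ty_INV q_EMB
theorem y_FRH : Sy_FRH := ty_FRH q_EMB u_DET q_FRX q_VQI q_ALU q_TOR q_CYQ q_DGI q_DGL y_GRB y_KER
  y_ACM
theorem y_MEM : Sy_MEM := ty_MEM
theorem y_TOW : Sy_TOW := ty_TOW y_MEM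
theorem y_HIT : Sy_HIT := ty_HIT q_EMB u_DET
theorem y_CXW : Sy_CXW := ty_CXW y_HIT y_THG u_DET q_EMB
theorem y_CXS : Sy_CXS := ty_CXS y_HIT y_THG
theorem y_SUC : Sy_SUC := ty_SUC Pool.Agent.MU3V.tv_EXT q_THU q_TOR q_EMB y_GRB u_AUE
theorem y_DIS : Sy_DIS := ty_DIS b_TDI b_TIN y_THG y_KER q_EMB
theorem y_NRM : Sy_NRM := ty_NRM y_DIS y_KER y_ACM y_THG q_EMB
theorem y_I1 : Sy_I1 := ty_I1 y_NRM y_MEM
theorem y_PRQ : Sy_PRQ := ty_PRQ q_EMB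
theorem y_FRD : Sy_FRD := ty_FRD y_FRH y_PRQ y_MEM Pool.Agent.MU3V.tw_LOC Pool.Agent.MU3V.tv_EXT
theorem y_URA : Sy_URA := ty_URA
theorem y_KOL : Sy_KOL := ty_KOL y_ACM y_KER y_THG y_GRB y_INV y_DIS y_PRQ y_FRD y_URA

end Pool.Agent.MUXW
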