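import Pool.Agent.MUX.StXC

/-!
# MUX, block XC, module CMP (helper91): the field `comp` of `TorX`
-/

set_option autoImplicit false

namespace Pool.Agent.MUXC

open _root_.MU3 Pool.Agent.MU3A Pool.Agent.MU3B Pool.Agent.MUX Pool.Agent.MUXU Pool.Agent.RI

noncomputable section

namespace CMP

/-- composition of `PM` -/
theorem pm_trans (σ τ : ℂ ≃+* ℂ) (L L' L'' : PeriodPair) (z z' z'' : ℂ) (h1 : PM σ L L' z z')
    (h2 : PM τ L' L'' z' z'') : PM (σ.trans τ) L L'' z z'' := by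
  rcases h1 with ⟨a1, a2⟩ | ⟨a1, a2, a3, a4⟩
  · rcases h2 with ⟨_, b2⟩ | ⟨b1, _⟩
    · exact Or.inl ⟨a1, b2⟩
    · exact absurd a2 b1
  · rcases h2 with ⟨b1, _⟩ | ⟨_, b2, b3, b4⟩
    · exact absurd b1 a2
    · refine Or.inr ⟨a1, b2, ?_, ?_⟩
      · show τ (σ (xn L z)) = _
        rw [a3, b3]
      · show τ (σ (yy L z)) = _
        rw [a4, b4]

end CMP

open CMP in
theorem tc_CMP : Sc_CMP := by
  intro A B hC m a b σ τ L L' L'' mu nu h1 h2
  have key : ∀ (y : OO A B) (z : ℂ), emb y * (mu * z) ∈ L'.lattice ↔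
      ∀ x ∈ a, emb (x * y) * z ∈ L.lattice := by
    intro y z
    have e : emb y * (mu * z) = mu * (emb y * z) := by ring
    rw [e, h1.isq.2]
    refine forall₂_congr fun x _ => ?_
    rw [emb_mul hC, mul_assoc]
  refine ⟨?_, ?_, ⟨mul_ne_zero h2.isq.1 h1.isq.1, fun z => ?_⟩, fun z hz => ?_⟩
  · show kap L'' = τ (σ (kap L))
    rw [h2.kap, h1.kap]
  · exact IsCoprime.mul_left h1.cop h2.cop
  · rw [mul_assoc, h2.isq.2]
    constructor
    · intro h t ht
      refine Submodule.mul_induction_on ht (fun x hx y hy => ?_) (fun x y hx hy => ?_)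
      · exact (key y z).1 (h y hy) x hx
      · rw [MUX.emb_add hC, add_mul]
        exact add_mem hx hy
    · intro h y hy
      exact (key y z).2 fun x hx => h _ (Ideal.mul_mem_mul hx hy)
  · rw [mul_assoc]
    refine pm_trans σ τ L L' L'' z (mu * z) _ (h1.act z hz) (h2.act _ ?_)
    intro y hy
    exact (key y z).2 fun x _ => hz _ (m.mul_mem_left x hy)

end

end Pool.Agent.MUXC
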