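import Pool.Agent.MUX.StXC

/-!
# MUX, block XC, module NRL: the conjugate lattice is normalised
-/

set_option autoImplicit false

open Polynomial NumberField IsDedekindDomain

namespace Pool.Agent.MUXC

open _root_.MU3 Pool.Agent.MU3A Pool.Agent.MU3B Pool.Agent.MUX Pool.Agent.MUXU Pool.Agent.RI
open Pool.Agent.MUXE (NL Sxe_RNG)

noncomputable section

theorem tc_NRL (h1 : Sc_GEN) : Sc_NRL := by
  intro A B hQ m a σ b L L' om mu hm hmt hL hA
  obtain ⟨u, hu, hum, -⟩ := h1 A B hQ b m L om hL.toIsLI hm
  have huL : u ∉ L.lattice := by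
    intro hc
    apply hmt
    rw [Ideal.eq_top_iff_one, ← hum 1]
    have e : emb (1 : OO A B) = 1 := emb_one hQ
    rw [e, one_mul]
    exact hc
  rcases hA.act u hu with ⟨h2, -⟩ | ⟨-, huL', hx, hy⟩
  · exact absurd h2 huL
  have hg2 : L'.g₂ = σ L.g₂ := by
    have h3 := hA.kap
    unfold kap at h3
    rw [map_div₀, map_sub, map_mul, map_one, map_ofNat, map_ofNat] at h3
    linear_combination 144 * h3
  have hP : L'.weierstrassP (mu * u) = σ (L.weierstrassP u) := by
    unfold xn at hx
    rw [map_sub, map_div₀, map_one, map_ofNat] at hx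
    linear_combination -hx
  have hP' : L'.derivWeierstrassP (mu * u) = σ (L.derivWeierstrassP u) := by
    unfold yy at hy
    rw [map_div₀, map_ofNat] at hy
    linear_combination -2 * hy
  have e1 := L.derivWeierstrassP_sq u huL
  have e2 := L'.derivWeierstrassP_sq (mu * u) huL'
  have e3 := congrArg σ e1
  have hg3 : L'.g₃ = σ L.g₃ := by
    rw [hP, hP', hg2] at e2
    simp only [map_pow, map_sub, map_mul, map_ofNat] at e3
    linear_combination e2 - e3
  refine ⟨?_, hg2, hg3⟩
  rw [hg2, hg3, hL.nrm, map_mul, map_neg, map_ofNat]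

end

end Pool.Agent.MUXC
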