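import Pool.Agent.MU3.ADefs
import Pool.Agent.MU3.StB2
import Pool.Agent.MU3.VCong

/-!
# MUX: common definitions (helper3). See `PAPER_X.md`.

`k` any imaginary quadratic field in which `3` splits (`CaseX`; `CaseP p`: `p = 2` or `3` splits; `CQ`: no
condition), `O = ℤ[w]` its ring of integers,
`w ^ 2 = A + B w`. `OO A B`, `emb`, `wC`, `nm`, `absD`, `IsEps`, `IsSym`, `hecke`, `sgnPart`, `sumMod` are
those of `Pool/Agent/MU3/Base.lean` (their definitions do not need `Case A B`); `kk A B`, `ek`, `yy` those of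
`ADefs.lean`; `IsHalf`, `ThetaH`, `ee` (block B) are for arbitrary lattices.
-/

set_option autoImplicit false

namespace Pool.Agent.MUX

open _root_.MU3 Pool.Agent.MU3A Pool.Agent.MU3B Polynomial OnePoint

noncomputable section

/-! ## The ring and its ideals -/

/-- `O = ℤ[w]`, `w² = A + B w`, is the ring of integers of an imaginary quadratic field. -/
structure CQ (A B : ℤ) : Prop where
  hB : B = 0 ∨ B = 1
  neg : B ^ 2 + 4 * A < 0
  fund1 : B = 1 → Squarefree (1 + 4 * A)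
  fund0 : B = 0 → Squarefree A ∧ ¬ (4 : ℤ) ∣ A - 1

/-- the prime `p` is `3` or `2` and splits in `k` -/
structure CaseP (p : ℕ) (A B : ℤ) : Prop extends CQ A B where
  split : (p = 3 ∧ (3 : ℤ) ∣ B ^ 2 + 4 * A - 1) ∨ (p = 2 ∧ (8 : ℤ) ∣ B ^ 2 + 4 * A - 1)

/-- the case `p = 3` -/
structure CaseX (A B : ℤ) : Prop extends CQ A B where
  three : (3 : ℤ) ∣ B ^ 2 + 4 * A - 1

lemma CaseX.caseP {A B : ℤ} (h : CaseX A B) : CaseP 3 A B :=
  { h.toCQ with split := Or.inl ⟨rfl, h.three⟩ }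

/-- the norm of an ideal -/
def nI {A B : ℤ} (b : Ideal (OO A B)) : ℕ := Nat.card (OO A B ⧸ b)

/-- the conjugate ideal -/
def cjI {A B : ℤ} (b : Ideal (OO A B)) : Ideal (OO A B) := b.comap (starRingEnd (OO A B))

/-- the principal ideal -/
abbrev sp {A B : ℤ} (x : OO A B) : Ideal (OO A B) := Ideal.span {x}

/-- `x ≡ y` modulo the ideal `m` -/
def cong {A B : ℤ} (m : Ideal (OO A B)) (x y : OO A B) : Prop := x - y ∈ m

/-- a prime ideal of norm `l`, `l` a prime number -/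
structure IsPN {A B : ℤ} (l : ℕ) (P : Ideal (OO A B)) : Prop where
  prime : P.IsPrime
  mem : ((l : ℕ) : OO A B) ∈ P
  norm : nI P = l

/-- the ideal `(l, ppi)`, of norm `l` for `l = 2, 3` in the cases `CaseP l A B`; its conjugate is `(l, 1 - w)` -/
def PPl (l : ℕ) (A B : ℤ) : Ideal (OO A B) := Ideal.span {((l : ℕ) : OO A B), ppi A B}

/-! ## Lattices with complex multiplication by `O` -/

/-- the lattice of `L` is `om * emb b` -/
structure IsLI {A B : ℤ} (b : Ideal (OO A B)) (L : PeriodPair) (om : ℂ) : Prop where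
  b_ne : b ≠ ⊥
  om_ne : om ≠ 0
  mem : ∀ z : ℂ, z ∈ L.lattice ↔ ∃ x ∈ b, z = om * emb x

/-- normalised: `c₄ = -c₆`, i.e. `g₂ = -18 g₃` -/
structure IsNL {A B : ℤ} (b : Ideal (OO A B)) (L : PeriodPair) (om : ℂ) : Prop
    extends IsLI b L om where
  nrm : L.g₂ = -18 * L.g₃

/-- `κ = 1 / (j - 1728)` of a normalised lattice -/
def kap (L : PeriodPair) : ℂ := (12 * L.g₂ - 1) / 1728

/-- `x = ℘ - 1/12`; `yy L = ℘'/2`. For a normalised lattice `y² = x³ + x²/4 - 36 κ x - κ`, and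
`Y² + x Y = x³ - 36 κ x - κ` for `Y = (℘' - x)/2` (good reduction at 2 and at 3 if `κ` is a unit). -/
def xn (L : PeriodPair) (z : ℂ) : ℂ := L.weierstrassP z - 1 / 12

/-- the curve `y² = x³ + x²/4 - 36 κ x - κ` -/
def WN (k : ℂ) : WeierstrassCurve.Affine ℂ := ⟨0, 1 / 4, 0, -36 * k, -k⟩

/-- `ξ` is the homomorphism `ℂ → E(ℂ)` given by `(xn, yy)` -/
structure IsXn (L : PeriodPair) (ξ : ℂ →+ (WN (kap L)).Point) : Prop where
  some : ∀ z ∉ L.lattice, ∃ h, ξ z = WeierstrassCurve.Affine.Point.some (xn L z) (yy L z) h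
  zero : ∀ z ∈ L.lattice, ξ z = 0

/-- the local parameter `-x/y` -/
def tn (L : PeriodPair) (z : ℂ) : ℂ := -(xn L z / yy L z)

/-- `z` is zero or in the kernel of reduction at `V` -/
def InEn (V : ValuationSubring ℂ) (L : PeriodPair) (z : ℂ) : Prop :=
  z ∈ L.lattice ∨ xn L z ∉ V

/-- `z ∈ E[m]`, `m` an ideal -/
def Tor {A B : ℤ} (m : Ideal (OO A B)) (L : PeriodPair) (z : ℂ) : Prop :=
  ∀ x ∈ m, emb x * z ∈ L.lattice

/-! ## Conjugation by automorphisms of `ℂ` -/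

/-- the automorphism `σ` of `ℂ` is trivial on `k` -/
def FixK (A B : ℤ) (σ : ℂ ≃+* ℂ) : Prop := σ (wC A B) = wC A B

/-- `σ` maps the point `z` of `ℂ / L` to the point `z'` of `ℂ / L'` (for `kap L' = σ (kap L)`) -/
def PM (σ : ℂ ≃+* ℂ) (L L' : PeriodPair) (z z' : ℂ) : Prop :=
  (z ∈ L.lattice ∧ z' ∈ L'.lattice) ∨
    (z ∉ L.lattice ∧ z' ∉ L'.lattice ∧ σ (xn L z) = xn L' z' ∧ σ (yy L z) = yy L' z')

/-- `L' = μ a⁻¹ L` -/
def IsQ {A B : ℤ} (a : Ideal (OO A B)) (L L' : PeriodPair) (mu : ℂ) : Prop :=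
  mu ≠ 0 ∧ ∀ z : ℂ, mu * z ∈ L'.lattice ↔ ∀ x ∈ a, emb x * z ∈ L.lattice

/-- `σ` acts on the points of level `m` of `ℂ / L` as the ideal `a`, with multiplier `μ`:
`L' = L^σ = μ a⁻¹ L` and `σ` maps `z` to `μ z` for `z ∈ E[m]` -/
structure ActI {A B : ℤ} (σ : ℂ ≃+* ℂ) (m a : Ideal (OO A B)) (L L' : PeriodPair) (mu : ℂ) :
    Prop where
  kap : kap L' = σ (kap L)
  cop : IsCoprime a m
  isq : IsQ a L L' mu
  act : ∀ z, Tor m L z → PM σ L L' z (mu * z)

/-- the ray class field `F_m = k(κ(L), x(z; L))`, `L` all normalised lattices with complex multiplication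
by `O`, `z ∈ E[m]` -/
def RF {A B : ℤ} (m : Ideal (OO A B)) : IntermediateField (kk A B) ℂ :=
  IntermediateField.adjoin (kk A B) {c | ∃ (b : Ideal (OO A B)) (L : PeriodPair) (om : ℂ),
    IsNL b L om ∧ (c = kap L ∨ ∃ z, Tor m L z ∧ z ∉ L.lattice ∧ c = xn L z)}

/-! ## Representatives of the classes, points of level `m` -/

/-- representatives `b i` of the ideal classes, of norm prime to `n`, with normalised lattices
`L i = om i * emb (b i)`; `b i0 = O` -/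
structure Reps (A B : ℤ) (n : ℕ) (ι : Type) where
  b : ι → Ideal (OO A B)
  L : ι → PeriodPair
  om : ι → ℂ
  i0 : ι
  nl : ∀ i, IsNL (b i) (L i) (om i)
  cop : ∀ i, (nI (b i)).Coprime n
  b0 : b i0 = ⊤
  surj : ∀ c : Ideal (OO A B), c ≠ ⊥ → ∃ (i : ι) (x y : OO A B), x ≠ 0 ∧ y ≠ 0 ∧
    sp x * c = sp y * b i
  inj : ∀ (i j : ι) (x y : OO A B), x ≠ 0 → y ≠ 0 → sp x * b i = sp y * b j → i = j

/-- the point `(i, x)` of level `m`: `om_i N(b_i) x / m` on `ℂ / L_i`; it corresponds to the ideal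
`x * cjI (b i)` -/
def pt {A B : ℤ} {n : ℕ} {ι : Type} (R : Reps A B n ι) (m : ℕ) (i : ι) (x : OO A B) : ℂ :=
  R.om i * nI (R.b i) * emb x / m

/-- `σ` maps the base point `(i0, 1)` of level `m` to the point `± (i, x)` -/
def Hits {A B : ℤ} {n : ℕ} {ι : Type} (R : Reps A B n ι) (m : ℕ) (σ : ℂ ≃+* ℂ) (i : ι)
    (x : OO A B) : Prop :=
  kap (R.L i) = σ (kap (R.L R.i0)) ∧
    σ (xn (R.L R.i0) (pt R m R.i0 1)) = xn (R.L i) (pt R m i x) ∧ pt R m i x ∉ (R.L i).lattice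

/-! ## Theta series of ideals -/

/-- an odd character `e` of `(O/g)^*` with complex values, extended by 0; `g` an ideal -/
structure IsEI {A B : ℤ} (g : Ideal (OO A B)) (e : OO A B → ℂ) : Prop where
  one : e 1 = 1
  mul : ∀ x y, e (x * y) = e x * e y
  per : ∀ x y, x - y ∈ g → e x = e y
  supp : ∀ x, e x ≠ 0 ↔ IsCoprime (sp x) g
  neg : e (-1) = -1

/-- `θ_b(z) = 1/2 Σ_(x ∈ b) e(x) conj(x) q^(N x / N b)` -/
def thetaI {A B : ℤ} (b : Ideal (OO A B)) (e : OO A B → ℂ) (z : ℂ) : ℂ :=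
  (1 / 2) * ∑' x : b, e x * (starRingEnd ℂ) (emb (x : OO A B)) *
    Complex.exp (2 * Real.pi * Complex.I * ((nm (x : OO A B) : ℂ) / nI b) * z)

/-- its primitive `1/2 Σ e(x) conj(x) / (N x / N b) q^(N x / N b)` -/
def thetaIntI {A B : ℤ} (b : Ideal (OO A B)) (e : OO A B → ℂ) (z : ℂ) : ℂ :=
  (1 / 2) * ∑' x : b, e x * (starRingEnd ℂ) (emb (x : OO A B)) / ((nm (x : OO A B) : ℂ) / nI b) *
    Complex.exp (2 * Real.pi * Complex.I * ((nm (x : OO A B) : ℂ) / nI b) * z)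

/-- `∫_r^(i ∞) 2 π i θ_b(z) dz` -/
def IvI {A B : ℤ} (b : Ideal (OO A B)) (e : OO A B → ℂ) (r : ℚ) : ℂ :=
  -(2 * Real.pi) * ∫ t in Set.Ioi (0 : ℝ), thetaI b e ((r : ℂ) + t * Complex.I)

/-- the same for all cusps, 0 at infinity -/
def IcI {A B : ℤ} (b : Ideal (OO A B)) (e : OO A B → ℂ) (x : OnePoint ℚ) : ℂ :=
  x.elim 0 (fun r : ℚ => IvI b e r)

/-- the modular symbol of `θ_b` -/
def PhiI {A B : ℤ} (b : Ideal (OO A B)) (e : OO A B → ℂ) (x y : OnePoint ℚ) : ℂ :=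
  IcI b e x - IcI b e y

/-- the quadratic character of `k`, right at all integers `d` prime to `D` (helper87's `chiQ`); it is `0` if
`d` is not prime to `D`, except for `B = 0` and `d` even -/
def chiX (A B : ℤ) (d : ℤ) : ℤ :=
  if B = 1 then jacobiSym d (absD A B).toNat else jacobiSym A d.natAbs * d.sign

/-- the nebentypus -/
def nuX {A B : ℤ} (e : OO A B → ℂ) (d : ℤ) : ℂ := (chiX A B d : ℂ) * e (d : OO A B)

end

end Pool.Agent.MUX
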