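import Pool.Agent.MUX.StXE

/-!
# MUX, block E, module COP: torsion of order prime to `P` is not in the kernel of reduction
-/

set_option autoImplicit false

open WeierstrassCurve Polynomial NumberField IsDedekindDomain

namespace Pool.Agent.MUXE

open _root_.MU3 Pool.Agent.MU3A Pool.Agent.MU3B Pool.Agent.MUX Pool.Agent.MUXU Pool.Agent.RI

noncomputable section

namespace COP

variable {A B : ℤ} {p : ℕ} {P : Ideal (OO A B)} {V : ValuationSubring ℂ} {L : PeriodPair}

/-- points of order five -/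
theorem fifth (L : PeriodPair) (a b : ℤ) (h : ¬ ((5 : ℤ) ∣ a ∧ (5 : ℤ) ∣ b)) :
    ((a : ℂ) * L.ω₁ + b * L.ω₂) / 5 ∉ L.lattice := by
  intro hm
  obtain ⟨m, n, e⟩ := PeriodPair.mem_lattice.1 hm
  have h1 := LinearIndependent.pair_iff.1 L.indep ((m : ℝ) - a / 5) ((n : ℝ) - b / 5) (by
    simp only [Complex.real_smul]
    push_cast
    linear_combination e)
  apply h
  have h2 : (m : ℝ) * 5 = a := by have := h1.1; field_simp at this; linarith
  have h3 : (n : ℝ) * 5 = b := by have := h1.2; field_simp at this; linarith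
  constructor
  · exact ⟨m, by have : m * 5 = a := by exact_mod_cast h2
                 omega⟩
  · exact ⟨n, by have : n * 5 = b := by exact_mod_cast h3
                 omega⟩

theorem fifth_mul (L : PeriodPair) (a b : ℤ) :
    ((5 : ℕ) : ℂ) * (((a : ℂ) * L.ω₁ + b * L.ω₂) / 5) ∈ L.lattice :=
  PeriodPair.mem_lattice.2 ⟨a, b, by push_cast; ring⟩

/-- points of order five are not in the kernel of reduction -/
theorem fifth_not (G : GX V L) (h5 : V.valuation ((5 : ℕ) : ℂ) = 1) (a b : ℤ)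
    (h : ¬ ((5 : ℤ) ∣ a ∧ (5 : ℤ) ∣ b)) : ¬ InEn V L (((a : ℂ) * L.ω₁ + b * L.ω₂) / 5) :=
  fun hE => fifth L a b h (G.tor _ 5 hE h5 (fifth_mul L a b))

theorem nat_mem (G : GX V L) {z : ℂ} (hz : InEn V L z) (n : ℕ) : InEn V L (n * z) := by
  induction n with
  | zero => left; simp
  | succ n ih =>
    have h1 : ((n + 1 : ℕ) : ℂ) * z = n * z + z := by push_cast; ring
    rw [h1]
    exact G.add _ _ ih hz

theorem int_mem (G : GX V L) {z : ℂ} (hz : InEn V L z) (n : ℤ) : InEn V L (n * z) := by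
  obtain ⟨m, rfl | rfl⟩ := n.eq_nat_or_neg
  · simpa using nat_mem G hz m
  · have h1 : ((-(m : ℤ) : ℤ) : ℂ) * z = -(m * z) := by push_cast; ring
    rw [h1]
    exact G.neg _ (nat_mem G hz m)

theorem lat_mem {z : ℂ} (hz : z ∈ L.lattice) : InEn V L z := Or.inl hz

/-- (*) if all points of order `p` are in the kernel of reduction -/
theorem product (hPFI : Su_PFI) (G : GX V L) (hp : p = 2 ∨ p = 3)
    (h5 : V.valuation ((5 : ℕ) : ℂ) = 1) {R : Finset ℂ} (hR : IsRpM L L (p : ℂ) R)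
    (hall : ∀ q ∈ R, InEn V L q) :
    V.valuation (p : ℂ) ^ 2 * ∏ q ∈ R, V.valuation (xn L q) = 1 := by
  have hp0 : (p : ℂ) ≠ 0 := by rcases hp with rfl | rfl <;> norm_num
  have hIsg : Isg L L (p : ℂ) := by
    intro w hw
    simpa using L.lattice.smul_mem (p : ℤ) hw
  obtain ⟨W, hW⟩ : ∃ W : ℤ → ℤ → ℂ, W = fun (a b : ℤ) => ((a : ℂ) * L.ω₁ + b * L.ω₂) / 5 := ⟨_, rfl⟩
  have hWn : ∀ a b : ℤ, ¬ ((5 : ℤ) ∣ a ∧ (5 : ℤ) ∣ b) → ¬ InEn V L (W a b) := by
    intro a b h; rw [hW]; exact fifth_not G h5 a b h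
  have hWL : ∀ a b : ℤ, ¬ ((5 : ℤ) ∣ a ∧ (5 : ℤ) ∣ b) → W a b ∉ L.lattice :=
    fun a b h hm => hWn a b h (Or.inl hm)
  have hpW : ∀ a b : ℤ, (p : ℂ) * W a b = W (p * a) (p * b) := by
    intro a b; rw [hW]; push_cast; ring
  have hsum : ∀ a b c d : ℤ, W a b + W c d = W (a + c) (b + d) := by
    intro a b c d; rw [hW]; push_cast; ring
  have hdif : ∀ a b c d : ℤ, W a b - W c d = W (a - c) (b - d) := by
    intro a b c d; rw [hW]; push_cast; ring
  have hx : ∀ z w : ℂ, L.weierstrassP z - L.weierstrassP w = xn L z - xn L w := by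
    intro z w; unfold xn; ring
  have h1 := hPFI L L (p : ℂ) R hp0 hIsg hR (W 1 0) (by
    rw [hpW]; apply hWL; rcases hp with rfl | rfl <;> omega) (W 0 1) (by
    rw [hpW]; apply hWL; rcases hp with rfl | rfl <;> omega)
  simp only [hx] at h1
  have h2 := congrArg V.valuation h1
  rw [map_mul, map_mul, map_mul, map_pow, map_prod, map_prod] at h2
  have e1 : V.valuation (xn L ((p : ℂ) * W 0 1) - xn L ((p : ℂ) * W 1 0)) = 1 := by
    rw [hpW, hpW]
    apply G.sub
    · apply hWn; rcases hp with rfl | rfl <;> omega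
    · apply hWn; rcases hp with rfl | rfl <;> omega
    · rw [hsum]; apply hWn; rcases hp with rfl | rfl <;> omega
    · rw [hdif]; apply hWn; rcases hp with rfl | rfl <;> omega
  have e2 : V.valuation (xn L (W 0 1) - xn L (W 1 0)) = 1 := by
    apply G.sub
    · apply hWn; omega
    · apply hWn; omega
    · rw [hsum]; apply hWn; omega
    · rw [hdif]; apply hWn; omega
  have hW01 : V.valuation (xn L (W 0 1)) ≤ 1 := by
    rw [ValuationSubring.valuation_le_one_iff]
    by_contra hc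
    exact hWn 0 1 (by omega) (Or.inr hc)
  have e3 : ∀ q ∈ R, V.valuation (xn L (W 0 1) - xn L q) = V.valuation (xn L q) := by
    intro q hq
    have h3 : 1 < V.valuation (xn L q) := by
      rcases hall q hq with h | h
      · exact absurd h (hR.ne q hq)
      · rw [← not_le, ValuationSubring.valuation_le_one_iff]; exact h
    exact Valuation.map_sub_eq_of_lt_right _ (lt_of_le_of_lt hW01 h3)
  have e4 : ∀ q ∈ R, V.valuation (xn L (W 0 1) - xn L (W 1 0 + q)) = 1 := by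
    intro q hq
    have hqL := hR.ne q hq
    have hqE := hall q hq
    have hW10 : ¬ InEn V L (W 1 0) := hWn 1 0 (by omega)
    obtain ⟨ht, -, -⟩ := G.par q hqE hqL
    have h3 := G.near (W 1 0) q hW10 hqE hqL
    have h4 := G.intD _ hW10
    have h5' : V.valuation (xn L (W 1 0 + q) - xn L (W 1 0)) < 1 := by
      have h6 : xn L (W 1 0 + q) - xn L (W 1 0) =
          (xn L (W 1 0 + q) - xn L (W 1 0) - L.derivWeierstrassP (W 1 0) * tE L q) +
          L.derivWeierstrassP (W 1 0) * tE L q := by ring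
      rw [h6]
      apply lt_of_le_of_lt (V.valuation.map_add _ _)
      apply max_lt
      · apply lt_of_le_of_lt h3
        exact pow_lt_one₀ zero_le ht (by norm_num)
      · rw [map_mul]
        calc V.valuation (L.derivWeierstrassP (W 1 0)) * V.valuation (tE L q)
            ≤ 1 * V.valuation (tE L q) := mul_le_mul_left h4 _
          _ = V.valuation (tE L q) := one_mul _
          _ < 1 := ht
    have h6 : xn L (W 0 1) - xn L (W 1 0 + q) =
        (xn L (W 0 1) - xn L (W 1 0)) - (xn L (W 1 0 + q) - xn L (W 1 0)) := by ring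
    rw [h6, Valuation.map_sub_eq_of_lt_left _ (by rw [e2]; exact h5'), e2]
  rw [e1, e2, Finset.prod_congr rfl e3, Finset.prod_congr rfl e4] at h2
  simpa using h2

/-- integers represent the classes modulo `Q` -/
theorem int_rep (hPB : Sxe_PB) (hR : RingE A B) (hp : p.Prime) {Q : Ideal (OO A B)}
    (hQ : Q.IsPrime) (hPQ : sp (p : OO A B) = P * Q) (hn : nI Q = p)
    (hle : ¬ P ≤ Q) (x : OO A B) : ∃ r : ℤ, x - r ∈ Q := by
  have := hR.ded
  have hmem : (p : OO A B) ∈ Q := by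
    have h1 : (p : OO A B) ∈ P * Q := by rw [← hPQ]; exact Ideal.mem_span_singleton_self _
    exact Ideal.mul_le_right h1
  have hQ0 : Q ≠ ⊥ := by
    rintro rfl
    have h1 : (p : OO A B) = 0 := by simpa using hmem
    obtain ⟨φ, hφ⟩ := hR.hom
    have h2 : φ (p : OO A B) = 0 := by rw [h1, map_zero]
    rw [map_natCast] at h2
    exact hp.ne_zero (by exact_mod_cast h2)
  have hsq : (p : OO A B) ∉ Q ^ 2 := by
    intro h
    apply hle
    have h1 : P * Q ≤ Q * Q := by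
      rw [← hPQ, ← pow_two, Ideal.span_singleton_le_iff_mem]
      exact h
    have h2 := Ideal.dvd_iff_le.2 h1
    have h3 : Q ∣ P := (mul_dvd_mul_iff_right hQ0).1 h2
    exact Ideal.dvd_iff_le.1 h3
  obtain ⟨⟨r, hr⟩, -⟩ := hPB p A B Q hR hp hQ hmem hn hsq 1 x
  exact ⟨r, by rwa [pow_one] at hr⟩

/-- Part (1): the conjugate prime. -/
theorem main (hPA : Sxe_PA) (hPB : Sxe_PB) (hTRA : Sxe_TRA) (hTRB : Sxe_TRB) (hKER : Sxe_KER)
    (hBAC : Su_BAC) (hPFI : Su_PFI) (hC : CtxE p P V) (hL : NL A B L) {Q : Ideal (OO A B)}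
    (hPQ : sp (p : OO A B) = P * Q) (hQm : Q.IsMaximal) (hn : nI Q = p) (hQP : ¬ Q ≤ P)
    (hle : ¬ P ≤ Q) {y : ℂ} (hy : Tor Q L y) (hyE : InEn V L y) : y ∈ L.lattice := by
  by_contra hyL
  have hR := hC.ring
  have := hR.ded
  have hpp : p.Prime := by rcases hC.two with rfl | rfl <;> norm_num
  have hp0 : (p : ℂ) ≠ 0 := by exact_mod_cast hpp.ne_zero
  obtain ⟨φ, hφ⟩ := hR.hom
  have hmul : ∀ x y : OO A B, emb (x * y) = emb x * emb y := fun x y => by
    rw [← hφ, ← hφ, ← hφ, map_mul]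
  have hadd : ∀ x y : OO A B, emb (x + y) = emb x + emb y := fun x y => by
    rw [← hφ, ← hφ, ← hφ, map_add]
  have hone : emb (1 : OO A B) = 1 := by rw [← hφ, map_one]
  have hnat : ∀ n : ℕ, emb (n : OO A B) = n := fun n => by rw [← hφ, map_natCast]
  have hint : ∀ n : ℤ, emb (n : OO A B) = n := fun n => by rw [← hφ, map_intCast]
  have hne0 : ∀ I : Ideal (OO A B), (p : OO A B) ∈ I → I ≠ ⊥ := by
    rintro I hI rfl
    have h1 : (p : OO A B) = 0 := by simpa using hI
    have h2 : φ (p : OO A B) = 0 := by rw [h1, map_zero]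
    rw [map_natCast] at h2
    exact hp0 (by exact_mod_cast h2)
  have hP0 : P ≠ ⊥ := hne0 P hC.mem
  have hpQ : (p : OO A B) ∈ Q := by
    have h1 : (p : OO A B) ∈ P * Q := by rw [← hPQ]; exact Ideal.mem_span_singleton_self _
    exact Ideal.mul_le_right h1
  have hQ0 : Q ≠ ⊥ := hne0 Q hpQ
  have G := hC.gx L hL
  obtain ⟨-, -, -, hnn, hPm, hcop, -⟩ := hPA p A B P V hC
  obtain ⟨tO, tadd, tmul, tcop, tsp, tpr, tpr', tcg, tlc⟩ := hTRA A B hR L hL
  obtain ⟨tex, tgen⟩ := hTRB A B hR L hL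
  have h5 : V.valuation ((5 : ℕ) : ℂ) = 1 := (hnn 5 (by
    rcases hC.two with rfl | rfl <;> omega)).1
  -- the points of `E[Q]`
  have hQE : ∀ z, Tor Q L z → InEn V L z := by
    intro z hz
    obtain ⟨x, hx⟩ := tgen Q hQ0 hQm y z hy hz hyL
    obtain ⟨r, hr⟩ := int_rep hPB hR hpp hQm.isPrime hPQ hn hle x
    have h1 : z = (r : ℂ) * y + ((z - emb x * y) + emb (x - (r : OO A B)) * y) := by
      have h2 : emb (x - (r : OO A B)) = emb x - (r : ℂ) := by rw [← hφ, map_sub, map_intCast, hφ]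
      rw [h2]; ring
    rw [h1]
    exact G.add _ _ (int_mem G hyE r) (Or.inl (add_mem hx (hy _ hr)))
  -- the points of `E[P]`
  have hPE : ∀ z, Tor P L z → InEn V L z := by
    intro z hz
    by_cases hzL : z ∈ L.lattice
    · exact Or.inl hzL
    · exact (hKER p A B P V hC L hL z hz hzL).1
  have hPQc : IsCoprime P Q := by
    have h1 := hcop Q 1 hQP
    rw [pow_one] at h1
    exact h1.symm
  have hTp : ∀ z, (p : ℂ) * z ∈ L.lattice → InEn V L z := by
    intro z hz
    have hz' : Tor (P * Q) L z := by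
      rw [← hPQ, tsp, hnat]; exact hz
    obtain ⟨a, ha, b, hb, hab⟩ := Ideal.isCoprime_iff_exists.1 hPQc
    have h1 : z = emb a * z + emb b * z := by rw [← add_mul, ← hadd, hab, hone, one_mul]
    rw [h1]
    apply G.add
    · exact hQE _ (tpr P Q a z ha hz')
    · apply hPE
      apply tpr Q P b z hb
      rw [mul_comm]
      exact hz'
  have hIsg : Isg L L (p : ℂ) := by
    intro w hw
    simpa using L.lattice.smul_mem (p : ℤ) hw
  obtain ⟨⟨R, hRR⟩, -⟩ := hBAC.2 L L (p : ℂ) hp0 hIsg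
  have hprod := product hPFI G hC.two h5 hRR (fun q hq => hTp q (hRR.mem q hq))
  -- valuations `> 1`
  have hgt : ∀ q ∈ R, 1 < V.valuation (xn L q) := by
    intro q hq
    rcases hTp q (hRR.mem q hq) with h | h
    · exact absurd h (hRR.ne q hq)
    · rw [← not_le, ValuationSubring.valuation_le_one_iff]; exact h
  -- representatives
  have hPp : ∀ z, Tor P L z → (p : ℂ) * z ∈ L.lattice := fun z hz => by
    rw [← hnat]; exact hz _ hC.mem
  have hQp : ∀ z, Tor Q L z → (p : ℂ) * z ∈ L.lattice := fun z hz => by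
    rw [← hnat]; exact hz _ hpQ
  obtain ⟨qy, hqy, hqy'⟩ := hRR.surj y (hQp y hy) hyL
  have hqyQ : Tor Q L qy := (tcg Q y qy hqy').1 hy
  have hqyP : ¬ Tor P L qy := fun h => hRR.ne qy hqy (tcop P Q qy hPQc h hqyQ)
  obtain ⟨u, huP, huT⟩ := tex ⊤ P hP0 (lt_top_iff_ne_top.2 hPm.ne_top)
  have huL : u ∉ L.lattice := fun h => huT (fun x _ => tO x u h)
  obtain ⟨q₁, hq₁, hq₁'⟩ := hRR.surj u (hPp u huP) huL
  have hq₁P : Tor P L q₁ := (tcg P u q₁ hq₁').1 huP
  obtain ⟨-, k1⟩ := hKER p A B P V hC L hL q₁ hq₁P (hRR.ne q₁ hq₁)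
  obtain ⟨-, -, k2⟩ := G.par q₁ (hPE q₁ hq₁P) (hRR.ne q₁ hq₁)
  -- a subset with product `v(p)⁻²`, without `qy`
  have key : ∃ R' ⊆ R, qy ∉ R' ∧
      V.valuation (p : ℂ) ^ 2 * ∏ q ∈ R', V.valuation (xn L q) = 1 := by
    rcases hC.two with h2 | h3
    · refine ⟨{q₁}, by simpa using hq₁, ?_, ?_⟩
      · rw [Finset.mem_singleton]
        rintro rfl
        exact hqyP hq₁P
      · rw [Finset.prod_singleton, ← k1]
        rw [h2, show (2 - 1 : ℕ) = 1 from rfl, pow_one, mul_comm]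
        exact k2
    · have hnP : Tor P L (-u) := fun x hx => by
        rw [mul_neg]; exact neg_mem (huP x hx)
      have hnL : -u ∉ L.lattice := fun h => huL (by simpa using neg_mem h)
      obtain ⟨q₂, hq₂, hq₂'⟩ := hRR.surj (-u) (hPp _ hnP) hnL
      have hq₂P : Tor P L q₂ := (tcg P (-u) q₂ hq₂').1 hnP
      have hne : q₁ ≠ q₂ := by
        rintro rfl
        apply huL
        have h1 := sub_mem hq₁' hq₂'
        have h2 := hPp u huP
        rw [h3] at h2
        have h4 : u = ((3 : ℕ) : ℂ) * u - (u - q₁ - (-u - q₁)) := by push_cast; ring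
        rw [h4]
        exact sub_mem h2 h1
      obtain ⟨-, l1⟩ := hKER p A B P V hC L hL q₂ hq₂P (hRR.ne q₂ hq₂)
      obtain ⟨-, -, l2⟩ := G.par q₂ (hPE q₂ hq₂P) (hRR.ne q₂ hq₂)
      refine ⟨{q₁, q₂}, ?_, ?_, ?_⟩
      · intro q hq
        rw [Finset.mem_insert, Finset.mem_singleton] at hq
        rcases hq with rfl | rfl <;> assumption
      · rw [Finset.mem_insert, Finset.mem_singleton]
        rintro (rfl | rfl)
        · exact hqyP hq₁P
        · exact hqyP hq₂P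
      · rw [Finset.prod_pair hne]
        have e : (3 - 1 : ℕ) = 2 := rfl
        rw [h3, e] at k1 l1
        rw [k1] at k2
        rw [l1] at l2
        rw [h3, pow_two]
        calc V.valuation ((3 : ℕ) : ℂ) * V.valuation ((3 : ℕ) : ℂ) *
              (V.valuation (xn L q₁) * V.valuation (xn L q₂)) =
            (V.valuation (xn L q₁) * V.valuation ((3 : ℕ) : ℂ)) *
              (V.valuation (xn L q₂) * V.valuation ((3 : ℕ) : ℂ)) := by
              rw [mul_mul_mul_comm, mul_comm (V.valuation ((3 : ℕ) : ℂ)),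
                mul_comm (V.valuation ((3 : ℕ) : ℂ))]
          _ = 1 := by rw [k2, l2, one_mul]
  obtain ⟨R', hR', hqR', hpR'⟩ := key
  have hsplit := Finset.prod_sdiff (f := fun q => V.valuation (xn L q)) hR'
  rw [← hsplit, mul_left_comm, hpR', mul_one] at hprod
  have hin : qy ∈ R \ R' := Finset.mem_sdiff.2 ⟨hqy, hqR'⟩
  rw [← Finset.mul_prod_erase _ _ hin] at hprod
  have h1 : 1 ≤ ∏ q ∈ (R \ R').erase qy, V.valuation (xn L q) := by
    apply Finset.one_le_prod'
    intro q hq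
    exact (hgt q (Finset.mem_sdiff.1 (Finset.mem_of_mem_erase hq)).1).le
  have h2 := hgt qy hqy
  have h3 : V.valuation (xn L qy) * 1 ≤
      V.valuation (xn L qy) * ∏ q ∈ (R \ R').erase qy, V.valuation (xn L q) :=
    mul_le_mul_right h1 _
  rw [hprod, mul_one] at h3
  exact absurd h3 (not_le.2 h2)

end COP

open COP in
/-- COP. -/
theorem te_COP (h1 : Sxe_PA) (h2 : Sxe_PB) (h3 : Sxe_TRA) (h4 : Sxe_TRB) (h5 : Sxe_KER)
    (h6 : Su_BAC) (h7 : Su_PFI) : Sxe_COP := by
  intro p A B P V hC L hL m hm hmP z hz hzE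
  by_contra hzL
  have hR := hC.ring
  have hpp : p.Prime := by rcases hC.two with rfl | rfl <;> norm_num
  obtain ⟨φ, hφ⟩ := hR.hom
  have hmul : ∀ x y : OO A B, emb (x * y) = emb x * emb y := fun x y => by
    rw [← hφ, ← hφ, ← hφ, map_mul]
  have hadd : ∀ x y : OO A B, emb (x + y) = emb x + emb y := fun x y => by
    rw [← hφ, ← hφ, ← hφ, map_add]
  have hone : emb (1 : OO A B) = 1 := by rw [← hφ, map_one]
  have hnat : ∀ n : ℕ, emb (n : OO A B) = n := fun n => by rw [← hφ, map_natCast]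
  have G := hC.gx L hL
  obtain ⟨-, -, -, hnn, hPm, hcop, Q, hPQ, hQm, hnQ, hQP, hle⟩ := h1 p A B P V hC
  obtain ⟨tO, tadd, tmul, tcop, tsp, tpr, tpr', tcg, tlc⟩ := h3 A B hR L hL
  obtain ⟨N, hN, hNm⟩ := hR.pos m hm
  obtain ⟨s, N₁, hN₁, hNe⟩ := Nat.exists_eq_pow_mul_and_not_dvd hN.ne' p hpp.ne_one
  -- `z₁ = N₁ z`
  have hz₁E : InEn V L ((N₁ : ℂ) * z) := nat_mem G hzE N₁
  have hz₁L : (N₁ : ℂ) * z ∉ L.lattice := fun h => hzL (G.tor z N₁ hzE (hnn N₁ hN₁).1 h)
  have hpz : ∃ i : ℕ, ((p ^ i : ℕ) : ℂ) * ((N₁ : ℂ) * z) ∈ L.lattice := by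
    refine ⟨s, ?_⟩
    have h := hz _ hNm
    rw [hnat, hNe] at h
    have e : ((p ^ s : ℕ) : ℂ) * ((N₁ : ℂ) * z) = ((p ^ s * N₁ : ℕ) : ℂ) * z := by push_cast; ring
    rw [e]
    exact h
  classical
  obtain ⟨i, hi⟩ : ∃ i, Nat.find hpz = i := ⟨_, rfl⟩
  have hi1 := Nat.find_spec hpz
  rw [hi] at hi1
  have hi0 : i ≠ 0 := by
    rintro rfl
    apply hz₁L
    simpa using hi1
  obtain ⟨j, rfl⟩ := Nat.exists_eq_succ_of_ne_zero hi0
  have hj : ((p ^ j : ℕ) : ℂ) * ((N₁ : ℂ) * z) ∉ L.lattice :=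
    Nat.find_min hpz (by rw [hi]; exact Nat.lt_succ_self j)
  obtain ⟨y, hy⟩ : ∃ y, y = ((p ^ j : ℕ) : ℂ) * ((N₁ : ℂ) * z) := ⟨_, rfl⟩
  rw [← hy] at hj
  have hpy : (p : ℂ) * y ∈ L.lattice := by
    have e : (p : ℂ) * y = ((p ^ j.succ : ℕ) : ℂ) * ((N₁ : ℂ) * z) := by
      rw [hy, Nat.succ_eq_add_one, pow_succ]; push_cast; ring
    rw [e]
    exact hi1
  have hyE : InEn V L y := by rw [hy]; exact nat_mem G hz₁E _
  have hym : Tor m L y := by
    have e : y = emb (((p ^ j * N₁ : ℕ)) : OO A B) * z := by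
      rw [hnat, hy]; push_cast; ring
    rw [e]
    exact tmul m _ z hz
  apply hj
  refine main h1 h2 h3 h4 h5 h6 h7 hC hL hPQ hQm hnQ hQP hle ?_ hyE
  intro g hg
  have hc := hcop m 1 hmP
  rw [pow_one] at hc
  obtain ⟨a, ha, b, hb, hab⟩ := Ideal.isCoprime_iff_exists.1 hc
  have e : emb g * y = emb g * (emb a * y) + emb (b * g) * y := by
    rw [hmul]
    have h : emb a + emb b = 1 := by rw [← hadd, hab, hone]
    linear_combination (-(emb g * y)) * h
  rw [e]
  refine add_mem (tO g _ (hym a ha)) ?_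
  have hbg : b * g ∈ sp (p : OO A B) := by
    rw [hPQ]; exact Ideal.mul_mem_mul hb hg
  exact (tsp (p : OO A B) y).2 (by rw [hnat]; exact hpy) _ hbg

end

end Pool.Agent.MUXE
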