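import Pool.Agent.MUX.StXE

/-!
# MUX, block E, module DEG (helper65): the degree of `RF (P^j m')` over `RF m'`
-/

set_option autoImplicit false

open WeierstrassCurve Polynomial NumberField IsDedekindDomain

namespace Pool.Agent.MUXE

open _root_.MU3 Pool.Agent.MU3A Pool.Agent.MU3B Pool.Agent.MUX Pool.Agent.MUXU Pool.Agent.RI

noncomputable section

namespace DEG

/-- an integer prime to `p` can be replaced by a natural number in the box of the totient -/
theorem exists_nat {p j : ℕ} (hp : p.Prime) (r : ℤ) (hr : ¬ (p : ℤ) ∣ r) :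
    ∃ n : ℕ, n ∈ (Finset.range (p ^ j)).filter (fun a => (p ^ j).Coprime a) ∧
      ((p : ℤ) ^ j) ∣ r - n := by
  have hpj : 0 < p ^ j := pow_pos hp.pos j
  have hpj' : ((p ^ j : ℕ) : ℤ) ≠ 0 := by exact_mod_cast hpj.ne'
  have h1 : 0 ≤ r % ((p ^ j : ℕ) : ℤ) := Int.emod_nonneg r hpj'
  have h2 : r % ((p ^ j : ℕ) : ℤ) < ((p ^ j : ℕ) : ℤ) :=
    Int.emod_lt_of_pos r (by exact_mod_cast hpj)
  obtain ⟨n, hn⟩ := Int.eq_ofNat_of_zero_le h1
  have h3 : ((p : ℤ) ^ j) ∣ r - n := by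
    rw [← hn]
    have h4 := Int.dvd_self_sub_emod (x := r) (m := ((p ^ j : ℕ) : ℤ))
    exact_mod_cast h4
  refine ⟨n, ?_, h3⟩
  rw [Finset.mem_filter, Finset.mem_range]
  refine ⟨?_, ?_⟩
  · rw [hn] at h2
    exact_mod_cast h2
  · rcases Nat.eq_zero_or_pos j with rfl | hj
    · simp
    · refine Nat.Coprime.pow_left j ((Nat.Prime.coprime_iff_not_dvd hp).2 fun hd => hr ?_)
      have h5 : (p : ℤ) ∣ r - n := (dvd_pow_self (p : ℤ) (by omega)).trans h3
      have h6 : (p : ℤ) ∣ (n : ℤ) := by exact_mod_cast hd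
      have h7 := dvd_add h5 h6
      rwa [sub_add_cancel] at h7

end DEG

open DEG in
theorem te_DEG (h1 : Sxe_PA) (h2 : Sxe_PB) (h3 : Sxe_FAC) : Sxe_DEG := by
  classical
  intro p A B P V hC hG j m' hj hm' hmP
  have hR := hC.ring
  haveI := hR.ded
  have hp : p.Prime := by
    rcases hC.two with rfl | rfl
    · exact Nat.prime_two
    · exact Nat.prime_three
  obtain ⟨f1, -, f3, -, f5⟩ := h3 A B hR
  obtain ⟨-, -, -, -, -, hcop, -⟩ := h1 p A B P V hC
  -- ideals
  set m : Ideal (OO A B) := P ^ j * m' with hm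
  have hmm' : m ≤ m' := Ideal.mul_le_right
  have hmPj : m ≤ P ^ j := Ideal.mul_le_left
  have hPjP : P ^ j ≤ P := Ideal.pow_le_self (by omega)
  have hP0 : P ≠ ⊥ := by
    intro h0
    have h4 := hC.mem
    rw [h0, Ideal.mem_bot] at h4
    obtain ⟨φ, hφ⟩ := hR.hom
    have h5 : φ ((p : ℕ) : OO A B) = ((p : ℕ) : ℂ) := map_natCast φ p
    rw [h4, map_zero] at h5
    exact hp.ne_zero (by exact_mod_cast h5.symm)
  have hm0 : m ≠ ⊥ := by
    have h4 : P ^ j ≠ (0 : Ideal (OO A B)) := pow_ne_zero j hP0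
    exact mul_ne_zero h4 hm'
  have hinf : P ^ j ⊓ m' = m := Ideal.inf_eq_mul_of_isCoprime (hcop m' j hmP).symm
  -- fields
  have hF : RF m' ≤ RF m := f1 m m' hmm'
  haveI := hG.fin m hm0
  haveI := hG.gal m hm0
  set E : IntermediateField (kk A B) (RF m) := IntermediateField.restrict hF with hE
  have e1 : Module.finrank (kk A B) (RF m') = Module.finrank (kk A B) E :=
    (IntermediateField.restrictAlgEquiv hF).toLinearEquiv.finrank_eq
  have e2 : Module.finrank (kk A B) E * Module.finrank E (RF m) =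
      Module.finrank (kk A B) (RF m) := Module.finrank_mul_finrank _ _ _
  have e3 : Nat.card E.fixingSubgroup = Module.finrank E (RF m) :=
    IsGalois.card_fixingSubgroup_eq_finrank E
  rw [← e2, ← e3, e1, mul_comm]
  refine Nat.mul_le_mul_right _ ?_
  -- the kernel
  have hker : ∀ σ : E.fixingSubgroup, ∃ α : OO A B, α - 1 ∈ m' ∧ ActE (em (σ : RF m ≃ₐ[kk A B] RF m)) m α := by
    intro σ
    refine hG.ker m m' hm0 hmm' (em (σ : RF m ≃ₐ[kk A B] RF m)) ?_
    intro y hy hy'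
    have h4 : (⟨y, hy⟩ : RF m) ∈ E := (IntermediateField.mem_restrict hF _).2 hy'
    have h5 := (IntermediateField.mem_fixingSubgroup_iff E _).1 σ.2 ⟨y, hy⟩ h4
    exact congrArg Subtype.val h5
  choose α hα1 hα2 using hker
  have hαP : ∀ σ, α σ ∉ P := by
    intro σ hσ
    have h4 := (hα2 σ).1
    have h5 : sp (α σ) ≤ P := (Ideal.span_singleton_le_iff_mem P).2 hσ
    have h6 : m ≤ P := hmPj.trans hPjP
    have h7 : sp (α σ) ⊔ m = ⊤ := Ideal.isCoprime_iff_sup_eq.1 h4
    have h8 : (⊤ : Ideal (OO A B)) ≤ P := h7 ▸ sup_le h5 h6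
    exact hC.prime.ne_top (top_le_iff.1 h8)
  have hinj : ∀ σ τ, α σ - α τ ∈ P ^ j → σ = τ := by
    intro σ τ h
    have h4 : α σ - α τ ∈ m' := by
      have := sub_mem (hα1 σ) (hα1 τ)
      rwa [sub_sub_sub_cancel_right] at this
    have h5 : α σ - α τ ∈ m := hinf ▸ Ideal.mem_inf.2 ⟨h, h4⟩
    have h6 := f5 m (RF m) (em (σ : RF m ≃ₐ[kk A B] RF m)) (α σ) (α τ) (Or.inl h5) (hα2 σ)
    have h7 := f3 m _ _ _ h6 (hα2 τ)
    apply Subtype.ext
    apply AlgEquiv.ext
    intro x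
    apply Subtype.ext
    exact DFunLike.congr_fun h7 x
  have hr : ∀ σ, ∃ n : ℕ, n ∈ (Finset.range (p ^ j)).filter (fun a => (p ^ j).Coprime a) ∧
      α σ - (n : OO A B) ∈ P ^ j := by
    intro σ
    obtain ⟨⟨r, hr⟩, -⟩ := h2 p A B P hR hp hC.prime hC.mem hC.norm hC.split j (α σ)
    have hpr : ¬ (p : ℤ) ∣ r := by
      rintro ⟨s, rfl⟩
      apply hαP σ
      have h4 : α σ - (((p : ℤ) * s : ℤ) : OO A B) ∈ P := hPjP hr
      have h5 : ((((p : ℤ) * s : ℤ)) : OO A B) ∈ P := by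
        push_cast
        exact Ideal.mul_mem_right _ _ hC.mem
      have h6 := add_mem h4 h5
      rwa [sub_add_cancel] at h6
    obtain ⟨n, hn, hd⟩ := exists_nat (j := j) hp r hpr
    refine ⟨n, hn, ?_⟩
    obtain ⟨s, hs⟩ := hd
    have h4 : α σ - (n : OO A B) = (α σ - (r : OO A B)) + ((r - n : ℤ) : OO A B) := by
      push_cast
      ring
    rw [h4, hs]
    refine add_mem hr ?_
    push_cast
    exact Ideal.mul_mem_right _ _ (Ideal.pow_mem_pow hC.mem j)
  choose n hn1 hn2 using hr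
  have hcard : Nat.card E.fixingSubgroup ≤
      Nat.card ((Finset.range (p ^ j)).filter (fun a => (p ^ j).Coprime a)) := by
    refine Nat.card_le_card_of_injective (fun σ => ⟨n σ, hn1 σ⟩) ?_
    intro σ τ h
    have h4 : n σ = n τ := congrArg Subtype.val h
    apply hinj
    have h5 := sub_mem (hn2 σ) (hn2 τ)
    rw [h4, sub_sub_sub_cancel_right] at h5
    exact h5
  refine hcard.trans (le_of_eq ?_)
  rw [Nat.card_eq_fintype_card, Fintype.card_coe, ← Nat.totient_eq_card_coprime,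
    Nat.totient_prime_pow hp (by omega), mul_comm]

end

end Pool.Agent.MUXE
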