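import Pool.Agent.MUX.StXE

/-!
# MUX, block E, module GAM: the ideal `M'` and the element `γ`
-/

set_option autoImplicit false

open WeierstrassCurve Polynomial NumberField IsDedekindDomain

namespace Pool.Agent.MUXE

open _root_.MU3 Pool.Agent.MU3A Pool.Agent.MU3B Pool.Agent.MUX Pool.Agent.MUXU Pool.Agent.RI

noncomputable section

theorem te_GAM (h1 : Sxe_PA) : Sxe_GAM := by
  intro p A B P V h n m₁ a hm₁ ha hpm hpa
  obtain ⟨-, -, -, hn, -, -, Q, hQ, -, -, hQP, -⟩ := h1 p A B P V h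
  have hpp : p.Prime := by
    rcases h.two with rfl | rfl
    · exact Nat.prime_two
    · exact Nat.prime_three
  obtain ⟨φ, hφ⟩ := h.ring.hom
  have hded : IsDedekindDomain (OO A B) := h.ring.ded
  have hPp : P.IsPrime := h.prime
  have hcast : ∀ k : ℕ, k ≠ 0 → (k : OO A B) ≠ 0 := by
    intro k hk h0
    have h2 := congrArg φ h0
    rw [map_natCast, map_zero] at h2
    exact hk (by exact_mod_cast h2)
  have hmain : sp ((p ^ (n + 1) * m₁ * a : ℕ) : OO A B) =
      P ^ (n + 1) * (Q ^ (n + 1) * sp ((m₁ * a : ℕ) : OO A B)) := by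
    rw [← mul_assoc, ← mul_pow, ← hQ, Ideal.span_singleton_pow,
      Ideal.span_singleton_mul_span_singleton]
    congr 2
    push_cast
    ring
  have hne : sp ((p ^ (n + 1) * m₁ * a : ℕ) : OO A B) ≠ ⊥ := by
    rw [Ne, Ideal.span_singleton_eq_bot]
    exact hcast _ (mul_ne_zero (mul_ne_zero (pow_ne_zero _ hpp.ne_zero) hm₁) ha)
  have hP0 : P ≠ ⊥ := by
    intro h0
    apply hne
    rw [hmain, h0, pow_succ, Ideal.mul_bot, Ideal.bot_mul]
  have hMP : ¬ Q ^ (n + 1) * sp ((m₁ * a : ℕ) : OO A B) ≤ P := by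
    intro hle
    rcases hPp.mul_le.1 hle with h2 | h2
    · exact hQP (hPp.le_of_pow_le h2)
    · rw [Ideal.span_singleton_le_iff_mem] at h2
      refine (hn _ ?_).2 h2
      intro hd
      rcases hpp.dvd_mul.1 hd with h3 | h3
      · exact hpm h3
      · exact hpa h3
  have hnot : ¬ P ^ n * (Q ^ (n + 1) * sp ((m₁ * a : ℕ) : OO A B)) ≤ P ^ (n + 1) := by
    intro hle
    apply hMP
    rw [← Ideal.dvd_iff_le, pow_succ] at hle
    rw [← Ideal.dvd_iff_le]
    exact (mul_dvd_mul_iff_left (pow_ne_zero n (by rwa [Ideal.zero_eq_bot]))).1 hle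
  obtain ⟨γ, hγ, hγP⟩ := Set.not_subset.1 hnot
  refine ⟨Q ^ (n + 1) * sp ((m₁ * a : ℕ) : OO A B), γ, hmain, ?_, hMP, ?_, hγ, ?_, ?_, ?_⟩
  · intro h0
    apply hne
    rw [hmain, h0, Ideal.mul_bot]
  · refine Ideal.mul_le_right.trans ?_
    rw [Ideal.span_singleton_le_iff_mem, Ideal.mem_span_singleton]
    push_cast
    exact dvd_mul_left _ _
  · exact Ideal.mul_le_right hγ
  · intro hc
    apply hγP
    have h2 : ((p ^ (n + 1) * m₁ : ℕ) : OO A B) ∈ P ^ (n + 1) := by
      push_cast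
      exact Ideal.mul_mem_right _ _ (Ideal.pow_mem_pow h.mem _)
    exact (Ideal.span_singleton_le_iff_mem (P ^ (n + 1))).2 h2 hc
  · intro x hx
    rw [hmain, pow_succ', mul_assoc]
    exact Ideal.mul_mem_mul hx hγ

end

end Pool.Agent.MUXE
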