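import Pool.Agent.MUX.StXE
import Pool.Agent.MUX.VG

/-!
# MUX, block E: `GX` from `GRG` (helper66)
-/

set_option autoImplicit false

namespace Pool.Agent.MUXE

open WeierstrassCurve
open _root_.MU3 Pool.Agent.MU3A Pool.Agent.MU3B Pool.Agent.MUX Pool.Agent.MUXU Pool.Agent.RI
open Pool.Agent.MUX2 Pool.Agent.MUXV Pool.Agent.MU3.Val

noncomputable section

lemma gxg_t (L : PeriodPair) (z : ℂ) : tE L z = tX (xn L) (y2 L) z := by
  unfold tE tX y2 yy
  congr 2
  ring

lemma gxg_D (L : PeriodPair) (z : ℂ) :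
    L.derivWeierstrassP z = 2 * y2 L z + (1 : ℂ) * xn L z + 0 := by
  unfold y2 yy
  ring

/-- good reduction in the form `GX` -/
theorem gx_of_grg (V : ValuationSubring ℂ) (L : PeriodPair) (ξ : ℂ →+ (W2 (kap L)).Point)
    (G : GRG V (W2 (kap L)) L (xn L) (y2 L) ξ) : GX V L := by
  have hI : ∀ z, InEn V L z ↔ InK V L (xn L) z := fun z => Iff.rfl
  refine ⟨?_, ?_, ?_, ?_, ?_, ?_, ?_, ?_, ?_, ?_, ?_⟩
  · intro z w hz hw
    exact gInK_add G hz hw
  · intro z hz
    exact gInK_neg G hz
  · intro z hz hL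
    rw [gxg_t]
    exact gv_tX_lt G hz hL
  · intro z w hz hw hzL hwL hzw
    rw [gxg_t, gxg_t, gxg_t]
    exact gv_tX_add G hz hw hzL hwL hzw
  · intro z hz hL
    rw [gxg_t, gxg_t]
    exact (gv_tX_neg G hz hL).2
  · intro z hz hL
    obtain ⟨h1, h2, h3⟩ := gv_tX_lt G hz hL
    obtain ⟨hns, -⟩ := G.some z hL
    have heq := (WeierstrassCurve.Affine.equation_iff _ _).1 hns.1
    have hk4 : V.valuation (-36 * kap L) ≤ 1 := G.int.a4
    have hk6 : V.valuation (-kap L) ≤ 1 := G.int.a6
    rw [gxg_t]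
    set x := xn L z with hx
    set y := y2 L z with hy
    have hW1 : (W2 (kap L)).a₁ = 1 := rfl
    have hW2 : (W2 (kap L)).a₂ = 0 := rfl
    have hW3 : (W2 (kap L)).a₃ = 0 := rfl
    have hW4 : (W2 (kap L)).a₄ = -36 * kap L := rfl
    have hW6 : (W2 (kap L)).a₆ = -kap L := rfl
    rw [hW1, hW2, hW3, hW4, hW6] at heq
    have ht : tX (xn L) (y2 L) z = -(x / y) := rfl
    rw [ht] at h1 h2 h3 ⊢
    have hy0 : y ≠ 0 := by
      intro h
      rw [h] at h2
      simp at h2
    have hx0 : x ≠ 0 := by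
      intro h
      rw [h] at h2
      simp at h2
    set t := -(x / y) with htt
    have ht0 : t ≠ 0 := by
      intro h
      rw [h] at h2
      simp at h2
    have hyt : y = -(x / t) := by
      rw [htt]; field_simp
    -- x t^2 - 1 = -t + (36 k x + k)/y^2
    have e1 : x * t ^ 2 - 1 = -t + (-(-36 * kap L) * x * t ^ 2 + -(-kap L) * t ^ 2) / x ^ 2 := by
      have e2 : x ^ 3 = y ^ 2 + x * y - (-36 * kap L) * x - (-kap L) := by linear_combination -heq
      rw [hyt] at e2
      field_simp at e2 ⊢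
      linear_combination e2
    rw [e1]
    have hvx0 : V.valuation x ≠ 0 := by rw [Valuation.ne_zero_iff]; exact hx0
    have hvx : V.valuation x = (V.valuation t ^ 2)⁻¹ := eq_inv_of_mul_eq_one_left h3
    have hxinv : V.valuation (x ^ 2)⁻¹ = V.valuation t ^ 4 := by
      rw [map_inv₀, map_pow, hvx, inv_pow, inv_inv, ← pow_mul]
    have ht1 : V.valuation t ≤ 1 := h1.le
    refine v_add_le (by rw [Valuation.map_neg]) ?_
    rw [div_eq_mul_inv, map_mul, hxinv]
    have b1 : V.valuation (-(-36 * kap L) * x * t ^ 2) ≤ 1 := by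
      rw [show -(-36 * kap L) * x * t ^ 2 = -(-36 * kap L) * (x * t ^ 2) by ring, map_mul,
        Valuation.map_neg, map_mul (V.valuation) x, map_pow, h3, mul_one]
      exact hk4
    have b2 : V.valuation (-(-kap L) * t ^ 2) ≤ 1 := by
      rw [map_mul, Valuation.map_neg, map_pow]
      exact mul_le_one' hk6 (pow_le_one' ht1 2)
    have b3 := v_add_le b1 b2
    calc _ ≤ 1 * V.valuation t ^ 4 := mul_le_mul_left b3 _
      _ ≤ V.valuation t := by
        rw [one_mul, show V.valuation t ^ 4 = V.valuation t ^ 3 * V.valuation t from pow_succ _ 3]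
        exact mul_le_of_le_one_left' (pow_le_one' ht1 3)
  · intro z n hz hn hnL
    exact gmem_of_nat_mul G hz hn hnL
  · intro z w hz hw hp hm
    exact gv_X_sub G hz hw hp hm
  · intro z hz
    rw [gxg_D]
    have h1 := gInt_Y G hz
    have h2 := (int_X hz).2
    rw [add_zero, one_mul]
    refine v_add_le ?_ h2
    rw [map_mul]
    exact mul_le_one' (by simpa using v_nat V.valuation 2) h1
  · intro z hz h2
    rw [gxg_D]
    exact gv_DX G hz (by rw [two_mul]; exact h2)
  · intro z w hz hw hL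
    rw [gxg_D, gxg_t]
    exact (gnear G hz hw hL).2.1

end

end Pool.Agent.MUXE
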