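import Pool.Agent.MUX.StXE

/-!
# MUX, block E: the points of `E[P]` are in the kernel of reduction (KER)
-/

set_option autoImplicit false

open WeierstrassCurve Polynomial NumberField IsDedekindDomain

namespace Pool.Agent.MUXE

open _root_.MU3 Pool.Agent.MU3A Pool.Agent.MU3B Pool.Agent.MUX Pool.Agent.MUXU Pool.Agent.RI

noncomputable section

namespace KER

theorem fifth (L : PeriodPair) (a b : ℤ) (h : ¬ ((5 : ℤ) ∣ a ∧ (5 : ℤ) ∣ b)) :
    (a : ℂ) * (L.ω₁ / 5) + b * (L.ω₂ / 5) ∉ L.lattice := by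
  intro hm
  apply h
  have e : (a : ℂ) * (L.ω₁ / 5) + b * (L.ω₂ / 5) =
      ((a / 5 : ℚ) : ℂ) * L.ω₁ + ((b / 5 : ℚ) : ℂ) * L.ω₂ := by
    push_cast
    ring
  rw [e, PeriodPair.mul_ω₁_add_mul_ω₂_mem_lattice] at hm
  have key : ∀ c : ℤ, ((c / 5 : ℚ)).den = 1 → (5 : ℤ) ∣ c := by
    intro c hc
    refine ⟨((c / 5 : ℚ)).num, ?_⟩
    have h1 : ((((c / 5 : ℚ)).num : ℤ) : ℚ) = (c / 5 : ℚ) := (Rat.den_eq_one_iff _).1 hc
    have h2 : (c : ℚ) = 5 * ((((c / 5 : ℚ)).num : ℤ) : ℚ) := by
      rw [h1]
      ring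
    exact_mod_cast h2
  exact ⟨key a hm.1, key b hm.2⟩

end KER

open KER in
theorem te_KER (h1 : Sxe_PA) (h2 : Sxe_TRA) (h3 : Sxe_TRB) (h4 : Su_BAC) (h5 : Su_PFI) :
    Sxe_KER := by
  intro p A B P V h L hL z0 hz0 hz0L
  obtain ⟨-, pa2, pa3, pa4, pa5, pa6, -⟩ := h1 p A B P V h
  obtain ⟨tra1, tra2, tra3, tra4, tra5, -, -, tra8, tra9⟩ := h2 A B h.ring L hL
  obtain ⟨L', μ, hL', hQ⟩ := h.exq L hL
  have hμ : μ ≠ 0 := hQ.1
  have hvμ : V.valuation μ = V.valuation (p : ℂ) := h.mul L L' μ hL hL' hQ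
  obtain ⟨φ, hφ⟩ := h.ring.hom
  have embn : ∀ n : ℕ, emb ((n : ℕ) : OO A B) = n := fun n => by rw [← hφ, map_natCast]
  have g := h.gx L hL
  have g' := h.gx L' hL'
  have hTor : ∀ z, μ * z ∈ L'.lattice ↔ Tor P L z := hQ.2
  have hIsg : Isg L L' μ := fun w hw => (hTor w).2 (fun x _ => tra1 x w hw)
  obtain ⟨⟨R, hR⟩, -⟩ := h4.2 L L' μ hμ hIsg
  have hp5 : ¬ p ∣ 5 := by
    rcases h.two with rfl | rfl <;> omega
  obtain ⟨hv5, h5P⟩ := pa4 5 hp5
  have hPbot : P ≠ ⊥ := by
    intro h0
    have h6 := h.mem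
    rw [h0, Ideal.mem_bot] at h6
    have h7 := embn p
    rw [h6, ← hφ, map_zero] at h7
    apply pa3
    rw [← h7, map_zero]
  -- `E₁` is a subgroup which contains the lattice
  have inl : ∀ z, z ∈ L.lattice → InEn V L z := fun z hz => Or.inl hz
  have inadd := g.add
  have inneg := g.neg
  have insub : ∀ z w, InEn V L z → InEn V L w → InEn V L (z - w) := fun z w hz hw => by
    rw [sub_eq_add_neg]
    exact inadd _ _ hz (inneg _ hw)
  have inmul : ∀ (n : ℕ) z, InEn V L z → InEn V L (n * z) := by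
    intro n z hz
    induction n with
    | zero => exact inl _ (by simp)
    | succ n ih =>
      push_cast
      rw [add_mul, one_mul]
      exact inadd _ _ ih hz
  have inV : ∀ (M : PeriodPair) (z : ℂ), ¬ InEn V M z → xn M z ∈ V := by
    intro M z hz
    by_contra h6
    exact hz (Or.inr h6)
  -- points of order 5
  have ord5 : ∀ z : ℂ, ((5 : ℕ) : ℂ) * z ∈ L.lattice → z ∉ L.lattice → ¬ InEn V L z := fun z hz hzL hin =>
    hzL (g.tor z 5 hin hv5 hz)
  have ord5' : ∀ z : ℂ, ((5 : ℕ) : ℂ) * z ∈ L.lattice → z ∉ L.lattice →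
      μ * z ∉ L'.lattice ∧ ¬ InEn V L' (μ * z) := by
    intro z hz hzL
    have h6 : μ * z ∉ L'.lattice := by
      intro h7
      have h8 : Tor P L z := (hTor z).1 h7
      have h9 : Tor (sp ((5 : ℕ) : OO A B)) L z := by
        rw [tra5, embn]
        exact hz
      have h10 : ¬ sp ((5 : ℕ) : OO A B) ≤ P := by
        rw [Ideal.span_singleton_le_iff_mem]
        exact h5P
      have h11 := pa6 _ 1 h10
      rw [pow_one] at h11
      exact hzL (tra4 _ _ z h11 h9 h8)
    refine ⟨h6, fun hin => h6 (g'.tor _ 5 hin hv5 ?_)⟩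
    have h7 := hIsg _ hz
    rwa [show μ * (((5 : ℕ) : ℂ) * z) = ((5 : ℕ) : ℂ) * (μ * z) by ring] at h7
  set w1 : ℂ := L.ω₁ / 5 with hw1
  set w2 : ℂ := L.ω₂ / 5 with hw2
  have o1 := L.ω₁_mem_lattice
  have o2 := L.ω₂_mem_lattice
  have f1 : ((5 : ℕ) : ℂ) * w1 ∈ L.lattice := by
    rw [hw1]; convert o1 using 1; push_cast; ring
  have f2 : ((5 : ℕ) : ℂ) * w2 ∈ L.lattice := by
    rw [hw2]; convert o2 using 1; push_cast; ring
  have fa : ((5 : ℕ) : ℂ) * (w2 + w1) ∈ L.lattice := by
    rw [mul_add]; exact add_mem f2 f1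
  have fs : ((5 : ℕ) : ℂ) * (w2 - w1) ∈ L.lattice := by
    rw [mul_sub]; exact sub_mem f2 f1
  have n1 : w1 ∉ L.lattice := by
    have := fifth L 1 0 (by omega)
    simpa using this
  have n2 : w2 ∉ L.lattice := by
    have := fifth L 0 1 (by omega)
    simpa using this
  have na : w2 + w1 ∉ L.lattice := by
    have := fifth L 1 1 (by omega)
    simpa [add_comm] using this
  have ns : w2 - w1 ∉ L.lattice := by
    have := fifth L (-1) 1 (by omega)
    intro h6
    apply this
    convert h6 using 1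
    push_cast
    ring
  -- the product formula
  obtain ⟨m1, i1⟩ := ord5' w1 f1 n1
  obtain ⟨m2, i2⟩ := ord5' w2 f2 n2
  obtain ⟨-, ia⟩ := ord5' _ fa na
  obtain ⟨-, is⟩ := ord5' _ fs ns
  have pf := h5 L L' μ R hμ hIsg hR w1 m1 w2 m2
  have xd : ∀ (M : PeriodPair) (a b : ℂ), M.weierstrassP a - M.weierstrassP b = xn M a - xn M b := by
    intro M a b
    unfold xn
    ring
  simp only [xd] at pf
  have pv := congrArg V.valuation pf
  rw [map_mul, map_mul, map_pow, map_mul] at pv
  have u1 : V.valuation (xn L' (μ * w2) - xn L' (μ * w1)) = 1 := by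
    refine g'.sub _ _ i2 i1 ?_ ?_
    · rw [← mul_add]; exact ia
    · rw [← mul_sub]; exact is
  have u2 : V.valuation (xn L w2 - xn L w1) = 1 :=
    g.sub _ _ (ord5 _ f2 n2) (ord5 _ f1 n1) (ord5 _ fa na) (ord5 _ fs ns)
  rw [u1, u2, mul_one, one_mul, hvμ] at pv
  -- congruence of the points of `E[P]`
  have cong : ∀ q q', Tor P L q → Tor P L q' → q ∉ L.lattice → q' ∉ L.lattice →
      q' - q ∈ L.lattice ∨ q' + q ∈ L.lattice := by
    intro q q' hq hq' hqL hqL'
    obtain ⟨x, hx⟩ := (h3 A B h.ring L hL).2 P hPbot pa5 q q' hq hq' hqL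
    by_cases hxP : x ∈ P
    · exfalso
      apply hqL'
      have := add_mem hx (hq x hxP)
      rwa [sub_add_cancel] at this
    · rcases (pa2 x hxP).2 with h6 | h6
      · left
        have h7 := add_mem hx (hq _ h6)
        rw [← hφ (x - 1), map_sub, map_one, hφ] at h7
        convert h7 using 1
        ring
      · right
        have h7 := add_mem hx (hq _ h6)
        rw [← hφ (x + 1), map_add, map_one, hφ] at h7
        convert h7 using 1
        ring
  have pq : ∀ q, Tor P L q → (p : ℂ) * q ∈ L.lattice := by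
    intro q hq
    have := hq _ h.mem
    rwa [embn] at this
  have torR : ∀ q ∈ R, Tor P L q := fun q hq => (hTor q).1 (hR.mem q hq)
  -- all points are in `E₁`
  have allin : ∀ q, Tor P L q → q ∉ L.lattice → InEn V L q := by
    intro q0 hq0 hq0L
    by_contra hne
    have hnone : ∀ q, Tor P L q → q ∉ L.lattice → ¬ InEn V L q := by
      intro q hq hqL hin
      apply hne
      rcases cong q q0 hq hq0 hqL hq0L with h6 | h6
      · have := inadd _ _ (inl _ h6) hin
        rwa [sub_add_cancel] at this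
      · have := insub _ _ (inl _ h6) hin
        rwa [add_sub_cancel_right] at this
    have five : ∀ q, Tor P L q → q ∉ L.lattice → ¬ InEn V L ((5 : ℕ) * q) := by
      intro q hq hqL hin
      apply hnone q hq hqL
      have hpq := pq q hq
      rcases h.two with hp | hp
      · rw [hp] at hpq
        have h6 := insub _ _ hin (inmul 2 _ (inl _ hpq))
        convert h6 using 1
        push_cast
        ring
      · rw [hp] at hpq
        have h6 := insub _ _ (inmul 2 _ hin) (inmul 3 _ (inl _ hpq))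
        convert h6 using 1
        push_cast
        ring
    have hR1 : ∀ q ∈ R, V.valuation (xn L w2 - xn L (w1 + q)) = 1 := by
      intro q hq
      have hqT := torR q hq
      have hqL := hR.ne q hq
      have h50 := five q hqT hqL
      refine g.sub _ _ (ord5 _ f2 n2) ?_ ?_ ?_
      · intro hin
        apply h50
        have h6 := insub _ _ (inmul 5 _ hin) (inl _ f1)
        convert h6 using 1
        ring
      · intro hin
        apply h50
        have h6 := insub _ _ (insub _ _ (inmul 5 _ hin) (inl _ f1)) (inl _ f2)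
        convert h6 using 1
        ring
      · intro hin
        apply h50
        have h6 := insub _ _ (insub _ _ (inl _ f2) (inl _ f1)) (inmul 5 _ hin)
        convert h6 using 1
        ring
    have hprod : V.valuation (∏ q ∈ R, (xn L w2 - xn L (w1 + q))) = 1 := by
      rw [map_prod]
      exact Finset.prod_eq_one hR1
    have hle : V.valuation (∏ q ∈ R, (xn L w2 - xn L q)) ≤ 1 := by
      rw [ValuationSubring.valuation_le_one_iff]
      refine prod_mem fun q hq => ?_
      exact sub_mem (inV L _ (ord5 _ f2 n2)) (inV L _ (hnone q (torR q hq) (hR.ne q hq)))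
    rw [hprod] at pv
    have hlt : V.valuation (p : ℂ) ^ 2 * V.valuation (∏ q ∈ R, (xn L w2 - xn L q)) < 1 :=
      mul_lt_one_of_nonneg_of_lt_one_left zero_le (pow_lt_one₀ zero_le h.vp two_ne_zero) hle
    rw [pv] at hlt
    exact lt_irrefl _ hlt
  refine ⟨allin z0 hz0 hz0L, ?_⟩
  -- the second part
  have hRin : ∀ q ∈ R, InEn V L q := fun q hq => allin q (torR q hq) (hR.ne q hq)
  have hR1 : ∀ q ∈ R, V.valuation (xn L w2 - xn L (w1 + q)) = 1 := by
    intro q hq
    have hn := g.near w1 q (ord5 _ f1 n1) (hRin q hq) (hR.ne q hq)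
    have ht := (g.par q (hRin q hq) (hR.ne q hq)).1
    have hD := g.intD w1 (ord5 _ f1 n1)
    have h6 : V.valuation (xn L (w1 + q) - xn L w1) < 1 := by
      have h7 : xn L (w1 + q) - xn L w1 =
          (xn L (w1 + q) - xn L w1 - L.derivWeierstrassP w1 * tE L q) +
            L.derivWeierstrassP w1 * tE L q := by ring
      rw [h7]
      refine lt_of_le_of_lt (V.valuation.map_add _ _) (max_lt ?_ ?_)
      · exact lt_of_le_of_lt hn (pow_lt_one₀ zero_le ht two_ne_zero)
      · rw [map_mul, mul_comm]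
        exact mul_lt_one_of_nonneg_of_lt_one_left zero_le ht hD
    have h8 : xn L w2 - xn L (w1 + q) = (xn L w2 - xn L w1) - (xn L (w1 + q) - xn L w1) := by ring
    rw [h8, Valuation.map_sub_eq_of_lt_left]
    · exact u2
    · rw [u2]; exact h6
  have hR2 : ∀ q ∈ R, V.valuation (xn L w2 - xn L q) = V.valuation (xn L q) := by
    intro q hq
    have hx2 : V.valuation (xn L w2) ≤ 1 := (V.valuation_le_one_iff _).2 (inV L _ (ord5 _ f2 n2))
    have hxq : 1 < V.valuation (xn L q) := by
      rcases hRin q hq with h6 | h6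
      · exact absurd h6 (hR.ne q hq)
      · by_contra h7
        exact h6 ((V.valuation_le_one_iff _).1 (not_lt.1 h7))
    rw [Valuation.map_sub_swap, Valuation.map_sub_eq_of_lt_left]
    exact lt_of_le_of_lt hx2 hxq
  obtain ⟨q0, hq0R, hq0z⟩ := hR.surj z0 ((hTor z0).2 hz0) hz0L
  have hq0L := hR.ne q0 hq0R
  have hq0T := torR q0 hq0R
  have hxeq : ∀ q ∈ R, xn L q = xn L q0 := by
    intro q hq
    rcases cong q0 q hq0T (torR q hq) hq0L (hR.ne q hq) with h6 | h6
    · exact ((tra9 _ _ h6).2 (hR.ne q hq)).1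
    · have h7 : q - -q0 ∈ L.lattice := by rwa [sub_neg_eq_add]
      have h8 := ((tra9 _ _ h7).2 (hR.ne q hq)).1
      have h9 : q0 - q0 ∈ L.lattice := by rw [sub_self]; exact zero_mem _
      rw [h8]
      exact ((tra9 _ _ h9).2 hq0L).2.2
  have hcard : R.card = p - 1 := by
    have hpq := pq q0 hq0T
    rcases h.two with hp | hp
    · have : R = {q0} := by
        refine Finset.eq_singleton_iff_unique_mem.2 ⟨hq0R, fun q hq => ?_⟩
        rcases cong q0 q hq0T (torR q hq) hq0L (hR.ne q hq) with h6 | h6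
        · exact hR.inj q hq q0 hq0R h6
        · apply hR.inj q hq q0 hq0R
          rw [hp] at hpq
          have h7 := sub_mem h6 hpq
          convert h7 using 1
          push_cast
          ring
      rw [this, hp, Finset.card_singleton]
    · have hnT : Tor P L (-q0) := fun x hx => by
        rw [mul_neg]
        exact neg_mem (hq0T x hx)
      have hnL : -q0 ∉ L.lattice := fun h6 => hq0L (by simpa using neg_mem h6)
      obtain ⟨q1, hq1R, hq1⟩ := hR.surj (-q0) ((hTor _).2 hnT) hnL
      have hne : q0 ≠ q1 := by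
        rintro rfl
        apply hq0L
        rw [hp] at hpq
        have h7 := add_mem hq1 hpq
        convert h7 using 1
        push_cast
        ring
      have : R = {q0, q1} := by
        ext q
        rw [Finset.mem_insert, Finset.mem_singleton]
        constructor
        · intro hq
          rcases cong q0 q hq0T (torR q hq) hq0L (hR.ne q hq) with h6 | h6
          · exact Or.inl (hR.inj q hq q0 hq0R h6)
          · right
            apply hR.inj q hq q1 hq1R
            have h7 := add_mem h6 hq1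
            convert h7 using 1
            ring
        · rintro (rfl | rfl)
          · exact hq0R
          · exact hq1R
      rw [this, hp, Finset.card_pair hne]
  have hfin : V.valuation (p : ℂ) ^ 2 * V.valuation (xn L q0) ^ (p - 1) = 1 := by
    have h6 : V.valuation (∏ q ∈ R, (xn L w2 - xn L (w1 + q))) = 1 := by
      rw [map_prod]
      exact Finset.prod_eq_one hR1
    have h7 : V.valuation (∏ q ∈ R, (xn L w2 - xn L q)) = V.valuation (xn L q0) ^ (p - 1) := by
      rw [map_prod, Finset.prod_congr rfl (fun q hq => (hR2 q hq).trans (by rw [hxeq q hq])),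
        Finset.prod_const, hcard]
    rw [h6, h7] at pv
    exact pv
  obtain ⟨-, ht0, hpar⟩ := g.par q0 (hRin q0 hq0R) hq0L
  have htz : tE L z0 = tE L q0 := ((tra9 _ _ hq0z).2 hz0L).2.1
  rw [htz]
  rcases h.two with hp | hp
  · subst hp
    norm_num at hfin ⊢
    have h6 : V.valuation (tE L q0) ^ 2 = V.valuation (2 : ℂ) ^ 2 := by
      calc V.valuation (tE L q0) ^ 2
          = (V.valuation (2 : ℂ) ^ 2 * V.valuation (xn L q0)) * V.valuation (tE L q0) ^ 2 := by
            rw [hfin, one_mul]
        _ = V.valuation (2 : ℂ) ^ 2 * (V.valuation (xn L q0) * V.valuation (tE L q0) ^ 2) := by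
            rw [mul_assoc]
        _ = V.valuation (2 : ℂ) ^ 2 := by rw [hpar, mul_one]
    exact (pow_left_inj₀ zero_le zero_le two_ne_zero).1 h6
  · subst hp
    norm_num at hfin ⊢
    have h6 : (V.valuation (tE L q0) ^ 2) ^ 2 = V.valuation (3 : ℂ) ^ 2 := by
      calc (V.valuation (tE L q0) ^ 2) ^ 2
          = (V.valuation (3 : ℂ) ^ 2 * V.valuation (xn L q0) ^ 2) *
              (V.valuation (tE L q0) ^ 2) ^ 2 := by
            rw [hfin, one_mul]
        _ = V.valuation (3 : ℂ) ^ 2 *
              (V.valuation (xn L q0) * V.valuation (tE L q0) ^ 2) ^ 2 := by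
            rw [mul_assoc, mul_pow]
        _ = V.valuation (3 : ℂ) ^ 2 := by rw [hpar, one_pow, mul_one]
    exact (pow_left_inj₀ zero_le zero_le two_ne_zero).1 h6

end

end Pool.Agent.MUXE
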