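import Pool.Agent.MUX.StXE

/-!
# MUX, block E: module MUV, the multipliers `μ_i` are units
-/

set_option autoImplicit false

open WeierstrassCurve Polynomial NumberField IsDedekindDomain

namespace Pool.Agent.MUXE

open _root_.MU3 Pool.Agent.MU3A Pool.Agent.MU3B Pool.Agent.MUX Pool.Agent.MUXU Pool.Agent.RI

/-- two coprime natural numbers killing `z` modulo `L` -/
private lemma mem_of_cop {L : PeriodPair} {z : ℂ} {a b : ℕ} (h : a.Coprime b)
    (ha : (a : ℂ) * z ∈ L.lattice) (hb : (b : ℂ) * z ∈ L.lattice) : z ∈ L.lattice := by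
  have h1 : (1 : ℤ) = a * a.gcdA b + b * a.gcdB b := by
    have := Nat.gcd_eq_gcd_ab a b
    rw [h.gcd_eq_one] at this
    exact_mod_cast this
  have h2 : z = (a.gcdA b : ℤ) • ((a : ℂ) * z) + (a.gcdB b : ℤ) • ((b : ℂ) * z) := by
    rw [zsmul_eq_mul, zsmul_eq_mul]
    have h3 : (1 : ℂ) = a * (a.gcdA b : ℤ) + b * (a.gcdB b : ℤ) := by exact_mod_cast h1
    linear_combination z * h3
  rw [h2]
  exact add_mem (zsmul_mem ha _) (zsmul_mem hb _)

private lemma v_one_lt {V : ValuationSubring ℂ} {L : PeriodPair} {z : ℂ} (h : InEn V L z)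
    (hz : z ∉ L.lattice) : 1 < V.valuation (xn L z) := by
  rcases h with h | h
  · exact absurd h hz
  · rw [← not_le, ValuationSubring.valuation_le_one_iff]
    exact h

private lemma v_le_one {V : ValuationSubring ℂ} {L : PeriodPair} {z : ℂ} (h : ¬ InEn V L z) :
    V.valuation (xn L z) ≤ 1 := by
  unfold InEn at h
  push Not at h
  exact (ValuationSubring.valuation_le_one_iff _ _).2 h.2

private lemma v_sub {V : ValuationSubring ℂ} {x y : ℂ} (hx : 1 < V.valuation x)
    (hy : V.valuation y ≤ 1) : V.valuation (x - y) = V.valuation x :=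
  Valuation.map_sub_eq_of_lt_left _ (hy.trans_lt hx)

theorem te_MUV (h1 : Sxe_PA) (h2 : Sxe_KER) (h3 : Sxe_PT) (h4 : Sxe_TRA) (h5 : Sxe_TRB)
    (h6 : Su_BAC) (h7 : Su_PFI) : Sxe_MUV := by
  intro p A B P V c n ι R hn hpn i
  obtain ⟨-, -, hvp0, hcop, hPmax, -, -⟩ := h1 p A B P V c
  obtain ⟨hmu0, hmuL, hmuinj, -⟩ := h3 A B c.ring n ι R hn i
  obtain ⟨φ, hφ⟩ := c.ring.hom
  have hnat : ∀ k : ℕ, emb (k : OO A B) = k := fun k => by rw [← hφ, map_natCast]
  have hpp : p.Prime := by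
    rcases c.two with h | h
    · rw [h]; exact Nat.prime_two
    · rw [h]; exact Nat.prime_three
  have hNL0 : NL A B (R.L R.i0) := ⟨_, _, R.nl R.i0⟩
  have hNLi : NL A B (R.L i) := ⟨_, _, R.nl i⟩
  set L0 := R.L R.i0 with hL0
  set Li := R.L i with hLi
  set mu := muX R i with hmu
  -- natural numbers are not zero in `O`
  have hne : ∀ k : ℕ, k ≠ 0 → (k : OO A B) ≠ 0 := by
    intro k hk h
    have := hnat k
    rw [h, ← hφ, map_zero] at this
    exact hk (by exact_mod_cast this.symm)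
  obtain ⟨hmulL, -, -, -, hsp, -⟩ := h4 A B c.ring L0 hNL0
  -- the point `u`
  obtain ⟨u, huT, huN⟩ : ∃ z, Tor P L0 z ∧ z ∉ L0.lattice := by
    obtain ⟨z, hz1, hz2⟩ := (h5 A B c.ring L0 hNL0).1 ⊤ P
      (fun h => hne p hpp.ne_zero (by have := c.mem; rwa [h, Ideal.mem_bot] at this))
      (lt_top_iff_ne_top.mpr c.prime.ne_top)
    exact ⟨z, hz1, fun h => hz2 fun x _ => hmulL x z h⟩
  have hu'T : Tor P Li (mu * u) := by
    intro x hx
    have : emb x * (mu * u) = mu * (emb x * u) := by ring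
    rw [this]
    exact hmuL _ (huT x hx)
  have hu'N : mu * u ∉ Li.lattice := by
    intro h
    refine huN (hmuinj p hpp.ne_zero (Nat.primeFactors_mono hpn hn) u ?_ h)
    have := huT _ c.mem
    rwa [hnat p] at this
  obtain ⟨hE, hEt⟩ := h2 p A B P V c L0 hNL0 u huT huN
  obtain ⟨hE', hEt'⟩ := h2 p A B P V c Li hNLi (mu * u) hu'T hu'N
  have G0 := c.gx L0 hNL0
  have Gi := c.gx Li hNLi
  obtain ⟨-, ht0, hxt⟩ := G0.par u hE huN
  obtain ⟨-, ht0', hxt'⟩ := Gi.par (mu * u) hE' hu'N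
  have hp1 : p - 1 ≠ 0 := by have := hpp.two_le; omega
  have htt : V.valuation (tE L0 u) = V.valuation (tE Li (mu * u)) := by
    apply (pow_left_inj₀ zero_le zero_le hp1).mp
    rw [hEt, hEt']
  have hxx : V.valuation (xn Li (mu * u)) = V.valuation (xn L0 u) := by
    rw [htt, ← hxt'] at hxt
    exact (mul_right_cancel₀ (pow_ne_zero 2 ht0') hxt).symm
  -- the norm of `b_i`
  set N := nI (R.b i) with hN
  have hpN : ¬ p ∣ N := by
    intro h
    have := Nat.dvd_gcd h hpn
    rw [(R.cop i).gcd_eq_one] at this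
    exact hpp.one_lt.ne' (Nat.dvd_one.mp this)
  have hN0 : N ≠ 0 := fun h => hpN (h ▸ dvd_zero p)
  have hom0 : R.om R.i0 ≠ 0 := (R.nl R.i0).om_ne
  have homi : R.om i ≠ 0 := (R.nl i).om_ne
  have hker : ∀ z, mu * z ∈ Li.lattice → (N : ℂ) * z ∈ L0.lattice := by
    intro z hz
    obtain ⟨x, -, hx⟩ := ((R.nl i).mem _).mp hz
    refine ((R.nl R.i0).mem _).mpr ⟨x, by rw [R.b0]; trivial, ?_⟩
    rw [hmu] at hx
    unfold muX at hx
    rw [← hN] at hx
    field_simp at hx
    linear_combination hx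
  -- the prime `l`
  obtain ⟨l, hl1, hl⟩ := Nat.exists_infinite_primes (2 * p * N + 1)
  have hpos : 0 < p * N := Nat.mul_pos hpp.pos (Nat.pos_of_ne_zero hN0)
  have hpl : ¬ p ∣ l := by
    intro h
    have h8 : p = l := (Nat.prime_dvd_prime_iff_eq hpp hl).mp h
    have h9 : p ≤ p * N := Nat.le_mul_of_pos_right _ (Nat.pos_of_ne_zero hN0)
    nlinarith
  have hlN : l.Coprime N := by
    rw [Nat.Prime.coprime_iff_not_dvd hl]
    intro h
    have h8 := Nat.le_of_dvd (Nat.pos_of_ne_zero hN0) h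
    have h9 : N ≤ p * N := Nat.le_mul_of_pos_left _ hpp.pos
    nlinarith
  have hvl : V.valuation (l : ℂ) = 1 := (hcop l hpl).1
  have hvN : V.valuation (N : ℂ) = 1 := (hcop N hpN).1
  obtain ⟨w, hlw, hwN⟩ : ∃ z, (l : ℂ) * z ∈ L0.lattice ∧ z ∉ L0.lattice := by
    obtain ⟨z, hz1, hz2⟩ := (h5 A B c.ring L0 hNL0).1 ⊤ (sp (l : OO A B))
      (fun h => hne l hl.ne_zero (by rwa [Ideal.span_singleton_eq_bot] at h))
      (lt_top_iff_ne_top.mpr (by
        intro h
        have h8 : IsUnit (l : OO A B) := Ideal.span_singleton_eq_top.mp h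
        obtain ⟨y, hy⟩ := h8.exists_right_inv
        have h9 := congrArg QuadraticAlgebra.re hy
        have h10 : (l : ℤ) * y.re = 1 := by
          have h13 : ((l : OO A B) * y).re = (l : ℤ) * y.re := by simp
          rw [← h13, h9]; rfl
        have h11 : (l : ℤ) ∣ 1 := Dvd.intro _ h10
        have h12 : l ∣ 1 := by exact_mod_cast h11
        exact hl.one_lt.ne' (Nat.dvd_one.mp h12)))
    refine ⟨z, ?_, fun h => hz2 fun x _ => hmulL x z h⟩
    have := (hsp (l : OO A B) z).mp hz1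
    rwa [hnat l] at this
  have hwE : ¬ InEn V L0 w := fun h => hwN (G0.tor w l h hvl hlw)
  have hmwN : mu * w ∉ Li.lattice := fun h => hwN (mem_of_cop hlN hlw (hker w h))
  have hmwE : ¬ InEn V Li (mu * w) := by
    intro h
    refine hmwN (Gi.tor _ l h hvl ?_)
    have : (l : ℂ) * (mu * w) = mu * (l * w) := by ring
    rw [this]
    exact hmuL _ hlw
  obtain ⟨⟨Q, hQ⟩, -⟩ := h6.2 L0 Li mu hmu0 hmuL
  have hqE : ∀ q ∈ Q, ¬ InEn V L0 q := fun q hq h =>
    hQ.ne q hq (G0.tor q N h hvN (hker q (hQ.mem q hq)))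
  have hwqE : ∀ q ∈ Q, ¬ InEn V L0 (w + q) := by
    intro q hq h
    have hv : V.valuation ((l * N : ℕ) : ℂ) = 1 := by
      push_cast; rw [map_mul, hvl, hvN, one_mul]
    have hm : ((l * N : ℕ) : ℂ) * (w + q) ∈ L0.lattice := by
      have e : ((l * N : ℕ) : ℂ) * (w + q) = (N : ℤ) • ((l : ℂ) * w) + (l : ℤ) • ((N : ℂ) * q) := by
        rw [zsmul_eq_mul, zsmul_eq_mul]; push_cast; ring
      rw [e]
      exact add_mem (zsmul_mem hlw _) (zsmul_mem (hker q (hQ.mem q hq)) _)
    have h8 := hmuL _ (G0.tor (w + q) (l * N) h hv hm)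
    rw [mul_add] at h8
    exact hmwN (by simpa using sub_mem h8 (hQ.mem q hq))
  -- the product formula
  have hPF := h7 L0 Li mu Q hmu0 hmuL hQ w hmwN u hu'N
  have hT := v_one_lt hE huN
  have hT' := v_one_lt hE' hu'N
  have e1 : V.valuation (Li.weierstrassP (mu * u) - Li.weierstrassP (mu * w)) =
      V.valuation (xn L0 u) := by
    have : Li.weierstrassP (mu * u) - Li.weierstrassP (mu * w) = xn Li (mu * u) - xn Li (mu * w) := by
      unfold xn; ring
    rw [this, v_sub hT' (v_le_one hmwE), hxx]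
  have e2 : V.valuation (L0.weierstrassP u - L0.weierstrassP w) = V.valuation (xn L0 u) := by
    have : L0.weierstrassP u - L0.weierstrassP w = xn L0 u - xn L0 w := by unfold xn; ring
    rw [this, v_sub hT (v_le_one hwE)]
  have e3 : V.valuation (∏ q ∈ Q, (L0.weierstrassP u - L0.weierstrassP q)) =
      V.valuation (xn L0 u) ^ Q.card := by
    rw [map_prod, ← Finset.prod_const]
    refine Finset.prod_congr rfl fun q hq => ?_
    have : L0.weierstrassP u - L0.weierstrassP q = xn L0 u - xn L0 q := by unfold xn; ring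
    rw [this, v_sub hT (v_le_one (hqE q hq))]
  have e4 : V.valuation (∏ q ∈ Q, (L0.weierstrassP u - L0.weierstrassP (w + q))) =
      V.valuation (xn L0 u) ^ Q.card := by
    rw [map_prod, ← Finset.prod_const]
    refine Finset.prod_congr rfl fun q hq => ?_
    have : L0.weierstrassP u - L0.weierstrassP (w + q) = xn L0 u - xn L0 (w + q) := by
      unfold xn; ring
    rw [this, v_sub hT (v_le_one (hwqE q hq))]
  have h8 := congrArg V.valuation hPF
  rw [map_mul, map_mul, map_mul, map_pow, e1, e2, e3, e4] at h8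
  have hT0 : V.valuation (xn L0 u) * V.valuation (xn L0 u) ^ Q.card ≠ 0 := by
    have : V.valuation (xn L0 u) ≠ 0 := (lt_trans zero_lt_one hT).ne'
    exact mul_ne_zero this (pow_ne_zero _ this)
  have h9 : V.valuation mu ^ 2 = 1 := by
    rw [mul_assoc] at h8
    exact (mul_eq_right₀ hT0).mp h8
  rcases lt_trichotomy (V.valuation mu) 1 with h | h | h
  · exact absurd h9 (pow_lt_one₀ zero_le h two_ne_zero).ne
  · exact h
  · exact absurd h9 (one_lt_pow₀ h two_ne_zero).ne'

end Pool.Agent.MUXE
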