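import Pool.Agent.MUX.StXE

/-!
# MUX, block E, module NE1: the points that occur are not in the kernel of reduction
-/

set_option autoImplicit false

open WeierstrassCurve Polynomial NumberField IsDedekindDomain

namespace Pool.Agent.MUXE

open _root_.MU3 Pool.Agent.MU3A Pool.Agent.MU3B Pool.Agent.MUX Pool.Agent.MUXU Pool.Agent.RI

noncomputable section

namespace NE1

lemma nat_mul_mem {L : PeriodPair} (c : ℕ) {w : ℂ} (hw : w ∈ L.lattice) :
    (c : ℂ) * w ∈ L.lattice := by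
  have h := L.lattice.smul_mem (c : ℤ) hw
  simpa using h

lemma inEn_nat {V : ValuationSubring ℂ} {L : PeriodPair} (hG : GX V L) {w : ℂ}
    (hw : InEn V L w) (c : ℕ) : InEn V L ((c : ℂ) * w) := by
  induction c with
  | zero =>
    left
    rw [Nat.cast_zero, zero_mul]
    exact zero_mem _
  | succ c ih =>
    have h : ((c + 1 : ℕ) : ℂ) * w = (c : ℂ) * w + w := by
      push_cast
      ring
    rw [h]
    exact hG.add _ _ ih hw

end NE1

open NE1 in
/-- NE1. -/
theorem te_NE1 (h1 : Sxe_PA) (_h2 : Sxe_TRA) : Sxe_NE1 := by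
  intro p A B P V hC L hL e m₁ a hm hpm hpa hco z hz hord
  have hG := hC.gx L hL
  obtain ⟨-, -, -, hn, -⟩ := h1 p A B P V hC
  have hp : p.Prime := by
    rcases hC.two with h | h
    · rw [h]
      exact Nat.prime_two
    · rw [h]
      exact Nat.prime_three
  have hva : V.valuation (a : ℂ) = 1 := (hn a hpa).1
  have hvma : V.valuation ((m₁ * a : ℕ) : ℂ) = 1 := by
    refine (hn _ ?_).1
    rw [hp.dvd_mul]
    rintro (h | h)
    · exact hpm h
    · exact hpa h
  have hno : ∀ k : ℕ, k ≤ e → ((a * p ^ k : ℕ) : ℂ) * z ∉ L.lattice := by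
    intro k hk hmem
    have h3 := hord _ hmem
    have h4 : m₁ ∣ a * p ^ k := (Dvd.intro_left _ rfl).trans h3
    have h5 : m₁.Coprime (p ^ k) :=
      Nat.Coprime.pow_right k ((Nat.Prime.coprime_iff_not_dvd hp).2 hpm).symm
    have h6 : m₁ ∣ a := h5.dvd_of_dvd_mul_right h4
    have h7 : m₁ = 1 := Nat.Coprime.eq_one_of_dvd hco.symm h6
    omega
  have key : ∀ q : ℂ, (a : ℂ) * q ∈ L.lattice → ¬ InEn V L (z + q) := by
    intro q hq hE
    have hE' := inEn_nat hG hE (p ^ e)
    have hmem : ((m₁ * a : ℕ) : ℂ) * (((p ^ e : ℕ) : ℂ) * (z + q)) ∈ L.lattice := by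
      have h3 := add_mem (nat_mul_mem a hz) (nat_mul_mem (p ^ e * m₁) hq)
      have h4 : ((m₁ * a : ℕ) : ℂ) * (((p ^ e : ℕ) : ℂ) * (z + q)) =
          (a : ℂ) * (((p ^ e * m₁ : ℕ) : ℂ) * z) + ((p ^ e * m₁ : ℕ) : ℂ) * ((a : ℂ) * q) := by
        push_cast
        ring
      rw [h4]
      exact h3
    have hz' := hG.tor _ _ hE' hvma hmem
    have h5 := sub_mem (nat_mul_mem a hz') (nat_mul_mem (p ^ e) hq)
    refine hno e le_rfl ?_
    have h6 : ((a * p ^ e : ℕ) : ℂ) * z =
        (a : ℂ) * (((p ^ e : ℕ) : ℂ) * (z + q)) - ((p ^ e : ℕ) : ℂ) * ((a : ℂ) * q) := by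
      push_cast
      ring
    rw [h6]
    exact h5
  refine ⟨?_, ?_, ?_⟩
  · have h3 := key 0 (by rw [mul_zero]; exact zero_mem _)
    rwa [add_zero] at h3
  · have h3 := hno 0 (Nat.zero_le _)
    rwa [pow_zero, mul_one] at h3
  · intro q hq hqL
    refine ⟨?_, key q hq, ?_⟩
    · intro hE
      exact hqL (hG.tor _ _ hE hva hq)
    · rw [sub_eq_add_neg]
      refine key (-q) ?_
      rw [mul_neg]
      exact neg_mem hq

end

end Pool.Agent.MUXE
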