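import Pool.Agent.MUX.StXE

/-!
# MUX, block E, module PA: the prime `P`, first part
-/

set_option autoImplicit false

open WeierstrassCurve Polynomial NumberField IsDedekindDomain

namespace Pool.Agent.MUXE

open _root_.MU3 Pool.Agent.MU3A Pool.Agent.MU3B Pool.Agent.MUX Pool.Agent.MUXU Pool.Agent.RI

noncomputable section

namespace PA

variable {A B : ℤ}

lemma sq_eq (x : OO A B) :
    x * x = ((2 * x.re + B * x.im : ℤ) : OO A B) * x - ((nm x : ℤ) : OO A B) := by
  have key : ∀ t n : ℤ, t = 2 * x.re + B * x.im → n = nm x →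
      x * x = (t : OO A B) * x - (n : OO A B) := by
    intro t n ht hn
    unfold nm at hn
    apply QuadraticAlgebra.ext
    · simp only [QuadraticAlgebra.re_mul, QuadraticAlgebra.re_sub, QuadraticAlgebra.re_intCast,
        QuadraticAlgebra.im_intCast, Int.cast_id]
      rw [ht, hn]
      ring
    · simp only [QuadraticAlgebra.im_mul, QuadraticAlgebra.im_sub, QuadraticAlgebra.re_intCast,
        QuadraticAlgebra.im_intCast, Int.cast_id]
      rw [ht]
      ring
  exact key _ _ rfl rfl

lemma val_le (h : RingE A B) (V : ValuationSubring ℂ) (x : OO A B) : V.valuation (emb x) ≤ 1 := by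
  obtain ⟨φ, hφ⟩ := h.hom
  rw [← hφ, ValuationSubring.valuation_le_one_iff]
  by_contra hx
  have h1 := congrArg φ (sq_eq x)
  rw [map_mul, map_sub, map_mul, map_intCast, map_intCast] at h1
  rcases V.mem_or_inv_mem (φ x) with h2 | h2
  · exact hx h2
  · have h0 : φ x ≠ 0 := by
      intro h0
      rw [h0] at hx
      exact hx V.zero_mem
    apply hx
    have h3 : φ x = ((2 * x.re + B * x.im : ℤ) : ℂ) - ((nm x : ℤ) : ℂ) * (φ x)⁻¹ := by
      field_simp
      linear_combination h1
    rw [h3]
    exact sub_mem (intCast_mem V _) (mul_mem (intCast_mem V _) h2)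

lemma isMaximal {p : ℕ} (hp : p.Prime) {P : Ideal (OO A B)} (hP : P.IsPrime) (hn : nI P = p) :
    P.IsMaximal := by
  have hfin : Finite (OO A B ⧸ P) := by
    apply Nat.finite_of_card_ne_zero
    change nI P ≠ 0
    rw [hn]
    exact hp.ne_zero
  exact Ideal.Quotient.maximal_of_isField P (Finite.isField_of_domain (OO A B ⧸ P))

lemma cls {p : ℕ} (hp : p = 2 ∨ p = 3) {P : Ideal (OO A B)} (hP : P.IsPrime) (hn : nI P = p)
    {x : OO A B} (hx : x ∉ P) : x - 1 ∈ P ∨ x + 1 ∈ P := by
  have hpp : p.Prime := by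
    rcases hp with rfl | rfl
    · exact Nat.prime_two
    · exact Nat.prime_three
  have hfin : Finite (OO A B ⧸ P) := by
    apply Nat.finite_of_card_ne_zero
    change nI P ≠ 0
    rw [hn]
    exact hpp.ne_zero
  have hmax := isMaximal hpp hP hn
  let _ := Ideal.Quotient.field P
  have : Fintype (OO A B ⧸ P) := Fintype.ofFinite _
  have hc : Fintype.card (OO A B ⧸ P) = p := by
    rw [← Nat.card_eq_fintype_card]
    exact hn
  have h0 : Ideal.Quotient.mk P x ≠ 0 := by
    rw [Ne, Ideal.Quotient.eq_zero_iff_mem]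
    exact hx
  have h1 := FiniteField.pow_card_sub_one_eq_one (Ideal.Quotient.mk P x) h0
  rw [hc, ← map_pow, ← map_one (Ideal.Quotient.mk P), Ideal.Quotient.eq] at h1
  rcases hp with rfl | rfl
  · left
    simpa using h1
  · have h2 : (x - 1) * (x + 1) ∈ P := by
      have e : (x - 1) * (x + 1) = x ^ (3 - 1) - 1 := by ring
      rw [e]
      exact h1
    exact hP.mem_or_mem h2

end PA

open PA in
theorem te_PA : Sxe_PA := by
  intro p A B P V h
  have hpp : p.Prime := by
    rcases h.two with rfl | rfl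
    · exact Nat.prime_two
    · exact Nat.prime_three
  have hmax : P.IsMaximal := isMaximal hpp h.prime h.norm
  obtain ⟨φ, hφ⟩ := h.ring.hom
  have hded : IsDedekindDomain (OO A B) := h.ring.ded
  have hv1 : ∀ x : OO A B, x ∉ P → V.valuation (emb x) = 1 := by
    intro x hx
    rcases cls h.two h.prime h.norm hx with h1 | h1
    · have h2 := h.vP _ h1
      rw [← hφ, map_sub, map_one] at h2
      rw [← hφ]
      have h3 : V.valuation (1 + (φ x - 1)) = V.valuation 1 :=
        Valuation.map_add_eq_of_lt_left _ (by rwa [map_one])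
      rwa [add_sub_cancel, map_one] at h3
    · have h2 := h.vP _ h1
      rw [← hφ, map_add, map_one] at h2
      rw [← hφ]
      have h3 : V.valuation (-1 + (φ x + 1)) = V.valuation (-1) :=
        Valuation.map_add_eq_of_lt_left _ (by rwa [Valuation.map_neg, map_one])
      rwa [neg_add_cancel_comm_assoc, Valuation.map_neg, map_one] at h3
  have hn : ∀ n : ℕ, ¬ p ∣ n → (n : OO A B) ∉ P := by
    intro n hn hnP
    have hco : IsCoprime (p : ℤ) (n : ℤ) := by
      rw [Nat.isCoprime_iff_coprime]
      exact (Nat.Prime.coprime_iff_not_dvd hpp).2 hn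
    obtain ⟨r, s, hrs⟩ := hco
    apply h.prime.ne_top
    rw [Ideal.eq_top_iff_one]
    have h1 : ((r * (p : ℤ) + s * (n : ℤ) : ℤ) : OO A B) ∈ P := by
      push_cast
      exact P.add_mem (P.mul_mem_left _ h.mem) (P.mul_mem_left _ hnP)
    rw [hrs, Int.cast_one] at h1
    exact h1
  have hcop : ∀ (m : Ideal (OO A B)) (j : ℕ), ¬ m ≤ P → IsCoprime m (P ^ j) := by
    intro m j hm
    apply IsCoprime.pow_right
    rw [Ideal.isCoprime_iff_sup_eq]
    by_contra hne
    have h1 : m ⊔ P = P := (hmax.eq_of_le hne le_sup_right).symm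
    exact hm (h1 ▸ le_sup_left)
  refine ⟨val_le h.ring V, fun x hx => ⟨hv1 x hx, cls h.two h.prime h.norm hx⟩, ?_,
    fun n hn' => ⟨?_, hn n hn'⟩, hmax, hcop, ?_⟩
  · rw [Ne, map_eq_zero]
    exact_mod_cast hpp.ne_zero
  · have h1 := hv1 _ (hn n hn')
    rwa [← hφ, map_natCast] at h1
  · have hle : sp (p : OO A B) ≤ P := by
      rw [Ideal.span_singleton_le_iff_mem]
      exact h.mem
    obtain ⟨Q, hQ⟩ := Ideal.dvd_iff_le.2 hle
    have hmul : nI (sp (p : OO A B)) = nI P * nI Q := by
      change Ideal.absNorm (sp (p : OO A B)) = Ideal.absNorm P * Ideal.absNorm Q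
      rw [hQ, map_mul]
    have hsp : nI (sp (p : OO A B)) = p ^ 2 := by
      change Ideal.absNorm (sp (p : OO A B)) = p ^ 2
      rw [Ideal.absNorm_span_singleton, ← map_natCast (algebraMap ℤ (OO A B)),
        Algebra.norm_algebraMap, QuadraticAlgebra.finrank_eq_two, Int.natAbs_pow, Int.natAbs_natCast]
    have hQn : nI Q = p := by
      rw [hsp, h.norm, pow_two] at hmul
      exact (Nat.eq_of_mul_eq_mul_left hpp.pos hmul).symm
    have hQp : Q.IsPrime := Ideal.isPrime_of_irreducible_absNorm (by
      change Irreducible (nI Q)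
      rw [hQn]
      exact hpp)
    have hQm : Q.IsMaximal := isMaximal hpp hQp hQn
    have hne : P ≠ Q := by
      intro e
      apply h.split
      rw [← e, ← pow_two] at hQ
      rw [← hQ]
      exact Ideal.mem_span_singleton_self _
    exact ⟨Q, hQ, hQm, hQn, fun h1 => hne (hQm.eq_of_le h.prime.ne_top h1).symm,
      fun h1 => hne (hmax.eq_of_le hQp.ne_top h1)⟩

end

end Pool.Agent.MUXE
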