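import Pool.Agent.MUX.StXE

/-!
# Module MUXE_PB (helper25): integers represent the classes modulo powers of a prime ideal
-/

set_option autoImplicit false

namespace Pool.Agent.MUXE

open _root_.MU3 Pool.Agent.MU3A Pool.Agent.MU3B Pool.Agent.MUX Pool.Agent.MUXU Pool.Agent.RI

namespace E_PB

/-- in a commutative ring with ideal quotient of prime cardinality, every element is congruent to an
integer -/
theorem exists_int {R : Type} [CommRing R] (P : Ideal R) (p : ℕ) (hp : p.Prime)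
    (hc : Nat.card (R ⧸ P) = p) (x : R) : ∃ r : ℤ, x - r ∈ P := by
  have hf : Finite (R ⧸ P) := Nat.finite_of_card_ne_zero (by rw [hc]; exact hp.ne_zero)
  haveI : Fact (Nat.card (R ⧸ P)).Prime := ⟨by rw [hc]; exact hp⟩
  have h := ((Int.castRingHom (R ⧸ P)).toAddMonoidHom.range).eq_bot_or_eq_top_of_prime_card
  have hne : (1 : R ⧸ P) ≠ 0 := by
    intro h1
    have : Subsingleton (R ⧸ P) := subsingleton_of_zero_eq_one h1.symm
    rw [Nat.card_of_subsingleton (0 : R ⧸ P)] at hc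
    exact hp.one_lt.ne hc
  rcases h with h | h
  · exfalso
    apply hne
    have h1 : (1 : R ⧸ P) ∈ (Int.castRingHom (R ⧸ P)).toAddMonoidHom.range := ⟨1, by simp⟩
    rw [h] at h1
    simpa using h1
  · have h1 : (Ideal.Quotient.mk P x) ∈ (Int.castRingHom (R ⧸ P)).toAddMonoidHom.range := by
      rw [h]; trivial
    obtain ⟨r, hr⟩ := h1
    refine ⟨r, ?_⟩
    rw [← Ideal.Quotient.eq_zero_iff_mem, map_sub, ← hr]
    simp

theorem pow_notMem {R : Type} [CommRing R] [IsDedekindDomain R] (P : Ideal R) [hP : P.IsPrime]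
    (h0 : P ≠ ⊥) (a : R) (ha : a ∈ P) (ha2 : a ∉ P ^ 2) (j : ℕ) : a ^ j ∉ P ^ (j + 1) := by
  intro h
  have hpr : Prime P := Ideal.prime_of_isPrime h0 hP
  obtain ⟨I, hI⟩ : P ∣ Ideal.span {a} := by
    rw [Ideal.dvd_iff_le, Ideal.span_singleton_le_iff_mem]; exact ha
  have h1 : P ^ (j + 1) ∣ Ideal.span {a ^ j} := by
    rw [Ideal.dvd_iff_le, Ideal.span_singleton_le_iff_mem]; exact h
  rw [← Ideal.span_singleton_pow, hI, mul_pow, pow_succ] at h1
  have h2 : P ∣ I ^ j := (mul_dvd_mul_iff_left (pow_ne_zero j hpr.ne_zero)).1 h1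
  have h3 : P ∣ I := hpr.dvd_of_dvd_pow h2
  apply ha2
  rw [← Ideal.span_singleton_le_iff_mem, ← Ideal.dvd_iff_le, hI, pow_two]
  exact mul_dvd_mul_left P h3

theorem main {R : Type} [CommRing R] [IsDedekindDomain R] (P : Ideal R) [hP : P.IsPrime]
    (h0 : P ≠ ⊥) (p : ℕ) (hp : p.Prime) (hc : Nat.card (R ⧸ P) = p)
    (ha : (p : R) ∈ P) (ha2 : (p : R) ∉ P ^ 2) (j : ℕ) (x : R) :
    (∃ r : ℤ, x - r ∈ P ^ j) ∧ (p : R) ^ j ∉ P ^ (j + 1) := by
  refine ⟨?_, pow_notMem P h0 _ ha ha2 j⟩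
  induction j with
  | zero => exact ⟨0, by simp⟩
  | succ j ih =>
    obtain ⟨r, hr⟩ := ih
    obtain ⟨d, e, he, hd⟩ := Ideal.exists_mul_add_mem_pow_succ h0 ((p : R) ^ j) (x - r)
      (Ideal.pow_mem_pow ha j) (pow_notMem P h0 _ ha ha2 j) hr
    obtain ⟨s, hs⟩ := exists_int P p hp hc d
    refine ⟨r + s * p ^ j, ?_⟩
    have h1 : x - ((r + s * p ^ j : ℤ) : R) = (p : R) ^ j * (d - s) + e := by
      push_cast
      linear_combination -hd
    rw [h1]
    refine Ideal.add_mem _ ?_ he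
    rw [pow_succ]
    exact Ideal.mul_mem_mul (Ideal.pow_mem_pow ha j) hs

end E_PB

theorem te_PB : Sxe_PB := by
  intro p A B P hR hp hP hmem hn hsp j x
  haveI := hR.ded
  haveI := hP
  have h0 : P ≠ ⊥ := by
    rintro rfl
    rw [Ideal.mem_bot] at hmem
    have h1 := congrArg QuadraticAlgebra.re hmem
    simp at h1
    exact hp.ne_zero h1
  exact E_PB.main P h0 p hp hn hmem hsp j x

end Pool.Agent.MUXE
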