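import Pool.Agent.MUX.StXE

/-!
# MUX, block E, module PC (helper43): the values on `O` and on `k`
-/

set_option autoImplicit false

open WeierstrassCurve Polynomial NumberField IsDedekindDomain

namespace Pool.Agent.MUXE

open _root_.MU3 Pool.Agent.MU3A Pool.Agent.MU3B Pool.Agent.MUX Pool.Agent.MUXU Pool.Agent.RI

noncomputable section

namespace PC

variable {A B : ℤ}

/-- a nonzero element of a Dedekind domain lies in `P^j` but not in `P^(j+1)` for some `j` -/
lemma exists_ord {R : Type} [CommRing R] [IsDedekindDomain R] (P : Ideal R) (hP : P ≠ ⊤)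
    {x : R} (hx : x ≠ 0) : ∃ j : ℕ, x ∈ P ^ j ∧ x ∉ P ^ (j + 1) := by
  classical
  have h1 : ∃ n : ℕ, x ∉ P ^ n := by
    by_contra hcon
    push Not at hcon
    have h2 : x ∈ (⨅ i : ℕ, P ^ i) := by
      rw [Ideal.mem_iInf]
      exact hcon
    rw [Ideal.iInf_pow_eq_bot_of_isDomain P hP, Ideal.mem_bot] at h2
    exact hx h2
  have h3 := Nat.find_spec h1
  have h4 : Nat.find h1 ≠ 0 := by
    intro h0
    rw [h0, pow_zero, Ideal.one_eq_top] at h3
    exact h3 trivial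
  obtain ⟨j, hj⟩ := Nat.exists_eq_succ_of_ne_zero h4
  refine ⟨j, ?_, ?_⟩
  · by_contra hcon
    have := Nat.find_min' h1 hcon
    omega
  · rw [hj] at h3
    exact h3

lemma val_emb {p : ℕ} {P : Ideal (OO A B)} {V : ValuationSubring ℂ} (h1 : Sxe_PA)
    (h : CtxE p P V) (x : OO A B) (hx : x ≠ 0) :
    ∃ j : ℕ, V.valuation (emb x) = V.valuation (p : ℂ) ^ j := by
  obtain ⟨-, hv, -, -, -, -, Q, hQ, -, -, hQP, -⟩ := h1 p A B P V h
  have hded : IsDedekindDomain (OO A B) := h.ring.ded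
  have hP : P.IsPrime := h.prime
  obtain ⟨φ, hφ⟩ := h.ring.hom
  obtain ⟨j, hj, hj'⟩ := exists_ord P h.prime.ne_top hx
  obtain ⟨u, hu, huP⟩ := SetLike.not_le_iff_exists.1 hQP
  have h2 : x * u ^ j ∈ sp ((p : OO A B) ^ j) := by
    have h3 : x * u ^ j ∈ P ^ j * Q ^ j := Ideal.mul_mem_mul hj (Ideal.pow_mem_pow hu j)
    rw [← mul_pow, ← hQ, Ideal.span_singleton_pow] at h3
    exact h3
  obtain ⟨y, hy⟩ := Ideal.mem_span_singleton.1 h2
  have hyP : y ∉ P := by
    intro hy1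
    have h3 : u ^ j * x ∈ P ^ (j + 1) := by
      rw [mul_comm, hy, pow_succ]
      exact Ideal.mul_mem_mul (Ideal.pow_mem_pow h.mem j) hy1
    rcases Ideal.IsPrime.mul_mem_pow P h3 with h4 | h4
    · exact huP (hP.mem_of_pow_mem j h4)
    · exact hj' h4
  refine ⟨j, ?_⟩
  have h5 := congrArg (fun t => V.valuation (φ t)) hy
  simp only [map_mul, map_pow, map_natCast] at h5
  rw [hφ, hφ, hφ, (hv u huP).1, (hv y hyP).1, one_pow, mul_one, mul_one] at h5
  exact h5

lemma alg_kk (hR : RingE A B) (y : ℂ) (hy : y ∈ kk A B) : IsAlgebraic ℤ y := by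
  have hw : IsIntegral ℤ (wC A B) := by
    have hwk : wC A B ∈ kk A B := IntermediateField.mem_adjoin_simple_self ℚ (wC A B)
    rw [hR.int _ hwk]
    refine ⟨⟨0, 1⟩, ?_⟩
    simp [emb]
  have hwQ : IsIntegral ℚ (wC A B) := hw.tower_top
  have h1 : Algebra.IsAlgebraic ℚ (kk A B) := by
    have := IntermediateField.isAlgebraic_adjoin_simple hwQ
    exact this
  have h2 : IsAlgebraic ℚ y := by
    have h3 := h1.isAlgebraic ⟨y, hy⟩
    exact h3.algebraMap
  exact (IsFractionRing.isAlgebraic_iff ℤ ℚ ℂ).2 h2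

end PC

open PC in
theorem te_PC (h1 : Sxe_PA) : Sxe_PC := by
  intro p A B P V h
  refine ⟨val_emb h1 h, ?_⟩
  intro y hy hy0
  obtain ⟨-, -, hp0, -⟩ := h1 p A B P V h
  obtain ⟨φ, hφ⟩ := h.ring.hom
  obtain ⟨n, hn, hint⟩ := (alg_kk h.ring y hy).exists_integral_multiple
  have hnk : n • y ∈ kk A B := zsmul_mem hy n
  obtain ⟨x, hx⟩ := (h.ring.int _ hnk).1 hint
  have hnC : (n : ℂ) ≠ 0 := by exact_mod_cast hn
  have hxe : (n : ℂ) * y = emb x := by
    rw [← hx, zsmul_eq_mul]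
  have hx0 : x ≠ 0 := by
    rintro rfl
    rw [← hφ, map_zero] at hxe
    exact mul_ne_zero hnC hy0 hxe
  have hn0 : (n : OO A B) ≠ 0 := by
    intro h0
    have := hφ (n : OO A B)
    rw [h0, map_zero] at this
    have h2 := hφ (n : OO A B)
    rw [map_intCast] at h2
    rw [h0, ← this] at h2
    exact hnC h2
  obtain ⟨j, hj⟩ := val_emb h1 h x hx0
  obtain ⟨i, hi⟩ := val_emb h1 h (n : OO A B) hn0
  rw [← hφ, map_intCast] at hi
  have h2 := congrArg V.valuation hxe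
  rw [map_mul, hi, hj] at h2
  refine ⟨(j : ℤ) - i, ?_⟩
  rw [zpow_sub₀ hp0, zpow_natCast, zpow_natCast, ← h2]
  field_simp

end

end Pool.Agent.MUXE
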