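import Pool.Agent.MUX.E_GXG
import Pool.Agent.MUX.E_PA
import Pool.Agent.MUX.R2_CH2

/-!
# MUX, block E: `RedE 2` from helper77's block R2 (helper66)
-/

set_option autoImplicit false

namespace Pool.Agent.MUXE

open WeierstrassCurve
open _root_.MU3 Pool.Agent.MU3A Pool.Agent.MU3B Pool.Agent.MUX Pool.Agent.MUXU Pool.Agent.RI
open Pool.Agent.MUX2

noncomputable section

lemma red_kap {L M : PeriodPair} (h : L.lattice = M.lattice) : kap L = kap M := by
  have h1 : L.g₂ = M.g₂ := by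
    unfold PeriodPair.g₂ PeriodPair.G
    rw [h]
  unfold kap
  rw [h1]

/-- `v(emb x) = 1` for `x ∉ P`, `v(emb x) < 1` for `x ∈ P` -/
lemma red_over {A B : ℤ} (hr : RingE A B) {P : Ideal (OO A B)} {V : ValuationSubring ℂ}
    (hV : OverI V P) :
    (∀ x ∈ P, V.valuation (emb x) < 1) ∧ (∀ x ∉ P, V.valuation (emb x) = 1) := by
  constructor
  · intro x hx
    have h := (hV x).2 hx
    rwa [ValuationSubring.mem_nonunits_iff] at h
  · intro x hx
    have h1 : V.valuation (emb x) ≤ 1 := PA.val_le hr V x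
    have h2 : ¬ V.valuation (emb x) < 1 := fun h => hx ((hV x).1 (by
      rwa [ValuationSubring.mem_nonunits_iff]))
    exact le_antisymm h1 (not_lt.1 h2)

theorem red2 (h1 : S2_GD2) (h2 : S2_IN2) (h3 : S2_GR2) (h4 : S2_CH2) :
    ∀ (A B : ℤ), CaseP 2 A B → RingE A B → LatFacts A B → ∀ P : Ideal (OO A B), IsPN 2 P →
    ∀ V : ValuationSubring ℂ, OverI V P → RedE 2 P V := by
  intro A B hC hr hF P hP V hV
  have h8 : (8 : ℤ) ∣ B ^ 2 + 4 * A - 1 := by
    rcases hC.split with ⟨h, -⟩ | ⟨-, h⟩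
    · norm_num at h
    · exact h
  have hcq := CH2.cq hC.toCQ
  obtain ⟨hP0, h2P, hPQ⟩ := CH2.pq hcq hP
  obtain ⟨hQn, hQ2, hQ0, -⟩ := (CH2.nim hcq).2.2.1 P hP0
  have hQ : IsPN 2 (cjI P) := by
    refine ⟨?_, ?_, by rw [hQn, hP.norm]⟩
    · have := hP.prime
      exact Ideal.IsPrime.comap _
    · unfold cjI
      rw [Ideal.mem_comap, map_natCast]
      exact hP.mem
  have hne : P ≠ cjI P := by
    intro he
    obtain ⟨p, hp, q, hq, hpq⟩ := CH2.cop hC.toCQ h8 hP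
    rw [← he] at hq
    exact hP.prime.ne_top ((Ideal.eq_top_iff_one _).2 (hpq ▸ add_mem hp hq))
  obtain ⟨o1, o2⟩ := red_over hr hV
  have hA : Above2 P V := by
    refine ⟨?_, o1, o2⟩
    have := o1 2 h2P
    rwa [CH2.emb_two] at this
  have hgd := fun (b : Ideal (OO A B)) (L : PeriodPair) (om : ℂ) (hL : IsNL b L om) =>
    h1 A B hC h8 hF P (cjI P) V hP hQ hne hA b L om hL
  refine ⟨?_, ?_, ?_, ?_, ?_, ?_⟩
  · rintro L ⟨b, om, hL⟩
    obtain ⟨e1, e2, -⟩ := hgd b L om hL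
    obtain ⟨ξ, hξ⟩ := h3 V L hL.nrm e1 e2
    exact gx_of_grg V L ξ hξ
  · rintro L ⟨b, om, hL⟩
    exact (hgd b L om hL).1.le
  · rintro L L' ⟨b, om, hL⟩ ⟨b', om', hL'⟩ h
    exact red_kap (h2 A B hC h8 hF P (cjI P) V hP hQ hne hA b b' L L' om om' hL hL' h)
  · rintro L L' mu ⟨b, om, hL⟩ ⟨b', om', hL'⟩ h
    exact (hgd b L om hL).2.2.2.2.1 b' L' om' mu hL' h
  · rintro L ⟨b, om, hL⟩
    obtain ⟨h, y, N, mu, w, -, -, hN0, hN, hq, -⟩ := h4 A B hC h8 hF P hP b L om hL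
    refine ⟨N 1, mu 0, hN 1, ?_⟩
    have := hq 0
    rwa [hN0] at this
  · intro h
    norm_num at h

end

end Pool.Agent.MUXE
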