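import Pool.Agent.MUX.StXE

/-!
# MUX, block E: an automorphism which is close to the identity (module SIG)
-/

set_option autoImplicit false

open WeierstrassCurve Polynomial NumberField IsDedekindDomain

namespace Pool.Agent.MUXE

open _root_.MU3 Pool.Agent.MU3A Pool.Agent.MU3B Pool.Agent.MUX Pool.Agent.MUXU Pool.Agent.RI

noncomputable section

namespace SIG

variable {A B : ℤ}

/-- a natural number `≥ 3` does not divide `2` -/
theorem not_dvd_two {a : ℕ} (ha : 3 ≤ a) : ¬ ((a : ℕ) : OO A B) ∣ 2 := by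
  rintro ⟨x, hx⟩
  have e2 : (2 : OO A B) = ((2 : ℕ) : OO A B) := by norm_num
  have re_nat : ∀ n : ℕ, ((n : ℕ) : OO A B).re = n := fun n => rfl
  have im_nat : ∀ n : ℕ, ((n : ℕ) : OO A B).im = 0 := fun n => rfl
  have h1 := congrArg QuadraticAlgebra.re hx
  rw [e2, re_nat, QuadraticAlgebra.re_mul, re_nat, im_nat] at h1
  have h2 : (a : ℤ) ∣ 2 := ⟨x.re, by push_cast at h1; linarith⟩
  have h3 := Int.le_of_dvd (by norm_num) h2
  omega

theorem map_sub_mk {k : Type} [Field k] [Algebra k ℂ] (F : IntermediateField k ℂ)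
    (σ : F →ₐ[k] ℂ) (a b : ℂ) (ha : a ∈ F) (hb : b ∈ F) (hab : a - b ∈ F) :
    σ ⟨a - b, hab⟩ = σ ⟨a, ha⟩ - σ ⟨b, hb⟩ := by
  rw [← map_sub]
  rfl

theorem em_apply (F : IntermediateField (kk A B) ℂ) (σ : F ≃ₐ[kk A B] F) (w : F) :
    em σ w = ((σ w : F) : ℂ) := rfl

/-- `1 + γ` is prime to `P^(n+1) m'` for `γ ∈ P^n m'`, `n ≥ 1` -/
theorem coprime_one_add {R : Type} [CommRing R] (P m' : Ideal R) (n : ℕ) (hn : 1 ≤ n) (γ : R)
    (hγ : γ ∈ P ^ n * m') : IsCoprime (Ideal.span {1 + γ}) (P ^ (n + 1) * m') := by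
  rw [Ideal.isCoprime_iff_exists]
  refine ⟨(1 + γ) * (1 - γ), Ideal.mul_mem_right _ _ (Ideal.subset_span rfl), γ * γ, ?_, by ring⟩
  have h1 : γ * γ ∈ (P ^ n * m') * (P ^ n * m') := Ideal.mul_mem_mul hγ hγ
  have h2 : (P ^ n * m') * (P ^ n * m') ≤ P ^ (n + 1) * m' := by
    calc (P ^ n * m') * (P ^ n * m') = (P ^ n * P ^ n) * (m' * m') := by ring
      _ ≤ P ^ (n + 1) * m' := by
          apply Ideal.mul_mono
          · rw [← pow_add]
            exact Ideal.pow_le_pow_right (by omega)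
          · exact Ideal.mul_le_left
  exact h2 h1

end SIG

open SIG in
theorem te_SIG (h0 : Pool.Agent.MU3E.Se_BAS) (h1 : Sxe_DEG) (h2 : Sxe_TP) (h3 : Sxe_COP)
    (h4 : Sxe_UNR) (h6 : Sxe_TRA) (h7 : Sxe_TRB) (h8 : Sxe_KER) (h9 : Sxe_FAC) : Sxe_SIG := by
  intro p A B P V hC hG ⟨L, hL⟩ n m' a hn hm' hmP ha hma γ hγ
  have hR := hC.ring
  have hded : IsDedekindDomain (OO A B) := hR.ded
  have hPp : P.IsPrime := hC.prime
  obtain ⟨φ, hφ⟩ := hR.hom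
  have hadd : ∀ x y : OO A B, emb (x + y) = emb x + emb y := fun x y => by
    rw [← hφ, map_add, hφ, hφ]
  have hone : emb (1 : OO A B) = 1 := by rw [← hφ, map_one]
  have htwo : emb (2 : OO A B) = 2 := by rw [← hφ, map_ofNat]
  have hnat : ∀ k : ℕ, emb ((k : ℕ) : OO A B) = k := fun k => by rw [← hφ, map_natCast]
  have hp0 : (p : ℂ) ≠ 0 := by
    rcases hC.two with rfl | rfl <;> norm_num
  have hP0 : P ≠ ⊥ := by
    rintro rfl
    have h5 := hC.mem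
    rw [Ideal.mem_bot] at h5
    apply hp0
    rw [← hnat p, h5, ← hφ, map_zero]
  have hm0 : P ^ (n + 1) * m' ≠ ⊥ := mul_ne_zero (pow_ne_zero _ hP0) hm'
  have hmm' : P ^ (n + 1) * m' ≤ m' := Ideal.mul_le_right
  have hmPn : P ^ (n + 1) * m' ≤ P ^ (n + 1) := Ideal.mul_le_left
  have hγm' : γ ∈ m' := (Ideal.mul_le_right : P ^ n * m' ≤ m') hγ
  have hγP : γ ∈ P ^ n := (Ideal.mul_le_left : P ^ n * m' ≤ P ^ n) hγ
  obtain ⟨t1, t2, t3, t4, t5, t6, t7, t8, t9⟩ := h6 A B hR L hL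
  obtain ⟨b1, -⟩ := h7 A B hR L hL
  obtain ⟨c1, c2, c3, c4, c5⟩ := h9 A B hR
  have hX := hC.gx L hL
  -- the automorphism
  obtain ⟨σ, hσ⟩ := hG.sur (P ^ (n + 1) * m') hm0 (1 + γ) (coprime_one_add P m' n hn γ hγ)
  refine ⟨σ, hσ, ?_⟩
  -- the point of order prime to `P`
  obtain ⟨P₀, hP₀, h2P₀⟩ : ∃ z, Tor m' L z ∧ z + z ∉ L.lattice := by
    have hlt : m' < m' ⊔ sp (2 : OO A B) := by
      refine lt_of_le_of_ne le_sup_left fun he => ?_
      have h10 : (2 : OO A B) ∈ m' := by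
        rw [he]
        exact Ideal.mem_sup_right (Ideal.subset_span rfl)
      exact not_dvd_two ha (Ideal.mem_span_singleton.1 (hma h10))
    obtain ⟨z, hz, hz'⟩ := b1 _ _ hm' hlt
    refine ⟨z, hz, fun hc => hz' ?_⟩
    have hz2 : Tor (sp (2 : OO A B)) L z := by
      rw [t5, htwo, two_mul]
      exact hc
    intro x hx
    obtain ⟨y, hy, w, hw, rfl⟩ := Submodule.mem_sup.1 hx
    rw [hadd, add_mul]
    exact add_mem (hz y hy) (hz2 w hw)
  have hP₀L : P₀ ∉ L.lattice := fun hc => h2P₀ (add_mem hc hc)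
  have hP₀E : ¬ InEn V L P₀ := fun hc =>
    hP₀L (h3 p A B P V hC L hL m' hm' hmP P₀ hP₀ hc)
  have h2P₀E : ¬ InEn V L (P₀ + P₀) := fun hc =>
    h2P₀ (h3 p A B P V hC L hL m' hm' hmP (P₀ + P₀) (t2 _ _ _ hP₀ hP₀) hc)
  -- the point of order a power of `P`
  obtain ⟨P₁, hP₁, hP₁'⟩ := b1 (P ^ n) (P ^ (n + 1)) (pow_ne_zero _ hP0)
    (Ideal.pow_succ_lt_pow hP0 n)
  obtain ⟨hP₁E, hP₁L, hP₁v⟩ := h2 p A B P V hC n L hL P₁ hP₁ hP₁'
  obtain ⟨p1, p2, -⟩ := hX.par P₁ hP₁E hP₁L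
  -- the point `P₀ + P₁`
  have hPE : ¬ InEn V L (P₀ + P₁) := by
    intro hc
    apply hP₀E
    have h10 := hX.add _ _ hc (hX.neg _ hP₁E)
    rwa [add_neg_cancel_right] at h10
  have hPL : P₀ + P₁ ∉ L.lattice := fun hc => hPE (Or.inl hc)
  have hPT : Tor (P ^ (n + 1) * m') L (P₀ + P₁) :=
    t2 _ _ _ (fun x hx => hP₀ x (hmm' hx)) (fun x hx => hP₁ x (hmPn hx))
  -- the valuation of the uniformiser
  have hyu := hX.unitD P₀ hP₀E h2P₀E
  have hvb : V.valuation (L.derivWeierstrassP P₀ * tE L P₁) = V.valuation (tE L P₁) := by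
    rw [map_mul, hyu, one_mul]
  have hvπ : V.valuation (xn L (P₀ + P₁) - xn L P₀) = V.valuation (tE L P₁) := by
    rw [← hvb]
    apply Valuation.map_eq_of_sub_lt
    rw [hvb]
    refine lt_of_le_of_lt (hX.near P₀ P₁ hP₀E hP₁E hP₁L) ?_
    rw [sq]
    calc V.valuation (tE L P₁) * V.valuation (tE L P₁)
        < 1 * V.valuation (tE L P₁) := mul_lt_mul_of_pos_right p1 (zero_lt_iff.2 p2)
      _ = V.valuation (tE L P₁) := one_mul _
  -- a point of `E[P]`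
  obtain ⟨R₀, hR₀, hR₀'⟩ := b1 ⊤ P hP0 (lt_top_iff_ne_top.2 hPp.ne_top)
  have hR₀L : R₀ ∉ L.lattice := fun hc => hR₀' fun x _ => t1 x R₀ hc
  obtain ⟨hR₀E, hR₀v⟩ := h8 p A B P V hC L hL R₀ hR₀ hR₀L
  have hr1 : V.valuation (tE L R₀) ≤ 1 := (hX.par R₀ hR₀E hR₀L).1.le
  have hp1 : p - 1 ≠ 0 := by
    rcases hC.two with rfl | rfl <;> norm_num
  -- the point `R = γ P₁`
  obtain ⟨R, hRdef⟩ : ∃ R, R = emb γ * P₁ := ⟨_, rfl⟩
  have hRT : Tor P L R := by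
    rw [hRdef]
    exact t6 (P ^ n) P γ P₁ hγP (by rw [← pow_succ]; exact hP₁)
  have hmove : V.valuation (xn L (P₀ + P₁ + R) - xn L (P₀ + P₁)) ≤ V.valuation (tE L R₀) := by
    by_cases hRL : R ∈ L.lattice
    · have h10 := ((t9 (P₀ + P₁ + R) (P₀ + P₁) (by
        rw [add_sub_cancel_left]
        exact hRL)).2 (fun hc => hPL (by
          have := sub_mem hc hRL
          rwa [add_sub_cancel_right] at this))).1
      rw [h10, sub_self, map_zero]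
      exact zero_le
    · obtain ⟨hRE, hRv⟩ := h8 p A B P V hC L hL R hRT hRL
      have hRr : V.valuation (tE L R) = V.valuation (tE L R₀) := by
        apply (pow_left_inj₀ zero_le zero_le hp1).1
        rw [hRv, hR₀v]
      obtain ⟨q1, -, -⟩ := hX.par R hRE hRL
      have h10 := hX.near (P₀ + P₁) R hPE hRE hRL
      have h11 : V.valuation (tE L R) ^ 2 ≤ V.valuation (tE L R) := by
        rw [sq]
        exact mul_le_of_le_one_left' q1.le
      have h12 : V.valuation (L.derivWeierstrassP (P₀ + P₁) * tE L R) ≤ V.valuation (tE L R) := by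
        rw [map_mul]
        exact mul_le_of_le_one_left' (hX.intD _ hPE)
      have h13 : xn L (P₀ + P₁ + R) - xn L (P₀ + P₁) =
          (xn L (P₀ + P₁ + R) - xn L (P₀ + P₁) - L.derivWeierstrassP (P₀ + P₁) * tE L R) +
            L.derivWeierstrassP (P₀ + P₁) * tE L R := by ring
      rw [← hRr, h13]
      exact (Valuation.map_add _ _ _).trans (max_le (h10.trans h11) h12)
  -- `σ` fixes `RF m'`
  have hle := c1 _ _ hmm'
  have hfix : ∀ y : RF (P ^ (n + 1) * m'), (y : ℂ) ∈ RF m' → em σ y = y := by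
    rintro ⟨y, hy⟩ hy'
    exact c4 _ _ hmm' (em σ) (1 + γ) hσ (by rw [add_sub_cancel_left]; exact hγm') y hy hy'
  have hPF : xn L (P₀ + P₁) ∈ RF (P ^ (n + 1) * m') := (c2 _ L hL).2 _ hPT hPL
  have hP0F' : xn L P₀ ∈ RF m' := (c2 _ L hL).2 _ hP₀ hP₀L
  have hP0F : xn L P₀ ∈ RF (P ^ (n + 1) * m') := hle hP0F'
  have hπ : xn L (P₀ + P₁) - xn L P₀ ∈ RF (P ^ (n + 1) * m') := sub_mem hPF hP0F
  have hσπ : em σ ⟨xn L (P₀ + P₁) - xn L P₀, hπ⟩ - (xn L (P₀ + P₁) - xn L P₀) =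
      xn L (P₀ + P₁ + R) - xn L (P₀ + P₁) := by
    obtain ⟨e0, e1⟩ := (hσ.2 L hL).2 (P₀ + P₁) hPT hPL
    have e2 : em σ ⟨xn L (P₀ + P₁), hPF⟩ = xn L (emb (1 + γ) * (P₀ + P₁)) := e1 hPF
    have e3 : em σ ⟨xn L P₀, hP0F⟩ = xn L P₀ := hfix ⟨xn L P₀, hP0F⟩ hP0F'
    have e4 : xn L (emb (1 + γ) * (P₀ + P₁)) = xn L (P₀ + P₁ + R) := by
      refine ((t9 _ _ ?_).2 e0).1
      have e5 : emb (1 + γ) * (P₀ + P₁) - (P₀ + P₁ + R) = emb γ * P₀ := by
        rw [hadd, hone, hRdef]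
        ring
      rw [e5]
      exact hP₀ γ hγm'
    rw [map_sub_mk (RF (P ^ (n + 1) * m')) (em σ) _ _ hPF hP0F hπ, e2, e3, e4]
    ring
  have := hG.fin m' hm'
  have := hG.fin (P ^ (n + 1) * m') hm0
  have hdeg := h1 p A B P V hC hG (n + 1) m' (by omega) hm' hmP
  rw [Nat.add_sub_cancel] at hdeg
  have hNpos : 0 < (p - 1) * p ^ n := by
    rcases hC.two with rfl | rfl <;> positivity
  have hres := h0 (kk A B) ℂ V.ValueGroup V.valuation (RF m') (RF (P ^ (n + 1) * m'))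
    ((p - 1) * p ^ n) (p : ℂ) (xn L (P₀ + P₁) - xn L P₀) (em σ) (V.valuation (tE L R₀)) hle
    hNpos hdeg hp0 hC.vp (h4 p A B P V hC hG m' hm' hmP) hπ (by rw [hvπ, hP₁v]) hfix hr1
    (by rw [hσπ]; exact hmove)
  intro w hw
  have h11 := hres w hw
  rw [em_apply] at h11
  calc V.valuation ((σ w : ℂ) - w) ^ (p - 1) ≤ V.valuation (tE L R₀) ^ (p - 1) :=
        pow_le_pow_left' h11 _
    _ = V.valuation (p : ℂ) := hR₀v

end

end Pool.Agent.MUXE
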