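import Pool.Agent.MUX.StXE

/-!
# MUX, block E, THE: expansion of `Θ_a` near `z`
-/

set_option autoImplicit false

namespace Pool.Agent.MUXE

open _root_.MU3 Pool.Agent.MU3A Pool.Agent.MU3B Pool.Agent.MUX Pool.Agent.MUXU Pool.Agent.RI

/-- (THE) expansion of `Θ_a` near `z` -/
theorem te_THE (h1 : Pool.Agent.MU3E.Se_PRD) (h2 : St_TDL) : Sxe_THE := by
  intro A B V L G a H ha hH z hz haz hq
  have hxx : ∀ u q, L.weierstrassP u - L.weierstrassP q = xn L u - xn L q := by
    intro u q; unfold xn; ring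
  have hTh : ∀ u, ThetaH L H u = ∏ q : H, (xn L u - xn L q) := by
    intro u
    unfold ThetaH
    rw [← Finset.prod_coe_sort]
    exact Finset.prod_congr rfl fun q _ => hxx u q
  have hcv : ∀ q : H, V.valuation (xn L z - xn L q) = 1 := fun q =>
    G.sub z q hz (hq q q.2).1 (hq q q.2).2.1 (hq q q.2).2.2
  have hc0 : ∀ q : H, xn L z - xn L q ≠ 0 := fun q h0 => by
    have := hcv q
    rw [h0, map_zero] at this
    exact zero_ne_one this
  have hy : V.valuation (L.derivWeierstrassP z) ≤ 1 := G.intD z hz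
  have hlv : ∀ q : H, V.valuation (L.derivWeierstrassP z / (xn L z - xn L q)) ≤ 1 := by
    intro q
    rw [map_div₀, hcv q, div_one]
    exact hy
  have hnat : ∀ w ∈ L.lattice, (a : ℂ) * w ∈ L.lattice := by
    intro w hw
    have := L.lattice.smul_mem (a : ℤ) hw
    rwa [zsmul_eq_mul, Int.cast_natCast] at this
  have hdl : ∑ q : H, L.derivWeierstrassP z / (xn L z - xn L q) = dlX L a z := by
    have h3 := (h2 L (a : ℂ) H (Nat.cast_ne_zero.2 ha) hnat hH z haz).1
    unfold dlX
    rw [← Finset.sum_coe_sort] at h3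
    have h4 : ((‖(a : ℂ)‖ ^ 2 : ℝ) : ℂ) = (a : ℂ) ^ 2 := by
      rw [Complex.norm_natCast]; push_cast; rfl
    rw [h4] at h3
    rw [← h3]
    refine Finset.sum_congr rfl fun q _ => ?_
    rw [hxx]
  have key : ∀ (d : H → ℂ) (t : ℂ), V.valuation t < 1 →
      (∀ q : H, V.valuation (d q - (xn L z - xn L q) *
        (1 + t * (L.derivWeierstrassP z / (xn L z - xn L q)))) ≤ V.valuation t ^ 2) →
      V.valuation (ThetaH L H z) = 1 ∧ V.valuation (dlX L a z) ≤ 1 ∧
      V.valuation (∏ q : H, d q - ThetaH L H z * (1 + t * dlX L a z)) ≤ V.valuation t ^ 2 := by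
    intro d t ht hd
    have h3 := h1 ℂ V.ValueGroup H V.valuation (fun q => xn L z - xn L q) d
      (fun q => L.derivWeierstrassP z / (xn L z - xn L q)) (fun _ => 1) t ht hcv hlv hd
    simp only [zpow_one, Int.cast_one, one_mul] at h3
    rw [← hTh, hdl] at h3
    exact h3
  have k0 := key (fun q => xn L z - xn L q) 0 (by rw [map_zero]; exact zero_lt_one) (by
    intro q
    rw [zero_mul, add_zero, mul_one, sub_self, map_zero]
    simp)
  refine ⟨k0.1, k0.2.1, ?_⟩
  intro R hR hRL
  have hn := G.near z R hz hR hRL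
  have ht := (G.par R hR hRL).1
  have k1 := key (fun q => xn L (z + R) - xn L q) (tE L R) ht (by
    intro q
    have e : xn L (z + R) - xn L q - (xn L z - xn L q) *
        (1 + tE L R * (L.derivWeierstrassP z / (xn L z - xn L q))) =
        xn L (z + R) - xn L z - L.derivWeierstrassP z * tE L R := by
      have := hc0 q
      field_simp
      ring
    rw [e]
    exact hn)
  rw [hTh (z + R)]
  exact k1.2.2

end Pool.Agent.MUXE
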