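import Pool.Agent.MUX.StXE

/-!
# MUX, block E, module UNR: `F_(m') / k` is unramified at `V`
-/

set_option autoImplicit false

open WeierstrassCurve Polynomial NumberField IsDedekindDomain

namespace Pool.Agent.MUXE

open _root_.MU3 Pool.Agent.MU3A Pool.Agent.MU3B Pool.Agent.MUX Pool.Agent.MUXU Pool.Agent.RI

noncomputable section

/-- `xn L z` is integral if `z` is not in the kernel of reduction -/
theorem unr_int {V : ValuationSubring ℂ} {L : PeriodPair} {z : ℂ} (h : ¬ InEn V L z) :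
    V.valuation (xn L z) ≤ 1 := by
  rw [V.valuation_le_one_iff]
  by_contra hc
  exact h (Or.inr hc)

theorem te_UNR (h1 : Sxe_RAM) (h2 : Sxe_COP) (h3 : Sxe_TRA) (h4 : Sxe_FAC) : Sxe_UNR := by
  intro p A B P V hC hG m' hm' hmP y hy hy0
  have hR := hC.ring
  obtain ⟨φ, hφ⟩ := hR.hom
  have hfin := hG.fin m' hm'
  have hgal := hG.gal m' hm'
  obtain ⟨f1, f2, f3, f4, f5⟩ := h4 A B hR
  have hone : emb (1 : OO A B) = 1 := by rw [← hφ, map_one]
  refine h1 p A B P V hC (RF m') ?_ y hy hy0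
  intro σ hσ
  -- `σ` fixes the numbers `kap L`
  have hkap : ∀ L, NL A B L → ∀ h : kap L ∈ RF m', em σ ⟨kap L, h⟩ = kap L := by
    intro L hL h
    obtain ⟨L', hL', hk⟩ := hG.conj m' hm' (em σ) L hL h
    have h5 := hσ ⟨kap L, h⟩ (hC.vkap L hL)
    have h6 : ((σ ⟨kap L, h⟩ : RF m') : ℂ) = kap L' := hk
    rw [h6] at h5
    rw [hk, hC.inj L' L hL' hL h5]
  -- so it fixes `RF ⊤`
  have htop : ∀ y ∈ RF (⊤ : Ideal (OO A B)), ∃ h : y ∈ RF m', em σ ⟨y, h⟩ = y := by
    intro y hy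
    refine IntermediateField.adjoin_induction (F := kk A B)
      (p := fun y _ => ∃ h : y ∈ RF m', em σ ⟨y, h⟩ = y) ?_ ?_ ?_ ?_ ?_ hy
    · rintro c ⟨b, L, om, hL, hc⟩
      have hNL : NL A B L := ⟨b, om, hL⟩
      rcases hc with rfl | ⟨z, hz, hz', -⟩
      · exact ⟨(f2 m' L hNL).1, hkap L hNL _⟩
      · exfalso
        have h5 := hz 1 Submodule.mem_top
        rw [hone, one_mul] at h5
        exact hz' h5
    · intro x
      exact ⟨(RF m').algebraMap_mem x, (em σ).commutes x⟩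
    · rintro x y - - ⟨hx, hx'⟩ ⟨hy, hy'⟩
      refine ⟨add_mem hx hy, ?_⟩
      have h5 := map_add (em σ) ⟨x, hx⟩ ⟨y, hy⟩
      rw [hx', hy'] at h5
      exact h5
    · rintro x - ⟨hx, hx'⟩
      refine ⟨inv_mem hx, ?_⟩
      have h5 := map_inv₀ (em σ) ⟨x, hx⟩
      rw [hx'] at h5
      exact h5
    · rintro x y - - ⟨hx, hx'⟩ ⟨hy, hy'⟩
      refine ⟨mul_mem hx hy, ?_⟩
      have h5 := map_mul (em σ) ⟨x, hx⟩ ⟨y, hy⟩
      rw [hx', hy'] at h5
      exact h5
  obtain ⟨α, -, hα⟩ := hG.ker m' ⊤ hm' le_top (em σ) (by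
    intro y hy hyt
    obtain ⟨h, h'⟩ := htop y hyt
    exact h')
  -- `σ` fixes the numbers `xn L z`
  have hxn : ∀ L, NL A B L → ∀ z, Tor m' L z → z ∉ L.lattice → ∀ hx : xn L z ∈ RF m',
      em σ ⟨xn L z, hx⟩ = xn L z := by
    intro L hL z hz hzL hx
    obtain ⟨-, t2, t3, -, -, -, -, -, t9⟩ := h3 A B hR L hL
    obtain ⟨-, ha⟩ := hα.2 L hL
    obtain ⟨haL, hax⟩ := ha z hz hzL
    have hcop : ∀ w, Tor m' L w → InEn V L w → w ∈ L.lattice := fun w hw hw' =>
      h2 p A B P V hC L hL m' hm' hmP w hw hw'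
    have n1 : ¬ InEn V L z := fun h => hzL (hcop z hz h)
    have n2 : ¬ InEn V L (emb α * z) := fun h => haL (hcop _ (t3 m' α z hz) h)
    have h5 := hσ ⟨xn L z, hx⟩ (unr_int n1)
    have h6 : ((σ ⟨xn L z, hx⟩ : RF m') : ℂ) = xn L (emb α * z) := hax hx
    rw [h6] at h5
    have e1 : emb α * z + z = emb (α + 1) * z := by
      rw [← hφ, ← hφ, map_add, map_one]
      ring
    have e2 : emb α * z - z = emb (α - 1) * z := by
      rw [← hφ, ← hφ, map_sub, map_one]
      ring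
    rw [hax hx]
    by_cases h7 : InEn V L (emb α * z + z)
    · have h8 : emb α * z + z ∈ L.lattice := hcop _ (by rw [e1]; exact t3 m' _ z hz) h7
      have h9 : emb α * z - -z ∈ L.lattice := by rwa [sub_neg_eq_add]
      rw [((t9 _ _ h9).2 haL).1]
      have h10 : z - z ∈ L.lattice := by rw [sub_self]; exact zero_mem _
      exact ((t9 z z h10).2 hzL).2.2
    · by_cases h8 : InEn V L (emb α * z - z)
      · have h9 : emb α * z - z ∈ L.lattice := hcop _ (by rw [e2]; exact t3 m' _ z hz) h8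
        exact ((t9 _ _ h9).2 haL).1
      · exfalso
        rw [(hC.gx L hL).sub _ _ n2 n1 h7 h8] at h5
        exact lt_irrefl _ h5
  -- conclusion
  have hcop1 : IsCoprime (sp (1 : OO A B)) m' := by
    have : sp (1 : OO A B) = 1 := by
      show Ideal.span {(1 : OO A B)} = 1
      rw [Ideal.span_singleton_one, Ideal.one_eq_top]
    rw [this]
    exact isCoprime_one_left
  have a1 : ActE (em σ) m' (1 : OO A B) := by
    refine ⟨hcop1, fun L hL => ⟨fun h => hkap L hL h, fun z hz hzL => ?_⟩⟩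
    rw [hone, one_mul]
    exact ⟨hzL, fun hx => hxn L hL z hz hzL hx⟩
  have a2 : ActE (em (1 : RF m' ≃ₐ[kk A B] RF m')) m' (1 : OO A B) := by
    refine ⟨hcop1, fun L hL => ⟨fun h => rfl, fun z hz hzL => ?_⟩⟩
    rw [hone, one_mul]
    exact ⟨hzL, fun hx => rfl⟩
  have heq := f3 m' (em σ) (em 1) 1 a1 a2
  apply AlgEquiv.ext
  intro x
  apply Subtype.ext
  exact congrArg (fun f : RF m' →ₐ[kk A B] ℂ => f x) heq

end

end Pool.Agent.MUXE
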