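import Pool.Agent.MUX.StXE

/-!
# MUX, block E: module WI (helper19)
-/

set_option autoImplicit false

namespace Pool.Agent.MUXE

open _root_.MU3 Pool.Agent.MU3A Pool.Agent.MU3B Pool.Agent.MUX Pool.Agent.MUXU Pool.Agent.RI

namespace WI19

theorem sq_inj {Γ : Type*} [LinearOrderedCommGroupWithZero Γ] {a b : Γ} (h : a ^ 2 = b ^ 2) :
    a = b := (pow_left_inj₀ zero_le zero_le two_ne_zero).1 h

/-- the computation for `p = 3` -/
theorem val3 {K Γ : Type*} [Field K] [LinearOrderedCommGroupWithZero Γ] (v : Valuation K Γ)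
    (t t' x x' : K) (hτ : v t' = v t) (ht0 : v t ≠ 0) (h3 : v 3 = v t ^ 2) (h2 : v 2 = 1)
    (hx' : v x' * v t' ^ 2 = 1) (a : v (x * t ^ 2 - 1) ≤ v t) (b : v (x' * t' ^ 2 - 1) ≤ v t')
    (c : v (3 * (x - x')) ≤ v t) : v (t' - t) ≤ v t ^ 2 ∨ v (t' + t) ≤ v t ^ 2 := by
  rw [hτ] at hx' b
  have ht : 0 < v t := zero_lt_iff.2 ht0
  -- `v ((x - x') t²) ≤ v t`
  have h4 : v ((x - x') * t ^ 2) ≤ v t := by
    rw [map_mul, map_pow, ← h3, mul_comm, ← map_mul]
    exact c
  have h5 : v (x' * (t' ^ 2 - t ^ 2)) ≤ v t := by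
    have e : x' * (t' ^ 2 - t ^ 2) = (x' * t' ^ 2 - 1) - (x * t ^ 2 - 1) + (x - x') * t ^ 2 := by
      ring
    rw [e]
    exact (v.map_add _ _).trans (max_le ((v.map_sub _ _).trans (max_le b a)) h4)
  have h6 : v (t' - t) * v (t' + t) ≤ v t ^ 2 * v t := by
    have e : v (t' - t) * v (t' + t) = v t ^ 2 * v (x' * (t' ^ 2 - t ^ 2)) := by
      have e1 : t' ^ 2 - t ^ 2 = (t' - t) * (t' + t) := by ring
      rw [map_mul v x', e1, map_mul, ← mul_assoc, mul_comm (v t ^ 2), hx', one_mul]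
    rw [e]
    exact mul_le_mul_right h5 _
  have h7 : v t ≤ max (v (t' + t)) (v (t' - t)) := by
    have e : v t = v ((t' + t) - (t' - t)) := by
      have e1 : (t' + t) - (t' - t) = 2 * t := by ring
      rw [e1, map_mul, h2, one_mul]
    rw [e]
    exact v.map_sub _ _
  rcases le_max_iff.1 h7 with h8 | h8
  · left
    have h9 : v (t' - t) * v t ≤ v t ^ 2 * v t := (mul_le_mul_right h8 _).trans h6
    exact (mul_le_mul_iff_left₀ ht).1 h9
  · right
    have h9 : v (t' + t) * v t ≤ v t ^ 2 * v t := by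
      refine (mul_le_mul_right h8 _).trans ?_
      rw [mul_comm]
      exact h6
    exact (mul_le_mul_iff_left₀ ht).1 h9

/-- the case `p = 2`: the parameter is `2` -/
theorem tE_two {V : ValuationSubring ℂ} {L : PeriodPair} {u : ℂ} (h : InEn V L u)
    (hu : u ∉ L.lattice) (h2 : 2 * u ∈ L.lattice) : tE L u = 2 := by
  have h3 : L.derivWeierstrassP u = 0 := (b_ZER L u hu).2 h2
  have h4 : xn L u ≠ 0 := by
    intro h5
    rcases h with h6 | h6
    · exact hu h6
    · rw [h5] at h6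
      exact h6 V.zero_mem
  unfold tE
  rw [h3]
  field_simp
  ring

variable {p : ℕ} {A B : ℤ} {P : Ideal (OO A B)} {V : ValuationSubring ℂ}

theorem emb_nat (h : RingE A B) (n : ℕ) : emb (n : OO A B) = (n : ℂ) := by
  obtain ⟨φ, hφ⟩ := h.hom
  rw [← hφ, map_natCast]

theorem emb_sub (h : RingE A B) (x y : OO A B) : emb (x - y) = emb x - emb y := by
  obtain ⟨φ, hφ⟩ := h.hom
  rw [← hφ, ← hφ, ← hφ, map_sub]

theorem emb_add (h : RingE A B) (x y : OO A B) : emb (x + y) = emb x + emb y := by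
  obtain ⟨φ, hφ⟩ := h.hom
  rw [← hφ, ← hφ, ← hφ, map_add]

theorem emb_one (h : RingE A B) : emb (1 : OO A B) = 1 := by
  obtain ⟨φ, hφ⟩ := h.hom
  rw [← hφ, map_one]

/-- the three-term estimate for the sign -/
theorem three {K Γ : Type*} [Field K] [LinearOrderedCommGroupWithZero Γ] (v : Valuation K Γ)
    (a b a' b' : K) (w : ℤ) (hw : w = 1 ∨ w = -1) (g : Γ) (h1 : v (a' + a) ≤ g)
    (h2 : v (b' + b) ≤ g) (h3 : v (a - w * b) ≤ g) : v (a' - w * b') ≤ g := by
  have hw1 : v (w : K) = 1 := by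
    rcases hw with rfl | rfl
    · rw [Int.cast_one, map_one]
    · rw [Int.cast_neg, Int.cast_one, Valuation.map_neg, map_one]
  have e : a' - w * b' = (a' + a) - w * (b' + b) - (a - w * b) := by ring
  rw [e]
  refine (v.map_sub _ _).trans (max_le ((v.map_sub _ _).trans (max_le h1 ?_)) h3)
  rw [map_mul, hw1, one_mul]
  exact h2

/-- one lattice -/
theorem one (h1 : Sxe_PA) (h2 : Sxe_KER) (h4 : Sxe_TRA) (h5 : Sxe_TRB) (C : CtxE p P V)
    (L₀ L : PeriodPair) (hL₀ : NL A B L₀) (hL : NL A B L) (μ : ℂ)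
    (hμ : ∀ u ∈ L₀.lattice, μ * u ∈ L.lattice)
    (hk : ∀ u, (p : ℂ) * u ∈ L₀.lattice → μ * u ∈ L.lattice → u ∈ L₀.lattice) :
    ∃ w : ℤ, (w = 1 ∨ w = -1) ∧ ∀ u, Tor P L₀ u → u ∉ L₀.lattice →
      V.valuation (tE L (μ * u) - w * tE L₀ u) ≤ V.valuation (tE L₀ u) ^ 2 := by
  -- the point `μ u`
  have hT : ∀ u, Tor P L₀ u → Tor P L (μ * u) := by
    intro u hu x hx
    have e : emb x * (μ * u) = μ * (emb x * u) := by ring
    rw [e]
    exact hμ _ (hu x hx)
  have hN : ∀ u, Tor P L₀ u → u ∉ L₀.lattice → μ * u ∉ L.lattice := by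
    intro u hu hu' h
    refine hu' (hk u ?_ h)
    have := hu _ C.mem
    rwa [emb_nat C.ring] at this
  rcases C.two with hp | hp
  · -- `p = 2`
    refine ⟨1, Or.inl rfl, fun u hu hu' => ?_⟩
    have hP : ∀ (M : PeriodPair) (z : ℂ), Tor P M z → 2 * z ∈ M.lattice := by
      intro M z hz
      have := hz _ C.mem
      rw [emb_nat C.ring, hp] at this
      exact_mod_cast this
    rw [tE_two (h2 p A B P V C L₀ hL₀ u hu hu').1 hu' (hP L₀ u hu),
      tE_two (h2 p A B P V C L hL _ (hT u hu) (hN u hu hu')).1 (hN u hu hu') (hP L _ (hT u hu))]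
    rw [Int.cast_one, one_mul, sub_self, map_zero]
    exact zero_le
  · -- `p = 3`
    have hpa := h1 p A B P V C
    obtain ⟨_, hpa2, hpa3, hpa4, hpa5, _⟩ := hpa
    have hv2 : V.valuation (2 : ℂ) = 1 := by
      have := (hpa4 2 (by rw [hp]; norm_num)).1
      exact_mod_cast this
    have hKER : ∀ (M : PeriodPair) (_ : NL A B M) (z : ℂ), Tor P M z → z ∉ M.lattice →
        V.valuation (tE M z) ^ 2 = V.valuation (3 : ℂ) := by
      intro M hM z hz hz'
      have h := (h2 p A B P V C M hM z hz hz').2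
      rw [hp] at h
      exact_mod_cast h
    have hInE : ∀ (M : PeriodPair) (_ : NL A B M) (z : ℂ), Tor P M z → z ∉ M.lattice →
        InEn V M z := fun M hM z hz hz' => (h2 p A B P V C M hM z hz hz').1
    have hone : ∀ u, Tor P L₀ u → u ∉ L₀.lattice →
        ∃ w : ℤ, (w = 1 ∨ w = -1) ∧
          V.valuation (tE L (μ * u) - w * tE L₀ u) ≤ V.valuation (tE L₀ u) ^ 2 := by
      intro u hu hu'
      have g := C.gx L₀ hL₀
      have g' := C.gx L hL
      have k1 := hKER L₀ hL₀ u hu hu'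
      have k2 := hKER L hL _ (hT u hu) (hN u hu hu')
      have hτ : V.valuation (tE L (μ * u)) = V.valuation (tE L₀ u) := sq_inj (k2.trans k1.symm)
      have hpar := g.par u (hInE L₀ hL₀ u hu hu') hu'
      have hpar' := g'.par _ (hInE L hL _ (hT u hu) (hN u hu hu')) (hN u hu hu')
      rcases val3 V.valuation (tE L₀ u) (tE L (μ * u)) (xn L₀ u) (xn L (μ * u)) hτ hpar.2.1 k1.symm
        hv2 hpar'.2.2 (g.xt u (hInE L₀ hL₀ u hu hu') hu')
        (g'.xt _ (hInE L hL _ (hT u hu) (hN u hu hu')) (hN u hu hu'))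
        (C.x3 hp L₀ L u _ hL₀ hL hu hu' (hT u hu) (hN u hu hu')) with h | h
      · exact ⟨1, Or.inl rfl, by rw [Int.cast_one, one_mul]; exact h⟩
      · refine ⟨-1, Or.inr rfl, ?_⟩
        have e : tE L (μ * u) - ((-1 : ℤ) : ℂ) * tE L₀ u = tE L (μ * u) + tE L₀ u := by
          push_cast
          ring
        rw [e]
        exact h
    by_cases hex : ∃ u, Tor P L₀ u ∧ u ∉ L₀.lattice
    · obtain ⟨u, hu, hu'⟩ := hex
      obtain ⟨w, hw, hwu⟩ := hone u hu hu'
      refine ⟨w, hw, fun z hz hz' => ?_⟩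
      have hP0 : P ≠ ⊥ := by
        intro h
        have h3 := C.mem
        rw [h, Ideal.mem_bot] at h3
        have h6 := emb_nat C.ring p
        rw [h3] at h6
        have h7 := emb_nat C.ring 0
        rw [Nat.cast_zero, Nat.cast_zero] at h7
        rw [h7, hp] at h6
        norm_num at h6
      obtain ⟨x, hx⟩ := (h5 A B C.ring L₀ hL₀).2 P hP0 hpa5 u z hu hz hu'
      obtain ⟨_, _, _, _, _, _, _, _, tr9⟩ := h4 A B C.ring L₀ hL₀
      obtain ⟨_, _, _, _, _, _, _, _, tr9'⟩ := h4 A B C.ring L hL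
      have hxP : x ∉ P := by
        intro h
        have h3 := L₀.lattice.add_mem hx (hu x h)
        rw [sub_add_cancel] at h3
        exact hz' h3
      have kz := hKER L₀ hL₀ z hz hz'
      have ku := hKER L₀ hL₀ u hu hu'
      have hvz : V.valuation (tE L₀ z) = V.valuation (tE L₀ u) := sq_inj (kz.trans ku.symm)
      rcases (hpa2 x hxP).2 with h3 | h3
      · -- `z ≡ u`
        have e1 : z - u ∈ L₀.lattice := by
          have h6 := L₀.lattice.add_mem hx (hu _ h3)
          rw [emb_sub C.ring, emb_one C.ring] at h6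
          have e : z - emb x * u + (emb x - 1) * u = z - u := by ring
          rwa [e] at h6
        have e2 : μ * z - μ * u ∈ L.lattice := by
          rw [← mul_sub]
          exact hμ _ e1
        rw [((tr9 z u e1).2 hz').2.1, ((tr9' (μ * z) (μ * u) e2).2 (hN z hz hz')).2.1]
        exact hwu
      · -- `z ≡ -u`
        have e1 : z - (-u) ∈ L₀.lattice := by
          have h6 := L₀.lattice.add_mem hx (hu _ h3)
          rw [emb_add C.ring, emb_one C.ring] at h6
          have e : z - emb x * u + (emb x + 1) * u = z - (-u) := by ring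
          rwa [e] at h6
        have e2 : μ * z - (-(μ * u)) ∈ L.lattice := by
          have h6 := hμ _ e1
          have e : μ * (z - (-u)) = μ * z - (-(μ * u)) := by ring
          rwa [e] at h6
        rw [hvz, ((tr9 z (-u) e1).2 hz').2.1,
          ((tr9' (μ * z) (-(μ * u)) e2).2 (hN z hz hz')).2.1]
        have g := C.gx L₀ hL₀
        have g' := C.gx L hL
        have t1 := g.tneg u (hInE L₀ hL₀ u hu hu') hu'
        have t2 := g'.tneg _ (hInE L hL _ (hT u hu) (hN u hu hu')) (hN u hu hu')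
        have k2 := hKER L hL _ (hT u hu) (hN u hu hu')
        rw [sq_inj (k2.trans ku.symm)] at t2
        exact three V.valuation _ _ _ _ w hw _ t2 t1 hwu
    · exact ⟨1, Or.inl rfl, fun u hu hu' => absurd ⟨u, hu, hu'⟩ hex⟩

end WI19

open WI19 in
theorem te_WI (h1 : Sxe_PA) (h2 : Sxe_KER) (h3 : Sxe_PT) (h4 : Sxe_TRA) (h5 : Sxe_TRB) :
    Sxe_WI := by
  intro p A B P V C n ι R hn hpn
  have hi : ∀ i, ∃ w : ℤ, (w = 1 ∨ w = -1) ∧ ∀ u, Tor P (R.L R.i0) u → u ∉ (R.L R.i0).lattice →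
      V.valuation (tE (R.L i) (muX R i * u) - w * tE (R.L R.i0) u) ≤
        V.valuation (tE (R.L R.i0) u) ^ 2 := by
    intro i
    obtain ⟨_, a2, a3, _⟩ := h3 A B C.ring n ι R hn i
    have hp0 : p ≠ 0 := by
      rcases C.two with h | h <;> rw [h] <;> norm_num
    exact one h1 h2 h4 h5 C (R.L R.i0) (R.L i) ⟨_, _, R.nl R.i0⟩ ⟨_, _, R.nl i⟩ (muX R i) a2
      (a3 p hp0 (Nat.primeFactors_mono hpn hn))
  choose w hw1 hw2 using hi
  exact ⟨w, hw1, fun i u hu hu' => hw2 i u hu hu'⟩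

end Pool.Agent.MUXE
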