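import Pool.Agent.MUX.UAll
import Pool.Agent.MUX.E_BDL
import Pool.Agent.MUX.E_COP
import Pool.Agent.MUX.E_CTX
import Pool.Agent.MUX.E_DEG
import Pool.Agent.MUX.E_EW
import Pool.Agent.MUX.E_FAC
import Pool.Agent.MUX.E_GAL
import Pool.Agent.MUX.E_GAM
import Pool.Agent.MUX.E_GTH
import Pool.Agent.MUX.E_GXG
import Pool.Agent.MUX.E_KER
import Pool.Agent.MUX.E_MAIN0
import Pool.Agent.MUX.E_MUV
import Pool.Agent.MUX.E_NE1
import Pool.Agent.MUX.E_ONE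
import Pool.Agent.MUX.E_PA
import Pool.Agent.MUX.E_PB
import Pool.Agent.MUX.E_PC
import Pool.Agent.MUX.E_PT
import Pool.Agent.MUX.E_RAM
import Pool.Agent.MUX.E_RED2
import Pool.Agent.MUX.E_RNG
import Pool.Agent.MUX.E_SIG
import Pool.Agent.MUX.E_THE
import Pool.Agent.MUX.E_TP
import Pool.Agent.MUX.E_TRA
import Pool.Agent.MUX.E_TRB
import Pool.Agent.MUX.E_UNR
import Pool.Agent.MUX.E_WI
import Pool.Agent.MU3.E_BAS
import Pool.Agent.MU3.E_PRD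

/-!
# MUX, block E: all statements, without hypotheses (helper66)
-/

set_option autoImplicit false

namespace Pool.Agent.MUXE

open _root_.MU3 Pool.Agent.MU3A Pool.Agent.MU3B Pool.Agent.MUX Pool.Agent.MUXU Pool.Agent.RI

theorem xe_BAS : Pool.Agent.MU3E.Se_BAS := Pool.Agent.MU3E.te_BAS
theorem xe_PRD : Pool.Agent.MU3E.Se_PRD := Pool.Agent.MU3E.te_PRD
theorem xe_RNG : Sxe_RNG := te_RNG
theorem xe_CTX : Sxe_CTX := te_CTX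
theorem xe_GAL : Sxe_GAL := te_GAL
theorem xe_PA : Sxe_PA := te_PA
theorem xe_PB : Sxe_PB := te_PB
theorem xe_PC : Sxe_PC := te_PC xe_PA
theorem xe_TRA : Sxe_TRA := te_TRA
theorem xe_TRB : Sxe_TRB := te_TRB
theorem xe_KER : Sxe_KER := te_KER xe_PA xe_TRA xe_TRB u_BAC u_PFI
theorem xe_COP : Sxe_COP := te_COP xe_PA xe_PB xe_TRA xe_TRB xe_KER u_BAC u_PFI
theorem xe_TP : Sxe_TP := te_TP xe_PA xe_TRA xe_TRB xe_KER u_BAC u_PFI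
theorem xe_FAC : Sxe_FAC := te_FAC xe_TRA
theorem xe_DEG : Sxe_DEG := te_DEG xe_PA xe_PB xe_FAC
theorem xe_RAM : Sxe_RAM := te_RAM xe_PA
theorem xe_UNR : Sxe_UNR := te_UNR xe_RAM xe_COP xe_TRA xe_FAC
theorem xe_SIG : Sxe_SIG :=
  te_SIG xe_BAS xe_DEG xe_TP xe_COP xe_UNR xe_TRA xe_TRB xe_KER xe_FAC
theorem xe_NE1 : Sxe_NE1 := te_NE1 xe_PA xe_TRA
theorem xe_THE : Sxe_THE := te_THE xe_PRD b_TDL
theorem xe_GTH : Sxe_GTH := te_GTH xe_TRA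
theorem xe_PT : Sxe_PT := te_PT xe_TRA
theorem xe_GAM : Sxe_GAM := te_GAM xe_PA
theorem xe_WI : Sxe_WI := te_WI xe_PA xe_KER xe_PT xe_TRA xe_TRB
theorem xe_MUV : Sxe_MUV := te_MUV xe_PA xe_KER xe_PT xe_TRA xe_TRB u_BAC u_PFI
theorem xe_ONE : Sxe_ONE :=
  te_ONE xe_PA xe_TRA xe_KER xe_FAC xe_SIG xe_NE1 xe_THE xe_GTH xe_PT xe_GAM xe_PRD
theorem xe_MAIN0 : Sxe_MAIN0 := te_MAIN0 xe_ONE xe_CTX xe_GAL
theorem xe_BDL : Sxe_BDL := te_BDL xe_CTX xe_PT xe_NE1 xe_THE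
theorem xe_EW : Sxe_EW := te_EW xe_MAIN0 xe_CTX xe_PT xe_WI xe_MUV xe_TRA xe_BDL

end Pool.Agent.MUXE
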