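import Pool.Agent.MUX.StR2

/-!
# MUX, block R3: good reduction at the places above 3 (the case `p = 3`) (helper83)

The analogue of `StR2.lean` (helper77) for `p = 3`. `V` is a valuation ring of `ℂ` with `v(3) = θ < 1`, `v = V.valuation`. All lattices are
normalised (`g₂ = -18 g₃`), `x = xn L z = ℘ - 1/12`, `κ = kap L`, `j = 1728 + 1/κ`, and (blocks `CQ`, `CaseP 3`) have complex multiplication by
`O`, `3 O = P Pbar`. Every `def S3_X : Prop` is the statement of a module which proves `theorem t3_X (h : S3_Y) .. : S3_X` in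
`Pool/Agent/MUX/R3_X.lean`, namespace `Pool.Agent.MUX3`. The theorems `Pool.Agent.MU3B.b_X : St_X` of `Pool/Agent/MU3/BAll.lean` and the
theorems `Pool.Agent.MUXU.tu_X` of `Pool/Agent/MUX/U_X.lean` may be used. MODEL: the file `Pool/Agent/MUX/R2_Y.lean` of the same name for `p = 2`
(copy and adapt; its private lemmas may be imported if nothing changes). `IT2`, `GR2`, `GRG`, `VG.lean` of the case `p = 2` hold in
every residue characteristic and are used as they are.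

Parameter: for `u` of order three on `ℂ / L`, `x₀ = x(u)`: `s = par3 L u = 9 κ (12 x₀ + 1)/(x₀³ - κ)`. Put `q(s) = s² + 18 s - 27`,
`r(s) = s² - 486 s - 19683`, `J(s) = (s + 27)(s + 3)³/s`. Then `x₀ = (s + 9)/q(s)`, `κ = s/q(s)²`, `j = J(s)`; the quotient by `{0, u, -u}` has the
parameter `729/s` at the dual point, `κ' = s³/r(s)²`, and the multiplier `mu² = (s + 3) r(s)/((s + 243) q(s))`. All formulas were
checked by computer.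
-/

set_option autoImplicit false

namespace Pool.Agent.MUX3

open _root_.MU3 Pool.Agent.MU3A Pool.Agent.MU3B Pool.Agent.MUX Pool.Agent.MUXU Pool.Agent.MUX2
open WeierstrassCurve

noncomputable section

/-- the isogeny `z ↦ mu z` from `ℂ / L` to `ℂ / M` has the kernel `{0, u, -u}`, `u` of order three -/
structure Three (L M : PeriodPair) (mu u : ℂ) : Prop where
  mu_ne : mu ≠ 0
  u_ne : u ∉ L.lattice
  u3 : 3 * u ∈ L.lattice
  ker : ∀ z, mu * z ∈ M.lattice ↔ z ∈ L.lattice ∨ z - u ∈ L.lattice ∨ z + u ∈ L.lattice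

/-- the parameter of a point of order three -/
def par3 (L : PeriodPair) (u : ℂ) : ℂ :=
  9 * kap L * (12 * xn L u + 1) / (xn L u ^ 3 - kap L)

/-- `q(s) = s² + 18 s - 27` -/
def q3 (s : ℂ) : ℂ := s ^ 2 + 18 * s - 27

/-- `r(s) = s² - 486 s - 19683` -/
def r3 (s : ℂ) : ℂ := s ^ 2 - 486 * s - 19683

/-- (TRI) points of order three.

PROOF. `2 u ∉ L` (otherwise `u = 3u - 2u ∈ L`), so `℘'(u) ≠ 0` (`b_ZER`). `2u - (-u) ∈ L`, so `℘(2u) = ℘(-u) = ℘(u)` (periodicity, `℘` even). (DUP): `3 ℘(u) = ((6℘² - g₂/2)/(2℘'))²`, i.e.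
`12 ℘ ℘'² = (6℘² - g₂/2)²`, with `℘'² = 4℘³ - g₂℘ - g₃` (`derivWeierstrassP_sq`): `48℘⁴ - 12g₂℘² - 12g₃℘ = 36℘⁴ - 6g₂℘² + g₂²/4`. -/
def S3_TRI : Prop :=
  ∀ (L : PeriodPair) (u : ℂ), u ∉ L.lattice → 3 * u ∈ L.lattice →
    L.derivWeierstrassP u ≠ 0 ∧
    12 * L.weierstrassP u ^ 4 - 6 * L.g₂ * L.weierstrassP u ^ 2 - 12 * L.g₃ * L.weierstrassP u -
      L.g₂ ^ 2 / 4 = 0

/-- (VEL) the quotient by a subgroup of order three. `e = ℘(u)`, `t = 6e² - g₂/2`, `w = 4e³ - g₂e - g₃ = ℘'(u)²`.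

Uses `Pool.Agent.MUXU.Su_ISO`, `Su_DER`. MODEL: `R2_VEL.lean`. PROOF. (ISO) with `R = {u, -u}` (`u ≠ -u`, even `u - (-u) = 2u ∉ L`; `mu L ⊆ M`: `ker`): `A` monic of degree three, `B = C(mu²)(X - e)²`,
`IsoP`, `OdeP`. Let `m = mu²`, `Y = X - e`, `B = mY²`. `A'B - AB' = mY(A'Y - 2A)`; insert in `OdeP` and cancel `m²Y²`: `(A'Y - 2A)² F = 4A³ - m²g₂(M) A Y⁴ - m³g₃(M) Y⁶`,
`F = 4X³ - g₂X - g₃ = 4Y³ + 12eY² + (12e² - g₂)Y + w`. At `Y = 0`: `4A(e)²w = 4A(e)³`, `A(e) ≠ 0` (coprime to `B`), so `A(e) = w`. Write `A = Y³ + pY² + tY + w` (monic). `A'Y - 2A = Y³ - tY - 2w`.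
Compare coefficients: `Y⁸`: `12e = 12p`. `Y¹`: `4w²(12e² - g₂) + 4tw² = 12tw²`, `w ≠ 0`: `t = 6e² - g₂/2`. `Y⁷`: `-8t + 12e² - g₂ = 12t + 12e² - m²g₂(M)`, i.e. `m²g₂(M) = 20t + g₂ = 120e² - 9g₂`.
`Y⁶`: `-15w - 24et = 4e³ + 24et + 12w - m²g₂(M)e - m³g₃(M)`, i.e. `m³g₃(M) = 4e³ + 48et + 27w - (120e² - 9g₂)e = 280e³ - 42g₂e - 27g₃`. `℘ z ≠ e` if `mu z ∉ M` (then `z ∉ L`; `b_NEQ`: `℘ z = ℘ u` gives `z ∓ u ∈ L`).
`A(℘ z) = ℘_M(mu z) B(℘ z)` is the third formula. (DER): `mu ℘_M'(mu z) m²Y⁴ = mY(Y³ - tY - 2w) ℘'(z)` with `Y = ℘ z - e`. -/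
def S3_VEL : Prop :=
  ∀ (L M : PeriodPair) (mu u : ℂ), Three L M mu u →
    mu ^ 4 * M.g₂ = 120 * L.weierstrassP u ^ 2 - 9 * L.g₂ ∧
    mu ^ 6 * M.g₃ =
      280 * L.weierstrassP u ^ 3 - 42 * L.g₂ * L.weierstrassP u - 27 * L.g₃ ∧
    ∀ z, mu * z ∉ M.lattice →
      L.weierstrassP z - L.weierstrassP u ≠ 0 ∧
      mu ^ 2 * M.weierstrassP (mu * z) = L.weierstrassP z +
        (6 * L.weierstrassP u ^ 2 - L.g₂ / 2) / (L.weierstrassP z - L.weierstrassP u) +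
        (4 * L.weierstrassP u ^ 3 - L.g₂ * L.weierstrassP u - L.g₃) /
          (L.weierstrassP z - L.weierstrassP u) ^ 2 ∧
      mu ^ 3 * M.derivWeierstrassP (mu * z) = L.derivWeierstrassP z *
        (1 - (6 * L.weierstrassP u ^ 2 - L.g₂ / 2) /
            (L.weierstrassP z - L.weierstrassP u) ^ 2 -
          2 * (4 * L.weierstrassP u ^ 3 - L.g₂ * L.weierstrassP u - L.g₃) /
            (L.weierstrassP z - L.weierstrassP u) ^ 3)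

/-- (PAR) the parameter of a point of order three on a normalised lattice.

Uses TRI. MODEL: `R2_NRM.lean` (`nrm_kap`: `κ ≠ 0`, `g₂ = (1+1728κ)/12`, `g₃ = -(1+1728κ)/216`, `g₂ ≠ 0`, so `1+1728κ ≠ 0`). PROOF. `℘(u) = x₀ + 1/12`; TRI becomes `ψ(x₀) = 0`, `ψ(X) = 3X⁴ + X³ - 216κX² - 12κX - κ - 1296κ²`.
(1) `x₀³ ≠ κ`: otherwise `ψ = -9x₀⁴(1 + 12x₀)²` (substitute `κ = x₀³`), `x₀ ≠ 0` as `κ ≠ 0`, so `x₀ = -1/12`, `κ = -1/1728`, contradiction. Put `s = par3 L u`, `N = x₀³ - κ`. (2) `s + 9 = 9x₀(x₀² + 12κ)/N`,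
`q(s) = (s+9)² - 108 = 9(x₀² + 12κ)/N`, because `81x₀²(x₀² + 12κ)² - 108N² - 9(x₀² + 12κ)N = -9x₀²ψ(x₀)`. (3) `x₀² + 12κ ≠ 0`: otherwise (`x₀² = -12κ`) `ψ = κ(1728κ - 24x₀ - 1)`, so `x₀ = (1728κ - 1)/24`,
and `x₀² + 12κ = (1728κ + 1)²/576`, contradiction. So `q(s) ≠ 0` and `x₀ = (s + 9)/q(s)`. (4) `κq(s)² = s`: `81κ(x₀² + 12κ)² = 9κ(12x₀ + 1)N`, as `9(x₀² + 12κ)² - (12x₀ + 1)N = -ψ(x₀) + ..` (precisely
`(12x₀ + 1)(x₀³ - κ) - 9(x₀² + 12κ)² = ψ(x₀)`). So `κ = s/q(s)²`, `s ≠ 0`. (5) `1 + 1728κ = (q(s)² + 1728s)/q(s)² = (s + 27)(s + 3)³/q(s)²`, so `s + 3 ≠ 0`, `s + 27 ≠ 0`. -/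
def S3_PAR : Prop :=
  ∀ (L : PeriodPair) (u : ℂ), u ∉ L.lattice → 3 * u ∈ L.lattice → L.g₂ = -18 * L.g₃ →
    par3 L u ≠ 0 ∧ q3 (par3 L u) ≠ 0 ∧ par3 L u + 3 ≠ 0 ∧ par3 L u + 27 ≠ 0 ∧ kap L ≠ 0 ∧
    xn L u = (par3 L u + 9) / q3 (par3 L u) ∧
    kap L = par3 L u / q3 (par3 L u) ^ 2

/-- (NRM) the quotient, for normalised lattices.

Uses PAR, VEL. MODEL: `R2_NRM.lean`. PROOF. `s = par3 L u`, `q = q(s)`, `r = r(s)`. `e = ℘(u) = x₀ + 1/12 = (s+3)(s+27)/(12q)`, `g₂ = (s+27)(s+3)³/(12q²)`, `g₃ = -g₂/18`. (VEL): `mu⁴g₂(M) = (s+3)²(s+27)(s+243)/(12q²)`,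
`mu⁶g₃(M) = -(s+3)³(s+27)r/(216q³)`; both are not zero (`nrm_kap` for `M`): `s + 243 ≠ 0`, `r ≠ 0`. `g₂(M) = -18g₃(M)`: `mu² = -18(mu⁶g₃(M))/(mu⁴g₂(M))`. `12g₂(M) = 12(mu⁴g₂(M))/(mu²)² = (s+27)(s+243)³/r²`,
`(s+27)(s+243)³ - r² = 1728s³`. `t = 6e² - g₂/2 = (s+3)²(s+27)/q²`, `w = 4e³ - g₂e - g₃ = (s+3)³(s+27)/q³`. `℘ = x + 1/12` on both sides. -/
def S3_NRM : Prop :=
  ∀ (L M : PeriodPair) (mu u : ℂ), Three L M mu u → L.g₂ = -18 * L.g₃ → M.g₂ = -18 * M.g₃ →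
    par3 L u + 243 ≠ 0 ∧ r3 (par3 L u) ≠ 0 ∧
    kap M = par3 L u ^ 3 / r3 (par3 L u) ^ 2 ∧
    mu ^ 2 = (par3 L u + 3) * r3 (par3 L u) / ((par3 L u + 243) * q3 (par3 L u)) ∧
    ∀ z, mu * z ∉ M.lattice → xn L z - xn L u ≠ 0 ∧
      mu ^ 2 * xn M (mu * z) = xn L z + (1 - mu ^ 2) / 12 +
        (par3 L u + 3) ^ 2 * (par3 L u + 27) / q3 (par3 L u) ^ 2 / (xn L z - xn L u) +
        (par3 L u + 3) ^ 3 * (par3 L u + 27) / q3 (par3 L u) ^ 3 / (xn L z - xn L u) ^ 2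

/-- (DUA) the dual isogeny.

Uses TRI, PAR, NRM. MODEL: `R2_DUA.lean`. PROOF. Kernel: let `v = mu z` (`mu ≠ 0`). `(3/mu) v = 3z`, and `3z ∈ L` iff `z` is congruent modulo `L` to `i u + j u'` with `i, j ∈ {0, 1, -1}` (the nine points of `ℂ/L` killed by 3; the
lattice has a basis), iff `mu z ∈ M` or `mu z - mu u' ∈ M` or `mu z + mu u' ∈ M` (`ker`). `mu u' ∉ M` (`ker`). `3 mu u' ∈ M`. Parameter: `x₁ = x(u')` is a root of `ψ` (see PAR), `x₁ ≠ x₀` (`b_NEQ`), and with `t`, `w` of (NRM)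
(`t = 6x₀² + x₀ - 72κ`, `w = 4x₀³ + x₀² - 144κx₀ - 4κ`): `3(x₁ - x₀)((x₁ + 3x₀ + 1/3)(x₁ - x₀)² + t(x₁ - x₀) + w) = ψ(x₁) - ψ(x₀) = 0`, so (NRM) for `z = u'` gives `mu² xn M (mu u') = (1 - mu²)/12 - 3x₀ - 1/3`, and
`xn M (mu u') = -s(s+81)/(3r(s))`; with `κ' = s³/r(s)²`: `par3 M (mu u') = 9κ'(12x' + 1)/(x'³ - κ') = 729/s` (`x'³ - κ' = -s³((s+81)³ + 27r)/(27r³)`, `(s+81)³ + 27r = s(s+27)(s+243)`;
`12x' + 1 = -3(s+27)(s+243)/r`; not zero). -/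
def S3_DUA : Prop :=
  ∀ (L M : PeriodPair) (mu u u' : ℂ), Three L M mu u → L.g₂ = -18 * L.g₃ → M.g₂ = -18 * M.g₃ →
    u' ∉ L.lattice → 3 * u' ∈ L.lattice → u' - u ∉ L.lattice → u' + u ∉ L.lattice →
    Three M L (3 / mu) (mu * u') ∧ par3 M (mu * u') = 729 / par3 L u

/-- (JEQ) two subgroups of order three of the same lattice.

Uses PAR. MODEL: `R2_JEQ.lean`. PROOF. `x(u) ≠ x(u')` (`b_NEQ`), so `s ≠ s'` (`x = (s+9)/q(s)`). `1/κ = q(s)²/s = s³ + 36s² + 270s - 972 + 729/s` takes the same value at `s` and `s'`; the difference is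
`(s - s')(s² + ss' + s'² + 36(s + s') + 270 - 729/(ss'))`. -/
def S3_JEQ : Prop :=
  ∀ (L : PeriodPair) (u u' : ℂ), u ∉ L.lattice → 3 * u ∈ L.lattice → u' ∉ L.lattice →
    3 * u' ∈ L.lattice → u' - u ∉ L.lattice → u' + u ∉ L.lattice → L.g₂ = -18 * L.g₃ →
    par3 L u * par3 L u' * (par3 L u ^ 2 + par3 L u * par3 L u' + par3 L u' ^ 2 +
      36 * (par3 L u + par3 L u') + 270) = 729

/-- the recursion of the parameters along a chain -/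
def Rec3 (s : ℕ → ℂ) : Prop :=
  ∀ i, s i ≠ 0 ∧ s (i + 1) ^ 3 + (36 + 729 / s i) * s (i + 1) ^ 2 +
    ((729 / s i) ^ 2 + 36 * (729 / s i) + 270) * s (i + 1) = s i

/-- (CHN) periodic chains: valuations.

MODEL: `R2_CHN.lean`. PROOF. `θ = v(3) < 1`. (0) Let `S r = 729`, `X ≠ 0`, `X³ + (36 + r)X² + (r² + 36r + 270)X = S`, `v(S) ≥ θ⁴`. Then `v(r) = θ⁶/v(S) ≤ θ²`, `v(36 + r) ≤ θ²`, `v(r² + 36r + 270) ≤ θ³`. With `b = v(X)`: if `b³ ≠ v(S)` then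
`max(b³, v(S)) = v(X³ - S) ≤ max(θ²b², θ³b)`. If the maximum on the right is `θ²b²`: `b ≤ θ²` and `v(S) ≤ θ⁶ < θ⁴`; if it is `θ³b`: `b² ≤ θ³` and `v(S)² ≤ θ⁶b² ≤ θ⁹ < θ⁸ ≤ v(S)²`; both impossible. So `b³ = v(S)`, and `b ≥ θ⁴`
(otherwise `b³ < θ¹² ≤ θ⁴`). (a) If some `a_i = v(s_i) ≥ θ⁴`: by (0) (`S = s_i`, `X = s_(i+1)`, `r = 729/s_i`) `a_(j+1)³ = a_j ≥ θ⁴` for all `j ≥ i`, by periodicity for all `j`; `a_(j+h)^(3^h) = a_j = a_(j+h)`, so `a_j = 1`.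
(b) Otherwise all `a_i < θ⁴`; `r_i = 729/s_i`, `v(r_i) = θ⁶/a_i > θ² ≥ θ⁴`. The recursion is symmetric: (multiply by `r_i/s_(i+1)`...) `r_i³ + (36 + s_(i+1)) r_i² + (s_(i+1)² + 36 s_(i+1) + 270) r_i = r_(i+1)`, so (0) with `S = r_(i+1)`, `r = s_(i+1)`, `X = r_i`
gives `v(r_i)³ = v(r_(i+1))`; periodicity: `v(r_i) = 1`, `a_i = θ⁶`. (Both recursions say `s_(i+1) r_i (s_(i+1)² + s_(i+1) r_i + r_i² + 36(s_(i+1) + r_i) + 270) = 729`.) -/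
def S3_CHN : Prop :=
  ∀ (V : ValuationSubring ℂ) (s : ℕ → ℂ) (h : ℕ), V.valuation 3 < 1 → Rec3 s → 0 < h →
    (∀ i, s (i + h) = s i) →
    (∀ i, V.valuation (s i) = 1) ∨ ∀ i, V.valuation (s i) = V.valuation 3 ^ 6

/-- (CIN) periodic chains of units: injectivity modulo `V`.

MODEL: `R2_CIN.lean`. PROOF. Common period `N = h h'`. `d_i = s_i - s'_i`. `J(s) = (s+27)(s+3)³/s = s³ + 36s² + 270s + 756 + 729/s`, and `v 36, v 270, v 756, v 729 < 1`, so `v(J(s_0) - J(s'_0)) < 1` and units give `v(s_0³ - s'_0³) < 1`;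
`(s_0 - s'_0)³ = s_0³ - s'_0³ - 3s_0s'_0(s_0 - s'_0)`, so `v(d_0) < 1`. By the recursion modulo the maximal ideal (`s_(i+1)³ ≡ s_i`) in the same way `v(d_i) < 1` implies `v(d_(i+1)) < 1`: all `v(d_i) < 1`. Subtract the recursions, with
`X = s_(i+1)`, `X' = s'_(i+1)`, `r = 729/s_i`, `r' = 729/s'_i`, `r - r' = -729 d_i/(s_i s'_i)`: `d_i = d_(i+1)(X² + XX' + X'² + 36(X + X') + 270 + r(X + X') + r² + 36r) + (r - r')(X'² + X'(r + r') + 36X')`. The first bracket has valuation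
`ρ < 1` (`X² + XX' + X'² = 3X² - 3X d + d²`, `d = d_(i+1)`), the second term at most `v(729) v(d_i) < v(d_i)` if `d_i ≠ 0`. So `v(d_i) ≤ ρ v(d_(i+1)) < v(d_(i+1))` if `d_i ≠ 0`. If `d_0 ≠ 0` then all
`d_i ≠ 0` and `v(d_0) < v(d_1) < ... < v(d_N) = v(d_0)`, contradiction. -/
def S3_CIN : Prop :=
  ∀ (V : ValuationSubring ℂ) (s s' : ℕ → ℂ) (h h' : ℕ), V.valuation 3 < 1 → Rec3 s → Rec3 s' →
    0 < h → 0 < h' → (∀ i, s (i + h) = s i) → (∀ i, s' (i + h') = s' i) →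
    (∀ i, V.valuation (s i) = 1) → (∀ i, V.valuation (s' i) = 1) →
    V.valuation ((s 0 + 27) * (s 0 + 3) ^ 3 / s 0 - (s' 0 + 27) * (s' 0 + 3) ^ 3 / s' 0) < 1 →
    s 0 = s' 0

/-- (CH3) the chain of `P`-isogenies.

Uses DUA, JEQ, NRM, PAR. MODEL: `R2_CH2.lean` (2 replaced by 3). PROOF. Let `Q = cjI P`: `P Q = (3)` (`MUXF.Sx_IDL`), `P ≠ Q` (`Q = P` would give `P² = (3)`, impossible as 3 splits: some `x ∈ P`, `x ∉ (3)`, has `x² ∈ (3)`, and `B² + 4A ≡ 1` modulo 3), so `P + Q = O`. `N i` = normalised lattice of the ideal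
`Q^i b` (`LatFacts.ex`), with `om_i`, `N 0 = L`, `om_0 = om`. `P z ⊆ N i` iff `z ∈ om_i (Q^(i+1) b)/3`, iff `mu_i z ∈ N (i+1)` with `mu_i = 3 om_(i+1)/om_i`. The group `{z : P z ⊆ N i}/N i` has three elements (it is isomorphic to `c/Pc`, `c` an invertible ideal, `nI P = 3`):
`0, u_i, -u_i`, and `3 u_i ∈ N i` (`3 ∈ P`): `Three (N i) (N (i+1)) mu_i u_i`. Let `u'` be a nonzero point of `N i` killed by `Q`: `3u' ∈ N i`, `u' ∓ u_i ∉ N i` (`P + Q = O`). `mu_i u'` is killed by `Q` (`Q ⊆ O`, `mu_i N i ⊆ N (i+1)`), not zero (`ker`),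
so not killed by `P`: `mu_i u' ∓ u_(i+1) ∉ N (i+1)`. (DUA): its parameter is `729/s_i`, (JEQ) for `u_(i+1)` and `mu_i u'` is `Rec3` (divide by `729/s_i`). Let `Q^h = (x)` (`LatFacts.fin`). `N (i+h)` and `N i` belong to the ideals `x Q^i b` and
`Q^i b`: the same lattice (`LatFacts.eq`), `om_(i+h) x = ± om_i`; `u_(i+h) ≡ ± u_i`, so `par3` is the same (it depends only on the lattice and `℘(u)`). `∏_(i<h) mu_i = 3^h om_h/om_0 = ± 3^h/emb x = ± emb (star x)` (`nm x = 3^h`: norm of `Q^h`), and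
`sp (star x) = cjI (Q^h) = P^h`. Put `y = star x`. -/
def S3_CH3 : Prop :=
  ∀ (A B : ℤ), CaseP 3 A B → (3 : ℤ) ∣ B ^ 2 + 4 * A - 1 → LatFacts A B →
    ∀ (P : Ideal (OO A B)), IsPN 3 P → ∀ (b : Ideal (OO A B)) (L : PeriodPair) (om : ℂ),
    IsNL b L om →
    ∃ (h : ℕ) (y : OO A B) (N : ℕ → PeriodPair) (mu u : ℕ → ℂ), 0 < h ∧ P ^ h = sp y ∧ N 0 = L ∧
      (∀ i, ∃ (b' : Ideal (OO A B)) (om' : ℂ), IsNL b' (N i) om') ∧
      (∀ i, IsQ P (N i) (N (i + 1)) (mu i)) ∧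
      (∀ i, Three (N i) (N (i + 1)) (mu i) (u i)) ∧
      (∀ i, Tor P (N i) (u i)) ∧
      (∀ i, (N (i + h)).lattice = (N i).lattice) ∧
      Rec3 (fun i => par3 (N i) (u i)) ∧
      (∀ i, par3 (N (i + h)) (u (i + h)) = par3 (N i) (u i)) ∧
      (∏ i ∈ Finset.range h, mu i = emb y ∨ ∏ i ∈ Finset.range h, mu i = -emb y)

/-- `V` lies above 3 and above the prime ideal `P` of norm three -/
structure Above3 {A B : ℤ} (P : Ideal (OO A B)) (V : ValuationSubring ℂ) : Prop where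
  three : V.valuation 3 < 1
  lt : ∀ x ∈ P, V.valuation (emb x) < 1
  one : ∀ x ∉ P, V.valuation (emb x) = 1

/-- (GD3) GOOD ORDINARY REDUCTION AT THE PLACES ABOVE 3.

Uses CHN, CH3, NRM, PAR. MODEL: `R2_GD2.lean`. PROOF. `P` is the prime under `V`, `Q` the other prime of norm three. (CH3) for `P`, (CHN): all `v(s_i) = 1` or all `v(s_i) = θ⁶`. From (NRM), `mu_i² = (s+3) r(s)/((s+243) q(s))`: in the first case
all four factors are units (`v(486), v(19683), v(243), v(18), v(27) < 1`), `v(mu_i) = 1`; in the second `v(s+3) = θ`, `v(r(s)) = v(19683) = θ⁹` (`v(486 s) ≤ θ¹¹`, `v(s²) = θ¹²`), `v(s+243) = θ⁵`, `v(q(s)) = v(27) = θ³`, so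
`v(mu_i)² = θ²`. The product of the `mu_i` has the valuation `v(emb y) < 1` (`y ∈ P^h ⊆ P`), so it is the second case and `v(mu_i) = θ`. For `Q`: `v(emb y) = 1` (`y ∉ P`: `sp y = Q^h`, and `Q^h` is not contained in the prime
ideal `P ≠ Q`), so the first case holds. (1) `κ = s/q(s)²` with the parameter `s` of the prime `Q`, a unit, `v(q(s)) = 1`; `v(1728κ) < 1`. (2) `u` killed by `P`, not zero: `u ≡ ± u_0` (the three points killed by `P`: `Three.ker` and `IsQ`), so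
`par3 L u = s_0`; `x(u) = (s+9)/q(s)`, `v(s+9) = θ²`; `3x(u) + 1 = s(s+21)/q(s)`, `v(s+21) = v(21) ≤ θ`: valuation `≤ θ^(6+1-3)`. (3) the same for `Q`: `v(s+9) = v(q(s)) = 1`. (4) a given `mu`, `M` with `IsQ P L M mu`, `M` normalised:
`mu_0⁻¹ mu` maps `N 1` onto `M`, both normalised, `c² = 1`. The same for `Q`. -/
def S3_GD3 : Prop :=
  ∀ (A B : ℤ), CaseP 3 A B → (3 : ℤ) ∣ B ^ 2 + 4 * A - 1 → LatFacts A B →
    ∀ (P Q : Ideal (OO A B)) (V : ValuationSubring ℂ), IsPN 3 P → IsPN 3 Q → P ≠ Q → Above3 P V →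
    ∀ (b : Ideal (OO A B)) (L : PeriodPair) (om : ℂ), IsNL b L om →
    V.valuation (kap L) = 1 ∧ V.valuation (1 + 1728 * kap L) = 1 ∧
    (∀ u, u ∉ L.lattice → Tor P L u → V.valuation (par3 L u) = V.valuation 3 ^ 6 ∧
      V.valuation (xn L u) * V.valuation 3 = 1 ∧
      V.valuation (3 * xn L u + 1) ≤ V.valuation 3 ^ 4) ∧
    (∀ u, u ∉ L.lattice → Tor Q L u → V.valuation (par3 L u) = 1 ∧
      V.valuation (xn L u) = 1) ∧
    (∀ (b' : Ideal (OO A B)) (M : PeriodPair) (om' mu : ℂ), IsNL b' M om' → IsQ P L M mu →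
      V.valuation mu = V.valuation 3) ∧
    (∀ (b' : Ideal (OO A B)) (M : PeriodPair) (om' mu : ℂ), IsNL b' M om' → IsQ Q L M mu →
      V.valuation mu = 1)

/-- (IN3) different lattices have incongruent `κ` modulo `V`.

Uses CH3, GD3, CIN, PAR, `Su_DET`. MODEL: `R2_IN2.lean`. PROOF. `v(κ) = v(κ') = 1` (GD3), so `v(1/κ - 1/κ') < 1`, `1/κ = J(s) - 1728`. Take the chains (CH3) of the prime `Q` (not below `V`) for `L` and `L'`: all parameters are units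
(GD3 for all `N i`). (CIN): `s_0 = s'_0`, so `κ(L) = κ(L')` (PAR), so `g₂` and `g₃` are equal and the lattices are. -/
def S3_IN3 : Prop :=
  ∀ (A B : ℤ), CaseP 3 A B → (3 : ℤ) ∣ B ^ 2 + 4 * A - 1 → LatFacts A B →
    ∀ (P Q : Ideal (OO A B)) (V : ValuationSubring ℂ), IsPN 3 P → IsPN 3 Q → P ≠ Q → Above3 P V →
    ∀ (b b' : Ideal (OO A B)) (L L' : PeriodPair) (om om' : ℂ), IsNL b L om → IsNL b' L' om' →
    V.valuation (kap L - kap L') < 1 → L.lattice = L'.lattice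

/-- (E13) the kernel of reduction and the ideals (`P` the prime under `V`).

Uses GD3, PAR, NRM, `S2_GR2`, `S2_IT2`, `VG.lean`. MODEL: `R2_E12.lean`. PROOF. (1) `j = 0`: (GD3). Induction: `u` of exact order `P^(j+1)`, `j ≥ 1`, `mu : L → M` with `IsQ P L M mu`, `M` normalised (`LatFacts.ex`), `u₀` a nonzero point killed by `P`, `Three L M mu u₀`, `s = par3 L u₀`, `v(s) = θ⁶`,
`x₀ = x(u₀)`. (NRM) times `(x - x₀)²`: `mu² x_M(mu z)(x - x₀)² = x³ + a₂x² + a₁x + a₀`, `x = xn L z`, with (`c = (1-mu²)/12`) `a₂ = c - 2x₀ = 60s(s+27)/((s+243)q)`, `a₁ = x₀² - 2cx₀ + t = s(s³ + 153s² + 3087s - 729)/((s+243)q²)`,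
`a₀ = cx₀² - tx₀ + w = 8s²(7s² + 198s - 189)/((s+243)q³)`; with `v(s) = θ⁶`, `v(s+27) = v(q) = θ³`, `v(s+243) = θ⁵`: `v(a₂) ≤ θ²`, `v(a₁) ≤ θ` (`v(..) ≤ θ⁶` for the bracket), `v(a₀) ≤ θ` (`v(7s² + 198s - 189) ≤ θ³`): all `< 1`.
`mu u` has exact order `P^j` on `M`, so `X = x_M(mu u)` has `v(X)^(3^(j-1)) θ = 1`, `1 < v(X) ≤ θ⁻¹`. Let `a = v(x(u))`; `v(mu²) = θ²`, `v(x₀) = θ⁻¹`. If `a ≤ 1`: the left side has valuation `θ² v(X) θ⁻² = v(X) > 1`, the right side `≤ 1`: contradiction. So `a > 1` and the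
right side has valuation `a³`. If `a < θ⁻¹`: `a³ = v(X)`, as claimed. If `a ≥ θ⁻¹`: `a³ ≤ θ² v(X) a²`, `a ≤ θ² v(X) ≤ θ < 1`, impossible.
(2) `u` in the kernel of reduction, killed by the ideal `m` prime to `P`. Let `N > 0` be an integer in `m`, `N = 3^i n`, `3 ∤ n`. `P Q = (3)`, `m + P^i = O`, so `n Q^i = n Q^i (m + P^i) ⊆ m + (n P^i Q^i) = m + (N) = m`. `n u` is in the kernel of reduction and killed by `Q^i`.
If `n u ∉ L` let `j < i` be maximal with `Q^j n u` not contained in `L`; some `c ∈ Q^j` has `w' = c n u ∉ L`, killed by `Q`, and `w'` is in the kernel of reduction ((IT2) for the isogeny `mu = c : L → L`); but `v(xn L w') = 1` (GD3). Contradiction; so `n u ∈ L`, and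
`u ∈ L` as `v(n) = 1` (`gmem_of_nat_mul`). -/
def S3_E13 : Prop :=
  ∀ (A B : ℤ), CaseP 3 A B → (3 : ℤ) ∣ B ^ 2 + 4 * A - 1 → LatFacts A B →
    ∀ (P Q : Ideal (OO A B)) (V : ValuationSubring ℂ), IsPN 3 P → IsPN 3 Q → P ≠ Q → Above3 P V →
    ∀ (b : Ideal (OO A B)) (L : PeriodPair) (om : ℂ), IsNL b L om →
    (∀ (j : ℕ) (u : ℂ), Tor (P ^ (j + 1)) L u → ¬ Tor (P ^ j) L u →
      V.valuation (xn L u) ^ (3 ^ j) * V.valuation 3 = 1) ∧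
    ∀ (m : Ideal (OO A B)) (u : ℂ), m ≠ ⊥ → IsCoprime m P → Tor m L u → InEn V L u → u ∈ L.lattice

/-- (MU3) multipliers of ideals prime to `P`.

Uses GD3, `S2_GR2`, `S2_IT2`. MODEL: `R2_MU2.lean` (nearly word for word). -/
def S3_MU3 : Prop :=
  ∀ (A B : ℤ), CaseP 3 A B → (3 : ℤ) ∣ B ^ 2 + 4 * A - 1 → LatFacts A B →
    ∀ (P Q : Ideal (OO A B)) (V : ValuationSubring ℂ), IsPN 3 P → IsPN 3 Q → P ≠ Q → Above3 P V →
    ∀ (b b' a : Ideal (OO A B)) (L M : PeriodPair) (om om' mu : ℂ), IsNL b L om → IsNL b' M om' →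
    a ≠ ⊥ → IsCoprime a P → IsQ a L M mu → V.valuation mu = 1

end

end Pool.Agent.MUX3
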