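import Pool.Agent.MUX.E_RED2
import Pool.Agent.MUX.E_CTX
import Pool.Agent.MUX.XLib
import Pool.Agent.MUX.StR3

/-!
# MUX, block E: `RedE 3` from helper83's block R3 (helper66)
-/

set_option autoImplicit false

namespace Pool.Agent.MUXE

open WeierstrassCurve
open _root_.MU3 Pool.Agent.MU3A Pool.Agent.MU3B Pool.Agent.MUX Pool.Agent.MUXU Pool.Agent.RI
open Pool.Agent.MUX2 Pool.Agent.MUX3

noncomputable section

/-- the other prime of norm `p` -/
lemma red_other {p : ℕ} {A B : ℤ} (hp : p.Prime) (h : CQ A B) (hr : RingE A B)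
    (hd : (p : ℤ) ∣ B ^ 2 + 4 * A - 1) {P : Ideal (OO A B)} (hP : IsPN p P) :
    IsPN p (cjI P) ∧ P ≠ cjI P ∧ P ≠ ⊥ := by
  have hP0 : P ≠ ⊥ := by
    rintro rfl
    have h1 := Ideal.mem_bot.1 hP.mem
    obtain ⟨φ, hφ⟩ := hr.hom
    have h2 := congrArg φ h1
    rw [map_natCast, map_zero] at h2
    exact hp.ne_zero (by exact_mod_cast h2)
  refine ⟨⟨?_, ?_, by rw [nI_cjI h hP0, hP.norm]⟩, ?_, hP0⟩
  · have := hP.prime
    exact Ideal.IsPrime.comap _
  · unfold cjI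
    rw [Ideal.mem_comap, map_natCast]
    exact hP.mem
  · intro he
    have h1 := mul_cjI h hP0
    rw [← he, hP.norm, ← pow_two] at h1
    apply CtxX.not_sq hp hd (P := P) hP.norm
    rw [h1]
    exact Ideal.mem_span_singleton_self _

theorem red3 (h1 : S3_GD3) (h2 : S3_IN3) (h3 : S2_GR2) (h4 : S3_CH3) :
    ∀ (A B : ℤ), CaseP 3 A B → RingE A B → LatFacts A B → ∀ P : Ideal (OO A B), IsPN 3 P →
    ∀ V : ValuationSubring ℂ, OverI V P → RedE 3 P V := by
  intro A B hC hr hF P hP V hV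
  have h8 : (3 : ℤ) ∣ B ^ 2 + 4 * A - 1 := by
    rcases hC.split with ⟨-, h⟩ | ⟨h, -⟩
    · exact h
    · norm_num at h
  obtain ⟨hQ, hne, hP0⟩ := red_other (by norm_num) hC.toCQ hr (by exact_mod_cast h8) hP
  obtain ⟨o1, o2⟩ := red_over hr hV
  have hA : Above3 P V := by
    refine ⟨?_, o1, o2⟩
    have := o1 _ hP.mem
    obtain ⟨φ, hφ⟩ := hr.hom
    rw [← hφ, map_natCast] at this
    exact_mod_cast this
  have hgd := fun (b : Ideal (OO A B)) (L : PeriodPair) (om : ℂ) (hL : IsNL b L om) =>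
    h1 A B hC h8 hF P (cjI P) V hP hQ hne hA b L om hL
  have hgx : ∀ L, NL A B L → GX V L := by
    rintro L ⟨b, om, hL⟩
    obtain ⟨e1, e2, -⟩ := hgd b L om hL
    obtain ⟨ξ, hξ⟩ := h3 V L hL.nrm e1 e2
    exact gx_of_grg V L ξ hξ
  refine ⟨hgx, ?_, ?_, ?_, ?_, ?_⟩
  · rintro L ⟨b, om, hL⟩
    exact (hgd b L om hL).1.le
  · rintro L L' ⟨b, om, hL⟩ ⟨b', om', hL'⟩ h
    exact red_kap (h2 A B hC h8 hF P (cjI P) V hP hQ hne hA b b' L L' om om' hL hL' h)
  · rintro L L' mu ⟨b, om, hL⟩ ⟨b', om', hL'⟩ h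
    exact_mod_cast (hgd b L om hL).2.2.2.2.1 b' L' om' mu hL' h
  · rintro L ⟨b, om, hL⟩
    obtain ⟨h, y, N, mu, w, -, -, hN0, hN, hq, -⟩ := h4 A B hC h8 hF P hP b L om hL
    refine ⟨N 1, mu 0, hN 1, ?_⟩
    have := hq 0
    rwa [hN0] at this
  · rintro - L L' u u' ⟨b, om, hL⟩ ⟨b', om', hL'⟩ hu huL hu' huL'
    obtain ⟨-, e2, e3⟩ := (hgd b L om hL).2.2.1 u huL hu
    obtain ⟨-, -, f3⟩ := (hgd b' L' om' hL').2.2.1 u' huL' hu'
    have h31 : V.valuation 3 < 1 := hA.three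
    have h30 : V.valuation (3 : ℂ) ≠ 0 := (Valuation.ne_zero_iff _).2 (by norm_num)
    have hin : InEn V L u := by
      right
      intro hx
      have hx1 : V.valuation (xn L u) ≤ 1 := (ValuationSubring.valuation_le_one_iff _ _).2 hx
      have : V.valuation (xn L u) * V.valuation 3 < 1 :=
        lt_of_le_of_lt (mul_le_of_le_one_left' hx1) h31
      exact absurd e2 this.ne
    obtain ⟨g1, g2, g3⟩ := (hgx L ⟨b, om, hL⟩).par u hin huL
    -- `v(t)² = v 3`
    have ht : V.valuation (tE L u) ^ 2 = V.valuation 3 := by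
      have hx0 : V.valuation (xn L u) ≠ 0 := by
        intro h
        rw [h, zero_mul] at e2
        exact zero_ne_one e2
      exact mul_left_cancel₀ hx0 (g3.trans e2.symm)
    have e4 : 3 * (xn L u - xn L' u') = (3 * xn L u + 1) - (3 * xn L' u' + 1) := by ring
    rw [e4]
    refine (Valuation.map_sub _ _ _).trans (max_le (e3.trans ?_) (f3.trans ?_)) <;>
    · rw [← ht, ← pow_mul]
      calc V.valuation (tE L u) ^ (2 * 4) = V.valuation (tE L u) ^ 7 * V.valuation (tE L u) :=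
          pow_succ _ 7
        _ ≤ V.valuation (tE L u) := mul_le_of_le_one_left' (pow_le_one' g1.le _)

end

end Pool.Agent.MUXE
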