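import Pool.Agent.MUX.StR3
import Pool.Agent.MUX.R2_CH2

/-!
# MUX, block R3, module CH3: the chain of `P`-isogenies
-/

set_option autoImplicit false

namespace Pool.Agent.MUX3

open _root_.MU3 Pool.Agent.MU3A Pool.Agent.MU3B Pool.Agent.MUX Pool.Agent.MUXU Pool.Agent.MUX2
open WeierstrassCurve

noncomputable section

namespace CH3

open Pool.Agent.MUXF.AlgX
open Pool.Agent.MUX2.CH2 (cq nim idl)

variable {A B : ℤ}

lemma emb_three : emb (3 : OO A B) = 3 := by
  have h : (3 : OO A B) = ⟨3, 0⟩ := rfl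
  rw [h]; simp [emb]

lemma three_ne (hC : Pool.Agent.MUXF.CQ A B) : (3 : OO A B) ≠ 0 := by
  intro h
  have h1 := congrArg emb h
  rw [emb_three, emb_zero hC] at h1
  norm_num at h1

/-- `P * cjI P = (3)` -/
lemma pq (hC : Pool.Agent.MUXF.CQ A B) {P : Ideal (OO A B)} (hP : IsPN 3 P) :
    P ≠ ⊥ ∧ (3 : OO A B) ∈ P ∧ P * cjI P = sp 3 := by
  have h2 : (3 : OO A B) ∈ P := by simpa using hP.mem
  have h0 : P ≠ ⊥ := by
    rintro rfl
    exact three_ne hC (Ideal.mem_bot.1 h2)
  refine ⟨h0, h2, ?_⟩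
  have := (idl hC P h0).2
  rw [hP.norm] at this
  simpa using this

/-- `P + cjI P = O` -/
lemma cop (h : Pool.Agent.MUX.CQ A B) (h8 : (3 : ℤ) ∣ B ^ 2 + 4 * A - 1) {P : Ideal (OO A B)}
    (hP : IsPN 3 P) : ∃ p ∈ P, ∃ q ∈ cjI P, p + q = 1 := by
  have h2 : (3 : OO A B) ∈ P := by simpa using hP.mem
  rcases h.hB with h0 | h1
  · subst h0
    obtain ⟨a, ha⟩ : ∃ a, A = 3 * a + 1 := ⟨A / 3, by omega⟩
    have hw : (⟨-1, 1⟩ : OO A 0) * (⟨1, 1⟩ : OO A 0) ∈ P := by
      have e : (⟨-1, 1⟩ : OO A 0) * (⟨1, 1⟩ : OO A 0) = ⟨a, 0⟩ * 3 := by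
        have h2' : (3 : OO A 0) = ⟨3, 0⟩ := rfl
        rw [h2']
        ext
        · simp; omega
        · simp
      rw [e]
      exact P.mul_mem_left _ h2
    rcases hP.prime.mem_or_mem hw with h3 | h3
    · refine ⟨⟨2, 1⟩, ?_, ⟨-1, -1⟩, ?_, rfl⟩
      · have e : (⟨2, 1⟩ : OO A 0) = ⟨-1, 1⟩ + 3 := rfl
        rw [e]; exact P.add_mem h3 h2
      · unfold cjI
        rw [Ideal.mem_comap, starRingEnd_apply]
        have e : star (⟨-1, -1⟩ : OO A 0) = ⟨-1, 1⟩ := by ext <;> simp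
        rw [e]; exact h3
    · refine ⟨⟨2, -1⟩, ?_, ⟨-1, 1⟩, ?_, rfl⟩
      · have e : (⟨2, -1⟩ : OO A 0) = 3 - ⟨1, 1⟩ := rfl
        rw [e]; exact P.sub_mem h2 h3
      · unfold cjI
        rw [Ideal.mem_comap, starRingEnd_apply]
        have e : star (⟨-1, 1⟩ : OO A 0) = -⟨1, 1⟩ := by ext <;> simp
        rw [e]; exact P.neg_mem h3
  · subst h1
    obtain ⟨a, ha⟩ : ∃ a, A = 3 * a := ⟨A / 3, by omega⟩
    have hw : (⟨0, 1⟩ : OO A 1) * (⟨-1, 1⟩ : OO A 1) ∈ P := by
      have e : (⟨0, 1⟩ : OO A 1) * (⟨-1, 1⟩ : OO A 1) = ⟨a, 0⟩ * 3 := by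
        have h2' : (3 : OO A 1) = ⟨3, 0⟩ := rfl
        rw [h2']
        ext
        · simp; omega
        · simp
      rw [e]
      exact P.mul_mem_left _ h2
    rcases hP.prime.mem_or_mem hw with h3 | h3
    · refine ⟨⟨0, 1⟩, h3, ⟨1, -1⟩, ?_, ?_⟩
      · unfold cjI
        rw [Ideal.mem_comap, starRingEnd_apply]
        have e : star (⟨1, -1⟩ : OO A 1) = ⟨0, 1⟩ := by ext <;> simp
        rw [e]; exact h3
      · rfl
    · refine ⟨⟨1, -1⟩, ?_, ⟨0, 1⟩, ?_, ?_⟩
      · have e : (⟨1, -1⟩ : OO A 1) = -⟨-1, 1⟩ := by ext <;> simp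
        rw [e]; exact P.neg_mem h3
      · unfold cjI
        rw [Ideal.mem_comap, starRingEnd_apply]
        have e : star (⟨0, 1⟩ : OO A 1) = -⟨-1, 1⟩ := by ext <;> simp
        rw [e]; exact P.neg_mem h3
      · rfl

/-- `c / P c` has three elements -/
lemma idx (hC : Pool.Agent.MUXF.CQ A B) {P c : Ideal (OO A B)} (hP0 : P ≠ ⊥)
    (h2 : (3 : OO A B) ∈ P) (hn : nI P = 3) (hc : c ≠ ⊥) :
    ∃ a ∈ c, a ∉ P * c ∧ ∀ y ∈ c, y ∈ P * c ∨ y - a ∈ P * c ∨ y + a ∈ P * c := by
  have h1 := ((nim hC).1 P c hP0 hc).1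
  have h3 := (idl hC c hc).1
  have hle0 : P * c ≤ c := Ideal.mul_le_right
  have hle : (P * c).toAddSubgroup ≤ c.toAddSubgroup := Submodule.toAddSubgroup_mono hle0
  have h4 := AddSubgroup.relIndex_mul_index hle
  have hgen : ∀ I : Ideal (OO A B), I.toAddSubgroup.index = nI I := fun I =>
    Submodule.cardQuot_apply I
  rw [hgen, hgen, h1, hn] at h4
  have h7 : (P * c).toAddSubgroup.relIndex c.toAddSubgroup = 3 :=
    Nat.eq_of_mul_eq_mul_right (Nat.pos_of_ne_zero h3) h4
  obtain ⟨S, hS⟩ : ∃ S : AddSubgroup c.toAddSubgroup,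
      S = (P * c).toAddSubgroup.addSubgroupOf c.toAddSubgroup := ⟨_, rfl⟩
  have hcard : Nat.card (c.toAddSubgroup ⧸ S) = 3 := by rw [hS]; exact h7
  have hmemS : ∀ y : c.toAddSubgroup, y ∈ S ↔ (y : OO A B) ∈ P * c := by
    intro y; rw [hS, AddSubgroup.mem_addSubgroupOf]; rfl
  have hfact : Fact (Nat.Prime 3) := ⟨by norm_num⟩
  obtain ⟨a, ha⟩ : ∃ a : c.toAddSubgroup, a ∉ S := by
    by_contra hcon
    push Not at hcon
    have h8 : S = ⊤ := (AddSubgroup.eq_top_iff' S).2 hcon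
    have h9 : S.index = 3 := hcard
    rw [h8, AddSubgroup.index_top] at h9
    omega
  have hane : (a : c.toAddSubgroup ⧸ S) ≠ 0 := by
    intro h; exact ha ((QuotientAddGroup.eq_zero_iff a).1 h)
  refine ⟨a, a.2, fun h => ha ((hmemS a).2 h), fun y hy => ?_⟩
  have h9 : (((⟨y, hy⟩ : c.toAddSubgroup) : c.toAddSubgroup ⧸ S)) ∈
      AddSubgroup.zmultiples (a : c.toAddSubgroup ⧸ S) :=
    mem_zmultiples_of_prime_card hcard hane
  obtain ⟨n, hn'⟩ := AddSubgroup.mem_zmultiples_iff.1 h9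
  have h10 : (⟨y, hy⟩ : c.toAddSubgroup) - n • a ∈ S := by
    rw [← QuotientAddGroup.eq_zero_iff]
    rw [QuotientAddGroup.mk_sub, QuotientAddGroup.mk_zsmul, hn', sub_self]
  have h11 : y - n * a ∈ P * c := by
    have := (hmemS _).1 h10
    simpa [zsmul_eq_mul] using this
  have h3a : ∀ k : ℤ, (3 : OO A B) * (k * a) ∈ P * c := fun k =>
    Ideal.mul_mem_mul h2 (c.mul_mem_left _ a.2)
  have hcase : n % 3 = 0 ∨ n % 3 = 1 ∨ n % 3 = 2 := by omega
  rcases hcase with h | h | h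
  · left
    obtain ⟨k, hk⟩ : ∃ k, n = 3 * k := ⟨n / 3, by omega⟩
    have e : y = (y - n * a) + 3 * (k * a) := by rw [hk]; push_cast; ring
    rw [e]; exact (P * c).add_mem h11 (h3a k)
  · right; left
    obtain ⟨k, hk⟩ : ∃ k, n = 3 * k + 1 := ⟨n / 3, by omega⟩
    have e : y - a = (y - n * a) + 3 * (k * a) := by rw [hk]; push_cast; ring
    rw [e]; exact (P * c).add_mem h11 (h3a k)
  · right; right
    obtain ⟨k, hk⟩ : ∃ k, n = 3 * k - 1 := ⟨(n + 1) / 3, by omega⟩
    have e : y + a = (y - n * a) + 3 * (k * a) := by rw [hk]; push_cast; ring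
    rw [e]; exact (P * c).add_mem h11 (h3a k)

/-- the isogeny with the kernel `P⁻¹ c / c` -/
lemma isq (hC : Pool.Agent.MUXF.CQ A B) {P Q c : Ideal (OO A B)} (hP0 : P ≠ ⊥)
    (h2 : (3 : OO A B) ∈ P) (hPQ : P * Q = sp 3) {L M : PeriodPair} {om om' : ℂ}
    (hL : IsNL c L om) (hM : IsNL (Q * c) M om') : IsQ P L M (3 * om' / om) := by
  have hom := hL.om_ne
  have hom' := hM.om_ne
  refine ⟨div_ne_zero (mul_ne_zero three_ne_zero hom') hom, fun z => ⟨fun hz x hx => ?_, fun hz => ?_⟩⟩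
  · obtain ⟨y, hy, e⟩ := (hM.mem _).1 hz
    have e2 : 3 * z = om * emb y := by
      field_simp at e
      linear_combination e
    have hxy : x * y ∈ sp 3 * c := by
      rw [← hPQ, mul_assoc]; exact Ideal.mul_mem_mul hx hy
    obtain ⟨t, ht, e3⟩ := Ideal.mem_span_singleton_mul.1 hxy
    refine (hL.mem _).2 ⟨t, ht, ?_⟩
    have e4 := congrArg emb e3
    rw [emb_mul hC, emb_mul hC, emb_three] at e4
    linear_combination (emb x / 3) * e2 - (om / 3) * e4
  · obtain ⟨y, hy, e⟩ := (hL.mem _).1 (hz 3 h2)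
    rw [emb_three] at e
    have hy' : sp y ≤ Q * c := by
      rw [← (nim hC).2.2.2 P _ _ hP0, Ideal.mul_le]
      intro x hx s hs
      obtain ⟨r, rfl⟩ := Ideal.mem_span_singleton'.1 hs
      obtain ⟨t, ht, ex⟩ := (hL.mem _).1 (hz x hx)
      have e5 : x * y = 3 * t := by
        apply emb_inj hC
        rw [emb_mul hC, emb_mul hC, emb_three]
        apply mul_left_cancel₀ hom
        linear_combination 3 * ex - emb x * e
      have e6 : x * (r * y) = 3 * (r * t) := by linear_combination r * e5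
      rw [e6, ← mul_assoc, hPQ]
      exact Ideal.mul_mem_mul (Ideal.mem_span_singleton_self _) (c.mul_mem_left _ ht)
    refine (hM.mem _).2 ⟨y, hy' (Ideal.mem_span_singleton_self _), ?_⟩
    field_simp
    linear_combination e

/-- the point of order `P` -/
lemma three (hC : Pool.Agent.MUXF.CQ A B) {P Q c : Ideal (OO A B)} (hP0 : P ≠ ⊥)
    (h2 : (3 : OO A B) ∈ P) (hPQ : P * Q = sp 3) {L M : PeriodPair} {om om' : ℂ}
    (hL : IsNL c L om) (hM : IsNL (Q * c) M om') {a : OO A B} (ha : a ∈ Q * c)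
    (ha' : a ∉ P * (Q * c))
    (hy : ∀ y ∈ Q * c, y ∈ P * (Q * c) ∨ y - a ∈ P * (Q * c) ∨ y + a ∈ P * (Q * c)) :
    Three L M (3 * om' / om) (om * emb a / 3) := by
  have hom := hL.om_ne
  have hom' := hM.om_ne
  obtain ⟨hne, hI⟩ := isq hC hP0 h2 hPQ hL hM
  have key : ∀ y : OO A B, y ∈ P * (Q * c) ↔ om * emb y / 3 ∈ L.lattice := by
    intro y
    rw [← mul_assoc, hPQ, Ideal.mem_span_singleton_mul, hL.mem]
    constructor
    · rintro ⟨t, ht, rfl⟩
      exact ⟨t, ht, by rw [emb_mul hC, emb_three]; ring⟩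
    · rintro ⟨t, ht, e⟩
      refine ⟨t, ht, emb_inj hC ?_⟩
      rw [emb_mul hC, emb_three]
      apply mul_left_cancel₀ hom
      linear_combination -3 * e
  have hw : 3 * om' / om * (om * emb a / 3) ∈ M.lattice :=
    (hM.mem _).2 ⟨a, ha, by field_simp⟩
  refine ⟨hne, fun h => ha' ((key a).2 h), ?_, fun z => ⟨fun hz => ?_, ?_⟩⟩
  · have := (hI _).1 hw 3 h2
    rwa [emb_three] at this
  · obtain ⟨y, hyc, e⟩ := (hM.mem _).1 hz
    have e2 : z = om * emb y / 3 := by
      field_simp at e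
      linear_combination e / 3
    have e3 : emb (y - a) = emb y - emb a := by
      have := emb_add hC (y - a) a
      rw [sub_add_cancel] at this
      linear_combination -this
    rcases hy y hyc with h | h | h
    · left; rw [e2]; exact (key y).1 h
    · right; left
      have := (key _).1 h
      rw [e3] at this
      convert this using 1
      rw [e2]; ring
    · right; right
      have := (key _).1 h
      rw [emb_add hC] at this
      convert this using 1
      rw [e2]; ring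
  · have h5 : ∀ z ∈ L.lattice, 3 * om' / om * z ∈ M.lattice := by
      intro z hz
      refine (hI z).2 fun x hx => ?_
      obtain ⟨y, hyc, rfl⟩ := (hL.mem _).1 hz
      exact (hL.mem _).2 ⟨x * y, c.mul_mem_left _ hyc, by rw [emb_mul hC]; ring⟩
    rintro (hz | hz | hz)
    · exact h5 z hz
    · have := add_mem (h5 _ hz) hw
      convert this using 1
      ring
    · have := sub_mem (h5 _ hz) hw
      convert this using 1
      ring

/-- `par3` depends only on the lattice and on `± u` modulo the lattice -/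
lemma par_congr {L M : PeriodPair} (h : L.lattice = M.lattice) {w v : ℂ}
    (hv : w - v ∈ L.lattice ∨ w + v ∈ L.lattice) : par3 L w = par3 M v := by
  have h1 : L.weierstrassP = M.weierstrassP := by
    unfold PeriodPair.weierstrassP
    rw [h]
  have hg : L.g₂ = M.g₂ := by
    unfold PeriodPair.g₂ PeriodPair.G
    rw [h]
  have h2 : L.weierstrassP w = L.weierstrassP v := by
    rcases hv with hv | hv
    · have := L.weierstrassP_add_coe v ⟨w - v, hv⟩
      simpa using this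
    · have := L.weierstrassP_add_coe (-v) ⟨w + v, hv⟩
      rw [L.weierstrassP_neg] at this
      simpa using this
  have hk : kap L = kap M := by unfold kap; rw [hg]
  unfold par3 xn
  rw [h2, h1, hk]

end CH3

open CH3 Pool.Agent.MUXF.AlgX in
open Pool.Agent.MUX2.CH2 (cq nim idl) in
theorem t3_CH3 (h2 : S3_DUA) (h3 : S3_JEQ) (h4 : S3_PAR) : S3_CH3 := by
  intro A B hP3 h8 hF P hP b L om hL
  have hC := cq hP3.toCQ
  obtain ⟨hP0, h3P, hPQ⟩ := CH3.pq hC hP
  have hN := nim hC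
  set Q := cjI P with hQ
  have hQ0 : Q ≠ ⊥ := (hN.2.2.1 P hP0).2.2.1
  have hnQ : nI Q = 3 := (hN.2.2.1 P hP0).1.trans hP.norm
  have hcQ : cjI Q = P := (hN.2.2.1 P hP0).2.1
  have h3Q : (3 : OO A B) ∈ Q := by
    have := (hN.2.2.1 Q hQ0).2.2.2
    rw [hnQ] at this
    simpa using this
  obtain ⟨p, hp, q, hq, hpq⟩ := CH3.cop hP3.toCQ h8 hP
  -- the ideals
  let c : ℕ → Ideal (OO A B) := fun i => Q ^ i * b
  have hc0 : c 0 = b := by simp [c]
  have hcs : ∀ i, c (i + 1) = Q * c i := by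
    intro i; simp only [c]; rw [pow_succ' Q i, mul_assoc]
  have hcne : ∀ i, c i ≠ ⊥ := by
    intro i
    induction i with
    | zero => rw [hc0]; exact hL.b_ne
    | succ i ih => rw [hcs]; exact (hN.1 Q _ hQ0 ih).2
  -- the lattices
  have hex : ∀ i, ∃ (p : PeriodPair × ℂ), IsNL (c i) p.1 p.2 ∧ (i = 0 → p = (L, om)) := by
    intro i
    rcases Nat.eq_zero_or_pos i with rfl | hi
    · exact ⟨(L, om), by rw [hc0]; exact hL, fun _ => rfl⟩
    · obtain ⟨M, o, h⟩ := hF.ex (c i) (hcne i)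
      exact ⟨(M, o), h, fun h0 => absurd h0 hi.ne'⟩
  choose F hF1 hF2 using hex
  let N : ℕ → PeriodPair := fun i => (F i).1
  let o : ℕ → ℂ := fun i => (F i).2
  have hNL : ∀ i, IsNL (c i) (N i) (o i) := hF1
  have hNL' : ∀ i, IsNL (Q * c i) (N (i + 1)) (o (i + 1)) := by
    intro i; rw [← hcs]; exact hNL _
  have ho : ∀ i, o i ≠ 0 := fun i => (hNL i).om_ne
  have hidx := fun i => CH3.idx hC hP0 h3P hP.norm (hcne (i + 1))
  choose a ha1 ha2 ha3 using hidx
  simp only [hcs] at ha1 ha2 ha3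
  let mu : ℕ → ℂ := fun i => 3 * o (i + 1) / o i
  let w : ℕ → ℂ := fun i => o i * emb (a i) / 3
  have hQi : ∀ i, IsQ P (N i) (N (i + 1)) (mu i) := fun i =>
    CH3.isq hC hP0 h3P hPQ (hNL i) (hNL' i)
  have hTw : ∀ i, Three (N i) (N (i + 1)) (mu i) (w i) := fun i =>
    three hC hP0 h3P hPQ (hNL i) (hNL' i) (ha1 i) (ha2 i) (ha3 i)
  have hTor : ∀ i, Tor P (N i) (w i) := by
    intro i
    exact ((hQi i).2 _).1 (((hTw i).ker _).2 (Or.inr (Or.inl (by rw [sub_self]; exact zero_mem _))))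
  obtain ⟨h, x, hh, hx0, hx⟩ := hF.fin Q hQ0
  have hcper : ∀ i, c (i + h) = sp x * c i := by
    intro i; simp only [c]; rw [pow_add, hx]; ring
  have heq : ∀ i, (N (i + h)).lattice = (N i).lattice ∧
      (o i = o (i + h) * emb x ∨ o i = -(o (i + h) * emb x)) := by
    intro i
    have h5 := hF.eq (c (i + h)) (c i) (N (i + h)) (N i) (o (i + h)) (o i) 1 x (hNL _) (hNL _)
      one_ne_zero hx0 (by rw [hcper]; simp [sp])
    have e1 : emb (1 : OO A B) = 1 := by
      have := emb_intCast hC 1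
      simpa using this
    rw [e1, mul_one] at h5
    exact h5
  have e1 : emb (1 : OO A B) = 1 := by
    have := emb_intCast hC 1
    simpa using this
  have hrec : Rec3 (fun i => par3 (N i) (w i)) := by
    intro i
    obtain ⟨hs0, -⟩ := h4 _ _ (hTw i).u_ne (hTw i).u3 (hNL i).nrm
    -- a point of order `Q` of `N i`
    obtain ⟨a', ha1', ha2', -⟩ := CH3.idx hC hQ0 h3Q hnQ
      (show P * c i ≠ ⊥ from (hN.1 P _ hP0 (hcne i)).2)
    have hQP : Q * P = sp 3 := by rw [mul_comm]; exact hPQ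
    have key : ∀ y : OO A B, y ∈ Q * (P * c i) ↔ o i * emb y / 3 ∈ (N i).lattice := by
      intro y
      rw [← mul_assoc, hQP, Ideal.mem_span_singleton_mul, (hNL i).mem]
      constructor
      · rintro ⟨t, ht, rfl⟩
        exact ⟨t, ht, by rw [emb_mul hC, emb_three]; ring⟩
      · rintro ⟨t, ht, e⟩
        refine ⟨t, ht, emb_inj hC ?_⟩
        rw [emb_mul hC, emb_three]
        apply mul_left_cancel₀ (ho i)
        linear_combination -3 * e
    set w' : ℂ := o i * emb a' / 3 with hw'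
    have k1 : w' ∉ (N i).lattice := fun h => ha2' ((key a').2 h)
    have k2 : ∀ x ∈ Q, emb x * w' ∈ (N i).lattice := by
      intro x hx
      have h5 := (key (x * a')).1 (Ideal.mul_mem_mul hx ha1')
      rw [emb_mul hC] at h5
      convert h5 using 1
      rw [hw']; ring
    have k3 : 3 * w' ∈ (N i).lattice := by
      have := k2 3 h3Q
      rwa [emb_three] at this
    -- a point killed by `P` and by `Q` is zero
    have kPQ : ∀ (j : ℕ) (v : ℂ), (∀ x ∈ P, emb x * v ∈ (N j).lattice) →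
        emb q * v ∈ (N j).lattice → v ∈ (N j).lattice := by
      intro j v hv1 hv2
      have h9 := add_mem (hv1 p hp) hv2
      rw [← add_mul, ← emb_add hC, hpq] at h9
      rwa [e1, one_mul] at h9
    have kmul : ∀ (j : ℕ) (x : OO A B) (v : ℂ), v ∈ (N j).lattice → emb x * v ∈ (N j).lattice := by
      intro j x v hv
      obtain ⟨y, hy, e⟩ := ((hNL j).mem _).1 hv
      exact ((hNL j).mem _).2 ⟨x * y, (c j).mul_mem_left _ hy, by rw [e, emb_mul hC]; ring⟩
    have k4 : w' - w i ∉ (N i).lattice := by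
      intro h5
      apply k1
      refine kPQ i w' (fun x hx => ?_) (k2 q hq)
      have h8 := add_mem (kmul i x _ h5) (hTor i x hx)
      convert h8 using 1
      ring
    have k4' : w' + w i ∉ (N i).lattice := by
      intro h5
      apply k1
      refine kPQ i w' (fun x hx => ?_) (k2 q hq)
      have h8 := sub_mem (kmul i x _ h5) (hTor i x hx)
      convert h8 using 1
      ring
    obtain ⟨hD, hpar⟩ := h2 _ _ _ _ w' (hTw i) (hNL i).nrm (hNL (i + 1)).nrm k1 k3 k4 k4'
    have hqm : emb q * (mu i * w') ∈ (N (i + 1)).lattice := by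
      have h6 : mu i * (emb q * w') ∈ (N (i + 1)).lattice :=
        ((hTw i).ker _).2 (Or.inl (k2 q hq))
      convert h6 using 1
      ring
    have k5 : mu i * w' - w (i + 1) ∉ (N (i + 1)).lattice := by
      intro h5
      apply hD.u_ne
      refine kPQ (i + 1) _ (fun x hx => ?_) hqm
      have h8 := add_mem (kmul (i + 1) x _ h5) (hTor (i + 1) x hx)
      convert h8 using 1
      ring
    have k5' : mu i * w' + w (i + 1) ∉ (N (i + 1)).lattice := by
      intro h5
      apply hD.u_ne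
      refine kPQ (i + 1) _ (fun x hx => ?_) hqm
      have h8 := sub_mem (kmul (i + 1) x _ h5) (hTor (i + 1) x hx)
      convert h8 using 1
      ring
    have hJ := h3 (N (i + 1)) (w (i + 1)) (mu i * w') (hTw (i + 1)).u_ne (hTw (i + 1)).u3
      hD.u_ne hD.u3 k5 k5' (hNL (i + 1)).nrm
    rw [hpar] at hJ
    refine ⟨hs0, ?_⟩
    show par3 (N (i + 1)) (w (i + 1)) ^ 3 +
      (36 + 729 / par3 (N i) (w i)) * par3 (N (i + 1)) (w (i + 1)) ^ 2 +
      ((729 / par3 (N i) (w i)) ^ 2 + 36 * (729 / par3 (N i) (w i)) + 270) *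
        par3 (N (i + 1)) (w (i + 1)) = par3 (N i) (w i)
    obtain ⟨T, hT⟩ : ∃ T, T = 729 / par3 (N i) (w i) := ⟨_, rfl⟩
    rw [← hT] at hJ ⊢
    have hT0 : T ≠ 0 := by rw [hT]; exact div_ne_zero (by norm_num) hs0
    have hTs : T * par3 (N i) (w i) = 729 := by rw [hT]; exact div_mul_cancel₀ _ hs0
    apply mul_left_cancel₀ hT0
    linear_combination hJ - hTs
  have hxx : nm x = 3 ^ h := by
    have hpow : ∀ n, nI (Q ^ (n + 1)) = 3 ^ (n + 1) ∧ Q ^ (n + 1) ≠ ⊥ := by
      intro n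
      induction n with
      | zero => rw [zero_add, pow_one, pow_one]; exact ⟨hnQ, hQ0⟩
      | succ n ih =>
        have h5 := hN.1 (Q ^ (n + 1)) Q ih.2 hQ0
        rw [← pow_succ] at h5
        refine ⟨?_, h5.2⟩
        rw [h5.1, ih.1, hnQ]
        exact (pow_succ 3 (n + 1)).symm
    obtain ⟨n, rfl⟩ : ∃ n, h = n + 1 := ⟨h - 1, by omega⟩
    have h5 := (hpow n).1
    rw [hx] at h5
    have h6 := (hN.2.1 x).resolve_right hx0
    rw [h5] at h6
    have h7 := nm_nonneg hC x
    have h8 : ((3 ^ (n + 1) : ℕ) : ℤ) = nm x := by rw [h6]; omega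
    rw [← h8]; push_cast; rfl
  have hemb : emb x * emb (star x) = 3 ^ h := by
    rw [← emb_mul hC, mul_star', hxx, emb_intCast hC]
    push_cast; rfl
  have hex0 : emb x ≠ 0 := fun h0 => hx0 ((emb_eq_zero hC x).1 h0)
  refine ⟨h, star x, N, mu, w, hh, ?_, ?_, fun i => ⟨c i, o i, hNL i⟩, hQi, hTw, hTor,
    fun i => (heq i).1, hrec, fun i => ?_, ?_⟩
  · -- `P ^ h = (star x)`
    have e : ∀ n : ℕ, cjI (Q ^ n) = P ^ n := by
      intro n
      induction n with
      | zero =>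
        rw [pow_zero, pow_zero]
        unfold cjI
        rw [Ideal.one_eq_top, Ideal.comap_top]
      | succ n ih =>
        rw [pow_succ, pow_succ]
        have h5 : cjI (Q ^ n * Q) = cjI (Q ^ n) * cjI Q := Pool.Agent.MUXF.NimX.cjI_mul _ _
        rw [h5, ih, hcQ]
    rw [← e h, hx]
    exact Pool.Agent.MUXF.NimX.cjI_sp x
  · show (F 0).1 = L
    rw [hF2 0 rfl]
  · have hl := (heq i).1
    apply CH3.par_congr hl
    rw [hl]
    have h5 : mu i * w (i + h) ∈ (N (i + 1)).lattice := by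
      refine ((hQi i).2 _).2 fun x hx => ?_
      rw [← hl]
      exact hTor (i + h) x hx
    rcases ((hTw i).ker _).1 h5 with h6 | h6
    · rw [← hl] at h6
      exact absurd h6 (hTw (i + h)).u_ne
    · exact h6
  · have hprod : ∀ n : ℕ, ∏ i ∈ Finset.range n, mu i = 3 ^ n * o n / o 0 := by
      intro n
      induction n with
      | zero => simp [div_self (ho 0)]
      | succ n ih =>
        rw [Finset.prod_range_succ, ih]
        have h5 := ho n
        have h6 := ho 0
        simp only [mu]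
        rw [pow_succ]
        field_simp
    rw [hprod h]
    have h5 := (heq 0).2
    rw [zero_add] at h5
    have h6 := ho h
    have h7 := ho 0
    rcases h5 with h5 | h5
    · left
      rw [← hemb, h5]
      field_simp
    · right
      rw [← hemb, h5]
      field_simp

end

end Pool.Agent.MUX3
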