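import Pool.Agent.MUX.StR3

/-!
# MUX, block R3: CHN, periodic chains: valuations (helper95)
-/

set_option autoImplicit false

namespace Pool.Agent.MUX3

open _root_.MU3 Pool.Agent.MU3A Pool.Agent.MU3B Pool.Agent.MUX Pool.Agent.MUXU Pool.Agent.MUX2
open WeierstrassCurve

noncomputable section

namespace ChnV

variable {V : ValuationSubring ℂ}

theorem int_le (n : ℤ) : V.valuation (n : ℂ) ≤ 1 := by
  rw [ValuationSubring.valuation_le_one_iff]
  exact intCast_mem V n

theorem v36 : V.valuation (36 : ℂ) ≤ V.valuation 3 ^ 2 := by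
  have h := int_le (V := V) 4
  have e : (36 : ℂ) = 3 ^ 2 * ((4 : ℤ) : ℂ) := by norm_num
  rw [e, map_mul, map_pow]
  exact mul_le_of_le_one_right' h

theorem v270 : V.valuation (270 : ℂ) ≤ V.valuation 3 ^ 3 := by
  have h := int_le (V := V) 10
  have e : (270 : ℂ) = 3 ^ 3 * ((10 : ℤ) : ℂ) := by norm_num
  rw [e, map_mul, map_pow]
  exact mul_le_of_le_one_right' h

theorem v729 : V.valuation (729 : ℂ) = V.valuation 3 ^ 6 := by
  have e : (729 : ℂ) = 3 ^ 6 := by norm_num
  rw [e, map_pow]

/-- one step -/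
theorem step (hv : V.valuation (3 : ℂ) < 1) {r S X : ℂ} (hrS : r * S = 729) (hX : X ≠ 0)
    (h : X ^ 3 + (36 + r) * X ^ 2 + (r ^ 2 + 36 * r + 270) * X = S)
    (hS : V.valuation 3 ^ 4 ≤ V.valuation S) :
    V.valuation X ^ 3 = V.valuation S ∧ V.valuation 3 ^ 4 ≤ V.valuation X := by
  set t := V.valuation (3 : ℂ) with ht
  have ht0 : 0 < t := by
    rw [ht, zero_lt_iff, Valuation.ne_zero_iff]
    norm_num
  have hb0 : 0 < V.valuation X := by
    rw [zero_lt_iff, Valuation.ne_zero_iff]
    exact hX
  set b := V.valuation X with hb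
  have htp : ∀ {i j : ℕ}, i ≤ j → t ^ j ≤ t ^ i := fun hij =>
    pow_le_pow_of_le_one zero_le hv.le hij
  have hts : ∀ {i j : ℕ}, i < j → t ^ j < t ^ i := fun hij =>
    pow_lt_pow_right_of_lt_one₀ ht0 hv hij
  have hr : V.valuation r ≤ t ^ 2 := by
    have h1 : V.valuation r * V.valuation S = t ^ 6 := by
      rw [← map_mul, hrS, v729]
    have h2 : V.valuation r * t ^ 4 ≤ t ^ 2 * t ^ 4 := by
      calc V.valuation r * t ^ 4 ≤ V.valuation r * V.valuation S := by gcongr
        _ = t ^ 2 * t ^ 4 := by rw [h1, ← pow_add]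
    exact le_of_mul_le_mul_right h2 (pow_pos ht0 4)
  have h36 : V.valuation (36 + r) ≤ t ^ 2 := Valuation.map_add_le _ v36 hr
  have h270 : V.valuation (r ^ 2 + 36 * r + 270) ≤ t ^ 3 := by
    apply Valuation.map_add_le _ _ v270
    apply Valuation.map_add_le
    · rw [map_pow]
      calc V.valuation r ^ 2 ≤ (t ^ 2) ^ 2 := by gcongr
        _ = t ^ 4 := by rw [← pow_mul]
        _ ≤ t ^ 3 := htp (by norm_num)
    · rw [map_mul]
      calc V.valuation 36 * V.valuation r ≤ t ^ 2 * t ^ 2 := by
            gcongr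
            exact v36
        _ = t ^ 4 := by rw [← pow_add]
        _ ≤ t ^ 3 := htp (by norm_num)
  have hfirst : V.valuation X ^ 3 = V.valuation S := by
    by_contra hne
    have hne' : V.valuation (X ^ 3) ≠ V.valuation S := by rwa [map_pow]
    have hmax : V.valuation (X ^ 3 - S) = max (V.valuation (X ^ 3)) (V.valuation S) := by
      have h1 : V.valuation (X ^ 3) ≠ V.valuation (-S) := by rwa [Valuation.map_neg]
      have h2 := Valuation.map_add_of_distinct_val V.valuation h1
      rwa [← sub_eq_add_neg, Valuation.map_neg] at h2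
    have hle : V.valuation (X ^ 3 - S) ≤ max (t ^ 2 * b ^ 2) (t ^ 3 * b) := by
      have e : X ^ 3 - S = -((36 + r) * X ^ 2 + (r ^ 2 + 36 * r + 270) * X) := by
        linear_combination h
      rw [e, Valuation.map_neg]
      apply (Valuation.map_add _ _ _).trans
      apply max_le_max
      · rw [map_mul, map_pow]
        gcongr
      · rw [map_mul]
        gcongr
    rw [hmax, map_pow] at hle
    have h3 : b ^ 3 ≤ max (t ^ 2 * b ^ 2) (t ^ 3 * b) := (le_max_left _ _).trans hle
    have h4 : V.valuation S ≤ max (t ^ 2 * b ^ 2) (t ^ 3 * b) := (le_max_right _ _).trans hle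
    rcases le_total (t ^ 3 * b) (t ^ 2 * b ^ 2) with hc | hc
    · rw [max_eq_left hc] at h3 h4
      have h5 : b ≤ t ^ 2 := by
        have : b * b ^ 2 ≤ t ^ 2 * b ^ 2 := by
          calc b * b ^ 2 = b ^ 3 := by rw [← pow_succ']
            _ ≤ _ := h3
        exact le_of_mul_le_mul_right this (pow_pos hb0 2)
      have h6 : V.valuation S ≤ t ^ 6 := by
        calc V.valuation S ≤ t ^ 2 * b ^ 2 := h4
          _ ≤ t ^ 2 * (t ^ 2) ^ 2 := by gcongr
          _ = t ^ 6 := by rw [← pow_mul, ← pow_add]
      exact absurd (hS.trans h6) (not_le.2 (hts (by norm_num)))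
    · rw [max_eq_right hc] at h3 h4
      have h5 : b ^ 2 ≤ t ^ 3 := by
        have : b ^ 2 * b ≤ t ^ 3 * b := by
          calc b ^ 2 * b = b ^ 3 := by rw [← pow_succ]
            _ ≤ _ := h3
        exact le_of_mul_le_mul_right this hb0
      have h6 : V.valuation S ^ 2 ≤ t ^ 9 := by
        calc V.valuation S ^ 2 ≤ (t ^ 3 * b) ^ 2 := by gcongr
          _ = t ^ 6 * b ^ 2 := by rw [mul_pow, ← pow_mul]
          _ ≤ t ^ 6 * t ^ 3 := by gcongr
          _ = t ^ 9 := by rw [← pow_add]
      have h7 : t ^ 8 ≤ V.valuation S ^ 2 := by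
        calc t ^ 8 = (t ^ 4) ^ 2 := by rw [← pow_mul]
          _ ≤ V.valuation S ^ 2 := by gcongr
      exact absurd (h7.trans h6) (not_le.2 (hts (by norm_num)))
  refine ⟨hfirst, ?_⟩
  by_contra hlt
  rw [not_le] at hlt
  have h8 : b ^ 3 < t ^ 4 := by
    calc b ^ 3 < (t ^ 4) ^ 3 := by
          apply pow_lt_pow_left₀ hlt zero_le (by norm_num)
      _ = t ^ 12 := by rw [← pow_mul]
      _ ≤ t ^ 4 := htp (by norm_num)
  rw [hfirst] at h8
  exact absurd hS (not_le.2 h8)

end ChnV

open ChnV in
theorem t3_CHN : S3_CHN := by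
  intro V s h hv hrec hh hper
  set t := V.valuation (3 : ℂ) with ht
  have ht0 : 0 < t := by
    rw [ht, zero_lt_iff, Valuation.ne_zero_iff]
    norm_num
  have hs0 : ∀ i, 0 < V.valuation (s i) := fun i => by
    rw [zero_lt_iff, Valuation.ne_zero_iff]
    exact (hrec i).1
  have hper' : ∀ i k, s (i + h * k) = s i := by
    intro i k
    induction k with
    | zero => simp
    | succ k ih =>
      have : i + h * (k + 1) = (i + h * k) + h := by ring
      rw [this, hper, ih]
  have h3h : 3 ^ h ≠ 1 := by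
    have := Nat.one_lt_pow (by omega : h ≠ 0) (by norm_num : 1 < 3)
    omega
  -- an element with `x ^ (3 ^ h) = x` is `1`
  have hone : ∀ x : V.ValueGroup, 0 < x → x ^ 3 ^ h = x → x = 1 := by
    intro x hx hxx
    have hx0 : x ≠ 0 := hx.ne'
    obtain ⟨k, hk⟩ : ∃ k, 3 ^ h = k + 1 := ⟨3 ^ h - 1, by
      have := Nat.one_le_pow h 3 (by norm_num)
      omega⟩
    have hk0 : k ≠ 0 := by
      rintro rfl
      exact h3h (by simpa using hk)
    rw [hk, pow_succ] at hxx
    have h1 : x ^ k = 1 := by
      have h2 : x ^ k * x = 1 * x := by rw [hxx, one_mul]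
      exact mul_right_cancel₀ hx0 h2
    exact (pow_eq_one_iff_of_nonneg zero_le hk0).1 h1
  by_cases hcase : ∃ i, t ^ 4 ≤ V.valuation (s i)
  · left
    obtain ⟨i₀, hi₀⟩ := hcase
    have hstep : ∀ i, t ^ 4 ≤ V.valuation (s i) → V.valuation (s (i + 1)) ^ 3 = V.valuation (s i) ∧
        t ^ 4 ≤ V.valuation (s (i + 1)) := by
      intro i hi
      obtain ⟨hne, he⟩ := hrec i
      exact step hv (r := 729 / s i) (div_mul_cancel₀ _ hne) (hrec (i + 1)).1 he hi
    have hge : ∀ k, t ^ 4 ≤ V.valuation (s (i₀ + k)) := by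
      intro k
      induction k with
      | zero => simpa using hi₀
      | succ k ih => exact (hstep _ ih).2
    have hall : ∀ j, t ^ 4 ≤ V.valuation (s j) := by
      intro j
      rw [← hper' j i₀]
      have h1 : i₀ ≤ j + h * i₀ := by nlinarith
      obtain ⟨k, hk⟩ := Nat.exists_eq_add_of_le h1
      rw [hk]
      exact hge k
    intro j
    have hpow : ∀ k, V.valuation (s (j + k)) ^ 3 ^ k = V.valuation (s j) := by
      intro k
      induction k with
      | zero => simp
      | succ k ih =>
        rw [← ih, pow_succ', pow_mul]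
        congr 1
        exact (hstep _ (hall (j + k))).1
    have h1 := hpow h
    rw [hper] at h1
    exact hone _ (hs0 j) h1
  · right
    push Not at hcase
    have hrel : ∀ i, V.valuation (729 / s i) * V.valuation (s i) = t ^ 6 := by
      intro i
      rw [← map_mul, div_mul_cancel₀ _ (hrec i).1, v729]
    have hr0 : ∀ i, 0 < V.valuation (729 / s i) := fun i => by
      rw [zero_lt_iff, Valuation.ne_zero_iff]
      exact div_ne_zero (by norm_num) (hrec i).1
    have hr : ∀ i, t ^ 4 ≤ V.valuation (729 / s i) := by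
      intro i
      by_contra hlt
      rw [not_le] at hlt
      have h1 : V.valuation (729 / s i) * V.valuation (s i) < t ^ 6 := by
        calc V.valuation (729 / s i) * V.valuation (s i) < t ^ 4 * t ^ 4 := by
              exact mul_lt_mul'' hlt (hcase i) zero_le zero_le
          _ = t ^ 8 := by rw [← pow_add]
          _ ≤ t ^ 6 := pow_le_pow_of_le_one zero_le hv.le (by norm_num)
      exact absurd (hrel i) h1.ne
    have hstep : ∀ i, V.valuation (729 / s i) ^ 3 = V.valuation (729 / s (i + 1)) := by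
      intro i
      obtain ⟨hne, he⟩ := hrec i
      have hne' := (hrec (i + 1)).1
      refine (step hv (r := s (i + 1)) (S := 729 / s (i + 1)) (X := 729 / s i) ?_ ?_ ?_
        (hr (i + 1))).1
      · field_simp
      · exact div_ne_zero (by norm_num) hne
      · rw [eq_div_iff hne']
        have h2 : (729 / s i) * s i = 729 := div_mul_cancel₀ _ hne
        obtain ⟨ρ, hρ⟩ : ∃ ρ, ρ = 729 / s i := ⟨_, rfl⟩
        rw [← hρ] at he h2 ⊢
        linear_combination ρ * he + h2
    intro j
    have hpow : ∀ k, V.valuation (729 / s j) ^ 3 ^ k = V.valuation (729 / s (j + k)) := by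
      intro k
      induction k with
      | zero => simp
      | succ k ih =>
        rw [pow_succ, pow_mul, ih]
        exact hstep (j + k)
    have h1 := hpow h
    rw [hper] at h1
    have h2 := hone _ (hr0 j) h1
    have h3 := hrel j
    rwa [h2, one_mul] at h3

end

end Pool.Agent.MUX3
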