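import Pool.Agent.MUX.StR3
import Pool.Agent.MUX.R2_CIN

/-!
# MUX, block R3: module CIN (helper83; model: `R2_CIN.lean` of helper91)

Periodic chains of units: injectivity modulo `V`. A pure valuation argument.
-/

set_option autoImplicit false

namespace Pool.Agent.MUX3

open _root_.MU3 Pool.Agent.MU3A Pool.Agent.MU3B Pool.Agent.MUX Pool.Agent.MUXU Pool.Agent.MUX2
open WeierstrassCurve

noncomputable section

namespace Cin3

open Pool.Agent.MUX2.Cin

/-- cubes are injective modulo `V` -/
theorem of_cube (V : ValuationSubring ℂ) (h3 : V.valuation 3 < 1) (x y : ℂ)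
    (hx : V.valuation x = 1) (hy : V.valuation y = 1) (h : V.valuation (x ^ 3 - y ^ 3) < 1) :
    V.valuation (x - y) < 1 := by
  have hd : V.valuation (x - y) ≤ 1 := Valuation.map_sub_le _ hx.le hy.le
  have h1 : V.valuation ((x - y) ^ 3) < 1 := by
    have e : (x - y) ^ 3 = (x ^ 3 - y ^ 3) - 3 * (x * y * (x - y)) := by ring
    rw [e]
    refine Valuation.map_sub_lt _ h (mul_lt V h3 ?_)
    rw [map_mul, map_mul, hx, hy, one_mul, one_mul]
    exact hd
  rw [map_pow] at h1
  by_contra hc
  exact absurd (one_le_pow₀ (not_lt.1 hc)) (not_le.2 h1)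

theorem three_mul_lt (V : ValuationSubring ℂ) (h3 : V.valuation 3 < 1) (c : ℂ) (n : ℕ)
    (h : c = 3 * (n : ℂ)) : V.valuation c < 1 := by
  rw [h]
  exact mul_lt V h3 (nat_le V n)

end Cin3

open Cin3 Pool.Agent.MUX2.Cin in
theorem t3_CIN : S3_CIN := by
  intro V s s' h h' h3 hs hs' hh hh' hp hp' hu hu' hJ
  have v36 : V.valuation 36 < 1 := three_mul_lt V h3 36 12 (by norm_num)
  have v270 : V.valuation 270 < 1 := three_mul_lt V h3 270 90 (by norm_num)
  have v729 : V.valuation 729 < 1 := three_mul_lt V h3 729 243 (by norm_num)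
  have hinv : ∀ i, V.valuation (1 / s i) = 1 := fun i => by
    rw [one_div, map_inv₀, hu i, inv_one]
  have hinv' : ∀ i, V.valuation (1 / s' i) = 1 := fun i => by
    rw [one_div, map_inv₀, hu' i, inv_one]
  have hq : ∀ i, V.valuation (729 / s i) < 1 := fun i => by
    rw [div_eq_mul_one_div]
    exact mul_lt V v729 (hinv i).le
  have hq' : ∀ i, V.valuation (729 / s' i) < 1 := fun i => by
    rw [div_eq_mul_one_div]
    exact mul_lt V v729 (hinv' i).le
  have hp2 : ∀ i, V.valuation (s i ^ 2) = 1 := fun i => by rw [map_pow, hu, one_pow]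
  have hp2' : ∀ i, V.valuation (s' i ^ 2) = 1 := fun i => by rw [map_pow, hu', one_pow]
  -- all differences are small
  have hd0 : V.valuation (s 0 - s' 0) < 1 := by
    refine of_cube V h3 _ _ (hu 0) (hu' 0) ?_
    have n0 := (hs 0).1
    have n0' := (hs' 0).1
    have e : s 0 ^ 3 - s' 0 ^ 3 =
        ((s 0 + 27) * (s 0 + 3) ^ 3 / s 0 - (s' 0 + 27) * (s' 0 + 3) ^ 3 / s' 0) -
        (36 * (s 0 ^ 2 - s' 0 ^ 2) + (270 * (s 0 - s' 0) + (729 / s 0 - 729 / s' 0))) := by
      field_simp
      ring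
    rw [e]
    refine Valuation.map_sub_lt _ hJ (Valuation.map_add_lt _ (mul_lt V v36 ?_)
      (Valuation.map_add_lt _ (mul_lt V v270 ?_) (Valuation.map_sub_lt _ (hq 0) (hq' 0))))
    · exact Valuation.map_sub_le _ (hp2 0).le (hp2' 0).le
    · exact Valuation.map_sub_le _ (hu 0).le (hu' 0).le
  have hc2 : ∀ i, V.valuation (36 + 729 / s i) < 1 := fun i =>
    Valuation.map_add_lt _ v36 (hq i)
  have hc2' : ∀ i, V.valuation (36 + 729 / s' i) < 1 := fun i =>
    Valuation.map_add_lt _ v36 (hq' i)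
  have hc1 : ∀ i, V.valuation ((729 / s i) ^ 2 + 36 * (729 / s i) + 270) < 1 := fun i =>
    Valuation.map_add_lt _ (Valuation.map_add_lt _ (by
      rw [map_pow]; exact pow_lt_one₀ zero_le (hq i) two_ne_zero) (mul_lt V v36 (hq i).le)) v270
  have hc1' : ∀ i, V.valuation ((729 / s' i) ^ 2 + 36 * (729 / s' i) + 270) < 1 := fun i =>
    Valuation.map_add_lt _ (Valuation.map_add_lt _ (by
      rw [map_pow]; exact pow_lt_one₀ zero_le (hq' i) two_ne_zero) (mul_lt V v36 (hq' i).le)) v270
  have hd : ∀ i, V.valuation (s i - s' i) < 1 := by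
    intro i
    induction i with
    | zero => exact hd0
    | succ i ih =>
      refine of_cube V h3 _ _ (hu (i + 1)) (hu' (i + 1)) ?_
      have e1 := (hs i).2
      have e2 := (hs' i).2
      have e : s (i + 1) ^ 3 - s' (i + 1) ^ 3 = (s i - s' i) -
          (((36 + 729 / s i) * s (i + 1) ^ 2 - (36 + 729 / s' i) * s' (i + 1) ^ 2) +
            (((729 / s i) ^ 2 + 36 * (729 / s i) + 270) * s (i + 1) -
              ((729 / s' i) ^ 2 + 36 * (729 / s' i) + 270) * s' (i + 1))) := by
        linear_combination e1 - e2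
      rw [e]
      refine Valuation.map_sub_lt _ ih (Valuation.map_add_lt _
        (Valuation.map_sub_lt _ (mul_lt V (hc2 i) (hp2 _).le) (mul_lt V (hc2' i) (hp2' _).le))
        (Valuation.map_sub_lt _ (mul_lt V (hc1 i) (hu _).le) (mul_lt V (hc1' i) (hu' _).le)))
  -- one step
  have hstep : ∀ i, ∃ r, V.valuation r < 1 ∧
      V.valuation (s i - s' i) = V.valuation (s (i + 1) - s' (i + 1)) * V.valuation r := by
    intro i
    refine ⟨s (i + 1) ^ 2 + s (i + 1) * s' (i + 1) + s' (i + 1) ^ 2 +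
      36 * (s (i + 1) + s' (i + 1)) + 270 + 729 / s i * (s (i + 1) + s' (i + 1)) +
      ((729 / s i) ^ 2 + 36 * (729 / s i)), ?_, ?_⟩
    · have e : s (i + 1) ^ 2 + s (i + 1) * s' (i + 1) + s' (i + 1) ^ 2 =
          3 * (s (i + 1) * s' (i + 1)) + (s (i + 1) - s' (i + 1)) * (s (i + 1) - s' (i + 1)) := by
        ring
      rw [e]
      have hsum : V.valuation (s (i + 1) + s' (i + 1)) ≤ 1 :=
        Valuation.map_add_le _ (hu _).le (hu' _).le
      refine Valuation.map_add_lt _ (Valuation.map_add_lt _ (Valuation.map_add_lt _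
        (Valuation.map_add_lt _ (Valuation.map_add_lt _ (mul_lt V h3 ?_)
          (mul_lt V (hd (i + 1)) (hd (i + 1)).le)) (mul_lt V v36 hsum)) v270)
        (mul_lt V (hq i) hsum)) (Valuation.map_add_lt _ ?_ (mul_lt V v36 (hq i).le))
      · rw [map_mul, hu, hu', one_mul]
      · rw [map_pow]
        exact pow_lt_one₀ zero_le (hq i) two_ne_zero
    · have n0 := (hs i).1
      have n0' := (hs' i).1
      have e1 := (hs i).2
      have e2 := (hs' i).2
      have key : (s i - s' i) * (1 + 729 * ((1 / s i) * (1 / s' i) * (s' (i + 1) ^ 2 +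
          s' (i + 1) * (729 / s i + 729 / s' i) + 36 * s' (i + 1)))) =
          (s (i + 1) - s' (i + 1)) * (s (i + 1) ^ 2 + s (i + 1) * s' (i + 1) + s' (i + 1) ^ 2 +
      36 * (s (i + 1) + s' (i + 1)) + 270 + 729 / s i * (s (i + 1) + s' (i + 1)) +
      ((729 / s i) ^ 2 + 36 * (729 / s i))) := by
        have e3 : s i - s' i = (s (i + 1) ^ 3 + (36 + 729 / s i) * s (i + 1) ^ 2 +
            ((729 / s i) ^ 2 + 36 * (729 / s i) + 270) * s (i + 1)) -
            (s' (i + 1) ^ 3 + (36 + 729 / s' i) * s' (i + 1) ^ 2 +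
            ((729 / s' i) ^ 2 + 36 * (729 / s' i) + 270) * s' (i + 1)) := by
          rw [e1, e2]
        have e4 : 729 * ((1 / s i) * (1 / s' i)) * (s i - s' i) = 729 / s' i - 729 / s i := by
          field_simp
        linear_combination e3 + (s' (i + 1) ^ 2 +
          s' (i + 1) * (729 / s i + 729 / s' i) + 36 * s' (i + 1)) * e4
      have h1 : V.valuation (1 + 729 * ((1 / s i) * (1 / s' i) * (s' (i + 1) ^ 2 +
          s' (i + 1) * (729 / s i + 729 / s' i) + 36 * s' (i + 1)))) = 1 := by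
        refine Valuation.map_one_add_of_lt _ (mul_lt V v729 ?_)
        rw [map_mul, map_mul, hinv, hinv', one_mul, one_mul]
        refine Valuation.map_add_le _ (Valuation.map_add_le _ (hp2' _).le ?_) ?_
        · rw [map_mul, hu', one_mul]
          exact Valuation.map_add_le _ (hq i).le (hq' i).le
        · rw [map_mul, hu', mul_one]
          exact v36.le
      rw [← map_mul, ← key, map_mul, h1, mul_one]
  by_contra hne
  have hpos : ∀ i, 0 < V.valuation (s i - s' i) ∧
      V.valuation (s 0 - s' 0) ≤ V.valuation (s i - s' i) := by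
    intro i
    induction i with
    | zero =>
      refine ⟨lt_of_le_of_ne zero_le ((Valuation.ne_zero_iff _).2 (sub_ne_zero.2 hne)).symm, le_rfl⟩
    | succ i ih =>
      obtain ⟨r, hr, he⟩ := hstep i
      have h1 : V.valuation (s i - s' i) ≤ V.valuation (s (i + 1) - s' (i + 1)) := by
        rw [he]
        exact mul_le_of_le_one_right' hr.le
      exact ⟨lt_of_lt_of_le ih.1 h1, le_trans ih.2 h1⟩
  have hN : s (0 + h' * h) - s' (0 + h' * h) = s 0 - s' 0 := by
    rw [per s h h' hp 0, Nat.mul_comm h' h, per s' h' h hp' 0]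
  obtain ⟨N, hNe⟩ : ∃ N, h' * h = N + 1 := ⟨h' * h - 1, by
    have := Nat.mul_pos hh' hh
    omega⟩
  rw [Nat.zero_add, hNe] at hN
  obtain ⟨r, hr, he⟩ := hstep N
  have h1 := (hpos (N + 1)).1
  have h3 : V.valuation (s N - s' N) < V.valuation (s (N + 1) - s' (N + 1)) := by
    rw [he]
    exact mul_lt_of_lt_one_right h1 hr
  have h4 := (hpos N).2
  rw [← hN] at h4
  exact absurd h3 (not_lt.2 h4)

end

end Pool.Agent.MUX3
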