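import Pool.Agent.MUX.StR3
import Pool.Agent.MU3.BAll

/-!
# MUX, block R3: module DUA (helper96): the dual isogeny of degree three
-/

set_option autoImplicit false

namespace Pool.Agent.MUX3

open _root_.MU3 Pool.Agent.MU3A Pool.Agent.MU3B Pool.Agent.MUX Pool.Agent.MUXU Pool.Agent.MUX2
open WeierstrassCurve

noncomputable section

namespace DUA

theorem third (L : PeriodPair) (u : ℂ) (m n : ℤ) (h : m * L.ω₁ + n * L.ω₂ = 3 * u)
    (hm : (3 : ℤ) ∣ m) (hn : (3 : ℤ) ∣ n) : u ∈ L.lattice := by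
  obtain ⟨m', rfl⟩ := hm
  obtain ⟨n', rfl⟩ := hn
  rw [PeriodPair.mem_lattice]
  refine ⟨m', n', ?_⟩
  push_cast at h
  linear_combination h / 3

theorem det3 : ∀ a b c d : ZMod 3, a * d - b * c = 0 → (a = 0 ∧ b = 0) ∨ (c = 0 ∧ d = 0) ∨
    (c - a = 0 ∧ d - b = 0) ∨ (c + a = 0 ∧ d + b = 0) := by
  decide

theorem det3Z (a b c d : ℤ) (h1 : ¬ ((3 : ℤ) ∣ a ∧ (3 : ℤ) ∣ b))
    (h2 : ¬ ((3 : ℤ) ∣ c ∧ (3 : ℤ) ∣ d)) (h3 : ¬ ((3 : ℤ) ∣ c - a ∧ (3 : ℤ) ∣ d - b))
    (h4 : ¬ ((3 : ℤ) ∣ c + a ∧ (3 : ℤ) ∣ d + b)) : ¬ (3 : ℤ) ∣ a * d - b * c := by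
  have key : ∀ x : ℤ, (3 : ℤ) ∣ x ↔ (x : ZMod 3) = 0 := fun x =>
    (ZMod.intCast_zmod_eq_zero_iff_dvd x 3).symm
  rw [key, key] at h1 h2 h3 h4
  rw [key]
  push_cast at *
  intro h5
  rcases det3 _ _ _ _ h5 with h | h | h | h
  · exact h1 h
  · exact h2 h
  · exact h3 h
  · exact h4 h

theorem int_mul (L : PeriodPair) {z : ℂ} (hz : z ∈ L.lattice) (n : ℤ) :
    (n : ℂ) * z ∈ L.lattice := by
  rw [← zsmul_eq_mul]
  exact zsmul_mem hz n

/-- the points of order three -/
theorem cls (L : PeriodPair) (u u' z : ℂ) (hu : u ∉ L.lattice) (h3u : 3 * u ∈ L.lattice)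
    (hu' : u' ∉ L.lattice) (h3u' : 3 * u' ∈ L.lattice) (hne : u' - u ∉ L.lattice)
    (hne' : u' + u ∉ L.lattice) (h3z : 3 * z ∈ L.lattice) :
    ∃ i j : ℤ, (i = -1 ∨ i = 0 ∨ i = 1) ∧ (j = -1 ∨ j = 0 ∨ j = 1) ∧
      z - i * u - j * u' ∈ L.lattice := by
  obtain ⟨a, b, hab⟩ := PeriodPair.mem_lattice.1 h3u
  obtain ⟨c, d, hcd⟩ := PeriodPair.mem_lattice.1 h3u'
  obtain ⟨e, f, hef⟩ := PeriodPair.mem_lattice.1 h3z
  have h1 : ¬ ((3 : ℤ) ∣ a ∧ (3 : ℤ) ∣ b) := fun h => hu (third L u a b hab h.1 h.2)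
  have h2 : ¬ ((3 : ℤ) ∣ c ∧ (3 : ℤ) ∣ d) := fun h => hu' (third L u' c d hcd h.1 h.2)
  have h3 : ¬ ((3 : ℤ) ∣ c - a ∧ (3 : ℤ) ∣ d - b) := fun h =>
    hne (third L (u' - u) (c - a) (d - b) (by push_cast; linear_combination hcd - hab) h.1 h.2)
  have h4 : ¬ ((3 : ℤ) ∣ c + a ∧ (3 : ℤ) ∣ d + b) := fun h =>
    hne' (third L (u' + u) (c + a) (d + b) (by push_cast; linear_combination hcd + hab) h.1 h.2)
  have hD := det3Z a b c d h1 h2 h3 h4
  obtain ⟨D, hDdef⟩ : ∃ D : ℤ, D = a * d - b * c := ⟨_, rfl⟩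
  rw [← hDdef] at hD
  have hDc : (D : ℂ) = a * d - b * c := by rw [hDdef]; push_cast; ring
  -- Cramer
  have hz : (D : ℂ) * z = ((e * d - f * c : ℤ) : ℂ) * u + ((a * f - b * e : ℤ) : ℂ) * u' := by
    have e1 : (D : ℂ) * (3 * z) = ((e * d - f * c : ℤ) : ℂ) * (3 * u) +
        ((a * f - b * e : ℤ) : ℂ) * (3 * u') := by
      rw [← hab, ← hcd, ← hef, hDc]
      push_cast
      ring
    linear_combination e1 / 3
  -- reduce
  have hD2 : ∃ k : ℤ, D * D = 1 + 3 * k := by
    have h5 : D % 3 = 1 ∨ D % 3 = 2 := by omega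
    rcases h5 with h5 | h5
    · refine ⟨3 * (D / 3) * (D / 3) + 2 * (D / 3), ?_⟩
      have : D = 3 * (D / 3) + 1 := by omega
      generalize D / 3 = q at this ⊢
      rw [this]
      ring
    · refine ⟨3 * (D / 3) * (D / 3) + 4 * (D / 3) + 1, ?_⟩
      have : D = 3 * (D / 3) + 2 := by omega
      generalize D / 3 = q at this ⊢
      rw [this]
      ring
  obtain ⟨k, hk⟩ := hD2
  have hkc : (D : ℂ) * D = 1 + 3 * k := by exact_mod_cast hk
  have red : ∀ I : ℤ, ∃ q r : ℤ, I = 3 * q + r ∧ (r = -1 ∨ r = 0 ∨ r = 1) := fun I =>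
    ⟨(I + 1) / 3, I - 3 * ((I + 1) / 3), by omega, by omega⟩
  obtain ⟨q1, i, hi, hi'⟩ := red (D * (e * d - f * c))
  obtain ⟨q2, j, hj, hj'⟩ := red (D * (a * f - b * e))
  refine ⟨i, j, hi', hj', ?_⟩
  have hic : (D : ℂ) * ((e * d - f * c : ℤ) : ℂ) = 3 * q1 + i := by exact_mod_cast hi
  have hjc : (D : ℂ) * ((a * f - b * e : ℤ) : ℂ) = 3 * q2 + j := by exact_mod_cast hj
  have e2 : z - i * u - j * u' = (q1 : ℂ) * (3 * u) + (q2 : ℂ) * (3 * u') - (k : ℂ) * (3 * z) := by
    linear_combination (D : ℂ) * hz - z * hkc + u * hic + u' * hjc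
  rw [e2]
  exact sub_mem (add_mem (int_mul L h3u q1) (int_mul L h3u' q2)) (int_mul L h3z k)

theorem psi (L : PeriodPair) (u : ℂ)
    (h : 12 * L.weierstrassP u ^ 4 - 6 * L.g₂ * L.weierstrassP u ^ 2 -
      12 * L.g₃ * L.weierstrassP u - L.g₂ ^ 2 / 4 = 0) (hg : L.g₂ = -18 * L.g₃) :
    3 * xn L u ^ 4 + xn L u ^ 3 - 216 * kap L * xn L u ^ 2 - 12 * kap L * xn L u - kap L -
      1296 * kap L ^ 2 = 0 := by
  have e3 : L.g₃ = -L.g₂ / 18 := by rw [hg]; ring
  rw [e3] at h
  unfold xn kap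
  linear_combination h / 4

end DUA

open DUA in
/-- (DUA) the dual isogeny. -/
theorem t3_DUA (h1 : S3_TRI) (h2 : S3_PAR) (h3 : S3_NRM) : S3_DUA := by
  intro L M mu u u' hT hgL hgM hu' h3u' hne hne'
  have hnM : mu * u' ∉ M.lattice := by
    intro h
    rcases (hT.ker u').1 h with h4 | h4 | h4
    · exact hu' h4
    · exact hne h4
    · exact hne' h4
  refine ⟨⟨div_ne_zero three_ne_zero hT.mu_ne, hnM, ?_, ?_⟩, ?_⟩
  · have e : 3 * (mu * u') = mu * (3 * u') := by ring
    rw [e]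
    exact (hT.ker _).2 (Or.inl h3u')
  · intro v
    obtain ⟨z, rfl⟩ : ∃ z, v = mu * z := ⟨v / mu, by field_simp [hT.mu_ne]⟩
    have e1 : 3 / mu * (mu * z) = 3 * z := by
      have := hT.mu_ne
      field_simp
    have e2 : mu * z - mu * u' = mu * (z - u') := by ring
    have e3 : mu * z + mu * u' = mu * (z + u') := by ring
    rw [e1, e2, e3, hT.ker, hT.ker, hT.ker]
    constructor
    · intro h
      obtain ⟨i, j, hi, hj, hij⟩ := cls L u u' z hT.u_ne hT.u3 hu' h3u' hne hne' h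
      rcases hj with rfl | rfl | rfl
      · refine Or.inr (Or.inr ?_)
        rcases hi with rfl | rfl | rfl
        · refine Or.inr (Or.inr ?_)
          convert hij using 1; push_cast; ring
        · refine Or.inl ?_
          convert hij using 1; push_cast; ring
        · refine Or.inr (Or.inl ?_)
          convert hij using 1; push_cast; ring
      · refine Or.inl ?_
        rcases hi with rfl | rfl | rfl
        · refine Or.inr (Or.inr ?_)
          convert hij using 1; push_cast; ring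
        · refine Or.inl ?_
          convert hij using 1; push_cast; ring
        · refine Or.inr (Or.inl ?_)
          convert hij using 1; push_cast; ring
      · refine Or.inr (Or.inl ?_)
        rcases hi with rfl | rfl | rfl
        · refine Or.inr (Or.inr ?_)
          convert hij using 1; push_cast; ring
        · refine Or.inl ?_
          convert hij using 1; push_cast; ring
        · refine Or.inr (Or.inl ?_)
          convert hij using 1; push_cast; ring
    · have key : ∀ i j : ℤ, z - i * u - j * u' ∈ L.lattice → 3 * z ∈ L.lattice := by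
        intro i j h
        have e : 3 * z = ((3 : ℤ) : ℂ) * (z - i * u - j * u') + (i : ℂ) * (3 * u) +
            (j : ℂ) * (3 * u') := by push_cast; ring
        rw [e]
        exact add_mem (add_mem (int_mul L h 3) (int_mul L hT.u3 i)) (int_mul L h3u' j)
      rintro ((h | h | h) | (h | h | h) | (h | h | h))
      · exact key 0 0 (by convert h using 1; push_cast; ring)
      · exact key 1 0 (by convert h using 1; push_cast; ring)
      · exact key (-1) 0 (by convert h using 1; push_cast; ring)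
      · exact key 0 1 (by convert h using 1; push_cast; ring)
      · exact key 1 1 (by convert h using 1; push_cast; ring)
      · exact key (-1) 1 (by convert h using 1; push_cast; ring)
      · exact key 0 (-1) (by convert h using 1; push_cast; ring)
      · exact key 1 (-1) (by convert h using 1; push_cast; ring)
      · exact key (-1) (-1) (by convert h using 1; push_cast; ring)
  · obtain ⟨s0, hq, s3, s27, -, hx, hk⟩ := h2 L u hT.u_ne hT.u3 hgL
    obtain ⟨s243, hr, hkM, hmu, hz⟩ := h3 L M mu u hT hgL hgM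
    obtain ⟨hd, hf⟩ := hz u' hnM
    have p0 := psi L u (h1 L u hT.u_ne hT.u3).2 hgL
    have p1 := psi L u' (h1 L u' hu' h3u').2 hgL
    have hmu0 := hT.mu_ne
    have hpar : par3 M (mu * u') =
        9 * kap M * (12 * xn M (mu * u') + 1) / (xn M (mu * u') ^ 3 - kap M) := rfl
    rw [hpar, hkM]
    generalize hs : par3 L u = s at *
    generalize hy : xn M (mu * u') = y at *
    generalize hX : xn L u' = X at *
    generalize hX0 : xn L u = X0 at *
    generalize hkk : kap L = κ at *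
    -- the cubic for `X`
    have hc : (X + 3 * X0 + 1 / 3) * (X - X0) ^ 2 + (6 * X0 ^ 2 + X0 - 72 * κ) * (X - X0) +
        (4 * X0 ^ 3 + X0 ^ 2 - 144 * κ * X0 - 4 * κ) = 0 := by
      have h5 : (X - X0) * ((X + 3 * X0 + 1 / 3) * (X - X0) ^ 2 +
          (6 * X0 ^ 2 + X0 - 72 * κ) * (X - X0) +
          (4 * X0 ^ 3 + X0 ^ 2 - 144 * κ * X0 - 4 * κ)) = 0 := by
        linear_combination (p1 - p0) / 3
      exact (mul_eq_zero.1 h5).resolve_left hd
    have ht : 6 * X0 ^ 2 + X0 - 72 * κ = (s + 3) ^ 2 * (s + 27) / q3 s ^ 2 := by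
      rw [hx, hk]
      unfold q3 at *
      field_simp
      ring
    have hw : 4 * X0 ^ 3 + X0 ^ 2 - 144 * κ * X0 - 4 * κ = (s + 3) ^ 3 * (s + 27) / q3 s ^ 3 := by
      rw [hx, hk]
      unfold q3 at *
      field_simp
      ring
    rw [ht, hw] at hc
    have h5 : mu ^ 2 * y = (1 - mu ^ 2) / 12 - 3 * X0 - 1 / 3 := by
      have h6 : X + (s + 3) ^ 2 * (s + 27) / q3 s ^ 2 / (X - X0) +
          (s + 3) ^ 3 * (s + 27) / q3 s ^ 3 / (X - X0) ^ 2 = -3 * X0 - 1 / 3 := by
        generalize (s + 3) ^ 2 * (s + 27) / q3 s ^ 2 = t at *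
        generalize (s + 3) ^ 3 * (s + 27) / q3 s ^ 3 = w at *
        have h7 : w = -(X + 3 * X0 + 1 / 3) * (X - X0) ^ 2 - t * (X - X0) := by
          linear_combination hc
        rw [h7]
        field_simp
        ring
      linear_combination hf + h6
    have h9 : y = -(s * (s + 81)) / (3 * r3 s) := by
      have h10 : mu ^ 2 ≠ 0 := pow_ne_zero _ hmu0
      apply mul_left_cancel₀ h10
      rw [h5, hmu, hx]
      have e : (s + 243) * q3 s - (s + 3) * r3 s - 36 * (s + 9) * (s + 243) -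
          4 * (s + 243) * q3 s + 4 * (s + 3) * s * (s + 81) = 0 := by
        unfold q3 r3
        ring
      field_simp
      linear_combination 3 * e
    have h11 : y ^ 3 - s ^ 3 / r3 s ^ 2 = -(s ^ 4 * (s + 27) * (s + 243)) / (27 * r3 s ^ 3) := by
      rw [h9]
      field_simp
      unfold r3
      ring
    have h12 : 12 * y + 1 = -3 * (s + 27) * (s + 243) / r3 s := by
      rw [h9]
      field_simp
      unfold r3
      ring
    rw [h11, h12]
    field_simp
    ring

end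

end Pool.Agent.MUX3
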