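import Pool.Agent.MUX.StR3
import Pool.Agent.MUX.R2_E12

/-!
# MUX, block R3, module E13: the kernel of reduction and the ideals
-/

set_option autoImplicit false

namespace Pool.Agent.MUX3

open _root_.MU3 Pool.Agent.MU3A Pool.Agent.MU3B Pool.Agent.MUX Pool.Agent.MUXU Pool.Agent.MUXV
  Pool.Agent.MUX2 WeierstrassCurve

noncomputable section

namespace E13

open Pool.Agent.MUX2.E12 (emb_mul emb_nat mul_star' nm_pos one_nmem cm tor_desc tor_lat tor_le
  tor_mul vadd)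

/-! ## Algebra of `O` -/

section
variable {A B : ℤ}

/-- `3` splits -/
lemma AB_three (h : CQ A B) (h8 : (3 : ℤ) ∣ B ^ 2 + 4 * A - 1) : (3 : ℤ) ∣ A + B - 1 := by
  rcases h.hB with rfl | rfl <;> omega

lemma three_mul_mem {P : Ideal (OO A B)} (h2 : (3 : OO A B) ∈ P) {a : ℤ} (ha : (3 : ℤ) ∣ a) :
    (a : OO A B) ∈ P := by
  obtain ⟨c, rfl⟩ := ha
  push_cast
  exact P.mul_mem_right _ h2

lemma int_mem_iff {P : Ideal (OO A B)} (hP : P.IsPrime) (h2 : (3 : OO A B) ∈ P) (a : ℤ) :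
    (a : OO A B) ∈ P ↔ (3 : ℤ) ∣ a := by
  refine ⟨fun h => ?_, three_mul_mem h2⟩
  by_contra h0
  rcases (by omega : (3 : ℤ) ∣ a - 1 ∨ (3 : ℤ) ∣ a + 1) with h1 | h1
  · have h3 := P.sub_mem h (three_mul_mem h2 h1)
    push_cast at h3
    exact one_nmem hP (by simpa using h3)
  · have h3 := P.sub_mem (three_mul_mem h2 h1) h
    push_cast at h3
    exact one_nmem hP (by simpa using h3)

/-- the two primes of norm three -/
lemma primes3 (h : CQ A B) (h8 : (3 : ℤ) ∣ B ^ 2 + 4 * A - 1) {P : Ideal (OO A B)}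
    (hP : IsPN 3 P) :
    (∀ x : OO A B, x ∈ P ↔ (3 : ℤ) ∣ x.re + x.im) ∨
      (∀ x : OO A B, x ∈ P ↔ (3 : ℤ) ∣ x.re + (B - 1) * x.im) := by
  have hA := AB_three h h8
  have h2 : (3 : OO A B) ∈ P := by simpa using hP.mem
  have hw : (⟨-1, 1⟩ : OO A B) * ⟨-(B - 1), 1⟩ ∈ P := by
    have : (⟨-1, 1⟩ : OO A B) * ⟨-(B - 1), 1⟩ = ((A + B - 1 : ℤ) : OO A B) := by
      ext
      · simp only [QuadraticAlgebra.re_mul, QuadraticAlgebra.re_intCast, Int.cast_id]
        ring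
      · simp only [QuadraticAlgebra.im_mul, QuadraticAlgebra.im_intCast]
        ring
    rw [this]
    exact three_mul_mem h2 hA
  have key : ∀ r : ℤ, (⟨-r, 1⟩ : OO A B) ∈ P →
      ∀ x : OO A B, x ∈ P ↔ (3 : ℤ) ∣ x.re + r * x.im := by
    intro r h0 x
    have hx : x = ((x.re + r * x.im : ℤ) : OO A B) + ((x.im : ℤ) : OO A B) * ⟨-r, 1⟩ := by
      ext
      · simp only [QuadraticAlgebra.re_add, QuadraticAlgebra.re_mul, QuadraticAlgebra.re_intCast,
          QuadraticAlgebra.im_intCast, Int.cast_id]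
        ring
      · simp only [QuadraticAlgebra.im_add, QuadraticAlgebra.im_mul, QuadraticAlgebra.re_intCast,
          QuadraticAlgebra.im_intCast, Int.cast_id]
        ring
    rw [← int_mem_iff hP.prime h2]
    conv_lhs => rw [hx]
    exact Ideal.add_mem_iff_left _ (P.mul_mem_left _ h0)
  rcases hP.prime.mem_or_mem hw with h0 | h0
  · refine Or.inl fun x => ?_
    have := key 1 h0 x
    rwa [one_mul] at this
  · exact Or.inr (key (B - 1) h0)

lemma mem_span3 {x : OO A B} (h1 : (3 : ℤ) ∣ x.re) (h2 : (3 : ℤ) ∣ x.im) :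
    x ∈ Ideal.span {(3 : OO A B)} := by
  obtain ⟨a, ha⟩ := h1
  obtain ⟨b, hb⟩ := h2
  rw [Ideal.mem_span_singleton]
  refine ⟨⟨a, b⟩, ?_⟩
  have h3 : (3 : OO A B) = ((3 : ℤ) : OO A B) := by norm_num
  ext
  · rw [h3]; simp only [QuadraticAlgebra.re_mul, QuadraticAlgebra.re_intCast,
      QuadraticAlgebra.im_intCast, Int.cast_id]; rw [ha]; ring
  · rw [h3]; simp only [QuadraticAlgebra.im_mul, QuadraticAlgebra.re_intCast,
      QuadraticAlgebra.im_intCast, Int.cast_id]; rw [hb]; ring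

lemma mul_span3 (h : CQ A B) (h8 : (3 : ℤ) ∣ B ^ 2 + 4 * A - 1) {x y : OO A B}
    (hx : (3 : ℤ) ∣ x.re + x.im) (hy : (3 : ℤ) ∣ y.re + (B - 1) * y.im) :
    x * y ∈ Ideal.span {(3 : OO A B)} := by
  obtain ⟨a, ha⟩ := AB_three h h8
  obtain ⟨b, hb⟩ := hx
  obtain ⟨c, hc⟩ := hy
  refine mem_span3 ⟨b * y.re - x.im * c + a * x.im * y.im, ?_⟩ ⟨b * y.im + x.im * c, ?_⟩
  · simp only [QuadraticAlgebra.re_mul]
    linear_combination y.re * hb - x.im * hc + (x.im * y.im) * ha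
  · simp only [QuadraticAlgebra.im_mul]
    linear_combination y.im * hb + x.im * hc

/-- the product of the two primes above `3` -/
lemma pq_three (h : CQ A B) (h8 : (3 : ℤ) ∣ B ^ 2 + 4 * A - 1) {P Q : Ideal (OO A B)}
    (hP : IsPN 3 P) (hQ : IsPN 3 Q) (hPQ : P ≠ Q) : P * Q ≤ Ideal.span {(3 : OO A B)} := by
  rcases primes3 h h8 hP with h1 | h1 <;> rcases primes3 h h8 hQ with h2 | h2
  · exact absurd (Ideal.ext fun x => (h1 x).trans (h2 x).symm) hPQ
  · exact Ideal.mul_le.2 fun x hx y hy => mul_span3 h h8 ((h1 x).1 hx) ((h2 y).1 hy)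
  · refine Ideal.mul_le.2 fun x hx y hy => ?_
    rw [mul_comm]
    exact mul_span3 h h8 ((h2 y).1 hy) ((h1 x).1 hx)
  · exact absurd (Ideal.ext fun x => (h1 x).trans (h2 x).symm) hPQ

/-- the second part -/
lemma part2 (h3 : S2_GR2) (h4 : S2_IT2) (hc : CQ A B) (h8 : (3 : ℤ) ∣ B ^ 2 + 4 * A - 1)
    {P Q : Ideal (OO A B)} {V : ValuationSubring ℂ} (hP : IsPN 3 P) (hQ : IsPN 3 Q) (hPQ : P ≠ Q)
    (hV : Above3 P V) {b : Ideal (OO A B)} {L : PeriodPair} {om : ℂ} (hL : IsNL b L om)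
    (g1 : V.valuation (kap L) = 1) (g2 : V.valuation (1 + 1728 * kap L) = 1)
    (g4 : ∀ w, w ∉ L.lattice → Tor Q L w → V.valuation (par3 L w) = 1 ∧
      V.valuation (xn L w) = 1)
    {m : Ideal (OO A B)} {u : ℂ} (hm : m ≠ ⊥) (hco : IsCoprime m P) (hT : Tor m L u)
    (hK : InEn V L u) : u ∈ L.lattice := by
  obtain ⟨ξ, G⟩ := h3 V L hL.nrm g1 g2
  obtain ⟨x, hx, hx0⟩ := Submodule.exists_mem_ne_zero_of_ne_bot hm
  have hN := nm_pos hc hx0
  obtain ⟨i, n, hn, hNn⟩ := Nat.exists_eq_pow_mul_and_not_dvd (n := (nm x).toNat)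
    (by omega) 3 (by norm_num)
  have hNm : ((3 : OO A B) ^ i * (n : OO A B)) ∈ m := by
    have e1 : (3 : OO A B) ^ i * (n : OO A B) = x * star x := by
      rw [mul_star']
      have e2 : nm x = (((3 ^ i * n : ℕ)) : ℤ) := by rw [← hNn]; omega
      rw [e2]
      push_cast
      rfl
    rw [e1]
    exact m.mul_mem_right _ hx
  have hnq : ∀ q ∈ Q ^ i, (n : OO A B) * q ∈ m := by
    intro q hq
    obtain ⟨a, ha, c, hc', hac⟩ := Ideal.isCoprime_iff_exists.1 (hco.pow_right (n := i))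
    have e1 : (n : OO A B) * q = (n : OO A B) * q * a + (n : OO A B) * (c * q) := by
      linear_combination (-((n : OO A B) * q)) * hac
    rw [e1]
    refine m.add_mem (m.mul_mem_left _ ha) ?_
    have e2 : c * q ∈ Ideal.span {(3 : OO A B) ^ i} := by
      have h5 : (P * Q) ^ i ≤ (Ideal.span {(3 : OO A B)}) ^ i :=
        Ideal.pow_right_mono (pq_three hc h8 hP hQ hPQ) i
      rw [Ideal.span_singleton_pow, mul_pow] at h5
      exact h5 (Ideal.mul_mem_mul hc' hq)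
    obtain ⟨d, hd⟩ := Ideal.mem_span_singleton.1 e2
    rw [hd, ← mul_assoc, mul_comm (n : OO A B)]
    exact m.mul_mem_right _ hNm
  have hTn : Tor (Q ^ i) L ((n : ℂ) * u) := by
    intro q hq
    have h5 := hT _ (hnq q hq)
    rw [emb_mul hc, emb_nat hc] at h5
    have e3 : emb q * ((n : ℂ) * u) = (n : ℂ) * emb q * u := by ring
    rw [e3]
    exact h5
  have hvn : V.valuation (n : ℂ) = 1 := by
    have h5 : ((n : ℤ) : OO A B) ∉ P := by
      rw [int_mem_iff hP.prime (by simpa using hP.mem)]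
      omega
    have h6 := hV.one _ h5
    rw [Int.cast_natCast, emb_nat hc] at h6
    exact h6
  by_contra hu
  have hK' : InK V L (xn L) u := hK
  have hnu : (n : ℂ) * u ∉ L.lattice := fun h5 => hu (gmem_of_nat_mul G hK' hvn h5)
  obtain ⟨c, hc1, hc2⟩ := tor_desc hc Q i _ hTn hnu
  have hcne : emb c ≠ 0 := by
    intro h5
    rw [h5, zero_mul] at hc1
    exact hc1 L.lattice.zero_mem
  have h6 := (h4 V L L (1 / 12) (1 / 12) (emb c) (y2 L) (y2 L) ⟨_, ξ, G⟩ ⟨_, ξ, G⟩ hcne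
    (fun w hw => cm hc hL hw c)).2 ((n : ℂ) * u) (gInK_nat G hK' n)
  rcases h6 with h6 | h6
  · exact hc1 h6
  · apply h6
    rw [← ValuationSubring.valuation_le_one_iff]
    have h7 := (g4 _ hc1 hc2).2
    exact h7.le

end

/-! ## Valuations -/

section
variable {Γ : Type*} [LinearOrderedCommGroupWithZero Γ] (v : Valuation ℂ Γ)

/-- the main lemma -/
lemma key {X x x0 m2 a2 a1 a0 : ℂ} {θ : Γ} (h1 : θ < 1) (hm : v m2 = θ ^ 2)
    (hx0 : v x0 * θ = 1) (ha2 : v a2 < 1) (ha1 : v a1 < 1) (ha0 : v a0 < 1)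
    (hE : m2 * X * (x - x0) ^ 2 = x ^ 3 + a2 * x ^ 2 + a1 * x + a0) (hX : 1 < v X)
    (hX2 : v X * θ ≤ 1) : v x ^ 3 = v X := by
  have hE' := congrArg v hE
  rw [map_mul, map_mul, map_pow, hm] at hE'
  have hθ2 : v x0 ^ 2 * θ ^ 2 = 1 := by rw [← mul_pow, hx0, one_pow]
  have hx01 : 1 < v x0 := by
    by_contra hh
    rw [not_lt] at hh
    have : v x0 * θ < 1 := lt_of_le_of_lt (mul_le_of_le_one_left zero_le hh) h1
    rw [hx0] at this
    exact lt_irrefl _ this
  rcases le_or_gt (v x) 1 with ha | ha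
  · exfalso
    have e1 : v (x - x0) = v x0 := by
      rw [sub_eq_add_neg, v.map_add_eq_of_lt_right, Valuation.map_neg]
      rw [Valuation.map_neg]
      exact lt_of_le_of_lt ha hx01
    have e2 : v (x ^ 3 + a2 * x ^ 2 + a1 * x + a0) ≤ 1 := by
      refine v.map_add_le (v.map_add_le (v.map_add_le ?_ ?_) ?_) ha0.le
      · rw [map_pow]
        exact pow_le_one₀ zero_le ha
      · rw [map_mul, map_pow]
        exact mul_le_one' ha2.le (pow_le_one₀ zero_le ha)
      · rw [map_mul]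
        exact mul_le_one' ha1.le ha
    rw [e1, mul_comm (θ ^ 2) (v X), mul_assoc, mul_comm (θ ^ 2), hθ2, mul_one] at hE'
    rw [hE'] at hX
    exact absurd e2 (not_le.2 hX)
  · have hxp : 0 < v x := lt_trans zero_lt_one ha
    have hp2 : v x ^ 2 < v x ^ 3 := by
      rw [pow_succ (v x) 2]
      exact lt_mul_of_one_lt_right (pow_pos hxp 2) ha
    have hp1 : v x < v x ^ 2 := by
      rw [pow_two]
      exact lt_mul_of_one_lt_left hxp ha
    have e1 : v (x ^ 3 + a2 * x ^ 2 + a1 * x + a0) = v x ^ 3 := by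
      have e2 : x ^ 3 + a2 * x ^ 2 + a1 * x + a0 = (a2 * x ^ 2 + a1 * x + a0) + x ^ 3 := by ring
      rw [e2, vadd v, map_pow]
      rw [map_pow]
      refine v.map_add_lt (v.map_add_lt ?_ ?_) ?_
      · rw [map_mul, map_pow]
        exact lt_trans (mul_lt_of_lt_one_left (pow_pos hxp 2) ha2) hp2
      · rw [map_mul]
        exact lt_trans (mul_lt_of_lt_one_left hxp ha1) (lt_trans hp1 hp2)
      · exact lt_trans (lt_trans ha0 ha) (lt_trans hp1 hp2)
    rw [e1] at hE'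
    rcases lt_or_ge (v x) (v x0) with h | h
    · have e3 : v (x - x0) = v x0 := by
        rw [sub_eq_add_neg, v.map_add_eq_of_lt_right, Valuation.map_neg]
        rw [Valuation.map_neg]
        exact h
      rw [e3, mul_comm (θ ^ 2) (v X), mul_assoc, mul_comm (θ ^ 2), hθ2, mul_one] at hE'
      exact hE'.symm
    · exfalso
      have e3 : v (x - x0) ≤ v x := by
        rw [sub_eq_add_neg]
        refine v.map_add_le le_rfl ?_
        rw [Valuation.map_neg]
        exact h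
      have e4 : v x ^ 3 ≤ θ ^ 2 * v X * v x ^ 2 := by
        rw [← hE']
        exact mul_le_mul_right (pow_le_pow_left₀ zero_le e3 2) _
      have e5 : v x ≤ θ ^ 2 * v X := by
        rw [pow_succ' (v x) 2] at e4
        exact le_of_mul_le_mul_right e4 (pow_pos hxp 2)
      have e6 : θ ^ 2 * v X < 1 := by
        rw [pow_two, mul_assoc, mul_comm θ (v X)]
        exact lt_of_le_of_lt (mul_le_of_le_one_right zero_le hX2) h1
      exact absurd (lt_of_le_of_lt e5 e6) (not_lt.2 ha.le)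

/-- the numbers of `(NRM)` -/
lemma nums (h3 : v 3 < 1) {s : ℂ} (hs : v s = v 3 ^ 6) :
    v (s + 3) = v 3 ∧ v (s + 9) = v 3 ^ 2 ∧ v (s + 27) = v 3 ^ 3 ∧ v (s + 243) = v 3 ^ 5 ∧
      v (q3 s) = v 3 ^ 3 ∧ v (r3 s) = v 3 ^ 9 := by
  have h0 : (0 : Γ) < v 3 := zero_lt_iff.2 (by simp)
  have hn : ∀ n : ℕ, v (n : ℂ) ≤ 1 := fun n => Pool.Agent.MU3.Val.v_nat v n
  have hp : ∀ {k : ℕ}, k < 6 → v 3 ^ 6 < v 3 ^ k := fun hk =>
    pow_lt_pow_right_of_lt_one₀ h0 h3 hk
  have e9 : v 9 = v 3 ^ 2 := by rw [← map_pow]; norm_num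
  have e27 : v 27 = v 3 ^ 3 := by rw [← map_pow]; norm_num
  have e243 : v 243 = v 3 ^ 5 := by rw [← map_pow]; norm_num
  refine ⟨?_, ?_, ?_, ?_, ?_, ?_⟩
  · rw [vadd v]; rw [hs]; simpa using hp (k := 1) (by norm_num)
  · rw [vadd v, e9]; rw [hs, e9]; exact hp (by norm_num)
  · rw [vadd v, e27]; rw [hs, e27]; exact hp (by norm_num)
  · rw [vadd v, e243]; rw [hs, e243]; exact hp (by norm_num)
  · have e1 : v (-27) = v 3 ^ 3 := by rw [Valuation.map_neg, e27]
    unfold q3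
    rw [sub_eq_add_neg, vadd v, e1]
    rw [e1]
    refine v.map_add_lt ?_ ?_
    · rw [map_pow, hs, ← pow_mul]
      exact pow_lt_pow_right_of_lt_one₀ h0 h3 (by norm_num)
    · rw [map_mul, hs]
      exact lt_of_le_of_lt (mul_le_of_le_one_left zero_le (by exact_mod_cast hn 18))
        (hp (by norm_num))
  · have e1 : v (-19683) = v 3 ^ 9 := by rw [Valuation.map_neg, ← map_pow]; norm_num
    unfold r3
    rw [sub_eq_add_neg _ (19683 : ℂ), vadd v, e1]
    rw [e1, sub_eq_add_neg]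
    refine v.map_add_lt ?_ ?_
    · rw [map_pow, hs, ← pow_mul]
      exact pow_lt_pow_right_of_lt_one₀ h0 h3 (by norm_num)
    · rw [Valuation.map_neg, show (486 : ℂ) * s = 2 * (3 ^ 5 * s) by ring, map_mul, map_mul,
        map_pow, hs, ← pow_add]
      refine lt_of_le_of_lt (mul_le_of_le_one_left zero_le (by exact_mod_cast hn 2)) ?_
      exact pow_lt_pow_right_of_lt_one₀ h0 h3 (by norm_num)

lemma nums2 (h3 : v 3 < 1) {s : ℂ} (hs : v s = v 3 ^ 6) (k1 : q3 s ≠ 0) (k2 : s + 243 ≠ 0)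
    {m2 e t w c : ℂ} (hm2 : m2 = (s + 3) * r3 s / ((s + 243) * q3 s)) (he : e = (s + 9) / q3 s)
    (ht : t = (s + 3) ^ 2 * (s + 27) / q3 s ^ 2) (hw : w = (s + 3) ^ 3 * (s + 27) / q3 s ^ 3)
    (hc : c = (1 - m2) / 12) :
    v m2 = v 3 ^ 2 ∧ v e * v 3 = 1 ∧ v (c - 2 * e) < 1 ∧ v (e ^ 2 - 2 * c * e + t) < 1 ∧
      v (c * e ^ 2 - t * e + w) < 1 := by
  obtain ⟨n1, n2, n3, n4, n5, n6⟩ := nums v h3 hs
  have h0 : v 3 ≠ 0 := by simp
  have h0' : (0 : Γ) < v 3 := zero_lt_iff.2 h0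
  have hn : ∀ n : ℕ, v (n : ℂ) ≤ 1 := fun n => Pool.Agent.MU3.Val.v_nat v n
  have b1 : c - 2 * e = 60 * (s * (s + 27)) / ((s + 243) * q3 s) := by
    rw [hc, hm2, he]
    field_simp
    unfold q3 r3
    ring
  have b2 : e ^ 2 - 2 * c * e + t =
      s * (s ^ 3 + 153 * s ^ 2 + 3087 * s + (-729)) / ((s + 243) * q3 s ^ 2) := by
    rw [hc, hm2, he, ht]
    field_simp
    unfold q3 r3
    ring
  have b3 : c * e ^ 2 - t * e + w =
      8 * (s ^ 2 * (7 * s ^ 2 + 198 * s + (-189))) / ((s + 243) * q3 s ^ 3) := by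
    rw [hc, hm2, he, ht, hw]
    field_simp
    unfold q3 r3
    ring
  refine ⟨?_, ?_, ?_, ?_, ?_⟩
  · rw [hm2, map_div₀, map_mul, map_mul, n1, n4, n5, n6, div_eq_iff
      (mul_ne_zero (pow_ne_zero _ h0) (pow_ne_zero _ h0)), ← pow_add, ← pow_add, ← pow_succ']
  · rw [he, map_div₀, n2, n5, div_mul_eq_mul_div, div_eq_one_iff_eq (pow_ne_zero _ h0),
      ← pow_succ]
  · rw [b1, map_div₀, map_mul, map_mul, map_mul, n3, n4, n5, hs, ← pow_add, ← pow_add,
      div_lt_one₀ (pow_pos h0' _)]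
    refine lt_of_le_of_lt (mul_le_of_le_one_left zero_le (by exact_mod_cast hn 60)) ?_
    exact pow_lt_pow_right_of_lt_one₀ h0' h3 (by norm_num)
  · rw [b2, map_div₀, map_mul, map_mul, map_pow, n4, n5, hs, ← pow_mul, ← pow_add,
      div_lt_one₀ (pow_pos h0' _)]
    have e1 : v (s ^ 3 + 153 * s ^ 2 + 3087 * s + (-729)) ≤ v 3 ^ 6 := by
      refine v.map_add_le (v.map_add_le (v.map_add_le ?_ ?_) ?_) ?_
      · rw [map_pow, hs, ← pow_mul]
        exact pow_le_pow_of_le_one zero_le h3.le (by norm_num)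
      · rw [map_mul, map_pow, hs, ← pow_mul]
        refine (mul_le_of_le_one_left zero_le (by exact_mod_cast hn 153)).trans ?_
        exact pow_le_pow_of_le_one zero_le h3.le (by norm_num)
      · rw [map_mul, hs]
        exact mul_le_of_le_one_left zero_le (by exact_mod_cast hn 3087)
      · rw [Valuation.map_neg, ← map_pow]
        norm_num
    refine lt_of_le_of_lt (mul_le_mul_right e1 _) ?_
    rw [← pow_add]
    exact pow_lt_pow_right_of_lt_one₀ h0' h3 (by norm_num)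
  · rw [b3, map_div₀, map_mul, map_mul, map_mul, map_pow, map_pow, n4, n5, hs, ← pow_mul,
      ← pow_mul, ← pow_add, div_lt_one₀ (pow_pos h0' _)]
    have e1 : v (7 * s ^ 2 + 198 * s + (-189)) ≤ v 3 ^ 3 := by
      refine v.map_add_le (v.map_add_le ?_ ?_) ?_
      · rw [map_mul, map_pow, hs, ← pow_mul]
        refine (mul_le_of_le_one_left zero_le (by exact_mod_cast hn 7)).trans ?_
        exact pow_le_pow_of_le_one zero_le h3.le (by norm_num)
      · rw [map_mul, hs]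
        refine (mul_le_of_le_one_left zero_le (by exact_mod_cast hn 198)).trans ?_
        exact pow_le_pow_of_le_one zero_le h3.le (by norm_num)
      · rw [Valuation.map_neg, show (189 : ℂ) = 7 * 3 ^ 3 by norm_num, map_mul, map_pow]
        exact mul_le_of_le_one_left zero_le (by exact_mod_cast hn 7)
    refine lt_of_le_of_lt (mul_le_of_le_one_left zero_le (by exact_mod_cast hn 8)) ?_
    refine lt_of_le_of_lt (mul_le_mul_right e1 _) ?_
    rw [← pow_add]
    exact pow_lt_pow_right_of_lt_one₀ h0' h3 (by norm_num)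

end

/-! ## The first part -/

section
variable {A B : ℤ}

/-- the induction step -/
lemma step {L M : PeriodPair} {mu w : ℂ} (h1 : S3_NRM) (h1' : S3_PAR) (hT : Three L M mu w)
    (hL : L.g₂ = -18 * L.g₃) (hM : M.g₂ = -18 * M.g₃) (V : ValuationSubring ℂ)
    (h3 : V.valuation 3 < 1) (hs : V.valuation (par3 L w) = V.valuation 3 ^ 6) {u : ℂ}
    (hu : mu * u ∉ M.lattice) (hX : 1 < V.valuation (xn M (mu * u)))
    (hX2 : V.valuation (xn M (mu * u)) * V.valuation 3 ≤ 1) :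
    V.valuation (xn L u) ^ 3 = V.valuation (xn M (mu * u)) := by
  obtain ⟨k1, k2, -, hm2, hx⟩ := h1 L M mu w hT hL hM
  obtain ⟨-, q1, -, -, -, he, -⟩ := h1' L w hT.u_ne hT.u3 hL
  obtain ⟨hne, hE⟩ := hx u hu
  obtain ⟨m1, m2, m3, m4, m5⟩ := nums2 V.valuation h3 hs q1 k1 hm2 he rfl rfl rfl
  refine key V.valuation h3 m1 m2 m3 m4 m5 ?_ hX hX2
  have e1 : mu ^ 2 * xn M (mu * u) * (xn L u - xn L w) ^ 2 =
      xn L u * (xn L u - xn L w) ^ 2 + (1 - mu ^ 2) / 12 * (xn L u - xn L w) ^ 2 +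
      (par3 L w + 3) ^ 2 * (par3 L w + 27) / q3 (par3 L w) ^ 2 * (xn L u - xn L w) +
      (par3 L w + 3) ^ 3 * (par3 L w + 27) / q3 (par3 L w) ^ 3 := by
    rw [hE]
    field_simp
  rw [e1]
  ring

/-- the first part -/
lemma part1 (h1 : S3_NRM) (h1' : S3_PAR) (h2 : S3_GD3) (h5 : S3_CH3) (hc : CaseP 3 A B)
    (h8 : (3 : ℤ) ∣ B ^ 2 + 4 * A - 1) (hF : LatFacts A B)
    {P Q : Ideal (OO A B)} {V : ValuationSubring ℂ} (hP : IsPN 3 P) (hQ : IsPN 3 Q) (hPQ : P ≠ Q)
    (hV : Above3 P V) : ∀ (j : ℕ) (b : Ideal (OO A B)) (L : PeriodPair) (om u : ℂ), IsNL b L om →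
      Tor (P ^ (j + 1)) L u → ¬ Tor (P ^ j) L u →
      V.valuation (xn L u) ^ (3 ^ j) * V.valuation 3 = 1 := by
  have h0 : V.valuation 3 ≠ 0 := by simp
  intro j
  induction j with
  | zero =>
    intro b L om u hL hT hT'
    have g := (h2 A B hc h8 hF P Q V hP hQ hPQ hV b L om hL).2.2.1 u
      (fun hu => hT' (tor_lat hc.toCQ hL hu _)) (by simpa using hT)
    simpa using g.2.1
  | succ j ih =>
    intro b L om u hL hT hT'
    obtain ⟨-, -, N, mu, w, -, -, hN0, hNL, hIQ, hTwo, hTor, -, -, -, -⟩ :=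
      h5 A B hc h8 hF P hP b L om hL
    obtain ⟨b1, om1, hN1⟩ := hNL 1
    have t0 := hTwo 0
    have i0 := hIQ 0
    have r0 := hTor 0
    rw [hN0] at t0 i0 r0
    have hs := ((h2 A B hc h8 hF P Q V hP hQ hPQ hV b L om hL).2.2.1 (w 0) t0.u_ne r0).1
    have hT1 : Tor (P ^ (j + 1)) (N 1) (mu 0 * u) := by
      intro x hx
      have e1 : emb x * (mu 0 * u) = mu 0 * (emb x * u) := by ring
      rw [e1, i0.2]
      intro y hy
      rw [← mul_assoc, ← emb_mul hc.toCQ]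
      refine hT _ ?_
      rw [pow_succ']
      exact Ideal.mul_mem_mul hy hx
    have hT1' : ¬ Tor (P ^ j) (N 1) (mu 0 * u) := by
      intro hh
      apply hT'
      rw [pow_succ']
      refine tor_mul hc.toCQ fun x hx y hy => ?_
      have e1 := hh y hy
      have e2 : emb y * (mu 0 * u) = mu 0 * (emb y * u) := by ring
      rw [e2, i0.2] at e1
      have e3 := e1 x hx
      rwa [← mul_assoc, ← emb_mul hc.toCQ] at e3
    have hu1 : mu 0 * u ∉ (N 1).lattice := by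
      intro hh
      rw [i0.2] at hh
      exact hT' (tor_le (Ideal.pow_le_self (Nat.succ_ne_zero j)) hh)
    have g := ih b1 (N 1) om1 (mu 0 * u) hN1 hT1 hT1'
    have hX : 1 < V.valuation (xn (N 1) (mu 0 * u)) := by
      by_contra hh
      rw [not_lt] at hh
      have e1 := mul_le_of_le_one_left (a := V.valuation (xn (N 1) (mu 0 * u)) ^ 3 ^ j)
        (b := V.valuation 3) zero_le (pow_le_one₀ zero_le hh)
      rw [g] at e1
      exact absurd hV.three (not_lt.2 e1)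
    have hX2 : V.valuation (xn (N 1) (mu 0 * u)) * V.valuation 3 ≤ 1 := by
      rw [← g]
      refine mul_le_mul_left ?_ _
      exact le_self_pow₀ hX.le (by positivity)
    have hk := step h1 h1' t0 hL.nrm hN1.nrm V hV.three hs hu1 hX hX2
    rw [pow_succ', pow_mul, hk]
    exact g

end

end E13

/-- the module E13 -/
theorem t3_E13 (h1 : S3_GD3) (h2 : S3_NRM) (h3 : S3_PAR) (h4 : S2_GR2) (h5 : S2_IT2)
    (h6 : S3_CH3) : S3_E13 := by
  intro A B hc h8 hF P Q V hP hQ hPQ hV b L om hL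
  obtain ⟨g1, g2, -, g4, -, -⟩ := h1 A B hc h8 hF P Q V hP hQ hPQ hV b L om hL
  exact ⟨fun j u => E13.part1 h2 h3 h1 h6 hc h8 hF hP hQ hPQ hV j b L om u hL,
    fun m u hm hco hT hK => E13.part2 h4 h5 hc.toCQ h8 hP hQ hPQ hV hL g1 g2 g4 hm hco hT hK⟩

end

end Pool.Agent.MUX3
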