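import Pool.Agent.MUX.StR3

/-!
# MUX, block R3, module GD3: good ordinary reduction at the places above 3

Adapted from `R2_GD2.lean` (helper4).
-/

set_option autoImplicit false

namespace Pool.Agent.MUX3

open _root_.MU3 Pool.Agent.MU3A Pool.Agent.MU3B Pool.Agent.MUX Pool.Agent.MUXU Pool.Agent.MUX2
open WeierstrassCurve

noncomputable section

namespace GD3

/-- squares in the value group -/
lemma sq_inj {Γ : Type*} [LinearOrderedCommGroupWithZero Γ] {a b : Γ} (h : a ^ 2 = b ^ 2) :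
    a = b :=
  (pow_left_inj₀ zero_le' zero_le' two_ne_zero).1 h

section val

variable {V : ValuationSubring ℂ}

lemma th_ne : V.valuation 3 ≠ 0 := (Valuation.ne_zero_iff _).2 three_ne_zero

lemma th_pos : 0 < V.valuation 3 := zero_lt_iff.2 th_ne

lemma th_lt (h3 : V.valuation 3 < 1) {m n : ℕ} (h : m < n) :
    V.valuation 3 ^ n < V.valuation 3 ^ m :=
  pow_lt_pow_right_of_lt_one₀ th_pos h3 h

lemma th_lt1 (h3 : V.valuation 3 < 1) {n : ℕ} (h : 0 < n) : V.valuation 3 ^ n < 1 := by
  have := th_lt h3 h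
  rwa [pow_zero] at this

lemma v_nat (n : ℕ) : V.valuation (n : ℂ) ≤ 1 :=
  (V.valuation_le_one_iff _).2 (natCast_mem V n)

/-- `v(3^k n) ≤ v(3)^k` -/
lemma v_mul_le (k n : ℕ) : V.valuation (3 ^ k * (n : ℂ)) ≤ V.valuation 3 ^ k := by
  rw [map_mul, map_pow]
  calc V.valuation 3 ^ k * V.valuation (n : ℂ) ≤ V.valuation 3 ^ k * 1 := by
        gcongr
        exact v_nat n
    _ = V.valuation 3 ^ k := mul_one _

lemma v9 : V.valuation 9 = V.valuation 3 ^ 2 := by
  rw [← map_pow]; norm_num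

lemma v27 : V.valuation 27 = V.valuation 3 ^ 3 := by
  rw [← map_pow]; norm_num

lemma v243 : V.valuation 243 = V.valuation 3 ^ 5 := by
  rw [← map_pow]; norm_num

lemma v19683 : V.valuation 19683 = V.valuation 3 ^ 9 := by
  rw [← map_pow]; norm_num

lemma v18 : V.valuation 18 ≤ V.valuation 3 ^ 2 := by
  have := v_mul_le (V := V) 2 2
  rwa [show (3 : ℂ) ^ 2 * ((2 : ℕ) : ℂ) = 18 by norm_num] at this

lemma v486 : V.valuation 486 ≤ V.valuation 3 ^ 5 := by
  have := v_mul_le (V := V) 5 2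
  rwa [show (3 : ℂ) ^ 5 * ((2 : ℕ) : ℂ) = 486 by norm_num] at this

lemma v21 : V.valuation 21 ≤ V.valuation 3 := by
  have := v_mul_le (V := V) 1 7
  rwa [show (3 : ℂ) ^ 1 * ((7 : ℕ) : ℂ) = 21 by norm_num, pow_one] at this

/-- the parameter is a unit -/
lemma unit_case (h3 : V.valuation 3 < 1) {s mu : ℂ} (hs : V.valuation s = 1)
    (hmu : mu ^ 2 = (s + 3) * r3 s / ((s + 243) * q3 s)) :
    V.valuation mu = 1 ∧ V.valuation (q3 s) = 1 ∧ V.valuation (s + 9) = 1 := by
  have e1 : V.valuation (s + 3) = 1 := by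
    rw [Valuation.map_add_eq_of_lt_left _ (by rw [hs]; exact h3), hs]
  have e2 : V.valuation (r3 s) = 1 := by
    have f1 : V.valuation (486 * s + 19683) < 1 := by
      refine Valuation.map_add_lt _ ?_ ?_
      · rw [map_mul, hs, mul_one]
        exact lt_of_le_of_lt v486 (th_lt1 h3 (by norm_num))
      · rw [v19683]
        exact th_lt1 h3 (by norm_num)
    have f2 : V.valuation (s ^ 2) = 1 := by rw [map_pow, hs, one_pow]
    have f3 : r3 s = s ^ 2 - (486 * s + 19683) := by unfold r3; ring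
    rw [f3, Valuation.map_sub_eq_of_lt_left _ (by rw [f2]; exact f1), f2]
  have e3 : V.valuation (s + 243) = 1 := by
    rw [Valuation.map_add_eq_of_lt_left _ (by rw [hs, v243]; exact th_lt1 h3 (by norm_num)), hs]
  have e4 : V.valuation (q3 s) = 1 := by
    have f1 : V.valuation (27 - 18 * s) < 1 := by
      refine Valuation.map_sub_lt _ ?_ ?_
      · rw [v27]
        exact th_lt1 h3 (by norm_num)
      · rw [map_mul, hs, mul_one]
        exact lt_of_le_of_lt v18 (th_lt1 h3 (by norm_num))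
    have f2 : V.valuation (s ^ 2) = 1 := by rw [map_pow, hs, one_pow]
    have f3 : q3 s = s ^ 2 - (27 - 18 * s) := by unfold q3; ring
    rw [f3, Valuation.map_sub_eq_of_lt_left _ (by rw [f2]; exact f1), f2]
  have e5 : V.valuation (s + 9) = 1 := by
    rw [Valuation.map_add_eq_of_lt_left _ (by rw [hs, v9]; exact th_lt1 h3 (by norm_num)), hs]
  refine ⟨sq_inj ?_, e4, e5⟩
  rw [← map_pow, hmu, map_div₀, map_mul, map_mul, e1, e2, e3, e4]
  simp

/-- the parameter is small -/
lemma small_case (h3 : V.valuation 3 < 1) {s mu : ℂ} (hs : V.valuation s = V.valuation 3 ^ 6)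
    (hmu : mu ^ 2 = (s + 3) * r3 s / ((s + 243) * q3 s)) :
    V.valuation mu = V.valuation 3 ∧ V.valuation (q3 s) = V.valuation 3 ^ 3 ∧
      V.valuation (s + 9) = V.valuation 3 ^ 2 ∧ V.valuation (s + 21) ≤ V.valuation 3 := by
  have e1 : V.valuation (s + 3) = V.valuation 3 := by
    rw [Valuation.map_add_eq_of_lt_right _]
    rw [hs]
    have := th_lt h3 (show 1 < 6 by norm_num)
    rwa [pow_one] at this
  have e2 : V.valuation (r3 s) = V.valuation 3 ^ 9 := by
    have f1 : V.valuation (s ^ 2 - 486 * s) < V.valuation 19683 := by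
      rw [v19683]
      refine Valuation.map_sub_lt _ ?_ ?_
      · rw [map_pow, hs, ← pow_mul]
        exact th_lt h3 (by norm_num)
      · rw [map_mul, hs]
        calc V.valuation 486 * V.valuation 3 ^ 6 ≤ V.valuation 3 ^ 5 * V.valuation 3 ^ 6 := by
              gcongr
              exact v486
          _ = V.valuation 3 ^ 11 := by rw [← pow_add]
          _ < V.valuation 3 ^ 9 := th_lt h3 (by norm_num)
    unfold r3
    rw [Valuation.map_sub_eq_of_lt_right _ f1, v19683]
  have e3 : V.valuation (s + 243) = V.valuation 3 ^ 5 := by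
    rw [Valuation.map_add_eq_of_lt_right _ (by rw [hs, v243]; exact th_lt h3 (by norm_num)), v243]
  have e4 : V.valuation (q3 s) = V.valuation 3 ^ 3 := by
    have f1 : V.valuation (s ^ 2 + 18 * s) < V.valuation 27 := by
      rw [v27]
      refine Valuation.map_add_lt _ ?_ ?_
      · rw [map_pow, hs, ← pow_mul]
        exact th_lt h3 (by norm_num)
      · rw [map_mul, hs]
        calc V.valuation 18 * V.valuation 3 ^ 6 ≤ V.valuation 3 ^ 2 * V.valuation 3 ^ 6 := by
              gcongr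
              exact v18
          _ = V.valuation 3 ^ 8 := by rw [← pow_add]
          _ < V.valuation 3 ^ 3 := th_lt h3 (by norm_num)
    unfold q3
    rw [Valuation.map_sub_eq_of_lt_right _ f1, v27]
  have e5 : V.valuation (s + 9) = V.valuation 3 ^ 2 := by
    rw [Valuation.map_add_eq_of_lt_right _ (by rw [hs, v9]; exact th_lt h3 (by norm_num)), v9]
  have e6 : V.valuation (s + 21) ≤ V.valuation 3 := by
    refine Valuation.map_add_le _ ?_ v21
    rw [hs]
    have := th_lt h3 (show 1 < 6 by norm_num)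
    rw [pow_one] at this
    exact this.le
  refine ⟨sq_inj ?_, e4, e5, e6⟩
  rw [← map_pow, hmu, map_div₀, map_mul, map_mul, e1, e2, e3, e4, ← pow_succ', ← pow_add,
    div_eq_iff (pow_ne_zero _ th_ne), ← pow_add]

end val

section ideals

variable {A B : ℤ}

/-- two primes of norm three -/
lemma eq_of_le {P Q : Ideal (OO A B)} (hP : IsPN 3 P) (hQ : IsPN 3 Q) (h : Q ≤ P) : P = Q := by
  have hc : Nat.card (OO A B ⧸ Q) = 3 := hQ.norm
  have hf : Finite (OO A B ⧸ Q) := Nat.finite_of_card_ne_zero (by rw [hc]; norm_num)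
  have hp := hQ.prime
  have h1 : IsField (OO A B ⧸ Q) := Finite.isField_of_domain (OO A B ⧸ Q)
  have h2 : Q.IsMaximal := Ideal.Quotient.maximal_of_isField Q h1
  exact (h2.eq_of_le hP.prime.ne_top h).symm

end ideals

/-- the data of one chain -/
structure Chain {A B : ℤ} (R : Ideal (OO A B)) (L : PeriodPair) (h : ℕ) (y : OO A B)
    (N : ℕ → PeriodPair) (mu w : ℕ → ℂ) : Prop where
  hpos : 0 < h
  pow : R ^ h = sp y
  zero : N 0 = L
  nl : ∀ i, (N i).g₂ = -18 * (N i).g₃
  isq : ∀ i, IsQ R (N i) (N (i + 1)) (mu i)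
  three : ∀ i, Three (N i) (N (i + 1)) (mu i) (w i)
  rec_ : Rec3 (fun i => par3 (N i) (w i))
  per : ∀ i, par3 (N (i + h)) (w (i + h)) = par3 (N i) (w i)
  prod : ∏ i ∈ Finset.range h, mu i = emb y ∨ ∏ i ∈ Finset.range h, mu i = -emb y

lemma Chain.val {A B : ℤ} {R : Ideal (OO A B)} {L : PeriodPair} {h : ℕ} {y : OO A B}
    {N : ℕ → PeriodPair} {mu w : ℕ → ℂ} (H : Chain R L h y N mu w) (V : ValuationSubring ℂ) :
    ∏ i ∈ Finset.range h, V.valuation (mu i) = V.valuation (emb y) := by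
  rw [← map_prod]
  rcases H.prod with h1 | h1
  · rw [h1]
  · rw [h1, Valuation.map_neg]

/-- a quotient by a torsion point in `Three` form -/
lemma three_of_isQ {A B : ℤ} {R : Ideal (OO A B)} {L N M : PeriodPair} {mu mu' w : ℂ}
    (h1 : IsQ R L N mu) (h2 : Three L N mu w) (h3 : IsQ R L M mu') : Three L M mu' w where
  mu_ne := h3.1
  u_ne := h2.u_ne
  u3 := h2.u3
  ker := fun z => by rw [h3.2 z, ← h1.2 z, h2.ker z]

/-- points killed by `R` -/
lemma tor_par {A B : ℤ} {R : Ideal (OO A B)} {L N : PeriodPair} {mu w u : ℂ}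
    (h1 : IsQ R L N mu) (h2 : Three L N mu w) (hu : u ∉ L.lattice) (ht : Tor R L u) :
    xn L u = xn L w := by
  have h3 : mu * u ∈ N.lattice := (h1.2 u).2 ht
  rcases (h2.ker u).1 h3 with h4 | h4 | h4
  · exact absurd h4 hu
  · have h5 : L.weierstrassP u = L.weierstrassP w := by
      have := L.weierstrassP_add_coe w ⟨u - w, h4⟩
      rw [← this]
      congr 1
      simp
    unfold xn
    rw [h5]
  · have h5 : L.weierstrassP u = L.weierstrassP w := by
      have := L.weierstrassP_add_coe (-w) ⟨u + w, h4⟩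
      rw [PeriodPair.weierstrassP_neg] at this
      rw [← this]
      congr 1
      simp
    unfold xn
    rw [h5]

end GD3

open GD3 in
theorem t3_GD3 (h1 : S3_CHN) (h2 : S3_CH3) (h3 : S3_NRM) (h4 : S3_PAR) : S3_GD3 := by
  intro A B hC h8 LF P Q V hP hQ hPQ hV b L om hL
  have hth := hV.three
  -- the chains
  have key : ∀ R : Ideal (OO A B), IsPN 3 R → ∃ (h : ℕ) (y : OO A B) (N : ℕ → PeriodPair)
      (mu w : ℕ → ℂ), Chain R L h y N mu w := by
    intro R hR
    obtain ⟨h, y, N, mu, w, c1, c2, c3, c4, c5, c6, -, -, c9, c10, c11⟩ :=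
      h2 A B hC h8 LF R hR b L om hL
    refine ⟨h, y, N, mu, w, c1, c2, c3, fun i => ?_, c5, c6, c9, c10, c11⟩
    obtain ⟨b', om', hb⟩ := c4 i
    exact hb.nrm
  -- the formula for the multipliers
  have hmuf : ∀ (R : Ideal (OO A B)) (h : ℕ) (y : OO A B) (N : ℕ → PeriodPair) (mu w : ℕ → ℂ),
      Chain R L h y N mu w → ∀ i, mu i ^ 2 = (par3 (N i) (w i) + 3) * r3 (par3 (N i) (w i)) /
        ((par3 (N i) (w i) + 243) * q3 (par3 (N i) (w i))) := by
    intro R h y N mu w H i
    exact (h3 _ _ _ _ (H.three i) (H.nl i) (H.nl (i + 1))).2.2.2.1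
  -- the prime P
  have hPc : ∀ (h : ℕ) (y : OO A B) (N : ℕ → PeriodPair) (mu w : ℕ → ℂ),
      Chain P L h y N mu w → ∀ i, V.valuation (par3 (N i) (w i)) = V.valuation 3 ^ 6 := by
    intro h y N mu w H
    rcases h1 V _ h hth H.rec_ H.hpos H.per with h5 | h5
    · exfalso
      have h6 : ∏ i ∈ Finset.range h, V.valuation (mu i) = 1 :=
        Finset.prod_eq_one fun i _ => (unit_case hth (h5 i) (hmuf P h y N mu w H i)).1
      rw [H.val V] at h6
      have h7 : y ∈ P := by
        have h8 : y ∈ P ^ h := by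
          rw [H.pow]
          exact Ideal.mem_span_singleton_self y
        exact Ideal.pow_le_self H.hpos.ne' h8
      exact (hV.lt y h7).ne h6
    · exact h5
  have hQc : ∀ (h : ℕ) (y : OO A B) (N : ℕ → PeriodPair) (mu w : ℕ → ℂ),
      Chain Q L h y N mu w → ∀ i, V.valuation (par3 (N i) (w i)) = 1 := by
    intro h y N mu w H
    rcases h1 V _ h hth H.rec_ H.hpos H.per with h5 | h5
    · exact h5
    · exfalso
      have h6 : ∏ i ∈ Finset.range h, V.valuation (mu i) = V.valuation 3 ^ h := by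
        rw [Finset.prod_congr rfl fun i _ => (small_case hth (h5 i) (hmuf Q h y N mu w H i)).1,
          Finset.prod_const, Finset.card_range]
      rw [H.val V] at h6
      have h7 : y ∉ P := by
        intro hy
        have h8 : Q ^ h ≤ P := by
          rw [H.pow, Ideal.span_singleton_le_iff_mem]
          exact hy
        exact hPQ (eq_of_le hP hQ (hP.prime.le_of_pow_le h8))
      rw [hV.one y h7] at h6
      exact (th_lt1 hth H.hpos).ne h6.symm
  obtain ⟨hp, yp, Np, mup, wp, HP⟩ := key P hP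
  obtain ⟨hq, yq, Nq, muq, wq, HQ⟩ := key Q hQ
  have sP := hPc _ _ _ _ _ HP 0
  have sQ := hQc _ _ _ _ _ HQ 0
  have nL : L.g₂ = -18 * L.g₃ := hL.nrm
  have qP := HP.isq 0
  have qQ := HQ.isq 0
  have tP := HP.three 0
  have tQ := HQ.three 0
  have mP := hmuf _ _ _ _ _ _ HP 0
  have mQ := hmuf _ _ _ _ _ _ HQ 0
  rw [HP.zero] at sP qP tP mP
  rw [HQ.zero] at sQ qQ tQ mQ
  have NP := h4 L (wp 0) tP.u_ne tP.u3 nL
  have NQ := h4 L (wq 0) tQ.u_ne tQ.u3 nL
  have uQ := unit_case hth sQ mQ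
  have uP := small_case hth sP mP
  have hk : V.valuation (kap L) = 1 := by
    rw [NQ.2.2.2.2.2.2, map_div₀, map_pow, sQ, uQ.2.1]
    simp
  refine ⟨hk, ?_, fun u hu ht => ?_, fun u hu ht => ?_, fun b' M om' mu hM hq => ?_,
    fun b' M om' mu hM hq => ?_⟩
  · have e1 : V.valuation (1728 * kap L) < 1 := by
      rw [map_mul, hk, mul_one, show (1728 : ℂ) = 3 ^ 3 * ((64 : ℕ) : ℂ) by norm_num]
      exact lt_of_le_of_lt (v_mul_le 3 64) (th_lt1 hth (by norm_num))
    rw [Valuation.map_add_eq_of_lt_left _ (by rwa [map_one]), map_one]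
  · have e0 := tor_par qP tP hu ht
    have e1 : par3 L u = par3 L (wp 0) := by
      unfold par3
      rw [e0]
    have e2 : V.valuation (3 * xn L (wp 0) + 1) ≤ V.valuation 3 ^ 4 := by
      have e3 : 3 * xn L (wp 0) + 1 =
          par3 L (wp 0) * (par3 L (wp 0) + 21) / q3 (par3 L (wp 0)) := by
        have e4 := NP.2.1
        rw [NP.2.2.2.2.2.1]
        field_simp
        unfold q3
        ring
      rw [e3, map_div₀, map_mul, sP, uP.2.1, div_le_iff₀ (pow_pos th_pos _), ← pow_add]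
      calc V.valuation 3 ^ 6 * V.valuation (par3 L (wp 0) + 21) ≤
            V.valuation 3 ^ 6 * V.valuation 3 := by
              gcongr
              exact uP.2.2.2
        _ = V.valuation 3 ^ 7 := by rw [← pow_succ]
    rw [e1, e0]
    refine ⟨sP, ?_, e2⟩
    rw [NP.2.2.2.2.2.1, map_div₀, uP.2.1, uP.2.2.1, div_mul_eq_mul_div, ← pow_succ,
      div_self (pow_ne_zero _ th_ne)]
  · have e0 := tor_par qQ tQ hu ht
    have e1 : par3 L u = par3 L (wq 0) := by
      unfold par3
      rw [e0]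
    rw [e1, e0]
    refine ⟨sQ, ?_⟩
    rw [NQ.2.2.2.2.2.1, map_div₀, uQ.2.1, uQ.2.2, div_one]
  · have e1 := three_of_isQ qP tP hq
    exact (small_case hth sP (h3 _ _ _ _ e1 nL hM.nrm).2.2.2.1).1
  · have e1 := three_of_isQ qQ tQ hq
    exact (unit_case hth sQ (h3 _ _ _ _ e1 nL hM.nrm).2.2.2.1).1

end

end Pool.Agent.MUX3
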