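import Pool.Agent.MUX.StR3
import Pool.Agent.MUX.R2_NRM

/-!
# MUX, block R3, module IN3: different lattices have incongruent kappa modulo V   (helper18)
-/

set_option autoImplicit false

namespace Pool.Agent.MUX3

open _root_.MU3 Pool.Agent.MU3A Pool.Agent.MU3B Pool.Agent.MUX Pool.Agent.MUXU Pool.Agent.MUX2
open WeierstrassCurve

noncomputable section

/-- `1/κ = J(s) - 1728` -/
theorem in3_inv (k s : ℂ) (s0 : s ≠ 0) (sq : q3 s ≠ 0)
    (hk : k = s / q3 s ^ 2) : (s + 27) * (s + 3) ^ 3 / s = 1 / k + 1728 := by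
  rw [hk]
  have e : (s + 27) * (s + 3) ^ 3 = q3 s ^ 2 + 1728 * s := by
    unfold q3
    ring
  rw [e]
  field_simp

theorem t3_IN3 (h1 : S3_CH3) (h2 : S3_GD3) (h3 : S3_CIN) (h4 : Su_DET) (h5 : S3_PAR) :
    S3_IN3 := by
  intro A B hc h8 hL P Q V hP hQ hPQ hV b b' L L' om om' hn hn' hlt
  have key : ∀ (b : Ideal (OO A B)) (L : PeriodPair) (om : ℂ), IsNL b L om →
      ∃ (h : ℕ) (s : ℕ → ℂ), 0 < h ∧ Rec3 s ∧ (∀ i, s (i + h) = s i) ∧
        (∀ i, V.valuation (s i) = 1) ∧ kap L ≠ 0 ∧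
        kap L = s 0 / q3 (s 0) ^ 2 ∧
        (s 0 + 27) * (s 0 + 3) ^ 3 / s 0 = 1 / kap L + 1728 := by
    intro b L om hn
    obtain ⟨h, y, N, mu, u, hpos, -, hN0, hNL, -, hThree, hTor, -, hRec, hper, -⟩ :=
      h1 A B hc h8 hL Q hQ b L om hn
    refine ⟨h, fun i => par3 (N i) (u i), hpos, hRec, hper, ?_, ?_⟩
    · intro i
      obtain ⟨b₁, om₁, hb₁⟩ := hNL i
      exact ((h2 A B hc h8 hL P Q V hP hQ hPQ hV b₁ (N i) om₁ hb₁).2.2.2.1 (u i)
        (hThree i).u_ne (hTor i)).1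
    · have hw := hThree 0
      rw [hN0] at hw
      obtain ⟨s0, sq, -, -, k0, -, hk⟩ := h5 L (u 0) hw.u_ne hw.u3 hn.nrm
      refine ⟨k0, ?_, ?_⟩
      · show kap L = par3 (N 0) (u 0) / q3 (par3 (N 0) (u 0)) ^ 2
        rw [hN0]
        exact hk
      · show (par3 (N 0) (u 0) + 27) * (par3 (N 0) (u 0) + 3) ^ 3 / par3 (N 0) (u 0) =
          1 / kap L + 1728
        rw [hN0]
        exact in3_inv _ _ s0 sq hk
  obtain ⟨h, s, hpos, hRec, hper, hu, hk0, hk, hJ⟩ := key b L om hn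
  obtain ⟨h', s', hpos', hRec', hper', hu', hk0', hk', hJ'⟩ := key b' L' om' hn'
  have hvk := (h2 A B hc h8 hL P Q V hP hQ hPQ hV b L om hn).1
  have hvk' := (h2 A B hc h8 hL P Q V hP hQ hPQ hV b' L' om' hn').1
  have hval : V.valuation ((s 0 + 27) * (s 0 + 3) ^ 3 / s 0 -
      (s' 0 + 27) * (s' 0 + 3) ^ 3 / s' 0) < 1 := by
    rw [hJ, hJ']
    have e : 1 / kap L + 1728 - (1 / kap L' + 1728) =
        -(kap L - kap L') / (kap L * kap L') := by
      field_simp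
      ring
    rw [e, map_div₀, Valuation.map_neg, map_mul, hvk, hvk', mul_one, div_one]
    exact hlt
  have hs : s 0 = s' 0 :=
    h3 V s s' h h' hV.three hRec hRec' hpos hpos' hper hper' hu hu' hval
  have hkk : kap L = kap L' := by rw [hk, hk', hs]
  obtain ⟨-, a2, a3, -, -⟩ := nrm_kap L hn.nrm
  obtain ⟨-, b2, b3, -, -⟩ := nrm_kap L' hn'.nrm
  exact h4 L L' (by rw [a2, b2, hkk]) (by rw [a3, b3, hkk])

end

end Pool.Agent.MUX3
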