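import Pool.Agent.MUX.StR3
import Pool.Agent.MU3.BAll

/-!
# MUX, block R3: module JEQ (helper83; model: `R2_JEQ.lean` of helper80)
-/

set_option autoImplicit false

namespace Pool.Agent.MUX3

open _root_.MU3 Pool.Agent.MU3A Pool.Agent.MU3B Pool.Agent.MUX Pool.Agent.MUXU Pool.Agent.MUX2
open WeierstrassCurve

noncomputable section

theorem t3_JEQ (h1 : S3_PAR) : S3_JEQ := by
  intro L u u' hu h3u hu' h3u' hne hne' hg
  obtain ⟨s0, q0, -, -, k0, hx, hk⟩ := h1 L u hu h3u hg
  obtain ⟨s0', q0', -, -, -, hx', hk'⟩ := h1 L u' hu' h3u' hg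
  have hdiff : par3 L u ≠ par3 L u' := by
    intro he
    have e1 : L.weierstrassP u' = L.weierstrassP u := by
      have e2 : xn L u' = xn L u := by rw [hx, hx', he]
      unfold xn at e2
      exact sub_left_injective e2
    rcases b_NEQ L u u' hu hu' e1 with h | h
    · exact hne h
    · exact hne' h
  generalize par3 L u = s at *
  generalize par3 L u' = s' at *
  have hcross : s * q3 s' ^ 2 = s' * q3 s ^ 2 := by
    have e : s / q3 s ^ 2 = s' / q3 s' ^ 2 := by
      rw [← hk, ← hk']
    rwa [div_eq_div_iff (pow_ne_zero _ q0) (pow_ne_zero _ q0')] at e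
  unfold q3 at hcross
  have hz : (s - s') * (729 - s * s' * (s ^ 2 + s * s' + s' ^ 2 + 36 * (s + s') + 270)) = 0 := by
    linear_combination hcross
  rcases mul_eq_zero.1 hz with h | h
  · exact absurd (sub_eq_zero.1 h) hdiff
  · exact (sub_eq_zero.1 h).symm

end

end Pool.Agent.MUX3
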