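import Pool.Agent.MUX.StR3
import Pool.Agent.MUX.R2_MU2

/-!
# MUX, block R3: module MU3, multipliers of ideals prime to `P` are units at the places above 3 and `P`

Adapted from `R2_MU2.lean` (helper12) by helper55.
-/

set_option autoImplicit false

namespace Pool.Agent.MUX3

open _root_.MU3 Pool.Agent.MU3A Pool.Agent.MU3B Pool.Agent.MUX Pool.Agent.MUXU Pool.Agent.MUX2
open WeierstrassCurve

open Pool.Agent.MUX2.Mu2 in
theorem t3_MU3 (h1 : S3_GD3) (h2 : S2_GR2) (h3 : S2_IT2) : S3_MU3 := by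
  intro A B hC h8 hLF P Q V hP hQ hPQ hV b b' a L M om om' mu hL hM ha hcop hq
  have hCQ : CQ A B := hC.toCQ
  have : IsDomain (OO A B) := isDom hCQ
  have := hP.prime
  obtain ⟨h, x, hh, hx, hax⟩ := hLF.fin a ha
  have hh1 : h - 1 + 1 = h := Nat.sub_add_cancel hh
  have hex : emb x ≠ 0 := fun h0 => hx ((em_eq_zero hCQ x).1 h0)
  have hxP : x ∉ P := by
    intro h0
    have h4 : a ^ h ≤ P := by
      rw [hax]
      exact (Ideal.span_singleton_le_iff_mem _).2 h0
    have h5 : a ≤ P := Ideal.IsPrime.le_of_pow_le h4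
    have h6 := Ideal.isCoprime_iff_sup_eq.1 hcop
    rw [sup_eq_right.2 h5] at h6
    exact hP.prime.ne_top h6
  have hvx : V.valuation (emb x) = 1 := hV.one x hxP
  -- the lattice M belongs to the ideal a^(h-1) b
  have hmu := hq.1
  have hMI : IsNL (a ^ (h - 1) * b) M (mu * om / emb x) :=
    { b_ne := mul_ne_zero (pow_ne_zero _ ha) hL.b_ne
      om_ne := div_ne_zero (mul_ne_zero hmu hL.om_ne) hex
      mem := by
        intro z
        have h4 : z = mu * (z / mu) := by field_simp
        have h5 := hq.2 (z / mu)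
        rw [← h4] at h5
        rw [h5, isq_iff hCQ a b h x L om hh hx hax hL.toIsLI]
        constructor
        · rintro ⟨u, hu, hu'⟩
          refine ⟨u, hu, ?_⟩
          field_simp at hu' ⊢
          linear_combination hu'
        · rintro ⟨u, hu, hu'⟩
          refine ⟨u, hu, ?_⟩
          rw [hu']
          field_simp
      nrm := hM.nrm }
  -- the chain
  have hch : ∀ i : ℕ, ∃ p : PeriodPair × ℂ, IsNL (a ^ ((h - 1) * i) * b) p.1 p.2 ∧
      (i = 0 → p = (L, om)) ∧ (i = 1 → p = (M, mu * om / emb x)) := by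
    intro i
    by_cases hi0 : i = 0
    · refine ⟨(L, om), ?_, fun _ => rfl, fun hi1 => absurd hi1 (by omega)⟩
      rw [hi0, mul_zero, pow_zero, Ideal.one_eq_top, Ideal.top_mul]
      exact hL
    by_cases hi1 : i = 1
    · refine ⟨(M, mu * om / emb x), ?_, fun h0 => absurd h0 hi0, fun _ => rfl⟩
      rw [hi1, mul_one]
      exact hMI
    · obtain ⟨L', om', h'⟩ := hLF.ex (a ^ ((h - 1) * i) * b)
        (mul_ne_zero (pow_ne_zero _ ha) hL.b_ne)
      exact ⟨(L', om'), h', fun h0 => absurd h0 hi0, fun h0 => absurd h0 hi1⟩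
  choose p hp hp0 hp1 using hch
  have hgr : ∀ i, ∃ (W : Affine ℂ) (ξ : ℂ →+ W.Point), GRG V W (p i).1
      (fun z => (p i).1.weierstrassP z - 1 / 12) (y2 (p i).1) ξ := by
    intro i
    obtain ⟨g1, g2, -⟩ := h1 A B hC h8 hLF P Q V hP hQ hPQ hV _ _ _ (hp i)
    obtain ⟨ξ, hξ⟩ := h2 V (p i).1 (hp i).nrm g1 g2
    exact ⟨_, ξ, hξ⟩
  have hstep : ∀ i, V.valuation (p (i + 1)).2 ≤ V.valuation (p i).2 := by
    intro i
    have hmi : (p (i + 1)).2 * emb x / (p i).2 ≠ 0 :=
      div_ne_zero (mul_ne_zero (hp (i + 1)).om_ne hex) (hp i).om_ne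
    have hI : Isg (p i).1 (p (i + 1)).1 ((p (i + 1)).2 * emb x / (p i).2) := by
      intro w hw
      obtain ⟨c, hc, hc'⟩ := ((hp i).mem w).1 hw
      refine ((hp (i + 1)).mem _).2 ⟨x * c, ?_, ?_⟩
      · have h4 : a ^ ((h - 1) * (i + 1)) * b = a ^ (h - 1) * (a ^ ((h - 1) * i) * b) := by
          rw [← mul_assoc, ← pow_add]
          congr 2
          ring
        rw [h4]
        refine Ideal.mul_mem_mul ?_ hc
        have h5 : x ∈ a ^ h := by
          rw [hax]
          exact Ideal.mem_span_singleton_self x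
        exact Ideal.pow_le_pow_right (by omega) h5
      · rw [hc', em_mul hCQ]
        have := (hp i).om_ne
        field_simp
    have h4 := (h3 V (p i).1 (p (i + 1)).1 (1 / 12) (1 / 12) _ (y2 (p i).1) (y2 (p (i + 1)).1)
      (hgr i) (hgr (i + 1)) hmi hI).1
    rw [map_div₀, map_mul, hvx, mul_one] at h4
    have h5 : V.valuation (p i).2 ≠ 0 := (V.valuation.ne_zero_iff).2 (hp i).om_ne
    exact (div_le_one₀ (zero_lt_iff.2 h5)).1 h4
  have hanti : Antitone fun i => V.valuation (p i).2 := antitone_nat_of_succ_le hstep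
  have hclose : V.valuation (p h).2 = V.valuation om := by
    have h4 : sp (1 : OO A B) * (a ^ ((h - 1) * h) * b) = sp (x ^ (h - 1)) * b := by
      rw [mul_comm (h - 1) h, pow_mul, hax, Ideal.span_singleton_pow]
      show Ideal.span {1} * (Ideal.span {x ^ (h - 1)} * b) = Ideal.span {x ^ (h - 1)} * b
      rw [Ideal.span_singleton_one, Ideal.top_mul]
    have h5 := (hLF.eq _ _ _ _ _ _ 1 (x ^ (h - 1)) (hp h) hL one_ne_zero (pow_ne_zero _ hx) h4).2
    have h6 : V.valuation (emb (1 : OO A B)) = 1 :=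
      hV.one 1 fun h0 => hP.prime.ne_top ((Ideal.eq_top_iff_one _).2 h0)
    have h7 : V.valuation (emb (x ^ (h - 1))) = 1 :=
      hV.one _ fun h0 => hxP (hP.prime.mem_of_pow_mem _ h0)
    rcases h5 with h5 | h5
    · have h8 := congrArg V.valuation h5
      rw [map_mul, map_mul, h6, h7, mul_one, mul_one] at h8
      exact h8.symm
    · have h8 := congrArg V.valuation h5
      rw [Valuation.map_neg, map_mul, map_mul, h6, h7, mul_one, mul_one] at h8
      exact h8.symm
  have e0 : p 0 = (L, om) := hp0 0 rfl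
  have e1 : p 1 = (M, mu * om / emb x) := hp1 1 rfl
  have h4 : V.valuation (p 1).2 = V.valuation om := by
    refine le_antisymm ?_ ?_
    · have := hanti (Nat.zero_le 1)
      simpa only [e0] using this
    · rw [← hclose]
      exact hanti (show 1 ≤ h from hh)
  rw [e1, map_div₀, map_mul, hvx, div_one] at h4
  have h5 : V.valuation om ≠ 0 := (V.valuation.ne_zero_iff).2 hL.om_ne
  exact mul_right_cancel₀ h5 (by rw [h4, one_mul])

end Pool.Agent.MUX3
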