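import Pool.Agent.MUX.StR3
import Pool.Agent.MUX.R2_NRM

/-!
# MUX, block R3, module NRM (helper83): normalised lattices and points of order three
-/

set_option autoImplicit false

namespace Pool.Agent.MUX3

open _root_.MU3 Pool.Agent.MU3A Pool.Agent.MU3B Pool.Agent.MUX Pool.Agent.MUXU Pool.Agent.MUX2
open WeierstrassCurve

noncomputable section

theorem t3_NRM (h1 : S3_VEL) (h2 : S3_PAR) : S3_NRM := by
  intro L M mu u hT hL hM
  obtain ⟨hs, hq, hs3, hs27, hk, hx, hkap⟩ := h2 L u hT.u_ne hT.u3 hL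
  obtain ⟨-, hg2, hg3, hg2n, -⟩ := nrm_kap L hL
  obtain ⟨-, -, -, hM2, hM3⟩ := nrm_kap M hM
  obtain ⟨hv2, hv3, hv⟩ := h1 L M mu u hT
  have hmu := hT.mu_ne
  obtain ⟨s, hsd⟩ : ∃ s, s = par3 L u := ⟨_, rfl⟩
  obtain ⟨q, hqd⟩ : ∃ q, q = q3 s := ⟨_, rfl⟩
  obtain ⟨r, hrd⟩ : ∃ r, r = r3 s := ⟨_, rfl⟩
  rw [← hsd] at hs hq hs3 hs27 hx hkap
  rw [← hqd] at hq hx hkap
  have hqe : q = s ^ 2 + 18 * s - 27 := hqd
  have hre : r = s ^ 2 - 486 * s - 19683 := hrd
  have he : L.weierstrassP u = (s + 3) * (s + 27) / (12 * q) := by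
    have h0 : L.weierstrassP u = xn L u + 1 / 12 := by
      unfold xn
      ring
    rw [h0, hx]
    field_simp
    rw [hqe]
    ring
  have hg : L.g₂ = (s + 27) * (s + 3) ^ 3 / (12 * q ^ 2) := by
    rw [hg2, hkap]
    field_simp
    rw [hqe]
    ring
  have hgg : L.g₃ = -((s + 27) * (s + 3) ^ 3) / (216 * q ^ 2) := by
    have h0 : L.g₃ = -L.g₂ / 18 := by
      rw [hL]
      ring
    rw [h0, hg]
    field_simp
    ring
  have hA : mu ^ 4 * M.g₂ = (s + 3) ^ 2 * (s + 27) * (s + 243) / (12 * q ^ 2) := by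
    rw [hv2, he, hg]
    field_simp
    ring
  have hB : mu ^ 6 * M.g₃ = -((s + 3) ^ 3 * (s + 27) * r) / (216 * q ^ 3) := by
    rw [hv3, he, hg, hgg]
    field_simp
    rw [hqe, hre]
    ring
  have hs243 : s + 243 ≠ 0 := by
    intro h0
    apply mul_ne_zero (pow_ne_zero 4 hmu) hM2
    rw [hA, h0]
    simp
  have hr : r ≠ 0 := by
    intro h0
    apply mul_ne_zero (pow_ne_zero 6 hmu) hM3
    rw [hB, h0]
    simp
  have hmu2 : mu ^ 2 = (s + 3) * r / ((s + 243) * q) := by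
    have h5 : mu ^ 2 * (mu ^ 4 * M.g₂) = -18 * (mu ^ 6 * M.g₃) := by
      rw [hM]
      ring
    rw [hA, hB] at h5
    have h6 : (s + 3) ^ 2 * (s + 27) * (s + 243) / (12 * q ^ 2) ≠ 0 :=
      div_ne_zero (mul_ne_zero (mul_ne_zero (pow_ne_zero 2 hs3) hs27) hs243)
        (mul_ne_zero (by norm_num) (pow_ne_zero 2 hq))
    apply mul_right_cancel₀ h6
    rw [h5]
    field_simp
    ring
  have hM2' : M.g₂ = (s + 27) * (s + 243) ^ 3 / (12 * r ^ 2) := by
    have h7 : (mu ^ 2) ^ 2 * M.g₂ = mu ^ 4 * M.g₂ := by ring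
    rw [hA, hmu2] at h7
    have h8 : ((s + 3) * r / ((s + 243) * q)) ^ 2 ≠ 0 :=
      pow_ne_zero 2 (div_ne_zero (mul_ne_zero hs3 hr) (mul_ne_zero hs243 hq))
    apply mul_left_cancel₀ h8
    rw [h7]
    field_simp
  rw [← hsd, ← hrd, ← hqd]
  refine ⟨hs243, hr, ?_, hmu2, fun z hz => ?_⟩
  · unfold kap
    rw [hM2']
    field_simp
    rw [hre]
    ring
  · obtain ⟨hne, hp, -⟩ := hv z hz
    have h9 : xn L z - xn L u = L.weierstrassP z - L.weierstrassP u := by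
      unfold xn
      ring
    have ht : 6 * L.weierstrassP u ^ 2 - L.g₂ / 2 = (s + 3) ^ 2 * (s + 27) / q ^ 2 := by
      rw [he, hg]
      field_simp
      ring
    have hw : 4 * L.weierstrassP u ^ 3 - L.g₂ * L.weierstrassP u - L.g₃ =
        (s + 3) ^ 3 * (s + 27) / q ^ 3 := by
      rw [he, hg, hgg]
      field_simp
      rw [hqe]
      ring
    refine ⟨by rw [h9]; exact hne, ?_⟩
    rw [h9, ← ht, ← hw]
    have h10 : mu ^ 2 * xn M (mu * z) = mu ^ 2 * M.weierstrassP (mu * z) - mu ^ 2 / 12 := by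
      unfold xn
      ring
    rw [h10, hp]
    unfold xn
    ring

end

end Pool.Agent.MUX3
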