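import Pool.Agent.MUX.StR3
import Pool.Agent.MUX.R2_NRM

/-!
# MUX, block R3, module PAR (helper83): the parameter of a point of order three
-/

set_option autoImplicit false

namespace Pool.Agent.MUX3

open _root_.MU3 Pool.Agent.MU3A Pool.Agent.MU3B Pool.Agent.MUX Pool.Agent.MUXU Pool.Agent.MUX2
open WeierstrassCurve

noncomputable section

theorem t3_PAR (h1 : S3_TRI) : S3_PAR := by
  intro L u hu h3u hn
  obtain ⟨hk, hg2, hg3, hg2n, -⟩ := nrm_kap L hn
  obtain ⟨-, hpsi⟩ := h1 L u hu h3u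
  have hk1 : 1 + 1728 * kap L ≠ 0 := by
    intro h0
    apply hg2n
    rw [hg2, h0, zero_div]
  have he : L.weierstrassP u = xn L u + 1 / 12 := by
    unfold xn
    ring
  rw [he, hg2, hg3] at hpsi
  obtain ⟨x, hx⟩ : ∃ x, x = xn L u := ⟨_, rfl⟩
  obtain ⟨k, hkk⟩ : ∃ k, k = kap L := ⟨_, rfl⟩
  rw [← hx, ← hkk] at hpsi
  rw [← hkk] at hk hk1
  -- the polynomial
  have hp : 3 * x ^ 4 + x ^ 3 - 216 * k * x ^ 2 - 12 * k * x - k - 1296 * k ^ 2 = 0 := by
    linear_combination (1 / 4 : ℂ) * hpsi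
  -- (1)
  have hN : x ^ 3 - k ≠ 0 := by
    intro h0
    have h1 : k = x ^ 3 := by linear_combination -h0
    rw [h1] at hp hk hk1
    have hx0 : x ≠ 0 := by
      rintro rfl
      exact hk (by norm_num)
    have h2 : x ^ 4 * (1 + 12 * x) ^ 2 = 0 := by
      linear_combination (-1 / 9 : ℂ) * hp
    have h3 : 1 + 12 * x = 0 := by
      rcases mul_eq_zero.1 h2 with h | h
      · exact absurd (pow_eq_zero_iff (by norm_num) |>.1 h) hx0
      · exact pow_eq_zero_iff (by norm_num) |>.1 h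
    have h4 : x = -1 / 12 := by linear_combination (1 / 12 : ℂ) * h3
    apply hk1
    rw [h4]
    norm_num
  -- (3)
  have hM : x ^ 2 + 12 * k ≠ 0 := by
    intro h0
    have h2 : k * (1728 * k - 24 * x - 1) = 0 := by
      linear_combination hp - (3 * x ^ 2 + x - 252 * k) * h0
    have h3 : 1728 * k - 24 * x - 1 = 0 := by
      rcases mul_eq_zero.1 h2 with h | h
      · exact absurd h hk
      · exact h
    have h4 : (1 + 1728 * k) ^ 2 = 0 := by
      linear_combination 576 * h0 + (1728 * k + 24 * x - 1) * h3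
    exact hk1 (pow_eq_zero_iff (by norm_num) |>.1 h4)
  obtain ⟨s, hs⟩ : ∃ s, s = par3 L u := ⟨_, rfl⟩
  have hs' : s = 9 * k * (12 * x + 1) / (x ^ 3 - k) := by
    rw [hs, hx, hkk]
    rfl
  have hq : q3 s = 9 * (x ^ 2 + 12 * k) / (x ^ 3 - k) := by
    have h5 : s * (x ^ 3 - k) = 9 * k * (12 * x + 1) := by
      rw [hs']
      field_simp
    unfold q3
    rw [eq_div_iff hN]
    apply mul_right_cancel₀ hN
    have h6 : (s ^ 2 + 18 * s - 27) * (x ^ 3 - k) * (x ^ 3 - k) =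
        (s * (x ^ 3 - k)) ^ 2 + 18 * (s * (x ^ 3 - k)) * (x ^ 3 - k) - 27 * (x ^ 3 - k) ^ 2 := by
      ring
    rw [h6, h5]
    linear_combination (-9 * x ^ 2) * hp
  have hq0 : q3 s ≠ 0 := by
    rw [hq]
    exact div_ne_zero (mul_ne_zero (by norm_num) hM) hN
  have hxs : x = (s + 9) / q3 s := by
    rw [eq_div_iff hq0, hq, hs']
    field_simp
    ring
  have hks : k = s / q3 s ^ 2 := by
    rw [eq_div_iff (pow_ne_zero 2 hq0), hq, hs', div_pow, mul_div_assoc',
      div_eq_div_iff (pow_ne_zero 2 hN) hN]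
    linear_combination (-9 * k * (x ^ 3 - k)) * hp
  have hs0 : s ≠ 0 := by
    rintro rfl
    apply hk
    rw [hks, zero_div]
  have h7 : (1 + 1728 * k) * q3 s ^ 2 = (s + 27) * (s + 3) ^ 3 := by
    have h8 : k * q3 s ^ 2 = s := by
      rw [hks]
      field_simp
    have h9 : q3 s ^ 2 + 1728 * s = (s + 27) * (s + 3) ^ 3 := by
      unfold q3
      ring
    linear_combination h9 + 1728 * h8
  have h10 : (s + 27) * (s + 3) ^ 3 ≠ 0 := by
    rw [← h7]
    exact mul_ne_zero hk1 (pow_ne_zero 2 hq0)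
  rw [← hs, ← hx, ← hkk]
  refine ⟨hs0, hq0, ?_, ?_, hk, hxs, hks⟩
  · intro h0
    apply h10
    rw [h0]
    ring
  · intro h0
    apply h10
    rw [h0]
    ring

end

end Pool.Agent.MUX3
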