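import Pool.Agent.MUX.StR3
import Pool.Agent.MU3.BAll

/-!
# MUX, block R3, module VEL: the quotient by a point of order three (helper72)
-/

set_option autoImplicit false

namespace Pool.Agent.MUX3

open _root_.MU3 Pool.Agent.MU3A Pool.Agent.MU3B Pool.Agent.MUX Pool.Agent.MUXU Pool.Agent.MUX2
open WeierstrassCurve Polynomial

namespace VEL

/-- a polynomial of degree at most eight which vanishes on the nonzero numbers -/
theorem coefs {c0 c1 c2 c3 c4 c5 c6 c7 c8 : ℂ}
    (h : ∀ s : ℂ, s ≠ 0 → c0 + c1 * s + c2 * s ^ 2 + c3 * s ^ 3 + c4 * s ^ 4 + c5 * s ^ 5 +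
      c6 * s ^ 6 + c7 * s ^ 7 + c8 * s ^ 8 = 0) :
    c0 = 0 ∧ c1 = 0 ∧ c6 = 0 ∧ c7 = 0 ∧ c8 = 0 := by
  set Q : ℂ[X] := C c0 + C c1 * X + C c2 * X ^ 2 + C c3 * X ^ 3 + C c4 * X ^ 4 + C c5 * X ^ 5 +
    C c6 * X ^ 6 + C c7 * X ^ 7 + C c8 * X ^ 8 with hQ
  have hQ0 : Q = 0 := by
    apply Polynomial.eq_zero_of_infinite_isRoot
    apply Set.Infinite.mono (s := ({0} : Set ℂ)ᶜ)
    · intro s hs
      have hs' : s ≠ 0 := hs
      show Q.IsRoot s
      rw [IsRoot.def, hQ]
      simp only [eval_add, eval_mul, eval_pow, eval_X, eval_C]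
      exact h s hs'
    · exact (Set.finite_singleton _).infinite_compl
  have hc : ∀ n, Q.coeff n = 0 := fun n => by rw [hQ0, coeff_zero]
  have hcc : ∀ n, Q.coeff n = (if n = 0 then c0 else 0) + (if n = 1 then c1 else 0) +
      (if n = 2 then c2 else 0) + (if n = 3 then c3 else 0) + (if n = 4 then c4 else 0) +
      (if n = 5 then c5 else 0) + (if n = 6 then c6 else 0) + (if n = 7 then c7 else 0) +
      (if n = 8 then c8 else 0) := by
    intro n
    rw [hQ]
    simp only [coeff_add, coeff_C_mul, coeff_C, coeff_X, coeff_X_pow]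
    simp only [mul_ite, mul_one, mul_zero, eq_comm (a := (1 : ℕ))]
  refine ⟨?_, ?_, ?_, ?_, ?_⟩
  · have := hc 0
    rw [hcc] at this
    simpa using this
  · have := hc 1
    rw [hcc] at this
    simpa using this
  · have := hc 6
    rw [hcc] at this
    simpa using this
  · have := hc 7
    rw [hcc] at this
    simpa using this
  · have := hc 8
    rw [hcc] at this
    simpa using this

/-- the algebra: the differential equation determines the numerator and the invariants -/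
theorem alg {g2 g3 G2 G3 mu e w : ℂ} (hmu : mu ≠ 0) (hw : w = 4 * e ^ 3 - g2 * e - g3)
    (hw0 : w ≠ 0) {A : ℂ[X]} (hA : A.Monic) (hd : A.natDegree = 3)
    (hode : OdeP g2 g3 G2 G3 mu A (C (mu ^ 2) * (X - C e) ^ 2))
    (hc : IsCoprime A (C (mu ^ 2) * (X - C e) ^ 2)) :
    mu ^ 4 * G2 = 120 * e ^ 2 - 9 * g2 ∧
      mu ^ 6 * G3 = 280 * e ^ 3 - 42 * g2 * e - 27 * g3 ∧
      (∀ x : ℂ, A.eval x = (x - e) ^ 3 + e * (x - e) ^ 2 + (6 * e ^ 2 - g2 / 2) * (x - e) + w) ∧
      ∀ x : ℂ, (derivative A * (C (mu ^ 2) * (X - C e) ^ 2) -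
        A * derivative (C (mu ^ 2) * (X - C e) ^ 2)).eval x =
        mu ^ 2 * (x - e) * ((x - e) ^ 3 - (6 * e ^ 2 - g2 / 2) * (x - e) - 2 * w) := by
  obtain ⟨a, b, c, habc⟩ : ∃ a b c : ℂ, A = X ^ 3 + C a * X ^ 2 + C b * X + C c := by
    refine ⟨A.coeff 2, A.coeff 1, A.coeff 0, ?_⟩
    have h2 := A.as_sum_range_C_mul_X_pow
    have h3 : A.coeff 3 = 1 := by
      rw [← hd]
      exact hA
    rw [hd] at h2
    simp only [Finset.sum_range_succ, Finset.sum_range_zero, h3, pow_zero, pow_one, mul_one,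
      map_one, one_mul, zero_add] at h2
    nth_rewrite 1 [h2]
    ring
  set A2 : ℂ := 3 * e + a with hA2
  set A1 : ℂ := 3 * e ^ 2 + 2 * a * e + b with hA1
  set A0 : ℂ := e ^ 3 + a * e ^ 2 + b * e + c with hA0
  have hAe : ∀ s : ℂ, A.eval (e + s) = s ^ 3 + A2 * s ^ 2 + A1 * s + A0 := by
    intro s
    rw [habc, hA2, hA1, hA0]
    simp only [eval_add, eval_mul, eval_pow, eval_X, eval_C]
    ring
  have hdA : derivative A = C 3 * X ^ 2 + C (2 * a) * X + C b := by
    rw [habc]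
    simp only [derivative_add, derivative_mul, derivative_X_pow, derivative_C, derivative_X]
    simp only [map_mul]
    simp
    ring
  have hdB : derivative (C (mu ^ 2) * (X - C e) ^ 2) = C (2 * mu ^ 2) * (X - C e) := by
    rw [derivative_C_mul, derivative_X_sub_C_pow]
    simp only [map_mul]
    simp
    ring
  have hW : ∀ s : ℂ, (derivative A * (C (mu ^ 2) * (X - C e) ^ 2) -
      A * derivative (C (mu ^ 2) * (X - C e) ^ 2)).eval (e + s) =
        mu ^ 2 * s * (s ^ 3 - A1 * s - 2 * A0) := by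
    intro s
    rw [hdB, hdA, eval_sub, eval_mul (p := A), hAe]
    simp only [eval_add, eval_mul, eval_sub, eval_X, eval_C, eval_pow, eval_ofNat]
    rw [hA2, hA1, hA0]
    ring
  have hA0n : A0 ≠ 0 := by
    intro h0
    obtain ⟨u, v, huv⟩ := hc
    have h1 := congrArg (Polynomial.eval e) huv
    have h2 : A.eval e = 0 := by
      have := hAe 0
      rw [add_zero] at this
      rw [this, h0]
      ring
    rw [eval_add, eval_mul, eval_mul, h2, eval_mul, eval_pow, eval_sub, eval_X, eval_C, eval_C] at h1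
    simp at h1
  have hfun : ∀ s : ℂ, s ≠ 0 → (4 * A0 ^ 2 * w - 4 * A0 ^ 3) +
      (4 * A0 * A1 * w + 4 * A0 ^ 2 * (12 * e ^ 2 - g2) - 12 * A1 * A0 ^ 2) * s +
      (A1 ^ 2 * w + 4 * A0 * A1 * (12 * e ^ 2 - g2) + 48 * e * A0 ^ 2 -
        4 * (3 * A1 ^ 2 * A0 + 3 * A2 * A0 ^ 2)) * s ^ 2 +
      (-4 * A0 * w + A1 ^ 2 * (12 * e ^ 2 - g2) + 48 * e * A0 * A1 + 16 * A0 ^ 2 -
        4 * (A1 ^ 3 + 6 * A2 * A1 * A0 + 3 * A0 ^ 2)) * s ^ 3 +
      (-2 * A1 * w - 4 * A0 * (12 * e ^ 2 - g2) + 12 * e * A1 ^ 2 + 16 * A0 * A1 -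
        4 * (3 * A2 ^ 2 * A0 + 3 * A2 * A1 ^ 2 + 6 * A1 * A0) + mu ^ 4 * G2 * A0) * s ^ 4 +
      (-2 * A1 * (12 * e ^ 2 - g2) - 48 * e * A0 + 4 * A1 ^ 2 -
        4 * (3 * A1 ^ 2 + 3 * A2 ^ 2 * A1 + 6 * A2 * A0) + mu ^ 4 * G2 * A1) * s ^ 5 +
      (w - 24 * e * A1 - 16 * A0 - 4 * (A2 ^ 3 + 6 * A1 * A2 + 3 * A0) + mu ^ 4 * G2 * A2 +
        mu ^ 6 * G3) * s ^ 6 +
      ((12 * e ^ 2 - g2) - 8 * A1 - 4 * (3 * A2 ^ 2 + 3 * A1) + mu ^ 4 * G2) * s ^ 7 +
      (12 * e - 12 * A2) * s ^ 8 = 0 := by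
    intro s hs
    have h1 := congrArg (Polynomial.eval (e + s)) hode
    rw [eval_mul, eval_pow, hW] at h1
    simp only [eval_mul, eval_sub, eval_pow, eval_X, eval_C, eval_ofNat, hAe] at h1
    have hm4 : mu ^ 4 * s ^ 2 ≠ 0 := mul_ne_zero (pow_ne_zero _ hmu) (pow_ne_zero _ hs)
    apply mul_left_cancel₀ hm4
    rw [mul_zero]
    rw [hw]
    linear_combination h1
  obtain ⟨k0, k1, k6, k7, k8⟩ := coefs hfun
  have r0 : A0 = w := by
    have : 4 * A0 ^ 2 * (w - A0) = 0 := by linear_combination k0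
    rcases mul_eq_zero.mp this with h | h
    · exact absurd h (mul_ne_zero (by norm_num) (pow_ne_zero _ hA0n))
    · exact (sub_eq_zero.mp h).symm
  have r1 : A1 = 6 * e ^ 2 - g2 / 2 := by
    rw [r0] at k1
    have : 8 * w ^ 2 * (6 * e ^ 2 - g2 / 2 - A1) = 0 := by linear_combination k1
    rcases mul_eq_zero.mp this with h | h
    · exact absurd h (mul_ne_zero (by norm_num) (pow_ne_zero _ hw0))
    · exact (sub_eq_zero.mp h).symm
  have r2 : A2 = e := by
    have : (12 : ℂ) * (e - A2) = 0 := by linear_combination k8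
    rcases mul_eq_zero.mp this with h | h
    · norm_num at h
    · exact (sub_eq_zero.mp h).symm
  have r3 : mu ^ 4 * G2 = 120 * e ^ 2 - 9 * g2 := by
    rw [r1, r2] at k7
    linear_combination k7
  have r4 : mu ^ 6 * G3 = 280 * e ^ 3 - 42 * g2 * e - 27 * g3 := by
    rw [r3, r0, r1, r2, hw] at k6
    linear_combination k6
  refine ⟨r3, r4, fun x => ?_, fun x => ?_⟩
  · have := hAe (x - e)
    rw [add_sub_cancel, r0, r1, r2] at this
    exact this
  · have := hW (x - e)
    rw [add_sub_cancel, r0, r1] at this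
    exact this

end VEL

theorem t3_VEL (h1 : Su_ISO) (h2 : Su_DER) : S3_VEL := by
  classical
  intro L M mu u hT
  have hper := hT.ker
  have h2u : 2 * u ∉ L.lattice := by
    intro h
    apply hT.u_ne
    have : u = 3 * u - 2 * u := by ring
    rw [this]
    exact sub_mem hT.u3 h
  have hnu : -u ∉ L.lattice := fun h => hT.u_ne (by simpa using neg_mem h)
  have huu : u ≠ -u := by
    intro h
    apply h2u
    have : 2 * u = u - (-u) := by ring
    rw [this, ← h, sub_self]
    exact zero_mem _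
  have hIsg : Isg L M mu := fun v hv => (hper v).mpr (Or.inl hv)
  have hRp : IsRpM L M mu {u, -u} := by
    constructor
    · intro q hq
      rw [Finset.mem_insert, Finset.mem_singleton] at hq
      rcases hq with rfl | rfl
      · refine (hper q).mpr (Or.inr (Or.inl ?_))
        rw [sub_self]
        exact zero_mem _
      · refine (hper (-u)).mpr (Or.inr (Or.inr ?_))
        rw [neg_add_cancel]
        exact zero_mem _
    · intro q hq
      rw [Finset.mem_insert, Finset.mem_singleton] at hq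
      rcases hq with rfl | rfl
      · exact hT.u_ne
      · exact hnu
    · intro q hq q' hq' h
      rw [Finset.mem_insert, Finset.mem_singleton] at hq hq'
      rcases hq with rfl | rfl <;> rcases hq' with rfl | rfl
      · rfl
      · exfalso
        apply h2u
        have : 2 * q = q - -q := by ring
        rw [this]
        exact h
      · exfalso
        apply h2u
        have : 2 * q' = -(-q' - q') := by ring
        rw [this]
        exact neg_mem h
      · rfl
    · intro z hz hzL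
      rcases (hper z).mp hz with h | h | h
      · exact absurd h hzL
      · exact ⟨u, by simp, h⟩
      · refine ⟨-u, by simp, ?_⟩
        rw [sub_neg_eq_add]
        exact h
  obtain ⟨A, hA, hd, hode, hiso⟩ := h1 L M mu {u, -u} hT.mu_ne hIsg hRp
  have hprod : ∏ q ∈ ({u, -u} : Finset ℂ), (X - C (L.weierstrassP q)) =
      (X - C (L.weierstrassP u)) ^ 2 := by
    rw [Finset.prod_pair huu, PeriodPair.weierstrassP_neg, pow_two]
  rw [hprod] at hode hiso
  rw [Finset.card_pair huu] at hd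
  have hdu : L.derivWeierstrassP u ≠ 0 := fun h => h2u ((b_ZER L u hT.u_ne).mp h)
  set e : ℂ := L.weierstrassP u with he
  set w : ℂ := 4 * e ^ 3 - L.g₂ * e - L.g₃ with hw
  have hw0 : w ≠ 0 := by
    have := PeriodPair.derivWeierstrassP_sq L u hT.u_ne
    rw [hw, he, ← this]
    exact pow_ne_zero _ hdu
  obtain ⟨c1, c2, c3, c4⟩ := VEL.alg hT.mu_ne hw hw0 hA hd hode hiso.cop
  refine ⟨c1, c2, fun z hz => ?_⟩
  have hzL : z ∉ L.lattice := fun h => hz ((hper z).mpr (Or.inl h))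
  have hzu : z - u ∉ L.lattice := fun h => hz ((hper z).mpr (Or.inr (Or.inl h)))
  have hzu' : z + u ∉ L.lattice := fun h => hz ((hper z).mpr (Or.inr (Or.inr h)))
  have hne : L.weierstrassP z - e ≠ 0 := by
    intro h
    rcases b_NEQ L u z hT.u_ne hzL (sub_eq_zero.mp h) with h' | h'
    · exact hzu h'
    · exact hzu' h'
  set x : ℂ := L.weierstrassP z with hx
  refine ⟨hne, ?_, ?_⟩
  · have hP := hiso.P z hzL hz
    rw [c3 x] at hP
    rw [eval_mul, eval_pow, eval_sub, eval_C, eval_X, eval_C, ← hx] at hP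
    have h5 : mu ^ 2 * M.weierstrassP (mu * z) =
        ((x - e) ^ 3 + e * (x - e) ^ 2 + (6 * e ^ 2 - L.g₂ / 2) * (x - e) + w) / (x - e) ^ 2 := by
      rw [eq_div_iff (pow_ne_zero _ hne)]
      linear_combination hP
    rw [h5]
    field_simp
    ring
  · have hD := h2 L M mu A _ hiso z hzL hz
    rw [c4 x] at hD
    rw [eval_mul, eval_pow, eval_sub, eval_C, eval_X, eval_C, ← hx] at hD
    have hm2 : mu ^ 2 * (x - e) ≠ 0 := mul_ne_zero (pow_ne_zero _ hT.mu_ne) hne
    have h3 : mu ^ 3 * M.derivWeierstrassP (mu * z) * (x - e) ^ 3 =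
        ((x - e) ^ 3 - (6 * e ^ 2 - L.g₂ / 2) * (x - e) - 2 * w) * L.derivWeierstrassP z := by
      apply mul_left_cancel₀ hm2
      linear_combination hD
    have h4 : mu ^ 3 * M.derivWeierstrassP (mu * z) =
        ((x - e) ^ 3 - (6 * e ^ 2 - L.g₂ / 2) * (x - e) - 2 * w) * L.derivWeierstrassP z /
          (x - e) ^ 3 := by
      rw [eq_div_iff (pow_ne_zero _ hne)]
      exact h3
    rw [h4]
    field_simp

end Pool.Agent.MUX3
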