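import Pool.Agent.MUX.R3_TRI
import Pool.Agent.MUX.R3_VEL
import Pool.Agent.MUX.R3_PAR
import Pool.Agent.MUX.R3_NRM
import Pool.Agent.MUX.R3_DUA
import Pool.Agent.MUX.R3_JEQ
import Pool.Agent.MUX.R3_CHN
import Pool.Agent.MUX.R3_CIN
import Pool.Agent.MUX.R3_CH3
import Pool.Agent.MUX.R3_GD3
import Pool.Agent.MUX.R3_IN3
import Pool.Agent.MUX.R3_E13
import Pool.Agent.MUX.R3_MU3
import Pool.Agent.MUX.R2_GR2
import Pool.Agent.MUX.R2_IT2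
import Pool.Agent.MUX.UAll

/-! # Block R3 of the project MUX, assembled: `r3_X : S3_X` without hypotheses (helper83) -/

set_option autoImplicit false

namespace Pool.Agent.MUX3

open Pool.Agent.MUX2 Pool.Agent.MUXU

theorem r3_GR2 : S2_GR2 := t2_GR2
theorem r3_IT2 : S2_IT2 := t2_IT2 u_BAC u_ISO u_PFI
theorem r3_TRI : S3_TRI := t3_TRI
theorem r3_VEL : S3_VEL := t3_VEL u_ISO u_DER
theorem r3_PAR : S3_PAR := t3_PAR r3_TRI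
theorem r3_NRM : S3_NRM := t3_NRM r3_VEL r3_PAR
theorem r3_DUA : S3_DUA := t3_DUA r3_TRI r3_PAR r3_NRM
theorem r3_JEQ : S3_JEQ := t3_JEQ r3_PAR
theorem r3_CHN : S3_CHN := t3_CHN
theorem r3_CIN : S3_CIN := t3_CIN
theorem r3_CH3 : S3_CH3 := t3_CH3 r3_DUA r3_JEQ r3_PAR
theorem r3_GD3 : S3_GD3 := t3_GD3 r3_CHN r3_CH3 r3_NRM r3_PAR
theorem r3_IN3 : S3_IN3 := t3_IN3 r3_CH3 r3_GD3 r3_CIN u_DET r3_PAR
theorem r3_E13 : S3_E13 := t3_E13 r3_GD3 r3_NRM r3_PAR r3_GR2 r3_IT2 r3_CH3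
theorem r3_MU3 : S3_MU3 := t3_MU3 r3_GD3 r3_GR2 r3_IT2

end Pool.Agent.MUX3
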