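import Pool.Agent.MUX.EXAll
import Pool.Agent.MUX.E_RED3
import Pool.Agent.MUX.R2All
import Pool.Agent.MUX.R3All

/-!
# MUX, block E: `RedE p P V` for `p = 2` and `p = 3`, from `LatFacts` only (helper66)
-/

set_option autoImplicit false

namespace Pool.Agent.MUXE

open _root_.MU3 Pool.Agent.MU3A Pool.Agent.MU3B Pool.Agent.MUX Pool.Agent.MUXU Pool.Agent.RI
open Pool.Agent.MUX2 Pool.Agent.MUX3

theorem xe_RED2 : ∀ (A B : ℤ), CaseP 2 A B → LatFacts A B → ∀ P : Ideal (OO A B), IsPN 2 P →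
    ∀ V : ValuationSubring ℂ, OverI V P → RedE 2 P V :=
  fun A B h hF P hP V hV => red2 r2_GD2 r2_IN2 r2_GR2 r2_CH2 A B h (xe_RNG A B h.toCQ) hF P hP V hV

theorem xe_RED3 : ∀ (A B : ℤ), CaseP 3 A B → LatFacts A B → ∀ P : Ideal (OO A B), IsPN 3 P →
    ∀ V : ValuationSubring ℂ, OverI V P → RedE 3 P V :=
  fun A B h hF P hP V hV => red3 r3_GD3 r3_IN3 r2_GR2 r3_CH3 A B h (xe_RNG A B h.toCQ) hF P hP V hV

/-- the reduction facts used by block E -/
theorem xe_RED : ∀ (p : ℕ) (A B : ℤ), CaseP p A B → LatFacts A B →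
    ∀ P : Ideal (OO A B), IsPN p P → ∀ V : ValuationSubring ℂ, OverI V P → RedE p P V := by
  intro p A B h hF P hP V hV
  rcases h.split with ⟨rfl, -⟩ | ⟨rfl, -⟩
  · exact xe_RED3 A B h hF P hP V hV
  · exact xe_RED2 A B h hF P hP V hV

end Pool.Agent.MUXE
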