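import Pool.Agent.MUX.StXE

/-!
# MUX, block E: module ONE (helper86)
-/

set_option autoImplicit false

open WeierstrassCurve Polynomial NumberField IsDedekindDomain

namespace Pool.Agent.MUXE

open _root_.MU3 Pool.Agent.MU3A Pool.Agent.MU3B Pool.Agent.MUX Pool.Agent.MUXU Pool.Agent.RI

noncomputable section

namespace ONE

section val
variable {V : ValuationSubring ℂ}

/-- the final estimate -/
lemma last {p : ℕ} (hp : p = 2 ∨ p = 3) {c d w w' t S : ℂ} (hc : V.valuation c = 1)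
    (ht : V.valuation t < 1) (ht0 : V.valuation t ≠ 0)
    (htp : V.valuation t ^ (p - 1) = V.valuation (p : ℂ))
    (hd : V.valuation (d - c * (1 + t * S)) ≤ V.valuation t ^ 2) (hw : w ^ p = c)
    (hw' : w' ^ p = d) (hww : V.valuation (w' - w) ^ (p - 1) ≤ V.valuation (p : ℂ)) :
    V.valuation S ^ (p - 1) ≤ V.valuation (p : ℂ) := by
  have hp0 : p ≠ 0 := by omega
  have hp1 : p - 1 ≠ 0 := by omega
  have vw : V.valuation w = 1 := by
    have h1 : V.valuation w ^ p = 1 := by rw [← map_pow, hw, hc]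
    exact (pow_eq_one_iff.1 h1).resolve_right hp0
  have hww1 : V.valuation (w' - w) ≤ V.valuation t := by
    rw [← htp] at hww
    exact le_of_pow_le_pow_left₀ hp1 zero_le hww
  have vw' : V.valuation w' ≤ 1 := by
    have h1 : w' = (w' - w) + w := by ring
    rw [h1]
    exact (V.valuation.map_add _ _).trans (max_le (hww1.trans ht.le) vw.le)
  have h2 : V.valuation (d - c) ≤ V.valuation t ^ 2 := by
    rcases hp with rfl | rfl
    · have h1 : d - c = (w' - w) ^ 2 + 2 * (w * (w' - w)) := by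
        rw [← hw, ← hw']; ring
      have h3 : V.valuation (2 : ℂ) = V.valuation t := by
        have := htp
        simp only [Nat.add_one_sub_one, pow_one, Nat.cast_ofNat] at this
        exact this.symm
      rw [h1]
      refine (V.valuation.map_add _ _).trans (max_le ?_ ?_)
      · rw [map_pow]
        exact pow_le_pow_left' hww1 2
      · rw [map_mul, map_mul, vw, one_mul, h3, pow_two]
        exact mul_le_mul_right hww1 _
    · have h1 : d - c = (w' - w) ^ 3 + 3 * (w * w' * (w' - w)) := by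
        rw [← hw, ← hw']; ring
      have h3 : V.valuation t ^ 2 = V.valuation (3 : ℂ) := by
        have := htp
        simpa using this
      rw [h1]
      refine (V.valuation.map_add _ _).trans (max_le ?_ ?_)
      · rw [map_pow]
        calc V.valuation (w' - w) ^ 3 ≤ V.valuation t ^ 3 := pow_le_pow_left' hww1 3
          _ = V.valuation t ^ 2 * V.valuation t := pow_succ _ 2
          _ ≤ V.valuation t ^ 2 * 1 := mul_le_mul_right ht.le _
          _ = V.valuation t ^ 2 := mul_one _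
      · rw [map_mul, ← h3, map_mul, map_mul, vw, one_mul]
        calc V.valuation t ^ 2 * (V.valuation w' * V.valuation (w' - w))
            ≤ V.valuation t ^ 2 * (1 * 1) :=
              mul_le_mul_right (mul_le_mul' vw' (hww1.trans ht.le)) _
          _ = V.valuation t ^ 2 := by rw [one_mul, mul_one]
  have h3 : V.valuation (c * (t * S)) ≤ V.valuation t ^ 2 := by
    have h4 : c * (t * S) = (d - c) - (d - c * (1 + t * S)) := by ring
    rw [h4]
    exact (V.valuation.map_sub _ _).trans (max_le h2 hd)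
  rw [map_mul, hc, one_mul, map_mul, pow_two] at h3
  have h5 : V.valuation S ≤ V.valuation t := by
    have hpos : 0 < V.valuation t := lt_of_le_of_ne zero_le (Ne.symm ht0)
    exact (mul_le_mul_iff_right₀ hpos).1 h3
  rw [← htp]
  exact pow_le_pow_left' h5 _

end val

lemma theta_per (L : PeriodPair) (H : Finset ℂ) (z v : ℂ) (hv : v ∈ L.lattice) :
    ThetaH L H (z + v) = ThetaH L H z := by
  have h2 : L.weierstrassP (z + v) = L.weierstrassP z := L.weierstrassP_add_coe z ⟨v, hv⟩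
  simp only [ThetaH, h2]

end ONE

open ONE in
theorem te_ONE (h1 : Sxe_PA) (h2 : Sxe_TRA) (h3 : Sxe_KER) (h4 : Sxe_FAC) (h5 : Sxe_SIG)
    (h6 : Sxe_NE1) (h7 : Sxe_THE) (h8 : Sxe_GTH) (h9 : Sxe_PT) (h10 : Sxe_GAM)
    (h11 : Pool.Agent.MU3E.Se_PRD) : Sxe_ONE := by
  intro p A B P V hC hG n₀ ι R e m₁ a he hm1 hpm ha hpa hco hn0 hdvd H hH c hc J _ X g hX
    ⟨w0, hw0, hwp⟩
  obtain ⟨-, hcl, hp0, -, -, -, -⟩ := h1 p A B P V hC
  have hring := hC.ring
  obtain ⟨φ, hφ⟩ := hring.hom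
  have emul : ∀ x y : OO A B, emb (x * y) = emb x * emb y := fun x y => by
    rw [← hφ, map_mul, hφ, hφ]
  have eadd : ∀ x y : OO A B, emb (x + y) = emb x + emb y := fun x y => by
    rw [← hφ, map_add, hφ, hφ]
  have esub : ∀ x y : OO A B, emb (x - y) = emb x - emb y := fun x y => by
    rw [← hφ, map_sub, hφ, hφ]
  have eone : emb (1 : OO A B) = 1 := by rw [← hφ, map_one]
  have enat : ∀ n : ℕ, emb ((n : ℕ) : OO A B) = n := fun n => by rw [← hφ, map_natCast]
  have eint : ∀ n : ℤ, emb ((n : ℤ) : OO A B) = n := fun n => by rw [← hφ, map_intCast]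
  have hpp : p.Prime := by
    rcases hC.two with rfl | rfl
    · exact Nat.prime_two
    · exact Nat.prime_three
  obtain ⟨n, rfl⟩ : ∃ n, e = n + 1 := ⟨e - 1, by omega⟩
  have hn : 1 ≤ n := by omega
  obtain ⟨M', γ, hM, hM'0, hM'P, hM'a, hγP, hγM, hγm, hγx⟩ :=
    h10 p A B P V hC n m₁ a (by omega) (by omega) hpm hpa
  set m : ℕ := p ^ (n + 1) * m₁ with hm
  have hm0 : m ≠ 0 := by
    rw [hm]
    exact mul_ne_zero (pow_ne_zero _ hpp.ne_zero) (by omega)
  have hmf : m.primeFactors ⊆ n₀.primeFactors := by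
    have e1 : m.primeFactors = (p * m₁).primeFactors := by
      rw [hm, Nat.primeFactors_mul (pow_ne_zero _ hpp.ne_zero) (by omega),
        Nat.primeFactors_pow _ (by omega), Nat.primeFactors_mul hpp.ne_zero (by omega)]
    rw [e1]
    exact Nat.primeFactors_mono hdvd hn0
  have hpf : p.primeFactors ⊆ n₀.primeFactors :=
    Nat.primeFactors_mono ((dvd_mul_right _ _).trans hdvd) hn0
  -- the lattices
  have hNL : ∀ i, NL A B (R.L i) := fun i => ⟨_, _, R.nl i⟩
  have hGX : ∀ i, GX V (R.L i) := fun i => hC.gx _ (hNL i)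
  obtain ⟨σ, hσ, hσv⟩ := h5 p A B P V hC hG ⟨_, hNL R.i0⟩ n M' a hn hM'0 hM'P ha hM'a γ hγP
  have hMa : P ^ (n + 1) * M' ≤ sp (a : OO A B) := Ideal.mul_le_right.trans hM'a
  have hMm : P ^ (n + 1) * M' ≤ sp ((m : ℕ) : OO A B) := by
    rw [← hM, Ideal.span_singleton_le_span_singleton]
    exact ⟨(a : OO A B), by push_cast; ring⟩
  have hγa : (1 + γ) - 1 ∈ sp (a : OO A B) := by
    rw [add_sub_cancel_left]
    exact hM'a hγM
  have hmP : ((m : ℕ) : OO A B) ∈ P := by
    have e1 : ((m : ℕ) : OO A B) = (p : OO A B) * ((p ^ n * m₁ : ℕ) : OO A B) := by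
      rw [hm]
      push_cast
      ring
    rw [e1]
    exact P.mul_mem_right _ hC.mem
  -- the point `R₀`
  have hPT0 := (h9 A B hring n₀ ι R hn0 R.i0).2.2.2 m hm0 hmf
  obtain ⟨R₀, hR₀⟩ : ∃ R₀ : ℂ, R₀ = emb γ * (R.om R.i0 / m) := ⟨_, rfl⟩
  have hR₀L : R₀ ∉ (R.L R.i0).lattice := by
    intro h
    rw [hR₀, (hPT0 1).2.2.2 γ] at h
    exact hγm (Ideal.mem_span_singleton.2 h)
  have hR₀P : Tor P (R.L R.i0) R₀ := by
    intro x hx
    have e1 : emb x * R₀ = emb (x * γ) * (R.om R.i0 / m) := by rw [hR₀, emul]; ring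
    rw [e1, (hPT0 1).2.2.2]
    have h := Ideal.mem_span_singleton.1 (hγx x hx)
    refine dvd_trans ⟨(a : OO A B), ?_⟩ h
    push_cast
    ring
  obtain ⟨hR₀E, hR₀t⟩ := h3 p A B P V hC _ (hNL R.i0) R₀ hR₀P hR₀L
  obtain ⟨ht1, ht0, -⟩ := (hGX R.i0).par R₀ hR₀E hR₀L
  obtain ⟨t, ht⟩ : ∃ t : ℂ, t = tE (R.L R.i0) R₀ := ⟨_, rfl⟩
  rw [← ht] at hR₀t ht1 ht0
  have hpm1 : p - 1 ≠ 0 := by have := hpp.two_le; omega
  have heqt : ∀ y : ℂ, V.valuation y ^ (p - 1) = V.valuation (p : ℂ) →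
      V.valuation y = V.valuation t := by
    intro y hy
    rw [← hR₀t] at hy
    exact le_antisymm (le_of_pow_le_pow_left₀ hpm1 zero_le hy.le)
      (le_of_pow_le_pow_left₀ hpm1 zero_le hy.ge)
  -- the points `u_i = μ_i R₀`
  have hu : ∀ i, Tor P (R.L i) (muX R i * R₀) ∧ muX R i * R₀ ∉ (R.L i).lattice := by
    intro i
    obtain ⟨-, k2, k3, -⟩ := h9 A B hring n₀ ι R hn0 i
    refine ⟨?_, ?_⟩
    · intro x hx
      have e1 : emb x * (muX R i * R₀) = muX R i * (emb x * R₀) := by ring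
      rw [e1]
      exact k2 _ (hR₀P x hx)
    · intro h
      refine hR₀L (k3 p hpp.ne_zero hpf R₀ ?_ h)
      have := hR₀P _ hC.mem
      rwa [enat] at this
  have hut : ∀ i, InEn V (R.L i) (muX R i * R₀) ∧
      V.valuation (tE (R.L i) (muX R i * R₀)) = V.valuation t := by
    intro i
    obtain ⟨q1, q2⟩ := h3 p A B P V hC _ (hNL i) _ (hu i).1 (hu i).2
    exact ⟨q1, heqt _ q2⟩
  have hci : ∀ i, V.valuation (tE (R.L i) (muX R i * R₀) - c i * t) ≤ V.valuation t ^ 2 := by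
    intro i
    have := hc i R₀ hR₀P hR₀L
    rwa [← ht] at this
  have ht2 : V.valuation t ^ 2 ≤ V.valuation t := by
    rw [pow_two]
    exact mul_le_of_le_one_left' ht1.le
  have hc1 : ∀ i, V.valuation (c i) ≤ 1 := by
    intro i
    have e1 : c i * t = tE (R.L i) (muX R i * R₀) - (tE (R.L i) (muX R i * R₀) - c i * t) := by
      ring
    have e2 : V.valuation (c i * t) ≤ V.valuation t := by
      rw [e1]
      exact (V.valuation.map_sub _ _).trans (max_le (hut i).2.le ((hci i).trans ht2))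
    rw [map_mul] at e2
    have hpos : 0 < V.valuation t := lt_of_le_of_ne zero_le (Ne.symm ht0)
    have e3 : V.valuation (c i) * V.valuation t ≤ 1 * V.valuation t := by rwa [one_mul]
    exact (mul_le_mul_iff_left₀ hpos).1 e3
  -- the parameter at `± u_i`
  have hsgn : ∀ i, ∀ w : ℤ, (w = 1 ∨ w = -1) →
      InEn V (R.L i) (w * (muX R i * R₀)) ∧ (w : ℂ) * (muX R i * R₀) ∉ (R.L i).lattice ∧
      V.valuation (tE (R.L i) (w * (muX R i * R₀))) = V.valuation t ∧
      V.valuation (tE (R.L i) (w * (muX R i * R₀)) - w * c i * t) ≤ V.valuation t ^ 2 := by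
    intro i w hw
    rcases hw with rfl | rfl
    · have e1 : ((1 : ℤ) : ℂ) * (muX R i * R₀) = muX R i * R₀ := by push_cast; ring
      have e2 : ((1 : ℤ) : ℂ) * c i * t = c i * t := by push_cast; ring
      rw [e1, e2]
      exact ⟨(hut i).1, (hu i).2, (hut i).2, hci i⟩
    · have e1 : ((-1 : ℤ) : ℂ) * (muX R i * R₀) = -(muX R i * R₀) := by push_cast; ring
      have e2 : ((-1 : ℤ) : ℂ) * c i * t = -(c i * t) := by push_cast; ring
      rw [e1, e2]
      have k1 : -(muX R i * R₀) ∉ (R.L i).lattice := fun h => (hu i).2 (by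
        simpa using neg_mem h)
      have k2 : Tor P (R.L i) (-(muX R i * R₀)) := by
        intro x hx
        rw [mul_neg]
        exact neg_mem ((hu i).1 x hx)
      obtain ⟨q1, q2⟩ := h3 p A B P V hC _ (hNL i) _ k2 k1
      refine ⟨q1, k1, heqt _ q2, ?_⟩
      have k3 := (hGX i).tneg _ (hut i).1 (hu i).2
      rw [(hut i).2] at k3
      have e3 : tE (R.L i) (-(muX R i * R₀)) - -(c i * t) =
          (tE (R.L i) (-(muX R i * R₀)) + tE (R.L i) (muX R i * R₀)) -
          (tE (R.L i) (muX R i * R₀) - c i * t) := by ring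
      rw [e3]
      exact (V.valuation.map_sub _ _).trans (max_le k3 (hci i))
  -- one value
  have step : ∀ y : ι × OO A B, ∃ th : RF (P ^ (n + 1) * M'), IsCoprime y.2 ((m : ℕ) : OO A B) →
      (th : ℂ) = ThetaH (R.L y.1) (H y.1) (pt R m y.1 y.2) ∧
      V.valuation (ThetaH (R.L y.1) (H y.1) (pt R m y.1 y.2)) = 1 ∧
      V.valuation ((wP P y.2 : ℂ) * c y.1 * dlX (R.L y.1) a (pt R m y.1 y.2)) ≤ 1 ∧
      V.valuation (em σ th - ThetaH (R.L y.1) (H y.1) (pt R m y.1 y.2) *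
        (1 + t * ((wP P y.2 : ℂ) * c y.1 * dlX (R.L y.1) a (pt R m y.1 y.2)))) ≤
          V.valuation t ^ 2 := by
    rintro ⟨i, x⟩
    dsimp only
    by_cases hx : IsCoprime x ((m : ℕ) : OO A B)
    swap
    · exact ⟨1, fun h => absurd h hx⟩
    obtain ⟨-, g2, -, g4⟩ := h9 A B hring n₀ ι R hn0 i
    obtain ⟨g5, g6, g7, -⟩ := g4 m hm0 hmf x
    obtain ⟨z, hz⟩ : ∃ z, z = pt R m i x := ⟨_, rfl⟩
    rw [← hz] at g5 g6 g7 ⊢
    obtain ⟨hzE, hzL, hzq⟩ := h6 p A B P V hC _ (hNL i) (n + 1) m₁ a hm1 hpm hpa hco z g6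
      (g7 hx)
    have hzL' : z ∉ (R.L i).lattice := fun h => hzE (Or.inl h)
    obtain ⟨k1, k2, k3⟩ := h7 A B V (R.L i) (hGX i) a (H i) (by omega) (hH i) z hzE hzL
      (fun q hq => hzq q ((hH i).mem q hq) (fun hqL => (hH i).ne q hq (by
        rw [two_mul]; exact add_mem hqL hqL)))
    have hzT : Tor (P ^ (n + 1) * M') (R.L i) z := by
      intro x' hx'
      rw [← hM] at hx'
      obtain ⟨y', rfl⟩ := Ideal.mem_span_singleton.1 hx'
      have e1 : emb (((m * a : ℕ) : OO A B) * y') * z =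
          emb ((a : OO A B) * y') * ((m : ℂ) * z) := by
        rw [emul, emul, enat, enat]
        push_cast
        ring
      rw [e1]
      exact (h2 A B hring _ (hNL i)).1 _ _ g6
    obtain ⟨hmem, hθσ⟩ := h8 A B hring _ (hNL i) a (H i) (hH i) _ hMa σ (1 + γ) hσ hγa z hzT
      hzL'
    have hxP : x ∉ P := by
      intro hxP
      obtain ⟨b1, b2, hb⟩ := hx
      apply hC.prime.ne_top
      rw [Ideal.eq_top_iff_one, ← hb]
      exact P.add_mem (P.mul_mem_left _ hxP) (P.mul_mem_left _ hmP)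
    obtain ⟨hw1, hw2⟩ : (wP P x = 1 ∨ wP P x = -1) ∧ x - ((wP P x : ℤ) : OO A B) ∈ P := by
      by_cases hx1 : x - 1 ∈ P
      · have hwx : wP P x = 1 := by simp [wP, hxP, hx1]
        rw [hwx]
        exact ⟨Or.inl rfl, by simpa using hx1⟩
      · have hwx : wP P x = -1 := by simp [wP, hxP, hx1]
        rw [hwx]
        refine ⟨Or.inr rfl, ?_⟩
        have := (hcl x hxP).2.resolve_left hx1
        simpa using this
    obtain ⟨w, hw⟩ : ∃ w : ℤ, w = wP P x := ⟨_, rfl⟩
    rw [← hw] at hw1 hw2 ⊢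
    obtain ⟨s1, s2, s3, s4⟩ := hsgn i w hw1
    have vw : V.valuation ((w : ℤ) : ℂ) = 1 := by
      rcases hw1 with rfl | rfl
      · simp
      · simp
    refine ⟨⟨ThetaH (R.L i) (H i) z, hmem⟩, fun _ => ⟨rfl, k1, ?_, ?_⟩⟩
    · rw [map_mul, map_mul, vw, one_mul]
      exact mul_le_one' (hc1 i) k2
    · have hem : em σ ⟨ThetaH (R.L i) (H i) z, hmem⟩ =
          ThetaH (R.L i) (H i) (emb (1 + γ) * z) := hθσ
      have e1 : emb (1 + γ) * z = (z + w * (muX R i * R₀)) +
          muX R i * (emb (x - (w : OO A B)) * R₀) := by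
        rw [eadd, eone, esub, eint, g5, hR₀]
        ring
      rw [hem, e1, theta_per _ _ _ _ (g2 _ (hR₀P _ hw2))]
      have k4 := k3 _ s1 s2
      rw [s3] at k4
      have e2 : ThetaH (R.L i) (H i) (z + w * (muX R i * R₀)) - ThetaH (R.L i) (H i) z *
          (1 + t * ((w : ℂ) * c i * dlX (R.L i) a z)) =
          (ThetaH (R.L i) (H i) (z + w * (muX R i * R₀)) - ThetaH (R.L i) (H i) z *
            (1 + tE (R.L i) (w * (muX R i * R₀)) * dlX (R.L i) a z)) +
          ThetaH (R.L i) (H i) z * ((tE (R.L i) (w * (muX R i * R₀)) - w * c i * t) *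
            dlX (R.L i) a z) := by ring
      rw [e2]
      refine (V.valuation.map_add _ _).trans (max_le k4 ?_)
      rw [map_mul, k1, one_mul, map_mul]
      exact (mul_le_mul' s4 k2).trans (mul_one _).le
  choose θ hθ using step
  -- products over `X j`
  have hone : ∀ j, V.valuation (∏ y ∈ X j, ThetaH (R.L y.1) (H y.1) (pt R m y.1 y.2)) = 1 ∧
      V.valuation (∑ y ∈ X j, (wP P y.2 : ℂ) * c y.1 *
        dlX (R.L y.1) a (pt R m y.1 y.2)) ≤ 1 ∧
      V.valuation (∏ y ∈ X j, em σ (θ y) -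
        (∏ y ∈ X j, ThetaH (R.L y.1) (H y.1) (pt R m y.1 y.2)) *
        (1 + t * ∑ y ∈ X j, (wP P y.2 : ℂ) * c y.1 *
          dlX (R.L y.1) a (pt R m y.1 y.2))) ≤ V.valuation t ^ 2 := by
    intro j
    have hP := h11 ℂ _ (X j) V.valuation
      (fun y => ThetaH (R.L y.1.1) (H y.1.1) (pt R m y.1.1 y.1.2))
      (fun y => em σ (θ y.1))
      (fun y => (wP P y.1.2 : ℂ) * c y.1.1 * dlX (R.L y.1.1) a (pt R m y.1.1 y.1.2))
      (fun _ => 1) t ht1
      (fun y => (hθ y.1 (hX j y.1 y.2)).2.1) (fun y => (hθ y.1 (hX j y.1 y.2)).2.2.1)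
      (fun y => (hθ y.1 (hX j y.1 y.2)).2.2.2)
    simp only [zpow_one, Int.cast_one, one_mul] at hP
    rw [Finset.prod_coe_sort (X j) (fun y => ThetaH (R.L y.1) (H y.1) (pt R m y.1 y.2)),
      Finset.prod_coe_sort (X j) (fun y => em σ (θ y)),
      Finset.sum_coe_sort (X j) (fun y => (wP P y.2 : ℂ) * c y.1 *
        dlX (R.L y.1) a (pt R m y.1 y.2))] at hP
    exact hP
  obtain ⟨q1, q2, q3⟩ := h11 ℂ _ J V.valuation
    (fun j => ∏ y ∈ X j, ThetaH (R.L y.1) (H y.1) (pt R m y.1 y.2))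
    (fun j => ∏ y ∈ X j, em σ (θ y))
    (fun j => ∑ y ∈ X j, (wP P y.2 : ℂ) * c y.1 * dlX (R.L y.1) a (pt R m y.1 y.2)) g t ht1
    (fun j => (hone j).1) (fun j => (hone j).2.1) (fun j => (hone j).2.2)
  -- the root
  have hwM : w0 ∈ RF (P ^ (n + 1) * M') := (h4 A B hring).1 _ _ hMm hw0
  have hFe : (⟨w0, hwM⟩ : RF (P ^ (n + 1) * M')) ^ p = ∏ j, (∏ y ∈ X j, θ y) ^ g j := by
    apply (RF (P ^ (n + 1) * M')).val.injective
    rw [map_pow, map_prod]
    simp only [map_zpow₀, map_prod]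
    show w0 ^ p = _
    rw [hwp]
    refine Finset.prod_congr rfl fun j _ => ?_
    congr 1
    exact Finset.prod_congr rfl fun y hy => ((hθ y (hX j y hy)).1).symm
  have hFs : (em σ ⟨w0, hwM⟩) ^ p = ∏ j, (∏ y ∈ X j, em σ (θ y)) ^ g j := by
    rw [← map_pow, hFe, map_prod]
    simp only [map_zpow₀, map_prod]
  have vw0 : V.valuation w0 ≤ 1 := by
    have e1 : V.valuation w0 ^ p = 1 := by rw [← map_pow, hwp]; exact q1
    exact ((pow_eq_one_iff.1 e1).resolve_right hpp.ne_zero).le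
  exact last hC.two q1 ht1 ht0 hR₀t q3 hwp hFs (hσv ⟨w0, hwM⟩ vw0)

end

end Pool.Agent.MUXE
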