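import Pool.Agent.MUX.StXF

/-!
# MUX, block XF, module LCN: a prime ideal of prime norm and the form `qb` (helper1)
-/

set_option autoImplicit false

namespace Pool.Agent.MUXF

open _root_.MU3 Pool.Agent.MU3A Pool.Agent.MU3B Pool.Agent.MU3F Pool.Agent.MuSym OnePoint

namespace LcnAux

variable {A B : ℤ}

theorem mem_cjI {b : Ideal (OO A B)} {x : OO A B} : x ∈ cjI b ↔ star x ∈ b := Iff.rfl

theorem cjI_cjI (b : Ideal (OO A B)) : cjI (cjI b) = b := by
  ext x
  rw [mem_cjI, mem_cjI, star_star]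

theorem cjI_mono {b c : Ideal (OO A B)} (h : b ≤ c) : cjI b ≤ cjI c := fun _ hx => h hx

theorem cjI_mul_le (b c : Ideal (OO A B)) : cjI b * cjI c ≤ cjI (b * c) := by
  rw [Ideal.mul_le]
  intro r hr s hs
  have e : star (r * s) = star r * star s := by rw [star_mul, mul_comm]
  rw [mem_cjI, e]
  exact Ideal.mul_mem_mul hr hs

theorem cjI_mul (b c : Ideal (OO A B)) : cjI (b * c) = cjI b * cjI c := by
  refine le_antisymm ?_ (cjI_mul_le b c)
  have h := cjI_mono (cjI_mul_le (cjI b) (cjI c))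
  rwa [cjI_cjI, cjI_cjI, cjI_cjI] at h

theorem cjI_sp (x : OO A B) : cjI (sp x) = sp (star x) := by
  ext y
  rw [mem_cjI, Ideal.mem_span_singleton, Ideal.mem_span_singleton]
  constructor
  · rintro ⟨z, hz⟩
    exact ⟨star z, by rw [← star_star y, hz, star_mul, mul_comm]⟩
  · rintro ⟨z, hz⟩
    exact ⟨star z, by rw [hz, star_mul, star_star, mul_comm]⟩

theorem natCast_ne {n : ℕ} (hn : n ≠ 0) : (n : OO A B) ≠ 0 := by
  intro h
  have := congrArg QuadraticAlgebra.re h
  rw [QuadraticAlgebra.re_natCast, QuadraticAlgebra.re_zero] at this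
  exact hn (by exact_mod_cast this)

theorem sp_ne {n : ℕ} (hn : n ≠ 0) : sp (n : OO A B) ≠ ⊥ := by
  rw [Ne, Ideal.span_singleton_eq_bot]
  exact natCast_ne hn

theorem nI_bot : nI (⊥ : Ideal (OO A B)) = 0 := by
  unfold nI
  have : Infinite (OO A B ⧸ (⊥ : Ideal (OO A B))) := by
    refine Infinite.of_injective
      (fun n : ℤ => Ideal.Quotient.mk (⊥ : Ideal (OO A B)) ((n : ℤ) : OO A B)) ?_
    intro m n hmn
    have h := Ideal.Quotient.eq.1 hmn
    rw [Ideal.mem_bot] at h
    have h2 := congrArg QuadraticAlgebra.re h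
    rw [QuadraticAlgebra.re_sub, QuadraticAlgebra.re_intCast, QuadraticAlgebra.re_intCast,
      QuadraticAlgebra.re_zero] at h2
    simp only [Int.cast_id] at h2
    omega
  exact Nat.card_eq_zero_of_infinite

/-- an ideal inside `(n)` is `(n) c` -/
theorem exists_quot (n : OO A B) (I : Ideal (OO A B)) (hI : I ≤ sp n) :
    ∃ c : Ideal (OO A B), I = sp n * c := by
  refine ⟨Submodule.comap (LinearMap.mulLeft (OO A B) n) I, ?_⟩
  ext z
  rw [Ideal.mem_span_singleton_mul]
  constructor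
  · intro hz
    obtain ⟨y, hy⟩ := Ideal.mem_span_singleton.1 (hI hz)
    refine ⟨y, ?_, hy.symm⟩
    rw [Submodule.mem_comap, LinearMap.mulLeft_apply, ← hy]
    exact hz
  · rintro ⟨y, hy, rfl⟩
    exact hy

end LcnAux

open LcnAux in
theorem tx_LCN (h1 : Sx_ALG) (h2 : Sx_IDL) (h3 : Sx_NIM) (h4 : Sx_QB) : Sx_LCN := by
  intro A B h b P l hb hP hPl hl
  have hP0 : P ≠ ⊥ := by
    rintro rfl
    rw [nI_bot] at hPl
    exact hl.ne_zero hPl.symm
  obtain ⟨-, hA2, -, -, -⟩ := h1 A B h
  obtain ⟨hmul, -, hcj, hcan⟩ := h3 A B h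
  obtain ⟨hn0, hbb⟩ := h2 A B h b hb
  obtain ⟨hcP1, hcP2, hcP3, hcP4⟩ := hcj P hP0
  have hlP : ((l : ℕ) : OO A B) ∈ P := by rw [← hPl]; exact hcP4
  have hlc : ((l : ℕ) : OO A B) ∈ cjI P := by
    have := (hcj (cjI P) hcP3).2.2.2
    rwa [hcP1, hPl] at this
  have hbP : nI (b * P) = nI b * l := by rw [(hmul b P hb hP0).1, hPl]
  have hn0' : (nI b : ℤ) ≠ 0 := by exact_mod_cast hn0
  refine ⟨hlP, hlc, hbP, ?_, ?_⟩
  · intro x hx
    have hxb : x ∈ b := (Ideal.mul_le_left : b * P ≤ b) hx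
    have e1 := ((h4 A B h b hb).1 x hxb).1
    have e2 := ((h4 A B h (b * P) (hmul b P hb hP0).2).1 x hx).1
    rw [hbP, e1] at e2
    apply mul_left_cancel₀ hn0'
    rw [e2]
    push_cast
    ring
  · intro x hx hdvd
    have e1 := ((h4 A B h b hb).1 x hx).1
    have hle : sp x * cjI b ≤ sp ((nI b : ℕ) : OO A B) := by
      rw [← hbb]
      exact Ideal.mul_mono_left ((Ideal.span_singleton_le_iff_mem _).2 hx)
    obtain ⟨c, hc⟩ := exists_quot _ _ hle
    have hc2 : sp (star x) * b = sp ((nI b : ℕ) : OO A B) * cjI c := by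
      have := congrArg cjI hc
      rwa [cjI_mul, cjI_mul, cjI_sp, cjI_sp, cjI_cjI, star_natCast] at this
    set n : OO A B := ((nI b : ℕ) : OO A B) with hn
    set q : OO A B := ((qb b x : ℤ) : OO A B) with hq
    have hxx : sp x * sp (star x) = sp n * sp q := by
      rw [Ideal.span_singleton_mul_span_singleton, Ideal.span_singleton_mul_span_singleton,
        (hA2 x).2.2.2.2.1, e1]
      push_cast
      rfl
    have hkey : (sp n * sp n) * (c * cjI c) = (sp n * sp n) * sp q := by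
      calc (sp n * sp n) * (c * cjI c) = (sp n * c) * (sp n * cjI c) := by ring
        _ = (sp x * cjI b) * (sp (star x) * b) := by rw [← hc, ← hc2]
        _ = (sp x * sp (star x)) * (b * cjI b) := by ring
        _ = (sp n * sp q) * sp n := by rw [hxx, hbb]
        _ = (sp n * sp n) * sp q := by ring
    have hnn : sp n * sp n ≠ ⊥ := (hmul _ _ (sp_ne hn0) (sp_ne hn0)).2
    have hcc : c * cjI c ≤ sp q := (hcan _ _ _ hnn).1 hkey.le
    have hqP : sp q ≤ P := by
      rw [Ideal.span_singleton_le_iff_mem]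
      obtain ⟨k, hk⟩ := hdvd
      rw [hq, hk]
      push_cast
      exact P.mul_mem_right _ hlP
    have hcb : cjI b ≠ ⊥ := (hcj b hb).2.2.1
    have hfin : ∀ R : Ideal (OO A B), c ≤ R → x ∈ b * R := by
      intro R hR
      have : cjI b * sp x ≤ cjI b * (b * R) := by
        calc cjI b * sp x = sp x * cjI b := mul_comm _ _
          _ = sp n * c := hc
          _ ≤ sp n * R := Ideal.mul_mono_right hR
          _ = b * cjI b * R := by rw [hbb]
          _ = cjI b * (b * R) := by ring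
      exact (hcan _ _ _ hcb).1 this (Ideal.mem_span_singleton_self x)
    rcases hP.mul_le.1 (hcc.trans hqP) with h5 | h5
    · exact Or.inl (hfin P h5)
    · right
      apply hfin
      have := cjI_mono h5
      rwa [cjI_cjI] at this

end Pool.Agent.MUXF
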