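import Mathlib

/-!
# Definitions for the theorems on the cyclotomic `μ`-invariant over `ℚ(√-d)`

All fields are subfields of `ℂ`, `d` is a squarefree natural number, `d ≠ 1, 3`, and `k = ℚ(√-d)`. A
lattice `L` in `ℂ` (`PeriodPair` of Mathlib) has complex multiplication by the ring of integers `ℤ[w]` of
`k` if `w L ⊆ L`. `weberField d` is generated over `k` by the numbers `g₂³/(g₂³ - 27 g₃²) = j(L)/1728` and
by the values at the points of finite order of the Weber functions `(g₂ g₃/(g₂³ - 27 g₃²)) ℘_L(z)`, for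
all these lattices. It is the maximal abelian extension of `k` (Weber, Fueter, Hasse).
-/

set_option autoImplicit false

open NumberField

namespace Pool.Agent.MuDefs

/-- The complex number `√-d`. -/
noncomputable def rt (d : ℕ) : ℂ := Complex.I * (Real.sqrt d : ℝ)

/-- The generator `w` of the ring of integers `ℤ[w]` of `ℚ(√-d)`, `d` squarefree: `(1 + √-d)/2` if
`d ≡ 3` modulo `4`, and `√-d` otherwise. -/
noncomputable def wd (d : ℕ) : ℂ := if d % 4 = 3 then (1 + rt d) / 2 else rt d

/-- The lattice `L` has complex multiplication by the ring of integers `ℤ[w]` of `ℚ(√-d)`. -/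
def HasCM (d : ℕ) (L : PeriodPair) : Prop := ∀ z ∈ L.lattice, wd d * z ∈ L.lattice

/-- The discriminant `g₂³ - 27 g₃²` of the lattice `L`. -/
noncomputable def dsc (L : PeriodPair) : ℂ := L.g₂ ^ 3 - 27 * L.g₃ ^ 2

/-- The subfield of `ℂ` generated by `√-d`, the numbers `j(L)/1728` and the values at the points
of finite order of the Weber functions `(g₂ g₃ / (g₂³ - 27 g₃²)) ℘(z)`, for all lattices `L` with
complex multiplication by the ring of integers of `ℚ(√-d)`. -/
noncomputable def weberField (d : ℕ) : IntermediateField ℚ ℂ :=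
  IntermediateField.adjoin ℚ ({rt d} ∪ {t : ℂ | ∃ L : PeriodPair, HasCM d L ∧
    (t = L.g₂ ^ 3 / dsc L ∨
      ∃ (n : ℕ) (z : ℂ), n ≠ 0 ∧ n * z ∈ L.lattice ∧ z ∉ L.lattice ∧
        t = L.g₂ * L.g₃ / dsc L * L.weierstrassP z)})

/-- The class number of the subfield `E` of `ℂ` (the number of elements of the class group of its
ring of integers). -/
noncomputable def classNo (E : IntermediateField ℚ ℂ) : ℕ := Nat.card (ClassGroup (𝓞 E))

/-- `Q` is the `n`-th layer of the cyclotomic `ℤ_p`-extension of `ℚ`: it has degree `p ^ n` over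
`ℚ`, consists of real numbers, and is contained in `ℚ(ζ)` for a root of unity `ζ` of `p`-power
order. -/
def IsLayer (p n : ℕ) (Q : IntermediateField ℚ ℂ) : Prop :=
  Module.finrank ℚ Q = p ^ n ∧ (∀ z ∈ Q, (starRingEnd ℂ) z = z) ∧
    ∃ m : ℕ, Q ≤ IntermediateField.adjoin ℚ {z : ℂ | z ^ (p ^ m) = 1}

end Pool.Agent.MuDefs
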