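import Pool.Agent.MUX.StHX

/-!
# MUX, block HX (helper27), module BD: the values of the symbols have bounded denominators
-/

set_option autoImplicit false

namespace Pool.Agent.MUXH

open _root_.MU3 Pool.Agent.MuSym OnePoint

noncomputable section

/-- BD. -/
theorem tx_BD (hMAX : Sx_MAX) (hALB : Sx_ALB) : Sx_BD := by
  intro p V N₀ s₀ h a nu P s hyp
  obtain ⟨T, hT⟩ := hyp.fin
  obtain ⟨⟨l, ⟨x0, y0, rfl⟩, hmax⟩, -⟩ := hMAX V T {z | ∃ x y, P 0 x y = z} (by
      rintro _ ⟨x, y, rfl⟩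
      exact hT x y) ⟨_, ∞, ∞, rfl⟩
  obtain ⟨k, hk⟩ := hALB p hyp.pp V hyp.vp _ (hyp.alg x0 y0)
  refine ⟨k, fun i => ?_⟩
  induction i with
  | zero =>
    intro x y
    refine le_trans ?_ hk
    rw [map_mul, map_mul]
    exact mul_le_mul_right (hmax _ ⟨x, y, rfl⟩) _
  | succ i ih =>
    intro x y
    rw [← hyp.hec i x y]
    unfold hecke
    rw [hyp.nup, zero_mul, add_zero, Finset.mul_sum]
    refine (V.valuation_le_one_iff _).2 (sum_mem fun j _ => ?_)
    exact (V.valuation_le_one_iff _).1 (ih _ _)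

end

end Pool.Agent.MUXH
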