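import Pool.Agent.MUX.StHX

/-!
# MUX, block H: `v` is discrete on a number field
-/

set_option autoImplicit false

namespace Pool.Agent.MUXH

open _root_.MU3 Pool.Agent.MuSym OnePoint

noncomputable section

namespace Dis

theorem int_le (V : ValuationSubring ℂ) (n : ℤ) : V.valuation (n : ℂ) ≤ 1 :=
  (V.valuation_le_one_iff _).2 (intCast_mem V n)

theorem unit_of_not_dvd {p : ℕ} (hp : p.Prime) (V : ValuationSubring ℂ)
    (hv : V.valuation (p : ℂ) < 1) {m : ℤ} (hm : ¬ (p : ℤ) ∣ m) : V.valuation (m : ℂ) = 1 := by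
  have hco : IsCoprime (p : ℤ) m :=
    ((Nat.prime_iff_prime_int.1 hp).irreducible.coprime_iff_not_dvd).2 hm
  obtain ⟨a, b, hab⟩ := hco
  have h1 : (a : ℂ) * p + (b : ℂ) * m = 1 := by exact_mod_cast hab
  refine le_antisymm (int_le V m) ?_
  by_contra hlt
  have hlt' : V.valuation (m : ℂ) < 1 := not_le.1 hlt
  have h2 : V.valuation ((a : ℂ) * p) < 1 := by
    rw [map_mul]
    calc V.valuation (a : ℂ) * V.valuation (p : ℂ) ≤ 1 * V.valuation (p : ℂ) := by
          gcongr
          exact int_le V a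
      _ < 1 := by rwa [one_mul]
  have h4 : V.valuation ((b : ℂ) * m) < 1 := by
    rw [map_mul]
    calc V.valuation (b : ℂ) * V.valuation (m : ℂ) ≤ 1 * V.valuation (m : ℂ) := by
          gcongr
          exact int_le V b
      _ < 1 := by rwa [one_mul]
  have h5 := V.valuation.map_add_lt h2 h4
  rw [h1, map_one] at h5
  exact lt_irrefl _ h5

/-- rational numbers -/
theorem rat_le {p : ℕ} (hp : p.Prime) (V : ValuationSubring ℂ)
    (hv : V.valuation (p : ℂ) < 1) (q : ℚ) (h : V.valuation (q : ℂ) < 1) :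
    V.valuation (q : ℂ) ≤ V.valuation (p : ℂ) := by
  have hq : (q : ℂ) * (q.den : ℂ) = (q.num : ℂ) := by
    have h1 : q * q.den = q.num := Rat.mul_den_eq_num q
    exact_mod_cast h1
  have hd1 : V.valuation (q.den : ℂ) ≤ 1 := by
    have := int_le V (q.den : ℤ)
    rwa [Int.cast_natCast] at this
  have hn1 : V.valuation (q.num : ℂ) < 1 := by
    rw [← hq, map_mul]
    calc V.valuation (q : ℂ) * V.valuation (q.den : ℂ) ≤ V.valuation (q : ℂ) * 1 := by gcongr
      _ < 1 := by rwa [mul_one]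
  have hdvd : (p : ℤ) ∣ q.num := by
    by_contra hcon
    rw [unit_of_not_dvd hp V hv hcon] at hn1
    exact lt_irrefl _ hn1
  have hden : ¬ (p : ℤ) ∣ (q.den : ℤ) := by
    intro hcon
    have hcop := q.reduced
    have h2 : p ∣ q.num.natAbs := by
      rw [← Int.natCast_dvd_natCast, Int.dvd_natAbs]
      exact hdvd
    have h3 : p ∣ q.den := by exact_mod_cast hcon
    have h4 := Nat.dvd_gcd h2 h3
    rw [Nat.Coprime] at hcop
    rw [hcop] at h4
    exact hp.one_lt.ne' (Nat.dvd_one.1 h4)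
  have hd : V.valuation (q.den : ℂ) = 1 := by
    have := unit_of_not_dvd hp V hv hden
    rwa [Int.cast_natCast] at this
  obtain ⟨c, hc⟩ := hdvd
  have h5 : V.valuation (q : ℂ) = V.valuation (q.num : ℂ) := by
    rw [← hq, map_mul, hd, mul_one]
  rw [h5, hc]
  push_cast
  rw [map_mul]
  calc V.valuation (p : ℂ) * V.valuation (c : ℂ) ≤ V.valuation (p : ℂ) * 1 := by
        gcongr
        exact int_le V c
    _ = _ := mul_one _

/-- two terms of a vanishing sum have the same valuation -/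
theorem two_terms (V : ValuationSubring ℂ) {n : ℕ} (t : Fin n → ℂ) (h0 : ∑ i, t i = 0)
    (hne : ∃ i, t i ≠ 0) : ∃ i j : Fin n, i < j ∧ t i ≠ 0 ∧ t j ≠ 0 ∧
      V.valuation (t i) = V.valuation (t j) := by
  obtain ⟨k, hk⟩ := hne
  obtain ⟨i, -, hi⟩ := Finset.exists_max_image Finset.univ (fun i => V.valuation (t i))
    ⟨k, Finset.mem_univ k⟩
  have hti : t i ≠ 0 := by
    intro h
    have h1 := hi k (Finset.mem_univ k)
    simp only [h, map_zero] at h1
    exact hk ((map_eq_zero _).1 (le_antisymm h1 zero_le))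
  have hex : ∃ j, j ≠ i ∧ V.valuation (t i) = V.valuation (t j) := by
    by_contra hcon
    have hlt : ∀ j ∈ Finset.univ.erase i, V.valuation (t j) < V.valuation (t i) := by
      intro j hj
      have hji := (Finset.mem_erase.1 hj).1
      refine lt_of_le_of_ne (hi j (Finset.mem_univ j)) (fun h => hcon ⟨j, hji, h.symm⟩)
    have h2 := V.valuation.map_sum_lt ((V.valuation.ne_zero_iff).2 hti) hlt
    have h3 : t i + ∑ j ∈ Finset.univ.erase i, t j = 0 := by
      rw [Finset.add_sum_erase _ _ (Finset.mem_univ i), h0]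
    have h4 : ∑ j ∈ Finset.univ.erase i, t j = -t i := by
      rw [← add_eq_zero_iff_eq_neg, add_comm]
      exact h3
    rw [h4, Valuation.map_neg] at h2
    exact lt_irrefl _ h2
  obtain ⟨j, hji, hj⟩ := hex
  have htj : t j ≠ 0 := by
    intro h
    rw [h, map_zero] at hj
    exact hti ((map_eq_zero _).1 hj)
  rcases lt_or_gt_of_ne hji with h | h
  · exact ⟨j, i, h, htj, hti, hj.symm⟩
  · exact ⟨i, j, h, hti, htj, hj⟩

end Dis

open Dis in
/-- `v` is discrete on a number field. -/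
theorem tx_DIS : Sx_DIS := by
  intro p hp V hv K hK
  refine ⟨Module.finrank ℚ K, ?_⟩
  set d := Module.finrank ℚ K with hd
  have hd1 : 0 < d := Module.finrank_pos
  intro x hx hvx
  by_cases hx0 : x = 0
  · rw [hx0, map_zero, zero_pow hd1.ne']
    exact zero_le
  have hdep : ¬ LinearIndependent ℚ (fun i : Fin (d + 1) => (⟨x, hx⟩ : K) ^ (i : ℕ)) := by
    intro h
    have h1 := h.fintype_card_le_finrank
    rw [Fintype.card_fin] at h1
    omega
  obtain ⟨c, hc, i₀, hi₀⟩ := Fintype.not_linearIndependent_iff.1 hdep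
  have hc' : ∑ i : Fin (d + 1), (c i : ℂ) * x ^ (i : ℕ) = 0 := by
    have h1 := congrArg (algebraMap K ℂ) hc
    rw [map_sum, map_zero] at h1
    rw [← h1]
    refine Finset.sum_congr rfl (fun i _ => ?_)
    rw [Algebra.smul_def, map_mul, map_pow]
    congr 1
  obtain ⟨i, j, hij, hi, hj, hvv⟩ := two_terms V (fun i : Fin (d + 1) => (c i : ℂ) * x ^ (i : ℕ)) hc'
    ⟨i₀, mul_ne_zero (by exact_mod_cast hi₀) (pow_ne_zero _ hx0)⟩
  have hci : (c i : ℂ) ≠ 0 := left_ne_zero_of_mul hi
  have hcj : (c j : ℂ) ≠ 0 := left_ne_zero_of_mul hj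
  have hij' : (i : ℕ) < j := hij
  have hjd : (j : ℕ) ≤ d := Nat.lt_succ_iff.1 j.2
  have hvx0 : V.valuation x ≠ 0 := (V.valuation.ne_zero_iff).2 hx0
  have hvcj : V.valuation (c j : ℂ) ≠ 0 := (V.valuation.ne_zero_iff).2 hcj
  have e1 : V.valuation x ^ ((j : ℕ) - i) = V.valuation (((c i / c j : ℚ)) : ℂ) := by
    have e2 : V.valuation x ^ (j : ℕ) = V.valuation x ^ ((j : ℕ) - i) * V.valuation x ^ (i : ℕ) := by
      rw [← pow_add, Nat.sub_add_cancel hij'.le]
    simp only [map_mul, map_pow] at hvv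
    rw [e2, ← mul_assoc] at hvv
    have e3 := mul_right_cancel₀ (pow_ne_zero _ hvx0) hvv
    push_cast
    rw [map_div₀, e3, mul_div_cancel_left₀ _ hvcj]
  have h1 : V.valuation x ^ ((j : ℕ) - i) < 1 := pow_lt_one₀ zero_le hvx (by omega)
  have h2 := rat_le hp V hv (c i / c j) (by rw [← e1]; exact h1)
  rw [← e1] at h2
  refine le_trans ?_ h2
  exact pow_le_pow_right_of_le_one' hvx.le (by omega)

end

end Pool.Agent.MUXH
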