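import Pool.Agent.MUX.StHX

/-!
# MUX, block HX: module FLD, all values are in a number field
-/

set_option autoImplicit false

namespace Pool.Agent.MUXH

open _root_.MU3 Pool.Agent.MuSym OnePoint

theorem tx_FLD (hMAX : Sx_MAX) : Sx_FLD := by
  intro p V N₀ s₀ h a nu P s hH
  obtain ⟨T, hT⟩ := hH.fin
  obtain ⟨_, S₀, hS₀, hS⟩ := hMAX V T {z | ∃ x y, z = P 0 x y}
    (by rintro _ ⟨x, y, rfl⟩; exact hT x y) ⟨P 0 ∞ ∞, ∞, ∞, rfl⟩
  have hint : ∀ z ∈ insert a (S₀ : Set ℂ), IsIntegral ℚ z := by
    intro z hz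
    rcases Set.mem_insert_iff.1 hz with rfl | hz
    · exact hH.alga.isIntegral
    · obtain ⟨x, y, rfl⟩ := hS₀ hz
      exact (hH.alg x y).isIntegral
  have hfin : Finite (insert a (S₀ : Set ℂ) : Set ℂ) :=
    (Set.Finite.insert a S₀.finite_toSet).to_subtype
  refine ⟨IntermediateField.adjoin ℚ (insert a (S₀ : Set ℂ)),
    IntermediateField.finiteDimensional_adjoin hint,
    IntermediateField.subset_adjoin ℚ _ (Set.mem_insert _ _), ?_⟩
  intro i
  induction i with
  | zero =>
    intro x y
    have hmem : P 0 x y ∈ AddSubgroup.closure (S₀ : Set ℂ) := hS ⟨x, y, rfl⟩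
    refine AddSubgroup.closure_induction ?_ ?_ ?_ ?_ hmem
    · intro z hz
      exact IntermediateField.subset_adjoin ℚ _ (Set.mem_insert_of_mem _ hz)
    · exact IntermediateField.zero_mem _
    · intro z w _ _ hz hw
      exact IntermediateField.add_mem _ hz hw
    · intro z _ hz
      exact IntermediateField.neg_mem _ hz
  | succ i ih =>
    intro x y
    rw [← hH.hec i x y]
    unfold hecke
    rw [hH.nup, zero_mul, add_zero]
    exact IntermediateField.sum_mem _ fun j _ => ih _ _

end Pool.Agent.MUXH
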