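import Pool.Agent.MUX.StHX

/-!
# MUX, block H, abstract part: the glue
-/

set_option autoImplicit false

namespace Pool.Agent.MUXH

open _root_.MU3 Pool.Agent.MuSym OnePoint

noncomputable section

namespace Ha

/-- the powers of `p` in an integer -/
lemma split (p : ℕ) (hp : p.Prime) (n : ℕ) (b : ℤ) (h : ¬ (p : ℤ) ^ n ∣ b) :
    ∃ (k : ℕ) (b' : ℤ), k < n ∧ ¬ (p : ℤ) ∣ b' ∧ b = p ^ k * b' := by
  have hb : b ≠ 0 := by rintro rfl; exact h (dvd_zero _)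
  have hfin : FiniteMultiplicity (p : ℤ) b := by
    rw [Int.finiteMultiplicity_iff]
    refine ⟨?_, hb⟩
    simpa using hp.one_lt.ne'
  obtain ⟨b', hb', hnd⟩ := hfin.exists_eq_pow_mul_and_not_dvd
  refine ⟨multiplicity (p : ℤ) b, b', ?_, hnd, hb'⟩
  by_contra hlt
  push Not at hlt
  exact h (dvd_trans (pow_dvd_pow _ hlt) (Dvd.intro _ hb'.symm))

/-- the combination is linear -/
lemma comb_div (a g : ℤ) (N : ℕ) (F G : ℤ → ℂ) (c : ℂ) (h : ∀ b, F b = G b / c) (b : ℤ) :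
    comb a g N F b = comb a g N G b / c := by
  unfold comb
  rw [Finset.sum_div]
  refine Finset.sum_congr rfl fun j _ => ?_
  rw [h, h]
  ring

end Ha

open Ha in
theorem tx_HA (hHZ : Sx_HZ) (hH5 : Sx_H5) (hMD : Sx_MD) (hMAX : Sx_MAX) (hDIS : Sx_DIS)
    (hHK : Sx_HK) (hFLD : Sx_FLD) (hH2 : Sx_H2) : Sx_HA := by
  intro p V N₀ s₀ h a nu P s hyp
  obtain ⟨K, hKfin, haK, hPK⟩ := hFLD p V N₀ s₀ h a nu P s hyp
  obtain ⟨n₁, b₁, hn₁, hb₁, hv₁⟩ := hH2 p V N₀ s₀ h a nu P s hyp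
  obtain ⟨d, hd⟩ := hDIS p hyp.pp V hyp.vp K hKfin
  obtain ⟨T, hT⟩ := hyp.fin
  have hp := hyp.pp
  have hp1 : 1 ≤ p := hp.one_le
  have hh := hyp.h1
  have hpQ : (p : ℚ) ≠ 0 := by exact_mod_cast hp.ne_zero
  have ha0 : a ≠ 0 := by
    rintro rfl
    have := hyp.va
    rw [map_zero] at this
    exact zero_ne_one this
  have hk := fun i => hHK p hp1 _ nu (P i) (P (i + 1)) (hyp.sym i) hyp.nu1 (s : ℂ)
  set g : ℕ → ℚ → ℂ := fun i x => sgnPart (s : ℂ) (P i) ∞ (x : OnePoint ℚ) with hg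
  have hgper : ∀ (i : ℕ) (x : ℚ) (k : ℤ), g i (x + k) = g i x := fun i x k => (hk i).1 x k
  have hgU : ∀ (i : ℕ) (x : ℚ), ∑ j ∈ Finset.range p, g i ((x + j) / p) = g (i + 1) x :=
    fun i x => (hk i).2.2 hyp.nup (hyp.hec i) x
  have hgh : ∀ x : ℚ, g h x = a * g 0 x := by
    intro x
    simp only [hg, sgnPart, hyp.per]
    ring
  have hgK : ∀ (i : ℕ) (x : ℚ), g i x ∈ K := by
    intro i x
    simp only [hg, sgnPart]
    exact K.add_mem (hPK _ _ _) (K.mul_mem (intCast_mem K s) (hPK _ _ _))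
  -- the set of the values
  set S : Set ℂ := {x | ∃ (n : ℕ) (b : ℤ), 1 ≤ n ∧ ¬ (p : ℤ) ∣ b ∧ x = g 0 (b / p ^ n)} with hS
  obtain ⟨lam, ⟨n₂, b₂, hn₂, hb₂, hlam⟩, hmax⟩ := (hMAX V T S (by
      rintro x ⟨n, b, -, -, rfl⟩
      simp only [hg, sgnPart, SetLike.mem_coe]
      refine AddSubgroup.add_mem _ (hT _ _) ?_
      rw [← zsmul_eq_mul]
      exact AddSubgroup.zsmul_mem _ (hT _ _) s)
    ⟨_, n₁, b₁, hn₁, hb₁, rfl⟩).1
  have hvlam : 1 ≤ V.valuation lam := hv₁.trans (hmax _ ⟨n₁, b₁, hn₁, hb₁, rfl⟩)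
  have hvlam0 : 0 < V.valuation lam := lt_of_lt_of_le zero_lt_one hvlam
  have hlam0 : lam ≠ 0 := by
    rintro h
    rw [h, map_zero] at hvlam0
    exact lt_irrefl _ hvlam0
  have hlamK : lam ∈ K := by rw [hlam]; exact hgK _ _
  obtain ⟨hshift, hDist, hsum⟩ := hMD p hp1 g a lam h n₂ hh ha0 hgper hgU hgh
  -- powers of the shift
  have hpow : ∀ (k : ℕ) (x : ℚ), g (h * k) x = a ^ k * g 0 x := by
    intro k
    induction k with
    | zero => intro x; simp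
    | succ k ih =>
      intro x
      rw [Nat.mul_succ, hshift, ih, pow_succ]
      ring
  set M : ℕ → ℤ → ℂ := fun n b => g ((h - 1) * n + n₂) (b / p ^ n) / (lam * a ^ n) with hM
  have hvM : ∀ n b, V.valuation (M n b) =
      V.valuation (g ((h - 1) * n + n₂) (b / p ^ n)) / V.valuation lam := by
    intro n b
    simp only [hM]
    rw [map_div₀, map_mul, map_pow, hyp.va, one_pow, mul_one]
  have hMK : ∀ n b, M n b ∈ K := by
    intro n b
    exact K.div_mem (hgK _ _) (K.mul_mem hlamK (pow_mem haK n))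
  -- integrality of the values
  have hbound : ∀ (i n : ℕ) (b : ℤ), ¬ (p : ℤ) ^ n ∣ b →
      V.valuation (g i (b / p ^ n)) ≤ V.valuation lam := by
    intro i n b hb
    rw [hsum i n b]
    refine Valuation.map_sum_le _ fun b' _ => ?_
    have hb1 : ¬ (p : ℤ) ^ n ∣ b + b' * p ^ n := by
      intro hd
      exact hb ((dvd_add_left (Dvd.intro_left _ rfl)).1 hd)
    obtain ⟨k, c, hkn, hc, hbc⟩ := split p hp n _ hb1
    apply hmax
    refine ⟨n + i - k, c, by omega, hc, ?_⟩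
    have h3 : (p : ℚ) ^ (n + i) = p ^ k * p ^ (n + i - k) := by
      rw [← pow_add]; congr 1; omega
    have h4 : (((b + b' * p ^ n : ℤ) : ℚ) / p ^ (n + i)) = ((c : ℤ) : ℚ) / p ^ (n + i - k) := by
      rw [h3, hbc]
      push_cast
      field_simp
    rw [h4]
  have hMint : ∀ (n : ℕ) (b : ℤ), ¬ (p : ℤ) ^ n ∣ b → V.valuation (M n b) ≤ 1 := by
    intro n b hb
    rw [hvM, div_le_one₀ hvlam0]
    exact hbound _ n b hb
  have hidx : (h - 1) * n₂ + n₂ = h * n₂ := by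
    obtain ⟨h', rfl⟩ := Nat.exists_eq_add_of_le hh
    rw [Nat.add_sub_cancel_left]; ring
  have hMunit : ∃ (n : ℕ) (b : ℤ), 1 ≤ n ∧ ¬ (p : ℤ) ∣ b ∧ V.valuation (M n b) = 1 := by
    refine ⟨n₂, b₂, hn₂, hb₂, ?_⟩
    rw [hvM, hidx, hpow, map_mul, map_pow, hyp.va, one_pow, one_mul, ← hlam, div_self hvlam0.ne']
  refine ⟨n₂, ?_⟩
  intro α γ hα hα1 hγ hγ1 N hN E
  obtain ⟨hD1, hI1, hU1⟩ := hH5 p hp V hyp.vp M hDist hMint hMunit α γ hα hα1 hγ hγ1 N hN
  have hCK : ∀ n b, comb α γ N (M n) b ∈ K := by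
    intro n b
    unfold comb
    refine K.sum_mem fun j _ => K.mul_mem (K.mul_mem (pow_mem (K.neg_mem K.one_mem) _)
      (natCast_mem K _)) (K.sub_mem (K.mul_mem (intCast_mem K _) (hMK _ _))
        (K.mul_mem (pow_mem (intCast_mem K _) _) (hMK _ _)))
  obtain ⟨n₀, hn₀⟩ := hHZ p hp V hyp.vp K.toSubfield.toSubring d hd _ hD1 hCK hI1 hU1 E
  refine ⟨max n₀ n₂, fun n hn hmod ζ hζ => ?_⟩
  have hmain := hn₀ n (le_trans (le_max_left _ _) hn) ζ hζ
  have hn2 : n₂ ≤ n := le_trans (le_max_right _ _) hn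
  obtain ⟨k, hk'⟩ : h ∣ n - n₂ := (Nat.modEq_iff_dvd' hn2).1 hmod.symm
  have hnk : n = n₂ + h * k := by omega
  have hkn : k ≤ n := by
    have : k ≤ h * k := Nat.le_mul_of_pos_left k (by omega)
    omega
  have hidx2 : (h - 1) * n + n₂ = h * (n - k) := by
    obtain ⟨h', rfl⟩ := Nat.exists_eq_add_of_le hh
    obtain ⟨l, rfl⟩ := Nat.exists_eq_add_of_le hkn
    rw [Nat.add_sub_cancel_left, Nat.add_sub_cancel_left]
    have : n₂ = k + l - (1 + h') * k := by omega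
    have h5 : k + l = n₂ + (1 + h') * k := hnk
    nlinarith
  have hMn : ∀ b : ℤ, M n b = g 0 (b / p ^ n) / (lam * a ^ k) := by
    intro b
    simp only [hM]
    rw [hidx2, hpow]
    have h6 : a ^ n = a ^ (n - k) * a ^ k := by rw [← pow_add]; congr 1; omega
    rw [h6]
    field_simp
  have hsum2 : (∑ b ∈ Finset.range (p ^ n), ζ ^ b * comb α γ N (M n) b) =
      (∑ b ∈ Finset.range (p ^ n), ζ ^ b * comb α γ N (fun b => g 0 (b / p ^ n)) b) /
        (lam * a ^ k) := by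
    rw [Finset.sum_div]
    refine Finset.sum_congr rfl fun b _ => ?_
    rw [comb_div α γ N (M n) (fun b => g 0 (b / p ^ n)) _ hMn]
    ring
  rw [hsum2, map_div₀, map_mul, map_pow, hyp.va, one_pow, mul_one, div_pow] at hmain
  refine lt_of_lt_of_le hmain ?_
  rw [div_le_iff₀ (pow_pos hvlam0 E)]
  exact le_mul_of_one_le_right' (one_le_pow_of_one_le' hvlam E)

end

end Pool.Agent.MUXH
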