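import Pool.Agent.MUX.StHX
import Pool.Agent.MU3.P_KM1
import Pool.Agent.MU3.P_KM1L
import Pool.Agent.MU3.P_KM2

/-!
# MUX, block HX: module KMX (helper43)

The key lemma for a cycle of symbols, from the key lemma for one symbol over the Laurent polynomial ring.
-/

set_option autoImplicit false

namespace Pool.Agent.MUXH

open _root_.MU3 Pool.Agent.MuSym OnePoint

noncomputable section

namespace Kmx

variable {R M : Type} [CommRing R] [AddCommGroup M] [Module R M]

/-- the twisted shift -/
def sh (h : ℕ) (h1 : 1 ≤ h) (a : R) : (Fin h → M) →ₗ[R] (Fin h → M) where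
  toFun m i := if hi : (i : ℕ) + 1 < h then m ⟨(i : ℕ) + 1, hi⟩ else a • m ⟨0, h1⟩
  map_add' m m' := by
    funext i
    by_cases hi : (i : ℕ) + 1 < h
    · simp [hi]
    · simp [hi, smul_add]
  map_smul' r m := by
    funext i
    by_cases hi : (i : ℕ) + 1 < h
    · simp [hi]
    · simp [hi, smul_comm a r]

/-- the inverse -/
def shi (h : ℕ) (h1 : 1 ≤ h) (a' : R) : (Fin h → M) →ₗ[R] (Fin h → M) where
  toFun m i := if (i : ℕ) = 0 then a' • m ⟨h - 1, by omega⟩ else m ⟨(i : ℕ) - 1, by omega⟩
  map_add' m m' := by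
    funext i
    by_cases hi : (i : ℕ) = 0
    · simp [hi, smul_add]
    · simp [hi]
  map_smul' r m := by
    funext i
    by_cases hi : (i : ℕ) = 0
    · simp [hi, smul_comm a' r]
    · simp [hi]

theorem sh_apply {h : ℕ} (h1 : 1 ≤ h) (a : R) (m : Fin h → M) (i : Fin h) :
    sh h h1 a m i = if hi : (i : ℕ) + 1 < h then m ⟨(i : ℕ) + 1, hi⟩ else a • m ⟨0, h1⟩ := rfl

theorem shi_apply {h : ℕ} (h1 : 1 ≤ h) (a' : R) (m : Fin h → M) (i : Fin h) :
    shi h h1 a' m i = if (i : ℕ) = 0 then a' • m ⟨h - 1, by omega⟩ else m ⟨(i : ℕ) - 1, by omega⟩ :=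
  rfl

theorem sh_shi {h : ℕ} (h1 : 1 ≤ h) {a a' : R} (haa : a * a' = 1) (m : Fin h → M) :
    sh h h1 a (shi h h1 a' m) = m := by
  funext i
  rw [sh_apply]
  split_ifs with hi
  · rw [shi_apply]
    rw [if_neg (by simp)]
    congr 1
  · rw [shi_apply, if_pos rfl, smul_smul, haa, one_smul]
    congr 1
    ext
    have := i.isLt
    show h - 1 = (i : ℕ)
    omega

theorem shi_sh {h : ℕ} (h1 : 1 ≤ h) {a a' : R} (haa : a * a' = 1) (m : Fin h → M) :
    shi h h1 a' (sh h h1 a m) = m := by
  funext i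
  rw [shi_apply]
  split_ifs with hi
  · rw [sh_apply, dif_neg (by show ¬ (h - 1 + 1 < h); omega), smul_smul, mul_comm, haa, one_smul]
    congr 1
    ext
    exact hi.symm
  · have := i.isLt
    rw [sh_apply, dif_pos (by show (i : ℕ) - 1 + 1 < h; omega)]
    congr 1
    ext
    show (i : ℕ) - 1 + 1 = (i : ℕ)
    omega

/-- the unit -/
def shu (h : ℕ) (h1 : 1 ≤ h) (a a' : R) (haa : a * a' = 1) : (Module.End R (Fin h → M))ˣ where
  val := sh h h1 a
  inv := shi h h1 a'
  val_inv := LinearMap.ext fun m => sh_shi h1 haa m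
  inv_val := LinearMap.ext fun m => shi_sh h1 haa m

/-- the action of the Laurent polynomials -/
def act (h : ℕ) (h1 : 1 ≤ h) (a a' : R) (haa : a * a' = 1) :
    LaurentPolynomial R →ₐ[R] Module.End R (Fin h → M) :=
  AddMonoidAlgebra.lift R (Module.End R (Fin h → M)) ℤ
    ((Units.coeHom _).comp (zpowersHom _ (shu h h1 a a' haa)))

theorem act_T {h : ℕ} (h1 : 1 ≤ h) {a a' : R} (haa : a * a' = 1) :
    act (M := M) h h1 a a' haa (LaurentPolynomial.T 1) = sh h h1 a := by
  unfold act LaurentPolynomial.T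
  rw [AddMonoidAlgebra.lift_single, one_smul]
  simp [shu]

end Kmx

open Kmx in
theorem tx_KMX : Sx_KMX := by
  intro p hp N' s hpN hN R M _ _ _ χ Φ h h1 a ha k hk hχ1 hχm hχp hadd hE hT hTa hZ
  obtain ⟨a', haa⟩ := ha.exists_right_inv
  have hKM2 : Pool.Agent.MU3.S_KM2 :=
    Pool.Agent.MU3.t_KM2 Pool.Agent.MU3.t_KM1 Pool.Agent.MU3.t_KM1L
  let act' : LaurentPolynomial R →+* Module.End R (Fin h → M) :=
    (act h h1 a a' haa : LaurentPolynomial R →ₐ[R] Module.End R (Fin h → M)).toRingHom
  let inst : Module (LaurentPolynomial R) (Fin h → M) := Module.compHom (Fin h → M) act'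
  have hsm : ∀ (r : LaurentPolynomial R) (m : Fin h → M), r • m = act h h1 a a' haa r m :=
    fun r m => rfl
  have hT1 : ∀ m : Fin h → M, (LaurentPolynomial.T 1 : LaurentPolynomial R) • m = sh h h1 a m := by
    intro m
    rw [hsm, act_T]
  have hal : ∀ (r : R) (m : Fin h → M), algebraMap R (LaurentPolynomial R) r • m = r • m := by
    intro r m
    rw [hsm, AlgHom.commutes, Module.algebraMap_end_apply]
  -- vanishing of all the components
  have hZ' : ∀ i n : ℕ, 1 ≤ n → ∀ b : ℤ, ¬ (p : ℤ) ∣ b →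
      Φ i ∞ ((b / p ^ n : ℚ) : OnePoint ℚ) = 0 := by
    intro i
    induction i with
    | zero => exact hZ
    | succ i ih =>
      intro n hn b hb
      rw [hT]
      refine Finset.sum_eq_zero fun j _ => ?_
      have hpQ : (p : ℚ) ≠ 0 := by exact_mod_cast hp.ne_zero
      have e : ((b / p ^ n : ℚ) + j) / p = (((b + j * p ^ n : ℤ) : ℚ) / p ^ (n + 1) : ℚ) := by
        push_cast
        field_simp
        ring
      rw [e]
      refine ih (n + 1) (by omega) _ fun hcon => hb ?_
      have h3 : (p : ℤ) ∣ j * p ^ n := Dvd.dvd.mul_left (dvd_pow_self _ (by omega)) _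
      exact (dvd_add_left h3).1 hcon
  have key := @hKM2 p hp N' s hpN hN (LaurentPolynomial R) (Fin h → M) _ _ inst
    (fun d => algebraMap R (LaurentPolynomial R) (χ d)) (fun x y i => Φ i x y)
    (LaurentPolynomial.T 1) (LaurentPolynomial.isUnit_T 1) k
    (by
      intro x y
      rw [← Nat.cast_pow, Nat.cast_smul_eq_nsmul]
      funext i
      have h3 := hk i x y
      rw [← Nat.cast_pow, Nat.cast_smul_eq_nsmul] at h3
      exact h3)
    (by rw [hχ1, map_one])
    (fun d d' => by rw [hχm, map_mul])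
    (fun d d' hd => by rw [hχp d d' hd])
    (fun x y z => by
      funext i
      exact hadd i x y z)
    (fun a b c d hdet hc x y => by
      rw [hal]
      funext i
      exact hE i a b c d hdet hc x y)
    (fun x => by
      rw [hT1]
      funext i
      rw [sh_apply, Finset.sum_apply]
      split_ifs with hi
      · exact hT i x
      · have hi2 : (i : ℕ) + 1 = h := by
          have := i.isLt
          omega
        rw [← hTa x, ← hT i x, hi2])
    (fun n hn b hb => by
      funext i
      exact hZ' i n hn b hb)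
  intro α β γ δ hdet hγ hδ x
  exact congrFun (key α β γ δ hdet hγ hδ x) ⟨0, h1⟩

end

end Pool.Agent.MUXH
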