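import Pool.Agent.MUX.StHX

/-!
# MUX, block HX: module MD, the distribution attached to a cycle of functions under `U_p`
-/

set_option autoImplicit false

namespace Pool.Agent.MUXH

open _root_.MU3 Pool.Agent.MuSym OnePoint

namespace Md

lemma sum_range_mul' (f : ℕ → ℂ) (p q : ℕ) :
    ∑ k ∈ Finset.range (q * p), f k =
      ∑ b ∈ Finset.range q, ∑ j ∈ Finset.range p, f (b * p + j) := by
  induction q with
  | zero => simp
  | succ q ih =>
    rw [Nat.succ_mul, Finset.sum_range_add, ih, Finset.sum_range_succ]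

lemma step (p : ℕ) (hp : 1 ≤ p) (n : ℕ) (b : ℤ) (j : ℕ) :
    ((b : ℚ) / p ^ n + (j : ℚ)) / p = ((b + (j : ℤ) * p ^ n : ℤ) : ℚ) / p ^ (n + 1) := by
  have h1 : (p : ℚ) ≠ 0 := by
    have : p ≠ 0 := by omega
    exact_mod_cast this
  push_cast
  rw [pow_succ]
  field_simp

end Md

theorem tx_MD : Sx_MD := by
  intro p hp g a c h r hh ha hper hsum hg
  have hp0 : (p : ℚ) ≠ 0 := by
    have : p ≠ 0 := by omega
    exact_mod_cast this
  have h1 : ∀ (i : ℕ) (x : ℚ), g (i + h) x = a * g i x := by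
    intro i
    induction i with
    | zero => intro x; rw [zero_add]; exact hg x
    | succ i ih =>
      intro x
      rw [show i + 1 + h = (i + h) + 1 by ring, ← hsum (i + h) x, ← hsum i x, Finset.mul_sum]
      exact Finset.sum_congr rfl fun j _ => ih _
  refine ⟨h1, ⟨?_, ?_⟩, ?_⟩
  · intro n b b' hb
    obtain ⟨k, hk⟩ := hb
    have h3 : (p : ℚ) ^ n ≠ 0 := pow_ne_zero _ hp0
    have h2 : (b : ℚ) / p ^ n = (b' : ℚ) / p ^ n + k := by
      have h4 : b = b' + p ^ n * k := by linarith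
      rw [h4]
      push_cast
      field_simp
    show g ((h - 1) * n + r) ((b : ℚ) / p ^ n) / (c * a ^ n) =
      g ((h - 1) * n + r) ((b' : ℚ) / p ^ n) / (c * a ^ n)
    rw [h2, hper]
  · intro n b
    show g ((h - 1) * n + r) ((b : ℚ) / p ^ n) / (c * a ^ n) =
      ∑ j ∈ Finset.range p, g ((h - 1) * (n + 1) + r)
        (((b + (j : ℤ) * p ^ n : ℤ) : ℚ) / p ^ (n + 1)) / (c * a ^ (n + 1))
    have h2 : ∀ j ∈ Finset.range p, g ((h - 1) * (n + 1) + r)
        (((b + (j : ℤ) * p ^ n : ℤ) : ℚ) / p ^ (n + 1)) =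
        g ((h - 1) * (n + 1) + r) (((b : ℚ) / p ^ n + (j : ℚ)) / p) := by
      intro j _
      rw [Md.step p hp]
    have h3 : (h - 1) * (n + 1) + r + 1 = ((h - 1) * n + r) + h := by
      obtain ⟨h', rfl⟩ : ∃ h', h = h' + 1 := ⟨h - 1, by omega⟩
      simp only [Nat.add_sub_cancel]
      ring
    rw [← Finset.sum_div, Finset.sum_congr rfl h2, hsum, h3, h1, pow_succ]
    rcases eq_or_ne c 0 with hc | hc
    · subst hc
      simp
    · field_simp
  · intro i
    induction i with
    | zero =>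
      intro n b
      simp
    | succ i ih =>
      intro n b
      rw [← hsum i ((b : ℚ) / p ^ n)]
      have h2 : ∀ j ∈ Finset.range p, g i (((b : ℚ) / p ^ n + (j : ℚ)) / p) =
          ∑ b' ∈ Finset.range (p ^ i),
            g 0 (((b + ((b' * p + j : ℕ) : ℤ) * p ^ n : ℤ) : ℚ) / p ^ (n + (i + 1))) := by
        intro j _
        rw [Md.step p hp, ih (n + 1)]
        refine Finset.sum_congr rfl fun b' _ => ?_
        congr 1
        rw [show n + 1 + i = n + (i + 1) by ring]
        congr 1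
        push_cast
        ring
      rw [Finset.sum_congr rfl h2, Finset.sum_comm]
      have h3 := Md.sum_range_mul' (fun k => g 0 (((b + ((k : ℕ) : ℤ) * p ^ n : ℤ) : ℚ) /
        p ^ (n + (i + 1)))) p (p ^ i)
      rw [← pow_succ] at h3
      exact h3.symm

end Pool.Agent.MUXH
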