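import Pool.Agent.MU3.P_KM1
import Pool.Agent.MU3.P_KM1L
import Pool.Agent.MU3.P_KM2
import Pool.Agent.MUX.HX_HZ
import Pool.Agent.MUX.HX_STP
import Pool.Agent.MUX.HX_H5
import Pool.Agent.MUX.HX_MD
import Pool.Agent.MUX.HX_MAX
import Pool.Agent.MUX.HX_ALB
import Pool.Agent.MUX.HX_DIS
import Pool.Agent.MUX.HX_HK
import Pool.Agent.MUX.HX_KMX
import Pool.Agent.MUX.HX_FLD
import Pool.Agent.MUX.HX_BD
import Pool.Agent.MUX.HX_H1
import Pool.Agent.MUX.HX_H2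
import Pool.Agent.MUX.HX_HA

/-!
# MUX, block H, abstract part (helper27): everything unconditional
-/

set_option autoImplicit false

namespace Pool.Agent.MUXH

theorem x_HZ : Sx_HZ := tx_HZ
theorem x_STP : Sx_STP := tx_STP
theorem x_H5 : Sx_H5 := tx_H5 x_STP
theorem x_MD : Sx_MD := tx_MD
theorem x_MAX : Sx_MAX := tx_MAX
theorem x_ALB : Sx_ALB := tx_ALB
theorem x_DIS : Sx_DIS := tx_DIS
theorem x_HK : Sx_HK := tx_HK
theorem x_KMX : Sx_KMX := tx_KMX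
theorem x_FLD : Sx_FLD := tx_FLD x_MAX
theorem x_BD : Sx_BD := tx_BD x_MAX x_ALB
theorem x_H1 : Sx_H1 := tx_H1
theorem x_H2 : Sx_H2 := tx_H2 x_KMX x_H1 x_HK x_BD

/-- the abstract block H -/
theorem x_HA : Sx_HA := tx_HA x_HZ x_H5 x_MD x_MAX x_DIS x_HK x_FLD x_H2

end Pool.Agent.MUXH
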