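import Pool.Agent.MUX.StHX

/-!
# MUX, block HX: module H2 (helper14)

Adapted from `Pool/Agent/MU3/H_H2.lean`.
-/

set_option autoImplicit false

namespace Pool.Agent.MUXH

open _root_.MU3 Pool.Agent.MuSym OnePoint

noncomputable section

namespace H2

/-- The maximal ideal of `V`, as a submodule of `ℂ`. -/
def mI (V : ValuationSubring ℂ) : Submodule V ℂ where
  carrier := {x | V.valuation x < 1}
  add_mem' := by
    intro x y hx hy
    exact V.valuation.map_add_lt hx hy
  zero_mem' := by simp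
  smul_mem' := by
    intro c x hx
    change V.valuation x < 1 at hx
    show V.valuation (c • x) < 1
    have hc : V.valuation (c : ℂ) ≤ 1 := (V.valuation_le_one_iff _).2 c.2
    have : c • x = (c : ℂ) * x := rfl
    rw [this, map_mul]
    exact lt_of_le_of_lt (mul_le_of_le_one_left' hc) hx

lemma mem_mI (V : ValuationSubring ℂ) (x : ℂ) : x ∈ mI V ↔ V.valuation x < 1 := Iff.rfl

end H2

theorem tx_H2 (hKMX : Sx_KMX) (hH1 : Sx_H1) (hHK : Sx_HK) (hBD : Sx_BD) : Sx_H2 := by
  intro p V N₀ s₀ h a nu P s hyp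
  by_contra hcon
  push Not at hcon
  obtain ⟨k, hk⟩ := hBD p V N₀ s₀ h a nu P s hyp
  obtain ⟨ma, mb, mc, md, hdet, hc, hd, hval⟩ := hH1 p V N₀ s₀ h a nu P s hyp
  have hHKi := fun i => hHK p hyp.pp.one_lt.le _ nu (P i) (P (i + 1)) (hyp.sym i) hyp.nu1 (s : ℂ)
  have hvs : V.valuation (s : ℂ) ≤ 1 := by
    rcases hyp.s1 with h1 | h1
    · rw [h1]
      simp
    · rw [h1]
      simp
  have hamem : a ∈ V := (V.valuation_le_one_iff _).1 hyp.va.le
  have haunit : IsUnit (⟨a, hamem⟩ : V) := by
    rw [V.valuation_eq_one_iff]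
    exact hyp.va
  have key := hKMX p hyp.pp N₀ s₀ hyp.cop hyp.N0 V (ℂ ⧸ H2.mI V)
    (fun d => ⟨nu d, (V.valuation_le_one_iff _).1 (hyp.nuv d)⟩)
    (fun i x y => (H2.mI V).mkQ (sgnPart (s : ℂ) (P i) x y)) h hyp.h1
    ⟨a, hamem⟩ haunit (k + 1)
    (by
      intro i x y
      rw [← LinearMap.map_smul, Submodule.mkQ_apply, Submodule.Quotient.mk_eq_zero, H2.mem_mI]
      have h1 : ((((p : ℕ) : V) ^ (k + 1)) • (sgnPart (s : ℂ) (P i) x y) : ℂ) =
          p * (p ^ k * P i x y +
            (s : ℂ) * (p ^ k * P i (mob (-1) 0 0 1 x) (mob (-1) 0 0 1 y))) := by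
        have h2 : ((((p : ℕ) : V) ^ (k + 1)) • (sgnPart (s : ℂ) (P i) x y) : ℂ) =
          (p : ℂ) ^ (k + 1) * (sgnPart (s : ℂ) (P i) x y) := by
          show (((((p : ℕ) : V) ^ (k + 1) : V) : ℂ)) * _ = _
          push_cast
          rfl
        rw [h2]
        unfold sgnPart
        ring
      rw [h1, map_mul]
      refine lt_of_le_of_lt (mul_le_of_le_one_right' ?_) hyp.vp
      apply V.valuation.map_add_le (hk i x y)
      rw [map_mul]
      exact mul_le_one' hvs (hk i _ _))
    (by
      apply Subtype.ext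
      exact hyp.nu1)
    (by
      intro d d'
      apply Subtype.ext
      exact hyp.num d d')
    (by
      intro d d' h
      apply Subtype.ext
      exact hyp.nuper d d' h)
    (by
      intro i x y z
      rw [← map_add, (hHKi i).2.1.add])
    (by
      intro i a b c d h1 h2 x y
      rw [← LinearMap.map_smul]
      congr 1
      show _ = nu d * (sgnPart (s : ℂ) (P i) x y)
      rw [(hHKi i).2.1.equiv a b c d h1 h2 x y])
    (by
      intro i x
      rw [← map_sum]
      congr 1
      exact ((hHKi i).2.2 hyp.nup (hyp.hec i) x).symm)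
    (by
      intro x
      rw [← LinearMap.map_smul]
      congr 1
      show _ = a * (sgnPart (s : ℂ) (P 0) ∞ (x : OnePoint ℚ))
      unfold sgnPart
      rw [hyp.per, hyp.per]
      ring)
    (by
      intro n hn b hb
      rw [Submodule.mkQ_apply, Submodule.Quotient.mk_eq_zero, H2.mem_mI]
      exact hcon n b hn hb)
    ma mb mc md hdet hc hd ∞
  rw [Submodule.mkQ_apply, Submodule.Quotient.mk_eq_zero, H2.mem_mI] at key
  exact absurd hval (not_le.2 key)

end

end Pool.Agent.MUXH
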