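import Pool.Agent.MUX.StHX2

/-!
# MUX, module HY_ALF: the values of `PP 0` are algebraic and in a finitely generated group
-/

set_option autoImplicit false

namespace Pool.Agent.MUXHY

open _root_.MU3 Pool.Agent.MU3A Pool.Agent.MU3B Pool.Agent.MU3F Pool.Agent.MUX Pool.Agent.MUXH
  Pool.Agent.MuSym OnePoint
open scoped ComplexConjugate

namespace Alf

/-- `PP 0` without the power of `P`. -/
lemma PP_zero {A B : ℤ} {n : ℕ} {ι : Type} [Fintype ι] (R : Reps A B n ι) (P : Ideal (OO A B))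
    (e : OO A B → ℂ) (kk : ι → ℂ) (x y : OnePoint ℚ) :
    PP R P e kk 0 x y = ∑ c, (kk c / e ((nI (R.b c) : ℕ) : OO A B) / R.om R.i0) *
      PhiI (R.b c) e x y := by
  unfold PP
  rw [Finset.sum_div]
  apply Finset.sum_congr rfl
  intro c _
  rw [pow_zero, mul_one]
  ring

/-- A multiple of an element of a finitely generated group. -/
lemma mul_mem_closure (S : Finset ℂ) (a z : ℂ) (hz : z ∈ AddSubgroup.closure (S : Set ℂ)) :
    a * z ∈ AddSubgroup.closure ((fun s => a * s) '' (S : Set ℂ)) := by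
  have h1 : (AddMonoidHom.mulLeft a) z ∈
      (AddSubgroup.closure (S : Set ℂ)).map (AddMonoidHom.mulLeft a) :=
    AddSubgroup.mem_map_of_mem _ hz
  rw [AddMonoidHom.map_closure] at h1
  exact h1

end Alf

theorem ty_ALF (h1 : Sy_IDE) (h2 : Sy_ROU) (h3 : Sy_RAT) (h4 : MUXT.Xs_FTI) (h5 : MUXF.Sx_F7) :
    Sy_ALF := by
  intro p A B P V f hS ι _ R e he kk hkk
  have hc : CQ A B := hS.case.toCQ
  obtain ⟨_, _, _, _, hg, hpf, _, _, _, _⟩ := h1 p A B P V f hS
  obtain ⟨r, hr, hr1⟩ := h2 A B hc _ e hg he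
  have hp : p ≠ 0 := by
    rcases hS.case.split with ⟨h, _⟩ | ⟨h, _⟩ <;> omega
  refine ⟨fun x y => ?_, ?_⟩
  · rw [Alf.PP_zero]
    have hcoef : ∀ c, kk c / e ((nI (R.b c) : ℕ) : OO A B) / R.om R.i0 * PhiI (R.b c) e x y =
        kk c / e ((nI (R.b c) : ℕ) : OO A B) * (PhiI (R.b c) e x y / R.om c) *
          (R.om c / R.om R.i0) := by
      intro c
      have h0 : R.om c ≠ 0 := (R.nl c).om_ne
      field_simp
    rw [Finset.sum_congr rfl fun c _ => hcoef c]
    rw [← mem_algebraicClosure_iff]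
    apply sum_mem
    intro c _
    have hrat := h3 A B hc (R.b c) (R.L c) (R.om c) (R.nl c)
    refine mul_mem (mul_mem (div_mem ?_ ?_) ?_) ?_
    · exact mem_algebraicClosure_iff.2 (hkk c)
    · rw [mem_algebraicClosure_iff]
      by_cases h0 : e ((nI (R.b c) : ℕ) : OO A B) = 0
      · rw [h0]; exact isAlgebraic_zero
      · have h6 := hr1 _ h0
        apply IsAlgebraic.of_pow (Nat.pos_of_ne_zero hr)
        rw [h6]
        exact isAlgebraic_one
    · exact mem_algebraicClosure_iff.2 (hrat.2 _ e hg he x y)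
    · exact mem_algebraicClosure_iff.2 (hrat.1 _ _ _ (R.nl R.i0))
  · have hD : (0 : ℤ) < -(B ^ 2 + 4 * A) := by have := hc.neg; linarith
    obtain ⟨D, hDe⟩ : ∃ D : ℕ, (D : ℤ) = -(B ^ 2 + 4 * A) :=
      ⟨(-(B ^ 2 + 4 * A)).toNat, Int.toNat_of_nonneg hD.le⟩
    have hD0 : D ≠ 0 := by
      rintro rfl
      simp at hDe
      omega
    have hG : 0 < p * f := Nat.mul_pos (Nat.pos_of_ne_zero hp) (Nat.pos_of_ne_zero hS.f0)
    have hN : D * (p * f) ^ 2 ≠ 0 := mul_ne_zero hD0 (pow_ne_zero _ hG.ne')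
    have hex : ∀ c, ∃ S : Finset ℂ, ∀ x y, PhiI (R.b c) e x y ∈ AddSubgroup.closure (S : Set ℂ) := by
      intro c
      have h7 := h4 A B hc.hB hc.neg (R.b c) (R.nl c).b_ne e (p * f) hG he.mul ?_ he.neg
      · have h8 := (h7.2 (D * (p * f) ^ 2) hN ?_).1
        · exact h5 A B (toCQ hc) (R.b c) _ e (R.nl c).b_ne hg (toEI he) _ hN h8
        · rw [← hDe]
          push_cast
          exact dvd_refl _
      · intro x y hxy
        apply he.per
        obtain ⟨z, hz⟩ := hxy
        rw [hz]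
        exact Ideal.mul_mem_right _ _ hpf
    choose S hSm using hex
    classical
    refine ⟨Finset.univ.biUnion fun c => (S c).image fun s =>
      (kk c / e ((nI (R.b c) : ℕ) : OO A B) / R.om R.i0) * s, fun x y => ?_⟩
    rw [Alf.PP_zero]
    apply sum_mem
    intro c _
    refine AddSubgroup.closure_mono ?_ (Alf.mul_mem_closure (S c) _ _ (hSm c x y))
    intro z hz
    obtain ⟨s, hs, rfl⟩ := hz
    simp only [Finset.coe_biUnion, Finset.coe_image, Set.mem_iUnion]
    exact ⟨c, Finset.mem_coe.2 (Finset.mem_univ c), s, hs, rfl⟩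

end Pool.Agent.MUXHY
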