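import Pool.Agent.MUX.StHX2

/-!
# MUX, block HY, module CLN (helper1): a power of `P` is principal
-/

set_option autoImplicit false

namespace Pool.Agent.MUXHY

open _root_.MU3 Pool.Agent.MU3A Pool.Agent.MU3B Pool.Agent.MU3F Pool.Agent.MUX Pool.Agent.MUXH
  Pool.Agent.MuSym OnePoint

namespace Cln

variable {A B : ℤ}

theorem sp_mul (x y : OO A B) : sp (x * y) = sp x * sp y :=
  (Ideal.span_singleton_mul_span_singleton x y).symm

theorem core (hdom : IsDomain (OO A B))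
    (hcan : ∀ b c c' : Ideal (OO A B), b ≠ ⊥ → (b * c ≤ b * c' ↔ c ≤ c'))
    (P b : Ideal (OO A B)) (i k : ℕ) (hPi : P ^ i ≠ ⊥) (x y x' y' : OO A B) (hx' : x' ≠ 0)
    (hy : y ≠ 0) (h1 : sp x * P ^ i = sp y * b) (h2 : sp x' * P ^ (i + k) = sp y' * b) :
    ∃ al : OO A B, P ^ k = sp al := by
  have hcan' : ∀ b c c' : Ideal (OO A B), b ≠ ⊥ → b * c = b * c' → c = c' := by
    intro b c c' hb hbc
    exact le_antisymm ((hcan b c c' hb).1 hbc.le) ((hcan b c' c hb).1 hbc.ge)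
  have e1 : P ^ i * sp (y' * x) = P ^ i * (sp (y * x') * P ^ k) := by
    rw [sp_mul, sp_mul]
    calc P ^ i * (sp y' * sp x) = sp y' * (sp x * P ^ i) := by ring
      _ = sp y * (sp y' * b) := by rw [h1]; ring
      _ = P ^ i * (sp y * sp x' * P ^ k) := by rw [← h2, pow_add]; ring
  have e2 := hcan' _ _ _ hPi e1
  have hm : y' * x ∈ sp (y * x') * P ^ k := by
    rw [← e2]
    exact Ideal.mem_span_singleton_self _
  obtain ⟨al, -, hal⟩ := Ideal.mem_span_singleton_mul.1 hm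
  refine ⟨al, ?_⟩
  have hne : sp (y * x') ≠ ⊥ := by
    rw [Ne, Ideal.span_singleton_eq_bot]
    exact mul_ne_zero hy hx'
  apply hcan' _ _ _ hne
  rw [← e2, Ideal.span_singleton_mul_span_singleton, hal]

end Cln

theorem ty_CLN (h1 : MUXF.Sx_ALG) (h2 : MUXF.Sx_NIM) : Sy_CLN := by
  intro A B hq n ι _ R P hP
  obtain ⟨-, -, -, -, hdom⟩ := h1 A B (toCQ hq)
  obtain ⟨hmul, -, -, hcan⟩ := h2 A B (toCQ hq)
  have hpow : ∀ i : ℕ, P ^ i ≠ ⊥ := by
    intro i
    induction i with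
    | zero =>
      rw [pow_zero, Ideal.one_eq_top]
      exact top_ne_bot
    | succ i ih =>
      rw [pow_succ]
      exact (hmul _ _ ih hP).2
  choose c x y hx hy hxy using fun i : ℕ => R.surj (P ^ i) (hpow i)
  obtain ⟨i, j, hij, hc⟩ := Finite.exists_ne_map_eq_of_infinite c
  rcases lt_or_gt_of_ne hij with hlt | hlt
  · obtain ⟨k, hk⟩ := Nat.exists_eq_add_of_lt hlt
    have e1 := hxy i
    have e2 := hxy j
    rw [← hc, hk, add_assoc] at e2
    obtain ⟨al, hal⟩ := Cln.core hdom hcan P _ i (k + 1) (hpow i) _ _ _ _ (hx _) (hy i) e1 e2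
    exact ⟨k + 1, al, by omega, hal⟩
  · obtain ⟨k, hk⟩ := Nat.exists_eq_add_of_lt hlt
    have e1 := hxy j
    have e2 := hxy i
    rw [hc, hk, add_assoc] at e2
    obtain ⟨al, hal⟩ := Cln.core hdom hcan P _ j (k + 1) (hpow j) _ _ _ _ (hx _) (hy j) e1 e2
    exact ⟨k + 1, al, by omega, hal⟩

end Pool.Agent.MUXHY
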