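import Pool.Agent.MUX.StHX2

/-!
# Module MUXHY_EIG (helper25): the eigenvalue of `U_p ^ h`
-/

set_option autoImplicit false

namespace Pool.Agent.MUXHY

open _root_.MU3 Pool.Agent.MU3A Pool.Agent.MU3B Pool.Agent.MU3F Pool.Agent.MUX Pool.Agent.MUXH
  Pool.Agent.MuSym OnePoint
open scoped ComplexConjugate

noncomputable section

namespace Eig

theorem pne (a b : ℚ) : (Polynomial.X ^ 2 - Polynomial.C b * Polynomial.X - Polynomial.C a :
    Polynomial ℚ) ≠ 0 := by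
  intro h
  have h3 := congrArg (fun q => Polynomial.coeff q 2) h
  simp [Polynomial.coeff_X, Polynomial.coeff_C] at h3

theorem alg_wC {A B : ℤ} (h4 : MUXF.Sx_ALG) (hC : CQ A B) : IsAlgebraic ℚ (wC A B) := by
  have h1 := ((h4 A B (toCQ hC)).1 (⟨0, 1⟩ : OO A B) ⟨0, 1⟩).1
  have h2 : wC A B * wC A B = (A : ℂ) + B * wC A B := by
    have e1 : emb (⟨0, 1⟩ : OO A B) = wC A B := by simp [emb]
    have e2 : emb ((⟨0, 1⟩ : OO A B) * ⟨0, 1⟩) = (A : ℂ) + B * wC A B := by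
      simp [emb]
    rw [← e2, h1, e1]
  refine ⟨_, pne (A : ℚ) (B : ℚ), ?_⟩
  simp
  linear_combination h2

theorem alg_emb {A B : ℤ} (h4 : MUXF.Sx_ALG) (hC : CQ A B) (x : OO A B) :
    IsAlgebraic ℚ (emb x) := by
  have h1 := alg_wC h4 hC
  unfold emb
  exact (isAlgebraic_intCast _).add ((isAlgebraic_intCast _).mul h1)

end Eig

theorem ty_EIG (h1 : Sy_VAL) (h2 : Sy_IDE) (h3 : Sy_ROU) (h4 : MUXF.Sx_ALG) : Sy_EIG := by
  intro p A B P V f hS e he h al hh hal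
  have hCQ : CQ A B := hS.case.toCQ
  obtain ⟨-, -, -, hv2, -, -, hv5, -⟩ := h1 p A B P V f hS
  obtain ⟨-, -, -, -, i5, -, -, -, -, i10⟩ := h2 p A B P V f hS
  obtain ⟨-, halc, hals⟩ := i10 h al hh hal
  obtain ⟨r, hr, hre⟩ := h3 A B hCQ _ e i5 he
  have hne : e al ≠ 0 := (he.supp al).2 halc
  have hroot := hre al hne
  have hcj : conj (emb al) = emb (star al) :=
    ((h4 A B (toCQ hCQ)).2.1 al).2.2.2.2.2.1.symm
  constructor
  · rw [map_mul, hv5 r (e al) hr hroot, hcj, (hv2 (star al)).2 hals, one_mul]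
  · refine IsAlgebraic.mul ?_ ?_
    · have h5 : IsAlgebraic ℚ (e al ^ r) := by
        rw [hroot]; exact isAlgebraic_one
      exact h5.of_pow (Nat.pos_of_ne_zero hr)
    · rw [hcj]
      exact Eig.alg_emb h4 hCQ _

end

end Pool.Agent.MUXHY
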