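import Pool.Agent.MUX.StHX2
import Pool.Agent.MUX.Q_DGI

/-!
# MUX, block HY, module IDE (helper96): the ideals `P`, `cjI P`, `f`
-/

set_option autoImplicit false

namespace Pool.Agent.MUXHY

open _root_.MU3 Pool.Agent.MU3A Pool.Agent.MU3B Pool.Agent.MU3F Pool.Agent.MUX Pool.Agent.MUXH
  Pool.Agent.MuSym OnePoint
open scoped ComplexConjugate

noncomputable section

namespace Ide

variable {A B : ℤ}

theorem mem_cjI (b : Ideal (OO A B)) (x : OO A B) : x ∈ cjI b ↔ star x ∈ b := Iff.rfl

theorem nat_mem_cjI {b : Ideal (OO A B)} {n : ℕ} (h : (n : OO A B) ∈ b) :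
    (n : OO A B) ∈ cjI b := by
  rw [mem_cjI, star_natCast]
  exact h

end Ide

open Ide in
/-- (IDE) the ideals `P`, `cjI P`, `f`. -/
theorem ty_IDE (h1 : MUXF.Sx_ALG) : Sy_IDE := by
  intro p A B P V f hs
  have hcq := toCQ hs.case.toCQ
  obtain ⟨-, -, hint, hfin, hdom⟩ := h1 A B hcq
  have hpr := hs.hP.prime
  have hpp : p.Prime := by
    rcases hs.case.split with ⟨rfl, -⟩ | ⟨rfl, -⟩
    · exact Nat.prime_three
    · exact Nat.prime_two
  have hndvd : ¬ (p : ℤ) ∣ B ^ 2 + 4 * A := by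
    rcases hs.case.split with ⟨rfl, h⟩ | ⟨rfl, h⟩
    · push_cast; omega
    · push_cast; omega
  have hnat0 : ∀ n : ℕ, n ≠ 0 → (n : OO A B) ≠ 0 := by
    intro n hn h0
    have e1 := (hint (n : ℤ)).2
    have e2 : (((n : ℕ) : ℤ) : OO A B) = (n : OO A B) := by push_cast; rfl
    rw [e2, h0] at e1
    have e3 : nm (0 : OO A B) = 0 := by
      have := (hint 0).2
      simpa using this
    rw [e3] at e1
    have e4 : (n : ℤ) = 0 := by
      by_contra hne
      have := pow_ne_zero 2 hne
      exact this e1.symm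
    exact hn (by exact_mod_cast e4)
  have hpP := hs.hP.mem
  -- the integer `r`
  obtain ⟨r, hr1, hr2⟩ := Pool.Agent.MUXV.tq_DGI A B P p hpp hs.hP.norm
  have c1 : P ≠ ⊥ := by
    intro h
    rw [h] at hpP
    exact hnat0 p hpp.ne_zero (by simpa using hpP)
  have c2 : P.IsMaximal := by
    have := hfin P c1
    exact Ideal.Quotient.maximal_of_isField P (Finite.isField_of_domain (OO A B ⧸ P))
  have hpC : (p : OO A B) ∈ cjI P := nat_mem_cjI hpP
  have c3 : IsCoprime P (cjI P) := by
    have hx : (⟨-r, 1⟩ : OO A B) ∈ P := (hr2 _).2 (by simp)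
    have hy : (⟨-(B - r), 1⟩ : OO A B) ∈ cjI P := by
      rw [mem_cjI]
      refine (hr2 _).2 ?_
      simp
    have hcop : IsCoprime (B - 2 * r) (p : ℤ) := by
      have hp' := Nat.prime_iff_prime_int.1 hpp
      refine ((hp'.coprime_iff_not_dvd).2 ?_).symm
      intro hd
      apply hndvd
      have e1 : B ^ 2 + 4 * A = (B - 2 * r) * (B - 2 * r) - 4 * (r ^ 2 - B * r - A) := by ring
      rw [e1]
      exact dvd_sub (hd.mul_right _) (hr1.mul_left _)
    obtain ⟨u, v, huv⟩ := hcop
    rw [Ideal.isCoprime_iff_exists]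
    refine ⟨(u : OO A B) * ⟨-r, 1⟩ + (v : OO A B) * (p : OO A B),
      add_mem (P.mul_mem_left _ hx) (P.mul_mem_left _ hpP),
      -((u : OO A B) * ⟨-(B - r), 1⟩), neg_mem ((cjI P).mul_mem_left _ hy), ?_⟩
    have e1 : (⟨-r, 1⟩ : OO A B) = ⟨-(B - r), 1⟩ + ((B - 2 * r : ℤ) : OO A B) := by
      apply QuadraticAlgebra.ext
      · simp only [QuadraticAlgebra.re_add, QuadraticAlgebra.re_intCast, Int.cast_id]
        ring
      · simp only [QuadraticAlgebra.im_add, QuadraticAlgebra.im_intCast, add_zero]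
    have e2 : (u : OO A B) * ((B - 2 * r : ℤ) : OO A B) + (v : OO A B) * (p : OO A B) = 1 := by
      have := congrArg (fun n : ℤ => (n : OO A B)) huv
      simpa using this
    rw [e1]
    linear_combination e2
  have c4 : IsCoprime P (idl (A := A) (B := B) f) := by
    have hcop : IsCoprime (p : ℤ) (f : ℤ) := by
      rw [Nat.isCoprime_iff_coprime]
      exact (Nat.Prime.coprime_iff_not_dvd hpp).2 hs.fp
    obtain ⟨u, v, huv⟩ := hcop
    rw [Ideal.isCoprime_iff_exists]
    refine ⟨(u : OO A B) * (p : OO A B), P.mul_mem_left _ hpP, (v : OO A B) * (f : OO A B),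
      Ideal.mul_mem_left _ _ (Ideal.mem_span_singleton_self _), ?_⟩
    have := congrArg (fun n : ℤ => (n : OO A B)) huv
    simpa using this
  have c6 : ((p * f : ℕ) : OO A B) ∈ idl f * cjI P := by
    have e : ((p * f : ℕ) : OO A B) = (f : OO A B) * (p : OO A B) := by push_cast; ring
    rw [e]
    exact Ideal.mul_mem_mul (Ideal.mem_span_singleton_self _) hpC
  refine ⟨c1, c2, c3, c4, ?_, c6, Ideal.mul_le_right, ?_, hpC, ?_⟩
  · intro h
    rw [h] at c6
    exact hnat0 (p * f) (mul_ne_zero hpp.ne_zero hs.f0) (by simpa using c6)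
  · refine Ideal.mul_le_left.trans ?_
    rw [Ideal.span_singleton_le_span_singleton]
    obtain ⟨k, hk⟩ := hs.fD
    refine ⟨(k : OO A B), ?_⟩
    have := congrArg (fun n : ℤ => (n : OO A B)) hk
    simpa using this
  · intro h al hh hPal
    have hcc : IsCoprime (P ^ h) (cjI P) := IsCoprime.pow_left c3
    refine ⟨?_, ?_, ?_⟩
    · rintro rfl
      have e1 : ((p : OO A B)) ^ h ∈ P ^ h := Ideal.pow_mem_pow hpP h
      rw [hPal] at e1
      have e2 : (((p ^ h : ℕ) : ℕ) : OO A B) = 0 := by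
        push_cast
        simpa using e1
      exact hnat0 (p ^ h) (pow_ne_zero _ hpp.ne_zero) e2
    · rw [← hPal]
      exact (IsCoprime.pow_left c4).mul_right hcc
    · intro hal
      have e1 : sp al ≤ cjI P := by
        rw [Ideal.span_singleton_le_iff_mem]
        exact hal
      rw [hPal, Ideal.isCoprime_iff_sup_eq, sup_eq_right.2 e1] at hcc
      have e2 : (1 : OO A B) ∈ cjI P := by rw [hcc]; trivial
      rw [mem_cjI, star_one] at e2
      exact hpr.ne_top ((Ideal.eq_top_iff_one _).2 e2)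

end

end Pool.Agent.MUXHY
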