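import Pool.Agent.MUX.StHX2

/-!
# MUX, block HY, module ROU: the values of an ideal character are roots of unity
-/

set_option autoImplicit false

namespace Pool.Agent.MUXHY

open _root_.MU3 Pool.Agent.MU3A Pool.Agent.MU3B Pool.Agent.MU3F Pool.Agent.MUX Pool.Agent.MUXH
  Pool.Agent.MuSym OnePoint
open scoped ComplexConjugate

noncomputable section

namespace Rou

/-- a power law -/
theorem pow_e {A B : ℤ} {e : OO A B → ℂ} (h1 : e 1 = 1) (hm : ∀ x y, e (x * y) = e x * e y)
    (x : OO A B) (n : ℕ) : e (x ^ n) = e x ^ n := by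
  induction n with
  | zero => simp [h1]
  | succ n ih => rw [pow_succ, pow_succ, hm, ih]

/-- a nonzero complex number whose powers lie in a finite set `S` is a root of unity of order
dividing `(card S)!` -/
theorem pow_fact {S : Finset ℂ} {z : ℂ} (hz : z ≠ 0) (h : ∀ n : ℕ, z ^ n ∈ S) :
    z ^ (S.card).factorial = 1 := by
  classical
  obtain ⟨i, hi, j, hj, hij, he⟩ := Finset.exists_ne_map_eq_of_card_lt_of_maps_to
    (s := Finset.range (S.card + 1)) (t := S) (f := fun n => z ^ n)
    (by rw [Finset.card_range]; omega) (fun n _ => h n)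
  have key : ∀ i j : ℕ, i < j → j < S.card + 1 → z ^ i = z ^ j →
      z ^ (S.card).factorial = 1 := by
    intro i j hij hj he
    have h1 : z ^ (j - i) = 1 := by
      have h2 : z ^ i * z ^ (j - i) = z ^ i * 1 := by
        rw [← pow_add, Nat.add_sub_cancel' hij.le, mul_one, he]
      exact mul_left_cancel₀ (pow_ne_zero _ hz) h2
    obtain ⟨c, hc⟩ := Nat.dvd_factorial (show 0 < j - i by omega) (show j - i ≤ S.card by omega)
    rw [hc, pow_mul, h1, one_pow]
  have hi' := Finset.mem_range.1 hi
  have hj' := Finset.mem_range.1 hj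
  rcases lt_or_gt_of_ne hij with h3 | h3
  · exact key i j h3 hj' he
  · exact key j i h3 hi' he.symm

end Rou

theorem ty_ROU (h1 : MUXF.Sx_BDD) : Sy_ROU := by
  intro A B hQ g e hg he
  obtain ⟨hfin, -⟩ := h1 A B (toCQ hQ) g e hg (toEI he)
  refine ⟨(hfin.toFinset.card).factorial, Nat.factorial_ne_zero _, fun x hx => ?_⟩
  refine Rou.pow_fact hx fun n => ?_
  rw [Set.Finite.mem_toFinset]
  exact ⟨x ^ n, Rou.pow_e he.one he.mul x n⟩

end

end Pool.Agent.MUXHY
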