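import Pool.Agent.MUX.StHX2
import Pool.Agent.MUX.F_ALG

/-!
# MUX, block HY, module VAL: elementary valuations
-/

set_option autoImplicit false

namespace Pool.Agent.MUXHY

open _root_.MU3 Pool.Agent.MU3A Pool.Agent.MU3B Pool.Agent.MU3F Pool.Agent.MUX Pool.Agent.MUXH
  Pool.Agent.MuSym OnePoint
open scoped ComplexConjugate

noncomputable section

namespace Val

theorem int_mem (V : ValuationSubring ℂ) (n : ℤ) : (n : ℂ) ∈ V := by
  have h := V.zsmul_mem (V.one_mem) n
  rwa [zsmul_eq_mul, mul_one] at h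

theorem int_le (V : ValuationSubring ℂ) (n : ℤ) : V.valuation (n : ℂ) ≤ 1 :=
  (ValuationSubring.valuation_le_one_iff _ _).2 (int_mem V n)

theorem add_lt {V : ValuationSubring ℂ} {x y : ℂ} (hx : V.valuation x < 1)
    (hy : V.valuation y < 1) : V.valuation (x + y) < 1 :=
  lt_of_le_of_lt (V.valuation.map_add x y) (max_lt hx hy)

theorem mul_lt {V : ValuationSubring ℂ} {x y : ℂ} (hx : V.valuation x ≤ 1)
    (hy : V.valuation y < 1) : V.valuation (x * y) < 1 := by
  rw [map_mul]
  exact lt_of_le_of_lt (mul_le_of_le_one_left' hx) hy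

theorem int_one {V : ValuationSubring ℂ} {p : ℕ} (hp : p.Prime) (h3 : V.valuation (p : ℂ) < 1)
    (n : ℤ) (hn : ¬ (p : ℤ) ∣ n) : V.valuation (n : ℂ) = 1 := by
  refine le_antisymm (int_le V n) (not_lt.1 fun hlt => ?_)
  have hc : IsCoprime (p : ℤ) n :=
    ((Nat.prime_iff_prime_int.1 hp).coprime_iff_not_dvd).2 hn
  obtain ⟨a, b, hab⟩ := hc
  have h1 : V.valuation ((a : ℂ) * (p : ℂ) + (b : ℂ) * (n : ℂ)) < 1 :=
    add_lt (mul_lt (int_le V a) h3) (mul_lt (int_le V b) hlt)
  have h2 : (a : ℂ) * (p : ℂ) + (b : ℂ) * (n : ℂ) = 1 := by exact_mod_cast hab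
  rw [h2, map_one] at h1
  exact lt_irrefl _ h1

theorem root_one (V : ValuationSubring ℂ) (r : ℕ) (z : ℂ) (hr : r ≠ 0) (hz : z ^ r = 1) :
    V.valuation z = 1 := by
  have h : V.valuation z ^ r = 1 := by rw [← map_pow, hz, map_one]
  exact (pow_eq_one_iff_of_nonneg zero_le hr).1 h

/-- the elements of `O` are integral -/
theorem emb_mem {A B : ℤ} (h : MUXF.CQ A B) (V : ValuationSubring ℂ) (x : OO A B) :
    emb x ∈ V := by
  have hw : wC A B ∈ V := by
    rw [← ValuationSubring.valuation_le_one_iff]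
    by_contra hc
    push Not at hc
    have e := congrArg V.valuation (MUXF.AlgX.wC_sq h)
    have h1 : V.valuation ((A : ℂ) + B * wC A B) ≤ V.valuation (wC A B) := by
      refine le_trans (V.valuation.map_add _ _) (max_le ?_ ?_)
      · exact le_trans (int_le V A) hc.le
      · rw [map_mul]
        exact mul_le_of_le_one_left' (int_le V B)
    rw [← e, map_mul] at h1
    have h2 : V.valuation (wC A B) < V.valuation (wC A B) * V.valuation (wC A B) := by
      conv_lhs => rw [← one_mul (V.valuation (wC A B))]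
      exact mul_lt_mul_of_pos_right hc (lt_trans zero_lt_one hc)
    exact absurd h1 (not_le.2 h2)
  exact add_mem (int_mem V _) (mul_mem (int_mem V _) hw)

end Val

theorem ty_VAL : Sy_VAL := by
  intro p A B P V f hS
  have hQ : MUXF.CQ A B := toCQ hS.case.toCQ
  have hp : p.Prime := by
    rcases hS.case.split with ⟨rfl, -⟩ | ⟨rfl, -⟩
    · exact Nat.prime_three
    · exact Nat.prime_two
  have hpv : V.valuation (p : ℂ) < 1 := by
    have h1 := (hS.hV _).2 hS.hP.mem
    have h2 : emb ((p : ℕ) : OO A B) = (p : ℂ) := by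
      have h3 := MUXF.AlgX.emb_intCast hQ (p : ℤ)
      rw [Int.cast_natCast, Int.cast_natCast] at h3
      exact h3
    rw [h2] at h1
    exact (ValuationSubring.mem_nonunits_iff _).1 h1
  have hle : ∀ x : OO A B, V.valuation (emb x) ≤ 1 := fun x =>
    (ValuationSubring.valuation_le_one_iff _ _).2 (Val.emb_mem hQ V x)
  have hpf : ¬ (p : ℤ) ∣ (f : ℤ) := fun h => hS.fp (Int.natCast_dvd_natCast.1 h)
  have hpD : ¬ (p : ℤ) ∣ absD A B := fun h => hpf (h.trans hS.fD)
  refine ⟨hp, hpv, hle, ?_, Val.int_le V, Val.int_one hp hpv, Val.root_one V, ?_, ?_, ?_, hpD⟩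
  · intro x
    constructor
    · intro h hx
      have h1 := (hS.hV x).2 hx
      have h2 : V.valuation (emb x) < 1 := (ValuationSubring.mem_nonunits_iff _).1 h1
      rw [h] at h2
      exact lt_irrefl _ h2
    · intro hx
      refine le_antisymm (hle x) (not_lt.1 fun hlt => hx ?_)
      exact (hS.hV x).1 ((ValuationSubring.mem_nonunits_iff _).2 hlt)
  · have h := Val.int_one hp hpv (f : ℤ) hpf
    rwa [Int.cast_natCast] at h
  · exact Val.int_one hp hpv _ hpD
  · exact MUXF.AlgX.absD_pos hQ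

end

end Pool.Agent.MUXHY
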