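import Pool.Agent.MUX.HXAll
import Pool.Agent.MUX.XFAll
import Pool.Agent.MUX.HY_ALF
import Pool.Agent.MUX.HY_BRG
import Pool.Agent.MUX.HY_CHR
import Pool.Agent.MUX.HY_CLN
import Pool.Agent.MUX.HY_EIG
import Pool.Agent.MUX.HY_HFX
import Pool.Agent.MUX.HY_IDE
import Pool.Agent.MUX.HY_PRX
import Pool.Agent.MUX.HY_QSX
import Pool.Agent.MUX.HY_ROU
import Pool.Agent.MUX.HY_SYM
import Pool.Agent.MUX.HY_VAL

/-!
# MUX, block H: all statements (helper16). Inputs: `Xs_FTI` (block XT), `Sy_RAT` (section 9), `Sy_GX` (Theorem G)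
-/

set_option autoImplicit false

namespace Pool.Agent.MUXHY

open MUXF

theorem y_VAL : Sy_VAL := ty_VAL
theorem y_IDE : Sy_IDE := ty_IDE xf_ALG
theorem y_CLN : Sy_CLN := ty_CLN xf_ALG xf_NIM
theorem y_ROU : Sy_ROU := ty_ROU xf_BDD
theorem y_CHR : Sy_CHR := ty_CHR y_VAL y_IDE y_ROU xf_CHI
theorem y_EIG : Sy_EIG := ty_EIG y_VAL y_IDE y_ROU xf_ALG
theorem y_SYM (hT : MUXT.Xs_FTI) : Sy_SYM := ty_SYM y_IDE hT xf_HU xf_PRI xf_NIM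
theorem y_ALF (hT : MUXT.Xs_FTI) (hR : Sy_RAT) : Sy_ALF := ty_ALF y_IDE y_ROU hR hT xf_F7
theorem y_PRX : Sy_PRX := ty_PRX y_VAL y_IDE xf_PHX xf_PRJ
theorem y_QSX : Sy_QSX := ty_QSX xf_F5 xf_PRD

theorem y_BRG (hT : MUXT.Xs_FTI) (hR : Sy_RAT) (hG : Sy_GX) : Sy_BRG :=
  ty_BRG y_VAL y_IDE y_ROU y_CHR y_EIG (y_SYM hT) (y_ALF hT hR) y_PRX hG

/-- block H -/
theorem y_HFX (hT : MUXT.Xs_FTI) (hR : Sy_RAT) (hG : Sy_GX) : Sy_HFX :=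
  ty_HFX MUXH.x_HA y_VAL y_IDE (y_BRG hT hR hG) y_QSX y_CLN

end Pool.Agent.MUXHY
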