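import Pool.Agent.MUX.StKX
import Pool.Agent.MU3.P_UNI
import Pool.Agent.MU3.P_MONO
import Pool.Agent.MU3.PX_RKA

/-!
# MUX, block K, MAINKX: the growth of the class numbers of `K₀ B_n` (helper32)
-/

set_option autoImplicit false

open NumberField IsDedekindDomain Finset Filter Topology
open scoped nonZeroDivisors Pointwise

namespace Pool.Agent.MUXK

open Pool.Agent.MU3 Pool.Agent.RI Pool.Agent.RID Pool.Agent.Lib_helper28.FROB

namespace K_MAINKX

/-- `(1 - X) ^ (p ^ N) = 1 - X ^ (p ^ N)` modulo `p`. -/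
lemma poly_eq (p : ℕ) [hp : Fact p.Prime] (N : ℕ) :
    ∃ s : Polynomial ℤ, (1 - Polynomial.X) ^ (p ^ N) =
      1 - Polynomial.X ^ (p ^ N) + (p : Polynomial ℤ) * s := by
  have h1 : ((1 - Polynomial.X : Polynomial (ZMod p))) ^ (p ^ N) =
      1 - Polynomial.X ^ (p ^ N) := by
    rw [sub_pow_char_pow, one_pow]
  have h2 : (Polynomial.C (p : ℤ)) ∣
      ((1 - Polynomial.X) ^ (p ^ N) - (1 - Polynomial.X ^ (p ^ N)) : Polynomial ℤ) := by
    rw [Polynomial.C_dvd_iff_dvd_coeff]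
    intro i
    rw [← ZMod.intCast_zmod_eq_zero_iff_dvd]
    have h3 : Polynomial.map (Int.castRingHom (ZMod p))
        ((1 - Polynomial.X) ^ (p ^ N) - (1 - Polynomial.X ^ (p ^ N)) : Polynomial ℤ) = 0 := by
      simp [h1]
    have h4 := congrArg (fun q => Polynomial.coeff q i) h3
    simp only [Polynomial.coeff_map, Polynomial.coeff_zero] at h4
    exact h4
  obtain ⟨s, hs⟩ := h2
  refine ⟨s, ?_⟩
  have h5 : (Polynomial.C (p : ℤ) : Polynomial ℤ) = (p : Polynomial ℤ) := by simp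
  rw [h5] at hs
  rw [← hs]
  ring

lemma pow_eq {G A : Type} [Group G] [CommGroup A] [MulDistribMulAction G A] (p : ℕ)
    [hp : Fact p.Prime] (N : ℕ) (g : G) (hg : g ^ (p ^ N) = 1) :
    ∃ r : AddMonoid.End (Additive A),
      (1 - MU3.RKA.gam g) ^ (p ^ N) = (p : AddMonoid.End (Additive A)) * r := by
  have h1 : (MU3.RKA.gam g ^ (p ^ N) : AddMonoid.End (Additive A)) = 1 := by
    ext x
    obtain ⟨x, rfl⟩ := Additive.ofMul.surjective x
    rw [MU3.RKA.gam_pow_apply, hg, one_smul]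
    rfl
  obtain ⟨s, hs⟩ := poly_eq p N
  have h2 := congrArg (Polynomial.aeval (MU3.RKA.gam g : AddMonoid.End (Additive A))) hs
  simp only [map_pow, map_add, map_mul, map_one, map_sub, Polynomial.aeval_X, map_natCast] at h2
  refine ⟨Polynomial.aeval (MU3.RKA.gam g : AddMonoid.End (Additive A)) s, ?_⟩
  rw [h2, h1, sub_self, zero_add]

lemma iter_mem {G A : Type} [Group G] [CommGroup A] [MulDistribMulAction G A] (p : ℕ)
    [hp : Fact p.Prime] (N : ℕ) (g : G) (hg : g ^ (p ^ N) = 1) (b : A) :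
    ∃ y : A, (dg g)^[p ^ N] b = y ^ p := by
  obtain ⟨r, hr⟩ := pow_eq (A := A) p N g hg
  refine ⟨(r (Additive.ofMul b)).toMul, ?_⟩
  apply Additive.ofMul.injective
  rw [← MU3.RKA.one_sub_gam_pow_apply, hr, AddMonoid.End.coe_mul, Function.comp_apply,
    AddMonoid.End.natCast_apply]
  rfl

/-- A larger power fixes as well. -/
lemma fix_pow {G X : Type} [Monoid G] [MulAction G X] (p a b : ℕ) (hab : a ≤ b) (g : G) (x : X)
    (h : g ^ (p ^ a) • x = x) : g ^ (p ^ b) • x = x := by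
  obtain ⟨c, rfl⟩ := Nat.exists_eq_add_of_le hab
  rw [pow_add, pow_mul]
  have : ∀ j : ℕ, (g ^ (p ^ a)) ^ j • x = x := by
    intro j
    induction j with
    | zero => rw [pow_zero, one_smul]
    | succ j ih => rw [pow_succ, mul_smul, h, ih]
  exact this _

lemma finrank_mul {E E' : IntermediateField ℚ ℂ} (h : E ≤ E') [FiniteDimensional ℚ E'] :
    Module.finrank ℚ E * (letI := algC h; Module.finrank E E') = Module.finrank ℚ E' := by
  let _ := algC h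
  have : IsScalarTower ℚ E E' := IsScalarTower.of_algebraMap_eq (fun _ => rfl)
  exact Module.finrank_mul_finrank ℚ E E'

lemma finrank_quot {E E' : IntermediateField ℚ ℂ} (h : E ≤ E') [FiniteDimensional ℚ E']
    (a b q : ℕ) (ha : 0 < a) (hq : 0 < q) (h1 : Module.finrank ℚ E = a * q)
    (h2 : Module.finrank ℚ E' = b * q) :
    (letI := algC h; Module.finrank E E') = b / a := by
  have h3 := finrank_mul h
  rw [h1, h2] at h3
  generalize (letI := algC h; Module.finrank E E') = t at h3 ⊢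
  have h4 : a * t = b := by
    apply Nat.eq_of_mul_eq_mul_right hq
    rw [← h3]
    ring
  rw [← h4, Nat.mul_div_cancel_left _ ha]

lemma lift_pow {k E E' : IntermediateField ℚ ℂ} (h : k ≤ E) (h' : k ≤ E') (hh : E ≤ E') :
    letI := algC h
    letI := algC h'
    ∀ (g : E ≃ₐ[k] E) (g' : E' ≃ₐ[k] E'),
    (∀ x : E, ((g' ⟨x, hh x.2⟩ : E') : ℂ) = (g x : E)) →
    ∀ (j : ℕ) (x : E), (((g' ^ j) ⟨x, hh x.2⟩ : E') : ℂ) = ((g ^ j) x : E) := by
  let _ := algC h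
  let _ := algC h'
  intro g g' hg j
  induction j with
  | zero => intro x; rfl
  | succ j ih =>
    intro x
    rw [pow_succ, AlgEquiv.mul_apply, pow_succ, AlgEquiv.mul_apply, ← ih (g x)]
    congr 2
    exact Subtype.ext (hg x)

lemma triv_pow {k E : Type} [Field k] [Field E] [Algebra k E] (P : E → Prop) (g : E ≃ₐ[k] E)
    (hg : ∀ x, P x → g x = x) : ∀ (j : ℕ) (x : E), P x → (g ^ j) x = x := by
  intro j x hx
  induction j with
  | zero => rfl
  | succ j ih => rw [pow_succ, AlgEquiv.mul_apply, hg x hx, ih]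

lemma root {E : IntermediateField ℚ ℂ} [FiniteDimensional ℚ E] {q : ℕ} (hq : 0 < q) {ζ : ℂ}
    (hζE : ζ ∈ E) (hζ : IsPrimitiveRoot ζ q) : ∃ z : 𝓞 E, IsPrimitiveRoot z q := by
  have hζ1 : (⟨ζ, hζE⟩ : E) ^ q = 1 := Subtype.ext hζ.pow_eq_one
  have hint : IsIntegral ℤ (⟨ζ, hζE⟩ : E) := by
    apply IsIntegral.of_pow hq
    rw [hζ1]
    exact isIntegral_one
  refine ⟨⟨⟨ζ, hζE⟩, hint⟩, ?_⟩
  refine IsPrimitiveRoot.mk_of_lt _ hq ?_ ?_
  · apply RingOfIntegers.ext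
    exact hζ1
  · intro l hl0 hl h0
    have h13 : (⟨ζ, hζE⟩ : E) ^ l = 1 := congrArg (fun x : 𝓞 E => (x : E)) h0
    have h14 : ζ ^ l = 1 := congrArg Subtype.val h13
    exact hζ.pow_ne_one_of_pos_of_lt hl0.ne' hl h14

end K_MAINKX

open K_MAINKX in
theorem t_MAINKX (h1 : S_GALX) (h2 : S_TWX) (h3 : S_LFX) (h4 : S_M0X) (h5 : S_RAMX)
    (h6 : S_KOLX) (h7 : S_SU0) (h8 : S_I3X) (h9 : S_NILP) (h10 : S_FINX) : S_MAINKX := by
  intro F _ p hp _ _ k K₀ K B _ _ _ hX hk hk₀ hkK S c c₀ n₁ hI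
  have hh : ∀ n, K₀ ⊔ B n ≤ K ⊔ B n := fun n => sup_le_sup_right hX.le _
  have hfd : ∀ {E E' : IntermediateField ℚ ℂ}, E ≤ E' → FiniteDimensional ℚ E' →
      FiniteDimensional ℚ E := by
    intro E E' hle hE'
    exact FiniteDimensional.of_injective (IntermediateField.inclusion hle).toLinearMap
      (IntermediateField.inclusion hle).injective
  haveI hfd₀ : FiniteDimensional ℚ K₀ := hfd hX.le inferInstance
  haveI hfdn : ∀ n, FiniteDimensional ℚ ↥(K₀ ⊔ B n) := fun n => hfd (hh n) inferInstance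
  obtain ⟨S', h2S', hpS', hS'p, kol⟩ := h6 F p k K₀ K B hX
  obtain ⟨Sa, h2Sa, hpSa, hSap, rama⟩ := h5 p k K₀ B hX.b0
  set S₁ : Finset ℕ := (S ∪ S') ∪ Sa with hS₁
  have hS₁p : ∀ ℓ ∈ S₁, ℓ.Prime := by
    intro ℓ hℓ
    rcases Finset.mem_union.1 hℓ with h | h
    · rcases Finset.mem_union.1 h with h | h
      · exact hI.prime ℓ h
      · exact hS'p ℓ h
    · exact hSap ℓ h
  have h2S₁ : 2 ∈ S₁ := Finset.mem_union_right _ h2Sa
  have hpS₁ : p ∈ S₁ := Finset.mem_union_right _ hpSa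
  obtain ⟨ma, hma⟩ := h4 p k K B hX.b S₁ hS₁p
  obtain ⟨mb, hmb⟩ := h4 p k K₀ B hX.b0 S₁ hS₁p
  set m₀ : ℕ := max ma mb with hm₀
  obtain ⟨m, hmn₁, hm⟩ := h8 F p k K₀ K B hX hk hk₀ hh hkK S c c₀ n₁ hI m₀
  set d : ℕ := Module.finrank ℚ K / Module.finrank ℚ K₀ with hd
  refine h10 p (p ^ (max m m₀ + 1) + 1 + d) k K₀ B hX.b0.hk hX.b0.deg hX.b0.lay hX.b0.mono ?_
  intro n h
  letI : Algebra k ↥(K₀ ⊔ B n) := algC h
  intro g hg b
  have tw := h2 p k K₀ B hX.b0 hX.cop n h g hg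
  rcases lt_or_ge n m with hnm | hmn
  · have hle : n ≤ max m m₀ + 1 := (hnm.le.trans (le_max_left _ _)).trans (Nat.le_succ _)
    have h11 : g ^ (p ^ (max m m₀ + 1)) = 1 := by
      rw [← orderOf_dvd_iff_pow_eq_one, tw.ord]
      exact pow_dvd_pow p hle
    obtain ⟨y, hy⟩ := iter_mem p (max m m₀ + 1) g h11 ((dg g)^[1] ((dg g)^[d] b))
    refine ⟨y, 1, ?_⟩
    rw [Function.iterate_add_apply, Function.iterate_add_apply, hy, map_one, mul_one]
  · letI : Algebra k ↥(K ⊔ B n) := algC (hk n)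
    letI : Algebra ↥(K₀ ⊔ B n) ↥(K ⊔ B n) := algC (hh n)
    haveI : IsScalarTower k ↥(K₀ ⊔ B n) ↥(K ⊔ B n) := IsScalarTower.of_algebraMap_eq (fun _ => rfl)
    obtain ⟨gal₀, -⟩ := h1 p k K₀ B hX.b0 n h
    obtain ⟨gal, -⟩ := h1 p k K B hX.b n (hk n)
    have hn₁ : n₁ ≤ n := hmn₁.trans hmn
    obtain ⟨hc0, hsu0⟩ := h7 F p k K₀ K B hX hk hk₀ hkK S c c₀ n₁ hI n hn₁
    have hcn : (⟨c₀ n, hI.mem₀ n⟩ : ↥(K₀ ⊔ B n)) ≠ 0 := by
      intro h0
      exact hc0 (congrArg Subtype.val h0)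
    have hSS₁ : S ⊆ S₁ := fun x hx => Finset.mem_union_left _ (Finset.mem_union_left _ hx)
    have su1 := (t_MONO k ↥(K₀ ⊔ B n) S S₁ hSS₁ ⟨c₀ n, hI.mem₀ n⟩).1 hsu0
    obtain ⟨γ', hγ1, hγ2⟩ := h3 p k K₀ K B hX.b0 hX.b hX.le n (hk n) h (hh n) g
      (fun x hx => (hg x).2 hx)
    have hpow1 := triv_pow (fun x : ↥(K ⊔ B n) => (x : ℂ) ∈ K) γ' hγ1
    have hpow2 := lift_pow h (hk n) (hh n) g γ' hγ2
    have hfix : ∀ v : HeightOneSpectrum (𝓞 ↥(K₀ ⊔ B n)), Above S₁ v →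
        g ^ (p ^ m₀) • v.asIdeal = v.asIdeal := by
      intro v hv
      exact fix_pow p mb m₀ (le_max_right _ _) g v.asIdeal
        (hmb n h g (fun x hx => (hg x).2 hx) v hv)
    have hfix' : ∀ v : HeightOneSpectrum (𝓞 ↥(K ⊔ B n)), Above S₁ v →
        γ' ^ (p ^ m₀) • v.asIdeal = v.asIdeal := by
      intro v hv
      exact fix_pow p ma m₀ (le_max_left _ _) γ' v.asIdeal (hma n (hk n) γ' hγ1 v hv)
    obtain ⟨u, hu⟩ := t_UNI k ↥(K₀ ⊔ B n) S₁ ⟨c₀ n, hI.mem₀ n⟩ hcn su1 (g ^ (p ^ m₀)) hfix p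
    have hrel := kol hk hk₀ hh hkK S c c₀ n₁ hI S₁ Finset.subset_union_left hS₁p n hn₁ (g ^ (p ^ m₀))
      (γ' ^ (p ^ m₀)) (hpow1 _) (hpow2 _) hfix' u hu
    have hfinNC : Finite (NC h (B n)) := inferInstance
    letI : Fintype (NC h (B n)) := Fintype.ofFinite _
    obtain ⟨ζ, hζK, hζ⟩ := hX.ze
    obtain ⟨z, hz⟩ := root (E := K ⊔ B n) (q := 2 * p) (by have := hp.out.pos; omega)
      ((le_sup_left : K ≤ K ⊔ B n) hζK) hζ
    have hfin : Module.finrank ↥(K₀ ⊔ B n) ↥(K ⊔ B n) = d :=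
      finrank_quot (hh n) _ _ (p ^ n) Module.finrank_pos (pow_pos hp.out.pos n) (hX.b0.deg n)
        (hX.b.deg n)
    have hmain := h9 p F k ↥(K₀ ⊔ B n) ↥(K ⊔ B n) n m m₀ g (NC h (B n)) tw hmn S₁
      z hz h2S₁ hpS₁ hS₁p (rama S₁ Finset.subset_union_right n h) hfix u hrel
      (hm n hmn g hg u hu) b
    rw [hfin] at hmain
    exact hmain

end Pool.Agent.MUXK
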