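import Pool.Agent.MUX.StGF

/-!
# MUX, end of block G: the data for Theorem G (module GDT)
-/

set_option autoImplicit false

namespace Pool.Agent.MUXN

open _root_.MU3 Pool.Agent.MU3A Pool.Agent.MU3B Pool.Agent.MU3Q Pool.Agent.MUX Pool.Agent.MuSym
  OnePoint UpperHalfPlane

noncomputable section

namespace Gdt

variable {A B : ℤ}

lemma ei_conj {g : Ideal (OO A B)} {e : OO A B → ℂ} (he : IsEI g e) (σ : ℂ ≃+* ℂ) :
    IsEI g (fun x => σ (e x)) where
  one := by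
    show σ (e 1) = 1
    rw [he.one, map_one]
  mul := by
    intro x y
    show σ (e (x * y)) = σ (e x) * σ (e y)
    rw [he.mul, map_mul]
  per := by
    intro x y h
    show σ (e x) = σ (e y)
    rw [he.per x y h]
  supp := by
    intro x
    rw [← he.supp x]
    show σ (e x) ≠ 0 ↔ e x ≠ 0
    rw [Ne, Ne, map_eq_zero]
  neg := by
    show σ (e (-1)) = -1
    rw [he.neg, map_neg, map_one]

lemma chiQ_one : MUXF.chiQ A B 1 = 1 := by
  unfold MUXF.chiQ
  split_ifs with h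
  · exact jacobiSym.one_left _
  · simp

lemma nat_ne (n : ℕ) (h : n ≠ 0) : ((n : ℕ) : OO A B) ≠ 0 := by
  intro h0
  have h1 := congrArg QuadraticAlgebra.re h0
  simp only [QuadraticAlgebra.re_natCast, QuadraticAlgebra.re_zero] at h1
  exact h (by exact_mod_cast h1)

open MUXY in
theorem main (h1 : Sg_QXP) (h2 : MUXT.Xs_FTI) (h3 : MUXF.Sx_CHI) (h4 : Sy_CON) (h5 : Sy_ALP)
    (h6 : Sy_ALM) (h7 : Sy_FEC) (h8 : Sy_COP) (p : ℕ) (P : Ideal (OO A B))
    (V : ValuationSubring ℂ) (f : ℕ) (hS : SetP p A B P V f) (hT : TorX A B) (ι : Type)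
    [hι : Finite ι] (R : Reps A B (p * f) ι) (e : OO A B → ℂ) (he : IsEI (idl f * cjI P) e)
    (r : ℕ) (hr : r ≠ 0) (her : ∀ x, e x ≠ 0 → e x ^ r = 1) (N' : ℕ) (hN : N' ≠ 0)
    (hNd : absD A B * ((p : ℤ) * f) ^ 2 ∣ (N' : ℤ)) :
    ∃ E : Set (OO A B → ℂ), e ∈ E ∧ GDat R E N' := by
  have hQ := hS.case.toCQ
  have hp0 : p ≠ 0 := by
    rcases hS.case.split with h | h
    · rw [h.1]; norm_num
    · rw [h.1]; norm_num
  set g : Ideal (OO A B) := idl f * cjI P with hg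
  have hpc : ((p : ℕ) : OO A B) ∈ cjI P := by
    show starRingEnd (OO A B) ((p : ℕ) : OO A B) ∈ P
    rw [map_natCast]
    exact hS.hP.mem
  have hpf : ((p * f : ℕ) : OO A B) ∈ g := by
    rw [Nat.mul_comm, Nat.cast_mul]
    exact Ideal.mul_mem_mul (Ideal.mem_span_singleton_self _) hpc
  have hgb : g ≠ ⊥ := by
    intro h
    rw [h, Ideal.mem_bot] at hpf
    exact nat_ne _ (mul_ne_zero hp0 hS.f0) hpf
  have hgt : g ≠ ⊤ := by
    intro h
    have h1 : g ≤ cjI P := Ideal.mul_le_right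
    rw [h, top_le_iff] at h1
    have := hS.hP.prime
    have h2 : (cjI P).IsPrime := Ideal.IsPrime.comap _
    exact h2.ne_top h1
  have hcop : ∀ i, IsCoprime (MUX.sp ((MUX.nI (R.b i) : ℕ) : OO A B)) g :=
    h8 A B (p * f) ι R g 1 (by rw [pow_one]; exact hpf)
  set E : Set (OO A B → ℂ) := {e' | ∃ σ : ℂ ≃+* ℂ, e' = fun x => σ (e x)} with hE
  have hEI : ∀ e' ∈ E, IsEI g e' := by
    rintro e' ⟨σ, rfl⟩
    exact ei_conj he σ
  have hEr : ∀ e' ∈ E, ∀ x, e' x ≠ 0 → e' x ^ r = 1 := by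
    rintro e' ⟨σ, rfl⟩ x hx
    show σ (e x) ^ r = 1
    have hx' : e x ≠ 0 := by
      intro h0
      apply hx
      show σ (e x) = 0
      rw [h0, map_zero]
    rw [← map_pow, her x hx', map_one]
  have hEG : ∀ e' ∈ E, ∀ x y : OO A B, (((p * f : ℕ) : ℕ) : OO A B) ∣ x - y → e' x = e' y := by
    rintro e' he' x y ⟨z, hz⟩
    apply (hEI e' he').per
    rw [hz]
    exact Ideal.mul_mem_right _ _ hpf
  have hb : ∀ i, R.b i ≠ ⊥ := fun i => (R.nl i).b_ne
  have hNd' : -(B ^ 2 + 4 * A) * ((p * f : ℕ) : ℤ) ^ 2 ∣ (N' : ℤ) := by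
    have : -(B ^ 2 + 4 * A) * ((p * f : ℕ) : ℤ) ^ 2 = absD A B * (p * f) ^ 2 := by
      unfold absD
      push_cast
      ring
    rw [this]
    exact hNd
  have hF : ∀ e' ∈ E, ∀ i, _ := fun e' he' i =>
    (h2 A B hQ.hB hQ.neg (R.b i) (hb i) e' (p * f) (Nat.pos_of_ne_zero (mul_ne_zero hp0 hS.f0))
      (hEI e' he').mul (hEG e' he') (hEI e' he').neg).2 N' hN hNd'
  have hDN : absD A B ∣ (N' : ℤ) := dvd_trans (Dvd.intro _ rfl) hNd
  have hGN : ((p * f : ℕ) : ℤ) ∣ (N' : ℤ) := by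
    refine dvd_trans ?_ hNd
    exact ⟨absD A B * (p * f), by push_cast; ring⟩
  have hnu : ∀ e' ∈ E, ∀ d : ℤ, (N' : ℤ) ∣ d - 1 →
      (MUXT.chiQ A B d : ℂ) * e' (d : OO A B) = 1 := by
    intro e' he' d hd
    have h10 : MUXF.chiQ A B d = 1 := by
      have := (h3 A B (cqF hQ) 1 isCoprime_one_left).2.2 d (by
        rw [← dvd_neg, neg_sub]
        exact dvd_trans hDN hd)
      rw [this, chiQ_one]
    have h11 : e' (d : OO A B) = 1 := by
      rw [← (hEI e' he').one]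
      apply (hEI e' he').per
      obtain ⟨t, ht⟩ := dvd_trans hGN hd
      have h12 : (d : OO A B) - 1 = ((p * f : ℕ) : OO A B) * (t : OO A B) := by
        have := congrArg (fun z : ℤ => (z : OO A B)) ht
        push_cast at this
        push_cast
        exact this
      rw [h12]
      exact Ideal.mul_mem_right _ _ hpf
    have h13 : MUXT.chiQ A B d = 1 := h10
    rw [h13, h11]
    norm_num
  refine ⟨E, ⟨RingEquiv.refl ℂ, rfl⟩, ?_⟩
  refine
    { fin := (h7 A B e r hr her).1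
      pos := Nat.pos_of_ne_zero hN
      add := ?_
      inv := ?_
      per := ?_
      cusp := ?_
      qexp := ?_
      rat := ?_
      alg := ?_
      algo := ?_ }
  · intro e' _ i x y z
    unfold PhiI
    ring
  · intro e' he' i a b c d hdet hc hd x y
    have := (hF e' he' i).1.equiv a b c d hdet hc x y
    rw [hnu e' he' d hd, one_mul] at this
    exact this
  · intro e' he' i a b c d hdet hc hd τ hτ
    have := ((hF e' he' i).2.1 a b c d hdet hc τ hτ).2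
    rw [hnu e' he' d hd, one_mul] at this
    exact this
  · intro e' he' i a b c d hdet
    obtain ⟨w, hw⟩ := (hF e' he' i).2.2 a b c d hdet
    exact ⟨_, w, hw⟩
  · intro e' he' i
    exact h1 p A B hS.case (p * f) ι R g hgb e' (hEI e' he') r hr (hEr e' he') i
  · intro σ hσ e' he' i
    obtain ⟨-, j, C, -, hC0, hC⟩ := h4 A B hQ hT (p * f) ι R g e' hgb hgt (hEI e' he') hcop σ hσ i
    obtain ⟨τ, rfl⟩ := he'
    refine ⟨fun x => σ (τ (e x)), ⟨τ.trans σ, rfl⟩, j,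
      C * σ (R.om R.i0 / R.om i) * (R.om j / R.om R.i0), fun x y => ?_⟩
    have ho : R.om R.i0 ≠ 0 := (R.nl R.i0).om_ne
    have hoj : R.om j ≠ 0 := (R.nl j).om_ne
    have hoi : R.om i ≠ 0 := (R.nl i).om_ne
    have e1 : PhiI (R.b i) (fun x => τ (e x)) x y / R.om i =
        PhiI (R.b i) (fun x => τ (e x)) x y / R.om R.i0 * (R.om R.i0 / R.om i) := by
      field_simp
    rw [e1, map_mul, hC x y]
    field_simp
  · intro e' he' i x y
    exact (h5 A B hQ hT (p * f) ι hι R g e' hgb hgt (hEI e' he') hcop r hr (hEr e' he') i x y).1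
  · intro i
    exact (h6 A B hQ hT (p * f) ι hι R i).2

end Gdt

theorem tg_GDT (h1 : Sg_QXP) (h2 : MUXT.Xs_FTI) (h3 : MUXF.Sx_CHI) (h4 : MUXY.Sy_CON)
    (h5 : MUXY.Sy_ALP) (h6 : MUXY.Sy_ALM) (h7 : MUXY.Sy_FEC) (h8 : MUXY.Sy_COP) : Sg_GDT := by
  intro p A B P V f hS hT ι _ R e he r hr her N' hN hNd
  exact Gdt.main h1 h2 h3 h4 h5 h6 h7 h8 p P V f hS hT ι R e he r hr her N' hN hNd

end

end Pool.Agent.MUXN
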