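import Pool.Agent.MUX.StGX
import Pool.Agent.MU3.A2Val
import Pool.Agent.MU3.G_G6c

/-!
# MUX, block G, module GTHX: THEOREM G (helper48)

Descent of the space of period vectors to `k` (DSC), forms for the basis with first coefficient in `V` (GJ), and the
uniqueness of a form with given periods (ZL).
-/

set_option autoImplicit false

namespace Pool.Agent.MUXN

open _root_.MU3 Pool.Agent.MU3A Pool.Agent.MU3B Pool.Agent.MU3Q Pool.Agent.MUX Pool.Agent.MuSym
  OnePoint UpperHalfPlane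
open scoped MatrixGroups

noncomputable section

open Pool.Agent.MU3G in
theorem tg_GTHX (h1 : Sg_GJ) (h2 : Sg_DSC) (h3 : Sg_ZL) (h4 : Sg_FK) (h5 : Sg_FGG) : Sg_GTHX := by
  classical
  intro A B hc n ι _ R E N' hG l hl P hP V hV halg hv1 hv2 e he kk' hkk
  by_contra hcon
  push Not at hcon
  let _ : Fintype E := hG.fin.fintype
  set Om : ℂ := R.om R.i0 with hOm
  have hOm0 : Om ≠ 0 := (R.nl R.i0).om_ne
  obtain ⟨r, h, hh, hfg⟩ := h5 N' hG.pos
  set Pm : Fin r → ι × E → ℂ := fun l' c => PhiI (R.b c.1) (c.2 : OO A B → ℂ) ∞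
      (mob (h l' 0 0) (h l' 0 1) (h l' 1 0) (h l' 1 1) ∞) / Om with hPm
  -- the space of the period vectors
  let T : (ι × E → ℂ) →ₗ[ℂ] (Fin r → ℂ) :=
    { toFun := fun y l' => ∑ c, y c * Pm l' c
      map_add' := by
        intro y z
        funext l'
        simp only [Pi.add_apply, add_mul, Finset.sum_add_distrib]
      map_smul' := by
        intro a y
        funext l'
        simp only [Pi.smul_apply, smul_eq_mul, RingHom.id_apply, Finset.mul_sum, mul_assoc] }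
  have hT : ∀ y l', T y l' = ∑ c, y c * Pm l' c := fun y l' => rfl
  set X : Submodule ℂ (Fin r → ℂ) := LinearMap.range T with hX
  have hcol : ∀ c : ι × E, (fun l' => Pm l' c) ∈ X := by
    intro c
    refine ⟨Pi.single c 1, ?_⟩
    funext l'
    rw [hT, Finset.sum_eq_single c]
    · simp
    · intro c' _ hc'
      simp [Pi.single_eq_of_ne hc']
    · intro hc'
      exact absurd (Finset.mem_univ _) hc'
  obtain ⟨hfk, hfk2⟩ := h4 A B hc
  have hst : ∀ σ : ℂ ≃+* ℂ, (∀ a ∈ (kk A B : Set ℂ), σ a = a) → ∀ x ∈ X,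
      (fun i => σ (x i)) ∈ X := by
    intro σ hσ x hx
    obtain ⟨y, rfl⟩ := hx
    have hF : FixK A B σ := (hfk σ).2 hσ
    have hcol' : ∀ c : ι × E, (fun l' => σ (Pm l' c)) ∈ X := by
      intro c
      obtain ⟨e', he', j, u, hu⟩ := hG.rat σ hF c.2 c.2.2 c.1
      have hj0 := (R.nl j).om_ne
      have hi0 := (R.nl c.1).om_ne
      have e1 : (fun l' => σ (Pm l' c)) =
          (u * (Om / R.om j) * σ (R.om c.1 / Om)) • (fun l' => Pm l' (j, ⟨e', he'⟩)) := by
        funext l'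
        have e2 : Pm l' c = (PhiI (R.b c.1) (c.2 : OO A B → ℂ) ∞
          (mob (h l' 0 0) (h l' 0 1) (h l' 1 0) (h l' 1 1) ∞) / R.om c.1) * (R.om c.1 / Om) := by
          rw [hPm]
          field_simp
        rw [e2, map_mul, hu]
        simp only [Pi.smul_apply, smul_eq_mul, hPm]
        field_simp
      rw [e1]
      exact X.smul_mem _ (hcol _)
    have e3 : (fun i => σ (T y i)) = ∑ c, (σ (y c)) • (fun l' => σ (Pm l' c)) := by
      funext l'
      rw [hT, map_sum, Finset.sum_apply]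
      refine Finset.sum_congr rfl fun c _ => ?_
      simp
    rw [e3]
    exact X.sum_mem fun c _ => X.smul_mem _ (hcol' c)
  obtain ⟨J, ej, hJ, hJX⟩ := h2 (kk A B : Set ℂ)
    (fun x hx => hfk2 x fun σ hσ => hx σ ((hfk σ).1 hσ)) V r X hst
  have hgj : ∀ j : Fin r, j ∈ J → ∃ y' : ι × E → ℂ, (∀ l', ∑ c, y' c * Pm l' c = ej j l') ∧
      ∑ e : E, y' (R.i0, e) ∈ V := by
    intro j hj
    obtain ⟨hX1, hX2, -⟩ := hJ j hj
    obtain ⟨y, hy⟩ := hX1
    exact h1 A B hc n ι R E N' hG l hl P hP V hV halg hv1 hv2 r h hh hfg (ej j) hX2 y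
      (fun l' => by rw [← hy]; rfl)
  choose! y' hy'1 hy'2 using hgj
  -- the vector `x`
  set yx : ι × E → ℂ := fun c => if c.2 = (⟨e, he⟩ : E) then kk' c.1 else 0 with hyx
  set x : Fin r → ℂ := T yx with hx
  have hxnu : ∀ l', x l' ∈ V.nonunits := by
    intro l'
    obtain ⟨m1, m2⟩ := G6c.mem1 (hh l')
    have h6 := hcon (h l' 0 0) (h l' 0 1) (h l' 1 0) (h l' 1 1) (G6c.det_eq (h l')) m1 m2
    have e1 : x l' = PhiK R e kk' ∞ (mob (h l' 0 0) (h l' 0 1) (h l' 1 0) (h l' 1 1) ∞) / Om := by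
      rw [hx, hT, Fintype.sum_prod_type, PhiK, Finset.sum_div]
      refine Finset.sum_congr rfl fun i _ => ?_
      rw [Finset.sum_eq_single (⟨e, he⟩ : E)]
      · simp only [hyx, if_true, hPm]
        ring
      · intro e' _ he'
        simp only [hyx, if_neg he', zero_mul]
      · intro hc'
        exact absurd (Finset.mem_univ _) hc'
    rw [e1]
    exact h6
  have hxJ : x = ∑ j ∈ J, x j • ej j := hJX x ⟨yx, rfl⟩
  set yp : ι × E → ℂ := fun c => yx c - ∑ j ∈ J, x j * y' j c with hyp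
  have hyp0 : ∀ l', ∑ c, yp c * Pm l' c = 0 := by
    intro l'
    have e1 : ∑ c, yp c * Pm l' c = x l' - ∑ j ∈ J, x j * ej j l' := by
      have e2 : ∑ j ∈ J, x j * ej j l' = ∑ c, (∑ j ∈ J, x j * y' j c) * Pm l' c := by
        simp_rw [Finset.sum_mul]
        rw [Finset.sum_comm]
        refine Finset.sum_congr rfl fun j hj => ?_
        rw [← hy'1 j hj l', Finset.mul_sum]
        refine Finset.sum_congr rfl fun c _ => ?_
        ring
      rw [e2, hx, hT, ← Finset.sum_sub_distrib]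
      refine Finset.sum_congr rfl fun c _ => ?_
      rw [hyp]
      ring
    have e3 := congrFun hxJ l'
    rw [Finset.sum_apply] at e3
    simp only [Pi.smul_apply, smul_eq_mul] at e3
    rw [e1, ← e3, sub_self]
  -- the form
  choose! α hα using fun e (he : e ∈ E) i => hG.qexp e he i
  set Z : ℍ → ℂ := fun τ => ∑ c : ι × E, yp c * thetaIntI (R.b c.1) c.2 (τ : ℂ) with hZ
  set z : PowerSeries ℂ := PowerSeries.mk fun n => ∑ c : ι × E, yp c * (α c.2 c.1 n / n) with hz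
  have hzn : ∀ n, PowerSeries.coeff n z = ∑ c : ι × E, yp c * (α c.2 c.1 n / n) :=
    fun n => by rw [hz, PowerSeries.coeff_mk]
  have hsmul : ∀ (γ : SL(2, ℤ)) (τ : ℍ), ((γ • τ : ℍ) : ℂ) =
      (((γ 0 0 : ℤ) : ℂ) * τ + ((γ 0 1 : ℤ) : ℂ)) /
          (((γ 1 0 : ℤ) : ℂ) * τ + ((γ 1 1 : ℤ) : ℂ)) := by
    intro γ τ
    rw [UpperHalfPlane.specialLinearGroup_apply]
    simp
  have hQS : QS Z z := by
    intro τ
    have hs := (hasSum_sum (s := Finset.univ) fun c (_ : c ∈ (Finset.univ : Finset (ι × E))) =>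
      ((hα c.2 c.2.2 c.1).2.2.2.2 (τ : ℂ) τ.2).mul_left (yp c))
    have e2 : (fun n : ℕ => PowerSeries.coeff n z * qq τ ^ n) = fun n : ℕ =>
        ∑ c : ι × E, yp c * (α c.2 c.1 n / n *
          Complex.exp (2 * Real.pi * Complex.I * (τ : ℂ)) ^ n) := by
      funext n
      rw [hzn n, qq, Finset.sum_mul]
      refine Finset.sum_congr rfl fun c _ => ?_
      ring
    rw [e2]
    exact hs
  have hcusp : ∀ γ : SL(2, ℤ), ∃ (C : ℂ) (w : ℕ → ℂ), ∀ τ : ℍ, HasSum (fun n : ℕ => w n *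
      Complex.exp (2 * Real.pi * Complex.I * (τ : ℂ) / N') ^ (n + 1)) (Z (γ • τ) - C) := by
    intro γ
    choose C W hW using fun c : ι × E => hG.cusp c.2 c.2.2 c.1 (γ 0 0) (γ 0 1) (γ 1 0) (γ 1 1)
      (G6c.det_eq γ)
    refine ⟨∑ c : ι × E, yp c * C c, fun n => ∑ c : ι × E, yp c * W c n, ?_⟩
    intro τ
    have hs := (hasSum_sum (s := Finset.univ) fun c (_ : c ∈ (Finset.univ : Finset (ι × E))) =>
      (hW c (τ : ℂ) τ.2).mul_left (yp c))
    have e1 : (fun n : ℕ => (∑ c : ι × E, yp c * W c n) *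
        Complex.exp (2 * Real.pi * Complex.I * (τ : ℂ) / N') ^ (n + 1)) = fun n : ℕ =>
        ∑ c : ι × E, yp c * (W c n *
          Complex.exp (2 * Real.pi * Complex.I * (τ : ℂ) / N') ^ (n + 1)) := by
      funext n
      rw [Finset.sum_mul]
      refine Finset.sum_congr rfl fun c _ => ?_
      ring
    have e2 : Z (γ • τ) - ∑ c : ι × E, yp c * C c = ∑ c : ι × E, yp c *
        (thetaIntI (R.b c.1) c.2 ((((γ 0 0 : ℤ) : ℂ) * τ + ((γ 0 1 : ℤ) : ℂ)) /
          (((γ 1 0 : ℤ) : ℂ) * τ + ((γ 1 1 : ℤ) : ℂ))) - C c) := by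
      rw [hZ]
      beta_reduce
      rw [← Finset.sum_sub_distrib, hsmul]
      refine Finset.sum_congr rfl fun c _ => ?_
      ring
    rw [e1, e2]
    exact hs
  -- the periods
  set ρ : SL(2, ℤ) → ℂ := fun g => ∑ c : ι × E, yp c *
    (PhiI (R.b c.1) (c.2 : OO A B → ℂ) ∞ (G6c.mI g) / Om) with hρ
  have hρadd : ∀ g ∈ CongruenceSubgroup.Gamma1 N', ∀ g' ∈ CongruenceSubgroup.Gamma1 N',
      ρ (g * g') = ρ g + ρ g' := by
    intro g hg g' hg'
    rw [hρ]
    beta_reduce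
    rw [← Finset.sum_add_distrib]
    refine Finset.sum_congr rfl fun c _ => ?_
    obtain ⟨m1, m2⟩ := G6c.mem1 hg
    have a1 := hG.add c.2 c.2.2 c.1 ∞ (G6c.mI g) (G6c.mI (g * g'))
    have a2 := hG.inv c.2 c.2.2 c.1 (g 0 0) (g 0 1) (g 1 0) (g 1 1) (G6c.det_eq g) m1 m2 ∞
      (G6c.mI g')
    rw [← G6c.mI_mul] at a2
    have a3 : mob (g 0 0) (g 0 1) (g 1 0) (g 1 1) ∞ = G6c.mI g := rfl
    rw [a3] at a2
    rw [← a1, a2]
    ring
  have hρ0 : ∀ g ∈ CongruenceSubgroup.Gamma1 N', ρ g = 0 := by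
    intro g hg
    have := hfg ρ hρadd ⊥ (fun i => by
      rw [AddSubgroup.mem_bot]
      exact hyp0 i) g hg
    rwa [AddSubgroup.mem_bot] at this
  have hper : ∀ γ ∈ CongruenceSubgroup.Gamma1 N', ∀ τ : ℍ, Z (γ • τ) = Z τ := by
    intro γ hγ τ
    obtain ⟨m1, m2⟩ := G6c.mem1 hγ
    have e1 : Z (γ • τ) - Z τ = Om * ρ γ := by
      rw [hZ, hρ]
      beta_reduce
      rw [hsmul, ← Finset.sum_sub_distrib, Finset.mul_sum _ _ Om]
      refine Finset.sum_congr rfl fun c _ => ?_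
      rw [hG.per c.2 c.2.2 c.1 (γ 0 0) (γ 0 1) (γ 1 0) (γ 1 1) (G6c.det_eq γ) m1 m2 (τ : ℂ) τ.2]
      have a3 : mob (γ 0 0) (γ 0 1) (γ 1 0) (γ 1 1) ∞ = G6c.mI γ := rfl
      rw [a3]
      field_simp
      ring
    rw [hρ0 γ hγ, mul_zero] at e1
    exact sub_eq_zero.1 e1
  have hz0 : z = 0 := h3 N' hG.pos Z z hQS (by rw [hzn]; simp) hcusp hper
  have hc1 := hzn 1
  rw [hz0, map_zero] at hc1
  have e1 : (∑ c : ι × E, yp c * (α c.2 c.1 1 / (1 : ℕ))) = ∑ e : E, yp (R.i0, e) := by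
    rw [Fintype.sum_prod_type, Finset.sum_eq_single R.i0]
    · refine Finset.sum_congr rfl fun e _ => ?_
      have := (hα e e.2 R.i0).2.2.1 rfl
      rw [this]
      simp
    · intro i _ hi
      refine Finset.sum_eq_zero fun e _ => ?_
      have := (hα e e.2 i).2.2.2.1 hi
      rw [this]
      simp
    · intro hi
      exact absurd (Finset.mem_univ _) hi
  have e2 : ∑ e : E, yp (R.i0, e) = kk' R.i0 - ∑ j ∈ J, x j * ∑ e : E, y' j (R.i0, e) := by
    have e3 : ∑ e' : E, yx (R.i0, e') = kk' R.i0 := by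
      rw [Finset.sum_eq_single (⟨e, he⟩ : E)]
      · simp only [hyx, if_true]
      · intro e' _ he'
        simp only [hyx, if_neg he']
      · intro hc'
        exact absurd (Finset.mem_univ _) hc'
    have e4 : ∑ e' : E, ∑ j ∈ J, x j * y' j (R.i0, e') =
        ∑ j ∈ J, x j * ∑ e : E, y' j (R.i0, e) := by
      rw [Finset.sum_comm]
      refine Finset.sum_congr rfl fun j _ => ?_
      rw [Finset.mul_sum]
    rw [← e3, ← e4, ← Finset.sum_sub_distrib]
  have e5 : kk' R.i0 = ∑ j ∈ J, x j * ∑ e : E, y' j (R.i0, e) := by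
    rw [e1, e2] at hc1
    exact (sub_eq_zero.1 hc1.symm)
  apply hkk
  rw [e5]
  exact sum_mem fun j hj => by
    rw [mul_comm]
    exact Pool.Agent.MU3A2.nonunit_mul (hy'2 j hj) (hxnu j)

end

end Pool.Agent.MUXN
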