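import Pool.Agent.MUX.StGF
import Pool.Agent.MUX.F_TSM
import Pool.Agent.MUX.N_GJ

/-!
# MUX, end of block G, module QXP: the `q`-expansion of `thetaIntI`
-/

set_option autoImplicit false

namespace Pool.Agent.MUXN

open _root_.MU3 Pool.Agent.MU3A Pool.Agent.MU3B Pool.Agent.MU3Q Pool.Agent.MUX Pool.Agent.MuSym
  OnePoint UpperHalfPlane
open Pool.Agent.MUXF (Sx_ALG Sx_IDL Sx_QB Sx_BDD Sx_TSM qb)
open Pool.Agent.MUXY (cqF eiF)
open scoped ComplexConjugate

noncomputable section

namespace N_QXP

variable {A B : ℤ}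

/-- finitely many elements of bounded norm -/
theorem fin_nm (hc : MUX.CQ A B) (c : ℤ) : {x : OO A B | nm x ≤ c}.Finite := by
  set M : ℤ := (4 * |A| + 4) * |c| with hM
  have hsub : {x : OO A B | nm x ≤ c} ⊆
      (fun p : ℤ × ℤ => (⟨p.1, p.2⟩ : OO A B)) '' (Set.Icc (-M) M ×ˢ Set.Icc (-M) M) := by
    intro x hx
    have h1 := Pool.Agent.MUXF.TsmX.bd (cqF hc) x
    have h2 : x.re ^ 2 + x.im ^ 2 ≤ (4 * |A| + 4) * nm x := by
      have h3 : ((x.re ^ 2 + x.im ^ 2 : ℤ) : ℝ) ≤ (((4 * |A| + 4) * nm x : ℤ) : ℝ) := by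
        push_cast
        exact h1
      exact_mod_cast h3
    have h4 : (4 * |A| + 4) * nm x ≤ M := by
      rw [hM]
      have h5 : nm x ≤ |c| := le_trans hx (le_abs_self c)
      have h6 : 0 ≤ 4 * |A| + 4 := by positivity
      exact mul_le_mul_of_nonneg_left h5 h6
    have h7 : ∀ y : ℤ, y ^ 2 ≤ M → -M ≤ y ∧ y ≤ M := by
      intro y hy
      constructor
      · nlinarith [sq_nonneg (y + 1), sq_nonneg y]
      · nlinarith [sq_nonneg (y - 1), sq_nonneg y]
    refine ⟨(x.re, x.im), ⟨?_, ?_⟩, rfl⟩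
    · exact h7 x.re (by nlinarith [sq_nonneg x.im])
    · exact h7 x.im (by nlinarith [sq_nonneg x.re])
  exact (((Set.finite_Icc _ _).prod (Set.finite_Icc _ _)).image _).subset hsub

/-- the fibres of `qb` are finite -/
theorem fin_fib (hc : MUX.CQ A B) (hQB : Sx_QB) (b : Ideal (OO A B)) (hb : b ≠ ⊥) (n : ℕ) :
    {x : b | (qb b (x : OO A B)).toNat = n}.Finite := by
  have h1 := (fin_nm hc (MUX.nI b * n)).preimage
    (Set.injOn_of_injective (f := fun x : b => (x : OO A B)) Subtype.val_injective)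
  refine h1.subset ?_
  intro x hx
  obtain ⟨h2, h3⟩ := (hQB A B (cqF hc) b hb).1 x x.2
  show nm (x : OO A B) ≤ MUX.nI b * n
  have h4 : qb b (x : OO A B) = n := by
    have h5 : (qb b (x : OO A B)).toNat = n := hx
    omega
  rw [h2, h4]
  exact le_rfl

/-- `x` in the upper half of `O` -/
def PH (x : OO A B) : Prop := 0 < x.im ∨ (x.im = 0 ∧ 0 < x.re)

theorem PH_neg (x : OO A B) (hx : x ≠ 0) : PH (-x) ↔ ¬ PH x := by
  have h1 : (-x).im = -x.im := rfl
  have h2 : (-x).re = -x.re := rfl
  have h3 : ¬ (x.re = 0 ∧ x.im = 0) := fun h => hx (QuadraticAlgebra.ext h.1 h.2)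
  unfold PH
  rw [h1, h2]
  omega

theorem half_sum {b : Ideal (OO A B)} (S : Finset b) (hS : ∀ x ∈ S, -x ∈ S) (h0 : (0 : b) ∉ S)
    (t : b → ℂ) (ht : ∀ x, t (-x) = t x) [DecidablePred fun x : b => PH (x : OO A B)] :
    ∑ x ∈ S, t x = 2 * ∑ x ∈ S.filter (fun x : b => PH (x : OO A B)), t x := by
  have hne : ∀ x ∈ S, (x : OO A B) ≠ 0 := by
    intro x hx h
    apply h0
    have : x = 0 := Subtype.ext h
    rwa [this] at hx
  rw [← Finset.sum_filter_add_sum_filter_not S (fun x : b => PH (x : OO A B)), two_mul]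
  congr 1
  refine Finset.sum_nbij' (fun x => -x) (fun x => -x) ?_ ?_ ?_ ?_ ?_
  · intro x hx
    obtain ⟨h1, h2⟩ := Finset.mem_filter.1 hx
    exact Finset.mem_filter.2 ⟨hS x h1, (PH_neg _ (hne x h1)).2 h2⟩
  · intro x hx
    obtain ⟨h1, h2⟩ := Finset.mem_filter.1 hx
    refine Finset.mem_filter.2 ⟨hS x h1, fun h3 => ?_⟩
    exact (PH_neg _ (hne x h1)).1 h3 h2
  · intro x _
    exact neg_neg x
  · intro x _
    exact neg_neg x
  · intro x _
    exact (ht x).symm

theorem emb_int (hc : MUX.CQ A B) (x : OO A B) : IsIntegral ℤ (emb x) := by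
  unfold emb
  exact (isIntegral_algebraMap (R := ℤ) (A := ℂ) (x := x.re)).add
    ((isIntegral_algebraMap (R := ℤ) (A := ℂ) (x := x.im)).mul (N_GJ.wC_int hc))

end N_QXP

open N_QXP in
/-- the `q`-expansion of `thetaIntI` -/
theorem tg_QXP (hU : Sg_UNIT) (hA : Sx_ALG) (hI : Sx_IDL) (hQB : Sx_QB) (hBD : Sx_BDD)
    (hTS : Sx_TSM) : Sg_QXP := by
  classical
  intro p A B hcp n ι R g hg e he r hr her i
  have hc : MUX.CQ A B := hcp.toCQ
  have hb : R.b i ≠ ⊥ := (R.nl i).b_ne
  obtain ⟨u1, u2⟩ := hU p A B hcp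
  obtain ⟨a1, a2, a3, a4, -⟩ := hA A B (cqF hc)
  obtain ⟨q1, -, -⟩ := hQB A B (cqF hc) (R.b i) hb
  have hnb : MUX.nI (R.b i) ≠ 0 := (hI A B (cqF hc) (R.b i) hb).1
  have hnbC : ((MUX.nI (R.b i) : ℕ) : ℂ) ≠ 0 := by exact_mod_cast hnb
  obtain ⟨hfin, C, hC0, hC⟩ := hBD A B (cqF hc) g e hg (eiF he)
  set b : Ideal (OO A B) := R.b i with hbdef
  set S : ℕ → Finset b := fun m => (fin_fib hc hQB b hb m).toFinset with hSdef
  have hS : ∀ (m : ℕ) (x : b), x ∈ S m ↔ (qb b (x : OO A B)).toNat = m := by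
    intro m x
    rw [hSdef]
    simp
  set t : b → ℂ := fun x => e x * conj (emb (x : OO A B)) with htdef
  have hconj : ∀ x : OO A B, conj (emb x) = emb (star x) := fun x => ((a2 x).2.2.2.2.2.1).symm
  have hnmneg : ∀ x : OO A B, nm (-x) = nm x := by
    intro x
    unfold nm
    have h1 : (-x).im = -x.im := rfl
    have h2 : (-x).re = -x.re := rfl
    rw [h1, h2]
    ring
  have hembneg : ∀ x : OO A B, emb (-x) = -emb x := by
    intro x
    rw [← N_GJ.eHom_apply hc, ← N_GJ.eHom_apply hc, map_neg]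
  have heneg : ∀ x : OO A B, e (-x) = -e x := by
    intro x
    have h1 := he.mul (-1) x
    rw [neg_one_mul, he.neg, neg_one_mul] at h1
    exact h1
  have htneg : ∀ x : b, t (-x) = t x := by
    intro x
    show e (-(x : OO A B)) * conj (emb (-(x : OO A B))) = e x * conj (emb (x : OO A B))
    rw [heneg, hembneg, map_neg, neg_mul_neg]
  have hqbneg : ∀ x : OO A B, qb b (-x) = qb b x := by
    intro x
    unfold qb
    rw [hnmneg]
  have hSneg : ∀ m, ∀ x ∈ S m, -x ∈ S m := by
    intro m x hx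
    rw [hS] at hx ⊢
    show (qb b (-(x : OO A B))).toNat = m
    rw [hqbneg, hx]
  have hqb0 : qb b (0 : OO A B) = 0 := by
    unfold qb nm
    simp
  have hS0 : ∀ m, m ≠ 0 → (0 : b) ∉ S m := by
    intro m hm h
    rw [hS] at h
    apply hm
    rw [← h]
    show (qb b (0 : OO A B)).toNat = 0
    rw [hqb0]
    rfl
  have hnmS : ∀ (m : ℕ) (x : b), x ∈ S m → nm (x : OO A B) = MUX.nI b * m := by
    intro m x hx
    rw [hS] at hx
    obtain ⟨h2, h3⟩ := q1 x x.2
    have h4 : qb b (x : OO A B) = m := by omega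
    rw [h2, h4]
    rfl
  have hS00 : ∀ x ∈ S 0, t x = 0 := by
    intro x hx
    have h1 := hnmS 0 x hx
    have h2 : (x : OO A B) = 0 := (a2 x).2.1.1 (by rw [h1]; simp)
    rw [htdef]
    beta_reduce
    rw [h2, (a2 0).1.2 rfl]
    simp
  set α : ℕ → ℂ := fun m => (1 / 2) * ∑ x ∈ S m, t x with hαdef
  have hα0 : α 0 = 0 := by
    rw [hαdef]
    beta_reduce
    rw [Finset.sum_eq_zero hS00, mul_zero]
  have hαn : ∀ m, m ≠ 0 → α m = ∑ x ∈ (S m).filter (fun x : b => PH (x : OO A B)), t x := by
    intro m hm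
    rw [hαdef]
    beta_reduce
    rw [half_sum (S m) (hSneg m) (hS0 m hm) t htneg]
    ring
  have htint : ∀ x : b, IsIntegral ℤ (t x) := by
    intro x
    show IsIntegral ℤ (e x * conj (emb (x : OO A B)))
    rw [hconj]
    refine IsIntegral.mul ?_ (emb_int hc _)
    by_cases h : e x = 0
    · rw [h]
      exact isIntegral_zero
    · exact IsIntegral.of_pow (n := r) (Nat.pos_of_ne_zero hr)
        (by rw [her x h]; exact isIntegral_one)
  refine ⟨α, ?_, ?_, ?_, ?_, ?_⟩
  · intro m
    by_cases hm : m = 0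
    · rw [hm, hα0]
      exact isIntegral_zero
    · rw [hαn m hm]
      exact IsIntegral.sum _ fun x _ => htint x
  · have hfin2 : (Set.range e ∪ {wC A B}).Finite := hfin.union (Set.finite_singleton _)
    have hfin3 : Finite ↑(Set.range e ∪ {wC A B}) := hfin2
    set K : IntermediateField ℚ ℂ := IntermediateField.adjoin ℚ (Set.range e ∪ {wC A B}) with hK
    have hKfd : FiniteDimensional ℚ K := by
      apply IntermediateField.finiteDimensional_adjoin
      rintro x (⟨y, rfl⟩ | hx)
      · by_cases h : e y = 0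
        · rw [h]
          exact isIntegral_zero
        · exact IsIntegral.of_pow (n := r) (Nat.pos_of_ne_zero hr)
            (by rw [her y h]; exact isIntegral_one)
      · rw [Set.mem_singleton_iff] at hx
        rw [hx]
        exact (N_GJ.wC_int hc).tower_top
    have hKe : ∀ x, e x ∈ K := fun x =>
      IntermediateField.subset_adjoin ℚ _ (Or.inl ⟨x, rfl⟩)
    have hKw : wC A B ∈ K := IntermediateField.subset_adjoin ℚ _ (Or.inr rfl)
    have hKemb : ∀ x : OO A B, emb x ∈ K := fun x =>
      add_mem (intCast_mem _ _) (mul_mem (intCast_mem _ _) hKw)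
    refine ⟨K.toSubfield, ?_, ?_⟩
    · have h4 : NumberField K := ⟨⟩
      exact h4
    · intro m
      show α m ∈ K
      refine mul_mem (div_mem (one_mem _) (ofNat_mem K 2)) (sum_mem fun x _ => ?_)
      show e x * conj (emb (x : OO A B)) ∈ K
      rw [hconj]
      exact mul_mem (hKe _) (hKemb _)
  · intro hi
    have hbt : b = ⊤ := by rw [hbdef, hi, R.b0]
    have hn1 : MUX.nI b = 1 := by
      rw [hbt]
      unfold MUX.nI
      exact Nat.card_unique
    have h1mem : (1 : OO A B) ∈ b := by rw [hbt]; trivial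
    rw [hαn 1 one_ne_zero]
    have hfil : (S 1).filter (fun x : b => PH (x : OO A B)) = {⟨1, h1mem⟩} := by
      ext x
      rw [Finset.mem_filter, Finset.mem_singleton]
      constructor
      · rintro ⟨h1, h2⟩
        have h3 := hnmS 1 x h1
        rw [hn1] at h3
        rcases u1 x (by rw [h3]; norm_num) with h4 | h4
        · exact Subtype.ext h4
        · exfalso
          rw [h4] at h2
          have h5 : (-1 : OO A B).im = 0 := neg_zero
          have h6 : (-1 : OO A B).re = -1 := rfl
          unfold PH at h2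
          rw [h5, h6] at h2
          omega
      · intro h
        rw [h]
        constructor
        · rw [hS]
          show (qb b (1 : OO A B)).toNat = 1
          have h3 := (q1 1 h1mem).1
          have h4 : (MUX.nI b : ℤ) = 1 := by rw [hn1]; rfl
          have h5 : nm (1 : OO A B) = 1 := by
            unfold nm
            rw [QuadraticAlgebra.re_one, QuadraticAlgebra.im_one]
            ring
          have h6 : nm (1 : OO A B) = (MUX.nI b : ℤ) * qb b (1 : OO A B) := h3
          rw [h4, h5, one_mul] at h6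
          rw [← h6]
          rfl
        · unfold PH
          right
          exact ⟨QuadraticAlgebra.im_one, by
            show (0 : ℤ) < (1 : OO A B).re
            rw [QuadraticAlgebra.re_one]
            exact one_pos⟩
    rw [hfil, Finset.sum_singleton]
    show e 1 * conj (emb (1 : OO A B)) = 1
    rw [he.one, ← N_GJ.eHom_apply hc, map_one, map_one, one_mul]
  · intro hi
    have hS1 : S 1 = ∅ := by
      apply Finset.eq_empty_of_forall_notMem
      intro x hx
      have h1 := hnmS 1 x hx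
      rw [Nat.cast_one, mul_one] at h1
      have h2 := u2 b hb x x.2 h1
      apply hi
      have hx0 : (x : OO A B) ≠ 0 := by
        intro h0
        rw [h0] at h1
        have h3 : nm (0 : OO A B) = 0 := by
          unfold nm
          simp
        rw [h3] at h1
        exact hnb (by exact_mod_cast h1.symm)
      have hone : (1 : OO A B) ≠ 0 := by
        intro h0
        apply hx0
        rw [← mul_one (x : OO A B), h0, mul_zero]
      refine R.inj i R.i0 1 x hone hx0 ?_
      rw [R.b0]
      show sp (1 : OO A B) * b = sp (x : OO A B) * ⊤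
      rw [← h2, Ideal.mul_top]
      show Ideal.span {(1 : OO A B)} * b = b
      rw [Ideal.span_singleton_one, Ideal.top_mul]
    show (1 / 2) * ∑ x ∈ S 1, t x = 0
    rw [hS1, Finset.sum_empty, mul_zero]
  · intro τ hτ
    have hsum := hTS A B (cqF hc) b hb e C hC τ hτ
    have hq : ∀ x : b, ((nm (x : OO A B) : ℤ) : ℂ) / ((MUX.nI b : ℕ) : ℂ) =
        ((qb b (x : OO A B) : ℤ) : ℂ) := by
      intro x
      have h1 : nm (x : OO A B) = (MUX.nI b : ℤ) * qb b (x : OO A B) := (q1 x x.2).1
      rw [h1]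
      push_cast
      field_simp
    set f : b → ℂ := fun x => e x * conj (emb (x : OO A B)) /
      (((nm (x : OO A B) : ℤ) : ℂ) / ((MUX.nI b : ℕ) : ℂ)) *
        Complex.exp (2 * Real.pi * Complex.I *
          (((nm (x : OO A B) : ℤ) : ℂ) / ((MUX.nI b : ℕ) : ℂ)) * τ) with hf
    have hfs : Summable f := by
      refine Summable.of_norm_bounded hsum.norm fun x => ?_
      rw [hf]
      beta_reduce
      show _ ≤ ‖e x * conj (emb (x : OO A B)) * Complex.exp (2 * Real.pi * Complex.I *
          (((nm (x : OO A B) : ℤ) : ℂ) / ((MUX.nI b : ℕ) : ℂ)) * τ)‖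
      rw [hq x, norm_mul, norm_mul (e x * conj (emb (x : OO A B))), norm_div]
      refine mul_le_mul_of_nonneg_right ?_ (norm_nonneg _)
      by_cases h0 : qb b (x : OO A B) = 0
      · rw [h0, Int.cast_zero, norm_zero, div_zero]
        exact norm_nonneg _
      · have h1 : 1 ≤ qb b (x : OO A B) := by
          have := (q1 x x.2).2
          omega
        have h2 : (1 : ℝ) ≤ ‖((qb b (x : OO A B) : ℤ) : ℂ)‖ := by
          rw [Complex.norm_intCast]
          have h3 : (1 : ℝ) ≤ ((qb b (x : OO A B) : ℤ) : ℝ) := by exact_mod_cast h1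
          exact h3.trans (le_abs_self _)
        exact div_le_self (norm_nonneg _) h2
    have hfib := hfs.hasSum.tsum_fiberwise (fun x : b => (qb b (x : OO A B)).toNat)
    have hfib2 := hfib.mul_left (1 / 2 : ℂ)
    have e1 : (fun m : ℕ => α m / m * Complex.exp (2 * Real.pi * Complex.I * τ) ^ m) =
        fun m : ℕ => (1 / 2 : ℂ) * ∑' x : (fun x : b => (qb b (x : OO A B)).toNat) ⁻¹' {m},
          f x := by
      funext m
      have h1 : (fun x : b => (qb b (x : OO A B)).toNat) ⁻¹' {m} = ((S m : Finset b) : Set b) := by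
        ext x
        rw [Finset.mem_coe, hS]
        rfl
      rw [h1, Finset.tsum_subtype' (S m) f, hαdef]
      beta_reduce
      rw [mul_div_assoc, mul_assoc]
      congr 1
      rw [div_mul_eq_mul_div, Finset.sum_mul, Finset.sum_div]
      refine Finset.sum_congr rfl fun x hx => ?_
      have h2 : ((qb b (x : OO A B) : ℤ) : ℂ) = (m : ℂ) := by
        rw [hS] at hx
        have h3 := (q1 x x.2).2
        have h4 : qb b (x : OO A B) = m := by omega
        rw [h4]
        simp
      rw [hf, htdef]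
      beta_reduce
      rw [hq x, h2, ← Complex.exp_nat_mul]
      rw [show 2 * (Real.pi : ℂ) * Complex.I * (m : ℂ) * τ =
        (m : ℂ) * (2 * Real.pi * Complex.I * τ) by ring]
      ring
    rw [e1]
    exact hfib2

end

end Pool.Agent.MUXN
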