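import Pool.Agent.MUX.StR3
import Pool.Agent.MU3.BAll

/-!
# MUX, block R3, module TRI: points of order three
-/

set_option autoImplicit false

namespace Pool.Agent.MUX3

open _root_.MU3 Pool.Agent.MU3A Pool.Agent.MU3B Pool.Agent.MUX Pool.Agent.MUXU Pool.Agent.MUX2
open WeierstrassCurve

noncomputable section

theorem t3_TRI : S3_TRI := by
  intro L u hu h3
  have h2 : 2 * u ∉ L.lattice := by
    intro h
    apply hu
    have := sub_mem h3 h
    have e : 3 * u - 2 * u = u := by ring
    rwa [e] at this
  have hd : L.derivWeierstrassP u ≠ 0 := fun h => h2 ((b_ZER L u hu).1 h)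
  refine ⟨hd, ?_⟩
  have hP : L.weierstrassP (2 * u) = L.weierstrassP u := by
    have h := L.weierstrassP_add_coe (-u) ⟨3 * u, h3⟩
    have e : -u + ((⟨3 * u, h3⟩ : L.lattice) : ℂ) = 2 * u := by
      show -u + 3 * u = 2 * u
      ring
    rw [e, L.weierstrassP_neg] at h
    exact h
  have hD := (b_DUP L u h2).1
  rw [hP] at hD
  have hsq := L.derivWeierstrassP_sq u hu
  rw [div_pow, eq_div_iff (pow_ne_zero 2 (mul_ne_zero two_ne_zero hd))] at hD
  linear_combination hD - 12 * L.weierstrassP u * hsq

end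

end Pool.Agent.MUX3
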