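import Pool.Agent.MUX.RQ0
import Pool.Agent.MUX.R_NGR
import Pool.Agent.MUX.Q_FRX

/-!
# MUX, block R: all statements of `StVX.lean` and `StQX.lean`, without hypotheses (helper59)
-/

set_option autoImplicit false

namespace Pool.Agent.MUXV

theorem x_NGR : Sx_NGR := tx_NGR x_XIC
theorem q_FRX : Sq_FRX := tq_FRX q_ISQ q_VQI x_NGR x_FRN

end Pool.Agent.MUXV
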