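import Pool.Agent.MUX.StJG

/-!
# MUX, block J, `p = 2` ramified in `k`: first part (helper34)

The field theory of the last glue for `p = 2` ramified in `k` (`e = 2`). The new point: the first layer `ℚ(√2)` may be contained in the field `K = K₀(i) RF(⊤)`; the second layer is not. These statements do not use the new field structures of
block K (`StKY.lean`); the others (`SETU`, `FINGU`) are in `StJU2.lean`.
-/

set_option autoImplicit false

open NumberField IsDedekindDomain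
open scoped nonZeroDivisors Pointwise

namespace Pool.Agent.MUXJ

open _root_.MU3 Pool.Agent.MU3 Pool.Agent.MU3A Pool.Agent.MU3B Pool.Agent.RI Pool.Agent.RID
  Pool.Agent.MUX Pool.Agent.MUXK

noncomputable section

/-- The prime `P` above `2` (any behaviour of `2` in `k`) and the valuation ring `V` above `P`. -/
structure AboU (A B : ℤ) (P : Ideal (OO A B)) (V : ValuationSubring ℂ) : Prop where
  cq : CQ A B
  prime : P.IsPrime
  mem : ((2 : ℕ) : OO A B) ∈ P
  hV : OverI V P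
  hp : (2 : ℂ) ∈ V.nonunits

/-- JRAMU: the inertia group of a field which contains the roots of unity of order 16.
PROOF. `J_RAMG.lean` with `16` in place of `q0 p * p` (`φ(16) = 8`; `e = 2`): `w = {x ∈ 𝓞 F : v x < 1}`, `w ∩ 𝓞 k = P`, the inertia group has order `e(w | P)`; `e(w | 2) = e(w | P) e(P | 2)` is a multiple of `8`, because `2` is totally ramified in `ℚ(μ_16)`, and `e(P | 2)` is `1` or `2`. -/
def Sj_RAMU : Prop := ∀ (A B : ℤ) (P : Ideal (OO A B)) (V : ValuationSubring ℂ),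
    AboU A B P V →
    ∀ (F : IntermediateField (kk A B) ℂ) [FiniteDimensional (kk A B) F] [IsGalois (kk A B) F],
    (∃ ζ ∈ F, IsPrimitiveRoot ζ 16) →
    8 ∣ 2 * Nat.card {σ : F ≃ₐ[kk A B] F //
      ∀ x : F, V.valuation (x : ℂ) ≤ 1 → V.valuation ((σ x : ℂ) - x) < 1}

/-- JROTU: the second layer and the roots of unity of order 4.
Uses Sj_LAY. PROOF. The second layer is `ℚ(t)`, `t = ζ + ζ⁻¹`, `ζ = zt 16` (`J_LAY.lean`: `uniq2`, `B2`). `t² - 2 = ζ² + ζ⁻²`, `(t² - 2)² = 2`; `s = (t² - 2)/t ∈ K` satisfies `(ζ - ζ⁻¹)² = t² - 4 = -(4 - t²)` and `s² = 2/t² = 4 - t²` (as `t² (4 - t²) = 4 - (t² - 2)² = 2`). So `ζ - ζ⁻¹ = ± i s` and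
`ζ = (t ± i s)/2 ∈ K`, `i` a primitive fourth root of unity in `K`. -/
def Sj_ROTU : Prop := ∀ (B K : IntermediateField ℚ ℂ), IsLayer 2 2 B →
    B ≤ K → (∃ ζ ∈ K, IsPrimitiveRoot ζ 4) → ∃ ζ ∈ K, IsPrimitiveRoot ζ 16

/-- JLDU: a field which contains the layer `s` but not the layer `s + 1`.
PROOF. As `J_LDX.lean` (`ldx_gen`): `B n / ℚ` is Galois and cyclic of order `p^n`, its subfields are the `B i`, `i ≤ n`, so `K ⊓ B n = B s` for `n ≥ s`, and `[K B n : K] = [B n : K ⊓ B n] = p^(n - s)`. -/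
def Sj_LDU : Prop := ∀ (p : ℕ) [Fact p.Prime] (K : IntermediateField ℚ ℂ)
    (B : ℕ → IntermediateField ℚ ℂ) [FiniteDimensional ℚ K], (∀ n, IsLayer p n (B n)) →
    Monotone B → ∀ s : ℕ, B s ≤ K → ¬ B (s + 1) ≤ K →
    ∀ n, s ≤ n → Module.finrank ℚ ↥(K ⊔ B n) * p ^ s = Module.finrank ℚ K * p ^ n

/-- JK0U: fields of odd degree over `k` do not contain the first layer.
PROOF. Suppose `B₁ ≤ K₀`. `k B₁ ≤ K₀`, so the degree of `k B₁` over `k` divides the degree of `K₀` over `k`, which is odd; it is at most `[B₁ : ℚ] = 2`, so it is `1`: `B₁ ≤ k`; both have degree `2` over `ℚ` (`k = ℚ(w)`, `w² = A + B w`; or: `B₁ ≤ k` and `[k : ℚ] ≤ 2`), so `B₁ = k`, but `B₁` is real (`IsLayer`) and `wC A B ∈ k` is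
not real (`absD > 0`). -/
def Sj_K0U : Prop := ∀ (A B : ℤ), CQ A B → ∀ (K₀ : IntermediateField ℚ ℂ)
    [FiniteDimensional ℚ K₀] (hk : kk A B ≤ K₀),
    ¬ 2 ∣ Module.finrank (kk A B) (IntermediateField.extendScalars hk) →
    ∀ B₁ : IntermediateField ℚ ℂ, IsLayer 2 1 B₁ → ¬ B₁ ≤ K₀

end

end Pool.Agent.MUXJ
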