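import Pool.Agent.MUX.StJU
import Pool.Agent.N2.DefsR2

/-!
# MUX, block J, `p = 2` ramified in `k`: second part (helper34)

The statements which use the field structures `BasY`, `SetY`, `InpGY` of `Pool/Agent/N2/DefsR2.lean` (the degrees are counted from the first layer, which may be contained in `K`).
-/

set_option autoImplicit false

open NumberField IsDedekindDomain
open scoped nonZeroDivisors Pointwise

namespace Pool.Agent.MUXJ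

open _root_.MU3 Pool.Agent.MU3 Pool.Agent.MU3A Pool.Agent.MU3B Pool.Agent.RI Pool.Agent.RID
  Pool.Agent.MUX Pool.Agent.MUXK
open Pool.Agent.N2 (BasY SetY InpGY)

noncomputable section

/-- MAINKY: `S_MAINKX` with `SetY` in place of `SetX` (block K, `StKY.lean`, helper66). -/
def S_MAINKY : Prop := ∀ (F : Type) [Field F] (p : ℕ) [Fact p.Prime] [CharP F p] [IsAlgClosed F]
    (k K₀ K : IntermediateField ℚ ℂ) (B : ℕ → IntermediateField ℚ ℂ)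
    [FiniteDimensional ℚ k] [FiniteDimensional ℚ K] [∀ n, FiniteDimensional ℚ ↥(K ⊔ B n)],
    SetY p k K₀ K B →
    ∀ (hk : ∀ n, k ≤ K ⊔ B n) (hk₀ : ∀ n, k ≤ K₀ ⊔ B n)
    (hkK : k ≤ K₀) (S : Finset ℕ) (c c₀ : ℕ → ℂ) (n₁ : ℕ),
    InpX F p k K₀ K B hk hk₀ hkK S c c₀ n₁ →
    ∃ C : ℕ, ∀ n, padicValNat p (classNo (K₀ ⊔ B n)) ≤ C * (n + 1) ^ 2

/-- JSETU: the large field `K`, `p = 2`, any prime above `2`.
Uses Sj_DIR, Sj_RAMU, Sj_INJ, Sj_ROTU, Sj_LDX, Sj_LDU, Sj_GAL, Sj_LEVG, Sj_K0U. PROOF. `J_SETG.lean`: `K = K₀(i) RF(⊤)`. If `B₂ ≤ K` then `8 ∣ 2 |I| ∣ 2 [K₀(i) : k]` and `[K₀(i) : k]` is `1` or `2` times an odd number, false. `deg` by `Sj_LDU` with `s = 1` if `B₁ ≤ K`, otherwise `s = 0`. -/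
def Sj_SETU : Prop := ∀ (d : ℕ) (A B : ℤ) (P : Ideal (OO A B)) (V : ValuationSubring ℂ),
    AboU A B P V → d ≠ 0 → ¬ 2 ∣ d → UnrH A B V → TorX A B → NLex A B →
    ∀ (K₀ : IntermediateField ℚ ℂ) [FiniteDimensional ℚ K₀] (hk : kk A B ≤ K₀),
    ¬ 2 ∣ Module.finrank (kk A B) (IntermediateField.extendScalars hk) → TorU A B K₀ →
    ∀ (Bn : ℕ → IntermediateField ℚ ℂ), (∀ n, IsLayer 2 n (Bn n)) → Monotone Bn →
    ∃ (K : IntermediateField ℚ ℂ) (_ : FiniteDimensional ℚ K) (f : ℕ),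
      SetY 2 (kk A B) K₀ K Bn ∧ f ≠ 0 ∧ ¬ 2 ∣ f ∧ d ∣ f ∧
      (∀ y ∈ K, y ∈ RF (idl (A := A) (B := B) (lvX 2 f 0))) ∧
      ∀ y ∈ RF (⊤ : Ideal (OO A B)), y ∈ K

/-- JFINGU: the main theorem for all fields, from the inputs, `p = 2`, any prime above `2`.
Uses Sj_RES, Sj_LAY, Sj_DIR, Sj_GAL, Sj_SETU, Sj_UP, Sj_SUB, Sj_OMGG, Sj_FLD, S_MAINKY, P_SYL, P_PEX. PROOF. `J_FING.lean`. -/
def Sj_FINGU : Prop := ∀ (d : ℕ) (A B : ℤ) (P : Ideal (OO A B)) (V : ValuationSubring ℂ),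
    AboU A B P V → d ≠ 0 → ¬ 2 ∣ d → UnrH A B V → TorX A B → NLex A B →
    InpGY 2 d A B V →
    ∀ (F M K : IntermediateField ℚ ℂ) [FiniteDimensional ℚ M] (_ : kk A B ≤ F) (h : F ≤ M)
    (a : ℕ), TorU A B F → IsGalois F (IntermediateField.extendScalars h) →
    Module.finrank F (IntermediateField.extendScalars h) = 2 ^ a → K ≤ M →
    ∃ C : ℕ, ∀ (n : ℕ) (Q : IntermediateField ℚ ℂ), IsLayer 2 n Q →
      padicValNat 2 (classNo (K ⊔ Q)) ≤ C * (n + 1) ^ C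

end

end Pool.Agent.MUXJ
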