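import Pool.Agent.MUX.StU

/-!
# MUX, block U, module LIM (helper95): the limits of `g₂(τ)` and `g₃(τ)`
-/

set_option autoImplicit false

namespace Pool.Agent.MUXU

open Filter Topology UpperHalfPlane EisensteinSeries
open scoped Real

noncomputable section

namespace LIM

theorem G_eq (τ : ℍ) (k : ℕ) : (LT τ).G k = ∑' v : Fin 2 → ℤ, eisSummand k v τ := by
  unfold PeriodPair.G
  rw [← (LT τ).latticeEquivProd.symm.toEquiv.tsum_eq, ← (Equiv.prodComm ℤ ℤ).tsum_eq,
    ← (finTwoArrowEquiv ℤ).tsum_eq]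
  refine tsum_congr fun v => ?_
  have h1 := (LT τ).latticeEquiv_symm_apply (v 1, v 0)
  have h2 : ((LT τ).latticeEquivProd.symm.toEquiv ((Equiv.prodComm ℤ ℤ)
      (finTwoArrowEquiv ℤ v)) : (LT τ).lattice) = (LT τ).latticeEquivProd.symm (v 1, v 0) := rfl
  rw [h2, h1, eisSummand, zpow_neg, zpow_natCast]
  congr 2
  change (v 1 : ℂ) * 1 + (v 0 : ℂ) * (τ : ℂ) = _
  ring

theorem E_tend {k : ℕ} (hk : 3 ≤ k) (hk2 : Even k) :
    Tendsto (fun τ : ℍ => ModularForm.E hk τ) atImInfty (𝓝 1) := by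
  obtain ⟨c, hc, h1⟩ := ModularFormClass.exp_decay_sub_atImInfty' (ModularForm.E hk)
  have hv : valueAtInfty (ModularForm.E hk) = 1 := by
    rw [← E_qExpansion_coeff_zero hk hk2]
    exact (UpperHalfPlane.qExpansion_coeff_zero one_pos
      (ModularFormClass.analyticAt_cuspFunction_zero (ModularForm.E hk) one_pos
        one_mem_strictPeriods_SL)
      (SlashInvariantFormClass.periodic_comp_ofComplex (ModularForm.E hk)
        one_mem_strictPeriods_SL)).symm
  rw [hv] at h1
  have h2 : Tendsto (fun τ : ℍ => Real.exp (-c * τ.im)) atImInfty (𝓝 0) := by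
    refine Real.tendsto_exp_atBot.comp ?_
    exact (tendsto_comap (f := UpperHalfPlane.im)).const_mul_atTop_of_neg (neg_lt_zero.2 hc)
  have h3 := (h1.trans_tendsto h2).add_const 1
  simpa using h3

theorem G_tend {k : ℕ} (hk : 3 ≤ k) (hk2 : Even k) :
    Tendsto (fun τ : ℍ => (LT τ).G k) atImInfty (𝓝 (2 * riemannZeta k)) := by
  have h1 : ∀ τ : ℍ, (LT τ).G k = 2 * riemannZeta k * ModularForm.E hk τ := by
    intro τ
    rw [G_eq, tsum_eisSummand_eq_riemannZeta_mul_eisensteinSeries hk]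
    have h2 : ModularForm.E hk τ = (1 / 2 : ℂ) • eisensteinSeriesSIF (N := 1) 0 k τ := rfl
    rw [h2, eisensteinSeriesSIF_apply 0 k τ, smul_eq_mul]
    ring
  simp only [h1]
  simpa using (E_tend hk hk2).const_mul (2 * riemannZeta k)

theorem zeta_six : riemannZeta 6 = (π : ℂ) ^ 6 / 945 := by
  have h1 := riemannZeta_two_mul_nat (k := 3) (by norm_num)
  have h5 : bernoulli' 5 = 0 := bernoulli'_eq_zero_of_odd (by decide) (by norm_num)
  have h6 : bernoulli' 6 = 1 / 42 := by
    rw [bernoulli'_def]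
    norm_num [Finset.sum_range_succ, Finset.sum_range_zero, h5, Nat.choose]
  have h7 : bernoulli 6 = 1 / 42 := by
    rw [bernoulli_eq_bernoulli'_of_ne_one (by norm_num), h6]
  norm_num [h7, Nat.factorial] at h1
  rw [h1]
  ring

end LIM

open LIM in
theorem tu_LIM : Su_LIM := by
  constructor
  · have h := (G_tend (k := 4) (by norm_num) (by decide)).const_mul (60 : ℂ)
    have e : (60 : ℂ) * (2 * riemannZeta (4 : ℕ)) = 4 * (π : ℂ) ^ 4 / 3 := by
      push_cast
      rw [riemannZeta_four]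
      ring
    rw [e] at h
    exact h
  · have h := (G_tend (k := 6) (by norm_num) (by decide)).const_mul (140 : ℂ)
    have e : (140 : ℂ) * (2 * riemannZeta (6 : ℕ)) = 8 * (π : ℂ) ^ 6 / 27 := by
      push_cast
      rw [zeta_six]
      ring
    rw [e] at h
    exact h

end

end Pool.Agent.MUXU
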