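import Pool.Agent.MUX.XK1
import Pool.Agent.MUX.RQ0

/-!
# MUX, block W, for (KOL): lattice facts, residue field of `lam`, values of `Θ_a`, norms (helper59)
-/

set_option autoImplicit false

open WeierstrassCurve Polynomial NumberField IsDedekindDomain

namespace Pool.Agent.MUXW

open _root_.MU3 Pool.Agent.MU3A Pool.Agent.MU3B Pool.Agent.MU3C Pool.Agent.RI
open Pool.Agent.MUX Pool.Agent.MUXU
open Pool.Agent.MU3V (cls Sub GD algDF towDF rsHom rsHom_apply rsHom_mem rsHom_surj rsHom_inj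
  mem_GD rd rd_cls cls_eq_iff cls_mul cls_one cls_out isUnit_cls coprime_of_isUnit)
open Pool.Agent.MUXV (GR InK tX CMO Ovr)

noncomputable section

variable {A B : ℤ}

lemma kx_cq (h : CQ A B) : Pool.Agent.MUXF.CQ A B := ⟨h.hB, h.neg, h.fund1, h.fund0⟩

section
variable (h : CQ A B)
include h

lemma kx_mul (x y : OO A B) : emb (x * y) = emb x * emb y :=
  (MUXV.q_EMB A B (kx_cq h)).1 x y
lemma kx_add (x y : OO A B) : emb (x + y) = emb x + emb y :=
  (MUXV.q_EMB A B (kx_cq h)).2.1 x y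
lemma kx_sub (x y : OO A B) : emb (x - y) = emb x - emb y :=
  (MUXV.q_EMB A B (kx_cq h)).2.2.1 x y
lemma kx_int (n : ℤ) : emb (n : OO A B) = n := (MUXV.q_EMB A B (kx_cq h)).2.2.2.1 n
lemma kx_zero : emb (0 : OO A B) = 0 := by simpa using kx_int h 0
lemma kx_one : emb (1 : OO A B) = 1 := by simpa using kx_int h 1
lemma kx_neg (x : OO A B) : emb (-x) = -emb x := by
  have := kx_sub h 0 x
  rwa [kx_zero h, zero_sub, zero_sub] at this
lemma kx_inj {x y : OO A B} (e : emb x = emb y) : x = y :=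
  (MUXV.q_EMB A B (kx_cq h)).2.2.2.2.2.1 x y e
lemma kx_ne {x : OO A B} (hx : x ≠ 0) : emb x ≠ 0 := fun e =>
  hx (kx_inj h (by rw [e, kx_zero h]))
lemma kx_dom : IsDomain (OO A B) := (MUXV.q_EMB A B (kx_cq h)).2.2.2.2.2.2.2.2.2.2.2.2
lemma kx_star (x : OO A B) : x * star x = ((nm x : ℤ) : OO A B) :=
  (MUXV.q_EMB A B (kx_cq h)).2.2.2.2.2.2.2.2.1 x
lemma kx_nmul (x y : OO A B) : nm (x * y) = nm x * nm y :=
  (MUXV.q_EMB A B (kx_cq h)).2.2.2.2.2.2.2.2.2.1 x y
lemma kx_nnn (x : OO A B) : 0 ≤ nm x := (MUXV.q_EMB A B (kx_cq h)).2.2.2.2.2.2.2.2.2.2.1 x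
lemma kx_n0 (x : OO A B) : nm x = 0 ↔ x = 0 :=
  (MUXV.q_EMB A B (kx_cq h)).2.2.2.2.2.2.2.2.2.2.2.1 x

end

/-! ### The lattice `Om O` -/

section
variable (h : CQ A B) {L : PeriodPair} {Om : ℂ} (hL : IsNL (⊤ : Ideal (OO A B)) L Om)
include hL

lemma kx_mem {z : ℂ} : z ∈ L.lattice ↔ ∃ y : OO A B, z = Om * emb y :=
  (hL.mem z).trans ⟨fun ⟨y, _, hy⟩ => ⟨y, hy⟩, fun ⟨y, hy⟩ => ⟨y, Submodule.mem_top, hy⟩⟩

include h

lemma kx_cmo : CMO A B L := by
  intro x z hz
  obtain ⟨y, rfl⟩ := (kx_mem hL).1 hz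
  exact (kx_mem hL).2 ⟨x * y, by rw [kx_mul h]; ring⟩

lemma kx_div {m : OO A B} (hm : m ≠ 0) (x : OO A B) : emb x * (Om / emb m) ∈ L.lattice ↔ m ∣ x := by
  have hm0 := kx_ne h hm
  have hOm := hL.om_ne
  rw [kx_mem hL]
  constructor
  · rintro ⟨y, hy⟩
    refine ⟨y, kx_inj h ?_⟩
    rw [kx_mul h]
    field_simp at hy
    exact hy
  · rintro ⟨y, rfl⟩
    refine ⟨y, ?_⟩
    rw [kx_mul h]
    field_simp

lemma kx_divsub {m : OO A B} (hm : m ≠ 0) (x y : OO A B) :
    emb x * (Om / emb m) - emb y * (Om / emb m) ∈ L.lattice ↔ m ∣ x - y := by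
  rw [← sub_mul, ← kx_sub h]
  exact kx_div h hL hm _

lemma kx_tors {m : OO A B} (hm : m ≠ 0) (x : OO A B) :
    emb m * (emb x * (Om / emb m)) ∈ L.lattice := by
  have hm0 := kx_ne h hm
  refine (kx_mem hL).2 ⟨x, ?_⟩
  field_simp

lemma kx_torsN {m lam : OO A B} (hm : m ≠ 0) (hlam : lam ≠ 0) (s t : OO A B) :
    emb (m * lam) * (emb s * (Om / emb m) + emb t * (Om / emb lam)) ∈ L.lattice := by
  have hm0 := kx_ne h hm
  have hl0 := kx_ne h hlam
  refine (kx_mem hL).2 ⟨lam * s + m * t, ?_⟩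
  rw [kx_add h, kx_mul h, kx_mul h, kx_mul h]
  field_simp

lemma kx_notMem {m : OO A B} (hm : m ≠ 0) (hmu : ¬ IsUnit m) {x : OO A B} (hx : IsCoprime x m) :
    emb x * (Om / emb m) ∉ L.lattice := by
  rw [kx_div h hL hm]
  intro hd
  exact hmu (hx.symm.isUnit_of_dvd' dvd_rfl hd)

lemma kx_notMem2 {m lam : OO A B} (hm : m ≠ 0) (hlam : lam ≠ 0) (hcop : IsCoprime m lam)
    (hu : ¬ IsUnit lam) (s t : OO A B) (ht : IsCoprime t lam) :
    emb s * (Om / emb m) + emb t * (Om / emb lam) ∉ L.lattice := by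
  intro hz
  have h1 := kx_cmo h hL m _ hz
  have hm0 := kx_ne h hm
  have h2 : emb m * (emb s * (Om / emb m) + emb t * (Om / emb lam)) =
      Om * emb s + emb (m * t) * (Om / emb lam) := by
    rw [kx_mul h]; field_simp
  rw [h2] at h1
  have h3 : Om * emb s ∈ L.lattice := (kx_mem hL).2 ⟨s, rfl⟩
  have h4 := sub_mem h1 h3
  rw [add_sub_cancel_left] at h4
  have h5 := (kx_div h hL hlam (m * t)).1 h4
  exact hu ((hcop.mul_left ht).symm.isUnit_of_dvd' dvd_rfl h5)

omit h in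
lemma kx_tcong {a : ℤ} {H : Finset ℂ} (hH : IsHalf L a H) {z z' : ℂ} (hz : z - z' ∈ L.lattice) :
    ThetaH L H z = ThetaH L H z' := by
  have := (b_TIN L a H H hH hH).2.2 z' (z - z') hz
  rwa [add_sub_cancel] at this

end

/-! ### The residue field of `lam` -/

lemma kx_units (h : CQ A B) {lam : OO A B} {q : ℕ} (hq : q.Prime) (hlam : nm lam = q) :
    IsField (OO A B ⧸ Ideal.span {lam}) ∧ Finite (OO A B ⧸ Ideal.span {lam}) ∧
    IsCyclic (OO A B ⧸ Ideal.span {lam})ˣ ∧ Nat.card (OO A B ⧸ Ideal.span {lam})ˣ = q - 1 := by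
  obtain ⟨hcard, hmax, -⟩ := MUXV.q_DGL A B (kx_cq h) lam q hq hlam
  have hfin : Finite (OO A B ⧸ Ideal.span {lam}) := by
    apply Nat.finite_of_card_ne_zero
    rw [hcard]
    exact hq.ne_zero
  letI := Ideal.Quotient.field (Ideal.span {lam})
  refine ⟨Field.toIsField _, hfin, inferInstance, ?_⟩
  have := Nat.card_units (OO A B ⧸ Ideal.span {lam})
  rw [this, hcard]

/-! ### Values of `Θ_a` -/

section
variable (h : CQ A B) {L : PeriodPair} {Om : ℂ} (hL : IsNL (⊤ : Ideal (OO A B)) L Om)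
  {m lam : OO A B} (hm : m ≠ 0) (hlam : lam ≠ 0) (hcop : IsCoprime m lam) (hu : ¬ IsUnit lam)
  {a : ℤ} {H : Finset ℂ} (hH : IsHalf L a H)

include h hL hm hlam hH in
/-- Galois action on a value of `Θ_a` -/
lemma kx_sigma (hTHG : Sy_THG) (T : TorX A B) [IsDomain (OO A B)] (ha : a ≠ 0) (s t : OO A B)
    (hz : emb s * (Om / emb m) + emb t * (Om / emb lam) ∉ L.lattice)
    (σ : (RF (sp (m * lam)) : IntermediateField (kk A B) ℂ) ≃ₐ[kk A B] RF (sp (m * lam)))
    {x y r : OO A B} (hx : ActH σ (m * lam) x) (hy : m ∣ x - y) (hr : lam ∣ x - r)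
    (hmem : ThetaH L H (emb s * (Om / emb m) + emb t * (Om / emb lam)) ∈
      (RF (sp (m * lam)) : IntermediateField (kk A B) ℂ)) :
    ((σ ⟨_, hmem⟩ : (RF (sp (m * lam)) : IntermediateField (kk A B) ℂ)) : ℂ) =
      ThetaH L H (emb (s * y) * (Om / emb m) + emb (t * r) * (Om / emb lam)) := by
  have hN : m * lam ≠ 0 := mul_ne_zero hm hlam
  obtain ⟨hk, hxx, hz1, -, hz2⟩ := hTHG A B h T ⊤ L Om hL (m * lam) hN a H ha hH _
    (kx_torsN h hL hm hlam s t) hz
  have e1 : ((σ ⟨_, hmem⟩ : (RF (sp (m * lam)) : IntermediateField (kk A B) ℂ)) : ℂ) =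
      ThetaH L H (emb x * (emb s * (Om / emb m) + emb t * (Om / emb lam))) := hz2 σ x hx
  rw [e1]
  refine kx_tcong hL hH ?_
  have d1 : m ∣ x * s - s * y := by
    have h2 := hy.mul_left s
    rwa [mul_sub, mul_comm s x] at h2
  have d2 : lam ∣ x * t - t * r := by
    have h2 := hr.mul_left t
    rwa [mul_sub, mul_comm t x] at h2
  have m1 := (kx_divsub h hL hm _ _).2 d1
  have m2 := (kx_divsub h hL hlam _ _).2 d2
  have := add_mem m1 m2
  convert this using 1
  rw [kx_mul h x s, kx_mul h x t]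
  ring

/-! ### The fibre product -/

include h hL hm hlam hcop hH in
lemma kx_fibre (hDIS : Sy_DIS) (T : TorX A B) (ha : a ≠ 0) (hcl : IsCoprime (a : OO A B) lam)
    (hcm : IsCoprime (a : OO A B) m) (hmu : ¬ IsUnit m)
    (hf : IsField (OO A B ⧸ Ideal.span {lam})) [Finite (OO A B ⧸ Ideal.span {lam})] :
    ∃ C ∈ (RF (⊤ : Ideal (OO A B)) : IntermediateField (kk A B) ℂ), C ≠ 0 ∧
      ∀ y : OO A B, IsCoprime y m →
      (∏ᶠ r : (OO A B ⧸ Ideal.span {lam})ˣ, ThetaH L H (emb y * (Om / emb m) +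
        emb (Quotient.out (r : OO A B ⧸ Ideal.span {lam})) * (Om / emb lam))) *
          ThetaH L H (emb y * (Om / emb m)) =
        C * ThetaH L H (emb (lam * y) * (Om / emb m)) := by
  classical
  obtain ⟨C, hC, hC0, hC2⟩ := hDIS A B h T L Om hL lam hlam a H ha hcl hH
  refine ⟨C, hC, hC0, fun y hy => ?_⟩
  set z := emb y * (Om / emb m) with hz
  have hz1 : emb lam * a * z ∉ L.lattice := by
    have e : emb lam * a * z = emb (lam * (a : OO A B) * y) * (Om / emb m) := by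
      rw [kx_mul h, kx_mul h, kx_int h, hz]; ring
    rw [e, kx_div h hL hm]
    intro hd
    have c1 : IsCoprime (lam * (a : OO A B) * y) m := (hcop.symm.mul_left hcm).mul_left hy
    exact hmu (c1.symm.isUnit_of_dvd' dvd_rfl hd)
  have e2 := hC2 z hz1
  have e3 : emb (lam * y) * (Om / emb m) = emb lam * z := by rw [kx_mul h, hz]; ring
  rw [e3, ← e2]
  have : Fintype (OO A B ⧸ Ideal.span {lam}) := Fintype.ofFinite _
  have : Fintype (OO A B ⧸ Ideal.span {lam})ˣ := Fintype.ofFinite _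
  rw [finprod_eq_prod_of_fintype, finprod_eq_prod_of_fintype]
  set F : (OO A B ⧸ Ideal.span {lam}) → ℂ := fun t =>
    ThetaH L H (z + emb (Quotient.out t) * (Om / emb lam)) with hF
  have f0 : F 0 = ThetaH L H z := by
    refine kx_tcong hL hH ?_
    rw [add_sub_cancel_left, kx_div h hL hlam]
    have : cls lam (Quotient.out (0 : OO A B ⧸ Ideal.span {lam})) = cls lam 0 := by
      rw [cls_out]; unfold cls; exact (map_zero _).symm
    rw [cls_eq_iff, sub_zero] at this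
    exact this
  have e4 : ∏ t, F t = (∏ r : (OO A B ⧸ Ideal.span {lam})ˣ, F (r : OO A B ⧸ Ideal.span {lam})) * F 0 := by
    rw [← Finset.prod_erase_mul Finset.univ F (Finset.mem_univ 0)]
    congr 1
    refine (Finset.prod_bij (fun (r : (OO A B ⧸ Ideal.span {lam})ˣ) _ =>
      (r : OO A B ⧸ Ideal.span {lam})) ?_ ?_ ?_ ?_).symm
    · intro r _
      rw [Finset.mem_erase]
      refine ⟨fun h0 => ?_, Finset.mem_univ _⟩
      obtain ⟨x, y, hxy⟩ := hf.exists_pair_ne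
      have h1 := r.mul_inv
      rw [h0, zero_mul] at h1
      exact hxy (by rw [← one_mul x, ← h1, zero_mul, ← one_mul y, ← h1, zero_mul])
    · intro r _ s _ e
      exact Units.ext e
    · intro t ht
      obtain ⟨s, hs⟩ := hf.mul_inv_cancel (Finset.ne_of_mem_erase ht)
      exact ⟨⟨t, s, hs, by rw [mul_comm]; exact hs⟩, Finset.mem_univ _, rfl⟩
    · intro r _; rfl
  rw [← f0]
  exact e4.symm

include h hL hm hlam hcop hH in
/-- the norm of `Θ_a(u + u')` is in the Hilbert class field -/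
theorem kx_norm (hACM : Sy_ACM) (hDIS : Sy_DIS) (T : TorX A B)
    (ha : a ≠ 0) (hcl : IsCoprime (a : OO A B) lam)
    (hcm : IsCoprime (a : OO A B) m) (hmu : ¬ IsUnit m)
    (hf : IsField (OO A B ⧸ Ideal.span {lam})) [Finite (OO A B ⧸ Ideal.span {lam})]
    {D : IntermediateField ℚ ℂ} (hk : kk A B ≤ D)
    [Finite (GD hk (RF (sp m) : IntermediateField (kk A B) ℂ))]
    {xs : GD hk (RF (sp m) : IntermediateField (kk A B) ℂ) → OO A B}
    (hxs : ∀ s : GD hk (RF (sp m) : IntermediateField (kk A B) ℂ),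
      ActH (s : (RF (sp m) : IntermediateField (kk A B) ℂ) ≃ₐ[kk A B] RF (sp m)) m (xs s))
    (hfrob : ∃ σ ∈ GD hk (RF (sp m) : IntermediateField (kk A B) ℂ), ActH σ m lam) :
    ∃ C ∈ (RF (⊤ : Ideal (OO A B)) : IntermediateField (kk A B) ℂ), C ≠ 0 ∧
      (∏ᶠ s : GD hk (RF (sp m) : IntermediateField (kk A B) ℂ),
      ∏ᶠ r : (OO A B ⧸ Ideal.span {lam})ˣ,
        ThetaH L H (emb (xs s) * (Om / emb m) +
        emb (Quotient.out (r : OO A B ⧸ Ideal.span {lam})) * (Om / emb lam))) = C := by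
  classical
  obtain ⟨C, hC, hC0, hfib⟩ := kx_fibre h hL hm hlam hcop hH hDIS T ha hcl hcm hmu hf
  have : Fintype (GD hk (RF (sp m) : IntermediateField (kk A B) ℂ)) := Fintype.ofFinite _
  let X := GD hk (RF (sp m) : IntermediateField (kk A B) ℂ)
  have hxs' : ∀ s : X, IsCoprime (xs s) m := fun s => (hxs s).cop
  obtain ⟨d1, d2, d3, d4, d5, d6, d7, d8⟩ := hACM A B h L Om hL m hm
  set g : X → ℂ := fun y => ThetaH L H (emb (xs y) * (Om / emb m)) with hg
  set g' : X → ℂ := fun y => ThetaH L H (emb (lam * xs y) * (Om / emb m)) with hg'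
  have hg0 : ∀ y : X, g y ≠ 0 := by
    intro y h0
    have hz : emb (xs y) * (Om / emb m) ∉ L.lattice := kx_notMem h hL hm hmu (hxs y).cop
    have h1 := (b_TNZ L a H (fun w hw => by
      have := kx_cmo h hL (a : OO A B) w hw
      rwa [kx_int h] at this) hH _ hz).1 h0
    have e : (a : ℂ) * (emb (xs y) * (Om / emb m)) =
        emb ((a : OO A B) * xs y) * (Om / emb m) := by
      rw [kx_mul h, kx_int h]; ring
    rw [e, kx_div h hL hm] at h1
    exact hmu ((hcm.mul_left (hxs y).cop).symm.isUnit_of_dvd' dvd_rfl h1)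
  -- the permutation
  have hperm : ∏ y, g' y = ∏ y, g y := by
    obtain ⟨σ, hσ, hσ1⟩ := hfrob
    let T' : X ≃ X := Equiv.mulLeft (⟨σ, hσ⟩ : X)
    rw [← Equiv.prod_comp T' g]
    refine Finset.prod_congr rfl fun y _ => ?_
    have a1 : ActH ((T' y : X) : (RF (sp m) : IntermediateField (kk A B) ℂ) ≃ₐ[kk A B] RF (sp m)) m
        (lam * xs y) := d4 _ _ _ _ _ le_rfl hσ1 (hxs y)
    have hev := (b_TIN L a H H hH hH).2.1
    rcases d1 _ _ _ _ le_rfl a1 (hxs (T' y)) with e | e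
    · refine kx_tcong hL hH ?_
      rwa [kx_divsub h hL hm]
    · show ThetaH L H _ = ThetaH L H _
      rw [← hev (emb (xs (T' y)) * (Om / emb m)), ← neg_mul, ← kx_neg h]
      refine kx_tcong hL hH ?_
      rw [kx_divsub h hL hm, sub_neg_eq_add]
      exact e
  set f : X → ℂ := fun y => ∏ᶠ r : (OO A B ⧸ Ideal.span {lam})ˣ,
        ThetaH L H (emb (xs y) * (Om / emb m) +
        emb (Quotient.out (r : OO A B ⧸ Ideal.span {lam})) * (Om / emb lam)) with hfd
  have e1 : (∏ y, f y) * ∏ y, g y = C ^ Fintype.card X * ∏ y, g' y := by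
    rw [← Finset.prod_mul_distrib, ← Finset.card_univ, ← Finset.prod_const,
      ← Finset.prod_mul_distrib]
    exact Finset.prod_congr rfl fun y _ => hfib _ (hxs y).cop
  rw [hperm] at e1
  have e2 := mul_right_cancel₀ (Finset.prod_ne_zero_iff.2 fun y _ => hg0 y) e1
  refine ⟨C ^ Fintype.card X, pow_mem hC _, pow_ne_zero _ hC0, ?_⟩
  rw [finprod_eq_prod_of_fintype]
  exact e2

end

end

end Pool.Agent.MUXW
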