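import Pool.Agent.MUX.XK2
import Pool.Agent.MU3.WK6

/-!
# MUX, block W, for (KOL): local facts at the places of good reduction (helper59)
-/

set_option autoImplicit false

open WeierstrassCurve Polynomial NumberField IsDedekindDomain

namespace Pool.Agent.MUXW

open _root_.MU3 Pool.Agent.MU3A Pool.Agent.MU3B Pool.Agent.MU3C Pool.Agent.RI
open Pool.Agent.MUX Pool.Agent.MUXU
open Pool.Agent.MU3V (cls Sub GD)
open Pool.Agent.MUXV (GR InK tX CMO Ovr)

noncomputable section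

variable {A B : ℤ}

/-- the coordinate `℘ - 1/12` -/
abbrev kX (L : PeriodPair) : ℂ → ℂ := fun z => L.weierstrassP z - 1 / 12

section
variable (h : CQ A B) {L : PeriodPair} {Om : ℂ} (hL : IsNL (⊤ : Ideal (OO A B)) L Om)
  {V : ValuationSubring ℂ} (hG : GRn V L) {m lam : OO A B} {q : ℕ} (hq : q.Prime) (hq2 : q ≠ 2)
  (hqD : ¬ (q : ℤ) ∣ B ^ 2 + 4 * A) (hnm : nm lam = q)

include h in
lemma kx_vle (V : ValuationSubring ℂ) (x : OO A B) : V.valuation (emb x) ≤ 1 :=
  (MUXV.q_VQI A B (kx_cq h) V).1 x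

include h hq hnm in
lemma kx_int1 (vl : V.valuation (emb lam) < 1) : V.valuation (q : ℂ) < 1 ∧
    (∀ s : ℤ, ¬ (q : ℤ) ∣ s → V.valuation (s : ℂ) = 1) ∧
    ∀ x : OO A B, ¬ lam ∣ x → V.valuation (emb x) = 1 := by
  have hO : Ovr (Ideal.span {lam}) V := by
    intro x hx
    obtain ⟨y, rfl⟩ := Ideal.mem_span_singleton.1 hx
    rw [kx_mul h, map_mul]
    exact mul_lt_one_of_lt_of_le vl (kx_vle h V y)
  obtain ⟨h1, h2, h3⟩ := (MUXV.q_VQI A B (kx_cq h) V).2 (Ideal.span {lam}) q hq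
    (MUXV.q_DGL A B (kx_cq h) lam q hq hnm).1 hO
  exact ⟨h1, h2, fun x hx => h3 x fun hx' => hx (Ideal.mem_span_singleton.1 hx')⟩

include h hL hG hq hq2 hqD hnm in
lemma kx_isoV (hlam : lam ≠ 0) :
    ∃ H : Finset ℂ, MUXV.IsoV V L L (1 / 12) (1 / 12) (emb lam) q H := by
  refine (MUXV.q_ISQ A B (kx_cq h) (Ideal.span {lam}) q hq hq2 hqD
    (MUXV.q_DGL A B (kx_cq h) lam q hq hnm).1 L L (1 / 12) (1 / 12) (emb lam) (kx_cmo h hL)
    ⟨kx_ne h hlam, ?_⟩ V hG hG).1
  intro z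
  constructor
  · intro hz x hx
    obtain ⟨y, rfl⟩ := Ideal.mem_span_singleton.1 hx
    rw [mul_comm lam y, kx_mul h, mul_assoc]
    exact kx_cmo h hL y _ hz
  · intro hz
    exact hz lam (Ideal.mem_span_singleton_self lam)

include h hL hG hq hq2 hqD hnm in
lemma kx_ker (hlam : lam ≠ 0) (vl : V.valuation (emb lam) < 1) {z : ℂ}
    (hz : emb lam * z ∈ L.lattice) : InK V L (kX L) z := by
  obtain ⟨H, hI⟩ := kx_isoV h hL hG hq hq2 hqD hnm hlam
  exact MUXV.x_R2 V L L _ _ _ q H hI vl z hz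

include h hL hG in
lemma kx_tor (vm : V.valuation ((nm m : ℤ) : ℂ) = 1) {z : ℂ} (hz : emb m * z ∈ L.lattice)
    (hz' : InK V L (kX L) z) : z ∈ L.lattice := by
  obtain ⟨W, ξ, G⟩ := hG
  exact MUXV.q_TOR A B (kx_cq h) V W L _ _ ξ G (kx_cmo h hL) m vm z hz hz'

include h hL hG hq hq2 hqD hnm in
/-- `E[m lam]` meets the kernel of reduction trivially where `lam` is a unit -/
lemma kx_torN (hlam : lam ≠ 0) (vm : V.valuation ((nm m : ℤ) : ℂ) = 1)
    (vl : V.valuation (emb lam) = 1) {z : ℂ} (hz : emb (m * lam) * z ∈ L.lattice)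
    (hz' : InK V L (kX L) z) : z ∈ L.lattice := by
  obtain ⟨H, hI⟩ := kx_isoV h hL hG hq hq2 hqD hnm hlam
  obtain ⟨W, ξ, G⟩ := hG
  obtain ⟨n, hn⟩ := Int.eq_ofNat_of_zero_le (kx_nnn h m)
  have vn : V.valuation (n : ℂ) = 1 := by rw [hn] at vm; simpa using vm
  have h1 : emb lam * ((n : ℂ) * z) ∈ L.lattice := by
    have e := congrArg emb (kx_star h m)
    rw [kx_mul h, kx_int h, hn, Int.cast_natCast] at e
    have e2 : emb lam * ((n : ℂ) * z) = emb (star m) * (emb (m * lam) * z) := by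
      rw [kx_mul h, ← e]; ring
    rw [e2]
    exact kx_cmo h hL _ _ hz
  have h2 := MUXV.x_INJ V L L _ _ _ q H hI vl _ h1 (MUXV.inK_nat G hz' n)
  exact MUXV.mem_of_nat_mul G hz' vn h2

include h hL hG hq hq2 hqD hnm in
/-- `Θ_a(u + u')` is a unit -/
lemma kx_unit (hm : m ≠ 0) (hlam : lam ≠ 0) (hcop : IsCoprime m lam) (hu : ¬ IsUnit lam)
    (hmu : ¬ IsUnit m) (vm : V.valuation ((nm m : ℤ) : ℂ) = 1) {a : ℤ} {H : Finset ℂ}
    (hH : IsHalf L a H) (va : V.valuation (a : ℂ) = 1) (hcm : IsCoprime (a : OO A B) m)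
    (hcl : IsCoprime (a : OO A B) lam) :
    V.valuation (ThetaH L H (emb (1 : OO A B) * (Om / emb m) +
      emb (1 : OO A B) * (Om / emb lam))) = 1 := by
  obtain ⟨W, ξ, G⟩ := id hG
  refine (MUXV.q_THU V L (1 / 12) W ξ G a H va hH).1 _ fun hE => ?_
  have e : (a : ℂ) * (emb (1 : OO A B) * (Om / emb m) + emb (1 : OO A B) * (Om / emb lam)) =
      emb (a : OO A B) * (Om / emb m) + emb (a : OO A B) * (Om / emb lam) := by
    rw [kx_one h, kx_int h]; ring
  rcases (kx_vle h V lam).lt_or_eq with vl | vl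
  · have h1 := kx_ker h hL hG hq hq2 hqD hnm hlam vl (kx_tors h hL hlam (a : OO A B))
    rw [e] at hE
    have h2 := MUXV.inK_sub G hE h1
    rw [add_sub_cancel_right] at h2
    exact kx_notMem h hL hm hmu hcm (kx_tor h hL hG vm (kx_tors h hL hm _) h2)
  · rw [e] at hE
    exact kx_notMem2 h hL hm hlam hcop hu _ _ hcl
      (kx_torN h hL hG hq hq2 hqD hnm hlam vm vl (kx_torsN h hL hm hlam _ _) hE)

include h hL hG hq hq2 hqD hnm in
/-- the congruence at the places above `lam` -/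
lemma kx_cong (hm : m ≠ 0) (hlam : lam ≠ 0)
    (hmu : ¬ IsUnit m) (vm : V.valuation ((nm m : ℤ) : ℂ) = 1) {a : ℤ} {H : Finset ℂ}
    (hH : IsHalf L a H) (va : V.valuation (a : ℂ) = 1) (vl : V.valuation (emb lam) < 1)
    {y r : OO A B} (hy : IsCoprime y m) :
    V.valuation (ThetaH L H (emb y * (Om / emb m))) ≤ 1 ∧
      V.valuation (ThetaH L H (emb y * (Om / emb m) + emb r * (Om / emb lam)) -
        ThetaH L H (emb y * (Om / emb m))) < 1 := by
  obtain ⟨W, ξ, G⟩ := id hG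
  refine (MUXV.q_THU V L (1 / 12) W ξ G a H va hH).2 _ _ (fun hE => ?_)
    (kx_ker h hL hG hq hq2 hqD hnm hlam vl (kx_tors h hL hlam _))
  exact kx_notMem h hL hm hmu hy (kx_tor h hL hG vm (kx_tors h hL hm _) hE)

include h hL hG hq hq2 hqD hnm in
/-- the element `x(u + u') - x(u)` at the places above `lam` -/
lemma kx_tra (hm : m ≠ 0) (hlam : lam ≠ 0) (hu : ¬ IsUnit lam)
    (hm2 : ¬ m ∣ 2) (vm : V.valuation ((nm m : ℤ) : ℂ) = 1) (vl : V.valuation (emb lam) < 1) :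
    V.valuation (xn L (Om / emb m + Om / emb lam) - xn L (Om / emb m)) ^ (q - 1) =
      V.valuation (emb lam) := by
  obtain ⟨H, hI⟩ := kx_isoV h hL hG hq hq2 hqD hnm hlam
  obtain ⟨W, ξ, G⟩ := id hG
  have e1 : ∀ {n : OO A B}, emb (1 : OO A B) * (Om / emb n) = Om / emb n := by
    intro n; rw [kx_one h, one_mul]
  have hul : Om / emb lam ∉ L.lattice := by
    have := kx_notMem h hL hlam hu (isCoprime_one_left (x := lam))
    rwa [e1] at this
  have hkl : emb lam * (Om / emb lam) ∈ L.lattice := by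
    have := kx_tors h hL hlam (1 : OO A B)
    rwa [e1] at this
  have hkm : emb m * (Om / emb m) ∈ L.lattice := by
    have := kx_tors h hL hm (1 : OO A B)
    rwa [e1] at this
  have hin := kx_ker h hL hG hq hq2 hqD hnm hlam vl hkl
  have h1 : ¬ InK V L (kX L) (Om / emb m) := by
    intro hE
    have h3 := kx_tor h hL hG vm hkm hE
    apply hm2
    have h4 : emb (2 : OO A B) * (Om / emb m) ∈ L.lattice := kx_cmo h hL 2 _ h3
    exact (kx_div h hL hm 2).1 h4
  have h2 : ¬ InK V L (kX L) (2 * (Om / emb m)) := by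
    intro hE
    have e2 : emb (2 : OO A B) = 2 := by
      have := kx_int h 2
      simpa using this
    have h3 := kx_tor h hL hG vm (by
      rw [mul_left_comm]
      have := kx_cmo h hL 2 _ hkm
      rwa [e2] at this) hE
    apply hm2
    rw [← kx_div h hL hm 2, e2]
    exact h3
  obtain ⟨-, h3⟩ := MUXV.q_YUN V W L _ _ ξ G _ h1 h2
  have h4 := h3 _ hin hul
  have h5 := MUXV.x_TRA V L L _ _ _ q H hI (kx_int1 h hq hnm vl).1 vl _ hkl hul
  obtain ⟨-, h6, h7⟩ := MUXV.v_tX_lt G hin hul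
  have h8 : V.valuation (xn L (Om / emb m + Om / emb lam) - xn L (Om / emb m)) =
      V.valuation (tX (kX L) (fun z => L.derivWeierstrassP z / 2) (Om / emb lam)) := h4
  rw [h8]
  set t := V.valuation (tX (kX L) (fun z => L.derivWeierstrassP z / 2) (Om / emb lam)) with ht
  set x := V.valuation (kX L (Om / emb lam)) with hx
  have hodd : q - 1 = 2 * ((q - 1) / 2) := by
    obtain ⟨j, hj⟩ := hq.odd_of_ne_two hq2
    omega
  have h9 : V.valuation (emb lam) * x ^ ((q - 1) / 2) = 1 := h5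
  have h10 : x * t ^ 2 = 1 := h7
  have hx0 : x ^ ((q - 1) / 2) ≠ 0 := right_ne_zero_of_mul_eq_one h9
  have h11 : t ^ (q - 1) * x ^ ((q - 1) / 2) = 1 := by
    conv_lhs => rw [hodd]
    rw [show 2 * ((q - 1) / 2) = 2 * ((q - 1) / 2) from rfl, pow_mul]
    have : (2 * ((q - 1) / 2)) / 2 = (q - 1) / 2 := by omega
    rw [this, ← mul_pow, mul_comm, h10, one_pow]
  exact mul_right_cancel₀ hx0 (h11.trans h9.symm)

end

end

end Pool.Agent.MUXW
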