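import Pool.Agent.MUX.StXT

/-!
# MUX, block XT, module EXP (helper83): expansion of the theta series of a form at all cusps
-/

set_option autoImplicit false

namespace Pool.Agent.MUXT

open _root_.MU3 Pool.Agent.MUX Pool.Agent.MuSym OnePoint Filter Topology
open Pool.Agent.MU3T (Su_MBF Su_MCO)
open Pool.Agent.MU3F (ex)
open scoped ComplexConjugate

noncomputable section

namespace ExpXT

/-- the theta series of an integral form has period 1 -/
theorem Th_add_int (F : QF) (W : Z2 → ℂ) (n : ℤ) (z : ℂ) : Th F W (z + n) = Th F W z := by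
  unfold Th tm
  congr 1
  refine tsum_congr fun x => ?_
  congr 1
  rw [mul_add, Complex.exp_add]
  have h1 : 2 * Real.pi * Complex.I * (F.ev x : ℂ) * (n : ℂ) =
      ((F.ev x * n : ℤ) : ℂ) * (2 * Real.pi * Complex.I) := by
    push_cast
    ring
  rw [h1, Complex.exp_int_mul_two_pi_mul_I, mul_one]

/-- the case `c = 0` -/
theorem exp_zero (F : QF) (W : Z2 → ℂ) (hW : Bd W) (G : ℕ) (a b d : ℤ) (had : a * d = 1) :
    ∃ (M : ℕ) (W' : Z2 → ℂ), 0 < M ∧ (M : ℤ) ∣ F.D * G ^ 2 ∧ Bd W' ∧ ∀ z : ℂ, 0 < z.im →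
      Th F W (((a : ℂ) * z + b) / (((0 : ℤ) : ℂ) * z + d)) =
        (((0 : ℤ) : ℂ) * z + d) ^ 2 * ∑' y, tm F W' (z / M) y := by
  obtain ⟨C, hC⟩ := hW
  have hmain : ∀ z : ℂ, ∑' y, tm F (fun x => 1 / 2 * W x) (z / ((1 : ℕ) : ℂ)) y = Th F W z := by
    intro z
    unfold Th tm
    rw [← tsum_mul_left]
    refine tsum_congr fun y => ?_
    rw [Nat.cast_one, div_one]
    ring
  refine ⟨1, fun x => 1 / 2 * W x, one_pos, by simp, ⟨1 / 2 * C, fun x => ?_⟩, fun z hz => ?_⟩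
  · rw [norm_mul]
    have h1 : ‖(1 / 2 : ℂ)‖ = 1 / 2 := by norm_num
    rw [h1]
    have := hC x
    linarith
  · rw [hmain]
    rcases Int.eq_one_or_neg_one_of_mul_eq_one' had with ⟨rfl, rfl⟩ | ⟨rfl, rfl⟩
    · have h1 : (((1 : ℤ) : ℂ) * z + b) / (((0 : ℤ) : ℂ) * z + ((1 : ℤ) : ℂ)) = z + b := by
        push_cast
        ring
      rw [h1, Th_add_int]
      push_cast
      ring
    · have h1 : (((-1 : ℤ) : ℂ) * z + b) / (((0 : ℤ) : ℂ) * z + ((-1 : ℤ) : ℂ)) =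
          z + ((-b : ℤ) : ℂ) := by
        push_cast
        ring
      rw [h1, Th_add_int]
      push_cast
      ring

/-- the case `c > 0` -/
theorem exp_pos (hRED : Xs_RED) (hWBD : Xs_WBD) (hMBF : Su_MBF) (F : QF) (hF : F.Pos)
    (W : Z2 → ℂ) (G : ℕ) (hG : 0 < G) (hW : Per G W)
    (a b d : ℤ) (q : ℕ) (hq : 0 < q) (hdet : a * d - b * q = 1) :
    ∃ (M : ℕ) (W' : Z2 → ℂ), 0 < M ∧ (M : ℤ) ∣ F.D * G ^ 2 ∧ Bd W' ∧ ∀ z : ℂ, 0 < z.im →
      Th F W (((a : ℂ) * z + b) / (((q : ℤ) : ℂ) * z + d)) =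
        (((q : ℤ) : ℂ) * z + d) ^ 2 * ∑' y, tm F W' (z / M) y := by
  have hD := hF.D_pos
  set Dn : ℕ := F.D.toNat with hDn
  have hDn1 : (Dn : ℤ) = F.D := Int.toNat_of_nonneg hD.le
  have hDn0 : 0 < Dn := by
    have : (0 : ℤ) < (Dn : ℤ) := by rw [hDn1]; exact hD
    exact_mod_cast this
  have hDc : ((F.D : ℤ) : ℂ) = (Dn : ℂ) := by rw [← hDn1]; push_cast; rfl
  obtain ⟨C, hC⟩ := hWBD.2 F W G q a (hWBD.1 G W hG hW)
  have hC0 : 0 ≤ C := (norm_nonneg _).trans (hC 0)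
  have hqC : (q : ℂ) ≠ 0 := by exact_mod_cast hq.ne'
  have hGC : (G : ℂ) ≠ 0 := by exact_mod_cast hG.ne'
  have hDC : (Dn : ℂ) ≠ 0 := by exact_mod_cast hDn0.ne'
  refine ⟨Dn * G ^ 2, fun y => 1 / (2 * q * G ^ 3 * Dn) *
    (WW F W G q a y * Complex.exp (2 * Real.pi * Complex.I * (F.ev y : ℂ) *
      ((d : ℂ) / (q * (Dn * G ^ 2))))), by positivity, ?_, ?_, ?_⟩
  · push_cast
    rw [hDn1]
  · refine ⟨‖(1 / (2 * q * G ^ 3 * Dn) : ℂ)‖ * C, fun y => ?_⟩
    rw [norm_mul, norm_mul]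
    have h1 : ‖Complex.exp (2 * Real.pi * Complex.I * (F.ev y : ℂ) *
        ((d : ℂ) / (q * (Dn * G ^ 2))))‖ = 1 := by
      have h2 : 2 * Real.pi * Complex.I * (F.ev y : ℂ) * ((d : ℂ) / (q * (Dn * G ^ 2))) =
          ((2 * Real.pi * (F.ev y : ℝ) * ((d : ℝ) / (q * (Dn * G ^ 2))) : ℝ) : ℂ) *
            Complex.I := by
        push_cast
        ring
      rw [h2, Complex.norm_exp_ofReal_mul_I]
    rw [h1, mul_one]
    exact mul_le_mul_of_nonneg_left (hC y) (norm_nonneg _)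
  · intro z hz
    obtain ⟨hne, him, -⟩ := hMBF a b q d (by exact_mod_cast hdet) z hz
    have hne' : (q : ℂ) * z + d ≠ 0 := by simpa using hne
    set ζ : ℂ := -1 / (q * (q * z + d)) with hζ
    have hdetC : (a : ℂ) * d - b * q = 1 := by exact_mod_cast hdet
    have hγ : ((a : ℂ) * z + b) / (((q : ℤ) : ℂ) * z + d) = (((a / q : ℚ) : ℚ) : ℂ) + ζ := by
      rw [hζ]
      push_cast
      rw [div_add_div _ _ hqC (mul_ne_zero hqC hne'),
        div_eq_div_iff hne' (mul_ne_zero hqC (mul_ne_zero hqC hne'))]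
      linear_combination (-(q : ℂ) * (q * z + d)) * hdetC
    have hζim : 0 < ζ.im := by
      have h1 : ζ = ((a : ℂ) * z + b) / (((q : ℤ) : ℂ) * z + d) - (((a / q : ℚ) : ℚ) : ℂ) := by
        rw [hγ]; ring
      rw [h1, Complex.sub_im, Complex.ratCast_im, sub_zero]
      exact him
    rw [hγ, hRED F hF W G q hG hq hW a ζ hζim]
    have h2 : 1 / (2 * ((q : ℂ) * G) ^ 3 * (F.D : ℂ) * ζ ^ 2) =
        (((q : ℤ) : ℂ) * z + d) ^ 2 * (1 / (2 * q * G ^ 3 * Dn)) := by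
      rw [hζ, hDc]
      push_cast
      field_simp
    have h3 : -1 / (((q : ℂ) * G) ^ 2 * (F.D : ℂ) * ζ) =
        z / ((Dn * G ^ 2 : ℕ) : ℂ) + (d : ℂ) / (q * (Dn * G ^ 2)) := by
      rw [hζ, hDc]
      push_cast
      field_simp
    rw [h2, h3, mul_assoc]
    congr 1
    rw [← tsum_mul_left]
    refine tsum_congr fun y => ?_
    unfold tm
    rw [mul_add, Complex.exp_add]
    ring

end ExpXT

open ExpXT in
theorem tx_EXP (hWBD : Xs_WBD) (hRED : Xs_RED) (hMBF : Su_MBF) : Xs_EXP := by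
  intro F hF W G hG hW a b c d hdet
  rcases lt_trichotomy c 0 with hc | rfl | hc
  · obtain ⟨q, hq⟩ := Int.eq_ofNat_of_zero_le (show 0 ≤ -c by omega)
    have hq0 : 0 < q := by
      have : (0 : ℤ) < q := by rw [← hq]; omega
      exact_mod_cast this
    obtain ⟨M, W', hM, hMN, hW', hz⟩ := exp_pos hRED hWBD hMBF F hF W G hG hW (-a) (-b) (-d) q
      hq0 (by rw [← hq]; linarith)
    refine ⟨M, W', hM, hMN, hW', fun z him => ?_⟩
    have h1 := hz z him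
    rw [← hq] at h1
    have h2 : (((-a : ℤ) : ℂ) * z + ((-b : ℤ) : ℂ)) / (((-c : ℤ) : ℂ) * z + ((-d : ℤ) : ℂ)) =
        ((a : ℂ) * z + b) / ((c : ℂ) * z + d) := by
      rw [← neg_div_neg_eq]
      push_cast
      congr 1 <;> ring
    rw [h2] at h1
    rw [h1]
    push_cast
    ring
  · exact exp_zero F W (hWBD.1 G W hG hW) G a b d (by linarith)
  · obtain ⟨q, hq⟩ := Int.eq_ofNat_of_zero_le hc.le
    have hq0 : 0 < q := by
      have : (0 : ℤ) < q := by rw [← hq]; omega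
      exact_mod_cast this
    subst hq
    exact exp_pos hRED hWBD hMBF F hF W G hG hW a b d q hq0 hdet

end

end Pool.Agent.MUXT
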