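import Pool.Agent.MUX.YRAll
import Pool.Agent.MUX.StHX2

/-!
# MUX: the input `Sy_RAT` of block H from section 9 (helper41)
-/

set_option autoImplicit false

namespace Pool.Agent.MUXY

open _root_.MU3 Pool.Agent.MU3A
open Pool.Agent.MUX (CQ TorX)

theorem rat_of (hq : Sy_ALQ) (hT : ∀ A B : ℤ, CQ A B → TorX A B) : Pool.Agent.MUXHY.Sy_RAT :=
  fun A B hc b L om hL => hq A B hc (hT A B hc) b L om hL

theorem y_RATH (hT : ∀ A B : ℤ, CQ A B → TorX A B) : Pool.Agent.MUXHY.Sy_RAT := rat_of y_ALQ hT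

end Pool.Agent.MUXY
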