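import Pool.Agent.MUX.YGlue
import Pool.Agent.MUX.XCAll

/-!
# MUX: the input `Sy_RAT` of block H, without hypotheses (helper41)
-/

set_option autoImplicit false

namespace Pool.Agent.MUXY

theorem y_RATX : Pool.Agent.MUXHY.Sy_RAT := y_RATH Pool.Agent.MUXC.c_TOR

end Pool.Agent.MUXY
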