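import Pool.Agent.MUX.StYR

/-!
# MUX, module FCL (helper4): finitely many ideal classes
-/

set_option autoImplicit false

namespace Pool.Agent.MUXY

open _root_.MU3 Pool.Agent.MU3A Pool.Agent.MU3B Pool.Agent.MUXU OnePoint
open Pool.Agent.MUX (CQ CaseP nI cjI sp IsLI IsNL IsEI PhiI Reps TorX)
open Pool.Agent.MUXF (qb)

noncomputable section

namespace RFCL

variable {A B : ℤ}

lemma natCast_ne {n : ℕ} (hn : n ≠ 0) : ((n : ℕ) : OO A B) ≠ 0 := by
  intro h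
  have h1 := congrArg QuadraticAlgebra.re h
  simp only [QuadraticAlgebra.re_natCast, QuadraticAlgebra.re_zero] at h1
  exact hn (by exact_mod_cast h1)

/-- the ideals which contain a nonzero element are finitely many -/
lemma finite_ge (I : Ideal (OO A B)) (hI : Finite (OO A B ⧸ I)) :
    {d : Ideal (OO A B) | I ≤ d}.Finite := by
  have h1 : Finite (Ideal (OO A B ⧸ I)) :=
    Finite.of_injective (fun J : Ideal (OO A B ⧸ I) => (J : Set (OO A B ⧸ I)))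
      SetLike.coe_injective
  refine (Set.finite_range (Ideal.comap (Ideal.Quotient.mk I))).subset fun d hd => ?_
  exact ⟨d.map (Ideal.Quotient.mk I), Ideal.comap_map_mk hd⟩

lemma finite_le (hc : CQ A B) (C : ℕ) :
    {d : Ideal (OO A B) | d ≠ ⊥ ∧ nI d ≤ C}.Finite := by
  obtain ⟨-, -, -, hfin, -⟩ := Pool.Agent.MUXF.xf_ALG A B (cqF hc)
  obtain ⟨-, -, hmem, -⟩ := Pool.Agent.MUXF.xf_NIM A B (cqF hc)
  have hM : ((C.factorial : ℕ) : OO A B) ≠ 0 := natCast_ne (Nat.factorial_ne_zero C)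
  have hI : (sp ((C.factorial : ℕ) : OO A B) : Ideal (OO A B)) ≠ ⊥ := by
    rw [Ne, Ideal.span_singleton_eq_bot]
    exact hM
  refine (finite_ge _ (hfin _ hI)).subset ?_
  rintro d ⟨hd, hdC⟩
  have h1 : ((nI d : ℕ) : OO A B) ∈ d := (hmem d hd).2.2.2
  have h0 : nI d ≠ 0 := (Pool.Agent.MUXF.xf_IDL A B (cqF hc) d hd).1
  obtain ⟨k, hk⟩ := Nat.dvd_factorial (Nat.pos_of_ne_zero h0) hdC
  show sp ((C.factorial : ℕ) : OO A B) ≤ d
  rw [Ideal.span_singleton_le_iff_mem, hk, Nat.cast_mul]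
  exact d.mul_mem_right _ h1

end RFCL

open RFCL in
theorem ty_FCL (h1 : Sy_SML) (h2 : Sy_DVI) : Sy_FCL := by
  classical
  intro A B hc
  obtain ⟨C, hC⟩ : ∃ C : ℕ, (C : ℤ) = 1 + |A| + |B| :=
    ⟨(1 + |A| + |B|).toNat, Int.toNat_of_nonneg (by positivity)⟩
  have hfin := finite_le hc C
  refine ⟨hfin.toFinset, fun c hcF => ((Set.Finite.mem_toFinset _).1 hcF).1, fun b hb => ?_⟩
  obtain ⟨x, hxb, hx0, hxn⟩ := h1 A B hc b hb
  obtain ⟨-, -, hnim, -⟩ := Pool.Agent.MUXF.xf_NIM A B (cqF hc)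
  obtain ⟨hcb, hcc, hcb0, -⟩ := hnim b hb
  have hidb := Pool.Agent.MUXF.xf_IDL A B (cqF hc) b hb
  have hcb' : nI (cjI b) = nI b := hcb
  have hcc' : cjI (cjI b) = b := hcc
  obtain ⟨c, hc0, hce, hcn⟩ := h2 A B hc (cjI b) x hcb0 (by rw [hcc']; exact hxb) hx0
  rw [hcb'] at hce
  rw [hcc'] at hcn
  have hq := ((Pool.Agent.MUXF.xf_QB A B (cqF hc) b hb).1 x hxb).1
  have hn0 : nI b ≠ 0 := hidb.1
  have hidb2 : b * cjI b = sp ((nI b : ℕ) : OO A B) := hidb.2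
  have hidc := Pool.Agent.MUXF.xf_IDL A B (cqF hc) c hc0
  have hcn0 : nI c ≠ 0 := hidc.1
  have hidc2 : c * cjI c = sp ((nI c : ℕ) : OO A B) := hidc.2
  obtain ⟨hdn, -, hd0, -⟩ := hnim c hc0
  have hdn' : nI (cjI c) = nI c := hdn
  have hle : nI c ≤ C := by
    have e1 : (nI b : ℤ) * (nI c : ℤ) ≤ (C : ℤ) * nI b := by
      rw [hcn, hC]
      have e2 : (nI b : ℤ) * qb b x = nm x := hq.symm
      rw [e2]
      exact hxn
    have e3 : (0 : ℤ) < nI b := by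
      have := Nat.pos_of_ne_zero hn0
      exact_mod_cast this
    have e4 : (nI c : ℤ) ≤ C := by
      rw [mul_comm] at e1
      exact le_of_mul_le_mul_right e1 e3
    exact_mod_cast e4
  refine ⟨cjI c, ?_, ((nI b : ℕ) : OO A B) * ((nI c : ℕ) : OO A B), x * ((nI b : ℕ) : OO A B),
    ?_, ?_, ?_⟩
  · rw [Set.Finite.mem_toFinset]
    exact ⟨hd0, by rw [hdn']; exact hle⟩
  · obtain ⟨-, -, -, -, hdom⟩ := Pool.Agent.MUXF.xf_ALG A B (cqF hc)
    exact mul_ne_zero (natCast_ne hn0) (natCast_ne hcn0)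
  · obtain ⟨-, -, -, -, hdom⟩ := Pool.Agent.MUXF.xf_ALG A B (cqF hc)
    exact mul_ne_zero hx0 (natCast_ne hn0)
  · show sp (((nI b : ℕ) : OO A B) * ((nI c : ℕ) : OO A B)) * b =
      sp (x * ((nI b : ℕ) : OO A B)) * cjI c
    have e0 : ∀ u v : OO A B, sp (u * v) = sp u * sp v := fun u v =>
      (Ideal.span_singleton_mul_span_singleton u v).symm
    rw [e0, e0, ← hidc2]
    have e1 : sp ((nI b : ℕ) : OO A B) * (c * cjI c) * b =
        (sp ((nI b : ℕ) : OO A B) * c) * cjI c * b := by ring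
    rw [e1, hce, ← hidb2]
    ring

end

end Pool.Agent.MUXY
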