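import Pool.Agent.MUX.YAll
import Pool.Agent.MUX.Y_MLR
import Pool.Agent.MUX.Y_NZL
import Pool.Agent.MUX.Y_NLE
import Pool.Agent.MUX.Y_NLD
import Pool.Agent.MUX.Y_CPD
import Pool.Agent.MUX.Y_SML
import Pool.Agent.MUX.Y_DVI
import Pool.Agent.MUX.Y_FCL
import Pool.Agent.MUX.Y_QPR
import Pool.Agent.MUX.Y_QCO
import Pool.Agent.MUX.Y_CLN
import Pool.Agent.MUX.Y_REX
import Pool.Agent.MUX.Y_LAF
import Pool.Agent.MUX.Y_EI0
import Pool.Agent.MUX.Y_TRN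
import Pool.Agent.MUX.Y_ALQ

/-!
# MUX: representatives, `LatFacts`, algebraicity: all statements of `StYR.lean`, without hypotheses (helper41)
-/

set_option autoImplicit false

namespace Pool.Agent.MUXY

theorem y_MLR : Sy_MLR := ty_MLR
theorem y_NZL : Sy_NZL := ty_NZL y_MLR
theorem y_NLE : Sy_NLE := ty_NLE y_NZL
theorem y_NLD : Sy_NLD := ty_NLD
theorem y_CPD : Sy_CPD := ty_CPD
theorem y_SML : Sy_SML := ty_SML
theorem y_DVI : Sy_DVI := ty_DVI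
theorem y_FCL : Sy_FCL := ty_FCL y_SML y_DVI
theorem y_QPR : Sy_QPR := ty_QPR
theorem y_QCO : Sy_QCO := ty_QCO y_QPR
theorem y_CLN : Sy_CLN := ty_CLN y_DVI y_QCO
theorem y_REX : Sy_REX := ty_REX y_NLE y_FCL y_CLN
theorem y_LAF : Sy_LAF := ty_LAF y_NLE y_SAM y_FCL
theorem y_EI0 : Sy_EI0 := ty_EI0
theorem y_TRN : Sy_TRN := ty_TRN
theorem y_ALQ : Sy_ALQ := ty_ALQ y_NLD y_REX y_LAF y_EI0 y_TRN y_COP y_ALM y_ALP

end Pool.Agent.MUXY
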