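import Pool.Agent.NS.Y_Key0

/-! Alias of `Pool.Agent.NSY.key0` (the files of KEY0 are in `Pool/Agent/NS`). -/

set_option autoImplicit false

namespace Pool.Agent.MUXY

open OnePoint Pool.Agent.MuSym

/-- The key lemma KEY0. -/
theorem key0 {M : Type} [AddCommGroup M] {p N r n0 : ℕ} {Φ : OnePoint ℚ → OnePoint ℚ → M}
    (hp : p.Prime) (hp2 : p ≠ 2) (hN : 1 < N) (hpN : p.Coprime N) (hr : 1 ≤ r)
    (tor : ∀ q : ℕ, q.Coprime p → ∀ m : M, q • m = 0 → m = 0)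
    (add : ∀ x y z, Φ x y + Φ y z = Φ x z)
    (inv : ∀ a b c d : ℤ, a * d - b * c = 1 → ((p : ℤ) ^ r * N) ∣ c →
      ((p : ℤ) ^ r * N) ∣ d - 1 → ∀ x y, Φ (mob a b c d x) (mob a b c d y) = Φ x y)
    (A : ∀ a b c d : ℤ, ∀ n ≥ n0, c ≠ 0 → d ≠ 0 → IsCoprime a c → IsCoprime b d →
      ((p : ℤ) ^ r * N) ∣ c → a * d - b * c = (p : ℤ) ^ n →
      Φ (((a : ℚ) / c : ℚ) : OnePoint ℚ) (((b : ℚ) / d : ℚ) : OnePoint ℚ) = 0)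
    (A0 : ∀ b : ℤ, ∀ n ≥ n0, ¬ (p : ℤ) ∣ b → Φ ∞ (((b : ℚ) / p ^ n : ℚ) : OnePoint ℚ) = 0)
    (a b c d : ℤ) (hdet : a * d - b * c = 1) (hc : (p : ℤ) ^ r * N ∣ c)
    (hd : (p : ℤ) ^ r * N ∣ d - 1) (x : OnePoint ℚ) : Φ x (mob a b c d x) = 0 :=
  NSY.key0 hp hp2 hN hpN hr tor add inv A A0 a b c d hdet hc hd x

end Pool.Agent.MUXY
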