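import Mathlib
import Pool.Agent.RI.Defs
import Pool.Agent.MU3.ZDefs

/-!
# MUX: definitions for the main theorem (helper3)

`k = ℚ(√-d)`, `d` squarefree, `d ≠ 1, 3`. A lattice `L` in `ℂ` (`PeriodPair` of Mathlib) has complex multiplication by the
ring of integers `ℤ[w]` of `k` if `w L ⊆ L`. `weberField d` is generated over `k` by the numbers
`j(L)/1728 = g₂³/(g₂³ - 27 g₃²)` and by the values at the points of finite order of the Weber functions
`(g₂ g₃/(g₂³ - 27 g₃²)) ℘_L(z)`. It is the maximal abelian extension of `k` (Weber, Fueter, Hasse).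
-/

set_option autoImplicit false

namespace Pool.Agent.MUXZ

open Pool.Agent.MU3Z

/-- The generator `w` of the ring of integers `ℤ[w]` of `ℚ(√-d)`, `d` squarefree: `(1 + √-d)/2` if
`d ≡ 3` modulo `4`, and `√-d` otherwise. -/
noncomputable def wd (d : ℕ) : ℂ := if d % 4 = 3 then (1 + rt d) / 2 else rt d

/-- The lattice `L` has complex multiplication by the ring of integers `ℤ[w]` of `ℚ(√-d)`. -/
def HasCM (d : ℕ) (L : PeriodPair) : Prop := ∀ z ∈ L.lattice, wd d * z ∈ L.lattice

/-- The discriminant `g₂³ - 27 g₃²` of the lattice `L`. -/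
noncomputable def dsc (L : PeriodPair) : ℂ := L.g₂ ^ 3 - 27 * L.g₃ ^ 2

/-- The subfield of `ℂ` generated by `√-d`, the numbers `j(L)/1728` and the values at the points
of finite order of the Weber functions `(g₂ g₃ / (g₂³ - 27 g₃²)) ℘(z)`, for all lattices `L` with
complex multiplication by the ring of integers of `ℚ(√-d)`. -/
noncomputable def weberField (d : ℕ) : IntermediateField ℚ ℂ :=
  IntermediateField.adjoin ℚ ({rt d} ∪ {t : ℂ | ∃ L : PeriodPair, HasCM d L ∧
    (t = L.g₂ ^ 3 / dsc L ∨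
      ∃ (n : ℕ) (z : ℂ), n ≠ 0 ∧ n * z ∈ L.lattice ∧ z ∉ L.lattice ∧
        t = L.g₂ * L.g₃ / dsc L * L.weierstrassP z)})

end Pool.Agent.MUXZ
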