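import Pool.Agent.MUX.ZY
import Pool.Agent.MUX.HYAll
import Pool.Agent.MUX.K_GALX
import Pool.Agent.MUX.K_GENX
import Pool.Agent.MUX.I_ARF
import Pool.Agent.MUX.I_BIJ
import Pool.Agent.MUX.I_CHI
import Pool.Agent.MUX.I_XMX
import Pool.Agent.MUX.I_E0
import Pool.Agent.MUX.I_EPS2
import Pool.Agent.MUX.I_EPS3
import Pool.Agent.MUX.I_FOU
import Pool.Agent.MUX.I_GAM
import Pool.Agent.MUX.I_GEN
import Pool.Agent.MUX.I_HFX
import Pool.Agent.MUX.I_HIT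
import Pool.Agent.MUX.I_I3
import Pool.Agent.MUX.I_IAF
import Pool.Agent.MUX.I_IAG
import Pool.Agent.MUX.I_LAY
import Pool.Agent.MUX.I_PQF
import Pool.Agent.MUX.I_PTP
import Pool.Agent.MUX.I_RPR
import Pool.Agent.MUX.I_SUB
import Pool.Agent.MUX.I_TH
import Pool.Agent.MUX.I_TSH
import Pool.Agent.MUX.I_XXF

/-!
# MUX, block I: assembly (helper3)
-/

set_option autoImplicit false

namespace Pool.Agent.MUXI

open Pool.Agent.MUXF Pool.Agent.MUXU Pool.Agent.MUXC Pool.Agent.MUXK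

theorem z_HFX : Si_HFX := ti_HFX
theorem z_FOU : Si_FOU := ti_FOU z_HFX
theorem z_PQF : Si_PQF := ti_PQF xf_IDL
theorem z_EPS3 : Si_EPS3 := ti_EPS3 z_PQF xf_ALG
theorem z_EPS2 : Si_EPS2 := ti_EPS2
theorem z_IAF : Si_IAF := ti_IAF u_DET
theorem z_IAG : Si_IAG := ti_IAG z_IAF
theorem z_ARF : Si_ARF := ti_ARF z_IAF z_IAG
theorem z_RPR : Si_RPR := ti_RPR xf_ALG xf_IDL xf_NIM
theorem z_HIT : Si_HIT := ti_HIT z_IAF z_IAG z_RPR MUXY.z_MUI MUXY.z_UNJ xf_ALG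
theorem z_XXF : Si_XXF := ti_XXF z_HIT z_ARF z_RPR z_IAF
theorem z_E0 : Si_E0 := ti_E0 z_ARF xf_NIM
theorem z_LAY : Si_LAY := ti_LAY
theorem z_SUB : Si_SUB := ti_SUB z_LAY z_IAF
theorem z_GAM : Si_GAM := ti_GAM z_LAY t_GENX
theorem z_BIJ : Si_BIJ := ti_BIJ t_GALX
theorem z_PTP : Si_PTP := ti_PTP
theorem z_TSH : Si_TSH := ti_TSH z_PTP z_PQF xf_ALG
theorem z_TH : Si_TH := ti_TH z_TSH z_PQF
theorem z_GEN : Si_GEN := ti_GEN t_GALX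

theorem z_CHI : Si_CHI := ti_CHI
theorem z_XMX : Si_XMX := ti_XMX z_XXF z_ARF z_LAY

theorem z_I3 (hHY : Pool.Agent.MUXHY.Sy_HFX) : Si_I3 :=
  ti_I3 z_HFX z_CHI z_FOU z_EPS3 z_EPS2 z_ARF z_XXF z_E0 z_SUB z_GAM z_XMX z_BIJ z_TH z_GEN
    MUXY.z_ALM hHY

end Pool.Agent.MUXI
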