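import Pool.Agent.MUX.ZY
import Pool.Agent.MUX.XTMain
import Pool.Agent.MUX.HYAll
import Pool.Agent.MU3.Q_ALL
import Pool.Agent.MUX.R2All
import Pool.Agent.MUX.R3All
import Pool.Agent.MUX.W_GRB
import Pool.Agent.MUX.N_BIN
import Pool.Agent.MUX.N_DSC
import Pool.Agent.MUX.N_DSI
import Pool.Agent.MUX.N_DV
import Pool.Agent.MUX.N_FGG
import Pool.Agent.MUX.N_FK
import Pool.Agent.MUX.N_GD
import Pool.Agent.MUX.N_GDT
import Pool.Agent.MUX.N_GJ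
import Pool.Agent.MUX.N_GP
import Pool.Agent.MUX.N_GTHX
import Pool.Agent.MUX.N_GV
import Pool.Agent.MUX.N_LOC
import Pool.Agent.MUX.N_NFE
import Pool.Agent.MUX.N_QXP
import Pool.Agent.MUX.N_RET
import Pool.Agent.MUX.N_UNIT
import Pool.Agent.MUX.N_ZL

/-!
# MUX, blocks G and H: assembly (helper3)
-/

set_option autoImplicit false

namespace Pool.Agent.MUXN

open Pool.Agent.MUXF Pool.Agent.MUXU Pool.Agent.MUXC Pool.Agent.MU3B Pool.Agent.MUX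
open _root_.MU3

theorem z_DV : Sg_DV := tg_DV
theorem z_GV : Sg_GV := tg_GV
theorem z_GD : Sg_GD := tg_GD
theorem z_GP : Sg_GP := tg_GP z_GV z_GD
theorem z_RET : Sg_RET := tg_RET
theorem z_NFE : Sg_NFE := tg_NFE
theorem z_FGG : Sg_FGG := tg_FGG
theorem z_DSC : Sg_DSC := tg_DSC tg_DSI
theorem z_ZL : Sg_ZL := tg_ZL
theorem z_FK : Sg_FK := tg_FK u_AUF
theorem z_UNIT : Sg_UNIT := tg_UNIT xf_IDL xf_NIM
theorem z_QXP : Sg_QXP := tg_QXP z_UNIT xf_ALG xf_IDL xf_QB xf_BDD xf_TSM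
theorem z_GDT : Sg_GDT := tg_GDT z_QXP MUXT.main_FTI xf_CHI MUXY.z_CON MUXY.z_ALP MUXY.z_ALM
  MUXY.z_FEC MUXY.z_COP

end Pool.Agent.MUXN
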