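import Pool.Agent.MUX.StZX
import Pool.Agent.MUX.StIX
import Pool.Agent.MUX.StYR

/-!
# MUX: all inputs of block J (helper3)
-/

set_option autoImplicit false

open NumberField IsDedekindDomain

namespace Pool.Agent.MUXZ

open _root_.MU3 Pool.Agent.MU3 Pool.Agent.MU3A Pool.Agent.MU3B Pool.Agent.RI Pool.Agent.RID
  Pool.Agent.MUX Pool.Agent.MUXK Pool.Agent.MUXJ Pool.Agent.MUXW
open Pool.Agent.MU3V (Sub GD)

/-- the input of block I for the norm to any field `D ≤ RF (lvX p f n)` -/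
theorem eInp (hME : Sy_MEM) (hCX : Sy_CXS)
    {p : ℕ} {A B : ℤ} {P : Ideal (OO A B)} {V : ValuationSubring ℂ} {f : ℕ}
    (hS : SetP p A B P V f) (hT : TorX A B) (hLV : Sz_LVX)
    {ι : Type} [Fintype ι] (R : Reps A B (p * f) ι) (c : ι → ℤ) {H : ι → Finset ℂ}
    {θ : ∀ n : ℕ, (RF (idl (A := A) (B := B) (lvX p f n)) : IntermediateField (kk A B) ℂ)}
    (hth : ThN p f R H θ)
    (hEW : ∀ n : ℕ, 1 ≤ n →
      ∀ (H : ι → Finset ℂ), (∀ i, IsHalf (R.L i) (aX p f : ℂ) (H i)) →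
      ∀ (w : OO A B → ℤ), MUXE.OddW p P (lvX p f n) w →
      ∀ (D : IntermediateField ℚ ℂ) (h : kk A B ≤ D),
        (∀ y ∈ D, y ∈ RF (idl (A := A) (B := B) (lvX p f n))) →
      let := algC h
      ∀ (C : (D ≃ₐ[kk A B] D) → ℂ),
      (∀ τ : D ≃ₐ[kk A B] D, ∃ y : D, (y : ℂ) = C 1 ∧ ((τ y : D) : ℂ) = C τ) →
      (∀ τ : D ≃ₐ[kk A B] D, ∃ S, MUXE.HalfS R (lvX p f n) h τ S ∧
        C τ = ∏ q ∈ S, ThetaH (R.L q.1) (H q.1) (pt R (lvX p f n) q.1 (Quotient.out q.2))) →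
      ∀ g : (D ≃ₐ[kk A B] D) → ℤ,
        (∃ y ∈ D, y ^ p = ∏ᶠ τ : D ≃ₐ[kk A B] D, C τ ^ g τ) →
        ∀ τ' : D ≃ₐ[kk A B] D,
          HfX p V (1 / 2 * ∑ᶠ τ : D ≃ₐ[kk A B] D, (g τ : ℂ) *
            MUXE.TTw R (fun i => (c i : ℂ)) w (lvX p f n) (aX p f) h (τ * τ')))
    (n : ℕ) (hn : 1 ≤ n) (D : IntermediateField ℚ ℂ) (h : kk A B ≤ D)
    (hD : ∀ y ∈ D, y ∈ RF (idl (A := A) (B := B) (lvX p f n))) :
    MUXI.EInp p P V f R c n h (fun τ => cWt h (θ n) τ) := by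
  obtain ⟨hl0, _, _, hl2, hlu, hodd, hac, _, _, hcop⟩ := hLV p A B P V f hS n
  have hb : (idl (A := A) (B := B) (lvX p f n)) ≠ ⊥ := by
    intro hh
    apply hl0
    have := (Ideal.span_singleton_eq_bot.mp hh)
    exact_mod_cast (by
      have h1 := congrArg (fun x : OO A B => x.re) this
      simpa using h1 : ((lvX p f n : ℕ) : ℤ) = 0)
  have := hT.fin _ hb
  have := hT.gal _ hb
  obtain ⟨h1, h2, h3, _, _⟩ := hME A B _ (hT.fin _ hb) (hT.gal _ hb) (hT.comm _ hb) D h hD (θ n)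
    (hth.ne n)
  let := algC h
  refine ⟨(h2 1).2, ?_, ?_⟩
  · intro τ
    refine ⟨⟨cWt h (θ n) 1, (h2 1).1⟩, rfl, ?_⟩
    have hm : cW h (θ n) ∈ D := by rw [h1]; exact (h2 1).1
    have := h3 τ hm
    have he : (⟨cWt h (θ n) 1, (h2 1).1⟩ : D) = ⟨cW h (θ n), hm⟩ := Subtype.ext h1.symm
    rw [he]; exact this
  · intro w hw g hg τ'
    refine hEW n hn H hth.half w hw D h hD (fun τ => cWt h (θ n) τ) ?_ ?_ g hg τ'
    · intro τ
      refine ⟨⟨cWt h (θ n) 1, (h2 1).1⟩, rfl, ?_⟩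
      have hm : cW h (θ n) ∈ D := by rw [h1]; exact (h2 1).1
      have := h3 τ hm
      have he : (⟨cWt h (θ n) 1, (h2 1).1⟩ : D) = ⟨cW h (θ n), hm⟩ := Subtype.ext h1.symm
      rw [he]; exact this
    · intro τ
      obtain ⟨S, hS1, hS2, hS3⟩ := hCX A B hS.case.toCQ hT (p * f) ι R (lvX p f n) hl0
        (fun i => hcop _ (R.cop i)) hl2 (aX p f) H (by unfold aX; omega) hac hth.half (θ n)
        (hth.pt n) D h hD τ
      refine ⟨S, ⟨fun q hq => (hS1 q).2 (Or.inl hq), fun q hq => (hS1 q).1 hq, hS2⟩, hS3⟩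

theorem tz_INP (hLV : Sz_LVX) (hLF : Sz_LVF) (hTH : Sz_THN) (hIW : Sz_INW) (hME : Sy_MEM)
    (hCX : Sy_CXS) (hEW : MUXE.Sxe_EW) (hI3 : MUXI.Si_I3) (hRX : MUXY.Sy_REX)
    (hCP : MUXY.Sy_CPD) (hRN : MUXE.Sxe_RNG)
    (p : ℕ) (A B : ℤ) (V : ValuationSubring ℂ) (hT : TorX A B)
    (hE : ∀ P : Ideal (OO A B), CaseP p A B → IsPN p P → OverI V P → MUXE.RedE p P V) :
    InpAll p A B V := by
  intro P f hS K₀ K Bn _ _ _ hX hK hH hk hk₀ hkK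
  have hp : p.Prime := by
    rcases hS.case.split with h | h <;> rw [h.1] <;> decide
  have : Fact p.Prime := ⟨hp⟩
  have hCQ : CQ A B := hS.case.toCQ
  obtain ⟨hd3, hd4⟩ := hCP p A B hS.case
  obtain ⟨ι, hι, ⟨R⟩⟩ := hRX A B hCQ hd3 hd4 (p * f) (Nat.mul_ne_zero hp.ne_zero hS.f0)
  have hodd := (hLV p A B P V f hS 0).2.2.2.2.2.1
  obtain ⟨H, hHalf, hθ⟩ := hTH A B hCQ hT (p * f) ι R (aX p f) hodd
  have hθ' : ∀ n : ℕ, ∃ θ : (RF (idl (A := A) (B := B) (lvX p f n)) :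
      IntermediateField (kk A B) ℂ),
      (θ : ℂ) = ThetaH (R.L R.i0) (H R.i0) (pt R (lvX p f n) R.i0 1) ∧
      (θ : ℂ) = ThetaH (R.L R.i0) (H R.i0) (R.om R.i0 / emb ((lvX p f n : ℕ) : OO A B)) ∧
      θ ≠ 0 := fun n =>
    hθ (lvX p f n) (hLV p A B P V f hS n).1 (hLV p A B P V f hS n).2.2.2.2.1
      (hLV p A B P V f hS n).2.2.2.2.2.2.1
  choose θ hθ1 hθ2 hθ3 using hθ'
  have hth : ThN p f R H θ := ⟨hHalf, hθ1, hθ2, hθ3⟩
  obtain ⟨S, hW⟩ := hIW p A B P V f hS hT ι R H θ hth K₀ K Bn hX hK hH hk hk₀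
  obtain ⟨hmu, c, hc, hEW'⟩ := hEW p A B P V f hS (hRN A B hCQ) (hE P hS.case hS.hP hS.hV) hT ι R
  have hNL : NLex A B := ⟨_, _, _, R.nl R.i0⟩
  have hK₀ : ∀ y ∈ K₀, y ∈ RF (idl (A := A) (B := B) (lvX p f 0)) := fun y hy => hK y (hX.le hy)
  have : FiniteDimensional ℚ K₀ := FiniteDimensional.of_injective (IntermediateField.inclusion hX.le).toLinearMap
    (IntermediateField.inclusion hX.le).injective
  have : ∀ n, FiniteDimensional ℚ ↥(K₀ ⊔ Bn n) := fun n =>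
    FiniteDimensional.of_injective (IntermediateField.inclusion (sup_le_sup_right hX.le (Bn n))).toLinearMap
      (IntermediateField.inclusion (sup_le_sup_right hX.le (Bn n))).injective
  have hDn : ∀ n, ∀ y ∈ K₀ ⊔ Bn n, y ∈ RF (idl (A := A) (B := B) (lvX p f n)) := fun n =>
    hLF p A B hS.case hT hNL f hS.f0 K₀ hK₀ n (Bn n) (hX.b0.lay n)
  refine ⟨S, fun n => cW (hk n) (θ n), fun n => cW (hk₀ n) (θ n), 0, ?_⟩
  have hi3 := hI3 p A B P V f hS hT ι R hmu c hc K₀ Bn hX.b0 hX.cop hK₀ hk₀ hkK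
    (fun n τ => cWt (hk₀ n) (θ n) τ)
    (fun n hn => eInp hME hCX hS hT hLV R c hth hEW' n hn (K₀ ⊔ Bn n) (hk₀ n) (hDn n))
    (fun n => cW (hk₀ n) (θ n)) hW.mem₀ ?_
  · exact ⟨hW.mem, hW.ne, hW.mem₀, hW.norm, hW.prime, hW.su, hW.nrm, hW.kol, hi3⟩
  · intro n _
    have hb : (idl (A := A) (B := B) (lvX p f n)) ≠ ⊥ := by
      intro hh
      apply (hLV p A B P V f hS n).1
      have := (Ideal.span_singleton_eq_bot.mp hh)
      exact_mod_cast (by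
        have h1 := congrArg (fun x : OO A B => x.re) this
        simpa using h1 : ((lvX p f n : ℕ) : ℤ) = 0)
    exact (hME A B _ (hT.fin _ hb) (hT.gal _ hb) (hT.comm _ hb) _ (hk₀ n) (hDn n) (θ n)
      (hth.ne n)).1

end Pool.Agent.MUXZ
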