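import Pool.Agent.MUX.StZX
import Pool.Agent.MUX.J_LAY

/-!
# MUX, last glue, module LVF: the fields `K B_n` are in the ray class fields of level `m_n`
-/

set_option autoImplicit false

open NumberField IsDedekindDomain

namespace Pool.Agent.MUXZ

open _root_.MU3 Pool.Agent.MU3 Pool.Agent.MU3A Pool.Agent.MU3B Pool.Agent.RI Pool.Agent.RID
  Pool.Agent.MUX Pool.Agent.MUXK Pool.Agent.MUXJ Pool.Agent.MUXW
open Pool.Agent.MU3V (Sub GD)

noncomputable section

namespace Lvf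

/-- the layer is the field of `ζ + ζ⁻¹`, `ζ` of order `q0 p * p ^ n` -/
lemma layer_eq {p : ℕ} (hp : p = 2 ∨ p = 3) (n : ℕ) (Q : IntermediateField ℚ ℂ)
    (hQ : IsLayer p n Q) : ∃ ζ : ℂ, ζ ^ (q0 p * p ^ n) = 1 ∧
      Q = IntermediateField.adjoin ℚ {ζ + ζ⁻¹} := by
  rcases hp with rfl | rfl
  · refine ⟨MU3I.zt (2 ^ (n + 2)), ?_, Lay.uniq2 n Q hQ⟩
    have h : q0 2 * 2 ^ n = 2 ^ (n + 2) := by
      rw [pow_add, mul_comm]
      rfl
    rw [h]
    exact (MU3I.Ilay.zt_prim _ (pow_ne_zero _ (by norm_num))).pow_eq_one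
  · refine ⟨MU3I.zt (3 ^ (n + 1)), ?_, MU3I.t_ILAY n Q hQ⟩
    have h : q0 3 * 3 ^ n = 3 ^ (n + 1) := by
      rw [pow_succ, mul_comm]
      rfl
    rw [h]
    exact (MU3I.Ilay.zt_prim _ (pow_ne_zero _ (by norm_num))).pow_eq_one

/-- the ideal of a nonzero natural number is not zero -/
lemma idl_ne_bot {A B : ℤ} {M : ℕ} (hM : M ≠ 0) : idl (A := A) (B := B) M ≠ ⊥ := by
  rw [Ne, Ideal.span_singleton_eq_bot]
  intro h
  have h1 := congrArg QuadraticAlgebra.re h
  rw [QuadraticAlgebra.re_natCast] at h1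
  exact hM (by exact_mod_cast h1)

/-- divisibility of levels -/
lemma idl_le {A B : ℤ} {M N : ℕ} (h : M ∣ N) : idl (A := A) (B := B) N ≤ idl M := by
  rw [Ideal.span_singleton_le_span_singleton]
  exact Nat.cast_dvd_cast h

end Lvf

open Lvf in
theorem tz_LVF : Sz_LVF := by
  intro p A B hc hT hN f hf K hK n Bn hB
  have hpp : p = 2 ∨ p = 3 := by
    rcases hc.split with ⟨h, -⟩ | ⟨h, -⟩
    · exact Or.inr h
    · exact Or.inl h
  have hp0 : p ≠ 0 := by omega
  have hq0 : q0 p ≠ 0 := by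
    rcases hpp with rfl | rfl
    · show (4 : ℕ) ≠ 0
      norm_num
    · show (3 : ℕ) ≠ 0
      norm_num
  have hM : q0 p * p ^ n ≠ 0 := mul_ne_zero hq0 (pow_ne_zero _ hp0)
  have hm : idl (A := A) (B := B) (lvX p f n) ≠ ⊥ := by
    apply idl_ne_bot
    unfold lvX
    exact mul_ne_zero (mul_ne_zero hf hq0) (pow_ne_zero _ hp0)
  set F := (RF (idl (A := A) (B := B) (lvX p f n))).restrictScalars ℚ with hF
  have hKF : K ≤ F := by
    intro y hy
    refine hT.mono _ _ (idl_le ?_) (hK y hy)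
    unfold lvX
    exact Nat.mul_dvd_mul_left _ (pow_dvd_pow _ (Nat.zero_le n))
  have hBF : Bn ≤ F := by
    obtain ⟨ζ, hζ, he⟩ := layer_eq hpp n Bn hB
    have h1 : ζ ∈ RF (idl (A := A) (B := B) (lvX p f n)) := by
      obtain ⟨b, L, om, hL⟩ := hN
      have hfix : FixK A B (RingEquiv.refl ℂ) := rfl
      obtain ⟨a, -, ha⟩ := hT.act _ hm (RingEquiv.refl ℂ) hfix
      obtain ⟨b', L', om', mu, -, hA⟩ := ha b L om hL
      refine (hT.zeta (q0 p * p ^ n) _ a (RingEquiv.refl ℂ) b L L' om mu hm hfix hM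
        (idl_le ?_) hL hA ζ hζ).1
      unfold lvX
      rw [mul_assoc]
      exact Dvd.intro_left _ rfl
    rw [he, IntermediateField.adjoin_simple_le_iff]
    show ζ + ζ⁻¹ ∈ RF (idl (A := A) (B := B) (lvX p f n))
    exact add_mem h1 (inv_mem h1)
  intro y hy
  exact (sup_le hKF hBF) hy

end

end Pool.Agent.MUXZ
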