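import Pool.Agent.MUX.EXAll
import Pool.Agent.MUX.E_RED2
import Pool.Agent.MUX.E_RED3
import Pool.Agent.MUX.JAll
import Pool.Agent.MUX.Z_INP
import Pool.Agent.MUX.Z_INW
import Pool.Agent.MUX.Z_LVF
import Pool.Agent.MUX.Z_LVX
import Pool.Agent.MUX.Z_THN
import Pool.Agent.MUX.ZI
import Pool.Agent.MUX.KAllX
import Pool.Agent.MUX.ZN
import Pool.Agent.MUX.ZW
import Pool.Agent.MUX.StGF

/-!
# MUX: the final theorem for split `p`, `p = 2, 3` (helper3)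
-/

set_option autoImplicit false

namespace Pool.Agent.MUXZ

open _root_.MU3 Pool.Agent.MU3 Pool.Agent.MU3A Pool.Agent.MU3B Pool.Agent.RI Pool.Agent.RID
  Pool.Agent.MUX Pool.Agent.MUXK Pool.Agent.MUXJ Pool.Agent.MUXW Pool.Agent.MUX2 Pool.Agent.MUX3
open Pool.Agent.MUXU Pool.Agent.MUXF

/-- good reduction of the normalised lattices -/
theorem z_GRX : MUXN.Sg_GRX := by
  intro p A B hC P hP V hV b L om hL
  have hCQ : MUX.CQ A B := hC.toCQ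
  obtain ⟨hd3, hd4⟩ := MUXY.z_CPD p A B hC
  have hF : LatFacts A B := MUXY.z_LAF A B hCQ hd3 hd4
  have hr : MUXE.RingE A B := MUXE.xe_RNG A B hCQ
  have hdom : IsDomain (OO A B) := by
    have := hr.ded
    infer_instance
  have hne : (⊤ : Ideal (OO A B)) ≠ ⊥ := bot_ne_top.symm
  have hmem : kap L ∈ (RF (⊤ : Ideal (OO A B)) : IntermediateField (kk A B) ℂ) :=
    IntermediateField.subset_adjoin _ _ ⟨b, L, om, hL, Or.inl rfl⟩
  refine ⟨GRB.alg_RF hCQ (MUXC.c_TOR A B hCQ) ⊤ hne hmem, ?_⟩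
  obtain ⟨o1, o2⟩ := MUXE.red_over hr hV
  rcases hC.split with ⟨hp, h8⟩ | ⟨hp, h8⟩
  · subst hp
    obtain ⟨hQ, hne', hP0⟩ := MUXE.red_other (by norm_num) hCQ hr (by exact_mod_cast h8) hP
    have hA : Above3 P V := by
      refine ⟨?_, o1, o2⟩
      have := o1 _ hP.mem
      obtain ⟨φ, hφ⟩ := hr.hom
      rw [← hφ, map_natCast] at this
      exact_mod_cast this
    obtain ⟨e1, e2, -⟩ := r3_GD3 A B hC h8 hF P (MUX.cjI P) V hP hQ hne' hA b L om hL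
    exact ⟨e1, e2⟩
  · subst hp
    obtain ⟨hQ, hne', hP0⟩ := MUXE.red_other (by norm_num) hCQ hr
      (by exact_mod_cast (dvd_trans (by norm_num) h8 : (2 : ℤ) ∣ B ^ 2 + 4 * A - 1)) hP
    have hA : Above2 P V := by
      refine ⟨?_, o1, o2⟩
      have := o1 _ hP.mem
      obtain ⟨φ, hφ⟩ := hr.hom
      rw [← hφ, map_natCast] at this
      exact_mod_cast this
    obtain ⟨e1, e2, -⟩ := r2_GD2 A B hC h8 hF P (MUX.cjI P) V hP hQ hne' hA b L om hL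
    exact ⟨e1, e2⟩

/-- the reduction of the normalised lattices, in the form of block E -/
theorem z_RED (p : ℕ) (A B : ℤ) (V : ValuationSubring ℂ)
    (P : Ideal (OO A B)) (hC : CaseP p A B) (hP : IsPN p P) (hV : OverI V P) :
    MUXE.RedE p P V := by
  have hCQ : MUX.CQ A B := hC.toCQ
  obtain ⟨hd3, hd4⟩ := MUXY.z_CPD p A B hC
  have hF : LatFacts A B := MUXY.z_LAF A B hCQ hd3 hd4
  have hr : MUXE.RingE A B := MUXE.xe_RNG A B hCQ
  rcases hC.split with ⟨hp, -⟩ | ⟨hp, -⟩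
  · subst hp
    exact MUXE.red3 r3_GD3 r3_IN3 r2_GR2 r3_CH3 A B hC hr hF P hP V hV
  · subst hp
    exact MUXE.red2 r2_GD2 r2_IN2 r2_GR2 r2_CH2 A B hC hr hF P hP V hV

theorem z_RATH : MUXHY.Sy_RAT := by
  intro A B hCQ b L om hL
  exact MUXY.z_ALQ A B hCQ (MUXC.c_TOR A B hCQ) b L om hL

theorem z_HFX : MUXHY.Sy_HFX := by
  refine MUXHY.y_HFX MUXT.main_FTI z_RATH ?_
  refine MUXN.tg_GFX MUXC.c_TOR ?_ MUXN.z_GDT z_GRX MUXHY.y_ROU ?_
  · exact MUXN.tg_GTHX (MUXN.tg_GJ (MUXN.tg_BIN MU3Q.wq MUXN.z_GP MUXN.z_DV) MUXN.z_RET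
      MUXN.z_NFE MUXN.tg_LOC MUXN.z_FGG) MUXN.z_DSC MUXN.z_ZL MUXN.z_FK MUXN.z_FGG
  · intro p A B P V f hS
    exact (MUXHY.y_IDE p A B P V f hS).2.2.2.2.1

theorem z_I3 : MUXI.Si_I3 := MUXI.z_I3 z_HFX

/-- THE MAIN THEOREM -/
theorem z_main (p : ℕ) (A B : ℤ) (hC : CaseP p A B)
    (F M K : IntermediateField ℚ ℂ) [FiniteDimensional ℚ M] (hF : kk A B ≤ F) (h : F ≤ M)
    (a : ℕ) (hT : TorU A B F) (hG : IsGalois F (IntermediateField.extendScalars h))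
    (ha : Module.finrank F (IntermediateField.extendScalars h) = p ^ a) (hK : K ≤ M) :
    ∃ C : ℕ, ∀ (n : ℕ) (Q : IntermediateField ℚ ℂ), IsLayer p n Q →
      padicValNat p (classNo (K ⊔ Q)) ≤ C * (n + 1) ^ C := by
  obtain ⟨P, V, hP, hV, hpV⟩ := j_VEX p A B hC
  have hCQ : MUX.CQ A B := hC.toCQ
  have hTor := MUXC.c_TOR A B hCQ
  have hR := z_RED p A B V P hC hP hV
  obtain ⟨hd3, hd4⟩ := MUXY.z_CPD p A B hC
  have hNL : NLex A B := by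
    obtain ⟨L, om, hL⟩ := MUXY.z_NLE A B hCQ hd3 hd4 ⊤ (by
      have := (MUXE.xe_RNG A B hCQ).ded
      exact bot_ne_top.symm)
    exact ⟨⊤, L, om, hL⟩
  have hI : InpAll p A B V := tz_INP tz_LVX tz_LVF (tz_THN z_THG)
    (tz_INW tz_LVX tz_LVF z_MEM z_TOW z_SUC z_I1 z_KOL) z_MEM z_CXS MUXE.xe_EW
    z_I3 MUXY.z_REX MUXY.z_CPD MUXE.xe_RNG p A B V hTor
    (fun P hC hP hV => z_RED p A B V P hC hP hV)
  exact j_FIN k_MAINKX p A B P V hC hP hV hpV (j_UNH p A B P V hR hTor) hTor hNL hI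
    F M K hF h a hT hG ha hK

end Pool.Agent.MUXZ
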