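import Pool.Agent.MUX.ZFin
import Pool.Agent.MUX.ZUni

/-!
# MUX: the final theorem in terms of the field `weberField d` (helper3)
-/

set_option autoImplicit false

namespace Pool.Agent.MUXZ

open _root_.MU3 Pool.Agent.MU3 Pool.Agent.MU3A Pool.Agent.MU3B Pool.Agent.RI Pool.Agent.RID
  Pool.Agent.MUX Pool.Agent.MUXK Pool.Agent.MUXJ Pool.Agent.MUXW Pool.Agent.MU3Z

/-- from the statement for ray class fields to the statement for `weberField d` -/
theorem to_weber {p d : ℕ} (hd : Squarefree d) (h1 : d ≠ 1) (h3 : d ≠ 3)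
    (T : TorX (pA d) (pB d))
    (H : ∀ (F M K : IntermediateField ℚ ℂ) [FiniteDimensional ℚ M] (_ : kk (pA d) (pB d) ≤ F)
      (h : F ≤ M) (a : ℕ), TorU (pA d) (pB d) F →
      IsGalois F (IntermediateField.extendScalars h) →
      Module.finrank F (IntermediateField.extendScalars h) = p ^ a → K ≤ M →
      ∃ C : ℕ, ∀ (n : ℕ) (Q : IntermediateField ℚ ℂ), IsLayer p n Q →
        padicValNat p (classNo (K ⊔ Q)) ≤ C * (n + 1) ^ C)
    (K : IntermediateField ℚ ℂ) [FiniteDimensional ℚ K] (hK : K ≤ weberField d) :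
    ∃ C : ℕ, ∀ (n : ℕ) (Q : IntermediateField ℚ ℂ), IsLayer p n Q →
      padicValNat p (classNo (K ⊔ Q)) ≤ C * (n + 1) ^ C := by
  have hC := cq_p hd
  have hfk : FiniteDimensional ℚ (kk (pA d) (pB d)) := (j_FLD (pA d) (pB d) hC).1
  have hfF : FiniteDimensional ℚ ↥(K ⊔ kk (pA d) (pB d)) :=
    IntermediateField.finiteDimensional_sup K (kk (pA d) (pB d))
  have hUF : K ⊔ kk (pA d) (pB d) ≤ UF hC T := by
    refine sup_le (fun x hx => weber_le hd h1 h3 T x (hK hx)) (fun x hx => ?_)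
    refine ⟨⊤, ?_, ?_⟩
    · have hdom : IsDomain (OO (pA d) (pB d)) := (MUXE.te_RNG _ _ hC).ded.toIsDomain
      exact bot_ne_top.symm
    · exact (RF (⊤ : Ideal (OO (pA d) (pB d)))).algebraMap_mem ⟨x, hx⟩
  refine H (K ⊔ kk (pA d) (pB d)) (K ⊔ kk (pA d) (pB d)) K le_sup_right le_rfl 0
    (fun x hx => hUF hx) ?_ ?_ le_sup_left
  · rw [IntermediateField.extendScalars_self]
    infer_instance
  · rw [IntermediateField.extendScalars_self, pow_zero]
    exact IntermediateField.finrank_bot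

theorem caseP_p {p d : ℕ} (hd : Squarefree d) (hp : p = 3 ∧ 3 ∣ d + 1 ∨ p = 2 ∧ 8 ∣ d + 1) :
    CaseP p (pA d) (pB d) := by
  refine { cq_p hd with split := ?_ }
  have h := absD_p d
  unfold absD at h
  rcases hp with ⟨rfl, hp⟩ | ⟨rfl, hp⟩
  · left
    refine ⟨rfl, ?_⟩
    split_ifs at h <;> omega
  · right
    refine ⟨rfl, ?_⟩
    split_ifs at h <;> omega

/-- every finite extension of `ℚ` inside the maximal abelian extension of `ℚ(√-d)` -/
theorem final (p d : ℕ) (hd : Squarefree d) (hp : p = 3 ∧ 3 ∣ d + 1 ∨ p = 2 ∧ 8 ∣ d + 1)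
    (K : IntermediateField ℚ ℂ) [FiniteDimensional ℚ K] (hK : K ≤ weberField d) :
    ∃ C : ℕ, ∀ (n : ℕ) (Q : IntermediateField ℚ ℂ), IsLayer p n Q →
      padicValNat p (classNo (K ⊔ Q)) ≤ C * (n + 1) ^ C := by
  have h1 : d ≠ 1 := by rintro rfl; rcases hp with ⟨rfl, hp⟩ | ⟨rfl, hp⟩ <;> omega
  have h3 : d ≠ 3 := by rintro rfl; rcases hp with ⟨rfl, hp⟩ | ⟨rfl, hp⟩ <;> omega
  refine to_weber hd h1 h3 (MUXC.c_TOR _ _ (cq_p hd)) ?_ K hK
  intro F M K _ hF h a hT hG ha hK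
  exact z_main p _ _ (caseP_p hd hp) F M K hF h a hT hG ha hK

end Pool.Agent.MUXZ
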